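import Pool.Agent.Lib.MP_322c5f_al.OA

/-! job SQ-8: recursion for `phi`. -/

set_option autoImplicit false

open Equiv Finset Nat

namespace Pool.MP322

variable {n : ℕ}

/-! ### diagonal permutations -/

/-- the diagonal action of `k` on two copies of `Fin N`. -/
noncomputable def dgp {N : ℕ} (b b' : Fin N ↪ Fin n) (k : Perm (Fin N)) : Perm (Fin n) :=
  k.viaEmbedding b * k.viaEmbedding b'

theorem dgp_left {N : ℕ} (b b' : Fin N ↪ Fin n) (hbb : ∀ i j, b i ≠ b' j) (k : Perm (Fin N))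
    (i : Fin N) : dgp b b' k (b i) = b (k i) := by
  unfold dgp
  rw [Perm.mul_apply, Perm.viaEmbedding_apply_of_notMem k b' (b i), Perm.viaEmbedding_apply]
  rintro ⟨j, hj⟩
  exact hbb i j hj.symm

theorem dgp_right {N : ℕ} (b b' : Fin N ↪ Fin n) (hbb : ∀ i j, b i ≠ b' j) (k : Perm (Fin N))
    (i : Fin N) : dgp b b' k (b' i) = b' (k i) := by
  unfold dgp
  rw [Perm.mul_apply, Perm.viaEmbedding_apply, Perm.viaEmbedding_apply_of_notMem]
  rintro ⟨j, hj⟩
  exact hbb j _ hj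

theorem dgp_else {N : ℕ} (b b' : Fin N ↪ Fin n) (k : Perm (Fin N)) (x : Fin n)
    (h : ∀ i, x ≠ b i) (h' : ∀ i, x ≠ b' i) : dgp b b' k x = x := by
  unfold dgp
  rw [Perm.mul_apply, Perm.viaEmbedding_apply_of_notMem (x := x),
    Perm.viaEmbedding_apply_of_notMem]
  · rintro ⟨j, hj⟩
    exact h j hj.symm
  · rintro ⟨j, hj⟩
    exact h' j hj.symm

theorem dgp_mul {N : ℕ} (b b' : Fin N ↪ Fin n) (hbb : ∀ i j, b i ≠ b' j)
    (k l : Perm (Fin N)) : dgp b b' (k * l) = dgp b b' k * dgp b b' l := by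
  ext x
  congr 1
  by_cases h : ∃ i, x = b i
  · obtain ⟨i, rfl⟩ := h
    rw [dgp_left b b' hbb, Perm.mul_apply, Perm.mul_apply, dgp_left b b' hbb, dgp_left b b' hbb]
  · by_cases h' : ∃ i, x = b' i
    · obtain ⟨i, rfl⟩ := h'
      rw [dgp_right b b' hbb, Perm.mul_apply, Perm.mul_apply, dgp_right b b' hbb,
        dgp_right b b' hbb]
    · push Not at h h'
      rw [dgp_else b b' _ x h h', Perm.mul_apply, dgp_else b b' _ x h h', dgp_else b b' _ x h h']

theorem dgp_one {N : ℕ} (b b' : Fin N ↪ Fin n) (hbb : ∀ i j, b i ≠ b' j) :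
    dgp b b' 1 = 1 := by
  have h := dgp_mul b b' hbb 1 1
  rw [mul_one] at h
  exact (mul_eq_left.1 h.symm)

theorem dgp_inv {N : ℕ} (b b' : Fin N ↪ Fin n) (hbb : ∀ i j, b i ≠ b' j)
    (k : Perm (Fin N)) : (dgp b b' k)⁻¹ = dgp b b' k⁻¹ := by
  rw [inv_eq_iff_mul_eq_one, ← dgp_mul b b' hbb, mul_inv_cancel, dgp_one b b' hbb]

/-- a permutation fixing the two ranges pointwise commutes with the diagonal permutations. -/
theorem dgp_comm {N : ℕ} (b b' : Fin N ↪ Fin n) (hbb : ∀ i j, b i ≠ b' j)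
    (g : Perm (Fin n)) (hg : ∀ i, g (b i) = b i) (hg' : ∀ i, g (b' i) = b' i)
    (k : Perm (Fin N)) : g * dgp b b' k = dgp b b' k * g := by
  ext x
  congr 1
  by_cases h : ∃ i, x = b i
  · obtain ⟨i, rfl⟩ := h
    rw [Perm.mul_apply, Perm.mul_apply, dgp_left b b' hbb, hg, hg, dgp_left b b' hbb]
  · by_cases h' : ∃ i, x = b' i
    · obtain ⟨i, rfl⟩ := h'
      rw [Perm.mul_apply, Perm.mul_apply, dgp_right b b' hbb, hg', hg', dgp_right b b' hbb]
    · push Not at h h'
      rw [Perm.mul_apply, Perm.mul_apply, dgp_else b b' _ x h h', dgp_else b b' _ (g x)]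
      · intro i hi
        rw [← hg i] at hi
        exact h i (g.injective hi)
      · intro i hi
        rw [← hg' i] at hi
        exact h' i (g.injective hi)

/-! ### the projection -/

/-- the projection onto the invariants of the diagonal permutations. -/
noncomputable def OIrr.prj (V : OIrr n) {N : ℕ} (b b' : Fin N ↪ Fin n) : Matrix V.ι V.ι ℝ :=
  (1 / (N ! : ℝ)) • ∑ k : Perm (Fin N), V.ρ (dgp b b' k)

theorem OIrr.phi_eq (V : OIrr n) {N : ℕ} (b b' : Fin N ↪ Fin n) :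
    V.phi b b' = (V.prj b b').trace / V.dim := by
  unfold OIrr.phi OIrr.prj OIrr.r
  rw [Matrix.trace_smul, Matrix.trace_sum, ← Finset.sum_div, smul_eq_mul, mul_div_assoc]
  rfl

theorem OIrr.prj_symm (V : OIrr n) {N : ℕ} (b b' : Fin N ↪ Fin n)
    (hbb : ∀ i j, b i ≠ b' j) : (V.prj b b').transpose = V.prj b b' := by
  unfold OIrr.prj
  rw [Matrix.transpose_smul, Matrix.transpose_sum]
  congr 1
  rw [← Equiv.sum_comp (Equiv.inv (Perm (Fin N)))]
  refine Finset.sum_congr rfl fun k _ => ?_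
  rw [V.orth, Equiv.inv_apply, dgp_inv b b' hbb, inv_inv]

theorem OIrr.prj_idem (V : OIrr n) {N : ℕ} (b b' : Fin N ↪ Fin n)
    (hbb : ∀ i j, b i ≠ b' j) : V.prj b b' * V.prj b b' = V.prj b b' := by
  unfold OIrr.prj
  rw [Matrix.smul_mul, Matrix.mul_smul, Finset.sum_mul_sum]
  have h1 : ∀ k : Perm (Fin N),
      ∑ l : Perm (Fin N), V.ρ (dgp b b' k) * V.ρ (dgp b b' l) =
        ∑ l : Perm (Fin N), V.ρ (dgp b b' l) := by
    intro k
    rw [← Equiv.sum_comp (Equiv.mulLeft k) (fun l => V.ρ (dgp b b' l))]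
    refine Finset.sum_congr rfl fun l _ => ?_
    rw [← map_mul, ← dgp_mul b b' hbb, Equiv.coe_mulLeft]
  rw [Finset.sum_congr rfl fun k _ => h1 k, Finset.sum_const, Finset.card_univ,
    Fintype.card_perm, Fintype.card_fin, ← Nat.cast_smul_eq_nsmul ℝ, smul_smul, smul_smul]
  congr 1
  have : (N ! : ℝ) ≠ 0 := by exact_mod_cast Nat.factorial_ne_zero N
  field_simp

theorem trace_mul_transpose_nonneg' {ι : Type} [Fintype ι] (P : Matrix ι ι ℝ) :
    0 ≤ (P * P.transpose).trace := by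
  rw [Matrix.trace]
  refine Finset.sum_nonneg fun i _ => ?_
  rw [Matrix.diag_apply, Matrix.mul_apply]
  refine Finset.sum_nonneg fun j _ => ?_
  rw [Matrix.transpose_apply]
  exact mul_self_nonneg _

theorem OIrr.prj_trace_nonneg (V : OIrr n) {N : ℕ} (b b' : Fin N ↪ Fin n)
    (hbb : ∀ i j, b i ≠ b' j) : 0 ≤ (V.prj b b').trace := by
  have h := trace_mul_transpose_nonneg' (V.prj b b')
  rwa [V.prj_symm b b' hbb, V.prj_idem b b' hbb] at h

theorem OIrr.phi_nonneg (V : OIrr n) {N : ℕ} (b b' : Fin N ↪ Fin n)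
    (hbb : ∀ i j, b i ≠ b' j) : 0 ≤ V.phi b b' := by
  rw [V.phi_eq]
  exact div_nonneg (V.prj_trace_nonneg b b' hbb) V.dim_pos.le

theorem OIrr.phi_le_one (V : OIrr n) {N : ℕ} (b b' : Fin N ↪ Fin n) : V.phi b b' ≤ 1 := by
  unfold OIrr.phi
  have h1 : ∑ k : Perm (Fin N), V.r (k.viaEmbedding b * k.viaEmbedding b') ≤
      ∑ k : Perm (Fin N), (1 : ℝ) :=
    Finset.sum_le_sum fun k _ => (le_abs_self _).trans (V.abs_r_le _)
  rw [Finset.sum_const, Finset.card_univ, Fintype.card_perm, Fintype.card_fin,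
    nsmul_eq_mul, mul_one] at h1
  have h2 : (0 : ℝ) < (N ! : ℝ) := by exact_mod_cast Nat.factorial_pos N
  rw [one_div, inv_mul_le_iff₀ h2, mul_one]
  exact h1

/-! ### trace inequality -/

theorem dot_le_of_sq {ι : Type} [Fintype ι] (K : ℝ) (hK : 0 ≤ K) (x y : ι → ℝ)
    (h : y ⬝ᵥ y ≤ K ^ 2 * (x ⬝ᵥ x)) : x ⬝ᵥ y ≤ K * (x ⬝ᵥ x) := by
  have hx : 0 ≤ x ⬝ᵥ x := by
    unfold dotProduct
    exact Finset.sum_nonneg fun i _ => mul_self_nonneg _
  have hcs : (x ⬝ᵥ y) ^ 2 ≤ (x ⬝ᵥ x) * (y ⬝ᵥ y) := by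
    have := Finset.sum_mul_sq_le_sq_mul_sq Finset.univ x y
    unfold dotProduct
    simpa only [sq] using this
  have h2 : (x ⬝ᵥ y) ^ 2 ≤ (K * (x ⬝ᵥ x)) ^ 2 := by
    calc (x ⬝ᵥ y) ^ 2 ≤ (x ⬝ᵥ x) * (y ⬝ᵥ y) := hcs
      _ ≤ (x ⬝ᵥ x) * (K ^ 2 * (x ⬝ᵥ x)) := mul_le_mul_of_nonneg_left h hx
      _ = (K * (x ⬝ᵥ x)) ^ 2 := by ring
  exact (le_abs_self _).trans (abs_le_of_sq_le_sq h2 (mul_nonneg hK hx))

theorem trace_proj_mul_le {ι : Type} [Fintype ι] [DecidableEq ι] (K : ℝ) (hK : 0 ≤ K)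
    (P M : Matrix ι ι ℝ) (hs : P.transpose = P) (hi : P * P = P)
    (hM : ∀ v : ι → ℝ, (M.mulVec v) ⬝ᵥ (M.mulVec v) ≤ K ^ 2 * (v ⬝ᵥ v)) :
    (P * M).trace ≤ K * P.trace := by
  have h1 : (P * M).trace = (P * M * P).trace := by
    rw [Matrix.trace_mul_comm (P * M) P, ← mul_assoc, hi]
  have h2 : (P * M * P).trace = ∑ i, (P.col i) ⬝ᵥ (M.mulVec (P.col i)) := by
    rw [Matrix.trace]
    refine Finset.sum_congr rfl fun i _ => ?_
    rw [Matrix.diag_apply, mul_assoc, Matrix.mul_apply]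
    unfold dotProduct
    refine Finset.sum_congr rfl fun j _ => ?_
    have : P i j = P j i := by
      conv_lhs => rw [← hs]
      rfl
    rw [this]
    rfl
  have h3 : P.trace = ∑ i, (P.col i) ⬝ᵥ (P.col i) := by
    conv_lhs => rw [← hi]
    rw [Matrix.trace]
    refine Finset.sum_congr rfl fun i _ => ?_
    rw [Matrix.diag_apply, Matrix.mul_apply]
    unfold dotProduct
    refine Finset.sum_congr rfl fun j _ => ?_
    have : P i j = P j i := by
      conv_lhs => rw [← hs]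
      rfl
    rw [this]
    rfl
  rw [h1, h2, h3, Finset.mul_sum]
  exact Finset.sum_le_sum fun i _ => dot_le_of_sq K hK _ _ (hM _)

theorem OIrr.rho_dot (V : OIrr n) (σ : Perm (Fin n)) (v : V.ι → ℝ) :
    ((V.ρ σ).mulVec v) ⬝ᵥ ((V.ρ σ).mulVec v) = v ⬝ᵥ v := by
  rw [Matrix.dotProduct_mulVec, Matrix.vecMul_mulVec, V.orth, ← map_mul, inv_mul_cancel, map_one,
    Matrix.vecMul_one]

/-! ### the recursion -/

theorem viaEmb_swap {N : ℕ} (f : Fin N ↪ Fin n) (x y : Fin N) :
    (swap x y).viaEmbedding f = swap (f x) (f y) := by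
  apply Equiv.ext
  intro z
  by_cases h : ∃ i, z = f i
  · obtain ⟨i, rfl⟩ := h
    rw [Perm.viaEmbedding_apply, swap_apply_def, swap_apply_def]
    simp only [EmbeddingLike.apply_eq_iff_eq]
    split_ifs <;> rfl
  · push Not at h
    rw [Perm.viaEmbedding_apply_of_notMem, swap_apply_of_ne_of_ne (h x) (h y)]
    rintro ⟨j, hj⟩
    exact h j hj.symm

/-- the permutation of `Fin (N+1)` extending `σ` and fixing the last letter. -/
noncomputable def iot {N : ℕ} (σ : Perm (Fin N)) : Perm (Fin (N + 1)) :=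
  finSuccEquivLast.symm.permCongr (optionCongr σ)

theorem iot_castSucc {N : ℕ} (σ : Perm (Fin N)) (i : Fin N) :
    iot σ i.castSucc = (σ i).castSucc := by
  unfold iot
  rw [Equiv.permCongr_apply, Equiv.symm_symm, finSuccEquivLast_castSucc, optionCongr_apply,
    Option.map_some, finSuccEquivLast_symm_some]

theorem iot_last {N : ℕ} (σ : Perm (Fin N)) : iot σ (Fin.last N) = Fin.last N := by
  unfold iot
  rw [Equiv.permCongr_apply, Equiv.symm_symm, finSuccEquivLast_last, optionCongr_apply,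
    Option.map_none, finSuccEquivLast_symm_none]

theorem dgp_iot {N : ℕ} (b b' : Fin (N + 1) ↪ Fin n) (hbb : ∀ i j, b i ≠ b' j)
    (σ : Perm (Fin N)) :
    dgp b b' (iot σ) = dgp (Fin.castSuccEmb.trans b) (Fin.castSuccEmb.trans b') σ := by
  have hbb0 : ∀ i j, (Fin.castSuccEmb.trans b) i ≠ (Fin.castSuccEmb.trans b') j :=
    fun i j => hbb _ _
  apply Equiv.ext
  intro x
  by_cases h : ∃ i, x = b i
  · obtain ⟨i, rfl⟩ := h
    rw [dgp_left b b' hbb]
    refine Fin.lastCases ?_ ?_ i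
    · rw [iot_last, dgp_else]
      · intro i hi
        exact (Fin.castSucc_lt_last i).ne (b.injective hi).symm
      · intro i hi
        exact hbb _ _ hi
    · intro j
      rw [iot_castSucc]
      exact (dgp_left _ _ hbb0 σ j).symm
  · by_cases h' : ∃ i, x = b' i
    · obtain ⟨i, rfl⟩ := h'
      rw [dgp_right b b' hbb]
      refine Fin.lastCases ?_ ?_ i
      · rw [iot_last, dgp_else]
        · intro i hi
          exact hbb _ _ hi.symm
        · intro i hi
          exact (Fin.castSucc_lt_last i).ne (b'.injective hi).symm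
      · intro j
        rw [iot_castSucc]
        exact (dgp_right _ _ hbb0 σ j).symm
    · push Not at h h'
      rw [dgp_else b b' _ x h h', dgp_else]
      · intro i
        exact h _
      · intro i
        exact h' _

theorem sum_perm_succ {N : ℕ} (f : Perm (Fin (N + 1)) → ℝ) :
    ∑ k, f k = ∑ σ : Perm (Fin N), f (iot σ) +
      ∑ j : Fin N, ∑ σ : Perm (Fin N), f (swap (Fin.last N) j.castSucc * iot σ) := by
  rw [← Equiv.sum_comp ((Perm.decomposeOption (α := Fin N)).symm.trans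
    (finSuccEquivLast.symm.permCongr)) f, Fintype.sum_prod_type, Fintype.sum_option]
  congr 1
  · refine Finset.sum_congr rfl fun σ _ => ?_
    congr 1
    rw [Equiv.trans_apply, Perm.decomposeOption_symm_apply]
    simp only [swap_self]
    rfl
  · refine Finset.sum_congr rfl fun j _ => ?_
    refine Finset.sum_congr rfl fun σ _ => ?_
    congr 1
    rw [Equiv.trans_apply, Perm.decomposeOption_symm_apply]
    apply Equiv.ext
    intro x
    rw [Equiv.permCongr_apply, Perm.mul_apply, Perm.mul_apply, Equiv.symm_symm]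
    unfold iot
    rw [Equiv.permCongr_apply, Equiv.symm_symm]
    set y := (optionCongr σ) (finSuccEquivLast x)
    have h := finSuccEquivLast.symm.injective.map_swap none (some j) y
    rw [finSuccEquivLast_symm_none, finSuccEquivLast_symm_some] at h
    exact h

theorem OIrr.prj_comm (V : OIrr n) {N : ℕ} (b b' : Fin N ↪ Fin n)
    (hbb : ∀ i j, b i ≠ b' j) (g : Perm (Fin n)) (hg : ∀ i, g (b i) = b i)
    (hg' : ∀ i, g (b' i) = b' i) : V.ρ g * V.prj b b' = V.prj b b' * V.ρ g := by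
  unfold OIrr.prj
  rw [Matrix.mul_smul, Matrix.smul_mul, Finset.mul_sum, Finset.sum_mul]
  congr 1
  refine Finset.sum_congr rfl fun k _ => ?_
  rw [← map_mul, ← map_mul, dgp_comm b b' hbb g hg hg']

theorem OIrr.trace_conj (V : OIrr n) {N : ℕ} (b b' : Fin N ↪ Fin n)
    (hbb : ∀ i j, b i ≠ b' j) (g : Perm (Fin n)) (hg : ∀ i, g (b i) = b i)
    (hg' : ∀ i, g (b' i) = b' i) (τ : Perm (Fin n)) :
    (V.prj b b' * V.ρ (g * τ * g⁻¹)).trace = (V.prj b b' * V.ρ τ).trace := by
  rw [map_mul, map_mul, ← mul_assoc, ← mul_assoc, ← V.prj_comm b b' hbb g hg hg',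
    Matrix.trace_mul_comm, ← mul_assoc, ← mul_assoc, ← map_mul, inv_mul_cancel, map_one,
    one_mul]

theorem conj_two (g : Perm (Fin n)) (a b c d : Fin n) :
    g * (swap a b * swap c d) * g⁻¹ = swap (g a) (g b) * swap (g c) (g d) := by
  rw [swap_apply_apply, swap_apply_apply]
  group

/-- the basic estimate for one term of the recursion. -/
theorem OIrr.term_le (V : OIrr n) (A : ℝ) (hA0 : 0 ≤ A) (hA : V.StarBound A) {N : ℕ}
    (b b' : Fin N ↪ Fin n) (hbb : ∀ i j, b i ≠ b' j) (x x' : Fin n)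
    (hx : ∀ i j, x ≠ b i ∧ x ≠ b' j) (hx' : ∀ i j, x' ≠ b i ∧ x' ≠ b' j) (hxx : x ≠ x')
    (j : Fin N) :
    (V.prj b b' * V.ρ (swap x (b j) * swap x' (b' j))).trace ≤
      ((A ^ 2 + ((n : ℝ) - 2 * N)) / (((n : ℝ) - 2 * N) * ((n : ℝ) - 2 * N - 1))) *
        (V.prj b b').trace := by
  classical
  set P := V.prj b b' with hP
  have hPs : P.transpose = P := V.prj_symm b b' hbb
  have hPi : P * P = P := V.prj_idem b b' hbb
  have hPt : 0 ≤ P.trace := V.prj_trace_nonneg b b' hbb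
  set M : Finset (Fin n) := (Finset.univ.map b ∪ Finset.univ.map b')ᶜ with hM
  have hmem : ∀ u, u ∈ M ↔ (∀ i, u ≠ b i) ∧ (∀ i, u ≠ b' i) := by
    intro u
    rw [hM, Finset.mem_compl, Finset.mem_union, Finset.mem_map, Finset.mem_map]
    simp only [Finset.mem_univ, true_and]
    push Not
    constructor
    · rintro ⟨h1, h2⟩
      exact ⟨fun i h => h1 i h.symm, fun i h => h2 i h.symm⟩
    · rintro ⟨h1, h2⟩
      exact ⟨fun i h => h1 i h.symm, fun i h => h2 i h.symm⟩
  have hxM : x ∈ M := (hmem x).2 ⟨fun i => (hx i i).1, fun i => (hx i i).2⟩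
  have hx'M : x' ∈ M := (hmem x').2 ⟨fun i => (hx' i i).1, fun i => (hx' i i).2⟩
  have hcard : (M.card : ℝ) = (n : ℝ) - 2 * N := by
    have hdisj : Disjoint (Finset.univ.map b) (Finset.univ.map b') := by
      rw [Finset.disjoint_left]
      intro u hu hu'
      rw [Finset.mem_map] at hu hu'
      obtain ⟨i, _, hi⟩ := hu
      obtain ⟨k, _, hk⟩ := hu'
      exact hbb i k (hi.trans hk.symm)
    have h1 : (Finset.univ.map b ∪ Finset.univ.map b').card = 2 * N := by
      rw [Finset.card_union_of_disjoint hdisj, Finset.card_map, Finset.card_map,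
        Finset.card_univ, Fintype.card_fin]
      ring
    have h2 := Finset.card_compl_add_card (Finset.univ.map b ∪ Finset.univ.map b')
    rw [← hM, h1, Fintype.card_fin] at h2
    have h3 : (M.card : ℝ) + 2 * N = n := by exact_mod_cast h2
    linarith
  have hM2 : (2 : ℝ) ≤ (M.card : ℝ) := by
    have : 1 < M.card := Finset.one_lt_card.2 ⟨x, hxM, x', hx'M, hxx⟩
    exact_mod_cast this
  set T := (P * V.ρ (swap x (b j) * swap x' (b' j))).trace with hT
  have hconj : ∀ u ∈ M, ∀ u' ∈ M, u' ≠ u →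
      (P * V.ρ (swap u (b j) * swap u' (b' j))).trace = T := by
    intro u hu u' hu' huu
    set c := swap x u x' with hc
    have hcM : c ∈ M := by
      rw [hc, swap_apply_def]
      split_ifs
      · exact hu
      · exact hxM
      · exact hx'M
    have hcu : c ≠ u := by
      intro h
      have h2 : swap x u x' = swap x u x := by rw [← hc, h, swap_apply_left]
      exact hxx ((swap x u).injective h2).symm
    have hfix : ∀ y, y ≠ x → y ≠ u → y ≠ c → y ≠ u' → (swap c u' * swap x u) y = y := by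
      intro y h1 h2 h3 h4
      rw [Perm.mul_apply, swap_apply_of_ne_of_ne h1 h2, swap_apply_of_ne_of_ne h3 h4]
    have hg : ∀ i, (swap c u' * swap x u) (b i) = b i := by
      intro i
      exact hfix _ (((hmem x).1 hxM).1 i).symm (((hmem u).1 hu).1 i).symm
        (((hmem c).1 hcM).1 i).symm (((hmem u').1 hu').1 i).symm
    have hg' : ∀ i, (swap c u' * swap x u) (b' i) = b' i := by
      intro i
      exact hfix _ (((hmem x).1 hxM).2 i).symm (((hmem u).1 hu).2 i).symm
        (((hmem c).1 hcM).2 i).symm (((hmem u').1 hu').2 i).symm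
    have h1 := V.trace_conj b b' hbb (swap c u' * swap x u) hg hg'
      (swap x (b j) * swap x' (b' j))
    rw [conj_two, hg, hg'] at h1
    have h2 : (swap c u' * swap x u) x = u := by
      rw [Perm.mul_apply, swap_apply_left, swap_apply_of_ne_of_ne hcu.symm huu.symm]
    have h3 : (swap c u' * swap x u) x' = u' := by
      rw [Perm.mul_apply, ← hc, swap_apply_left]
    rw [h2, h3] at h1
    exact h1
  have hbj : b j ∉ M := fun h => ((hmem _).1 h).1 j rfl
  have hbj' : b' j ∉ M := fun h => ((hmem _).1 h).2 j rfl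
  have hX := hA (b j) M hbj
  have hX' := hA (b' j) M hbj'
  set X := ∑ u ∈ M, V.ρ (swap u (b j)) with hXdef
  set X' := ∑ u ∈ M, V.ρ (swap u (b' j)) with hX'def
  have hXX : (P * (X * X')).trace ≤ A ^ 2 * P.trace := by
    refine trace_proj_mul_le (A ^ 2) (by positivity) P (X * X') hPs hPi ?_
    intro v
    rw [← Matrix.mulVec_mulVec]
    calc (X.mulVec (X'.mulVec v)) ⬝ᵥ (X.mulVec (X'.mulVec v))
        ≤ A ^ 2 * ((X'.mulVec v) ⬝ᵥ (X'.mulVec v)) := hX _
      _ ≤ A ^ 2 * (A ^ 2 * (v ⬝ᵥ v)) := mul_le_mul_of_nonneg_left (hX' v) (by positivity)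
      _ = (A ^ 2) ^ 2 * (v ⬝ᵥ v) := by ring
  have hsum : (P * (X * X')).trace =
      ∑ u ∈ M, ∑ u' ∈ M, (P * V.ρ (swap u (b j) * swap u' (b' j))).trace := by
    rw [hXdef, hX'def, Finset.sum_mul_sum, Finset.mul_sum, Matrix.trace_sum]
    refine Finset.sum_congr rfl fun u _ => ?_
    rw [Finset.mul_sum, Matrix.trace_sum]
    refine Finset.sum_congr rfl fun u' _ => ?_
    rw [map_mul]
  have hinner : ∀ u ∈ M, ∑ u' ∈ M, (P * V.ρ (swap u (b j) * swap u' (b' j))).trace =
      (P * V.ρ (swap u (b j) * swap u (b' j))).trace + ((M.card : ℝ) - 1) * T := by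
    intro u hu
    rw [← Finset.add_sum_erase M _ hu]
    congr 1
    rw [Finset.sum_congr rfl fun u' hu' =>
      hconj u hu u' (Finset.mem_of_mem_erase hu') (Finset.ne_of_mem_erase hu'),
      Finset.sum_const, Finset.card_erase_of_mem hu, nsmul_eq_mul,
      Nat.cast_sub (Finset.card_pos.2 ⟨u, hu⟩), Nat.cast_one]
  have hdiag : ∀ u ∈ M, -(P.trace) ≤ (P * V.ρ (swap u (b j) * swap u (b' j))).trace := by
    intro u _
    have h1 := trace_proj_mul_le 1 zero_le_one P (-(V.ρ (swap u (b j) * swap u (b' j)))) hPs hPi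
      (by
        intro v
        rw [Matrix.neg_mulVec, neg_dotProduct_neg, V.rho_dot, one_pow, one_mul])
    rw [Matrix.mul_neg, Matrix.trace_neg] at h1
    linarith
  rw [hsum, Finset.sum_congr rfl hinner, Finset.sum_add_distrib, Finset.sum_const,
    nsmul_eq_mul] at hXX
  have hd := Finset.sum_le_sum hdiag
  rw [Finset.sum_const, nsmul_eq_mul] at hd
  rw [← hcard]
  have hpos : 0 < (M.card : ℝ) * ((M.card : ℝ) - 1) :=
    mul_pos (by linarith) (by linarith)
  rw [div_mul_eq_mul_div, le_div_iff₀ hpos]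
  nlinarith [hXX, hd]

theorem OIrr.phi_succ_le (V : OIrr n) (A : ℝ) (hA0 : 0 ≤ A) (hA : V.StarBound A) {N : ℕ}
    (b b' : Fin (N + 1) ↪ Fin n) (hbb : ∀ i j, b i ≠ b' j) :
    V.phi b b' ≤
      (1 + N * ((A ^ 2 + ((n : ℝ) - 2 * N)) / (((n : ℝ) - 2 * N) * ((n : ℝ) - 2 * N - 1)))) /
        (N + 1) *
        V.phi (Fin.castSuccEmb.trans b) (Fin.castSuccEmb.trans b') := by
  set b0 : Fin N ↪ Fin n := Fin.castSuccEmb.trans b with hb0
  set b0' : Fin N ↪ Fin n := Fin.castSuccEmb.trans b' with hb0'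
  have hbb0 : ∀ i j, b0 i ≠ b0' j := fun i j => hbb _ _
  set c : ℝ := (A ^ 2 + ((n : ℝ) - 2 * N)) / (((n : ℝ) - 2 * N) * ((n : ℝ) - 2 * N - 1)) with hc
  have hd := V.dim_pos
  have hterm : ∀ j : Fin N,
      ∑ σ : Perm (Fin N), V.r (dgp b b' (swap (Fin.last N) j.castSucc * iot σ)) ≤
        (N ! : ℝ) * (c * V.phi b0 b0') := by
    intro j
    have h1 := V.term_le A hA0 hA b0 b0' hbb0 (b (Fin.last N)) (b' (Fin.last N))
      (fun i k => ⟨fun h => (Fin.castSucc_lt_last i).ne (b.injective h).symm, hbb _ _⟩)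
      (fun i k => ⟨fun h => hbb _ _ h.symm,
        fun h => (Fin.castSucc_lt_last k).ne (b'.injective h).symm⟩) (hbb _ _) j
    rw [← hc] at h1
    have h2 : ∑ σ : Perm (Fin N), V.r (dgp b b' (swap (Fin.last N) j.castSucc * iot σ)) =
        (N ! : ℝ) * ((V.prj b0 b0' *
          V.ρ (swap (b (Fin.last N)) (b0 j) * swap (b' (Fin.last N)) (b0' j))).trace / V.dim) := by
      have h3 : ∀ σ : Perm (Fin N), dgp b b' (swap (Fin.last N) j.castSucc * iot σ) =
          (swap (b (Fin.last N)) (b0 j) * swap (b' (Fin.last N)) (b0' j)) * dgp b0 b0' σ := by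
        intro σ
        rw [dgp_mul b b' hbb, dgp_iot b b' hbb]
        congr 1
        unfold dgp
        rw [viaEmb_swap, viaEmb_swap]
        rfl
      unfold OIrr.r OIrr.prj
      rw [← Finset.sum_div, mul_div_assoc']
      congr 1
      rw [Matrix.smul_mul, Matrix.trace_smul, Finset.sum_mul, Matrix.trace_sum, smul_eq_mul,
        ← mul_assoc]
      have hN : (N ! : ℝ) ≠ 0 := by exact_mod_cast Nat.factorial_ne_zero N
      rw [mul_one_div_cancel hN, one_mul]
      refine Finset.sum_congr rfl fun σ _ => ?_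
      rw [h3, map_mul V.ρ _ (dgp b0 b0' σ), Matrix.trace_mul_comm]
    rw [h2, V.phi_eq, ← mul_div_assoc c]
    have hN : (0 : ℝ) ≤ (N ! : ℝ) := by positivity
    exact mul_le_mul_of_nonneg_left (div_le_div_of_nonneg_right h1 hd.le) hN
  have h0 : ∑ σ : Perm (Fin N), V.r (dgp b b' (iot σ)) = (N ! : ℝ) * V.phi b0 b0' := by
    have hN : (N ! : ℝ) ≠ 0 := by exact_mod_cast Nat.factorial_ne_zero N
    unfold OIrr.phi
    rw [← mul_assoc, mul_one_div_cancel hN, one_mul]
    refine Finset.sum_congr rfl fun σ _ => ?_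
    rw [dgp_iot b b' hbb]
    rfl
  have hsum : ∑ k : Perm (Fin (N + 1)), V.r (k.viaEmbedding b * k.viaEmbedding b') ≤
      (N ! : ℝ) * V.phi b0 b0' + N * ((N ! : ℝ) * (c * V.phi b0 b0')) := by
    have h1 := sum_perm_succ (fun k => V.r (dgp b b' k))
    have h2 : ∑ k : Perm (Fin (N + 1)), V.r (k.viaEmbedding b * k.viaEmbedding b') =
      ∑ k : Perm (Fin (N + 1)), V.r (dgp b b' k) := rfl
    rw [h2, h1, h0]
    have h3 := Finset.sum_le_sum fun (j : Fin N) (_ : j ∈ Finset.univ) => hterm j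
    rw [Finset.sum_const, Finset.card_univ, Fintype.card_fin, nsmul_eq_mul] at h3
    linarith
  have hN1 : (0 : ℝ) < ((N + 1)! : ℝ) := by exact_mod_cast Nat.factorial_pos _
  have hN0 : (0 : ℝ) < (N ! : ℝ) := by exact_mod_cast Nat.factorial_pos _
  have hfac : (((N + 1)! : ℕ) : ℝ) = (N + 1) * (N ! : ℝ) := by
    rw [Nat.factorial_succ]; push_cast; ring
  have hpos : (0 : ℝ) < (N : ℝ) + 1 := by positivity
  have hL : V.phi b b' = (1 / (((N + 1)! : ℕ) : ℝ)) *
      ∑ k : Perm (Fin (N + 1)), V.r (k.viaEmbedding b * k.viaEmbedding b') := rfl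
  rw [hL]
  calc (1 / (((N + 1)! : ℕ) : ℝ)) *
        ∑ k : Perm (Fin (N + 1)), V.r (k.viaEmbedding b * k.viaEmbedding b')
      ≤ (1 / (((N + 1)! : ℕ) : ℝ)) *
        ((N ! : ℝ) * V.phi b0 b0' + N * ((N ! : ℝ) * (c * V.phi b0 b0'))) :=
        mul_le_mul_of_nonneg_left hsum (by positivity)
    _ = (1 + N * c) / (N + 1) * V.phi b0 b0' := by
        rw [hfac]
        field_simp

end Pool.MP322
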