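import Pool.Agent.Lib.MP_322c5f_al.J2
import Pool.Agent.Lib.MP_322c5f_al.OC

/-! job SQ-36: averaging over `S_{m+1}` a matrix commuting with `S_m`. -/

set_option autoImplicit false

open Equiv Finset

namespace Pool.MP322

private theorem avg_swap {m k : ℕ} (h2 : m + 1 ≤ m + (k + 1)) (j : Fin m) :
    pL h2 (swap (Fin.last m) j.castSucc) =
      swap (Fin.castAdd (k + 1) j) (Fin.natAdd m 0) := by
  have h : pL h2 (swap (Fin.last m) j.castSucc) =
      (swap (Fin.last m) j.castSucc).viaEmbedding (Fin.castLEEmb h2) := rfl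
  rw [h, viaEmb_swap, swap_comm]
  congr 1

private theorem avg_iot {m k : ℕ} (h2 : m + 1 ≤ m + (k + 1)) (σ : Perm (Fin m)) :
    pL h2 (iot σ) = iL m (k + 1) σ := by
  have h : pL h2 (iot σ) = (iot σ).viaEmbedding (Fin.castLEEmb h2) := rfl
  have h' : iL m (k + 1) σ = σ.viaEmbedding (Fin.castAddEmb (k + 1)) := rfl
  rw [h, h']
  apply Equiv.ext
  intro x
  by_cases hx : ∃ i : Fin (m + 1), x = Fin.castLEEmb h2 i
  · obtain ⟨i, rfl⟩ := hx
    rw [Perm.viaEmbedding_apply]
    refine Fin.lastCases ?_ (fun i => ?_) i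
    · rw [iot_last, Perm.viaEmbedding_apply_of_notMem]
      rintro ⟨j, hj⟩
      have := congrArg Fin.val hj
      simp at this
      omega
    · rw [iot_castSucc]
      have e1 : Fin.castLEEmb h2 i.castSucc = (Fin.castAddEmb (k + 1) i : Fin (m + (k + 1))) := by
        ext; rfl
      have e2 : Fin.castLEEmb h2 (σ i).castSucc =
          (Fin.castAddEmb (k + 1) (σ i) : Fin (m + (k + 1))) := by
        ext; rfl
      rw [e1, e2, Perm.viaEmbedding_apply]
  · push Not at hx
    rw [Perm.viaEmbedding_apply_of_notMem, Perm.viaEmbedding_apply_of_notMem]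
    · rintro ⟨j, hj⟩
      apply hx j.castSucc
      rw [← hj]
      ext; rfl
    · rintro ⟨j, hj⟩
      exact hx j hj.symm

/-- If `A` commutes with `S_m` and its partial traces over `m+1` cells vanish, then its average
over `S_{m+1}` vanishes. -/
theorem avg_zero {m k : ℕ} (lam : YoungDiagram)
    (A : Matrix (Tab ⊥ lam (m + (k + 1))) (Tab ⊥ lam (m + (k + 1))) ℝ)
    (hA : ∀ σ : Perm (Fin m), rep ⊥ lam (m + (k + 1)) (iL m (k + 1) σ) * A =
      A * rep ⊥ lam (m + (k + 1)) (iL m (k + 1) σ))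
    (h0 : ∀ bet : Y (m + 1),
      ptr (gam := bet.1) (show m + 1 + k = m + (k + 1) by omega) A = 0) :
    A + ∑ b : Fin m,
      rep ⊥ lam (m + (k + 1)) (swap (Fin.castAdd (k + 1) b) (Fin.natAdd m 0)) * A *
        rep ⊥ lam (m + (k + 1)) (swap (Fin.castAdd (k + 1) b) (Fin.natAdd m 0)) = 0 := by
  have h1 : m + 1 + k = m + (k + 1) := by omega
  have h2 : m + 1 ≤ m + (k + 1) := by omega
  set ρ := rep ⊥ lam (m + (k + 1)) with hρ
  set F : Perm (Fin (m + 1)) →
      Matrix (Tab ⊥ lam (m + (k + 1))) (Tab ⊥ lam (m + (k + 1))) ℝ :=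
    fun g => ρ (pL h2 g) * A * ρ (pL h2 g)⁻¹ with hF
  have hF0 : ∀ σ : Perm (Fin m), F (iot σ) = A := by
    intro σ
    simp only [hF]
    rw [avg_iot, hA σ, Matrix.mul_assoc, ← map_mul, mul_inv_cancel, map_one, Matrix.mul_one]
  have hF1 : ∀ (j : Fin m) (σ : Perm (Fin m)), F (swap (Fin.last m) j.castSucc * iot σ) =
      ρ (swap (Fin.castAdd (k + 1) j) (Fin.natAdd m 0)) * A *
        ρ (swap (Fin.castAdd (k + 1) j) (Fin.natAdd m 0)) := by
    intro j σ
    have h3 := hF0 σ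
    simp only [hF] at h3 ⊢
    rw [map_mul (pL h2), mul_inv_rev, map_mul ρ, map_mul ρ, avg_swap, Equiv.swap_inv]
    calc ρ (swap (Fin.castAdd (k + 1) j) (Fin.natAdd m 0)) * ρ (pL h2 (iot σ)) * A *
          (ρ (pL h2 (iot σ))⁻¹ * ρ (swap (Fin.castAdd (k + 1) j) (Fin.natAdd m 0)))
        = ρ (swap (Fin.castAdd (k + 1) j) (Fin.natAdd m 0)) *
          (ρ (pL h2 (iot σ)) * A * ρ (pL h2 (iot σ))⁻¹) *
            ρ (swap (Fin.castAdd (k + 1) j) (Fin.natAdd m 0)) := by
          simp only [Matrix.mul_assoc]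
      _ = _ := by rw [h3]
  have hcomm : ∀ g : Perm (Fin (m + 1)), ρ (pL h2 g) * (∑ g', F g') =
      (∑ g', F g') * ρ (pL h2 g) := by
    intro g
    rw [Finset.mul_sum, Finset.sum_mul]
    rw [← Equiv.sum_comp (Equiv.mulLeft g) (fun g' => F g' * ρ (pL h2 g))]
    refine Finset.sum_congr rfl fun g' _ => ?_
    simp only [hF, Equiv.coe_mulLeft]
    have e1 : ρ (pL h2 (g * g'))⁻¹ * ρ (pL h2 g) = ρ (pL h2 g')⁻¹ := by
      rw [← map_mul ρ, map_mul (pL h2), mul_inv_rev, inv_mul_cancel_right]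
    rw [Matrix.mul_assoc (ρ (pL h2 (g * g')) * A), e1, map_mul (pL h2), map_mul ρ]
    simp only [Matrix.mul_assoc]
  have hptr : ∀ bet : Y (m + 1), ptr (gam := bet.1) h1 (∑ g', F g') = 0 := by
    intro bet
    have e2 : ptr (gam := bet.1) h1 (∑ g', F g') = ∑ g', ptr (gam := bet.1) h1 (F g') := by
      ext t t'
      rw [Matrix.sum_apply]
      unfold ptr
      simp only [Matrix.sum_apply]
      rw [Finset.sum_comm]
    rw [e2]
    refine Finset.sum_eq_zero fun g' _ => ?_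
    simp only [hF]
    rw [hρ, ptr_conj h1 h2 A g']
    exact h0 bet
  have hzero : ∑ g', F g' = 0 := comm_zero h1 h2 _ hcomm hptr
  have hsum : ∑ g', F g' = ((Fintype.card (Perm (Fin m)) : ℕ) : ℝ) • (A + ∑ b : Fin m,
      ρ (swap (Fin.castAdd (k + 1) b) (Fin.natAdd m 0)) * A *
        ρ (swap (Fin.castAdd (k + 1) b) (Fin.natAdd m 0))) := by
    ext x y
    rw [Matrix.sum_apply, sum_perm_succ (fun g => F g x y)]
    simp only [hF0, hF1, Finset.sum_const, Finset.card_univ]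
    rw [Matrix.smul_apply, Matrix.add_apply, Matrix.sum_apply, smul_add, smul_eq_mul, smul_eq_mul,
      nsmul_eq_mul, Finset.mul_sum]
    congr 1
    refine Finset.sum_congr rfl fun j _ => ?_
    rw [nsmul_eq_mul]
  rw [hsum] at hzero
  rcases smul_eq_zero.1 hzero with h | h
  · exfalso
    have : (Fintype.card (Perm (Fin m)) : ℝ) ≠ 0 := by
      exact_mod_cast Fintype.card_ne_zero
    exact this h
  · exact h

end Pool.MP322
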