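import Pool.Agent.Lib.MP_322c5f_al.MS

/-! job SQ-48: the number of partitions. -/

set_option autoImplicit false

open Finset

namespace Pool.MP322

private theorem geom_ratio (x : ℝ) (h0 : 0 < x) (h1 : x < 1) (m : ℕ) :
    x ^ (m + 1) / (1 - x ^ (m + 1)) ≤ x / (1 - x) * (1 / ((m : ℝ) + 1)) := by
  have hlt : x ^ (m + 1) < 1 := pow_lt_one₀ h0.le h1 (Nat.succ_ne_zero m)
  have hpos : 0 < 1 - x ^ (m + 1) := by linarith
  have h1x : 0 < 1 - x := by linarith
  have hm : (0 : ℝ) < (m : ℝ) + 1 := by positivity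
  have hgeom : (∑ i ∈ range (m + 1), x ^ i) * (1 - x) = 1 - x ^ (m + 1) := by
    have := geom_sum_mul x (m + 1)
    linarith
  have hsum : ((m : ℝ) + 1) * x ^ m ≤ ∑ i ∈ range (m + 1), x ^ i := by
    have : ∑ i ∈ range (m + 1), x ^ m ≤ ∑ i ∈ range (m + 1), x ^ i := by
      apply Finset.sum_le_sum
      intro i hi
      exact pow_le_pow_of_le_one h0.le h1.le (Nat.lt_succ_iff.mp (Finset.mem_range.mp hi))
    simpa [Finset.sum_const, nsmul_eq_mul] using this
  have hkey : ((m : ℝ) + 1) * x ^ m * (1 - x) ≤ 1 - x ^ (m + 1) := by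
    rw [← hgeom]
    exact mul_le_mul_of_nonneg_right hsum h1x.le
  have : x / (1 - x) * (1 / ((m : ℝ) + 1)) = x ^ (m + 1) / (((m : ℝ) + 1) * x ^ m * (1 - x)) := by
    have hxm : x ^ m ≠ 0 := (pow_pos h0 m).ne'
    rw [pow_succ]
    field_simp
  rw [this]
  exact div_le_div_of_nonneg_left (pow_pos h0 _).le (by positivity) hkey

private theorem sum_pow_le (y : ℝ) (h0 : 0 ≤ y) (h1 : y < 1) (s : ℕ) :
    ∑ c ∈ Icc 1 s, y ^ c ≤ y / (1 - y) := by
  have h1y : 0 < 1 - y := by linarith
  have h : ∀ s : ℕ, ∑ c ∈ Icc 1 s, y ^ c = (y - y ^ (s + 1)) / (1 - y) := by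
    intro s
    induction s with
    | zero => simp
    | succ k ih =>
      rw [Finset.sum_Icc_succ_top (by omega), ih]
      field_simp
      ring
  rw [h s]
  apply div_le_div_of_nonneg_right _ h1y.le
  have : 0 ≤ y ^ (s + 1) := pow_nonneg h0 _
  linarith

private theorem sum_neg_log_le (x : ℝ) (h0 : 0 < x) (h1 : x < 1) (s : ℕ) :
    ∑ c ∈ Icc 1 s, -Real.log (1 - x ^ c) ≤ x / (1 - x) * (Real.pi ^ 2 / 6) := by
  have hS : HasSum (fun m : ℕ => ∑ c ∈ Icc 1 s, (x ^ c) ^ (m + 1) / ((m : ℝ) + 1))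
      (∑ c ∈ Icc 1 s, -Real.log (1 - x ^ c)) := by
    apply hasSum_sum
    intro c hc
    apply Real.hasSum_pow_div_log_of_abs_lt_one
    rw [abs_of_nonneg (pow_nonneg h0.le _)]
    have hc1 : 1 ≤ c := (Finset.mem_Icc.mp hc).1
    exact pow_lt_one₀ h0.le h1 (by omega)
  have hZ : HasSum (fun m : ℕ => 1 / ((m : ℝ) + 1) ^ 2) (Real.pi ^ 2 / 6) := by
    have h := hasSum_zeta_two
    rw [← hasSum_nat_add_iff' 1] at h
    simpa using h
  have hZ' : HasSum (fun m : ℕ => x / (1 - x) * (1 / ((m : ℝ) + 1) ^ 2))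
      (x / (1 - x) * (Real.pi ^ 2 / 6)) := hZ.mul_left _
  refine hasSum_le ?_ hS hZ'
  intro m
  have hm : (0 : ℝ) < (m : ℝ) + 1 := by positivity
  have hy0 : 0 ≤ x ^ (m + 1) := pow_nonneg h0.le _
  have hy1 : x ^ (m + 1) < 1 := pow_lt_one₀ h0.le h1 (Nat.succ_ne_zero m)
  calc ∑ c ∈ Icc 1 s, (x ^ c) ^ (m + 1) / ((m : ℝ) + 1)
      = (∑ c ∈ Icc 1 s, (x ^ (m + 1)) ^ c) / ((m : ℝ) + 1) := by
        rw [Finset.sum_div]
        apply Finset.sum_congr rfl
        intro c _
        rw [← pow_mul, ← pow_mul, mul_comm]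
    _ ≤ (x / (1 - x) * (1 / ((m : ℝ) + 1))) / ((m : ℝ) + 1) := by
        apply div_le_div_of_nonneg_right _ hm.le
        exact (sum_pow_le _ hy0 hy1 s).trans (geom_ratio x h0 h1 m)
    _ = x / (1 - x) * (1 / ((m : ℝ) + 1) ^ 2) := by
        field_simp

theorem card_types_le (s : ℕ) (T : Finset (Multiset ℕ)) (h1 : ∀ τ ∈ T, ∀ c ∈ τ, 1 ≤ c)
    (h2 : ∀ τ ∈ T, τ.sum = s) : (T.card : ℝ) ≤ Real.exp (3 * Real.sqrt s) := by
  rcases Nat.eq_zero_or_pos s with hs | hs
  · subst hs
    have hT : T ⊆ {0} := by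
      intro τ hτ
      rw [Finset.mem_singleton, Multiset.eq_zero_iff_forall_notMem]
      intro c hc
      have h3 := h1 τ hτ c hc
      have h4 := Multiset.le_sum_of_mem hc
      rw [h2 τ hτ] at h4
      omega
    have := Finset.card_le_card hT
    simp only [Finset.card_singleton] at this
    have h5 : (T.card : ℝ) ≤ 1 := by exact_mod_cast this
    simpa using h5
  · set q : ℝ := Real.sqrt s with hq
    have hsr : (1 : ℝ) ≤ s := by exact_mod_cast hs
    have hq0 : 0 < q := Real.sqrt_pos.mpr (by linarith)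
    have hqq : q * q = s := Real.mul_self_sqrt (by linarith)
    set x : ℝ := q / (1 + q) with hx
    have hx0 : 0 < x := by positivity
    have hx1 : x < 1 := by
      rw [hx, div_lt_one (by positivity)]
      linarith
    have hxx : x / (1 - x) = q := by
      have : 1 - x = 1 / (1 + q) := by
        rw [hx]; field_simp; ring
      rw [this, hx]
      field_simp
    have hM := multiset_sum_le (Icc 1 s) (fun c => x ^ c) (fun c => pow_nonneg hx0.le c)
      (fun c hc => pow_lt_one₀ hx0.le hx1 (by have := (Finset.mem_Icc.mp hc).1; omega)) T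
      (fun τ hτ c hc => by
        rw [Finset.mem_Icc]
        refine ⟨h1 τ hτ c hc, ?_⟩
        have := Multiset.le_sum_of_mem hc
        rwa [h2 τ hτ] at this)
    have hL : ∑ τ ∈ T, (τ.map (fun c => x ^ c)).prod = T.card * x ^ s := by
      rw [Finset.sum_congr rfl (g := fun _ => x ^ s), Finset.sum_const, nsmul_eq_mul]
      intro τ hτ
      have : ∀ τ : Multiset ℕ, (τ.map (fun c => x ^ c)).prod = x ^ τ.sum := by
        intro τ
        induction τ using Multiset.induction with
        | empty => simp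
        | cons a t ih => simp [ih, pow_add]
      rw [this, h2 τ hτ]
    have hR : ∏ c ∈ Icc 1 s, (1 - x ^ c)⁻¹ ≤ Real.exp (2 * q) := by
      have hpos : ∀ c ∈ Icc 1 s, 0 < 1 - x ^ c := by
        intro c hc
        have : x ^ c < 1 := pow_lt_one₀ hx0.le hx1 (by have := (Finset.mem_Icc.mp hc).1; omega)
        linarith
      have : ∏ c ∈ Icc 1 s, (1 - x ^ c)⁻¹ = Real.exp (∑ c ∈ Icc 1 s, -Real.log (1 - x ^ c)) := by
        rw [Real.exp_sum]
        apply Finset.prod_congr rfl
        intro c hc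
        rw [Real.exp_neg, Real.exp_log (hpos c hc)]
      rw [this]
      apply Real.exp_le_exp.mpr
      refine (sum_neg_log_le x hx0 hx1 s).trans ?_
      rw [hxx, mul_comm]
      apply mul_le_mul_of_nonneg_right _ hq0.le
      have hpi := Real.pi_lt_d2
      have hpi0 := Real.pi_pos
      nlinarith
    have hxs : 1 ≤ x ^ s * Real.exp q := by
      have h3 : 1 / x ≤ Real.exp (1 / q) := by
        have := Real.add_one_le_exp (1 / q)
        have h4 : 1 / x = 1 / q + 1 := by
          rw [hx]; field_simp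
        rw [h4]; exact this
      have h5 : (1 / x) ^ s ≤ Real.exp q := by
        calc (1 / x) ^ s ≤ (Real.exp (1 / q)) ^ s :=
              pow_le_pow_left₀ (by positivity) h3 s
          _ = Real.exp q := by
              rw [← Real.exp_nat_mul]
              congr 1
              rw [← hqq]
              field_simp
      calc (1 : ℝ) = x ^ s * (1 / x) ^ s := by
            rw [← mul_pow]; rw [mul_one_div_cancel hx0.ne']; simp
        _ ≤ x ^ s * Real.exp q := mul_le_mul_of_nonneg_left h5 (pow_nonneg hx0.le s)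
    have hfin : (T.card : ℝ) * x ^ s ≤ Real.exp (2 * q) := by
      rw [← hL]
      exact hM.trans hR
    calc (T.card : ℝ) = T.card * 1 := by ring
      _ ≤ T.card * (x ^ s * Real.exp q) :=
          mul_le_mul_of_nonneg_left hxs (Nat.cast_nonneg _)
      _ = (T.card * x ^ s) * Real.exp q := by ring
      _ ≤ Real.exp (2 * q) * Real.exp q :=
          mul_le_mul_of_nonneg_right hfin (Real.exp_pos _).le
      _ = Real.exp (3 * q) := by
          rw [← Real.exp_add]; congr 1; ring

theorem card_partition_le (s : ℕ) :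
    (Fintype.card (Nat.Partition s) : ℝ) ≤ Real.exp (3 * Real.sqrt s) := by
  classical
  have hinj : Function.Injective (fun p : Nat.Partition s => p.parts) := by
    intro p q h
    exact Nat.Partition.ext h
  have hcard : ((Finset.univ : Finset (Nat.Partition s)).image (fun p => p.parts)).card
      = Fintype.card (Nat.Partition s) := by
    rw [Finset.card_image_of_injective _ hinj, Finset.card_univ]
  rw [← hcard]
  apply card_types_le s
  · intro τ hτ c hc
    obtain ⟨p, _, rfl⟩ := Finset.mem_image.mp hτ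
    exact p.parts_pos hc
  · intro τ hτ
    obtain ⟨p, _, rfl⟩ := Finset.mem_image.mp hτ
    exact p.parts_sum

end Pool.MP322
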