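import Pool.Agent.Lib.MP_322c5f_al.BadSum
import Pool.Agent.Lib.MP_322c5f_al.TypeCount

/-! job SQ-49: the sum of the bounds over the cycle types. -/

set_option autoImplicit false

open Equiv Finset Nat

namespace Pool.MP322

open Classical in
/-- cycle types of the nontrivial even permutations. -/
noncomputable def typesE (n : ℕ) : Finset (Multiset ℕ) :=
  (Finset.univ.filter (fun σ : Perm (Fin n) => Perm.sign σ = 1 ∧ σ ≠ 1)).image
    (fun σ => σ.cycleType)

/-- the bound used for minus the normalized characters. -/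
noncomputable def BB (C c K : ℝ) (S0 n : ℕ) (τ : Multiset ℕ) : ℝ :=
  3 * Real.exp (-(9 * Real.sqrt τ.sum)) + 4 * Real.exp (-(5 * Real.sqrt n)) +
    (if τ.sum ≤ S0 then bS τ + K / n else C * Real.exp (-(c * τ.sum)))

theorem bsum_bS_nonneg (τ : Multiset ℕ) : 0 ≤ bS τ := by
  unfold bS
  split_ifs
  · positivity
  · exact le_rfl

theorem BB_nonneg (C c K : ℝ) (hC : 0 ≤ C) (hK : 0 ≤ K) (S0 n : ℕ) (τ : Multiset ℕ) :
    0 ≤ BB C c K S0 n τ := by
  unfold BB
  have h1 := bsum_bS_nonneg τ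
  split_ifs
  · positivity
  · positivity

theorem bsum_mem {n : ℕ} {τ : Multiset ℕ} (h : τ ∈ typesE n) :
    (∀ c ∈ τ, 2 ≤ c) ∧ 3 ≤ τ.sum ∧ τ.sum ≤ n := by
  classical
  unfold typesE at h
  obtain ⟨σ, hσ, rfl⟩ := Finset.mem_image.1 h
  rw [Finset.mem_filter] at hσ
  obtain ⟨_, h1, h2⟩ := hσ
  refine ⟨fun c hc => Perm.two_le_of_mem_cycleType hc, ?_, ?_⟩
  · rw [Perm.sum_cycleType]
    have h3 := Perm.two_le_card_support_of_ne_one h2
    by_contra hcon
    have h4 : σ.support.card = 2 := by omega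
    rw [Perm.card_support_eq_two] at h4
    have h5 := h4.sign_eq
    rw [h5] at h1
    exact absurd h1 (by decide)
  · rw [Perm.sum_cycleType]
    exact (Finset.card_le_univ _).trans (by simp)

theorem bsum_fiber (n : ℕ) (T : Finset (Multiset ℕ)) (hT : T ⊆ typesE n) (f : ℕ → ℝ)
    (hf : ∀ s, 0 ≤ f s) (A B : ℕ) (hA : ∀ τ ∈ T, A ≤ τ.sum ∧ τ.sum ≤ B) :
    ∑ τ ∈ T, f τ.sum ≤ ∑ s ∈ Finset.Icc A B, Real.exp (3 * Real.sqrt s) * f s := by
  classical
  rw [← Finset.sum_fiberwise_of_maps_to (g := fun τ : Multiset ℕ => τ.sum)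
    (t := Finset.Icc A B) (fun τ hτ => Finset.mem_Icc.2 (hA τ hτ))]
  refine Finset.sum_le_sum fun s hs => ?_
  have h1 : ∑ τ ∈ T.filter (fun τ => τ.sum = s), f τ.sum =
      ((T.filter (fun τ => τ.sum = s)).card : ℝ) * f s := by
    rw [Finset.sum_congr rfl (g := fun _ => f s)
      (fun τ hτ => by rw [(Finset.mem_filter.1 hτ).2]), Finset.sum_const, nsmul_eq_mul]
  rw [h1]
  refine mul_le_mul_of_nonneg_right (card_types_le s _ ?_ ?_) (hf s)
  · intro τ hτ c hc
    have := (bsum_mem (hT (Finset.mem_filter.1 hτ).1)).1 c hc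
    omega
  · intro τ hτ
    exact (Finset.mem_filter.1 hτ).2

theorem bsum_exp4 {y : ℝ} (hy : 0 < y) : Real.exp (-y) ≤ 24 / y ^ 4 := by
  have h1 := Real.sum_le_exp_of_nonneg hy.le 5
  have h2 : y ^ 4 / 24 ≤ Real.exp y := by
    refine le_trans ?_ h1
    norm_num [Finset.sum_range_succ, Nat.factorial]
    positivity
  rw [Real.exp_neg, inv_le_comm₀ (Real.exp_pos _) (by positivity), inv_div]
  exact h2

theorem bsum_tele (n : ℕ) : ∑ s ∈ Finset.Icc 3 n, 1 / (s : ℝ) ^ 2 ≤ 1 / 2 := by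
  have h : ∀ m : ℕ, ∑ s ∈ Finset.Icc 3 (m + 2), 1 / (s : ℝ) ^ 2 ≤ 1 / 2 - 1 / ((m : ℝ) + 2) := by
    intro m
    induction m with
    | zero => simp
    | succ m ih =>
      rw [show m + 1 + 2 = (m + 2) + 1 by omega, Finset.sum_Icc_succ_top (by omega)]
      have h1 : 1 / (((m + 2 + 1 : ℕ) : ℝ)) ^ 2 ≤ 1 / ((m : ℝ) + 2) - 1 / ((m : ℝ) + 1 + 2) := by
        push_cast
        rw [div_sub_div _ _ (by positivity) (by positivity), div_le_div_iff₀ (by positivity)
          (by positivity)]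
        have : (0 : ℝ) ≤ m := by positivity
        nlinarith
      push_cast at h1 ⊢
      linarith
  rcases Nat.lt_or_ge n 2 with h2 | h2
  · have : Finset.Icc 3 n = ∅ := Finset.Icc_eq_empty (by omega)
    rw [this]
    norm_num
  · obtain ⟨m, rfl⟩ : ∃ m, n = m + 2 := ⟨n - 2, by omega⟩
    refine (h m).trans ?_
    have : (0 : ℝ) ≤ 1 / ((m : ℝ) + 2) := by positivity
    linarith

theorem bsum_geom {q : ℝ} (h0 : 0 < q) (h1 : q < 1) (a n : ℕ) :
    ∑ s ∈ Finset.Icc (a + 1) n, q ^ s ≤ q ^ (a + 1) / (1 - q) := by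
  have hq : 0 < 1 - q := by linarith
  rcases Nat.lt_or_ge n (a + 1) with h2 | h2
  · have : Finset.Icc (a + 1) n = ∅ := Finset.Icc_eq_empty (by omega)
    rw [this, Finset.sum_empty]
    positivity
  · have h : ∀ m : ℕ, ∑ s ∈ Finset.Icc (a + 1) (a + 1 + m), q ^ s ≤
        q ^ (a + 1) / (1 - q) - q ^ (a + 2 + m) / (1 - q) := by
      intro m
      induction m with
      | zero =>
        simp only [add_zero, Finset.Icc_self, Finset.sum_singleton]
        rw [← sub_div, le_div_iff₀ hq]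
        rw [show a + 2 = a + 1 + 1 by omega, pow_succ q (a + 1)]
        linarith
      | succ m ih =>
        rw [show a + 1 + (m + 1) = (a + 1 + m) + 1 by omega,
          Finset.sum_Icc_succ_top (by omega)]
        have h3 : q ^ (a + 1 + m + 1) = q ^ (a + 2 + m) / (1 - q) -
            q ^ (a + 2 + (m + 1)) / (1 - q) := by
          rw [← sub_div, eq_div_iff hq.ne', show a + 2 + (m + 1) = (a + 2 + m) + 1 by omega,
            pow_succ q (a + 2 + m), show a + 1 + m + 1 = a + 2 + m by omega]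
          ring
        linarith
    obtain ⟨m, rfl⟩ := Nat.exists_eq_add_of_le h2
    refine (h m).trans ?_
    have : 0 ≤ q ^ (a + 2 + m) / (1 - q) := by positivity
    linarith

theorem BB_sum (C c : ℝ) (hC : 0 < C) (hc : 0 < c) : ∃ S0 : ℕ, ∀ K : ℝ, 0 ≤ K →
    ∃ n0 : ℕ, ∀ n ≥ n0, ∑ τ ∈ typesE n, BB C c K S0 n τ ≤ 45 / 100 := by
  classical
  -- the ratio
  set q : ℝ := Real.exp (-(c / 2)) with hqdef
  have hq0 : 0 < q := Real.exp_pos _
  have hq1 : q < 1 := by
    rw [hqdef, Real.exp_lt_one_iff]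
    linarith
  have hq2 : 0 < 1 - q := by linarith
  set D : ℝ := C * Real.exp (9 / (2 * c)) with hD
  have hD0 : 0 < D := by positivity
  obtain ⟨S0, hS0⟩ : ∃ S0 : ℕ, q ^ S0 < 0.04 * (1 - q) / D :=
    exists_pow_lt_of_lt_one (by positivity) hq1
  refine ⟨S0, fun K hK => ?_⟩
  set M : ℝ := ∑ s ∈ Finset.Icc 0 S0, Real.exp (3 * Real.sqrt s) with hM
  have hM0 : 0 ≤ M := Finset.sum_nonneg fun s _ => (Real.exp_pos _).le
  obtain ⟨n1, hn1⟩ := exists_nat_gt (100 * K * M)
  refine ⟨max n1 600, fun n hn => ?_⟩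
  have hn600 : (600 : ℝ) ≤ n := by
    have : 600 ≤ n := (le_max_right _ _).trans hn
    exact_mod_cast this
  have hnn1 : (n1 : ℝ) ≤ n := by
    have : n1 ≤ n := (le_max_left _ _).trans hn
    exact_mod_cast this
  have hnpos : (0 : ℝ) < n := by linarith
  -- splitting
  have hsplit : ∑ τ ∈ typesE n, BB C c K S0 n τ =
      ∑ τ ∈ typesE n, 3 * Real.exp (-(9 * Real.sqrt τ.sum)) +
      ∑ τ ∈ typesE n, 4 * Real.exp (-(5 * Real.sqrt n)) +
      (∑ τ ∈ (typesE n).filter (fun τ => τ.sum ≤ S0), (bS τ + K / n) +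
      ∑ τ ∈ (typesE n).filter (fun τ => ¬ τ.sum ≤ S0), C * Real.exp (-(c * τ.sum))) := by
    unfold BB
    rw [Finset.sum_add_distrib, Finset.sum_add_distrib, Finset.sum_ite]
  rw [hsplit]
  -- (i)
  have h1 : ∑ τ ∈ typesE n, 3 * Real.exp (-(9 * Real.sqrt τ.sum)) ≤ 0.03 := by
    have h := bsum_fiber n (typesE n) (Finset.Subset.refl _)
      (fun s => 3 * Real.exp (-(9 * Real.sqrt s))) (fun s => by positivity) 3 n
      (fun τ hτ => (bsum_mem hτ).2)
    refine h.trans ?_
    have h2 : ∀ s ∈ Finset.Icc 3 n, Real.exp (3 * Real.sqrt s) *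
        (3 * Real.exp (-(9 * Real.sqrt s))) ≤ 1 / 18 * (1 / (s : ℝ) ^ 2) := by
      intro s hs
      have hs3 : (3 : ℝ) ≤ s := by exact_mod_cast (Finset.mem_Icc.1 hs).1
      have hsq : 0 < Real.sqrt s := Real.sqrt_pos.2 (by linarith)
      have e1 : Real.exp (3 * Real.sqrt s) * (3 * Real.exp (-(9 * Real.sqrt s))) =
          3 * Real.exp (-(6 * Real.sqrt s)) := by
        rw [mul_left_comm, ← Real.exp_add]
        congr 2
        ring
      rw [e1]
      have h3 := bsum_exp4 (y := 6 * Real.sqrt s) (by positivity)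
      have e2 : (6 * Real.sqrt s) ^ 4 = 1296 * (s : ℝ) ^ 2 := by
        have : Real.sqrt s ^ 2 = s := Real.sq_sqrt (by linarith)
        calc (6 * Real.sqrt s) ^ 4 = 1296 * (Real.sqrt s ^ 2) ^ 2 := by ring
          _ = 1296 * (s : ℝ) ^ 2 := by rw [this]
      rw [e2] at h3
      calc 3 * Real.exp (-(6 * Real.sqrt s)) ≤ 3 * (24 / (1296 * (s : ℝ) ^ 2)) := by linarith
        _ = 1 / 18 * (1 / (s : ℝ) ^ 2) := by
          field_simp
          norm_num
    refine (Finset.sum_le_sum h2).trans ?_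
    rw [← Finset.mul_sum]
    have := bsum_tele n
    linarith
  -- (ii)
  have h2 : ∑ τ ∈ typesE n, 4 * Real.exp (-(5 * Real.sqrt n)) ≤ 0.01 := by
    have h := bsum_fiber n (typesE n) (Finset.Subset.refl _)
      (fun _ => 4 * Real.exp (-(5 * Real.sqrt n))) (fun s => by positivity) 3 n
      (fun τ hτ => (bsum_mem hτ).2)
    refine h.trans ?_
    have h3 : ∀ s ∈ Finset.Icc 3 n, Real.exp (3 * Real.sqrt s) *
        (4 * Real.exp (-(5 * Real.sqrt n))) ≤ 4 * Real.exp (-(2 * Real.sqrt n)) := by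
      intro s hs
      have hsn : (s : ℝ) ≤ n := by exact_mod_cast (Finset.mem_Icc.1 hs).2
      have h4 : Real.sqrt s ≤ Real.sqrt n := Real.sqrt_le_sqrt hsn
      calc Real.exp (3 * Real.sqrt s) * (4 * Real.exp (-(5 * Real.sqrt n)))
          = 4 * Real.exp (3 * Real.sqrt s + -(5 * Real.sqrt n)) := by
            rw [Real.exp_add]; ring
        _ ≤ 4 * Real.exp (-(2 * Real.sqrt n)) := by
            have := Real.exp_le_exp.2 (show 3 * Real.sqrt s + -(5 * Real.sqrt n) ≤
              -(2 * Real.sqrt n) by linarith)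
            linarith
    refine (Finset.sum_le_sum h3).trans ?_
    rw [Finset.sum_const, nsmul_eq_mul]
    have hcard : ((Finset.Icc 3 n).card : ℝ) ≤ n := by
      rw [Nat.card_Icc]
      have : n + 1 - 3 ≤ n := by omega
      exact_mod_cast this
    have hsq : 0 < Real.sqrt n := Real.sqrt_pos.2 hnpos
    have h5 := bsum_exp4 (y := 2 * Real.sqrt n) (by positivity)
    have e2 : (2 * Real.sqrt n) ^ 4 = 16 * (n : ℝ) ^ 2 := by
      have : Real.sqrt n ^ 2 = n := Real.sq_sqrt (by linarith)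
      calc (2 * Real.sqrt n) ^ 4 = 16 * (Real.sqrt n ^ 2) ^ 2 := by ring
        _ = 16 * (n : ℝ) ^ 2 := by rw [this]
    rw [e2] at h5
    calc ((Finset.Icc 3 n).card : ℝ) * (4 * Real.exp (-(2 * Real.sqrt n)))
        ≤ n * (4 * (24 / (16 * (n : ℝ) ^ 2))) := by
          apply mul_le_mul hcard (by linarith) (by positivity) (by positivity)
      _ = 6 / n := by
          field_simp
          norm_num
      _ ≤ 0.01 := by
          rw [div_le_iff₀ hnpos]
          linarith
  -- (iii), (iv)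
  have h3 : ∑ τ ∈ (typesE n).filter (fun τ => τ.sum ≤ S0), (bS τ + K / n) ≤ 0.33 := by
    rw [Finset.sum_add_distrib]
    have h4 := bad_sum ((typesE n).filter (fun τ => τ.sum ≤ S0))
      (fun τ hτ => (bsum_mem (Finset.mem_filter.1 hτ).1).1)
    have h5 : ∑ τ ∈ (typesE n).filter (fun τ => τ.sum ≤ S0), K / n ≤ 0.01 := by
      have h := bsum_fiber n ((typesE n).filter (fun τ => τ.sum ≤ S0))
        (Finset.filter_subset _ _) (fun _ => K / n) (fun s => by positivity) 0 S0
        (fun τ hτ => ⟨Nat.zero_le _, (Finset.mem_filter.1 hτ).2⟩)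
      refine h.trans ?_
      rw [← Finset.sum_mul, ← hM, mul_div_assoc', div_le_iff₀ hnpos]
      nlinarith
    linarith
  -- (v)
  have h4 : ∑ τ ∈ (typesE n).filter (fun τ => ¬ τ.sum ≤ S0), C * Real.exp (-(c * τ.sum)) ≤
      0.04 := by
    have h := bsum_fiber n ((typesE n).filter (fun τ => ¬ τ.sum ≤ S0))
      (Finset.filter_subset _ _) (fun s => C * Real.exp (-(c * s))) (fun s => by positivity)
      (S0 + 1) n (fun τ hτ => ⟨by
        have := (Finset.mem_filter.1 hτ).2
        omega, (bsum_mem (Finset.mem_filter.1 hτ).1).2.2⟩)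
    refine h.trans ?_
    have h5 : ∀ s ∈ Finset.Icc (S0 + 1) n, Real.exp (3 * Real.sqrt s) *
        (C * Real.exp (-(c * s))) ≤ D * q ^ s := by
      intro s _
      have h6 : 3 * Real.sqrt s ≤ c / 2 * s + 9 / (2 * c) := by
        have h8 : Real.sqrt s ^ 2 = s := Real.sq_sqrt (by positivity)
        have h9 : ∀ x : ℝ, c / 2 * x ^ 2 + 9 / (2 * c) - 3 * x = (c * x - 3) ^ 2 / (2 * c) := by
          intro x
          field_simp
          ring
        have h10 : 0 ≤ (c * Real.sqrt s - 3) ^ 2 / (2 * c) := by positivity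
        have h11 := h9 (Real.sqrt s)
        rw [h8] at h11
        linarith
      calc Real.exp (3 * Real.sqrt s) * (C * Real.exp (-(c * s)))
          = C * Real.exp (3 * Real.sqrt s + -(c * s)) := by
            rw [Real.exp_add]; ring
        _ ≤ C * Real.exp (9 / (2 * c) + s * (-(c / 2))) := by
            apply mul_le_mul_of_nonneg_left _ hC.le
            apply Real.exp_le_exp.2
            linarith
        _ = D * q ^ s := by
            rw [Real.exp_add, Real.exp_nat_mul, hD, hqdef]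
            ring
    refine (Finset.sum_le_sum h5).trans ?_
    rw [← Finset.mul_sum]
    have h6 := bsum_geom hq0 hq1 S0 n
    calc D * ∑ s ∈ Finset.Icc (S0 + 1) n, q ^ s ≤ D * (q ^ (S0 + 1) / (1 - q)) :=
          mul_le_mul_of_nonneg_left h6 hD0.le
      _ ≤ D * (q ^ S0 / (1 - q)) := by
          apply mul_le_mul_of_nonneg_left _ hD0.le
          apply div_le_div_of_nonneg_right _ hq2.le
          exact pow_le_pow_of_le_one hq0.le hq1.le (by omega)
      _ ≤ D * ((0.04 * (1 - q) / D) / (1 - q)) := by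
          apply mul_le_mul_of_nonneg_left _ hD0.le
          exact div_le_div_of_nonneg_right hS0.le hq2.le
      _ = 0.04 := by
          field_simp
  linarith

end Pool.MP322
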