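import Mathlib

/-! job SQ-55: sums over multisets. -/

set_option autoImplicit false

open Finset

namespace Pool.MP322

private theorem ms_split (a : ℕ) (τ : Multiset ℕ) :
    Multiset.replicate (τ.count a) a + τ.filter (fun c => ¬ c = a) = τ := by
  rw [← Multiset.filter_eq', Multiset.filter_add_not]

private theorem ms_prod (x : ℕ → ℝ) (a : ℕ) (τ : Multiset ℕ) :
    (τ.map x).prod = x a ^ (τ.count a) * ((τ.filter (fun c => ¬ c = a)).map x).prod := by
  conv_lhs => rw [← ms_split a τ]
  rw [Multiset.map_add, Multiset.prod_add, Multiset.map_replicate, Multiset.prod_replicate]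

theorem multiset_sum_le (P : Finset ℕ) (x : ℕ → ℝ) (h0 : ∀ c, 0 ≤ x c) (h1 : ∀ c ∈ P, x c < 1)
    (T : Finset (Multiset ℕ)) (hT : ∀ τ ∈ T, ∀ c ∈ τ, c ∈ P) :
    ∑ τ ∈ T, (τ.map x).prod ≤ ∏ c ∈ P, (1 - x c)⁻¹ := by
  classical
  induction P using Finset.induction_on generalizing T with
  | empty =>
    have hsub : T ⊆ {0} := by
      intro τ hτ
      rw [Finset.mem_singleton]
      exact Multiset.eq_zero_of_forall_notMem (fun c hc => by simpa using hT τ hτ c hc)
    calc ∑ τ ∈ T, (τ.map x).prod ≤ ∑ τ ∈ ({0} : Finset (Multiset ℕ)), (τ.map x).prod := by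
          apply Finset.sum_le_sum_of_subset_of_nonneg hsub
          intro τ _ _
          apply Multiset.prod_nonneg
          intro y hy
          obtain ⟨c, _, rfl⟩ := Multiset.mem_map.1 hy
          exact h0 c
      _ = ∏ c ∈ (∅ : Finset ℕ), (1 - x c)⁻¹ := by simp
  | insert a P ha ih =>
    have hxa : x a < 1 := h1 a (Finset.mem_insert_self a P)
    have h1' : ∀ c ∈ P, x c < 1 := fun c hc => h1 c (Finset.mem_insert_of_mem hc)
    have hPi : 0 ≤ ∏ c ∈ P, (1 - x c)⁻¹ := by
      apply Finset.prod_nonneg
      intro c hc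
      have := h1' c hc
      apply inv_nonneg.2
      linarith
    rw [Finset.prod_insert ha]
    have hfib : ∑ τ ∈ T, (τ.map x).prod
        = ∑ j ∈ T.image (fun τ => τ.count a), ∑ τ ∈ T.filter (fun τ => τ.count a = j),
            (τ.map x).prod := by
      symm
      apply Finset.sum_fiberwise_of_maps_to
      intro τ hτ
      exact Finset.mem_image_of_mem _ hτ
    have hin : ∀ j ∈ T.image (fun τ => τ.count a),
        ∑ τ ∈ T.filter (fun τ => τ.count a = j), (τ.map x).prod
          ≤ x a ^ j * ∏ c ∈ P, (1 - x c)⁻¹ := by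
      intro j _
      have e1 : ∑ τ ∈ T.filter (fun τ => τ.count a = j), (τ.map x).prod
          = x a ^ j * ∑ τ ∈ T.filter (fun τ => τ.count a = j),
              ((τ.filter (fun c => ¬ c = a)).map x).prod := by
        rw [Finset.mul_sum]
        apply Finset.sum_congr rfl
        intro τ hτ
        rw [Finset.mem_filter] at hτ
        rw [ms_prod x a τ, hτ.2]
      have e2 : ∑ τ ∈ T.filter (fun τ => τ.count a = j),
              ((τ.filter (fun c => ¬ c = a)).map x).prod
          = ∑ τ' ∈ (T.filter (fun τ => τ.count a = j)).image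
              (fun τ => τ.filter (fun c => ¬ c = a)), (τ'.map x).prod := by
        symm
        apply Finset.sum_image
        intro τ hτ τ' hτ' heq
        rw [Finset.mem_coe, Finset.mem_filter] at hτ hτ'
        have heq' : τ.filter (fun c => ¬ c = a) = τ'.filter (fun c => ¬ c = a) := heq
        rw [← ms_split a τ, ← ms_split a τ', hτ.2, hτ'.2, heq']
      rw [e1, e2]
      apply mul_le_mul_of_nonneg_left _ (pow_nonneg (h0 a) j)
      apply ih h1'
      intro τ' hτ' c hc
      obtain ⟨τ, hτ, rfl⟩ := Finset.mem_image.1 hτ'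
      rw [Multiset.mem_filter] at hc
      rw [Finset.mem_filter] at hτ
      have h2 := hT τ hτ.1 c hc.1
      rw [Finset.mem_insert] at h2
      exact h2.resolve_left hc.2
    rw [hfib]
    refine (Finset.sum_le_sum hin).trans ?_
    rw [← Finset.sum_mul]
    apply mul_le_mul_of_nonneg_right _ hPi
    rw [← tsum_geometric_of_lt_one (h0 a) hxa]
    exact (summable_geometric_of_lt_one (h0 a) hxa).sum_le_tsum _
      (fun j _ => pow_nonneg (h0 a) j)

end Pool.MP322
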