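import Pool.Agent.Lib.MP_322c5f_al.Small
import Pool.Agent.Lib.MP_322c5f_al.MS

/-! job SQ-47: the sum over the bad cycle types. -/

set_option autoImplicit false

open Equiv Finset Nat

namespace Pool.MP322

/-- the weight of a part -/
noncomputable def bsX (c : ℕ) : ℝ := (1 / 2 : ℝ) ^ (c - 1)

theorem bsX_nonneg (c : ℕ) : 0 ≤ bsX c := by unfold bsX; positivity

theorem bs_w (τ : Multiset ℕ) (h : ∀ c ∈ τ, 1 ≤ c) :
    τ.card ≤ τ.sum ∧ (τ.map bsX).prod = (1 / 2 : ℝ) ^ (τ.sum - τ.card) := by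
  induction τ using Multiset.induction_on with
  | empty => simp
  | cons a s ih =>
    obtain ⟨h1, h2⟩ := ih (fun c hc => h c (Multiset.mem_cons_of_mem hc))
    have ha : 1 ≤ a := h a (Multiset.mem_cons_self a s)
    rw [Multiset.card_cons, Multiset.sum_cons, Multiset.map_cons, Multiset.prod_cons, h2]
    refine ⟨by omega, ?_⟩
    unfold bsX
    rw [← pow_add]
    congr 1
    omega

theorem bs_parity (τ : Multiset ℕ) (h : ∀ c ∈ τ, 1 ≤ c) :
    τ.card ≤ τ.sum ∧ (Even (τ.sum - τ.card) ↔ Even (τ.filter (fun c => Even c)).card) := by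
  induction τ using Multiset.induction_on with
  | empty => simp
  | cons a s ih =>
    obtain ⟨h1, h2⟩ := ih (fun c hc => h c (Multiset.mem_cons_of_mem hc))
    have ha : 1 ≤ a := h a (Multiset.mem_cons_self a s)
    refine ⟨by rw [Multiset.card_cons, Multiset.sum_cons]; omega, ?_⟩
    rw [Multiset.card_cons, Multiset.sum_cons]
    have e : a + s.sum - (s.card + 1) = (s.sum - s.card) + (a - 1) := by omega
    rw [e, Nat.even_add, h2]
    by_cases hae : Even a
    · rw [Multiset.filter_cons_of_pos _ hae, Multiset.card_cons, Nat.even_add_one]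
      have h3 : ¬ Even (a - 1) := by
        rw [Nat.even_sub ha]
        simp [hae]
      simp [h3]
    · rw [Multiset.filter_cons_of_neg _ hae]
      have h3 : Even (a - 1) := by
        rw [Nat.even_sub ha]
        simp [hae]
      simp [h3]

theorem bs_bad (τ : Multiset ℕ) (h : ∀ c ∈ τ, 2 ≤ c) (hb : Bad τ) :
    ∃ i j : ℕ, i < j ∧ 2 * i + 2 ∈ τ ∧ 2 * j + 2 ∈ τ := by
  obtain ⟨hE, c, hc, hce, hodd⟩ := hb
  have hpar := (bs_parity τ (fun c hc => le_trans (by norm_num) (h c hc))).2.1 hE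
  have hex : ∃ c' ∈ τ, Even c' ∧ c' ≠ c := by
    by_contra hno
    push Not at hno
    have h1 : τ.filter (fun c => Even c) = τ.filter (fun d => d = c) := by
      apply Multiset.filter_congr
      intro d hd
      constructor
      · intro hde
        exact hno d hd hde
      · rintro rfl
        exact hce
    rw [h1] at hpar
    have h2 : (τ.filter (fun d => d = c)).card = τ.count c := by
      rw [Multiset.filter_eq', Multiset.card_replicate]
    rw [h2] at hpar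
    exact (Nat.not_even_iff_odd.2 hodd) hpar
  obtain ⟨c', hc', hc'e, hne⟩ := hex
  obtain ⟨i, hi⟩ := hce
  obtain ⟨j, hj⟩ := hc'e
  have h2 := h c hc
  have h2' := h c' hc'
  have e1 : 2 * (i - 1) + 2 = c := by omega
  have e2 : 2 * (j - 1) + 2 = c' := by omega
  rcases Nat.lt_or_ge i j with hlt | hge
  · refine ⟨i - 1, j - 1, by omega, ?_, ?_⟩
    · rw [e1]; exact hc
    · rw [e2]; exact hc'
  · refine ⟨j - 1, i - 1, by omega, ?_, ?_⟩
    · rw [e2]; exact hc'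
    · rw [e1]; exact hc

theorem bs_e2 (M : ℕ) : ∑ j ∈ range M, ∑ i ∈ range j, bsX (2 * i + 2) * bsX (2 * j + 2)
    ≤ 4 / 45 := by
  have h1 : ∀ j : ℕ, ∑ i ∈ range j, bsX (2 * i + 2) = 2 / 3 * (1 - (1 / 4 : ℝ) ^ j) := by
    intro j
    induction j with
    | zero => simp
    | succ j ih =>
      rw [Finset.sum_range_succ, ih]
      unfold bsX
      have e : 2 * j + 2 - 1 = 2 * j + 1 := by omega
      rw [e, pow_succ, pow_mul]
      norm_num
      ring
  have h2 : ∀ M : ℕ, ∑ j ∈ range M, ∑ i ∈ range j, bsX (2 * i + 2) * bsX (2 * j + 2)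
      = 4 / 45 - 4 / 9 * (1 / 4 : ℝ) ^ M + 16 / 45 * (1 / 16 : ℝ) ^ M := by
    intro M
    induction M with
    | zero => norm_num
    | succ M ih =>
      rw [Finset.sum_range_succ, ih, ← Finset.sum_mul, h1]
      unfold bsX
      have e : 2 * M + 2 - 1 = 2 * M + 1 := by omega
      have e2 : (1 / 16 : ℝ) ^ M = (1 / 4 : ℝ) ^ M * (1 / 4 : ℝ) ^ M := by
        rw [← mul_pow]; norm_num
      rw [e, pow_succ (1 / 2 : ℝ), pow_mul, pow_succ (1 / 4 : ℝ), pow_succ (1 / 16 : ℝ), e2]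
      norm_num
      ring
  rw [h2]
  have h3 : (1 / 16 : ℝ) ^ M ≤ (1 / 4 : ℝ) ^ M :=
    pow_le_pow_left₀ (by norm_num) (by norm_num) M
  have h4 : (0 : ℝ) ≤ (1 / 4 : ℝ) ^ M := by positivity
  linarith

theorem bs_prod (k : ℕ) :
    (2887 / 10000 : ℝ) ≤ ∏ c ∈ Icc 2 (7 + k), (1 - bsX c) := by
  have h7 : ∏ c ∈ Icc 2 7, (1 - bsX c) = 615195 / 2097152 := by
    unfold bsX
    simp only [Finset.prod_Icc_succ_top, show (2:ℕ) ≤ 7 from by norm_num]
    norm_num [Finset.prod_Icc_succ_top]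
  have h : ∀ k : ℕ, (615195 / 2097152 : ℝ) * (1 - 1 / 64 + 1 / 64 * (1 / 2 : ℝ) ^ k)
      ≤ ∏ c ∈ Icc 2 (7 + k), (1 - bsX c) := by
    intro k
    induction k with
    | zero =>
      rw [Nat.add_zero, h7]
      norm_num
    | succ k ih =>
      rw [← Nat.add_assoc, Finset.prod_Icc_succ_top (by omega)]
      have e : bsX (7 + k + 1) = 1 / 128 * (1 / 2 : ℝ) ^ k := by
        unfold bsX
        have : 7 + k + 1 - 1 = k + 7 := by omega
        rw [this, pow_add]
        norm_num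
        ring
      rw [e]
      have hk1 : (0 : ℝ) ≤ (1 / 2 : ℝ) ^ k := by positivity
      have hk2 : (1 / 2 : ℝ) ^ k ≤ 1 := pow_le_one₀ (by norm_num) (by norm_num)
      have h1 : (0 : ℝ) ≤ 1 - 1 / 128 * (1 / 2 : ℝ) ^ k := by linarith
      calc (615195 / 2097152 : ℝ) * (1 - 1 / 64 + 1 / 64 * (1 / 2 : ℝ) ^ (k + 1))
          ≤ (615195 / 2097152 : ℝ) * (1 - 1 / 64 + 1 / 64 * (1 / 2 : ℝ) ^ k)
            * (1 - 1 / 128 * (1 / 2 : ℝ) ^ k) := by
            rw [pow_succ]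
            nlinarith
        _ ≤ _ := mul_le_mul_of_nonneg_right ih h1
  have hk1 : (0 : ℝ) ≤ (1 / 2 : ℝ) ^ k := by positivity
  have := h k
  nlinarith

theorem bs_inner (P : Finset ℕ) (h1 : ∀ c ∈ P, bsX c < 1) (T : Finset (Multiset ℕ))
    (hT : ∀ τ ∈ T, ∀ c ∈ τ, c ∈ P) (a b : ℕ) (hab : a ≠ b) :
    ∑ τ ∈ T.filter (fun τ => a ∈ τ ∧ b ∈ τ), (τ.map bsX).prod
      ≤ bsX a * bsX b * ∏ c ∈ P, (1 - bsX c)⁻¹ := by
  classical
  have e : ∀ τ ∈ T.filter (fun τ => a ∈ τ ∧ b ∈ τ),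
      (τ.map bsX).prod = bsX a * bsX b * ((((τ.erase a).erase b)).map bsX).prod := by
    intro τ hτ
    obtain ⟨-, ha, hb⟩ := Finset.mem_filter.1 hτ
    have hb' : b ∈ τ.erase a := (Multiset.mem_erase_of_ne (Ne.symm hab)).2 hb
    conv_lhs => rw [← Multiset.cons_erase ha, ← Multiset.cons_erase hb']
    rw [Multiset.map_cons, Multiset.prod_cons, Multiset.map_cons, Multiset.prod_cons]
    ring
  rw [Finset.sum_congr rfl e, ← Finset.mul_sum]
  have hinj : ∀ τ ∈ T.filter (fun τ => a ∈ τ ∧ b ∈ τ), ∀ τ' ∈ T.filter (fun τ => a ∈ τ ∧ b ∈ τ),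
      (τ.erase a).erase b = (τ'.erase a).erase b → τ = τ' := by
    intro τ hτ τ' hτ' heq
    obtain ⟨-, ha, hb⟩ := Finset.mem_filter.1 hτ
    obtain ⟨-, ha', hb'⟩ := Finset.mem_filter.1 hτ'
    have g1 : b ∈ τ.erase a := (Multiset.mem_erase_of_ne (Ne.symm hab)).2 hb
    have g2 : b ∈ τ'.erase a := (Multiset.mem_erase_of_ne (Ne.symm hab)).2 hb'
    rw [← Multiset.cons_erase ha, ← Multiset.cons_erase g1, heq, Multiset.cons_erase g2,
      Multiset.cons_erase ha']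
  have himg : ∑ τ ∈ T.filter (fun τ => a ∈ τ ∧ b ∈ τ), ((((τ.erase a).erase b)).map bsX).prod
      = ∑ τ ∈ (T.filter (fun τ => a ∈ τ ∧ b ∈ τ)).image (fun τ => (τ.erase a).erase b),
        (τ.map bsX).prod := by
    rw [Finset.sum_image]
    intro τ hτ τ' hτ' heq
    exact hinj τ hτ τ' hτ' heq
  rw [himg]
  have hm := multiset_sum_le P bsX bsX_nonneg h1
    ((T.filter (fun τ => a ∈ τ ∧ b ∈ τ)).image (fun τ => (τ.erase a).erase b)) (by
      intro τ hτ c hc
      obtain ⟨τ0, hτ0, rfl⟩ := Finset.mem_image.1 hτ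
      exact hT τ0 (Finset.mem_filter.1 hτ0).1 c
        (Multiset.mem_of_mem_erase (Multiset.mem_of_mem_erase hc)))
  exact mul_le_mul_of_nonneg_left hm (mul_nonneg (bsX_nonneg a) (bsX_nonneg b))

theorem bad_sum (T : Finset (Multiset ℕ)) (h : ∀ τ ∈ T, ∀ c ∈ τ, 2 ≤ c) :
    ∑ τ ∈ T, bS τ ≤ 32 / 100 := by
  classical
  set k : ℕ := ∑ τ ∈ T, τ.sum with hk
  have hle : ∀ τ ∈ T, ∀ c ∈ τ, c ≤ k := by
    intro τ hτ c hc
    calc c ≤ τ.sum := Multiset.le_sum_of_mem hc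
      _ ≤ k := Finset.single_le_sum (f := fun τ : Multiset ℕ => τ.sum)
        (fun _ _ => Nat.zero_le _) hτ
  have hT : ∀ τ ∈ T, ∀ c ∈ τ, c ∈ Icc 2 (7 + k) := by
    intro τ hτ c hc
    rw [Finset.mem_Icc]
    exact ⟨h τ hτ c hc, (hle τ hτ c hc).trans (Nat.le_add_left k 7)⟩
  have h1 : ∀ c ∈ Icc 2 (7 + k), bsX c < 1 := by
    intro c hc
    have hc2 := (Finset.mem_Icc.1 hc).1
    unfold bsX
    exact pow_lt_one₀ (by norm_num) (by norm_num) (by omega)
  have hw0 : ∀ τ : Multiset ℕ, 0 ≤ (τ.map bsX).prod := by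
    intro τ
    apply Multiset.prod_nonneg
    intro y hy
    obtain ⟨c, -, rfl⟩ := Multiset.mem_map.1 hy
    exact bsX_nonneg c
  have step1 : ∀ τ ∈ T, bS τ ≤ ∑ j ∈ range (k + 1), ∑ i ∈ range j,
      (if 2 * i + 2 ∈ τ ∧ 2 * j + 2 ∈ τ then (τ.map bsX).prod else 0) := by
    intro τ hτ
    have hnn : ∀ j i : ℕ, 0 ≤ (if 2 * i + 2 ∈ τ ∧ 2 * j + 2 ∈ τ then (τ.map bsX).prod else 0) := by
      intro j i
      split_ifs
      · exact hw0 τ
      · exact le_rfl
    unfold bS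
    split_ifs with hb
    · obtain ⟨i, j, hij, hi, hj⟩ := bs_bad τ (h τ hτ) hb
      have hjk : j ∈ range (k + 1) := by
        have := hle τ hτ _ hj
        rw [Finset.mem_range]
        omega
      have e : (1 / 2 : ℝ) ^ (τ.sum - τ.card)
          = (if 2 * i + 2 ∈ τ ∧ 2 * j + 2 ∈ τ then (τ.map bsX).prod else 0) := by
        rw [if_pos ⟨hi, hj⟩]
        exact (bs_w τ (fun c hc => le_trans (by norm_num) (h τ hτ c hc))).2.symm
      rw [e]
      calc (if 2 * i + 2 ∈ τ ∧ 2 * j + 2 ∈ τ then (τ.map bsX).prod else 0)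
          ≤ ∑ i ∈ range j, (if 2 * i + 2 ∈ τ ∧ 2 * j + 2 ∈ τ then (τ.map bsX).prod else 0) :=
            Finset.single_le_sum
              (f := fun i => (if 2 * i + 2 ∈ τ ∧ 2 * j + 2 ∈ τ then (τ.map bsX).prod else 0))
              (fun i _ => hnn j i) (Finset.mem_range.2 hij)
        _ ≤ _ := Finset.single_le_sum
              (f := fun j => ∑ i ∈ range j,
                (if 2 * i + 2 ∈ τ ∧ 2 * j + 2 ∈ τ then (τ.map bsX).prod else 0))
              (fun j _ => Finset.sum_nonneg (fun i _ => hnn j i)) hjk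
    · exact Finset.sum_nonneg (fun j _ => Finset.sum_nonneg (fun i _ => hnn j i))
  have hPpos : 0 < ∏ c ∈ Icc 2 (7 + k), (1 - bsX c) := by
    have := bs_prod k
    linarith
  have hPi : ∏ c ∈ Icc 2 (7 + k), (1 - bsX c)⁻¹ ≤ 10000 / 2887 := by
    rw [Finset.prod_inv_distrib]
    have h2 := bs_prod k
    calc (∏ c ∈ Icc 2 (7 + k), (1 - bsX c))⁻¹ ≤ (2887 / 10000 : ℝ)⁻¹ :=
          inv_anti₀ (by norm_num) h2
      _ = 10000 / 2887 := by norm_num
  have hPi0 : 0 ≤ ∏ c ∈ Icc 2 (7 + k), (1 - bsX c)⁻¹ := by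
    rw [Finset.prod_inv_distrib]
    positivity
  calc ∑ τ ∈ T, bS τ
      ≤ ∑ τ ∈ T, ∑ j ∈ range (k + 1), ∑ i ∈ range j,
        (if 2 * i + 2 ∈ τ ∧ 2 * j + 2 ∈ τ then (τ.map bsX).prod else 0) :=
          Finset.sum_le_sum step1
    _ = ∑ j ∈ range (k + 1), ∑ i ∈ range j,
        ∑ τ ∈ T, (if 2 * i + 2 ∈ τ ∧ 2 * j + 2 ∈ τ then (τ.map bsX).prod else 0) := by
          rw [Finset.sum_comm]
          apply Finset.sum_congr rfl
          intro j _
          rw [Finset.sum_comm]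
    _ ≤ ∑ j ∈ range (k + 1), ∑ i ∈ range j,
        bsX (2 * i + 2) * bsX (2 * j + 2) * ∏ c ∈ Icc 2 (7 + k), (1 - bsX c)⁻¹ := by
          apply Finset.sum_le_sum
          intro j _
          apply Finset.sum_le_sum
          intro i hi
          rw [← Finset.sum_filter]
          exact bs_inner _ h1 T hT _ _ (by have := Finset.mem_range.1 hi; omega)
    _ = (∑ j ∈ range (k + 1), ∑ i ∈ range j, bsX (2 * i + 2) * bsX (2 * j + 2))
        * ∏ c ∈ Icc 2 (7 + k), (1 - bsX c)⁻¹ := by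
          rw [Finset.sum_mul]
          apply Finset.sum_congr rfl
          intro j _
          rw [Finset.sum_mul]
    _ ≤ 4 / 45 * (10000 / 2887) := by
          apply mul_le_mul (bs_e2 _) hPi hPi0 (by norm_num)
    _ ≤ 32 / 100 := by norm_num

end Pool.MP322
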