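import Pool.Agent.Lib.MP_322c5f_al.TabB

/-! job SQ-13: branching rule for the number of standard fillings. -/

set_option autoImplicit false

open Equiv Finset

namespace Pool.MP322

private theorem bra_mem {n : ℕ} {rho : YoungDiagram} (y : Tab ⊥ rho n) (c : ℕ × ℕ) :
    c ∈ rho ↔ ∃ i, y.1 i = c := by
  rw [y.2.2.2.1 c]
  constructor
  · rintro (h | h)
    · exact absurd h (by simp)
    · exact h
  · exact Or.inr

private theorem bra_exists {n : ℕ} (lam : Y (n + 1)) (rho : Y n) (h : rho.1 ≤ lam.1) :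
    ∃ c, c ∉ rho.1 ∧ ∀ d, d ∈ lam.1 ↔ d ∈ rho.1 ∨ d = c := by
  have hsub : rho.1.cells ⊆ lam.1.cells := h
  have h1 : (lam.1.cells \ rho.1.cells).card = 1 := by
    rw [Finset.card_sdiff_of_subset hsub]
    have h2 : lam.1.cells.card = n + 1 := lam.2
    have h3 : rho.1.cells.card = n := rho.2
    omega
  obtain ⟨c, hc⟩ := Finset.card_eq_one.1 h1
  have hcm : c ∈ lam.1.cells \ rho.1.cells := by rw [hc]; simp
  have hcm' := Finset.mem_sdiff.1 hcm
  refine ⟨c, fun hcon => hcm'.2 ((YoungDiagram.mem_cells _).2 hcon), fun d => ?_⟩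
  constructor
  · intro hd
    by_cases hr : d ∈ rho.1
    · exact Or.inl hr
    · right
      have : d ∈ lam.1.cells \ rho.1.cells := Finset.mem_sdiff.2
        ⟨(YoungDiagram.mem_cells _).2 hd, fun hcon => hr ((YoungDiagram.mem_cells _).1 hcon)⟩
      rw [hc] at this
      exact Finset.mem_singleton.1 this
  · rintro (hd | rfl)
    · exact (YoungDiagram.mem_cells _).1 (hsub ((YoungDiagram.mem_cells _).2 hd))
    · exact (YoungDiagram.mem_cells _).1 hcm'.1

/-- the new cell -/
private noncomputable def bra_cell {n : ℕ} (lam : Y (n + 1)) (rho : Y n) (h : rho.1 ≤ lam.1) :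
    ℕ × ℕ := (bra_exists lam rho h).choose

private theorem bra_snoc {n : ℕ} (lam : Y (n + 1)) (rho : Y n) (y : Tab ⊥ rho.1 n)
    (c : ℕ × ℕ) (hc : c ∉ rho.1) (hl : ∀ d, d ∈ lam.1 ↔ d ∈ rho.1 ∨ d = c) :
    IsTab ⊥ lam.1 (n + 1) (Fin.snoc (α := fun _ => ℕ × ℕ) y.1 c) := by
  have hmem : ∀ d, d ∈ lam.1 ↔ ∃ i, (Fin.snoc (α := fun _ => ℕ × ℕ) y.1 c) i = d := by
    intro d
    rw [hl d, bra_mem y d]
    constructor
    · rintro (⟨i, hi⟩ | rfl)
      · exact ⟨i.castSucc, by rw [Fin.snoc_castSucc]; exact hi⟩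
      · exact ⟨Fin.last n, by rw [Fin.snoc_last]⟩
    · rintro ⟨i, hi⟩
      induction i using Fin.lastCases with
      | last =>
        rw [Fin.snoc_last] at hi
        exact Or.inr hi.symm
      | cast i =>
        rw [Fin.snoc_castSucc] at hi
        exact Or.inl ⟨i, hi⟩
  refine ⟨?_, fun i => by simp, fun d => ?_, fun i d hd => Or.inr ?_⟩
  · intro i j hij
    induction i using Fin.lastCases with
    | last =>
      induction j using Fin.lastCases with
      | last => rfl
      | cast j =>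
        exfalso
        rw [Fin.snoc_last, Fin.snoc_castSucc] at hij
        exact hc ((bra_mem y c).2 ⟨j, hij.symm⟩)
    | cast i =>
      induction j using Fin.lastCases with
      | last =>
        exfalso
        rw [Fin.snoc_last, Fin.snoc_castSucc] at hij
        exact hc ((bra_mem y c).2 ⟨i, hij⟩)
      | cast j =>
        rw [Fin.snoc_castSucc, Fin.snoc_castSucc] at hij
        rw [y.2.1 hij]
  · rw [hmem d]
    constructor
    · exact Or.inr
    · rintro (h | h)
      · exact absurd h (by simp)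
      · exact h
  · induction i using Fin.lastCases with
    | last =>
      rw [Fin.snoc_last] at hd
      have hdl : d ∈ lam.1 := lam.1.isLowerSet hd ((YoungDiagram.mem_cells _).2 ((hl c).2 (Or.inr rfl)))
      obtain ⟨j, hj⟩ := (hmem d).1 hdl
      exact ⟨j, Fin.le_last j, hj⟩
    | cast i =>
      rw [Fin.snoc_castSucc] at hd
      rcases y.2.2.2.2 i d hd with h | ⟨j, hj, hjd⟩
      · exact absurd h (by simp)
      · exact ⟨j.castSucc, Fin.castSucc_le_castSucc_iff.2 hj, by rw [Fin.snoc_castSucc]; exact hjd⟩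

/-- the map of the bijection -/
private noncomputable def bra_map {n : ℕ} (lam : Y (n + 1)) :
    (Σ rho : {rho : Y n // rho.1 ≤ lam.1}, Tab ⊥ rho.1.1 n) → Tab ⊥ lam.1 (n + 1) := fun p =>
  ⟨Fin.snoc (α := fun _ => ℕ × ℕ) p.2.1 (bra_cell lam p.1.1 p.1.2),
    bra_snoc lam p.1.1 p.2 _ (bra_exists lam p.1.1 p.1.2).choose_spec.1
      (bra_exists lam p.1.1 p.1.2).choose_spec.2⟩

private theorem bra_inj {n : ℕ} (lam : Y (n + 1)) : Function.Injective (bra_map lam) := by
  rintro ⟨⟨rho, h⟩, y⟩ ⟨⟨rho', h'⟩, y'⟩ he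
  have h1 : (Fin.snoc (α := fun _ => ℕ × ℕ) y.1 (bra_cell lam rho h) : Fin (n + 1) → ℕ × ℕ) =
      Fin.snoc (α := fun _ => ℕ × ℕ) y'.1 (bra_cell lam rho' h') := congrArg Subtype.val he
  have h2 : y.1 = y'.1 := by
    funext i
    have := congrFun h1 i.castSucc
    rwa [Fin.snoc_castSucc, Fin.snoc_castSucc] at this
  have h3 : rho = rho' := by
    apply Subtype.ext
    apply YoungDiagram.ext
    ext c
    rw [YoungDiagram.mem_cells, YoungDiagram.mem_cells]
    have e1 := bra_mem y c
    have e2 := bra_mem y' c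
    rw [e1, e2, h2]
  subst h3
  have h4 : y = y' := Subtype.ext h2
  rw [h4]

private theorem bra_surj {n : ℕ} (lam : Y (n + 1)) : Function.Surjective (bra_map lam) := by
  classical
  intro x
  have hxm : ∀ d, d ∈ lam.1 ↔ ∃ i, x.1 i = d := bra_mem x
  -- the smaller diagram
  let rho : YoungDiagram :=
    { cells := Finset.univ.image (fun i : Fin n => x.1 i.castSucc)
      isLowerSet := by
        intro a b hab ha
        simp only [Finset.coe_image, Finset.coe_univ, Set.image_univ, Set.mem_range] at ha ⊢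
        obtain ⟨i, rfl⟩ := ha
        rcases x.2.2.2.2 i.castSucc b hab with h | ⟨j, hj, hjb⟩
        · exact absurd h (by simp)
        · have hj2 : j.val < n := by
            have := Fin.le_def.1 hj
            have h2 : i.castSucc.val = i.val := rfl
            omega
          exact ⟨⟨j.val, hj2⟩, by rw [← hjb]; rfl⟩ }
  have hrm : ∀ d, d ∈ rho ↔ ∃ i : Fin n, x.1 i.castSucc = d := by
    intro d
    rw [← YoungDiagram.mem_cells]
    simp [rho]
  have hcard : rho.card = n := by
    show (Finset.univ.image (fun i : Fin n => x.1 i.castSucc)).card = n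
    rw [Finset.card_image_of_injective _ (fun i j hij => Fin.castSucc_injective n (x.2.1 hij)),
      Finset.card_univ, Fintype.card_fin]
  have hle : rho ≤ lam.1 := by
    intro d hd
    have hd' : d ∈ rho := hd
    obtain ⟨i, hi⟩ := (hrm d).1 hd'
    exact (hxm d).2 ⟨_, hi⟩
  have hy : IsTab ⊥ rho n (fun i : Fin n => x.1 i.castSucc) := by
    refine ⟨fun i j hij => Fin.castSucc_injective n (x.2.1 hij), fun i => by simp, fun d => ?_,
      fun i d hd => Or.inr ?_⟩
    · rw [hrm d]
      constructor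
      · exact Or.inr
      · rintro (h | h)
        · exact absurd h (by simp)
        · exact h
    · rcases x.2.2.2.2 i.castSucc d hd with h | ⟨j, hj, hjb⟩
      · exact absurd h (by simp)
      · have hj3 : j.val ≤ i.val := by
          have := Fin.le_def.1 hj
          exact this
        have hj2 : j.val < n := lt_of_le_of_lt hj3 i.2
        exact ⟨⟨j.val, hj2⟩, Fin.le_def.2 hj3, by rw [← hjb]; rfl⟩
  refine ⟨⟨⟨⟨rho, hcard⟩, hle⟩, ⟨_, hy⟩⟩, ?_⟩
  apply Subtype.ext
  funext i
  show (Fin.snoc (α := fun _ => ℕ × ℕ) (fun i : Fin n => x.1 i.castSucc)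
    (bra_cell lam ⟨rho, hcard⟩ hle)) i = x.1 i
  induction i using Fin.lastCases with
  | cast i => rw [Fin.snoc_castSucc]
  | last =>
    rw [Fin.snoc_last]
    have hspec := (bra_exists lam ⟨rho, hcard⟩ hle).choose_spec
    have h1 : bra_cell lam ⟨rho, hcard⟩ hle ∈ lam.1 := (hspec.2 _).2 (Or.inr rfl)
    obtain ⟨j, hj⟩ := (hxm _).1 h1
    induction j using Fin.lastCases with
    | last => exact hj.symm
    | cast j =>
      exfalso
      exact hspec.1 ((hrm _).2 ⟨j, hj⟩)

open Classical in
theorem card_tab_succ {n : ℕ} (lam : Y (n + 1)) :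
    Fintype.card (Tab ⊥ lam.1 (n + 1)) =
      ∑ rho ∈ (Finset.univ : Finset (Y n)).filter (fun rho => rho.1 ≤ lam.1),
        Fintype.card (Tab ⊥ rho.1 n) := by
  rw [← Fintype.card_of_bijective ⟨bra_inj lam, bra_surj lam⟩, Fintype.card_sigma]
  exact (Finset.sum_subtype _ (by simp) (fun rho : Y n => Fintype.card (Tab ⊥ rho.1 n))).symm

end Pool.MP322
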