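import Pool.Agent.Lib.MP_322c5f_al.Defs

/-! job SQ-14: numbers of lower and upper covers in Young's lattice. -/

set_option autoImplicit false

open Equiv Finset

namespace Pool.MP322

theorem brb_lower (lam : YoungDiagram) {a b : ℕ × ℕ} (h1 : b.1 ≤ a.1) (h2 : b.2 ≤ a.2)
    (ha : a ∈ lam) : b ∈ lam := by
  have := lam.up_left_mem h1 h2 (show (a.1, a.2) ∈ lam from ha)
  exact this

theorem brb_mem_corners {lam : YoungDiagram} {c : ℕ × ℕ} :
    c ∈ corners lam ↔ c ∈ lam ∧ (c.1 + 1, c.2) ∉ lam ∧ (c.1, c.2 + 1) ∉ lam := by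
  unfold corners
  rw [Finset.mem_filter, YoungDiagram.mem_cells]

/-- removing a corner -/
def brbRem (lam : YoungDiagram) (c : ℕ × ℕ) (hc : c ∈ corners lam) : YoungDiagram where
  cells := lam.cells.erase c
  isLowerSet := by
    intro a b hba ha
    rw [Finset.mem_coe, Finset.mem_erase, YoungDiagram.mem_cells] at ha ⊢
    obtain ⟨hba1, hba2⟩ := Prod.le_def.1 hba
    refine ⟨?_, brb_lower lam hba1 hba2 ha.2⟩
    rintro rfl
    obtain ⟨_, h1, h2⟩ := brb_mem_corners.1 hc
    rcases Nat.lt_or_ge b.1 a.1 with h | h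
    · exact h1 (brb_lower lam (a := a) (b := (b.1 + 1, b.2)) h hba2 ha.2)
    · rcases Nat.lt_or_ge b.2 a.2 with h' | h'
      · exact h2 (brb_lower lam (a := a) (b := (b.1, b.2 + 1)) hba1 h' ha.2)
      · exact ha.1 (Prod.ext (by omega) (by omega))

/-- the missing cell of a lower cover -/
theorem brb_missing {n : ℕ} (rho : Y n) (lam : Y (n + 1)) (h : rho.1 ≤ lam.1) :
    ∃ c, c ∉ rho.1 ∧ c ∈ lam.1 ∧ ∀ d, d ∈ lam.1 ↔ d ∈ rho.1 ∨ d = c := by
  have hsub : rho.1.cells ⊆ lam.1.cells := YoungDiagram.cells_subset_iff.2 h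
  have h1 : rho.1.cells.card = n := rho.2
  have h2 : lam.1.cells.card = n + 1 := lam.2
  have h3 : (lam.1.cells \ rho.1.cells).card = 1 := by
    rw [Finset.card_sdiff_of_subset hsub, h1, h2]; omega
  obtain ⟨c, hc⟩ := Finset.card_eq_one.1 h3
  have hc' : c ∈ lam.1.cells \ rho.1.cells := by rw [hc]; simp
  rw [Finset.mem_sdiff, YoungDiagram.mem_cells, YoungDiagram.mem_cells] at hc'
  refine ⟨c, hc'.2, hc'.1, fun d => ⟨fun hd => ?_, fun hd => ?_⟩⟩
  · by_cases hr : d ∈ rho.1
    · exact Or.inl hr
    · right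
      have : d ∈ lam.1.cells \ rho.1.cells := by
        rw [Finset.mem_sdiff, YoungDiagram.mem_cells, YoungDiagram.mem_cells]; exact ⟨hd, hr⟩
      rw [hc, Finset.mem_singleton] at this
      exact this
  · rcases hd with hd | rfl
    · exact (YoungDiagram.mem_cells _).1 (hsub ((YoungDiagram.mem_cells _).2 hd))
    · exact hc'.1

open Classical in
theorem card_down {n : ℕ} (lam : Y (n + 1)) :
    ((Finset.univ : Finset (Y n)).filter (fun rho => rho.1 ≤ lam.1)).card = mcor lam.1 := by
  symm
  unfold mcor
  refine Finset.card_bij (fun c hc => (⟨brbRem lam.1 c hc, ?_⟩ : Y n)) ?_ ?_ ?_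
  · have hmem : c ∈ lam.1.cells := (YoungDiagram.mem_cells _).2 (brb_mem_corners.1 hc).1
    have h2 : lam.1.cells.card = n + 1 := lam.2
    change (lam.1.cells.erase c).card = n
    rw [Finset.card_erase_of_mem hmem, h2]; omega
  · intro c hc
    rw [Finset.mem_filter]
    refine ⟨Finset.mem_univ _, ?_⟩
    apply YoungDiagram.cells_subset_iff.1
    exact Finset.erase_subset _ _
  · intro c hc d hd heq
    have h1 : lam.1.cells.erase c = lam.1.cells.erase d :=
      congrArg (fun x : Y n => x.1.cells) heq
    by_contra hne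
    have : c ∈ lam.1.cells.erase d := by
      rw [Finset.mem_erase]
      exact ⟨hne, (YoungDiagram.mem_cells _).2 (brb_mem_corners.1 hc).1⟩
    rw [← h1] at this
    exact (Finset.notMem_erase c _) this
  · intro rho hrho
    rw [Finset.mem_filter] at hrho
    obtain ⟨c, h1, h2, h3⟩ := brb_missing rho lam hrho.2
    have hc : c ∈ corners lam.1 := by
      rw [brb_mem_corners]
      refine ⟨h2, fun hcon => ?_, fun hcon => ?_⟩
      · rcases (h3 _).1 hcon with h | h
        · exact h1 (brb_lower rho.1 (a := (c.1 + 1, c.2)) (b := c) (by simp) le_rfl h)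
        · have := congrArg Prod.fst h; simp at this
      · rcases (h3 _).1 hcon with h | h
        · exact h1 (brb_lower rho.1 (a := (c.1, c.2 + 1)) (b := c) le_rfl (by simp) h)
        · have := congrArg Prod.snd h; simp at this
    refine ⟨c, hc, ?_⟩
    apply Subtype.ext
    apply YoungDiagram.ext
    ext d
    change d ∈ lam.1.cells.erase c ↔ d ∈ rho.1.cells
    rw [Finset.mem_erase, YoungDiagram.mem_cells, YoungDiagram.mem_cells, h3 d]
    constructor
    · rintro ⟨hne, h | h⟩
      · exact h
      · exact absurd h hne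
    · intro h
      exact ⟨fun h' => h1 (h' ▸ h), Or.inl h⟩

/-- rows where a cell can be added -/
def brbRows (rho : YoungDiagram) : Finset ℕ :=
  insert 0 ((corners rho).image (fun c => c.1 + 1))

theorem brb_corner_row {rho : YoungDiagram} {c d : ℕ × ℕ} (hc : c ∈ corners rho)
    (hd : d ∈ corners rho) (h : c.1 = d.1) : c = d := by
  obtain ⟨hc1, _, hc3⟩ := brb_mem_corners.1 hc
  obtain ⟨hd1, _, hd3⟩ := brb_mem_corners.1 hd
  rcases Nat.lt_trichotomy c.2 d.2 with h2 | h2 | h2
  · exact absurd (brb_lower rho (a := d) (b := (c.1, c.2 + 1)) h.le h2 hd1) hc3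
  · exact Prod.ext h h2
  · exact absurd (brb_lower rho (a := c) (b := (d.1, d.2 + 1)) h.ge h2 hc1) hd3

theorem brb_corner_col {rho : YoungDiagram} {c d : ℕ × ℕ} (hc : c ∈ corners rho)
    (hd : d ∈ corners rho) (h : c.2 = d.2) : c = d := by
  obtain ⟨hc1, hc2, _⟩ := brb_mem_corners.1 hc
  obtain ⟨hd1, hd2, _⟩ := brb_mem_corners.1 hd
  rcases Nat.lt_trichotomy c.1 d.1 with h2 | h2 | h2
  · exact absurd (brb_lower rho (a := d) (b := (c.1 + 1, c.2)) h2 h.le hd1) hc2
  · exact Prod.ext h2 h
  · exact absurd (brb_lower rho (a := c) (b := (d.1 + 1, d.2)) h2 h.ge hc1) hd2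

theorem card_brbRows (rho : YoungDiagram) : (brbRows rho).card = mcor rho + 1 := by
  unfold brbRows mcor
  rw [Finset.card_insert_of_notMem (by simp), Finset.card_image_of_injOn]
  intro c hc d hd h
  exact brb_corner_row hc hd (by simpa using h)

theorem brb_rows_spec {rho : YoungDiagram} {i : ℕ} (hi : i ∈ brbRows rho) {k : ℕ} (hk : k < i) :
    rho.rowLen i < rho.rowLen k := by
  unfold brbRows at hi
  rw [Finset.mem_insert, Finset.mem_image] at hi
  rcases hi with rfl | ⟨c, hc, rfl⟩
  · omega
  · obtain ⟨hc1, hc2, _⟩ := brb_mem_corners.1 hc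
    have h1 : c.2 < rho.rowLen c.1 := YoungDiagram.mem_iff_lt_rowLen.1 hc1
    have h2 : ¬ c.2 < rho.rowLen (c.1 + 1) := fun h => hc2 (YoungDiagram.mem_iff_lt_rowLen.2 h)
    have h3 := rho.rowLen_anti k c.1 (by omega)
    omega

/-- adding a cell in an admissible row -/
def brbAdd (rho : YoungDiagram) (i : ℕ) (hi : i ∈ brbRows rho) : YoungDiagram where
  cells := insert (i, rho.rowLen i) rho.cells
  isLowerSet := by
    intro a b hba ha
    rw [Finset.mem_coe, Finset.mem_insert, YoungDiagram.mem_cells] at ha ⊢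
    obtain ⟨hba1, hba2⟩ := Prod.le_def.1 hba
    rcases ha with rfl | ha
    · simp only at hba1 hba2
      rcases Nat.lt_or_ge b.1 i with h | h
      · right
        have := brb_rows_spec hi h
        exact YoungDiagram.mem_iff_lt_rowLen.2 (show b.2 < rho.rowLen b.1 by omega)
      · have hb1 : b.1 = i := by omega
        rcases Nat.lt_or_ge b.2 (rho.rowLen i) with h' | h'
        · right
          exact YoungDiagram.mem_iff_lt_rowLen.2 (show b.2 < rho.rowLen b.1 by rw [hb1]; exact h')
        · left
          exact Prod.ext hb1 (by simp only; omega)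
    · right
      exact brb_lower rho hba1 hba2 ha

theorem brb_notMem (rho : YoungDiagram) (i : ℕ) : (i, rho.rowLen i) ∉ rho := by
  intro h
  exact lt_irrefl _ (YoungDiagram.mem_iff_lt_rowLen.1 h)

open Classical in
theorem card_up {n : ℕ} (rho : Y n) :
    ((Finset.univ : Finset (Y (n + 1))).filter (fun lam => rho.1 ≤ lam.1)).card =
      mcor rho.1 + 1 := by
  rw [← card_brbRows]
  symm
  refine Finset.card_bij (fun i hi => (⟨brbAdd rho.1 i hi, ?_⟩ : Y (n + 1))) ?_ ?_ ?_
  · have h2 : rho.1.cells.card = n := rho.2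
    change (insert (i, rho.1.rowLen i) rho.1.cells).card = n + 1
    rw [Finset.card_insert_of_notMem, h2]
    rw [YoungDiagram.mem_cells]
    exact brb_notMem _ _
  · intro i hi
    rw [Finset.mem_filter]
    refine ⟨Finset.mem_univ _, ?_⟩
    apply YoungDiagram.cells_subset_iff.1
    exact Finset.subset_insert _ _
  · intro i hi k hk heq
    have h1 : insert (i, rho.1.rowLen i) rho.1.cells = insert (k, rho.1.rowLen k) rho.1.cells :=
      congrArg (fun x : Y (n + 1) => x.1.cells) heq
    have h2 : (i, rho.1.rowLen i) ∈ insert (k, rho.1.rowLen k) rho.1.cells := by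
      rw [← h1]; exact Finset.mem_insert_self _ _
    rw [Finset.mem_insert, YoungDiagram.mem_cells] at h2
    rcases h2 with h2 | h2
    · exact congrArg Prod.fst h2
    · exact absurd h2 (brb_notMem _ _)
  · intro lam hlam
    rw [Finset.mem_filter] at hlam
    obtain ⟨c, h1, h2, h3⟩ := brb_missing rho lam hlam.2
    have hr : ¬ c.2 < rho.1.rowLen c.1 := fun h =>
      h1 (YoungDiagram.mem_iff_lt_rowLen.2 h)
    have hc2 : c.2 = rho.1.rowLen c.1 := by
      by_contra hne
      have h4 : (c.1, c.2 - 1) ∈ lam.1 :=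
        brb_lower lam.1 (a := c) (b := (c.1, c.2 - 1)) le_rfl (Nat.sub_le _ _) h2
      rcases (h3 _).1 h4 with h | h
      · have := YoungDiagram.mem_iff_lt_rowLen.1 h
        omega
      · have := congrArg Prod.snd h
        simp only at this
        omega
    have hrow : c.1 ∈ brbRows rho.1 := by
      unfold brbRows
      rw [Finset.mem_insert, Finset.mem_image]
      rcases Nat.eq_zero_or_pos c.1 with h0 | h0
      · exact Or.inl h0
      · right
        have h4 : (c.1 - 1, c.2) ∈ lam.1 :=
          brb_lower lam.1 (a := c) (b := (c.1 - 1, c.2)) (Nat.sub_le _ _) le_rfl h2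
        have h5 : c.2 < rho.1.rowLen (c.1 - 1) := by
          rcases (h3 _).1 h4 with h | h
          · exact YoungDiagram.mem_iff_lt_rowLen.1 h
          · have := congrArg Prod.fst h
            simp only at this
            omega
        refine ⟨(c.1 - 1, rho.1.rowLen (c.1 - 1) - 1), ?_, by simp only; omega⟩
        rw [brb_mem_corners]
        refine ⟨?_, ?_, ?_⟩
        · exact YoungDiagram.mem_iff_lt_rowLen.2 (by omega)
        · intro h
          have := YoungDiagram.mem_iff_lt_rowLen.1 h
          have e : c.1 - 1 + 1 = c.1 := by omega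
          rw [e] at this
          omega
        · intro h
          have := YoungDiagram.mem_iff_lt_rowLen.1 h
          simp only at this
          omega
    refine ⟨c.1, hrow, ?_⟩
    apply Subtype.ext
    apply YoungDiagram.ext
    ext d
    change d ∈ insert (c.1, rho.1.rowLen c.1) rho.1.cells ↔ d ∈ lam.1.cells
    rw [Finset.mem_insert, YoungDiagram.mem_cells, YoungDiagram.mem_cells, h3 d, ← hc2]
    tauto

theorem mcor_succ_le {n : ℕ} (rho : Y n) (lam : Y (n + 1)) (h : rho.1 ≤ lam.1) :
    mcor lam.1 ≤ mcor rho.1 + 1 := by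
  obtain ⟨c, h1, h2, h3⟩ := brb_missing rho lam h
  have hsub : corners lam.1 ⊆ insert c (corners rho.1) := by
    intro d hd
    rw [Finset.mem_insert]
    obtain ⟨hd1, hd2, hd3⟩ := brb_mem_corners.1 hd
    rcases (h3 d).1 hd1 with h' | h'
    · right
      rw [brb_mem_corners]
      exact ⟨h', fun hh => hd2 ((h3 _).2 (Or.inl hh)), fun hh => hd3 ((h3 _).2 (Or.inl hh))⟩
    · exact Or.inl h'
  unfold mcor
  exact (Finset.card_le_card hsub).trans (Finset.card_insert_le _ _)

theorem brb_stair {lam : YoungDiagram} {a b : ℕ} (h : a + b < mcor lam) : (a, b) ∈ lam := by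
  by_contra hcon
  have hsub : corners lam ⊆ (corners lam).filter (fun c => c.1 < a) ∪
      (corners lam).filter (fun c => c.2 < b) := by
    intro c hc
    rw [Finset.mem_union, Finset.mem_filter, Finset.mem_filter]
    by_contra hc'
    have h1 : a ≤ c.1 := by
      by_contra h'; exact hc' (Or.inl ⟨hc, by omega⟩)
    have h2 : b ≤ c.2 := by
      by_contra h'; exact hc' (Or.inr ⟨hc, by omega⟩)
    exact hcon (brb_lower lam (a := c) (b := (a, b)) h1 h2 (brb_mem_corners.1 hc).1)
  have h1 : ((corners lam).filter (fun c => c.1 < a)).card ≤ a := by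
    have := Finset.card_le_card_of_injOn (s := (corners lam).filter (fun c => c.1 < a))
      (t := Finset.range a) (fun c => c.1) (fun c hc => by
        rw [Finset.mem_coe, Finset.mem_filter] at hc
        rw [Finset.mem_coe, Finset.mem_range]; exact hc.2)
      (fun c hc d hd hcd => by
        rw [Finset.mem_coe, Finset.mem_filter] at hc hd
        exact brb_corner_row hc.1 hd.1 hcd)
    rwa [Finset.card_range] at this
  have h2 : ((corners lam).filter (fun c => c.2 < b)).card ≤ b := by
    have := Finset.card_le_card_of_injOn (s := (corners lam).filter (fun c => c.2 < b))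
      (t := Finset.range b) (fun c => c.2) (fun c hc => by
        rw [Finset.mem_coe, Finset.mem_filter] at hc
        rw [Finset.mem_coe, Finset.mem_range]; exact hc.2)
      (fun c hc d hd hcd => by
        rw [Finset.mem_coe, Finset.mem_filter] at hc hd
        exact brb_corner_col hc.1 hd.1 hcd)
    rwa [Finset.card_range] at this
  have h3 := (Finset.card_le_card hsub).trans (Finset.card_union_le _ _)
  unfold mcor at h
  omega

theorem mcor_mul_le {n : ℕ} (lam : Y n) : mcor lam.1 * (mcor lam.1 + 1) ≤ 2 * n := by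
  have hsub : (Finset.range (mcor lam.1)).biUnion (fun s : ℕ => Finset.HasAntidiagonal.antidiagonal s)
      ⊆ lam.1.cells := by
    intro c hc
    rw [Finset.mem_biUnion] at hc
    obtain ⟨s, hs, hc⟩ := hc
    rw [Finset.mem_range] at hs
    rw [Finset.HasAntidiagonal.mem_antidiagonal] at hc
    rw [YoungDiagram.mem_cells]
    exact brb_stair (a := c.1) (b := c.2) (by omega)
  have hcard := Finset.card_le_card hsub
  rw [Finset.card_biUnion] at hcard
  · simp only [Finset.Nat.card_antidiagonal] at hcard
    have h2 : lam.1.cells.card = n := lam.2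
    have h3 : ∀ m : ℕ, 2 * ∑ s ∈ Finset.range m, (s + 1) = m * (m + 1) := by
      intro m
      induction m with
      | zero => simp
      | succ m ih => rw [Finset.sum_range_succ, mul_add, ih]; ring
    have h4 := h3 (mcor lam.1)
    rw [h2] at hcard
    omega
  · intro x _ y _ hxy
    rw [Function.onFun, Finset.disjoint_left]
    intro c hc hc'
    rw [Finset.HasAntidiagonal.mem_antidiagonal] at hc hc'
    exact hxy (hc.symm.trans hc')

end Pool.MP322
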