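import Pool.Agent.Lib.MP_322c5f_al.OIrr

/-! job SQ-6: basic properties of normalized irreducible characters. -/

set_option autoImplicit false

open Equiv Finset Nat

namespace Pool.MP322

variable {n : ℕ}

theorem OIrr.dim_pos (V : OIrr n) : 0 < V.dim := by
  unfold OIrr.dim
  exact_mod_cast Fintype.card_pos

theorem OIrr.r_one (V : OIrr n) : V.r 1 = 1 := by
  unfold OIrr.r
  rw [map_one, Matrix.trace_one]
  exact div_self V.dim_pos.ne'

theorem OIrr.r_conj (V : OIrr n) (σ x : Perm (Fin n)) : V.r (x * σ * x⁻¹) = V.r σ := by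
  unfold OIrr.r
  congr 1
  rw [map_mul, map_mul, Matrix.trace_mul_comm, ← mul_assoc, ← map_mul, inv_mul_cancel, map_one,
    one_mul]

theorem OIrr.r_inv (V : OIrr n) (σ : Perm (Fin n)) : V.r σ⁻¹ = V.r σ := by
  unfold OIrr.r
  rw [← V.orth, Matrix.trace_transpose]

theorem OIrr.abs_r_le (V : OIrr n) (σ : Perm (Fin n)) : |V.r σ| ≤ 1 := by
  have hM : V.ρ σ * (V.ρ σ).transpose = 1 := by
    rw [V.orth, ← map_mul, mul_inv_cancel, map_one]
  have hd : ∀ i, |V.ρ σ i i| ≤ 1 := by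
    intro i
    have h1 : ∑ j, V.ρ σ i j * V.ρ σ i j = 1 := by
      have := congrFun (congrFun hM i) i
      rw [Matrix.mul_apply, Matrix.one_apply_eq] at this
      simpa [Matrix.transpose_apply] using this
    have h2 : V.ρ σ i i * V.ρ σ i i ≤ ∑ j, V.ρ σ i j * V.ρ σ i j :=
      Finset.single_le_sum (f := fun j => V.ρ σ i j * V.ρ σ i j)
        (fun j _ => mul_self_nonneg _) (Finset.mem_univ i)
    rw [h1] at h2
    rw [abs_le]
    constructor <;> nlinarith
  unfold OIrr.r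
  rw [abs_div, abs_of_pos V.dim_pos, div_le_one V.dim_pos]
  unfold Matrix.trace OIrr.dim
  calc |∑ i, (V.ρ σ).diag i| ≤ ∑ i, |(V.ρ σ).diag i| := Finset.abs_sum_le_sum_abs _ _
    _ ≤ ∑ _i : V.ι, (1 : ℝ) := Finset.sum_le_sum fun i _ => hd i
    _ = _ := by simp

theorem OIrr.r_type (V : OIrr n) (σ τ : Perm (Fin n)) (h : σ.cycleType = τ.cycleType) :
    V.r σ = V.r τ := by
  obtain ⟨c, hc⟩ := isConj_iff.1 (Equiv.Perm.isConj_iff_cycleType_eq.2 h)
  rw [← hc, V.r_conj]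

/-- class sums act as scalars. -/
theorem OIrr.r_cent (V : OIrr n) (σ τ : Perm (Fin n)) :
    ∑ g : Perm (Fin n), V.r (σ * (g * τ * g⁻¹)) = (n ! : ℝ) * (V.r σ * V.r τ) := by
  have hcomm : ∀ x, (∑ g : Perm (Fin n), V.ρ (g * τ * g⁻¹)) * V.ρ x
      = V.ρ x * (∑ g : Perm (Fin n), V.ρ (g * τ * g⁻¹)) := by
    intro x
    rw [Finset.sum_mul, Finset.mul_sum]
    rw [← Equiv.sum_comp (Equiv.mulLeft x) (fun g => V.ρ (g * τ * g⁻¹) * V.ρ x)]
    apply Finset.sum_congr rfl
    intro g _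
    rw [← map_mul, ← map_mul]
    congr 1
    simp only [Equiv.coe_mulLeft]
    group
  obtain ⟨c, hc⟩ := V.schur _ hcomm
  have htr := congrArg Matrix.trace hc
  rw [Matrix.trace_sum, Matrix.trace_smul, Matrix.trace_one] at htr
  have h1 : ∀ g : Perm (Fin n), (V.ρ (g * τ * g⁻¹)).trace = V.r τ * V.dim := by
    intro g
    have := V.r_conj τ g
    rw [← this]
    unfold OIrr.r
    rw [div_mul_cancel₀ _ V.dim_pos.ne']
  simp_rw [h1] at htr
  rw [Finset.sum_const, Finset.card_univ, Fintype.card_perm, Fintype.card_fin, nsmul_eq_mul,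
    smul_eq_mul] at htr
  have hc2 : c = (n ! : ℝ) * V.r τ := by
    have hd := V.dim_pos.ne'
    have h2 : (n ! : ℝ) * (V.r τ * V.dim) = c * V.dim := htr
    apply mul_right_cancel₀ hd
    rw [← h2]
    ring
  have h3 : ∑ g : Perm (Fin n), V.r (σ * (g * τ * g⁻¹))
      = (V.ρ σ * ∑ g : Perm (Fin n), V.ρ (g * τ * g⁻¹)).trace / V.dim := by
    rw [Finset.mul_sum, Matrix.trace_sum, Finset.sum_div]
    apply Finset.sum_congr rfl
    intro g _
    unfold OIrr.r
    rw [map_mul V.ρ σ]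
  rw [h3, hc, mul_smul_comm, mul_one, Matrix.trace_smul, smul_eq_mul, hc2]
  unfold OIrr.r
  ring

end Pool.MP322
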