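import Pool.Agent.Lib.MP_322c5f_al.Schur
import Pool.Agent.Lib.MP_322c5f_al.OA

/-! The irreducible representation attached to a Young diagram, its character and dimension. -/

set_option autoImplicit false

open Equiv Finset Nat

namespace Pool.MP322

/-- the irreducible representation attached to `lam`. -/
noncomputable def irr {n : ℕ} (lam : Y n) : OIrr n where
  ι := Tab ⊥ lam.1 n
  ne := tab_nonempty lam
  ρ := rep ⊥ lam.1 n
  orth := rep_transpose ⊥ lam.1 n
  schur := schur_scalar lam

/-- the character. -/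
noncomputable def chi {n : ℕ} (lam : Y n) (σ : Perm (Fin n)) : ℝ := (rep ⊥ lam.1 n σ).trace

/-- the dimension. -/
noncomputable def fd {n : ℕ} (lam : Y n) : ℝ := (Fintype.card (Tab ⊥ lam.1 n) : ℝ)

theorem fd_pos {n : ℕ} (lam : Y n) : 0 < fd lam := by
  have : Nonempty (Tab ⊥ lam.1 n) := tab_nonempty lam
  unfold fd
  exact_mod_cast Fintype.card_pos

theorem irr_r {n : ℕ} (lam : Y n) (σ : Perm (Fin n)) : (irr lam).r σ = chi lam σ / fd lam := rfl

theorem chi_one {n : ℕ} (lam : Y n) : chi lam 1 = fd lam := by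
  unfold chi fd
  simp [Matrix.trace_one]

theorem chi_conj {n : ℕ} (lam : Y n) (σ x : Perm (Fin n)) : chi lam (x * σ * x⁻¹) = chi lam σ := by
  have h := (irr lam).r_conj σ x
  rw [irr_r, irr_r] at h
  exact (div_left_inj' (fd_pos lam).ne').1 h

theorem chi_inv {n : ℕ} (lam : Y n) (σ : Perm (Fin n)) : chi lam σ⁻¹ = chi lam σ := by
  have h := (irr lam).r_inv σ
  rw [irr_r, irr_r] at h
  exact (div_left_inj' (fd_pos lam).ne').1 h

theorem abs_chi_le {n : ℕ} (lam : Y n) (σ : Perm (Fin n)) : |chi lam σ| ≤ fd lam := by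
  have h := (irr lam).abs_r_le σ
  rw [irr_r, abs_div, abs_of_pos (fd_pos lam), div_le_one (fd_pos lam)] at h
  exact h

theorem chi_type {n : ℕ} (lam : Y n) (σ τ : Perm (Fin n)) (h : σ.cycleType = τ.cycleType) :
    chi lam σ = chi lam τ := by
  have h := (irr lam).r_type σ τ h
  rw [irr_r, irr_r] at h
  exact (div_left_inj' (fd_pos lam).ne').1 h

open Classical in
/-- the character as a function of the cycle type (zero if the type does not occur). -/
noncomputable def ty {k : ℕ} (nu : Y k) (τ : Multiset ℕ) : ℝ :=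
  if h : ∃ π : Perm (Fin k), π.cycleType = τ then chi nu h.choose else 0

theorem ty_cycleType {k : ℕ} (nu : Y k) (π : Perm (Fin k)) : ty nu π.cycleType = chi nu π := by
  unfold ty
  have h : ∃ π' : Perm (Fin k), π'.cycleType = π.cycleType := ⟨π, rfl⟩
  rw [dif_pos h]
  exact chi_type nu _ _ h.choose_spec

theorem abs_ty_le {k : ℕ} (nu : Y k) (τ : Multiset ℕ) : |ty nu τ| ≤ fd nu := by
  unfold ty
  split_ifs with h
  · exact abs_chi_le nu _
  · simpa using (fd_pos nu).le

theorem ty_zero {k : ℕ} (nu : Y k) : ty nu 0 = fd nu := by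
  have h := ty_cycleType nu (1 : Perm (Fin k))
  rw [Perm.cycleType_one, chi_one] at h
  exact h

end Pool.MP322
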