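import Pool.Agent.Lib.MP_322c5f_al.BranchA
import Pool.Agent.Lib.MP_322c5f_al.BranchB
import Pool.Agent.Lib.MP_322c5f_al.Irr

/-! job SQ-15: the sum of the squares of the dimensions is `n!`. -/

set_option autoImplicit false

open Equiv Finset Nat

namespace Pool.MP322

open Classical in
theorem fd_succ {n : ℕ} (lam : Y (n + 1)) :
    fd lam = ∑ rho ∈ (Finset.univ : Finset (Y n)).filter (fun rho => rho.1 ≤ lam.1), fd rho := by
  unfold fd
  rw [card_tab_succ]
  push_cast
  rfl

private theorem bc_sup_card {n : ℕ} {a b : Y n} (h : a ≠ b) : n + 1 ≤ (a.1 ⊔ b.1).card := by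
  by_contra hcon
  have hc : (a.1 ⊔ b.1).cells.card ≤ n := by
    have : (a.1 ⊔ b.1).card = (a.1 ⊔ b.1).cells.card := rfl
    omega
  rw [YoungDiagram.cells_sup] at hc
  have ha : a.1.cells = a.1.cells ∪ b.1.cells := by
    apply Finset.eq_of_subset_of_card_le Finset.subset_union_left
    have : a.1.cells.card = n := a.2
    omega
  have hb : b.1.cells = a.1.cells ∪ b.1.cells := by
    apply Finset.eq_of_subset_of_card_le Finset.subset_union_right
    have : b.1.cells.card = n := b.2
    omega
  apply h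
  apply Subtype.ext
  apply YoungDiagram.ext
  rw [ha]
  exact hb.symm

private theorem bc_card_add (a b : YoungDiagram) : (a ⊔ b).card + (a ⊓ b).card = a.card + b.card := by
  show (a ⊔ b).cells.card + (a ⊓ b).cells.card = a.cells.card + b.cells.card
  rw [YoungDiagram.cells_sup, YoungDiagram.cells_inf]
  exact Finset.card_union_add_card_inter _ _

private theorem bc_eq_of_le {a b : YoungDiagram} (h : a ≤ b) (hc : b.card ≤ a.card) : a = b := by
  apply YoungDiagram.ext
  exact Finset.eq_of_subset_of_card_le (YoungDiagram.cells_subset_iff.2 h) hc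

private theorem bc_card_mono {a b : YoungDiagram} (h : a ≤ b) : a.card ≤ b.card :=
  Finset.card_le_card (YoungDiagram.cells_subset_iff.2 h)

open Classical in
private theorem bc_up_count {n : ℕ} {a b : Y n} (h : a ≠ b) :
    ((Finset.univ : Finset (Y (n + 1))).filter (fun lam => a.1 ≤ lam.1 ∧ b.1 ≤ lam.1)).card =
      if (a.1 ⊔ b.1).card = n + 1 then 1 else 0 := by
  split_ifs with hc
  · rw [Finset.card_eq_one]
    obtain ⟨s, hs⟩ : ∃ s : Y (n + 1), s.1 = a.1 ⊔ b.1 := ⟨⟨a.1 ⊔ b.1, hc⟩, rfl⟩
    refine ⟨s, ?_⟩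
    ext lam
    rw [Finset.mem_filter, Finset.mem_singleton]
    constructor
    · rintro ⟨-, h1, h2⟩
      apply Subtype.ext
      rw [hs]
      exact (bc_eq_of_le (sup_le h1 h2) (by rw [lam.2, hc])).symm
    · rintro rfl
      rw [hs]
      exact ⟨Finset.mem_univ _, le_sup_left, le_sup_right⟩
  · rw [Finset.card_eq_zero, Finset.filter_eq_empty_iff]
    rintro lam - ⟨h1, h2⟩
    apply hc
    have h3 := bc_card_mono (sup_le h1 h2)
    rw [lam.2] at h3
    have h4 := bc_sup_card h
    omega

open Classical in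
private theorem bc_down_count {n : ℕ} {a b : Y (n + 1)} (h : a ≠ b) :
    ((Finset.univ : Finset (Y n)).filter (fun tau => tau.1 ≤ a.1 ∧ tau.1 ≤ b.1)).card =
      if (a.1 ⊓ b.1).card = n then 1 else 0 := by
  split_ifs with hc
  · rw [Finset.card_eq_one]
    obtain ⟨s, hs⟩ : ∃ s : Y n, s.1 = a.1 ⊓ b.1 := ⟨⟨a.1 ⊓ b.1, hc⟩, rfl⟩
    refine ⟨s, ?_⟩
    ext tau
    rw [Finset.mem_filter, Finset.mem_singleton]
    constructor
    · rintro ⟨-, h1, h2⟩
      apply Subtype.ext
      rw [hs]
      exact bc_eq_of_le (le_inf h1 h2) (by rw [tau.2, hc])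
    · rintro rfl
      rw [hs]
      exact ⟨Finset.mem_univ _, inf_le_left, inf_le_right⟩
  · rw [Finset.card_eq_zero, Finset.filter_eq_empty_iff]
    rintro tau - ⟨h1, h2⟩
    apply hc
    have h3 := bc_card_mono (le_inf h1 h2)
    rw [tau.2] at h3
    have h4 := bc_sup_card h
    have h5 := bc_card_add a.1 b.1
    rw [a.2, b.2] at h5
    omega

open Classical in
private theorem bc_count_eq {n : ℕ} {a b : Y (n + 1)} (h : a ≠ b) :
    ((Finset.univ : Finset (Y (n + 1 + 1))).filter
      (fun lam => a.1 ≤ lam.1 ∧ b.1 ≤ lam.1)).card =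
    ((Finset.univ : Finset (Y n)).filter (fun tau => tau.1 ≤ a.1 ∧ tau.1 ≤ b.1)).card := by
  rw [bc_up_count h, bc_down_count h]
  have h5 := bc_card_add a.1 b.1
  rw [a.2, b.2] at h5
  by_cases hc : (a.1 ⊔ b.1).card = n + 1 + 1
  · rw [if_pos hc, if_pos (by omega)]
  · rw [if_neg hc, if_neg (by omega)]

open Classical in
/-- double counting upwards -/
private theorem bc_up_expand {n : ℕ} (rho : Y n) :
    ∑ lam ∈ (Finset.univ : Finset (Y (n + 1))).filter (fun lam => rho.1 ≤ lam.1), fd lam =
      ∑ rho' : Y n, (((Finset.univ : Finset (Y (n + 1))).filter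
        (fun lam => rho.1 ≤ lam.1 ∧ rho'.1 ≤ lam.1)).card : ℝ) * fd rho' := by
  have h1 : ∀ lam : Y (n + 1), fd lam = ∑ rho' : Y n, if rho'.1 ≤ lam.1 then fd rho' else 0 := by
    intro lam
    rw [fd_succ, Finset.sum_filter]
  rw [Finset.sum_congr rfl (fun lam _ => h1 lam), Finset.sum_comm]
  apply Finset.sum_congr rfl
  intro rho' _
  rw [← Finset.sum_filter, Finset.sum_const, nsmul_eq_mul, Finset.filter_filter]

private theorem bc_Y0 (a b : Y 0) : a = b := by
  apply Subtype.ext
  apply YoungDiagram.ext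
  have ha : a.1.cells = ∅ := Finset.card_eq_zero.1 a.2
  have hb : b.1.cells = ∅ := Finset.card_eq_zero.1 b.2
  rw [ha, hb]

open Classical in
theorem up_sum {n : ℕ} (rho : Y n) :
    ∑ lam ∈ (Finset.univ : Finset (Y (n + 1))).filter (fun lam => rho.1 ≤ lam.1), fd lam =
      (n + 1) * fd rho := by
  induction n with
  | zero =>
    rw [bc_up_expand, Finset.sum_eq_single rho (fun b _ hb => absurd (bc_Y0 b rho) hb)
      (fun h => absurd (Finset.mem_univ _) h)]
    have h1 : mcor rho.1 = 0 := by
      unfold mcor corners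
      have hc : rho.1.cells = ∅ := Finset.card_eq_zero.1 rho.2
      rw [hc, Finset.filter_empty, Finset.card_empty]
    have h2 := card_up rho
    rw [h1] at h2
    simp only [and_self]
    rw [h2]
    push_cast
    ring
  | succ m ih =>
    rw [bc_up_expand]
    have h1 : ∑ rho' : Y (m + 1), (((Finset.univ : Finset (Y (m + 1 + 1))).filter
        (fun lam => rho.1 ≤ lam.1 ∧ rho'.1 ≤ lam.1)).card : ℝ) * fd rho' =
        fd rho + ∑ rho' : Y (m + 1), (((Finset.univ : Finset (Y m)).filter
        (fun tau => tau.1 ≤ rho.1 ∧ tau.1 ≤ rho'.1)).card : ℝ) * fd rho' := by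
      rw [← Finset.add_sum_erase _ _ (Finset.mem_univ rho),
        ← Finset.add_sum_erase (a := rho) _ (fun rho' : Y (m + 1) =>
          (((Finset.univ : Finset (Y m)).filter
          (fun tau => tau.1 ≤ rho.1 ∧ tau.1 ≤ rho'.1)).card : ℝ) * fd rho') (Finset.mem_univ rho)]
      have h2 : ∑ rho' ∈ (Finset.univ : Finset (Y (m + 1))).erase rho,
          (((Finset.univ : Finset (Y (m + 1 + 1))).filter
          (fun lam => rho.1 ≤ lam.1 ∧ rho'.1 ≤ lam.1)).card : ℝ) * fd rho' =
          ∑ rho' ∈ (Finset.univ : Finset (Y (m + 1))).erase rho,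
          (((Finset.univ : Finset (Y m)).filter
          (fun tau => tau.1 ≤ rho.1 ∧ tau.1 ≤ rho'.1)).card : ℝ) * fd rho' := by
        apply Finset.sum_congr rfl
        intro rho' hrho'
        rw [bc_count_eq (Finset.ne_of_mem_erase hrho').symm]
      rw [h2]
      have h3 := card_up rho
      have h4 := card_down rho
      simp only [and_self]
      rw [h3, h4]
      push_cast
      ring
    rw [h1]
    have h5 : ∑ rho' : Y (m + 1), (((Finset.univ : Finset (Y m)).filter
        (fun tau => tau.1 ≤ rho.1 ∧ tau.1 ≤ rho'.1)).card : ℝ) * fd rho' =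
        ∑ tau ∈ (Finset.univ : Finset (Y m)).filter (fun tau => tau.1 ≤ rho.1),
          ∑ rho' ∈ (Finset.univ : Finset (Y (m + 1))).filter (fun rho' => tau.1 ≤ rho'.1),
            fd rho' := by
      have h6 : ∀ tau : Y m, (∑ rho' ∈ (Finset.univ : Finset (Y (m + 1))).filter
          (fun rho' => tau.1 ≤ rho'.1), fd rho') =
          ∑ rho' : Y (m + 1), if tau.1 ≤ rho'.1 then fd rho' else 0 := by
        intro tau
        rw [Finset.sum_filter]
      rw [Finset.sum_congr rfl (fun tau _ => h6 tau), Finset.sum_comm]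
      apply Finset.sum_congr rfl
      intro rho' _
      rw [← Finset.sum_filter, Finset.sum_const, nsmul_eq_mul, Finset.filter_filter]
    rw [h5, Finset.sum_congr rfl (fun tau _ => ih tau), ← Finset.mul_sum, ← fd_succ]
    push_cast
    ring

theorem sum_sq (n : ℕ) : ∑ lam : Y n, fd lam ^ 2 = (n ! : ℝ) := by
  classical
  induction n with
  | zero =>
    have h0 : ∀ lam : Y 0, fd lam = 1 := by
      intro lam
      unfold fd
      have : Fintype.card (Tab ⊥ lam.1 0) = 1 := by
        rw [Fintype.card_eq_one_iff]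
        obtain ⟨x⟩ := tab_nonempty lam
        refine ⟨x, fun y => ?_⟩
        apply Subtype.ext
        funext i
        exact i.elim0
      rw [this]
      simp
    have h1 : Fintype.card (Y 0) = 1 := by
      rw [Fintype.card_eq_one_iff]
      exact ⟨⟨⊥, by simp [YoungDiagram.card]⟩, fun y => bc_Y0 _ _⟩
    rw [Finset.sum_congr rfl (fun lam _ => by rw [h0 lam])]
    rw [Finset.sum_const, Finset.card_univ, h1]
    simp
  | succ m ih =>
    have h1 : ∀ lam : Y (m + 1), fd lam ^ 2 =
        ∑ rho : Y m, if rho.1 ≤ lam.1 then fd rho * fd lam else 0 := by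
      intro lam
      rw [← Finset.sum_filter, ← Finset.sum_mul, ← fd_succ, sq]
    rw [Finset.sum_congr rfl (fun lam _ => h1 lam), Finset.sum_comm]
    have h2 : ∀ rho : Y m, (∑ lam : Y (m + 1), if rho.1 ≤ lam.1 then fd rho * fd lam else 0) =
        (m + 1) * fd rho ^ 2 := by
      intro rho
      rw [← Finset.sum_filter, ← Finset.mul_sum, up_sum]
      ring
    rw [Finset.sum_congr rfl (fun rho _ => h2 rho), ← Finset.mul_sum, ih, Nat.factorial_succ]
    push_cast
    ring

end Pool.MP322
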