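import Pool.Agent.Lib.MP_322c5f_al.Orth

/-! job SQ-19: regular character and column orthogonality. -/

set_option autoImplicit false

open Equiv Finset Nat

namespace Pool.MP322

open Classical in
theorem reg_char {n : ℕ} (σ : Perm (Fin n)) :
    ∑ lam : Y n, fd lam * chi lam σ = if σ = 1 then (n ! : ℝ) else 0 := by
  have hF : (fun σ : Perm (Fin n) => ∑ lam : Y n, fd lam * chi lam σ -
      (if σ = 1 then (n ! : ℝ) else 0)) = 0 := by
    apply coeff_complete
    intro mu a b
    have h1 : ∀ lam : Y n, ∑ σ : Perm (Fin n), (fd lam * chi lam σ) * rep ⊥ mu.1 n σ a b =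
        fd lam * ∑ c, ∑ σ : Perm (Fin n), rep ⊥ lam.1 n σ c c * rep ⊥ mu.1 n σ a b := by
      intro lam
      rw [Finset.sum_comm, Finset.mul_sum]
      refine Finset.sum_congr rfl fun σ _ => ?_
      rw [← Finset.sum_mul, mul_assoc]
      rfl
    have h2 : ∑ σ : Perm (Fin n), (∑ lam : Y n, fd lam * chi lam σ) * rep ⊥ mu.1 n σ a b =
        if a = b then (n ! : ℝ) else 0 := by
      have h3 : ∑ σ : Perm (Fin n), (∑ lam : Y n, fd lam * chi lam σ) * rep ⊥ mu.1 n σ a b =
          ∑ lam : Y n, ∑ σ : Perm (Fin n), (fd lam * chi lam σ) * rep ⊥ mu.1 n σ a b := by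
        rw [Finset.sum_comm]
        refine Finset.sum_congr rfl fun σ _ => ?_
        rw [Finset.sum_mul]
      rw [h3, Finset.sum_eq_single mu]
      · rw [h1]
        have h4 : ∀ c, ∑ σ : Perm (Fin n), rep ⊥ mu.1 n σ c c * rep ⊥ mu.1 n σ a b =
            if c = a ∧ c = b then (n ! : ℝ) / fd mu else 0 := fun c => schur_orth_same mu c c a b
        rw [Finset.sum_congr rfl fun c _ => h4 c]
        by_cases hab : a = b
        · subst hab
          rw [if_pos rfl]
          have h5 : ∀ c : Tab ⊥ mu.1 n, (if c = a ∧ c = a then (n ! : ℝ) / fd mu else 0) =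
              if c = a then (n ! : ℝ) / fd mu else 0 := by
            intro c
            simp only [and_self]
          rw [Finset.sum_congr rfl fun c _ => h5 c, Finset.sum_ite_eq' Finset.univ a,
            if_pos (Finset.mem_univ _)]
          have := (fd_pos mu).ne'
          field_simp
        · rw [if_neg hab, Finset.sum_eq_zero, mul_zero]
          intro c _
          rw [if_neg]
          rintro ⟨h, h'⟩
          exact hab (h.symm.trans h')
      · intro lam _ hne
        rw [h1, Finset.sum_eq_zero, mul_zero]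
        intro c _
        exact schur_orth_ne lam mu hne c c a b
      · intro h
        exact absurd (Finset.mem_univ _) h
    have h6 : ∑ σ : Perm (Fin n), (if σ = 1 then (n ! : ℝ) else 0) * rep ⊥ mu.1 n σ a b =
        if a = b then (n ! : ℝ) else 0 := by
      have h7 : ∀ σ : Perm (Fin n), (if σ = 1 then (n ! : ℝ) else 0) * rep ⊥ mu.1 n σ a b =
          if σ = 1 then (n ! : ℝ) * rep ⊥ mu.1 n σ a b else 0 := by
        intro σ
        split_ifs <;> simp
      rw [Finset.sum_congr rfl fun σ _ => h7 σ, Finset.sum_ite_eq' Finset.univ 1,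
        if_pos (Finset.mem_univ _), map_one, Matrix.one_apply]
      split_ifs <;> simp
    have h8 : ∀ σ : Perm (Fin n), (∑ lam : Y n, fd lam * chi lam σ -
        (if σ = 1 then (n ! : ℝ) else 0)) * rep ⊥ mu.1 n σ a b =
        (∑ lam : Y n, fd lam * chi lam σ) * rep ⊥ mu.1 n σ a b -
          (if σ = 1 then (n ! : ℝ) else 0) * rep ⊥ mu.1 n σ a b := fun σ => sub_mul _ _ _
    rw [Finset.sum_congr rfl fun σ _ => h8 σ, Finset.sum_sub_distrib, h2, h6, sub_self]
  have := congrFun hF σ
  simp only [Pi.zero_apply] at this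
  exact sub_eq_zero.1 this

theorem chi_cent {n : ℕ} (lam : Y n) (σ τ : Perm (Fin n)) :
    ∑ g : Perm (Fin n), chi lam (σ * (g * τ * g⁻¹)) =
      (n ! : ℝ) * (chi lam σ * chi lam τ / fd lam) := by
  have h := (irr lam).r_cent σ τ
  simp only [irr_r] at h
  rw [← Finset.sum_div] at h
  have hf := (fd_pos lam).ne'
  field_simp at h ⊢
  linarith

open Classical in
theorem col_orth {n : ℕ} (g h : Perm (Fin n)) :
    ∑ lam : Y n, chi lam g * chi lam h =
      (((Finset.univ : Finset (Perm (Fin n))).filter (fun x => x * g * x⁻¹ = h)).card : ℝ) := by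
  have hN : (n ! : ℝ) ≠ 0 := by exact_mod_cast Nat.factorial_ne_zero n
  have h1 : ∀ lam : Y n, chi lam g * chi lam h =
      (1 / (n ! : ℝ)) * ∑ x : Perm (Fin n), fd lam * chi lam (h⁻¹ * (x * g * x⁻¹)) := by
    intro lam
    rw [← Finset.mul_sum, chi_cent, chi_inv]
    have hf := (fd_pos lam).ne'
    field_simp
  rw [Finset.sum_congr rfl fun lam _ => h1 lam, ← Finset.mul_sum, Finset.sum_comm]
  rw [Finset.sum_congr rfl fun x _ => reg_char (h⁻¹ * (x * g * x⁻¹))]
  have h2 : ∀ x : Perm (Fin n), (if h⁻¹ * (x * g * x⁻¹) = 1 then (n ! : ℝ) else 0) =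
      if x * g * x⁻¹ = h then (n ! : ℝ) else 0 := by
    intro x
    have : h⁻¹ * (x * g * x⁻¹) = 1 ↔ x * g * x⁻¹ = h := by
      rw [inv_mul_eq_one]
      exact eq_comm
    simp only [this]
  rw [Finset.sum_congr rfl fun x _ => h2 x, ← Finset.sum_filter, Finset.sum_const,
    nsmul_eq_mul]
  field_simp

open Classical in
/-- Plancherel average of the squared normalized character: `1 / #(class of σ)`. -/
theorem plancherel_sq {n : ℕ} (σ : Perm (Fin n)) :
    ∑ lam : Y n, fd lam ^ 2 * (chi lam σ / fd lam) ^ 2 =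
      (n ! : ℝ) / (((Finset.univ : Finset (Perm (Fin n))).filter
        (fun π => π.cycleType = σ.cycleType)).card : ℝ) := by
  have h1 : ∀ lam : Y n, fd lam ^ 2 * (chi lam σ / fd lam) ^ 2 = chi lam σ * chi lam σ := by
    intro lam
    have hf := (fd_pos lam).ne'
    field_simp
  rw [Finset.sum_congr rfl fun lam _ => h1 lam, col_orth]
  set C := (Finset.univ : Finset (Perm (Fin n))).filter (fun π => π.cycleType = σ.cycleType)
    with hC
  have hmaps : ∀ x ∈ (Finset.univ : Finset (Perm (Fin n))), x * σ * x⁻¹ ∈ C := by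
    intro x _
    rw [hC, Finset.mem_filter]
    exact ⟨Finset.mem_univ _, Perm.cycleType_conj⟩
  have h2 := Finset.card_eq_sum_card_fiberwise hmaps
  have h3 : ∀ π ∈ C, ((Finset.univ : Finset (Perm (Fin n))).filter
      (fun x => x * σ * x⁻¹ = π)).card =
      ((Finset.univ : Finset (Perm (Fin n))).filter (fun x => x * σ * x⁻¹ = σ)).card := by
    intro π hπ
    rw [hC, Finset.mem_filter] at hπ
    have hconj : IsConj σ π := (Perm.isConj_iff_cycleType_eq).2 hπ.2.symm
    obtain ⟨y, hy⟩ := isConj_iff.1 hconj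
    symm
    refine Finset.card_bij (fun x _ => y * x) ?_ ?_ ?_
    · intro x hx
      rw [Finset.mem_filter] at hx ⊢
      refine ⟨Finset.mem_univ _, ?_⟩
      rw [← hy]
      conv_rhs => rw [← hx.2]
      group
    · intro a _ b _ hab
      exact mul_left_cancel hab
    · intro x hx
      rw [Finset.mem_filter] at hx
      refine ⟨y⁻¹ * x, ?_, by group⟩
      rw [Finset.mem_filter]
      refine ⟨Finset.mem_univ _, ?_⟩
      have h5 : y⁻¹ * x * σ * (y⁻¹ * x)⁻¹ = y⁻¹ * (x * σ * x⁻¹) * y := by group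
      rw [h5, hx.2, ← hy]
      group
  rw [Finset.sum_congr rfl h3, Finset.sum_const, smul_eq_mul, Finset.card_univ,
    Fintype.card_perm, Fintype.card_fin] at h2
  have hCpos : (0 : ℝ) < (C.card : ℝ) := by
    have : 0 < C.card := Finset.card_pos.2 ⟨σ, by rw [hC, Finset.mem_filter]; simp⟩
    exact_mod_cast this
  rw [eq_div_iff hCpos.ne', h2]
  push_cast
  ring

end Pool.MP322
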