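import Pool.Agent.Lib.MP_322c5f_al.Irr

/-! job SQ-20: transposing the diagram = tensoring with the sign. -/

set_option autoImplicit false

open Equiv Finset Nat

namespace Pool.MP322

theorem cj_isTab {lam : YoungDiagram} {n : ℕ} {x : Fin n → ℕ × ℕ}
    (hx : IsTab ⊥ lam n x) : IsTab ⊥ lam.transpose n (fun i => (x i).swap) := by
  obtain ⟨h1, h2, h3, h4⟩ := hx
  refine ⟨fun i j hij => h1 (Prod.swap_injective hij), fun i => YoungDiagram.notMem_bot _, ?_, ?_⟩
  · intro c
    rw [YoungDiagram.mem_transpose, h3]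
    constructor
    · rintro (hc | ⟨i, hi⟩)
      · exact absurd hc (YoungDiagram.notMem_bot _)
      · right
        refine ⟨i, ?_⟩
        change (x i).swap = c
        rw [hi, Prod.swap_swap]
    · rintro (hc | ⟨i, hi⟩)
      · exact absurd hc (YoungDiagram.notMem_bot _)
      · right
        refine ⟨i, ?_⟩
        rw [← hi]
        exact (Prod.swap_swap _).symm
  · intro i c hc
    have hc' : c.swap ≤ x i := ⟨hc.2, hc.1⟩
    rcases h4 i _ hc' with h | ⟨j, hj, hxj⟩
    · exact absurd h (YoungDiagram.notMem_bot _)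
    · right
      refine ⟨j, hj, ?_⟩
      change (x j).swap = c
      rw [hxj, Prod.swap_swap]

/-- the transposed filling. -/
def cjT {lam : YoungDiagram} {n : ℕ} (x : Tab ⊥ lam n) : Tab ⊥ lam.transpose n :=
  ⟨fun i => (x.1 i).swap, cj_isTab x.2⟩

theorem cjT_inj {lam : YoungDiagram} {n : ℕ} {x y : Tab ⊥ lam n} (h : cjT x = cjT y) :
    x = y := by
  apply Subtype.ext
  funext i
  exact Prod.swap_injective (congrFun (congrArg Subtype.val h) i)

theorem cjT_surj {lam : YoungDiagram} {n : ℕ} (y : Tab ⊥ lam.transpose n) :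
    ∃ x : Tab ⊥ lam n, cjT x = y := by
  have h := cj_isTab y.2
  rw [YoungDiagram.transpose_transpose] at h
  refine ⟨⟨_, h⟩, ?_⟩
  apply Subtype.ext
  funext i
  exact Prod.swap_swap _

noncomputable def cjE {lam : YoungDiagram} {n : ℕ} :
    Tab ⊥ lam n ≃ Tab ⊥ lam.transpose n :=
  Equiv.ofBijective cjT ⟨fun _ _ h => cjT_inj h, cjT_surj⟩

/-- a tableau as a bijection with the cells. -/
noncomputable def cjB {lam : YoungDiagram} {n : ℕ} (x : Tab ⊥ lam n) :
    Fin n ≃ {c // c ∈ lam} :=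
  Equiv.ofBijective (fun i => ⟨x.1 i, (x.2.2.2.1 _).2 (Or.inr ⟨i, rfl⟩)⟩) (by
    constructor
    · intro i j hij
      exact x.2.1 (congrArg Subtype.val hij)
    · rintro ⟨c, hc⟩
      rcases (x.2.2.2.1 c).1 hc with h | ⟨i, hi⟩
      · exact absurd h (YoungDiagram.notMem_bot _)
      · exact ⟨i, Subtype.ext hi⟩)

theorem cjB_apply {lam : YoungDiagram} {n : ℕ} (x : Tab ⊥ lam n) (i : Fin n) :
    (cjB x i).1 = x.1 i := rfl

/-- the sign of a tableau relative to a reference tableau. -/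
noncomputable def cjS {lam : YoungDiagram} {n : ℕ} (x0 x : Tab ⊥ lam n) : ℝ :=
  ((Perm.sign ((cjB x).trans (cjB x0).symm) : ℤ) : ℝ)

theorem cjS_sq {lam : YoungDiagram} {n : ℕ} (x0 x : Tab ⊥ lam n) :
    cjS x0 x * cjS x0 x = 1 := by
  unfold cjS
  rcases Int.units_eq_one_or (Perm.sign ((cjB x).trans (cjB x0).symm)) with h | h <;>
    rw [h] <;> simp

theorem cj_sign_sw {n : ℕ} (i : ℕ) (h : i + 1 < n) :
    Perm.sign (sw i h : Perm (Fin n)) = -1 := by
  unfold sw
  apply Perm.sign_swap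
  intro hc
  have := Fin.mk.inj_iff.mp hc
  omega

theorem cjS_sw {lam : YoungDiagram} {n : ℕ} (x0 x y : Tab ⊥ lam n) (i : ℕ)
    (h : i + 1 < n) (hy : y.1 = x.1 ∘ sw i h) : cjS x0 y = - cjS x0 x := by
  have e : (cjB y).trans (cjB x0).symm = ((cjB x).trans (cjB x0).symm) * sw i h := by
    ext j
    have e1 : cjB y j = cjB x (sw i h j) := by
      apply Subtype.ext
      rw [cjB_apply, cjB_apply, hy]
      rfl
    rw [Perm.mul_apply, Equiv.trans_apply, Equiv.trans_apply, e1]
  unfold cjS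
  rw [e, Perm.sign_mul, cj_sign_sw]
  simp

theorem cj_yd {lam : YoungDiagram} {n : ℕ} (x : Tab ⊥ lam n) (i : ℕ)
    (h : i + 1 < n) : yd (cjT x).1 i h = - yd x.1 i h := by
  have hct : ∀ c : ℕ × ℕ, ct c.swap = - ct c := by
    intro c
    unfold ct
    simp
  unfold yd cjT
  simp only
  rw [hct, hct]
  have : ((-ct (x.1 ⟨i + 1, h⟩) - -ct (x.1 ⟨i, by omega⟩) : ℤ) : ℝ) =
      - ((ct (x.1 ⟨i + 1, h⟩) - ct (x.1 ⟨i, by omega⟩) : ℤ) : ℝ) := by
    push_cast
    ring
  rw [this, div_neg]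

theorem cj_yM {lam : YoungDiagram} {n : ℕ} (x0 x z : Tab ⊥ lam n) (i : ℕ)
    (h : i + 1 < n) : yM ⊥ lam.transpose n i h (cjT x) (cjT z) =
      - (cjS x0 x * cjS x0 z * yM ⊥ lam n i h x z) := by
  by_cases hzx : z = x
  · subst hzx
    rw [YMBaux.yM_diag, YMBaux.yM_diag, cj_yd, cjS_sq, one_mul]
  · have hT : cjT z ≠ cjT x := fun hc => hzx (cjT_inj hc)
    by_cases hz : z.1 = x.1 ∘ sw i h
    · have hTz : (cjT z).1 = (cjT x).1 ∘ sw i h := by
        funext j
        change (z.1 j).swap = (x.1 (sw i h j)).swap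
        rw [hz]
        rfl
      rw [YMBaux.yM_off i h _ _ hT hTz, YMBaux.yM_off i h _ _ hzx hz, cj_yd, cjS_sw x0 x z i h hz,
        neg_sq]
      have := cjS_sq x0 x
      linear_combination (- Real.sqrt (1 - yd x.1 i h ^ 2)) * this
    · have hTz : (cjT z).1 ≠ (cjT x).1 ∘ sw i h := by
        intro hc
        apply hz
        funext j
        have := congrFun hc j
        exact Prod.swap_injective this
      rw [YMBaux.yM_zero i h _ _ hT hTz, YMBaux.yM_zero i h _ _ hzx hz]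
      simp

theorem cj_one (α β : YoungDiagram) (k : ℕ) (x y : Tab α β k) :
    rep α β k 1 x y = if x = y then 1 else 0 := by
  have e : rep α β k 1 = 1 := map_one _
  exact (congrFun (congrFun e x) y).trans Matrix.one_apply

theorem cj_mul (α β : YoungDiagram) (k i : ℕ) (h : i + 1 < k) (σ : Perm (Fin k))
    (x y : Tab α β k) :
    rep α β k (sw i h * σ) x y = ∑ z, yM α β k i h x z * rep α β k σ z y := by
  have e : rep α β k (sw i h * σ) = yM α β k i h * rep α β k σ := by rw [map_mul, rep_sw]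
  exact (congrFun (congrFun e x) y).trans Matrix.mul_apply

theorem cj_rep {lam : YoungDiagram} {n : ℕ} (x0 : Tab ⊥ lam n) (σ : Perm (Fin n)) :
    ∀ x y : Tab ⊥ lam n, rep ⊥ lam.transpose n σ (cjT x) (cjT y) =
      ((Perm.sign σ : ℤ) : ℝ) * (cjS x0 x * cjS x0 y * rep ⊥ lam n σ x y) := by
  induction σ using perm_induction with
  | one =>
    intro x y
    refine (cj_one _ _ _ _ _).trans ?_
    have e := cj_one ⊥ lam n x y
    by_cases hxy : x = y
    · subst hxy
      rw [if_pos rfl] at e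
      rw [if_pos rfl, e, cjS_sq]
      simp
    · have : cjT x ≠ cjT y := fun hc => hxy (cjT_inj hc)
      rw [if_neg hxy] at e
      rw [if_neg this, e]
      simp
  | mul i h σ ih =>
    intro x y
    refine (cj_mul _ _ _ _ _ _ _ _).trans ?_
    have e := cj_mul ⊥ lam n i h σ x y
    rw [e, ← Equiv.sum_comp cjE, Perm.sign_mul, cj_sign_sw, Finset.mul_sum, Finset.mul_sum]
    apply Finset.sum_congr rfl
    intro z _
    change yM ⊥ lam.transpose n i h (cjT x) (cjT z) * rep ⊥ lam.transpose n σ (cjT z) (cjT y) = _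
    rw [cj_yM x0, ih]
    have := cjS_sq x0 z
    push_cast
    linear_combination (- (cjS x0 x) * yM ⊥ lam n i h x z * ((Perm.sign σ : ℤ) : ℝ) *
      cjS x0 y * rep ⊥ lam n σ z y) * this

theorem fd_tr {n : ℕ} (lam : Y n) : fd lam.tr = fd lam := by
  unfold fd
  congr 1
  exact (Fintype.card_congr (cjE (lam := lam.1) (n := n))).symm

theorem chi_tr {n : ℕ} (lam : Y n) (σ : Perm (Fin n)) :
    chi lam.tr σ = ((Perm.sign σ : ℤ) : ℝ) * chi lam σ := by
  obtain ⟨x0⟩ := tab_nonempty lam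
  unfold chi Matrix.trace
  rw [Finset.mul_sum]
  change ∑ y : Tab ⊥ lam.1.transpose n, (rep ⊥ lam.1.transpose n σ).diag y = _
  rw [← Equiv.sum_comp cjE]
  apply Finset.sum_congr rfl
  intro x _
  change rep ⊥ lam.1.transpose n σ (cjT x) (cjT x) = _ * rep ⊥ lam.1 n σ x x
  rw [cj_rep x0, cjS_sq, one_mul]

end Pool.MP322
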