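import Pool.Agent.Lib.MP_322c5f_al.Conj

/-! job SQ-41: on even permutations, `lam` and its transpose give isomorphic representations. -/

set_option autoImplicit false

open Equiv Finset

namespace Pool.MP322

/-- the signed permutation matrix `x ↦ x^T`. -/
noncomputable def cjU {lam : YoungDiagram} {n : ℕ} (x0 : Tab ⊥ lam n) :
    Matrix (Tab ⊥ lam.transpose n) (Tab ⊥ lam n) ℝ :=
  fun z y => if z = cjT y then cjS x0 y else 0

theorem cjU_apply {lam : YoungDiagram} {n : ℕ} (x0 x y : Tab ⊥ lam n) :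
    cjU x0 (cjT x) y = if x = y then cjS x0 y else 0 := by
  unfold cjU
  by_cases h : x = y
  · rw [if_pos h, if_pos (by rw [h])]
  · rw [if_neg h, if_neg (fun hc => h (cjT_inj hc))]

theorem cjU_tmul {lam : YoungDiagram} {n : ℕ} (x0 : Tab ⊥ lam n) :
    (cjU x0).transpose * cjU x0 = 1 := by
  ext y y'
  rw [Matrix.mul_apply, ← Equiv.sum_comp cjE, Matrix.one_apply]
  have h1 : ∀ x : Tab ⊥ lam n, (cjU x0).transpose y (cjE x) * cjU x0 (cjE x) y' =
      (if x = y then (if y = y' then 1 else 0) else 0) := by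
    intro x
    change cjU x0 (cjT x) y * cjU x0 (cjT x) y' = _
    rw [cjU_apply, cjU_apply]
    by_cases h : x = y
    · rw [if_pos h, if_pos h]
      by_cases h' : y = y'
      · rw [if_pos h', if_pos (h.trans h'), ← h', cjS_sq]
      · rw [if_neg h', if_neg (fun hc => h' (h.symm.trans hc)), mul_zero]
    · rw [if_neg h, if_neg h, zero_mul]
  rw [Finset.sum_congr rfl (fun x _ => h1 x), Finset.sum_ite_eq', if_pos (Finset.mem_univ _)]

theorem cjU_rep {lam : YoungDiagram} {n : ℕ} (x0 : Tab ⊥ lam n) (σ : Perm (Fin n))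
    (hσ : Perm.sign σ = 1) :
    rep ⊥ lam.transpose n σ * cjU x0 = cjU x0 * rep ⊥ lam n σ := by
  ext z y
  obtain ⟨x, rfl⟩ := cjT_surj z
  rw [Matrix.mul_apply, Matrix.mul_apply, ← Equiv.sum_comp cjE]
  have h1 : ∀ w : Tab ⊥ lam n, rep ⊥ lam.transpose n σ (cjT x) (cjE w) * cjU x0 (cjE w) y =
      (if w = y then cjS x0 x * rep ⊥ lam n σ x y else 0) := by
    intro w
    change rep ⊥ lam.transpose n σ (cjT x) (cjT w) * cjU x0 (cjT w) y = _
    rw [cjU_apply, cj_rep x0, hσ]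
    by_cases h : w = y
    · rw [if_pos h, if_pos h, h]
      have := cjS_sq x0 y
      push_cast
      linear_combination (cjS x0 x * rep ⊥ lam n σ x y) * this
    · rw [if_neg h, if_neg h, mul_zero]
  have h2 : ∀ w : Tab ⊥ lam n, cjU x0 (cjT x) w * rep ⊥ lam n σ w y =
      (if x = w then cjS x0 x * rep ⊥ lam n σ x y else 0) := by
    intro w
    rw [cjU_apply]
    by_cases h : x = w
    · rw [if_pos h, if_pos h, h]
    · rw [if_neg h, if_neg h, zero_mul]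
  rw [Finset.sum_congr rfl (fun x _ => h1 x), Finset.sum_congr rfl (fun x _ => h2 x),
    Finset.sum_ite_eq', Finset.sum_ite_eq, if_pos (Finset.mem_univ _), if_pos (Finset.mem_univ _)]

theorem exists_altIso {n : ℕ} (lam : Y n) :
    ∃ U : Matrix (Tab ⊥ lam.tr.1 n) (Tab ⊥ lam.1 n) ℝ,
      U.transpose * U = 1 ∧ U * U.transpose = 1 ∧
      ∀ σ : Perm (Fin n), Perm.sign σ = 1 →
        rep ⊥ lam.tr.1 n σ * U = U * rep ⊥ lam.1 n σ := by
  obtain ⟨x0⟩ := tab_nonempty lam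
  exact ⟨cjU x0, cjU_tmul x0,
    (Matrix.mul_eq_one_comm_of_equiv (cjE (lam := lam.1) (n := n))).1 (cjU_tmul x0),
    fun σ hσ => cjU_rep x0 σ hσ⟩

theorem alt_transfer {n : ℕ} (mu : Y n) {ι : Type*} [Fintype ι] [DecidableEq ι]
    (W : Perm (Fin n) →* Matrix ι ι ℝ) (Φ : Matrix ι (Tab ⊥ mu.tr.1 n) ℝ) (h0 : Φ ≠ 0)
    (h : ∀ σ, Perm.sign σ = 1 → W σ * Φ = Φ * rep ⊥ mu.tr.1 n σ) :
    ∃ Φ' : Matrix ι (Tab ⊥ mu.1 n) ℝ, Φ' ≠ 0 ∧
      ∀ σ, Perm.sign σ = 1 → W σ * Φ' = Φ' * rep ⊥ mu.1 n σ := by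
  obtain ⟨U, hU1, hU2, hU⟩ := exists_altIso mu
  refine ⟨Φ * U, ?_, ?_⟩
  · intro hc
    apply h0
    have : Φ * U * U.transpose = 0 := by rw [hc, Matrix.zero_mul]
    rwa [Matrix.mul_assoc, hU2, Matrix.mul_one] at this
  · intro σ hσ
    rw [← Matrix.mul_assoc, h σ hσ, Matrix.mul_assoc, hU σ hσ, Matrix.mul_assoc]

end Pool.MP322
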