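import Mathlib

/-! job SQ-27: dimension of the space of invariants of a finite group of matrices. -/

set_option autoImplicit false

namespace Pool.MP322

/-- invariants of a matrix representation. -/
def invSub {G κ : Type*} [Group G] [Fintype κ] [DecidableEq κ] (R : G →* Matrix κ κ ℝ) :
    Submodule ℝ (κ → ℝ) where
  carrier := {v | ∀ g, (R g).mulVec v = v}
  add_mem' := by
    intro a b ha hb g
    rw [Matrix.mulVec_add, ha g, hb g]
  zero_mem' := by
    intro g
    exact Matrix.mulVec_zero _
  smul_mem' := by
    intro c v hv g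
    rw [Matrix.mulVec_smul, hv g]

theorem inv_dim {G κ : Type*} [Group G] [Fintype G] [Fintype κ] [DecidableEq κ]
    (R : G →* Matrix κ κ ℝ) :
    (Module.finrank ℝ (invSub R) : ℝ) = (1 / (Fintype.card G : ℝ)) * ∑ g, (R g).trace := by
  have hG : (Fintype.card G : ℝ) ≠ 0 := by
    have : 0 < Fintype.card G := Fintype.card_pos
    positivity
  -- the averaging matrix
  set P : Matrix κ κ ℝ := (1 / (Fintype.card G : ℝ)) • ∑ g, R g with hP
  have hmul : ∀ h : G, R h * P = P := by
    intro h
    rw [hP, Matrix.mul_smul, Finset.mul_sum]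
    congr 1
    have : ∀ g, R h * R g = R (h * g) := fun g => (map_mul R h g).symm
    simp_rw [this]
    exact Fintype.sum_equiv (Equiv.mulLeft h) _ _ (fun g => rfl)
  have hproj : LinearMap.IsProj (invSub R) (Matrix.toLin' P) := by
    constructor
    · intro v g
      rw [Matrix.toLin'_apply, Matrix.mulVec_mulVec, hmul]
    · intro v hv
      have hv' : ∀ g, (R g).mulVec v = v := hv
      rw [Matrix.toLin'_apply, hP, Matrix.smul_mulVec, Matrix.sum_mulVec]
      simp_rw [hv']
      rw [Finset.sum_const, Finset.card_univ, ← Nat.cast_smul_eq_nsmul ℝ, smul_smul,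
        one_div_mul_cancel hG, one_smul]
  have htr := hproj.trace
  rw [Matrix.trace_toLin'_eq] at htr
  rw [← htr, hP, Matrix.trace_smul, Matrix.trace_sum, smul_eq_mul]

end Pool.MP322
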