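import Pool.Agent.Lib.MP_322c5f_al.K
import Pool.Agent.Lib.MP_322c5f_al.InvDim
import Pool.Agent.Lib.MP_322c5f_al.Irr

/-! job SQ-28: existence of a map satisfying `KCond` by a dimension count. -/

set_option autoImplicit false

open Equiv Finset Nat

namespace Pool.MP322

/-- permutations of the first `m+1` letters of `Fin (m + (k+1))`. -/
noncomputable def eL (m k : ℕ) : Perm (Fin (m + 1)) →* Perm (Fin (m + (k + 1))) :=
  Equiv.Perm.viaEmbeddingHom (Fin.castLEEmb (by omega))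

/-- permutations of the last `k` letters of `Fin (k+1)`. -/
noncomputable def up (k : ℕ) : Perm (Fin k) →* Perm (Fin (k + 1)) :=
  Equiv.Perm.viaEmbeddingHom (Fin.succEmb k)

section KerAux

open scoped Kronecker

private theorem kiL_cast (m k : ℕ) (σ : Perm (Fin m)) (j : Fin m) :
    iL m k σ (Fin.castAdd k j) = Fin.castAdd k (σ j) := by
  unfold iL
  rw [Equiv.Perm.viaEmbeddingHom_apply]
  exact Equiv.Perm.viaEmbedding_apply σ (Fin.castAddEmb k) j

private theorem kiL_nat (m k : ℕ) (σ : Perm (Fin m)) (j : Fin k) :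
    iL m k σ (Fin.natAdd m j) = Fin.natAdd m j := by
  unfold iL
  rw [Equiv.Perm.viaEmbeddingHom_apply]
  refine Equiv.Perm.viaEmbedding_apply_of_notMem σ (Fin.castAddEmb k) _ ?_
  rintro ⟨i, hi⟩
  have h := congrArg Fin.val hi
  simp at h
  omega

private theorem kiR_nat (m k : ℕ) (σ : Perm (Fin k)) (j : Fin k) :
    iR m k σ (Fin.natAdd m j) = Fin.natAdd m (σ j) := by
  unfold iR
  rw [Equiv.Perm.viaEmbeddingHom_apply]
  exact Equiv.Perm.viaEmbedding_apply σ (Fin.natAddEmb m) j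

private theorem kiR_cast (m k : ℕ) (σ : Perm (Fin k)) (j : Fin m) :
    iR m k σ (Fin.castAdd k j) = Fin.castAdd k j := by
  unfold iR
  rw [Equiv.Perm.viaEmbeddingHom_apply]
  refine Equiv.Perm.viaEmbedding_apply_of_notMem σ (Fin.natAddEmb m) _ ?_
  rintro ⟨i, hi⟩
  have h := congrArg Fin.val hi
  simp at h
  omega

private theorem keL_lt (m k : ℕ) (σ : Perm (Fin (m + 1))) (j : Fin (m + 1)) :
    eL m k σ (Fin.castLE (by omega) j) = Fin.castLE (by omega) (σ j) := by
  unfold eL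
  rw [Equiv.Perm.viaEmbeddingHom_apply]
  exact Equiv.Perm.viaEmbedding_apply σ (Fin.castLEEmb (by omega)) j

private theorem keL_ge (m k : ℕ) (σ : Perm (Fin (m + 1))) (x : Fin (m + (k + 1)))
    (hx : m < (x : ℕ)) : eL m k σ x = x := by
  unfold eL
  rw [Equiv.Perm.viaEmbeddingHom_apply]
  refine Equiv.Perm.viaEmbedding_apply_of_notMem σ (Fin.castLEEmb (by omega)) _ ?_
  rintro ⟨i, hi⟩
  have h := congrArg Fin.val hi
  have := i.2
  simp at h
  omega

private theorem kup_zero (k : ℕ) (σ : Perm (Fin k)) : up k σ 0 = 0 := by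
  unfold up
  rw [Equiv.Perm.viaEmbeddingHom_apply]
  refine Equiv.Perm.viaEmbedding_apply_of_notMem σ (Fin.succEmb k) _ ?_
  rintro ⟨i, hi⟩
  exact Fin.succ_ne_zero i hi

/-- a permutation fixing the last letters comes from the first ones. -/
private theorem exists_iL (m k : ℕ) (g : Perm (Fin (m + k)))
    (hg : ∀ j : Fin k, g (Fin.natAdd m j) = Fin.natAdd m j) : ∃ s : Perm (Fin m), iL m k s = g := by
  have hlt : ∀ i : Fin m, ((g (Fin.castAdd k i) : Fin (m + k)) : ℕ) < m := by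
    intro i
    by_contra hcon
    push Not at hcon
    have h1 : g (Fin.castAdd k i) = Fin.natAdd m ⟨(g (Fin.castAdd k i) : ℕ) - m, by
        have := (g (Fin.castAdd k i)).2
        omega⟩ := by
      apply Fin.ext
      simp only [Fin.val_natAdd]
      omega
    have h2 := hg ⟨(g (Fin.castAdd k i) : ℕ) - m, by
        have := (g (Fin.castAdd k i)).2
        omega⟩
    rw [← h1] at h2
    have h3 := g.injective h2
    have h4 := congrArg Fin.val (h3.trans rfl)
    have h5 := i.2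
    have h6 : ((g (Fin.castAdd k i) : Fin (m + k)) : ℕ) = i := by
      simpa using h4
    omega
  let f : Fin m → Fin m := fun i => ⟨(g (Fin.castAdd k i) : ℕ), hlt i⟩
  have hf : Function.Injective f := by
    intro i j hij
    have h := congrArg Fin.val hij
    have h2 : g (Fin.castAdd k i) = g (Fin.castAdd k j) := Fin.ext h
    have h3 := g.injective h2
    exact Fin.castAdd_injective m k h3
  refine ⟨Equiv.ofBijective f ((Finite.injective_iff_bijective).1 hf), ?_⟩
  ext x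
  refine Fin.addCases (fun i => ?_) (fun j => ?_) x
  · rw [kiL_cast]
    rfl
  · rw [kiL_nat, hg]

private theorem kcomm1 (m k : ℕ) (s : Perm (Fin m)) (p : Perm (Fin k)) :
    iL m k s * iR m k p = iR m k p * iL m k s := by
  ext x
  refine Fin.addCases (fun i => ?_) (fun j => ?_) x
  · rw [Perm.mul_apply, Perm.mul_apply, kiR_cast, kiL_cast, kiR_cast]
  · rw [Perm.mul_apply, Perm.mul_apply, kiR_nat, kiL_nat, kiL_nat, kiR_nat]

/-- the letter with index `m`. -/
private def n0 (m k : ℕ) : Fin (m + (k + 1)) := Fin.natAdd m 0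

private theorem cast_cases (m k : ℕ) (x : Fin (m + (k + 1))) (P : Fin (m + (k + 1)) → Prop)
    (h1 : ∀ j : Fin (m + 1), P (Fin.castLE (by omega) j))
    (h2 : ∀ j : Fin k, P (Fin.natAdd m j.succ)) : P x := by
  by_cases hx : (x : ℕ) < m + 1
  · have h := h1 ⟨x, hx⟩
    have e : Fin.castLE (by omega) (⟨x, hx⟩ : Fin (m + 1)) = x := Fin.ext rfl
    rwa [e] at h
  · have hx2 := x.2
    have h := h2 ⟨(x : ℕ) - (m + 1), by omega⟩
    have e : Fin.natAdd m (Fin.succ (⟨(x : ℕ) - (m + 1), by omega⟩ : Fin k)) = x := by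
      apply Fin.ext
      simp only [Fin.val_natAdd, Fin.val_succ]
      omega
    rwa [e] at h

private theorem kiRup_lt (m k : ℕ) (p : Perm (Fin k)) (j : Fin (m + 1)) :
    iR m (k + 1) (up k p) (Fin.castLE (by omega) j) = Fin.castLE (by omega) j := by
  rcases Nat.lt_or_ge (j : ℕ) m with hj | hj
  · have e : (Fin.castLE (by omega) j : Fin (m + (k + 1))) = Fin.castAdd (k + 1) ⟨j, hj⟩ :=
      Fin.ext rfl
    rw [e, kiR_cast]
  · have hj2 := j.2
    have e : (Fin.castLE (by omega) j : Fin (m + (k + 1))) = Fin.natAdd m 0 := by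
      apply Fin.ext
      simp only [Fin.val_castLE, Fin.val_natAdd, Fin.val_zero]
      omega
    rw [e, kiR_nat, kup_zero]

private theorem kiRup_ge (m k : ℕ) (p : Perm (Fin k)) (j : Fin k) :
    m < ((iR m (k + 1) (up k p) (Fin.natAdd m j.succ) : Fin (m + (k + 1))) : ℕ) := by
  rw [kiR_nat]
  have : up k p j.succ = (p j).succ := by
    unfold up
    rw [Equiv.Perm.viaEmbeddingHom_apply]
    exact Equiv.Perm.viaEmbedding_apply p (Fin.succEmb k) j
  rw [this]
  simp only [Fin.val_natAdd, Fin.val_succ]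
  omega

private theorem kcomm2 (m k : ℕ) (s : Perm (Fin (m + 1))) (p : Perm (Fin k)) :
    eL m k s * iR m (k + 1) (up k p) = iR m (k + 1) (up k p) * eL m k s := by
  ext x
  refine cast_cases m k x (fun x => ((eL m k s * iR m (k + 1) (up k p)) x : Fin _).val =
    ((iR m (k + 1) (up k p) * eL m k s) x : Fin _).val) (fun j => ?_) (fun j => ?_)
  · simp only [Perm.mul_apply]
    rw [kiRup_lt, keL_lt, kiRup_lt]
  · simp only [Perm.mul_apply]
    rw [keL_ge m k s _ (kiRup_ge m k p j), keL_ge m k s (Fin.natAdd m j.succ)]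
    simp only [Fin.val_natAdd, Fin.val_succ]
    omega

/-- coset representatives -/
private def tc (m k : ℕ) (c : Fin (m + 1)) : Perm (Fin (m + (k + 1))) :=
  swap (Fin.castLE (by omega) c) (n0 m k)

private theorem tc_ge (m k : ℕ) (c : Fin (m + 1)) (x : Fin (m + (k + 1))) (hx : m < (x : ℕ)) :
    tc m k c x = x := by
  unfold tc
  apply swap_apply_of_ne_of_ne
  · intro h
    have h1 := congrArg Fin.val h
    have := c.2
    simp at h1
    omega
  · intro h
    have h1 := congrArg Fin.val h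
    simp [n0] at h1
    omega

private theorem coset (m k : ℕ) (s : Perm (Fin (m + 1))) (c : Fin (m + 1)) :
    ∃ s' : Perm (Fin m), eL m k s * tc m k c = tc m k (s c) * iL m (k + 1) s' := by
  obtain ⟨s', hs'⟩ := exists_iL m (k + 1) ((tc m k (s c))⁻¹ * (eL m k s * tc m k c)) (by
    intro j
    refine Fin.cases ?_ (fun j => ?_) j
    · rw [Perm.mul_apply, Perm.mul_apply]
      have h1 : tc m k c (Fin.natAdd m 0) = Fin.castLE (by omega) c := by
        unfold tc n0
        rw [swap_apply_right]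
      rw [h1, keL_lt, Perm.inv_eq_iff_eq]
      unfold tc n0
      rw [swap_apply_right]
    · have hj : m < ((Fin.natAdd m j.succ : Fin (m + (k + 1))) : ℕ) := by
        simp only [Fin.val_natAdd, Fin.val_succ]
        omega
      rw [Perm.mul_apply, Perm.mul_apply, tc_ge m k c _ hj, keL_ge m k s _ hj,
        Perm.inv_eq_iff_eq, tc_ge m k _ _ hj])
  exact ⟨s', by rw [hs']; group⟩

private theorem tc_comm (m k : ℕ) (c : Fin (m + 1)) (p : Perm (Fin k)) :
    iR m (k + 1) (up k p) * tc m k c = tc m k c * iR m (k + 1) (up k p) := by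
  have h1 : iR m (k + 1) (up k p) (Fin.castLE (by omega) c) = Fin.castLE (by omega) c :=
    kiRup_lt m k p c
  have h2 : iR m (k + 1) (up k p) (n0 m k) = n0 m k := by
    unfold n0
    rw [kiR_nat, kup_zero]
  unfold tc
  rw [Equiv.mul_swap_eq_swap_mul, h1, h2]

end KerAux

section KerMain

open scoped Kronecker

variable {m k : ℕ} (nu : Y (k + 1)) {ι : Type*} [Fintype ι] [DecidableEq ι]
    (W : Perm (Fin (m + (k + 1))) →* Matrix ι ι ℝ)

/-- the tensor product of `W` with `rep`. -/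
private noncomputable def RR {G : Type*} [Group G] (f : G →* Perm (Fin (m + (k + 1))))
    (g : G →* Perm (Fin (k + 1))) :
    G →* Matrix (ι × Tab ⊥ nu.1 (k + 1)) (ι × Tab ⊥ nu.1 (k + 1)) ℝ where
  toFun x := W (f x) ⊗ₖ rep ⊥ nu.1 (k + 1) (g x)
  map_one' := by
    rw [map_one, map_one, map_one, map_one, Matrix.one_kronecker_one]
  map_mul' x y := by
    rw [map_mul, map_mul, map_mul, map_mul, Matrix.mul_kronecker_mul]

private theorem RR_apply {G : Type*} [Group G] (f : G →* Perm (Fin (m + (k + 1))))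
    (g : G →* Perm (Fin (k + 1))) (x : G) :
    RR nu W f g x = W (f x) ⊗ₖ rep ⊥ nu.1 (k + 1) (g x) := rfl

/-- first homomorphism -/
private noncomputable def f1 (m k : ℕ) :
    Perm (Fin m) × Perm (Fin (k + 1)) →* Perm (Fin (m + (k + 1))) where
  toFun x := iL m (k + 1) x.1 * iR m (k + 1) x.2
  map_one' := by simp
  map_mul' x y := by
    rw [Prod.fst_mul, Prod.snd_mul, map_mul, map_mul, mul_assoc, mul_assoc,
      ← mul_assoc (iL m (k + 1) y.1), kcomm1]
    group

/-- second homomorphism -/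
private noncomputable def f2 (m k : ℕ) :
    Perm (Fin (m + 1)) × Perm (Fin k) →* Perm (Fin (m + (k + 1))) where
  toFun x := eL m k x.1 * iR m (k + 1) (up k x.2)
  map_one' := by simp
  map_mul' x y := by
    rw [Prod.fst_mul, Prod.snd_mul, map_mul, map_mul, map_mul, mul_assoc, mul_assoc,
      ← mul_assoc (eL m k y.1), kcomm2]
    group

/-- the averaging operator. -/
private noncomputable def LL :
    (ι × Tab ⊥ nu.1 (k + 1) → ℝ) →ₗ[ℝ] (ι × Tab ⊥ nu.1 (k + 1) → ℝ) :=
  ∑ c : Fin (m + 1), Matrix.mulVecLin (W (tc m k c) ⊗ₖ (1 : Matrix (Tab ⊥ nu.1 (k + 1)) _ ℝ))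

private theorem LL_apply (v : ι × Tab ⊥ nu.1 (k + 1) → ℝ) :
    LL nu W v = ∑ c : Fin (m + 1),
      (W (tc m k c) ⊗ₖ (1 : Matrix (Tab ⊥ nu.1 (k + 1)) _ ℝ)).mulVec v := by
  unfold LL
  rw [LinearMap.sum_apply]
  rfl

private theorem split_kron (x : Perm (Fin (m + (k + 1)))) (p : Perm (Fin (k + 1))) :
    W x ⊗ₖ rep ⊥ nu.1 (k + 1) p =
      (W x ⊗ₖ (1 : Matrix (Tab ⊥ nu.1 (k + 1)) _ ℝ)) *
        ((1 : Matrix ι ι ℝ) ⊗ₖ rep ⊥ nu.1 (k + 1) p) := by
  rw [← Matrix.mul_kronecker_mul, Matrix.mul_one, Matrix.one_mul]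

private theorem LL_mem (v : ι × Tab ⊥ nu.1 (k + 1) → ℝ)
    (hv : v ∈ invSub (RR nu W (f1 m k) (MonoidHom.snd _ _))) :
    LL nu W v ∈ invSub (RR nu W (f2 m k) ((up k).comp (MonoidHom.snd _ _))) := by
  intro g
  rw [RR_apply, LL_apply, Matrix.mulVec_sum]
  have hs : ∀ s' : Perm (Fin m),
      (W (iL m (k + 1) s') ⊗ₖ (1 : Matrix (Tab ⊥ nu.1 (k + 1)) _ ℝ)).mulVec v = v := by
    intro s'
    have h := hv (s', 1)
    rw [RR_apply] at h
    have e1 : f1 m k (s', 1) = iL m (k + 1) s' := by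
      change iL m (k + 1) s' * iR m (k + 1) 1 = _
      rw [map_one, mul_one]
    have e2 : (MonoidHom.snd (Perm (Fin m)) (Perm (Fin (k + 1)))) (s', 1) = 1 := rfl
    rw [e1, e2, map_one] at h
    exact h
  have hp : ∀ p : Perm (Fin (k + 1)),
      (W (iR m (k + 1) p) ⊗ₖ rep ⊥ nu.1 (k + 1) p).mulVec v = v := by
    intro p
    have h := hv (1, p)
    rw [RR_apply] at h
    have e1 : f1 m k (1, p) = iR m (k + 1) p := by
      change iL m (k + 1) 1 * iR m (k + 1) p = _
      rw [map_one, one_mul]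
    have e2 : (MonoidHom.snd (Perm (Fin m)) (Perm (Fin (k + 1)))) (1, p) = p := rfl
    rw [e1, e2] at h
    exact h
  have key : ∀ c : Fin (m + 1),
      (W (f2 m k g) ⊗ₖ rep ⊥ nu.1 (k + 1) (((up k).comp (MonoidHom.snd _ _)) g)).mulVec
        ((W (tc m k c) ⊗ₖ (1 : Matrix (Tab ⊥ nu.1 (k + 1)) _ ℝ)).mulVec v) =
      (W (tc m k (g.1 c)) ⊗ₖ (1 : Matrix (Tab ⊥ nu.1 (k + 1)) _ ℝ)).mulVec v := by
    intro c
    obtain ⟨s', hs'⟩ := coset m k g.1 c
    have e0 : f2 m k g = eL m k g.1 * iR m (k + 1) (up k g.2) := rfl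
    have e1 : ((up k).comp (MonoidHom.snd (Perm (Fin (m + 1))) (Perm (Fin k)))) g = up k g.2 := rfl
    rw [e0, e1, Matrix.mulVec_mulVec, ← Matrix.mul_kronecker_mul, Matrix.mul_one, ← map_mul,
      mul_assoc, tc_comm, ← mul_assoc, hs', mul_assoc, map_mul, map_mul]
    have e2 : (W (tc m k (g.1 c)) * (W (iL m (k + 1) s') * W (iR m (k + 1) (up k g.2)))) ⊗ₖ
        rep ⊥ nu.1 (k + 1) (up k g.2) =
        (W (tc m k (g.1 c)) ⊗ₖ (1 : Matrix (Tab ⊥ nu.1 (k + 1)) _ ℝ)) *
        ((W (iL m (k + 1) s') ⊗ₖ (1 : Matrix (Tab ⊥ nu.1 (k + 1)) _ ℝ)) *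
        (W (iR m (k + 1) (up k g.2)) ⊗ₖ rep ⊥ nu.1 (k + 1) (up k g.2))) := by
      rw [← Matrix.mul_kronecker_mul, ← Matrix.mul_kronecker_mul, Matrix.one_mul, Matrix.one_mul]
    rw [e2, ← Matrix.mulVec_mulVec, ← Matrix.mulVec_mulVec, hp, hs]
  rw [Finset.sum_congr rfl fun c _ => key c]
  exact Equiv.sum_comp g.1
    (fun c => (W (tc m k c) ⊗ₖ (1 : Matrix (Tab ⊥ nu.1 (k + 1)) _ ℝ)).mulVec v)

end KerMain

/-- a vector as a matrix. -/
private def toM {ι τ : Type*} (v : ι × τ → ℝ) : Matrix ι τ ℝ := Matrix.of fun i t => v (i, t)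

open scoped Kronecker in
private theorem kron_mulVec {ι τ : Type*} [Fintype ι] [Fintype τ] (A : Matrix ι ι ℝ)
    (B : Matrix τ τ ℝ) (v : ι × τ → ℝ) :
    toM ((A ⊗ₖ B).mulVec v) = A * toM v * B.transpose := by
  ext i t
  simp only [toM, Matrix.of_apply, Matrix.mulVec, dotProduct, Matrix.mul_apply,
    Fintype.sum_prod_type, Matrix.kroneckerMap_apply, Matrix.transpose_apply, Finset.sum_mul]
  rw [Finset.sum_comm]
  refine Finset.sum_congr rfl fun t' _ => Finset.sum_congr rfl fun i' _ => ?_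
  ring

open scoped Kronecker in
theorem exists_KCond {m k : ℕ} (nu : Y (k + 1)) {ι : Type*} [Fintype ι] [DecidableEq ι]
    (W : Perm (Fin (m + (k + 1))) →* Matrix ι ι ℝ)
    (h : (1 / (((m + 1)! : ℝ) * (k ! : ℝ))) *
        ∑ p : Perm (Fin (m + 1)) × Perm (Fin k),
          (W (eL m k p.1 * iR m (k + 1) (up k p.2))).trace * chi nu (up k p.2) <
      (1 / ((m ! : ℝ) * ((k + 1)! : ℝ))) *
        ∑ p : Perm (Fin m) × Perm (Fin (k + 1)),
          (W (iL m (k + 1) p.1 * iR m (k + 1) p.2)).trace * chi nu p.2) :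
    ∃ f : Matrix ι (Tab ⊥ nu.1 (k + 1)) ℝ, KCond nu W f := by
  classical
  set R1 := RR nu W (f1 m k) (MonoidHom.snd _ _) with hR1
  set R2 := RR nu W (f2 m k) ((up k).comp (MonoidHom.snd _ _)) with hR2
  have d1 := inv_dim R1
  have d2 := inv_dim R2
  have t1 : ∀ g, (R1 g).trace =
      (W (iL m (k + 1) g.1 * iR m (k + 1) g.2)).trace * chi nu g.2 := by
    intro g
    rw [hR1, RR_apply, Matrix.trace_kronecker]
    rfl
  have t2 : ∀ g, (R2 g).trace =
      (W (eL m k g.1 * iR m (k + 1) (up k g.2))).trace * chi nu (up k g.2) := by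
    intro g
    rw [hR2, RR_apply, Matrix.trace_kronecker]
    rfl
  have c1 : (Fintype.card (Perm (Fin m) × Perm (Fin (k + 1))) : ℝ) = (m ! : ℝ) * ((k + 1)! : ℝ) := by
    rw [Fintype.card_prod, Fintype.card_perm, Fintype.card_perm, Fintype.card_fin,
      Fintype.card_fin]
    push_cast
    rfl
  have c2 : (Fintype.card (Perm (Fin (m + 1)) × Perm (Fin k)) : ℝ) = ((m + 1)! : ℝ) * (k ! : ℝ) := by
    rw [Fintype.card_prod, Fintype.card_perm, Fintype.card_perm, Fintype.card_fin,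
      Fintype.card_fin]
    push_cast
    rfl
  rw [c1, Finset.sum_congr rfl fun g _ => t1 g] at d1
  rw [c2, Finset.sum_congr rfl fun g _ => t2 g] at d2
  rw [← d1, ← d2] at h
  have hlt : Module.finrank ℝ (invSub R2) < Module.finrank ℝ (invSub R1) := by exact_mod_cast h
  let LR : invSub R1 →ₗ[ℝ] invSub R2 :=
    ((LL nu W).comp (invSub R1).subtype).codRestrict (invSub R2) fun v => LL_mem nu W v.1 v.2
  obtain ⟨v, hv, hv0⟩ := Submodule.exists_mem_ne_zero_of_ne_bot
    (LinearMap.ker_ne_bot_of_finrank_lt (f := LR) hlt)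
  have hLv : LL nu W v.1 = 0 := by
    have := congrArg Subtype.val (LinearMap.mem_ker.1 hv)
    exact this
  have hvne : v.1 ≠ 0 := fun h0 => hv0 (Subtype.ext h0)
  have hvR : ∀ g : Perm (Fin m) × Perm (Fin (k + 1)),
      (W (f1 m k g) ⊗ₖ rep ⊥ nu.1 (k + 1) g.2).mulVec v.1 = v.1 := fun g => v.2 g
  refine ⟨toM v.1, ?_, ?_, ?_, ?_⟩
  · intro h0
    apply hvne
    funext x
    exact congrFun (congrFun h0 x.1) x.2
  · intro p
    have h := hvR (1, p)
    have e1 : f1 m k (1, p) = iR m (k + 1) p := by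
      change iL m (k + 1) 1 * iR m (k + 1) p = _
      rw [map_one, one_mul]
    rw [e1] at h
    have h2 := kron_mulVec (W (iR m (k + 1) p)) (rep ⊥ nu.1 (k + 1) p) v.1
    rw [h, rep_transpose] at h2
    have h3 : toM v.1 * rep ⊥ nu.1 (k + 1) p =
        W (iR m (k + 1) p) * toM v.1 * rep ⊥ nu.1 (k + 1) p⁻¹ * rep ⊥ nu.1 (k + 1) p :=
      congrArg (fun M => M * rep ⊥ nu.1 (k + 1) p) h2
    rw [Matrix.mul_assoc, ← map_mul, inv_mul_cancel, map_one, Matrix.mul_one] at h3
    exact h3.symm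
  · intro s
    have h := hvR (s, 1)
    have e1 : f1 m k (s, 1) = iL m (k + 1) s := by
      change iL m (k + 1) s * iR m (k + 1) 1 = _
      rw [map_one, mul_one]
    rw [e1] at h
    have h2 := kron_mulVec (W (iL m (k + 1) s)) (rep ⊥ nu.1 (k + 1) 1) v.1
    rw [h, map_one, Matrix.transpose_one, Matrix.mul_one] at h2
    exact h2.symm
  · rw [LL_apply] at hLv
    have h1 : ∀ c : Fin (m + 1), W (tc m k c) * toM v.1 =
        toM ((W (tc m k c) ⊗ₖ (1 : Matrix (Tab ⊥ nu.1 (k + 1)) _ ℝ)).mulVec v.1) := by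
      intro c
      rw [kron_mulVec, Matrix.transpose_one, Matrix.mul_one]
    have h2 : ∑ c : Fin (m + 1), W (tc m k c) * toM v.1 = 0 := by
      rw [Finset.sum_congr rfl fun c _ => h1 c]
      ext i t
      have h3 := congrFun hLv (i, t)
      rw [Finset.sum_apply] at h3
      rw [Matrix.sum_apply]
      exact h3
    rw [Fin.sum_univ_castSucc] at h2
    have e1 : tc m k (Fin.last m) = 1 := by
      unfold tc n0
      have : (Fin.castLE (by omega) (Fin.last m) : Fin (m + (k + 1))) = Fin.natAdd m 0 := by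
        apply Fin.ext
        simp
      rw [this, swap_self]
      rfl
    rw [e1, map_one, Matrix.one_mul] at h2
    exact (add_comm _ _).trans h2

end Pool.MP322
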