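import Pool.Agent.Lib.MP_322c5f_al.J
import Pool.Agent.Lib.MP_322c5f_al.BranchB
import Pool.Agent.Lib.MP_322c5f_al.Ker

/-! job SQ-34: adding one cell in front of a filling of a skew shape. -/

set_option autoImplicit false

open Equiv Finset

namespace Pool.MP322

/-- the cell of `bet` not in `alp`. -/
noncomputable def ncell {m : ℕ} (alp : Y m) (bet : Y (m + 1)) (h : alp.1 ≤ bet.1) : ℕ × ℕ :=
  (brb_missing alp bet h).choose

theorem ncell_spec {m : ℕ} (alp : Y m) (bet : Y (m + 1)) (h : alp.1 ≤ bet.1) :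
    ncell alp bet h ∉ alp.1 ∧ ncell alp bet h ∈ bet.1 ∧
      ∀ d, d ∈ bet.1 ↔ d ∈ alp.1 ∨ d = ncell alp bet h :=
  (brb_missing alp bet h).choose_spec

theorem consY_isTab {m k : ℕ} (alp : Y m) (bet : Y (m + 1)) (h : alp.1 ≤ bet.1)
    {lam : YoungDiagram} (y : Tab bet.1 lam k) :
    IsTab alp.1 lam (k + 1) (Fin.cons (ncell alp bet h) y.1 : Fin (k + 1) → ℕ × ℕ) := by
  obtain ⟨n1, n2, n3⟩ := ncell_spec alp bet h
  obtain ⟨y1, y2, y3, y4⟩ := y.2
  refine ⟨?_, ?_, ?_, ?_⟩
  · rw [Fin.cons_injective_iff]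
    refine ⟨?_, y1⟩
    rintro ⟨i, hi⟩
    exact y2 i (by rw [hi]; exact n2)
  · intro i
    refine Fin.cases ?_ (fun j => ?_) i
    · rw [Fin.cons_zero]; exact n1
    · rw [Fin.cons_succ]
      intro hj
      exact y2 j ((n3 _).2 (Or.inl hj))
  · intro c
    rw [y3 c, n3 c, Fin.exists_fin_succ]
    simp only [Fin.cons_zero, Fin.cons_succ]
    constructor
    · rintro ((h1 | h1) | h1)
      · exact Or.inl h1
      · exact Or.inr (Or.inl h1.symm)
      · exact Or.inr (Or.inr h1)
    · rintro (h1 | (h1 | h1))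
      · exact Or.inl (Or.inl h1)
      · exact Or.inl (Or.inr h1.symm)
      · exact Or.inr h1
  · intro i c
    refine Fin.cases ?_ (fun j => ?_) i
    · rw [Fin.cons_zero]
      intro hc
      have hcb : c ∈ bet.1 := brb_lower bet.1 (Prod.le_def.1 hc).1 (Prod.le_def.1 hc).2 n2
      rcases (n3 c).1 hcb with h1 | h1
      · exact Or.inl h1
      · exact Or.inr ⟨0, le_rfl, by rw [Fin.cons_zero]; exact h1.symm⟩
    · rw [Fin.cons_succ]
      intro hc
      rcases y4 j c hc with h1 | ⟨j', hj', h1⟩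
      · rcases (n3 c).1 h1 with h2 | h2
        · exact Or.inl h2
        · exact Or.inr ⟨0, Fin.zero_le _, by rw [Fin.cons_zero]; exact h2.symm⟩
      · exact Or.inr ⟨j'.succ, Fin.succ_le_succ_iff.2 hj', by rw [Fin.cons_succ]; exact h1⟩

/-- first the cell `bet/alp`, then `y`. -/
noncomputable def consY {m k : ℕ} (alp : Y m) (bet : Y (m + 1)) (h : alp.1 ≤ bet.1)
    {lam : YoungDiagram} (y : Tab bet.1 lam k) : Tab alp.1 lam (k + 1) :=
  ⟨Fin.cons (ncell alp bet h) y.1, consY_isTab alp bet h y⟩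

theorem consY_inj {m k : ℕ} (alp : Y m) (bet : Y (m + 1)) (h : alp.1 ≤ bet.1)
    {lam : YoungDiagram} (y y' : Tab bet.1 lam k) (hy : consY alp bet h y = consY alp bet h y') :
    y = y' := by
  apply Subtype.ext
  funext j
  have h1 := congrFun (congrArg Subtype.val hy) j.succ
  simp only [consY, Fin.cons_succ] at h1
  exact h1

/-- the shape `alp` together with the first cell of a filling. -/
private def consShape {m k : ℕ} (alp : Y m) {lam : YoungDiagram} (x : Tab alp.1 lam (k + 1)) :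
    YoungDiagram where
  cells := insert (x.1 0) alp.1.cells
  isLowerSet := by
    intro a b hab ha
    rw [Finset.mem_coe, Finset.mem_insert, YoungDiagram.mem_cells] at ha ⊢
    rcases ha with ha | ha
    · rw [ha] at hab
      rcases x.2.2.2.2 0 b hab with h | ⟨j, hj, hjc⟩
      · exact Or.inr h
      · have : j = 0 := Fin.le_zero_iff.1 hj
        rw [this] at hjc
        exact Or.inl hjc.symm
    · exact Or.inr (brb_lower alp.1 (Prod.le_def.1 hab).1 (Prod.le_def.1 hab).2 ha)

private theorem mem_consShape {m k : ℕ} (alp : Y m) {lam : YoungDiagram}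
    (x : Tab alp.1 lam (k + 1)) (c : ℕ × ℕ) : c ∈ consShape alp x ↔ c ∈ alp.1 ∨ c = x.1 0 := by
  rw [← YoungDiagram.mem_cells]
  unfold consShape
  rw [Finset.mem_insert, YoungDiagram.mem_cells]
  exact or_comm

private theorem card_consShape {m k : ℕ} (alp : Y m) {lam : YoungDiagram}
    (x : Tab alp.1 lam (k + 1)) : (consShape alp x).card = m + 1 := by
  change (insert (x.1 0) alp.1.cells).card = m + 1
  rw [Finset.card_insert_of_notMem]
  · have : alp.1.cells.card = m := alp.2
    rw [this]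
  · rw [YoungDiagram.mem_cells]
    exact x.2.2.1 0

theorem exists_consY {m k : ℕ} (alp : Y m) {lam : YoungDiagram} (x : Tab alp.1 lam (k + 1)) :
    ∃ (bet : Y (m + 1)) (h : alp.1 ≤ bet.1) (y : Tab bet.1 lam k), x = consY alp bet h y := by
  obtain ⟨x1, x2, x3, x4⟩ := x.2
  have hle : alp.1 ≤ consShape alp x := by
    intro c hc
    exact (mem_consShape alp x c).2 (Or.inl hc)
  have hy : IsTab (consShape alp x) lam k (fun j => x.1 j.succ) := by
    refine ⟨fun a b hab => Fin.succ_injective _ (x1 hab), ?_, ?_, ?_⟩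
    · intro i hi
      rcases (mem_consShape alp x _).1 hi with h1 | h1
      · exact x2 _ h1
      · exact Fin.succ_ne_zero i (x1 h1)
    · intro c
      rw [x3 c, mem_consShape, Fin.exists_fin_succ]
      constructor
      · rintro (h1 | (h1 | h1))
        · exact Or.inl (Or.inl h1)
        · exact Or.inl (Or.inr h1.symm)
        · exact Or.inr h1
      · rintro ((h1 | h1) | h1)
        · exact Or.inl h1
        · exact Or.inr (Or.inl h1.symm)
        · exact Or.inr (Or.inr h1)
    · intro i c hc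
      rw [mem_consShape]
      rcases x4 i.succ c hc with h1 | ⟨j, hj, h1⟩
      · exact Or.inl (Or.inl h1)
      · revert hj h1
        refine Fin.cases ?_ (fun j' => ?_) j
        · intro _ h1
          exact Or.inl (Or.inr h1.symm)
        · intro hj h1
          exact Or.inr ⟨j', Fin.succ_le_succ_iff.1 hj, h1⟩
  refine ⟨⟨consShape alp x, card_consShape alp x⟩, hle, ⟨_, hy⟩, ?_⟩
  have hn : ncell alp ⟨consShape alp x, card_consShape alp x⟩ hle = x.1 0 := by
    obtain ⟨n1, n2, -⟩ := ncell_spec alp ⟨consShape alp x, card_consShape alp x⟩ hle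
    rcases (mem_consShape alp x _).1 n2 with h1 | h1
    · exact absurd h1 n1
    · exact h1
  apply Subtype.ext
  funext j
  show x.1 j = (Fin.cons (ncell alp ⟨consShape alp x, card_consShape alp x⟩ hle)
    (fun j => x.1 j.succ) : Fin (k + 1) → ℕ × ℕ) j
  refine Fin.cases ?_ (fun j' => ?_) j
  · rw [Fin.cons_zero, hn]
  · rw [Fin.cons_succ]

private theorem bet_of_ncell {m : ℕ} (alp : Y m) (bet bet' : Y (m + 1)) (h : alp.1 ≤ bet.1)
    (h' : alp.1 ≤ bet'.1) (hn : ncell alp bet h = ncell alp bet' h') : bet = bet' := by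
  apply Subtype.ext
  apply SetLike.ext
  intro d
  rw [(ncell_spec alp bet h).2.2 d, (ncell_spec alp bet' h').2.2 d, hn]

private theorem consY_zero {m k : ℕ} (alp : Y m) (bet : Y (m + 1)) (h : alp.1 ≤ bet.1)
    {lam : YoungDiagram} (y : Tab bet.1 lam k) : (consY alp bet h y).1 0 = ncell alp bet h :=
  Fin.cons_zero (α := fun _ => ℕ × ℕ) (ncell alp bet h) y.1

theorem consY_bet {m k : ℕ} (alp : Y m) (bet bet' : Y (m + 1)) (h : alp.1 ≤ bet.1)
    (h' : alp.1 ≤ bet'.1) {lam : YoungDiagram} (y : Tab bet.1 lam k) (y' : Tab bet'.1 lam k)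
    (hy : consY alp bet h y = consY alp bet' h' y') : bet = bet' := by
  apply bet_of_ncell alp bet bet' h h'
  rw [← consY_zero alp bet h y, ← consY_zero alp bet' h' y', hy]

/-! ### the generators -/

private theorem up_zero (k : ℕ) (σ : Perm (Fin k)) : up k σ 0 = 0 := by
  refine Equiv.Perm.viaEmbedding_apply_of_notMem σ (Fin.succEmb k) _ ?_
  rintro ⟨i, hi⟩
  exact Fin.succ_ne_zero i hi

private theorem up_succ (k : ℕ) (σ : Perm (Fin k)) (j : Fin k) : up k σ j.succ = (σ j).succ :=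
  Equiv.Perm.viaEmbedding_apply σ (Fin.succEmb k) j

private theorem up_sw (k i : ℕ) (h : i + 1 < k) :
    up k (sw i h) = sw (i + 1) (show i + 1 + 1 < k + 1 by omega) := by
  apply Equiv.ext
  intro x
  apply Fin.ext
  refine Fin.cases ?_ (fun j => ?_) x
  · rw [up_zero, sw_val]
    show (0 : ℕ) = sN (i + 1) 0
    unfold sN
    rw [swap_apply_of_ne_of_ne (by omega) (by omega)]
  · rw [up_succ, sw_val]
    show ((sw i h j : Fin k) : ℕ) + 1 = sN (i + 1) ((j : ℕ) + 1)
    rw [sw_val]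
    unfold sN
    rw [swap_apply_def, swap_apply_def]
    split_ifs <;> omega

private theorem cons_comp {k : ℕ} (c : ℕ × ℕ) (b : Fin k → ℕ × ℕ) (σ : Perm (Fin k)) :
    (Fin.cons c b : Fin (k + 1) → ℕ × ℕ) ∘ up k σ = Fin.cons c (b ∘ σ) := by
  funext x
  rw [Function.comp_apply]
  refine Fin.cases ?_ (fun j => ?_) x
  · rw [up_zero, Fin.cons_zero, Fin.cons_zero]
  · rw [up_succ, Fin.cons_succ, Fin.cons_succ]; rfl

private theorem cons_inj' {k : ℕ} {c : ℕ × ℕ} {b b' : Fin k → ℕ × ℕ} :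
    (Fin.cons c b : Fin (k + 1) → ℕ × ℕ) = Fin.cons c b' ↔ b = b' := by
  constructor
  · intro h
    funext j
    have := congrFun h j.succ
    rwa [Fin.cons_succ, Fin.cons_succ] at this
  · rintro rfl; rfl

private theorem consY_iff {m k : ℕ} (alp : Y m) (bet : Y (m + 1)) (h : alp.1 ≤ bet.1)
    {lam : YoungDiagram} (y y' : Tab bet.1 lam k) :
    consY alp bet h y = consY alp bet h y' ↔ y = y' :=
  ⟨consY_inj alp bet h y y', fun hy => by rw [hy]⟩

private theorem yd_cons {k : ℕ} (c : ℕ × ℕ) (b : Fin k → ℕ × ℕ) (i : ℕ)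
    (h : i + 1 < k) (h' : i + 1 + 1 < k + 1) :
    yd (Fin.cons c b : Fin (k + 1) → ℕ × ℕ) (i + 1) h' = yd b i h := by
  have e1 : (Fin.cons c b : Fin (k + 1) → ℕ × ℕ) ⟨i + 1, by omega⟩ = b ⟨i, by omega⟩ :=
    Fin.cons_succ (α := fun _ => ℕ × ℕ) c b ⟨i, by omega⟩
  have e2 : (Fin.cons c b : Fin (k + 1) → ℕ × ℕ) ⟨i + 1 + 1, h'⟩ = b ⟨i + 1, h⟩ :=
    Fin.cons_succ (α := fun _ => ℕ × ℕ) c b ⟨i + 1, h⟩
  unfold yd
  rw [e1, e2]

private theorem yM_cons {m k : ℕ} (alp : Y m) (bet : Y (m + 1)) (h : alp.1 ≤ bet.1)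
    {lam : YoungDiagram} (y y' : Tab bet.1 lam k) (i : ℕ) (hi : i + 1 < k)
    (hi' : i + 1 + 1 < k + 1) :
    yM alp.1 lam (k + 1) (i + 1) hi' (consY alp bet h y) (consY alp bet h y') =
      yM bet.1 lam k i hi y y' := by
  have e1 : (consY alp bet h y').1 = (consY alp bet h y).1 ∘ sw (i + 1) hi' ↔
      y'.1 = y.1 ∘ sw i hi := by
    rw [← up_sw k i hi]
    show (Fin.cons (ncell alp bet h) y'.1 : Fin (k + 1) → ℕ × ℕ) =
      (Fin.cons (ncell alp bet h) y.1 : Fin (k + 1) → ℕ × ℕ) ∘ _ ↔ _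
    rw [cons_comp]
    exact cons_inj'
  have e2 : yd (consY alp bet h y).1 (i + 1) hi' = yd y.1 i hi := yd_cons _ y.1 i hi hi'
  unfold yM
  simp only [consY_iff, e1, e2]

private theorem yM_ne {α β : YoungDiagram} {n i : ℕ} {h : i + 1 < n} {x z : Tab α β n}
    (hz : yM α β n i h x z ≠ 0) : z.1 = x.1 ∨ z.1 = x.1 ∘ sw i h := by
  unfold yM at hz
  by_cases h1 : z = x
  · left; rw [h1]
  · rw [if_neg h1] at hz
    by_cases h2 : z.1 = x.1 ∘ sw i h
    · right; exact h2
    · rw [if_neg h2] at hz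
      exact absurd rfl hz

private theorem yM_head {α β : YoungDiagram} {k i : ℕ} {h : i + 1 < k}
    {h' : i + 1 + 1 < k + 1} {x z : Tab α β (k + 1)}
    (hz : yM α β (k + 1) (i + 1) h' x z ≠ 0) : z.1 0 = x.1 0 := by
  rcases yM_ne hz with h1 | h1
  · rw [h1]
  · rw [h1, ← up_sw k i h]
    show x.1 (up k (sw i h) 0) = x.1 0
    rw [up_zero]

private theorem rep_up_ne {α β : YoungDiagram} {k : ℕ} (x y : Tab α β (k + 1))
    (h : x.1 0 ≠ y.1 0) (π : Perm (Fin k)) : rep α β (k + 1) (up k π) x y = 0 := by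
  induction π using perm_induction generalizing x with
  | one =>
    rw [map_one, map_one]
    exact Matrix.one_apply_ne fun hxy => h (by rw [hxy])
  | mul i hi σ ih =>
    rw [map_mul, map_mul, up_sw, rep_sw, Matrix.mul_apply]
    refine Finset.sum_eq_zero fun z _ => ?_
    by_cases hz : yM α β (k + 1) (i + 1) (by omega) x z = 0
    · rw [hz, zero_mul]
    · rw [ih z (by rw [yM_head (h := hi) hz]; exact h), mul_zero]

theorem rep_cons_same {m k : ℕ} (alp : Y m) (bet : Y (m + 1)) (h : alp.1 ≤ bet.1)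
    {lam : YoungDiagram} (y y' : Tab bet.1 lam k) (π : Perm (Fin k)) :
    rep alp.1 lam (k + 1) (up k π) (consY alp bet h y) (consY alp bet h y') =
      rep bet.1 lam k π y y' := by
  induction π using perm_induction generalizing y with
  | one =>
    rw [map_one, map_one, map_one, Matrix.one_apply, Matrix.one_apply]
    simp only [consY_iff]
  | mul i hi σ ih =>
    rw [map_mul, map_mul, map_mul, up_sw, rep_sw, rep_sw, Matrix.mul_apply, Matrix.mul_apply]
    symm
    refine Fintype.sum_of_injective (fun t'' => consY alp bet h t'')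
      (fun a b hab => consY_inj alp bet h a b hab) _ _ ?_ ?_
    · intro z hz
      rw [rep_up_ne z (consY alp bet h y') ?_ σ, mul_zero]
      intro hcon
      apply hz
      obtain ⟨bet', h', s, rfl⟩ := exists_consY alp z
      rw [consY_zero, consY_zero] at hcon
      obtain rfl := bet_of_ncell alp bet' bet h' h hcon
      exact ⟨s, rfl⟩
    · intro t''
      rw [yM_cons alp bet h y t'' i hi, ih t'']

theorem rep_cons_ne {m k : ℕ} (alp : Y m) (bet bet' : Y (m + 1)) (h : alp.1 ≤ bet.1)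
    (h' : alp.1 ≤ bet'.1) (hne : bet ≠ bet') {lam : YoungDiagram} (y : Tab bet.1 lam k)
    (y' : Tab bet'.1 lam k) (π : Perm (Fin k)) :
    rep alp.1 lam (k + 1) (up k π) (consY alp bet h y) (consY alp bet' h' y') = 0 := by
  apply rep_up_ne
  rw [consY_zero, consY_zero]
  exact fun hcon => hne (bet_of_ncell alp bet bet' h h' hcon)

end Pool.MP322
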