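import Pool.Agent.Lib.MP_322c5f_al.JM

/-! job SQ-12: Schur's lemma for the representations `rep ⊥ lam n`, also restricted to `A_n`. -/

set_option autoImplicit false

open Equiv Finset

namespace Pool.MP322

private theorem sch_ct {n : ℕ} {lam mu : YoungDiagram} (e : ℝ)
    (A : Matrix (Tab ⊥ lam n) (Tab ⊥ mu n) ℝ)
    (hA : ∀ j i : Fin n, j < i →
      rep ⊥ lam n (swap j i) * A = e • (A * rep ⊥ mu n (swap j i)))
    (x : Tab ⊥ lam n) (y : Tab ⊥ mu n) (hxy : A x y ≠ 0) (i : Fin n) :
    ((ct (x.1 i) : ℤ) : ℝ) = e * ((ct (y.1 i) : ℤ) : ℝ) := by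
  have h1 : (∑ j ∈ Finset.univ.filter (fun j => j < i), rep ⊥ lam n (swap j i)) * A
      = e • (A * ∑ j ∈ Finset.univ.filter (fun j => j < i), rep ⊥ mu n (swap j i)) := by
    rw [Matrix.sum_mul, Matrix.mul_sum, Finset.smul_sum]
    apply Finset.sum_congr rfl
    intro j hj
    exact hA j i (Finset.mem_filter.1 hj).2
  rw [jm_diag, jm_diag] at h1
  have h2 := congrFun (congrFun h1 x) y
  rw [Matrix.diagonal_mul, Matrix.smul_apply, Matrix.mul_diagonal, smul_eq_mul] at h2
  have h3 : A x y * ((ct (x.1 i) : ℤ) : ℝ) = A x y * (e * ((ct (y.1 i) : ℤ) : ℝ)) := by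
    rw [mul_comm (A x y) ((ct (x.1 i) : ℤ) : ℝ), h2]
    ring
  exact mul_left_cancel₀ hxy h3

theorem schur_zero {n : ℕ} (lam mu : Y n) (h : lam ≠ mu)
    (A : Matrix (Tab ⊥ lam.1 n) (Tab ⊥ mu.1 n) ℝ)
    (hA : ∀ σ, rep ⊥ lam.1 n σ * A = A * rep ⊥ mu.1 n σ) : A = 0 := by
  ext x y
  rw [Matrix.zero_apply]
  by_contra hxy
  have h1 : ∀ i, ct (x.1 i) = ct (y.1 i) := by
    intro i
    have := sch_ct 1 A (fun j i _ => by rw [one_smul]; exact hA _) x y hxy i
    rw [one_mul] at this
    exact_mod_cast this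
  apply h
  apply Subtype.ext
  exact tab_shape_eq x y (tab_ct_inj x y h1)

theorem schur_scalar {n : ℕ} (lam : Y n) (A : Matrix (Tab ⊥ lam.1 n) (Tab ⊥ lam.1 n) ℝ)
    (hA : ∀ σ, A * rep ⊥ lam.1 n σ = rep ⊥ lam.1 n σ * A) :
    ∃ c : ℝ, A = c • (1 : Matrix (Tab ⊥ lam.1 n) (Tab ⊥ lam.1 n) ℝ) := by
  have hoff : ∀ x y : Tab ⊥ lam.1 n, x ≠ y → A x y = 0 := by
    intro x y hne
    by_contra hxy
    have h1 : ∀ i, ct (x.1 i) = ct (y.1 i) := by
      intro i
      have := sch_ct 1 A (fun j i _ => by rw [one_smul]; exact (hA _).symm) x y hxy i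
      rw [one_mul] at this
      exact_mod_cast this
    exact hne (Subtype.ext (tab_ct_inj x y h1))
  have hstep : ∀ (x y : Tab ⊥ lam.1 n) (i : ℕ) (h : i + 1 < n), y.1 = x.1 ∘ sw i h →
      A x x = A y y := by
    intro x y i h hy
    have hne : y ≠ x := by
      intro hc
      rw [hc] at hy
      exact comp_sw_ne i h x.1 x.2.1 hy.symm
    have hM : yM ⊥ lam.1 n i h x y = Real.sqrt (1 - yd x.1 i h ^ 2) :=
      YMBaux.yM_off i h x y hne hy
    have hpos : 0 < yM ⊥ lam.1 n i h x y := by
      rw [hM]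
      apply Real.sqrt_pos.2
      have := yd_sq_lt_one x i h (hy ▸ y.2)
      linarith
    have hc := hA (sw i h)
    rw [rep_sw] at hc
    have hc2 := congrFun (congrFun hc x) y
    rw [Matrix.mul_apply, Matrix.mul_apply] at hc2
    rw [Finset.sum_eq_single x (fun z _ hz => by rw [hoff x z (Ne.symm hz), zero_mul])
      (fun hx => absurd (Finset.mem_univ _) hx)] at hc2
    rw [Finset.sum_eq_single y (fun z _ hz => by rw [hoff z y hz, mul_zero])
      (fun hx => absurd (Finset.mem_univ _) hx)] at hc2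
    rw [mul_comm (A x x)] at hc2
    exact mul_left_cancel₀ hpos.ne' hc2
  have hall : ∀ x y : Tab ⊥ lam.1 n, A x x = A y y := by
    intro x y
    have := tab_connected x y
    induction this with
    | refl => rfl
    | tail _ hbc ih =>
      obtain ⟨i, h, hi⟩ := hbc
      rw [ih]
      exact hstep _ _ i h hi
  obtain ⟨x0⟩ := tab_nonempty lam
  refine ⟨A x0 x0, ?_⟩
  ext x y
  rw [Matrix.smul_apply, smul_eq_mul, Matrix.one_apply]
  by_cases hxy : x = y
  · subst hxy
    rw [if_pos rfl, mul_one]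
    exact hall x x0
  · rw [if_neg hxy, mul_zero]
    exact hoff x y hxy

/-- transposed standard filling -/
private theorem sch_isTab_tr {lam : YoungDiagram} {n : ℕ} (x : Tab ⊥ lam n) :
    IsTab ⊥ lam.transpose n (fun i => (x.1 i).swap) := by
  refine ⟨Prod.swap_injective.comp x.2.1, fun i => YoungDiagram.notMem_bot _, ?_, ?_⟩
  · intro c
    rw [YoungDiagram.mem_transpose, x.2.2.2.1 c.swap]
    constructor
    · rintro (hc | ⟨i, hi⟩)
      · exact absurd hc (YoungDiagram.notMem_bot _)
      · right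
        refine ⟨i, ?_⟩
        show (x.1 i).swap = c
        rw [hi, Prod.swap_swap]
    · rintro (hc | ⟨i, hi⟩)
      · exact absurd hc (YoungDiagram.notMem_bot _)
      · right
        refine ⟨i, ?_⟩
        have hi' : (x.1 i).swap = c := hi
        rw [← hi', Prod.swap_swap]
  · intro i c hc
    have hc' : c.swap ≤ x.1 i := by
      have h1 : c.1 ≤ ((x.1 i).swap).1 := hc.1
      have h2 : c.2 ≤ ((x.1 i).swap).2 := hc.2
      exact Prod.mk_le_mk.2 ⟨h2, h1⟩
    rcases x.2.2.2.2 i c.swap hc' with h1 | ⟨j, hj, hjc⟩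
    · exact absurd h1 (YoungDiagram.notMem_bot _)
    · right
      refine ⟨j, hj, ?_⟩
      show (x.1 j).swap = c
      rw [hjc, Prod.swap_swap]

private theorem sch_ct_swap (c : ℕ × ℕ) : ct c.swap = - ct c := by
  unfold ct
  rw [Prod.fst_swap, Prod.snd_swap]
  ring

/-- if `lam` is not self-conjugate, the restriction to even permutations has scalar commutant. -/
theorem schur_alt {n : ℕ} (lam : Y n) (hlam : lam.tr ≠ lam)
    (A : Matrix (Tab ⊥ lam.1 n) (Tab ⊥ lam.1 n) ℝ)
    (hA : ∀ σ, Perm.sign σ = 1 → A * rep ⊥ lam.1 n σ = rep ⊥ lam.1 n σ * A) :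
    ∃ c : ℝ, A = c • (1 : Matrix (Tab ⊥ lam.1 n) (Tab ⊥ lam.1 n) ℝ) := by
  rcases Nat.lt_or_ge n 2 with hn | hn
  · apply schur_scalar lam A
    intro σ
    apply hA
    have : σ = 1 := by
      have hs : Subsingleton (Fin n) := by
        constructor
        intro a b
        apply Fin.ext
        have := a.isLt
        have := b.isLt
        omega
      exact Subsingleton.elim _ _
    rw [this, Perm.sign_one]
  · have h0 : 0 + 1 < n := by omega
    set t : Perm (Fin n) := sw 0 h0 with ht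
    have htt : t * t = 1 := by
      rw [ht]; unfold sw; exact swap_mul_self _ _
    have hts : Perm.sign t = -1 := by
      rw [ht]; unfold sw
      apply Perm.sign_swap
      intro hc
      have := congrArg Fin.val hc
      simp at this
    set s := rep ⊥ lam.1 n t with hs
    have hss : s * s = 1 := by
      rw [hs, ← map_mul, htt, map_one]
    -- conjugation by `s`
    have hconj : ∀ σ, Perm.sign σ = 1 →
        (s * A * s) * rep ⊥ lam.1 n σ = rep ⊥ lam.1 n σ * (s * A * s) := by
      intro σ hσ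
      have h1 : s * rep ⊥ lam.1 n σ = rep ⊥ lam.1 n (t * σ * t) * s := by
        rw [hs, ← map_mul, ← map_mul, mul_assoc (t * σ) t t, htt, mul_one]
      have h2 : rep ⊥ lam.1 n σ * s = s * rep ⊥ lam.1 n (t * σ * t) := by
        rw [hs, ← map_mul, ← map_mul, ← mul_assoc t (t * σ) t, ← mul_assoc t t σ, htt, one_mul]
      have h3 : Perm.sign (t * σ * t) = 1 := by
        rw [Perm.sign_mul, Perm.sign_mul, hts, hσ]
        decide
      calc (s * A * s) * rep ⊥ lam.1 n σ = s * A * (s * rep ⊥ lam.1 n σ) := by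
            rw [mul_assoc]
        _ = s * (A * rep ⊥ lam.1 n (t * σ * t)) * s := by
            rw [h1]; simp only [mul_assoc]
        _ = (s * rep ⊥ lam.1 n (t * σ * t)) * A * s := by
            rw [hA _ h3]; simp only [mul_assoc]
        _ = rep ⊥ lam.1 n σ * (s * A * s) := by
            rw [← h2]; simp only [mul_assoc]
    -- the two parts
    have hodd : ∀ (e : ℝ) (B : Matrix (Tab ⊥ lam.1 n) (Tab ⊥ lam.1 n) ℝ),
        (∀ σ, Perm.sign σ = 1 → B * rep ⊥ lam.1 n σ = rep ⊥ lam.1 n σ * B) →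
        B * s = e • (s * B) → ∀ σ, Perm.sign σ = -1 →
        B * rep ⊥ lam.1 n σ = e • (rep ⊥ lam.1 n σ * B) := by
      intro e B hB hBs σ hσ
      have h1 : σ = t * (t * σ) := by rw [← mul_assoc, htt, one_mul]
      have h2 : Perm.sign (t * σ) = 1 := by
        rw [Perm.sign_mul, hts, hσ]
        decide
      rw [h1, map_mul, ← hs, ← mul_assoc, hBs, smul_mul_assoc, mul_assoc, hB _ h2, ← mul_assoc]
    have hAm : A - s * A * s = 0 := by
      ext x y
      rw [Matrix.zero_apply]
      by_contra hxy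
      have hcomm : (A - s * A * s) * s = (-1 : ℝ) • (s * (A - s * A * s)) := by
        rw [sub_mul, mul_sub, neg_one_smul, mul_assoc (s * A) s s, hss, mul_one]
        rw [← mul_assoc s (s * A) s, ← mul_assoc s s A, hss, one_mul]
        abel
      have hB : ∀ σ, Perm.sign σ = 1 →
          (A - s * A * s) * rep ⊥ lam.1 n σ = rep ⊥ lam.1 n σ * (A - s * A * s) := by
        intro σ hσ
        rw [sub_mul, mul_sub, hA σ hσ, hconj σ hσ]
      have h1 := sch_ct (-1) (A - s * A * s) (fun j i hji => by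
        have hsg : Perm.sign (swap j i) = -1 := Perm.sign_swap hji.ne
        have := hodd (-1) _ hB hcomm _ hsg
        rw [this, smul_smul]
        norm_num) x y hxy
      have h2 : ∀ i, ct ((⟨_, sch_isTab_tr x⟩ : Tab ⊥ lam.1.transpose n).1 i) = ct (y.1 i) := by
        intro i
        show ct (x.1 i).swap = ct (y.1 i)
        rw [sch_ct_swap]
        have h3 := h1 i
        have h4 : ((-(ct (x.1 i)) : ℤ) : ℝ) = ((ct (y.1 i) : ℤ) : ℝ) := by
          rw [Int.cast_neg, h3]
          ring
        exact_mod_cast h4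
      have h5 := tab_shape_eq _ _ (tab_ct_inj _ y h2)
      exact hlam (Subtype.ext h5)
    have hAeq : s * A * s = A := (sub_eq_zero.1 hAm).symm
    apply schur_scalar lam A
    intro σ
    rcases Int.units_eq_one_or (Perm.sign σ) with hσ | hσ
    · exact hA σ hσ
    · have hcomm : A * s = (1 : ℝ) • (s * A) := by
        rw [one_smul]
        conv_lhs => rw [← hAeq]
        rw [mul_assoc (s * A) s s, hss, mul_one]
      have := hodd 1 A hA hcomm σ hσ
      rwa [one_smul] at this

end Pool.MP322
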