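import Pool.Agent.Lib.MP_322c5f_al.J
import Pool.Agent.Lib.MP_322c5f_al.Schur

/-! job SQ-33: partial traces and the commutant of `S_m`. -/

set_option autoImplicit false

open Equiv Finset

namespace Pool.MP322

private theorem j2_glueC {gam lam : YoungDiagram} {m k : ℕ} (u : Tab ⊥ gam m)
    (t : Tab gam lam k) : glueC (rfl : m + k = m + k) u t = glue u t := rfl

private theorem j2_glue_inj {gam lam : YoungDiagram} {m k : ℕ} (t : Tab gam lam k) :
    Function.Injective (fun v : Tab ⊥ gam m => glue v t) := by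
  intro a b hab
  apply Subtype.ext
  funext j
  have h1 := congrFun (congrArg Subtype.val hab) (Fin.castAdd k j)
  simp only [glue, Fin.append_left] at h1
  exact h1

private theorem j2_tail {gam lam : YoungDiagram} {m k : ℕ} (t : Tab gam lam k)
    (z : Tab ⊥ lam (m + k)) (u' : Tab ⊥ gam m)
    (hcon : z.1 ∘ Fin.natAdd m = (glue u' t).1 ∘ Fin.natAdd m) :
    z ∈ Set.range (fun v : Tab ⊥ gam m => glue v t) := by
  obtain ⟨gam', v, s, rfl⟩ := exists_glue z
  have e1 : s.1 = t.1 := by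
    funext j
    have := congrFun hcon j
    simp only [Function.comp_apply, glue, Fin.append_right] at this
    exact this
  have e2 : gam'.1 = gam := shape_of_tail s t e1
  obtain ⟨g, hg⟩ := gam'
  subst e2
  refine ⟨v, ?_⟩
  have e3 : s = t := Subtype.ext e1
  rw [e3]

private theorem j2_left {gam lam : YoungDiagram} {m k : ℕ}
    (X : Matrix (Tab ⊥ lam (m + k)) (Tab ⊥ lam (m + k)) ℝ) (σ : Perm (Fin m))
    (u : Tab ⊥ gam m) (t : Tab gam lam k) (y : Tab ⊥ lam (m + k)) :
    (rep ⊥ lam (m + k) (iL m k σ) * X) (glue u t) y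
      = ∑ v : Tab ⊥ gam m, rep ⊥ gam m σ u v * X (glue v t) y := by
  rw [Matrix.mul_apply]
  symm
  refine Fintype.sum_of_injective (fun v : Tab ⊥ gam m => glue v t) (j2_glue_inj t) _ _ ?_ ?_
  · intro z hz
    rw [rep_L_ne (glue u t) z ?_ σ, zero_mul]
    intro hcon
    exact hz (j2_tail t z u hcon.symm)
  · intro v
    rw [rep_L_same u v t σ]

private theorem j2_right {gam lam : YoungDiagram} {m k : ℕ}
    (X : Matrix (Tab ⊥ lam (m + k)) (Tab ⊥ lam (m + k)) ℝ) (σ : Perm (Fin m))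
    (u : Tab ⊥ gam m) (t : Tab gam lam k) (x : Tab ⊥ lam (m + k)) :
    (X * rep ⊥ lam (m + k) (iL m k σ)) x (glue u t)
      = ∑ v : Tab ⊥ gam m, X x (glue v t) * rep ⊥ gam m σ v u := by
  rw [Matrix.mul_apply]
  symm
  refine Fintype.sum_of_injective (fun v : Tab ⊥ gam m => glue v t) (j2_glue_inj t) _ _ ?_ ?_
  · intro z hz
    rw [rep_L_ne z (glue u t) ?_ σ, mul_zero]
    intro hcon
    exact hz (j2_tail t z u hcon)
  · intro v
    rw [rep_L_same v u t σ]

/-- the partial trace is invariant under conjugation by permutations of the first letters. -/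
theorem ptr_conj {gam lam : YoungDiagram} {m k n : ℕ} (h : m + k = n) (hmn : m ≤ n)
    (X : Matrix (Tab ⊥ lam n) (Tab ⊥ lam n) ℝ) (σ : Perm (Fin m)) :
    ptr (gam := gam) h (rep ⊥ lam n (pL hmn σ) * X * rep ⊥ lam n (pL hmn σ)⁻¹) =
      ptr (gam := gam) h X := by
  subst h
  have hp : pL hmn = iL m k := pL_iL m k
  rw [hp, ← map_inv]
  ext t t'
  unfold ptr
  simp only [j2_glueC]
  set M : Matrix (Tab ⊥ gam m) (Tab ⊥ gam m) ℝ :=
    fun v v' => X (glue v t) (glue v' t') with hM
  have h1 : ∀ u : Tab ⊥ gam m,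
      (rep ⊥ lam (m + k) (iL m k σ) * X * rep ⊥ lam (m + k) (iL m k σ⁻¹)) (glue u t) (glue u t')
        = (rep ⊥ gam m σ * M * rep ⊥ gam m σ⁻¹) u u := by
    intro u
    rw [j2_right, Matrix.mul_apply]
    apply Finset.sum_congr rfl
    intro v _
    rw [j2_left, Matrix.mul_apply]
  have h2 : ∑ u : Tab ⊥ gam m,
      (rep ⊥ lam (m + k) (iL m k σ) * X * rep ⊥ lam (m + k) (iL m k σ⁻¹)) (glue u t) (glue u t')
        = Matrix.trace (rep ⊥ gam m σ * M * rep ⊥ gam m σ⁻¹) := by
    rw [Matrix.trace]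
    apply Finset.sum_congr rfl
    intro u _
    rw [h1 u, Matrix.diag_apply]
  rw [h2, Matrix.trace_mul_comm, ← Matrix.mul_assoc, ← map_mul, inv_mul_cancel, map_one,
    Matrix.one_mul]
  rfl

/-- an element of the commutant of `S_m` with vanishing partial traces is zero. -/
theorem comm_zero {lam : YoungDiagram} {m k n : ℕ} (h : m + k = n) (hmn : m ≤ n)
    (X : Matrix (Tab ⊥ lam n) (Tab ⊥ lam n) ℝ)
    (hX : ∀ σ : Perm (Fin m), rep ⊥ lam n (pL hmn σ) * X = X * rep ⊥ lam n (pL hmn σ))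
    (h0 : ∀ gam : Y m, ptr (gam := gam.1) h X = 0) : X = 0 := by
  subst h
  have hp : pL hmn = iL m k := pL_iL m k
  rw [hp] at hX
  ext x y
  obtain ⟨gam, u, t, rfl⟩ := exists_glue x
  obtain ⟨gam', u', t', rfl⟩ := exists_glue y
  set M : Matrix (Tab ⊥ gam.1 m) (Tab ⊥ gam'.1 m) ℝ :=
    fun v v' => X (glue v t) (glue v' t') with hM
  have hcomm : ∀ σ : Perm (Fin m), rep ⊥ gam.1 m σ * M = M * rep ⊥ gam'.1 m σ := by
    intro σ
    ext v v'
    have h1 := congrFun (congrFun (hX σ) (glue v t)) (glue v' t')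
    rw [j2_left, j2_right] at h1
    rw [Matrix.mul_apply, Matrix.mul_apply]
    exact h1
  have hMz : M = 0 := by
    by_cases hg : gam = gam'
    · subst hg
      obtain ⟨c, hc⟩ := schur_scalar gam M (fun σ => (hcomm σ).symm)
      have h1 : ptr (gam := gam.1) rfl X t t' = 0 := by
        rw [h0 gam]; rfl
      have h2 : ptr (gam := gam.1) rfl X t t' = Matrix.trace M := rfl
      rw [h2, hc, Matrix.trace_smul, Matrix.trace_one, smul_eq_mul] at h1
      have h3 : (0 : ℝ) < (Fintype.card (Tab ⊥ gam.1 m) : ℝ) := fd_pos gam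
      have h4 : c = 0 := by
        rcases mul_eq_zero.1 h1 with h5 | h5
        · exact h5
        · exact absurd h5 h3.ne'
      rw [hc, h4, zero_smul]
    · exact schur_zero gam gam' hg M hcomm
  have h1 : M u u' = 0 := by rw [hMz]; rfl
  rw [Matrix.zero_apply]
  exact h1

end Pool.MP322
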