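import Pool.Agent.Lib.MP_322c5f_al.Cons
import Pool.Agent.Lib.MP_322c5f_al.J2

/-! job SQ-35: partial traces over `m+1` cells. -/

set_option autoImplicit false

open Equiv Finset

namespace Pool.MP322

noncomputable instance instFintypeDown {m : ℕ} (bet : Y (m + 1)) :
    Fintype {alp : Y m // alp.1 ≤ bet.1} := Fintype.ofFinite _

private theorem cn2_mem {n : ℕ} {rho : YoungDiagram} (y : Tab ⊥ rho n) (c : ℕ × ℕ) :
    c ∈ rho ↔ ∃ i, y.1 i = c := by
  rw [y.2.2.2.1 c]
  constructor
  · rintro (h | h)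
    · exact absurd h (by simp)
    · exact h
  · exact Or.inr

private theorem cn2_snoc {n : ℕ} (lam : Y (n + 1)) (rho : Y n) (y : Tab ⊥ rho.1 n)
    (c : ℕ × ℕ) (hc : c ∉ rho.1) (hl : ∀ d, d ∈ lam.1 ↔ d ∈ rho.1 ∨ d = c) :
    IsTab ⊥ lam.1 (n + 1) (Fin.snoc (α := fun _ => ℕ × ℕ) y.1 c) := by
  have hmem : ∀ d, d ∈ lam.1 ↔ ∃ i, (Fin.snoc (α := fun _ => ℕ × ℕ) y.1 c) i = d := by
    intro d
    rw [hl d, cn2_mem y d]
    constructor
    · rintro (⟨i, hi⟩ | rfl)
      · exact ⟨i.castSucc, by rw [Fin.snoc_castSucc]; exact hi⟩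
      · exact ⟨Fin.last n, by rw [Fin.snoc_last]⟩
    · rintro ⟨i, hi⟩
      induction i using Fin.lastCases with
      | last =>
        rw [Fin.snoc_last] at hi
        exact Or.inr hi.symm
      | cast i =>
        rw [Fin.snoc_castSucc] at hi
        exact Or.inl ⟨i, hi⟩
  refine ⟨?_, fun i => by simp, fun d => ?_, fun i d hd => Or.inr ?_⟩
  · intro i j hij
    induction i using Fin.lastCases with
    | last =>
      induction j using Fin.lastCases with
      | last => rfl
      | cast j =>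
        exfalso
        rw [Fin.snoc_last, Fin.snoc_castSucc] at hij
        exact hc ((cn2_mem y c).2 ⟨j, hij.symm⟩)
    | cast i =>
      induction j using Fin.lastCases with
      | last =>
        exfalso
        rw [Fin.snoc_last, Fin.snoc_castSucc] at hij
        exact hc ((cn2_mem y c).2 ⟨i, hij⟩)
      | cast j =>
        rw [Fin.snoc_castSucc, Fin.snoc_castSucc] at hij
        rw [y.2.1 hij]
  · rw [hmem d]
    constructor
    · exact Or.inr
    · rintro (h | h)
      · exact absurd h (by simp)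
      · exact h
  · induction i using Fin.lastCases with
    | last =>
      rw [Fin.snoc_last] at hd
      have hdl : d ∈ lam.1 :=
        lam.1.isLowerSet hd ((YoungDiagram.mem_cells _).2 ((hl c).2 (Or.inr rfl)))
      obtain ⟨j, hj⟩ := (hmem d).1 hdl
      exact ⟨j, Fin.le_last j, hj⟩
    | cast i =>
      rw [Fin.snoc_castSucc] at hd
      rcases y.2.2.2.2 i d hd with h | ⟨j, hj, hjd⟩
      · exact absurd h (by simp)
      · exact ⟨j.castSucc, Fin.castSucc_le_castSucc_iff.2 hj, by rw [Fin.snoc_castSucc]; exact hjd⟩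

/-- the map of the bijection -/
private noncomputable def cn2_map {n : ℕ} (lam : Y (n + 1)) :
    (Σ rho : {rho : Y n // rho.1 ≤ lam.1}, Tab ⊥ rho.1.1 n) → Tab ⊥ lam.1 (n + 1) := fun p =>
  ⟨Fin.snoc (α := fun _ => ℕ × ℕ) p.2.1 (ncell p.1.1 lam p.1.2),
    cn2_snoc lam p.1.1 p.2 _ (ncell_spec p.1.1 lam p.1.2).1
      (ncell_spec p.1.1 lam p.1.2).2.2⟩

private theorem cn2_inj {n : ℕ} (lam : Y (n + 1)) : Function.Injective (cn2_map lam) := by
  rintro ⟨⟨rho, h⟩, y⟩ ⟨⟨rho', h'⟩, y'⟩ he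
  have h1 : (Fin.snoc (α := fun _ => ℕ × ℕ) y.1 (ncell rho lam h) : Fin (n + 1) → ℕ × ℕ) =
      Fin.snoc (α := fun _ => ℕ × ℕ) y'.1 (ncell rho' lam h') := congrArg Subtype.val he
  have h2 : y.1 = y'.1 := by
    funext i
    have := congrFun h1 i.castSucc
    rwa [Fin.snoc_castSucc, Fin.snoc_castSucc] at this
  have h3 : rho = rho' := by
    apply Subtype.ext
    apply YoungDiagram.ext
    ext c
    rw [YoungDiagram.mem_cells, YoungDiagram.mem_cells]
    have e1 := cn2_mem y c
    have e2 := cn2_mem y' c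
    rw [e1, e2, h2]
  subst h3
  have h4 : y = y' := Subtype.ext h2
  rw [h4]

private theorem cn2_surj {n : ℕ} (lam : Y (n + 1)) : Function.Surjective (cn2_map lam) := by
  classical
  intro x
  have hxm : ∀ d, d ∈ lam.1 ↔ ∃ i, x.1 i = d := cn2_mem x
  -- the smaller diagram
  let rho : YoungDiagram :=
    { cells := Finset.univ.image (fun i : Fin n => x.1 i.castSucc)
      isLowerSet := by
        intro a b hab ha
        simp only [Finset.coe_image, Finset.coe_univ, Set.image_univ, Set.mem_range] at ha ⊢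
        obtain ⟨i, rfl⟩ := ha
        rcases x.2.2.2.2 i.castSucc b hab with h | ⟨j, hj, hjb⟩
        · exact absurd h (by simp)
        · have hj2 : j.val < n := by
            have := Fin.le_def.1 hj
            have h2 : i.castSucc.val = i.val := rfl
            omega
          exact ⟨⟨j.val, hj2⟩, by rw [← hjb]; rfl⟩ }
  have hrm : ∀ d, d ∈ rho ↔ ∃ i : Fin n, x.1 i.castSucc = d := by
    intro d
    rw [← YoungDiagram.mem_cells]
    simp [rho]
  have hcard : rho.card = n := by
    show (Finset.univ.image (fun i : Fin n => x.1 i.castSucc)).card = n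
    rw [Finset.card_image_of_injective _ (fun i j hij => Fin.castSucc_injective n (x.2.1 hij)),
      Finset.card_univ, Fintype.card_fin]
  have hle : rho ≤ lam.1 := by
    intro d hd
    have hd' : d ∈ rho := hd
    obtain ⟨i, hi⟩ := (hrm d).1 hd'
    exact (hxm d).2 ⟨_, hi⟩
  have hy : IsTab ⊥ rho n (fun i : Fin n => x.1 i.castSucc) := by
    refine ⟨fun i j hij => Fin.castSucc_injective n (x.2.1 hij), fun i => by simp, fun d => ?_,
      fun i d hd => Or.inr ?_⟩
    · rw [hrm d]
      constructor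
      · exact Or.inr
      · rintro (h | h)
        · exact absurd h (by simp)
        · exact h
    · rcases x.2.2.2.2 i.castSucc d hd with h | ⟨j, hj, hjb⟩
      · exact absurd h (by simp)
      · have hj3 : j.val ≤ i.val := by
          have := Fin.le_def.1 hj
          exact this
        have hj2 : j.val < n := lt_of_le_of_lt hj3 i.2
        exact ⟨⟨j.val, hj2⟩, Fin.le_def.2 hj3, by rw [← hjb]; rfl⟩
  refine ⟨⟨⟨⟨rho, hcard⟩, hle⟩, ⟨_, hy⟩⟩, ?_⟩
  apply Subtype.ext
  funext i
  show (Fin.snoc (α := fun _ => ℕ × ℕ) (fun i : Fin n => x.1 i.castSucc)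
    (ncell ⟨rho, hcard⟩ lam hle)) i = x.1 i
  induction i using Fin.lastCases with
  | cast i => rw [Fin.snoc_castSucc]
  | last =>
    rw [Fin.snoc_last]
    have hspec := ncell_spec ⟨rho, hcard⟩ lam hle
    have h1 : ncell ⟨rho, hcard⟩ lam hle ∈ lam.1 := hspec.2.1
    obtain ⟨j, hj⟩ := (hxm _).1 h1
    induction j using Fin.lastCases with
    | last => exact hj.symm
    | cast j =>
      exfalso
      exact hspec.1 ((hrm _).2 ⟨j, hj⟩)

private theorem cn2_glue {m k n : ℕ} (h1 : m + 1 + k = n) (h2 : m + (k + 1) = n)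
    (bet : Y (m + 1)) {lam : YoungDiagram} (alp : Y m) (h : alp.1 ≤ bet.1)
    (u : Tab ⊥ alp.1 m) (y : Tab bet.1 lam k) :
    glueC h1 (cn2_map bet ⟨⟨alp, h⟩, u⟩) y = glueC h2 u (consY alp bet h y) := by
  apply Subtype.ext
  funext i
  show Fin.append (Fin.snoc (α := fun _ => ℕ × ℕ) u.1 (ncell alp bet h) : Fin (m + 1) → ℕ × ℕ)
      y.1 (Fin.cast h1.symm i) =
    Fin.append u.1 (Fin.cons (ncell alp bet h) y.1 : Fin (k + 1) → ℕ × ℕ) (Fin.cast h2.symm i)
  rcases Nat.lt_trichotomy i.val m with hi | hi | hi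
  · have e1 : Fin.cast h1.symm i = Fin.castAdd k (Fin.castSucc (⟨i.val, hi⟩ : Fin m)) :=
      Fin.ext rfl
    have e2 : Fin.cast h2.symm i = Fin.castAdd (k + 1) (⟨i.val, hi⟩ : Fin m) := Fin.ext rfl
    rw [e1, e2, Fin.append_left, Fin.append_left, Fin.snoc_castSucc]
  · have e1 : Fin.cast h1.symm i = Fin.castAdd k (Fin.last m) := Fin.ext hi
    have e2 : Fin.cast h2.symm i = Fin.natAdd m (0 : Fin (k + 1)) := Fin.ext hi
    rw [e1, e2, Fin.append_left, Fin.append_right, Fin.snoc_last, Fin.cons_zero]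
  · have hk : i.val - (m + 1) < k := by
      have := i.2
      omega
    have e1 : Fin.cast h1.symm i = Fin.natAdd (m + 1) (⟨i.val - (m + 1), hk⟩ : Fin k) := by
      apply Fin.ext
      show i.val = m + 1 + (i.val - (m + 1))
      omega
    have e2 : Fin.cast h2.symm i = Fin.natAdd m (Fin.succ (⟨i.val - (m + 1), hk⟩ : Fin k)) := by
      apply Fin.ext
      show i.val = m + (i.val - (m + 1) + 1)
      omega
    rw [e1, e2, Fin.append_right, Fin.append_right, Fin.cons_succ]

/-- partial trace over `m+1` cells in terms of partial traces over `m` cells. -/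
theorem ptr_succ {m k n : ℕ} (h1 : m + 1 + k = n) (h2 : m + (k + 1) = n) (bet : Y (m + 1))
    {lam : YoungDiagram} (X : Matrix (Tab ⊥ lam n) (Tab ⊥ lam n) ℝ) (y y' : Tab bet.1 lam k) :
    ptr (gam := bet.1) h1 X y y' =
      ∑ alp : {alp : Y m // alp.1 ≤ bet.1},
        ptr (gam := alp.1.1) h2 X (consY alp.1 bet alp.2 y) (consY alp.1 bet alp.2 y') := by
  have hb : Function.Bijective (cn2_map bet) := ⟨cn2_inj bet, cn2_surj bet⟩
  show ∑ w : Tab ⊥ bet.1 (m + 1), X (glueC h1 w y) (glueC h1 w y') = _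
  rw [← hb.sum_comp (fun w => X (glueC h1 w y) (glueC h1 w y')), Fintype.sum_sigma]
  refine Finset.sum_congr rfl (fun alp _ => ?_)
  show ∑ u : Tab ⊥ alp.1.1 m, X (glueC h1 (cn2_map bet ⟨alp, u⟩) y)
      (glueC h1 (cn2_map bet ⟨alp, u⟩) y') =
    ∑ u : Tab ⊥ alp.1.1 m, X (glueC h2 u (consY alp.1 bet alp.2 y))
      (glueC h2 u (consY alp.1 bet alp.2 y'))
  refine Finset.sum_congr rfl (fun u _ => ?_)
  obtain ⟨alp, h⟩ := alp
  rw [cn2_glue h1 h2 bet alp h u y, cn2_glue h1 h2 bet alp h u y']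

end Pool.MP322
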