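import Pool.Agent.Lib.MP_322c5f_al.BranchC

/-! job SQ-16: the number of corners of a Plancherel random diagram. -/

set_option autoImplicit false

open Equiv Finset Nat

namespace Pool.MP322

theorem corner_moment (n : ℕ) :
    ((n + 1)! : ℝ) ≤ ∑ rho : Y n, fd rho ^ 2 * ((mcor rho.1 : ℝ) + 1) ^ 2 := by
  classical
  have h1 : ∀ lam : Y (n + 1), fd lam ^ 2 ≤
      ∑ rho ∈ (Finset.univ : Finset (Y n)).filter (fun rho => rho.1 ≤ lam.1),
        (mcor lam.1 : ℝ) * fd rho ^ 2 := by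
    intro lam
    rw [← Finset.mul_sum]
    have h2 := sq_sum_le_card_mul_sum_sq (α := ℝ)
      (s := (Finset.univ : Finset (Y n)).filter (fun rho => rho.1 ≤ lam.1)) (f := fun rho => fd rho)
    have h3 := card_down lam
    have h4 := fd_succ lam
    rw [h4]
    have h5 : (((Finset.univ : Finset (Y n)).filter (fun rho => rho.1 ≤ lam.1)).card : ℝ) =
        (mcor lam.1 : ℝ) := by
      rw [← h3]
    rw [h5] at h2
    exact h2
  have h2 : ((n + 1)! : ℝ) ≤ ∑ lam : Y (n + 1),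
      ∑ rho ∈ (Finset.univ : Finset (Y n)).filter (fun rho => rho.1 ≤ lam.1),
        (mcor lam.1 : ℝ) * fd rho ^ 2 := by
    rw [← sum_sq (n + 1)]
    exact Finset.sum_le_sum (fun lam _ => h1 lam)
  refine h2.trans ?_
  have h3 : ∑ lam : Y (n + 1),
      ∑ rho ∈ (Finset.univ : Finset (Y n)).filter (fun rho => rho.1 ≤ lam.1),
        (mcor lam.1 : ℝ) * fd rho ^ 2 =
      ∑ rho : Y n,
        ∑ lam ∈ (Finset.univ : Finset (Y (n + 1))).filter (fun lam => rho.1 ≤ lam.1),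
          (mcor lam.1 : ℝ) * fd rho ^ 2 := by
    refine Finset.sum_comm' ?_
    intro lam rho
    simp
  rw [h3]
  refine Finset.sum_le_sum (fun rho _ => ?_)
  have h4 : ∀ lam ∈ (Finset.univ : Finset (Y (n + 1))).filter (fun lam => rho.1 ≤ lam.1),
      (mcor lam.1 : ℝ) * fd rho ^ 2 ≤ ((mcor rho.1 : ℝ) + 1) * fd rho ^ 2 := by
    intro lam hlam
    rw [Finset.mem_filter] at hlam
    apply mul_le_mul_of_nonneg_right _ (sq_nonneg _)
    exact_mod_cast mcor_succ_le rho lam hlam.2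
  refine (Finset.sum_le_sum h4).trans ?_
  rw [Finset.sum_const, nsmul_eq_mul]
  have h5 : (((Finset.univ : Finset (Y (n + 1))).filter (fun lam => rho.1 ≤ lam.1)).card : ℝ) =
      (mcor rho.1 : ℝ) + 1 := by
    have h6 := card_up rho
    have h7 : (((Finset.univ : Finset (Y (n + 1))).filter (fun lam => rho.1 ≤ lam.1)).card : ℝ) =
        ((mcor rho.1 + 1 : ℕ) : ℝ) := by
      rw [← h6]
    rw [h7]
    push_cast
    rfl
  rw [h5]
  apply le_of_eq
  ring

open Classical in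
theorem few_corners : ∃ n0 : ℕ, ∀ n ≥ n0,
    ∑ lam ∈ (Finset.univ : Finset (Y n)).filter
      (fun lam => (mcor lam.1 : ℝ) + 1 < Real.sqrt n / 10), fd lam ^ 2 ≤
      (52 / 100) * (n ! : ℝ) := by
  refine ⟨4000, fun n hn => ?_⟩
  have hnR : (4000 : ℝ) ≤ n := by exact_mod_cast hn
  set P : Y n → Prop := fun lam => (mcor lam.1 : ℝ) + 1 < Real.sqrt n / 10 with hP
  set A := ∑ lam ∈ (Finset.univ : Finset (Y n)).filter P, fd lam ^ 2 with hA
  set B := ∑ lam ∈ (Finset.univ : Finset (Y n)).filter (fun lam => ¬ P lam), fd lam ^ 2 with hB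
  have hAB : A + B = (n ! : ℝ) := by
    rw [hA, hB, Finset.sum_filter_add_sum_filter_not]
    exact sum_sq n
  have hB0 : 0 ≤ B := Finset.sum_nonneg (fun _ _ => sq_nonneg _)
  have hfac : (0 : ℝ) < (n ! : ℝ) := by exact_mod_cast Nat.factorial_pos n
  have hmom := corner_moment n
  rw [← Finset.sum_filter_add_sum_filter_not (Finset.univ : Finset (Y n)) P] at hmom
  have hs0 : 0 ≤ Real.sqrt (2 * n) := Real.sqrt_nonneg _
  have hs : Real.sqrt (2 * n) ≤ n / 40 := by
    rw [Real.sqrt_le_left (by positivity)]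
    nlinarith
  set M : ℝ := 2 * n + Real.sqrt (2 * n) + 1 with hM
  have hmA : ∑ lam ∈ (Finset.univ : Finset (Y n)).filter P,
      fd lam ^ 2 * ((mcor lam.1 : ℝ) + 1) ^ 2 ≤ A * (n / 100) := by
    rw [hA, Finset.sum_mul]
    refine Finset.sum_le_sum (fun lam hlam => ?_)
    rw [Finset.mem_filter] at hlam
    apply mul_le_mul_of_nonneg_left _ (sq_nonneg _)
    have h1 : (mcor lam.1 : ℝ) + 1 < Real.sqrt n / 10 := hlam.2
    have h2 : (0 : ℝ) ≤ (mcor lam.1 : ℝ) + 1 := by positivity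
    have h3 : ((mcor lam.1 : ℝ) + 1) ^ 2 ≤ (Real.sqrt n / 10) ^ 2 :=
      pow_le_pow_left₀ h2 h1.le 2
    have h4 : (Real.sqrt n / 10) ^ 2 = n / 100 := by
      rw [div_pow, Real.sq_sqrt (by positivity)]
      norm_num
    linarith
  have hmB : ∑ lam ∈ (Finset.univ : Finset (Y n)).filter (fun lam => ¬ P lam),
      fd lam ^ 2 * ((mcor lam.1 : ℝ) + 1) ^ 2 ≤ B * M := by
    rw [hB, Finset.sum_mul]
    refine Finset.sum_le_sum (fun lam _ => ?_)
    apply mul_le_mul_of_nonneg_left _ (sq_nonneg _)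
    have h1 : (mcor lam.1 : ℝ) * ((mcor lam.1 : ℝ) + 1) ≤ 2 * n := by
      exact_mod_cast mcor_mul_le lam
    have h2 : (0 : ℝ) ≤ (mcor lam.1 : ℝ) := by positivity
    have h3 : (mcor lam.1 : ℝ) ≤ Real.sqrt (2 * n) := by
      apply Real.le_sqrt_of_sq_le
      nlinarith
    rw [hM]
    nlinarith
  have hfs : ((n + 1)! : ℝ) = ((n : ℝ) + 1) * (n ! : ℝ) := by
    rw [Nat.factorial_succ]
    push_cast
    rfl
  rw [hfs] at hmom
  by_contra hc
  push Not at hc
  have hBlt : B < 48 / 100 * (n ! : ℝ) := by linarith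
  have hMn : 0 ≤ M - n / 100 := by rw [hM]; linarith
  have h1 : ((n : ℝ) + 1) * (n ! : ℝ) ≤ (n ! : ℝ) * (n / 100) + B * (M - n / 100) := by
    have : A = (n ! : ℝ) - B := by linarith
    rw [this] at hmA
    nlinarith
  have h2 : B * (M - n / 100) ≤ 48 / 100 * (n ! : ℝ) * (M - n / 100) :=
    mul_le_mul_of_nonneg_right hBlt.le hMn
  have h3 : ((n : ℝ) + 1) * (n ! : ℝ) ≤ (n ! : ℝ) * (n / 100 + 48 / 100 * (M - n / 100)) := by
    linarith
  have h4 : (n : ℝ) + 1 ≤ n / 100 + 48 / 100 * (M - n / 100) := by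
    have h5 : (n ! : ℝ) * ((n : ℝ) + 1) ≤ (n ! : ℝ) * (n / 100 + 48 / 100 * (M - n / 100)) := by
      linarith
    exact le_of_mul_le_mul_left h5 hfac
  rw [hM] at h4
  linarith

end Pool.MP322
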