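import Mathlib

/-!
# MP_322c5f_al : basic definitions

* `ct` : content (column minus row) of a cell;
* `Tab α β k` : standard fillings of the skew shape `β/α` by `k` cells (the sequence of the cells
  in the order in which they are added to `α`);
* `yM` : the matrices of Young's orthogonal form;
* `Y n` : Young diagrams with `n` cells.
-/

set_option autoImplicit false

open Equiv Finset

namespace Pool.MP322

/-- content of a cell (row, column). -/
def ct (c : ℕ × ℕ) : ℤ := (c.2 : ℤ) - (c.1 : ℤ)

/-- `x` lists the cells of `β` not in `α` in an order such that all the intermediate shapes are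
Young diagrams. -/
def IsTab (α β : YoungDiagram) (k : ℕ) (x : Fin k → ℕ × ℕ) : Prop :=
  Function.Injective x ∧ (∀ i, x i ∉ α) ∧ (∀ c, c ∈ β ↔ (c ∈ α ∨ ∃ i, x i = c)) ∧
    (∀ i, ∀ c, c ≤ x i → (c ∈ α ∨ ∃ j, j ≤ i ∧ x j = c))

/-- standard fillings of the skew shape `β/α`. -/
def Tab (α β : YoungDiagram) (k : ℕ) : Type := {x : Fin k → ℕ × ℕ // IsTab α β k x}

instance (α β : YoungDiagram) (k : ℕ) : Finite (Tab α β k) := by
  have : Function.Injective (fun (x : Tab α β k) (i : Fin k) =>
      (⟨x.1 i, (YoungDiagram.mem_cells _).2 ((x.2.2.2.1 (x.1 i)).2 (Or.inr ⟨i, rfl⟩))⟩ :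
        {c // c ∈ β.cells})) := by
    intro x y h
    apply Subtype.ext
    funext i
    have := congrFun h i
    exact congrArg Subtype.val this
  exact Finite.of_injective _ this

noncomputable instance (α β : YoungDiagram) (k : ℕ) : Fintype (Tab α β k) := Fintype.ofFinite _

noncomputable instance (α β : YoungDiagram) (k : ℕ) : DecidableEq (Tab α β k) :=
  Classical.decEq _

/-- the adjacent transposition `(i, i+1)` of `Fin k`. -/
def sw {k : ℕ} (i : ℕ) (h : i + 1 < k) : Perm (Fin k) := swap ⟨i, by omega⟩ ⟨i + 1, h⟩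

/-- Young's distance coefficient `1/(c_{i+1} - c_i)`. -/
noncomputable def yd {k : ℕ} (x : Fin k → ℕ × ℕ) (i : ℕ) (h : i + 1 < k) : ℝ :=
  1 / ((ct (x ⟨i + 1, h⟩) - ct (x ⟨i, by omega⟩) : ℤ) : ℝ)

/-- The matrix of the adjacent transposition `(i, i+1)` in Young's orthogonal form. -/
noncomputable def yM (α β : YoungDiagram) (k : ℕ) (i : ℕ) (h : i + 1 < k) :
    Matrix (Tab α β k) (Tab α β k) ℝ := fun x y =>
  if y = x then yd x.1 i h
  else if y.1 = x.1 ∘ sw i h then Real.sqrt (1 - yd x.1 i h ^ 2) else 0

/-- Young diagrams with `n` cells. -/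
def Y (n : ℕ) : Type := {lam : YoungDiagram // lam.card = n}

instance (n : ℕ) : Finite (Y n) := by
  classical
  have key : ∀ lam : Y n, lam.1.cells ⊆ Finset.range n ×ˢ Finset.range n := by
    intro lam c hc
    have hc' : c ∈ lam.1 := (YoungDiagram.mem_cells _).1 hc
    have hcard : lam.1.cells.card = n := lam.2
    rw [Finset.mem_product, Finset.mem_range, Finset.mem_range]
    constructor
    · by_contra hcon
      push Not at hcon
      have hsub : (Finset.range (c.1 + 1)).image (fun i => (i, 0)) ⊆ lam.1.cells := by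
        intro d hd
        rw [Finset.mem_image] at hd
        obtain ⟨i, hi, rfl⟩ := hd
        rw [Finset.mem_range] at hi
        exact (YoungDiagram.mem_cells _).2 (lam.1.up_left_mem (by omega) (Nat.zero_le _) hc')
      have h1 := Finset.card_le_card hsub
      rw [Finset.card_image_of_injective _ (fun a b h => by simpa using h), Finset.card_range,
        hcard] at h1
      omega
    · by_contra hcon
      push Not at hcon
      have hsub : (Finset.range (c.2 + 1)).image (fun i => (0, i)) ⊆ lam.1.cells := by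
        intro d hd
        rw [Finset.mem_image] at hd
        obtain ⟨i, hi, rfl⟩ := hd
        rw [Finset.mem_range] at hi
        exact (YoungDiagram.mem_cells _).2 (lam.1.up_left_mem (Nat.zero_le _) (by omega) hc')
      have h1 := Finset.card_le_card hsub
      rw [Finset.card_image_of_injective _ (fun a b h => by simpa using h), Finset.card_range,
        hcard] at h1
      omega
  have hinj : Function.Injective (fun lam : Y n =>
      (⟨lam.1.cells, Finset.mem_powerset.2 (key lam)⟩ :
        {s // s ∈ (Finset.range n ×ˢ Finset.range n).powerset})) := by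
    intro a b h
    have h' : a.1.cells = b.1.cells := congrArg Subtype.val h
    apply Subtype.ext
    exact YoungDiagram.ext h'
  exact Finite.of_injective _ hinj

noncomputable instance (n : ℕ) : Fintype (Y n) := Fintype.ofFinite _

noncomputable instance (n : ℕ) : DecidableEq (Y n) := Classical.decEq _

/-- removable cells. -/
def corners (lam : YoungDiagram) : Finset (ℕ × ℕ) :=
  lam.cells.filter (fun c => (c.1 + 1, c.2) ∉ lam ∧ (c.1, c.2 + 1) ∉ lam)

/-- number of removable cells. -/
def mcor (lam : YoungDiagram) : ℕ := (corners lam).card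

theorem card_transpose' (lam : YoungDiagram) : lam.transpose.card = lam.card := by
  unfold YoungDiagram.card
  refine Finset.card_bij (fun c _ => c.swap) ?_ ?_ ?_
  · intro c hc
    rw [YoungDiagram.mem_cells] at hc ⊢
    exact YoungDiagram.mem_transpose.1 hc
  · intro a _ b _ h
    exact Prod.swap_injective h
  · intro b hb
    refine ⟨b.swap, ?_, by simp⟩
    rw [YoungDiagram.mem_cells] at hb ⊢
    rw [YoungDiagram.mem_transpose]
    simpa using hb

/-- transposed diagram as an element of `Y n`. -/
def Y.tr {n : ℕ} (lam : Y n) : Y n :=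
  ⟨lam.1.transpose, (card_transpose' lam.1).trans lam.2⟩

/-- the diagram with first row of length `m` above the (truncated) diagram `ν`; when
`ν.rowLen 0 ≤ m` it has `m + ν.card` cells. -/
def addRow (m : ℕ) (nu : YoungDiagram) : YoungDiagram where
  cells := (Finset.range m).image (fun j => (0, j)) ∪
    (nu.cells.filter (fun c => c.2 < m)).image (fun c => (c.1 + 1, c.2))
  isLowerSet := by
    intro a b hab ha
    simp only [Finset.coe_union, Finset.coe_image, Set.mem_union, Set.mem_image,
      Finset.coe_range, Set.mem_Iio, Finset.coe_filter, Set.mem_ofPred_eq] at ha ⊢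
    obtain ⟨hab1, hab2⟩ := Prod.mk_le_mk.1 hab
    rcases ha with ⟨j, hj, rfl⟩ | ⟨c, ⟨hc, hcm⟩, rfl⟩
    · left
      refine ⟨b.2, lt_of_le_of_lt hab2 hj, ?_⟩
      have : b.1 = 0 := Nat.le_zero.1 hab1
      exact Prod.ext this.symm rfl
    · rcases Nat.eq_zero_or_pos b.1 with h0 | h0
      · left
        exact ⟨b.2, lt_of_le_of_lt hab2 hcm, Prod.ext h0.symm rfl⟩
      · right
        refine ⟨(b.1 - 1, b.2), ⟨?_, lt_of_le_of_lt hab2 hcm⟩, ?_⟩
        · rw [YoungDiagram.mem_cells] at hc ⊢
          have hc' : (c.1, c.2) ∈ nu := hc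
          refine nu.up_left_mem ?_ hab2 hc'
          have : b.1 ≤ c.1 + 1 := hab1
          omega
        · exact Prod.ext (by simp; omega) rfl

theorem mem_addRow {m : ℕ} {nu : YoungDiagram} {c : ℕ × ℕ} :
    c ∈ addRow m nu ↔ c.2 < m ∧ (c.1 = 0 ∨ ∃ i, c.1 = i + 1 ∧ (i, c.2) ∈ nu) := by
  rw [← YoungDiagram.mem_cells]
  simp only [addRow, Finset.mem_union, Finset.mem_image, Finset.mem_range, Finset.mem_filter,
    YoungDiagram.mem_cells]
  constructor
  · rintro (⟨j, hj, rfl⟩ | ⟨d, ⟨hd, hdm⟩, rfl⟩)
    · exact ⟨hj, Or.inl rfl⟩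
    · exact ⟨hdm, Or.inr ⟨d.1, rfl, hd⟩⟩
  · rintro ⟨hm, h0 | ⟨i, hi, hmem⟩⟩
    · left; exact ⟨c.2, hm, Prod.ext h0.symm rfl⟩
    · right; exact ⟨(i, c.2), ⟨hmem, hm⟩, Prod.ext hi.symm rfl⟩

/-- permutations of the first `m` letters. -/
noncomputable def iL (m k : ℕ) : Perm (Fin m) →* Perm (Fin (m + k)) :=
  Equiv.Perm.viaEmbeddingHom (Fin.castAddEmb k)

/-- permutations of the last `k` letters. -/
noncomputable def iR (m k : ℕ) : Perm (Fin k) →* Perm (Fin (m + k)) :=
  Equiv.Perm.viaEmbeddingHom (Fin.natAddEmb m)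

end Pool.MP322
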