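import Mathlib

/-! job SQ-52: matrix representations and `FDRep`. -/

set_option autoImplicit false

open CategoryTheory
open scoped CategoryTheory.MonoidalCategory

namespace Pool.MP322

/-- the object of `FDRep` attached to a matrix representation. -/
noncomputable def cV {G : Type} [Group G] {κ : Type} [Fintype κ] [DecidableEq κ]
    (R : G →* Matrix κ κ ℂ) : FDRep ℂ G :=
  FDRep.of (V := κ → ℂ)
    ((Matrix.toLinAlgEquiv' (R := ℂ) (n := κ)).toAlgHom.toRingHom.toMonoidHom.comp R)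

theorem cV_ρ {G : Type} [Group G] {κ : Type} [Fintype κ] [DecidableEq κ]
    (R : G →* Matrix κ κ ℂ) (g : G) : (cV R).ρ g = Matrix.toLin' (R g) := rfl

/-- an equivariant linear map as a morphism. -/
noncomputable def mkH {G : Type} [Group G] {X Y : FDRep ℂ G} (f : X →ₗ[ℂ] Y)
    (h : ∀ g, f ∘ₗ X.ρ g = Y.ρ g ∘ₗ f) : X ⟶ Y where
  hom := FGModuleCat.ofHom f
  comm g := by
    ext x
    exact LinearMap.congr_fun (h g) x

theorem mkH_ne {G : Type} [Group G] {X Y : FDRep ℂ G} (f : X →ₗ[ℂ] Y)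
    (h : ∀ g, f ∘ₗ X.ρ g = Y.ρ g ∘ₗ f) (hf : f ≠ 0) : mkH f h ≠ 0 := by
  intro hc
  apply hf
  have h1 : (mkH f h).hom.hom.hom = (0 : X ⟶ Y).hom.hom.hom := by rw [hc]
  exact h1

/-- the linear map of a morphism. -/
noncomputable def linH {G : Type} [Group G] {X Y : FDRep ℂ G} (f : X ⟶ Y) : X →ₗ[ℂ] Y :=
  f.hom.hom.hom

theorem linH_comm {G : Type} [Group G] {X Y : FDRep ℂ G} (f : X ⟶ Y) (g : G) :
    linH f ∘ₗ X.ρ g = Y.ρ g ∘ₗ linH f := by
  have h1 := f.comm g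
  have h2 := congrArg (fun u => u.hom.hom) h1
  exact h2

theorem linH_inj {G : Type} [Group G] {X Y : FDRep ℂ G} {f g : X ⟶ Y} (h : linH f = linH g) :
    f = g := by
  apply Action.Hom.ext
  ext x
  exact LinearMap.congr_fun h x


theorem fd1_comm {κ : Type} [Fintype κ] [DecidableEq κ] (L : (κ → ℂ) →ₗ[ℂ] (κ → ℂ))
    (M : Matrix κ κ ℂ) (h : L ∘ₗ Matrix.toLin' M = Matrix.toLin' M ∘ₗ L) :
    LinearMap.toMatrix' L * M = M * LinearMap.toMatrix' L := by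
  have h2 := congrArg (fun u : (κ → ℂ) →ₗ[ℂ] (κ → ℂ) => LinearMap.toMatrix' u) h
  simp only [LinearMap.toMatrix'_comp, LinearMap.toMatrix'_toLin'] at h2
  exact h2

theorem fd1_scalar {κ : Type} [Fintype κ] [DecidableEq κ] (L : (κ → ℂ) →ₗ[ℂ] (κ → ℂ))
    (c : ℂ) (h : LinearMap.toMatrix' L = c • (1 : Matrix κ κ ℂ)) : L = c • LinearMap.id := by
  apply LinearMap.toMatrix'.injective
  rw [map_smul, LinearMap.toMatrix'_id]
  exact h

theorem cV_simple {G : Type} [Group G] [Finite G] {κ : Type} [Fintype κ] [DecidableEq κ]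
    [Nonempty κ] (R : G →* Matrix κ κ ℂ)
    (h : ∀ A : Matrix κ κ ℂ, (∀ g, A * R g = R g * A) → ∃ c : ℂ, A = c • (1 : Matrix κ κ ℂ)) :
    Simple (cV R) := by
  have hcard : NeZero (Nat.card G : ℂ) := ⟨by exact_mod_cast Nat.card_pos.ne'⟩
  rw [FDRep.simple_iff_end_is_rank_one]
  have hid : (𝟙 (cV R) : cV R ⟶ cV R) ≠ 0 := by
    intro hc
    have h1 : linH (𝟙 (cV R)) = linH (0 : cV R ⟶ cV R) := by rw [hc]
    have h2 : (LinearMap.id : (κ → ℂ) →ₗ[ℂ] (κ → ℂ)) = 0 := h1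
    obtain ⟨i⟩ := (inferInstance : Nonempty κ)
    have h3 := congrFun (LinearMap.congr_fun h2 (fun _ => 1)) i
    exact one_ne_zero h3
  rw [finrank_eq_one_iff_of_nonzero' _ hid]
  intro w
  have hw : ∀ g, LinearMap.toMatrix' (show (κ → ℂ) →ₗ[ℂ] (κ → ℂ) from linH w) * R g =
      R g * LinearMap.toMatrix' (show (κ → ℂ) →ₗ[ℂ] (κ → ℂ) from linH w) :=
    fun g => fd1_comm _ _ (linH_comm w g)
  obtain ⟨c, hc⟩ := h _ hw
  exact ⟨c, linH_inj (fd1_scalar _ c hc).symm⟩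

theorem simple_matrix {G : Type} [Group G] (W : FDRep ℂ G) (hW : Simple W) :
    ∃ (d : ℕ) (S : G →* Matrix (Fin d) (Fin d) ℂ), 0 < d ∧ Nonempty (W ≅ cV S) := by
  let b := Module.finBasis ℂ W
  refine ⟨Module.finrank ℂ W,
    (LinearMap.toMatrixAlgEquiv b).toAlgHom.toRingHom.toMonoidHom.comp W.ρ, ?_, ?_⟩
  · by_contra hd
    have hd0 : Module.finrank ℂ W = 0 := by omega
    have hsub : Subsingleton W := Module.finrank_zero_iff.1 hd0
    apply id_nonzero W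
    apply linH_inj
    apply LinearMap.ext
    intro x
    exact Subsingleton.elim _ _
  · refine ⟨Action.mkIso (LinearEquiv.toFGModuleCatIso b.equivFun) fun g => ?_⟩
    ext x
    change b.equivFun (W.ρ g x) = Matrix.toLin' (LinearMap.toMatrix b b (W.ρ g)) (b.equivFun x)
    rw [Matrix.toLin'_apply]
    exact (LinearMap.toMatrix_mulVec_repr b b (W.ρ g) x).symm

theorem cV_hom {G : Type} [Group G] {κ : Type} [Fintype κ] [DecidableEq κ] {d : ℕ}
    (S : G →* Matrix (Fin d) (Fin d) ℂ) (R : G →* Matrix κ κ ℂ) (Ψ : Matrix (κ × κ) (Fin d) ℂ)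
    (h0 : Ψ ≠ 0)
    (h : ∀ g, Matrix.kroneckerMap (· * ·) (R g) (R g) * Ψ = Ψ * S g) :
    ∃ f : cV S ⟶ cV R ⊗ cV R, f ≠ 0 := by
  let b := Pi.basisFun ℂ κ
  let B := b.tensorProduct b
  let L : (Fin d → ℂ) →ₗ[ℂ] TensorProduct ℂ (κ → ℂ) (κ → ℂ) :=
    Matrix.toLin (Pi.basisFun ℂ (Fin d)) B Ψ
  have hL : L ≠ 0 := by
    intro hc
    apply h0
    exact (Matrix.toLin (Pi.basisFun ℂ (Fin d)) B).injective (by rw [map_zero]; exact hc)
  have hcomm : ∀ g, L ∘ₗ Matrix.toLin' (S g) =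
      TensorProduct.map (Matrix.toLin' (R g)) (Matrix.toLin' (R g)) ∘ₗ L := by
    intro g
    have h1 : TensorProduct.map (Matrix.toLin' (R g)) (Matrix.toLin' (R g)) =
        Matrix.toLin B B (Matrix.kroneckerMap (· * ·) (R g) (R g)) := by
      rw [Matrix.toLin_kronecker, Matrix.toLin_eq_toLin']
    rw [h1, ← Matrix.toLin_eq_toLin', ← Matrix.toLin_mul, ← Matrix.toLin_mul, h g]
  refine ⟨mkH (X := cV S) (Y := cV R ⊗ cV R) L hcomm, mkH_ne _ _ hL⟩

end Pool.MP322
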