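import Mathlib

/-! Tensor product of matrix representations; direct sum. -/

set_option autoImplicit false

open Matrix

namespace Pool.MP322

/-- tensor product of two matrix representations. -/
noncomputable def kr {G ι κ : Type*} [Monoid G] [Fintype ι] [DecidableEq ι] [Fintype κ]
    [DecidableEq κ] (R : G →* Matrix ι ι ℝ) (S : G →* Matrix κ κ ℝ) :
    G →* Matrix (ι × κ) (ι × κ) ℝ where
  toFun g := Matrix.kroneckerMap (· * ·) (R g) (S g)
  map_one' := by
    rw [map_one, map_one]
    exact Matrix.one_kronecker_one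
  map_mul' g h := by
    rw [map_mul, map_mul]
    exact Matrix.mul_kronecker_mul _ _ _ _

theorem kr_apply {G ι κ : Type*} [Monoid G] [Fintype ι] [DecidableEq ι] [Fintype κ]
    [DecidableEq κ] (R : G →* Matrix ι ι ℝ) (S : G →* Matrix κ κ ℝ) (g : G) (a b : ι × κ) :
    kr R S g a b = R g a.1 b.1 * S g a.2 b.2 := rfl

theorem kr_trace {G ι κ : Type*} [Monoid G] [Fintype ι] [DecidableEq ι] [Fintype κ]
    [DecidableEq κ] (R : G →* Matrix ι ι ℝ) (S : G →* Matrix κ κ ℝ) (g : G) :
    (kr R S g).trace = (R g).trace * (S g).trace :=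
  Matrix.trace_kronecker _ _

end Pool.MP322
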