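import Pool.Agent.Lib.MP_322c5f_al.Orth
import Pool.Agent.Lib.MP_322c5f_al.Kr

/-! job SQ-53: complex representations of `A_n` inside the restrictions of the representations
of `S_n`. -/

set_option autoImplicit false

open Equiv Finset
open scoped ComplexOrder

namespace Pool.MP322

/-- a real matrix as a complex matrix. -/
noncomputable def cM {ι κ : Type*} (M : Matrix ι κ ℝ) : Matrix ι κ ℂ := M.map (fun x => (x : ℂ))

theorem cM_mul {ι κ ι' : Type*} [Fintype κ] (M : Matrix ι κ ℝ) (N : Matrix κ ι' ℝ) :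
    cM (M * N) = cM M * cM N := by
  ext a b
  simp only [cM, Matrix.map_apply, Matrix.mul_apply, Complex.ofReal_sum, Complex.ofReal_mul]

theorem cM_one {ι : Type*} [DecidableEq ι] : cM (1 : Matrix ι ι ℝ) = 1 := by
  ext a b
  simp only [cM, Matrix.map_apply, Matrix.one_apply]
  split_ifs <;> simp

/-- the restriction of a real matrix representation to `A_n`, over the complex numbers. -/
noncomputable def cR {n : ℕ} {ι : Type*} [Fintype ι] [DecidableEq ι]
    (W : Perm (Fin n) →* Matrix ι ι ℝ) : alternatingGroup (Fin n) →* Matrix ι ι ℂ where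
  toFun g := cM (W g)
  map_one' := by
    rw [Subgroup.coe_one, map_one, cM_one]
  map_mul' g h := by
    rw [Subgroup.coe_mul, map_mul, cM_mul]

private lemma fd2_avg {H κ ι : Type*} [Group H] [Fintype H] [Fintype κ] [DecidableEq κ]
    [Fintype ι] [DecidableEq ι] (R : H →* Matrix κ κ ℂ) (T : H →* Matrix ι ι ℂ)
    (E : Matrix κ ι ℂ) (h : H) :
    R h * (∑ g, R g * E * T g⁻¹) = (∑ g, R g * E * T g⁻¹) * T h := by
  rw [Matrix.mul_sum, Matrix.sum_mul]
  refine Fintype.sum_bijective (fun g => h * g) (Group.mulLeft_bijective h) _ _ fun g => ?_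
  have h1 : R h * (R g * E * T g⁻¹) = R h * R g * E * T g⁻¹ := by
    simp only [Matrix.mul_assoc]
  have h2 : R (h * g) * E * T (h * g)⁻¹ * T h = R (h * g) * E * (T (h * g)⁻¹ * T h) := by
    simp only [Matrix.mul_assoc]
  rw [h1, h2, ← map_mul, ← map_mul]
  congr 2
  group

private lemma fd2_entry {α β : Type*} [Fintype α] [Fintype β] [DecidableEq α] [DecidableEq β]
    (A : Matrix α α ℂ) (B : Matrix β β ℂ) (a b : α) (c d : β) :
    (A * Matrix.single b d (1 : ℂ) * B) a c = A a b * B d c := by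
  rw [Matrix.mul_apply, Finset.sum_eq_single d]
  · rw [Matrix.mul_apply, Finset.sum_eq_single b]
    · simp [Matrix.single]
    · intro x _ hx
      simp [Matrix.single, hx.symm]
    · intro h
      exact absurd (Finset.mem_univ _) h
  · intro x _ hx
    rw [Matrix.mul_apply, Finset.sum_eq_zero, zero_mul]
    intro y _
    simp [Matrix.single, hx.symm]
  · intro h
    exact absurd (Finset.mem_univ _) h

theorem exists_hom_alt {n d : ℕ} (hd : 0 < d)
    (S : alternatingGroup (Fin n) →* Matrix (Fin d) (Fin d) ℂ) :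
    ∃ (mu : Y n) (ψ : Matrix (Tab ⊥ mu.1 n) (Fin d) ℂ), ψ ≠ 0 ∧
      ∀ g : alternatingGroup (Fin n), cR (rep ⊥ mu.1 n) g * ψ = ψ * S g := by
  classical
  set i0 : Fin d := ⟨0, hd⟩ with hi0
  set F : Perm (Fin n) → ℝ := fun g =>
    if h : g ∈ alternatingGroup (Fin n) then (S (⟨g, h⟩ : alternatingGroup (Fin n))⁻¹ i0 i0).re
    else 0 with hF
  have hF0 : F ≠ 0 := by
    intro h0
    have h1 := congrFun h0 1
    have h2 : F 1 = 1 := by
      rw [hF]
      simp only
      rw [dif_pos (one_mem _)]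
      have h3 : (⟨1, one_mem _⟩ : alternatingGroup (Fin n)) = 1 := rfl
      rw [h3, inv_one, map_one, Matrix.one_apply_eq, Complex.one_re]
    rw [h2] at h1
    simp at h1
  have hex : ∃ (lam : Y n) (a b : Tab ⊥ lam.1 n), ∑ σ, F σ * rep ⊥ lam.1 n σ a b ≠ 0 := by
    by_contra hcon
    push Not at hcon
    exact hF0 (coeff_complete F hcon)
  obtain ⟨mu, a, b, hab⟩ := hex
  refine ⟨mu, ∑ g : alternatingGroup (Fin n),
    cR (rep ⊥ mu.1 n) g * Matrix.single b i0 (1 : ℂ) * S g⁻¹, fun h0 => ?_, fun g => ?_⟩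
  · apply hab
    have h1 := congrFun (congrFun h0 a) i0
    rw [Matrix.sum_apply, Matrix.zero_apply] at h1
    have h2 := congrArg Complex.re h1
    rw [Complex.re_sum, Complex.zero_re] at h2
    rw [← h2]
    have h3 : ∀ g : alternatingGroup (Fin n),
        ((cR (rep ⊥ mu.1 n) g * Matrix.single b i0 (1 : ℂ) * S g⁻¹) a i0).re =
          F g.1 * rep ⊥ mu.1 n g.1 a b := by
      intro g
      rw [fd2_entry]
      have h4 : cR (rep ⊥ mu.1 n) g a b = ((rep ⊥ mu.1 n g.1 a b : ℝ) : ℂ) := rfl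
      rw [h4, Complex.re_ofReal_mul, hF]
      simp only
      rw [dif_pos g.2, mul_comm]
    rw [Finset.sum_congr rfl fun g _ => h3 g]
    have h5 : ∑ σ ∈ Finset.univ.filter (fun σ => σ ∈ alternatingGroup (Fin n)),
        F σ * rep ⊥ mu.1 n σ a b = ∑ g : alternatingGroup (Fin n),
          F g.1 * rep ⊥ mu.1 n g.1 a b :=
      Finset.sum_subtype (Finset.univ.filter fun σ => σ ∈ alternatingGroup (Fin n))
        (fun x => by simp) (fun σ : Perm (Fin n) => F σ * rep ⊥ mu.1 n σ a b)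
    rw [Finset.sum_filter] at h5
    have h6 : ∀ σ, (if σ ∈ alternatingGroup (Fin n) then F σ * rep ⊥ mu.1 n σ a b else 0) =
        F σ * rep ⊥ mu.1 n σ a b := by
      intro σ
      split_ifs with h
      · rfl
      · rw [hF]
        simp only
        rw [dif_neg h, zero_mul]
    rw [Finset.sum_congr rfl fun σ _ => h6 σ] at h5
    rw [h5]
  · exact fd2_avg _ _ _ _

private lemma fd2_scalar {n : ℕ} (lam : Y n) (P : Matrix (Tab ⊥ lam.1 n) (Tab ⊥ lam.1 n) ℂ)
    (hP : ∀ σ, P * cM (rep ⊥ lam.1 n σ) = cM (rep ⊥ lam.1 n σ) * P) :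
    ∃ c : ℂ, P = c • (1 : Matrix (Tab ⊥ lam.1 n) (Tab ⊥ lam.1 n) ℂ) := by
  obtain ⟨c1, h1⟩ := schur_scalar lam (P.map Complex.re) (by
    intro σ
    ext x y
    have h := congrArg Complex.re (congrFun (congrFun (hP σ) x) y)
    simp only [Matrix.mul_apply, cM, Matrix.map_apply, Complex.re_sum, Complex.re_mul_ofReal,
      Complex.re_ofReal_mul] at h ⊢
    exact h)
  obtain ⟨c2, h2⟩ := schur_scalar lam (P.map Complex.im) (by
    intro σ
    ext x y
    have h := congrArg Complex.im (congrFun (congrFun (hP σ) x) y)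
    simp only [Matrix.mul_apply, cM, Matrix.map_apply, Complex.im_sum, Complex.im_mul_ofReal,
      Complex.im_ofReal_mul] at h ⊢
    exact h)
  refine ⟨⟨c1, c2⟩, ?_⟩
  ext x y
  have h3 := congrFun (congrFun h1 x) y
  have h4 := congrFun (congrFun h2 x) y
  rw [Matrix.smul_apply, smul_eq_mul, Matrix.map_apply] at h3 h4
  rw [Matrix.smul_apply, smul_eq_mul]
  by_cases hxy : x = y
  · subst hxy
    rw [Matrix.one_apply_eq, mul_one] at h3 h4 ⊢
    exact Complex.ext h3 h4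
  · rw [Matrix.one_apply_ne hxy, mul_zero] at h3 h4 ⊢
    exact Complex.ext h3 h4

theorem comp_hom_alt {n d : ℕ} (mu : Y n) {ι : Type*} [Fintype ι] [DecidableEq ι]
    (W : Perm (Fin n) →* Matrix ι ι ℝ) (Φ : Matrix ι (Tab ⊥ mu.1 n) ℝ) (h0 : Φ ≠ 0)
    (hΦ : ∀ σ, Perm.sign σ = 1 → W σ * Φ = Φ * rep ⊥ mu.1 n σ)
    (S : alternatingGroup (Fin n) →* Matrix (Fin d) (Fin d) ℂ)
    (ψ : Matrix (Tab ⊥ mu.1 n) (Fin d) ℂ) (hψ0 : ψ ≠ 0)
    (hψ : ∀ g : alternatingGroup (Fin n), cR (rep ⊥ mu.1 n) g * ψ = ψ * S g) :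
    ∃ Ψ : Matrix ι (Fin d) ℂ, Ψ ≠ 0 ∧ ∀ g : alternatingGroup (Fin n), cR W g * Ψ = Ψ * S g := by
  classical
  have hclaim : ∃ g, cM Φ * cM (rep ⊥ mu.1 n g) * ψ ≠ 0 := by
    by_contra hcon
    push Not at hcon
    set R : Perm (Fin n) →* Matrix (Tab ⊥ mu.1 n) (Tab ⊥ mu.1 n) ℂ :=
      { toFun := fun g => cM (rep ⊥ mu.1 n g)
        map_one' := by rw [map_one, cM_one]
        map_mul' := fun g h => by rw [map_mul, cM_mul] } with hR
    have hRa : ∀ g, R g = cM (rep ⊥ mu.1 n g) := fun g => rfl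
    set Q := ψ * ψ.conjTranspose with hQ
    set P := ∑ g, R g * Q * R g⁻¹ with hP
    have hcomm : ∀ σ, P * R σ = R σ * P := fun σ => (fd2_avg R R Q σ).symm
    obtain ⟨c, hc⟩ := fd2_scalar mu P hcomm
    have htr : P.trace = (Fintype.card (Perm (Fin n)) : ℂ) * Q.trace := by
      rw [hP, Matrix.trace_sum]
      have h : ∀ σ ∈ (Finset.univ : Finset (Perm (Fin n))),
          (R σ * Q * R σ⁻¹).trace = Q.trace := by
        intro σ _
        rw [Matrix.trace_mul_comm, ← Matrix.mul_assoc, ← map_mul, inv_mul_cancel, map_one,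
          Matrix.one_mul]
      rw [Finset.sum_congr rfl h, Finset.sum_const, nsmul_eq_mul, Finset.card_univ]
    have hQtr : Q.trace ≠ 0 := by
      rw [hQ]
      intro h
      exact hψ0 (Matrix.trace_mul_conjTranspose_self_eq_zero_iff.1 h)
    have hPtr : P.trace ≠ 0 := by
      rw [htr]
      exact mul_ne_zero (by exact_mod_cast Fintype.card_ne_zero) hQtr
    have hc0 : c ≠ 0 := by
      rintro rfl
      rw [hc, zero_smul, Matrix.trace_zero] at hPtr
      exact hPtr rfl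
    have hz : cM Φ * P = 0 := by
      rw [hP, Matrix.mul_sum]
      refine Finset.sum_eq_zero fun g _ => ?_
      have : cM Φ * (R g * Q * R g⁻¹) =
          (cM Φ * cM (rep ⊥ mu.1 n g) * ψ) * (ψ.conjTranspose * R g⁻¹) := by
        rw [hQ, hRa g]
        simp only [Matrix.mul_assoc]
      rw [this, hcon g, Matrix.zero_mul]
    rw [hc, Matrix.mul_smul, Matrix.mul_one] at hz
    have hz2 : cM Φ = 0 := by
      rcases smul_eq_zero.1 hz with h | h
      · exact absurd h hc0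
      · exact h
    apply h0
    ext x y
    have h1 := congrFun (congrFun hz2 x) y
    have h2 : ((Φ x y : ℝ) : ℂ) = 0 := h1
    exact_mod_cast h2
  obtain ⟨g, hg⟩ := hclaim
  refine ⟨cM (W g⁻¹) * (cM Φ * cM (rep ⊥ mu.1 n g) * ψ), fun hz => ?_, fun h => ?_⟩
  · apply hg
    calc cM Φ * cM (rep ⊥ mu.1 n g) * ψ
        = (cM (W g) * cM (W g⁻¹)) * (cM Φ * cM (rep ⊥ mu.1 n g) * ψ) := by
          rw [← cM_mul (W g), ← map_mul W, mul_inv_cancel, map_one, cM_one, Matrix.one_mul]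
      _ = cM (W g) * (cM (W g⁻¹) * (cM Φ * cM (rep ⊥ mu.1 n g) * ψ)) := Matrix.mul_assoc _ _ _
      _ = 0 := by rw [hz, Matrix.mul_zero]
  · have hs : Perm.sign (g * h.1 * g⁻¹) = 1 := by
      have h1 : Perm.sign h.1 = 1 := Perm.mem_alternatingGroup.1 h.2
      rw [map_mul, map_mul, h1, mul_one, ← map_mul, mul_inv_cancel, map_one]
    have e1 : cR W h = cM (W h.1) := rfl
    have e2 : cR (rep ⊥ mu.1 n) h = cM (rep ⊥ mu.1 n h.1) := rfl
    have e3 : W h.1 * W g⁻¹ * Φ = W g⁻¹ * Φ * rep ⊥ mu.1 n (g * h.1 * g⁻¹) := by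
      rw [Matrix.mul_assoc (W g⁻¹), ← hΦ _ hs, ← Matrix.mul_assoc, ← map_mul, ← map_mul]
      congr 2
      group
    have e4 : rep ⊥ mu.1 n (g * h.1 * g⁻¹) * rep ⊥ mu.1 n g =
        rep ⊥ mu.1 n g * rep ⊥ mu.1 n h.1 := by
      rw [← map_mul, ← map_mul]
      congr 1
      group
    calc cR W h * (cM (W g⁻¹) * (cM Φ * cM (rep ⊥ mu.1 n g) * ψ))
        = cM (W h.1 * W g⁻¹ * Φ) * cM (rep ⊥ mu.1 n g) * ψ := by
          rw [e1, cM_mul, cM_mul]; simp only [Matrix.mul_assoc]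
      _ = cM (W g⁻¹) * cM Φ * cM (rep ⊥ mu.1 n (g * h.1 * g⁻¹) * rep ⊥ mu.1 n g) * ψ := by
          rw [e3, cM_mul, cM_mul, cM_mul]; simp only [Matrix.mul_assoc]
      _ = cM (W g⁻¹) * (cM Φ * cM (rep ⊥ mu.1 n g) * (cR (rep ⊥ mu.1 n) h * ψ)) := by
          rw [e4, cM_mul, e2]; simp only [Matrix.mul_assoc]
      _ = _ := by rw [hψ h]; simp only [Matrix.mul_assoc]

end Pool.MP322
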