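import Pool.Agent.Lib.MP_322c5f_al.Fd1
import Pool.Agent.Lib.MP_322c5f_al.Fd2
import Pool.Agent.Lib.MP_322c5f_al.Schur

/-! job SQ-54: from real matrices to `FDRep ℂ (alternatingGroup (Fin n))`. -/

set_option autoImplicit false

open Equiv Finset CategoryTheory
open scoped CategoryTheory.MonoidalCategory

namespace Pool.MP322

/-- real and imaginary parts of the commutation relation -/
theorem fd3_split {κ : Type*} [Fintype κ] (A : Matrix κ κ ℂ) (M : Matrix κ κ ℝ)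
    (h : A * cM M = cM M * A) :
    A.map Complex.re * M = M * A.map Complex.re ∧ A.map Complex.im * M = M * A.map Complex.im := by
  constructor
  · ext i j
    have h1 := congrArg Complex.re (congrFun (congrFun h i) j)
    rw [Matrix.mul_apply, Matrix.mul_apply, Complex.re_sum, Complex.re_sum] at h1
    rw [Matrix.mul_apply, Matrix.mul_apply]
    refine Eq.trans ?_ (h1.trans ?_)
    · refine Finset.sum_congr rfl fun x _ => ?_
      simp [cM, Matrix.map_apply]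
    · refine Finset.sum_congr rfl fun x _ => ?_
      simp [cM, Matrix.map_apply]
  · ext i j
    have h1 := congrArg Complex.im (congrFun (congrFun h i) j)
    rw [Matrix.mul_apply, Matrix.mul_apply, Complex.im_sum, Complex.im_sum] at h1
    rw [Matrix.mul_apply, Matrix.mul_apply]
    refine Eq.trans ?_ (h1.trans ?_)
    · refine Finset.sum_congr rfl fun x _ => ?_
      simp [cM, Matrix.map_apply]
    · refine Finset.sum_congr rfl fun x _ => ?_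
      simp [cM, Matrix.map_apply]

theorem fd3_schur {n : ℕ} (lam : Y n) (hlam : lam.tr ≠ lam)
    (A : Matrix (Tab ⊥ lam.1 n) (Tab ⊥ lam.1 n) ℂ)
    (hA : ∀ g : alternatingGroup (Fin n), A * cR (rep ⊥ lam.1 n) g = cR (rep ⊥ lam.1 n) g * A) :
    ∃ c : ℂ, A = c • (1 : Matrix (Tab ⊥ lam.1 n) (Tab ⊥ lam.1 n) ℂ) := by
  have h1 : ∀ σ : Perm (Fin n), Perm.sign σ = 1 →
      A * cM (rep ⊥ lam.1 n σ) = cM (rep ⊥ lam.1 n σ) * A := by
    intro σ hσ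
    exact hA ⟨σ, Perm.mem_alternatingGroup.2 hσ⟩
  obtain ⟨a, ha⟩ := schur_alt lam hlam (A.map Complex.re) fun σ hσ => (fd3_split A _ (h1 σ hσ)).1
  obtain ⟨b, hb⟩ := schur_alt lam hlam (A.map Complex.im) fun σ hσ => (fd3_split A _ (h1 σ hσ)).2
  refine ⟨⟨a, b⟩, ?_⟩
  ext i j
  have ha' := congrFun (congrFun ha i) j
  have hb' := congrFun (congrFun hb i) j
  rw [Matrix.map_apply, Matrix.smul_apply, smul_eq_mul, Matrix.one_apply] at ha' hb'
  rw [Matrix.smul_apply, smul_eq_mul, Matrix.one_apply]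
  apply Complex.ext
  · rw [ha']
    split_ifs <;> simp
  · rw [hb']
    split_ifs <;> simp

theorem fdrep_of_plain {n : ℕ} (lam : Y n) (hlam : lam.tr ≠ lam)
    (h : ∀ mu : Y n, ∃ Φ : Matrix (Tab ⊥ lam.1 n × Tab ⊥ lam.1 n) (Tab ⊥ mu.1 n) ℝ, Φ ≠ 0 ∧
      ∀ σ, Perm.sign σ = 1 →
        kr (rep ⊥ lam.1 n) (rep ⊥ lam.1 n) σ * Φ = Φ * rep ⊥ mu.1 n σ) :
    ∃ V : FDRep ℂ (alternatingGroup (Fin n)), Simple V ∧
      ∀ W : FDRep ℂ (alternatingGroup (Fin n)), Simple W → ∃ f : W ⟶ V ⊗ V, f ≠ 0 := by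
  have hne : Nonempty (Tab ⊥ lam.1 n) := tab_nonempty lam
  refine ⟨cV (cR (rep ⊥ lam.1 n)), cV_simple _ (fd3_schur lam hlam), fun W hW => ?_⟩
  obtain ⟨d, S, hd, ⟨e⟩⟩ := simple_matrix W hW
  obtain ⟨mu, ψ, hψ0, hψ⟩ := exists_hom_alt hd S
  obtain ⟨Φ, hΦ0, hΦ⟩ := h mu
  obtain ⟨Ψ, hΨ0, hΨ⟩ := comp_hom_alt mu _ Φ hΦ0 hΦ S ψ hψ0 hψ
  obtain ⟨f, hf⟩ := cV_hom S (cR (rep ⊥ lam.1 n)) Ψ hΨ0 (by
    intro g
    rw [← hΨ g]
    congr 1
    ext a b
    change ((rep ⊥ lam.1 n g a.1 b.1 : ℝ) : ℂ) * ((rep ⊥ lam.1 n g a.2 b.2 : ℝ) : ℂ) =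
      ((rep ⊥ lam.1 n g a.1 b.1 * rep ⊥ lam.1 n g a.2 b.2 : ℝ) : ℂ)
    push_cast
    rfl)
  refine ⟨e.hom ≫ f, ?_⟩
  intro hc
  apply hf
  have h1 : e.inv ≫ (e.hom ≫ f) = e.inv ≫ 0 := by rw [hc]
  rwa [Iso.inv_hom_id_assoc, Limits.comp_zero] at h1

end Pool.MP322
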