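import Pool.Agent.Lib.MP_322c5f_al.OB
import Pool.Agent.Lib.MP_322c5f_al.OC

/-! job SQ-9: exponential bound for the characters of deep representations. -/

set_option autoImplicit false

open Equiv Finset Nat

namespace Pool.MP322

private theorem od_step {ε : ℝ} (h0 : 0 < ε) (h1 : ε < 1) {n : ℕ} (hn : 100 ≤ ε * n)
    (V : OIrr n) (hV : V.StarBound ((1 - ε) * n)) {N : ℕ} (hN : 1 ≤ N)
    (hN2 : 2 * (N : ℝ) ≤ ε * n / 8) (b b' : Fin (N + 1) ↪ Fin n) (hbb : ∀ i j, b i ≠ b' j) :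
    V.phi b b' ≤ (1 - ε / 4) *
      V.phi (Fin.castSuccEmb.trans b) (Fin.castSuccEmb.trans b') := by
  have hn0 : (0 : ℝ) < n := by
    by_contra h
    push Not at h
    nlinarith
  have hN1 : (1 : ℝ) ≤ N := by exact_mod_cast hN
  have hA0 : 0 ≤ (1 - ε) * n := mul_nonneg (by linarith) hn0.le
  have h := V.phi_succ_le ((1 - ε) * n) hA0 hV b b' hbb
  have hphi : 0 ≤ V.phi (Fin.castSuccEmb.trans b) (Fin.castSuccEmb.trans b') :=
    V.phi_nonneg _ _ fun i j => hbb _ _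
  refine h.trans (mul_le_mul_of_nonneg_right ?_ hphi)
  -- the quotient
  set n' : ℝ := (n : ℝ) - 2 * N with hn'
  have hn'1 : (1 - ε / 8) * n ≤ n' := by rw [hn']; linarith
  have hn'2 : n' ≤ n := by rw [hn']; linarith
  have hn'3 : 2 ≤ (1 - ε / 8) * n := by nlinarith
  have hpos : 0 < n' * (n' - 1) := mul_pos (by linarith) (by linarith)
  have hbig : (1 - ε / 4) * (n : ℝ) ^ 2 - n ≤ n' * (n' - 1) := by
    have e1 : (1 - ε / 8) * n * ((1 - ε / 8) * n - 1) ≤ n' * (n' - 1) := by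
      apply mul_le_mul hn'1 (by linarith) (by linarith) (by linarith)
    have e2 : (1 - ε / 4) * (n : ℝ) ^ 2 - n ≤ (1 - ε / 8) * n * ((1 - ε / 8) * n - 1) := by
      nlinarith [mul_pos h0 h0, mul_pos (mul_pos h0 h0) (mul_pos hn0 hn0), mul_pos h0 hn0]
    linarith
  have hA2 : ((1 - ε) * n) ^ 2 + n' ≤ (1 - ε) * (n : ℝ) ^ 2 + n := by
    have e1 : (1 - ε) ^ 2 ≤ 1 - ε := by nlinarith
    have e2 : ((1 - ε) * n) ^ 2 ≤ (1 - ε) * (n : ℝ) ^ 2 := by
      rw [mul_pow]
      exact mul_le_mul_of_nonneg_right e1 (by positivity)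
    linarith
  have hβ : (((1 - ε) * n) ^ 2 + n') / (n' * (n' - 1)) ≤ 1 - ε / 2 := by
    rw [div_le_iff₀ hpos]
    have e1 : (1 - ε / 2) * ((1 - ε / 4) * (n : ℝ) ^ 2 - n) ≤ (1 - ε / 2) * (n' * (n' - 1)) :=
      mul_le_mul_of_nonneg_left hbig (by linarith)
    have e2 : (1 - ε) * (n : ℝ) ^ 2 + n ≤ (1 - ε / 2) * ((1 - ε / 4) * (n : ℝ) ^ 2 - n) := by
      have e3 : (1 - ε / 2) * ((1 - ε / 4) * (n : ℝ) ^ 2 - n) - ((1 - ε) * (n : ℝ) ^ 2 + n) =
          n * ((ε * n) / 4 + ε * (ε * n) / 8 - 2 + ε / 2) := by ring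
      have e4 : 0 ≤ n * ((ε * n) / 4 + ε * (ε * n) / 8 - 2 + ε / 2) := by
        apply mul_nonneg hn0.le
        have : 0 ≤ ε * (ε * n) := by positivity
        linarith
      linarith
    linarith
  rw [div_le_iff₀ (by positivity)]
  calc 1 + (N : ℝ) * ((((1 - ε) * n) ^ 2 + n') / (n' * (n' - 1)))
      ≤ 1 + N * (1 - ε / 2) := by
        have := mul_le_mul_of_nonneg_left hβ (by positivity : (0 : ℝ) ≤ N)
        linarith
    _ ≤ (1 - ε / 4) * (N + 1) := by nlinarith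

private theorem od_ind {ε : ℝ} (h0 : 0 < ε) (h1 : ε < 1) {n : ℕ} (hn : 100 ≤ ε * n)
    (V : OIrr n) (hV : V.StarBound ((1 - ε) * n)) (M : ℕ) :
    2 * (M : ℝ) ≤ ε * n / 8 → ∀ b b' : Fin (M + 1) ↪ Fin n, (∀ i j, b i ≠ b' j) →
    V.phi b b' ≤ (1 - ε / 4) ^ M := by
  induction M with
  | zero =>
    intro _ b b' _
    rw [pow_zero]
    exact V.phi_le_one b b'
  | succ M ih =>
    intro hM b b' hbb
    have h2 : 2 * (M : ℝ) ≤ ε * n / 8 := by push_cast at hM; linarith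
    have h3 := ih h2 (Fin.castSuccEmb.trans b) (Fin.castSuccEmb.trans b') fun i j => hbb _ _
    have h4 := od_step h0 h1 hn V hV (N := M + 1) (by omega) hM b b' hbb
    calc V.phi b b' ≤ _ := h4
      _ ≤ (1 - ε / 4) * (1 - ε / 4) ^ M := mul_le_mul_of_nonneg_left h3 (by linarith)
      _ = (1 - ε / 4) ^ (M + 1) := (_root_.pow_succ' _ _).symm

theorem deep_bound (ε : ℝ) (h0 : 0 < ε) (h1 : ε < 1) :
    ∃ C c : ℝ, 0 < C ∧ 0 < c ∧ ∃ n0 : ℕ, ∀ n ≥ n0, ∀ V : OIrr n,
      V.StarBound ((1 - ε) * n) → ∀ σ : Perm (Fin n),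
        |V.r σ| ≤ C * Real.exp (-(c * (σ.support.card : ℝ))) := by
  refine ⟨2, ε ^ 2 / 128, by norm_num, by positivity, ⌈100 / ε⌉₊, fun n hn V hV σ => ?_⟩
  have hn1 : 100 ≤ ε * n := by
    have e1 : 100 / ε ≤ n := (Nat.le_ceil _).trans (by exact_mod_cast hn)
    rw [div_le_iff₀ h0] at e1
    linarith
  set s : ℕ := σ.support.card with hs
  have hsn : (s : ℝ) ≤ n := by
    have : s ≤ n := by
      rw [hs]
      exact (Finset.card_le_univ _).trans (by rw [Fintype.card_fin])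
    exact_mod_cast this
  have hs0 : (0 : ℝ) ≤ s := Nat.cast_nonneg s
  set N : ℕ := min (s / 3) ⌊ε * n / 16⌋₊ with hN
  rcases Nat.eq_zero_or_pos N with hN0 | hN0
  · have e1 : s < 3 := by
      by_contra hcon
      push Not at hcon
      have e2 : 1 ≤ s / 3 := by omega
      have e3 : 1 ≤ ⌊ε * n / 16⌋₊ := by
        rw [Nat.one_le_floor_iff]
        linarith
      have : 1 ≤ N := le_min e2 e3
      omega
    have e2 : (s : ℝ) ≤ 2 := by
      have : s ≤ 2 := by omega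
      exact_mod_cast this
    have e3 : ε ^ 2 / 128 * (s : ℝ) ≤ 1 / 2 := by
      have : ε ^ 2 ≤ 1 := by nlinarith
      nlinarith
    have e4 := Real.add_one_le_exp (-(ε ^ 2 / 128 * (s : ℝ)))
    have e5 := V.abs_r_le σ
    linarith
  · obtain ⟨M, hM⟩ : ∃ M, N = M + 1 := ⟨N - 1, by omega⟩
    have hN3 : 3 * N ≤ s := by
      have : N ≤ s / 3 := min_le_left _ _
      omega
    have hNf : (N : ℝ) ≤ ε * n / 16 := by
      have e1 : N ≤ ⌊ε * n / 16⌋₊ := min_le_right _ _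
      exact (Nat.le_floor_iff (by linarith)).1 e1
    have hMN : (N : ℝ) = M + 1 := by rw [hM]; push_cast; ring
    have hM0 : (0 : ℝ) ≤ M := Nat.cast_nonneg M
    rw [hM] at hN3
    obtain ⟨b, hb⟩ := exists_indep σ (M + 1) hN3
    have h2 := V.r_sq_le σ b hb
    have h3 := od_ind h0 h1 hn1 V hV M (by linarith) b (b.trans σ.toEmbedding)
      fun i j => (hb j i).symm
    have h4 : (1 - ε / 4) ^ M ≤ Real.exp (-(ε * M / 8)) ^ 2 := by
      have e1 : 1 - ε / 4 ≤ Real.exp (-(ε / 4)) := by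
        have := Real.add_one_le_exp (-(ε / 4))
        linarith
      calc (1 - ε / 4) ^ M ≤ Real.exp (-(ε / 4)) ^ M := pow_le_pow_left₀ (by linarith) e1 M
        _ = Real.exp (-(ε * M / 8)) ^ 2 := by
            rw [← Real.exp_nat_mul, ← Real.exp_nat_mul]
            congr 1
            push_cast
            ring
    have h5 : |V.r σ| ≤ Real.exp (-(ε * M / 8)) := by
      refine abs_le_of_sq_le_sq ?_ (Real.exp_pos _).le
      linarith
    -- lower bound for `M`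
    have hNl : ε * s / 16 - 1 ≤ N := by
      have e1 : (s : ℝ) / 3 - 1 ≤ ((s / 3 : ℕ) : ℝ) := by
        have : (s : ℝ) ≤ 3 * ((s / 3 : ℕ) : ℝ) + 2 := by
          have : s ≤ 3 * (s / 3) + 2 := by omega
          exact_mod_cast this
        linarith
      have e2 : ε * n / 16 - 1 ≤ (⌊ε * n / 16⌋₊ : ℝ) := by
        have := Nat.lt_floor_add_one (ε * n / 16)
        linarith
      have e3 : ε * s / 16 ≤ s / 3 := by nlinarith
      have e4 : ε * s / 16 ≤ ε * n / 16 := by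
        have := mul_le_mul_of_nonneg_left hsn h0.le
        linarith
      rw [hN, Nat.cast_min]
      exact le_min (by linarith) (by linarith)
    have hexp : Real.exp (ε / 4) ≤ 2 := by
      have e1 := Real.add_one_le_exp (-(ε / 4))
      have e2 : Real.exp (ε / 4) * Real.exp (-(ε / 4)) = 1 := by
        rw [← Real.exp_add]; simp
      have e3 : 1 / 2 ≤ Real.exp (-(ε / 4)) := by linarith
      have e4 := Real.exp_pos (ε / 4)
      nlinarith
    calc |V.r σ| ≤ Real.exp (-(ε * M / 8)) := h5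
      _ ≤ Real.exp (ε / 4 + -(ε ^ 2 / 128 * s)) := by
          apply Real.exp_le_exp.2
          have e1 : ε * s / 16 - 2 ≤ M := by linarith
          have e2 := mul_le_mul_of_nonneg_left e1 h0.le
          nlinarith
      _ = Real.exp (ε / 4) * Real.exp (-(ε ^ 2 / 128 * s)) := Real.exp_add _ _
      _ ≤ 2 * Real.exp (-(ε ^ 2 / 128 * s)) :=
          mul_le_mul_of_nonneg_right hexp (Real.exp_pos _).le

end Pool.MP322
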