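import Pool.Agent.Lib.MP_322c5f_al.BranchC

/-! job SQ-17: the Plancherel measure of the self-conjugate diagrams is small. -/

set_option autoImplicit false

open Equiv Finset Nat

namespace Pool.MP322

namespace SelfConj

/-- the cell added to go from `rho` to `lam`. -/
theorem exists_cell {n : ℕ} (rho : Y n) (lam : Y (n + 1)) (h : rho.1 ≤ lam.1) :
    ∃ c, c ∉ rho.1 ∧ c ∈ lam.1 ∧ ∀ d ∈ lam.1, d = c ∨ d ∈ rho.1 := by
  classical
  have hsub : rho.1.cells ⊆ lam.1.cells := YoungDiagram.cells_subset_iff.2 h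
  have h1 : rho.1.cells.card = n := rho.2
  have h2 : lam.1.cells.card = n + 1 := lam.2
  have hcard : (lam.1.cells \ rho.1.cells).card = 1 := by
    rw [Finset.card_sdiff_of_subset hsub]; omega
  obtain ⟨c, hc⟩ := Finset.card_eq_one.1 hcard
  have hc' : c ∈ lam.1.cells \ rho.1.cells := by rw [hc]; exact Finset.mem_singleton_self c
  rw [Finset.mem_sdiff, YoungDiagram.mem_cells, YoungDiagram.mem_cells] at hc'
  refine ⟨c, hc'.2, hc'.1, ?_⟩
  intro d hd
  by_cases hdr : d ∈ rho.1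
  · exact Or.inr hdr
  · left
    have : d ∈ lam.1.cells \ rho.1.cells := by
      rw [Finset.mem_sdiff, YoungDiagram.mem_cells, YoungDiagram.mem_cells]
      exact ⟨hd, hdr⟩
    rw [hc, Finset.mem_singleton] at this
    exact this

theorem mem_swap {n : ℕ} {lam : Y n} (h : lam.tr = lam) {d : ℕ × ℕ} (hd : d ∈ lam.1) :
    d.swap ∈ lam.1 := by
  have h1 : lam.1.transpose = lam.1 := congrArg Subtype.val h
  rw [← h1] at hd
  exact YoungDiagram.mem_transpose.1 hd

theorem cell_eq {n : ℕ} {rho : Y n} {lam lam' : Y (n + 1)} (hs : lam.tr = lam)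
    (hs' : lam'.tr = lam') {c c' : ℕ × ℕ} (hc1 : c ∉ rho.1) (hc2 : c ∈ lam.1)
    (hc3 : ∀ d ∈ lam.1, d = c ∨ d ∈ rho.1) (hc1' : c' ∉ rho.1) (hc2' : c' ∈ lam'.1)
    (hc3' : ∀ d ∈ lam'.1, d = c' ∨ d ∈ rho.1) (h : rho.1 ≤ lam.1) (h' : rho.1 ≤ lam'.1) :
    c = c' := by
  have key : ∀ {lam lam' : Y (n + 1)} (_ : lam.tr = lam)
      (_ : lam'.tr = lam') {c c' : ℕ × ℕ} (_ : c ∉ rho.1) (_ : c ∈ lam.1)
      (_ : ∀ d ∈ lam.1, d = c ∨ d ∈ rho.1) (_ : ∀ d ∈ lam'.1, d = c' ∨ d ∈ rho.1)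
      (_ : rho.1 ≤ lam'.1), c.swap ≠ c → c = c' := by
    intro lam lam' hs hs' c c' hc1 hc2 hc3 hc3' h' hne
    rcases hc3 c.swap (mem_swap hs hc2) with h1 | h1
    · exact absurd h1 hne
    · have h2 : c.swap ∈ lam'.1 := h' h1
      have h3 := mem_swap hs' h2
      rw [Prod.swap_swap] at h3
      rcases hc3' c h3 with h4 | h4
      · exact h4
      · exact absurd h4 hc1
  have key2 : ∀ {lam' : Y (n + 1)} {c c' : ℕ × ℕ} (_ : c ∉ rho.1) (_ : c' ∈ lam'.1)
      (_ : ∀ d ∈ lam'.1, d = c' ∨ d ∈ rho.1), c.swap = c → c'.swap = c' → ¬ c.1 < c'.1 := by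
    intro lam' c c' hc1 hc2' hc3' e e' hlt
    have e1 : c.2 = c.1 := congrArg Prod.fst e
    have e1' : c'.2 = c'.1 := congrArg Prod.fst e'
    have hle : c ≤ c' := ⟨hlt.le, by rw [e1, e1']; exact hlt.le⟩
    have hm : c ∈ lam'.1 := lam'.1.isLowerSet hle hc2'
    rcases hc3' c hm with h4 | h4
    · rw [h4] at hlt; exact lt_irrefl _ hlt
    · exact hc1 h4
  by_cases e : c.swap = c
  · by_cases e' : c'.swap = c'
    · have n1 := key2 hc1 hc2' hc3' e e'
      have n2 := key2 hc1' hc2 hc3 e' e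
      have e1 : c.2 = c.1 := congrArg Prod.fst e
      have e1' : c'.2 = c'.1 := congrArg Prod.fst e'
      have e2 : c.1 = c'.1 := by omega
      exact Prod.ext e2 (by rw [e1, e1', e2])
    · exact (key hs' hs hc1' hc2' hc3' hc3 h e').symm
  · exact key hs hs' hc1 hc2 hc3 hc3' h' e

theorem unique_above {n : ℕ} {rho : Y n} {lam lam' : Y (n + 1)} (hs : lam.tr = lam)
    (hs' : lam'.tr = lam') (h : rho.1 ≤ lam.1) (h' : rho.1 ≤ lam'.1) : lam = lam' := by
  obtain ⟨c, hc1, hc2, hc3⟩ := exists_cell rho lam h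
  obtain ⟨c', hc1', hc2', hc3'⟩ := exists_cell rho lam' h'
  have hcc := cell_eq hs hs' hc1 hc2 hc3 hc1' hc2' hc3' h h'
  subst hcc
  apply Subtype.ext
  apply YoungDiagram.ext
  ext d
  rw [YoungDiagram.mem_cells, YoungDiagram.mem_cells]
  constructor
  · intro hd
    rcases hc3 d hd with e | e
    · rw [e]; exact hc2'
    · exact h' e
  · intro hd
    rcases hc3' d hd with e | e
    · rw [e]; exact hc2
    · exact h e

end SelfConj

open Classical in
theorem selfconj_sum (n : ℕ) :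
    ∑ lam ∈ (Finset.univ : Finset (Y (n + 1))).filter (fun lam => lam.tr = lam), fd lam ^ 2 ≤
      (n ! : ℝ) * Real.sqrt (2 * (n + 1)) := by
  set SC := (Finset.univ : Finset (Y (n + 1))).filter (fun lam => lam.tr = lam) with hSC
  set D := ∑ lam ∈ SC, fd lam ^ 2 with hD
  set P := SC.sigma (fun lam => (Finset.univ : Finset (Y n)).filter (fun rho => rho.1 ≤ lam.1))
    with hP
  have hD0 : 0 ≤ D := Finset.sum_nonneg (fun _ _ => sq_nonneg _)
  have e1 : D = ∑ p ∈ P, fd p.1 * fd p.2 := by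
    rw [hP, Finset.sum_sigma, hD]
    refine Finset.sum_congr rfl ?_
    intro lam _
    show fd lam ^ 2 = ∑ rho ∈ (Finset.univ : Finset (Y n)).filter (fun rho => rho.1 ≤ lam.1),
      fd lam * fd rho
    rw [← Finset.mul_sum, ← fd_succ, sq]
  have e2 : ∑ p ∈ P, fd p.2 ^ 2 ≤ (n ! : ℝ) := by
    rw [← sum_sq n]
    have hinj : Set.InjOn (fun p : (Σ _ : Y (n + 1), Y n) => p.2) (P : Set (Σ _ : Y (n + 1), Y n)) := by
      rintro ⟨l1, r1⟩ h1 ⟨l2, r2⟩ h2 h12
      simp only at h12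
      subst h12
      rw [Finset.mem_coe, hP, Finset.mem_sigma, hSC, Finset.mem_filter, Finset.mem_filter] at h1 h2
      have : l1 = l2 := SelfConj.unique_above h1.1.2 h2.1.2 h1.2.2 h2.2.2
      rw [this]
    have := Finset.sum_image (f := fun r : Y n => fd r ^ 2) hinj
    rw [← this]
    exact Finset.sum_le_sum_of_subset_of_nonneg (Finset.subset_univ _)
      (fun _ _ _ => sq_nonneg _)
  have e3 : ∑ p ∈ P, fd p.1 ^ 2 ≤ Real.sqrt (2 * (n + 1)) * D := by
    rw [hP, Finset.sum_sigma, hD, Finset.mul_sum]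
    refine Finset.sum_le_sum ?_
    intro lam _
    simp only [Finset.sum_const, nsmul_eq_mul]
    refine mul_le_mul_of_nonneg_right ?_ (sq_nonneg _)
    rw [card_down]
    apply Real.le_sqrt_of_sq_le
    have h1 := mcor_mul_le lam
    have h2 : ((mcor lam.1 * (mcor lam.1 + 1) : ℕ) : ℝ) ≤ ((2 * (n + 1) : ℕ) : ℝ) := by
      exact_mod_cast h1
    push_cast at h2
    have h3 : (0 : ℝ) ≤ (mcor lam.1 : ℝ) := Nat.cast_nonneg _
    nlinarith
  have cs := Finset.sum_mul_sq_le_sq_mul_sq P (fun p => fd p.1) (fun p => fd p.2)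
  rw [← e1] at cs
  have hn0 : (0 : ℝ) ≤ (n ! : ℝ) := Nat.cast_nonneg _
  have hs0 : (0 : ℝ) ≤ Real.sqrt (2 * (n + 1)) := Real.sqrt_nonneg _
  have e4 : D ^ 2 ≤ (Real.sqrt (2 * (n + 1)) * D) * (n ! : ℝ) :=
    cs.trans (mul_le_mul e3 e2 (Finset.sum_nonneg (fun _ _ => sq_nonneg _))
      (mul_nonneg hs0 hD0))
  rcases hD0.eq_or_lt with h0 | h0
  · rw [← h0]; exact mul_nonneg hn0 hs0
  · have : D * D ≤ ((n ! : ℝ) * Real.sqrt (2 * (n + 1))) * D := by
      calc D * D = D ^ 2 := (sq D).symm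
        _ ≤ _ := e4
        _ = _ := by ring
    exact le_of_mul_le_mul_right this h0

end Pool.MP322
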