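import Pool.Agent.Lib.MP_322c5f_al.BSum
import Pool.Agent.Lib.MP_322c5f_al.Corn
import Pool.Agent.Lib.MP_322c5f_al.SelfConj
import Pool.Agent.Lib.MP_322c5f_al.ColOrth

/-! job SQ-50: existence of a good diagram, by averaging over the Plancherel measure. -/

set_option autoImplicit false

open Equiv Finset Nat

namespace Pool.MP322

open Classical in
/-- sum over nontrivial even permutations against the class sizes. -/
theorem planch_class_sum (n : ℕ) (g : Multiset ℕ → ℝ) (hg : ∀ τ, 0 ≤ g τ) :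
    ∑ σ ∈ Finset.univ.filter (fun σ : Perm (Fin n) => Perm.sign σ = 1 ∧ σ ≠ 1),
      g σ.cycleType * ((n ! : ℝ) / (((Finset.univ : Finset (Perm (Fin n))).filter
        (fun π => π.cycleType = σ.cycleType)).card : ℝ)) ≤
      (n ! : ℝ) * ∑ τ ∈ typesE n, g τ := by
  have hmaps : ∀ σ ∈ Finset.univ.filter (fun σ : Perm (Fin n) => Perm.sign σ = 1 ∧ σ ≠ 1),
      σ.cycleType ∈ typesE n := by
    intro σ hσ
    unfold typesE
    refine Finset.mem_image.2 ⟨σ, ?_, rfl⟩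
    simpa using hσ
  rw [← Finset.sum_fiberwise_of_maps_to hmaps, Finset.mul_sum]
  refine Finset.sum_le_sum fun τ _ => ?_
  have h1 : ∀ σ ∈ (Finset.univ.filter (fun σ : Perm (Fin n) => Perm.sign σ = 1 ∧ σ ≠ 1)).filter
      (fun σ => σ.cycleType = τ), g σ.cycleType * ((n ! : ℝ) /
        (((Finset.univ : Finset (Perm (Fin n))).filter
        (fun π => π.cycleType = σ.cycleType)).card : ℝ)) = g τ * ((n ! : ℝ) /
        (((Finset.univ : Finset (Perm (Fin n))).filter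
        (fun π => π.cycleType = τ)).card : ℝ)) := by
    intro σ hσ
    rw [Finset.mem_filter] at hσ
    rw [hσ.2]
  rw [Finset.sum_congr rfl h1, Finset.sum_const, nsmul_eq_mul]
  have hsub : (Finset.univ.filter (fun σ : Perm (Fin n) => Perm.sign σ = 1 ∧ σ ≠ 1)).filter
      (fun σ => σ.cycleType = τ) ⊆ (Finset.univ : Finset (Perm (Fin n))).filter
        (fun π => π.cycleType = τ) := by
    intro σ hσ
    rw [Finset.mem_filter] at hσ ⊢
    exact ⟨Finset.mem_univ _, hσ.2⟩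
  have hcard := Finset.card_le_card hsub
  set a := ((Finset.univ.filter (fun σ : Perm (Fin n) => Perm.sign σ = 1 ∧ σ ≠ 1)).filter
      (fun σ => σ.cycleType = τ)).card with ha
  set b := ((Finset.univ : Finset (Perm (Fin n))).filter
        (fun π => π.cycleType = τ)).card with hb
  have hab : (a : ℝ) ≤ b := by exact_mod_cast hcard
  have hfac : (0 : ℝ) ≤ (n ! : ℝ) := Nat.cast_nonneg _
  have hb0 : (0 : ℝ) ≤ (b : ℝ) := Nat.cast_nonneg _
  have h2 : (a : ℝ) / b ≤ 1 := div_le_one_of_le₀ hab hb0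
  calc (a : ℝ) * (g τ * ((n ! : ℝ) / b)) = ((n ! : ℝ) * g τ) * (a / b) := by ring
    _ ≤ ((n ! : ℝ) * g τ) * 1 :=
        mul_le_mul_of_nonneg_left h2 (mul_nonneg hfac (hg τ))
    _ = (n ! : ℝ) * g τ := mul_one _

theorem exists_good (B : ℕ → Multiset ℕ → ℝ) (hB : ∀ n τ, 0 ≤ B n τ) (n1 : ℕ)
    (hs : ∀ n ≥ n1, ∑ τ ∈ typesE n, B n τ ≤ 45 / 100) :
    ∃ n0 : ℕ, ∀ n ≥ n0, ∃ lam : Y n, lam.tr ≠ lam ∧
      Real.sqrt n / 10 ≤ (mcor lam.1 : ℝ) + 1 ∧
      ∑ σ ∈ Finset.univ.filter (fun σ : Perm (Fin n) => Perm.sign σ = 1 ∧ σ ≠ 1),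
        (chi lam σ / fd lam) ^ 2 * B n σ.cycleType < 1 := by
  classical
  obtain ⟨n2, hfc⟩ := few_corners
  refine ⟨max (max n1 n2) 10000, fun n hn => ?_⟩
  have hn1 : n1 ≤ n := (le_max_left _ _).trans ((le_max_left _ _).trans hn)
  have hn2 : n2 ≤ n := (le_max_right _ _).trans ((le_max_left _ _).trans hn)
  have hn3 : 10000 ≤ n := (le_max_right _ _).trans hn
  by_contra hcon
  push Not at hcon
  set F := Finset.univ.filter (fun σ : Perm (Fin n) => Perm.sign σ = 1 ∧ σ ≠ 1) with hF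
  have hfc' := hfc n hn2
  have hs' := hs n hn1
  obtain ⟨m, rfl⟩ : ∃ m, n = m + 1 := ⟨n - 1, by omega⟩
  have hm : (9999 : ℝ) ≤ m := by
    have h : 9999 ≤ m := by omega
    exact_mod_cast h
  clear hn hn3 hn1 hn2
  have hsc := selfconj_sum m
  have hS0 : ∀ lam : Y (m + 1), 0 ≤ ∑ σ ∈ F, (chi lam σ / fd lam) ^ 2 * B (m + 1) σ.cycleType :=
    fun lam => Finset.sum_nonneg fun σ _ => mul_nonneg (sq_nonneg _) (hB _ _)
  have hpt : ∀ lam : Y (m + 1), fd lam ^ 2 ≤
      (if (mcor lam.1 : ℝ) + 1 < Real.sqrt ((m + 1 : ℕ) : ℝ) / 10 then fd lam ^ 2 else 0) +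
      (if lam.tr = lam then fd lam ^ 2 else 0) +
      fd lam ^ 2 * ∑ σ ∈ F, (chi lam σ / fd lam) ^ 2 * B (m + 1) σ.cycleType := by
    intro lam
    have hf0 : 0 ≤ fd lam ^ 2 := sq_nonneg _
    have h0 := mul_nonneg hf0 (hS0 lam)
    by_cases h1 : (mcor lam.1 : ℝ) + 1 < Real.sqrt ((m + 1 : ℕ) : ℝ) / 10
    · rw [if_pos h1]
      have : 0 ≤ (if lam.tr = lam then fd lam ^ 2 else 0) := by split_ifs <;> linarith
      linarith
    · rw [if_neg h1]
      by_cases h2 : lam.tr = lam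
      · rw [if_pos h2]; linarith
      · rw [if_neg h2]
        have h3 := hcon lam h2 (not_lt.1 h1)
        nlinarith
  have hsum := Finset.sum_le_sum fun (lam : Y (m + 1)) (_ : lam ∈ Finset.univ) => hpt lam
  rw [sum_sq, Finset.sum_add_distrib, Finset.sum_add_distrib, ← Finset.sum_filter,
    ← Finset.sum_filter] at hsum
  have hlast : ∑ lam : Y (m + 1),
      fd lam ^ 2 * ∑ σ ∈ F, (chi lam σ / fd lam) ^ 2 * B (m + 1) σ.cycleType ≤
      ((m + 1)! : ℝ) * (45 / 100) := by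
    have h1 : ∑ lam : Y (m + 1),
        fd lam ^ 2 * ∑ σ ∈ F, (chi lam σ / fd lam) ^ 2 * B (m + 1) σ.cycleType =
        ∑ σ ∈ F, B (m + 1) σ.cycleType * (((m + 1)! : ℝ) /
          (((Finset.univ : Finset (Perm (Fin (m + 1)))).filter
          (fun π => π.cycleType = σ.cycleType)).card : ℝ)) := by
      have h2 : ∀ lam : Y (m + 1),
          fd lam ^ 2 * ∑ σ ∈ F, (chi lam σ / fd lam) ^ 2 * B (m + 1) σ.cycleType =
          ∑ σ ∈ F, B (m + 1) σ.cycleType * (fd lam ^ 2 * (chi lam σ / fd lam) ^ 2) := by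
        intro lam
        rw [Finset.mul_sum]
        exact Finset.sum_congr rfl fun σ _ => by ring
      rw [Finset.sum_congr rfl fun lam _ => h2 lam, Finset.sum_comm]
      refine Finset.sum_congr rfl fun σ _ => ?_
      rw [← Finset.mul_sum, plancherel_sq]
    rw [h1]
    refine (planch_class_sum (m + 1) (B (m + 1)) (hB (m + 1))).trans ?_
    exact mul_le_mul_of_nonneg_left hs' (Nat.cast_nonneg _)
  have hfs : ((m + 1)! : ℝ) = ((m : ℝ) + 1) * (m ! : ℝ) := by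
    rw [Nat.factorial_succ]
    push_cast
    rfl
  have hfac : (0 : ℝ) < (m ! : ℝ) := by exact_mod_cast Nat.factorial_pos m
  have hsq : Real.sqrt (2 * ((m : ℝ) + 1)) ≤ 2 / 100 * ((m : ℝ) + 1) := by
    rw [Real.sqrt_le_left (by positivity)]
    nlinarith
  have h5 : (m ! : ℝ) * Real.sqrt (2 * ((m : ℝ) + 1)) ≤ (m ! : ℝ) * (2 / 100 * ((m : ℝ) + 1)) :=
    mul_le_mul_of_nonneg_left hsq hfac.le
  have h6 : 0 < ((m : ℝ) + 1) * (m ! : ℝ) := by positivity
  rw [hfs] at hsum hfc' hlast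
  nlinarith

end Pool.MP322
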