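import Pool.Agent.Lib.MP_322c5f_al.QQ
import Pool.Agent.Lib.MP_322c5f_al.Kr

/-! job SQ-51: positive character sums over the even permutations give equivariant maps. -/

set_option autoImplicit false

open Equiv Finset Nat

namespace Pool.MP322

theorem Pos_entry {ι κ : Type*} [Fintype ι] [DecidableEq ι] [Fintype κ] [DecidableEq κ]
    (A : Matrix ι ι ℝ) (B : Matrix κ κ ℝ) (i0 i : ι) (k0 k : κ) :
    (A * Matrix.single i0 k0 (1 : ℝ) * B.transpose) i k = A i i0 * B k k0 := by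
  rw [Matrix.mul_apply, Finset.sum_eq_single k0]
  · rw [Matrix.mul_apply, Finset.sum_eq_single i0]
    · rw [Matrix.single_apply_same, Matrix.transpose_apply, mul_one]
    · intro j _ hj
      rw [Matrix.single_apply_of_ne _ _ _ _ _ (by tauto), mul_zero]
    · intro hn
      exact absurd (Finset.mem_univ _) hn
  · intro j _ hj
    rw [Matrix.mul_apply, Finset.sum_eq_zero, zero_mul]
    intro l _
    rw [Matrix.single_apply_of_ne _ _ _ _ _ (by tauto), mul_zero]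
  · intro hn
    exact absurd (Finset.mem_univ _) hn

theorem alt_hom {n : ℕ} (mu : Y n) {ι : Type*} [Fintype ι] [DecidableEq ι]
    (W : Perm (Fin n) →* Matrix ι ι ℝ)
    (h : 0 < ∑ σ ∈ Finset.univ.filter (fun σ : Perm (Fin n) => Perm.sign σ = 1),
      (W σ).trace * chi mu σ) :
    ∃ Φ : Matrix ι (Tab ⊥ mu.1 n) ℝ, Φ ≠ 0 ∧
      ∀ σ, Perm.sign σ = 1 → W σ * Φ = Φ * rep ⊥ mu.1 n σ := by
  classical
  set E := Finset.univ.filter (fun σ : Perm (Fin n) => Perm.sign σ = 1) with hE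
  have hmem : ∀ σ : Perm (Fin n), σ ∈ E ↔ Perm.sign σ = 1 := by
    intro σ
    rw [hE, Finset.mem_filter]
    simp
  obtain ⟨F, hF⟩ : ∃ F : ι → Tab ⊥ mu.1 n → Matrix ι (Tab ⊥ mu.1 n) ℝ, ∀ i0 k0, F i0 k0 =
      ∑ σ ∈ E, W σ * Matrix.single i0 k0 (1 : ℝ) * (rep ⊥ mu.1 n σ).transpose :=
    ⟨fun i0 k0 => ∑ σ ∈ E, W σ * Matrix.single i0 k0 (1 : ℝ) * (rep ⊥ mu.1 n σ).transpose,
      fun _ _ => rfl⟩
  have hent : ∀ i0 k0 i k, F i0 k0 i k = ∑ σ ∈ E, W σ i i0 * rep ⊥ mu.1 n σ k k0 := by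
    intro i0 k0 i k
    rw [hF, Matrix.sum_apply]
    exact Finset.sum_congr rfl fun σ _ => Pos_entry _ _ _ _ _ _
  have hex : ∃ i0 k0, F i0 k0 ≠ 0 := by
    by_contra hno
    push Not at hno
    have h0 : ∑ σ ∈ E, (W σ).trace * chi mu σ = ∑ i, ∑ k, F i k i k := by
      have h1 : ∀ σ, (W σ).trace * chi mu σ = ∑ i, ∑ k, W σ i i * rep ⊥ mu.1 n σ k k := by
        intro σ
        unfold chi
        rw [Matrix.trace, Matrix.trace, Finset.sum_mul_sum]
        rfl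
      rw [Finset.sum_congr rfl fun σ _ => h1 σ, Finset.sum_comm]
      refine Finset.sum_congr rfl fun i _ => ?_
      rw [Finset.sum_comm]
      refine Finset.sum_congr rfl fun k _ => ?_
      rw [hent]
    rw [h0] at h
    have h2 : ∑ i, ∑ k, F i k i k = 0 :=
      Finset.sum_eq_zero fun i _ => Finset.sum_eq_zero fun k _ => by rw [hno i k]; rfl
    rw [h2] at h
    exact lt_irrefl _ h
  obtain ⟨i0, k0, hne⟩ := hex
  refine ⟨F i0 k0, hne, fun g hg => ?_⟩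
  rw [hF, Matrix.mul_sum, Matrix.sum_mul]
  refine Finset.sum_nbij' (fun σ => g * σ) (fun σ => g⁻¹ * σ) ?_ ?_ ?_ ?_ ?_
  · intro σ hσ
    rw [hmem] at hσ ⊢
    rw [map_mul, hg, hσ, one_mul]
  · intro σ hσ
    rw [hmem] at hσ ⊢
    rw [map_mul, map_inv, hg, hσ, inv_one, one_mul]
  · intro σ _
    simp
  · intro σ _
    simp
  · intro σ _
    rw [rep_transpose, rep_transpose, Matrix.mul_assoc _ (rep ⊥ mu.1 n (g * σ)⁻¹) _, ← map_mul,
      mul_inv_rev, inv_mul_cancel_right, map_mul]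
    simp only [Matrix.mul_assoc]

/-- the sign as a real number. -/
noncomputable def Pos_sg {n : ℕ} (s : Perm (Fin n)) : ℝ := (((Perm.sign s : ℤˣ) : ℤ) : ℝ)

theorem Pos_sg_mul {n : ℕ} (s t : Perm (Fin n)) : Pos_sg (s * t) = Pos_sg s * Pos_sg t := by
  unfold Pos_sg
  rw [map_mul]
  push_cast
  rfl

theorem Pos_sg_one {n : ℕ} : Pos_sg (1 : Perm (Fin n)) = 1 := by
  unfold Pos_sg
  rw [map_one]
  simp

theorem Pos_sg_even {n : ℕ} {s : Perm (Fin n)} (h : Perm.sign s = 1) : Pos_sg s = 1 := by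
  unfold Pos_sg
  rw [h]
  simp

theorem Pos_sg_odd {n : ℕ} {s : Perm (Fin n)} (h : Perm.sign s ≠ 1) : Pos_sg s = -1 := by
  unfold Pos_sg
  rcases Int.units_eq_one_or (Perm.sign s) with h1 | h1
  · exact absurd h1 h
  · rw [h1]
    simp

/-- direct sum of a representation and its sign twist. -/
noncomputable def Pos_W {n : ℕ} {ι : Type*} [Fintype ι] [DecidableEq ι]
    (W : Perm (Fin n) →* Matrix ι ι ℝ) : Perm (Fin n) →* Matrix (ι ⊕ ι) (ι ⊕ ι) ℝ where
  toFun s := Matrix.fromBlocks (W s) 0 0 (Pos_sg s • W s)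
  map_one' := by
    rw [map_one, Pos_sg_one, one_smul, Matrix.fromBlocks_one]
  map_mul' s t := by
    rw [Matrix.fromBlocks_multiply, map_mul, Pos_sg_mul]
    simp only [Matrix.mul_zero, Matrix.zero_mul, add_zero, zero_add, Matrix.smul_mul,
      Matrix.mul_smul, smul_smul, smul_zero]
    rw [mul_comm (Pos_sg t)]

theorem Pos_W_apply {n : ℕ} {ι : Type*} [Fintype ι] [DecidableEq ι]
    (W : Perm (Fin n) →* Matrix ι ι ℝ) (s : Perm (Fin n)) :
    Pos_W W s = Matrix.fromBlocks (W s) 0 0 (Pos_sg s • W s) := rfl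

theorem Pos_trace {ι κ : Type*} [Fintype ι] [Fintype κ] (A : Matrix ι ι ℝ) (B : Matrix ι κ ℝ)
    (C : Matrix κ ι ℝ) (D : Matrix κ κ ℝ) :
    (Matrix.fromBlocks A B C D).trace = A.trace + D.trace := by
  rw [Matrix.trace, Fintype.sum_sum_type]
  rfl

theorem alt_hom_Psi {m k : ℕ} (hkm : k + 1 ≤ m) (nu : Y (k + 1)) {ι : Type*} [Fintype ι]
    [DecidableEq ι] (W : Perm (Fin (m + (k + 1))) →* Matrix ι ι ℝ)
    (h : 0 < ∑ g ∈ Finset.univ.filter (fun g : Perm (Fin (m + (k + 1))) => Perm.sign g = 1),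
      (W g).trace * Psi nu g) :
    ∃ Φ : Matrix ι (Tab ⊥ (addRowY hkm nu).1 (m + (k + 1))) ℝ, Φ ≠ 0 ∧
      ∀ σ, Perm.sign σ = 1 → W σ * Φ = Φ * rep ⊥ (addRowY hkm nu).1 (m + (k + 1)) σ := by
  have hsum : ∑ g, (Pos_W W g).trace * Psi nu g =
      2 * ∑ g ∈ Finset.univ.filter (fun g : Perm (Fin (m + (k + 1))) => Perm.sign g = 1),
        (W g).trace * Psi nu g := by
    rw [Finset.mul_sum, Finset.sum_filter]
    refine Finset.sum_congr rfl fun g _ => ?_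
    rw [Pos_W_apply, Pos_trace, Matrix.trace_smul, smul_eq_mul]
    by_cases hg : Perm.sign g = 1
    · rw [if_pos hg, Pos_sg_even hg]
      ring
    · rw [if_neg hg, Pos_sg_odd hg]
      ring
  obtain ⟨Φ, hne, hΦ⟩ := hom_of_Psi hkm nu (Pos_W W) (by rw [hsum]; linarith)
  have hdec : Φ = Matrix.fromRows Φ.toRows₁ Φ.toRows₂ := (Matrix.fromRows_toRows Φ).symm
  have key : ∀ σ, W σ * Φ.toRows₁ = Φ.toRows₁ * rep ⊥ (addRowY hkm nu).1 (m + (k + 1)) σ ∧
      Pos_sg σ • (W σ * Φ.toRows₂) =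
        Φ.toRows₂ * rep ⊥ (addRowY hkm nu).1 (m + (k + 1)) σ := by
    intro σ
    have h1 := hΦ σ
    rw [hdec, Pos_W_apply, Matrix.fromBlocks_mul_fromRows, Matrix.fromRows_mul] at h1
    have h2 := Matrix.fromRows_inj h1
    rw [Matrix.zero_mul, Matrix.zero_mul, add_zero, zero_add, Matrix.smul_mul] at h2
    exact h2
  by_cases h1 : Φ.toRows₁ = 0
  · refine ⟨Φ.toRows₂, ?_, fun σ hσ => ?_⟩
    · intro h2
      apply hne
      rw [hdec, h1, h2, Matrix.fromRows_zero]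
    · have := (key σ).2
      rwa [Pos_sg_even hσ, one_smul] at this
  · exact ⟨Φ.toRows₁, h1, fun σ _ => (key σ).1⟩

end Pool.MP322
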