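import Pool.Agent.Lib.MP_322c5f_al.Rep
import Pool.Agent.Lib.MP_322c5f_al.BranchB

/-! job SQ-38: the skew representation of a set of corners is the regular representation. -/

set_option autoImplicit false

open Equiv Finset Nat

namespace Pool.MP322

/-- remove the corners in `S` from `lam`. -/
def remS (lam : YoungDiagram) (S : Finset (ℕ × ℕ)) : YoungDiagram where
  cells := lam.cells \ (S ∩ corners lam)
  isLowerSet := by
    intro a b hab ha
    rw [Finset.mem_coe, Finset.mem_sdiff, Finset.mem_inter] at ha ⊢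
    obtain ⟨ha1, ha2⟩ := ha
    refine ⟨lam.isLowerSet hab ha1, ?_⟩
    rintro ⟨hb1, hb2⟩
    have hne : b ≠ a := by
      rintro rfl
      exact ha2 ⟨hb1, hb2⟩
    have hb := (brb_mem_corners.1 hb2)
    have ha1' : a ∈ lam := (YoungDiagram.mem_cells _).1 ha1
    rcases Nat.lt_or_ge b.1 a.1 with h | h
    · exact hb.2.1 (brb_lower lam (a := a) (b := (b.1 + 1, b.2)) h hab.2 ha1')
    · have h1 : b.1 = a.1 := le_antisymm hab.1 h
      have h2 : b.2 < a.2 := by
        rcases Nat.lt_or_ge b.2 a.2 with h' | h'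
        · exact h'
        · exact absurd (Prod.ext h1 (le_antisymm hab.2 h')) hne
      exact hb.2.2 (brb_lower lam (a := a) (b := (b.1, b.2 + 1)) hab.1 h2 ha1')

theorem mem_remS {lam : YoungDiagram} {S : Finset (ℕ × ℕ)} (hS : S ⊆ corners lam) {c : ℕ × ℕ} :
    c ∈ remS lam S ↔ c ∈ lam ∧ c ∉ S := by
  rw [← YoungDiagram.mem_cells, ← YoungDiagram.mem_cells (μ := lam)]
  change c ∈ lam.cells \ (S ∩ corners lam) ↔ _
  rw [Finset.mem_sdiff, Finset.mem_inter]
  constructor
  · rintro ⟨h1, h2⟩
    exact ⟨h1, fun h => h2 ⟨h, hS h⟩⟩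
  · rintro ⟨h1, h2⟩
    exact ⟨h1, fun h => h2 h.1⟩

theorem card_remS {lam : YoungDiagram} {S : Finset (ℕ × ℕ)} (hS : S ⊆ corners lam) :
    (remS lam S).card + S.card = lam.card := by
  have h1 : S ∩ corners lam = S := Finset.inter_eq_left.2 hS
  have h2 : S ⊆ lam.cells := hS.trans (Finset.filter_subset _ _)
  change (lam.cells \ (S ∩ corners lam)).card + S.card = lam.cells.card
  rw [h1]
  exact Finset.card_sdiff_add_card_eq_card h2

private theorem reg_antichain {lam : YoungDiagram} {c d : ℕ × ℕ} (hc : c ∈ corners lam)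
    (hd : d ∈ lam) (hcd : c ≤ d) : c = d := by
  obtain ⟨h0, h1, h2⟩ := brb_mem_corners.1 hc
  rcases Nat.lt_or_ge c.1 d.1 with h | h
  · exact absurd (brb_lower lam (a := d) (b := (c.1 + 1, c.2)) h hcd.2 hd) h1
  · rcases Nat.lt_or_ge c.2 d.2 with h' | h'
    · exact absurd (brb_lower lam (a := d) (b := (c.1, c.2 + 1)) hcd.1 h' hd) h2
    · exact Prod.ext (le_antisymm hcd.1 h) (le_antisymm hcd.2 h')

private theorem reg_mem {lam : YoungDiagram} {S : Finset (ℕ × ℕ)} (hS : S ⊆ corners lam) {k : ℕ}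
    (x : Tab (remS lam S) lam k) (i : Fin k) : x.1 i ∈ S := by
  by_contra hcon
  apply x.2.2.1 i
  rw [mem_remS hS]
  exact ⟨(x.2.2.2.1 (x.1 i)).2 (Or.inr ⟨i, rfl⟩), hcon⟩

private theorem reg_isTab {lam : YoungDiagram} {S : Finset (ℕ × ℕ)} (hS : S ⊆ corners lam) {k : ℕ}
    (e : Fin k ≃ S) : IsTab (remS lam S) lam k (fun i => (e i).1) := by
  have hmem : ∀ i, (e i).1 ∈ lam := fun i => (brb_mem_corners.1 (hS (e i).2)).1
  refine ⟨fun a b h => e.injective (Subtype.ext h), fun i h => ?_, fun c => ⟨fun hc => ?_, ?_⟩,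
    fun i c hc => ?_⟩
  · exact ((mem_remS hS).1 h).2 (e i).2
  · by_cases hcS : c ∈ S
    · refine Or.inr ⟨e.symm ⟨c, hcS⟩, ?_⟩
      show (e (e.symm ⟨c, hcS⟩)).1 = c
      rw [Equiv.apply_symm_apply]
    · exact Or.inl ((mem_remS hS).2 ⟨hc, hcS⟩)
  · rintro (h | ⟨i, rfl⟩)
    · exact ((mem_remS hS).1 h).1
    · exact hmem i
  · have hcl : c ∈ lam := brb_lower lam hc.1 hc.2 (hmem i)
    by_cases hcS : c ∈ S
    · exact Or.inr ⟨i, le_rfl, (reg_antichain (hS hcS) (hmem i) hc).symm⟩
    · exact Or.inl ((mem_remS hS).2 ⟨hcl, hcS⟩)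

/-- fillings are bijections `Fin k ≃ S` -/
private noncomputable def regEquiv {lam : YoungDiagram} {S : Finset (ℕ × ℕ)}
    (hS : S ⊆ corners lam) {k : ℕ} (hk : S.card = k) : Tab (remS lam S) lam k ≃ (Fin k ≃ S) where
  toFun x := Equiv.ofBijective (fun i => (⟨x.1 i, reg_mem hS x i⟩ : S)) (by
    rw [Fintype.bijective_iff_injective_and_card]
    refine ⟨fun a b h => x.2.1 (congrArg Subtype.val h), ?_⟩
    rw [Fintype.card_fin, Fintype.card_coe, hk])
  invFun e := ⟨fun i => (e i).1, reg_isTab hS e⟩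
  left_inv x := rfl
  right_inv e := Equiv.ext fun i => Subtype.ext rfl

theorem reg_card {lam : YoungDiagram} {S : Finset (ℕ × ℕ)} (hS : S ⊆ corners lam) {k : ℕ}
    (hk : S.card = k) : Fintype.card (Tab (remS lam S) lam k) = k ! := by
  classical
  have e0 : Fin k ≃ S := Fintype.equivOfCardEq (by rw [Fintype.card_fin, Fintype.card_coe, hk])
  rw [Fintype.card_congr (regEquiv hS hk), Fintype.card_equiv e0, Fintype.card_fin]

/-- the column of the Young matrix -/
private theorem reg_col {α β : YoungDiagram} {k : ℕ} (i : ℕ) (h : i + 1 < k) (a b : Tab α β k)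
    (hb : b.1 = a.1 ∘ sw i h) (x : Tab α β k) :
    yM α β k i h x a = yd a.1 i h * (if x = a then 1 else 0)
      + Real.sqrt (1 - yd b.1 i h ^ 2) * (if x = b then 1 else 0) := by
  have hab : a.1 = b.1 ∘ sw i h := by
    rw [hb]
    exact (sw_comp_sw i h a.1).symm
  have hne : b ≠ a := by
    intro hc
    rw [hc] at hb
    exact comp_sw_ne i h a.1 a.2.1 hb.symm
  by_cases hxa : x = a
  · subst hxa
    rw [YMBaux.yM_diag, if_pos rfl, if_neg (Ne.symm hne)]
    ring
  · by_cases hxb : x = b
    · subst hxb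
      rw [YMBaux.yM_off i h x a (Ne.symm hxa) hab, if_neg hxa, if_pos rfl]
      ring
    · rw [if_neg hxa, if_neg hxb, YMBaux.yM_zero i h x a (Ne.symm hxa)]
      · ring
      · intro hc
        apply hxb
        apply Subtype.ext
        rw [hb, hc]
        exact (sw_comp_sw i h x.1).symm

private noncomputable def regM {α β : YoungDiagram} {k : ℕ} (T : Tab α β k) :
    Matrix (Tab α β k) (Perm (Fin k)) ℝ := fun x g => rep α β k g x T

private noncomputable def regP {k : ℕ} (h : Perm (Fin k)) :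
    Matrix (Perm (Fin k)) (Perm (Fin k)) ℝ := fun g g' => if g = h * g' then 1 else 0

private theorem reg_intertwine {α β : YoungDiagram} {k : ℕ} (T : Tab α β k) (h : Perm (Fin k)) :
    rep α β k h * regM T = regM T * regP h := by
  ext x g
  rw [Matrix.mul_apply, Matrix.mul_apply]
  have h1 : ∑ y, rep α β k h x y * regM T y g = rep α β k (h * g) x T := by
    rw [map_mul, Matrix.mul_apply]
    rfl
  rw [h1, Finset.sum_eq_single (h * g)]
  · unfold regM regP
    rw [if_pos rfl, mul_one]
  · intro g' _ hg'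
    unfold regP
    rw [if_neg hg', mul_zero]
  · intro hc
    exact absurd (Finset.mem_univ _) hc

private theorem reg_surj {α β : YoungDiagram} {k : ℕ} (T x : Tab α β k) :
    ∃ v : Perm (Fin k) → ℝ, (regM T).mulVec v = fun y => if y = x then 1 else 0 := by
  have hT := tab_connected T x
  induction hT with
  | refl =>
    refine ⟨Pi.single 1 1, ?_⟩
    ext y
    rw [Matrix.mulVec_single_one]
    unfold regM
    rw [Matrix.col_apply, map_one, Matrix.one_apply]
  | @tail a b _ hab ih =>
    obtain ⟨v, hv⟩ := ih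
    obtain ⟨i, h, hb⟩ := hab
    have hba : a.1 = b.1 ∘ sw i h := by
      rw [hb]
      exact (sw_comp_sw i h a.1).symm
    have hpos : 0 < Real.sqrt (1 - yd b.1 i h ^ 2) := by
      apply Real.sqrt_pos.2
      have := yd_sq_lt_one b i h (hba ▸ a.2)
      linarith
    set c := Real.sqrt (1 - yd b.1 i h ^ 2) with hc
    have h1 : (rep α β k (sw i h)).mulVec (fun y => if y = a then 1 else 0)
        = fun y => yd a.1 i h * (if y = a then 1 else 0) + c * (if y = b then 1 else 0) := by
      ext y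
      rw [Matrix.mulVec, dotProduct]
      rw [Finset.sum_eq_single a]
      · rw [if_pos rfl, mul_one, rep_sw, reg_col i h a b hb]
      · intro z _ hz
        rw [if_neg hz, mul_zero]
      · intro hc
        exact absurd (Finset.mem_univ _) hc
    have h2 : (regM T).mulVec ((regP (sw i h)).mulVec v)
        = fun y => yd a.1 i h * (if y = a then 1 else 0) + c * (if y = b then 1 else 0) := by
      rw [Matrix.mulVec_mulVec, ← reg_intertwine, ← Matrix.mulVec_mulVec, hv, h1]
    refine ⟨c⁻¹ • ((regP (sw i h)).mulVec v - yd a.1 i h • v), ?_⟩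
    rw [Matrix.mulVec_smul, Matrix.mulVec_sub, Matrix.mulVec_smul, hv, h2]
    ext y
    simp only [Pi.smul_apply, Pi.sub_apply, smul_eq_mul]
    rw [add_sub_cancel_left, ← mul_assoc, inv_mul_cancel₀ hpos.ne', one_mul]

theorem reg_trace {lam : YoungDiagram} {S : Finset (ℕ × ℕ)} (hS : S ⊆ corners lam) {k : ℕ}
    (hk : S.card = k) (π : Perm (Fin k)) (hπ : π ≠ 1) :
    (rep (remS lam S) lam k π).trace = 0 := by
  classical
  have hcard := reg_card hS hk
  have hne : Nonempty (Tab (remS lam S) lam k) := by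
    rw [← Fintype.card_pos_iff, hcard]
    exact Nat.factorial_pos k
  obtain ⟨T⟩ := hne
  have hsur : ∀ x : Tab (remS lam S) lam k, ∃ v : Perm (Fin k) → ℝ,
      (regM T).mulVec v = fun y => if y = x then 1 else 0 := reg_surj T
  choose f hf using hsur
  set N : Matrix (Perm (Fin k)) (Tab (remS lam S) lam k) ℝ := fun g x => f x g with hN
  have hMN : regM T * N = 1 := by
    ext y x
    have h1 := congrFun (hf x) y
    rw [Matrix.mul_apply, Matrix.one_apply]
    exact h1
  have e : Tab (remS lam S) lam k ≃ Perm (Fin k) :=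
    Fintype.equivOfCardEq (by rw [hcard, Fintype.card_perm, Fintype.card_fin])
  have hNM : N * regM T = 1 := (Matrix.mul_eq_one_comm_of_equiv e).1 hMN
  have h1 : (rep (remS lam S) lam k π).trace = (regP π).trace := by
    calc (rep (remS lam S) lam k π).trace
        = (rep (remS lam S) lam k π * (regM T * N)).trace := by rw [hMN, Matrix.mul_one]
      _ = (regM T * regP π * N).trace := by rw [← Matrix.mul_assoc, reg_intertwine]
      _ = (N * (regM T * regP π)).trace := Matrix.trace_mul_comm _ _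
      _ = (regP π).trace := by rw [← Matrix.mul_assoc, hNM, Matrix.one_mul]
  rw [h1, Matrix.trace]
  apply Finset.sum_eq_zero
  intro g _
  rw [Matrix.diag_apply]
  unfold regP
  rw [if_neg]
  intro hc
  apply hπ
  exact (mul_eq_right.1 hc.symm)

end Pool.MP322
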