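import Pool.Agent.Lib.MP_322c5f_al.GenSD
import Pool.Agent.Lib.MP_322c5f_al.Reg

/-! job SQ-39: diagrams with many corners. -/

set_option autoImplicit false

open Equiv Finset Nat

namespace Pool.MP322

private theorem sd_sum {lam : YoungDiagram} {S : Finset (ℕ × ℕ)} (hS : S ⊆ corners lam) {k : ℕ}
    (hk : S.card = k) (F : Perm (Fin k) → ℝ) :
    ∑ π : Perm (Fin k), (rep (remS lam S) lam k π).trace ^ 2 * F π = (k ! : ℝ) ^ 2 * F 1 := by
  rw [Finset.sum_eq_single (1 : Perm (Fin k))]
  · rw [map_one, Matrix.trace_one, reg_card hS hk]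
  · intro π _ hπ
    rw [reg_trace hS hk π hπ]
    ring
  · intro h
    exact absurd (Finset.mem_univ _) h

theorem small_depth {m k : ℕ} (lam : Y (m + (k + 1))) (nu : Y (k + 1))
    (hc : 2 * (k + 1) ≤ mcor lam.1) :
    ∃ f : Matrix (Tab ⊥ lam.1 (m + (k + 1)) × Tab ⊥ lam.1 (m + (k + 1))) (Tab ⊥ nu.1 (k + 1)) ℝ,
      KCond nu (kr (rep ⊥ lam.1 (m + (k + 1))) (rep ⊥ lam.1 (m + (k + 1)))) f := by
  classical
  -- choice of the pairs of corners
  obtain ⟨P, hP, hPc⟩ : ∃ P : Fin (k + 1) × Bool → ℕ × ℕ, Function.Injective P ∧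
      ∀ x, P x ∈ corners lam.1 := by
    have h1 : Fintype.card (Fin (k + 1) × Bool) ≤ Fintype.card {c // c ∈ corners lam.1} := by
      rw [Fintype.card_prod, Fintype.card_fin, Fintype.card_bool, Fintype.card_coe]
      unfold mcor at hc
      omega
    obtain ⟨E⟩ := Function.Embedding.nonempty_of_card_le h1
    exact ⟨fun x => (E x).1, fun a b hab => E.injective (Subtype.ext hab), fun x => (E x).2⟩
  set S : (Fin (k + 1) → Bool) → Finset (ℕ × ℕ) :=
    fun e => Finset.univ.image (fun i => P (i, e i)) with hSdef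
  set T : Fin (k + 1) → (Fin k → Bool) → Finset (ℕ × ℕ) :=
    fun i f => Finset.univ.image (fun j : Fin k => P (i.succAbove j, f j)) with hTdef
  have hmemS : ∀ e c, c ∈ S e ↔ ∃ i, P (i, e i) = c := by
    intro e c
    simp [hSdef]
  have hmemT : ∀ i f c, c ∈ T i f ↔ ∃ j : Fin k, P (i.succAbove j, f j) = c := by
    intro i f c
    simp [hTdef]
  have hSc : ∀ e, S e ⊆ corners lam.1 := by
    intro e c hc'
    obtain ⟨i, rfl⟩ := (hmemS e c).1 hc'
    exact hPc _
  have hTc : ∀ i f, T i f ⊆ corners lam.1 := by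
    intro i f c hc'
    obtain ⟨j, rfl⟩ := (hmemT i f c).1 hc'
    exact hPc _
  have hScard : ∀ e, (S e).card = k + 1 := by
    intro e
    rw [hSdef]
    simp only
    rw [Finset.card_image_of_injective _ (fun a b hab => (Prod.ext_iff.1 (hP hab)).1),
      Finset.card_univ, Fintype.card_fin]
  have hTcard : ∀ i f, (T i f).card = k := by
    intro i f
    rw [hTdef]
    simp only
    rw [Finset.card_image_of_injective _
      (fun a b hab => Fin.succAbove_right_injective (Prod.ext_iff.1 (hP hab)).1),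
      Finset.card_univ, Fintype.card_fin]
  have hlam : lam.1.card = m + (k + 1) := lam.2
  set al : (Fin (k + 1) → Bool) → Y m := fun e => ⟨remS lam.1 (S e), by
    have h1 := card_remS (hSc e)
    rw [hScard e, hlam] at h1
    omega⟩ with hal
  set be : Fin (k + 1) × (Fin k → Bool) → Y (m + 1) := fun p => ⟨remS lam.1 (T p.1 p.2), by
    have h1 := card_remS (hTc p.1 p.2)
    rw [hTcard p.1 p.2, hlam] at h1
    omega⟩ with hbe
  have hmemal : ∀ e c, c ∈ (al e).1 ↔ c ∈ lam.1 ∧ c ∉ S e := fun e c => mem_remS (hSc e)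
  have hmembe : ∀ p c, c ∈ (be p).1 ↔ c ∈ lam.1 ∧ c ∉ T p.1 p.2 := fun p c =>
    mem_remS (hTc p.1 p.2)
  have hPlam : ∀ x, P x ∈ lam.1 := fun x => (brb_mem_corners.1 (hPc x)).1
  have halinj : Function.Injective al := by
    intro e e' hee
    funext i
    have h1 : P (i, e i) ∉ (al e).1 := fun h => ((hmemal e _).1 h).2 ((hmemS e _).2 ⟨i, rfl⟩)
    rw [hee] at h1
    have h2 : P (i, e i) ∈ S e' := by
      by_contra hcon
      exact h1 ((hmemal e' _).2 ⟨hPlam _, hcon⟩)
    obtain ⟨j, hj⟩ := (hmemS e' _).1 h2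
    have h3 := hP hj
    have h4 := Prod.ext_iff.1 h3
    simp only at h4
    rw [← h4.2, h4.1]
  refine gen_sd lam nu (Finset.univ.image al) (Finset.univ.image be) ?_ ?_
  · intro alp halp bet hab hbl
    obtain ⟨e, -, rfl⟩ := Finset.mem_image.1 halp
    obtain ⟨c, c1, c2, c3⟩ := brb_missing (al e) bet hab
    have hcS : c ∈ S e := by
      by_contra hcon
      exact c1 ((hmemal e c).2 ⟨hbl c2, hcon⟩)
    obtain ⟨i, rfl⟩ := (hmemS e c).1 hcS
    rw [Finset.mem_image]
    refine ⟨(i, fun j => e (i.succAbove j)), Finset.mem_univ _, ?_⟩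
    apply Subtype.ext
    apply SetLike.ext
    intro d
    rw [hmembe, c3 d, hmemal, hmemS, hmemT]
    constructor
    · rintro ⟨d1, d2⟩
      by_cases hd : d = P (i, e i)
      · exact Or.inr hd
      · refine Or.inl ⟨d1, ?_⟩
        rintro ⟨j, hj⟩
        rcases Fin.eq_self_or_eq_succAbove i j with h | ⟨j', h⟩
        · rw [h] at hj
          exact hd hj.symm
        · rw [h] at hj
          exact d2 ⟨j', hj⟩
    · rintro (⟨d1, d2⟩ | hd)
      · refine ⟨d1, ?_⟩
        rintro ⟨j, hj⟩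
        exact d2 ⟨_, hj⟩
      · rw [hd]
        refine ⟨hPlam _, ?_⟩
        rintro ⟨j, hj⟩
        have := (Prod.ext_iff.1 (hP hj)).1
        exact Fin.succAbove_ne i j this
  · have hA : ∀ alp ∈ Finset.univ.image al, ∑ π : Perm (Fin (k + 1)),
        (rep alp.1 lam.1 (k + 1) π).trace ^ 2 * chi nu π = ((k + 1)! : ℝ) ^ 2 * fd nu := by
      intro alp halp
      obtain ⟨e, -, rfl⟩ := Finset.mem_image.1 halp
      have := sd_sum (hSc e) (hScard e) (fun π => chi nu π)
      rw [chi_one] at this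
      exact this
    have hB : ∀ bet ∈ Finset.univ.image be, ∑ π : Perm (Fin k),
        (rep bet.1 lam.1 k π).trace ^ 2 * chi nu (up k π) = (k ! : ℝ) ^ 2 * fd nu := by
      intro bet hbet
      obtain ⟨p, -, rfl⟩ := Finset.mem_image.1 hbet
      have := sd_sum (hTc p.1 p.2) (hTcard p.1 p.2) (fun π => chi nu (up k π))
      rw [map_one, chi_one] at this
      exact this
    rw [Finset.sum_congr rfl hA, Finset.sum_congr rfl hB, Finset.sum_const, Finset.sum_const,
      nsmul_eq_mul, nsmul_eq_mul]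
    have hcA : (Finset.univ.image al).card = 2 ^ (k + 1) := by
      rw [Finset.card_image_of_injective _ halinj, Finset.card_univ]
      simp
    have hcB : (Finset.univ.image be).card ≤ (k + 1) * 2 ^ k := by
      refine Finset.card_image_le.trans ?_
      rw [Finset.card_univ]
      simp
    have hcB' : ((Finset.univ.image be).card : ℝ) ≤ (k + 1) * 2 ^ k := by exact_mod_cast hcB
    rw [hcA]
    have hf := fd_pos nu
    have hk0 : (0 : ℝ) < (k ! : ℝ) := by exact_mod_cast Nat.factorial_pos k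
    have hk1 : (0 : ℝ) < ((k + 1)! : ℝ) := by exact_mod_cast Nat.factorial_pos (k + 1)
    have hfac : ((k + 1)! : ℝ) = (k + 1) * (k ! : ℝ) := by
      rw [Nat.factorial_succ]; push_cast; ring
    have e1 : 1 / (k ! : ℝ) * (((Finset.univ.image be).card : ℝ) * ((k ! : ℝ) ^ 2 * fd nu)) =
        ((Finset.univ.image be).card : ℝ) * ((k ! : ℝ) * fd nu) := by
      field_simp
    have e2 : 1 / ((k + 1)! : ℝ) * (((2 ^ (k + 1) : ℕ) : ℝ) * (((k + 1)! : ℝ) ^ 2 * fd nu)) =
        2 ^ (k + 1) * (((k + 1)! : ℝ) * fd nu) := by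
      push_cast
      field_simp
    rw [e1, e2]
    calc ((Finset.univ.image be).card : ℝ) * ((k ! : ℝ) * fd nu)
        ≤ ((k + 1) * 2 ^ k) * ((k ! : ℝ) * fd nu) :=
          mul_le_mul_of_nonneg_right hcB' (by positivity)
      _ = 2 ^ k * (((k + 1)! : ℝ) * fd nu) := by rw [hfac]; ring
      _ < 2 ^ (k + 1) * (((k + 1)! : ℝ) * fd nu) := by
          apply mul_lt_mul_of_pos_right _ (by positivity)
          rw [pow_succ]
          have : (0 : ℝ) < 2 ^ k := by positivity
          linarith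

end Pool.MP322
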