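import Pool.Agent.Lib.MP_322c5f_al.Rep

/-! job SQ-11: Jucys-Murphy elements are diagonal with the contents as eigenvalues. -/

set_option autoImplicit false

open Equiv Finset

namespace Pool.MP322

private theorem jm_first {lam : YoungDiagram} {n : ℕ} (x : Tab ⊥ lam n) (i : Fin n)
    (hi : i.val = 0) : ct (x.1 i) = 0 := by
  have h1 : ((0, 0) : ℕ × ℕ) ≤ x.1 i := Prod.mk_le_mk.2 ⟨Nat.zero_le _, Nat.zero_le _⟩
  rcases x.2.2.2.2 i (0, 0) h1 with h | ⟨j, hj, hjc⟩
  · exact absurd h (YoungDiagram.notMem_bot _)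
  · have hji : j = i := by
      apply Fin.ext
      rw [Fin.le_def] at hj
      omega
    rw [← hji, hjc]
    rfl

private theorem jm_comm {lam : YoungDiagram} {n : ℕ} (m : ℕ) (h : m + 1 < n) :
    yM ⊥ lam n m h * Matrix.diagonal
        (fun x : Tab ⊥ lam n => ((ct (x.1 ⟨m, by omega⟩) : ℤ) : ℝ)) =
      Matrix.diagonal (fun x : Tab ⊥ lam n => ((ct (x.1 ⟨m + 1, h⟩) : ℤ) : ℝ)) * yM ⊥ lam n m h
        - 1 := by
  ext x y
  rw [Matrix.mul_diagonal, Matrix.sub_apply, Matrix.diagonal_mul, Matrix.one_apply]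
  by_cases hxy : y = x
  · subst hxy
    rw [YMBaux.yM_diag, if_pos rfl]
    unfold yd
    have h1 := ct_ne_succ y m h
    have h2 : ((ct (y.1 ⟨m + 1, h⟩) - ct (y.1 ⟨m, by omega⟩) : ℤ) : ℝ) ≠ 0 := by
      rw [Int.cast_ne_zero]
      exact sub_ne_zero.2 (Ne.symm h1)
    field_simp
    push_cast
    ring
  · rw [if_neg (Ne.symm hxy)]
    by_cases hs : y.1 = x.1 ∘ sw m h
    · have h3 : y.1 ⟨m, by omega⟩ = x.1 ⟨m + 1, h⟩ := by
        rw [hs, Function.comp_apply]
        unfold sw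
        rw [swap_apply_left]
      rw [h3]
      ring
    · rw [YMBaux.yM_zero m h x y hxy hs]
      ring

theorem jm_diag (lam : YoungDiagram) (n : ℕ) (i : Fin n) :
    ∑ j ∈ Finset.univ.filter (fun j => j < i), rep ⊥ lam n (swap j i) =
      Matrix.diagonal (fun x : Tab ⊥ lam n => ((ct (x.1 i) : ℤ) : ℝ)) := by
  obtain ⟨m, hm⟩ := i
  induction m with
  | zero =>
    have h1 : Finset.univ.filter (fun j : Fin n => j < ⟨0, hm⟩) = ∅ := by
      rw [Finset.filter_eq_empty_iff]
      intro j _ hj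
      rw [Fin.lt_def] at hj
      exact absurd hj (Nat.not_lt_zero _)
    rw [h1, Finset.sum_empty]
    have h2 : (fun x : Tab ⊥ lam n => ((ct (x.1 ⟨0, hm⟩) : ℤ) : ℝ)) = 0 := by
      funext x
      rw [jm_first x ⟨0, hm⟩ rfl]
      simp
    rw [h2, Matrix.diagonal_zero']
  | succ m ih =>
    have hm' : m < n := by omega
    have ih' := ih hm'
    have h1 : Finset.univ.filter (fun j : Fin n => j < ⟨m + 1, hm⟩) =
        insert ⟨m, hm'⟩ (Finset.univ.filter (fun j : Fin n => j < ⟨m, hm'⟩)) := by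
      ext j
      simp only [Finset.mem_filter, Finset.mem_univ, true_and, Finset.mem_insert, Fin.lt_def,
        Fin.ext_iff]
      omega
    have h2 : (⟨m, hm'⟩ : Fin n) ∉ Finset.univ.filter (fun j : Fin n => j < ⟨m, hm'⟩) := by
      simp
    rw [h1, Finset.sum_insert h2]
    have h3 : ∀ j ∈ Finset.univ.filter (fun j : Fin n => j < ⟨m, hm'⟩),
        rep ⊥ lam n (swap j ⟨m + 1, hm⟩) =
          yM ⊥ lam n m hm * rep ⊥ lam n (swap j ⟨m, hm'⟩) * yM ⊥ lam n m hm := by
      intro j hj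
      have hj' : j.val < m := (Finset.mem_filter.1 hj).2
      rw [← rep_sw, ← map_mul, ← map_mul]
      congr 1
      unfold sw
      have hne1 : j ≠ (⟨m, hm'⟩ : Fin n) := by
        intro h
        have := congrArg Fin.val h
        simp only at this
        omega
      have hne2 : j ≠ (⟨m + 1, hm⟩ : Fin n) := by
        intro h
        have := congrArg Fin.val h
        simp only at this
        omega
      rw [Equiv.swap_mul_swap_mul_swap hne1 hne2, swap_comm]
    rw [Finset.sum_congr rfl h3, ← Finset.sum_mul, ← Finset.mul_sum, ih']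
    have h4 : rep ⊥ lam n (swap ⟨m, hm'⟩ ⟨m + 1, hm⟩) = yM ⊥ lam n m hm := rep_sw ⊥ lam n m hm
    rw [h4, jm_comm m hm, sub_mul, mul_assoc, yM_sq, mul_one, one_mul]
    abel

end Pool.MP322
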