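import Pool.Agent.Lib.MP_322c5f_al.Irr
import Pool.Agent.Lib.MP_322c5f_al.JM

/-! job SQ-40: star sums of transpositions. -/

set_option autoImplicit false

open Equiv Finset

namespace Pool.MP322

private theorem star_orth {n : ℕ} (V : OIrr n) (g : Perm (Fin n)) (u : V.ι → ℝ) :
    ((V.ρ g).mulVec u) ⬝ᵥ ((V.ρ g).mulVec u) = u ⬝ᵥ u := by
  rw [Matrix.dotProduct_mulVec, ← Matrix.mulVec_transpose, V.orth, Matrix.mulVec_mulVec,
    ← map_mul, inv_mul_cancel, map_one, Matrix.one_mulVec]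

/-- a permutation carrying the initial segment below `m` onto `J` and `m` to `y` -/
private theorem star_perm {n : ℕ} (y : Fin n) (J : Finset (Fin n)) (hy : y ∉ J) :
    ∃ (m : Fin n) (g : Perm (Fin n)), g m = y ∧
      (Finset.univ.filter (fun a => a < m)).image g = J := by
  classical
  have hlt : J.card < n := by
    have h1 : (insert y J).card ≤ Fintype.card (Fin n) := Finset.card_le_univ _
    rw [Finset.card_insert_of_notMem hy, Fintype.card_fin] at h1
    omega
  set m : Fin n := ⟨J.card, hlt⟩ with hm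
  have hcard : Fintype.card {a : Fin n // a < m} = Fintype.card {a : Fin n // a ∈ J} := by
    rw [Fintype.card_coe, Fintype.card_subtype]
    have : (Finset.univ.filter (fun a : Fin n => a < m)) = Finset.Iio m := by
      ext a
      simp
    rw [this, Fin.card_Iio]
  obtain ⟨e⟩ : Nonempty ({a : Fin n // a < m} ≃ {a : Fin n // a ∈ J}) :=
    Fintype.card_eq.1 hcard
  set g1 : Perm (Fin n) := Equiv.extendSubtype e with hg1
  have h1 : ∀ a, a < m → g1 a ∈ J := by
    intro a ha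
    rw [hg1, Equiv.extendSubtype_apply_of_mem e a ha]
    exact (e ⟨a, ha⟩).2
  have h2 : g1 m ∉ J := by
    have := Equiv.extendSubtype_not_mem e m (lt_irrefl m)
    exact this
  refine ⟨m, swap (g1 m) y * g1, ?_, ?_⟩
  · rw [Perm.mul_apply, swap_apply_left]
  · have hsub : (Finset.univ.filter (fun a => a < m)).image (swap (g1 m) y * g1) ⊆ J := by
      intro b hb
      rw [Finset.mem_image] at hb
      obtain ⟨a, ha, rfl⟩ := hb
      have ha' : a < m := (Finset.mem_filter.1 ha).2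
      rw [Perm.mul_apply, swap_apply_of_ne_of_ne]
      · exact h1 a ha'
      · intro h
        exact h2 (h ▸ h1 a ha')
      · intro h
        exact hy (h ▸ h1 a ha')
    refine Finset.eq_of_subset_of_card_le hsub ?_
    rw [Finset.card_image_of_injective _ (Equiv.injective _)]
    have : (Finset.univ.filter (fun a : Fin n => a < m)) = Finset.Iio m := by
      ext a
      simp
    rw [this, Fin.card_Iio]

private theorem star_diag {ι : Type} [Fintype ι] [DecidableEq ι] (d : ι → ℝ) (A : ℝ)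
    (hd : ∀ x, |d x| ≤ A) (w : ι → ℝ) :
    ((Matrix.diagonal d).mulVec w) ⬝ᵥ ((Matrix.diagonal d).mulVec w) ≤ A ^ 2 * (w ⬝ᵥ w) := by
  unfold dotProduct
  rw [Finset.mul_sum]
  refine Finset.sum_le_sum (fun x _ => ?_)
  rw [Matrix.mulVec_diagonal]
  have h4 := hd x
  have h5 : (d x) ^ 2 ≤ A ^ 2 := sq_le_sq' (by linarith [(abs_le.1 h4).1]) (abs_le.1 h4).2
  have h6 : d x * w x * (d x * w x) = (d x) ^ 2 * (w x * w x) := by ring
  rw [h6]
  exact mul_le_mul_of_nonneg_right h5 (mul_self_nonneg _)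

theorem starBound_irr {n : ℕ} (mu : Y n) (A : ℝ) (hA : ∀ c ∈ mu.1, |((ct c : ℤ) : ℝ)| ≤ A) :
    (irr mu).StarBound A := by
  intro y J hy v
  obtain ⟨m, g, hgm, hgJ⟩ := star_perm y J hy
  have h1 : ∑ j ∈ J, (irr mu).ρ (swap j y) =
      (irr mu).ρ g * (∑ a ∈ Finset.univ.filter (fun a => a < m), (irr mu).ρ (swap a m)) *
        (irr mu).ρ g⁻¹ := by
    rw [← hgJ, Finset.sum_image (fun a _ b _ h => g.injective h), Finset.mul_sum, Finset.sum_mul]
    refine Finset.sum_congr rfl (fun a _ => ?_)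
    rw [← hgm, Equiv.swap_apply_apply, map_mul, map_mul]
  have h2 : ∑ a ∈ Finset.univ.filter (fun a => a < m), (irr mu).ρ (swap a m) =
      Matrix.diagonal (fun x : Tab ⊥ mu.1 n => ((ct (x.1 m) : ℤ) : ℝ)) := jm_diag mu.1 n m
  rw [h1, h2, ← Matrix.mulVec_mulVec, ← Matrix.mulVec_mulVec, star_orth]
  set w := ((irr mu).ρ g⁻¹).mulVec v with hw
  have h3 : w ⬝ᵥ w = v ⬝ᵥ v := star_orth (irr mu) g⁻¹ v
  rw [← h3]
  refine star_diag (ι := Tab ⊥ mu.1 n) _ A (fun x => ?_) w
  exact hA (x.1 m) ((x.2.2.2.1 (x.1 m)).2 (Or.inr ⟨m, rfl⟩))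

theorem starBound_len {n : ℕ} (mu : Y n) (A : ℝ) (h0 : 0 ≤ A) (h1 : (mu.1.rowLen 0 : ℝ) ≤ A)
    (h2 : (mu.1.colLen 0 : ℝ) ≤ A) : (irr mu).StarBound A := by
  apply starBound_irr
  rintro ⟨i, j⟩ hc
  have h3 : j < mu.1.rowLen 0 := by
    rw [← YoungDiagram.mem_iff_lt_rowLen]
    exact mu.1.up_left_mem (Nat.zero_le _) (le_refl _) hc
  have h4 : i < mu.1.colLen 0 := by
    rw [← YoungDiagram.mem_iff_lt_colLen]
    exact mu.1.up_left_mem (le_refl _) (Nat.zero_le _) hc
  have h3' : (j : ℝ) ≤ mu.1.rowLen 0 := by exact_mod_cast h3.le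
  have h4' : (i : ℝ) ≤ mu.1.colLen 0 := by exact_mod_cast h4.le
  have hi : (0 : ℝ) ≤ i := Nat.cast_nonneg i
  have hj : (0 : ℝ) ≤ j := Nat.cast_nonneg j
  unfold ct
  push_cast
  rw [abs_le]
  constructor <;> linarith

end Pool.MP322
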