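import Pool.Agent.Lib.MP_322c5f_al.Row
import Pool.Agent.Lib.MP_322c5f_al.Kr

/-! job SQ-42: the trivial representation is contained in `V ⊗ V`. -/

set_option autoImplicit false

open Equiv Finset

namespace Pool.MP322

theorem depth_zero {n : ℕ} (lam mu : Y n) (h : mu.1.rowLen 0 = n) :
    ∃ Φ : Matrix (Tab ⊥ lam.1 n × Tab ⊥ lam.1 n) (Tab ⊥ mu.1 n) ℝ, Φ ≠ 0 ∧
      ∀ σ, kr (rep ⊥ lam.1 n) (rep ⊥ lam.1 n) σ * Φ = Φ * rep ⊥ mu.1 n σ := by
  classical
  obtain ⟨v, hv0, hv⟩ := exists_fixed mu (le_of_eq h.symm)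
  have hv' : ∀ σ : Perm (Fin n), (rep ⊥ mu.1 n σ).mulVec v = v := by
    intro σ
    exact hv σ (fun i hi => absurd i.2 (by omega))
  refine ⟨fun p t => (if p.1 = p.2 then 1 else 0) * v t, ?_, ?_⟩
  · intro hcon
    obtain ⟨t, ht⟩ := Function.ne_iff.1 hv0
    obtain ⟨x⟩ := tab_nonempty lam
    have h1 := congrFun (congrFun hcon (x, x)) t
    simp only [if_true, one_mul, Matrix.zero_apply] at h1
    exact ht h1
  · intro σ
    ext p t
    rw [Matrix.mul_apply, Matrix.mul_apply]
    have hL : ∑ j : Tab ⊥ lam.1 n × Tab ⊥ lam.1 n,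
        kr (rep ⊥ lam.1 n) (rep ⊥ lam.1 n) σ p j * ((if j.1 = j.2 then (1 : ℝ) else 0) * v t) =
        (if p.1 = p.2 then 1 else 0) * v t := by
      rw [Fintype.sum_prod_type]
      have h1 : ∀ a : Tab ⊥ lam.1 n, ∑ b : Tab ⊥ lam.1 n,
          kr (rep ⊥ lam.1 n) (rep ⊥ lam.1 n) σ p (a, b) *
            ((if (a, b).1 = (a, b).2 then (1 : ℝ) else 0) * v t) =
          rep ⊥ lam.1 n σ p.1 a * (rep ⊥ lam.1 n σ).transpose a p.2 * v t := by
        intro a
        rw [Finset.sum_eq_single a]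
        · rw [kr_apply, if_pos rfl, Matrix.transpose_apply]
          ring
        · intro b _ hb
          rw [if_neg (fun h => hb h.symm)]
          ring
        · intro h
          exact absurd (Finset.mem_univ _) h
      rw [Finset.sum_congr rfl (fun a _ => h1 a), ← Finset.sum_mul, ← Matrix.mul_apply,
        rep_transpose, ← map_mul, mul_inv_cancel, map_one, Matrix.one_apply]
    have hR : ∑ j : Tab ⊥ mu.1 n, ((if p.1 = p.2 then (1 : ℝ) else 0) * v j) *
        rep ⊥ mu.1 n σ j t = (if p.1 = p.2 then 1 else 0) * v t := by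
      have h2 : ∑ j : Tab ⊥ mu.1 n, v j * rep ⊥ mu.1 n σ j t = v t := by
        have h3 := congrFun (hv' σ⁻¹) t
        rw [← rep_transpose, Matrix.mulVec, dotProduct] at h3
        rw [← h3]
        refine Finset.sum_congr rfl (fun j _ => ?_)
        rw [Matrix.transpose_apply, mul_comm]
      rw [← h2, Finset.mul_sum]
      refine Finset.sum_congr rfl (fun j _ => ?_)
      ring_nf
    exact hL.trans hR.symm

end Pool.MP322
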