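import Pool.Agent.Lib.MP_322c5f_al.MidPsi
import Pool.Agent.Lib.MP_322c5f_al.Planch
import Pool.Agent.Lib.MP_322c5f_al.Pos
import Pool.Agent.Lib.MP_322c5f_al.SD
import Pool.Agent.Lib.MP_322c5f_al.Star
import Pool.Agent.Lib.MP_322c5f_al.Conj2
import Pool.Agent.Lib.MP_322c5f_al.Zero
import Pool.Agent.Lib.MP_322c5f_al.Fd3
import Pool.Agent.Lib.MP_322c5f_al.OD

/-! Assembly: for all large `n`, some irreducible representation of `A_n` has a square containing
every irreducible representation. -/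

set_option autoImplicit false

open Equiv Finset Nat

namespace Pool.MP322

theorem rowLen_le {n : ℕ} (mu : Y n) : mu.1.rowLen 0 ≤ n := by
  have h1 : mu.1.rowLen 0 = (mu.1.row 0).card := mu.1.rowLen_eq_card
  have h2 : (mu.1.row 0).card ≤ mu.1.cells.card := Finset.card_le_card (Finset.filter_subset _ _)
  have h3 : mu.1.cells.card = n := mu.2
  omega

theorem rowLen_tr {n : ℕ} (mu : Y n) : mu.tr.1.rowLen 0 = mu.1.colLen 0 := by
  change mu.1.transpose.rowLen 0 = _
  exact YoungDiagram.rowLen_transpose _ _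

theorem colLen_tr {n : ℕ} (mu : Y n) : mu.tr.1.colLen 0 = mu.1.rowLen 0 := by
  change mu.1.transpose.colLen 0 = _
  exact YoungDiagram.colLen_transpose _ _

/-- positivity of a character sum from the bound on the values. -/
theorem pos_sum {n : ℕ} (lam : Y n) (B θ : Perm (Fin n) → ℝ) (D : ℝ) (hD : 0 < D)
    (h1 : θ 1 = D) (hθ : ∀ σ, Perm.sign σ = 1 → σ ≠ 1 → -(θ σ) ≤ B σ * D)
    (hs : ∑ σ ∈ Finset.univ.filter (fun σ : Perm (Fin n) => Perm.sign σ = 1 ∧ σ ≠ 1),
      (chi lam σ / fd lam) ^ 2 * B σ < 1) :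
    0 < ∑ σ ∈ Finset.univ.filter (fun σ : Perm (Fin n) => Perm.sign σ = 1),
      (chi lam σ * chi lam σ) * θ σ := by
  have hf := fd_pos lam
  have hsplit : Finset.univ.filter (fun σ : Perm (Fin n) => Perm.sign σ = 1) =
      insert 1 (Finset.univ.filter (fun σ : Perm (Fin n) => Perm.sign σ = 1 ∧ σ ≠ 1)) := by
    ext σ
    simp only [Finset.mem_filter, Finset.mem_univ, true_and, Finset.mem_insert]
    constructor
    · intro h
      by_cases h1 : σ = 1
      · exact Or.inl h1
      · exact Or.inr ⟨h, h1⟩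
    · rintro (h | h)
      · rw [h]; exact Perm.sign_one
      · exact h.1
  rw [hsplit, Finset.sum_insert (by simp)]
  have hlow : ∑ σ ∈ Finset.univ.filter (fun σ : Perm (Fin n) => Perm.sign σ = 1 ∧ σ ≠ 1),
      (-(fd lam ^ 2 * D)) * ((chi lam σ / fd lam) ^ 2 * B σ) ≤
      ∑ σ ∈ Finset.univ.filter (fun σ : Perm (Fin n) => Perm.sign σ = 1 ∧ σ ≠ 1),
        (chi lam σ * chi lam σ) * θ σ := by
    apply Finset.sum_le_sum
    intro σ hσ
    rw [Finset.mem_filter] at hσ
    have h2 := hθ σ hσ.2.1 hσ.2.2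
    have h3 : (-(fd lam ^ 2 * D)) * ((chi lam σ / fd lam) ^ 2 * B σ) =
        (chi lam σ * chi lam σ) * (-(B σ * D)) := by
      field_simp
    rw [h3]
    apply mul_le_mul_of_nonneg_left _ (mul_self_nonneg _)
    linarith
  rw [← Finset.mul_sum] at hlow
  rw [h1, chi_one]
  have h4 : 0 < fd lam ^ 2 * D := by positivity
  nlinarith [mul_lt_mul_of_pos_left hs h4]

theorem sum_BB_ge {C c K : ℝ} (hC : 0 ≤ C) (hK : 0 ≤ K) (S0 n : ℕ) (τ : Multiset ℕ) :
    3 * Real.exp (-(9 * Real.sqrt τ.sum)) + 4 * Real.exp (-(5 * Real.sqrt n)) ≤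
      BB C c K S0 n τ := by
  unfold BB
  have h : 0 ≤ (if τ.sum ≤ S0 then bS τ + K / n else C * Real.exp (-(c * τ.sum))) := by
    split_ifs
    · have h1 : 0 ≤ bS τ := by
        unfold bS
        split_ifs <;> positivity
      positivity
    · positivity
  linarith

theorem exists_good_lam : ∃ N : ℕ, ∀ n ≥ N, ∃ lam : Y n, lam.tr ≠ lam ∧
    ∀ mu : Y n, ∃ Φ : Matrix (Tab ⊥ lam.1 n × Tab ⊥ lam.1 n) (Tab ⊥ mu.1 n) ℝ, Φ ≠ 0 ∧
      ∀ σ, Perm.sign σ = 1 →
        kr (rep ⊥ lam.1 n) (rep ⊥ lam.1 n) σ * Φ = Φ * rep ⊥ mu.1 n σ := by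
  obtain ⟨ε, hε0, hε1, n1, hmid⟩ := Psi_mid (1 / 25) (by norm_num)
  obtain ⟨C, c, hC, hc, n2, hdeep⟩ := deep_bound ε hε0 (by linarith)
  obtain ⟨S0, hS0⟩ := BB_sum C c hC hc
  obtain ⟨K, hK, hsmall⟩ := small_bound S0
  obtain ⟨n3, hn3⟩ := hS0 K hK
  obtain ⟨n4, hgood⟩ := exists_good (fun n τ => BB C c K S0 n τ)
    (fun n τ => BB_nonneg C c K hC.le hK S0 n τ) n3 hn3
  refine ⟨max (max n1 n2) (max n4 2500), ?_⟩
  intro n hn
  have hn1 : n1 ≤ n := le_trans (le_trans (le_max_left _ _) (le_max_left _ _)) hn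
  have hn2 : n2 ≤ n := le_trans (le_trans (le_max_right _ _) (le_max_left _ _)) hn
  have hn4 : n4 ≤ n := le_trans (le_trans (le_max_left _ _) (le_max_right _ _)) hn
  have hn5 : 2500 ≤ n := le_trans (le_trans (le_max_right _ _) (le_max_right _ _)) hn
  obtain ⟨lam, hlam, hcor, hsum⟩ := hgood n hn4
  refine ⟨lam, hlam, ?_⟩
  have htr : ∀ σ, (kr (rep ⊥ lam.1 n) (rep ⊥ lam.1 n) σ).trace = chi lam σ * chi lam σ :=
    fun σ => kr_trace _ _ _
  have claim : ∀ mu : Y n, mu.1.colLen 0 ≤ mu.1.rowLen 0 →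
      ∃ Φ : Matrix (Tab ⊥ lam.1 n × Tab ⊥ lam.1 n) (Tab ⊥ mu.1 n) ℝ, Φ ≠ 0 ∧
        ∀ σ, Perm.sign σ = 1 →
          kr (rep ⊥ lam.1 n) (rep ⊥ lam.1 n) σ * Φ = Φ * rep ⊥ mu.1 n σ := by
    intro mu hmu
    have hle := rowLen_le mu
    rcases Nat.eq_or_lt_of_le hle with h0 | h0
    · obtain ⟨Φ, hΦ, hΦ'⟩ := depth_zero lam mu h0
      exact ⟨Φ, hΦ, fun σ _ => hΦ' σ⟩
    · -- depth k+1
      by_cases hdp : ε * n < ((n - mu.1.rowLen 0 : ℕ) : ℝ)
      · -- deep case
        apply alt_hom mu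
        simp only [htr]
        have hcast : ((n - mu.1.rowLen 0 : ℕ) : ℝ) = (n : ℝ) - mu.1.rowLen 0 :=
          Nat.cast_sub hle
        rw [hcast] at hdp
        have hrow : (mu.1.rowLen 0 : ℝ) ≤ (1 - ε) * n := by linarith
        have hcol : (mu.1.colLen 0 : ℝ) ≤ (1 - ε) * n := by
          have : (mu.1.colLen 0 : ℝ) ≤ (mu.1.rowLen 0 : ℝ) := by exact_mod_cast hmu
          linarith
        have h1e : 0 ≤ (1 - ε) * (n : ℝ) := by
          have : (0 : ℝ) ≤ 1 - ε := by linarith
          positivity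
        have hstar := starBound_len mu ((1 - ε) * n) h1e hrow hcol
        have hdp2 := hdeep n hn2 (irr mu) hstar
        refine pos_sum lam (fun σ => BB C c K S0 n σ.cycleType) (chi mu) (fd mu) (fd_pos mu)
          (chi_one mu) ?_ hsum
        intro σ hσ hσ1
        have hfm := fd_pos mu
        have hkey : -(chi mu σ / fd mu) ≤ BB C c K S0 n σ.cycleType := by
          unfold BB
          have e1 : 0 ≤ 3 * Real.exp (-(9 * Real.sqrt (σ.cycleType.sum))) := by positivity
          have e2 : 0 ≤ 4 * Real.exp (-(5 * Real.sqrt n)) := by positivity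
          split_ifs with hS
          · have := hsmall n (by omega) mu hmu σ hσ (by rwa [← Perm.sum_cycleType])
            linarith
          · have h := hdp2 σ
            rw [irr_r] at h
            have h' := neg_le_abs (chi mu σ / fd mu)
            have hs : (σ.support.card : ℝ) = (σ.cycleType.sum : ℝ) := by
              rw [Perm.sum_cycleType]
            rw [hs] at h
            linarith
        have := mul_le_mul_of_nonneg_right hkey hfm.le
        have e3 : -(chi mu σ / fd mu) * fd mu = -(chi mu σ) := by field_simp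
        rwa [e3] at this
      · -- not deep
        push Not at hdp
        obtain ⟨k, hk⟩ : ∃ k, n = mu.1.rowLen 0 + (k + 1) := ⟨n - mu.1.rowLen 0 - 1, by omega⟩
        obtain ⟨m, hm⟩ : ∃ m, m = mu.1.rowLen 0 := ⟨_, rfl⟩
        rw [← hm] at hk hdp h0 hle
        subst hk
        have hdp' : ((k + 1 : ℕ) : ℝ) ≤ ε * ((m + (k + 1) : ℕ) : ℝ) := by
          have : m + (k + 1) - m = k + 1 := by omega
          rwa [this] at hdp
        have hkm20 : 20 * (k + 1) ≤ m + (k + 1) := by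
          have hpos : (0 : ℝ) ≤ ((m + (k + 1) : ℕ) : ℝ) := Nat.cast_nonneg _
          have h20 : ε * ((m + (k + 1) : ℕ) : ℝ) ≤ (1 / 20) * ((m + (k + 1) : ℕ) : ℝ) :=
            mul_le_mul_of_nonneg_right hε1 hpos
          have : (20 : ℝ) * ((k + 1 : ℕ) : ℝ) ≤ ((m + (k + 1) : ℕ) : ℝ) := by linarith
          exact_mod_cast this
        have hkm : k + 1 ≤ m := by omega
        obtain ⟨nu, hnu⟩ := eq_addRow (show k + 1 ≤ m from hkm) mu hm.symm
        by_cases hsd : 25 * ((k + 1 : ℕ) : ℝ) ≤ Real.sqrt ((m + (k + 1) : ℕ) : ℝ)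
        · -- small depth
          have hc2 : 2 * (k + 1) ≤ mcor lam.1 := by
            have h50 : (50 : ℝ) ≤ Real.sqrt ((m + (k + 1) : ℕ) : ℝ) := by
              apply Real.le_sqrt_of_sq_le
              have : (2500 : ℝ) ≤ ((m + (k + 1) : ℕ) : ℝ) := by exact_mod_cast hn5
              linarith
            have : ((2 * (k + 1) : ℕ) : ℝ) ≤ (mcor lam.1 : ℝ) := by
              push_cast at hsd hcor h50 ⊢
              linarith
            exact_mod_cast this
          obtain ⟨f, hf⟩ := small_depth lam nu hc2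
          obtain ⟨Φ, hΦ, hΦ'⟩ := key_general hkm nu _ f hf
          rw [hnu]
          exact ⟨Φ, hΦ, fun σ _ => hΦ' σ⟩
        · push Not at hsd
          have hmid' := hmid m k hn1 (by linarith) hdp' nu
          have hdiff : 0 < ((m + (k + 1)).choose (k + 1) : ℝ) - ((m + (k + 1)).choose k : ℝ) := by
            have h1 := choose_pred_le (m + (k + 1)) k hkm20
            have h2 : (0 : ℝ) < ((m + (k + 1)).choose (k + 1) : ℝ) := by
              exact_mod_cast Nat.choose_pos (by omega)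
            linarith
          rw [hnu]
          apply alt_hom_Psi hkm nu
          simp only [htr]
          refine pos_sum lam (fun σ => BB C c K S0 (m + (k + 1)) σ.cycleType) (Psi nu) _
            (mul_pos hdiff (fd_pos nu)) (Psi_one nu) ?_ hsum
          intro σ hσ hσ1
          refine le_trans (hmid' σ) ?_
          apply mul_le_mul_of_nonneg_right _ (mul_pos hdiff (fd_pos nu)).le
          exact sum_BB_ge hC.le hK S0 _ _
  intro mu
  rcases Nat.le_total (mu.1.colLen 0) (mu.1.rowLen 0) with h | h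
  · exact claim mu h
  · obtain ⟨Φ, hΦ, hΦ'⟩ := claim mu.tr (by rw [rowLen_tr, colLen_tr]; exact h)
    exact alt_transfer mu _ Φ hΦ hΦ'

open CategoryTheory in
open scoped CategoryTheory.MonoidalCategory in
/-- for all sufficiently large `n` there is an irreducible representation of `A_n` whose square
contains every irreducible representation. -/
theorem main_large : ∃ N : ℕ, ∀ n ≥ N, ∃ V : FDRep ℂ (alternatingGroup (Fin n)), Simple V ∧
    ∀ W : FDRep ℂ (alternatingGroup (Fin n)), Simple W → ∃ f : W ⟶ V ⊗ V, f ≠ 0 := by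
  obtain ⟨N, hN⟩ := exists_good_lam
  refine ⟨N, fun n hn => ?_⟩
  obtain ⟨lam, hlam, h⟩ := hN n hn
  exact fdrep_of_plain lam hlam h

end Pool.MP322
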