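import Mathlib

/-! job SQ-29: Frobenius reciprocity for characters of Young subgroups, as an identity of sums. -/

set_option autoImplicit false

open Equiv Finset Nat

namespace Pool.MP322

open Classical in
/-- restriction of `g` to a `g`-invariant set `T` (identity outside; `1` if `T` is not
invariant). -/
noncomputable def resT {n : ℕ} (g : Perm (Fin n)) (T : Finset (Fin n)) : Perm (Fin n) :=
  if h : ∀ i, g i ∈ T ↔ i ∈ T then
    Perm.ofSubtype (p := fun i => i ∈ T) (g.subtypePerm h) else 1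

open Classical in
/-- the `g`-invariant subsets with `k` elements. -/
noncomputable def invSets {n : ℕ} (g : Perm (Fin n)) (k : ℕ) : Finset (Finset (Fin n)) :=
  (Finset.powersetCard k Finset.univ).filter (fun T => ∀ i, g i ∈ T ↔ i ∈ T)

private theorem fr_ai {n : ℕ} (h : Perm (Fin n)) (x : Fin n) : h (h⁻¹ x) = x := by
  rw [← Perm.mul_apply, mul_inv_cancel, Perm.one_apply]

private theorem fr_ia {n : ℕ} (h : Perm (Fin n)) (x : Fin n) : h⁻¹ (h x) = x := by
  rw [← Perm.mul_apply, inv_mul_cancel, Perm.one_apply]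

private theorem fr_resT_mem {n : ℕ} (g : Perm (Fin n)) (T : Finset (Fin n))
    (h : ∀ i, g i ∈ T ↔ i ∈ T) (x : Fin n) (hx : x ∈ T) : resT g T x = g x := by
  unfold resT
  rw [dif_pos h, Perm.ofSubtype_apply_of_mem _ hx]
  rfl

private theorem fr_resT_notMem {n : ℕ} (g : Perm (Fin n)) (T : Finset (Fin n))
    (h : ∀ i, g i ∈ T ↔ i ∈ T) (x : Fin n) (hx : x ∉ T) : resT g T x = x := by
  unfold resT
  rw [dif_pos h, Perm.ofSubtype_apply_of_not_mem _ hx]

open Classical in
private noncomputable def frS {n : ℕ} (Φ : Perm (Fin n) → ℝ) (θ : Multiset ℕ → ℝ)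
    (T : Finset (Fin n)) : ℝ :=
  ∑ g : Perm (Fin n), if ∀ i, g i ∈ T ↔ i ∈ T then Φ g * θ (resT g T).cycleType else 0

private theorem frS_conj {n : ℕ} (Φ : Perm (Fin n) → ℝ)
    (hΦ : ∀ g x : Perm (Fin n), Φ (x * g * x⁻¹) = Φ g) (θ : Multiset ℕ → ℝ)
    (T T0 : Finset (Fin n)) (h : Perm (Fin n)) (hh : ∀ i, h i ∈ T ↔ i ∈ T0) :
    frS Φ θ T = frS Φ θ T0 := by
  classical
  unfold frS
  rw [← Equiv.sum_comp (MulAut.conj h).toEquiv]
  apply Finset.sum_congr rfl
  intro g _
  have e : (MulAut.conj h).toEquiv g = h * g * h⁻¹ := rfl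
  rw [e]
  have hh' : ∀ i, h⁻¹ i ∈ T0 ↔ i ∈ T := by
    intro i
    rw [← hh, fr_ai]
  have hinv : (∀ i, (h * g * h⁻¹) i ∈ T ↔ i ∈ T) ↔ (∀ i, g i ∈ T0 ↔ i ∈ T0) := by
    constructor
    · intro H i
      have := H (h i)
      simp only [Perm.mul_apply, fr_ia] at this
      rw [hh, hh] at this
      exact this
    · intro H i
      rw [Perm.mul_apply, Perm.mul_apply, hh, H, hh']
  by_cases hg : ∀ i, g i ∈ T0 ↔ i ∈ T0
  · have hg' := hinv.2 hg
    rw [if_pos hg, if_pos hg', hΦ]
    congr 2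
    have hr : resT (h * g * h⁻¹) T = h * resT g T0 * h⁻¹ := by
      ext1 x
      rw [Perm.mul_apply, Perm.mul_apply]
      by_cases hx : x ∈ T
      · rw [fr_resT_mem _ _ hg' x hx, fr_resT_mem _ _ hg _ ((hh' x).2 hx), Perm.mul_apply,
          Perm.mul_apply]
      · rw [fr_resT_notMem _ _ hg' x hx,
          fr_resT_notMem _ _ hg _ (fun hc => hx ((hh' x).1 hc)), fr_ai]
    rw [hr, Perm.cycleType_conj]
  · have hg' : ¬ ∀ i, (h * g * h⁻¹) i ∈ T ↔ i ∈ T := fun hc => hg (hinv.1 hc)
    rw [if_neg hg, if_neg hg']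

private theorem fr_exists_perm {n : ℕ} (T T0 : Finset (Fin n)) (hc : T0.card = T.card) :
    ∃ h : Perm (Fin n), ∀ i, h i ∈ T ↔ i ∈ T0 := by
  let e : {x // x ∈ T0} ≃ {x // x ∈ T} := Finset.equivOfCardEq hc
  refine ⟨e.extendSubtype, fun i => ?_⟩
  constructor
  · intro hi
    by_contra hcon
    exact e.extendSubtype_not_mem i hcon hi
  · intro hi
    exact e.extendSubtype_mem i hi

private theorem fr_surj {n m k : ℕ} (h : m + k = n) (a : Fin m ↪ Fin n) (b : Fin k ↪ Fin n)
    (hab : ∀ i j, a i ≠ b j) (x : Fin n) : (∃ i, a i = x) ∨ ∃ j, b j = x := by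
  have hinj : Function.Injective (Sum.elim a b) := by
    rintro (i | i) (j | j) hij
    · exact congrArg _ (a.injective hij)
    · exact absurd hij (hab i j)
    · exact absurd hij.symm (hab j i)
    · exact congrArg _ (b.injective hij)
  have hcard : Fintype.card (Fin m ⊕ Fin k) = Fintype.card (Fin n) := by simp [h]
  have hbij := (Fintype.bijective_iff_injective_and_card _).2 ⟨hinj, hcard⟩
  obtain ⟨y, hy⟩ := hbij.2 x
  rcases y with i | j
  · exact Or.inl ⟨i, hy⟩
  · exact Or.inr ⟨j, hy⟩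

private theorem frS_base {n m k : ℕ} (h : m + k = n) (a : Fin m ↪ Fin n) (b : Fin k ↪ Fin n)
    (hab : ∀ i j, a i ≠ b j) (Φ : Perm (Fin n) → ℝ) (θ : Multiset ℕ → ℝ) :
    frS Φ θ (Finset.univ.map b) = ∑ p : Perm (Fin m) × Perm (Fin k),
        Φ (p.1.viaEmbedding a * p.2.viaEmbedding b) * θ p.2.cycleType := by
  classical
  have hmem : ∀ x, x ∈ Finset.univ.map b ↔ ∃ j, b j = x := by
    intro x
    simp
  have hva : ∀ (p : Perm (Fin m)) (j : Fin k), p.viaEmbedding a (b j) = b j := by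
    intro p j
    apply Perm.viaEmbedding_apply_of_notMem
    rintro ⟨i, hi⟩
    exact hab i j hi
  have hvb : ∀ (p : Perm (Fin k)) (i : Fin m), p.viaEmbedding b (a i) = a i := by
    intro p i
    apply Perm.viaEmbedding_apply_of_notMem
    rintro ⟨j, hj⟩
    exact hab i j hj.symm
  have hgb : ∀ (p : Perm (Fin m) × Perm (Fin k)) (j : Fin k),
      (p.1.viaEmbedding a * p.2.viaEmbedding b) (b j) = b (p.2 j) := by
    intro p j
    rw [Perm.mul_apply, Perm.viaEmbedding_apply, hva]
  have hga : ∀ (p : Perm (Fin m) × Perm (Fin k)) (i : Fin m),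
      (p.1.viaEmbedding a * p.2.viaEmbedding b) (a i) = a (p.1 i) := by
    intro p i
    rw [Perm.mul_apply, hvb, Perm.viaEmbedding_apply]
  have hinv : ∀ p : Perm (Fin m) × Perm (Fin k),
      ∀ i, (p.1.viaEmbedding a * p.2.viaEmbedding b) i ∈ Finset.univ.map b ↔
        i ∈ Finset.univ.map b := by
    intro p x
    rw [hmem, hmem]
    rcases fr_surj h a b hab x with ⟨i, rfl⟩ | ⟨j, rfl⟩
    · rw [hga]
      constructor
      · rintro ⟨j, hj⟩; exact absurd hj.symm (hab _ j)
      · rintro ⟨j, hj⟩; exact absurd hj.symm (hab _ j)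
    · rw [hgb]
      exact ⟨fun _ => ⟨j, rfl⟩, fun _ => ⟨_, rfl⟩⟩
  unfold frS
  rw [← Finset.sum_filter]
  symm
  apply Finset.sum_bij (fun (p : Perm (Fin m) × Perm (Fin k)) _ =>
    p.1.viaEmbedding a * p.2.viaEmbedding b)
  · intro p _
    rw [Finset.mem_filter]
    exact ⟨Finset.mem_univ _, hinv p⟩
  · intro p _ p' _ hpp
    apply Prod.ext
    · ext1 i
      apply a.injective
      rw [← hga, ← hga, hpp]
    · ext1 j
      apply b.injective
      rw [← hgb, ← hgb, hpp]
  · intro g hg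
    rw [Finset.mem_filter] at hg
    have hg2 := hg.2
    have h1 : ∀ j, ∃ j', b j' = g (b j) := by
      intro j
      rw [← hmem, hg2, hmem]
      exact ⟨j, rfl⟩
    have h2 : ∀ i, ∃ i', a i' = g (a i) := by
      intro i
      rcases fr_surj h a b hab (g (a i)) with hh | ⟨j, hj⟩
      · exact hh
      · exfalso
        have h3 : g (a i) ∈ Finset.univ.map b := (hmem _).2 ⟨j, hj⟩
        rw [hg2, hmem] at h3
        obtain ⟨j', hj'⟩ := h3
        exact hab i j' hj'.symm
    choose f2 hf2 using h1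
    choose f1 hf1 using h2
    have i2 : Function.Injective f2 := by
      intro x y hxy
      apply b.injective
      apply g.injective
      rw [← hf2, ← hf2, hxy]
    have i1 : Function.Injective f1 := by
      intro x y hxy
      apply a.injective
      apply g.injective
      rw [← hf1, ← hf1, hxy]
    refine ⟨(Equiv.ofBijective f1 (Finite.injective_iff_bijective.1 i1),
      Equiv.ofBijective f2 (Finite.injective_iff_bijective.1 i2)), Finset.mem_univ _, ?_⟩
    ext1 x
    rcases fr_surj h a b hab x with ⟨i, rfl⟩ | ⟨j, rfl⟩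
    · rw [hga]
      exact hf1 i
    · rw [hgb]
      exact hf2 j
  · intro p _
    congr 2
    have hr : resT (p.1.viaEmbedding a * p.2.viaEmbedding b) (Finset.univ.map b)
        = p.2.viaEmbedding b := by
      ext1 x
      rcases fr_surj h a b hab x with ⟨i, rfl⟩ | ⟨j, rfl⟩
      · rw [fr_resT_notMem _ _ (hinv p), hvb]
        rw [hmem]
        rintro ⟨j, hj⟩
        exact hab i j hj.symm
      · rw [fr_resT_mem _ _ (hinv p) _ ((hmem _).2 ⟨j, rfl⟩), hgb, Perm.viaEmbedding_apply]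
    rw [hr]
    have hc : (p.2.viaEmbedding b).cycleType = p.2.cycleType := by
      unfold Perm.viaEmbedding
      exact @Perm.cycleType_extendDomain (Fin k) _ _ (Fin n) _ _ (fun x => x ∈ Set.range b)
        (fun x => Classical.propDecidable _) (Equiv.ofInjective b.1 b.2) p.2
    exact hc.symm

theorem frob {n m k : ℕ} (h : m + k = n) (a : Fin m ↪ Fin n) (b : Fin k ↪ Fin n)
    (hab : ∀ i j, a i ≠ b j) (Φ : Perm (Fin n) → ℝ)
    (hΦ : ∀ g x : Perm (Fin n), Φ (x * g * x⁻¹) = Φ g) (θ : Multiset ℕ → ℝ) :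
    (1 / ((m ! : ℝ) * (k ! : ℝ))) * ∑ p : Perm (Fin m) × Perm (Fin k),
        Φ (p.1.viaEmbedding a * p.2.viaEmbedding b) * θ p.2.cycleType =
      (1 / (n ! : ℝ)) * ∑ g : Perm (Fin n), Φ g * ∑ T ∈ invSets g k, θ (resT g T).cycleType := by
  classical
  rw [← frS_base h a b hab Φ θ]
  have h1 : ∑ g : Perm (Fin n), Φ g * ∑ T ∈ invSets g k, θ (resT g T).cycleType
      = ∑ T ∈ Finset.powersetCard k (Finset.univ : Finset (Fin n)), frS Φ θ T := by
    unfold frS
    rw [Finset.sum_comm]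
    apply Finset.sum_congr rfl
    intro g _
    unfold invSets
    rw [Finset.mul_sum, Finset.sum_filter]
  have hT0 : (Finset.univ.map b).card = k := by simp
  have h2 : ∀ T ∈ Finset.powersetCard k (Finset.univ : Finset (Fin n)),
      frS Φ θ T = frS Φ θ (Finset.univ.map b) := by
    intro T hT
    rw [Finset.mem_powersetCard] at hT
    obtain ⟨x, hx⟩ := fr_exists_perm T (Finset.univ.map b) (by rw [hT0, hT.2])
    exact frS_conj Φ hΦ θ T _ x hx
  rw [h1, Finset.sum_congr rfl h2, Finset.sum_const, Finset.card_powersetCard, Finset.card_univ,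
    Fintype.card_fin, nsmul_eq_mul, ← mul_assoc]
  congr 1
  have hk : k ≤ n := by omega
  have hm : n - k = m := by omega
  have h3 := Nat.choose_mul_factorial_mul_factorial hk
  rw [hm] at h3
  have h4 : ((n.choose k : ℕ) : ℝ) * (k ! : ℝ) * (m ! : ℝ) = (n ! : ℝ) := by exact_mod_cast h3
  have hk0 : ((k ! : ℕ) : ℝ) ≠ 0 := by exact_mod_cast (Nat.factorial_pos k).ne'
  have hm0 : ((m ! : ℕ) : ℝ) ≠ 0 := by exact_mod_cast (Nat.factorial_pos m).ne'
  have hn0 : ((n ! : ℕ) : ℝ) ≠ 0 := by exact_mod_cast (Nat.factorial_pos n).ne'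
  rw [one_div, one_div, inv_mul_eq_div, inv_eq_one_div, div_eq_div_iff (mul_ne_zero hm0 hk0) hn0,
    ← h4]
  ring

end Pool.MP322
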