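import Pool.Agent.Lib.MP_322c5f_al.Frob

/-! job SQ-30: sums over invariant sets in terms of the cycles. -/

set_option autoImplicit false

open Equiv Finset Nat

namespace Pool.MP322

theorem ais75 {n : ℕ} (f : Perm (Fin n)) (x : Fin n) : f (f⁻¹ x) = x := f.apply_symm_apply x

theorem mem_invSets {n : ℕ} {g : Perm (Fin n)} {k : ℕ} {T : Finset (Fin n)} :
    T ∈ invSets g k ↔ T.card = k ∧ ∀ i, g i ∈ T ↔ i ∈ T := by
  classical
  simp [invSets, Finset.mem_powersetCard]

theorem resT_apply {n : ℕ} {g : Perm (Fin n)} {T : Finset (Fin n)}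
    (h : ∀ i, g i ∈ T ↔ i ∈ T) (a : Fin n) : resT g T a = if a ∈ T then g a else a := by
  classical
  unfold resT
  rw [dif_pos h]
  by_cases ha : a ∈ T
  · rw [if_pos ha, Perm.ofSubtype_apply_of_mem (p := fun i => i ∈ T) _ ha]
    rfl
  · rw [if_neg ha, Perm.ofSubtype_apply_of_not_mem (p := fun i => i ∈ T) _ ha]

/-- the cycles inside `T` -/
def cyc {n : ℕ} (g : Perm (Fin n)) (T : Finset (Fin n)) : Finset (Perm (Fin n)) :=
  g.cycleFactorsFinset.filter (fun c => c.support ⊆ T)

theorem cff_resT {n : ℕ} {g : Perm (Fin n)} {T : Finset (Fin n)}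
    (h : ∀ i, g i ∈ T ↔ i ∈ T) : (resT g T).cycleFactorsFinset = cyc g T := by
  ext c
  rw [cyc, Finset.mem_filter, Perm.mem_cycleFactorsFinset_iff, Perm.mem_cycleFactorsFinset_iff]
  constructor
  · rintro ⟨h1, h2⟩
    have h3 : ∀ a ∈ c.support, a ∈ T := by
      intro a ha
      by_contra hT
      have := h2 a ha
      rw [resT_apply h, if_neg hT] at this
      exact (Perm.mem_support.1 ha) this
    refine ⟨⟨h1, fun a ha => ?_⟩, h3⟩
    have := h2 a ha
    rwa [resT_apply h, if_pos (h3 a ha)] at this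
  · rintro ⟨⟨h1, h2⟩, h3⟩
    refine ⟨h1, fun a ha => ?_⟩
    rw [resT_apply h, if_pos (h3 ha)]
    exact h2 a ha

theorem cycleType_resT {n : ℕ} {g : Perm (Fin n)} {T : Finset (Fin n)}
    (h : ∀ i, g i ∈ T ↔ i ∈ T) :
    (resT g T).cycleType = (cyc g T).val.map (fun c => c.support.card) := by
  rw [Perm.cycleType_def, cff_resT h]
  rfl

theorem mem_of_sameCycle {n : ℕ} {g : Perm (Fin n)} {T : Finset (Fin n)}
    (h : ∀ i, g i ∈ T ↔ i ∈ T) {a b : Fin n} (hab : g.SameCycle a b) : a ∈ T → b ∈ T := by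
  obtain ⟨i, hi⟩ := hab
  have h' : ∀ i, g⁻¹ i ∈ T ↔ i ∈ T := by
    intro i
    have := h (g⁻¹ i)
    rw [ais75] at this
    exact this.symm
  have key : ∀ (m : ℕ) (x : Fin n), (g ^ m) x ∈ T ↔ x ∈ T := by
    intro m
    induction m with
    | zero => intro x; simp
    | succ m ih => intro x; rw [pow_succ, Perm.mul_apply, ih, h]
  have key' : ∀ (m : ℕ) (x : Fin n), ((g⁻¹) ^ m) x ∈ T ↔ x ∈ T := by
    intro m
    induction m with
    | zero => intro x; simp
    | succ m ih => intro x; rw [pow_succ, Perm.mul_apply, ih, h']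
  intro ha
  rw [← hi]
  cases i with
  | ofNat m =>
    rw [Int.ofNat_eq_natCast, zpow_natCast, key]
    exact ha
  | negSucc m =>
    rw [zpow_negSucc, ← inv_pow, key']
    exact ha

theorem supp_inv {n : ℕ} {g c : Perm (Fin n)} (hc : c ∈ g.cycleFactorsFinset) (i : Fin n) :
    g i ∈ c.support ↔ i ∈ c.support := by
  rw [Perm.mem_cycleFactorsFinset_iff] at hc
  constructor
  · intro h
    have h1 : c⁻¹ (g i) ∈ c.support := by
      have : c (c⁻¹ (g i)) ∈ c.support := by rwa [ais75]
      rwa [Perm.apply_mem_support] at this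
    have h2 := hc.2 _ h1
    rw [ais75] at h2
    have h3 : i = c⁻¹ (g i) := g.injective h2
    rw [h3]
    exact h1
  · intro h
    rw [← hc.2 i h, Perm.apply_mem_support]
    exact h

theorem cyc_eq_of_mem {n : ℕ} {g c c' : Perm (Fin n)} (hc : c ∈ g.cycleFactorsFinset)
    (hc' : c' ∈ g.cycleFactorsFinset) {a : Fin n} (h : a ∈ c.support) (h' : a ∈ c'.support) :
    c = c' := by
  rw [Perm.cycle_is_cycleOf h hc, Perm.cycle_is_cycleOf h' hc']

/-- the union of the supports -/
def uni {n : ℕ} (C : Finset (Perm (Fin n))) : Finset (Fin n) := C.biUnion (fun c => c.support)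

theorem card_uni {n : ℕ} {g : Perm (Fin n)} {C : Finset (Perm (Fin n))}
    (hC : C ⊆ g.cycleFactorsFinset) : (uni C).card = ∑ c ∈ C, c.support.card := by
  unfold uni
  apply Finset.card_biUnion
  intro c hc c' hc' hne
  show Disjoint c.support c'.support
  rw [Finset.disjoint_left]
  intro a h h'
  exact hne (cyc_eq_of_mem (hC hc) (hC hc') h h')

theorem uni_subset {n : ℕ} {g : Perm (Fin n)} {C : Finset (Perm (Fin n))}
    (hC : C ⊆ g.cycleFactorsFinset) : uni C ⊆ g.support := by
  intro a ha
  obtain ⟨c, hc, h⟩ := Finset.mem_biUnion.1 ha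
  exact Perm.mem_cycleFactorsFinset_support_le (hC hc) h

/-- an invariant set is the union of its cycles and of fixed points -/
theorem inv_inter {n : ℕ} {g : Perm (Fin n)} {T : Finset (Fin n)}
    (h : ∀ i, g i ∈ T ↔ i ∈ T) : uni (cyc g T) ∪ (T \ g.support) = T := by
  ext a
  rw [Finset.mem_union, Finset.mem_sdiff]
  constructor
  · rintro (ha | ha)
    · obtain ⟨c, hc, h1⟩ := Finset.mem_biUnion.1 ha
      exact (Finset.mem_filter.1 hc).2 h1
    · exact ha.1
  · intro ha
    by_cases hs : a ∈ g.support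
    · left
      refine Finset.mem_biUnion.2 ⟨g.cycleOf a, ?_, ?_⟩
      · rw [cyc, Finset.mem_filter]
        refine ⟨Perm.cycleOf_mem_cycleFactorsFinset_iff.2 hs, ?_⟩
        intro b hb
        rw [Perm.mem_support_cycleOf_iff] at hb
        exact mem_of_sameCycle h hb.1 ha
      · rw [Perm.mem_support_cycleOf_iff]
        exact ⟨Perm.SameCycle.refl _ _, hs⟩
    · exact Or.inr ⟨ha, hs⟩

theorem union_inv {n : ℕ} {g : Perm (Fin n)} {C : Finset (Perm (Fin n))} {T0 : Finset (Fin n)}
    (hC : C ⊆ g.cycleFactorsFinset) (hT : T0 ⊆ Finset.univ \ g.support) (i : Fin n) :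
    g i ∈ uni C ∪ T0 ↔ i ∈ uni C ∪ T0 := by
  rw [Finset.mem_union, Finset.mem_union]
  have hfix : ∀ j ∈ T0, g j = j := by
    intro j hj
    have := hT hj
    rw [Finset.mem_sdiff, Perm.mem_support, not_not] at this
    exact this.2
  constructor
  · rintro (h | h)
    · left
      obtain ⟨c, hc, h1⟩ := Finset.mem_biUnion.1 h
      exact Finset.mem_biUnion.2 ⟨c, hc, (supp_inv (hC hc) i).1 h1⟩
    · right
      have := g.injective (hfix _ h)
      rwa [this] at h
  · rintro (h | h)
    · left
      obtain ⟨c, hc, h1⟩ := Finset.mem_biUnion.1 h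
      exact Finset.mem_biUnion.2 ⟨c, hc, (supp_inv (hC hc) i).2 h1⟩
    · right
      rwa [hfix i h]

theorem cyc_union {n : ℕ} {g : Perm (Fin n)} {C : Finset (Perm (Fin n))} {T0 : Finset (Fin n)}
    (hC : C ⊆ g.cycleFactorsFinset) (hT : T0 ⊆ Finset.univ \ g.support) :
    cyc g (uni C ∪ T0) = C := by
  ext c
  rw [cyc, Finset.mem_filter]
  constructor
  · rintro ⟨h1, h2⟩
    have hcyc : c.IsCycle := (Perm.mem_cycleFactorsFinset_iff.1 h1).1
    obtain ⟨a, ha, -⟩ := hcyc
    have ha' : a ∈ c.support := Perm.mem_support.2 ha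
    rcases Finset.mem_union.1 (h2 ha') with h | h
    · obtain ⟨c', hc', h3⟩ := Finset.mem_biUnion.1 h
      rw [cyc_eq_of_mem h1 (hC hc') ha' h3]
      exact hc'
    · exfalso
      have := hT h
      rw [Finset.mem_sdiff] at this
      exact this.2 (Perm.mem_cycleFactorsFinset_support_le h1 ha')
  · intro h
    refine ⟨hC h, fun a ha => ?_⟩
    exact Finset.mem_union_left _ (Finset.mem_biUnion.2 ⟨c, h, ha⟩)

theorem card_fiber {n : ℕ} (g : Perm (Fin n)) (k : ℕ) {C : Finset (Perm (Fin n))}
    (hC : C ⊆ g.cycleFactorsFinset) :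
    ((invSets g k).filter (fun T => cyc g T = C)).card =
      if ∑ c ∈ C, c.support.card ≤ k then
        (n - g.support.card).choose (k - ∑ c ∈ C, c.support.card) else 0 := by
  have hdis : ∀ T0 ⊆ Finset.univ \ g.support, Disjoint (uni C) T0 := by
    intro T0 hT
    rw [Finset.disjoint_left]
    intro a h1 h2
    have := hT h2
    rw [Finset.mem_sdiff] at this
    exact this.2 (uni_subset hC h1)
  split_ifs with hk
  · have h1 : (Finset.univ \ g.support).card = n - g.support.card := by
      rw [Finset.card_sdiff_of_subset (Finset.subset_univ _), Finset.card_univ, Fintype.card_fin]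
    rw [← h1, ← Finset.card_powersetCard]
    refine Finset.card_bij' (fun T _ => T \ g.support) (fun T0 _ => uni C ∪ T0) ?_ ?_ ?_ ?_
    · intro T hT
      rw [Finset.mem_filter, mem_invSets] at hT
      obtain ⟨⟨h2, h3⟩, h4⟩ := hT
      rw [Finset.mem_powersetCard]
      have hsub : T \ g.support ⊆ Finset.univ \ g.support :=
        Finset.sdiff_subset_sdiff (Finset.subset_univ _) le_rfl
      refine ⟨hsub, ?_⟩
      have h5 := inv_inter h3
      rw [h4] at h5
      have h6 := Finset.card_union_of_disjoint (hdis _ hsub)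
      rw [h5, h2, card_uni hC] at h6
      omega
    · intro T0 hT0
      rw [Finset.mem_powersetCard] at hT0
      rw [Finset.mem_filter, mem_invSets]
      refine ⟨⟨?_, union_inv hC hT0.1⟩, cyc_union hC hT0.1⟩
      rw [Finset.card_union_of_disjoint (hdis _ hT0.1), card_uni hC, hT0.2]
      omega
    · intro T hT
      rw [Finset.mem_filter, mem_invSets] at hT
      obtain ⟨⟨h2, h3⟩, h4⟩ := hT
      have h5 := inv_inter h3
      rw [h4] at h5
      exact h5
    · intro T0 hT0
      rw [Finset.mem_powersetCard] at hT0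
      ext a
      rw [Finset.mem_sdiff, Finset.mem_union]
      constructor
      · rintro ⟨h2 | h2, h3⟩
        · exact absurd (uni_subset hC h2) h3
        · exact h2
      · intro h2
        have := hT0.1 h2
        rw [Finset.mem_sdiff] at this
        exact ⟨Or.inr h2, this.2⟩
  · rw [Finset.card_eq_zero, Finset.filter_eq_empty_iff]
    intro T hT h4
    rw [mem_invSets] at hT
    obtain ⟨h2, h3⟩ := hT
    have h5 := inv_inter h3
    rw [h4] at h5
    have h6 : (uni C).card ≤ T.card := by
      apply Finset.card_le_card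
      rw [← h5]
      exact Finset.subset_union_left
    rw [card_uni hC, h2] at h6
    exact hk h6

/-- expansion of the sum over invariant sets over sets of nontrivial cycles. -/
theorem sum_invSets {n : ℕ} (g : Perm (Fin n)) (k : ℕ) (θ : Multiset ℕ → ℝ) :
    ∑ T ∈ invSets g k, θ (resT g T).cycleType =
      ∑ 𝒞 ∈ g.cycleFactorsFinset.powerset,
        (if ∑ c ∈ 𝒞, c.support.card ≤ k then
            (((n - g.support.card).choose (k - ∑ c ∈ 𝒞, c.support.card) : ℕ) : ℝ) else 0) *
          θ (𝒞.val.map (fun c => c.support.card)) := by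
  have h1 : ∀ T ∈ invSets g k, cyc g T ∈ g.cycleFactorsFinset.powerset := by
    intro T _
    rw [Finset.mem_powerset]
    exact Finset.filter_subset _ _
  rw [← Finset.sum_fiberwise_of_maps_to h1]
  refine Finset.sum_congr rfl fun C hC => ?_
  rw [Finset.mem_powerset] at hC
  have h2 : ∀ T ∈ (invSets g k).filter (fun T => cyc g T = C),
      θ (resT g T).cycleType = θ (C.val.map (fun c => c.support.card)) := by
    intro T hT
    rw [Finset.mem_filter, mem_invSets] at hT
    rw [cycleType_resT hT.1.2, hT.2]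
  rw [Finset.sum_congr rfl h2, Finset.sum_const, card_fiber g k hC, nsmul_eq_mul]
  congr 1
  split_ifs <;> simp

end Pool.MP322
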