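import Pool.Agent.Lib.MP_322c5f_al.Avg
import Pool.Agent.Lib.MP_322c5f_al.Cons2
import Pool.Agent.Lib.MP_322c5f_al.Kr

/-! job SQ-37: a map satisfying `KCond` inside `V_lam ⊗ V_lam` from a dimension count over
a set of diagrams. -/

set_option autoImplicit false

open Equiv Finset Nat

namespace Pool.MP322

section GenSDAux

variable {m k : ℕ}

private noncomputable def gsA (lam : Y (m + (k + 1))) (nu : Y (k + 1)) (alp : Y m) :
    Perm (Fin (k + 1)) →* Matrix
      ((Tab alp.1 lam.1 (k + 1) × Tab alp.1 lam.1 (k + 1)) × Tab ⊥ nu.1 (k + 1))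
      ((Tab alp.1 lam.1 (k + 1) × Tab alp.1 lam.1 (k + 1)) × Tab ⊥ nu.1 (k + 1)) ℝ :=
  kr (kr (rep alp.1 lam.1 (k + 1)) (rep alp.1 lam.1 (k + 1))) (rep ⊥ nu.1 (k + 1))

private noncomputable def gsB (lam : Y (m + (k + 1))) (nu : Y (k + 1)) (bet : Y (m + 1)) :
    Perm (Fin k) →* Matrix
      ((Tab bet.1 lam.1 k × Tab bet.1 lam.1 k) × Tab ⊥ nu.1 (k + 1))
      ((Tab bet.1 lam.1 k × Tab bet.1 lam.1 k) × Tab ⊥ nu.1 (k + 1)) ℝ :=
  kr (kr (rep bet.1 lam.1 k) (rep bet.1 lam.1 k)) ((rep ⊥ nu.1 (k + 1)).comp (up k))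

private noncomputable def gsE (lam : Y (m + (k + 1))) (nu : Y (k + 1)) (alp : Y m)
    (bet : Y (m + 1)) (h : alp.1 ≤ bet.1) :
    (Tab bet.1 lam.1 k × Tab bet.1 lam.1 k) × Tab ⊥ nu.1 (k + 1) →
      (Tab alp.1 lam.1 (k + 1) × Tab alp.1 lam.1 (k + 1)) × Tab ⊥ nu.1 (k + 1) :=
  fun p => ((consY alp bet h p.1.1, consY alp bet h p.1.2), p.2)

private theorem gsE_inj (lam : Y (m + (k + 1))) (nu : Y (k + 1)) (alp : Y m)
    (bet : Y (m + 1)) (h : alp.1 ≤ bet.1) : Function.Injective (gsE lam nu alp bet h) := by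
  rintro ⟨⟨a, b⟩, c⟩ ⟨⟨a', b'⟩, c'⟩ heq
  simp only [gsE, Prod.mk.injEq] at heq
  obtain ⟨⟨h1, h2⟩, h3⟩ := heq
  rw [consY_inj alp bet h _ _ h1, consY_inj alp bet h _ _ h2, h3]

private theorem gs_restr (lam : Y (m + (k + 1))) (nu : Y (k + 1)) (alp : Y m)
    (bet : Y (m + 1)) (h : alp.1 ≤ bet.1)
    (v : (Tab alp.1 lam.1 (k + 1) × Tab alp.1 lam.1 (k + 1)) × Tab ⊥ nu.1 (k + 1) → ℝ)
    (hv : v ∈ invSub (gsA lam nu alp)) :
    (fun p => v (gsE lam nu alp bet h p)) ∈ invSub (gsB lam nu bet) := by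
  intro π
  funext p
  have hp := congrFun (hv (up k π)) (gsE lam nu alp bet h p)
  show _ = v (gsE lam nu alp bet h p)
  rw [← hp]
  simp only [Matrix.mulVec, dotProduct]
  apply Fintype.sum_of_injective (gsE lam nu alp bet h) (gsE_inj lam nu alp bet h)
  · rintro ⟨⟨x, y⟩, s⟩ hx
    have : gsA lam nu alp (up k π) (gsE lam nu alp bet h p) ((x, y), s) = 0 := by
      obtain ⟨b1, h1, z1, rfl⟩ := exists_consY alp x
      obtain ⟨b2, h2, z2, rfl⟩ := exists_consY alp y
      unfold gsA gsE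
      rw [kr_apply, kr_apply]
      by_cases e1 : bet = b1
      · by_cases e2 : bet = b2
        · subst e1
          subst e2
          exact absurd ⟨((z1, z2), s), rfl⟩ hx
        · rw [rep_cons_ne alp bet b2 h h2 e2, mul_zero, zero_mul]
      · rw [rep_cons_ne alp bet b1 h h1 e1, zero_mul, zero_mul]
    rw [this, zero_mul]
  · intro q
    have : gsB lam nu bet π p q =
        gsA lam nu alp (up k π) (gsE lam nu alp bet h p) (gsE lam nu alp bet h q) := by
      unfold gsA gsB gsE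
      rw [kr_apply, kr_apply, kr_apply, kr_apply]
      simp only
      rw [rep_cons_same, rep_cons_same]
      rfl
    rw [this]

open Classical in
private noncomputable def gsM (lam : Y (m + (k + 1))) (nu : Y (k + 1)) (alp : Y m)
    (bet : Y (m + 1)) : invSub (gsA lam nu alp) →ₗ[ℝ] invSub (gsB lam nu bet) :=
  if h : alp.1 ≤ bet.1 then
    { toFun := fun v => ⟨fun p => v.1 (gsE lam nu alp bet h p),
        gs_restr lam nu alp bet h v.1 v.2⟩
      map_add' := fun _ _ => rfl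
      map_smul' := fun _ _ => rfl }
  else 0

private theorem gsM_pos (lam : Y (m + (k + 1))) (nu : Y (k + 1)) (alp : Y m)
    (bet : Y (m + 1)) (h : alp.1 ≤ bet.1) (v : invSub (gsA lam nu alp)) (p) :
    (gsM lam nu alp bet v).1 p = v.1 (gsE lam nu alp bet h p) := by
  unfold gsM
  rw [dif_pos h]
  rfl

private theorem gsM_neg (lam : Y (m + (k + 1))) (nu : Y (k + 1)) (alp : Y m)
    (bet : Y (m + 1)) (h : ¬ alp.1 ≤ bet.1) (v : invSub (gsA lam nu alp)) :
    gsM lam nu alp bet v = 0 := by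
  unfold gsM
  rw [dif_neg h]
  rfl

private noncomputable def gsL (lam : Y (m + (k + 1))) (nu : Y (k + 1)) (𝒜 : Finset (Y m))
    (ℬ : Finset (Y (m + 1))) :
    (∀ a : {a // a ∈ 𝒜}, invSub (gsA lam nu a.1)) →ₗ[ℝ]
      (∀ b : {b // b ∈ ℬ}, invSub (gsB lam nu b.1)) :=
  LinearMap.pi fun b => ∑ a : {a // a ∈ 𝒜},
    fd a.1 • (gsM lam nu a.1 b.1).comp (LinearMap.proj a)

private theorem gsL_apply (lam : Y (m + (k + 1))) (nu : Y (k + 1)) (𝒜 : Finset (Y m))
    (ℬ : Finset (Y (m + 1))) (F : ∀ a : {a // a ∈ 𝒜}, invSub (gsA lam nu a.1))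
    (b : {b // b ∈ ℬ}) (p) :
    (gsL lam nu 𝒜 ℬ F b).1 p = ∑ a : {a // a ∈ 𝒜}, fd a.1 * (gsM lam nu a.1 b.1 (F a)).1 p := by
  unfold gsL
  rw [LinearMap.pi_apply, LinearMap.sum_apply, Submodule.coe_sum, Finset.sum_apply]
  rfl

private theorem gs_finrankA (lam : Y (m + (k + 1))) (nu : Y (k + 1)) (𝒜 : Finset (Y m)) :
    (Module.finrank ℝ (∀ a : {a // a ∈ 𝒜}, invSub (gsA lam nu a.1)) : ℝ) =
      (1 / ((k + 1)! : ℝ)) * ∑ alp ∈ 𝒜, ∑ π : Perm (Fin (k + 1)),
        (rep alp.1 lam.1 (k + 1) π).trace ^ 2 * chi nu π := by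
  rw [Module.finrank_pi_fintype, Nat.cast_sum, ← Finset.sum_coe_sort 𝒜, Finset.mul_sum]
  apply Finset.sum_congr rfl
  intro a _
  rw [inv_dim, Fintype.card_perm, Fintype.card_fin]
  congr 1
  apply Finset.sum_congr rfl
  intro π _
  unfold gsA
  rw [kr_trace, kr_trace, sq]
  rfl

private theorem gs_finrankB (lam : Y (m + (k + 1))) (nu : Y (k + 1)) (ℬ : Finset (Y (m + 1))) :
    (Module.finrank ℝ (∀ b : {b // b ∈ ℬ}, invSub (gsB lam nu b.1)) : ℝ) =
      (1 / (k ! : ℝ)) * ∑ bet ∈ ℬ, ∑ π : Perm (Fin k),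
        (rep bet.1 lam.1 k π).trace ^ 2 * chi nu (up k π) := by
  rw [Module.finrank_pi_fintype, Nat.cast_sum, ← Finset.sum_coe_sort ℬ, Finset.mul_sum]
  apply Finset.sum_congr rfl
  intro a _
  rw [inv_dim, Fintype.card_perm, Fintype.card_fin]
  congr 1
  apply Finset.sum_congr rfl
  intro π _
  unfold gsB
  rw [kr_trace, kr_trace, sq]
  rfl

private theorem gs_ptr_sum {lam : YoungDiagram} {gam : YoungDiagram} {a b n : ℕ} (h : a + b = n)
    {ι : Type*} (s : Finset ι) (X : ι → Matrix (Tab ⊥ lam n) (Tab ⊥ lam n) ℝ) :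
    ptr (gam := gam) h (∑ i ∈ s, X i) = ∑ i ∈ s, ptr (gam := gam) h (X i) := by
  ext t t'
  rw [Matrix.sum_apply]
  unfold ptr
  rw [Finset.sum_comm]
  apply Finset.sum_congr rfl
  intro u _
  rw [Matrix.sum_apply]

private theorem gs_Jm_lin {lam gam : YoungDiagram} {a b n : ℕ} (h : a + b = n)
    {κ : Type*} [Fintype κ] (c : κ → ℝ) (X : κ → Matrix (Tab gam lam b) (Tab gam lam b) ℝ) :
    Jm (m := a) h (∑ s, c s • X s) = ∑ s, c s • Jm (m := a) h (X s) := by
  ext x y
  rw [Matrix.sum_apply]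
  simp_rw [Matrix.smul_apply]
  unfold Jm
  simp_rw [smul_eq_mul, Finset.mul_sum]
  symm
  rw [Finset.sum_comm]
  apply Finset.sum_congr rfl
  intro u _
  rw [Finset.sum_comm]
  apply Finset.sum_congr rfl
  intro t _
  rw [Finset.sum_comm]
  apply Finset.sum_congr rfl
  intro t' _
  split_ifs
  · rw [Matrix.sum_apply]
    rfl
  · simp

private def gsP {ι κ : Type*} (X : κ → Matrix ι ι ℝ) : Matrix (ι × ι) κ ℝ :=
  fun q t => X t q.1 q.2

private theorem gs_kr_mul {G ι κ : Type*} [Monoid G] [Fintype ι] [DecidableEq ι]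
    (R : G →* Matrix ι ι ℝ) (g : G) (X : κ → Matrix ι ι ℝ) (p : ι × ι) (t : κ) :
    (kr R R g * gsP X) p t = (R g * X t * (R g).transpose) p.1 p.2 := by
  rw [Matrix.mul_apply, Matrix.mul_apply, Fintype.sum_prod_type, Finset.sum_comm]
  apply Finset.sum_congr rfl
  intro y _
  rw [Matrix.mul_apply, Finset.sum_mul]
  apply Finset.sum_congr rfl
  intro x _
  rw [kr_apply, Matrix.transpose_apply]
  unfold gsP
  ring

/-- the matrix `F(.,.,t)`. -/
private noncomputable def gsF (lam : Y (m + (k + 1))) (nu : Y (k + 1)) (alp : Y m)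
    (v : (Tab alp.1 lam.1 (k + 1) × Tab alp.1 lam.1 (k + 1)) × Tab ⊥ nu.1 (k + 1) → ℝ)
    (t : Tab ⊥ nu.1 (k + 1)) : Matrix (Tab alp.1 lam.1 (k + 1)) (Tab alp.1 lam.1 (k + 1)) ℝ :=
  fun x y => v ((x, y), t)

private theorem gs_inv1 (lam : Y (m + (k + 1))) (nu : Y (k + 1)) (alp : Y m)
    (v : (Tab alp.1 lam.1 (k + 1) × Tab alp.1 lam.1 (k + 1)) × Tab ⊥ nu.1 (k + 1) → ℝ)
    (hv : v ∈ invSub (gsA lam nu alp)) (π : Perm (Fin (k + 1))) (t : Tab ⊥ nu.1 (k + 1)) :
    ∑ s, rep ⊥ nu.1 (k + 1) π t s • (rep alp.1 lam.1 (k + 1) π * gsF lam nu alp v s *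
      rep alp.1 lam.1 (k + 1) π⁻¹) = gsF lam nu alp v t := by
  ext x y
  have h := congrFun (hv π) ((x, y), t)
  show _ = v ((x, y), t)
  rw [← h, Matrix.sum_apply]
  simp only [Matrix.mulVec, dotProduct]
  rw [Fintype.sum_prod_type_right]
  apply Finset.sum_congr rfl
  intro s _
  rw [Matrix.smul_apply, ← rep_transpose, Matrix.mul_apply, Fintype.sum_prod_type_right,
    smul_eq_mul, Finset.mul_sum]
  apply Finset.sum_congr rfl
  intro y' _
  rw [Matrix.mul_apply, Finset.sum_mul, Finset.mul_sum]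
  apply Finset.sum_congr rfl
  intro x' _
  unfold gsA gsF
  rw [kr_apply, kr_apply, Matrix.transpose_apply]
  ring

private theorem gs_inv2 (lam : Y (m + (k + 1))) (nu : Y (k + 1)) (alp : Y m)
    (v : (Tab alp.1 lam.1 (k + 1) × Tab alp.1 lam.1 (k + 1)) × Tab ⊥ nu.1 (k + 1) → ℝ)
    (hv : v ∈ invSub (gsA lam nu alp)) (π : Perm (Fin (k + 1))) (t : Tab ⊥ nu.1 (k + 1)) :
    rep alp.1 lam.1 (k + 1) π * gsF lam nu alp v t * rep alp.1 lam.1 (k + 1) π⁻¹ =
      ∑ s, rep ⊥ nu.1 (k + 1) π s t • gsF lam nu alp v s := by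
  have h := gs_inv1 lam nu alp v hv π
  set G := fun s => rep alp.1 lam.1 (k + 1) π * gsF lam nu alp v s *
      rep alp.1 lam.1 (k + 1) π⁻¹ with hG
  have h1 : ∀ s, gsF lam nu alp v s = ∑ r, rep ⊥ nu.1 (k + 1) π s r • G r := fun s => (h s).symm
  show G t = _
  simp_rw [h1, Finset.smul_sum, smul_smul]
  rw [Finset.sum_comm]
  have h2 : ∀ r, ∑ s, rep ⊥ nu.1 (k + 1) π s t * rep ⊥ nu.1 (k + 1) π s r =
      (1 : Matrix (Tab ⊥ nu.1 (k + 1)) (Tab ⊥ nu.1 (k + 1)) ℝ) t r := by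
    intro r
    rw [← map_one (rep ⊥ nu.1 (k + 1)), ← inv_mul_cancel π, map_mul, Matrix.mul_apply,
      ← rep_transpose]
    rfl
  simp_rw [← Finset.sum_smul, h2, Matrix.one_apply, ite_smul, one_smul, zero_smul]
  rw [Finset.sum_ite_eq]
  simp

end GenSDAux

theorem gen_sd {m k : ℕ} (lam : Y (m + (k + 1))) (nu : Y (k + 1)) (𝒜 : Finset (Y m))
    (ℬ : Finset (Y (m + 1)))
    (hℬ : ∀ alp ∈ 𝒜, ∀ bet : Y (m + 1), alp.1 ≤ bet.1 → bet.1 ≤ lam.1 → bet ∈ ℬ)
    (hdim : (1 / (k ! : ℝ)) * ∑ bet ∈ ℬ, ∑ π : Perm (Fin k),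
        (rep bet.1 lam.1 k π).trace ^ 2 * chi nu (up k π) <
      (1 / ((k + 1)! : ℝ)) * ∑ alp ∈ 𝒜, ∑ π : Perm (Fin (k + 1)),
        (rep alp.1 lam.1 (k + 1) π).trace ^ 2 * chi nu π) :
    ∃ f : Matrix (Tab ⊥ lam.1 (m + (k + 1)) × Tab ⊥ lam.1 (m + (k + 1))) (Tab ⊥ nu.1 (k + 1)) ℝ,
      KCond nu (kr (rep ⊥ lam.1 (m + (k + 1))) (rep ⊥ lam.1 (m + (k + 1)))) f := by
  classical
  -- a nonzero element of the kernel
  have hlt : Module.finrank ℝ (∀ b : {b // b ∈ ℬ}, invSub (gsB lam nu b.1)) <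
      Module.finrank ℝ (∀ a : {a // a ∈ 𝒜}, invSub (gsA lam nu a.1)) := by
    have := hdim
    rw [← gs_finrankA, ← gs_finrankB] at this
    exact_mod_cast this
  have hker := LinearMap.ker_ne_bot_of_finrank_lt (f := gsL lam nu 𝒜 ℬ) hlt
  obtain ⟨F, hF, hF0⟩ := Submodule.exists_mem_ne_zero_of_ne_bot hker
  rw [LinearMap.mem_ker] at hF
  -- the maps `phi_t`
  set ph : Tab ⊥ nu.1 (k + 1) →
      Matrix (Tab ⊥ lam.1 (m + (k + 1))) (Tab ⊥ lam.1 (m + (k + 1))) ℝ :=
    fun t => ∑ a : {a // a ∈ 𝒜}, Jm (m := m) rfl (gsF lam nu a.1 (F a).1 t) with hph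
  -- partial traces
  have hptr : ∀ (alp : Y m) (t : Tab ⊥ nu.1 (k + 1)),
      ptr (gam := alp.1) (show m + (k + 1) = m + (k + 1) from rfl) (ph t) =
        if h : alp ∈ 𝒜 then fd alp • gsF lam nu alp (F ⟨alp, h⟩).1 t else 0 := by
    intro alp t
    rw [hph]
    simp only
    rw [gs_ptr_sum]
    split_ifs with h
    · rw [Finset.sum_eq_single (⟨alp, h⟩ : {a // a ∈ 𝒜})]
      · exact ptr_Jm_same rfl alp _
      · intro b _ hb
        exact ptr_Jm_ne rfl b.1 alp (fun hc => hb (Subtype.ext hc)) _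
      · intro hc
        exact absurd (Finset.mem_univ _) hc
    · apply Finset.sum_eq_zero
      intro b _
      exact ptr_Jm_ne rfl b.1 alp (fun hc => h (hc ▸ b.2)) _
  -- commutation with `S_m`
  have hcomm : ∀ (σ : Perm (Fin m)) (t : Tab ⊥ nu.1 (k + 1)),
      rep ⊥ lam.1 (m + (k + 1)) (iL m (k + 1) σ) * ph t =
        ph t * rep ⊥ lam.1 (m + (k + 1)) (iL m (k + 1) σ) := by
    intro σ t
    rw [hph]
    simp only
    rw [Finset.mul_sum, Finset.sum_mul]
    apply Finset.sum_congr rfl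
    intro a _
    have := Jm_L (gam := a.1.1) (lam := lam.1) (m := m) (k := k + 1) rfl
      (Nat.le_add_right m (k + 1)) (gsF lam nu a.1 (F a).1 t) σ
    rw [pL_iL] at this
    exact this
  refine ⟨gsP ph, ?_, ?_, ?_, ?_⟩
  · -- nonzero
    intro h0
    apply hF0
    have hz : ∀ t, ph t = 0 := by
      intro t
      ext x y
      exact congrFun (congrFun h0 (x, y)) t
    funext a
    apply Subtype.ext
    funext p
    have h1 := hptr a.1 p.2
    rw [hz, dif_pos a.2] at h1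
    have h2 : ptr (gam := a.1.1) (show m + (k + 1) = m + (k + 1) from rfl)
        (0 : Matrix (Tab ⊥ lam.1 (m + (k + 1))) (Tab ⊥ lam.1 (m + (k + 1))) ℝ) = 0 := by
      ext x y
      unfold ptr
      simp
    rw [h2] at h1
    have h3 := congrFun (congrFun h1 p.1.1) p.1.2
    rw [Matrix.smul_apply] at h3
    have h4 := fd_pos a.1
    have h5 : gsF lam nu a.1 (F a).1 p.2 p.1.1 p.1.2 = 0 := by
      rcases mul_eq_zero.1 h3.symm with h6 | h6
      · exact absurd h6 h4.ne'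
      · exact h6
    exact h5
  · -- equivariance for the last letters
    intro π
    ext p t
    rw [gs_kr_mul, rep_transpose, ← map_inv]
    have key : rep ⊥ lam.1 (m + (k + 1)) (iR m (k + 1) π) * ph t *
        rep ⊥ lam.1 (m + (k + 1)) (iR m (k + 1) π⁻¹) =
        ∑ s, rep ⊥ nu.1 (k + 1) π s t • ph s := by
      rw [hph]
      simp only
      rw [Finset.mul_sum, Finset.sum_mul]
      simp_rw [Finset.smul_sum]
      rw [Finset.sum_comm]
      apply Finset.sum_congr rfl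
      intro a _
      rw [Jm_R_left, Jm_R_right, gs_inv2 lam nu a.1 (F a).1 (F a).2 π t]
      exact gs_Jm_lin rfl _ _
    rw [key, Matrix.sum_apply, Matrix.mul_apply]
    apply Finset.sum_congr rfl
    intro s _
    rw [Matrix.smul_apply, smul_eq_mul, mul_comm]
    rfl
  · -- invariance for the first letters
    intro σ
    ext p t
    rw [gs_kr_mul, rep_transpose, hcomm, Matrix.mul_assoc, ← map_mul, mul_inv_cancel, map_one,
      Matrix.mul_one]
    rfl
  · -- averaging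
    have hav : ∀ t, ph t + ∑ b : Fin m,
        rep ⊥ lam.1 (m + (k + 1)) (swap (Fin.castAdd (k + 1) b) (Fin.natAdd m 0)) * ph t *
        rep ⊥ lam.1 (m + (k + 1)) (swap (Fin.castAdd (k + 1) b) (Fin.natAdd m 0)) = 0 := by
      intro t
      apply avg_zero
      · intro σ
        exact hcomm σ t
      · intro bet
        ext y y'
        rw [ptr_succ (show m + 1 + k = m + (k + 1) by omega) rfl bet (ph t) y y']
        simp_rw [hptr]
        have hble : bet.1 ≤ lam.1 := by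
          intro c hc
          exact (y.2.2.2.1 c).2 (Or.inl hc)
        by_cases hb : bet ∈ ℬ
        · have h1 := congrArg (fun G => (G ⟨bet, hb⟩).1 ((y, y'), t)) hF
          simp only at h1
          rw [gsL_apply] at h1
          have h2 : ∑ alp : {alp : Y m // alp.1 ≤ bet.1},
              (if h : alp.1 ∈ 𝒜 then fd alp.1 • gsF lam nu alp.1 (F ⟨alp.1, h⟩).1 t else 0)
                (consY alp.1 bet alp.2 y) (consY alp.1 bet alp.2 y') =
              ∑ a : {a // a ∈ 𝒜}, fd a.1 * (gsM lam nu a.1 bet (F a)).1 ((y, y'), t) := by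
            have e1 : ∑ alp : {alp : Y m // alp.1 ≤ bet.1},
              (if h : alp.1 ∈ 𝒜 then fd alp.1 • gsF lam nu alp.1 (F ⟨alp.1, h⟩).1 t else 0)
                (consY alp.1 bet alp.2 y) (consY alp.1 bet alp.2 y') =
              ∑ alp : Y m, (if h : alp ∈ 𝒜 then
                fd alp * (gsM lam nu alp bet (F ⟨alp, h⟩)).1 ((y, y'), t) else 0) := by
              apply Fintype.sum_of_injective (fun alp : {alp : Y m // alp.1 ≤ bet.1} => alp.1)
                Subtype.val_injective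
              · intro alp halp
                have hn : ¬ alp.1 ≤ bet.1 := fun hc => halp ⟨⟨alp, hc⟩, rfl⟩
                split_ifs with h
                · rw [gsM_neg lam nu alp bet hn]
                  simp
                · rfl
              · intro alp
                split_ifs with h
                · rw [gsM_pos lam nu alp.1 bet alp.2]
                  rfl
                · rfl
            rw [e1]
            symm
            apply Fintype.sum_of_injective (fun a : {a // a ∈ 𝒜} => a.1) Subtype.val_injective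
            · intro alp halp
              rw [dif_neg]
              exact fun hc => halp ⟨⟨alp, hc⟩, rfl⟩
            · intro a
              rw [dif_pos a.2]
          rw [h2]
          exact h1
        · apply Finset.sum_eq_zero
          intro alp _
          rw [dif_neg]
          · rfl
          · intro ha
            exact hb (hℬ alp.1 ha bet alp.2 hble)
    ext p t
    rw [Matrix.add_apply, Matrix.sum_apply]
    have h1 := congrFun (congrFun (hav t) p.1) p.2
    rw [Matrix.add_apply, Matrix.sum_apply] at h1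
    rw [Matrix.zero_apply] at h1 ⊢
    rw [← h1]
    congr 1
    apply Finset.sum_congr rfl
    intro b _
    rw [gs_kr_mul, rep_transpose, Equiv.swap_inv]

end Pool.MP322
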