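import Pool.Agent.Lib.MP_322c5f_al.Rep

/-! job SQ-21: cutting a standard filling after `m` cells. -/

set_option autoImplicit false

open Equiv Finset

namespace Pool.MP322

theorem glue_isTab {gam lam : YoungDiagram} {m k : ℕ} (u : Tab ⊥ gam m) (t : Tab gam lam k) :
    IsTab ⊥ lam (m + k) (Fin.append u.1 t.1) := by
  obtain ⟨u1, u2, u3, u4⟩ := u.2
  obtain ⟨t1, t2, t3, t4⟩ := t.2
  have hug : ∀ i, u.1 i ∈ gam := fun i => (u3 _).2 (Or.inr ⟨i, rfl⟩)
  refine ⟨?_, fun i => YoungDiagram.notMem_bot _, ?_, ?_⟩
  · intro i j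
    refine Fin.addCases (fun i' => ?_) (fun i' => ?_) i
    · refine Fin.addCases (fun j' => ?_) (fun j' => ?_) j
      · intro h
        rw [Fin.append_left, Fin.append_left] at h
        rw [u1 h]
      · intro h
        rw [Fin.append_left, Fin.append_right] at h
        exact absurd (h ▸ hug i') (t2 j')
    · refine Fin.addCases (fun j' => ?_) (fun j' => ?_) j
      · intro h
        rw [Fin.append_left, Fin.append_right] at h
        exact absurd (h.symm ▸ hug j') (t2 i')
      · intro h
        rw [Fin.append_right, Fin.append_right] at h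
        rw [t1 h]
  · intro c
    constructor
    · intro hc
      right
      rcases (t3 c).1 hc with h | ⟨i, hi⟩
      · rcases (u3 c).1 h with h | ⟨i, hi⟩
        · exact absurd h (YoungDiagram.notMem_bot _)
        · exact ⟨Fin.castAdd k i, by rw [Fin.append_left, hi]⟩
      · exact ⟨Fin.natAdd m i, by rw [Fin.append_right, hi]⟩
    · rintro (h | ⟨i, hi⟩)
      · exact absurd h (YoungDiagram.notMem_bot _)
      · revert hi
        refine Fin.addCases (fun i' => ?_) (fun i' => ?_) i
        · intro hi
          rw [Fin.append_left] at hi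
          exact (t3 c).2 (Or.inl (hi ▸ hug i'))
        · intro hi
          rw [Fin.append_right] at hi
          exact (t3 c).2 (Or.inr ⟨i', hi⟩)
  · intro i c
    refine Fin.addCases (fun i' => ?_) (fun i' => ?_) i
    · intro hc
      rw [Fin.append_left] at hc
      rcases u4 i' c hc with h | ⟨j, hj, hjc⟩
      · exact Or.inl h
      · right
        refine ⟨Fin.castAdd k j, ?_, by rw [Fin.append_left, hjc]⟩
        rw [Fin.le_def] at hj ⊢
        simpa using hj
    · intro hc
      rw [Fin.append_right] at hc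
      right
      rcases t4 i' c hc with h | ⟨j, hj, hjc⟩
      · rcases (u3 c).1 h with h | ⟨j, hjc⟩
        · exact absurd h (YoungDiagram.notMem_bot _)
        · refine ⟨Fin.castAdd k j, ?_, by rw [Fin.append_left, hjc]⟩
          rw [Fin.le_def]
          simp only [Fin.val_castAdd, Fin.val_natAdd]
          omega
      · refine ⟨Fin.natAdd m j, ?_, by rw [Fin.append_right, hjc]⟩
        rw [Fin.le_def] at hj ⊢
        simp only [Fin.val_natAdd]
        omega

/-- first the `m` cells of `u`, then the `k` cells of `t`. -/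
def glue {gam lam : YoungDiagram} {m k : ℕ} (u : Tab ⊥ gam m) (t : Tab gam lam k) :
    Tab ⊥ lam (m + k) := ⟨Fin.append u.1 t.1, glue_isTab u t⟩

/-- the shape formed by the first `m` cells -/
private def glueShape {lam : YoungDiagram} {m k : ℕ} (x : Tab ⊥ lam (m + k)) : YoungDiagram where
  cells := (Finset.univ : Finset (Fin m)).image (fun i => x.1 (Fin.castAdd k i))
  isLowerSet := by
    intro a b hab ha
    rw [Finset.mem_coe, Finset.mem_image] at ha ⊢
    obtain ⟨i, -, hi⟩ := ha
    rw [← hi] at hab
    rcases x.2.2.2.2 (Fin.castAdd k i) b hab with h | ⟨j, hj, hjc⟩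
    · exact absurd h (YoungDiagram.notMem_bot _)
    · rw [Fin.le_def, Fin.val_castAdd] at hj
      have hjm : j.val < m := lt_of_le_of_lt hj i.2
      refine ⟨⟨j.val, hjm⟩, Finset.mem_univ _, ?_⟩
      have : Fin.castAdd k ⟨j.val, hjm⟩ = j := Fin.ext rfl
      rw [this, hjc]

private theorem mem_glueShape {lam : YoungDiagram} {m k : ℕ} (x : Tab ⊥ lam (m + k))
    (c : ℕ × ℕ) : c ∈ glueShape x ↔ ∃ i : Fin m, x.1 (Fin.castAdd k i) = c := by
  rw [← YoungDiagram.mem_cells]
  unfold glueShape
  simp

private theorem card_glueShape {lam : YoungDiagram} {m k : ℕ} (x : Tab ⊥ lam (m + k)) :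
    (glueShape x).card = m := by
  change ((Finset.univ : Finset (Fin m)).image (fun i => x.1 (Fin.castAdd k i))).card = m
  rw [Finset.card_image_of_injective _ (fun a b h => Fin.castAdd_injective m k (x.2.1 h)),
    Finset.card_univ, Fintype.card_fin]

theorem exists_glue {lam : YoungDiagram} {m k : ℕ} (x : Tab ⊥ lam (m + k)) :
    ∃ (gam : Y m) (u : Tab ⊥ gam.1 m) (t : Tab gam.1 lam k), x = glue u t := by
  obtain ⟨x1, x2, x3, x4⟩ := x.2
  have hu : IsTab ⊥ (glueShape x) m (fun i => x.1 (Fin.castAdd k i)) := by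
    refine ⟨fun a b h => Fin.castAdd_injective m k (x1 h), fun i => YoungDiagram.notMem_bot _,
      ?_, ?_⟩
    · intro c
      rw [mem_glueShape]
      constructor
      · intro h; exact Or.inr h
      · rintro (h | h)
        · exact absurd h (YoungDiagram.notMem_bot _)
        · exact h
    · intro i c hc
      right
      rcases x4 (Fin.castAdd k i) c hc with h | ⟨j, hj, hjc⟩
      · exact absurd h (YoungDiagram.notMem_bot _)
      · rw [Fin.le_def, Fin.val_castAdd] at hj
        have hjm : j.val < m := lt_of_le_of_lt hj i.2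
        refine ⟨⟨j.val, hjm⟩, ?_, ?_⟩
        · rw [Fin.le_def]; exact hj
        · have : Fin.castAdd k ⟨j.val, hjm⟩ = j := Fin.ext rfl
          change x.1 (Fin.castAdd k ⟨j.val, hjm⟩) = c
          rw [this, hjc]
  have ht : IsTab (glueShape x) lam k (fun i => x.1 (Fin.natAdd m i)) := by
    refine ⟨?_, ?_, ?_, ?_⟩
    · intro a b h
      have h1 := congrArg Fin.val (x1 h)
      simp only [Fin.val_natAdd] at h1
      exact Fin.ext (by omega)
    · intro i h
      rw [mem_glueShape] at h
      obtain ⟨j, hj⟩ := h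
      have h1 := congrArg Fin.val (x1 hj)
      simp only [Fin.val_natAdd, Fin.val_castAdd] at h1
      have := j.2
      omega
    · intro c
      rw [mem_glueShape, x3 c]
      constructor
      · rintro (h | ⟨i, hi⟩)
        · exact absurd h (YoungDiagram.notMem_bot _)
        · revert hi
          refine Fin.addCases (fun i' => ?_) (fun i' => ?_) i
          · intro hi; exact Or.inl ⟨i', hi⟩
          · intro hi; exact Or.inr ⟨i', hi⟩
      · rintro (⟨i, hi⟩ | ⟨i, hi⟩)
        · exact Or.inr ⟨_, hi⟩
        · exact Or.inr ⟨_, hi⟩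
    · intro i c hc
      rw [mem_glueShape]
      rcases x4 (Fin.natAdd m i) c hc with h | ⟨j, hj, hjc⟩
      · exact absurd h (YoungDiagram.notMem_bot _)
      · revert hj hjc
        refine Fin.addCases (fun j' => ?_) (fun j' => ?_) j
        · intro _ hjc
          exact Or.inl ⟨j', hjc⟩
        · intro hj hjc
          refine Or.inr ⟨j', ?_, hjc⟩
          rw [Fin.le_def] at hj ⊢
          simp only [Fin.val_natAdd] at hj
          omega
  refine ⟨⟨glueShape x, card_glueShape x⟩, ⟨_, hu⟩, ⟨_, ht⟩, ?_⟩
  apply Subtype.ext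
  funext i
  change x.1 i = Fin.append (fun i => x.1 (Fin.castAdd k i)) (fun i => x.1 (Fin.natAdd m i)) i
  refine Fin.addCases (fun i' => ?_) (fun i' => ?_) i
  · rw [Fin.append_left]
  · rw [Fin.append_right]

/-- the intermediate shape is determined by the first part. -/
theorem shape_of_init {gam gam' : YoungDiagram} {m : ℕ} (u : Tab ⊥ gam m) (u' : Tab ⊥ gam' m)
    (h : u.1 = u'.1) : gam = gam' := tab_shape_eq u u' h

/-- the intermediate shape is determined by the tail. -/
theorem shape_of_tail {gam gam' lam : YoungDiagram} {k : ℕ} (t : Tab gam lam k)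
    (t' : Tab gam' lam k) (h : t.1 = t'.1) : gam = gam' := by
  have key : ∀ {g : YoungDiagram} (s : Tab g lam k) (c : ℕ × ℕ),
      c ∈ g ↔ c ∈ lam ∧ ∀ i, s.1 i ≠ c := by
    intro g s c
    obtain ⟨s1, s2, s3, s4⟩ := s.2
    constructor
    · intro hc
      refine ⟨(s3 c).2 (Or.inl hc), fun i hi => ?_⟩
      exact s2 i (hi ▸ hc)
    · rintro ⟨hc, hn⟩
      rcases (s3 c).1 hc with h | ⟨i, hi⟩
      · exact h
      · exact absurd hi (hn i)
  apply SetLike.ext
  intro c
  rw [key t c, key t' c, h]

end Pool.MP322
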