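import Pool.Agent.Lib.MP_322c5f_al.GlueA

/-! job SQ-22: restriction of `rep` to the first `m` and to the last `k` letters. -/

set_option autoImplicit false

open Equiv Finset

namespace Pool.MP322

private theorem gB_iL_cast (m k : ℕ) (σ : Perm (Fin m)) (j : Fin m) :
    iL m k σ (Fin.castAdd k j) = Fin.castAdd k (σ j) :=
  Equiv.Perm.viaEmbedding_apply σ (Fin.castAddEmb k) j

private theorem gB_iL_nat (m k : ℕ) (σ : Perm (Fin m)) (j : Fin k) :
    iL m k σ (Fin.natAdd m j) = Fin.natAdd m j := by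
  refine Equiv.Perm.viaEmbedding_apply_of_notMem σ (Fin.castAddEmb k) _ ?_
  rintro ⟨a, ha⟩
  have h1 := congrArg Fin.val ha
  have h2 := a.2
  simp at h1
  omega

private theorem gB_iR_nat (m k : ℕ) (σ : Perm (Fin k)) (j : Fin k) :
    iR m k σ (Fin.natAdd m j) = Fin.natAdd m (σ j) :=
  Equiv.Perm.viaEmbedding_apply σ (Fin.natAddEmb m) j

private theorem gB_iR_cast (m k : ℕ) (σ : Perm (Fin k)) (j : Fin m) :
    iR m k σ (Fin.castAdd k j) = Fin.castAdd k j := by
  refine Equiv.Perm.viaEmbedding_apply_of_notMem σ (Fin.natAddEmb m) _ ?_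
  rintro ⟨a, ha⟩
  have h1 := congrArg Fin.val ha
  have h2 := j.2
  simp at h1
  omega

theorem iL_sw (m k i : ℕ) (h : i + 1 < m) :
    iL m k (sw i h) = sw i (show i + 1 < m + k by omega) := by
  apply Equiv.ext
  intro x
  apply Fin.ext
  refine Fin.addCases (fun j => ?_) (fun j => ?_) x
  · rw [gB_iL_cast, sw_val]
    show ((sw i h j : Fin m) : ℕ) = sN i (j : ℕ)
    rw [sw_val]
  · rw [gB_iL_nat, sw_val]
    show m + (j : ℕ) = sN i (m + (j : ℕ))
    rw [sN_fix (by omega)]

theorem iR_sw (m k i : ℕ) (h : i + 1 < k) :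
    iR m k (sw i h) = sw (m + i) (show m + i + 1 < m + k by omega) := by
  apply Equiv.ext
  intro x
  apply Fin.ext
  refine Fin.addCases (fun j => ?_) (fun j => ?_) x
  · rw [gB_iR_cast, sw_val]
    show (j : ℕ) = sN (m + i) (j : ℕ)
    have := j.2
    unfold sN
    rw [swap_apply_of_ne_of_ne (by omega) (by omega)]
  · rw [gB_iR_nat, sw_val]
    show m + ((sw i h j : Fin k) : ℕ) = sN (m + i) (m + (j : ℕ))
    rw [sw_val]
    unfold sN
    rw [swap_apply_def, swap_apply_def]
    split_ifs <;> omega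

theorem iL_iR_comm (m k : ℕ) (σ : Perm (Fin m)) (π : Perm (Fin k)) :
    iL m k σ * iR m k π = iR m k π * iL m k σ := by
  apply Equiv.ext
  intro x
  rw [Perm.mul_apply, Perm.mul_apply]
  refine Fin.addCases (fun j => ?_) (fun j => ?_) x
  · rw [gB_iR_cast, gB_iL_cast, gB_iR_cast]
  · rw [gB_iR_nat, gB_iL_nat, gB_iL_nat, gB_iR_nat]

/-! ### the entries of the generators -/

private theorem gB_append_L {m k : ℕ} (a : Fin m → ℕ × ℕ) (b : Fin k → ℕ × ℕ)
    (σ : Perm (Fin m)) : Fin.append a b ∘ iL m k σ = Fin.append (a ∘ σ) b := by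
  funext x
  rw [Function.comp_apply]
  refine Fin.addCases (fun j => ?_) (fun j => ?_) x
  · rw [gB_iL_cast, Fin.append_left, Fin.append_left]; rfl
  · rw [gB_iL_nat, Fin.append_right, Fin.append_right]

private theorem gB_append_R {m k : ℕ} (a : Fin m → ℕ × ℕ) (b : Fin k → ℕ × ℕ)
    (σ : Perm (Fin k)) : Fin.append a b ∘ iR m k σ = Fin.append a (b ∘ σ) := by
  funext x
  rw [Function.comp_apply]
  refine Fin.addCases (fun j => ?_) (fun j => ?_) x
  · rw [gB_iR_cast, Fin.append_left, Fin.append_left]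
  · rw [gB_iR_nat, Fin.append_right, Fin.append_right]; rfl

private theorem gB_append_left_inj {m k : ℕ} {a a' : Fin m → ℕ × ℕ} {b : Fin k → ℕ × ℕ} :
    Fin.append a b = Fin.append a' b ↔ a = a' := by
  constructor
  · intro h
    funext j
    have := congrFun h (Fin.castAdd k j)
    rwa [Fin.append_left, Fin.append_left] at this
  · rintro rfl; rfl

private theorem gB_append_right_inj {m k : ℕ} {a : Fin m → ℕ × ℕ} {b b' : Fin k → ℕ × ℕ} :
    Fin.append a b = Fin.append a b' ↔ b = b' := by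
  constructor
  · intro h
    funext j
    have := congrFun h (Fin.natAdd m j)
    rwa [Fin.append_right, Fin.append_right] at this
  · rintro rfl; rfl

private theorem gB_glue_L {gam lam : YoungDiagram} {m k : ℕ} (u u' : Tab ⊥ gam m)
    (t : Tab gam lam k) : glue u t = glue u' t ↔ u = u' := by
  constructor
  · intro h
    exact Subtype.ext (gB_append_left_inj.1 (congrArg Subtype.val h))
  · rintro rfl; rfl

private theorem gB_glue_R {gam lam : YoungDiagram} {m k : ℕ} (u : Tab ⊥ gam m)
    (t t' : Tab gam lam k) : glue u t = glue u t' ↔ t = t' := by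
  constructor
  · intro h
    exact Subtype.ext (gB_append_right_inj.1 (congrArg Subtype.val h))
  · rintro rfl; rfl

private theorem gB_yd_L {m k : ℕ} (a : Fin m → ℕ × ℕ) (b : Fin k → ℕ × ℕ) (i : ℕ)
    (h : i + 1 < m) (h' : i + 1 < m + k) : yd (Fin.append a b) i h' = yd a i h := by
  have e1 : Fin.append a b ⟨i, by omega⟩ = a ⟨i, by omega⟩ :=
    Fin.append_left a b ⟨i, by omega⟩
  have e2 : Fin.append a b ⟨i + 1, h'⟩ = a ⟨i + 1, h⟩ := Fin.append_left a b ⟨i + 1, h⟩
  unfold yd
  rw [e1, e2]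

private theorem gB_yd_R {m k : ℕ} (a : Fin m → ℕ × ℕ) (b : Fin k → ℕ × ℕ) (i : ℕ)
    (h : i + 1 < k) (h' : m + i + 1 < m + k) : yd (Fin.append a b) (m + i) h' = yd b i h := by
  have e1 : Fin.append a b ⟨m + i, by omega⟩ = b ⟨i, by omega⟩ :=
    Fin.append_right a b ⟨i, by omega⟩
  have e2 : Fin.append a b ⟨m + i + 1, h'⟩ = b ⟨i + 1, h⟩ := Fin.append_right a b ⟨i + 1, h⟩
  unfold yd
  rw [e1, e2]

private theorem gB_yM_L {gam lam : YoungDiagram} {m k : ℕ} (u u' : Tab ⊥ gam m)
    (t : Tab gam lam k) (i : ℕ) (h : i + 1 < m) (h' : i + 1 < m + k) :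
    yM ⊥ lam (m + k) i h' (glue u t) (glue u' t) = yM ⊥ gam m i h u u' := by
  have e1 : (glue u' t).1 = (glue u t).1 ∘ sw i h' ↔ u'.1 = u.1 ∘ sw i h := by
    rw [← iL_sw m k i h]
    show Fin.append u'.1 t.1 = Fin.append u.1 t.1 ∘ _ ↔ _
    rw [gB_append_L]
    exact gB_append_left_inj
  have e2 : yd (glue u t).1 i h' = yd u.1 i h := gB_yd_L u.1 t.1 i h h'
  unfold yM
  simp only [gB_glue_L, e1, e2]

private theorem gB_yM_R {gam lam : YoungDiagram} {m k : ℕ} (u : Tab ⊥ gam m)
    (t t' : Tab gam lam k) (i : ℕ) (h : i + 1 < k) (h' : m + i + 1 < m + k) :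
    yM ⊥ lam (m + k) (m + i) h' (glue u t) (glue u t') = yM gam lam k i h t t' := by
  have e1 : (glue u t').1 = (glue u t).1 ∘ sw (m + i) h' ↔ t'.1 = t.1 ∘ sw i h := by
    rw [← iR_sw m k i h]
    show Fin.append u.1 t'.1 = Fin.append u.1 t.1 ∘ _ ↔ _
    rw [gB_append_R]
    exact gB_append_right_inj
  have e2 : yd (glue u t).1 (m + i) h' = yd t.1 i h := gB_yd_R u.1 t.1 i h h'
  unfold yM
  simp only [gB_glue_R, e1, e2]

private theorem gB_yM_ne {α β : YoungDiagram} {n i : ℕ} {h : i + 1 < n} {x z : Tab α β n}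
    (hz : yM α β n i h x z ≠ 0) : z.1 = x.1 ∨ z.1 = x.1 ∘ sw i h := by
  unfold yM at hz
  by_cases h1 : z = x
  · left; rw [h1]
  · rw [if_neg h1] at hz
    by_cases h2 : z.1 = x.1 ∘ sw i h
    · right; exact h2
    · rw [if_neg h2] at hz
      exact absurd rfl hz

/-- the generators of the first letters do not change the tail -/
private theorem gB_tail {lam : YoungDiagram} {m k i : ℕ} {h : i + 1 < m} {h' : i + 1 < m + k}
    {x z : Tab ⊥ lam (m + k)} (hz : yM ⊥ lam (m + k) i h' x z ≠ 0) :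
    z.1 ∘ Fin.natAdd m = x.1 ∘ Fin.natAdd m := by
  rcases gB_yM_ne hz with h1 | h1
  · rw [h1]
  · rw [h1, ← iL_sw m k i h]
    funext j
    show x.1 (iL m k (sw i h) (Fin.natAdd m j)) = x.1 (Fin.natAdd m j)
    rw [gB_iL_nat]

/-- the generators of the last letters do not change the head -/
private theorem gB_head {lam : YoungDiagram} {m k i : ℕ} {h : i + 1 < k}
    {h' : m + i + 1 < m + k} {x z : Tab ⊥ lam (m + k)}
    (hz : yM ⊥ lam (m + k) (m + i) h' x z ≠ 0) :
    z.1 ∘ Fin.castAdd k = x.1 ∘ Fin.castAdd k := by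
  rcases gB_yM_ne hz with h1 | h1
  · rw [h1]
  · rw [h1, ← iR_sw m k i h]
    funext j
    show x.1 (iR m k (sw i h) (Fin.castAdd k j)) = x.1 (Fin.castAdd k j)
    rw [gB_iR_cast]

theorem rep_L_ne {lam : YoungDiagram} {m k : ℕ} (x y : Tab ⊥ lam (m + k))
    (h : x.1 ∘ Fin.natAdd m ≠ y.1 ∘ Fin.natAdd m) (σ : Perm (Fin m)) :
    rep ⊥ lam (m + k) (iL m k σ) x y = 0 := by
  induction σ using perm_induction generalizing x with
  | one =>
    rw [map_one, map_one]
    exact Matrix.one_apply_ne fun hxy => h (by rw [hxy])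
  | mul i hi σ ih =>
    rw [map_mul, map_mul, iL_sw, rep_sw, Matrix.mul_apply]
    refine Finset.sum_eq_zero fun z _ => ?_
    by_cases hz : yM ⊥ lam (m + k) i (by omega) x z = 0
    · rw [hz, zero_mul]
    · rw [ih z (by rw [gB_tail (h := hi) hz]; exact h), mul_zero]

theorem rep_L_same {gam lam : YoungDiagram} {m k : ℕ} (u u' : Tab ⊥ gam m)
    (t : Tab gam lam k) (σ : Perm (Fin m)) :
    rep ⊥ lam (m + k) (iL m k σ) (glue u t) (glue u' t) = rep ⊥ gam m σ u u' := by
  induction σ using perm_induction generalizing u with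
  | one =>
    rw [map_one, map_one, map_one, Matrix.one_apply, Matrix.one_apply]
    simp only [gB_glue_L]
  | mul i hi σ ih =>
    rw [map_mul, map_mul, map_mul, iL_sw, rep_sw, rep_sw, Matrix.mul_apply, Matrix.mul_apply]
    symm
    refine Fintype.sum_of_injective (fun u'' => glue u'' t)
      (fun a b hab => (gB_glue_L a b t).1 hab) _ _ ?_ ?_
    · intro z hz
      rw [rep_L_ne z (glue u' t) ?_ σ, mul_zero]
      intro hcon
      apply hz
      obtain ⟨gam', v, s, rfl⟩ := exists_glue z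
      have e1 : s.1 = t.1 := by
        funext j
        have := congrFun hcon j
        simp only [Function.comp_apply, glue, Fin.append_right] at this
        exact this
      have e2 : gam'.1 = gam := shape_of_tail s t e1
      obtain ⟨g, hg⟩ := gam'
      subst e2
      refine ⟨v, ?_⟩
      have e3 : s = t := Subtype.ext e1
      rw [e3]
    · intro u''
      rw [gB_yM_L u u'' t i hi, ih u'']

theorem rep_R_ne {lam : YoungDiagram} {m k : ℕ} (x y : Tab ⊥ lam (m + k))
    (h : x.1 ∘ Fin.castAdd k ≠ y.1 ∘ Fin.castAdd k) (π : Perm (Fin k)) :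
    rep ⊥ lam (m + k) (iR m k π) x y = 0 := by
  induction π using perm_induction generalizing x with
  | one =>
    rw [map_one, map_one]
    exact Matrix.one_apply_ne fun hxy => h (by rw [hxy])
  | mul i hi σ ih =>
    rw [map_mul, map_mul, iR_sw, rep_sw, Matrix.mul_apply]
    refine Finset.sum_eq_zero fun z _ => ?_
    by_cases hz : yM ⊥ lam (m + k) (m + i) (by omega) x z = 0
    · rw [hz, zero_mul]
    · rw [ih z (by rw [gB_head (h := hi) hz]; exact h), mul_zero]

theorem rep_R_same {gam lam : YoungDiagram} {m k : ℕ} (u : Tab ⊥ gam m)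
    (t t' : Tab gam lam k) (π : Perm (Fin k)) :
    rep ⊥ lam (m + k) (iR m k π) (glue u t) (glue u t') = rep gam lam k π t t' := by
  induction π using perm_induction generalizing t with
  | one =>
    rw [map_one, map_one, map_one, Matrix.one_apply, Matrix.one_apply]
    simp only [gB_glue_R]
  | mul i hi σ ih =>
    rw [map_mul, map_mul, map_mul, iR_sw, rep_sw, rep_sw, Matrix.mul_apply, Matrix.mul_apply]
    symm
    refine Fintype.sum_of_injective (fun t'' => glue u t'')
      (fun a b hab => (gB_glue_R u a b).1 hab) _ _ ?_ ?_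
    · intro z hz
      rw [rep_R_ne z (glue u t') ?_ σ, mul_zero]
      intro hcon
      apply hz
      obtain ⟨gam', v, s, rfl⟩ := exists_glue z
      have e1 : v.1 = u.1 := by
        funext j
        have := congrFun hcon j
        simp only [Function.comp_apply, glue, Fin.append_left] at this
        exact this
      have e2 : gam'.1 = gam := shape_of_init v u e1
      obtain ⟨g, hg⟩ := gam'
      subst e2
      refine ⟨s, ?_⟩
      have e3 : v = u := Subtype.ext e1
      rw [e3]
    · intro t''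
      rw [gB_yM_R u t t'' i hi, ih t'']

end Pool.MP322
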