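import Pool.Agent.Lib.MP_322c5f_al.Orth

/-! job SQ-26: every representation has enough maps to (and from) the irreducible ones. -/

set_option autoImplicit false

open Equiv Finset

namespace Pool.MP322

theorem exists_hom {n : ℕ} {ι : Type*} [Fintype ι] [DecidableEq ι]
    (W : Perm (Fin n) →* Matrix ι ι ℝ) (w : ι → ℝ) (hw : w ≠ 0) :
    ∃ (mu : Y n) (ψ : Matrix (Tab ⊥ mu.1 n) ι ℝ),
      (∀ σ, rep ⊥ mu.1 n σ * ψ = ψ * W σ) ∧ ψ.mulVec w ≠ 0 := by
  obtain ⟨i0, hi0⟩ : ∃ i0, w i0 ≠ 0 := by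
    by_contra hcon
    push Not at hcon
    exact hw (funext hcon)
  set F : Perm (Fin n) → ℝ := fun g => (W g⁻¹).mulVec w i0 with hF
  have hF0 : F ≠ 0 := by
    intro h0
    have := congrFun h0 1
    simp only [hF, inv_one, map_one, Matrix.one_mulVec, Pi.zero_apply] at this
    exact hi0 this
  have hex : ∃ (lam : Y n) (a b : Tab ⊥ lam.1 n), ∑ σ, F σ * rep ⊥ lam.1 n σ a b ≠ 0 := by
    by_contra hcon
    push Not at hcon
    exact hF0 (coeff_complete F hcon)
  obtain ⟨mu, a, b, hab⟩ := hex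
  refine ⟨mu, fun a' i => ∑ g, rep ⊥ mu.1 n g a' b * W g⁻¹ i0 i, fun σ => ?_, fun h0 => ?_⟩
  · ext a' i
    rw [Matrix.mul_apply, Matrix.mul_apply]
    have h1 : ∀ c, rep ⊥ mu.1 n σ a' c * ∑ g, rep ⊥ mu.1 n g c b * W g⁻¹ i0 i =
        ∑ g, rep ⊥ mu.1 n σ a' c * rep ⊥ mu.1 n g c b * W g⁻¹ i0 i := by
      intro c
      rw [Finset.mul_sum]
      exact Finset.sum_congr rfl fun g _ => by ring
    rw [Finset.sum_congr rfl fun c _ => h1 c, Finset.sum_comm]
    have h2 : ∀ g, ∑ c, rep ⊥ mu.1 n σ a' c * rep ⊥ mu.1 n g c b * W g⁻¹ i0 i =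
        rep ⊥ mu.1 n (σ * g) a' b * W ((σ * g)⁻¹ * σ) i0 i := by
      intro g
      rw [← Finset.sum_mul, ← Matrix.mul_apply, ← map_mul]
      congr 2
      group
    rw [Finset.sum_congr rfl fun g _ => h2 g,
      Fintype.sum_bijective (fun g => σ * g) (Group.mulLeft_bijective σ)
        (fun g => rep ⊥ mu.1 n (σ * g) a' b * W ((σ * g)⁻¹ * σ) i0 i)
        (fun g => rep ⊥ mu.1 n g a' b * W (g⁻¹ * σ) i0 i) (fun g => rfl)]
    have h3 : ∀ j, (∑ g, rep ⊥ mu.1 n g a' b * W g⁻¹ i0 j) * W σ j i =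
        ∑ g, rep ⊥ mu.1 n g a' b * (W g⁻¹ i0 j * W σ j i) := by
      intro j
      rw [Finset.sum_mul]
      exact Finset.sum_congr rfl fun g _ => by ring
    rw [Finset.sum_congr rfl fun j _ => h3 j, Finset.sum_comm]
    refine Finset.sum_congr rfl fun g _ => ?_
    rw [← Finset.mul_sum, ← Matrix.mul_apply, ← map_mul]
  · apply hab
    have h1 := congrFun h0 a
    rw [Pi.zero_apply] at h1
    rw [← h1]
    simp only [hF, Matrix.mulVec, dotProduct]
    have h2 : ∀ i, (∑ g, rep ⊥ mu.1 n g a b * W g⁻¹ i0 i) * w i =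
        ∑ g, rep ⊥ mu.1 n g a b * (W g⁻¹ i0 i * w i) := by
      intro i
      rw [Finset.sum_mul]
      exact Finset.sum_congr rfl fun g _ => by ring
    rw [Finset.sum_congr rfl fun i _ => h2 i, Finset.sum_comm]
    refine Finset.sum_congr rfl fun g _ => ?_
    rw [← Finset.mul_sum, mul_comm]

theorem hom_back {n : ℕ} {ι : Type*} [Fintype ι] [DecidableEq ι]
    (W : Perm (Fin n) →* Matrix ι ι ℝ) (mu : Y n) (ψ : Matrix (Tab ⊥ mu.1 n) ι ℝ) (h0 : ψ ≠ 0)
    (h : ∀ σ, rep ⊥ mu.1 n σ * ψ = ψ * W σ) :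
    ∃ Φ : Matrix ι (Tab ⊥ mu.1 n) ℝ, Φ ≠ 0 ∧ ∀ σ, W σ * Φ = Φ * rep ⊥ mu.1 n σ := by
  set B : Matrix ι ι ℝ := ∑ g, (W g).transpose * W g with hB
  have hinv : ∀ s, (W s).transpose * B * W s = B := by
    intro s
    rw [hB, Finset.mul_sum, Finset.sum_mul]
    refine Fintype.sum_bijective (fun g => g * s) (Group.mulRight_bijective s) _ _ fun g => ?_
    rw [map_mul, Matrix.transpose_mul]
    simp only [Matrix.mul_assoc]
  have hBs : ∀ s, B * W s = (W s⁻¹).transpose * B := by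
    intro s
    have h1 : (W s⁻¹).transpose * (W s).transpose = 1 := by
      rw [← Matrix.transpose_mul, ← map_mul, mul_inv_cancel, map_one, Matrix.transpose_one]
    calc B * W s = ((W s⁻¹).transpose * (W s).transpose) * (B * W s) := by rw [h1, one_mul]
      _ = (W s⁻¹).transpose * ((W s).transpose * B * W s) := by
          simp only [Matrix.mul_assoc]
      _ = _ := by rw [hinv s]
  have hinj : Function.Injective B.mulVec := by
    intro u v huv
    have h1 : B.mulVec (u - v) = 0 := by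
      rw [Matrix.mulVec_sub, sub_eq_zero]
      exact huv
    have h2 : (u - v) ⬝ᵥ B.mulVec (u - v) =
        ∑ g, (W g).mulVec (u - v) ⬝ᵥ (W g).mulVec (u - v) := by
      rw [hB, Matrix.sum_mulVec, dotProduct_sum]
      refine Finset.sum_congr rfl fun g _ => ?_
      rw [← Matrix.mulVec_mulVec, Matrix.dotProduct_mulVec, Matrix.vecMul_transpose]
    rw [h1, dotProduct_zero] at h2
    have h3 : ∀ g ∈ (Finset.univ : Finset (Perm (Fin n))),
        0 ≤ (W g).mulVec (u - v) ⬝ᵥ (W g).mulVec (u - v) := fun g _ => by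
      unfold dotProduct
      exact Finset.sum_nonneg fun i _ => mul_self_nonneg _
    have h4 := (Finset.sum_eq_zero_iff_of_nonneg h3).1 h2.symm 1 (Finset.mem_univ _)
    rw [map_one, Matrix.one_mulVec, dotProduct_self_eq_zero] at h4
    exact sub_eq_zero.1 h4
  have hunit : IsUnit B := Matrix.mulVec_injective_iff_isUnit.1 hinj
  have hdet : IsUnit B.det := (Matrix.isUnit_iff_isUnit_det B).1 hunit
  have hBB : B * B⁻¹ = 1 := Matrix.mul_nonsing_inv B hdet
  have hBB' : B⁻¹ * B = 1 := Matrix.nonsing_inv_mul B hdet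
  refine ⟨B⁻¹ * ψ.transpose, fun hz => ?_, fun σ => ?_⟩
  · apply h0
    have h1 : ψ.transpose = 0 := by
      calc ψ.transpose = B * (B⁻¹ * ψ.transpose) := by rw [← Matrix.mul_assoc, hBB, Matrix.one_mul]
        _ = 0 := by rw [hz, Matrix.mul_zero]
    have h2 := congrArg Matrix.transpose h1
    rwa [Matrix.transpose_transpose, Matrix.transpose_zero] at h2
  · have h1 : (W σ⁻¹).transpose * ψ.transpose = ψ.transpose * rep ⊥ mu.1 n σ := by
      have h2 := congrArg Matrix.transpose (h σ⁻¹)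
      rw [Matrix.transpose_mul, Matrix.transpose_mul, rep_transpose, inv_inv] at h2
      exact h2.symm
    have h3 : B * (W σ * (B⁻¹ * ψ.transpose)) = B * ((B⁻¹ * ψ.transpose) * rep ⊥ mu.1 n σ) := by
      calc B * (W σ * (B⁻¹ * ψ.transpose)) = (B * W σ) * (B⁻¹ * ψ.transpose) := by
            rw [Matrix.mul_assoc]
        _ = (W σ⁻¹).transpose * ((B * B⁻¹) * ψ.transpose) := by
            rw [hBs]; simp only [Matrix.mul_assoc]
        _ = ψ.transpose * rep ⊥ mu.1 n σ := by rw [hBB, Matrix.one_mul, h1]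
        _ = (B * B⁻¹) * ψ.transpose * rep ⊥ mu.1 n σ := by rw [hBB, Matrix.one_mul]
        _ = _ := by simp only [Matrix.mul_assoc]
    calc W σ * (B⁻¹ * ψ.transpose) = B⁻¹ * B * (W σ * (B⁻¹ * ψ.transpose)) := by
          rw [hBB', Matrix.one_mul]
      _ = B⁻¹ * (B * (W σ * (B⁻¹ * ψ.transpose))) := by simp only [Matrix.mul_assoc]
      _ = B⁻¹ * (B * ((B⁻¹ * ψ.transpose) * rep ⊥ mu.1 n σ)) := by rw [h3]
      _ = B⁻¹ * B * ((B⁻¹ * ψ.transpose) * rep ⊥ mu.1 n σ) := by simp only [Matrix.mul_assoc]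
      _ = _ := by rw [hBB', Matrix.one_mul]

end Pool.MP322
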