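import Pool.Agent.Lib.MP_322c5f_al.GlueB
import Pool.Agent.Lib.MP_322c5f_al.Irr

/-! job SQ-32: matrices acting on the last `k` cells of a filling; partial traces. -/

set_option autoImplicit false

open Equiv Finset

namespace Pool.MP322

/-- `glue` with a cast of the number of letters. -/
def glueC {gam lam : YoungDiagram} {m k n : ℕ} (h : m + k = n) (u : Tab ⊥ gam m)
    (t : Tab gam lam k) : Tab ⊥ lam n :=
  ⟨fun i => Fin.append u.1 t.1 (Fin.cast h.symm i), by subst h; exact glue_isTab u t⟩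

/-- permutations of the first `m` letters of `Fin n`. -/
noncomputable def pL {m n : ℕ} (h : m ≤ n) : Perm (Fin m) →* Perm (Fin n) :=
  Equiv.Perm.viaEmbeddingHom (Fin.castLEEmb h)

theorem pL_iL (m k : ℕ) : pL (Nat.le_add_right m k) = iL m k := by
  unfold pL iL
  have : Fin.castLEEmb (Nat.le_add_right m k) = (Fin.castAddEmb k : Fin m ↪ Fin (m + k)) := by
    ext i
    rfl
  rw [this]


/-- partial trace over the first `m` cells, of shape `gam`. -/
noncomputable def ptr {gam lam : YoungDiagram} {m k n : ℕ} (h : m + k = n)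
    (X : Matrix (Tab ⊥ lam n) (Tab ⊥ lam n) ℝ) : Matrix (Tab gam lam k) (Tab gam lam k) ℝ :=
  fun t t' => ∑ u : Tab ⊥ gam m, X (glueC h u t) (glueC h u t')

/-- the matrix acting as `A` on the last `k` cells when the first `m` cells have shape `gam`. -/
noncomputable def Jm {gam lam : YoungDiagram} {m k n : ℕ} (h : m + k = n)
    (A : Matrix (Tab gam lam k) (Tab gam lam k) ℝ) : Matrix (Tab ⊥ lam n) (Tab ⊥ lam n) ℝ :=
  fun x y => ∑ u : Tab ⊥ gam m, ∑ t : Tab gam lam k, ∑ t' : Tab gam lam k,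
    if x = glueC h u t ∧ y = glueC h u t' then A t t' else 0

namespace JAux

theorem glueC_rfl {gam lam : YoungDiagram} {m k : ℕ} (u : Tab ⊥ gam m)
    (t : Tab gam lam k) : glueC (rfl : m + k = m + k) u t = glue u t :=
  Subtype.ext (funext fun _ => rfl)

theorem append_init {m k : ℕ} {a a' : Fin m → ℕ × ℕ} {b b' : Fin k → ℕ × ℕ}
    (h : Fin.append a b = Fin.append a' b') : a = a' := by
  funext j
  have := congrFun h (Fin.castAdd k j)
  rwa [Fin.append_left, Fin.append_left] at this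

theorem append_tail {m k : ℕ} {a a' : Fin m → ℕ × ℕ} {b b' : Fin k → ℕ × ℕ}
    (h : Fin.append a b = Fin.append a' b') : b = b' := by
  funext j
  have := congrFun h (Fin.natAdd m j)
  rwa [Fin.append_right, Fin.append_right] at this

theorem glue_init {gam lam : YoungDiagram} {m k : ℕ} (u : Tab ⊥ gam m)
    (t : Tab gam lam k) : (glue u t).1 ∘ Fin.castAdd k = u.1 := by
  funext j
  show Fin.append u.1 t.1 (Fin.castAdd k j) = u.1 j
  rw [Fin.append_left]

theorem glue_tail {gam lam : YoungDiagram} {m k : ℕ} (u : Tab ⊥ gam m)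
    (t : Tab gam lam k) : (glue u t).1 ∘ Fin.natAdd m = t.1 := by
  funext j
  show Fin.append u.1 t.1 (Fin.natAdd m j) = t.1 j
  rw [Fin.append_right]

theorem glue_inj {gam lam : YoungDiagram} {m k : ℕ} {u u' : Tab ⊥ gam m}
    {t t' : Tab gam lam k} (h : glue u t = glue u' t') : u = u' ∧ t = t' := by
  constructor
  · apply Subtype.ext
    rw [← glue_init u t, ← glue_init u' t', h]
  · apply Subtype.ext
    rw [← glue_tail u t, ← glue_tail u' t', h]

/-- a filling with the tail of `t` is a glueing with `t`. -/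
theorem form_of_tail {gam lam : YoungDiagram} {m k : ℕ} (x : Tab ⊥ lam (m + k))
    (t : Tab gam lam k) (h : x.1 ∘ Fin.natAdd m = t.1) : ∃ u : Tab ⊥ gam m, x = glue u t := by
  obtain ⟨gam', v, s, rfl⟩ := exists_glue x
  rw [glue_tail] at h
  obtain ⟨g, hg⟩ := gam'
  have e2 : g = gam := shape_of_tail s t h
  subst e2
  have e3 : s = t := Subtype.ext h
  subst e3
  exact ⟨v, rfl⟩

theorem form_of_init {gam lam : YoungDiagram} {m k : ℕ} (x : Tab ⊥ lam (m + k))
    (u : Tab ⊥ gam m) (h : x.1 ∘ Fin.castAdd k = u.1) :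
    ∃ t : Tab gam lam k, x = glue u t := by
  obtain ⟨gam', v, s, rfl⟩ := exists_glue x
  rw [glue_init] at h
  obtain ⟨g, hg⟩ := gam'
  have e2 : g = gam := shape_of_init v u h
  subst e2
  have e3 : v = u := Subtype.ext h
  subst e3
  exact ⟨s, rfl⟩

theorem repL_form {gam lam : YoungDiagram} {m k : ℕ} (u u' : Tab ⊥ gam m)
    (t t' : Tab gam lam k) (σ : Perm (Fin m)) :
    rep ⊥ lam (m + k) (iL m k σ) (glue u t) (glue u' t') =
      if t = t' then rep ⊥ gam m σ u u' else 0 := by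
  by_cases h : t = t'
  · subst h
    rw [if_pos rfl, rep_L_same]
  · rw [if_neg h]
    apply rep_L_ne
    rw [glue_tail, glue_tail]
    exact fun hh => h (Subtype.ext hh)

theorem repR_form {gam lam : YoungDiagram} {m k : ℕ} (u u' : Tab ⊥ gam m)
    (t t' : Tab gam lam k) (π : Perm (Fin k)) :
    rep ⊥ lam (m + k) (iR m k π) (glue u t) (glue u' t') =
      if u = u' then rep gam lam k π t t' else 0 := by
  by_cases h : u = u'
  · subst h
    rw [if_pos rfl, rep_R_same]
  · rw [if_neg h]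
    apply rep_R_ne
    rw [glue_init, glue_init]
    exact fun hh => h (Subtype.ext hh)

theorem repL_zero_left {gam lam : YoungDiagram} {m k : ℕ} (x : Tab ⊥ lam (m + k))
    (hx : ∀ (u : Tab ⊥ gam m) (t : Tab gam lam k), x ≠ glue u t) (u : Tab ⊥ gam m)
    (t : Tab gam lam k) (σ : Perm (Fin m)) :
    rep ⊥ lam (m + k) (iL m k σ) x (glue u t) = 0 := by
  apply rep_L_ne
  rw [glue_tail]
  intro h
  obtain ⟨v, hv⟩ := form_of_tail x t h
  exact hx v t hv

theorem repL_zero_right {gam lam : YoungDiagram} {m k : ℕ} (x : Tab ⊥ lam (m + k))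
    (hx : ∀ (u : Tab ⊥ gam m) (t : Tab gam lam k), x ≠ glue u t) (u : Tab ⊥ gam m)
    (t : Tab gam lam k) (σ : Perm (Fin m)) :
    rep ⊥ lam (m + k) (iL m k σ) (glue u t) x = 0 := by
  apply rep_L_ne
  rw [glue_tail]
  intro h
  obtain ⟨v, hv⟩ := form_of_tail x t h.symm
  exact hx v t hv

theorem repR_zero_left {gam lam : YoungDiagram} {m k : ℕ} (x : Tab ⊥ lam (m + k))
    (hx : ∀ (u : Tab ⊥ gam m) (t : Tab gam lam k), x ≠ glue u t) (u : Tab ⊥ gam m)
    (t : Tab gam lam k) (π : Perm (Fin k)) :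
    rep ⊥ lam (m + k) (iR m k π) x (glue u t) = 0 := by
  apply rep_R_ne
  rw [glue_init]
  intro h
  obtain ⟨v, hv⟩ := form_of_init x u h
  exact hx u v hv

theorem repR_zero_right {gam lam : YoungDiagram} {m k : ℕ} (x : Tab ⊥ lam (m + k))
    (hx : ∀ (u : Tab ⊥ gam m) (t : Tab gam lam k), x ≠ glue u t) (u : Tab ⊥ gam m)
    (t : Tab gam lam k) (π : Perm (Fin k)) :
    rep ⊥ lam (m + k) (iR m k π) (glue u t) x = 0 := by
  apply rep_R_ne
  rw [glue_init]
  intro h
  obtain ⟨v, hv⟩ := form_of_init x u h.symm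
  exact hx u v hv

theorem Jm_rfl_apply {gam lam : YoungDiagram} {m k : ℕ}
    (A : Matrix (Tab gam lam k) (Tab gam lam k) ℝ) (x y : Tab ⊥ lam (m + k)) :
    Jm (m := m) rfl A x y = ∑ u : Tab ⊥ gam m, ∑ t : Tab gam lam k, ∑ t' : Tab gam lam k,
      if x = glue u t ∧ y = glue u t' then A t t' else 0 := by
  unfold Jm
  simp only [glueC_rfl]

theorem J_form {gam lam : YoungDiagram} {m k : ℕ}
    (A : Matrix (Tab gam lam k) (Tab gam lam k) ℝ) (u u' : Tab ⊥ gam m)
    (t t' : Tab gam lam k) :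
    Jm (m := m) rfl A (glue u t) (glue u' t') = if u = u' then A t t' else 0 := by
  rw [Jm_rfl_apply, Finset.sum_eq_single u, Finset.sum_eq_single t, Finset.sum_eq_single t']
  · by_cases h : u = u'
    · subst h
      rw [if_pos ⟨rfl, rfl⟩, if_pos rfl]
    · rw [if_neg h, if_neg]
      rintro ⟨-, h2⟩
      exact h (glue_inj h2).1.symm
  · intro b _ hb
    rw [if_neg]
    rintro ⟨-, h2⟩
    exact hb (glue_inj h2).2.symm
  · intro h; exact absurd (Finset.mem_univ _) h
  · intro b _ hb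
    apply Finset.sum_eq_zero
    intro c _
    rw [if_neg]
    rintro ⟨h1, -⟩
    exact hb (glue_inj h1).2.symm
  · intro h; exact absurd (Finset.mem_univ _) h
  · intro b _ hb
    apply Finset.sum_eq_zero
    intro c _
    apply Finset.sum_eq_zero
    intro d _
    rw [if_neg]
    rintro ⟨h1, -⟩
    exact hb (glue_inj h1).1.symm
  · intro h; exact absurd (Finset.mem_univ _) h

theorem J_zero_left {gam lam : YoungDiagram} {m k : ℕ}
    (A : Matrix (Tab gam lam k) (Tab gam lam k) ℝ) (x y : Tab ⊥ lam (m + k))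
    (hx : ∀ (u : Tab ⊥ gam m) (t : Tab gam lam k), x ≠ glue u t) :
    Jm (m := m) rfl A x y = 0 := by
  rw [Jm_rfl_apply]
  apply Finset.sum_eq_zero
  intro u _
  apply Finset.sum_eq_zero
  intro t _
  apply Finset.sum_eq_zero
  intro t' _
  rw [if_neg]
  rintro ⟨h, -⟩
  exact hx u t h

theorem J_zero_right {gam lam : YoungDiagram} {m k : ℕ}
    (A : Matrix (Tab gam lam k) (Tab gam lam k) ℝ) (x y : Tab ⊥ lam (m + k))
    (hy : ∀ (u : Tab ⊥ gam m) (t : Tab gam lam k), y ≠ glue u t) :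
    Jm (m := m) rfl A x y = 0 := by
  rw [Jm_rfl_apply]
  apply Finset.sum_eq_zero
  intro u _
  apply Finset.sum_eq_zero
  intro t _
  apply Finset.sum_eq_zero
  intro t' _
  rw [if_neg]
  rintro ⟨-, h⟩
  exact hy u t' h

/-- left multiplication of `Jm`. -/
theorem mul_J {gam lam : YoungDiagram} {m k : ℕ}
    (M : Matrix (Tab ⊥ lam (m + k)) (Tab ⊥ lam (m + k)) ℝ)
    (A : Matrix (Tab gam lam k) (Tab gam lam k) ℝ) (x : Tab ⊥ lam (m + k))
    (u' : Tab ⊥ gam m) (t' : Tab gam lam k) :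
    (M * Jm (m := m) rfl A) x (glue u' t') =
      ∑ t1 : Tab gam lam k, M x (glue u' t1) * A t1 t' := by
  rw [Matrix.mul_apply]
  symm
  refine Fintype.sum_of_injective (fun t1 : Tab gam lam k => (glue u' t1 : Tab ⊥ lam (m + k)))
    (fun a b hab => (glue_inj hab).2) _ _ ?_ ?_
  · intro z hz
    by_cases h : ∃ (u : Tab ⊥ gam m) (t : Tab gam lam k), z = glue u t
    · obtain ⟨u, t, rfl⟩ := h
      rw [J_form, if_neg, mul_zero]
      rintro rfl
      exact hz ⟨t, rfl⟩
    · rw [J_zero_left A z _ (fun u t h' => h ⟨u, t, h'⟩), mul_zero]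
  · intro t1
    rw [J_form, if_pos rfl]

/-- right multiplication of `Jm`. -/
theorem J_mul {gam lam : YoungDiagram} {m k : ℕ}
    (M : Matrix (Tab ⊥ lam (m + k)) (Tab ⊥ lam (m + k)) ℝ)
    (A : Matrix (Tab gam lam k) (Tab gam lam k) ℝ) (y : Tab ⊥ lam (m + k))
    (u : Tab ⊥ gam m) (t : Tab gam lam k) :
    (Jm (m := m) rfl A * M) (glue u t) y =
      ∑ t1 : Tab gam lam k, A t t1 * M (glue u t1) y := by
  rw [Matrix.mul_apply]
  symm
  refine Fintype.sum_of_injective (fun t1 : Tab gam lam k => (glue u t1 : Tab ⊥ lam (m + k)))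
    (fun a b hab => (glue_inj hab).2) _ _ ?_ ?_
  · intro z hz
    by_cases h : ∃ (u : Tab ⊥ gam m) (t : Tab gam lam k), z = glue u t
    · obtain ⟨u', t', rfl⟩ := h
      rw [J_form, if_neg, zero_mul]
      rintro rfl
      exact hz ⟨t', rfl⟩
    · rw [J_zero_right A _ z (fun u t h' => h ⟨u, t, h'⟩), zero_mul]
  · intro t1
    rw [J_form, if_pos rfl]

theorem mul_J_zero {gam lam : YoungDiagram} {m k : ℕ}
    (M : Matrix (Tab ⊥ lam (m + k)) (Tab ⊥ lam (m + k)) ℝ)
    (A : Matrix (Tab gam lam k) (Tab gam lam k) ℝ) (x y : Tab ⊥ lam (m + k))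
    (hy : ∀ (u : Tab ⊥ gam m) (t : Tab gam lam k), y ≠ glue u t) :
    (M * Jm (m := m) rfl A) x y = 0 := by
  rw [Matrix.mul_apply]
  exact Finset.sum_eq_zero fun z _ => by rw [J_zero_right A z y hy, mul_zero]

theorem J_mul_zero {gam lam : YoungDiagram} {m k : ℕ}
    (M : Matrix (Tab ⊥ lam (m + k)) (Tab ⊥ lam (m + k)) ℝ)
    (A : Matrix (Tab gam lam k) (Tab gam lam k) ℝ) (x y : Tab ⊥ lam (m + k))
    (hx : ∀ (u : Tab ⊥ gam m) (t : Tab gam lam k), x ≠ glue u t) :
    (Jm (m := m) rfl A * M) x y = 0 := by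
  rw [Matrix.mul_apply]
  exact Finset.sum_eq_zero fun z _ => by rw [J_zero_left A x z hx, zero_mul]

end JAux

theorem Jm_glue {gam lam : YoungDiagram} {m k n : ℕ} (h : m + k = n)
    (A : Matrix (Tab gam lam k) (Tab gam lam k) ℝ) (u u' : Tab ⊥ gam m) (t t' : Tab gam lam k) :
    Jm h A (glueC h u t) (glueC h u' t') = if u = u' then A t t' else 0 := by
  subst h
  rw [JAux.glueC_rfl, JAux.glueC_rfl, JAux.J_form]

theorem Jm_L {gam lam : YoungDiagram} {m k n : ℕ} (h : m + k = n) (hmn : m ≤ n)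
    (A : Matrix (Tab gam lam k) (Tab gam lam k) ℝ) (σ : Perm (Fin m)) :
    rep ⊥ lam n (pL hmn σ) * Jm h A = Jm h A * rep ⊥ lam n (pL hmn σ) := by
  subst h
  have hp : pL hmn = iL m k := pL_iL m k
  rw [hp]
  ext x y
  by_cases hx : ∃ (u : Tab ⊥ gam m) (t : Tab gam lam k), x = glue u t
  · obtain ⟨u, t, rfl⟩ := hx
    by_cases hy : ∃ (u : Tab ⊥ gam m) (t : Tab gam lam k), y = glue u t
    · obtain ⟨u', t', rfl⟩ := hy
      rw [JAux.mul_J, JAux.J_mul, Finset.sum_eq_single t, Finset.sum_eq_single t']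
      · rw [JAux.repL_form, JAux.repL_form, if_pos rfl, if_pos rfl, mul_comm]
      · intro b _ hb
        rw [JAux.repL_form, if_neg hb, mul_zero]
      · intro h; exact absurd (Finset.mem_univ _) h
      · intro b _ hb
        rw [JAux.repL_form, if_neg hb.symm, zero_mul]
      · intro h; exact absurd (Finset.mem_univ _) h
    · have hy' : ∀ (u : Tab ⊥ gam m) (t : Tab gam lam k), y ≠ glue u t :=
        fun u t h => hy ⟨u, t, h⟩
      rw [JAux.mul_J_zero _ _ _ _ hy', JAux.J_mul]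
      symm
      exact Finset.sum_eq_zero fun t1 _ => by
        rw [JAux.repL_zero_right y hy', mul_zero]
  · have hx' : ∀ (u : Tab ⊥ gam m) (t : Tab gam lam k), x ≠ glue u t :=
      fun u t h => hx ⟨u, t, h⟩
    rw [JAux.J_mul_zero _ _ _ _ hx']
    by_cases hy : ∃ (u : Tab ⊥ gam m) (t : Tab gam lam k), y = glue u t
    · obtain ⟨u', t', rfl⟩ := hy
      rw [JAux.mul_J]
      exact Finset.sum_eq_zero fun t1 _ => by
        rw [JAux.repL_zero_left x hx', zero_mul]
    · exact JAux.mul_J_zero _ _ _ _ fun u t h => hy ⟨u, t, h⟩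

theorem Jm_R_left {gam lam : YoungDiagram} {m k : ℕ}
    (A : Matrix (Tab gam lam k) (Tab gam lam k) ℝ) (π : Perm (Fin k)) :
    rep ⊥ lam (m + k) (iR m k π) * Jm (m := m) rfl A = Jm rfl (rep gam lam k π * A) := by
  ext x y
  by_cases hy : ∃ (u : Tab ⊥ gam m) (t : Tab gam lam k), y = glue u t
  · obtain ⟨u', t', rfl⟩ := hy
    rw [JAux.mul_J]
    by_cases hx : ∃ (u : Tab ⊥ gam m) (t : Tab gam lam k), x = glue u t
    · obtain ⟨u, t, rfl⟩ := hx
      rw [JAux.J_form]
      by_cases h : u = u'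
      · subst h
        rw [if_pos rfl, Matrix.mul_apply]
        refine Finset.sum_congr rfl fun t1 _ => ?_
        rw [JAux.repR_form, if_pos rfl]
      · rw [if_neg h]
        exact Finset.sum_eq_zero fun t1 _ => by
          rw [JAux.repR_form, if_neg h, zero_mul]
    · have hx' : ∀ (u : Tab ⊥ gam m) (t : Tab gam lam k), x ≠ glue u t :=
        fun u t h => hx ⟨u, t, h⟩
      rw [JAux.J_zero_left _ _ _ hx']
      exact Finset.sum_eq_zero fun t1 _ => by
        rw [JAux.repR_zero_left x hx', zero_mul]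
  · have hy' : ∀ (u : Tab ⊥ gam m) (t : Tab gam lam k), y ≠ glue u t :=
      fun u t h => hy ⟨u, t, h⟩
    rw [JAux.mul_J_zero _ _ _ _ hy', JAux.J_zero_right _ _ _ hy']

theorem Jm_R_right {gam lam : YoungDiagram} {m k : ℕ}
    (A : Matrix (Tab gam lam k) (Tab gam lam k) ℝ) (π : Perm (Fin k)) :
    Jm (m := m) rfl A * rep ⊥ lam (m + k) (iR m k π) = Jm rfl (A * rep gam lam k π) := by
  ext x y
  by_cases hx : ∃ (u : Tab ⊥ gam m) (t : Tab gam lam k), x = glue u t
  · obtain ⟨u, t, rfl⟩ := hx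
    rw [JAux.J_mul]
    by_cases hy : ∃ (u : Tab ⊥ gam m) (t : Tab gam lam k), y = glue u t
    · obtain ⟨u', t', rfl⟩ := hy
      rw [JAux.J_form]
      by_cases h : u = u'
      · subst h
        rw [if_pos rfl, Matrix.mul_apply]
        refine Finset.sum_congr rfl fun t1 _ => ?_
        rw [JAux.repR_form, if_pos rfl]
      · rw [if_neg h]
        exact Finset.sum_eq_zero fun t1 _ => by
          rw [JAux.repR_form, if_neg h, mul_zero]
    · have hy' : ∀ (u : Tab ⊥ gam m) (t : Tab gam lam k), y ≠ glue u t :=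
        fun u t h => hy ⟨u, t, h⟩
      rw [JAux.J_zero_right _ _ _ hy']
      exact Finset.sum_eq_zero fun t1 _ => by
        rw [JAux.repR_zero_right y hy', mul_zero]
  · have hx' : ∀ (u : Tab ⊥ gam m) (t : Tab gam lam k), x ≠ glue u t :=
      fun u t h => hx ⟨u, t, h⟩
    rw [JAux.J_mul_zero _ _ _ _ hx', JAux.J_zero_left _ _ _ hx']

theorem ptr_Jm_same {lam : YoungDiagram} {m k n : ℕ} (h : m + k = n) (gam : Y m)
    (A : Matrix (Tab gam.1 lam k) (Tab gam.1 lam k) ℝ) : ptr h (Jm h A) = fd gam • A := by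
  ext t t'
  show ∑ u : Tab ⊥ gam.1 m, Jm h A (glueC h u t) (glueC h u t') = fd gam * A t t'
  rw [Finset.sum_congr rfl (fun u _ => by rw [Jm_glue, if_pos rfl]), Finset.sum_const,
    Finset.card_univ, nsmul_eq_mul]
  rfl

theorem ptr_Jm_ne {lam : YoungDiagram} {m k n : ℕ} (h : m + k = n) (gam gam' : Y m)
    (hne : gam ≠ gam') (A : Matrix (Tab gam.1 lam k) (Tab gam.1 lam k) ℝ) :
    ptr (gam := gam'.1) h (Jm h A) = 0 := by
  subst h
  ext t t'
  show ∑ u : Tab ⊥ gam'.1 m, Jm rfl A (glueC rfl u t) (glueC rfl u t') = 0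
  refine Finset.sum_eq_zero fun u _ => ?_
  rw [JAux.glueC_rfl, JAux.glueC_rfl]
  apply JAux.J_zero_left
  intro v s hvs
  apply hne
  apply Subtype.ext
  apply shape_of_init v u
  rw [← JAux.glue_init v s, ← JAux.glue_init u t, hvs]

end Pool.MP322
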