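import Pool.Agent.Lib.MP_322c5f_al.K1
import Pool.Agent.Lib.MP_322c5f_al.Hom

/-! The key lemma in a general representation. -/

set_option autoImplicit false

open Equiv Finset

namespace Pool.MP322

/-- conditions on an equivariant map from `V_nu` to the invariants of `S_m`, killed by averaging
over `S_{m+1}`. -/
structure KCond {m k : ℕ} (nu : Y (k + 1)) {ι : Type*} [Fintype ι] [DecidableEq ι]
    (W : Perm (Fin (m + (k + 1))) →* Matrix ι ι ℝ)
    (φ : Matrix ι (Tab ⊥ nu.1 (k + 1)) ℝ) : Prop where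
  ne : φ ≠ 0
  h1 : ∀ π : Perm (Fin (k + 1)), W (iR m (k + 1) π) * φ = φ * rep ⊥ nu.1 (k + 1) π
  h2 : ∀ σ : Perm (Fin m), W (iL m (k + 1) σ) * φ = φ
  h3 : φ + ∑ b : Fin m, W (swap (Fin.castAdd (k + 1) b) (Fin.natAdd m 0)) * φ = 0

theorem key_general {m k : ℕ} (hkm : k + 1 ≤ m) (nu : Y (k + 1)) {ι : Type*} [Fintype ι]
    [DecidableEq ι] (W : Perm (Fin (m + (k + 1))) →* Matrix ι ι ℝ)
    (φ : Matrix ι (Tab ⊥ nu.1 (k + 1)) ℝ) (H : KCond nu W φ) :
    ∃ Φ : Matrix ι (Tab ⊥ (addRowY hkm nu).1 (m + (k + 1))) ℝ, Φ ≠ 0 ∧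
      ∀ σ, W σ * Φ = Φ * rep ⊥ (addRowY hkm nu).1 (m + (k + 1)) σ := by
  have hcol : ∃ s, (fun i => φ i s) ≠ 0 := by
    by_contra hcon
    push Not at hcon
    apply H.ne
    ext i s
    exact congrFun (hcon s) i
  obtain ⟨s, hs⟩ := hcol
  obtain ⟨mu, ψ, hψ, hψw⟩ := exists_hom W _ hs
  have hne : ψ * φ ≠ 0 := by
    intro h0
    apply hψw
    funext i
    have := congrFun (congrFun h0 i) s
    simpa [Matrix.mulVec, dotProduct, Matrix.mul_apply] using this
  have hmu : mu = addRowY hkm nu := by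
    refine key_irr hkm nu mu (ψ * φ) hne ?_ ?_ ?_
    · intro π
      rw [← Matrix.mul_assoc, hψ, Matrix.mul_assoc, H.h1, Matrix.mul_assoc]
    · intro σ
      rw [← Matrix.mul_assoc, hψ, Matrix.mul_assoc, H.h2]
    · have h := congrArg (fun M => ψ * M) H.h3
      simp only [Matrix.mul_add, Matrix.mul_zero, Matrix.mul_sum] at h
      rw [← h]
      congr 1
      refine Finset.sum_congr rfl fun b _ => ?_
      rw [← Matrix.mul_assoc, hψ, Matrix.mul_assoc]
  subst hmu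
  have hψ0 : ψ ≠ 0 := by
    rintro rfl
    exact hne (Matrix.zero_mul _)
  exact hom_back W _ ψ hψ0 hψ

end Pool.MP322
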