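import Pool.Agent.Lib.MP_322c5f_al.RowEmb
import Pool.Agent.Lib.MP_322c5f_al.Schur

/-! job SQ-25: the key lemma in an irreducible representation. -/

set_option autoImplicit false

open Equiv Finset

namespace Pool.MP322

theorem k1_iR_nat (m k : ℕ) (π : Perm (Fin k)) (a : Fin k) :
    iR m k π (Fin.natAdd m a) = Fin.natAdd m (π a) :=
  Equiv.Perm.viaEmbedding_apply π (Fin.natAddEmb m) a

theorem k1_iR_cast (m k : ℕ) (π : Perm (Fin k)) (b : Fin m) :
    iR m k π (Fin.castAdd k b) = Fin.castAdd k b := by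
  apply Equiv.Perm.viaEmbedding_apply_of_notMem π (Fin.natAddEmb m)
  rintro ⟨a, ha⟩
  have := congrArg Fin.val ha
  simp at this
  omega

open Matrix in
theorem k1_adj {lam : YoungDiagram} {n : ℕ} (g : Perm (Fin n)) (u v : Tab ⊥ lam n → ℝ) :
    (rep ⊥ lam n g *ᵥ u) ⬝ᵥ v = u ⬝ᵥ (rep ⊥ lam n g⁻¹ *ᵥ v) := by
  rw [← rep_transpose, Matrix.dotProduct_mulVec, Matrix.vecMul_transpose]

open Matrix in
theorem k1_mul {lam : YoungDiagram} {n : ℕ} (g h : Perm (Fin n)) (v : Tab ⊥ lam n → ℝ) :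
    rep ⊥ lam n g *ᵥ (rep ⊥ lam n h *ᵥ v) = rep ⊥ lam n (g * h) *ᵥ v := by
  rw [Matrix.mulVec_mulVec, map_mul]

open Matrix in
/-- the relation (h3) for every letter among the last ones -/
theorem k1_rel {m k : ℕ} {mu : Y (m + (k + 1))} {nu : Y (k + 1)}
    (φ : Matrix (Tab ⊥ mu.1 (m + (k + 1))) (Tab ⊥ nu.1 (k + 1)) ℝ)
    (h1 : ∀ π : Perm (Fin (k + 1)), rep ⊥ mu.1 (m + (k + 1)) (iR m (k + 1) π) * φ =
      φ * rep ⊥ nu.1 (k + 1) π)
    (h3 : φ + ∑ b : Fin m, rep ⊥ mu.1 (m + (k + 1))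
      (swap (Fin.castAdd (k + 1) b) (Fin.natAdd m 0)) * φ = 0) (a : Fin (k + 1))
    (w : Tab ⊥ nu.1 (k + 1) → ℝ) :
    φ *ᵥ w + ∑ b : Fin m, rep ⊥ mu.1 (m + (k + 1))
      (swap (Fin.castAdd (k + 1) b) (Fin.natAdd m a)) *ᵥ (φ *ᵥ w) = 0 := by
  have base : ∀ w : Tab ⊥ nu.1 (k + 1) → ℝ, φ *ᵥ w + ∑ b : Fin m, rep ⊥ mu.1 (m + (k + 1))
      (swap (Fin.castAdd (k + 1) b) (Fin.natAdd m 0)) *ᵥ (φ *ᵥ w) = 0 := by
    intro w
    have := congrArg (fun X => X *ᵥ w) h3
    simp only [Matrix.add_mulVec, Matrix.sum_mulVec, Matrix.zero_mulVec] at this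
    rw [← this]
    congr 1
    refine Finset.sum_congr rfl fun b _ => ?_
    rw [Matrix.mulVec_mulVec]
  set π : Perm (Fin (k + 1)) := swap 0 a with hπ
  have hππ : iR m (k + 1) π * iR m (k + 1) π = 1 := by
    rw [← map_mul, hπ, Equiv.swap_mul_self, map_one]
  have hinv : (iR m (k + 1) π)⁻¹ = iR m (k + 1) π := by
    rw [← map_inv, hπ, Equiv.swap_inv]
  have e1 : ∀ b : Fin m, swap (Fin.castAdd (k + 1) b) (Fin.natAdd m a) =
      iR m (k + 1) π * swap (Fin.castAdd (k + 1) b) (Fin.natAdd m 0) * iR m (k + 1) π := by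
    intro b
    have e3 := Equiv.swap_apply_apply (iR m (k + 1) π) (Fin.castAdd (k + 1) b)
      (Fin.natAdd m 0)
    rw [k1_iR_cast, k1_iR_nat, hinv] at e3
    rw [← e3, hπ, swap_apply_left]
  have hw : φ *ᵥ (rep ⊥ nu.1 (k + 1) π *ᵥ w) =
      rep ⊥ mu.1 (m + (k + 1)) (iR m (k + 1) π) *ᵥ (φ *ᵥ w) := by
    rw [Matrix.mulVec_mulVec, Matrix.mulVec_mulVec, h1 π]
  have h4 := base (rep ⊥ nu.1 (k + 1) π *ᵥ w)
  have h5 := congrArg (fun X => rep ⊥ mu.1 (m + (k + 1)) (iR m (k + 1) π) *ᵥ X) h4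
  simp only [Matrix.mulVec_add, Matrix.mulVec_zero, Matrix.mulVec_sum] at h5
  rw [hw, k1_mul, hππ, map_one, Matrix.one_mulVec] at h5
  rw [← h5]
  congr 1
  refine Finset.sum_congr rfl fun b _ => ?_
  rw [k1_mul, k1_mul, e1 b]

open Matrix in
/-- orthogonality to the vectors fixed by large symmetric groups -/
theorem k1_orth {m k : ℕ} {mu : Y (m + (k + 1))} {nu : Y (k + 1)}
    (φ : Matrix (Tab ⊥ mu.1 (m + (k + 1))) (Tab ⊥ nu.1 (k + 1)) ℝ)
    (hrel : ∀ (a : Fin (k + 1)) (w : Tab ⊥ nu.1 (k + 1) → ℝ),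
      φ *ᵥ w + ∑ b : Fin m, rep ⊥ mu.1 (m + (k + 1))
      (swap (Fin.castAdd (k + 1) b) (Fin.natAdd m a)) *ᵥ (φ *ᵥ w) = 0) :
    ∀ (d : ℕ) (A : Finset (Fin (m + (k + 1)))) (v : Tab ⊥ mu.1 (m + (k + 1)) → ℝ),
      ((Finset.univ : Finset (Fin m)).filter (fun b => Fin.castAdd (k + 1) b ∉ A)).card = d →
      m + 1 ≤ A.card →
      (∀ g : Perm (Fin (m + (k + 1))), (∀ i, i ∉ A → g i = i) →
        rep ⊥ mu.1 (m + (k + 1)) g *ᵥ v = v) →
      ∀ w, (φ *ᵥ w) ⬝ᵥ v = 0 := by
  classical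
  intro d
  induction d using Nat.strong_induction_on with
  | _ d ih =>
    intro A v hd hA hv w
    -- a letter of A among the last ones
    obtain ⟨a, ha⟩ : ∃ a : Fin (k + 1), Fin.natAdd m a ∈ A := by
      by_contra hcon
      push Not at hcon
      have hsub : A ⊆ (Finset.univ : Finset (Fin m)).image (Fin.castAdd (k + 1)) := by
        intro x hx
        rw [Finset.mem_image]
        revert hx
        refine Fin.addCases (fun c hc => ?_) (fun c hc => ?_) x
        · exact ⟨c, Finset.mem_univ _, rfl⟩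
        · exact absurd hc (hcon c)
      have h1 := Finset.card_le_card hsub
      have h2 := Finset.card_image_le (s := (Finset.univ : Finset (Fin m)))
        (f := Fin.castAdd (k + 1))
      rw [Finset.card_univ, Fintype.card_fin] at h2
      omega
    have h0 := congrArg (fun X => X ⬝ᵥ v) (hrel a w)
    simp only [add_dotProduct, zero_dotProduct, sum_dotProduct] at h0
    have hterm : ∀ b : Fin m, (rep ⊥ mu.1 (m + (k + 1))
        (swap (Fin.castAdd (k + 1) b) (Fin.natAdd m a)) *ᵥ (φ *ᵥ w)) ⬝ᵥ v =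
        if Fin.castAdd (k + 1) b ∈ A then (φ *ᵥ w) ⬝ᵥ v else 0 := by
      intro b
      rw [k1_adj, Equiv.swap_inv]
      have hab : Fin.castAdd (k + 1) b ≠ Fin.natAdd m a := by
        intro h
        have h' := congrArg Fin.val h
        simp at h'
        omega
      split_ifs with hb
      · rw [hv]
        intro i hi
        exact swap_apply_of_ne_of_ne (fun h => hi (h ▸ hb)) (fun h => hi (h ▸ ha))
      · set s := swap (Fin.castAdd (k + 1) b) (Fin.natAdd m a) with hs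
        have hbE : Fin.castAdd (k + 1) b ∉ A.erase (Fin.natAdd m a) := fun h =>
          hb (Finset.mem_of_mem_erase h)
        refine ih _ ?_ (insert (Fin.castAdd (k + 1) b) (A.erase (Fin.natAdd m a))) _ rfl ?_ ?_ w
        · rw [← hd]
          apply Finset.card_lt_card
          rw [Finset.ssubset_iff_of_subset]
          · refine ⟨b, ?_, ?_⟩
            · rw [Finset.mem_filter]; exact ⟨Finset.mem_univ _, hb⟩
            · rw [Finset.mem_filter]
              rintro ⟨_, h⟩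
              exact h (Finset.mem_insert_self _ _)
          · intro c hc
            rw [Finset.mem_filter] at hc ⊢
            refine ⟨Finset.mem_univ _, fun h => hc.2 ?_⟩
            apply Finset.mem_insert_of_mem
            rw [Finset.mem_erase]
            refine ⟨?_, h⟩
            intro h'
            have h'' := congrArg Fin.val h'
            simp at h''
            omega
        · rw [Finset.card_insert_of_notMem hbE, Finset.card_erase_of_mem ha]
          omega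
        · intro g hg
          have e1 : rep ⊥ mu.1 (m + (k + 1)) g *ᵥ (rep ⊥ mu.1 (m + (k + 1)) s *ᵥ v) =
              rep ⊥ mu.1 (m + (k + 1)) s *ᵥ (rep ⊥ mu.1 (m + (k + 1)) (s * g * s) *ᵥ v) := by
            have e2 : g * s = s * (s * g * s) := by
              rw [← mul_assoc, ← mul_assoc, hs, Equiv.swap_mul_self, one_mul]
            rw [k1_mul, k1_mul, ← e2]
          rw [e1, hv]
          intro i hi
          simp only [Perm.mul_apply]
          have hia : i ≠ Fin.natAdd m a := fun h => hi (h ▸ ha)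
          by_cases hib : i = Fin.castAdd (k + 1) b
          · rw [hib, hs, swap_apply_left, hg, swap_apply_right]
            rw [Finset.mem_insert, Finset.mem_erase]
            rintro (h | h)
            · exact hab h.symm
            · exact h.1 rfl
          · rw [hs, swap_apply_of_ne_of_ne hib hia, hg, swap_apply_of_ne_of_ne hib hia]
            rw [Finset.mem_insert, Finset.mem_erase]
            rintro (h | h)
            · exact hib h
            · exact hi h.2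
    rw [Finset.sum_congr rfl (fun b _ => hterm b), ← Finset.sum_filter, Finset.sum_const,
      nsmul_eq_mul] at h0
    have h1 : (0 : ℝ) ≤ (((Finset.univ : Finset (Fin m)).filter
        (fun b => Fin.castAdd (k + 1) b ∈ A)).card : ℝ) := Nat.cast_nonneg _
    have h2 : (1 + (((Finset.univ : Finset (Fin m)).filter
        (fun b => Fin.castAdd (k + 1) b ∈ A)).card : ℝ)) * ((φ *ᵥ w) ⬝ᵥ v) = 0 := by
      rw [add_mul, one_mul]; exact h0
    rcases mul_eq_zero.1 h2 with h3 | h3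
    · linarith
    · exact h3

open Matrix in
theorem k1_rowLen {m k : ℕ} (hkm : k + 1 ≤ m) (nu : Y (k + 1)) (mu : Y (m + (k + 1)))
    (φ : Matrix (Tab ⊥ mu.1 (m + (k + 1))) (Tab ⊥ nu.1 (k + 1)) ℝ) (hφ : φ ≠ 0)
    (h2 : ∀ σ : Perm (Fin m), rep ⊥ mu.1 (m + (k + 1)) (iL m (k + 1) σ) * φ = φ)
    (hrel : ∀ (a : Fin (k + 1)) (w : Tab ⊥ nu.1 (k + 1) → ℝ),
      φ *ᵥ w + ∑ b : Fin m, rep ⊥ mu.1 (m + (k + 1))
      (swap (Fin.castAdd (k + 1) b) (Fin.natAdd m a)) *ᵥ (φ *ᵥ w) = 0) :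
    mu.1.rowLen 0 = m := by
  classical
  -- a nonzero vector in the image
  obtain ⟨w, hw⟩ : ∃ w, φ *ᵥ w ≠ 0 := by
    by_contra hcon
    push Not at hcon
    apply hφ
    ext x y
    have := congrFun (hcon (Pi.single y 1)) x
    rw [Matrix.mulVec_single_one] at this
    simpa using this
  have hge : m ≤ mu.1.rowLen 0 := by
    refine fixed_rowLen (φ *ᵥ w) (fun σ => ?_) hw
    rw [Matrix.mulVec_mulVec, h2]
  rcases Nat.eq_or_lt_of_le hge with h | h
  · exact h.symm
  · exfalso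
    obtain ⟨v, hv0, hv⟩ := exists_fixed mu (j := m + 1) h
    set A0 : Finset (Fin (m + (k + 1))) := Finset.univ.filter (fun i => (i : ℕ) < m + 1) with hA0
    have hA0c : A0.card = m + 1 := by
      have : A0 = Finset.univ.map (Fin.castLEEmb (show m + 1 ≤ m + (k + 1) by omega)) := by
        ext i
        rw [hA0, Finset.mem_filter, Finset.mem_map]
        constructor
        · rintro ⟨_, hi⟩
          exact ⟨⟨i, hi⟩, Finset.mem_univ _, Fin.ext rfl⟩
        · rintro ⟨j, _, rfl⟩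
          exact ⟨Finset.mem_univ _, j.2⟩
      rw [this, Finset.card_map, Finset.card_univ, Fintype.card_fin]
    have horth : ∀ g : Perm (Fin (m + (k + 1))), ∀ w,
        (φ *ᵥ w) ⬝ᵥ (rep ⊥ mu.1 (m + (k + 1)) g *ᵥ v) = 0 := by
      intro g w
      refine k1_orth φ hrel _ (A0.map g.toEmbedding) _ rfl ?_ ?_ w
      · rw [Finset.card_map, hA0c]
      · intro h hh
        have e1 : rep ⊥ mu.1 (m + (k + 1)) h *ᵥ (rep ⊥ mu.1 (m + (k + 1)) g *ᵥ v) =
            rep ⊥ mu.1 (m + (k + 1)) g *ᵥ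
              (rep ⊥ mu.1 (m + (k + 1)) (g⁻¹ * h * g) *ᵥ v) := by
          have e2 : h * g = g * (g⁻¹ * h * g) := by group
          rw [k1_mul, k1_mul, ← e2]
        rw [e1, hv]
        intro i hi
        simp only [Perm.mul_apply]
        rw [hh]
        · exact g.symm_apply_apply i
        rw [Finset.mem_map]
        rintro ⟨j, hj, hji⟩
        have : j = i := g.injective hji
        rw [this, hA0, Finset.mem_filter] at hj
        omega
    -- the averaging matrix
    set P : Matrix (Tab ⊥ mu.1 (m + (k + 1))) (Tab ⊥ mu.1 (m + (k + 1))) ℝ :=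
      ∑ g : Perm (Fin (m + (k + 1))), vecMulVec (rep ⊥ mu.1 (m + (k + 1)) g *ᵥ v)
        (rep ⊥ mu.1 (m + (k + 1)) g *ᵥ v) with hP
    have hconj : ∀ h : Perm (Fin (m + (k + 1))), rep ⊥ mu.1 (m + (k + 1)) h * P =
        P * rep ⊥ mu.1 (m + (k + 1)) h := by
      intro h
      rw [hP, Matrix.mul_sum, Matrix.sum_mul]
      refine Fintype.sum_equiv (Equiv.mulLeft h) _ _ fun g => ?_
      rw [Equiv.coe_mulLeft, Matrix.mul_vecMulVec, Matrix.vecMulVec_mul, k1_mul]
      congr 1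
      rw [← Matrix.mulVec_transpose, rep_transpose, k1_mul]
      congr 2
      group
    obtain ⟨c, hc⟩ := schur_scalar mu P (fun σ => (hconj σ).symm)
    have hquad : ∀ u : Tab ⊥ mu.1 (m + (k + 1)) → ℝ, c * (u ⬝ᵥ u) =
        ∑ g : Perm (Fin (m + (k + 1))), (u ⬝ᵥ (rep ⊥ mu.1 (m + (k + 1)) g *ᵥ v)) ^ 2 := by
      intro u
      have e1 : u ⬝ᵥ (P *ᵥ u) = c * (u ⬝ᵥ u) := by
        rw [hc, Matrix.smul_mulVec, Matrix.one_mulVec, dotProduct_smul, smul_eq_mul]
      rw [← e1, hP, Matrix.sum_mulVec, dotProduct_sum]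
      refine Finset.sum_congr rfl fun g _ => ?_
      rw [Matrix.vecMulVec_mulVec]
      simp only [op_smul_eq_smul, dotProduct_smul, smul_eq_mul]
      rw [dotProduct_comm (rep ⊥ mu.1 (m + (k + 1)) g *ᵥ v) u]
      ring
    have hcpos : 0 < c := by
      have h3 := hquad v
      have h4 : 0 < v ⬝ᵥ v := by
        have := dotProduct_self_eq_zero (v := v)
        have h5 : 0 ≤ v ⬝ᵥ v := Finset.sum_nonneg fun i _ => mul_self_nonneg _
        rcases h5.eq_or_lt with h6 | h6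
        · exact absurd (this.1 h6.symm) hv0
        · exact h6
      have h5 : (v ⬝ᵥ (rep ⊥ mu.1 (m + (k + 1)) 1 *ᵥ v)) ^ 2 ≤
          ∑ g : Perm (Fin (m + (k + 1))), (v ⬝ᵥ (rep ⊥ mu.1 (m + (k + 1)) g *ᵥ v)) ^ 2 :=
        Finset.single_le_sum (f := fun g : Perm (Fin (m + (k + 1))) =>
          (v ⬝ᵥ (rep ⊥ mu.1 (m + (k + 1)) g *ᵥ v)) ^ 2) (fun g _ => sq_nonneg _)
          (Finset.mem_univ 1)
      rw [map_one, Matrix.one_mulVec, ← h3] at h5
      by_contra hcon
      push Not at hcon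
      have h6 : c * (v ⬝ᵥ v) ≤ 0 := mul_nonpos_of_nonpos_of_nonneg hcon h4.le
      have h7 : 0 < (v ⬝ᵥ v) ^ 2 := by positivity
      linarith
    have h8 := hquad (φ *ᵥ w)
    rw [Finset.sum_eq_zero (fun g _ => by rw [horth g w]; norm_num)] at h8
    have h9 : (φ *ᵥ w) ⬝ᵥ (φ *ᵥ w) = 0 := by
      rcases mul_eq_zero.1 h8 with h | h
      · exact absurd h hcpos.ne'
      · exact h
    exact hw (dotProduct_self_eq_zero.1 h9)

theorem key_irr {m k : ℕ} (hkm : k + 1 ≤ m) (nu : Y (k + 1)) (mu : Y (m + (k + 1)))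
    (φ : Matrix (Tab ⊥ mu.1 (m + (k + 1))) (Tab ⊥ nu.1 (k + 1)) ℝ) (hφ : φ ≠ 0)
    (h1 : ∀ π : Perm (Fin (k + 1)), rep ⊥ mu.1 (m + (k + 1)) (iR m (k + 1) π) * φ =
      φ * rep ⊥ nu.1 (k + 1) π)
    (h2 : ∀ σ : Perm (Fin m), rep ⊥ mu.1 (m + (k + 1)) (iL m (k + 1) σ) * φ = φ)
    (h3 : φ + ∑ b : Fin m, rep ⊥ mu.1 (m + (k + 1))
      (swap (Fin.castAdd (k + 1) b) (Fin.natAdd m 0)) * φ = 0) :
    mu = addRowY hkm nu := by
  classical
  have hrow := k1_rowLen hkm nu mu φ hφ h2 (fun a w => k1_rel φ h1 h3 a w)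
  obtain ⟨kap, rfl⟩ := eq_addRow hkm mu hrow
  obtain ⟨R, hR1, _, hR3, hR4⟩ := exists_rowEmb hkm kap
  have hcol : R * (R.transpose * φ) = φ := by
    ext x y
    obtain ⟨w, hw⟩ := hR4 (fun x => φ x y) (fun σ => by
      funext z
      have := congrFun (congrFun (h2 σ) z) y
      rw [Matrix.mul_apply] at this
      exact this)
    have e1 : (R * (R.transpose * φ)) x y =
        (R.mulVec (R.transpose.mulVec (fun x => φ x y))) x := by
      rw [Matrix.mul_apply]
      rfl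
    have e3 : R.transpose.mulVec (R.mulVec w) = w := by
      rw [Matrix.mulVec_mulVec, hR3, Matrix.one_mulVec]
    rw [e1, hw, e3, ← hw]
  have hψ : R.transpose * φ ≠ 0 := by
    intro h0
    rw [h0, Matrix.mul_zero] at hcol
    exact hφ hcol.symm
  by_contra hne
  apply hψ
  apply schur_zero kap nu (fun h => hne (by rw [h]))
  intro σ
  have e2 : rep ⊥ kap.1 (k + 1) σ =
      R.transpose * (rep ⊥ (addRowY hkm kap).1 (m + (k + 1)) (iR m (k + 1) σ) * R) := by
    rw [hR1, ← Matrix.mul_assoc, hR3, Matrix.one_mul]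
  rw [e2, Matrix.mul_assoc, Matrix.mul_assoc, hcol, h1 σ, Matrix.mul_assoc]

end Pool.MP322
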