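import Pool.Agent.Lib.MP_322c5f_al.MidA

/-! job SQ-58: positivity when the support is not too large. -/

set_option autoImplicit false

open Finset

namespace Pool.MP322

private theorem midc_bF {F k : ℕ} (hk : 1 ≤ k) (hkF : k ≤ F) (hu1 : uF F k ≤ 1) : ∀ t : ℕ, t ≤ k →
    (F.choose k : ℝ) * uF F k ^ t * (1 - (t : ℝ) ^ 2 / k) ≤ bF F k t := by
  have hk0 : (0 : ℝ) < k := by exact_mod_cast hk
  have hkF' : (k : ℝ) ≤ F := by exact_mod_cast hkF
  obtain ⟨v, hvdef⟩ : ∃ v : ℝ, v = (F : ℝ) - k + 1 := ⟨_, rfl⟩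
  have hv : 0 < v := by linarith
  have huv : uF F k = k / v := by rw [hvdef]; rfl
  have hkv : (k : ℝ) ≤ v := by
    rw [huv] at hu1
    rwa [div_le_one hv] at hu1
  have hD : (0 : ℝ) ≤ (F.choose k : ℝ) := Nat.cast_nonneg _
  have hu0 : 0 ≤ uF F k := by rw [huv]; positivity
  intro t
  induction t with
  | zero =>
    intro _
    simp [bF]
  | succ t ih =>
    intro ht
    have ih' := ih (by omega)
    have ht' : ((t : ℝ) + 1) ≤ k := by exact_mod_cast ht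
    have ht0 : (0 : ℝ) ≤ t := Nat.cast_nonneg t
    have hrec : (F.choose (k - (t + 1)) : ℝ) * (v + t) = (F.choose (k - t) : ℝ) * ((k : ℝ) - t) := by
      have h := Nat.choose_succ_right_eq F (k - (t + 1))
      have e1 : k - (t + 1) + 1 = k - t := by omega
      rw [e1] at h
      have h' : ((F.choose (k - t) * (k - t) : ℕ) : ℝ) =
          ((F.choose (k - (t + 1)) * (F - (k - (t + 1))) : ℕ) : ℝ) := by rw [h]
      have c1 : ((k - t : ℕ) : ℝ) = (k : ℝ) - t := Nat.cast_sub (by omega)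
      have c2 : ((F - (k - (t + 1)) : ℕ) : ℝ) = v + t := by
        rw [Nat.cast_sub (by omega), Nat.cast_sub ht, hvdef]
        push_cast
        ring
      rw [Nat.cast_mul, Nat.cast_mul, c1, c2] at h'
      exact h'.symm
    have hb1 : bF F k (t + 1) = (F.choose (k - (t + 1)) : ℝ) := by
      unfold bF
      rw [if_pos ht]
    have hb0 : bF F k t = (F.choose (k - t) : ℝ) := by
      unfold bF
      rw [if_pos (by omega)]
    have hvt : 0 < v + t := by linarith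
    rw [hb1, eq_div_of_mul_eq hvt.ne' hrec, le_div_iff₀ hvt]
    rw [hb0] at ih'
    have h1 : (F.choose k : ℝ) * uF F k ^ t * (1 - (t : ℝ) ^ 2 / k) * ((k : ℝ) - t) ≤
        (F.choose (k - t) : ℝ) * ((k : ℝ) - t) := mul_le_mul_of_nonneg_right ih' (by linarith)
    refine le_trans ?_ h1
    have h2 : uF F k * (1 - ((t + 1 : ℕ) : ℝ) ^ 2 / k) * (v + t) ≤
        (1 - (t : ℝ) ^ 2 / k) * ((k : ℝ) - t) := by
      have e1 : uF F k * (1 - ((t + 1 : ℕ) : ℝ) ^ 2 / k) * (v + t) =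
          ((k : ℝ) - (t + 1) ^ 2) * (v + t) / v := by
        rw [huv]
        push_cast
        field_simp
      have e2 : (1 - (t : ℝ) ^ 2 / k) * ((k : ℝ) - t) = ((k : ℝ) - t ^ 2) * (k - t) / k := by
        field_simp
      rw [e1, e2, div_le_div_iff₀ hv hk0]
      have e3 : ((k : ℝ) - t ^ 2) * (k - t) * v - ((k : ℝ) - (t + 1) ^ 2) * (v + t) * k =
          (v - k) * (k * t + k + t ^ 3) + k * (k + t ^ 3 + t * (t + 1) ^ 2) := by ring
      have e4 : 0 ≤ (v - k) * (k * t + k + (t : ℝ) ^ 3) + k * (k + t ^ 3 + t * (t + 1) ^ 2) := by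
        have : 0 ≤ v - k := by linarith
        positivity
      linarith
    calc (F.choose k : ℝ) * uF F k ^ (t + 1) * (1 - ((t + 1 : ℕ) : ℝ) ^ 2 / k) * (v + t)
        = ((F.choose k : ℝ) * uF F k ^ t) *
            (uF F k * (1 - ((t + 1 : ℕ) : ℝ) ^ 2 / k) * (v + t)) := by rw [pow_succ]; ring
      _ ≤ ((F.choose k : ℝ) * uF F k ^ t) * ((1 - (t : ℝ) ^ 2 / k) * ((k : ℝ) - t)) :=
          mul_le_mul_of_nonneg_left h2 (by positivity)
      _ = _ := by ring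

private theorem midc_S {ι : Type*} (x : ℝ) (hx : 0 ≤ x) (J : Finset ι) :
    (∑ 𝒞 ∈ J.powerset, x ^ (#𝒞) = (1 + x) ^ (#J)) ∧
    (∑ 𝒞 ∈ J.powerset, ((#𝒞 : ℕ) : ℝ) * x ^ (#𝒞) ≤ ((#J : ℕ) * x) * (1 + x) ^ (#J)) ∧
    (∑ 𝒞 ∈ J.powerset, ((#𝒞 : ℕ) : ℝ) ^ 2 * x ^ (#𝒞) ≤
      ((#J : ℕ) * x + ((#J : ℕ) * x) ^ 2) * (1 + x) ^ (#J)) := by
  classical
  induction J using Finset.induction_on with
  | empty => simp
  | insert a s ha ih =>
    obtain ⟨i0, i1, i2⟩ := ih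
    have hc : ∀ t ∈ s.powerset, #(insert a t) = #t + 1 := by
      intro t ht
      rw [Finset.mem_powerset] at ht
      exact Finset.card_insert_of_notMem (fun h => ha (ht h))
    rw [Finset.sum_powerset_insert ha, Finset.sum_powerset_insert ha,
      Finset.sum_powerset_insert ha, Finset.card_insert_of_notMem ha]
    have s0 : ∑ t ∈ s.powerset, x ^ #(insert a t) = x * ∑ t ∈ s.powerset, x ^ #t := by
      rw [Finset.mul_sum]
      refine Finset.sum_congr rfl (fun t ht => ?_)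
      rw [hc t ht]
      ring
    have s1 : ∑ t ∈ s.powerset, ((#(insert a t) : ℕ) : ℝ) * x ^ #(insert a t) =
        x * ∑ t ∈ s.powerset, ((#t : ℕ) : ℝ) * x ^ #t + x * ∑ t ∈ s.powerset, x ^ #t := by
      rw [Finset.mul_sum, Finset.mul_sum, ← Finset.sum_add_distrib]
      refine Finset.sum_congr rfl (fun t ht => ?_)
      rw [hc t ht]
      push_cast
      ring
    have s2 : ∑ t ∈ s.powerset, ((#(insert a t) : ℕ) : ℝ) ^ 2 * x ^ #(insert a t) =
        x * ∑ t ∈ s.powerset, ((#t : ℕ) : ℝ) ^ 2 * x ^ #t +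
          2 * x * ∑ t ∈ s.powerset, ((#t : ℕ) : ℝ) * x ^ #t + x * ∑ t ∈ s.powerset, x ^ #t := by
      rw [Finset.mul_sum, Finset.mul_sum, Finset.mul_sum, ← Finset.sum_add_distrib,
        ← Finset.sum_add_distrib]
      refine Finset.sum_congr rfl (fun t ht => ?_)
      rw [hc t ht]
      push_cast
      ring
    rw [s0, s1, s2, i0]
    obtain ⟨A, hA⟩ : ∃ A, A = ∑ t ∈ s.powerset, ((#t : ℕ) : ℝ) * x ^ #t := ⟨_, rfl⟩
    obtain ⟨B, hB⟩ : ∃ B, B = ∑ t ∈ s.powerset, ((#t : ℕ) : ℝ) ^ 2 * x ^ #t := ⟨_, rfl⟩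
    rw [← hA] at i1 ⊢
    rw [← hB] at i2 ⊢
    obtain ⟨m, hm⟩ : ∃ m : ℝ, m = ((#s : ℕ) : ℝ) := ⟨_, rfl⟩
    have hm0 : 0 ≤ m := by rw [hm]; exact Nat.cast_nonneg _
    obtain ⟨P, hP⟩ : ∃ P : ℝ, P = (1 + x) ^ #s := ⟨_, rfl⟩
    have hP0 : 0 ≤ P := by rw [hP]; positivity
    rw [← hm, ← hP] at i1 i2
    rw [pow_succ, ← hP]
    push_cast
    rw [← hm]
    refine ⟨by ring, ?_, ?_⟩
    · have h1 : (1 + x) * A ≤ (1 + x) * (m * x * P) := mul_le_mul_of_nonneg_left i1 (by linarith)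
      have h2 : 0 ≤ x * x * P := by positivity
      nlinarith
    · have h1 : (1 + x) * B ≤ (1 + x) * ((m * x + (m * x) ^ 2) * P) :=
        mul_le_mul_of_nonneg_left i2 (by linarith)
      have h2 : 2 * x * A ≤ 2 * x * (m * x * P) := mul_le_mul_of_nonneg_left i1 (by linarith)
      have h3 : 0 ≤ x * x * P := by positivity
      have h4 : 0 ≤ m * x * x * x * P := by positivity
      have h5 : 0 ≤ x * x * x * P := by positivity
      have h6 : ((m + 1) * x + ((m + 1) * x) ^ 2) * (P * (1 + x)) -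
          ((1 + x) * ((m * x + (m * x) ^ 2) * P) + 2 * x * (m * x * P) + x * P) =
          2 * (m * x * x * x * P) + (x * x * x * P) + 2 * (x * x * P) := by ring
      nlinarith

private theorem midc_pow {x : ℝ} (h0 : 0 ≤ x) (h1 : x ≤ 1 / 2) : Real.exp (-(2 * x)) ≤ 1 - x := by
  rw [Real.exp_neg]
  have h2 : 1 + 2 * x ≤ Real.exp (2 * x) := by
    have := Real.add_one_le_exp (2 * x)
    linarith
  have h3 : 0 < 1 - x := by linarith
  rw [inv_le_comm₀ (Real.exp_pos _) h3]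
  refine le_trans ?_ h2
  rw [inv_le_iff_one_le_mul₀ h3]
  nlinarith

theorem mid_pos {ι : Type*} (Z u : ℝ) (hZ : 0 ≤ Z) (k F : ℕ) (hk : 1 ≤ k) (hkF : k ≤ F)
    (hu : u = uF F k) (hu2 : u ^ 2 ≤ 1 / 2) (I : Finset ι) (c : ι → ℕ)
    (hc : ∀ i ∈ I, 2 ≤ c i) (hs : ((∑ i ∈ I, c i : ℕ) : ℝ) * u ^ 2 ≤ Z) (r : Multiset ℕ → ℝ)
    (hr0 : r 0 = 1) (hr1 : ∀ τ, |r τ| ≤ 1)
    (hr2 : ∀ l : ℕ, 2 * l ≤ k → |r (Multiset.replicate l 2) - r {2} ^ l| ≤ 4 * (l : ℝ) ^ 2 / k) :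
    (F.choose k : ℝ) * (Real.exp (-(2 * Z)) - 12 / k * (Z ^ 2 + Z) * Real.exp Z -
      2 * u * Z * Real.exp Z) ≤ SF I c F k r := by
  classical
  have hk0 : (0 : ℝ) < k := by exact_mod_cast hk
  have hkF' : (k : ℝ) ≤ F := by exact_mod_cast hkF
  have hv : (0 : ℝ) < (F : ℝ) - k + 1 := by linarith
  have hu0 : 0 ≤ u := by rw [hu]; unfold uF; positivity
  have hu1 : u ≤ 1 := by nlinarith
  have hu1' : uF F k ≤ 1 := by rw [← hu]; exact hu1
  obtain ⟨D, hD⟩ : ∃ D : ℝ, D = (F.choose k : ℝ) := ⟨_, rfl⟩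
  have hD0 : 0 ≤ D := by rw [hD]; exact Nat.cast_nonneg _
  have hbu : ∀ t, bF F k t ≤ D * u ^ t := by
    intro t
    rw [hD, hu]
    exact bF_le_pow F k t hkF
  set I2 := I.filter (fun i => c i = 2) with hI2
  set I3 := I.filter (fun i => ¬ c i = 2) with hI3
  obtain ⟨m, hm⟩ : ∃ m : ℕ, m = #I2 := ⟨_, rfl⟩
  -- sizes
  have hsum : (∑ i ∈ I, c i : ℕ) = ∑ i ∈ I2, c i + ∑ i ∈ I3, c i :=
    (Finset.sum_filter_add_sum_filter_not I (fun i => c i = 2) c).symm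
  have hs2 : ∑ i ∈ I2, c i = 2 * m := by
    rw [Finset.sum_congr rfl (fun i hi => (Finset.mem_filter.1 hi).2), Finset.sum_const, hm,
      smul_eq_mul, mul_comm]
  have hs3 : 3 * #I3 ≤ ∑ i ∈ I3, c i := by
    have : ∑ _i ∈ I3, 3 ≤ ∑ i ∈ I3, c i := by
      apply Finset.sum_le_sum
      intro i hi
      have h1 := Finset.mem_filter.1 hi
      have h2 := hc i h1.1
      have h3 := h1.2
      omega
    rw [Finset.sum_const, smul_eq_mul] at this
    omega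
  have hs' : ((2 * m + 3 * #I3 : ℕ) : ℝ) * u ^ 2 ≤ Z := by
    refine le_trans (mul_le_mul_of_nonneg_right ?_ (sq_nonneg u)) hs
    rw [hsum, hs2]
    exact_mod_cast Nat.add_le_add_left hs3 _
  push_cast at hs'
  have hm0 : (0 : ℝ) ≤ m := Nat.cast_nonneg _
  have h30 : (0 : ℝ) ≤ #I3 := Nat.cast_nonneg _
  have hu20 : 0 ≤ u ^ 2 := sq_nonneg u
  have hmu : (m : ℝ) * u ^ 2 + 3 / 2 * (#I3 * u ^ 2) ≤ Z / 2 := by linarith
  have hmu' : (m : ℝ) * u ^ 2 ≤ Z / 2 := by nlinarith [mul_nonneg h30 hu20]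
  -- the power sum
  have hps : ∀ J : Finset ι, ∑ 𝒞 ∈ J.powerset, u ^ (∑ i ∈ 𝒞, c i) = ∏ i ∈ J, (1 + u ^ c i) := by
    intro J
    rw [Finset.prod_one_add]
    refine Finset.sum_congr rfl (fun t _ => ?_)
    rw [Finset.prod_pow_eq_pow_sum]
  have hsub : I2.powerset ⊆ I.powerset := Finset.powerset_mono.2 (Finset.filter_subset _ _)
  -- (1) the subsets which are not inside `I2`
  have hP2 : ∏ i ∈ I2, (1 + u ^ c i) ≤ Real.exp (m * u ^ 2) := by
    have : ∏ i ∈ I2, (1 + u ^ c i) = (1 + u ^ 2) ^ m := by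
      rw [Finset.prod_congr rfl (fun i hi => by rw [(Finset.mem_filter.1 hi).2]),
        Finset.prod_const, hm]
    rw [this, Real.exp_nat_mul]
    refine pow_le_pow_left₀ (by positivity) ?_ _
    have := Real.add_one_le_exp (u ^ 2)
    linarith
  have hP2' : 0 ≤ ∏ i ∈ I2, (1 + u ^ c i) := Finset.prod_nonneg (fun i _ => by positivity)
  have hP3 : ∏ i ∈ I3, (1 + u ^ c i) - 1 ≤ (#I3 * u ^ 3) * Real.exp (#I3 * u ^ 3) := by
    have h1 : ∏ i ∈ I3, (1 + u ^ c i) ≤ Real.exp (#I3 * u ^ 3) := by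
      have h2 : ∏ i ∈ I3, (1 + u ^ c i) ≤ ∏ _i ∈ I3, Real.exp (u ^ 3) := by
        apply Finset.prod_le_prod
        · intro i _; positivity
        · intro i hi
          have h4 := Finset.mem_filter.1 hi
          have h5 := hc i h4.1
          have h6 := h4.2
          have h7 : u ^ c i ≤ u ^ 3 := pow_le_pow_of_le_one hu0 hu1 (by omega)
          have h8 := Real.add_one_le_exp (u ^ 3)
          linarith
      rw [Finset.prod_const, ← Real.exp_nat_mul] at h2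
      exact h2
    have h9 : Real.exp (#I3 * u ^ 3) - 1 ≤ (#I3 * u ^ 3) * Real.exp (#I3 * u ^ 3) := by
      have h10 := Real.add_one_le_exp (-((#I3 : ℝ) * u ^ 3))
      have h11 := Real.exp_pos ((#I3 : ℝ) * u ^ 3)
      have h12 : Real.exp ((#I3 : ℝ) * u ^ 3) * Real.exp (-((#I3 : ℝ) * u ^ 3)) = 1 := by
        rw [← Real.exp_add, add_neg_cancel, Real.exp_zero]
      nlinarith [mul_le_mul_of_nonneg_left h10 h11.le]
    linarith
  have hrest : |∑ 𝒞 ∈ I.powerset \ I2.powerset, bF F k (∑ i ∈ 𝒞, c i) * r (𝒞.val.map c)| ≤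
      D * (2 * u * Z * Real.exp Z) := by
    have h1 : |∑ 𝒞 ∈ I.powerset \ I2.powerset, bF F k (∑ i ∈ 𝒞, c i) * r (𝒞.val.map c)| ≤
        ∑ 𝒞 ∈ I.powerset \ I2.powerset, D * u ^ (∑ i ∈ 𝒞, c i) := by
      refine (Finset.abs_sum_le_sum_abs _ _).trans (Finset.sum_le_sum (fun 𝒞 _ => ?_))
      rw [abs_mul, abs_of_nonneg (bF_nonneg _ _ _)]
      have h2 := hbu (∑ i ∈ 𝒞, c i)
      have h3 := hr1 (𝒞.val.map c)
      have h4 := bF_nonneg F k (∑ i ∈ 𝒞, c i)
      have h5 := abs_nonneg (r (𝒞.val.map c))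
      nlinarith
    refine h1.trans ?_
    rw [← Finset.mul_sum]
    apply mul_le_mul_of_nonneg_left _ hD0
    have h2 := Finset.sum_sdiff (f := fun 𝒞 : Finset ι => u ^ (∑ i ∈ 𝒞, c i)) hsub
    rw [hps, hps] at h2
    have h3 : ∏ i ∈ I, (1 + u ^ c i) = (∏ i ∈ I2, (1 + u ^ c i)) * ∏ i ∈ I3, (1 + u ^ c i) :=
      (Finset.prod_filter_mul_prod_filter_not I (fun i => c i = 2) _).symm
    have h4 : ∑ 𝒞 ∈ I.powerset \ I2.powerset, u ^ (∑ i ∈ 𝒞, c i) =
        (∏ i ∈ I2, (1 + u ^ c i)) * (∏ i ∈ I3, (1 + u ^ c i) - 1) := by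
      rw [h3] at h2
      linarith
    rw [h4]
    have hy0 : 0 ≤ (#I3 : ℝ) * u ^ 3 := by positivity
    have h5 : (∏ i ∈ I2, (1 + u ^ c i)) * (∏ i ∈ I3, (1 + u ^ c i) - 1) ≤
        Real.exp (m * u ^ 2) * ((#I3 * u ^ 3) * Real.exp (#I3 * u ^ 3)) :=
      (mul_le_mul_of_nonneg_left hP3 hP2').trans
        (mul_le_mul_of_nonneg_right hP2 (by positivity))
    refine h5.trans ?_
    have h6 : (#I3 : ℝ) * u ^ 3 = u * (#I3 * u ^ 2) := by ring
    have h7 : (#I3 : ℝ) * u ^ 2 ≤ Z := by nlinarith [mul_nonneg h30 hu20, mul_nonneg hm0 hu20]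
    have h8 : (#I3 : ℝ) * u ^ 3 ≤ #I3 * u ^ 2 := by
      rw [h6]
      have := mul_nonneg h30 hu20
      nlinarith
    have h9 : Real.exp (m * u ^ 2) * Real.exp (#I3 * u ^ 3) ≤ Real.exp Z := by
      rw [← Real.exp_add]
      apply Real.exp_le_exp.2
      nlinarith [mul_nonneg h30 hu20, mul_nonneg hm0 hu20]
    have h10 : (#I3 : ℝ) * u ^ 3 ≤ 2 * u * Z := by
      rw [h6]
      nlinarith [mul_nonneg hu0 hZ, mul_le_mul_of_nonneg_left h7 hu0]
    calc Real.exp (m * u ^ 2) * ((#I3 * u ^ 3) * Real.exp (#I3 * u ^ 3))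
        = (#I3 * u ^ 3) * (Real.exp (m * u ^ 2) * Real.exp (#I3 * u ^ 3)) := by ring
      _ ≤ (2 * u * Z) * Real.exp Z :=
          mul_le_mul h10 h9 (by positivity) (by positivity)
  -- (2) the subsets of `I2`
  have hI2sum : |∑ 𝒞 ∈ I2.powerset, bF F k (∑ i ∈ 𝒞, c i) * r (𝒞.val.map c) -
      ∑ 𝒞 ∈ I2.powerset, D * (u ^ 2 * r {2}) ^ #𝒞| ≤ D * (12 / k * (Z ^ 2 + Z) * Real.exp Z) := by
    rw [← Finset.sum_sub_distrib]
    have h1 : ∀ 𝒞 ∈ I2.powerset, |bF F k (∑ i ∈ 𝒞, c i) * r (𝒞.val.map c) -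
        D * (u ^ 2 * r {2}) ^ #𝒞| ≤ D * (8 / k) * (((#𝒞 : ℕ) : ℝ) ^ 2 * (u ^ 2) ^ #𝒞) := by
      intro 𝒞 h𝒞
      rw [Finset.mem_powerset] at h𝒞
      obtain ⟨l, hl⟩ : ∃ l, l = #𝒞 := ⟨_, rfl⟩
      have e1 : ∑ i ∈ 𝒞, c i = 2 * l := by
        rw [Finset.sum_congr rfl (fun i hi => (Finset.mem_filter.1 (h𝒞 hi)).2), Finset.sum_const,
          hl, smul_eq_mul, mul_comm]
      have e2 : 𝒞.val.map c = Multiset.replicate l 2 := by
        rw [Multiset.eq_replicate]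
        refine ⟨by rw [Multiset.card_map, hl]; rfl, fun b hb => ?_⟩
        obtain ⟨i, hi, rfl⟩ := Multiset.mem_map.1 hb
        exact (Finset.mem_filter.1 (h𝒞 hi)).2
      rw [e1, e2, ← hl, mul_pow, ← pow_mul]
      have hρ : |r {2} ^ l| ≤ 1 := by
        rw [abs_pow]
        exact pow_le_one₀ (abs_nonneg _) (hr1 _)
      have hul : 0 ≤ u ^ (2 * l) := by positivity
      have hl0 : (0 : ℝ) ≤ l := Nat.cast_nonneg _
      by_cases hlk : 2 * l ≤ k
      · have b1 := hbu (2 * l)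
        have b2 := midc_bF hk hkF hu1' (2 * l) hlk
        rw [← hD, ← hu] at b2
        have b3 := hr2 l hlk
        have b4 := bF_nonneg F k (2 * l)
        have e3 : bF F k (2 * l) * r (Multiset.replicate l 2) - D * (u ^ (2 * l) * r {2} ^ l) =
            (bF F k (2 * l)) * (r (Multiset.replicate l 2) - r {2} ^ l) +
            (bF F k (2 * l) - D * u ^ (2 * l)) * r {2} ^ l := by ring
        rw [e3]
        refine (abs_add_le _ _).trans ?_
        rw [abs_mul, abs_mul, abs_of_nonneg b4]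
        have b5 : bF F k (2 * l) * |r (Multiset.replicate l 2) - r {2} ^ l| ≤
            (D * u ^ (2 * l)) * (4 * (l : ℝ) ^ 2 / k) :=
          mul_le_mul b1 b3 (abs_nonneg _) (by positivity)
        have b6 : |bF F k (2 * l) - D * u ^ (2 * l)| ≤ D * u ^ (2 * l) * (4 * (l : ℝ) ^ 2 / k) := by
          rw [abs_sub_comm, abs_of_nonneg (by linarith)]
          push_cast at b2
          have e4 : D * u ^ (2 * l) * (1 - (2 * (l : ℝ)) ^ 2 / k) =
            D * u ^ (2 * l) - D * u ^ (2 * l) * (4 * (l : ℝ) ^ 2 / k) := by ring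
          linarith
        have b7 : |bF F k (2 * l) - D * u ^ (2 * l)| * |r {2} ^ l| ≤
            D * u ^ (2 * l) * (4 * (l : ℝ) ^ 2 / k) := by
          have := abs_nonneg (bF F k (2 * l) - D * u ^ (2 * l))
          nlinarith [abs_nonneg (r {2} ^ l)]
        calc _ ≤ (D * u ^ (2 * l)) * (4 * (l : ℝ) ^ 2 / k) +
              D * u ^ (2 * l) * (4 * (l : ℝ) ^ 2 / k) := add_le_add b5 b7
          _ = _ := by ring
      · have e5 : bF F k (2 * l) = 0 := by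
          unfold bF
          rw [if_neg hlk]
        rw [e5, zero_mul, zero_sub, abs_neg, abs_mul, abs_mul, abs_of_nonneg hD0,
          abs_of_nonneg hul]
        have hlk' : (k : ℝ) < 2 * l := by exact_mod_cast Nat.lt_of_not_le hlk
        have hl1 : (1 : ℝ) ≤ l := by
          have : 1 ≤ l := by omega
          exact_mod_cast this
        have b8 : (1 : ℝ) ≤ 8 / k * (l : ℝ) ^ 2 := by
          rw [div_mul_eq_mul_div, le_div_iff₀ hk0]
          nlinarith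
        have b9 : 0 ≤ D * u ^ (2 * l) := by positivity
        have b10 : D * (u ^ (2 * l) * |r {2} ^ l|) ≤ D * u ^ (2 * l) := by
          rw [← mul_assoc]
          exact mul_le_of_le_one_right b9 hρ
        have b11 : D * u ^ (2 * l) ≤ (D * u ^ (2 * l)) * (8 / k * (l : ℝ) ^ 2) :=
          le_mul_of_one_le_right b9 b8
        calc _ ≤ _ := b10
          _ ≤ _ := b11
          _ = _ := by ring
    refine (Finset.abs_sum_le_sum_abs _ _).trans ((Finset.sum_le_sum h1).trans ?_)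
    rw [← Finset.mul_sum]
    have h2 := (midc_S (u ^ 2) hu20 I2).2.2
    rw [← hm] at h2
    have h3 : (1 + u ^ 2) ^ m ≤ Real.exp Z := by
      have h4 : (1 + u ^ 2) ^ m ≤ Real.exp (u ^ 2) ^ m := by
        refine pow_le_pow_left₀ (by positivity) ?_ _
        have := Real.add_one_le_exp (u ^ 2)
        linarith
      rw [← Real.exp_nat_mul] at h4
      refine h4.trans (Real.exp_le_exp.2 ?_)
      linarith
    have h5 : (m : ℝ) * u ^ 2 + (m * u ^ 2) ^ 2 ≤ Z ^ 2 + Z := by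
      have h6 : 0 ≤ (m : ℝ) * u ^ 2 := by positivity
      nlinarith
    have h7 : ((m : ℝ) * u ^ 2 + (m * u ^ 2) ^ 2) * (1 + u ^ 2) ^ m ≤ (Z ^ 2 + Z) * Real.exp Z :=
      mul_le_mul h5 h3 (by positivity) (by positivity)
    calc D * (8 / k) * ∑ 𝒞 ∈ I2.powerset, ((#𝒞 : ℕ) : ℝ) ^ 2 * (u ^ 2) ^ #𝒞
        ≤ D * (8 / k) * ((Z ^ 2 + Z) * Real.exp Z) :=
          mul_le_mul_of_nonneg_left (h2.trans h7) (by positivity)
      _ ≤ D * (12 / k) * ((Z ^ 2 + Z) * Real.exp Z) := by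
          apply mul_le_mul_of_nonneg_right _ (by positivity)
          apply mul_le_mul_of_nonneg_left _ hD0
          apply div_le_div_of_nonneg_right _ hk0.le
          norm_num
      _ = _ := by ring
  -- (3) the main term
  have hmain : D * Real.exp (-(2 * Z)) ≤ ∑ 𝒞 ∈ I2.powerset, D * (u ^ 2 * r {2}) ^ #𝒞 := by
    rw [← Finset.mul_sum]
    apply mul_le_mul_of_nonneg_left _ hD0
    have h1 : ∑ 𝒞 ∈ I2.powerset, (u ^ 2 * r {2}) ^ #𝒞 = (1 + u ^ 2 * r {2}) ^ m := by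
      have h2 : (1 + u ^ 2 * r {2}) ^ m = ∏ _i ∈ I2, (1 + u ^ 2 * r {2}) := by
        rw [Finset.prod_const, hm]
      rw [h2, Finset.prod_one_add]
      refine Finset.sum_congr rfl (fun t _ => ?_)
      rw [Finset.prod_const]
    rw [h1]
    have h3 := (abs_le.1 (hr1 {2})).1
    have h4 : 1 - u ^ 2 ≤ 1 + u ^ 2 * r {2} := by nlinarith
    have h5 : (1 - u ^ 2) ^ m ≤ (1 + u ^ 2 * r {2}) ^ m :=
      pow_le_pow_left₀ (by linarith) h4 _
    have h6 : Real.exp (-(2 * u ^ 2)) ^ m ≤ (1 - u ^ 2) ^ m :=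
      pow_le_pow_left₀ (Real.exp_pos _).le (midc_pow hu20 hu2) _
    rw [← Real.exp_nat_mul] at h6
    refine le_trans (Real.exp_le_exp.2 ?_) (h6.trans h5)
    nlinarith
  have htot : SF I c F k r =
      ∑ 𝒞 ∈ I.powerset \ I2.powerset, bF F k (∑ i ∈ 𝒞, c i) * r (𝒞.val.map c) +
      ∑ 𝒞 ∈ I2.powerset, bF F k (∑ i ∈ 𝒞, c i) * r (𝒞.val.map c) :=
    (Finset.sum_sdiff (f := fun 𝒞 : Finset ι => bF F k (∑ i ∈ 𝒞, c i) * r (𝒞.val.map c)) hsub).symm
  rw [htot, ← hD]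
  have a1 := (abs_le.1 hrest).1
  have a2 := (abs_le.1 hI2sum).1
  have a3 : D * (Real.exp (-(2 * Z)) - 12 / k * (Z ^ 2 + Z) * Real.exp Z -
      2 * u * Z * Real.exp Z) = D * Real.exp (-(2 * Z)) - D * (12 / k * (Z ^ 2 + Z) * Real.exp Z) -
      D * (2 * u * Z * Real.exp Z) := by ring
  rw [a3]
  linarith

end Pool.MP322
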