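import Pool.Agent.Lib.MP_322c5f_al.MidB
import Pool.Agent.Lib.MP_322c5f_al.MidC

/-! job SQ-59: the main estimate for middle depth. -/

set_option autoImplicit false

open Finset

namespace Pool.MP322

theorem mid_main (c' : ℝ) (hc' : 0 < c') : ∃ ε : ℝ, 0 < ε ∧ ε ≤ 1 / 20 ∧ ∃ n0 : ℕ,
    ∀ (ι : Type) (I : Finset ι) (c : ι → ℕ) (F k n : ℕ) (r : Multiset ℕ → ℝ), n0 ≤ n →
      (∀ i ∈ I, 2 ≤ c i) → F + ∑ i ∈ I, c i = n →
      c' * Real.sqrt n ≤ ((k + 1 : ℕ) : ℝ) → ((k + 1 : ℕ) : ℝ) ≤ ε * n →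
      r 0 = 1 → (∀ τ, |r τ| ≤ 1) →
      (∀ l : ℕ, 2 * l ≤ k + 1 →
        |r (Multiset.replicate l 2) - r {2} ^ l| ≤ 4 * (l : ℝ) ^ 2 / ((k + 1 : ℕ) : ℝ)) →
      -(SF I c F (k + 1) r - SF I c F k r) ≤
        (3 * Real.exp (-(9 * Real.sqrt ((∑ i ∈ I, c i : ℕ) : ℝ))) +
          4 * Real.exp (-(5 * Real.sqrt n))) *
            ((n.choose (k + 1) : ℝ) - (n.choose k : ℝ)) := by
  -- the constants
  obtain ⟨φ, hφ0, hφ1, hφ2⟩ : ∃ φ : ℝ, 0 < φ ∧ φ ≤ 1 / 3 ∧ 3 * φ ≤ Real.exp (-(5 / c')) := by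
    refine ⟨min (1 / 3) (Real.exp (-(5 / c')) / 3), ?_, min_le_left _ _, ?_⟩
    · have := Real.exp_pos (-(5 / c'))
      exact lt_min (by norm_num) (by positivity)
    · have := min_le_right (1 / 3 : ℝ) (Real.exp (-(5 / c')) / 3)
      linarith
  obtain ⟨Z, hZ⟩ : ∃ Z : ℝ, Z = 200 / φ ^ 2 := ⟨_, rfl⟩
  have hZ0 : 0 < Z := by rw [hZ]; positivity
  obtain ⟨ε, hε0, hε1, hε2⟩ : ∃ ε : ℝ, 0 < ε ∧ ε ≤ φ ^ 2 / 20 ∧
      ε ≤ φ * Real.exp (-(3 * Z)) / (4 * (2 * Z + 1)) := by
    refine ⟨min (φ ^ 2 / 20) (φ * Real.exp (-(3 * Z)) / (4 * (2 * Z + 1))), ?_,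
      min_le_left _ _, min_le_right _ _⟩
    have := Real.exp_pos (-(3 * Z))
    exact lt_min (by positivity) (by positivity)
  have hφsq : φ ^ 2 ≤ 1 / 9 := by nlinarith
  refine ⟨ε, hε0, by nlinarith, max 1 ⌈(24 * (Z ^ 2 + Z) * Real.exp (3 * Z) / c') ^ 2⌉₊, ?_⟩
  intro ι I c F k n r hn0 hc hn hK1 hK2 hr0 hr1 hr2
  have hn1 : 1 ≤ n := (le_max_left _ _).trans hn0
  have hnR : (0 : ℝ) < n := by exact_mod_cast hn1
  have hKpos : (0 : ℝ) < ((k + 1 : ℕ) : ℝ) := by positivity
  -- the difference of binomials is nonnegative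
  have h20 : 20 * (k + 1) ≤ n := by
    have h1 : 20 * ((k + 1 : ℕ) : ℝ) ≤ n := by nlinarith
    exact_mod_cast h1
  have hdiff : 0 ≤ (n.choose (k + 1) : ℝ) - (n.choose k : ℝ) := by
    have h1 := choose_pred_le n k h20
    have h2 : (0 : ℝ) ≤ (n.choose (k + 1) : ℝ) := Nat.cast_nonneg _
    linarith
  have hexp1 := Real.exp_pos (-(9 * Real.sqrt ((∑ i ∈ I, c i : ℕ) : ℝ)))
  have hexp2 := Real.exp_pos (-(5 * Real.sqrt n))
  have hLHS : -(SF I c F (k + 1) r - SF I c F k r) ≤ NF I c F (k + 1) + NF I c F k := by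
    have h1 := abs_SF_le I c F (k + 1) r hr1
    have h2 := abs_SF_le I c F k r hr1
    rw [abs_le] at h1 h2
    linarith [h1.1, h2.2]
  rcases lt_or_ge (F : ℝ) (φ * n) with hF | hF
  · -- few fixed points
    refine hLHS.trans ((mid_few φ hφ0 hφ1 ε hε0 hε1 I c hc F k n hn hF hK2).trans ?_)
    refine mul_le_mul_of_nonneg_right ?_ hdiff
    have h1 : (3 * φ) ^ (k + 1) ≤ Real.exp (-(5 * Real.sqrt n)) := by
      calc (3 * φ) ^ (k + 1) ≤ Real.exp (-(5 / c')) ^ (k + 1) :=
            pow_le_pow_left₀ (by positivity) hφ2 _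
        _ = Real.exp (((k + 1 : ℕ) : ℝ) * (-(5 / c'))) := (Real.exp_nat_mul _ _).symm
        _ ≤ Real.exp (-(5 * Real.sqrt n)) := by
            refine Real.exp_le_exp.2 ?_
            have h2 : 5 * Real.sqrt n ≤ ((k + 1 : ℕ) : ℝ) * (5 / c') := by
              rw [mul_div_assoc', le_div_iff₀ hc']
              linarith
            linarith
    linarith
  · rcases le_or_gt (10 * Real.sqrt ((∑ i ∈ I, c i : ℕ) : ℝ))
      (((∑ i ∈ I, c i : ℕ) : ℝ) * (k + 1 : ℕ) / n) with hx | hx
    · -- many fixed points, large support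
      refine hLHS.trans ((mid_many φ hφ0 hφ1 ε hε0 hε1 I c hc F k n hn hF hK2 (by omega)).trans ?_)
      refine mul_le_mul_of_nonneg_right ?_ hdiff
      have h1 : Real.exp (-(9 / 10 * (((∑ i ∈ I, c i : ℕ) : ℝ) * (k + 1 : ℕ) / n))) ≤
          Real.exp (-(9 * Real.sqrt ((∑ i ∈ I, c i : ℕ) : ℝ))) := by
        refine Real.exp_le_exp.2 ?_
        linarith
      linarith
    · -- many fixed points, small support
      have hpos : 0 ≤ SF I c F (k + 1) r - SF I c F k r := by
        set s : ℝ := ((∑ i ∈ I, c i : ℕ) : ℝ) with hs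
        set K : ℝ := ((k + 1 : ℕ) : ℝ) with hK
        have hs0 : 0 ≤ s := Nat.cast_nonneg _
        have hsq : Real.sqrt s * Real.sqrt s = s := Real.mul_self_sqrt hs0
        have hsp : 0 < Real.sqrt s := by
          rcases (Real.sqrt_nonneg s).eq_or_lt with h | h
          · exfalso
            have : s = 0 := by rw [← hsq, ← h]; ring
            rw [this] at hx
            simp at hx
          · exact h
        have h1 : Real.sqrt s * K < 10 * n := by
          rw [div_lt_iff₀ hnR] at hx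
          by_contra hcon
          push Not at hcon
          have : 10 * Real.sqrt s * n ≤ s * K := by
            calc 10 * Real.sqrt s * n = Real.sqrt s * (10 * n) := by ring
              _ ≤ Real.sqrt s * (Real.sqrt s * K) := mul_le_mul_of_nonneg_left hcon hsp.le
              _ = (Real.sqrt s * Real.sqrt s) * K := by ring
              _ = s * K := by rw [hsq]
          linarith
        have h2 : s * K ^ 2 ≤ 100 * (n : ℝ) ^ 2 := by
          have h3 : (Real.sqrt s * K) ^ 2 ≤ (10 * (n : ℝ)) ^ 2 :=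
            pow_le_pow_left₀ (by positivity) h1.le 2
          calc s * K ^ 2 = (Real.sqrt s * Real.sqrt s) * K ^ 2 := by rw [hsq]
            _ = (Real.sqrt s * K) ^ 2 := by ring
            _ ≤ (10 * (n : ℝ)) ^ 2 := h3
            _ = 100 * (n : ℝ) ^ 2 := by ring
        have hφn : 0 < φ * n := by positivity
        have hKφ : K ≤ φ / 60 * (φ * n) * 3 := by
          have : K ≤ φ ^ 2 / 20 * n := hK2.trans (mul_le_mul_of_nonneg_right hε1 hnR.le)
          calc K ≤ φ ^ 2 / 20 * n := this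
            _ = φ / 60 * (φ * n) * 3 := by ring
        have hKF' : K ≤ (F : ℝ) := by
          have : φ / 60 * (φ * n) * 3 ≤ φ * n := by nlinarith
          linarith
        have hkF : k + 1 ≤ F := by
          rw [hK] at hKF'
          exact_mod_cast hKF'
        have hden : 59 / 60 * (φ * n) ≤ (F : ℝ) - K + 1 := by
          have : φ / 60 * (φ * n) * 3 ≤ 1 / 60 * (φ * n) := by nlinarith
          linarith
        have hdp : 0 < (F : ℝ) - K + 1 := by
          have : 0 < 59 / 60 * (φ * n) := by positivity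
          linarith
        have hu : uF F (k + 1) = K / ((F : ℝ) - K + 1) := by rw [uF]
        set u : ℝ := uF F (k + 1) with hudef
        have hu0 : 0 < u := by rw [hu]; positivity
        have hu1 : u * (59 / 60 * (φ * n)) ≤ K := by
          rw [hu, div_mul_eq_mul_div, div_le_iff₀ hdp]
          exact mul_le_mul_of_nonneg_left hden hKpos.le
        -- `u ≤ 2 ε / φ`
        have hu2 : u * φ ≤ 2 * ε := by
          have h3 : u * (59 / 60 * (φ * n)) ≤ ε * n := hu1.trans hK2
          have h4 : u * φ * (59 / 60) ≤ ε := by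
            by_contra hcon
            push Not at hcon
            have : ε * n < u * φ * (59 / 60) * n := mul_lt_mul_of_pos_right hcon hnR
            linarith
          linarith
        have hu3 : u ≤ φ / 10 := by
          have h3 : u * φ ≤ φ / 10 * φ := by
            calc u * φ ≤ 2 * ε := hu2
              _ ≤ 2 * (φ ^ 2 / 20) := by linarith
              _ = φ / 10 * φ := by ring
          exact le_of_mul_le_mul_right h3 hφ0
        -- `s u² ≤ Z`
        have hsu : s * u ^ 2 ≤ Z := by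
          rw [hZ, le_div_iff₀ (by positivity)]
          have h3 : (u * (59 / 60 * (φ * n))) ^ 2 ≤ K ^ 2 :=
            pow_le_pow_left₀ (by positivity) hu1 2
          have h4 : s * (u * (59 / 60 * (φ * n))) ^ 2 ≤ 100 * (n : ℝ) ^ 2 :=
            (mul_le_mul_of_nonneg_left h3 hs0).trans h2
          have h5 : (s * u ^ 2 * φ ^ 2) * ((59 / 60) ^ 2 * (n : ℝ) ^ 2) ≤
              (200 * (59 / 60) ^ 2) * (n : ℝ) ^ 2 := by
            calc (s * u ^ 2 * φ ^ 2) * ((59 / 60) ^ 2 * (n : ℝ) ^ 2) =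
                s * (u * (59 / 60 * (φ * n))) ^ 2 := by ring
              _ ≤ 100 * (n : ℝ) ^ 2 := h4
              _ ≤ (200 * (59 / 60) ^ 2) * (n : ℝ) ^ 2 := by
                  have : (0 : ℝ) < (n : ℝ) ^ 2 := by positivity
                  nlinarith
          have h6 : (s * u ^ 2 * φ ^ 2) * ((59 / 60) ^ 2 * (n : ℝ) ^ 2) ≤
              200 * ((59 / 60) ^ 2 * (n : ℝ) ^ 2) := by linarith
          exact le_of_mul_le_mul_right h6 (by positivity)
        have hupos := mid_pos Z u hZ0.le (k + 1) F (by omega) hkF rfl (by nlinarith) I c hc hsu r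
          hr0 hr1 hr2
        -- the bound for `SF k`
        have hSk : |SF I c F k r| ≤ u * ((F.choose (k + 1) : ℝ) * Real.exp Z) := by
          refine (abs_SF_le I c F k r hr1).trans ((NF_pred_le I c F k hkF).trans ?_)
          refine mul_le_mul_of_nonneg_left ?_ hu0.le
          refine (NF_le I c hc F (k + 1) hkF (by linarith)).trans ?_
          refine mul_le_mul_of_nonneg_left (Real.exp_le_exp.2 ?_) (Nat.cast_nonneg _)
          have : uF F (k + 1) ^ 2 * s = s * u ^ 2 := by rw [mul_comm]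
          rw [this]
          linarith
        -- the first error term
        have hE := Real.exp_pos Z
        have hE2 := Real.exp_pos (-(2 * Z))
        have e3 : Real.exp (3 * Z) * Real.exp (-(2 * Z)) = Real.exp Z := by
          rw [← Real.exp_add]; congr 1; ring
        have e4 : Real.exp (-(3 * Z)) * Real.exp Z = Real.exp (-(2 * Z)) := by
          rw [← Real.exp_add]; congr 1; ring
        have hK24 : 24 * (Z ^ 2 + Z) * Real.exp (3 * Z) ≤ K := by
          have h3 : (24 * (Z ^ 2 + Z) * Real.exp (3 * Z) / c') ^ 2 ≤ n := by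
            refine (Nat.le_ceil _).trans ?_
            exact_mod_cast (le_max_right _ _).trans hn0
          have h4 : 24 * (Z ^ 2 + Z) * Real.exp (3 * Z) / c' ≤ Real.sqrt n :=
            Real.le_sqrt_of_sq_le h3
          rw [div_le_iff₀ hc'] at h4
          linarith
        have t1 : 12 / K * (Z ^ 2 + Z) * Real.exp Z ≤ Real.exp (-(2 * Z)) / 2 := by
          have h3 : 12 / K * (Z ^ 2 + Z) * Real.exp Z = 12 * (Z ^ 2 + Z) * Real.exp Z / K := by ring
          rw [h3, div_le_iff₀ hKpos]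
          calc 12 * (Z ^ 2 + Z) * Real.exp Z =
              12 * (Z ^ 2 + Z) * (Real.exp (3 * Z) * Real.exp (-(2 * Z))) := by rw [e3]
            _ = Real.exp (-(2 * Z)) / 2 * (24 * (Z ^ 2 + Z) * Real.exp (3 * Z)) := by ring
            _ ≤ Real.exp (-(2 * Z)) / 2 * K := mul_le_mul_of_nonneg_left hK24 (by positivity)
        have t2 : (2 * Z + 1) * u * Real.exp Z ≤ Real.exp (-(2 * Z)) / 2 := by
          have h3 : ε * (4 * (2 * Z + 1)) ≤ φ * Real.exp (-(3 * Z)) := by
            rwa [le_div_iff₀ (by positivity)] at hε2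
          have h4 : u * φ * (2 * (2 * Z + 1)) ≤ φ * Real.exp (-(3 * Z)) := by
            calc u * φ * (2 * (2 * Z + 1)) ≤ 2 * ε * (2 * (2 * Z + 1)) :=
                  mul_le_mul_of_nonneg_right hu2 (by positivity)
              _ = ε * (4 * (2 * Z + 1)) := by ring
              _ ≤ φ * Real.exp (-(3 * Z)) := h3
          have h5 : u * (2 * (2 * Z + 1)) ≤ Real.exp (-(3 * Z)) := by
            have h6 : (u * (2 * (2 * Z + 1))) * φ ≤ Real.exp (-(3 * Z)) * φ := by linarith
            exact le_of_mul_le_mul_right h6 hφ0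
          calc (2 * Z + 1) * u * Real.exp Z = (u * (2 * (2 * Z + 1))) * Real.exp Z / 2 := by ring
            _ ≤ Real.exp (-(3 * Z)) * Real.exp Z / 2 := by gcongr
            _ = Real.exp (-(2 * Z)) / 2 := by rw [e4]
        have hD : (0 : ℝ) ≤ (F.choose (k + 1) : ℝ) := Nat.cast_nonneg _
        rw [abs_le] at hSk
        have hfin : 0 ≤ (F.choose (k + 1) : ℝ) *
            (Real.exp (-(2 * Z)) - 12 / K * (Z ^ 2 + Z) * Real.exp Z -
              (2 * Z + 1) * u * Real.exp Z) := mul_nonneg hD (by linarith)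
        have hfin2 : (F.choose (k + 1) : ℝ) *
            (Real.exp (-(2 * Z)) - 12 / K * (Z ^ 2 + Z) * Real.exp Z -
              (2 * Z + 1) * u * Real.exp Z) =
            (F.choose (k + 1) : ℝ) * (Real.exp (-(2 * Z)) - 12 / K * (Z ^ 2 + Z) * Real.exp Z -
              2 * u * Z * Real.exp Z) - u * ((F.choose (k + 1) : ℝ) * Real.exp Z) := by ring
        rw [hfin2] at hfin
        linarith [hSk.2]
      have h3 : 0 ≤ (3 * Real.exp (-(9 * Real.sqrt ((∑ i ∈ I, c i : ℕ) : ℝ))) +
          4 * Real.exp (-(5 * Real.sqrt n))) *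
            ((n.choose (k + 1) : ℝ) - (n.choose k : ℝ)) := mul_nonneg (by positivity) hdiff
      linarith

end Pool.MP322
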