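import Pool.Agent.Lib.MP_322c5f_al.MidDefs

/-! job SQ-56: elementary estimates for binomials and numbers of invariant sets. -/

set_option autoImplicit false

open Finset

namespace Pool.MP322

theorem bF_nonneg (F k t : ℕ) : 0 ≤ bF F k t := by
  unfold bF
  split_ifs <;> positivity

theorem abs_SF_le {ι : Type*} (I : Finset ι) (c : ι → ℕ) (F k : ℕ) (r : Multiset ℕ → ℝ)
    (hr : ∀ τ, |r τ| ≤ 1) : |SF I c F k r| ≤ NF I c F k := by
  unfold SF NF
  refine (Finset.abs_sum_le_sum_abs _ _).trans (Finset.sum_le_sum fun 𝒞 _ => ?_)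
  rw [abs_mul, abs_of_nonneg (bF_nonneg _ _ _)]
  exact mul_le_of_le_one_right (bF_nonneg _ _ _) (hr _)

theorem prod_cycles_le {ι : Type*} (I : Finset ι) (c : ι → ℕ) (hc : ∀ i ∈ I, 2 ≤ c i) (z : ℝ)
    (h0 : 0 ≤ z) (h1 : z ≤ 1) :
    ∏ i ∈ I, (1 + z ^ c i) ≤ Real.exp (z ^ 2 * ((∑ i ∈ I, c i : ℕ) : ℝ) / 2) := by
  have h : z ^ 2 * ((∑ i ∈ I, c i : ℕ) : ℝ) / 2 = ∑ i ∈ I, z ^ 2 * (c i : ℝ) / 2 := by
    rw [← Finset.sum_div, ← Finset.mul_sum]
    push_cast
    rfl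
  rw [h, Real.exp_sum]
  refine Finset.prod_le_prod (fun i _ => by positivity) fun i hi => ?_
  have h2 : z ^ c i ≤ z ^ 2 := pow_le_pow_of_le_one h0 h1 (hc i hi)
  have h3 : (2 : ℝ) ≤ c i := by exact_mod_cast hc i hi
  have h4 : z ^ 2 ≤ z ^ 2 * (c i : ℝ) / 2 := by
    have : 0 ≤ z ^ 2 := by positivity
    nlinarith
  calc 1 + z ^ c i ≤ z ^ 2 * (c i : ℝ) / 2 + 1 := by linarith
    _ ≤ _ := Real.add_one_le_exp _

private theorem MidA_choose_mul_pow_le (F j : ℕ) (z : ℝ) (h0 : 0 ≤ z) :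
    (F.choose j : ℝ) * z ^ j ≤ (1 + z) ^ F := by
  rcases Nat.lt_or_ge F j with h | h
  · rw [Nat.choose_eq_zero_of_lt h]
    have : 0 ≤ (1 + z) ^ F := by positivity
    simpa using this
  · rw [add_comm 1 z, add_pow]
    have h2 : z ^ j * 1 ^ (F - j) * ((F.choose j : ℕ) : ℝ) ≤
        ∑ m ∈ Finset.range (F + 1), z ^ m * 1 ^ (F - m) * ((F.choose m : ℕ) : ℝ) :=
      Finset.single_le_sum (f := fun m => z ^ m * 1 ^ (F - m) * ((F.choose m : ℕ) : ℝ))
        (fun m _ => by positivity) (Finset.mem_range.2 (by omega))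
    calc (F.choose j : ℝ) * z ^ j = z ^ j * 1 ^ (F - j) * ((F.choose j : ℕ) : ℝ) := by
          rw [one_pow]; ring
      _ ≤ _ := h2

private theorem MidA_sum_pow {ι : Type*} (I : Finset ι) (c : ι → ℕ) (z : ℝ) :
    ∑ 𝒞 ∈ I.powerset, z ^ (∑ i ∈ 𝒞, c i) = ∏ i ∈ I, (1 + z ^ c i) := by
  rw [Finset.prod_one_add]
  refine Finset.sum_congr rfl fun 𝒞 _ => ?_
  rw [Finset.prod_pow_eq_pow_sum]

theorem NF_mul_pow_le {ι : Type*} (I : Finset ι) (c : ι → ℕ) (hc : ∀ i ∈ I, 2 ≤ c i) (F k : ℕ)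
    (z : ℝ) (h0 : 0 ≤ z) (h1 : z ≤ 1) :
    NF I c F k * z ^ k ≤
      Real.exp (z * F + z ^ 2 * ((∑ i ∈ I, c i : ℕ) : ℝ) / 2) := by
  have hA : NF I c F k * z ^ k ≤ ∑ 𝒞 ∈ I.powerset, (1 + z) ^ F * z ^ (∑ i ∈ 𝒞, c i) := by
    unfold NF
    rw [Finset.sum_mul]
    refine Finset.sum_le_sum fun 𝒞 _ => ?_
    unfold bF
    split_ifs with ht
    · have h2 : z ^ k = z ^ (k - ∑ i ∈ 𝒞, c i) * z ^ (∑ i ∈ 𝒞, c i) := by
        rw [← pow_add]
        congr 1
        omega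
      rw [h2, ← mul_assoc]
      exact mul_le_mul_of_nonneg_right (MidA_choose_mul_pow_le F _ z h0) (by positivity)
    · rw [zero_mul]
      positivity
  rw [← Finset.mul_sum, MidA_sum_pow] at hA
  have hB : (1 + z) ^ F ≤ Real.exp (z * F) := by
    have h3 : 1 + z ≤ Real.exp z := by
      have := Real.add_one_le_exp z
      linarith
    calc (1 + z) ^ F ≤ (Real.exp z) ^ F := pow_le_pow_left₀ (by linarith) h3 F
      _ = Real.exp (z * F) := by rw [← Real.exp_nat_mul, mul_comm]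
  rw [Real.exp_add]
  refine hA.trans ?_
  exact mul_le_mul hB (prod_cycles_le I c hc z h0 h1)
    (Finset.prod_nonneg fun i _ => by positivity) (Real.exp_pos _).le

private theorem MidA_uF_nonneg {F k : ℕ} (hk : k ≤ F) : 0 ≤ uF F k := by
  unfold uF
  have : (k : ℝ) ≤ F := by exact_mod_cast hk
  exact div_nonneg (Nat.cast_nonneg k) (by linarith)

private theorem MidA_step {F k i : ℕ} (hk : k ≤ F) (hi : i + 1 ≤ k) :
    (F.choose i : ℝ) ≤ uF F k * (F.choose (i + 1) : ℝ) := by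
  have hkF : (k : ℝ) ≤ F := by exact_mod_cast hk
  have hik : (i : ℝ) + 1 ≤ k := by exact_mod_cast hi
  have h1 : (F.choose (i + 1) : ℝ) * ((i : ℝ) + 1) = (F.choose i : ℝ) * ((F : ℝ) - i) := by
    have := Nat.choose_succ_right_eq F i
    have h2 : ((F.choose (i + 1) * (i + 1) : ℕ) : ℝ) = ((F.choose i * (F - i) : ℕ) : ℝ) := by
      exact_mod_cast this
    rw [Nat.cast_mul, Nat.cast_mul, Nat.cast_sub (by omega)] at h2
    push_cast at h2
    exact h2
  unfold uF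
  have hpos : 0 < (F : ℝ) - k + 1 := by linarith
  rw [div_mul_eq_mul_div, le_div_iff₀ hpos]
  have hc0 : (0 : ℝ) ≤ F.choose i := Nat.cast_nonneg _
  have hc1 : (0 : ℝ) ≤ F.choose (i + 1) := Nat.cast_nonneg _
  calc (F.choose i : ℝ) * ((F : ℝ) - k + 1) ≤ (F.choose i : ℝ) * ((F : ℝ) - i) :=
        mul_le_mul_of_nonneg_left (by linarith) hc0
    _ = (F.choose (i + 1) : ℝ) * ((i : ℝ) + 1) := h1.symm
    _ ≤ (F.choose (i + 1) : ℝ) * k := mul_le_mul_of_nonneg_left hik hc1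
    _ = k * (F.choose (i + 1) : ℝ) := mul_comm _ _

theorem bF_le_pow (F k t : ℕ) (hk : k ≤ F) : bF F k t ≤ (F.choose k : ℝ) * uF F k ^ t := by
  have hu := MidA_uF_nonneg hk
  unfold bF
  split_ifs with ht
  · induction t with
    | zero => simp
    | succ t ih =>
      have h1 := ih (by omega)
      have h2 := MidA_step (F := F) (k := k) (i := k - (t + 1)) hk (by omega)
      rw [show k - (t + 1) + 1 = k - t by omega] at h2
      calc ((F.choose (k - (t + 1)) : ℕ) : ℝ) ≤ uF F k * ((F.choose (k - t) : ℕ) : ℝ) := h2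
        _ ≤ uF F k * ((F.choose k : ℝ) * uF F k ^ t) := mul_le_mul_of_nonneg_left h1 hu
        _ = (F.choose k : ℝ) * uF F k ^ (t + 1) := by ring
  · positivity

theorem bF_pred_le (F k t : ℕ) (hk : k + 1 ≤ F) : bF F k t ≤ uF F (k + 1) * bF F (k + 1) t := by
  have hu := MidA_uF_nonneg hk
  rcases Nat.lt_or_ge k t with h | h
  · have h1 : bF F k t = 0 := by
      unfold bF
      rw [if_neg (by omega)]
    rw [h1]
    exact mul_nonneg hu (bF_nonneg _ _ _)
  · unfold bF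
    rw [if_pos h, if_pos (by omega)]
    have h2 := MidA_step (F := F) (k := k + 1) (i := k - t) hk (by omega)
    rw [show k - t + 1 = k + 1 - t by omega] at h2
    exact h2

theorem NF_le {ι : Type*} (I : Finset ι) (c : ι → ℕ) (hc : ∀ i ∈ I, 2 ≤ c i) (F k : ℕ)
    (hk : k ≤ F) (hu : uF F k ≤ 1) :
    NF I c F k ≤ (F.choose k : ℝ) *
      Real.exp (uF F k ^ 2 * ((∑ i ∈ I, c i : ℕ) : ℝ) / 2) := by
  have h1 : NF I c F k ≤ ∑ 𝒞 ∈ I.powerset, (F.choose k : ℝ) * uF F k ^ (∑ i ∈ 𝒞, c i) :=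
    Finset.sum_le_sum fun 𝒞 _ => bF_le_pow F k _ hk
  rw [← Finset.mul_sum, MidA_sum_pow] at h1
  exact h1.trans (mul_le_mul_of_nonneg_left (prod_cycles_le I c hc _ (MidA_uF_nonneg hk) hu)
    (Nat.cast_nonneg _))

theorem NF_pred_le {ι : Type*} (I : Finset ι) (c : ι → ℕ) (F k : ℕ) (hk : k + 1 ≤ F) :
    NF I c F k ≤ uF F (k + 1) * NF I c F (k + 1) := by
  unfold NF
  rw [Finset.mul_sum]
  exact Finset.sum_le_sum fun 𝒞 _ => bF_pred_le F k _ hk

private theorem MidA_choose_succ {F k : ℕ} (hk : k ≤ F) :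
    (F.choose (k + 1) : ℝ) * ((k : ℝ) + 1) = (F.choose k : ℝ) * ((F : ℝ) - k) := by
  have := Nat.choose_succ_right_eq F k
  have h2 : ((F.choose (k + 1) * (k + 1) : ℕ) : ℝ) = ((F.choose k * (F - k) : ℕ) : ℝ) := by
    exact_mod_cast this
  rw [Nat.cast_mul, Nat.cast_mul, Nat.cast_sub hk] at h2
  push_cast at h2
  exact h2

theorem choose_le_exp (F s k : ℕ) (hk : k ≤ F) (hn : 0 < F + s) :
    (F.choose k : ℝ) ≤ Real.exp (-((s : ℝ) * k / ((F : ℝ) + s))) * ((F + s).choose k : ℝ) := by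
  have hn' : (0 : ℝ) < (F : ℝ) + s := by exact_mod_cast hn
  induction k with
  | zero => simp
  | succ k ih =>
    have ih := ih (by omega)
    have hkF : (k : ℝ) + 1 ≤ F := by exact_mod_cast hk
    have h1 := MidA_choose_succ (F := F) (k := k) (by omega)
    have h2 := MidA_choose_succ (F := F + s) (k := k) (by omega)
    have hs0 : (0 : ℝ) ≤ s := Nat.cast_nonneg s
    have hk0 : (0 : ℝ) ≤ k := Nat.cast_nonneg k
    push_cast at h2
    have h3 : (F : ℝ) - k ≤ Real.exp (-(s / ((F : ℝ) + s))) * ((F : ℝ) + s - k) := by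
      have h4 : 1 - s / ((F : ℝ) + s) ≤ Real.exp (-(s / ((F : ℝ) + s))) := by
        have := Real.add_one_le_exp (-(s / ((F : ℝ) + s)))
        linarith
      have h5 : (F : ℝ) - k ≤ (1 - s / ((F : ℝ) + s)) * ((F : ℝ) + s - k) := by
        have h6 : 1 - s / ((F : ℝ) + s) = F / ((F : ℝ) + s) := by
          field_simp
          ring
        rw [h6, div_mul_eq_mul_div, le_div_iff₀ hn']
        nlinarith
      exact h5.trans (mul_le_mul_of_nonneg_right h4 (by linarith))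
    have h7 : Real.exp (-((s : ℝ) * ((k + 1 : ℕ) : ℝ) / ((F : ℝ) + s))) =
        Real.exp (-((s : ℝ) * k / ((F : ℝ) + s))) * Real.exp (-(s / ((F : ℝ) + s))) := by
      rw [← Real.exp_add]
      congr 1
      push_cast
      field_simp
      ring
    rw [h7]
    have hk1 : (0 : ℝ) < (k : ℝ) + 1 := by linarith
    rw [← mul_le_mul_iff_left₀ hk1, h1]
    have h8 : Real.exp (-((s : ℝ) * k / ((F : ℝ) + s))) * Real.exp (-(s / ((F : ℝ) + s))) *
        ((F + s).choose (k + 1) : ℝ) * ((k : ℝ) + 1) =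
        (Real.exp (-((s : ℝ) * k / ((F : ℝ) + s))) * ((F + s).choose k : ℝ)) *
          (Real.exp (-(s / ((F : ℝ) + s))) * ((F : ℝ) + s - k)) := by
      rw [mul_assoc _ ((F + s).choose (k + 1) : ℝ), h2]
      ring
    rw [h8]
    exact mul_le_mul ih h3 (by linarith) (by positivity)

theorem pow_le_choose' (n k : ℕ) (h1 : 1 ≤ k) (h2 : k ≤ n) :
    ((n : ℝ) / k) ^ k ≤ (n.choose k : ℝ) := by
  induction k, h1 using Nat.le_induction generalizing n with
  | base => simp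
  | succ k hk ih =>
    obtain ⟨m, rfl⟩ : ∃ m, n = m + 1 := ⟨n - 1, by omega⟩
    have h3 : k ≤ m := by omega
    have ih' := ih m h3
    have hk0 : (0 : ℝ) < k := by exact_mod_cast hk
    have hkm : (k : ℝ) ≤ m := by exact_mod_cast h3
    have h4 : ((m + 1).choose (k + 1) : ℝ) = ((m : ℝ) + 1) / (k + 1) * (m.choose k : ℝ) := by
      have h5 := Nat.add_one_mul_choose_eq m k
      have h6 : (((m + 1) * m.choose k : ℕ) : ℝ) = (((m + 1).choose (k + 1) * (k + 1) : ℕ) : ℝ) := by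
        exact_mod_cast h5
      push_cast at h6
      rw [div_mul_eq_mul_div, eq_div_iff (by positivity)]
      linarith
    rw [h4]
    have h7 : (((m + 1 : ℕ) : ℝ) / ((k + 1 : ℕ) : ℝ)) ^ (k + 1) =
        ((m : ℝ) + 1) / (k + 1) * (((m : ℝ) + 1) / (k + 1)) ^ k := by
      push_cast
      ring
    rw [h7]
    refine mul_le_mul_of_nonneg_left ?_ (by positivity)
    refine le_trans ?_ ih'
    refine pow_le_pow_left₀ (by positivity) ?_ k
    rw [div_le_div_iff₀ (by positivity) hk0]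
    nlinarith

/-- `C(n,k-1)` is much smaller than `C(n,k)`. -/
theorem choose_pred_le (n k : ℕ) (h : 20 * (k + 1) ≤ n) :
    (n.choose k : ℝ) ≤ (1 / 19) * (n.choose (k + 1) : ℝ) := by
  have h1 := MidA_choose_succ (F := n) (k := k) (by omega)
  have h2 : (20 : ℝ) * (k + 1) ≤ n := by exact_mod_cast h
  have h3 : (19 : ℝ) * (k + 1) ≤ (n : ℝ) - k := by linarith
  have h4 : (n.choose k : ℝ) * ((19 : ℝ) * (k + 1)) ≤ (n.choose (k + 1) : ℝ) * ((k : ℝ) + 1) := by
    rw [h1]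
    exact mul_le_mul_of_nonneg_left h3 (Nat.cast_nonneg _)
  have h5 : (0 : ℝ) < (k : ℝ) + 1 := by positivity
  have h6 : (n.choose k : ℝ) * 19 ≤ (n.choose (k + 1) : ℝ) := by
    have : ((n.choose k : ℝ) * 19) * ((k : ℝ) + 1) ≤ (n.choose (k + 1) : ℝ) * ((k : ℝ) + 1) := by
      linarith
    exact le_of_mul_le_mul_right this h5
  linarith

end Pool.MP322
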