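import Pool.Agent.Lib.MP_322c5f_al.MidA

/-! job SQ-57: upper bounds for the number of invariant sets. -/

set_option autoImplicit false

open Finset

namespace Pool.MP322

theorem NF_nonneg' {ι : Type*} (I : Finset ι) (c : ι → ℕ) (F k : ℕ) : 0 ≤ NF I c F k := by
  unfold NF
  exact Finset.sum_nonneg (fun _ _ => bF_nonneg _ _ _)

/-- few fixed points. -/
theorem mid_few {ι : Type*} (φ : ℝ) (h0 : 0 < φ) (h1 : φ ≤ 1 / 3) (ε : ℝ) (hε0 : 0 < ε)
    (hε : ε ≤ φ ^ 2 / 20) (I : Finset ι) (c : ι → ℕ) (hc : ∀ i ∈ I, 2 ≤ c i) (F k n : ℕ)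
    (hn : F + ∑ i ∈ I, c i = n) (hF : (F : ℝ) < φ * n) (hk : ((k + 1 : ℕ) : ℝ) ≤ ε * n) :
    NF I c F (k + 1) + NF I c F k ≤
      4 * (3 * φ) ^ (k + 1) * ((n.choose (k + 1) : ℝ) - (n.choose k : ℝ)) := by
  have hnpos : (0 : ℝ) < n := by
    have h2 : (0 : ℝ) ≤ (F : ℝ) := Nat.cast_nonneg _
    have h3 : 0 < φ * n := lt_of_le_of_lt h2 hF
    exact (mul_pos_iff_of_pos_left h0).mp h3
  set K : ℝ := ((k + 1 : ℕ) : ℝ) with hK
  have hKpos : 0 < K := by rw [hK]; positivity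
  have hφn : 0 < φ * n := by positivity
  have hε1 : ε ≤ 1 / 180 := by nlinarith
  have hK180 : K ≤ n / 180 := by nlinarith
  have h20 : 20 * (k + 1) ≤ n := by
    have : (20 : ℝ) * K ≤ n := by linarith
    rw [hK] at this
    exact_mod_cast this
  set z : ℝ := K / (φ * n) with hz
  have hzpos : 0 < z := by positivity
  have hz1 : z ≤ 1 := by
    rw [hz, div_le_one hφn]
    have : ε ≤ φ := by nlinarith
    nlinarith
  have hs : ((∑ i ∈ I, c i : ℕ) : ℝ) ≤ n := by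
    have : ∑ i ∈ I, c i ≤ n := by omega
    exact_mod_cast this
  have hexp : z * F + z ^ 2 * ((∑ i ∈ I, c i : ℕ) : ℝ) / 2 ≤ 1.025 * K := by
    have e1 : z * F ≤ K := by
      calc z * F ≤ z * (φ * n) := mul_le_mul_of_nonneg_left hF.le hzpos.le
        _ = K := by rw [hz]; field_simp
    have e2 : z ^ 2 * ((∑ i ∈ I, c i : ℕ) : ℝ) / 2 ≤ K / 40 := by
      have e3 : z ^ 2 * ((∑ i ∈ I, c i : ℕ) : ℝ) ≤ z ^ 2 * n :=
        mul_le_mul_of_nonneg_left hs (by positivity)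
      have e4 : z ^ 2 * n = K * (K / (φ ^ 2 * n)) := by
        rw [hz]; field_simp
      have e5 : K / (φ ^ 2 * n) ≤ 1 / 20 := by
        rw [div_le_div_iff₀ (by positivity) (by norm_num)]
        nlinarith
      nlinarith
    linarith
  have hE : Real.exp (1.025 * K) ≤ 3 ^ (k + 1) := by
    have e1 : Real.exp (1.025 * K) = (Real.exp 1.025) ^ (k + 1) := by
      rw [← Real.exp_nat_mul, hK]
      ring_nf
    rw [e1]
    apply pow_le_pow_left₀ (Real.exp_pos _).le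
    have e2 : Real.exp 1.025 = Real.exp 1 * Real.exp 0.025 := by
      rw [← Real.exp_add]; norm_num
    have e3 : Real.exp 0.025 ≤ 1.026 := by
      have := Real.exp_bound' (x := 0.025) (by norm_num) (by norm_num) (n := 2) (by norm_num)
      refine this.trans ?_
      norm_num [Finset.sum_range_succ, Nat.factorial]
    have e4 := Real.exp_one_lt_d9
    rw [e2]
    nlinarith [Real.exp_pos 1, Real.exp_pos (0.025 : ℝ)]
  have hC : (3 * φ) ^ (k + 1) * ((n : ℝ) / K) ^ (k + 1) ≤ (3 * φ) ^ (k + 1) * (n.choose (k + 1) : ℝ) := by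
    apply mul_le_mul_of_nonneg_left _ (by positivity)
    have := pow_le_choose' n (k + 1) (by omega) (by omega)
    rw [hK]
    exact this
  have hzz : (3 : ℝ) ^ (k + 1) / z ^ (k + 1) = (3 * φ) ^ (k + 1) * ((n : ℝ) / K) ^ (k + 1) := by
    rw [← div_pow, ← mul_pow]
    congr 1
    rw [hz]
    field_simp
  have hA : NF I c F (k + 1) ≤ (3 * φ) ^ (k + 1) * (n.choose (k + 1) : ℝ) := by
    have e1 := NF_mul_pow_le I c hc F (k + 1) z hzpos.le hz1
    have e2 : NF I c F (k + 1) * z ^ (k + 1) ≤ 3 ^ (k + 1) :=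
      e1.trans ((Real.exp_le_exp.mpr hexp).trans hE)
    have e3 : NF I c F (k + 1) ≤ 3 ^ (k + 1) / z ^ (k + 1) := by
      rw [le_div_iff₀ (by positivity)]
      exact e2
    rw [hzz] at e3
    exact e3.trans hC
  have hB : NF I c F k ≤ (3 * φ) ^ (k + 1) * (n.choose (k + 1) : ℝ) := by
    have e1 := NF_mul_pow_le I c hc F k z hzpos.le hz1
    have e2 : NF I c F k * z ^ k ≤ 3 ^ (k + 1) :=
      e1.trans ((Real.exp_le_exp.mpr hexp).trans hE)
    have e4 : NF I c F k * z ^ (k + 1) ≤ 3 ^ (k + 1) := by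
      refine le_trans ?_ e2
      rw [pow_succ]
      have : 0 ≤ NF I c F k * z ^ k := mul_nonneg (NF_nonneg' I c F k) (by positivity)
      nlinarith
    have e3 : NF I c F k ≤ 3 ^ (k + 1) / z ^ (k + 1) := by
      rw [le_div_iff₀ (by positivity)]
      exact e4
    rw [hzz] at e3
    exact e3.trans hC
  have hch := choose_pred_le n k h20
  have hc0 : (0 : ℝ) ≤ (n.choose (k + 1) : ℝ) := Nat.cast_nonneg _
  have hfin : (n.choose (k + 1) : ℝ) ≤ 2 * ((n.choose (k + 1) : ℝ) - (n.choose k : ℝ)) := by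
    linarith
  have hp : 0 ≤ (3 * φ) ^ (k + 1) := by positivity
  calc NF I c F (k + 1) + NF I c F k ≤ 2 * ((3 * φ) ^ (k + 1) * (n.choose (k + 1) : ℝ)) := by
        linarith
    _ ≤ 2 * ((3 * φ) ^ (k + 1) * (2 * ((n.choose (k + 1) : ℝ) - (n.choose k : ℝ)))) := by
        gcongr
    _ = 4 * (3 * φ) ^ (k + 1) * ((n.choose (k + 1) : ℝ) - (n.choose k : ℝ)) := by ring

/-- many fixed points. -/
theorem mid_many {ι : Type*} (φ : ℝ) (h0 : 0 < φ) (h1 : φ ≤ 1 / 3) (ε : ℝ) (hε0 : 0 < ε)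
    (hε : ε ≤ φ ^ 2 / 20) (I : Finset ι) (c : ι → ℕ) (hc : ∀ i ∈ I, 2 ≤ c i) (F k n : ℕ)
    (hn : F + ∑ i ∈ I, c i = n) (hF : φ * n ≤ (F : ℝ)) (hk : ((k + 1 : ℕ) : ℝ) ≤ ε * n)
    (hn0 : 0 < n) :
    NF I c F (k + 1) + NF I c F k ≤
      3 * Real.exp (-(9 / 10 * (((∑ i ∈ I, c i : ℕ) : ℝ) * (k + 1 : ℕ) / n))) *
        ((n.choose (k + 1) : ℝ) - (n.choose k : ℝ)) := by
  have hnpos : (0 : ℝ) < n := by exact_mod_cast hn0
  set K : ℝ := ((k + 1 : ℕ) : ℝ) with hK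
  have hKpos : 0 < K := by rw [hK]; positivity
  have hφn : 0 < φ * n := by positivity
  have hε1 : ε ≤ 1 / 180 := by nlinarith
  have hK180 : K ≤ n / 180 := by nlinarith
  have h20 : 20 * (k + 1) ≤ n := by
    have : (20 : ℝ) * K ≤ n := by linarith
    rw [hK] at this
    exact_mod_cast this
  have hK60 : K ≤ φ * n / 60 := by
    have e1 : ε ≤ φ / 60 := by nlinarith
    calc K ≤ ε * n := hk
      _ ≤ φ / 60 * n := mul_le_mul_of_nonneg_right e1 hnpos.le
      _ = φ * n / 60 := by ring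
  have hFK : k + 1 ≤ F := by
    have : K ≤ (F : ℝ) := by linarith
    rw [hK] at this
    exact_mod_cast this
  set s : ℕ := ∑ i ∈ I, c i with hs
  set u : ℝ := uF F (k + 1) with hu
  have hden : 59 / 60 * (φ * n) ≤ (F : ℝ) - ((k + 1 : ℕ) : ℝ) + 1 := by
    rw [← hK]; linarith
  have hdpos : 0 < (F : ℝ) - ((k + 1 : ℕ) : ℝ) + 1 := by
    refine lt_of_lt_of_le ?_ hden
    positivity
  have hu0 : 0 ≤ u := by
    rw [hu]; unfold uF
    positivity
  have hu1 : u ≤ 60 / 59 * (K / (φ * n)) := by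
    rw [hu]; unfold uF
    rw [← hK] at hden hdpos ⊢
    have e1 : K / ((F : ℝ) - K + 1) ≤ K / (59 / 60 * (φ * n)) :=
      div_le_div_of_nonneg_left hKpos.le (by positivity) hden
    refine e1.trans (le_of_eq ?_)
    field_simp
  have hKφ : K / (φ * n) ≤ 1 / 60 := by
    rw [div_le_div_iff₀ hφn (by norm_num)]
    linarith
  have hKφ0 : 0 ≤ K / (φ * n) := by positivity
  have hu2 : u ≤ 1 / 50 := by linarith
  set x : ℝ := (s : ℝ) * K / n with hx
  have hx0 : 0 ≤ x := by positivity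
  have hus : u ^ 2 * (s : ℝ) / 2 ≤ 0.03 * x := by
    have e1 : u ^ 2 ≤ (60 / 59 * (K / (φ * n))) ^ 2 := pow_le_pow_left₀ hu0 hu1 2
    have e2 : u ^ 2 * (s : ℝ) / 2 ≤ (60 / 59 * (K / (φ * n))) ^ 2 * s / 2 := by gcongr
    have e3 : (60 / 59 * (K / (φ * n))) ^ 2 * s / 2 = (60 / 59) ^ 2 / 2 * (K / (φ ^ 2 * n)) * x := by
      rw [hx]; field_simp
    have e5 : K / (φ ^ 2 * n) ≤ 1 / 20 := by
      rw [div_le_div_iff₀ (by positivity) (by norm_num)]
      nlinarith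
    rw [e3] at e2
    refine e2.trans ?_
    have e6 : (60 / 59 : ℝ) ^ 2 / 2 * (K / (φ ^ 2 * n)) ≤ 0.03 := by nlinarith
    exact mul_le_mul_of_nonneg_right e6 hx0
  have hA1 := NF_le I c hc F (k + 1) hFK (by rw [← hu]; linarith)
  have hA2 := choose_le_exp F s (k + 1) hFK (by omega)
  have hFs : ((F : ℝ) + s) = n := by exact_mod_cast hn
  have hFs' : F + s = n := hn
  rw [hFs, hFs', ← hK, ← hx] at hA2
  rw [← hu, ← hs] at hA1
  have hCn : (0 : ℝ) ≤ (n.choose (k + 1) : ℝ) := Nat.cast_nonneg _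
  have hA : NF I c F (k + 1) ≤ Real.exp (-(9 / 10 * x)) * (n.choose (k + 1) : ℝ) := by
    calc NF I c F (k + 1) ≤ (F.choose (k + 1) : ℝ) * Real.exp (u ^ 2 * (s : ℝ) / 2) := hA1
      _ ≤ (Real.exp (-x) * (n.choose (k + 1) : ℝ)) * Real.exp (0.03 * x) := by
          apply mul_le_mul hA2 (Real.exp_le_exp.mpr hus) (Real.exp_pos _).le
          positivity
      _ = (Real.exp (-x) * Real.exp (0.03 * x)) * (n.choose (k + 1) : ℝ) := by ring
      _ ≤ Real.exp (-(9 / 10 * x)) * (n.choose (k + 1) : ℝ) := by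
          apply mul_le_mul_of_nonneg_right _ hCn
          rw [← Real.exp_add]
          apply Real.exp_le_exp.mpr
          linarith
  have hB : NF I c F k ≤ NF I c F (k + 1) := by
    have e1 := NF_pred_le I c F k hFK
    rw [← hu] at e1
    have e2 := NF_nonneg' I c F (k + 1)
    nlinarith
  have hch := choose_pred_le n k h20
  have hfin : 2 * (n.choose (k + 1) : ℝ) ≤ 3 * ((n.choose (k + 1) : ℝ) - (n.choose k : ℝ)) := by
    linarith
  have hE := Real.exp_pos (-(9 / 10 * x))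
  calc NF I c F (k + 1) + NF I c F k ≤ Real.exp (-(9 / 10 * x)) * (2 * (n.choose (k + 1) : ℝ)) := by
        linarith
    _ ≤ Real.exp (-(9 / 10 * x)) * (3 * ((n.choose (k + 1) : ℝ) - (n.choose k : ℝ))) := by
        apply mul_le_mul_of_nonneg_left hfin hE.le
    _ = 3 * Real.exp (-(9 / 10 * x)) * ((n.choose (k + 1) : ℝ) - (n.choose k : ℝ)) := by ring

end Pool.MP322
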