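import Mathlib

/-! Definitions for the sums over sets of cycles. -/

set_option autoImplicit false

open Finset

namespace Pool.MP322

/-- number of ways to complete with fixed points. -/
noncomputable def bF (F k t : ℕ) : ℝ := if t ≤ k then ((F.choose (k - t) : ℕ) : ℝ) else 0

/-- number of invariant sets. -/
noncomputable def NF {ι : Type*} (I : Finset ι) (c : ι → ℕ) (F k : ℕ) : ℝ :=
  ∑ 𝒞 ∈ I.powerset, bF F k (∑ i ∈ 𝒞, c i)

/-- weighted number of invariant sets. -/
noncomputable def SF {ι : Type*} (I : Finset ι) (c : ι → ℕ) (F k : ℕ) (r : Multiset ℕ → ℝ) : ℝ :=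
  ∑ 𝒞 ∈ I.powerset, bF F k (∑ i ∈ 𝒞, c i) * r (𝒞.val.map c)

/-- the growth ratio. -/
noncomputable def uF (F k : ℕ) : ℝ := (k : ℝ) / ((F : ℝ) - k + 1)

end Pool.MP322
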