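import Pool.Agent.Lib.MP_322c5f_al.OA

/-! job SQ-10: asymptotic multiplicativity of normalized characters. -/

set_option autoImplicit false

open Equiv Finset Nat

namespace Pool.MP322

variable {n : ℕ}

theorem card_apply_eq_const (a b b' : Fin n) :
    (Finset.univ.filter (fun g : Perm (Fin n) => g a = b)).card =
      (Finset.univ.filter (fun g : Perm (Fin n) => g a = b')).card := by
  refine Finset.card_bij (fun g _ => swap b b' * g) ?_ ?_ ?_
  · intro g hg
    rw [Finset.mem_filter] at hg ⊢
    refine ⟨Finset.mem_univ _, ?_⟩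
    rw [Perm.mul_apply, hg.2, swap_apply_left]
  · intro g _ g' _ h
    exact mul_left_cancel h
  · intro g hg
    rw [Finset.mem_filter] at hg
    refine ⟨swap b b' * g, ?_, ?_⟩
    · rw [Finset.mem_filter]
      refine ⟨Finset.mem_univ _, ?_⟩
      rw [Perm.mul_apply, hg.2, swap_apply_right]
    · rw [← mul_assoc, swap_mul_self, one_mul]

theorem card_apply_eq (a b : Fin n) :
    n * (Finset.univ.filter (fun g : Perm (Fin n) => g a = b)).card = n ! := by
  have h1 : (Finset.univ : Finset (Perm (Fin n))).card =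
      ∑ b' : Fin n, (Finset.univ.filter (fun g : Perm (Fin n) => g a = b')).card :=
    Finset.card_eq_sum_card_fiberwise (fun g _ => Finset.mem_univ (g a))
  rw [Finset.sum_congr rfl (fun b' _ => card_apply_eq_const a b' b), Finset.sum_const,
    Finset.card_univ, Finset.card_univ, Fintype.card_fin, Fintype.card_perm, Fintype.card_fin,
    smul_eq_mul] at h1
  exact h1.symm

open Classical in
theorem card_bad (σ τ : Perm (Fin n)) :
    n * (Finset.univ.filter (fun g : Perm (Fin n) => ¬ σ.Disjoint (g * τ * g⁻¹))).card ≤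
      σ.support.card * τ.support.card * n ! := by
  classical
  have hsub : (Finset.univ.filter (fun g : Perm (Fin n) => ¬ σ.Disjoint (g * τ * g⁻¹))) ⊆
      (σ.support ×ˢ τ.support).biUnion
        (fun p => Finset.univ.filter (fun g : Perm (Fin n) => g p.2 = p.1)) := by
    intro g hg
    rw [Finset.mem_filter] at hg
    have h2 := hg.2
    unfold Perm.Disjoint at h2
    push Not at h2
    obtain ⟨x, hx1, hx2⟩ := h2
    rw [Finset.mem_biUnion]
    refine ⟨(x, g⁻¹ x), ?_, ?_⟩
    · rw [Finset.mem_product]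
      refine ⟨Perm.mem_support.2 hx1, Perm.mem_support.2 ?_⟩
      intro hc
      apply hx2
      simp only [Perm.mul_apply] at hc ⊢
      rw [hc]
      simp
    · rw [Finset.mem_filter]
      refine ⟨Finset.mem_univ _, ?_⟩
      simp
  calc n * (Finset.univ.filter (fun g : Perm (Fin n) => ¬ σ.Disjoint (g * τ * g⁻¹))).card
      ≤ n * ∑ p ∈ σ.support ×ˢ τ.support,
          (Finset.univ.filter (fun g : Perm (Fin n) => g p.2 = p.1)).card :=
        Nat.mul_le_mul_left _ ((Finset.card_le_card hsub).trans Finset.card_biUnion_le)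
    _ = ∑ p ∈ σ.support ×ˢ τ.support, n ! := by
        rw [Finset.mul_sum]
        exact Finset.sum_congr rfl (fun p _ => card_apply_eq p.2 p.1)
    _ = σ.support.card * τ.support.card * n ! := by
        rw [Finset.sum_const, Finset.card_product, smul_eq_mul]

theorem OIrr.r_mul_approx (V : OIrr n) (σ τ : Perm (Fin n)) (h : σ.Disjoint τ) :
    |V.r (σ * τ) - V.r σ * V.r τ| ≤ 2 * σ.support.card * τ.support.card / n := by
  classical
  rcases Nat.eq_zero_or_pos n with hn | hn
  · subst hn
    have h1 : σ = 1 := Subsingleton.elim _ _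
    have h2 : τ = 1 := Subsingleton.elim _ _
    subst h1; subst h2
    simp [V.r_one]
  · have hn' : (0 : ℝ) < n := Nat.cast_pos.2 hn
    have hf : (0 : ℝ) < (n ! : ℝ) := Nat.cast_pos.2 (Nat.factorial_pos n)
    have e1 : (n ! : ℝ) * (V.r (σ * τ) - V.r σ * V.r τ) =
        ∑ g : Perm (Fin n), (V.r (σ * τ) - V.r (σ * (g * τ * g⁻¹))) := by
      rw [Finset.sum_sub_distrib, V.r_cent, Finset.sum_const, Finset.card_univ, Fintype.card_perm,
        Fintype.card_fin, nsmul_eq_mul]
      ring
    have e2 : ∀ g : Perm (Fin n), |V.r (σ * τ) - V.r (σ * (g * τ * g⁻¹))| ≤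
        if ¬ σ.Disjoint (g * τ * g⁻¹) then (2 : ℝ) else 0 := by
      intro g
      by_cases hg : σ.Disjoint (g * τ * g⁻¹)
      · rw [if_neg (not_not.2 hg)]
        have : V.r (σ * τ) = V.r (σ * (g * τ * g⁻¹)) := by
          apply V.r_type
          rw [h.cycleType_mul, hg.cycleType_mul, Perm.cycleType_conj]
        rw [this, sub_self, abs_zero]
      · rw [if_pos hg]
        have h1 := V.abs_r_le (σ * τ)
        have h2 := V.abs_r_le (σ * (g * τ * g⁻¹))
        calc |V.r (σ * τ) - V.r (σ * (g * τ * g⁻¹))|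
            ≤ |V.r (σ * τ)| + |V.r (σ * (g * τ * g⁻¹))| := abs_sub _ _
          _ ≤ 2 := by linarith
    have e3 : (n ! : ℝ) * |V.r (σ * τ) - V.r σ * V.r τ| ≤
        2 * ((Finset.univ.filter
          (fun g : Perm (Fin n) => ¬ σ.Disjoint (g * τ * g⁻¹))).card : ℝ) := by
      have : (n ! : ℝ) * |V.r (σ * τ) - V.r σ * V.r τ| =
          |(n ! : ℝ) * (V.r (σ * τ) - V.r σ * V.r τ)| := by
        rw [abs_mul, abs_of_pos hf]
      rw [this, e1]
      refine (Finset.abs_sum_le_sum_abs _ _).trans ?_
      refine (Finset.sum_le_sum (fun g _ => e2 g)).trans ?_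
      rw [← Finset.sum_filter, Finset.sum_const, nsmul_eq_mul]
      linarith
    have e4 : (n : ℝ) * ((Finset.univ.filter
          (fun g : Perm (Fin n) => ¬ σ.Disjoint (g * τ * g⁻¹))).card : ℝ) ≤
        σ.support.card * τ.support.card * (n ! : ℝ) := by
      exact_mod_cast card_bad σ τ
    rw [le_div_iff₀ hn']
    have e5 : (n ! : ℝ) * (|V.r (σ * τ) - V.r σ * V.r τ| * n) ≤
        (n ! : ℝ) * (2 * σ.support.card * τ.support.card) := by
      have := mul_le_mul_of_nonneg_left e3 hn'.le
      nlinarith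
    exact le_of_mul_le_mul_left e5 hf

theorem OIrr.r_prod_approx (V : OIrr n) (σ : Perm (Fin n)) :
    |V.r σ - ∏ c ∈ σ.cycleFactorsFinset, V.r c| ≤ (σ.support.card : ℝ) ^ 2 / n := by
  induction σ using Perm.cycle_induction_on with
  | base_one =>
    simp [V.r_one]
  | base_cycles σ hσ =>
    rw [Perm.cycleFactorsFinset_eq_singleton_iff.2 ⟨hσ, rfl⟩, Finset.prod_singleton, sub_self,
      abs_zero]
    positivity
  | induction_disjoint σ τ hd hσ _ ih =>
    rw [hd.cycleFactorsFinset_mul_eq_union, Finset.prod_union hd.disjoint_cycleFactorsFinset,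
      Perm.cycleFactorsFinset_eq_singleton_iff.2 ⟨hσ, rfl⟩, Finset.prod_singleton,
      hd.card_support_mul]
    have h1 := V.r_mul_approx σ τ hd
    have h2 := V.abs_r_le σ
    have h3 : |V.r (σ * τ) - V.r σ * ∏ c ∈ τ.cycleFactorsFinset, V.r c| ≤
        |V.r (σ * τ) - V.r σ * V.r τ| +
          |V.r σ| * |V.r τ - ∏ c ∈ τ.cycleFactorsFinset, V.r c| := by
      rw [← abs_mul]
      have : V.r (σ * τ) - V.r σ * ∏ c ∈ τ.cycleFactorsFinset, V.r c =
        (V.r (σ * τ) - V.r σ * V.r τ) +
          V.r σ * (V.r τ - ∏ c ∈ τ.cycleFactorsFinset, V.r c) := by ring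
      rw [this]
      exact abs_add_le _ _
    have h4 : |V.r σ| * |V.r τ - ∏ c ∈ τ.cycleFactorsFinset, V.r c| ≤
        1 * ((τ.support.card : ℝ) ^ 2 / n) :=
      mul_le_mul h2 ih (abs_nonneg _) zero_le_one
    refine (h3.trans (add_le_add h1 h4)).trans ?_
    rw [one_mul, ← add_div]
    push_cast
    apply div_le_div_of_nonneg_right _ (Nat.cast_nonneg n)
    nlinarith [sq_nonneg (σ.support.card : ℝ)]

/-- products of `l` disjoint transpositions. -/
theorem OIrr.r_pow_two (V : OIrr n) (σ τ : Perm (Fin n)) (l : ℕ)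
    (hσ : σ.cycleType = Multiset.replicate l 2) (hτ : τ.cycleType = {2}) :
    |V.r σ - V.r τ ^ l| ≤ 4 * (l : ℝ) ^ 2 / n := by
  have h1 := V.r_prod_approx σ
  have hs : σ.support.card = 2 * l := by
    rw [← Perm.sum_cycleType, hσ, Multiset.sum_replicate, smul_eq_mul, mul_comm]
  have hc : σ.cycleFactorsFinset.card = l := by
    have : Multiset.card σ.cycleType = l := by rw [hσ, Multiset.card_replicate]
    rw [Perm.cycleType_def, Multiset.card_map] at this
    exact this
  have hprod : ∏ c ∈ σ.cycleFactorsFinset, V.r c = V.r τ ^ l := by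
    rw [Finset.prod_congr rfl (g := fun _ => V.r τ), Finset.prod_const, hc]
    intro c hcm
    apply V.r_type
    rw [hτ]
    have hcyc : c.IsCycle := (Perm.mem_cycleFactorsFinset_iff.1 hcm).1
    rw [hcyc.cycleType]
    have hmem : c.support.card ∈ σ.cycleType := by
      rw [Perm.cycleType_def, Multiset.mem_map]
      exact ⟨c, hcm, rfl⟩
    rw [hσ] at hmem
    rw [Multiset.eq_of_mem_replicate hmem]
  rw [hprod, hs] at h1
  refine h1.trans (le_of_eq ?_)
  push_cast
  ring

end Pool.MP322
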