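import Pool.Agent.Lib.MP_322c5f_al.Ker
import Pool.Agent.Lib.MP_322c5f_al.Frob

/-! job SQ-31: a map from the representation of (m, nu) exists as soon as a character sum is
positive. -/

set_option autoImplicit false

open Equiv Finset Nat

namespace Pool.MP322

/-- the class function `Ψ_ν`. -/
noncomputable def Psi {k : ℕ} (nu : Y (k + 1)) {n : ℕ} (g : Perm (Fin n)) : ℝ :=
  ∑ T ∈ invSets g (k + 1), ty nu (resT g T).cycleType -
    ∑ T ∈ invSets g k, ty nu (resT g T).cycleType

theorem qq_via_trans {k m : ℕ} (p : Perm (Fin k)) :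
    p.viaEmbedding ((Fin.succEmb k).trans (Fin.natAddEmb m)) = iR m (k + 1) (up k p) := by
  unfold iR up
  rw [Equiv.Perm.viaEmbeddingHom_apply, Equiv.Perm.viaEmbeddingHom_apply]
  ext x
  congr 1
  by_cases hx : x ∈ Set.range (Fin.natAddEmb (m := k + 1) m)
  · obtain ⟨y, rfl⟩ := hx
    rw [Equiv.Perm.viaEmbedding_apply]
    by_cases hy : y ∈ Set.range (Fin.succEmb k)
    · obtain ⟨z, rfl⟩ := hy
      rw [Equiv.Perm.viaEmbedding_apply]
      exact Equiv.Perm.viaEmbedding_apply p ((Fin.succEmb k).trans (Fin.natAddEmb m)) z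
    · rw [Equiv.Perm.viaEmbedding_apply_of_notMem _ _ _ hy]
      apply Equiv.Perm.viaEmbedding_apply_of_notMem
      rintro ⟨z, hz⟩
      apply hy
      exact ⟨z, (Fin.natAddEmb (m := k + 1) m).injective hz⟩
  · rw [Equiv.Perm.viaEmbedding_apply_of_notMem _ _ _ hx]
    apply Equiv.Perm.viaEmbedding_apply_of_notMem
    rintro ⟨z, hz⟩
    apply hx
    exact ⟨Fin.succEmb k z, hz⟩

theorem qq_ct_up {k : ℕ} (p : Perm (Fin k)) : (up k p).cycleType = p.cycleType := by
  classical
  unfold up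
  rw [Equiv.Perm.viaEmbeddingHom_apply]
  unfold Equiv.Perm.viaEmbedding
  exact @Equiv.Perm.cycleType_extendDomain _ _ _ _ _ _ _ (fun x => Classical.propDecidable _) _ _

theorem hom_of_Psi {m k : ℕ} (hkm : k + 1 ≤ m) (nu : Y (k + 1)) {ι : Type*} [Fintype ι]
    [DecidableEq ι] (W : Perm (Fin (m + (k + 1))) →* Matrix ι ι ℝ)
    (h : 0 < ∑ g, (W g).trace * Psi nu g) :
    ∃ Φ : Matrix ι (Tab ⊥ (addRowY hkm nu).1 (m + (k + 1))) ℝ, Φ ≠ 0 ∧
      ∀ σ, W σ * Φ = Φ * rep ⊥ (addRowY hkm nu).1 (m + (k + 1)) σ := by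
  have hΦ : ∀ g x : Perm (Fin (m + (k + 1))), (W (x * g * x⁻¹)).trace = (W g).trace := by
    intro g x
    rw [map_mul, map_mul, Matrix.trace_mul_comm, ← Matrix.mul_assoc, ← map_mul, inv_mul_cancel,
      map_one, Matrix.one_mul]
  have F1 := frob (n := m + (k + 1)) (m := m) (k := k + 1) rfl (Fin.castAddEmb (k + 1))
    (Fin.natAddEmb m) (by
      intro i j hij
      have := congrArg Fin.val hij
      simp only [Fin.castAddEmb_apply, Fin.natAddEmb_apply, Fin.val_castAdd,
        Fin.val_natAdd] at this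
      omega) (fun g => (W g).trace) hΦ (ty nu)
  have F2 := frob (n := m + (k + 1)) (m := m + 1) (k := k) (by omega)
    (Fin.castLEEmb (by omega)) ((Fin.succEmb k).trans (Fin.natAddEmb m)) (by
      intro i j hij
      have := congrArg Fin.val hij
      simp at this
      omega) (fun g => (W g).trace) hΦ (ty nu)
  have hlt : (1 / (((m + (k + 1)) ! : ℕ) : ℝ)) * ∑ g : Perm (Fin (m + (k + 1))),
        (W g).trace * ∑ T ∈ invSets g k, ty nu (resT g T).cycleType <
      (1 / (((m + (k + 1)) ! : ℕ) : ℝ)) * ∑ g : Perm (Fin (m + (k + 1))),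
        (W g).trace * ∑ T ∈ invSets g (k + 1), ty nu (resT g T).cycleType := by
    apply mul_lt_mul_of_pos_left
    · rw [← sub_pos, ← Finset.sum_sub_distrib]
      refine lt_of_lt_of_eq h (Finset.sum_congr rfl fun g _ => ?_)
      unfold Psi
      rw [mul_sub]
    · have : (0 : ℝ) < ((m + (k + 1)) ! : ℕ) := by exact_mod_cast Nat.factorial_pos _
      exact one_div_pos.2 this
  rw [← F1, ← F2] at hlt
  obtain ⟨f, hf⟩ := exists_KCond nu W (by
    refine lt_of_eq_of_lt ?_ (lt_of_lt_of_eq hlt ?_)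
    · congr 1
      refine Finset.sum_congr rfl fun p _ => ?_
      rw [qq_via_trans, ← ty_cycleType, qq_ct_up]
      rfl
    · congr 1
      refine Finset.sum_congr rfl fun p _ => ?_
      rw [ty_cycleType]
      rfl)
  exact key_general hkm nu W f hf

end Pool.MP322
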