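import Pool.Agent.Lib.MP_322c5f_al.Mid
import Pool.Agent.Lib.MP_322c5f_al.QQ
import Pool.Agent.Lib.MP_322c5f_al.Frob2
import Pool.Agent.Lib.MP_322c5f_al.OE

/-! job SQ-60: the class function Psi in the middle range. -/

set_option autoImplicit false

open Equiv Finset Nat

namespace Pool.MP322

theorem Psi_one {m k : ℕ} (nu : Y (k + 1)) :
    Psi nu (1 : Perm (Fin (m + (k + 1)))) =
      (((m + (k + 1)).choose (k + 1) : ℝ) - ((m + (k + 1)).choose k : ℝ)) * fd nu := by
  have key : ∀ j : ℕ, ∑ T ∈ invSets (1 : Perm (Fin (m + (k + 1)))) j,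
      ty nu (resT (1 : Perm (Fin (m + (k + 1)))) T).cycleType =
        ((m + (k + 1)).choose j : ℝ) * fd nu := by
    intro j
    rw [sum_invSets (1 : Perm (Fin (m + (k + 1)))) j (ty nu)]
    rw [Perm.cycleFactorsFinset_one, Finset.powerset_empty, Finset.sum_singleton]
    simp [ty_zero]
  unfold Psi
  rw [key, key]
  ring

theorem midPsi_SF {m k : ℕ} (nu : Y (k + 1)) (g : Perm (Fin (m + (k + 1)))) (j : ℕ) :
    ∑ T ∈ invSets g j, ty nu (resT g T).cycleType =
      fd nu * SF g.cycleFactorsFinset (fun c => c.support.card)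
        (m + (k + 1) - g.support.card) j (fun τ => ty nu τ / fd nu) := by
  rw [sum_invSets g j (ty nu)]
  unfold SF bF
  rw [Finset.mul_sum]
  refine Finset.sum_congr rfl fun C _ => ?_
  have h := (fd_pos nu).ne'
  field_simp

theorem Psi_mid (c' : ℝ) (hc' : 0 < c') : ∃ ε : ℝ, 0 < ε ∧ ε ≤ 1 / 20 ∧ ∃ n0 : ℕ,
    ∀ (m k : ℕ), n0 ≤ m + (k + 1) →
      c' * Real.sqrt ((m + (k + 1) : ℕ) : ℝ) ≤ ((k + 1 : ℕ) : ℝ) →
      ((k + 1 : ℕ) : ℝ) ≤ ε * ((m + (k + 1) : ℕ) : ℝ) →
      ∀ (nu : Y (k + 1)) (g : Perm (Fin (m + (k + 1)))),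
        -(Psi nu g) ≤ (3 * Real.exp (-(9 * Real.sqrt (g.cycleType.sum : ℝ))) +
          4 * Real.exp (-(5 * Real.sqrt ((m + (k + 1) : ℕ) : ℝ)))) *
            ((((m + (k + 1)).choose (k + 1) : ℝ) - ((m + (k + 1)).choose k : ℝ)) * fd nu) := by
  obtain ⟨ε, hε, hε1, n0, H⟩ := mid_main c' hc'
  refine ⟨ε, hε, hε1, n0, ?_⟩
  intro m k hn h1 h2 nu g
  have hfd := fd_pos nu
  have hsum : ∑ c ∈ g.cycleFactorsFinset, c.support.card = g.cycleType.sum := by
    rw [Perm.cycleType_def]
    rfl
  have hcard : g.cycleType.sum = g.support.card := Perm.sum_cycleType g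
  have hle : g.support.card ≤ m + (k + 1) := by
    have := Finset.card_le_univ g.support
    rwa [Fintype.card_fin] at this
  have hr := H (Perm (Fin (m + (k + 1)))) g.cycleFactorsFinset (fun c => c.support.card)
    (m + (k + 1) - g.support.card) k (m + (k + 1)) (fun τ => ty nu τ / fd nu) hn
    (fun c hc => (Perm.mem_cycleFactorsFinset_iff.1 hc).1.two_le_card_support)
    (by rw [hsum, hcard]; omega) h1 h2
    (by rw [ty_zero]; exact div_self hfd.ne')
    (fun τ => by
      rw [abs_div, abs_of_pos hfd, div_le_one hfd]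
      exact abs_ty_le nu τ)
    (by
      intro l hl
      rcases Nat.eq_zero_or_pos l with h0 | h0
      · subst h0
        simp only [Multiset.replicate_zero, pow_zero]
        rw [ty_zero, div_self hfd.ne']
        simp
      · obtain ⟨σ, hσ⟩ : ∃ σ : Perm (Fin (k + 1)), σ.cycleType = Multiset.replicate l 2 := by
          rw [Perm.exists_with_cycleType_iff]
          refine ⟨?_, ?_⟩
          · rw [Multiset.sum_replicate, Fintype.card_fin, smul_eq_mul]
            omega
          · intro a ha
            rw [Multiset.eq_of_mem_replicate ha]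
        obtain ⟨τ, hτ⟩ : ∃ τ : Perm (Fin (k + 1)), τ.cycleType = {2} := by
          rw [Perm.exists_with_cycleType_iff]
          refine ⟨?_, ?_⟩
          · rw [Multiset.sum_singleton, Fintype.card_fin]
            omega
          · intro a ha
            rw [Multiset.mem_singleton.1 ha]
        have h3 := (irr nu).r_pow_two σ τ l hσ hτ
        rw [irr_r, irr_r, ← ty_cycleType, ← ty_cycleType, hσ, hτ] at h3
        exact h3)
  rw [hsum] at hr
  have hPsi : Psi nu g = fd nu * (SF g.cycleFactorsFinset (fun c => c.support.card)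
        (m + (k + 1) - g.support.card) (k + 1) (fun τ => ty nu τ / fd nu) -
        SF g.cycleFactorsFinset (fun c => c.support.card)
        (m + (k + 1) - g.support.card) k (fun τ => ty nu τ / fd nu)) := by
    unfold Psi
    rw [midPsi_SF, midPsi_SF]
    ring
  rw [hPsi]
  have h4 := mul_le_mul_of_nonneg_left hr hfd.le
  calc -(fd nu * (SF g.cycleFactorsFinset (fun c => c.support.card)
        (m + (k + 1) - g.support.card) (k + 1) (fun τ => ty nu τ / fd nu) -
        SF g.cycleFactorsFinset (fun c => c.support.card)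
        (m + (k + 1) - g.support.card) k (fun τ => ty nu τ / fd nu)))
      = fd nu * -(SF g.cycleFactorsFinset (fun c => c.support.card)
        (m + (k + 1) - g.support.card) (k + 1) (fun τ => ty nu τ / fd nu) -
        SF g.cycleFactorsFinset (fun c => c.support.card)
        (m + (k + 1) - g.support.card) k (fun τ => ty nu τ / fd nu)) := by ring
    _ ≤ _ := h4
    _ = _ := by ring

end Pool.MP322
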