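import Pool.Agent.Lib.MP_322c5f_al.OA

/-! job SQ-7: the square of a normalized character value is bounded by `phi`. -/

set_option autoImplicit false

open Equiv Finset Nat

namespace Pool.MP322

variable {n : ℕ}

private theorem ob_conj_via (σ : Perm (Fin n)) {N : ℕ} (b : Fin N ↪ Fin n) (k : Perm (Fin N)) :
    k.viaEmbedding (b.trans σ.toEmbedding) = σ * k.viaEmbedding b * σ⁻¹ := by
  ext x
  congr 1
  rw [Perm.mul_apply, Perm.mul_apply]
  by_cases hx : x ∈ Set.range (b.trans σ.toEmbedding)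
  · obtain ⟨i, rfl⟩ := hx
    rw [Perm.viaEmbedding_apply]
    have h1 : (b.trans σ.toEmbedding) i = σ (b i) := rfl
    have h2 : (b.trans σ.toEmbedding) (k i) = σ (b (k i)) := rfl
    have h4 : σ⁻¹ (σ (b i)) = b i := by simp
    rw [h1, h2, h4, Perm.viaEmbedding_apply]
  · rw [Perm.viaEmbedding_apply_of_notMem _ _ _ hx]
    have h3 : σ⁻¹ x ∉ Set.range b := by
      rintro ⟨i, hi⟩
      apply hx
      refine ⟨i, ?_⟩
      change σ (b i) = x
      rw [hi]
      simp
    rw [Perm.viaEmbedding_apply_of_notMem _ _ _ h3]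
    simp

private theorem ob_disj (σ : Perm (Fin n)) {N : ℕ} (b : Fin N ↪ Fin n)
    (h : ∀ i j, σ (b i) ≠ b j) (k l : Perm (Fin N)) :
    Perm.Disjoint (k.viaEmbedding b) (l.viaEmbedding (b.trans σ.toEmbedding)) := by
  intro x
  by_cases hx : x ∈ Set.range b
  · right
    apply Perm.viaEmbedding_apply_of_notMem
    rintro ⟨i, hi⟩
    obtain ⟨j, hj⟩ := hx
    apply h i j
    rw [hj]
    exact hi
  · left
    exact Perm.viaEmbedding_apply_of_notMem _ _ _ hx

private theorem ob_tr_sq {ι : Type} [Fintype ι] [DecidableEq ι] (A : Matrix ι ι ℝ) :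
    A.trace ^ 2 ≤ (Fintype.card ι : ℝ) * (A * A.transpose).trace := by
  have h1 : A.trace ^ 2 ≤ (Fintype.card ι : ℝ) * ∑ i, A i i ^ 2 := by
    have := sq_sum_le_card_mul_sum_sq (s := (Finset.univ : Finset ι)) (f := fun i => A i i)
    simpa [Matrix.trace, Matrix.diag] using this
  refine h1.trans ?_
  apply mul_le_mul_of_nonneg_left _ (Nat.cast_nonneg _)
  simp only [Matrix.trace, Matrix.diag, Matrix.mul_apply, Matrix.transpose_apply]
  apply Finset.sum_le_sum
  intro i _
  have h2 : A i i ^ 2 = A i i * A i i := sq _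
  rw [h2]
  exact Finset.single_le_sum (f := fun j => A i j * A i j) (fun j _ => mul_self_nonneg _)
    (Finset.mem_univ i)

private theorem ob_tr_conj (V : OIrr n) (σ x : Perm (Fin n)) :
    (V.ρ (x * σ * x⁻¹)).trace = (V.ρ σ).trace := by
  rw [map_mul, Matrix.trace_mul_comm, ← map_mul]
  congr 2
  group

theorem OIrr.r_sq_le (V : OIrr n) (σ : Perm (Fin n)) {N : ℕ} (b : Fin N ↪ Fin n)
    (h : ∀ i j, σ (b i) ≠ b j) :
    V.r σ ^ 2 ≤ V.phi b (b.trans σ.toEmbedding) := by
  classical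
  set kap : Perm (Fin N) →* Perm (Fin n) := Perm.viaEmbeddingHom b with hkap
  have hd : 0 < V.dim := V.dim_pos
  have hN : (0 : ℝ) < (N ! : ℝ) := by exact_mod_cast Nat.factorial_pos N
  set Z : Matrix V.ι V.ι ℝ := ∑ k : Perm (Fin N), V.ρ (kap k * σ * (kap k)⁻¹) with hZ
  have hcard : (Fintype.card (Perm (Fin N)) : ℝ) = (N ! : ℝ) := by
    rw [Fintype.card_perm, Fintype.card_fin]
  have htr : Z.trace = (N ! : ℝ) * (V.ρ σ).trace := by
    rw [hZ, Matrix.trace_sum]
    rw [Finset.sum_congr rfl (fun k _ => ob_tr_conj V σ (kap k))]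
    rw [Finset.sum_const, Finset.card_univ, nsmul_eq_mul, hcard]
  have hZt : Z.transpose = ∑ l : Perm (Fin N), V.ρ (kap l * σ⁻¹ * (kap l)⁻¹) := by
    rw [hZ, Matrix.transpose_sum]
    apply Finset.sum_congr rfl
    intro l _
    have h5 : (kap l * σ * (kap l)⁻¹)⁻¹ = kap l * σ⁻¹ * (kap l)⁻¹ := by
      simp only [mul_inv_rev, inv_inv, mul_assoc]
    rw [V.orth, h5]
  have htr2 : (Z * Z.transpose).trace =
      (N ! : ℝ) * ∑ k : Perm (Fin N), (V.ρ (kap k * σ * (kap k)⁻¹ * σ⁻¹)).trace := by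
    rw [hZt, hZ, Finset.sum_mul_sum, Finset.sum_comm, Matrix.trace_sum]
    have h1 : ∀ l ∈ (Finset.univ : Finset (Perm (Fin N))),
        (∑ k : Perm (Fin N), V.ρ (kap k * σ * (kap k)⁻¹) * V.ρ (kap l * σ⁻¹ * (kap l)⁻¹)).trace =
          ∑ k : Perm (Fin N), (V.ρ (kap k * σ * (kap k)⁻¹ * σ⁻¹)).trace := by
      intro l _
      rw [Matrix.trace_sum]
      rw [← Equiv.sum_comp (Equiv.mulLeft l)]
      apply Finset.sum_congr rfl
      intro k _
      rw [← map_mul]
      rw [← ob_tr_conj V (kap k * σ * (kap k)⁻¹ * σ⁻¹) (kap l)]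
      congr 2
      simp only [Equiv.coe_mulLeft, map_mul]
      group
    rw [Finset.sum_congr rfl h1, Finset.sum_const, Finset.card_univ, nsmul_eq_mul, hcard]
  have hmain := ob_tr_sq Z
  rw [htr, htr2] at hmain
  have hmain2 : (V.ρ σ).trace ^ 2 * (N ! : ℝ) ≤
      V.dim * ∑ k : Perm (Fin N), (V.ρ (kap k * σ * (kap k)⁻¹ * σ⁻¹)).trace := by
    have : ((V.ρ σ).trace ^ 2 * (N ! : ℝ)) * (N ! : ℝ) ≤
      (V.dim * ∑ k : Perm (Fin N), (V.ρ (kap k * σ * (kap k)⁻¹ * σ⁻¹)).trace) * (N ! : ℝ) := by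
      unfold OIrr.dim
      calc _ = ((N ! : ℝ) * (V.ρ σ).trace) ^ 2 := by ring
        _ ≤ _ := hmain
        _ = _ := by ring
    exact le_of_mul_le_mul_right this hN
  have hterm : ∀ k : Perm (Fin N), V.r (k.viaEmbedding b * k.viaEmbedding (b.trans σ.toEmbedding))
      = (V.ρ (kap k * σ * (kap k)⁻¹ * σ⁻¹)).trace / V.dim := by
    intro k
    change _ = V.r (kap k * σ * (kap k)⁻¹ * σ⁻¹)
    apply OIrr.r_type
    have e1 : kap k = k.viaEmbedding b := rfl
    have e2 : (kap k)⁻¹ = (k⁻¹).viaEmbedding b := by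
      rw [← map_inv]; rfl
    have e3 : kap k * σ * (kap k)⁻¹ * σ⁻¹ =
        k.viaEmbedding b * (k⁻¹).viaEmbedding (b.trans σ.toEmbedding) := by
      rw [ob_conj_via σ b, ← e2, ← e1]
      group
    rw [e3, (ob_disj σ b h k k).cycleType_mul, (ob_disj σ b h k k⁻¹).cycleType_mul]
    congr 1
    rw [ob_conj_via σ b, ob_conj_via σ b, Perm.cycleType_conj, Perm.cycleType_conj, ← e2, ← e1,
      Perm.cycleType_inv]
  unfold OIrr.phi
  rw [Finset.sum_congr rfl (fun k _ => hterm k), ← Finset.sum_div]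
  unfold OIrr.r
  rw [div_pow, one_div, ← div_eq_inv_mul, div_div, div_le_div_iff₀ (by positivity) (by positivity)]
  nlinarith [hmain2, hd]

/-- every permutation has a set `B` of at least a third of its support with `σ B ∩ B = ∅`. -/
theorem exists_indep (σ : Perm (Fin n)) (N : ℕ) (hN : 3 * N ≤ σ.support.card) :
    ∃ b : Fin N ↪ Fin n, ∀ i j, σ (b i) ≠ b j := by
  classical
  -- a maximal set
  obtain ⟨B, hBmem, hBmax⟩ := Finset.exists_max_image
    ((σ.support.powerset).filter (fun B => ∀ x ∈ B, σ x ∉ B)) Finset.card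
    ⟨∅, by simp⟩
  rw [Finset.mem_filter, Finset.mem_powerset] at hBmem
  obtain ⟨hBs, hB⟩ := hBmem
  have hcov : σ.support ⊆ B ∪ B.image σ ∪ B.image (σ⁻¹ : Perm (Fin n)) := by
    intro x hx
    by_contra hcon
    simp only [Finset.mem_union, Finset.mem_image, not_or, not_exists, not_and] at hcon
    obtain ⟨⟨h1, h2⟩, h3⟩ := hcon
    have hsx : σ x ≠ x := Perm.mem_support.1 hx
    have hnew : insert x B ∈ (σ.support.powerset).filter (fun B => ∀ x ∈ B, σ x ∉ B) := by
      rw [Finset.mem_filter, Finset.mem_powerset]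
      refine ⟨Finset.insert_subset hx hBs, ?_⟩
      intro y hy hy2
      rw [Finset.mem_insert] at hy hy2
      rcases hy with rfl | hy
      · rcases hy2 with hy2 | hy2
        · exact hsx hy2
        · exact h3 _ hy2 (by simp)
      · rcases hy2 with hy2 | hy2
        · exact h2 y hy hy2
        · exact hB y hy hy2
    have := hBmax _ hnew
    rw [Finset.card_insert_of_notMem h1] at this
    omega
  have hcard : σ.support.card ≤ 3 * B.card := by
    calc σ.support.card ≤ (B ∪ B.image σ ∪ B.image (σ⁻¹ : Perm (Fin n))).card :=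
          Finset.card_le_card hcov
      _ ≤ (B ∪ B.image σ).card + (B.image (σ⁻¹ : Perm (Fin n))).card := Finset.card_union_le _ _
      _ ≤ (B.card + (B.image σ).card) + (B.image (σ⁻¹ : Perm (Fin n))).card :=
          Nat.add_le_add_right (Finset.card_union_le _ _) _
      _ ≤ (B.card + B.card) + B.card :=
          Nat.add_le_add (Nat.add_le_add_left Finset.card_image_le _) Finset.card_image_le
      _ = 3 * B.card := by ring
  have hNB : N ≤ B.card := by omega
  obtain ⟨C, hCB, hC⟩ := Finset.exists_subset_card_eq hNB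
  refine ⟨(C.orderEmbOfFin hC).toEmbedding, ?_⟩
  intro i j hij
  have hi : C.orderEmbOfFin hC i ∈ C := Finset.orderEmbOfFin_mem C hC i
  have hj : C.orderEmbOfFin hC j ∈ C := Finset.orderEmbOfFin_mem C hC j
  apply hB _ (hCB hi)
  have hij' : σ (C.orderEmbOfFin hC i) = C.orderEmbOfFin hC j := hij
  rw [hij']
  exact hCB hj

end Pool.MP322
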