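import Mathlib

/-! Abstract absolutely irreducible orthogonal representations of `Perm (Fin n)`. -/

set_option autoImplicit false

open Equiv Finset Nat

namespace Pool.MP322

/-- An (absolutely) irreducible orthogonal real representation of `Perm (Fin n)` in matrix form. -/
structure OIrr (n : ℕ) where
  ι : Type
  [fι : Fintype ι]
  [dι : DecidableEq ι]
  [ne : Nonempty ι]
  ρ : Perm (Fin n) →* Matrix ι ι ℝ
  orth : ∀ σ, (ρ σ).transpose = ρ σ⁻¹
  schur : ∀ A : Matrix ι ι ℝ, (∀ σ, A * ρ σ = ρ σ * A) → ∃ c : ℝ, A = c • (1 : Matrix ι ι ℝ)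

attribute [instance] OIrr.fι OIrr.dι OIrr.ne

variable {n : ℕ}

/-- dimension as a real number -/
noncomputable def OIrr.dim (V : OIrr n) : ℝ := (Fintype.card V.ι : ℝ)

/-- normalized character -/
noncomputable def OIrr.r (V : OIrr n) (σ : Perm (Fin n)) : ℝ := (V.ρ σ).trace / V.dim

/-- `phi V b b'` = normalized trace of the projection onto the invariants of the diagonal copy of
`S_N` in `Sym(range b) × Sym(range b')`. -/
noncomputable def OIrr.phi (V : OIrr n) {N : ℕ} (b b' : Fin N ↪ Fin n) : ℝ :=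
  (1 / (N ! : ℝ)) * ∑ k : Perm (Fin N), V.r (k.viaEmbedding b * k.viaEmbedding b')

/-- The star sums of transpositions have operator norm at most `A`. -/
def OIrr.StarBound (V : OIrr n) (A : ℝ) : Prop :=
  ∀ (y : Fin n) (J : Finset (Fin n)), y ∉ J → ∀ v : V.ι → ℝ,
    ((∑ j ∈ J, V.ρ (swap j y)).mulVec v) ⬝ᵥ ((∑ j ∈ J, V.ρ (swap j y)).mulVec v) ≤
      A ^ 2 * (v ⬝ᵥ v)

end Pool.MP322
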