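import Pool.Agent.Lib.MP_322c5f_al.BranchC

/-! job SQ-18: orthogonality relations and completeness. -/

set_option autoImplicit false

open Equiv Finset Nat

namespace Pool.MP322

/-- averaging a matrix over the group -/
private noncomputable def orAv {n : ℕ} (lam mu : Y n)
    (E : Matrix (Tab ⊥ lam.1 n) (Tab ⊥ mu.1 n) ℝ) : Matrix (Tab ⊥ lam.1 n) (Tab ⊥ mu.1 n) ℝ :=
  ∑ σ : Perm (Fin n), rep ⊥ lam.1 n σ * E * rep ⊥ mu.1 n σ⁻¹

private lemma orGen {α β : Type} [Fintype α] [Fintype β] [DecidableEq α] [DecidableEq β]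
    (T A : Matrix α α ℝ) (E : Matrix α β ℝ) (B S S' : Matrix β β ℝ) (h : S * S' = 1) :
    T * (A * E * B) = T * A * E * (B * S) * S' := by
  have h2 : B * S * S' = B := by rw [Matrix.mul_assoc, h, Matrix.mul_one]
  calc T * (A * E * B) = T * (A * E * (B * S * S')) := by rw [h2]
    _ = T * A * E * (B * S) * S' := by simp only [Matrix.mul_assoc]

private lemma orAv_comm {n : ℕ} (lam mu : Y n)
    (E : Matrix (Tab ⊥ lam.1 n) (Tab ⊥ mu.1 n) ℝ) (τ : Perm (Fin n)) :
    rep ⊥ lam.1 n τ * orAv lam mu E = orAv lam mu E * rep ⊥ mu.1 n τ := by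
  unfold orAv
  rw [Matrix.mul_sum, Matrix.sum_mul]
  refine Fintype.sum_equiv (Equiv.mulLeft τ) _ _ ?_
  intro σ
  rw [Equiv.coe_mulLeft, mul_inv_rev, map_mul, map_mul]
  have h1 : rep ⊥ mu.1 n τ⁻¹ * rep ⊥ mu.1 n τ = 1 := by
    rw [← map_mul, inv_mul_cancel, map_one]
  exact orGen _ _ _ _ _ _ h1

private lemma orEntry {α β : Type} [Fintype α] [Fintype β] [DecidableEq α] [DecidableEq β]
    (A : Matrix α α ℝ) (B : Matrix β β ℝ) (a b : α) (c d : β) :
    (A * Matrix.single b d (1 : ℝ) * B) a c = A a b * B d c := by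
  rw [Matrix.mul_apply, Finset.sum_eq_single d]
  · rw [Matrix.mul_apply, Finset.sum_eq_single b]
    · simp [Matrix.single]
    · intro x _ hx
      simp [Matrix.single, hx.symm]
    · intro h
      exact absurd (Finset.mem_univ _) h
  · intro x _ hx
    rw [Matrix.mul_apply, Finset.sum_eq_zero, zero_mul]
    intro y _
    simp [Matrix.single, hx.symm]
  · intro h
    exact absurd (Finset.mem_univ _) h

private lemma orAv_entry {n : ℕ} (lam mu : Y n) (a b : Tab ⊥ lam.1 n) (c d : Tab ⊥ mu.1 n) :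
    orAv lam mu (Matrix.single b d (1 : ℝ)) a c =
      ∑ σ : Perm (Fin n), rep ⊥ lam.1 n σ a b * rep ⊥ mu.1 n σ c d := by
  unfold orAv
  rw [Matrix.sum_apply]
  refine Finset.sum_congr rfl fun σ _ => ?_
  rw [orEntry, ← rep_transpose, Matrix.transpose_apply]

private lemma orAv_trace {n : ℕ} (lam : Y n) (E : Matrix (Tab ⊥ lam.1 n) (Tab ⊥ lam.1 n) ℝ) :
    (orAv lam lam E).trace = (n ! : ℝ) * E.trace := by
  unfold orAv
  rw [Matrix.trace_sum]
  have h : ∀ σ ∈ (Finset.univ : Finset (Perm (Fin n))),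
      (rep ⊥ lam.1 n σ * E * rep ⊥ lam.1 n σ⁻¹).trace = E.trace := by
    intro σ _
    rw [Matrix.trace_mul_comm, ← Matrix.mul_assoc, ← map_mul, inv_mul_cancel, map_one,
      Matrix.one_mul]
  rw [Finset.sum_congr rfl h, Finset.sum_const, nsmul_eq_mul, Finset.card_univ,
    Fintype.card_perm, Fintype.card_fin]

open Classical in
theorem schur_orth_same {n : ℕ} (lam : Y n) (a b c d : Tab ⊥ lam.1 n) :
    ∑ σ : Perm (Fin n), rep ⊥ lam.1 n σ a b * rep ⊥ lam.1 n σ c d =
      if a = c ∧ b = d then (n ! : ℝ) / fd lam else 0 := by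
  rw [← orAv_entry]
  obtain ⟨k, hk⟩ := schur_scalar lam (orAv lam lam (Matrix.single b d (1 : ℝ)))
    (fun τ => (orAv_comm lam lam _ τ).symm)
  have h1 := orAv_trace lam (Matrix.single b d (1 : ℝ))
  rw [hk, Matrix.trace_smul, Matrix.trace_one, smul_eq_mul] at h1
  have hf := fd_pos lam
  have h2 : k = (n ! : ℝ) * (Matrix.single b d (1 : ℝ)).trace / fd lam := by
    rw [eq_div_iff hf.ne']
    exact h1
  rw [hk, Matrix.smul_apply, smul_eq_mul]
  by_cases hac : a = c
  · subst hac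
    rw [Matrix.one_apply_eq, mul_one, h2]
    by_cases hbd : b = d
    · subst hbd
      simp
    · rw [if_neg (fun h => hbd h.2), Matrix.trace_single_eq_of_ne _ _ _ hbd]
      simp
  · rw [Matrix.one_apply_ne hac, mul_zero, if_neg (fun h => hac h.1)]

theorem schur_orth_ne {n : ℕ} (lam mu : Y n) (h : lam ≠ mu) (a b : Tab ⊥ lam.1 n)
    (c d : Tab ⊥ mu.1 n) :
    ∑ σ : Perm (Fin n), rep ⊥ lam.1 n σ a b * rep ⊥ mu.1 n σ c d = 0 := by
  rw [← orAv_entry, schur_zero lam mu h _ (fun τ => orAv_comm lam mu _ τ)]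
  rfl

/-- the matrix coefficients as one family -/
private noncomputable def orFam {n : ℕ}
    (s : Σ lam : Y n, (Tab ⊥ lam.1 n) × (Tab ⊥ lam.1 n)) : Perm (Fin n) → ℝ :=
  fun σ => rep ⊥ s.1.1 n σ s.2.1 s.2.2

private lemma orFam_ne {n : ℕ} (s t : Σ lam : Y n, (Tab ⊥ lam.1 n) × (Tab ⊥ lam.1 n))
    (h : s ≠ t) : ∑ σ, orFam s σ * orFam t σ = 0 := by
  obtain ⟨lam, a, b⟩ := s
  obtain ⟨mu, c, d⟩ := t
  by_cases hl : lam = mu
  · subst hl
    unfold orFam
    simp only
    rw [schur_orth_same, if_neg]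
    rintro ⟨rfl, rfl⟩
    exact h rfl
  · exact schur_orth_ne lam mu hl a b c d

private lemma orFam_self {n : ℕ} (s : Σ lam : Y n, (Tab ⊥ lam.1 n) × (Tab ⊥ lam.1 n)) :
    ∑ σ, orFam s σ * orFam s σ ≠ 0 := by
  obtain ⟨lam, a, b⟩ := s
  unfold orFam
  simp only
  rw [schur_orth_same, if_pos ⟨rfl, rfl⟩]
  have h1 := fd_pos lam
  have h2 : (0 : ℝ) < (n ! : ℝ) := by exact_mod_cast Nat.factorial_pos n
  positivity

private lemma orFam_indep (n : ℕ) : LinearIndependent ℝ
    (orFam : (Σ lam : Y n, (Tab ⊥ lam.1 n) × (Tab ⊥ lam.1 n)) → (Perm (Fin n) → ℝ)) := by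
  rw [Fintype.linearIndependent_iff]
  intro g hg s
  have h1 : ∑ σ, (∑ t, g t • orFam t) σ * orFam s σ = 0 := by
    rw [hg]
    simp
  have h2 : ∑ σ, (∑ t, g t • orFam t) σ * orFam s σ
      = ∑ t, g t * ∑ σ, orFam t σ * orFam s σ := by
    simp only [Finset.sum_apply, Pi.smul_apply, smul_eq_mul, Finset.sum_mul, Finset.mul_sum]
    rw [Finset.sum_comm]
    refine Finset.sum_congr rfl fun t _ => Finset.sum_congr rfl fun σ _ => ?_
    ring
  rw [h2, Finset.sum_eq_single s] at h1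
  · rcases mul_eq_zero.mp h1 with h | h
    · exact h
    · exact absurd h (orFam_self s)
  · intro t _ ht
    rw [orFam_ne t s ht, mul_zero]
  · intro h
    exact absurd (Finset.mem_univ _) h

private lemma orFam_card (n : ℕ) :
    Fintype.card (Σ lam : Y n, (Tab ⊥ lam.1 n) × (Tab ⊥ lam.1 n)) =
      Module.finrank ℝ (Perm (Fin n) → ℝ) := by
  rw [Module.finrank_fintype_fun_eq_card, Fintype.card_sigma, Fintype.card_perm,
    Fintype.card_fin]
  have h := sum_sq n
  unfold fd at h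
  have h2 : ((∑ lam : Y n, Fintype.card (Tab ⊥ lam.1 n × Tab ⊥ lam.1 n) : ℕ) : ℝ)
      = (n ! : ℝ) := by
    rw [← h]
    push_cast
    refine Finset.sum_congr rfl fun lam _ => ?_
    rw [Fintype.card_prod]
    push_cast
    ring
  exact_mod_cast h2

/-- completeness of the matrix coefficients. -/
theorem coeff_complete {n : ℕ} (F : Perm (Fin n) → ℝ)
    (h : ∀ (lam : Y n) (a b : Tab ⊥ lam.1 n), ∑ σ, F σ * rep ⊥ lam.1 n σ a b = 0) : F = 0 := by
  have hspan := (orFam_indep n).span_eq_top_of_card_eq_finrank' (orFam_card n)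
  have key : ∀ G : Perm (Fin n) → ℝ, ∑ σ, F σ * G σ = 0 := by
    intro G
    have hG : G ∈ Submodule.span ℝ (Set.range
        (orFam : (Σ lam : Y n, (Tab ⊥ lam.1 n) × (Tab ⊥ lam.1 n)) → (Perm (Fin n) → ℝ))) := by
      rw [hspan]
      exact Submodule.mem_top
    induction hG using Submodule.span_induction with
    | mem x hx =>
      obtain ⟨s, rfl⟩ := hx
      exact h s.1 s.2.1 s.2.2
    | zero => simp
    | add x y _ _ hx hy =>
      simp only [Pi.add_apply, mul_add, Finset.sum_add_distrib]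
      rw [hx, hy, add_zero]
    | smul c x _ hx =>
      simp only [Pi.smul_apply, smul_eq_mul]
      have : ∀ σ ∈ (Finset.univ : Finset (Perm (Fin n))), F σ * (c * x σ) = c * (F σ * x σ) :=
        fun σ _ => by ring
      rw [Finset.sum_congr rfl this, ← Finset.mul_sum, hx, mul_zero]
  have h0 := key F
  funext σ
  have h1 := (Finset.sum_eq_zero_iff_of_nonneg (fun τ _ => mul_self_nonneg (F τ))).mp h0 σ
    (Finset.mem_univ _)
  simpa using h1

end Pool.MP322
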