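import Pool.Agent.Lib.MP_322c5f_al.GlueB
import Pool.Agent.Lib.MP_322c5f_al.JM

/-! job SQ-23: vectors fixed by the symmetric group of the first `m` letters. -/

set_option autoImplicit false

open Equiv Finset

namespace Pool.MP322

private theorem row_card_gen (m : ℕ) (nu : YoungDiagram) (h : ∀ c ∈ nu, c.2 < m) :
    (addRow m nu).card = m + nu.card := by
  have hf : nu.cells.filter (fun c => c.2 < m) = nu.cells := by
    apply Finset.filter_true_of_mem
    intro c hc
    exact h c ((YoungDiagram.mem_cells _).1 hc)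
  show ((Finset.range m).image (fun j => ((0, j) : ℕ × ℕ)) ∪
    (nu.cells.filter (fun c => c.2 < m)).image (fun c => (c.1 + 1, c.2))).card = m + nu.cells.card
  rw [hf, Finset.card_union_of_disjoint, Finset.card_image_of_injective,
    Finset.card_image_of_injective, Finset.card_range]
  · intro a b hab
    have h1 := congrArg Prod.fst hab
    have h2 := congrArg Prod.snd hab
    simp only at h1 h2
    exact Prod.ext (by omega) h2
  · intro a b hab
    exact congrArg Prod.snd hab
  · rw [Finset.disjoint_left]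
    intro c hc hc'
    obtain ⟨j, -, rfl⟩ := Finset.mem_image.1 hc
    obtain ⟨d, -, hd⟩ := Finset.mem_image.1 hc'
    have := congrArg Prod.fst hd
    simp at this

private theorem row_col_lt {k : ℕ} (nu : YoungDiagram) (hk : nu.card = k) (c : ℕ × ℕ)
    (hc : c ∈ nu) : c.2 < k := by
  have hsub : (Finset.range (c.2 + 1)).image (fun i => ((c.1, i) : ℕ × ℕ)) ⊆ nu.cells := by
    intro d hd
    obtain ⟨i, hi, rfl⟩ := Finset.mem_image.1 hd
    rw [Finset.mem_range] at hi
    exact (YoungDiagram.mem_cells _).2 (nu.up_left_mem le_rfl (by omega) (show (c.1, c.2) ∈ nu from hc))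
  have h1 := Finset.card_le_card hsub
  rw [Finset.card_image_of_injective _ (fun a b h => congrArg Prod.snd h), Finset.card_range] at h1
  have h2 : nu.cells.card = k := hk
  omega

theorem card_addRow {m k : ℕ} (hkm : k ≤ m) (nu : Y k) : (addRow m nu.1).card = m + k := by
  rw [row_card_gen m nu.1 (fun c hc => lt_of_lt_of_le (row_col_lt nu.1 nu.2 c hc) hkm), nu.2]

/-- the diagram with a first row of length `m` above `nu`. -/
def addRowY {m k : ℕ} (hkm : k ≤ m) (nu : Y k) : Y (m + k) :=
  ⟨addRow m nu.1, card_addRow hkm nu⟩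

/-- remove the first row. -/
private def dropRow (mu : YoungDiagram) : YoungDiagram where
  cells := (mu.cells.filter (fun c => 1 ≤ c.1)).image (fun c => (c.1 - 1, c.2))
  isLowerSet := by
    intro a b hab ha
    rw [Finset.mem_coe, Finset.mem_image] at ha ⊢
    obtain ⟨c, hc, rfl⟩ := ha
    rw [Finset.mem_filter] at hc
    obtain ⟨hc1, hc2⟩ := hc
    have h1 : b.1 ≤ c.1 - 1 := hab.1
    have h2 : b.2 ≤ c.2 := hab.2
    refine ⟨(b.1 + 1, b.2), ?_, ?_⟩
    · rw [Finset.mem_filter]
      refine ⟨?_, by simp⟩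
      rw [YoungDiagram.mem_cells] at hc1 ⊢
      exact mu.up_left_mem (by omega) h2 (show (c.1, c.2) ∈ mu from hc1)
    · exact Prod.ext (by simp) rfl

private theorem mem_dropRow {mu : YoungDiagram} {c : ℕ × ℕ} :
    c ∈ dropRow mu ↔ (c.1 + 1, c.2) ∈ mu := by
  rw [← YoungDiagram.mem_cells]
  show c ∈ (mu.cells.filter (fun c => 1 ≤ c.1)).image (fun c => (c.1 - 1, c.2)) ↔ _
  rw [Finset.mem_image]
  constructor
  · rintro ⟨d, hd, rfl⟩
    rw [Finset.mem_filter, YoungDiagram.mem_cells] at hd
    have h1 : ((d.1 - 1 + 1, d.2) : ℕ × ℕ) = d := Prod.ext (by simp; omega) rfl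
    simp only
    rw [h1]
    exact hd.1
  · intro h
    refine ⟨(c.1 + 1, c.2), ?_, Prod.ext (by simp) rfl⟩
    rw [Finset.mem_filter, YoungDiagram.mem_cells]
    exact ⟨h, by simp⟩

theorem eq_addRow {m k : ℕ} (hkm : k ≤ m) (mu : Y (m + k)) (h : mu.1.rowLen 0 = m) :
    ∃ nu : Y k, mu = addRowY hkm nu := by
  have hlt : ∀ i j, (i, j) ∈ mu.1 → j < m := by
    intro i j hij
    rw [YoungDiagram.mem_iff_lt_rowLen] at hij
    have := mu.1.rowLen_anti 0 i (Nat.zero_le _)
    omega
  have heq : mu.1 = addRow m (dropRow mu.1) := by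
    apply SetLike.ext
    intro c
    rw [mem_addRow]
    constructor
    · intro hc
      refine ⟨hlt c.1 c.2 hc, ?_⟩
      rcases Nat.eq_zero_or_pos c.1 with h0 | h0
      · exact Or.inl h0
      · right
        refine ⟨c.1 - 1, by omega, ?_⟩
        rw [mem_dropRow]
        have h1 : ((c.1 - 1 + 1, c.2) : ℕ × ℕ) = c := Prod.ext (by simp; omega) rfl
        simp only
        rw [h1]
        exact hc
    · rintro ⟨h1, h2 | ⟨i, hi, h3⟩⟩
      · have h4 : c = (0, c.2) := Prod.ext h2 rfl
        rw [h4, YoungDiagram.mem_iff_lt_rowLen, h]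
        exact h1
      · rw [mem_dropRow] at h3
        have h4 : c = (i + 1, c.2) := Prod.ext hi rfl
        rw [h4]
        exact h3
  have hcard : (dropRow mu.1).card = k := by
    have h1 := row_card_gen m (dropRow mu.1) (by
      intro c hc
      rw [mem_dropRow] at hc
      exact hlt _ _ hc)
    rw [← heq, mu.2] at h1
    omega
  exact ⟨⟨dropRow mu.1, hcard⟩, Subtype.ext heq⟩

private theorem iL_cast (m k : ℕ) (σ : Perm (Fin m)) (a : Fin m) :
    iL m k σ (Fin.castAdd k a) = Fin.castAdd k (σ a) :=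
  Equiv.Perm.viaEmbedding_apply σ (Fin.castAddEmb k) a

private theorem iL_nat (m k : ℕ) (σ : Perm (Fin m)) (b : Fin k) :
    iL m k σ (Fin.natAdd m b) = Fin.natAdd m b := by
  apply Equiv.Perm.viaEmbedding_apply_of_notMem σ (Fin.castAddEmb k)
  rintro ⟨a, ha⟩
  have := congrArg Fin.val ha
  simp at this
  omega

private theorem iL_swap (m k : ℕ) (a b : Fin m) :
    iL m k (swap a b) = swap (Fin.castAdd k a) (Fin.castAdd k b) := by
  ext x
  refine Fin.addCases (fun c => ?_) (fun c => ?_) x
  · rw [iL_cast]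
    by_cases h1 : c = a
    · subst h1
      rw [swap_apply_left, swap_apply_left]
    · by_cases h2 : c = b
      · subst h2
        rw [swap_apply_right, swap_apply_right]
      · rw [swap_apply_of_ne_of_ne h1 h2, swap_apply_of_ne_of_ne]
        · exact fun h => h1 (Fin.castAdd_injective m k h)
        · exact fun h => h2 (Fin.castAdd_injective m k h)
  · rw [iL_nat, swap_apply_of_ne_of_ne]
    · intro h
      have := congrArg Fin.val h
      simp at this
      omega
    · intro h
      have := congrArg Fin.val h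
      simp at this
      omega

private theorem fixed_ct {lam : YoungDiagram} {m k : ℕ} (v : Tab ⊥ lam (m + k) → ℝ)
    (hv : ∀ σ : Perm (Fin m), (rep ⊥ lam (m + k) (iL m k σ)).mulVec v = v)
    (x : Tab ⊥ lam (m + k)) (hx : v x ≠ 0) (i : Fin m) :
    ct (x.1 (Fin.castAdd k i)) = (i : ℕ) := by
  have h1 := jm_diag lam (m + k) (Fin.castAdd k i)
  have h2 : (∑ j ∈ Finset.univ.filter (fun j : Fin (m + k) => j < Fin.castAdd k i),
      rep ⊥ lam (m + k) (swap j (Fin.castAdd k i))).mulVec v x =
      (Matrix.diagonal (fun x : Tab ⊥ lam (m + k) =>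
        ((ct (x.1 (Fin.castAdd k i)) : ℤ) : ℝ))).mulVec v x := by rw [h1]
  rw [Matrix.mulVec_diagonal, Matrix.sum_mulVec, Finset.sum_apply] at h2
  have h3 : ∀ j ∈ Finset.univ.filter (fun j : Fin (m + k) => j < Fin.castAdd k i),
      (rep ⊥ lam (m + k) (swap j (Fin.castAdd k i))).mulVec v x = v x := by
    intro j hj
    have hj' : j.val < i.val := (Finset.mem_filter.1 hj).2
    have him := i.2
    have h4 : j = Fin.castAdd k ⟨j.val, by omega⟩ := Fin.ext rfl
    rw [h4, ← iL_swap, hv]
  rw [Finset.sum_congr rfl h3, Finset.sum_const, nsmul_eq_mul] at h2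
  have h5 : (Finset.univ.filter (fun j : Fin (m + k) => j < Fin.castAdd k i)).card = i.val := by
    have h6 : Finset.univ.filter (fun j : Fin (m + k) => j < Fin.castAdd k i) =
        Finset.Iio (Fin.castAdd k i) := by
      ext j
      simp
    rw [h6, Fin.card_Iio]
    rfl
  rw [h5] at h2
  have h6 := mul_right_cancel₀ hx h2
  have h7 : ((i.val : ℤ) : ℝ) = ((ct (x.1 (Fin.castAdd k i)) : ℤ) : ℝ) := by
    rw [← h6]
    push_cast
    rfl
  exact (Int.cast_injective h7).symm

theorem fixed_support {lam : YoungDiagram} {m k : ℕ} (v : Tab ⊥ lam (m + k) → ℝ)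
    (hv : ∀ σ : Perm (Fin m), (rep ⊥ lam (m + k) (iL m k σ)).mulVec v = v)
    (x : Tab ⊥ lam (m + k)) (hx : v x ≠ 0) (i : Fin m) : x.1 (Fin.castAdd k i) = (0, (i : ℕ)) := by
  have h1 := fixed_ct v hv x hx i
  set c := x.1 (Fin.castAdd k i) with hc
  have h2 : ((0, c.2) : ℕ × ℕ) ≤ c := ⟨Nat.zero_le _, le_rfl⟩
  unfold ct at h1
  rcases x.2.2.2.2 (Fin.castAdd k i) (0, c.2) h2 with h | ⟨j, hj, hjc⟩
  · exact absurd h (YoungDiagram.notMem_bot _)
  · have hj' : j.val ≤ i.val := hj
    have him := i.2
    have h4 : j = Fin.castAdd k ⟨j.val, by omega⟩ := Fin.ext rfl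
    have h5 := fixed_ct v hv x hx ⟨j.val, by omega⟩
    rw [← h4, hjc] at h5
    unfold ct at h5
    simp only at h5
    exact Prod.ext (by simp only; omega) (by simp only; omega)

theorem fixed_rowLen {lam : YoungDiagram} {m k : ℕ} (v : Tab ⊥ lam (m + k) → ℝ)
    (hv : ∀ σ : Perm (Fin m), (rep ⊥ lam (m + k) (iL m k σ)).mulVec v = v) (h0 : v ≠ 0) :
    m ≤ lam.rowLen 0 := by
  obtain ⟨x, hx⟩ := Function.ne_iff.1 h0
  rcases Nat.eq_zero_or_pos m with hm | hm
  · omega
  · have h1 := fixed_support v hv x hx ⟨m - 1, by omega⟩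
    have h2 : ((0, m - 1) : ℕ × ℕ) ∈ lam := by
      rw [x.2.2.2.1]
      exact Or.inr ⟨_, h1⟩
    rw [YoungDiagram.mem_iff_lt_rowLen] at h2
    omega

/-! ### existence of fixed vectors -/

private theorem low_move {n : ℕ} (P : Perm (Fin n) → Prop) (one : P 1)
    (mul : ∀ σ τ, P σ → P τ → P (σ * τ)) (j : ℕ)
    (hs : ∀ i (h : i + 1 < n), i + 1 < j → P (sw i h)) :
    ∀ d p (hp : p + d < n), p + d < j → ∃ w : Perm (Fin n), P w ∧
      w ⟨p, by omega⟩ = ⟨p + d, hp⟩ ∧ ∀ i : Fin n, p + d < i.val → w i = i := by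
  intro d
  induction d with
  | zero => intro p hp _; exact ⟨1, one, rfl, fun i _ => rfl⟩
  | succ d ih =>
    intro p hp hpj
    obtain ⟨w, hw, hw1, hw2⟩ := ih p (by omega) (by omega)
    refine ⟨sw (p + d) (by omega) * w, mul _ _ (hs _ _ (by omega)) hw, ?_, ?_⟩
    · rw [Equiv.Perm.mul_apply, hw1]
      unfold sw
      exact swap_apply_left _ _
    · intro i hi
      rw [Equiv.Perm.mul_apply, hw2 i (by omega)]
      unfold sw
      apply swap_apply_of_ne_of_ne
      · intro h
        have := congrArg Fin.val h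
        simp only at this
        omega
      · intro h
        have := congrArg Fin.val h
        simp only at this
        omega

private theorem low_induction {n : ℕ} (P : Perm (Fin n) → Prop) (one : P 1)
    (mul : ∀ σ τ, P σ → P τ → P (σ * τ)) (inv : ∀ σ, P σ → P σ⁻¹) :
    ∀ j : ℕ, (∀ i (h : i + 1 < n), i + 1 < j → P (sw i h)) →
      ∀ σ : Perm (Fin n), (∀ i : Fin n, j ≤ (i : ℕ) → σ i = i) → P σ := by
  intro j
  induction j with
  | zero =>
    intro _ σ hσ
    have : σ = 1 := Equiv.ext fun i => hσ i (Nat.zero_le _)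
    rw [this]
    exact one
  | succ j ih =>
    intro hs σ hσ
    have ih' := ih (fun i h hij => hs i h (by omega))
    by_cases hjn : j < n
    · have hle : (σ ⟨j, hjn⟩).val ≤ j := by
        by_contra hcon
        have h1 := hσ (σ ⟨j, hjn⟩) (by omega)
        have h2 := σ.injective h1
        rw [h2] at hcon
        simp at hcon
      obtain ⟨w, hw, hw1, hw2⟩ := low_move P one mul (j + 1) hs (j - (σ ⟨j, hjn⟩).val)
        (σ ⟨j, hjn⟩).val (by omega) (by omega)
      have hwσ : P (w * σ) := by
        apply ih'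
        intro i hi
        rw [Equiv.Perm.mul_apply]
        rcases Nat.eq_or_lt_of_le hi with h | h
        · have hi' : i = ⟨j, hjn⟩ := Fin.ext h.symm
          rw [hi']
          have h3 : (⟨(σ ⟨j, hjn⟩).val, by omega⟩ : Fin n) = σ ⟨j, hjn⟩ := Fin.ext rfl
          rw [← h3, hw1]
          apply Fin.ext
          simp only
          omega
        · rw [hσ i (by omega), hw2 i (by omega)]
      have h4 : σ = w⁻¹ * (w * σ) := by group
      rw [h4]
      exact mul _ _ (inv _ hw) hwσ
    · apply ih'
      intro i hi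
      have := i.2
      omega

private theorem row_fill : ∀ (n : ℕ) (j : ℕ) (mu : YoungDiagram), mu.card = n →
    j ≤ mu.rowLen 0 → ∃ x : Tab ⊥ mu n, ∀ i : Fin n, i.val < j → x.1 i = (0, i.val) := by
  intro n
  induction n with
  | zero =>
    intro j mu hmu _
    obtain ⟨x⟩ := tab_nonempty (⟨mu, hmu⟩ : Y 0)
    exact ⟨x, fun i => i.elim0⟩
  | succ n ih =>
    intro j mu hmu hj
    have hmem : ∀ i, i < j → ((0, i) : ℕ × ℕ) ∈ mu := by
      intro i hi
      rw [YoungDiagram.mem_iff_lt_rowLen]
      omega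
    have hsub : (Finset.range j).image (fun i => ((0, i) : ℕ × ℕ)) ⊆ mu.cells := by
      intro d hd
      obtain ⟨i, hi, rfl⟩ := Finset.mem_image.1 hd
      rw [Finset.mem_range] at hi
      exact (YoungDiagram.mem_cells _).2 (hmem i hi)
    have hcardj : ((Finset.range j).image (fun i => ((0, i) : ℕ × ℕ))).card = j := by
      rw [Finset.card_image_of_injective _ (fun a b h => congrArg Prod.snd h), Finset.card_range]
    have hmu' : mu.cells.card = n + 1 := hmu
    have hjn : j ≤ n + 1 := by
      have := Finset.card_le_card hsub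
      omega
    rcases Nat.eq_or_lt_of_le hjn with heq | hlt
    · -- the diagram is a row
      have hcells : (Finset.range j).image (fun i => ((0, i) : ℕ × ℕ)) = mu.cells :=
        Finset.eq_of_subset_of_card_le hsub (by omega)
      have hiff : ∀ c, c ∈ mu ↔ c.1 = 0 ∧ c.2 < j := by
        intro c
        rw [← YoungDiagram.mem_cells, ← hcells, Finset.mem_image]
        constructor
        · rintro ⟨i, hi, rfl⟩
          exact ⟨rfl, Finset.mem_range.1 hi⟩
        · rintro ⟨h1, h2⟩
          exact ⟨c.2, Finset.mem_range.2 h2, Prod.ext h1.symm rfl⟩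
      refine ⟨⟨fun i => (0, i.val), ?_, ?_, ?_, ?_⟩, fun i _ => rfl⟩
      · intro a b hab
        exact Fin.ext (congrArg Prod.snd hab)
      · intro i
        exact YoungDiagram.notMem_bot _
      · intro c
        rw [hiff]
        constructor
        · rintro ⟨h1, h2⟩
          exact Or.inr ⟨⟨c.2, by omega⟩, Prod.ext h1.symm rfl⟩
        · rintro (h | ⟨i, hi⟩)
          · exact absurd h (YoungDiagram.notMem_bot _)
          · have := i.2
            rw [← hi]
            exact ⟨rfl, by simp only; omega⟩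
      · intro i c hc
        right
        have h1 : c.1 ≤ 0 := hc.1
        have h2 : c.2 ≤ i.val := hc.2
        have := i.2
        refine ⟨⟨c.2, by omega⟩, h2, Prod.ext (by simp only; omega) rfl⟩
    · -- remove a maximal cell
      have hne : (mu.cells \ (Finset.range j).image (fun i => ((0, i) : ℕ × ℕ))).Nonempty := by
        rw [← Finset.card_pos, Finset.card_sdiff_of_subset hsub]
        omega
      obtain ⟨c, hc, hcm⟩ := Finset.exists_max_image _ (fun c => c.1 + c.2) hne
      rw [Finset.mem_sdiff] at hc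
      obtain ⟨hc1, hc2⟩ := hc
      have hcβ : c ∈ mu := (YoungDiagram.mem_cells _).1 hc1
      have hmax : ∀ d ∈ mu, c ≤ d → d = c := by
        intro d hd hcd
        have h2 := hcd.1
        have h3 := hcd.2
        have hd2 : d ∉ (Finset.range j).image (fun i => ((0, i) : ℕ × ℕ)) := by
          intro hd2
          obtain ⟨i, hi, rfl⟩ := Finset.mem_image.1 hd2
          apply hc2
          rw [Finset.mem_image]
          rw [Finset.mem_range] at hi
          simp only at h2 h3
          exact ⟨c.2, Finset.mem_range.2 (by omega), Prod.ext (by simp only; omega) rfl⟩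
        have h1 := hcm d (Finset.mem_sdiff.2 ⟨(YoungDiagram.mem_cells _).2 hd, hd2⟩)
        refine Prod.ext ?_ ?_
        · omega
        · omega
      have hcard : (TabB.eraseCell mu c hmax).card = n := by
        show (mu.cells.erase c).card = n
        rw [Finset.card_erase_of_mem hc1]
        omega
      have hrow : j ≤ (TabB.eraseCell mu c hmax).rowLen 0 := by
        by_contra hcon
        push Not at hcon
        have h1 : ((0, (TabB.eraseCell mu c hmax).rowLen 0) : ℕ × ℕ) ∈
            TabB.eraseCell mu c hmax := by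
          rw [TabB.mem_eraseCell]
          refine ⟨?_, hmem _ hcon⟩
          intro he
          apply hc2
          rw [Finset.mem_image]
          exact ⟨_, Finset.mem_range.2 hcon, he⟩
        rw [YoungDiagram.mem_iff_lt_rowLen] at h1
        omega
      obtain ⟨a, ha⟩ := ih j _ hcard hrow
      refine ⟨⟨_, TabB.snoc_isTab hcβ (YoungDiagram.notMem_bot _) a.2⟩, ?_⟩
      intro i hi
      have h1 : i = Fin.castSucc (⟨i.val, by omega⟩ : Fin n) := Fin.ext rfl
      show (Fin.snoc a.1 c : Fin (n + 1) → ℕ × ℕ) i = _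
      rw [h1, Fin.snoc_castSucc, ha _ hi]
      rfl

/-- conversely there is a nonzero fixed vector when the first row has at least `j` cells. -/
theorem exists_fixed {n j : ℕ} (mu : Y n) (h : j ≤ mu.1.rowLen 0) :
    ∃ v : Tab ⊥ mu.1 n → ℝ, v ≠ 0 ∧ ∀ σ : Perm (Fin n),
      (∀ i : Fin n, j ≤ (i : ℕ) → σ i = i) → (rep ⊥ mu.1 n σ).mulVec v = v := by
  classical
  obtain ⟨x, hx⟩ := row_fill n j mu.1 mu.2 h
  refine ⟨Pi.single x 1, ?_, ?_⟩
  · intro h0
    have := congrFun h0 x
    simp at this
  · apply low_induction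
    · rw [map_one, Matrix.one_mulVec]
    · intro σ τ hσ hτ
      rw [map_mul, ← Matrix.mulVec_mulVec, hτ, hσ]
    · intro σ hσ
      have h1 : (rep ⊥ mu.1 n σ⁻¹).mulVec ((rep ⊥ mu.1 n σ).mulVec (Pi.single x 1)) =
          Pi.single x 1 := by
        rw [Matrix.mulVec_mulVec, ← map_mul, inv_mul_cancel, map_one, Matrix.one_mulVec]
      rw [hσ] at h1
      exact h1
    · intro i hi hij
      rw [rep_sw]
      have hyx : yd x.1 i hi = 1 := by
        unfold yd
        rw [hx ⟨i + 1, hi⟩ hij, hx ⟨i, by omega⟩ (by simp only; omega)]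
        unfold ct
        simp
      funext y
      rw [Matrix.mulVec_single_one]
      by_cases hxy : x = y
      · subst hxy
        rw [Matrix.col_apply, Pi.single_eq_same, YMBaux.yM_diag, hyx]
      · rw [Matrix.col_apply, Pi.single_eq_of_ne (Ne.symm hxy)]
        by_cases h2 : x.1 = y.1 ∘ sw i hi
        · rw [YMBaux.yM_off i hi y x hxy h2]
          have h3 : yd y.1 i hi = -1 := by
            have h4 := yd_sw y.1 i hi
            rw [← h2, hyx] at h4
            linarith
          rw [h3]
          simp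
        · exact YMBaux.yM_zero i hi y x hxy h2

end Pool.MP322
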