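import Pool.Agent.Lib.MP_322c5f_al.Irr
import Pool.Agent.Lib.MP_322c5f_al.JM
import Pool.Agent.Lib.MP_322c5f_al.Row

/-! Power sums of contents. -/

set_option autoImplicit false

open Equiv Finset

namespace Pool.MP322

/-- power sum of the contents. -/
noncomputable def pw {n : ℕ} (mu : Y n) (j : ℕ) : ℝ := ∑ c ∈ mu.1.cells, ((ct c : ℤ) : ℝ) ^ j

/-- the Jucys-Murphy element of the letter `i`. -/
noncomputable def JMel {n : ℕ} (mu : Y n) (i : Fin n) :
    Matrix (Tab ⊥ mu.1 n) (Tab ⊥ mu.1 n) ℝ :=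
  ∑ a ∈ Finset.univ.filter (fun a => a < i), rep ⊥ mu.1 n (swap a i)

end Pool.MP322
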