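import Pool.Agent.Lib.MP_322c5f_al.Pow

/-! job SQ-43: traces of powers of Jucys-Murphy elements. -/

set_option autoImplicit false

open Equiv Finset

namespace Pool.MP322

theorem jmel_pow {n : ℕ} (mu : Y n) (i : Fin n) (j : ℕ) :
    (JMel mu i ^ j).trace = ∑ x : Tab ⊥ mu.1 n, ((ct (x.1 i) : ℤ) : ℝ) ^ j := by
  unfold JMel
  rw [jm_diag, Matrix.diagonal_pow, Matrix.trace_diagonal]
  rfl

theorem sum_tab_cells {n : ℕ} (mu : Y n) (x : Tab ⊥ mu.1 n) (f : ℕ × ℕ → ℝ) :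
    ∑ i : Fin n, f (x.1 i) = ∑ c ∈ mu.1.cells, f c := by
  refine Finset.sum_bij (fun i _ => x.1 i) ?_ ?_ ?_ ?_
  · intro i _
    exact (YoungDiagram.mem_cells _).2 ((x.2.2.2.1 _).2 (Or.inr ⟨i, rfl⟩))
  · intro i _ j _ h
    exact x.2.1 h
  · intro c hc
    rcases (x.2.2.2.1 c).1 ((YoungDiagram.mem_cells _).1 hc) with h | ⟨i, hi⟩
    · exact absurd h (YoungDiagram.notMem_bot _)
    · exact ⟨i, Finset.mem_univ _, hi⟩
  · intro i _
    rfl

theorem jm_trace_sum {n : ℕ} (mu : Y n) (j : ℕ) :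
    ∑ i : Fin n, (JMel mu i ^ j).trace = fd mu * pw mu j := by
  have h1 : ∀ i : Fin n, (JMel mu i ^ j).trace =
      ∑ x : Tab ⊥ mu.1 n, ((ct (x.1 i) : ℤ) : ℝ) ^ j := fun i => jmel_pow mu i j
  rw [Finset.sum_congr rfl (fun i _ => h1 i), Finset.sum_comm]
  have h2 : ∀ x : Tab ⊥ mu.1 n, ∑ i : Fin n, ((ct (x.1 i) : ℤ) : ℝ) ^ j = pw mu j := by
    intro x
    exact sum_tab_cells mu x (fun c => ((ct c : ℤ) : ℝ) ^ j)
  rw [Finset.sum_congr rfl (fun x _ => h2 x), Finset.sum_const, Finset.card_univ, nsmul_eq_mul]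
  rfl

theorem jm_trace_le {n : ℕ} (mu : Y n) (A : ℝ) (hA : ∀ c ∈ mu.1, |((ct c : ℤ) : ℝ)| ≤ A)
    (i : Fin n) (j : ℕ) : |(JMel mu i ^ j).trace| ≤ fd mu * A ^ j := by
  rw [jmel_pow]
  refine le_trans (Finset.abs_sum_le_sum_abs _ _) ?_
  have h1 : ∀ x ∈ (Finset.univ : Finset (Tab ⊥ mu.1 n)), |((ct (x.1 i) : ℤ) : ℝ) ^ j| ≤ A ^ j := by
    intro x _
    rw [abs_pow]
    exact pow_le_pow_left₀ (abs_nonneg _) (hA _ ((x.2.2.2.1 _).2 (Or.inr ⟨i, rfl⟩))) j
  refine le_trans (Finset.sum_le_sum h1) ?_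
  rw [Finset.sum_const, Finset.card_univ, nsmul_eq_mul]
  exact le_rfl

theorem pw_even {n : ℕ} (mu : Y n) (j : ℕ) (hj : Even j) : 0 ≤ pw mu j := by
  unfold pw
  exact Finset.sum_nonneg fun c _ => hj.pow_nonneg _

theorem exists_row_tab {n : ℕ} (mu : Y n) : ∃ x : Tab ⊥ mu.1 n,
    ∀ i : Fin n, (i : ℕ) < mu.1.rowLen 0 → x.1 i = (0, (i : ℕ)) := by
  obtain ⟨v, hv0, hv⟩ := exists_fixed mu (le_refl (mu.1.rowLen 0))
  have hrn : mu.1.rowLen 0 ≤ n := by
    have h1 : mu.1.rowLen 0 = (mu.1.row 0).card := mu.1.rowLen_eq_card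
    have h2 : (mu.1.row 0).card ≤ mu.1.cells.card := Finset.card_le_card (Finset.filter_subset _ _)
    have h3 : mu.1.cells.card = n := mu.2
    omega
  obtain ⟨x, hx⟩ : ∃ x, v x ≠ 0 := by
    by_contra hcon
    push Not at hcon
    exact hv0 (funext hcon)
  refine ⟨x, ?_⟩
  obtain ⟨r, hr⟩ : ∃ r, r = mu.1.rowLen 0 := ⟨_, rfl⟩
  rw [← hr] at hv hrn ⊢
  obtain ⟨k, rfl⟩ : ∃ k, n = r + k := ⟨n - r, by omega⟩
  intro i hi
  have hfix := fixed_support (lam := mu.1) (m := r) (k := k) v (fun σ => hv _ (by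
    intro i' hi'
    have e : iL r k σ = σ.viaEmbedding (Fin.castAddEmb k) := rfl
    rw [e]
    apply Equiv.Perm.viaEmbedding_apply_of_notMem
    rintro ⟨j, hj⟩
    have : (i' : ℕ) = (j : ℕ) := by rw [← hj]; rfl
    omega)) x hx ⟨i, hi⟩
  have e : Fin.castAdd k (⟨(i : ℕ), hi⟩ : Fin r) = i := Fin.ext rfl
  rw [e] at hfix
  exact hfix

theorem sum_fin_split {n r : ℕ} (h : r ≤ n) (f : ℕ → ℝ) :
    ∑ i : Fin n, f i = ∑ i ∈ Finset.range r, f i + ∑ i ∈ Finset.range (n - r), f (r + i) := by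
  rw [Fin.sum_univ_eq_sum_range, ← Finset.sum_range_add_sum_Ico f h,
    Finset.sum_Ico_eq_sum_range]

theorem pw_ge {n : ℕ} (mu : Y n) (j : ℕ) (hj : 1 ≤ j) (h : n ≤ 2 * mu.1.rowLen 0) :
    -((n : ℝ) / 2) ^ j ≤ pw mu j := by
  obtain ⟨x, hx⟩ := exists_row_tab mu
  have hrn : mu.1.rowLen 0 ≤ n := by
    have h1 : mu.1.rowLen 0 = (mu.1.row 0).card := mu.1.rowLen_eq_card
    have h2 : (mu.1.row 0).card ≤ mu.1.cells.card := Finset.card_le_card (Finset.filter_subset _ _)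
    have h3 : mu.1.cells.card = n := mu.2
    omega
  obtain ⟨r, hr⟩ : ∃ r, r = mu.1.rowLen 0 := ⟨_, rfl⟩
  rw [← hr] at hx h hrn
  have hpw : pw mu j = ∑ i : Fin n, ((ct (x.1 i) : ℤ) : ℝ) ^ j :=
    (sum_tab_cells mu x (fun c => ((ct c : ℤ) : ℝ) ^ j)).symm
  -- row index of the later cells
  have hrow : ∀ i : Fin n, r ≤ (i : ℕ) → (x.1 i).1 ≤ (i : ℕ) + 1 - r := by
    intro i hi
    obtain ⟨a, b, hab⟩ : ∃ a b, x.1 i = (a, b) := ⟨_, _, rfl⟩
    rw [hab]
    simp only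
    -- cells (1,0), ..., (a,0)
    have hc : ∀ t : ℕ, ∃ l : Fin n, t < a → l ≤ i ∧ x.1 l = (t + 1, 0) := by
      intro t
      by_cases ht : t < a
      swap
      · exact ⟨i, fun h => absurd h ht⟩
      suffices hsuf : ∃ l : Fin n, l ≤ i ∧ x.1 l = (t + 1, 0) by
        obtain ⟨l, hl⟩ := hsuf
        exact ⟨l, fun _ => hl⟩
      have hle : ((t + 1, 0) : ℕ × ℕ) ≤ x.1 i := by
        rw [hab]
        exact ⟨ht, Nat.zero_le _⟩
      rcases x.2.2.2.2 i _ hle with h | h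
      · exact absurd h (YoungDiagram.notMem_bot _)
      · exact h
    choose l hl using hc
    have hl1 : ∀ t, t < a → l t ≤ i := fun t ht => (hl t ht).1
    have hl2 : ∀ t, t < a → x.1 (l t) = (t + 1, 0) := fun t ht => (hl t ht).2
    have hinj : Set.InjOn l (Finset.range a : Set ℕ) := by
      intro s hs t ht hst
      have h1 := hl2 s (by simpa using hs)
      have h2 := hl2 t (by simpa using ht)
      rw [hst, h2] at h1
      have := (Prod.mk.injEq _ _ _ _).mp h1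
      omega
    have hmem : ∀ t ∈ Finset.range a, l t ∈ (Finset.univ.filter
        (fun q : Fin n => r ≤ (q : ℕ) ∧ (q : ℕ) ≤ (i : ℕ))) := by
      intro t ht
      rw [Finset.mem_range] at ht
      rw [Finset.mem_filter]
      refine ⟨Finset.mem_univ _, ?_, hl1 t ht⟩
      by_contra hcon
      push Not at hcon
      have h1 := hx (l t) hcon
      rw [hl2 t ht] at h1
      have := (Prod.mk.injEq _ _ _ _).mp h1
      omega
    have hcard := Finset.card_le_card_of_injOn l hmem hinj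
    rw [Finset.card_range] at hcard
    have hcard2 : (Finset.univ.filter
        (fun q : Fin n => r ≤ (q : ℕ) ∧ (q : ℕ) ≤ (i : ℕ))).card ≤ (Finset.Icc r (i : ℕ)).card := by
      refine Finset.card_le_card_of_injOn (fun q : Fin n => (q : ℕ)) ?_ ?_
      · intro q hq
        have hq' := (Finset.mem_filter.1 (Finset.mem_coe.1 hq)).2
        exact Finset.mem_coe.2 (Finset.mem_Icc.2 hq')
      · intro q _ q' _ hqq
        exact Fin.ext hqq
    rw [Nat.card_Icc] at hcard2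
    omega
  have hterm : ∀ i : Fin n, (if (i : ℕ) < r then ((i : ℕ) : ℝ) ^ j else
      -(((i : ℕ) + 1 - r : ℕ) : ℝ) ^ j) ≤ ((ct (x.1 i) : ℤ) : ℝ) ^ j := by
    intro i
    split_ifs with hi
    · rw [hx i hi]
      unfold ct
      simp
    · push Not at hi
      have h1 := hrow i hi
      have h2 : (-((((i : ℕ) + 1 - r : ℕ) : ℤ)) : ℤ) ≤ ct (x.1 i) := by
        unfold ct
        omega
      have h3 : -(((((i : ℕ) + 1 - r : ℕ) : ℤ)) : ℝ) ≤ ((ct (x.1 i) : ℤ) : ℝ) := by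
        exact_mod_cast h2
      rcases le_or_gt 0 ((ct (x.1 i) : ℤ) : ℝ) with h4 | h4
      · have : (0 : ℝ) ≤ ((((i : ℕ) + 1 - r : ℕ)) : ℝ) ^ j := by positivity
        linarith [pow_nonneg h4 j]
      · have h5 : |((ct (x.1 i) : ℤ) : ℝ)| ≤ ((((i : ℕ) + 1 - r : ℕ)) : ℝ) := by
          rw [abs_of_neg h4]
          push_cast at h3 ⊢
          linarith
        have h6 := pow_le_pow_left₀ (abs_nonneg _) h5 j
        have h7 := neg_abs_le (((ct (x.1 i) : ℤ) : ℝ) ^ j)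
        rw [abs_pow] at h7
        linarith
  rw [hpw]
  refine le_trans ?_ (Finset.sum_le_sum fun i _ => hterm i)
  have hs := sum_fin_split (r := r) hrn (fun i : ℕ => (if (i : ℕ) < r then ((i : ℕ) : ℝ) ^ j else
      -(((i : ℕ) + 1 - r : ℕ) : ℝ) ^ j))
  rw [hs]
  have e1 : ∑ i ∈ Finset.range r, (if (i : ℕ) < r then ((i : ℕ) : ℝ) ^ j else
      -(((i : ℕ) + 1 - r : ℕ) : ℝ) ^ j) = ∑ i ∈ Finset.range r, ((i : ℕ) : ℝ) ^ j := by
    apply Finset.sum_congr rfl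
    intro i hi
    rw [Finset.mem_range] at hi
    rw [if_pos hi]
  have e2 : ∑ i ∈ Finset.range (n - r), (if (r + i : ℕ) < r then ((r + i : ℕ) : ℝ) ^ j else
      -(((r + i : ℕ) + 1 - r : ℕ) : ℝ) ^ j) = -∑ i ∈ Finset.range (n - r), ((i + 1 : ℕ) : ℝ) ^ j := by
    rw [← Finset.sum_neg_distrib]
    apply Finset.sum_congr rfl
    intro i _
    rw [if_neg (by omega)]
    congr 3
    omega
  rw [e1, e2]
  -- shift
  have e3 : ∑ i ∈ Finset.range (n - r), ((i + 1 : ℕ) : ℝ) ^ j =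
      ∑ i ∈ Finset.range (n - r + 1), ((i : ℕ) : ℝ) ^ j := by
    rw [Finset.sum_range_succ' (fun i : ℕ => ((i : ℕ) : ℝ) ^ j)]
    simp [show j ≠ 0 by omega]
  rw [e3]
  rcases Nat.lt_or_ge (n - r) r with hlt | hge
  · have hsub : ∑ i ∈ Finset.range (n - r + 1), ((i : ℕ) : ℝ) ^ j ≤
        ∑ i ∈ Finset.range r, ((i : ℕ) : ℝ) ^ j := by
      apply Finset.sum_le_sum_of_subset_of_nonneg
      · intro i hi
        rw [Finset.mem_range] at hi ⊢
        omega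
      · intro i _ _
        positivity
    have : (0 : ℝ) ≤ ((n : ℝ) / 2) ^ j := by positivity
    linarith
  · have hnr : n - r = r := by omega
    rw [hnr, Finset.sum_range_succ]
    have hn2 : (n : ℝ) / 2 = r := by
      have : n = 2 * r := by omega
      rw [this]
      push_cast
      ring
    rw [hn2]
    linarith

end Pool.MP322
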