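import Pool.Agent.Lib.MP_322c5f_al.PowA

/-! job SQ-44: characters of single cycles and powers of Jucys-Murphy elements. -/

set_option autoImplicit false

open Equiv Finset Nat

namespace Pool.MP322

/-- the product of the transpositions `(a i)` over a list of distinct letters is a cycle. -/
private theorem pb_list {n : ℕ} (i : Fin n) : ∀ l : List (Fin n), (i :: l).Nodup →
    (l.map (fun a => swap a i)).prod = List.formPerm (i :: l.reverse) := by
  intro l
  induction l with
  | nil => intro _; simp
  | cons a l ih =>
    intro h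
    rw [List.nodup_cons, List.mem_cons, List.nodup_cons, not_or] at h
    obtain ⟨⟨h1, h2⟩, h3, h4⟩ := h
    have h5 : (i :: l).Nodup := List.nodup_cons.2 ⟨h2, h4⟩
    have h6 : (a :: i :: l.reverse).Nodup := by
      rw [List.nodup_cons, List.mem_cons, List.mem_reverse, not_or, List.nodup_cons,
        List.mem_reverse, List.nodup_reverse]
      exact ⟨⟨fun h => h1 h.symm, h3⟩, h2, h4⟩
    rw [List.map_cons, List.prod_cons, ih h5, ← List.formPerm_cons_cons,
      ← List.formPerm_rotate_one _ h6]
    congr 1
    simp

private theorem pb_cycleType {n : ℕ} (i : Fin n) (l : List (Fin n)) (h : (i :: l).Nodup)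
    (hl : 1 ≤ l.length) :
    ((l.map (fun a => swap a i)).prod).cycleType = {l.length + 1} := by
  have h6 : (i :: l.reverse).Nodup := by
    rw [List.nodup_cons] at h ⊢
    rw [List.mem_reverse, List.nodup_reverse]
    exact h
  have hlen : (i :: l.reverse).length = l.length + 1 := by simp
  rw [pb_list i l h, (List.isCycle_formPerm h6 (by omega)).cycleType,
    List.support_formPerm_of_nodup _ h6 (by
      intro x hx
      have := congrArg List.length hx
      rw [hlen, List.length_singleton] at this
      omega), List.toFinset_card_of_nodup h6, hlen]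

/-- expansion of a power of a sum in a noncommutative ring. -/
private theorem pb_sum_pow {S M : Type*} [Fintype S] [Ring M] (R : S → M) (j : ℕ) :
    (∑ a, R a) ^ j = ∑ f : Fin j → S, (List.ofFn (fun t => R (f t))).prod := by
  induction j with
  | zero => simp
  | succ j ih =>
    rw [_root_.pow_succ', ih, Finset.sum_mul_sum, ← Fintype.sum_prod_type']
    refine Fintype.sum_equiv (Fin.consEquiv (fun _ => S)) _ _ ?_
    rintro ⟨a, f⟩
    rw [List.ofFn_succ, List.prod_cons]
    rfl

open Classical in
/-- comparison of a sum over all functions with the sum over the injective ones. -/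
private theorem pb_bound {S : Type} [Fintype S] (j d : ℕ) (hS : Fintype.card S = d)
    (F : (Fin j → S) → ℝ) (B X : ℝ) (hinj : ∀ f, Function.Injective f → F f = X)
    (hB : ∀ f, |F f| ≤ B) :
    |∑ f, F f - (d.descFactorial j : ℝ) * X| ≤ B * ((d : ℝ) ^ j - (d.descFactorial j : ℝ)) := by
  have hcardinj : (Finset.univ.filter (fun f : Fin j → S => Function.Injective f)).card =
      d.descFactorial j := by
    have e1 : Fintype.card (Fin j ↪ S) = d.descFactorial j := by
      rw [Fintype.card_embedding_eq, hS, Fintype.card_fin]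
    rw [← e1, ← Fintype.card_congr (Equiv.subtypeInjectiveEquivEmbedding (Fin j) S),
      Fintype.card_subtype]
  have hcardall : Fintype.card (Fin j → S) = d ^ j := by
    rw [Fintype.card_fun, hS, Fintype.card_fin]
  have hsplit := Finset.card_filter_add_card_filter_not (s := (Finset.univ : Finset
      (Fin j → S))) (fun f => Function.Injective f)
  rw [hcardinj, Finset.card_univ, hcardall] at hsplit
  have hsplit' : ((Finset.univ.filter (fun f : Fin j → S =>
        ¬ Function.Injective f)).card : ℝ) = (d : ℝ) ^ j - (d.descFactorial j : ℝ) := by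
    have : ((d.descFactorial j + (Finset.univ.filter (fun f : Fin j → S =>
        ¬ Function.Injective f)).card : ℕ) : ℝ) = ((d ^ j : ℕ) : ℝ) := by
      rw [hsplit]
    push_cast at this
    linarith
  rw [← Finset.sum_filter_add_sum_filter_not Finset.univ
    (fun f : Fin j → S => Function.Injective f)]
  rw [Finset.sum_congr rfl (fun f hf => hinj f (Finset.mem_filter.1 hf).2), Finset.sum_const,
    hcardinj, nsmul_eq_mul, add_sub_cancel_left]
  refine (Finset.abs_sum_le_sum_abs _ _).trans ?_
  refine (Finset.sum_le_sum fun f _ => hB f).trans ?_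
  rw [Finset.sum_const, nsmul_eq_mul, hsplit', mul_comm]

private theorem pb_expand {n : ℕ} (mu : Y n) (j : ℕ) (i : Fin n) (s : Finset (Fin n)) :
    ((∑ a ∈ s, rep ⊥ mu.1 n (swap a i)) ^ j).trace =
      ∑ f : Fin j → s, chi mu (List.ofFn (fun t => swap (f t).1 i)).prod := by
  rw [← Finset.sum_coe_sort s (fun a => rep ⊥ mu.1 n (swap a i)), pb_sum_pow, Matrix.trace_sum]
  refine Finset.sum_congr rfl fun f _ => ?_
  unfold chi
  rw [map_list_prod, List.map_ofFn]
  rfl

private theorem pb_inj {n : ℕ} (mu : Y n) (j : ℕ) (hj : 1 ≤ j) (i : Fin n) (s : Finset (Fin n))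
    (hs : i ∉ s) (σ : Perm (Fin n)) (hσ : σ.cycleType = {j + 1}) (f : Fin j → s)
    (hf : Function.Injective f) :
    chi mu (List.ofFn (fun t => swap (f t).1 i)).prod = chi mu σ := by
  apply chi_type
  rw [hσ]
  have e1 : (List.ofFn (fun t => swap (f t).1 i)).prod =
      ((List.ofFn (fun t => (f t).1)).map (fun a => swap a i)).prod := by
    rw [List.map_ofFn]
    rfl
  have e2 : (i :: List.ofFn (fun t => (f t).1)).Nodup := by
    rw [List.nodup_cons]
    constructor
    · rw [List.mem_ofFn]
      rintro ⟨t, ht⟩
      exact hs (ht ▸ (f t).2)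
    · exact List.nodup_ofFn_ofInjective (fun a b hab => hf (Subtype.ext hab))
  rw [e1, pb_cycleType i _ e2 (by rw [List.length_ofFn]; exact hj), List.length_ofFn]

/-- expansion of the `j`-th power of the Jucys-Murphy element of the letter `i`: the
`i.descFactorial j` injective sequences give `(j+1)`-cycles. -/
theorem jm_pow_approx {n : ℕ} (mu : Y n) (j : ℕ) (hj : 1 ≤ j) (i : Fin n) (σ : Perm (Fin n))
    (hσ : σ.cycleType = {j + 1}) :
    |(JMel mu i ^ j).trace - ((i : ℕ).descFactorial j : ℝ) * chi mu σ| ≤
      fd mu * (((i : ℕ) : ℝ) ^ j - ((i : ℕ).descFactorial j : ℝ)) := by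
  have hIio : Finset.univ.filter (fun a : Fin n => a < i) = Finset.Iio i := by
    ext a; simp
  unfold JMel
  rw [hIio, pb_expand]
  refine pb_bound (S := (Finset.Iio i : Finset (Fin n))) j i ?_ _ (fd mu) (chi mu σ) ?_ ?_
  · rw [Fintype.card_coe, Fin.card_Iio]
  · intro f hf
    exact pb_inj mu j hj i _ (by simp) σ hσ f hf
  · intro f
    exact abs_chi_le mu _

end Pool.MP322
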