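import Pool.Agent.Lib.MP_322c5f_al.PowB

/-! job SQ-45: characters of single cycles. -/

set_option autoImplicit false

open Equiv Finset Nat

namespace Pool.MP322

private theorem sum_descFactorial (j n : ℕ) :
    (j + 1) * ∑ i ∈ Finset.range n, i.descFactorial j = n.descFactorial (j + 1) := by
  induction n with
  | zero => simp
  | succ n ih =>
    rw [Finset.sum_range_succ, mul_add, ih, Nat.succ_descFactorial_succ, Nat.descFactorial_succ]
    rcases le_or_gt j n with h | h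
    · obtain ⟨k, rfl⟩ := Nat.exists_eq_add_of_le h
      rw [Nat.add_sub_cancel_left]
      ring
    · rw [Nat.descFactorial_of_lt h]
      simp

private theorem bern (j n : ℕ) : n ^ (j + 1) + (j + 1) * n ^ j ≤ (n + 1) ^ (j + 1) := by
  induction j with
  | zero => simp
  | succ j ih =>
    calc n ^ (j + 1 + 1) + (j + 1 + 1) * n ^ (j + 1)
        ≤ n ^ (j + 1 + 1) + (j + 1 + 1) * n ^ (j + 1) + (j + 1) * n ^ j := Nat.le_add_right _ _
      _ = (n + 1) * (n ^ (j + 1) + (j + 1) * n ^ j) := by ring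
      _ ≤ (n + 1) * (n + 1) ^ (j + 1) := Nat.mul_le_mul_left _ ih
      _ = (n + 1) ^ (j + 1 + 1) := by ring

private theorem sum_pow_le (j n : ℕ) :
    (j + 1) * ∑ i ∈ Finset.range n, i ^ j ≤ n ^ (j + 1) := by
  induction n with
  | zero => simp
  | succ n ih =>
    rw [Finset.sum_range_succ, mul_add]
    exact le_trans (Nat.add_le_add_right ih _) (bern j n)

private theorem pow_le_desc (j n : ℕ) :
    2 * n ^ (j + 1) ≤ 2 * n.descFactorial (j + 1) + j * (j + 1) * n ^ j := by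
  induction j with
  | zero => simp
  | succ j ih =>
    have h1 : n * n.descFactorial (j + 1) ≤
        n.descFactorial (j + 1 + 1) + (j + 1) * n.descFactorial (j + 1) := by
      rw [Nat.descFactorial_succ n (j + 1)]
      rcases le_or_gt (j + 1) n with h | h
      · obtain ⟨k, rfl⟩ := Nat.exists_eq_add_of_le h
        rw [Nat.add_sub_cancel_left, ← add_mul, add_comm k]
      · rw [Nat.descFactorial_of_lt h]
        simp
    have h2 : n.descFactorial (j + 1) ≤ n ^ (j + 1) := Nat.descFactorial_le_pow _ _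
    calc 2 * n ^ (j + 1 + 1) = n * (2 * n ^ (j + 1)) := by ring
      _ ≤ n * (2 * n.descFactorial (j + 1) + j * (j + 1) * n ^ j) := Nat.mul_le_mul_left _ ih
      _ = 2 * (n * n.descFactorial (j + 1)) + j * (j + 1) * n ^ (j + 1) := by ring
      _ ≤ 2 * (n.descFactorial (j + 1 + 1) + (j + 1) * n ^ (j + 1)) +
          j * (j + 1) * n ^ (j + 1) := by
            refine Nat.add_le_add_right (Nat.mul_le_mul_left _ (le_trans h1 ?_)) _
            exact Nat.add_le_add_left (Nat.mul_le_mul_left _ h2) _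
      _ = 2 * n.descFactorial (j + 1 + 1) + (j + 1) * (j + 1 + 1) * n ^ (j + 1) := by ring

private theorem cyc_le {n : ℕ} (j : ℕ) (σ : Perm (Fin n)) (hσ : σ.cycleType = {j + 1}) :
    j + 1 ≤ n := by
  have h1 := σ.sum_cycleType
  rw [hσ, Multiset.sum_singleton] at h1
  have h2 := σ.support.card_le_univ
  rw [Fintype.card_fin] at h2
  omega

private theorem abs_r_le' {n : ℕ} (mu : Y n) (σ : Perm (Fin n)) : |chi mu σ / fd mu| ≤ 1 := by
  rw [abs_div, abs_of_pos (fd_pos mu), div_le_one (fd_pos mu)]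
  exact abs_chi_le mu σ

theorem powB {n : ℕ} (mu : Y n) (j : ℕ) (hj : 1 ≤ j) (σ : Perm (Fin n))
    (hσ : σ.cycleType = {j + 1}) :
    |chi mu σ / fd mu - ((j : ℝ) + 1) / (n : ℝ) ^ (j + 1) * pw mu j| ≤
      (j : ℝ) * ((j : ℝ) + 1) / n := by
  have hn := cyc_le j σ hσ
  have hn0 : (0 : ℝ) < n := by
    have : 0 < n := by omega
    exact_mod_cast this
  have hf := fd_pos mu
  set r : ℝ := chi mu σ / fd mu with hr
  have hr1 : |r| ≤ 1 := abs_r_le' mu σ
  have hc : chi mu σ = fd mu * r := by rw [hr]; field_simp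
  set D : ℝ := ∑ i : Fin n, ((i : ℕ).descFactorial j : ℝ) with hD
  set S : ℝ := ∑ i : Fin n, ((i : ℕ) : ℝ) ^ j with hS
  have h1 : |fd mu * pw mu j - D * chi mu σ| ≤ fd mu * (S - D) := by
    rw [← jm_trace_sum mu j, hD, hS, Finset.sum_mul, ← Finset.sum_sub_distrib,
      ← Finset.sum_sub_distrib, Finset.mul_sum]
    refine le_trans (Finset.abs_sum_le_sum_abs _ _) ?_
    apply Finset.sum_le_sum
    intro i _
    exact jm_pow_approx mu j hj i σ hσ
  have h2 : |pw mu j - D * r| ≤ S - D := by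
    rw [hc] at h1
    have e : fd mu * pw mu j - D * (fd mu * r) = fd mu * (pw mu j - D * r) := by ring
    rw [e, abs_mul, abs_of_pos hf] at h1
    exact le_of_mul_le_mul_left h1 hf
  set E : ℝ := (n.descFactorial (j + 1) : ℝ) with hE
  set N : ℝ := (n : ℝ) ^ (j + 1) with hN
  have hK : (0 : ℝ) < (j : ℝ) + 1 := by positivity
  have h3 : ((j : ℝ) + 1) * D = E := by
    rw [hD, hE, ← sum_descFactorial j n, Fin.sum_univ_eq_sum_range (fun i => (i.descFactorial j : ℝ)) n]
    push_cast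
    rfl
  have h4 : ((j : ℝ) + 1) * S ≤ N := by
    have := sum_pow_le j n
    rw [hS, hN, Fin.sum_univ_eq_sum_range (fun i => (i : ℝ) ^ j) n]
    exact_mod_cast this
  have h5 : E ≤ N := by
    rw [hE, hN]
    exact_mod_cast Nat.descFactorial_le_pow n (j + 1)
  have h6 : 2 * (N - E) ≤ (j : ℝ) * ((j : ℝ) + 1) * (n : ℝ) ^ j := by
    have := pow_le_desc j n
    have h : (2 : ℝ) * (n : ℝ) ^ (j + 1) ≤ 2 * (n.descFactorial (j + 1) : ℝ) +
        (j : ℝ) * ((j : ℝ) + 1) * (n : ℝ) ^ j := by exact_mod_cast this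
    rw [hN, hE]
    linarith
  have h7 : |((j : ℝ) + 1) * pw mu j - E * r| ≤ N - E := by
    have e : ((j : ℝ) + 1) * pw mu j - E * r = ((j : ℝ) + 1) * (pw mu j - D * r) := by
      rw [← h3]; ring
    rw [e, abs_mul, abs_of_pos hK]
    calc ((j : ℝ) + 1) * |pw mu j - D * r| ≤ ((j : ℝ) + 1) * (S - D) :=
          mul_le_mul_of_nonneg_left h2 hK.le
      _ ≤ N - E := by rw [mul_sub, h3]; linarith
  have h8 : |N * r - ((j : ℝ) + 1) * pw mu j| ≤ 2 * (N - E) := by
    have e : N * r - ((j : ℝ) + 1) * pw mu j =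
        (N - E) * r - (((j : ℝ) + 1) * pw mu j - E * r) := by ring
    rw [e]
    refine le_trans (abs_sub _ _) ?_
    have : |(N - E) * r| ≤ N - E := by
      rw [abs_mul, abs_of_nonneg (by linarith : 0 ≤ N - E)]
      calc (N - E) * |r| ≤ (N - E) * 1 := mul_le_mul_of_nonneg_left hr1 (by linarith)
        _ = N - E := mul_one _
    linarith
  have hNpos : 0 < N := by rw [hN]; positivity
  have e : r - ((j : ℝ) + 1) / N * pw mu j = (N * r - ((j : ℝ) + 1) * pw mu j) / N := by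
    field_simp
  rw [e, abs_div, abs_of_pos hNpos, div_le_div_iff₀ hNpos hn0]
  calc |N * r - ((j : ℝ) + 1) * pw mu j| * n ≤ ((j : ℝ) * ((j : ℝ) + 1) * (n : ℝ) ^ j) * n :=
        mul_le_mul_of_nonneg_right (le_trans h8 h6) hn0.le
    _ = (j : ℝ) * ((j : ℝ) + 1) * N := by rw [hN]; ring

theorem powC {n : ℕ} (mu : Y n) (hmu : ∀ c ∈ mu.1, |((ct c : ℤ) : ℝ)| ≤ (n : ℝ) / 2) (j : ℕ)
    (hj : 1 ≤ j) (σ : Perm (Fin n)) (hσ : σ.cycleType = {j + 1}) :
    |chi mu σ / fd mu| ≤ (1 / 2) ^ j + (j : ℝ) * ((j : ℝ) + 1) / n := by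
  have hn := cyc_le j σ hσ
  have hn0' : 0 < n := by omega
  have hn0 : (0 : ℝ) < n := by exact_mod_cast hn0'
  have hf := fd_pos mu
  set r : ℝ := chi mu σ / fd mu with hr
  have hr1 : |r| ≤ 1 := abs_r_le' mu σ
  have hc : chi mu σ = fd mu * r := by rw [hr]; field_simp
  obtain ⟨m, rfl⟩ : ∃ m, n = m + 1 := ⟨n - 1, by omega⟩
  have h1 := jm_trace_le mu (((m + 1 : ℕ) : ℝ) / 2) hmu (Fin.last m) j
  have h2 := jm_pow_approx mu j hj (Fin.last m) σ hσ
  rw [Fin.val_last, hc] at h2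
  set T : ℝ := (JMel mu (Fin.last m) ^ j).trace with hT
  set F : ℝ := (m.descFactorial j : ℝ) with hF
  set N : ℝ := ((m + 1 : ℕ) : ℝ) ^ j with hN
  set M : ℝ := (m : ℝ) ^ j with hM
  have hF0 : 0 ≤ F := by rw [hF]; positivity
  have hMN : M ≤ N := by
    rw [hM, hN]
    apply pow_le_pow_left₀ (by positivity)
    push_cast
    linarith
  have hFM : F ≤ M := by
    rw [hF, hM]
    exact_mod_cast Nat.descFactorial_le_pow m j
  have h3 : F * |r| ≤ (((m + 1 : ℕ) : ℝ) / 2) ^ j + (M - F) := by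
    have : fd mu * (F * |r|) ≤ fd mu * ((((m + 1 : ℕ) : ℝ) / 2) ^ j + (M - F)) := by
      have e : fd mu * (F * |r|) = |F * (fd mu * r)| := by
        rw [abs_mul, abs_mul, abs_of_pos hf, abs_of_nonneg hF0]; ring
      rw [e, mul_add]
      have e2 : F * (fd mu * r) = T - (T - F * (fd mu * r)) := by ring
      rw [e2]
      refine le_trans (abs_sub _ _) ?_
      linarith
    exact le_of_mul_le_mul_left this hf
  have h6 : 2 * (N - F) * ((m + 1 : ℕ) : ℝ) ≤ (j : ℝ) * ((j : ℝ) + 1) * N := by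
    have := pow_le_desc j (m + 1)
    rw [Nat.succ_descFactorial_succ] at this
    have h : (2 : ℝ) * (((m + 1 : ℕ) : ℝ)) ^ (j + 1) ≤
        2 * (((m + 1 : ℕ) : ℝ) * (m.descFactorial j : ℝ)) +
        (j : ℝ) * ((j : ℝ) + 1) * (((m + 1 : ℕ) : ℝ)) ^ j := by exact_mod_cast this
    rw [hN, hF]
    rw [pow_succ] at h
    linarith
  have h7 : N * |r| ≤ (((m + 1 : ℕ) : ℝ) / 2) ^ j + 2 * (N - F) := by
    have : (N - F) * |r| ≤ (N - F) * 1 := mul_le_mul_of_nonneg_left hr1 (by linarith)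
    have e : N * |r| = F * |r| + (N - F) * |r| := by ring
    rw [e]
    linarith
  have hNpos : 0 < N := by rw [hN]; positivity
  have h8 : N * |r| ≤ N * ((1 / 2) ^ j + (j : ℝ) * ((j : ℝ) + 1) / ((m + 1 : ℕ) : ℝ)) := by
    refine le_trans h7 ?_
    rw [mul_add]
    have e1 : (((m + 1 : ℕ) : ℝ) / 2) ^ j = N * (1 / 2) ^ j := by
      rw [hN, div_eq_mul_one_div, mul_pow]
    have e2 : 2 * (N - F) ≤ N * ((j : ℝ) * ((j : ℝ) + 1) / ((m + 1 : ℕ) : ℝ)) := by
      rw [← mul_div_assoc, le_div_iff₀ hn0]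
      linarith
    linarith
  exact le_of_mul_le_mul_left h8 hNpos

end Pool.MP322
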