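import Pool.Agent.Lib.MP_322c5f_al.Defs

/-! job HS-1: Coxeter presentation of the symmetric group (existence of the homomorphism). -/

set_option autoImplicit false

open Equiv Finset

namespace Pool.MP322

/-- Every permutation is a product of adjacent transpositions. -/
theorem perm_induction {n : ℕ} {P : Perm (Fin n) → Prop} (one : P 1)
    (mul : ∀ i (h : i + 1 < n) (σ : Perm (Fin n)), P σ → P (sw i h * σ)) (σ : Perm (Fin n)) :
    P σ := by
  cases n with
  | zero =>
    have : σ = 1 := Subsingleton.elim _ _
    rw [this]; exact one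
  | succ m =>
    have hmem : σ ∈ Submonoid.closure (Set.range fun i : Fin m ↦ swap i.castSucc i.succ) := by
      rw [Equiv.Perm.mclosure_swap_castSucc_succ]; trivial
    induction hmem using Submonoid.closure_induction_left with
    | one => exact one
    | mul_left x hx y _ ih =>
      obtain ⟨i, rfl⟩ := hx
      exact mul i.1 (by have := i.2; omega) y ih

/-- the Coxeter relations for `T 0, ..., T (n-2)` -/
structure CRel {M : Type*} [Monoid M] (n : ℕ) (T : ℕ → M) : Prop where
  r1 : ∀ i, i + 1 < n → T i * T i = 1
  r2 : ∀ i j, i + 1 < n → j + 1 < n → i + 1 < j → T i * T j = T j * T i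
  r3 : ∀ i, i + 1 + 1 < n → T i * T (i + 1) * T i = T (i + 1) * T i * T (i + 1)

/-- `T (j+k-1) * ... * T j` -/
def descP {M : Type*} [Monoid M] (T : ℕ → M) : ℕ → ℕ → M
  | _, 0 => 1
  | j, k + 1 => descP T (j + 1) k * T j

theorem descP_comm {M : Type*} [Monoid M] {n : ℕ} {T : ℕ → M} (hT : CRel n T) (k : ℕ) :
    ∀ i j, i + 1 < j → j + k < n → descP T j k * T i = T i * descP T j k := by
  induction k with
  | zero => intro i j _ _; simp [descP]
  | succ k ih =>
    intro i j hij hn
    simp only [descP]
    rw [mul_assoc, ← hT.r2 i j (by omega) (by omega) hij, ← mul_assoc,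
      ih i (j + 1) (by omega) (by omega), mul_assoc]

theorem descP_shift {M : Type*} [Monoid M] {n : ℕ} {T : ℕ → M} (hT : CRel n T) (k : ℕ) :
    ∀ i j, j < i → i < j + k → j + k < n → descP T j k * T i = T (i - 1) * descP T j k := by
  induction k with
  | zero => intro i j h1 h2 _; omega
  | succ k ih =>
    intro i j h1 h2 hn
    rcases Nat.lt_or_ge (j + 1) i with h3 | h3
    · simp only [descP]
      rw [mul_assoc, hT.r2 j i (by omega) (by omega) h3, ← mul_assoc,
        ih i (j + 1) h3 (by omega) (by omega), mul_assoc]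
    · have hi : i = j + 1 := by omega
      subst hi
      cases k with
      | zero => omega
      | succ k =>
        simp only [descP, Nat.add_sub_cancel]
        have e := hT.r3 j (by omega)
        have e2 := descP_comm hT k j (j + 1 + 1) (by omega) (by omega)
        calc descP T (j + 1 + 1) k * T (j + 1) * T j * T (j + 1)
            = descP T (j + 1 + 1) k * (T (j + 1) * T j * T (j + 1)) := by simp only [mul_assoc]
          _ = descP T (j + 1 + 1) k * (T j * T (j + 1) * T j) := by rw [e]
          _ = (descP T (j + 1 + 1) k * T j) * (T (j + 1) * T j) := by simp only [mul_assoc]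
          _ = (T j * descP T (j + 1 + 1) k) * (T (j + 1) * T j) := by rw [e2]
          _ = T j * (descP T (j + 1 + 1) k * T (j + 1) * T j) := by simp only [mul_assoc]

/-- normal form -/
theorem normal_form {M : Type*} [Monoid M] {n : ℕ} {T : ℕ → M} (hT : CRel (n + 1) T)
    (l : List ℕ) (hl : ∀ i ∈ l, i + 1 < n + 1) :
    ∃ (l0 : List ℕ) (j k : ℕ), (∀ i ∈ l0, i + 1 < n) ∧ j + k = n ∧
      (l.map T).prod = (l0.map T).prod * descP T j k := by
  induction l using List.reverseRecOn with
  | nil => exact ⟨[], n, 0, by simp, by omega, by simp [descP]⟩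
  | append_singleton l i ih =>
    have hi : i + 1 < n + 1 := hl i (by simp)
    obtain ⟨l0, j, k, h1, h2, h3⟩ := ih (fun a ha => hl a (by simp [ha]))
    have hsum : ((l ++ [i]).map T).prod = (l0.map T).prod * (descP T j k * T i) := by
      rw [List.map_append, List.prod_append, h3, mul_assoc]; simp
    rcases Nat.lt_trichotomy i j with hij | hij | hij
    · rcases Nat.lt_or_ge (i + 1) j with h4 | h4
      · refine ⟨l0 ++ [i], j, k, ?_, h2, ?_⟩
        · intro a ha
          rw [List.mem_append, List.mem_singleton] at ha
          rcases ha with ha | ha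
          · exact h1 a ha
          · omega
        · rw [hsum, descP_comm hT k i j h4 (by omega), List.map_append, List.prod_append]
          simp [mul_assoc]
      · have hj : j = i + 1 := by omega
        subst hj
        refine ⟨l0, i, k + 1, h1, by omega, ?_⟩
        rw [hsum]; simp only [descP]
    · subst hij
      cases k with
      | zero => omega
      | succ k =>
        refine ⟨l0, i + 1, k, h1, by omega, ?_⟩
        rw [hsum]
        simp only [descP]
        rw [mul_assoc (descP T (i + 1) k), hT.r1 i (by omega), mul_one]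
    · refine ⟨l0 ++ [i - 1], j, k, ?_, h2, ?_⟩
      · intro a ha
        rw [List.mem_append, List.mem_singleton] at ha
        rcases ha with ha | ha
        · exact h1 a ha
        · omega
      · rw [hsum, descP_shift hT k i j hij (by omega) (by omega), List.map_append,
          List.prod_append]
        simp [mul_assoc]

/-- adjacent transpositions of `ℕ` -/
def sN (i : ℕ) : Perm ℕ := swap i (i + 1)

theorem sN_fix {i m : ℕ} (h : i + 1 < m) : sN i m = m := by
  unfold sN
  exact swap_apply_of_ne_of_ne (by omega) (by omega)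

theorem sN_rel (n : ℕ) : CRel n sN := by
  refine ⟨fun i _ => ?_, fun i j _ _ hij => ?_, fun i _ => ?_⟩
  · unfold sN; exact swap_mul_self _ _
  · ext x
    simp only [Perm.mul_apply, sN, swap_apply_def]
    split_ifs <;> omega
  · ext x
    simp only [Perm.mul_apply, sN, swap_apply_def]
    split_ifs <;> omega

theorem sN_prod_fix {n : ℕ} (l : List ℕ) (hl : ∀ i ∈ l, i + 1 < n) {m : ℕ} (hm : n ≤ m) :
    (l.map sN).prod m = m := by
  induction l with
  | nil => simp
  | cons a l ih =>
    have ha : a + 1 < n := hl a (by simp)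
    rw [List.map_cons, List.prod_cons, Perm.mul_apply, ih (fun i hi => hl i (by simp [hi]))]
    exact sN_fix (by omega)

theorem sN_desc (k : ℕ) : ∀ j, descP sN j k j = j + k := by
  induction k with
  | zero => intro j; simp [descP]
  | succ k ih =>
    intro j
    simp only [descP, Perm.mul_apply]
    have : sN j j = j + 1 := by unfold sN; exact swap_apply_left _ _
    rw [this, ih (j + 1)]; omega

theorem map_prod_fst {M N : Type*} [Monoid M] [Monoid N] (T : ℕ → M) (S : ℕ → N) (l : List ℕ) :
    (l.map (fun i => (T i, S i))).prod = ((l.map T).prod, (l.map S).prod) := by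
  induction l with
  | nil => rfl
  | cons a l ih => simp [ih]

theorem descP_prod {M N : Type*} [Monoid M] [Monoid N] (T : ℕ → M) (S : ℕ → N) (k : ℕ) :
    ∀ j, descP (fun i => (T i, S i)) j k = (descP T j k, descP S j k) := by
  induction k with
  | zero => intro j; rfl
  | succ k ih => intro j; simp [descP, ih]

/-- the core: words in the adjacent transpositions with equal permutations have equal values -/
theorem word_eq {M : Type*} [Monoid M] (T : ℕ → M) (n : ℕ) : CRel n T →
    ∀ l l' : List ℕ, (∀ i ∈ l, i + 1 < n) → (∀ i ∈ l', i + 1 < n) →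
      (l.map sN).prod = (l'.map sN).prod → (l.map T).prod = (l'.map T).prod := by
  induction n with
  | zero =>
    intro _ l l' hl hl' _
    have h1 : l = [] := List.eq_nil_iff_forall_not_mem.mpr fun i hi => by
      have := hl i hi; omega
    have h2 : l' = [] := List.eq_nil_iff_forall_not_mem.mpr fun i hi => by
      have := hl' i hi; omega
    rw [h1, h2]
  | succ n ih =>
    intro hT l l' hl hl' heq
    have hU : CRel (n + 1) (fun i => (T i, sN i)) := by
      have hS := sN_rel (n + 1)
      refine ⟨fun i h => ?_, fun i j h h' hij => ?_, fun i h => ?_⟩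
      · exact Prod.ext (hT.r1 i h) (hS.r1 i h)
      · exact Prod.ext (hT.r2 i j h h' hij) (hS.r2 i j h h' hij)
      · exact Prod.ext (hT.r3 i h) (hS.r3 i h)
    obtain ⟨a, j, k, ha, hjk, e⟩ := normal_form hU l hl
    obtain ⟨a', j', k', ha', hjk', e'⟩ := normal_form hU l' hl'
    rw [map_prod_fst, map_prod_fst, descP_prod, Prod.mk_mul_mk, Prod.mk.injEq] at e e'
    have c1 : ((a.map sN).prod * descP sN j k) j = n := by
      rw [Perm.mul_apply, sN_desc, hjk]
      exact sN_prod_fix a ha le_rfl
    have c2 : ((a'.map sN).prod * descP sN j' k') j' = n := by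
      rw [Perm.mul_apply, sN_desc, hjk']
      exact sN_prod_fix a' ha' le_rfl
    have e3 : (a.map sN).prod * descP sN j k = (a'.map sN).prod * descP sN j' k' := by
      rw [← e.2, ← e'.2, heq]
    have hj : j = j' := by
      apply ((a.map sN).prod * descP sN j k).injective
      rw [c1, e3, c2]
    subst hj
    have hk : k = k' := by omega
    subst hk
    have e4 : (a.map sN).prod = (a'.map sN).prod := mul_right_cancel e3
    have hT' : CRel n T :=
      ⟨fun i h => hT.r1 i (by omega), fun i j h h' hij => hT.r2 i j (by omega) (by omega) hij,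
        fun i h => hT.r3 i (by omega)⟩
    rw [e.1, e'.1, ih hT' a a' ha ha' e4]

theorem sw_val {n : ℕ} (i : ℕ) (h : i + 1 < n) (x : Fin n) :
    ((sw i h x : Fin n) : ℕ) = sN i (x : ℕ) := by
  unfold sw sN
  rw [swap_apply_def, swap_apply_def]
  split_ifs with h1 h2 h3 h4 h5 h6 <;> simp_all [Fin.ext_iff]

theorem exists_word {n : ℕ} (σ : Perm (Fin n)) :
    ∃ l : List ℕ, (∀ i ∈ l, i + 1 < n) ∧ ∀ x : Fin n, (l.map sN).prod (x : ℕ) = (σ x : ℕ) := by
  induction σ using perm_induction with
  | one => exact ⟨[], by simp, fun x => by simp⟩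
  | mul i h σ ih =>
    obtain ⟨l, h1, h2⟩ := ih
    refine ⟨i :: l, ?_, fun x => ?_⟩
    · intro a ha
      rcases List.mem_cons.mp ha with rfl | ha
      · exact h
      · exact h1 a ha
    · rw [List.map_cons, List.prod_cons, Perm.mul_apply, Perm.mul_apply, h2 x, sw_val]

/-- Elements of a monoid satisfying the Coxeter relations of type `A_{n-1}` define a
homomorphism from `Perm (Fin n)`. -/
theorem perm_presentation {M : Type*} [Monoid M] (n : ℕ) (t : (i : ℕ) → i + 1 < n → M)
    (h1 : ∀ i h, t i h * t i h = 1)
    (h2 : ∀ i j (hi : i + 1 < n) (hj : j + 1 < n), i + 1 < j →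
      t i hi * t j hj = t j hj * t i hi)
    (h3 : ∀ i (h : i + 1 + 1 < n),
      t i (by omega) * t (i + 1) h * t i (by omega) =
        t (i + 1) h * t i (by omega) * t (i + 1) h) :
    ∃ f : Perm (Fin n) →* M, ∀ i (h : i + 1 < n), f (sw i h) = t i h := by
  classical
  let T : ℕ → M := fun i => if h : i + 1 < n then t i h else 1
  have hTt : ∀ i (h : i + 1 < n), T i = t i h := fun i h => dif_pos h
  have hT : CRel n T := by
    refine ⟨fun i h => ?_, fun i j hi hj hij => ?_, fun i h => ?_⟩
    · rw [hTt i h]; exact h1 i h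
    · rw [hTt i hi, hTt j hj]; exact h2 i j hi hj hij
    · rw [hTt i (by omega), hTt (i + 1) h]; exact h3 i h
  choose w hw1 hw2 using fun σ : Perm (Fin n) => exists_word σ
  have key : ∀ (σ : Perm (Fin n)) (l : List ℕ), (∀ i ∈ l, i + 1 < n) →
      (∀ x : Fin n, (l.map sN).prod (x : ℕ) = (σ x : ℕ)) →
      ((w σ).map T).prod = (l.map T).prod := by
    intro σ l hl hx
    refine word_eq T n hT _ _ (hw1 σ) hl ?_
    ext m
    rcases Nat.lt_or_ge m n with hm | hm
    · rw [hw2 σ ⟨m, hm⟩, hx ⟨m, hm⟩]
    · rw [sN_prod_fix _ (hw1 σ) hm, sN_prod_fix _ hl hm]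
  refine ⟨{ toFun := fun σ => ((w σ).map T).prod
            map_one' := ?_
            map_mul' := ?_ }, ?_⟩
  · rw [key 1 [] (by simp) (fun x => by simp)]; simp
  · intro σ τ
    rw [key (σ * τ) (w σ ++ w τ) ?_ ?_]
    · simp
    · intro i hi
      rcases List.mem_append.mp hi with hi | hi
      · exact hw1 σ i hi
      · exact hw1 τ i hi
    · intro x
      rw [List.map_append, List.prod_append, Perm.mul_apply, hw2 τ x, hw2 σ (τ x), Perm.mul_apply]
  · intro i h
    change ((w (sw i h)).map T).prod = t i h
    rw [key (sw i h) [i] (by simpa using h) (fun x => ?_)]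
    · simp [hTt i h]
    · rw [sw_val]; simp

end Pool.MP322
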