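import Pool.Agent.Lib.MP_322c5f_al.TabA

/-! job HS-3: connectivity of the set of standard fillings under allowed swaps; existence. -/

set_option autoImplicit false

open Equiv Finset

namespace Pool.MP322

namespace TabB

/-- swapping the cells number `i`, `i+1` is allowed if the first is not below the second. -/
theorem isTab_sw {α β : YoungDiagram} {k : ℕ} {x : Fin k → ℕ × ℕ} (hx : IsTab α β k x)
    (i : ℕ) (h : i + 1 < k) (hn : ¬ x ⟨i, by omega⟩ ≤ x ⟨i + 1, h⟩) :
    IsTab α β k (x ∘ sw i h) := by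
  obtain ⟨h1, h2, h3, h4⟩ := hx
  have hik : i < k := by omega
  have hi : sw i h ⟨i, hik⟩ = ⟨i + 1, h⟩ := swap_apply_left _ _
  have hi1 : sw i h ⟨i + 1, h⟩ = ⟨i, hik⟩ := swap_apply_right _ _
  have ho : ∀ j : Fin k, j.1 ≠ i → j.1 ≠ i + 1 → sw i h j = j := by
    intro j hj hj'
    refine swap_apply_of_ne_of_ne ?_ ?_
    · intro hh; apply hj; rw [hh]
    · intro hh; apply hj'; rw [hh]
  have hinv : ∀ j : Fin k, sw i h (sw i h j) = j := by
    intro j; exact swap_apply_self _ _ _
  refine ⟨h1.comp (sw i h).injective, fun j => h2 _, ?_, ?_⟩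
  · intro c
    rw [h3 c]
    constructor
    · rintro (hc | ⟨j, hj⟩)
      · exact Or.inl hc
      · refine Or.inr ⟨sw i h j, ?_⟩
        rw [Function.comp_apply, hinv, hj]
    · rintro (hc | ⟨j, hj⟩)
      · exact Or.inl hc
      · exact Or.inr ⟨sw i h j, hj⟩
  · intro j c hc
    rw [Function.comp_apply] at hc
    rcases h4 _ c hc with hα | ⟨l, hl, hlc⟩
    · exact Or.inl hα
    · refine Or.inr ⟨sw i h l, ?_, ?_⟩
      · by_cases hj : j.1 = i
        · have hj' : j = ⟨i, hik⟩ := Fin.ext hj
          subst hj'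
          rw [hi] at hl hc
          by_cases hl1 : l.1 = i + 1
          · have : l = ⟨i + 1, h⟩ := Fin.ext hl1
            rw [this, hi1]
          · by_cases hl2 : l.1 = i
            · exfalso
              have : l = ⟨i, hik⟩ := Fin.ext hl2
              rw [this] at hlc
              rw [← hlc] at hc
              exact hn hc
            · rw [ho l hl2 hl1]
              have : l.1 ≤ i + 1 := hl
              show l.1 ≤ i
              omega
        · by_cases hj1 : j.1 = i + 1
          · have hj' : j = ⟨i + 1, h⟩ := Fin.ext hj1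
            subst hj'
            rw [hi1] at hl
            have hl' : l.1 ≤ i := hl
            by_cases hl2 : l.1 = i
            · have : l = ⟨i, hik⟩ := Fin.ext hl2
              rw [this, hi]
            · rw [ho l hl2 (by omega)]
              show l.1 ≤ i + 1
              omega
          · rw [ho j hj hj1] at hl
            have hl' : l.1 ≤ j.1 := hl
            by_cases hl2 : l.1 = i
            · have : l = ⟨i, hik⟩ := Fin.ext hl2
              rw [this, hi]
              show i + 1 ≤ j.1
              omega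
            · by_cases hl3 : l.1 = i + 1
              · have : l = ⟨i + 1, h⟩ := Fin.ext hl3
                rw [this, hi1]
                show i ≤ j.1
                omega
              · rw [ho l hl2 hl3]
                exact hl
      · rw [Function.comp_apply, hinv, hlc]

/-- removal of a maximal cell. -/
def eraseCell (β : YoungDiagram) (c : ℕ × ℕ) (hmax : ∀ d ∈ β, c ≤ d → d = c) :
    YoungDiagram where
  cells := β.cells.erase c
  isLowerSet := by
    intro a b hab ha
    rw [Finset.mem_coe, Finset.mem_erase] at ha ⊢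
    refine ⟨?_, β.isLowerSet hab ha.2⟩
    rintro rfl
    exact ha.1 (hmax a ((YoungDiagram.mem_cells _).1 ha.2) hab)

theorem mem_eraseCell {β : YoungDiagram} {c : ℕ × ℕ} {hmax : ∀ d ∈ β, c ≤ d → d = c}
    {d : ℕ × ℕ} : d ∈ eraseCell β c hmax ↔ d ≠ c ∧ d ∈ β := by
  rw [← YoungDiagram.mem_cells, ← YoungDiagram.mem_cells]
  exact Finset.mem_erase

theorem snoc_isTab {α β : YoungDiagram} {k : ℕ} {c : ℕ × ℕ}
    {hmax : ∀ d ∈ β, c ≤ d → d = c} (hcβ : c ∈ β) (hcα : c ∉ α) {a : Fin k → ℕ × ℕ}
    (ha : IsTab α (eraseCell β c hmax) k a) :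
    IsTab α β (k + 1) (Fin.snoc a c : Fin (k + 1) → ℕ × ℕ) := by
  obtain ⟨h1, h2, h3, h4⟩ := ha
  have hne : ∀ i, a i ≠ c := by
    intro i
    exact (mem_eraseCell.1 ((h3 (a i)).2 (Or.inr ⟨i, rfl⟩))).1
  have key : ∀ d, d ∈ β ↔ (d ∈ α ∨ ∃ i, (Fin.snoc a c : Fin (k + 1) → ℕ × ℕ) i = d) := by
    intro d
    constructor
    · intro hd
      by_cases hdc : d = c
      · exact Or.inr ⟨Fin.last k, by rw [Fin.snoc_last, hdc]⟩
      · rcases (h3 d).1 (mem_eraseCell.2 ⟨hdc, hd⟩) with hα | ⟨i, hi⟩
        · exact Or.inl hα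
        · exact Or.inr ⟨i.castSucc, by rw [Fin.snoc_castSucc, hi]⟩
    · rintro (hα | ⟨i, hi⟩)
      · exact (mem_eraseCell.1 ((h3 d).2 (Or.inl hα))).2
      · revert hi
        refine Fin.lastCases ?_ ?_ i
        · intro hi
          rw [Fin.snoc_last] at hi
          rw [← hi]; exact hcβ
        · intro j hi
          rw [Fin.snoc_castSucc] at hi
          rw [← hi]
          exact (mem_eraseCell.1 ((h3 (a j)).2 (Or.inr ⟨j, rfl⟩))).2
  refine ⟨?_, ?_, key, ?_⟩
  · intro i j
    refine Fin.lastCases ?_ ?_ i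
    · refine Fin.lastCases ?_ ?_ j
      · intro _; rfl
      · intro j' hj
        rw [Fin.snoc_last, Fin.snoc_castSucc] at hj
        exact absurd hj.symm (hne j')
    · intro i'
      refine Fin.lastCases ?_ ?_ j
      · intro hj
        rw [Fin.snoc_last, Fin.snoc_castSucc] at hj
        exact absurd hj (hne i')
      · intro j' hj
        rw [Fin.snoc_castSucc, Fin.snoc_castSucc] at hj
        rw [h1 hj]
  · intro i
    refine Fin.lastCases ?_ ?_ i
    · rw [Fin.snoc_last]; exact hcα
    · intro j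
      rw [Fin.snoc_castSucc]; exact h2 j
  · intro i d
    refine Fin.lastCases ?_ ?_ i
    · intro hd
      rw [Fin.snoc_last] at hd
      rcases (key d).1 (β.isLowerSet hd hcβ) with hα | ⟨j, hj⟩
      · exact Or.inl hα
      · exact Or.inr ⟨j, Fin.le_last j, hj⟩
    · intro i' hd
      rw [Fin.snoc_castSucc] at hd
      rcases h4 i' d hd with hα | ⟨j, hj, hjd⟩
      · exact Or.inl hα
      · refine Or.inr ⟨j.castSucc, ?_, ?_⟩
        · exact Fin.castSucc_le_castSucc_iff.2 hj
        · rw [Fin.snoc_castSucc, hjd]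

theorem rest_isTab {α β : YoungDiagram} {k : ℕ} {c : ℕ × ℕ}
    {hmax : ∀ d ∈ β, c ≤ d → d = c} {x : Fin (k + 1) → ℕ × ℕ}
    (hx : IsTab α β (k + 1) x) (hc : x (Fin.last k) = c) :
    IsTab α (eraseCell β c hmax) k (fun i => x i.castSucc) := by
  obtain ⟨h1, h2, h3, h4⟩ := hx
  refine ⟨?_, fun i => h2 _, ?_, ?_⟩
  · intro i j hij
    exact Fin.castSucc_injective k (h1 hij)
  · intro d
    rw [mem_eraseCell]
    constructor
    · rintro ⟨hdc, hd⟩
      rcases (h3 d).1 hd with hα | ⟨i, hi⟩
      · exact Or.inl hα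
      · revert hi
        refine Fin.lastCases ?_ ?_ i
        · intro hi
          exact absurd (hi.symm.trans hc) hdc
        · intro j hj
          exact Or.inr ⟨j, hj⟩
    · rintro (hα | ⟨i, hi⟩)
      · refine ⟨?_, (h3 d).2 (Or.inl hα)⟩
        rintro rfl
        exact h2 (Fin.last k) (by rw [hc]; exact hα)
      · refine ⟨?_, (h3 d).2 (Or.inr ⟨i.castSucc, hi⟩)⟩
        rintro rfl
        have := h1 (hi.trans hc.symm)
        exact absurd this (Fin.castSucc_lt_last i).ne
  · intro i d hd
    rcases h4 i.castSucc d hd with hα | ⟨j, hj, hjd⟩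
    · exact Or.inl hα
    · revert hj hjd
      refine Fin.lastCases ?_ ?_ j
      · intro hj
        exact absurd (lt_of_le_of_lt hj (Fin.castSucc_lt_last i)) (lt_irrefl _)
      · intro j' hj hjd
        exact Or.inr ⟨j', Fin.castSucc_le_castSucc_iff.1 hj, hjd⟩

/-- the swap relation -/
def R {α β : YoungDiagram} {k : ℕ} (a b : Tab α β k) : Prop :=
  ∃ (i : ℕ) (h : i + 1 < k), b.1 = a.1 ∘ sw i h

theorem move {α β : YoungDiagram} {k : ℕ} {c : ℕ × ℕ} (hmax : ∀ d ∈ β, c ≤ d → d = c) :
    ∀ (d p : ℕ) (hp : p + d = k) (x : Tab α β (k + 1)), x.1 ⟨p, by omega⟩ = c →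
      ∃ x' : Tab α β (k + 1), Relation.ReflTransGen R x x' ∧ x'.1 (Fin.last k) = c := by
  intro d
  induction d with
  | zero =>
    intro p hp x hx
    refine ⟨x, Relation.ReflTransGen.refl, ?_⟩
    have : (⟨p, by omega⟩ : Fin (k + 1)) = Fin.last k := Fin.ext (by simpa using hp)
    rw [← this]; exact hx
  | succ d ih =>
    intro p hp x hx
    have hlt : p + 1 < k + 1 := by omega
    have hn : ¬ x.1 ⟨p, by omega⟩ ≤ x.1 ⟨p + 1, hlt⟩ := by
      intro hle
      rw [hx] at hle
      have hmem : x.1 ⟨p + 1, hlt⟩ ∈ β := (x.2.2.2.1 _).2 (Or.inr ⟨_, rfl⟩)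
      have heq := hmax _ hmem hle
      have := x.2.1 (hx.trans heq.symm)
      simp at this
    have hT := isTab_sw x.2 p hlt hn
    obtain ⟨x', hx', hlast⟩ := ih (p + 1) (by omega) ⟨_, hT⟩ (by
      show x.1 (sw p hlt ⟨p + 1, hlt⟩) = c
      have : sw p hlt ⟨p + 1, hlt⟩ = ⟨p, by omega⟩ := swap_apply_right _ _
      rw [this, hx])
    exact ⟨x', Relation.ReflTransGen.head ⟨p, hlt, rfl⟩ hx', hlast⟩

theorem R_symm {α β : YoungDiagram} {k : ℕ} {a b : Tab α β k} (h : R a b) : R b a := by
  obtain ⟨i, hi, hab⟩ := h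
  refine ⟨i, hi, ?_⟩
  rw [hab]
  funext j
  show a.1 j = a.1 (sw i hi (sw i hi j))
  have e : sw i hi (sw i hi j) = j := by
    unfold sw; exact swap_apply_self _ _ _
  rw [e]

theorem snoc_comp_sw {k : ℕ} (a : Fin k → ℕ × ℕ) (c : ℕ × ℕ) (i : ℕ) (h : i + 1 < k) :
    (Fin.snoc (a ∘ sw i h) c : Fin (k + 1) → ℕ × ℕ) =
      (Fin.snoc a c : Fin (k + 1) → ℕ × ℕ) ∘ sw i (by omega : i + 1 < k + 1) := by
  funext j
  refine Fin.lastCases ?_ ?_ j
  · rw [Fin.snoc_last, Function.comp_apply]
    have : sw i (by omega : i + 1 < k + 1) (Fin.last k) = Fin.last k := by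
      refine swap_apply_of_ne_of_ne ?_ ?_
      · intro hh
        have := congrArg Fin.val hh
        simp at this
        omega
      · intro hh
        have := congrArg Fin.val hh
        simp at this
        omega
    rw [this, Fin.snoc_last]
  · intro j'
    have hik : i < k := by omega
    rw [Fin.snoc_castSucc, Function.comp_apply, Function.comp_apply]
    have : sw i (by omega : i + 1 < k + 1) j'.castSucc = (sw i h j').castSucc := by
      by_cases hj : j'.1 = i
      · have e1 : j' = ⟨i, hik⟩ := Fin.ext hj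
        subst e1
        have e2 : sw i h ⟨i, hik⟩ = ⟨i + 1, h⟩ := swap_apply_left _ _
        rw [e2]
        exact swap_apply_left _ _
      · by_cases hj1 : j'.1 = i + 1
        · have e1 : j' = ⟨i + 1, h⟩ := Fin.ext hj1
          subst e1
          have e2 : sw i h ⟨i + 1, h⟩ = ⟨i, hik⟩ := swap_apply_right _ _
          rw [e2]
          exact swap_apply_right _ _
        · have e2 : sw i h j' = j' := by
            refine swap_apply_of_ne_of_ne ?_ ?_
            · intro hh; apply hj; rw [hh]
            · intro hh; apply hj1; rw [hh]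
          rw [e2]
          refine swap_apply_of_ne_of_ne ?_ ?_
          · intro hh
            have := congrArg Fin.val hh
            exact hj (by simpa using this)
          · intro hh
            have := congrArg Fin.val hh
            exact hj1 (by simpa using this)
    rw [this, Fin.snoc_castSucc]

theorem connected_aux (α : YoungDiagram) : ∀ (k : ℕ) (β : YoungDiagram) (x y : Tab α β k),
    Relation.ReflTransGen R x y := by
  intro k
  induction k with
  | zero =>
    intro β x y
    have : x = y := Subtype.ext (funext (fun i => i.elim0))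
    rw [this]
  | succ k ih =>
    intro β x y
    obtain ⟨c, hc⟩ : ∃ c, y.1 (Fin.last k) = c := ⟨_, rfl⟩
    have hcβ : c ∈ β := (y.2.2.2.1 c).2 (Or.inr ⟨_, hc⟩)
    have hcα : c ∉ α := by
      rw [← hc]; exact y.2.2.1 _
    have hmax : ∀ d ∈ β, c ≤ d → d = c := by
      intro d hd hcd
      rcases (y.2.2.2.1 d).1 hd with hα | ⟨j, hj⟩
      · exact absurd (α.isLowerSet hcd hα) hcα
      · rw [← hj] at hcd
        rcases y.2.2.2.2 j c hcd with hα | ⟨l, hl, hlc⟩
        · exact absurd hα hcα
        · have e := y.2.1 (hlc.trans hc.symm)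
          rw [e] at hl
          have : j = Fin.last k := le_antisymm (Fin.le_last j) hl
          rw [← hj, this, hc]
    obtain ⟨p, hp⟩ : ∃ p, x.1 p = c := by
      rcases (x.2.2.2.1 c).1 hcβ with hα | hp
      · exact absurd hα hcα
      · exact hp
    obtain ⟨x', hx', hlast⟩ := move hmax (k - p.1) p.1 (by have := p.2; omega) x hp
    refine hx'.trans ?_
    set x0 : Tab α (eraseCell β c hmax) k := ⟨_, rest_isTab x'.2 hlast⟩ with hx0
    set y0 : Tab α (eraseCell β c hmax) k := ⟨_, rest_isTab y.2 hc⟩ with hy0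
    set f : Tab α (eraseCell β c hmax) k → Tab α β (k + 1) :=
      fun a => ⟨Fin.snoc a.1 c, snoc_isTab hcβ hcα a.2⟩ with hf
    have h1 : f x0 = x' := by
      apply Subtype.ext
      funext j
      refine Fin.lastCases ?_ ?_ j
      · show (Fin.snoc x0.1 c : Fin (k + 1) → ℕ × ℕ) (Fin.last k) = _
        rw [Fin.snoc_last, hlast]
      · intro j'
        show (Fin.snoc x0.1 c : Fin (k + 1) → ℕ × ℕ) (Fin.castSucc j') = _
        rw [Fin.snoc_castSucc]
    have h2 : f y0 = y := by
      apply Subtype.ext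
      funext j
      refine Fin.lastCases ?_ ?_ j
      · show (Fin.snoc y0.1 c : Fin (k + 1) → ℕ × ℕ) (Fin.last k) = _
        rw [Fin.snoc_last, hc]
      · intro j'
        show (Fin.snoc y0.1 c : Fin (k + 1) → ℕ × ℕ) (Fin.castSucc j') = _
        rw [Fin.snoc_castSucc]
    rw [← h1, ← h2]
    have hlift : ∀ a b : Tab α (eraseCell β c hmax) k, R a b → R (f a) (f b) := by
      rintro a b ⟨i, hi, hab⟩
      refine ⟨i, by omega, ?_⟩
      show (Fin.snoc b.1 c : Fin (k + 1) → ℕ × ℕ) =
        (Fin.snoc a.1 c : Fin (k + 1) → ℕ × ℕ) ∘ _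
      rw [hab]
      exact snoc_comp_sw a.1 c i hi
    exact Relation.ReflTransGen.lift f hlift x0 y0 (ih _ x0 y0)

theorem nonempty_aux : ∀ (n : ℕ) (lam : YoungDiagram), lam.card = n →
    Nonempty (Tab ⊥ lam n) := by
  intro n
  induction n with
  | zero =>
    intro lam hlam
    refine ⟨⟨fun i => i.elim0, ?_, ?_, ?_, ?_⟩⟩
    · intro i; exact i.elim0
    · intro i; exact i.elim0
    · intro c
      constructor
      · intro hc
        exfalso
        have h0 : lam.cells = ∅ := Finset.card_eq_zero.1 hlam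
        have := (YoungDiagram.mem_cells _).2 hc
        rw [h0] at this
        exact absurd this (Finset.notMem_empty _)
      · rintro (hc | ⟨i, _⟩)
        · exact absurd hc (YoungDiagram.notMem_bot _)
        · exact i.elim0
    · intro i; exact i.elim0
  | succ n ih =>
    intro lam hlam
    have hne : lam.cells.Nonempty := by
      rw [← Finset.card_pos]
      have : lam.cells.card = n + 1 := hlam
      omega
    obtain ⟨c, hc, hcm⟩ := Finset.exists_max_image lam.cells (fun c => c.1 + c.2) hne
    have hcβ : c ∈ lam := (YoungDiagram.mem_cells _).1 hc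
    have hmax : ∀ d ∈ lam, c ≤ d → d = c := by
      intro d hd hcd
      have h1 := hcm d ((YoungDiagram.mem_cells _).2 hd)
      have h2 := hcd.1
      have h3 := hcd.2
      refine Prod.ext ?_ ?_
      · omega
      · omega
    have hcard : (eraseCell lam c hmax).card = n := by
      show (lam.cells.erase c).card = n
      rw [Finset.card_erase_of_mem hc]
      have : lam.cells.card = n + 1 := hlam
      omega
    obtain ⟨a⟩ := ih _ hcard
    exact ⟨⟨_, snoc_isTab hcβ (YoungDiagram.notMem_bot _) a.2⟩⟩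

end TabB

theorem tab_connected {α β : YoungDiagram} {k : ℕ} (x y : Tab α β k) :
    Relation.ReflTransGen
      (fun a b : Tab α β k => ∃ (i : ℕ) (h : i + 1 < k), b.1 = a.1 ∘ sw i h) x y :=
  TabB.connected_aux α k β x y

theorem tab_nonempty {n : ℕ} (lam : Y n) : Nonempty (Tab ⊥ lam.1 n) :=
  TabB.nonempty_aux n lam.1 lam.2

end Pool.MP322
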