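import Pool.Agent.Lib.MP_322c5f_al.TabA

/-! job HS-4: the Young matrices are symmetric involutions, and far ones commute. -/

set_option autoImplicit false

open Equiv Finset

namespace Pool.MP322

theorem sw_comp_sw {k : ℕ} (i : ℕ) (h : i + 1 < k) (x : Fin k → ℕ × ℕ) :
    (x ∘ sw i h) ∘ sw i h = x := by
  funext a
  simp [sw]

theorem comp_sw_ne {k : ℕ} (i : ℕ) (h : i + 1 < k) (x : Fin k → ℕ × ℕ)
    (hx : Function.Injective x) : x ∘ sw i h ≠ x := by
  intro hc
  have h1 := congrFun hc ⟨i, by omega⟩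
  simp only [Function.comp_apply, sw, swap_apply_left] at h1
  have h2 := hx h1
  simp at h2

/-- the kernel of the Young matrix for raw functions. -/
noncomputable def yR {k : ℕ} (i : ℕ) (h : i + 1 < k) (x y : Fin k → ℕ × ℕ) : ℝ :=
  (if y = x then yd x i h else 0) +
    (if y = x ∘ sw i h then Real.sqrt (1 - yd x i h ^ 2) else 0)

theorem yM_eq_yR {α β : YoungDiagram} {k : ℕ} (i : ℕ) (h : i + 1 < k) (x y : Tab α β k) :
    yM α β k i h x y = yR i h x.1 y.1 := by
  unfold yM yR
  have hne := comp_sw_ne i h x.1 x.2.1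
  by_cases hxy : y = x
  · subst hxy
    simp [hne.symm]
  · have hxy' : y.1 ≠ x.1 := fun hc => hxy (Subtype.ext hc)
    simp [hxy, hxy']

theorem sqrt_eq_zero_of_not {α β : YoungDiagram} {k : ℕ} (x : Tab α β k) (i : ℕ)
    (h : i + 1 < k) (hx : ¬ IsTab α β k (x.1 ∘ sw i h)) :
    Real.sqrt (1 - yd x.1 i h ^ 2) = 0 := by
  rw [yd_sq_eq_one x i h hx]
  simp

theorem sum_yM {α β : YoungDiagram} {k : ℕ} (i : ℕ) (h : i + 1 < k) (x : Tab α β k)
    (g : (Fin k → ℕ × ℕ) → ℝ) :
    (∑ z : Tab α β k, yM α β k i h x z * g z.1) =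
      yd x.1 i h * g x.1 + Real.sqrt (1 - yd x.1 i h ^ 2) * g (x.1 ∘ sw i h) := by
  have h1 : ∀ z : Tab α β k, yM α β k i h x z * g z.1 =
      (if z = x then yd x.1 i h * g x.1 else 0) +
      (if z.1 = x.1 ∘ sw i h then Real.sqrt (1 - yd x.1 i h ^ 2) * g (x.1 ∘ sw i h) else 0) := by
    intro z
    rw [yM_eq_yR, yR, add_mul]
    congr 1
    · by_cases hz : z = x
      · subst hz; simp
      · have hz' : z.1 ≠ x.1 := fun hc => hz (Subtype.ext hc)
        simp [hz, hz']
    · by_cases hz : z.1 = x.1 ∘ sw i h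
      · simp [hz]
      · simp [hz]
  rw [Finset.sum_congr rfl (fun z _ => h1 z), Finset.sum_add_distrib]
  congr 1
  · simp
  · by_cases hx : IsTab α β k (x.1 ∘ sw i h)
    · have h2 : ∀ z : Tab α β k, (z.1 = x.1 ∘ sw i h) ↔ z = ⟨x.1 ∘ sw i h, hx⟩ := by
        intro z
        constructor
        · intro hz; exact Subtype.ext hz
        · intro hz; rw [hz]
      refine (Finset.sum_eq_single (⟨x.1 ∘ sw i h, hx⟩ : Tab α β k) ?_ ?_).trans ?_
      · intro z _ hz
        exact if_neg (fun hc => hz ((h2 z).1 hc))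
      · intro hc
        exact absurd (Finset.mem_univ (α := Tab α β k) _) hc
      · exact if_pos rfl
    · rw [sqrt_eq_zero_of_not x i h hx]
      simp

theorem yM_sq (α β : YoungDiagram) (k i : ℕ) (h : i + 1 < k) :
    yM α β k i h * yM α β k i h = 1 := by
  ext x y
  rw [Matrix.mul_apply, Matrix.one_apply]
  have h1 := (Finset.sum_congr (s₁ := Finset.univ) rfl (fun (z : Tab α β k) _ => by
    rw [yM_eq_yR i h z y] :
      ∀ z ∈ (Finset.univ : Finset (Tab α β k)), yM α β k i h x z * yM α β k i h z y =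
        yM α β k i h x z * yR i h z.1 y.1)).trans (sum_yM i h x (fun w => yR i h w y.1))
  rw [h1]
  simp only [yR, sw_comp_sw, yd_sw, neg_sq]
  have hd : yd x.1 i h ^ 2 ≤ 1 := by
    have := abs_yd_le_one x i h
    rw [← sq_abs]
    nlinarith [abs_nonneg (yd x.1 i h)]
  have hw : Real.sqrt (1 - yd x.1 i h ^ 2) * Real.sqrt (1 - yd x.1 i h ^ 2) =
      1 - yd x.1 i h ^ 2 := Real.mul_self_sqrt (by linarith)
  have hne := comp_sw_ne i h x.1 x.2.1
  by_cases hxy : y = x
  · subst hxy
    simp only [if_true, if_neg hne.symm, add_zero, zero_add]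
    linarith
  · have hxy' : y.1 ≠ x.1 := fun hc => hxy (Subtype.ext hc)
    have hxy'' : ¬ (x = y) := fun hc => hxy hc.symm
    by_cases hy : y.1 = x.1 ∘ sw i h
    · simp only [if_neg hxy', if_pos hy, if_neg hxy'']
      ring
    · simp only [if_neg hxy', if_neg hy, if_neg hxy'']
      ring

theorem yM_symm (α β : YoungDiagram) (k i : ℕ) (h : i + 1 < k) :
    (yM α β k i h).transpose = yM α β k i h := by
  ext x y
  rw [Matrix.transpose_apply, yM_eq_yR, yM_eq_yR, yR, yR]
  by_cases hxy : y = x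
  · subst hxy; rfl
  · have hxy' : y.1 ≠ x.1 := fun hc => hxy (Subtype.ext hc)
    rw [if_neg hxy', if_neg hxy'.symm]
    by_cases hy : y.1 = x.1 ∘ sw i h
    · have hx : x.1 = y.1 ∘ sw i h := by rw [hy, sw_comp_sw]
      rw [if_pos hy, if_pos hx]
      have : yd y.1 i h = - yd x.1 i h := by rw [hy, yd_sw]
      rw [this, neg_sq]
    · have hx : ¬ x.1 = y.1 ∘ sw i h := by
        intro hx
        apply hy
        rw [hx, sw_comp_sw]
      rw [if_neg hy, if_neg hx]

theorem yd_sw_far {k : ℕ} (x : Fin k → ℕ × ℕ) (i j : ℕ) (hi : i + 1 < k) (hj : j + 1 < k)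
    (hij : i + 1 < j ∨ j + 1 < i) : yd (x ∘ sw i hi) j hj = yd x j hj := by
  unfold yd
  have h1 : sw i hi ⟨j, by omega⟩ = ⟨j, by omega⟩ := by
    unfold sw
    apply swap_apply_of_ne_of_ne
    · intro hc; have := Fin.mk.inj_iff.mp hc; omega
    · intro hc; have := Fin.mk.inj_iff.mp hc; omega
  have h2 : sw i hi ⟨j + 1, hj⟩ = ⟨j + 1, hj⟩ := by
    unfold sw
    apply swap_apply_of_ne_of_ne
    · intro hc; have := Fin.mk.inj_iff.mp hc; omega
    · intro hc; have := Fin.mk.inj_iff.mp hc; omega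
  simp only [Function.comp_apply, h1, h2]

theorem sw_comm {k : ℕ} (i j : ℕ) (hi : i + 1 < k) (hj : j + 1 < k) (hij : i + 1 < j) :
    sw i hi * sw j hj = sw j hj * sw i hi := by
  apply Equiv.Perm.Disjoint.commute
  intro a
  by_cases ha : (a : ℕ) < j
  · right
    unfold sw
    apply swap_apply_of_ne_of_ne
    · intro hc; rw [hc] at ha; simp at ha
    · intro hc; rw [hc] at ha; simp at ha
  · left
    unfold sw
    apply swap_apply_of_ne_of_ne
    · intro hc; rw [hc] at ha; simp at ha; omega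
    · intro hc; rw [hc] at ha; simp at ha; omega

theorem yM_comm (α β : YoungDiagram) (k i j : ℕ) (hi : i + 1 < k) (hj : j + 1 < k)
    (hij : i + 1 < j) :
    yM α β k i hi * yM α β k j hj = yM α β k j hj * yM α β k i hi := by
  ext x y
  rw [Matrix.mul_apply, Matrix.mul_apply]
  have h1 := (Finset.sum_congr (s₁ := Finset.univ) rfl (fun (z : Tab α β k) _ => by
    rw [yM_eq_yR j hj z y] :
      ∀ z ∈ (Finset.univ : Finset (Tab α β k)), yM α β k i hi x z * yM α β k j hj z y =
        yM α β k i hi x z * yR j hj z.1 y.1)).trans (sum_yM i hi x (fun w => yR j hj w y.1))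
  have h2 := (Finset.sum_congr (s₁ := Finset.univ) rfl (fun (z : Tab α β k) _ => by
    rw [yM_eq_yR i hi z y] :
      ∀ z ∈ (Finset.univ : Finset (Tab α β k)), yM α β k j hj x z * yM α β k i hi z y =
        yM α β k j hj x z * yR i hi z.1 y.1)).trans (sum_yM j hj x (fun w => yR i hi w y.1))
  rw [h1, h2]
  simp only [yR, yd_sw_far x.1 i j hi hj (Or.inl hij), yd_sw_far x.1 j i hj hi (Or.inr hij)]
  have hc : (x.1 ∘ sw i hi) ∘ sw j hj = (x.1 ∘ sw j hj) ∘ sw i hi := by
    have := sw_comm i j hi hj hij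
    funext a
    have h3 := congrArg (fun e => x.1 (e a)) this
    simpa [Equiv.Perm.mul_apply] using h3
  rw [hc]
  split_ifs <;> ring

end Pool.MP322
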