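import Pool.Agent.Lib.MP_322c5f_al.TabA

/-! job HS-5: the braid relation for the Young matrices. -/

set_option autoImplicit false

open Equiv Finset

namespace Pool.MP322

namespace YMBaux

/-- the raw Young operator. -/
noncomputable def T {k : ℕ} (i : ℕ) (h : i + 1 < k) (f : (Fin k → ℕ × ℕ) → ℝ) :
    (Fin k → ℕ × ℕ) → ℝ := fun x =>
  yd x i h * f x + Real.sqrt (1 - yd x i h ^ 2) * f (x ∘ sw i h)

open Classical in
/-- extension by zero of a column of a matrix. -/
noncomputable def ex {α β : YoungDiagram} {k : ℕ} (N : Matrix (Tab α β k) (Tab α β k) ℝ)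
    (z : Tab α β k) : (Fin k → ℕ × ℕ) → ℝ := fun x =>
  if hx : IsTab α β k x then N ⟨x, hx⟩ z else 0

theorem sw_sw {k : ℕ} (x : Fin k → ℕ × ℕ) (i : ℕ) (h : i + 1 < k) :
    (x ∘ sw i h) ∘ sw i h = x := by
  funext j
  simp [sw]

theorem yM_diag {α β : YoungDiagram} {k : ℕ} (i : ℕ) (h : i + 1 < k) (x : Tab α β k) :
    yM α β k i h x x = yd x.1 i h := if_pos rfl

theorem yM_off {α β : YoungDiagram} {k : ℕ} (i : ℕ) (h : i + 1 < k) (x y : Tab α β k)
    (h1 : y ≠ x) (h2 : y.1 = x.1 ∘ sw i h) :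
    yM α β k i h x y = Real.sqrt (1 - yd x.1 i h ^ 2) := (if_neg h1).trans (if_pos h2)

theorem yM_zero {α β : YoungDiagram} {k : ℕ} (i : ℕ) (h : i + 1 < k) (x y : Tab α β k)
    (h1 : y ≠ x) (h2 : y.1 ≠ x.1 ∘ sw i h) :
    yM α β k i h x y = 0 := (if_neg h1).trans (if_neg h2)

theorem mul_apply_eq {α β : YoungDiagram} {k : ℕ} (i : ℕ) (h : i + 1 < k)
    (N : Matrix (Tab α β k) (Tab α β k) ℝ) (x z : Tab α β k) :
    (yM α β k i h * N) x z = T i h (ex N z) x.1 := by
  classical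
  rw [Matrix.mul_apply]
  have hxx : ex N z x.1 = N x z := by
    unfold ex
    rw [dif_pos x.2]
    rfl
  by_cases hs : IsTab α β k (x.1 ∘ sw i h)
  · have hne : (⟨x.1 ∘ sw i h, hs⟩ : Tab α β k) ≠ x := by
      intro hcon
      have h1 := congrFun (congrArg Subtype.val hcon) ⟨i, by omega⟩
      simp only [Function.comp_apply, sw, swap_apply_left] at h1
      have h2 := x.2.1 h1
      rw [Fin.mk.injEq] at h2
      omega
    have hsx : ex N z (x.1 ∘ sw i h) = N ⟨x.1 ∘ sw i h, hs⟩ z := by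
      unfold ex
      rw [dif_pos hs]
    rw [Finset.sum_eq_add_of_mem x ⟨x.1 ∘ sw i h, hs⟩ (Finset.mem_univ _) (Finset.mem_univ _)
      hne.symm]
    · unfold T
      rw [hxx, hsx]
      rw [yM_diag, yM_off i h x ⟨x.1 ∘ sw i h, hs⟩ hne rfl]
    · intro y _ hy
      rw [yM_zero i h x y hy.1, zero_mul]
      intro hcon
      exact hy.2 (Subtype.ext hcon)
  · rw [Finset.sum_eq_single x]
    · unfold T
      rw [hxx, yd_sq_eq_one x i h hs, yM_diag]
      simp
    · intro y _ hy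
      rw [yM_zero i h x y hy, zero_mul]
      intro hcon
      exact hs (hcon ▸ y.2)
    · intro hcon
      exact absurd (Finset.mem_univ _) hcon

theorem ex_mul {α β : YoungDiagram} {k : ℕ} (i : ℕ) (h : i + 1 < k)
    (N : Matrix (Tab α β k) (Tab α β k) ℝ) (z : Tab α β k) :
    ex (yM α β k i h * N) z = T i h (ex N z) := by
  funext x
  by_cases hx : IsTab α β k x
  · have h1 : ex (yM α β k i h * N) z x = (yM α β k i h * N) ⟨x, hx⟩ z := by
      unfold ex
      rw [dif_pos hx]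
    rw [h1, mul_apply_eq]
  · have h1 : ex (yM α β k i h * N) z x = 0 := by
      unfold ex
      rw [dif_neg hx]
    have h2 : ex N z x = 0 := by
      unfold ex
      rw [dif_neg hx]
    rw [h1]
    unfold T
    rw [h2, mul_zero, zero_add]
    by_cases hs : IsTab α β k (x ∘ sw i h)
    · have h3 : ¬ IsTab α β k ((x ∘ sw i h) ∘ sw i h) := by
        rw [sw_sw]
        exact hx
      have h4 := yd_sq_eq_one (⟨x ∘ sw i h, hs⟩ : Tab α β k) i h h3
      have h5 : yd x i h ^ 2 = 1 := by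
        have := yd_sw x i h
        simp only at h4
        rw [this] at h4
        nlinarith
      rw [h5]
      simp
    · have h3 : ex N z (x ∘ sw i h) = 0 := by
        unfold ex
        rw [dif_neg hs]
      rw [h3, mul_zero]

theorem braid_perm {k : ℕ} (i : ℕ) (h : i + 1 + 1 < k) (x : Fin k → ℕ × ℕ) :
    ((x ∘ sw i (by omega)) ∘ sw (i + 1) h) ∘ sw i (by omega) =
      ((x ∘ sw (i + 1) h) ∘ sw i (by omega)) ∘ sw (i + 1) h := by
  have h1 : sw (k := k) i (by omega) * sw (i + 1) h * sw i (by omega) =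
      sw (i + 1) h * sw i (by omega) * sw (i + 1) h := by
    unfold sw
    have e1 : (⟨i + 1 + 1, h⟩ : Fin k) ≠ ⟨i + 1, by omega⟩ := by
      intro hh
      rw [Fin.mk.injEq] at hh
      omega
    have e2 : (⟨i + 1 + 1, h⟩ : Fin k) ≠ ⟨i, by omega⟩ := by
      intro hh
      rw [Fin.mk.injEq] at hh
      omega
    have e3 : (⟨i, by omega⟩ : Fin k) ≠ ⟨i + 1, by omega⟩ := by
      intro hh
      rw [Fin.mk.injEq] at hh
      omega
    have a1 := swap_mul_swap_mul_swap e3 e2.symm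
    have a2 := swap_mul_swap_mul_swap e1 e2
    rw [a1]
    rw [swap_comm (⟨i, by omega⟩ : Fin k) ⟨i + 1, by omega⟩,
      swap_comm (⟨i + 1, by omega⟩ : Fin k) ⟨i + 1 + 1, h⟩]
    rw [a2, swap_comm]
  have h2 : ∀ j, sw (k := k) i (by omega) (sw (i + 1) h (sw i (by omega) j)) =
      sw (i + 1) h (sw i (by omega) (sw (i + 1) h j)) := by
    intro j
    have := congrArg (fun p => p j) h1
    simpa [Perm.mul_apply] using this
  funext j
  simp only [Function.comp_apply]
  rw [h2 j]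

theorem braid_alg (p q r wp wq wr e a b ab ba aba : ℝ) (hpq : p * q = r * (p + q))
    (hp : wp * wp = 1 - p ^ 2) (hq : wq * wq = 1 - q ^ 2) :
    p * (q * (p * e + wp * a) + wq * (r * b + wr * ba)) +
      wp * (r * (-p * a + wp * e) + wr * (q * ab + wq * aba)) =
    q * (p * (q * e + wq * b) + wp * (r * a + wr * ab)) +
      wq * (r * (-q * b + wq * e) + wr * (p * ba + wp * aba)) := by
  have h1 : p * q * p + wp * wp * r = p * q * q + wq * wq * r := by
    rw [hp, hq]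
    linear_combination (p - q) * hpq
  linear_combination e * h1 + (wp * a - wq * b) * hpq

theorem inv_sq_le {m : ℤ} (hm : m ≠ 0) : (1 / (m : ℝ)) ^ 2 ≤ 1 := by
  have h1 : (1 : ℝ) ≤ |(m : ℝ)| := by
    have := Int.one_le_abs hm
    exact_mod_cast this
  have h2 : (1 : ℝ) ≤ (m : ℝ) ^ 2 := by
    rw [← sq_abs]
    nlinarith
  rw [div_pow, one_pow]
  rw [div_le_one (by linarith)]
  exact h2

end YMBaux

open YMBaux

theorem yM_braid (α β : YoungDiagram) (k i : ℕ) (h : i + 1 + 1 < k) :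
    yM α β k i (by omega) * yM α β k (i + 1) h * yM α β k i (by omega) =
      yM α β k (i + 1) h * yM α β k i (by omega) * yM α β k (i + 1) h := by
  classical
  ext x z
  have hi : i + 1 < k := by omega
  have hL : (yM α β k i hi * yM α β k (i + 1) h * yM α β k i hi) x z =
      T i hi (T (i + 1) h (T i hi (ex 1 z))) x.1 := by
    rw [Matrix.mul_assoc, mul_apply_eq, ex_mul]
    have : ex (yM α β k i hi) z = T i hi (ex 1 z) := by
      rw [← ex_mul, Matrix.mul_one]
    rw [this]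
  have hR : (yM α β k (i + 1) h * yM α β k i hi * yM α β k (i + 1) h) x z =
      T (i + 1) h (T i hi (T (i + 1) h (ex 1 z))) x.1 := by
    rw [Matrix.mul_assoc, mul_apply_eq, ex_mul]
    have : ex (yM α β k (i + 1) h) z = T (i + 1) h (ex 1 z) := by
      rw [← ex_mul, Matrix.mul_one]
    rw [this]
  rw [hL, hR]
  have hXY := ct_ne_succ x i hi
  have hYZ := ct_ne_succ x (i + 1) h
  have hXZ := ct_ne_succ2 x i h
  -- positions
  set A : Fin k := ⟨i, by omega⟩ with hA
  set B : Fin k := ⟨i + 1, by omega⟩ with hB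
  set C : Fin k := ⟨i + 1 + 1, h⟩ with hC
  have hAB : A ≠ B := by
    intro hh
    rw [hA, hB, Fin.mk.injEq] at hh
    omega
  have hAC : A ≠ C := by
    intro hh
    rw [hA, hC, Fin.mk.injEq] at hh
    omega
  have hBC : B ≠ C := by
    intro hh
    rw [hB, hC, Fin.mk.injEq] at hh
    omega
  have hswi : sw i hi = swap A B := rfl
  have hswj : sw (i + 1) h = swap B C := rfl
  set f : (Fin k → ℕ × ℕ) → ℝ := ex 1 z with hf
  set w := x.1 with hw
  have aA : (w ∘ sw i hi) A = w B := by rw [hswi]; simp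
  have aB : (w ∘ sw i hi) B = w A := by rw [hswi]; simp
  have aC : (w ∘ sw i hi) C = w C := by
    rw [hswi]; simp only [Function.comp_apply]; rw [swap_apply_of_ne_of_ne hAC.symm hBC.symm]
  have bA : (w ∘ sw (i + 1) h) A = w A := by
    rw [hswj]; simp only [Function.comp_apply]; rw [swap_apply_of_ne_of_ne hAB hAC]
  have bB : (w ∘ sw (i + 1) h) B = w C := by rw [hswj]; simp
  have bC : (w ∘ sw (i + 1) h) C = w B := by rw [hswj]; simp
  have abA : ((w ∘ sw i hi) ∘ sw (i + 1) h) A = w B := by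
    rw [Function.comp_apply, hswj, swap_apply_of_ne_of_ne hAB hAC]
    exact aA
  have abB : ((w ∘ sw i hi) ∘ sw (i + 1) h) B = w C := by
    rw [Function.comp_apply, hswj, swap_apply_left]
    exact aC
  have baB : ((w ∘ sw (i + 1) h) ∘ sw i hi) B = w A := by
    rw [Function.comp_apply, hswi, swap_apply_right]
    exact bA
  have baC : ((w ∘ sw (i + 1) h) ∘ sw i hi) C = w B := by
    rw [Function.comp_apply, hswi, swap_apply_of_ne_of_ne hAC.symm hBC.symm]
    exact bC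
  set p : ℝ := yd w i hi with hp
  set q : ℝ := yd w (i + 1) h with hq
  set r : ℝ := 1 / ((ct (w C) - ct (w A) : ℤ) : ℝ) with hr
  have ydw : ∀ (v : Fin k → ℕ × ℕ), yd v i hi = 1 / ((ct (v B) - ct (v A) : ℤ) : ℝ) :=
    fun v => rfl
  have ydw' : ∀ (v : Fin k → ℕ × ℕ), yd v (i + 1) h = 1 / ((ct (v C) - ct (v B) : ℤ) : ℝ) :=
    fun v => rfl
  have y1 : yd (w ∘ sw i hi) i hi = -p := yd_sw w i hi
  have y2 : yd (w ∘ sw i hi) (i + 1) h = r := by
    rw [ydw', aC, aB]
  have y3 : yd (w ∘ sw (i + 1) h) i hi = r := by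
    rw [ydw, bA, bB]
  have y4 : yd (w ∘ sw (i + 1) h) (i + 1) h = -q := yd_sw w (i + 1) h
  have y5 : yd ((w ∘ sw i hi) ∘ sw (i + 1) h) i hi = q := by
    rw [ydw, abA, abB, hq, ydw']
  have y6 : yd ((w ∘ sw (i + 1) h) ∘ sw i hi) (i + 1) h = p := by
    rw [ydw', baB, baC, hp, ydw]
  have hX : ((ct (w B) - ct (w A) : ℤ) : ℝ) ≠ 0 := by
    rw [Int.cast_ne_zero]
    exact sub_ne_zero.2 (Ne.symm hXY)
  have hY : ((ct (w C) - ct (w B) : ℤ) : ℝ) ≠ 0 := by
    rw [Int.cast_ne_zero]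
    exact sub_ne_zero.2 (Ne.symm hYZ)
  have hZ : ((ct (w C) - ct (w A) : ℤ) : ℝ) ≠ 0 := by
    rw [Int.cast_ne_zero]
    exact sub_ne_zero.2 (Ne.symm hXZ)
  have hpqr : p * q = r * (p + q) := by
    rw [hp, hq, hr, ydw, ydw']
    rw [div_add_div _ _ hX hY, div_mul_div_comm, div_mul_div_comm, div_eq_div_iff
      (mul_ne_zero hX hY) (mul_ne_zero hZ (mul_ne_zero hX hY))]
    push_cast
    ring
  have hp2 : Real.sqrt (1 - p ^ 2) * Real.sqrt (1 - p ^ 2) = 1 - p ^ 2 := by
    apply Real.mul_self_sqrt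
    have := inv_sq_le (m := ct (w B) - ct (w A)) (sub_ne_zero.2 (Ne.symm hXY))
    have h3 : p ^ 2 ≤ 1 := this
    linarith
  have hq2 : Real.sqrt (1 - q ^ 2) * Real.sqrt (1 - q ^ 2) = 1 - q ^ 2 := by
    apply Real.mul_self_sqrt
    have := inv_sq_le (m := ct (w C) - ct (w B)) (sub_ne_zero.2 (Ne.symm hYZ))
    have h3 : q ^ 2 ≤ 1 := this
    linarith
  have key := braid_alg p q r (Real.sqrt (1 - p ^ 2)) (Real.sqrt (1 - q ^ 2))
    (Real.sqrt (1 - r ^ 2)) (f w) (f (w ∘ sw i hi)) (f (w ∘ sw (i + 1) h))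
    (f ((w ∘ sw i hi) ∘ sw (i + 1) h)) (f ((w ∘ sw (i + 1) h) ∘ sw i hi))
    (f (((w ∘ sw i hi) ∘ sw (i + 1) h) ∘ sw i hi)) hpqr hp2 hq2
  have hbr := braid_perm i h w
  unfold T
  rw [sw_sw w i hi, sw_sw w (i + 1) h, ← hbr, y1, y2, y3, y4, y5, y6]
  rw [neg_sq, neg_sq]
  exact key

end Pool.MP322
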