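import Pool.Agent.Lib.MP_322c5f_al.Pres
import Pool.Agent.Lib.MP_322c5f_al.TabB
import Pool.Agent.Lib.MP_322c5f_al.YMA
import Pool.Agent.Lib.MP_322c5f_al.YMB

/-! The (skew) representations of the symmetric group in Young's orthogonal form. -/

set_option autoImplicit false

open Equiv Finset

namespace Pool.MP322

theorem exists_rep (α β : YoungDiagram) (k : ℕ) :
    ∃ f : Perm (Fin k) →* Matrix (Tab α β k) (Tab α β k) ℝ,
      ∀ i (h : i + 1 < k), f (sw i h) = yM α β k i h :=
  perm_presentation k (fun i h => yM α β k i h) (fun i h => yM_sq α β k i h)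
    (fun i j hi hj hij => yM_comm α β k i j hi hj hij) (fun i h => yM_braid α β k i h)

/-- the representation of `Perm (Fin k)` attached to the skew shape `β/α`. -/
noncomputable def rep (α β : YoungDiagram) (k : ℕ) :
    Perm (Fin k) →* Matrix (Tab α β k) (Tab α β k) ℝ :=
  Classical.choose (exists_rep α β k)

theorem rep_sw (α β : YoungDiagram) (k i : ℕ) (h : i + 1 < k) :
    rep α β k (sw i h) = yM α β k i h :=
  Classical.choose_spec (exists_rep α β k) i h

theorem sw_inv {k : ℕ} (i : ℕ) (h : i + 1 < k) : (sw i h : Perm (Fin k))⁻¹ = sw i h := by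
  unfold sw
  exact Equiv.swap_inv _ _

theorem rep_transpose (α β : YoungDiagram) (k : ℕ) (σ : Perm (Fin k)) :
    (rep α β k σ).transpose = rep α β k σ⁻¹ := by
  induction σ using perm_induction with
  | one => simp
  | mul i h σ ih =>
    rw [map_mul, Matrix.transpose_mul, ih, rep_sw, yM_symm, ← rep_sw, mul_inv_rev, map_mul, sw_inv]

end Pool.MP322
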