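import Pool.Agent.Lib.MP_322c5f_al.Row

/-! job SQ-24: the space of vectors fixed by the symmetric group of the first `m` letters in the
representation of the diagram (m, nu) is the representation of nu. -/

set_option autoImplicit false

open Equiv Finset

namespace Pool.MP322

namespace RowEmb

theorem col_lt {k : ℕ} (nu : Y k) (c : ℕ × ℕ) (hc : c ∈ nu.1) : c.2 < k := by
  have hsub : (Finset.range (c.2 + 1)).image (fun i => ((c.1, i) : ℕ × ℕ)) ⊆ nu.1.cells := by
    intro d hd
    obtain ⟨i, hi, rfl⟩ := Finset.mem_image.1 hd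
    rw [Finset.mem_range] at hi
    exact (YoungDiagram.mem_cells _).2
      (nu.1.up_left_mem le_rfl (by omega) (show (c.1, c.2) ∈ nu.1 from hc))
  have h1 := Finset.card_le_card hsub
  rw [Finset.card_image_of_injective _ (fun a b h => congrArg Prod.snd h), Finset.card_range] at h1
  have h2 : nu.1.cells.card = k := nu.2
  omega

/-- the sequence of cells of `(m, nu)` attached to a sequence of cells of `nu`. -/
def xs (m : ℕ) {k : ℕ} (s : Fin k → ℕ × ℕ) : Fin (m + k) → ℕ × ℕ :=
  Fin.append (fun i : Fin m => (0, (i : ℕ))) (fun i => ((s i).1 + 1, (s i).2))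

theorem xs_cast {m k : ℕ} (s : Fin k → ℕ × ℕ) (i : Fin m) :
    xs m s (Fin.castAdd k i) = (0, (i : ℕ)) := by
  unfold xs
  rw [Fin.append_left]

theorem xs_nat {m k : ℕ} (s : Fin k → ℕ × ℕ) (i : Fin k) :
    xs m s (Fin.natAdd m i) = ((s i).1 + 1, (s i).2) := by
  unfold xs
  rw [Fin.append_right]

theorem xs_inj {m k : ℕ} {s s' : Fin k → ℕ × ℕ} (h : xs m s = xs m s') : s = s' := by
  funext i
  have h1 := congrFun h (Fin.natAdd m i)
  rw [xs_nat, xs_nat] at h1
  have h2 := congrArg Prod.fst h1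
  have h3 := congrArg Prod.snd h1
  simp only at h2 h3
  exact Prod.ext (by omega) h3

theorem cast_le_cast {m k : ℕ} {i j : Fin m} (h : i.1 ≤ j.1) :
    Fin.castAdd k i ≤ Fin.castAdd k j := h

theorem xs_isTab {m k : ℕ} (hkm : k ≤ m) (nu : Y k) {s : Fin k → ℕ × ℕ}
    (hs : IsTab ⊥ nu.1 k s) : IsTab ⊥ (addRowY hkm nu).1 (m + k) (xs m s) := by
  obtain ⟨h1, h2, h3, h4⟩ := hs
  have hmem : ∀ i, s i ∈ nu.1 := fun i => (h3 _).2 (Or.inr ⟨i, rfl⟩)
  refine ⟨?_, fun i => YoungDiagram.notMem_bot _, ?_, ?_⟩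
  · intro a b
    refine Fin.addCases (fun i => ?_) (fun i => ?_) a <;>
      refine Fin.addCases (fun j => ?_) (fun j => ?_) b
    · intro h
      rw [xs_cast, xs_cast] at h
      have : i = j := Fin.ext (congrArg Prod.snd h)
      rw [this]
    · intro h
      rw [xs_cast, xs_nat] at h
      have := congrArg Prod.fst h
      simp at this
    · intro h
      rw [xs_cast, xs_nat] at h
      have := congrArg Prod.fst h
      simp at this
    · intro h
      rw [xs_nat, xs_nat] at h
      have h5 := congrArg Prod.fst h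
      have h6 := congrArg Prod.snd h
      simp only at h5 h6
      have : i = j := h1 (Prod.ext (by omega) h6)
      rw [this]
  · intro c
    show c ∈ addRow m nu.1 ↔ _
    rw [mem_addRow]
    constructor
    · rintro ⟨hm, h0 | ⟨i, hi, hmem'⟩⟩
      · exact Or.inr ⟨Fin.castAdd k ⟨c.2, hm⟩, by rw [xs_cast]; exact Prod.ext h0.symm rfl⟩
      · rcases (h3 _).1 hmem' with h | ⟨j, hj⟩
        · exact absurd h (YoungDiagram.notMem_bot _)
        · refine Or.inr ⟨Fin.natAdd m j, ?_⟩
          rw [xs_nat, hj]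
          exact Prod.ext hi.symm rfl
    · rintro (h | ⟨i, hi⟩)
      · exact absurd h (YoungDiagram.notMem_bot _)
      · revert hi
        refine Fin.addCases (fun j => ?_) (fun j => ?_) i
        · intro h
          rw [xs_cast] at h
          rw [← h]
          exact ⟨j.2, Or.inl rfl⟩
        · intro h
          rw [xs_nat] at h
          rw [← h]
          exact ⟨lt_of_lt_of_le (col_lt nu (s j) (hmem j)) hkm, Or.inr ⟨(s j).1, rfl, hmem j⟩⟩
  · intro i c
    refine Fin.addCases (fun j => ?_) (fun j => ?_) i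
    · intro h
      rw [xs_cast] at h
      have ha : c.1 ≤ 0 := h.1
      have hb : c.2 ≤ j.1 := h.2
      have hj := j.2
      refine Or.inr ⟨Fin.castAdd k ⟨c.2, by omega⟩, cast_le_cast hb, ?_⟩
      rw [xs_cast]
      exact Prod.ext (by simp only; omega) rfl
    · intro h
      rw [xs_nat] at h
      have ha : c.1 ≤ (s j).1 + 1 := h.1
      have hb : c.2 ≤ (s j).2 := h.2
      have hc2 := lt_of_lt_of_le (col_lt nu _ (hmem j)) hkm
      rcases Nat.eq_zero_or_pos c.1 with h0 | h0
      · refine Or.inr ⟨Fin.castAdd k ⟨c.2, by omega⟩, ?_, ?_⟩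
        · show c.2 ≤ m + j.1
          omega
        · rw [xs_cast]
          exact Prod.ext h0.symm rfl
      · have hle : ((c.1 - 1, c.2) : ℕ × ℕ) ≤ s j := ⟨by simp only; omega, hb⟩
        rcases h4 j _ hle with h | ⟨l, hl, hlc⟩
        · exact absurd h (YoungDiagram.notMem_bot _)
        · refine Or.inr ⟨Fin.natAdd m l, ?_, ?_⟩
          · have : l.1 ≤ j.1 := hl
            show m + l.1 ≤ m + j.1
            omega
          · rw [xs_nat, hlc]
            exact Prod.ext (by simp only; omega) rfl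

/-- the embedding of fillings. -/
def emb {m k : ℕ} (hkm : k ≤ m) (nu : Y k) (s : Tab ⊥ nu.1 k) :
    Tab ⊥ (addRowY hkm nu).1 (m + k) := ⟨xs m s.1, xs_isTab hkm nu s.2⟩

theorem emb_inj {m k : ℕ} (hkm : k ≤ m) (nu : Y k) : Function.Injective (emb hkm nu) := by
  intro s s' h
  exact Subtype.ext (xs_inj (congrArg Subtype.val h))

theorem exists_emb {m k : ℕ} (hkm : k ≤ m) (nu : Y k) (x : Tab ⊥ (addRowY hkm nu).1 (m + k))
    (hx : ∀ i : Fin m, x.1 (Fin.castAdd k i) = (0, (i : ℕ))) : ∃ s, x = emb hkm nu s := by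
  obtain ⟨x, h1, h2, h3, h4⟩ := x
  simp only at hx
  have hpos : ∀ i : Fin k, 1 ≤ (x (Fin.natAdd m i)).1 := by
    intro i
    by_contra hcon
    have hmem : x (Fin.natAdd m i) ∈ addRow m nu.1 := (h3 _).2 (Or.inr ⟨_, rfl⟩)
    rw [mem_addRow] at hmem
    have h5 := hx ⟨(x (Fin.natAdd m i)).2, hmem.1⟩
    have h6 : x (Fin.castAdd k ⟨(x (Fin.natAdd m i)).2, hmem.1⟩) = x (Fin.natAdd m i) := by
      rw [h5]
      exact Prod.ext (by simp only; omega) rfl
    have h7 := congrArg Fin.val (h1 h6)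
    simp only [Fin.val_castAdd, Fin.val_natAdd] at h7
    have := hmem.1
    omega
  set s : Fin k → ℕ × ℕ := fun i => ((x (Fin.natAdd m i)).1 - 1, (x (Fin.natAdd m i)).2) with hs
  have hsx : ∀ i, x (Fin.natAdd m i) = ((s i).1 + 1, (s i).2) := by
    intro i
    have := hpos i
    exact Prod.ext (by simp only [hs]; omega) rfl
  have hnat : ∀ j : Fin (m + k), 1 ≤ (x j).1 → ∃ i, j = Fin.natAdd m i := by
    intro j
    refine Fin.addCases (fun a => ?_) (fun a => ?_) j
    · intro h
      rw [hx] at h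
      simp at h
    · intro _; exact ⟨a, rfl⟩
  have hT : IsTab ⊥ nu.1 k s := by
    refine ⟨?_, fun i => YoungDiagram.notMem_bot _, ?_, ?_⟩
    · intro i j hij
      have h5 : x (Fin.natAdd m i) = x (Fin.natAdd m j) := by rw [hsx, hsx, hij]
      have h7 := congrArg Fin.val (h1 h5)
      simp only [Fin.val_natAdd] at h7
      exact Fin.ext (by omega)
    · intro c
      constructor
      · intro hc
        have hmem : ((c.1 + 1, c.2) : ℕ × ℕ) ∈ addRow m nu.1 := by
          rw [mem_addRow]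
          exact ⟨lt_of_lt_of_le (col_lt nu c hc) hkm, Or.inr ⟨c.1, rfl, hc⟩⟩
        rcases (h3 _).1 hmem with h | ⟨j, hj⟩
        · exact absurd h (YoungDiagram.notMem_bot _)
        · obtain ⟨i, rfl⟩ := hnat j (by rw [hj]; simp)
          refine Or.inr ⟨i, ?_⟩
          rw [hsx] at hj
          have h5 := congrArg Prod.fst hj
          have h6 := congrArg Prod.snd hj
          simp only at h5 h6
          exact Prod.ext (by omega) h6
      · rintro (h | ⟨i, hi⟩)
        · exact absurd h (YoungDiagram.notMem_bot _)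
        · have hmem : x (Fin.natAdd m i) ∈ addRow m nu.1 := (h3 _).2 (Or.inr ⟨_, rfl⟩)
          rw [hsx, hi, mem_addRow] at hmem
          rcases hmem.2 with h | ⟨a, ha, hmem'⟩
          · simp at h
          · simp only at ha hmem'
            have : c = (a, c.2) := Prod.ext (by simp only; omega) rfl
            rw [this]
            exact hmem'
    · intro i c hc
      have hle : ((c.1 + 1, c.2) : ℕ × ℕ) ≤ x (Fin.natAdd m i) := by
        rw [hsx]
        exact ⟨Nat.succ_le_succ hc.1, hc.2⟩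
      rcases h4 _ _ hle with h | ⟨j, hj, hjc⟩
      · exact absurd h (YoungDiagram.notMem_bot _)
      · obtain ⟨l, rfl⟩ := hnat j (by rw [hjc]; simp)
        refine Or.inr ⟨l, ?_, ?_⟩
        · have : m + l.1 ≤ m + i.1 := hj
          show l.1 ≤ i.1
          omega
        · rw [hsx] at hjc
          have h5 := congrArg Prod.fst hjc
          have h6 := congrArg Prod.snd hjc
          simp only at h5 h6
          exact Prod.ext (by omega) h6
  refine ⟨⟨s, hT⟩, ?_⟩
  apply Subtype.ext
  funext j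
  show x j = xs m s j
  refine Fin.addCases (fun a => ?_) (fun a => ?_) j
  · rw [xs_cast, hx]
  · rw [xs_nat, hsx]

theorem sw_nat {m k : ℕ} (i : ℕ) (h : i + 1 < k) (a : Fin k) :
    sw (m + i) (show m + i + 1 < m + k by omega) (Fin.natAdd m a) =
      Fin.natAdd m (sw i h a) := by
  have hik : i < k := by omega
  unfold sw
  by_cases h1 : a = ⟨i, hik⟩
  · subst h1
    rw [swap_apply_left]
    exact swap_apply_left _ _
  · by_cases h2 : a = ⟨i + 1, h⟩
    · subst h2
      rw [swap_apply_right]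
      exact swap_apply_right _ _
    · rw [swap_apply_of_ne_of_ne h1 h2]
      apply swap_apply_of_ne_of_ne
      · intro hh
        have := congrArg Fin.val hh
        simp only [Fin.val_natAdd] at this
        exact h1 (Fin.ext (by simp only; omega))
      · intro hh
        have := congrArg Fin.val hh
        simp only [Fin.val_natAdd] at this
        exact h2 (Fin.ext (by simp only; omega))

theorem sw_cast {m k : ℕ} (i : ℕ) (h : m + i + 1 < m + k) (a : Fin m) :
    sw (m + i) h (Fin.castAdd k a) = Fin.castAdd k a := by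
  have ha := a.2
  unfold sw
  apply swap_apply_of_ne_of_ne
  · intro hh
    have := congrArg Fin.val hh
    simp only [Fin.val_castAdd] at this
    omega
  · intro hh
    have := congrArg Fin.val hh
    simp only [Fin.val_castAdd] at this
    omega

theorem xs_comp_sw {m k : ℕ} (s : Fin k → ℕ × ℕ) (i : ℕ) (h : i + 1 < k) :
    xs m s ∘ sw (m + i) (show m + i + 1 < m + k by omega) = xs m (s ∘ sw i h) := by
  funext j
  rw [Function.comp_apply]
  refine Fin.addCases (fun a => ?_) (fun a => ?_) j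
  · rw [sw_cast, xs_cast, xs_cast]
  · rw [sw_nat i h, xs_nat, xs_nat]
    rfl

theorem yd_xs {m k : ℕ} (s : Fin k → ℕ × ℕ) (i : ℕ) (h : i + 1 < k) :
    yd (xs m s) (m + i) (show m + i + 1 < m + k by omega) = yd s i h := by
  have hik : i < k := by omega
  have e1 : xs m s ⟨m + i, by omega⟩ = ((s ⟨i, hik⟩).1 + 1, (s ⟨i, hik⟩).2) :=
    xs_nat s ⟨i, hik⟩
  have e2 : xs m s ⟨m + i + 1, by omega⟩ = ((s ⟨i + 1, h⟩).1 + 1, (s ⟨i + 1, h⟩).2) :=
    xs_nat s ⟨i + 1, h⟩
  unfold yd
  rw [e1, e2]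
  unfold ct
  push_cast
  congr 1
  ring

theorem yM_emb {m k : ℕ} (hkm : k ≤ m) (nu : Y k) (i : ℕ) (h : i + 1 < k)
    (s' s : Tab ⊥ nu.1 k) :
    yM ⊥ (addRowY hkm nu).1 (m + k) (m + i) (show m + i + 1 < m + k by omega)
      (emb hkm nu s') (emb hkm nu s) = yM ⊥ nu.1 k i h s' s := by
  by_cases h1 : s = s'
  · subst h1
    rw [YMBaux.yM_diag, YMBaux.yM_diag]
    exact yd_xs s.1 i h
  · have h1' : emb hkm nu s ≠ emb hkm nu s' := fun hh => h1 (emb_inj hkm nu hh)
    by_cases h2 : s.1 = s'.1 ∘ sw i h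
    · rw [YMBaux.yM_off i h s' s h1 h2, YMBaux.yM_off _ _ _ _ h1' (by
        show xs m s.1 = xs m s'.1 ∘ _
        rw [xs_comp_sw, h2])]
      have := yd_xs (m := m) s'.1 i h
      show Real.sqrt (1 - yd (xs m s'.1) _ _ ^ 2) = _
      rw [this]
    · rw [YMBaux.yM_zero i h s' s h1 h2, YMBaux.yM_zero _ _ _ _ h1' (by
        intro hh
        apply h2
        have hh' : xs m s.1 = xs m s'.1 ∘ sw (m + i) (show m + i + 1 < m + k by omega) := hh
        rw [xs_comp_sw _ i h] at hh'
        exact xs_inj hh')]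

theorem yM_emb_zero {m k : ℕ} (hkm : k ≤ m) (nu : Y k) (i : ℕ) (h : i + 1 < k)
    (x : Tab ⊥ (addRowY hkm nu).1 (m + k)) (hx : ∀ s, x ≠ emb hkm nu s) (s : Tab ⊥ nu.1 k) :
    yM ⊥ (addRowY hkm nu).1 (m + k) (m + i) (show m + i + 1 < m + k by omega)
      x (emb hkm nu s) = 0 := by
  apply YMBaux.yM_zero _ _ _ _ (hx s).symm
  intro hh
  have hh' : xs m s.1 = x.1 ∘ sw (m + i) (show m + i + 1 < m + k by omega) := hh
  obtain ⟨s'', hs''⟩ := exists_emb hkm nu x (by
    intro a
    have h1 := congrFun hh' (Fin.castAdd k a)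
    rw [Function.comp_apply, sw_cast, xs_cast] at h1
    exact h1.symm)
  exact hx s'' hs''

theorem yM_left {m k : ℕ} (hkm : k ≤ m) (nu : Y k) (i : ℕ) (h : i + 1 < m)
    (x : Tab ⊥ (addRowY hkm nu).1 (m + k)) (s : Tab ⊥ nu.1 k) [Decidable (x = emb hkm nu s)] :
    yM ⊥ (addRowY hkm nu).1 (m + k) i (show i + 1 < m + k by omega) x (emb hkm nu s) =
      if x = emb hkm nu s then 1 else 0 := by
  have hyx : yd (emb hkm nu s).1 i (show i + 1 < m + k by omega) = 1 := by
    have him : i < m := by omega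
    have e1 : (emb hkm nu s).1 ⟨i, by omega⟩ = (0, i) := xs_cast (m := m) s.1 ⟨i, him⟩
    have e2 : (emb hkm nu s).1 ⟨i + 1, by omega⟩ = (0, i + 1) := xs_cast (m := m) s.1 ⟨i + 1, h⟩
    unfold yd
    rw [e1, e2]
    unfold ct
    simp
  by_cases hx : x = emb hkm nu s
  · rw [if_pos hx, hx, YMBaux.yM_diag, hyx]
  · rw [if_neg hx]
    by_cases h2 : (emb hkm nu s).1 = x.1 ∘ sw i (show i + 1 < m + k by omega)
    · rw [YMBaux.yM_off _ _ _ _ (Ne.symm hx) h2]
      have h3 : yd x.1 i (show i + 1 < m + k by omega) = -1 := by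
        have h4 := yd_sw x.1 i (show i + 1 < m + k by omega)
        rw [← h2, hyx] at h4
        linarith
      rw [h3]
      simp
    · exact YMBaux.yM_zero _ _ _ _ (Ne.symm hx) h2

end RowEmb

theorem exists_rowEmb {m k : ℕ} (hkm : k ≤ m) (nu : Y k) :
    ∃ R : Matrix (Tab ⊥ (addRowY hkm nu).1 (m + k)) (Tab ⊥ nu.1 k) ℝ,
      (∀ π : Perm (Fin k), rep ⊥ (addRowY hkm nu).1 (m + k) (iR m k π) * R =
        R * rep ⊥ nu.1 k π) ∧
      (∀ σ : Perm (Fin m), rep ⊥ (addRowY hkm nu).1 (m + k) (iL m k σ) * R = R) ∧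
      R.transpose * R = 1 ∧
      (∀ v : Tab ⊥ (addRowY hkm nu).1 (m + k) → ℝ,
        (∀ σ : Perm (Fin m), (rep ⊥ (addRowY hkm nu).1 (m + k) (iL m k σ)).mulVec v = v) →
          ∃ w, v = R.mulVec w) := by
  classical
  set R : Matrix (Tab ⊥ (addRowY hkm nu).1 (m + k)) (Tab ⊥ nu.1 k) ℝ :=
    Matrix.of fun x s => if x = RowEmb.emb hkm nu s then 1 else 0 with hR
  have hRa : ∀ x s, R x s = if x = RowEmb.emb hkm nu s then 1 else 0 := fun x s => rfl
  have hmulR : ∀ (M : Matrix (Tab ⊥ (addRowY hkm nu).1 (m + k))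
      (Tab ⊥ (addRowY hkm nu).1 (m + k)) ℝ) x s, (M * R) x s = M x (RowEmb.emb hkm nu s) := by
    intro M x s
    rw [Matrix.mul_apply, Finset.sum_eq_single (RowEmb.emb hkm nu s)]
    · rw [hRa, if_pos rfl, mul_one]
    · intro y _ hy
      rw [hRa, if_neg hy, mul_zero]
    · intro hh
      exact absurd (Finset.mem_univ _) hh
  have hRmul : ∀ (M : Matrix (Tab ⊥ nu.1 k) (Tab ⊥ nu.1 k) ℝ) s' s,
      (R * M) (RowEmb.emb hkm nu s') s = M s' s := by
    intro M s' s
    rw [Matrix.mul_apply, Finset.sum_eq_single s']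
    · rw [hRa, if_pos rfl, one_mul]
    · intro y _ hy
      rw [hRa, if_neg (fun hh => hy (RowEmb.emb_inj hkm nu hh).symm), zero_mul]
    · intro hh
      exact absurd (Finset.mem_univ _) hh
  have hRmul0 : ∀ (M : Matrix (Tab ⊥ nu.1 k) (Tab ⊥ nu.1 k) ℝ) x s,
      (∀ s', x ≠ RowEmb.emb hkm nu s') → (R * M) x s = 0 := by
    intro M x s hx
    rw [Matrix.mul_apply]
    apply Finset.sum_eq_zero
    intro s' _
    rw [hRa, if_neg (hx s'), zero_mul]
  refine ⟨R, ?_, ?_, ?_, ?_⟩
  · intro π
    induction π using perm_induction with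
    | one => simp
    | mul i h σ ih =>
      have hsw : rep ⊥ (addRowY hkm nu).1 (m + k) (iR m k (sw i h)) * R =
          R * rep ⊥ nu.1 k (sw i h) := by
        rw [iR_sw, rep_sw, rep_sw]
        ext x s
        rw [hmulR]
        by_cases hx : ∃ s', x = RowEmb.emb hkm nu s'
        · obtain ⟨s', rfl⟩ := hx
          rw [hRmul]
          exact RowEmb.yM_emb hkm nu i h s' s
        · have hx' : ∀ s', x ≠ RowEmb.emb hkm nu s' := fun s' hh => hx ⟨s', hh⟩
          rw [hRmul0 _ _ _ hx']
          exact RowEmb.yM_emb_zero hkm nu i h x hx' s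
      rw [map_mul, map_mul, Matrix.mul_assoc, ih, ← Matrix.mul_assoc, hsw, Matrix.mul_assoc,
        ← map_mul]
  · intro σ
    induction σ using perm_induction with
    | one => simp
    | mul i h σ ih =>
      rw [map_mul, map_mul, Matrix.mul_assoc, ih, iL_sw, rep_sw]
      ext x s
      rw [hmulR, hRa]
      exact RowEmb.yM_left hkm nu i h x s
  · ext s s'
    rw [Matrix.mul_apply, Matrix.one_apply, Finset.sum_eq_single (RowEmb.emb hkm nu s)]
    · rw [Matrix.transpose_apply, hRa, hRa, if_pos rfl, one_mul]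
      by_cases h : s = s'
      · subst h
        rw [if_pos rfl, if_pos rfl]
      · rw [if_neg h, if_neg (fun hh => h (RowEmb.emb_inj hkm nu hh))]
    · intro y _ hy
      rw [Matrix.transpose_apply, hRa, if_neg hy, zero_mul]
    · intro hh
      exact absurd (Finset.mem_univ _) hh
  · intro v hv
    refine ⟨fun s => v (RowEmb.emb hkm nu s), ?_⟩
    funext x
    show v x = ∑ s, R x s * v (RowEmb.emb hkm nu s)
    by_cases hx : ∃ s', x = RowEmb.emb hkm nu s'
    · obtain ⟨s', rfl⟩ := hx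
      rw [Finset.sum_eq_single s']
      · rw [hRa, if_pos rfl, one_mul]
      · intro y _ hy
        rw [hRa, if_neg (fun hh => hy (RowEmb.emb_inj hkm nu hh).symm), zero_mul]
      · intro hh
        exact absurd (Finset.mem_univ _) hh
    · have hx' : ∀ s', x ≠ RowEmb.emb hkm nu s' := fun s' hh => hx ⟨s', hh⟩
      rw [Finset.sum_eq_zero (fun s' _ => by rw [hRa, if_neg (hx' s'), zero_mul])]
      by_contra hne
      obtain ⟨s', hs'⟩ := RowEmb.exists_emb hkm nu x (fixed_support v hv x hne)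
      exact hx' s' hs'

end Pool.MP322
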