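import Pool.Agent.Lib.MP_322c5f_al.Conj

/-! Semigroup property, part 1: stabilisers of monotone words, row and column reading tableaux. -/

set_option autoImplicit false

open Equiv Finset Nat

namespace Pool.MP322

theorem sg_sw_fst {n : ℕ} (i : ℕ) (h : i + 1 < n) : sw i h (⟨i, by omega⟩ : Fin n) = ⟨i + 1, h⟩ := by
  unfold sw
  exact swap_apply_left _ _

theorem sg_sw_snd {n : ℕ} (i : ℕ) (h : i + 1 < n) : sw i h (⟨i + 1, h⟩ : Fin n) = ⟨i, by omega⟩ := by
  unfold sw
  exact swap_apply_right _ _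

theorem sg_sw_ne {n : ℕ} (i : ℕ) (h : i + 1 < n) (x : Fin n) (h1 : x ≠ ⟨i, by omega⟩)
    (h2 : x ≠ ⟨i + 1, h⟩) : sw i h x = x := by
  unfold sw
  exact swap_apply_of_ne_of_ne h1 h2

theorem sg_sum_sw {n : ℕ} (σ : Perm (Fin n)) (i : ℕ) (h : i + 1 < n)
    (hd : σ ⟨i + 1, h⟩ < σ ⟨i, by omega⟩) :
    ∑ j : Fin n, (j : ℕ) * (σ j : ℕ) < ∑ j : Fin n, (j : ℕ) * ((σ * sw i h) j : ℕ) := by
  classical
  have hne : (⟨i, by omega⟩ : Fin n) ≠ ⟨i + 1, h⟩ := by
    intro hh
    have := congrArg Fin.val hh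
    simp at this
  have h1 : ∀ f : Fin n → ℕ, ∑ j : Fin n, f j =
      f ⟨i, by omega⟩ + (f ⟨i + 1, h⟩ +
        ∑ j ∈ (univ.erase (⟨i, by omega⟩ : Fin n)).erase ⟨i + 1, h⟩, f j) := by
    intro f
    rw [← Finset.add_sum_erase univ f (Finset.mem_univ (⟨i, by omega⟩ : Fin n)),
      ← Finset.add_sum_erase (univ.erase (⟨i, by omega⟩ : Fin n)) f
        (Finset.mem_erase.2 ⟨hne.symm, Finset.mem_univ _⟩)]
  rw [h1, h1 (fun j => (j : ℕ) * ((σ * sw i h) j : ℕ))]
  have h2 : ∑ j ∈ (univ.erase (⟨i, by omega⟩ : Fin n)).erase ⟨i + 1, h⟩,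
      (j : ℕ) * ((σ * sw i h) j : ℕ) =
      ∑ j ∈ (univ.erase (⟨i, by omega⟩ : Fin n)).erase ⟨i + 1, h⟩, (j : ℕ) * (σ j : ℕ) := by
    refine Finset.sum_congr rfl fun j hj => ?_
    obtain ⟨h3, h4⟩ := Finset.mem_erase.1 hj
    rw [Perm.mul_apply, sg_sw_ne i h j (Finset.mem_erase.1 h4).1 h3]
  rw [h2]
  have h5 : (σ * sw i h) ⟨i, by omega⟩ = σ ⟨i + 1, h⟩ := by
    rw [Perm.mul_apply, sg_sw_fst]
  have h6 : (σ * sw i h) ⟨i + 1, h⟩ = σ ⟨i, by omega⟩ := by
    rw [Perm.mul_apply, sg_sw_snd]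
  simp only [h5, h6]
  have h7 : (σ ⟨i + 1, h⟩ : ℕ) < (σ ⟨i, by omega⟩ : ℕ) := hd
  nlinarith [h7]

/-- the stabiliser of a monotone word is generated by adjacent transpositions. -/
theorem stab_mono {n : ℕ} (u : Fin n → ℕ) (hu : Monotone u) (H : Subgroup (Perm (Fin n)))
    (hH : ∀ i (h : i + 1 < n), u ⟨i, by omega⟩ = u ⟨i + 1, h⟩ → sw i h ∈ H) :
    ∀ σ : Perm (Fin n), (∀ i, u (σ i) = u i) → σ ∈ H := by
  have hb : ∀ σ : Perm (Fin n), ∑ j : Fin n, (j : ℕ) * (σ j : ℕ) ≤ n * (n * n) := by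
    intro σ
    calc ∑ j : Fin n, (j : ℕ) * (σ j : ℕ) ≤ ∑ _j : Fin n, n * n :=
          Finset.sum_le_sum fun j _ => Nat.mul_le_mul j.2.le (σ j).2.le
      _ = n * (n * n) := by rw [Finset.sum_const, Finset.card_univ, Fintype.card_fin, smul_eq_mul]
  suffices H' : ∀ (k : ℕ) (σ : Perm (Fin n)), n * (n * n) - ∑ j : Fin n, (j : ℕ) * (σ j : ℕ) = k →
      (∀ i, u (σ i) = u i) → σ ∈ H by
    intro σ hσ
    exact H' _ σ rfl hσ
  intro k
  induction k using Nat.strong_induction_on with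
  | _ k ih =>
    intro σ hk hσ
    by_cases hdesc : ∃ i, ∃ h : i + 1 < n, σ ⟨i + 1, h⟩ < σ ⟨i, by omega⟩
    · obtain ⟨i, h, hd⟩ := hdesc
      have h1 := sg_sum_sw σ i h hd
      have h2 := hb (σ * sw i h)
      have hui : u ⟨i, by omega⟩ = u ⟨i + 1, h⟩ := by
        have h3 : u ⟨i, by omega⟩ ≤ u ⟨i + 1, h⟩ := hu (by
          rw [Fin.le_def]
          exact Nat.le_succ i)
        have h4 : u (σ ⟨i + 1, h⟩) ≤ u (σ ⟨i, by omega⟩) := hu hd.le
        rw [hσ, hσ] at h4
        exact le_antisymm h3 h4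
      have h5 : ∀ j, u ((σ * sw i h) j) = u j := by
        intro j
        rw [Perm.mul_apply, hσ]
        by_cases hj1 : j = ⟨i, by omega⟩
        · rw [hj1, sg_sw_fst]
          exact hui.symm
        · by_cases hj2 : j = ⟨i + 1, h⟩
          · rw [hj2, sg_sw_snd]
            exact hui
          · rw [sg_sw_ne i h j hj1 hj2]
      have h6 := ih _ (by omega) (σ * sw i h) rfl h5
      have h7 := H.mul_mem h6 (hH i h hui)
      rw [mul_assoc] at h7
      have h8 : sw i h * sw i h = 1 := by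
        unfold sw
        exact Equiv.swap_mul_self _ _
      rw [h8, mul_one] at h7
      exact h7
    · push Not at hdesc
      have hmono : StrictMono σ := by
        cases n with
        | zero => exact fun a => a.elim0
        | succ m =>
          rw [Fin.strictMono_iff_lt_succ]
          intro i
          have h1 := hdesc i.val (by have := i.2; omega)
          exact lt_of_le_of_ne h1 (fun hh => by
            have h2 := σ.injective hh
            have h3 := congrArg Fin.val h2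
            simp at h3)
      have h1 : σ = 1 := by
        have h2 : (StrictMono.orderIsoOfSurjective σ hmono σ.surjective) = OrderIso.refl (Fin n) :=
          Subsingleton.elim _ _
        ext x
        have h3 := congrArg (fun (f : Fin n ≃o Fin n) => f x) h2
        exact congrArg Fin.val h3
      rw [h1]
      exact H.one_mem

/-- the row reading tableau. -/
theorem exists_rowTab {n : ℕ} (lam : Y n) : ∃ T : Tab ⊥ lam.1 n,
    (Monotone fun i => (T.1 i).1) ∧
    ∀ i (h : i + 1 < n), (T.1 ⟨i, by omega⟩).1 = (T.1 ⟨i + 1, h⟩).1 →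
      (T.1 ⟨i + 1, h⟩).2 = (T.1 ⟨i, by omega⟩).2 + 1 := by
  classical
  set s : Finset (ℕ ×ₗ ℕ) := lam.1.cells.map (toLex (α := ℕ × ℕ)).toEmbedding with hs
  have hcard : s.card = n := by
    rw [hs, Finset.card_map]
    exact lam.2
  set e := s.orderEmbOfFin hcard with he
  have hmem : ∀ c : ℕ × ℕ, toLex c ∈ s ↔ c ∈ lam.1 := by
    intro c
    rw [hs, Finset.mem_map_equiv]
    exact YoungDiagram.mem_cells _
  have hrange : ∀ c : ℕ × ℕ, c ∈ lam.1 ↔ ∃ i, ofLex (e i) = c := by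
    intro c
    rw [← hmem]
    have h1 : toLex c ∈ Set.range e ↔ toLex c ∈ s := by
      rw [he, Finset.range_orderEmbOfFin]
      exact Finset.mem_coe
    rw [← h1]
    constructor
    · rintro ⟨i, hi⟩
      exact ⟨i, by rw [hi]; rfl⟩
    · rintro ⟨i, hi⟩
      exact ⟨i, by rw [← hi]; rfl⟩
  have hlow : ∀ i, ∀ c : ℕ × ℕ, c ≤ ofLex (e i) → ∃ j, j ≤ i ∧ ofLex (e j) = c := by
    intro i c hc
    have h1 : c ∈ lam.1 := lam.1.up_left_mem hc.1 hc.2 ((hrange _).2 ⟨i, rfl⟩)
    obtain ⟨j, hj⟩ := (hrange c).1 h1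
    refine ⟨j, ?_, hj⟩
    have h2 : e j ≤ e i := by
      have h3 : toLex c ≤ toLex (ofLex (e i)) := Prod.Lex.toLex_mono hc
      rw [← hj] at h3
      exact h3
    exact e.le_iff_le.1 h2
  have htab : IsTab ⊥ lam.1 n (fun i => ofLex (e i)) := by
    refine ⟨?_, fun i => YoungDiagram.notMem_bot _, ?_, ?_⟩
    · intro a b hab
      exact e.injective (ofLex.injective hab)
    · intro c
      rw [hrange]
      constructor
      · exact fun h => Or.inr h
      · rintro (h | h)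
        · exact absurd h (YoungDiagram.notMem_bot _)
        · exact h
    · intro i c hc
      exact Or.inr (hlow i c hc)
  have hfst : ∀ a b : Fin n, a < b → (ofLex (e a)).1 < (ofLex (e b)).1 ∨
      ((ofLex (e a)).1 = (ofLex (e b)).1 ∧ (ofLex (e a)).2 < (ofLex (e b)).2) := by
    intro a b hab
    exact Prod.Lex.lt_iff.1 (e.strictMono hab)
  refine ⟨⟨_, htab⟩, ?_, ?_⟩
  · intro a b hab
    rcases hab.lt_or_eq with h | h
    · rcases hfst a b h with h1 | h1
      · exact h1.le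
      · exact h1.1.le
    · rw [h]
  · intro i h hrow
    have hab : (⟨i, by omega⟩ : Fin n) < ⟨i + 1, h⟩ := by
      rw [Fin.lt_def]
      exact Nat.lt_succ_self i
    have hrow' : (ofLex (e ⟨i, by omega⟩)).1 = (ofLex (e ⟨i + 1, h⟩)).1 := hrow
    have h2 : (ofLex (e ⟨i, by omega⟩)).2 < (ofLex (e ⟨i + 1, h⟩)).2 := by
      rcases hfst _ _ hab with h1 | h1
      · omega
      · exact h1.2
    change (ofLex (e ⟨i + 1, h⟩)).2 = (ofLex (e ⟨i, by omega⟩)).2 + 1
    by_contra hne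
    have h3 : ((ofLex (e ⟨i + 1, h⟩)).1, (ofLex (e ⟨i, by omega⟩)).2 + 1) ≤
        ofLex (e ⟨i + 1, h⟩) := ⟨le_rfl, by simp only; omega⟩
    obtain ⟨j, hj1, hj2⟩ := hlow _ _ h3
    have h4 : j ≠ ⟨i + 1, h⟩ := by
      intro hj
      rw [hj] at hj2
      have := congrArg Prod.snd hj2
      simp only at this
      exact hne this
    have h5 : j ≠ ⟨i, by omega⟩ := by
      intro hj
      rw [hj] at hj2
      have := congrArg Prod.snd hj2
      simp only at this
      omega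
    have h6 : (⟨i, by omega⟩ : Fin n) < j := by
      by_contra hcon
      have h7 : j < ⟨i, by omega⟩ := lt_of_le_of_ne (not_lt.1 hcon) h5
      have h8 := hfst _ _ h7
      rw [hj2] at h8
      simp only at h8
      omega
    rw [Fin.lt_def] at h6
    rw [Fin.le_def] at hj1
    apply h4
    apply Fin.ext
    simp only at h6 hj1 ⊢
    omega

/-- the column reading tableau. -/
theorem exists_colTab {n : ℕ} (lam : Y n) : ∃ T : Tab ⊥ lam.1 n,
    (Monotone fun i => (T.1 i).2) ∧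
    ∀ i (h : i + 1 < n), (T.1 ⟨i, by omega⟩).2 = (T.1 ⟨i + 1, h⟩).2 →
      (T.1 ⟨i + 1, h⟩).1 = (T.1 ⟨i, by omega⟩).1 + 1 := by
  obtain ⟨T, h1, h2⟩ := exists_rowTab lam.tr
  obtain ⟨x, hx⟩ := cjT_surj T
  have h3 : ∀ i, (x.1 i).swap = T.1 i := fun i => congrFun (congrArg Subtype.val hx) i
  refine ⟨x, ?_, ?_⟩
  · intro a b hab
    have := h1 hab
    simp only [← h3] at this
    exact this
  · intro i h hc
    have := h2 i h
    simp only [← h3] at this
    exact this hc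

end Pool.MP322
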