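import Pool.Agent.Lib.MP_322c5f_al.SG9

/-! Ikenmeyer's theorem, part 3: columns, zero-one matrices, the theorem. -/

set_option autoImplicit false

open Equiv Finset Nat

namespace Pool.MP322

/-- the diagram with given row lengths -/
def ofRow (f : ℕ → ℕ) (hf : Antitone f) (N : ℕ) : YoungDiagram where
  cells := ((range N) ×ˢ (range (f 0))).filter (fun c => c.2 < f c.1)
  isLowerSet := by
    intro a b hab ha
    obtain ⟨hab1, hab2⟩ := Prod.mk_le_mk.1 hab
    simp only [Finset.coe_filter, Finset.mem_product, Finset.mem_range, Set.mem_ofPred_eq] at ha ⊢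
    have h1 := hf hab1
    refine ⟨⟨?_, ?_⟩, ?_⟩ <;> omega

theorem mem_ofRow {f : ℕ → ℕ} {hf : Antitone f} {N : ℕ} (hN : f N = 0) {c : ℕ × ℕ} :
    c ∈ ofRow f hf N ↔ c.2 < f c.1 := by
  rw [← YoungDiagram.mem_cells]
  simp only [ofRow, Finset.mem_filter, Finset.mem_product, Finset.mem_range]
  constructor
  · exact fun h => h.2
  · intro h
    refine ⟨⟨?_, ?_⟩, h⟩
    · by_contra hcon
      have := hf (show N ≤ c.1 by omega)
      omega
    · have := hf (Nat.zero_le c.1)
      omega

theorem rowLen_ofRow {f : ℕ → ℕ} {hf : Antitone f} {N : ℕ} (hN : f N = 0) (r : ℕ) :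
    (ofRow f hf N).rowLen r = f r := by
  have h : ∀ c, c < (ofRow f hf N).rowLen r ↔ c < f r := by
    intro c
    rw [← YoungDiagram.mem_iff_lt_rowLen, mem_ofRow hN]
  have h1 := h (f r)
  have h2 := h ((ofRow f hf N).rowLen r)
  omega

theorem diag_ext {lam mu : YoungDiagram} (h : ∀ r, lam.rowLen r = mu.rowLen r) : lam = mu := by
  apply YoungDiagram.ext
  ext c
  rw [YoungDiagram.mem_cells, YoungDiagram.mem_cells]
  have h1 : c = (c.1, c.2) := rfl
  rw [h1, YoungDiagram.mem_iff_lt_rowLen, YoungDiagram.mem_iff_lt_rowLen, h]

theorem Y_ext {n : ℕ} {lam mu : Y n} (h : ∀ r, lam.1.rowLen r = mu.1.rowLen r) : lam = mu :=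
  Subtype.ext (diag_ext h)

/-- one column -/
theorem Fx_col {n : ℕ} (R : Finset ℕ) (mu : Y n)
    (h : ∀ r, mu.1.rowLen r = if r < R.card then 1 else 0) :
    Fx (fun a => if a ∈ R then 1 else 0) mu := by
  classical
  set fl : ℕ → ℕ := fun a => (R.filter (· < a)).card with hfl
  have hmono : ∀ a ∈ R, ∀ b, a < b → fl a < fl b := by
    intro a ha b hab
    rw [hfl]
    simp only
    refine Finset.card_lt_card ?_
    rw [Finset.ssubset_iff_of_subset]
    · exact ⟨a, Finset.mem_filter.2 ⟨ha, hab⟩, fun h => absurd (Finset.mem_filter.1 h).2
        (lt_irrefl _)⟩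
    · intro c hc
      exact Finset.mem_filter.2 ⟨(Finset.mem_filter.1 hc).1, (Finset.mem_filter.1 hc).2.trans hab⟩
  have hlt : ∀ a ∈ R, fl a < R.card := by
    intro a ha
    rw [hfl]
    simp only
    refine Finset.card_lt_card ?_
    rw [Finset.ssubset_iff_of_subset (Finset.filter_subset _ _)]
    exact ⟨a, ha, fun h => absurd (Finset.mem_filter.1 h).2 (lt_irrefl _)⟩
  have hinj : ∀ a ∈ R, ∀ b ∈ R, fl a = fl b → a = b := by
    intro a ha b hb hab
    rcases lt_trichotomy a b with h1 | h1 | h1
    · exact absurd hab (hmono a ha b h1).ne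
    · exact h1
    · exact absurd hab (hmono b hb a h1).ne'
  have himg : R.image fl = range R.card := by
    refine Finset.eq_of_subset_of_card_le ?_ ?_
    · intro c hc
      obtain ⟨a, ha, rfl⟩ := Finset.mem_image.1 hc
      exact Finset.mem_range.2 (hlt a ha)
    · rw [Finset.card_image_of_injOn hinj, Finset.card_range]
  refine Fx_relabel mu mu.1.rowLen _ fl R hinj ?_ ?_ ?_ (Fx_self mu)
  · intro a ha
    rw [if_pos ha, h, if_pos (hlt a ha)]
  · intro a ha
    rw [if_neg ha]
  · intro b hb
    rw [h] at hb
    have hb' : b < R.card := by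
      by_contra hcon
      rw [if_neg hcon] at hb
      exact hb rfl
    rw [← Finset.mem_range, ← himg] at hb'
    obtain ⟨a, ha, hab⟩ := Finset.mem_image.1 hb'
    exact ⟨a, ha, hab⟩

/-- several columns -/
theorem Fx_list : ∀ (L : List (Finset ℕ)) {n : ℕ} (mu : Y n),
    (∀ r, mu.1.rowLen r = (L.filter (fun R => r < R.card)).length) →
    Fx (fun a => (L.filter (fun R => a ∈ R)).length) mu := by
  classical
  intro L
  induction L with
  | nil =>
    intro n mu h
    have h1 : (fun a => (([] : List (Finset ℕ)).filter (fun R => a ∈ R)).length) =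
        mu.1.rowLen := by
      funext a
      rw [h]
      rfl
    rw [h1]
    exact Fx_self mu
  | cons R L ih =>
    intro n mu h
    set f : ℕ → ℕ := fun r => (L.filter (fun R => r < R.card)).length with hf
    have hanti : Antitone f := by
      intro a b hab
      rw [hf]
      simp only
      refine List.Sublist.length_le ?_
      refine List.monotone_filter_right L ?_
      intro S hS
      simp only [decide_eq_true_eq] at hS ⊢
      omega
    have hsplit : ∀ r, mu.1.rowLen r = (if r < R.card then 1 else 0) + f r := by
      intro r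
      rw [h, List.filter_cons]
      by_cases h1 : r < R.card
      · rw [if_pos (by simpa using h1), if_pos h1, List.length_cons, hf]
        simp only
        omega
      · rw [if_neg (by simpa using h1), if_neg h1, hf]
        simp only
        omega
    obtain ⟨N, hN⟩ : ∃ N, mu.1.rowLen N = 0 := by
      refine ⟨mu.1.colLen 0, ?_⟩
      by_contra hcon
      have h1 : 0 < mu.1.rowLen (mu.1.colLen 0) := Nat.pos_of_ne_zero hcon
      rw [← YoungDiagram.mem_iff_lt_rowLen, YoungDiagram.mem_iff_lt_colLen] at h1
      exact lt_irrefl _ h1
    have hfN : f N = 0 := by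
      have := hsplit N
      omega
    have hcolA : Antitone (fun r : ℕ => if r < R.card then 1 else 0) := by
      intro a b hab
      simp only
      split_ifs <;> omega
    set D := ofRow f hanti N with hD
    have hDrow : ∀ r, D.rowLen r = f r := rowLen_ofRow hfN
    set C := ofRow (fun r : ℕ => if r < R.card then 1 else 0) hcolA R.card with hC
    have hCrow : ∀ r, C.rowLen r = if r < R.card then 1 else 0 :=
      rowLen_ofRow (by simp only [lt_irrefl, if_false])
    have hcard : n = C.card + D.card := by
      have h1 : mu.1 = addD C D := diag_ext fun r => by rw [rowLen_addD, hCrow, hDrow, hsplit]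
      rw [← card_addD, ← h1]
      exact mu.2.symm
    clear_value C D
    subst hcard
    have h2 := Fx_add (κ := fun a => if a ∈ R then 1 else 0)
      (κ' := fun a => (L.filter (fun R => a ∈ R)).length) (mu := (⟨C, rfl⟩ : Y C.card))
      (be := (⟨D, rfl⟩ : Y D.card)) (ka := mu)
      (fun r => by
        show mu.1.rowLen r = C.rowLen r + D.rowLen r
        rw [hCrow, hDrow, hsplit])
      (Fx_col R _ hCrow) (ih _ hDrow)
    have h3 : (fun a => ((R :: L).filter (fun R => a ∈ R)).length) =
        fun a => (if a ∈ R then 1 else 0) + (L.filter (fun R => a ∈ R)).length := by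
      funext a
      rw [List.filter_cons]
      by_cases h1 : a ∈ R
      · rw [if_pos (by simpa using h1), if_pos h1, List.length_cons]
        omega
      · rw [if_neg (by simpa using h1), if_neg h1]
        omega
    rw [h3]
    exact h2

/-- `ρ` is the vector of row sums of a zero-one matrix with `w` columns of sums `col` -/
def Real' (w : ℕ) (col ρ : ℕ → ℕ) : Prop :=
  ∃ S : ℕ → Finset ℕ, (∀ j < w, (S j).card = col j) ∧
    ∀ r, ((range w).filter (fun j => r ∈ S j)).card = ρ r

theorem real_step {w : ℕ} {col ρ ρ' : ℕ → ℕ} (h : Real' w col ρ) {i j : ℕ} (hij : ρ j < ρ i)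
    (hρ : ∀ r, ρ' r + (if r = i then 1 else 0) = ρ r + (if r = j then 1 else 0)) :
    Real' w col ρ' := by
  classical
  obtain ⟨S, hS, hr⟩ := h
  have hne : i ≠ j := fun h => by
    rw [h] at hij
    exact lt_irrefl _ hij
  obtain ⟨t, htw, hti, htj⟩ : ∃ t, t < w ∧ i ∈ S t ∧ j ∉ S t := by
    by_contra hcon
    push Not at hcon
    have h1 : ((range w).filter (fun t => i ∈ S t)).card ≤
        ((range w).filter (fun t => j ∈ S t)).card := by
      refine Finset.card_le_card fun t ht => ?_
      obtain ⟨h2, h3⟩ := Finset.mem_filter.1 ht
      exact Finset.mem_filter.2 ⟨h2, hcon t (Finset.mem_range.1 h2) h3⟩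
    rw [hr, hr] at h1
    omega
  refine ⟨fun s => if s = t then insert j ((S t).erase i) else S s, ?_, ?_⟩
  · intro s hs
    simp only
    by_cases h1 : s = t
    · rw [if_pos h1, h1, Finset.card_insert_of_notMem, Finset.card_erase_of_mem hti, ← hS t htw]
      · have : 0 < (S t).card := Finset.card_pos.2 ⟨i, hti⟩
        omega
      · intro h2
        exact htj (Finset.mem_of_mem_erase h2)
    · rw [if_neg h1]
      exact hS s hs
  · intro r
    have h1 := hρ r
    have h2 : ∀ P : ℕ → Prop, [DecidablePred P] → ((range w).filter P).card =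
        (((range w).erase t).filter P).card + if P t then 1 else 0 := by
      intro P _
      rw [Finset.filter_erase]
      by_cases h3 : P t
      · rw [if_pos h3, Finset.card_erase_add_one]
        exact Finset.mem_filter.2 ⟨Finset.mem_range.2 htw, h3⟩
      · rw [if_neg h3, Finset.erase_eq_of_notMem, Nat.add_zero]
        intro h4
        exact h3 (Finset.mem_filter.1 h4).2
    have h3 := h2 (fun s => r ∈ S s)
    have h4 := h2 (fun s => r ∈ if s = t then insert j ((S t).erase i) else S s)
    have h5 : (((range w).erase t).filter
        (fun s => r ∈ if s = t then insert j ((S t).erase i) else S s)) =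
        (((range w).erase t).filter (fun s => r ∈ S s)) := by
      refine Finset.filter_congr fun s hs => ?_
      rw [if_neg (Finset.mem_erase.1 hs).1]
    rw [h5] at h4
    simp only [if_true] at h4
    rw [h4]
    rw [hr] at h3
    by_cases hri : r = i
    · subst hri
      have h6 : r ∉ insert j ((S t).erase r) := by
        rw [Finset.mem_insert, Finset.mem_erase]
        rintro (h7 | h7)
        · exact hne h7
        · exact h7.1 rfl
      rw [if_pos rfl, if_neg hne] at h1
      rw [if_neg h6]
      rw [if_pos hti] at h3
      omega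
    · by_cases hrj : r = j
      · subst hrj
        rw [if_neg hri, if_pos rfl] at h1
        rw [if_pos (Finset.mem_insert_self _ _)]
        rw [if_neg htj] at h3
        omega
      · rw [if_neg hri, if_neg hrj] at h1
        by_cases h6 : r ∈ S t
        · rw [if_pos (Finset.mem_insert_of_mem (Finset.mem_erase.2 ⟨hri, h6⟩))]
          rw [if_pos h6] at h3
          omega
        · have h7 : r ∉ insert j ((S t).erase i) := by
            rw [Finset.mem_insert, Finset.mem_erase]
            rintro (h8 | h8)
            · exact hrj h8
            · exact h6 h8.2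
          rw [if_neg h7]
          rw [if_neg h6] at h3
          omega

/-- Gale-Ryser: dominance gives a zero-one matrix. -/
theorem real_dom {w N : ℕ} {col l : ℕ → ℕ} (hl : Antitone l) (hlN : ∀ r, N ≤ r → l r = 0) :
    ∀ (M : ℕ) (ρ : ℕ → ℕ), Real' w col ρ → (∀ r, N ≤ r → ρ r = 0) →
      (∀ k, ∑ r ∈ range k, l r ≤ ∑ r ∈ range k, ρ r) →
      (∑ r ∈ range N, ρ r = ∑ r ∈ range N, l r) → ∑ r ∈ range N, (ρ r - l r) = M →
      Real' w col l := by
  classical
  intro M
  induction M using Nat.strong_induction_on with
  | _ M ih =>
    intro ρ hreal hρN hdom hsum hM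
    by_cases hall : ∀ r, ρ r ≤ l r
    · have h1 : ρ = l := by
        funext r
        by_cases hr : r < N
        · exact (Finset.sum_eq_sum_iff_of_le (fun r _ => hall r)).1 hsum r (Finset.mem_range.2 hr)
        · rw [hρN r (by omega), hlN r (by omega)]
      rw [← h1]
      exact hreal
    · push Not at hall
      have hex : ∃ j, ρ j < l j := by
        by_contra hcon
        push Not at hcon
        obtain ⟨i, hi⟩ := hall
        have hiN : i < N := by
          by_contra h2
          have := hρN i (by omega)
          omega
        have := Finset.sum_lt_sum (fun r (_ : r ∈ range N) => hcon r) ⟨i, Finset.mem_range.2 hiN, hi⟩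
        omega
      set i := Nat.find hall with hi
      set j := Nat.find hex with hj
      have hi1 : l i < ρ i := Nat.find_spec hall
      have hj1 : ρ j < l j := Nat.find_spec hex
      have hi2 : ∀ r, r < i → ρ r ≤ l r := fun r hr => not_lt.1 (Nat.find_min hall hr)
      have hj2 : ∀ r, r < j → l r ≤ ρ r := fun r hr => not_lt.1 (Nat.find_min hex hr)
      have hij : i < j := by
        by_contra hcon
        have hji : j < i := by
          rcases lt_or_eq_of_le (not_lt.1 hcon) with h1 | h1
          · exact h1
          · rw [h1] at hj1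
            omega
        have h1 := hdom (j + 1)
        rw [Finset.sum_range_succ, Finset.sum_range_succ] at h1
        have h2 : ∑ r ∈ range j, ρ r = ∑ r ∈ range j, l r := by
          refine Finset.sum_congr rfl fun r hr => ?_
          have h3 := Finset.mem_range.1 hr
          exact le_antisymm (hi2 r (by omega)) (hj2 r h3)
        omega
      have hjN : j < N := by
        by_contra h2
        have := hlN j (by omega)
        omega
      have hlij := hl hij.le
      set ρ' : ℕ → ℕ := fun r => if r = i then ρ r - 1 else if r = j then ρ r + 1 else ρ r with hρ'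
      have hrel : ∀ r, ρ' r + (if r = i then 1 else 0) = ρ r + (if r = j then 1 else 0) := by
        intro r
        rw [hρ']
        simp only
        by_cases h1 : r = i
        · rw [if_pos h1, if_pos h1, if_neg (by omega), h1]
          omega
        · rw [if_neg h1, if_neg h1]
          by_cases h2 : r = j
          · rw [if_pos h2, if_pos h2]
          · rw [if_neg h2, if_neg h2]
      have hrelsum : ∀ k, ∑ r ∈ range k, ρ' r + (if i < k then 1 else 0) =
          ∑ r ∈ range k, ρ r + (if j < k then 1 else 0) := by
        intro k
        have h1 : ∀ x : ℕ, ∑ r ∈ range k, (if r = x then 1 else 0) = if x < k then 1 else 0 := by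
          intro x
          rw [Finset.sum_ite_eq']
          simp only [Finset.mem_range]
        rw [← h1 i, ← h1 j, ← Finset.sum_add_distrib, ← Finset.sum_add_distrib]
        exact Finset.sum_congr rfl fun r _ => hrel r
      refine ih (∑ r ∈ range N, (ρ' r - l r)) ?_ ρ' (real_step hreal (by omega) hrel) ?_ ?_ ?_ rfl
      · rw [← hM]
        refine Finset.sum_lt_sum (fun r _ => ?_) ⟨i, Finset.mem_range.2 (by omega), ?_⟩
        · have h1 := hrel r
          by_cases h2 : r = i
          · rw [if_pos h2] at h1
            split_ifs at h1 <;> omega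
          · rw [if_neg h2] at h1
            by_cases h3 : r = j
            · rw [if_pos h3] at h1
              rw [h3] at h1 ⊢
              omega
            · rw [if_neg h3] at h1
              omega
        · have h1 := hrel i
          rw [if_pos rfl, if_neg (by omega)] at h1
          omega
      · intro r hr
        have h1 := hrel r
        have h2 := hρN r hr
        rw [if_neg (by omega), if_neg (by omega)] at h1
        omega
      · intro k
        have h1 := hrelsum k
        have h2 := hdom k
        by_cases h3 : j < k
        · rw [if_pos h3, if_pos (by omega)] at h1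
          omega
        · by_cases h4 : i < k
          · rw [if_neg h3, if_pos h4] at h1
            have h5 : ∑ r ∈ range k, l r < ∑ r ∈ range k, ρ r :=
              Finset.sum_lt_sum (fun r hr => hj2 r (by
                have := Finset.mem_range.1 hr
                omega)) ⟨i, Finset.mem_range.2 h4, hi1⟩
            omega
          · rw [if_neg h3, if_neg h4] at h1
            omega
      · have h1 := hrelsum N
        rw [if_pos (by omega), if_pos hjN] at h1
        omega

/-- dominance order, through the row lengths -/
def Dom (mu lam : YoungDiagram) : Prop :=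
  ∀ k, ∑ r ∈ range k, lam.rowLen r ≤ ∑ r ∈ range k, mu.rowLen r

theorem Fx_of_dom {n : ℕ} {lam mu : Y n} (h : Dom mu.1 lam.1) : Fx lam.1.rowLen mu := by
  classical
  set w := mu.1.rowLen 0 with hw
  set N := lam.1.colLen 0 + mu.1.colLen 0 with hN
  have hz : ∀ (D : YoungDiagram) (r : ℕ), D.colLen 0 ≤ r → D.rowLen r = 0 := by
    intro D r hr
    by_contra hcon
    have h1 : 0 < D.rowLen r := Nat.pos_of_ne_zero hcon
    rw [← YoungDiagram.mem_iff_lt_rowLen, YoungDiagram.mem_iff_lt_colLen] at h1
    omega
  have hcol : ∀ r, ((range w).filter (fun c => r < mu.1.colLen c)).card = mu.1.rowLen r := by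
    intro r
    rw [← Finset.card_range (mu.1.rowLen r)]
    congr 1
    ext c
    rw [Finset.mem_filter, Finset.mem_range, Finset.mem_range, ← YoungDiagram.mem_iff_lt_colLen,
      YoungDiagram.mem_iff_lt_rowLen]
    constructor
    · exact fun h => h.2
    · exact fun h => ⟨lt_of_lt_of_le h (mu.1.rowLen_anti 0 r (Nat.zero_le _)), h⟩
  have h0 : Real' w mu.1.colLen mu.1.rowLen := by
    refine ⟨fun j => range (mu.1.colLen j), fun j _ => Finset.card_range _, fun r => ?_⟩
    rw [← hcol r]
    congr 1
    ext c
    simp only [Finset.mem_filter, Finset.mem_range]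
  have h1 : Real' w mu.1.colLen lam.1.rowLen := by
    refine real_dom (N := N) (fun a b hab => lam.1.rowLen_anti a b hab)
      (fun r hr => hz _ _ (by omega)) _ mu.1.rowLen h0 (fun r hr => hz _ _ (by omega)) h ?_ rfl
    rw [← card_eq_sum_rowLen mu.1 N (by omega), ← card_eq_sum_rowLen lam.1 N (by omega)]
    exact mu.2.trans lam.2.symm
  obtain ⟨S, hS, hr⟩ := h1
  have h2 := Fx_list ((List.range w).map S) mu (fun r => by
    rw [← hcol r, List.filter_map, List.length_map, ← List.countP_eq_length_filter]
    have h3 : (List.range w).countP ((fun R : Finset ℕ => decide (r < R.card)) ∘ S) =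
        (List.range w).countP (fun c => decide (r < mu.1.colLen c)) := by
      refine List.countP_congr fun c hc => ?_
      have h4 := hS c (List.mem_range.1 hc)
      simp only [Function.comp_apply, h4]
    rw [h3, List.countP_eq_length_filter]
    rfl)
  have h3 : (fun a => (((List.range w).map S).filter (fun R => a ∈ R)).length) =
      lam.1.rowLen := by
    funext a
    rw [← hr a, List.filter_map, List.length_map]
    rfl
  rw [h3] at h2
  exact h2

/-- IKENMEYER: if `lam` has distinct row lengths and `mu` dominates `lam` then `mu` occurs in the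
square of `lam`. -/
theorem Sq_of_dom {n : ℕ} {lam mu : Y n}
    (hst : ∀ r s, lam.1.rowLen r = lam.1.rowLen s → lam.1.rowLen r ≠ 0 → r = s)
    (h : Dom mu.1 lam.1) : Sq lam mu := Sq_of_Fx lam mu hst (Fx_of_dom h)

/-- a self-conjugate square contains the transposed constituents -/
theorem Sq_tr_right {n : ℕ} {lam mu : Y n} (hlam : lam.tr = lam) : Sq lam mu.tr ↔ Sq lam mu := by
  unfold Sq
  have h : ∀ σ : Perm (Fin n), chi lam σ ^ 2 * chi mu.tr σ = chi lam σ ^ 2 * chi mu σ := by
    intro σ
    have h1 := chi_tr lam σ
    rw [hlam] at h1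
    rw [chi_tr mu]
    rcases Int.units_eq_one_or (Perm.sign σ) with h | h
    · rw [h]
      norm_num
    · rw [h] at h1 ⊢
      have h2 : chi lam σ = 0 := by
        push_cast at h1
        linarith
      rw [h2]
      ring
  simp only [h]

end Pool.MP322
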