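import Pool.Agent.Lib.MP_322c5f_al.SG10

/-! (C), part 1: diagrams given by the multiset of their column heights; the relation `CC`. -/

set_option autoImplicit false

open Equiv Finset Nat

namespace Pool.MP322

/-- number of members of `M` larger than `r` -/
def rf (M : Multiset ℕ) (r : ℕ) : ℕ := (M.filter (fun s => r < s)).card

theorem rf_zero (r : ℕ) : rf 0 r = 0 := by simp [rf]

theorem rf_cons (a : ℕ) (M : Multiset ℕ) (r : ℕ) :
    rf (a ::ₘ M) r = (if r < a then 1 else 0) + rf M r := by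
  unfold rf
  by_cases h : r < a
  · rw [Multiset.filter_cons_of_pos _ h, Multiset.card_cons, if_pos h, Nat.add_comm]
  · rw [Multiset.filter_cons_of_neg _ h, if_neg h, Nat.zero_add]

theorem rf_add (M N : Multiset ℕ) (r : ℕ) : rf (M + N) r = rf M r + rf N r := by
  unfold rf
  rw [Multiset.filter_add, Multiset.card_add]

theorem rf_anti (M : Multiset ℕ) : Antitone (rf M) := by
  intro a b hab
  unfold rf
  refine Multiset.card_le_card (Multiset.monotone_filter_right M ?_)
  intro s hs
  exact lt_of_le_of_lt hab hs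

theorem rf_big {M : Multiset ℕ} {N : ℕ} (h : ∀ s ∈ M, s ≤ N) : rf M N = 0 := by
  unfold rf
  rw [Multiset.card_eq_zero, Multiset.filter_eq_nil]
  intro s hs
  exact not_lt.2 (h s hs)

theorem rf_sum (M : Multiset ℕ) : rf M M.sum = 0 :=
  rf_big fun _ hs => Multiset.le_sum_of_mem hs

theorem sum_ite_lt (a k : ℕ) : ∑ r ∈ range k, (if r < a then 1 else 0) = min a k := by
  rw [← Finset.sum_filter, Finset.sum_const, smul_eq_mul, mul_one]
  have h : (range k).filter (fun r => r < a) = range (min a k) := by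
    ext r
    simp only [Finset.mem_filter, Finset.mem_range, lt_min_iff]
    exact and_comm
  rw [h, Finset.card_range]

theorem sum_rf (M : Multiset ℕ) (k : ℕ) :
    ∑ r ∈ range k, rf M r = (M.map (fun s => min s k)).sum := by
  induction M using Multiset.induction_on with
  | empty => simp [rf_zero]
  | cons a M ih =>
    rw [Multiset.map_cons, Multiset.sum_cons, ← ih, ← sum_ite_lt a k, ← Finset.sum_add_distrib]
    exact Finset.sum_congr rfl fun r _ => rf_cons a M r

/-- the diagram with column heights `M` -/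
def cD (M : Multiset ℕ) : YoungDiagram := ofRow (rf M) (rf_anti M) M.sum

theorem rowLen_cD (M : Multiset ℕ) (r : ℕ) : (cD M).rowLen r = rf M r := rowLen_ofRow (rf_sum M) r

theorem cD_add (M N : Multiset ℕ) : cD (M + N) = addD (cD M) (cD N) :=
  diag_ext fun r => by rw [rowLen_addD, rowLen_cD, rowLen_cD, rowLen_cD, rf_add]

theorem cD_ext {M N : Multiset ℕ} (h : ∀ r, rf M r = rf N r) : cD M = cD N :=
  diag_ext fun r => by rw [rowLen_cD, rowLen_cD, h]

theorem colLen_cD_le {M : Multiset ℕ} {N : ℕ} (h : ∀ s ∈ M, s ≤ N) (c : ℕ) :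
    (cD M).colLen c ≤ N := by
  by_contra hcon
  push Not at hcon
  rw [← YoungDiagram.mem_iff_lt_colLen, YoungDiagram.mem_iff_lt_rowLen, rowLen_cD, rf_big h] at hcon
  exact absurd hcon (Nat.not_lt_zero _)

theorem card_cD (M : Multiset ℕ) : (cD M).card = M.sum := by
  rw [card_eq_sum_rowLen (cD M) M.sum (colLen_cD_le (fun _ hs => Multiset.le_sum_of_mem hs) 0)]
  simp only [rowLen_cD]
  rw [sum_rf]
  congr 1
  conv_rhs => rw [← Multiset.map_id M]
  refine Multiset.map_congr rfl fun s hs => ?_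
  exact min_eq_left (Multiset.le_sum_of_mem hs)

/-- the rows of `mu` below the first are those of the diagram with column heights `S` -/
def Has (mu : YoungDiagram) (S : Multiset ℕ) : Prop := ∀ r, mu.rowLen (r + 1) = rf S (r + 1)

theorem Has_unique {n : ℕ} {mu nu : Y n} {S : Multiset ℕ} (h1 : Has mu.1 S) (h2 : Has nu.1 S) :
    mu = nu := by
  have h3 : ∀ r, mu.1.rowLen (r + 1) = nu.1.rowLen (r + 1) := fun r => (h1 r).trans (h2 r).symm
  set R := mu.1.colLen 0 + nu.1.colLen 0 with hR
  have h4 := card_eq_sum_rowLen mu.1 (R + 1) (by omega)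
  have h5 := card_eq_sum_rowLen nu.1 (R + 1) (by omega)
  rw [Finset.sum_range_succ', mu.2] at h4
  rw [Finset.sum_range_succ', nu.2] at h5
  simp only [h3] at h4
  refine Y_ext fun r => ?_
  rcases r with _ | r
  · omega
  · exact h3 r

/-- the square of the diagram with column heights `M` contains the diagram whose columns are
`S` and columns of height one -/
def CC (M S : Multiset ℕ) : Prop :=
  ∃ mu : Y (cD M).card, Has mu.1 S ∧ Sq (⟨cD M, rfl⟩ : Y (cD M).card) mu

theorem CC_iff {n : ℕ} {M S : Multiset ℕ} (lam : Y n) (h : lam.1 = cD M) :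
    CC M S ↔ ∃ mu : Y n, Has mu.1 S ∧ Sq lam mu := by
  obtain ⟨D, hD⟩ := lam
  simp only at h
  subst h
  subst hD
  rfl

theorem CC_congr {M N S : Multiset ℕ} (h : cD M = cD N) : CC M S ↔ CC N S := by
  have h1 := CC_iff (S := S) (⟨cD M, rfl⟩ : Y (cD M).card) (M := M) rfl
  have h2 := CC_iff (S := S) (⟨cD M, rfl⟩ : Y (cD M).card) (M := N) h
  exact h1.trans h2.symm

theorem CC_add {M N S T : Multiset ℕ} (h1 : CC M S) (h2 : CC N T) : CC (M + N) (S + T) := by
  obtain ⟨mu, hmu, hs⟩ := h1
  obtain ⟨nu, hnu, ht⟩ := h2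
  have h3 : (Y.add (⟨cD M, rfl⟩ : Y (cD M).card) (⟨cD N, rfl⟩ : Y (cD N).card)).1 =
      cD (M + N) := (cD_add M N).symm
  refine (CC_iff _ h3).2 ⟨Y.add mu nu, fun r => ?_, Sq_add hs ht⟩
  rw [Y.rowLen_add, hmu r, hnu r, rf_add]

/-- transposition -/
theorem CC_tr {M N S : Multiset ℕ} (h : cD M = (cD N).transpose) : CC M S ↔ CC N S := by
  have h1 : (Y.tr (⟨cD N, rfl⟩ : Y (cD N).card)).1 = cD M := h.symm
  rw [CC_iff _ h1]
  constructor
  · rintro ⟨mu, h2, h3⟩
    exact ⟨mu, h2, (Sq_tr _ _).1 h3⟩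
  · rintro ⟨mu, h2, h3⟩
    exact ⟨mu, h2, (Sq_tr _ _).2 h3⟩

/-- the diagram with one row -/
theorem CC_zero (M : Multiset ℕ) : CC M 0 := by
  set n := (cD M).card with hn
  have hc : (cD (Multiset.replicate n 1)).card = n := by
    rw [card_cD, Multiset.sum_replicate, smul_eq_mul, mul_one]
  have hr : ∀ r, rf (Multiset.replicate n 1) (r + 1) = 0 := by
    intro r
    refine Nat.le_zero.1 ((rf_anti _ (show 1 ≤ r + 1 by omega)).trans (le_of_eq ?_))
    refine rf_big fun s hs => ?_
    rw [Multiset.eq_of_mem_replicate hs]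
  refine ⟨⟨cD (Multiset.replicate n 1), hc⟩, fun r => ?_, Sq_row _ _ ?_⟩
  · rw [rf_zero]
    show (cD (Multiset.replicate n 1)).rowLen (r + 1) = 0
    rw [rowLen_cD, hr]
  · show (cD (Multiset.replicate n 1)).rowLen 0 = n
    rw [rowLen_cD]
    unfold rf
    rw [Multiset.filter_eq_self.2, Multiset.card_replicate]
    intro s hs
    rw [Multiset.eq_of_mem_replicate hs]
    exact Nat.zero_lt_one

theorem CC_mono {M S : Multiset ℕ} (X : Multiset ℕ) (h : CC M S) : CC (M + X) S := by
  have := CC_add h (CC_zero X)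
  rwa [add_zero] at this

theorem CC_le {M N S : Multiset ℕ} (hMN : M ≤ N) (h : CC M S) : CC N S := by
  obtain ⟨X, rfl⟩ := Multiset.le_iff_exists_add.1 hMN
  exact CC_mono X h

/-- the row lengths -/
def cj (b : ℕ) (N : Multiset ℕ) : Multiset ℕ := (Multiset.range b).map (rf N)

theorem rf_cj {b : ℕ} {N : Multiset ℕ} (hb : ∀ s ∈ N, s ≤ b) (r : ℕ) :
    rf (cj b N) r = (cD N).colLen r := by
  unfold cj
  have h1 : rf ((Multiset.range b).map (rf N)) r = ((range b).filter (fun l => r < rf N l)).card := by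
    unfold rf
    rw [Multiset.filter_map, Multiset.card_map]
    rfl
  rw [h1]
  have h2 : (range b).filter (fun l => r < rf N l) = range ((cD N).colLen r) := by
    ext l
    rw [Finset.mem_filter, Finset.mem_range, Finset.mem_range, ← YoungDiagram.mem_iff_lt_colLen,
      YoungDiagram.mem_iff_lt_rowLen, rowLen_cD]
    constructor
    · exact fun h => h.2
    · intro h
      refine ⟨?_, h⟩
      by_contra hcon
      have h3 := rf_anti N (not_lt.1 hcon)
      rw [rf_big hb] at h3
      omega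
  rw [h2, Finset.card_range]

theorem cD_cj {b : ℕ} {N : Multiset ℕ} (hb : ∀ s ∈ N, s ≤ b) :
    cD (cj b N) = (cD N).transpose := by
  refine diag_ext fun r => ?_
  rw [rowLen_cD, rf_cj hb, YoungDiagram.rowLen_transpose]

theorem CC_cj {b : ℕ} {N S : Multiset ℕ} (hb : ∀ s ∈ N, s ≤ b) : CC (cj b N) S ↔ CC N S :=
  CC_tr (cD_cj hb)

/-- heights `1, …, b` -/
def st (b : ℕ) : Multiset ℕ := (Multiset.range b).map (fun i => i + 1)

theorem mem_st {b s : ℕ} : s ∈ st b ↔ 1 ≤ s ∧ s ≤ b := by
  unfold st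
  rw [Multiset.mem_map]
  constructor
  · rintro ⟨i, hi, rfl⟩
    rw [Multiset.mem_range] at hi
    omega
  · rintro ⟨h1, h2⟩
    exact ⟨s - 1, Multiset.mem_range.2 (by omega), by omega⟩

theorem st_nodup (b : ℕ) : (st b).Nodup :=
  Multiset.Nodup.map (fun a b h => by simpa using h) (Multiset.nodup_range b)

theorem st_succ (b : ℕ) : st (b + 1) = (b + 1) ::ₘ st b := by
  unfold st
  rw [Multiset.range_succ, Multiset.map_cons]

theorem card_st (b : ℕ) : (st b).card = b := by
  unfold st
  rw [Multiset.card_map, Multiset.card_range]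

theorem rf_st (b r : ℕ) : rf (st b) r = b - r := by
  induction b with
  | zero => simp [st, rf_zero]
  | succ b ih =>
    rw [st_succ, rf_cons, ih]
    split_ifs <;> omega

theorem st_tr (b : ℕ) : (cD (st b)).transpose = cD (st b) := by
  refine YoungDiagram.ext ?_
  ext c
  rw [YoungDiagram.mem_cells, YoungDiagram.mem_cells, YoungDiagram.mem_transpose]
  have h1 : c.swap = (c.2, c.1) := rfl
  have h2 : c = (c.1, c.2) := rfl
  rw [h1, YoungDiagram.mem_iff_lt_rowLen, rowLen_cD, rf_st]
  nth_rewrite 3 [h2]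
  rw [YoungDiagram.mem_iff_lt_rowLen, rowLen_cD, rf_st]
  omega

/-- triangular numbers -/
def NN (b : ℕ) : ℕ := b * (b + 1) / 2

theorem NN_succ (b : ℕ) : NN (b + 1) = NN b + (b + 1) := by
  unfold NN
  have h : (b + 1) * (b + 1 + 1) = b * (b + 1) + (b + 1) * 2 := by ring
  rw [h, Nat.add_mul_div_right _ _ (by norm_num)]

theorem NN_two (b : ℕ) : 2 * NN b = b * (b + 1) := by
  induction b with
  | zero => rfl
  | succ b ih => rw [NN_succ, mul_add, ih]; ring

theorem NN_mono : Monotone NN := by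
  refine monotone_nat_of_le_succ fun b => ?_
  rw [NN_succ]
  omega

theorem sum_st (b : ℕ) : (st b).sum = NN b := by
  induction b with
  | zero => rfl
  | succ b ih => rw [st_succ, Multiset.sum_cons, ih, NN_succ, Nat.add_comm]

end Pool.MP322
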