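import Pool.Agent.Lib.MP_322c5f_al.SG11

/-! (C), part 2: a diagram with `c` corners has the staircase of side `c` as a minor; the
reduction of `Sq` to the staircases. -/

set_option autoImplicit false

open Equiv Finset Nat

namespace Pool.MP322

/-- column heights -/
def cols (mu : YoungDiagram) : Multiset ℕ := (Multiset.range (mu.rowLen 0)).map mu.colLen

theorem rf_cols (mu : YoungDiagram) (r : ℕ) : rf (cols mu) r = mu.rowLen r := by
  unfold cols
  have h1 : rf ((Multiset.range (mu.rowLen 0)).map mu.colLen) r =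
      ((range (mu.rowLen 0)).filter (fun c => r < mu.colLen c)).card := by
    unfold rf
    rw [Multiset.filter_map, Multiset.card_map]
    rfl
  rw [h1]
  have h2 : (range (mu.rowLen 0)).filter (fun c => r < mu.colLen c) = range (mu.rowLen r) := by
    ext c
    rw [Finset.mem_filter, Finset.mem_range, Finset.mem_range, ← YoungDiagram.mem_iff_lt_colLen,
      YoungDiagram.mem_iff_lt_rowLen]
    exact ⟨fun h => h.2, fun h => ⟨lt_of_lt_of_le h (mu.rowLen_anti 0 r (Nat.zero_le _)), h⟩⟩
  rw [h2, Finset.card_range]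

theorem cD_cols (mu : YoungDiagram) : cD (cols mu) = mu :=
  diag_ext fun r => by rw [rowLen_cD, rf_cols]

theorem cols_pos {mu : YoungDiagram} {s : ℕ} (hs : s ∈ cols mu) : 1 ≤ s := by
  unfold cols at hs
  rw [Multiset.mem_map] at hs
  obtain ⟨c, hc, rfl⟩ := hs
  rw [Multiset.mem_range, ← YoungDiagram.mem_iff_lt_rowLen, YoungDiagram.mem_iff_lt_colLen] at hc
  exact hc

theorem sum_cols (mu : YoungDiagram) : (cols mu).sum = mu.card := by
  rw [← card_cD, cD_cols]

theorem card_cols (mu : YoungDiagram) : (cols mu).card = mu.rowLen 0 := by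
  unfold cols
  rw [Multiset.card_map, Multiset.card_range]

theorem mcor_le (mu : YoungDiagram) : mcor mu ≤ (cols mu).dedup.card := by
  unfold mcor
  have h1 : ∀ c ∈ corners mu, mu.colLen c.2 = c.1 + 1 ∧ mu.rowLen c.1 = c.2 + 1 := by
    intro c hc
    unfold corners at hc
    obtain ⟨h1, h2, h3⟩ := Finset.mem_filter.1 hc
    rw [YoungDiagram.mem_cells] at h1
    have h1' : (c.1, c.2) ∈ mu := h1
    have h4 := YoungDiagram.mem_iff_lt_colLen.1 h1'
    have h5 := YoungDiagram.mem_iff_lt_rowLen.1 h1'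
    rw [YoungDiagram.mem_iff_lt_colLen] at h2
    rw [YoungDiagram.mem_iff_lt_rowLen] at h3
    omega
  have h2 : (corners mu).card ≤ (cols mu).toFinset.card := by
    refine Finset.card_le_card_of_injOn (fun c => c.1 + 1) ?_ ?_
    · intro c hc
      obtain ⟨h3, h4⟩ := h1 c (Finset.mem_coe.1 hc)
      rw [Finset.mem_coe, Multiset.mem_toFinset]
      unfold cols
      rw [Multiset.mem_map]
      refine ⟨c.2, Multiset.mem_range.2 ?_, h3⟩
      have h5 := mu.rowLen_anti 0 c.1 (Nat.zero_le _)
      omega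
    · intro c hc d hd hcd
      obtain ⟨h3, h4⟩ := h1 c (Finset.mem_coe.1 hc)
      obtain ⟨h5, h6⟩ := h1 d (Finset.mem_coe.1 hd)
      simp only at hcd
      have h7 : c.1 = d.1 := by omega
      refine Prod.ext h7 ?_
      rw [h7] at h4
      omega
  exact h2

theorem rf_step {V : Multiset ℕ} (hV : V.Nodup) (l : ℕ) : rf V l ≤ rf V (l + 1) + 1 := by
  have h1 : rf V l = rf V (l + 1) + V.count (l + 1) := by
    induction V using Multiset.induction_on with
    | empty => simp [rf_zero]
    | cons a M ih =>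
      rw [rf_cons, rf_cons, ih (Multiset.nodup_cons.1 hV).2, Multiset.count_cons]
      split_ifs <;> omega
  have h2 := Multiset.nodup_iff_count_le_one.1 hV (l + 1)
  omega

theorem st_le {a b : ℕ} (h : a ≤ b) : st a ≤ st b := by
  rw [Multiset.le_iff_subset (st_nodup a)]
  intro s hs
  rw [mem_st] at hs ⊢
  omega

/-- rows deleted: distinct column heights give a staircase -/
theorem CC_nodup {V S : Multiset ℕ} (hV : V.Nodup) (hpos : ∀ v ∈ V, 1 ≤ v)
    (h : CC (st V.card) S) : CC V S := by
  have hb : ∀ s ∈ V, s ≤ V.sum := fun _ hs => Multiset.le_sum_of_mem hs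
  rw [← CC_cj hb]
  refine CC_le ?_ h
  rw [Multiset.le_iff_subset (st_nodup _)]
  intro v hv
  rw [mem_st] at hv
  have h0 : rf V 0 = V.card := by
    unfold rf
    rw [Multiset.filter_eq_self.2]
    exact fun s hs => hpos s hs
  have hex : ∃ l, rf V l < v := ⟨V.sum, by rw [rf_sum]; omega⟩
  have h1 := Nat.find_spec hex
  have h2 : Nat.find hex ≤ V.sum := Nat.find_min' hex (by rw [rf_sum]; omega)
  have h3 : Nat.find hex ≠ 0 := by
    intro h4
    rw [h4, h0] at h1
    omega
  have h4 := Nat.find_min hex (show Nat.find hex - 1 < Nat.find hex by omega)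
  have h5 := rf_step hV (Nat.find hex - 1)
  rw [show Nat.find hex - 1 + 1 = Nat.find hex by omega] at h5
  unfold cj
  rw [Multiset.mem_map]
  exact ⟨Nat.find hex - 1, Multiset.mem_range.2 (by omega), by omega⟩

theorem CC_corner {lam : YoungDiagram} {c : ℕ} {S : Multiset ℕ} (hc : c ≤ mcor lam)
    (h : CC (st c) S) : CC (cols lam) S := by
  refine CC_le (Multiset.dedup_le (cols lam)) ?_
  refine CC_nodup (Multiset.nodup_dedup _) (fun v hv => cols_pos (Multiset.mem_dedup.1 hv)) ?_
  exact CC_le (st_le (hc.trans (mcor_le lam))) h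

theorem map_sub_one {M : Multiset ℕ} (h : ∀ s ∈ M, 1 ≤ s) :
    (M.map (fun s => s - 1)).sum + M.card = M.sum := by
  induction M using Multiset.induction_on with
  | empty => rfl
  | cons a M ih =>
    have h1 := ih fun s hs => h s (Multiset.mem_cons_of_mem hs)
    have h2 := h a (Multiset.mem_cons_self a M)
    rw [Multiset.map_cons, Multiset.sum_cons, Multiset.sum_cons, Multiset.card_cons]
    omega

theorem map_sum_le {M N : Multiset ℕ} (h : M ≤ N) (f : ℕ → ℕ) :
    (M.map f).sum ≤ (N.map f).sum := by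
  obtain ⟨X, rfl⟩ := Multiset.le_iff_exists_add.1 h
  rw [Multiset.map_add, Multiset.sum_add]
  omega

/-- the staircase of side `c` carries everything of depth at most `K` -/
def KC (c K : ℕ) : Prop := ∀ S : Multiset ℕ, (∀ s ∈ S, 2 ≤ s) →
  (S.map (fun s => s - 1)).sum ≤ K → CC (st c) S

theorem KC.mono {c K c' K' : ℕ} (h : KC c K) (hc : c ≤ c') (hK : K' ≤ K) : KC c' K' :=
  fun S h1 h2 => CC_le (st_le hc) (h S h1 (h2.trans hK))

/-- the part of the column heights that matters -/
def core (mu : YoungDiagram) : Multiset ℕ := (cols mu).filter (fun s => 2 ≤ s)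

theorem Has_core (mu : YoungDiagram) : Has mu (core mu) := by
  intro r
  rw [← rf_cols]
  unfold rf core
  rw [Multiset.filter_filter]
  congr 1
  refine Multiset.filter_congr fun s _ => ?_
  omega

theorem core_sum {n : ℕ} (mu : Y n) :
    ((core mu.1).map (fun s => s - 1)).sum ≤ n - mu.1.rowLen 0 := by
  have h1 := map_sum_le (Multiset.filter_le (fun s => 2 ≤ s) (cols mu.1)) (fun s => s - 1)
  have h2 := map_sub_one (M := cols mu.1) fun s hs => cols_pos hs
  rw [sum_cols, card_cols, mu.2] at h2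
  unfold core
  omega

theorem Sq_of_CC {n : ℕ} (lam mu : Y n) (h : CC (cols lam.1) (core mu.1)) : Sq lam mu := by
  obtain ⟨nu, h1, h2⟩ := (CC_iff lam (cD_cols lam.1).symm).1 h
  rw [Has_unique (Has_core mu.1) h1]
  exact h2

/-- the use of `KC` -/
theorem Sq_of_KC {n : ℕ} (lam mu : Y n) {c K : ℕ} (hK : KC c K) (hc : c ≤ mcor lam.1)
    (hmu : n - mu.1.rowLen 0 ≤ K) : Sq lam mu := by
  refine Sq_of_CC lam mu (CC_corner hc (hK _ ?_ ((core_sum mu).trans hmu)))
  intro s hs
  exact (Multiset.mem_filter.1 hs).2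

end Pool.MP322
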