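import Pool.Agent.Lib.MP_322c5f_al.SG12

/-! (C), part 3: Ikenmeyer's theorem for diagrams with equal rows: `lam` occurs with everything that
occurs in the permutation module of the content in which the rows of equal lengths are merged. -/

set_option autoImplicit false

open Equiv Finset Nat

namespace Pool.MP322

section
variable {n : ℕ} (lam : Y n)

theorem mi_swap {T : Fin n → ℕ × ℕ} {π : Perm (Fin n)} (hπ : ∀ i, T i = (cT lam).1 (π i))
    (w : Fin n → ℕ) (i j : Fin n) (hij : (T i).2 = (T j).2) (hne : i ≠ j) :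
    ph lam (cT lam) (fun x => w (swap i j (π⁻¹ x))) = - ph lam (cT lam) (fun x => w (π⁻¹ x)) := by
  have hab : π i ≠ π j := fun h => hne (π.injective h)
  have hc : cc lam (π i) = cc lam (π j) := by
    have h1 : ((cT lam).1 (π i)).2 = ((cT lam).1 (π j)).2 := by rw [← hπ, ← hπ, hij]
    exact h1
  have h1 := g0_anti lam (π i) (π j) hab hc (fun i => w (π⁻¹ i))
  rw [← h1]
  congr 1
  funext x
  show w (swap i j (π⁻¹ x)) = w (π⁻¹ (swap (π i) (π j) x))
  congr 1
  rw [swap_apply_def, swap_apply_def]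
  by_cases h3 : π⁻¹ x = i
  · have h4 : x = π i := by rw [← h3, sg_ai]
    rw [if_pos h3, if_pos h4, sg_ia]
  · have h4 : x ≠ π i := fun h => h3 (by rw [h, sg_ia])
    rw [if_neg h3, if_neg h4]
    by_cases h5 : π⁻¹ x = j
    · have h6 : x = π j := by rw [← h5, sg_ai]
      rw [if_pos h5, if_pos h6, sg_ia]
    · have h6 : x ≠ π j := fun h => h5 (by rw [h, sg_ia])
      rw [if_neg h5, if_neg h6]

/-- the filling with rows `w0` and the reversed filling -/
theorem mi_len (w0 : Fin n → ℕ) (hw0 : ∀ r, occ w0 r = lam.1.rowLen r) :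
    ∃ (T T' : Fin n → ℕ × ℕ) (π1 π2 : Perm (Fin n)), (∀ i, T i = (cT lam).1 (π1 i)) ∧
      (∀ i, T' i = (cT lam).1 (π2 i)) ∧ (∀ i, (T i).1 = w0 i) ∧
      (∀ i, T' i = (w0 i, lam.1.rowLen (w0 i) - 1 - (T i).2)) ∧ Function.Injective T ∧
      (∀ c, c ∈ lam.1 ↔ ∃ i, T i = c) ∧
      ph lam (cT lam) (fun i => w0 (π1⁻¹ i)) ≠ 0 ∧ ph lam (cT lam) (fun i => w0 (π2⁻¹ i)) ≠ 0 ∧
      ∀ w : Fin n → ℕ, ph lam (cT lam) (fun i => w (π1⁻¹ i)) ≠ 0 → ph lam (cT lam) (fun i => w (π2⁻¹ i)) ≠ 0 →
        ∀ i, lam.1.rowLen (w i) = lam.1.rowLen (w0 i) := by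
  classical
  obtain ⟨π0, hπ0⟩ : ∃ π0 : Perm (Fin n), ∀ i, rw' lam (π0 i) = w0 i := by
    refine sg_equiv w0 (rw' lam) fun r => ?_
    have h1 := hw0 r
    have h2 := occ_rw lam r
    unfold occ at h1 h2
    rw [h1, h2]
  set T : Fin n → ℕ × ℕ := fun i => (rT lam).1 (π0 i) with hT
  have hT1 : ∀ i, (T i).1 = w0 i := fun i => hπ0 i
  have hTinj : Function.Injective T := fun i j hij => π0.injective ((rT lam).2.1 hij)
  have hTim : ∀ c, c ∈ lam.1 ↔ ∃ i, T i = c := by
    intro c
    rw [sg_im lam (rT lam) c]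
    constructor
    · rintro ⟨i, hi⟩
      exact ⟨π0⁻¹ i, by rw [hT]; simp only [sg_ai, hi]⟩
    · rintro ⟨i, hi⟩
      exact ⟨π0 i, hi⟩
  have hTlt : ∀ i, (T i).2 < lam.1.rowLen (w0 i) := by
    intro i
    rw [← YoungDiagram.mem_iff_lt_rowLen, ← hT1]
    exact (hTim _).2 ⟨i, rfl⟩
  set T' : Fin n → ℕ × ℕ := fun i => (w0 i, lam.1.rowLen (w0 i) - 1 - (T i).2) with hT'
  have hT'inj : Function.Injective T' := by
    intro i j hij
    have h1 : w0 i = w0 j := congrArg Prod.fst hij
    have h2 : lam.1.rowLen (w0 i) - 1 - (T i).2 = lam.1.rowLen (w0 j) - 1 - (T j).2 :=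
      congrArg Prod.snd hij
    have h3 := hTlt i
    have h4 := hTlt j
    rw [h1] at h2 h3
    apply hTinj
    refine Prod.ext ?_ ?_
    · rw [hT1, hT1, h1]
    · omega
  have hT'im : ∀ c, c ∈ lam.1 ↔ ∃ i, T' i = c := by
    have hmem : ∀ i, T' i ∈ lam.1 := by
      intro i
      rw [hT']
      simp only
      rw [YoungDiagram.mem_iff_lt_rowLen]
      have h3 := hTlt i
      omega
    intro c
    constructor
    · intro hc
      have h3 : (univ.image T') = lam.1.cells := by
        refine Finset.eq_of_subset_of_card_le ?_ ?_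
        · intro d hd
          obtain ⟨i, -, rfl⟩ := Finset.mem_image.1 hd
          exact (YoungDiagram.mem_cells _).2 (hmem i)
        · rw [Finset.card_image_of_injective _ hT'inj, Finset.card_univ, Fintype.card_fin]
          exact lam.2.le
      have h4 : c ∈ univ.image T' := by
        rw [h3]
        exact (YoungDiagram.mem_cells _).2 hc
      obtain ⟨i, -, hi⟩ := Finset.mem_image.1 h4
      exact ⟨i, hi⟩
    · rintro ⟨i, rfl⟩
      exact hmem i
  obtain ⟨π1, hπ1⟩ := sg_fill lam hTinj hTim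
  obtain ⟨π2, hπ2⟩ := sg_fill lam hT'inj hT'im
  refine ⟨T, T', π1, π2, hπ1, hπ2, hT1, fun i => rfl, hTinj, hTim, ?_, ?_, ?_⟩
  · have h1 := ik_ne lam hπ1
    simp only [hT1] at h1
    exact h1
  · have h1 := ik_ne lam hπ2
    exact h1
  · intro w h1 h2
    have hcont : ∀ r, occ w r = lam.1.rowLen r := by
      intro r
      have h3 := ph_sup lam _ _ h1 r
      rwa [occ_perm] at h3
    have hc1 := ik_col lam hπ1 h1
    have hc2 := ik_col lam hπ2 h2
    have hs1 := ik_row_sum hTinj hTim w hcont hc1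
    have hs2 := ik_row_sum hT'inj hT'im w hcont hc2
    have hgauss : ∀ L : ℕ, (∑ c ∈ range L, c) * 2 = L * (L - 1) := Finset.sum_range_id_mul_two
    have hrow : ∀ r, ∑ i ∈ univ.filter (fun i => w i = r),
        ((lam.1.rowLen (w0 i) : ℤ) - (lam.1.rowLen r : ℤ)) = 0 := by
      intro r
      have h3 : ∑ i ∈ univ.filter (fun i => w i = r), (lam.1.rowLen (w0 i) - 1) =
          lam.1.rowLen r * (lam.1.rowLen r - 1) := by
        rw [← hgauss, mul_two, ← hs1 r]
        nth_rewrite 2 [hs1 r]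
        rw [← hs2 r, ← Finset.sum_add_distrib]
        refine Finset.sum_congr rfl fun i _ => ?_
        have h4 := hTlt i
        rw [hT']
        simp only
        omega
      have h5 : ∑ i ∈ univ.filter (fun i => w i = r), ((lam.1.rowLen (w0 i) : ℤ) - 1) =
          (lam.1.rowLen r : ℤ) * ((lam.1.rowLen r : ℤ) - 1) := by
        have h6 : ∀ i, ((lam.1.rowLen (w0 i) : ℤ) - 1) = ((lam.1.rowLen (w0 i) - 1 : ℕ) : ℤ) := by
          intro i
          have h4 := hTlt i
          omega
        rw [Finset.sum_congr rfl fun i _ => h6 i, ← Nat.cast_sum, h3]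
        rcases Nat.eq_zero_or_pos (lam.1.rowLen r) with h7 | h7
        · rw [h7]
          simp
        · rw [Nat.cast_mul, Nat.cast_sub h7, Nat.cast_one]
      have h8 : (univ.filter (fun i => w i = r)).card = lam.1.rowLen r := hcont r
      rw [Finset.sum_sub_distrib, Finset.sum_const, h8, nsmul_eq_mul] at h5 ⊢
      rw [mul_one] at h5
      linarith
    have hcross : ∑ i, (lam.1.rowLen (w i) : ℤ) *
        ((lam.1.rowLen (w0 i) : ℤ) - (lam.1.rowLen (w i) : ℤ)) = 0 := by
      rw [← Finset.sum_fiberwise_of_maps_to (s := univ) (t := univ.image w) (g := w)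
        (fun i _ => Finset.mem_image_of_mem _ (Finset.mem_univ _))]
      refine Finset.sum_eq_zero fun r _ => ?_
      have h3 : ∀ i ∈ univ.filter (fun i => w i = r), (lam.1.rowLen (w i) : ℤ) *
          ((lam.1.rowLen (w0 i) : ℤ) - (lam.1.rowLen (w i) : ℤ)) = (lam.1.rowLen r : ℤ) *
          ((lam.1.rowLen (w0 i) : ℤ) - (lam.1.rowLen r : ℤ)) := by
        intro i hi
        rw [(Finset.mem_filter.1 hi).2]
      rw [Finset.sum_congr rfl h3, ← Finset.mul_sum, hrow, mul_zero]
    obtain ⟨σ, hσ⟩ : ∃ σ : Perm (Fin n), ∀ i, w0 (σ i) = w i := by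
      refine sg_equiv w w0 fun r => ?_
      have h3 := hw0 r
      have h4 := hcont r
      unfold occ at h3 h4
      rw [h3, h4]
    have hsq : ∑ i, (lam.1.rowLen (w i) : ℤ) ^ 2 = ∑ i, (lam.1.rowLen (w0 i) : ℤ) ^ 2 :=
      Fintype.sum_equiv σ _ _ fun i => by rw [hσ i]
    have hzero : ∑ i, ((lam.1.rowLen (w i) : ℤ) - (lam.1.rowLen (w0 i) : ℤ)) ^ 2 = 0 := by
      have h3 : ∀ i, ((lam.1.rowLen (w i) : ℤ) - (lam.1.rowLen (w0 i) : ℤ)) ^ 2 =
          (lam.1.rowLen (w0 i) : ℤ) ^ 2 - (lam.1.rowLen (w i) : ℤ) ^ 2 -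
          2 * ((lam.1.rowLen (w i) : ℤ) *
            ((lam.1.rowLen (w0 i) : ℤ) - (lam.1.rowLen (w i) : ℤ))) := fun i => by ring
      rw [Finset.sum_congr rfl fun i _ => h3 i, Finset.sum_sub_distrib, Finset.sum_sub_distrib,
        ← Finset.mul_sum, hcross, hsq]
      ring
    intro i
    have h3 := (Finset.sum_eq_zero_iff_of_nonneg (fun i _ => sq_nonneg _)).1 hzero i
      (Finset.mem_univ i)
    have h4 : (lam.1.rowLen (w i) : ℤ) = (lam.1.rowLen (w0 i) : ℤ) := by
      have := pow_eq_zero_iff (two_ne_zero) |>.1 h3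
      linarith
    exact_mod_cast h4

theorem mi_sep (w0 : Fin n → ℕ) (hw0 : ∀ r, occ w0 r = lam.1.rowLen r) :
    ∃ τ τ' : Perm (Fin n), ph lam (cT lam) (fun i => w0 (τ i)) ≠ 0 ∧
      ph lam (cT lam) (fun i => w0 (τ' i)) ≠ 0 ∧
      ∀ w : Fin n → ℕ, ph lam (cT lam) (fun i => w (τ i)) ≠ 0 →
        ph lam (cT lam) (fun i => w (τ' i)) ≠ 0 →
        (∀ i, lam.1.rowLen (w i) = lam.1.rowLen (w0 i) ∧ lam.1.rowLen (w i) ≠ 0) ∧
        ph lam (cT lam) (fun i => w (τ i)) * ph lam (cT lam) (fun i => w (τ' i)) =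
        ph lam (cT lam) (fun i => w0 (τ i)) * ph lam (cT lam) (fun i => w0 (τ' i)) := by
  classical
  obtain ⟨T, T', π1, π2, hπ1, hπ2, hT1, hT', hTinj, hTim, hn1, hn2, hlen⟩ := mi_len lam w0 hw0
  have hTlt : ∀ i, (T i).2 < lam.1.rowLen (w0 i) := by
    intro i
    rw [← YoungDiagram.mem_iff_lt_rowLen, ← hT1]
    exact (hTim _).2 ⟨i, rfl⟩
  refine ⟨π1⁻¹, π2⁻¹, hn1, hn2, ?_⟩
  intro w h1 h2
  refine ⟨fun i => ?_, ?_⟩
  · have h3 := hlen w h1 h2 i
    have h4 := hTlt i
    exact ⟨h3, by omega⟩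
  · obtain ⟨N, hN⟩ : ∃ N, (univ.filter (fun i => w i ≠ w0 i)).card = N := ⟨_, rfl⟩
    induction N using Nat.strong_induction_on generalizing w with
    | _ N ih =>
      by_cases hall : ∀ i, w i = w0 i
      · have h3 : w = w0 := funext hall
        rw [h3]
      · push Not at hall
        obtain ⟨i, hi⟩ := hall
        have hlen' : lam.1.rowLen (w i) = lam.1.rowLen (w0 i) := hlen w h1 h2 i
        -- the partner
        obtain ⟨k, hk⟩ : ∃ k, T k = (w i, (T i).2) := by
          rw [← hTim, YoungDiagram.mem_iff_lt_rowLen, hlen']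
          exact hTlt i
        have hk1 : w0 k = w i := by rw [← hT1, hk]
        have hk2 : (T i).2 = (T k).2 := by rw [hk]
        have hki : i ≠ k := by
          intro h
          rw [h] at hi
          exact hi (by rw [hk1, h])
        have hwk : w k ≠ w i := by
          intro h
          exact hki (ik_col lam hπ1 h1 i k hk2 h.symm)
        have hk3 : (T' i).2 = (T' k).2 := by
          rw [hT', hT', hk1, hlen', hk2]
        have hs1 := mi_swap lam hπ1 w i k hk2 hki
        have hs2 := mi_swap lam hπ2 w i k hk3 hki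
        have h3 := ih (univ.filter (fun x => w (swap i k x) ≠ w0 x)).card ?_
          (fun x => w (swap i k x)) ?_ ?_ rfl
        · rw [← h3]
          show _ = ph lam (cT lam) (fun x => w (swap i k (π1⁻¹ x))) *
            ph lam (cT lam) (fun x => w (swap i k (π2⁻¹ x)))
          rw [hs1, hs2]
          ring
        · rw [← hN]
          refine Finset.card_lt_card ?_
          rw [Finset.ssubset_iff_of_subset]
          · refine ⟨k, Finset.mem_filter.2 ⟨Finset.mem_univ _, ?_⟩, ?_⟩
            · rw [hk1]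
              exact hwk
            · rw [Finset.mem_filter, not_and]
              intro _ h4
              rw [swap_apply_right] at h4
              exact h4 hk1.symm
          · intro x hx
            obtain ⟨-, hx'⟩ := Finset.mem_filter.1 hx
            refine Finset.mem_filter.2 ⟨Finset.mem_univ _, ?_⟩
            by_cases hxi : x = i
            · rw [hxi]; exact hi
            · by_cases hxk : x = k
              · rw [hxk, swap_apply_right] at hx'
                exact absurd hk1.symm hx'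
              · rwa [swap_apply_of_ne_of_ne hxi hxk] at hx'
        · show ph lam (cT lam) (fun x => w (swap i k (π1⁻¹ x))) ≠ 0
          rw [hs1]
          exact neg_ne_zero.2 h1
        · show ph lam (cT lam) (fun x => w (swap i k (π2⁻¹ x))) ≠ 0
          rw [hs2]
          exact neg_ne_zero.2 h2

/-- content with the letters merged by `g` -/
def mg (N : ℕ) (g κ : ℕ → ℕ) (a : ℕ) : ℕ := ∑ b ∈ (range N).filter (fun b => g b = a), κ b

theorem occ_mg (N : ℕ) (g : ℕ → ℕ) (w : Fin n → ℕ) (hw : ∀ i, w i < N) (a : ℕ) :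
    occ (fun i => g (w i)) a = mg N g (occ w) a := by
  classical
  unfold occ mg
  rw [← Finset.card_biUnion]
  · congr 1
    ext i
    simp only [Finset.mem_filter, Finset.mem_univ, true_and, Finset.mem_biUnion, Finset.mem_range]
    constructor
    · intro h
      exact ⟨w i, ⟨hw i, h⟩, rfl⟩
    · rintro ⟨b, ⟨-, h⟩, h'⟩
      rw [h', h]
  · intro x _ y _ hxy
    rw [Function.onFun, Finset.disjoint_filter]
    intro i _ h1 h2
    exact hxy (h1.symm.trans h2)

/-- IKENMEYER, merged form -/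
theorem Sq_of_Fx_mg (mu : Y n) (N : ℕ) (g : ℕ → ℕ) (hN : lam.1.rowLen N = 0)
    (hg : ∀ r s, lam.1.rowLen r = lam.1.rowLen s → lam.1.rowLen r ≠ 0 → g r = g s)
    (h : Fx (mg N g lam.1.rowLen) mu) : Sq lam mu := by
  classical
  obtain ⟨A, ⟨w1, hw1⟩, hcont, hequiv⟩ := h
  have hc1 := hcont w1 hw1
  have hlt : ∀ w : Fin n → ℕ, (∀ r, occ w r = lam.1.rowLen r) → ∀ i, w i < N := by
    intro w hw i
    by_contra hcon
    have h1 : 0 < occ w (w i) := occ_pos.2 (Finset.mem_image_of_mem _ (Finset.mem_univ _))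
    have h2 := lam.1.rowLen_anti N (w i) (not_lt.1 hcon)
    rw [hw] at h1
    omega
  obtain ⟨π0, hπ0⟩ : ∃ π0 : Perm (Fin n), ∀ i, g (rw' lam (π0 i)) = w1 i := by
    have h0 := sg_equiv w1 (fun i => g (rw' lam i)) fun r => ?_
    · exact h0
    · have h1 := hc1 r
      have h2 := occ_mg N g (rw' lam) (hlt _ (fun r => occ_rw lam r)) r
      have h3 : occ (rw' lam) = lam.1.rowLen := funext fun r => occ_rw lam r
      rw [h3] at h2
      unfold occ at h1 h2
      rw [h1, h2]
  set w0 : Fin n → ℕ := fun i => rw' lam (π0 i) with hw0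
  have hc0 : ∀ r, occ w0 r = lam.1.rowLen r := by
    intro r
    rw [hw0, occ_perm, occ_rw]
  obtain ⟨τ, τ', hτ, hτ', hsep⟩ := mi_sep lam w0 hc0
  obtain ⟨z0, hz0⟩ := Function.ne_iff.1 hw1
  rw [Sq_iff, R3_pos_iff]
  refine ⟨fun p => ∑ π : Perm (Fin n), ph lam p.1.1 (fun i => rw' lam (π i)) *
    ph lam p.1.2 (fun i => rw' lam (π i)) * A (fun i => g (rw' lam (π i))) p.2, ?_, ?_⟩
  · intro h0
    have h1 : ∑ x, ∑ y, rep ⊥ lam.1 n τ x (cT lam) * rep ⊥ lam.1 n τ' y (cT lam) *
        (∑ π : Perm (Fin n), ph lam x (fun i => rw' lam (π i)) *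
          ph lam y (fun i => rw' lam (π i)) * A (fun i => g (rw' lam (π i))) z0) = 0 := by
      refine Finset.sum_eq_zero fun x _ => Finset.sum_eq_zero fun y _ => ?_
      have h2 := congrFun h0 ((x, y), z0)
      simp only [Pi.zero_apply] at h2
      rw [h2, mul_zero]
    have h2 : ∑ x, ∑ y, rep ⊥ lam.1 n τ x (cT lam) * rep ⊥ lam.1 n τ' y (cT lam) *
        (∑ π : Perm (Fin n), ph lam x (fun i => rw' lam (π i)) *
          ph lam y (fun i => rw' lam (π i)) * A (fun i => g (rw' lam (π i))) z0) =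
        ∑ π : Perm (Fin n), ph lam (cT lam) (fun i => rw' lam (π (τ i))) *
          ph lam (cT lam) (fun i => rw' lam (π (τ' i))) *
          A (fun i => g (rw' lam (π i))) z0 := by
      have h3 : ∀ π : Perm (Fin n), ph lam (cT lam) (fun i => rw' lam (π (τ i))) *
          ph lam (cT lam) (fun i => rw' lam (π (τ' i))) *
          A (fun i => g (rw' lam (π i))) z0 =
          ∑ x, ∑ y, rep ⊥ lam.1 n τ x (cT lam) * rep ⊥ lam.1 n τ' y (cT lam) *
            (ph lam x (fun i => rw' lam (π i)) *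
            ph lam y (fun i => rw' lam (π i)) * A (fun i => g (rw' lam (π i))) z0) := by
        intro π
        have h4 := ph_equiv lam τ (cT lam) (fun i => rw' lam (π i))
        have h5 := ph_equiv lam τ' (cT lam) (fun i => rw' lam (π i))
        rw [h4, h5, Finset.sum_mul_sum, Finset.sum_mul]
        refine Finset.sum_congr rfl fun x _ => ?_
        rw [Finset.sum_mul]
        exact Finset.sum_congr rfl fun y _ => by ring
      rw [Finset.sum_congr rfl fun π _ => h3 π,
        Finset.sum_comm (s := (univ : Finset (Perm (Fin n))))]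
      refine Finset.sum_congr rfl fun x _ => ?_
      rw [Finset.sum_comm (s := (univ : Finset (Perm (Fin n))))]
      refine Finset.sum_congr rfl fun y _ => ?_
      rw [Finset.mul_sum]
    rw [h2] at h1
    set P : Perm (Fin n) → Prop := fun π =>
      ph lam (cT lam) (fun i => rw' lam (π (τ i))) ≠ 0 ∧
      ph lam (cT lam) (fun i => rw' lam (π (τ' i))) ≠ 0 with hP
    have h4 : ∀ π : Perm (Fin n), ph lam (cT lam) (fun i => rw' lam (π (τ i))) *
          ph lam (cT lam) (fun i => rw' lam (π (τ' i))) *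
          A (fun i => g (rw' lam (π i))) z0 =
          if P π then ph lam (cT lam) (fun i => w0 (τ i)) *
          ph lam (cT lam) (fun i => w0 (τ' i)) * A w1 z0 else 0 := by
      intro π
      by_cases h5 : P π
      · rw [if_pos h5]
        obtain ⟨h6, h7⟩ := hsep (fun i => rw' lam (π i)) h5.1 h5.2
        rw [h7]
        congr 2
        have h8 : (fun i => g (rw' lam (π i))) = w1 := by
          funext i
          rw [← hπ0 i]
          exact hg _ _ (h6 i).1 (h6 i).2
        rw [h8]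
      · rw [if_neg h5]
        by_cases h6 : ph lam (cT lam) (fun i => rw' lam (π (τ i))) = 0
        · rw [h6, zero_mul, zero_mul]
        · by_cases h7 : ph lam (cT lam) (fun i => rw' lam (π (τ' i))) = 0
          · rw [h7, mul_zero, zero_mul]
          · exact absurd ⟨h6, h7⟩ h5
    rw [Finset.sum_congr rfl fun π _ => h4 π, ← Finset.sum_filter, Finset.sum_const,
      nsmul_eq_mul] at h1
    rcases mul_eq_zero.1 h1 with h5 | h5
    · have h6 : (univ.filter (fun π : Perm (Fin n) => P π)).card = 0 := by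
        exact_mod_cast h5
      rw [Finset.card_eq_zero, Finset.filter_eq_empty_iff] at h6
      exact h6 (Finset.mem_univ π0) ⟨hτ, hτ'⟩
    · rcases mul_eq_zero.1 h5 with h6 | h6
      · rcases mul_eq_zero.1 h6 with h7 | h7
        · exact hτ h7
        · exact hτ' h7
      · exact hz0 h6
  · intro σ
    funext p
    have h1 : ∀ π : Perm (Fin n), ∑ q : (Tab ⊥ lam.1 n × Tab ⊥ lam.1 n) × Tab ⊥ mu.1 n,
        R3 lam lam mu σ p q * (ph lam q.1.1 (fun i => rw' lam (π i)) *
        ph lam q.1.2 (fun i => rw' lam (π i)) * A (fun i => g (rw' lam (π i))) q.2) =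
        ph lam p.1.1 (fun i => rw' lam (π (σ⁻¹ i))) *
        ph lam p.1.2 (fun i => rw' lam (π (σ⁻¹ i))) *
        A (fun i => g (rw' lam (π (σ⁻¹ i)))) p.2 := by
      intro π
      have h2 : ∀ x, ph lam x (fun i => rw' lam (π (σ⁻¹ i))) =
          ∑ y, rep ⊥ lam.1 n σ x y * ph lam y (fun i => rw' lam (π i)) := by
        intro x
        have h3 := ph_equiv lam σ⁻¹ x (fun i => rw' lam (π i))
        rw [h3]
        refine Finset.sum_congr rfl fun y _ => ?_
        rw [← rep_transpose, Matrix.transpose_apply]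
      have h3 : A (fun i => g (rw' lam (π (σ⁻¹ i)))) p.2 =
          ∑ z, rep ⊥ mu.1 n σ p.2 z * A (fun i => g (rw' lam (π i))) z := by
        have h4 := hequiv σ⁻¹ (fun i => g (rw' lam (π i)))
        rw [inv_inv] at h4
        rw [h4]
        rfl
      rw [h2, h2, h3, Finset.sum_mul_sum, ← Finset.sum_product', Finset.univ_product_univ,
        Finset.sum_mul_sum, Fintype.sum_prod_type]
      refine Finset.sum_congr rfl fun a _ => Finset.sum_congr rfl fun b _ => ?_
      unfold R3
      rw [kr_apply, kr_apply]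
      ring
    have h5 : ∀ q : (Tab ⊥ lam.1 n × Tab ⊥ lam.1 n) × Tab ⊥ mu.1 n,
        R3 lam lam mu σ p q * (∑ π : Perm (Fin n), ph lam q.1.1 (fun i => rw' lam (π i)) *
        ph lam q.1.2 (fun i => rw' lam (π i)) * A (fun i => g (rw' lam (π i))) q.2) =
        ∑ π : Perm (Fin n), R3 lam lam mu σ p q * (ph lam q.1.1 (fun i => rw' lam (π i)) *
        ph lam q.1.2 (fun i => rw' lam (π i)) *
        A (fun i => g (rw' lam (π i))) q.2) := fun q => Finset.mul_sum _ _ _
    unfold Matrix.mulVec dotProduct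
    rw [Finset.sum_congr rfl fun q _ => h5 q, Finset.sum_comm,
      Finset.sum_congr rfl fun π _ => h1 π]
    refine Fintype.sum_equiv (Equiv.mulRight σ⁻¹) _ _ fun π => ?_
    rfl

end

end Pool.MP322
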