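import Pool.Agent.Lib.MP_322c5f_al.SG13

/-! (C), part 4: dominance rules. -/

set_option autoImplicit false

open Equiv Finset Nat

namespace Pool.MP322

/-- sums of an antitone function over a finite set -/
theorem sum_le_range {h : ℕ → ℕ} (hh : Antitone h) (R : Finset ℕ) :
    ∑ a ∈ R, h a ≤ ∑ i ∈ range R.card, h i := by
  classical
  induction R using Finset.induction_on_max with
  | empty => simp
  | insert a s hmax ih =>
    have ha : a ∉ s := fun h => lt_irrefl _ (hmax a h)
    rw [Finset.sum_insert ha, Finset.card_insert_of_notMem ha, Finset.sum_range_succ]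
    have h1 : s.card ≤ a := by
      have h2 : s ⊆ range a := fun x hx => Finset.mem_range.2 (hmax x hx)
      have h3 := Finset.card_le_card h2
      rwa [Finset.card_range] at h3
    have h2 := hh h1
    omega

/-- dominance for an arbitrary content -/
theorem Fx_content {n : ℕ} (mu : Y n) (N : ℕ) (κ : ℕ → ℕ) (hN : ∀ a, N ≤ a → κ a = 0)
    (hsum : ∑ a ∈ range N, κ a = n)
    (hdom : ∀ R : Finset ℕ, R ⊆ range N → ∑ a ∈ R, κ a ≤ ∑ r ∈ range R.card, mu.1.rowLen r) :
    Fx κ mu := by
  classical
  set σ : Perm (Fin N) := Tuple.sort (fun i : Fin N => OrderDual.toDual (κ i)) with hσ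
  have hmono : Monotone ((fun i : Fin N => OrderDual.toDual (κ i)) ∘ σ) := Tuple.monotone_sort _
  have hanti : ∀ i j : Fin N, i ≤ j → κ (σ j) ≤ κ (σ i) := fun i j hij =>
    OrderDual.toDual_le_toDual.1 (hmono hij)
  set l : ℕ → ℕ := fun r => if h : r < N then κ (σ ⟨r, h⟩) else 0 with hl
  have hl1 : ∀ (r : ℕ) (h : r < N), l r = κ (σ ⟨r, h⟩) := fun r h => dif_pos h
  have hl2 : ∀ r, N ≤ r → l r = 0 := fun r h => dif_neg (by omega)
  have hla : Antitone l := by
    intro r s hrs
    by_cases h : s < N
    · rw [hl1 s h, hl1 r (by omega)]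
      exact hanti _ _ hrs
    · rw [hl2 s (by omega)]
      exact Nat.zero_le _
  have hpart : ∀ k ≤ N, ∃ R : Finset ℕ, R ⊆ range N ∧ R.card = k ∧
      ∑ r ∈ range k, l r = ∑ a ∈ R, κ a := by
    intro k hk
    have h1 : ∀ r ∈ range k, r < N := fun r hr => lt_of_lt_of_le (Finset.mem_range.1 hr) hk
    have hinj : Set.InjOn (fun r : ℕ => if h : r < N then ((σ ⟨r, h⟩ : Fin N) : ℕ) else 0)
        (range k) := by
      intro r hr s hs hrs
      simp only [dif_pos (h1 r (Finset.mem_coe.1 hr)), dif_pos (h1 s (Finset.mem_coe.1 hs))] at hrs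
      have h2 := σ.injective (Fin.ext hrs)
      exact congrArg Fin.val h2
    refine ⟨(range k).image (fun r : ℕ => if h : r < N then ((σ ⟨r, h⟩ : Fin N) : ℕ) else 0),
      ?_, ?_, ?_⟩
    · intro a ha
      obtain ⟨r, hr, rfl⟩ := Finset.mem_image.1 ha
      simp only [dif_pos (h1 r hr), Finset.mem_range]
      exact (σ ⟨r, _⟩).2
    · rw [Finset.card_image_of_injOn hinj, Finset.card_range]
    · rw [Finset.sum_image hinj]
      refine Finset.sum_congr rfl fun r hr => ?_
      rw [hl1 r (h1 r hr), dif_pos (h1 r hr)]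
  have htot : ∑ r ∈ range N, l r = n := by
    obtain ⟨R, hR1, hR2, hR3⟩ := hpart N le_rfl
    have : R = range N := Finset.eq_of_subset_of_card_le hR1 (by rw [Finset.card_range, hR2])
    rw [hR3, this, hsum]
  set D := ofRow l hla N with hD
  have hDr : ∀ r, D.rowLen r = l r := rowLen_ofRow (hl2 N le_rfl)
  have hDc : D.colLen 0 ≤ N := by
    by_contra hcon
    push Not at hcon
    rw [← YoungDiagram.mem_iff_lt_colLen, YoungDiagram.mem_iff_lt_rowLen, hDr,
      hl2 N le_rfl] at hcon
    exact absurd hcon (Nat.not_lt_zero _)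
  have hcard : D.card = n := by
    rw [card_eq_sum_rowLen D N hDc]
    simp only [hDr]
    exact htot
  have hdom' : Dom mu.1 D := by
    intro k
    simp only [hDr]
    rcases le_total k N with hk | hk
    · obtain ⟨R, hR1, hR2, hR3⟩ := hpart k hk
      rw [hR3, ← hR2]
      exact hdom R hR1
    · obtain ⟨R, hR1, hR2, hR3⟩ := hpart N le_rfl
      have h1 := hdom R hR1
      rw [hR2, ← hR3] at h1
      have h2 : ∑ r ∈ range k, l r = ∑ r ∈ range N, l r := by
        symm
        refine Finset.sum_subset (Finset.range_subset_range.2 hk) fun r _ hr => hl2 r ?_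
        rw [Finset.mem_range] at hr
        omega
      rw [h2]
      exact h1.trans (Finset.sum_le_sum_of_subset (Finset.range_subset_range.2 hk))
  have hfx := Fx_of_dom (lam := (⟨D, hcard⟩ : Y n)) (mu := mu) hdom'
  refine Fx_relabel mu D.rowLen κ (fun a => if h : a < N then ((σ⁻¹ ⟨a, h⟩ : Fin N) : ℕ) else 0)
    (range N) ?_ ?_ ?_ ?_ hfx
  · intro a ha b hb hab
    rw [Finset.mem_range] at ha hb
    simp only [dif_pos ha, dif_pos hb] at hab
    have h2 := σ⁻¹.injective (Fin.ext hab)
    exact congrArg Fin.val h2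
  · intro a ha
    rw [Finset.mem_range] at ha
    rw [hDr, dif_pos ha, hl1 _ (σ⁻¹ ⟨a, ha⟩).2]
    simp
  · intro a ha
    rw [Finset.mem_range] at ha
    exact hN a (by omega)
  · intro b hb
    rw [hDr] at hb
    have hbN : b < N := by
      by_contra hcon
      exact hb (hl2 b (by omega))
    refine ⟨((σ ⟨b, hbN⟩ : Fin N) : ℕ), Finset.mem_range.2 (σ ⟨b, hbN⟩).2, ?_⟩
    rw [dif_pos (σ ⟨b, hbN⟩).2]
    simp

/-- partial sums of the column heights -/
theorem sum_colLen (D : YoungDiagram) (k w : ℕ) (hw : D.colLen 0 ≤ w) :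
    ∑ c ∈ range k, D.colLen c = ∑ r ∈ range w, min (D.rowLen r) k := by
  have h1 : ∀ c, D.colLen c = ∑ r ∈ range w, (if c < D.rowLen r then 1 else 0) := by
    intro c
    rw [← Finset.sum_filter, Finset.sum_const, smul_eq_mul, mul_one]
    have h2 : (range w).filter (fun r => c < D.rowLen r) = range (D.colLen c) := by
      ext r
      rw [Finset.mem_filter, Finset.mem_range, Finset.mem_range,
        ← YoungDiagram.mem_iff_lt_rowLen, YoungDiagram.mem_iff_lt_colLen]
      constructor
      · exact fun h => h.2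
      · intro h
        exact ⟨lt_of_lt_of_le (lt_of_lt_of_le h (D.colLen_anti 0 c (Nat.zero_le _))) hw, h⟩
    rw [h2, Finset.card_range]
  rw [Finset.sum_congr rfl fun c _ => h1 c, Finset.sum_comm]
  exact Finset.sum_congr rfl fun r _ => sum_ite_lt _ _

/-- the diagram with columns `S` and ones -/
theorem Has_ones {S : Multiset ℕ} (o : ℕ) : Has (cD (S + Multiset.replicate o 1)) S := by
  intro r
  rw [rowLen_cD, rf_add]
  have h1 : rf (Multiset.replicate o 1) (r + 1) = 0 := by
    refine Nat.le_zero.1 ((rf_anti _ (show 1 ≤ r + 1 by omega)).trans (le_of_eq ?_))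
    exact rf_big fun s hs => by rw [Multiset.eq_of_mem_replicate hs]
  rw [h1, Nat.add_zero]

theorem sub_add_min (a k : ℕ) : (a - k) + min a k = a := by omega

theorem map_sub_min (M : Multiset ℕ) (k : ℕ) :
    (M.map (fun s => s - k)).sum + (M.map (fun s => min s k)).sum = M.sum := by
  rw [← Multiset.sum_map_add]
  conv_rhs => rw [← Multiset.map_id M]
  congr 1
  exact Multiset.map_congr rfl fun s _ => sub_add_min s k

/-- R1: distinct column heights carry what is dominated by the rows -/
theorem CC_dom {C S : Multiset ℕ} (hC : C.Nodup) (hS : ∀ k, (S.map (fun s => s - k)).sum ≤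
    ∑ j ∈ range C.sum, (rf C j - k)) : CC C S := by
  classical
  have hb : ∀ s ∈ C, s ≤ C.sum := fun _ hs => Multiset.le_sum_of_mem hs
  have hCsum : ∑ j ∈ range C.sum, rf C j = C.sum := by
    rw [sum_rf]
    conv_rhs => rw [← Multiset.map_id C]
    congr 1
    exact Multiset.map_congr rfl fun s hs => min_eq_left (hb s hs)
  have h0 : S.sum ≤ C.sum := by
    have h1 := hS 0
    simp only [Nat.sub_zero, Multiset.map_id', hCsum] at h1
    exact h1
  obtain ⟨o, ho⟩ := Nat.exists_eq_add_of_le h0
  have hcard : (cD (S + Multiset.replicate o 1)).card = (cD C).card := by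
    rw [card_cD, card_cD, Multiset.sum_add, Multiset.sum_replicate, smul_eq_mul, mul_one, ho]
  refine ⟨⟨cD (S + Multiset.replicate o 1), hcard⟩, Has_ones o, ?_⟩
  refine (Sq_tr (⟨cD C, rfl⟩ : Y (cD C).card) _).1 ?_
  have hrow : ∀ r, (Y.tr (⟨cD C, rfl⟩ : Y (cD C).card)).1.rowLen r = (cD C).colLen r := by
    intro r
    show (cD C).transpose.rowLen r = _
    rw [YoungDiagram.rowLen_transpose]
  refine Sq_of_dom ?_ ?_
  · intro r s hrs hne
    rw [hrow, hrow] at hrs
    rw [hrow] at hne
    -- distinct column heights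
    have key : ∀ r s, r < s → (cD C).colLen r = (cD C).colLen s → (cD C).colLen r ≠ 0 → False := by
      intro r s hlt hrs hne
      have h1 : ((cD C).colLen r - 1, s) ∈ cD C := by
        rw [YoungDiagram.mem_iff_lt_colLen, ← hrs]
        omega
      have h2 : ((cD C).colLen r, r) ∉ cD C := by
        rw [YoungDiagram.mem_iff_lt_colLen]
        omega
      rw [YoungDiagram.mem_iff_lt_rowLen, rowLen_cD] at h1 h2
      have h3 := rf_step hC ((cD C).colLen r - 1)
      rw [show (cD C).colLen r - 1 + 1 = (cD C).colLen r by omega] at h3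
      omega
    rcases lt_trichotomy r s with h | h | h
    · exact (key r s h hrs hne).elim
    · exact h
    · exact (key s r h hrs.symm (by rw [← hrs]; exact hne)).elim
  · intro k
    simp only [hrow]
    rw [sum_colLen (cD C) k C.sum (colLen_cD_le hb 0)]
    show _ ≤ ∑ r ∈ range k, (cD (S + Multiset.replicate o 1)).rowLen r
    simp only [rowLen_cD]
    rw [sum_rf, Multiset.map_add, Multiset.sum_add, Multiset.map_replicate,
      Multiset.sum_replicate, smul_eq_mul]
    have h1 : ∑ r ∈ range C.sum, (rf C r - k) + ∑ r ∈ range C.sum, min (rf C r) k = C.sum := by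
      rw [← Finset.sum_add_distrib]
      conv_rhs => rw [← hCsum]
      exact Finset.sum_congr rfl fun r _ => sub_add_min _ _
    have h2 := map_sub_min S k
    have h3 := hS k
    rcases k with _ | k
    · simp
    · have h4 : min 1 (k + 1) = 1 := by omega
      rw [h4]
      omega

/-! ### sorted lists -/

theorem rf_list_le {L : List ℕ} {a i : ℕ} (h : ∀ s ∈ L, s ≤ a) (hi : a ≤ i) :
    rf (L : Multiset ℕ) i = 0 :=
  rf_big fun s hs => (h s (Multiset.mem_coe.1 hs)).trans hi

theorem getD_le {L : List ℕ} {a : ℕ} (h : ∀ s ∈ L, s ≤ a) (r : ℕ) : L.getD r 0 ≤ a := by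
  rw [List.getD_eq_getElem?_getD]
  rcases lt_or_ge r L.length with hr | hr
  · rw [List.getElem?_eq_getElem hr, Option.getD_some]
    exact h _ (List.getElem_mem hr)
  · rw [List.getElem?_eq_none hr, Option.getD_none]
    exact Nat.zero_le _

theorem lt_rf_sorted : ∀ {L : List ℕ}, L.Pairwise (· ≥ ·) → ∀ r i,
    (r < rf (L : Multiset ℕ) i ↔ i < L.getD r 0) := by
  intro L
  induction L with
  | nil =>
    intro _ r i
    simp [rf]
  | cons a L ih =>
    intro hL r i
    obtain ⟨h1, h2⟩ := List.pairwise_cons.1 hL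
    have h3 : rf ((a :: L : List ℕ) : Multiset ℕ) i = (if i < a then 1 else 0) +
        rf (L : Multiset ℕ) i := by
      rw [← Multiset.cons_coe, rf_cons]
    rw [h3]
    by_cases hia : i < a
    · rw [if_pos hia]
      rcases r with _ | r
      · rw [List.getD_cons_zero]
        exact ⟨fun _ => hia, fun _ => by omega⟩
      · rw [List.getD_cons_succ, ← ih h2]
        omega
    · rw [if_neg hia, rf_list_le h1 (by omega)]
      rcases r with _ | r
      · rw [List.getD_cons_zero]
        omega
      · rw [List.getD_cons_succ]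
        have := getD_le h1 r
        omega

theorem colLen_sorted {L : List ℕ} (hL : L.Pairwise (· ≥ ·)) (r : ℕ) :
    (cD (L : Multiset ℕ)).colLen r = L.getD r 0 := by
  have h : ∀ i, i < (cD (L : Multiset ℕ)).colLen r ↔ i < L.getD r 0 := by
    intro i
    rw [← YoungDiagram.mem_iff_lt_colLen, YoungDiagram.mem_iff_lt_rowLen, rowLen_cD]
    exact lt_rf_sorted hL r i
  have h1 := h (L.getD r 0)
  have h2 := h ((cD (L : Multiset ℕ)).colLen r)
  omega

theorem sum_getD (L : List ℕ) (x : ℕ) : ∑ r ∈ range x, L.getD r 0 = (L.take x).sum := by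
  induction L generalizing x with
  | nil => simp
  | cons a L ih =>
    rcases x with _ | x
    · simp
    · rw [Finset.sum_range_succ', List.take_succ_cons, List.sum_cons, List.getD_cons_zero]
      simp only [List.getD_cons_succ]
      rw [ih, Nat.add_comm]

end Pool.MP322
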