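import Pool.Agent.Lib.MP_322c5f_al.SG14

/-! (C), part 5: tall groups. -/

set_option autoImplicit false

open Equiv Finset Nat

namespace Pool.MP322

theorem tall_core {n : ℕ} (lam : Y n) (hlam : lam.tr = lam) {L : List ℕ}
    (hL : L.Pairwise (· ≥ ·)) (hpos : ∀ s ∈ L, 1 ≤ s) (o : ℕ) (hn : L.sum + o = n)
    (h : ∀ nu : Y n, (∀ x, ∑ r ∈ range x, nu.1.rowLen r = (L.take x).sum + min (x - L.length) o) →
      Sq lam nu) : ∃ mu : Y n, Has mu.1 (L : Multiset ℕ) ∧ Sq lam mu := by
  have hcard : (cD ((L : Multiset ℕ) + Multiset.replicate o 1)).card = n := by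
    rw [card_cD, Multiset.sum_add, Multiset.sum_replicate, smul_eq_mul, mul_one,
      Multiset.sum_coe, hn]
  have hsort : (L ++ List.replicate o 1).Pairwise (· ≥ ·) := by
    rw [List.pairwise_append]
    refine ⟨hL, List.pairwise_replicate.2 (Or.inr le_rfl), ?_⟩
    intro a ha b hb
    rw [List.eq_of_mem_replicate hb]
    exact hpos a ha
  have hcoe : (L : Multiset ℕ) + Multiset.replicate o 1 =
      ((L ++ List.replicate o 1 : List ℕ) : Multiset ℕ) := by
    rw [← Multiset.coe_add, Multiset.coe_replicate]
  refine ⟨⟨_, hcard⟩, Has_ones o, ?_⟩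
  refine (Sq_tr_right (mu := (⟨cD ((L : Multiset ℕ) + Multiset.replicate o 1), hcard⟩ : Y n))
    hlam).1 ?_
  refine h _ fun x => ?_
  have hrow : ∀ r, (Y.tr (⟨cD ((L : Multiset ℕ) + Multiset.replicate o 1), hcard⟩ : Y n)).1.rowLen r
      = (L ++ List.replicate o 1).getD r 0 := by
    intro r
    show (cD ((L : Multiset ℕ) + Multiset.replicate o 1)).transpose.rowLen r = _
    rw [YoungDiagram.rowLen_transpose, hcoe, colLen_sorted hsort]
  simp only [hrow]
  rw [sum_getD, List.take_append, List.sum_append, List.take_replicate, List.sum_replicate,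
    smul_eq_mul, mul_one]

theorem sum_stair {b k : ℕ} (hk : k ≤ b) : ∑ r ∈ range k, (b - r) + NN (k - 1) = k * b := by
  induction k with
  | zero => simp [NN]
  | succ k ih =>
    have h1 := ih (by omega)
    rw [Finset.sum_range_succ, Nat.add_sub_cancel]
    have h2 : NN k = NN (k - 1) + k := by
      rcases k with _ | k
      · rfl
      · rw [Nat.add_sub_cancel, NN_succ]
    have h3 : (k + 1) * b = k * b + b := by ring
    omega

theorem sum_stair' (b k : ℕ) : ∑ r ∈ range k, (b - r) + NN (b - k) = NN b := by
  induction k with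
  | zero => simp
  | succ k ih =>
    rw [Finset.sum_range_succ]
    rcases Nat.lt_or_ge k b with h | h
    · have h2 := NN_succ (b - (k + 1))
      rw [show b - (k + 1) + 1 = b - k by omega] at h2
      omega
    · rw [show b - (k + 1) = b - k by omega]
      omega

theorem self_NN (a : ℕ) : a ≤ NN a := by
  induction a with
  | zero => exact Nat.zero_le _
  | succ a ih => rw [NN_succ]; omega

theorem st_Ytr (b : ℕ) : Y.tr (⟨cD (st b), rfl⟩ : Y (cD (st b)).card) =
    (⟨cD (st b), rfl⟩ : Y (cD (st b)).card) :=
  Subtype.ext (st_tr b)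

/-- comparable with the staircase -/
theorem CC_tall_good {b : ℕ} {L : List ℕ} (hL : L.Pairwise (· ≥ ·)) (hpos : ∀ s ∈ L, 1 ≤ s)
    (h1 : L.sum ≤ NN b) (h2 : L.length + (NN b - L.sum) ≤ b)
    (h3 : ∀ x ≤ L.length, x * b ≤ (L.take x).sum + NN (x - 1)) : CC (st b) (L : Multiset ℕ) := by
  refine tall_core _ (st_Ytr b) hL hpos (NN b - L.sum) ?_ ?_
  · rw [card_cD, sum_st]
    omega
  · intro nu hnu
    refine Sq_of_dom ?_ ?_
    · intro r s hrs hne
      have h4 : ∀ r, (cD (st b)).rowLen r = b - r := fun r => by rw [rowLen_cD, rf_st]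
      have h5 : (cD (st b)).rowLen r = (cD (st b)).rowLen s := hrs
      have h6 : (cD (st b)).rowLen r ≠ 0 := hne
      rw [h4, h4] at h5
      rw [h4] at h6
      omega
    · intro k
      show ∑ r ∈ range k, (cD (st b)).rowLen r ≤ _
      simp only [rowLen_cD, rf_st]
      rw [hnu k]
      rcases le_total k L.length with hk | hk
      · have h4 := sum_stair (show k ≤ b by omega)
        have h5 := h3 k hk
        omega
      · rw [List.take_of_length_le hk]
        have h4 := sum_stair' b k
        have h5 := self_NN (b - k)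
        omega

/-- one column -/
theorem CC_hook {b s : ℕ} (hs : 1 ≤ s) (hb : s ≤ NN b) : CC (st b) {s} := by
  have hex : ∃ b, s ≤ NN b := ⟨b, hb⟩
  have h1 := Nat.find_spec hex
  have h2 : Nat.find hex ≤ b := Nat.find_min' hex hb
  have h3 : Nat.find hex ≠ 0 := by
    intro h
    rw [h] at h1
    have : NN 0 = 0 := rfl
    omega
  have h4 := Nat.find_min hex (show Nat.find hex - 1 < Nat.find hex by omega)
  set a := Nat.find hex with ha
  have h5 : NN a = NN (a - 1) + a := by
    rw [show a = (a - 1) + 1 by omega, NN_succ, Nat.add_sub_cancel]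
  have h6 := self_NN (a - 1)
  refine CC_le (st_le h2) ?_
  have h7 := CC_tall_good (b := a) (L := [s]) (List.pairwise_singleton _ _)
    (fun x hx => by rw [List.mem_singleton.1 hx]; exact hs) (by simpa using h1)
    (by simp only [List.length_singleton, List.sum_singleton]; omega) ?_
  · exact h7
  · intro x hx
    rw [List.length_singleton] at hx
    rcases Nat.le_one_iff_eq_zero_or_eq_one.1 hx with h | h
    · subst h
      simp
    · subst h
      simp
      omega

/-! ### the shapes between the staircases -/

/-- row lengths -/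
def bf (b j i : ℕ) : ℕ := b - i - (if j ≤ i ∧ i < b - j then 1 else 0)

theorem bf_symm {b j : ℕ} (i r : ℕ) : r < bf b j i ↔ i < bf b j r := by
  unfold bf
  split_ifs <;> omega

/-- the shape -/
def be (b j : ℕ) : Multiset ℕ := (Multiset.range b).map (bf b j)

theorem rf_be (b j r : ℕ) : rf (be b j) r = bf b j r := by
  unfold be
  have h1 : rf ((Multiset.range b).map (bf b j)) r =
      ((range b).filter (fun i => r < bf b j i)).card := by
    unfold rf
    rw [Multiset.filter_map, Multiset.card_map]
    rfl
  rw [h1]
  have h2 : (range b).filter (fun i => r < bf b j i) = range (bf b j r) := by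
    ext i
    rw [Finset.mem_filter, Finset.mem_range, Finset.mem_range, bf_symm]
    constructor
    · exact fun h => h.2
    · intro h
      refine ⟨?_, h⟩
      unfold bf at h
      omega
  rw [h2, Finset.card_range]

theorem be_tr (b j : ℕ) : (cD (be b j)).transpose = cD (be b j) := by
  refine YoungDiagram.ext ?_
  ext c
  rw [YoungDiagram.mem_cells, YoungDiagram.mem_cells, YoungDiagram.mem_transpose]
  have h1 : c.swap = (c.2, c.1) := rfl
  have h2 : c = (c.1, c.2) := rfl
  rw [h1, YoungDiagram.mem_iff_lt_rowLen, rowLen_cD, rf_be]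
  nth_rewrite 3 [h2]
  rw [YoungDiagram.mem_iff_lt_rowLen, rowLen_cD, rf_be]
  exact bf_symm _ _

theorem be_Ytr (b j : ℕ) : Y.tr (⟨cD (be b j), rfl⟩ : Y (cD (be b j)).card) =
    (⟨cD (be b j), rfl⟩ : Y (cD (be b j)).card) :=
  Subtype.ext (be_tr b j)

theorem sum_bf {b j : ℕ} (hj : 2 * j ≤ b) :
    ∑ i ∈ range b, bf b j i + (b - 2 * j) = NN b := by
  have h1 : ∀ i ∈ range b, bf b j i + (if j ≤ i ∧ i < b - j then 1 else 0) = b - i := by
    intro i hi
    rw [Finset.mem_range] at hi
    unfold bf
    split_ifs <;> omega
  have h2 : ∑ i ∈ range b, (if j ≤ i ∧ i < b - j then 1 else 0) = b - 2 * j := by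
    rw [← Finset.sum_filter, Finset.sum_const, smul_eq_mul, mul_one]
    have h3 : (range b).filter (fun i => j ≤ i ∧ i < b - j) = Finset.Ico j (b - j) := by
      ext i
      simp only [Finset.mem_filter, Finset.mem_range, Finset.mem_Ico]
      omega
    rw [h3, Nat.card_Ico]
    omega
  have h4 := sum_stair' b b
  have h5 : NN (b - b) = 0 := by simp [NN]
  rw [h5, Nat.add_zero] at h4
  rw [← h4, ← Finset.sum_congr rfl h1, Finset.sum_add_distrib, h2]

theorem card_be {b j : ℕ} (hj : 2 * j ≤ b) : (cD (be b j)).card + (b - 2 * j) = NN b := by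
  rw [card_cD, ← sum_bf hj]
  rfl

/-- the shape is a minor of the next staircase -/
theorem CC_be {b j : ℕ} (hj : 1 ≤ j) (hj2 : 2 * j < b) {S : Multiset ℕ} (h : CC (be b j) S) :
    CC (st (b + 1)) S := by
  have hmem : b - j + 1 ∈ st (b + 1) := mem_st.2 (by omega)
  refine CC_le (Multiset.erase_le (b - j + 1) (st (b + 1))) ?_
  set C := (st (b + 1)).erase (b - j + 1) with hC
  have hrf : ∀ r, rf C r = (b + 1 - r) - (if r < b - j + 1 then 1 else 0) := by
    intro r
    have h1 : rf (st (b + 1)) r = (if r < b - j + 1 then 1 else 0) + rf C r := by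
      rw [← rf_cons, hC, Multiset.cons_erase hmem]
    rw [rf_st] at h1
    omega
  have h2 : CC ((b - j) ::ₘ be b j) S := by
    rw [← Multiset.singleton_add, add_comm]
    exact CC_mono _ h
  refine (CC_tr ?_).1 h2
  refine YoungDiagram.ext ?_
  ext c
  rw [YoungDiagram.mem_cells, YoungDiagram.mem_cells, YoungDiagram.mem_transpose]
  have h3 : c.swap ∈ cD C ↔ c.1 < rf C c.2 := by
    rw [← rowLen_cD]
    exact YoungDiagram.mem_iff_lt_rowLen
  have h4 : c ∈ cD ((b - j) ::ₘ be b j) ↔ c.2 < rf ((b - j) ::ₘ be b j) c.1 := by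
    rw [← rowLen_cD]
    exact YoungDiagram.mem_iff_lt_rowLen
  rw [h3, h4, hrf, rf_cons, rf_be]
  unfold bf
  split_ifs <;> omega

/-- the merging of the two equal rows -/
def bg (b j a : ℕ) : ℕ := if a = b - j then b - j - 1 else a

theorem bg_bf {b j : ℕ} (hj : 1 ≤ j) (hj2 : 2 * j < b) (r s : ℕ) (h : bf b j r = bf b j s)
    (h0 : bf b j r ≠ 0) : bg b j r = bg b j s := by
  unfold bf at h h0
  unfold bg
  split_ifs at * <;> omega

theorem mg_le {b j : ℕ} (hj : 1 ≤ j) (hj2 : 2 * j < b) (a : ℕ) :
    mg b (bg b j) (bf b j) a ≤ if a = b - j - 1 then b else b - a := by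
  unfold mg
  by_cases h : a = b - j - 1
  · rw [if_pos h]
    have h1 : (range b).filter (fun x => bg b j x = a) ⊆ {b - j - 1, b - j} := by
      intro x hx
      obtain ⟨h2, h3⟩ := Finset.mem_filter.1 hx
      rw [Finset.mem_insert, Finset.mem_singleton]
      unfold bg at h3
      split_ifs at h3 <;> omega
    refine (Finset.sum_le_sum_of_subset h1).trans ?_
    rw [Finset.sum_insert (by rw [Finset.mem_singleton]; omega), Finset.sum_singleton]
    unfold bf
    split_ifs <;> omega
  · rw [if_neg h]
    have h1 : (range b).filter (fun x => bg b j x = a) ⊆ {a} := by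
      intro x hx
      obtain ⟨h2, h3⟩ := Finset.mem_filter.1 hx
      rw [Finset.mem_singleton]
      unfold bg at h3
      split_ifs at h3 <;> omega
    refine (Finset.sum_le_sum_of_subset h1).trans ?_
    rw [Finset.sum_singleton]
    unfold bf
    omega

theorem NN_pred {k : ℕ} (hk : 1 ≤ k) : NN k = NN (k - 1) + k := by
  rw [show k = (k - 1) + 1 by omega, NN_succ, Nat.add_sub_cancel]

/-- TALL GROUPS -/
theorem CC_tall {b : ℕ} (hb : 4 ≤ b) {L : List ℕ} (hL : L.Pairwise (· ≥ ·))
    (hpos : ∀ s ∈ L, 1 ≤ s) (h0 : NN (b - 1) < L.sum) (h1 : L.sum ≤ NN b)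
    (h2 : ∀ x, 1 ≤ x → x ≤ L.length → x * b ≤ (L.take x).sum + NN (x - 2)) :
    CC (st (b + 1)) (L : Multiset ℕ) := by
  classical
  have hm : L.length ≤ b - 2 := by
    by_contra hcon
    have h3 := h2 (b - 1) (by omega) (by omega)
    have h4 : (L.take (b - 1)).sum ≤ L.sum := by
      conv_rhs => rw [← List.take_append_drop (b - 1) L]
      rw [List.sum_append]
      omega
    have h5 := NN_two b
    have h6 := NN_two (b - 1 - 2)
    obtain ⟨d, rfl⟩ : ∃ d, b = d + 4 := ⟨b - 4, by omega⟩
    rw [show d + 4 - 1 - 2 = d + 1 by omega] at h3 h6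
    rw [show d + 4 - 1 = d + 3 by omega] at h3 h4
    nlinarith
  have hNb := NN_pred (show 1 ≤ b by omega)
  rcases le_or_gt (L.length + (NN b - L.sum)) b with hgood | hbad
  · refine CC_le (st_le (Nat.le_succ b)) (CC_tall_good hL hpos h1 hgood ?_)
    intro x hx
    rcases Nat.eq_zero_or_pos x with h | h
    · subst h
      simp
    · have h3 := h2 x h hx
      have h4 : NN (x - 2) ≤ NN (x - 1) := NN_mono (by omega)
      omega
  · obtain ⟨r, hr⟩ : ∃ r, L.sum = NN (b - 1) + r := ⟨L.sum - NN (b - 1), by omega⟩
    set j := (r + 1) / 2 with hj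
    have hj1 : 1 ≤ j := by omega
    have hj2 : 2 * j < b := by omega
    refine CC_be hj1 hj2 ?_
    have hcd := card_be (b := b) (j := j) (by omega)
    refine tall_core _ (be_Ytr b j) hL hpos (2 * j - r) (by omega) ?_
    intro nu hnu
    have hrow : ∀ i, (cD (be b j)).rowLen i = bf b j i := fun i => by rw [rowLen_cD, rf_be]
    have hrowf : (cD (be b j)).rowLen = bf b j := funext hrow
    refine Sq_of_Fx_mg _ nu b (bg b j) ?_ ?_ ?_
    · show (cD (be b j)).rowLen b = 0
      rw [hrow]
      unfold bf
      omega
    · intro r s hrs hne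
      have h3 : (cD (be b j)).rowLen r = (cD (be b j)).rowLen s := hrs
      have h4 : (cD (be b j)).rowLen r ≠ 0 := hne
      rw [hrow, hrow] at h3
      rw [hrow] at h4
      exact bg_bf hj1 hj2 r s h3 h4
    · show Fx (mg b (bg b j) (cD (be b j)).rowLen) nu
      rw [hrowf]
      have hmaps : ∀ i ∈ range b, bg b j i ∈ range b := by
        intro i hi
        rw [Finset.mem_range] at hi ⊢
        unfold bg
        split_ifs <;> omega
      have htot : ∑ a ∈ range b, mg b (bg b j) (bf b j) a = (cD (be b j)).card := by
        unfold mg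
        rw [Finset.sum_fiberwise_of_maps_to hmaps, card_cD]
        rfl
      refine Fx_content nu b _ ?_ htot ?_
      · intro a ha
        unfold mg
        rw [Finset.filter_eq_empty_iff.2, Finset.sum_empty]
        intro i hi h3
        have h4 := hmaps i hi
        rw [h3, Finset.mem_range] at h4
        omega
      · intro R hR
        rw [hnu]
        have hRb : R.card ≤ b := by
          have := Finset.card_le_card hR
          rwa [Finset.card_range] at this
        rcases Nat.lt_or_ge L.length R.card with hx | hx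
        · have h3 : ∑ a ∈ R, mg b (bg b j) (bf b j) a ≤ (cD (be b j)).card := by
            rw [← htot]
            exact Finset.sum_le_sum_of_subset hR
          rw [List.take_of_length_le (by omega)]
          omega
        · rcases Nat.eq_zero_or_pos R.card with h0' | hpos'
          · rw [Finset.card_eq_zero.1 h0', Finset.sum_empty]
            exact Nat.zero_le _
          · have h3 := h2 R.card hpos' hx
            have hanti : Antitone (fun a : ℕ => b - a) := fun x y hxy => by
              simp only
              omega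
            refine (?_ : ∑ a ∈ R, mg b (bg b j) (bf b j) a ≤ (L.take R.card).sum).trans
              (Nat.le_add_right _ _)
            have h4 : ∑ a ∈ R, mg b (bg b j) (bf b j) a ≤
                ∑ a ∈ R, (if a = b - j - 1 then b else b - a) :=
              Finset.sum_le_sum fun a _ => mg_le hj1 hj2 a
            refine h4.trans ?_
            by_cases hi : b - j - 1 ∈ R
            · rw [← Finset.insert_erase hi, Finset.sum_insert (Finset.notMem_erase _ _),
                if_pos rfl, Finset.insert_erase hi]
              have h5 : ∑ a ∈ R.erase (b - j - 1), (if a = b - j - 1 then b else b - a) =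
                  ∑ a ∈ R.erase (b - j - 1), (b - a) :=
                Finset.sum_congr rfl fun a ha => if_neg (Finset.ne_of_mem_erase ha)
              have h6 := sum_le_range hanti (R.erase (b - j - 1))
              rw [Finset.card_erase_of_mem hi] at h6
              simp only at h6
              have h7 := sum_stair (b := b) (k := R.card - 1) (by omega)
              have h8 : R.card * b = (R.card - 1) * b + b := by
                conv_lhs => rw [show R.card = (R.card - 1) + 1 by omega]
                ring
              rw [show R.card - 1 - 1 = R.card - 2 by omega] at h7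
              omega
            · have h5 : ∑ a ∈ R, (if a = b - j - 1 then b else b - a) = ∑ a ∈ R, (b - a) :=
                Finset.sum_congr rfl fun a ha => if_neg fun (h : a = b - j - 1) => hi (h ▸ ha)
              have h6 := sum_le_range hanti R
              simp only at h6
              have h7 := sum_stair (b := b) (k := R.card) hRb
              have h8 : NN (R.card - 2) ≤ NN (R.card - 1) := NN_mono (by omega)
              omega

end Pool.MP322
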