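import Pool.Agent.Lib.MP_322c5f_al.SG15

/-! (C), part 6: short items; the packing theorem. -/

set_option autoImplicit false

open Equiv Finset Nat

namespace Pool.MP322

theorem sum_filter_lt (M : Multiset ℕ) (k : ℕ) :
    (M.map (fun s => s - k)).sum + rf M k * k = (M.filter (fun s => k < s)).sum := by
  induction M using Multiset.induction_on with
  | empty => simp [rf_zero]
  | cons a M ih =>
    rw [Multiset.map_cons, Multiset.sum_cons, rf_cons]
    by_cases h : k < a
    · rw [Multiset.filter_cons_of_pos _ h, Multiset.sum_cons, if_pos h, ← ih]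
      have : (1 + rf M k) * k = k + rf M k * k := by ring
      omega
    · rw [Multiset.filter_cons_of_neg _ h, if_neg h, Nat.zero_add, ← ih]
      omega

theorem sum_le_card_mul {M : Multiset ℕ} {t : ℕ} (h : ∀ s ∈ M, s ≤ t) : M.sum ≤ M.card * t := by
  induction M using Multiset.induction_on with
  | empty => simp
  | cons a M ih =>
    rw [Multiset.sum_cons, Multiset.card_cons]
    have h1 := ih fun s hs => h s (Multiset.mem_cons_of_mem hs)
    have h2 := h a (Multiset.mem_cons_self a M)
    have : (M.card + 1) * t = M.card * t + t := by ring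
    omega

/-- R1 in the form of partial sums -/
theorem CC_short {C : Multiset ℕ} (hC : C.Nodup) {t κ : ℕ}
    (hP : ∀ i ≤ κ, min (i * t) (κ + i) ≤ ∑ r ∈ range i, rf C r) {U : Multiset ℕ}
    (hU : ∀ u ∈ U, 2 ≤ u ∧ u ≤ t) (hk : (U.map (fun s => s - 1)).sum ≤ κ) : CC C U := by
  refine CC_dom hC fun k => ?_
  set V := U.filter (fun s => k < s) with hV
  have hVU : V ≤ U := Multiset.filter_le _ _
  have h1 := sum_filter_lt U k
  rw [← hV] at h1
  have hcard : V.card = rf U k := rfl
  have h2 : V.sum ≤ V.card * t := sum_le_card_mul fun s hs => (hU s (Multiset.mem_of_le hVU hs)).2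
  have h3 := map_sub_one (M := V) fun s hs => by
    have := (hU s (Multiset.mem_of_le hVU hs)).1
    omega
  have h4 := map_sum_le hVU (fun s => s - 1)
  have h5 : V.card ≤ (V.map (fun s => s - 1)).sum := by
    have : V.card ≤ (V.map (fun _ => 1)).sum := by
      rw [Multiset.map_const', Multiset.sum_replicate, smul_eq_mul, mul_one]
    refine this.trans ?_
    refine Multiset.sum_map_le_sum_map _ _ fun s hs => ?_
    have := (hU s (Multiset.mem_of_le hVU hs)).1
    omega
  have h6 := hP V.card (by omega)
  have h7 : V.sum ≤ ∑ r ∈ range V.card, rf C r := le_trans (le_min h2 (by omega)) h6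
  have h8 : ∑ r ∈ range V.card, rf C r ≤ ∑ r ∈ range V.card, (rf C r - k) + V.card * k := by
    have : V.card * k = ∑ _r ∈ range V.card, k := by
      rw [Finset.sum_const, Finset.card_range, smul_eq_mul]
    rw [this, ← Finset.sum_add_distrib]
    exact Finset.sum_le_sum fun r _ => by omega
  have h9 : ∑ r ∈ range V.card, (rf C r - k) ≤ ∑ r ∈ range C.sum, (rf C r - k) := by
    have h10 : ∀ r, C.sum ≤ r → rf C r - k = 0 := by
      intro r hr
      have := rf_anti C hr
      rw [rf_sum] at this
      omega
    rcases le_total V.card C.sum with h | h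
    · exact Finset.sum_le_sum_of_subset (Finset.range_subset_range.2 h)
    · refine le_of_eq (Finset.sum_subset (Finset.range_subset_range.2 h) fun r _ hr => ?_).symm
      refine h10 r ?_
      rw [Finset.mem_range] at hr
      omega
  rw [hcard] at h7 h8 h9
  omega

/-- heights `G + 1, …, c` -/
def seg (G c : ℕ) : Multiset ℕ := (Multiset.range (c - G)).map (fun i => i + (G + 1))

theorem seg_nodup (G c : ℕ) : (seg G c).Nodup :=
  Multiset.Nodup.map (fun a b h => by simpa using h) (Multiset.nodup_range _)

theorem st_add_seg {G c : ℕ} (h : G ≤ c) : st G + seg G c = st c := by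
  obtain ⟨d, rfl⟩ := Nat.exists_eq_add_of_le h
  unfold seg
  rw [Nat.add_sub_cancel_left]
  induction d with
  | zero => simp
  | succ d ih =>
    rw [Multiset.range_succ, Multiset.map_cons, Multiset.add_cons, ih (by omega)]
    rw [show G + (d + 1) = (G + d) + 1 by omega, st_succ]
    congr 1
    omega

theorem rf_seg {G c : ℕ} (h : G ≤ c) (r : ℕ) : rf (seg G c) r + (G - r) = c - r := by
  have h1 := rf_add (st G) (seg G c) r
  rw [st_add_seg h, rf_st, rf_st] at h1
  omega

theorem CC_box {c G κ : ℕ} (hG : G + 2 ≤ c) (h1 : κ + 1 ≤ (G + 2) * (c - G - 1))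
    (h2 : 2 * κ + NN G ≤ NN c) {U : Multiset ℕ} (hU : ∀ u ∈ U, 2 ≤ u ∧ u ≤ c - G)
    (hk : (U.map (fun s => s - 1)).sum ≤ κ) : CC (seg G c) U := by
  refine CC_short (seg_nodup G c) (t := c - G) (κ := κ) ?_ hU hk
  have hrf : ∀ r, rf (seg G c) r + (G - r) = c - r := fun r => rf_seg (by omega) r
  have hle : ∀ i ≤ G + 1, ∑ r ∈ range i, rf (seg G c) r = i * (c - G) := by
    intro i hi
    have h3 : ∀ r ∈ range i, rf (seg G c) r = c - G := by
      intro r hr
      rw [Finset.mem_range] at hr
      have := hrf r
      omega
    rw [Finset.sum_congr rfl h3, Finset.sum_const, Finset.card_range, smul_eq_mul]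
  have hge : ∀ d, G + 2 + d ≤ c → κ + (G + 2 + d) ≤ ∑ r ∈ range (G + 2 + d), rf (seg G c) r := by
    intro d
    induction d with
    | zero =>
      intro _
      rw [Nat.add_zero, Finset.sum_range_succ, hle (G + 1) le_rfl]
      have h3 := hrf (G + 1)
      obtain ⟨e, rfl⟩ : ∃ e, c = G + 2 + e := Nat.exists_eq_add_of_le hG
      rw [show G + 2 + e - G - 1 = e + 1 by omega] at h1
      rw [show G + 2 + e - G = e + 2 by omega]
      have h4 : rf (seg G (G + 2 + e)) (G + 1) = e + 1 := by omega
      rw [h4]
      nlinarith
    | succ d ih =>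
      intro hd
      have h3 := ih (by omega)
      have h4 := hrf (G + 2 + d)
      rw [show G + 2 + (d + 1) = G + 2 + d + 1 by omega, Finset.sum_range_succ]
      omega
  intro i hi
  rcases Nat.lt_or_ge i (G + 2) with h3 | h3
  · rw [hle i (by omega)]
    exact min_le_left _ _
  · refine (min_le_right _ _).trans ?_
    rcases le_total i c with h4 | h4
    · obtain ⟨d, rfl⟩ := Nat.exists_eq_add_of_le h3
      exact hge d h4
    · have h5 : ∑ r ∈ range c, rf (seg G c) r ≤ ∑ r ∈ range i, rf (seg G c) r :=
        Finset.sum_le_sum_of_subset (Finset.range_subset_range.2 h4)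
      have h6 : ∑ r ∈ range c, rf (seg G c) r + ∑ r ∈ range c, (G - r) = ∑ r ∈ range c, (c - r) := by
        rw [← Finset.sum_add_distrib]
        exact Finset.sum_congr rfl fun r _ => hrf r
      have h7 := sum_stair' c c
      have h8 := sum_stair' G c
      have h9 : NN (c - c) = 0 := by simp [NN]
      omega

/-- the least staircase of area at least `F` -/
noncomputable def bof (F : ℕ) : ℕ := Nat.find (⟨F, self_NN F⟩ : ∃ b, F ≤ NN b)

theorem bof_spec (F : ℕ) : F ≤ NN (bof F) := Nat.find_spec (⟨F, self_NN F⟩ : ∃ b, F ≤ NN b)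

theorem bof_le {F b : ℕ} (h : F ≤ NN b) : bof F ≤ b :=
  Nat.find_min' (⟨F, self_NN F⟩ : ∃ b, F ≤ NN b) h

theorem bof_lt {F b : ℕ} (h : b < bof F) : NN b < F := by
  by_contra hcon
  have := bof_le (not_lt.1 hcon)
  omega

theorem bof_mono {F F' : ℕ} (h : F ≤ F') : bof F ≤ bof F' := bof_le (h.trans (bof_spec F'))

/-- conditions on one value of `b` -/
structure Adm (c K g b : ℕ) : Prop where
  h1 : g + b ≤ c
  h2 : max g (b + 1) + 2 ≤ c
  h3 : K + b ≤ NN (b - 1) + 2 + (max g (b + 1) + 2) * (c - max g (b + 1) - 1)
  h4 : 2 * (K + b) + NN (max g (b + 1)) ≤ 2 * NN (b - 1) + 6 + NN c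
  h5 : ∀ x, 1 ≤ x → x ≤ b - 2 → x * b ≤ NN (c - b + x - 1) + NN (x - 2)

/-- the sorted list: prefix sums and thresholds -/
theorem pack_tall {c g b : ℕ} (hgb : g + b ≤ c)
    (hq : ∀ x, 1 ≤ x → x ≤ b - 2 → x * b ≤ NN (c - b + x - 1) + NN (x - 2))
    {L : List ℕ} {m : ℕ}
    (hm0 : 0 < m → c - g < (L.take 1).sum)
    (hm : ∀ i, 1 ≤ i → i < m →
      (L.take i).sum + (c - max g (bof (L.take i).sum + 1)) < (L.take (i + 1)).sum)
    (hb : (L.take m).sum ≤ NN b) (hmb : m ≤ b - 1) :
    ∀ x, 1 ≤ x → x ≤ m → x * b ≤ (L.take x).sum + NN (x - 2) := by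
  have hmono : ∀ i j, i ≤ j → (L.take i).sum ≤ (L.take j).sum := by
    intro i j hij
    have h1 : L.take i = (L.take j).take i := by rw [List.take_take, min_eq_left hij]
    rw [h1]
    conv_rhs => rw [← List.take_append_drop i (L.take j)]
    rw [List.sum_append]
    omega
  intro x
  induction x with
  | zero => intro h; omega
  | succ x ih =>
    intro _ hxm
    rcases Nat.eq_zero_or_pos x with h0 | h0
    · subst h0
      have h1 := hm0 (by omega)
      rw [Nat.zero_add]
      omega
    · have h1 := ih h0 (by omega)
      have h2 := hq x h0 (by omega)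
      have h3 := hm x h0 (by omega)
      have h4 := hmono (x + 1) m hxm
      set F := (L.take x).sum with hF
      set h := bof F with hh
      have h5 : h ≤ b := bof_le (by omega)
      have h6 : NN (x + 1 - 2) = NN (x - 2) + (x - 1) := by
        rcases Nat.lt_or_ge x 2 with h7 | h7
        · have : x = 1 := by omega
          subst this
          rfl
        · rw [show x + 1 - 2 = x - 1 by omega, NN_pred (show 1 ≤ x - 1 by omega),
            show x - 1 - 1 = x - 2 by omega]
      have h7 : (x + 1) * b = x * b + b := by ring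
      -- the main estimate
      have key : F + (c - max g (h + 1)) + 1 + (x - 1) + NN (x - 2) ≥ x * b + b := by
        rcases Nat.lt_or_ge h (c - b + x) with h8 | h8
        · have h9 : max g (h + 1) ≤ c - b + x := by
            rw [max_le_iff]
            omega
          omega
        · have h9 : max g (h + 1) = h + 1 := max_eq_right (by omega)
          rw [h9]
          have h10 : NN (h - 1) < F := bof_lt (show h - 1 < bof F by omega)
          -- growth of triangular numbers
          have h11 : NN (c - b + x - 1) + (h - (c - b + x)) ≤ NN (h - 1) := by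
            obtain ⟨d, hd⟩ := Nat.exists_eq_add_of_le h8
            have h12 : ∀ d, NN (c - b + x - 1) + d ≤ NN (c - b + x - 1 + d) := by
              intro d
              induction d with
              | zero => exact le_rfl
              | succ d ihd =>
                rw [show c - b + x - 1 + (d + 1) = (c - b + x - 1 + d) + 1 by omega, NN_succ]
                omega
            have h13 := h12 d
            rw [show c - b + x - 1 + d = h - 1 by omega] at h13
            omega
          omega
      rw [h6, h7]
      omega

/-- THE PACKING THEOREM -/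
theorem pack {c K g : ℕ} (hg : g + 6 ≤ c) (hg0 : K + 1 ≤ (g + 2) * (c - g - 1))
    (hg1 : 2 * K + NN g ≤ NN c)
    (hb : ∀ b, 4 ≤ b → NN (b - 1) + 3 ≤ K + b → Adm c K g b) : KC c K := by
  classical
  intro S hS2 hSK
  obtain ⟨L, hL, hLS⟩ : ∃ L : List ℕ, L.Pairwise (· ≥ ·) ∧ (L : Multiset ℕ) = S :=
    ⟨S.sort (· ≥ ·), Multiset.pairwise_sort _ _, Multiset.sort_eq _ _⟩
  have hL2 : ∀ s ∈ L, 2 ≤ s := fun s hs => hS2 s (by rw [← hLS]; exact Multiset.mem_coe.2 hs)
  set F : ℕ → ℕ := fun i => (L.take i).sum with hF
  set G : ℕ → ℕ := fun i => if i = 0 then g else max g (bof (F i) + 1) with hG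
  -- the stopping index
  have hex : ∃ i, ∀ u ∈ L.drop i, u ≤ c - G i := ⟨L.length, by simp⟩
  set m := Nat.find hex with hm
  have hstop : ∀ u ∈ L.drop m, u ≤ c - G m := Nat.find_spec hex
  have hmlen : m ≤ L.length := Nat.find_min' hex (by simp)
  have hgrow : ∀ i, i < m → F i + (c - G i) < F (i + 1) := by
    intro i hi
    have h1 := Nat.find_min hex hi
    push Not at h1
    obtain ⟨u, hu, hcu⟩ := h1
    have hil : i < L.length := by omega
    have h2 : F (i + 1) = F i + L[i] := by
      rw [hF]
      simp only
      rw [List.take_succ_eq_append_getElem hil, List.sum_append, List.sum_singleton]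
    have h3 : u ≤ L[i] := by
      have h4 : L.drop i = L[i] :: L.drop (i + 1) := List.drop_eq_getElem_cons hil
      rw [h4] at hu
      rcases List.mem_cons.1 hu with h5 | h5
      · rw [h5]
      · have h6 : (L.drop i).Pairwise (· ≥ ·) := hL.sublist (List.drop_sublist i L)
        rw [h4] at h6
        exact (List.pairwise_cons.1 h6).1 u h5
    omega
  have hmono : ∀ i j, i ≤ j → F i ≤ F j := by
    intro i j hij
    rw [hF]
    simp only
    have h1 : L.take i = (L.take j).take i := by rw [List.take_take, min_eq_left hij]
    rw [h1]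
    conv_rhs => rw [← List.take_append_drop i (L.take j)]
    rw [List.sum_append]
    omega
  -- depth of a prefix
  have hdepth' : ∀ i ≤ L.length, F i +
      (((L.drop i : List ℕ) : Multiset ℕ).map (fun s => s - 1)).sum ≤ K + i := by
    intro i hi
    have h1 : ((L : Multiset ℕ).map (fun s => s - 1)).sum ≤ K := by rw [hLS]; exact hSK
    have h2 : (L : Multiset ℕ) = ((L.take i : List ℕ) : Multiset ℕ) +
        ((L.drop i : List ℕ) : Multiset ℕ) := by
      rw [Multiset.coe_add, List.take_append_drop]
    rw [h2, Multiset.map_add, Multiset.sum_add] at h1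
    have h3 := map_sub_one (M := ((L.take i : List ℕ) : Multiset ℕ)) fun s hs => by
      have := hL2 s (List.mem_of_mem_take (Multiset.mem_coe.1 hs))
      omega
    rw [Multiset.sum_coe, Multiset.coe_card, List.length_take, min_eq_left hi] at h3
    have h4 : F i = (L.take i).sum := rfl
    omega
  -- the invariants
  have hinv : ∀ i, 1 ≤ i → i ≤ m → 4 ≤ bof (F i) ∧ i ≤ bof (F i) - 2 := by
    intro i
    induction i with
    | zero => intro h; omega
    | succ i ih =>
      intro _ him
      rcases Nat.eq_zero_or_pos i with h0 | h0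
      · subst h0
        have h1 := hgrow 0 (by omega)
        have h2 : G 0 = g := if_pos rfl
        have h3 : F 0 = 0 := by simp [hF]
        rw [h2, h3, Nat.zero_add] at h1
        have h4 : 4 ≤ bof (F (0 + 1)) := by
          by_contra hcon
          have h5 := bof_spec (F (0 + 1))
          have h6 : NN (bof (F (0 + 1))) ≤ NN 3 := NN_mono (by omega)
          have h7 : NN 3 = 6 := rfl
          omega
        exact ⟨h4, by omega⟩
      · obtain ⟨h1, h2⟩ := ih h0 (by omega)
        have h3 := bof_mono (hmono i (i + 1) (Nat.le_succ i))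
        refine ⟨by omega, ?_⟩
        rcases Nat.lt_or_ge (bof (F i)) (bof (F (i + 1))) with h4 | h4
        · omega
        · have h5 : bof (F (i + 1)) = bof (F i) := le_antisymm h4 h3
          by_contra hcon
          have hi1 : i + 1 = bof (F (i + 1)) - 1 := by omega
          set b := bof (F (i + 1)) with hb'
          have h6 : NN (b - 1) < F i := bof_lt (by omega)
          have h7 := hdepth' i (by omega)
          have hadm := hb b (by omega) (by omega)
          have h8 := pack_tall (c := c) (g := g) (b := b) (L := L) (m := i + 1) hadm.h1 hadm.h5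
            (fun _ => by
              have h9 := hgrow 0 (by omega)
              have h10 : G 0 = g := if_pos rfl
              have h11 : F 0 = 0 := by simp [hF]
              rw [h10, h11, Nat.zero_add] at h9
              exact h9)
            (fun k hk1 hk2 => by
              have h9 := hgrow k (by omega)
              have h10 : G k = max g (bof (F k) + 1) := if_neg (by omega)
              rw [h10] at h9
              exact h9)
            (bof_spec (F (i + 1))) (by omega) (i + 1) (by omega) le_rfl
          have h9 := bof_spec (F (i + 1))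
          have h10 : (i + 1) * b ≤ F (i + 1) + NN (i + 1 - 2) := h8
          rw [← hb'] at h9
          have h11 := NN_two b
          obtain ⟨d, hd⟩ : ∃ d, b = d + 4 := ⟨b - 4, by omega⟩
          have hi2 : i + 1 = d + 3 := by omega
          rw [hi2, hd] at h10
          rw [hi2, hd] at h9
          rw [hd] at h11
          have h12 := NN_two (d + 1)
          rw [show d + 3 - 2 = d + 1 by omega] at h10
          nlinarith
  have hLsplit : S = ((L.take m : List ℕ) : Multiset ℕ) + ((L.drop m : List ℕ) : Multiset ℕ) := by
    rw [Multiset.coe_add, List.take_append_drop, hLS]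
  have hdr2 : ∀ u ∈ ((L.drop m : List ℕ) : Multiset ℕ), 2 ≤ u ∧ u ≤ c - G m := by
    intro u hu
    rw [Multiset.mem_coe] at hu
    exact ⟨hL2 u (List.mem_of_mem_drop hu), hstop u hu⟩
  have hdm := hdepth' m hmlen
  rcases Nat.eq_zero_or_pos m with h0 | h0
  · have h1 : G m = g := if_pos h0
    have h2 : F m = 0 := by rw [h0]; simp [hF]
    rw [h1] at hdr2
    have h3 := CC_box (c := c) (G := g) (κ := K) (by omega) hg0 hg1 hdr2 (by omega)
    have h4 := CC_add (CC_zero (st g)) h3
    rw [st_add_seg (by omega), zero_add] at h4
    have h5 : S = ((L.drop m : List ℕ) : Multiset ℕ) := by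
      rw [h0, List.drop_zero, hLS]
    rw [h5]
    exact h4
  · obtain ⟨hb4, hmb⟩ := hinv m h0 le_rfl
    set b := bof (F m) with hbdef
    have h6 : NN (b - 1) < F m := bof_lt (by omega)
    have hadm := hb b hb4 (by omega)
    have htall := pack_tall (c := c) (g := g) (b := b) (L := L) (m := m) hadm.h1 hadm.h5
      (fun _ => by
        have h9 := hgrow 0 (by omega)
        have h10 : G 0 = g := if_pos rfl
        have h11 : F 0 = 0 := by simp [hF]
        rw [h10, h11, Nat.zero_add] at h9
        exact h9)
      (fun k hk1 hk2 => by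
        have h9 := hgrow k (by omega)
        have h10 : G k = max g (bof (F k) + 1) := if_neg (by omega)
        rw [h10] at h9
        exact h9)
      (bof_spec (F m)) (by omega)
    have hT : CC (st (b + 1)) ((L.take m : List ℕ) : Multiset ℕ) := by
      refine CC_tall hb4 (hL.sublist (List.take_sublist m L)) ?_ h6 (bof_spec (F m)) ?_
      · intro s hs
        have := hL2 s (List.mem_of_mem_take hs)
        omega
      · intro x hx1 hx2
        rw [List.length_take, min_eq_left hmlen] at hx2
        have h7 := htall x hx1 hx2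
        rwa [List.take_take, min_eq_left hx2]
    have hGm : G m = max g (b + 1) := if_neg (by omega)
    rw [hGm] at hdr2
    have hU := CC_box (c := c) (G := max g (b + 1))
      (κ := (((L.drop m : List ℕ) : Multiset ℕ).map (fun s => s - 1)).sum) hadm.h2
      (by have := hadm.h3; omega) (by have := hadm.h4; omega) hdr2 le_rfl
    have h7 := CC_add (CC_le (st_le (le_max_right g (b + 1))) hT) hU
    rw [st_add_seg (by have := hadm.h2; omega), ← hLsplit] at h7
    exact h7

end Pool.MP322
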