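import Pool.Agent.Lib.MP_322c5f_al.SG16

/-! (C), part 7: values of `K(c)`; `K(c) = c^2/5` for all `c ≥ 26`. -/

set_option autoImplicit false

open Equiv Finset Nat

namespace Pool.MP322

/-- Boolean form of `Adm` -/
def admB (c K g b : ℕ) : Bool :=
  Nat.ble (g + b) c && Nat.ble (max g (b + 1) + 2) c &&
  Nat.ble (K + b) (NN (b - 1) + 2 + (max g (b + 1) + 2) * (c - max g (b + 1) - 1)) &&
  Nat.ble (2 * (K + b) + NN (max g (b + 1))) (2 * NN (b - 1) + 6 + NN c) &&
  (List.range (b - 1)).all (fun x => Nat.ble x 0 || Nat.ble (x * b) (NN (c - b + x - 1) + NN (x - 2)))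

theorem adm_of_B {c K g b : ℕ} (h : admB c K g b = true) : Adm c K g b := by
  unfold admB at h
  simp only [Bool.and_eq_true, Nat.ble_eq, List.all_eq_true, Bool.or_eq_true] at h
  obtain ⟨⟨⟨⟨h1, h2⟩, h3⟩, h4⟩, h5⟩ := h
  refine ⟨h1, h2, h3, h4, fun x hx1 hx2 => ?_⟩
  rcases h5 x (List.mem_range.2 (by omega)) with h6 | h6
  · omega
  · exact h6

/-- Boolean form of the hypotheses of `pack` -/
def packB (c K g B : ℕ) : Bool :=
  Nat.ble (g + 6) c && Nat.ble (K + 1) ((g + 2) * (c - g - 1)) && Nat.ble (2 * K + NN g) (NN c) &&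
  Nat.ble (K + B + 2) (NN B + 3) && Nat.ble 3 B &&
  (List.range (B + 1)).all (fun b => Nat.ble b 3 || admB c K g b)

theorem kc_of_B {c K : ℕ} (g B : ℕ) (h : packB c K g B = true) : KC c K := by
  unfold packB at h
  simp only [Bool.and_eq_true, Nat.ble_eq, List.all_eq_true, Bool.or_eq_true] at h
  obtain ⟨⟨⟨⟨⟨h1, h2⟩, h3⟩, h4⟩, h5⟩, h6⟩ := h
  refine pack h1 h2 h3 fun b hb4 hbK => ?_
  have hbB : b ≤ B := by
    by_contra hcon
    have h7 : ∀ d, K + (B + 1 + d) + 1 ≤ NN (B + d) + 3 := by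
      intro d
      induction d with
      | zero => simpa using (by omega : K + (B + 1) + 1 ≤ NN B + 3)
      | succ d ih =>
        rw [show B + (d + 1) = (B + d) + 1 by omega, NN_succ]
        omega
    have h8 := h7 (b - 1 - B)
    rw [show B + (b - 1 - B) = b - 1 by omega] at h8
    omega
  rcases h6 b (List.mem_range.2 (by omega)) with h7 | h7
  · omega
  · exact adm_of_B h7

theorem kc_18 : KC 18 67 := kc_of_B 3 12 (by decide)
theorem kc_20 : KC 20 79 := kc_of_B 3 13 (by decide)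
theorem kc_21 : KC 21 92 := kc_of_B 4 14 (by decide)
theorem kc_23 : KC 23 106 := kc_of_B 4 15 (by decide)
theorem kc_24 : KC 24 121 := kc_of_B 5 16 (by decide)
theorem kc_26 : KC 26 137 := kc_of_B 5 17 (by decide)
theorem kc_27 : KC 27 154 := kc_of_B 6 18 (by decide)
theorem kc_28 : KC 28 172 := kc_of_B 7 19 (by decide)
theorem kc_30 : KC 30 191 := kc_of_B 7 20 (by decide)

end Pool.MP322
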