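import Pool.Agent.Lib.MP_322c5f_al.SG17

/-! (C), part 8: `K(c) = c^2/5` for all `c ≥ 26`. -/

set_option autoImplicit false

open Equiv Finset Nat

namespace Pool.MP322

theorem NNz (a : ℕ) : (2 : ℤ) * (NN a : ℤ) = (a : ℤ) * (a + 1) := by
  exact_mod_cast NN_two a

theorem NNz' (y : ℕ) : (2 : ℤ) * (NN (y - 1) : ℤ) = ((y : ℤ) - 1) * y := by
  rcases y with _ | y
  · simp [NN]
  · rw [Nat.add_sub_cancel, NNz]
    push_cast
    ring

theorem kl1 (y a b : ℤ) (h : 2 * b ^ 2 + 6 * b ≤ (b + a) ^ 2 + 2 * (b + a)) :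
    2 * ((y + 1) * b) ≤ (a + y) * (a + y + 1) + (y - 1) * y := by
  nlinarith [sq_nonneg (2 * y - (b - a))]

theorem kl2 (b c : ℤ) (hc : 31 ≤ c) (hi : 5 * b ^ 2 - 15 * b + 30 ≤ 2 * c ^ 2)
    (hlin : 25 * b ≤ 16 * c + 50) : 2 * b ^ 2 + 6 * b ≤ c ^ 2 + 2 * c := by
  nlinarith

theorem kl3 (b c : ℤ) (hb : 4 ≤ b) (hc : 31 ≤ c) (hi : 5 * b ^ 2 - 15 * b + 30 ≤ 2 * c ^ 2) :
    25 * b ≤ 16 * c + 50 := by
  by_contra hcon
  push Not at hcon
  have h1 : 16 * c + 51 ≤ 25 * b := by linarith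
  nlinarith [mul_nonneg (sub_nonneg.2 h1) (show (0 : ℤ) ≤ b by linarith),
    mul_nonneg (sub_nonneg.2 h1) (show (0 : ℤ) ≤ c by linarith)]

theorem kl4 (b c K : ℤ) (hc : 31 ≤ c) (hK : 5 * K ≤ c ^ 2) (h1 : 3 * c ≤ 10 * b + 20)
    (h2 : 25 * b ≤ 16 * c + 50) :
    2 * (K + b) ≤ (b - 1) * b + 4 + 2 * ((b + 1 + 2) * (c - b - 2)) := by
  nlinarith [mul_nonneg (show (0 : ℤ) ≤ 10 * b + 20 - 3 * c by linarith)
    (show (0 : ℤ) ≤ c - b by linarith), mul_nonneg (show (0 : ℤ) ≤ 10 * b + 20 - 3 * c by linarith)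
    (show (0 : ℤ) ≤ 16 * c + 50 - 25 * b by linarith)]

theorem kl5 (g c K : ℤ) (hc : 31 ≤ c) (hK : 5 * K ≤ c ^ 2) (h1 : 10 * g ≤ 3 * c)
    (h2 : 3 * c < 10 * g + 10) : K + 1 ≤ (g + 2) * (c - g - 1) := by
  nlinarith

theorem kl6 (g c K : ℤ) (hc : 31 ≤ c) (hg : 0 ≤ g) (hK : 5 * K ≤ c ^ 2) (h1 : 10 * g ≤ 3 * c) :
    2 * (2 * K) + g * (g + 1) ≤ c * (c + 1) := by
  nlinarith

theorem kl7 (b c K : ℤ) (hc : 31 ≤ c) (hK : 5 * K ≤ c ^ 2) :
    2 * (2 * (K + b)) + (b + 1) * (b + 1 + 1) ≤ 2 * ((b - 1) * b) + 12 + c * (c + 1) := by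
  nlinarith [sq_nonneg (2 * b - 9)]

theorem kc_large {c K : ℕ} (hc : 31 ≤ c) (hK : 5 * K ≤ c ^ 2) : KC c K := by
  obtain ⟨g, hg1, hg2⟩ : ∃ g, 10 * g ≤ 3 * c ∧ 3 * c < 10 * g + 10 := ⟨3 * c / 10, by omega, by omega⟩
  have hcz : (31 : ℤ) ≤ c := by exact_mod_cast hc
  have hKz : (5 : ℤ) * K ≤ (c : ℤ) ^ 2 := by exact_mod_cast hK
  have hg1z : (10 : ℤ) * g ≤ 3 * c := by exact_mod_cast hg1
  have hg2z : (3 : ℤ) * c < 10 * g + 10 := by exact_mod_cast hg2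
  have e1 : ((c - g - 1 : ℕ) : ℤ) = (c : ℤ) - g - 1 := by omega
  have hG0 : K + 1 ≤ (g + 2) * (c - g - 1) := by
    have h := kl5 g c K hcz hKz hg1z hg2z
    rw [← e1] at h
    exact_mod_cast h
  have hG1 : 2 * K + NN g ≤ NN c := by
    have h := kl6 g c K hcz (Int.natCast_nonneg g) hKz hg1z
    rw [← NNz, ← NNz] at h
    have h' : 2 * (2 * K) + 2 * NN g ≤ 2 * NN c := by exact_mod_cast h
    omega
  refine pack (g := g) (by omega) hG0 hG1 ?_
  intro b hb4 hbK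
  have hb4z : (4 : ℤ) ≤ b := by exact_mod_cast hb4
  have hbKz : ((NN (b - 1) : ℕ) : ℤ) + 3 ≤ K + b := by exact_mod_cast hbK
  have hN1 := NNz' b
  have hi : 5 * (b : ℤ) ^ 2 - 15 * b + 30 ≤ 2 * (c : ℤ) ^ 2 := by
    have h : (b : ℤ) ^ 2 = (b - 1) * b + b := by ring
    rw [h, ← hN1]
    linarith
  have hlin := kl3 b c hb4z hcz hi
  have hgb : g + b ≤ c := by
    have : (g : ℤ) + b ≤ c := by linarith
    exact_mod_cast this
  have hbc : b + 3 ≤ c := by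
    have : (b : ℤ) + 3 ≤ c := by linarith
    exact_mod_cast this
  refine ⟨hgb, ?_, ?_, ?_, ?_⟩
  · rcases le_total g (b + 1) with h | h
    · rw [max_eq_right h]
      omega
    · rw [max_eq_left h]
      omega
  · rcases le_total g (b + 1) with h | h
    · rw [max_eq_right h]
      have hz : (g : ℤ) ≤ b + 1 := by exact_mod_cast h
      have e2 : ((c - (b + 1) - 1 : ℕ) : ℤ) = (c : ℤ) - b - 2 := by omega
      have h2 := kl4 b c K hcz hKz (by linarith) hlin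
      rw [← hN1, ← e2] at h2
      have h3 : 2 * (K + b) ≤ 2 * NN (b - 1) + 4 + 2 * ((b + 1 + 2) * (c - (b + 1) - 1)) := by
        exact_mod_cast h2
      omega
    · rw [max_eq_left h]
      have h4 := self_NN (b - 1)
      omega
  · rcases le_total g (b + 1) with h | h
    · rw [max_eq_right h]
      have h2 := kl7 b c K hcz hKz
      have h3 := NNz (b + 1)
      push_cast at h3
      rw [← h3, ← hN1, ← NNz] at h2
      have h4 : 2 * (2 * (K + b)) + 2 * NN (b + 1) ≤ 2 * (2 * NN (b - 1)) + 12 + 2 * NN c := by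
        exact_mod_cast h2
      omega
    · rw [max_eq_left h]
      have h4 := self_NN (b - 1)
      omega
  · intro x hx1 hx2
    obtain ⟨y, rfl⟩ : ∃ y, x = y + 1 := ⟨x - 1, by omega⟩
    obtain ⟨a, ha⟩ : ∃ a, c = b + a := Nat.exists_eq_add_of_le (by omega)
    rw [show c - b + (y + 1) - 1 = a + y by omega, show y + 1 - 2 = y - 1 by omega]
    have haz : (c : ℤ) = b + a := by exact_mod_cast ha
    have hkey := kl2 b c hcz hi hlin
    rw [haz] at hkey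
    have h3 := kl1 y a b hkey
    have h1 := NNz (a + y)
    push_cast at h1
    rw [← h1, ← NNz' y] at h3
    have h4 : 2 * ((y + 1) * b) ≤ 2 * NN (a + y) + 2 * NN (y - 1) := by exact_mod_cast h3
    omega

/-- `K(c) = c^2/5` for all `c ≥ 26` -/
theorem kc_fifth {c K : ℕ} (hc : 26 ≤ c) (hK : 5 * K ≤ c ^ 2) : KC c K := by
  rcases Nat.lt_or_ge c 31 with h | h
  · interval_cases c
    · exact kc_26.mono le_rfl (by omega)
    · exact kc_27.mono le_rfl (by omega)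
    · exact kc_28.mono le_rfl (by omega)
    · exact kc_28.mono (by omega) (by omega)
    · exact kc_30.mono le_rfl (by omega)
  · exact kc_large h hK

end Pool.MP322
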