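import Pool.Agent.Lib.MP_322c5f_al.SG17

/-! (C), part 9: certificate trees for `KC c K`. -/

set_option autoImplicit false

open Equiv Finset Nat

namespace Pool.MP322

/-- R1 for a group -/
theorem CC_r1 {b : ℕ} {L : List ℕ} (h : ∀ x ≤ L.length, (L.take x).sum + NN (b - x) ≤ NN b)
    (hL : L.Pairwise (· ≥ ·)) : CC (st b) (L : Multiset ℕ) := by
  refine CC_dom (st_nodup b) fun k => ?_
  -- the items larger than `k` are a prefix
  have key : ∀ (L : List ℕ), L.Pairwise (· ≥ ·) → ∃ x ≤ L.length,
      (L.map (fun s => s - k)).sum + x * k = (L.take x).sum := by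
    intro L
    induction L with
    | nil => intro _; exact ⟨0, le_refl _, by simp⟩
    | cons a L ih =>
      intro hL
      by_cases ha : k ≤ a
      · obtain ⟨x, hx, hs⟩ := ih (List.pairwise_cons.1 hL).2
        refine ⟨x + 1, by simpa using hx, ?_⟩
        rw [List.map_cons, List.sum_cons, List.take_succ_cons, List.sum_cons, ← hs]
        have : (x + 1) * k = x * k + k := by ring
        omega
      · refine ⟨0, Nat.zero_le _, ?_⟩
        have h1 : ∀ s ∈ a :: L, s - k = 0 := by
          intro s hs
          rcases List.mem_cons.1 hs with h | h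
          · subst h; omega
          · have := (List.pairwise_cons.1 hL).1 s h
            omega
        have h2 : ((a :: L).map (fun s => s - k)).sum = 0 := by
          refine List.sum_eq_zero fun y hy => ?_
          rw [List.mem_map] at hy
          obtain ⟨s, hs, rfl⟩ := hy
          exact h1 s hs
        rw [h2]
        simp
  obtain ⟨x, hx, hs⟩ := key L hL
  have h1 := h x hx
  rw [Multiset.map_coe, Multiset.sum_coe]
  have h2 : ∑ j ∈ range x, (rf (st b) j) + NN (b - x) = NN b := by
    simp only [rf_st]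
    exact sum_stair' b x
  have h3 : ∑ j ∈ range x, rf (st b) j ≤ ∑ j ∈ range x, (rf (st b) j - k) + x * k := by
    have : x * k = ∑ _r ∈ range x, k := by
      rw [Finset.sum_const, Finset.card_range, smul_eq_mul]
    rw [this, ← Finset.sum_add_distrib]
    exact Finset.sum_le_sum fun r _ => by omega
  have h4 : ∑ j ∈ range x, (rf (st b) j - k) ≤ ∑ j ∈ range (st b).sum, (rf (st b) j - k) := by
    have h10 : ∀ r, (st b).sum ≤ r → rf (st b) r - k = 0 := by
      intro r hr
      have := rf_anti (st b) hr
      rw [rf_sum] at this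
      omega
    rcases le_total x (st b).sum with h | h
    · exact Finset.sum_le_sum_of_subset (Finset.range_subset_range.2 h)
    · refine le_of_eq (Finset.sum_subset (Finset.range_subset_range.2 h) fun r _ hr => ?_).symm
      refine h10 r ?_
      rw [Finset.mem_range] at hr
      omega
  omega

/-- sorted and all at least two -/
def sortB : List ℕ → Bool
  | [] => true
  | [a] => Nat.ble 2 a
  | a :: b :: L => Nat.ble b a && sortB (b :: L)

theorem sortB_spec : ∀ (L : List ℕ), sortB L = true → L.Pairwise (· ≥ ·) ∧ ∀ s ∈ L, 2 ≤ s := by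
  intro L
  induction L with
  | nil => intro _; exact ⟨List.Pairwise.nil, by simp⟩
  | cons a L ih =>
    intro h
    cases L with
    | nil =>
      refine ⟨List.pairwise_singleton _ _, fun s hs => ?_⟩
      rw [List.mem_singleton.1 hs]
      exact Nat.le_of_ble_eq_true h
    | cons b L =>
      unfold sortB at h
      rw [Bool.and_eq_true] at h
      obtain ⟨h1, h2⟩ := h
      have h1' : b ≤ a := Nat.le_of_ble_eq_true h1
      obtain ⟨h3, h4⟩ := ih h2
      have hb := h4 b (List.mem_cons_self ..)
      refine ⟨List.pairwise_cons.2 ⟨fun s hs => ?_, h3⟩, fun s hs => ?_⟩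
      · rcases List.mem_cons.1 hs with h | h
        · subst h; exact h1'
        · exact le_trans ((List.pairwise_cons.1 h3).1 s h) h1'
      · rcases List.mem_cons.1 hs with h | h
        · subst h; omega
        · exact h4 s h

def goodB (b : ℕ) (L : List ℕ) : Bool :=
  Nat.ble L.sum (NN b) && Nat.ble (L.length + NN b) (b + L.sum) &&
  (List.range (L.length + 1)).all (fun x => Nat.ble (x * b) ((L.take x).sum + NN (x - 1)))

def tallB (b : ℕ) (L : List ℕ) : Bool :=
  Nat.ble 5 b && Nat.ble (NN (b - 2) + 1) L.sum && Nat.ble L.sum (NN (b - 1)) &&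
  (List.range (L.length + 1)).all
    (fun x => Nat.ble x 0 || Nat.ble (x * (b - 1)) ((L.take x).sum + NN (x - 2)))

def r1B (b : ℕ) (L : List ℕ) : Bool :=
  (List.range (L.length + 1)).all (fun x => Nat.ble ((L.take x).sum + NN (b - x)) (NN b))

def binB (b : ℕ) (L : List ℕ) : Bool :=
  sortB L && ((Nat.ble L.length 1 && Nat.ble L.sum (NN b)) || r1B b L || goodB b L || tallB b L)

theorem CC_binB {b : ℕ} {L : List ℕ} (h : binB b L = true) : CC (st b) (L : Multiset ℕ) := by
  unfold binB at h
  rw [Bool.and_eq_true] at h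
  obtain ⟨h0, h⟩ := h
  obtain ⟨hL, hL2⟩ := sortB_spec L h0
  simp only [Bool.or_eq_true] at h
  rcases h with ((h | h) | h) | h
  · rw [Bool.and_eq_true, Nat.ble_eq, Nat.ble_eq] at h
    match L, h, hL2 with
    | [], _, _ => exact CC_zero _
    | [s], h, hL2 =>
      refine CC_hook (le_trans (by norm_num) (hL2 s (List.mem_cons_self ..))) ?_
      simpa using h.2
    | a :: b :: L, h, _ =>
      have := h.1
      simp at this
  · unfold r1B at h
    rw [List.all_eq_true] at h
    exact CC_r1 (fun x hx => Nat.le_of_ble_eq_true (h x (List.mem_range.2 (by omega)))) hL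
  · unfold goodB at h
    simp only [Bool.and_eq_true, Nat.ble_eq, List.all_eq_true] at h
    obtain ⟨⟨h1, h2⟩, h3⟩ := h
    exact CC_tall_good hL (fun s hs => le_trans (by norm_num) (hL2 s hs)) h1 (by omega)
      fun x hx => h3 x (List.mem_range.2 (by omega))
  · unfold tallB at h
    simp only [Bool.and_eq_true, Nat.ble_eq, List.all_eq_true, Bool.or_eq_true] at h
    obtain ⟨⟨⟨h1, h2⟩, h3⟩, h4⟩ := h
    obtain ⟨d, rfl⟩ : ∃ d, b = d + 1 := ⟨b - 1, by omega⟩
    refine CC_tall (b := d) (by omega) hL (fun s hs => le_trans (by norm_num) (hL2 s hs))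
      (by rw [show d + 1 - 2 = d - 1 by omega] at h2; omega) (by simpa using h3) fun x hx1 hx2 => ?_
    rcases h4 x (List.mem_range.2 (by omega)) with h5 | h5
    · omega
    · simpa using h5

/-- column heights of a shelf: staircases `bs` and further columns `X`, transposed -/
def shH (bs X : List ℕ) : List ℕ :=
  (List.range ((bs ++ X).foldr max 0)).map
    (fun r => (bs.map (fun b => b - r)).sum + (X.map (fun x => if r < x then 1 else 0)).sum)

theorem foldr_max {L : List ℕ} {a : ℕ} (h : a ∈ L) : a ≤ L.foldr max 0 := by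
  induction L with
  | nil => simp at h
  | cons b L ih =>
    rw [List.foldr_cons]
    rcases List.mem_cons.1 h with h | h
    · subst h; exact le_max_left _ _
    · exact le_trans (ih h) (le_max_right _ _)

theorem CC_shelf (s : List (ℕ × List ℕ)) (X : List ℕ) (h : ∀ p ∈ s, binB p.1 p.2 = true) :
    CC (shH (s.map Prod.fst) X : Multiset ℕ) ((s.flatMap Prod.snd : List ℕ) : Multiset ℕ) := by
  have h1 : CC ((s.map (fun p => st p.1)).sum) ((s.flatMap Prod.snd : List ℕ) : Multiset ℕ) := by
    induction s with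
    | nil => exact CC_zero _
    | cons p s ih =>
      rw [List.map_cons, List.sum_cons, List.flatMap_cons, ← Multiset.coe_add]
      exact CC_add (CC_binB (h p (List.mem_cons_self ..)))
        (ih fun q hq => h q (List.mem_cons_of_mem _ hq))
  have h2 : ∀ a ∈ (s.map (fun p => st p.1)).sum + (X : Multiset ℕ),
      a ≤ (s.map Prod.fst ++ X).foldr max 0 := by
    intro a ha
    rcases Multiset.mem_add.1 ha with ha | ha
    · clear h h1
      induction s with
      | nil => simp at ha
      | cons p s ih =>
        rw [List.map_cons, List.sum_cons, Multiset.mem_add] at ha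
        rw [List.map_cons, List.cons_append, List.foldr_cons]
        rcases ha with h | h
        · exact le_trans (mem_st.1 h).2 (le_max_left _ _)
        · exact le_trans (ih (Multiset.mem_add.2 (Or.inl h)) h) (le_max_right _ _)
    · exact foldr_max (List.mem_append_right _ (Multiset.mem_coe.1 ha))
  have h3 : (shH (s.map Prod.fst) X : Multiset ℕ) =
      cj ((s.map Prod.fst ++ X).foldr max 0) ((s.map (fun p => st p.1)).sum + (X : Multiset ℕ)) := by
    unfold shH cj
    rw [← Multiset.map_coe]
    refine Multiset.map_congr rfl fun r hr => ?_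
    clear hr h h1 h2
    rw [rf_add]
    congr 1
    · induction s with
      | nil => simp [rf_zero]
      | cons p s ih =>
        rw [List.map_cons, List.map_cons, List.map_cons, List.sum_cons, List.sum_cons, rf_add, rf_st,
          ih]
    · induction X with
      | nil => simp [rf_zero]
      | cons p s ih => rw [List.map_cons, List.sum_cons, ← Multiset.cons_coe, rf_cons, ih]
  rw [h3]
  exact (CC_cj h2).2 (CC_mono _ h1)

theorem CC_shelves (sh : List (List (ℕ × List ℕ) × List ℕ))
    (h : ∀ s ∈ sh, ∀ p ∈ s.1, binB p.1 p.2 = true) :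
    CC ((sh.flatMap (fun s => shH (s.1.map Prod.fst) s.2) : List ℕ) : Multiset ℕ)
      ((sh.flatMap (fun s => s.1.flatMap Prod.snd) : List ℕ) : Multiset ℕ) := by
  induction sh with
  | nil => exact CC_zero _
  | cons s sh ih =>
    rw [List.flatMap_cons, List.flatMap_cons, ← Multiset.coe_add, ← Multiset.coe_add]
    exact CC_add (CC_shelf s.1 s.2 (h s (List.mem_cons_self ..)))
      (ih fun q hq => h q (List.mem_cons_of_mem _ hq))

/-- `1, …, c` -/
def stl (c : ℕ) : List ℕ := (List.range c).map (fun i => i + 1)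

theorem stl_st (c : ℕ) : (stl c : Multiset ℕ) = st c := rfl

def nodeB (c : ℕ) (sh : List (List (ℕ × List ℕ) × List ℕ)) (τ : ℕ) (T : List ℕ) (κ : ℕ) : Bool :=
  let H := sh.flatMap (fun s => shH (s.1.map Prod.fst) s.2)
  let C := (stl c).filter (fun h => !(H.contains h))
  sh.all (fun s => s.1.all (fun p => binB p.1 p.2)) &&
    (sh.flatMap (fun s => s.1.flatMap Prod.snd)).isPerm T && (H ++ C).isPerm (stl c) &&
    Nat.ble 1 τ &&
    (List.range (κ + 1)).all (fun i => Nat.ble (min (i * τ) (κ + i)) (C.map (fun s => min s i)).sum)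

/-- what a stack entry claims -/
def OKo (c : ℕ) (o : List ℕ × ℕ × ℕ) : Prop :=
  ∀ U : Multiset ℕ, (∀ u ∈ U, 2 ≤ u ∧ u ≤ o.2.1) → (U.map (fun s => s - 1)).sum ≤ o.2.2 →
    CC (st c) ((o.1 : Multiset ℕ) + U)

def chil (τ : ℕ) (o : List ℕ × ℕ × ℕ) : List (List ℕ × ℕ × ℕ) :=
  (List.range (min o.2.1 (o.2.2 + 1) - τ)).map
    (fun i => ((i + (τ + 1)) :: o.1, i + (τ + 1), o.2.2 - (i + τ)))

theorem OKo_step {c : ℕ} {sh : List (List (ℕ × List ℕ) × List ℕ)} {τ : ℕ} {o : List ℕ × ℕ × ℕ}
    (h : nodeB c sh τ o.1 o.2.2 = true) (hch : ∀ q ∈ chil τ o, OKo c q) : OKo c o := by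
  classical
  intro U hU hk
  unfold nodeB at h
  simp only [Bool.and_eq_true] at h
  obtain ⟨⟨⟨⟨h1, h2⟩, h3⟩, h4⟩, h5⟩ := h
  have hτ : 1 ≤ τ := Nat.le_of_ble_eq_true h4
  by_cases hall : ∀ u ∈ U, u ≤ τ
  · -- leaf
    set H := sh.flatMap (fun s => shH (s.1.map Prod.fst) s.2) with hH
    set C := (stl c).filter (fun h => !(H.contains h)) with hC
    have h6 : (H : Multiset ℕ) + (C : Multiset ℕ) = st c := by
      rw [Multiset.coe_add, ← stl_st]
      exact Multiset.coe_eq_coe.2 (List.isPerm_iff.1 h3)
    have h7 : ((sh.flatMap (fun s => s.1.flatMap Prod.snd) : List ℕ) : Multiset ℕ) =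
        (o.1 : Multiset ℕ) := Multiset.coe_eq_coe.2 (List.isPerm_iff.1 h2)
    have h8 := CC_shelves sh fun s hs p hp => List.all_eq_true.1 (List.all_eq_true.1 h1 s hs) p hp
    rw [← hH, h7] at h8
    rw [← h6]
    refine CC_add h8 ?_
    have hCn : (C : Multiset ℕ).Nodup := by
      have := st_nodup c
      rw [← h6] at this
      exact (Multiset.nodup_add.1 this).2.1
    refine CC_short hCn (t := τ) (κ := o.2.2) (fun i hi => ?_)
      (fun u hu => ⟨(hU u hu).1, hall u hu⟩) hk
    have h9 := Nat.le_of_ble_eq_true (List.all_eq_true.1 h5 i (List.mem_range.2 (by omega)))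
    rw [sum_rf, Multiset.map_coe, Multiset.sum_coe]
    exact h9
  · push Not at hall
    obtain ⟨u0, hu0, hu1⟩ := hall
    -- the largest member
    have hne : U.toFinset.Nonempty := ⟨u0, Multiset.mem_toFinset.2 hu0⟩
    obtain ⟨s, hs, hmax⟩ := Finset.exists_max_image U.toFinset id hne
    rw [Multiset.mem_toFinset] at hs
    have hmax' : ∀ u ∈ U, u ≤ s := fun u hu => hmax u (Multiset.mem_toFinset.2 hu)
    have hs2 := hU s hs
    have hsτ : τ < s := lt_of_lt_of_le hu1 (hmax' u0 hu0)
    obtain ⟨V, hV⟩ := Multiset.exists_cons_of_mem hs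
    rw [hV, Multiset.map_cons, Multiset.sum_cons] at hk
    have hmem : (s :: o.1, s, o.2.2 - (s - 1)) ∈ chil τ o := by
      unfold chil
      rw [List.mem_map]
      refine ⟨s - (τ + 1), List.mem_range.2 ?_, ?_⟩
      · have := hs2.2
        omega
      · rw [show s - (τ + 1) + (τ + 1) = s by omega, show s - (τ + 1) + τ = s - 1 by omega]
    have h9 := hch _ hmem V (fun u hu => ?_) (by show _ ≤ o.2.2 - (s - 1); omega)
    · rw [hV]
      have h10 : (((s :: o.1 : List ℕ) : Multiset ℕ)) + V = (o.1 : Multiset ℕ) + s ::ₘ V := by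
        rw [← Multiset.cons_coe, Multiset.cons_add, Multiset.add_cons]
      rw [← h10]
      exact h9
    · have hu' : u ∈ U := by rw [hV]; exact Multiset.mem_cons_of_mem hu
      exact ⟨(hU u hu').1, hmax' u hu'⟩

/-- the checker -/
def runT (c : ℕ) : List (List (List (ℕ × List ℕ) × List ℕ) × ℕ) → List (List ℕ × ℕ × ℕ) → Bool
  | _, [] => true
  | [], _ :: _ => false
  | nd :: nds, o :: os => nodeB c nd.1 nd.2 o.1 o.2.2 && runT c nds (chil nd.2 o ++ os)

theorem runT_spec (c : ℕ) : ∀ (nds : List (List (List (ℕ × List ℕ) × List ℕ) × ℕ))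
    (os : List (List ℕ × ℕ × ℕ)), runT c nds os = true → ∀ o ∈ os, OKo c o := by
  intro nds
  induction nds with
  | nil =>
    intro os h o ho
    cases os with
    | nil => simp at ho
    | cons a os => simp [runT] at h
  | cons nd nds ih =>
    intro os h o ho
    cases os with
    | nil => simp at ho
    | cons a os =>
      unfold runT at h
      rw [Bool.and_eq_true] at h
      have h1 := ih _ h.2
      rcases List.mem_cons.1 ho with h2 | h2
      · subst h2
        exact OKo_step h.1 fun q hq => h1 q (List.mem_append_left _ hq)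
      · exact h1 o (List.mem_append_right _ h2)

theorem kc_of_tree {c K : ℕ} (nds : List (List (List (ℕ × List ℕ) × List ℕ) × ℕ))
    (h : runT c nds [([], K + 1, K)] = true) : KC c K := by
  intro S hS hSK
  have h1 := runT_spec c nds _ h ([], K + 1, K) (List.mem_singleton.2 rfl) S ?_ hSK
  · simpa using h1
  · intro s hs
    refine ⟨hS s hs, ?_⟩
    have h2 : s - 1 ≤ (S.map (fun s => s - 1)).sum :=
      Multiset.le_sum_of_mem (Multiset.mem_map_of_mem (fun s => s - 1) hs)
    show s ≤ K + 1
    omega

end Pool.MP322
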