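import Pool.Agent.Lib.MP_322c5f_al.SG1
import Pool.Agent.Lib.MP_322c5f_al.Orth

/-! Semigroup property, part 2: the representation attached to `lam` realised on functions on
words. -/

set_option autoImplicit false

open Equiv Finset Nat

namespace Pool.MP322

theorem sg_ai {n : ℕ} (h : Perm (Fin n)) (x : Fin n) : h (h⁻¹ x) = x := by
  change (h * h⁻¹) x = x
  rw [mul_inv_cancel, Perm.one_apply]

theorem sg_ia {n : ℕ} (h : Perm (Fin n)) (x : Fin n) : h⁻¹ (h x) = x := by
  change (h⁻¹ * h) x = x
  rw [inv_mul_cancel, Perm.one_apply]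

section
variable {n : ℕ} (lam : Y n)

/-- the row reading tableau -/
noncomputable def rT : Tab ⊥ lam.1 n := (exists_rowTab lam).choose

/-- the column reading tableau -/
noncomputable def cT : Tab ⊥ lam.1 n := (exists_colTab lam).choose

/-- the row word -/
noncomputable def rw' (i : Fin n) : ℕ := ((rT lam).1 i).1

/-- the row numbers in the column reading -/
noncomputable def cw (i : Fin n) : ℕ := ((cT lam).1 i).1

/-- the column numbers in the column reading -/
noncomputable def cc (i : Fin n) : ℕ := ((cT lam).1 i).2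

theorem rT_mono : Monotone (rw' lam) := (exists_rowTab lam).choose_spec.1

theorem cT_mono : Monotone (cc lam) := (exists_colTab lam).choose_spec.1

/-- an adjacent transposition acts on a column vector -/
theorem yM_one {T : Tab ⊥ lam.1 n} {i : ℕ} {h : i + 1 < n} (hT : yd T.1 i h = 1) (x : Tab ⊥ lam.1 n) :
    yM ⊥ lam.1 n i h x T = if x = T then 1 else 0 := by
  unfold yM
  by_cases h1 : T = x
  · subst h1
    rw [if_pos rfl, if_pos rfl, hT]
  · have h1' : ¬ x = T := fun h2 => h1 h2.symm
    rw [if_neg h1, if_neg h1']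
    by_cases h2 : T.1 = x.1 ∘ sw i h
    · rw [if_pos h2]
      have h3 := yd_sw x.1 i h
      rw [← h2, hT] at h3
      rw [show yd x.1 i h = -1 by linarith]
      norm_num
    · rw [if_neg h2]

theorem yM_neg {T : Tab ⊥ lam.1 n} {i : ℕ} {h : i + 1 < n} (hT : yd T.1 i h = -1) (x : Tab ⊥ lam.1 n) :
    yM ⊥ lam.1 n i h x T = if x = T then -1 else 0 := by
  unfold yM
  by_cases h1 : T = x
  · subst h1
    rw [if_pos rfl, if_pos rfl, hT]
  · have h1' : ¬ x = T := fun h2 => h1 h2.symm
    rw [if_neg h1, if_neg h1']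
    by_cases h2 : T.1 = x.1 ∘ sw i h
    · rw [if_pos h2]
      have h3 := yd_sw x.1 i h
      rw [← h2, hT] at h3
      rw [show yd x.1 i h = 1 by linarith]
      norm_num
    · rw [if_neg h2]

/-- the stabiliser of the row word fixes the row reading vector -/
theorem rep_rT (σ : Perm (Fin n)) (hσ : ∀ i, rw' lam (σ i) = rw' lam i) (x : Tab ⊥ lam.1 n) :
    rep ⊥ lam.1 n σ x (rT lam) = if x = rT lam then 1 else 0 := by
  classical
  let H : Subgroup (Perm (Fin n)) :=
    { carrier := {τ | ∀ x, rep ⊥ lam.1 n τ x (rT lam) = if x = rT lam then 1 else 0}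
      one_mem' := by
        intro x
        rw [map_one, Matrix.one_apply]
      mul_mem' := by
        intro a b ha hb x
        rw [map_mul, Matrix.mul_apply]
        rw [Finset.sum_congr rfl fun y _ => by rw [hb y]]
        simp only [mul_ite, mul_one, mul_zero, Finset.sum_ite_eq', Finset.mem_univ, if_true]
        exact ha x
      inv_mem' := by
        intro a ha x
        have h1 : ∀ y, (rep ⊥ lam.1 n a⁻¹ * rep ⊥ lam.1 n a) y (rT lam) =
            rep ⊥ lam.1 n a⁻¹ y (rT lam) := by
          intro y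
          rw [Matrix.mul_apply, Finset.sum_congr rfl fun z _ => by rw [ha z]]
          simp only [mul_ite, mul_one, mul_zero, Finset.sum_ite_eq', Finset.mem_univ, if_true]
        rw [← h1, ← map_mul, inv_mul_cancel, map_one, Matrix.one_apply] }
  have hmem : σ ∈ H := by
    refine stab_mono (rw' lam) (rT_mono lam) H ?_ σ hσ
    intro i h hi x
    rw [rep_sw]
    refine yM_one lam ?_ x
    have h1 : ((rT lam).1 ⟨i + 1, h⟩).2 = ((rT lam).1 ⟨i, by omega⟩).2 + 1 :=
      (exists_rowTab lam).choose_spec.2 i h hi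
    have h2 : ((rT lam).1 ⟨i, by omega⟩).1 = ((rT lam).1 ⟨i + 1, h⟩).1 := hi
    unfold yd ct
    rw [h1, ← h2]
    push_cast
    ring_nf
  exact hmem x

/-- the stabiliser of the column word acts on the column reading vector by the sign -/
theorem rep_cT (σ : Perm (Fin n)) (hσ : ∀ i, cc lam (σ i) = cc lam i) (x : Tab ⊥ lam.1 n) :
    rep ⊥ lam.1 n σ x (cT lam) = if x = cT lam then ((Perm.sign σ : ℤ) : ℝ) else 0 := by
  classical
  let H : Subgroup (Perm (Fin n)) :=
    { carrier := {τ | ∀ x, rep ⊥ lam.1 n τ x (cT lam) =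
        if x = cT lam then ((Perm.sign τ : ℤ) : ℝ) else 0}
      one_mem' := by
        intro x
        rw [map_one, Matrix.one_apply, Perm.sign_one]
        norm_num
      mul_mem' := by
        intro a b ha hb x
        rw [map_mul, Matrix.mul_apply]
        rw [Finset.sum_congr rfl fun y _ => by rw [hb y]]
        simp only [mul_ite, mul_zero, Finset.sum_ite_eq', Finset.mem_univ, if_true]
        rw [ha x, map_mul]
        split_ifs
        · push_cast
          ring
        · rw [zero_mul]
      inv_mem' := by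
        intro a ha x
        have hs : ((Perm.sign a : ℤ) : ℝ) * ((Perm.sign a : ℤ) : ℝ) = 1 := by
          rw [← Int.cast_mul, ← Units.val_mul, Int.units_mul_self, Units.val_one, Int.cast_one]
        have h1 : ∀ y, (rep ⊥ lam.1 n a⁻¹ * rep ⊥ lam.1 n a) y (cT lam) =
            rep ⊥ lam.1 n a⁻¹ y (cT lam) * ((Perm.sign a : ℤ) : ℝ) := by
          intro y
          rw [Matrix.mul_apply, Finset.sum_congr rfl fun z _ => by rw [ha z]]
          simp only [mul_ite, mul_zero, Finset.sum_ite_eq', Finset.mem_univ, if_true]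
        have h2 := h1 x
        rw [← map_mul, inv_mul_cancel, map_one, Matrix.one_apply] at h2
        have h3 : rep ⊥ lam.1 n a⁻¹ x (cT lam) =
            (if x = cT lam then 1 else 0) * ((Perm.sign a : ℤ) : ℝ) := by
          rw [h2, mul_assoc, hs, mul_one]
        rw [h3, Perm.sign_inv]
        split_ifs
        · rw [one_mul]
        · rw [zero_mul] }
  have hmem : σ ∈ H := by
    refine stab_mono (cc lam) (cT_mono lam) H ?_ σ hσ
    intro i h hi x
    rw [rep_sw]
    have hsg : ((Perm.sign (sw i h) : ℤ) : ℝ) = -1 := by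
      have hne : (⟨i, by omega⟩ : Fin n) ≠ ⟨i + 1, h⟩ := by
        intro hh
        have := congrArg Fin.val hh
        simp at this
      unfold sw
      rw [Perm.sign_swap hne]
      norm_num
    rw [hsg]
    refine yM_neg lam ?_ x
    have h1 : ((cT lam).1 ⟨i + 1, h⟩).1 = ((cT lam).1 ⟨i, by omega⟩).1 + 1 :=
      (exists_colTab lam).choose_spec.2 i h hi
    have h2 : ((cT lam).1 ⟨i, by omega⟩).2 = ((cT lam).1 ⟨i + 1, h⟩).2 := hi
    unfold yd ct
    rw [h1, ← h2]
    push_cast
    ring_nf
  exact hmem x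

open Classical in
/-- the embedding into functions on words -/
noncomputable def ph (x : Tab ⊥ lam.1 n) (w : Fin n → ℕ) : ℝ :=
  if h : ∃ π : Perm (Fin n), w = fun i => rw' lam (π i) then rep ⊥ lam.1 n (h.choose)⁻¹ x (rT lam)
  else 0

theorem ph_eq (x : Tab ⊥ lam.1 n) (π : Perm (Fin n)) :
    ph lam x (fun i => rw' lam (π i)) = rep ⊥ lam.1 n π⁻¹ x (rT lam) := by
  classical
  have h : ∃ ρ : Perm (Fin n), (fun i => rw' lam (π i)) = fun i => rw' lam (ρ i) := ⟨π, rfl⟩
  unfold ph
  rw [dif_pos h]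
  have h1 := h.choose_spec
  set ρ := h.choose with hρ
  have h2 : ∀ i, rw' lam ((π * ρ⁻¹) i) = rw' lam i := by
    intro i
    have h3 := congrFun h1 (ρ⁻¹ i)
    simp only [sg_ai] at h3
    rw [Perm.mul_apply]
    exact h3
  have h4 : ρ⁻¹ = π⁻¹ * (π * ρ⁻¹) := by group
  rw [h4, map_mul, Matrix.mul_apply,
    Finset.sum_congr rfl fun y _ => by rw [rep_rT lam _ h2 y]]
  simp only [mul_ite, mul_one, mul_zero, Finset.sum_ite_eq', Finset.mem_univ, if_true]

theorem ph_zero (x : Tab ⊥ lam.1 n) (w : Fin n → ℕ)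
    (h : ¬ ∃ π : Perm (Fin n), w = fun i => rw' lam (π i)) : ph lam x w = 0 := by
  unfold ph
  rw [dif_neg h]

/-- equivariance -/
theorem ph_equiv (σ : Perm (Fin n)) (x : Tab ⊥ lam.1 n) (w : Fin n → ℕ) :
    ph lam x (fun i => w (σ i)) = ∑ y, rep ⊥ lam.1 n σ y x * ph lam y w := by
  by_cases h : ∃ π : Perm (Fin n), w = fun i => rw' lam (π i)
  · obtain ⟨π, rfl⟩ := h
    have h1 : (fun i => (fun i => rw' lam (π i)) (σ i)) = fun i => rw' lam ((π * σ) i) := rfl
    rw [h1, ph_eq, mul_inv_rev, map_mul, Matrix.mul_apply]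
    refine Finset.sum_congr rfl fun y _ => ?_
    rw [ph_eq, ← rep_transpose, Matrix.transpose_apply]
  · rw [ph_zero lam x _ ?_]
    · symm
      refine Finset.sum_eq_zero fun y _ => ?_
      rw [ph_zero lam y w h, mul_zero]
    · rintro ⟨π, hπ⟩
      apply h
      refine ⟨π * σ⁻¹, ?_⟩
      funext i
      have h1 := congrFun hπ (σ⁻¹ i)
      simp only [sg_ai] at h1
      rw [Perm.mul_apply]
      exact h1

/-- linear extension -/
noncomputable def Ph (v : Tab ⊥ lam.1 n → ℝ) (w : Fin n → ℕ) : ℝ := ∑ x, v x * ph lam x w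

theorem Ph_equiv (σ : Perm (Fin n)) (v : Tab ⊥ lam.1 n → ℝ) (w : Fin n → ℕ) :
    Ph lam v (fun i => w (σ i)) = Ph lam ((rep ⊥ lam.1 n σ).mulVec v) w := by
  unfold Ph
  rw [Finset.sum_congr rfl fun x _ => by rw [ph_equiv, Finset.mul_sum], Finset.sum_comm]
  refine Finset.sum_congr rfl fun y _ => ?_
  unfold Matrix.mulVec dotProduct
  rw [Finset.sum_mul]
  exact Finset.sum_congr rfl fun x _ => by ring

theorem ph_sum (x y : Tab ⊥ lam.1 n) :
    ∑ π : Perm (Fin n), ph lam x (fun i => rw' lam (π i)) * ph lam y (fun i => rw' lam (π i)) =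
      if x = y then (n ! : ℝ) / fd lam else 0 := by
  have h1 := schur_orth_same lam x (rT lam) y (rT lam)
  simp only [and_true] at h1
  rw [← h1]
  refine Fintype.sum_equiv (Equiv.inv (Perm (Fin n))) _ _ fun π => ?_
  rw [ph_eq, ph_eq, Equiv.inv_apply]

/-- injectivity -/
theorem Ph_inj {v : Tab ⊥ lam.1 n → ℝ} (h : ∀ w, Ph lam v w = 0) : v = 0 := by
  funext y
  have h1 : ∑ π : Perm (Fin n), Ph lam v (fun i => rw' lam (π i)) *
      ph lam y (fun i => rw' lam (π i)) = v y * ((n ! : ℝ) / fd lam) := by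
    unfold Ph
    rw [Finset.sum_congr rfl fun π _ => by rw [Finset.sum_mul], Finset.sum_comm]
    have h2 : ∀ x, ∑ π : Perm (Fin n), v x * ph lam x (fun i => rw' lam (π i)) *
        ph lam y (fun i => rw' lam (π i)) = v x * (if x = y then (n ! : ℝ) / fd lam else 0) := by
      intro x
      rw [← ph_sum, Finset.mul_sum]
      exact Finset.sum_congr rfl fun π _ => by ring
    rw [Finset.sum_congr rfl fun x _ => h2 x]
    simp only [mul_ite, mul_zero, Finset.sum_ite_eq', Finset.mem_univ, if_true]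
  rw [Finset.sum_eq_zero (fun π _ => by rw [h, zero_mul])] at h1
  have h3 : (0 : ℝ) < (n ! : ℝ) / fd lam := div_pos (by exact_mod_cast Nat.factorial_pos n) (fd_pos lam)
  rcases mul_eq_zero.1 h1.symm with h4 | h4
  · exact h4
  · exact absurd h4 h3.ne'

end

end Pool.MP322
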