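import Pool.Agent.Lib.MP_322c5f_al.SG19

/-! (C), part 10: values of `K(c)`. -/

set_option autoImplicit false

namespace Pool.MP322

def tr_4 : List (List (List (ℕ × List ℕ) × List ℕ) × ℕ) := [
  ([],4), ([([(3,[5])],[])],1)]

theorem kc_4 : KC 4 4 := kc_of_tree tr_4 (by decide +kernel)

def tr_5 : List (List (List (ℕ × List ℕ) × List ℕ) × ℕ) := [
  ([],5), ([([(3,[6])],[])],2), ([([(4,[6,3])],[])],1), ([([(4,[7])],[])],1),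
  ([([(4,[7,2])],[])],1), ([([(4,[8])],[])],1)]

theorem kc_5 : KC 5 7 := kc_of_tree tr_5 (by decide +kernel)

def tr_6 : List (List (List (ℕ × List ℕ) × List ℕ) × ℕ) := [
  ([],6), ([([(4,[7])],[])],2), ([([(4,[7,3])],[])],2), ([([(6,[7,4])],[])],1),
  ([([(4,[8])],[])],2), ([([(6,[8,3])],[])],1), ([([(4,[9])],[])],2), ([([(4,[10])],[])],1)]

theorem kc_6 : KC 6 9 := kc_of_tree tr_6 (by decide +kernel)

def tr_7 : List (List (List (ℕ × List ℕ) × List ℕ) × ℕ) := [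
  ([],6), ([([(4,[7])],[])],3), ([([(4,[7]),(3,[4])],[])],3), ([([(5,[7,4,4])],[])],2),
  ([([(4,[7]),(3,[5])],[])],3), ([([(7,[7,5,4])],[])],1), ([([(4,[7]),(3,[6])],[])],3),
  ([([(5,[7,7])],[])],2), ([([(4,[8])],[])],3), ([([(4,[8]),(3,[4])],[])],3),
  ([([(4,[8]),(3,[4])],[]),([(3,[4])],[3,2,1])],1), ([([(4,[8]),(3,[5])],[])],3),
  ([([(5,[8,6])],[])],2), ([([(5,[8,7])],[])],1), ([([(4,[9])],[])],3),
  ([([(4,[9]),(3,[4])],[])],3), ([([(5,[9,5])],[])],2), ([([(5,[9,6])],[])],1),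
  ([([(4,[10])],[])],3), ([([(5,[10,4])],[])],2), ([([(5,[10,5])],[])],1), ([([(5,[11])],[])],2),
  ([([(5,[11,3])],[])],2), ([([(5,[11,4])],[])],1), ([([(5,[12])],[])],2),
  ([([(5,[12,3])],[])],1), ([([(5,[13])],[])],2), ([([(5,[14])],[])],1)]

theorem kc_7 : KC 7 13 := kc_of_tree tr_7 (by decide +kernel)

def tr_8 : List (List (List (ℕ × List ℕ) × List ℕ) × ℕ) := [
  ([],7), ([([(4,[8])],[])],4), ([([(4,[8]),(3,[5])],[])],4), ([([(4,[8]),(4,[5,5])],[])],4),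
  ([([(4,[8]),(3,[6])],[])],4), ([([(5,[8,6]),(3,[5])],[])],3), ([([(6,[8,6,6])],[])],2),
  ([([(4,[8]),(4,[7])],[])],4), ([([(6,[8,7,5])],[])],2), ([([(6,[8,7,6])],[])],1),
  ([([(4,[8]),(4,[8])],[])],4), ([([(6,[8,8,5])],[])],1), ([([(4,[9])],[])],4),
  ([([(4,[9]),(3,[5])],[])],4), ([([(5,[9,5]),(3,[5])],[])],3), ([([(4,[9]),(3,[6])],[])],4),
  ([([(6,[9,6,5])],[])],2), ([([(6,[9,6,6])],[])],1), ([([(4,[9]),(4,[7])],[])],4),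
  ([([(6,[9,7,5])],[])],1), ([([(4,[9]),(4,[8])],[])],4), ([([(4,[9]),(4,[9])],[])],3),
  ([([(4,[10])],[])],4), ([([(4,[10]),(3,[5])],[])],4), ([([(6,[10,5,5])],[])],2),
  ([([(4,[10]),(3,[6])],[])],4), ([([(6,[10,6,5])],[])],1), ([([(4,[10]),(4,[7])],[])],4),
  ([([(4,[10]),(4,[8])],[])],3), ([([(6,[10,9])],[])],2), ([([(6,[10,10])],[])],1),
  ([([(5,[11])],[])],3), ([([(5,[11,4])],[])],3), ([([(5,[11,4]),(3,[4])],[])],3),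
  ([([(5,[11]),(3,[5])],[])],3), ([([(6,[11,5,4])],[])],2), ([([(6,[11,5,5])],[])],1),
  ([([(5,[11]),(3,[6])],[])],3), ([([(6,[11,6,4])],[])],1), ([([(6,[11,7])],[])],2),
  ([([(6,[11,7,3])],[])],1), ([([(6,[11,8])],[])],2), ([([(6,[11,9])],[])],1),
  ([([(5,[12])],[])],3), ([([(5,[12]),(3,[4])],[])],3), ([([(6,[12,4,4])],[])],2),
  ([([(5,[12]),(3,[5])],[])],3), ([([(6,[12,5,4])],[])],1), ([([(5,[12]),(3,[6])],[])],3),
  ([([(6,[12,7])],[])],2), ([([(6,[12,8])],[])],1), ([([(5,[13])],[])],3),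
  ([([(5,[13]),(3,[4])],[])],3), ([([(6,[13,4,4])],[])],1), ([([(5,[13]),(3,[5])],[])],3),
  ([([(6,[13,6])],[])],2), ([([(6,[13,7])],[])],1), ([([(5,[14])],[])],3),
  ([([(5,[14]),(3,[4])],[])],3), ([([(6,[14,5])],[])],2), ([([(6,[14,6])],[])],1),
  ([([(5,[15])],[])],3), ([([(6,[15,4])],[])],2), ([([(6,[15,5])],[])],1), ([([(6,[16])],[])],2),
  ([([(6,[16,3])],[])],2), ([([(6,[16,4])],[])],1), ([([(6,[17])],[])],2),
  ([([(6,[17,3])],[])],1), ([([(6,[18])],[])],2), ([([(6,[19])],[])],1)]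

theorem kc_8 : KC 8 18 := kc_of_tree tr_8 (by decide +kernel)

def tr_9_0 : List (List (List (ℕ × List ℕ) × List ℕ) × ℕ) := [
  ([],8), ([([(4,[9])],[])],5), ([([(4,[9]),(3,[6])],[])],5), ([([(5,[9,6]),(3,[6])],[])],4),
  ([([(7,[9,6,6,5])],[])],1), ([([(4,[9]),(4,[7])],[])],4), ([([(5,[9,5]),(4,[7])],[])],4),
  ([([(7,[9,7,5,5])],[])],1), ([([(5,[9,6]),(4,[7])],[])],4), ([([(5,[7,7]),(4,[9])],[])],3),
  ([([(4,[9]),(4,[8])],[])],5), ([([(6,[9,8]),(3,[6])],[])],3), ([([(7,[9,8,7])],[])],2),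
  ([([(7,[9,8,8])],[])],1), ([([(4,[9]),(4,[9])],[])],5), ([([(7,[9,9,6])],[])],2),
  ([([(7,[9,9,7])],[])],1), ([([(4,[10])],[])],5), ([([(4,[10]),(3,[6])],[])],5),
  ([([(5,[6,6]),(4,[10])],[])],4), ([([(4,[10]),(4,[7])],[])],5), ([([(6,[10,7]),(3,[6])],[])],3),
  ([([(7,[10,7,7])],[])],2), ([([(4,[10]),(4,[8])],[])],5), ([([(7,[10,8,6])],[])],2),
  ([([(7,[10,8,7])],[])],1), ([([(4,[10]),(4,[9])],[])],5), ([([(7,[10,9,6])],[])],1),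
  ([([(4,[10]),(4,[10])],[])],5), ([([(5,[11])],[])],4), ([([(5,[11]),(3,[5])],[])],4),
  ([([(5,[11]),(4,[5,5])],[])],4), ([([(7,[11,5,5,5])],[])],1), ([([(5,[11]),(3,[6])],[])],4),
  ([([(6,[11,6]),(3,[5])],[])],3), ([([(7,[11,6,5,4])],[])],1), ([([(6,[11,6]),(3,[6])],[])],3),
  ([([(5,[11]),(4,[7])],[])],4), ([([(6,[11,7]),(3,[5])],[])],3), ([([(7,[11,7,6])],[])],2),
  ([([(7,[11,7,7])],[])],1), ([([(5,[11]),(4,[8])],[])],4), ([([(7,[11,8,5])],[])],2),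
  ([([(7,[11,8,6])],[])],1), ([([(5,[11]),(4,[9])],[])],4), ([([(7,[11,9,5])],[])],1),
  ([([(5,[11]),(4,[10])],[])],4), ([([(8,[11,11])],[])],1), ([([(7,[11,11,2])],[])],2),
  ([([(7,[11,11,3])],[])],1), ([([(5,[12])],[])],4), ([([(5,[12]),(3,[5])],[])],4),
  ([([(5,[12]),(4,[5,5])],[])],4), ([([(5,[12]),(3,[6])],[])],4), ([([(6,[12,6]),(3,[5])],[])],3),
  ([([(7,[12,6,6])],[])],2), ([([(5,[12]),(4,[7])],[])],4), ([([(7,[12,7,5])],[])],2),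
  ([([(7,[12,7,6])],[])],1), ([([(5,[12]),(4,[8])],[])],4), ([([(7,[12,8,5])],[])],1),
  ([([(5,[12]),(4,[9])],[])],4), ([([(5,[12]),(4,[10])],[])],3), ([([(7,[12,11])],[])],2),
  ([([(7,[12,12])],[])],1), ([([(5,[13])],[])],4), ([([(5,[13]),(3,[5])],[])],4),
  ([([(6,[13,5]),(3,[5])],[])],3), ([([(5,[13]),(3,[6])],[])],4), ([([(7,[13,6,5])],[])],2),
  ([([(7,[13,6,6])],[])],1), ([([(5,[13]),(4,[7])],[])],4), ([([(7,[13,7,5])],[])],1),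
  ([([(5,[13]),(4,[8])],[])],4), ([([(5,[13]),(4,[9])],[])],3), ([([(7,[13,10])],[])],2),
  ([([(7,[13,11])],[])],1), ([([(5,[14])],[])],4), ([([(5,[14]),(3,[5])],[])],4),
  ([([(7,[14,5,5])],[])],2), ([([(5,[14]),(3,[6])],[])],4), ([([(7,[14,6,5])],[])],1),
  ([([(5,[14]),(4,[7])],[])],4), ([([(5,[14]),(4,[8])],[])],3), ([([(7,[14,9])],[])],2),
  ([([(7,[14,10])],[])],1), ([([(5,[15])],[])],4), ([([(5,[15]),(3,[5])],[])],4),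
  ([([(7,[15,5,5])],[])],1), ([([(5,[15]),(3,[6])],[])],4), ([([(5,[15]),(4,[7])],[])],3),
  ([([(7,[15,8])],[])],2), ([([(7,[15,9])],[])],1), ([([(6,[16])],[])],3),
  ([([(6,[16,4])],[])],3), ([([(7,[16,4,4])],[])],2), ([([(6,[16,5])],[])],3),
  ([([(7,[16,5,4])],[])],1), ([([(6,[16]),(3,[6])],[])],3), ([([(7,[16,7])],[])],2)]

def tr_9_1 : List (List (List (ℕ × List ℕ) × List ℕ) × ℕ) := [
  ([([(7,[16,8])],[])],1), ([([(6,[17])],[])],3), ([([(6,[17,4])],[])],3),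
  ([([(7,[17,4,4])],[])],1), ([([(6,[17]),(3,[5])],[])],3), ([([(7,[17,6])],[])],2),
  ([([(7,[17,7])],[])],1), ([([(6,[18])],[])],3), ([([(6,[18]),(3,[4])],[])],3),
  ([([(7,[18,5])],[])],2), ([([(7,[18,6])],[])],1), ([([(6,[19])],[])],3),
  ([([(7,[19,4])],[])],2), ([([(7,[19,5])],[])],1), ([([(6,[20])],[])],3),
  ([([(7,[20,4])],[])],1), ([([(6,[21])],[])],3), ([([(7,[22])],[])],2), ([([(7,[23])],[])],1)]

def tr_9 : List (List (List (ℕ × List ℕ) × List ℕ) × ℕ) :=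
  tr_9_0 ++ tr_9_1

theorem kc_9 : KC 9 22 := kc_of_tree tr_9 (by decide +kernel)

def tr_10_0 : List (List (List (ℕ × List ℕ) × List ℕ) × ℕ) := [
  ([],9), ([([(4,[10])],[])],6), ([([(4,[10]),(4,[7])],[])],5), ([([(5,[7,6]),(4,[10])],[])],5),
  ([([(6,[7,6,6]),(4,[10])],[])],3), ([([(5,[7,7]),(4,[10])],[])],5),
  ([([(7,[10,7,7]),(3,[6])],[])],2), ([([(9,[10,7,7,7])],[])],1), ([([(4,[10]),(4,[8])],[])],5),
  ([([(5,[8,6]),(4,[10])],[])],5), ([([(7,[10,8,6]),(3,[6])],[])],2),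
  ([([(5,[8,7]),(4,[10])],[])],5), ([([(9,[10,8,7,6])],[])],1), ([([(6,[10,8]),(4,[8])],[])],4),
  ([([(9,[10,8,8,5])],[])],1), ([([(4,[10]),(4,[9])],[])],5), ([([(5,[9,6]),(4,[10])],[])],5),
  ([([(9,[10,9,6,6])],[])],1), ([([(6,[10,9]),(4,[7])],[])],4), ([([(9,[10,9,7,5])],[])],1),
  ([([(6,[10,9]),(4,[8])],[])],4), ([([(7,[10,9,9])],[])],3), ([([(4,[10]),(4,[10])],[])],6),
  ([([(6,[10,10]),(4,[7])],[])],4), ([([(7,[10,10,8])],[])],3), ([([(6,[10,10]),(4,[9])],[])],2),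
  ([([(9,[10,10,10])],[])],1), ([([(5,[11])],[])],5), ([([(5,[11]),(3,[6])],[])],5),
  ([([(5,[11]),(5,[6,6])],[])],5), ([([(5,[11]),(5,[6,6])],[]),([(3,[6])],[2,1])],2),
  ([([(7,[11,6,6,3]),(3,[6])],[])],1), ([([(5,[11]),(4,[7])],[])],5),
  ([([(5,[11]),(5,[7,6])],[])],5), ([([(7,[11,7,6]),(3,[6])],[])],2),
  ([([(5,[11]),(5,[7,7])],[])],5), ([([(9,[11,7,7,6])],[])],1), ([([(5,[11]),(4,[8])],[])],5),
  ([([(5,[11]),(5,[8,6])],[])],5), ([([(9,[11,8,6,6])],[])],1), ([([(5,[11]),(5,[8,7])],[])],5),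
  ([([(6,[11,8]),(4,[8])],[])],4), ([([(5,[11]),(4,[9])],[])],5), ([([(5,[11]),(5,[9,6])],[])],5),
  ([([(6,[11,9]),(4,[7])],[])],4), ([([(7,[11,9,8])],[])],3), ([([(6,[11,9]),(4,[9])],[])],2),
  ([([(5,[11]),(4,[10])],[])],5), ([([(6,[11,10]),(3,[6])],[])],4), ([([(7,[11,10,7])],[])],3),
  ([([(6,[11,10]),(4,[8])],[])],2), ([([(9,[11,10,9])],[])],1), ([([(5,[11]),(5,[11])],[])],5),
  ([([(7,[11,11,6])],[])],3), ([([(9,[11,11,7])],[])],1), ([([(9,[11,11,7,2])],[])],1),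
  ([([(9,[11,11,8])],[])],1), ([([(5,[12])],[])],5), ([([(5,[12]),(3,[6])],[])],5),
  ([([(5,[12]),(5,[6,6])],[])],5), ([([(7,[12,6,6]),(3,[6])],[])],2),
  ([([(5,[12]),(4,[7])],[])],5), ([([(5,[12]),(5,[7,6])],[])],5), ([([(9,[12,7,6,6])],[])],1),
  ([([(5,[12]),(5,[7,7])],[])],5), ([([(5,[12]),(4,[8])],[])],5), ([([(5,[12]),(5,[8,6])],[])],5),
  ([([(6,[12,8]),(4,[7])],[])],4), ([([(7,[12,8,8])],[])],3), ([([(5,[12]),(4,[9])],[])],5),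
  ([([(6,[12,9]),(3,[6])],[])],4), ([([(7,[12,9,7])],[])],3), ([([(6,[12,9]),(4,[8])],[])],2),
  ([([(9,[12,9,9])],[])],1), ([([(5,[12]),(4,[10])],[])],5), ([([(7,[12,10,6])],[])],3),
  ([([(6,[12,7]),(4,[10])],[])],2), ([([(9,[12,10,8])],[])],1), ([([(5,[12]),(5,[11])],[])],5),
  ([([(7,[12,11]),(3,[6])],[])],2), ([([(9,[12,11,7])],[])],1), ([([(5,[12]),(5,[12])],[])],5),
  ([([(9,[12,12,6])],[])],1), ([([(5,[13])],[])],5), ([([(5,[13]),(3,[6])],[])],5),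
  ([([(5,[13]),(5,[6,6])],[])],5), ([([(9,[13,6,6,6])],[])],1), ([([(5,[13]),(4,[7])],[])],5),
  ([([(5,[13]),(5,[7,6])],[])],5), ([([(6,[13,7]),(4,[7])],[])],4), ([([(5,[13]),(4,[8])],[])],5),
  ([([(6,[13,8]),(3,[6])],[])],4), ([([(7,[13,8,7])],[])],3), ([([(6,[13,8]),(4,[8])],[])],2),
  ([([(5,[13]),(4,[9])],[])],5), ([([(7,[13,9,6])],[])],3), ([([(6,[13,7]),(4,[9])],[])],2),
  ([([(9,[13,9,8])],[])],1), ([([(5,[13]),(4,[10])],[])],5), ([([(7,[13,10]),(3,[6])],[])],2)]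

def tr_10_1 : List (List (List (ℕ × List ℕ) × List ℕ) × ℕ) := [
  ([([(9,[13,10,7])],[])],1), ([([(5,[13]),(5,[11])],[])],5), ([([(9,[13,11,6])],[])],1),
  ([([(5,[13]),(5,[12])],[])],5), ([([(5,[13]),(5,[13])],[])],4), ([([(5,[14])],[])],5),
  ([([(5,[14]),(3,[6])],[])],5), ([([(5,[14]),(5,[6,6])],[])],5), ([([(5,[14]),(4,[7])],[])],5),
  ([([(6,[14,7]),(3,[6])],[])],4), ([([(7,[14,7,7])],[])],3), ([([(5,[14]),(4,[8])],[])],5),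
  ([([(7,[14,8,6])],[])],3), ([([(6,[14,7]),(4,[8])],[])],2), ([([(9,[14,8,8])],[])],1),
  ([([(5,[14]),(4,[9])],[])],5), ([([(7,[14,9]),(3,[6])],[])],2), ([([(9,[14,9,7])],[])],1),
  ([([(5,[14]),(4,[10])],[])],5), ([([(9,[14,10,6])],[])],1), ([([(5,[14]),(5,[11])],[])],5),
  ([([(5,[14]),(5,[12])],[])],4), ([([(7,[14,13])],[])],3), ([([(7,[14,14])],[])],2),
  ([([(5,[15])],[])],5), ([([(5,[15]),(3,[6])],[])],5), ([([(6,[15,6]),(3,[6])],[])],4),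
  ([([(5,[15]),(4,[7])],[])],5), ([([(7,[15,7,6])],[])],3), ([([(5,[15]),(5,[7,7])],[])],2),
  ([([(5,[15]),(4,[8])],[])],5), ([([(7,[15,8]),(3,[6])],[])],2), ([([(9,[15,8,7])],[])],1),
  ([([(5,[15]),(4,[9])],[])],5), ([([(9,[15,9,6])],[])],1), ([([(5,[15]),(4,[10])],[])],5),
  ([([(5,[15]),(5,[11])],[])],4), ([([(7,[15,12])],[])],3), ([([(7,[15,13])],[])],2),
  ([([(9,[15,14])],[])],1), ([([(6,[16])],[])],4), ([([(6,[16,5])],[])],4),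
  ([([(6,[16,5]),(3,[5])],[])],4), ([([(9,[16,5,5,5])],[])],1), ([([(6,[16]),(3,[6])],[])],4),
  ([([(6,[16,5]),(3,[6])],[])],4), ([([(7,[16,6,6])],[])],3), ([([(6,[16]),(4,[7])],[])],4),
  ([([(7,[16,7,5])],[])],3), ([([(7,[16,7]),(3,[6])],[])],2), ([([(9,[16,7,7])],[])],1),
  ([([(6,[16]),(4,[8])],[])],4), ([([(7,[16,8]),(3,[5])],[])],2), ([([(9,[16,8,6])],[])],1),
  ([([(6,[16]),(4,[9])],[])],4), ([([(9,[16,9,5])],[])],1), ([([(6,[16]),(4,[10])],[])],4),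
  ([([(7,[16,11])],[])],3), ([([(7,[16,12])],[])],2), ([([(9,[16,13])],[])],1),
  ([([(6,[17])],[])],4), ([([(6,[17]),(3,[5])],[])],4), ([([(6,[17]),(4,[5,5])],[])],4),
  ([([(6,[17]),(3,[6])],[])],4), ([([(7,[17,6,5])],[])],3), ([([(7,[17,6]),(3,[6])],[])],2),
  ([([(6,[17]),(4,[7])],[])],4), ([([(7,[17,7]),(3,[5])],[])],2), ([([(9,[17,7,6])],[])],1),
  ([([(6,[17]),(4,[8])],[])],4), ([([(9,[17,8,5])],[])],1), ([([(6,[17]),(4,[9])],[])],4),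
  ([([(7,[17,10])],[])],3), ([([(7,[17,11])],[])],2), ([([(9,[17,12])],[])],1),
  ([([(6,[18])],[])],4), ([([(6,[18]),(3,[5])],[])],4), ([([(7,[18,5,5])],[])],3),
  ([([(6,[18]),(3,[6])],[])],4), ([([(7,[18,6]),(3,[5])],[])],2), ([([(9,[18,6,6])],[])],1),
  ([([(6,[18]),(4,[7])],[])],4), ([([(9,[18,7,5])],[])],1), ([([(6,[18]),(4,[8])],[])],4),
  ([([(7,[18,9])],[])],3), ([([(7,[18,10])],[])],2), ([([(9,[18,11])],[])],1),
  ([([(6,[19])],[])],4), ([([(6,[19]),(3,[5])],[])],4), ([([(7,[19,5]),(3,[5])],[])],2),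
  ([([(6,[19]),(3,[6])],[])],4), ([([(9,[19,6,5])],[])],1), ([([(6,[19]),(4,[7])],[])],4),
  ([([(7,[19,8])],[])],3), ([([(7,[19,9])],[])],2), ([([(9,[19,10])],[])],1),
  ([([(6,[20])],[])],4), ([([(6,[20]),(3,[5])],[])],4), ([([(9,[20,5,5])],[])],1),
  ([([(6,[20]),(3,[6])],[])],4)]

def tr_10_2 : List (List (List (ℕ × List ℕ) × List ℕ) × ℕ) := [
  ([([(7,[20,7])],[])],3), ([([(7,[20,8])],[])],2), ([([(9,[20,9])],[])],1),
  ([([(6,[21])],[])],4), ([([(6,[21]),(3,[5])],[])],4), ([([(7,[21,6])],[])],3),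
  ([([(7,[21,7])],[])],2), ([([(9,[21,8])],[])],1), ([([(7,[22])],[])],3),
  ([([(7,[22,4])],[])],3), ([([(9,[22,4,4])],[])],1), ([([(7,[22,5])],[])],3),
  ([([(7,[22,6])],[])],2), ([([(9,[22,7])],[])],1), ([([(7,[23])],[])],3),
  ([([(7,[23,4])],[])],3), ([([(7,[23,5])],[])],2), ([([(9,[23,6])],[])],1),
  ([([(7,[24])],[])],3), ([([(7,[24,4])],[])],2), ([([(9,[24,5])],[])],1), ([([(7,[25])],[])],3),
  ([([(9,[25,4])],[])],1), ([([(7,[26])],[])],3), ([([(7,[27])],[])],2), ([([(7,[28])],[])],1)]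

def tr_10 : List (List (List (ℕ × List ℕ) × List ℕ) × ℕ) :=
  tr_10_0 ++ tr_10_1 ++ tr_10_2

theorem kc_10 : KC 10 27 := kc_of_tree tr_10 (by decide +kernel)

theorem kc_16 : KC 16 46 := kc_of_B 3 10 (by decide)

theorem kc_17 : KC 17 56 := kc_of_B 3 11 (by decide)

end Pool.MP322
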