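import Pool.Agent.Lib.MP_322c5f_al.SG19

/-! (C), part 11: values of `K(c)`. -/

set_option autoImplicit false

namespace Pool.MP322

def tr_11_0 : List (List (List (ℕ × List ℕ) × List ℕ) × ℕ) := [
  ([],10), ([([(5,[11])],[])],6), ([([(6,[11,7])],[])],5), ([([(6,[11,7]),(3,[6])],[])],5),
  ([([(6,[11,7]),(5,[6,6])],[])],5), ([([(8,[11,7,6,6,6])],[])],3),
  ([([(6,[11,7]),(4,[7])],[])],5), ([([(6,[11,7]),(5,[7,6])],[])],5),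
  ([([(6,[11,7]),(5,[7,6])],[]),([(3,[6])],[3,2,1])],2), ([([(6,[11,7]),(5,[7,7])],[])],5),
  ([([(11,[11,7,7,7,6])],[])],1), ([([(6,[11,8])],[])],5), ([([(6,[11,8]),(3,[6])],[])],5),
  ([([(6,[11,8]),(5,[6,6])],[])],5), ([([(6,[11,8]),(5,[6,6])],[]),([(3,[6])],[3,2,1])],2),
  ([([(6,[11,8]),(4,[7])],[])],5), ([([(6,[11,8]),(5,[7,6])],[])],5),
  ([([(11,[11,8,7,6,6])],[])],1), ([([(6,[11,8]),(5,[7,7])],[])],5),
  ([([(6,[11,8]),(4,[8])],[])],5), ([([(6,[11,8]),(5,[8,6])],[])],5),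
  ([([(7,[11,8,8]),(4,[7])],[])],4), ([([(8,[11,8,8,8])],[])],3), ([([(6,[11,9])],[])],5),
  ([([(6,[11,9]),(3,[6])],[])],5), ([([(6,[11,9]),(5,[6,6])],[])],5),
  ([([(11,[11,9,6,6,6])],[])],1), ([([(6,[11,9]),(4,[7])],[])],5),
  ([([(6,[11,9]),(5,[7,6])],[])],5), ([([(7,[11,9,7]),(4,[7])],[])],4),
  ([([(6,[11,9]),(4,[8])],[])],5), ([([(7,[11,9,8]),(3,[6])],[])],4), ([([(8,[11,9,8,7])],[])],3),
  ([([(8,[11,9,8,8])],[])],2), ([([(6,[11,9]),(4,[9])],[])],5), ([([(8,[11,9,9,6])],[])],3),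
  ([([(8,[11,9,9,7])],[])],2), ([([(10,[11,9,9,8])],[])],1), ([([(5,[11]),(4,[10])],[])],6),
  ([([(6,[11,10]),(4,[7])],[])],5), ([([(7,[11,10,7]),(3,[6])],[])],4),
  ([([(8,[11,10,7,7])],[])],3), ([([(6,[11,10]),(4,[8])],[])],5), ([([(8,[11,10,8,6])],[])],3),
  ([([(8,[11,10,8,7])],[])],2), ([([(10,[11,10,8,8])],[])],1), ([([(6,[11,10]),(4,[9])],[])],5),
  ([([(8,[11,10,9,6])],[])],2), ([([(10,[11,10,9,7])],[])],1), ([([(6,[11,10]),(4,[10])],[])],5),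
  ([([(10,[11,10,10,6])],[])],1), ([([(5,[11]),(5,[11])],[])],5),
  ([([(6,[11,6]),(5,[11])],[])],5), ([([(7,[11,11,6]),(3,[6])],[])],4),
  ([([(6,[11,7]),(5,[11])],[])],5), ([([(8,[11,11,7,6])],[])],3), ([([(8,[11,11,7,7])],[])],2),
  ([([(6,[11,8]),(5,[11])],[])],5), ([([(8,[11,11,8,6])],[])],2), ([([(10,[11,11,8,7])],[])],1),
  ([([(6,[11,9]),(5,[11])],[])],5), ([([(10,[11,11,9,6])],[])],1),
  ([([(6,[11,10]),(5,[11])],[])],5), ([([(8,[11,11,11])],[])],3), ([([(10,[11,11,11,4])],[])],1),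
  ([([(5,[12])],[])],6), ([([(6,[12,7])],[])],5), ([([(6,[12,7]),(3,[6])],[])],5),
  ([([(6,[12,7]),(5,[6,6])],[])],5), ([([(6,[12,7]),(5,[6,6])],[]),([(3,[6])],[3,2,1])],2),
  ([([(6,[12,7]),(4,[7])],[])],5), ([([(6,[12,7]),(5,[7,6])],[])],5),
  ([([(8,[12,7,7,6]),(3,[6])],[])],1), ([([(6,[12,7]),(5,[7,7])],[])],5), ([([(6,[12,8])],[])],5),
  ([([(6,[12,8]),(3,[6])],[])],5), ([([(6,[12,8]),(5,[6,6])],[])],5),
  ([([(8,[12,8,6,6]),(3,[6])],[])],1), ([([(5,[12]),(5,[8,7])],[])],6),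
  ([([(7,[12,8,7]),(4,[7])],[])],4), ([([(6,[12,8]),(4,[8])],[])],5),
  ([([(7,[12,8,8]),(3,[6])],[])],4), ([([(8,[12,8,8,7])],[])],3), ([([(8,[12,8,8,8])],[])],2),
  ([([(5,[12]),(4,[9])],[])],6), ([([(6,[12,9]),(4,[7])],[])],5),
  ([([(7,[12,9,7]),(3,[6])],[])],4), ([([(8,[12,9,7,7])],[])],3), ([([(6,[12,9]),(4,[8])],[])],5),
  ([([(8,[12,9,8,6])],[])],3), ([([(8,[12,9,8,7])],[])],2), ([([(10,[12,9,8,8])],[])],1),
  ([([(6,[12,9]),(4,[9])],[])],5), ([([(8,[12,9,9,6])],[])],2), ([([(10,[12,9,9,7])],[])],1),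
  ([([(5,[12]),(4,[10])],[])],6), ([([(6,[12,7]),(4,[10])],[])],5), ([([(8,[12,10,7,6])],[])],3),
  ([([(8,[12,10,7,7])],[])],2), ([([(6,[12,8]),(4,[10])],[])],5)]

def tr_11_1 : List (List (List (ℕ × List ℕ) × List ℕ) × ℕ) := [
  ([([(8,[12,10,8,6])],[])],2), ([([(10,[12,10,8,7])],[])],1), ([([(6,[12,9]),(4,[10])],[])],5),
  ([([(10,[12,10,9,6])],[])],1), ([([(6,[10,10]),(5,[12])],[])],5),
  ([([(5,[12]),(5,[11])],[])],5), ([([(6,[12,6]),(5,[11])],[])],5), ([([(8,[12,11,6,6])],[])],3),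
  ([([(6,[12,7]),(5,[11])],[])],5), ([([(8,[12,11,7,6])],[])],2), ([([(10,[12,11,7,7])],[])],1),
  ([([(6,[12,8]),(5,[11])],[])],5), ([([(10,[12,11,8,6])],[])],1),
  ([([(6,[12,9]),(5,[11])],[])],5), ([([(7,[12,11]),(4,[10])],[])],4),
  ([([(8,[12,11,11])],[])],3), ([([(5,[12]),(5,[12])],[])],5), ([([(6,[12,6]),(5,[12])],[])],5),
  ([([(8,[12,12,6,6])],[])],2), ([([(6,[12,7]),(5,[12])],[])],5), ([([(10,[12,12,7,6])],[])],1),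
  ([([(6,[12,8]),(5,[12])],[])],5), ([([(7,[12,12]),(4,[9])],[])],4), ([([(8,[12,12,10])],[])],3),
  ([([(8,[12,12,11])],[])],2), ([([(8,[12,12,12])],[])],1), ([([(5,[13])],[])],6),
  ([([(6,[13,7])],[])],5), ([([(6,[13,7]),(3,[6])],[])],5), ([([(6,[13,7]),(5,[6,6])],[])],5),
  ([([(8,[13,7,6,6]),(3,[6])],[])],1), ([([(5,[13]),(5,[7,7])],[])],6),
  ([([(7,[13,7,7]),(4,[7])],[])],4), ([([(5,[13]),(4,[8])],[])],6),
  ([([(5,[13]),(5,[8,7])],[])],6), ([([(8,[13,8,7,7])],[])],3), ([([(6,[13,8]),(4,[8])],[])],5),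
  ([([(8,[13,8,8,6])],[])],3), ([([(8,[13,8,8,7])],[])],2), ([([(10,[13,8,8,8])],[])],1),
  ([([(5,[13]),(4,[9])],[])],6), ([([(6,[13,7]),(4,[9])],[])],5), ([([(8,[13,9,7,6])],[])],3),
  ([([(8,[13,9,7,7])],[])],2), ([([(6,[13,8]),(4,[9])],[])],5), ([([(8,[13,9,8,6])],[])],2),
  ([([(10,[13,9,8,7])],[])],1), ([([(6,[9,9]),(5,[13])],[])],5), ([([(10,[13,9,9,6])],[])],1),
  ([([(5,[13]),(4,[10])],[])],6), ([([(6,[13,7]),(4,[10])],[])],5), ([([(8,[13,10,7,6])],[])],2),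
  ([([(10,[13,10,7,7])],[])],1), ([([(6,[13,8]),(4,[10])],[])],5), ([([(10,[13,10,8,6])],[])],1),
  ([([(6,[10,9]),(5,[13])],[])],5), ([([(7,[13,10]),(4,[10])],[])],4),
  ([([(5,[13]),(5,[11])],[])],5), ([([(6,[13,6]),(5,[11])],[])],5), ([([(8,[13,11,6,6])],[])],2),
  ([([(6,[13,7]),(5,[11])],[])],5), ([([(10,[13,11,7,6])],[])],1),
  ([([(6,[13,8]),(5,[11])],[])],5), ([([(7,[13,11]),(4,[9])],[])],4), ([([(8,[13,11,10])],[])],3),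
  ([([(8,[13,11,11])],[])],2), ([([(5,[13]),(5,[12])],[])],5), ([([(6,[13,6]),(5,[12])],[])],5),
  ([([(10,[13,12,6,6])],[])],1), ([([(6,[13,7]),(5,[12])],[])],5),
  ([([(7,[13,12]),(4,[8])],[])],4), ([([(8,[13,12,9])],[])],3), ([([(8,[13,12,10])],[])],2),
  ([([(8,[13,12,11])],[])],1), ([([(5,[13]),(5,[13])],[])],6), ([([(7,[13,13]),(4,[7])],[])],4),
  ([([(8,[13,13,8])],[])],3), ([([(8,[13,13,9])],[])],2), ([([(8,[13,13,10])],[])],1),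
  ([([(5,[14])],[])],6), ([([(5,[14]),(4,[7])],[])],6), ([([(5,[14]),(5,[7,7])],[])],6),
  ([([(8,[14,7,7,7])],[])],3), ([([(5,[14]),(4,[8])],[])],6), ([([(5,[14]),(5,[8,7])],[])],6),
  ([([(8,[14,8,7,7])],[])],2), ([([(9,[14,8,8])],[])],2), ([([(8,[14,8,8,3])],[])],3),
  ([([(7,[14,8,4]),(4,[8])],[])],4), ([([(8,[14,8,8,5])],[])],3), ([([(8,[14,8,8,6])],[])],2),
  ([([(10,[14,8,8,7])],[])],1), ([([(5,[14]),(4,[9])],[])],6), ([([(6,[14,7]),(4,[9])],[])],5),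
  ([([(8,[14,9,7,6])],[])],2), ([([(10,[14,9,7,7])],[])],1), ([([(6,[9,8]),(5,[14])],[])],5),
  ([([(10,[14,9,8,6])],[])],1), ([([(6,[9,9]),(5,[14])],[])],5), ([([(5,[14]),(4,[10])],[])],6)]

def tr_11_2 : List (List (List (ℕ × List ℕ) × List ℕ) × ℕ) := [
  ([([(6,[14,7]),(4,[10])],[])],5), ([([(10,[14,10,7,6])],[])],1),
  ([([(6,[10,8]),(5,[14])],[])],5), ([([(7,[14,10]),(4,[9])],[])],4), ([([(8,[14,10,10])],[])],3),
  ([([(5,[14]),(5,[11])],[])],5), ([([(6,[14,6]),(5,[11])],[])],5), ([([(10,[14,11,6,6])],[])],1),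
  ([([(6,[14,7]),(5,[11])],[])],5), ([([(7,[14,11]),(4,[8])],[])],4), ([([(8,[14,11,9])],[])],3),
  ([([(8,[14,11,10])],[])],2), ([([(8,[14,11,11])],[])],1), ([([(5,[14]),(5,[12])],[])],6),
  ([([(7,[14,12]),(4,[7])],[])],4), ([([(8,[14,12,8])],[])],3), ([([(8,[14,12,9])],[])],2),
  ([([(8,[14,12,10])],[])],1), ([([(5,[14]),(5,[13])],[])],6), ([([(8,[14,13,7])],[])],3),
  ([([(8,[14,13,8])],[])],2), ([([(8,[14,13,9])],[])],1), ([([(5,[14]),(5,[14])],[])],6),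
  ([([(8,[14,14,7])],[])],2), ([([(8,[14,14,8])],[])],1), ([([(5,[15])],[])],6),
  ([([(5,[15]),(4,[7])],[])],6), ([([(5,[15]),(5,[7,7])],[])],6), ([([(8,[15,7,7,7])],[])],2),
  ([([(5,[15]),(4,[8])],[])],6), ([([(5,[15]),(5,[8,7])],[])],6), ([([(10,[15,8,7,7])],[])],1),
  ([([(7,[15,8]),(4,[8])],[])],4), ([([(8,[15,8,8,5])],[])],2), ([([(10,[15,8,8,6])],[])],1),
  ([([(5,[15]),(4,[9])],[])],6), ([([(7,[15,9]),(4,[7])],[])],4), ([([(8,[15,9,7,5])],[])],2),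
  ([([(10,[15,9,7,6])],[])],1), ([([(6,[9,8]),(5,[15])],[])],5), ([([(7,[15,9]),(4,[9])],[])],4),
  ([([(5,[15]),(4,[10])],[])],6), ([([(6,[10,7]),(5,[15])],[])],5),
  ([([(7,[15,10]),(4,[8])],[])],4), ([([(8,[15,10,9])],[])],3), ([([(8,[15,10,10])],[])],2),
  ([([(5,[15]),(5,[11])],[])],6), ([([(7,[15,11]),(4,[7])],[])],4), ([([(8,[15,11,8])],[])],3),
  ([([(8,[15,11,9])],[])],2), ([([(8,[15,11,10])],[])],1), ([([(5,[15]),(5,[12])],[])],6),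
  ([([(8,[15,12,7])],[])],3), ([([(8,[15,12,8])],[])],2), ([([(8,[15,12,9])],[])],1),
  ([([(5,[15]),(5,[13])],[])],6), ([([(8,[15,13,7])],[])],2), ([([(8,[15,13,8])],[])],1),
  ([([(5,[15]),(5,[14])],[])],6), ([([(8,[15,14,7])],[])],1), ([([(5,[15]),(5,[15])],[])],6),
  ([([(6,[16])],[])],5), ([([(6,[16]),(3,[6])],[])],5), ([([(6,[16]),(5,[6,6])],[])],5),
  ([([(7,[16,6,6]),(3,[6])],[])],4), ([([(6,[16]),(4,[7])],[])],5),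
  ([([(6,[16]),(5,[7,6])],[])],5), ([([(8,[16,7,6,6])],[])],3), ([([(6,[16]),(5,[7,7])],[])],5),
  ([([(8,[16,7,7,6])],[])],2), ([([(10,[16,7,7,7])],[])],1), ([([(6,[16]),(4,[8])],[])],5),
  ([([(6,[16]),(5,[8,6])],[])],5), ([([(8,[16,8,6,6])],[])],2), ([([(6,[16]),(5,[8,7])],[])],5),
  ([([(10,[16,8,7,6])],[])],1), ([([(7,[16,8]),(4,[8])],[])],4), ([([(10,[16,8,8,5])],[])],1),
  ([([(6,[16]),(4,[9])],[])],5), ([([(6,[16]),(5,[9,6])],[])],5), ([([(10,[16,9,6,6])],[])],1),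
  ([([(7,[16,9]),(4,[7])],[])],4), ([([(10,[16,9,7,5])],[])],1), ([([(7,[16,9]),(4,[8])],[])],4),
  ([([(8,[16,9,9])],[])],3), ([([(6,[16]),(4,[10])],[])],5), ([([(7,[16,10]),(3,[6])],[])],4),
  ([([(10,[16,10,6,5])],[])],1), ([([(7,[16,10]),(4,[7])],[])],4), ([([(8,[16,10,8])],[])],3),
  ([([(8,[16,10,9])],[])],2), ([([(8,[16,10,10])],[])],1), ([([(6,[16]),(5,[11])],[])],5),
  ([([(7,[16,11]),(3,[6])],[])],4), ([([(8,[16,11,7])],[])],3), ([([(8,[16,11,8])],[])],2),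
  ([([(8,[16,11,9])],[])],1), ([([(6,[16]),(5,[12])],[])],5), ([([(8,[16,12,6])],[])],3),
  ([([(8,[16,12,7])],[])],2)]

def tr_11_3 : List (List (List (ℕ × List ℕ) × List ℕ) × ℕ) := [
  ([([(8,[16,12,8])],[])],1), ([([(6,[16]),(5,[13])],[])],5), ([([(8,[16,13,6])],[])],2),
  ([([(8,[16,13,7])],[])],1), ([([(6,[16]),(5,[14])],[])],5), ([([(8,[16,14,6])],[])],1),
  ([([(6,[16]),(5,[15])],[])],5), ([([(8,[16,16])],[])],3), ([([(8,[16,16,4])],[])],1),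
  ([([(6,[17])],[])],5), ([([(6,[17]),(3,[6])],[])],5), ([([(6,[17]),(5,[6,6])],[])],5),
  ([([(8,[17,6,6,6])],[])],3), ([([(6,[17]),(4,[7])],[])],5), ([([(6,[17]),(5,[7,6])],[])],5),
  ([([(8,[17,7,6,6])],[])],2), ([([(6,[17]),(5,[7,7])],[])],5), ([([(10,[17,7,7,6])],[])],1),
  ([([(6,[17]),(4,[8])],[])],5), ([([(6,[17]),(5,[8,6])],[])],5), ([([(10,[17,8,6,6])],[])],1),
  ([([(6,[17]),(5,[8,7])],[])],5), ([([(7,[17,8]),(4,[8])],[])],4), ([([(6,[17]),(4,[9])],[])],5),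
  ([([(6,[17]),(5,[9,6])],[])],5), ([([(7,[17,9]),(4,[7])],[])],4), ([([(8,[17,9,8])],[])],3),
  ([([(8,[17,9,9])],[])],2), ([([(6,[17]),(4,[10])],[])],5), ([([(7,[17,10]),(3,[6])],[])],4),
  ([([(8,[17,10,7])],[])],3), ([([(8,[17,10,8])],[])],2), ([([(8,[17,10,9])],[])],1),
  ([([(6,[17]),(5,[11])],[])],5), ([([(8,[17,11,6])],[])],3), ([([(8,[17,11,7])],[])],2),
  ([([(8,[17,11,8])],[])],1), ([([(6,[17]),(5,[12])],[])],5), ([([(8,[17,12,6])],[])],2),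
  ([([(8,[17,12,7])],[])],1), ([([(6,[17]),(5,[13])],[])],5), ([([(8,[17,13,6])],[])],1),
  ([([(6,[17]),(5,[14])],[])],5), ([([(6,[17]),(5,[15])],[])],4), ([([(8,[17,16])],[])],3),
  ([([(8,[17,17])],[])],2), ([([(6,[18])],[])],5), ([([(6,[18]),(3,[6])],[])],5),
  ([([(6,[18]),(5,[6,6])],[])],5), ([([(8,[18,6,6,6])],[])],2), ([([(6,[18]),(4,[7])],[])],5),
  ([([(6,[18]),(5,[7,6])],[])],5), ([([(10,[18,7,6,6])],[])],1), ([([(6,[18]),(5,[7,7])],[])],5),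
  ([([(6,[18]),(4,[8])],[])],5), ([([(6,[18]),(5,[8,6])],[])],5), ([([(7,[18,8]),(4,[7])],[])],4),
  ([([(8,[18,8,8])],[])],3), ([([(6,[18]),(4,[9])],[])],5), ([([(7,[18,9]),(3,[6])],[])],4),
  ([([(8,[18,9,7])],[])],3), ([([(8,[18,9,8])],[])],2), ([([(8,[18,9,9])],[])],1),
  ([([(6,[18]),(4,[10])],[])],5), ([([(8,[18,10,6])],[])],3), ([([(8,[18,10,7])],[])],2),
  ([([(8,[18,10,8])],[])],1), ([([(6,[18]),(5,[11])],[])],5), ([([(8,[18,11,6])],[])],2),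
  ([([(8,[18,11,7])],[])],1), ([([(6,[18]),(5,[12])],[])],5), ([([(8,[18,12,6])],[])],1),
  ([([(6,[18]),(5,[13])],[])],5), ([([(6,[18]),(5,[14])],[])],4), ([([(8,[18,15])],[])],3),
  ([([(8,[18,16])],[])],2), ([([(8,[18,17])],[])],1), ([([(6,[19])],[])],5),
  ([([(6,[19]),(3,[6])],[])],5), ([([(6,[19]),(5,[6,6])],[])],5), ([([(10,[19,6,6,6])],[])],1),
  ([([(6,[19]),(4,[7])],[])],5), ([([(6,[19]),(5,[7,6])],[])],5), ([([(7,[19,7]),(4,[7])],[])],4),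
  ([([(6,[19]),(4,[8])],[])],5), ([([(7,[19,8]),(3,[6])],[])],4), ([([(8,[19,8,7])],[])],3),
  ([([(8,[19,8,8])],[])],2), ([([(6,[19]),(4,[9])],[])],5), ([([(8,[19,9,6])],[])],3),
  ([([(8,[19,9,7])],[])],2), ([([(8,[19,9,8])],[])],1), ([([(6,[19]),(4,[10])],[])],5),
  ([([(8,[19,10,6])],[])],2), ([([(8,[19,10,7])],[])],1), ([([(6,[19]),(5,[11])],[])],5),
  ([([(8,[19,11,6])],[])],1), ([([(6,[19]),(5,[12])],[])],5), ([([(6,[19]),(5,[13])],[])],4),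
  ([([(8,[19,14])],[])],3)]

def tr_11_4 : List (List (List (ℕ × List ℕ) × List ℕ) × ℕ) := [
  ([([(8,[19,15])],[])],2), ([([(8,[19,16])],[])],1), ([([(6,[20])],[])],5),
  ([([(6,[20]),(3,[6])],[])],5), ([([(6,[20]),(5,[6,6])],[])],5), ([([(6,[20]),(4,[7])],[])],5),
  ([([(7,[20,7]),(3,[6])],[])],4), ([([(8,[20,7,7])],[])],3), ([([(6,[20]),(4,[8])],[])],5),
  ([([(8,[20,8,6])],[])],3), ([([(8,[20,8,7])],[])],2), ([([(8,[20,8,8])],[])],1),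
  ([([(6,[20]),(4,[9])],[])],5), ([([(8,[20,9,6])],[])],2), ([([(8,[20,9,7])],[])],1),
  ([([(6,[20]),(4,[10])],[])],5), ([([(8,[20,10,6])],[])],1), ([([(6,[20]),(5,[11])],[])],5),
  ([([(6,[20]),(5,[12])],[])],4), ([([(8,[20,13])],[])],3), ([([(8,[20,14])],[])],2),
  ([([(8,[20,15])],[])],1), ([([(6,[21])],[])],5), ([([(6,[21]),(3,[6])],[])],5),
  ([([(7,[21,6]),(3,[6])],[])],4), ([([(6,[21]),(4,[7])],[])],5), ([([(8,[21,7,6])],[])],3),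
  ([([(8,[21,7,7])],[])],2), ([([(6,[21]),(4,[8])],[])],5), ([([(8,[21,8,6])],[])],2),
  ([([(8,[21,8,7])],[])],1), ([([(6,[21]),(4,[9])],[])],5), ([([(8,[21,9,6])],[])],1),
  ([([(6,[21]),(4,[10])],[])],5), ([([(6,[21]),(5,[11])],[])],4), ([([(8,[21,12])],[])],3),
  ([([(8,[21,13])],[])],2), ([([(8,[21,14])],[])],1), ([([(7,[22])],[])],4),
  ([([(7,[22,5])],[])],4), ([([(7,[22,5]),(3,[5])],[])],4), ([([(10,[22,5,5,5])],[])],1),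
  ([([(7,[22,6])],[])],4), ([([(7,[22,6]),(3,[5])],[])],4), ([([(8,[22,6,6])],[])],3),
  ([([(7,[22]),(4,[7])],[])],4), ([([(8,[22,7,5])],[])],3), ([([(8,[22,7,6])],[])],2),
  ([([(8,[22,7,7])],[])],1), ([([(7,[22]),(4,[8])],[])],4), ([([(8,[22,8,5])],[])],2),
  ([([(8,[22,8,6])],[])],1), ([([(7,[22]),(4,[9])],[])],4), ([([(8,[22,9,5])],[])],1),
  ([([(7,[22]),(4,[10])],[])],4), ([([(8,[22,11])],[])],3), ([([(8,[22,12])],[])],2),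
  ([([(8,[22,13])],[])],1), ([([(7,[23])],[])],4), ([([(7,[23,5])],[])],4),
  ([([(7,[23,5]),(3,[5])],[])],4), ([([(7,[23]),(3,[6])],[])],4), ([([(8,[23,6,5])],[])],3),
  ([([(8,[23,6,6])],[])],2), ([([(7,[23]),(4,[7])],[])],4), ([([(8,[23,7,5])],[])],2),
  ([([(8,[23,7,6])],[])],1), ([([(7,[23]),(4,[8])],[])],4), ([([(8,[23,8,5])],[])],1),
  ([([(7,[23]),(4,[9])],[])],4), ([([(8,[23,10])],[])],3), ([([(8,[23,11])],[])],2),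
  ([([(8,[23,12])],[])],1), ([([(7,[24])],[])],4), ([([(7,[24]),(3,[5])],[])],4),
  ([([(8,[24,5,5])],[])],3), ([([(7,[24]),(3,[6])],[])],4), ([([(8,[24,6,5])],[])],2),
  ([([(8,[24,6,6])],[])],1), ([([(7,[24]),(4,[7])],[])],4), ([([(8,[24,7,5])],[])],1),
  ([([(7,[24]),(4,[8])],[])],4), ([([(8,[24,9])],[])],3), ([([(8,[24,10])],[])],2),
  ([([(8,[24,11])],[])],1), ([([(7,[25])],[])],4), ([([(7,[25]),(3,[5])],[])],4),
  ([([(8,[25,5,5])],[])],2), ([([(7,[25]),(3,[6])],[])],4), ([([(8,[25,6,5])],[])],1),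
  ([([(7,[25]),(4,[7])],[])],4), ([([(8,[25,8])],[])],3), ([([(8,[25,9])],[])],2),
  ([([(8,[25,10])],[])],1), ([([(7,[26])],[])],4), ([([(7,[26]),(3,[5])],[])],4),
  ([([(8,[26,5,5])],[])],1), ([([(7,[26]),(3,[6])],[])],4), ([([(8,[26,7])],[])],3),
  ([([(8,[26,8])],[])],2)]

def tr_11_5 : List (List (List (ℕ × List ℕ) × List ℕ) × ℕ) := [
  ([([(8,[26,9])],[])],1), ([([(7,[27])],[])],4), ([([(7,[27]),(3,[5])],[])],4),
  ([([(8,[27,6])],[])],3), ([([(8,[27,7])],[])],2), ([([(8,[27,8])],[])],1),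
  ([([(7,[28])],[])],4), ([([(8,[28,5])],[])],3), ([([(8,[28,6])],[])],2),
  ([([(8,[28,7])],[])],1), ([([(8,[29])],[])],3), ([([(8,[29,4])],[])],3),
  ([([(8,[29,5])],[])],2), ([([(8,[29,6])],[])],1), ([([(8,[30])],[])],3),
  ([([(8,[30,4])],[])],2), ([([(8,[30,5])],[])],1), ([([(8,[31])],[])],3),
  ([([(8,[31,4])],[])],1), ([([(8,[32])],[])],3), ([([(8,[33])],[])],2), ([([(8,[34])],[])],1)]

def tr_11 : List (List (List (ℕ × List ℕ) × List ℕ) × ℕ) :=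
  tr_11_0 ++ tr_11_1 ++ tr_11_2 ++ tr_11_3 ++ tr_11_4 ++ tr_11_5

theorem kc_11 : KC 11 33 := kc_of_tree tr_11 (by decide +kernel)

def tr_12_0 : List (List (List (ℕ × List ℕ) × List ℕ) × ℕ) := [
  ([],10), ([([(5,[11])],[])],7), ([([(6,[11,8])],[])],6), ([([(6,[11,8]),(4,[7])],[])],6),
  ([([(6,[11,8]),(5,[7,7])],[])],6), ([([(7,[11,8,7]),(5,[7,7])],[])],5),
  ([([(6,[11,8]),(4,[8])],[])],6), ([([(6,[11,8]),(5,[8,7])],[])],6),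
  ([([(8,[11,8,8,7]),(4,[7])],[])],4), ([([(7,[11,8,8]),(4,[8])],[])],5),
  ([([(8,[11,8,8,8]),(3,[6])],[])],4), ([([(9,[11,8,8,8,7])],[])],3),
  ([([(9,[11,8,8,8,8])],[])],2), ([([(6,[11,9])],[])],6), ([([(6,[11,9]),(4,[7])],[])],6),
  ([([(6,[11,9]),(5,[7,7])],[])],6), ([([(8,[11,9,7,7]),(4,[7])],[])],4),
  ([([(6,[11,9]),(4,[8])],[])],6), ([([(6,[11,9]),(5,[8,7])],[])],6),
  ([([(9,[11,9,8,7,7])],[])],3), ([([(6,[11,8]),(6,[9,8])],[])],6), ([([(9,[11,9,8,8,7])],[])],2),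
  ([([(9,[11,9,8,8,8])],[])],1), ([([(6,[11,9]),(4,[9])],[])],6),
  ([([(6,[11,7]),(6,[9,9])],[])],6), ([([(9,[11,9,9,7,7])],[])],2),
  ([([(6,[11,9]),(6,[9,8])],[])],6), ([([(9,[11,9,9,8,7])],[])],1),
  ([([(6,[11,9]),(6,[9,9])],[])],6), ([([(6,[11,10])],[])],6), ([([(6,[11,10]),(4,[7])],[])],6),
  ([([(6,[11,10]),(5,[7,7])],[])],6), ([([(9,[11,10,7,7,7])],[])],3),
  ([([(6,[11,10]),(4,[8])],[])],6), ([([(6,[11,10]),(5,[8,7])],[])],6),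
  ([([(9,[11,10,8,7,7])],[])],2), ([([(6,[11,8]),(6,[10,8])],[])],6),
  ([([(9,[11,10,8,8,7])],[])],1), ([([(6,[11,10]),(4,[9])],[])],6),
  ([([(6,[11,9]),(6,[10,7])],[])],6), ([([(9,[11,10,9,7,7])],[])],1),
  ([([(6,[11,10]),(6,[9,8])],[])],6), ([([(6,[11,10]),(6,[9,9])],[])],5),
  ([([(6,[11,10]),(4,[10])],[])],6), ([([(6,[11,10]),(6,[10,7])],[])],6),
  ([([(6,[11,10]),(6,[10,8])],[])],5), ([([(8,[11,10,10]),(4,[9])],[])],4),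
  ([([(9,[11,10,10,10])],[])],3), ([([(5,[11]),(5,[11])],[])],6),
  ([([(6,[11,7]),(5,[11])],[])],6), ([([(6,[11,7]),(6,[11,7])],[])],6),
  ([([(9,[11,11,7,7,7])],[])],2), ([([(6,[11,8]),(5,[11])],[])],6),
  ([([(6,[11,8]),(6,[11,7])],[])],6), ([([(9,[11,11,8,7,7])],[])],1),
  ([([(6,[11,8]),(6,[11,8])],[])],6), ([([(6,[11,9]),(5,[11])],[])],6),
  ([([(6,[11,9]),(6,[11,7])],[])],6), ([([(7,[11,9,8]),(5,[11])],[])],5),
  ([([(8,[11,11,9]),(4,[9])],[])],4), ([([(6,[11,10]),(5,[11])],[])],6),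
  ([([(7,[11,10,7]),(5,[11])],[])],5), ([([(8,[11,11,10]),(4,[8])],[])],4),
  ([([(9,[11,11,10,9])],[])],3), ([([(9,[11,11,10,10])],[])],2), ([([(8,[11,11,11])],[])],4),
  ([([(7,[11,11,5]),(5,[11])],[])],5), ([([(7,[11,11,6]),(5,[11])],[])],5),
  ([([(8,[11,11,11]),(4,[7])],[])],4), ([([(9,[11,11,11,8])],[])],3),
  ([([(9,[11,11,11,9])],[])],2), ([([(9,[11,11,11,10])],[])],1), ([([(5,[12])],[])],7),
  ([([(6,[12,8])],[])],6), ([([(6,[12,8]),(4,[7])],[])],6), ([([(6,[12,8]),(5,[7,7])],[])],6),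
  ([([(8,[12,8,7,7]),(4,[7])],[])],4), ([([(6,[12,8]),(4,[8])],[])],6),
  ([([(6,[12,8]),(5,[8,7])],[])],6), ([([(9,[12,8,8,7,7])],[])],3),
  ([([(7,[12,8,8]),(4,[8])],[])],5), ([([(9,[12,8,8,8,6])],[])],3), ([([(9,[12,8,8,8,7])],[])],2),
  ([([(9,[12,8,8,8,8])],[])],1), ([([(6,[12,9])],[])],6), ([([(6,[12,9]),(4,[7])],[])],6),
  ([([(6,[12,9]),(5,[7,7])],[])],6), ([([(9,[12,9,7,7,7])],[])],3),
  ([([(6,[12,9]),(4,[8])],[])],6), ([([(6,[12,9]),(5,[8,7])],[])],6),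
  ([([(9,[12,9,8,7,7])],[])],2), ([([(6,[12,8]),(6,[9,8])],[])],6), ([([(9,[12,9,8,8,7])],[])],1),
  ([([(6,[12,9]),(4,[9])],[])],6), ([([(6,[12,7]),(6,[9,9])],[])],6),
  ([([(9,[12,9,9,7,7])],[])],1), ([([(6,[12,9]),(6,[9,8])],[])],6),
  ([([(6,[12,9]),(6,[9,9])],[])],5), ([([(5,[12]),(4,[10])],[])],6),
  ([([(6,[12,7]),(4,[10])],[])],6)]

def tr_12_1 : List (List (List (ℕ × List ℕ) × List ℕ) × ℕ) := [
  ([([(6,[12,7]),(6,[10,7])],[])],6), ([([(9,[12,10,7,7,7])],[])],2),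
  ([([(6,[12,8]),(4,[10])],[])],6), ([([(6,[12,8]),(6,[10,7])],[])],6),
  ([([(9,[12,10,8,7,7])],[])],1), ([([(6,[12,8]),(6,[10,8])],[])],6),
  ([([(6,[12,9]),(4,[10])],[])],6), ([([(6,[12,9]),(6,[10,7])],[])],6),
  ([([(6,[12,9]),(6,[10,8])],[])],5), ([([(8,[12,10,9]),(4,[9])],[])],4),
  ([([(6,[10,10]),(5,[12])],[])],6), ([([(6,[12,7]),(6,[10,10])],[])],5),
  ([([(8,[12,10,10]),(4,[8])],[])],4), ([([(9,[12,10,10,9])],[])],3),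
  ([([(9,[12,10,10,10])],[])],2), ([([(5,[12]),(5,[11])],[])],6),
  ([([(6,[12,7]),(5,[11])],[])],6), ([([(6,[12,7]),(6,[11,7])],[])],6),
  ([([(9,[12,11,7,7,7])],[])],1), ([([(6,[12,8]),(5,[11])],[])],6),
  ([([(6,[12,8]),(6,[11,7])],[])],6), ([([(7,[12,8,8]),(5,[11])],[])],5),
  ([([(6,[12,9]),(5,[11])],[])],6), ([([(7,[12,9,7]),(5,[11])],[])],5),
  ([([(8,[12,11,9]),(4,[8])],[])],4), ([([(9,[12,11,9,9])],[])],3),
  ([([(6,[11,10]),(5,[12])],[])],6), ([([(8,[12,11,10]),(4,[7])],[])],4),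
  ([([(9,[12,11,10,8])],[])],3), ([([(9,[12,11,10,9])],[])],2), ([([(9,[12,11,10,10])],[])],1),
  ([([(7,[12,11]),(5,[11])],[])],5), ([([(8,[12,11,11]),(3,[6])],[])],4),
  ([([(9,[12,11,11,7])],[])],3), ([([(9,[12,11,11,8])],[])],2), ([([(9,[12,11,11,9])],[])],1),
  ([([(5,[12]),(5,[12])],[])],6), ([([(6,[12,7]),(5,[12])],[])],6),
  ([([(6,[12,7]),(6,[12,7])],[])],6), ([([(6,[12,8]),(5,[12])],[])],6),
  ([([(7,[12,12]),(5,[8,7])],[])],5), ([([(8,[12,12,8]),(4,[8])],[])],4),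
  ([([(6,[12,9]),(5,[12])],[])],6), ([([(8,[12,12,9]),(4,[7])],[])],4),
  ([([(9,[12,12,9,8])],[])],3), ([([(9,[12,12,9,9])],[])],2), ([([(7,[12,12]),(4,[10])],[])],5),
  ([([(8,[12,12,10]),(3,[6])],[])],4), ([([(9,[12,12,10,7])],[])],3),
  ([([(9,[12,12,10,8])],[])],2), ([([(9,[12,12,10,9])],[])],1), ([([(7,[12,12]),(5,[11])],[])],5),
  ([([(9,[12,12,11,6])],[])],3), ([([(9,[12,12,11,7])],[])],2), ([([(9,[12,12,11,8])],[])],1),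
  ([([(7,[12,12]),(5,[12])],[])],5), ([([(9,[12,12,12,6])],[])],2), ([([(9,[12,12,12,7])],[])],1),
  ([([(5,[13])],[])],7), ([([(6,[13,8])],[])],6), ([([(6,[13,8]),(4,[7])],[])],6),
  ([([(6,[13,8]),(5,[7,7])],[])],6), ([([(9,[13,8,7,7,7])],[])],3),
  ([([(6,[13,8]),(4,[8])],[])],6), ([([(6,[13,8]),(5,[8,7])],[])],6),
  ([([(9,[13,8,8,7,7])],[])],2), ([([(7,[8,8,8]),(5,[13])],[])],5), ([([(9,[13,8,8,8,6])],[])],2),
  ([([(9,[13,8,8,8,7])],[])],1), ([([(5,[13]),(4,[9])],[])],6), ([([(6,[13,7]),(4,[9])],[])],6),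
  ([([(7,[13,7,7]),(4,[9])],[])],5), ([([(9,[13,9,7,7,6])],[])],3), ([([(9,[13,9,7,7,7])],[])],2),
  ([([(6,[13,8]),(4,[9])],[])],6), ([([(6,[13,7]),(6,[9,8])],[])],6),
  ([([(9,[13,9,8,7,7])],[])],1), ([([(6,[13,8]),(6,[9,8])],[])],6),
  ([([(6,[9,9]),(5,[13])],[])],6), ([([(6,[13,7]),(6,[9,9])],[])],6),
  ([([(6,[13,8]),(6,[9,9])],[])],5), ([([(8,[13,9,9]),(4,[9])],[])],4),
  ([([(5,[13]),(4,[10])],[])],6), ([([(6,[13,7]),(4,[10])],[])],6),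
  ([([(6,[13,7]),(6,[10,7])],[])],6), ([([(9,[13,10,7,7,7])],[])],1),
  ([([(6,[13,8]),(4,[10])],[])],6), ([([(6,[13,8]),(6,[10,7])],[])],6),
  ([([(6,[13,8]),(6,[10,8])],[])],5), ([([(6,[10,9]),(5,[13])],[])],6),
  ([([(6,[13,7]),(6,[10,9])],[])],5), ([([(8,[13,10,9]),(4,[8])],[])],4),
  ([([(9,[13,10,9,9])],[])],3), ([([(6,[10,10]),(5,[13])],[])],6),
  ([([(8,[13,10,10]),(4,[7])],[])],4), ([([(9,[13,10,10,8])],[])],3),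
  ([([(9,[13,10,10,9])],[])],2), ([([(9,[13,10,10,10])],[])],1), ([([(5,[13]),(5,[11])],[])],6),
  ([([(6,[13,7]),(5,[11])],[])],6)]

def tr_12_2 : List (List (List (ℕ × List ℕ) × List ℕ) × ℕ) := [
  ([([(6,[13,7]),(6,[11,7])],[])],6), ([([(6,[13,8]),(5,[11])],[])],6),
  ([([(7,[13,11]),(5,[8,7])],[])],5), ([([(8,[13,11,8]),(4,[8])],[])],4),
  ([([(6,[11,9]),(5,[13])],[])],6), ([([(8,[13,11,9]),(4,[7])],[])],4),
  ([([(9,[13,11,9,8])],[])],3), ([([(9,[13,11,9,9])],[])],2), ([([(6,[11,10]),(5,[13])],[])],6),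
  ([([(9,[13,11,10,7])],[])],3), ([([(9,[13,11,10,8])],[])],2), ([([(9,[13,11,10,9])],[])],1),
  ([([(7,[13,11]),(5,[11])],[])],5), ([([(9,[13,11,11,6])],[])],3), ([([(9,[13,11,11,7])],[])],2),
  ([([(9,[13,11,11,8])],[])],1), ([([(5,[13]),(5,[12])],[])],6), ([([(6,[13,7]),(5,[12])],[])],6),
  ([([(7,[13,12]),(5,[7,7])],[])],5), ([([(6,[13,8]),(5,[12])],[])],6),
  ([([(8,[13,12,8]),(4,[7])],[])],4), ([([(9,[13,12,8,8])],[])],3),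
  ([([(6,[12,9]),(5,[13])],[])],6), ([([(9,[13,12,9,7])],[])],3), ([([(9,[13,12,9,8])],[])],2),
  ([([(9,[13,12,9,9])],[])],1), ([([(7,[13,12]),(4,[10])],[])],5), ([([(9,[13,12,10,6])],[])],3),
  ([([(9,[13,12,10,7])],[])],2), ([([(9,[13,12,10,8])],[])],1), ([([(7,[13,12]),(5,[11])],[])],5),
  ([([(9,[13,12,11,6])],[])],2), ([([(9,[13,12,11,7])],[])],1), ([([(7,[13,12]),(5,[12])],[])],5),
  ([([(9,[13,12,12,6])],[])],1), ([([(5,[13]),(5,[13])],[])],6), ([([(6,[13,7]),(5,[13])],[])],6),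
  ([([(8,[13,13,7]),(4,[7])],[])],4), ([([(6,[13,8]),(5,[13])],[])],6),
  ([([(9,[13,13,8,7])],[])],3), ([([(9,[13,13,8,8])],[])],2), ([([(7,[13,13]),(4,[9])],[])],5),
  ([([(9,[13,13,9,6])],[])],3), ([([(9,[13,13,9,7])],[])],2), ([([(9,[13,13,9,8])],[])],1),
  ([([(7,[13,13]),(4,[10])],[])],5), ([([(9,[13,13,10,6])],[])],2), ([([(9,[13,13,10,7])],[])],1),
  ([([(7,[13,13]),(5,[11])],[])],5), ([([(9,[13,13,11,6])],[])],1),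
  ([([(7,[13,13]),(5,[12])],[])],5), ([([(7,[13,13]),(5,[13])],[])],4), ([([(5,[14])],[])],7),
  ([([(5,[14]),(4,[8])],[])],6), ([([(6,[14,7]),(4,[8])],[])],6),
  ([([(6,[14,7]),(5,[8,7])],[])],6), ([([(9,[14,8,7,7,7])],[])],2),
  ([([(7,[8,8]),(5,[14])],[])],5), ([([(7,[14,8,6]),(4,[8])],[])],5),
  ([([(9,[14,8,8,6,6])],[])],3), ([([(5,[14]),(5,[8,7])],[]),([(4,[8])],[3,2,1])],3),
  ([([(8,[14,8,8,4]),(4,[7])],[])],4), ([([(9,[14,8,8,7,5])],[])],3),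
  ([([(9,[14,8,8,7,6])],[])],2), ([([(9,[14,8,8,7,7])],[])],1), ([([(7,[8,8,8]),(5,[14])],[])],5),
  ([([(9,[14,8,8,8,6])],[])],1), ([([(5,[14]),(4,[9])],[])],6), ([([(6,[14,7]),(4,[9])],[])],6),
  ([([(7,[14,9]),(5,[7,7])],[])],5), ([([(9,[14,9,7,7,6])],[])],2), ([([(9,[14,9,7,7,7])],[])],1),
  ([([(6,[9,8]),(5,[14])],[])],6), ([([(6,[14,7]),(6,[9,8])],[])],6),
  ([([(7,[9,8,8]),(5,[14])],[])],5), ([([(6,[9,9]),(5,[14])],[])],6),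
  ([([(6,[14,7]),(6,[9,9])],[])],5), ([([(8,[14,9,9]),(4,[8])],[])],4),
  ([([(9,[14,9,9,9])],[])],3), ([([(5,[14]),(4,[10])],[])],7), ([([(6,[10,8]),(5,[14])],[])],6),
  ([([(7,[14,10]),(5,[8,7])],[])],5), ([([(8,[14,10,8]),(4,[8])],[])],4),
  ([([(6,[10,9]),(5,[14])],[])],6), ([([(8,[14,10,9]),(4,[7])],[])],4),
  ([([(9,[14,10,9,8])],[])],3), ([([(9,[14,10,9,9])],[])],2), ([([(6,[10,10]),(5,[14])],[])],6),
  ([([(9,[14,10,10,7])],[])],3), ([([(9,[14,10,10,8])],[])],2), ([([(9,[14,10,10,9])],[])],1),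
  ([([(5,[14]),(5,[11])],[])],6), ([([(6,[14,7]),(5,[11])],[])],6),
  ([([(7,[14,11]),(5,[7,7])],[])],5), ([([(6,[11,8]),(5,[14])],[])],6),
  ([([(8,[14,11,8]),(4,[7])],[])],4), ([([(9,[14,11,8,8])],[])],3),
  ([([(6,[11,9]),(5,[14])],[])],6), ([([(9,[14,11,9,7])],[])],3), ([([(9,[14,11,9,8])],[])],2)]

def tr_12_3 : List (List (List (ℕ × List ℕ) × List ℕ) × ℕ) := [
  ([([(9,[14,11,9,9])],[])],1), ([([(6,[11,10]),(5,[14])],[])],6), ([([(9,[14,11,10,7])],[])],2),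
  ([([(9,[14,11,10,8])],[])],1), ([([(7,[14,11]),(5,[11])],[])],5), ([([(9,[14,11,11,6])],[])],2),
  ([([(9,[14,11,11,7])],[])],1), ([([(5,[14]),(5,[12])],[])],6), ([([(6,[14,7]),(5,[12])],[])],6),
  ([([(8,[14,12,7]),(4,[7])],[])],4), ([([(6,[12,8]),(5,[14])],[])],6),
  ([([(9,[14,12,8,7])],[])],3), ([([(9,[14,12,8,8])],[])],2), ([([(6,[12,9]),(5,[14])],[])],6),
  ([([(9,[14,12,9,7])],[])],2), ([([(9,[14,12,9,8])],[])],1), ([([(7,[14,12]),(4,[10])],[])],5),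
  ([([(9,[14,12,10,6])],[])],2), ([([(9,[14,12,10,7])],[])],1), ([([(7,[14,12]),(5,[11])],[])],5),
  ([([(9,[14,12,11,6])],[])],1), ([([(7,[14,12]),(5,[12])],[])],5),
  ([([(5,[14]),(5,[13])],[])],6), ([([(6,[14,7]),(5,[13])],[])],6), ([([(9,[14,13,7,7])],[])],3),
  ([([(6,[13,8]),(5,[14])],[])],6), ([([(9,[14,13,8,7])],[])],2), ([([(9,[14,13,8,8])],[])],1),
  ([([(7,[14,13]),(4,[9])],[])],5), ([([(9,[14,13,9,6])],[])],2), ([([(9,[14,13,9,7])],[])],1),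
  ([([(7,[14,13]),(4,[10])],[])],5), ([([(9,[14,13,10,6])],[])],1),
  ([([(7,[14,13]),(5,[11])],[])],5), ([([(7,[14,13]),(5,[12])],[])],4),
  ([([(9,[14,13,13])],[])],3), ([([(5,[14]),(5,[14])],[])],6), ([([(6,[14,7]),(5,[14])],[])],6),
  ([([(9,[14,14,7,7])],[])],2), ([([(7,[14,14]),(4,[8])],[])],5), ([([(9,[14,14,8,6])],[])],2),
  ([([(9,[14,14,8,7])],[])],1), ([([(7,[14,14]),(4,[9])],[])],5), ([([(9,[14,14,9,6])],[])],1),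
  ([([(7,[14,14]),(4,[10])],[])],5), ([([(7,[14,14]),(5,[11])],[])],4),
  ([([(9,[14,14,12])],[])],3), ([([(9,[14,14,13])],[])],2), ([([(9,[14,14,14])],[])],1),
  ([([(5,[15])],[])],7), ([([(5,[15]),(4,[8])],[])],6), ([([(5,[15]),(5,[8,7])],[])],6),
  ([([(7,[15,8]),(5,[7,7])],[])],5), ([([(9,[15,8,7,7,6])],[])],2), ([([(9,[15,8,7,7,7])],[])],1),
  ([([(7,[15,8]),(4,[8])],[])],5), ([([(7,[15,8]),(5,[8,6])],[])],5),
  ([([(9,[15,8,8,6,6])],[])],2), ([([(7,[15,8]),(5,[8,7])],[])],5), ([([(9,[15,8,8,7,6])],[])],1),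
  ([([(7,[8,8,8]),(5,[15])],[])],5), ([([(5,[15]),(4,[9])],[])],7),
  ([([(6,[9,8]),(5,[15])],[])],6), ([([(7,[15,9]),(5,[8,7])],[])],5),
  ([([(8,[15,9,8]),(4,[8])],[])],4), ([([(6,[9,9]),(5,[15])],[])],6),
  ([([(8,[15,9,9]),(4,[7])],[])],4), ([([(9,[15,9,9,8])],[])],3), ([([(9,[15,9,9,9])],[])],2),
  ([([(5,[15]),(4,[10])],[])],7), ([([(6,[10,8]),(5,[15])],[])],6),
  ([([(8,[15,10,8]),(4,[7])],[])],4), ([([(9,[15,10,8,8])],[])],3),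
  ([([(6,[10,9]),(5,[15])],[])],6), ([([(9,[15,10,9,7])],[])],3), ([([(9,[15,10,9,8])],[])],2),
  ([([(9,[15,10,9,9])],[])],1), ([([(6,[10,10]),(5,[15])],[])],6), ([([(9,[15,10,10,7])],[])],2),
  ([([(9,[15,10,10,8])],[])],1), ([([(5,[15]),(5,[11])],[])],6), ([([(6,[11,7]),(5,[15])],[])],6),
  ([([(8,[15,11,7]),(4,[7])],[])],4), ([([(6,[11,8]),(5,[15])],[])],6),
  ([([(9,[15,11,8,7])],[])],3), ([([(9,[15,11,8,8])],[])],2), ([([(6,[11,9]),(5,[15])],[])],6),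
  ([([(9,[15,11,9,7])],[])],2), ([([(9,[15,11,9,8])],[])],1), ([([(6,[11,10]),(5,[15])],[])],6),
  ([([(9,[15,11,10,7])],[])],1), ([([(7,[15,11]),(5,[11])],[])],5), ([([(9,[15,11,11,6])],[])],1),
  ([([(5,[15]),(5,[12])],[])],6), ([([(6,[12,7]),(5,[15])],[])],6), ([([(9,[15,12,7,7])],[])],3),
  ([([(6,[12,8]),(5,[15])],[])],6), ([([(9,[15,12,8,7])],[])],2), ([([(9,[15,12,8,8])],[])],1),
  ([([(6,[12,9]),(5,[15])],[])],6)]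

def tr_12_4 : List (List (List (ℕ × List ℕ) × List ℕ) × ℕ) := [
  ([([(9,[15,12,9,7])],[])],1), ([([(7,[15,12]),(4,[10])],[])],5), ([([(9,[15,12,10,6])],[])],1),
  ([([(7,[15,12]),(5,[11])],[])],5), ([([(7,[15,12]),(5,[12])],[])],4),
  ([([(5,[15]),(5,[13])],[])],6), ([([(6,[13,7]),(5,[15])],[])],6), ([([(9,[15,13,7,7])],[])],2),
  ([([(6,[13,8]),(5,[15])],[])],6), ([([(9,[15,13,8,7])],[])],1),
  ([([(7,[15,13]),(4,[9])],[])],5), ([([(9,[15,13,9,6])],[])],1),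
  ([([(7,[15,13]),(4,[10])],[])],5), ([([(7,[15,13]),(5,[11])],[])],4),
  ([([(9,[15,13,12])],[])],3), ([([(9,[15,13,13])],[])],2), ([([(5,[15]),(5,[14])],[])],6),
  ([([(6,[14,7]),(5,[15])],[])],6), ([([(9,[15,14,7,7])],[])],1),
  ([([(7,[15,8]),(5,[14])],[])],5), ([([(9,[15,14,8,6])],[])],1),
  ([([(7,[15,9]),(5,[14])],[])],5), ([([(7,[15,10]),(5,[14])],[])],4),
  ([([(9,[15,14,11])],[])],3), ([([(9,[15,14,12])],[])],2), ([([(9,[15,14,13])],[])],1),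
  ([([(5,[15]),(5,[15])],[])],7), ([([(7,[15,8]),(5,[15])],[])],5),
  ([([(8,[15,15]),(4,[9])],[])],4), ([([(9,[15,15,10])],[])],3), ([([(9,[15,15,11])],[])],2),
  ([([(9,[15,15,12])],[])],1), ([([(6,[16])],[])],6), ([([(6,[16]),(4,[7])],[])],6),
  ([([(6,[16]),(5,[7,7])],[])],6), ([([(6,[16]),(6,[7,7,7])],[])],6),
  ([([(9,[16,7,7,7,7])],[])],1), ([([(6,[16]),(4,[8])],[])],6), ([([(6,[16]),(5,[8,7])],[])],6),
  ([([(7,[16,8]),(5,[7,7])],[])],5), ([([(9,[16,8,7,7,6])],[])],1),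
  ([([(7,[16,8]),(4,[8])],[])],5), ([([(7,[16,8]),(5,[8,6])],[])],5),
  ([([(9,[16,8,8,6,6])],[])],1), ([([(7,[16,8]),(5,[8,7])],[])],5),
  ([([(8,[16,8,8]),(4,[8])],[])],4), ([([(6,[16]),(4,[9])],[])],6),
  ([([(7,[16,9]),(4,[7])],[])],5), ([([(7,[16,9]),(5,[7,6])],[])],5),
  ([([(9,[16,9,7,6,6])],[])],1), ([([(7,[16,9]),(5,[7,7])],[])],5),
  ([([(6,[16]),(6,[9,8])],[])],6), ([([(8,[16,9,8]),(4,[7])],[])],4), ([([(9,[16,9,8,8])],[])],3),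
  ([([(6,[16]),(6,[9,9])],[])],6), ([([(9,[16,9,9,7])],[])],3), ([([(9,[16,9,9,8])],[])],2),
  ([([(9,[16,9,9,9])],[])],1), ([([(6,[16]),(4,[10])],[])],6), ([([(6,[16]),(6,[10,7])],[])],6),
  ([([(8,[16,10,7]),(4,[7])],[])],4), ([([(6,[16]),(6,[10,8])],[])],6),
  ([([(9,[16,10,8,7])],[])],3), ([([(9,[16,10,8,8])],[])],2), ([([(6,[16]),(6,[10,9])],[])],6),
  ([([(9,[16,10,9,7])],[])],2), ([([(9,[16,10,9,8])],[])],1), ([([(6,[16]),(6,[10,10])],[])],6),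
  ([([(9,[16,10,10,7])],[])],1), ([([(6,[16]),(5,[11])],[])],6), ([([(6,[16]),(6,[11,7])],[])],6),
  ([([(9,[16,11,7,7])],[])],3), ([([(6,[16]),(6,[11,8])],[])],6), ([([(9,[16,11,8,7])],[])],2),
  ([([(9,[16,11,8,8])],[])],1), ([([(6,[16]),(6,[11,9])],[])],6), ([([(9,[16,11,9,7])],[])],1),
  ([([(6,[16]),(6,[11,10])],[])],6), ([([(7,[16,11]),(5,[11])],[])],5),
  ([([(6,[16]),(5,[12])],[])],6), ([([(6,[16]),(6,[12,7])],[])],6), ([([(9,[16,12,7,7])],[])],2),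
  ([([(6,[16]),(6,[12,8])],[])],6), ([([(9,[16,12,8,7])],[])],1),
  ([([(6,[16]),(6,[12,9])],[])],6), ([([(7,[16,12]),(4,[10])],[])],5),
  ([([(7,[16,12]),(5,[11])],[])],4), ([([(9,[16,12,12])],[])],3), ([([(6,[16]),(5,[13])],[])],6),
  ([([(6,[16]),(6,[13,7])],[])],6), ([([(9,[16,13,7,7])],[])],1),
  ([([(6,[16]),(6,[13,8])],[])],6), ([([(7,[16,9]),(5,[13])],[])],5),
  ([([(7,[16,10]),(5,[13])],[])],4), ([([(9,[16,13,11])],[])],3), ([([(9,[16,13,12])],[])],2),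
  ([([(9,[16,13,13])],[])],1), ([([(6,[16]),(5,[14])],[])],6), ([([(6,[16]),(6,[14,7])],[])],6),
  ([([(7,[16,8]),(5,[14])],[])],5)]

def tr_12_5 : List (List (List (ℕ × List ℕ) × List ℕ) × ℕ) := [
  ([([(8,[16,14]),(4,[9])],[])],4), ([([(9,[16,14,10])],[])],3), ([([(9,[16,14,11])],[])],2),
  ([([(9,[16,14,12])],[])],1), ([([(6,[16]),(5,[15])],[])],6), ([([(7,[16,7]),(5,[15])],[])],5),
  ([([(8,[16,15]),(4,[8])],[])],4), ([([(9,[16,15,9])],[])],3), ([([(9,[16,15,10])],[])],2),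
  ([([(9,[16,15,11])],[])],1), ([([(6,[16]),(6,[16])],[])],6), ([([(8,[16,16]),(4,[7])],[])],4),
  ([([(9,[16,16,8])],[])],3), ([([(9,[16,16,9])],[])],2), ([([(9,[16,16,10])],[])],1),
  ([([(6,[17])],[])],6), ([([(6,[17]),(4,[7])],[])],6), ([([(6,[17]),(5,[7,7])],[])],6),
  ([([(6,[17]),(6,[7,7,7])],[])],6), ([([(6,[17]),(4,[8])],[])],6),
  ([([(6,[17]),(5,[8,7])],[])],6), ([([(7,[17,8]),(5,[7,7])],[])],5),
  ([([(7,[17,8]),(4,[8])],[])],5), ([([(7,[17,8]),(5,[8,6])],[])],5),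
  ([([(8,[17,8,8]),(4,[7])],[])],4), ([([(9,[17,8,8,8])],[])],3), ([([(6,[17]),(4,[9])],[])],6),
  ([([(7,[17,9]),(4,[7])],[])],5), ([([(7,[17,9]),(5,[7,6])],[])],5),
  ([([(8,[17,9,7]),(4,[7])],[])],4), ([([(6,[17]),(6,[9,8])],[])],6), ([([(9,[17,9,8,7])],[])],3),
  ([([(9,[17,9,8,8])],[])],2), ([([(6,[17]),(6,[9,9])],[])],6), ([([(9,[17,9,9,7])],[])],2),
  ([([(9,[17,9,9,8])],[])],1), ([([(6,[17]),(4,[10])],[])],6), ([([(6,[17]),(6,[10,7])],[])],6),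
  ([([(9,[17,10,7,7])],[])],3), ([([(6,[17]),(6,[10,8])],[])],6), ([([(9,[17,10,8,7])],[])],2),
  ([([(9,[17,10,8,8])],[])],1), ([([(6,[17]),(6,[10,9])],[])],6), ([([(9,[17,10,9,7])],[])],1),
  ([([(6,[17]),(6,[10,10])],[])],6), ([([(6,[17]),(5,[11])],[])],6),
  ([([(6,[17]),(6,[11,7])],[])],6), ([([(9,[17,11,7,7])],[])],2),
  ([([(6,[17]),(6,[11,8])],[])],6), ([([(9,[17,11,8,7])],[])],1),
  ([([(6,[17]),(6,[11,9])],[])],6), ([([(7,[17,11]),(4,[10])],[])],5),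
  ([([(7,[17,11]),(5,[11])],[])],4), ([([(6,[17]),(5,[12])],[])],6),
  ([([(6,[17]),(6,[12,7])],[])],6), ([([(9,[17,12,7,7])],[])],1),
  ([([(6,[17]),(6,[12,8])],[])],6), ([([(7,[17,9]),(5,[12])],[])],5),
  ([([(7,[17,10]),(5,[12])],[])],4), ([([(9,[17,12,11])],[])],3), ([([(9,[17,12,12])],[])],2),
  ([([(6,[17]),(5,[13])],[])],6), ([([(6,[17]),(6,[13,7])],[])],6),
  ([([(7,[17,8]),(5,[13])],[])],5), ([([(8,[17,13]),(4,[9])],[])],4), ([([(9,[17,13,10])],[])],3),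
  ([([(9,[17,13,11])],[])],2), ([([(9,[17,13,12])],[])],1), ([([(6,[17]),(5,[14])],[])],6),
  ([([(7,[17,7]),(5,[14])],[])],5), ([([(8,[17,14]),(4,[8])],[])],4), ([([(9,[17,14,9])],[])],3),
  ([([(9,[17,14,10])],[])],2), ([([(9,[17,14,11])],[])],1), ([([(6,[17]),(5,[15])],[])],6),
  ([([(8,[17,15]),(4,[7])],[])],4), ([([(9,[17,15,8])],[])],3), ([([(9,[17,15,9])],[])],2),
  ([([(9,[17,15,10])],[])],1), ([([(6,[17]),(6,[16])],[])],6), ([([(9,[17,16,7])],[])],3),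
  ([([(9,[17,16,8])],[])],2), ([([(9,[17,16,9])],[])],1), ([([(6,[17]),(6,[17])],[])],6),
  ([([(9,[17,17,7])],[])],2), ([([(9,[17,17,8])],[])],1), ([([(6,[18])],[])],6),
  ([([(6,[18]),(4,[7])],[])],6), ([([(6,[18]),(5,[7,7])],[])],6),
  ([([(7,[18,7]),(5,[7,7])],[])],5), ([([(6,[18]),(4,[8])],[])],6),
  ([([(6,[18]),(5,[8,7])],[])],6), ([([(8,[18,8,7]),(4,[7])],[])],4),
  ([([(7,[18,8]),(4,[8])],[])],5), ([([(8,[18,8,8]),(3,[6])],[])],4), ([([(9,[18,8,8,7])],[])],3),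
  ([([(9,[18,8,8,8])],[])],2), ([([(6,[18]),(4,[9])],[])],6), ([([(7,[18,9]),(4,[7])],[])],5),
  ([([(8,[18,9,7]),(3,[6])],[])],4)]

def tr_12_6 : List (List (List (ℕ × List ℕ) × List ℕ) × ℕ) := [
  ([([(9,[18,9,7,7])],[])],3), ([([(6,[18]),(6,[9,8])],[])],6), ([([(9,[18,9,8,7])],[])],2),
  ([([(9,[18,9,8,8])],[])],1), ([([(6,[18]),(6,[9,9])],[])],6), ([([(9,[18,9,9,7])],[])],1),
  ([([(6,[18]),(4,[10])],[])],6), ([([(6,[18]),(6,[10,7])],[])],6), ([([(9,[18,10,7,7])],[])],2),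
  ([([(6,[18]),(6,[10,8])],[])],6), ([([(9,[18,10,8,7])],[])],1),
  ([([(6,[18]),(6,[10,9])],[])],6), ([([(7,[18,10]),(4,[10])],[])],5),
  ([([(6,[18]),(5,[11])],[])],6), ([([(6,[18]),(6,[11,7])],[])],6), ([([(9,[18,11,7,7])],[])],1),
  ([([(6,[18]),(6,[11,8])],[])],6), ([([(7,[18,9]),(5,[11])],[])],5),
  ([([(7,[18,10]),(5,[11])],[])],4), ([([(9,[18,11,11])],[])],3), ([([(6,[18]),(5,[12])],[])],6),
  ([([(6,[18]),(6,[12,7])],[])],6), ([([(7,[18,8]),(5,[12])],[])],5),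
  ([([(8,[18,12]),(4,[9])],[])],4), ([([(9,[18,12,10])],[])],3), ([([(9,[18,12,11])],[])],2),
  ([([(9,[18,12,12])],[])],1), ([([(6,[18]),(5,[13])],[])],6), ([([(7,[18,7]),(5,[13])],[])],5),
  ([([(8,[18,13]),(4,[8])],[])],4), ([([(9,[18,13,9])],[])],3), ([([(9,[18,13,10])],[])],2),
  ([([(9,[18,13,11])],[])],1), ([([(6,[18]),(5,[14])],[])],6), ([([(8,[18,14]),(4,[7])],[])],4),
  ([([(9,[18,14,8])],[])],3), ([([(9,[18,14,9])],[])],2), ([([(9,[18,14,10])],[])],1),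
  ([([(6,[18]),(5,[15])],[])],6), ([([(9,[18,15,7])],[])],3), ([([(9,[18,15,8])],[])],2),
  ([([(9,[18,15,9])],[])],1), ([([(6,[18]),(6,[16])],[])],6), ([([(9,[18,16,7])],[])],2),
  ([([(9,[18,16,8])],[])],1), ([([(6,[18]),(6,[17])],[])],6), ([([(9,[18,17,7])],[])],1),
  ([([(6,[18]),(6,[18])],[])],6), ([([(6,[19])],[])],6), ([([(6,[19]),(4,[7])],[])],6),
  ([([(6,[19]),(5,[7,7])],[])],6), ([([(8,[19,7,7]),(4,[7])],[])],4),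
  ([([(6,[19]),(4,[8])],[])],6), ([([(6,[19]),(5,[8,7])],[])],6), ([([(9,[19,8,7,7])],[])],3),
  ([([(7,[19,8]),(4,[8])],[])],5), ([([(9,[19,8,8,6])],[])],3), ([([(9,[19,8,8,7])],[])],2),
  ([([(9,[19,8,8,8])],[])],1), ([([(6,[19]),(4,[9])],[])],6), ([([(7,[19,9]),(4,[7])],[])],5),
  ([([(9,[19,9,7,6])],[])],3), ([([(9,[19,9,7,7])],[])],2), ([([(6,[19]),(6,[9,8])],[])],6),
  ([([(9,[19,9,8,7])],[])],1), ([([(6,[19]),(6,[9,9])],[])],6), ([([(6,[19]),(4,[10])],[])],6),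
  ([([(6,[19]),(6,[10,7])],[])],6), ([([(9,[19,10,7,7])],[])],1),
  ([([(6,[19]),(6,[10,8])],[])],6), ([([(7,[19,9]),(4,[10])],[])],5),
  ([([(6,[19]),(6,[10,10])],[])],4), ([([(6,[19]),(5,[11])],[])],6),
  ([([(6,[19]),(6,[11,7])],[])],6), ([([(7,[19,8]),(5,[11])],[])],5),
  ([([(8,[19,11]),(4,[9])],[])],4), ([([(9,[19,11,10])],[])],3), ([([(9,[19,11,11])],[])],2),
  ([([(6,[19]),(5,[12])],[])],6), ([([(7,[19,7]),(5,[12])],[])],5),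
  ([([(8,[19,12]),(4,[8])],[])],4), ([([(9,[19,12,9])],[])],3), ([([(9,[19,12,10])],[])],2),
  ([([(9,[19,12,11])],[])],1), ([([(6,[19]),(5,[13])],[])],6), ([([(8,[19,13]),(4,[7])],[])],4),
  ([([(9,[19,13,8])],[])],3), ([([(9,[19,13,9])],[])],2), ([([(9,[19,13,10])],[])],1),
  ([([(6,[19]),(5,[14])],[])],6), ([([(9,[19,14,7])],[])],3), ([([(9,[19,14,8])],[])],2),
  ([([(9,[19,14,9])],[])],1), ([([(6,[19]),(5,[15])],[])],6), ([([(9,[19,15,7])],[])],2),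
  ([([(9,[19,15,8])],[])],1), ([([(6,[19]),(6,[16])],[])],6), ([([(9,[19,16,7])],[])],1),
  ([([(6,[19]),(6,[17])],[])],6), ([([(6,[19]),(6,[18])],[])],5)]

def tr_12_7 : List (List (List (ℕ × List ℕ) × List ℕ) × ℕ) := [
  ([([(6,[19]),(6,[19])],[])],4), ([([(6,[20])],[])],6), ([([(6,[20]),(4,[7])],[])],6),
  ([([(6,[20]),(5,[7,7])],[])],6), ([([(9,[20,7,7,7])],[])],3), ([([(6,[20]),(4,[8])],[])],6),
  ([([(6,[20]),(5,[8,7])],[])],6), ([([(9,[20,8,7,7])],[])],2), ([([(7,[20,8]),(4,[8])],[])],5),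
  ([([(9,[20,8,8,6])],[])],2), ([([(9,[20,8,8,7])],[])],1), ([([(6,[20]),(4,[9])],[])],6),
  ([([(7,[20,7]),(4,[9])],[])],5), ([([(9,[20,9,7,6])],[])],2), ([([(9,[20,9,7,7])],[])],1),
  ([([(6,[20]),(6,[9,8])],[])],6), ([([(6,[20]),(6,[9,9])],[])],5),
  ([([(6,[20]),(4,[10])],[])],6), ([([(6,[20]),(6,[10,7])],[])],6),
  ([([(7,[20,8]),(4,[10])],[])],5), ([([(8,[20,10]),(4,[9])],[])],4), ([([(9,[20,10,10])],[])],3),
  ([([(6,[20]),(5,[11])],[])],6), ([([(7,[20,7]),(5,[11])],[])],5),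
  ([([(8,[20,11]),(4,[8])],[])],4), ([([(9,[20,11,9])],[])],3), ([([(9,[20,11,10])],[])],2),
  ([([(9,[20,11,11])],[])],1), ([([(6,[20]),(5,[12])],[])],6), ([([(8,[20,12]),(4,[7])],[])],4),
  ([([(9,[20,12,8])],[])],3), ([([(9,[20,12,9])],[])],2), ([([(9,[20,12,10])],[])],1),
  ([([(6,[20]),(5,[13])],[])],6), ([([(9,[20,13,7])],[])],3), ([([(9,[20,13,8])],[])],2),
  ([([(9,[20,13,9])],[])],1), ([([(6,[20]),(5,[14])],[])],6), ([([(9,[20,14,7])],[])],2),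
  ([([(9,[20,14,8])],[])],1), ([([(6,[20]),(5,[15])],[])],6), ([([(9,[20,15,7])],[])],1),
  ([([(6,[20]),(6,[16])],[])],6), ([([(6,[20]),(6,[17])],[])],5), ([([(6,[20]),(6,[18])],[])],4),
  ([([(9,[20,19])],[])],3), ([([(9,[20,20])],[])],2), ([([(6,[21])],[])],6),
  ([([(6,[21]),(4,[7])],[])],6), ([([(6,[21]),(5,[7,7])],[])],6), ([([(9,[21,7,7,7])],[])],2),
  ([([(6,[21]),(4,[8])],[])],6), ([([(6,[21]),(5,[8,7])],[])],6), ([([(9,[21,8,7,7])],[])],1),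
  ([([(10,[21,8,8])],[])],2), ([([(9,[21,8,8,3])],[])],3), ([([(9,[21,8,8,4])],[])],3),
  ([([(9,[21,8,8,5])],[])],2), ([([(9,[21,8,8,6])],[])],1), ([([(6,[21]),(4,[9])],[])],6),
  ([([(7,[21,7]),(4,[9])],[])],5), ([([(9,[21,9,7,6])],[])],1), ([([(6,[21]),(6,[9,8])],[])],5),
  ([([(8,[21,9]),(4,[9])],[])],4), ([([(6,[21]),(4,[10])],[])],6),
  ([([(7,[21,7]),(4,[10])],[])],5), ([([(8,[21,10]),(4,[8])],[])],4), ([([(9,[21,10,9])],[])],3),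
  ([([(9,[21,10,10])],[])],2), ([([(6,[21]),(5,[11])],[])],6), ([([(8,[21,11]),(4,[7])],[])],4),
  ([([(9,[21,11,8])],[])],3), ([([(9,[21,11,9])],[])],2), ([([(9,[21,11,10])],[])],1),
  ([([(6,[21]),(5,[12])],[])],6), ([([(9,[21,12,7])],[])],3), ([([(9,[21,12,8])],[])],2),
  ([([(9,[21,12,9])],[])],1), ([([(6,[21]),(5,[13])],[])],6), ([([(9,[21,13,7])],[])],2),
  ([([(9,[21,13,8])],[])],1), ([([(6,[21]),(5,[14])],[])],6), ([([(9,[21,14,7])],[])],1),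
  ([([(6,[21]),(5,[15])],[])],6), ([([(6,[21]),(6,[16])],[])],5), ([([(6,[21]),(6,[17])],[])],4),
  ([([(9,[21,18])],[])],3), ([([(9,[21,19])],[])],2), ([([(9,[21,20])],[])],1),
  ([([(7,[22])],[])],5), ([([(7,[22,6])],[])],5), ([([(7,[22,6]),(3,[6])],[])],5),
  ([([(8,[22,6,6]),(3,[6])],[])],4), ([([(7,[22]),(4,[7])],[])],5),
  ([([(7,[22,6]),(4,[7])],[])],5), ([([(9,[22,7,6,6])],[])],3), ([([(7,[22]),(5,[7,7])],[])],5),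
  ([([(9,[22,7,7,6])],[])],2), ([([(9,[22,7,7,7])],[])],1), ([([(7,[22]),(4,[8])],[])],5)]

def tr_12_8 : List (List (List (ℕ × List ℕ) × List ℕ) × ℕ) := [
  ([([(7,[22,6]),(4,[8])],[])],5), ([([(9,[22,8,6,6])],[])],2), ([([(7,[22]),(5,[8,7])],[])],5),
  ([([(9,[22,8,7,6])],[])],1), ([([(8,[22,8]),(4,[8])],[])],4), ([([(9,[22,8,8,5])],[])],1),
  ([([(7,[22]),(4,[9])],[])],5), ([([(7,[22,6]),(4,[9])],[])],5), ([([(9,[22,9,6,6])],[])],1),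
  ([([(8,[22,9]),(4,[7])],[])],4), ([([(9,[22,9,7,5])],[])],1), ([([(8,[22,9]),(4,[8])],[])],4),
  ([([(9,[22,9,9])],[])],3), ([([(7,[22]),(4,[10])],[])],5), ([([(7,[22,6]),(4,[10])],[])],5),
  ([([(8,[22,10]),(4,[7])],[])],4), ([([(9,[22,10,8])],[])],3), ([([(9,[22,10,9])],[])],2),
  ([([(9,[22,10,10])],[])],1), ([([(7,[22]),(5,[11])],[])],5), ([([(8,[22,11]),(3,[6])],[])],4),
  ([([(9,[22,11,7])],[])],3), ([([(9,[22,11,8])],[])],2), ([([(9,[22,11,9])],[])],1),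
  ([([(7,[22]),(5,[12])],[])],5), ([([(9,[22,12,6])],[])],3), ([([(9,[22,12,7])],[])],2),
  ([([(9,[22,12,8])],[])],1), ([([(7,[22]),(5,[13])],[])],5), ([([(9,[22,13,6])],[])],2),
  ([([(9,[22,13,7])],[])],1), ([([(7,[22]),(5,[14])],[])],5), ([([(9,[22,14,6])],[])],1),
  ([([(7,[22]),(5,[15])],[])],5), ([([(9,[22,16])],[])],3), ([([(9,[22,16,4])],[])],1),
  ([([(9,[22,17])],[])],3), ([([(9,[22,18])],[])],2), ([([(9,[22,19])],[])],1),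
  ([([(7,[23])],[])],5), ([([(7,[23]),(3,[6])],[])],5), ([([(7,[23]),(5,[6,6])],[])],5),
  ([([(9,[23,6,6,6])],[])],3), ([([(7,[23]),(4,[7])],[])],5), ([([(7,[23]),(5,[7,6])],[])],5),
  ([([(9,[23,7,6,6])],[])],2), ([([(7,[23]),(5,[7,7])],[])],5), ([([(9,[23,7,7,6])],[])],1),
  ([([(7,[23]),(4,[8])],[])],5), ([([(7,[23]),(5,[8,6])],[])],5), ([([(9,[23,8,6,6])],[])],1),
  ([([(7,[23]),(5,[8,7])],[])],5), ([([(8,[23,8]),(4,[8])],[])],4), ([([(7,[23]),(4,[9])],[])],5),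
  ([([(7,[23]),(5,[9,6])],[])],5), ([([(8,[23,9]),(4,[7])],[])],4), ([([(9,[23,9,8])],[])],3),
  ([([(9,[23,9,9])],[])],2), ([([(7,[23]),(4,[10])],[])],5), ([([(8,[23,10]),(3,[6])],[])],4),
  ([([(9,[23,10,7])],[])],3), ([([(9,[23,10,8])],[])],2), ([([(9,[23,10,9])],[])],1),
  ([([(7,[23]),(5,[11])],[])],5), ([([(9,[23,11,6])],[])],3), ([([(9,[23,11,7])],[])],2),
  ([([(9,[23,11,8])],[])],1), ([([(7,[23]),(5,[12])],[])],5), ([([(9,[23,12,6])],[])],2),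
  ([([(9,[23,12,7])],[])],1), ([([(7,[23]),(5,[13])],[])],5), ([([(9,[23,13,6])],[])],1),
  ([([(7,[23]),(5,[14])],[])],5), ([([(7,[23]),(5,[15])],[])],4), ([([(9,[23,16])],[])],3),
  ([([(9,[23,17])],[])],2), ([([(9,[23,18])],[])],1), ([([(7,[24])],[])],5),
  ([([(7,[24]),(3,[6])],[])],5), ([([(7,[24]),(5,[6,6])],[])],5), ([([(9,[24,6,6,6])],[])],2),
  ([([(7,[24]),(4,[7])],[])],5), ([([(7,[24]),(5,[7,6])],[])],5), ([([(9,[24,7,6,6])],[])],1),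
  ([([(7,[24]),(5,[7,7])],[])],5), ([([(7,[24]),(4,[8])],[])],5), ([([(7,[24]),(5,[8,6])],[])],5),
  ([([(8,[24,8]),(4,[7])],[])],4), ([([(9,[24,8,8])],[])],3), ([([(7,[24]),(4,[9])],[])],5),
  ([([(8,[24,9]),(3,[6])],[])],4), ([([(9,[24,9,7])],[])],3), ([([(9,[24,9,8])],[])],2),
  ([([(9,[24,9,9])],[])],1), ([([(7,[24]),(4,[10])],[])],5), ([([(9,[24,10,6])],[])],3),
  ([([(9,[24,10,7])],[])],2), ([([(9,[24,10,8])],[])],1), ([([(7,[24]),(5,[11])],[])],5),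
  ([([(9,[24,11,6])],[])],2)]

def tr_12_9 : List (List (List (ℕ × List ℕ) × List ℕ) × ℕ) := [
  ([([(9,[24,11,7])],[])],1), ([([(7,[24]),(5,[12])],[])],5), ([([(9,[24,12,6])],[])],1),
  ([([(7,[24]),(5,[13])],[])],5), ([([(7,[24]),(5,[14])],[])],4), ([([(9,[24,15])],[])],3),
  ([([(9,[24,16])],[])],2), ([([(9,[24,17])],[])],1), ([([(7,[25])],[])],5),
  ([([(7,[25]),(3,[6])],[])],5), ([([(7,[25]),(5,[6,6])],[])],5), ([([(9,[25,6,6,6])],[])],1),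
  ([([(7,[25]),(4,[7])],[])],5), ([([(7,[25]),(5,[7,6])],[])],5), ([([(8,[25,7]),(4,[7])],[])],4),
  ([([(7,[25]),(4,[8])],[])],5), ([([(8,[25,8]),(3,[6])],[])],4), ([([(9,[25,8,7])],[])],3),
  ([([(9,[25,8,8])],[])],2), ([([(7,[25]),(4,[9])],[])],5), ([([(9,[25,9,6])],[])],3),
  ([([(9,[25,9,7])],[])],2), ([([(9,[25,9,8])],[])],1), ([([(7,[25]),(4,[10])],[])],5),
  ([([(9,[25,10,6])],[])],2), ([([(9,[25,10,7])],[])],1), ([([(7,[25]),(5,[11])],[])],5),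
  ([([(9,[25,11,6])],[])],1), ([([(7,[25]),(5,[12])],[])],5), ([([(7,[25]),(5,[13])],[])],4),
  ([([(9,[25,14])],[])],3), ([([(9,[25,15])],[])],2), ([([(9,[25,16])],[])],1),
  ([([(7,[26])],[])],5), ([([(7,[26]),(3,[6])],[])],5), ([([(7,[26]),(5,[6,6])],[])],5),
  ([([(7,[26]),(4,[7])],[])],5), ([([(8,[26,7]),(3,[6])],[])],4), ([([(9,[26,7,7])],[])],3),
  ([([(7,[26]),(4,[8])],[])],5), ([([(9,[26,8,6])],[])],3), ([([(9,[26,8,7])],[])],2),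
  ([([(9,[26,8,8])],[])],1), ([([(7,[26]),(4,[9])],[])],5), ([([(9,[26,9,6])],[])],2),
  ([([(9,[26,9,7])],[])],1), ([([(7,[26]),(4,[10])],[])],5), ([([(9,[26,10,6])],[])],1),
  ([([(7,[26]),(5,[11])],[])],5), ([([(7,[26]),(5,[12])],[])],4), ([([(9,[26,13])],[])],3),
  ([([(9,[26,14])],[])],2), ([([(9,[26,15])],[])],1), ([([(7,[27])],[])],5),
  ([([(7,[27]),(3,[6])],[])],5), ([([(8,[27,6]),(3,[6])],[])],4), ([([(7,[27]),(4,[7])],[])],5),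
  ([([(9,[27,7,6])],[])],3), ([([(9,[27,7,7])],[])],2), ([([(7,[27]),(4,[8])],[])],5),
  ([([(9,[27,8,6])],[])],2), ([([(9,[27,8,7])],[])],1), ([([(7,[27]),(4,[9])],[])],5),
  ([([(9,[27,9,6])],[])],1), ([([(7,[27]),(4,[10])],[])],5), ([([(7,[27]),(5,[11])],[])],4),
  ([([(9,[27,12])],[])],3), ([([(9,[27,13])],[])],2), ([([(9,[27,14])],[])],1),
  ([([(7,[28])],[])],5), ([([(7,[28]),(3,[6])],[])],5), ([([(9,[28,6,6])],[])],3),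
  ([([(7,[28]),(4,[7])],[])],5), ([([(9,[28,7,6])],[])],2), ([([(9,[28,7,7])],[])],1),
  ([([(7,[28]),(4,[8])],[])],5), ([([(9,[28,8,6])],[])],1), ([([(7,[28]),(4,[9])],[])],5),
  ([([(7,[28]),(4,[10])],[])],4), ([([(9,[28,11])],[])],3), ([([(9,[28,12])],[])],2),
  ([([(9,[28,13])],[])],1), ([([(8,[29])],[])],4), ([([(8,[29,5])],[])],4),
  ([([(8,[29,5]),(3,[5])],[])],4), ([([(8,[29,6])],[])],4), ([([(9,[29,6,5])],[])],3),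
  ([([(9,[29,6,6])],[])],2), ([([(8,[29,7])],[])],4), ([([(9,[29,7,5])],[])],2),
  ([([(9,[29,7,6])],[])],1), ([([(8,[29]),(4,[8])],[])],4), ([([(9,[29,8,5])],[])],1),
  ([([(8,[29]),(4,[9])],[])],4), ([([(9,[29,10])],[])],3), ([([(9,[29,11])],[])],2),
  ([([(9,[29,12])],[])],1), ([([(8,[30])],[])],4), ([([(8,[30,5])],[])],4),
  ([([(9,[30,5,5])],[])],3)]

def tr_12_10 : List (List (List (ℕ × List ℕ) × List ℕ) × ℕ) := [
  ([([(8,[30,6])],[])],4), ([([(9,[30,6,5])],[])],2), ([([(9,[30,6,6])],[])],1),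
  ([([(8,[30]),(4,[7])],[])],4), ([([(9,[30,7,5])],[])],1), ([([(8,[30]),(4,[8])],[])],4),
  ([([(9,[30,9])],[])],3), ([([(9,[30,10])],[])],2), ([([(9,[30,11])],[])],1),
  ([([(8,[31])],[])],4), ([([(8,[31,5])],[])],4), ([([(9,[31,5,5])],[])],2),
  ([([(8,[31]),(3,[6])],[])],4), ([([(9,[31,6,5])],[])],1), ([([(8,[31]),(4,[7])],[])],4),
  ([([(9,[31,8])],[])],3), ([([(9,[31,9])],[])],2), ([([(9,[31,10])],[])],1),
  ([([(8,[32])],[])],4), ([([(8,[32]),(3,[5])],[])],4), ([([(9,[32,5,5])],[])],1),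
  ([([(8,[32]),(3,[6])],[])],4), ([([(9,[32,7])],[])],3), ([([(9,[32,8])],[])],2),
  ([([(9,[32,9])],[])],1), ([([(8,[33])],[])],4), ([([(8,[33]),(3,[5])],[])],4),
  ([([(9,[33,6])],[])],3), ([([(9,[33,7])],[])],2), ([([(9,[33,8])],[])],1),
  ([([(8,[34])],[])],4), ([([(9,[34,5])],[])],3), ([([(9,[34,6])],[])],2),
  ([([(9,[34,7])],[])],1), ([([(8,[35])],[])],4), ([([(9,[35,5])],[])],2),
  ([([(9,[35,6])],[])],1), ([([(8,[36])],[])],4), ([([(9,[36,5])],[])],1), ([([(9,[37])],[])],3),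
  ([([(9,[37,4])],[])],1), ([([(9,[38])],[])],3), ([([(9,[39])],[])],2), ([([(9,[40])],[])],1)]

def tr_12 : List (List (List (ℕ × List ℕ) × List ℕ) × ℕ) :=
  tr_12_0 ++ tr_12_1 ++ tr_12_2 ++ tr_12_3 ++ tr_12_4 ++ tr_12_5 ++ tr_12_6 ++ tr_12_7 ++
    tr_12_8 ++ tr_12_9 ++ tr_12_10

theorem kc_12 : KC 12 39 := kc_of_tree tr_12 (by decide +kernel)

end Pool.MP322
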