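import Pool.Agent.Lib.MP_322c5f_al.SG19

/-! (C), part 12: values of `K(c)`. -/

set_option autoImplicit false

namespace Pool.MP322

def tr_13_0 : List (List (List (ℕ × List ℕ) × List ℕ) × ℕ) := [
  ([],11), ([([(5,[12])],[])],8), ([([(6,[12,9])],[])],7), ([([(5,[12]),(4,[9]),(4,[8])],[])],8),
  ([([(5,[12]),(4,[9]),(4,[9])],[])],8), ([([(6,[12,9]),(6,[9,9])],[])],7),
  ([([(7,[9,9,8]),(6,[12,9])],[])],4), ([([(7,[9,9,9]),(6,[12,9])],[])],3),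
  ([([(5,[12]),(4,[10])],[])],7), ([([(5,[12]),(4,[10]),(4,[8])],[])],8),
  ([([(5,[12]),(4,[10]),(4,[9])],[])],8), ([([(6,[12,9]),(6,[10,9])],[])],7),
  ([([(9,[12,10,9,9]),(4,[8])],[])],3), ([([(11,[12,10,9,9,9])],[])],2),
  ([([(5,[12]),(4,[10]),(4,[10])],[])],8), ([([(6,[12,9]),(6,[10,10])],[])],7),
  ([([(11,[12,10,10,9,8])],[])],2), ([([(10,[12,10,10,9,9])],[])],1),
  ([([(8,[12,10,10]),(4,[10])],[])],5), ([([(9,[12,10,10,10]),(3,[6])],[])],3),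
  ([([(11,[12,10,10,10,7])],[])],2), ([([(10,[12,10,10,10,8])],[])],1),
  ([([(5,[12]),(5,[11])],[])],7), ([([(6,[12,8]),(5,[11])],[])],7),
  ([([(6,[12,8]),(6,[11,8])],[])],7), ([([(8,[12,8,8,8]),(5,[11])],[])],4),
  ([([(6,[12,9]),(5,[11])],[])],7), ([([(6,[12,9]),(6,[11,8])],[])],7),
  ([([(9,[12,11,9,8]),(4,[8])],[])],3), ([([(6,[12,9]),(6,[11,9])],[])],7),
  ([([(11,[12,11,9,9,8])],[])],2), ([([(10,[12,11,9,9,9])],[])],1),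
  ([([(6,[11,10]),(5,[12])],[])],7), ([([(6,[12,8]),(6,[11,10])],[])],7),
  ([([(11,[12,11,10,8,8])],[])],2), ([([(6,[12,9]),(6,[11,10])],[])],7),
  ([([(10,[12,11,10,9,8])],[])],1), ([([(7,[12,11]),(6,[10,10])],[])],6),
  ([([(10,[12,11,10,10,7])],[])],1), ([([(7,[12,11]),(5,[11])],[])],6),
  ([([(7,[12,11]),(6,[11,7])],[])],6), ([([(9,[12,11,11,7]),(4,[7])],[])],3),
  ([([(7,[12,11]),(6,[11,8])],[])],6), ([([(11,[12,11,11,8,7])],[])],2),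
  ([([(10,[12,11,11,8,8])],[])],1), ([([(7,[12,11]),(6,[11,9])],[])],6),
  ([([(10,[12,11,11,9,7])],[])],1), ([([(7,[12,11]),(6,[11,10])],[])],6),
  ([([(8,[12,11,11]),(5,[11])],[])],5), ([([(5,[12]),(5,[12])],[])],7),
  ([([(6,[12,8]),(5,[12])],[])],7), ([([(6,[12,8]),(6,[12,8])],[])],7),
  ([([(9,[12,12,8,8]),(4,[8])],[])],3), ([([(6,[12,9]),(5,[12])],[])],7),
  ([([(6,[12,9]),(6,[12,8])],[])],7), ([([(11,[12,12,9,8,8])],[])],2),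
  ([([(6,[12,9]),(6,[12,9])],[])],7), ([([(10,[12,12,9,9,8])],[])],1),
  ([([(7,[12,12]),(4,[10])],[])],6), ([([(7,[12,12]),(6,[10,7])],[])],6),
  ([([(9,[12,12,10,7]),(4,[7])],[])],3), ([([(7,[12,12]),(6,[10,8])],[])],6),
  ([([(11,[12,12,10,8,7])],[])],2), ([([(10,[12,12,10,8,8])],[])],1),
  ([([(7,[12,12]),(6,[10,9])],[])],6), ([([(10,[12,12,10,9,7])],[])],1),
  ([([(7,[12,12]),(6,[10,10])],[])],6), ([([(7,[12,12]),(5,[11])],[])],6),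
  ([([(7,[12,12]),(6,[11,7])],[])],6), ([([(11,[12,12,11,7,7])],[])],2),
  ([([(7,[12,12]),(6,[11,8])],[])],6), ([([(10,[12,12,11,8,7])],[])],1),
  ([([(7,[12,12]),(6,[11,9])],[])],6), ([([(8,[12,12,11]),(4,[10])],[])],5),
  ([([(8,[12,12,11]),(5,[11])],[])],4), ([([(7,[12,12]),(5,[12])],[])],6),
  ([([(7,[12,12]),(6,[12,7])],[])],6), ([([(10,[12,12,12,7,7])],[])],1),
  ([([(7,[12,12]),(6,[12,8])],[])],6), ([([(8,[12,12,12]),(4,[9])],[])],5),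
  ([([(8,[12,12,12]),(4,[10])],[])],4), ([([(8,[12,12,12]),(5,[11])],[])],3),
  ([([(11,[12,12,12,12])],[])],2), ([([(5,[13])],[])],8), ([([(5,[13]),(4,[9])],[])],7),
  ([([(5,[13]),(4,[9]),(4,[8])],[])],8), ([([(5,[13]),(4,[9]),(4,[9])],[])],8),
  ([([(7,[9,9,9]),(5,[13])],[])],6), ([([(9,[13,9,9,9]),(4,[7])],[])],4),
  ([([(9,[13,9,9,9]),(4,[8])],[])],3), ([([(11,[13,9,9,9,9])],[])],2),
  ([([(5,[13]),(4,[10])],[])],7), ([([(5,[13]),(4,[10]),(4,[8])],[])],8),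
  ([([(5,[13]),(4,[10]),(4,[9])],[])],8), ([([(7,[13,10]),(6,[9,9])],[])],6),
  ([([(9,[13,10,9,9]),(4,[7])],[])],3), ([([(11,[13,10,9,9,8])],[])],2),
  ([([(10,[13,10,9,9,9])],[])],1), ([([(5,[13]),(4,[10]),(4,[10])],[])],8),
  ([([(7,[13,10]),(6,[10,9])],[])],6)]

def tr_13_1 : List (List (List (ℕ × List ℕ) × List ℕ) × ℕ) := [
  ([([(11,[13,10,10,9,7])],[])],2), ([([(10,[13,10,10,9,8])],[])],1),
  ([([(7,[13,10]),(6,[10,10])],[])],6), ([([(10,[13,10,10,10,7])],[])],1),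
  ([([(5,[13]),(5,[11])],[])],7), ([([(6,[13,8]),(5,[11])],[])],7),
  ([([(6,[13,8]),(6,[11,8])],[])],7), ([([(9,[13,11,8,8]),(4,[8])],[])],3),
  ([([(6,[11,9]),(5,[13])],[])],7), ([([(6,[13,8]),(6,[11,9])],[])],7),
  ([([(11,[13,11,9,8,8])],[])],2), ([([(7,[13,11]),(6,[9,9])],[])],6),
  ([([(11,[13,11,9,9,7])],[])],2), ([([(10,[13,11,9,9,8])],[])],1),
  ([([(6,[11,10]),(5,[13])],[])],7), ([([(6,[13,8]),(6,[11,10])],[])],7),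
  ([([(10,[13,11,10,8,8])],[])],1), ([([(7,[13,11]),(6,[10,9])],[])],6),
  ([([(10,[13,11,10,9,7])],[])],1), ([([(7,[13,11]),(6,[10,10])],[])],6),
  ([([(7,[13,11]),(5,[11])],[])],6), ([([(7,[13,11]),(6,[11,7])],[])],6),
  ([([(11,[13,11,11,7,7])],[])],2), ([([(7,[13,11]),(6,[11,8])],[])],6),
  ([([(10,[13,11,11,8,7])],[])],1), ([([(7,[13,11]),(6,[11,9])],[])],6),
  ([([(8,[13,11,11]),(4,[10])],[])],5), ([([(8,[13,11,11]),(5,[11])],[])],4),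
  ([([(5,[13]),(5,[12])],[])],7), ([([(6,[13,8]),(5,[12])],[])],7),
  ([([(6,[13,8]),(6,[12,8])],[])],7), ([([(11,[13,12,8,8,8])],[])],2),
  ([([(6,[12,9]),(5,[13])],[])],7), ([([(6,[13,8]),(6,[12,9])],[])],7),
  ([([(10,[13,12,9,8,8])],[])],1), ([([(7,[13,12]),(6,[9,9])],[])],6),
  ([([(10,[13,12,9,9,7])],[])],1), ([([(7,[13,12]),(4,[10])],[])],6),
  ([([(7,[13,12]),(6,[10,7])],[])],6), ([([(11,[13,12,10,7,7])],[])],2),
  ([([(7,[13,12]),(6,[10,8])],[])],6), ([([(10,[13,12,10,8,7])],[])],1),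
  ([([(7,[13,12]),(6,[10,9])],[])],6), ([([(8,[13,12,10]),(4,[10])],[])],5),
  ([([(7,[13,12]),(5,[11])],[])],6), ([([(7,[13,12]),(6,[11,7])],[])],6),
  ([([(10,[13,12,11,7,7])],[])],1), ([([(7,[13,12]),(6,[11,8])],[])],6),
  ([([(8,[13,12,11]),(4,[9])],[])],5), ([([(8,[13,12,11]),(4,[10])],[])],4),
  ([([(8,[13,12,11]),(5,[11])],[])],3), ([([(7,[13,12]),(5,[12])],[])],6),
  ([([(7,[13,12]),(6,[12,7])],[])],6), ([([(8,[13,12,8]),(5,[12])],[])],5),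
  ([([(8,[13,12,9]),(5,[12])],[])],4), ([([(8,[13,12,10]),(5,[12])],[])],3),
  ([([(11,[13,12,12,11])],[])],2), ([([(10,[13,12,12,12])],[])],1),
  ([([(5,[13]),(5,[13])],[])],7), ([([(6,[13,8]),(5,[13])],[])],7),
  ([([(6,[13,8]),(6,[13,8])],[])],7), ([([(10,[13,13,8,8,8])],[])],1),
  ([([(7,[13,13]),(4,[9])],[])],6), ([([(8,[13,13,9]),(4,[7])],[])],5),
  ([([(9,[13,13,9,7]),(3,[6])],[])],3), ([([(11,[13,13,9,7,7])],[])],2),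
  ([([(7,[13,13]),(6,[9,8])],[])],6), ([([(10,[13,13,9,8,7])],[])],1),
  ([([(7,[13,13]),(6,[9,9])],[])],6), ([([(7,[13,13]),(4,[10])],[])],6),
  ([([(7,[13,13]),(6,[10,7])],[])],6), ([([(10,[13,13,10,7,7])],[])],1),
  ([([(7,[13,13]),(6,[10,8])],[])],6), ([([(8,[13,13,10]),(4,[9])],[])],5),
  ([([(8,[13,13,10]),(4,[10])],[])],4), ([([(7,[13,13]),(5,[11])],[])],6),
  ([([(7,[13,13]),(6,[11,7])],[])],6), ([([(8,[13,13,8]),(5,[11])],[])],5),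
  ([([(8,[13,13,9]),(5,[11])],[])],4), ([([(8,[13,13,10]),(5,[11])],[])],3),
  ([([(11,[13,13,11,11])],[])],2), ([([(7,[13,13]),(5,[12])],[])],6),
  ([([(8,[13,13,7]),(5,[12])],[])],5), ([([(8,[13,13,8]),(5,[12])],[])],4),
  ([([(8,[13,13,9]),(5,[12])],[])],3), ([([(11,[13,13,12,10])],[])],2),
  ([([(10,[13,13,12,11])],[])],1), ([([(7,[13,13]),(5,[13])],[])],6),
  ([([(9,[13,13,13]),(4,[7])],[])],4), ([([(9,[13,13,13]),(4,[8])],[])],3),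
  ([([(11,[13,13,13,9])],[])],2), ([([(10,[13,13,13,10])],[])],1), ([([(5,[14])],[])],8),
  ([([(5,[14]),(4,[9])],[])],7), ([([(5,[14]),(4,[9]),(4,[8])],[])],8),
  ([([(5,[14]),(4,[9]),(4,[9])],[])],8), ([([(7,[14,9]),(6,[9,9])],[])],6),
  ([([(9,[14,9,9,9]),(4,[7])],[])],3), ([([(11,[14,9,9,9,8])],[])],2),
  ([([(10,[14,9,9,9,9])],[])],1)]

def tr_13_2 : List (List (List (ℕ × List ℕ) × List ℕ) × ℕ) := [
  ([([(5,[14]),(4,[10])],[])],7), ([([(5,[14]),(4,[10]),(4,[8])],[])],8),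
  ([([(5,[14]),(4,[10]),(4,[9])],[])],8), ([([(7,[14,10]),(6,[9,9])],[])],6),
  ([([(11,[14,10,9,9,7])],[])],2), ([([(10,[14,10,9,9,8])],[])],1),
  ([([(5,[14]),(4,[10]),(4,[10])],[])],8), ([([(7,[14,10]),(6,[10,9])],[])],6),
  ([([(10,[14,10,10,9,7])],[])],1), ([([(7,[14,10]),(6,[10,10])],[])],6),
  ([([(5,[14]),(5,[11])],[])],7), ([([(6,[11,8]),(5,[14])],[])],7),
  ([([(7,[11,8,8]),(5,[14])],[])],6), ([([(9,[14,11,8,8]),(4,[7])],[])],3),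
  ([([(11,[14,11,8,8,8])],[])],2), ([([(6,[11,9]),(5,[14])],[])],7),
  ([([(7,[14,11]),(6,[9,8])],[])],6), ([([(11,[14,11,9,8,7])],[])],2),
  ([([(10,[14,11,9,8,8])],[])],1), ([([(7,[14,11]),(6,[9,9])],[])],6),
  ([([(10,[14,11,9,9,7])],[])],1), ([([(6,[11,10]),(5,[14])],[])],7),
  ([([(7,[14,11]),(6,[10,8])],[])],6), ([([(10,[14,11,10,8,7])],[])],1),
  ([([(7,[14,11]),(6,[10,9])],[])],6), ([([(8,[14,11,10]),(4,[10])],[])],5),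
  ([([(7,[14,11]),(5,[11])],[])],6), ([([(7,[14,11]),(6,[11,7])],[])],6),
  ([([(10,[14,11,11,7,7])],[])],1), ([([(7,[14,11]),(6,[11,8])],[])],6),
  ([([(8,[14,11,11]),(4,[9])],[])],5), ([([(8,[14,11,11]),(4,[10])],[])],4),
  ([([(8,[14,11,11]),(5,[11])],[])],3), ([([(5,[14]),(5,[12])],[])],7),
  ([([(6,[12,8]),(5,[14])],[])],7), ([([(7,[12,8,8]),(5,[14])],[])],6),
  ([([(11,[14,12,8,8,7])],[])],2), ([([(10,[14,12,8,8,8])],[])],1),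
  ([([(6,[12,9]),(5,[14])],[])],7), ([([(7,[14,12]),(6,[9,8])],[])],6),
  ([([(10,[14,12,9,8,7])],[])],1), ([([(7,[14,12]),(6,[9,9])],[])],6),
  ([([(7,[14,12]),(4,[10])],[])],6), ([([(7,[14,12]),(6,[10,7])],[])],6),
  ([([(10,[14,12,10,7,7])],[])],1), ([([(7,[14,12]),(6,[10,8])],[])],6),
  ([([(8,[14,12,10]),(4,[9])],[])],5), ([([(8,[14,12,10]),(4,[10])],[])],4),
  ([([(7,[14,12]),(5,[11])],[])],6), ([([(7,[14,12]),(6,[11,7])],[])],6),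
  ([([(8,[14,12,8]),(5,[11])],[])],5), ([([(8,[14,12,9]),(5,[11])],[])],4),
  ([([(8,[14,12,10]),(5,[11])],[])],3), ([([(11,[14,12,11,11])],[])],2),
  ([([(7,[14,12]),(5,[12])],[])],6), ([([(8,[14,12,7]),(5,[12])],[])],5),
  ([([(8,[14,12,8]),(5,[12])],[])],4), ([([(8,[14,12,9]),(5,[12])],[])],3),
  ([([(11,[14,12,12,10])],[])],2), ([([(10,[14,12,12,11])],[])],1),
  ([([(5,[14]),(5,[13])],[])],7), ([([(6,[13,8]),(5,[14])],[])],7),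
  ([([(8,[14,13,8]),(4,[8])],[])],5), ([([(11,[14,13,8,8,6])],[])],2),
  ([([(10,[14,13,8,8,7])],[])],1), ([([(7,[14,13]),(4,[9])],[])],6),
  ([([(7,[14,9]),(6,[13,7])],[])],6), ([([(10,[14,13,9,7,7])],[])],1),
  ([([(7,[14,13]),(6,[9,8])],[])],6), ([([(8,[14,13,9]),(4,[9])],[])],5),
  ([([(7,[14,13]),(4,[10])],[])],6), ([([(7,[14,13]),(6,[10,7])],[])],6),
  ([([(8,[14,13,8]),(4,[10])],[])],5), ([([(8,[14,13,9]),(4,[10])],[])],4),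
  ([([(7,[14,13]),(6,[10,10])],[])],3), ([([(7,[14,13]),(5,[11])],[])],6),
  ([([(8,[14,13,7]),(5,[11])],[])],5), ([([(8,[14,13,8]),(5,[11])],[])],4),
  ([([(8,[14,13,9]),(5,[11])],[])],3), ([([(11,[14,13,11,10])],[])],2),
  ([([(10,[14,13,11,11])],[])],1), ([([(7,[14,13]),(5,[12])],[])],6),
  ([([(9,[14,13,12]),(4,[7])],[])],4), ([([(9,[14,13,12]),(4,[8])],[])],3),
  ([([(11,[14,13,12,9])],[])],2), ([([(10,[14,13,12,10])],[])],1),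
  ([([(7,[14,13]),(5,[13])],[])],6), ([([(9,[14,13,13]),(4,[7])],[])],3),
  ([([(11,[14,13,13,8])],[])],2), ([([(10,[14,13,13,9])],[])],1), ([([(5,[14]),(5,[14])],[])],7),
  ([([(7,[14,14]),(4,[8])],[])],6), ([([(7,[14,14]),(5,[8,7])],[])],6),
  ([([(10,[14,14,8,7,7])],[])],1), ([([(8,[14,14,8]),(4,[8])],[])],5),
  ([([(10,[14,14,8,8,6])],[])],1), ([([(7,[14,14]),(4,[9])],[])],6),
  ([([(7,[14,9]),(6,[14,7])],[])],6), ([([(8,[14,14,8]),(4,[9])],[])],5),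
  ([([(7,[14,14]),(6,[9,9])],[])],4)]

def tr_13_3 : List (List (List (ℕ × List ℕ) × List ℕ) × ℕ) := [
  ([([(7,[14,14]),(4,[10])],[])],6), ([([(8,[14,14,7]),(4,[10])],[])],5),
  ([([(8,[14,14,8]),(4,[10])],[])],4), ([([(7,[14,14]),(6,[10,9])],[])],3),
  ([([(11,[14,14,10,10])],[])],2), ([([(7,[14,14]),(5,[11])],[])],6),
  ([([(9,[14,14,11]),(4,[7])],[])],4), ([([(9,[14,14,11]),(4,[8])],[])],3),
  ([([(11,[14,14,11,9])],[])],2), ([([(10,[14,14,11,10])],[])],1),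
  ([([(7,[14,14]),(5,[12])],[])],6), ([([(9,[14,14,12]),(4,[7])],[])],3),
  ([([(11,[14,14,12,8])],[])],2), ([([(10,[14,14,12,9])],[])],1),
  ([([(7,[14,14]),(5,[13])],[])],6), ([([(11,[14,14,13,7])],[])],2),
  ([([(10,[14,14,13,8])],[])],1), ([([(7,[14,14]),(5,[14])],[])],6),
  ([([(10,[14,14,14,7])],[])],1), ([([(5,[15])],[])],8), ([([(5,[15]),(4,[9])],[])],7),
  ([([(5,[15]),(4,[9]),(4,[8])],[])],8), ([([(5,[15]),(4,[9]),(4,[9])],[])],8),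
  ([([(7,[15,9]),(6,[9,9])],[])],6), ([([(11,[15,9,9,9,7])],[])],2),
  ([([(10,[15,9,9,9,8])],[])],1), ([([(5,[15]),(4,[10])],[])],7),
  ([([(5,[15]),(4,[10]),(4,[8])],[])],8), ([([(5,[15]),(4,[10]),(4,[9])],[])],8),
  ([([(7,[15,10]),(6,[9,9])],[])],6), ([([(10,[15,10,9,9,7])],[])],1),
  ([([(5,[15]),(4,[10]),(4,[10])],[])],8), ([([(7,[15,10]),(6,[10,9])],[])],6),
  ([([(8,[15,10,10]),(4,[10])],[])],5), ([([(5,[15]),(5,[11])],[])],7),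
  ([([(6,[11,8]),(5,[15])],[])],7), ([([(7,[15,8]),(6,[11,8])],[])],6),
  ([([(11,[15,11,8,8,7])],[])],2), ([([(10,[15,11,8,8,8])],[])],1),
  ([([(6,[11,9]),(5,[15])],[])],7), ([([(7,[15,11]),(6,[9,8])],[])],6),
  ([([(10,[15,11,9,8,7])],[])],1), ([([(7,[15,11]),(6,[9,9])],[])],6),
  ([([(6,[11,10]),(5,[15])],[])],7), ([([(7,[15,11]),(6,[10,8])],[])],6),
  ([([(8,[15,11,10]),(4,[9])],[])],5), ([([(8,[15,11,10]),(4,[10])],[])],4),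
  ([([(7,[15,11]),(5,[11])],[])],6), ([([(7,[15,11]),(6,[11,7])],[])],6),
  ([([(8,[15,11,8]),(5,[11])],[])],5), ([([(8,[15,11,9]),(5,[11])],[])],4),
  ([([(8,[15,11,10]),(5,[11])],[])],3), ([([(11,[15,11,11,11])],[])],2),
  ([([(5,[15]),(5,[12])],[])],7), ([([(6,[12,8]),(5,[15])],[])],7),
  ([([(7,[15,8]),(6,[12,8])],[])],6), ([([(10,[15,12,8,8,7])],[])],1),
  ([([(6,[12,9]),(5,[15])],[])],7), ([([(7,[15,12]),(6,[9,8])],[])],6),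
  ([([(8,[15,12,9]),(4,[9])],[])],5), ([([(7,[15,12]),(4,[10])],[])],6),
  ([([(7,[15,12]),(6,[10,7])],[])],6), ([([(8,[15,12,8]),(4,[10])],[])],5),
  ([([(8,[15,12,9]),(4,[10])],[])],4), ([([(7,[15,12]),(6,[10,10])],[])],3),
  ([([(7,[15,12]),(5,[11])],[])],6), ([([(8,[15,12,7]),(5,[11])],[])],5),
  ([([(8,[15,12,8]),(5,[11])],[])],4), ([([(8,[15,12,9]),(5,[11])],[])],3),
  ([([(11,[15,12,11,10])],[])],2), ([([(10,[15,12,11,11])],[])],1),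
  ([([(7,[15,12]),(5,[12])],[])],6), ([([(9,[15,12,12]),(4,[7])],[])],4),
  ([([(9,[15,12,12]),(4,[8])],[])],3), ([([(11,[15,12,12,9])],[])],2),
  ([([(10,[15,12,12,10])],[])],1), ([([(5,[15]),(5,[13])],[])],7),
  ([([(6,[13,8]),(5,[15])],[])],7), ([([(7,[15,8]),(6,[13,8])],[])],6),
  ([([(7,[15,13]),(4,[9])],[])],6), ([([(7,[15,9]),(6,[13,7])],[])],6),
  ([([(8,[15,13,8]),(4,[9])],[])],5), ([([(7,[15,13]),(6,[9,9])],[])],4),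
  ([([(7,[15,13]),(4,[10])],[])],6), ([([(8,[15,13,7]),(4,[10])],[])],5),
  ([([(8,[15,13,8]),(4,[10])],[])],4), ([([(7,[15,13]),(6,[10,9])],[])],3),
  ([([(11,[15,13,10,10])],[])],2), ([([(7,[15,13]),(5,[11])],[])],6),
  ([([(9,[15,13,11]),(4,[7])],[])],4), ([([(9,[15,13,11]),(4,[8])],[])],3),
  ([([(11,[15,13,11,9])],[])],2), ([([(10,[15,13,11,10])],[])],1),
  ([([(7,[15,13]),(5,[12])],[])],6), ([([(9,[15,13,12]),(4,[7])],[])],3),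
  ([([(11,[15,13,12,8])],[])],2), ([([(10,[15,13,12,9])],[])],1),
  ([([(7,[15,13]),(5,[13])],[])],6), ([([(11,[15,13,13,7])],[])],2),
  ([([(10,[15,13,13,8])],[])],1)]

def tr_13_4 : List (List (List (ℕ × List ℕ) × List ℕ) × ℕ) := [
  ([([(5,[15]),(5,[14])],[])],7), ([([(7,[15,8]),(5,[14])],[])],6),
  ([([(7,[15,8]),(6,[14,7])],[])],6), ([([(8,[15,8,8]),(5,[14])],[])],5),
  ([([(7,[15,9]),(5,[14])],[])],6), ([([(8,[15,14,7]),(4,[9])],[])],5),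
  ([([(8,[15,9,8]),(5,[14])],[])],4), ([([(8,[15,9,9]),(5,[14])],[])],3),
  ([([(7,[15,10]),(5,[14])],[])],6), ([([(9,[15,14,10]),(4,[7])],[])],4),
  ([([(9,[15,14,10]),(4,[8])],[])],3), ([([(11,[15,14,10,9])],[])],2),
  ([([(10,[15,14,10,10])],[])],1), ([([(7,[15,11]),(5,[14])],[])],6),
  ([([(9,[15,14,11]),(4,[7])],[])],3), ([([(11,[15,14,11,8])],[])],2),
  ([([(10,[15,14,11,9])],[])],1), ([([(7,[15,12]),(5,[14])],[])],6),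
  ([([(11,[15,14,12,7])],[])],2), ([([(10,[15,14,12,8])],[])],1),
  ([([(7,[15,13]),(5,[14])],[])],6), ([([(10,[15,14,13,7])],[])],1),
  ([([(7,[14,14]),(5,[15])],[])],6), ([([(5,[15]),(5,[15])],[])],7),
  ([([(7,[15,8]),(5,[15])],[])],6), ([([(8,[15,15]),(5,[8,7])],[])],5),
  ([([(8,[15,8,8]),(5,[15])],[])],4), ([([(7,[15,9]),(5,[15])],[])],6),
  ([([(9,[15,15,9]),(4,[7])],[])],4), ([([(9,[15,15,9]),(4,[8])],[])],3),
  ([([(11,[15,15,9,9])],[])],2), ([([(7,[15,10]),(5,[15])],[])],6),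
  ([([(9,[15,15,10]),(4,[7])],[])],3), ([([(11,[15,15,10,8])],[])],2),
  ([([(10,[15,15,10,9])],[])],1), ([([(7,[15,11]),(5,[15])],[])],6),
  ([([(11,[15,15,11,7])],[])],2), ([([(10,[15,15,11,8])],[])],1),
  ([([(7,[15,12]),(5,[15])],[])],6), ([([(10,[15,15,12,7])],[])],1),
  ([([(7,[15,13]),(5,[15])],[])],6), ([([(8,[15,15]),(5,[14])],[])],5),
  ([([(9,[15,15,15])],[])],4), ([([(6,[16])],[])],7), ([([(6,[16]),(4,[8])],[])],7),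
  ([([(7,[16,8]),(4,[8])],[])],6), ([([(7,[16,8]),(5,[8,7])],[])],6),
  ([([(8,[16,8,8]),(5,[7,7])],[])],5), ([([(7,[8,8,8]),(6,[16])],[])],6),
  ([([(9,[16,8,8,8]),(4,[7])],[])],4), ([([(9,[16,8,8,8]),(4,[8])],[])],3),
  ([([(6,[16]),(4,[9])],[])],7), ([([(7,[16,9]),(4,[8])],[])],6),
  ([([(7,[16,9]),(5,[8,7])],[])],6), ([([(9,[16,9,8,7]),(4,[7])],[])],4),
  ([([(7,[16,8]),(6,[9,8])],[])],6), ([([(9,[16,9,8,8]),(4,[7])],[])],3),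
  ([([(11,[16,9,8,8,8])],[])],2), ([([(7,[16,9]),(4,[9])],[])],6),
  ([([(7,[16,7]),(6,[9,9])],[])],6), ([([(9,[16,9,9,7]),(4,[7])],[])],3),
  ([([(7,[16,9]),(6,[9,8])],[])],6), ([([(11,[16,9,9,8,7])],[])],2),
  ([([(10,[16,9,9,8,8])],[])],1), ([([(7,[16,9]),(6,[9,9])],[])],6),
  ([([(10,[16,9,9,9,7])],[])],1), ([([(6,[16]),(4,[10])],[])],7),
  ([([(7,[16,10]),(4,[8])],[])],6), ([([(7,[16,10]),(5,[8,7])],[])],6),
  ([([(9,[16,10,8,7]),(4,[7])],[])],3), ([([(7,[16,8]),(6,[10,8])],[])],6),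
  ([([(11,[16,10,8,8,7])],[])],2), ([([(10,[16,10,8,8,8])],[])],1),
  ([([(7,[16,10]),(4,[9])],[])],6), ([([(7,[16,9]),(6,[10,7])],[])],6),
  ([([(11,[16,10,9,7,7])],[])],2), ([([(7,[16,10]),(6,[9,8])],[])],6),
  ([([(10,[16,10,9,8,7])],[])],1), ([([(7,[16,10]),(6,[9,9])],[])],6),
  ([([(7,[16,10]),(4,[10])],[])],6), ([([(7,[16,10]),(6,[10,7])],[])],6),
  ([([(10,[16,10,10,7,7])],[])],1), ([([(7,[16,10]),(6,[10,8])],[])],6),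
  ([([(8,[16,10,10]),(4,[9])],[])],5), ([([(8,[16,10,10]),(4,[10])],[])],4),
  ([([(7,[16,11])],[])],6), ([([(7,[16,11]),(4,[7])],[])],6), ([([(7,[16,11]),(5,[7,7])],[])],6),
  ([([(9,[16,11,7,7]),(4,[7])],[])],3), ([([(7,[16,11]),(4,[8])],[])],6),
  ([([(7,[16,11]),(5,[8,7])],[])],6), ([([(11,[16,11,8,7,7])],[])],2),
  ([([(7,[16,8]),(6,[11,8])],[])],6), ([([(10,[16,11,8,8,7])],[])],1),
  ([([(7,[16,11]),(4,[9])],[])],6), ([([(7,[16,9]),(6,[11,7])],[])],6),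
  ([([(10,[16,11,9,7,7])],[])],1), ([([(7,[16,11]),(6,[9,8])],[])],6),
  ([([(8,[16,11,9]),(4,[9])],[])],5), ([([(6,[16]),(6,[11,10])],[])],7)]

def tr_13_5 : List (List (List (ℕ × List ℕ) × List ℕ) × ℕ) := [
  ([([(8,[16,11,8]),(4,[10])],[])],5), ([([(8,[16,11,9]),(4,[10])],[])],4),
  ([([(7,[16,11]),(6,[10,10])],[])],3), ([([(7,[16,11]),(5,[11])],[])],6),
  ([([(8,[16,11,7]),(5,[11])],[])],5), ([([(8,[16,11,8]),(5,[11])],[])],4),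
  ([([(8,[16,11,9]),(5,[11])],[])],3), ([([(11,[16,11,11,10])],[])],2),
  ([([(10,[16,11,11,11])],[])],1), ([([(7,[16,12])],[])],6), ([([(7,[16,12]),(4,[7])],[])],6),
  ([([(7,[16,12]),(5,[7,7])],[])],6), ([([(11,[16,12,7,7,7])],[])],2),
  ([([(7,[16,12]),(4,[8])],[])],6), ([([(7,[16,12]),(5,[8,7])],[])],6),
  ([([(10,[16,12,8,7,7])],[])],1), ([([(7,[16,8]),(6,[12,8])],[])],6),
  ([([(6,[16]),(6,[12,9])],[])],7), ([([(8,[16,12,8]),(4,[9])],[])],5),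
  ([([(7,[16,12]),(6,[9,9])],[])],4), ([([(7,[16,12]),(4,[10])],[])],6),
  ([([(8,[16,12,7]),(4,[10])],[])],5), ([([(8,[16,12,8]),(4,[10])],[])],4),
  ([([(7,[16,12]),(6,[10,9])],[])],3), ([([(11,[16,12,10,10])],[])],2),
  ([([(7,[16,12]),(5,[11])],[])],6), ([([(9,[16,12,11]),(4,[7])],[])],4),
  ([([(9,[16,12,11]),(4,[8])],[])],3), ([([(11,[16,12,11,9])],[])],2),
  ([([(10,[16,12,11,10])],[])],1), ([([(7,[16,12]),(5,[12])],[])],6),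
  ([([(9,[16,12,12]),(4,[7])],[])],3), ([([(11,[16,12,12,8])],[])],2),
  ([([(10,[16,12,12,9])],[])],1), ([([(6,[16]),(5,[13])],[])],6),
  ([([(7,[16,7]),(5,[13])],[])],6), ([([(7,[16,7]),(6,[13,7])],[])],6),
  ([([(10,[16,13,7,7,7])],[])],1), ([([(6,[16]),(6,[13,8])],[])],7),
  ([([(8,[16,8,8]),(5,[13])],[])],5), ([([(7,[16,9]),(5,[13])],[])],6),
  ([([(8,[16,13,7]),(4,[9])],[])],5), ([([(8,[16,9,8]),(5,[13])],[])],4),
  ([([(8,[16,9,9]),(5,[13])],[])],3), ([([(7,[16,10]),(5,[13])],[])],6),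
  ([([(9,[16,13,10]),(4,[7])],[])],4), ([([(9,[16,13,10]),(4,[8])],[])],3),
  ([([(11,[16,13,10,9])],[])],2), ([([(10,[16,13,10,10])],[])],1),
  ([([(7,[16,11]),(5,[13])],[])],6), ([([(9,[16,13,11]),(4,[7])],[])],3),
  ([([(11,[16,13,11,8])],[])],2), ([([(10,[16,13,11,9])],[])],1),
  ([([(7,[16,12]),(5,[13])],[])],6), ([([(11,[16,13,12,7])],[])],2),
  ([([(10,[16,13,12,8])],[])],1), ([([(7,[13,13]),(6,[16])],[])],6),
  ([([(10,[16,13,13,7])],[])],1), ([([(6,[16]),(5,[14])],[])],7),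
  ([([(7,[16,8]),(5,[14])],[])],6), ([([(8,[16,14]),(5,[8,7])],[])],5),
  ([([(8,[16,8,8]),(5,[14])],[])],4), ([([(7,[16,9]),(5,[14])],[])],6),
  ([([(9,[16,14,9]),(4,[7])],[])],4), ([([(9,[16,14,9]),(4,[8])],[])],3),
  ([([(11,[16,14,9,9])],[])],2), ([([(7,[16,10]),(5,[14])],[])],6),
  ([([(9,[16,14,10]),(4,[7])],[])],3), ([([(11,[16,14,10,8])],[])],2),
  ([([(10,[16,14,10,9])],[])],1), ([([(7,[16,11]),(5,[14])],[])],6),
  ([([(11,[16,14,11,7])],[])],2), ([([(10,[16,14,11,8])],[])],1),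
  ([([(7,[16,12]),(5,[14])],[])],6), ([([(10,[16,14,12,7])],[])],1),
  ([([(7,[14,13]),(6,[16])],[])],6), ([([(8,[16,14]),(5,[14])],[])],5),
  ([([(6,[16]),(5,[15])],[])],7), ([([(7,[16,8]),(5,[15])],[])],6),
  ([([(9,[16,15,8]),(4,[7])],[])],4), ([([(9,[16,15,8]),(4,[8])],[])],3),
  ([([(7,[16,9]),(5,[15])],[])],6), ([([(9,[16,15,9]),(4,[7])],[])],3),
  ([([(11,[16,15,9,8])],[])],2), ([([(10,[16,15,9,9])],[])],1), ([([(7,[16,10]),(5,[15])],[])],6),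
  ([([(11,[16,15,10,7])],[])],2), ([([(10,[16,15,10,8])],[])],1),
  ([([(7,[16,11]),(5,[15])],[])],6), ([([(10,[16,15,11,7])],[])],1),
  ([([(7,[16,12]),(5,[15])],[])],6), ([([(8,[16,15]),(5,[13])],[])],5),
  ([([(9,[16,15,14])],[])],4), ([([(8,[16,15]),(5,[15])],[])],3), ([([(6,[16]),(6,[16])],[])],6),
  ([([(7,[16,7]),(6,[16])],[])],6), ([([(9,[16,16,7]),(4,[7])],[])],4),
  ([([(7,[16,8]),(6,[16])],[])],6), ([([(9,[16,16,8]),(4,[7])],[])],3),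
  ([([(11,[16,16,8,8])],[])],2)]

def tr_13_6 : List (List (List (ℕ × List ℕ) × List ℕ) × ℕ) := [
  ([([(7,[16,9]),(6,[16])],[])],6), ([([(11,[16,16,9,7])],[])],2), ([([(10,[16,16,9,8])],[])],1),
  ([([(7,[16,10]),(6,[16])],[])],6), ([([(10,[16,16,10,7])],[])],1),
  ([([(7,[16,11]),(6,[16])],[])],6), ([([(8,[16,16]),(5,[12])],[])],5),
  ([([(9,[16,16,13])],[])],4), ([([(8,[16,16]),(5,[14])],[])],3), ([([(11,[16,16,15])],[])],2),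
  ([([(10,[16,16,16])],[])],1), ([([(6,[17])],[])],7), ([([(6,[17]),(4,[8])],[])],7),
  ([([(7,[17,8]),(4,[8])],[])],6), ([([(7,[17,8]),(5,[8,7])],[])],6),
  ([([(9,[17,8,8,7]),(4,[7])],[])],4), ([([(7,[8,8,8]),(6,[17])],[])],6),
  ([([(9,[17,8,8,8]),(4,[7])],[])],3), ([([(11,[17,8,8,8,8])],[])],2),
  ([([(6,[17]),(4,[9])],[])],7), ([([(7,[17,9]),(4,[8])],[])],6),
  ([([(7,[17,9]),(5,[8,7])],[])],6), ([([(9,[17,9,8,7]),(4,[7])],[])],3),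
  ([([(7,[17,8]),(6,[9,8])],[])],6), ([([(11,[17,9,8,8,7])],[])],2),
  ([([(10,[17,9,8,8,8])],[])],1), ([([(7,[17,9]),(4,[9])],[])],6),
  ([([(7,[17,7]),(6,[9,9])],[])],6), ([([(11,[17,9,9,7,7])],[])],2),
  ([([(7,[17,9]),(6,[9,8])],[])],6), ([([(10,[17,9,9,8,7])],[])],1),
  ([([(7,[17,9]),(6,[9,9])],[])],6), ([([(6,[17]),(4,[10])],[])],7),
  ([([(7,[17,10]),(4,[8])],[])],6), ([([(7,[17,10]),(5,[8,7])],[])],6),
  ([([(11,[17,10,8,7,7])],[])],2), ([([(7,[17,8]),(6,[10,8])],[])],6),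
  ([([(10,[17,10,8,8,7])],[])],1), ([([(7,[17,10]),(4,[9])],[])],6),
  ([([(7,[17,9]),(6,[10,7])],[])],6), ([([(10,[17,10,9,7,7])],[])],1),
  ([([(7,[17,10]),(6,[9,8])],[])],6), ([([(8,[17,10,9]),(4,[9])],[])],5),
  ([([(6,[17]),(6,[10,10])],[])],7), ([([(8,[17,10,8]),(4,[10])],[])],5),
  ([([(8,[17,10,9]),(4,[10])],[])],4), ([([(7,[17,10]),(6,[10,10])],[])],3),
  ([([(7,[17,11])],[])],6), ([([(7,[17,11]),(4,[7])],[])],6), ([([(7,[17,11]),(5,[7,7])],[])],6),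
  ([([(11,[17,11,7,7,7])],[])],2), ([([(7,[17,11]),(4,[8])],[])],6),
  ([([(7,[17,11]),(5,[8,7])],[])],6), ([([(10,[17,11,8,7,7])],[])],1),
  ([([(7,[17,8]),(6,[11,8])],[])],6), ([([(6,[17]),(6,[11,9])],[])],7),
  ([([(8,[17,11,8]),(4,[9])],[])],5), ([([(7,[17,11]),(6,[9,9])],[])],4),
  ([([(6,[17]),(6,[11,10])],[])],7), ([([(8,[17,11,8]),(4,[10])],[])],4),
  ([([(7,[17,11]),(6,[10,9])],[])],3), ([([(11,[17,11,10,10])],[])],2),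
  ([([(7,[17,11]),(5,[11])],[])],6), ([([(9,[17,11,11]),(4,[7])],[])],4),
  ([([(9,[17,11,11]),(4,[8])],[])],3), ([([(11,[17,11,11,9])],[])],2),
  ([([(10,[17,11,11,10])],[])],1), ([([(6,[17]),(5,[12])],[])],6),
  ([([(7,[17,7]),(5,[12])],[])],6), ([([(7,[17,7]),(6,[12,7])],[])],6),
  ([([(10,[17,12,7,7,7])],[])],1), ([([(6,[17]),(6,[12,8])],[])],7),
  ([([(8,[17,8,8]),(5,[12])],[])],5), ([([(6,[17]),(6,[12,9])],[])],7),
  ([([(8,[17,9,8]),(5,[12])],[])],4), ([([(8,[17,9,9]),(5,[12])],[])],3),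
  ([([(7,[17,10]),(5,[12])],[])],6), ([([(9,[17,12,10]),(4,[7])],[])],4),
  ([([(9,[17,12,10]),(4,[8])],[])],3), ([([(11,[17,12,10,9])],[])],2),
  ([([(10,[17,12,10,10])],[])],1), ([([(7,[17,11]),(5,[12])],[])],6),
  ([([(9,[17,12,11]),(4,[7])],[])],3), ([([(11,[17,12,11,8])],[])],2),
  ([([(10,[17,12,11,9])],[])],1), ([([(7,[12,12]),(6,[17])],[])],6),
  ([([(11,[17,12,12,7])],[])],2), ([([(10,[17,12,12,8])],[])],1), ([([(6,[17]),(5,[13])],[])],7),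
  ([([(6,[17]),(6,[13,8])],[])],7), ([([(8,[17,8,8]),(5,[13])],[])],4),
  ([([(7,[17,9]),(5,[13])],[])],6), ([([(9,[17,13,9]),(4,[7])],[])],4),
  ([([(9,[17,13,9]),(4,[8])],[])],3), ([([(11,[17,13,9,9])],[])],2),
  ([([(7,[17,10]),(5,[13])],[])],6), ([([(9,[17,13,10]),(4,[7])],[])],3),
  ([([(11,[17,13,10,8])],[])],2), ([([(10,[17,13,10,9])],[])],1),
  ([([(7,[17,11]),(5,[13])],[])],6)]

def tr_13_7 : List (List (List (ℕ × List ℕ) × List ℕ) × ℕ) := [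
  ([([(11,[17,13,11,7])],[])],2), ([([(10,[17,13,11,8])],[])],1),
  ([([(7,[13,12]),(6,[17])],[])],6), ([([(10,[17,13,12,7])],[])],1),
  ([([(7,[13,13]),(6,[17])],[])],6), ([([(6,[17]),(5,[14])],[])],7),
  ([([(7,[17,8]),(5,[14])],[])],6), ([([(9,[17,14,8]),(4,[7])],[])],4),
  ([([(9,[17,14,8]),(4,[8])],[])],3), ([([(7,[17,9]),(5,[14])],[])],6),
  ([([(9,[17,14,9]),(4,[7])],[])],3), ([([(11,[17,14,9,8])],[])],2),
  ([([(10,[17,14,9,9])],[])],1), ([([(7,[17,10]),(5,[14])],[])],6),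
  ([([(11,[17,14,10,7])],[])],2), ([([(10,[17,14,10,8])],[])],1),
  ([([(7,[17,11]),(5,[14])],[])],6), ([([(10,[17,14,11,7])],[])],1),
  ([([(7,[14,12]),(6,[17])],[])],6), ([([(8,[17,14]),(5,[13])],[])],5),
  ([([(9,[17,14,14])],[])],4), ([([(6,[17]),(5,[15])],[])],7), ([([(7,[17,8]),(5,[15])],[])],6),
  ([([(9,[17,15,8]),(4,[7])],[])],3), ([([(11,[17,15,8,8])],[])],2),
  ([([(7,[17,9]),(5,[15])],[])],6), ([([(11,[17,15,9,7])],[])],2), ([([(10,[17,15,9,8])],[])],1),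
  ([([(7,[17,10]),(5,[15])],[])],6), ([([(10,[17,15,10,7])],[])],1),
  ([([(7,[17,11]),(5,[15])],[])],6), ([([(8,[17,15]),(5,[12])],[])],5),
  ([([(9,[17,15,13])],[])],4), ([([(8,[17,15]),(5,[14])],[])],3), ([([(11,[17,15,15])],[])],2),
  ([([(6,[17]),(6,[16])],[])],6), ([([(7,[17,7]),(6,[16])],[])],6),
  ([([(9,[17,16,7]),(4,[7])],[])],3), ([([(7,[17,8]),(6,[16])],[])],6),
  ([([(11,[17,16,8,7])],[])],2), ([([(10,[17,16,8,8])],[])],1), ([([(7,[17,9]),(6,[16])],[])],6),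
  ([([(10,[17,16,9,7])],[])],1), ([([(7,[17,10]),(6,[16])],[])],6),
  ([([(8,[17,16]),(5,[11])],[])],5), ([([(9,[17,16,12])],[])],4),
  ([([(8,[17,16]),(5,[13])],[])],3), ([([(11,[17,16,14])],[])],2), ([([(10,[17,16,15])],[])],1),
  ([([(6,[17]),(6,[17])],[])],6), ([([(7,[17,7]),(6,[17])],[])],6), ([([(11,[17,17,7,7])],[])],2),
  ([([(7,[17,8]),(6,[17])],[])],6), ([([(10,[17,17,8,7])],[])],1),
  ([([(7,[17,9]),(6,[17])],[])],6), ([([(8,[17,17]),(4,[10])],[])],5),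
  ([([(9,[17,17,11])],[])],4), ([([(8,[17,17]),(5,[12])],[])],3), ([([(11,[17,17,13])],[])],2),
  ([([(10,[17,17,14])],[])],1), ([([(6,[18])],[])],7), ([([(6,[18]),(4,[8])],[])],7),
  ([([(7,[18,8]),(4,[8])],[])],6), ([([(7,[18,8]),(5,[8,7])],[])],6),
  ([([(9,[18,8,8,7]),(4,[7])],[])],3), ([([(7,[8,8,8]),(6,[18])],[])],6),
  ([([(11,[18,8,8,8,7])],[])],2), ([([(10,[18,8,8,8,8])],[])],1), ([([(6,[18]),(4,[9])],[])],7),
  ([([(7,[18,9]),(4,[8])],[])],6), ([([(7,[18,9]),(5,[8,7])],[])],6),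
  ([([(11,[18,9,8,7,7])],[])],2), ([([(7,[18,8]),(6,[9,8])],[])],6),
  ([([(10,[18,9,8,8,7])],[])],1), ([([(7,[18,9]),(4,[9])],[])],6),
  ([([(7,[18,7]),(6,[9,9])],[])],6), ([([(10,[18,9,9,7,7])],[])],1),
  ([([(7,[18,9]),(6,[9,8])],[])],6), ([([(8,[18,9,9]),(4,[9])],[])],5),
  ([([(6,[18]),(4,[10])],[])],7), ([([(7,[18,10]),(4,[8])],[])],6),
  ([([(7,[18,10]),(5,[8,7])],[])],6), ([([(10,[18,10,8,7,7])],[])],1),
  ([([(7,[18,8]),(6,[10,8])],[])],6), ([([(6,[18]),(6,[10,9])],[])],7),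
  ([([(8,[18,10,8]),(4,[9])],[])],5), ([([(7,[18,10]),(6,[9,9])],[])],4),
  ([([(6,[18]),(6,[10,10])],[])],7), ([([(8,[18,10,8]),(4,[10])],[])],4),
  ([([(7,[18,10]),(6,[10,9])],[])],3), ([([(11,[18,10,10,10])],[])],2),
  ([([(6,[18]),(5,[11])],[])],6), ([([(7,[18,7]),(5,[11])],[])],6),
  ([([(7,[18,7]),(6,[11,7])],[])],6), ([([(10,[18,11,7,7,7])],[])],1),
  ([([(6,[18]),(6,[11,8])],[])],7), ([([(8,[18,8,8]),(5,[11])],[])],5),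
  ([([(6,[18]),(6,[11,9])],[])],7), ([([(8,[18,9,8]),(5,[11])],[])],4),
  ([([(8,[18,9,9]),(5,[11])],[])],3)]

def tr_13_8 : List (List (List (ℕ × List ℕ) × List ℕ) × ℕ) := [
  ([([(6,[18]),(6,[11,10])],[])],7), ([([(9,[18,11,10]),(4,[8])],[])],3),
  ([([(11,[18,11,10,9])],[])],2), ([([(10,[18,11,10,10])],[])],1), ([([(9,[18,11,11])],[])],4),
  ([([(8,[18,11,5]),(5,[11])],[])],5), ([([(9,[18,11,11]),(3,[6])],[])],4),
  ([([(9,[18,11,11]),(4,[7])],[])],3), ([([(11,[18,11,11,8])],[])],2),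
  ([([(10,[18,11,11,9])],[])],1), ([([(6,[18]),(5,[12])],[])],7),
  ([([(6,[18]),(6,[12,8])],[])],7), ([([(8,[18,8,8]),(5,[12])],[])],4),
  ([([(6,[18]),(6,[12,9])],[])],7), ([([(9,[18,12,9]),(4,[8])],[])],3),
  ([([(11,[18,12,9,9])],[])],2), ([([(7,[18,10]),(5,[12])],[])],6),
  ([([(9,[18,12,10]),(4,[7])],[])],3), ([([(11,[18,12,10,8])],[])],2),
  ([([(10,[18,12,10,9])],[])],1), ([([(7,[12,11]),(6,[18])],[])],6),
  ([([(11,[18,12,11,7])],[])],2), ([([(10,[18,12,11,8])],[])],1),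
  ([([(7,[12,12]),(6,[18])],[])],6), ([([(10,[18,12,12,7])],[])],1),
  ([([(6,[18]),(5,[13])],[])],7), ([([(6,[18]),(6,[13,8])],[])],7),
  ([([(9,[18,13,8]),(4,[8])],[])],3), ([([(7,[18,9]),(5,[13])],[])],6),
  ([([(9,[18,13,9]),(4,[7])],[])],3), ([([(11,[18,13,9,8])],[])],2),
  ([([(10,[18,13,9,9])],[])],1), ([([(7,[18,10]),(5,[13])],[])],6),
  ([([(11,[18,13,10,7])],[])],2), ([([(10,[18,13,10,8])],[])],1),
  ([([(7,[13,11]),(6,[18])],[])],6), ([([(10,[18,13,11,7])],[])],1),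
  ([([(7,[13,12]),(6,[18])],[])],6), ([([(8,[18,13]),(5,[13])],[])],5),
  ([([(6,[18]),(5,[14])],[])],7), ([([(7,[18,8]),(5,[14])],[])],6),
  ([([(9,[18,14,8]),(4,[7])],[])],3), ([([(11,[18,14,8,8])],[])],2),
  ([([(7,[18,9]),(5,[14])],[])],6), ([([(11,[18,14,9,7])],[])],2), ([([(10,[18,14,9,8])],[])],1),
  ([([(7,[18,10]),(5,[14])],[])],6), ([([(10,[18,14,10,7])],[])],1),
  ([([(7,[14,11]),(6,[18])],[])],6), ([([(8,[18,14]),(5,[12])],[])],5),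
  ([([(9,[18,14,13])],[])],4), ([([(8,[18,14]),(5,[14])],[])],3), ([([(6,[18]),(5,[15])],[])],7),
  ([([(7,[18,8]),(5,[15])],[])],6), ([([(11,[18,15,8,7])],[])],2), ([([(10,[18,15,8,8])],[])],1),
  ([([(7,[18,9]),(5,[15])],[])],6), ([([(10,[18,15,9,7])],[])],1),
  ([([(7,[18,10]),(5,[15])],[])],6), ([([(8,[18,15]),(5,[11])],[])],5),
  ([([(9,[18,15,12])],[])],4), ([([(8,[18,15]),(5,[13])],[])],3), ([([(11,[18,15,14])],[])],2),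
  ([([(10,[18,15,15])],[])],1), ([([(6,[18]),(6,[16])],[])],6), ([([(7,[18,7]),(6,[16])],[])],6),
  ([([(11,[18,16,7,7])],[])],2), ([([(7,[18,8]),(6,[16])],[])],6), ([([(10,[18,16,8,7])],[])],1),
  ([([(7,[18,9]),(6,[16])],[])],6), ([([(8,[18,16]),(4,[10])],[])],5),
  ([([(9,[18,16,11])],[])],4), ([([(8,[18,16]),(5,[12])],[])],3), ([([(11,[18,16,13])],[])],2),
  ([([(10,[18,16,14])],[])],1), ([([(6,[18]),(6,[17])],[])],6), ([([(7,[18,7]),(6,[17])],[])],6),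
  ([([(10,[18,17,7,7])],[])],1), ([([(7,[18,8]),(6,[17])],[])],6),
  ([([(8,[18,17]),(4,[9])],[])],5), ([([(9,[18,17,10])],[])],4),
  ([([(8,[18,17]),(5,[11])],[])],3), ([([(11,[18,17,12])],[])],2), ([([(10,[18,17,13])],[])],1),
  ([([(6,[18]),(6,[18])],[])],7), ([([(8,[18,18]),(4,[8])],[])],5), ([([(9,[18,18,9])],[])],4),
  ([([(8,[18,18]),(4,[10])],[])],3), ([([(11,[18,18,11])],[])],2), ([([(10,[18,18,12])],[])],1),
  ([([(6,[19])],[])],7), ([([(6,[19]),(4,[8])],[])],7), ([([(7,[19,8]),(4,[8])],[])],6),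
  ([([(7,[19,8]),(5,[8,7])],[])],6), ([([(11,[19,8,8,7,7])],[])],2),
  ([([(7,[8,8,8]),(6,[19])],[])],6), ([([(10,[19,8,8,8,7])],[])],1),
  ([([(6,[19]),(4,[9])],[])],7), ([([(7,[19,9]),(4,[8])],[])],6),
  ([([(7,[19,9]),(5,[8,7])],[])],6)]

def tr_13_9 : List (List (List (ℕ × List ℕ) × List ℕ) × ℕ) := [
  ([([(10,[19,9,8,7,7])],[])],1), ([([(7,[19,8]),(6,[9,8])],[])],6),
  ([([(6,[19]),(6,[9,9])],[])],7), ([([(8,[19,9,8]),(4,[9])],[])],5),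
  ([([(7,[19,9]),(6,[9,9])],[])],4), ([([(6,[19]),(4,[10])],[])],7),
  ([([(6,[19]),(6,[10,8])],[])],7), ([([(8,[19,8,8]),(4,[10])],[])],5),
  ([([(6,[19]),(6,[10,9])],[])],7), ([([(8,[19,9,8]),(4,[10])],[])],4),
  ([([(7,[19,9]),(6,[10,9])],[])],3), ([([(6,[19]),(6,[10,10])],[])],7),
  ([([(9,[19,10,10]),(4,[8])],[])],3), ([([(11,[19,10,10,9])],[])],2),
  ([([(10,[19,10,10,10])],[])],1), ([([(6,[19]),(5,[11])],[])],7),
  ([([(6,[19]),(6,[11,8])],[])],7), ([([(8,[19,8,8]),(5,[11])],[])],4),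
  ([([(6,[19]),(6,[11,9])],[])],7), ([([(9,[19,11,9]),(4,[8])],[])],3),
  ([([(11,[19,11,9,9])],[])],2), ([([(6,[19]),(6,[11,10])],[])],7),
  ([([(11,[19,11,10,8])],[])],2), ([([(10,[19,11,10,9])],[])],1),
  ([([(8,[19,11]),(5,[11])],[])],5), ([([(9,[19,11,11]),(3,[6])],[])],3),
  ([([(11,[19,11,11,7])],[])],2), ([([(10,[19,11,11,8])],[])],1), ([([(6,[19]),(5,[12])],[])],7),
  ([([(6,[19]),(6,[12,8])],[])],7), ([([(9,[19,12,8]),(4,[8])],[])],3),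
  ([([(6,[19]),(6,[12,9])],[])],7), ([([(11,[19,12,9,8])],[])],2), ([([(10,[19,12,9,9])],[])],1),
  ([([(8,[19,12]),(4,[10])],[])],5), ([([(9,[19,12,10]),(3,[6])],[])],3),
  ([([(11,[19,12,10,7])],[])],2), ([([(10,[19,12,10,8])],[])],1),
  ([([(7,[12,11]),(6,[19])],[])],6), ([([(10,[19,12,11,7])],[])],1),
  ([([(7,[12,12]),(6,[19])],[])],6), ([([(6,[19]),(5,[13])],[])],7),
  ([([(6,[19]),(6,[13,8])],[])],7), ([([(11,[19,13,8,8])],[])],2),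
  ([([(7,[19,9]),(5,[13])],[])],6), ([([(11,[19,13,9,7])],[])],2), ([([(10,[19,13,9,8])],[])],1),
  ([([(7,[13,10]),(6,[19])],[])],6), ([([(10,[19,13,10,7])],[])],1),
  ([([(7,[13,11]),(6,[19])],[])],6), ([([(8,[19,13]),(5,[12])],[])],5),
  ([([(9,[19,13,13])],[])],4), ([([(6,[19]),(5,[14])],[])],7), ([([(7,[19,8]),(5,[14])],[])],6),
  ([([(11,[19,14,8,7])],[])],2), ([([(10,[19,14,8,8])],[])],1), ([([(7,[19,9]),(5,[14])],[])],6),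
  ([([(10,[19,14,9,7])],[])],1), ([([(7,[14,10]),(6,[19])],[])],6),
  ([([(8,[19,14]),(5,[11])],[])],5), ([([(9,[19,14,12])],[])],4),
  ([([(8,[19,14]),(5,[13])],[])],3), ([([(11,[19,14,14])],[])],2), ([([(6,[19]),(5,[15])],[])],7),
  ([([(7,[19,8]),(5,[15])],[])],6), ([([(10,[19,15,8,7])],[])],1),
  ([([(7,[19,9]),(5,[15])],[])],6), ([([(8,[19,15]),(4,[10])],[])],5),
  ([([(9,[19,15,11])],[])],4), ([([(8,[19,15]),(5,[12])],[])],3), ([([(11,[19,15,13])],[])],2),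
  ([([(10,[19,15,14])],[])],1), ([([(6,[19]),(6,[16])],[])],6), ([([(7,[19,7]),(6,[16])],[])],6),
  ([([(10,[19,16,7,7])],[])],1), ([([(7,[19,8]),(6,[16])],[])],6),
  ([([(8,[19,16]),(4,[9])],[])],5), ([([(9,[19,16,10])],[])],4),
  ([([(8,[19,16]),(5,[11])],[])],3), ([([(11,[19,16,12])],[])],2), ([([(10,[19,16,13])],[])],1),
  ([([(6,[19]),(6,[17])],[])],7), ([([(8,[19,17]),(4,[8])],[])],5), ([([(9,[19,17,9])],[])],4),
  ([([(8,[19,17]),(4,[10])],[])],3), ([([(11,[19,17,11])],[])],2), ([([(10,[19,17,12])],[])],1),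
  ([([(6,[19]),(6,[18])],[])],7), ([([(9,[19,18,8])],[])],4), ([([(7,[19,9]),(6,[18])],[])],3),
  ([([(11,[19,18,10])],[])],2), ([([(10,[19,18,11])],[])],1), ([([(6,[19]),(6,[19])],[])],7),
  ([([(9,[19,19]),(4,[8])],[])],3), ([([(11,[19,19,9])],[])],2), ([([(10,[19,19,10])],[])],1),
  ([([(6,[20])],[])],7), ([([(6,[20]),(4,[8])],[])],7), ([([(7,[20,8]),(4,[8])],[])],6),
  ([([(7,[20,8]),(5,[8,7])],[])],6)]

def tr_13_10 : List (List (List (ℕ × List ℕ) × List ℕ) × ℕ) := [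
  ([([(10,[20,8,8,7,7])],[])],1), ([([(7,[8,8,8]),(6,[20])],[])],6),
  ([([(6,[20]),(4,[9])],[])],7), ([([(6,[20]),(6,[9,8])],[])],7),
  ([([(8,[20,8,8]),(4,[9])],[])],5), ([([(6,[20]),(6,[9,9])],[])],7),
  ([([(7,[20,8]),(6,[9,9])],[])],4), ([([(7,[9,9,9]),(6,[20])],[])],3),
  ([([(6,[20]),(4,[10])],[])],7), ([([(6,[20]),(6,[10,8])],[])],7),
  ([([(8,[20,8,8]),(4,[10])],[])],4), ([([(6,[20]),(6,[10,9])],[])],7),
  ([([(9,[20,10,9]),(4,[8])],[])],3), ([([(11,[20,10,9,9])],[])],2),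
  ([([(6,[20]),(6,[10,10])],[])],7), ([([(11,[20,10,10,8])],[])],2),
  ([([(10,[20,10,10,9])],[])],1), ([([(6,[20]),(5,[11])],[])],7),
  ([([(6,[20]),(6,[11,8])],[])],7), ([([(9,[20,11,8]),(4,[8])],[])],3),
  ([([(6,[20]),(6,[11,9])],[])],7), ([([(11,[20,11,9,8])],[])],2), ([([(10,[20,11,9,9])],[])],1),
  ([([(6,[20]),(6,[11,10])],[])],7), ([([(10,[20,11,10,8])],[])],1),
  ([([(8,[20,11]),(5,[11])],[])],5), ([([(11,[20,11,11,6])],[])],2),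
  ([([(10,[20,11,11,7])],[])],1), ([([(6,[20]),(5,[12])],[])],7),
  ([([(6,[20]),(6,[12,8])],[])],7), ([([(11,[20,12,8,8])],[])],2),
  ([([(6,[20]),(6,[12,9])],[])],7), ([([(10,[20,12,9,8])],[])],1),
  ([([(8,[20,12]),(4,[10])],[])],5), ([([(11,[20,12,10,6])],[])],2),
  ([([(10,[20,12,10,7])],[])],1), ([([(7,[12,11]),(6,[20])],[])],6),
  ([([(8,[20,12]),(5,[12])],[])],5), ([([(6,[20]),(5,[13])],[])],7),
  ([([(6,[20]),(6,[13,8])],[])],7), ([([(10,[20,13,8,8])],[])],1),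
  ([([(8,[20,13]),(4,[9])],[])],5), ([([(11,[20,13,9,6])],[])],2), ([([(10,[20,13,9,7])],[])],1),
  ([([(7,[13,10]),(6,[20])],[])],6), ([([(8,[20,13]),(5,[11])],[])],5),
  ([([(9,[20,13,12])],[])],4), ([([(8,[20,13]),(5,[13])],[])],3), ([([(6,[20]),(5,[14])],[])],7),
  ([([(7,[20,8]),(5,[14])],[])],6), ([([(10,[20,14,8,7])],[])],1),
  ([([(7,[14,9]),(6,[20])],[])],6), ([([(8,[20,14]),(4,[10])],[])],5),
  ([([(9,[20,14,11])],[])],4), ([([(8,[20,14]),(5,[12])],[])],3), ([([(11,[20,14,13])],[])],2),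
  ([([(10,[20,14,14])],[])],1), ([([(6,[20]),(5,[15])],[])],7), ([([(7,[20,8]),(5,[15])],[])],6),
  ([([(8,[20,15]),(4,[9])],[])],5), ([([(9,[20,15,10])],[])],4),
  ([([(8,[20,15]),(5,[11])],[])],3), ([([(11,[20,15,12])],[])],2), ([([(10,[20,15,13])],[])],1),
  ([([(6,[20]),(6,[16])],[])],7), ([([(8,[20,16]),(4,[8])],[])],5), ([([(9,[20,16,9])],[])],4),
  ([([(8,[20,16]),(4,[10])],[])],3), ([([(11,[20,16,11])],[])],2), ([([(10,[20,16,12])],[])],1),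
  ([([(6,[20]),(6,[17])],[])],7), ([([(9,[20,17,8])],[])],4), ([([(7,[17,9]),(6,[20])],[])],3),
  ([([(11,[20,17,10])],[])],2), ([([(10,[20,17,11])],[])],1), ([([(6,[20]),(6,[18])],[])],7),
  ([([(9,[20,18]),(4,[8])],[])],3), ([([(11,[20,18,9])],[])],2), ([([(10,[20,18,10])],[])],1),
  ([([(6,[20]),(6,[19])],[])],7), ([([(11,[20,19,8])],[])],2), ([([(10,[20,19,9])],[])],1),
  ([([(6,[20]),(6,[20])],[])],7), ([([(10,[20,20,8])],[])],1), ([([(6,[21])],[])],7),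
  ([([(6,[21]),(4,[8])],[])],7), ([([(7,[8,8]),(6,[21])],[])],6),
  ([([(8,[21,8,7]),(4,[8])],[])],5), ([([(10,[21,8,8,7,6])],[])],1),
  ([([(7,[8,8,8]),(6,[21])],[])],5), ([([(6,[21]),(4,[9])],[])],7),
  ([([(6,[21]),(6,[9,8])],[])],7), ([([(7,[9,8,8]),(6,[21])],[])],4),
  ([([(6,[21]),(6,[9,9])],[])],7), ([([(9,[21,9,9]),(4,[8])],[])],3),
  ([([(11,[21,9,9,9])],[])],2), ([([(6,[21]),(4,[10])],[])],7), ([([(6,[21]),(6,[10,8])],[])],7),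
  ([([(9,[21,10,8]),(4,[8])],[])],3), ([([(6,[21]),(6,[10,9])],[])],7)]

def tr_13_11 : List (List (List (ℕ × List ℕ) × List ℕ) × ℕ) := [
  ([([(11,[21,10,9,8])],[])],2), ([([(10,[21,10,9,9])],[])],1), ([([(6,[21]),(6,[10,10])],[])],7),
  ([([(10,[21,10,10,8])],[])],1), ([([(6,[21]),(5,[11])],[])],7),
  ([([(6,[21]),(6,[11,8])],[])],7), ([([(11,[21,11,8,8])],[])],2),
  ([([(6,[21]),(6,[11,9])],[])],7), ([([(10,[21,11,9,8])],[])],1),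
  ([([(6,[21]),(6,[11,10])],[])],7), ([([(8,[21,11]),(5,[11])],[])],5),
  ([([(10,[21,11,11,6])],[])],1), ([([(6,[21]),(5,[12])],[])],7),
  ([([(6,[21]),(6,[12,8])],[])],7), ([([(10,[21,12,8,8])],[])],1),
  ([([(6,[21]),(6,[12,9])],[])],7), ([([(8,[21,12]),(4,[10])],[])],5),
  ([([(10,[21,12,10,6])],[])],1), ([([(8,[21,12]),(5,[11])],[])],5), ([([(9,[21,12,12])],[])],4),
  ([([(6,[21]),(5,[13])],[])],7), ([([(6,[21]),(6,[13,8])],[])],7),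
  ([([(8,[21,13]),(4,[9])],[])],5), ([([(10,[21,13,9,6])],[])],1),
  ([([(8,[21,13]),(4,[10])],[])],5), ([([(9,[21,13,11])],[])],4),
  ([([(8,[21,13]),(5,[12])],[])],3), ([([(11,[21,13,13])],[])],2), ([([(6,[21]),(5,[14])],[])],7),
  ([([(8,[21,14]),(4,[8])],[])],5), ([([(10,[21,14,8,6])],[])],1),
  ([([(8,[21,14]),(4,[9])],[])],5), ([([(9,[21,14,10])],[])],4),
  ([([(8,[21,14]),(5,[11])],[])],3), ([([(11,[21,14,12])],[])],2), ([([(10,[21,14,13])],[])],1),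
  ([([(6,[21]),(5,[15])],[])],7), ([([(8,[21,15]),(4,[8])],[])],5), ([([(9,[21,15,9])],[])],4),
  ([([(8,[21,15]),(4,[10])],[])],3), ([([(11,[21,15,11])],[])],2), ([([(10,[21,15,12])],[])],1),
  ([([(6,[21]),(6,[16])],[])],7), ([([(9,[21,16,8])],[])],4), ([([(7,[16,9]),(6,[21])],[])],3),
  ([([(11,[21,16,10])],[])],2), ([([(10,[21,16,11])],[])],1), ([([(6,[21]),(6,[17])],[])],7),
  ([([(9,[21,17]),(4,[8])],[])],3), ([([(11,[21,17,9])],[])],2), ([([(10,[21,17,10])],[])],1),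
  ([([(6,[21]),(6,[18])],[])],7), ([([(11,[21,18,8])],[])],2), ([([(10,[21,18,9])],[])],1),
  ([([(6,[21]),(6,[19])],[])],7), ([([(10,[21,19,8])],[])],1), ([([(6,[21]),(6,[20])],[])],7),
  ([([(6,[21]),(6,[21])],[])],6), ([([(7,[22])],[])],6), ([([(7,[22]),(4,[7])],[])],6),
  ([([(7,[22]),(5,[7,7])],[])],6), ([([(7,[22]),(6,[7,7,7])],[])],6),
  ([([(10,[22,7,7,7,7])],[])],1), ([([(7,[22]),(4,[8])],[])],6), ([([(7,[22]),(5,[8,7])],[])],6),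
  ([([(8,[22,8]),(5,[7,7])],[])],5), ([([(10,[22,8,7,7,6])],[])],1),
  ([([(8,[22,8]),(4,[8])],[])],5), ([([(8,[22,8,6]),(4,[8])],[])],5),
  ([([(10,[22,8,8,6,6])],[])],1), ([([(8,[22,8]),(5,[8,7])],[])],5), ([([(11,[22,8,8,8])],[])],2),
  ([([(11,[22,8,8,8,3])],[])],2), ([([(10,[22,8,8,8,4])],[])],1), ([([(7,[22]),(4,[9])],[])],6),
  ([([(8,[22,9]),(4,[7])],[])],5), ([([(8,[22,9]),(5,[7,6])],[])],5),
  ([([(10,[22,9,7,6,6])],[])],1), ([([(8,[22,9]),(5,[7,7])],[])],5),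
  ([([(7,[22]),(6,[9,8])],[])],6), ([([(9,[22,9,8]),(4,[7])],[])],4),
  ([([(9,[22,9,8]),(4,[8])],[])],3), ([([(7,[22]),(6,[9,9])],[])],6),
  ([([(9,[22,9,9]),(4,[7])],[])],3), ([([(11,[22,9,9,8])],[])],2), ([([(10,[22,9,9,9])],[])],1),
  ([([(7,[22]),(4,[10])],[])],6), ([([(7,[22]),(6,[10,7])],[])],6),
  ([([(9,[22,10,7]),(4,[7])],[])],4), ([([(7,[22]),(6,[10,8])],[])],6),
  ([([(9,[22,10,8]),(4,[7])],[])],3), ([([(11,[22,10,8,8])],[])],2),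
  ([([(7,[22]),(6,[10,9])],[])],6), ([([(11,[22,10,9,7])],[])],2), ([([(10,[22,10,9,8])],[])],1),
  ([([(7,[22]),(6,[10,10])],[])],6), ([([(10,[22,10,10,7])],[])],1),
  ([([(7,[22]),(5,[11])],[])],6), ([([(7,[22]),(6,[11,7])],[])],6),
  ([([(9,[22,11,7]),(4,[7])],[])],3)]

def tr_13_12 : List (List (List (ℕ × List ℕ) × List ℕ) × ℕ) := [
  ([([(7,[22]),(6,[11,8])],[])],6), ([([(11,[22,11,8,7])],[])],2), ([([(10,[22,11,8,8])],[])],1),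
  ([([(7,[22]),(6,[11,9])],[])],6), ([([(10,[22,11,9,7])],[])],1),
  ([([(7,[22]),(6,[11,10])],[])],6), ([([(8,[22,11]),(5,[11])],[])],5),
  ([([(7,[22]),(5,[12])],[])],6), ([([(7,[22]),(6,[12,7])],[])],6), ([([(11,[22,12,7,7])],[])],2),
  ([([(7,[22]),(6,[12,8])],[])],6), ([([(10,[22,12,8,7])],[])],1),
  ([([(7,[22]),(6,[12,9])],[])],6), ([([(8,[22,12]),(4,[10])],[])],5),
  ([([(9,[22,12,11])],[])],4), ([([(8,[22,12]),(5,[12])],[])],3), ([([(7,[22]),(5,[13])],[])],6),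
  ([([(7,[22]),(6,[13,7])],[])],6), ([([(10,[22,13,7,7])],[])],1),
  ([([(7,[22]),(6,[13,8])],[])],6), ([([(8,[22,13]),(4,[9])],[])],5), ([([(9,[22,13,10])],[])],4),
  ([([(8,[22,13]),(5,[11])],[])],3), ([([(11,[22,13,12])],[])],2), ([([(10,[22,13,13])],[])],1),
  ([([(7,[22]),(5,[14])],[])],6), ([([(7,[22]),(6,[14,7])],[])],6),
  ([([(8,[22,14]),(4,[8])],[])],5), ([([(9,[22,14,9])],[])],4), ([([(8,[22,14]),(4,[10])],[])],3),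
  ([([(11,[22,14,11])],[])],2), ([([(10,[22,14,12])],[])],1), ([([(7,[22]),(5,[15])],[])],6),
  ([([(9,[22,15,7])],[])],4), ([([(10,[22,15,7,5])],[])],1), ([([(9,[22,15,8])],[])],4),
  ([([(8,[22,9]),(5,[15])],[])],3), ([([(11,[22,15,10])],[])],2), ([([(10,[22,15,11])],[])],1),
  ([([(7,[22]),(6,[16])],[])],6), ([([(9,[22,16,7])],[])],4), ([([(9,[22,16]),(4,[8])],[])],3),
  ([([(11,[22,16,9])],[])],2), ([([(10,[22,16,10])],[])],1), ([([(7,[22]),(6,[17])],[])],6),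
  ([([(9,[22,17]),(4,[7])],[])],3), ([([(11,[22,17,8])],[])],2), ([([(10,[22,17,9])],[])],1),
  ([([(7,[22]),(6,[18])],[])],6), ([([(11,[22,18,7])],[])],2), ([([(10,[22,18,8])],[])],1),
  ([([(7,[22]),(6,[19])],[])],6), ([([(10,[22,19,7])],[])],1), ([([(7,[22]),(6,[20])],[])],6),
  ([([(7,[22]),(6,[21])],[])],5), ([([(9,[22,22])],[])],4), ([([(7,[23])],[])],6),
  ([([(7,[23]),(4,[7])],[])],6), ([([(7,[23]),(5,[7,7])],[])],6),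
  ([([(7,[23]),(6,[7,7,7])],[])],6), ([([(7,[23]),(4,[8])],[])],6),
  ([([(7,[23]),(5,[8,7])],[])],6), ([([(8,[23,8]),(5,[7,7])],[])],5),
  ([([(8,[23,8]),(4,[8])],[])],5), ([([(8,[23,8]),(5,[8,6])],[])],5),
  ([([(9,[23,8,8]),(4,[7])],[])],4), ([([(9,[23,8,8]),(4,[8])],[])],3),
  ([([(7,[23]),(4,[9])],[])],6), ([([(8,[23,9]),(4,[7])],[])],5),
  ([([(8,[23,9]),(5,[7,6])],[])],5), ([([(9,[23,9,7]),(4,[7])],[])],4),
  ([([(7,[23]),(6,[9,8])],[])],6), ([([(9,[23,9,8]),(4,[7])],[])],3),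
  ([([(11,[23,9,8,8])],[])],2), ([([(7,[23]),(6,[9,9])],[])],6), ([([(11,[23,9,9,7])],[])],2),
  ([([(10,[23,9,9,8])],[])],1), ([([(7,[23]),(4,[10])],[])],6), ([([(7,[23]),(6,[10,7])],[])],6),
  ([([(9,[23,10,7]),(4,[7])],[])],3), ([([(7,[23]),(6,[10,8])],[])],6),
  ([([(11,[23,10,8,7])],[])],2), ([([(10,[23,10,8,8])],[])],1), ([([(7,[23]),(6,[10,9])],[])],6),
  ([([(10,[23,10,9,7])],[])],1), ([([(7,[23]),(6,[10,10])],[])],6),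
  ([([(7,[23]),(5,[11])],[])],6), ([([(7,[23]),(6,[11,7])],[])],6), ([([(11,[23,11,7,7])],[])],2),
  ([([(7,[23]),(6,[11,8])],[])],6), ([([(10,[23,11,8,7])],[])],1),
  ([([(7,[23]),(6,[11,9])],[])],6), ([([(8,[23,11]),(4,[10])],[])],5),
  ([([(9,[23,11,11])],[])],4), ([([(7,[23]),(5,[12])],[])],6), ([([(7,[23]),(6,[12,7])],[])],6),
  ([([(10,[23,12,7,7])],[])],1), ([([(7,[23]),(6,[12,8])],[])],6),
  ([([(8,[23,12]),(4,[9])],[])],5), ([([(9,[23,12,10])],[])],4)]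

def tr_13_13 : List (List (List (ℕ × List ℕ) × List ℕ) × ℕ) := [
  ([([(8,[23,12]),(5,[11])],[])],3), ([([(11,[23,12,12])],[])],2), ([([(7,[23]),(5,[13])],[])],6),
  ([([(7,[23]),(6,[13,7])],[])],6), ([([(8,[23,13]),(4,[8])],[])],5), ([([(9,[23,13,9])],[])],4),
  ([([(8,[23,13]),(4,[10])],[])],3), ([([(11,[23,13,11])],[])],2), ([([(10,[23,13,12])],[])],1),
  ([([(7,[23]),(5,[14])],[])],6), ([([(8,[23,7]),(5,[14])],[])],5), ([([(9,[23,14,8])],[])],4),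
  ([([(8,[23,9]),(5,[14])],[])],3), ([([(11,[23,14,10])],[])],2), ([([(10,[23,14,11])],[])],1),
  ([([(7,[23]),(5,[15])],[])],6), ([([(9,[23,15,7])],[])],4), ([([(9,[23,15]),(4,[8])],[])],3),
  ([([(11,[23,15,9])],[])],2), ([([(10,[23,15,10])],[])],1), ([([(7,[23]),(6,[16])],[])],6),
  ([([(9,[23,16]),(4,[7])],[])],3), ([([(11,[23,16,8])],[])],2), ([([(10,[23,16,9])],[])],1),
  ([([(7,[23]),(6,[17])],[])],6), ([([(11,[23,17,7])],[])],2), ([([(10,[23,17,8])],[])],1),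
  ([([(7,[23]),(6,[18])],[])],6), ([([(10,[23,18,7])],[])],1), ([([(7,[23]),(6,[19])],[])],6),
  ([([(7,[23]),(6,[20])],[])],5), ([([(9,[23,21])],[])],4), ([([(9,[23,22])],[])],3),
  ([([(11,[23,23])],[])],2), ([([(7,[24])],[])],6), ([([(7,[24]),(4,[7])],[])],6),
  ([([(7,[24]),(5,[7,7])],[])],6), ([([(8,[24,7]),(5,[7,7])],[])],5),
  ([([(7,[24]),(4,[8])],[])],6), ([([(7,[24]),(5,[8,7])],[])],6),
  ([([(9,[24,8,7]),(4,[7])],[])],4), ([([(8,[24,8]),(4,[8])],[])],5),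
  ([([(9,[24,8,8]),(3,[6])],[])],4), ([([(9,[24,8,8]),(4,[7])],[])],3),
  ([([(11,[24,8,8,8])],[])],2), ([([(7,[24]),(4,[9])],[])],6), ([([(8,[24,9]),(4,[7])],[])],5),
  ([([(9,[24,9,7]),(3,[6])],[])],4), ([([(9,[24,9,7]),(4,[7])],[])],3),
  ([([(7,[24]),(6,[9,8])],[])],6), ([([(11,[24,9,8,7])],[])],2), ([([(10,[24,9,8,8])],[])],1),
  ([([(7,[24]),(6,[9,9])],[])],6), ([([(10,[24,9,9,7])],[])],1), ([([(7,[24]),(4,[10])],[])],6),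
  ([([(7,[24]),(6,[10,7])],[])],6), ([([(11,[24,10,7,7])],[])],2),
  ([([(7,[24]),(6,[10,8])],[])],6), ([([(10,[24,10,8,7])],[])],1),
  ([([(7,[24]),(6,[10,9])],[])],6), ([([(8,[24,10]),(4,[10])],[])],5),
  ([([(7,[24]),(5,[11])],[])],6), ([([(7,[24]),(6,[11,7])],[])],6), ([([(10,[24,11,7,7])],[])],1),
  ([([(7,[24]),(6,[11,8])],[])],6), ([([(8,[24,11]),(4,[9])],[])],5), ([([(9,[24,11,10])],[])],4),
  ([([(8,[24,11]),(5,[11])],[])],3), ([([(7,[24]),(5,[12])],[])],6),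
  ([([(7,[24]),(6,[12,7])],[])],6), ([([(8,[24,12]),(4,[8])],[])],5), ([([(9,[24,12,9])],[])],4),
  ([([(8,[24,12]),(4,[10])],[])],3), ([([(11,[24,12,11])],[])],2), ([([(10,[24,12,12])],[])],1),
  ([([(7,[24]),(5,[13])],[])],6), ([([(8,[24,7]),(5,[13])],[])],5), ([([(9,[24,13,8])],[])],4),
  ([([(8,[24,9]),(5,[13])],[])],3), ([([(11,[24,13,10])],[])],2), ([([(10,[24,13,11])],[])],1),
  ([([(7,[24]),(5,[14])],[])],6), ([([(9,[24,14,7])],[])],4), ([([(9,[24,14]),(4,[8])],[])],3),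
  ([([(11,[24,14,9])],[])],2), ([([(10,[24,14,10])],[])],1), ([([(7,[24]),(5,[15])],[])],6),
  ([([(9,[24,15]),(4,[7])],[])],3), ([([(11,[24,15,8])],[])],2), ([([(10,[24,15,9])],[])],1),
  ([([(7,[24]),(6,[16])],[])],6), ([([(11,[24,16,7])],[])],2), ([([(10,[24,16,8])],[])],1),
  ([([(7,[24]),(6,[17])],[])],6), ([([(10,[24,17,7])],[])],1), ([([(7,[24]),(6,[18])],[])],6),
  ([([(7,[24]),(6,[19])],[])],5), ([([(9,[24,20])],[])],4), ([([(9,[24,21])],[])],3),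
  ([([(11,[24,22])],[])],2)]

def tr_13_14 : List (List (List (ℕ × List ℕ) × List ℕ) × ℕ) := [
  ([([(10,[24,23])],[])],1), ([([(7,[25])],[])],6), ([([(7,[25]),(4,[7])],[])],6),
  ([([(7,[25]),(5,[7,7])],[])],6), ([([(9,[25,7,7]),(4,[7])],[])],4),
  ([([(7,[25]),(4,[8])],[])],6), ([([(7,[25]),(5,[8,7])],[])],6),
  ([([(9,[25,8,7]),(4,[7])],[])],3), ([([(8,[25,8]),(4,[8])],[])],5),
  ([([(9,[25,8,8]),(3,[6])],[])],3), ([([(11,[25,8,8,7])],[])],2), ([([(10,[25,8,8,8])],[])],1),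
  ([([(7,[25]),(4,[9])],[])],6), ([([(8,[25,9]),(4,[7])],[])],5),
  ([([(9,[25,9,7]),(3,[6])],[])],3), ([([(11,[25,9,7,7])],[])],2),
  ([([(7,[25]),(6,[9,8])],[])],6), ([([(10,[25,9,8,7])],[])],1), ([([(7,[25]),(6,[9,9])],[])],6),
  ([([(7,[25]),(4,[10])],[])],6), ([([(7,[25]),(6,[10,7])],[])],6), ([([(10,[25,10,7,7])],[])],1),
  ([([(7,[25]),(6,[10,8])],[])],6), ([([(8,[25,10]),(4,[9])],[])],5), ([([(9,[25,10,10])],[])],4),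
  ([([(7,[25]),(5,[11])],[])],6), ([([(7,[25]),(6,[11,7])],[])],6),
  ([([(8,[25,11]),(4,[8])],[])],5), ([([(9,[25,11,9])],[])],4), ([([(8,[25,11]),(4,[10])],[])],3),
  ([([(11,[25,11,11])],[])],2), ([([(7,[25]),(5,[12])],[])],6), ([([(8,[25,7]),(5,[12])],[])],5),
  ([([(9,[25,12,8])],[])],4), ([([(8,[25,9]),(5,[12])],[])],3), ([([(11,[25,12,10])],[])],2),
  ([([(10,[25,12,11])],[])],1), ([([(7,[25]),(5,[13])],[])],6), ([([(9,[25,13,7])],[])],4),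
  ([([(9,[25,13]),(4,[8])],[])],3), ([([(11,[25,13,9])],[])],2), ([([(10,[25,13,10])],[])],1),
  ([([(7,[25]),(5,[14])],[])],6), ([([(9,[25,14]),(4,[7])],[])],3), ([([(11,[25,14,8])],[])],2),
  ([([(10,[25,14,9])],[])],1), ([([(7,[25]),(5,[15])],[])],6), ([([(11,[25,15,7])],[])],2),
  ([([(10,[25,15,8])],[])],1), ([([(7,[25]),(6,[16])],[])],6), ([([(10,[25,16,7])],[])],1),
  ([([(7,[25]),(6,[17])],[])],6), ([([(7,[25]),(6,[18])],[])],5), ([([(9,[25,19])],[])],4),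
  ([([(9,[25,20])],[])],3), ([([(11,[25,21])],[])],2), ([([(10,[25,22])],[])],1),
  ([([(7,[26])],[])],6), ([([(7,[26]),(4,[7])],[])],6), ([([(7,[26]),(5,[7,7])],[])],6),
  ([([(9,[26,7,7]),(4,[7])],[])],3), ([([(7,[26]),(4,[8])],[])],6),
  ([([(7,[26]),(5,[8,7])],[])],6), ([([(11,[26,8,7,7])],[])],2), ([([(8,[26,8]),(4,[8])],[])],5),
  ([([(11,[26,8,8,6])],[])],2), ([([(10,[26,8,8,7])],[])],1), ([([(7,[26]),(4,[9])],[])],6),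
  ([([(8,[26,9]),(4,[7])],[])],5), ([([(11,[26,9,7,6])],[])],2), ([([(10,[26,9,7,7])],[])],1),
  ([([(7,[26]),(6,[9,8])],[])],6), ([([(8,[26,9]),(4,[9])],[])],5),
  ([([(7,[26]),(4,[10])],[])],6), ([([(7,[26]),(6,[10,7])],[])],6),
  ([([(8,[26,10]),(4,[8])],[])],5), ([([(9,[26,10,9])],[])],4), ([([(8,[26,10]),(4,[10])],[])],3),
  ([([(7,[26]),(5,[11])],[])],6), ([([(8,[26,7]),(5,[11])],[])],5), ([([(9,[26,11,8])],[])],4),
  ([([(8,[26,9]),(5,[11])],[])],3), ([([(11,[26,11,10])],[])],2), ([([(10,[26,11,11])],[])],1),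
  ([([(7,[26]),(5,[12])],[])],6), ([([(9,[26,12,7])],[])],4), ([([(9,[26,12]),(4,[8])],[])],3),
  ([([(11,[26,12,9])],[])],2), ([([(10,[26,12,10])],[])],1), ([([(7,[26]),(5,[13])],[])],6),
  ([([(9,[26,13]),(4,[7])],[])],3), ([([(11,[26,13,8])],[])],2), ([([(10,[26,13,9])],[])],1),
  ([([(7,[26]),(5,[14])],[])],6), ([([(11,[26,14,7])],[])],2), ([([(10,[26,14,8])],[])],1),
  ([([(7,[26]),(5,[15])],[])],6), ([([(10,[26,15,7])],[])],1), ([([(7,[26]),(6,[16])],[])],6),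
  ([([(7,[26]),(6,[17])],[])],5)]

def tr_13_15 : List (List (List (ℕ × List ℕ) × List ℕ) × ℕ) := [
  ([([(9,[26,18])],[])],4), ([([(9,[26,19])],[])],3), ([([(11,[26,20])],[])],2),
  ([([(10,[26,21])],[])],1), ([([(7,[27])],[])],6), ([([(7,[27]),(4,[7])],[])],6),
  ([([(7,[27]),(5,[7,7])],[])],6), ([([(11,[27,7,7,7])],[])],2), ([([(7,[27]),(4,[8])],[])],6),
  ([([(7,[27]),(5,[8,7])],[])],6), ([([(10,[27,8,7,7])],[])],1), ([([(8,[27,8]),(4,[8])],[])],5),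
  ([([(10,[27,8,8,6])],[])],1), ([([(7,[27]),(4,[9])],[])],6), ([([(8,[27,9]),(4,[7])],[])],5),
  ([([(10,[27,9,7,6])],[])],1), ([([(8,[27,9]),(4,[8])],[])],5), ([([(9,[27,9,9])],[])],4),
  ([([(7,[27]),(4,[10])],[])],6), ([([(8,[27,7]),(4,[10])],[])],5), ([([(9,[27,10,8])],[])],4),
  ([([(8,[27,9]),(4,[10])],[])],3), ([([(11,[27,10,10])],[])],2), ([([(7,[27]),(5,[11])],[])],6),
  ([([(9,[27,11,7])],[])],4), ([([(9,[27,11]),(4,[8])],[])],3), ([([(11,[27,11,9])],[])],2),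
  ([([(10,[27,11,10])],[])],1), ([([(7,[27]),(5,[12])],[])],6), ([([(9,[27,12]),(4,[7])],[])],3),
  ([([(11,[27,12,8])],[])],2), ([([(10,[27,12,9])],[])],1), ([([(7,[27]),(5,[13])],[])],6),
  ([([(11,[27,13,7])],[])],2), ([([(10,[27,13,8])],[])],1), ([([(7,[27]),(5,[14])],[])],6),
  ([([(10,[27,14,7])],[])],1), ([([(7,[27]),(5,[15])],[])],6), ([([(7,[27]),(6,[16])],[])],5),
  ([([(9,[27,17])],[])],4), ([([(9,[27,18])],[])],3), ([([(11,[27,19])],[])],2),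
  ([([(10,[27,20])],[])],1), ([([(7,[28])],[])],6), ([([(7,[28]),(4,[7])],[])],6),
  ([([(7,[28]),(5,[7,7])],[])],6), ([([(10,[28,7,7,7])],[])],1), ([([(7,[28]),(4,[8])],[])],6),
  ([([(7,[28]),(5,[8,7])],[])],6), ([([(8,[28,8]),(4,[8])],[])],5), ([([(7,[28]),(4,[9])],[])],6),
  ([([(8,[28,7]),(4,[9])],[])],5), ([([(9,[28,9,8])],[])],4), ([([(7,[28]),(6,[9,9])],[])],3),
  ([([(7,[28]),(4,[10])],[])],6), ([([(9,[28,10,7])],[])],4), ([([(9,[28,10]),(4,[8])],[])],3),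
  ([([(11,[28,10,9])],[])],2), ([([(10,[28,10,10])],[])],1), ([([(7,[28]),(5,[11])],[])],6),
  ([([(9,[28,11]),(4,[7])],[])],3), ([([(11,[28,11,8])],[])],2), ([([(10,[28,11,9])],[])],1),
  ([([(7,[28]),(5,[12])],[])],6), ([([(11,[28,12,7])],[])],2), ([([(10,[28,12,8])],[])],1),
  ([([(7,[28]),(5,[13])],[])],6), ([([(10,[28,13,7])],[])],1), ([([(7,[28]),(5,[14])],[])],6),
  ([([(7,[28]),(5,[15])],[])],5), ([([(9,[28,16])],[])],4), ([([(9,[28,17])],[])],3),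
  ([([(11,[28,18])],[])],2), ([([(10,[28,19])],[])],1), ([([(8,[29])],[])],5),
  ([([(8,[29,6])],[])],5), ([([(8,[29,6]),(3,[6])],[])],5), ([([(9,[29,6,6]),(3,[6])],[])],3),
  ([([(8,[29,7])],[])],5), ([([(8,[29,7]),(3,[6])],[])],5), ([([(11,[29,7,6,6])],[])],2),
  ([([(8,[29,7]),(4,[7])],[])],5), ([([(10,[29,7,7,6])],[])],1), ([([(8,[29]),(4,[8])],[])],5),
  ([([(8,[29,6]),(4,[8])],[])],5), ([([(10,[29,8,6,6])],[])],1), ([([(8,[29,7]),(4,[8])],[])],5),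
  ([([(9,[29,8,8])],[])],4), ([([(8,[29]),(4,[9])],[])],5), ([([(8,[29,6]),(4,[9])],[])],5),
  ([([(9,[29,9,7])],[])],4), ([([(9,[29,9]),(4,[8])],[])],3), ([([(11,[29,9,9])],[])],2),
  ([([(8,[29]),(4,[10])],[])],5), ([([(9,[29,10,6])],[])],4), ([([(9,[29,10]),(4,[7])],[])],3),
  ([([(11,[29,10,8])],[])],2), ([([(10,[29,10,9])],[])],1), ([([(8,[29]),(5,[11])],[])],5),
  ([([(9,[29,11]),(3,[6])],[])],3)]

def tr_13_16 : List (List (List (ℕ × List ℕ) × List ℕ) × ℕ) := [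
  ([([(11,[29,11,7])],[])],2), ([([(10,[29,11,8])],[])],1), ([([(8,[29]),(5,[12])],[])],5),
  ([([(11,[29,12,6])],[])],2), ([([(10,[29,12,7])],[])],1), ([([(8,[29]),(5,[13])],[])],5),
  ([([(10,[29,13,6])],[])],1), ([([(8,[29]),(5,[14])],[])],5), ([([(9,[29,15])],[])],4),
  ([([(9,[29,16])],[])],3), ([([(11,[29,17])],[])],2), ([([(10,[29,18])],[])],1),
  ([([(8,[30])],[])],5), ([([(8,[30,6])],[])],5), ([([(8,[30,6]),(3,[6])],[])],5),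
  ([([(11,[30,6,6,6])],[])],2), ([([(8,[30]),(4,[7])],[])],5), ([([(8,[30,6]),(4,[7])],[])],5),
  ([([(10,[30,7,6,6])],[])],1), ([([(8,[30]),(5,[7,7])],[])],5), ([([(8,[30]),(4,[8])],[])],5),
  ([([(8,[30,6]),(4,[8])],[])],5), ([([(9,[30,8,7])],[])],4), ([([(9,[30,8]),(4,[8])],[])],3),
  ([([(8,[30]),(4,[9])],[])],5), ([([(9,[30,9,6])],[])],4), ([([(9,[30,9]),(4,[7])],[])],3),
  ([([(11,[30,9,8])],[])],2), ([([(10,[30,9,9])],[])],1), ([([(8,[30]),(4,[10])],[])],5),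
  ([([(9,[30,10]),(3,[6])],[])],3), ([([(11,[30,10,7])],[])],2), ([([(10,[30,10,8])],[])],1),
  ([([(8,[30]),(5,[11])],[])],5), ([([(11,[30,11,6])],[])],2), ([([(10,[30,11,7])],[])],1),
  ([([(8,[30]),(5,[12])],[])],5), ([([(10,[30,12,6])],[])],1), ([([(8,[30]),(5,[13])],[])],5),
  ([([(9,[30,14])],[])],4), ([([(9,[30,15])],[])],3), ([([(11,[30,16])],[])],2),
  ([([(10,[30,17])],[])],1), ([([(8,[31])],[])],5), ([([(8,[31]),(3,[6])],[])],5),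
  ([([(8,[31]),(5,[6,6])],[])],5), ([([(10,[31,6,6,6])],[])],1), ([([(8,[31]),(4,[7])],[])],5),
  ([([(8,[31]),(5,[7,6])],[])],5), ([([(9,[31,7,7])],[])],4), ([([(8,[31]),(4,[8])],[])],5),
  ([([(9,[31,8,6])],[])],4), ([([(9,[31,8]),(4,[7])],[])],3), ([([(11,[31,8,8])],[])],2),
  ([([(8,[31]),(4,[9])],[])],5), ([([(9,[31,9]),(3,[6])],[])],3), ([([(11,[31,9,7])],[])],2),
  ([([(10,[31,9,8])],[])],1), ([([(8,[31]),(4,[10])],[])],5), ([([(11,[31,10,6])],[])],2),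
  ([([(10,[31,10,7])],[])],1), ([([(8,[31]),(5,[11])],[])],5), ([([(10,[31,11,6])],[])],1),
  ([([(8,[31]),(5,[12])],[])],5), ([([(9,[31,13])],[])],4), ([([(9,[31,14])],[])],3),
  ([([(11,[31,15])],[])],2), ([([(10,[31,16])],[])],1), ([([(8,[32])],[])],5),
  ([([(8,[32]),(3,[6])],[])],5), ([([(8,[32]),(5,[6,6])],[])],5), ([([(8,[32]),(4,[7])],[])],5),
  ([([(9,[32,7,6])],[])],4), ([([(9,[32,7]),(4,[7])],[])],3), ([([(8,[32]),(4,[8])],[])],5),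
  ([([(9,[32,8]),(3,[6])],[])],3), ([([(11,[32,8,7])],[])],2), ([([(10,[32,8,8])],[])],1),
  ([([(8,[32]),(4,[9])],[])],5), ([([(11,[32,9,6])],[])],2), ([([(10,[32,9,7])],[])],1),
  ([([(8,[32]),(4,[10])],[])],5), ([([(10,[32,10,6])],[])],1), ([([(8,[32]),(5,[11])],[])],5),
  ([([(9,[32,12])],[])],4), ([([(9,[32,13])],[])],3), ([([(11,[32,14])],[])],2),
  ([([(10,[32,15])],[])],1), ([([(8,[33])],[])],5), ([([(8,[33]),(3,[6])],[])],5),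
  ([([(9,[33,6,6])],[])],4), ([([(8,[33]),(4,[7])],[])],5), ([([(9,[33,7]),(3,[6])],[])],3),
  ([([(11,[33,7,7])],[])],2), ([([(8,[33]),(4,[8])],[])],5), ([([(11,[33,8,6])],[])],2),
  ([([(10,[33,8,7])],[])],1), ([([(8,[33]),(4,[9])],[])],5), ([([(10,[33,9,6])],[])],1),
  ([([(8,[33]),(4,[10])],[])],5)]

def tr_13_17 : List (List (List (ℕ × List ℕ) × List ℕ) × ℕ) := [
  ([([(9,[33,11])],[])],4), ([([(9,[33,12])],[])],3), ([([(11,[33,13])],[])],2),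
  ([([(10,[33,14])],[])],1), ([([(8,[34])],[])],5), ([([(8,[34]),(3,[6])],[])],5),
  ([([(9,[34,6]),(3,[6])],[])],3), ([([(8,[34]),(4,[7])],[])],5), ([([(11,[34,7,6])],[])],2),
  ([([(10,[34,7,7])],[])],1), ([([(8,[34]),(4,[8])],[])],5), ([([(10,[34,8,6])],[])],1),
  ([([(8,[34]),(4,[9])],[])],5), ([([(9,[34,10])],[])],4), ([([(9,[34,11])],[])],3),
  ([([(11,[34,12])],[])],2), ([([(10,[34,13])],[])],1), ([([(8,[35])],[])],5),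
  ([([(8,[35]),(3,[6])],[])],5), ([([(11,[35,6,6])],[])],2), ([([(8,[35]),(4,[7])],[])],5),
  ([([(10,[35,7,6])],[])],1), ([([(8,[35]),(4,[8])],[])],5), ([([(9,[35,9])],[])],4),
  ([([(9,[35,10])],[])],3), ([([(11,[35,11])],[])],2), ([([(10,[35,12])],[])],1),
  ([([(8,[36])],[])],5), ([([(8,[36]),(3,[6])],[])],5), ([([(10,[36,6,6])],[])],1),
  ([([(8,[36]),(4,[7])],[])],5), ([([(9,[36,8])],[])],4), ([([(9,[36,9])],[])],3),
  ([([(11,[36,10])],[])],2), ([([(10,[36,11])],[])],1), ([([(9,[37])],[])],4),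
  ([([(9,[37,5])],[])],4), ([([(11,[37,5,5])],[])],2), ([([(9,[37,6])],[])],4),
  ([([(10,[37,6,5])],[])],1), ([([(9,[37,7])],[])],4), ([([(9,[37,8])],[])],3),
  ([([(11,[37,9])],[])],2), ([([(10,[37,10])],[])],1), ([([(9,[38])],[])],4),
  ([([(9,[38,5])],[])],4), ([([(10,[38,5,5])],[])],1), ([([(9,[38,6])],[])],4),
  ([([(9,[38,7])],[])],3), ([([(11,[38,8])],[])],2), ([([(10,[38,9])],[])],1),
  ([([(9,[39])],[])],4), ([([(9,[39,5])],[])],4), ([([(9,[39,6])],[])],3),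
  ([([(11,[39,7])],[])],2), ([([(10,[39,8])],[])],1), ([([(9,[40])],[])],4),
  ([([(9,[40,5])],[])],3), ([([(11,[40,6])],[])],2), ([([(10,[40,7])],[])],1),
  ([([(9,[41])],[])],4), ([([(11,[41,5])],[])],2), ([([(10,[41,6])],[])],1),
  ([([(9,[42])],[])],4), ([([(10,[42,5])],[])],1), ([([(9,[43])],[])],4), ([([(9,[44])],[])],3),
  ([([(9,[45])],[])],2), ([([(10,[46])],[])],1)]

def tr_13 : List (List (List (ℕ × List ℕ) × List ℕ) × ℕ) :=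
  tr_13_0 ++ tr_13_1 ++ tr_13_2 ++ tr_13_3 ++ tr_13_4 ++ tr_13_5 ++ tr_13_6 ++ tr_13_7 ++
    tr_13_8 ++ tr_13_9 ++ tr_13_10 ++ tr_13_11 ++ tr_13_12 ++ tr_13_13 ++ tr_13_14 ++ tr_13_15 ++
    tr_13_16 ++ tr_13_17

theorem kc_13 : KC 13 45 := kc_of_tree tr_13 (by decide +kernel)

end Pool.MP322
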