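import Pool.Agent.Lib.MP_322c5f_al.SG19

/-! (C), part 13: diagrams with repeated columns: the merged rules for arbitrary column heights. -/

set_option autoImplicit false

open Equiv Finset Nat

namespace Pool.MP322

/-- merged contents: the letter `a + 1` has content `(a + 1) * (number of columns of height a + 1)` -/
def mgc (N : ℕ) (C : Multiset ℕ) : Multiset ℕ :=
  (Multiset.range N).map (fun a => (a + 1) * C.count (a + 1))

theorem rf_count (C : Multiset ℕ) (a : ℕ) : rf C a = rf C (a + 1) + C.count (a + 1) := by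
  induction C using Multiset.induction_on with
  | empty => simp [rf_zero]
  | cons b M ih =>
    rw [rf_cons, rf_cons, ih, Multiset.count_cons]
    split_ifs <;> omega

/-- the number of columns of height `a + 1` -/
theorem card_colLen (C : Multiset ℕ) (N a : ℕ) (hN : C.card ≤ N) :
    ((range N).filter (fun r => (cD C).colLen r = a + 1)).card = C.count (a + 1) := by
  have h1 : (range N).filter (fun r => (cD C).colLen r = a + 1) =
      range (rf C a) \ range (rf C (a + 1)) := by
    ext r
    have h2 : a < (cD C).colLen r ↔ r < rf C a := by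
      rw [← YoungDiagram.mem_iff_lt_colLen, YoungDiagram.mem_iff_lt_rowLen, rowLen_cD]
    have h3 : a + 1 < (cD C).colLen r ↔ r < rf C (a + 1) := by
      rw [← YoungDiagram.mem_iff_lt_colLen, YoungDiagram.mem_iff_lt_rowLen, rowLen_cD]
    have h4 : rf C a ≤ C.card := Multiset.card_le_card (Multiset.filter_le _ _)
    rw [Finset.mem_filter, Finset.mem_sdiff, Finset.mem_range, Finset.mem_range, Finset.mem_range]
    omega
  have h5 : rf C (a + 1) ≤ rf C a := rf_anti C (by omega)
  rw [h1, Finset.card_sdiff_of_subset (Finset.range_subset_range.2 h5),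
    Finset.card_range, Finset.card_range]
  have := rf_count C a
  omega

/-- content of the letter `a` -/
def kap (C : Multiset ℕ) (a : ℕ) : ℕ := a * C.count a

theorem mg_colLen {n : ℕ} (lam : Y n) (C : Multiset ℕ) (N : ℕ) (hN : C.card ≤ N)
    (h : ∀ r, lam.1.rowLen r = (cD C).colLen r) (a : ℕ) :
    mg N lam.1.rowLen lam.1.rowLen a = kap C a := by
  unfold mg kap
  have h1 : ∀ b ∈ (range N).filter (fun b => lam.1.rowLen b = a), lam.1.rowLen b = a :=
    fun b hb => (Finset.mem_filter.1 hb).2
  rw [Finset.sum_congr rfl h1, Finset.sum_const, smul_eq_mul, Nat.mul_comm]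
  rcases a with _ | a
  · simp
  · congr 1
    simp only [h]
    exact card_colLen C N a hN

theorem kap_zero {C : Multiset ℕ} {N : ℕ} (hN : ∀ s ∈ C, s ≤ N) {a : ℕ} (ha : N < a) :
    kap C a = 0 := by
  unfold kap
  rw [Multiset.count_eq_zero.2 (fun h => absurd (hN a h) (by omega)), Nat.mul_zero]

theorem sum_kap {C : Multiset ℕ} {N : ℕ} (hN : ∀ s ∈ C, s ≤ N) :
    ∑ a ∈ range (N + 1), kap C a = C.sum := by
  unfold kap
  have h1 := Finset.sum_multiset_count_of_subset C (range (N + 1)) (fun s hs =>
    Finset.mem_range.2 (Nat.lt_succ_of_le (hN s (Multiset.mem_toFinset.1 hs))))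
  rw [h1]
  exact Finset.sum_congr rfl fun a _ => by rw [smul_eq_mul, Nat.mul_comm]

/-- Ikenmeyer's theorem, merged, in terms of the columns of the transpose -/
theorem Sq_kap {n : ℕ} (lam mu : Y n) {C : Multiset ℕ} {N : ℕ} (hN : ∀ s ∈ C, s ≤ N)
    (h : ∀ r, lam.1.rowLen r = (cD C).colLen r)
    (hdom : ∀ R : Finset ℕ, ∑ a ∈ R, kap C a ≤ ∑ r ∈ range R.card, mu.1.rowLen r) :
    Sq lam mu := by
  have hn : C.sum = n := by
    have h1 : lam.1 = (cD C).transpose :=
      diag_ext fun r => by rw [h, YoungDiagram.rowLen_transpose]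
    have h2 := (Y.tr (⟨cD C, rfl⟩ : Y (cD C).card)).2
    have h3 : (Y.tr (⟨cD C, rfl⟩ : Y (cD C).card)).1 = lam.1 := h1.symm
    rw [h3, lam.2, card_cD] at h2
    exact h2.symm
  have hz : ∀ r, C.card ≤ r → lam.1.rowLen r = 0 := by
    intro r hr
    rw [h]
    by_contra hcon
    have h1 : 0 < (cD C).colLen r := Nat.pos_of_ne_zero hcon
    rw [← YoungDiagram.mem_iff_lt_colLen, YoungDiagram.mem_iff_lt_rowLen, rowLen_cD] at h1
    have h4 : rf C 0 ≤ C.card := Multiset.card_le_card (Multiset.filter_le _ _)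
    omega
  have hκ : mg C.card lam.1.rowLen lam.1.rowLen = kap C :=
    funext fun a => mg_colLen lam C C.card le_rfl h a
  refine Sq_of_Fx_mg lam mu C.card lam.1.rowLen (hz _ le_rfl) (fun r s hrs _ => hrs) ?_
  rw [hκ]
  exact Fx_content mu (N + 1) (kap C) (fun a ha => kap_zero hN (by omega))
    ((sum_kap hN).trans hn) fun R _ => hdom R

theorem sum_rf_self (M : Multiset ℕ) : ∑ j ∈ range M.sum, rf M j = M.sum := by
  rw [sum_rf]
  conv_rhs => rw [← Multiset.map_id M]
  congr 1
  exact Multiset.map_congr rfl fun s hs => min_eq_left (Multiset.le_sum_of_mem hs)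

theorem sum_mgc {C : Multiset ℕ} {N : ℕ} (hN : ∀ s ∈ C, s ≤ N) : (mgc N C).sum = C.sum := by
  have h1 := sum_kap hN
  rw [Finset.sum_range_succ'] at h1
  unfold mgc
  rw [← h1]
  unfold kap
  simp only [Nat.zero_mul, Nat.add_zero]
  rfl

theorem rf_mgc {C : Multiset ℕ} {N : ℕ} (j : ℕ) :
    rf (mgc N C) j = ((range (N + 1)).filter (fun a => j < kap C a)).card := by
  have h1 : (range (N + 1)).filter (fun a => j < kap C a) =
      ((range N).filter (fun a => j < kap C (a + 1))).image (fun a => a + 1) := by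
    ext a
    simp only [Finset.mem_filter, Finset.mem_range, Finset.mem_image]
    constructor
    · rintro ⟨h1, h2⟩
      rcases a with _ | a
      · unfold kap at h2
        simp at h2
      · exact ⟨a, ⟨by omega, h2⟩, rfl⟩
    · rintro ⟨b, ⟨h1, h2⟩, rfl⟩
      exact ⟨by omega, h2⟩
  rw [h1, Finset.card_image_of_injective _ (fun a b h => by simpa using h)]
  unfold rf mgc
  rw [Multiset.filter_map, Multiset.card_map]
  rfl

/-- DIRECT RULE -/
theorem CC_dir {C S : Multiset ℕ} {N : ℕ} (hN : ∀ s ∈ C, s ≤ N)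
    (hS : ∀ k, (S.map (fun s => s - k)).sum ≤ ∑ j ∈ range C.sum, (rf (mgc N C) j - k)) :
    CC C S := by
  classical
  have hsum : ∑ j ∈ range C.sum, rf (mgc N C) j = C.sum := by
    have h1 := sum_rf_self (mgc N C)
    rw [sum_mgc hN] at h1
    exact h1
  have h0 : S.sum ≤ C.sum := by
    have h1 := hS 0
    simp only [Nat.sub_zero, Multiset.map_id', hsum] at h1
    exact h1
  obtain ⟨o, ho⟩ := Nat.exists_eq_add_of_le h0
  have hcard : (cD (S + Multiset.replicate o 1)).card = (cD C).card := by
    rw [card_cD, card_cD, Multiset.sum_add, Multiset.sum_replicate, smul_eq_mul, mul_one, ho]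
  refine ⟨⟨cD (S + Multiset.replicate o 1), hcard⟩, Has_ones o, ?_⟩
  refine (Sq_tr (⟨cD C, rfl⟩ : Y (cD C).card) _).1 ?_
  refine Sq_kap _ _ hN (fun r => ?_) fun R => ?_
  · show (cD C).transpose.rowLen r = _
    rw [YoungDiagram.rowLen_transpose]
  · set k := R.card with hk
    -- the sum of `k` contents
    have h1 : ∑ a ∈ R, kap C a ≤ ∑ j ∈ range C.sum, min (rf (mgc N C) j) k := by
      have h2 : ∀ a, kap C a = ∑ j ∈ range C.sum, (if j < kap C a then 1 else 0) := by
        intro a
        rw [sum_ite_lt, min_eq_left]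
        by_cases ha : N < a
        · rw [kap_zero hN ha]
          exact Nat.zero_le _
        · rw [← sum_kap hN]
          exact Finset.single_le_sum (f := kap C) (fun _ _ => Nat.zero_le _)
            (Finset.mem_range.2 (by omega))
      rw [Finset.sum_congr rfl fun a _ => h2 a, Finset.sum_comm]
      refine Finset.sum_le_sum fun j _ => ?_
      rw [← Finset.sum_filter, Finset.sum_const, smul_eq_mul, mul_one, rf_mgc]
      refine le_min (Finset.card_le_card fun a ha => ?_) (Finset.card_filter_le _ _)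
      rw [Finset.mem_filter] at ha ⊢
      refine ⟨?_, ha.2⟩
      rw [Finset.mem_range]
      by_contra hcon
      have h3 := ha.2
      rw [kap_zero hN (by omega)] at h3
      omega
    refine h1.trans ?_
    show _ ≤ ∑ r ∈ range k, (cD (S + Multiset.replicate o 1)).rowLen r
    simp only [rowLen_cD]
    rw [sum_rf, Multiset.map_add, Multiset.sum_add, Multiset.map_replicate,
      Multiset.sum_replicate, smul_eq_mul]
    have h1 : ∑ r ∈ range C.sum, (rf (mgc N C) r - k) +
        ∑ r ∈ range C.sum, min (rf (mgc N C) r) k = C.sum := by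
      rw [← Finset.sum_add_distrib]
      conv_rhs => rw [← hsum]
      exact Finset.sum_congr rfl fun r _ => sub_add_min _ _
    have h2 := map_sub_min S k
    have h3 := hS k
    rcases hk0 : k with _ | k'
    · simp
    · rw [hk0] at h1 h2 h3
      have h4 : min 1 (k' + 1) = 1 := by omega
      rw [h4]
      omega

/-- short items -/
theorem dom_of_short {ρ : Multiset ℕ} {t κ : ℕ}
    (hP : ∀ i ≤ κ, min (i * t) (κ + i) ≤ ∑ r ∈ range i, rf ρ r) {U : Multiset ℕ}
    (hU : ∀ u ∈ U, 2 ≤ u ∧ u ≤ t) (hk : (U.map (fun s => s - 1)).sum ≤ κ) (k : ℕ) :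
    (U.map (fun s => s - k)).sum ≤ ∑ j ∈ range ρ.sum, (rf ρ j - k) := by
  set V := U.filter (fun s => k < s) with hV
  have hVU : V ≤ U := Multiset.filter_le _ _
  have h1 := sum_filter_lt U k
  rw [← hV] at h1
  have hcard : V.card = rf U k := rfl
  have h2 : V.sum ≤ V.card * t := sum_le_card_mul fun s hs => (hU s (Multiset.mem_of_le hVU hs)).2
  have h3 := map_sub_one (M := V) fun s hs => by
    have := (hU s (Multiset.mem_of_le hVU hs)).1
    omega
  have h4 := map_sum_le hVU (fun s => s - 1)
  have h5 : V.card ≤ (V.map (fun s => s - 1)).sum := by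
    have : V.card ≤ (V.map (fun _ => 1)).sum := by
      rw [Multiset.map_const', Multiset.sum_replicate, smul_eq_mul, mul_one]
    refine this.trans ?_
    refine Multiset.sum_map_le_sum_map _ _ fun s hs => ?_
    have := (hU s (Multiset.mem_of_le hVU hs)).1
    omega
  have h6 := hP V.card (by omega)
  have h7 : V.sum ≤ ∑ r ∈ range V.card, rf ρ r := le_trans (le_min h2 (by omega)) h6
  have h8 : ∑ r ∈ range V.card, rf ρ r ≤ ∑ r ∈ range V.card, (rf ρ r - k) + V.card * k := by
    have : V.card * k = ∑ _r ∈ range V.card, k := by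
      rw [Finset.sum_const, Finset.card_range, smul_eq_mul]
    rw [this, ← Finset.sum_add_distrib]
    exact Finset.sum_le_sum fun r _ => by omega
  have h9 : ∑ r ∈ range V.card, (rf ρ r - k) ≤ ∑ r ∈ range ρ.sum, (rf ρ r - k) := by
    have h10 : ∀ r, ρ.sum ≤ r → rf ρ r - k = 0 := by
      intro r hr
      have := rf_anti ρ hr
      rw [rf_sum] at this
      omega
    rcases le_total V.card ρ.sum with h | h
    · exact Finset.sum_le_sum_of_subset (Finset.range_subset_range.2 h)
    · refine le_of_eq (Finset.sum_subset (Finset.range_subset_range.2 h) fun r _ hr => ?_).symm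
      refine h10 r ?_
      rw [Finset.mem_range] at hr
      omega
  rw [hcard] at h7 h8 h9
  omega

/-- short items in a complement, with repeated heights -/
theorem CC_short_mg {C : Multiset ℕ} {N t κ : ℕ} (hN : ∀ s ∈ C, s ≤ N)
    (hP : ∀ i ≤ κ, min (i * t) (κ + i) ≤ ((mgc N C).map (fun s => min s i)).sum) {U : Multiset ℕ}
    (hU : ∀ u ∈ U, 2 ≤ u ∧ u ≤ t) (hk : (U.map (fun s => s - 1)).sum ≤ κ) : CC C U := by
  refine CC_dir hN fun k => ?_
  have h := dom_of_short (ρ := mgc N C) (t := t) (κ := κ) (fun i hi => ?_) hU hk k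
  · rwa [sum_mgc hN] at h
  · rw [sum_rf]
    exact hP i hi

end Pool.MP322
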