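import Pool.Agent.Lib.MP_322c5f_al.SG23

/-! (C), part 14: the rule for self-conjugate diagrams. -/

set_option autoImplicit false

open Equiv Finset Nat

namespace Pool.MP322

theorem sum_colLen_all (M : Multiset ℕ) {w : ℕ} (hw : M.card ≤ w) :
    ∑ r ∈ range w, (cD M).colLen r = M.sum := by
  have h1 := card_eq_sum_rowLen (cD M).transpose w (by
    rw [YoungDiagram.colLen_transpose, rowLen_cD]
    exact (Multiset.card_le_card (Multiset.filter_le _ _)).trans hw)
  simp only [YoungDiagram.rowLen_transpose] at h1
  rw [← h1, card_transpose', card_cD]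

theorem sum_colLen_min (M : Multiset ℕ) {w : ℕ} (hw : M.card ≤ w) (k : ℕ) :
    ∑ r ∈ range w, min ((cD M).colLen r) k = (M.map (fun s => min s k)).sum := by
  have h1 := sum_colLen (cD M).transpose k w (by
    rw [YoungDiagram.colLen_transpose, rowLen_cD]
    exact (Multiset.card_le_card (Multiset.filter_le _ _)).trans hw)
  simp only [YoungDiagram.rowLen_transpose, YoungDiagram.colLen_transpose, rowLen_cD] at h1
  rw [← h1, sum_rf]

theorem sum_colLen_sub (M : Multiset ℕ) {w : ℕ} (hw : M.card ≤ w) (k : ℕ) :
    ∑ r ∈ range w, ((cD M).colLen r - k) = (M.map (fun s => s - k)).sum := by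
  have h1 := sum_colLen_all M hw
  have h2 := sum_colLen_min M hw k
  have h3 : ∑ r ∈ range w, ((cD M).colLen r - k) + ∑ r ∈ range w, min ((cD M).colLen r) k =
      ∑ r ∈ range w, (cD M).colLen r := by
    rw [← Finset.sum_add_distrib]
    exact Finset.sum_congr rfl fun r _ => sub_add_min _ _
  have h4 := map_sub_min M k
  omega

/-- RULE FOR SELF-CONJUGATE DIAGRAMS -/
theorem CC_sc {D S : Multiset ℕ} {N : ℕ} (hN : ∀ s ∈ D, s ≤ N)
    (hD : (cD D).transpose = cD D) (h0 : S.sum ≤ D.sum)
    (hS : ∀ k, 1 ≤ k → ((mgc N D).map (fun s => s - k)).sum ≤ (S.map (fun s => s - k)).sum) :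
    CC D S := by
  classical
  obtain ⟨o, ho⟩ := Nat.exists_eq_add_of_le h0
  set M := S + Multiset.replicate o 1 with hM
  have hMs : M.sum = D.sum := by
    rw [hM, Multiset.sum_add, Multiset.sum_replicate, smul_eq_mul, mul_one, ho]
  have hcard : (cD M).card = (cD D).card := by rw [card_cD, card_cD, hMs]
  refine ⟨⟨cD M, hcard⟩, Has_ones o, ?_⟩
  have hself : Y.tr (⟨cD D, rfl⟩ : Y (cD D).card) = (⟨cD D, rfl⟩ : Y (cD D).card) :=
    Subtype.ext hD
  refine (Sq_tr_right (mu := (⟨cD M, hcard⟩ : Y (cD D).card)) hself).1 ?_
  refine Sq_kap _ _ hN (fun r => ?_) fun R => ?_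
  · show (cD D).rowLen r = _
    conv_lhs => rw [← hD]
    rw [YoungDiagram.rowLen_transpose]
  · have hrow : ∀ r, (Y.tr (⟨cD M, hcard⟩ : Y (cD D).card)).1.rowLen r = (cD M).colLen r := by
      intro r
      show (cD M).transpose.rowLen r = _
      rw [YoungDiagram.rowLen_transpose]
    simp only [hrow]
    set x := R.card with hx
    set k := (cD M).colLen x with hk
    rcases Nat.eq_zero_or_pos k with hk0 | hk0
    · -- all rows
      have h1 : ∑ r ∈ range x, (cD M).colLen r = M.sum := by
        rw [← sum_colLen_all M (w := max x M.card) (le_max_right _ _)]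
        refine Finset.sum_subset (Finset.range_subset_range.2 (le_max_left _ _)) fun r _ hr => ?_
        rw [Finset.mem_range, not_lt] at hr
        have := (cD M).colLen_anti x r hr
        omega
      rw [h1, hMs, ← sum_kap hN]
      have h2 : ∑ a ∈ R, kap D a = ∑ a ∈ R.filter (fun a => a < N + 1), kap D a := by
        rw [Finset.sum_filter]
        refine Finset.sum_congr rfl fun a _ => ?_
        split_ifs with h
        · rfl
        · exact kap_zero hN (by omega)
      rw [h2]
      refine Finset.sum_le_sum_of_subset fun a ha => ?_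
      rw [Finset.mem_filter] at ha
      exact Finset.mem_range.2 ha.2
    · have h1 : ∑ a ∈ R, kap D a ≤ ∑ a ∈ R, (kap D a - k) + x * k := by
        have : x * k = ∑ _r ∈ R, k := by rw [Finset.sum_const, smul_eq_mul]
        rw [this, ← Finset.sum_add_distrib]
        exact Finset.sum_le_sum fun r _ => by omega
      have h2 : ∑ a ∈ R, (kap D a - k) ≤ ((mgc N D).map (fun s => s - k)).sum := by
        have h3 : ((mgc N D).map (fun s => s - k)).sum = ∑ a ∈ range (N + 1), (kap D a - k) := by
          rw [Finset.sum_range_succ']
          unfold mgc kap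
          rw [Multiset.map_map]
          simp only [Nat.zero_mul, Nat.zero_sub, Nat.add_zero]
          rfl
        have h2 : ∑ a ∈ R, (kap D a - k) =
            ∑ a ∈ R.filter (fun a => a < N + 1), (kap D a - k) := by
          rw [Finset.sum_filter]
          refine Finset.sum_congr rfl fun a _ => ?_
          split_ifs with h
          · rfl
          · rw [kap_zero hN (by omega), Nat.zero_sub]
        rw [h3, h2]
        refine Finset.sum_le_sum_of_subset fun a ha => ?_
        rw [Finset.mem_filter] at ha
        exact Finset.mem_range.2 ha.2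
      have h4 := hS k hk0
      have h5 : ∑ r ∈ range x, (cD M).colLen r = ∑ r ∈ range x, ((cD M).colLen r - k) + x * k := by
        have : x * k = ∑ _r ∈ range x, k := by
          rw [Finset.sum_const, smul_eq_mul, Finset.card_range]
        rw [this, ← Finset.sum_add_distrib]
        refine Finset.sum_congr rfl fun r hr => ?_
        rw [Finset.mem_range] at hr
        have := (cD M).colLen_anti r x hr.le
        omega
      have h6 : ∑ r ∈ range x, ((cD M).colLen r - k) = (M.map (fun s => s - k)).sum := by
        rw [← sum_colLen_sub M (w := max x M.card) (le_max_right _ _) k]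
        refine Finset.sum_subset (Finset.range_subset_range.2 (le_max_left _ _)) fun r _ hr => ?_
        rw [Finset.mem_range, not_lt] at hr
        have := (cD M).colLen_anti x r hr
        omega
      have h7 : (M.map (fun s => s - k)).sum = (S.map (fun s => s - k)).sum := by
        rw [hM, Multiset.map_add, Multiset.sum_add, Multiset.map_replicate,
          Multiset.sum_replicate, smul_eq_mul]
        have : 1 - k = 0 := by omega
        rw [this, Nat.mul_zero, Nat.add_zero]
      omega

end Pool.MP322
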