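import Pool.Agent.Lib.MP_322c5f_al.SG24

/-! (C), part 15: certificate trees for arbitrary diagrams. -/

set_option autoImplicit false

open Equiv Finset Nat

namespace Pool.MP322

/-- largest member -/
def mxL (L : List ℕ) : ℕ := L.foldr (fun a b => a + (b - a)) 0

theorem le_mxL {L : List ℕ} {a : ℕ} (h : a ∈ L) : a ≤ mxL L := by
  unfold mxL
  induction L with
  | nil => simp at h
  | cons b L ih =>
    rw [List.foldr_cons]
    rcases List.mem_cons.1 h with h | h
    · subst h; omega
    · have := ih h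
      omega

/-- row lengths -/
def conjL (L : List ℕ) : List ℕ :=
  (List.range (mxL L)).map (fun r => L.countP (fun s => Nat.ble (r + 1) s))

theorem countP_rf (L : List ℕ) (r : ℕ) : L.countP (fun s => Nat.ble (r + 1) s) = rf (L : Multiset ℕ) r := by
  induction L with
  | nil => simp [rf_zero]
  | cons a L ih =>
    rw [← Multiset.cons_coe, rf_cons, List.countP_cons, ih, Nat.add_comm]
    congr 1
    by_cases h : r < a
    · rw [if_pos h, if_pos (by rw [Nat.ble_eq]; exact h)]
    · rw [if_neg h, if_neg (by rw [Nat.ble_eq]; exact h)]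

theorem conjL_cj (L : List ℕ) : (conjL L : Multiset ℕ) = cj (mxL L) (L : Multiset ℕ) := by
  unfold conjL cj
  rw [← Multiset.map_coe]
  exact Multiset.map_congr rfl fun r _ => countP_rf L r

theorem CC_conjL {L : List ℕ} {S : Multiset ℕ} : CC (conjL L : Multiset ℕ) S ↔ CC (L : Multiset ℕ) S := by
  rw [conjL_cj]
  exact CC_cj fun s hs => le_mxL (Multiset.mem_coe.1 hs)

/-- merged contents -/
def mgL (L : List ℕ) : List ℕ := (List.range (mxL L)).map (fun a => (a + 1) * L.count (a + 1))

theorem mgL_mgc (L : List ℕ) : (mgL L : Multiset ℕ) = mgc (mxL L) (L : Multiset ℕ) := by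
  unfold mgL mgc
  rw [← Multiset.map_coe]
  exact Multiset.map_congr rfl fun r _ => by rw [Multiset.coe_count]

/-- sum of the truncated differences -/
def sbL (k : ℕ) (L : List ℕ) : ℕ := (L.map (fun s => s - k)).sum

theorem sbL_coe (k : ℕ) (L : List ℕ) :
    ((L : Multiset ℕ).map (fun s => s - k)).sum = sbL k L := by
  rw [Multiset.map_coe, Multiset.sum_coe]
  rfl

theorem sbL_zero {k : ℕ} {L : List ℕ} (h : mxL L ≤ k) : sbL k L = 0 := by
  unfold sbL
  refine List.sum_eq_zero fun y hy => ?_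
  rw [List.mem_map] at hy
  obtain ⟨s, hs, rfl⟩ := hy
  have := le_mxL hs
  omega

def binG (F : List (List ℕ × List ℕ)) (b : ℕ × List ℕ × List ℕ) : Bool :=
  match b with
  | (0, D, L) => (List.range (mxL L)).all (fun k => Nat.ble (sbL k L) (sbL k (conjL (mgL D))))
  | (1, D, L) => (conjL D == D) && Nat.ble L.sum D.sum &&
      (List.range D.sum).all (fun k => Nat.ble (sbL (k + 1) (mgL D)) (sbL (k + 1) L))
  | (_, D, L) => F.contains (D, L) || F.contains (conjL D, L)

theorem sum_conjL_sub (L : List ℕ) (k : ℕ) {w : ℕ} (hw : (L : Multiset ℕ).sum ≤ w) :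
    sbL k (conjL L) ≤ ∑ j ∈ range w, (rf (L : Multiset ℕ) j - k) := by
  have h1 : sbL k (conjL L) = ∑ j ∈ range (mxL L), (rf (L : Multiset ℕ) j - k) := by
    rw [← sbL_coe, conjL_cj]
    unfold cj
    rw [Multiset.map_map]
    rfl
  have h10 : ∀ r, (L : Multiset ℕ).sum ≤ r → rf (L : Multiset ℕ) r - k = 0 := by
    intro r hr
    have := rf_anti (L : Multiset ℕ) hr
    rw [rf_sum] at this
    omega
  rw [h1]
  rcases le_total (mxL L) w with h | h
  · exact Finset.sum_le_sum_of_subset (Finset.range_subset_range.2 h)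
  · refine le_of_eq (Finset.sum_subset (Finset.range_subset_range.2 h) fun r _ hr => ?_).symm
    refine h10 r ?_
    rw [Finset.mem_range] at hr
    omega

theorem CC_binG {F : List (List ℕ × List ℕ)} (hF : ∀ p ∈ F, CC (p.1 : Multiset ℕ) (p.2 : Multiset ℕ))
    (b : ℕ × List ℕ × List ℕ) (h : binG F b = true) : CC (b.2.1 : Multiset ℕ) (b.2.2 : Multiset ℕ) := by
  obtain ⟨t, D, L⟩ := b
  have hN : ∀ s ∈ (D : Multiset ℕ), s ≤ mxL D := fun s hs => le_mxL (Multiset.mem_coe.1 hs)
  match t, h with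
  | 0, h =>
    simp only [binG, List.all_eq_true, List.mem_range, Nat.ble_eq] at h
    refine CC_dir hN fun k => ?_
    rw [sbL_coe]
    rcases lt_or_ge k (mxL L) with hk | hk
    · refine (h k hk).trans ?_
      have h1 := sum_conjL_sub (mgL D) k (w := (D : Multiset ℕ).sum)
        (le_of_eq (by rw [mgL_mgc, sum_mgc hN]))
      rwa [mgL_mgc] at h1
    · rw [sbL_zero hk]
      exact Nat.zero_le _
  | 1, h =>
    simp only [binG, Bool.and_eq_true, List.all_eq_true, List.mem_range, Nat.ble_eq,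
      beq_iff_eq] at h
    obtain ⟨⟨h1, h2⟩, h3⟩ := h
    refine CC_sc hN ?_ (by rw [Multiset.sum_coe, Multiset.sum_coe]; exact h2) fun k hk => ?_
    · have h4 := cD_cj hN
      rw [← conjL_cj, h1] at h4
      exact h4.symm
    · rw [← mgL_mgc, sbL_coe, sbL_coe]
      obtain ⟨k, rfl⟩ : ∃ k', k = k' + 1 := ⟨k - 1, by omega⟩
      rcases lt_or_ge k D.sum with hk' | hk'
      · exact h3 k hk'
      · have h5 : sbL (k + 1) (mgL D) = 0 := by
          unfold sbL
          refine List.sum_eq_zero fun y hy => ?_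
          rw [List.mem_map] at hy
          obtain ⟨s, hs, rfl⟩ := hy
          have h6 : s ≤ (mgL D : Multiset ℕ).sum :=
            Multiset.le_sum_of_mem (Multiset.mem_coe.2 hs)
          rw [mgL_mgc, sum_mgc hN, Multiset.sum_coe] at h6
          omega
        rw [h5]
        exact Nat.zero_le _
  | (t + 2), h =>
    simp only [binG, Bool.or_eq_true, List.contains_iff_mem] at h
    rcases h with h | h
    · exact hF (D, L) h
    · have h1 : CC (conjL D : Multiset ℕ) (L : Multiset ℕ) := hF (conjL D, L) h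
      exact CC_conjL.1 h1

/-- column heights of a shelf -/
def shG (s : List (ℕ × List ℕ × List ℕ) × List ℕ) : List ℕ :=
  conjL (s.1.flatMap (fun b => b.2.1) ++ s.2)

theorem CC_shG {F : List (List ℕ × List ℕ)} (hF : ∀ p ∈ F, CC (p.1 : Multiset ℕ) (p.2 : Multiset ℕ))
    (s : List (ℕ × List ℕ × List ℕ) × List ℕ) (h : ∀ b ∈ s.1, binG F b = true) :
    CC (shG s : Multiset ℕ) ((s.1.flatMap (fun b => b.2.2) : List ℕ) : Multiset ℕ) := by
  obtain ⟨bs, X⟩ := s
  have h1 : CC ((bs.flatMap (fun b => b.2.1) : List ℕ) : Multiset ℕ)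
      ((bs.flatMap (fun b => b.2.2) : List ℕ) : Multiset ℕ) := by
    induction bs with
    | nil => exact CC_zero _
    | cons b bs ih =>
      rw [List.flatMap_cons, List.flatMap_cons, ← Multiset.coe_add, ← Multiset.coe_add]
      exact CC_add (CC_binG hF b (h b (List.mem_cons_self ..)))
        (ih fun q hq => h q (List.mem_cons_of_mem _ hq))
  unfold shG
  rw [CC_conjL, ← Multiset.coe_add]
  exact CC_mono _ h1

theorem CC_shGs {F : List (List ℕ × List ℕ)} (hF : ∀ p ∈ F, CC (p.1 : Multiset ℕ) (p.2 : Multiset ℕ))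
    (sh : List (List (ℕ × List ℕ × List ℕ) × List ℕ)) (h : ∀ s ∈ sh, ∀ b ∈ s.1, binG F b = true) :
    CC ((sh.flatMap shG : List ℕ) : Multiset ℕ)
      ((sh.flatMap (fun s => s.1.flatMap (fun b => b.2.2)) : List ℕ) : Multiset ℕ) := by
  induction sh with
  | nil => exact CC_zero _
  | cons s sh ih =>
    have h1 := CC_shG hF s (h s (List.mem_cons_self ..))
    have h2 := ih fun q hq => h q (List.mem_cons_of_mem _ hq)
    have h3 := CC_add h1 h2
    rw [Multiset.coe_add, Multiset.coe_add, ← List.flatMap_cons] at h3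
    exact h3

/-- test for the short items -/
def shortB (τ κ : ℕ) (G : List ℕ) : Bool :=
  (List.range (κ + 1)).all (fun i =>
    Nat.ble (i * τ) ((G.map (fun s => s - (s - i))).sum) ||
    Nat.ble (κ + i) ((G.map (fun s => s - (s - i))).sum))

theorem CC_shortB {τ κ : ℕ} {C : List ℕ} (h : shortB τ κ (mgL C) = true) {U : Multiset ℕ}
    (hU : ∀ u ∈ U, 2 ≤ u ∧ u ≤ τ) (hk : (U.map (fun s => s - 1)).sum ≤ κ) :
    CC (C : Multiset ℕ) U := by
  have hN : ∀ s ∈ (C : Multiset ℕ), s ≤ mxL C := fun s hs => le_mxL (Multiset.mem_coe.1 hs)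
  refine CC_short_mg hN (fun i hi => ?_) hU hk
  unfold shortB at h
  simp only [List.all_eq_true, List.mem_range, Bool.or_eq_true, Nat.ble_eq] at h
  have h1 := h i (by omega)
  have h2 : ((mgc (mxL C) (C : Multiset ℕ)).map (fun s => min s i)).sum =
      ((mgL C).map (fun s => s - (s - i))).sum := by
    rw [← mgL_mgc, Multiset.map_coe, Multiset.sum_coe]
    congr 1
    exact List.map_congr_left fun s _ => by omega
  rw [h2]
  rcases h1 with h1 | h1
  · exact (min_le_left _ _).trans h1
  · exact (min_le_right _ _).trans h1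

/-- nodes: orientation, shelves, complement, orientation of the complement, threshold -/
abbrev NdG := Bool × List (List (ℕ × List ℕ × List ℕ) × List ℕ) × List ℕ × Bool × ℕ

def nodeG (F : List (List ℕ × List ℕ)) (M : List ℕ) (nd : NdG) (T : List ℕ) (κ : ℕ) : Bool :=
  nd.2.1.all (fun s => s.1.all (fun b => binG F b)) &&
    (nd.2.1.flatMap (fun s => s.1.flatMap (fun b => b.2.2))).isPerm T &&
    (nd.2.1.flatMap shG ++ nd.2.2.1).isPerm (cond nd.1 (conjL M) M) &&
    Nat.ble 1 nd.2.2.2.2 &&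
    (Nat.ble nd.2.2.2.2 1 ||
      shortB nd.2.2.2.2 κ (mgL (cond nd.2.2.2.1 (conjL nd.2.2.1) nd.2.2.1)))

/-- what a stack entry claims -/
def OKg (M : Multiset ℕ) (o : List ℕ × ℕ × ℕ) : Prop :=
  ∀ U : Multiset ℕ, (∀ u ∈ U, 2 ≤ u ∧ u ≤ o.2.1) → (U.map (fun s => s - 1)).sum ≤ o.2.2 →
    CC M ((o.1 : Multiset ℕ) + U)

theorem OKg_step {F : List (List ℕ × List ℕ)}
    (hF : ∀ p ∈ F, CC (p.1 : Multiset ℕ) (p.2 : Multiset ℕ)) {M : List ℕ} {nd : NdG}
    {o : List ℕ × ℕ × ℕ} (h : nodeG F M nd o.1 o.2.2 = true)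
    (hch : ∀ q ∈ chil nd.2.2.2.2 o, OKg (M : Multiset ℕ) q) : OKg (M : Multiset ℕ) o := by
  classical
  intro U hU hk
  obtain ⟨r, sh, C, f, τ⟩ := nd
  unfold nodeG at h
  simp only [Bool.and_eq_true] at h
  obtain ⟨⟨⟨⟨h1, h2⟩, h3⟩, h4⟩, h5⟩ := h
  have hτ : 1 ≤ τ := Nat.le_of_ble_eq_true h4
  by_cases hall : ∀ u ∈ U, u ≤ τ
  · -- leaf
    have h7 : ((sh.flatMap (fun s => s.1.flatMap (fun b => b.2.2)) : List ℕ) : Multiset ℕ) =
        (o.1 : Multiset ℕ) := Multiset.coe_eq_coe.2 (List.isPerm_iff.1 h2)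
    have h8 := CC_shGs hF sh fun s hs p hp => List.all_eq_true.1 (List.all_eq_true.1 h1 s hs) p hp
    rw [h7] at h8
    have h9 : CC (C : Multiset ℕ) U := by
      rw [Bool.or_eq_true] at h5
      rcases h5 with h5 | h5
      · have h6 : U = 0 := by
          refine Multiset.eq_zero_of_forall_notMem fun u hu => ?_
          have h10 := hU u hu
          have h11 := hall u hu
          have h12 : τ ≤ 1 := Nat.le_of_ble_eq_true h5
          omega
        rw [h6]
        exact CC_zero _
      · cases f with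
        | false => exact CC_shortB h5 (fun u hu => ⟨(hU u hu).1, hall u hu⟩) hk
        | true =>
          exact CC_conjL.1 (CC_shortB h5 (fun u hu => ⟨(hU u hu).1, hall u hu⟩) hk)
    have h6 : CC ((sh.flatMap shG : List ℕ) + (C : Multiset ℕ)) ((o.1 : Multiset ℕ) + U) :=
      CC_add h8 h9
    rw [Multiset.coe_add, Multiset.coe_eq_coe.2 (List.isPerm_iff.1 h3)] at h6
    cases r with
    | false => exact h6
    | true => exact CC_conjL.1 h6
  · push Not at hall
    obtain ⟨u0, hu0, hu1⟩ := hall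
    -- the largest member
    have hne : U.toFinset.Nonempty := ⟨u0, Multiset.mem_toFinset.2 hu0⟩
    obtain ⟨s, hs, hmax⟩ := Finset.exists_max_image U.toFinset id hne
    rw [Multiset.mem_toFinset] at hs
    have hmax' : ∀ u ∈ U, u ≤ s := fun u hu => hmax u (Multiset.mem_toFinset.2 hu)
    have hs2 := hU s hs
    have hsτ : τ < s := lt_of_lt_of_le hu1 (hmax' u0 hu0)
    obtain ⟨V, hV⟩ := Multiset.exists_cons_of_mem hs
    rw [hV, Multiset.map_cons, Multiset.sum_cons] at hk
    have hmem : (s :: o.1, s, o.2.2 - (s - 1)) ∈ chil τ o := by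
      unfold chil
      rw [List.mem_map]
      refine ⟨s - (τ + 1), List.mem_range.2 ?_, ?_⟩
      · have := hs2.2
        omega
      · rw [show s - (τ + 1) + (τ + 1) = s by omega, show s - (τ + 1) + τ = s - 1 by omega]
    have h9 := hch _ hmem V (fun u hu => ?_) (by show _ ≤ o.2.2 - (s - 1); omega)
    · rw [hV]
      have h10 : (((s :: o.1 : List ℕ) : Multiset ℕ)) + V = (o.1 : Multiset ℕ) + s ::ₘ V := by
        rw [← Multiset.cons_coe, Multiset.cons_add, Multiset.add_cons]
      rw [← h10]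
      exact h9
    · have hu' : u ∈ U := by rw [hV]; exact Multiset.mem_cons_of_mem hu
      exact ⟨(hU u hu').1, hmax' u hu'⟩

/-- the checker -/
def runG (F : List (List ℕ × List ℕ)) (M : List ℕ) : List NdG → List (List ℕ × ℕ × ℕ) → Bool
  | _, [] => true
  | [], _ :: _ => false
  | nd :: nds, o :: os =>
    nodeG F M nd o.1 o.2.2 && runG F M nds (chil nd.2.2.2.2 o ++ os)

theorem runG_spec {F : List (List ℕ × List ℕ)}
    (hF : ∀ p ∈ F, CC (p.1 : Multiset ℕ) (p.2 : Multiset ℕ)) (M : List ℕ) :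
    ∀ (nds : List NdG) (os : List (List ℕ × ℕ × ℕ)), runG F M nds os = true →
      ∀ o ∈ os, OKg (M : Multiset ℕ) o := by
  intro nds
  induction nds with
  | nil =>
    intro os h o ho
    cases os with
    | nil => simp at ho
    | cons a os => simp [runG] at h
  | cons nd nds ih =>
    intro os h o ho
    cases os with
    | nil => simp at ho
    | cons a os =>
      unfold runG at h
      rw [Bool.and_eq_true] at h
      have h1 := ih _ h.2
      rcases List.mem_cons.1 ho with h2 | h2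
      · subst h2
        exact OKg_step hF h.1 fun q hq => h1 q (List.mem_append_left _ hq)
      · exact h1 o (List.mem_append_right _ h2)

/-- the diagram with column heights `M` carries everything of depth at most `K` -/
def KG (M : Multiset ℕ) (K : ℕ) : Prop := ∀ S : Multiset ℕ, (∀ s ∈ S, 2 ≤ s) →
  (S.map (fun s => s - 1)).sum ≤ K → CC M S

theorem KG.mono {M N : Multiset ℕ} {K K' : ℕ} (h : KG M K) (hM : M ≤ N) (hK : K' ≤ K) : KG N K' :=
  fun S h1 h2 => CC_le hM (h S h1 (h2.trans hK))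

theorem KG_conjL {L : List ℕ} {K : ℕ} : KG (conjL L : Multiset ℕ) K ↔ KG (L : Multiset ℕ) K :=
  forall_congr' fun _ => forall_congr' fun _ => forall_congr' fun _ => CC_conjL

theorem kg_of_tree {F : List (List ℕ × List ℕ)}
    (hF : ∀ p ∈ F, CC (p.1 : Multiset ℕ) (p.2 : Multiset ℕ)) {M : List ℕ} {K : ℕ}
    (nds : List NdG) (h : runG F M nds [([], K + 1, K)] = true) : KG (M : Multiset ℕ) K := by
  intro S hS hSK
  have h1 := runG_spec hF M nds _ h ([], K + 1, K) (List.mem_singleton.2 rfl) S ?_ hSK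
  · simpa using h1
  · intro s hs
    refine ⟨hS s hs, ?_⟩
    have h2 : s - 1 ≤ (S.map (fun s => s - 1)).sum :=
      Multiset.le_sum_of_mem (Multiset.mem_map_of_mem (fun s => s - 1) hs)
    show s ≤ K + 1
    omega

/-- a list of certificates: all the diagrams carry depth `K` -/
def runAll (F : List (List ℕ × List ℕ)) (K : ℕ) (cs : List (List ℕ × List NdG)) : Bool :=
  cs.all (fun c => runG F c.1 c.2 [([], K + 1, K)])

theorem kg_of_all {F : List (List ℕ × List ℕ)}
    (hF : ∀ p ∈ F, CC (p.1 : Multiset ℕ) (p.2 : Multiset ℕ)) {K : ℕ}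
    {cs : List (List ℕ × List NdG)} (h : runAll F K cs = true) :
    ∀ M ∈ cs.map Prod.fst, KG (M : Multiset ℕ) K := by
  intro M hM
  rw [List.mem_map] at hM
  obtain ⟨c, hc, rfl⟩ := hM
  exact kg_of_tree hF c.2 (List.all_eq_true.1 h c hc)

end Pool.MP322
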