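import Pool.Agent.Lib.MP_322c5f_al.SG25

/-! (C), part 16: diagrams with a given number of distinct column heights; finitely many minors. -/

set_option autoImplicit false

open Equiv Finset Nat

namespace Pool.MP322

/-- `m i` columns of height `g i + g (i + 1) + …` -/
def bu : List ℕ → List ℕ → List ℕ
  | m :: ms, g :: gs => List.replicate m (g + gs.sum) ++ bu ms gs
  | _, _ => []

/-- the rows of `bu` -/
def bur : List ℕ → List ℕ → ℕ → List ℕ
  | m :: ms, g :: gs, a => List.replicate g (a + m) ++ bur ms gs (a + m)
  | _, _, _ => []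

theorem bu_le : ∀ (ms gs : List ℕ), ∀ s ∈ bu ms gs, s ≤ gs.sum := by
  intro ms
  induction ms with
  | nil => intro gs s hs; simp [bu] at hs
  | cons m ms ih =>
    intro gs s hs
    cases gs with
    | nil => simp [bu] at hs
    | cons g gs =>
      unfold bu at hs
      rw [List.sum_cons]
      rcases List.mem_append.1 hs with h | h
      · rw [List.eq_of_mem_replicate h]
      · have := ih gs s h
        omega

theorem rf_replicate (m x r : ℕ) : rf (Multiset.replicate m x) r = if r < x then m else 0 := by
  induction m with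
  | zero => simp [rf_zero]
  | succ m ih =>
    rw [Multiset.replicate_succ, rf_cons, ih]
    split_ifs <;> omega

theorem bur_eq : ∀ (ms gs : List ℕ) (a : ℕ), ms.length = gs.length →
    (Multiset.range gs.sum).map (fun r => a + rf (bu ms gs : Multiset ℕ) r) =
      (bur ms gs a : Multiset ℕ) := by
  intro ms
  induction ms with
  | nil =>
    intro gs a h
    cases gs with
    | nil => rfl
    | cons g gs => simp at h
  | cons m ms ih =>
    intro gs a h
    cases gs with
    | nil => simp at h
    | cons g gs =>
      have h' : ms.length = gs.length := by simpa using h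
      unfold bu bur
      rw [List.sum_cons, Nat.add_comm g gs.sum, Multiset.range_add, Multiset.map_add,
        Multiset.map_map, ← Multiset.coe_add, ← Multiset.coe_add, Multiset.coe_replicate,
        Multiset.coe_replicate, ← ih gs (a + m) h', add_comm]
      congr 1
      · rw [← Multiset.card_range g, ← Multiset.map_const', Multiset.card_range]
        refine Multiset.map_congr rfl fun r hr => ?_
        rw [Multiset.mem_range] at hr
        have h1 : rf (bu ms gs : Multiset ℕ) (gs.sum + r) = 0 := by
          refine Nat.le_zero.1 ((rf_anti _ (Nat.le_add_right _ _)).trans (le_of_eq ?_))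
          exact rf_big fun s hs => bu_le ms gs s (Multiset.mem_coe.1 hs)
        show a + rf _ (gs.sum + r) = a + m
        rw [rf_add, rf_replicate, if_pos (by omega), h1, Nat.add_zero]
      · refine Multiset.map_congr rfl fun r hr => ?_
        rw [Multiset.mem_range] at hr
        rw [rf_add, rf_replicate, if_pos (by omega), Nat.add_assoc]

theorem bu_mono : ∀ {ms ms' : List ℕ} (gs : List ℕ), List.Forall₂ (· ≤ ·) ms ms' →
    (bu ms gs : Multiset ℕ) ≤ (bu ms' gs : Multiset ℕ) := by
  intro ms ms' gs h
  induction h generalizing gs with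
  | nil => exact le_refl _
  | @cons a b l1 l2 hab _ ih =>
    cases gs with
    | nil => exact le_refl _
    | cons g gs =>
      unfold bu
      rw [← Multiset.coe_add, ← Multiset.coe_add, Multiset.coe_replicate, Multiset.coe_replicate]
      exact add_le_add (Multiset.replicate_le_replicate _ |>.2 hab) (ih gs)

theorem bur_mono : ∀ (ms : List ℕ) {gs gs' : List ℕ} (a : ℕ), List.Forall₂ (· ≤ ·) gs gs' →
    (bur ms gs a : Multiset ℕ) ≤ (bur ms gs' a : Multiset ℕ) := by
  intro ms gs gs' a h
  induction h generalizing ms a with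
  | nil => exact le_refl _
  | @cons x y l1 l2 hab _ ih =>
    cases ms with
    | nil => exact le_refl _
    | cons m ms =>
      unfold bur
      rw [← Multiset.coe_add, ← Multiset.coe_add, Multiset.coe_replicate, Multiset.coe_replicate]
      exact add_le_add (Multiset.replicate_le_replicate _ |>.2 hab) (ih ms (a + m))

theorem CC_bur {ms gs : List ℕ} (h : ms.length = gs.length) {S : Multiset ℕ} :
    CC (bur ms gs 0 : Multiset ℕ) S ↔ CC (bu ms gs : Multiset ℕ) S := by
  rw [← bur_eq ms gs 0 h]
  simp only [Nat.zero_add]
  exact CC_cj fun s hs => bu_le ms gs s (Multiset.mem_coe.1 hs)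

theorem KG_bu {ms gs ms' gs' : List ℕ} {K : ℕ} (h : ms.length = gs.length)
    (h1 : List.Forall₂ (· ≤ ·) ms ms') (h2 : List.Forall₂ (· ≤ ·) gs gs')
    (hK : KG (bu ms gs : Multiset ℕ) K) : KG (bu ms' gs' : Multiset ℕ) K := by
  intro S hS hSK
  have hl1 := h1.length_eq
  have hl2 := h2.length_eq
  have h3 := hK S hS hSK
  have h4 := CC_le (bu_mono gs h1) h3
  have h5 := (CC_bur (by omega)).2 h4
  have h6 := CC_le (bur_mono ms' 0 h2) h5
  exact (CC_bur (by omega)).1 h6

/-! ### every multiset is a `bu` -/

def gaps : List ℕ → List ℕ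
  | [] => []
  | a :: l => (a - l.headD 0) :: gaps l

theorem gaps_sum : ∀ {l : List ℕ}, l.Pairwise (· > ·) → (gaps l).sum = l.headD 0 := by
  intro l
  induction l with
  | nil => intro _; rfl
  | cons a l ih =>
    intro h
    unfold gaps
    rw [List.sum_cons, ih (List.pairwise_cons.1 h).2, List.headD_cons]
    cases l with
    | nil => simp
    | cons b l =>
      have := (List.pairwise_cons.1 h).1 b (List.mem_cons_self ..)
      rw [List.headD_cons]
      omega

theorem gaps_pos : ∀ {l : List ℕ}, l.Pairwise (· > ·) → (∀ s ∈ l, 1 ≤ s) → ∀ g ∈ gaps l, 1 ≤ g := by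
  intro l
  induction l with
  | nil => intro _ _ g hg; simp [gaps] at hg
  | cons a l ih =>
    intro h hpos g hg
    unfold gaps at hg
    rcases List.mem_cons.1 hg with hg | hg
    · subst hg
      cases l with
      | nil => simpa using hpos a (List.mem_cons_self ..)
      | cons b l =>
        have := (List.pairwise_cons.1 h).1 b (List.mem_cons_self ..)
        rw [List.headD_cons]
        omega
    · exact ih (List.pairwise_cons.1 h).2 (fun s hs => hpos s (List.mem_cons_of_mem _ hs)) g hg

theorem gaps_length : ∀ (l : List ℕ), (gaps l).length = l.length := by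
  intro l
  induction l with
  | nil => rfl
  | cons a l ih => unfold gaps; rw [List.length_cons, List.length_cons, ih]

theorem bu_gaps (f : ℕ → ℕ) : ∀ {l : List ℕ}, l.Pairwise (· > ·) →
    bu (l.map f) (gaps l) = l.flatMap (fun h => List.replicate (f h) h) := by
  intro l
  induction l with
  | nil => intro _; rfl
  | cons a l ih =>
    intro h
    have h1 := gaps_sum h
    unfold gaps at h1 ⊢
    rw [List.sum_cons, List.headD_cons] at h1
    rw [List.map_cons, bu, ih (List.pairwise_cons.1 h).2, List.flatMap_cons, h1]

theorem count_flat (M : Multiset ℕ) (a : ℕ) : ∀ {l : List ℕ}, l.Nodup →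
    (l.flatMap (fun h => List.replicate (M.count h) h)).count a = if a ∈ l then M.count a else 0 := by
  intro l
  induction l with
  | nil => intro _; simp
  | cons b l ih =>
    intro h
    rw [List.flatMap_cons, List.count_append, ih (List.nodup_cons.1 h).2, List.count_replicate]
    by_cases hab : b = a
    · subst hab
      have h1 := (List.nodup_cons.1 h).1
      simp [h1]
    · have h2 : ¬ a = b := fun h => hab h.symm
      simp [hab, h2]

theorem exists_bu (M : Multiset ℕ) (hM : ∀ s ∈ M, 1 ≤ s) : ∃ ms gs : List ℕ,
    ms.length = M.dedup.card ∧ gs.length = M.dedup.card ∧ (∀ m ∈ ms, 1 ≤ m) ∧ (∀ g ∈ gs, 1 ≤ g) ∧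
      M = (bu ms gs : Multiset ℕ) := by
  set l := M.dedup.sort (· ≥ ·) with hl
  have hl1 : (l : Multiset ℕ) = M.dedup := Multiset.sort_eq _ _
  have hnd : l.Nodup := by
    rw [← Multiset.coe_nodup, hl1]
    exact Multiset.nodup_dedup _
  have hpw : l.Pairwise (· > ·) := by
    have h1 : l.Pairwise (· ≥ ·) := Multiset.pairwise_sort _ _
    exact (h1.and hnd).imp fun {a b} h => lt_of_le_of_ne h.1 (Ne.symm h.2)
  have hmem : ∀ s, s ∈ l ↔ s ∈ M := by
    intro s
    rw [← Multiset.mem_coe, hl1, Multiset.mem_dedup]
  have hlen : l.length = M.dedup.card := by rw [← Multiset.coe_card, hl1]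
  refine ⟨l.map (fun h => M.count h), gaps l, ?_, ?_, ?_, ?_, ?_⟩
  · rw [List.length_map, hlen]
  · rw [gaps_length, hlen]
  · intro m hm
    rw [List.mem_map] at hm
    obtain ⟨h, hh, rfl⟩ := hm
    exact Multiset.one_le_count_iff_mem.2 ((hmem h).1 hh)
  · exact gaps_pos hpw fun s hs => hM s ((hmem s).1 hs)
  · rw [bu_gaps _ hpw]
    refine Multiset.ext.2 fun a => ?_
    rw [Multiset.coe_count, count_flat M a hnd]
    split_ifs with h
    · rfl
    · rw [Multiset.count_eq_zero]
      exact fun h' => h ((hmem a).2 h')

/-! ### the covering trees -/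

/-- number of cells -/
def nS : List ℕ → List ℕ → ℕ
  | m :: ms, g :: gs => m * (g + gs.sum) + nS ms gs
  | _, _ => 0

theorem sum_bu : ∀ (ms gs : List ℕ), (bu ms gs).sum = nS ms gs := by
  intro ms
  induction ms with
  | nil => intro gs; simp [bu, nS]
  | cons m ms ih =>
    intro gs
    cases gs with
    | nil => simp [bu, nS]
    | cons g gs => rw [bu, nS, List.sum_append, List.sum_replicate, smul_eq_mul, ih]

theorem sum_le_forall₂ : ∀ {gs gs' : List ℕ}, List.Forall₂ (· ≤ ·) gs gs' → gs.sum ≤ gs'.sum := by
  intro gs gs' h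
  induction h with
  | nil => exact le_refl _
  | cons h1 _ ih => rw [List.sum_cons, List.sum_cons]; exact Nat.add_le_add h1 ih

theorem nS_mono : ∀ {ms ms' gs gs' : List ℕ}, List.Forall₂ (· ≤ ·) ms ms' →
    List.Forall₂ (· ≤ ·) gs gs' → nS ms gs ≤ nS ms' gs' := by
  intro ms ms' gs gs' h1 h2
  induction h1 generalizing gs gs' with
  | nil => simp [nS]
  | cons h _ ih =>
    cases h2 with
    | nil => simp [nS]
    | cons h3 h4 =>
      rw [nS, nS]
      exact Nat.add_le_add (Nat.mul_le_mul h (Nat.add_le_add h3 (sum_le_forall₂ h4))) (ih h4)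

/-- pointwise comparison -/
def leP (a b : List ℕ) : Prop := ∀ i, a.getD i 0 ≤ b.getD i 0

theorem forall₂_of_leP : ∀ {a b : List ℕ}, a.length = b.length → leP a b →
    List.Forall₂ (· ≤ ·) a b := by
  intro a
  induction a with
  | nil =>
    intro b h _
    cases b with
    | nil => exact List.Forall₂.nil
    | cons y b => simp at h
  | cons x a ih =>
    intro b h h1
    cases b with
    | nil => simp at h
    | cons y b =>
      refine List.Forall₂.cons (by simpa using h1 0) (ih (by simpa using h) fun i => ?_)
      simpa using h1 (i + 1)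

theorem getD_take (l : List ℕ) (c i : ℕ) : (l.take c).getD i 0 = if i < c then l.getD i 0 else 0 := by
  simp only [List.getD_eq_getElem?_getD, List.getElem?_take]
  split_ifs <;> rfl

theorem getD_drop (l : List ℕ) (c i : ℕ) : (l.drop c).getD i 0 = l.getD (c + i) 0 := by
  simp only [List.getD_eq_getElem?_getD, List.getElem?_drop]

theorem leP_take {a b : List ℕ} (h : leP a b) (c : ℕ) : leP (a.take c) (b.take c) := by
  intro i
  rw [getD_take, getD_take]
  split_ifs
  · exact h i
  · exact le_refl _

theorem leP_drop {a b : List ℕ} (h : leP a b) (c : ℕ) : leP (a.drop c) (b.drop c) := by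
  intro i
  rw [getD_drop, getD_drop]
  exact h (c + i)

/-- covering trees -/
inductive BT : Type
  | small : BT
  | minor (k : ℕ) : BT
  | split (i t : ℕ) (lo hi : BT) : BT

/-- the checker: `l` lower bounds, `u` upper bounds (`0` = none) -/
def btB (c n0 : ℕ) (G : List (List ℕ)) : BT → List ℕ → List ℕ → Bool
  | .small, _, u => Nat.beq u.length (2 * c) && u.all (fun a => Nat.ble 1 a) &&
      Nat.ble (nS (u.take c) (u.drop c) + 1) n0
  | .minor k, l, _ => Nat.blt k G.length &&
      (List.range (2 * c)).all (fun i => Nat.ble ((G.getD k []).getD i 0) (l.getD i 0))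
  | .split i t lo hi, l, u => Nat.ble 2 t &&
      btB c n0 G lo l (u.set i (t - 1)) && btB c n0 G hi (l.set i t) u

theorem btB_spec (c n0 : ℕ) (G : List (List ℕ)) (hG : ∀ p ∈ G, p.length = 2 * c) (x : List ℕ)
    (hx : x.length = 2 * c) (hn : n0 ≤ nS (x.take c) (x.drop c)) :
    ∀ (T : BT) (l u : List ℕ), l.length = 2 * c → u.length = 2 * c → leP l x →
      (∀ i, u.getD i 0 ≠ 0 → x.getD i 0 ≤ u.getD i 0) → btB c n0 G T l u = true →
      ∃ p ∈ G, leP p x := by
  intro T
  induction T with
  | small =>
    intro l u hl hu hlx hux h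
    simp only [btB, Bool.and_eq_true, List.all_eq_true, Nat.ble_eq] at h
    obtain ⟨⟨_, h2⟩, h3⟩ := h
    exfalso
    have h4 : leP x u := by
      intro i
      by_cases hi : i < u.length
      · refine hux i ?_
        have h5 := h2 (u.getD i 0) (by
          rw [List.getD_eq_getElem _ _ hi]
          exact List.getElem_mem hi)
        omega
      · rw [List.getD_eq_default _ _ (by omega : x.length ≤ i)]
        exact Nat.zero_le _
    have h5 := nS_mono (forall₂_of_leP (by rw [List.length_take, List.length_take, hx, hu])
      (leP_take h4 c)) (forall₂_of_leP (by rw [List.length_drop, List.length_drop, hx, hu])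
      (leP_drop h4 c))
    omega
  | minor k =>
    intro l u hl hu hlx hux h
    simp only [btB, Bool.and_eq_true, List.all_eq_true, Nat.ble_eq, List.mem_range] at h
    obtain ⟨h1, h2⟩ := h
    have h1' : k < G.length := by
      unfold Nat.blt at h1
      exact Nat.le_of_ble_eq_true h1
    have hmem : G.getD k [] ∈ G := by
      rw [List.getD_eq_getElem _ _ h1']
      exact List.getElem_mem h1'
    refine ⟨_, hmem, fun i => ?_⟩
    by_cases hi : i < 2 * c
    · exact (h2 i hi).trans (hlx i)
    · rw [List.getD_eq_default _ _ (by rw [hG _ hmem]; omega)]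
      exact Nat.zero_le _
  | split i t lo hi ih1 ih2 =>
    intro l u hl hu hlx hux h
    simp only [btB, Bool.and_eq_true, Nat.ble_eq] at h
    obtain ⟨⟨h0, h1⟩, h2⟩ := h
    rcases lt_or_ge (x.getD i 0) t with hxi | hxi
    · refine ih1 l _ hl (by rw [List.length_set, hu]) hlx (fun j hj => ?_) h1
      by_cases hij : i = j
      · subst hij
        by_cases hi' : i < u.length
        · rw [List.getD_eq_getElem (u.set i (t - 1)) 0 (by rw [List.length_set]; exact hi'),
            List.getElem_set_self]
          omega
        · rw [List.getD_eq_default _ _ (by omega : x.length ≤ i)]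
          exact Nat.zero_le _
      · have h3 : (u.set i (t - 1)).getD j 0 = u.getD j 0 := by
          simp only [List.getD_eq_getElem?_getD, List.getElem?_set_ne hij]
        rw [h3] at hj ⊢
        exact hux j hj
    · refine ih2 _ u (by rw [List.length_set, hl]) hu (fun j => ?_) hux h2
      by_cases hij : i = j
      · subst hij
        by_cases hi' : i < l.length
        · rw [List.getD_eq_getElem (l.set i t) 0 (by rw [List.length_set]; exact hi'),
            List.getElem_set_self]
          exact hxi
        · rw [List.getD_eq_default _ _ (by rw [List.length_set]; omega)]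
          exact Nat.zero_le _
      · have h3 : (l.set i t).getD j 0 = l.getD j 0 := by
          simp only [List.getD_eq_getElem?_getD, List.getElem?_set_ne hij]
        rw [h3]
        exact hlx j

/-- the minors `G` are among the certified diagrams `R`, up to transposition -/
def minB (c : ℕ) (G R : List (List ℕ)) : Bool :=
  G.all (fun p => Nat.beq p.length (2 * c) &&
    R.any (fun M => (bu (p.take c) (p.drop c)).isPerm M || (conjL (bu (p.take c) (p.drop c))).isPerm M))

theorem minB_spec {c K : ℕ} {G R : List (List ℕ)} (h : minB c G R = true)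
    (hR : ∀ M ∈ R, KG (M : Multiset ℕ) K) : ∀ p ∈ G, p.length = 2 * c ∧
      KG (bu (p.take c) (p.drop c) : Multiset ℕ) K := by
  intro p hp
  have h1 := List.all_eq_true.1 h p hp
  rw [Bool.and_eq_true] at h1
  refine ⟨Nat.eq_of_beq_eq_true h1.1, ?_⟩
  obtain ⟨M, hM, h2⟩ := List.any_eq_true.1 h1.2
  rw [Bool.or_eq_true] at h2
  rcases h2 with h2 | h2
  · rw [Multiset.coe_eq_coe.2 (List.isPerm_iff.1 h2)]
    exact hR M hM
  · have h3 : KG (conjL (bu (p.take c) (p.drop c)) : Multiset ℕ) K := by
      rw [Multiset.coe_eq_coe.2 (List.isPerm_iff.1 h2)]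
      exact hR M hM
    exact KG_conjL.1 h3

/-- THE COVERING THEOREM -/
theorem cover {c K n0 : ℕ} {G R : List (List ℕ)} (T : BT) (hR : ∀ M ∈ R, KG (M : Multiset ℕ) K)
    (hmin : minB c G R = true)
    (hT : btB c n0 G T (List.replicate (2 * c) 1) (List.replicate (2 * c) 0) = true)
    {M : Multiset ℕ} (hM : ∀ s ∈ M, 1 ≤ s) (hc : M.dedup.card = c) (hn : n0 ≤ M.sum) : KG M K := by
  obtain ⟨ms, gs, h1, h2, h3, h4, h5⟩ := exists_bu M hM
  rw [hc] at h1 h2
  have hG := minB_spec hmin hR
  have htake : (ms ++ gs).take c = ms := by rw [← h1, List.take_left]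
  have hdrop : (ms ++ gs).drop c = gs := by rw [← h1, List.drop_left]
  have hsum : n0 ≤ nS ((ms ++ gs).take c) ((ms ++ gs).drop c) := by
    rw [htake, hdrop, ← sum_bu, ← Multiset.sum_coe, ← h5]
    exact hn
  have hlen : (ms ++ gs).length = 2 * c := by rw [List.length_append, h1, h2]; omega
  have hlow : leP (List.replicate (2 * c) 1) (ms ++ gs) := by
    intro i
    by_cases hi : i < 2 * c
    · rw [List.getD_eq_getElem _ _ (by rw [List.length_replicate]; exact hi), List.getElem_replicate,
        List.getD_eq_getElem _ _ (by rw [hlen]; exact hi)]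
      rcases List.mem_append.1 (List.getElem_mem (by rw [hlen]; exact hi : i < (ms ++ gs).length))
        with h | h
      · exact h3 _ h
      · exact h4 _ h
    · rw [List.getD_eq_default _ _ (by rw [List.length_replicate]; omega)]
      exact Nat.zero_le _
  have hup : ∀ i, (List.replicate (2 * c) 0).getD i 0 ≠ 0 →
      (ms ++ gs).getD i 0 ≤ (List.replicate (2 * c) 0).getD i 0 := by
    intro i hi
    exfalso
    by_cases hi' : i < 2 * c
    · rw [List.getD_eq_getElem _ _ (by rw [List.length_replicate]; exact hi'),
        List.getElem_replicate] at hi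
      exact hi rfl
    · rw [List.getD_eq_default _ _ (by rw [List.length_replicate]; omega)] at hi
      exact hi rfl
  obtain ⟨p, hp, hpx⟩ := btB_spec c n0 G (fun p hp => (hG p hp).1) (ms ++ gs) hlen hsum T _ _
    (List.length_replicate) (List.length_replicate) hlow hup hT
  have h6 := leP_take hpx c
  have h7 := leP_drop hpx c
  rw [htake] at h6
  rw [hdrop] at h7
  have hpl := (hG p hp).1
  rw [h5]
  refine KG_bu ?_ (forall₂_of_leP ?_ h6) (forall₂_of_leP ?_ h7) (hG p hp).2
  · rw [List.length_take, List.length_drop, hpl]; omega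
  · rw [List.length_take, hpl, h1]; omega
  · rw [List.length_drop, hpl, h2]; omega

end Pool.MP322
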