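import Pool.Agent.Lib.MP_322c5f_al.SG26

/-! (C), part 17: five distinct column heights. -/

set_option autoImplicit false

namespace Pool.MP322

def cs5a_0 : List (List ℕ × List NdG) := [
  ([7,6,4,3,2], [
    (false,[],[7,6,4,3,2],false,5), (true,[([(1,[3,2,1],[6])],[1,1])],[5,4,3,2],false,4),
    (true,[([(1,[4,3,3,1],[6,5])],[2])],[5,2,2],false,2),
    (false,[([(1,[5,4,2,2,1],[6,5,3])],[5,3])],[],false,1),
    (true,[([(1,[5,4,2,2,1],[6,6])],[])],[5,3],false,2),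
    (true,[([(1,[3,3,2],[7])],[1,1])],[5,4,2,1],false,4),
    (true,[([(1,[5,4,2,2,1],[7,5])],[])],[5,3],false,2),
    (false,[([(1,[5,4,2,2,1],[7,6])],[5,3])],[],false,1),
    (true,[([(1,[3,3,2],[8])],[1,1])],[5,4,2,1],false,4),
    (false,[([(1,[4,4,3,2],[8,5])],[1,1])],[7],false,1),
    (true,[([(1,[3,3,3],[9])],[2,1])],[5,2,2,1],false,3),
    (false,[([(1,[4,4,3,2],[9,4])],[1,1])],[7],false,1),
    (true,[([(1,[4,3,2,1],[10])],[1])],[5,4,2],false,3),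
    (true,[([(1,[4,3,3,1],[11])],[2])],[5,2,2],false,2),
    (false,[([(1,[4,4,2,2],[12])],[3,2,1])],[4],false,1)]),
  ([7,6,5,3,1], [
    (false,[],[7,6,5,3,1],false,4), (true,[([(1,[3,2,1],[5])],[2])],[5,4,3,2],false,4),
    (true,[([(1,[4,3,2,1],[5,5])],[])],[5,4,3],false,3),
    (false,[([(1,[5,4,3,2,1],[5,5,4])],[4,3])],[],false,1),
    (true,[([(1,[3,2,1],[6])],[2])],[5,4,3,2],false,4),
    (true,[([(1,[4,3,3,1],[6,5])],[])],[5,4,2],false,3),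
    (true,[([(1,[5,4,3,2,1],[6,6])],[])],[4,3],false,2),
    (true,[([(1,[3,3,2],[7])],[1])],[5,4,3,1],false,4),
    (true,[([(1,[5,4,3,2,1],[7,5])],[])],[4,3],false,2),
    (false,[([(1,[5,4,3,2,1],[7,6])],[4,3])],[],false,1),
    (true,[([(1,[3,3,2],[8])],[1])],[5,4,3,1],false,4),
    (false,[([(1,[4,4,3,2],[8,5])],[4,3,1])],[1],false,1),
    (true,[([(1,[3,3,3],[9])],[1])],[5,4,2,1],false,4),
    (true,[([(1,[4,3,2,1],[10])],[])],[5,4,3],false,3),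
    (true,[([(1,[4,3,3,1],[11])],[])],[5,4,2],false,2),
    (false,[([(1,[4,4,3,2],[12])],[4,3,1])],[1],false,1)]),
  ([7,6,5,3,2], [
    (false,[],[7,6,5,3,2],false,5), (true,[([(1,[3,2,1],[6])],[2,1])],[5,4,3,2],false,4),
    (true,[([(1,[4,3,3,1],[6,5])],[1])],[5,4,2],false,3),
    (true,[([(1,[5,4,3,2,1],[6,6])],[])],[5,3],false,2),
    (true,[([(1,[3,3,2],[7])],[1,1])],[5,4,3,1],false,4),
    (true,[([(1,[5,4,3,2,1],[7,5])],[])],[5,3],false,2),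
    (false,[([(1,[5,4,3,2,1],[7,6])],[5,3])],[],false,1),
    (true,[([(1,[3,3,2],[8])],[1,1])],[5,4,3,1],false,4),
    (false,[([(1,[4,4,3,2],[8,5])],[2,1])],[7],false,1),
    (true,[([(1,[3,3,3],[9])],[1,1])],[5,4,2,1],false,4),
    (true,[([(1,[4,3,2,1],[10])],[1])],[5,4,3],false,3),
    (true,[([(1,[4,3,3,1],[11])],[])],[5,5,2],false,2),
    (false,[([(1,[4,4,2,2],[12])],[3,1])],[7],false,1)]),
  ([7,6,5,4,1], [
    (false,[],[7,6,5,4,1],false,4), (true,[([(1,[3,1,1],[5])],[2])],[5,4,4,3],false,3),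
    (true,[([(1,[3,2,1],[5]),(1,[2,2],[4])],[])],[4,4,3,2],false,3),
    (false,[([(1,[3,1,1],[5]),(1,[2,2],[4]),(1,[2,2],[4])],[])],[6,4],false,2),
    (true,[([(1,[4,3,2,1],[5,5])],[])],[5,4,4],false,2),
    (false,[([(1,[5,4,3,2,1],[5,5,3])],[4,4])],[],false,1),
    (false,[([(1,[5,4,3,2,1],[5,5,3,2])],[4,4])],[],false,1),
    (false,[([(1,[5,4,3,2,1],[5,5,4])],[4,4])],[],false,1),
    (true,[([(1,[3,2,1],[6])],[1])],[5,4,4,3],false,3),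
    (true,[([(1,[4,3,3,1],[6,4])],[3])],[4,3,2],false,3),
    (false,[([(1,[5,4,3,2,1],[6,4,4])],[4,4])],[],false,1),
    (true,[([(1,[4,3,3,1],[6,5])],[3])],[4,3,2],false,3),
    (false,[([(1,[5,4,3,2,1],[6,6])],[4,4])],[],false,1),
    (false,[([(1,[5,4,3,2,1],[6,6,2])],[4,4])],[],false,1),
    (true,[([(1,[3,3,2],[7])],[2])],[5,4,3,1],false,4),
    (false,[([(1,[3,3,2],[7]),(1,[3,1,1],[5])],[3])],[6,1],false,2),
    (false,[([(1,[5,4,3,2,1],[7,6])],[4,4])],[],false,1),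
    (true,[([(1,[3,3,2],[8])],[2])],[5,4,3,1],false,4),
    (false,[([(1,[4,4,3,2],[8,5])],[4,4,1])],[1],false,1),
    (true,[([(1,[3,3,3],[9])],[2])],[5,4,2,1],false,4),
    (true,[([(1,[4,3,3,1],[10])],[3])],[4,3,2],false,3),
    (true,[([(1,[4,3,3,1],[11])],[2])],[4,4,2],false,2),
    (false,[([(1,[4,4,3,2],[12])],[4,4,1])],[1],false,1)]),
  ([7,6,5,4,2], [
    (false,[],[7,6,5,4,2],false,5), (true,[([(1,[3,2,1],[6])],[2,2])],[5,4,3,2],false,4),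
    (true,[([(1,[4,3,3,1],[6,5])],[2])],[5,4,2],false,3),
    (true,[([(1,[5,4,3,2,1],[6,6])],[])],[5,4],false,2),
    (true,[([(1,[3,3,2],[7])],[2,1])],[5,4,3,1],false,4),
    (true,[([(1,[5,4,3,2,1],[7,5])],[])],[5,4],false,2),
    (false,[([(1,[5,4,3,2,1],[7,6])],[5,4])],[],false,1),
    (true,[([(1,[3,3,2],[8])],[2,1])],[5,4,3,1],false,4),
    (false,[([(1,[4,4,3,2],[8,5])],[3,1])],[7],false,1),
    (true,[([(1,[3,3,3],[9])],[2,1])],[5,4,2,1],false,4),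
    (true,[([(1,[4,3,2,1],[10])],[2])],[5,4,3],false,3),
    (true,[([(1,[4,3,3,1],[11])],[2])],[5,4,2],false,2),
    (false,[([(1,[4,4,2,2],[12])],[3,3,1])],[5],false,1)]),
  ([7,6,5,4,3], [
    (false,[],[7,6,5,4,3],false,5), (true,[([(1,[3,2,1],[6])],[1,1])],[5,5,4,3],false,3),
    (true,[([(1,[3,2,1],[6]),(1,[2,2],[4])],[])],[5,5,3,2],false,3),
    (false,[([(1,[5,4,3,2,1],[6,4,4])],[5,5])],[],false,1),
    (true,[([(1,[4,3,3,1],[6,5])],[2])],[5,5,2],false,2),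
    (false,[([(1,[5,4,3,2,1],[6,5,3])],[5,5])],[],false,1),
    (false,[([(1,[3,2,1],[6]),(1,[3,2,1],[6])],[3])],[6,4],false,2),
    (true,[([(1,[3,3,2],[7])],[2,2])],[5,4,3,1],false,4),
    (false,[([(1,[3,3,2],[7]),(1,[3,1,1],[5])],[])],[7,5],false,2),
    (false,[([(1,[5,4,3,2,1],[7,6])],[5,5])],[],false,1),
    (true,[([(1,[3,3,2],[8])],[2,2])],[5,4,3,1],false,4),
    (false,[([(1,[4,4,3,2],[8,5])],[4,1])],[7],false,1),
    (true,[([(1,[3,3,3],[9])],[2,2])],[5,4,2,1],false,4),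
    (true,[([(1,[4,3,2,1],[10])],[1])],[5,5,4],false,2),
    (false,[([(1,[4,4,3,2],[10,3])],[4,1])],[7],false,1),
    (true,[([(1,[4,3,3,1],[11])],[2])],[5,5,2],false,2),
    (false,[([(1,[4,4,2,2],[12])],[4,3,1])],[5],false,1)]),
  ([8,6,5,2,1], [
    (false,[],[8,6,5,2,1],false,4), (true,[([(1,[3,1,1],[5])],[])],[5,4,3,3,2],false,4),
    (true,[([(1,[4,3,2,1],[5,5])],[])],[5,3,3,1],false,3),
    (false,[([(1,[5,4,3,2,1],[5,5,4])],[3,3,1])],[],false,1),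
    (true,[([(1,[3,2,1],[6])],[2])],[5,3,3,2,1],true,4),
    (true,[([(1,[4,3,3,1],[6,5])],[])],[5,3,2,1],false,3),
    (true,[([(1,[5,3,2,1,1],[6,6])],[])],[4,3,3],false,2),
    (true,[([(1,[3,3,2],[7])],[])],[5,4,3,1,1],false,4),
    (true,[([(1,[5,3,2,1,1],[7,5])],[])],[4,3,3],false,2),
    (false,[([(1,[5,3,3,1,1],[7,6])],[4,3,2])],[],false,1),
    (true,[([(1,[3,3,2],[8])],[])],[5,4,3,1,1],false,4),
    (false,[([(1,[5,3,3,1,1],[8,5])],[4,3,2])],[],false,1),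
    (true,[([(1,[3,3,3],[9])],[])],[5,4,2,1,1],false,4),
    (true,[([(1,[4,3,2,1],[10])],[])],[5,3,3,1],false,3),
    (true,[([(1,[4,3,3,1],[11])],[])],[5,3,2,1],false,2),
    (false,[([(1,[5,3,2,1,1],[12])],[4,3,3])],[],false,1)]),
  ([8,7,5,2,1], [
    (false,[],[8,7,5,2,1],false,4), (true,[([(1,[3,2,1],[5])],[])],[5,4,3,3,2],false,4),
    (true,[([(1,[4,3,2,1],[5,5])],[])],[5,3,3,2],false,3),
    (false,[([(1,[5,4,2,2,1],[5,5,4])],[3,3,3])],[],false,1),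
    (true,[([(1,[3,2,1],[6])],[])],[5,4,3,3,2],false,4),
    (true,[([(1,[4,3,3,1],[6,5])],[])],[5,3,2,2],false,3),
    (true,[([(1,[5,4,3,2,1],[6,6])],[])],[3,3,2],false,2),
    (true,[([(1,[3,3,2],[7])],[])],[5,4,3,2,1],false,5),
    (false,[([(1,[5,4,2,2,1],[7,6])],[3,3,3])],[],false,1),
    (true,[([(1,[3,3,2],[8])],[])],[5,4,3,2,1],false,5),
    (true,[([(1,[3,3,3],[9])],[])],[5,4,2,2,1],false,4),
    (true,[([(1,[4,3,2,1],[10])],[])],[5,3,3,2],false,3),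
    (true,[([(1,[4,3,3,1],[11])],[])],[5,3,2,2],false,2),
    (false,[([(1,[4,4,2,2],[12])],[3,3,3,1])],[1],false,1)]),
  ([8,7,6,2,1], [
    (false,[],[8,7,6,2,1],false,4), (true,[([(1,[3,2,1],[5])],[])],[5,4,3,3,3],false,3),
    (true,[([(1,[3,1,1],[5]),(1,[2,2],[4])],[])],[4,3,3,3,2],false,3),
    (true,[([(1,[4,3,2,1],[5,4])],[]),([(1,[2,2],[4])],[2])],[5,3],false,2),
    (true,[([(1,[4,3,2,1],[5,5])],[])],[5,3,3,3],false,2),
    (false,[([(1,[5,4,3,2,1],[5,5,3])],[3,3,3])],[],false,1),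
    (false,[([(1,[5,4,3,2,1],[5,5,3,2])],[3,3,3])],[],false,1),
    (false,[([(1,[5,4,3,2,1],[5,5,4])],[3,3,3])],[],false,1),
    (true,[([(1,[3,2,1],[6])],[])],[5,4,3,3,3],false,3),
    (true,[([(1,[4,3,3,1],[6,4])],[])],[5,3,3,2],false,3),
    (false,[([(1,[5,4,3,2,1],[6,4,4])],[3,3,3])],[],false,1),
    (true,[([(1,[4,3,3,1],[6,5])],[])],[5,3,3,2],false,3),
    (false,[([(1,[3,2,1],[6]),(1,[3,2,1],[6])],[2,2])],[7,1],false,2),
    (true,[([(1,[3,3,2],[7])],[])],[5,4,3,3,1],false,4),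
    (true,[([(1,[3,3,2],[7])],[]),([(1,[3,1,1],[5])],[2,2])],[4,3],false,2),
    (false,[([(1,[5,4,3,2,1],[7,6])],[3,3,3])],[],false,1),
    (true,[([(1,[3,3,2],[8])],[])],[5,4,3,3,1],false,4),
    (false,[([(1,[4,4,3,2],[8,5])],[3,3,3,1])],[1],false,1),
    (true,[([(1,[3,3,3],[9])],[])],[5,4,3,2,1],false,4),
    (true,[([(1,[4,3,3,1],[10])],[])],[5,3,3,2],false,3),
    (true,[([(1,[4,3,3,1],[11])],[])],[5,3,3,2],false,2),
    (false,[([(1,[4,4,3,2],[12])],[3,3,3,1])],[1],false,1)]),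
  ([9,4,3,2,1,1,1,1], [
    (false,[],[9,4,3,2,1,1,1,1],false,5), (false,[([(1,[4,1,1,1],[6])],[])],[9,3,2,1],true,4),
    (true,[([(1,[6,1,1,1,1,1],[6,5])],[1,1])],[4,3,2],false,3),
    (false,[([(1,[6,2,1,1,1,1],[6,6])],[1,1,1])],[4,3],false,2),
    (false,[([(1,[4,1,1,1],[7])],[])],[9,3,2,1],false,4),
    (false,[([(1,[6,2,1,1,1,1],[7,5])],[1,1,1])],[4,3],false,2),
    (false,[([(1,[7,1,1,1,1,1,1],[7,6])],[3,2])],[4],false,1),
    (true,[([(1,[5,1,1,1,1],[8])],[1,1,1])],[4,3,2,1],false,4),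
    (false,[([(1,[7,1,1,1,1,1,1],[8,5])],[3,2])],[4],false,1),
    (true,[([(1,[5,1,1,1,1],[9])],[1,1,1])],[4,3,2,1],false,4),
    (false,[([(1,[5,2,1,1,1],[10])],[1,1,1,1])],[4,3,1],false,3),
    (false,[([(1,[6,1,1,1,1,1],[11])],[2,1,1])],[4,3],false,2),
    (false,[([(1,[6,2,1,1,1,1],[12])],[1,1,1])],[4,3],false,1)]),
  ([9,5,4,3,1], [
    (false,[],[9,5,4,3,1],true,5), (true,[([(1,[4,1,1,1],[6])],[])],[5,4,3,2,1],false,5),
    (true,[([(1,[5,3,2,1,1],[6,6])],[])],[4,4,1,1],false,2),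
    (true,[([(1,[4,1,1,1],[7])],[])],[5,4,3,2,1],false,5),
    (false,[([(1,[5,4,3,2,1],[7,6])],[4,1,1,1])],[],false,1),
    (true,[([(1,[4,2,1,1],[8])],[])],[5,4,3,1,1],false,4),
    (false,[([(1,[4,4,3,2],[8,5])],[4,1,1,1,1])],[1],false,1),
    (true,[([(1,[5,1,1,1,1],[9])],[])],[4,4,3,2],false,3),
    (false,[([(1,[4,4,3,2],[9,4])],[4,1,1,1,1])],[1],false,1),
    (true,[([(1,[5,2,1,1,1],[10])],[])],[4,4,3,1],false,3),
    (true,[([(1,[4,3,3,1],[11])],[2])],[4,2,1,1,1],false,2),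
    (false,[([(1,[5,3,2,1,1],[12])],[4,4,1,1])],[],false,1)]),
  ([9,6,4,2,1], [
    (false,[],[9,6,4,2,1],true,5), (true,[([(1,[3,2,1],[6])],[])],[5,4,3,2,1,1],false,5),
    (true,[([(1,[5,3,2,1,1],[6,6])],[])],[4,3,2,1],false,2),
    (true,[([(1,[4,1,1,1],[7])],[2])],[4,3,3,2,1],false,4),
    (true,[([(1,[5,3,2,1,1],[7,5])],[])],[4,3,2,1],false,2),
    (false,[([(1,[5,3,3,1,1],[7,6])],[4,2,2,1])],[],false,1),
    (true,[([(1,[4,2,1,1],[8])],[])],[5,3,3,2,1],false,4),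
    (false,[([(1,[5,3,3,1,1],[8,5])],[4,2,2,1])],[],false,1),
    (true,[([(1,[4,3,2,1],[9])],[])],[5,3,2,1,1],false,4),
    (true,[([(1,[5,2,1,1,1],[10])],[])],[4,3,3,2],false,3),
    (true,[([(1,[4,3,3,1],[11])],[])],[5,2,2,1,1],false,2),
    (false,[([(1,[5,3,2,1,1],[12])],[4,3,2,1])],[],false,1)])]

theorem cs5a_0_ok : runAll [] 11 cs5a_0 = true := by decide +kernel

def cs5a_1 : List (List ℕ × List NdG) := [
  ([9,7,3,2,1], [
    (false,[],[9,7,3,2,1],true,5), (true,[([(1,[3,2,1],[6])],[1])],[5,3,2,2,2,1],true,4),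
    (true,[([(1,[3,2,1],[6])],[]),([(1,[3,1,1],[5])],[3])],[5,2,1],false,3),
    (true,[([(1,[5,3,2,1,1],[6,6])],[])],[4,2,2,2],false,2),
    (true,[([(1,[4,1,1,1],[7])],[3])],[4,3,2,2,1],false,4),
    (true,[([(1,[5,3,2,1,1],[7,5])],[])],[4,2,2,2],false,2),
    (false,[([(1,[5,4,2,2,1],[7,6])],[3,2,2,1])],[],false,1),
    (true,[([(1,[4,2,1,1],[8])],[])],[5,3,2,2,2],false,3),
    (true,[([(1,[5,3,2,1,1],[8,4])],[])],[4,2,2,2],false,2),
    (false,[([(1,[4,4,3,2],[8,5])],[2,2,2,1,1])],[1],false,1),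
    (true,[([(1,[4,3,2,1],[9])],[])],[5,2,2,2,1],false,3),
    (false,[([(1,[4,4,3,2],[9,4])],[2,2,2,1,1])],[1],false,1),
    (true,[([(1,[4,3,2,1],[10])],[])],[5,2,2,2,1],false,3),
    (true,[([(1,[4,3,3,1],[11])],[2])],[2,2,2,2,1],false,2),
    (false,[([(1,[5,3,2,1,1],[12])],[4,2,2,2])],[],false,1)]),
  ([9,8,3,2,1], [
    (false,[],[9,8,3,2,1],true,4), (true,[([(1,[3,1,1],[5])],[3])],[5,3,2,2,2,1],true,4),
    (true,[([(1,[3,1,1],[5])],[3]),([(1,[3,1,1],[5])],[3,1])],[3,2,1],false,3),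
    (false,[([(1,[5,4,2,2,1],[5,5,4])],[3,2,2,2])],[],false,1),
    (true,[([(1,[3,2,1],[6])],[])],[5,4,2,2,2,2],false,3),
    (true,[([(1,[3,2,1],[6])],[]),([(1,[2,2],[4])],[])],[5,4,2,2],false,3),
    (false,[([(1,[5,4,2,2,1],[6,4,4])],[3,2,2,2])],[],false,1),
    (false,[([(1,[3,2,1],[6]),(1,[3,1,1],[5])],[1,1])],[9,1],true,2),
    (false,[([(1,[5,4,2,2,1],[6,5,3])],[3,2,2,2])],[],false,1),
    (true,[([(1,[5,4,2,2,1],[6,6])],[])],[3,2,2,2],false,2),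
    (true,[([(1,[4,1,1,1],[7])],[4])],[4,3,2,2,1],false,4),
    (true,[([(1,[5,4,2,2,1],[7,5])],[])],[3,2,2,2],false,2),
    (false,[([(1,[5,4,2,2,1],[7,6])],[3,2,2,2])],[],false,1),
    (true,[([(1,[4,2,1,1],[8])],[4])],[4,2,2,2,1],true,3),
    (true,[([(1,[4,4,2,2],[8,4])],[1])],[3,2,2,2,1],false,2),
    (false,[([(1,[4,4,3,2],[8,5])],[2,2,2,2,1])],[1],false,1),
    (true,[([(1,[3,3,3],[9])],[2,1])],[2,2,2,2,2,1],true,2),
    (true,[([(1,[4,4,2,2],[9,3])],[1])],[3,2,2,2,1],false,2),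
    (false,[([(1,[4,4,3,2],[9,4])],[2,2,2,2,1])],[1],false,1),
    (true,[([(1,[4,3,2,1],[10])],[])],[5,2,2,2,2],false,2),
    (false,[([(1,[4,4,3,2],[10,3])],[2,2,2,2,1])],[1],false,1),
    (true,[([(1,[4,4,2,2],[11])],[1])],[3,2,2,2,1],false,2),
    (false,[([(1,[4,4,2,2],[12])],[3,2,2,2,1])],[1],false,1)]),
  ([12,4,3,2,1], [
    (false,[],[12,4,3,2,1],true,5), (true,[([(1,[4,1,1,1],[6])],[])],[5,3,2,1,1,1,1,1],false,4),
    (true,[([(1,[4,1,1,1],[6])],[]),([(1,[3,1,1],[5])],[])],[5,2,1,1,1],false,3),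
    (true,[([(1,[5,3,2,1,1],[6,6])],[])],[4,1,1,1,1,1,1],false,2),
    (true,[([(1,[4,1,1,1],[7])],[])],[5,3,2,1,1,1,1,1],false,4),
    (true,[([(1,[5,3,2,1,1],[7,5])],[])],[4,1,1,1,1,1,1],false,2),
    (false,[([(1,[5,4,3,2,1],[7,6])],[1,1,1,1,1,1,1])],[],false,1),
    (true,[([(1,[5,1,1,1,1],[8])],[])],[4,3,2,1,1,1,1],false,4),
    (false,[([(1,[4,4,3,2],[8,5])],[1,1,1,1,1,1,1,1])],[1],false,1),
    (true,[([(1,[5,1,1,1,1],[9])],[])],[4,3,2,1,1,1,1],false,4),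
    (true,[([(1,[5,2,1,1,1],[10])],[])],[4,3,1,1,1,1,1],false,3),
    (true,[([(1,[4,3,3,1],[11])],[2])],[2,1,1,1,1,1,1,1],false,2),
    (false,[([(1,[5,3,2,1,1],[12])],[4,1,1,1,1,1,1])],[],false,1)])]

theorem cs5a_1_ok : runAll [] 11 cs5a_1 = true := by decide +kernel

/-- the minors -/
def G5a : List (List ℕ) := [
  [2,1,1,2,1,1,1,1,1,1], [1,1,1,1,1,1,2,1,1,2], [1,2,2,1,1,1,1,1,1,1], [1,1,1,1,1,1,1,2,2,1],
  [1,2,1,1,4,1,1,1,1,1], [1,1,1,1,1,4,1,1,2,1], [1,1,3,1,2,1,1,1,1,1], [1,1,1,1,1,2,1,3,1,1],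
  [1,1,2,2,3,1,1,1,1,1], [1,1,1,1,1,3,2,2,1,1], [1,1,1,4,2,1,1,1,1,1], [1,1,1,1,1,2,4,1,1,1],
  [1,1,1,1,8,1,1,1,1,1], [1,1,1,1,5,4,1,1,1,1], [1,1,1,1,4,5,1,1,1,1], [1,1,1,1,1,8,1,1,1,1],
  [2,1,2,1,1,1,1,1,1,1], [1,1,1,1,1,1,1,2,1,2], [1,3,1,1,1,1,1,1,1,1], [1,1,1,1,1,1,1,1,3,1],
  [1,1,3,2,1,1,1,1,1,1], [1,1,1,1,1,1,2,3,1,1], [1,1,1,5,1,1,1,1,1,1], [1,1,1,1,1,1,5,1,1,1],
  [2,2,1,1,1,1,1,1,1,1], [1,1,1,1,1,1,1,1,2,2], [1,1,4,1,1,1,1,1,1,1], [1,1,1,1,1,1,1,4,1,1],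
  [3,1,1,1,1,1,1,1,1,1], [1,1,1,1,1,1,1,1,1,3]]

def T5a : BT :=
  .split 0 3 (.split 1 3 (.split 2 4 (.split 3 5 (.split 4 8 (.split 5 8 (.split 6 5 (.split 7 4
  (.split 8 3 (.split 9 3 (.split 9 2 (.split 0 2 (.split 7 2 (.split 8 2 (.split 6 3 (.split 5
  4 .small (.split 4 5 (.split 3 3 .small (.split 2 3 .small (.minor 20))) (.minor 13))) (.split
  1 2 (.split 5 4 .small (.split 4 5 .small (.minor 13))) (.split 2 2 (.split 4 4 .small (.minor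
  4)) (.minor 2)))) (.split 5 4 (.split 6 3 (.split 3 3 (.split 2 2 .small (.split 1 2 .small
  (.minor 2))) (.split 2 3 (.split 4 4 (.split 1 2 .small (.split 2 2 .small (.minor 2)))
  (.split 1 2 .small (.minor 4))) (.minor 20))) (.split 3 3 (.split 2 2 (.split 1 2 .small
  (.split 4 4 .small (.minor 4))) (.split 1 2 (.split 4 4 .small (.split 2 3 .small (.minor 6)))
  (.minor 2))) (.split 2 3 (.split 1 2 (.split 4 4 .small (.split 2 2 .small (.minor 8)))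
  (.split 2 2 (.split 4 4 (.split 6 4 (.split 3 4 .small (.split 4 2 .small (.minor 10)))
  (.split 5 2 (.split 3 4 .small (.split 4 2 .small (.minor 10))) (.minor 11))) (.minor 4))
  (.minor 2))) (.minor 20)))) (.minor 5))) (.split 8 2 (.split 2 2 (.split 6 3 (.split 1 2
  .small (.split 4 4 (.split 5 4 .small (.split 6 2 .small (.minor 9))) (.minor 4))) (.split 5 3
  (.split 7 3 (.split 1 2 .small (.split 4 4 .small (.minor 4))) (.minor 21)) (.minor 9)))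
  (.split 1 2 (.split 6 3 (.split 5 4 (.split 4 4 (.split 3 3 .small (.split 2 3 .small (.minor
  20))) (.split 2 3 .small (.minor 6))) (.split 4 5 (.split 6 2 (.split 7 3 .small (.minor 7))
  (.minor 9)) (.minor 13))) (.split 5 3 (.split 7 3 (.split 4 4 .small (.split 2 3 .small
  (.minor 6))) (.minor 21)) (.minor 9))) (.minor 2))) (.minor 3))) (.split 1 2 (.split 2 2
  (.split 3 2 (.split 5 4 (.split 6 3 (.split 7 2 .small (.split 8 2 .small (.minor 3))) (.split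
  7 3 (.split 4 4 (.split 8 2 .small (.split 7 2 .small (.minor 3))) (.split 8 2 (.split 7 2
  .small (.split 5 3 .small (.minor 9))) (.split 7 2 (.split 5 2 .small (.split 6 4 .small
  (.minor 11))) (.minor 3)))) (.minor 21))) (.split 4 5 (.split 6 4 (.split 7 3 (.split 8 2
  (.split 6 2 .small (.split 7 2 .small (.minor 9))) (.minor 5)) (.minor 7)) (.minor 11))
  (.minor 13))) (.minor 0)) (.minor 16)) (.minor 24))) (.split 6 2 (.split 7 2 (.split 8 2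
  (.split 5 4 (.split 4 4 (.split 3 3 (.split 2 2 .small (.split 0 2 .small (.minor 16)))
  (.split 0 2 (.split 2 3 (.split 1 2 .small (.split 2 2 .small (.minor 2))) (.minor 20))
  (.minor 0))) (.split 1 2 (.split 2 3 (.split 3 4 (.split 0 2 (.split 4 6 .small (.split 3 2
  .small (.split 2 2 .small (.minor 8)))) (.split 2 2 (.split 3 2 .small (.minor 0)) (.minor
  16))) (.minor 10)) (.minor 6)) (.minor 4))) (.split 4 5 (.split 0 2 (.split 3 3 (.split 2 2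
  .small (.split 1 2 (.split 4 3 .small (.split 2 3 .small (.minor 6))) (.minor 2))) (.split 2 3
  (.split 4 3 (.split 1 2 .small (.split 2 2 .small (.minor 2))) (.split 2 2 (.split 3 4 (.split
  1 2 .small (.split 4 4 .small (.minor 4))) (.minor 10)) (.minor 8))) (.minor 20))) (.split 1 2
  (.split 2 2 (.split 3 2 (.split 5 6 .small (.split 4 4 .small (.minor 14))) (.minor 0))
  (.minor 16)) (.minor 24))) (.minor 13))) (.minor 25)) (.minor 17)) (.minor 1))) (.minor 29))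
  (.minor 19)) (.minor 27)) (.minor 23)) (.minor 15)) (.minor 12)) (.minor 22)) (.minor 26))
  (.minor 18)) (.minor 28)

def R5a : List (List ℕ) :=
  cs5a_0.map Prod.fst ++ cs5a_1.map Prod.fst

theorem R5a_ok : ∀ M ∈ R5a, KG (M : Multiset ℕ) 11 := by
  intro M h
  unfold R5a at h
  simp only [List.mem_append] at h
  rcases h with h | h
  · exact kg_of_all (by simp) cs5a_0_ok M h
  · exact kg_of_all (by simp) cs5a_1_ok M h

theorem min5a_ok : minB 5 G5a R5a = true := by decide +kernel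

theorem T5a_ok : btB 5 43 G5a T5a (List.replicate (2 * 5) 1)
    (List.replicate (2 * 5) 0) = true := by decide +kernel

theorem kg5a {M : Multiset ℕ} (hM : ∀ s ∈ M, 1 ≤ s)
    (hc : M.dedup.card = 5) (hn : 43 ≤ M.sum) : KG M 11 :=
  cover T5a (R5a_ok) min5a_ok T5a_ok hM hc hn

def cs5b_0 : List (List ℕ × List NdG) := [
  ([6,5,4,2,1], [
    (false,[],[6,5,4,2,1],false,4), (true,[([(1,[3,2,1],[5])],[])],[5,4,3],false,3),
    (true,[([(1,[3,1,1],[5]),(1,[2,2],[4])],[])],[4,3,2],false,3),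
    (true,[([(1,[4,3,2,1],[5,5])],[])],[5,3],false,2),
    (true,[([(1,[3,2,1],[6])],[])],[5,4,3],false,3),
    (true,[([(1,[4,3,2,1],[6,4])],[])],[5,3],false,2),
    (false,[([(1,[4,3,3,1],[6,5])],[3,2])],[2],false,1),
    (true,[([(1,[3,3,2],[7])],[])],[5,4,1],false,3),
    (false,[([(1,[4,3,3,1],[7,4])],[3,2])],[2],false,1),
    (true,[([(1,[3,3,2],[8])],[])],[5,4,1],false,3),
    (false,[([(1,[3,3,3],[9])],[3,2,1])],[2,1],false,2),
    (false,[([(1,[4,3,2,1],[10])],[2])],[6],false,1)]),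
  ([6,5,4,3,1], [
    (false,[],[6,5,4,3,1],false,4), (true,[([(1,[3,1,1],[5])],[2])],[5,4,3],false,3),
    (true,[([(1,[3,2,1],[5]),(1,[2,2],[4])],[])],[4,3,2],false,3),
    (true,[([(1,[4,3,2,1],[5,5])],[])],[5,4],false,2),
    (true,[([(1,[3,2,1],[6])],[1])],[5,4,3],false,3),
    (true,[([(1,[4,3,2,1],[6,4])],[])],[5,4],false,2),
    (false,[([(1,[4,3,3,1],[6,5])],[2])],[6],false,1),
    (true,[([(1,[3,3,2],[7])],[1])],[5,4,1],false,3),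
    (false,[([(1,[4,3,3,1],[7,4])],[2])],[6],false,1),
    (true,[([(1,[3,3,2],[8])],[1])],[5,4,1],false,3),
    (false,[([(1,[3,3,3],[9])],[2,1])],[6,1],false,2),
    (false,[([(1,[4,3,2,1],[10])],[3])],[6],false,1)]),
  ([6,5,4,3,2], [
    (false,[],[6,5,4,3,2],false,5), (true,[([(1,[3,2,1],[6])],[1,1])],[5,4,3],false,3),
    (true,[([(1,[4,3,2,1],[6,4])],[1])],[5,4],false,2),
    (false,[([(1,[4,3,3,1],[6,5])],[4,2])],[3],false,1),
    (true,[([(1,[3,3,2],[7])],[1,1])],[5,4,1],false,3),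
    (false,[([(1,[4,3,3,1],[7,4])],[4,2])],[3],false,1),
    (true,[([(1,[3,3,2],[8])],[1,1])],[5,4,1],false,3),
    (false,[([(1,[3,3,3],[9])],[2,1])],[6,2],false,2),
    (false,[([(1,[4,3,2,1],[10])],[4])],[6],false,1)]),
  ([7,5,3,2,1], [
    (false,[],[7,5,3,2,1],true,5), (true,[([(1,[3,2,1],[6])],[])],[5,4,2,1],false,4),
    (false,[([(1,[4,3,3,1],[6,5])],[2,2,1])],[2],false,1),
    (true,[([(1,[4,1,1,1],[7])],[2])],[4,3,2],false,3),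
    (false,[([(1,[4,3,3,1],[7,4])],[2,2,1])],[2],false,1),
    (true,[([(1,[4,2,1,1],[8])],[])],[5,3,2],false,3),
    (false,[([(1,[3,3,3],[9])],[2,2,1,1])],[2,1],false,2),
    (false,[([(1,[4,3,2,1],[10])],[1])],[7],false,1)]),
  ([7,6,3,2,1], [
    (false,[],[7,6,3,2,1],false,4), (true,[([(1,[3,1,1],[5])],[3])],[5,3,2,1],false,4),
    (true,[([(1,[4,3,2,1],[5,5])],[])],[5,2,2],false,2),
    (true,[([(1,[3,2,1],[6])],[])],[5,4,2,2],false,3),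
    (true,[([(1,[4,3,2,1],[6,4])],[])],[5,2,2],false,2),
    (false,[([(1,[4,3,3,1],[6,5])],[2,2,2])],[2],false,1),
    (true,[([(1,[4,1,1,1],[7])],[3])],[4,3,2],false,3),
    (false,[([(1,[4,3,3,1],[7,4])],[2,2,2])],[2],false,1),
    (true,[([(1,[4,2,1,1],[8])],[4])],[4,2,1],false,3),
    (false,[([(1,[3,3,3],[9])],[2,2,2,1])],[2,1],false,2),
    (false,[([(1,[4,3,2,1],[10])],[1,1])],[7],false,1)]),
  ([8,4,3,2,1], [
    (false,[],[8,4,3,2,1],true,5), (true,[([(1,[4,1,1,1],[6])],[])],[5,3,2,1],false,4),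
    (false,[([(1,[4,3,3,1],[6,5])],[2,1,1,1])],[2],false,1),
    (true,[([(1,[4,1,1,1],[7])],[])],[5,3,2,1],false,4),
    (true,[([(1,[4,2,1,1],[8])],[])],[5,3,1,1],false,3),
    (true,[([(1,[5,1,1,1,1],[9])],[])],[4,3,2],false,2),
    (false,[([(1,[5,2,1,1,1],[10])],[4,3,1])],[],false,1)])]

theorem cs5b_0_ok : runAll [] 9 cs5b_0 = true := by decide +kernel

/-- the minors -/
def G5b : List (List ℕ) := [
  [1,1,2,1,1,1,1,1,1,1], [1,1,1,1,1,1,1,2,1,1], [1,1,1,2,2,1,1,1,1,1], [1,1,1,1,1,2,2,1,1,1],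
  [1,1,1,1,4,1,1,1,1,1], [1,1,1,1,1,4,1,1,1,1], [1,2,1,1,1,1,1,1,1,1], [1,1,1,1,1,1,1,1,2,1],
  [1,1,1,3,1,1,1,1,1,1], [1,1,1,1,1,1,3,1,1,1], [2,1,1,1,1,1,1,1,1,1], [1,1,1,1,1,1,1,1,1,2]]

def T5b : BT :=
  .split 0 2 (.split 1 2 (.split 2 2 (.split 3 3 (.split 4 4 (.split 5 4 (.split 6 3 (.split 7 2
  (.split 8 2 (.split 9 2 .small (.minor 11)) (.minor 7)) (.minor 1)) (.minor 9)) (.minor 5))
  (.minor 4)) (.minor 8)) (.minor 0)) (.minor 6)) (.minor 10)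

def R5b : List (List ℕ) :=
  cs5b_0.map Prod.fst

theorem R5b_ok : ∀ M ∈ R5b, KG (M : Multiset ℕ) 9 := by
  intro M h
  unfold R5b at h
  exact kg_of_all (by simp) cs5b_0_ok M h

theorem min5b_ok : minB 5 G5b R5b = true := by decide +kernel

theorem T5b_ok : btB 5 30 G5b T5b (List.replicate (2 * 5) 1)
    (List.replicate (2 * 5) 0) = true := by decide +kernel

theorem kg5b {M : Multiset ℕ} (hM : ∀ s ∈ M, 1 ≤ s)
    (hc : M.dedup.card = 5) (hn : 30 ≤ M.sum) : KG M 9 :=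
  cover T5b (R5b_ok) min5b_ok T5b_ok hM hc hn

end Pool.MP322
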