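import Pool.Agent.Lib.MP_322c5f_al.SG26

/-! (C), part 18: six and seven distinct column heights. -/

set_option autoImplicit false

namespace Pool.MP322

def cs6a_0 : List (List ℕ × List NdG) := [
  ([7,5,4,3,2,1], [
    (false,[],[7,5,4,3,2,1],true,6), (true,[([(1,[4,1,1,1],[7])],[2])],[6,4,3],false,3),
    (true,[([(1,[4,3,3,1],[7,4])],[2])],[6,2,1],false,3),
    (true,[([(1,[5,3,2,1,1],[7,5])],[])],[6,4],false,2),
    (false,[([(1,[5,3,3,1,1],[7,6])],[4,2])],[3],false,1),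
    (true,[([(1,[4,2,1,1],[8])],[])],[6,5,3],false,3),
    (true,[([(1,[5,3,2,1,1],[8,4])],[])],[6,4],false,2),
    (false,[([(1,[5,3,3,1,1],[8,5])],[4,2])],[3],false,1),
    (false,[([(1,[3,3,3],[9])],[2,1])],[7,2,1],false,3),
    (false,[([(1,[5,3,3,1,1],[9,4])],[4,2])],[3],false,1),
    (true,[([(1,[4,3,2,1],[10])],[])],[6,5,1],false,3),
    (false,[([(1,[4,3,3,1],[11])],[2])],[7,2],false,2),
    (false,[([(1,[5,3,2,1,1],[12])],[4,1])],[5],false,1)]),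
  ([7,6,4,3,2,1], [
    (false,[],[7,6,4,3,2,1],false,5), (true,[([(1,[3,2,1],[6])],[])],[6,5,4,2],false,4),
    (true,[([(1,[4,3,3,1],[6,5])],[4,2])],[3,2,1],false,3),
    (true,[([(1,[5,3,2,1,1],[6,6])],[4])],[5,2],false,2),
    (true,[([(1,[3,3,2],[7])],[1])],[6,5,2,1],false,4),
    (true,[([(1,[5,3,2,1,1],[7,5])],[4])],[5,2],false,2),
    (false,[([(1,[5,4,2,2,1],[7,6])],[3,2])],[4],false,1),
    (true,[([(1,[3,3,2],[8])],[1])],[6,5,2,1],false,4),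
    (false,[([(1,[4,4,3,2],[8,5])],[1,1])],[7,1],false,1),
    (false,[([(1,[3,3,3],[9])],[2,1,1])],[7,2,1],false,3),
    (false,[([(1,[4,4,3,2],[9,4])],[1,1])],[7,1],false,1),
    (true,[([(1,[4,3,2,1],[10])],[])],[6,5,2],false,3),
    (false,[([(1,[4,3,3,1],[11])],[2,1])],[7,2],false,2),
    (false,[([(1,[5,3,2,1,1],[12])],[4])],[7],false,1)]),
  ([7,6,5,3,2,1], [
    (false,[],[7,6,5,3,2,1],false,5), (true,[([(1,[3,2,1],[6])],[])],[6,5,4,3],false,4),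
    (true,[([(1,[4,3,3,1],[6,5])],[])],[6,5,2],false,3),
    (true,[([(1,[5,3,2,1,1],[6,6])],[4])],[5,3],false,2),
    (true,[([(1,[3,3,2],[7])],[])],[6,5,4,1],false,4),
    (true,[([(1,[5,3,2,1,1],[7,5])],[4])],[5,3],false,2),
    (false,[([(1,[5,4,2,2,1],[7,6])],[3])],[7],false,1),
    (true,[([(1,[3,3,2],[8])],[])],[6,5,4,1],false,4),
    (false,[([(1,[4,4,3,2],[8,5])],[2,1])],[7,1],false,1),
    (true,[([(1,[3,3,3],[9])],[1])],[6,5,2,1],false,4),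
    (true,[([(1,[4,3,2,1],[10])],[])],[6,5,3],false,3),
    (false,[([(1,[4,3,3,1],[11])],[2,2])],[7,2],false,2),
    (false,[([(1,[5,3,2,1,1],[12])],[4,2])],[6],false,1)]),
  ([7,6,5,4,2,1], [
    (false,[],[7,6,5,4,2,1],false,5), (true,[([(1,[3,2,1],[6])],[1])],[6,5,4,3],false,4),
    (true,[([(1,[4,3,3,1],[6,5])],[2])],[6,4,2],false,3),
    (true,[([(1,[5,3,2,1,1],[6,6])],[4])],[5,4],false,2),
    (true,[([(1,[3,3,2],[7])],[1])],[6,5,4,1],false,4),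
    (true,[([(1,[5,3,2,1,1],[7,5])],[4])],[5,4],false,2),
    (false,[([(1,[5,3,3,1,1],[7,6])],[4,2])],[6],false,1),
    (true,[([(1,[3,3,2],[8])],[1])],[6,5,4,1],false,4),
    (false,[([(1,[5,3,3,1,1],[8,5])],[4,2])],[6],false,1),
    (true,[([(1,[3,3,3],[9])],[2])],[6,5,2,1],false,4),
    (true,[([(1,[4,3,2,1],[10])],[])],[6,5,4],false,3),
    (false,[([(1,[4,3,3,1],[11])],[3,2])],[7,2],false,2),
    (false,[([(1,[5,3,2,1,1],[12])],[4,3])],[6],false,1)]),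
  ([7,6,5,4,3,1], [
    (false,[],[7,6,5,4,3,1],false,5), (true,[([(1,[3,2,1],[6])],[1,1])],[6,5,4,3],false,4),
    (true,[([(1,[4,3,3,1],[6,5])],[2])],[6,5,2],false,3),
    (true,[([(1,[5,4,2,2,1],[6,6])],[3])],[5,4],false,2),
    (true,[([(1,[3,3,2],[7])],[1,1])],[6,5,4,1],false,4),
    (true,[([(1,[5,4,2,2,1],[7,5])],[3])],[5,4],false,2),
    (false,[([(1,[5,4,2,2,1],[7,6])],[4,3])],[5],false,1),
    (true,[([(1,[3,3,2],[8])],[1,1])],[6,5,4,1],false,4),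
    (false,[([(1,[4,4,3,2],[8,5])],[4,1])],[7,1],false,1),
    (true,[([(1,[3,3,3],[9])],[2,1])],[6,5,2,1],false,4),
    (true,[([(1,[4,3,2,1],[10])],[1])],[6,5,4],false,3),
    (false,[([(1,[4,3,3,1],[11])],[2])],[7,6],false,2),
    (false,[([(1,[5,3,2,1,1],[12])],[4,4])],[6],false,1)]),
  ([7,6,5,4,3,2], [
    (false,[],[7,6,5,4,3,2],false,6), (true,[([(1,[3,3,2],[7])],[1,1,1])],[6,5,4,1],false,4),
    (true,[([(1,[5,3,2,1,1],[7,5])],[4])],[6,5],false,2),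
    (false,[([(1,[5,4,2,2,1],[7,6])],[5,3])],[5],false,1),
    (true,[([(1,[3,3,2],[8])],[1,1,1])],[6,5,4,1],false,4),
    (false,[([(1,[4,4,3,2],[8,5])],[1])],[7,6],false,1),
    (true,[([(1,[3,3,3],[9])],[2,1,1])],[6,5,2,1],false,4),
    (true,[([(1,[4,3,2,1],[10])],[1,1])],[6,5,4],false,3),
    (false,[([(1,[4,3,3,1],[11])],[4,2])],[7,3],false,2),
    (false,[([(1,[5,3,2,1,1],[12])],[5,4])],[6],false,1)])]

theorem cs6a_0_ok : runAll [] 11 cs6a_0 = true := by decide +kernel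

/-- the minors -/
def G6a : List (List ℕ) := [
  [1,1,1,1,1,2,1,1,1,1,1,1], [1,1,1,1,1,1,2,1,1,1,1,1], [1,1,1,1,2,1,1,1,1,1,1,1],
  [1,1,1,1,1,1,1,2,1,1,1,1], [1,1,1,2,1,1,1,1,1,1,1,1], [1,1,1,1,1,1,1,1,2,1,1,1],
  [1,1,2,1,1,1,1,1,1,1,1,1], [1,1,1,1,1,1,1,1,1,2,1,1], [1,2,1,1,1,1,1,1,1,1,1,1],
  [1,1,1,1,1,1,1,1,1,1,2,1], [2,1,1,1,1,1,1,1,1,1,1,1], [1,1,1,1,1,1,1,1,1,1,1,2]]

def T6a : BT :=
  .split 0 2 (.split 1 2 (.split 2 2 (.split 3 2 (.split 4 2 (.split 5 2 (.split 6 2 (.split 7 2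
  (.split 8 2 (.split 9 2 (.split 10 2 (.split 11 2 .small (.minor 11)) (.minor 9)) (.minor 7))
  (.minor 5)) (.minor 3)) (.minor 1)) (.minor 0)) (.minor 2)) (.minor 4)) (.minor 6)) (.minor
  8)) (.minor 10)

def R6a : List (List ℕ) :=
  cs6a_0.map Prod.fst

theorem R6a_ok : ∀ M ∈ R6a, KG (M : Multiset ℕ) 11 := by
  intro M h
  unfold R6a at h
  exact kg_of_all (by simp) cs6a_0_ok M h

theorem min6a_ok : minB 6 G6a R6a = true := by decide +kernel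

theorem T6a_ok : btB 6 43 G6a T6a (List.replicate (2 * 6) 1)
    (List.replicate (2 * 6) 0) = true := by decide +kernel

theorem kg6a {M : Multiset ℕ} (hM : ∀ s ∈ M, 1 ≤ s)
    (hc : M.dedup.card = 6) (hn : 43 ≤ M.sum) : KG M 11 :=
  cover T6a (R6a_ok) min6a_ok T6a_ok hM hc hn

def cs6b_0 : List (List ℕ × List NdG) := [
  ([7,6,5,4,3,1], [
    (false,[],[7,6,5,4,3,1],false,5), (true,[([(1,[3,2,1],[6])],[1,1])],[6,5,4,3],false,4),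
    (true,[([(1,[4,3,3,1],[6,5])],[2])],[6,5,2],false,3),
    (true,[([(1,[5,4,3,2,1],[6,5,4])],[])],[6,5],false,2),
    (true,[([(1,[4,3,3,1],[6,5])],[3,2]),([(1,[3,1,1],[5])],[3,2])],[],false,1),
    (false,[([(1,[3,2,1],[6]),(1,[3,2,1],[6])],[3])],[6,4,1],false,3),
    (true,[([(1,[5,3,2,1,1],[6,6])],[4]),([(1,[2,2],[4])],[2,2,2])],[],false,1),
    (true,[([(1,[3,3,2],[7])],[2,2])],[6,4,3,1],true,4),
    (true,[([(1,[3,3,2],[7]),(1,[3,2,1],[5])],[])],[5,4,2,1],false,4),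
    (false,[([(1,[3,3,2],[7]),(1,[3,2,1],[6])],[])],[7,4,1],false,3),
    (true,[([(1,[5,4,2,2,1],[7,7])],[3])],[5,4],false,2),
    (true,[([(1,[3,3,2],[8])],[2,2])],[6,4,3,1],true,4),
    (true,[([(1,[4,4,3,2],[8,5])],[1])],[6,5,1],false,3),
    (true,[([(1,[5,4,2,2,1],[8,6])],[3])],[5,4],false,2),
    (false,[([(1,[5,4,3,2,1],[8,7])],[4])],[7],false,1),
    (true,[([(1,[3,3,3],[9])],[2,1])],[6,5,2,1],false,4),
    (true,[([(1,[5,4,2,2,1],[9,5])],[3])],[5,4],false,2),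
    (false,[([(1,[5,4,3,2,1],[9,6])],[4])],[7],false,1),
    (true,[([(1,[4,3,2,1],[10])],[1])],[6,5,4],false,3),
    (true,[([(1,[5,4,2,2,1],[10,4])],[3])],[5,4],false,2),
    (false,[([(1,[5,4,3,2,1],[10,5])],[4])],[7],false,1),
    (true,[([(1,[4,3,3,1],[11])],[2])],[6,5,2],false,3),
    (false,[([(1,[5,4,3,2,1],[11,4])],[4])],[7],false,1),
    (true,[([(1,[4,4,2,2],[12])],[3])],[6,4,1],false,3),
    (false,[([(1,[4,4,3,2],[13])],[4,1])],[7,1],false,2),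
    (false,[([(1,[5,4,2,2,1],[14])],[4,3])],[5],false,1)]),
  ([7,6,5,4,3,2], [
    (false,[],[7,6,5,4,3,2],false,6), (true,[([(1,[3,3,2],[7])],[2,2,1])],[6,4,3,1],true,4),
    (true,[([(1,[3,3,2],[7]),(1,[3,1,1],[5])],[])],[6,5,2,1],false,4),
    (false,[([(1,[3,3,2],[7]),(1,[3,2,1],[6])],[])],[7,4,2],false,3),
    (true,[([(1,[5,4,2,2,1],[7,7])],[3])],[6,4],false,2),
    (true,[([(1,[3,3,2],[8])],[2,2,1])],[6,4,3,1],true,4),
    (true,[([(1,[4,4,3,2],[8,5])],[1,1])],[6,5,1],false,3),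
    (true,[([(1,[5,4,2,2,1],[8,6])],[3])],[6,4],false,2),
    (false,[([(1,[5,4,3,2,1],[8,7])],[5])],[7],false,1),
    (true,[([(1,[3,3,3],[9])],[2,1,1])],[6,5,2,1],false,4),
    (true,[([(1,[5,4,2,2,1],[9,5])],[3])],[6,4],false,2),
    (false,[([(1,[5,4,3,2,1],[9,6])],[5])],[7],false,1),
    (true,[([(1,[4,3,2,1],[10])],[1,1])],[6,5,4],false,3),
    (true,[([(1,[5,4,2,2,1],[10,4])],[3])],[6,4],false,2),
    (false,[([(1,[5,4,3,2,1],[10,5])],[5])],[7],false,1),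
    (true,[([(1,[4,3,3,1],[11])],[2,1])],[6,5,2],false,3),
    (false,[([(1,[5,4,3,2,1],[11,4])],[5])],[7],false,1),
    (true,[([(1,[4,4,2,2],[12])],[3,1])],[6,4,1],false,3),
    (false,[([(1,[4,4,3,2],[13])],[1])],[7,6],false,2),
    (false,[([(1,[5,4,2,2,1],[14])],[5,3])],[5],false,1)]),
  ([8,6,5,4,2,1], [
    (false,[],[8,6,5,4,2,1],true,6), (true,[([(1,[4,2,1,1],[7])],[])],[6,5,4,3],false,4),
    (true,[([(1,[3,3,2],[7]),(1,[3,1,1],[5])],[])],[5,4,2,1,1],false,4),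
    (true,[([(1,[5,3,3,1,1],[7,6])],[2])],[5,4,2],false,3),
    (true,[([(1,[5,4,2,2,1],[7,7])],[3])],[4,4,1],false,2),
    (true,[([(1,[4,2,1,1],[8])],[])],[6,5,4,3],false,4),
    (true,[([(1,[5,3,3,1,1],[8,5])],[2])],[5,4,2],false,3),
    (true,[([(1,[5,4,2,2,1],[8,6])],[3])],[4,4,1],false,2),
    (false,[([(1,[5,4,3,2,1],[8,7])],[3])],[8],false,1),
    (true,[([(1,[3,3,3],[9])],[2])],[6,5,2,1,1],false,4),
    (true,[([(1,[5,4,2,2,1],[9,5])],[3])],[4,4,1],false,2),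
    (false,[([(1,[5,4,3,2,1],[9,6])],[3])],[8],false,1),
    (true,[([(1,[4,3,2,1],[10])],[])],[6,5,4,1],false,4),
    (false,[([(1,[5,4,3,2,1],[10,5])],[3])],[8],false,1),
    (true,[([(1,[4,3,3,1],[11])],[2])],[6,4,2,1],false,4),
    (true,[([(1,[5,3,2,1,1],[12])],[2])],[5,4,3],false,3),
    (true,[([(1,[5,3,3,1,1],[13])],[2])],[5,4,2],false,2),
    (false,[([(1,[5,4,2,2,1],[14])],[3,3,1])],[5],false,1)]),
  ([8,7,5,3,2,1], [
    (false,[],[8,7,5,3,2,1],false,5), (true,[([(1,[3,2,1],[6])],[])],[6,5,4,3,2],false,5),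
    (true,[([(1,[3,2,1],[6]),(1,[3,2,1],[6])],[])],[5,3,3,2,1],false,4),
    (true,[([(1,[3,3,2],[7])],[])],[6,5,4,2,1],false,5),
    (true,[([(1,[5,4,2,2,1],[7,6])],[3])],[4,3,2],false,3),
    (true,[([(1,[5,4,2,2,1],[7,7])],[])],[6,3,3],false,2),
    (true,[([(1,[3,3,2],[8])],[])],[6,5,4,2,1],false,5),
    (true,[([(1,[5,4,2,2,1],[8,6])],[])],[6,3,3],false,2),
    (false,[([(1,[5,4,3,2,1],[8,7])],[2,1])],[8],false,1),
    (true,[([(1,[3,3,3],[9])],[1])],[6,5,2,2,1],false,4),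
    (true,[([(1,[5,4,2,2,1],[9,5])],[])],[6,3,3],false,2),
    (false,[([(1,[5,4,3,2,1],[9,6])],[2,1])],[8],false,1),
    (true,[([(1,[4,3,2,1],[10])],[])],[6,5,3,2],false,4),
    (false,[([(1,[5,4,3,2,1],[10,5])],[2,1])],[8],false,1),
    (true,[([(1,[4,4,2,2],[11])],[3,1])],[4,3,2,1],false,4),
    (true,[([(1,[5,3,2,1,1],[12])],[4])],[5,3,2],false,3),
    (false,[([(1,[4,4,3,2],[13])],[2,1,1])],[8,1],false,2),
    (false,[([(1,[5,4,2,2,1],[14])],[3,1])],[8],false,1)]),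
  ([8,7,6,3,2,1], [
    (false,[],[8,7,6,3,2,1],false,5), (true,[([(1,[3,2,1],[6])],[])],[6,5,4,3,3],false,4),
    (true,[([(1,[4,3,3,1],[6,5])],[])],[6,5,3,2],false,4),
    (true,[([(1,[4,3,3,1],[6,5])],[]),([(1,[3,1,1],[5])],[3,2])],[6],false,1),
    (true,[([(1,[5,4,2,2,1],[6,6])],[4])],[4,3,2],false,3),
    (false,[([(1,[5,3,2,1,1],[6,6]),(1,[2,2],[4])],[4])],[7],false,1),
    (true,[([(1,[3,3,2],[7])],[])],[6,5,4,3,1],false,5),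
    (true,[([(1,[5,4,2,2,1],[7,6])],[4])],[4,3,2],false,3),
    (true,[([(1,[5,4,2,2,1],[7,7])],[3])],[4,3,3],false,2),
    (true,[([(1,[3,3,2],[8])],[])],[6,5,4,3,1],false,5),
    (true,[([(1,[5,4,2,2,1],[8,6])],[3])],[4,3,3],false,2),
    (false,[([(1,[5,4,3,2,1],[8,7])],[2,2])],[8],false,1),
    (true,[([(1,[3,3,3],[9])],[])],[6,5,4,2,1],false,5),
    (false,[([(1,[5,4,3,2,1],[9,6])],[2,2])],[8],false,1),
    (true,[([(1,[4,3,3,1],[10])],[])],[6,5,3,2],false,4),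
    (false,[([(1,[5,4,3,2,1],[10,5])],[2,2])],[8],false,1),
    (true,[([(1,[4,3,3,1],[11])],[])],[6,5,3,2],false,4),
    (true,[([(1,[4,4,2,2],[12])],[3,1])],[4,3,3,1],false,3),
    (false,[([(1,[4,4,3,2],[13])],[2,2,1])],[8,1],false,2),
    (false,[([(1,[5,4,2,2,1],[14])],[3,2])],[8],false,1)]),
  ([8,7,6,5,2,1], [
    (false,[],[8,7,6,5,2,1],false,5), (true,[([(1,[3,2,1],[6])],[1])],[6,5,4,4,3],false,4),
    (true,[([(1,[4,3,3,1],[6,5])],[3])],[6,4,3,2],false,4),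
    (true,[([(1,[4,3,3,1],[6,5])],[2]),([(1,[3,1,1],[5])],[3,2,2])],[4],false,1),
    (true,[([(1,[3,2,1],[6]),(1,[3,2,1],[6])],[])],[5,4,4,3,1],false,4),
    (true,[([(1,[3,3,2],[7])],[2])],[6,5,4,3,1],false,5),
    (true,[([(1,[5,3,3,1,1],[7,6])],[4])],[5,4,3],false,3),
    (true,[([(1,[5,4,3,2,1],[7,7])],[])],[6,4,4],false,2),
    (true,[([(1,[3,3,2],[8])],[2])],[6,5,4,3,1],false,5),
    (true,[([(1,[5,4,3,2,1],[8,6])],[])],[6,4,4],false,2),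
    (false,[([(1,[5,4,3,2,1],[8,7])],[3,3])],[8],false,1),
    (true,[([(1,[3,3,3],[9])],[2])],[6,5,4,2,1],false,5),
    (false,[([(1,[5,4,3,2,1],[9,6])],[3,3])],[8],false,1),
    (true,[([(1,[4,3,3,1],[10])],[3])],[6,4,3,2],false,4),
    (false,[([(1,[5,4,3,2,1],[10,5])],[3,3])],[8],false,1),
    (true,[([(1,[4,3,3,1],[11])],[3])],[6,4,3,2],false,4),
    (true,[([(1,[5,3,3,1,1],[12])],[4])],[5,4,3],false,3),
    (true,[([(1,[5,3,3,1,1],[13])],[4])],[5,4,3],false,2),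
    (false,[([(1,[5,4,2,2,1],[14])],[3,3,3])],[6],false,1)]),
  ([9,8,4,3,2,1], [
    (false,[],[9,8,4,3,2,1],false,5), (true,[([(1,[4,1,1,1],[6])],[4])],[6,4,3,2,1],true,5),
    (true,[([(1,[3,2,1],[6]),(1,[3,2,1],[6])],[])],[5,3,2,2,2,1],false,4),
    (true,[([(1,[4,1,1,1],[7])],[4])],[6,4,3,2,1],false,5),
    (true,[([(1,[5,4,2,2,1],[7,6])],[])],[6,3,2,2],false,3),
    (true,[([(1,[5,4,2,2,1],[7,7])],[])],[6,3,2,2],false,2),
    (true,[([(1,[4,2,1,1],[8])],[4])],[6,4,2,2,1],true,4),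
    (true,[([(1,[4,4,3,2],[8,5])],[1])],[6,2,2,2,1],false,3),
    (true,[([(1,[5,4,2,2,1],[8,6])],[])],[6,3,2,2],false,2),
    (false,[([(1,[5,4,3,2,1],[8,7])],[1,1,1])],[9],false,1),
    (true,[([(1,[5,1,1,1,1],[9])],[4])],[5,4,3,2],false,4),
    (true,[([(1,[5,4,2,2,1],[9,5])],[])],[6,3,2,2],false,2),
    (false,[([(1,[5,4,3,2,1],[9,6])],[1,1,1])],[9],false,1),
    (true,[([(1,[5,2,1,1,1],[10])],[5])],[5,4,2,1],false,4),
    (false,[([(1,[5,4,3,2,1],[10,5])],[1,1,1])],[9],false,1),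
    (true,[([(1,[4,4,2,2],[11])],[1])],[6,3,2,2,1],false,4),
    (true,[([(1,[5,3,2,1,1],[12])],[5])],[5,2,2,1],false,3),
    (false,[([(1,[4,4,3,2],[13])],[1,1,1,1])],[9,1],false,2),
    (false,[([(1,[5,4,2,2,1],[14])],[3,2,2,2])],[4],false,1)]),
  ([11,5,4,3,2,1], [
    (false,[],[11,5,4,3,2,1],true,6), (true,[([(1,[4,1,1,1],[7])],[])],[6,5,3,2,1,1,1],false,5),
    (true,[([(1,[5,3,3,1,1],[7,6])],[2])],[5,2,1,1,1,1],false,3),
    (true,[([(1,[6,3,2,1,1,1],[7,7])],[])],[5,4,1,1,1],false,2),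
    (true,[([(1,[5,1,1,1,1],[8])],[])],[6,4,3,2,1,1],false,5),
    (true,[([(1,[6,3,2,1,1,1],[8,6])],[])],[5,4,1,1,1],false,2),
    (false,[([(1,[5,4,3,2,1],[8,7])],[])],[11],false,1),
    (true,[([(1,[5,1,1,1,1],[9])],[])],[6,4,3,2,1,1],false,5),
    (false,[([(1,[5,4,3,2,1],[9,6])],[])],[11],false,1),
    (true,[([(1,[6,1,1,1,1,1],[10])],[])],[5,4,3,2,1],false,5),
    (true,[([(1,[6,1,1,1,1,1],[11])],[])],[5,4,3,2,1],false,4),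
    (true,[([(1,[6,2,1,1,1,1],[12])],[])],[5,4,3,1,1],false,3),
    (true,[([(1,[5,3,3,1,1],[13])],[2])],[5,2,1,1,1,1],false,2),
    (false,[([(1,[6,3,2,1,1,1],[14])],[5,4,1,1,1])],[],false,1)])]

theorem cs6b_0_ok : runAll [] 13 cs6b_0 = true := by decide +kernel

/-- the minors -/
def G6b : List (List ℕ) := [
  [1,2,1,1,1,1,1,1,1,1,1,1], [1,1,1,1,1,1,1,1,1,1,2,1], [1,1,2,1,1,2,1,1,1,1,1,1],
  [1,1,1,1,1,1,2,1,1,2,1,1], [1,1,1,2,2,1,1,1,1,1,1,1], [1,1,1,1,1,1,1,2,2,1,1,1],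
  [1,1,1,1,1,6,1,1,1,1,1,1], [1,1,1,1,1,1,6,1,1,1,1,1], [2,1,1,1,1,1,1,1,1,1,1,1],
  [1,1,1,1,1,1,1,1,1,1,1,2], [1,1,1,3,1,1,1,1,1,1,1,1], [1,1,1,1,1,1,1,1,3,1,1,1],
  [1,1,1,1,4,1,1,1,1,1,1,1], [1,1,1,1,1,1,1,4,1,1,1,1], [1,1,3,1,1,1,1,1,1,1,1,1],
  [1,1,1,1,1,1,1,1,1,3,1,1]]

def T6b : BT :=
  .split 0 2 (.split 1 2 (.split 2 3 (.split 3 3 (.split 4 4 (.split 5 6 (.split 6 6 (.split 7 4
  (.split 8 3 (.split 9 3 (.split 10 2 (.split 11 2 .small (.minor 9)) (.minor 1)) (.minor 15))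
  (.minor 11)) (.minor 13)) (.minor 7)) (.minor 6)) (.minor 12)) (.minor 10)) (.minor 14))
  (.minor 0)) (.minor 8)

def R6b : List (List ℕ) :=
  cs6b_0.map Prod.fst

theorem R6b_ok : ∀ M ∈ R6b, KG (M : Multiset ℕ) 13 := by
  intro M h
  unfold R6b at h
  exact kg_of_all (by simp) cs6b_0_ok M h

theorem min6b_ok : minB 6 G6b R6b = true := by decide +kernel

theorem T6b_ok : btB 6 55 G6b T6b (List.replicate (2 * 6) 1)
    (List.replicate (2 * 6) 0) = true := by decide +kernel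

theorem kg6b {M : Multiset ℕ} (hM : ∀ s ∈ M, 1 ≤ s)
    (hc : M.dedup.card = 6) (hn : 55 ≤ M.sum) : KG M 13 :=
  cover T6b (R6b_ok) min6b_ok T6b_ok hM hc hn

def cs7a_0 : List (List ℕ × List NdG) := [
  ([8,7,5,4,3,2,1], [
    (false,[],[8,7,5,4,3,2,1],false,6), (true,[([(1,[3,3,2],[7])],[1,1,1])],[7,5,4,2,1],true,5),
    (true,[([(1,[4,1,1,1],[7]),(1,[3,2,1],[6])],[])],[6,5,4,2],false,4),
    (false,[([(1,[6,5,2,2,2,1],[7,6,5])],[4,3])],[5],false,1),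
    (false,[([(1,[3,3,2],[7]),(1,[3,3,2],[7])],[2,1])],[5,3,2,1],false,4),
    (true,[([(1,[3,3,2],[8])],[1,1,1])],[7,5,4,2,1],true,5),
    (true,[([(1,[4,2,1,1],[8]),(1,[3,2,1],[6])],[])],[6,5,3,2],false,4),
    (true,[([(1,[5,4,3,2,1],[8,7])],[])],[7,6,2],false,3),
    (true,[([(1,[6,4,3,2,1,1],[8,8])],[5])],[6,2],false,2),
    (false,[([(1,[3,3,3],[9])],[2,1,1,1])],[8,5,2,1],true,4),
    (false,[([(1,[3,3,3],[9]),(1,[3,1,1],[5])],[2])],[8,3,2,1],false,4),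
    (true,[([(1,[5,4,3,2,1],[9,6])],[])],[7,6,2],false,3),
    (true,[([(1,[6,4,3,2,1,1],[9,7])],[5])],[6,2],false,2),
    (false,[([(1,[6,4,3,2,1,1],[9,8])],[5])],[8],false,1),
    (true,[([(1,[4,3,2,1],[10])],[])],[7,6,5,2],false,4),
    (true,[([(1,[5,4,3,2,1],[10,5])],[])],[7,6,2],false,3),
    (false,[([(1,[5,5,2,2,2],[10,6])],[4,3,1])],[5,1],false,2),
    (false,[([(1,[6,4,3,2,1,1],[10,7])],[5])],[8],false,1),
    (true,[([(1,[4,3,3,1],[11])],[4,2])],[7,3,2,1],false,4),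
    (false,[([(1,[5,5,2,2,2],[11,5])],[4,3,1])],[5,1],false,2),
    (false,[([(1,[6,4,3,2,1,1],[11,6])],[5])],[8],false,1),
    (true,[([(1,[4,4,2,2],[12])],[1])],[7,6,3,1],false,4),
    (false,[([(1,[6,4,3,2,1,1],[12,5])],[5])],[8],false,1),
    (true,[([(1,[4,4,3,2],[13])],[1])],[7,6,2,1],false,4),
    (true,[([(1,[5,4,2,2,1],[14])],[])],[7,6,3],false,3),
    (false,[([(1,[5,4,3,2,1],[15])],[])],[8,7],false,2),
    (false,[([(1,[5,5,2,2,2],[16])],[4,3,1])],[5,1],false,1)]),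
  ([8,7,6,4,3,2,1], [
    (false,[],[8,7,6,4,3,2,1],false,6), (true,[([(1,[3,3,2],[7])],[1,1,1])],[7,5,4,3,1],true,5),
    (true,[([(1,[3,3,2],[7]),(1,[3,2,1],[6])],[])],[7,4,3,2,1],false,5),
    (true,[([(1,[4,1,1,1],[7]),(1,[3,3,2],[7])],[])],[6,5,3,2],false,4),
    (true,[([(1,[3,3,2],[8])],[1,1,1])],[7,5,4,3,1],true,5),
    (false,[([(1,[3,3,2],[8]),(1,[3,2,1],[6])],[2])],[8,4,2,1],false,4),
    (true,[([(1,[5,4,3,2,1],[8,7])],[])],[7,6,3],false,3),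
    (true,[([(1,[6,4,2,2,1,1],[8,8])],[5])],[6,4],false,2),
    (true,[([(1,[3,3,3],[9])],[1])],[7,6,5,2,1],false,5),
    (true,[([(1,[5,4,3,2,1],[9,6])],[])],[7,6,3],false,3),
    (true,[([(1,[6,4,2,2,1,1],[9,7])],[5])],[6,4],false,2),
    (false,[([(1,[6,4,3,2,1,1],[9,8])],[5,2])],[7],false,1),
    (true,[([(1,[4,3,2,1],[10])],[])],[7,6,5,3],false,4),
    (true,[([(1,[5,4,3,2,1],[10,5])],[])],[7,6,3],false,3),
    (true,[([(1,[6,4,2,2,1,1],[10,6])],[5])],[6,4],false,2),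
    (false,[([(1,[6,4,3,2,1,1],[10,7])],[5,2])],[7],false,1),
    (true,[([(1,[4,3,3,1],[11])],[])],[7,6,5,2],false,4),
    (true,[([(1,[6,4,2,2,1,1],[11,5])],[5])],[6,4],false,2),
    (false,[([(1,[6,4,3,2,1,1],[11,6])],[5,2])],[7],false,1),
    (true,[([(1,[4,4,2,2],[12])],[3,1])],[7,4,3,1],false,4),
    (false,[([(1,[6,4,3,2,1,1],[12,5])],[5,2])],[7],false,1),
    (true,[([(1,[4,4,3,2],[13])],[1])],[7,6,3,1],false,4),
    (true,[([(1,[5,4,2,2,1],[14])],[3])],[7,4,3],false,3),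
    (false,[([(1,[5,4,3,2,1],[15])],[1])],[8,7],false,2),
    (false,[([(1,[6,4,2,2,1,1],[16])],[5,3])],[7],false,1)]),
  ([8,7,6,5,3,2,1], [
    (false,[],[8,7,6,5,3,2,1],false,6), (true,[([(1,[3,3,2],[7])],[2,1,1])],[7,5,4,3,1],true,5),
    (true,[([(1,[3,3,2],[7]),(1,[3,2,1],[6])],[3])],[5,4,3,2,1],false,5),
    (true,[([(1,[4,1,1,1],[7]),(1,[3,3,2],[7])],[])],[6,5,4,2],false,4),
    (true,[([(1,[3,3,2],[8])],[2,1,1])],[7,5,4,3,1],true,5),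
    (true,[([(1,[4,2,1,1],[8]),(1,[3,2,1],[6])],[])],[6,5,4,3],false,4),
    (true,[([(1,[5,4,3,2,1],[8,7])],[])],[7,6,4],false,3),
    (true,[([(1,[6,4,3,2,1,1],[8,8])],[5])],[6,4],false,2),
    (true,[([(1,[3,3,3],[9])],[2])],[7,6,5,2,1],false,5),
    (true,[([(1,[5,4,3,2,1],[9,6])],[])],[7,6,4],false,3),
    (true,[([(1,[6,4,3,2,1,1],[9,7])],[5])],[6,4],false,2),
    (false,[([(1,[6,4,3,2,1,1],[9,8])],[5,3])],[7],false,1),
    (true,[([(1,[4,3,2,1],[10])],[])],[7,6,5,4],false,4),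
    (true,[([(1,[5,4,3,2,1],[10,5])],[])],[7,6,4],false,3),
    (true,[([(1,[6,4,3,2,1,1],[10,6])],[5])],[6,4],false,2),
    (false,[([(1,[6,4,3,2,1,1],[10,7])],[5,3])],[7],false,1),
    (true,[([(1,[4,3,3,1],[11])],[2])],[7,6,4,2],false,4),
    (true,[([(1,[6,4,3,2,1,1],[11,5])],[5])],[6,4],false,2),
    (false,[([(1,[6,4,3,2,1,1],[11,6])],[5,3])],[7],false,1),
    (true,[([(1,[4,4,2,2],[12])],[3,3,1])],[5,4,3,1],false,4),
    (false,[([(1,[6,4,3,2,1,1],[12,5])],[5,3])],[7],false,1),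
    (true,[([(1,[4,4,3,2],[13])],[])],[7,6,5,1],false,4),
    (true,[([(1,[5,4,2,2,1],[14])],[3,3])],[5,4,3],false,3),
    (false,[([(1,[5,4,3,2,1],[15])],[2])],[8,7],false,2),
    (false,[([(1,[4,4,4,4],[16])],[4,3,2,1])],[3,2,1],false,1)]),
  ([8,7,6,5,4,2,1], [
    (false,[],[8,7,6,5,4,2,1],false,6), (true,[([(1,[3,3,2],[7])],[2,2,1])],[7,5,4,3,1],true,5),
    (true,[([(1,[3,3,2],[7]),(1,[3,2,1],[6])],[])],[7,5,4,2,1],false,5),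
    (true,[([(1,[4,2,1,1],[7]),(1,[3,3,2],[7])],[])],[6,5,4,2],false,4),
    (true,[([(1,[3,3,2],[8])],[2,2,1])],[7,5,4,3,1],true,5),
    (false,[([(1,[3,3,2],[8]),(1,[3,2,1],[6])],[3])],[8,5,2,1],false,4),
    (true,[([(1,[5,4,3,2,1],[8,7])],[])],[7,6,5],false,3),
    (true,[([(1,[6,4,3,2,1,1],[8,8])],[5])],[6,5],false,2),
    (true,[([(1,[3,3,3],[9])],[2,1])],[7,6,5,2,1],false,5),
    (true,[([(1,[5,4,3,2,1],[9,6])],[])],[7,6,5],false,3),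
    (true,[([(1,[6,4,3,2,1,1],[9,7])],[5])],[6,5],false,2),
    (false,[([(1,[6,4,3,2,1,1],[9,8])],[5,4])],[7],false,1),
    (true,[([(1,[4,3,2,1],[10])],[1])],[7,6,5,4],false,4),
    (true,[([(1,[5,4,3,2,1],[10,5])],[])],[7,6,5],false,3),
    (true,[([(1,[6,4,3,2,1,1],[10,6])],[5])],[6,5],false,2),
    (false,[([(1,[6,4,3,2,1,1],[10,7])],[5,4])],[7],false,1),
    (true,[([(1,[4,3,3,1],[11])],[2])],[7,6,5,2],false,4),
    (true,[([(1,[6,4,3,2,1,1],[11,5])],[5])],[6,5],false,2),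
    (false,[([(1,[6,4,3,2,1,1],[11,6])],[5,4])],[7],false,1),
    (true,[([(1,[4,4,2,2],[12])],[3])],[7,6,4,1],false,4),
    (false,[([(1,[6,4,3,2,1,1],[12,5])],[5,4])],[7],false,1),
    (true,[([(1,[4,4,3,2],[13])],[1])],[7,6,5,1],false,4),
    (true,[([(1,[5,4,2,2,1],[14])],[3])],[7,5,4],false,3),
    (false,[([(1,[5,4,3,2,1],[15])],[3])],[8,7],false,2),
    (false,[([(1,[4,4,4,4],[16])],[3,2,1])],[8,2,1],false,1)]),
  ([8,7,6,5,4,3,1], [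
    (false,[],[8,7,6,5,4,3,1],false,6), (true,[([(1,[3,3,2],[7])],[2,2,2])],[7,5,4,3,1],true,5),
    (true,[([(1,[3,3,2],[7]),(1,[3,2,1],[6])],[])],[7,6,4,2,1],false,5),
    (false,[([(1,[3,3,2],[7]),(1,[3,3,2],[7])],[1])],[8,5,3,1],false,4),
    (true,[([(1,[3,3,2],[8])],[2,2,2])],[7,5,4,3,1],true,5),
    (false,[([(1,[3,3,2],[8]),(1,[3,2,1],[6])],[])],[8,7,4,1],false,4),
    (true,[([(1,[5,4,3,2,1],[8,7])],[1])],[7,6,5],false,3),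
    (false,[([(1,[5,4,4,3,1],[8,8])],[2])],[8,7],false,2),
    (true,[([(1,[3,3,3],[9])],[2,1,1])],[7,6,5,2,1],false,5),
    (true,[([(1,[5,4,3,2,1],[9,6])],[1])],[7,6,5],false,3),
    (false,[([(1,[5,4,4,3,1],[9,7])],[2])],[8,7],false,2),
    (false,[([(1,[6,4,3,2,1,1],[9,8])],[5,5])],[7],false,1),
    (true,[([(1,[4,3,2,1],[10])],[1,1])],[7,6,5,4],false,4),
    (true,[([(1,[5,4,3,2,1],[10,5])],[1])],[7,6,5],false,3),
    (false,[([(1,[5,5,3,2,2],[10,6])],[5,4,1])],[6,1],false,2),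
    (false,[([(1,[6,4,3,2,1,1],[10,7])],[5,5])],[7],false,1),
    (true,[([(1,[4,3,3,1],[11])],[2,1])],[7,6,5,2],false,4),
    (false,[([(1,[5,5,3,2,2],[11,5])],[5,4,1])],[6,1],false,2),
    (false,[([(1,[6,4,3,2,1,1],[11,6])],[5,5])],[7],false,1),
    (true,[([(1,[4,4,2,2],[12])],[3,1])],[7,6,4,1],false,4),
    (false,[([(1,[6,4,3,2,1,1],[12,5])],[5,5])],[7],false,1),
    (true,[([(1,[4,4,3,2],[13])],[1,1])],[7,6,5,1],false,4),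
    (true,[([(1,[5,4,2,2,1],[14])],[3])],[7,6,4],false,3),
    (false,[([(1,[5,4,3,2,1],[15])],[4])],[8,7],false,2),
    (false,[([(1,[4,4,4,4],[16])],[3,2,1])],[8,3,1],false,1)]),
  ([8,7,6,5,4,3,2], [
    (false,[],[8,7,6,5,4,3,2],false,7), (true,[([(1,[3,3,2],[8])],[2,2,2,1])],[7,5,4,3,1],true,5),
    (true,[([(1,[4,2,1,1],[8]),(1,[3,2,1],[6])],[])],[7,6,5,3],false,4),
    (true,[([(1,[5,4,3,2,1],[8,7])],[1,1])],[7,6,5],false,3),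
    (true,[([(1,[6,4,3,2,1,1],[8,8])],[5])],[7,6],false,2),
    (true,[([(1,[3,3,3],[9])],[2,1,1,1])],[7,6,5,2,1],false,5),
    (true,[([(1,[5,4,3,2,1],[9,6])],[1,1])],[7,6,5],false,3),
    (true,[([(1,[6,4,3,2,1,1],[9,7])],[5])],[7,6],false,2),
    (false,[([(1,[6,4,3,2,1,1],[9,8])],[6,5])],[7],false,1),
    (true,[([(1,[4,3,2,1],[10])],[1,1,1])],[7,6,5,4],false,4),
    (true,[([(1,[5,4,3,2,1],[10,5])],[1,1])],[7,6,5],false,3),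
    (false,[([(1,[5,5,2,2,2],[10,6])],[4,3,1])],[6,5],false,2),
    (false,[([(1,[6,4,3,2,1,1],[10,7])],[6,5])],[7],false,1),
    (true,[([(1,[4,3,3,1],[11])],[2,1,1])],[7,6,5,2],false,4),
    (false,[([(1,[5,5,2,2,2],[11,5])],[4,3,1])],[6,5],false,2),
    (false,[([(1,[6,4,3,2,1,1],[11,6])],[6,5])],[7],false,1),
    (true,[([(1,[4,4,2,2],[12])],[3,1,1])],[7,6,4,1],false,4),
    (false,[([(1,[6,4,3,2,1,1],[12,5])],[6,5])],[7],false,1),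
    (true,[([(1,[4,4,3,2],[13])],[1,1,1])],[7,6,5,1],false,4),
    (true,[([(1,[5,4,2,2,1],[14])],[3,1])],[7,6,4],false,3),
    (false,[([(1,[5,4,3,2,1],[15])],[5])],[8,7],false,2),
    (false,[([(1,[5,5,2,2,2],[16])],[4,3,1])],[6,5],false,1)]),
  ([9,6,5,4,3,2,1], [
    (false,[],[9,6,5,4,3,2,1],true,7), (true,[([(1,[4,2,1,1],[8])],[1,1])],[7,5,4,3,1],true,5),
    (true,[([(1,[4,2,1,1],[8]),(1,[3,2,1],[6])],[])],[6,5,3,1,1],false,4),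
    (true,[([(1,[6,3,3,1,1,1],[8,7])],[2])],[6,5,2],false,3),
    (true,[([(1,[6,4,2,2,1,1],[8,8])],[3])],[6,4,1],false,2),
    (true,[([(1,[5,1,1,1,1],[9])],[2])],[7,5,4,3],false,4),
    (false,[([(1,[3,3,3],[9]),(1,[3,1,1],[5])],[2,1,1])],[6,3,2,1],false,4),
    (true,[([(1,[6,3,3,1,1,1],[9,6])],[2])],[6,5,2],false,3),
    (true,[([(1,[6,4,2,2,1,1],[9,7])],[3])],[6,4,1],false,2),
    (false,[([(1,[6,4,3,2,1,1],[9,8])],[5,1,1])],[6],false,1),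
    (true,[([(1,[5,2,1,1,1],[10])],[])],[7,6,4,3],false,4),
    (true,[([(1,[6,3,3,1,1,1],[10,5])],[2])],[6,5,2],false,3),
    (true,[([(1,[6,4,2,2,1,1],[10,6])],[3])],[6,4,1],false,2),
    (false,[([(1,[6,4,3,2,1,1],[10,7])],[5,1,1])],[6],false,1),
    (true,[([(1,[4,3,3,1],[11])],[2])],[7,6,2,1,1],false,4),
    (true,[([(1,[6,4,2,2,1,1],[11,5])],[3])],[6,4,1],false,2),
    (false,[([(1,[6,4,3,2,1,1],[11,6])],[5,1,1])],[6],false,1),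
    (true,[([(1,[5,3,2,1,1],[12])],[])],[7,6,4,1],false,4),
    (false,[([(1,[6,4,3,2,1,1],[12,5])],[5,1,1])],[6],false,1),
    (true,[([(1,[5,3,3,1,1],[13])],[2])],[7,5,2,1],false,4),
    (true,[([(1,[6,3,2,1,1,1],[14])],[])],[7,5,4],false,3),
    (true,[([(1,[6,3,3,1,1,1],[15])],[2])],[6,5,2],false,2),
    (false,[([(1,[6,4,2,2,1,1],[16])],[5,3,1])],[5],false,1)])]

theorem cs7a_0_ok : runAll [] 15 cs7a_0 = true := by decide +kernel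

/-- the minors -/
def G7a : List (List ℕ) := [
  [1,1,1,1,1,2,1,1,1,1,1,1,1,1], [1,1,1,1,1,1,1,1,2,1,1,1,1,1], [1,1,1,1,1,1,3,1,1,1,1,1,1,1],
  [1,1,1,1,1,1,1,3,1,1,1,1,1,1], [1,1,1,1,2,1,1,1,1,1,1,1,1,1], [1,1,1,1,1,1,1,1,1,2,1,1,1,1],
  [1,1,1,2,1,1,1,1,1,1,1,1,1,1], [1,1,1,1,1,1,1,1,1,1,2,1,1,1], [1,1,2,1,1,1,1,1,1,1,1,1,1,1],
  [1,1,1,1,1,1,1,1,1,1,1,2,1,1], [1,2,1,1,1,1,1,1,1,1,1,1,1,1], [1,1,1,1,1,1,1,1,1,1,1,1,2,1],
  [2,1,1,1,1,1,1,1,1,1,1,1,1,1], [1,1,1,1,1,1,1,1,1,1,1,1,1,2]]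

def T7a : BT :=
  .split 0 2 (.split 1 2 (.split 2 2 (.split 3 2 (.split 4 2 (.split 5 2 (.split 6 3 (.split 7 3
  (.split 8 2 (.split 9 2 (.split 10 2 (.split 11 2 (.split 12 2 (.split 13 2 .small (.minor
  13)) (.minor 11)) (.minor 9)) (.minor 7)) (.minor 5)) (.minor 1)) (.minor 3)) (.minor 2))
  (.minor 0)) (.minor 4)) (.minor 6)) (.minor 8)) (.minor 10)) (.minor 12)

def R7a : List (List ℕ) :=
  cs7a_0.map Prod.fst

theorem R7a_ok : ∀ M ∈ R7a, KG (M : Multiset ℕ) 15 := by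
  intro M h
  unfold R7a at h
  exact kg_of_all (by simp) cs7a_0_ok M h

theorem min7a_ok : minB 7 G7a R7a = true := by decide +kernel

theorem T7a_ok : btB 7 40 G7a T7a (List.replicate (2 * 7) 1)
    (List.replicate (2 * 7) 0) = true := by decide +kernel

theorem kg7a {M : Multiset ℕ} (hM : ∀ s ∈ M, 1 ≤ s)
    (hc : M.dedup.card = 7) (hn : 40 ≤ M.sum) : KG M 15 :=
  cover T7a (R7a_ok) min7a_ok T7a_ok hM hc hn

end Pool.MP322
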