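import Pool.Agent.Lib.MP_322c5f_al.SG26

/-! (C), part 19: four distinct column heights. -/

set_option autoImplicit false

namespace Pool.MP322

/-- facts used -/
def fcts4a : List (List ℕ × List ℕ) := [
  ([5,3,2,1],[6,5]), ([5,3,2,1],[9,2]), ([5,4,2,1],[5,3,3]), ([5,4,2,1],[5,5,2]),
  ([5,4,2,1],[6,3,3]), ([5,4,2,1],[6,5]), ([5,4,2,1],[7,3,2]), ([5,4,2,1],[9,2]),
  ([5,4,3,1],[5,3,2,2]), ([5,4,3,1],[5,3,3]), ([5,4,3,1],[5,3,3,2]), ([5,4,3,1],[5,5,2]),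
  ([5,4,3,1],[6,3,2,2]), ([5,4,3,1],[6,3,3]), ([5,4,3,2],[5,3,2,2]), ([5,4,3,2],[5,3,2,2,2]),
  ([5,4,3,2],[5,3,3]), ([5,4,3,2],[5,3,3,2]), ([5,4,3,2],[5,5,2]), ([5,4,3,2],[6,3,3]),
  ([5,4,3,2],[6,5]), ([6,3,2,1],[6,3,3]), ([6,5,2,1],[5,3,3,2]), ([6,5,2,1],[6,3,2,2]),
  ([6,5,4,1],[5,3,2,2,2])]

def cs4a_0 : List (List ℕ × List NdG) := [
  ([5,5,4,3,1], [
    (false,[],[5,5,4,3,1],true,3), (true,[([(1,[2,2],[4])],[1,1])],[5,4,3],false,3),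
    (false,[([(1,[2,2],[4]),(1,[2,2],[4])],[1])],[5,3,1],false,3),
    (false,[([(1,[2,2],[4]),(1,[2,2],[4])],[1]),([(1,[2,2],[4])],[2,1,1])],[1],false,1),
    (false,[([(1,[3,1,1],[5])],[2,2])],[5,4],false,1),
    (false,[([(1,[3,2,1],[5]),(1,[2,1],[2])],[])],[5,4],false,2),
    (false,[([(1,[3,2,1],[5]),(1,[2,1],[3])],[])],[5,4],false,2),
    (true,[([(2,[5,4,3,1],[5,3,3])],[5])],[],false,1),
    (true,[([(2,[5,4,3,1],[5,3,3,2])],[5])],[],false,1),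
    (false,[([(1,[3,1,1],[5]),(1,[2,2],[4])],[])],[5,4],false,2),
    (false,[([(1,[3,1,1],[5]),(1,[2,2],[4])],[]),([(1,[2,1],[3])],[2,2,2])],[],false,1),
    (false,[([(1,[4,3,2,1],[5,5])],[3])],[5],false,1),
    (true,[([(2,[5,4,3,1],[5,5,2])],[5])],[],false,1),
    (false,[([(1,[3,2,1],[6])],[2,1])],[5,4],false,2),
    (false,[([(1,[3,2,1],[6]),(1,[2,1],[3])],[])],[5,4],false,2),
    (true,[([(2,[5,4,3,1],[6,3,3])],[5])],[],false,1),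
    (false,[([(1,[3,2,1],[6]),(1,[2,2],[4])],[])],[5,3],false,2),
    (false,[([(1,[4,3,3,1],[6,5])],[2])],[5],false,1),
    (true,[([(1,[3,3,2],[7])],[1])],[5,4],false,2),
    (true,[([(1,[3,3,2],[7]),(1,[2,1],[3])],[])],[4,3],false,2),
    (false,[([(1,[4,3,3,1],[7,4])],[2])],[5],false,1),
    (false,[([(1,[3,3,2],[8])],[3,1])],[5,1],true,2),
    (false,[([(1,[4,3,3,1],[8,3])],[2])],[5],false,1),
    (false,[([(1,[3,3,3],[9])],[2,1])],[5,1],false,2),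
    (false,[([(1,[4,3,2,1],[10])],[3])],[5],false,1)]),
  ([6,4,3,3,2], [
    (false,[],[6,4,3,3,2],false,3), (false,[([(1,[2,2],[4])],[1])],[6,4,3],false,3),
    (true,[([(1,[2,2],[4]),(1,[2,2],[4])],[1])],[5,2,1,1],false,3),
    (true,[([(1,[4,2,1,1],[4,4])],[]),([(1,[2,2],[4])],[2,2,2])],[],false,1),
    (true,[([(1,[3,1,1],[5])],[1,1])],[5,4,2],false,3),
    (true,[([(1,[3,2,1],[5]),(1,[2,2],[4])],[])],[5,2,1],false,3),
    (true,[([(1,[4,3,2,1],[5,5])],[2])],[5,1],false,2),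
    (true,[([(1,[3,2,1],[6])],[2,2])],[5,2,1],true,3),
    (true,[([(1,[4,3,2,1],[6,4])],[2])],[5,1],false,2),
    (true,[([(2,[5,3,2,1],[6,5])],[2])],[5],false,1),
    (true,[([(1,[4,1,1,1],[7])],[2])],[5,4],false,2),
    (true,[([(1,[4,3,2,1],[7,3])],[2])],[5,1],false,2),
    (true,[([(1,[4,1,1,1],[7])],[2]),([(1,[2,2],[4])],[2,2,1])],[],false,1),
    (true,[([(1,[4,2,1,1],[8])],[1])],[5,4],false,2),
    (true,[([(1,[4,2,1,1],[8])],[1]),([(1,[2,1],[3])],[2,2,2])],[],false,1),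
    (false,[([(1,[3,3,3],[9])],[1])],[6,2],false,2),
    (false,[([(1,[4,3,2,1],[10])],[4,1])],[3],false,1)]),
  ([6,4,4,3,1], [
    (false,[],[6,4,4,3,1],false,3), (true,[([(1,[3,1,1],[4])],[1])],[5,4,3],false,3),
    (false,[([(1,[2,2],[4]),(1,[2,2],[4])],[])],[6,3,1],false,3),
    (true,[([(1,[4,2,1,1],[4,4])],[2]),([(1,[2,2],[4])],[2,2])],[],false,1),
    (true,[([(1,[3,1,1],[5])],[1])],[5,4,3],false,3),
    (true,[([(1,[3,2,1],[5]),(1,[2,2],[4])],[])],[4,3,1],false,3),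
    (true,[([(1,[4,3,2,1],[5,5])],[3])],[4,1],false,2),
    (false,[([(1,[3,2,1],[6])],[2])],[6,4],false,2),
    (true,[([(1,[4,3,2,1],[6,3])],[3])],[4,1],true,2),
    (false,[([(2,[5,4,3,1],[6,3,3])],[4,1])],[],false,1),
    (true,[([(1,[4,3,2,1],[6,4])],[3])],[4,1],false,2),
    (false,[([(1,[4,3,3,1],[6,5])],[2,1])],[4],false,1),
    (true,[([(1,[3,3,2],[7])],[3])],[5,1,1],true,2),
    (true,[([(1,[4,3,2,1],[7,3])],[3])],[4,1],false,2),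
    (false,[([(1,[4,3,3,1],[7,4])],[2,1])],[4],false,1),
    (false,[([(1,[3,3,2],[8])],[3])],[6,1],true,2),
    (false,[([(1,[4,3,3,1],[8,3])],[2,1])],[4],false,1),
    (false,[([(1,[3,3,3],[9])],[2])],[6,1],false,2),
    (false,[([(1,[4,3,2,1],[10])],[3,1])],[4],false,1)]),
  ([6,5,3,3,1], [
    (false,[],[6,5,3,3,1],false,3), (true,[([(1,[2,2],[4])],[1,1])],[5,4,2,1],false,3),
    (true,[([(1,[2,2],[4]),(1,[2,2],[4])],[])],[5,2,2,1],false,3),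
    (true,[([(1,[4,3,2,1],[4,4])],[2]),([(1,[2,2],[4])],[1,1])],[],false,1),
    (true,[([(1,[3,1,1],[5])],[2])],[5,4,2],false,3),
    (true,[([(1,[4,3,2,1],[5,4])],[2])],[4,2],false,2),
    (true,[([(1,[4,3,2,1],[5,4])],[2]),([(1,[2,1],[3])],[2,1])],[],false,1),
    (true,[([(1,[4,3,2,1],[5,5])],[2])],[4,2],false,2),
    (true,[([(1,[3,2,1],[6])],[1])],[5,4,2],false,3),
    (true,[([(1,[4,3,2,1],[6,4])],[2])],[4,2],false,2),
    (false,[([(1,[4,3,3,1],[6,5])],[1])],[6],false,1),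
    (true,[([(1,[3,3,2],[7])],[2])],[5,2,1],false,3),
    (false,[([(1,[4,3,3,1],[7,4])],[1])],[6],false,1),
    (true,[([(1,[3,3,2],[8])],[2])],[5,2,1],false,3),
    (false,[([(1,[3,3,3],[9])],[1,1])],[6,1],false,2),
    (false,[([(1,[4,3,2,1],[10])],[3,2])],[3],false,1)]),
  ([6,5,4,1,1,1], [
    (false,[],[6,5,4,1,1,1],false,4), (false,[([(1,[3,1,1],[5])],[1,1])],[6,4,1],true,3),
    (false,[([(1,[3,1,1],[5]),(1,[2,2],[4])],[2])],[5,1,1],false,2),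
    (false,[([(1,[4,2,1,1],[5,3]),(1,[2,2],[4])],[])],[5,1],false,1),
    (true,[([(1,[3,1,1],[5]),(1,[3,2,1],[5])],[])],[3,3,1],false,2),
    (true,[([(1,[3,2,1],[6])],[])],[6,3,3],false,2),
    (false,[([(1,[3,2,1],[6]),(1,[2,1],[3])],[2])],[5,1,1],false,2),
    (false,[([(2,[6,3,2,1],[6,3,3])],[3,3])],[],false,1),
    (true,[([(1,[4,3,3,1],[6,4])],[1,1])],[3,2],false,2),
    (false,[([(1,[4,3,3,1],[6,5])],[3,2])],[1,1],false,1),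
    (true,[([(1,[3,3,2],[7])],[])],[6,3,1],false,3),
    (false,[([(1,[4,3,3,1],[7,4])],[3,2])],[1,1],false,1),
    (true,[([(1,[3,3,2],[8])],[])],[6,3,1],false,3),
    (true,[([(1,[3,3,3],[9])],[])],[6,2,1],false,2),
    (false,[([(1,[4,3,2,1],[10])],[3,3])],[1,1],false,1)]),
  ([6,5,4,2,2], [
    (false,[],[6,5,4,2,2],false,4), (true,[([(1,[3,1,1],[5])],[2,2])],[5,3,2],false,3),
    (true,[([(1,[3,1,1],[5]),(1,[2,2],[4])],[])],[5,3,2],false,3),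
    (true,[([(1,[4,3,2,1],[5,5])],[1])],[5,3],false,2),
    (true,[([(1,[3,2,1],[6])],[2,1])],[5,3,2],false,3),
    (true,[([(1,[4,3,2,1],[6,4])],[1])],[5,3],false,2),
    (false,[([(1,[4,3,3,1],[6,5])],[4,2])],[2],false,1),
    (true,[([(1,[3,3,2],[7])],[1,1])],[5,3,1],false,3),
    (false,[([(1,[4,3,3,1],[7,4])],[4,2])],[2],false,1),
    (true,[([(1,[3,3,2],[8])],[1,1])],[5,3,1],false,3),
    (true,[([(1,[3,3,3],[9])],[1,1])],[5,2,1],false,2),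
    (false,[([(1,[4,3,2,1],[10])],[4,3])],[2],false,1)]),
  ([6,5,4,4,1], [
    (false,[],[6,5,4,4,1],false,3), (true,[([(1,[2,2],[4])],[2,2])],[5,4,2,1],false,3),
    (true,[([(1,[2,2],[4]),(1,[2,2],[4])],[])],[5,4,2,1],false,4),
    (true,[([(1,[3,1,1],[5])],[2])],[5,4,4],false,2),
    (false,[([(1,[3,2,1],[5]),(1,[2,1],[3])],[2])],[5,4],false,2),
    (false,[([(2,[5,4,2,1],[5,3,3])],[4,4])],[],false,1),
    (true,[([(2,[5,4,3,1],[5,3,3,2])],[3])],[4],false,1),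
    (false,[([(1,[3,1,1],[5]),(1,[2,2],[4])],[2])],[5,4],false,2),
    (true,[([(1,[4,3,2,1],[5,3])],[2]),([(1,[2,2],[4])],[2,2])],[],false,1),
    (false,[([(1,[4,3,2,1],[5,5])],[3,3])],[4],false,1),
    (false,[([(2,[5,4,2,1],[5,5,2])],[4,4])],[],false,1),
    (false,[([(1,[3,2,1],[6])],[2,2])],[6,4],false,2),
    (false,[([(1,[3,2,1],[6]),(1,[2,1],[3])],[2])],[5,4],false,2),
    (false,[([(2,[5,4,2,1],[6,3,3])],[4,4])],[],false,1),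
    (true,[([(1,[4,3,3,1],[6,4])],[3])],[4,2],false,2),
    (false,[([(1,[4,3,3,1],[6,5])],[3])],[6],false,1),
    (true,[([(1,[3,3,2],[7])],[2])],[5,4,1],false,3),
    (false,[([(1,[4,3,3,1],[7,4])],[3])],[6],false,1),
    (true,[([(1,[3,3,2],[8])],[2])],[5,4,1],false,3),
    (false,[([(1,[3,3,3],[9])],[3,1])],[6,1],false,2),
    (false,[([(1,[4,3,2,1],[10])],[3,3])],[4],false,1)]),
  ([6,5,4,4,2], [
    (false,[],[6,5,4,4,2],false,3), (false,[([(1,[2,2],[4])],[1,1])],[6,5,4],false,3),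
    (true,[([(1,[2,2],[4]),(1,[2,2],[4])],[1])],[5,4,2,1],false,4),
    (true,[([(1,[3,2,1],[5])],[2,2])],[5,4,2],false,3),
    (true,[([(1,[3,2,1],[5]),(1,[2,2],[4])],[])],[5,4,2],false,3),
    (true,[([(1,[4,3,2,1],[5,5])],[2])],[5,4],false,2),
    (true,[([(1,[3,2,1],[6])],[2,2])],[5,4,2],false,3),
    (true,[([(1,[4,3,2,1],[6,4])],[2])],[5,4],false,2),
    (false,[([(1,[4,3,3,1],[6,5])],[4])],[6],false,1),
    (true,[([(1,[3,3,2],[7])],[2,1])],[5,4,1],false,3),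
    (false,[([(1,[4,3,3,1],[7,4])],[4])],[6],false,1),
    (true,[([(1,[3,3,2],[8])],[2,1])],[5,4,1],false,3),
    (false,[([(1,[3,3,3],[9])],[3,1])],[6,2],false,2),
    (false,[([(1,[4,3,2,1],[10])],[4,3])],[4],false,1)]),
  ([6,5,4,4,3], [
    (false,[],[6,5,4,4,3],false,4), (true,[([(1,[3,2,1],[5])],[2,2])],[5,5,2],true,2),
    (true,[([(1,[3,1,1],[5]),(1,[2,1],[3])],[])],[5,5,4],false,2),
    (false,[([(2,[5,4,2,1],[5,3,3])],[5,5])],[],false,1),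
    (true,[([(2,[5,4,3,2],[5,3,3,2])],[3])],[5],false,1),
    (true,[([(1,[3,2,1],[5]),(1,[2,2],[4])],[])],[5,5,2],false,2),
    (true,[([(1,[4,3,2,1],[5,3])],[2]),([(1,[2,2],[4])],[2,2,2])],[],false,1),
    (false,[([(1,[4,3,2,1],[5,5])],[4,4])],[4],false,1),
    (false,[([(2,[5,4,2,1],[5,5,2])],[5,5])],[],false,1),
    (false,[([(1,[3,2,1],[6])],[3,3])],[6,4],false,2),
    (false,[([(1,[4,3,2,1],[6,3])],[4,4])],[4],false,1),
    (true,[([(1,[3,3,2],[6,2]),(1,[2,1],[3])],[])],[5,5,1],false,2),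
    (false,[([(2,[5,4,2,1],[6,3,3])],[5,5])],[],false,1),
    (true,[([(1,[3,2,1],[6]),(1,[2,2],[4])],[])],[5,5,2],false,2),
    (false,[([(2,[5,4,2,1],[6,5])],[5,5])],[],false,1),
    (true,[([(1,[3,3,2],[7])],[2,2])],[5,4,1],false,3),
    (true,[([(1,[3,3,2],[7]),(1,[2,2],[4])],[])],[5,4,1],false,1),
    (true,[([(1,[3,3,2],[8])],[2,2])],[5,4,1],false,3),
    (false,[([(1,[3,3,3],[9])],[2])],[6,5],false,2),
    (false,[([(1,[4,3,2,1],[10])],[4,4])],[4],false,1)]),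
  ([6,5,5,3,1], [
    (false,[],[6,5,5,3,1],false,3), (true,[([(1,[2,2],[4])],[2,1])],[5,4,3,1],false,3),
    (false,[([(1,[2,2],[4]),(1,[2,2],[4])],[2])],[6,3,1],false,3),
    (true,[([(1,[4,3,2,1],[4,4])],[3]),([(1,[2,2],[4])],[2,1])],[],false,1),
    (true,[([(1,[3,2,1],[5])],[2])],[5,4,3],false,3),
    (true,[([(1,[4,3,2,1],[5,4])],[3])],[4,3],false,2),
    (true,[([(1,[4,3,2,1],[5,4])],[3]),([(1,[2,1],[3])],[2,2])],[],false,1),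
    (true,[([(1,[4,3,2,1],[5,5])],[3])],[4,3],false,2),
    (true,[([(1,[3,2,1],[6])],[2])],[5,4,3],false,3),
    (true,[([(1,[4,3,2,1],[6,4])],[3])],[4,3],false,2),
    (false,[([(1,[4,3,3,1],[6,5])],[2,2])],[5],false,1),
    (true,[([(1,[3,3,2],[7])],[3])],[5,3,1],false,3),
    (false,[([(1,[4,3,3,1],[7,4])],[2,2])],[5],false,1),
    (true,[([(1,[3,3,2],[8])],[3])],[5,3,1],false,3),
    (false,[([(1,[3,3,3],[9])],[2,2])],[6,1],false,2),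
    (false,[([(1,[4,3,2,1],[10])],[3,2])],[5],false,1)]),
  ([6,5,5,4,1], [
    (false,[],[6,5,5,4,1],false,3), (true,[([(1,[2,2],[4])],[2,2])],[5,4,3,1],false,3),
    (true,[([(1,[2,2],[4]),(1,[2,2],[4])],[])],[5,4,3,1],false,4),
    (false,[([(1,[3,2,1],[5])],[2,2])],[6,5],false,2),
    (false,[([(1,[4,3,2,1],[5,3])],[3,3])],[5],false,1),
    (false,[([(1,[4,3,2,1],[5,3,2])],[3,3])],[5],false,1),
    (false,[([(2,[5,4,3,1],[5,3,2,2])],[4,4])],[],false,1),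
    (true,[([(2,[6,5,4,1],[5,3,2,2,2])],[5])],[],false,1),
    (false,[([(2,[5,4,3,1],[5,3,3])],[4,4])],[],false,1),
    (false,[([(2,[5,4,3,1],[5,3,3,2])],[4,4])],[],false,1),
    (false,[([(1,[3,2,1],[5]),(1,[2,2],[4])],[])],[6,5],false,2),
    (true,[([(1,[4,3,2,1],[5,3])],[3]),([(1,[2,2],[4])],[2,2])],[],false,1),
    (false,[([(1,[4,3,2,1],[5,5])],[3,3])],[5],false,1),
    (false,[([(2,[5,4,3,1],[5,5,2])],[4,4])],[],false,1),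
    (false,[([(1,[3,2,1],[6])],[2,2])],[6,5],false,2),
    (false,[([(1,[4,3,2,1],[6,3])],[3,3])],[5],false,1),
    (false,[([(1,[3,3,2],[6,2])],[3,3]),([(1,[2,1],[3])],[1,1,1,1])],[],false,1),
    (false,[([(2,[5,4,3,1],[6,3,2,2])],[4,4])],[],false,1),
    (false,[([(2,[5,4,3,1],[6,3,3])],[4,4])],[],false,1),
    (true,[([(1,[4,3,3,1],[6,4])],[3])],[4,3],false,2),
    (false,[([(1,[4,3,3,1],[6,5])],[3,2])],[5],false,1),
    (true,[([(1,[3,3,2],[7])],[3])],[5,4,1],false,3),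
    (false,[([(1,[4,3,3,1],[7,4])],[3,2])],[5],false,1),
    (true,[([(1,[3,3,2],[8])],[3])],[5,4,1],false,3),
    (false,[([(1,[3,3,3],[9])],[3,2])],[6,1],false,2),
    (false,[([(1,[4,3,2,1],[10])],[3,3])],[5],false,1)]),
  ([6,6,3,2,1], [
    (false,[],[6,6,3,2,1],true,4), (true,[([(1,[3,1,1],[5])],[3])],[5,3,2],false,3),
    (false,[([(1,[3,1,1],[5]),(1,[2,2],[4])],[1])],[6,2],false,2),
    (true,[([(1,[4,2,1,1],[5,3])],[4]),([(1,[2,2],[4])],[1,1])],[],false,1),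
    (false,[([(1,[3,1,1],[5]),(1,[3,2,1],[5])],[])],[6,1],false,2),
    (false,[([(1,[3,2,1],[6])],[2,1,1])],[6,2],true,2),
    (false,[([(1,[3,2,1],[6]),(1,[2,1],[3])],[1])],[6,2],false,2),
    (true,[([(2,[6,3,2,1],[6,3,3])],[6])],[],false,1),
    (false,[([(1,[3,2,1],[6]),(1,[3,1,1],[4])],[])],[6,1],false,2),
    (true,[([(2,[5,3,2,1],[6,5])],[5])],[2],false,1),
    (true,[([(1,[4,1,1,1],[7])],[4])],[4,3],false,2),
    (true,[([(1,[3,3,2],[7]),(1,[2,1],[3])],[])],[3,2,2],false,2),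
    (true,[([(1,[4,1,1,1],[7])],[4]),([(1,[2,2],[4])],[2,1])],[],false,1),
    (true,[([(1,[4,2,1,1],[8])],[4])],[4,2],false,2),
    (true,[([(1,[4,2,1,1],[8])],[4]),([(1,[2,1],[3])],[2,1])],[],false,1),
    (false,[([(1,[3,3,3],[9])],[2,2,2])],[2,1],false,2),
    (false,[([(1,[4,3,2,1],[10])],[1,1])],[6],false,1)])]

theorem cs4a_0_ok : runAll fcts4a 9 cs4a_0 = true := by decide +kernel

def cs4a_1 : List (List ℕ × List NdG) := [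
  ([6,6,4,2,1], [
    (false,[],[6,6,4,2,1],true,4), (true,[([(1,[3,2,1],[5])],[3])],[5,3,2],false,3),
    (true,[([(1,[4,3,2,1],[5,4])],[4])],[3,2],false,2),
    (false,[([(1,[4,3,2,1],[5,4]),(1,[2,1],[3])],[])],[6],false,1),
    (true,[([(1,[4,3,2,1],[5,5])],[4])],[3,2],false,2),
    (true,[([(1,[3,2,1],[6])],[3])],[5,3,2],false,3),
    (true,[([(1,[4,3,2,1],[6,4])],[4])],[3,2],false,2),
    (true,[([(2,[5,3,2,1],[6,5])],[5])],[3],false,1),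
    (true,[([(1,[3,3,2],[7])],[])],[5,4,2],false,3),
    (true,[([(1,[4,2,1,1],[7])],[4]),([(1,[2,2],[4])],[2,1])],[],false,1),
    (true,[([(1,[3,3,2],[8])],[])],[5,4,2],false,3),
    (false,[([(1,[3,3,3],[9])],[3,2,2])],[2,1],false,2),
    (false,[([(1,[4,3,2,1],[10])],[2,1])],[6],false,1)]),
  ([6,6,5,4,3], [
    (false,[],[6,6,5,4,3],false,4), (false,[([(1,[3,1,1],[5])],[3,3,2])],[6,5],false,2),
    (false,[([(1,[4,3,2,1],[5,3])],[4,4])],[6],false,1),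
    (false,[([(1,[4,3,2,1],[5,3,2])],[4,4])],[6],false,1),
    (false,[([(2,[5,4,3,2],[5,3,2,2])],[5,5])],[],false,1),
    (false,[([(2,[5,4,3,2],[5,3,2,2,2])],[5,5])],[],false,1),
    (false,[([(2,[5,4,3,2],[5,3,3])],[5,5])],[],false,1),
    (false,[([(2,[5,4,3,2],[5,3,3,2])],[5,5])],[],false,1),
    (false,[([(1,[4,3,2,1],[5,4])],[4,4])],[6],false,1),
    (false,[([(1,[3,1,1],[5])],[3,3,2]),([(1,[2,2],[4]),(1,[2,1],[2])],[2,2])],[],false,1),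
    (true,[([(1,[4,3,2,1],[5,2,2])],[4]),([(1,[2,2],[4])],[2,2,2])],[],false,1),
    (true,[([(1,[4,3,2,1],[5,3])],[4]),([(1,[2,2],[4])],[2,2,2])],[],false,1),
    (false,[([(1,[4,3,2,1],[5,5])],[4,4])],[6],false,1),
    (false,[([(2,[5,4,3,2],[5,5,2])],[5,5])],[],false,1),
    (false,[([(1,[3,2,1],[6])],[3,3,1])],[6,5],false,2),
    (false,[([(1,[4,3,2,1],[6,3])],[4,4])],[6],false,1),
    (false,[([(1,[3,3,2],[6,2]),(1,[2,1],[3])],[3])],[6,4],false,2),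
    (false,[([(2,[5,4,3,2],[6,3,3])],[5,5])],[],false,1),
    (false,[([(1,[4,3,2,1],[6,4])],[4,4])],[6],false,1),
    (false,[([(1,[3,3,2],[6,2]),(1,[2,2],[4])],[3])],[5,4],false,1),
    (false,[([(2,[5,4,3,2],[6,5])],[5,5])],[],false,1),
    (true,[([(1,[3,3,2],[7])],[2,2])],[5,4,3],false,3),
    (false,[([(1,[3,3,2],[7]),(1,[2,2],[4])],[3])],[5,4],false,1),
    (true,[([(1,[3,3,2],[8])],[2,2])],[5,4,3],false,3),
    (false,[([(1,[3,3,3],[9])],[2,1,1])],[6,5],false,2),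
    (false,[([(1,[4,3,2,1],[10])],[4,4])],[6],false,1)]),
  ([7,4,2,2,2,1], [
    (false,[],[7,4,2,2,2,1],true,4), (false,[([(1,[3,1,1],[5])],[3])],[7,2,1],true,3),
    (false,[([(1,[3,1,1],[5]),(1,[3,1,1],[4])],[1])],[4,2,1],false,3),
    (true,[([(1,[5,2,1,1,1],[5,5])],[])],[6,2],false,2),
    (true,[([(1,[3,2,1],[6])],[1,1])],[6,2,1,1],false,3),
    (true,[([(1,[5,2,1,1,1],[6,4])],[])],[6,2],false,2),
    (true,[([(2,[5,3,2,1],[6,5])],[2,2])],[2,1],false,1),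
    (true,[([(1,[4,1,1,1],[7])],[2])],[6,2,1],false,3),
    (false,[([(1,[4,1,1,1],[7]),(1,[2,2],[4])],[3])],[2,2],false,1),
    (true,[([(1,[4,2,1,1],[8])],[1])],[6,2,1],false,3),
    (true,[([(1,[5,1,1,1,1],[9])],[2])],[5,2],false,2),
    (false,[([(1,[5,2,1,1,1],[10])],[4,2])],[2],false,1)]),
  ([7,4,3,2,2], [
    (false,[],[7,4,3,2,2],false,4), (true,[([(1,[3,1,1],[5])],[1,1])],[5,3,2,1],false,4),
    (true,[([(1,[5,2,1,1,1],[5,5])],[])],[5,3],false,2),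
    (true,[([(1,[3,2,1],[6])],[1,1])],[5,3,1,1],false,3),
    (true,[([(1,[5,2,1,1,1],[6,4])],[])],[5,3],false,2),
    (false,[([(1,[5,3,2,1,1],[6,5])],[5,1])],[],false,1),
    (true,[([(1,[4,1,1,1],[7])],[1])],[5,3,2],false,3),
    (false,[([(1,[5,3,2,1,1],[7,4])],[5,1])],[],false,1),
    (true,[([(1,[4,2,1,1],[8])],[1])],[5,3,1],false,3),
    (true,[([(1,[3,3,3],[9])],[2,2])],[2,1,1,1],false,2),
    (false,[([(1,[5,2,1,1,1],[10])],[5,3])],[],false,1)]),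
  ([7,4,3,3,1], [
    (false,[],[7,4,3,3,1],false,3), (false,[([(1,[2,2],[4])],[2])],[7,4,1],true,3),
    (true,[([(1,[4,2,1,1],[4,4])],[])],[5,4,1],false,3),
    (true,[([(1,[4,2,1,1],[4,4])],[]),([(1,[2,2],[4])],[2,2,1])],[1],false,1),
    (true,[([(1,[3,1,1],[5])],[1])],[5,4,2,1],false,4),
    (true,[([(1,[4,3,2,1],[5,5])],[2])],[4,1,1],false,2),
    (true,[([(1,[3,2,1],[6])],[1])],[5,4,1,1],false,3),
    (true,[([(1,[4,3,2,1],[6,4])],[2])],[4,1,1],false,2),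
    (false,[([(1,[4,3,3,1],[6,5])],[])],[7],false,1),
    (true,[([(1,[4,1,1,1],[7])],[])],[5,4,2],false,3),
    (false,[([(1,[4,3,3,1],[7,4])],[])],[7],false,1),
    (true,[([(1,[4,2,1,1],[8])],[])],[5,4,1],false,3),
    (false,[([(1,[3,3,3],[9])],[1])],[7,1],false,2),
    (false,[([(1,[5,2,1,1,1],[10])],[4,4])],[],false,1)]),
  ([7,4,4,2,1], [
    (false,[],[7,4,4,2,1],true,4), (true,[([(1,[3,1,1],[5])],[])],[5,4,3,1],false,4),
    (true,[([(1,[4,3,2,1],[5,5])],[3])],[3,1,1],false,2),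
    (true,[([(1,[3,2,1],[6])],[2])],[5,3,1,1],false,3),
    (true,[([(1,[4,3,2,1],[6,4])],[3])],[3,1,1],false,2),
    (false,[([(1,[4,3,3,1],[6,5])],[3,1,1])],[2],false,1),
    (true,[([(1,[4,2,1,1],[7])],[2])],[4,3,1],false,3),
    (false,[([(1,[4,3,3,1],[7,4])],[3,1,1])],[2],false,1),
    (true,[([(1,[4,2,1,1],[8])],[2])],[4,3,1],false,3),
    (false,[([(1,[3,3,3],[9])],[3,1,1,1])],[2,1],false,2),
    (false,[([(1,[4,3,2,1],[10])],[2,1,1])],[4],false,1)]),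
  ([7,5,4,2], [
    (false,[],[7,5,4,2],false,3), (true,[([(1,[2,2],[4])],[2])],[4,4,2,1,1],true,3),
    (true,[([(1,[4,3,2,1],[4,4])],[])],[4,3,1],false,3),
    (true,[([(1,[4,2,1,1],[4,4])],[]),([(1,[2,2],[4])],[2])],[4],false,1),
    (true,[([(1,[3,2,1],[5])],[2])],[4,3,2,1],false,4),
    (true,[([(1,[4,3,2,1],[5,5])],[])],[4,3,1],false,2),
    (true,[([(1,[3,2,1],[6])],[2])],[4,3,2,1],false,4),
    (false,[([(1,[4,3,3,1],[6,5])],[4,2,1])],[],false,1),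
    (true,[([(1,[3,3,2],[7])],[1])],[4,3,1,1],false,3),
    (false,[([(1,[4,3,3,1],[7,4])],[4,2,1])],[],false,1),
    (true,[([(1,[3,3,2],[8])],[1])],[4,3,1,1],false,3),
    (true,[([(1,[3,3,3],[9])],[1])],[4,2,1,1],false,2),
    (false,[([(1,[4,3,2,1],[10])],[4,3,1])],[],false,1)]),
  ([7,5,4,3], [
    (false,[],[7,5,4,3],false,4), (true,[([(1,[3,1,1],[5])],[1])],[4,4,3,2],false,3),
    (true,[([(1,[4,3,2,1],[5,4])],[])],[4,4,1],true,2),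
    (true,[([(1,[4,3,2,1],[5,4])],[]),([(1,[2,1],[3])],[1,1])],[4],false,1),
    (true,[([(1,[4,3,2,1],[5,5])],[])],[4,4,1],false,2),
    (true,[([(1,[3,2,1],[6])],[1])],[4,4,3,1],true,3),
    (true,[([(1,[4,3,2,1],[6,4])],[])],[4,4,1],false,2),
    (true,[([(2,[5,3,2,1],[6,5])],[])],[4,4],false,1),
    (true,[([(1,[3,3,2],[7])],[2])],[4,3,1,1],false,3),
    (true,[([(1,[4,2,1,1],[7])],[]),([(1,[2,2],[4])],[2,1])],[4],false,1),
    (true,[([(1,[3,3,2],[8])],[2])],[4,3,1,1],false,3),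
    (true,[([(1,[3,3,3],[9])],[2])],[4,2,1,1],false,2),
    (false,[([(1,[4,3,2,1],[10])],[4,4,1])],[],false,1)]),
  ([7,6,2,2,1], [
    (false,[],[7,6,2,2,1],false,3), (true,[([(1,[2,2],[4])],[])],[5,4,2,2,1],false,3),
    (true,[([(1,[2,2],[4])],[]),([(1,[2,2],[4])],[])],[5,4,1],false,3),
    (false,[([(1,[4,3,2,1],[4,4]),(1,[2,2],[4])],[2])],[2],false,1),
    (true,[([(1,[3,1,1],[5])],[3])],[5,2,2,1],true,3),
    (true,[([(1,[3,1,1],[5])],[2]),([(1,[2,2],[4])],[])],[5,2],false,2),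
    (false,[([(1,[4,3,2,1],[5,3]),(1,[2,2],[4])],[2])],[2],false,1),
    (false,[([(1,[3,1,1],[5]),(1,[3,1,1],[5])],[])],[7,1],false,2),
    (false,[([(1,[3,2,1],[6])],[1,1,1])],[7,2],true,2),
    (false,[([(1,[4,3,2,1],[6,3])],[2,2,2])],[2],false,1),
    (false,[([(1,[3,3,2],[6,2]),(1,[2,1],[3])],[2,2])],[2,1],false,2),
    (false,[([(2,[5,4,2,1],[6,3,3])],[2,2,2])],[],false,1),
    (false,[([(1,[3,2,1],[6]),(1,[2,2],[4])],[3,2])],[2,1],false,2),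
    (false,[([(2,[5,4,2,1],[6,5])],[2,2,2])],[],false,1),
    (true,[([(1,[4,1,1,1],[7])],[4])],[4,2,1],false,3),
    (true,[([(1,[4,1,1,1],[7])],[3]),([(1,[2,2],[4])],[])],[4],false,1),
    (true,[([(1,[3,3,2],[8])],[2,1])],[2,2,2,1],true,2),
    (false,[([(1,[3,3,2],[8]),(1,[2,1],[3])],[2,2])],[2,1],false,1),
    (false,[([(1,[4,3,2,1],[9])],[2,2,2])],[2],false,1),
    (false,[([(2,[5,4,2,1],[9,2])],[2,2,2])],[],false,1),
    (false,[([(1,[4,3,2,1],[10])],[2,2,2])],[2],false,1)]),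
  ([7,6,3,2], [
    (false,[],[7,6,3,2],false,3), (true,[([(1,[2,2],[4])],[])],[4,4,3,2,1],true,4),
    (true,[([(1,[3,1,1],[5])],[3])],[4,3,2,1],false,4),
    (true,[([(1,[4,3,2,1],[5,5])],[])],[4,2,2],false,2),
    (true,[([(1,[3,2,1],[6])],[1])],[4,3,2,2],false,3),
    (true,[([(1,[4,3,2,1],[6,4])],[])],[4,2,2],false,2),
    (true,[([(2,[5,4,2,1],[6,5])],[])],[4,2],false,1),
    (true,[([(1,[3,3,2],[7])],[1])],[4,2,2,1],false,3),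
    (false,[([(1,[3,3,2],[7]),(1,[2,2],[4])],[2,1])],[3],false,1),
    (true,[([(1,[3,3,2],[8])],[1])],[4,2,2,1],false,3),
    (true,[([(1,[3,3,3],[9])],[2])],[2,2,2,1],false,2),
    (false,[([(1,[4,3,2,1],[10])],[4,2,2])],[],false,1)]),
  ([7,6,4,1], [
    (false,[],[7,6,4,1],false,3), (true,[([(1,[2,2],[4])],[1])],[4,3,3,2,1],false,3),
    (true,[([(1,[2,2],[4])],[]),([(1,[2,2],[4])],[2])],[4,3,1],false,3),
    (true,[([(1,[4,3,2,1],[4,4])],[]),([(1,[2,2],[4])],[1])],[3],false,1),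
    (true,[([(1,[3,2,1],[5])],[])],[4,3,3,2],false,3),
    (true,[([(1,[4,3,2,1],[5,4])],[])],[3,3,2],false,2),
    (true,[([(1,[4,3,2,1],[5,4])],[]),([(1,[2,1],[3])],[2])],[3],false,1),
    (true,[([(1,[4,3,2,1],[5,5])],[])],[3,3,2],false,2),
    (true,[([(1,[3,2,1],[6])],[])],[4,3,3,2],false,3),
    (true,[([(1,[4,3,2,1],[6,4])],[])],[3,3,2],false,2),
    (false,[([(1,[4,3,3,1],[6,5])],[3,2,2])],[],false,1),
    (true,[([(1,[3,3,2],[7])],[])],[4,3,2,1],false,4),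
    (true,[([(1,[3,3,2],[8])],[])],[4,3,2,1],false,3),
    (true,[([(1,[3,3,3],[9])],[])],[4,2,2,1],false,2),
    (false,[([(1,[4,3,2,1],[10])],[3,3,2])],[],false,1)]),
  ([7,6,4,2], [
    (false,[],[7,6,4,2],false,3), (true,[([(1,[2,2],[4])],[1])],[4,4,3,2,1],true,4),
    (true,[([(1,[3,2,1],[5])],[3])],[4,3,2,1],false,4),
    (true,[([(1,[4,3,2,1],[5,5])],[])],[4,3,2],false,2),
    (true,[([(1,[3,2,1],[6])],[3])],[4,3,2,1],false,4),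
    (false,[([(1,[4,3,3,1],[6,5])],[4,2,2])],[],false,1),
    (true,[([(1,[3,3,2],[7])],[1])],[4,3,2,1],false,4),
    (true,[([(1,[3,3,2],[8])],[])],[4,4,2,1],false,3),
    (true,[([(1,[3,3,3],[9])],[1])],[4,2,2,1],false,2),
    (false,[([(1,[4,3,2,1],[10])],[4,3,2])],[],false,1)])]

theorem cs4a_1_ok : runAll fcts4a 9 cs4a_1 = true := by decide +kernel

def cs4a_2 : List (List ℕ × List NdG) := [
  ([7,6,4,3], [
    (false,[],[7,6,4,3],false,4), (true,[([(1,[3,1,1],[5])],[2])],[4,4,3,2],false,3),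
    (true,[([(1,[4,3,2,1],[5,4])],[])],[4,4,2],false,2),
    (true,[([(1,[4,3,2,1],[5,4])],[]),([(1,[2,1],[3])],[2,1])],[4],false,1),
    (true,[([(1,[4,3,2,1],[5,5])],[])],[4,4,2],false,2),
    (true,[([(1,[3,2,1],[6])],[1])],[4,4,3,2],false,3),
    (true,[([(1,[4,3,2,1],[6,4])],[])],[4,4,2],false,2),
    (true,[([(2,[5,4,2,1],[6,5])],[])],[4,4],false,1),
    (true,[([(1,[3,3,2],[7])],[2])],[4,3,2,1],false,4),
    (true,[([(1,[3,3,2],[8])],[1])],[4,4,2,1],false,3),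
    (true,[([(1,[3,3,3],[9])],[2])],[4,2,2,1],false,2),
    (false,[([(1,[4,3,2,1],[10])],[4,4,2])],[],false,1)]),
  ([7,6,5,2], [
    (false,[],[7,6,5,2],false,3), (true,[([(1,[2,2],[4])],[2])],[4,4,3,2,1],true,4),
    (true,[([(1,[3,2,1],[5])],[2])],[4,3,3,2],false,3),
    (true,[([(1,[4,3,2,1],[5,4])],[])],[4,3,3],false,2),
    (true,[([(1,[4,3,2,1],[5,4])],[]),([(1,[2,1],[3])],[2,2])],[3],false,1),
    (true,[([(1,[4,3,2,1],[5,5])],[])],[4,3,3],false,2),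
    (true,[([(1,[3,2,1],[6])],[2])],[4,3,3,2],false,3),
    (true,[([(1,[4,3,2,1],[6,4])],[])],[4,3,3],false,2),
    (false,[([(1,[4,3,3,1],[6,5])],[4,3,2])],[],false,1),
    (true,[([(1,[3,3,2],[7])],[])],[4,4,3,1],false,3),
    (false,[([(1,[4,3,3,1],[7,4])],[4,3,2])],[],false,1),
    (true,[([(1,[3,3,2],[8])],[])],[4,4,3,1],false,3),
    (true,[([(1,[3,3,3],[9])],[])],[4,4,2,1],false,2),
    (false,[([(1,[4,3,2,1],[10])],[4,3,3])],[],false,1)]),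
  ([7,6,5,3], [
    (false,[],[7,6,5,3],false,4), (true,[([(1,[3,2,1],[5])],[2])],[4,4,3,2],false,3),
    (true,[([(1,[4,3,2,1],[5,4])],[])],[4,4,3],false,2),
    (true,[([(1,[4,3,2,1],[5,4])],[]),([(1,[2,1],[3])],[2,2])],[4],false,1),
    (true,[([(1,[4,3,2,1],[5,5])],[])],[4,4,3],false,2),
    (true,[([(1,[3,2,1],[6])],[2])],[4,4,3,2],false,3),
    (true,[([(1,[4,3,2,1],[6,4])],[])],[4,4,3],false,2),
    (false,[([(1,[4,3,3,1],[6,5])],[4,4,2])],[],false,1),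
    (true,[([(1,[3,3,2],[7])],[3])],[4,3,2,1],false,4),
    (true,[([(1,[3,3,2],[8])],[1])],[4,4,3,1],false,3),
    (true,[([(1,[3,3,3],[9])],[1])],[4,4,2,1],false,2),
    (false,[([(1,[4,3,2,1],[10])],[4,4,3])],[],false,1)]),
  ([7,6,5,4], [
    (false,[],[7,6,5,4],false,4), (true,[([(1,[3,2,1],[5])],[2])],[4,4,4,2],true,2),
    (false,[([(1,[4,3,2,1],[5,3])],[4,4,4])],[],false,1),
    (false,[([(1,[4,3,2,1],[5,3,2])],[4,4,4])],[],false,1),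
    (true,[([(2,[5,4,3,2],[5,3,2,2])],[])],[4,4],false,1),
    (true,[([(2,[5,4,3,2],[5,3,2,2,2])],[])],[4,4],false,1),
    (true,[([(2,[5,4,3,2],[5,3,3])],[])],[4,4],false,1),
    (true,[([(2,[5,4,3,2],[5,3,3,2])],[])],[4,4],false,1),
    (true,[([(1,[3,1,1],[5])],[2]),([(1,[2,2],[4])],[2,2])],[4,3],false,2),
    (true,[([(1,[4,3,2,1],[5,3])],[]),([(1,[2,2],[4])],[2,2])],[4],false,1),
    (false,[([(1,[4,3,2,1],[5,5])],[4,4,4])],[],false,1),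
    (true,[([(2,[5,4,3,2],[5,5,2])],[])],[4,4],false,1),
    (true,[([(1,[3,2,1],[6])],[2])],[4,4,4,2],true,2),
    (false,[([(1,[4,3,2,1],[6,3])],[4,4,4])],[],false,1),
    (true,[([(1,[3,3,2],[6,2])],[2]),([(1,[2,1],[3])],[1,1])],[4,3],false,2),
    (true,[([(2,[5,4,3,2],[6,3,3])],[])],[4,4],false,1),
    (true,[([(1,[3,2,1],[6])],[1]),([(1,[2,2],[4])],[2,2])],[4,3],false,2),
    (true,[([(2,[5,4,3,2],[6,5])],[])],[4,4],false,1),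
    (true,[([(1,[3,3,2],[7])],[2])],[4,4,3,1],false,3),
    (true,[([(1,[3,3,2],[7])],[1]),([(1,[2,2],[4])],[2,2])],[4,1],false,1),
    (true,[([(1,[3,3,2],[8])],[2])],[4,4,3,1],false,3),
    (true,[([(1,[3,3,3],[9])],[2])],[4,4,2,1],false,2),
    (false,[([(1,[4,3,2,1],[10])],[4,4,4])],[],false,1)]),
  ([8,3,2,2,2,1], [
    (false,[],[8,3,2,2,2,1],false,3), (false,[([(1,[2,2],[4])],[])],[8,3,2,1],true,4),
    (true,[([(1,[3,1,1],[5])],[1,1])],[6,2,1,1,1],false,3),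
    (true,[([(1,[5,1,1,1,1],[5,4])],[])],[6,2,1],false,3),
    (true,[([(1,[5,2,1,1,1],[5,5])],[])],[6,1,1],false,2),
    (true,[([(1,[4,1,1,1],[6])],[1])],[6,2,1,1],false,3),
    (true,[([(1,[5,2,1,1,1],[6,4])],[])],[6,1,1],false,2),
    (false,[([(1,[6,1,1,1,1,1],[6,5])],[5,2])],[],false,1),
    (true,[([(1,[4,1,1,1],[7])],[1])],[6,2,1,1],false,3),
    (false,[([(1,[6,1,1,1,1,1],[7,4])],[5,2])],[],false,1),
    (true,[([(1,[5,1,1,1,1],[8])],[])],[6,2,1],false,3),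
    (true,[([(1,[5,1,1,1,1],[9])],[])],[6,2,1],false,2),
    (false,[([(1,[5,2,1,1,1],[10])],[4,1,1])],[2],false,1)]),
  ([8,5,4,1], [
    (false,[],[8,5,4,1],false,3), (true,[([(1,[2,2],[4])],[2])],[4,3,2,1,1,1],false,4),
    (true,[([(1,[3,1,1],[5])],[])],[4,3,3,2,1],false,4),
    (true,[([(1,[4,3,2,1],[5,5])],[])],[3,3,1,1],false,2),
    (true,[([(1,[3,2,1],[6])],[])],[4,3,3,1,1],false,3),
    (true,[([(1,[4,3,2,1],[6,4])],[])],[3,3,1,1],false,2),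
    (false,[([(1,[4,3,3,1],[6,5])],[3,2,1,1])],[],false,1),
    (true,[([(1,[3,3,2],[7])],[])],[4,3,1,1,1],false,3),
    (false,[([(1,[4,3,3,1],[7,4])],[3,2,1,1])],[],false,1),
    (true,[([(1,[3,3,2],[8])],[])],[4,3,1,1,1],false,3),
    (true,[([(1,[3,3,3],[9])],[])],[4,2,1,1,1],false,2),
    (false,[([(1,[4,3,2,1],[10])],[3,3,1,1])],[],false,1)]),
  ([8,6,2,1,1], [
    (false,[],[8,6,2,1,1],false,3), (true,[([(1,[2,2],[4])],[])],[5,3,2,2,1,1],false,4),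
    (true,[([(1,[3,2,1],[5])],[])],[5,2,2,2,1],true,3),
    (true,[([(1,[3,1,1],[5])],[2,1]),([(1,[2,2],[4])],[])],[3,2,1],false,3),
    (true,[([(1,[4,3,2,1],[5,5])],[1])],[2,2,2,1],false,2),
    (true,[([(1,[3,2,1],[6])],[])],[5,2,2,2,1],true,3),
    (true,[([(1,[4,3,2,1],[6,4])],[1])],[2,2,2,1],false,2),
    (false,[([(1,[5,3,2,1,1],[6,5])],[2,2,2])],[],false,1),
    (true,[([(1,[4,1,1,1],[7])],[3])],[3,2,2,1],false,3),
    (false,[([(1,[5,3,2,1,1],[7,4])],[2,2,2])],[],false,1),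
    (true,[([(1,[4,2,1,1],[8])],[1])],[3,2,2,2],false,2),
    (false,[([(1,[5,3,2,1,1],[8,3])],[2,2,2])],[],false,1),
    (true,[([(1,[4,3,2,1],[9])],[1])],[2,2,2,1],false,2),
    (false,[([(1,[4,3,2,1],[10])],[2,2,2,1])],[1],false,1)]),
  ([8,6,5,1], [
    (false,[],[8,6,5,1],false,3), (true,[([(1,[2,2],[4])],[2])],[4,3,3,2,1,1],false,4),
    (true,[([(1,[3,1,1],[5])],[])],[4,3,3,3,2],false,3),
    (true,[([(1,[3,1,1],[5])],[]),([(1,[2,2],[4])],[2])],[4,3,2],false,3),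
    (true,[([(1,[4,3,2,1],[5,5])],[])],[3,3,3,1],false,2),
    (true,[([(1,[3,2,1],[6])],[2])],[3,3,3,2,1],true,3),
    (true,[([(1,[4,3,2,1],[6,4])],[])],[3,3,3,1],false,2),
    (false,[([(1,[4,3,3,1],[6,5])],[3,3,2,1])],[],false,1),
    (true,[([(1,[3,3,2],[7])],[])],[4,3,3,1,1],false,3),
    (false,[([(1,[4,3,3,1],[7,4])],[3,3,2,1])],[],false,1),
    (true,[([(1,[3,3,2],[8])],[])],[4,3,3,1,1],false,3),
    (true,[([(1,[3,3,3],[9])],[])],[4,3,2,1,1],false,2),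
    (false,[([(1,[4,3,2,1],[10])],[3,3,3,1])],[],false,1)]),
  ([8,7,2,1], [
    (false,[],[8,7,2,1],false,2), (true,[([(1,[2,1],[3])],[])],[4,3,2,2,2,2],false,3),
    (true,[([(1,[2,2],[4])],[])],[4,3,2,2,2,1],false,3),
    (true,[([(1,[2,2],[4])],[]),([(1,[2,2],[4])],[])],[4,3,2,1],false,4),
    (true,[([(1,[3,1,1],[5])],[3])],[3,2,2,2,1],true,2),
    (true,[([(1,[3,1,1],[5])],[3]),([(1,[2,1],[3])],[])],[3,2,2],false,2),
    (true,[([(2,[5,4,2,1],[5,3,3])],[])],[2,2,2],false,1),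
    (true,[([(2,[6,5,2,1],[5,3,3,2])],[])],[2,2],false,1),
    (true,[([(1,[3,1,1],[5])],[3]),([(1,[2,2],[4])],[])],[3,2,1],false,3),
    (false,[([(1,[4,3,2,1],[5,5])],[2,2,2,2])],[],false,1),
    (true,[([(2,[5,4,2,1],[5,5,2])],[])],[2,2,2],false,1),
    (true,[([(1,[3,2,1],[6])],[])],[4,2,2,2,2],false,2),
    (false,[([(1,[4,3,2,1],[6,3])],[2,2,2,2])],[],false,1),
    (false,[([(1,[3,3,2],[6,2]),(1,[2,1],[3])],[2,2,2])],[1],false,1),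
    (true,[([(2,[6,5,2,1],[6,3,2,2])],[])],[2,2],false,1),
    (true,[([(2,[5,4,2,1],[6,3,3])],[])],[2,2,2],false,1),
    (true,[([(1,[3,2,1],[6])],[]),([(1,[2,2],[4])],[])],[4,2,2],false,2),
    (true,[([(2,[5,4,2,1],[6,5])],[])],[2,2,2],false,1),
    (true,[([(1,[3,3,2],[7])],[1])],[2,2,2,2,1],true,2),
    (false,[([(1,[4,3,2,1],[7,3])],[2,2,2,2])],[],false,1),
    (true,[([(2,[5,4,2,1],[7,3,2])],[])],[2,2,2],false,1),
    (false,[([(1,[3,3,2],[7]),(1,[2,2],[4])],[2,2,1])],[1],false,1),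
    (true,[([(1,[3,3,2],[8])],[1])],[2,2,2,2,1],true,2),
    (false,[([(1,[3,3,2],[8]),(1,[2,1],[3])],[2,2,2])],[1],false,1),
    (false,[([(1,[4,3,2,1],[9])],[2,2,2,2])],[],false,1),
    (true,[([(2,[5,4,2,1],[9,2])],[])],[2,2,2],false,1),
    (false,[([(1,[4,3,2,1],[10])],[2,2,2,2])],[],false,1)]),
  ([8,7,3,1], [
    (false,[],[8,7,3,1],false,3), (true,[([(1,[2,2],[4])],[])],[4,3,3,2,2,1],false,3),
    (true,[([(1,[2,2],[4])],[]),([(1,[2,2],[4])],[1])],[4,3,2,1],false,4),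
    (true,[([(1,[3,1,1],[5])],[3])],[3,3,2,2,1],true,3),
    (true,[([(1,[3,1,1],[5])],[3]),([(1,[2,2],[4])],[1])],[3,2,1],false,3),
    (true,[([(1,[4,3,2,1],[5,5])],[])],[3,2,2,2],false,2),
    (true,[([(1,[3,2,1],[6])],[])],[4,3,2,2,2],false,3),
    (true,[([(1,[4,3,2,1],[6,4])],[])],[3,2,2,2],false,2),
    (false,[([(1,[4,3,3,1],[6,5])],[2,2,2,2])],[],false,1),
    (true,[([(1,[3,3,2],[7])],[])],[4,2,2,2,1],false,3),
    (false,[([(1,[4,3,3,1],[7,4])],[2,2,2,2])],[],false,1),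
    (true,[([(1,[3,3,2],[8])],[])],[4,2,2,2,1],false,3),
    (true,[([(1,[3,3,3],[9])],[1])],[2,2,2,2,1],false,2),
    (false,[([(1,[4,3,2,1],[10])],[3,2,2,2])],[],false,1)]),
  ([8,7,6,1], [
    (false,[],[8,7,6,1],false,3), (true,[([(1,[2,2],[4])],[2])],[4,3,3,3,2,1],false,3),
    (true,[([(1,[2,2],[4])],[2]),([(1,[2,2],[4])],[2])],[4,3,2,1],false,4),
    (true,[([(1,[3,2,1],[5])],[3])],[3,3,3,3,1],true,2),
    (false,[([(1,[4,3,2,1],[5,3])],[3,3,3,3])],[],false,1),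
    (false,[([(1,[4,3,2,1],[5,3,2])],[3,3,3,3])],[],false,1),
    (true,[([(2,[5,4,3,1],[5,3,2,2])],[])],[3,3,3],false,1),
    (true,[([(2,[6,5,4,1],[5,3,2,2,2])],[])],[3,3],false,1),
    (true,[([(2,[5,4,3,1],[5,3,3])],[])],[3,3,3],false,1),
    (true,[([(2,[5,4,3,1],[5,3,3,2])],[])],[3,3,3],false,1),
    (true,[([(1,[3,2,1],[5])],[]),([(1,[2,2],[4])],[2])],[4,3,3],false,2),
    (true,[([(1,[4,3,2,1],[5,3])],[]),([(1,[2,2],[4])],[2])],[3,3],false,1),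
    (false,[([(1,[4,3,2,1],[5,5])],[3,3,3,3])],[],false,1),
    (true,[([(2,[5,4,3,1],[5,5,2])],[])],[3,3,3],false,1),
    (true,[([(1,[3,2,1],[6])],[])],[4,3,3,3,3],false,2),
    (false,[([(1,[4,3,2,1],[6,3])],[3,3,3,3])],[],false,1),
    (true,[([(1,[3,3,2],[6,2])],[]),([(1,[2,1],[3])],[1])],[4,3,3],false,2),
    (true,[([(2,[5,4,3,1],[6,3,3])],[])],[3,3,3],false,1),
    (true,[([(1,[4,3,3,1],[6,4])],[])],[3,3,3,2],false,2),
    (false,[([(1,[4,3,3,1],[6,5])],[3,3,3,2])],[],false,1),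
    (true,[([(1,[3,3,2],[7])],[])],[4,3,3,3,1],false,3),
    (false,[([(1,[4,3,3,1],[7,4])],[3,3,3,2])],[],false,1),
    (true,[([(1,[3,3,2],[8])],[])],[4,3,3,3,1],false,3),
    (true,[([(1,[3,3,3],[9])],[])],[4,3,3,2,1],false,2),
    (false,[([(1,[4,3,2,1],[10])],[3,3,3,3])],[],false,1)]),
  ([9,3,3,2,1], [
    (false,[],[9,3,3,2,1],true,4), (true,[([(1,[3,1,1],[5])],[])],[5,4,1,1,1,1],false,3),
    (true,[([(1,[5,1,1,1,1],[5,4])],[])],[4,3,1,1],false,3),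
    (false,[([(1,[3,1,1],[5]),(1,[3,1,1],[5])],[2,1,1])],[3,1],false,2),
    (true,[([(1,[4,1,1,1],[6])],[])],[5,3,1,1,1],false,3),
    (true,[([(1,[3,2,1],[6]),(1,[2,2],[4])],[])],[3,1,1,1,1,1],false,2),
    (false,[([(1,[4,3,3,1],[6,5])],[1,1,1,1,1])],[2],false,1),
    (true,[([(1,[4,1,1,1],[7])],[])],[5,3,1,1,1],false,3),
    (false,[([(1,[4,3,3,1],[7,4])],[1,1,1,1,1])],[2],false,1),
    (true,[([(1,[5,1,1,1,1],[8])],[])],[4,3,1,1],false,3),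
    (true,[([(1,[5,1,1,1,1],[9])],[])],[4,3,1,1],false,2),
    (false,[([(1,[4,3,2,1],[10])],[1,1,1,1,1])],[3],false,1)])]

theorem cs4a_2_ok : runAll fcts4a 9 cs4a_2 = true := by decide +kernel

def cs4a_3 : List (List ℕ × List NdG) := [
  ([9,4,3,2], [
    (false,[],[9,4,3,2],false,3), (true,[([(1,[3,1,1],[4])],[1])],[4,3,2,1,1,1],false,4),
    (true,[([(1,[3,1,1],[5])],[1])],[4,3,2,1,1,1],false,4),
    (true,[([(1,[4,3,2,1],[5,5])],[])],[4,1,1,1,1],false,2),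
    (true,[([(1,[4,1,1,1],[6])],[])],[4,3,2,1,1],false,4),
    (true,[([(2,[5,3,2,1],[6,5])],[])],[4,1,1,1],false,1),
    (true,[([(1,[4,1,1,1],[7])],[])],[4,3,2,1,1],false,4),
    (true,[([(1,[4,2,1,1],[8])],[])],[4,3,1,1,1],false,3),
    (true,[([(1,[3,3,3],[9])],[2])],[2,1,1,1,1,1],false,2),
    (false,[([(1,[4,3,2,1],[10])],[4,1,1,1,1])],[],false,1)]),
  ([9,5,3,1], [
    (false,[],[9,5,3,1],true,4), (true,[([(1,[3,1,1],[5])],[])],[4,3,2,2,1,1],false,4),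
    (true,[([(1,[4,3,2,1],[5,5])],[])],[3,2,1,1,1],false,2),
    (true,[([(1,[3,2,1],[6])],[])],[4,3,2,1,1,1],false,4),
    (false,[([(1,[4,3,3,1],[6,5])],[2,2,1,1,1])],[],false,1),
    (true,[([(1,[4,1,1,1],[7])],[])],[3,3,2,2,1],false,3),
    (false,[([(1,[4,3,3,1],[7,4])],[2,2,1,1,1])],[],false,1),
    (true,[([(1,[4,2,1,1],[8])],[])],[3,3,2,1,1],false,3),
    (true,[([(1,[3,3,3],[9])],[1])],[2,2,1,1,1,1],false,2),
    (false,[([(1,[4,3,2,1],[10])],[3,2,1,1,1])],[],false,1)]),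
  ([9,6,2,1], [
    (false,[],[9,6,2,1],true,4), (true,[([(1,[3,1,1],[5])],[])],[4,2,2,2,2,1],true,3),
    (true,[([(1,[3,1,1],[5])],[]),([(1,[2,2],[4])],[])],[4,2,2,1],false,3),
    (true,[([(1,[4,3,2,1],[5,5])],[])],[2,2,2,1,1],false,2),
    (true,[([(1,[3,2,1],[6])],[])],[4,2,2,2,1,1],false,3),
    (true,[([(1,[4,3,2,1],[6,4])],[])],[2,2,2,1,1],false,2),
    (true,[([(2,[5,3,2,1],[6,5])],[])],[2,2,2,1],false,1),
    (true,[([(1,[4,2,1,1],[7])],[])],[3,2,2,2,1],false,3),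
    (false,[([(1,[4,1,1,1],[7]),(1,[2,2],[4])],[3,2,2])],[],false,1),
    (true,[([(1,[4,2,1,1],[8])],[])],[3,2,2,2,1],false,3),
    (true,[([(1,[4,3,2,1],[9])],[])],[2,2,2,1,1],false,2),
    (false,[([(1,[4,3,2,1],[10])],[2,2,2,1,1])],[],false,1)]),
  ([10,4,2,1,1], [
    (false,[],[10,4,2,1,1],true,4), (true,[([(1,[3,1,1],[5])],[])],[5,2,2,1,1,1,1],false,3),
    (true,[([(1,[5,1,1,1,1],[5,4])],[])],[3,2,2,1,1],false,3),
    (true,[([(1,[5,2,1,1,1],[5,5])],[])],[3,2,1,1,1],false,2),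
    (true,[([(1,[3,2,1],[6])],[])],[5,2,1,1,1,1,1],false,3),
    (true,[([(1,[5,2,1,1,1],[6,4])],[])],[3,2,1,1,1],false,2),
    (false,[([(1,[5,3,2,1,1],[6,5])],[2,1,1,1,1])],[],false,1),
    (true,[([(1,[4,1,1,1],[7])],[1])],[3,2,2,1,1,1],false,3),
    (false,[([(1,[5,3,2,1,1],[7,4])],[2,1,1,1,1])],[],false,1),
    (true,[([(1,[4,2,1,1],[8])],[1])],[3,2,1,1,1,1],false,3),
    (true,[([(1,[5,1,1,1,1],[9])],[])],[3,2,2,1,1],false,2),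
    (false,[([(1,[5,2,1,1,1],[10])],[3,2,1,1,1])],[],false,1)]),
  ([10,4,3,1], [
    (false,[],[10,4,3,1],true,3), (true,[([(1,[3,1,1],[4])],[])],[4,3,2,1,1,1,1],false,4),
    (true,[([(1,[3,1,1],[5])],[])],[4,3,2,1,1,1,1],false,4),
    (true,[([(1,[4,3,2,1],[5,5])],[])],[3,1,1,1,1,1],false,2),
    (true,[([(1,[3,2,1],[6])],[])],[4,3,1,1,1,1,1],false,3),
    (true,[([(1,[4,3,2,1],[6,4])],[])],[3,1,1,1,1,1],false,2),
    (false,[([(1,[4,3,3,1],[6,5])],[2,1,1,1,1,1])],[],false,1),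
    (true,[([(1,[4,1,1,1],[7])],[])],[3,3,2,1,1,1],false,3),
    (false,[([(1,[4,3,3,1],[7,4])],[2,1,1,1,1,1])],[],false,1),
    (true,[([(1,[4,2,1,1],[8])],[])],[3,3,1,1,1,1],false,2),
    (false,[([(1,[4,3,3,1],[8,3])],[2,1,1,1,1,1])],[],false,1),
    (true,[([(1,[3,3,3],[9])],[1])],[2,1,1,1,1,1,1],false,2),
    (false,[([(1,[4,3,2,1],[10])],[3,1,1,1,1,1])],[],false,1)]),
  ([11,3,2,1,1], [
    (false,[],[11,3,2,1,1],true,3), (true,[([(1,[3,1,1],[4])],[])],[5,2,1,1,1,1,1,1],false,2),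
    (true,[([(1,[4,1,1,1],[4,3])],[1])],[3,2,1,1,1,1,1],false,3),
    (true,[([(1,[4,2,1,1],[4,4])],[1])],[3,1,1,1,1,1,1],false,2),
    (true,[([(1,[4,1,1,1],[4,3])],[1]),([(1,[3,1,1],[4])],[])],[2,1,1,1],false,2),
    (false,[([(1,[4,2,1,1],[4,4]),(1,[3,1,1],[4])],[1,1,1,1])],[1],false,1),
    (true,[([(1,[3,1,1],[5])],[])],[5,2,1,1,1,1,1,1],false,3),
    (true,[([(1,[5,1,1,1,1],[5,4])],[])],[3,2,1,1,1,1],false,3),
    (true,[([(1,[5,2,1,1,1],[5,5])],[])],[3,1,1,1,1,1],false,2),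
    (true,[([(1,[4,1,1,1],[6])],[1])],[3,2,1,1,1,1,1],false,3),
    (true,[([(1,[5,2,1,1,1],[6,4])],[])],[3,1,1,1,1,1],false,2),
    (false,[([(1,[5,3,2,1,1],[6,5])],[1,1,1,1,1,1])],[],false,1),
    (true,[([(1,[4,1,1,1],[7])],[1])],[3,2,1,1,1,1,1],false,3),
    (false,[([(1,[5,3,2,1,1],[7,4])],[1,1,1,1,1,1])],[],false,1),
    (true,[([(1,[5,1,1,1,1],[8])],[])],[3,2,1,1,1,1],false,3),
    (true,[([(1,[5,1,1,1,1],[9])],[])],[3,2,1,1,1,1],false,2),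
    (false,[([(1,[5,2,1,1,1],[10])],[3,1,1,1,1,1])],[],false,1)]),
  ([11,4,2,1], [
    (false,[],[11,4,2,1],true,4), (true,[([(1,[3,1,1],[5])],[])],[4,2,2,1,1,1,1,1],false,3),
    (true,[([(1,[4,3,2,1],[5,4])],[])],[2,1,1,1,1,1,1],false,2),
    (false,[([(1,[4,3,2,1],[5,4]),(1,[2,1],[3])],[1,1,1,1,1])],[],false,1),
    (true,[([(1,[4,3,2,1],[5,5])],[])],[2,1,1,1,1,1,1],false,2),
    (true,[([(1,[3,2,1],[6])],[])],[4,2,1,1,1,1,1,1],false,3),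
    (true,[([(1,[4,3,2,1],[6,4])],[])],[2,1,1,1,1,1,1],false,2),
    (true,[([(2,[5,3,2,1],[6,5])],[])],[2,1,1,1,1,1],false,1),
    (true,[([(1,[4,1,1,1],[7])],[])],[3,2,2,1,1,1,1],false,3),
    (false,[([(1,[4,1,1,1],[7]),(1,[2,2],[4])],[3,1,1,1,1])],[],false,1),
    (true,[([(1,[4,2,1,1],[8])],[])],[3,2,1,1,1,1,1],false,3),
    (true,[([(1,[4,3,2,1],[9])],[])],[2,1,1,1,1,1,1],false,2),
    (false,[([(1,[4,3,2,1],[10])],[2,1,1,1,1,1,1])],[],false,1)]),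
  ([12,3,2,1], [
    (false,[],[12,3,2,1],true,3), (true,[([(1,[3,1,1],[4])],[])],[4,2,1,1,1,1,1,1,1],false,2),
    (true,[([(1,[4,1,1,1],[4,3])],[])],[3,2,1,1,1,1,1,1],false,3),
    (true,[([(1,[4,2,1,1],[4,4])],[])],[3,1,1,1,1,1,1,1],false,2),
    (true,[([(1,[4,1,1,1],[4,3])],[]),([(1,[3,1,1],[4])],[])],[2,1,1,1,1],false,2),
    (false,[([(1,[4,2,1,1],[4,4]),(1,[3,1,1],[4])],[1,1,1,1,1])],[],false,1),
    (true,[([(1,[3,1,1],[5])],[])],[4,2,1,1,1,1,1,1,1],false,3),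
    (true,[([(1,[3,1,1],[5])],[]),([(1,[3,1,1],[4])],[1])],[2,1,1,1,1,1],false,2),
    (false,[([(1,[4,2,1,1],[5,3]),(1,[3,1,1],[4])],[1,1,1,1,1])],[],false,1),
    (true,[([(1,[3,1,1],[5])],[]),([(1,[3,1,1],[5])],[1])],[2,1,1,1,1,1],false,2),
    (true,[([(1,[4,1,1,1],[6])],[])],[3,2,1,1,1,1,1,1],false,3),
    (true,[([(1,[4,1,1,1],[6])],[]),([(1,[3,1,1],[4])],[])],[2,1,1,1,1],false,2),
    (true,[([(2,[5,3,2,1],[6,5])],[])],[1,1,1,1,1,1,1],false,1),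
    (true,[([(1,[4,1,1,1],[7])],[])],[3,2,1,1,1,1,1,1],false,3),
    (true,[([(1,[4,1,1,1],[7])],[]),([(1,[2,2],[4])],[1])],[1,1,1,1,1,1],false,1),
    (true,[([(1,[4,2,1,1],[8])],[])],[3,1,1,1,1,1,1,1],false,2),
    (true,[([(1,[4,2,1,1],[8])],[]),([(1,[2,1],[3])],[1])],[1,1,1,1,1,1],false,1),
    (false,[([(1,[4,3,2,1],[9])],[1,1,1,1,1,1,1,1])],[],false,1),
    (true,[([(2,[5,3,2,1],[9,2])],[])],[1,1,1,1,1,1,1],false,1),
    (false,[([(1,[4,3,2,1],[10])],[1,1,1,1,1,1,1,1])],[],false,1)])]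

theorem cs4a_3_ok : runAll fcts4a 9 cs4a_3 = true := by decide +kernel

/-- the minors -/
def G4a : List (List ℕ) := [
  [1,1,1,3,1,1,1,2], [2,1,1,1,3,1,1,1], [1,2,1,1,1,1,1,2], [2,1,1,1,1,1,2,1], [2,1,1,2,1,2,1,1],
  [1,1,2,1,2,1,1,2], [2,1,1,3,2,1,1,1], [1,1,1,2,3,1,1,2], [2,2,1,2,1,1,1,1], [1,2,1,2,1,1,2,1],
  [1,2,1,1,2,1,2,1], [1,1,1,1,2,1,2,2], [2,1,3,1,1,1,1,1], [1,2,2,1,1,2,1,1], [1,1,2,1,1,2,2,1],
  [1,1,1,1,1,3,1,2], [1,1,2,3,1,1,2,1], [1,2,1,3,1,2,1,1], [1,1,2,1,3,1,2,1], [1,2,1,1,3,2,1,1],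
  [2,1,1,5,1,1,1,1], [1,1,1,1,5,1,1,2], [1,3,2,1,1,1,1,1], [1,1,1,1,1,2,3,1], [1,3,1,3,1,1,1,1],
  [1,1,1,3,1,1,3,1], [1,3,1,1,3,1,1,1], [1,1,1,1,3,1,3,1], [1,2,2,4,1,1,1,1], [1,1,1,1,4,2,2,1],
  [1,2,1,6,1,1,1,1], [1,1,1,6,1,1,2,1], [1,2,1,1,6,1,1,1], [1,1,1,1,6,1,2,1], [1,1,5,1,1,1,1,1],
  [1,1,4,1,1,2,1,1], [1,1,2,1,1,4,1,1], [1,1,1,1,1,5,1,1], [1,1,4,3,1,1,1,1], [1,1,2,3,1,3,1,1],
  [1,1,4,2,2,1,1,1], [1,1,1,2,2,4,1,1], [1,1,3,1,3,2,1,1], [1,1,1,1,3,4,1,1], [1,1,1,5,1,3,1,1],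
  [1,1,3,1,5,1,1,1], [1,1,2,7,1,1,1,1], [1,1,2,6,2,1,1,1], [1,1,1,2,6,2,1,1], [1,1,1,1,7,2,1,1],
  [1,1,1,9,1,1,1,1], [1,1,1,8,2,1,1,1], [1,1,1,2,8,1,1,1], [1,1,1,1,9,1,1,1], [1,1,2,2,1,1,1,2],
  [2,1,1,1,2,2,1,1], [1,1,1,2,1,1,2,2], [2,2,1,1,2,1,1,1], [3,1,1,2,1,1,1,1], [1,1,1,1,2,1,1,3],
  [2,2,2,1,1,1,1,1], [1,1,1,1,1,2,2,2], [1,2,4,1,1,1,1,1], [1,1,1,1,1,4,2,1], [1,2,2,1,1,1,2,1],
  [1,2,1,1,1,2,2,1], [3,1,2,1,1,1,1,1], [1,1,2,1,1,1,3,1], [1,3,1,1,1,2,1,1], [1,1,1,1,1,2,1,3],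
  [2,3,1,1,1,1,1,1], [1,1,1,1,1,1,3,2], [1,4,1,2,1,1,1,1], [1,1,1,1,2,1,4,1], [1,1,2,1,1,1,2,2],
  [2,2,1,1,1,2,1,1], [1,3,1,1,1,1,2,1], [1,2,1,1,1,1,3,1], [3,2,1,1,1,1,1,1], [1,1,1,1,1,1,2,3],
  [1,1,2,1,1,1,1,3], [3,1,1,1,1,2,1,1], [4,1,1,1,1,1,1,1], [1,1,1,1,1,1,1,4], [1,5,1,1,1,1,1,1],
  [1,1,1,1,1,1,5,1], [3,1,1,1,1,1,1,2], [2,1,1,1,1,1,1,3]]

def T4a : BT :=
  .split 0 4 (.split 1 5 (.split 2 5 (.split 3 9 (.split 4 9 (.split 5 5 (.split 6 5 (.split 7 4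
  (.split 7 2 (.split 0 2 (.split 6 3 (.split 1 3 (.split 5 3 (.split 2 3 (.split 4 5 (.split 3
  5 .small (.split 6 2 .small (.split 1 2 .small (.minor 9)))) (.split 3 8 (.split 3 4 (.split 6
  2 .small (.split 1 2 .small (.minor 10))) (.split 4 8 (.split 6 2 (.split 1 2 .small (.split 2
  2 .small (.minor 28))) (.split 1 2 (.split 2 2 .small (.minor 16)) (.minor 9))) (.minor 52)))
  (.minor 51))) (.split 3 7 (.split 4 5 (.split 6 2 (.split 3 4 .small (.split 1 2 .small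
  (.minor 28))) (.split 1 2 (.split 3 3 .small (.minor 16)) (.minor 64))) (.minor 45)) (.minor
  46))) (.split 2 4 (.split 3 5 (.split 4 7 (.split 1 2 (.split 2 2 .small (.split 3 3 (.split 5
  4 .small (.minor 36)) (.minor 39))) (.split 2 2 (.split 3 3 (.split 4 3 .small (.minor 19))
  (.minor 17)) (.minor 13))) (.minor 49)) (.minor 44)) (.minor 35))) (.split 2 2 (.split 3 3
  (.split 4 3 (.split 5 2 .small (.minor 68)) (.minor 26)) (.minor 24)) (.minor 22))) (.split 1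
  2 (.split 2 2 (.split 3 3 (.split 4 3 .small (.minor 27)) (.minor 25)) (.minor 67)) (.minor
  77))) (.split 1 3 (.split 2 3 (.split 3 5 (.split 4 3 (.split 6 2 (.split 5 3 (.split 0 3
  .small (.split 1 2 (.split 2 2 .small (.minor 66)) (.minor 78))) (.split 0 3 (.split 1 2
  (.split 3 2 .small (.minor 4)) (.minor 75)) (.minor 81))) (.minor 3)) (.minor 1)) (.minor 20))
  (.minor 12)) (.minor 70))) (.split 0 3 (.split 1 2 (.split 3 3 (.split 4 5 (.split 5 3 (.split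
  6 3 (.split 2 3 (.split 0 2 (.split 7 3 .small (.split 2 2 .small (.minor 80))) (.split 4 3
  (.split 6 2 (.split 7 3 .small (.minor 87)) (.minor 3)) (.minor 1))) (.split 0 2 (.split 3 2
  (.split 4 2 (.split 6 2 (.split 7 3 .small (.minor 80)) (.minor 74)) (.minor 5)) (.minor 54))
  (.minor 12))) (.minor 71)) (.minor 15)) (.minor 21)) (.minor 0)) (.minor 2)) (.minor 86)))
  (.minor 83)) (.minor 85)) (.minor 37)) (.minor 53)) (.minor 50)) (.minor 34)) (.minor 84))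
  (.minor 82)

def R4a : List (List ℕ) :=
  cs4a_0.map Prod.fst ++ cs4a_1.map Prod.fst ++ cs4a_2.map Prod.fst ++ cs4a_3.map Prod.fst

theorem R4a_ok (hF : ∀ p ∈ fcts4a, CC (p.1 : Multiset ℕ) (p.2 : Multiset ℕ)) : ∀ M ∈ R4a, KG (M : Multiset ℕ) 9 := by
  intro M h
  unfold R4a at h
  simp only [List.mem_append] at h
  rcases h with ((h | h) | h) | h
  · exact kg_of_all hF cs4a_0_ok M h
  · exact kg_of_all hF cs4a_1_ok M h
  · exact kg_of_all hF cs4a_2_ok M h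
  · exact kg_of_all hF cs4a_3_ok M h

theorem min4a_ok : minB 4 G4a R4a = true := by decide +kernel

theorem T4a_ok : btB 4 30 G4a T4a (List.replicate (2 * 4) 1)
    (List.replicate (2 * 4) 0) = true := by decide +kernel

theorem kg4a (hF : ∀ p ∈ fcts4a, CC (p.1 : Multiset ℕ) (p.2 : Multiset ℕ)) {M : Multiset ℕ} (hM : ∀ s ∈ M, 1 ≤ s)
    (hc : M.dedup.card = 4) (hn : 30 ≤ M.sum) : KG M 9 :=
  cover T4a (R4a_ok hF) min4a_ok T4a_ok hM hc hn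

end Pool.MP322
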