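import Pool.Agent.Lib.MP_322c5f_al.SG2

/-! Semigroup property, part 3: functions on words which are antisymmetric along columns. -/

set_option autoImplicit false

open Equiv Finset Nat

namespace Pool.MP322

theorem sg_equiv {α β γ : Type*} [Fintype α] [Fintype β] [DecidableEq γ] (f : α → γ) (g : β → γ)
    (h : ∀ r, (univ.filter (fun a => f a = r)).card = (univ.filter (fun b => g b = r)).card) :
    ∃ e : α ≃ β, ∀ a, g (e a) = f a := by
  classical
  have h1 : ∀ r, Nonempty ({a // f a = r} ≃ {b // g b = r}) := by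
    intro r
    refine ⟨Fintype.equivOfCardEq ?_⟩
    rw [Fintype.card_subtype, Fintype.card_subtype]
    exact h r
  refine ⟨Equiv.ofFiberEquiv (f := f) (g := g) (fun r => (h1 r).some), fun a => ?_⟩
  exact Equiv.ofFiberEquiv_map _ a

/-- antisymmetric along the fibres of `u` -/
def Anti {n : ℕ} (u : Fin n → ℕ) (f : (Fin n → ℕ) → ℝ) : Prop :=
  ∀ i j, i ≠ j → u i = u j → ∀ w, f (fun k => w (swap i j k)) = - f w

/-- the number of occurrences of `r` in the word `w` -/
def occ {n : ℕ} (w : Fin n → ℕ) (r : ℕ) : ℕ := (univ.filter (fun i => w i = r)).card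

/-- supported on words of content `lam` -/
def Sup {n : ℕ} (lam : YoungDiagram) (f : (Fin n → ℕ) → ℝ) : Prop :=
  ∀ w, f w ≠ 0 → ∀ r, occ w r = lam.rowLen r

theorem Anti.perm {n : ℕ} {u : Fin n → ℕ} {f : (Fin n → ℕ) → ℝ} (h : Anti u f) :
    ∀ (σ : Perm (Fin n)), (∀ i, u (σ i) = u i) → ∀ w,
      f (fun k => w (σ k)) = ((Perm.sign σ : ℤ) : ℝ) * f w := by
  classical
  suffices H : ∀ (k : ℕ) (σ : Perm (Fin n)), σ.support.card = k → (∀ i, u (σ i) = u i) → ∀ w,
      f (fun k => w (σ k)) = ((Perm.sign σ : ℤ) : ℝ) * f w from fun σ => H _ σ rfl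
  intro k
  induction k using Nat.strong_induction_on with
  | _ k ih =>
    intro σ hk hσ w
    by_cases h1 : σ = 1
    · rw [h1, Perm.sign_one]
      simp only [Perm.one_apply, Units.val_one, Int.cast_one, one_mul]
    · obtain ⟨x, hx⟩ : ∃ x, σ x ≠ x := by
        by_contra hcon
        push Not at hcon
        exact h1 (Equiv.ext hcon)
      have hlt := Perm.card_support_swap_mul hx
      have hu : ∀ i, u ((swap x (σ x) * σ) i) = u i := by
        intro i
        rw [Perm.mul_apply, swap_apply_def]
        split_ifs with h2 h3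
        · rw [hσ, ← hσ i, h2]
        · rw [← hσ i, h3, hσ]
        · exact hσ i
      have h2 := ih _ (hk ▸ hlt) (swap x (σ x) * σ) rfl hu (fun k => w (swap x (σ x) k))
      have h3 : (fun k => w (swap x (σ x) ((swap x (σ x) * σ) k))) = fun k => w (σ k) := by
        funext k
        rw [Perm.mul_apply, swap_apply_self]
      simp only at h2
      rw [h3, h x (σ x) (Ne.symm hx) (hσ x).symm w, Perm.sign_mul, Perm.sign_swap (Ne.symm hx)] at h2
      rw [h2]
      push_cast
      ring

section
variable {n : ℕ} {lam : YoungDiagram} {T : Fin n → ℕ × ℕ}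

theorem sg_colcount (hinj : Function.Injective T) (him : ∀ c, c ∈ lam ↔ ∃ i, T i = c) (c R : ℕ) :
    (univ.filter (fun i => (T i).2 = c ∧ (T i).1 < R)).card = min (lam.colLen c) R := by
  classical
  rw [← Finset.card_range (min (lam.colLen c) R)]
  refine Finset.card_bij (fun i _ => (T i).1) ?_ ?_ ?_
  · intro i hi
    obtain ⟨-, h1, h2⟩ := Finset.mem_filter.1 hi
    rw [Finset.mem_range, lt_min_iff]
    refine ⟨?_, h2⟩
    rw [← YoungDiagram.mem_iff_lt_colLen, ← h1]
    exact (him _).2 ⟨i, rfl⟩
  · intro i hi j hj hij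
    obtain ⟨-, h1, -⟩ := Finset.mem_filter.1 hi
    obtain ⟨-, h2, -⟩ := Finset.mem_filter.1 hj
    exact hinj (Prod.ext hij (h1.trans h2.symm))
  · intro r hr
    rw [Finset.mem_range, lt_min_iff] at hr
    obtain ⟨i, hi⟩ := (him (r, c)).1 (YoungDiagram.mem_iff_lt_colLen.2 hr.1)
    refine ⟨i, Finset.mem_filter.2 ⟨Finset.mem_univ _, ?_, ?_⟩, ?_⟩
    · rw [hi]
    · rw [hi]
      exact hr.2
    · rw [hi]

theorem sg_occ_lt (w : Fin n → ℕ) (R : ℕ) :
    (univ.filter (fun i => w i < R)).card = ∑ r ∈ range R, occ w r := by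
  classical
  rw [Finset.card_eq_sum_card_fiberwise (f := w) (t := range R)]
  · refine Finset.sum_congr rfl fun r hr => ?_
    unfold occ
    congr 1
    ext i
    simp only [Finset.mem_filter, Finset.mem_univ, true_and]
    constructor
    · exact fun h => h.2
    · exact fun h => ⟨h ▸ Finset.mem_range.1 hr, h⟩
  · intro i hi
    exact Finset.mem_coe.2 (Finset.mem_range.2 (Finset.mem_filter.1 (Finset.mem_coe.1 hi)).2)

/-- a word of the right content without repetitions in the columns is a column permutation of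
the row numbers -/
theorem sg_cells (hinj : Function.Injective T) (him : ∀ c, c ∈ lam ↔ ∃ i, T i = c)
    (w : Fin n → ℕ) (hw : ∀ r, occ w r = occ (fun i => (T i).1) r)
    (hcol : ∀ i j, (T i).2 = (T j).2 → w i = w j → i = j) (i : Fin n) : (w i, (T i).2) ∈ lam := by
  classical
  set A : ℕ → ℕ → ℕ := fun c R => (univ.filter (fun i => (T i).2 = c ∧ w i < R)).card with hA
  have hcount := sg_colcount hinj him
  have h1 : ∀ c R, A c R ≤ min (lam.colLen c) R := by
    intro c R
    rw [le_min_iff]
    constructor
    · have h2 : A c R ≤ (univ.filter (fun i => (T i).2 = c)).card := by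
        refine Finset.card_le_card fun i hi => ?_
        obtain ⟨-, h3, -⟩ := Finset.mem_filter.1 hi
        exact Finset.mem_filter.2 ⟨Finset.mem_univ _, h3⟩
      have h3 : (univ.filter (fun i => (T i).2 = c)).card = lam.colLen c := by
        have h4 := hcount c (lam.colLen c)
        rw [min_self] at h4
        rw [← h4]
        congr 1
        ext i
        simp only [Finset.mem_filter, Finset.mem_univ, true_and]
        constructor
        · intro h5
          refine ⟨h5, ?_⟩
          rw [← YoungDiagram.mem_iff_lt_colLen, ← h5]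
          exact (him _).2 ⟨i, rfl⟩
        · exact fun h5 => h5.1
      rw [← h3]
      exact h2
    · have h6 : A c R ≤ (range R).card := by
        refine Finset.card_le_card_of_injOn w ?_ ?_
        · intro i hi
          exact Finset.mem_coe.2 (Finset.mem_range.2 (Finset.mem_filter.1 (Finset.mem_coe.1 hi)).2.2)
        · intro i hi j hj hij
          have h2 := (Finset.mem_filter.1 (Finset.mem_coe.1 hi)).2.1
          have h3 := (Finset.mem_filter.1 (Finset.mem_coe.1 hj)).2.1
          exact hcol i j (h2.trans h3.symm) hij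
      rwa [Finset.card_range] at h6
  have hsum : ∀ (p : Fin n → Prop) [DecidablePred p],
      (univ.filter p).card = ∑ c ∈ univ.image (fun i => (T i).2),
        (univ.filter (fun i => (T i).2 = c ∧ p i)).card := by
    intro p _
    rw [Finset.card_eq_sum_card_fiberwise (f := fun i => (T i).2)
      (t := univ.image (fun i => (T i).2))]
    · refine Finset.sum_congr rfl fun c _ => ?_
      congr 1
      ext i
      simp only [Finset.mem_filter, Finset.mem_univ, true_and]
      exact and_comm
    · intro i _
      exact Finset.mem_coe.2 (Finset.mem_image_of_mem _ (Finset.mem_univ _))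
  have h2 : ∀ R, ∑ c ∈ univ.image (fun i => (T i).2), A c R =
      ∑ c ∈ univ.image (fun i => (T i).2), min (lam.colLen c) R := by
    intro R
    have h3 := hsum (fun i => w i < R)
    have h4 := hsum (fun i => (T i).1 < R)
    rw [sg_occ_lt] at h3 h4
    rw [Finset.sum_congr rfl fun c _ => hcount c R] at h4
    rw [← h4, hA]
    simp only
    rw [← h3]
    exact Finset.sum_congr rfl fun r _ => hw r
  have h3 : ∀ c ∈ univ.image (fun i => (T i).2), ∀ R, A c R = min (lam.colLen c) R := by
    intro c hc R
    exact (Finset.sum_eq_sum_iff_of_le (fun c _ => h1 c R)).1 (h2 R) c hc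
  have hci : (T i).2 ∈ univ.image (fun i => (T i).2) :=
    Finset.mem_image_of_mem _ (Finset.mem_univ _)
  have h4 : A (T i).2 (w i) + 1 ≤ A (T i).2 (w i + 1) := by
    rw [hA]
    simp only
    have h5 : (univ.filter (fun j => (T j).2 = (T i).2 ∧ w j < w i)).card + 1 =
        (insert i (univ.filter (fun j => (T j).2 = (T i).2 ∧ w j < w i))).card := by
      rw [Finset.card_insert_of_notMem]
      intro hi
      exact absurd (Finset.mem_filter.1 hi).2.2 (lt_irrefl _)
    rw [h5]
    refine Finset.card_le_card fun j hj => ?_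
    rcases Finset.mem_insert.1 hj with h6 | h6
    · rw [h6]
      exact Finset.mem_filter.2 ⟨Finset.mem_univ _, rfl, Nat.lt_succ_self _⟩
    · obtain ⟨-, h7, h8⟩ := Finset.mem_filter.1 h6
      exact Finset.mem_filter.2 ⟨Finset.mem_univ _, h7, by omega⟩
  rw [h3 _ hci, h3 _ hci] at h4
  rw [YoungDiagram.mem_iff_lt_colLen]
  omega

theorem sg_colperm (hinj : Function.Injective T) (him : ∀ c, c ∈ lam ↔ ∃ i, T i = c)
    (w : Fin n → ℕ) (hw : ∀ r, occ w r = occ (fun i => (T i).1) r)
    (hcol : ∀ i j, (T i).2 = (T j).2 → w i = w j → i = j) :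
    ∃ σ : Perm (Fin n), (∀ i, (T (σ i)).2 = (T i).2) ∧ ∀ i, (T (σ i)).1 = w i := by
  classical
  have h1 : ∀ i, ∃ j, T j = (w i, (T i).2) := fun i =>
    (him _).1 (sg_cells hinj him w hw hcol i)
  choose s hs using h1
  have hsi : Function.Injective s := by
    intro i j hij
    have h2 := hs i
    rw [hij, hs j] at h2
    exact hcol i j (congrArg Prod.snd h2).symm (congrArg Prod.fst h2).symm
  refine ⟨Equiv.ofBijective s (Finite.injective_iff_bijective.1 hsi), fun i => ?_, fun i => ?_⟩
  · rw [Equiv.ofBijective_apply, hs]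
  · rw [Equiv.ofBijective_apply, hs]

/-- content of the row numbers -/
theorem sg_occ_T (hinj : Function.Injective T) (him : ∀ c, c ∈ lam ↔ ∃ i, T i = c) (r : ℕ) :
    occ (fun i => (T i).1) r = lam.rowLen r := by
  classical
  unfold occ
  rw [← Finset.card_range (lam.rowLen r)]
  refine Finset.card_bij (fun i _ => (T i).2) ?_ ?_ ?_
  · intro i hi
    rw [Finset.mem_range, ← YoungDiagram.mem_iff_lt_rowLen, ← (Finset.mem_filter.1 hi).2]
    exact (him _).2 ⟨i, rfl⟩
  · intro i hi j hj hij
    exact hinj (Prod.ext (((Finset.mem_filter.1 hi).2).trans ((Finset.mem_filter.1 hj).2).symm) hij)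
  · intro c hc
    obtain ⟨i, hi⟩ := (him (r, c)).1 (YoungDiagram.mem_iff_lt_rowLen.2 (Finset.mem_range.1 hc))
    exact ⟨i, Finset.mem_filter.2 ⟨Finset.mem_univ _, by show (T i).1 = r; rw [hi]⟩, by
      show (T i).2 = c; rw [hi]⟩

/-- values of antisymmetric functions of content `lam` -/
theorem sg_value (hinj : Function.Injective T) (him : ∀ c, c ∈ lam ↔ ∃ i, T i = c)
    (w : Fin n → ℕ) :
    (∀ f, Anti (fun i => (T i).2) f → Sup lam f → f w = 0) ∨
    ∃ s : ℝ, ∀ f, Anti (fun i => (T i).2) f → Sup lam f → f w = s * f (fun i => (T i).1) := by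
  classical
  by_cases hw : ∀ r, occ w r = lam.rowLen r
  · by_cases hcol : ∀ i j, (T i).2 = (T j).2 → w i = w j → i = j
    · right
      obtain ⟨σ, h1, h2⟩ := sg_colperm hinj him w
        (fun r => by rw [hw, sg_occ_T hinj him]) hcol
      refine ⟨((Perm.sign σ : ℤ) : ℝ), fun f hf _ => ?_⟩
      rw [← hf.perm σ h1]
      congr 1
      funext i
      exact (h2 i).symm
    · left
      push Not at hcol
      obtain ⟨i, j, h1, h2, h3⟩ := hcol
      intro f hf _
      have h4 := hf i j h3 h1 w
      have h5 : (fun k => w (swap i j k)) = w := by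
        funext k
        rw [swap_apply_def]
        split_ifs with h6 h7
        · rw [h6, h2]
        · rw [h7, h2]
        · rfl
      rw [h5] at h4
      linarith
  · left
    intro f _ hf
    by_contra h0
    exact hw (hf w h0)

end

end Pool.MP322
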