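import Pool.Agent.Lib.MP_322c5f_al.SG18
import Pool.Agent.Lib.MP_322c5f_al.SG20
import Pool.Agent.Lib.MP_322c5f_al.SG21
import Pool.Agent.Lib.MP_322c5f_al.SG22
import Pool.Agent.Lib.MP_322c5f_al.SG27
import Pool.Agent.Lib.MP_322c5f_al.SG28
import Pool.Agent.Lib.MP_322c5f_al.SG29

/-! (C), part 20: the results for diagrams with at least four corners. -/

set_option autoImplicit false

open Equiv Finset Nat

namespace Pool.MP322

theorem Sq_of_KG {n : ℕ} (lam mu : Y n) {K : ℕ} (h : KG (cols lam.1) K)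
    (hmu : n - mu.1.rowLen 0 ≤ K) : Sq lam mu := by
  refine Sq_of_CC lam mu (h _ ?_ ((core_sum mu).trans hmu))
  intro s hs
  exact (Multiset.mem_filter.1 hs).2

theorem KG_dedup {M : Multiset ℕ} (hM : ∀ s ∈ M, 1 ≤ s) {c K : ℕ} (hc : c ≤ M.dedup.card)
    (h : KC c K) : KG M K := by
  intro S h1 h2
  refine CC_le (Multiset.dedup_le M) ?_
  refine CC_nodup (Multiset.nodup_dedup _) (fun v hv => hM v (Multiset.mem_dedup.1 hv)) ?_
  exact CC_le (st_le hc) (h S h1 h2)

theorem KG.le {M : Multiset ℕ} {K K' : ℕ} (h : KG M K) (hK : K' ≤ K) : KG M K' :=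
  h.mono le_rfl hK

theorem sum_cols' {n : ℕ} (lam : Y n) : (cols lam.1).sum = n := by
  rw [sum_cols, lam.2]

/-- at least seven corners, at least forty cells: depth at most `15` -/
theorem Sq_c7 {n : ℕ} (lam mu : Y n) (hn : 40 ≤ n) (hc : 7 ≤ mcor lam.1)
    (hmu : n - mu.1.rowLen 0 ≤ 15) : Sq lam mu := by
  have h1 := mcor_le lam.1
  refine Sq_of_KG lam mu ?_ hmu
  rcases (show (cols lam.1).dedup.card = 7 ∨ 8 ≤ (cols lam.1).dedup.card by omega) with h | h
  · exact kg7a (fun s hs => cols_pos hs) h (by rw [sum_cols']; exact hn)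
  · exact KG_dedup (fun s hs => cols_pos hs) h (kc_8.mono le_rfl (by norm_num))

/-- at least six corners, at least 55 cells: depth at most `13` -/
theorem Sq_c6 {n : ℕ} (lam mu : Y n) (hn : 55 ≤ n) (hc : 6 ≤ mcor lam.1)
    (hmu : n - mu.1.rowLen 0 ≤ 13) : Sq lam mu := by
  have h1 := mcor_le lam.1
  refine Sq_of_KG lam mu ?_ hmu
  rcases (show (cols lam.1).dedup.card = 6 ∨ 7 ≤ (cols lam.1).dedup.card by omega) with h | h
  · exact kg6b (fun s hs => cols_pos hs) h (by rw [sum_cols']; exact hn)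
  · exact KG_dedup (fun s hs => cols_pos hs) h kc_7

/-- at least five corners, at least 43 cells: depth at most `11` -/
theorem Sq_c5 {n : ℕ} (lam mu : Y n) (hn : 43 ≤ n) (hc : 5 ≤ mcor lam.1)
    (hmu : n - mu.1.rowLen 0 ≤ 11) : Sq lam mu := by
  have h1 := mcor_le lam.1
  refine Sq_of_KG lam mu ?_ hmu
  rcases (show (cols lam.1).dedup.card = 5 ∨ (cols lam.1).dedup.card = 6 ∨
    7 ≤ (cols lam.1).dedup.card by omega) with h | h | h
  · exact kg5a (fun s hs => cols_pos hs) h (by rw [sum_cols']; exact hn)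
  · exact kg6a (fun s hs => cols_pos hs) h (by rw [sum_cols']; exact hn)
  · exact KG_dedup (fun s hs => cols_pos hs) h (kc_7.mono le_rfl (by norm_num))

/-- at least four corners, at least 30 cells: depth at most `9` -/
theorem Sq_c4 (hF : ∀ p ∈ fcts4a, CC (p.1 : Multiset ℕ) (p.2 : Multiset ℕ)) {n : ℕ} (lam mu : Y n)
    (hn : 30 ≤ n) (hc : 4 ≤ mcor lam.1) (hmu : n - mu.1.rowLen 0 ≤ 9) : Sq lam mu := by
  have h1 := mcor_le lam.1
  refine Sq_of_KG lam mu ?_ hmu
  rcases (show (cols lam.1).dedup.card = 4 ∨ (cols lam.1).dedup.card = 5 ∨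
    (cols lam.1).dedup.card = 6 ∨ 7 ≤ (cols lam.1).dedup.card by omega) with h | h | h | h
  · exact kg4a hF (fun s hs => cols_pos hs) h (by rw [sum_cols']; exact hn)
  · exact kg5b (fun s hs => cols_pos hs) h (by rw [sum_cols']; exact hn)
  · exact KG_dedup (fun s hs => cols_pos hs) (by omega) kc_6
  · exact KG_dedup (fun s hs => cols_pos hs) h (kc_7.mono le_rfl (by norm_num))

end Pool.MP322
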