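import Pool.Agent.Lib.MP_322c5f_al.SG25

/-! (C), part 21: certificate trees with intervals of sizes, for `KC c K`. -/

set_option autoImplicit false

open Equiv Finset Nat

namespace Pool.MP322

theorem sum_up (b k : ℕ) : ∑ a ∈ range b, (a + 1 - k) = NN (b - k) := by
  induction b with
  | zero => simp [NN]
  | succ b ih =>
    rw [Finset.sum_range_succ, ih]
    rcases Nat.lt_or_ge b k with h | h
    · rw [show b + 1 - k = 0 by omega, show b - k = 0 by omega, Nat.add_zero]
    · rw [show b + 1 - k = (b - k) + 1 by omega, NN_succ]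

theorem sum_down {b w : ℕ} (k : ℕ) (h : b ≤ w) : ∑ j ∈ range w, (b - j - k) = NN (b - k) := by
  have h1 : ∑ j ∈ range w, (b - j - k) = ∑ j ∈ range b, (b - j - k) := by
    refine (Finset.sum_subset (Finset.range_subset_range.2 h) fun j _ hj => ?_).symm
    rw [Finset.mem_range] at hj
    omega
  rw [h1, ← sum_up, ← Finset.sum_range_reflect]
  refine Finset.sum_congr rfl fun j hj => ?_
  rw [Finset.mem_range] at hj
  omega

theorem mgc_st (b k : ℕ) : ((mgc b (st b)).map (fun s => s - k)).sum = NN (b - k) := by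
  have h1 : ((mgc b (st b)).map (fun s => s - k)).sum =
      ∑ a ∈ range b, ((a + 1) * (st b).count (a + 1) - k) := by
    unfold mgc
    rw [Multiset.map_map]
    rfl
  rw [h1, ← sum_up]
  refine Finset.sum_congr rfl fun a ha => ?_
  rw [Finset.mem_range] at ha
  rw [Multiset.count_eq_one_of_mem (st_nodup b) (mem_st.2 ⟨by omega, by omega⟩), Nat.mul_one]

/-- the item `t` lies in the interval `p` -/
def inI (p : ℕ × ℕ) (t : ℕ) : Prop := p.1 ≤ t ∧ t ≤ p.2

def his (I : List (ℕ × ℕ)) : List ℕ := I.map Prod.snd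
def los (I : List (ℕ × ℕ)) : List ℕ := I.map Prod.fst

def binI (b : ℕ) (I : List (ℕ × ℕ)) : Bool :=
  (Nat.ble I.length 1 && Nat.ble (his I).sum (NN b) && I.all (fun p => Nat.ble 1 p.1)) ||
  (Nat.ble (his I).sum (NN b) &&
    (List.range b).all (fun k => Nat.ble (NN (b - (k + 1))) (sbL (k + 1) (los I)))) ||
  (List.range (mxL (his I))).all (fun k => Nat.ble (sbL k (his I)) (NN (b - k)))

theorem sum_his : ∀ {I : List (ℕ × ℕ)} {L : List ℕ}, List.Forall₂ inI I L → ∀ k,
    sbL k L ≤ sbL k (his I) := by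
  intro I L h k
  induction h with
  | nil => exact le_rfl
  | cons h1 _ ih =>
    unfold sbL his at ih ⊢
    rw [List.map_cons, List.map_cons, List.map_cons, List.sum_cons, List.sum_cons]
    have := h1.2
    omega

theorem sum_los : ∀ {I : List (ℕ × ℕ)} {L : List ℕ}, List.Forall₂ inI I L → ∀ k,
    sbL k (los I) ≤ sbL k L := by
  intro I L h k
  induction h with
  | nil => exact le_rfl
  | cons h1 _ ih =>
    unfold sbL los at ih ⊢
    rw [List.map_cons, List.map_cons, List.map_cons, List.sum_cons, List.sum_cons]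
    have := h1.1
    omega

theorem sbL_z (L : List ℕ) : sbL 0 L = L.sum := by
  unfold sbL
  simp

theorem CC_binI {b : ℕ} {I : List (ℕ × ℕ)} (h : binI b I = true) {L : List ℕ}
    (hL : List.Forall₂ inI I L) : CC (st b) (L : Multiset ℕ) := by
  unfold binI at h
  simp only [Bool.or_eq_true, Bool.and_eq_true, List.all_eq_true, Nat.ble_eq,
    List.mem_range] at h
  have hs0 := sum_his hL 0
  rw [sbL_z, sbL_z] at hs0
  have hw : b ≤ (st b).sum := by
    rw [sum_st]
    exact self_NN b
  rcases h with (⟨⟨h1, h2⟩, h3⟩ | ⟨h1, h2⟩) | h1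
  · cases hL with
    | nil => exact CC_zero _
    | @cons p t I' L' hp hI =>
      cases hI with
      | nil =>
        refine CC_hook ?_ ?_
        · have := h3 p (List.mem_cons_self ..)
          exact le_trans this hp.1
        · have := hp.2
          simp [his] at h2
          omega
      | cons _ _ => simp at h1
  · refine CC_sc (N := b) (fun s hs => (mem_st.1 hs).2) (st_tr b) ?_ fun k hk => ?_
    · rw [Multiset.sum_coe, sum_st]
      omega
    · rw [mgc_st, sbL_coe]
      have h3 := sum_los hL k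
      rcases Nat.lt_or_ge k (b + 1) with h4 | h4
      · have h5 := h2 (k - 1) (by omega)
        rw [show k - 1 + 1 = k by omega] at h5
        omega
      · rw [show b - k = 0 by omega]
        simp [NN]
  · refine CC_dom (st_nodup b) fun k => ?_
    have h2 : ∑ j ∈ range (st b).sum, (rf (st b) j - k) = NN (b - k) := by
      simp only [rf_st]
      exact sum_down k hw
    rw [h2, sbL_coe]
    have h3 := sum_his hL k
    rcases Nat.lt_or_ge k (mxL (his I)) with h4 | h4
    · exact h3.trans (h1 k h4)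
    · rw [sbL_zero h4] at h3
      omega

theorem forall2_append {α β : Type*} {R : α → β → Prop} : ∀ {a b : List α} {w : List β},
    List.Forall₂ R (a ++ b) w → ∃ u v, w = u ++ v ∧ List.Forall₂ R a u ∧ List.Forall₂ R b v := by
  intro a
  induction a with
  | nil => intro b w h; exact ⟨[], w, rfl, List.Forall₂.nil, h⟩
  | cons x a ih =>
    intro b w h
    cases h with
    | @cons _ y _ w' hy hw =>
      obtain ⟨u, v, rfl, h1, h2⟩ := ih hw
      exact ⟨y :: u, v, rfl, List.Forall₂.cons hy h1, h2⟩

theorem CC_shelfI (s : List (ℕ × List (ℕ × ℕ))) (X : List ℕ) (h : ∀ p ∈ s, binI p.1 p.2 = true)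
    {L : List ℕ} (hL : List.Forall₂ inI (s.flatMap Prod.snd) L) :
    CC (shH (s.map Prod.fst) X : Multiset ℕ) (L : Multiset ℕ) := by
  have h1 : CC ((s.map (fun p => st p.1)).sum) (L : Multiset ℕ) := by
    induction s generalizing L with
    | nil =>
      cases hL
      exact CC_zero _
    | cons p s ih =>
      rw [List.flatMap_cons] at hL
      obtain ⟨u, v, rfl, h2, h3⟩ := forall2_append hL
      rw [List.map_cons, List.sum_cons, ← Multiset.coe_add]
      exact CC_add (CC_binI (h p (List.mem_cons_self ..)) h2)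
        (ih (fun q hq => h q (List.mem_cons_of_mem _ hq)) h3)
  have h2 : ∀ a ∈ (s.map (fun p => st p.1)).sum + (X : Multiset ℕ),
      a ≤ (s.map Prod.fst ++ X).foldr max 0 := by
    intro a ha
    rcases Multiset.mem_add.1 ha with ha | ha
    · clear h h1 hL
      induction s with
      | nil => simp at ha
      | cons p s ih =>
        rw [List.map_cons, List.sum_cons, Multiset.mem_add] at ha
        rw [List.map_cons, List.cons_append, List.foldr_cons]
        rcases ha with h | h
        · exact le_trans (mem_st.1 h).2 (le_max_left _ _)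
        · exact le_trans (ih (Multiset.mem_add.2 (Or.inl h)) h) (le_max_right _ _)
    · exact foldr_max (List.mem_append_right _ (Multiset.mem_coe.1 ha))
  have h3 : (shH (s.map Prod.fst) X : Multiset ℕ) =
      cj ((s.map Prod.fst ++ X).foldr max 0) ((s.map (fun p => st p.1)).sum + (X : Multiset ℕ)) := by
    unfold shH cj
    rw [← Multiset.map_coe]
    refine Multiset.map_congr rfl fun r hr => ?_
    clear hr h h1 h2 hL
    rw [rf_add]
    congr 1
    · induction s with
      | nil => simp [rf_zero]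
      | cons p s ih =>
        rw [List.map_cons, List.map_cons, List.map_cons, List.sum_cons, List.sum_cons, rf_add, rf_st,
          ih]
    · induction X with
      | nil => simp [rf_zero]
      | cons p s ih => rw [List.map_cons, List.sum_cons, ← Multiset.cons_coe, rf_cons, ih]
  rw [h3]
  exact (CC_cj h2).2 (CC_mono _ h1)

theorem CC_shelvesI (sh : List (List (ℕ × List (ℕ × ℕ)) × List ℕ))
    (h : ∀ s ∈ sh, ∀ p ∈ s.1, binI p.1 p.2 = true) {L : List ℕ}
    (hL : List.Forall₂ inI (sh.flatMap (fun s => s.1.flatMap Prod.snd)) L) :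
    CC ((sh.flatMap (fun s => shH (s.1.map Prod.fst) s.2) : List ℕ) : Multiset ℕ)
      (L : Multiset ℕ) := by
  induction sh generalizing L with
  | nil =>
    cases hL
    exact CC_zero _
  | cons s sh ih =>
    rw [List.flatMap_cons] at hL
    obtain ⟨u, v, rfl, h2, h3⟩ := forall2_append hL
    rw [List.flatMap_cons, ← Multiset.coe_add, ← Multiset.coe_add]
    exact CC_add (CC_shelfI s.1 s.2 (h s (List.mem_cons_self ..)) h2)
      (ih (fun q hq => h q (List.mem_cons_of_mem _ hq)) h3)

/-- column heights of a shelf, faster form -/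
def shF (bs X : List ℕ) : List ℕ :=
  (List.range (mxL (bs ++ X))).map
    (fun r => Nat.add (bs.foldr (fun b a => Nat.add (Nat.sub b r) a) 0)
      (X.foldr (fun x a => Nat.add (Nat.sub (Nat.sub x r) (Nat.sub (Nat.sub x r) 1)) a) 0))

theorem foldr_sum (L : List ℕ) (f : ℕ → ℕ) : L.foldr (fun b a => Nat.add (f b) a) 0 = (L.map f).sum := by
  induction L with
  | nil => rfl
  | cons a L ih => rw [List.foldr_cons, ih, List.map_cons, List.sum_cons]; rfl

theorem mxL_foldr (L : List ℕ) : mxL L = L.foldr max 0 := by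
  unfold mxL
  induction L with
  | nil => rfl
  | cons a L ih => rw [List.foldr_cons, List.foldr_cons, ← ih]; omega

theorem shF_eq (bs X : List ℕ) : shF bs X = shH bs X := by
  unfold shF shH
  rw [mxL_foldr]
  refine List.map_congr_left fun r _ => ?_
  rw [foldr_sum, foldr_sum]
  have h1 : X.map (fun x => Nat.sub (Nat.sub x r) (Nat.sub (Nat.sub x r) 1)) =
      X.map (fun x => if r < x then 1 else 0) := by
    refine List.map_congr_left fun x _ => ?_
    show x - r - (x - r - 1) = _
    split_ifs <;> omega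
  rw [h1]
  rfl

/-- membership, faster form -/
def memF (H : List ℕ) (h : ℕ) : Bool := H.any (fun x => Nat.beq x h)

theorem memF_eq (H : List ℕ) (h : ℕ) : memF H h = H.contains h := by
  unfold memF
  rw [Bool.eq_iff_iff, List.any_eq_true, List.contains_iff_mem]
  constructor
  · rintro ⟨x, hx, he⟩
    rw [← Nat.eq_of_beq_eq_true he]
    exact hx
  · intro hx
    exact ⟨h, hx, Nat.beq_refl h⟩

/-- sum of `min s i` -/
def sumF (i : ℕ) (C : List ℕ) : ℕ := C.foldr (fun s a => Nat.add (Nat.sub s (Nat.sub s i)) a) 0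

theorem sumF_eq (i : ℕ) (C : List ℕ) : sumF i C = (C.map (fun s => min s i)).sum := by
  unfold sumF
  rw [foldr_sum (f := fun s => Nat.sub s (Nat.sub s i))]
  congr 1
  refine List.map_congr_left fun s _ => ?_
  show s - (s - i) = _
  omega

/-- test of one node: shelves `sh`, threshold `τ` -/
def nodeI (c : ℕ) (sh : List (List (ℕ × List (ℕ × ℕ)) × List ℕ)) (τ i0 : ℕ) (T : List (ℕ × ℕ))
    (κ : ℕ) : Bool :=
  let H := sh.flatMap (fun s => shF (s.1.map Prod.fst) s.2)
  let C := (stl c).filter (fun h => !(memF H h))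
  sh.all (fun s => s.1.all (fun p => binI p.1 p.2)) &&
    (sh.flatMap (fun s => s.1.flatMap Prod.snd)).isPerm T && Nat.beq (H.length + C.length) c &&
    Nat.ble 1 τ && Nat.ble (2 * κ) (sumF c C) &&
    Nat.ble (i0 * τ) (sumF i0 C) && (Nat.ble κ i0 || Nat.ble (κ + (i0 + 1)) (sumF (i0 + 1) C))

theorem short_conc {C : Multiset ℕ} {τ κ i0 : ℕ} (h1 : i0 * τ ≤ ∑ r ∈ range i0, rf C r)
    (h2 : κ ≤ i0 ∨ κ + (i0 + 1) ≤ ∑ r ∈ range (i0 + 1), rf C r) (h3 : 2 * κ ≤ C.sum) :
    ∀ i ≤ κ, min (i * τ) (κ + i) ≤ ∑ r ∈ range i, rf C r := by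
  intro i hi
  rcases Nat.lt_or_ge i0 i with h4 | h4
  · refine (min_le_right _ _).trans ?_
    have h5 : κ + (i0 + 1) ≤ ∑ r ∈ range (i0 + 1), rf C r := h2.resolve_left (by omega)
    rcases Nat.eq_zero_or_pos (rf C (i - 1)) with h6 | h6
    · have h7 : ∑ r ∈ range i, rf C r = C.sum := by
        rw [sum_rf]
        conv_rhs => rw [← Multiset.map_id C]
        refine congrArg Multiset.sum (Multiset.map_congr rfl fun s hs => ?_)
        unfold rf at h6
        rw [Multiset.card_eq_zero, Multiset.filter_eq_nil] at h6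
        have := h6 s hs
        exact min_eq_left (by omega)
      omega
    · have h7 : ∀ d, i0 + 1 + d ≤ i → κ + (i0 + 1 + d) ≤ ∑ r ∈ range (i0 + 1 + d), rf C r := by
        intro d
        induction d with
        | zero => intro _; exact h5
        | succ d ih =>
          intro hd
          have h8 := ih (by omega)
          have h9 := rf_anti C (show i0 + 1 + d ≤ i - 1 by omega)
          rw [show i0 + 1 + (d + 1) = i0 + 1 + d + 1 by ring, Finset.sum_range_succ]
          omega
      have h8 := h7 (i - (i0 + 1)) (by omega)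
      rw [show i0 + 1 + (i - (i0 + 1)) = i by omega] at h8
      exact h8
  · refine (min_le_left _ _).trans ?_
    rcases Nat.eq_zero_or_pos i with h5 | h5
    · subst h5
      simp
    · -- concavity
      obtain ⟨d, rfl⟩ := Nat.exists_eq_add_of_le h4
      have h6 : i * rf C i ≤ ∑ r ∈ range i, rf C r := by
        have h7 : ∑ _r ∈ range i, rf C i ≤ ∑ r ∈ range i, rf C r :=
          Finset.sum_le_sum fun r hr => rf_anti C (Finset.mem_range.1 hr).le
        rwa [Finset.sum_const, Finset.card_range, smul_eq_mul] at h7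
      have h8 : ∑ r ∈ range (i + d), rf C r ≤ ∑ r ∈ range i, rf C r + d * rf C i := by
        rw [Finset.sum_range_add]
        refine Nat.add_le_add_left ?_ _
        have h7 : ∑ r ∈ range d, rf C (i + r) ≤ ∑ _r ∈ range d, rf C i :=
          Finset.sum_le_sum fun r _ => rf_anti C (Nat.le_add_right _ _)
        rwa [Finset.sum_const, Finset.card_range, smul_eq_mul] at h7
      set P := ∑ r ∈ range i, rf C r with hP
      have h9 : i * ((i + d) * τ) ≤ (i + d) * P := by
        calc i * ((i + d) * τ) ≤ i * (P + d * rf C i) := Nat.mul_le_mul_left _ (h1.trans h8)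
          _ = i * P + d * (i * rf C i) := by ring
          _ ≤ i * P + d * P := Nat.add_le_add_left (Nat.mul_le_mul_left _ h6) _
          _ = (i + d) * P := by ring
      have h10 : (i + d) * (i * τ) ≤ (i + d) * P := by
        calc (i + d) * (i * τ) = i * ((i + d) * τ) := by ring
          _ ≤ _ := h9
      exact Nat.le_of_mul_le_mul_left h10 (by omega)

theorem length_perm {c : ℕ} {H : List ℕ}
    (h : H.length + ((stl c).filter (fun h => !(H.contains h))).length = c) :
    (H ++ (stl c).filter (fun h => !(H.contains h))).Perm (stl c) := by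
  have h1 := List.filter_append_perm (fun h => H.contains h) (stl c)
  have h2 : (stl c).length = c := by
    unfold stl
    rw [List.length_map, List.length_range]
  have h3 := h1.length_eq
  rw [List.length_append, h2] at h3
  have h4 : (stl c).Nodup := by
    unfold stl
    exact (List.nodup_range).map (fun a b h => by simpa using h)
  have h5 : ((stl c).filter (fun h => H.contains h)).Subperm H :=
    List.subperm_of_subset (h4.filter _) fun x hx => by
      rw [List.mem_filter, List.contains_iff_mem] at hx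
      exact hx.2
  have h6 := h5.perm_of_length_le (by omega)
  exact (List.Perm.append_right _ h6.symm).trans h1

/-- what a stack entry claims -/
def OKi (c : ℕ) (o : List (ℕ × ℕ) × ℕ × ℕ) : Prop :=
  ∀ (T : List ℕ) (U : Multiset ℕ), List.Forall₂ inI o.1 T → (∀ u ∈ U, 2 ≤ u ∧ u ≤ o.2.1) →
    (U.map (fun s => s - 1)).sum ≤ o.2.2 → CC (st c) ((T : Multiset ℕ) + U)

/-- the children; `hs` are the upper ends of the intervals -/
def chilI (o : List (ℕ × ℕ) × ℕ × ℕ) : ℕ → List ℕ → List (List (ℕ × ℕ) × ℕ × ℕ)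
  | _, [] => []
  | lo, h :: hs => ((lo + 1, h) :: o.1, h, o.2.2 - lo) :: chilI o h hs

def lastI : ℕ → List ℕ → ℕ
  | lo, [] => lo
  | _, h :: hs => lastI h hs

theorem mem_chilI (o : List (ℕ × ℕ) × ℕ × ℕ) : ∀ (hs : List ℕ) (lo s : ℕ), lo < s →
    s ≤ lastI lo hs → ∃ lo' h, lo' + 1 ≤ s ∧ s ≤ h ∧
      ((lo' + 1, h) :: o.1, h, o.2.2 - lo') ∈ chilI o lo hs := by
  intro hs
  induction hs with
  | nil => intro lo s h1 h2; exact absurd h2 (by unfold lastI; omega)
  | cons h hs ih =>
    intro lo s h1 h2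
    rcases Nat.lt_or_ge h s with h3 | h3
    · obtain ⟨lo', h', h4, h5, h6⟩ := ih h s h3 h2
      exact ⟨lo', h', h4, h5, List.mem_cons_of_mem _ h6⟩
    · exact ⟨lo, h, h1, h3, List.mem_cons_self ..⟩

theorem OKi_step {c : ℕ} {sh : List (List (ℕ × List (ℕ × ℕ)) × List ℕ)} {τ i0 : ℕ} {hs : List ℕ}
    {o : List (ℕ × ℕ) × ℕ × ℕ} (h : nodeI c sh τ i0 o.1 o.2.2 = true)
    (hlast : min o.2.1 (o.2.2 + 1) ≤ lastI τ hs) (hch : ∀ q ∈ chilI o τ hs, OKi c q) : OKi c o := by
  classical
  intro T U hT hU hk
  unfold nodeI at h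
  simp only [Bool.and_eq_true, shF_eq, memF_eq] at h
  obtain ⟨⟨⟨⟨⟨⟨h1, h2⟩, h3⟩, h4⟩, h40⟩, h5⟩, h50⟩ := h
  have hτ : 1 ≤ τ := Nat.le_of_ble_eq_true h4
  by_cases hall : ∀ u ∈ U, u ≤ τ
  · -- leaf
    set H := sh.flatMap (fun s => shH (s.1.map Prod.fst) s.2) with hH
    set C := (stl c).filter (fun h => !(H.contains h)) with hC
    have h6 : (H : Multiset ℕ) + (C : Multiset ℕ) = st c := by
      rw [Multiset.coe_add, ← stl_st]
      exact Multiset.coe_eq_coe.2 (length_perm (Nat.eq_of_beq_eq_true h3))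
    obtain ⟨w, hw1, hw2⟩ := List.perm_comp_forall₂ (List.isPerm_iff.1 h2) hT
    have h8 := CC_shelvesI sh (fun s hs p hp => List.all_eq_true.1 (List.all_eq_true.1 h1 s hs) p hp)
      hw1
    rw [← hH, Multiset.coe_eq_coe.2 hw2] at h8
    rw [← h6]
    refine CC_add h8 ?_
    have hCn : (C : Multiset ℕ).Nodup := by
      have := st_nodup c
      rw [← h6] at this
      exact (Multiset.nodup_add.1 this).2.1
    have hCc : ∀ s ∈ C, s ≤ c := by
      intro s hs
      have h12 : s ∈ stl c := (List.mem_filter.1 hs).1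
      have h13 : s ∈ st c := by rw [← stl_st]; exact Multiset.mem_coe.2 h12
      exact (mem_st.1 h13).2
    have hsm : ∀ i, ∑ r ∈ range i, rf (C : Multiset ℕ) r = sumF i C := by
      intro i
      rw [sum_rf, sumF_eq, Multiset.map_coe, Multiset.sum_coe]
    have hcs : sumF c C = (C : Multiset ℕ).sum := by
      rw [sumF_eq, Multiset.sum_coe]
      have h11 : C.map (fun s => min s c) = C.map id :=
        List.map_congr_left fun s hs => min_eq_left (hCc s hs)
      rw [h11, List.map_id]
    refine CC_short hCn (t := τ) (κ := o.2.2) (short_conc (i0 := i0) ?_ ?_ ?_)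
      (fun u hu => ⟨(hU u hu).1, hall u hu⟩) hk
    · rw [hsm]
      exact Nat.le_of_ble_eq_true h5
    · rw [Bool.or_eq_true, Nat.ble_eq, Nat.ble_eq] at h50
      rw [hsm]
      exact h50
    · rw [← hcs]
      exact Nat.le_of_ble_eq_true h40
  · push Not at hall
    obtain ⟨u0, hu0, hu1⟩ := hall
    have hne : U.toFinset.Nonempty := ⟨u0, Multiset.mem_toFinset.2 hu0⟩
    obtain ⟨s, hs', hmax⟩ := Finset.exists_max_image U.toFinset id hne
    rw [Multiset.mem_toFinset] at hs'
    have hmax' : ∀ u ∈ U, u ≤ s := fun u hu => hmax u (Multiset.mem_toFinset.2 hu)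
    have hs2 := hU s hs'
    have hsτ : τ < s := lt_of_lt_of_le hu1 (hmax' u0 hu0)
    obtain ⟨V, hV⟩ := Multiset.exists_cons_of_mem hs'
    rw [hV, Multiset.map_cons, Multiset.sum_cons] at hk
    obtain ⟨lo, hh, h6, h7, h8⟩ := mem_chilI o hs τ s hsτ (by
      have := hs2.2
      omega)
    have h9 := hch _ h8 (s :: T) V (List.Forall₂.cons ⟨h6, h7⟩ hT) (fun u hu => ?_)
      (by show _ ≤ o.2.2 - lo; omega)
    · rw [hV]
      have h10 : (((s :: T : List ℕ) : Multiset ℕ)) + V = (T : Multiset ℕ) + s ::ₘ V := by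
        rw [← Multiset.cons_coe, Multiset.cons_add, Multiset.add_cons]
      rw [← h10]
      exact h9
    · have hu' : u ∈ U := by rw [hV]; exact Multiset.mem_cons_of_mem hu
      exact ⟨(hU u hu').1, (hmax' u hu').trans h7⟩

/-- the checker -/
def runI (c : ℕ) : List (List (List (ℕ × List (ℕ × ℕ)) × List ℕ) × ℕ × ℕ × List ℕ) →
    List (List (ℕ × ℕ) × ℕ × ℕ) → Bool
  | _, [] => true
  | [], _ :: _ => false
  | nd :: nds, o :: os => nodeI c nd.1 nd.2.1 nd.2.2.1 o.1 o.2.2 &&
      Nat.ble (o.2.1 - (o.2.1 - (o.2.2 + 1))) (lastI nd.2.1 nd.2.2.2) &&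
      runI c nds (chilI o nd.2.1 nd.2.2.2 ++ os)

theorem runI_spec (c : ℕ) : ∀ (nds : List (List (List (ℕ × List (ℕ × ℕ)) × List ℕ) × ℕ × ℕ × List ℕ))
    (os : List (List (ℕ × ℕ) × ℕ × ℕ)), runI c nds os = true → ∀ o ∈ os, OKi c o := by
  intro nds
  induction nds with
  | nil =>
    intro os h o ho
    cases os with
    | nil => simp at ho
    | cons a os => simp [runI] at h
  | cons nd nds ih =>
    intro os h o ho
    cases os with
    | nil => simp at ho
    | cons a os =>
      unfold runI at h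
      rw [Bool.and_eq_true, Bool.and_eq_true, Nat.ble_eq] at h
      have h1 := ih _ h.2
      rcases List.mem_cons.1 ho with h2 | h2
      · subst h2
        exact OKi_step h.1.1 (by have := h.1.2; omega) fun q hq => h1 q (List.mem_append_left _ hq)
      · exact h1 o (List.mem_append_right _ h2)

theorem kc_of_itree {c K : ℕ}
    (nds : List (List (List (ℕ × List (ℕ × ℕ)) × List ℕ) × ℕ × ℕ × List ℕ))
    (h : runI c nds [([], K + 1, K)] = true) : KC c K := by
  intro S hS hSK
  have h1 := runI_spec c nds _ h ([], K + 1, K) (List.mem_singleton.2 rfl) [] S List.Forall₂.nil ?_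
    hSK
  · simpa using h1
  · intro s hs
    refine ⟨hS s hs, ?_⟩
    have h2 : s - 1 ≤ (S.map (fun s => s - 1)).sum :=
      Multiset.le_sum_of_mem (Multiset.mem_map_of_mem (fun s => s - 1) hs)
    show s ≤ K + 1
    omega

end Pool.MP322
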