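import Pool.Agent.Lib.MP_322c5f_al.SG31

/-! (C), part 22: interval trees for `c = 14, 15`. -/

set_option autoImplicit false

namespace Pool.MP322

def it_14 : List (List (List (ℕ × List (ℕ × ℕ)) × List ℕ) × ℕ × ℕ × List ℕ) := [
  ([],12,5,[15,21,28,30,32,36,38,45,53]), ([([(5,[(13,15)])],[])],9,6,[10,15]),
  ([([(5,[(13,15)]),(4,[(10,10)])],[])],8,6,[10]),
  ([([(5,[(13,15)]),(4,[(10,10)]),(4,[(9,10)])],[])],9,2,[10]),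
  ([([(7,[(13,15),(10,10)]),(6,[(9,10),(10,10)])],[])],7,2,[10]),
  ([([(8,[(13,15),(10,10),(9,10)]),(6,[(10,10),(8,10)])],[])],6,3,[8]),
  ([([(10,[(13,15),(10,10),(9,10),(10,10),(8,10)]),(4,[(7,8)])],[])],2,1,[]),
  ([([(5,[(13,15)]),(5,[(11,15)])],[])],8,4,[10,13,14,15]),
  ([([(5,[(13,15)]),(5,[(11,15)]),(4,[(9,10)])],[])],8,4,[10]),
  ([([(8,[(13,15),(9,10),(9,10)]),(5,[(11,15)])],[])],6,4,[10]),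
  ([([(5,[(13,15)]),(5,[(11,15)]),(4,[(9,10)])],[]),([(4,[(9,10)]),(4,[(7,10)])],[4,3,2,1])],4,5,[6,9]),
  ([([(5,[(13,15)]),(5,[(11,15)]),(4,[(9,10)])],[]),([(4,[(9,10)]),(4,[(7,10)]),(3,[(5,6)])],[4])],5,1,[]),
  ([([(5,[(13,15)]),(5,[(11,15)]),(4,[(9,10)])],[]),([(4,[(9,10)]),(4,[(7,10)]),(4,[(7,9)])],[])],3,2,[]),
  ([([(7,[(13,15),(11,13)]),(5,[(11,15)])],[])],7,3,[10,13]),
  ([([(5,[(13,15)]),(5,[(11,15)])],[]),([(5,[(11,13)]),(4,[(8,10)])],[])],4,11,[6,10]),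
  ([([(5,[(13,15)]),(5,[(11,15)])],[]),([(5,[(11,13)]),(4,[(8,10)]),(3,[(5,6)])],[3,2])],4,5,[6]),
  ([([(7,[(13,15),(11,13)]),(5,[(11,15)])],[]),([(4,[(8,10)]),(3,[(5,6)]),(3,[(5,6)])],[4,4,3,2])],3,5,[6]),
  ([([(7,[(13,15),(11,13)]),(7,[(5,6),(5,6),(4,6)])],[]),([(5,[(11,15)]),(4,[(8,10)])],[])],2,2,[3]),
  ([([(7,[(13,15),(11,13)]),(7,[(5,6),(5,6),(4,6),(3,3)])],[]),([(5,[(11,15)]),(4,[(8,10)])],[])],1,0,[]),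
  ([([(7,[(13,15),(11,13)]),(5,[(11,15)])],[]),([(4,[(8,10)]),(4,[(7,10)])],[4])],3,7,[6,8]),
  ([([(7,[(13,15),(11,13)]),(5,[(11,15)])],[]),([(4,[(8,10)]),(4,[(7,10)]),(3,[(4,6)])],[4,3,2])],3,4,[4,5]),
  ([([(7,[(13,15),(11,13)]),(5,[(11,15)])],[]),([(4,[(8,10)]),(4,[(7,10)]),(4,[(4,6),(4,4)])],[3,2])],2,1,[]),
  ([([(7,[(13,15),(11,13)]),(5,[(11,15)])],[]),([(4,[(8,10)]),(4,[(7,10)]),(3,[(4,6)])],[4,3,2]),([(3,[(5,5)])],[3,3,3,3,2,2,2,1,1,1])],1,0,[]),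
  ([([(8,[(13,15),(11,13),(7,8)]),(5,[(11,15)])],[]),([(4,[(8,10)]),(4,[(7,10)])],[4,4])],2,1,[]),
  ([([(5,[(13,15)]),(5,[(11,15)])],[]),([(5,[(11,13)]),(5,[(11,13)])],[5])],3,10,[6,8,10,11]),
  ([([(6,[(13,15),(4,6)]),(5,[(11,15)])],[]),([(5,[(11,13)]),(5,[(11,13)])],[])],3,7,[6]),
  ([([(7,[(13,15),(11,13)]),(7,[(4,6),(4,6)])],[]),([(5,[(11,15)]),(5,[(11,13)])],[5])],1,4,[3,5]),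
  ([([(7,[(13,15),(11,13)]),(7,[(4,6),(4,6),(2,3)])],[]),([(5,[(11,15)]),(5,[(11,13)])],[5])],1,3,[2,3]),
  ([([(7,[(11,13),(11,13),(2,2)]),(6,[(13,15),(4,6)])],[]),([(5,[(11,15)]),(3,[(4,6)]),(2,[(2,3)])],[5,4,2,1])],2,2,[]),
  ([([(7,[(13,15),(11,13)]),(7,[(4,6),(4,6),(2,3),(3,3)])],[]),([(5,[(11,15)]),(5,[(11,13)])],[5])],2,1,[]),
  ([([(7,[(13,15),(11,13)]),(7,[(4,6),(4,6),(4,5)])],[]),([(5,[(11,15)]),(5,[(11,13)])],[5])],2,1,[]),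
  ([([(6,[(11,13),(7,8)]),(5,[(13,15)])],[]),([(5,[(11,15)]),(5,[(11,13)])],[])],3,4,[5]),
  ([([(7,[(13,15),(11,13)]),(6,[(11,13),(7,8)])],[]),([(5,[(11,15)]),(3,[(4,5)])],[5,4])],2,1,[]),
  ([([(7,[(13,15),(11,13)]),(5,[(11,15)])],[]),([(5,[(11,13)]),(4,[(9,10)])],[5,5])],2,2,[3]),
  ([([(7,[(13,15),(11,13)]),(5,[(11,15)])],[]),([(5,[(11,13)]),(5,[(9,10),(3,3)])],[5])],1,0,[]),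
  ([([(7,[(13,15),(11,13)]),(5,[(11,15)])],[]),([(5,[(11,13)]),(5,[(11,11)])],[5])],1,0,[]),
  ([([(5,[(13,15)]),(5,[(11,15)])],[]),([(5,[(14,14)])],[4,3,2,1])],4,11,[6,8,10,14]),
  ([([(8,[(13,15),(14,14),(5,6)]),(5,[(11,15)])],[])],6,4,[]),
  ([([(5,[(13,15)]),(5,[(11,15)])],[]),([(5,[(14,14)]),(4,[(7,8)])],[])],4,11,[6,8]),
  ([([(5,[(13,15)]),(5,[(11,15)])],[]),([(5,[(14,14)]),(4,[(7,8)]),(3,[(5,6)])],[3,2])],4,5,[6]),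
  ([([(6,[(13,15),(5,6)]),(6,[(14,14),(5,6)])],[]),([(5,[(11,15)]),(4,[(7,8)])],[])],3,3,[4]),
  ([([(9,[(13,15),(14,14),(5,6),(5,6),(4,4)]),(5,[(11,15)])],[]),([(4,[(7,8)])],[4,4,4,4,3,2,1])],1,0,[]),
  ([([(9,[(13,15),(14,14),(7,8),(7,8)]),(5,[(11,15)])],[])],5,5,[6]),
  ([([(9,[(13,15),(14,14),(7,8),(7,8)]),(5,[(11,15)])],[]),([(3,[(6,6)])],[3,3,3,3,2,1])],1,0,[]),
  ([([(5,[(13,15)]),(5,[(11,15)])],[]),([(5,[(14,14)]),(4,[(9,10)])],[])],4,9,[6,10]),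
  ([([(9,[(13,15),(14,14),(9,10),(5,6)]),(5,[(11,15)])],[])],5,5,[6]),
  ([([(9,[(13,15),(14,14),(9,10),(5,6)]),(5,[(11,15)])],[]),([(3,[(6,6)])],[3,3,3,3,2,1])],1,0,[]),
  ([([(7,[(14,14),(9,10)]),(5,[(13,15)])],[]),([(5,[(11,15)]),(4,[(7,10)])],[5,5])],2,3,[3,4]),
  ([([(7,[(13,15),(9,10),(3,3)]),(5,[(11,15)])],[]),([(5,[(14,14)]),(4,[(7,10)])],[5,5])],2,1,[]),
  ([([(9,[(13,15),(14,14),(9,10),(4,4)]),(5,[(11,15)])],[]),([(4,[(7,10)])],[4,4,4,4,3,2,1])],1,0,[]),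
  ([([(5,[(13,15)]),(5,[(11,15)])],[]),([(5,[(14,14)]),(5,[(11,14)])],[5])],3,7,[6,8]),
  ([([(6,[(13,15),(4,6)]),(5,[(11,15)])],[]),([(5,[(14,14)]),(5,[(11,14)])],[])],3,4,[5]),
  ([([(7,[(14,14),(11,14)]),(6,[(13,15),(4,6)])],[]),([(5,[(11,15)]),(3,[(4,5)])],[5,4])],2,1,[]),
  ([([(7,[(14,14),(11,14)]),(5,[(13,15)])],[]),([(5,[(11,15)]),(4,[(7,8)])],[5,5])],2,1,[]),
  ([([(9,[(13,15),(11,15),(15,15)])],[])],5,10,[6,10,15]),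
  ([([(8,[(13,15),(15,15),(6,6)]),(5,[(11,15)])],[])],6,4,[]),
  ([([(9,[(13,15),(11,15),(15,15)]),(4,[(7,10)])],[])],5,6,[6,10]),
  ([([(5,[(13,15)]),(5,[(11,15)])],[]),([(5,[(15,15)]),(4,[(7,10)]),(3,[(6,6)])],[3,2])],4,5,[6]),
  ([([(9,[(13,15),(11,15),(15,15)]),(4,[(7,10)])],[]),([(3,[(6,6)]),(3,[(5,6)])],[3,3,3,3])],2,1,[]),
  ([([(9,[(13,15),(11,15),(15,15)]),(4,[(7,10)])],[]),([(4,[(7,10)])],[4,4,4,4,4,3,2,1])],1,4,[3,5]),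
  ([([(7,[(15,15),(7,10),(2,3)]),(5,[(13,15)])],[]),([(5,[(11,15)]),(4,[(7,10)])],[5,5])],2,3,[3]),
  ([([(8,[(13,15),(15,15),(2,3),(3,3)]),(5,[(11,15)])],[]),([(4,[(7,10)]),(4,[(7,10)])],[4,4])],2,1,[]),
  ([([(8,[(13,15),(15,15),(4,5)]),(5,[(11,15)])],[]),([(4,[(7,10)]),(4,[(7,10)])],[4,4])],2,1,[]),
  ([([(9,[(13,15),(11,15),(15,15)]),(5,[(11,15)])],[])],5,5,[6,7]),
  ([([(9,[(13,15),(11,15),(15,15)]),(5,[(11,15)])],[]),([(3,[(6,6)])],[3,3,3,3,2,1])],2,1,[]),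
  ([([(9,[(13,15),(11,15),(15,15)]),(5,[(11,15)])],[]),([(4,[(7,7)])],[4,4,4,4,3,2,1])],1,0,[]),
  ([([(6,[(16,21)])],[])],8,7,[10,15,21]), ([([(6,[(16,21)]),(4,[(9,10)])],[])],7,7,[10]),
  ([([(6,[(16,21)]),(4,[(9,10)]),(4,[(8,10)])],[])],8,3,[10]),
  ([([(6,[(16,21)]),(6,[(9,10),(8,10)])],[]),([(4,[(9,10)])],[3,2,1])],4,9,[6,10]),
  ([([(6,[(16,21)]),(6,[(9,10),(8,10)])],[]),([(4,[(9,10)]),(3,[(5,6)])],[])],4,9,[6]),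
  ([([(6,[(16,21)]),(6,[(9,10),(8,10)])],[]),([(4,[(9,10)]),(3,[(5,6)]),(3,[(5,6)])],[3,2,1])],4,3,[6]),
  ([([(6,[(16,21)]),(6,[(9,10),(8,10)])],[]),([(4,[(9,10)]),(3,[(5,6)]),(3,[(5,6)]),(3,[(5,6)])],[])],3,2,[]),
  ([([(6,[(16,21)]),(4,[(9,10)]),(4,[(8,10)])],[]),([(4,[(9,10)]),(4,[(7,10)])],[4,3,2,1])],4,4,[6,9]),
  ([([(6,[(16,21)]),(6,[(9,10),(8,10)])],[]),([(4,[(9,10)]),(4,[(7,10)]),(3,[(5,6)])],[4,3,2])],4,1,[5]),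
  ([([(6,[(16,21)]),(6,[(9,10),(8,10)])],[]),([(6,[(9,10),(5,6),(5,5)]),(4,[(7,10)])],[5])],1,0,[]),
  ([([(6,[(16,21)]),(6,[(9,10),(8,10)])],[]),([(4,[(9,10)]),(4,[(7,10)]),(4,[(7,9)])],[3,2])],3,2,[]),
  ([([(6,[(16,21)]),(5,[(11,15)])],[])],7,6,[10,12,13,15]),
  ([([(6,[(16,21)]),(5,[(11,15)])],[]),([(4,[(8,10)])],[4,3,2,1])],4,10,[6,7,10]),
  ([([(6,[(16,21)]),(5,[(11,15)])],[]),([(4,[(8,10)]),(3,[(5,6)])],[4])],4,10,[6]),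
  ([([(6,[(16,21)]),(5,[(11,15)])],[]),([(4,[(8,10)]),(3,[(5,6)]),(3,[(5,6)])],[4,3,2])],4,4,[6]),
  ([([(6,[(16,21)]),(5,[(11,15)])],[]),([(4,[(8,10)]),(3,[(5,6)]),(3,[(5,6)]),(3,[(5,6)])],[4])],4,4,[5,6]),
  ([([(6,[(16,21)]),(6,[(8,10),(5,6),(5,5)])],[]),([(5,[(11,15)]),(3,[(5,6)]),(3,[(5,6)])],[4,3,2])],3,4,[4,5]),
  ([([(6,[(16,21)]),(6,[(8,10),(5,6),(5,5)])],[]),([(5,[(11,15)]),(4,[(5,6),(4,4)]),(3,[(5,6)])],[3,2])],2,1,[]),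
  ([([(7,[(5,6),(5,6),(5,5)]),(6,[(16,21)])],[]),([(6,[(8,10),(5,6),(5,5)]),(5,[(11,15)])],[6])],1,0,[]),
  ([([(6,[(16,21)]),(6,[(11,15),(6,6)])],[]),([(4,[(8,10)]),(3,[(5,6)]),(3,[(5,6)]),(3,[(5,6)])],[])],4,3,[]),
  ([([(6,[(16,21)]),(5,[(11,15)])],[]),([(4,[(8,10)]),(4,[(7,7)])],[])],4,10,[6,7]),
  ([([(6,[(16,21)]),(5,[(11,15)])],[]),([(4,[(8,10)]),(4,[(7,7)]),(3,[(5,6)])],[3,2])],4,4,[6]),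
  ([([(6,[(16,21)]),(5,[(11,15)])],[]),([(4,[(8,10)]),(4,[(7,7)]),(3,[(5,6)]),(3,[(5,6)])],[])],4,4,[6]),
  ([([(7,[(16,21),(7,7)]),(7,[(5,6),(5,6),(5,6)])],[]),([(5,[(11,15)]),(4,[(8,10)])],[])],2,2,[3]),
  ([([(7,[(16,21),(7,7)]),(7,[(5,6),(5,6),(5,6),(3,3)])],[]),([(5,[(11,15)]),(4,[(8,10)])],[])],1,0,[]),
  ([([(7,[(16,21),(7,7)]),(5,[(11,15)])],[]),([(4,[(8,10)]),(4,[(7,7)])],[4])],3,8,[6,7]),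
  ([([(7,[(16,21),(7,7)]),(5,[(11,15)])],[]),([(4,[(8,10)]),(4,[(7,7)]),(3,[(4,6)])],[4,3,2])],3,5,[6]),
  ([([(6,[(16,21)]),(6,[(7,7),(7,7),(4,6)])],[]),([(5,[(11,15)]),(4,[(8,10)]),(3,[(4,6)])],[3,2])],3,2,[]),
  ([([(7,[(16,21),(7,7)]),(5,[(11,15)])],[]),([(4,[(8,10)]),(4,[(7,7)]),(4,[(7,7)])],[3,2])],3,2,[]),
  ([([(6,[(16,21)]),(5,[(11,15)])],[]),([(4,[(8,10)]),(4,[(8,10)])],[])],4,10,[6,7,8,10]),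
  ([([(6,[(16,21)]),(5,[(11,15)])],[]),([(4,[(8,10)]),(4,[(8,10)]),(3,[(5,6)])],[3,2])],4,4,[6]),
  ([([(6,[(16,21)]),(5,[(11,15)])],[]),([(4,[(8,10)]),(4,[(8,10)]),(3,[(5,6)]),(3,[(5,6)])],[])],4,4,[6]),
  ([([(6,[(16,21)]),(5,[(11,15)])],[]),([(4,[(8,10)]),(4,[(8,10)]),(3,[(5,6)]),(3,[(5,6)])],[]),([(3,[(5,6)])],[3,3,3,2,2,2,1,1,1])],1,1,[2]),
  ([([(6,[(16,21)]),(5,[(11,15)])],[]),([(4,[(8,10)]),(4,[(8,10)]),(3,[(5,6)]),(3,[(5,6)])],[]),([(3,[(5,6)]),(2,[(2,2)])],[3,3,3,2,2,1,1])],1,0,[]),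
  ([([(7,[(16,21),(7,7)]),(5,[(11,15)])],[]),([(4,[(8,10)]),(4,[(8,10)])],[4])],3,7,[6,7]),
  ([([(7,[(16,21),(7,7)]),(5,[(11,15)])],[]),([(4,[(8,10)]),(4,[(8,10)]),(3,[(4,6)])],[4,3,2])],3,4,[4,5]),
  ([([(7,[(16,21),(7,7)]),(5,[(11,15)])],[]),([(4,[(8,10)]),(4,[(8,10)]),(4,[(4,6),(4,4)])],[3,2])],2,1,[]),
  ([([(7,[(16,21),(7,7)]),(5,[(11,15)])],[]),([(4,[(8,10)]),(4,[(8,10)]),(3,[(4,6)])],[4,3,2]),([(3,[(5,5)])],[3,3,3,3,2,2,2,1,1,1])],1,0,[]),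
  ([([(7,[(16,21),(7,7)]),(5,[(11,15)])],[]),([(4,[(8,10)]),(4,[(8,10)]),(4,[(7,7)])],[3,2])],2,1,[]),
  ([([(7,[(8,10),(8,10),(8,8)]),(6,[(16,21)])],[]),([(5,[(11,15)])],[5,4,3,2,1])],2,6,[3,6,7]),
  ([([(6,[(16,21)]),(6,[(8,10),(8,8),(3,3)])],[]),([(5,[(11,15)]),(4,[(8,10)])],[])],3,4,[]),
  ([([(7,[(8,10),(8,10),(8,8)]),(6,[(16,21)])],[]),([(5,[(11,15)]),(3,[(4,6)])],[5,4])],2,3,[3,4]),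
  ([([(7,[(8,10),(8,10),(8,8)]),(6,[(16,21)])],[]),([(5,[(11,15)]),(3,[(4,6)]),(2,[(3,3)])],[5,4,2,1])],2,1,[]),
  ([([(7,[(8,10),(8,10),(8,8)]),(6,[(16,21)])],[]),([(5,[(11,15)]),(4,[(4,6),(4,4)])],[5])],1,0,[]),
  ([([(7,[(16,21),(7,7)]),(7,[(8,10),(8,10),(8,8)])],[]),([(5,[(11,15)])],[4,3,2,1])],1,0,[]),
  ([([(6,[(16,21)]),(6,[(8,10),(9,10)])],[]),([(5,[(11,15)]),(4,[(8,10)])],[])],3,5,[6]),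
  ([([(6,[(16,21)]),(6,[(8,10),(9,10)])],[]),([(5,[(11,15)]),(4,[(8,10)]),(3,[(4,6)])],[3,2])],3,2,[]),
  ([([(6,[(16,21)]),(5,[(11,15)])],[]),([(5,[(11,12)])],[5,4,3,2,1])],3,12,[6,8,10,11,12]),
  ([([(6,[(16,21)]),(5,[(11,15)])],[]),([(5,[(11,12)]),(3,[(4,6)])],[5,4])],3,12,[5,6]),
  ([([(6,[(16,21)]),(6,[(4,6),(4,5)])],[]),([(5,[(11,15)]),(5,[(11,12)])],[5])],2,11,[3,5]),
  ([([(6,[(16,21)]),(6,[(11,12),(4,6),(3,3)])],[]),([(5,[(11,15)]),(3,[(4,5)])],[4])],3,9,[]),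
  ([([(7,[(4,6),(4,5),(4,5)]),(6,[(16,21)])],[]),([(5,[(11,15)]),(5,[(11,12)])],[])],2,8,[3,4,5]),
  ([([(6,[(16,21)]),(6,[(11,12),(4,6),(3,3)])],[]),([(5,[(11,15)]),(4,[(4,5),(4,5)])],[])],3,6,[]),
  ([([(6,[(16,21)]),(6,[(11,12),(4,5),(4,4)])],[]),([(5,[(11,15)]),(3,[(4,6)]),(3,[(4,5)])],[4,3,2])],3,5,[4]),
  ([([(6,[(16,21)]),(6,[(11,12),(4,5),(4,4)])],[]),([(5,[(11,15)]),(4,[(4,6),(4,4)]),(3,[(4,5)])],[3,2])],3,2,[]),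
  ([([(7,[(4,6),(4,5),(4,5),(5,5)]),(6,[(16,21)])],[]),([(5,[(11,15)]),(5,[(11,12)])],[])],2,4,[3,4,5]),
  ([([(6,[(16,21)]),(6,[(11,12),(4,6),(3,3)])],[]),([(5,[(11,15)]),(5,[(4,5),(4,5),(5,5)])],[5])],3,1,[]),
  ([([(6,[(16,21)]),(6,[(11,12),(4,5),(4,4)])],[]),([(5,[(11,15)]),(4,[(4,5),(5,5)]),(3,[(4,6)])],[3,2])],2,1,[]),
  ([([(7,[(11,12),(4,6),(5,5),(5,5)]),(6,[(16,21)])],[]),([(5,[(11,15)]),(4,[(4,5),(4,5)])],[5])],1,0,[]),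
  ([([(6,[(16,21)]),(6,[(11,15),(6,6)])],[]),([(5,[(11,12)]),(3,[(4,6)])],[4])],3,9,[5,6]),
  ([([(6,[(16,21)]),(6,[(11,15),(6,6)])],[]),([(5,[(11,12)]),(3,[(4,6)]),(3,[(4,5)])],[4,3,2])],3,5,[5]),
  ([([(6,[(16,21)]),(6,[(11,15),(6,6)])],[]),([(5,[(11,12)]),(4,[(4,5),(4,5)]),(3,[(4,6)])],[3,2])],3,3,[4]),
  ([([(7,[(11,12),(4,6),(6,6),(4,4)]),(6,[(16,21)])],[]),([(5,[(11,15)]),(4,[(4,5),(4,5)])],[5])],1,0,[]),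
  ([([(6,[(16,21)]),(6,[(11,15),(6,6)])],[]),([(5,[(11,12)]),(3,[(4,6)]),(3,[(6,6)])],[4,3,2])],3,4,[5]),
  ([([(6,[(16,21)]),(6,[(11,15),(6,6)])],[]),([(6,[(11,12),(6,6)]),(6,[(4,6),(4,5)])],[6])],2,1,[]),
  ([([(6,[(16,21)]),(6,[(11,12),(7,8)])],[]),([(5,[(11,15)])],[4,3,2,1])],3,11,[6,8]),
  ([([(6,[(16,21)]),(6,[(11,12),(7,8)])],[]),([(5,[(11,15)]),(3,[(4,6)])],[4])],3,8,[6]),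
  ([([(6,[(16,21)]),(6,[(11,12),(7,8)])],[]),([(5,[(11,15)]),(3,[(4,6)]),(3,[(4,6)])],[4,3,2])],3,5,[4,6]),
  ([([(6,[(16,21)]),(6,[(11,12),(7,8)])],[]),([(5,[(11,15)]),(4,[(4,6),(4,4)]),(3,[(4,6)])],[3,2])],3,2,[]),
  ([([(7,[(4,6),(4,6),(5,6)]),(6,[(16,21)])],[]),([(6,[(11,12),(7,8)]),(5,[(11,15)])],[6])],1,1,[2]),
  ([([(7,[(11,12),(7,8),(5,6),(2,2)]),(7,[(4,6),(4,6)])],[]),([(6,[(16,21)]),(5,[(11,15)])],[])],1,0,[]),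
  ([([(6,[(16,21)]),(6,[(11,12),(7,8)])],[]),([(5,[(11,15)]),(4,[(7,8)])],[])],3,5,[6]),
  ([([(6,[(16,21)]),(6,[(11,12),(7,8)])],[]),([(5,[(11,15)]),(4,[(7,8)]),(3,[(4,6)])],[3,2])],3,2,[]),
  ([([(6,[(16,21)]),(5,[(11,15)])],[]),([(5,[(11,12)]),(4,[(9,10)])],[5])],3,9,[6,8,10]),
  ([([(7,[(11,12),(9,10),(4,6)]),(6,[(16,21)])],[]),([(5,[(11,15)])],[5,4,3,2,1])],2,6,[3,6]),
  ([([(6,[(16,21)]),(6,[(11,12),(4,6),(3,3)])],[]),([(5,[(11,15)]),(4,[(9,10)])],[])],3,4,[]),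
  ([([(7,[(11,12),(9,10),(4,6)]),(6,[(16,21)])],[]),([(5,[(11,15)]),(3,[(4,6)])],[5,4])],2,3,[3,4]),
  ([([(7,[(11,12),(9,10),(4,6)]),(6,[(16,21)])],[]),([(5,[(11,15)]),(3,[(4,6)]),(2,[(3,3)])],[5,4,2,1])],2,1,[]),
  ([([(7,[(11,12),(9,10),(4,6)]),(6,[(16,21)])],[]),([(5,[(11,15)]),(4,[(4,6),(4,4)])],[5])],1,0,[]),
  ([([(6,[(16,21)]),(6,[(11,12),(7,8)])],[]),([(5,[(11,15)]),(4,[(9,10)])],[])],3,3,[4]),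
  ([([(7,[(11,12),(9,10),(4,4)]),(6,[(16,21)])],[]),([(5,[(11,15)]),(4,[(7,8)])],[5])],1,0,[]),
  ([([(6,[(16,21)]),(6,[(9,10),(9,10)])],[]),([(5,[(11,15)]),(5,[(11,12)])],[5])],2,1,[]),
  ([([(6,[(16,21)]),(5,[(11,15)])],[]),([(5,[(11,12)]),(5,[(11,11)])],[])],3,7,[5,6,8]),
  ([([(7,[(11,12),(11,11),(4,5)]),(6,[(16,21)])],[]),([(5,[(11,15)])],[5,4,3,2,1])],2,4,[3,5]),
  ([([(6,[(16,21)]),(6,[(11,12),(4,5),(3,3)])],[]),([(5,[(11,15)]),(5,[(11,11)])],[5])],3,1,[]),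
  ([([(7,[(11,12),(11,11),(4,5)]),(6,[(16,21)])],[]),([(5,[(11,15)]),(3,[(4,5)])],[5,4])],2,1,[]),
  ([([(6,[(16,21)]),(6,[(11,15),(6,6)])],[]),([(5,[(11,12)]),(5,[(11,11)])],[5])],3,1,[]),
  ([([(6,[(16,21)]),(6,[(11,12),(7,8)])],[]),([(5,[(11,15)]),(5,[(11,11)])],[5])],2,1,[]),
  ([([(9,[(16,21),(11,12),(12,12)]),(5,[(11,15)])],[])],5,5,[6,7]),
  ([([(9,[(16,21),(11,12),(12,12)]),(5,[(11,15)])],[]),([(3,[(6,6)])],[3,3,3,3,2,1])],2,1,[]),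
  ([([(9,[(16,21),(11,12),(12,12)]),(5,[(11,15)])],[]),([(4,[(7,7)])],[4,4,4,4,3,2,1])],1,0,[]),
  ([([(7,[(11,15),(13,13)]),(6,[(16,21)])],[])],7,2,[10,13]),
  ([([(7,[(11,15),(13,13)]),(6,[(16,21)])],[]),([(4,[(8,10)])],[4,3,2,1])],3,8,[6,9]),
  ([([(7,[(11,15),(13,13)]),(6,[(16,21)])],[]),([(4,[(8,10)]),(3,[(4,6)])],[4])],3,5,[6]),
  ([([(7,[(11,15),(13,13)]),(6,[(16,21)])],[]),([(4,[(8,10)]),(3,[(4,6)]),(3,[(4,6)])],[4,3,2,1])],3,2,[]),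
  ([([(7,[(11,15),(13,13)]),(6,[(16,21)])],[]),([(4,[(8,10)]),(4,[(7,9)])],[])],3,2,[]),
  ([([(6,[(16,21)]),(5,[(11,15)])],[]),([(5,[(13,13)]),(5,[(11,13)])],[])],3,5,[6]),
  ([([(6,[(16,21)]),(6,[(13,13),(4,6)])],[]),([(5,[(11,15)]),(5,[(11,13)])],[5])],3,1,[]),
  ([([(8,[(16,21),(14,15)]),(5,[(11,15)])],[])],6,4,[10,15]),
  ([([(6,[(16,21)]),(5,[(11,15)])],[]),([(5,[(14,15)]),(4,[(7,10)])],[5])],3,8,[6,9]),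
  ([([(6,[(16,21)]),(6,[(14,15),(4,6)])],[]),([(5,[(11,15)]),(4,[(7,10)])],[])],3,5,[6]),
  ([([(6,[(16,21)]),(6,[(14,15),(4,6)])],[]),([(5,[(11,15)]),(4,[(7,10)]),(3,[(4,6)])],[3,2])],3,2,[]),
  ([([(8,[(16,21),(14,15)]),(5,[(11,15)])],[]),([(4,[(7,10)]),(4,[(7,9)])],[4,4])],2,2,[3]),
  ([([(8,[(16,21),(14,15)]),(5,[(11,15)])],[]),([(4,[(7,10)]),(4,[(7,9)]),(2,[(3,3)])],[4,4,2,1])],1,0,[]),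
  ([([(6,[(16,21)]),(5,[(11,15)])],[]),([(5,[(14,15)]),(5,[(11,15)])],[])],3,4,[5]),
  ([([(6,[(16,21)]),(6,[(14,15),(4,5)])],[]),([(5,[(11,15)]),(5,[(11,15)])],[5])],2,1,[]),
  ([([(6,[(16,21)]),(6,[(16,21)])],[])],7,4,[10,15,21]),
  ([([(6,[(16,21)]),(6,[(16,21)])],[]),([(4,[(8,10)])],[3,2,1])],4,9,[6,10]),
  ([([(6,[(16,21)]),(6,[(16,21)])],[]),([(4,[(8,10)]),(3,[(5,6)])],[])],4,9,[6]),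
  ([([(6,[(16,21)]),(6,[(16,21)])],[]),([(4,[(8,10)]),(3,[(5,6)]),(3,[(5,6)])],[3,2,1])],4,3,[6]),
  ([([(6,[(16,21)]),(6,[(16,21)])],[]),([(4,[(8,10)]),(3,[(5,6)]),(3,[(5,6)]),(3,[(5,6)])],[])],4,3,[]),
  ([([(6,[(16,21)]),(6,[(16,21)])],[]),([(4,[(8,10)]),(4,[(7,10)])],[4])],3,9,[6,10]),
  ([([(6,[(16,21)]),(6,[(16,21)])],[]),([(4,[(8,10)]),(4,[(7,10)]),(3,[(4,6)])],[4,3,2])],3,6,[5,6]),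
  ([([(6,[(16,21)]),(6,[(16,21)])],[]),([(5,[(8,10),(4,5)]),(4,[(7,10)]),(3,[(4,6)])],[3,2])],3,3,[4]),
  ([([(6,[(16,21)]),(6,[(16,21)])],[]),([(5,[(8,10),(4,5)]),(4,[(7,10)]),(3,[(4,6)])],[3,2]),([(3,[(4,4)])],[3,3,3,3,2,2,2,1,1,1])],1,0,[]),
  ([([(6,[(16,21)]),(6,[(16,21)])],[]),([(4,[(8,10)]),(4,[(7,10)]),(3,[(4,6)])],[4,3,2]),([(3,[(6,6)])],[2,2,2,1,1,1])],1,1,[2]),
  ([([(6,[(16,21)]),(6,[(16,21)])],[]),([(4,[(8,10)]),(4,[(7,10)]),(4,[(6,6),(2,2)])],[3,2]),([(3,[(4,6)])],[2,2,2,1,1,1])],1,0,[]),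
  ([([(6,[(16,21)]),(6,[(16,21)])],[]),([(4,[(8,10)]),(4,[(7,10)]),(4,[(7,10)])],[3,2])],4,1,[]),
  ([([(6,[(16,21)]),(6,[(16,21)])],[]),([(5,[(11,15)])],[4,3,2,1])],3,11,[6,10,13]),
  ([([(6,[(16,21)]),(6,[(16,21)])],[]),([(5,[(11,15)]),(3,[(4,6)])],[4])],3,9,[6]),
  ([([(6,[(16,21)]),(6,[(16,21)])],[]),([(5,[(11,15)]),(3,[(4,6)]),(3,[(4,6)])],[4,3,2])],3,5,[4,6]),
  ([([(6,[(16,21)]),(6,[(16,21)])],[]),([(5,[(11,15)]),(4,[(4,6),(4,4)]),(3,[(4,6)])],[3,2])],3,3,[4]),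
  ([([(7,[(4,6),(4,6),(4,4),(4,4)]),(6,[(16,21)])],[]),([(6,[(16,21)]),(5,[(11,15)])],[6])],1,0,[]),
  ([([(7,[(4,6),(4,6),(5,6)]),(6,[(16,21)])],[]),([(6,[(16,21)]),(5,[(11,15)])],[6])],1,2,[3]),
  ([([(7,[(4,6),(4,6),(5,6),(2,3)]),(6,[(16,21)])],[]),([(6,[(16,21)]),(5,[(11,15)])],[6])],1,1,[2]),
  ([([(7,[(4,6),(4,6),(5,6),(2,3),(2,2)]),(6,[(16,21)])],[]),([(6,[(16,21)]),(5,[(11,15)])],[6])],1,0,[]),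
  ([([(6,[(16,21)]),(6,[(16,21)])],[]),([(5,[(11,15)]),(4,[(7,10)])],[])],3,6,[6,7]),
  ([([(6,[(16,21)]),(6,[(16,21)])],[]),([(5,[(11,15)]),(4,[(7,10)]),(3,[(4,6)])],[3,2])],3,3,[4]),
  ([([(6,[(16,21)]),(6,[(16,21)])],[]),([(5,[(11,15)]),(4,[(7,10)]),(3,[(4,6)])],[3,2]),([(3,[(4,4)])],[3,3,3,3,2,2,2,1,1,1])],1,0,[]),
  ([([(7,[(16,21),(7,7)]),(6,[(16,21)])],[]),([(5,[(11,15)]),(4,[(7,10)])],[5])],1,0,[]),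
  ([([(6,[(16,21)]),(6,[(16,21)])],[]),([(5,[(11,15)]),(5,[(11,13)])],[5])],3,1,[]),
  ([([(6,[(16,21)]),(6,[(16,21)])],[]),([(6,[(16,21)])],[5,4,3,2,1])],2,7,[3,6,8]),
  ([([(6,[(16,21)]),(6,[(16,21)])],[]),([(6,[(16,21)]),(2,[(3,3)])],[5,4,3])],2,5,[3]),
  ([([(6,[(16,21)]),(6,[(16,21)])],[]),([(6,[(16,21)]),(3,[(3,3),(3,3)])],[5,4])],2,3,[3]),
  ([([(6,[(16,21)]),(6,[(16,21)])],[]),([(6,[(16,21)]),(4,[(3,3),(3,3),(3,3)])],[5])],2,1,[]),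
  ([([(6,[(16,21)]),(6,[(16,21)])],[]),([(6,[(16,21)]),(3,[(4,6)])],[5,4])],2,4,[3,5]),
  ([([(6,[(16,21)]),(6,[(16,21)])],[]),([(6,[(16,21)]),(3,[(4,6)]),(2,[(3,3)])],[5,4,2])],2,2,[3]),
  ([([(6,[(16,21)]),(6,[(16,21)])],[]),([(6,[(16,21)]),(6,[(4,6),(3,3),(3,3)])],[6])],1,0,[]),
  ([([(6,[(16,21)]),(6,[(16,21)])],[]),([(6,[(16,21)]),(6,[(4,6),(4,5)])],[6])],2,1,[]),
  ([([(6,[(16,21)]),(6,[(16,21)])],[]),([(6,[(16,21)]),(4,[(7,8)])],[5])],2,1,[]),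
  ([([(7,[(22,28)])],[])],7,8,[10,15,21,28]), ([([(7,[(22,28)]),(4,[(8,10)])],[])],7,4,[10]),
  ([([(7,[(22,28)]),(4,[(8,10)])],[]),([(4,[(8,10)])],[4,4,4,3,2,1])],3,12,[6,8,10]),
  ([([(7,[(22,28)]),(4,[(8,10)])],[]),([(4,[(8,10)]),(3,[(4,6)])],[4,4,4])],3,12,[5,6]),
  ([([(7,[(22,28)]),(5,[(8,10),(4,5)])],[]),([(4,[(8,10)]),(3,[(4,6)])],[4,4])],3,11,[5]),
  ([([(7,[(22,28)]),(5,[(8,10),(4,5)])],[]),([(4,[(8,10)]),(3,[(4,6)]),(3,[(4,5)])],[4,4,3,2])],3,5,[5]),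
  ([([(7,[(22,28)]),(5,[(8,10),(4,5)])],[]),([(4,[(8,10)]),(4,[(4,5),(4,5)]),(3,[(4,6)])],[4,3,2])],3,5,[5]),
  ([([(7,[(22,28)]),(6,[(4,5),(4,5),(4,5)])],[]),([(4,[(8,10)]),(4,[(8,10)]),(3,[(4,6)]),(3,[(4,5)])],[])],3,2,[]),
  ([([(7,[(22,28)]),(7,[(4,6),(6,6)])],[]),([(4,[(8,10)]),(4,[(8,10)])],[4])],2,9,[3,5,6]),
  ([([(7,[(22,28)]),(5,[(4,6),(6,6),(3,3)])],[]),([(4,[(8,10)]),(4,[(8,10)])],[4])],3,7,[]),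
  ([([(7,[(22,28)]),(6,[(8,10),(6,6),(4,5)])],[]),([(4,[(8,10)]),(3,[(4,6)])],[4])],3,6,[5]),
  ([([(7,[(22,28)]),(6,[(8,10),(6,6),(4,5)])],[]),([(4,[(8,10)]),(3,[(4,6)]),(3,[(4,5)])],[4,3,2,1])],3,3,[4]),
  ([([(7,[(22,28)]),(6,[(8,10),(6,6),(4,5)])],[]),([(5,[(8,10),(4,5)]),(4,[(4,6),(4,4)])],[5])],1,0,[]),
  ([([(7,[(22,28)]),(5,[(6,6),(6,6)])],[]),([(4,[(8,10)]),(4,[(8,10)]),(3,[(4,6)])],[4,3,2])],3,4,[5]),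
  ([([(7,[(22,28)]),(6,[(8,10),(6,6),(4,5)])],[]),([(4,[(8,10)]),(3,[(4,6)]),(3,[(6,6)])],[4,3,2,1])],2,1,[]),
  ([([(7,[(22,28)]),(4,[(8,10)])],[]),([(4,[(8,10)]),(4,[(7,8)])],[4,4])],3,11,[5,6,7,8]),
  ([([(7,[(22,28)]),(5,[(8,10),(4,5)])],[]),([(4,[(8,10)]),(4,[(7,8)])],[4])],3,8,[5]),
  ([([(7,[(22,28)]),(5,[(8,10),(4,5)])],[]),([(4,[(8,10)]),(4,[(7,8)]),(3,[(4,5)])],[4,3,2])],3,5,[5]),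
  ([([(7,[(22,28)]),(5,[(8,10),(4,5)])],[]),([(4,[(8,10)]),(4,[(7,8)]),(4,[(4,5),(4,5)])],[3,2])],3,2,[]),
  ([([(7,[(22,28)]),(5,[(7,8),(6,6)])],[]),([(4,[(8,10)]),(4,[(8,10)])],[4])],3,6,[6]),
  ([([(7,[(22,28)]),(5,[(7,8),(6,6)])],[]),([(4,[(8,10)]),(4,[(8,10)]),(3,[(4,6)])],[4,3,2])],3,3,[4]),
  ([([(7,[(22,28)]),(7,[(8,10),(7,8),(6,6),(4,4)])],[]),([(4,[(8,10)]),(3,[(4,6)])],[])],1,0,[]),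
  ([([(7,[(22,28)]),(5,[(7,8),(7,7)])],[]),([(4,[(8,10)]),(4,[(8,10)])],[4])],3,5,[6]),
  ([([(7,[(22,28)]),(6,[(7,8),(7,7),(4,6)])],[]),([(4,[(8,10)]),(4,[(8,10)])],[])],3,2,[]),
  ([([(7,[(22,28)]),(7,[(8,10),(8,10),(8,8)])],[]),([(4,[(7,8)])],[3,2,1])],3,4,[5]),
  ([([(7,[(22,28)]),(7,[(8,10),(8,10),(8,8)])],[]),([(4,[(7,8)]),(3,[(4,5)])],[])],2,1,[]),
  ([([(7,[(22,28)]),(6,[(8,10),(9,10)])],[]),([(4,[(8,10)])],[4,3,2,1])],3,9,[6,10]),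
  ([([(7,[(22,28)]),(6,[(8,10),(9,10)])],[]),([(4,[(8,10)]),(3,[(4,6)])],[4])],3,6,[6]),
  ([([(7,[(22,28)]),(6,[(8,10),(9,10)])],[]),([(4,[(8,10)]),(3,[(4,6)]),(3,[(4,6)])],[4,3,2,1])],3,3,[4]),
  ([([(7,[(22,28)]),(7,[(4,6),(4,6)])],[]),([(6,[(8,10),(9,10)]),(5,[(8,10),(4,4)])],[])],1,0,[]),
  ([([(7,[(22,28)]),(6,[(8,10),(9,10)])],[]),([(4,[(8,10)]),(4,[(7,10)])],[])],3,3,[4]),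
  ([([(7,[(22,28)]),(6,[(8,10),(9,10)])],[]),([(5,[(8,10),(4,4)]),(4,[(7,10)])],[5])],1,0,[]),
  ([([(7,[(22,28)]),(5,[(11,15)])],[])],7,3,[10,15]),
  ([([(7,[(22,28)]),(5,[(11,15)])],[]),([(4,[(8,10)])],[4,4,3,2,1])],3,11,[6,10]),
  ([([(7,[(22,28)]),(5,[(11,15)])],[]),([(4,[(8,10)]),(3,[(4,6)])],[4,4])],3,11,[6]),
  ([([(7,[(22,28)]),(5,[(11,15)])],[]),([(4,[(8,10)]),(3,[(4,6)]),(3,[(4,6)])],[4,4,3,2])],3,5,[6]),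
  ([([(7,[(22,28)]),(7,[(4,6),(4,6),(4,6)])],[]),([(5,[(11,15)]),(4,[(8,10)])],[])],2,5,[3,5,6]),
  ([([(7,[(22,28)]),(7,[(4,6),(4,6),(4,6),(3,3)])],[]),([(5,[(11,15)]),(4,[(8,10)])],[])],2,3,[3]),
  ([([(7,[(22,28)]),(7,[(4,6),(4,6),(4,6),(3,3),(3,3)])],[]),([(5,[(11,15)]),(4,[(8,10)])],[])],2,1,[]),
  ([([(7,[(22,28)]),(7,[(4,6),(4,6),(4,6)])],[]),([(5,[(11,15)]),(5,[(8,10),(4,5)])],[5])],1,2,[3]),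
  ([([(7,[(22,28)]),(7,[(4,6),(4,6),(4,6),(2,3)])],[]),([(5,[(11,15)]),(5,[(8,10),(4,5)])],[5])],2,1,[]),
  ([([(7,[(22,28)]),(7,[(4,6),(4,6),(4,6)])],[]),([(6,[(11,15),(6,6)]),(4,[(8,10)])],[5])],1,0,[]),
  ([([(7,[(22,28)]),(5,[(11,15)])],[]),([(4,[(8,10)]),(4,[(7,10)])],[4])],3,8,[5,6,9]),
  ([([(7,[(22,28)]),(5,[(11,15)])],[]),([(4,[(8,10)]),(4,[(7,10)]),(3,[(4,5)])],[4,3,2])],3,5,[5]),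
  ([([(7,[(22,28)]),(5,[(11,15)])],[]),([(4,[(8,10)]),(4,[(7,10)]),(4,[(4,5),(4,5)])],[3,2])],3,2,[]),
  ([([(7,[(22,28)]),(6,[(11,15),(6,6)])],[]),([(4,[(8,10)]),(4,[(7,10)])],[])],3,3,[4]),
  ([([(7,[(22,28)]),(6,[(11,15),(6,6)])],[]),([(5,[(8,10),(4,4)]),(4,[(7,10)])],[5])],1,0,[]),
  ([([(7,[(22,28)]),(5,[(11,15)])],[]),([(4,[(8,10)]),(4,[(7,10)]),(4,[(7,9)])],[3,2])],3,2,[]),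
  ([([(7,[(22,28)]),(5,[(11,15)])],[]),([(5,[(11,15)])],[5,5,4,3,2,1])],2,11,[3,6,7,10,12]),
  ([([(7,[(22,28)]),(5,[(11,15)])],[]),([(5,[(11,15)]),(2,[(3,3)])],[5,5,4,3])],2,9,[3]),
  ([([(7,[(22,28)]),(5,[(11,15)])],[]),([(5,[(11,15)]),(3,[(3,3),(3,3)])],[5,5,4])],2,7,[3]),
  ([([(7,[(22,28)]),(5,[(11,15)])],[]),([(5,[(11,15)]),(4,[(3,3),(3,3),(3,3)])],[5,5])],2,5,[3]),
  ([([(7,[(22,28)]),(5,[(11,15)])],[]),([(5,[(11,15)]),(5,[(3,3),(3,3),(3,3),(3,3)])],[5])],2,3,[3]),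
  ([([(7,[(22,28)]),(5,[(11,15)])],[]),([(5,[(11,15)]),(5,[(3,3),(3,3),(3,3),(3,3),(3,3)])],[5])],2,1,[]),
  ([([(7,[(22,28)]),(5,[(11,15)])],[]),([(5,[(11,15)]),(3,[(4,6)])],[5,5,4])],2,8,[3,5,6]),
  ([([(7,[(22,28)]),(6,[(4,6),(3,3)])],[]),([(5,[(11,15)]),(5,[(11,15)])],[])],2,6,[3]),
  ([([(7,[(22,28)]),(6,[(4,6),(3,3),(3,3)])],[]),([(5,[(11,15)]),(5,[(11,15)])],[])],2,4,[3]),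
  ([([(7,[(22,28)]),(6,[(4,6),(3,3),(3,3),(3,3)])],[]),([(5,[(11,15)]),(5,[(11,15)])],[])],2,2,[3]),
  ([([(7,[(22,28)]),(6,[(4,6),(3,3),(3,3),(3,3),(3,3)])],[]),([(5,[(11,15)]),(5,[(11,15)])],[])],1,0,[]),
  ([([(7,[(22,28)]),(6,[(4,6),(4,5)])],[]),([(5,[(11,15)]),(5,[(11,15)])],[])],2,5,[3,5]),
  ([([(7,[(22,28)]),(6,[(4,6),(4,5),(3,3)])],[]),([(5,[(11,15)]),(5,[(11,15)])],[])],2,3,[3]),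
  ([([(7,[(22,28)]),(6,[(4,6),(4,5),(3,3),(3,3)])],[]),([(5,[(11,15)]),(5,[(11,15)])],[])],2,1,[]),
  ([([(7,[(22,28)]),(7,[(4,6),(4,5),(4,5)])],[]),([(5,[(11,15)]),(5,[(11,15)])],[5])],1,2,[3]),
  ([([(7,[(22,28)]),(7,[(4,6),(4,5),(4,5),(2,3)])],[]),([(5,[(11,15)]),(5,[(11,15)])],[5])],2,1,[]),
  ([([(7,[(22,28)]),(6,[(11,15),(6,6)])],[]),([(5,[(11,15)]),(3,[(4,6)])],[5,4])],2,3,[3,4]),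
  ([([(7,[(22,28)]),(6,[(11,15),(6,6)])],[]),([(5,[(11,15)]),(3,[(4,6)]),(2,[(3,3)])],[5,4,2,1])],2,1,[]),
  ([([(7,[(22,28)]),(6,[(11,15),(6,6)])],[]),([(5,[(11,15)]),(4,[(4,6),(4,4)])],[5])],1,0,[]),
  ([([(7,[(22,28)]),(5,[(11,15)])],[]),([(5,[(11,15)]),(4,[(7,7)])],[5,5])],2,5,[3,6]),
  ([([(7,[(22,28)]),(5,[(11,15)])],[]),([(5,[(11,15)]),(4,[(7,7),(3,3)])],[5,5])],2,3,[3]),
  ([([(7,[(22,28)]),(5,[(11,15)])],[]),([(5,[(11,15)]),(5,[(7,7),(3,3),(3,3)])],[5])],2,1,[]),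
  ([([(7,[(22,28)]),(7,[(7,7),(4,6)])],[]),([(5,[(11,15)]),(5,[(11,15)])],[5])],1,2,[3]),
  ([([(7,[(22,28)]),(7,[(7,7),(4,6),(2,3)])],[]),([(5,[(11,15)]),(5,[(11,15)])],[5])],2,1,[]),
  ([([(7,[(22,28)]),(5,[(11,15)])],[]),([(5,[(11,15)]),(4,[(8,10)])],[5,5])],2,4,[3,5]),
  ([([(7,[(22,28)]),(5,[(11,15)])],[]),([(5,[(11,15)]),(4,[(8,10)]),(2,[(3,3)])],[5,5,2])],2,2,[3]),
  ([([(7,[(22,28)]),(5,[(11,15)])],[]),([(5,[(11,15)]),(4,[(8,10)]),(2,[(3,3)])],[5,5,2]),([(2,[(3,3)])],[2,2,2,2,2,2,2,2,1,1,1])],1,0,[]),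
  ([([(7,[(22,28)]),(5,[(11,15)])],[]),([(5,[(11,15)]),(5,[(8,10),(4,5)])],[5])],2,1,[]),
  ([([(7,[(22,28)]),(5,[(11,15)])],[]),([(5,[(11,15)]),(5,[(11,12)])],[5])],2,1,[]),
  ([([(7,[(22,28)]),(6,[(16,21)])],[])],7,2,[10,15,17]),
  ([([(7,[(22,28)]),(6,[(16,21)])],[]),([(4,[(8,10)])],[4,3,2,1])],3,9,[6,10]),
  ([([(7,[(22,28)]),(6,[(16,21)])],[]),([(4,[(8,10)]),(3,[(4,6)])],[4])],3,6,[6]),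
  ([([(7,[(22,28)]),(6,[(16,21)])],[]),([(4,[(8,10)]),(3,[(4,6)]),(3,[(4,6)])],[4,3,2,1])],3,3,[4]),
  ([([(7,[(22,28)]),(7,[(4,6),(4,6)])],[]),([(6,[(16,21)]),(5,[(8,10),(4,4)])],[])],1,0,[]),
  ([([(7,[(22,28)]),(6,[(16,21)])],[]),([(4,[(8,10)]),(4,[(7,10)])],[])],3,3,[4]),
  ([([(7,[(22,28)]),(6,[(16,21)])],[]),([(5,[(8,10),(4,4)]),(4,[(7,10)])],[5])],1,0,[]),
  ([([(7,[(22,28)]),(6,[(16,21)])],[]),([(5,[(11,15)])],[5,4,3,2,1])],2,6,[3,6,7]),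
  ([([(7,[(22,28)]),(6,[(16,21)])],[]),([(5,[(11,15)]),(2,[(3,3)])],[5,4,3])],2,4,[3]),
  ([([(7,[(22,28)]),(6,[(16,21)])],[]),([(5,[(11,15)]),(3,[(3,3),(3,3)])],[5,4])],2,2,[3]),
  ([([(7,[(22,28)]),(6,[(16,21)])],[]),([(5,[(11,15)]),(4,[(3,3),(3,3),(3,3)])],[5])],1,0,[]),
  ([([(7,[(22,28)]),(6,[(16,21)])],[]),([(5,[(11,15)]),(3,[(4,6)])],[5,4])],2,3,[3,4]),
  ([([(7,[(22,28)]),(6,[(16,21)])],[]),([(5,[(11,15)]),(3,[(4,6)]),(2,[(3,3)])],[5,4,2,1])],2,1,[]),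
  ([([(7,[(22,28)]),(6,[(16,21)])],[]),([(5,[(11,15)]),(4,[(4,6),(4,4)])],[5])],1,0,[]),
  ([([(7,[(22,28)]),(7,[(16,21),(7,7)])],[]),([(5,[(11,15)])],[4,3,2,1])],1,0,[]),
  ([([(7,[(22,28)]),(6,[(16,21)])],[]),([(6,[(16,17)])],[6,5,4,3,2,1])],1,1,[2]),
  ([([(7,[(22,28)]),(6,[(16,21)])],[]),([(6,[(16,17),(2,2)])],[6,5,4,3,2,1])],1,0,[]),
  ([([(7,[(22,28)]),(7,[(22,28)])],[])],7,1,[10,11]),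
  ([([(7,[(22,28)]),(7,[(22,28)])],[]),([(4,[(8,10)])],[3,2,1])],3,3,[4]),
  ([([(7,[(22,28)]),(7,[(22,28)])],[]),([(5,[(8,10),(4,4)])],[4,3,2,1])],1,0,[]),
  ([([(7,[(22,28)]),(7,[(22,28)])],[]),([(5,[(11,11)])],[4,3,2,1])],1,0,[]),
  ([([(8,[(29,30)])],[])],6,9,[10,15,21,25]), ([([(8,[(29,30)]),(4,[(7,10)])],[])],6,5,[10]),
  ([([(8,[(29,30)]),(4,[(7,10)])],[]),([(4,[(7,10)])],[4,4,4,4,3,2,1])],2,12,[3,6,8,10]),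
  ([([(9,[(29,30),(7,10),(3,3)]),(4,[(7,10)])],[])],3,10,[]),
  ([([(8,[(29,30),(4,6)]),(4,[(7,10)])],[]),([(4,[(7,10)])],[4,4,4,4,3,2,1])],2,9,[3,6]),
  ([([(9,[(29,30),(7,10),(3,3)]),(4,[(7,10)])],[]),([(3,[(4,6)])],[3,3,3,3,3,2,1])],2,7,[3]),
  ([([(9,[(29,30),(7,10),(3,3)]),(4,[(7,10)])],[]),([(3,[(4,6)]),(2,[(3,3)])],[3,3,3,3,3])],2,5,[3]),
  ([([(9,[(29,30),(7,10),(3,3)]),(4,[(7,10)])],[]),([(3,[(4,6)]),(3,[(3,3),(3,3)])],[3,3,3,3])],2,3,[3]),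
  ([([(9,[(29,30),(7,10),(3,3)]),(4,[(7,10)])],[]),([(3,[(4,6)]),(3,[(3,3),(3,3)]),(2,[(3,3)])],[3,3,3,3,2,1])],2,1,[]),
  ([([(8,[(29,30),(4,6)]),(4,[(7,10)])],[]),([(4,[(7,10)]),(3,[(4,6)])],[4,4,4,4])],2,6,[3,5,6]),
  ([([(9,[(29,30),(7,10),(3,3)]),(4,[(7,10)])],[]),([(3,[(4,6)]),(3,[(4,6)])],[3,3,3,3])],2,4,[3]),
  ([([(9,[(29,30),(7,10),(3,3)]),(4,[(7,10)])],[]),([(3,[(4,6)]),(3,[(4,6)]),(2,[(3,3)])],[3,3,3,3,2,1])],2,2,[3]),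
  ([([(9,[(29,30),(7,10),(3,3)]),(4,[(7,10)])],[]),([(3,[(4,6)]),(3,[(4,6)]),(3,[(3,3),(3,3)])],[3,3,3,2,1])],1,0,[]),
  ([([(9,[(29,30),(7,10),(4,5)]),(4,[(7,10)])],[]),([(3,[(4,6)]),(3,[(4,6)])],[3,3,3,3])],2,3,[3,4]),
  ([([(9,[(29,30),(7,10),(4,5)]),(4,[(7,10)])],[]),([(3,[(4,6)]),(3,[(4,6)]),(2,[(3,3)])],[3,3,3,3,2,1])],2,1,[]),
  ([([(9,[(29,30),(7,10),(4,5)]),(4,[(7,10)])],[]),([(4,[(4,6),(4,4)]),(3,[(4,6)])],[4,4,4,4,4])],1,0,[]),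
  ([([(9,[(29,30),(4,6),(6,6)]),(4,[(7,10)])],[]),([(4,[(7,10)]),(3,[(4,6)])],[4,4,4,4,4])],1,1,[2]),
  ([([(9,[(29,30),(4,6),(6,6),(2,2)]),(4,[(7,10)])],[]),([(4,[(7,10)]),(3,[(4,6)])],[4,4,4,4,4])],1,0,[]),
  ([([(8,[(29,30)]),(4,[(7,10)])],[]),([(4,[(7,10)]),(4,[(7,8)])],[4,4,4])],2,6,[3,6,7]),
  ([([(8,[(29,30),(3,3)]),(4,[(7,10)])],[]),([(4,[(7,10)]),(4,[(7,8)])],[4,4,4])],2,4,[3]),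
  ([([(8,[(29,30),(3,3),(3,3)]),(4,[(7,10)])],[]),([(4,[(7,10)]),(4,[(7,8)])],[4,4,4])],2,2,[3]),
  ([([(9,[(29,30),(7,10),(3,3)]),(5,[(7,8),(3,3),(3,3)])],[]),([(4,[(7,10)])],[4,4,4,4,3,2,1])],1,0,[]),
  ([([(8,[(29,30),(4,6)]),(4,[(7,10)])],[]),([(4,[(7,10)]),(4,[(7,8)])],[4,4,4])],2,3,[3,4]),
  ([([(8,[(29,30),(4,6)]),(4,[(7,10)])],[]),([(4,[(7,10)]),(4,[(7,8)]),(2,[(3,3)])],[4,4,4,2])],2,1,[]),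
  ([([(9,[(29,30),(7,10),(4,4)]),(4,[(7,10)])],[]),([(4,[(7,8)]),(3,[(4,6)])],[4,4,4,4,4])],1,0,[]),
  ([([(10,[(29,30),(7,10),(7,8),(7,7)]),(4,[(7,10)])],[])],1,0,[]),
  ([([(8,[(29,30)]),(4,[(7,10)])],[]),([(4,[(7,10)]),(4,[(9,10)])],[4,4,4])],2,4,[3,5]),
  ([([(8,[(29,30),(3,3)]),(4,[(7,10)])],[]),([(4,[(7,10)]),(4,[(9,10)])],[4,4,4])],2,2,[3]),
  ([([(9,[(29,30),(7,10),(3,3)]),(5,[(9,10),(3,3)])],[]),([(4,[(7,10)])],[4,4,4,4,3,2,1])],1,0,[]),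
  ([([(10,[(29,30),(7,10),(9,10),(4,5)]),(4,[(7,10)])],[])],2,1,[]),
  ([([(8,[(29,30)]),(5,[(11,15)])],[])],6,4,[10,15]),
  ([([(9,[(29,30),(11,15)]),(4,[(7,10)])],[])],5,6,[6,9]),
  ([([(9,[(29,30),(11,15)]),(4,[(7,10)])],[]),([(3,[(6,6)])],[3,3,3,3,3,2,1])],2,3,[3,4]),
  ([([(10,[(29,30),(11,15),(6,6),(3,3)]),(4,[(7,10)])],[])],2,1,[]),
  ([([(10,[(29,30),(11,15),(6,6),(4,4)]),(4,[(7,10)])],[])],1,0,[]),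
  ([([(8,[(29,30)]),(5,[(11,15)])],[]),([(4,[(7,10)]),(4,[(7,9)])],[4,4])],2,2,[3]),
  ([([(9,[(29,30),(11,15)]),(4,[(7,10)])],[]),([(4,[(7,9)]),(2,[(3,3)])],[4,4,4,4,4,3])],1,0,[]),
  ([([(9,[(29,30),(11,15)]),(5,[(11,15)])],[])],5,4,[]),
  ([([(8,[(29,30)]),(6,[(16,21)])],[])],6,3,[10]),
  ([([(8,[(29,30)]),(6,[(16,21)])],[]),([(4,[(7,10)])],[4,4,3,2,1])],2,3,[3,4]),
  ([([(10,[(29,30),(16,21),(3,3)]),(4,[(7,10)])],[])],2,1,[]),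
  ([([(10,[(29,30),(16,21),(4,4)]),(4,[(7,10)])],[])],1,0,[]),
  ([([(10,[(29,30),(22,25)])],[])],4,3,[]), ([([(8,[(31,32)])],[])],6,9,[10,15,21,23]),
  ([([(8,[(31,32)]),(4,[(7,10)])],[])],6,5,[10]),
  ([([(9,[(31,32),(7,10)]),(4,[(7,10)])],[])],5,6,[6,10]),
  ([([(9,[(31,32),(7,10)]),(4,[(7,10)])],[]),([(3,[(6,6)])],[3,3,3,3,3,2,1])],2,5,[3,6]),
  ([([(9,[(31,32),(7,10),(3,3)]),(4,[(7,10)])],[]),([(3,[(6,6)])],[3,3,3,3,3,2,1])],2,3,[3]),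
  ([([(10,[(31,32),(7,10),(6,6),(3,3),(3,3)]),(4,[(7,10)])],[])],2,1,[]),
  ([([(9,[(31,32),(7,10)]),(4,[(7,10)])],[]),([(3,[(6,6)]),(3,[(4,6)])],[3,3,3,3])],2,2,[3]),
  ([([(9,[(31,32),(7,10)]),(5,[(6,6),(4,6),(3,3)])],[]),([(4,[(7,10)])],[4,4,4,4,3,2,1])],1,0,[]),
  ([([(8,[(31,32)]),(4,[(7,10)])],[]),([(4,[(7,10)]),(4,[(7,10)])],[4,4,4])],2,4,[3,5]),
  ([([(8,[(31,32),(3,3)]),(4,[(7,10)])],[]),([(4,[(7,10)]),(4,[(7,10)])],[4,4,4])],2,2,[3]),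
  ([([(9,[(31,32),(7,10),(3,3)]),(4,[(7,10)])],[]),([(4,[(7,10)]),(2,[(3,3)])],[4,4,4,4,4,3])],1,0,[]),
  ([([(9,[(31,32),(7,10)]),(4,[(7,10)])],[]),([(4,[(7,10)]),(3,[(4,5)])],[4,4,4,4,4])],1,1,[2]),
  ([([(9,[(31,32),(7,10),(2,2)]),(4,[(7,10)])],[]),([(4,[(7,10)]),(3,[(4,5)])],[4,4,4,4,4])],1,0,[]),
  ([([(8,[(31,32)]),(5,[(11,15)])],[])],6,4,[10,13]),
  ([([(9,[(31,32),(7,10)]),(5,[(11,15)])],[])],5,5,[6,7]),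
  ([([(10,[(31,32),(11,15),(6,6)]),(4,[(7,10)])],[])],2,1,[]),
  ([([(10,[(31,32),(11,15),(7,7)]),(4,[(7,10)])],[])],1,0,[]),
  ([([(9,[(31,32),(11,13)]),(5,[(11,15)])],[])],3,2,[]),
  ([([(8,[(31,32)]),(6,[(16,21)])],[])],6,3,[8]),
  ([([(10,[(31,32),(16,21)]),(4,[(7,8)])],[])],2,1,[]), ([([(10,[(31,32),(22,23)])],[])],2,1,[]),
  ([([(8,[(33,36)])],[])],6,9,[10,15,21]), ([([(8,[(33,36)]),(4,[(7,10)])],[])],6,5,[10]),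
  ([([(8,[(33,36)]),(4,[(7,10)])],[]),([(4,[(7,10)])],[4,4,4,4,3,2,1])],2,8,[3,6,9]),
  ([([(8,[(33,36)]),(4,[(7,10)])],[]),([(4,[(7,10)]),(2,[(3,3)])],[4,4,4,4,3])],2,6,[3]),
  ([([(8,[(33,36)]),(4,[(7,10)])],[]),([(4,[(7,10)]),(3,[(3,3),(3,3)])],[4,4,4,4])],2,4,[3]),
  ([([(8,[(33,36)]),(4,[(7,10)])],[]),([(4,[(7,10)]),(4,[(3,3),(3,3),(3,3)])],[4,4,4])],2,2,[3]),
  ([([(9,[(33,36),(3,3),(3,3),(3,3)]),(4,[(7,10)])],[]),([(4,[(7,10)]),(2,[(3,3)])],[4,4,4,4,4,3])],1,0,[]),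
  ([([(8,[(33,36)]),(4,[(7,10)])],[]),([(4,[(7,10)]),(3,[(4,6)])],[4,4,4,4])],2,5,[3,5,6]),
  ([([(8,[(33,36)]),(6,[(4,6),(3,3)])],[]),([(4,[(7,10)]),(4,[(7,10)])],[4])],2,3,[3]),
  ([([(8,[(33,36)]),(6,[(4,6),(3,3),(3,3)])],[]),([(4,[(7,10)]),(4,[(7,10)])],[4])],2,1,[]),
  ([([(8,[(33,36)]),(6,[(4,6),(4,5)])],[]),([(4,[(7,10)]),(4,[(7,10)])],[4])],2,2,[3]),
  ([([(9,[(33,36),(4,6),(3,3)]),(4,[(7,10)])],[]),([(4,[(7,10)]),(3,[(4,5)])],[4,4,4,4,4])],1,0,[]),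
  ([([(9,[(33,36),(6,6)]),(4,[(7,10)])],[]),([(4,[(7,10)]),(3,[(4,6)])],[4,4,4,4,4])],1,0,[]),
  ([([(8,[(33,36)]),(4,[(7,10)])],[]),([(4,[(7,10)]),(4,[(7,9)])],[4,4,4])],2,2,[3]),
  ([([(9,[(33,36),(7,9)]),(4,[(7,10)])],[]),([(4,[(7,10)]),(2,[(3,3)])],[4,4,4,4,4,3])],1,0,[]),
  ([([(8,[(33,36)]),(5,[(11,15)])],[])],6,4,[10,11]),
  ([([(8,[(33,36)]),(5,[(11,15)])],[]),([(4,[(7,10)])],[4,4,4,3,2,1])],2,4,[3,5]),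
  ([([(8,[(33,36)]),(5,[(11,15)])],[]),([(4,[(7,10)]),(2,[(3,3)])],[4,4,4,3])],2,2,[3]),
  ([([(9,[(33,36),(3,3),(3,3)]),(5,[(11,15)])],[]),([(4,[(7,10)])],[4,4,4,4,3,2,1])],1,0,[]),
  ([([(8,[(33,36)]),(5,[(11,15)])],[]),([(4,[(7,10)]),(3,[(4,5)])],[4,4,4])],2,1,[]),
  ([([(8,[(33,36)]),(5,[(11,15)])],[]),([(5,[(11,11)])],[5,5,5,4,3,2,1])],1,0,[]),
  ([([(8,[(33,36)]),(6,[(16,21)])],[])],6,3,[]), ([([(9,[(37,38)])],[])],5,10,[6,10,15,17]),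
  ([([(9,[(37,38),(6,6)])],[])],5,10,[6]), ([([(9,[(37,38),(6,6)]),(3,[(6,6)])],[])],5,6,[6]),
  ([([(10,[(37,38),(6,6),(6,6)]),(3,[(6,6)])],[])],2,1,[]),
  ([([(9,[(37,38)]),(4,[(7,10)])],[])],5,6,[6,10]),
  ([([(9,[(37,38),(6,6)]),(4,[(7,10)])],[])],5,5,[6]),
  ([([(10,[(37,38),(7,10),(6,6)]),(3,[(6,6)])],[])],1,0,[]),
  ([([(9,[(37,38)]),(4,[(7,10)])],[]),([(4,[(7,10)])],[4,4,4,4,4,3,2,1])],1,4,[3,5]),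
  ([([(9,[(37,38),(2,3)]),(4,[(7,10)])],[]),([(4,[(7,10)])],[4,4,4,4,4,3,2,1])],1,3,[3]),
  ([([(9,[(37,38),(2,3),(2,3)]),(4,[(7,10)])],[]),([(4,[(7,10)])],[4,4,4,4,4,3,2,1])],1,2,[3]),
  ([([(9,[(37,38),(2,3),(2,3)]),(4,[(7,10)])],[]),([(4,[(7,10)]),(2,[(2,3)])],[4,4,4,4,4,3])],1,1,[2]),
  ([([(9,[(37,38),(2,3),(2,3)]),(4,[(7,10)])],[]),([(4,[(7,10)]),(3,[(2,3),(2,2)])],[4,4,4,4,4])],1,0,[]),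
  ([([(10,[(37,38),(7,10),(4,5)]),(4,[(7,10)])],[])],2,1,[]),
  ([([(9,[(37,38)]),(5,[(11,15)])],[])],5,5,[6,7]),
  ([([(10,[(37,38),(11,15)]),(3,[(6,6)])],[])],2,1,[]),
  ([([(10,[(37,38),(11,15)]),(4,[(7,7)])],[])],1,0,[]), ([([(10,[(37,38),(16,17)])],[])],2,1,[]),
  ([([(9,[(39,45)])],[])],5,10,[6,10,15]), ([([(9,[(39,45)]),(3,[(6,6)])],[])],5,7,[6]),
  ([([(9,[(39,45)]),(5,[(6,6),(6,6)])],[])],5,4,[]),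
  ([([(9,[(39,45)]),(4,[(7,10)])],[])],5,6,[6,9]),
  ([([(9,[(39,45)]),(4,[(7,10)])],[]),([(3,[(6,6)])],[3,3,3,3,3,2,1])],2,3,[3,4]),
  ([([(10,[(39,45),(6,6),(3,3)]),(4,[(7,10)])],[])],2,1,[]),
  ([([(10,[(39,45),(6,6),(4,4)]),(4,[(7,10)])],[])],1,0,[]),
  ([([(9,[(39,45)]),(4,[(7,10)])],[]),([(4,[(7,9)])],[4,4,4,4,4,3,2,1])],1,2,[3]),
  ([([(9,[(39,45)]),(4,[(7,10)])],[]),([(4,[(7,9)]),(2,[(2,3)])],[4,4,4,4,4,3])],1,1,[2]),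
  ([([(9,[(39,45)]),(4,[(7,10)])],[]),([(4,[(7,9)]),(3,[(2,3),(2,2)])],[4,4,4,4,4])],1,0,[]),
  ([([(9,[(39,45)]),(5,[(11,15)])],[])],5,4,[]), ([([(10,[(46,53)])],[])],4,7,[6,8]),
  ([([(10,[(46,53)]),(3,[(5,6)])],[])],4,3,[]), ([([(10,[(46,53)]),(4,[(7,8)])],[])],2,1,[])]

theorem ki_14 : KC 14 52 := kc_of_itree it_14 (by decide +kernel)

def it_15 : List (List (List (ℕ × List (ℕ × ℕ)) × List ℕ) × ℕ × ℕ × List ℕ) := [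
  ([],13,5,[15,21,28,32,36,41,45,50,55,61]), ([([(5,[(14,15)])],[])],10,6,[15]),
  ([([(5,[(14,15)]),(5,[(11,15)])],[])],9,4,[10,15]),
  ([([(5,[(14,15)]),(5,[(11,15)]),(4,[(10,10)])],[])],9,4,[10]),
  ([([(8,[(14,15),(10,10),(10,10)]),(5,[(11,15)])],[])],7,4,[10]),
  ([([(9,[(14,15),(10,10),(10,10),(8,10)]),(5,[(11,15)])],[])],6,5,[10]),
  ([([(5,[(14,15)]),(5,[(11,15)]),(4,[(10,10)])],[]),([(4,[(10,10)]),(4,[(8,10)]),(4,[(7,10)])],[])],6,1,[7]),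
  ([([(9,[(14,15),(10,10),(10,10),(8,10)]),(5,[(11,15)])],[]),([(4,[(7,10)]),(4,[(7,7)])],[4,4,4])],1,0,[]),
  ([([(5,[(14,15)]),(5,[(11,15)]),(5,[(11,15)])],[])],9,3,[10,15]),
  ([([(5,[(14,15)]),(5,[(11,15)]),(5,[(11,15)])],[]),([(4,[(10,10)])],[2])],6,7,[10]),
  ([([(5,[(14,15)]),(5,[(11,15)]),(5,[(11,15)])],[]),([(4,[(10,10)]),(4,[(7,10)])],[2,1])],5,6,[6,10]),
  ([([(5,[(14,15)]),(5,[(11,15)]),(5,[(11,15)])],[]),([(4,[(10,10)]),(4,[(7,10)]),(3,[(6,6)])],[])],6,1,[]),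
  ([([(5,[(14,15)]),(5,[(11,15)]),(5,[(11,15)])],[]),([(4,[(10,10)]),(4,[(7,10)]),(4,[(7,10)])],[4])],6,1,[7]),
  ([([(5,[(14,15)]),(5,[(11,15)]),(5,[(11,15)])],[]),([(4,[(10,10)]),(4,[(7,10)]),(4,[(7,10)])],[4]),([(4,[(7,7)])],[2,2,1,1])],1,0,[]),
  ([([(5,[(14,15)]),(5,[(11,15)]),(5,[(11,15)])],[]),([(5,[(11,15)])],[3,1])],5,8,[6,10,15]),
  ([([(5,[(14,15)]),(5,[(11,15)]),(5,[(11,15)])],[]),([(5,[(11,15)]),(3,[(6,6)])],[2,1])],5,5,[6]),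
  ([([(5,[(14,15)]),(5,[(11,15)]),(5,[(11,15)])],[]),([(5,[(11,15)]),(5,[(6,6),(6,6)])],[3,2,1])],5,1,[6]),
  ([([(7,[(14,15),(6,6),(6,6)]),(6,[(11,15),(6,6)])],[]),([(5,[(11,15)]),(5,[(11,15)])],[])],3,2,[]),
  ([([(5,[(14,15)]),(5,[(11,15)]),(5,[(11,15)])],[]),([(5,[(11,15)]),(4,[(7,10)])],[4,3,2,1])],5,2,[6,10]),
  ([([(5,[(14,15)]),(5,[(11,15)]),(5,[(11,15)])],[]),([(5,[(11,15)]),(4,[(7,10)]),(3,[(6,6)])],[4])],5,2,[6]),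
  ([([(8,[(14,15),(11,15),(6,6)]),(6,[(11,15),(6,6)])],[]),([(5,[(11,15)]),(4,[(7,10)])],[5,5])],2,1,[]),
  ([([(5,[(14,15)]),(5,[(11,15)]),(5,[(11,15)])],[]),([(5,[(11,15)]),(4,[(7,10)]),(4,[(7,10)])],[])],5,2,[6]),
  ([([(5,[(14,15)]),(5,[(11,15)]),(5,[(11,15)])],[]),([(5,[(11,15)]),(4,[(7,10)]),(4,[(7,10)])],[]),([(3,[(6,6)])],[3,2,2,1,1])],1,0,[]),
  ([([(5,[(14,15)]),(5,[(11,15)]),(5,[(11,15)])],[]),([(5,[(11,15)]),(5,[(11,15)])],[3,2,1])],5,1,[6,8]),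
  ([([(5,[(14,15)]),(5,[(11,15)]),(5,[(11,15)])],[]),([(5,[(11,15)]),(5,[(11,15)]),(3,[(6,6)])],[])],3,2,[]),
  ([([(5,[(14,15)]),(5,[(11,15)]),(5,[(11,15)])],[]),([(5,[(11,15)]),(5,[(11,15)]),(4,[(7,8)])],[])],2,1,[]),
  ([([(6,[(16,21)])],[])],9,7,[10,13,15,21]), ([([(6,[(16,21)]),(4,[(10,10)])],[])],8,7,[10]),
  ([([(6,[(16,21)]),(4,[(10,10)]),(4,[(9,10)])],[])],9,3,[10]),
  ([([(6,[(16,21)]),(6,[(10,10),(9,10)])],[]),([(4,[(10,10)])],[3,2,1])],5,9,[6,10]),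
  ([([(8,[(10,10),(9,10),(10,10),(6,6)]),(6,[(16,21)])],[])],6,7,[]),
  ([([(6,[(16,21)]),(4,[(10,10)]),(4,[(9,10)])],[]),([(4,[(10,10)]),(4,[(7,10)])],[4,3,2,1])],5,4,[6,10]),
  ([([(6,[(16,21)]),(4,[(10,10)]),(4,[(9,10)])],[]),([(4,[(10,10)]),(4,[(7,10)]),(3,[(6,6)])],[4])],5,4,[6]),
  ([([(7,[(10,10),(9,10),(6,6)]),(6,[(16,21)])],[]),([(4,[(10,10)]),(4,[(7,10)]),(3,[(6,6)])],[3,2,1])],4,3,[]),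
  ([([(6,[(16,21)]),(6,[(10,10),(9,10)])],[]),([(4,[(10,10)]),(4,[(7,10)]),(4,[(7,10)])],[3,2])],5,1,[6,8]),
  ([([(8,[(10,10),(9,10),(10,10),(6,6)]),(6,[(16,21)])],[]),([(4,[(7,10)]),(4,[(7,10)])],[4])],3,2,[]),
  ([([(7,[(10,10),(9,10),(7,8)]),(6,[(16,21)])],[]),([(6,[(10,10),(7,10)]),(4,[(7,10)])],[6,5])],2,1,[]),
  ([([(6,[(16,21)]),(5,[(11,13)])],[])],8,6,[10,12,13]),
  ([([(6,[(16,21)]),(5,[(11,13)]),(4,[(9,10)])],[])],8,5,[10]),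
  ([([(6,[(16,21)]),(5,[(11,13)]),(4,[(9,10)])],[]),([(4,[(9,10)])],[4,3,1])],5,8,[6,10]),
  ([([(6,[(16,21)]),(5,[(11,13)]),(4,[(9,10)])],[]),([(4,[(9,10)]),(3,[(6,6)])],[4,2,1])],5,5,[6]),
  ([([(9,[(11,13),(9,10),(9,10),(6,6),(6,6)]),(6,[(16,21)])],[])],6,4,[]),
  ([([(6,[(16,21)]),(5,[(11,13)]),(4,[(9,10)])],[]),([(4,[(9,10)]),(4,[(7,10)])],[2,1])],5,5,[6,10]),
  ([([(6,[(16,21)]),(5,[(11,13)]),(4,[(9,10)])],[]),([(4,[(9,10)]),(4,[(7,10)]),(3,[(6,6)])],[])],5,4,[6]),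
  ([([(6,[(16,21)]),(6,[(9,10),(9,10)])],[]),([(5,[(11,13)]),(4,[(7,10)]),(3,[(6,6)]),(3,[(6,6)])],[])],4,3,[]),
  ([([(6,[(16,21)]),(5,[(11,13)]),(4,[(9,10)])],[]),([(4,[(9,10)]),(4,[(7,10)]),(4,[(7,10)])],[4])],5,2,[6,8]),
  ([([(6,[(16,21)]),(5,[(11,13)]),(4,[(9,10)])],[]),([(4,[(9,10)]),(4,[(7,10)]),(4,[(7,10)])],[4]),([(3,[(6,6)])],[3,2,2,1,1])],2,2,[3]),
  ([([(8,[(11,13),(9,10),(9,10),(3,3)]),(6,[(16,21)])],[]),([(4,[(7,10)]),(4,[(7,10)]),(3,[(6,6)])],[4,3,2,1])],1,0,[]),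
  ([([(6,[(16,21)]),(6,[(11,13),(7,8)])],[]),([(4,[(9,10)]),(4,[(9,10)]),(4,[(7,10)])],[3,2]),([(4,[(7,10)])],[3,3,3,2,2,2,1,1,1])],1,1,[2]),
  ([([(6,[(16,21)]),(6,[(11,13),(7,8)])],[]),([(4,[(9,10)]),(4,[(9,10)]),(4,[(7,10)])],[3,2]),([(4,[(7,10)]),(2,[(2,2)])],[3,3,3,2,2,1,1])],1,0,[]),
  ([([(6,[(16,21)]),(5,[(11,13)])],[]),([(5,[(11,12)])],[5,4,3,2,1])],4,12,[5,6,8,10,12]),
  ([([(6,[(16,21)]),(5,[(11,13)])],[]),([(5,[(11,12)]),(3,[(5,5)])],[5,4])],4,12,[5]),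
  ([([(8,[(11,13),(11,12),(5,5),(5,5)]),(6,[(16,21)])],[])],5,11,[]),
  ([([(6,[(16,21)]),(6,[(11,13),(6,6)])],[]),([(5,[(11,12)])],[4,3,2,1])],4,11,[5,6]),
  ([([(8,[(11,13),(11,12),(6,6),(5,5)]),(6,[(16,21)])],[])],5,11,[]),
  ([([(6,[(16,21)]),(6,[(11,13),(6,6)])],[]),([(5,[(11,12)]),(3,[(6,6)])],[4])],4,11,[6]),
  ([([(6,[(16,21)]),(6,[(11,13),(6,6)])],[]),([(5,[(11,12)]),(3,[(6,6)]),(3,[(5,6)])],[4,3,2])],4,5,[5,6]),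
  ([([(8,[(11,13),(11,12),(6,6),(5,5)]),(6,[(16,21)])],[]),([(3,[(6,6)]),(3,[(5,6)])],[3])],4,7,[5]),
  ([([(8,[(11,13),(11,12),(6,6),(5,5)]),(6,[(16,21)])],[]),([(3,[(6,6)]),(3,[(5,6)]),(3,[(5,5)])],[2,1])],4,3,[]),
  ([([(6,[(16,21)]),(6,[(11,13),(6,6)])],[]),([(5,[(11,12)]),(3,[(6,6)]),(3,[(5,6)]),(3,[(6,6)])],[4])],4,5,[5,6]),
  ([([(8,[(11,13),(11,12),(6,6),(5,5)]),(6,[(16,21)])],[]),([(3,[(6,6)]),(3,[(5,6)]),(3,[(6,6)])],[2,1])],3,2,[]),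
  ([([(7,[(5,6),(6,6),(6,6)]),(6,[(16,21)])],[]),([(6,[(11,13),(6,6)]),(6,[(11,12),(6,6)])],[])],2,1,[]),
  ([([(6,[(16,21)]),(6,[(11,13),(7,8)])],[]),([(5,[(11,12)])],[4,3,2,1])],4,11,[6,8]),
  ([([(6,[(16,21)]),(6,[(11,13),(7,8)])],[]),([(5,[(11,12)]),(3,[(5,6)])],[4])],4,11,[6]),
  ([([(6,[(16,21)]),(6,[(11,13),(7,8)])],[]),([(5,[(11,12)]),(3,[(5,6)]),(3,[(5,6)])],[4,3,2])],4,5,[5,6]),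
  ([([(6,[(16,21)]),(6,[(11,13),(7,8)])],[]),([(5,[(11,12)]),(3,[(5,6)]),(3,[(5,6)]),(3,[(5,5)])],[4])],4,5,[5]),
  ([([(6,[(16,21)]),(6,[(11,13),(7,8)])],[]),([(5,[(11,12)]),(4,[(5,5),(5,5)]),(3,[(5,6)]),(3,[(5,6)])],[])],4,3,[]),
  ([([(6,[(16,21)]),(6,[(11,13),(7,8)])],[]),([(5,[(11,12)]),(3,[(5,6)]),(3,[(5,6)]),(3,[(6,6)])],[4])],4,5,[5,6]),
  ([([(8,[(11,13),(11,12),(5,6),(5,5)]),(6,[(16,21)])],[]),([(4,[(7,8)]),(3,[(5,6)]),(3,[(6,6)])],[4,4,3,2,1])],3,2,[]),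
  ([([(9,[(11,13),(11,12),(7,8),(6,6),(6,6)]),(6,[(16,21)])],[]),([(3,[(5,6)]),(3,[(5,6)])],[3,3])],2,1,[]),
  ([([(6,[(16,21)]),(6,[(11,13),(7,8)])],[]),([(5,[(11,12)]),(4,[(7,8)])],[])],4,11,[6,8]),
  ([([(6,[(16,21)]),(6,[(11,13),(7,8)])],[]),([(5,[(11,12)]),(4,[(7,8)]),(3,[(5,6)])],[3,2])],4,5,[6]),
  ([([(6,[(16,21)]),(6,[(11,13),(7,8)])],[]),([(5,[(11,12)]),(4,[(7,8)]),(3,[(5,6)]),(3,[(5,6)])],[])],4,5,[6]),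
  ([([(7,[(5,6),(5,6),(5,6)]),(6,[(16,21)])],[]),([(6,[(11,13),(7,8)]),(6,[(11,12),(7,8)])],[])],2,1,[]),
  ([([(6,[(16,21)]),(6,[(11,13),(7,8)])],[]),([(6,[(11,12),(7,8)]),(4,[(7,8)])],[5])],3,7,[6,8]),
  ([([(7,[(11,12),(7,8),(7,8)]),(6,[(16,21)])],[]),([(5,[(11,13)]),(4,[(7,8)]),(3,[(4,6)])],[5,3,2])],3,4,[5]),
  ([([(7,[(11,12),(7,8),(7,8)]),(6,[(16,21)])],[]),([(6,[(11,13),(7,8)]),(6,[(4,6),(4,5)])],[])],2,1,[]),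
  ([([(7,[(11,12),(7,8),(7,8)]),(6,[(16,21)])],[]),([(6,[(11,13),(7,8)]),(4,[(7,8)])],[6,5])],2,1,[]),
  ([([(8,[(11,13),(11,12),(9,10)]),(6,[(16,21)])],[])],7,3,[10]),
  ([([(8,[(11,13),(11,12),(9,10)]),(6,[(16,21)])],[]),([(4,[(8,10)])],[4,4,3,2,1])],3,10,[6,10]),
  ([([(8,[(11,13),(11,12),(9,10)]),(6,[(16,21)])],[]),([(4,[(8,10)]),(3,[(4,6)])],[4,4])],3,7,[6]),
  ([([(8,[(11,13),(11,12),(9,10)]),(6,[(16,21)])],[]),([(4,[(8,10)]),(3,[(4,6)]),(3,[(4,6)])],[4,4,3,2,1])],3,4,[5]),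
  ([([(8,[(11,13),(11,12),(9,10)]),(6,[(16,21)])],[]),([(4,[(8,10)]),(3,[(4,6)]),(3,[(4,6)]),(3,[(4,5)])],[4,4])],2,1,[]),
  ([([(8,[(11,13),(11,12),(9,10)]),(6,[(16,21)])],[]),([(4,[(8,10)]),(4,[(7,10)])],[4])],3,4,[5]),
  ([([(8,[(11,13),(11,12),(9,10)]),(6,[(16,21)])],[]),([(5,[(8,10),(4,5)]),(4,[(7,10)])],[5,5])],2,1,[]),
  ([([(6,[(16,21)]),(5,[(11,13)])],[]),([(5,[(11,12)]),(5,[(11,12)])],[])],4,12,[6,8,10,12]),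
  ([([(6,[(16,21)]),(5,[(11,13)])],[]),([(5,[(11,12)]),(5,[(11,12)]),(3,[(5,6)])],[3,2])],4,6,[6]),
  ([([(8,[(11,12),(11,12),(5,6),(5,6)]),(6,[(16,21)])],[]),([(5,[(11,13)])],[5,5,4,3,2,1])],2,7,[3,4,6]),
  ([([(7,[(11,13),(11,12),(3,3)]),(6,[(16,21)])],[]),([(5,[(11,12)]),(3,[(5,6)]),(3,[(5,6)])],[5,4,3,2])],3,5,[]),
  ([([(7,[(11,12),(11,12),(4,4)]),(6,[(16,21)])],[]),([(5,[(11,13)]),(3,[(5,6)]),(3,[(5,6)])],[5,4,3,2])],3,4,[4]),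
  ([([(9,[(11,13),(11,12),(11,12),(4,4),(4,4)]),(6,[(16,21)])],[]),([(3,[(5,6)]),(3,[(5,6)])],[3,3])],2,1,[]),
  ([([(8,[(11,12),(11,12),(5,6),(5,6)]),(6,[(16,21)])],[]),([(5,[(11,13)]),(3,[(5,6)])],[5,5,4])],2,3,[3,4]),
  ([([(7,[(11,13),(11,12),(3,3)]),(7,[(5,6),(5,6),(5,6)])],[]),([(6,[(16,21)]),(5,[(11,12)])],[])],2,1,[]),
  ([([(8,[(11,12),(11,12),(5,6),(5,6)]),(6,[(16,21)])],[]),([(5,[(11,13)]),(4,[(5,6),(4,4)])],[5,5])],1,0,[]),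
  ([([(9,[(11,13),(11,12),(11,12),(7,8)]),(6,[(16,21)])],[])],6,4,[8]),
  ([([(6,[(16,21)]),(6,[(11,13),(7,8)])],[]),([(6,[(11,12),(7,8)]),(5,[(11,12)])],[])],3,3,[4]),
  ([([(9,[(11,13),(11,12),(11,12),(7,8)]),(6,[(16,21)])],[]),([(4,[(7,8)]),(3,[(4,4)])],[4,4,4])],1,0,[]),
  ([([(8,[(11,13),(11,12),(9,10)]),(6,[(16,21)])],[]),([(5,[(11,12)])],[5,5,4,3,2,1])],2,7,[3,6,8]),
  ([([(7,[(11,13),(11,12),(3,3)]),(6,[(16,21)])],[]),([(5,[(11,12)]),(4,[(9,10)])],[5])],3,5,[]),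
  ([([(7,[(11,12),(9,10),(4,6)]),(6,[(16,21)])],[]),([(5,[(11,13)]),(5,[(11,12)])],[])],3,4,[5]),
  ([([(7,[(11,13),(9,10),(4,5)]),(6,[(16,21)])],[]),([(5,[(11,12)]),(5,[(11,12)]),(3,[(4,6)])],[3,2])],2,1,[]),
  ([([(9,[(11,13),(11,12),(11,12),(7,8)]),(6,[(16,21)])],[]),([(4,[(9,10)])],[4,4,4,3,2,1])],2,1,[]),
  ([([(8,[(11,12),(11,12),(11,12)]),(6,[(16,21)])],[]),([(5,[(11,13)])],[5,5,4,3,2,1])],2,5,[3,6]),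
  ([([(7,[(11,13),(11,12),(3,3)]),(6,[(16,21)])],[]),([(5,[(11,12)]),(5,[(11,12)])],[])],3,3,[]),
  ([([(8,[(11,12),(11,12),(11,12)]),(6,[(16,21)])],[]),([(5,[(11,13)]),(3,[(4,6)])],[5,5,4])],2,2,[3]),
  ([([(7,[(11,13),(11,12),(3,3)]),(6,[(16,21)])],[]),([(5,[(11,12)]),(5,[(11,12)]),(3,[(4,6)])],[3,2])],1,0,[]),
  ([([(7,[(11,13),(13,13)]),(6,[(16,21)])],[])],7,6,[10,13]),
  ([([(8,[(11,13),(13,13),(8,10)]),(6,[(16,21)])],[])],7,3,[10]),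
  ([([(7,[(11,13),(13,13)]),(6,[(16,21)])],[]),([(4,[(8,10)]),(4,[(8,10)])],[])],4,9,[6,10]),
  ([([(7,[(11,13),(13,13)]),(6,[(16,21)])],[]),([(4,[(8,10)]),(4,[(8,10)]),(3,[(5,6)])],[3,2,1])],4,4,[6]),
  ([([(8,[(11,13),(13,13),(8,10)]),(6,[(16,21)])],[]),([(4,[(8,10)]),(3,[(5,6)]),(3,[(5,6)])],[4,4,3,2,1])],2,1,[]),
  ([([(7,[(11,13),(13,13)]),(6,[(16,21)])],[]),([(4,[(8,10)]),(4,[(8,10)]),(4,[(7,10)])],[4,3,2])],4,2,[]),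
  ([([(6,[(16,21)]),(5,[(11,13)])],[]),([(5,[(13,13)]),(5,[(11,13)])],[])],4,12,[6,10,13]),
  ([([(9,[(11,13),(13,13),(11,13),(5,6)]),(6,[(16,21)])],[])],6,4,[]),
  ([([(7,[(11,13),(13,13)]),(6,[(16,21)])],[]),([(5,[(11,13)]),(4,[(7,10)])],[5])],3,7,[6,8]),
  ([([(7,[(11,13),(13,13)]),(6,[(16,21)])],[]),([(5,[(11,13)]),(4,[(7,10)]),(3,[(4,6)])],[5,3,2])],3,4,[5]),
  ([([(7,[(13,13),(7,10),(4,5)]),(6,[(16,21)])],[]),([(5,[(11,13)]),(5,[(11,13)]),(3,[(4,6)])],[3,2])],2,1,[]),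
  ([([(8,[(11,13),(13,13),(7,10)]),(6,[(16,21)])],[]),([(5,[(11,13)]),(4,[(7,8)])],[5,5])],2,1,[]),
  ([([(7,[(11,13),(13,13)]),(6,[(16,21)])],[]),([(5,[(11,13)]),(5,[(11,13)])],[])],3,3,[4]),
  ([([(7,[(11,13),(13,13)]),(6,[(16,21)])],[]),([(5,[(11,13)]),(5,[(11,13)]),(3,[(4,4)])],[3,2])],1,0,[]),
  ([([(6,[(16,21)]),(5,[(14,15)])],[])],8,6,[10,15]),
  ([([(6,[(16,21)]),(5,[(14,15)]),(4,[(9,10)])],[])],8,5,[10]),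
  ([([(8,[(16,21),(14,15)]),(6,[(9,10),(9,10)])],[])],7,3,[10]),
  ([([(9,[(14,15),(9,10),(9,10),(8,10)]),(6,[(16,21)])],[])],6,4,[10]),
  ([([(7,[(14,15),(9,10)]),(6,[(16,21)])],[]),([(4,[(9,10)]),(4,[(8,10)]),(4,[(7,10)])],[4,3,2])],4,2,[]),
  ([([(8,[(16,21),(14,15)]),(5,[(11,15)])],[])],7,4,[10,15]),
  ([([(6,[(16,21)]),(5,[(14,15)])],[]),([(5,[(11,15)]),(4,[(8,10)])],[5])],4,12,[6,10]),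
  ([([(6,[(16,21)]),(6,[(14,15),(5,6)])],[]),([(5,[(11,15)]),(4,[(8,10)])],[])],4,11,[6]),
  ([([(6,[(16,21)]),(6,[(14,15),(5,6)])],[]),([(5,[(11,15)]),(4,[(8,10)]),(3,[(5,6)])],[3,2])],4,5,[6]),
  ([([(6,[(16,21)]),(6,[(14,15),(5,6)])],[]),([(5,[(11,15)]),(4,[(8,10)]),(3,[(5,6)]),(3,[(5,6)])],[])],4,3,[]),
  ([([(8,[(16,21),(14,15)]),(5,[(11,15)])],[]),([(4,[(8,10)]),(4,[(7,10)])],[4,4])],3,9,[5,6,10]),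
  ([([(8,[(16,21),(14,15)]),(5,[(11,15)])],[]),([(4,[(8,10)]),(4,[(7,10)]),(3,[(4,5)])],[4,4,3,2])],3,6,[5]),
  ([([(8,[(16,21),(14,15)]),(5,[(11,15)])],[]),([(4,[(8,10)]),(4,[(7,10)]),(4,[(4,5),(4,5)])],[4,3,2])],3,3,[4]),
  ([([(8,[(16,21),(14,15)]),(5,[(11,15)])],[]),([(4,[(8,10)]),(4,[(7,10)]),(4,[(4,5),(4,5)])],[4,3,2]),([(3,[(4,4)])],[3,3,3,3,3,2,2,2,1,1,1])],1,0,[]),
  ([([(8,[(16,21),(14,15)]),(6,[(11,15),(6,6)])],[]),([(4,[(8,10)]),(4,[(7,10)])],[4])],3,4,[5]),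
  ([([(8,[(16,21),(14,15)]),(6,[(11,15),(6,6)])],[]),([(5,[(8,10),(4,5)]),(4,[(7,10)])],[5,5])],2,1,[]),
  ([([(8,[(16,21),(14,15)]),(5,[(11,15)])],[]),([(4,[(8,10)]),(4,[(7,10)]),(4,[(7,10)])],[4,3,2])],3,3,[4]),
  ([([(8,[(16,21),(14,15)]),(5,[(11,15)])],[]),([(4,[(8,10)]),(4,[(7,10)]),(4,[(7,10)])],[4,3,2]),([(3,[(4,4)])],[3,3,3,3,3,2,2,2,1,1,1])],1,0,[]),
  ([([(6,[(16,21)]),(5,[(14,15)])],[]),([(5,[(11,15)]),(5,[(11,15)])],[])],4,12,[6,8,10,13]),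
  ([([(6,[(16,21)]),(5,[(14,15)])],[]),([(5,[(11,15)]),(5,[(11,15)]),(3,[(5,6)])],[3,2])],4,6,[6]),
  ([([(7,[(14,15),(5,6),(5,6)]),(6,[(16,21)])],[]),([(5,[(11,15)]),(5,[(11,15)])],[])],3,4,[5]),
  ([([(8,[(16,21),(14,15)]),(7,[(5,6),(5,6),(4,5)])],[]),([(5,[(11,15)]),(5,[(11,15)])],[])],2,1,[]),
  ([([(8,[(16,21),(14,15)]),(5,[(11,15)])],[]),([(5,[(11,15)]),(4,[(7,8)])],[5,5,5])],2,6,[3,5,6,7]),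
  ([([(7,[(14,15),(7,8),(3,3)]),(6,[(16,21)])],[]),([(5,[(11,15)]),(5,[(11,15)])],[])],3,4,[]),
  ([([(7,[(14,15),(7,8),(4,5)]),(6,[(16,21)])],[]),([(5,[(11,15)]),(5,[(11,15)])],[])],3,3,[4]),
  ([([(7,[(14,15),(7,8),(4,5)]),(6,[(16,21)])],[]),([(5,[(11,15)]),(5,[(11,15)]),(3,[(4,4)])],[3,2])],1,0,[]),
  ([([(8,[(16,21),(14,15)]),(6,[(11,15),(6,6)])],[]),([(5,[(11,15)]),(4,[(7,8)])],[5,5])],2,1,[]),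
  ([([(8,[(16,21),(14,15)]),(5,[(11,15)])],[]),([(5,[(11,15)]),(5,[(7,8),(7,7)])],[5,5])],1,0,[]),
  ([([(7,[(14,15),(9,10)]),(6,[(16,21)])],[]),([(5,[(11,15)]),(5,[(11,15)])],[])],3,4,[5]),
  ([([(8,[(16,21),(14,15)]),(5,[(11,15)])],[]),([(5,[(11,15)]),(5,[(9,10),(4,5)])],[5,5])],2,1,[]),
  ([([(7,[(14,15),(11,13)]),(6,[(16,21)])],[]),([(5,[(11,15)]),(5,[(11,15)])],[])],3,2,[]),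
  ([([(6,[(16,21)]),(6,[(16,21)])],[])],8,4,[10,13,15,18,21]),
  ([([(6,[(16,21)]),(6,[(16,21)])],[]),([(4,[(9,10)])],[3,2,1])],5,9,[6,10]),
  ([([(6,[(16,21)]),(6,[(16,21)])],[]),([(4,[(9,10)]),(3,[(6,6)])],[])],5,9,[6]),
  ([([(6,[(16,21)]),(6,[(16,21)])],[]),([(4,[(9,10)]),(3,[(6,6)]),(3,[(6,6)])],[3,2,1])],5,3,[6]),
  ([([(6,[(16,21)]),(6,[(16,21)])],[]),([(4,[(9,10)]),(3,[(6,6)]),(3,[(6,6)]),(3,[(6,6)])],[])],5,3,[6]),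
  ([([(6,[(16,21)]),(6,[(16,21)])],[]),([(5,[(6,6),(6,6)]),(4,[(9,10)]),(3,[(6,6)]),(3,[(6,6)])],[])],3,2,[]),
  ([([(6,[(16,21)]),(6,[(16,21)])],[]),([(4,[(9,10)]),(4,[(7,10)])],[4])],4,12,[6,10]),
  ([([(6,[(16,21)]),(6,[(16,21)])],[]),([(4,[(9,10)]),(4,[(7,10)]),(3,[(5,6)])],[4,3,2])],4,6,[6]),
  ([([(6,[(16,21)]),(6,[(16,21)])],[]),([(4,[(9,10)]),(4,[(7,10)]),(3,[(5,6)]),(3,[(5,6)])],[4])],4,6,[5,6]),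
  ([([(6,[(16,21)]),(6,[(16,21)])],[]),([(5,[(9,10),(5,5)]),(4,[(7,10)]),(3,[(5,6)]),(3,[(5,6)])],[])],4,4,[5]),
  ([([(6,[(16,21)]),(6,[(16,21)])],[]),([(6,[(9,10),(5,6),(5,5)]),(5,[(7,10),(5,5)])],[]),([(3,[(5,6)])],[3,3,3,3,3,3,3,3,3,3,3,3])],1,0,[]),
  ([([(7,[(9,10),(5,6),(5,6),(6,6)]),(6,[(16,21)])],[]),([(6,[(16,21)]),(4,[(7,10)])],[6,5])],2,3,[3,4]),
  ([([(7,[(9,10),(5,6),(5,6),(6,6)]),(6,[(16,21)])],[]),([(6,[(16,21)]),(4,[(7,10)]),(2,[(3,3)])],[6,5,2])],2,1,[]),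
  ([([(6,[(16,21)]),(6,[(16,21)])],[]),([(5,[(9,10),(4,4)]),(4,[(7,10)]),(3,[(5,6)]),(3,[(5,6)])],[]),([(3,[(6,6)])],[3,3,3,3,2,2,2,1,1,1])],1,0,[]),
  ([([(6,[(16,21)]),(6,[(16,21)])],[]),([(4,[(9,10)]),(4,[(7,10)]),(4,[(7,10)])],[3,2])],4,6,[6,7,8,10]),
  ([([(6,[(16,21)]),(6,[(16,21)])],[]),([(4,[(9,10)]),(4,[(7,10)]),(4,[(7,10)]),(3,[(5,6)])],[])],5,1,[6]),
  ([([(6,[(16,21)]),(6,[(16,21)])],[]),([(4,[(9,10)]),(4,[(7,10)]),(4,[(7,10)]),(3,[(5,6)])],[]),([(3,[(6,6)])],[2,2,2,1,1,1])],2,1,[]),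
  ([([(7,[(16,21),(7,7)]),(6,[(16,21)])],[]),([(4,[(9,10)]),(4,[(7,10)]),(4,[(7,10)])],[4,3,2])],4,2,[5]),
  ([([(7,[(16,21),(7,7)]),(6,[(16,21)])],[]),([(4,[(9,10)]),(4,[(7,10)]),(4,[(7,10)])],[4,3,2]),([(3,[(5,5)])],[3,2,2,2,1,1,1])],1,0,[]),
  ([([(7,[(9,10),(7,10),(8,8)]),(6,[(16,21)])],[]),([(6,[(16,21)]),(4,[(7,10)])],[6,5])],2,3,[3,4]),
  ([([(7,[(9,10),(7,10),(8,8)]),(6,[(16,21)])],[]),([(6,[(16,21)]),(4,[(7,10)]),(2,[(3,3)])],[6,5,2])],2,1,[]),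
  ([([(6,[(16,21)]),(6,[(16,21)])],[]),([(4,[(9,10)]),(4,[(7,10)]),(4,[(7,10)])],[3,2]),([(4,[(8,8)]),(3,[(4,4)])],[3,3,2,2,1,1])],1,0,[]),
  ([([(6,[(16,21)]),(6,[(16,21)])],[]),([(4,[(9,10)]),(4,[(7,10)]),(4,[(7,10)])],[3,2]),([(4,[(9,10)])],[3,3,3,2,2,2,1,1,1])],1,2,[3]),
  ([([(6,[(16,21)]),(6,[(16,21)])],[]),([(4,[(9,10)]),(4,[(7,10)]),(4,[(7,10)])],[3,2]),([(4,[(9,10)]),(2,[(2,3)])],[3,3,3,2,2,1,1])],1,1,[2]),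
  ([([(6,[(16,21)]),(6,[(16,21)])],[]),([(4,[(9,10)]),(4,[(7,10)]),(4,[(7,10)])],[3,2]),([(4,[(9,10)]),(3,[(2,3),(2,2)])],[3,3,2,2,1,1])],1,0,[]),
  ([([(6,[(16,21)]),(6,[(16,21)])],[]),([(5,[(11,13)])],[4,3,2,1])],4,11,[6,8,10,11,13]),
  ([([(6,[(16,21)]),(6,[(16,21)])],[]),([(5,[(11,13)]),(3,[(5,6)])],[4])],4,11,[6]),
  ([([(6,[(16,21)]),(6,[(16,21)])],[]),([(5,[(11,13)]),(3,[(5,6)]),(3,[(5,6)])],[4,3,2])],4,5,[5,6]),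
  ([([(6,[(16,21)]),(6,[(16,21)])],[]),([(5,[(11,13)]),(3,[(5,6)]),(3,[(5,6)]),(3,[(5,5)])],[4])],4,5,[5]),
  ([([(6,[(16,21)]),(6,[(16,21)])],[]),([(5,[(11,13)]),(4,[(5,5),(5,5)]),(3,[(5,6)]),(3,[(5,6)])],[])],4,4,[5]),
  ([([(7,[(11,13),(5,5),(5,5),(5,5)]),(7,[(5,6),(5,6)])],[]),([(6,[(16,21)]),(6,[(16,21)])],[6])],1,0,[]),
  ([([(6,[(16,21)]),(6,[(16,21)])],[]),([(5,[(11,13)]),(3,[(5,6)]),(3,[(5,6)]),(3,[(6,6)])],[4])],4,5,[6]),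
  ([([(7,[(5,6),(5,6),(5,6)]),(6,[(16,21)])],[]),([(6,[(16,21)]),(6,[(11,13),(6,6)])],[])],2,3,[3,4]),
  ([([(7,[(11,13),(5,6),(6,6),(3,3)]),(7,[(5,6),(5,6)])],[]),([(6,[(16,21)]),(6,[(16,21)])],[6])],2,1,[]),
  ([([(7,[(5,6),(5,6),(5,6),(4,4)]),(6,[(16,21)])],[]),([(6,[(16,21)]),(6,[(11,13),(6,6)])],[])],1,0,[]),
  ([([(6,[(16,21)]),(6,[(16,21)])],[]),([(5,[(11,13)]),(4,[(7,8)])],[])],4,11,[6,7,8]),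
  ([([(6,[(16,21)]),(6,[(16,21)])],[]),([(5,[(11,13)]),(4,[(7,8)]),(3,[(5,6)])],[3,2])],4,5,[6]),
  ([([(6,[(16,21)]),(6,[(16,21)])],[]),([(5,[(11,13)]),(4,[(7,8)]),(3,[(5,6)]),(3,[(5,6)])],[])],4,5,[6]),
  ([([(7,[(5,6),(5,6),(5,6)]),(6,[(16,21)])],[]),([(6,[(16,21)]),(6,[(11,13),(7,8)])],[])],2,2,[3]),
  ([([(7,[(5,6),(5,6),(5,6),(3,3)]),(6,[(16,21)])],[]),([(6,[(16,21)]),(6,[(11,13),(7,8)])],[])],1,0,[]),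
  ([([(6,[(16,21)]),(6,[(16,21)])],[]),([(6,[(11,13),(7,8)]),(4,[(7,7)])],[5])],3,8,[6,7]),
  ([([(7,[(16,21),(7,7)]),(6,[(16,21)])],[]),([(5,[(11,13)]),(4,[(7,8)]),(3,[(4,6)])],[5,3,2])],3,5,[6]),
  ([([(7,[(16,21),(7,7)]),(7,[(4,6),(4,6)])],[]),([(6,[(16,21)]),(6,[(11,13),(7,8)])],[6])],1,2,[3]),
  ([([(7,[(16,21),(7,7)]),(7,[(4,6),(4,6),(2,3)])],[]),([(6,[(16,21)]),(6,[(11,13),(7,8)])],[6])],2,1,[]),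
  ([([(6,[(16,21)]),(6,[(16,21)])],[]),([(6,[(11,13),(7,8)]),(5,[(7,7),(7,7)])],[])],3,2,[]),
  ([([(6,[(16,21)]),(6,[(16,21)])],[]),([(6,[(11,13),(7,8)]),(4,[(8,8)])],[5])],3,7,[6,7,8]),
  ([([(6,[(16,21)]),(6,[(16,21)])],[]),([(6,[(11,13),(7,8)]),(5,[(8,8),(4,6)])],[])],3,4,[5]),
  ([([(8,[(8,8),(4,6),(4,5)]),(6,[(16,21)])],[]),([(6,[(16,21)]),(6,[(11,13),(7,8)])],[6])],1,1,[2]),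
  ([([(8,[(8,8),(4,6),(4,5),(2,2)]),(6,[(16,21)])],[]),([(6,[(16,21)]),(6,[(11,13),(7,8)])],[6])],1,0,[]),
  ([([(7,[(16,21),(7,7)]),(6,[(16,21)])],[]),([(6,[(11,13),(7,8)]),(4,[(8,8)])],[6,5])],2,1,[]),
  ([([(9,[(8,8),(8,8)]),(6,[(16,21)])],[]),([(6,[(16,21)]),(6,[(11,13),(7,8)])],[6,6])],1,0,[]),
  ([([(6,[(16,21)]),(6,[(16,21)])],[]),([(5,[(11,13)]),(4,[(9,10)])],[])],4,11,[6,8,10]),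
  ([([(6,[(16,21)]),(6,[(16,21)])],[]),([(5,[(11,13)]),(4,[(9,10)]),(3,[(5,6)])],[3,2])],4,5,[6]),
  ([([(6,[(16,21)]),(6,[(16,21)])],[]),([(5,[(11,13)]),(4,[(9,10)]),(3,[(5,6)]),(3,[(5,6)])],[])],4,4,[5]),
  ([([(7,[(11,13),(9,10),(5,5)]),(7,[(5,6),(5,6)])],[]),([(6,[(16,21)]),(6,[(16,21)])],[6])],1,0,[]),
  ([([(6,[(16,21)]),(6,[(16,21)])],[]),([(6,[(11,13),(7,8)]),(4,[(9,10)])],[5])],3,6,[5,6,7]),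
  ([([(6,[(16,21)]),(6,[(16,21)])],[]),([(6,[(11,13),(7,8)]),(5,[(9,10),(4,5)])],[])],3,3,[4]),
  ([([(8,[(7,8),(4,4)]),(7,[(11,13),(9,10),(4,5)])],[]),([(6,[(16,21)]),(6,[(16,21)])],[])],1,0,[]),
  ([([(7,[(11,13),(7,8),(6,6)]),(6,[(16,21)])],[]),([(6,[(16,21)]),(4,[(9,10)])],[6,5])],2,1,[]),
  ([([(7,[(16,21),(7,7)]),(6,[(16,21)])],[]),([(6,[(11,13),(7,8)]),(4,[(9,10)])],[6,5])],1,0,[]),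
  ([([(6,[(16,21)]),(6,[(16,21)])],[]),([(6,[(9,10),(9,10)]),(5,[(11,13)])],[])],3,4,[5]),
  ([([(7,[(11,13),(9,10),(4,5)]),(6,[(16,21)])],[]),([(6,[(16,21)]),(4,[(9,10)])],[6,5])],2,1,[]),
  ([([(6,[(16,21)]),(6,[(16,21)])],[]),([(5,[(11,13)]),(5,[(11,11)])],[5])],3,10,[5,6,10,11]),
  ([([(6,[(16,21)]),(6,[(16,21)])],[]),([(5,[(11,13)]),(5,[(11,11)])],[5]),([(3,[(4,5)])],[2,2,2,2,2,2,2,2,2,2,2])],1,7,[3,5]),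
  ([([(7,[(11,13),(11,11),(2,3)]),(6,[(16,21)])],[]),([(6,[(16,21)]),(3,[(4,5)])],[6,5,4])],2,6,[3]),
  ([([(6,[(16,21)]),(6,[(16,21)])],[]),([(6,[(11,13),(4,5),(3,3)]),(5,[(11,11),(2,3)])],[])],3,4,[]),
  ([([(6,[(16,21)]),(6,[(16,21)])],[]),([(6,[(11,11),(4,5),(4,5)]),(5,[(11,13)])],[])],3,4,[4,5]),
  ([([(8,[(16,21),(11,11),(4,4)]),(6,[(16,21)])],[]),([(5,[(11,13)]),(4,[(4,5),(4,5)])],[5,5])],2,1,[]),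
  ([([(6,[(16,21)]),(6,[(16,21)])],[]),([(6,[(11,11),(4,5),(4,5)]),(5,[(11,13)])],[]),([(3,[(5,5)])],[3,3,3,3,3,3,3,3,3,3,3,3])],1,0,[]),
  ([([(6,[(16,21)]),(6,[(16,21)])],[]),([(6,[(11,13),(6,6)]),(5,[(11,11)])],[])],3,5,[6]),
  ([([(8,[(11,13),(11,11),(6,6),(4,6)]),(6,[(16,21)])],[]),([(6,[(16,21)])],[6,6,5,4,3,2,1])],1,2,[3]),
  ([([(7,[(11,13),(11,11),(2,3)]),(7,[(6,6),(4,6)])],[]),([(6,[(16,21)]),(6,[(16,21)])],[6])],2,1,[]),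
  ([([(6,[(16,21)]),(6,[(16,21)])],[]),([(6,[(11,11),(7,10)]),(5,[(11,13)])],[])],3,4,[4,5]),
  ([([(8,[(16,21),(11,11),(4,4)]),(6,[(16,21)])],[]),([(5,[(11,13)]),(4,[(7,10)])],[5,5])],2,1,[]),
  ([([(6,[(16,21)]),(6,[(16,21)])],[]),([(6,[(11,11),(7,10)]),(5,[(11,13)])],[]),([(3,[(5,5)])],[3,3,3,3,3,3,3,3,3,3,3,3])],1,0,[]),
  ([([(8,[(11,13),(11,11),(11,11)]),(6,[(16,21)])],[]),([(6,[(16,21)])],[6,6,5,4,3,2,1])],1,0,[]),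
  ([([(6,[(16,21)]),(6,[(16,21)])],[]),([(5,[(11,13)]),(5,[(12,13)])],[5])],3,9,[6,8,10]),
  ([([(7,[(11,13),(12,13)]),(6,[(16,21)])],[]),([(6,[(16,21)]),(3,[(4,6)])],[6,5,4])],2,6,[3,6]),
  ([([(7,[(11,13),(12,13)]),(6,[(16,21)])],[]),([(6,[(16,21)]),(6,[(4,6),(3,3)])],[])],2,4,[3]),
  ([([(7,[(11,13),(12,13)]),(6,[(16,21)])],[]),([(6,[(16,21)]),(6,[(4,6),(3,3),(3,3)])],[])],2,2,[3]),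
  ([([(7,[(11,13),(12,13)]),(6,[(16,21)])],[]),([(6,[(16,21)]),(6,[(4,6),(3,3),(3,3),(3,3)])],[])],1,0,[]),
  ([([(7,[(11,13),(12,13)]),(7,[(4,6),(4,6)])],[]),([(6,[(16,21)]),(6,[(16,21)])],[6])],1,3,[3,4]),
  ([([(7,[(11,13),(12,13)]),(7,[(4,6),(4,6),(2,3)])],[]),([(6,[(16,21)]),(6,[(16,21)])],[6])],1,2,[3]),
  ([([(7,[(11,13),(12,13)]),(7,[(4,6),(4,6),(2,3),(2,3)])],[]),([(6,[(16,21)]),(6,[(16,21)])],[6])],2,1,[]),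
  ([([(7,[(11,13),(12,13)]),(7,[(4,6),(4,6),(4,4)])],[]),([(6,[(16,21)]),(6,[(16,21)])],[6])],1,0,[]),
  ([([(6,[(16,21)]),(6,[(16,21)])],[]),([(6,[(11,13),(7,8)]),(5,[(12,13)])],[])],3,3,[4]),
  ([([(8,[(7,8),(4,4)]),(7,[(11,13),(12,13)])],[]),([(6,[(16,21)]),(6,[(16,21)])],[])],1,0,[]),
  ([([(7,[(11,13),(12,13)]),(6,[(16,21)])],[]),([(6,[(16,21)]),(4,[(9,10)])],[6,5])],2,1,[]),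
  ([([(8,[(16,21),(14,15)]),(6,[(16,21)])],[])],7,3,[10,15]),
  ([([(6,[(16,21)]),(6,[(16,21)])],[]),([(5,[(14,15)]),(4,[(8,10)])],[])],4,10,[6,10]),
  ([([(6,[(16,21)]),(6,[(16,21)])],[]),([(5,[(14,15)]),(4,[(8,10)]),(3,[(5,6)])],[3,2])],4,5,[6]),
  ([([(8,[(16,21),(14,15)]),(6,[(16,21)])],[]),([(4,[(8,10)]),(3,[(5,6)]),(3,[(5,6)])],[4,4,3,2,1])],3,2,[]),
  ([([(8,[(16,21),(14,15)]),(6,[(16,21)])],[]),([(4,[(8,10)]),(4,[(7,10)])],[4])],3,4,[5]),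
  ([([(8,[(16,21),(14,15)]),(6,[(16,21)])],[]),([(5,[(8,10),(4,5)]),(4,[(7,10)])],[5,5])],2,1,[]),
  ([([(6,[(16,21)]),(6,[(16,21)])],[]),([(5,[(14,15)]),(5,[(11,15)])],[5])],3,7,[6,8]),
  ([([(6,[(16,21)]),(6,[(16,21)])],[]),([(6,[(14,15),(4,6)]),(5,[(11,15)])],[])],3,4,[5]),
  ([([(8,[(16,21),(14,15)]),(6,[(16,21)])],[]),([(6,[(4,6),(4,5)]),(5,[(11,15)])],[6,6])],1,1,[2]),
  ([([(8,[(16,21),(14,15)]),(6,[(16,21)])],[]),([(6,[(4,6),(4,5),(2,2)]),(5,[(11,15)])],[6,6])],1,0,[]),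
  ([([(8,[(16,21),(14,15)]),(6,[(16,21)])],[]),([(5,[(11,15)]),(4,[(7,8)])],[5,5])],2,1,[]),
  ([([(6,[(16,21)]),(6,[(16,21)])],[]),([(6,[(16,18)])],[5,4,3,2,1])],3,13,[6,10,13,15,16]),
  ([([(6,[(16,21)]),(6,[(16,21)])],[]),([(6,[(16,18)]),(3,[(4,6)])],[5,4])],3,12,[5,6]),
  ([([(6,[(16,21)]),(6,[(16,21)])],[]),([(6,[(16,18)]),(6,[(4,6),(4,5)])],[6])],2,9,[3,4,5]),
  ([([(6,[(16,21)]),(6,[(16,21)])],[]),([(6,[(16,18),(3,3)]),(6,[(4,6),(4,5)])],[6])],2,7,[3]),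
  ([([(6,[(16,21)]),(6,[(16,21)])],[]),([(6,[(16,18),(3,3)]),(6,[(4,6),(4,5),(3,3)])],[6])],2,5,[3]),
  ([([(6,[(16,21)]),(6,[(16,21)])],[]),([(6,[(16,18),(3,3)]),(6,[(4,6),(4,5),(3,3),(3,3)])],[6])],3,1,[]),
  ([([(7,[(16,18),(4,6),(4,4)]),(6,[(16,21)])],[]),([(6,[(16,21)]),(3,[(4,5)])],[6,5,4])],2,6,[3,4]),
  ([([(7,[(16,18),(4,6),(4,4)]),(6,[(16,21)])],[]),([(6,[(16,21)]),(5,[(4,5),(3,3)])],[6])],2,4,[3]),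
  ([([(6,[(16,21)]),(6,[(16,21)])],[]),([(6,[(16,18),(3,3)]),(6,[(4,6),(4,5),(4,4),(3,3)])],[6])],3,1,[]),
  ([([(7,[(16,18),(4,6),(4,4)]),(6,[(16,21)])],[]),([(6,[(16,21)]),(4,[(4,5),(4,4)])],[6,5])],2,3,[3,4]),
  ([([(7,[(16,18),(4,6),(4,4)]),(6,[(16,21)])],[]),([(6,[(16,21)]),(5,[(4,5),(4,4),(3,3)])],[6])],2,1,[]),
  ([([(7,[(16,18),(4,6),(4,4)]),(6,[(16,21)])],[]),([(6,[(16,21)]),(6,[(4,5),(4,4),(4,4)])],[])],1,0,[]),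
  ([([(7,[(16,18),(4,5),(5,5)]),(6,[(16,21)])],[]),([(6,[(16,21)]),(3,[(4,6)])],[6,5,4])],2,5,[3,5]),
  ([([(7,[(16,18),(4,5),(5,5)]),(6,[(16,21)])],[]),([(6,[(16,21)]),(6,[(4,6),(3,3)])],[])],2,3,[3]),
  ([([(7,[(16,18),(4,5),(5,5)]),(6,[(16,21)])],[]),([(6,[(16,21)]),(6,[(4,6),(3,3),(3,3)])],[])],2,1,[]),
  ([([(7,[(16,18),(4,5),(5,5)]),(6,[(16,21)])],[]),([(6,[(16,21)]),(6,[(4,6),(4,5)])],[])],2,2,[3]),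
  ([([(7,[(16,18),(4,5),(5,5)]),(6,[(16,21)])],[]),([(6,[(16,21)]),(6,[(4,6),(4,5),(3,3)])],[])],1,0,[]),
  ([([(7,[(4,6),(6,6)]),(6,[(16,21)])],[]),([(6,[(16,21)]),(6,[(16,18)])],[])],2,7,[3,6]),
  ([([(6,[(16,21)]),(6,[(16,21)])],[]),([(6,[(16,18)]),(5,[(4,6),(6,6),(3,3)])],[])],3,5,[]),
  ([([(7,[(4,6),(6,6),(4,6)]),(6,[(16,21)])],[]),([(6,[(16,21)]),(6,[(16,18)])],[])],2,4,[3,5]),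
  ([([(7,[(4,6),(6,6),(4,6)]),(6,[(16,21)])],[]),([(6,[(16,21)]),(6,[(16,18),(3,3)])],[])],2,2,[3]),
  ([([(7,[(16,18),(6,6),(3,3)]),(7,[(4,6),(4,6),(3,3)])],[]),([(6,[(16,21)]),(6,[(16,21)])],[6])],1,0,[]),
  ([([(8,[(4,6),(6,6),(4,6),(4,5)]),(6,[(16,21)])],[]),([(6,[(16,21)]),(6,[(16,18)])],[6])],1,1,[2]),
  ([([(7,[(16,18),(6,6),(2,2)]),(7,[(4,6),(4,6),(4,5)])],[]),([(6,[(16,21)]),(6,[(16,21)])],[6])],1,0,[]),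
  ([([(6,[(16,21)]),(6,[(16,21)])],[]),([(6,[(16,18)]),(4,[(7,10)])],[5])],3,9,[6,8,10]),
  ([([(7,[(16,18),(7,10)]),(6,[(16,21)])],[]),([(6,[(16,21)]),(3,[(4,6)])],[6,5,4])],2,6,[3,6]),
  ([([(7,[(16,18),(7,10)]),(6,[(16,21)])],[]),([(6,[(16,21)]),(6,[(4,6),(3,3)])],[])],2,4,[3]),
  ([([(7,[(16,18),(7,10)]),(6,[(16,21)])],[]),([(6,[(16,21)]),(6,[(4,6),(3,3),(3,3)])],[])],2,2,[3]),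
  ([([(7,[(16,18),(7,10)]),(6,[(16,21)])],[]),([(6,[(16,21)]),(6,[(4,6),(3,3),(3,3),(3,3)])],[])],1,0,[]),
  ([([(7,[(16,18),(7,10)]),(7,[(4,6),(4,6)])],[]),([(6,[(16,21)]),(6,[(16,21)])],[6])],1,3,[3,4]),
  ([([(7,[(16,18),(7,10)]),(7,[(4,6),(4,6),(2,3)])],[]),([(6,[(16,21)]),(6,[(16,21)])],[6])],1,2,[3]),
  ([([(7,[(16,18),(7,10)]),(7,[(4,6),(4,6),(2,3),(2,3)])],[]),([(6,[(16,21)]),(6,[(16,21)])],[6])],2,1,[]),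
  ([([(7,[(16,18),(7,10)]),(7,[(4,6),(4,6),(4,4)])],[]),([(6,[(16,21)]),(6,[(16,21)])],[6])],1,0,[]),
  ([([(7,[(16,18),(7,10)]),(6,[(16,21)])],[]),([(6,[(16,21)]),(4,[(7,8)])],[6,5])],2,3,[3,4]),
  ([([(7,[(16,18),(7,10)]),(6,[(16,21)])],[]),([(6,[(16,21)]),(4,[(7,8)]),(2,[(3,3)])],[6,5,2])],2,1,[]),
  ([([(8,[(7,8),(4,4)]),(7,[(16,18),(7,10)])],[]),([(6,[(16,21)]),(6,[(16,21)])],[])],1,0,[]),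
  ([([(7,[(16,18),(7,10)]),(6,[(16,21)])],[]),([(6,[(16,21)]),(4,[(9,10)])],[6,5])],2,1,[]),
  ([([(6,[(16,21)]),(6,[(16,21)])],[]),([(6,[(16,18)]),(5,[(11,13)])],[])],3,5,[5,6]),
  ([([(8,[(16,18),(11,13),(4,5)]),(6,[(16,21)])],[]),([(6,[(16,21)])],[6,6,5,4,3,2,1])],1,2,[3]),
  ([([(8,[(16,18),(11,13),(4,5)]),(6,[(16,21)])],[]),([(6,[(16,21)]),(2,[(2,3)])],[6,6,5,4,3])],1,1,[2]),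
  ([([(8,[(16,18),(11,13),(4,5)]),(6,[(16,21)])],[]),([(6,[(16,21)]),(3,[(2,3),(2,2)])],[6,6,5,4])],1,0,[]),
  ([([(6,[(16,21)]),(6,[(16,21)])],[]),([(6,[(16,18)]),(6,[(11,13),(6,6)])],[6])],1,0,[]),
  ([([(6,[(16,21)]),(6,[(16,21)])],[]),([(6,[(16,18)]),(5,[(14,15)])],[])],3,2,[]),
  ([([(8,[(16,18),(16,16)]),(6,[(16,21)])],[]),([(6,[(16,21)])],[6,6,5,4,3,2,1])],1,0,[]),
  ([([(6,[(16,21)]),(6,[(16,21)])],[]),([(6,[(19,21)])],[5,4,3,2,1])],3,12,[6,8,10,13]),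
  ([([(6,[(16,21)]),(6,[(16,21)])],[]),([(6,[(19,21)]),(3,[(4,6)])],[5,4])],3,9,[6]),
  ([([(7,[(19,21),(4,6)]),(6,[(16,21)])],[]),([(6,[(16,21)]),(3,[(4,6)])],[6,5,4])],2,6,[3,6]),
  ([([(7,[(19,21),(4,6)]),(6,[(16,21)])],[]),([(6,[(16,21)]),(6,[(4,6),(3,3)])],[])],2,4,[3]),
  ([([(7,[(19,21),(4,6)]),(6,[(16,21)])],[]),([(6,[(16,21)]),(6,[(4,6),(3,3),(3,3)])],[])],2,2,[3]),
  ([([(7,[(19,21),(4,6)]),(6,[(16,21)])],[]),([(6,[(16,21)]),(6,[(4,6),(3,3),(3,3),(3,3)])],[])],1,0,[]),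
  ([([(7,[(4,6),(4,6),(4,6)]),(6,[(16,21)])],[]),([(6,[(16,21)]),(6,[(19,21)])],[])],2,3,[3,4]),
  ([([(7,[(19,21),(4,6)]),(7,[(4,6),(4,6),(3,3)])],[]),([(6,[(16,21)]),(6,[(16,21)])],[6])],2,1,[]),
  ([([(7,[(19,21),(4,6)]),(7,[(4,6),(4,6),(4,4)])],[]),([(6,[(16,21)]),(6,[(16,21)])],[6])],1,0,[]),
  ([([(6,[(16,21)]),(6,[(16,21)])],[]),([(6,[(19,21)]),(4,[(7,8)])],[5])],3,6,[6,7]),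
  ([([(7,[(19,21),(4,6)]),(6,[(16,21)])],[]),([(6,[(16,21)]),(4,[(7,8)])],[6,5])],2,3,[3,4]),
  ([([(7,[(19,21),(4,6)]),(6,[(16,21)])],[]),([(6,[(16,21)]),(4,[(7,8)]),(2,[(3,3)])],[6,5,2])],2,1,[]),
  ([([(8,[(7,8),(4,4)]),(7,[(19,21),(4,6)])],[]),([(6,[(16,21)]),(6,[(16,21)])],[])],1,0,[]),
  ([([(8,[(19,21),(7,8),(7,7)]),(6,[(16,21)])],[]),([(6,[(16,21)])],[6,6,5,4,3,2,1])],1,0,[]),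
  ([([(6,[(16,21)]),(6,[(16,21)])],[]),([(6,[(19,21)]),(4,[(9,10)])],[5])],3,4,[5]),
  ([([(7,[(19,21),(4,5)]),(6,[(16,21)])],[]),([(6,[(16,21)]),(4,[(9,10)])],[6,5])],2,1,[]),
  ([([(6,[(16,21)]),(6,[(16,21)])],[]),([(6,[(19,21)]),(5,[(11,13)])],[])],3,2,[]),
  ([([(7,[(22,28)])],[])],8,8,[10,13,15,21,28]), ([([(7,[(22,28)]),(4,[(9,10)])],[])],8,4,[10]),
  ([([(7,[(22,28)]),(4,[(9,10)]),(4,[(9,10)])],[])],8,4,[10]),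
  ([([(7,[(22,28)]),(6,[(9,10),(9,10)])],[]),([(4,[(9,10)])],[4,3,2,1])],4,10,[6,10]),
  ([([(8,[(9,10),(9,10),(9,10),(5,6)]),(7,[(22,28)])],[])],6,6,[]),
  ([([(7,[(22,28)]),(6,[(9,10),(9,10)])],[]),([(4,[(9,10)]),(4,[(7,10)])],[])],4,9,[6,10]),
  ([([(7,[(22,28)]),(6,[(9,10),(9,10)])],[]),([(4,[(9,10)]),(4,[(7,10)]),(3,[(5,6)])],[3,2,1])],4,4,[6]),
  ([([(8,[(9,10),(9,10),(9,10),(5,6)]),(7,[(22,28)])],[]),([(4,[(7,10)]),(3,[(5,6)])],[4])],2,1,[]),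
  ([([(7,[(22,28)]),(6,[(9,10),(9,10)])],[]),([(4,[(9,10)]),(4,[(7,10)]),(4,[(7,10)])],[4,3,2])],4,2,[]),
  ([([(7,[(22,28)]),(5,[(11,13)])],[])],7,7,[10,11,13]),
  ([([(7,[(22,28)]),(5,[(11,13)])],[]),([(4,[(8,10)])],[4,4,3,2,1])],4,11,[6,10]),
  ([([(7,[(22,28)]),(5,[(11,13)])],[]),([(4,[(8,10)]),(3,[(5,6)])],[4,4])],4,11,[6]),
  ([([(7,[(22,28)]),(5,[(11,13)])],[]),([(4,[(8,10)]),(3,[(5,6)]),(3,[(5,6)])],[4,4,3,2])],4,5,[6]),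
  ([([(7,[(22,28)]),(5,[(11,13)])],[]),([(4,[(8,10)]),(3,[(5,6)]),(3,[(5,6)]),(3,[(5,6)])],[4,4])],4,5,[5,6]),
  ([([(7,[(22,28)]),(7,[(11,13),(8,10),(5,5)])],[]),([(3,[(5,6)]),(3,[(5,6)]),(3,[(5,6)])],[2,1])],5,1,[]),
  ([([(7,[(22,28)]),(6,[(11,13),(6,6)])],[]),([(4,[(8,10)]),(3,[(5,6)]),(3,[(5,6)]),(3,[(5,6)])],[4])],4,4,[6]),
  ([([(8,[(5,6),(5,6),(5,6),(6,6),(5,6)]),(7,[(22,28)])],[]),([(5,[(11,13)]),(4,[(8,10)])],[5])],2,1,[]),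
  ([([(7,[(22,28)]),(5,[(11,13)])],[]),([(4,[(8,10)]),(4,[(7,10)])],[4])],4,11,[6,8,10]),
  ([([(7,[(22,28)]),(5,[(11,13)])],[]),([(4,[(8,10)]),(4,[(7,10)]),(3,[(5,6)])],[4,3,2])],4,5,[6]),
  ([([(7,[(22,28)]),(5,[(11,13)])],[]),([(4,[(8,10)]),(4,[(7,10)]),(3,[(5,6)]),(3,[(5,6)])],[4])],4,5,[5,6]),
  ([([(7,[(22,28)]),(7,[(11,13),(8,10),(5,5)])],[]),([(4,[(7,10)]),(3,[(5,6)]),(3,[(5,6)])],[3,2,1])],4,3,[5]),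
  ([([(7,[(22,28)]),(7,[(11,13),(8,10),(5,5)])],[]),([(7,[(5,6),(5,6)]),(5,[(7,10),(5,5)])],[6])],1,0,[]),
  ([([(7,[(22,28)]),(6,[(11,13),(6,6)])],[]),([(4,[(8,10)]),(4,[(7,10)]),(3,[(5,6)]),(3,[(5,6)])],[])],4,3,[]),
  ([([(7,[(22,28)]),(6,[(11,13),(7,8)])],[]),([(4,[(8,10)]),(4,[(7,10)])],[])],4,10,[6,8]),
  ([([(7,[(22,28)]),(6,[(11,13),(7,8)])],[]),([(4,[(8,10)]),(4,[(7,10)]),(3,[(5,6)])],[3,2,1])],4,4,[6]),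
  ([([(7,[(22,28)]),(6,[(11,13),(7,8)])],[]),([(4,[(8,10)]),(4,[(7,10)]),(3,[(5,6)]),(3,[(5,6)])],[])],3,2,[]),
  ([([(7,[(22,28)]),(6,[(11,13),(7,8)])],[]),([(4,[(8,10)]),(4,[(7,10)]),(4,[(7,8)])],[4,3,2])],4,2,[5]),
  ([([(7,[(22,28)]),(7,[(11,13),(8,10),(5,5)])],[]),([(4,[(7,10)]),(4,[(7,8)]),(4,[(7,8)])],[3,2,1])],1,0,[]),
  ([([(7,[(22,28)]),(5,[(11,13)])],[]),([(4,[(8,10)]),(4,[(7,10)]),(4,[(9,10)])],[3,2])],4,5,[6,8,9]),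
  ([([(7,[(22,28)]),(5,[(11,13)])],[]),([(4,[(8,10)]),(4,[(7,10)]),(4,[(9,10)]),(3,[(5,6)])],[])],4,4,[5]),
  ([([(7,[(22,28)]),(7,[(11,13),(8,10),(5,5)])],[]),([(4,[(7,10)]),(4,[(9,10)]),(3,[(5,6)])],[4,3,2,1])],1,0,[]),
  ([([(7,[(22,28)]),(7,[(8,10),(9,10),(7,8)])],[]),([(5,[(11,13)]),(4,[(7,10)])],[])],3,2,[]),
  ([([(7,[(22,28)]),(5,[(11,13)])],[]),([(4,[(8,10)]),(4,[(7,10)]),(4,[(9,10)])],[3,2]),([(4,[(9,9)])],[4,4,4,4,3,3,3,2,2,2,1])],1,0,[]),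
  ([([(7,[(22,28)]),(5,[(11,13)])],[]),([(5,[(11,11)])],[5,5,4,3,2,1])],3,13,[6,10,11]),
  ([([(7,[(22,28)]),(5,[(11,13)])],[]),([(5,[(11,11)]),(3,[(4,6)])],[5,5,4])],3,13,[6]),
  ([([(7,[(22,28)]),(7,[(4,6),(4,6)])],[]),([(5,[(11,13)]),(5,[(11,11)])],[5])],2,13,[3,6]),
  ([([(7,[(22,28)]),(7,[(11,13),(11,11),(3,3)])],[]),([(3,[(4,6)]),(3,[(4,6)])],[3])],3,11,[]),
  ([([(7,[(22,28)]),(7,[(4,6),(4,6),(4,6)])],[]),([(5,[(11,13)]),(5,[(11,11)])],[5])],2,10,[3,4,6]),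
  ([([(7,[(22,28)]),(7,[(11,13),(11,11),(3,3)])],[]),([(3,[(4,6)]),(3,[(4,6)]),(3,[(4,6)])],[2,1])],3,8,[]),
  ([([(7,[(22,28)]),(7,[(11,13),(11,11),(4,4)])],[]),([(3,[(4,6)]),(3,[(4,6)]),(3,[(4,6)])],[2,1])],4,6,[]),
  ([([(8,[(4,6),(4,6),(4,6),(5,6)]),(7,[(22,28)])],[]),([(5,[(11,13)]),(5,[(11,11)])],[])],2,6,[3,4,6]),
  ([([(7,[(22,28)]),(7,[(11,13),(11,11),(3,3)])],[]),([(3,[(4,6)]),(3,[(4,6)]),(3,[(4,6)]),(3,[(5,6)])],[3])],3,4,[]),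
  ([([(7,[(22,28)]),(7,[(11,13),(11,11),(4,4)])],[]),([(3,[(4,6)]),(3,[(4,6)]),(3,[(4,6)]),(3,[(5,6)])],[3])],4,3,[]),
  ([([(8,[(11,13),(11,11),(5,6),(5,6)]),(7,[(22,28)])],[]),([(3,[(4,6)]),(3,[(4,6)]),(3,[(4,6)])],[3,2,1])],3,2,[]),
  ([([(7,[(22,28)]),(6,[(11,11),(7,10)])],[]),([(5,[(11,13)])],[5,4,3,2,1])],3,12,[6,10]),
  ([([(7,[(22,28)]),(6,[(11,11),(7,10)])],[]),([(5,[(11,13)]),(3,[(4,6)])],[5,4])],3,10,[6]),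
  ([([(7,[(22,28)]),(6,[(11,11),(7,10)])],[]),([(5,[(11,13)]),(3,[(4,6)]),(3,[(4,6)])],[5,4,3,2])],3,6,[6]),
  ([([(7,[(22,28)]),(7,[(4,6),(4,6),(4,6)])],[]),([(6,[(11,11),(7,10)]),(5,[(11,13)])],[])],2,4,[3,4,5]),
  ([([(7,[(22,28)]),(7,[(11,13),(11,11),(3,3)])],[]),([(4,[(7,10)]),(3,[(4,6)]),(3,[(4,6)]),(3,[(4,6)])],[])],3,2,[]),
  ([([(7,[(22,28)]),(7,[(11,13),(11,11),(4,4)])],[]),([(4,[(7,10)]),(3,[(4,6)]),(3,[(4,6)]),(3,[(4,6)])],[])],2,1,[]),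
  ([([(8,[(4,6),(4,6),(4,6),(5,5)]),(7,[(22,28)])],[]),([(6,[(11,11),(7,10)]),(5,[(11,13)])],[6])],1,0,[]),
  ([([(7,[(22,28)]),(6,[(11,11),(7,10)])],[]),([(5,[(11,13)]),(4,[(7,10)])],[5])],3,7,[6,8]),
  ([([(7,[(22,28)]),(6,[(11,11),(7,10)])],[]),([(5,[(11,13)]),(4,[(7,10)]),(3,[(4,6)])],[5,3,2])],3,4,[4,5]),
  ([([(7,[(22,28)]),(7,[(11,13),(11,11),(4,4)])],[]),([(4,[(7,10)]),(4,[(7,10)]),(3,[(4,6)])],[4,3,2,1])],2,1,[]),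
  ([([(7,[(22,28)]),(6,[(11,11),(7,10)])],[]),([(5,[(11,13)]),(5,[(7,10),(5,5)]),(3,[(4,6)])],[3,2])],1,0,[]),
  ([([(7,[(22,28)]),(6,[(11,13),(7,8)])],[]),([(6,[(11,11),(7,10)]),(4,[(7,10)])],[6,5])],2,1,[]),
  ([([(8,[(11,13),(11,11),(11,11)]),(7,[(22,28)])],[])],7,2,[10]),
  ([([(8,[(11,13),(11,11),(11,11)]),(7,[(22,28)])],[]),([(4,[(8,10)])],[4,3,2,1])],3,2,[]),
  ([([(7,[(22,28)]),(7,[(11,13),(12,13)])],[])],7,4,[10,13]),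
  ([([(8,[(11,13),(12,13),(8,10)]),(7,[(22,28)])],[])],7,2,[10]),
  ([([(7,[(22,28)]),(7,[(11,13),(12,13)])],[]),([(4,[(8,10)]),(4,[(8,10)])],[4])],4,1,[5]),
  ([([(8,[(11,13),(12,13),(8,10)]),(7,[(22,28)])],[]),([(5,[(8,10),(5,5)])],[5,4,3,2,1])],1,0,[]),
  ([([(7,[(22,28)]),(7,[(11,13),(12,13)])],[]),([(5,[(11,13)])],[4,3,2,1])],3,8,[6,9]),
  ([([(7,[(22,28)]),(7,[(11,13),(12,13)])],[]),([(5,[(11,13)]),(3,[(4,6)])],[4])],3,5,[6]),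
  ([([(7,[(22,28)]),(7,[(11,13),(12,13)])],[]),([(5,[(11,13)]),(3,[(4,6)]),(3,[(4,6)])],[4,3,2,1])],3,2,[]),
  ([([(7,[(22,28)]),(7,[(11,13),(12,13)])],[]),([(5,[(11,13)]),(4,[(7,9)])],[])],3,2,[]),
  ([([(7,[(22,28)]),(5,[(14,15)])],[])],8,3,[10,15]),
  ([([(7,[(22,28)]),(7,[(14,15),(9,10)])],[])],7,4,[10]),
  ([([(8,[(14,15),(9,10),(8,10)]),(7,[(22,28)])],[])],7,2,[10]),
  ([([(7,[(22,28)]),(7,[(14,15),(9,10)])],[]),([(4,[(8,10)]),(4,[(8,10)])],[4])],4,1,[5]),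
  ([([(8,[(14,15),(9,10),(8,10)]),(7,[(22,28)])],[]),([(5,[(8,10),(5,5)])],[5,4,3,2,1])],1,0,[]),
  ([([(7,[(22,28)]),(5,[(14,15)])],[]),([(5,[(11,15)])],[5,5,4,3,2,1])],3,13,[6,8,10,13,15]),
  ([([(7,[(22,28)]),(6,[(14,15),(4,6)])],[]),([(5,[(11,15)])],[5,4,3,2,1])],3,12,[6]),
  ([([(7,[(22,28)]),(6,[(14,15),(4,6)])],[]),([(5,[(11,15)]),(3,[(4,6)])],[5,4])],3,10,[6]),
  ([([(7,[(22,28)]),(6,[(14,15),(4,6)])],[]),([(5,[(11,15)]),(3,[(4,6)]),(3,[(4,6)])],[5,4,3,2])],3,6,[4,6]),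
  ([([(7,[(22,28)]),(6,[(14,15),(4,6)])],[]),([(5,[(11,15)]),(4,[(4,6),(4,4)]),(3,[(4,6)])],[5,3,2])],3,4,[4]),
  ([([(7,[(22,28)]),(7,[(4,6),(4,6),(4,4),(4,4)])],[]),([(6,[(14,15),(4,6)]),(5,[(11,15)])],[])],2,1,[]),
  ([([(7,[(22,28)]),(7,[(4,6),(4,6),(5,6)])],[]),([(6,[(14,15),(4,6)]),(5,[(11,15)])],[])],2,3,[3,4]),
  ([([(7,[(22,28)]),(7,[(4,6),(4,6),(5,6),(3,3)])],[]),([(6,[(14,15),(4,6)]),(5,[(11,15)])],[])],2,1,[]),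
  ([([(7,[(22,28)]),(7,[(4,6),(4,6),(5,6),(4,4)])],[]),([(6,[(14,15),(4,6)]),(5,[(11,15)])],[])],1,0,[]),
  ([([(7,[(22,28)]),(5,[(14,15)])],[]),([(5,[(11,15)]),(4,[(7,8)])],[5,5])],3,10,[6,7,8]),
  ([([(7,[(22,28)]),(6,[(14,15),(4,6)])],[]),([(5,[(11,15)]),(4,[(7,8)])],[5])],3,7,[6]),
  ([([(7,[(22,28)]),(6,[(14,15),(4,6)])],[]),([(5,[(11,15)]),(4,[(7,8)]),(3,[(4,6)])],[5,3,2])],3,4,[5]),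
  ([([(7,[(22,28)]),(7,[(14,15),(7,8),(4,5)])],[]),([(5,[(11,15)]),(3,[(4,6)]),(3,[(4,6)])],[4,3,2,1])],2,1,[]),
  ([([(7,[(22,28)]),(5,[(14,15)])],[]),([(5,[(11,15)]),(5,[(7,8),(7,7)])],[5])],3,4,[5]),
  ([([(8,[(14,15),(7,8),(7,7),(4,5)]),(7,[(22,28)])],[]),([(5,[(11,15)])],[5,4,3,2,1])],2,1,[]),
  ([([(8,[(22,28),(8,8)]),(5,[(14,15)])],[]),([(5,[(11,15)]),(4,[(7,8)])],[5,5,5])],2,3,[3,4]),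
  ([([(8,[(22,28),(8,8)]),(7,[(14,15),(7,8),(3,3)])],[]),([(5,[(11,15)])],[5,4,3,2,1])],2,1,[]),
  ([([(8,[(22,28),(8,8)]),(7,[(14,15),(7,8),(4,4)])],[]),([(5,[(11,15)])],[5,4,3,2,1])],1,0,[]),
  ([([(7,[(22,28)]),(7,[(14,15),(9,10)])],[]),([(5,[(11,15)])],[4,3,2,1])],3,8,[6,9]),
  ([([(7,[(22,28)]),(7,[(14,15),(9,10)])],[]),([(5,[(11,15)]),(3,[(4,6)])],[4])],3,5,[6]),
  ([([(7,[(22,28)]),(7,[(14,15),(9,10)])],[]),([(5,[(11,15)]),(3,[(4,6)]),(3,[(4,6)])],[4,3,2,1])],3,2,[]),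
  ([([(7,[(22,28)]),(7,[(14,15),(9,10)])],[]),([(5,[(11,15)]),(4,[(7,9)])],[])],3,2,[]),
  ([([(7,[(22,28)]),(7,[(14,15),(11,13)])],[]),([(5,[(11,15)])],[4,3,2,1])],3,6,[6,7]),
  ([([(7,[(22,28)]),(7,[(14,15),(11,13)])],[]),([(5,[(11,15)]),(3,[(4,6)])],[4])],3,3,[4]),
  ([([(7,[(22,28)]),(7,[(14,15),(11,13)])],[]),([(5,[(11,15)]),(4,[(4,6),(4,4)])],[])],1,0,[]),
  ([([(8,[(14,15),(11,13),(7,7)]),(7,[(22,28)])],[]),([(5,[(11,15)])],[5,4,3,2,1])],1,0,[]),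
  ([([(7,[(22,28)]),(5,[(14,15)])],[]),([(5,[(11,15)]),(5,[(14,15)])],[5])],3,3,[4]),
  ([([(8,[(14,15),(14,15),(4,4)]),(7,[(22,28)])],[]),([(5,[(11,15)])],[5,4,3,2,1])],1,0,[]),
  ([([(7,[(22,28)]),(6,[(16,21)])],[])],7,6,[10,15,21]),
  ([([(7,[(22,28)]),(6,[(16,21)])],[]),([(4,[(8,10)])],[4,3,2,1])],4,10,[6,10]),
  ([([(7,[(22,28)]),(6,[(16,21)])],[]),([(4,[(8,10)]),(3,[(5,6)])],[4])],4,10,[6]),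
  ([([(7,[(22,28)]),(6,[(16,21)])],[]),([(4,[(8,10)]),(3,[(5,6)]),(3,[(5,6)])],[4,3,2,1])],4,4,[6]),
  ([([(7,[(22,28)]),(6,[(16,21)])],[]),([(4,[(8,10)]),(3,[(5,6)]),(3,[(5,6)]),(3,[(5,6)])],[4])],4,4,[6]),
  ([([(8,[(5,6),(5,6),(5,6),(5,6)]),(7,[(22,28)])],[]),([(6,[(16,21)]),(4,[(8,10)])],[6,5])],1,1,[2]),
  ([([(8,[(5,6),(5,6),(5,6),(5,6),(2,2)]),(7,[(22,28)])],[]),([(6,[(16,21)]),(4,[(8,10)])],[6,5])],1,0,[]),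
  ([([(7,[(22,28)]),(6,[(16,21)])],[]),([(4,[(8,10)]),(4,[(7,10)])],[])],4,10,[6,10]),
  ([([(7,[(22,28)]),(6,[(16,21)])],[]),([(4,[(8,10)]),(4,[(7,10)]),(3,[(5,6)])],[3,2,1])],4,4,[6]),
  ([([(7,[(22,28)]),(6,[(16,21)])],[]),([(4,[(8,10)]),(4,[(7,10)]),(3,[(5,6)]),(3,[(5,6)])],[])],4,3,[]),
  ([([(7,[(22,28)]),(6,[(16,21)])],[]),([(4,[(8,10)]),(4,[(7,10)]),(4,[(7,10)])],[4,3,2])],4,2,[6]),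
  ([([(7,[(22,28)]),(6,[(16,21)])],[]),([(4,[(8,10)]),(4,[(7,10)]),(4,[(7,10)])],[4,3,2]),([(3,[(5,6)])],[3,2,2,2,1,1,1])],1,1,[2]),
  ([([(7,[(22,28)]),(6,[(16,21)])],[]),([(4,[(8,10)]),(4,[(7,10)]),(4,[(7,10)])],[4,3,2]),([(3,[(5,6)]),(2,[(2,2)])],[3,2,2,1,1])],1,0,[]),
  ([([(7,[(22,28)]),(6,[(16,21)])],[]),([(5,[(11,15)])],[5,4,3,2,1])],3,12,[6,8,10,15]),
  ([([(7,[(22,28)]),(6,[(16,21)])],[]),([(5,[(11,15)]),(3,[(4,6)])],[5,4])],3,11,[6]),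
  ([([(7,[(22,28)]),(6,[(16,21)])],[]),([(5,[(11,15)]),(3,[(4,6)]),(3,[(4,6)])],[5,4,3,2])],3,6,[6]),
  ([([(7,[(22,28)]),(7,[(4,6),(4,6),(4,6)])],[]),([(6,[(16,21)]),(5,[(11,15)])],[])],2,5,[3,4,6]),
  ([([(7,[(22,28)]),(7,[(4,6),(4,6),(4,6),(3,3)])],[]),([(6,[(16,21)]),(5,[(11,15)])],[])],2,3,[3]),
  ([([(7,[(22,28)]),(7,[(4,6),(4,6),(4,6),(3,3),(3,3)])],[]),([(6,[(16,21)]),(5,[(11,15)])],[])],2,1,[]),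
  ([([(7,[(22,28)]),(7,[(4,6),(4,6),(4,6),(4,4)])],[]),([(6,[(16,21)]),(5,[(11,15)])],[])],2,2,[3]),
  ([([(7,[(22,28)]),(7,[(4,6),(4,6),(4,6),(4,4),(3,3)])],[]),([(6,[(16,21)]),(5,[(11,15)])],[])],1,0,[]),
  ([([(8,[(4,6),(4,6),(4,6),(5,6)]),(7,[(22,28)])],[]),([(6,[(16,21)]),(5,[(11,15)])],[6])],1,1,[2]),
  ([([(8,[(4,6),(4,6),(4,6),(5,6),(2,2)]),(7,[(22,28)])],[]),([(6,[(16,21)]),(5,[(11,15)])],[6])],1,0,[]),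
  ([([(7,[(22,28)]),(6,[(16,21)])],[]),([(5,[(11,15)]),(4,[(7,8)])],[5])],3,8,[6,7,8]),
  ([([(7,[(22,28)]),(6,[(16,21)])],[]),([(5,[(11,15)]),(4,[(7,8)]),(3,[(4,6)])],[5,3,2])],3,5,[6]),
  ([([(8,[(7,8),(4,6),(4,6)]),(7,[(22,28)])],[]),([(6,[(16,21)]),(5,[(11,15)])],[6])],1,2,[3]),
  ([([(8,[(7,8),(4,6),(4,6),(2,3)]),(7,[(22,28)])],[]),([(6,[(16,21)]),(5,[(11,15)])],[6])],1,1,[2]),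
  ([([(8,[(7,8),(4,6),(4,6),(2,3),(2,2)]),(7,[(22,28)])],[]),([(6,[(16,21)]),(5,[(11,15)])],[6])],1,0,[]),
  ([([(7,[(22,28)]),(7,[(16,21),(7,7)])],[]),([(5,[(11,15)]),(4,[(7,8)])],[])],3,2,[]),
  ([([(8,[(22,28),(8,8)]),(6,[(16,21)])],[]),([(5,[(11,15)]),(4,[(7,8)])],[5,5])],2,1,[]),
  ([([(7,[(22,28)]),(6,[(16,21)])],[]),([(5,[(11,15)]),(4,[(9,10)])],[5])],3,6,[6,7]),
  ([([(7,[(22,28)]),(6,[(16,21)])],[]),([(5,[(11,15)]),(4,[(9,10)]),(3,[(4,6)])],[5,3,2])],3,3,[4]),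
  ([([(7,[(22,28)]),(6,[(16,21)])],[]),([(5,[(11,15)]),(5,[(9,10),(4,4)]),(3,[(4,6)])],[3,2])],1,0,[]),
  ([([(7,[(22,28)]),(7,[(16,21),(7,7)])],[]),([(5,[(11,15)]),(4,[(9,10)])],[])],1,0,[]),
  ([([(7,[(22,28)]),(6,[(16,21)])],[]),([(5,[(11,15)]),(5,[(11,15)])],[])],3,4,[5]),
  ([([(7,[(22,28)]),(6,[(16,21)])],[]),([(5,[(11,15)]),(5,[(11,15)]),(3,[(4,5)])],[3,2])],2,1,[]),
  ([([(7,[(22,28)]),(6,[(16,21)])],[]),([(6,[(16,21)])],[6,5,4,3,2,1])],2,9,[3,6,8,10]),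
  ([([(7,[(22,28)]),(6,[(16,21)])],[]),([(6,[(16,21)]),(2,[(3,3)])],[6,5,4,3])],2,7,[3]),
  ([([(7,[(22,28)]),(6,[(16,21)])],[]),([(6,[(16,21)]),(3,[(3,3),(3,3)])],[6,5,4])],2,5,[3]),
  ([([(7,[(22,28)]),(6,[(16,21)])],[]),([(6,[(16,21)]),(4,[(3,3),(3,3),(3,3)])],[6,5])],2,3,[3]),
  ([([(7,[(22,28)]),(6,[(16,21)])],[]),([(6,[(16,21)]),(5,[(3,3),(3,3),(3,3),(3,3)])],[6])],2,1,[]),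
  ([([(7,[(22,28)]),(6,[(16,21)])],[]),([(6,[(16,21)]),(3,[(4,6)])],[6,5,4])],2,6,[3,6]),
  ([([(7,[(22,28)]),(6,[(16,21)])],[]),([(6,[(16,21)]),(6,[(4,6),(3,3)])],[])],2,4,[3]),
  ([([(7,[(22,28)]),(6,[(16,21)])],[]),([(6,[(16,21)]),(6,[(4,6),(3,3),(3,3)])],[])],2,2,[3]),
  ([([(7,[(22,28)]),(6,[(16,21)])],[]),([(6,[(16,21)]),(6,[(4,6),(3,3),(3,3),(3,3)])],[])],1,0,[]),
  ([([(7,[(22,28)]),(7,[(4,6),(4,6)])],[]),([(6,[(16,21)]),(6,[(16,21)])],[6])],1,3,[3,4]),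
  ([([(7,[(22,28)]),(7,[(4,6),(4,6),(2,3)])],[]),([(6,[(16,21)]),(6,[(16,21)])],[6])],1,2,[3]),
  ([([(7,[(22,28)]),(7,[(4,6),(4,6),(2,3),(2,3)])],[]),([(6,[(16,21)]),(6,[(16,21)])],[6])],2,1,[]),
  ([([(7,[(22,28)]),(7,[(4,6),(4,6),(4,4)])],[]),([(6,[(16,21)]),(6,[(16,21)])],[6])],1,0,[]),
  ([([(7,[(22,28)]),(6,[(16,21)])],[]),([(6,[(16,21)]),(4,[(7,8)])],[6,5])],2,3,[3,4]),
  ([([(7,[(22,28)]),(6,[(16,21)])],[]),([(6,[(16,21)]),(4,[(7,8)]),(2,[(3,3)])],[6,5,2])],2,1,[]),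
  ([([(8,[(7,8),(4,4)]),(7,[(22,28)])],[]),([(6,[(16,21)]),(6,[(16,21)])],[])],1,0,[]),
  ([([(7,[(22,28)]),(6,[(16,21)])],[]),([(6,[(16,21)]),(4,[(9,10)])],[6,5])],2,1,[]),
  ([([(7,[(22,28)]),(7,[(22,28)])],[])],7,4,[10,15,19]),
  ([([(7,[(22,28)]),(7,[(22,28)])],[]),([(4,[(8,10)])],[3,2,1])],4,9,[6,10]),
  ([([(7,[(22,28)]),(7,[(22,28)])],[]),([(4,[(8,10)]),(3,[(5,6)])],[])],4,7,[6]),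
  ([([(7,[(22,28)]),(7,[(22,28)])],[]),([(4,[(8,10)]),(3,[(5,6)]),(3,[(5,6)])],[3,2,1])],4,3,[]),
  ([([(7,[(22,28)]),(7,[(22,28)])],[]),([(4,[(8,10)]),(4,[(7,10)])],[4])],4,1,[6]),
  ([([(7,[(22,28)]),(7,[(22,28)])],[]),([(4,[(8,10)]),(4,[(7,10)]),(3,[(5,6)])],[4,3,2,1])],2,1,[]),
  ([([(7,[(22,28)]),(7,[(22,28)])],[]),([(5,[(11,15)])],[4,3,2,1])],3,8,[6,9]),
  ([([(7,[(22,28)]),(7,[(22,28)])],[]),([(5,[(11,15)]),(3,[(4,6)])],[4])],3,5,[6]),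
  ([([(7,[(22,28)]),(7,[(22,28)])],[]),([(5,[(11,15)]),(3,[(4,6)]),(3,[(4,6)])],[4,3,2,1])],3,2,[]),
  ([([(7,[(22,28)]),(7,[(22,28)])],[]),([(5,[(11,15)]),(4,[(7,9)])],[])],3,2,[]),
  ([([(7,[(22,28)]),(7,[(22,28)])],[]),([(6,[(16,19)])],[5,4,3,2,1])],2,3,[3,4]),
  ([([(7,[(22,28)]),(7,[(22,28)])],[]),([(6,[(16,19)]),(2,[(3,3)])],[5,4,3])],2,1,[]),
  ([([(7,[(22,28)]),(7,[(22,28)])],[]),([(6,[(16,19)]),(3,[(4,4)])],[5,4])],1,0,[]),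
  ([([(8,[(29,32)])],[])],7,9,[10,15,21,28,32]), ([([(8,[(29,32)]),(4,[(8,10)])],[])],7,5,[9,10]),
  ([([(8,[(29,32)]),(4,[(8,10)])],[]),([(4,[(8,9)])],[4,4,4,4,3,2,1])],3,13,[6,8,9]),
  ([([(8,[(29,32)]),(5,[(8,9),(4,6)])],[]),([(4,[(8,10)])],[4,4,4,3,2,1])],3,12,[6]),
  ([([(8,[(29,32)]),(5,[(8,9),(4,6)])],[]),([(4,[(8,10)]),(3,[(4,6)])],[4,4,4])],3,12,[6]),
  ([([(8,[(29,32)]),(5,[(8,9),(4,6)])],[]),([(4,[(8,10)]),(3,[(4,6)]),(3,[(4,6)])],[4,4,4,3,2])],3,6,[6]),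
  ([([(8,[(29,32)]),(7,[(4,6),(4,6),(4,6)])],[]),([(4,[(8,10)]),(4,[(8,9)]),(3,[(4,6)])],[3,2,1])],3,4,[4,6]),
  ([([(9,[(29,32),(8,9),(4,4)]),(4,[(8,10)])],[]),([(3,[(4,6)]),(3,[(4,6)]),(3,[(4,6)]),(3,[(4,6)])],[3,3])],3,3,[4]),
  ([([(10,[(29,32),(8,10),(8,9),(4,4)]),(4,[(4,6),(4,4)])],[]),([(3,[(4,6)]),(3,[(4,6)]),(3,[(4,6)])],[3,3,3,3,2,1])],1,0,[]),
  ([([(8,[(29,32)]),(7,[(4,6),(4,6),(4,6)])],[]),([(4,[(8,10)]),(4,[(8,9)]),(3,[(4,6)]),(3,[(5,6)])],[])],3,2,[]),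
  ([([(8,[(29,32)]),(4,[(8,10)])],[]),([(4,[(8,9)]),(4,[(7,8)])],[4,4,4])],3,12,[6,7,8]),
  ([([(8,[(29,32)]),(5,[(8,9),(4,6)])],[]),([(4,[(8,10)]),(4,[(7,8)])],[4,4])],3,9,[6]),
  ([([(8,[(29,32)]),(5,[(8,9),(4,6)])],[]),([(4,[(8,10)]),(4,[(7,8)]),(3,[(4,6)])],[4,4,3,2])],3,6,[5,6]),
  ([([(8,[(29,32)]),(6,[(4,6),(4,5)])],[]),([(4,[(8,10)]),(4,[(8,9)]),(4,[(7,8)]),(3,[(4,6)])],[])],3,3,[4]),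
  ([([(10,[(29,32),(8,10),(8,9),(4,4)]),(4,[(7,8)])],[]),([(3,[(4,6)]),(3,[(4,6)]),(3,[(4,5)])],[3,3,3,3,2,1])],1,0,[]),
  ([([(10,[(29,32),(8,9),(7,8),(6,6)]),(4,[(8,10)])],[]),([(3,[(4,6)]),(3,[(4,6)])],[3,3,3,3,3])],2,1,[]),
  ([([(8,[(29,32)]),(5,[(7,8),(7,7)])],[]),([(4,[(8,10)]),(4,[(8,9)])],[4,4])],3,6,[6,7]),
  ([([(8,[(29,32)]),(6,[(7,8),(7,7),(4,6)])],[]),([(4,[(8,10)]),(4,[(8,9)])],[4])],3,3,[4]),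
  ([([(10,[(29,32),(8,10),(8,9),(4,4)]),(5,[(7,8),(7,7)])],[]),([(3,[(4,6)])],[3,3,3,3,3,2,1])],1,0,[]),
  ([([(10,[(29,32),(8,9),(7,7),(7,7)]),(4,[(8,10)])],[]),([(4,[(7,8)])],[4,4,4,4,4,4,3,2,1])],1,0,[]),
  ([([(8,[(29,32)]),(7,[(8,10),(8,9),(8,8)])],[]),([(4,[(7,8)])],[4,3,2,1])],3,5,[6]),
  ([([(8,[(29,32)]),(7,[(8,10),(8,9),(8,8)])],[]),([(4,[(7,8)]),(3,[(4,6)])],[4])],3,2,[]),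
  ([([(8,[(29,32)]),(7,[(8,10),(8,9),(9,9)])],[])],7,2,[9]),
  ([([(8,[(29,32)]),(7,[(8,10),(8,9),(9,9)])],[]),([(4,[(8,9)])],[4,3,2,1])],3,3,[4]),
  ([([(10,[(29,32),(8,10),(8,9),(4,4)]),(4,[(9,9)])],[]),([(4,[(8,9)])],[4,4,4,4,4,4,3,2,1])],1,0,[]),
  ([([(8,[(29,32)]),(6,[(8,10),(10,10)])],[])],7,3,[10]),
  ([([(8,[(29,32)]),(6,[(8,10),(10,10)])],[]),([(4,[(8,10)])],[4,4,3,2,1])],3,9,[6,10]),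
  ([([(8,[(29,32)]),(6,[(8,10),(10,10)])],[]),([(4,[(8,10)]),(3,[(4,6)])],[4,4])],3,6,[6]),
  ([([(8,[(29,32)]),(6,[(8,10),(10,10)])],[]),([(4,[(8,10)]),(3,[(4,6)]),(3,[(4,6)])],[4,4,3,2,1])],3,3,[4]),
  ([([(8,[(29,32),(4,4)]),(7,[(4,6),(4,6)])],[]),([(6,[(8,10),(10,10)]),(4,[(8,10)])],[6,5])],1,0,[]),
  ([([(8,[(29,32)]),(6,[(8,10),(10,10)])],[]),([(4,[(8,10)]),(4,[(7,10)])],[4])],3,3,[4]),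
  ([([(9,[(29,32),(10,10)]),(5,[(8,10),(4,4)])],[]),([(4,[(8,10)]),(4,[(7,10)])],[4,4,4])],1,0,[]),
  ([([(8,[(29,32)]),(5,[(11,15)])],[])],7,4,[10,13,15]),
  ([([(8,[(29,32)]),(5,[(11,15)])],[]),([(4,[(8,10)])],[4,4,4,3,2,1])],3,12,[6,10]),
  ([([(8,[(29,32)]),(5,[(11,15)])],[]),([(4,[(8,10)]),(3,[(4,6)])],[4,4,4])],3,12,[6]),
  ([([(8,[(29,32)]),(5,[(11,15)])],[]),([(4,[(8,10)]),(3,[(4,6)]),(3,[(4,6)])],[4,4,4,3,2])],3,6,[6]),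
  ([([(8,[(29,32)]),(7,[(4,6),(4,6),(4,6)])],[]),([(5,[(11,15)]),(4,[(8,10)])],[5])],2,6,[3,5,6]),
  ([([(9,[(29,32),(8,10),(3,3)]),(5,[(11,15)])],[]),([(3,[(4,6)]),(3,[(4,6)]),(3,[(4,6)])],[3,3,2,1])],3,4,[]),
  ([([(8,[(29,32)]),(7,[(4,6),(4,6),(4,6)])],[]),([(5,[(11,15)]),(5,[(8,10),(4,5)])],[])],2,3,[3,4]),
  ([([(9,[(29,32),(8,10),(3,3)]),(5,[(11,15)])],[]),([(3,[(4,6)]),(3,[(4,6)]),(3,[(4,6)]),(3,[(4,5)])],[3])],2,1,[]),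
  ([([(8,[(29,32),(4,4)]),(7,[(4,6),(4,6),(4,6)])],[]),([(5,[(11,15)]),(5,[(8,10),(4,5)])],[])],1,0,[]),
  ([([(8,[(29,32)]),(6,[(11,15),(6,6)])],[]),([(4,[(8,10)]),(3,[(4,6)]),(3,[(4,6)]),(3,[(4,6)])],[4,4])],2,1,[]),
  ([([(8,[(29,32)]),(5,[(11,15)])],[]),([(4,[(8,10)]),(4,[(7,10)])],[4,4])],3,9,[5,6,10]),
  ([([(8,[(29,32)]),(5,[(11,15)])],[]),([(4,[(8,10)]),(4,[(7,10)]),(3,[(4,5)])],[4,4,3,2])],3,6,[5]),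
  ([([(8,[(29,32)]),(5,[(11,15)])],[]),([(4,[(8,10)]),(4,[(7,10)]),(4,[(4,5),(4,5)])],[4,3,2])],3,3,[4]),
  ([([(8,[(29,32),(4,4)]),(5,[(11,15)])],[]),([(4,[(8,10)]),(4,[(7,10)]),(4,[(4,5),(4,5)])],[4,3,2])],1,0,[]),
  ([([(8,[(29,32)]),(6,[(11,15),(6,6)])],[]),([(4,[(8,10)]),(4,[(7,10)])],[4])],3,4,[5]),
  ([([(9,[(29,32),(6,6),(4,5)]),(5,[(11,15)])],[]),([(4,[(8,10)]),(4,[(7,10)])],[4,4,4])],2,1,[]),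
  ([([(8,[(29,32)]),(5,[(11,15)])],[]),([(4,[(8,10)]),(4,[(7,10)]),(4,[(7,10)])],[4,3,2])],3,3,[4]),
  ([([(8,[(29,32),(4,4)]),(5,[(11,15)])],[]),([(4,[(8,10)]),(4,[(7,10)]),(4,[(7,10)])],[4,3,2])],1,0,[]),
  ([([(9,[(29,32),(11,13)]),(5,[(11,15)])],[])],6,5,[10,13]),
  ([([(9,[(29,32),(11,13)]),(5,[(11,15)])],[]),([(4,[(7,10)])],[4,4,4,4,3,2,1])],2,6,[3,6,7]),
  ([([(9,[(29,32),(11,13)]),(5,[(11,15)])],[]),([(4,[(7,10)]),(2,[(3,3)])],[4,4,4,4,3])],2,4,[3]),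
  ([([(9,[(29,32),(11,13)]),(5,[(11,15)])],[]),([(4,[(7,10)]),(3,[(3,3),(3,3)])],[4,4,4,4])],2,2,[3]),
  ([([(9,[(29,32),(11,13)]),(5,[(11,15)])],[]),([(4,[(7,10)]),(4,[(3,3),(3,3),(3,3)])],[4,4,4])],1,0,[]),
  ([([(9,[(29,32),(11,13)]),(5,[(11,15)])],[]),([(4,[(7,10)]),(3,[(4,6)])],[4,4,4,4])],2,3,[3,4]),
  ([([(9,[(29,32),(11,13)]),(5,[(11,15)])],[]),([(4,[(7,10)]),(3,[(4,6)]),(2,[(3,3)])],[4,4,4,4,2,1])],2,1,[]),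
  ([([(9,[(29,32),(11,13)]),(5,[(11,15)])],[]),([(4,[(7,10)]),(4,[(4,6),(4,4)])],[4,4,4])],1,0,[]),
  ([([(9,[(29,32),(11,13)]),(5,[(11,15)])],[]),([(4,[(7,10)]),(4,[(7,7)])],[4,4,4])],1,0,[]),
  ([([(8,[(29,32)]),(5,[(11,15)])],[]),([(5,[(11,13)]),(5,[(11,13)])],[5,5])],2,2,[3]),
  ([([(9,[(29,32),(11,13)]),(5,[(11,15)])],[]),([(5,[(11,13)]),(2,[(3,3)])],[5,5,5,5,4,3])],1,0,[]),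
  ([([(8,[(29,32)]),(5,[(11,15)])],[]),([(5,[(14,15)])],[5,5,5,4,3,2,1])],2,9,[3,6,10]),
  ([([(8,[(29,32),(3,3)]),(5,[(11,15)])],[]),([(5,[(14,15)])],[5,5,5,4,3,2,1])],2,7,[3]),
  ([([(10,[(29,32),(14,15),(3,3),(3,3)]),(5,[(11,15)])],[])],3,5,[]),
  ([([(8,[(29,32)]),(6,[(14,15),(4,6)])],[]),([(5,[(11,15)])],[5,5,4,3,2,1])],2,6,[3,6]),
  ([([(8,[(29,32),(3,3)]),(6,[(14,15),(4,6)])],[]),([(5,[(11,15)])],[5,5,4,3,2,1])],2,4,[3]),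
  ([([(10,[(29,32),(14,15),(3,3),(3,3)]),(5,[(11,15)])],[]),([(3,[(4,6)])],[3,3,3,3,3,2,1])],2,2,[3]),
  ([([(10,[(29,32),(14,15),(3,3),(3,3)]),(5,[(11,15)])],[]),([(3,[(4,6)]),(2,[(3,3)])],[3,3,3,3,3])],1,0,[]),
  ([([(8,[(29,32)]),(6,[(14,15),(4,6)])],[]),([(5,[(11,15)]),(3,[(4,6)])],[5,5,4])],2,3,[3,4]),
  ([([(8,[(29,32),(3,3)]),(6,[(14,15),(4,6)])],[]),([(5,[(11,15)]),(3,[(4,6)])],[5,5,4])],2,1,[]),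
  ([([(8,[(29,32),(4,4)]),(6,[(14,15),(4,6)])],[]),([(5,[(11,15)]),(3,[(4,6)])],[5,5,4])],1,0,[]),
  ([([(8,[(29,32)]),(5,[(11,15)])],[]),([(5,[(14,15)]),(4,[(7,10)])],[5,5,5])],2,3,[3,4]),
  ([([(8,[(29,32)]),(7,[(14,15),(7,10),(3,3)])],[]),([(5,[(11,15)])],[5,4,3,2,1])],2,1,[]),
  ([([(8,[(29,32),(4,4)]),(5,[(11,15)])],[]),([(5,[(14,15)]),(4,[(7,10)])],[5,5,5])],1,0,[]),
  ([([(8,[(29,32)]),(6,[(16,21)])],[])],7,3,[10,15,18]),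
  ([([(8,[(29,32)]),(6,[(16,21)])],[]),([(4,[(8,10)])],[4,4,3,2,1])],3,10,[6,10]),
  ([([(8,[(29,32)]),(6,[(16,21)])],[]),([(4,[(8,10)]),(3,[(4,6)])],[4,4])],3,7,[6]),
  ([([(8,[(29,32)]),(6,[(16,21)])],[]),([(4,[(8,10)]),(3,[(4,6)]),(3,[(4,6)])],[4,4,3,2,1])],3,4,[5]),
  ([([(8,[(29,32)]),(6,[(16,21)])],[]),([(4,[(8,10)]),(3,[(4,6)]),(3,[(4,6)]),(3,[(4,5)])],[4,4])],2,1,[]),
  ([([(8,[(29,32)]),(6,[(16,21)])],[]),([(4,[(8,10)]),(4,[(7,10)])],[4])],3,4,[5]),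
  ([([(8,[(29,32)]),(6,[(16,21)])],[]),([(5,[(8,10),(4,5)]),(4,[(7,10)])],[5,5])],2,1,[]),
  ([([(8,[(29,32)]),(6,[(16,21)])],[]),([(5,[(11,15)])],[5,5,4,3,2,1])],2,7,[3,6,8]),
  ([([(8,[(29,32),(3,3)]),(6,[(16,21)])],[]),([(5,[(11,15)])],[5,5,4,3,2,1])],2,5,[3]),
  ([([(8,[(29,32),(3,3)]),(6,[(16,21)])],[]),([(5,[(11,15)]),(2,[(3,3)])],[5,5,4,3])],2,3,[3]),
  ([([(8,[(29,32),(3,3)]),(6,[(16,21)])],[]),([(5,[(11,15)]),(3,[(3,3),(3,3)])],[5,5,4])],2,1,[]),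
  ([([(8,[(29,32)]),(6,[(16,21)])],[]),([(5,[(11,15)]),(3,[(4,6)])],[5,5,4])],2,4,[3,5]),
  ([([(8,[(29,32),(3,3)]),(6,[(16,21)])],[]),([(5,[(11,15)]),(3,[(4,6)])],[5,5,4])],2,2,[3]),
  ([([(8,[(29,32),(3,3)]),(6,[(16,21)])],[]),([(6,[(4,6),(3,3)]),(5,[(11,15)])],[6,6])],1,0,[]),
  ([([(8,[(29,32)]),(6,[(16,21)])],[]),([(6,[(4,6),(4,5)]),(5,[(11,15)])],[6,6])],1,1,[2]),
  ([([(8,[(29,32),(2,2)]),(6,[(16,21)])],[]),([(6,[(4,6),(4,5)]),(5,[(11,15)])],[6,6])],1,0,[]),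
  ([([(8,[(29,32)]),(6,[(16,21)])],[]),([(5,[(11,15)]),(4,[(7,8)])],[5,5])],2,1,[]),
  ([([(8,[(29,32)]),(6,[(16,21)])],[]),([(6,[(16,18)])],[6,6,5,4,3,2,1])],1,2,[3]),
  ([([(8,[(29,32),(2,3)]),(6,[(16,21)])],[]),([(6,[(16,18)])],[6,6,5,4,3,2,1])],1,1,[2]),
  ([([(8,[(29,32),(2,3)]),(6,[(16,21)])],[]),([(6,[(16,18),(2,2)])],[6,6,5,4,3,2,1])],1,0,[]),
  ([([(8,[(29,32)]),(7,[(22,28)])],[])],7,2,[10,12]),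
  ([([(8,[(29,32)]),(7,[(22,28)])],[]),([(4,[(8,10)])],[4,3,2,1])],3,4,[5]),
  ([([(8,[(29,32)]),(7,[(22,28)])],[]),([(5,[(8,10),(4,5)])],[5,4,3,2,1])],2,1,[]),
  ([([(8,[(29,32)]),(7,[(22,28)])],[]),([(5,[(11,12)])],[5,4,3,2,1])],2,1,[]),
  ([([(11,[(29,32),(29,32)])],[])],4,4,[5]), ([([(11,[(29,32),(29,32)]),(3,[(5,5)])],[])],1,0,[]),
  ([([(8,[(33,36)])],[])],7,9,[10,15,21,28,29]), ([([(8,[(33,36)]),(4,[(8,10)])],[])],7,5,[10]),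
  ([([(8,[(33,36)]),(4,[(8,10)])],[]),([(4,[(8,10)])],[4,4,4,4,3,2,1])],3,13,[6,10]),
  ([([(8,[(33,36)]),(4,[(8,10)])],[]),([(4,[(8,10)]),(3,[(4,6)])],[4,4,4,4])],3,11,[6]),
  ([([(8,[(33,36)]),(7,[(4,6),(4,6)])],[]),([(4,[(8,10)]),(4,[(8,10)])],[])],3,8,[6]),
  ([([(8,[(33,36)]),(7,[(4,6),(4,6),(4,6)])],[]),([(4,[(8,10)]),(4,[(8,10)])],[])],3,5,[6]),
  ([([(8,[(33,36)]),(7,[(4,6),(4,6),(4,6)])],[]),([(4,[(8,10)]),(4,[(8,10)]),(3,[(4,6)])],[3,2,1])],3,2,[]),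
  ([([(8,[(33,36)]),(4,[(8,10)])],[]),([(4,[(8,10)]),(4,[(7,10)])],[4,4,4])],3,8,[5,6,9]),
  ([([(8,[(33,36)]),(5,[(8,10),(4,5)])],[]),([(4,[(8,10)]),(4,[(7,10)])],[4,4])],3,5,[5]),
  ([([(8,[(33,36)]),(5,[(8,10),(4,5)])],[]),([(4,[(8,10)]),(4,[(7,10)]),(3,[(4,5)])],[4,4,3,2])],3,2,[]),
  ([([(9,[(33,36),(6,6)]),(4,[(8,10)])],[]),([(4,[(8,10)]),(4,[(7,10)])],[4,4,4,4])],2,3,[3,4]),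
  ([([(9,[(33,36),(6,6),(3,3)]),(4,[(8,10)])],[]),([(4,[(8,10)]),(4,[(7,10)])],[4,4,4,4])],2,1,[]),
  ([([(9,[(33,36),(6,6)]),(5,[(8,10),(4,4)])],[]),([(4,[(8,10)]),(4,[(7,10)])],[4,4,4])],1,0,[]),
  ([([(9,[(33,36),(7,9)]),(4,[(8,10)])],[]),([(4,[(8,10)]),(4,[(7,10)])],[4,4,4,4])],2,2,[3]),
  ([([(10,[(33,36),(8,10),(7,9)]),(4,[(8,10)])],[]),([(4,[(7,10)]),(2,[(3,3)])],[4,4,4,4,4,4,3])],1,0,[]),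
  ([([(8,[(33,36)]),(5,[(11,15)])],[])],7,4,[10,15]),
  ([([(8,[(33,36)]),(5,[(11,15)])],[]),([(4,[(8,10)])],[4,4,4,3,2,1])],3,11,[6,10]),
  ([([(8,[(33,36)]),(5,[(11,15)])],[]),([(4,[(8,10)]),(3,[(4,6)])],[4,4,4])],3,8,[6]),
  ([([(8,[(33,36)]),(5,[(11,15)])],[]),([(4,[(8,10)]),(3,[(4,6)]),(3,[(4,6)])],[4,4,4,3,2])],3,5,[6]),
  ([([(8,[(33,36)]),(7,[(4,6),(4,6),(4,6)])],[]),([(5,[(11,15)]),(4,[(8,10)])],[5])],2,2,[3]),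
  ([([(8,[(33,36)]),(7,[(4,6),(4,6),(4,6),(3,3)])],[]),([(5,[(11,15)]),(4,[(8,10)])],[5])],1,0,[]),
  ([([(8,[(33,36)]),(5,[(11,15)])],[]),([(4,[(8,10)]),(4,[(7,10)])],[4,4])],3,5,[6]),
  ([([(8,[(33,36)]),(5,[(11,15)])],[]),([(4,[(8,10)]),(4,[(7,10)]),(3,[(4,6)])],[4,4,3,2])],3,2,[]),
  ([([(8,[(33,36)]),(5,[(11,15)])],[]),([(5,[(11,15)])],[5,5,5,4,3,2,1])],2,8,[3,6,9]),
  ([([(8,[(33,36)]),(5,[(11,15)])],[]),([(5,[(11,15)]),(2,[(3,3)])],[5,5,5,4,3])],2,6,[3]),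
  ([([(8,[(33,36)]),(5,[(11,15)])],[]),([(5,[(11,15)]),(3,[(3,3),(3,3)])],[5,5,5,4])],2,4,[3]),
  ([([(8,[(33,36)]),(5,[(11,15)])],[]),([(5,[(11,15)]),(4,[(3,3),(3,3),(3,3)])],[5,5,5])],2,2,[3]),
  ([([(9,[(33,36),(3,3),(3,3),(3,3)]),(5,[(11,15)])],[]),([(5,[(11,15)]),(2,[(3,3)])],[5,5,5,5,4,3])],1,0,[]),
  ([([(8,[(33,36)]),(5,[(11,15)])],[]),([(5,[(11,15)]),(3,[(4,6)])],[5,5,5,4])],2,5,[3,6]),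
  ([([(8,[(33,36)]),(6,[(4,6),(3,3)])],[]),([(5,[(11,15)]),(5,[(11,15)])],[5])],2,3,[3]),
  ([([(8,[(33,36)]),(6,[(4,6),(3,3),(3,3)])],[]),([(5,[(11,15)]),(5,[(11,15)])],[5])],2,1,[]),
  ([([(8,[(33,36)]),(7,[(4,6),(4,6)])],[]),([(5,[(11,15)]),(5,[(11,15)])],[])],2,2,[3]),
  ([([(9,[(33,36),(4,6),(3,3)]),(5,[(11,15)])],[]),([(5,[(11,15)]),(3,[(4,6)])],[5,5,5,5,4])],1,0,[]),
  ([([(8,[(33,36)]),(5,[(11,15)])],[]),([(5,[(11,15)]),(4,[(7,9)])],[5,5,5])],2,2,[3]),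
  ([([(9,[(33,36),(7,9)]),(5,[(11,15)])],[]),([(5,[(11,15)]),(2,[(3,3)])],[5,5,5,5,4,3])],1,0,[]),
  ([([(8,[(33,36)]),(6,[(16,21)])],[])],7,3,[10,14]),
  ([([(8,[(33,36)]),(6,[(16,21)])],[]),([(4,[(8,10)])],[4,4,3,2,1])],3,6,[6,7]),
  ([([(8,[(33,36)]),(6,[(16,21)])],[]),([(4,[(8,10)]),(3,[(4,6)])],[4,4])],3,3,[4]),
  ([([(8,[(33,36)]),(6,[(16,21)])],[]),([(5,[(8,10),(4,4)]),(3,[(4,6)])],[5,5,4])],1,0,[]),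
  ([([(9,[(33,36),(7,7)]),(6,[(16,21)])],[]),([(4,[(8,10)])],[4,4,4,3,2,1])],1,0,[]),
  ([([(8,[(33,36)]),(6,[(16,21)])],[]),([(5,[(11,14)])],[5,5,4,3,2,1])],2,3,[3,4]),
  ([([(8,[(33,36)]),(6,[(16,21)])],[]),([(5,[(11,14)]),(2,[(3,3)])],[5,5,4,3])],2,1,[]),
  ([([(8,[(33,36)]),(6,[(16,21)])],[]),([(5,[(11,14)]),(3,[(4,4)])],[5,5,4])],1,0,[]),
  ([([(8,[(33,36)]),(7,[(22,28)])],[])],7,2,[8]),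
  ([([(8,[(33,36)]),(7,[(22,28)])],[]),([(4,[(8,8)])],[4,3,2,1])],1,0,[]),
  ([([(11,[(33,36),(29,29)])],[])],1,0,[]), ([([(9,[(37,41)])],[])],6,10,[10,15,21,25]),
  ([([(9,[(37,41)]),(4,[(7,10)])],[])],6,6,[8,10]),
  ([([(9,[(37,41)]),(4,[(7,10)])],[]),([(4,[(7,8)])],[4,4,4,4,4,3,2,1])],2,12,[3,6,8]),
  ([([(9,[(37,41),(3,3)]),(4,[(7,10)])],[]),([(4,[(7,8)])],[4,4,4,4,4,3,2,1])],2,10,[3]),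
  ([([(10,[(37,41),(7,8),(3,3),(3,3)]),(4,[(7,10)])],[])],3,8,[]),
  ([([(10,[(37,41),(7,8),(4,6)]),(4,[(7,10)])],[])],5,7,[6]),
  ([([(10,[(37,41),(7,8),(4,6)]),(4,[(7,10)])],[]),([(3,[(6,6)])],[3,3,3,3,3,3,2,1])],2,4,[3,5]),
  ([([(10,[(37,41),(7,8),(4,6)]),(4,[(7,10)])],[]),([(3,[(6,6)]),(2,[(3,3)])],[3,3,3,3,3,3])],2,2,[3]),
  ([([(10,[(37,41),(7,8),(4,6)]),(4,[(7,10)])],[]),([(4,[(6,6),(3,3)]),(2,[(3,3)])],[4,4,4,4,4,4,3])],1,0,[]),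
  ([([(10,[(37,41),(7,8),(4,6)]),(4,[(7,10)])],[]),([(3,[(6,6)]),(3,[(4,5)])],[3,3,3,3,3])],2,1,[]),
  ([([(9,[(37,41)]),(4,[(7,10)])],[]),([(4,[(7,8)]),(4,[(7,8)])],[4,4,4,4])],2,6,[3,6,7]),
  ([([(9,[(37,41),(3,3)]),(4,[(7,10)])],[]),([(4,[(7,8)]),(4,[(7,8)])],[4,4,4,4])],2,4,[3]),
  ([([(9,[(37,41),(3,3)]),(4,[(7,10)])],[]),([(4,[(7,8)]),(4,[(7,8)]),(2,[(3,3)])],[4,4,4,4,2])],2,2,[3]),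
  ([([(10,[(37,41),(7,8),(3,3),(3,3)]),(4,[(7,10)])],[]),([(4,[(7,8)]),(2,[(3,3)])],[4,4,4,4,4,4,3])],1,0,[]),
  ([([(10,[(37,41),(7,8),(4,6)]),(4,[(7,10)])],[]),([(4,[(7,8)])],[4,4,4,4,4,4,3,2,1])],1,3,[3,4]),
  ([([(10,[(37,41),(7,8),(4,6)]),(4,[(7,10)])],[]),([(4,[(7,8)]),(2,[(2,3)])],[4,4,4,4,4,4,3])],1,2,[3]),
  ([([(10,[(37,41),(7,8),(4,6)]),(4,[(7,10)])],[]),([(4,[(7,8)]),(4,[(2,3),(2,3)])],[4,4,4,4,4])],1,1,[2]),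
  ([([(10,[(37,41),(7,8),(4,6)]),(4,[(7,10)])],[]),([(4,[(7,8),(2,2)]),(4,[(2,3),(2,3)])],[4,4,4,4,4])],1,0,[]),
  ([([(10,[(37,41),(7,10),(4,4)]),(4,[(7,8)])],[]),([(4,[(7,8)]),(3,[(4,6)])],[4,4,4,4,4,4])],1,0,[]),
  ([([(9,[(37,41)]),(5,[(7,8),(7,7)])],[]),([(4,[(7,10)]),(4,[(7,8)])],[4,4,4])],1,0,[]),
  ([([(9,[(37,41)]),(4,[(7,10)])],[]),([(4,[(9,10)])],[4,4,4,4,4,3,2,1])],2,10,[3,5,6,10]),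
  ([([(10,[(37,41),(9,10),(3,3)]),(4,[(7,10)])],[])],3,8,[]),
  ([([(9,[(37,41)]),(5,[(9,10),(4,5)])],[]),([(4,[(7,10)])],[4,4,4,4,3,2,1])],2,7,[3,5]),
  ([([(10,[(37,41),(9,10),(3,3)]),(4,[(7,10)])],[]),([(3,[(4,5)])],[3,3,3,3,3,3,2,1])],2,5,[3]),
  ([([(10,[(37,41),(9,10),(3,3)]),(4,[(7,10)])],[]),([(3,[(4,5)]),(2,[(3,3)])],[3,3,3,3,3,3])],2,3,[3]),
  ([([(10,[(37,41),(9,10),(3,3)]),(4,[(7,10)])],[]),([(3,[(4,5)]),(3,[(3,3),(3,3)])],[3,3,3,3,3])],2,1,[]),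
  ([([(9,[(37,41)]),(5,[(9,10),(4,5)])],[]),([(4,[(7,10)]),(3,[(4,5)])],[4,4,4,4])],2,4,[3,5]),
  ([([(10,[(37,41),(9,10),(3,3)]),(4,[(7,10)])],[]),([(3,[(4,5)]),(3,[(4,5)])],[3,3,3,3,3])],2,2,[3]),
  ([([(10,[(37,41),(9,10),(3,3)]),(4,[(7,10)])],[]),([(4,[(4,5),(4,5)]),(2,[(3,3)])],[4,4,4,4,4,4,3])],1,0,[]),
  ([([(9,[(37,41)]),(5,[(9,10),(4,5)])],[]),([(4,[(7,10)]),(4,[(4,5),(4,5)])],[4,4,4])],2,1,[]),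
  ([([(9,[(37,41)]),(4,[(7,10)])],[]),([(4,[(9,10)]),(3,[(6,6)])],[4,4,4,4,4])],2,5,[3,5,6]),
  ([([(10,[(37,41),(9,10),(3,3)]),(4,[(7,10)])],[]),([(3,[(6,6)])],[3,3,3,3,3,3,2,1])],2,3,[3]),
  ([([(10,[(37,41),(9,10),(3,3)]),(4,[(7,10)])],[]),([(3,[(6,6)]),(2,[(3,3)])],[3,3,3,3,3,3])],2,1,[]),
  ([([(9,[(37,41)]),(6,[(9,10),(6,6),(4,5)])],[]),([(4,[(7,10)])],[4,4,4,3,2,1])],2,2,[3]),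
  ([([(10,[(37,41),(9,10),(3,3)]),(4,[(7,10)])],[]),([(3,[(6,6)]),(3,[(4,5)])],[3,3,3,3,3])],1,0,[]),
  ([([(10,[(37,41),(6,6),(6,6)]),(4,[(7,10)])],[]),([(4,[(9,10)])],[4,4,4,4,4,4,3,2,1])],1,0,[]),
  ([([(9,[(37,41)]),(4,[(7,10)])],[]),([(4,[(9,10)]),(4,[(7,10)])],[4,4,4,4])],2,4,[3,5]),
  ([([(9,[(37,41),(3,3)]),(4,[(7,10)])],[]),([(4,[(9,10)]),(4,[(7,10)])],[4,4,4,4])],2,2,[3]),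
  ([([(10,[(37,41),(9,10),(3,3)]),(4,[(7,10)])],[]),([(4,[(7,10)]),(2,[(3,3)])],[4,4,4,4,4,4,3])],1,0,[]),
  ([([(9,[(37,41)]),(5,[(9,10),(4,5)])],[]),([(4,[(7,10)]),(4,[(7,10)])],[4,4,4])],2,1,[]),
  ([([(9,[(37,41)]),(5,[(11,15)])],[])],6,5,[10,15]),
  ([([(9,[(37,41)]),(5,[(11,15)])],[]),([(4,[(7,10)])],[4,4,4,4,3,2,1])],2,8,[3,6,9]),
  ([([(9,[(37,41),(3,3)]),(5,[(11,15)])],[]),([(4,[(7,10)])],[4,4,4,4,3,2,1])],2,6,[3]),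
  ([([(9,[(37,41),(3,3)]),(5,[(11,15)])],[]),([(4,[(7,10)]),(2,[(3,3)])],[4,4,4,4,3])],2,4,[3]),
  ([([(9,[(37,41),(3,3)]),(5,[(11,15)])],[]),([(4,[(7,10)]),(3,[(3,3),(3,3)])],[4,4,4,4])],2,2,[3]),
  ([([(9,[(37,41),(3,3)]),(5,[(11,15)])],[]),([(4,[(7,10)]),(4,[(3,3),(3,3),(3,3)])],[4,4,4])],1,0,[]),
  ([([(9,[(37,41)]),(5,[(11,15)])],[]),([(4,[(7,10)]),(3,[(4,6)])],[4,4,4,4])],2,5,[3,5,6]),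
  ([([(9,[(37,41),(3,3)]),(5,[(11,15)])],[]),([(4,[(7,10)]),(3,[(4,6)])],[4,4,4,4])],2,3,[3]),
  ([([(9,[(37,41),(3,3)]),(5,[(11,15)])],[]),([(4,[(7,10)]),(3,[(4,6)]),(2,[(3,3)])],[4,4,4,4,2,1])],2,1,[]),
  ([([(9,[(37,41)]),(6,[(4,6),(4,5)])],[]),([(5,[(11,15)]),(4,[(7,10)])],[5,5,5])],1,2,[3]),
  ([([(9,[(37,41),(2,3)]),(6,[(4,6),(4,5)])],[]),([(5,[(11,15)]),(4,[(7,10)])],[5,5,5])],1,1,[2]),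
  ([([(9,[(37,41),(2,3)]),(6,[(4,6),(4,5),(2,2)])],[]),([(5,[(11,15)]),(4,[(7,10)])],[5,5,5])],1,0,[]),
  ([([(9,[(37,41)]),(6,[(11,15),(6,6)])],[]),([(4,[(7,10)]),(3,[(4,6)])],[4,4,4])],1,0,[]),
  ([([(9,[(37,41)]),(5,[(11,15)])],[]),([(4,[(7,10)]),(4,[(7,9)])],[4,4,4])],2,2,[3]),
  ([([(9,[(37,41),(3,3)]),(5,[(11,15)])],[]),([(4,[(7,10)]),(4,[(7,9)])],[4,4,4])],1,0,[]),
  ([([(9,[(37,41)]),(5,[(11,15)])],[]),([(5,[(11,15)])],[5,5,5,5,4,3,2,1])],1,4,[3,5]),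
  ([([(9,[(37,41),(2,3)]),(5,[(11,15)])],[]),([(5,[(11,15)])],[5,5,5,5,4,3,2,1])],1,3,[3]),
  ([([(9,[(37,41),(2,3)]),(5,[(11,15)])],[]),([(5,[(11,15)]),(2,[(2,3)])],[5,5,5,5,4,3])],1,2,[3]),
  ([([(9,[(37,41),(2,3)]),(5,[(11,15)])],[]),([(5,[(11,15)]),(4,[(2,3),(2,3)])],[5,5,5,5])],1,1,[2]),
  ([([(9,[(37,41),(2,3)]),(5,[(11,15)])],[]),([(5,[(11,15)]),(4,[(2,3),(2,3),(2,2)])],[5,5,5,5])],1,0,[]),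
  ([([(9,[(37,41)]),(5,[(11,15)])],[]),([(5,[(11,15)]),(3,[(4,5)])],[5,5,5,5,4])],1,1,[2]),
  ([([(9,[(37,41),(2,2)]),(5,[(11,15)])],[]),([(5,[(11,15)]),(3,[(4,5)])],[5,5,5,5,4])],1,0,[]),
  ([([(9,[(37,41)]),(6,[(16,21)])],[])],6,4,[10]),
  ([([(9,[(37,41)]),(6,[(16,21)])],[]),([(4,[(7,10)])],[4,4,4,3,2,1])],2,3,[3,4]),
  ([([(9,[(37,41),(3,3)]),(6,[(16,21)])],[]),([(4,[(7,10)])],[4,4,4,3,2,1])],2,1,[]),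
  ([([(9,[(37,41),(4,4)]),(6,[(16,21)])],[]),([(4,[(7,10)])],[4,4,4,3,2,1])],1,0,[]),
  ([([(11,[(37,41),(22,25)])],[])],4,3,[]), ([([(9,[(42,45)])],[])],6,10,[10,15,20]),
  ([([(9,[(42,45)]),(4,[(7,10)])],[])],6,6,[10]),
  ([([(10,[(42,45),(7,10)]),(4,[(7,10)])],[])],5,7,[6,8]),
  ([([(10,[(42,45),(7,10)]),(4,[(7,10)])],[]),([(3,[(6,6)])],[3,3,3,3,3,3,2,1])],2,2,[3]),
  ([([(10,[(42,45),(7,10)]),(4,[(7,10)])],[]),([(4,[(6,6),(3,3)])],[4,4,4,4,4,4,3,2,1])],1,0,[]),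
  ([([(9,[(42,45)]),(4,[(7,10)])],[]),([(4,[(7,10)]),(4,[(7,8)])],[4,4,4,4])],2,1,[]),
  ([([(9,[(42,45)]),(5,[(11,15)])],[])],6,5,[10]),
  ([([(10,[(42,45),(7,10)]),(5,[(11,15)])],[])],4,3,[]),
  ([([(9,[(42,45)]),(6,[(16,20)])],[])],5,4,[]), ([([(10,[(46,50)])],[])],5,11,[6,10,15,16]),
  ([([(10,[(46,50)]),(3,[(6,6)])],[])],5,8,[6]),
  ([([(10,[(46,50)]),(5,[(6,6),(6,6)])],[])],5,5,[6]),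
  ([([(11,[(46,50),(6,6),(6,6)]),(3,[(6,6)])],[])],1,0,[]),
  ([([(10,[(46,50)]),(4,[(7,10)])],[])],5,7,[6,10]),
  ([([(11,[(46,50),(7,10),(6,6)])],[])],4,4,[5]),
  ([([(11,[(46,50),(7,10),(6,6)]),(3,[(5,5)])],[])],1,0,[]),
  ([([(10,[(46,50)]),(4,[(7,10)])],[]),([(4,[(7,10)])],[4,4,4,4,4,4,3,2,1])],1,3,[3,4]),
  ([([(10,[(46,50),(2,3)]),(4,[(7,10)])],[]),([(4,[(7,10)])],[4,4,4,4,4,4,3,2,1])],1,2,[3]),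
  ([([(10,[(46,50),(2,3)]),(4,[(7,10)])],[]),([(4,[(7,10)]),(2,[(2,3)])],[4,4,4,4,4,4,3])],1,1,[2]),
  ([([(10,[(46,50),(2,3),(2,2)]),(4,[(7,10)])],[]),([(4,[(7,10)]),(2,[(2,3)])],[4,4,4,4,4,4,3])],1,0,[]),
  ([([(10,[(46,50),(4,4)]),(4,[(7,10)])],[]),([(4,[(7,10)])],[4,4,4,4,4,4,3,2,1])],1,0,[]),
  ([([(10,[(46,50)]),(5,[(11,15)])],[])],5,5,[6]),
  ([([(11,[(46,50),(11,15)]),(3,[(6,6)])],[])],1,0,[]), ([([(11,[(46,50),(16,16)])],[])],1,0,[]),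
  ([([(10,[(51,55)])],[])],5,10,[6,10,11]), ([([(10,[(51,55)]),(3,[(6,6)])],[])],5,5,[6]),
  ([([(11,[(51,55),(6,6)]),(3,[(6,6)])],[])],1,0,[]),
  ([([(10,[(51,55)]),(4,[(7,10)])],[])],5,4,[]), ([([(11,[(51,55),(11,11)])],[])],1,0,[]),
  ([([(11,[(56,61)])],[])],4,5,[6]), ([([(11,[(56,61)]),(3,[(5,6)])],[])],2,1,[])]

theorem ki_15 : KC 15 60 := kc_of_itree it_15 (by decide +kernel)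

end Pool.MP322
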