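import Pool.Agent.Lib.MP_322c5f_al.SG31

/-! (C), part 23: interval trees for `c = 16, 17, 18`. -/

set_option autoImplicit false

namespace Pool.MP322

def it_16 : List (List (List (ℕ × List (ℕ × ℕ)) × List ℕ) × ℕ × ℕ × List ℕ) := [
  ([],14,5,[15,21,28,36,37,45,55,65]), ([([(5,[(15,15)])],[])],11,6,[15]),
  ([([(5,[(15,15)]),(5,[(12,15)])],[])],10,4,[15]),
  ([([(5,[(15,15)]),(5,[(12,15)]),(5,[(11,15)])],[])],10,3,[15]),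
  ([([(5,[(15,15)]),(5,[(12,15)]),(5,[(11,15)])],[]),([(5,[(11,15)])],[3,1])],6,8,[10,15]),
  ([([(5,[(15,15)]),(5,[(12,15)]),(5,[(11,15)])],[]),([(5,[(11,15)]),(4,[(7,10)])],[4,3,2,1])],6,2,[10]),
  ([([(5,[(15,15)]),(5,[(12,15)]),(5,[(11,15)])],[]),([(5,[(11,15)]),(4,[(7,10)]),(4,[(7,10)])],[])],6,2,[8]),
  ([([(5,[(15,15)]),(5,[(12,15)]),(5,[(11,15)])],[]),([(5,[(11,15)]),(4,[(7,10)]),(4,[(7,10)])],[]),([(4,[(7,8)])],[4,3,3,2,2,1,1])],2,1,[]),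
  ([([(5,[(15,15)]),(5,[(12,15)]),(5,[(11,15)])],[]),([(5,[(11,15)]),(5,[(11,15)])],[3,2,1])],6,1,[10]),
  ([([(5,[(15,15)]),(5,[(12,15)]),(5,[(11,15)])],[]),([(5,[(11,15)]),(5,[(11,15)]),(4,[(7,10)])],[])],4,3,[]),
  ([([(6,[(16,21)])],[])],10,7,[15,21]), ([([(6,[(16,21)]),(5,[(11,15)])],[])],9,6,[10,15]),
  ([([(6,[(16,21)]),(5,[(11,15)]),(4,[(10,10)])],[])],9,5,[10]),
  ([([(8,[(11,15),(10,10),(10,10)]),(6,[(16,21)])],[])],8,3,[10]),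
  ([([(9,[(11,15),(10,10),(10,10),(9,10)]),(6,[(16,21)])],[])],7,4,[10]),
  ([([(6,[(16,21)]),(5,[(11,15)]),(4,[(10,10)])],[]),([(4,[(10,10)]),(4,[(9,10)]),(4,[(8,10)])],[4])],6,2,[7]),
  ([([(9,[(11,15),(10,10),(10,10),(9,10)]),(7,[(16,21),(7,7)])],[]),([(4,[(8,10)])],[4,4,3,2,1])],1,0,[]),
  ([([(6,[(16,21)]),(5,[(11,15)]),(5,[(11,15)])],[])],9,5,[10,15]),
  ([([(6,[(16,21)]),(5,[(11,15)]),(5,[(11,15)])],[]),([(4,[(10,10)])],[4,2])],6,8,[10]),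
  ([([(6,[(16,21)]),(5,[(11,15)]),(5,[(11,15)])],[]),([(4,[(10,10)]),(4,[(7,10)])],[3,2,1])],6,3,[10]),
  ([([(6,[(16,21)]),(5,[(11,15)]),(5,[(11,15)])],[]),([(4,[(10,10)]),(4,[(7,10)]),(4,[(7,10)])],[])],6,2,[9]),
  ([([(6,[(16,21)]),(5,[(11,15)]),(5,[(11,15)])],[]),([(4,[(10,10)]),(4,[(7,10)]),(4,[(7,10)])],[]),([(4,[(7,9)])],[4,3,3,2,2,1,1])],2,2,[3]),
  ([([(6,[(16,21)]),(5,[(11,15)]),(5,[(11,15)])],[]),([(5,[(10,10),(3,3)]),(4,[(7,10)]),(4,[(7,10)])],[5]),([(4,[(7,9)])],[4,4,3,3,2,2,1,1])],1,0,[]),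
  ([([(6,[(16,21)]),(5,[(11,15)]),(5,[(11,15)])],[]),([(5,[(11,15)])],[5,3,1])],5,9,[6,10,15]),
  ([([(6,[(16,21)]),(5,[(11,15)]),(5,[(11,15)])],[]),([(5,[(11,15)]),(3,[(6,6)])],[5,2,1])],5,6,[6]),
  ([([(6,[(16,21)]),(5,[(11,15)]),(5,[(11,15)])],[]),([(5,[(11,15)]),(5,[(6,6),(6,6)])],[4,3,2,1])],5,3,[6]),
  ([([(6,[(16,21)]),(5,[(11,15)]),(5,[(11,15)])],[]),([(5,[(11,15)]),(5,[(6,6),(6,6)]),(3,[(6,6)])],[4])],5,3,[]),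
  ([([(6,[(16,21)]),(5,[(11,15)]),(5,[(11,15)])],[]),([(5,[(11,15)]),(4,[(7,10)])],[5,4,3,2,1])],5,3,[6,10]),
  ([([(6,[(16,21)]),(5,[(11,15)]),(5,[(11,15)])],[]),([(5,[(11,15)]),(4,[(7,10)]),(3,[(6,6)])],[5,4])],5,3,[6]),
  ([([(6,[(16,21)]),(5,[(11,15)]),(5,[(11,15)])],[]),([(5,[(11,15)]),(5,[(6,6),(6,6)]),(4,[(7,10)])],[])],4,3,[]),
  ([([(6,[(16,21)]),(5,[(11,15)]),(5,[(11,15)])],[]),([(5,[(11,15)]),(4,[(7,10)]),(4,[(7,10)])],[5])],5,3,[6,8]),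
  ([([(6,[(16,21)]),(5,[(11,15)]),(5,[(11,15)])],[]),([(5,[(11,15)]),(4,[(7,10)]),(4,[(7,10)])],[5]),([(3,[(6,6)])],[3,3,2,2,1,1])],2,2,[3]),
  ([([(6,[(16,21)]),(5,[(11,15)]),(5,[(11,15)])],[]),([(5,[(11,15)]),(4,[(7,10)]),(4,[(7,10)])],[5]),([(4,[(6,6),(3,3)])],[4,4,3,3,2,2,1,1])],1,0,[]),
  ([([(6,[(16,21)]),(5,[(11,15)]),(5,[(11,15)])],[]),([(5,[(11,15)]),(4,[(7,10)]),(4,[(7,10)])],[5]),([(4,[(7,8)])],[4,4,3,3,2,2,1,1])],1,1,[2]),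
  ([([(6,[(16,21)]),(5,[(11,15)]),(5,[(11,15)])],[]),([(5,[(11,15)]),(4,[(7,10)]),(4,[(7,10)])],[5]),([(4,[(7,8),(2,2)])],[4,4,3,3,2,2,1,1])],1,0,[]),
  ([([(6,[(16,21)]),(5,[(11,15)]),(5,[(11,15)])],[]),([(5,[(11,15)]),(5,[(11,15)])],[4,3,2,1])],5,3,[6,10]),
  ([([(6,[(16,21)]),(5,[(11,15)]),(5,[(11,15)])],[]),([(5,[(11,15)]),(5,[(11,15)]),(3,[(6,6)])],[4])],5,3,[]),
  ([([(6,[(16,21)]),(5,[(11,15)]),(5,[(11,15)])],[]),([(5,[(11,15)]),(5,[(11,15)]),(4,[(7,10)])],[])],4,3,[]),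
  ([([(6,[(16,21)]),(6,[(16,21)])],[])],9,4,[10,13,15,21]),
  ([([(6,[(16,21)]),(6,[(16,21)]),(4,[(10,10)])],[])],9,4,[10]),
  ([([(6,[(16,21)]),(6,[(16,21)]),(4,[(10,10)])],[]),([(4,[(10,10)])],[3,2])],6,8,[10]),
  ([([(6,[(16,21)]),(6,[(16,21)]),(4,[(10,10)])],[]),([(4,[(10,10)]),(4,[(7,10)])],[4,2,1])],5,7,[6,10]),
  ([([(6,[(16,21)]),(6,[(16,21)]),(4,[(10,10)])],[]),([(4,[(10,10)]),(4,[(7,10)]),(3,[(6,6)])],[4])],6,1,[]),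
  ([([(6,[(16,21)]),(6,[(16,21)]),(4,[(10,10)])],[]),([(4,[(10,10)]),(4,[(7,10)]),(4,[(7,10)])],[])],5,4,[]),
  ([([(6,[(16,21)]),(6,[(16,21)])],[]),([(5,[(11,13)])],[4,3,2,1])],5,11,[6,10,12,13]),
  ([([(6,[(16,21)]),(6,[(16,21)])],[]),([(5,[(11,13)]),(3,[(6,6)])],[4])],5,11,[6]),
  ([([(6,[(16,21)]),(6,[(16,21)])],[]),([(5,[(11,13)]),(3,[(6,6)]),(3,[(6,6)])],[4,3,2])],5,5,[6]),
  ([([(6,[(16,21)]),(6,[(16,21)])],[]),([(5,[(11,13)]),(3,[(6,6)]),(3,[(6,6)]),(3,[(6,6)])],[4])],5,5,[6]),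
  ([([(6,[(16,21)]),(6,[(16,21)])],[]),([(6,[(11,13),(6,6)]),(6,[(6,6),(6,6),(6,6)])],[6])],4,1,[5]),
  ([([(8,[(11,13),(6,6),(6,6),(6,6),(5,5)]),(6,[(16,21)])],[]),([(6,[(16,21)]),(3,[(6,6)])],[6,6,5,4])],1,0,[]),
  ([([(6,[(16,21)]),(6,[(16,21)])],[]),([(5,[(11,13)]),(4,[(7,10)])],[])],5,11,[6,7,8,9,10]),
  ([([(6,[(16,21)]),(6,[(16,21)])],[]),([(5,[(11,13)]),(4,[(7,10)]),(3,[(6,6)])],[3,2])],5,5,[6]),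
  ([([(6,[(16,21)]),(6,[(16,21)])],[]),([(5,[(11,13)]),(4,[(7,10)]),(3,[(6,6)]),(3,[(6,6)])],[])],5,5,[6]),
  ([([(7,[(7,10),(6,6),(6,6),(6,6)]),(6,[(16,21)])],[]),([(6,[(16,21)]),(5,[(11,13)])],[6])],3,3,[4]),
  ([([(8,[(11,13),(6,6),(6,6),(6,6),(4,4)]),(6,[(16,21)])],[]),([(6,[(16,21)]),(4,[(7,10)])],[6,6,5])],1,0,[]),
  ([([(6,[(16,21)]),(6,[(16,21)])],[]),([(5,[(11,13)]),(4,[(7,10)]),(4,[(7,7)])],[4,3,2])],5,3,[6,7]),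
  ([([(7,[(16,21),(7,7)]),(6,[(16,21)])],[]),([(5,[(11,13)]),(4,[(7,10)]),(3,[(6,6)])],[5,3,2])],4,6,[6]),
  ([([(7,[(16,21),(7,7)]),(6,[(16,21)])],[]),([(5,[(11,13)]),(4,[(7,10)]),(3,[(6,6)]),(3,[(5,6)])],[5])],4,3,[]),
  ([([(7,[(16,21),(7,7)]),(7,[(16,21),(7,7)])],[]),([(5,[(11,13)]),(4,[(7,10)])],[])],4,6,[6,7]),
  ([([(7,[(16,21),(7,7)]),(7,[(16,21),(7,7)])],[]),([(5,[(11,13)]),(4,[(7,10)]),(3,[(5,6)])],[3,2,1])],3,2,[]),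
  ([([(7,[(16,21),(7,7)]),(7,[(16,21),(7,7)])],[]),([(6,[(11,13),(7,7)]),(4,[(7,10)])],[5])],1,0,[]),
  ([([(6,[(16,21)]),(6,[(16,21)])],[]),([(5,[(11,13)]),(4,[(7,10)]),(4,[(8,8)])],[4,3,2])],5,3,[6,7,8]),
  ([([(6,[(16,21)]),(6,[(16,21)])],[]),([(6,[(11,13),(8,8)]),(4,[(7,10)]),(3,[(6,6)])],[5,3,2])],4,6,[6]),
  ([([(6,[(16,21)]),(6,[(16,21)])],[]),([(5,[(11,13)]),(4,[(7,10)]),(4,[(8,8)])],[4,3,2]),([(3,[(6,6)]),(3,[(5,6)])],[3,2,2,1,1])],2,2,[3]),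
  ([([(8,[(11,13),(8,8),(6,6),(5,6),(3,3)]),(6,[(16,21)])],[]),([(6,[(16,21)]),(4,[(7,10)])],[6,6,5])],1,0,[]),
  ([([(8,[(16,21),(8,8),(7,7)]),(6,[(16,21)])],[]),([(5,[(11,13)]),(4,[(7,10)])],[5,5])],3,5,[6]),
  ([([(8,[(16,21),(8,8),(7,7)]),(6,[(16,21)])],[]),([(5,[(11,13)]),(4,[(7,10)]),(3,[(4,6)])],[5,5,3,2])],3,2,[]),
  ([([(6,[(16,21)]),(6,[(16,21)])],[]),([(5,[(11,13)]),(4,[(7,10)]),(4,[(8,8)])],[4,3,2]),([(4,[(8,8)])],[4,4,3,3,3,2,2,2,1,1])],1,4,[3,5]),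
  ([([(6,[(16,21)]),(6,[(16,21)])],[]),([(5,[(11,13)]),(4,[(7,10)]),(4,[(8,8)])],[4,3,2]),([(4,[(8,8)]),(2,[(2,3)])],[4,4,3,3,3,2,2,1])],1,3,[2,3]),
  ([([(7,[(7,10),(8,8),(8,8),(2,2)]),(6,[(16,21)])],[]),([(6,[(16,21)]),(5,[(11,13)]),(2,[(2,3)])],[6,2])],2,2,[]),
  ([([(6,[(16,21)]),(6,[(16,21)])],[]),([(6,[(11,13),(8,8)]),(6,[(7,10),(8,8),(3,3)]),(2,[(2,3)])],[6,2])],2,1,[]),
  ([([(6,[(16,21)]),(6,[(16,21)])],[]),([(5,[(11,13)]),(4,[(7,10)]),(4,[(8,8)])],[4,3,2]),([(4,[(8,8)]),(3,[(4,5)])],[4,4,3,3,2,2,1])],1,1,[2]),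
  ([([(8,[(11,13),(8,8),(8,8),(4,5),(2,2)]),(6,[(16,21)])],[]),([(6,[(16,21)]),(4,[(7,10)])],[6,6,5])],1,0,[]),
  ([([(6,[(16,21)]),(6,[(16,21)])],[]),([(5,[(11,13)]),(4,[(7,10)]),(4,[(9,9)])],[4,3,2])],5,3,[6,8,9]),
  ([([(8,[(16,21),(9,9),(6,6)]),(6,[(16,21)])],[]),([(5,[(11,13)]),(4,[(7,10)])],[5,5])],3,5,[6]),
  ([([(8,[(16,21),(9,9),(6,6)]),(6,[(16,21)])],[]),([(5,[(11,13)]),(4,[(7,10)]),(3,[(4,6)])],[5,5,3,2])],3,2,[]),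
  ([([(6,[(16,21)]),(6,[(16,21)])],[]),([(5,[(11,13)]),(4,[(7,10)]),(4,[(9,9)])],[4,3,2]),([(4,[(7,8)])],[4,4,3,3,3,2,2,2,1,1])],1,4,[2,3,5]),
  ([([(6,[(16,21)]),(6,[(16,21)])],[]),([(6,[(11,13),(7,8)]),(6,[(7,10),(9,9),(2,2)])],[6])],2,3,[]),
  ([([(6,[(16,21)]),(6,[(16,21)])],[]),([(5,[(11,13)]),(4,[(7,10)]),(4,[(9,9)])],[4,3,2]),([(4,[(7,8)]),(2,[(3,3)])],[4,4,3,3,3,2,2,1])],1,2,[2,3]),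
  ([([(6,[(16,21)]),(6,[(16,21)])],[]),([(6,[(11,13),(7,8)]),(6,[(7,10),(9,9),(2,2)]),(2,[(3,3)])],[6,2])],2,1,[]),
  ([([(8,[(11,13),(9,9),(7,8),(3,3),(3,3)]),(6,[(16,21)])],[]),([(6,[(16,21)]),(4,[(7,10)])],[6,6,5])],1,0,[]),
  ([([(6,[(16,21)]),(6,[(16,21)])],[]),([(5,[(11,13)]),(4,[(7,10)]),(4,[(9,9)])],[4,3,2]),([(4,[(7,8)]),(3,[(4,5)])],[4,4,3,3,2,2,1])],1,1,[2]),
  ([([(10,[(7,10),(9,9),(4,5),(2,2)]),(6,[(16,21)])],[]),([(6,[(16,21)]),(6,[(11,13),(7,8)])],[6,6,6])],1,0,[]),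
  ([([(7,[(7,10),(9,9),(9,9)]),(6,[(16,21)])],[]),([(6,[(16,21)]),(5,[(11,13)])],[6])],3,2,[]),
  ([([(6,[(16,21)]),(6,[(16,21)])],[]),([(5,[(11,13)]),(4,[(7,10)]),(4,[(10,10)])],[4,3,2])],5,3,[6,8,10]),
  ([([(6,[(16,21)]),(6,[(16,21)])],[]),([(6,[(11,13),(6,6)]),(6,[(7,10),(10,10)])],[6])],4,1,[5]),
  ([([(8,[(16,21),(10,10),(5,5)]),(6,[(16,21)])],[]),([(6,[(11,13),(6,6)]),(4,[(7,10)])],[6,6,5])],1,0,[]),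
  ([([(6,[(16,21)]),(6,[(16,21)])],[]),([(6,[(11,13),(7,8)]),(6,[(7,10),(10,10)])],[6])],4,1,[]),
  ([([(6,[(16,21)]),(6,[(16,21)])],[]),([(5,[(11,13)]),(4,[(7,10)]),(4,[(10,10)])],[4,3,2]),([(4,[(9,10)])],[4,4,3,3,3,2,2,2,1,1])],1,1,[2]),
  ([([(8,[(11,13),(10,10),(9,10),(2,2)]),(6,[(16,21)])],[]),([(6,[(16,21)]),(4,[(7,10)])],[6,6,5])],1,0,[]),
  ([([(6,[(16,21)]),(6,[(16,21)])],[]),([(5,[(11,13)]),(5,[(11,12)])],[5])],4,14,[6,8,10,11,12]),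
  ([([(6,[(16,21)]),(6,[(16,21)])],[]),([(5,[(11,13)]),(5,[(11,12)]),(3,[(5,6)])],[5,3,2])],4,8,[6]),
  ([([(6,[(16,21)]),(6,[(16,21)])],[]),([(5,[(11,13)]),(5,[(11,12)]),(3,[(5,6)])],[5,3,2]),([(3,[(5,6)])],[2,2,2,2,2,1,1,1])],2,6,[3,6]),
  ([([(6,[(16,21)]),(6,[(16,21)])],[]),([(6,[(11,12),(5,6),(3,3)]),(5,[(11,13)]),(3,[(5,6)])],[3,2])],3,4,[]),
  ([([(6,[(16,21)]),(6,[(16,21)])],[]),([(5,[(11,13)]),(5,[(11,12)]),(3,[(5,6)])],[5,3,2]),([(3,[(5,6)]),(3,[(4,6)])],[3,3,3,3,3,2,2,1])],1,3,[3,4]),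
  ([([(7,[(11,13),(11,12),(2,3)]),(7,[(5,6),(5,6),(4,6)])],[]),([(6,[(16,21)]),(6,[(16,21)])],[6])],3,1,[]),
  ([([(7,[(11,12),(5,6),(5,6),(4,4)]),(6,[(16,21)])],[]),([(6,[(16,21)]),(5,[(11,13)])],[6]),([(3,[(4,6)])],[3,3,3,3,3,3,3,3,3,3,3,3,3])],1,0,[]),
  ([([(6,[(16,21)]),(6,[(16,21)])],[]),([(6,[(11,13),(7,8)]),(5,[(11,12)])],[])],4,8,[6,8]),
  ([([(6,[(16,21)]),(6,[(16,21)])],[]),([(6,[(11,13),(7,8)]),(5,[(11,12)]),(3,[(5,6)])],[3,2])],4,4,[5]),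
  ([([(8,[(11,13),(11,12),(5,6),(5,5)]),(6,[(16,21)])],[]),([(6,[(16,21)]),(4,[(7,8)])],[6,6,5])],1,0,[]),
  ([([(6,[(16,21)]),(6,[(16,21)])],[]),([(6,[(11,13),(7,8)]),(6,[(11,12),(7,8)])],[6])],3,2,[]),
  ([([(8,[(11,13),(11,12),(9,10)]),(6,[(16,21)])],[]),([(6,[(16,21)])],[6,6,5,4,3,2,1])],2,6,[3,6,7]),
  ([([(7,[(11,13),(11,12),(3,3)]),(6,[(16,21)])],[]),([(6,[(16,21)]),(4,[(9,10)])],[6,5])],3,4,[]),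
  ([([(7,[(11,12),(9,10),(4,6)]),(6,[(16,21)])],[]),([(6,[(16,21)]),(5,[(11,13)])],[6])],3,3,[4]),
  ([([(8,[(11,13),(11,12),(9,10)]),(6,[(16,21)])],[]),([(6,[(16,21)]),(4,[(4,6),(4,4)])],[6,6,5])],1,0,[]),
  ([([(8,[(11,13),(11,12),(9,10)]),(7,[(16,21),(7,7)])],[]),([(6,[(16,21)])],[6,5,4,3,2,1])],1,0,[]),
  ([([(8,[(11,13),(11,12),(11,11)]),(6,[(16,21)])],[]),([(6,[(16,21)])],[6,6,5,4,3,2,1])],2,4,[3,5]),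
  ([([(7,[(11,13),(11,12),(3,3)]),(6,[(16,21)])],[]),([(6,[(16,21)]),(5,[(11,11)])],[6])],3,2,[]),
  ([([(8,[(11,13),(11,12),(11,11)]),(6,[(16,21)])],[]),([(6,[(16,21)]),(3,[(4,5)])],[6,6,5,4])],2,1,[]),
  ([([(7,[(11,13),(12,12)]),(6,[(16,21)])],[]),([(6,[(16,21)]),(5,[(11,12)])],[6])],3,3,[4]),
  ([([(9,[(16,21),(11,12),(12,12)]),(6,[(16,21)])],[]),([(5,[(11,13)]),(3,[(4,4)])],[5,5,5,4])],1,0,[]),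
  ([([(6,[(16,21)]),(6,[(16,21)])],[]),([(5,[(11,13)]),(5,[(13,13)])],[5])],4,12,[6,10,13]),
  ([([(6,[(16,21)]),(6,[(16,21)])],[]),([(6,[(13,13),(5,6)]),(5,[(11,13)])],[])],4,8,[6]),
  ([([(6,[(16,21)]),(6,[(16,21)])],[]),([(6,[(13,13),(5,6)]),(5,[(11,13)]),(3,[(5,6)])],[3,2])],4,4,[5]),
  ([([(7,[(11,13),(13,13)]),(7,[(5,6),(5,6),(5,5)])],[]),([(6,[(16,21)]),(6,[(16,21)])],[6])],1,0,[]),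
  ([([(7,[(11,13),(13,13)]),(6,[(16,21)])],[]),([(6,[(16,21)]),(4,[(7,10)])],[6,5])],3,6,[6,7]),
  ([([(8,[(11,13),(13,13),(7,10)]),(6,[(16,21)])],[]),([(6,[(16,21)]),(3,[(4,6)])],[6,6,5,4])],2,3,[3,4]),
  ([([(8,[(11,13),(13,13),(7,10)]),(6,[(16,21)])],[]),([(6,[(16,21)]),(6,[(4,6),(3,3)])],[6])],2,1,[]),
  ([([(8,[(11,13),(13,13),(7,10)]),(6,[(16,21)])],[]),([(6,[(16,21)]),(4,[(4,6),(4,4)])],[6,6,5])],1,0,[]),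
  ([([(8,[(11,13),(13,13),(7,10)]),(7,[(16,21),(7,7)])],[]),([(6,[(16,21)])],[6,5,4,3,2,1])],1,0,[]),
  ([([(7,[(11,13),(13,13)]),(6,[(16,21)])],[]),([(6,[(16,21)]),(5,[(11,13)])],[6])],3,2,[]),
  ([([(8,[(16,21),(14,15)]),(6,[(16,21)])],[])],8,3,[10,15]),
  ([([(6,[(16,21)]),(6,[(16,21)])],[]),([(5,[(14,15)]),(4,[(9,10)])],[])],5,11,[6,10]),
  ([([(6,[(16,21)]),(6,[(16,21)])],[]),([(5,[(14,15)]),(4,[(9,10)]),(3,[(6,6)])],[3,2])],5,5,[6]),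
  ([([(8,[(16,21),(14,15)]),(6,[(16,21)])],[]),([(4,[(9,10)]),(3,[(6,6)]),(3,[(6,6)])],[4,4,3,2,1])],4,3,[]),
  ([([(6,[(16,21)]),(6,[(16,21)])],[]),([(5,[(14,15)]),(4,[(9,10)]),(4,[(7,10)])],[4,3,2])],5,3,[6,8]),
  ([([(8,[(16,21),(14,15)]),(6,[(16,21)])],[]),([(4,[(9,10)]),(4,[(7,10)]),(3,[(6,6)])],[4,3,2,1])],3,2,[]),
  ([([(8,[(16,21),(14,15)]),(6,[(16,21)])],[]),([(4,[(9,10)]),(4,[(7,10)]),(4,[(7,8)])],[3,2,1])],2,1,[]),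
  ([([(6,[(16,21)]),(6,[(16,21)])],[]),([(5,[(14,15)]),(5,[(11,15)])],[5])],4,11,[6,10,12]),
  ([([(6,[(16,21)]),(6,[(16,21)])],[]),([(5,[(14,15)]),(5,[(11,15)]),(3,[(5,6)])],[5,3,2])],5,1,[6]),
  ([([(8,[(16,21),(14,15)]),(6,[(16,21)])],[]),([(5,[(11,15)]),(3,[(5,6)]),(3,[(6,6)])],[5,5,4,3,2])],3,2,[]),
  ([([(8,[(16,21),(14,15)]),(6,[(16,21)])],[]),([(5,[(11,15)]),(4,[(7,10)])],[5,5])],3,5,[6]),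
  ([([(8,[(16,21),(14,15)]),(6,[(16,21)])],[]),([(5,[(11,15)]),(4,[(7,10)]),(3,[(4,6)])],[5,5,3,2])],3,2,[]),
  ([([(8,[(16,21),(14,15)]),(6,[(16,21)])],[]),([(5,[(11,15)]),(5,[(11,12)])],[5])],2,1,[]),
  ([([(6,[(16,21)]),(6,[(16,21)])],[]),([(6,[(16,21)])],[5,4,3,2,1])],4,13,[6,8,10,12,15,20]),
  ([([(6,[(16,21)]),(6,[(16,21)])],[]),([(6,[(16,21)]),(3,[(5,6)])],[5,4])],4,13,[6]),
  ([([(6,[(16,21)]),(6,[(16,21)])],[]),([(6,[(16,21)]),(3,[(5,6)]),(3,[(5,6)])],[5,4,3,2])],4,7,[6]),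
  ([([(7,[(5,6),(5,6),(5,6)]),(6,[(16,21)])],[]),([(6,[(16,21)]),(6,[(16,21)])],[])],3,7,[4,6]),
  ([([(7,[(5,6),(5,6),(5,6),(4,4)]),(6,[(16,21)])],[]),([(6,[(16,21)]),(6,[(16,21)])],[])],3,4,[4]),
  ([([(8,[(5,6),(5,6),(5,6),(4,4),(4,4)]),(6,[(16,21)])],[]),([(6,[(16,21)]),(6,[(16,21)])],[6])],2,1,[]),
  ([([(8,[(5,6),(5,6),(5,6),(5,6)]),(6,[(16,21)])],[]),([(6,[(16,21)]),(6,[(16,21)])],[6])],2,3,[3,4]),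
  ([([(8,[(5,6),(5,6),(5,6),(5,6),(3,3)]),(6,[(16,21)])],[]),([(6,[(16,21)]),(6,[(16,21)])],[6])],2,1,[]),
  ([([(8,[(5,6),(5,6),(5,6),(5,6),(4,4)]),(6,[(16,21)])],[]),([(6,[(16,21)]),(6,[(16,21)])],[6])],1,0,[]),
  ([([(6,[(16,21)]),(6,[(16,21)])],[]),([(6,[(16,21)]),(4,[(7,8)])],[5])],4,13,[6,7,8]),
  ([([(6,[(16,21)]),(6,[(16,21)])],[]),([(6,[(16,21)]),(5,[(7,8),(5,6)])],[])],4,9,[6]),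
  ([([(6,[(16,21)]),(6,[(16,21)])],[]),([(6,[(16,21)]),(5,[(7,8),(5,6)]),(3,[(5,6)])],[3,2])],4,5,[6]),
  ([([(8,[(7,8),(5,6),(5,6),(5,6)]),(6,[(16,21)])],[]),([(6,[(16,21)]),(6,[(16,21)])],[6])],2,1,[]),
  ([([(6,[(16,21)]),(6,[(16,21)])],[]),([(6,[(16,21)]),(5,[(7,8),(7,7)])],[])],4,7,[6,7]),
  ([([(6,[(16,21)]),(6,[(16,21)])],[]),([(6,[(16,21)]),(6,[(7,8),(7,7),(5,6)])],[6])],4,1,[]),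
  ([([(7,[(16,21),(7,7)]),(7,[(16,21),(7,7)])],[]),([(6,[(16,21)]),(4,[(7,8)])],[5])],2,1,[]),
  ([([(9,[(7,8),(8,8)]),(6,[(16,21)])],[]),([(6,[(16,21)]),(6,[(16,21)])],[6,6])],1,6,[3,5,6,7]),
  ([([(9,[(7,8),(8,8),(2,3)]),(6,[(16,21)])],[]),([(6,[(16,21)]),(6,[(16,21)])],[6,6])],1,5,[2,3]),
  ([([(6,[(16,21)]),(6,[(16,21)])],[]),([(6,[(16,21)]),(6,[(7,8),(8,8),(2,3),(2,2)])],[6])],2,4,[]),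
  ([([(6,[(16,21)]),(6,[(16,21)])],[]),([(6,[(16,21)]),(6,[(7,8),(8,8),(3,3)]),(2,[(2,3)])],[6,2])],3,3,[]),
  ([([(6,[(16,21)]),(6,[(16,21)])],[]),([(6,[(16,21)]),(6,[(7,8),(8,8),(4,5)])],[6])],4,1,[]),
  ([([(9,[(7,8),(8,8),(6,6)]),(6,[(16,21)])],[]),([(6,[(16,21)]),(6,[(16,21)])],[6,6])],1,1,[2]),
  ([([(9,[(7,8),(8,8),(6,6),(2,2)]),(6,[(16,21)])],[]),([(6,[(16,21)]),(6,[(16,21)])],[6,6])],1,0,[]),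
  ([([(8,[(16,21),(8,8),(7,7)]),(6,[(16,21)])],[]),([(6,[(16,21)]),(4,[(7,8)])],[6,6,5])],1,0,[]),
  ([([(6,[(16,21)]),(6,[(16,21)])],[]),([(6,[(16,21)]),(4,[(9,10)])],[5])],4,11,[6,7,10]),
  ([([(6,[(16,21)]),(6,[(16,21)])],[]),([(6,[(16,21)]),(4,[(9,10)]),(3,[(5,6)])],[5,3,2])],4,7,[5,6]),
  ([([(6,[(16,21)]),(6,[(16,21)])],[]),([(6,[(16,21)]),(6,[(9,10),(5,6),(5,5)])],[6])],4,1,[]),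
  ([([(6,[(16,21)]),(6,[(16,21)])],[]),([(6,[(16,21)]),(4,[(9,10)]),(3,[(5,6)])],[5,3,2]),([(3,[(6,6)])],[3,3,3,3,3,3,2,2,2,1,1])],1,2,[3]),
  ([([(6,[(16,21)]),(6,[(16,21)])],[]),([(6,[(16,21)]),(4,[(9,10)]),(3,[(5,6)])],[5,3,2]),([(3,[(6,6)]),(2,[(2,3)])],[3,3,3,3,3,3,2,2,1])],1,1,[2]),
  ([([(10,[(9,10),(5,6),(6,6),(2,3),(2,2)]),(6,[(16,21)])],[]),([(6,[(16,21)]),(6,[(16,21)])],[6,6,6])],1,0,[]),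
  ([([(7,[(16,21),(7,7)]),(6,[(16,21)])],[]),([(6,[(16,21)]),(4,[(9,10)])],[6,5])],3,5,[5,6]),
  ([([(7,[(16,21),(7,7)]),(6,[(16,21)])],[]),([(6,[(16,21)]),(5,[(9,10),(4,5)])],[6])],3,2,[]),
  ([([(7,[(16,21),(7,7)]),(6,[(16,21)])],[]),([(6,[(16,21)]),(4,[(9,10)])],[6,5]),([(3,[(6,6)])],[3,3,3,3,3,3,3,3,3,3,3,3,3])],1,0,[]),
  ([([(6,[(16,21)]),(6,[(16,21)])],[]),([(6,[(16,21)]),(6,[(9,10),(8,10)])],[6])],4,1,[5]),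
  ([([(6,[(16,21)]),(6,[(16,21)])],[]),([(6,[(16,21)]),(6,[(9,10),(8,10)])],[6]),([(3,[(5,5)])],[2,2,2,2,2,2,2,2,2,2,2,2])],1,0,[]),
  ([([(6,[(16,21)]),(6,[(16,21)])],[]),([(6,[(16,21)]),(5,[(11,12)])],[])],4,9,[6,8,9,10]),
  ([([(6,[(16,21)]),(6,[(16,21)])],[]),([(6,[(16,21)]),(5,[(11,12)]),(3,[(5,6)])],[3,2])],4,5,[6]),
  ([([(6,[(16,21)]),(6,[(16,21)])],[]),([(6,[(16,21)]),(5,[(11,12)]),(3,[(5,6)])],[3,2]),([(3,[(5,6)])],[3,3,3,3,3,3,2,2,2,1,1])],1,1,[2]),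
  ([([(6,[(16,21)]),(6,[(16,21)])],[]),([(6,[(16,21)]),(6,[(11,12),(5,6),(2,2)])],[6]),([(3,[(5,6)])],[2,2,2,2,2,2,2,2,2,2,2,2])],1,0,[]),
  ([([(6,[(16,21)]),(6,[(16,21)])],[]),([(6,[(16,21)]),(6,[(11,12),(7,8)])],[6])],4,1,[]),
  ([([(6,[(16,21)]),(6,[(16,21)])],[]),([(6,[(16,21)]),(6,[(11,12),(9,9)])],[6])],2,1,[]),
  ([([(6,[(16,21)]),(6,[(16,21)])],[]),([(6,[(16,21)]),(5,[(11,12)])],[]),([(4,[(10,10)])],[4,4,4,4,4,4,4,4,4,4,4,4])],1,0,[]),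
  ([([(6,[(16,21)]),(6,[(16,21)])],[]),([(6,[(16,21)]),(5,[(13,15)])],[])],4,7,[6,7,8]),
  ([([(6,[(16,21)]),(6,[(16,21)])],[]),([(6,[(16,21)]),(6,[(13,15),(5,6)])],[6])],4,1,[]),
  ([([(7,[(16,21),(7,7)]),(6,[(16,21)])],[]),([(6,[(16,21)]),(5,[(13,15)])],[6])],2,1,[]),
  ([([(6,[(16,21)]),(6,[(16,21)])],[]),([(6,[(16,21)]),(5,[(13,15)])],[]),([(4,[(8,8)])],[4,4,4,4,4,4,4,4,4,4,4,4])],1,0,[]),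
  ([([(6,[(16,21)]),(6,[(16,21)])],[]),([(6,[(16,21)]),(6,[(16,20)])],[6])],4,1,[5]),
  ([([(6,[(16,21)]),(6,[(16,21)])],[]),([(6,[(16,21)]),(6,[(16,20)])],[6]),([(3,[(5,5)])],[2,2,2,2,2,2,2,2,2,2,2,2])],1,0,[]),
  ([([(7,[(22,28)])],[])],9,8,[10,15,21,28]), ([([(7,[(22,28)]),(4,[(10,10)])],[])],9,4,[10]),
  ([([(7,[(22,28)]),(4,[(10,10)]),(4,[(10,10)])],[])],9,4,[10]),
  ([([(7,[(22,28)]),(6,[(10,10),(10,10)])],[]),([(4,[(10,10)])],[4,3,2,1])],5,10,[6,10]),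
  ([([(8,[(10,10),(10,10),(10,10),(6,6)]),(7,[(22,28)])],[])],6,10,[]),
  ([([(7,[(22,28)]),(6,[(10,10),(10,10)])],[]),([(4,[(10,10)]),(4,[(7,10)])],[])],5,10,[6,10]),
  ([([(7,[(22,28)]),(7,[(10,10),(10,10),(6,6)])],[]),([(4,[(10,10)]),(4,[(7,10)])],[4])],5,1,[6]),
  ([([(9,[(10,10),(10,10),(10,10),(6,6),(6,6)]),(7,[(22,28)])],[]),([(4,[(7,10)])],[4,4,3,2,1])],1,0,[]),
  ([([(7,[(22,28)]),(6,[(10,10),(10,10)])],[]),([(4,[(10,10)]),(4,[(7,10)]),(4,[(7,10)])],[4,3,2])],5,2,[]),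
  ([([(7,[(22,28)]),(5,[(11,15)])],[])],8,7,[10,13,15]),
  ([([(7,[(22,28)]),(5,[(11,15)]),(4,[(9,10)])],[])],9,3,[10]),
  ([([(7,[(22,28)]),(5,[(11,15)]),(4,[(9,10)])],[]),([(4,[(10,10)])],[4,4,3,1])],5,9,[6,10]),
  ([([(7,[(22,28)]),(6,[(11,15),(6,6)])],[]),([(4,[(9,10)]),(4,[(10,10)])],[])],5,10,[6]),
  ([([(7,[(22,28)]),(6,[(11,15),(6,6)])],[]),([(4,[(9,10)]),(4,[(10,10)]),(3,[(6,6)])],[3,2,1])],5,4,[6]),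
  ([([(7,[(22,28)]),(7,[(9,10),(10,10),(6,6)])],[]),([(6,[(11,15),(6,6)]),(3,[(6,6)])],[5,4])],2,1,[]),
  ([([(7,[(22,28)]),(5,[(11,15)]),(4,[(9,10)])],[]),([(4,[(10,10)]),(4,[(7,10)])],[4,2,1])],5,6,[6,10]),
  ([([(7,[(22,28)]),(6,[(11,15),(6,6)])],[]),([(4,[(9,10)]),(4,[(10,10)]),(4,[(7,10)])],[4,3,2])],5,2,[6]),
  ([([(8,[(9,10),(10,10),(7,10),(6,6)]),(7,[(22,28)])],[]),([(6,[(11,15),(6,6)])],[6,5,4,3,2,1])],1,0,[]),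
  ([([(7,[(22,28)]),(5,[(11,15)]),(4,[(9,10)])],[]),([(4,[(10,10)]),(4,[(7,10)]),(4,[(7,10)])],[])],5,4,[]),
  ([([(7,[(22,28)]),(5,[(11,15)])],[]),([(5,[(11,13)])],[5,5,4,3,2,1])],4,13,[6,8,10,12,13]),
  ([([(7,[(22,28)]),(5,[(11,15)])],[]),([(5,[(11,13)]),(3,[(5,6)])],[5,5,4])],4,13,[6]),
  ([([(7,[(22,28)]),(5,[(11,15)])],[]),([(5,[(11,13)]),(3,[(5,6)]),(3,[(5,6)])],[5,5,4,3,2])],4,7,[6]),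
  ([([(7,[(22,28)]),(7,[(5,6),(5,6),(5,6)])],[]),([(5,[(11,15)]),(5,[(11,13)])],[5])],3,11,[4,5,6]),
  ([([(7,[(22,28)]),(7,[(5,6),(5,6),(5,6),(4,4)])],[]),([(5,[(11,15)]),(5,[(11,13)])],[5])],3,8,[4]),
  ([([(7,[(22,28)]),(7,[(5,6),(5,6),(5,6),(4,4)])],[]),([(5,[(11,15)]),(5,[(11,13)]),(3,[(4,4)])],[5,3,2])],4,1,[]),
  ([([(7,[(22,28)]),(6,[(5,6),(5,5)])],[]),([(5,[(11,15)]),(5,[(11,13)]),(3,[(5,6)]),(3,[(5,6)])],[])],4,6,[5]),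
  ([([(7,[(22,28)]),(7,[(5,6),(5,6),(5,5),(5,5)])],[]),([(5,[(11,15)]),(5,[(11,13)]),(3,[(5,6)])],[5,3,2])],4,1,[]),
  ([([(7,[(22,28)]),(6,[(11,15),(6,6)])],[]),([(5,[(11,13)]),(3,[(5,6)]),(3,[(5,6)]),(3,[(5,6)])],[5,4])],4,6,[6]),
  ([([(7,[(22,28)]),(7,[(5,6),(5,6),(5,6)])],[]),([(6,[(11,15),(6,6)]),(5,[(11,13)]),(3,[(5,6)])],[3,2])],3,2,[]),
  ([([(7,[(22,28)]),(6,[(11,13),(7,8)])],[]),([(5,[(11,15)])],[5,4,3,2,1])],4,12,[6,8]),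
  ([([(7,[(22,28)]),(6,[(11,13),(7,8)])],[]),([(5,[(11,15)]),(3,[(5,6)])],[5,4])],4,12,[6]),
  ([([(7,[(22,28)]),(6,[(11,13),(7,8)])],[]),([(5,[(11,15)]),(3,[(5,6)]),(3,[(5,6)])],[5,4,3,2])],4,6,[6]),
  ([([(7,[(22,28)]),(6,[(11,13),(7,8)])],[]),([(5,[(11,15)]),(3,[(5,6)]),(3,[(5,6)]),(3,[(5,6)])],[5,4])],4,5,[6]),
  ([([(8,[(5,6),(5,6),(5,6),(5,6)]),(7,[(22,28)])],[]),([(6,[(11,13),(7,8)]),(5,[(11,15)])],[6])],2,1,[]),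
  ([([(7,[(22,28)]),(6,[(11,13),(7,8)])],[]),([(5,[(11,15)]),(4,[(7,8)])],[5])],4,11,[6,8]),
  ([([(7,[(22,28)]),(6,[(11,13),(7,8)])],[]),([(5,[(11,15)]),(5,[(7,8),(5,6)])],[])],4,7,[6]),
  ([([(7,[(22,28)]),(6,[(11,13),(7,8)])],[]),([(5,[(11,15)]),(5,[(7,8),(5,6)]),(3,[(5,6)])],[3,2])],4,3,[]),
  ([([(9,[(7,8),(7,8),(7,8)]),(7,[(22,28)])],[]),([(5,[(11,15)]),(5,[(11,13)])],[5])],2,5,[3,6]),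
  ([([(9,[(7,8),(7,8),(7,8),(3,3)]),(7,[(22,28)])],[]),([(5,[(11,15)]),(5,[(11,13)])],[5])],2,3,[3]),
  ([([(9,[(7,8),(7,8),(7,8),(3,3),(3,3)]),(7,[(22,28)])],[]),([(5,[(11,15)]),(5,[(11,13)])],[5])],2,1,[]),
  ([([(9,[(7,8),(7,8),(7,8),(4,6)]),(7,[(22,28)])],[]),([(5,[(11,15)]),(5,[(11,13)])],[5])],2,2,[3]),
  ([([(9,[(7,8),(7,8),(4,6),(3,3)]),(7,[(22,28)])],[]),([(6,[(11,13),(7,8)]),(5,[(11,15)])],[6,6])],1,0,[]),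
  ([([(7,[(22,28)]),(5,[(11,15)])],[]),([(5,[(11,13)]),(4,[(9,10)])],[5,5])],4,13,[6,8,10]),
  ([([(7,[(22,28)]),(5,[(11,15)])],[]),([(5,[(11,13)]),(4,[(9,10)]),(3,[(5,6)])],[5,5,3,2])],4,7,[5,6]),
  ([([(7,[(22,28)]),(7,[(11,13),(9,10),(5,5)])],[]),([(5,[(11,15)]),(3,[(5,6)])],[4])],4,7,[5]),
  ([([(7,[(22,28)]),(7,[(11,13),(9,10),(5,5)])],[]),([(5,[(11,15)]),(3,[(5,6)]),(3,[(5,5)])],[4,3,2,1])],4,3,[]),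
  ([([(7,[(22,28)]),(6,[(11,15),(6,6)])],[]),([(5,[(11,13)]),(4,[(9,10)]),(3,[(5,6)])],[5,3,2])],4,6,[6]),
  ([([(7,[(22,28)]),(7,[(9,10),(5,6),(6,6),(5,6)])],[]),([(5,[(11,15)]),(5,[(11,13)])],[5])],3,2,[]),
  ([([(7,[(22,28)]),(6,[(11,13),(7,8)])],[]),([(5,[(11,15)]),(4,[(9,10)])],[5])],4,9,[6,7,8]),
  ([([(7,[(22,28)]),(6,[(11,13),(7,8)])],[]),([(5,[(11,15)]),(4,[(9,10)]),(3,[(5,6)])],[5,3,2])],4,5,[6]),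
  ([([(7,[(22,28)]),(6,[(11,13),(7,8)])],[]),([(5,[(11,15)]),(4,[(9,10)]),(3,[(5,6)]),(3,[(5,6)])],[5])],2,1,[]),
  ([([(7,[(22,28)]),(7,[(11,13),(7,8),(7,7)])],[]),([(5,[(11,15)]),(4,[(9,10)])],[])],4,3,[]),
  ([([(8,[(22,28),(8,8)]),(6,[(11,13),(7,8)])],[]),([(5,[(11,15)]),(4,[(9,10)])],[5,5])],3,2,[]),
  ([([(7,[(22,28)]),(6,[(9,10),(9,10)])],[]),([(5,[(11,15)]),(5,[(11,13)])],[])],4,7,[6,8]),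
  ([([(7,[(22,28)]),(6,[(9,10),(9,10)])],[]),([(5,[(11,15)]),(5,[(11,13)]),(3,[(5,6)])],[3,2])],4,3,[]),
  ([([(7,[(22,28)]),(6,[(11,13),(7,8)])],[]),([(6,[(9,10),(9,10)]),(5,[(11,15)])],[6])],2,1,[]),
  ([([(7,[(22,28)]),(5,[(11,15)])],[]),([(5,[(11,13)]),(5,[(11,12)])],[5])],4,13,[6,8,10,11,12]),
  ([([(7,[(22,28)]),(5,[(11,15)])],[]),([(5,[(11,13)]),(5,[(11,12)]),(3,[(5,6)])],[5,3,2])],4,7,[6]),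
  ([([(7,[(22,28)]),(5,[(11,15)])],[]),([(5,[(11,13)]),(5,[(11,12)]),(3,[(5,6)])],[5,3,2]),([(3,[(5,6)])],[3,3,3,3,3,3,2,2,2,1,1])],1,5,[3,6]),
  ([([(7,[(22,28)]),(7,[(11,13),(11,12),(2,3)])],[]),([(5,[(11,15)]),(3,[(5,6)]),(3,[(5,6)])],[4,3,2,1])],3,4,[]),
  ([([(7,[(22,28)]),(5,[(11,15)])],[]),([(5,[(11,13)]),(5,[(11,12)]),(3,[(5,6)])],[5,3,2]),([(3,[(5,6)]),(3,[(4,6)])],[3,3,3,3,3,2,2,1])],1,2,[3]),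
  ([([(7,[(22,28)]),(7,[(11,13),(11,12),(2,3)])],[]),([(7,[(5,6),(5,6),(4,6)]),(5,[(11,15)])],[6])],2,1,[]),
  ([([(7,[(22,28)]),(6,[(11,13),(7,8)])],[]),([(5,[(11,15)]),(5,[(11,12)])],[])],4,7,[6,8]),
  ([([(7,[(22,28)]),(6,[(11,13),(7,8)])],[]),([(5,[(11,15)]),(5,[(11,12)]),(3,[(5,6)])],[3,2])],4,3,[]),
  ([([(7,[(22,28)]),(6,[(11,13),(7,8)])],[]),([(6,[(11,12),(7,8)]),(5,[(11,15)])],[6])],2,1,[]),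
  ([([(8,[(11,13),(11,12),(9,10)]),(7,[(22,28)])],[]),([(5,[(11,15)])],[5,4,3,2,1])],3,5,[6]),
  ([([(8,[(11,13),(11,12),(9,10)]),(7,[(22,28)])],[]),([(5,[(11,15)]),(3,[(4,6)])],[5,4])],3,2,[]),
  ([([(8,[(11,13),(11,12),(11,11)]),(7,[(22,28)])],[]),([(5,[(11,15)])],[5,4,3,2,1])],3,3,[4]),
  ([([(8,[(11,13),(11,12),(11,11)]),(7,[(22,28)])],[]),([(5,[(11,15)]),(3,[(4,4)])],[5,4])],1,0,[]),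
  ([([(7,[(22,28)]),(7,[(11,15),(12,12)])],[]),([(5,[(11,13)]),(5,[(11,12)])],[5])],3,2,[]),
  ([([(7,[(22,28)]),(7,[(11,15),(13,13)])],[]),([(5,[(11,13)])],[4,3,2,1])],4,11,[6,10,12]),
  ([([(7,[(22,28)]),(7,[(11,15),(13,13)])],[]),([(5,[(11,13)]),(3,[(5,6)])],[4])],4,7,[6]),
  ([([(7,[(22,28)]),(7,[(11,15),(13,13)])],[]),([(5,[(11,13)]),(3,[(5,6)]),(3,[(5,6)])],[4,3,2,1])],4,3,[]),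
  ([([(7,[(22,28)]),(7,[(11,15),(13,13)])],[]),([(5,[(11,13)]),(4,[(7,10)])],[])],4,5,[6]),
  ([([(7,[(22,28)]),(7,[(11,15),(13,13)])],[]),([(5,[(11,13)]),(4,[(7,10)]),(3,[(5,6)])],[3,2,1])],2,1,[]),
  ([([(7,[(22,28)]),(7,[(11,15),(13,13)])],[]),([(5,[(11,13)]),(5,[(11,12)])],[5])],2,1,[]),
  ([([(7,[(22,28)]),(5,[(11,15)])],[]),([(5,[(14,15)])],[5,5,4,3,2,1])],4,13,[6,8,10,13,15]),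
  ([([(7,[(22,28)]),(6,[(14,15),(5,6)])],[]),([(5,[(11,15)])],[5,4,3,2,1])],4,12,[6]),
  ([([(7,[(22,28)]),(7,[(14,15),(5,6),(5,6)])],[]),([(5,[(11,15)])],[4,3,2,1])],4,11,[6]),
  ([([(7,[(22,28)]),(7,[(14,15),(5,6),(5,6)])],[]),([(5,[(11,15)]),(3,[(5,6)])],[4])],4,8,[6]),
  ([([(7,[(22,28)]),(7,[(14,15),(5,6),(5,6)])],[]),([(5,[(11,15)]),(3,[(5,6)]),(3,[(5,6)])],[4,3,2,1])],4,4,[5]),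
  ([([(7,[(22,28)]),(7,[(14,15),(5,6),(5,6)])],[]),([(7,[(5,6),(5,6),(5,5)]),(5,[(11,15)])],[6])],1,0,[]),
  ([([(7,[(22,28)]),(5,[(11,15)])],[]),([(5,[(14,15)]),(4,[(7,8)])],[5,5])],4,13,[6,8]),
  ([([(7,[(22,28)]),(6,[(14,15),(5,6)])],[]),([(5,[(11,15)]),(4,[(7,8)])],[5])],4,10,[6]),
  ([([(7,[(22,28)]),(7,[(14,15),(5,6),(5,6)])],[]),([(5,[(11,15)]),(4,[(7,8)])],[])],4,6,[6]),
  ([([(7,[(22,28)]),(7,[(14,15),(5,6),(5,6)])],[]),([(5,[(11,15)]),(5,[(7,8),(5,6)])],[5])],3,2,[]),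
  ([([(9,[(7,8),(7,8)]),(7,[(22,28)])],[]),([(5,[(11,15)]),(5,[(14,15)])],[5])],2,8,[3,6,8]),
  ([([(7,[(22,28)]),(7,[(14,15),(7,8),(3,3)])],[]),([(5,[(11,15)]),(4,[(7,8)])],[])],3,6,[]),
  ([([(9,[(7,8),(7,8),(4,6)]),(7,[(22,28)])],[]),([(5,[(11,15)]),(5,[(14,15)])],[5])],2,5,[3,6]),
  ([([(7,[(22,28)]),(7,[(14,15),(7,8),(3,3)])],[]),([(5,[(11,15)]),(4,[(7,8)]),(3,[(4,6)])],[3,2,1])],3,3,[]),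
  ([([(9,[(7,8),(7,8),(4,6),(4,6)]),(7,[(22,28)])],[]),([(5,[(11,15)]),(5,[(14,15)])],[5])],2,2,[3]),
  ([([(8,[(7,8),(4,6),(4,6)]),(7,[(22,28)])],[]),([(7,[(14,15),(7,8),(3,3)]),(5,[(11,15)])],[7,6])],1,0,[]),
  ([([(9,[(7,8),(7,8),(7,8)]),(7,[(22,28)])],[]),([(5,[(11,15)]),(5,[(14,15)])],[5])],2,2,[3]),
  ([([(9,[(7,8),(7,8)]),(7,[(22,28)])],[]),([(7,[(14,15),(7,8),(3,3)]),(5,[(11,15)])],[7,7,6])],1,0,[]),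
  ([([(7,[(22,28)]),(7,[(14,15),(9,10)])],[]),([(5,[(11,15)])],[4,3,2,1])],4,11,[6,10]),
  ([([(7,[(22,28)]),(7,[(14,15),(9,10)])],[]),([(5,[(11,15)]),(3,[(5,6)])],[4])],4,8,[6]),
  ([([(7,[(22,28)]),(7,[(14,15),(9,10)])],[]),([(5,[(11,15)]),(3,[(5,6)]),(3,[(5,6)])],[4,3,2,1])],4,4,[5]),
  ([([(8,[(14,15),(9,10),(5,6),(5,5)]),(7,[(22,28)])],[]),([(5,[(11,15)]),(3,[(5,6)])],[5,4])],1,0,[]),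
  ([([(7,[(22,28)]),(7,[(14,15),(9,10)])],[]),([(5,[(11,15)]),(4,[(7,10)])],[])],4,6,[6,7]),
  ([([(7,[(22,28)]),(7,[(14,15),(9,10)])],[]),([(5,[(11,15)]),(4,[(7,10)]),(3,[(5,6)])],[3,2,1])],3,2,[]),
  ([([(7,[(22,28)]),(7,[(14,15),(9,10)])],[]),([(5,[(11,15)]),(4,[(7,10)]),(4,[(7,7)])],[4,3,2])],1,0,[]),
  ([([(7,[(22,28)]),(7,[(14,15),(11,13)])],[]),([(5,[(11,15)])],[4,3,2,1])],4,10,[6,10,11]),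
  ([([(7,[(22,28)]),(7,[(14,15),(11,13)])],[]),([(5,[(11,15)]),(3,[(5,6)])],[4])],4,6,[6]),
  ([([(7,[(22,28)]),(7,[(14,15),(11,13)])],[]),([(5,[(11,15)]),(3,[(5,6)]),(3,[(5,6)])],[4,3,2,1])],3,2,[]),
  ([([(7,[(22,28)]),(7,[(14,15),(11,13)])],[]),([(5,[(11,15)]),(4,[(7,10)])],[])],4,4,[5]),
  ([([(7,[(22,28)]),(7,[(14,15),(11,13)])],[]),([(5,[(11,15)]),(5,[(7,10),(5,5)])],[5])],1,0,[]),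
  ([([(7,[(22,28)]),(7,[(14,15),(11,13)])],[]),([(5,[(11,15)]),(5,[(11,11)])],[5])],1,0,[]),
  ([([(9,[(11,15),(14,15),(14,15)]),(7,[(22,28)])],[])],7,3,[8]),
  ([([(9,[(11,15),(14,15),(14,15)]),(7,[(22,28)])],[]),([(4,[(8,8)])],[4,4,3,2,1])],1,0,[]),
  ([([(7,[(22,28)]),(6,[(16,21)])],[])],8,6,[10,15,21]),
  ([([(7,[(22,28)]),(6,[(16,21)])],[]),([(4,[(9,10)])],[4,3,2,1])],5,10,[6,10]),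
  ([([(7,[(22,28)]),(6,[(16,21)])],[]),([(4,[(9,10)]),(3,[(6,6)])],[4])],5,10,[6]),
  ([([(7,[(22,28)]),(6,[(16,21)])],[]),([(4,[(9,10)]),(3,[(6,6)]),(3,[(6,6)])],[4,3,2,1])],5,4,[6]),
  ([([(7,[(22,28)]),(6,[(16,21)])],[]),([(4,[(9,10)]),(3,[(6,6)]),(3,[(6,6)]),(3,[(6,6)])],[4])],5,4,[6]),
  ([([(8,[(9,10),(6,6),(6,6),(6,6),(6,6)]),(7,[(22,28)])],[]),([(6,[(16,21)])],[6,5,4,3,2,1])],1,0,[]),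
  ([([(7,[(22,28)]),(6,[(16,21)])],[]),([(4,[(9,10)]),(4,[(7,10)])],[])],5,10,[6,10]),
  ([([(7,[(22,28)]),(6,[(16,21)])],[]),([(4,[(9,10)]),(4,[(7,10)]),(3,[(6,6)])],[3,2,1])],5,4,[6]),
  ([([(7,[(22,28)]),(6,[(16,21)])],[]),([(4,[(9,10)]),(4,[(7,10)]),(3,[(6,6)]),(3,[(6,6)])],[])],5,4,[]),
  ([([(7,[(22,28)]),(6,[(16,21)])],[]),([(4,[(9,10)]),(4,[(7,10)]),(4,[(7,10)])],[4,3,2])],5,2,[6,9]),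
  ([([(7,[(22,28)]),(6,[(16,21)])],[]),([(4,[(9,10)]),(4,[(7,10)]),(4,[(7,10)]),(3,[(6,6)])],[4])],4,3,[]),
  ([([(7,[(22,28)]),(6,[(16,21)])],[]),([(4,[(9,10)]),(4,[(7,10)]),(4,[(7,10)]),(4,[(7,9)])],[])],3,2,[]),
  ([([(7,[(22,28)]),(6,[(16,21)])],[]),([(5,[(11,15)])],[5,4,3,2,1])],4,12,[6,8,10,15]),
  ([([(7,[(22,28)]),(6,[(16,21)])],[]),([(5,[(11,15)]),(3,[(5,6)])],[5,4])],4,12,[6]),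
  ([([(7,[(22,28)]),(6,[(16,21)])],[]),([(5,[(11,15)]),(3,[(5,6)]),(3,[(5,6)])],[5,4,3,2])],4,6,[6]),
  ([([(7,[(22,28)]),(6,[(16,21)])],[]),([(5,[(11,15)]),(3,[(5,6)]),(3,[(5,6)]),(3,[(5,6)])],[5,4])],4,6,[6]),
  ([([(7,[(22,28)]),(7,[(5,6),(5,6),(5,6)])],[]),([(6,[(16,21)]),(5,[(11,15)]),(3,[(5,6)])],[3,2])],3,2,[]),
  ([([(7,[(22,28)]),(6,[(16,21)])],[]),([(5,[(11,15)]),(4,[(7,8)])],[5])],4,12,[6,7,8]),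
  ([([(7,[(22,28)]),(6,[(16,21)])],[]),([(5,[(11,15)]),(5,[(7,8),(5,6)])],[])],4,8,[6]),
  ([([(7,[(22,28)]),(6,[(16,21)])],[]),([(5,[(11,15)]),(5,[(7,8),(5,6)]),(3,[(5,6)])],[3,2])],4,4,[5]),
  ([([(8,[(7,8),(5,6),(5,6),(5,5)]),(7,[(22,28)])],[]),([(6,[(16,21)]),(5,[(11,15)])],[6])],1,0,[]),
  ([([(7,[(22,28)]),(7,[(16,21),(7,7)])],[]),([(5,[(11,15)]),(4,[(7,8)])],[])],4,6,[6,7]),
  ([([(7,[(22,28)]),(7,[(16,21),(7,7)])],[]),([(5,[(11,15)]),(5,[(7,8),(5,6)])],[5])],3,2,[]),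
  ([([(7,[(22,28)]),(7,[(16,21),(7,7)])],[]),([(5,[(11,15)]),(5,[(7,8),(7,7)])],[5])],1,0,[]),
  ([([(8,[(22,28),(8,8)]),(6,[(16,21)])],[]),([(5,[(11,15)]),(4,[(7,8)])],[5,5])],3,5,[6]),
  ([([(8,[(22,28),(8,8)]),(6,[(16,21)])],[]),([(5,[(11,15)]),(4,[(7,8)]),(3,[(4,6)])],[5,5,3,2])],3,2,[]),
  ([([(7,[(22,28)]),(6,[(16,21)])],[]),([(5,[(11,15)]),(4,[(9,10)])],[5])],4,10,[6,7,10]),
  ([([(7,[(22,28)]),(6,[(16,21)])],[]),([(5,[(11,15)]),(4,[(9,10)]),(3,[(5,6)])],[5,3,2])],4,6,[6]),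
  ([([(7,[(22,28)]),(6,[(16,21)])],[]),([(5,[(11,15)]),(4,[(9,10)]),(3,[(5,6)]),(3,[(5,6)])],[5])],3,2,[]),
  ([([(7,[(22,28)]),(7,[(16,21),(7,7)])],[]),([(5,[(11,15)]),(4,[(9,10)])],[])],4,4,[5]),
  ([([(7,[(22,28)]),(7,[(16,21),(7,7)])],[]),([(5,[(11,15)]),(5,[(9,10),(5,5)])],[5])],1,0,[]),
  ([([(7,[(22,28)]),(6,[(16,21)])],[]),([(6,[(9,10),(8,10)]),(5,[(11,15)])],[6])],3,3,[4]),
  ([([(7,[(22,28)]),(6,[(16,21)])],[]),([(6,[(9,10),(8,10)]),(5,[(11,15)])],[6]),([(3,[(4,4)])],[3,3,3,3,3,3,3,3,3,3,3,3,3])],1,0,[]),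
  ([([(7,[(22,28)]),(6,[(16,21)])],[]),([(5,[(11,15)]),(5,[(11,15)])],[])],4,8,[6,7,8,9]),
  ([([(7,[(22,28)]),(6,[(16,21)])],[]),([(5,[(11,15)]),(5,[(11,15)]),(3,[(5,6)])],[3,2])],4,4,[5]),
  ([([(7,[(22,28)]),(6,[(16,21)])],[]),([(5,[(11,15)]),(5,[(11,15)]),(3,[(5,6)]),(3,[(5,5)])],[])],1,0,[]),
  ([([(7,[(22,28)]),(7,[(16,21),(7,7)])],[]),([(5,[(11,15)]),(5,[(11,15)])],[5])],3,2,[]),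
  ([([(8,[(22,28),(8,8)]),(6,[(16,21)])],[]),([(5,[(11,15)]),(5,[(11,15)])],[5])],2,1,[]),
  ([([(7,[(22,28)]),(6,[(16,21)])],[]),([(5,[(11,15)]),(5,[(11,15)])],[]),([(4,[(9,9)])],[4,4,4,4,4,4,4,4,4,4,4,3])],1,0,[]),
  ([([(7,[(22,28)]),(6,[(16,21)])],[]),([(6,[(16,21)])],[6,5,4,3,2,1])],3,13,[6,8,10,14]),
  ([([(7,[(22,28)]),(6,[(16,21)])],[]),([(6,[(16,21)]),(3,[(4,6)])],[6,5,4])],3,10,[6]),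
  ([([(7,[(22,28)]),(7,[(4,6),(4,6)])],[]),([(6,[(16,21)]),(6,[(16,21)])],[6])],2,7,[3,6]),
  ([([(7,[(22,28)]),(7,[(4,6),(4,6),(3,3)])],[]),([(6,[(16,21)]),(6,[(16,21)])],[6])],2,5,[3]),
  ([([(7,[(22,28)]),(7,[(4,6),(4,6),(3,3),(3,3)])],[]),([(6,[(16,21)]),(6,[(16,21)])],[6])],3,1,[]),
  ([([(7,[(22,28)]),(7,[(4,6),(4,6),(4,6)])],[]),([(6,[(16,21)]),(6,[(16,21)])],[6])],2,4,[3,5]),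
  ([([(7,[(22,28)]),(7,[(4,6),(4,6),(4,6),(3,3)])],[]),([(6,[(16,21)]),(6,[(16,21)])],[6])],3,1,[]),
  ([([(8,[(4,6),(4,6),(4,6),(4,5)]),(7,[(22,28)])],[]),([(6,[(16,21)]),(6,[(16,21)])],[])],2,1,[]),
  ([([(7,[(22,28)]),(6,[(16,21)])],[]),([(6,[(16,21)]),(4,[(7,8)])],[6,5])],3,7,[6,8]),
  ([([(8,[(7,8),(4,6)]),(7,[(22,28)])],[]),([(6,[(16,21)]),(6,[(16,21)])],[])],2,4,[3,5]),
  ([([(8,[(7,8),(4,6),(3,3)]),(7,[(22,28)])],[]),([(6,[(16,21)]),(6,[(16,21)])],[])],2,2,[3]),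
  ([([(8,[(7,8),(4,6),(3,3),(3,3)]),(7,[(22,28)])],[]),([(6,[(16,21)]),(6,[(16,21)])],[])],1,0,[]),
  ([([(8,[(7,8),(4,6),(4,5)]),(7,[(22,28)])],[]),([(6,[(16,21)]),(6,[(16,21)])],[])],2,1,[]),
  ([([(9,[(7,8),(7,8)]),(7,[(22,28)])],[]),([(6,[(16,21)]),(6,[(16,21)])],[6])],1,1,[2]),
  ([([(9,[(7,8),(7,8),(2,2)]),(7,[(22,28)])],[]),([(6,[(16,21)]),(6,[(16,21)])],[6])],1,0,[]),
  ([([(7,[(22,28)]),(6,[(16,21)])],[]),([(6,[(16,21)]),(4,[(9,10)])],[6,5])],3,5,[5,6]),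
  ([([(7,[(22,28)]),(6,[(16,21)])],[]),([(6,[(16,21)]),(5,[(9,10),(4,5)])],[6])],3,2,[]),
  ([([(7,[(22,28)]),(6,[(16,21)])],[]),([(6,[(16,21)]),(4,[(9,10)])],[6,5]),([(3,[(6,6)])],[3,3,3,3,3,3,3,3,3,3,3,3,3])],1,0,[]),
  ([([(7,[(22,28)]),(6,[(16,21)])],[]),([(6,[(16,21)]),(5,[(11,14)])],[6])],3,3,[4]),
  ([([(7,[(22,28)]),(6,[(16,21)])],[]),([(6,[(16,21)]),(5,[(11,14)])],[6]),([(3,[(4,4)])],[3,3,3,3,3,3,3,3,3,3,3,3,3])],1,0,[]),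
  ([([(7,[(22,28)]),(7,[(22,28)])],[])],8,4,[10,15,21,23]),
  ([([(7,[(22,28)]),(7,[(22,28)])],[]),([(4,[(9,10)])],[3,2,1])],5,9,[6,10]),
  ([([(7,[(22,28)]),(7,[(22,28)])],[]),([(4,[(9,10)]),(3,[(6,6)])],[])],5,9,[6]),
  ([([(7,[(22,28)]),(7,[(22,28)])],[]),([(4,[(9,10)]),(3,[(6,6)]),(3,[(6,6)])],[3,2,1])],5,3,[]),
  ([([(7,[(22,28)]),(7,[(22,28)])],[]),([(4,[(9,10)]),(4,[(7,10)])],[4])],4,8,[6,9]),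
  ([([(7,[(22,28)]),(7,[(22,28)])],[]),([(4,[(9,10)]),(4,[(7,10)]),(3,[(5,6)])],[4,3,2,1])],5,1,[]),
  ([([(7,[(22,28)]),(7,[(22,28)])],[]),([(4,[(9,10)]),(4,[(7,10)]),(4,[(7,9)])],[3,2,1])],3,2,[]),
  ([([(7,[(22,28)]),(7,[(22,28)])],[]),([(5,[(11,15)])],[4,3,2,1])],4,11,[6,10,13]),
  ([([(7,[(22,28)]),(7,[(22,28)])],[]),([(5,[(11,15)]),(3,[(5,6)])],[4])],4,8,[6]),
  ([([(7,[(22,28)]),(7,[(22,28)])],[]),([(5,[(11,15)]),(3,[(5,6)]),(3,[(5,6)])],[4,3,2,1])],4,4,[5]),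
  ([([(7,[(22,28)]),(7,[(22,28)])],[]),([(7,[(5,6),(5,6),(5,5)]),(5,[(11,15)])],[6])],1,0,[]),
  ([([(7,[(22,28)]),(7,[(22,28)])],[]),([(5,[(11,15)]),(4,[(7,10)])],[])],4,6,[6,7]),
  ([([(7,[(22,28)]),(7,[(22,28)])],[]),([(5,[(11,15)]),(4,[(7,10)]),(3,[(5,6)])],[3,2,1])],3,2,[]),
  ([([(7,[(22,28)]),(7,[(22,28)])],[]),([(5,[(11,15)]),(4,[(7,10)]),(4,[(7,7)])],[4,3,2])],1,0,[]),
  ([([(7,[(22,28)]),(7,[(22,28)])],[]),([(5,[(11,15)]),(5,[(11,13)])],[5])],3,2,[]),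
  ([([(7,[(22,28)]),(7,[(22,28)])],[]),([(6,[(16,21)])],[5,4,3,2,1])],3,7,[6,8]),
  ([([(7,[(22,28)]),(7,[(22,28)])],[]),([(6,[(16,21)]),(3,[(4,6)])],[5,4])],3,4,[5]),
  ([([(7,[(22,28)]),(7,[(22,28)])],[]),([(6,[(16,21)]),(6,[(4,6),(4,5)])],[6])],2,1,[]),
  ([([(7,[(22,28)]),(7,[(22,28)])],[]),([(6,[(16,21)]),(4,[(7,8)])],[5])],2,1,[]),
  ([([(7,[(22,28)]),(7,[(22,28)])],[]),([(7,[(22,23)])],[6,5,4,3,2,1])],2,1,[]),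
  ([([(8,[(29,36)])],[])],8,9,[10,15,21,28,36]), ([([(8,[(29,36)]),(4,[(9,10)])],[])],8,5,[10]),
  ([([(8,[(29,36)]),(6,[(9,10),(9,10)])],[])],8,3,[10]),
  ([([(8,[(29,36)]),(6,[(9,10),(9,10)])],[]),([(4,[(9,10)])],[4,4,3,2,1])],4,11,[6,10]),
  ([([(8,[(29,36)]),(8,[(9,10),(9,10),(9,10),(5,6)])],[])],6,8,[]),
  ([([(8,[(29,36)]),(6,[(9,10),(9,10)])],[]),([(4,[(9,10)]),(4,[(7,10)])],[4])],4,6,[6,7]),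
  ([([(8,[(29,36)]),(8,[(9,10),(9,10),(9,10),(5,6)])],[]),([(4,[(7,10)])],[3,2,1])],3,2,[]),
  ([([(8,[(29,36)]),(7,[(9,10),(9,10),(7,7)])],[]),([(4,[(9,10)]),(4,[(7,10)])],[])],1,0,[]),
  ([([(8,[(29,36)]),(5,[(11,15)])],[])],8,4,[10,12,13,15]),
  ([([(8,[(29,36)]),(5,[(11,15)])],[]),([(4,[(9,10)])],[4,4,4,3,2,1])],4,12,[6,10]),
  ([([(8,[(29,36)]),(5,[(11,15)])],[]),([(4,[(9,10)]),(3,[(5,6)])],[4,4,4])],4,12,[6]),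
  ([([(8,[(29,36)]),(5,[(11,15)])],[]),([(4,[(9,10)]),(3,[(5,6)]),(3,[(5,6)])],[4,4,4,3,2])],4,6,[6]),
  ([([(8,[(29,36)]),(5,[(11,15)])],[]),([(4,[(9,10)]),(3,[(5,6)]),(3,[(5,6)]),(3,[(5,6)])],[4,4,4])],4,6,[6]),
  ([([(8,[(29,36)]),(8,[(5,6),(5,6),(5,6),(5,6)])],[]),([(5,[(11,15)]),(4,[(9,10)])],[])],3,2,[]),
  ([([(8,[(29,36)]),(5,[(11,15)])],[]),([(4,[(9,10)]),(4,[(7,10)])],[4,4])],4,12,[6,10]),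
  ([([(8,[(29,36)]),(5,[(11,15)])],[]),([(4,[(9,10)]),(4,[(7,10)]),(3,[(5,6)])],[4,4,3,2])],4,6,[6]),
  ([([(8,[(29,36)]),(5,[(11,15)])],[]),([(4,[(9,10)]),(4,[(7,10)]),(3,[(5,6)]),(3,[(5,6)])],[4,4])],4,4,[5]),
  ([([(8,[(29,36)]),(6,[(9,10),(5,6),(5,5)])],[]),([(5,[(11,15)]),(4,[(7,10)]),(3,[(5,6)])],[5,5,3,2])],1,0,[]),
  ([([(8,[(29,36)]),(5,[(11,15)])],[]),([(4,[(9,10)]),(4,[(7,10)]),(4,[(7,10)])],[4,3,2])],4,6,[6,7]),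
  ([([(8,[(29,36)]),(5,[(11,15)])],[]),([(4,[(9,10)]),(4,[(7,10)]),(4,[(7,10)]),(3,[(5,6)])],[4])],3,2,[]),
  ([([(8,[(29,36)]),(5,[(11,15)])],[]),([(4,[(9,10)]),(4,[(7,10)]),(4,[(7,10)]),(4,[(7,7)])],[])],1,0,[]),
  ([([(8,[(29,36)]),(5,[(11,15)])],[]),([(5,[(11,12)])],[5,5,5,4,3,2,1])],3,14,[6,8,10,11,12]),
  ([([(8,[(29,36)]),(5,[(11,15)])],[]),([(5,[(11,12)]),(3,[(4,6)])],[5,5,5,4])],3,13,[6]),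
  ([([(8,[(29,36)]),(7,[(4,6),(4,6)])],[]),([(5,[(11,15)]),(5,[(11,12)])],[])],3,10,[6]),
  ([([(8,[(29,36)]),(7,[(4,6),(4,6),(4,6)])],[]),([(5,[(11,15)]),(5,[(11,12)])],[])],3,7,[6]),
  ([([(8,[(29,36)]),(7,[(4,6),(4,6),(4,6)])],[]),([(5,[(11,15)]),(5,[(11,12)]),(3,[(4,6)])],[3,2,1])],3,4,[5]),
  ([([(8,[(29,36)]),(8,[(4,6),(4,6),(4,6),(4,6),(4,5)])],[]),([(5,[(11,15)]),(5,[(11,12)])],[5])],2,1,[]),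
  ([([(8,[(29,36)]),(6,[(11,12),(7,8)])],[]),([(5,[(11,15)])],[5,5,4,3,2,1])],3,10,[6,8]),
  ([([(8,[(29,36)]),(6,[(11,12),(7,8)])],[]),([(5,[(11,15)]),(3,[(4,6)])],[5,5,4])],3,7,[6]),
  ([([(8,[(29,36)]),(6,[(11,12),(7,8)])],[]),([(5,[(11,15)]),(3,[(4,6)]),(3,[(4,6)])],[5,5,4,3,2])],3,4,[5]),
  ([([(8,[(29,36)]),(7,[(4,6),(4,6),(4,5)])],[]),([(6,[(11,12),(7,8)]),(5,[(11,15)])],[6])],2,1,[]),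
  ([([(8,[(29,36)]),(7,[(11,12),(7,8),(7,8)])],[]),([(5,[(11,15)])],[5,4,3,2,1])],3,4,[5]),
  ([([(8,[(29,36)]),(7,[(11,12),(7,8),(7,8)])],[]),([(5,[(11,15)]),(3,[(4,5)])],[5,4])],2,1,[]),
  ([([(8,[(29,36)]),(5,[(11,15)])],[]),([(5,[(11,12)]),(4,[(9,10)])],[5,5,5])],3,8,[6,9]),
  ([([(8,[(29,36)]),(7,[(11,12),(9,10),(4,6)])],[]),([(5,[(11,15)])],[5,4,3,2,1])],3,5,[6]),
  ([([(8,[(29,36)]),(7,[(11,12),(9,10),(4,6)])],[]),([(5,[(11,15)]),(3,[(4,6)])],[5,4])],3,2,[]),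
  ([([(8,[(29,36)]),(6,[(11,12),(7,9)])],[]),([(5,[(11,15)]),(4,[(9,10)])],[5,5])],3,2,[]),
  ([([(8,[(29,36)]),(5,[(11,15)])],[]),([(5,[(11,12)]),(5,[(11,11)])],[5,5])],3,6,[5,6,7]),
  ([([(8,[(29,36)]),(7,[(11,12),(11,11),(4,5)])],[]),([(5,[(11,15)])],[5,4,3,2,1])],3,3,[4]),
  ([([(8,[(29,36)]),(7,[(11,12),(11,11),(4,5)])],[]),([(5,[(11,15)]),(3,[(4,4)])],[5,4])],1,0,[]),
  ([([(8,[(29,36)]),(6,[(11,15),(6,6)])],[]),([(5,[(11,12)]),(5,[(11,11)])],[5])],2,1,[]),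
  ([([(8,[(29,36)]),(6,[(11,12),(7,7)])],[]),([(5,[(11,15)]),(5,[(11,11)])],[5])],1,0,[]),
  ([([(8,[(29,36)]),(7,[(11,15),(12,12)])],[]),([(5,[(11,12)])],[5,4,3,2,1])],3,5,[6]),
  ([([(8,[(29,36)]),(7,[(11,15),(12,12)])],[]),([(5,[(11,12)]),(3,[(4,6)])],[5,4])],3,2,[]),
  ([([(8,[(29,36)]),(7,[(11,15),(13,13)])],[])],8,2,[10,13]),
  ([([(8,[(29,36)]),(7,[(11,15),(13,13)])],[]),([(4,[(9,10)])],[4,3,2,1])],4,6,[6,7]),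
  ([([(8,[(29,36)]),(7,[(11,15),(13,13)])],[]),([(4,[(9,10)]),(3,[(5,6)])],[4])],3,2,[]),
  ([([(8,[(29,36)]),(8,[(11,15),(13,13),(7,7)])],[]),([(4,[(9,10)])],[3,2,1])],1,0,[]),
  ([([(8,[(29,36)]),(7,[(11,15),(13,13)])],[]),([(5,[(11,13)])],[5,4,3,2,1])],3,4,[5]),
  ([([(8,[(29,36)]),(7,[(11,15),(13,13)])],[]),([(5,[(11,13)]),(3,[(4,5)])],[5,4])],2,1,[]),
  ([([(8,[(29,36)]),(5,[(11,15)])],[]),([(5,[(14,15)])],[5,5,5,4,3,2,1])],3,13,[6,7,8,10,14]),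
  ([([(8,[(29,36)]),(6,[(14,15),(4,6)])],[]),([(5,[(11,15)])],[5,5,4,3,2,1])],3,10,[6]),
  ([([(8,[(29,36)]),(6,[(14,15),(4,6)])],[]),([(5,[(11,15)]),(3,[(4,6)])],[5,5,4])],3,7,[6]),
  ([([(8,[(29,36)]),(6,[(14,15),(4,6)])],[]),([(5,[(11,15)]),(3,[(4,6)]),(3,[(4,6)])],[5,5,4,3,2])],3,4,[5]),
  ([([(8,[(29,36)]),(7,[(4,6),(4,6),(4,5)])],[]),([(6,[(14,15),(4,6)]),(5,[(11,15)])],[6])],2,1,[]),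
  ([([(8,[(29,36)]),(5,[(11,15)])],[]),([(5,[(14,15)]),(4,[(7,7)])],[5,5,5])],3,7,[6,7]),
  ([([(8,[(29,36)]),(7,[(14,15),(7,7),(4,6)])],[]),([(5,[(11,15)])],[5,4,3,2,1])],3,4,[5]),
  ([([(8,[(29,36)]),(7,[(14,15),(7,7),(4,6)])],[]),([(5,[(11,15)]),(3,[(4,5)])],[5,4])],2,1,[]),
  ([([(8,[(29,36)]),(5,[(11,15)])],[]),([(5,[(14,15)]),(5,[(7,7),(7,7)])],[5,5])],2,1,[]),
  ([([(8,[(29,36)]),(5,[(11,15)])],[]),([(5,[(14,15)]),(4,[(8,8)])],[5,5,5])],3,6,[6,7]),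
  ([([(8,[(29,36)]),(6,[(14,15),(4,6)])],[]),([(5,[(11,15)]),(4,[(8,8)])],[5,5])],3,3,[4]),
  ([([(8,[(29,36)]),(7,[(14,15),(8,8),(4,4)])],[]),([(5,[(11,15)]),(3,[(4,6)])],[5,4])],1,0,[]),
  ([([(8,[(29,36)]),(5,[(11,15)])],[]),([(5,[(14,15)]),(5,[(8,8),(7,7)])],[5,5])],1,0,[]),
  ([([(8,[(29,36)]),(7,[(14,15),(9,10)])],[]),([(5,[(11,15)])],[5,4,3,2,1])],3,5,[6]),
  ([([(8,[(29,36)]),(7,[(14,15),(9,10)])],[]),([(5,[(11,15)]),(3,[(4,6)])],[5,4])],3,2,[]),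
  ([([(8,[(29,36)]),(5,[(11,15)])],[]),([(5,[(14,15)]),(5,[(11,14)])],[5,5])],3,3,[4]),
  ([([(8,[(29,36)]),(6,[(14,15),(4,4)])],[]),([(5,[(11,15)]),(5,[(11,14)])],[5])],1,0,[]),
  ([([(8,[(29,36)]),(6,[(16,21)])],[])],8,3,[10,15,21]),
  ([([(8,[(29,36)]),(6,[(16,21)])],[]),([(4,[(9,10)])],[4,4,3,2,1])],4,11,[6,10]),
  ([([(8,[(29,36)]),(6,[(16,21)])],[]),([(4,[(9,10)]),(3,[(5,6)])],[4,4])],4,9,[6]),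
  ([([(8,[(29,36)]),(6,[(16,21)])],[]),([(4,[(9,10)]),(3,[(5,6)]),(3,[(5,6)])],[4,4,3,2,1])],4,5,[6]),
  ([([(8,[(29,36)]),(7,[(5,6),(5,6),(5,6)])],[]),([(6,[(16,21)]),(4,[(9,10)])],[6,5])],2,1,[]),
  ([([(8,[(29,36)]),(6,[(16,21)])],[]),([(4,[(9,10)]),(4,[(7,10)])],[4])],4,7,[6,8]),
  ([([(8,[(29,36)]),(6,[(16,21)])],[]),([(4,[(9,10)]),(4,[(7,10)]),(3,[(5,6)])],[4,3,2,1])],4,3,[]),
  ([([(8,[(29,36)]),(6,[(16,21)])],[]),([(4,[(9,10)]),(4,[(7,10)]),(4,[(7,8)])],[3,2,1])],2,1,[]),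
  ([([(8,[(29,36)]),(6,[(16,21)])],[]),([(5,[(11,15)])],[5,5,4,3,2,1])],3,11,[6,10,12]),
  ([([(8,[(29,36)]),(6,[(16,21)])],[]),([(5,[(11,15)]),(3,[(4,6)])],[5,5,4])],3,8,[6]),
  ([([(8,[(29,36)]),(6,[(16,21)])],[]),([(5,[(11,15)]),(3,[(4,6)]),(3,[(4,6)])],[5,5,4,3,2])],3,5,[6]),
  ([([(8,[(29,36)]),(7,[(4,6),(4,6),(4,6)])],[]),([(6,[(16,21)]),(5,[(11,15)])],[6])],2,2,[3]),
  ([([(8,[(29,36)]),(7,[(4,6),(4,6),(4,6),(3,3)])],[]),([(6,[(16,21)]),(5,[(11,15)])],[6])],1,0,[]),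
  ([([(8,[(29,36)]),(6,[(16,21)])],[]),([(5,[(11,15)]),(4,[(7,10)])],[5,5])],3,5,[6]),
  ([([(8,[(29,36)]),(6,[(16,21)])],[]),([(5,[(11,15)]),(4,[(7,10)]),(3,[(4,6)])],[5,5,3,2])],3,2,[]),
  ([([(8,[(29,36)]),(6,[(16,21)])],[]),([(5,[(11,15)]),(5,[(11,12)])],[5])],2,1,[]),
  ([([(8,[(29,36)]),(6,[(16,21)])],[]),([(6,[(16,21)])],[6,6,5,4,3,2,1])],2,6,[3,6,7]),
  ([([(8,[(29,36)]),(6,[(16,21)])],[]),([(6,[(16,21)]),(2,[(3,3)])],[6,6,5,4,3])],2,4,[3]),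
  ([([(8,[(29,36)]),(6,[(16,21)])],[]),([(6,[(16,21)]),(3,[(3,3),(3,3)])],[6,6,5,4])],2,2,[3]),
  ([([(8,[(29,36)]),(6,[(16,21)])],[]),([(6,[(16,21)]),(4,[(3,3),(3,3),(3,3)])],[6,6,5])],1,0,[]),
  ([([(8,[(29,36)]),(6,[(16,21)])],[]),([(6,[(16,21)]),(3,[(4,6)])],[6,6,5,4])],2,3,[3,4]),
  ([([(8,[(29,36)]),(6,[(16,21)])],[]),([(6,[(16,21)]),(6,[(4,6),(3,3)])],[6])],2,1,[]),
  ([([(8,[(29,36)]),(6,[(16,21)])],[]),([(6,[(16,21)]),(4,[(4,6),(4,4)])],[6,6,5])],1,0,[]),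
  ([([(8,[(29,36)]),(7,[(16,21),(7,7)])],[]),([(6,[(16,21)])],[6,5,4,3,2,1])],1,0,[]),
  ([([(8,[(29,36)]),(7,[(22,28)])],[])],8,2,[10,15,16]),
  ([([(8,[(29,36)]),(7,[(22,28)])],[]),([(4,[(9,10)])],[4,3,2,1])],4,7,[6,8]),
  ([([(8,[(29,36)]),(7,[(22,28)])],[]),([(4,[(9,10)]),(3,[(5,6)])],[4])],4,3,[]),
  ([([(8,[(29,36)]),(7,[(22,28)])],[]),([(4,[(9,10)]),(4,[(7,8)])],[])],2,1,[]),
  ([([(8,[(29,36)]),(7,[(22,28)])],[]),([(5,[(11,15)])],[5,4,3,2,1])],3,5,[6]),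
  ([([(8,[(29,36)]),(7,[(22,28)])],[]),([(5,[(11,15)]),(3,[(4,6)])],[5,4])],3,2,[]),
  ([([(8,[(29,36)]),(7,[(22,28)])],[]),([(6,[(16,16)])],[6,5,4,3,2,1])],1,0,[]),
  ([([(8,[(29,36)]),(8,[(29,36)])],[])],8,1,[9]),
  ([([(8,[(29,36)]),(8,[(29,36)])],[]),([(4,[(9,9)])],[3,2,1])],1,0,[]),
  ([([(9,[(37,37)])],[])],7,10,[10,15,21,28,29]), ([([(9,[(37,37)]),(4,[(8,10)])],[])],7,6,[10]),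
  ([([(9,[(37,37)]),(4,[(8,10)])],[]),([(4,[(8,10)])],[4,4,4,4,4,3,2,1])],3,14,[6,10]),
  ([([(10,[(37,37),(8,10),(4,6)]),(4,[(8,10)])],[])],6,7,[]),
  ([([(9,[(37,37)]),(4,[(8,10)])],[]),([(4,[(8,10)]),(4,[(7,10)])],[4,4,4,4])],3,8,[6,9]),
  ([([(9,[(37,37),(4,6)]),(4,[(8,10)])],[]),([(4,[(8,10)]),(4,[(7,10)])],[4,4,4,4])],3,5,[6]),
  ([([(9,[(37,37)]),(7,[(4,6),(4,6)])],[]),([(4,[(8,10)]),(4,[(8,10)]),(4,[(7,10)])],[3,2,1])],3,2,[]),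
  ([([(11,[(37,37),(8,10),(8,10),(7,9)]),(4,[(7,10)])],[])],3,2,[]),
  ([([(9,[(37,37)]),(5,[(11,15)])],[])],7,5,[10,15]),
  ([([(10,[(37,37),(11,15)]),(4,[(8,10)])],[])],6,7,[10]),
  ([([(9,[(37,37)]),(5,[(11,15)])],[]),([(4,[(8,10)]),(4,[(7,10)])],[4,4,4])],3,5,[6]),
  ([([(9,[(37,37),(4,6)]),(5,[(11,15)])],[]),([(4,[(8,10)]),(4,[(7,10)])],[4,4,4])],3,2,[]),
  ([([(10,[(37,37),(11,15)]),(5,[(11,15)])],[])],6,6,[9]),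
  ([([(10,[(37,37),(11,15)]),(5,[(11,15)])],[]),([(4,[(7,9)])],[4,4,4,4,4,3,2,1])],2,2,[3]),
  ([([(10,[(37,37),(11,15),(3,3)]),(5,[(11,15)])],[]),([(4,[(7,9)])],[4,4,4,4,4,3,2,1])],1,0,[]),
  ([([(9,[(37,37)]),(6,[(16,21)])],[])],7,4,[10,14]),
  ([([(9,[(37,37)]),(6,[(16,21)])],[]),([(4,[(8,10)])],[4,4,4,3,2,1])],3,6,[6,7]),
  ([([(10,[(37,37),(8,10),(4,6)]),(6,[(16,21)])],[])],4,3,[]),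
  ([([(11,[(37,37),(16,21),(7,7)]),(4,[(8,10)])],[])],1,0,[]),
  ([([(10,[(37,37),(11,14)]),(6,[(16,21)])],[])],4,3,[]),
  ([([(9,[(37,37)]),(7,[(22,28)])],[])],7,3,[8]),
  ([([(11,[(37,37),(22,28)]),(4,[(8,8)])],[])],1,0,[]), ([([(11,[(37,37),(29,29)])],[])],1,0,[]),
  ([([(9,[(38,45)])],[])],7,10,[10,15,21,28]), ([([(9,[(38,45)]),(4,[(8,10)])],[])],7,6,[10]),
  ([([(9,[(38,45)]),(4,[(8,10)])],[]),([(4,[(8,10)])],[4,4,4,4,4,3,2,1])],3,13,[6,8,10]),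
  ([([(9,[(38,45)]),(4,[(8,10)])],[]),([(4,[(8,10)]),(3,[(4,6)])],[4,4,4,4,4])],3,10,[6]),
  ([([(9,[(38,45)]),(7,[(4,6),(4,6)])],[]),([(4,[(8,10)]),(4,[(8,10)])],[4])],3,7,[6]),
  ([([(9,[(38,45)]),(7,[(4,6),(4,6),(4,6)])],[]),([(4,[(8,10)]),(4,[(8,10)])],[4])],3,4,[5]),
  ([([(9,[(38,45)]),(7,[(4,6),(4,6),(4,6)])],[]),([(5,[(8,10),(4,5)]),(4,[(8,10)])],[5,5])],2,1,[]),
  ([([(9,[(38,45)]),(4,[(8,10)])],[]),([(4,[(8,10)]),(4,[(7,8)])],[4,4,4,4])],3,7,[5,6,7,8]),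
  ([([(9,[(38,45)]),(5,[(8,10),(4,5)])],[]),([(4,[(8,10)]),(4,[(7,8)])],[4,4,4])],3,4,[5]),
  ([([(9,[(38,45)]),(5,[(8,10),(4,5)])],[]),([(5,[(8,10),(4,5)]),(4,[(7,8)])],[5,5,5,5])],2,1,[]),
  ([([(9,[(38,45)]),(5,[(7,8),(6,6)])],[]),([(4,[(8,10)]),(4,[(8,10)])],[4,4,4])],3,2,[]),
  ([([(9,[(38,45)]),(5,[(7,8),(7,7)])],[]),([(4,[(8,10)]),(4,[(8,10)])],[4,4,4])],2,1,[]),
  ([([(9,[(38,45)]),(7,[(8,10),(8,10),(8,8)])],[]),([(4,[(7,8)])],[4,4,3,2,1])],1,0,[]),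
  ([([(9,[(38,45)]),(6,[(8,10),(9,10)])],[]),([(4,[(8,10)])],[4,4,4,3,2,1])],3,5,[6]),
  ([([(9,[(38,45)]),(6,[(8,10),(9,10)])],[]),([(4,[(8,10)]),(3,[(4,6)])],[4,4,4])],3,2,[]),
  ([([(9,[(38,45)]),(5,[(11,15)])],[])],7,5,[10,15]),
  ([([(9,[(38,45)]),(5,[(11,15)])],[]),([(4,[(8,10)])],[4,4,4,4,3,2,1])],3,10,[6,10]),
  ([([(9,[(38,45)]),(5,[(11,15)])],[]),([(4,[(8,10)]),(3,[(4,6)])],[4,4,4,4])],3,7,[6]),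
  ([([(9,[(38,45)]),(5,[(11,15)])],[]),([(4,[(8,10)]),(3,[(4,6)]),(3,[(4,6)])],[4,4,4,4,3,2])],3,4,[5]),
  ([([(9,[(38,45)]),(7,[(4,6),(4,6)])],[]),([(5,[(11,15)]),(5,[(8,10),(4,5)])],[5])],2,1,[]),
  ([([(9,[(38,45)]),(5,[(11,15)])],[]),([(4,[(8,10)]),(4,[(7,10)])],[4,4,4])],3,4,[5]),
  ([([(9,[(38,45)]),(5,[(11,15)])],[]),([(5,[(8,10),(4,5)]),(4,[(7,10)])],[5,5,5,5])],2,1,[]),
  ([([(9,[(38,45)]),(5,[(11,15)])],[]),([(5,[(11,15)])],[5,5,5,5,4,3,2,1])],2,7,[3,6,8]),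
  ([([(9,[(38,45)]),(5,[(11,15)])],[]),([(5,[(11,15)]),(2,[(3,3)])],[5,5,5,5,4,3])],2,5,[3]),
  ([([(9,[(38,45)]),(5,[(11,15)])],[]),([(5,[(11,15)]),(3,[(3,3),(3,3)])],[5,5,5,5,4])],2,3,[3]),
  ([([(9,[(38,45)]),(5,[(11,15)])],[]),([(5,[(11,15)]),(4,[(3,3),(3,3),(3,3)])],[5,5,5,5])],2,1,[]),
  ([([(9,[(38,45)]),(5,[(11,15)])],[]),([(5,[(11,15)]),(3,[(4,6)])],[5,5,5,5,4])],2,4,[3,5]),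
  ([([(9,[(38,45)]),(6,[(4,6),(3,3)])],[]),([(5,[(11,15)]),(5,[(11,15)])],[5,5])],2,2,[3]),
  ([([(9,[(38,45)]),(6,[(4,6),(3,3),(3,3)])],[]),([(5,[(11,15)]),(5,[(11,15)])],[5,5])],1,0,[]),
  ([([(9,[(38,45)]),(6,[(4,6),(4,5)])],[]),([(5,[(11,15)]),(5,[(11,15)])],[5,5])],2,1,[]),
  ([([(9,[(38,45)]),(5,[(11,15)])],[]),([(5,[(11,15)]),(4,[(7,8)])],[5,5,5,5])],2,1,[]),
  ([([(9,[(38,45)]),(6,[(16,21)])],[])],7,4,[10,13]),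
  ([([(9,[(38,45)]),(6,[(16,21)])],[]),([(4,[(8,10)])],[4,4,4,3,2,1])],3,5,[6]),
  ([([(9,[(38,45)]),(6,[(16,21)])],[]),([(4,[(8,10)]),(3,[(4,6)])],[4,4,4])],3,2,[]),
  ([([(9,[(38,45)]),(6,[(16,21)])],[]),([(5,[(11,13)])],[5,5,5,4,3,2,1])],2,2,[3]),
  ([([(9,[(38,45)]),(6,[(16,21)])],[]),([(5,[(11,13)]),(2,[(3,3)])],[5,5,5,4,3])],1,0,[]),
  ([([(9,[(38,45)]),(7,[(22,28)])],[])],7,3,[]), ([([(10,[(46,55)])],[])],6,11,[10,15,20]),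
  ([([(10,[(46,55)]),(4,[(7,10)])],[])],6,7,[10]),
  ([([(10,[(46,55)]),(4,[(7,10)])],[]),([(4,[(7,10)])],[4,4,4,4,4,4,3,2,1])],2,7,[3,6,8]),
  ([([(10,[(46,55)]),(4,[(7,10)])],[]),([(4,[(7,10)]),(2,[(3,3)])],[4,4,4,4,4,4,3])],2,5,[3]),
  ([([(10,[(46,55)]),(4,[(7,10)])],[]),([(4,[(7,10)]),(3,[(3,3),(3,3)])],[4,4,4,4,4,4])],2,3,[3]),
  ([([(10,[(46,55)]),(4,[(7,10)])],[]),([(4,[(7,10)]),(4,[(3,3),(3,3),(3,3)])],[4,4,4,4,4])],2,1,[]),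
  ([([(10,[(46,55)]),(4,[(7,10)])],[]),([(4,[(7,10)]),(3,[(4,6)])],[4,4,4,4,4,4])],2,4,[3,5]),
  ([([(10,[(46,55)]),(6,[(4,6),(3,3)])],[]),([(4,[(7,10)]),(4,[(7,10)])],[4,4,4])],2,2,[3]),
  ([([(10,[(46,55)]),(6,[(4,6),(3,3),(3,3)])],[]),([(4,[(7,10)]),(4,[(7,10)])],[4,4,4])],1,0,[]),
  ([([(10,[(46,55)]),(6,[(4,6),(4,5)])],[]),([(4,[(7,10)]),(4,[(7,10)])],[4,4,4])],2,1,[]),
  ([([(10,[(46,55)]),(4,[(7,10)])],[]),([(4,[(7,10)]),(4,[(7,8)])],[4,4,4,4,4])],2,1,[]),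
  ([([(10,[(46,55)]),(5,[(11,15)])],[])],6,6,[10]),
  ([([(10,[(46,55)]),(5,[(11,15)])],[]),([(4,[(7,10)])],[4,4,4,4,4,3,2,1])],2,3,[3,4]),
  ([([(10,[(46,55)]),(5,[(11,15)])],[]),([(4,[(7,10)]),(2,[(3,3)])],[4,4,4,4,4,3])],2,1,[]),
  ([([(10,[(46,55)]),(5,[(11,15)])],[]),([(4,[(7,10)]),(3,[(4,4)])],[4,4,4,4,4])],1,0,[]),
  ([([(10,[(46,55)]),(6,[(16,20)])],[])],5,4,[]), ([([(11,[(56,65)])],[])],5,9,[6,10]),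
  ([([(11,[(56,65)]),(3,[(6,6)])],[])],5,4,[]), ([([(11,[(56,65)]),(4,[(7,10)])],[])],4,3,[])]

theorem ki_16 : KC 16 64 := kc_of_itree it_16 (by decide +kernel)

def it_17 : List (List (List (ℕ × List (ℕ × ℕ)) × List ℕ) × ℕ × ℕ × List ℕ) := [
  ([],15,5,[21,28,36,45,55,66,69]), ([([(6,[(16,21)])],[])],11,7,[15,21]),
  ([([(6,[(16,21)]),(5,[(12,15)])],[])],10,6,[15]),
  ([([(6,[(16,21)]),(5,[(12,15)]),(5,[(11,15)])],[])],10,5,[15]),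
  ([([(6,[(16,21)]),(5,[(12,15)]),(5,[(11,15)])],[]),([(5,[(11,15)])],[5,3,1])],6,9,[10,15]),
  ([([(6,[(16,21)]),(5,[(12,15)]),(5,[(11,15)])],[]),([(5,[(11,15)]),(4,[(7,10)])],[5,4,3,2,1])],6,3,[10]),
  ([([(6,[(16,21)]),(5,[(12,15)]),(5,[(11,15)])],[]),([(5,[(11,15)]),(4,[(7,10)]),(4,[(7,10)])],[5])],6,3,[7,10]),
  ([([(7,[(16,21),(7,7)]),(5,[(12,15)]),(5,[(11,15)])],[]),([(5,[(11,15)]),(4,[(7,10)]),(4,[(7,10)])],[5,5])],5,4,[]),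
  ([([(6,[(16,21)]),(5,[(12,15)]),(5,[(11,15)])],[]),([(5,[(11,15)]),(4,[(7,10)]),(4,[(7,10)])],[5]),([(4,[(8,10)])],[4,4,3,3,2,2,1,1])],2,3,[3,4]),
  ([([(6,[(16,21)]),(5,[(12,15)]),(5,[(11,15)])],[]),([(5,[(11,15)]),(4,[(7,10)]),(4,[(7,10)])],[5]),([(4,[(8,10)]),(2,[(3,3)])],[4,4,3,3,2,1])],2,1,[]),
  ([([(6,[(16,21)]),(5,[(12,15)]),(5,[(11,15)])],[]),([(5,[(11,15)]),(5,[(8,10),(4,4)]),(4,[(7,10)])],[]),([(4,[(7,10)])],[4,4,3,3,2,2,1,1])],1,0,[]),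
  ([([(6,[(16,21)]),(5,[(12,15)]),(5,[(11,15)])],[]),([(5,[(11,15)]),(5,[(11,15)])],[4,3,2,1])],6,3,[10,13]),
  ([([(6,[(16,21)]),(5,[(12,15)]),(5,[(11,15)])],[]),([(5,[(11,15)]),(5,[(11,15)]),(4,[(7,10)])],[])],6,3,[7]),
  ([([(7,[(16,21),(7,7)]),(5,[(12,15)]),(5,[(11,15)])],[]),([(5,[(11,15)]),(5,[(11,15)]),(4,[(7,10)])],[5])],1,0,[]),
  ([([(6,[(16,21)]),(5,[(12,15)]),(5,[(11,15)])],[]),([(5,[(11,15)]),(5,[(11,15)]),(5,[(11,13)])],[])],3,2,[]),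
  ([([(6,[(16,21)]),(6,[(16,21)])],[])],10,4,[15,17,21]),
  ([([(6,[(16,21)]),(6,[(16,21)]),(5,[(11,15)])],[])],10,4,[15]),
  ([([(6,[(16,21)]),(6,[(16,21)]),(5,[(11,15)])],[]),([(5,[(11,15)])],[4,2])],6,9,[10,15]),
  ([([(6,[(16,21)]),(6,[(16,21)]),(5,[(11,15)])],[]),([(5,[(11,15)]),(4,[(7,10)])],[3,2,1])],6,4,[10]),
  ([([(6,[(16,21)]),(6,[(16,21)]),(5,[(11,15)])],[]),([(5,[(11,15)]),(4,[(7,10)]),(4,[(7,10)])],[])],6,3,[7]),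
  ([([(7,[(16,21),(7,7)]),(6,[(16,21)])],[]),([(5,[(11,15)]),(5,[(11,15)]),(4,[(7,10)])],[4,3,2]),([(4,[(7,10)])],[4,4,4,3,3,3,2,2,2,1,1])],1,0,[]),
  ([([(6,[(16,21)]),(6,[(16,21)]),(5,[(11,15)])],[]),([(5,[(11,15)]),(5,[(11,15)])],[5,4,3,2,1])],6,1,[9]),
  ([([(6,[(16,21)]),(6,[(16,21)]),(5,[(11,15)])],[]),([(5,[(11,15)]),(5,[(11,15)]),(4,[(7,9)])],[5])],3,2,[]),
  ([([(6,[(16,21)]),(6,[(16,21)])],[]),([(6,[(16,17)])],[5,4,3,2,1])],5,13,[6,10,15,17]),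
  ([([(6,[(16,21)]),(6,[(16,21)])],[]),([(6,[(16,17)]),(3,[(6,6)])],[5,4])],5,13,[6]),
  ([([(6,[(16,21)]),(6,[(16,21)])],[]),([(6,[(16,17)]),(5,[(6,6),(6,6)])],[])],5,13,[6]),
  ([([(6,[(16,21)]),(6,[(16,21)])],[]),([(6,[(16,17)]),(5,[(6,6),(6,6)]),(3,[(6,6)])],[3,2])],5,7,[6]),
  ([([(6,[(16,21)]),(6,[(16,21)])],[]),([(6,[(16,17)]),(6,[(6,6),(6,6),(6,6)]),(3,[(6,6)])],[6,3])],4,3,[]),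
  ([([(6,[(16,21)]),(6,[(16,21)])],[]),([(6,[(16,17)]),(4,[(7,10)])],[5])],5,13,[6,10]),
  ([([(6,[(16,21)]),(6,[(16,21)])],[]),([(6,[(16,17)]),(4,[(7,10)]),(3,[(6,6)])],[5,3,2])],5,7,[6]),
  ([([(6,[(16,21)]),(6,[(16,21)])],[]),([(6,[(16,17)]),(5,[(6,6),(6,6)]),(4,[(7,10)])],[4,3])],5,5,[6]),
  ([([(7,[(16,17),(7,10)]),(6,[(16,21)])],[]),([(6,[(16,21)]),(6,[(6,6),(6,6),(6,6)])],[])],3,2,[]),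
  ([([(6,[(16,21)]),(6,[(16,21)])],[]),([(6,[(16,17)]),(4,[(7,10)]),(4,[(7,10)])],[5,4,3])],5,5,[6,7,9,10]),
  ([([(7,[(16,17),(7,10)]),(6,[(16,21)])],[]),([(6,[(16,21)]),(4,[(7,10)]),(3,[(6,6)])],[6,5,3,2])],4,6,[6]),
  ([([(6,[(16,21)]),(6,[(16,21)])],[]),([(6,[(16,17)]),(4,[(7,10)]),(4,[(7,10)])],[5,4,3]),([(3,[(6,6)]),(3,[(5,6)])],[3,3,3,2,2,1,1])],2,2,[3]),
  ([([(8,[(16,17),(7,10),(6,6),(3,3)]),(6,[(16,21)])],[]),([(6,[(16,21)]),(4,[(7,10)])],[6,6,5]),([(3,[(5,6)])],[3,3,3,3,3,3,3,3,3,3,3,3,3,3])],1,0,[]),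
  ([([(9,[(16,21),(16,17),(7,7)]),(6,[(16,21)])],[]),([(4,[(7,10)]),(4,[(7,10)])],[4,4])],4,5,[6]),
  ([([(9,[(16,21),(16,17),(7,7)]),(6,[(16,21)])],[]),([(4,[(7,10)]),(4,[(7,10)]),(3,[(5,6)])],[4,4,3,2,1])],2,1,[]),
  ([([(8,[(16,17),(7,10),(8,9)]),(6,[(16,21)])],[]),([(6,[(16,21)]),(4,[(7,10)])],[6,6,5])],3,4,[5]),
  ([([(10,[(7,10),(8,9),(4,5)]),(7,[(16,17),(7,10)])],[]),([(6,[(16,21)]),(6,[(16,21)])],[6,6])],1,1,[2]),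
  ([([(10,[(7,10),(8,9),(4,5),(2,2)]),(7,[(16,17),(7,10)])],[]),([(6,[(16,21)]),(6,[(16,21)])],[6,6])],1,0,[]),
  ([([(7,[(16,17),(7,10)]),(6,[(16,21)])],[]),([(6,[(16,21)]),(6,[(7,10),(10,10)])],[])],3,2,[]),
  ([([(6,[(16,21)]),(6,[(16,21)])],[]),([(6,[(16,17)]),(5,[(11,15)])],[])],5,13,[6,10,11,13,14]),
  ([([(6,[(16,21)]),(6,[(16,21)])],[]),([(6,[(16,17)]),(5,[(11,15)]),(3,[(6,6)])],[3,2])],5,7,[6]),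
  ([([(6,[(16,21)]),(6,[(16,21)])],[]),([(6,[(16,17)]),(6,[(11,15),(6,6)]),(3,[(6,6)])],[6,3])],4,3,[]),
  ([([(6,[(16,21)]),(6,[(16,21)])],[]),([(6,[(16,17)]),(5,[(11,15)]),(4,[(7,10)])],[4,3])],5,5,[6,8]),
  ([([(7,[(16,17),(7,10)]),(6,[(16,21)])],[]),([(6,[(16,21)]),(6,[(11,15),(6,6)])],[])],3,2,[]),
  ([([(6,[(16,21)]),(6,[(16,21)])],[]),([(6,[(16,17)]),(5,[(11,15)]),(4,[(7,10)])],[4,3]),([(4,[(7,8)])],[4,4,4,4,3,3,3,2,2,2,1])],1,1,[2]),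
  ([([(7,[(16,17),(7,10)]),(6,[(16,21)])],[]),([(6,[(16,21)]),(5,[(11,15)])],[6]),([(4,[(7,8),(2,2)])],[4,4,4,4,4,4,4,4,4,4,4,4,4])],1,0,[]),
  ([([(7,[(16,17),(11,11)]),(6,[(16,21)])],[]),([(6,[(16,21)]),(5,[(11,15)])],[6])],4,3,[]),
  ([([(7,[(11,15),(12,13)]),(6,[(16,21)])],[]),([(6,[(16,21)]),(6,[(16,17)])],[])],3,2,[]),
  ([([(8,[(16,21),(14,14)]),(6,[(16,21)])],[]),([(6,[(16,17)]),(5,[(11,15)])],[6,6])],1,0,[]),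
  ([([(10,[(16,21),(16,17),(16,17)]),(6,[(16,21)])],[])],7,5,[9]),
  ([([(10,[(16,21),(16,17),(16,17)]),(6,[(16,21)])],[]),([(4,[(8,9)])],[4,4,4,4,3,2,1])],2,1,[]),
  ([([(6,[(16,21)]),(6,[(16,21)])],[]),([(6,[(18,21)])],[5,4,3,2,1])],5,13,[6,10,13,15,21]),
  ([([(6,[(16,21)]),(6,[(16,21)])],[]),([(6,[(18,21)]),(3,[(6,6)])],[5,4])],5,13,[6]),
  ([([(6,[(16,21)]),(6,[(16,21)])],[]),([(6,[(18,21)]),(5,[(6,6),(6,6)])],[])],5,11,[6]),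
  ([([(6,[(16,21)]),(6,[(16,21)])],[]),([(6,[(18,21)]),(6,[(6,6),(6,6),(6,6)])],[6])],5,1,[6]),
  ([([(9,[(18,21),(6,6),(6,6),(6,6),(6,6)]),(6,[(16,21)])],[]),([(6,[(16,21)])],[6,6,6,5,4,3,2,1])],2,1,[]),
  ([([(6,[(16,21)]),(6,[(16,21)])],[]),([(6,[(18,21)]),(4,[(7,10)])],[5])],5,13,[6,8,10]),
  ([([(6,[(16,21)]),(6,[(16,21)])],[]),([(6,[(18,21)]),(4,[(7,10)]),(3,[(6,6)])],[5,3,2])],5,7,[6]),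
  ([([(6,[(16,21)]),(6,[(16,21)])],[]),([(6,[(18,21)]),(5,[(6,6),(6,6)]),(4,[(7,10)])],[4,3])],5,5,[6]),
  ([([(10,[(7,10),(6,6),(6,6)]),(7,[(18,21),(6,6)])],[]),([(6,[(16,21)]),(6,[(16,21)])],[6,6])],1,0,[]),
  ([([(6,[(16,21)]),(6,[(16,21)])],[]),([(6,[(18,21)]),(4,[(7,10)]),(4,[(7,8)])],[5,4,3])],5,5,[6,7,8]),
  ([([(6,[(16,21)]),(6,[(16,21)])],[]),([(6,[(18,21)]),(5,[(7,8),(6,6)]),(4,[(7,10)])],[4,3])],5,4,[]),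
  ([([(6,[(16,21)]),(6,[(16,21)])],[]),([(6,[(18,21)]),(5,[(7,8),(7,7)]),(4,[(7,10)])],[4,3])],4,3,[]),
  ([([(10,[(7,10),(7,8),(8,8)]),(6,[(16,21)])],[]),([(6,[(16,21)]),(6,[(18,21)])],[6,6,6])],1,2,[3]),
  ([([(10,[(7,10),(7,8),(8,8),(2,3)]),(6,[(16,21)])],[]),([(6,[(16,21)]),(6,[(18,21)])],[6,6,6])],1,1,[2]),
  ([([(10,[(7,10),(7,8),(8,8),(2,3),(2,2)]),(6,[(16,21)])],[]),([(6,[(16,21)]),(6,[(18,21)])],[6,6,6])],1,0,[]),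
  ([([(6,[(16,21)]),(6,[(16,21)])],[]),([(6,[(18,21)]),(4,[(7,10)]),(4,[(9,10)])],[5,4,3])],5,5,[6,8]),
  ([([(6,[(16,21)]),(6,[(16,21)])],[]),([(6,[(18,21)]),(4,[(7,10)]),(4,[(9,10)])],[5,4,3]),([(3,[(6,6)])],[3,3,3,3,2,2,2,1,1,1])],2,2,[3]),
  ([([(11,[(7,10),(9,10),(6,6),(3,3)]),(6,[(16,21)])],[]),([(6,[(16,21)]),(6,[(18,21)])],[6,6,6,6])],1,0,[]),
  ([([(6,[(16,21)]),(6,[(16,21)])],[]),([(6,[(18,21)]),(4,[(7,10)]),(4,[(9,10)])],[5,4,3]),([(4,[(7,8)])],[4,4,4,4,3,3,3,2,2,2,1])],1,1,[2]),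
  ([([(11,[(7,10),(9,10),(7,8),(2,2)]),(6,[(16,21)])],[]),([(6,[(16,21)]),(6,[(18,21)])],[6,6,6,6])],1,0,[]),
  ([([(6,[(16,21)]),(6,[(16,21)])],[]),([(6,[(18,21)]),(5,[(11,13)])],[])],5,11,[6,10,11,12]),
  ([([(6,[(16,21)]),(6,[(16,21)])],[]),([(6,[(18,21)]),(6,[(11,13),(6,6)])],[6])],5,1,[6]),
  ([([(7,[(18,21),(6,6)]),(6,[(16,21)])],[]),([(6,[(16,21)]),(6,[(11,13),(6,6)])],[])],2,1,[]),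
  ([([(6,[(16,21)]),(6,[(16,21)])],[]),([(6,[(18,21)]),(5,[(11,13)]),(4,[(7,10)])],[4,3])],5,5,[6]),
  ([([(7,[(18,21),(6,6)]),(6,[(16,21)])],[]),([(6,[(16,21)]),(5,[(11,13)])],[6]),([(4,[(7,10)])],[4,4,4,4,4,4,4,4,4,4,4,4,4])],1,0,[]),
  ([([(9,[(18,21),(11,13),(11,11)]),(6,[(16,21)])],[]),([(6,[(16,21)])],[6,6,6,5,4,3,2,1])],2,1,[]),
  ([([(8,[(18,21),(12,12)]),(6,[(16,21)])],[]),([(6,[(16,21)]),(5,[(11,13)])],[6,6])],1,0,[]),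
  ([([(6,[(16,21)]),(6,[(16,21)])],[]),([(6,[(18,21)]),(5,[(14,15)])],[])],5,8,[6,9]),
  ([([(7,[(18,21),(6,6)]),(6,[(16,21)])],[]),([(6,[(16,21)]),(5,[(14,15)])],[6])],4,3,[]),
  ([([(8,[(16,21),(14,15)]),(6,[(16,21)])],[]),([(6,[(18,21)]),(4,[(7,9)])],[6,6,5])],3,2,[]),
  ([([(6,[(16,21)]),(6,[(16,21)])],[]),([(6,[(18,21)]),(6,[(16,21)])],[6])],5,1,[6,7]),
  ([([(7,[(18,21),(6,6)]),(6,[(16,21)])],[]),([(6,[(16,21)]),(6,[(16,21)])],[])],2,1,[]),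
  ([([(7,[(16,21),(7,7)]),(6,[(16,21)])],[]),([(6,[(18,21)]),(6,[(16,21)])],[])],1,0,[]),
  ([([(7,[(22,28)])],[])],10,8,[15,21,28]), ([([(7,[(22,28)]),(5,[(11,15)])],[])],9,7,[10,15]),
  ([([(7,[(22,28)]),(5,[(11,15)]),(4,[(10,10)])],[])],10,3,[]),
  ([([(7,[(22,28)]),(5,[(11,15)]),(5,[(11,15)])],[])],10,3,[15]),
  ([([(7,[(22,28)]),(5,[(11,15)]),(5,[(11,15)])],[]),([(5,[(11,15)])],[5,5,3,1])],5,10,[6,10,15]),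
  ([([(7,[(22,28)]),(6,[(11,15),(6,6)])],[]),([(5,[(11,15)]),(5,[(11,15)])],[])],5,12,[6]),
  ([([(7,[(22,28)]),(6,[(11,15),(6,6)])],[]),([(5,[(11,15)]),(5,[(11,15)]),(3,[(6,6)])],[3,2])],5,6,[6]),
  ([([(7,[(22,28)]),(6,[(11,15),(6,6)])],[]),([(6,[(11,15),(6,6)]),(6,[(11,15),(6,6)])],[])],3,2,[]),
  ([([(7,[(22,28)]),(5,[(11,15)]),(5,[(11,15)])],[]),([(5,[(11,15)]),(4,[(7,10)])],[5,5,4,3,2,1])],5,4,[6,10]),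
  ([([(7,[(22,28)]),(6,[(11,15),(6,6)])],[]),([(5,[(11,15)]),(5,[(11,15)]),(4,[(7,10)])],[4,3,2])],5,4,[6]),
  ([([(7,[(22,28)]),(6,[(11,15),(6,6)])],[]),([(5,[(11,15)]),(5,[(11,15)]),(4,[(7,10)])],[4,3,2]),([(3,[(6,6)])],[3,3,3,2,2,2,1,1,1])],2,1,[]),
  ([([(7,[(22,28)]),(5,[(11,15)]),(5,[(11,15)])],[]),([(5,[(11,15)]),(4,[(7,10)]),(4,[(7,10)])],[5,5])],5,4,[6]),
  ([([(7,[(22,28)]),(6,[(11,15),(6,6)])],[]),([(5,[(11,15)]),(5,[(11,15)]),(4,[(7,10)])],[4,3,2]),([(4,[(7,10)])],[4,4,4,3,3,3,2,2,2,1,1])],1,0,[]),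
  ([([(7,[(22,28)]),(5,[(11,15)]),(5,[(11,15)])],[]),([(5,[(11,15)]),(5,[(11,15)])],[5,4,3,2,1])],5,4,[6,8]),
  ([([(7,[(22,28)]),(5,[(11,15)]),(5,[(11,15)])],[]),([(5,[(11,15)]),(5,[(11,15)]),(3,[(6,6)])],[5,4])],3,2,[]),
  ([([(7,[(22,28)]),(5,[(11,15)]),(5,[(11,15)])],[]),([(5,[(11,15)]),(5,[(11,15)]),(4,[(7,8)])],[5])],2,1,[]),
  ([([(7,[(22,28)]),(6,[(16,21)])],[])],9,6,[10,13,15,21]),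
  ([([(7,[(22,28)]),(6,[(16,21)]),(4,[(10,10)])],[])],10,2,[]),
  ([([(7,[(22,28)]),(6,[(16,21)])],[]),([(5,[(11,13)])],[5,4,3,2,1])],5,12,[6,10,12,13]),
  ([([(7,[(22,28)]),(6,[(16,21)])],[]),([(5,[(11,13)]),(3,[(6,6)])],[5,4])],5,12,[6]),
  ([([(7,[(22,28)]),(6,[(16,21)])],[]),([(5,[(11,13)]),(5,[(6,6),(6,6)])],[])],5,12,[6]),
  ([([(7,[(22,28)]),(6,[(16,21)])],[]),([(5,[(11,13)]),(5,[(6,6),(6,6)]),(3,[(6,6)])],[3,2])],5,6,[6]),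
  ([([(7,[(22,28)]),(6,[(16,21)])],[]),([(6,[(11,13),(6,6)]),(6,[(6,6),(6,6),(6,6)])],[])],3,2,[]),
  ([([(7,[(22,28)]),(6,[(16,21)])],[]),([(5,[(11,13)]),(4,[(7,10)])],[5])],5,12,[6,8,10]),
  ([([(7,[(22,28)]),(6,[(16,21)])],[]),([(5,[(11,13)]),(4,[(7,10)]),(3,[(6,6)])],[5,3,2])],5,6,[6]),
  ([([(7,[(22,28)]),(6,[(16,21)])],[]),([(5,[(11,13)]),(5,[(6,6),(6,6)]),(4,[(7,10)])],[4,3,2])],5,4,[6]),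
  ([([(7,[(22,28)]),(7,[(7,10),(6,6),(6,6),(6,6)])],[]),([(6,[(16,21)]),(5,[(11,13)])],[])],2,1,[]),
  ([([(7,[(22,28)]),(6,[(16,21)])],[]),([(5,[(11,13)]),(4,[(7,10)]),(4,[(7,8)])],[5,4,3,2])],5,4,[6,7,8]),
  ([([(7,[(22,28)]),(6,[(16,21)])],[]),([(5,[(11,13)]),(5,[(7,8),(6,6)]),(4,[(7,10)])],[4,3,2])],5,4,[6]),
  ([([(10,[(7,10),(6,6)]),(7,[(22,28)])],[]),([(7,[(11,13),(7,8),(6,6)]),(6,[(16,21)])],[7,7,7])],1,0,[]),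
  ([([(7,[(22,28)]),(7,[(16,21),(7,7)])],[]),([(5,[(11,13)]),(4,[(7,10)]),(4,[(7,8)])],[4,3,2])],5,3,[]),
  ([([(8,[(22,28),(8,8)]),(6,[(16,21)])],[]),([(6,[(11,13),(7,8)]),(4,[(7,10)])],[6,6,5])],3,3,[4]),
  ([([(8,[(22,28),(8,8)]),(6,[(16,21)])],[]),([(6,[(11,13),(7,8)]),(4,[(7,10)])],[6,6,5]),([(3,[(4,4)])],[3,3,3,3,3,3,3,3,3,3,3,3,3,3])],1,0,[]),
  ([([(7,[(22,28)]),(6,[(16,21)])],[]),([(5,[(11,13)]),(4,[(7,10)]),(4,[(9,10)])],[5,4,3,2])],5,4,[6,9]),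
  ([([(7,[(22,28)]),(6,[(16,21)])],[]),([(5,[(11,13)]),(4,[(7,10)]),(4,[(9,10)])],[5,4,3,2]),([(3,[(6,6)])],[3,3,3,2,2,2,1,1,1])],2,3,[3,4]),
  ([([(7,[(22,28)]),(6,[(16,21)])],[]),([(5,[(11,13)]),(5,[(9,10),(3,3)]),(4,[(7,10)])],[4,3,2]),([(3,[(6,6)])],[3,3,3,2,2,2,1,1,1])],2,1,[]),
  ([([(10,[(7,10),(6,6)]),(7,[(22,28)])],[]),([(7,[(11,13),(9,10),(4,4)]),(6,[(16,21)])],[7,7,7])],1,0,[]),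
  ([([(7,[(22,28)]),(6,[(16,21)])],[]),([(5,[(11,13)]),(4,[(7,10)]),(4,[(9,10)])],[5,4,3,2]),([(4,[(7,9)])],[4,4,4,3,3,3,2,2,2,1,1])],1,2,[3]),
  ([([(7,[(22,28)]),(6,[(16,21)])],[]),([(5,[(11,13)]),(4,[(7,10)]),(4,[(9,10)])],[5,4,3,2]),([(4,[(7,9)]),(2,[(2,3)])],[4,4,4,3,3,3,2,2,1])],1,1,[2]),
  ([([(7,[(22,28)]),(6,[(16,21)])],[]),([(5,[(11,13)]),(5,[(9,10),(2,3),(2,2)]),(4,[(7,10)])],[4,3,2]),([(4,[(7,9)])],[4,4,4,3,3,3,2,2,2,1,1])],1,0,[]),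
  ([([(7,[(22,28)]),(6,[(16,21)])],[]),([(5,[(11,13)]),(5,[(11,12)])],[])],5,12,[6,10,11,12]),
  ([([(7,[(22,28)]),(6,[(16,21)])],[]),([(5,[(11,13)]),(5,[(11,12)]),(3,[(6,6)])],[3,2])],5,6,[6]),
  ([([(7,[(22,28)]),(6,[(16,21)])],[]),([(6,[(11,13),(6,6)]),(6,[(11,12),(6,6)])],[])],3,2,[]),
  ([([(7,[(22,28)]),(6,[(16,21)])],[]),([(5,[(11,13)]),(5,[(11,12)]),(4,[(7,10)])],[4,3,2])],5,4,[6,7]),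
  ([([(7,[(22,28)]),(7,[(11,12),(7,10),(6,6)])],[]),([(6,[(16,21)]),(5,[(11,13)])],[])],2,1,[]),
  ([([(7,[(22,28)]),(7,[(16,21),(7,7)])],[]),([(5,[(11,13)]),(5,[(11,12)])],[5]),([(4,[(7,10)])],[3,3,3,3,3,3,3,3,3,3,3,2])],1,0,[]),
  ([([(8,[(11,13),(11,12),(11,11)]),(7,[(22,28)])],[]),([(6,[(16,21)])],[6,5,4,3,2,1])],3,2,[]),
  ([([(9,[(16,21),(11,12),(12,12)]),(7,[(22,28)])],[]),([(5,[(11,13)])],[5,5,4,3,2,1])],2,1,[]),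
  ([([(7,[(22,28)]),(6,[(16,21)])],[]),([(5,[(11,13)]),(5,[(13,13)])],[])],5,10,[6,10,11]),
  ([([(7,[(22,28)]),(6,[(16,21)])],[]),([(5,[(11,13)]),(5,[(13,13)]),(3,[(6,6)])],[3,2])],5,5,[6]),
  ([([(7,[(22,28)]),(7,[(11,13),(13,13)])],[]),([(6,[(16,21)]),(5,[(6,6),(6,6)])],[])],1,0,[]),
  ([([(7,[(22,28)]),(6,[(16,21)])],[]),([(5,[(11,13)]),(5,[(13,13)]),(4,[(7,10)])],[4,3,2])],5,4,[]),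
  ([([(9,[(16,21),(13,13),(11,11)]),(7,[(22,28)])],[]),([(5,[(11,13)])],[5,5,4,3,2,1])],1,0,[]),
  ([([(8,[(16,21),(14,15)]),(7,[(22,28)])],[])],9,2,[10,15]),
  ([([(8,[(16,21),(14,15)]),(7,[(22,28)])],[]),([(4,[(10,10)])],[4,3,2,1])],5,10,[6,10]),
  ([([(8,[(16,21),(14,15)]),(7,[(22,28)])],[]),([(4,[(10,10)]),(3,[(6,6)])],[4])],5,5,[6]),
  ([([(8,[(16,21),(14,15)]),(7,[(22,28)])],[]),([(5,[(6,6),(6,6)]),(4,[(10,10)])],[5])],1,0,[]),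
  ([([(8,[(16,21),(14,15)]),(7,[(22,28)])],[]),([(4,[(10,10)]),(4,[(7,10)])],[])],5,4,[]),
  ([([(7,[(22,28)]),(6,[(16,21)])],[]),([(5,[(14,15)]),(5,[(11,15)])],[])],5,9,[6,10]),
  ([([(7,[(22,28)]),(6,[(16,21)])],[]),([(5,[(14,15)]),(5,[(11,15)]),(3,[(6,6)])],[3,2])],5,4,[]),
  ([([(8,[(16,21),(14,15)]),(7,[(22,28)])],[]),([(5,[(11,15)]),(4,[(7,10)])],[5])],4,3,[]),
  ([([(7,[(22,28)]),(6,[(16,21)])],[]),([(6,[(16,21)])],[6,5,4,3,2,1])],4,14,[6,10,15,18]),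
  ([([(7,[(22,28)]),(6,[(16,21)])],[]),([(6,[(16,21)]),(3,[(5,6)])],[6,5,4])],4,13,[6]),
  ([([(7,[(22,28)]),(6,[(16,21)])],[]),([(6,[(16,21)]),(3,[(5,6)]),(3,[(5,6)])],[6,5,4,3,2])],4,8,[6]),
  ([([(7,[(22,28)]),(7,[(5,6),(5,6),(5,6)])],[]),([(6,[(16,21)]),(6,[(16,21)])],[6])],4,1,[6]),
  ([([(8,[(5,6),(5,6),(5,6),(5,6)]),(7,[(22,28)])],[]),([(6,[(16,21)]),(6,[(16,21)])],[])],2,1,[]),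
  ([([(7,[(22,28)]),(6,[(16,21)])],[]),([(6,[(16,21)]),(4,[(7,10)])],[6,5])],4,11,[6,7,8,9,10]),
  ([([(7,[(22,28)]),(6,[(16,21)])],[]),([(6,[(16,21)]),(4,[(7,10)]),(3,[(5,6)])],[6,5,3,2])],4,7,[5,6]),
  ([([(7,[(22,28)]),(6,[(16,21)])],[]),([(6,[(16,21)]),(5,[(7,10),(5,5)]),(3,[(5,6)])],[6,3,2])],4,3,[]),
  ([([(10,[(7,10),(5,6),(6,6)]),(7,[(22,28)])],[]),([(6,[(16,21)]),(6,[(16,21)])],[6,6])],1,2,[3]),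
  ([([(10,[(7,10),(5,6),(6,6),(2,3)]),(7,[(22,28)])],[]),([(6,[(16,21)]),(6,[(16,21)])],[6,6])],1,1,[2]),
  ([([(10,[(7,10),(5,6),(6,6),(2,3),(2,2)]),(7,[(22,28)])],[]),([(6,[(16,21)]),(6,[(16,21)])],[6,6])],1,0,[]),
  ([([(7,[(22,28)]),(7,[(16,21),(7,7)])],[]),([(6,[(16,21)]),(4,[(7,10)])],[5])],4,5,[6]),
  ([([(7,[(22,28)]),(7,[(16,21),(7,7)])],[]),([(6,[(16,21)]),(4,[(7,10)]),(3,[(5,6)])],[5,3,2])],2,1,[]),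
  ([([(8,[(22,28),(8,8)]),(6,[(16,21)])],[]),([(6,[(16,21)]),(4,[(7,10)])],[6,6,5])],3,4,[5]),
  ([([(10,[(7,10),(8,8),(4,5)]),(7,[(22,28)])],[]),([(6,[(16,21)]),(6,[(16,21)])],[6,6])],1,1,[2]),
  ([([(10,[(7,10),(8,8),(4,5),(2,2)]),(7,[(22,28)])],[]),([(6,[(16,21)]),(6,[(16,21)])],[6,6])],1,0,[]),
  ([([(10,[(7,10),(9,9)]),(7,[(22,28)])],[]),([(6,[(16,21)]),(6,[(16,21)])],[6,6])],1,3,[3,4]),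
  ([([(10,[(7,10),(9,9),(2,3)]),(7,[(22,28)])],[]),([(6,[(16,21)]),(6,[(16,21)])],[6,6])],1,2,[3]),
  ([([(10,[(7,10),(9,9),(2,3),(2,3)]),(7,[(22,28)])],[]),([(6,[(16,21)]),(6,[(16,21)])],[6,6])],1,1,[2]),
  ([([(10,[(7,10),(9,9),(2,3),(2,3),(2,2)]),(7,[(22,28)])],[]),([(6,[(16,21)]),(6,[(16,21)])],[6,6])],1,0,[]),
  ([([(10,[(7,10),(9,9),(4,4)]),(7,[(22,28)])],[]),([(6,[(16,21)]),(6,[(16,21)])],[6,6])],1,0,[]),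
  ([([(7,[(22,28)]),(6,[(16,21)])],[]),([(6,[(16,21)]),(6,[(7,10),(10,10)])],[])],3,2,[]),
  ([([(7,[(22,28)]),(6,[(16,21)])],[]),([(6,[(16,21)]),(5,[(11,15)])],[6])],4,7,[6,7,8]),
  ([([(7,[(22,28)]),(6,[(16,21)])],[]),([(6,[(16,21)]),(5,[(11,15)]),(3,[(5,6)])],[6,3,2])],4,3,[]),
  ([([(7,[(22,28)]),(7,[(16,21),(7,7)])],[]),([(6,[(16,21)]),(5,[(11,15)])],[])],2,1,[]),
  ([([(8,[(22,28),(8,8)]),(6,[(16,21)])],[]),([(6,[(16,21)]),(5,[(11,15)])],[6,6])],1,0,[]),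
  ([([(7,[(22,28)]),(6,[(16,21)])],[]),([(6,[(16,21)]),(6,[(16,18)])],[])],3,2,[]),
  ([([(7,[(22,28)]),(7,[(22,28)])],[])],9,4,[10,15,21,27]),
  ([([(7,[(22,28)]),(7,[(22,28)])],[]),([(4,[(10,10)])],[3,2,1])],6,9,[10]),
  ([([(7,[(22,28)]),(7,[(22,28)])],[]),([(4,[(10,10)]),(4,[(7,10)])],[4])],5,11,[6,10]),
  ([([(7,[(22,28)]),(7,[(22,28)])],[]),([(4,[(10,10)]),(4,[(7,10)]),(3,[(6,6)])],[4,3,2,1])],6,1,[]),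
  ([([(7,[(22,28)]),(7,[(22,28)])],[]),([(4,[(10,10)]),(4,[(7,10)]),(4,[(7,10)])],[3,2,1])],6,1,[]),
  ([([(7,[(22,28)]),(7,[(22,28)])],[]),([(5,[(11,15)])],[4,3,2,1])],5,11,[6,10,15]),
  ([([(7,[(22,28)]),(7,[(22,28)])],[]),([(5,[(11,15)]),(3,[(6,6)])],[4])],5,11,[6]),
  ([([(7,[(22,28)]),(7,[(22,28)])],[]),([(5,[(11,15)]),(5,[(6,6),(6,6)])],[5])],5,1,[6]),
  ([([(7,[(22,28)]),(7,[(22,28)])],[]),([(6,[(11,15),(6,6)]),(5,[(6,6),(6,6)])],[])],2,1,[]),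
  ([([(7,[(22,28)]),(7,[(22,28)])],[]),([(5,[(11,15)]),(4,[(7,10)])],[])],5,10,[6,10]),
  ([([(7,[(22,28)]),(7,[(22,28)])],[]),([(5,[(11,15)]),(4,[(7,10)]),(3,[(6,6)])],[3,2,1])],5,5,[6]),
  ([([(10,[(7,10),(6,6)]),(7,[(22,28)])],[]),([(7,[(22,28)]),(6,[(11,15),(6,6)])],[7,7,7])],1,0,[]),
  ([([(7,[(22,28)]),(7,[(22,28)])],[]),([(5,[(11,15)]),(4,[(7,10)]),(4,[(7,10)])],[4,3,2])],5,3,[]),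
  ([([(7,[(22,28)]),(7,[(22,28)])],[]),([(5,[(11,15)]),(5,[(11,15)])],[5])],5,1,[6,7]),
  ([([(7,[(22,28)]),(7,[(22,28)])],[]),([(6,[(11,15),(6,6)]),(5,[(11,15)])],[])],2,1,[]),
  ([([(7,[(22,28)]),(7,[(22,28)])],[]),([(5,[(11,15)]),(5,[(11,15)])],[5]),([(4,[(7,7)])],[3,3,3,3,3,3,3,3,3,3,3,2])],1,0,[]),
  ([([(7,[(22,28)]),(7,[(22,28)])],[]),([(6,[(16,21)])],[5,4,3,2,1])],4,11,[6,10,12]),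
  ([([(7,[(22,28)]),(7,[(22,28)])],[]),([(6,[(16,21)]),(3,[(5,6)])],[5,4])],4,7,[6]),
  ([([(7,[(22,28)]),(7,[(22,28)])],[]),([(6,[(16,21)]),(3,[(5,6)]),(3,[(5,6)])],[5,4,3,2])],4,3,[]),
  ([([(7,[(22,28)]),(7,[(22,28)])],[]),([(6,[(16,21)]),(4,[(7,10)])],[5])],4,5,[6]),
  ([([(7,[(22,28)]),(7,[(22,28)])],[]),([(6,[(16,21)]),(4,[(7,10)]),(3,[(5,6)])],[5,3,2])],2,1,[]),
  ([([(7,[(22,28)]),(7,[(22,28)])],[]),([(6,[(16,21)]),(5,[(11,12)])],[])],2,1,[]),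
  ([([(7,[(22,28)]),(7,[(22,28)])],[]),([(7,[(22,27)])],[6,5,4,3,2,1])],3,5,[6]),
  ([([(7,[(22,28)]),(7,[(22,28)])],[]),([(7,[(22,27)]),(3,[(4,6)])],[6,5,4])],3,2,[]),
  ([([(8,[(29,36)])],[])],9,9,[10,15,21,28,36]), ([([(8,[(29,36)]),(4,[(10,10)])],[])],9,5,[10]),
  ([([(8,[(29,36)]),(6,[(10,10),(10,10)])],[])],9,3,[10]),
  ([([(11,[(29,36),(10,10),(10,10),(10,10)])],[])],6,12,[10]),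
  ([([(11,[(29,36),(10,10),(10,10),(10,10)]),(4,[(7,10)])],[])],6,7,[8]),
  ([([(11,[(29,36),(10,10),(10,10),(10,10)]),(4,[(7,10)])],[]),([(4,[(7,8)])],[4,4,4,4,4,4,4,3,2,1])],2,1,[]),
  ([([(8,[(29,36)]),(5,[(11,15)])],[])],9,4,[10,13,15]),
  ([([(8,[(29,36)]),(5,[(11,15)]),(4,[(10,10)])],[])],9,4,[10]),
  ([([(8,[(29,36)]),(8,[(11,15),(10,10),(10,10)])],[])],9,1,[10]),
  ([([(11,[(29,36),(10,10),(10,10),(10,10)]),(5,[(11,15)])],[])],4,3,[]),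
  ([([(8,[(29,36)]),(5,[(11,15)])],[]),([(5,[(11,13)])],[5,5,5,4,3,2,1])],4,14,[6,10,12,13]),
  ([([(8,[(29,36)]),(5,[(11,15)])],[]),([(5,[(11,13)]),(3,[(5,6)])],[5,5,5,4])],4,14,[6]),
  ([([(8,[(29,36)]),(7,[(5,6),(5,6)])],[]),([(5,[(11,15)]),(5,[(11,13)])],[])],4,12,[6]),
  ([([(8,[(29,36)]),(7,[(5,6),(5,6),(5,6)])],[]),([(5,[(11,15)]),(5,[(11,13)])],[])],4,8,[6]),
  ([([(8,[(29,36)]),(8,[(5,6),(5,6),(5,6),(5,6)])],[]),([(5,[(11,15)]),(5,[(11,13)])],[5])],4,1,[5]),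
  ([([(8,[(29,36)]),(8,[(5,6),(5,6),(5,6),(5,6),(5,5)])],[]),([(5,[(11,15)]),(5,[(11,13)])],[5])],1,0,[]),
  ([([(8,[(29,36)]),(5,[(11,15)])],[]),([(5,[(11,13)]),(4,[(7,10)])],[5,5,5])],4,14,[6,7,8,9,10]),
  ([([(8,[(29,36)]),(5,[(11,15)])],[]),([(5,[(11,13)]),(4,[(7,10)]),(3,[(5,6)])],[5,5,5,3,2])],4,8,[6]),
  ([([(8,[(29,36)]),(7,[(5,6),(5,6)])],[]),([(5,[(11,15)]),(5,[(11,13)]),(4,[(7,10)])],[4,3,2])],4,4,[6]),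
  ([([(8,[(29,36)]),(7,[(5,6),(5,6),(5,6)])],[]),([(5,[(11,15)]),(5,[(11,13)]),(4,[(7,10)])],[4,3,2])],3,2,[]),
  ([([(8,[(29,36)]),(6,[(11,13),(7,7)])],[]),([(5,[(11,15)]),(4,[(7,10)])],[5,5])],4,8,[6,7]),
  ([([(8,[(29,36)]),(6,[(11,13),(7,7)])],[]),([(5,[(11,15)]),(4,[(7,10)]),(3,[(5,6)])],[5,5,3,2])],4,4,[5]),
  ([([(8,[(29,36)]),(6,[(11,13),(7,7)])],[]),([(5,[(11,15)]),(5,[(7,10),(5,5)]),(3,[(5,6)])],[5,3,2])],1,0,[]),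
  ([([(8,[(29,36)]),(7,[(11,13),(7,7),(7,7)])],[]),([(5,[(11,15)]),(4,[(7,10)])],[5])],3,2,[]),
  ([([(8,[(29,36)]),(6,[(11,13),(8,8)])],[]),([(5,[(11,15)]),(4,[(7,10)])],[5,5])],4,7,[6,7,8]),
  ([([(8,[(29,36)]),(7,[(11,13),(8,8),(5,6)])],[]),([(5,[(11,15)]),(4,[(7,10)])],[5])],4,3,[]),
  ([([(8,[(29,36)]),(7,[(11,13),(8,8),(7,7)])],[]),([(5,[(11,15)]),(4,[(7,10)])],[5])],2,1,[]),
  ([([(8,[(29,36)]),(6,[(11,13),(8,8)])],[]),([(5,[(11,15)]),(4,[(7,10)])],[5,5]),([(4,[(8,8)])],[4,4,4,4,4,4,4,4,4,4,4,4,3])],1,0,[]),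
  ([([(9,[(29,36),(9,9)]),(5,[(11,15)])],[]),([(5,[(11,13)]),(4,[(7,10)])],[5,5,5,5])],3,6,[6,7]),
  ([([(8,[(29,36)]),(7,[(11,13),(9,9),(4,6)])],[]),([(5,[(11,15)]),(4,[(7,10)])],[5])],4,3,[]),
  ([([(9,[(29,36),(9,9)]),(6,[(11,13),(7,7)])],[]),([(5,[(11,15)]),(4,[(7,10)])],[5,5,5])],1,0,[]),
  ([([(8,[(29,36)]),(6,[(7,10),(10,10)])],[]),([(5,[(11,15)]),(5,[(11,13)])],[5])],4,5,[6]),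
  ([([(8,[(29,36)]),(6,[(7,10),(10,10)])],[]),([(5,[(11,15)]),(5,[(11,13)]),(3,[(5,6)])],[5,3,2])],2,1,[]),
  ([([(8,[(29,36)]),(5,[(11,15)])],[]),([(5,[(11,13)]),(5,[(11,12)])],[5,5])],4,10,[6,8,10,11]),
  ([([(8,[(29,36)]),(5,[(11,15)])],[]),([(5,[(11,13)]),(5,[(11,12)]),(3,[(5,6)])],[5,5,3,2])],4,6,[6]),
  ([([(8,[(29,36)]),(5,[(11,15)])],[]),([(5,[(11,13)]),(5,[(11,12)]),(3,[(5,6)])],[5,5,3,2]),([(3,[(5,6)])],[3,3,3,3,3,3,3,2,2,2,1,1])],1,2,[3]),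
  ([([(8,[(29,36)]),(7,[(11,13),(11,12),(2,3)])],[]),([(7,[(5,6),(5,6)]),(5,[(11,15)])],[7,6])],2,1,[]),
  ([([(8,[(29,36)]),(6,[(11,13),(7,8)])],[]),([(5,[(11,15)]),(5,[(11,12)])],[5])],4,4,[5]),
  ([([(8,[(29,36)]),(6,[(11,13),(7,8)])],[]),([(5,[(11,15)]),(5,[(11,12)]),(3,[(5,5)])],[5,3,2])],1,0,[]),
  ([([(8,[(29,36)]),(8,[(11,13),(11,12),(9,10)])],[]),([(5,[(11,15)])],[4,3,2,1])],3,2,[]),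
  ([([(8,[(29,36)]),(8,[(11,13),(11,12),(11,11)])],[]),([(5,[(11,15)])],[4,3,2,1])],1,0,[]),
  ([([(8,[(29,36)]),(7,[(11,15),(13,13)])],[]),([(5,[(11,13)])],[5,4,3,2,1])],4,8,[6,9]),
  ([([(8,[(29,36)]),(7,[(11,15),(13,13)])],[]),([(5,[(11,13)]),(3,[(5,6)])],[5,4])],4,4,[5]),
  ([([(8,[(29,36)]),(7,[(11,15),(13,13)])],[]),([(6,[(5,6),(5,5)]),(5,[(11,13)])],[6])],1,0,[]),
  ([([(8,[(29,36)]),(7,[(11,15),(13,13)])],[]),([(5,[(11,13)]),(4,[(7,9)])],[5])],3,2,[]),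
  ([([(8,[(29,36)]),(5,[(11,15)])],[]),([(5,[(14,15)])],[5,5,5,4,3,2,1])],4,14,[6,8,10,13,15]),
  ([([(8,[(29,36)]),(6,[(14,15),(5,6)])],[]),([(5,[(11,15)])],[5,5,4,3,2,1])],4,13,[6]),
  ([([(8,[(29,36)]),(7,[(14,15),(5,6),(5,6)])],[]),([(5,[(11,15)])],[5,4,3,2,1])],4,9,[6]),
  ([([(8,[(29,36)]),(7,[(14,15),(5,6),(5,6)])],[]),([(5,[(11,15)]),(3,[(5,6)])],[5,4])],4,5,[6]),
  ([([(8,[(29,36)]),(7,[(14,15),(5,6),(5,6)])],[]),([(7,[(5,6),(5,6)]),(5,[(11,15)])],[7,6])],2,1,[]),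
  ([([(8,[(29,36)]),(5,[(11,15)])],[]),([(5,[(14,15)]),(4,[(7,8)])],[5,5,5])],4,11,[6,8]),
  ([([(8,[(29,36)]),(6,[(14,15),(5,6)])],[]),([(5,[(11,15)]),(4,[(7,8)])],[5,5])],4,7,[6]),
  ([([(8,[(29,36)]),(7,[(14,15),(5,6),(5,6)])],[]),([(5,[(11,15)]),(4,[(7,8)])],[5])],4,3,[]),
  ([([(9,[(7,8),(7,8)]),(8,[(29,36)])],[]),([(5,[(11,15)]),(5,[(14,15)])],[])],3,5,[6]),
  ([([(9,[(7,8),(7,8),(4,6)]),(8,[(29,36)])],[]),([(5,[(11,15)]),(5,[(14,15)])],[])],3,2,[]),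
  ([([(8,[(29,36)]),(7,[(14,15),(9,10)])],[]),([(5,[(11,15)])],[5,4,3,2,1])],4,9,[6,10]),
  ([([(8,[(29,36)]),(7,[(14,15),(9,10)])],[]),([(5,[(11,15)]),(3,[(5,6)])],[5,4])],4,5,[6]),
  ([([(8,[(29,36)]),(7,[(14,15),(9,10)])],[]),([(7,[(5,6),(5,6)]),(5,[(11,15)])],[7,6])],2,1,[]),
  ([([(8,[(29,36)]),(7,[(14,15),(9,10)])],[]),([(5,[(11,15)]),(4,[(7,10)])],[5])],4,3,[]),
  ([([(8,[(29,36)]),(7,[(14,15),(11,13)])],[]),([(5,[(11,15)])],[5,4,3,2,1])],4,7,[6,8]),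
  ([([(8,[(29,36)]),(7,[(14,15),(11,13)])],[]),([(5,[(11,15)]),(3,[(5,6)])],[5,4])],4,3,[]),
  ([([(8,[(29,36)]),(8,[(14,15),(11,13),(7,8)])],[]),([(5,[(11,15)])],[4,3,2,1])],2,1,[]),
  ([([(9,[(11,15),(14,15),(14,15)]),(8,[(29,36)])],[])],5,4,[]),
  ([([(8,[(29,36)]),(6,[(16,21)])],[])],9,3,[10,15,21]),
  ([([(8,[(29,36)]),(6,[(16,21)])],[]),([(4,[(10,10)])],[4,4,3,2,1])],5,11,[6,10]),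
  ([([(8,[(29,36)]),(6,[(16,21)])],[]),([(4,[(10,10)]),(3,[(6,6)])],[4,4])],5,11,[6]),
  ([([(8,[(29,36)]),(6,[(16,21)])],[]),([(4,[(10,10)]),(3,[(6,6)]),(3,[(6,6)])],[4,4,3,2,1])],5,5,[6]),
  ([([(8,[(29,36)]),(7,[(10,10),(6,6),(6,6),(6,6)])],[]),([(6,[(16,21)])],[6,5,4,3,2,1])],2,1,[]),
  ([([(8,[(29,36)]),(6,[(16,21)])],[]),([(4,[(10,10)]),(4,[(7,10)])],[4])],5,10,[6,10]),
  ([([(8,[(29,36)]),(6,[(16,21)])],[]),([(4,[(10,10)]),(4,[(7,10)]),(3,[(6,6)])],[4,3,2,1])],5,5,[6]),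
  ([([(8,[(29,36)]),(6,[(16,21)])],[]),([(6,[(10,10),(7,10)]),(5,[(6,6),(6,6)])],[6,6])],1,0,[]),
  ([([(8,[(29,36)]),(6,[(16,21)])],[]),([(4,[(10,10)]),(4,[(7,10)]),(4,[(7,10)])],[3,2,1])],5,4,[]),
  ([([(8,[(29,36)]),(6,[(16,21)])],[]),([(5,[(11,15)])],[5,5,4,3,2,1])],4,13,[6,8,10,15]),
  ([([(8,[(29,36)]),(6,[(16,21)])],[]),([(5,[(11,15)]),(3,[(5,6)])],[5,5,4])],4,11,[6]),
  ([([(8,[(29,36)]),(6,[(16,21)])],[]),([(5,[(11,15)]),(3,[(5,6)]),(3,[(5,6)])],[5,5,4,3,2])],4,7,[6]),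
  ([([(8,[(29,36)]),(6,[(16,21)])],[]),([(5,[(11,15)]),(3,[(5,6)]),(3,[(5,6)]),(3,[(5,6)])],[5,5,4])],4,3,[]),
  ([([(8,[(29,36)]),(6,[(16,21)])],[]),([(5,[(11,15)]),(4,[(7,8)])],[5,5])],4,9,[6,8]),
  ([([(8,[(29,36)]),(6,[(16,21)])],[]),([(5,[(11,15)]),(5,[(7,8),(5,6)])],[5])],4,5,[6]),
  ([([(8,[(29,36)]),(8,[(7,8),(5,6),(5,6)])],[]),([(6,[(16,21)]),(5,[(11,15)])],[])],2,1,[]),
  ([([(9,[(7,8),(7,8)]),(8,[(29,36)])],[]),([(6,[(16,21)]),(5,[(11,15)])],[6])],2,3,[3,4]),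
  ([([(9,[(7,8),(7,8),(3,3)]),(8,[(29,36)])],[]),([(6,[(16,21)]),(5,[(11,15)])],[6])],2,1,[]),
  ([([(8,[(29,36)]),(6,[(16,21)])],[]),([(6,[(7,8),(7,8),(4,4)]),(5,[(11,15)])],[6,6])],1,0,[]),
  ([([(8,[(29,36)]),(6,[(16,21)])],[]),([(5,[(11,15)]),(4,[(9,10)])],[5,5])],4,7,[6,7,8]),
  ([([(8,[(29,36)]),(6,[(16,21)])],[]),([(5,[(11,15)]),(4,[(9,10)]),(3,[(5,6)])],[5,5,3,2])],4,3,[]),
  ([([(8,[(29,36)]),(7,[(16,21),(7,7)])],[]),([(5,[(11,15)]),(4,[(9,10)])],[5])],2,1,[]),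
  ([([(8,[(29,36)]),(6,[(16,21)])],[]),([(6,[(9,10),(8,8)]),(5,[(11,15)])],[6,6])],1,0,[]),
  ([([(8,[(29,36)]),(6,[(16,21)])],[]),([(5,[(11,15)]),(5,[(11,15)])],[5])],4,5,[6]),
  ([([(8,[(29,36)]),(6,[(16,21)])],[]),([(5,[(11,15)]),(5,[(11,15)]),(3,[(5,6)])],[5,3,2])],2,1,[]),
  ([([(8,[(29,36)]),(6,[(16,21)])],[]),([(6,[(16,21)])],[6,6,5,4,3,2,1])],3,10,[6,8,10,11]),
  ([([(8,[(29,36)]),(6,[(16,21)])],[]),([(6,[(16,21)]),(3,[(4,6)])],[6,6,5,4])],3,7,[6]),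
  ([([(8,[(29,36)]),(7,[(4,6),(4,6)])],[]),([(6,[(16,21)]),(6,[(16,21)])],[])],3,4,[5]),
  ([([(8,[(29,36)]),(7,[(4,6),(4,6),(4,5)])],[]),([(6,[(16,21)]),(6,[(16,21)])],[])],2,1,[]),
  ([([(8,[(29,36)]),(6,[(16,21)])],[]),([(6,[(16,21)]),(4,[(7,8)])],[6,6,5])],3,4,[5]),
  ([([(8,[(29,36)]),(8,[(7,8),(4,5)])],[]),([(6,[(16,21)]),(6,[(16,21)])],[6])],2,1,[]),
  ([([(8,[(29,36)]),(6,[(16,21)])],[]),([(6,[(16,21)]),(4,[(9,10)])],[6,6,5])],3,2,[]),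
  ([([(8,[(29,36)]),(6,[(16,21)])],[]),([(6,[(16,21)]),(5,[(11,11)])],[6,6])],1,0,[]),
  ([([(8,[(29,36)]),(7,[(22,28)])],[])],9,2,[10,15,20]),
  ([([(8,[(29,36)]),(7,[(22,28)])],[]),([(4,[(10,10)])],[4,3,2,1])],5,10,[6,10]),
  ([([(8,[(29,36)]),(7,[(22,28)])],[]),([(4,[(10,10)]),(3,[(6,6)])],[4])],5,5,[6]),
  ([([(8,[(29,36)]),(7,[(22,28)])],[]),([(5,[(6,6),(6,6)]),(4,[(10,10)])],[5])],1,0,[]),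
  ([([(8,[(29,36)]),(7,[(22,28)])],[]),([(4,[(10,10)]),(4,[(7,10)])],[])],5,4,[]),
  ([([(8,[(29,36)]),(7,[(22,28)])],[]),([(5,[(11,15)])],[5,4,3,2,1])],4,9,[6,10]),
  ([([(8,[(29,36)]),(7,[(22,28)])],[]),([(5,[(11,15)]),(3,[(5,6)])],[5,4])],4,5,[6]),
  ([([(8,[(29,36)]),(7,[(22,28)])],[]),([(7,[(5,6),(5,6)]),(5,[(11,15)])],[7,6])],2,1,[]),
  ([([(8,[(29,36)]),(7,[(22,28)])],[]),([(5,[(11,15)]),(4,[(7,10)])],[5])],4,3,[]),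
  ([([(8,[(29,36)]),(7,[(22,28)])],[]),([(6,[(16,20)])],[6,5,4,3,2,1])],3,4,[5]),
  ([([(8,[(29,36)]),(7,[(22,28)])],[]),([(6,[(16,20)]),(3,[(4,5)])],[6,5,4])],2,1,[]),
  ([([(8,[(29,36)]),(8,[(29,36)])],[])],9,1,[10,13]),
  ([([(8,[(29,36)]),(8,[(29,36)])],[]),([(4,[(10,10)])],[3,2,1])],4,3,[]),
  ([([(8,[(29,36)]),(8,[(29,36)])],[]),([(5,[(11,13)])],[4,3,2,1])],3,2,[]),
  ([([(9,[(37,45)])],[])],8,10,[10,15,21,28,33]), ([([(9,[(37,45)]),(4,[(9,10)])],[])],8,6,[10]),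
  ([([(9,[(37,45)]),(6,[(9,10),(9,10)])],[])],8,4,[10]),
  ([([(9,[(37,45)]),(6,[(9,10),(9,10)])],[]),([(4,[(9,10)])],[4,4,4,3,2,1])],4,8,[6,9]),
  ([([(9,[(37,45)]),(8,[(9,10),(9,10),(9,10),(5,6)])],[])],5,4,[]),
  ([([(9,[(37,45)]),(6,[(9,10),(9,10)])],[]),([(4,[(9,10)]),(4,[(7,9)])],[4,4])],3,2,[]),
  ([([(9,[(37,45)]),(5,[(11,15)])],[])],8,5,[10,15]),
  ([([(9,[(37,45)]),(5,[(11,15)])],[]),([(4,[(9,10)])],[4,4,4,4,3,2,1])],4,13,[6,10]),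
  ([([(9,[(37,45)]),(5,[(11,15)])],[]),([(4,[(9,10)]),(3,[(5,6)])],[4,4,4,4])],4,10,[6]),
  ([([(9,[(37,45)]),(5,[(11,15)])],[]),([(4,[(9,10)]),(3,[(5,6)]),(3,[(5,6)])],[4,4,4,4,3,2])],4,6,[6]),
  ([([(9,[(37,45)]),(7,[(5,6),(5,6),(5,6)])],[]),([(5,[(11,15)]),(4,[(9,10)])],[5,5])],3,2,[]),
  ([([(9,[(37,45)]),(5,[(11,15)])],[]),([(4,[(9,10)]),(4,[(7,10)])],[4,4,4])],4,8,[6,9]),
  ([([(9,[(37,45)]),(5,[(11,15)])],[]),([(4,[(9,10)]),(4,[(7,10)]),(3,[(5,6)])],[4,4,4,3,2])],4,4,[5]),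
  ([([(9,[(37,45)]),(6,[(9,10),(5,6),(5,5)])],[]),([(5,[(11,15)]),(4,[(7,10)])],[5,5,5])],1,0,[]),
  ([([(9,[(37,45)]),(5,[(11,15)])],[]),([(4,[(9,10)]),(4,[(7,10)]),(4,[(7,9)])],[4,4,3,2])],3,2,[]),
  ([([(9,[(37,45)]),(5,[(11,15)])],[]),([(5,[(11,15)])],[5,5,5,5,4,3,2,1])],3,12,[6,8,10,13]),
  ([([(9,[(37,45)]),(5,[(11,15)])],[]),([(5,[(11,15)]),(3,[(4,6)])],[5,5,5,5,4])],3,9,[6]),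
  ([([(9,[(37,45)]),(7,[(4,6),(4,6)])],[]),([(5,[(11,15)]),(5,[(11,15)])],[5])],3,6,[6]),
  ([([(9,[(37,45)]),(7,[(4,6),(4,6),(4,6)])],[]),([(5,[(11,15)]),(5,[(11,15)])],[5])],3,3,[4]),
  ([([(9,[(37,45)]),(7,[(4,6),(4,6),(4,6),(4,4)])],[]),([(5,[(11,15)]),(5,[(11,15)])],[5])],1,0,[]),
  ([([(9,[(37,45)]),(5,[(11,15)])],[]),([(5,[(11,15)]),(4,[(7,8)])],[5,5,5,5])],3,6,[6,7]),
  ([([(9,[(37,45)]),(8,[(7,8),(4,6)])],[]),([(5,[(11,15)]),(5,[(11,15)])],[])],3,3,[4]),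
  ([([(9,[(37,45)]),(8,[(7,8),(4,6),(4,4)])],[]),([(5,[(11,15)]),(5,[(11,15)])],[])],1,0,[]),
  ([([(9,[(37,45)]),(5,[(11,15)])],[]),([(5,[(11,15)]),(5,[(7,8),(7,7)])],[5,5,5])],1,0,[]),
  ([([(9,[(37,45)]),(5,[(11,15)])],[]),([(5,[(11,15)]),(4,[(9,10)])],[5,5,5,5])],3,4,[5]),
  ([([(9,[(37,45)]),(5,[(11,15)])],[]),([(5,[(11,15)]),(5,[(9,10),(4,5)])],[5,5,5])],2,1,[]),
  ([([(9,[(37,45)]),(5,[(11,15)])],[]),([(5,[(11,15)]),(5,[(11,13)])],[5,5,5])],3,2,[]),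
  ([([(9,[(37,45)]),(6,[(16,21)])],[])],8,4,[10,15,18]),
  ([([(9,[(37,45)]),(6,[(16,21)])],[]),([(4,[(9,10)])],[4,4,4,3,2,1])],4,9,[6,10]),
  ([([(9,[(37,45)]),(6,[(16,21)])],[]),([(4,[(9,10)]),(3,[(5,6)])],[4,4,4])],4,5,[6]),
  ([([(9,[(37,45)]),(7,[(5,6),(5,6)])],[]),([(6,[(16,21)]),(4,[(9,10)])],[6,6,5])],2,1,[]),
  ([([(9,[(37,45)]),(6,[(16,21)])],[]),([(4,[(9,10)]),(4,[(7,10)])],[4,4])],4,3,[]),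
  ([([(9,[(37,45)]),(6,[(16,21)])],[]),([(5,[(11,15)])],[5,5,5,4,3,2,1])],3,7,[6,8]),
  ([([(9,[(37,45)]),(6,[(16,21)])],[]),([(5,[(11,15)]),(3,[(4,6)])],[5,5,5,4])],3,4,[5]),
  ([([(9,[(37,45)]),(6,[(16,21)])],[]),([(6,[(4,6),(4,5)]),(5,[(11,15)])],[6,6,6])],2,1,[]),
  ([([(9,[(37,45)]),(6,[(16,21)])],[]),([(5,[(11,15)]),(4,[(7,8)])],[5,5,5])],2,1,[]),
  ([([(9,[(37,45)]),(6,[(16,21)])],[]),([(6,[(16,18)])],[6,6,6,5,4,3,2,1])],2,2,[3]),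
  ([([(9,[(37,45)]),(6,[(16,21)])],[]),([(6,[(16,18),(3,3)])],[6,6,6,5,4,3,2,1])],1,0,[]),
  ([([(9,[(37,45)]),(7,[(22,28)])],[])],8,3,[10,12]),
  ([([(9,[(37,45)]),(7,[(22,28)])],[]),([(4,[(9,10)])],[4,4,3,2,1])],4,3,[]),
  ([([(9,[(37,45)]),(7,[(22,28)])],[]),([(5,[(11,12)])],[5,5,4,3,2,1])],2,1,[]),
  ([([(9,[(37,45)]),(8,[(29,33)])],[])],5,4,[]), ([([(10,[(46,55)])],[])],7,11,[10,15,21,24]),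
  ([([(10,[(46,55)]),(4,[(8,10)])],[])],7,7,[10]),
  ([([(10,[(46,55)]),(4,[(8,10)])],[]),([(4,[(8,10)])],[4,4,4,4,4,4,3,2,1])],3,9,[6,10]),
  ([([(10,[(46,55)]),(4,[(8,10)])],[]),([(4,[(8,10)]),(3,[(4,6)])],[4,4,4,4,4,4])],3,6,[6]),
  ([([(10,[(46,55)]),(7,[(4,6),(4,6)])],[]),([(4,[(8,10)]),(4,[(8,10)])],[4,4])],3,3,[4]),
  ([([(10,[(46,55)]),(7,[(4,6),(4,6)])],[]),([(5,[(8,10),(4,4)]),(4,[(8,10)])],[5,5,5])],1,0,[]),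
  ([([(10,[(46,55)]),(4,[(8,10)])],[]),([(4,[(8,10)]),(4,[(7,10)])],[4,4,4,4,4])],3,3,[4]),
  ([([(10,[(46,55)]),(5,[(8,10),(4,4)])],[]),([(4,[(8,10)]),(4,[(7,10)])],[4,4,4,4])],1,0,[]),
  ([([(10,[(46,55)]),(5,[(11,15)])],[])],7,6,[10,14]),
  ([([(10,[(46,55)]),(5,[(11,15)])],[]),([(4,[(8,10)])],[4,4,4,4,4,3,2,1])],3,6,[6,7]),
  ([([(10,[(46,55)]),(5,[(11,15)])],[]),([(4,[(8,10)]),(3,[(4,6)])],[4,4,4,4,4])],3,3,[4]),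
  ([([(10,[(46,55)]),(5,[(11,15)])],[]),([(5,[(8,10),(4,4)]),(3,[(4,6)])],[5,5,5,5,5,4])],1,0,[]),
  ([([(10,[(46,55)]),(5,[(11,15)])],[]),([(4,[(8,10)]),(4,[(7,7)])],[4,4,4,4])],1,0,[]),
  ([([(10,[(46,55)]),(5,[(11,15)])],[]),([(5,[(11,14)])],[5,5,5,5,5,4,3,2,1])],2,3,[3,4]),
  ([([(10,[(46,55)]),(5,[(11,15)])],[]),([(5,[(11,14)]),(2,[(3,3)])],[5,5,5,5,5,4,3])],2,1,[]),
  ([([(10,[(46,55)]),(5,[(11,15)])],[]),([(5,[(11,14)]),(3,[(4,4)])],[5,5,5,5,5,4])],1,0,[]),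
  ([([(10,[(46,55)]),(6,[(16,21)])],[])],7,5,[9]),
  ([([(10,[(46,55)]),(6,[(16,21)])],[]),([(4,[(8,9)])],[4,4,4,4,3,2,1])],2,1,[]),
  ([([(10,[(46,55)]),(7,[(22,24)])],[])],3,2,[]), ([([(11,[(56,66)])],[])],6,12,[10,14]),
  ([([(11,[(56,66)]),(4,[(7,10)])],[])],6,7,[8]),
  ([([(11,[(56,66)]),(4,[(7,10)])],[]),([(4,[(7,8)])],[4,4,4,4,4,4,4,3,2,1])],2,1,[]),
  ([([(11,[(56,66)]),(5,[(11,14)])],[])],4,3,[]), ([([(12,[(67,69)])],[])],3,2,[])]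

theorem ki_17 : KC 17 68 := kc_of_itree it_17 (by decide +kernel)

def it_18 : List (List (List (ℕ × List (ℕ × ℕ)) × List ℕ) × ℕ × ℕ × List ℕ) := [
  ([],16,5,[21,28,36,45,55,66,76]), ([([(6,[(17,21)])],[])],12,7,[15,21]),
  ([([(6,[(17,21)]),(5,[(13,15)])],[])],11,6,[15]),
  ([([(6,[(17,21)]),(5,[(13,15)]),(5,[(12,15)])],[])],11,5,[15]),
  ([([(8,[(17,21),(13,15)]),(5,[(12,15)]),(5,[(12,15)])],[])],10,4,[15]),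
  ([([(6,[(17,21)]),(5,[(13,15)]),(5,[(12,15)])],[]),([(5,[(12,15)]),(5,[(11,15)])],[4,3,2,1])],7,3,[10,15]),
  ([([(6,[(17,21)]),(5,[(13,15)]),(5,[(12,15)])],[]),([(5,[(12,15)]),(5,[(11,15)]),(4,[(8,10)])],[])],7,3,[9]),
  ([([(8,[(17,21),(13,15)]),(5,[(12,15)]),(5,[(12,15)])],[]),([(5,[(11,15)]),(4,[(8,10)]),(4,[(8,9)])],[5,5,5])],2,1,[]),
  ([([(6,[(17,21)]),(5,[(13,15)]),(5,[(12,15)])],[]),([(5,[(12,15)]),(5,[(11,15)]),(5,[(11,15)])],[])],6,5,[]),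
  ([([(6,[(17,21)]),(6,[(16,21)])],[])],11,4,[15,21]),
  ([([(6,[(17,21)]),(6,[(16,21)]),(5,[(12,15)])],[])],11,4,[15]),
  ([([(6,[(17,21)]),(6,[(16,21)]),(5,[(12,15)])],[]),([(5,[(12,15)])],[4,2])],7,9,[10,15]),
  ([([(6,[(17,21)]),(6,[(16,21)]),(5,[(12,15)])],[]),([(5,[(12,15)]),(4,[(8,10)])],[3,2,1])],7,4,[10]),
  ([([(6,[(17,21)]),(6,[(16,21)]),(5,[(12,15)])],[]),([(5,[(12,15)]),(4,[(8,10)]),(4,[(8,10)])],[])],7,3,[9]),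
  ([([(6,[(17,21)]),(6,[(16,21)]),(5,[(12,15)])],[]),([(5,[(12,15)]),(4,[(8,10)]),(4,[(8,10)])],[]),([(4,[(8,9)])],[4,4,3,3,2,2,1,1])],2,1,[]),
  ([([(6,[(17,21)]),(6,[(16,21)]),(5,[(12,15)])],[]),([(5,[(12,15)]),(5,[(11,15)])],[5,4,3,2,1])],6,5,[10,13]),
  ([([(6,[(17,21)]),(6,[(16,21)]),(5,[(12,15)])],[]),([(5,[(12,15)]),(5,[(11,15)]),(4,[(7,10)])],[5])],7,1,[]),
  ([([(6,[(17,21)]),(6,[(16,21)]),(5,[(12,15)])],[]),([(5,[(12,15)]),(5,[(11,15)]),(5,[(11,13)])],[])],3,2,[]),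
  ([([(6,[(17,21)]),(6,[(16,21)]),(6,[(16,21)])],[])],11,3,[15,21]),
  ([([(6,[(17,21)]),(6,[(16,21)]),(6,[(16,21)])],[]),([(5,[(12,15)])],[3,1])],7,8,[10,15]),
  ([([(6,[(17,21)]),(6,[(16,21)]),(6,[(16,21)])],[]),([(5,[(12,15)]),(4,[(8,10)])],[4,3,2,1])],7,2,[10]),
  ([([(6,[(17,21)]),(6,[(16,21)]),(6,[(16,21)])],[]),([(5,[(12,15)]),(4,[(8,10)]),(4,[(8,10)])],[])],5,4,[]),
  ([([(6,[(17,21)]),(6,[(16,21)]),(6,[(16,21)])],[]),([(5,[(12,15)]),(5,[(11,15)])],[3,2,1])],7,1,[9]),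
  ([([(6,[(17,21)]),(6,[(16,21)]),(6,[(16,21)])],[]),([(5,[(12,15)]),(5,[(11,15)]),(4,[(8,9)])],[])],2,1,[]),
  ([([(6,[(17,21)]),(6,[(16,21)]),(6,[(16,21)])],[]),([(6,[(16,21)])],[4,2])],6,10,[10,15]),
  ([([(6,[(17,21)]),(6,[(16,21)]),(6,[(16,21)])],[]),([(6,[(16,21)]),(4,[(7,10)])],[3,2,1])],6,5,[9]),
  ([([(6,[(17,21)]),(6,[(16,21)]),(6,[(16,21)])],[]),([(6,[(16,21)]),(4,[(7,10)]),(4,[(7,9)])],[])],3,2,[]),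
  ([([(6,[(17,21)]),(6,[(16,21)]),(6,[(16,21)])],[]),([(6,[(16,21)]),(5,[(11,15)])],[5,4,3,2,1])],5,4,[]),
  ([([(7,[(22,28)])],[])],11,8,[15,21,28]), ([([(7,[(22,28)]),(5,[(12,15)])],[])],10,7,[15]),
  ([([(7,[(22,28)]),(5,[(12,15)]),(5,[(11,15)])],[])],11,3,[15]),
  ([([(7,[(22,28)]),(5,[(12,15)]),(5,[(11,15)])],[]),([(5,[(12,15)])],[5,5,3,1])],6,10,[10,15]),
  ([([(7,[(22,28)]),(5,[(12,15)]),(5,[(11,15)])],[]),([(5,[(12,15)]),(4,[(7,10)])],[5,5,4,3,2,1])],6,4,[8,10]),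
  ([([(7,[(22,28)]),(5,[(12,15)]),(5,[(11,15)])],[]),([(5,[(12,15)]),(4,[(7,10)]),(4,[(7,8)])],[5,5])],6,4,[7,8]),
  ([([(7,[(22,28)]),(5,[(12,15)]),(5,[(11,15)])],[]),([(5,[(12,15)]),(5,[(7,8),(7,7)]),(4,[(7,10)])],[5])],5,4,[]),
  ([([(8,[(22,28),(8,8)]),(5,[(12,15)]),(5,[(11,15)])],[]),([(5,[(12,15)]),(4,[(7,10)]),(4,[(7,8)])],[5,5,5])],4,3,[]),
  ([([(7,[(22,28)]),(5,[(12,15)]),(5,[(11,15)])],[]),([(5,[(12,15)]),(4,[(7,10)]),(4,[(9,10)])],[5,5])],6,4,[9]),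
  ([([(7,[(22,28)]),(5,[(12,15)]),(5,[(11,15)])],[]),([(5,[(12,15)]),(4,[(7,10)]),(4,[(9,10)])],[5,5]),([(4,[(7,9)])],[4,4,4,3,3,2,2,1,1])],2,2,[3]),
  ([([(7,[(22,28)]),(7,[(12,15),(9,10),(3,3)])],[]),([(5,[(11,15)]),(5,[(12,15)]),(4,[(7,10)])],[5,4,3,2]),([(4,[(7,9)])],[3,3,3,2,2,2,1,1,1])],1,0,[]),
  ([([(7,[(22,28)]),(5,[(12,15)]),(5,[(11,15)])],[]),([(5,[(12,15)]),(5,[(11,15)])],[5,4,3,2,1])],6,4,[10,13]),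
  ([([(7,[(22,28)]),(5,[(12,15)]),(5,[(11,15)])],[]),([(5,[(12,15)]),(5,[(11,15)]),(4,[(7,10)])],[5])],6,4,[7]),
  ([([(7,[(22,28)]),(5,[(12,15)]),(5,[(11,15)])],[]),([(5,[(12,15)]),(5,[(11,15)]),(4,[(7,10)])],[5]),([(4,[(7,7)])],[4,4,4,3,3,2,2,1,1])],1,0,[]),
  ([([(7,[(22,28)]),(7,[(12,15),(11,13)])],[]),([(5,[(11,15)]),(5,[(12,15)]),(5,[(11,15)])],[4,3,2])],3,2,[]),
  ([([(7,[(22,28)]),(6,[(16,21)])],[])],10,6,[15,17,21]),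
  ([([(7,[(22,28)]),(6,[(16,21)]),(5,[(11,15)])],[])],11,2,[15]),
  ([([(7,[(22,28)]),(6,[(16,21)]),(5,[(11,15)])],[]),([(5,[(12,15)])],[5,4,2])],6,10,[10,15]),
  ([([(7,[(22,28)]),(6,[(16,21)]),(5,[(11,15)])],[]),([(5,[(12,15)]),(4,[(7,10)])],[5,3,2,1])],6,5,[10]),
  ([([(7,[(22,28)]),(6,[(16,21)]),(5,[(11,15)])],[]),([(5,[(12,15)]),(4,[(7,10)]),(4,[(7,10)])],[5])],6,4,[7]),
  ([([(7,[(22,28)]),(7,[(16,21),(7,7)])],[]),([(5,[(11,15)]),(5,[(12,15)]),(4,[(7,10)])],[5,4,3,2]),([(4,[(7,10)])],[3,3,3,2,2,2,1,1,1])],1,0,[]),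
  ([([(7,[(22,28)]),(6,[(16,21)]),(5,[(11,15)])],[]),([(5,[(12,15)]),(5,[(11,15)])],[3,2,1])],6,5,[9]),
  ([([(7,[(22,28)]),(6,[(16,21)]),(5,[(11,15)])],[]),([(5,[(12,15)]),(5,[(11,15)]),(4,[(7,9)])],[])],3,2,[]),
  ([([(9,[(22,28),(16,17)]),(6,[(16,21)])],[])],9,4,[10,15,17]),
  ([([(10,[(22,28),(16,17),(10,10)]),(6,[(16,21)])],[])],8,5,[10]),
  ([([(9,[(22,28),(16,17)]),(6,[(16,21)])],[]),([(4,[(10,10)]),(4,[(9,10)])],[4,4])],5,7,[6,8]),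
  ([([(10,[(22,28),(16,17),(10,10)]),(6,[(16,21)])],[]),([(4,[(9,10)]),(3,[(6,6)])],[4,4,4,4])],3,2,[]),
  ([([(10,[(22,28),(16,17),(10,10)]),(6,[(16,21)])],[]),([(4,[(9,10)]),(4,[(7,8)])],[4,4,4])],2,1,[]),
  ([([(7,[(22,28)]),(6,[(16,21)])],[]),([(6,[(16,17)]),(5,[(11,15)])],[6])],5,14,[6,10,15]),
  ([([(7,[(22,28)]),(6,[(16,21)])],[]),([(6,[(16,17)]),(6,[(11,15),(6,6)])],[])],5,9,[6]),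
  ([([(7,[(22,28)]),(6,[(16,21)])],[]),([(6,[(16,17)]),(6,[(11,15),(6,6)]),(3,[(6,6)])],[3,2])],5,4,[]),
  ([([(7,[(22,28)]),(7,[(16,17),(7,10)])],[]),([(6,[(16,21)]),(5,[(11,15)])],[])],5,8,[6,9]),
  ([([(9,[(22,28),(16,17)]),(6,[(16,21)])],[]),([(5,[(11,15)]),(4,[(7,10)]),(3,[(6,6)])],[5,5,5,3,2])],4,3,[]),
  ([([(7,[(22,28)]),(7,[(16,17),(7,10)])],[]),([(6,[(16,21)]),(5,[(11,15)]),(4,[(7,9)])],[4,3,2])],3,2,[]),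
  ([([(9,[(22,28),(16,17)]),(6,[(16,21)])],[]),([(5,[(11,15)]),(5,[(11,15)])],[5,5])],4,4,[5]),
  ([([(9,[(22,28),(16,17)]),(6,[(16,21)])],[]),([(5,[(11,15)]),(5,[(11,15)]),(3,[(5,5)])],[5,5,3,2])],1,0,[]),
  ([([(10,[(16,21),(16,17),(16,17)]),(7,[(22,28)])],[])],8,4,[10]),
  ([([(9,[(22,28),(16,17)]),(7,[(16,17),(9,10)])],[]),([(6,[(16,21)])],[6,6,5,4,3,2,1])],2,1,[]),
  ([([(7,[(22,28)]),(6,[(16,21)])],[]),([(6,[(18,21)])],[6,5,4,3,2,1])],5,14,[6,10,13,15,21]),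
  ([([(7,[(22,28)]),(7,[(18,21),(6,6)])],[]),([(6,[(16,21)])],[5,4,3,2,1])],5,13,[6]),
  ([([(7,[(22,28)]),(7,[(18,21),(6,6)])],[]),([(6,[(16,21)]),(3,[(6,6)])],[5,4])],5,12,[6]),
  ([([(7,[(22,28)]),(7,[(18,21),(6,6)])],[]),([(6,[(16,21)]),(5,[(6,6),(6,6)])],[])],5,7,[6]),
  ([([(9,[(18,21),(6,6),(6,6),(6,6),(6,6)]),(7,[(22,28)])],[]),([(6,[(16,21)])],[6,6,5,4,3,2,1])],3,2,[]),
  ([([(7,[(22,28)]),(6,[(16,21)])],[]),([(6,[(18,21)]),(4,[(7,10)])],[6,5])],5,14,[6,8,10]),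
  ([([(7,[(22,28)]),(7,[(18,21),(6,6)])],[]),([(6,[(16,21)]),(4,[(7,10)])],[5])],5,11,[6]),
  ([([(7,[(22,28)]),(7,[(18,21),(6,6)])],[]),([(6,[(16,21)]),(4,[(7,10)]),(3,[(6,6)])],[5,3,2])],5,6,[6]),
  ([([(7,[(22,28)]),(7,[(18,21),(6,6)])],[]),([(6,[(16,21)]),(5,[(6,6),(6,6)]),(4,[(7,10)])],[4,3,2])],2,1,[]),
  ([([(7,[(22,28)]),(6,[(16,21)])],[]),([(6,[(18,21)]),(4,[(7,10)]),(4,[(7,8)])],[6,5,4,3])],5,6,[6,8]),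
  ([([(7,[(22,28)]),(7,[(18,21),(6,6)])],[]),([(6,[(16,21)]),(4,[(7,10)]),(4,[(7,8)])],[5,4,3,2])],5,5,[6]),
  ([([(10,[(7,10),(6,6)]),(8,[(18,21),(7,8),(6,6)])],[]),([(7,[(22,28)]),(6,[(16,21)])],[7,7])],1,0,[]),
  ([([(10,[(7,10),(7,8),(7,8)]),(7,[(22,28)])],[]),([(6,[(16,21)]),(6,[(18,21)])],[6,6])],2,4,[3,5]),
  ([([(10,[(7,10),(7,8),(7,8),(3,3)]),(7,[(22,28)])],[]),([(6,[(16,21)]),(6,[(18,21)])],[6,6])],2,2,[3]),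
  ([([(10,[(7,10),(7,8),(7,8)]),(7,[(22,28)])],[]),([(7,[(18,21),(3,3),(3,3)]),(6,[(16,21)])],[7,7,7])],1,0,[]),
  ([([(10,[(7,10),(7,8),(7,8),(4,5)]),(7,[(22,28)])],[]),([(6,[(16,21)]),(6,[(18,21)])],[6,6])],2,1,[]),
  ([([(7,[(22,28)]),(6,[(16,21)])],[]),([(6,[(18,21)]),(4,[(7,10)]),(4,[(9,10)])],[6,5,4,3])],5,6,[6,9]),
  ([([(7,[(22,28)]),(7,[(18,21),(6,6)])],[]),([(6,[(16,21)]),(4,[(7,10)]),(4,[(9,10)])],[5,4,3,2])],4,3,[]),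
  ([([(11,[(7,10),(9,10),(7,9)]),(7,[(22,28)])],[]),([(6,[(16,21)]),(6,[(18,21)])],[6,6,6])],1,2,[3]),
  ([([(11,[(7,10),(9,10),(7,9),(2,3)]),(7,[(22,28)])],[]),([(6,[(16,21)]),(6,[(18,21)])],[6,6,6])],1,1,[2]),
  ([([(11,[(7,10),(9,10),(7,9),(2,3),(2,2)]),(7,[(22,28)])],[]),([(6,[(16,21)]),(6,[(18,21)])],[6,6,6])],1,0,[]),
  ([([(7,[(22,28)]),(6,[(16,21)])],[]),([(6,[(18,21)]),(5,[(11,13)])],[6])],5,12,[6,10,11,13]),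
  ([([(7,[(22,28)]),(7,[(18,21),(6,6)])],[]),([(6,[(16,21)]),(5,[(11,13)])],[])],5,7,[6]),
  ([([(7,[(22,28)]),(7,[(18,21),(6,6)])],[]),([(6,[(16,21)]),(6,[(11,13),(6,6)])],[6])],3,2,[]),
  ([([(7,[(22,28)]),(6,[(16,21)])],[]),([(6,[(18,21)]),(5,[(11,13)]),(4,[(7,10)])],[6,4,3])],5,6,[6,7]),
  ([([(7,[(22,28)]),(7,[(18,21),(6,6)])],[]),([(6,[(16,21)]),(5,[(11,13)]),(4,[(7,10)])],[4,3,2])],2,1,[]),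
  ([([(7,[(22,28)]),(7,[(16,21),(7,7)])],[]),([(6,[(18,21)]),(5,[(11,13)]),(4,[(7,10)])],[4,3,2])],1,0,[]),
  ([([(9,[(18,21),(11,13),(11,11)]),(7,[(22,28)])],[]),([(6,[(16,21)])],[6,6,5,4,3,2,1])],3,2,[]),
  ([([(8,[(18,21),(12,13)]),(7,[(22,28)])],[]),([(6,[(16,21)]),(5,[(11,13)])],[6])],2,1,[]),
  ([([(7,[(22,28)]),(6,[(16,21)])],[]),([(6,[(18,21)]),(5,[(14,15)])],[6])],5,9,[6,10]),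
  ([([(7,[(22,28)]),(7,[(18,21),(6,6)])],[]),([(6,[(16,21)]),(5,[(14,15)])],[])],5,4,[]),
  ([([(8,[(16,21),(14,15)]),(7,[(22,28)])],[]),([(6,[(18,21)]),(4,[(7,10)])],[6,5])],4,3,[]),
  ([([(7,[(22,28)]),(6,[(16,21)])],[]),([(6,[(18,21)]),(6,[(16,21)])],[])],5,7,[6,8]),
  ([([(7,[(22,28)]),(7,[(18,21),(6,6)])],[]),([(6,[(16,21)]),(6,[(16,21)])],[6])],3,2,[]),
  ([([(7,[(22,28)]),(6,[(16,21)])],[]),([(6,[(18,21)]),(6,[(16,21)]),(4,[(7,8)])],[4,3])],2,1,[]),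
  ([([(7,[(22,28)]),(7,[(22,28)])],[])],10,4,[15,21,28]),
  ([([(7,[(22,28)]),(7,[(22,28)])],[]),([(5,[(11,15)])],[4,3,2,1])],6,11,[10,15]),
  ([([(7,[(22,28)]),(7,[(22,28)])],[]),([(5,[(11,15)]),(4,[(7,10)])],[])],6,11,[10]),
  ([([(7,[(22,28)]),(7,[(22,28)])],[]),([(5,[(11,15)]),(4,[(7,10)]),(4,[(7,10)])],[4,3,2])],6,3,[10]),
  ([([(7,[(22,28)]),(7,[(22,28)])],[]),([(5,[(11,15)]),(4,[(7,10)]),(4,[(7,10)]),(4,[(7,10)])],[])],6,3,[]),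
  ([([(7,[(22,28)]),(7,[(22,28)])],[]),([(5,[(11,15)]),(5,[(11,15)])],[5])],5,13,[6,10,14]),
  ([([(7,[(22,28)]),(7,[(22,28)])],[]),([(5,[(11,15)]),(5,[(11,15)]),(3,[(6,6)])],[5,3,2])],6,1,[]),
  ([([(7,[(22,28)]),(7,[(22,28)])],[]),([(5,[(11,15)]),(5,[(11,15)]),(4,[(7,10)])],[5,4,3,2])],6,1,[8]),
  ([([(7,[(22,28)]),(7,[(22,28)])],[]),([(5,[(11,15)]),(5,[(11,15)]),(4,[(7,10)])],[5,4,3,2]),([(4,[(7,8)])],[3,3,3,2,2,2,1,1,1])],2,1,[]),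
  ([([(7,[(22,28)]),(7,[(22,28)])],[]),([(5,[(11,15)]),(5,[(11,15)]),(5,[(11,14)])],[4,3,2])],4,3,[]),
  ([([(7,[(22,28)]),(7,[(22,28)])],[]),([(6,[(16,21)])],[5,4,3,2,1])],5,13,[6,10,15,19]),
  ([([(7,[(22,28)]),(7,[(22,28)])],[]),([(6,[(16,21)]),(3,[(6,6)])],[5,4])],5,13,[6]),
  ([([(7,[(22,28)]),(7,[(22,28)])],[]),([(6,[(16,21)]),(5,[(6,6),(6,6)])],[])],5,8,[6]),
  ([([(7,[(22,28)]),(7,[(22,28)])],[]),([(6,[(16,21)]),(6,[(6,6),(6,6),(6,6)])],[6])],4,3,[]),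
  ([([(7,[(22,28)]),(7,[(22,28)])],[]),([(6,[(16,21)]),(4,[(7,10)])],[5])],5,12,[6,10]),
  ([([(7,[(22,28)]),(7,[(22,28)])],[]),([(6,[(16,21)]),(4,[(7,10)]),(3,[(6,6)])],[5,3,2])],5,7,[6]),
  ([([(7,[(22,28)]),(7,[(22,28)])],[]),([(6,[(16,21)]),(5,[(6,6),(6,6)]),(4,[(7,10)])],[4,3,2])],3,2,[]),
  ([([(7,[(22,28)]),(7,[(22,28)])],[]),([(6,[(16,21)]),(4,[(7,10)]),(4,[(7,10)])],[5,4,3,2])],5,5,[6,7]),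
  ([([(7,[(22,28)]),(7,[(22,28)])],[]),([(6,[(16,21)]),(4,[(7,10)]),(4,[(7,10)])],[5,4,3,2]),([(3,[(6,6)])],[3,3,3,3,2,2,2,1,1,1])],2,1,[]),
  ([([(11,[(7,10),(7,10)]),(7,[(22,28)])],[]),([(7,[(22,28)]),(7,[(16,21),(7,7)])],[7,7,7])],1,0,[]),
  ([([(7,[(22,28)]),(7,[(22,28)])],[]),([(6,[(16,21)]),(5,[(11,15)])],[])],5,8,[6,9]),
  ([([(7,[(22,28)]),(7,[(22,28)])],[]),([(6,[(16,21)]),(6,[(11,15),(6,6)])],[6])],4,3,[]),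
  ([([(7,[(22,28)]),(7,[(22,28)])],[]),([(6,[(16,21)]),(5,[(11,15)]),(4,[(7,9)])],[4,3,2])],3,2,[]),
  ([([(7,[(22,28)]),(7,[(22,28)])],[]),([(6,[(16,21)]),(6,[(16,19)])],[6])],4,3,[]),
  ([([(7,[(22,28)]),(7,[(22,28)])],[]),([(7,[(22,28)])],[6,5,4,3,2,1])],4,12,[6,10,13]),
  ([([(7,[(22,28)]),(7,[(22,28)])],[]),([(7,[(22,28)]),(3,[(5,6)])],[6,5,4])],4,8,[6]),
  ([([(7,[(22,28)]),(7,[(22,28)])],[]),([(7,[(22,28)]),(7,[(5,6),(5,6)])],[7])],4,1,[5]),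
  ([([(7,[(22,28)]),(7,[(22,28)])],[]),([(7,[(22,28)]),(7,[(5,6),(5,6),(5,5)])],[7])],1,0,[]),
  ([([(7,[(22,28)]),(7,[(22,28)])],[]),([(7,[(22,28)]),(4,[(7,10)])],[6,5])],4,6,[6,7]),
  ([([(7,[(22,28)]),(7,[(22,28)])],[]),([(7,[(22,28)]),(4,[(7,10)]),(3,[(5,6)])],[6,5,3,2])],3,2,[]),
  ([([(10,[(7,10),(7,7)]),(7,[(22,28)])],[]),([(7,[(22,28)]),(7,[(22,28)])],[7,7])],1,0,[]),
  ([([(7,[(22,28)]),(7,[(22,28)])],[]),([(7,[(22,28)]),(5,[(11,13)])],[6])],3,2,[]),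
  ([([(8,[(29,36)])],[])],10,9,[15,21,28,36]), ([([(8,[(29,36)]),(5,[(11,15)])],[])],10,4,[15]),
  ([([(8,[(29,36)]),(5,[(11,15)]),(5,[(11,15)])],[])],10,4,[15]),
  ([([(8,[(29,36)]),(5,[(11,15)]),(5,[(11,15)])],[]),([(5,[(11,15)])],[5,5,5,3,1])],5,11,[6,10,15]),
  ([([(8,[(29,36)]),(6,[(11,15),(6,6)])],[]),([(5,[(11,15)]),(5,[(11,15)])],[5])],5,12,[6]),
  ([([(8,[(29,36)]),(6,[(11,15),(6,6)])],[]),([(5,[(11,15)]),(5,[(11,15)]),(3,[(6,6)])],[5,3,2])],5,7,[6]),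
  ([([(8,[(29,36)]),(6,[(11,15),(6,6)])],[]),([(6,[(11,15),(6,6)]),(6,[(11,15),(6,6)])],[6])],3,2,[]),
  ([([(8,[(29,36)]),(5,[(11,15)]),(5,[(11,15)])],[]),([(5,[(11,15)]),(4,[(7,10)])],[5,5,5,4,3,2,1])],5,5,[6,10]),
  ([([(8,[(29,36)]),(6,[(11,15),(6,6)])],[]),([(5,[(11,15)]),(5,[(11,15)]),(4,[(7,10)])],[5,4,3,2])],5,5,[6]),
  ([([(8,[(29,36)]),(6,[(11,15),(6,6)])],[]),([(5,[(11,15)]),(5,[(11,15)]),(4,[(7,10)])],[5,4,3,2]),([(3,[(6,6)])],[3,3,3,3,2,2,2,1,1,1])],2,1,[]),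
  ([([(8,[(29,36)]),(5,[(11,15)]),(5,[(11,15)])],[]),([(5,[(11,15)]),(4,[(7,10)]),(4,[(7,10)])],[5,5,5])],5,5,[6]),
  ([([(8,[(29,36)]),(6,[(11,15),(6,6)])],[]),([(5,[(11,15)]),(5,[(11,15)]),(4,[(7,10)])],[5,4,3,2]),([(4,[(7,10)])],[4,4,4,4,3,3,3,2,2,2,1,1])],1,0,[]),
  ([([(8,[(29,36)]),(5,[(11,15)]),(5,[(11,15)])],[]),([(5,[(11,15)]),(5,[(11,15)])],[5,5,4,3,2,1])],5,5,[6,8]),
  ([([(8,[(29,36)]),(6,[(11,15),(6,6)])],[]),([(5,[(11,15)]),(5,[(11,15)]),(5,[(11,15)])],[4,3,2])],3,2,[]),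
  ([([(8,[(29,36)]),(5,[(11,15)]),(5,[(11,15)])],[]),([(5,[(11,15)]),(5,[(11,15)]),(4,[(7,8)])],[5,5])],2,1,[]),
  ([([(8,[(29,36)]),(6,[(16,21)])],[])],10,3,[15,21]),
  ([([(8,[(29,36)]),(6,[(16,21)])],[]),([(5,[(11,15)])],[5,5,4,3,2,1])],5,13,[6,10,15]),
  ([([(8,[(29,36)]),(6,[(16,21)])],[]),([(5,[(11,15)]),(3,[(6,6)])],[5,5,4])],5,13,[6]),
  ([([(8,[(29,36)]),(6,[(16,21)])],[]),([(5,[(11,15)]),(5,[(6,6),(6,6)])],[5])],5,12,[6]),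
  ([([(8,[(29,36)]),(6,[(16,21)])],[]),([(5,[(11,15)]),(5,[(6,6),(6,6)]),(3,[(6,6)])],[5,3,2])],5,7,[6]),
  ([([(8,[(29,36)]),(6,[(16,21)])],[]),([(6,[(11,15),(6,6)]),(6,[(6,6),(6,6),(6,6)])],[6])],3,2,[]),
  ([([(8,[(29,36)]),(6,[(16,21)])],[]),([(5,[(11,15)]),(4,[(7,10)])],[5,5])],5,13,[6,8,10]),
  ([([(8,[(29,36)]),(6,[(16,21)])],[]),([(5,[(11,15)]),(4,[(7,10)]),(3,[(6,6)])],[5,5,3,2])],5,7,[6]),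
  ([([(8,[(29,36)]),(6,[(16,21)])],[]),([(5,[(11,15)]),(5,[(6,6),(6,6)]),(4,[(7,10)])],[5,4,3,2])],5,5,[6]),
  ([([(10,[(7,10),(6,6),(6,6)]),(8,[(29,36)])],[]),([(6,[(16,21)]),(6,[(11,15),(6,6)])],[6])],2,1,[]),
  ([([(8,[(29,36)]),(6,[(16,21)])],[]),([(5,[(11,15)]),(4,[(7,10)]),(4,[(7,8)])],[5,5,4,3,2])],5,5,[6,8]),
  ([([(8,[(29,36)]),(6,[(16,21)])],[]),([(5,[(11,15)]),(5,[(7,8),(6,6)]),(4,[(7,10)])],[5,4,3,2])],5,5,[6]),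
  ([([(10,[(7,10),(7,8),(6,6)]),(8,[(29,36)])],[]),([(6,[(16,21)]),(6,[(11,15),(6,6)])],[6])],1,0,[]),
  ([([(10,[(7,10),(7,8),(7,8)]),(8,[(29,36)])],[]),([(6,[(16,21)]),(5,[(11,15)])],[6,6])],2,4,[3,5]),
  ([([(10,[(7,10),(7,8),(7,8),(3,3)]),(8,[(29,36)])],[]),([(6,[(16,21)]),(5,[(11,15)])],[6,6])],2,2,[3]),
  ([([(10,[(7,10),(7,8),(7,8),(3,3),(3,3)]),(8,[(29,36)])],[]),([(6,[(16,21)]),(5,[(11,15)])],[6,6])],1,0,[]),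
  ([([(10,[(7,10),(7,8),(7,8),(4,5)]),(8,[(29,36)])],[]),([(6,[(16,21)]),(5,[(11,15)])],[6,6])],2,1,[]),
  ([([(8,[(29,36)]),(6,[(16,21)])],[]),([(5,[(11,15)]),(4,[(7,10)]),(4,[(9,10)])],[5,5,4,3,2])],5,5,[6,9]),
  ([([(8,[(29,36)]),(6,[(16,21)])],[]),([(5,[(11,15)]),(4,[(7,10)]),(4,[(9,10)])],[5,5,4,3,2]),([(3,[(6,6)])],[3,3,3,3,2,2,2,1,1,1])],2,3,[3,4]),
  ([([(8,[(29,36)]),(6,[(16,21)])],[]),([(5,[(11,15)]),(5,[(9,10),(3,3)]),(4,[(7,10)])],[5,4,3,2]),([(3,[(6,6)])],[3,3,3,3,2,2,2,1,1,1])],2,1,[]),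
  ([([(8,[(29,36)]),(6,[(16,21)])],[]),([(6,[(11,15),(6,6)]),(5,[(9,10),(4,4)])],[6,6]),([(4,[(7,10)])],[4,4,4,4,4,4,4,4,4,4,4,4,4,4])],1,0,[]),
  ([([(8,[(29,36)]),(6,[(16,21)])],[]),([(5,[(11,15)]),(4,[(7,10)]),(4,[(9,10)])],[5,5,4,3,2]),([(4,[(7,9)])],[4,4,4,4,3,3,3,2,2,2,1,1])],1,2,[3]),
  ([([(8,[(29,36)]),(6,[(16,21)])],[]),([(5,[(11,15)]),(4,[(7,10)]),(4,[(9,10)])],[5,5,4,3,2]),([(4,[(7,9)]),(2,[(2,3)])],[4,4,4,4,3,3,3,2,2,1])],1,1,[2]),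
  ([([(8,[(29,36)]),(6,[(16,21)])],[]),([(5,[(11,15)]),(5,[(9,10),(2,3),(2,2)]),(4,[(7,10)])],[5,4,3,2]),([(4,[(7,9)])],[4,4,4,4,3,3,3,2,2,2,1,1])],1,0,[]),
  ([([(8,[(29,36)]),(6,[(16,21)])],[]),([(5,[(11,15)]),(5,[(11,15)])],[5])],5,12,[6,10,13]),
  ([([(8,[(29,36)]),(6,[(16,21)])],[]),([(5,[(11,15)]),(5,[(11,15)]),(3,[(6,6)])],[5,3,2])],5,7,[6]),
  ([([(8,[(29,36)]),(6,[(16,21)])],[]),([(6,[(11,15),(6,6)]),(6,[(11,15),(6,6)])],[6])],3,2,[]),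
  ([([(8,[(29,36)]),(6,[(16,21)])],[]),([(5,[(11,15)]),(5,[(11,15)]),(4,[(7,10)])],[5,4,3,2])],5,5,[6,7]),
  ([([(8,[(29,36)]),(6,[(16,21)])],[]),([(5,[(11,15)]),(5,[(11,15)]),(4,[(7,10)])],[5,4,3,2]),([(3,[(6,6)])],[3,3,3,3,2,2,2,1,1,1])],2,1,[]),
  ([([(8,[(29,36)]),(7,[(16,21),(7,7)])],[]),([(5,[(11,15)]),(5,[(11,15)]),(4,[(7,10)])],[4,3,2])],1,0,[]),
  ([([(8,[(29,36)]),(6,[(16,21)])],[]),([(5,[(11,15)]),(5,[(11,15)]),(5,[(11,13)])],[4,3,2])],3,2,[]),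
  ([([(8,[(29,36)]),(6,[(16,21)])],[]),([(6,[(16,21)])],[6,6,5,4,3,2,1])],4,15,[6,10,15,18]),
  ([([(8,[(29,36)]),(6,[(16,21)])],[]),([(6,[(16,21)]),(3,[(5,6)])],[6,6,5,4])],4,13,[6]),
  ([([(8,[(29,36)]),(7,[(5,6),(5,6)])],[]),([(6,[(16,21)]),(6,[(16,21)])],[])],4,9,[6]),
  ([([(8,[(29,36)]),(7,[(5,6),(5,6),(5,6)])],[]),([(6,[(16,21)]),(6,[(16,21)])],[])],4,5,[6]),
  ([([(8,[(29,36)]),(8,[(5,6),(5,6),(5,6),(5,6)])],[]),([(6,[(16,21)]),(6,[(16,21)])],[6])],2,1,[]),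
  ([([(8,[(29,36)]),(6,[(16,21)])],[]),([(6,[(16,21)]),(4,[(7,10)])],[6,6,5])],4,11,[6,8,9,10]),
  ([([(8,[(29,36)]),(6,[(16,21)])],[]),([(6,[(16,21)]),(4,[(7,10)]),(3,[(5,6)])],[6,6,5,3,2])],4,7,[6]),
  ([([(10,[(7,10),(5,6),(5,6)]),(8,[(29,36)])],[]),([(6,[(16,21)]),(6,[(16,21)])],[6])],2,3,[3,4]),
  ([([(10,[(7,10),(5,6),(5,6),(3,3)]),(8,[(29,36)])],[]),([(6,[(16,21)]),(6,[(16,21)])],[6])],2,1,[]),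
  ([([(10,[(7,10),(5,6),(5,6),(4,4)]),(8,[(29,36)])],[]),([(6,[(16,21)]),(6,[(16,21)])],[6])],1,0,[]),
  ([([(10,[(7,10),(7,8)]),(8,[(29,36)])],[]),([(6,[(16,21)]),(6,[(16,21)])],[6])],2,5,[3,6]),
  ([([(10,[(7,10),(7,8),(3,3)]),(8,[(29,36)])],[]),([(6,[(16,21)]),(6,[(16,21)])],[6])],2,3,[3]),
  ([([(10,[(7,10),(7,8),(3,3),(3,3)]),(8,[(29,36)])],[]),([(6,[(16,21)]),(6,[(16,21)])],[6])],2,1,[]),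
  ([([(10,[(7,10),(7,8),(4,6)]),(8,[(29,36)])],[]),([(6,[(16,21)]),(6,[(16,21)])],[6])],2,2,[3]),
  ([([(10,[(7,10),(7,8),(4,6),(3,3)]),(8,[(29,36)])],[]),([(6,[(16,21)]),(6,[(16,21)])],[6])],1,0,[]),
  ([([(9,[(29,36),(9,9)]),(6,[(16,21)])],[]),([(6,[(16,21)]),(4,[(7,10)])],[6,6,6,5])],3,3,[4]),
  ([([(9,[(29,36),(9,9)]),(6,[(16,21)])],[]),([(6,[(16,21)]),(4,[(7,10)])],[6,6,6,5]),([(3,[(4,4)])],[3,3,3,3,3,3,3,3,3,3,3,3,3,3,3])],1,0,[]),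
  ([([(8,[(29,36)]),(6,[(16,21)])],[]),([(6,[(16,21)]),(6,[(7,10),(10,10)])],[6])],3,2,[]),
  ([([(8,[(29,36)]),(6,[(16,21)])],[]),([(6,[(16,21)]),(5,[(11,15)])],[6,6])],4,7,[6,7,8]),
  ([([(8,[(29,36)]),(6,[(16,21)])],[]),([(6,[(16,21)]),(5,[(11,15)]),(3,[(5,6)])],[6,6,3,2])],4,3,[]),
  ([([(8,[(29,36)]),(7,[(16,21),(7,7)])],[]),([(6,[(16,21)]),(5,[(11,15)])],[6])],2,1,[]),
  ([([(8,[(29,36)]),(6,[(16,21)])],[]),([(6,[(16,21)]),(5,[(11,15)])],[6,6]),([(4,[(8,8)])],[4,4,4,4,4,4,4,4,4,4,4,4,4,4])],1,0,[]),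
  ([([(8,[(29,36)]),(6,[(16,21)])],[]),([(6,[(16,21)]),(6,[(16,18)])],[6])],3,2,[]),
  ([([(8,[(29,36)]),(7,[(22,28)])],[])],10,2,[15,21,27]),
  ([([(8,[(29,36)]),(7,[(22,28)])],[]),([(5,[(11,15)])],[5,4,3,2,1])],5,12,[6,10,15]),
  ([([(8,[(29,36)]),(7,[(22,28)])],[]),([(5,[(11,15)]),(3,[(6,6)])],[5,4])],5,11,[6]),
  ([([(8,[(29,36)]),(7,[(22,28)])],[]),([(5,[(11,15)]),(5,[(6,6),(6,6)])],[])],5,6,[6]),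
  ([([(8,[(29,36)]),(7,[(22,28)])],[]),([(6,[(11,15),(6,6)]),(5,[(6,6),(6,6)])],[6])],2,1,[]),
  ([([(8,[(29,36)]),(7,[(22,28)])],[]),([(5,[(11,15)]),(4,[(7,10)])],[5])],5,10,[6,10]),
  ([([(8,[(29,36)]),(7,[(22,28)])],[]),([(5,[(11,15)]),(4,[(7,10)]),(3,[(6,6)])],[5,3,2,1])],5,5,[6]),
  ([([(10,[(7,10),(6,6)]),(8,[(29,36)])],[]),([(7,[(22,28)]),(6,[(11,15),(6,6)])],[7,7])],1,0,[]),
  ([([(8,[(29,36)]),(7,[(22,28)])],[]),([(5,[(11,15)]),(4,[(7,10)]),(4,[(7,10)])],[5,4,3,2])],5,4,[]),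
  ([([(8,[(29,36)]),(7,[(22,28)])],[]),([(5,[(11,15)]),(5,[(11,15)])],[])],5,6,[6,7]),
  ([([(8,[(29,36)]),(7,[(22,28)])],[]),([(6,[(11,15),(6,6)]),(5,[(11,15)])],[6])],2,1,[]),
  ([([(8,[(29,36)]),(7,[(22,28)])],[]),([(5,[(11,15)]),(5,[(11,15)]),(4,[(7,7)])],[4,3,2])],1,0,[]),
  ([([(8,[(29,36)]),(7,[(22,28)])],[]),([(6,[(16,21)])],[6,5,4,3,2,1])],4,11,[6,10,12]),
  ([([(8,[(29,36)]),(7,[(22,28)])],[]),([(6,[(16,21)]),(3,[(5,6)])],[6,5,4])],4,7,[6]),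
  ([([(8,[(29,36)]),(7,[(22,28)])],[]),([(6,[(16,21)]),(3,[(5,6)]),(3,[(5,6)])],[6,5,4,3,2])],4,3,[]),
  ([([(8,[(29,36)]),(7,[(22,28)])],[]),([(6,[(16,21)]),(4,[(7,10)])],[6,5])],4,5,[6]),
  ([([(8,[(29,36)]),(7,[(22,28)])],[]),([(6,[(16,21)]),(4,[(7,10)]),(3,[(5,6)])],[6,5,3,2])],2,1,[]),
  ([([(8,[(29,36)]),(7,[(22,28)])],[]),([(6,[(16,21)]),(5,[(11,12)])],[6])],2,1,[]),
  ([([(8,[(29,36)]),(7,[(22,28)])],[]),([(7,[(22,27)])],[7,6,5,4,3,2,1])],3,5,[6]),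
  ([([(8,[(29,36)]),(7,[(22,28)])],[]),([(7,[(22,27)]),(3,[(4,6)])],[7,6,5,4])],3,2,[]),
  ([([(8,[(29,36)]),(8,[(29,36)])],[])],9,4,[10,15,20]),
  ([([(8,[(29,36)]),(8,[(29,36)])],[]),([(4,[(10,10)])],[3,2,1])],6,9,[10]),
  ([([(8,[(29,36)]),(8,[(29,36)])],[]),([(4,[(10,10)]),(4,[(7,10)])],[4])],5,4,[]),
  ([([(8,[(29,36)]),(8,[(29,36)])],[]),([(5,[(11,15)])],[4,3,2,1])],5,9,[6,10]),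
  ([([(8,[(29,36)]),(8,[(29,36)])],[]),([(5,[(11,15)]),(3,[(6,6)])],[4])],5,4,[]),
  ([([(8,[(29,36)]),(8,[(29,36)])],[]),([(5,[(11,15)]),(4,[(7,10)])],[])],4,3,[]),
  ([([(8,[(29,36)]),(8,[(29,36)])],[]),([(6,[(16,20)])],[5,4,3,2,1])],4,4,[5]),
  ([([(8,[(29,36)]),(8,[(29,36)])],[]),([(6,[(16,20)]),(3,[(5,5)])],[5,4])],1,0,[]),
  ([([(9,[(37,45)])],[])],9,10,[10,15,21,28,36,40]),
  ([([(9,[(37,45)]),(4,[(10,10)])],[])],9,6,[10]),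
  ([([(9,[(37,45)]),(6,[(10,10),(10,10)])],[])],9,4,[10]),
  ([([(10,[(37,45),(10,10)]),(6,[(10,10),(10,10)])],[])],8,5,[10]),
  ([([(9,[(37,45)]),(6,[(10,10),(10,10)])],[]),([(4,[(10,10)]),(4,[(9,10)])],[4,4])],5,4,[]),
  ([([(9,[(37,45)]),(5,[(11,15)])],[])],9,5,[10,15]),
  ([([(9,[(37,45)]),(5,[(11,15)]),(4,[(10,10)])],[])],9,5,[10]),
  ([([(9,[(37,45)]),(8,[(11,15),(10,10),(10,10)])],[])],9,2,[10]),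
  ([([(10,[(37,45),(10,10)]),(8,[(11,15),(10,10),(10,10)])],[])],3,2,[]),
  ([([(9,[(37,45)]),(5,[(11,15)])],[]),([(5,[(11,15)])],[5,5,5,5,4,3,2,1])],4,15,[6,8,9,10,12,14,15]),
  ([([(9,[(37,45)]),(5,[(11,15)])],[]),([(5,[(11,15)]),(3,[(5,6)])],[5,5,5,5,4])],4,15,[6]),
  ([([(9,[(37,45)]),(7,[(5,6),(5,6)])],[]),([(5,[(11,15)]),(5,[(11,15)])],[5])],4,11,[6]),
  ([([(9,[(37,45)]),(7,[(5,6),(5,6),(5,6)])],[]),([(5,[(11,15)]),(5,[(11,15)])],[5])],4,7,[6]),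
  ([([(9,[(37,45)]),(8,[(5,6),(5,6),(5,6),(5,6)])],[]),([(5,[(11,15)]),(5,[(11,15)])],[])],4,3,[]),
  ([([(9,[(37,45)]),(5,[(11,15)])],[]),([(5,[(11,15)]),(4,[(7,8)])],[5,5,5,5])],4,13,[6,8]),
  ([([(9,[(37,45)]),(5,[(11,15)])],[]),([(5,[(11,15)]),(5,[(7,8),(5,6)])],[5,5,5])],4,9,[6]),
  ([([(9,[(37,45)]),(8,[(7,8),(5,6),(5,6)])],[]),([(5,[(11,15)]),(5,[(11,15)])],[])],4,5,[6]),
  ([([(9,[(37,45)]),(8,[(7,8),(5,6),(5,6),(5,6)])],[]),([(5,[(11,15)]),(5,[(11,15)])],[])],2,1,[]),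
  ([([(9,[(37,45)]),(9,[(7,8),(7,8)])],[]),([(5,[(11,15)]),(5,[(11,15)])],[5])],3,7,[6,8]),
  ([([(9,[(37,45)]),(9,[(7,8),(7,8),(4,6)])],[]),([(5,[(11,15)]),(5,[(11,15)])],[5])],4,1,[5]),
  ([([(9,[(37,45)]),(9,[(7,8),(7,8),(4,6),(5,5)])],[]),([(5,[(11,15)]),(5,[(11,15)])],[5])],1,0,[]),
  ([([(9,[(37,45)]),(9,[(7,8),(7,8),(7,8)])],[]),([(5,[(11,15)]),(5,[(11,15)])],[5])],2,1,[]),
  ([([(9,[(37,45)]),(5,[(11,15)])],[]),([(5,[(11,15)]),(4,[(9,9)])],[5,5,5,5])],4,11,[6,8,9]),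
  ([([(9,[(37,45)]),(5,[(11,15)])],[]),([(5,[(11,15)]),(5,[(9,9),(5,6)])],[5,5,5])],4,7,[6]),
  ([([(9,[(37,45)]),(6,[(9,9),(5,6),(5,6)])],[]),([(5,[(11,15)]),(5,[(11,15)])],[5,5])],4,3,[]),
  ([([(9,[(37,45)]),(9,[(9,9),(7,8)])],[]),([(5,[(11,15)]),(5,[(11,15)])],[5])],4,1,[6]),
  ([([(9,[(37,45)]),(9,[(9,9),(7,8),(5,6)])],[]),([(5,[(11,15)]),(5,[(11,15)])],[5])],2,1,[]),
  ([([(9,[(37,45)]),(6,[(9,9),(9,9)])],[]),([(5,[(11,15)]),(5,[(11,15)])],[5,5])],4,3,[]),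
  ([([(9,[(37,45)]),(5,[(11,15)])],[]),([(5,[(11,15)]),(4,[(10,10)])],[5,5,5,5])],4,10,[6,10]),
  ([([(9,[(37,45)]),(5,[(11,15)])],[]),([(5,[(11,15)]),(4,[(10,10)]),(3,[(5,6)])],[5,5,5,5,3,2])],4,6,[6]),
  ([([(10,[(37,45),(10,10)]),(7,[(5,6),(5,6)])],[]),([(5,[(11,15)]),(5,[(11,15)])],[5,5])],3,2,[]),
  ([([(9,[(37,45)]),(6,[(10,10),(7,10)])],[]),([(5,[(11,15)]),(5,[(11,15)])],[5,5])],4,4,[5]),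
  ([([(10,[(37,45),(10,10)]),(5,[(11,15)])],[]),([(5,[(11,15)]),(5,[(7,10),(5,5)])],[5,5,5,5])],1,0,[]),
  ([([(9,[(37,45)]),(5,[(11,15)])],[]),([(5,[(11,15)]),(5,[(11,12)])],[5,5,5])],4,9,[6,8,9,10]),
  ([([(9,[(37,45)]),(5,[(11,15)])],[]),([(5,[(11,15)]),(5,[(11,12)]),(3,[(5,6)])],[5,5,5,3,2])],4,5,[6]),
  ([([(9,[(37,45)]),(7,[(5,6),(5,6)])],[]),([(5,[(11,15)]),(5,[(11,15)]),(5,[(11,12)])],[4,3,2])],2,1,[]),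
  ([([(9,[(37,45)]),(6,[(11,12),(7,8)])],[]),([(5,[(11,15)]),(5,[(11,15)])],[5,5])],4,3,[]),
  ([([(9,[(37,45)]),(8,[(11,15),(11,12),(9,9)])],[]),([(5,[(11,15)])],[5,4,3,2,1])],2,1,[]),
  ([([(10,[(37,45),(10,10)]),(5,[(11,15)])],[]),([(5,[(11,15)]),(5,[(11,12)])],[5,5,5,5])],1,0,[]),
  ([([(9,[(37,45)]),(5,[(11,15)])],[]),([(5,[(11,15)]),(5,[(13,14)])],[5,5,5])],4,7,[6,7,8]),
  ([([(9,[(37,45)]),(6,[(13,14),(5,6)])],[]),([(5,[(11,15)]),(5,[(11,15)])],[5,5])],4,3,[]),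
  ([([(9,[(37,45)]),(8,[(11,15),(13,14),(7,7)])],[]),([(5,[(11,15)])],[5,4,3,2,1])],2,1,[]),
  ([([(9,[(37,45)]),(5,[(11,15)])],[]),([(5,[(11,15)]),(5,[(13,14)])],[5,5,5]),([(4,[(8,8)])],[4,4,4,4,4,4,4,4,4,4,4,4,4,4])],1,0,[]),
  ([([(9,[(37,45)]),(5,[(11,15)])],[]),([(5,[(11,15)]),(5,[(15,15)])],[5,5,5])],4,5,[6]),
  ([([(9,[(37,45)]),(8,[(11,15),(15,15),(5,6)])],[]),([(5,[(11,15)])],[5,4,3,2,1])],2,1,[]),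
  ([([(9,[(37,45)]),(6,[(16,21)])],[])],9,4,[10,15,21]),
  ([([(10,[(37,45),(10,10)]),(6,[(16,21)])],[])],8,5,[10]),
  ([([(9,[(37,45)]),(6,[(16,21)])],[]),([(4,[(10,10)]),(4,[(9,10)])],[4,4])],5,7,[6,8]),
  ([([(10,[(37,45),(10,10)]),(6,[(16,21)])],[]),([(4,[(9,10)]),(3,[(6,6)])],[4,4,4,4])],3,2,[]),
  ([([(10,[(37,45),(10,10)]),(6,[(16,21)])],[]),([(4,[(9,10)]),(4,[(7,8)])],[4,4,4])],2,1,[]),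
  ([([(9,[(37,45)]),(6,[(16,21)])],[]),([(5,[(11,15)])],[5,5,5,4,3,2,1])],4,14,[6,8,10,15]),
  ([([(9,[(37,45)]),(6,[(16,21)])],[]),([(5,[(11,15)]),(3,[(5,6)])],[5,5,5,4])],4,10,[6]),
  ([([(9,[(37,45)]),(6,[(16,21)])],[]),([(5,[(11,15)]),(3,[(5,6)]),(3,[(5,6)])],[5,5,5,4,3,2])],4,6,[6]),
  ([([(9,[(37,45)]),(7,[(5,6),(5,6),(5,6)])],[]),([(6,[(16,21)]),(5,[(11,15)])],[6,6])],3,2,[]),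
  ([([(9,[(37,45)]),(6,[(16,21)])],[]),([(5,[(11,15)]),(4,[(7,8)])],[5,5,5])],4,8,[6,8]),
  ([([(9,[(37,45)]),(6,[(16,21)])],[]),([(5,[(11,15)]),(5,[(7,8),(5,6)])],[5,5])],4,4,[5]),
  ([([(9,[(37,45)]),(8,[(7,8),(5,6),(5,5)])],[]),([(6,[(16,21)]),(5,[(11,15)])],[6])],1,0,[]),
  ([([(9,[(37,45)]),(9,[(7,8),(7,8)])],[]),([(6,[(16,21)]),(5,[(11,15)])],[])],3,2,[]),
  ([([(9,[(37,45)]),(6,[(16,21)])],[]),([(5,[(11,15)]),(4,[(9,10)])],[5,5,5])],4,6,[6,7]),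
  ([([(9,[(37,45)]),(6,[(16,21)])],[]),([(5,[(11,15)]),(4,[(9,10)]),(3,[(5,6)])],[5,5,5,3,2])],3,2,[]),
  ([([(9,[(37,45)]),(7,[(16,21),(7,7)])],[]),([(5,[(11,15)]),(4,[(9,10)])],[5,5])],1,0,[]),
  ([([(9,[(37,45)]),(6,[(16,21)])],[]),([(5,[(11,15)]),(5,[(11,15)])],[5,5])],4,4,[5]),
  ([([(9,[(37,45)]),(6,[(16,21)])],[]),([(5,[(11,15)]),(5,[(11,15)]),(3,[(5,5)])],[5,5,3,2])],1,0,[]),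
  ([([(9,[(37,45)]),(6,[(16,21)])],[]),([(6,[(16,21)])],[6,6,6,5,4,3,2,1])],3,9,[6,10]),
  ([([(9,[(37,45)]),(6,[(16,21)])],[]),([(6,[(16,21)]),(3,[(4,6)])],[6,6,6,5,4])],3,6,[6]),
  ([([(9,[(37,45)]),(7,[(4,6),(4,6)])],[]),([(6,[(16,21)]),(6,[(16,21)])],[6])],3,3,[4]),
  ([([(9,[(37,45)]),(7,[(4,6),(4,6),(4,4)])],[]),([(6,[(16,21)]),(6,[(16,21)])],[6])],1,0,[]),
  ([([(9,[(37,45)]),(6,[(16,21)])],[]),([(6,[(16,21)]),(4,[(7,10)])],[6,6,6,5])],3,3,[4]),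
  ([([(9,[(37,45)]),(6,[(16,21)])],[]),([(6,[(16,21)]),(4,[(7,10)])],[6,6,6,5]),([(3,[(4,4)])],[3,3,3,3,3,3,3,3,3,3,3,3,3,3,3])],1,0,[]),
  ([([(9,[(37,45)]),(7,[(22,28)])],[])],9,3,[10,15,19]),
  ([([(10,[(37,45),(10,10)]),(7,[(22,28)])],[])],8,4,[10]),
  ([([(10,[(37,45),(10,10)]),(7,[(22,28)])],[]),([(4,[(9,10)])],[4,4,4,3,2,1])],2,1,[]),
  ([([(9,[(37,45)]),(7,[(22,28)])],[]),([(5,[(11,15)])],[5,5,4,3,2,1])],4,8,[6,9]),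
  ([([(9,[(37,45)]),(7,[(22,28)])],[]),([(5,[(11,15)]),(3,[(5,6)])],[5,5,4])],4,4,[5]),
  ([([(9,[(37,45)]),(7,[(22,28)])],[]),([(6,[(5,6),(5,5)]),(5,[(11,15)])],[6,6])],1,0,[]),
  ([([(9,[(37,45)]),(7,[(22,28)])],[]),([(5,[(11,15)]),(4,[(7,9)])],[5,5])],3,2,[]),
  ([([(9,[(37,45)]),(7,[(22,28)])],[]),([(6,[(16,19)])],[6,6,5,4,3,2,1])],3,3,[4]),
  ([([(9,[(37,45)]),(7,[(22,28)])],[]),([(6,[(16,19)]),(3,[(4,4)])],[6,6,5,4])],1,0,[]),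
  ([([(9,[(37,45)]),(8,[(29,36)])],[])],9,2,[10,12]),
  ([([(10,[(37,45),(10,10)]),(8,[(29,36)])],[])],3,2,[]),
  ([([(9,[(37,45)]),(8,[(29,36)])],[]),([(5,[(11,12)])],[5,4,3,2,1])],2,1,[]),
  ([([(9,[(37,45)]),(9,[(37,40)])],[])],4,3,[]), ([([(10,[(46,55)])],[])],8,11,[10,15,21,28,31]),
  ([([(10,[(46,55)]),(4,[(9,10)])],[])],8,7,[10]),
  ([([(10,[(46,55)]),(6,[(9,10),(9,10)])],[])],8,5,[10]),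
  ([([(10,[(46,55)]),(6,[(9,10),(9,10)])],[]),([(4,[(9,10)])],[4,4,4,4,3,2,1])],4,6,[6,7]),
  ([([(10,[(46,55)]),(8,[(9,10),(9,10),(9,10),(5,6)])],[])],3,2,[]),
  ([([(10,[(46,55)]),(7,[(9,10),(9,10),(7,7)])],[]),([(4,[(9,10)])],[4,4,4,3,2,1])],1,0,[]),
  ([([(10,[(46,55)]),(5,[(11,15)])],[])],8,6,[10,15]),
  ([([(10,[(46,55)]),(5,[(11,15)])],[]),([(4,[(9,10)])],[4,4,4,4,4,3,2,1])],4,12,[6,10]),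
  ([([(10,[(46,55)]),(5,[(11,15)])],[]),([(4,[(9,10)]),(3,[(5,6)])],[4,4,4,4,4])],4,8,[6]),
  ([([(10,[(46,55)]),(5,[(11,15)])],[]),([(4,[(9,10)]),(3,[(5,6)]),(3,[(5,6)])],[4,4,4,4,4,3,2])],4,4,[5]),
  ([([(10,[(46,55)]),(6,[(9,10),(5,6),(5,5)])],[]),([(5,[(11,15)]),(3,[(5,6)])],[5,5,5,5,4])],1,0,[]),
  ([([(10,[(46,55)]),(5,[(11,15)])],[]),([(4,[(9,10)]),(4,[(7,10)])],[4,4,4,4])],4,6,[6,7]),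
  ([([(10,[(46,55)]),(5,[(11,15)])],[]),([(4,[(9,10)]),(4,[(7,10)]),(3,[(5,6)])],[4,4,4,4,3,2])],3,2,[]),
  ([([(10,[(46,55)]),(5,[(11,15)])],[]),([(4,[(9,10)]),(4,[(7,10)]),(4,[(7,7)])],[4,4,4,3,2])],1,0,[]),
  ([([(10,[(46,55)]),(5,[(11,15)])],[]),([(5,[(11,15)])],[5,5,5,5,5,4,3,2,1])],3,10,[6,8,10,11]),
  ([([(10,[(46,55)]),(5,[(11,15)])],[]),([(5,[(11,15)]),(3,[(4,6)])],[5,5,5,5,5,4])],3,7,[6]),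
  ([([(10,[(46,55)]),(7,[(4,6),(4,6)])],[]),([(5,[(11,15)]),(5,[(11,15)])],[5,5])],3,4,[5]),
  ([([(10,[(46,55)]),(7,[(4,6),(4,6),(4,5)])],[]),([(5,[(11,15)]),(5,[(11,15)])],[5,5])],2,1,[]),
  ([([(10,[(46,55)]),(5,[(11,15)])],[]),([(5,[(11,15)]),(4,[(7,8)])],[5,5,5,5,5])],3,4,[5]),
  ([([(10,[(46,55)]),(8,[(7,8),(4,5)])],[]),([(5,[(11,15)]),(5,[(11,15)])],[5])],2,1,[]),
  ([([(10,[(46,55)]),(5,[(11,15)])],[]),([(5,[(11,15)]),(4,[(9,10)])],[5,5,5,5,5])],3,2,[]),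
  ([([(11,[(46,55),(11,11)]),(5,[(11,15)])],[]),([(5,[(11,15)])],[5,5,5,5,5,5,4,3,2,1])],1,0,[]),
  ([([(10,[(46,55)]),(6,[(16,21)])],[])],8,5,[10,15,16]),
  ([([(10,[(46,55)]),(6,[(16,21)])],[]),([(4,[(9,10)])],[4,4,4,4,3,2,1])],4,7,[6,8]),
  ([([(10,[(46,55)]),(6,[(16,21)])],[]),([(4,[(9,10)]),(3,[(5,6)])],[4,4,4,4])],4,3,[]),
  ([([(10,[(46,55)]),(6,[(16,21)])],[]),([(4,[(9,10)]),(4,[(7,8)])],[4,4,4])],2,1,[]),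
  ([([(10,[(46,55)]),(6,[(16,21)])],[]),([(5,[(11,15)])],[5,5,5,5,4,3,2,1])],3,5,[6]),
  ([([(10,[(46,55)]),(6,[(16,21)])],[]),([(5,[(11,15)]),(3,[(4,6)])],[5,5,5,5,4])],3,2,[]),
  ([([(10,[(46,55)]),(6,[(16,21)])],[]),([(6,[(16,16)])],[6,6,6,6,5,4,3,2,1])],1,0,[]),
  ([([(10,[(46,55)]),(7,[(22,28)])],[])],8,4,[10]),
  ([([(10,[(46,55)]),(7,[(22,28)])],[]),([(4,[(9,10)])],[4,4,4,3,2,1])],2,1,[]),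
  ([([(10,[(46,55)]),(8,[(29,31)])],[])],3,2,[]), ([([(11,[(56,66)])],[])],7,12,[10,15,21]),
  ([([(11,[(56,66)]),(4,[(8,10)])],[])],7,8,[10]),
  ([([(11,[(56,66)]),(4,[(8,10)])],[]),([(4,[(8,10)])],[4,4,4,4,4,4,4,3,2,1])],3,6,[6,7]),
  ([([(11,[(56,66)]),(4,[(8,10)])],[]),([(4,[(8,10)]),(3,[(4,6)])],[4,4,4,4,4,4,4])],3,3,[4]),
  ([([(11,[(56,66)]),(5,[(8,10),(4,4)])],[]),([(4,[(8,10)]),(3,[(4,6)])],[4,4,4,4,4,4])],1,0,[]),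
  ([([(11,[(56,66)]),(4,[(8,10)])],[]),([(4,[(8,10)]),(4,[(7,7)])],[4,4,4,4,4,4])],1,0,[]),
  ([([(11,[(56,66)]),(5,[(11,15)])],[])],7,7,[10,11]),
  ([([(11,[(56,66)]),(5,[(11,15)])],[]),([(4,[(8,10)])],[4,4,4,4,4,4,3,2,1])],3,3,[4]),
  ([([(11,[(56,66)]),(5,[(11,15)])],[]),([(5,[(8,10),(4,4)])],[5,5,5,5,5,5,4,3,2,1])],1,0,[]),
  ([([(11,[(56,66)]),(5,[(11,15)])],[]),([(5,[(11,11)])],[5,5,5,5,5,5,4,3,2,1])],1,0,[]),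
  ([([(11,[(56,66)]),(6,[(16,21)])],[])],6,5,[]), ([([(12,[(67,76)])],[])],6,9,[10]),
  ([([(12,[(67,76)]),(4,[(7,10)])],[])],4,3,[])]

theorem ki_18 : KC 18 75 := kc_of_itree it_18 (by decide +kernel)

end Pool.MP322
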