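import Pool.Agent.Lib.MP_322c5f_al.SG31

/-! (C), part 24: interval trees for `c = 19, 20, 22`. -/

set_option autoImplicit false

namespace Pool.MP322

def it_19 : List (List (List (ℕ × List (ℕ × ℕ)) × List ℕ) × ℕ × ℕ × List ℕ) := [
  ([],17,5,[21,28,36,45,55,66,78,81]), ([([(6,[(18,21)])],[])],13,7,[15,21]),
  ([([(6,[(18,21)]),(5,[(14,15)])],[])],12,6,[15]),
  ([([(6,[(18,21)]),(5,[(14,15)]),(5,[(13,15)])],[])],12,5,[15]),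
  ([([(8,[(18,21),(14,15)]),(5,[(13,15)]),(5,[(13,15)])],[])],11,4,[15]),
  ([([(9,[(14,15),(13,15),(12,15)]),(8,[(18,21),(13,15)])],[])],10,2,[15]),
  ([([(8,[(18,21),(14,15)]),(5,[(13,15)]),(5,[(13,15)])],[]),([(5,[(12,15)]),(5,[(11,15)])],[5,5,4,3,2,1])],6,5,[]),
  ([([(6,[(18,21)]),(6,[(16,21)])],[])],12,4,[15,21]),
  ([([(6,[(18,21)]),(6,[(16,21)]),(5,[(13,15)])],[])],12,4,[15]),
  ([([(8,[(18,21),(13,15)]),(6,[(16,21)]),(5,[(13,15)])],[])],11,3,[15]),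
  ([([(6,[(18,21)]),(6,[(16,21)]),(5,[(13,15)])],[]),([(5,[(13,15)]),(5,[(12,15)])],[5,4,3,2,1])],8,1,[10,14]),
  ([([(8,[(18,21),(13,15)]),(6,[(16,21)]),(5,[(13,15)])],[]),([(5,[(12,15)]),(4,[(9,10)])],[5,5,3,2,1])],6,5,[]),
  ([([(8,[(18,21),(13,15)]),(6,[(16,21)]),(5,[(13,15)])],[]),([(5,[(12,15)]),(5,[(11,14)])],[5,3,2,1])],4,3,[]),
  ([([(6,[(18,21)]),(6,[(16,21)]),(6,[(16,21)])],[])],12,3,[15,21]),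
  ([([(6,[(18,21)]),(6,[(16,21)]),(6,[(16,21)])],[]),([(5,[(13,15)])],[3,1])],8,8,[10,15]),
  ([([(6,[(18,21)]),(6,[(16,21)]),(6,[(16,21)])],[]),([(5,[(13,15)]),(4,[(9,10)])],[4,3,2,1])],8,2,[10]),
  ([([(6,[(18,21)]),(6,[(16,21)]),(6,[(16,21)])],[]),([(6,[(9,10),(9,10)]),(5,[(13,15)])],[5,4,3,2,1])],6,5,[]),
  ([([(6,[(18,21)]),(6,[(16,21)]),(6,[(16,21)])],[]),([(5,[(13,15)]),(5,[(11,15)])],[3,2,1])],8,1,[10,12]),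
  ([([(8,[(18,21),(13,15)]),(6,[(16,21)])],[]),([(6,[(16,21)]),(5,[(11,15)]),(4,[(9,10)])],[6,6,4,3])],4,3,[]),
  ([([(7,[(13,15),(11,12)]),(6,[(18,21)]),(6,[(16,21)])],[]),([(6,[(16,21)]),(5,[(11,15)])],[6,5,4,3,2,1])],2,1,[]),
  ([([(6,[(18,21)]),(6,[(16,21)]),(6,[(16,21)])],[]),([(6,[(16,21)])],[4,2])],7,10,[10,15,19]),
  ([([(6,[(18,21)]),(6,[(16,21)]),(6,[(16,21)])],[]),([(6,[(16,21)]),(4,[(8,10)])],[3,2,1])],7,5,[10]),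
  ([([(6,[(18,21)]),(6,[(16,21)]),(6,[(16,21)])],[]),([(6,[(16,21)]),(4,[(8,10)]),(4,[(8,10)])],[])],5,4,[]),
  ([([(6,[(18,21)]),(6,[(16,21)]),(6,[(16,21)])],[]),([(6,[(16,21)]),(5,[(11,15)])],[5,4,3,2,1])],7,2,[9]),
  ([([(6,[(18,21)]),(6,[(16,21)]),(6,[(16,21)])],[]),([(6,[(16,21)]),(5,[(11,15)]),(4,[(8,9)])],[5])],2,1,[]),
  ([([(6,[(18,21)]),(6,[(16,21)]),(6,[(16,21)])],[]),([(6,[(16,21)]),(6,[(16,19)])],[4,3,2,1])],4,3,[]),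
  ([([(7,[(22,28)])],[])],12,8,[15,21,28]), ([([(7,[(22,28)]),(5,[(13,15)])],[])],11,7,[15]),
  ([([(7,[(22,28)]),(5,[(13,15)]),(5,[(12,15)])],[])],12,3,[15]),
  ([([(7,[(22,28)]),(5,[(13,15)]),(5,[(12,15)])],[]),([(5,[(13,15)])],[5,5,3,1])],7,10,[10,15]),
  ([([(7,[(22,28)]),(5,[(13,15)]),(5,[(12,15)])],[]),([(5,[(13,15)]),(4,[(8,10)])],[5,5,4,3,2,1])],7,4,[10]),
  ([([(7,[(22,28)]),(5,[(13,15)]),(5,[(12,15)])],[]),([(5,[(13,15)]),(4,[(8,10)]),(4,[(8,10)])],[5,5])],7,4,[10]),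
  ([([(7,[(22,28)]),(5,[(13,15)]),(5,[(12,15)])],[]),([(5,[(13,15)]),(4,[(8,10)]),(4,[(8,10)])],[5,5]),([(4,[(8,10)])],[4,4,4,3,3,2,2,1,1])],3,3,[4]),
  ([([(7,[(22,28)]),(6,[(13,15),(4,4)]),(5,[(12,15)])],[]),([(5,[(13,15)]),(4,[(8,10)]),(4,[(8,10)])],[5]),([(4,[(8,10)])],[4,4,4,3,3,2,2,1,1])],1,0,[]),
  ([([(7,[(22,28)]),(5,[(13,15)]),(5,[(12,15)])],[]),([(5,[(13,15)]),(5,[(11,15)])],[5,4,3,2,1])],7,4,[10,15]),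
  ([([(7,[(22,28)]),(5,[(13,15)]),(5,[(12,15)])],[]),([(5,[(13,15)]),(5,[(11,15)]),(4,[(8,10)])],[5])],7,4,[8]),
  ([([(8,[(22,28),(8,8)]),(5,[(13,15)]),(5,[(12,15)])],[]),([(5,[(13,15)]),(5,[(11,15)]),(4,[(8,10)])],[5,5])],1,0,[]),
  ([([(7,[(22,28)]),(5,[(13,15)]),(5,[(12,15)])],[]),([(5,[(13,15)]),(5,[(11,15)]),(5,[(11,15)])],[])],5,4,[]),
  ([([(7,[(22,28)]),(6,[(16,21)])],[])],11,6,[15,21]),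
  ([([(7,[(22,28)]),(6,[(16,21)]),(5,[(12,15)])],[])],11,5,[15]),
  ([([(7,[(22,28)]),(6,[(16,21)]),(5,[(12,15)])],[]),([(5,[(12,15)])],[5,4,2])],7,10,[10,15]),
  ([([(7,[(22,28)]),(6,[(16,21)]),(5,[(12,15)])],[]),([(5,[(12,15)]),(4,[(8,10)])],[5,3,2,1])],7,5,[10]),
  ([([(7,[(22,28)]),(6,[(16,21)]),(5,[(12,15)])],[]),([(5,[(12,15)]),(4,[(8,10)]),(4,[(8,10)])],[5])],7,4,[9]),
  ([([(7,[(22,28)]),(6,[(16,21)]),(5,[(12,15)])],[]),([(5,[(12,15)]),(4,[(8,10)]),(4,[(8,10)])],[5]),([(4,[(8,9)])],[4,4,4,3,3,2,2,1,1])],2,1,[]),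
  ([([(7,[(22,28)]),(6,[(16,21)]),(5,[(12,15)])],[]),([(5,[(12,15)]),(5,[(11,15)])],[3,2,1])],7,5,[10,13]),
  ([([(7,[(22,28)]),(6,[(16,21)]),(5,[(12,15)])],[]),([(5,[(12,15)]),(5,[(11,15)]),(4,[(8,10)])],[])],6,5,[]),
  ([([(7,[(22,28)]),(7,[(12,15),(11,13)])],[]),([(6,[(16,21)]),(5,[(12,15)]),(5,[(11,15)])],[5,4,3])],3,2,[]),
  ([([(7,[(22,28)]),(6,[(16,21)]),(6,[(16,21)])],[])],12,2,[15,21]),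
  ([([(7,[(22,28)]),(6,[(16,21)]),(6,[(16,21)])],[]),([(5,[(13,15)])],[5,3,1])],7,9,[10,15]),
  ([([(7,[(22,28)]),(6,[(16,21)]),(6,[(16,21)])],[]),([(5,[(13,15)]),(4,[(8,10)])],[5,4,3,2,1])],7,3,[10]),
  ([([(7,[(22,28)]),(6,[(16,21)]),(6,[(16,21)])],[]),([(5,[(13,15)]),(4,[(8,10)]),(4,[(8,10)])],[5])],4,3,[]),
  ([([(7,[(22,28)]),(6,[(16,21)]),(6,[(16,21)])],[]),([(5,[(13,15)]),(5,[(11,15)])],[4,3,2,1])],7,3,[8]),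
  ([([(8,[(22,28),(8,8)]),(6,[(16,21)])],[]),([(6,[(16,21)]),(5,[(13,15)])],[6,6]),([(5,[(11,15)])],[5,5,5,5,5,5,5,5,5,5,5,5,5,5])],1,0,[]),
  ([([(7,[(22,28)]),(6,[(16,21)]),(6,[(16,21)])],[]),([(6,[(16,21)])],[6,4,2])],6,11,[10,15]),
  ([([(7,[(22,28)]),(6,[(16,21)]),(6,[(16,21)])],[]),([(6,[(16,21)]),(4,[(7,10)])],[6,3,2,1])],6,6,[9]),
  ([([(7,[(22,28)]),(6,[(16,21)]),(6,[(16,21)])],[]),([(6,[(16,21)]),(4,[(7,10)]),(4,[(7,9)])],[6])],3,2,[]),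
  ([([(7,[(22,28)]),(6,[(16,21)]),(6,[(16,21)])],[]),([(6,[(16,21)]),(5,[(11,15)])],[6,5,4,3,2,1])],5,4,[]),
  ([([(7,[(22,28)]),(7,[(22,28)])],[])],11,4,[15,21,28]),
  ([([(7,[(22,28)]),(7,[(22,28)]),(5,[(12,15)])],[])],11,4,[15]),
  ([([(7,[(22,28)]),(7,[(22,28)]),(5,[(12,15)])],[]),([(5,[(12,15)])],[4,3,1])],7,9,[10,15]),
  ([([(7,[(22,28)]),(7,[(22,28)]),(5,[(12,15)])],[]),([(5,[(12,15)]),(4,[(8,10)])],[2,1])],7,6,[10]),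
  ([([(7,[(22,28)]),(7,[(22,28)]),(5,[(12,15)])],[]),([(5,[(12,15)]),(4,[(8,10)]),(4,[(8,10)])],[4])],3,2,[]),
  ([([(7,[(22,28)]),(7,[(22,28)]),(5,[(12,15)])],[]),([(5,[(12,15)]),(5,[(11,15)])],[5,3,2,1])],7,1,[]),
  ([([(7,[(22,28)]),(7,[(22,28)])],[]),([(6,[(16,21)])],[5,4,3,2,1])],6,13,[10,15,21]),
  ([([(7,[(22,28)]),(7,[(22,28)])],[]),([(6,[(16,21)]),(4,[(7,10)])],[5])],6,13,[10]),
  ([([(7,[(22,28)]),(7,[(22,28)])],[]),([(6,[(16,21)]),(4,[(7,10)]),(4,[(7,10)])],[5,4,3,2])],6,5,[10]),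
  ([([(7,[(22,28)]),(7,[(22,28)])],[]),([(6,[(16,21)]),(4,[(7,10)]),(4,[(7,10)]),(4,[(7,10)])],[5])],6,5,[]),
  ([([(7,[(22,28)]),(7,[(22,28)])],[]),([(6,[(16,21)]),(5,[(11,15)])],[])],6,13,[10,14]),
  ([([(7,[(22,28)]),(7,[(22,28)])],[]),([(6,[(16,21)]),(5,[(11,15)]),(4,[(7,10)])],[4,3,2])],6,5,[8]),
  ([([(7,[(22,28)]),(7,[(22,28)])],[]),([(6,[(16,21)]),(5,[(11,15)]),(4,[(7,10)]),(4,[(7,8)])],[])],2,1,[]),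
  ([([(7,[(22,28)]),(7,[(22,28)])],[]),([(6,[(16,21)]),(5,[(11,15)]),(5,[(11,14)])],[5,4,3])],4,3,[]),
  ([([(7,[(22,28)]),(7,[(22,28)])],[]),([(6,[(16,21)]),(6,[(16,21)])],[6])],6,1,[9]),
  ([([(7,[(22,28)]),(7,[(22,28)])],[]),([(6,[(16,21)]),(6,[(16,21)]),(4,[(7,9)])],[6,4,3])],3,2,[]),
  ([([(7,[(22,28)]),(7,[(22,28)])],[]),([(7,[(22,28)])],[6,5,4,3,2,1])],5,15,[6,10,15,18]),
  ([([(7,[(22,28)]),(7,[(22,28)])],[]),([(7,[(22,28)]),(3,[(6,6)])],[6,5,4])],5,12,[6]),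
  ([([(7,[(22,28)]),(7,[(22,28)])],[]),([(7,[(22,28)]),(5,[(6,6),(6,6)])],[6])],5,7,[6]),
  ([([(7,[(22,28)]),(7,[(22,28)])],[]),([(7,[(22,28)]),(6,[(6,6),(6,6),(6,6)])],[])],3,2,[]),
  ([([(7,[(22,28)]),(7,[(22,28)])],[]),([(7,[(22,28)]),(4,[(7,10)])],[6,5])],5,11,[6,10]),
  ([([(7,[(22,28)]),(7,[(22,28)])],[]),([(7,[(22,28)]),(4,[(7,10)]),(3,[(6,6)])],[6,5,3,2])],5,6,[6]),
  ([([(10,[(7,10),(6,6),(6,6)]),(7,[(22,28)])],[]),([(7,[(22,28)]),(7,[(22,28)])],[7,7])],2,1,[]),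
  ([([(7,[(22,28)]),(7,[(22,28)])],[]),([(7,[(22,28)]),(4,[(7,10)]),(4,[(7,10)])],[6,5,4,3])],5,5,[6]),
  ([([(11,[(7,10),(7,10),(6,6)]),(7,[(22,28)])],[]),([(7,[(22,28)]),(7,[(22,28)])],[7,7,7])],1,0,[]),
  ([([(7,[(22,28)]),(7,[(22,28)])],[]),([(7,[(22,28)]),(5,[(11,15)])],[6])],5,7,[6,8]),
  ([([(7,[(22,28)]),(7,[(22,28)])],[]),([(7,[(22,28)]),(6,[(11,15),(6,6)])],[])],3,2,[]),
  ([([(7,[(22,28)]),(7,[(22,28)])],[]),([(7,[(22,28)]),(5,[(11,15)]),(4,[(7,8)])],[6,4,3])],2,1,[]),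
  ([([(7,[(22,28)]),(7,[(22,28)])],[]),([(7,[(22,28)]),(6,[(16,18)])],[])],3,2,[]),
  ([([(8,[(29,36)])],[])],11,9,[15,21,28,36]), ([([(8,[(29,36)]),(5,[(12,15)])],[])],11,4,[15]),
  ([([(8,[(29,36)]),(5,[(12,15)]),(5,[(12,15)])],[])],11,4,[15]),
  ([([(8,[(29,36)]),(5,[(12,15)]),(5,[(12,15)])],[]),([(5,[(12,15)])],[5,5,5,3,1])],6,11,[10,15]),
  ([([(8,[(29,36)]),(5,[(12,15)]),(5,[(12,15)])],[]),([(5,[(12,15)]),(4,[(7,10)])],[5,5,5,4,3,2,1])],6,5,[10]),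
  ([([(8,[(29,36)]),(5,[(12,15)]),(5,[(12,15)])],[]),([(5,[(12,15)]),(4,[(7,10)]),(4,[(7,10)])],[5,5,5])],6,5,[8]),
  ([([(10,[(7,10),(7,8)]),(8,[(29,36)])],[]),([(5,[(12,15)]),(5,[(12,15)]),(5,[(12,15)]),(4,[(7,10)])],[])],2,1,[]),
  ([([(8,[(29,36)]),(5,[(12,15)]),(5,[(12,15)])],[]),([(5,[(12,15)]),(5,[(11,15)])],[5,5,4,3,2,1])],6,5,[10]),
  ([([(8,[(29,36)]),(5,[(12,15)]),(5,[(12,15)])],[]),([(5,[(12,15)]),(5,[(11,15)]),(4,[(7,10)])],[5,5])],4,3,[]),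
  ([([(8,[(29,36)]),(6,[(16,21)])],[])],11,3,[15,17,21]),
  ([([(8,[(29,36)]),(6,[(16,21)]),(5,[(12,15)])],[])],11,3,[15]),
  ([([(8,[(29,36)]),(6,[(16,21)]),(5,[(12,15)])],[]),([(5,[(12,15)])],[5,5,4,2])],6,11,[10,15]),
  ([([(8,[(29,36)]),(6,[(16,21)]),(5,[(12,15)])],[]),([(5,[(12,15)]),(4,[(7,10)])],[5,5,3,2,1])],6,6,[10]),
  ([([(8,[(29,36)]),(6,[(16,21)]),(5,[(12,15)])],[]),([(5,[(12,15)]),(4,[(7,10)]),(4,[(7,10)])],[5,5])],4,3,[]),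
  ([([(8,[(29,36)]),(6,[(16,21)]),(5,[(12,15)])],[]),([(5,[(12,15)]),(5,[(11,15)])],[5,3,2,1])],6,5,[]),
  ([([(8,[(29,36)]),(6,[(16,21)])],[]),([(6,[(16,17)])],[6,6,5,4,3,2,1])],5,15,[6,10,15,17]),
  ([([(8,[(29,36)]),(6,[(16,21)])],[]),([(6,[(16,17)]),(3,[(6,6)])],[6,6,5,4])],5,15,[6]),
  ([([(8,[(29,36)]),(6,[(16,21)])],[]),([(6,[(16,17)]),(5,[(6,6),(6,6)])],[6,6])],5,12,[6]),
  ([([(8,[(29,36)]),(8,[(16,17),(6,6),(6,6),(6,6)])],[]),([(6,[(16,21)])],[5,4,3,2,1])],5,7,[6]),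
  ([([(8,[(29,36)]),(8,[(16,17),(6,6),(6,6),(6,6)])],[]),([(6,[(16,21)]),(3,[(6,6)])],[5,4])],3,2,[]),
  ([([(8,[(29,36)]),(7,[(16,17),(7,10)])],[]),([(6,[(16,21)])],[6,5,4,3,2,1])],5,14,[6,10]),
  ([([(8,[(29,36)]),(7,[(16,17),(7,10)])],[]),([(6,[(16,21)]),(3,[(6,6)])],[6,5,4])],5,11,[6]),
  ([([(8,[(29,36)]),(7,[(16,17),(7,10)])],[]),([(6,[(16,21)]),(5,[(6,6),(6,6)])],[6])],5,6,[6]),
  ([([(9,[(16,17),(7,10),(6,6),(6,6),(6,6)]),(8,[(29,36)])],[]),([(6,[(16,21)])],[6,5,4,3,2,1])],2,1,[]),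
  ([([(8,[(29,36)]),(7,[(16,17),(7,10)])],[]),([(6,[(16,21)]),(4,[(7,10)])],[6,5])],5,10,[6,10]),
  ([([(8,[(29,36)]),(7,[(16,17),(7,10)])],[]),([(6,[(16,21)]),(4,[(7,10)]),(3,[(6,6)])],[6,5,3,2])],5,5,[6]),
  ([([(10,[(7,10),(6,6),(6,6)]),(8,[(29,36)])],[]),([(7,[(16,17),(7,10)]),(6,[(16,21)])],[7,7])],1,0,[]),
  ([([(8,[(29,36)]),(7,[(16,17),(7,10)])],[]),([(6,[(16,21)]),(4,[(7,10)]),(4,[(7,10)])],[6,5,4,3,2])],5,4,[]),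
  ([([(8,[(29,36)]),(6,[(16,21)])],[]),([(6,[(16,17)]),(5,[(11,15)])],[6,6])],5,12,[6,10,11,13]),
  ([([(8,[(29,36)]),(6,[(16,21)])],[]),([(6,[(16,17)]),(6,[(11,15),(6,6)])],[6])],5,7,[6]),
  ([([(8,[(29,36)]),(6,[(16,21)])],[]),([(6,[(16,17)]),(6,[(11,15),(6,6)]),(3,[(6,6)])],[6,3,2])],3,2,[]),
  ([([(8,[(29,36)]),(7,[(16,17),(7,10)])],[]),([(6,[(16,21)]),(5,[(11,15)])],[6])],5,6,[6,7]),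
  ([([(8,[(29,36)]),(7,[(16,17),(7,10)])],[]),([(6,[(16,21)]),(6,[(11,15),(6,6)])],[])],2,1,[]),
  ([([(9,[(16,21),(16,17),(7,7)]),(8,[(29,36)])],[]),([(5,[(11,15)]),(4,[(7,10)])],[5])],1,0,[]),
  ([([(8,[(29,36)]),(7,[(16,17),(11,11)])],[]),([(6,[(16,21)]),(5,[(11,15)])],[6])],3,2,[]),
  ([([(9,[(16,17),(11,15),(12,13)]),(8,[(29,36)])],[]),([(6,[(16,21)])],[6,5,4,3,2,1])],2,1,[]),
  ([([(10,[(16,21),(16,17),(16,17)]),(8,[(29,36)])],[])],8,7,[]),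
  ([([(8,[(29,36)]),(6,[(16,21)])],[]),([(6,[(18,21)])],[6,6,5,4,3,2,1])],5,15,[6,10,15,21]),
  ([([(8,[(29,36)]),(7,[(18,21),(6,6)])],[]),([(6,[(16,21)])],[6,5,4,3,2,1])],5,14,[6]),
  ([([(8,[(29,36)]),(7,[(18,21),(6,6)])],[]),([(6,[(16,21)]),(3,[(6,6)])],[6,5,4])],5,10,[6]),
  ([([(8,[(29,36)]),(7,[(18,21),(6,6)])],[]),([(6,[(16,21)]),(5,[(6,6),(6,6)])],[6])],5,5,[6]),
  ([([(9,[(18,21),(6,6),(6,6),(6,6),(6,6)]),(8,[(29,36)])],[]),([(6,[(16,21)])],[6,5,4,3,2,1])],1,0,[]),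
  ([([(8,[(29,36)]),(6,[(16,21)])],[]),([(6,[(18,21)]),(4,[(7,10)])],[6,6,5])],5,14,[6,10]),
  ([([(8,[(29,36)]),(7,[(18,21),(6,6)])],[]),([(6,[(16,21)]),(4,[(7,10)])],[6,5])],5,9,[6]),
  ([([(8,[(29,36)]),(7,[(18,21),(6,6)])],[]),([(6,[(16,21)]),(4,[(7,10)]),(3,[(6,6)])],[6,5,3,2])],5,4,[]),
  ([([(8,[(29,36)]),(6,[(16,21)])],[]),([(6,[(18,21)]),(4,[(7,10)]),(4,[(7,10)])],[6,6,5,4,3])],5,7,[6,9]),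
  ([([(8,[(29,36)]),(7,[(18,21),(6,6)])],[]),([(6,[(16,21)]),(4,[(7,10)]),(4,[(7,10)])],[6,5,4,3,2])],4,3,[]),
  ([([(11,[(7,10),(7,10),(7,9)]),(8,[(29,36)])],[]),([(6,[(16,21)]),(6,[(18,21)])],[6,6])],2,2,[3]),
  ([([(11,[(7,10),(7,10),(7,9),(3,3)]),(8,[(29,36)])],[]),([(6,[(16,21)]),(6,[(18,21)])],[6,6])],1,0,[]),
  ([([(8,[(29,36)]),(6,[(16,21)])],[]),([(6,[(18,21)]),(5,[(11,15)])],[6,6])],5,10,[6,10,11]),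
  ([([(8,[(29,36)]),(7,[(18,21),(6,6)])],[]),([(6,[(16,21)]),(5,[(11,15)])],[6])],5,5,[6]),
  ([([(8,[(29,36)]),(7,[(18,21),(6,6)])],[]),([(6,[(16,21)]),(6,[(11,15),(6,6)])],[])],1,0,[]),
  ([([(8,[(29,36)]),(6,[(16,21)])],[]),([(6,[(18,21)]),(5,[(11,15)]),(4,[(7,10)])],[6,6,4,3])],5,4,[]),
  ([([(8,[(29,36)]),(6,[(16,21)])],[]),([(6,[(18,21)]),(5,[(11,15)])],[6,6]),([(5,[(11,11)])],[5,5,5,5,5,5,5,5,5,5,5,5,5,5])],1,0,[]),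
  ([([(8,[(29,36)]),(6,[(16,21)])],[]),([(6,[(18,21)]),(6,[(16,21)])],[6])],5,5,[6]),
  ([([(8,[(29,36)]),(7,[(18,21),(6,6)])],[]),([(6,[(16,21)]),(6,[(16,21)])],[])],1,0,[]),
  ([([(8,[(29,36)]),(7,[(22,28)])],[])],10,6,[15,21,28]),
  ([([(8,[(29,36)]),(7,[(22,28)])],[]),([(5,[(11,15)])],[5,4,3,2,1])],6,12,[10,15]),
  ([([(8,[(29,36)]),(7,[(22,28)])],[]),([(5,[(11,15)]),(4,[(7,10)])],[5])],6,12,[10]),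
  ([([(8,[(29,36)]),(7,[(22,28)])],[]),([(5,[(11,15)]),(4,[(7,10)]),(4,[(7,10)])],[5,4,3,2])],6,4,[10]),
  ([([(8,[(29,36)]),(7,[(22,28)])],[]),([(5,[(11,15)]),(4,[(7,10)]),(4,[(7,10)]),(4,[(7,10)])],[5])],4,3,[]),
  ([([(8,[(29,36)]),(7,[(22,28)])],[]),([(5,[(11,15)]),(5,[(11,15)])],[])],6,11,[10,12]),
  ([([(8,[(29,36)]),(7,[(22,28)])],[]),([(5,[(11,15)]),(5,[(11,15)]),(4,[(7,10)])],[4,3,2])],6,4,[]),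
  ([([(8,[(29,36)]),(7,[(22,28)])],[]),([(5,[(11,15)]),(5,[(11,15)]),(5,[(11,12)])],[5,4,3,2])],2,1,[]),
  ([([(8,[(29,36)]),(7,[(22,28)])],[]),([(6,[(16,21)])],[6,5,4,3,2,1])],5,14,[6,10,15,17]),
  ([([(8,[(29,36)]),(7,[(22,28)])],[]),([(6,[(16,21)]),(3,[(6,6)])],[6,5,4])],5,11,[6]),
  ([([(8,[(29,36)]),(7,[(22,28)])],[]),([(6,[(16,21)]),(5,[(6,6),(6,6)])],[6])],5,6,[6]),
  ([([(8,[(29,36)]),(7,[(22,28)])],[]),([(6,[(16,21)]),(6,[(6,6),(6,6),(6,6)])],[])],2,1,[]),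
  ([([(8,[(29,36)]),(7,[(22,28)])],[]),([(6,[(16,21)]),(4,[(7,10)])],[6,5])],5,10,[6,10]),
  ([([(8,[(29,36)]),(7,[(22,28)])],[]),([(6,[(16,21)]),(4,[(7,10)]),(3,[(6,6)])],[6,5,3,2])],5,5,[6]),
  ([([(10,[(7,10),(6,6),(6,6)]),(8,[(29,36)])],[]),([(7,[(22,28)]),(6,[(16,21)])],[7,7])],1,0,[]),
  ([([(8,[(29,36)]),(7,[(22,28)])],[]),([(6,[(16,21)]),(4,[(7,10)]),(4,[(7,10)])],[6,5,4,3,2])],5,4,[]),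
  ([([(8,[(29,36)]),(7,[(22,28)])],[]),([(6,[(16,21)]),(5,[(11,15)])],[6])],5,6,[6,7]),
  ([([(8,[(29,36)]),(7,[(22,28)])],[]),([(6,[(16,21)]),(6,[(11,15),(6,6)])],[])],2,1,[]),
  ([([(8,[(29,36)]),(7,[(22,28)])],[]),([(7,[(16,21),(7,7)]),(5,[(11,15)])],[7,6])],1,0,[]),
  ([([(9,[(22,28),(16,17)]),(8,[(29,36)])],[]),([(6,[(16,21)])],[6,5,4,3,2,1])],2,1,[]),
  ([([(8,[(29,36)]),(7,[(22,28)])],[]),([(7,[(22,28)])],[7,6,5,4,3,2,1])],4,10,[6,10,11]),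
  ([([(8,[(29,36)]),(7,[(22,28)])],[]),([(7,[(22,28)]),(3,[(5,6)])],[7,6,5,4])],4,6,[6]),
  ([([(8,[(29,36)]),(7,[(22,28)])],[]),([(7,[(22,28)]),(7,[(5,6),(5,6)])],[])],3,2,[]),
  ([([(8,[(29,36)]),(7,[(22,28)])],[]),([(7,[(22,28)]),(4,[(7,10)])],[7,6,5])],4,4,[5]),
  ([([(8,[(29,36)]),(7,[(22,28)])],[]),([(7,[(22,28)]),(5,[(7,10),(5,5)])],[7,6])],1,0,[]),
  ([([(8,[(29,36)]),(7,[(22,28)])],[]),([(7,[(22,28)]),(5,[(11,11)])],[7,6])],1,0,[]),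
  ([([(8,[(29,36)]),(8,[(29,36)])],[])],10,4,[15,21,25]),
  ([([(8,[(29,36)]),(8,[(29,36)])],[]),([(5,[(11,15)])],[4,3,2,1])],6,11,[10,15]),
  ([([(8,[(29,36)]),(8,[(29,36)])],[]),([(5,[(11,15)]),(4,[(7,10)])],[])],6,8,[9]),
  ([([(8,[(29,36)]),(8,[(29,36)])],[]),([(5,[(11,15)]),(4,[(7,10)]),(4,[(7,9)])],[4,3,2,1])],3,2,[]),
  ([([(8,[(29,36)]),(8,[(29,36)])],[]),([(5,[(11,15)]),(5,[(11,15)])],[5])],5,4,[]),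
  ([([(8,[(29,36)]),(8,[(29,36)])],[]),([(6,[(16,21)])],[5,4,3,2,1])],5,9,[6,10]),
  ([([(8,[(29,36)]),(8,[(29,36)])],[]),([(6,[(16,21)]),(3,[(6,6)])],[5,4])],5,4,[]),
  ([([(8,[(29,36)]),(8,[(29,36)])],[]),([(6,[(16,21)]),(4,[(7,10)])],[5])],4,3,[]),
  ([([(8,[(29,36)]),(8,[(29,36)])],[]),([(7,[(22,25)])],[6,5,4,3,2,1])],4,3,[]),
  ([([(9,[(37,45)])],[])],10,10,[15,21,28,36,45]),
  ([([(9,[(37,45)]),(5,[(11,15)])],[])],10,5,[15]),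
  ([([(9,[(37,45)]),(5,[(11,15)]),(5,[(11,15)])],[])],10,5,[15]),
  ([([(9,[(37,45)]),(5,[(11,15)]),(5,[(11,15)])],[]),([(5,[(11,15)])],[5,5,5,5,3,1])],5,12,[6,10,15]),
  ([([(9,[(37,45)]),(6,[(11,15),(6,6)])],[]),([(5,[(11,15)]),(5,[(11,15)])],[5,5])],5,9,[6]),
  ([([(9,[(37,45)]),(6,[(11,15),(6,6)])],[]),([(5,[(11,15)]),(5,[(11,15)]),(3,[(6,6)])],[5,5,3,2])],5,4,[]),
  ([([(9,[(37,45)]),(5,[(11,15)]),(5,[(11,15)])],[]),([(5,[(11,15)]),(4,[(7,10)])],[5,5,5,5,4,3,2,1])],5,6,[6,9]),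
  ([([(9,[(37,45)]),(6,[(11,15),(6,6)])],[]),([(5,[(11,15)]),(5,[(11,15)]),(4,[(7,10)])],[5,5,4,3,2])],4,3,[]),
  ([([(9,[(37,45)]),(5,[(11,15)]),(5,[(11,15)])],[]),([(5,[(11,15)]),(4,[(7,10)]),(4,[(7,9)])],[5,5,5,5])],3,2,[]),
  ([([(9,[(37,45)]),(5,[(11,15)]),(5,[(11,15)])],[]),([(5,[(11,15)]),(5,[(11,15)])],[5,5,5,4,3,2,1])],5,4,[]),
  ([([(9,[(37,45)]),(6,[(16,21)])],[])],10,4,[15,21]),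
  ([([(9,[(37,45)]),(6,[(16,21)])],[]),([(5,[(11,15)])],[5,5,5,4,3,2,1])],5,14,[6,10,15]),
  ([([(9,[(37,45)]),(6,[(16,21)])],[]),([(5,[(11,15)]),(3,[(6,6)])],[5,5,5,4])],5,14,[6]),
  ([([(9,[(37,45)]),(6,[(16,21)])],[]),([(5,[(11,15)]),(5,[(6,6),(6,6)])],[5,5])],5,9,[6]),
  ([([(9,[(37,45)]),(6,[(16,21)])],[]),([(5,[(11,15)]),(5,[(6,6),(6,6)]),(3,[(6,6)])],[5,5,3,2])],5,4,[]),
  ([([(9,[(37,45)]),(6,[(16,21)])],[]),([(5,[(11,15)]),(4,[(7,10)])],[5,5,5])],5,13,[6,10]),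
  ([([(9,[(37,45)]),(6,[(16,21)])],[]),([(5,[(11,15)]),(4,[(7,10)]),(3,[(6,6)])],[5,5,5,3,2])],5,8,[6]),
  ([([(9,[(37,45)]),(6,[(16,21)])],[]),([(6,[(11,15),(6,6)]),(4,[(7,10)]),(3,[(6,6)])],[6,6,6,5,3,2])],4,3,[]),
  ([([(9,[(37,45)]),(6,[(16,21)])],[]),([(5,[(11,15)]),(4,[(7,10)]),(4,[(7,10)])],[5,5,5,4,3,2])],5,6,[6,8]),
  ([([(9,[(37,45)]),(6,[(16,21)])],[]),([(5,[(11,15)]),(4,[(7,10)]),(4,[(7,10)])],[5,5,5,4,3,2]),([(3,[(6,6)])],[3,3,3,3,3,2,2,2,1,1,1])],2,2,[3]),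
  ([([(9,[(37,45)]),(6,[(16,21)])],[]),([(5,[(11,15)]),(4,[(7,10)]),(4,[(7,10)])],[5,5,5,4,3,2]),([(4,[(6,6),(3,3)])],[4,4,4,4,4,3,3,3,2,2,2,1,1])],1,0,[]),
  ([([(9,[(37,45)]),(6,[(16,21)])],[]),([(5,[(11,15)]),(4,[(7,10)]),(4,[(7,10)])],[5,5,5,4,3,2]),([(4,[(7,8)])],[4,4,4,4,4,3,3,3,2,2,2,1,1])],1,1,[2]),
  ([([(9,[(37,45)]),(6,[(16,21)])],[]),([(5,[(11,15)]),(4,[(7,10)]),(4,[(7,10)])],[5,5,5,4,3,2]),([(4,[(7,8),(2,2)])],[4,4,4,4,4,3,3,3,2,2,2,1,1])],1,0,[]),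
  ([([(9,[(37,45)]),(6,[(16,21)])],[]),([(5,[(11,15)]),(5,[(11,15)])],[5,5])],5,9,[6,10]),
  ([([(9,[(37,45)]),(6,[(16,21)])],[]),([(5,[(11,15)]),(5,[(11,15)]),(3,[(6,6)])],[5,5,3,2])],5,4,[]),
  ([([(9,[(37,45)]),(6,[(16,21)])],[]),([(5,[(11,15)]),(5,[(11,15)]),(4,[(7,10)])],[5,5,4,3,2])],4,3,[]),
  ([([(9,[(37,45)]),(6,[(16,21)])],[]),([(6,[(16,21)])],[6,6,6,5,4,3,2,1])],4,14,[6,10,15]),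
  ([([(9,[(37,45)]),(6,[(16,21)])],[]),([(6,[(16,21)]),(3,[(5,6)])],[6,6,6,5,4])],4,10,[6]),
  ([([(9,[(37,45)]),(7,[(5,6),(5,6)])],[]),([(6,[(16,21)]),(6,[(16,21)])],[6])],4,6,[6]),
  ([([(9,[(37,45)]),(7,[(5,6),(5,6),(5,6)])],[]),([(6,[(16,21)]),(6,[(16,21)])],[6])],3,2,[]),
  ([([(9,[(37,45)]),(6,[(16,21)])],[]),([(6,[(16,21)]),(4,[(7,10)])],[6,6,6,5])],4,8,[6,9]),
  ([([(9,[(37,45)]),(6,[(16,21)])],[]),([(6,[(16,21)]),(4,[(7,10)]),(3,[(5,6)])],[6,6,6,5,3,2])],4,4,[5]),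
  ([([(10,[(7,10),(5,6),(5,5)]),(9,[(37,45)])],[]),([(6,[(16,21)]),(6,[(16,21)])],[])],1,0,[]),
  ([([(10,[(7,10),(7,9)]),(9,[(37,45)])],[]),([(6,[(16,21)]),(6,[(16,21)])],[])],3,2,[]),
  ([([(9,[(37,45)]),(6,[(16,21)])],[]),([(6,[(16,21)]),(5,[(11,15)])],[6,6,6])],4,4,[5]),
  ([([(9,[(37,45)]),(6,[(16,21)])],[]),([(6,[(16,21)]),(5,[(11,15)]),(3,[(5,5)])],[6,6,6,3,2])],1,0,[]),
  ([([(9,[(37,45)]),(7,[(22,28)])],[])],10,3,[15,21,24]),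
  ([([(9,[(37,45)]),(7,[(22,28)])],[]),([(5,[(11,15)])],[5,5,4,3,2,1])],5,13,[6,10,14]),
  ([([(9,[(37,45)]),(7,[(22,28)])],[]),([(5,[(11,15)]),(3,[(6,6)])],[5,5,4])],5,8,[6]),
  ([([(9,[(37,45)]),(7,[(22,28)])],[]),([(6,[(11,15),(6,6)]),(3,[(6,6)])],[6,6,5,4])],4,3,[]),
  ([([(9,[(37,45)]),(7,[(22,28)])],[]),([(5,[(11,15)]),(4,[(7,10)])],[5,5])],5,7,[6,8]),
  ([([(9,[(37,45)]),(7,[(22,28)])],[]),([(6,[(11,15),(6,6)]),(4,[(7,10)])],[6,6,5])],3,2,[]),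
  ([([(10,[(7,10),(7,8)]),(9,[(37,45)])],[]),([(7,[(22,28)]),(5,[(11,15)])],[7,6])],2,1,[]),
  ([([(9,[(37,45)]),(7,[(22,28)])],[]),([(5,[(11,15)]),(5,[(11,14)])],[5])],4,3,[]),
  ([([(9,[(37,45)]),(7,[(22,28)])],[]),([(6,[(16,21)])],[6,6,5,4,3,2,1])],4,8,[6,9]),
  ([([(9,[(37,45)]),(7,[(22,28)])],[]),([(6,[(16,21)]),(3,[(5,6)])],[6,6,5,4])],4,4,[5]),
  ([([(9,[(37,45)]),(7,[(22,28)])],[]),([(6,[(16,21)]),(6,[(5,6),(5,5)])],[6])],1,0,[]),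
  ([([(9,[(37,45)]),(7,[(22,28)])],[]),([(6,[(16,21)]),(4,[(7,9)])],[6,6,5])],3,2,[]),
  ([([(9,[(37,45)]),(7,[(22,28)])],[]),([(7,[(22,24)])],[7,7,6,5,4,3,2,1])],3,2,[]),
  ([([(9,[(37,45)]),(8,[(29,36)])],[])],10,2,[15,17]),
  ([([(9,[(37,45)]),(8,[(29,36)])],[]),([(5,[(11,15)])],[5,4,3,2,1])],5,6,[6,7]),
  ([([(9,[(37,45)]),(8,[(29,36)])],[]),([(6,[(11,15),(6,6)])],[6,5,4,3,2,1])],2,1,[]),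
  ([([(9,[(37,45)]),(8,[(29,36)])],[]),([(5,[(11,15)]),(4,[(7,7)])],[5])],1,0,[]),
  ([([(9,[(37,45)]),(8,[(29,36)])],[]),([(6,[(16,17)])],[6,5,4,3,2,1])],2,1,[]),
  ([([(9,[(37,45)]),(9,[(37,45)])],[])],9,4,[]), ([([(10,[(46,55)])],[])],9,11,[10,15,21,28,36]),
  ([([(10,[(46,55)]),(4,[(10,10)])],[])],9,7,[10]),
  ([([(10,[(46,55)]),(6,[(10,10),(10,10)])],[])],9,5,[10]),
  ([([(10,[(46,55)]),(6,[(10,10),(10,10)])],[]),([(4,[(10,10)])],[4,4,4,4,3,2,1])],5,8,[6,9]),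
  ([([(10,[(46,55)]),(8,[(10,10),(10,10),(10,10),(6,6)])],[])],4,3,[]),
  ([([(10,[(46,55)]),(6,[(10,10),(10,10)])],[]),([(6,[(10,10),(7,9)])],[6,6,6,6,5,4,3,2,1])],3,2,[]),
  ([([(10,[(46,55)]),(5,[(11,15)])],[])],9,6,[10,15]),
  ([([(10,[(46,55)]),(5,[(11,15)]),(4,[(10,10)])],[])],9,6,[10]),
  ([([(10,[(46,55)]),(8,[(11,15),(10,10),(10,10)])],[])],8,7,[]),
  ([([(10,[(46,55)]),(5,[(11,15)])],[]),([(5,[(11,15)])],[5,5,5,5,5,4,3,2,1])],4,15,[6,8,9,10,15]),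
  ([([(10,[(46,55)]),(5,[(11,15)])],[]),([(5,[(11,15)]),(3,[(5,6)])],[5,5,5,5,5,4])],4,11,[6]),
  ([([(10,[(46,55)]),(7,[(5,6),(5,6)])],[]),([(5,[(11,15)]),(5,[(11,15)])],[5,5])],4,7,[6]),
  ([([(10,[(46,55)]),(7,[(5,6),(5,6),(5,6)])],[]),([(5,[(11,15)]),(5,[(11,15)])],[5,5])],4,3,[]),
  ([([(10,[(46,55)]),(5,[(11,15)])],[]),([(5,[(11,15)]),(4,[(7,8)])],[5,5,5,5,5])],4,9,[6,8]),
  ([([(10,[(46,55)]),(5,[(11,15)])],[]),([(5,[(11,15)]),(5,[(7,8),(5,6)])],[5,5,5,5])],4,5,[6]),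
  ([([(10,[(46,55)]),(8,[(7,8),(5,6),(5,6)])],[]),([(5,[(11,15)]),(5,[(11,15)])],[5])],2,1,[]),
  ([([(10,[(46,55)]),(9,[(7,8),(7,8)])],[]),([(5,[(11,15)]),(5,[(11,15)])],[])],4,3,[]),
  ([([(10,[(46,55)]),(5,[(11,15)])],[]),([(5,[(11,15)]),(4,[(9,9)])],[5,5,5,5,5])],4,7,[6,8]),
  ([([(10,[(46,55)]),(5,[(11,15)])],[]),([(5,[(11,15)]),(5,[(9,9),(5,6)])],[5,5,5,5])],4,3,[]),
  ([([(10,[(46,55)]),(9,[(9,9),(7,8)])],[]),([(5,[(11,15)]),(5,[(11,15)])],[])],2,1,[]),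
  ([([(10,[(46,55)]),(5,[(11,15)])],[]),([(5,[(11,15)]),(4,[(10,10)])],[5,5,5,5,5])],4,6,[6,7]),
  ([([(10,[(46,55)]),(5,[(11,15)])],[]),([(5,[(11,15)]),(4,[(10,10)]),(3,[(5,6)])],[5,5,5,5,5,3,2])],3,2,[]),
  ([([(10,[(46,55)]),(6,[(10,10),(7,7)])],[]),([(5,[(11,15)]),(5,[(11,15)])],[5,5,5])],1,0,[]),
  ([([(10,[(46,55)]),(5,[(11,15)])],[]),([(5,[(11,15)]),(5,[(11,15)])],[5,5,5,5])],4,5,[6]),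
  ([([(10,[(46,55)]),(5,[(11,15)])],[]),([(5,[(11,15)]),(5,[(11,15)]),(3,[(5,6)])],[5,5,5,5,3,2])],2,1,[]),
  ([([(10,[(46,55)]),(6,[(16,21)])],[])],9,5,[10,15,21]),
  ([([(10,[(46,55)]),(6,[(16,21)])],[]),([(4,[(10,10)])],[4,4,4,4,3,2,1])],5,11,[6,10]),
  ([([(10,[(46,55)]),(6,[(16,21)])],[]),([(4,[(10,10)]),(3,[(6,6)])],[4,4,4,4])],5,6,[6]),
  ([([(10,[(46,55)]),(6,[(16,21)])],[]),([(5,[(6,6),(6,6)]),(4,[(10,10)])],[5,5,5,5])],2,1,[]),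
  ([([(10,[(46,55)]),(6,[(16,21)])],[]),([(4,[(10,10)]),(4,[(7,10)])],[4,4,4])],5,5,[6]),
  ([([(10,[(46,55)]),(6,[(16,21)])],[]),([(6,[(10,10),(7,10)]),(3,[(6,6)])],[6,6,6,6,5,4])],1,0,[]),
  ([([(10,[(46,55)]),(6,[(16,21)])],[]),([(5,[(11,15)])],[5,5,5,5,4,3,2,1])],4,10,[6,10,11]),
  ([([(10,[(46,55)]),(6,[(16,21)])],[]),([(5,[(11,15)]),(3,[(5,6)])],[5,5,5,5,4])],4,6,[6]),
  ([([(10,[(46,55)]),(7,[(5,6),(5,6)])],[]),([(6,[(16,21)]),(5,[(11,15)])],[6,6,6])],3,2,[]),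
  ([([(10,[(46,55)]),(6,[(16,21)])],[]),([(5,[(11,15)]),(4,[(7,10)])],[5,5,5,5])],4,4,[5]),
  ([([(10,[(46,55)]),(6,[(16,21)])],[]),([(5,[(11,15)]),(5,[(7,10),(5,5)])],[5,5,5])],1,0,[]),
  ([([(11,[(46,55),(11,11)]),(6,[(16,21)])],[]),([(5,[(11,15)])],[5,5,5,5,5,4,3,2,1])],1,0,[]),
  ([([(10,[(46,55)]),(6,[(16,21)])],[]),([(6,[(16,21)])],[6,6,6,6,5,4,3,2,1])],3,5,[6]),
  ([([(10,[(46,55)]),(6,[(16,21)])],[]),([(6,[(16,21)]),(3,[(4,6)])],[6,6,6,6,5,4])],3,2,[]),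
  ([([(10,[(46,55)]),(7,[(22,28)])],[])],9,4,[10,15]),
  ([([(10,[(46,55)]),(7,[(22,28)])],[]),([(4,[(10,10)])],[4,4,4,3,2,1])],5,5,[6]),
  ([([(10,[(46,55)]),(7,[(22,28)])],[]),([(4,[(10,10)]),(3,[(6,6)])],[4,4,4])],1,0,[]),
  ([([(10,[(46,55)]),(7,[(22,28)])],[]),([(5,[(11,15)])],[5,5,5,4,3,2,1])],4,4,[5]),
  ([([(10,[(46,55)]),(7,[(22,28)])],[]),([(5,[(11,15)]),(3,[(5,5)])],[5,5,5,4])],1,0,[]),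
  ([([(10,[(46,55)]),(8,[(29,36)])],[])],8,7,[]), ([([(11,[(56,66)])],[])],8,12,[10,15,21,26]),
  ([([(11,[(56,66)]),(4,[(9,10)])],[])],8,8,[10]),
  ([([(11,[(56,66)]),(6,[(9,10),(9,10)])],[])],8,6,[10]),
  ([([(11,[(56,66)]),(6,[(9,10),(9,10)])],[]),([(4,[(9,10)])],[4,4,4,4,4,3,2,1])],2,1,[]),
  ([([(11,[(56,66)]),(5,[(11,15)])],[])],8,7,[10,15]),
  ([([(11,[(56,66)]),(5,[(11,15)])],[]),([(4,[(9,10)])],[4,4,4,4,4,4,3,2,1])],4,7,[6,8]),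
  ([([(11,[(56,66)]),(5,[(11,15)])],[]),([(4,[(9,10)]),(3,[(5,6)])],[4,4,4,4,4,4])],4,3,[]),
  ([([(11,[(56,66)]),(5,[(11,15)])],[]),([(4,[(9,10)]),(4,[(7,8)])],[4,4,4,4,4])],2,1,[]),
  ([([(11,[(56,66)]),(5,[(11,15)])],[]),([(5,[(11,15)])],[5,5,5,5,5,5,4,3,2,1])],3,5,[6]),
  ([([(11,[(56,66)]),(5,[(11,15)])],[]),([(5,[(11,15)]),(3,[(4,6)])],[5,5,5,5,5,5,4])],3,2,[]),
  ([([(11,[(56,66)]),(6,[(16,21)])],[])],8,6,[10,11]),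
  ([([(11,[(56,66)]),(6,[(16,21)])],[]),([(4,[(9,10)])],[4,4,4,4,4,3,2,1])],3,2,[]),
  ([([(11,[(56,66)]),(6,[(16,21)])],[]),([(5,[(11,11)])],[5,5,5,5,5,4,3,2,1])],1,0,[]),
  ([([(11,[(56,66)]),(7,[(22,26)])],[])],5,4,[]), ([([(12,[(67,78)])],[])],7,13,[10,15]),
  ([([(12,[(67,78)]),(4,[(8,10)])],[])],7,7,[8]),
  ([([(12,[(67,78)]),(4,[(8,10)])],[]),([(4,[(8,8)])],[4,4,4,4,4,4,4,4,3,2,1])],1,0,[]),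
  ([([(12,[(67,78)]),(5,[(11,15)])],[])],5,4,[]), ([([(13,[(79,81)])],[])],3,2,[])]

theorem ki_19 : KC 19 80 := kc_of_itree it_19 (by decide +kernel)

def it_20 : List (List (List (ℕ × List (ℕ × ℕ)) × List ℕ) × ℕ × ℕ × List ℕ) := [
  ([],18,5,[21,28,36,45,55,66,78,91]), ([([(6,[(19,21)])],[])],14,7,[15,21]),
  ([([(6,[(19,21)]),(5,[(15,15)])],[])],13,6,[15]),
  ([([(6,[(19,21)]),(5,[(15,15)]),(5,[(14,15)])],[])],13,5,[15]),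
  ([([(8,[(19,21),(15,15)]),(5,[(14,15)]),(5,[(14,15)])],[])],12,4,[15]),
  ([([(9,[(14,15),(14,15),(13,15)]),(8,[(19,21),(15,15)])],[])],11,2,[15]),
  ([([(10,[(19,21),(15,15),(14,15)]),(9,[(14,15),(13,15),(12,15)])],[])],10,2,[]),
  ([([(6,[(19,21)]),(6,[(16,21)])],[])],13,4,[15,21]),
  ([([(6,[(19,21)]),(6,[(16,21)]),(5,[(14,15)])],[])],13,4,[15]),
  ([([(8,[(19,21),(14,15)]),(6,[(16,21)]),(5,[(14,15)])],[])],12,3,[15]),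
  ([([(11,[(19,21),(14,15),(14,15),(13,15)]),(6,[(16,21)])],[])],9,6,[10,15]),
  ([([(6,[(19,21)]),(6,[(16,21)]),(5,[(14,15)])],[]),([(5,[(14,15)]),(5,[(13,15)]),(4,[(10,10)])],[5])],9,1,[10]),
  ([([(11,[(19,21),(14,15),(14,15),(13,15)]),(6,[(16,21)])],[]),([(6,[(10,10),(10,10)])],[6,6,6,6,6,5,4,3,2,1])],2,1,[]),
  ([([(6,[(19,21)]),(6,[(16,21)]),(5,[(14,15)])],[]),([(5,[(14,15)]),(5,[(13,15)]),(5,[(11,15)])],[])],9,1,[10]),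
  ([([(11,[(19,21),(14,15),(14,15),(13,15)]),(6,[(16,21)])],[]),([(5,[(11,15)]),(4,[(10,10)])],[5,5,5,5,5])],1,0,[]),
  ([([(6,[(19,21)]),(6,[(16,21)]),(6,[(16,21)])],[])],13,3,[15,21]),
  ([([(8,[(19,21),(14,15)]),(6,[(16,21)]),(6,[(16,21)])],[])],12,3,[15]),
  ([([(6,[(19,21)]),(6,[(16,21)]),(6,[(16,21)])],[]),([(5,[(14,15)]),(5,[(13,15)])],[3,2,1])],8,6,[10,15]),
  ([([(6,[(19,21)]),(6,[(16,21)]),(6,[(16,21)])],[]),([(5,[(14,15)]),(5,[(13,15)]),(4,[(9,10)])],[])],9,1,[10]),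
  ([([(8,[(19,21),(14,15)]),(8,[(13,15),(9,10),(10,10)])],[]),([(6,[(16,21)]),(6,[(16,21)])],[6])],1,0,[]),
  ([([(6,[(19,21)]),(6,[(16,21)]),(6,[(16,21)])],[]),([(5,[(14,15)]),(5,[(13,15)]),(5,[(11,15)])],[5])],8,3,[]),
  ([([(6,[(19,21)]),(6,[(16,21)]),(6,[(16,21)])],[]),([(6,[(16,21)])],[4,2])],8,10,[10,15,21]),
  ([([(6,[(19,21)]),(6,[(16,21)]),(6,[(16,21)])],[]),([(6,[(16,21)]),(4,[(9,10)])],[3,2,1])],8,5,[10]),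
  ([([(6,[(19,21)]),(6,[(16,21)]),(6,[(16,21)])],[]),([(6,[(16,21)]),(6,[(9,10),(9,10)])],[4,3,2,1])],8,1,[10]),
  ([([(6,[(19,21)]),(6,[(16,21)]),(6,[(16,21)])],[]),([(6,[(16,21)]),(6,[(9,10),(9,10)]),(4,[(9,10)])],[])],4,3,[]),
  ([([(6,[(19,21)]),(6,[(16,21)]),(6,[(16,21)])],[]),([(6,[(16,21)]),(5,[(11,15)])],[5,4,3,2,1])],8,2,[10,15]),
  ([([(6,[(19,21)]),(6,[(16,21)]),(6,[(16,21)])],[]),([(6,[(16,21)]),(5,[(11,15)]),(4,[(9,10)])],[5])],8,2,[10]),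
  ([([(8,[(19,21),(11,15)]),(6,[(16,21)]),(6,[(16,21)])],[]),([(6,[(16,21)]),(6,[(9,10),(9,10)])],[6,5,4,3,2,1])],2,1,[]),
  ([([(6,[(19,21)]),(6,[(16,21)]),(6,[(16,21)])],[]),([(6,[(16,21)]),(5,[(11,15)]),(5,[(11,15)])],[])],8,2,[]),
  ([([(6,[(19,21)]),(6,[(16,21)]),(6,[(16,21)])],[]),([(6,[(16,21)]),(6,[(16,21)])],[4,3,2,1])],8,1,[10,13]),
  ([([(6,[(19,21)]),(6,[(16,21)]),(6,[(16,21)])],[]),([(6,[(16,21)]),(6,[(16,21)]),(4,[(9,10)])],[])],5,4,[]),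
  ([([(8,[(19,21),(11,13)]),(6,[(16,21)]),(6,[(16,21)])],[]),([(6,[(16,21)]),(6,[(16,21)])],[6,5,4,3,2,1])],3,2,[]),
  ([([(7,[(22,28)])],[])],13,8,[15,21,28]), ([([(7,[(22,28)]),(5,[(14,15)])],[])],12,7,[15]),
  ([([(7,[(22,28)]),(5,[(14,15)]),(5,[(13,15)])],[])],13,3,[15]),
  ([([(9,[(14,15),(13,15),(14,15)]),(7,[(22,28)])],[])],11,3,[15]),
  ([([(7,[(22,28)]),(5,[(14,15)]),(5,[(13,15)])],[]),([(5,[(14,15)]),(5,[(12,15)])],[5,4,3,2,1])],8,4,[10,15]),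
  ([([(7,[(22,28)]),(7,[(14,15),(9,10)]),(5,[(13,15)])],[]),([(5,[(14,15)]),(5,[(12,15)])],[5,3,2,1])],8,1,[10]),
  ([([(10,[(14,15),(13,15),(14,15),(9,10)]),(7,[(22,28)])],[]),([(5,[(12,15)]),(4,[(9,10)])],[5,5,5])],5,4,[]),
  ([([(7,[(22,28)]),(5,[(14,15)]),(5,[(13,15)])],[]),([(5,[(14,15)]),(5,[(12,15)]),(5,[(11,15)])],[])],8,4,[10,11]),
  ([([(10,[(14,15),(13,15),(14,15),(9,10)]),(7,[(22,28)])],[]),([(5,[(12,15)]),(5,[(11,15)])],[5,5])],3,2,[]),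
  ([([(9,[(14,15),(13,15),(14,15)]),(7,[(22,28)])],[]),([(7,[(12,15),(11,11)]),(5,[(11,15)])],[7,7,6])],1,0,[]),
  ([([(7,[(22,28)]),(6,[(16,21)])],[])],12,6,[15,21]),
  ([([(7,[(22,28)]),(6,[(16,21)]),(5,[(13,15)])],[])],12,5,[15]),
  ([([(7,[(22,28)]),(6,[(16,21)]),(5,[(13,15)])],[]),([(5,[(13,15)])],[5,4,2])],8,10,[10,15]),
  ([([(7,[(22,28)]),(6,[(16,21)]),(5,[(13,15)])],[]),([(5,[(13,15)]),(4,[(9,10)])],[5,3,2,1])],8,5,[10]),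
  ([([(7,[(22,28)]),(6,[(16,21)]),(6,[(9,10),(9,10)])],[]),([(5,[(13,15)]),(5,[(13,15)])],[4,3,2,1])],8,3,[10]),
  ([([(7,[(22,28)]),(6,[(16,21)]),(6,[(9,10),(9,10)])],[]),([(5,[(13,15)]),(5,[(13,15)]),(4,[(9,10)])],[])],7,6,[]),
  ([([(7,[(22,28)]),(6,[(16,21)]),(5,[(13,15)])],[]),([(5,[(13,15)]),(5,[(11,15)])],[3,2,1])],8,5,[10,15]),
  ([([(7,[(22,28)]),(6,[(16,21)]),(5,[(13,15)])],[]),([(5,[(13,15)]),(5,[(11,15)]),(4,[(9,10)])],[])],8,4,[10]),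
  ([([(8,[(13,15),(9,10),(9,10)]),(7,[(22,28)])],[]),([(6,[(16,21)]),(5,[(13,15)]),(5,[(11,15)])],[6,5,4,3])],5,4,[]),
  ([([(7,[(22,28)]),(6,[(16,21)]),(5,[(13,15)])],[]),([(5,[(13,15)]),(5,[(11,15)]),(5,[(11,15)])],[5])],8,2,[10,11]),
  ([([(7,[(22,28)]),(6,[(16,21)]),(5,[(13,15)])],[]),([(5,[(13,15)]),(5,[(11,15)]),(5,[(11,15)])],[5]),([(4,[(9,10)])],[4,3,3,2,2,1,1])],3,2,[]),
  ([([(7,[(22,28)]),(7,[(13,15),(11,11)]),(6,[(16,21)])],[]),([(5,[(13,15)]),(5,[(11,15)]),(5,[(11,15)])],[])],1,0,[]),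
  ([([(7,[(22,28)]),(6,[(16,21)]),(6,[(16,21)])],[])],12,5,[15,21]),
  ([([(7,[(22,28)]),(6,[(16,21)]),(6,[(16,21)])],[]),([(5,[(13,15)])],[5,3,1])],8,9,[10,15]),
  ([([(7,[(22,28)]),(6,[(16,21)]),(6,[(16,21)])],[]),([(5,[(13,15)]),(4,[(9,10)])],[5,4,3,2,1])],8,3,[10]),
  ([([(7,[(22,28)]),(6,[(16,21)]),(6,[(16,21)])],[]),([(5,[(13,15)]),(4,[(9,10)]),(4,[(9,10)])],[5])],8,3,[10]),
  ([([(9,[(13,15),(9,10),(9,10),(9,10)]),(7,[(22,28)])],[]),([(6,[(16,21)]),(6,[(16,21)])],[6])],4,3,[]),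
  ([([(7,[(22,28)]),(6,[(16,21)]),(6,[(16,21)])],[]),([(5,[(13,15)]),(5,[(11,15)])],[4,3,2,1])],8,3,[10,15]),
  ([([(7,[(22,28)]),(6,[(16,21)]),(6,[(16,21)])],[]),([(5,[(13,15)]),(5,[(11,15)]),(4,[(9,10)])],[])],8,3,[10]),
  ([([(8,[(13,15),(9,10),(9,10)]),(7,[(22,28)])],[]),([(6,[(16,21)]),(6,[(16,21)]),(5,[(11,15)])],[5,4,3])],2,1,[]),
  ([([(7,[(22,28)]),(6,[(16,21)]),(6,[(16,21)])],[]),([(5,[(13,15)]),(5,[(11,15)]),(5,[(11,15)])],[])],8,2,[]),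
  ([([(7,[(22,28)]),(6,[(16,21)]),(6,[(16,21)])],[]),([(6,[(16,21)])],[6,4,2])],7,11,[10,15,21]),
  ([([(7,[(22,28)]),(6,[(16,21)]),(6,[(16,21)])],[]),([(6,[(16,21)]),(4,[(8,10)])],[6,3,2,1])],7,6,[10]),
  ([([(7,[(22,28)]),(6,[(16,21)]),(6,[(16,21)])],[]),([(6,[(16,21)]),(4,[(8,10)]),(4,[(8,10)])],[6])],7,5,[10]),
  ([([(7,[(22,28)]),(6,[(16,21)]),(6,[(16,21)])],[]),([(6,[(16,21)]),(4,[(8,10)]),(4,[(8,10)])],[6]),([(4,[(8,10)])],[4,4,4,4,3,3,2,2,1,1])],3,3,[4]),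
  ([([(7,[(22,28)]),(6,[(16,21)]),(6,[(16,21)])],[]),([(6,[(16,21)]),(5,[(8,10),(4,4)]),(4,[(8,10)])],[6,5]),([(4,[(8,10)])],[4,4,3,3,2,2,1,1])],1,0,[]),
  ([([(7,[(22,28)]),(6,[(16,21)]),(6,[(16,21)])],[]),([(6,[(16,21)]),(5,[(11,15)])],[6,5,4,3,2,1])],7,3,[10,15]),
  ([([(7,[(22,28)]),(6,[(16,21)]),(6,[(16,21)])],[]),([(6,[(16,21)]),(5,[(11,15)]),(4,[(8,10)])],[6,5])],7,3,[8]),
  ([([(8,[(22,28),(8,8)]),(6,[(16,21)]),(6,[(16,21)])],[]),([(6,[(16,21)]),(5,[(11,15)]),(4,[(8,10)])],[6,6,5])],1,0,[]),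
  ([([(7,[(22,28)]),(6,[(16,21)]),(6,[(16,21)])],[]),([(6,[(16,21)]),(5,[(11,15)]),(5,[(11,15)])],[6])],5,4,[]),
  ([([(7,[(22,28)]),(6,[(16,21)]),(6,[(16,21)])],[]),([(6,[(16,21)]),(6,[(16,21)])],[5,4,3,2,1])],7,3,[10]),
  ([([(7,[(22,28)]),(6,[(16,21)]),(6,[(16,21)])],[]),([(6,[(16,21)]),(6,[(16,21)]),(4,[(8,10)])],[5])],3,2,[]),
  ([([(7,[(22,28)]),(7,[(22,28)])],[])],12,4,[15,21,28]),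
  ([([(7,[(22,28)]),(7,[(22,28)]),(5,[(13,15)])],[])],12,4,[15]),
  ([([(7,[(22,28)]),(7,[(22,28)]),(5,[(13,15)])],[]),([(5,[(13,15)])],[4,3,1])],8,9,[10,15]),
  ([([(7,[(22,28)]),(7,[(22,28)]),(5,[(13,15)])],[]),([(5,[(13,15)]),(4,[(9,10)])],[2,1])],8,6,[10]),
  ([([(7,[(22,28)]),(7,[(22,28)]),(6,[(9,10),(9,10)])],[]),([(5,[(13,15)]),(5,[(13,15)])],[5,4,3,2,1])],8,1,[9]),
  ([([(9,[(13,15),(9,10),(9,10),(9,9)]),(7,[(22,28)])],[]),([(7,[(22,28)]),(5,[(13,15)])],[7,7,6])],1,0,[]),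
  ([([(7,[(22,28)]),(7,[(22,28)]),(5,[(13,15)])],[]),([(5,[(13,15)]),(5,[(11,15)])],[5,3,2,1])],7,7,[10,15]),
  ([([(7,[(22,28)]),(7,[(22,28)]),(5,[(13,15)])],[]),([(5,[(13,15)]),(5,[(11,15)]),(4,[(8,10)])],[5])],8,1,[]),
  ([([(7,[(22,28)]),(7,[(22,28)]),(5,[(13,15)])],[]),([(5,[(13,15)]),(5,[(11,15)]),(5,[(11,15)])],[])],5,4,[]),
  ([([(7,[(22,28)]),(7,[(22,28)]),(6,[(16,21)])],[])],12,4,[15,21]),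
  ([([(7,[(22,28)]),(7,[(22,28)]),(6,[(16,21)])],[]),([(5,[(13,15)])],[4,2])],8,9,[10,15]),
  ([([(7,[(22,28)]),(7,[(22,28)]),(6,[(16,21)])],[]),([(5,[(13,15)]),(4,[(9,10)])],[3,2,1])],8,4,[10]),
  ([([(7,[(22,28)]),(7,[(22,28)]),(6,[(16,21)])],[]),([(6,[(9,10),(9,10)]),(5,[(13,15)])],[4,3,2,1])],6,5,[]),
  ([([(7,[(22,28)]),(7,[(22,28)]),(6,[(16,21)])],[]),([(5,[(13,15)]),(5,[(11,15)])],[5,4,3,2,1])],8,1,[10,12]),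
  ([([(7,[(22,28)]),(7,[(22,28)]),(6,[(16,21)])],[]),([(5,[(13,15)]),(5,[(11,15)]),(4,[(9,10)])],[5])],4,3,[]),
  ([([(7,[(22,28)]),(7,[(22,28)]),(6,[(16,21)])],[]),([(5,[(13,15)]),(5,[(11,15)]),(5,[(11,12)])],[])],2,1,[]),
  ([([(7,[(22,28)]),(7,[(22,28)]),(6,[(16,21)])],[]),([(6,[(16,21)])],[5,3,1])],7,10,[10,15,19]),
  ([([(7,[(22,28)]),(7,[(22,28)]),(6,[(16,21)])],[]),([(6,[(16,21)]),(4,[(8,10)])],[5,4,3,2,1])],7,4,[10]),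
  ([([(7,[(22,28)]),(7,[(22,28)]),(6,[(16,21)])],[]),([(6,[(16,21)]),(4,[(8,10)]),(4,[(8,10)])],[5])],5,4,[]),
  ([([(7,[(22,28)]),(7,[(22,28)]),(6,[(16,21)])],[]),([(6,[(16,21)]),(5,[(11,15)])],[4,3,2,1])],7,4,[9]),
  ([([(7,[(22,28)]),(7,[(22,28)]),(6,[(16,21)])],[]),([(6,[(16,21)]),(5,[(11,15)]),(4,[(8,9)])],[])],2,1,[]),
  ([([(7,[(22,28)]),(7,[(22,28)]),(6,[(16,21)])],[]),([(6,[(16,21)]),(6,[(16,19)])],[6,5,4,3,2,1])],4,3,[]),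
  ([([(7,[(22,28)]),(7,[(22,28)])],[]),([(7,[(22,28)])],[6,5,4,3,2,1])],6,15,[10,12,14,15,21,28]),
  ([([(7,[(22,28)]),(7,[(22,28)])],[]),([(7,[(22,28)]),(4,[(7,10)])],[6,5])],6,15,[8,10]),
  ([([(7,[(22,28)]),(7,[(22,28)])],[]),([(7,[(22,28)]),(4,[(7,10)]),(4,[(7,8)])],[6,5,4,3])],6,7,[8]),
  ([([(10,[(7,10),(7,8),(7,8)]),(7,[(22,28)])],[]),([(7,[(22,28)]),(7,[(22,28)])],[7,7])],3,9,[5,6,8]),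
  ([([(7,[(22,28)]),(7,[(22,28)])],[]),([(7,[(22,28)]),(6,[(7,8),(7,8),(4,5)]),(4,[(7,10)])],[4,3])],5,6,[]),
  ([([(10,[(7,10),(7,8),(7,8),(6,6)]),(7,[(22,28)])],[]),([(7,[(22,28)]),(7,[(22,28)])],[7,7])],3,4,[5]),
  ([([(10,[(7,10),(7,8),(7,8),(6,6),(4,5)]),(7,[(22,28)])],[]),([(7,[(22,28)]),(7,[(22,28)])],[7,7])],2,1,[]),
  ([([(10,[(7,10),(7,8),(7,8),(7,8)]),(7,[(22,28)])],[]),([(7,[(22,28)]),(7,[(22,28)])],[7,7])],3,3,[4]),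
  ([([(10,[(7,10),(7,8),(7,8),(7,8),(4,4)]),(7,[(22,28)])],[]),([(7,[(22,28)]),(7,[(22,28)])],[7,7])],1,0,[]),
  ([([(7,[(22,28)]),(7,[(22,28)])],[]),([(7,[(22,28)]),(4,[(7,10)]),(4,[(9,10)])],[6,5,4,3])],6,7,[8,10]),
  ([([(11,[(7,10),(9,10),(7,8)]),(7,[(22,28)])],[]),([(7,[(22,28)]),(7,[(22,28)])],[7,7,7])],2,7,[3,6,8]),
  ([([(7,[(22,28)]),(7,[(22,28)])],[]),([(7,[(22,28)]),(6,[(9,10),(7,8),(3,3)]),(4,[(7,10)])],[4,3])],3,5,[]),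
  ([([(11,[(7,10),(9,10),(7,8),(4,6)]),(7,[(22,28)])],[]),([(7,[(22,28)]),(7,[(22,28)])],[7,7,7])],2,4,[3,5]),
  ([([(7,[(22,28)]),(7,[(22,28)])],[]),([(7,[(22,28)]),(6,[(9,10),(7,8),(3,3)]),(4,[(7,10)])],[4,3]),([(3,[(4,6)])],[3,3,3,3,3,3,2,2,2,1,1,1])],3,2,[]),
  ([([(11,[(7,10),(9,10),(7,8),(4,6),(4,5)]),(7,[(22,28)])],[]),([(7,[(22,28)]),(7,[(22,28)])],[7,7,7])],2,1,[]),
  ([([(11,[(7,10),(9,10),(7,8),(7,8)]),(7,[(22,28)])],[]),([(7,[(22,28)]),(7,[(22,28)])],[7,7,7])],2,1,[]),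
  ([([(7,[(22,28)]),(7,[(22,28)])],[]),([(7,[(22,28)]),(6,[(9,10),(9,10)]),(4,[(7,10)])],[4,3])],6,5,[]),
  ([([(7,[(22,28)]),(7,[(22,28)])],[]),([(7,[(22,28)]),(5,[(11,12)])],[6])],6,15,[10,11,12]),
  ([([(7,[(22,28)]),(7,[(22,28)])],[]),([(7,[(22,28)]),(5,[(11,12)]),(4,[(7,10)])],[6,4,3])],6,7,[10]),
  ([([(7,[(22,28)]),(7,[(22,28)])],[]),([(7,[(22,28)]),(5,[(11,12)]),(4,[(7,10)])],[6,4,3]),([(4,[(7,10)])],[4,4,4,4,4,4,3,3,3,2,2,2,1])],2,5,[3,6]),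
  ([([(7,[(22,28)]),(7,[(22,28)])],[]),([(7,[(22,28)]),(5,[(11,12),(3,3)]),(4,[(7,10)])],[6,4,3]),([(4,[(7,10)])],[4,4,4,4,4,4,3,3,3,2,2,2,1])],2,3,[3]),
  ([([(7,[(22,28)]),(7,[(22,28)])],[]),([(7,[(22,28)]),(5,[(11,12),(3,3)]),(4,[(7,10)])],[6,4,3]),([(4,[(7,10)]),(2,[(3,3)])],[4,4,4,4,4,4,3,3,3,2,2])],2,1,[]),
  ([([(7,[(22,28)]),(7,[(22,28)])],[]),([(7,[(22,28)]),(5,[(11,12)]),(4,[(7,10)])],[6,4,3]),([(4,[(7,10)]),(3,[(4,6)])],[4,4,4,4,4,4,3,3,2,2])],2,2,[3]),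
  ([([(12,[(11,12),(7,10),(7,10),(4,6),(3,3)]),(7,[(22,28)])],[]),([(7,[(22,28)]),(7,[(22,28)])],[7,7,7,7])],1,0,[]),
  ([([(12,[(11,12),(11,11)]),(7,[(22,28)])],[]),([(7,[(22,28)]),(7,[(22,28)])],[7,7,7,7])],1,7,[3,6,8]),
  ([([(7,[(22,28)]),(7,[(22,28)])],[]),([(7,[(22,28)]),(7,[(11,12),(11,11),(2,3)])],[7])],3,6,[]),
  ([([(12,[(11,12),(11,11),(4,6)]),(7,[(22,28)])],[]),([(7,[(22,28)]),(7,[(22,28)])],[7,7,7,7])],1,4,[3,5]),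
  ([([(7,[(22,28)]),(7,[(22,28)])],[]),([(7,[(22,28)]),(7,[(11,12),(11,11),(2,3)]),(3,[(4,6)])],[7,3])],3,3,[]),
  ([([(7,[(22,28)]),(7,[(22,28)])],[]),([(7,[(22,28)]),(7,[(11,12),(11,11),(4,5)]),(3,[(4,6)])],[7,3])],2,1,[]),
  ([([(12,[(11,12),(11,11),(7,8)]),(7,[(22,28)])],[]),([(7,[(22,28)]),(7,[(22,28)])],[7,7,7,7])],1,1,[2]),
  ([([(12,[(11,12),(11,11),(7,8),(2,2)]),(7,[(22,28)])],[]),([(7,[(22,28)]),(7,[(22,28)])],[7,7,7,7])],1,0,[]),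
  ([([(7,[(22,28)]),(7,[(22,28)])],[]),([(7,[(22,28)]),(7,[(11,12),(12,12)])],[7])],6,1,[7]),
  ([([(13,[(11,12),(12,12),(7,7)]),(7,[(22,28)])],[]),([(7,[(22,28)]),(7,[(22,28)])],[7,7,7,7,7])],1,0,[]),
  ([([(7,[(22,28)]),(7,[(22,28)])],[]),([(7,[(22,28)]),(5,[(13,14)])],[6])],6,15,[10,14]),
  ([([(7,[(22,28)]),(7,[(22,28)])],[]),([(7,[(22,28)]),(5,[(13,14)]),(4,[(7,10)])],[6,4,3])],6,7,[10]),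
  ([([(7,[(22,28)]),(7,[(22,28)])],[]),([(7,[(22,28)]),(5,[(13,14)]),(4,[(7,10)])],[6,4,3]),([(4,[(7,10)])],[4,4,4,4,4,4,3,3,3,2,2,2,1])],2,3,[3,4]),
  ([([(7,[(22,28)]),(7,[(22,28)])],[]),([(7,[(22,28)]),(5,[(13,14)]),(4,[(7,10)])],[6,4,3]),([(4,[(7,10)]),(2,[(3,3)])],[4,4,4,4,4,4,3,3,3,2,2])],2,1,[]),
  ([([(7,[(22,28)]),(7,[(22,28)])],[]),([(7,[(22,28)]),(7,[(13,14),(7,10),(4,4)])],[7]),([(4,[(7,10)])],[3,3,3,3,3,3,3,3,3,3,3,3,3,3])],1,0,[]),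
  ([([(7,[(22,28)]),(7,[(22,28)])],[]),([(7,[(22,28)]),(7,[(13,14),(11,14)])],[7])],6,1,[]),
  ([([(7,[(22,28)]),(7,[(22,28)])],[]),([(7,[(22,28)]),(5,[(15,15)])],[6])],6,13,[10,14]),
  ([([(7,[(22,28)]),(7,[(22,28)])],[]),([(7,[(22,28)]),(5,[(15,15)]),(4,[(7,10)])],[6,4,3])],6,7,[8]),
  ([([(7,[(22,28)]),(7,[(22,28)])],[]),([(7,[(22,28)]),(5,[(15,15)]),(4,[(7,10)])],[6,4,3]),([(4,[(7,8)])],[4,4,4,4,4,4,3,3,3,2,2,2,1])],2,1,[]),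
  ([([(7,[(22,28)]),(7,[(22,28)])],[]),([(7,[(22,28)]),(5,[(15,15)])],[6]),([(5,[(11,14)])],[5,5,5,5,5,5,5,5,5,5,5,5,5,5])],1,3,[3,4]),
  ([([(7,[(22,28)]),(7,[(22,28)])],[]),([(7,[(22,28)]),(6,[(15,15),(2,3)])],[]),([(5,[(11,14)])],[5,5,5,5,5,5,5,5,5,5,5,5,5,5])],1,2,[3]),
  ([([(7,[(22,28)]),(7,[(22,28)])],[]),([(7,[(22,28)]),(6,[(15,15),(2,3),(2,3)])],[]),([(5,[(11,14)])],[5,5,5,5,5,5,5,5,5,5,5,5,5,5])],1,1,[2]),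
  ([([(9,[(22,28),(15,15),(2,2)]),(7,[(22,28)])],[]),([(7,[(22,28)]),(5,[(11,14)])],[7,7,6]),([(4,[(2,3),(2,3)])],[4,4,4,4,4,4,4,4,4,4,4,4,4,4,4,4])],1,0,[]),
  ([([(7,[(22,28)]),(7,[(22,28)])],[]),([(7,[(22,28)]),(6,[(15,15),(4,4)])],[]),([(5,[(11,14)])],[5,5,5,5,5,5,5,5,5,5,5,5,5,5])],1,0,[]),
  ([([(7,[(22,28)]),(7,[(22,28)])],[]),([(7,[(22,28)]),(6,[(16,21)])],[])],6,12,[10,11,13]),
  ([([(7,[(22,28)]),(7,[(22,28)])],[]),([(7,[(22,28)]),(6,[(16,21)]),(4,[(7,10)])],[4,3])],6,6,[7]),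
  ([([(7,[(22,28)]),(7,[(22,28)])],[]),([(7,[(22,28)]),(7,[(16,21),(7,7)])],[7]),([(4,[(7,10)])],[3,3,3,3,3,3,3,3,3,3,3,3,3,3])],1,0,[]),
  ([([(7,[(22,28)]),(7,[(22,28)])],[]),([(7,[(22,28)]),(6,[(16,21)])],[]),([(5,[(11,11)])],[5,5,5,5,5,5,5,5,5,5,5,5,5,5])],1,2,[2,3]),
  ([([(7,[(22,28)]),(7,[(22,28)])],[]),([(7,[(22,28)]),(6,[(16,21)])],[]),([(5,[(11,11),(2,2)])],[5,5,5,5,5,5,5,5,5,5,5,5,5,5])],1,1,[2]),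
  ([([(7,[(22,28)]),(7,[(22,28)])],[]),([(7,[(22,28)]),(6,[(16,21)])],[]),([(5,[(11,11),(2,2),(2,2)])],[5,5,5,5,5,5,5,5,5,5,5,5,5,5])],1,0,[]),
  ([([(7,[(22,28)]),(7,[(22,28)])],[]),([(7,[(22,28)]),(6,[(16,21)])],[]),([(5,[(11,11),(3,3)])],[5,5,5,5,5,5,5,5,5,5,5,5,5,5])],1,0,[]),
  ([([(7,[(22,28)]),(7,[(22,28)])],[]),([(7,[(22,28)]),(6,[(16,21)])],[]),([(5,[(12,13)])],[5,5,5,5,5,5,5,5,5,5,5,5,5,5])],1,1,[2]),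
  ([([(7,[(22,28)]),(7,[(22,28)])],[]),([(7,[(22,28)]),(6,[(16,21)])],[]),([(5,[(12,13),(2,2)])],[5,5,5,5,5,5,5,5,5,5,5,5,5,5])],1,0,[]),
  ([([(7,[(22,28)]),(7,[(22,28)])],[]),([(7,[(22,28)]),(7,[(22,28)])],[7])],6,1,[7]),
  ([([(7,[(22,28)]),(7,[(22,28)])],[]),([(7,[(22,28)]),(7,[(22,28)])],[7]),([(4,[(7,7)])],[3,3,3,3,3,3,3,3,3,3,3,3,3,3])],1,0,[]),
  ([([(8,[(29,36)])],[])],12,9,[15,21,28,36]), ([([(8,[(29,36)]),(5,[(13,15)])],[])],12,4,[15]),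
  ([([(8,[(29,36)]),(5,[(13,15)]),(5,[(13,15)])],[])],12,4,[15]),
  ([([(9,[(13,15),(13,15),(13,15)]),(8,[(29,36)])],[])],11,2,[15]),
  ([([(8,[(29,36)]),(5,[(13,15)]),(5,[(13,15)])],[]),([(5,[(13,15)]),(5,[(12,15)])],[5,5,4,3,2,1])],7,5,[10,15]),
  ([([(8,[(29,36)]),(5,[(13,15)]),(5,[(13,15)])],[]),([(5,[(13,15)]),(5,[(12,15)]),(4,[(8,10)])],[5,5])],7,5,[9]),
  ([([(10,[(8,10),(8,9)]),(9,[(13,15),(13,15),(13,15)])],[]),([(8,[(29,36)]),(5,[(12,15)])],[8,7,6])],2,1,[]),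
  ([([(9,[(13,15),(13,15),(13,15)]),(8,[(29,36)])],[]),([(5,[(12,15)]),(5,[(11,15)])],[])],6,5,[]),
  ([([(8,[(29,36)]),(6,[(16,21)])],[])],11,7,[15,21]),
  ([([(8,[(29,36)]),(6,[(16,21)]),(5,[(12,15)])],[])],12,3,[15]),
  ([([(8,[(29,36)]),(6,[(16,21)]),(5,[(12,15)])],[]),([(5,[(13,15)])],[5,5,4,2])],7,11,[10,15]),
  ([([(8,[(29,36)]),(6,[(16,21)]),(5,[(12,15)])],[]),([(5,[(13,15)]),(4,[(8,10)])],[5,5,3,2,1])],7,6,[10]),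
  ([([(8,[(29,36)]),(6,[(16,21)]),(5,[(12,15)])],[]),([(5,[(13,15)]),(4,[(8,10)]),(4,[(8,10)])],[5,5])],7,5,[10]),
  ([([(8,[(29,36)]),(6,[(16,21)]),(5,[(12,15)])],[]),([(5,[(13,15)]),(4,[(8,10)]),(4,[(8,10)])],[5,5]),([(4,[(8,10)])],[4,4,4,4,3,3,2,2,1,1])],3,3,[4]),
  ([([(8,[(29,36)]),(6,[(16,21)]),(6,[(13,15),(4,4)])],[]),([(5,[(12,15)]),(4,[(8,10)]),(4,[(8,10)])],[5,5]),([(4,[(8,10)])],[4,4,4,3,3,2,2,1,1])],1,0,[]),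
  ([([(8,[(29,36)]),(6,[(16,21)]),(5,[(12,15)])],[]),([(5,[(13,15)]),(5,[(11,15)])],[5,3,2,1])],7,6,[10,15]),
  ([([(8,[(29,36)]),(6,[(16,21)]),(5,[(12,15)])],[]),([(5,[(13,15)]),(5,[(11,15)]),(4,[(8,10)])],[5])],7,5,[8]),
  ([([(8,[(29,36)]),(6,[(16,21)]),(5,[(12,15)])],[]),([(5,[(13,15)]),(5,[(11,15)]),(4,[(8,10)])],[5]),([(4,[(8,8)])],[4,4,4,4,3,3,2,2,1,1])],1,0,[]),
  ([([(8,[(29,36)]),(6,[(16,21)]),(5,[(12,15)])],[]),([(5,[(13,15)]),(5,[(11,15)]),(5,[(11,15)])],[])],5,4,[]),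
  ([([(8,[(29,36)]),(6,[(16,21)]),(6,[(16,21)])],[])],12,3,[15,21]),
  ([([(8,[(29,36)]),(6,[(16,21)]),(6,[(16,21)])],[]),([(5,[(13,15)])],[5,5,3,1])],7,10,[10,15]),
  ([([(8,[(29,36)]),(6,[(16,21)]),(6,[(16,21)])],[]),([(5,[(13,15)]),(4,[(8,10)])],[5,5,4,3,2,1])],7,4,[10]),
  ([([(8,[(29,36)]),(6,[(16,21)]),(6,[(16,21)])],[]),([(5,[(13,15)]),(4,[(8,10)]),(4,[(8,10)])],[5,5])],7,4,[]),
  ([([(8,[(29,36)]),(6,[(16,21)]),(6,[(16,21)])],[]),([(5,[(13,15)]),(5,[(11,15)])],[5,4,3,2,1])],7,4,[10,11]),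
  ([([(8,[(29,36)]),(6,[(16,21)]),(6,[(16,21)])],[]),([(5,[(13,15)]),(5,[(11,15)]),(4,[(8,10)])],[5])],4,3,[]),
  ([([(8,[(29,36)]),(7,[(13,15),(11,11)])],[]),([(6,[(16,21)]),(6,[(16,21)]),(5,[(11,15)])],[5,4,3])],1,0,[]),
  ([([(8,[(29,36)]),(6,[(16,21)]),(6,[(16,21)])],[]),([(6,[(16,21)])],[6,6,4,2])],6,12,[10,15,18]),
  ([([(8,[(29,36)]),(6,[(16,21)]),(6,[(16,21)])],[]),([(6,[(16,21)]),(4,[(7,10)])],[6,6,3,2,1])],6,7,[10]),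
  ([([(8,[(29,36)]),(6,[(16,21)]),(6,[(16,21)])],[]),([(6,[(16,21)]),(4,[(7,10)]),(4,[(7,10)])],[6,6])],6,5,[]),
  ([([(8,[(29,36)]),(6,[(16,21)]),(6,[(16,21)])],[]),([(6,[(16,21)]),(5,[(11,15)])],[6,6,5,4,3,2,1])],6,4,[8]),
  ([([(8,[(29,36)]),(6,[(16,21)]),(6,[(16,21)])],[]),([(6,[(16,21)]),(5,[(11,15)]),(4,[(7,8)])],[6,6,5])],2,1,[]),
  ([([(8,[(29,36)]),(6,[(16,21)]),(6,[(16,21)])],[]),([(6,[(16,21)]),(6,[(16,18)])],[6,5,4,3,2,1])],3,2,[]),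
  ([([(8,[(29,36)]),(7,[(22,28)])],[])],11,6,[15,21,28]),
  ([([(8,[(29,36)]),(7,[(22,28)]),(5,[(12,15)])],[])],12,2,[15]),
  ([([(8,[(29,36)]),(7,[(22,28)]),(5,[(12,15)])],[]),([(5,[(13,15)])],[5,4,3,1])],7,10,[10,15]),
  ([([(8,[(29,36)]),(7,[(22,28)]),(5,[(12,15)])],[]),([(5,[(13,15)]),(4,[(8,10)])],[5,2,1])],7,7,[10]),
  ([([(8,[(29,36)]),(7,[(22,28)]),(5,[(12,15)])],[]),([(5,[(13,15)]),(4,[(8,10)]),(4,[(8,10)])],[5,4])],5,4,[]),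
  ([([(8,[(29,36)]),(7,[(22,28)]),(5,[(12,15)])],[]),([(5,[(13,15)]),(5,[(11,15)])],[2,1])],7,7,[9]),
  ([([(8,[(29,36)]),(7,[(22,28)]),(5,[(12,15)])],[]),([(5,[(13,15)]),(5,[(11,15)]),(4,[(8,9)])],[4])],2,1,[]),
  ([([(8,[(29,36)]),(7,[(22,28)])],[]),([(6,[(16,21)])],[6,5,4,3,2,1])],6,14,[10,15,21]),
  ([([(8,[(29,36)]),(7,[(22,28)])],[]),([(6,[(16,21)]),(4,[(7,10)])],[6,5])],6,14,[10]),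
  ([([(8,[(29,36)]),(7,[(22,28)])],[]),([(6,[(16,21)]),(4,[(7,10)]),(4,[(7,10)])],[6,5,4,3,2])],6,6,[10]),
  ([([(8,[(29,36)]),(7,[(22,28)])],[]),([(6,[(16,21)]),(4,[(7,10)]),(4,[(7,10)]),(4,[(7,10)])],[6,5])],6,6,[9]),
  ([([(8,[(29,36)]),(7,[(22,28)])],[]),([(6,[(16,21)]),(4,[(7,10)]),(4,[(7,10)]),(4,[(7,10)])],[6,5]),([(4,[(7,9)])],[4,4,4,4,4,3,3,3,2,2,2,1,1])],2,2,[3]),
  ([([(12,[(7,10),(7,10),(7,10),(7,9),(3,3)]),(8,[(29,36)])],[]),([(7,[(22,28)]),(6,[(16,21)])],[7,7,7,7])],1,0,[]),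
  ([([(8,[(29,36)]),(7,[(22,28)])],[]),([(6,[(16,21)]),(5,[(11,15)])],[6])],6,14,[10,15]),
  ([([(8,[(29,36)]),(7,[(22,28)])],[]),([(6,[(16,21)]),(5,[(11,15)]),(4,[(7,10)])],[6,4,3,2])],6,6,[10]),
  ([([(8,[(29,36)]),(7,[(22,28)])],[]),([(6,[(16,21)]),(5,[(11,15)]),(4,[(7,10)]),(4,[(7,10)])],[6])],5,4,[]),
  ([([(8,[(29,36)]),(7,[(22,28)])],[]),([(6,[(16,21)]),(5,[(11,15)]),(5,[(11,15)])],[6,5,4,3])],6,4,[7]),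
  ([([(8,[(29,36)]),(7,[(22,28)])],[]),([(7,[(16,21),(7,7)]),(5,[(11,15)])],[7,6]),([(5,[(11,15)])],[5,5,5,5,5,5,5,5,5,5,5,5,5,5,5])],1,0,[]),
  ([([(8,[(29,36)]),(7,[(22,28)])],[]),([(6,[(16,21)]),(6,[(16,21)])],[])],6,11,[10,12]),
  ([([(8,[(29,36)]),(7,[(22,28)])],[]),([(6,[(16,21)]),(6,[(16,21)]),(4,[(7,10)])],[4,3,2])],6,5,[]),
  ([([(8,[(29,36)]),(7,[(22,28)])],[]),([(6,[(16,21)]),(6,[(16,21)]),(5,[(11,12)])],[5,4,3])],2,1,[]),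
  ([([(8,[(29,36)]),(7,[(22,28)])],[]),([(7,[(22,28)])],[7,6,5,4,3,2,1])],5,16,[6,10,15,21]),
  ([([(8,[(29,36)]),(7,[(22,28)])],[]),([(7,[(22,28)]),(3,[(6,6)])],[7,6,5,4])],5,15,[6]),
  ([([(8,[(29,36)]),(7,[(22,28)])],[]),([(7,[(22,28)]),(5,[(6,6),(6,6)])],[7,6])],5,10,[6]),
  ([([(8,[(29,36)]),(7,[(22,28)])],[]),([(7,[(22,28)]),(6,[(6,6),(6,6),(6,6)])],[7])],5,5,[6]),
  ([([(8,[(29,36)]),(8,[(6,6),(6,6),(6,6),(6,6)])],[]),([(7,[(22,28)]),(7,[(22,28)])],[7])],1,0,[]),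
  ([([(8,[(29,36)]),(7,[(22,28)])],[]),([(7,[(22,28)]),(4,[(7,10)])],[7,6,5])],5,14,[6,10]),
  ([([(8,[(29,36)]),(7,[(22,28)])],[]),([(7,[(22,28)]),(4,[(7,10)]),(3,[(6,6)])],[7,6,5,3,2])],5,9,[6]),
  ([([(8,[(29,36)]),(7,[(22,28)])],[]),([(7,[(22,28)]),(5,[(6,6),(6,6)]),(4,[(7,10)])],[7,6,4,3])],5,4,[]),
  ([([(8,[(29,36)]),(7,[(22,28)])],[]),([(7,[(22,28)]),(4,[(7,10)]),(4,[(7,10)])],[7,6,5,4,3])],5,8,[6,9]),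
  ([([(11,[(7,10),(7,10),(6,6)]),(8,[(29,36)])],[]),([(7,[(22,28)]),(7,[(22,28)])],[7,7])],2,3,[3,4]),
  ([([(11,[(7,10),(7,10),(6,6),(3,3)]),(8,[(29,36)])],[]),([(7,[(22,28)]),(7,[(22,28)])],[7,7])],2,1,[]),
  ([([(11,[(7,10),(7,10),(6,6),(4,4)]),(8,[(29,36)])],[]),([(7,[(22,28)]),(7,[(22,28)])],[7,7])],1,0,[]),
  ([([(11,[(7,10),(7,10),(7,9)]),(8,[(29,36)])],[]),([(7,[(22,28)]),(7,[(22,28)])],[7,7])],2,2,[3]),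
  ([([(11,[(7,10),(7,10),(7,9),(3,3)]),(8,[(29,36)])],[]),([(7,[(22,28)]),(7,[(22,28)])],[7,7])],1,0,[]),
  ([([(8,[(29,36)]),(7,[(22,28)])],[]),([(7,[(22,28)]),(5,[(11,15)])],[7,6])],5,10,[6,10,11]),
  ([([(8,[(29,36)]),(7,[(22,28)])],[]),([(7,[(22,28)]),(6,[(11,15),(6,6)])],[7])],5,5,[6]),
  ([([(8,[(29,36)]),(7,[(22,28)])],[]),([(7,[(22,28)]),(6,[(11,15),(6,6)]),(3,[(6,6)])],[7,3,2])],1,0,[]),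
  ([([(8,[(29,36)]),(7,[(22,28)])],[]),([(7,[(22,28)]),(5,[(11,15)]),(4,[(7,10)])],[7,6,4,3])],5,4,[]),
  ([([(8,[(29,36)]),(7,[(22,28)])],[]),([(7,[(22,28)]),(5,[(11,15)])],[7,6]),([(5,[(11,11)])],[5,5,5,5,5,5,5,5,5,5,5,5,5,5,5])],1,0,[]),
  ([([(8,[(29,36)]),(7,[(22,28)])],[]),([(7,[(22,28)]),(6,[(16,21)])],[7])],5,5,[6]),
  ([([(8,[(29,36)]),(7,[(22,28)])],[]),([(7,[(22,28)]),(6,[(16,21)]),(3,[(6,6)])],[7,3,2])],1,0,[]),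
  ([([(8,[(29,36)]),(8,[(29,36)])],[])],11,4,[15,21,28,35]),
  ([([(8,[(29,36)]),(8,[(29,36)])],[]),([(5,[(12,15)])],[4,3,2,1])],7,11,[10,15]),
  ([([(8,[(29,36)]),(8,[(29,36)])],[]),([(5,[(12,15)]),(4,[(8,10)])],[])],7,11,[10]),
  ([([(8,[(29,36)]),(8,[(29,36)])],[]),([(5,[(12,15)]),(4,[(8,10)]),(4,[(8,10)])],[4,3,2,1])],7,3,[10]),
  ([([(8,[(29,36)]),(8,[(29,36)])],[]),([(5,[(12,15)]),(4,[(8,10)]),(4,[(8,10)]),(4,[(8,10)])],[])],3,2,[]),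
  ([([(8,[(29,36)]),(8,[(29,36)])],[]),([(5,[(12,15)]),(5,[(11,15)])],[5])],6,13,[10,14]),
  ([([(8,[(29,36)]),(8,[(29,36)])],[]),([(5,[(12,15)]),(5,[(11,15)]),(4,[(7,10)])],[5,4,3,2])],7,1,[8]),
  ([([(8,[(29,36)]),(8,[(29,36)])],[]),([(5,[(12,15)]),(5,[(11,15)]),(4,[(7,10)]),(4,[(8,8)])],[5])],1,0,[]),
  ([([(8,[(29,36)]),(8,[(29,36)])],[]),([(5,[(12,15)]),(5,[(11,15)]),(5,[(11,14)])],[4,3,2])],4,3,[]),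
  ([([(8,[(29,36)]),(8,[(29,36)])],[]),([(6,[(16,21)])],[5,4,3,2,1])],6,13,[10,15,20]),
  ([([(8,[(29,36)]),(8,[(29,36)])],[]),([(6,[(16,21)]),(4,[(7,10)])],[5])],6,13,[10]),
  ([([(8,[(29,36)]),(8,[(29,36)])],[]),([(6,[(16,21)]),(4,[(7,10)]),(4,[(7,10)])],[5,4,3,2])],6,5,[8]),
  ([([(8,[(29,36)]),(8,[(29,36)])],[]),([(6,[(16,21)]),(4,[(7,10)]),(4,[(7,10)]),(4,[(7,8)])],[5])],2,1,[]),
  ([([(8,[(29,36)]),(8,[(29,36)])],[]),([(6,[(16,21)]),(5,[(11,15)])],[])],6,9,[10]),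
  ([([(8,[(29,36)]),(8,[(29,36)])],[]),([(6,[(16,21)]),(5,[(11,15)]),(4,[(7,10)])],[4,3,2])],4,3,[]),
  ([([(8,[(29,36)]),(8,[(29,36)])],[]),([(6,[(16,21)]),(6,[(16,20)])],[6])],5,4,[]),
  ([([(8,[(29,36)]),(8,[(29,36)])],[]),([(7,[(22,28)])],[6,5,4,3,2,1])],5,13,[6,10,14]),
  ([([(8,[(29,36)]),(8,[(29,36)])],[]),([(7,[(22,28)]),(3,[(6,6)])],[6,5,4])],5,8,[6]),
  ([([(8,[(29,36)]),(8,[(29,36)])],[]),([(7,[(22,28)]),(5,[(6,6),(6,6)])],[6])],4,3,[]),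
  ([([(8,[(29,36)]),(8,[(29,36)])],[]),([(7,[(22,28)]),(4,[(7,10)])],[6,5])],5,7,[6,8]),
  ([([(8,[(29,36)]),(8,[(29,36)])],[]),([(7,[(22,28)]),(4,[(7,10)]),(3,[(6,6)])],[6,5,3,2])],3,2,[]),
  ([([(10,[(7,10),(7,8)]),(8,[(29,36)])],[]),([(8,[(29,36)]),(7,[(22,28)])],[8,8])],2,1,[]),
  ([([(8,[(29,36)]),(8,[(29,36)])],[]),([(7,[(22,28)]),(5,[(11,14)])],[6])],4,3,[]),
  ([([(8,[(29,36)]),(8,[(29,36)])],[]),([(8,[(29,35)])],[7,6,5,4,3,2,1])],4,6,[6,7]),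
  ([([(8,[(29,36)]),(8,[(29,36)])],[]),([(8,[(29,35)]),(3,[(5,6)])],[7,6,5,4])],3,2,[]),
  ([([(8,[(29,36)]),(8,[(29,36)])],[]),([(8,[(29,35)]),(4,[(7,7)])],[7,6,5])],1,0,[]),
  ([([(9,[(37,45)])],[])],11,10,[15,21,28,36,45]),
  ([([(9,[(37,45)]),(5,[(12,15)])],[])],11,5,[15]),
  ([([(9,[(37,45)]),(5,[(12,15)]),(5,[(12,15)])],[])],11,5,[15]),
  ([([(9,[(37,45)]),(5,[(12,15)]),(5,[(12,15)])],[]),([(5,[(12,15)])],[5,5,5,5,3,1])],6,12,[10,15]),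
  ([([(9,[(37,45)]),(5,[(12,15)]),(5,[(12,15)])],[]),([(5,[(12,15)]),(4,[(7,10)])],[5,5,5,5,4,3,2,1])],6,6,[10]),
  ([([(9,[(37,45)]),(5,[(12,15)]),(5,[(12,15)])],[]),([(5,[(12,15)]),(4,[(7,10)]),(4,[(7,10)])],[5,5,5,5])],6,6,[10]),
  ([([(11,[(7,10),(7,10),(7,10)]),(9,[(37,45)])],[]),([(5,[(12,15)]),(5,[(12,15)]),(5,[(12,15)])],[4,3,2,1])],4,3,[]),
  ([([(9,[(37,45)]),(5,[(12,15)]),(5,[(12,15)])],[]),([(5,[(12,15)]),(5,[(11,15)])],[5,5,5,4,3,2,1])],6,6,[10,12]),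
  ([([(9,[(37,45)]),(5,[(12,15)]),(5,[(12,15)])],[]),([(5,[(12,15)]),(5,[(11,15)]),(4,[(7,10)])],[5,5,5])],6,5,[]),
  ([([(9,[(37,45)]),(7,[(12,15),(11,12)])],[]),([(5,[(12,15)]),(5,[(12,15)]),(5,[(11,15)])],[4,3,2])],2,1,[]),
  ([([(9,[(37,45)]),(6,[(16,21)])],[])],11,4,[15,17,21]),
  ([([(9,[(37,45)]),(6,[(16,21)]),(5,[(12,15)])],[])],11,4,[15]),
  ([([(9,[(37,45)]),(6,[(16,21)]),(5,[(12,15)])],[]),([(5,[(12,15)])],[5,5,5,4,2])],6,12,[10,15]),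
  ([([(9,[(37,45)]),(6,[(16,21)]),(5,[(12,15)])],[]),([(5,[(12,15)]),(4,[(7,10)])],[5,5,5,3,2,1])],6,7,[10]),
  ([([(9,[(37,45)]),(6,[(16,21)]),(5,[(12,15)])],[]),([(5,[(12,15)]),(4,[(7,10)]),(4,[(7,10)])],[5,5,5])],6,5,[]),
  ([([(9,[(37,45)]),(6,[(16,21)]),(5,[(12,15)])],[]),([(5,[(12,15)]),(5,[(11,15)])],[5,5,3,2,1])],6,7,[8]),
  ([([(9,[(37,45)]),(6,[(16,21)]),(5,[(12,15)])],[]),([(5,[(12,15)]),(5,[(11,15)]),(4,[(7,8)])],[5,5])],2,1,[]),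
  ([([(9,[(37,45)]),(6,[(16,21)])],[]),([(6,[(16,17)])],[6,6,6,5,4,3,2,1])],5,16,[6,10,15,17]),
  ([([(9,[(37,45)]),(6,[(16,21)])],[]),([(6,[(16,17)]),(3,[(6,6)])],[6,6,6,5,4])],5,16,[6]),
  ([([(9,[(37,45)]),(6,[(16,21)])],[]),([(6,[(16,17)]),(5,[(6,6),(6,6)])],[6,6,6])],5,14,[6]),
  ([([(9,[(37,45)]),(8,[(16,17),(6,6),(6,6),(6,6)])],[]),([(6,[(16,21)])],[6,5,4,3,2,1])],5,9,[6]),
  ([([(9,[(37,45)]),(8,[(16,17),(6,6),(6,6),(6,6)])],[]),([(6,[(16,21)]),(3,[(6,6)])],[6,5,4])],5,4,[]),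
  ([([(9,[(37,45)]),(7,[(16,17),(7,10)])],[]),([(6,[(16,21)])],[6,6,5,4,3,2,1])],5,15,[6,10]),
  ([([(9,[(37,45)]),(7,[(16,17),(7,10)])],[]),([(6,[(16,21)]),(3,[(6,6)])],[6,6,5,4])],5,13,[6]),
  ([([(9,[(37,45)]),(7,[(16,17),(7,10)])],[]),([(6,[(16,21)]),(5,[(6,6),(6,6)])],[6,6])],5,8,[6]),
  ([([(9,[(37,45)]),(9,[(16,17),(7,10),(6,6),(6,6),(6,6)])],[]),([(6,[(16,21)])],[5,4,3,2,1])],4,3,[]),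
  ([([(9,[(37,45)]),(7,[(16,17),(7,10)])],[]),([(6,[(16,21)]),(4,[(7,10)])],[6,6,5])],5,12,[6,10]),
  ([([(9,[(37,45)]),(7,[(16,17),(7,10)])],[]),([(6,[(16,21)]),(4,[(7,10)]),(3,[(6,6)])],[6,6,5,3,2])],5,7,[6]),
  ([([(10,[(7,10),(6,6),(6,6)]),(9,[(37,45)])],[]),([(7,[(16,17),(7,10)]),(6,[(16,21)])],[7])],3,2,[]),
  ([([(9,[(37,45)]),(7,[(16,17),(7,10)])],[]),([(6,[(16,21)]),(4,[(7,10)]),(4,[(7,10)])],[6,6,5,4,3,2])],5,6,[6,7]),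
  ([([(11,[(7,10),(7,10),(6,6)]),(9,[(37,45)])],[]),([(7,[(16,17),(7,10)]),(6,[(16,21)])],[7,7])],2,1,[]),
  ([([(11,[(7,10),(7,10),(7,10)]),(9,[(37,45)])],[]),([(9,[(16,21),(16,17),(7,7)])],[9,9,8,7,6,5,4,3,2,1])],1,0,[]),
  ([([(9,[(37,45)]),(6,[(16,21)])],[]),([(6,[(16,17)]),(5,[(11,15)])],[6,6,6])],5,14,[6,10,11,13,15]),
  ([([(9,[(37,45)]),(6,[(16,21)])],[]),([(6,[(16,17)]),(6,[(11,15),(6,6)])],[6,6])],5,9,[6]),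
  ([([(9,[(37,45)]),(6,[(16,21)])],[]),([(6,[(16,17)]),(6,[(11,15),(6,6)]),(3,[(6,6)])],[6,6,3,2])],5,4,[]),
  ([([(9,[(37,45)]),(7,[(16,17),(7,10)])],[]),([(6,[(16,21)]),(5,[(11,15)])],[6,6])],5,8,[6,9]),
  ([([(9,[(37,45)]),(7,[(16,17),(7,10)])],[]),([(6,[(16,21)]),(6,[(11,15),(6,6)])],[6])],4,3,[]),
  ([([(9,[(37,45)]),(7,[(16,17),(7,10)])],[]),([(6,[(16,21)]),(5,[(11,15)]),(4,[(7,9)])],[6,6,4,3,2])],3,2,[]),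
  ([([(9,[(37,45)]),(7,[(16,17),(11,11)])],[]),([(6,[(16,21)]),(5,[(11,15)])],[6,6])],5,4,[]),
  ([([(9,[(37,45)]),(9,[(16,17),(11,15),(12,13)])],[]),([(6,[(16,21)])],[5,4,3,2,1])],4,3,[]),
  ([([(9,[(37,45)]),(8,[(16,21),(14,15)])],[]),([(6,[(16,17)]),(5,[(11,15)])],[6])],2,1,[]),
  ([([(10,[(16,21),(16,17),(16,17)]),(9,[(37,45)])],[])],10,2,[]),
  ([([(9,[(37,45)]),(6,[(16,21)])],[]),([(6,[(18,21)])],[6,6,6,5,4,3,2,1])],5,16,[6,10,13,15,21]),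
  ([([(9,[(37,45)]),(7,[(18,21),(6,6)])],[]),([(6,[(16,21)])],[6,6,5,4,3,2,1])],5,15,[6]),
  ([([(9,[(37,45)]),(7,[(18,21),(6,6)])],[]),([(6,[(16,21)]),(3,[(6,6)])],[6,6,5,4])],5,12,[6]),
  ([([(9,[(37,45)]),(7,[(18,21),(6,6)])],[]),([(6,[(16,21)]),(5,[(6,6),(6,6)])],[6,6])],5,7,[6]),
  ([([(9,[(37,45)]),(9,[(18,21),(6,6),(6,6),(6,6),(6,6)])],[]),([(6,[(16,21)])],[5,4,3,2,1])],3,2,[]),
  ([([(9,[(37,45)]),(6,[(16,21)])],[]),([(6,[(18,21)]),(4,[(7,10)])],[6,6,6,5])],5,16,[6,10]),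
  ([([(9,[(37,45)]),(7,[(18,21),(6,6)])],[]),([(6,[(16,21)]),(4,[(7,10)])],[6,6,5])],5,11,[6]),
  ([([(9,[(37,45)]),(7,[(18,21),(6,6)])],[]),([(6,[(16,21)]),(4,[(7,10)]),(3,[(6,6)])],[6,6,5,3,2])],5,6,[6]),
  ([([(10,[(7,10),(6,6),(6,6)]),(9,[(37,45)])],[]),([(7,[(18,21),(6,6)]),(6,[(16,21)])],[7])],2,1,[]),
  ([([(9,[(37,45)]),(6,[(16,21)])],[]),([(6,[(18,21)]),(4,[(7,10)]),(4,[(7,10)])],[6,6,6,5,4,3])],5,8,[6,10]),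
  ([([(9,[(37,45)]),(7,[(18,21),(6,6)])],[]),([(6,[(16,21)]),(4,[(7,10)]),(4,[(7,10)])],[6,6,5,4,3,2])],5,5,[6]),
  ([([(11,[(7,10),(7,10),(6,6)]),(9,[(37,45)])],[]),([(7,[(18,21),(6,6)]),(6,[(16,21)])],[7,7])],1,0,[]),
  ([([(11,[(7,10),(7,10),(7,10)]),(9,[(37,45)])],[]),([(6,[(16,21)]),(6,[(18,21)])],[6])],3,4,[5]),
  ([([(11,[(7,10),(7,10),(7,10),(4,5)]),(9,[(37,45)])],[]),([(6,[(16,21)]),(6,[(18,21)])],[6])],2,1,[]),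
  ([([(9,[(37,45)]),(6,[(16,21)])],[]),([(6,[(18,21)]),(5,[(11,13)])],[6,6,6])],5,12,[6,10,11,13]),
  ([([(9,[(37,45)]),(7,[(18,21),(6,6)])],[]),([(6,[(16,21)]),(5,[(11,13)])],[6,6])],5,7,[6]),
  ([([(9,[(37,45)]),(7,[(18,21),(6,6)])],[]),([(6,[(16,21)]),(6,[(11,13),(6,6)])],[6])],3,2,[]),
  ([([(9,[(37,45)]),(6,[(16,21)])],[]),([(6,[(18,21)]),(5,[(11,13)]),(4,[(7,10)])],[6,6,6,4,3])],5,6,[6,7]),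
  ([([(9,[(37,45)]),(7,[(18,21),(6,6)])],[]),([(6,[(16,21)]),(5,[(11,13)]),(4,[(7,10)])],[6,6,4,3,2])],2,1,[]),
  ([([(9,[(37,45)]),(7,[(16,21),(7,7)])],[]),([(6,[(18,21)]),(5,[(11,13)]),(4,[(7,10)])],[6,6,4,3,2])],1,0,[]),
  ([([(9,[(37,45)]),(9,[(18,21),(11,13),(11,11)])],[]),([(6,[(16,21)])],[5,4,3,2,1])],3,2,[]),
  ([([(9,[(37,45)]),(8,[(18,21),(12,13)])],[]),([(6,[(16,21)]),(5,[(11,13)])],[6])],2,1,[]),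
  ([([(9,[(37,45)]),(8,[(16,21),(14,15)])],[]),([(6,[(18,21)])],[6,5,4,3,2,1])],5,9,[6,10]),
  ([([(9,[(37,45)]),(8,[(16,21),(14,15)])],[]),([(6,[(18,21)]),(3,[(6,6)])],[6,5,4])],5,4,[]),
  ([([(9,[(37,45)]),(8,[(16,21),(14,15)])],[]),([(6,[(18,21)]),(4,[(7,10)])],[6,5])],4,3,[]),
  ([([(9,[(37,45)]),(6,[(16,21)])],[]),([(6,[(18,21)]),(6,[(16,21)])],[6,6])],5,7,[6,8]),
  ([([(9,[(37,45)]),(7,[(18,21),(6,6)])],[]),([(6,[(16,21)]),(6,[(16,21)])],[6])],3,2,[]),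
  ([([(9,[(37,45)]),(6,[(16,21)])],[]),([(6,[(18,21)]),(6,[(16,21)]),(4,[(7,8)])],[6,6,4,3])],2,1,[]),
  ([([(9,[(37,45)]),(7,[(22,28)])],[])],11,3,[15,21,28]),
  ([([(9,[(37,45)]),(7,[(22,28)])],[]),([(5,[(12,15)])],[5,5,4,3,2,1])],6,13,[10,15]),
  ([([(9,[(37,45)]),(7,[(22,28)])],[]),([(5,[(12,15)]),(4,[(7,10)])],[5,5])],6,13,[10]),
  ([([(9,[(37,45)]),(7,[(22,28)])],[]),([(5,[(12,15)]),(4,[(7,10)]),(4,[(7,10)])],[5,5,4,3,2])],6,5,[10]),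
  ([([(9,[(37,45)]),(7,[(22,28)])],[]),([(5,[(12,15)]),(4,[(7,10)]),(4,[(7,10)]),(4,[(7,10)])],[5,5])],5,4,[]),
  ([([(9,[(37,45)]),(7,[(22,28)])],[]),([(5,[(12,15)]),(5,[(11,15)])],[5])],6,12,[10,13]),
  ([([(9,[(37,45)]),(7,[(22,28)])],[]),([(5,[(12,15)]),(5,[(11,15)]),(4,[(7,10)])],[5,4,3,2])],6,5,[7]),
  ([([(9,[(37,45)]),(7,[(22,28)])],[]),([(5,[(12,15)]),(5,[(11,15)]),(4,[(7,10)]),(4,[(7,7)])],[5])],1,0,[]),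
  ([([(9,[(37,45)]),(7,[(22,28)])],[]),([(7,[(12,15),(11,13)]),(5,[(11,15)])],[7,7,6])],3,2,[]),
  ([([(9,[(37,45)]),(7,[(22,28)])],[]),([(6,[(16,21)])],[6,6,5,4,3,2,1])],5,15,[6,10,15,19]),
  ([([(9,[(37,45)]),(7,[(22,28)])],[]),([(6,[(16,21)]),(3,[(6,6)])],[6,6,5,4])],5,13,[6]),
  ([([(9,[(37,45)]),(7,[(22,28)])],[]),([(6,[(16,21)]),(5,[(6,6),(6,6)])],[6,6])],5,8,[6]),
  ([([(9,[(37,45)]),(7,[(22,28)])],[]),([(6,[(16,21)]),(6,[(6,6),(6,6),(6,6)])],[6])],4,3,[]),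
  ([([(9,[(37,45)]),(7,[(22,28)])],[]),([(6,[(16,21)]),(4,[(7,10)])],[6,6,5])],5,12,[6,10]),
  ([([(9,[(37,45)]),(7,[(22,28)])],[]),([(6,[(16,21)]),(4,[(7,10)]),(3,[(6,6)])],[6,6,5,3,2])],5,7,[6]),
  ([([(10,[(7,10),(6,6),(6,6)]),(9,[(37,45)])],[]),([(7,[(22,28)]),(6,[(16,21)])],[7])],3,2,[]),
  ([([(9,[(37,45)]),(7,[(22,28)])],[]),([(6,[(16,21)]),(4,[(7,10)]),(4,[(7,10)])],[6,6,5,4,3,2])],5,6,[6,7]),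
  ([([(11,[(7,10),(7,10),(6,6)]),(9,[(37,45)])],[]),([(7,[(22,28)]),(6,[(16,21)])],[7,7])],2,1,[]),
  ([([(11,[(7,10),(7,10)]),(9,[(37,45)])],[]),([(7,[(22,28)]),(7,[(16,21),(7,7)])],[7])],1,0,[]),
  ([([(9,[(37,45)]),(7,[(22,28)])],[]),([(6,[(16,21)]),(5,[(11,15)])],[6,6])],5,8,[6,9]),
  ([([(9,[(37,45)]),(7,[(22,28)])],[]),([(6,[(16,21)]),(6,[(11,15),(6,6)])],[6])],4,3,[]),
  ([([(9,[(37,45)]),(7,[(22,28)])],[]),([(6,[(16,21)]),(5,[(11,15)]),(4,[(7,9)])],[6,6,4,3,2])],3,2,[]),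
  ([([(9,[(37,45)]),(7,[(22,28)])],[]),([(6,[(16,21)]),(6,[(16,19)])],[6])],4,3,[]),
  ([([(9,[(37,45)]),(7,[(22,28)])],[]),([(7,[(22,28)])],[7,7,6,5,4,3,2,1])],4,12,[6,10,13]),
  ([([(9,[(37,45)]),(7,[(22,28)])],[]),([(7,[(22,28)]),(3,[(5,6)])],[7,7,6,5,4])],4,8,[6]),
  ([([(9,[(37,45)]),(7,[(22,28)])],[]),([(7,[(22,28)]),(7,[(5,6),(5,6)])],[7])],4,4,[5]),
  ([([(9,[(37,45)]),(7,[(22,28)])],[]),([(7,[(22,28)]),(7,[(5,6),(5,6),(5,5)])],[7])],1,0,[]),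
  ([([(9,[(37,45)]),(7,[(22,28)])],[]),([(7,[(22,28)]),(4,[(7,10)])],[7,7,6,5])],4,6,[6,7]),
  ([([(10,[(7,10),(5,6)]),(9,[(37,45)])],[]),([(7,[(22,28)]),(7,[(22,28)])],[])],3,2,[]),
  ([([(10,[(7,10),(7,7)]),(9,[(37,45)])],[]),([(7,[(22,28)]),(7,[(22,28)])],[])],1,0,[]),
  ([([(9,[(37,45)]),(7,[(22,28)])],[]),([(7,[(22,28)]),(5,[(11,13)])],[7,7,6])],3,2,[]),
  ([([(9,[(37,45)]),(8,[(29,36)])],[])],11,2,[15,21,27]),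
  ([([(9,[(37,45)]),(8,[(29,36)])],[]),([(5,[(12,15)])],[5,4,3,2,1])],6,12,[10,15]),
  ([([(9,[(37,45)]),(8,[(29,36)])],[]),([(5,[(12,15)]),(4,[(7,10)])],[5])],6,9,[10]),
  ([([(9,[(37,45)]),(8,[(29,36)])],[]),([(5,[(12,15)]),(4,[(7,10)]),(4,[(7,10)])],[5,4,3,2,1])],4,3,[]),
  ([([(9,[(37,45)]),(8,[(29,36)])],[]),([(5,[(12,15)]),(5,[(11,15)])],[])],6,5,[]),
  ([([(9,[(37,45)]),(8,[(29,36)])],[]),([(6,[(16,21)])],[6,5,4,3,2,1])],5,11,[6,10,12]),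
  ([([(9,[(37,45)]),(8,[(29,36)])],[]),([(6,[(16,21)]),(3,[(6,6)])],[6,5,4])],5,6,[6]),
  ([([(9,[(37,45)]),(8,[(29,36)])],[]),([(6,[(16,21)]),(5,[(6,6),(6,6)])],[6])],2,1,[]),
  ([([(9,[(37,45)]),(8,[(29,36)])],[]),([(6,[(16,21)]),(4,[(7,10)])],[6,5])],5,5,[6]),
  ([([(10,[(7,10),(6,6)]),(9,[(37,45)])],[]),([(8,[(29,36)]),(6,[(16,21)])],[8,7])],1,0,[]),
  ([([(9,[(37,45)]),(8,[(29,36)])],[]),([(6,[(16,21)]),(5,[(11,12)])],[6])],2,1,[]),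
  ([([(9,[(37,45)]),(8,[(29,36)])],[]),([(7,[(22,27)])],[7,6,5,4,3,2,1])],4,5,[6]),
  ([([(9,[(37,45)]),(8,[(29,36)])],[]),([(7,[(22,27)]),(3,[(5,6)])],[7,6,5,4])],2,1,[]),
  ([([(9,[(37,45)]),(9,[(37,45)])],[])],11,1,[15,19]),
  ([([(9,[(37,45)]),(9,[(37,45)])],[]),([(5,[(12,15)])],[4,3,2,1])],6,7,[8]),
  ([([(9,[(37,45)]),(9,[(37,45)])],[]),([(5,[(12,15)]),(4,[(7,8)])],[])],2,1,[]),
  ([([(9,[(37,45)]),(9,[(37,45)])],[]),([(6,[(16,19)])],[5,4,3,2,1])],4,3,[]),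
  ([([(10,[(46,55)])],[])],10,11,[15,21,28,36,45,46]),
  ([([(10,[(46,55)]),(5,[(11,15)])],[])],10,6,[15]),
  ([([(10,[(46,55)]),(5,[(11,15)]),(5,[(11,15)])],[])],10,6,[15]),
  ([([(10,[(46,55)]),(5,[(11,15)]),(5,[(11,15)])],[]),([(5,[(11,15)])],[5,5,5,5,5,3,1])],5,13,[6,10,15]),
  ([([(10,[(46,55)]),(6,[(11,15),(6,6)])],[]),([(5,[(11,15)]),(5,[(11,15)])],[5,5,5])],5,10,[6]),
  ([([(10,[(46,55)]),(6,[(11,15),(6,6)])],[]),([(5,[(11,15)]),(5,[(11,15)]),(3,[(6,6)])],[5,5,5,3,2])],5,5,[6]),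
  ([([(10,[(46,55)]),(6,[(11,15),(6,6)])],[]),([(6,[(11,15),(6,6)]),(6,[(11,15),(6,6)])],[6,6,6])],1,0,[]),
  ([([(10,[(46,55)]),(5,[(11,15)]),(5,[(11,15)])],[]),([(5,[(11,15)]),(4,[(7,10)])],[5,5,5,5,5,4,3,2,1])],5,7,[6,10]),
  ([([(10,[(46,55)]),(6,[(11,15),(6,6)])],[]),([(5,[(11,15)]),(5,[(11,15)]),(4,[(7,10)])],[5,5,5,4,3,2])],5,4,[]),
  ([([(10,[(46,55)]),(5,[(11,15)]),(5,[(11,15)])],[]),([(5,[(11,15)]),(4,[(7,10)]),(4,[(7,10)])],[5,5,5,5,5])],4,3,[]),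
  ([([(10,[(46,55)]),(5,[(11,15)]),(5,[(11,15)])],[]),([(5,[(11,15)]),(5,[(11,15)])],[5,5,5,5,4,3,2,1])],5,5,[6]),
  ([([(10,[(46,55)]),(6,[(11,15),(6,6)])],[]),([(5,[(11,15)]),(5,[(11,15)]),(5,[(11,15)])],[5,5,4,3,2])],1,0,[]),
  ([([(10,[(46,55)]),(6,[(16,21)])],[])],10,5,[15,21]),
  ([([(10,[(46,55)]),(6,[(16,21)])],[]),([(5,[(11,15)])],[5,5,5,5,4,3,2,1])],5,15,[6,10,15]),
  ([([(10,[(46,55)]),(6,[(16,21)])],[]),([(5,[(11,15)]),(3,[(6,6)])],[5,5,5,5,4])],5,15,[6]),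
  ([([(10,[(46,55)]),(6,[(16,21)])],[]),([(5,[(11,15)]),(5,[(6,6),(6,6)])],[5,5,5])],5,10,[6]),
  ([([(10,[(46,55)]),(6,[(16,21)])],[]),([(5,[(11,15)]),(5,[(6,6),(6,6)]),(3,[(6,6)])],[5,5,5,3,2])],5,5,[6]),
  ([([(10,[(46,55)]),(6,[(16,21)])],[]),([(6,[(11,15),(6,6)]),(6,[(6,6),(6,6),(6,6)])],[6,6,6])],1,0,[]),
  ([([(10,[(46,55)]),(6,[(16,21)])],[]),([(5,[(11,15)]),(4,[(7,10)])],[5,5,5,5])],5,14,[6,10]),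
  ([([(10,[(46,55)]),(6,[(16,21)])],[]),([(5,[(11,15)]),(4,[(7,10)]),(3,[(6,6)])],[5,5,5,5,3,2])],5,9,[6]),
  ([([(10,[(46,55)]),(6,[(16,21)])],[]),([(5,[(11,15)]),(5,[(6,6),(6,6)]),(4,[(7,10)])],[5,5,5,4,3,2])],5,4,[]),
  ([([(10,[(46,55)]),(6,[(16,21)])],[]),([(5,[(11,15)]),(4,[(7,10)]),(4,[(7,10)])],[5,5,5,5,4,3,2])],5,7,[6,9]),
  ([([(10,[(46,55)]),(10,[(7,10),(6,6)])],[]),([(6,[(16,21)]),(5,[(11,15)]),(4,[(7,10)])],[4,3,2,1])],4,3,[]),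
  ([([(10,[(46,55)]),(10,[(7,10),(7,9)])],[]),([(6,[(16,21)]),(5,[(11,15)]),(4,[(7,10)])],[4,3,2,1])],3,2,[]),
  ([([(10,[(46,55)]),(6,[(16,21)])],[]),([(5,[(11,15)]),(5,[(11,15)])],[5,5,5])],5,10,[6,10,11]),
  ([([(10,[(46,55)]),(6,[(16,21)])],[]),([(5,[(11,15)]),(5,[(11,15)]),(3,[(6,6)])],[5,5,5,3,2])],5,5,[6]),
  ([([(10,[(46,55)]),(6,[(16,21)])],[]),([(6,[(11,15),(6,6)]),(6,[(11,15),(6,6)])],[6,6,6])],1,0,[]),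
  ([([(10,[(46,55)]),(6,[(16,21)])],[]),([(5,[(11,15)]),(5,[(11,15)]),(4,[(7,10)])],[5,5,5,4,3,2])],5,4,[]),
  ([([(11,[(46,55),(11,11)]),(6,[(16,21)])],[]),([(5,[(11,15)]),(5,[(11,15)])],[5,5,5,5])],1,0,[]),
  ([([(10,[(46,55)]),(6,[(16,21)])],[]),([(6,[(16,21)])],[6,6,6,6,5,4,3,2,1])],4,15,[6,10,15,16]),
  ([([(10,[(46,55)]),(6,[(16,21)])],[]),([(6,[(16,21)]),(3,[(5,6)])],[6,6,6,6,5,4])],4,11,[6]),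
  ([([(10,[(46,55)]),(7,[(5,6),(5,6)])],[]),([(6,[(16,21)]),(6,[(16,21)])],[6,6])],4,7,[6]),
  ([([(10,[(46,55)]),(7,[(5,6),(5,6),(5,6)])],[]),([(6,[(16,21)]),(6,[(16,21)])],[6,6])],4,3,[]),
  ([([(10,[(46,55)]),(6,[(16,21)])],[]),([(6,[(16,21)]),(4,[(7,10)])],[6,6,6,6,5])],4,9,[6,8,9,10]),
  ([([(10,[(46,55)]),(10,[(7,10),(5,6)])],[]),([(6,[(16,21)]),(6,[(16,21)])],[6])],4,1,[6]),
  ([([(10,[(46,55)]),(10,[(7,10),(5,6),(5,6)])],[]),([(6,[(16,21)]),(6,[(16,21)])],[6])],2,1,[]),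
  ([([(10,[(46,55)]),(10,[(7,10),(7,8)])],[]),([(6,[(16,21)]),(6,[(16,21)])],[6])],4,1,[]),
  ([([(10,[(46,55)]),(10,[(7,10),(9,9)])],[]),([(6,[(16,21)]),(6,[(16,21)])],[6])],2,1,[]),
  ([([(10,[(46,55)]),(6,[(16,21)])],[]),([(6,[(16,21)]),(6,[(7,10),(10,10)])],[6,6,6])],1,0,[]),
  ([([(10,[(46,55)]),(6,[(16,21)])],[]),([(6,[(16,21)]),(5,[(11,15)])],[6,6,6,6])],4,5,[6]),
  ([([(10,[(46,55)]),(6,[(16,21)])],[]),([(6,[(16,21)]),(5,[(11,15)]),(3,[(5,6)])],[6,6,6,6,3,2])],2,1,[]),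
  ([([(10,[(46,55)]),(6,[(16,21)])],[]),([(6,[(16,21)]),(6,[(16,16)])],[6,6,6])],1,0,[]),
  ([([(10,[(46,55)]),(7,[(22,28)])],[])],10,4,[15,21,25]),
  ([([(10,[(46,55)]),(7,[(22,28)])],[]),([(5,[(11,15)])],[5,5,5,4,3,2,1])],5,14,[6,10,15]),
  ([([(10,[(46,55)]),(7,[(22,28)])],[]),([(5,[(11,15)]),(3,[(6,6)])],[5,5,5,4])],5,9,[6]),
  ([([(10,[(46,55)]),(7,[(22,28)])],[]),([(5,[(11,15)]),(5,[(6,6),(6,6)])],[5,5])],5,4,[]),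
  ([([(10,[(46,55)]),(7,[(22,28)])],[]),([(5,[(11,15)]),(4,[(7,10)])],[5,5,5])],5,8,[6,9]),
  ([([(10,[(46,55)]),(7,[(22,28)])],[]),([(6,[(11,15),(6,6)]),(4,[(7,10)])],[6,6,6,5])],4,3,[]),
  ([([(10,[(46,55)]),(10,[(7,10),(7,9)])],[]),([(7,[(22,28)]),(5,[(11,15)])],[6])],3,2,[]),
  ([([(10,[(46,55)]),(7,[(22,28)])],[]),([(5,[(11,15)]),(5,[(11,15)])],[5,5])],5,4,[]),
  ([([(10,[(46,55)]),(7,[(22,28)])],[]),([(6,[(16,21)])],[6,6,6,5,4,3,2,1])],4,9,[6,10]),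
  ([([(10,[(46,55)]),(7,[(22,28)])],[]),([(6,[(16,21)]),(3,[(5,6)])],[6,6,6,5,4])],4,5,[6]),
  ([([(10,[(46,55)]),(7,[(22,28)])],[]),([(7,[(5,6),(5,6)]),(6,[(16,21)])],[7,7,7])],2,1,[]),
  ([([(10,[(46,55)]),(7,[(22,28)])],[]),([(6,[(16,21)]),(4,[(7,10)])],[6,6,6,5])],4,3,[]),
  ([([(10,[(46,55)]),(7,[(22,28)])],[]),([(7,[(22,25)])],[7,7,7,6,5,4,3,2,1])],3,3,[4]),
  ([([(10,[(46,55)]),(7,[(22,28)])],[]),([(7,[(22,25)]),(3,[(4,4)])],[7,7,7,6,5,4])],1,0,[]),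
  ([([(10,[(46,55)]),(8,[(29,36)])],[])],10,3,[15,18]),
  ([([(10,[(46,55)]),(8,[(29,36)])],[]),([(5,[(11,15)])],[5,5,4,3,2,1])],5,7,[6,8]),
  ([([(10,[(46,55)]),(8,[(29,36)])],[]),([(6,[(11,15),(6,6)])],[6,6,5,4,3,2,1])],3,2,[]),
  ([([(10,[(46,55)]),(8,[(29,36)])],[]),([(5,[(11,15)]),(4,[(7,8)])],[5,5])],2,1,[]),
  ([([(10,[(46,55)]),(8,[(29,36)])],[]),([(6,[(16,18)])],[6,6,5,4,3,2,1])],3,2,[]),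
  ([([(10,[(46,55)]),(9,[(37,45)])],[])],10,2,[]),
  ([([(10,[(46,55)]),(10,[(46,46)])],[])],1,0,[]),
  ([([(11,[(56,66)])],[])],9,12,[10,15,21,28,36]),
  ([([(11,[(56,66)]),(4,[(10,10)])],[])],9,8,[10]),
  ([([(11,[(56,66)]),(6,[(10,10),(10,10)])],[])],9,6,[10]),
  ([([(11,[(56,66)]),(6,[(10,10),(10,10)])],[]),([(4,[(10,10)])],[4,4,4,4,4,3,2,1])],5,8,[6,9]),
  ([([(11,[(56,66)]),(8,[(10,10),(10,10),(10,10),(6,6)])],[])],4,3,[]),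
  ([([(11,[(56,66)]),(6,[(10,10),(10,10)])],[]),([(6,[(10,10),(7,9)])],[6,6,6,6,6,5,4,3,2,1])],3,2,[]),
  ([([(11,[(56,66)]),(5,[(11,15)])],[])],9,7,[10,15]),
  ([([(11,[(56,66)]),(5,[(11,15)]),(4,[(10,10)])],[])],9,7,[10]),
  ([([(11,[(56,66)]),(8,[(11,15),(10,10),(10,10)])],[])],8,7,[]),
  ([([(11,[(56,66)]),(5,[(11,15)])],[]),([(5,[(11,15)])],[5,5,5,5,5,5,4,3,2,1])],4,15,[6,8,9,10,15]),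
  ([([(11,[(56,66)]),(5,[(11,15)])],[]),([(5,[(11,15)]),(3,[(5,6)])],[5,5,5,5,5,5,4])],4,11,[6]),
  ([([(11,[(56,66)]),(7,[(5,6),(5,6)])],[]),([(5,[(11,15)]),(5,[(11,15)])],[5,5,5])],4,7,[6]),
  ([([(11,[(56,66)]),(7,[(5,6),(5,6),(5,6)])],[]),([(5,[(11,15)]),(5,[(11,15)])],[5,5,5])],4,3,[]),
  ([([(11,[(56,66)]),(5,[(11,15)])],[]),([(5,[(11,15)]),(4,[(7,8)])],[5,5,5,5,5,5])],4,9,[6,8]),
  ([([(11,[(56,66)]),(5,[(11,15)])],[]),([(5,[(11,15)]),(5,[(7,8),(5,6)])],[5,5,5,5,5])],4,5,[6]),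
  ([([(11,[(56,66)]),(8,[(7,8),(5,6),(5,6)])],[]),([(5,[(11,15)]),(5,[(11,15)])],[5,5])],2,1,[]),
  ([([(11,[(56,66)]),(9,[(7,8),(7,8)])],[]),([(5,[(11,15)]),(5,[(11,15)])],[5])],4,3,[]),
  ([([(11,[(56,66)]),(5,[(11,15)])],[]),([(5,[(11,15)]),(4,[(9,9)])],[5,5,5,5,5,5])],4,7,[6,8]),
  ([([(11,[(56,66)]),(5,[(11,15)])],[]),([(5,[(11,15)]),(5,[(9,9),(5,6)])],[5,5,5,5,5])],4,3,[]),
  ([([(11,[(56,66)]),(9,[(9,9),(7,8)])],[]),([(5,[(11,15)]),(5,[(11,15)])],[5])],2,1,[]),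
  ([([(11,[(56,66)]),(5,[(11,15)])],[]),([(5,[(11,15)]),(4,[(10,10)])],[5,5,5,5,5,5])],4,6,[6,7]),
  ([([(11,[(56,66)]),(5,[(11,15)])],[]),([(5,[(11,15)]),(4,[(10,10)]),(3,[(5,6)])],[5,5,5,5,5,5,3,2])],3,2,[]),
  ([([(11,[(56,66)]),(6,[(10,10),(7,7)])],[]),([(5,[(11,15)]),(5,[(11,15)])],[5,5,5,5])],1,0,[]),
  ([([(11,[(56,66)]),(5,[(11,15)])],[]),([(5,[(11,15)]),(5,[(11,15)])],[5,5,5,5,5])],4,5,[6]),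
  ([([(11,[(56,66)]),(5,[(11,15)])],[]),([(5,[(11,15)]),(5,[(11,15)]),(3,[(5,6)])],[5,5,5,5,5,3,2])],2,1,[]),
  ([([(11,[(56,66)]),(6,[(16,21)])],[])],9,6,[10,15,21]),
  ([([(11,[(56,66)]),(6,[(16,21)])],[]),([(4,[(10,10)])],[4,4,4,4,4,3,2,1])],5,11,[6,10]),
  ([([(11,[(56,66)]),(6,[(16,21)])],[]),([(4,[(10,10)]),(3,[(6,6)])],[4,4,4,4,4])],5,6,[6]),
  ([([(11,[(56,66)]),(6,[(16,21)])],[]),([(5,[(6,6),(6,6)]),(4,[(10,10)])],[5,5,5,5,5])],2,1,[]),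
  ([([(11,[(56,66)]),(6,[(16,21)])],[]),([(4,[(10,10)]),(4,[(7,10)])],[4,4,4,4])],5,5,[6]),
  ([([(11,[(56,66)]),(6,[(16,21)])],[]),([(6,[(10,10),(7,10)]),(3,[(6,6)])],[6,6,6,6,6,5,4])],1,0,[]),
  ([([(11,[(56,66)]),(6,[(16,21)])],[]),([(5,[(11,15)])],[5,5,5,5,5,4,3,2,1])],4,10,[6,10,11]),
  ([([(11,[(56,66)]),(6,[(16,21)])],[]),([(5,[(11,15)]),(3,[(5,6)])],[5,5,5,5,5,4])],4,6,[6]),
  ([([(11,[(56,66)]),(7,[(5,6),(5,6)])],[]),([(6,[(16,21)]),(5,[(11,15)])],[6,6,6,6])],3,2,[]),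
  ([([(11,[(56,66)]),(6,[(16,21)])],[]),([(5,[(11,15)]),(4,[(7,10)])],[5,5,5,5,5])],4,4,[5]),
  ([([(11,[(56,66)]),(6,[(16,21)])],[]),([(5,[(11,15)]),(5,[(7,10),(5,5)])],[5,5,5,5])],1,0,[]),
  ([([(11,[(56,66)]),(6,[(16,21)])],[]),([(5,[(11,15)]),(5,[(11,11)])],[5,5,5,5])],1,0,[]),
  ([([(11,[(56,66)]),(6,[(16,21)])],[]),([(6,[(16,21)])],[6,6,6,6,6,5,4,3,2,1])],3,5,[6]),
  ([([(11,[(56,66)]),(6,[(16,21)])],[]),([(6,[(16,21)]),(3,[(4,6)])],[6,6,6,6,6,5,4])],3,2,[]),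
  ([([(11,[(56,66)]),(7,[(22,28)])],[])],9,5,[10,15]),
  ([([(11,[(56,66)]),(7,[(22,28)])],[]),([(4,[(10,10)])],[4,4,4,4,3,2,1])],5,5,[6]),
  ([([(11,[(56,66)]),(7,[(22,28)])],[]),([(4,[(10,10)]),(3,[(6,6)])],[4,4,4,4])],1,0,[]),
  ([([(11,[(56,66)]),(7,[(22,28)])],[]),([(5,[(11,15)])],[5,5,5,5,4,3,2,1])],4,4,[5]),
  ([([(11,[(56,66)]),(7,[(22,28)])],[]),([(5,[(11,15)]),(3,[(5,5)])],[5,5,5,5,4])],1,0,[]),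
  ([([(11,[(56,66)]),(8,[(29,36)])],[])],8,7,[]), ([([(12,[(67,78)])],[])],8,13,[10,15,21,25]),
  ([([(12,[(67,78)]),(4,[(9,10)])],[])],8,9,[10]),
  ([([(12,[(67,78)]),(6,[(9,10),(9,10)])],[])],8,7,[9]),
  ([([(12,[(67,78)]),(6,[(9,10),(9,10)])],[]),([(4,[(9,9)])],[4,4,4,4,4,4,3,2,1])],1,0,[]),
  ([([(12,[(67,78)]),(5,[(11,15)])],[])],8,8,[10,15]),
  ([([(12,[(67,78)]),(5,[(11,15)])],[]),([(4,[(9,10)])],[4,4,4,4,4,4,4,3,2,1])],4,6,[6,7]),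
  ([([(12,[(67,78)]),(5,[(11,15)])],[]),([(4,[(9,10)]),(3,[(5,6)])],[4,4,4,4,4,4,4])],3,2,[]),
  ([([(12,[(67,78)]),(5,[(11,15)])],[]),([(4,[(9,10)]),(4,[(7,7)])],[4,4,4,4,4,4])],1,0,[]),
  ([([(12,[(67,78)]),(5,[(11,15)])],[]),([(5,[(11,15)])],[5,5,5,5,5,5,5,4,3,2,1])],3,4,[5]),
  ([([(12,[(67,78)]),(5,[(11,15)])],[]),([(5,[(11,15)]),(3,[(4,5)])],[5,5,5,5,5,5,5,4])],2,1,[]),
  ([([(12,[(67,78)]),(6,[(16,21)])],[])],8,7,[10]),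
  ([([(12,[(67,78)]),(6,[(16,21)])],[]),([(4,[(9,10)])],[4,4,4,4,4,4,3,2,1])],2,1,[]),
  ([([(12,[(67,78)]),(7,[(22,25)])],[])],4,3,[]), ([([(13,[(79,91)])],[])],7,12,[10,13]),
  ([([(13,[(79,91)]),(4,[(8,10)])],[])],6,5,[]), ([([(13,[(79,91)]),(5,[(11,13)])],[])],3,2,[])]

theorem ki_20 : KC 20 90 := kc_of_itree it_20 (by decide +kernel)

def it_22 : List (List (List (ℕ × List (ℕ × ℕ)) × List ℕ) × ℕ × ℕ × List ℕ) := [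
  ([],20,5,[21,28,36,45,55,66,78,91,105,106]), ([([(6,[(21,21)])],[])],16,7,[21]),
  ([([(6,[(21,21)]),(6,[(17,21)])],[])],15,4,[21]),
  ([([(6,[(21,21)]),(6,[(17,21)]),(6,[(16,21)])],[])],15,3,[21]),
  ([([(9,[(21,21),(17,21)]),(6,[(16,21)]),(6,[(16,21)])],[])],13,4,[15,21]),
  ([([(6,[(21,21)]),(6,[(17,21)]),(6,[(16,21)])],[]),([(6,[(16,21)]),(5,[(14,15)])],[5,4,3,2,1])],10,2,[15]),
  ([([(6,[(21,21)]),(6,[(17,21)]),(6,[(16,21)])],[]),([(6,[(16,21)]),(5,[(14,15)]),(5,[(11,15)])],[])],10,2,[15]),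
  ([([(9,[(21,21),(17,21)]),(8,[(16,21),(14,15)])],[]),([(6,[(16,21)]),(5,[(11,15)]),(5,[(11,15)])],[6,5,4,3,2])],7,4,[]),
  ([([(6,[(21,21)]),(6,[(17,21)]),(6,[(16,21)])],[]),([(6,[(16,21)]),(6,[(16,21)])],[4,3,2,1])],9,6,[10,15,21]),
  ([([(6,[(21,21)]),(6,[(17,21)]),(6,[(16,21)])],[]),([(6,[(16,21)]),(6,[(16,21)]),(4,[(10,10)])],[])],10,1,[]),
  ([([(6,[(21,21)]),(6,[(17,21)]),(6,[(16,21)])],[]),([(6,[(16,21)]),(6,[(16,21)]),(5,[(11,15)])],[])],10,1,[15]),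
  ([([(9,[(21,21),(17,21)]),(6,[(16,21)]),(6,[(16,21)])],[]),([(6,[(16,21)]),(5,[(11,15)]),(5,[(11,15)])],[6,6,6])],5,4,[]),
  ([([(6,[(21,21)]),(6,[(17,21)]),(6,[(16,21)])],[]),([(6,[(16,21)]),(6,[(16,21)]),(6,[(16,21)])],[6])],10,1,[]),
  ([([(7,[(22,28)])],[])],15,8,[21,28]), ([([(7,[(22,28)]),(6,[(16,21)])],[])],14,6,[15,21]),
  ([([(7,[(22,28)]),(6,[(16,21)]),(5,[(15,15)])],[])],14,5,[15]),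
  ([([(8,[(16,21),(15,15)]),(7,[(22,28)]),(5,[(15,15)])],[])],13,6,[15]),
  ([([(9,[(15,15),(15,15),(14,15)]),(7,[(22,28)]),(6,[(16,21)])],[])],13,3,[15]),
  ([([(7,[(22,28)]),(6,[(16,21)]),(5,[(15,15)])],[]),([(5,[(15,15)]),(5,[(14,15)]),(5,[(14,15)])],[5])],10,2,[15]),
  ([([(11,[(16,21),(15,15),(15,15),(14,15)]),(7,[(22,28)])],[]),([(5,[(14,15)]),(5,[(11,15)])],[5,5,5])],6,5,[]),
  ([([(7,[(22,28)]),(6,[(16,21)]),(6,[(16,21)])],[])],14,5,[15,21]),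
  ([([(8,[(16,21),(15,15)]),(7,[(22,28)]),(6,[(16,21)])],[])],13,5,[15]),
  ([([(7,[(22,28)]),(6,[(16,21)]),(6,[(16,21)])],[]),([(5,[(15,15)]),(5,[(14,15)])],[4,3,2,1])],10,3,[15]),
  ([([(7,[(22,28)]),(6,[(16,21)]),(6,[(16,21)])],[]),([(5,[(15,15)]),(5,[(14,15)]),(5,[(11,15)])],[])],10,2,[15]),
  ([([(8,[(16,21),(15,15)]),(7,[(22,28)]),(6,[(16,21)])],[]),([(5,[(14,15)]),(5,[(11,15)]),(5,[(11,15)])],[5])],8,7,[]),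
  ([([(7,[(22,28)]),(6,[(16,21)]),(6,[(16,21)])],[]),([(6,[(16,21)])],[6,4,2])],9,11,[10,15,21]),
  ([([(7,[(22,28)]),(6,[(16,21)]),(6,[(16,21)])],[]),([(6,[(16,21)]),(4,[(10,10)])],[6,3,2,1])],9,6,[10]),
  ([([(7,[(22,28)]),(6,[(16,21)]),(6,[(16,21)])],[]),([(6,[(16,21)]),(6,[(10,10),(10,10)])],[5,4,3,2,1])],9,3,[10]),
  ([([(7,[(22,28)]),(6,[(16,21)]),(6,[(16,21)])],[]),([(6,[(16,21)]),(6,[(10,10),(10,10)]),(4,[(10,10)])],[5])],9,3,[10]),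
  ([([(9,[(10,10),(10,10),(10,10),(10,10)]),(7,[(22,28)]),(6,[(16,21)])],[]),([(6,[(16,21)]),(6,[(16,21)])],[6,4,3,2,1])],4,3,[]),
  ([([(7,[(22,28)]),(6,[(16,21)]),(6,[(16,21)])],[]),([(6,[(16,21)]),(5,[(11,15)])],[6,5,4,3,2,1])],9,3,[10,12,15]),
  ([([(7,[(22,28)]),(6,[(16,21)]),(6,[(16,21)])],[]),([(6,[(16,21)]),(5,[(11,15)]),(4,[(10,10)])],[6,5])],9,3,[10]),
  ([([(7,[(22,28)]),(6,[(16,21)]),(6,[(16,21)])],[]),([(6,[(16,21)]),(6,[(10,10),(10,10)]),(5,[(11,15)])],[])],9,3,[10]),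
  ([([(9,[(11,15),(10,10),(10,10),(10,10)]),(7,[(22,28)]),(6,[(16,21)])],[]),([(6,[(16,21)]),(6,[(16,21)])],[6,4,3,2,1])],3,2,[]),
  ([([(7,[(22,28)]),(6,[(16,21)]),(6,[(16,21)])],[]),([(6,[(16,21)]),(5,[(11,15)]),(5,[(11,12)])],[6])],9,3,[10,11,12]),
  ([([(7,[(22,28)]),(6,[(16,21)]),(6,[(16,21)])],[]),([(6,[(16,21)]),(5,[(11,15)]),(5,[(11,12)]),(4,[(10,10)])],[6,3])],9,3,[10]),
  ([([(8,[(11,15),(10,10),(10,10)]),(7,[(22,28)]),(6,[(16,21)])],[]),([(6,[(16,21)]),(6,[(16,21)]),(5,[(11,12)])],[])],2,1,[]),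
  ([([(7,[(22,28)]),(6,[(16,21)]),(6,[(16,21)])],[]),([(6,[(16,21)]),(5,[(11,15)]),(5,[(11,12)])],[6]),([(5,[(11,11)])],[5,5,4,4,3,3,2,2,1,1])],4,9,[5,6,10]),
  ([([(7,[(22,28)]),(7,[(11,12),(11,11),(5,5)]),(6,[(16,21)])],[]),([(6,[(16,21)]),(6,[(16,21)]),(5,[(11,15)])],[6])],5,5,[]),
  ([([(9,[(22,28),(11,11),(6,6)]),(6,[(16,21)]),(6,[(16,21)])],[]),([(6,[(16,21)]),(5,[(11,15)]),(5,[(11,12)])],[6,6,6])],5,4,[]),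
  ([([(7,[(22,28)]),(6,[(16,21)]),(6,[(16,21)])],[]),([(6,[(16,21)]),(6,[(11,11),(7,10)]),(5,[(11,15)])],[]),([(5,[(11,12)])],[5,5,4,4,3,3,2,2,1,1])],4,3,[]),
  ([([(7,[(22,28)]),(7,[(11,15),(12,12)]),(6,[(16,21)])],[]),([(6,[(16,21)]),(6,[(16,21)]),(5,[(11,12)])],[6])],9,1,[]),
  ([([(7,[(22,28)]),(6,[(16,21)]),(6,[(16,21)])],[]),([(6,[(16,21)]),(5,[(11,15)]),(5,[(13,15)])],[6])],9,3,[10,15]),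
  ([([(7,[(22,28)]),(7,[(13,15),(10,10)]),(6,[(16,21)])],[]),([(6,[(16,21)]),(6,[(16,21)]),(5,[(11,15)])],[6])],9,1,[]),
  ([([(7,[(22,28)]),(6,[(16,21)]),(6,[(16,21)])],[]),([(6,[(16,21)]),(5,[(11,15)]),(5,[(13,15)])],[6]),([(5,[(11,15)])],[5,5,4,4,3,3,2,2,1,1])],4,7,[6,8]),
  ([([(7,[(22,28)]),(6,[(16,21)]),(6,[(16,21)])],[]),([(6,[(16,21)]),(6,[(13,15),(5,6)]),(5,[(11,15)])],[]),([(5,[(11,15)])],[5,5,4,4,3,3,2,2,1,1])],4,3,[]),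
  ([([(7,[(22,28)]),(6,[(16,21)]),(6,[(16,21)])],[]),([(6,[(16,21)]),(5,[(11,15)]),(5,[(13,15)])],[6]),([(5,[(11,15)]),(4,[(7,8)])],[5,5,4,3,2,1])],2,1,[]),
  ([([(7,[(22,28)]),(6,[(16,21)]),(6,[(16,21)])],[]),([(6,[(16,21)]),(6,[(16,21)])],[5,4,3,2,1])],9,3,[10,15,21]),
  ([([(7,[(22,28)]),(6,[(16,21)]),(6,[(16,21)])],[]),([(6,[(16,21)]),(6,[(16,21)]),(4,[(10,10)])],[5])],9,3,[10]),
  ([([(7,[(22,28)]),(6,[(16,21)]),(6,[(16,21)])],[]),([(6,[(16,21)]),(6,[(16,21)]),(6,[(10,10),(10,10)])],[])],7,6,[]),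
  ([([(7,[(22,28)]),(6,[(16,21)]),(6,[(16,21)])],[]),([(6,[(16,21)]),(6,[(16,21)]),(5,[(11,15)])],[])],9,3,[10,15]),
  ([([(7,[(22,28)]),(6,[(16,21)]),(6,[(16,21)])],[]),([(6,[(16,21)]),(6,[(16,21)]),(5,[(11,15)]),(4,[(10,10)])],[3])],6,5,[]),
  ([([(7,[(22,28)]),(6,[(16,21)]),(6,[(16,21)])],[]),([(6,[(16,21)]),(6,[(16,21)]),(5,[(11,15)])],[]),([(5,[(11,15)])],[5,5,4,4,3,3,2,2,1,1])],4,4,[5]),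
  ([([(7,[(22,28)]),(6,[(16,21)]),(6,[(16,21)])],[]),([(6,[(16,21)]),(6,[(16,21)]),(5,[(11,15)])],[]),([(5,[(11,15)]),(3,[(5,5)])],[5,5,4,4,3,2,1])],1,0,[]),
  ([([(7,[(22,28)]),(6,[(16,21)]),(6,[(16,21)])],[]),([(6,[(16,21)]),(6,[(16,21)]),(6,[(16,21)])],[])],9,2,[10]),
  ([([(7,[(22,28)]),(6,[(16,21)]),(6,[(16,21)])],[]),([(6,[(16,21)]),(6,[(16,21)]),(6,[(16,21)])],[]),([(4,[(10,10)])],[4,3,3,2,2,1,1])],1,0,[]),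
  ([([(7,[(22,28)]),(7,[(22,28)])],[])],14,4,[15,21,28]),
  ([([(7,[(22,28)]),(7,[(22,28)]),(5,[(15,15)])],[])],14,4,[15]),
  ([([(8,[(15,15),(15,15)]),(7,[(22,28)]),(7,[(22,28)])],[])],14,2,[15]),
  ([([(8,[(15,15),(15,15)]),(7,[(22,28)]),(7,[(22,28)])],[]),([(5,[(15,15)])],[5,3,1])],9,9,[10,15]),
  ([([(7,[(22,28)]),(7,[(22,28)]),(7,[(15,15),(10,10)])],[]),([(5,[(15,15)]),(5,[(15,15)])],[3,2,1])],10,1,[]),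
  ([([(7,[(22,28)]),(7,[(22,28)]),(5,[(15,15)])],[]),([(5,[(15,15)]),(5,[(15,15)]),(5,[(11,15)])],[])],10,1,[12]),
  ([([(10,[(22,28),(15,15),(11,12)]),(9,[(15,15),(15,15),(11,15)])],[]),([(7,[(22,28)])],[7,6,5,4,3,2,1])],2,1,[]),
  ([([(7,[(22,28)]),(7,[(22,28)]),(6,[(16,21)])],[])],14,4,[15,21]),
  ([([(8,[(16,21),(15,15)]),(7,[(22,28)]),(7,[(22,28)])],[])],14,2,[15]),
  ([([(8,[(16,21),(15,15)]),(7,[(22,28)]),(7,[(22,28)])],[]),([(5,[(15,15)])],[5,3,1])],9,9,[10,15]),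
  ([([(7,[(22,28)]),(7,[(22,28)]),(6,[(16,21)])],[]),([(5,[(15,15)]),(5,[(15,15)]),(4,[(10,10)])],[5])],10,1,[]),
  ([([(7,[(22,28)]),(7,[(22,28)]),(6,[(16,21)])],[]),([(5,[(15,15)]),(5,[(15,15)]),(5,[(11,15)])],[])],10,1,[11]),
  ([([(10,[(22,28),(15,15),(11,11)]),(8,[(16,21),(15,15)])],[]),([(7,[(22,28)]),(5,[(11,15)])],[7,7,6])],1,0,[]),
  ([([(7,[(22,28)]),(7,[(22,28)]),(6,[(16,21)])],[]),([(6,[(16,21)])],[5,3,1])],9,10,[10,15,21]),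
  ([([(7,[(22,28)]),(7,[(22,28)]),(6,[(16,21)])],[]),([(6,[(16,21)]),(4,[(10,10)])],[5,4,3,2,1])],9,4,[10]),
  ([([(7,[(22,28)]),(7,[(22,28)]),(6,[(16,21)])],[]),([(6,[(16,21)]),(6,[(10,10),(10,10)])],[6,5,4,3,2,1])],9,1,[10]),
  ([([(7,[(22,28)]),(7,[(22,28)]),(6,[(16,21)])],[]),([(6,[(16,21)]),(6,[(10,10),(10,10)]),(4,[(10,10)])],[6,5])],7,6,[]),
  ([([(7,[(22,28)]),(7,[(22,28)]),(6,[(16,21)])],[]),([(6,[(16,21)]),(5,[(11,15)])],[4,3,2,1])],9,4,[10,15]),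
  ([([(7,[(22,28)]),(7,[(22,28)]),(6,[(16,21)])],[]),([(6,[(16,21)]),(5,[(11,15)]),(4,[(10,10)])],[])],9,4,[10]),
  ([([(8,[(11,15),(10,10),(10,10)]),(7,[(22,28)]),(7,[(22,28)])],[]),([(6,[(16,21)]),(6,[(16,21)])],[5,4,3,2,1])],6,5,[]),
  ([([(7,[(22,28)]),(7,[(22,28)]),(6,[(16,21)])],[]),([(6,[(16,21)]),(5,[(11,15)]),(5,[(11,15)])],[])],9,3,[10,14]),
  ([([(7,[(22,28)]),(7,[(22,28)]),(6,[(16,21)])],[]),([(6,[(16,21)]),(5,[(11,15)]),(5,[(11,15)]),(4,[(10,10)])],[4,2])],5,4,[]),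
  ([([(7,[(22,28)]),(7,[(22,28)]),(6,[(16,21)])],[]),([(6,[(16,21)]),(5,[(11,15)]),(5,[(11,15)])],[]),([(5,[(11,14)])],[5,5,4,4,3,3,2,2,1,1])],4,3,[]),
  ([([(7,[(22,28)]),(7,[(22,28)]),(6,[(16,21)])],[]),([(6,[(16,21)]),(6,[(16,21)])],[6,5,4,3,2,1])],8,5,[10,15,19]),
  ([([(7,[(22,28)]),(7,[(22,28)]),(6,[(16,21)])],[]),([(6,[(16,21)]),(6,[(16,21)]),(4,[(9,10)])],[6,5])],9,1,[10]),
  ([([(7,[(22,28)]),(7,[(22,28)]),(6,[(16,21)])],[]),([(6,[(16,21)]),(6,[(16,21)]),(6,[(9,10),(10,10)])],[])],2,1,[]),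
  ([([(7,[(22,28)]),(7,[(22,28)]),(6,[(16,21)])],[]),([(6,[(16,21)]),(6,[(16,21)]),(5,[(11,15)])],[6])],9,1,[]),
  ([([(7,[(22,28)]),(7,[(22,28)]),(6,[(16,21)])],[]),([(6,[(16,21)]),(6,[(16,21)]),(6,[(16,19)])],[])],4,3,[]),
  ([([(7,[(22,28)]),(7,[(22,28)]),(7,[(22,28)])],[])],14,3,[15,21,28]),
  ([([(7,[(22,28)]),(7,[(22,28)]),(7,[(22,28)])],[]),([(5,[(15,15)])],[3,1])],10,8,[15]),
  ([([(7,[(22,28)]),(7,[(22,28)]),(7,[(22,28)])],[]),([(5,[(15,15)]),(5,[(11,15)])],[3,2,1])],9,6,[10,15]),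
  ([([(7,[(22,28)]),(7,[(22,28)]),(7,[(22,28)])],[]),([(5,[(15,15)]),(5,[(11,15)]),(4,[(10,10)])],[])],10,1,[]),
  ([([(7,[(22,28)]),(7,[(22,28)]),(7,[(22,28)])],[]),([(5,[(15,15)]),(5,[(11,15)]),(5,[(11,15)])],[5])],9,3,[]),
  ([([(7,[(22,28)]),(7,[(22,28)]),(7,[(22,28)])],[]),([(6,[(16,21)])],[4,2])],9,10,[10,15,21]),
  ([([(7,[(22,28)]),(7,[(22,28)]),(7,[(22,28)])],[]),([(6,[(16,21)]),(4,[(10,10)])],[3,2,1])],9,5,[10]),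
  ([([(7,[(22,28)]),(7,[(22,28)]),(7,[(22,28)])],[]),([(6,[(16,21)]),(6,[(10,10),(10,10)])],[4,3,2,1])],9,1,[10]),
  ([([(7,[(22,28)]),(7,[(22,28)]),(7,[(22,28)])],[]),([(6,[(16,21)]),(6,[(10,10),(10,10)]),(4,[(10,10)])],[])],1,0,[]),
  ([([(7,[(22,28)]),(7,[(22,28)]),(7,[(22,28)])],[]),([(6,[(16,21)]),(5,[(11,15)])],[5,4,3,2,1])],9,2,[10,15]),
  ([([(7,[(22,28)]),(7,[(22,28)]),(7,[(22,28)])],[]),([(6,[(16,21)]),(5,[(11,15)]),(4,[(10,10)])],[5])],9,2,[]),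
  ([([(7,[(22,28)]),(7,[(22,28)]),(7,[(22,28)])],[]),([(6,[(16,21)]),(5,[(11,15)]),(5,[(11,15)])],[])],8,7,[]),
  ([([(7,[(22,28)]),(7,[(22,28)]),(7,[(22,28)])],[]),([(6,[(16,21)]),(6,[(16,21)])],[4,3,2,1])],9,1,[10,13]),
  ([([(7,[(22,28)]),(7,[(22,28)]),(7,[(22,28)])],[]),([(6,[(16,21)]),(6,[(16,21)]),(4,[(10,10)])],[])],4,3,[]),
  ([([(7,[(22,28)]),(7,[(22,28)]),(7,[(22,28)])],[]),([(6,[(16,21)]),(6,[(16,21)]),(5,[(11,13)])],[])],3,2,[]),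
  ([([(7,[(22,28)]),(7,[(22,28)]),(7,[(22,28)])],[]),([(7,[(22,28)])],[5,3,1])],8,11,[10,15,21,22]),
  ([([(7,[(22,28)]),(7,[(22,28)]),(7,[(22,28)])],[]),([(7,[(22,28)]),(4,[(9,10)])],[5,4,3,2,1])],8,5,[10]),
  ([([(7,[(22,28)]),(7,[(22,28)]),(7,[(22,28)])],[]),([(7,[(22,28)]),(6,[(9,10),(9,10)])],[6,5,4,3,2,1])],6,5,[]),
  ([([(7,[(22,28)]),(7,[(22,28)]),(7,[(22,28)])],[]),([(7,[(22,28)]),(5,[(11,15)])],[4,3,2,1])],8,5,[10,12]),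
  ([([(7,[(22,28)]),(7,[(22,28)]),(7,[(22,28)])],[]),([(7,[(22,28)]),(5,[(11,15)]),(4,[(9,10)])],[])],4,3,[]),
  ([([(7,[(22,28)]),(7,[(22,28)]),(7,[(22,28)])],[]),([(7,[(22,28)]),(5,[(11,15)]),(5,[(11,12)])],[])],2,1,[]),
  ([([(7,[(22,28)]),(7,[(22,28)]),(7,[(22,28)])],[]),([(7,[(22,28)]),(6,[(16,21)])],[6,5,4,3,2,1])],7,6,[]),
  ([([(7,[(22,28)]),(7,[(22,28)]),(7,[(22,28)])],[]),([(7,[(22,28)]),(7,[(22,22)])],[5,4,3,2,1])],1,0,[]),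
  ([([(8,[(29,36)])],[])],14,9,[15,21,28,36]), ([([(8,[(29,36)]),(5,[(15,15)])],[])],14,4,[15]),
  ([([(8,[(29,36)]),(5,[(15,15)]),(5,[(15,15)])],[])],14,4,[15]),
  ([([(9,[(15,15),(15,15),(15,15)]),(8,[(29,36)])],[])],13,2,[15]),
  ([([(9,[(15,15),(15,15),(15,15)]),(8,[(29,36)]),(5,[(14,15)])],[])],13,2,[15]),
  ([([(11,[(29,36),(15,15),(15,15)]),(9,[(15,15),(14,15),(14,15)])],[])],10,7,[]),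
  ([([(8,[(29,36)]),(6,[(16,21)])],[])],13,7,[15,21]),
  ([([(8,[(29,36)]),(6,[(16,21)]),(5,[(14,15)])],[])],14,3,[15]),
  ([([(8,[(29,36)]),(8,[(16,21),(14,15)]),(5,[(15,15)])],[])],13,4,[15]),
  ([([(11,[(29,36),(14,15),(15,15)]),(8,[(16,21),(14,15)])],[])],11,4,[15]),
  ([([(8,[(29,36)]),(8,[(16,21),(14,15)]),(5,[(15,15)])],[]),([(5,[(14,15)]),(5,[(12,15)])],[5,2,1])],9,1,[10,12]),
  ([([(11,[(29,36),(14,15),(15,15)]),(8,[(16,21),(14,15)])],[]),([(5,[(12,15)]),(4,[(10,10)])],[5,5,5])],3,2,[]),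
  ([([(11,[(29,36),(14,15),(15,15)]),(8,[(16,21),(14,15)])],[]),([(7,[(12,15),(11,12)])],[7,7,7,6,5,4,3,2,1])],2,1,[]),
  ([([(8,[(29,36)]),(6,[(16,21)]),(6,[(16,21)])],[])],14,3,[15,21]),
  ([([(8,[(29,36)]),(8,[(16,21),(15,15)]),(6,[(16,21)])],[])],13,4,[15]),
  ([([(8,[(29,36)]),(8,[(16,21),(15,15)]),(6,[(16,21)])],[]),([(5,[(14,15)])],[4,3,1])],9,9,[10,15]),
  ([([(8,[(29,36)]),(8,[(16,21),(15,15)]),(6,[(16,21)])],[]),([(5,[(14,15)]),(4,[(10,10)])],[2,1])],9,6,[10]),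
  ([([(11,[(29,36),(15,15),(14,15)]),(6,[(16,21)])],[]),([(6,[(16,21)]),(6,[(10,10),(10,10)])],[6,6,6,6])],3,2,[]),
  ([([(8,[(29,36)]),(8,[(16,21),(15,15)]),(6,[(16,21)])],[]),([(5,[(14,15)]),(5,[(11,15)])],[5,3,2,1])],9,1,[10,11]),
  ([([(11,[(29,36),(15,15),(14,15)]),(6,[(16,21)])],[]),([(6,[(16,21)]),(5,[(11,15)]),(4,[(10,10)])],[6,6,6,6,6,4,3])],2,1,[]),
  ([([(11,[(29,36),(15,15),(14,15)]),(6,[(16,21)])],[]),([(6,[(16,21)]),(5,[(11,15)])],[6,6,6,6,6]),([(5,[(11,11)])],[5,5,5,5,5,5,5,5,5,5,5,5,5,5,5,5,5])],1,0,[]),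
  ([([(8,[(29,36)]),(6,[(16,21)]),(6,[(16,21)])],[]),([(6,[(16,21)])],[6,6,4,2])],8,12,[10,15,21]),
  ([([(8,[(29,36)]),(6,[(16,21)]),(6,[(16,21)])],[]),([(6,[(16,21)]),(4,[(9,10)])],[6,6,3,2,1])],8,7,[10]),
  ([([(8,[(29,36)]),(6,[(16,21)]),(6,[(16,21)])],[]),([(6,[(16,21)]),(6,[(9,10),(9,10)])],[6,5,4,3,2,1])],8,4,[10]),
  ([([(8,[(29,36)]),(6,[(16,21)]),(6,[(16,21)])],[]),([(6,[(16,21)]),(6,[(9,10),(9,10)]),(4,[(9,10)])],[6,5])],8,4,[9]),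
  ([([(11,[(9,10),(9,10),(9,10)]),(9,[(29,36),(9,9)])],[]),([(6,[(16,21)]),(6,[(16,21)]),(6,[(16,21)])],[5,4,3,2])],1,0,[]),
  ([([(8,[(29,36)]),(6,[(16,21)]),(6,[(16,21)])],[]),([(6,[(16,21)]),(5,[(11,15)])],[6,6,5,4,3,2,1])],8,4,[10,15]),
  ([([(8,[(29,36)]),(6,[(16,21)]),(6,[(16,21)])],[]),([(6,[(16,21)]),(5,[(11,15)]),(4,[(9,10)])],[6,6,5])],8,4,[10]),
  ([([(8,[(29,36)]),(6,[(16,21)]),(6,[(16,21)])],[]),([(6,[(16,21)]),(6,[(9,10),(9,10)]),(5,[(11,15)])],[6])],7,6,[]),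
  ([([(8,[(29,36)]),(6,[(16,21)]),(6,[(16,21)])],[]),([(6,[(16,21)]),(5,[(11,15)]),(5,[(11,15)])],[6,6])],8,4,[10,13]),
  ([([(8,[(29,36)]),(6,[(16,21)]),(6,[(16,21)])],[]),([(6,[(16,21)]),(5,[(11,15)]),(5,[(11,15)])],[6,6]),([(4,[(9,10)])],[4,4,4,3,3,2,2,1,1])],4,4,[5]),
  ([([(8,[(29,36)]),(6,[(16,21)]),(6,[(16,21)])],[]),([(6,[(16,21)]),(5,[(11,15)]),(5,[(11,15)])],[6,6]),([(5,[(9,10),(5,5)])],[5,5,5,4,4,3,3,2,2,1,1])],1,0,[]),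
  ([([(8,[(29,36)]),(6,[(16,21)]),(6,[(16,21)])],[]),([(6,[(16,21)]),(5,[(11,15)]),(5,[(11,15)])],[6,6]),([(5,[(11,13)])],[5,5,5,4,4,3,3,2,2,1,1])],3,2,[]),
  ([([(8,[(29,36)]),(6,[(16,21)]),(6,[(16,21)])],[]),([(6,[(16,21)]),(6,[(16,21)])],[6,5,4,3,2,1])],8,4,[10,15,18]),
  ([([(8,[(29,36)]),(6,[(16,21)]),(6,[(16,21)])],[]),([(6,[(16,21)]),(6,[(16,21)]),(4,[(9,10)])],[6,5])],8,4,[10]),
  ([([(8,[(29,36)]),(6,[(16,21)]),(6,[(16,21)])],[]),([(6,[(16,21)]),(6,[(16,21)]),(6,[(9,10),(9,10)])],[])],2,1,[]),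
  ([([(8,[(29,36)]),(6,[(16,21)]),(6,[(16,21)])],[]),([(6,[(16,21)]),(6,[(16,21)]),(5,[(11,15)])],[6])],8,4,[]),
  ([([(8,[(29,36)]),(6,[(16,21)]),(6,[(16,21)])],[]),([(6,[(16,21)]),(6,[(16,21)]),(6,[(16,18)])],[])],3,2,[]),
  ([([(8,[(29,36)]),(7,[(22,28)])],[])],13,6,[15,21,28]),
  ([([(8,[(29,36)]),(7,[(22,28)]),(5,[(14,15)])],[])],13,6,[15]),
  ([([(8,[(29,36)]),(7,[(22,28)]),(5,[(14,15)])],[]),([(5,[(14,15)])],[5,4,3,1])],9,10,[10,15]),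
  ([([(8,[(29,36)]),(7,[(22,28)]),(7,[(14,15),(10,10)])],[]),([(5,[(14,15)])],[5,3,1])],9,9,[10]),
  ([([(8,[(29,36)]),(7,[(22,28)]),(7,[(14,15),(10,10)])],[]),([(5,[(14,15)]),(4,[(10,10)])],[5,4,3,2,1])],9,3,[10]),
  ([([(11,[(29,36),(10,10),(10,10),(10,10)]),(7,[(22,28)])],[]),([(5,[(14,15)]),(5,[(14,15)])],[5,5,5])],4,3,[]),
  ([([(8,[(29,36)]),(7,[(22,28)]),(5,[(14,15)])],[]),([(5,[(14,15)]),(5,[(11,15)])],[2,1])],9,7,[10,15]),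
  ([([(8,[(29,36)]),(7,[(22,28)]),(7,[(14,15),(10,10)])],[]),([(5,[(14,15)]),(5,[(11,15)])],[4,3,2,1])],9,3,[10]),
  ([([(10,[(14,15),(14,15),(11,15),(10,10)]),(8,[(29,36)])],[]),([(7,[(22,28)]),(4,[(10,10)])],[7,7,6,5])],3,2,[]),
  ([([(8,[(29,36)]),(7,[(22,28)]),(5,[(14,15)])],[]),([(5,[(14,15)]),(5,[(11,15)]),(5,[(11,15)])],[5])],9,2,[10,11]),
  ([([(10,[(14,15),(14,15),(11,15),(10,10)]),(8,[(29,36)])],[]),([(7,[(22,28)]),(5,[(11,15)])],[7,7,6])],2,1,[]),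
  ([([(9,[(14,15),(14,15),(11,15)]),(8,[(29,36)])],[]),([(7,[(22,28)]),(5,[(11,15)]),(5,[(11,11)])],[7,6,5,4,3])],1,0,[]),
  ([([(8,[(29,36)]),(7,[(22,28)]),(6,[(16,21)])],[])],13,5,[15,21]),
  ([([(8,[(29,36)]),(7,[(22,28)]),(6,[(16,21)])],[]),([(5,[(14,15)])],[5,4,2])],9,10,[10,15]),
  ([([(8,[(29,36)]),(7,[(22,28)]),(6,[(16,21)])],[]),([(5,[(14,15)]),(4,[(10,10)])],[5,3,2,1])],9,5,[10]),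
  ([([(8,[(29,36)]),(7,[(22,28)]),(6,[(16,21)])],[]),([(5,[(14,15)]),(4,[(10,10)]),(4,[(10,10)])],[5])],9,4,[10]),
  ([([(11,[(29,36),(10,10),(10,10),(10,10)]),(8,[(16,21),(14,15)])],[]),([(7,[(22,28)])],[7,7,7,6,5,4,3,2,1])],2,1,[]),
  ([([(8,[(29,36)]),(7,[(22,28)]),(6,[(16,21)])],[]),([(5,[(14,15)]),(5,[(11,15)])],[3,2,1])],9,5,[10,15]),
  ([([(8,[(29,36)]),(7,[(22,28)]),(6,[(16,21)])],[]),([(5,[(14,15)]),(5,[(11,15)]),(4,[(10,10)])],[])],9,4,[10]),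
  ([([(8,[(29,36)]),(8,[(16,21),(14,15)])],[]),([(8,[(11,15),(10,10),(10,10)]),(7,[(22,28)])],[])],1,0,[]),
  ([([(8,[(29,36)]),(7,[(22,28)]),(6,[(16,21)])],[]),([(5,[(14,15)]),(5,[(11,15)]),(5,[(11,15)])],[5])],9,2,[]),
  ([([(8,[(29,36)]),(7,[(22,28)]),(6,[(16,21)])],[]),([(6,[(16,21)])],[6,5,3,1])],8,11,[10,15,21]),
  ([([(8,[(29,36)]),(7,[(22,28)]),(6,[(16,21)])],[]),([(6,[(16,21)]),(4,[(9,10)])],[6,5,4,3,2,1])],8,5,[10]),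
  ([([(8,[(29,36)]),(7,[(22,28)]),(6,[(16,21)])],[]),([(6,[(16,21)]),(6,[(9,10),(9,10)])],[4,3,2,1])],8,5,[10]),
  ([([(8,[(29,36)]),(7,[(22,28)]),(6,[(16,21)])],[]),([(6,[(16,21)]),(6,[(9,10),(9,10)]),(4,[(9,10)])],[])],3,2,[]),
  ([([(8,[(29,36)]),(7,[(22,28)]),(6,[(16,21)])],[]),([(6,[(16,21)]),(5,[(11,15)])],[6,4,3,2,1])],8,5,[10,15]),
  ([([(8,[(29,36)]),(7,[(22,28)]),(6,[(16,21)])],[]),([(6,[(16,21)]),(5,[(11,15)]),(4,[(9,10)])],[6])],8,5,[9]),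
  ([([(9,[(29,36),(9,9)]),(7,[(22,28)]),(6,[(16,21)])],[]),([(6,[(16,21)]),(5,[(11,15)]),(4,[(9,10)])],[6,6])],1,0,[]),
  ([([(8,[(29,36)]),(7,[(22,28)]),(6,[(16,21)])],[]),([(6,[(16,21)]),(5,[(11,15)]),(5,[(11,15)])],[6])],7,6,[]),
  ([([(8,[(29,36)]),(7,[(22,28)]),(6,[(16,21)])],[]),([(6,[(16,21)]),(6,[(16,21)])],[4,3,2,1])],8,5,[10,12]),
  ([([(8,[(29,36)]),(7,[(22,28)]),(6,[(16,21)])],[]),([(6,[(16,21)]),(6,[(16,21)]),(4,[(9,10)])],[])],4,3,[]),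
  ([([(8,[(29,36)]),(7,[(22,28)]),(6,[(16,21)])],[]),([(6,[(16,21)]),(6,[(16,21)]),(5,[(11,12)])],[])],2,1,[]),
  ([([(8,[(29,36)]),(7,[(22,28)]),(7,[(22,28)])],[])],14,2,[15,21,28]),
  ([([(8,[(29,36)]),(7,[(22,28)]),(7,[(22,28)])],[]),([(5,[(15,15)])],[5,3,1])],9,9,[10,15]),
  ([([(8,[(29,36)]),(7,[(22,28)]),(7,[(22,28)])],[]),([(5,[(15,15)]),(4,[(10,10)])],[5,4,3,2,1])],9,3,[10]),
  ([([(8,[(29,36)]),(8,[(15,15),(10,10),(10,10)])],[]),([(7,[(22,28)]),(7,[(22,28)])],[7])],4,3,[]),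
  ([([(8,[(29,36)]),(7,[(22,28)]),(7,[(22,28)])],[]),([(5,[(15,15)]),(5,[(11,15)])],[4,3,2,1])],9,3,[10,12]),
  ([([(8,[(29,36)]),(7,[(22,28)]),(7,[(22,28)])],[]),([(7,[(15,15),(10,10)]),(5,[(11,15)])],[7,4,3,2,1])],3,2,[]),
  ([([(10,[(22,28),(15,15),(11,12)]),(8,[(29,36)])],[]),([(7,[(22,28)]),(5,[(11,15)])],[7,7,6])],2,1,[]),
  ([([(8,[(29,36)]),(7,[(22,28)]),(7,[(22,28)])],[]),([(6,[(16,21)])],[6,4,2])],8,11,[10,15,21]),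
  ([([(8,[(29,36)]),(7,[(22,28)]),(7,[(22,28)])],[]),([(6,[(16,21)]),(4,[(9,10)])],[6,3,2,1])],8,6,[10]),
  ([([(8,[(29,36)]),(7,[(22,28)]),(7,[(22,28)])],[]),([(6,[(16,21)]),(6,[(9,10),(9,10)])],[5,4,3,2,1])],5,4,[]),
  ([([(8,[(29,36)]),(7,[(22,28)]),(7,[(22,28)])],[]),([(6,[(16,21)]),(5,[(11,15)])],[6,5,4,3,2,1])],8,3,[10,11]),
  ([([(8,[(29,36)]),(7,[(22,28)]),(7,[(22,28)])],[]),([(6,[(16,21)]),(5,[(11,15)]),(4,[(9,10)])],[6,5])],3,2,[]),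
  ([([(8,[(29,36)]),(7,[(22,28)]),(7,[(22,28)])],[]),([(6,[(16,21)]),(5,[(11,15)]),(5,[(11,11)])],[6])],1,0,[]),
  ([([(8,[(29,36)]),(7,[(22,28)]),(7,[(22,28)])],[]),([(6,[(16,21)]),(6,[(16,21)])],[5,4,3,2,1])],6,5,[]),
  ([([(8,[(29,36)]),(7,[(22,28)]),(7,[(22,28)])],[]),([(7,[(22,28)])],[7,5,3,1])],7,12,[10,15]),
  ([([(8,[(29,36)]),(7,[(22,28)]),(7,[(22,28)])],[]),([(7,[(22,28)]),(4,[(8,10)])],[7,5,4,3,2,1])],7,6,[8]),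
  ([([(8,[(29,36)]),(8,[(22,28),(8,8)])],[]),([(7,[(22,28)]),(7,[(22,28)]),(4,[(8,10)])],[7,4,3])],1,0,[]),
  ([([(8,[(29,36)]),(7,[(22,28)]),(7,[(22,28)])],[]),([(7,[(22,28)]),(5,[(11,15)])],[7,4,3,2,1])],5,4,[]),
  ([([(8,[(29,36)]),(8,[(29,36)])],[])],13,4,[15,21,28,36]),
  ([([(8,[(29,36)]),(8,[(29,36)]),(5,[(14,15)])],[])],13,4,[15]),
  ([([(8,[(29,36)]),(8,[(29,36)]),(5,[(14,15)])],[]),([(5,[(14,15)])],[4,3,2])],9,10,[10,15]),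
  ([([(8,[(29,36)]),(8,[(29,36)]),(5,[(14,15)])],[]),([(5,[(14,15)]),(4,[(10,10)])],[1])],9,8,[10]),
  ([([(8,[(29,36)]),(8,[(29,36)])],[]),([(8,[(14,15),(10,10),(10,10)]),(5,[(14,15)])],[7,6])],6,5,[]),
  ([([(8,[(29,36)]),(8,[(29,36)]),(5,[(14,15)])],[]),([(5,[(14,15)]),(5,[(11,15)])],[5,2,1])],9,1,[10,14]),
  ([([(9,[(14,15),(14,15),(11,15)]),(8,[(29,36)])],[]),([(8,[(29,36)]),(4,[(10,10)])],[8,7,6,5])],5,4,[]),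
  ([([(9,[(14,15),(14,15),(11,15)]),(8,[(29,36)])],[]),([(8,[(29,36)]),(5,[(11,14)])],[8,7,6])],4,3,[]),
  ([([(8,[(29,36)]),(8,[(29,36)]),(6,[(16,21)])],[])],13,4,[15,21]),
  ([([(8,[(29,36)]),(8,[(29,36)]),(6,[(16,21)])],[]),([(5,[(14,15)])],[4,3,1])],9,9,[10,15]),
  ([([(8,[(29,36)]),(8,[(29,36)]),(6,[(16,21)])],[]),([(5,[(14,15)]),(4,[(10,10)])],[2,1])],9,6,[10]),
  ([([(8,[(29,36)]),(8,[(29,36)])],[]),([(8,[(16,21),(14,15)]),(6,[(10,10),(10,10)])],[7])],4,3,[]),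
  ([([(8,[(29,36)]),(8,[(29,36)]),(6,[(16,21)])],[]),([(5,[(14,15)]),(5,[(11,15)])],[5,3,2,1])],9,1,[10,12]),
  ([([(8,[(29,36)]),(8,[(29,36)])],[]),([(8,[(16,21),(14,15)]),(5,[(11,15)]),(4,[(10,10)])],[7,6,4,3])],3,2,[]),
  ([([(8,[(29,36)]),(8,[(29,36)])],[]),([(7,[(14,15),(11,12)]),(6,[(16,21)]),(5,[(11,15)])],[5,4,3])],2,1,[]),
  ([([(8,[(29,36)]),(8,[(29,36)]),(6,[(16,21)])],[]),([(6,[(16,21)])],[5,4,2])],8,11,[10,15,20]),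
  ([([(8,[(29,36)]),(8,[(29,36)]),(6,[(16,21)])],[]),([(6,[(16,21)]),(4,[(9,10)])],[5,3,2,1])],8,6,[10]),
  ([([(8,[(29,36)]),(8,[(29,36)]),(6,[(16,21)])],[]),([(6,[(16,21)]),(6,[(9,10),(9,10)])],[6,4,3,2,1])],4,3,[]),
  ([([(8,[(29,36)]),(8,[(29,36)]),(6,[(16,21)])],[]),([(6,[(16,21)]),(5,[(11,15)])],[3,2,1])],8,6,[10]),
  ([([(8,[(29,36)]),(8,[(29,36)]),(6,[(16,21)])],[]),([(6,[(16,21)]),(5,[(11,15)]),(4,[(9,10)])],[])],2,1,[]),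
  ([([(8,[(29,36)]),(8,[(29,36)]),(6,[(16,21)])],[]),([(6,[(16,21)]),(6,[(16,20)])],[6,4,3,2,1])],5,4,[]),
  ([([(8,[(29,36)]),(8,[(29,36)])],[]),([(7,[(22,28)])],[6,5,4,3,2,1])],7,15,[10,15,21,28]),
  ([([(8,[(29,36)]),(8,[(29,36)])],[]),([(7,[(22,28)]),(4,[(8,10)])],[6,5])],7,15,[10]),
  ([([(8,[(29,36)]),(8,[(29,36)])],[]),([(7,[(22,28)]),(4,[(8,10)]),(4,[(8,10)])],[6,5,4,3,2])],7,7,[10]),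
  ([([(8,[(29,36)]),(8,[(29,36)])],[]),([(7,[(22,28)]),(4,[(8,10)]),(4,[(8,10)]),(4,[(8,10)])],[6,5])],7,7,[8]),
  ([([(11,[(8,10),(8,10),(8,10)]),(8,[(29,36)])],[]),([(8,[(29,36)]),(8,[(22,28),(8,8)])],[8,8])],1,0,[]),
  ([([(8,[(29,36)]),(8,[(29,36)])],[]),([(7,[(22,28)]),(5,[(11,15)])],[6])],7,15,[10,15]),
  ([([(8,[(29,36)]),(8,[(29,36)])],[]),([(7,[(22,28)]),(5,[(11,15)]),(4,[(8,10)])],[6,4,3,2])],7,7,[10]),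
  ([([(8,[(29,36)]),(8,[(29,36)])],[]),([(7,[(22,28)]),(5,[(11,15)]),(4,[(8,10)]),(4,[(8,10)])],[6])],5,4,[]),
  ([([(8,[(29,36)]),(8,[(29,36)])],[]),([(7,[(22,28)]),(5,[(11,15)]),(5,[(11,15)])],[6,5,4,3])],7,5,[9]),
  ([([(8,[(29,36)]),(8,[(29,36)])],[]),([(7,[(22,28)]),(5,[(11,15)]),(5,[(11,15)])],[6,5,4,3]),([(4,[(8,9)])],[4,4,4,4,3,3,3,2,2,2,1,1,1])],2,1,[]),
  ([([(8,[(29,36)]),(8,[(29,36)])],[]),([(7,[(22,28)]),(6,[(16,21)])],[])],7,13,[10,14]),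
  ([([(8,[(29,36)]),(8,[(29,36)])],[]),([(7,[(22,28)]),(6,[(16,21)]),(4,[(8,10)])],[4,3,2])],7,6,[]),
  ([([(8,[(29,36)]),(8,[(29,36)])],[]),([(7,[(22,28)]),(6,[(16,21)]),(5,[(11,14)])],[5,4,3])],4,3,[]),
  ([([(8,[(29,36)]),(8,[(29,36)])],[]),([(7,[(22,28)]),(7,[(22,28)])],[7])],7,1,[8]),
  ([([(8,[(29,36)]),(8,[(29,36)])],[]),([(8,[(22,28),(8,8)]),(7,[(22,28)])],[])],1,0,[]),
  ([([(8,[(29,36)]),(8,[(29,36)])],[]),([(8,[(29,36)])],[7,6,5,4,3,2,1])],6,17,[10,15,21,22]),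
  ([([(8,[(29,36)]),(8,[(29,36)])],[]),([(8,[(29,36)]),(4,[(7,10)])],[7,6,5])],6,15,[10]),
  ([([(8,[(29,36)]),(8,[(29,36)])],[]),([(8,[(29,36)]),(4,[(7,10)]),(4,[(7,10)])],[7,6,5,4,3])],6,9,[10]),
  ([([(11,[(7,10),(7,10),(7,10)]),(8,[(29,36)])],[]),([(8,[(29,36)]),(8,[(29,36)])],[8,8])],3,3,[4]),
  ([([(11,[(7,10),(7,10),(7,10),(4,4)]),(8,[(29,36)])],[]),([(8,[(29,36)]),(8,[(29,36)])],[8,8])],1,0,[]),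
  ([([(8,[(29,36)]),(8,[(29,36)])],[]),([(8,[(29,36)]),(5,[(11,15)])],[7,6])],6,11,[10,12]),
  ([([(8,[(29,36)]),(8,[(29,36)])],[]),([(8,[(29,36)]),(5,[(11,15)]),(4,[(7,10)])],[7,6,4,3])],6,5,[]),
  ([([(8,[(29,36)]),(8,[(29,36)])],[]),([(8,[(29,36)]),(5,[(11,15)])],[7,6]),([(5,[(11,12)])],[5,5,5,5,5,5,5,5,5,5,5,5,5,5,5,5])],1,1,[2]),
  ([([(8,[(29,36)]),(8,[(29,36)])],[]),([(8,[(29,36)]),(5,[(11,15)])],[7,6]),([(5,[(11,12),(2,2)])],[5,5,5,5,5,5,5,5,5,5,5,5,5,5,5,5])],1,0,[]),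
  ([([(8,[(29,36)]),(8,[(29,36)])],[]),([(8,[(29,36)]),(6,[(16,21)])],[7])],6,6,[7]),
  ([([(8,[(29,36)]),(8,[(29,36)])],[]),([(8,[(29,36)]),(7,[(16,21),(7,7)])],[])],1,0,[]),
  ([([(8,[(29,36)]),(8,[(29,36)])],[]),([(8,[(29,36)]),(7,[(22,22)])],[])],1,0,[]),
  ([([(9,[(37,45)])],[])],13,10,[15,21,28,36,45]),
  ([([(9,[(37,45)]),(5,[(14,15)])],[])],13,5,[15]),
  ([([(9,[(37,45)]),(5,[(14,15)]),(5,[(14,15)])],[])],13,5,[15]),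
  ([([(9,[(37,45)]),(9,[(14,15),(14,15),(14,15)])],[])],12,4,[15]),
  ([([(9,[(37,45)]),(9,[(14,15),(14,15),(14,15)])],[]),([(5,[(13,15)])],[4,3,2,1])],8,11,[10,15]),
  ([([(9,[(37,45)]),(9,[(14,15),(14,15),(14,15)])],[]),([(5,[(13,15)]),(4,[(9,10)])],[])],8,10,[10]),
  ([([(11,[(14,15),(14,15),(14,15),(9,10),(9,10)]),(9,[(37,45)])],[]),([(5,[(13,15)])],[5,5,4,3,2,1])],3,2,[]),
  ([([(9,[(37,45)]),(9,[(14,15),(14,15),(14,15)])],[]),([(5,[(13,15)]),(5,[(11,15)])],[5])],8,1,[9]),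
  ([([(10,[(14,15),(14,15),(14,15),(9,9)]),(9,[(37,45)])],[]),([(5,[(13,15)]),(5,[(11,15)])],[])],1,0,[]),
  ([([(9,[(37,45)]),(6,[(16,21)])],[])],13,4,[15,21]),
  ([([(9,[(37,45)]),(6,[(16,21)]),(5,[(14,15)])],[])],13,4,[15]),
  ([([(9,[(37,45)]),(8,[(16,21),(14,15)]),(5,[(14,15)])],[])],13,2,[15]),
  ([([(9,[(37,45)]),(8,[(16,21),(14,15)]),(5,[(14,15)])],[]),([(5,[(14,15)])],[5,4,3,2])],8,11,[10,15]),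
  ([([(9,[(37,45)]),(8,[(16,21),(14,15)]),(5,[(14,15)])],[]),([(5,[(14,15)]),(4,[(9,10)])],[5,1])],8,7,[]),
  ([([(9,[(37,45)]),(8,[(16,21),(14,15)]),(5,[(14,15)])],[]),([(5,[(14,15)]),(5,[(11,15)])],[1])],6,5,[]),
  ([([(9,[(37,45)]),(6,[(16,21)]),(6,[(16,21)])],[])],13,4,[15,21]),
  ([([(9,[(37,45)]),(6,[(16,21)]),(6,[(16,21)])],[]),([(5,[(14,15)])],[5,5,5,3,1])],8,11,[10,15]),
  ([([(9,[(37,45)]),(6,[(16,21)]),(6,[(16,21)])],[]),([(5,[(14,15)]),(4,[(9,10)])],[5,5,5,4,3,2,1])],8,5,[10]),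
  ([([(9,[(37,45)]),(6,[(16,21)]),(6,[(16,21)])],[]),([(5,[(14,15)]),(4,[(9,10)]),(4,[(9,10)])],[5,5,5])],8,5,[10]),
  ([([(11,[(9,10),(9,10),(9,10)]),(9,[(37,45)])],[]),([(8,[(16,21),(14,15)]),(6,[(16,21)])],[8,8,7])],3,2,[]),
  ([([(9,[(37,45)]),(6,[(16,21)]),(6,[(16,21)])],[]),([(5,[(14,15)]),(5,[(11,15)])],[5,5,4,3,2,1])],8,5,[10,15]),
  ([([(9,[(37,45)]),(6,[(16,21)]),(6,[(16,21)])],[]),([(5,[(14,15)]),(5,[(11,15)]),(4,[(9,10)])],[5,5])],8,5,[9]),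
  ([([(9,[(37,45)]),(9,[(16,21),(14,15),(9,9)])],[]),([(6,[(16,21)]),(5,[(11,15)]),(4,[(9,10)])],[4,3,2,1])],1,0,[]),
  ([([(9,[(37,45)]),(8,[(16,21),(14,15)])],[]),([(6,[(16,21)]),(5,[(11,15)]),(5,[(11,15)])],[6,5,4,3,2])],7,4,[]),
  ([([(9,[(37,45)]),(6,[(16,21)]),(6,[(16,21)])],[]),([(6,[(16,21)])],[6,6,6,4,2])],7,13,[10,15,21]),
  ([([(9,[(37,45)]),(6,[(16,21)]),(6,[(16,21)])],[]),([(6,[(16,21)]),(4,[(8,10)])],[6,6,6,3,2,1])],7,8,[10]),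
  ([([(9,[(37,45)]),(6,[(16,21)]),(6,[(16,21)])],[]),([(6,[(16,21)]),(4,[(8,10)]),(4,[(8,10)])],[6,6,6])],7,7,[10]),
  ([([(11,[(8,10),(8,10),(8,10)]),(9,[(37,45)])],[]),([(6,[(16,21)]),(6,[(16,21)]),(6,[(16,21)])],[5,4,3,2])],4,3,[]),
  ([([(9,[(37,45)]),(6,[(16,21)]),(6,[(16,21)])],[]),([(6,[(16,21)]),(5,[(11,15)])],[6,6,6,5,4,3,2,1])],7,5,[10,15]),
  ([([(9,[(37,45)]),(6,[(16,21)]),(6,[(16,21)])],[]),([(6,[(16,21)]),(5,[(11,15)]),(4,[(8,10)])],[6,6,6,5])],7,5,[8]),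
  ([([(9,[(37,45)]),(6,[(16,21)]),(6,[(16,21)])],[]),([(6,[(16,21)]),(5,[(11,15)]),(4,[(8,10)])],[6,6,6,5]),([(4,[(8,8)])],[4,4,4,4,3,3,2,2,1,1])],1,0,[]),
  ([([(9,[(37,45)]),(6,[(16,21)]),(6,[(16,21)])],[]),([(6,[(16,21)]),(5,[(11,15)]),(5,[(11,15)])],[6,6,6])],5,4,[]),
  ([([(9,[(37,45)]),(6,[(16,21)]),(6,[(16,21)])],[]),([(6,[(16,21)]),(6,[(16,21)])],[6,6,5,4,3,2,1])],7,5,[10]),
  ([([(9,[(37,45)]),(6,[(16,21)]),(6,[(16,21)])],[]),([(6,[(16,21)]),(6,[(16,21)]),(4,[(8,10)])],[6,6,5])],3,2,[]),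
  ([([(9,[(37,45)]),(7,[(22,28)])],[])],12,7,[15,21,28]),
  ([([(9,[(37,45)]),(7,[(22,28)]),(5,[(13,15)])],[])],13,3,[15]),
  ([([(9,[(37,45)]),(7,[(22,28)]),(5,[(13,15)])],[]),([(5,[(14,15)])],[5,5,4,3,1])],8,11,[10,15]),
  ([([(9,[(37,45)]),(7,[(22,28)]),(5,[(13,15)])],[]),([(5,[(14,15)]),(4,[(9,10)])],[5,5,2,1])],8,8,[10]),
  ([([(9,[(37,45)]),(7,[(22,28)]),(6,[(9,10),(9,10)])],[]),([(5,[(13,15)]),(5,[(14,15)])],[5,3,2,1])],8,6,[]),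
  ([([(9,[(37,45)]),(7,[(22,28)]),(5,[(13,15)])],[]),([(5,[(14,15)]),(5,[(11,15)])],[5,2,1])],8,8,[10,14]),
  ([([(9,[(37,45)]),(7,[(22,28)]),(5,[(13,15)])],[]),([(5,[(14,15)]),(5,[(11,15)]),(4,[(9,10)])],[5,4])],6,5,[]),
  ([([(9,[(37,45)]),(7,[(22,28)]),(5,[(13,15)])],[]),([(5,[(14,15)]),(5,[(11,15)]),(5,[(11,14)])],[4])],4,3,[]),
  ([([(9,[(37,45)]),(7,[(22,28)]),(6,[(16,21)])],[])],13,3,[15,21]),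
  ([([(9,[(37,45)]),(7,[(22,28)]),(6,[(16,21)])],[]),([(5,[(14,15)])],[5,5,4,2])],8,11,[10,15]),
  ([([(9,[(37,45)]),(7,[(22,28)]),(6,[(16,21)])],[]),([(5,[(14,15)]),(4,[(9,10)])],[5,5,3,2,1])],8,6,[10]),
  ([([(9,[(37,45)]),(8,[(16,21),(14,15)])],[]),([(7,[(22,28)]),(6,[(9,10),(9,10)])],[7])],5,4,[]),
  ([([(9,[(37,45)]),(7,[(22,28)]),(6,[(16,21)])],[]),([(5,[(14,15)]),(5,[(11,15)])],[5,3,2,1])],8,6,[10,11]),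
  ([([(9,[(37,45)]),(8,[(16,21),(14,15)])],[]),([(7,[(22,28)]),(5,[(11,15)]),(4,[(9,10)])],[7,6,4,3,2])],3,2,[]),
  ([([(9,[(37,45)]),(8,[(16,21),(14,15)])],[]),([(7,[(22,28)]),(5,[(11,15)]),(5,[(11,11)])],[7,6,5,4,3])],1,0,[]),
  ([([(9,[(37,45)]),(7,[(22,28)]),(6,[(16,21)])],[]),([(6,[(16,21)])],[6,6,5,3,1])],7,12,[10,15,19]),
  ([([(9,[(37,45)]),(7,[(22,28)]),(6,[(16,21)])],[]),([(6,[(16,21)]),(4,[(8,10)])],[6,6,5,4,3,2,1])],7,6,[10]),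
  ([([(9,[(37,45)]),(7,[(22,28)]),(6,[(16,21)])],[]),([(6,[(16,21)]),(4,[(8,10)]),(4,[(8,10)])],[6,6,5])],5,4,[]),
  ([([(9,[(37,45)]),(7,[(22,28)]),(6,[(16,21)])],[]),([(6,[(16,21)]),(5,[(11,15)])],[6,6,4,3,2,1])],7,6,[9]),
  ([([(9,[(37,45)]),(7,[(22,28)]),(6,[(16,21)])],[]),([(6,[(16,21)]),(5,[(11,15)]),(4,[(8,9)])],[6,6])],2,1,[]),
  ([([(9,[(37,45)]),(7,[(22,28)]),(6,[(16,21)])],[]),([(6,[(16,21)]),(6,[(16,19)])],[6,4,3,2,1])],4,3,[]),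
  ([([(9,[(37,45)]),(7,[(22,28)])],[]),([(7,[(22,28)])],[7,7,6,5,4,3,2,1])],6,17,[10,13,14,15,21,28]),
  ([([(9,[(37,45)]),(7,[(22,28)])],[]),([(7,[(22,28)]),(4,[(7,10)])],[7,7,6,5])],6,17,[10]),
  ([([(9,[(37,45)]),(7,[(22,28)])],[]),([(7,[(22,28)]),(4,[(7,10)]),(4,[(7,10)])],[7,7,6,5,4,3])],6,9,[10]),
  ([([(11,[(7,10),(7,10),(7,10)]),(9,[(37,45)])],[]),([(7,[(22,28)]),(7,[(22,28)])],[7])],4,9,[6,10]),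
  ([([(10,[(7,10),(5,6)]),(9,[(37,45)])],[]),([(7,[(22,28)]),(7,[(22,28)]),(4,[(7,10)]),(4,[(7,10)])],[])],5,5,[6]),
  ([([(11,[(7,10),(7,10),(7,10),(5,6),(6,6)]),(9,[(37,45)])],[]),([(7,[(22,28)]),(7,[(22,28)])],[7])],1,0,[]),
  ([([(11,[(7,10),(7,10),(7,10)]),(9,[(37,45)])],[]),([(7,[(22,28)]),(7,[(22,28)]),(4,[(7,10)])],[7,4,3,2])],4,3,[]),
  ([([(9,[(37,45)]),(7,[(22,28)])],[]),([(7,[(22,28)]),(5,[(11,13)])],[7,7,6])],6,17,[10,12,13]),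
  ([([(9,[(37,45)]),(7,[(22,28)])],[]),([(7,[(22,28)]),(5,[(11,13)]),(4,[(7,10)])],[7,7,6,4,3])],6,9,[10]),
  ([([(13,[(11,13),(7,10),(7,10)]),(9,[(37,45)])],[]),([(7,[(22,28)]),(7,[(22,28)])],[7,7,7])],2,5,[3,6]),
  ([([(13,[(11,13),(7,10),(7,10),(3,3)]),(9,[(37,45)])],[]),([(7,[(22,28)]),(7,[(22,28)])],[7,7,7])],2,3,[3]),
  ([([(13,[(11,13),(7,10),(7,10),(3,3),(3,3)]),(9,[(37,45)])],[]),([(7,[(22,28)]),(7,[(22,28)])],[7,7,7])],2,1,[]),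
  ([([(13,[(11,13),(7,10),(7,10),(4,6)]),(9,[(37,45)])],[]),([(7,[(22,28)]),(7,[(22,28)])],[7,7,7])],2,2,[3]),
  ([([(13,[(11,13),(7,10),(7,10),(4,6),(3,3)]),(9,[(37,45)])],[]),([(7,[(22,28)]),(7,[(22,28)])],[7,7,7])],1,0,[]),
  ([([(13,[(11,13),(11,12)]),(9,[(37,45)])],[]),([(7,[(22,28)]),(7,[(22,28)])],[7,7,7])],2,7,[3,6,8]),
  ([([(9,[(37,45)]),(7,[(22,28)])],[]),([(7,[(22,28)]),(7,[(11,13),(11,12),(3,3)])],[7])],3,5,[]),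
  ([([(13,[(11,13),(11,12),(4,6)]),(9,[(37,45)])],[]),([(7,[(22,28)]),(7,[(22,28)])],[7,7,7])],2,4,[3,5]),
  ([([(9,[(37,45)]),(7,[(22,28)])],[]),([(7,[(22,28)]),(7,[(11,13),(11,12),(3,3)]),(3,[(4,6)])],[7,3,2])],3,2,[]),
  ([([(13,[(11,13),(11,12),(4,6),(4,5)]),(9,[(37,45)])],[]),([(7,[(22,28)]),(7,[(22,28)])],[7,7,7])],2,1,[]),
  ([([(13,[(11,13),(11,12),(7,8)]),(9,[(37,45)])],[]),([(7,[(22,28)]),(7,[(22,28)])],[7,7,7])],2,1,[]),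
  ([([(9,[(37,45)]),(7,[(22,28)])],[]),([(7,[(22,28)]),(7,[(11,13),(13,13)])],[7])],6,5,[]),
  ([([(9,[(37,45)]),(7,[(22,28)])],[]),([(7,[(22,28)]),(5,[(14,14)])],[7,7,6])],6,14,[10,14]),
  ([([(9,[(37,45)]),(7,[(22,28)])],[]),([(7,[(22,28)]),(5,[(14,14)]),(4,[(7,10)])],[7,7,6,4,3])],6,8,[9]),
  ([([(9,[(37,45)]),(7,[(22,28)])],[]),([(7,[(22,28)]),(5,[(14,14)]),(4,[(7,10)])],[7,7,6,4,3]),([(4,[(7,9)])],[4,4,4,4,4,4,4,4,3,3,3,2,2,2,1])],2,2,[3]),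
  ([([(10,[(7,10),(7,9)]),(9,[(37,45)])],[]),([(9,[(22,28),(14,14),(3,3)]),(7,[(22,28)])],[9,8])],1,0,[]),
  ([([(9,[(37,45)]),(7,[(22,28)])],[]),([(7,[(22,28)]),(7,[(14,14),(11,14)])],[7])],5,4,[]),
  ([([(9,[(37,45)]),(7,[(22,28)])],[]),([(7,[(22,28)]),(5,[(15,15)])],[7,7,6])],6,13,[10,14]),
  ([([(9,[(37,45)]),(7,[(22,28)])],[]),([(7,[(22,28)]),(5,[(15,15)]),(4,[(7,10)])],[7,7,6,4,3])],6,7,[8]),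
  ([([(9,[(37,45)]),(7,[(22,28)])],[]),([(7,[(22,28)]),(5,[(15,15)]),(4,[(7,10)])],[7,7,6,4,3]),([(4,[(7,8)])],[4,4,4,4,4,4,4,4,3,3,3,2,2,2,1])],2,1,[]),
  ([([(9,[(37,45)]),(7,[(22,28)])],[]),([(7,[(22,28)]),(5,[(15,15)])],[7,7,6]),([(5,[(11,14)])],[5,5,5,5,5,5,5,5,5,5,5,5,5,5,5,5])],1,3,[3,4]),
  ([([(9,[(37,45)]),(7,[(22,28)])],[]),([(7,[(22,28)]),(6,[(15,15),(2,3)])],[7,7]),([(5,[(11,14)])],[5,5,5,5,5,5,5,5,5,5,5,5,5,5,5,5])],1,2,[3]),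
  ([([(9,[(37,45)]),(7,[(22,28)])],[]),([(7,[(22,28)]),(6,[(15,15),(2,3),(2,3)])],[7,7]),([(5,[(11,14)])],[5,5,5,5,5,5,5,5,5,5,5,5,5,5,5,5])],1,1,[2]),
  ([([(9,[(37,45)]),(9,[(22,28),(15,15),(2,2)])],[]),([(7,[(22,28)]),(5,[(11,14)]),(4,[(2,3),(2,3)])],[6,4,3,2])],1,0,[]),
  ([([(9,[(37,45)]),(7,[(22,28)])],[]),([(7,[(22,28)]),(6,[(15,15),(4,4)])],[7,7]),([(5,[(11,14)])],[5,5,5,5,5,5,5,5,5,5,5,5,5,5,5,5])],1,0,[]),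
  ([([(9,[(37,45)]),(7,[(22,28)])],[]),([(7,[(22,28)]),(6,[(16,21)])],[7,7])],6,12,[10,11,13]),
  ([([(9,[(37,45)]),(7,[(22,28)])],[]),([(7,[(22,28)]),(6,[(16,21)]),(4,[(7,10)])],[7,7,4,3])],6,6,[7]),
  ([([(9,[(37,45)]),(7,[(22,28)])],[]),([(7,[(22,28)]),(7,[(16,21),(7,7)]),(4,[(7,10)])],[7,4,3])],1,0,[]),
  ([([(9,[(37,45)]),(7,[(22,28)])],[]),([(7,[(22,28)]),(6,[(16,21)])],[7,7]),([(5,[(11,11)])],[5,5,5,5,5,5,5,5,5,5,5,5,5,5,5,5])],1,2,[2,3]),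
  ([([(9,[(37,45)]),(7,[(22,28)])],[]),([(7,[(22,28)]),(6,[(16,21)])],[7,7]),([(5,[(11,11),(2,2)])],[5,5,5,5,5,5,5,5,5,5,5,5,5,5,5,5])],1,1,[2]),
  ([([(9,[(37,45)]),(7,[(22,28)])],[]),([(7,[(22,28)]),(6,[(16,21)])],[7,7]),([(5,[(11,11),(2,2),(2,2)])],[5,5,5,5,5,5,5,5,5,5,5,5,5,5,5,5])],1,0,[]),
  ([([(9,[(37,45)]),(7,[(22,28)])],[]),([(7,[(22,28)]),(6,[(16,21)])],[7,7]),([(5,[(11,11),(3,3)])],[5,5,5,5,5,5,5,5,5,5,5,5,5,5,5,5])],1,0,[]),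
  ([([(9,[(37,45)]),(7,[(22,28)])],[]),([(7,[(22,28)]),(6,[(16,21)])],[7,7]),([(5,[(12,13)])],[5,5,5,5,5,5,5,5,5,5,5,5,5,5,5,5])],1,1,[2]),
  ([([(9,[(37,45)]),(7,[(22,28)])],[]),([(7,[(22,28)]),(6,[(16,21)])],[7,7]),([(5,[(12,13),(2,2)])],[5,5,5,5,5,5,5,5,5,5,5,5,5,5,5,5])],1,0,[]),
  ([([(9,[(37,45)]),(7,[(22,28)])],[]),([(7,[(22,28)]),(7,[(22,28)])],[7])],6,6,[7]),
  ([([(9,[(37,45)]),(7,[(22,28)])],[]),([(7,[(22,28)]),(7,[(22,28)]),(4,[(7,7)])],[7,4,3])],1,0,[]),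
  ([([(9,[(37,45)]),(8,[(29,36)])],[])],12,6,[15,21,28,36]),
  ([([(9,[(37,45)]),(8,[(29,36)]),(5,[(13,15)])],[])],13,2,[15]),
  ([([(9,[(37,45)]),(8,[(29,36)]),(5,[(13,15)])],[]),([(5,[(14,15)])],[5,4,3,2])],8,11,[10,15]),
  ([([(9,[(37,45)]),(8,[(29,36)]),(5,[(13,15)])],[]),([(5,[(14,15)]),(4,[(9,10)])],[5,1])],8,8,[9]),
  ([([(9,[(37,45)]),(8,[(29,36)])],[]),([(8,[(13,15),(9,10),(9,9)]),(5,[(14,15)])],[8,7,6])],1,0,[]),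
  ([([(9,[(37,45)]),(8,[(29,36)]),(5,[(13,15)])],[]),([(5,[(14,15)]),(5,[(11,15)])],[1])],7,6,[]),
  ([([(9,[(37,45)]),(8,[(29,36)])],[]),([(6,[(16,21)])],[6,5,4,3,2,1])],7,14,[10,15,21]),
  ([([(9,[(37,45)]),(8,[(29,36)])],[]),([(6,[(16,21)]),(4,[(8,10)])],[6,5])],7,14,[10]),
  ([([(9,[(37,45)]),(8,[(29,36)])],[]),([(6,[(16,21)]),(4,[(8,10)]),(4,[(8,10)])],[6,5,4,3,2])],7,6,[10]),
  ([([(9,[(37,45)]),(8,[(29,36)])],[]),([(6,[(16,21)]),(4,[(8,10)]),(4,[(8,10)]),(4,[(8,10)])],[6,5])],6,5,[]),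
  ([([(9,[(37,45)]),(8,[(29,36)])],[]),([(6,[(16,21)]),(5,[(11,15)])],[6])],7,14,[10,15]),
  ([([(9,[(37,45)]),(8,[(29,36)])],[]),([(6,[(16,21)]),(5,[(11,15)]),(4,[(8,10)])],[6,4,3,2])],7,6,[10]),
  ([([(9,[(37,45)]),(8,[(29,36)])],[]),([(6,[(16,21)]),(5,[(11,15)]),(4,[(8,10)]),(4,[(8,10)])],[6])],3,2,[]),
  ([([(9,[(37,45)]),(8,[(29,36)])],[]),([(6,[(16,21)]),(5,[(11,15)]),(5,[(11,15)])],[6,5,4,3,2])],7,4,[]),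
  ([([(9,[(37,45)]),(8,[(29,36)])],[]),([(6,[(16,21)]),(6,[(16,21)])],[])],7,11,[10,12]),
  ([([(9,[(37,45)]),(8,[(29,36)])],[]),([(6,[(16,21)]),(6,[(16,21)]),(4,[(8,10)])],[4,3,2])],5,4,[]),
  ([([(9,[(37,45)]),(8,[(29,36)])],[]),([(6,[(16,21)]),(6,[(16,21)]),(5,[(11,12)])],[5,4,3,2])],2,1,[]),
  ([([(9,[(37,45)]),(8,[(29,36)])],[]),([(7,[(22,28)])],[7,6,5,4,3,2,1])],6,16,[10,15,21]),
  ([([(9,[(37,45)]),(8,[(29,36)])],[]),([(7,[(22,28)]),(4,[(7,10)])],[7,6,5])],6,14,[10]),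
  ([([(9,[(37,45)]),(8,[(29,36)])],[]),([(7,[(22,28)]),(4,[(7,10)]),(4,[(7,10)])],[7,6,5,4,3,2])],6,8,[9]),
  ([([(11,[(7,10),(7,10),(7,9)]),(9,[(37,45)])],[]),([(8,[(29,36)]),(7,[(22,28)])],[8,8])],3,2,[]),
  ([([(9,[(37,45)]),(8,[(29,36)])],[]),([(7,[(22,28)]),(5,[(11,15)])],[7,6])],6,10,[10,11]),
  ([([(9,[(37,45)]),(8,[(29,36)])],[]),([(7,[(22,28)]),(5,[(11,15)]),(4,[(7,10)])],[7,6,4,3,2])],5,4,[]),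
  ([([(9,[(37,45)]),(8,[(29,36)])],[]),([(7,[(22,28)]),(5,[(11,15)]),(5,[(11,11)])],[7,6,5,4,3])],1,0,[]),
  ([([(9,[(37,45)]),(8,[(29,36)])],[]),([(7,[(22,28)]),(6,[(16,21)])],[7])],6,5,[]),
  ([([(9,[(37,45)]),(8,[(29,36)])],[]),([(8,[(29,36)])],[8,7,6,5,4,3,2,1])],5,13,[6,10,14]),
  ([([(9,[(37,45)]),(8,[(29,36)])],[]),([(8,[(29,36)]),(3,[(6,6)])],[8,7,6,5,4])],5,8,[6]),
  ([([(9,[(37,45)]),(8,[(29,36)])],[]),([(8,[(29,36)]),(5,[(6,6),(6,6)])],[8,7,6])],4,3,[]),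
  ([([(9,[(37,45)]),(8,[(29,36)])],[]),([(8,[(29,36)]),(4,[(7,10)])],[8,7,6,5])],5,7,[6,8]),
  ([([(10,[(7,10),(6,6)]),(9,[(37,45)])],[]),([(8,[(29,36)]),(8,[(29,36)])],[])],3,2,[]),
  ([([(10,[(7,10),(7,8)]),(9,[(37,45)])],[]),([(8,[(29,36)]),(8,[(29,36)])],[])],2,1,[]),
  ([([(9,[(37,45)]),(8,[(29,36)])],[]),([(8,[(29,36)]),(5,[(11,14)])],[8,7,6])],4,3,[]),
  ([([(9,[(37,45)]),(9,[(37,45)])],[])],12,4,[15,21,28,34]),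
  ([([(9,[(37,45)]),(9,[(37,45)])],[]),([(5,[(13,15)])],[4,3,2,1])],8,11,[10,15]),
  ([([(9,[(37,45)]),(9,[(37,45)])],[]),([(5,[(13,15)]),(4,[(9,10)])],[])],8,11,[10]),
  ([([(9,[(37,45)]),(9,[(37,45)])],[]),([(6,[(9,10),(9,10)]),(5,[(13,15)])],[])],6,5,[]),
  ([([(9,[(37,45)]),(9,[(37,45)])],[]),([(5,[(13,15)]),(5,[(11,15)])],[5])],8,1,[10,12]),
  ([([(9,[(37,45)]),(9,[(37,45)])],[]),([(5,[(13,15)]),(5,[(11,15)]),(4,[(9,10)])],[5,4,3,2,1])],4,3,[]),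
  ([([(9,[(37,45)]),(9,[(37,45)])],[]),([(7,[(13,15),(11,12)]),(5,[(11,15)])],[6])],2,1,[]),
  ([([(9,[(37,45)]),(9,[(37,45)])],[]),([(6,[(16,21)])],[5,4,3,2,1])],7,13,[10,15,19]),
  ([([(9,[(37,45)]),(9,[(37,45)])],[]),([(6,[(16,21)]),(4,[(8,10)])],[5])],7,11,[10]),
  ([([(9,[(37,45)]),(9,[(37,45)])],[]),([(6,[(16,21)]),(4,[(8,10)]),(4,[(8,10)])],[5,4,3,2,1])],5,4,[]),
  ([([(9,[(37,45)]),(9,[(37,45)])],[]),([(6,[(16,21)]),(5,[(11,15)])],[])],7,8,[9]),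
  ([([(9,[(37,45)]),(9,[(37,45)])],[]),([(6,[(16,21)]),(5,[(11,15)]),(4,[(8,9)])],[4,3,2,1])],2,1,[]),
  ([([(9,[(37,45)]),(9,[(37,45)])],[]),([(6,[(16,21)]),(6,[(16,19)])],[6])],4,3,[]),
  ([([(9,[(37,45)]),(9,[(37,45)])],[]),([(7,[(22,28)])],[6,5,4,3,2,1])],6,12,[10,13]),
  ([([(9,[(37,45)]),(9,[(37,45)])],[]),([(7,[(22,28)]),(4,[(7,10)])],[6,5])],6,6,[7]),
  ([([(10,[(7,10),(7,7)]),(9,[(37,45)])],[]),([(9,[(37,45)]),(7,[(22,28)])],[9,8])],1,0,[]),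
  ([([(9,[(37,45)]),(9,[(37,45)])],[]),([(7,[(22,28)]),(5,[(11,13)])],[6])],3,2,[]),
  ([([(9,[(37,45)]),(9,[(37,45)])],[]),([(8,[(29,34)])],[7,6,5,4,3,2,1])],5,5,[6]),
  ([([(9,[(37,45)]),(9,[(37,45)])],[]),([(8,[(29,34)]),(3,[(6,6)])],[7,6,5,4])],1,0,[]),
  ([([(10,[(46,55)])],[])],12,11,[15,21,28,36,45,55]),
  ([([(10,[(46,55)]),(5,[(13,15)])],[])],12,6,[15]),
  ([([(10,[(46,55)]),(5,[(13,15)]),(5,[(13,15)])],[])],12,6,[15]),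
  ([([(10,[(46,55)]),(9,[(13,15),(13,15),(13,15)])],[])],12,2,[15]),
  ([([(10,[(46,55)]),(9,[(13,15),(13,15),(13,15)])],[]),([(5,[(13,15)])],[5,4,3,2,1])],7,12,[10,13]),
  ([([(10,[(46,55)]),(9,[(13,15),(13,15),(13,15)])],[]),([(5,[(13,15)]),(4,[(8,10)])],[5])],6,5,[]),
  ([([(10,[(46,55)]),(9,[(13,15),(13,15),(13,15)])],[]),([(7,[(13,15),(11,13)])],[7,6,5,4,3,2,1])],3,2,[]),
  ([([(10,[(46,55)]),(6,[(16,21)])],[])],12,5,[15,21]),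
  ([([(10,[(46,55)]),(6,[(16,21)]),(5,[(13,15)])],[])],12,5,[15]),
  ([([(10,[(46,55)]),(6,[(16,21)]),(5,[(13,15)])],[]),([(5,[(13,15)])],[5,5,5,5,4,2])],7,13,[10,15]),
  ([([(10,[(46,55)]),(6,[(16,21)]),(5,[(13,15)])],[]),([(5,[(13,15)]),(4,[(8,10)])],[5,5,5,5,3,2,1])],7,8,[10]),
  ([([(10,[(46,55)]),(6,[(16,21)]),(5,[(13,15)])],[]),([(5,[(13,15)]),(4,[(8,10)]),(4,[(8,10)])],[5,5,5,5])],7,7,[8]),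
  ([([(10,[(46,55)]),(7,[(8,10),(8,10),(8,8)])],[]),([(6,[(16,21)]),(5,[(13,15)]),(5,[(13,15)])],[6,6,6,5,4,3])],1,0,[]),
  ([([(10,[(46,55)]),(6,[(16,21)]),(5,[(13,15)])],[]),([(5,[(13,15)]),(5,[(11,15)])],[5,5,5,3,2,1])],7,8,[10,12]),
  ([([(10,[(46,55)]),(6,[(16,21)]),(5,[(13,15)])],[]),([(5,[(13,15)]),(5,[(11,15)]),(4,[(8,10)])],[5,5,5])],5,4,[]),
  ([([(10,[(46,55)]),(7,[(13,15),(11,12)])],[]),([(6,[(16,21)]),(5,[(13,15)]),(5,[(11,15)])],[6,6,6,5,4,3])],2,1,[]),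
  ([([(10,[(46,55)]),(6,[(16,21)]),(6,[(16,21)])],[])],12,5,[15,21]),
  ([([(10,[(46,55)]),(6,[(16,21)]),(6,[(16,21)])],[]),([(5,[(13,15)])],[5,5,5,5,3,1])],7,12,[10,15]),
  ([([(10,[(46,55)]),(6,[(16,21)]),(6,[(16,21)])],[]),([(5,[(13,15)]),(4,[(8,10)])],[5,5,5,5,4,3,2,1])],7,6,[10]),
  ([([(11,[(8,10),(8,10)]),(10,[(46,55)])],[]),([(6,[(16,21)]),(6,[(16,21)]),(5,[(13,15)])],[5,4,3,2,1])],5,4,[]),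
  ([([(10,[(46,55)]),(6,[(16,21)]),(6,[(16,21)])],[]),([(5,[(13,15)]),(5,[(11,15)])],[5,5,5,4,3,2,1])],7,6,[9]),
  ([([(10,[(46,55)]),(6,[(16,21)]),(6,[(16,21)])],[]),([(5,[(13,15)]),(5,[(11,15)]),(4,[(8,9)])],[5,5,5])],2,1,[]),
  ([([(10,[(46,55)]),(6,[(16,21)]),(6,[(16,21)])],[]),([(6,[(16,21)])],[6,6,6,6,4,2])],6,14,[10,15,16]),
  ([([(10,[(46,55)]),(6,[(16,21)]),(6,[(16,21)])],[]),([(6,[(16,21)]),(4,[(7,10)])],[6,6,6,6,3,2,1])],6,9,[10]),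
  ([([(10,[(46,55)]),(6,[(16,21)]),(6,[(16,21)])],[]),([(6,[(16,21)]),(4,[(7,10)]),(4,[(7,10)])],[6,6,6,6])],4,3,[]),
  ([([(10,[(46,55)]),(6,[(16,21)]),(6,[(16,21)])],[]),([(6,[(16,21)]),(5,[(11,15)])],[6,6,6,6,5,4,3,2,1])],6,5,[]),
  ([([(10,[(46,55)]),(6,[(16,21)]),(6,[(16,21)])],[]),([(6,[(16,21)]),(6,[(16,16)])],[6,6,6,5,4,3,2,1])],1,0,[]),
  ([([(10,[(46,55)]),(7,[(22,28)])],[])],12,4,[15,21,28]),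
  ([([(10,[(46,55)]),(7,[(22,28)]),(5,[(13,15)])],[])],12,4,[15]),
  ([([(10,[(46,55)]),(7,[(22,28)]),(5,[(13,15)])],[]),([(5,[(13,15)])],[5,5,5,4,3,1])],7,12,[10,15]),
  ([([(10,[(46,55)]),(7,[(22,28)]),(5,[(13,15)])],[]),([(5,[(13,15)]),(4,[(8,10)])],[5,5,5,2,1])],7,8,[9]),
  ([([(10,[(46,55)]),(10,[(8,10),(8,9)])],[]),([(7,[(22,28)]),(5,[(13,15)]),(5,[(13,15)])],[6,5,4,3,2])],2,1,[]),
  ([([(10,[(46,55)]),(7,[(22,28)]),(5,[(13,15)])],[]),([(5,[(13,15)]),(5,[(11,15)])],[5,5,2,1])],6,5,[]),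
  ([([(10,[(46,55)]),(7,[(22,28)])],[]),([(6,[(16,21)])],[6,6,6,5,4,3,2,1])],6,16,[10,15,21]),
  ([([(10,[(46,55)]),(7,[(22,28)])],[]),([(6,[(16,21)]),(4,[(7,10)])],[6,6,6,5])],6,16,[10]),
  ([([(10,[(46,55)]),(7,[(22,28)])],[]),([(6,[(16,21)]),(4,[(7,10)]),(4,[(7,10)])],[6,6,6,5,4,3,2])],6,8,[10]),
  ([([(10,[(46,55)]),(7,[(22,28)])],[]),([(6,[(16,21)]),(4,[(7,10)]),(4,[(7,10)]),(4,[(7,10)])],[6,6,6,5])],6,6,[7]),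
  ([([(11,[(7,10),(7,10),(7,10)]),(10,[(46,55)])],[]),([(7,[(22,28)]),(7,[(16,21),(7,7)])],[])],1,0,[]),
  ([([(10,[(46,55)]),(7,[(22,28)])],[]),([(6,[(16,21)]),(5,[(11,15)])],[6,6,6])],6,14,[10,15]),
  ([([(10,[(46,55)]),(7,[(22,28)])],[]),([(6,[(16,21)]),(5,[(11,15)]),(4,[(7,10)])],[6,6,6,4,3,2])],6,8,[9]),
  ([([(10,[(46,55)]),(10,[(7,10),(7,9)])],[]),([(7,[(22,28)]),(6,[(16,21)]),(5,[(11,15)])],[5,4,3,2])],3,2,[]),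
  ([([(10,[(46,55)]),(7,[(22,28)])],[]),([(6,[(16,21)]),(5,[(11,15)]),(5,[(11,15)])],[6,6,6,5,4,3])],5,4,[]),
  ([([(10,[(46,55)]),(7,[(22,28)])],[]),([(6,[(16,21)]),(6,[(16,21)])],[6,6])],6,9,[10]),
  ([([(10,[(46,55)]),(7,[(22,28)])],[]),([(6,[(16,21)]),(6,[(16,21)]),(4,[(7,10)])],[6,6,4,3,2])],4,3,[]),
  ([([(10,[(46,55)]),(7,[(22,28)])],[]),([(7,[(22,28)])],[7,7,7,6,5,4,3,2,1])],5,18,[6,10,15,19]),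
  ([([(10,[(46,55)]),(7,[(22,28)])],[]),([(7,[(22,28)]),(3,[(6,6)])],[7,7,7,6,5,4])],5,13,[6]),
  ([([(10,[(46,55)]),(7,[(22,28)])],[]),([(7,[(22,28)]),(5,[(6,6),(6,6)])],[7,7,7,6])],5,8,[6]),
  ([([(10,[(46,55)]),(7,[(22,28)])],[]),([(7,[(22,28)]),(6,[(6,6),(6,6),(6,6)])],[7,7,7])],4,3,[]),
  ([([(10,[(46,55)]),(7,[(22,28)])],[]),([(7,[(22,28)]),(4,[(7,10)])],[7,7,7,6,5])],5,12,[6,10]),
  ([([(10,[(46,55)]),(10,[(7,10),(6,6)])],[]),([(7,[(22,28)]),(7,[(22,28)])],[7])],5,1,[6]),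
  ([([(10,[(46,55)]),(10,[(7,10),(6,6),(6,6)])],[]),([(7,[(22,28)]),(7,[(22,28)])],[7])],3,2,[]),
  ([([(10,[(46,55)]),(7,[(22,28)])],[]),([(7,[(22,28)]),(4,[(7,10)]),(4,[(7,10)])],[7,7,7,6,5,4,3])],5,6,[6,7]),
  ([([(11,[(7,10),(7,10),(6,6)]),(10,[(46,55)])],[]),([(7,[(22,28)]),(7,[(22,28)])],[])],2,1,[]),
  ([([(11,[(7,10),(7,10),(7,7)]),(10,[(46,55)])],[]),([(7,[(22,28)]),(7,[(22,28)])],[])],1,0,[]),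
  ([([(10,[(46,55)]),(7,[(22,28)])],[]),([(7,[(22,28)]),(5,[(11,15)])],[7,7,7,6])],5,8,[6,9]),
  ([([(10,[(46,55)]),(7,[(22,28)])],[]),([(7,[(22,28)]),(6,[(11,15),(6,6)])],[7,7,7])],4,3,[]),
  ([([(10,[(46,55)]),(7,[(22,28)])],[]),([(7,[(22,28)]),(5,[(11,15)]),(4,[(7,9)])],[7,7,7,6,4,3])],3,2,[]),
  ([([(10,[(46,55)]),(7,[(22,28)])],[]),([(7,[(22,28)]),(6,[(16,19)])],[7,7,7])],4,3,[]),
  ([([(10,[(46,55)]),(8,[(29,36)])],[])],12,3,[15,21,28,33]),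
  ([([(10,[(46,55)]),(8,[(29,36)])],[]),([(5,[(13,15)])],[5,5,4,3,2,1])],7,13,[10,15]),
  ([([(10,[(46,55)]),(8,[(29,36)])],[]),([(5,[(13,15)]),(4,[(8,10)])],[5,5])],7,13,[10]),
  ([([(10,[(46,55)]),(8,[(29,36)])],[]),([(5,[(13,15)]),(4,[(8,10)]),(4,[(8,10)])],[5,5,4,3,2,1])],7,5,[]),
  ([([(10,[(46,55)]),(8,[(29,36)])],[]),([(5,[(13,15)]),(5,[(11,15)])],[5])],7,10,[10,11]),
  ([([(10,[(46,55)]),(8,[(29,36)])],[]),([(5,[(13,15)]),(5,[(11,15)]),(4,[(8,10)])],[5,4,3,2,1])],4,3,[]),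
  ([([(11,[(46,55),(11,11)]),(8,[(29,36)])],[]),([(5,[(13,15)]),(5,[(11,15)])],[5,5])],1,0,[]),
  ([([(10,[(46,55)]),(8,[(29,36)])],[]),([(6,[(16,21)])],[6,6,5,4,3,2,1])],6,15,[10,15,18]),
  ([([(10,[(46,55)]),(8,[(29,36)])],[]),([(6,[(16,21)]),(4,[(7,10)])],[6,6,5])],6,11,[10]),
  ([([(10,[(46,55)]),(8,[(29,36)])],[]),([(6,[(16,21)]),(4,[(7,10)]),(4,[(7,10)])],[6,6,5,4,3,2])],6,5,[]),
  ([([(10,[(46,55)]),(8,[(29,36)])],[]),([(6,[(16,21)]),(5,[(11,15)])],[6,6])],6,7,[8]),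
  ([([(10,[(46,55)]),(8,[(29,36)])],[]),([(6,[(16,21)]),(5,[(11,15)]),(4,[(7,8)])],[6,6,4,3,2])],2,1,[]),
  ([([(10,[(46,55)]),(8,[(29,36)])],[]),([(6,[(16,21)]),(6,[(16,18)])],[6])],3,2,[]),
  ([([(10,[(46,55)]),(8,[(29,36)])],[]),([(7,[(22,28)])],[7,7,6,5,4,3,2,1])],5,11,[6,10,12]),
  ([([(10,[(46,55)]),(8,[(29,36)])],[]),([(7,[(22,28)]),(3,[(6,6)])],[7,7,6,5,4])],5,6,[6]),
  ([([(10,[(46,55)]),(8,[(29,36)])],[]),([(7,[(22,28)]),(5,[(6,6),(6,6)])],[7,7,6])],2,1,[]),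
  ([([(10,[(46,55)]),(8,[(29,36)])],[]),([(7,[(22,28)]),(4,[(7,10)])],[7,7,6,5])],5,5,[6]),
  ([([(10,[(46,55)]),(10,[(7,10),(6,6)])],[]),([(8,[(29,36)]),(7,[(22,28)])],[])],1,0,[]),
  ([([(10,[(46,55)]),(8,[(29,36)])],[]),([(7,[(22,28)]),(5,[(11,12)])],[7,7,6])],2,1,[]),
  ([([(10,[(46,55)]),(8,[(29,36)])],[]),([(8,[(29,33)])],[8,8,7,6,5,4,3,2,1])],4,4,[5]),
  ([([(10,[(46,55)]),(8,[(29,36)])],[]),([(8,[(29,33)]),(3,[(5,5)])],[8,8,7,6,5,4])],1,0,[]),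
  ([([(10,[(46,55)]),(9,[(37,45)])],[])],12,2,[15,21,25]),
  ([([(10,[(46,55)]),(9,[(37,45)])],[]),([(5,[(13,15)])],[5,4,3,2,1])],7,12,[10,13]),
  ([([(10,[(46,55)]),(9,[(37,45)])],[]),([(5,[(13,15)]),(4,[(8,10)])],[5])],6,5,[]),
  ([([(10,[(46,55)]),(9,[(37,45)])],[]),([(7,[(13,15),(11,13)])],[7,6,5,4,3,2,1])],3,2,[]),
  ([([(10,[(46,55)]),(9,[(37,45)])],[]),([(6,[(16,21)])],[6,5,4,3,2,1])],6,9,[10]),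
  ([([(10,[(46,55)]),(9,[(37,45)])],[]),([(6,[(16,21)]),(4,[(7,10)])],[6,5])],4,3,[]),
  ([([(10,[(46,55)]),(9,[(37,45)])],[]),([(7,[(22,25)])],[7,6,5,4,3,2,1])],4,3,[]),
  ([([(10,[(46,55)]),(10,[(46,55)])],[])],12,1,[15,16]),
  ([([(10,[(46,55)]),(10,[(46,55)])],[]),([(5,[(13,15)])],[4,3,2,1])],4,3,[]),
  ([([(10,[(46,55)]),(10,[(46,55)])],[]),([(6,[(16,16)])],[5,4,3,2,1])],1,0,[]),
  ([([(11,[(56,66)])],[])],11,12,[15,21,28,36,45,51]),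
  ([([(11,[(56,66)]),(5,[(12,15)])],[])],11,7,[15]),
  ([([(11,[(56,66)]),(5,[(12,15)]),(5,[(12,15)])],[])],11,7,[15]),
  ([([(11,[(56,66)]),(5,[(12,15)]),(5,[(12,15)])],[]),([(5,[(12,15)])],[5,5,5,5,5,5,3,1])],6,14,[10,15]),
  ([([(11,[(56,66)]),(5,[(12,15)]),(5,[(12,15)])],[]),([(5,[(12,15)]),(4,[(7,10)])],[5,5,5,5,5,5,4,3,2,1])],6,8,[10]),
  ([([(11,[(56,66)]),(11,[(7,10),(7,10)])],[]),([(5,[(12,15)]),(5,[(12,15)]),(5,[(12,15)])],[4,3,2,1])],6,1,[]),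
  ([([(11,[(56,66)]),(5,[(12,15)]),(5,[(12,15)])],[]),([(5,[(12,15)]),(5,[(11,15)])],[5,5,5,5,5,4,3,2,1])],6,7,[8]),
  ([([(11,[(56,66)]),(5,[(12,15)]),(5,[(12,15)])],[]),([(5,[(12,15)]),(5,[(11,15)]),(4,[(7,8)])],[5,5,5,5,5])],2,1,[]),
  ([([(11,[(56,66)]),(6,[(16,21)])],[])],11,6,[15,21]),
  ([([(11,[(56,66)]),(6,[(16,21)]),(5,[(12,15)])],[])],11,6,[15]),
  ([([(11,[(56,66)]),(6,[(16,21)]),(5,[(12,15)])],[]),([(5,[(12,15)])],[5,5,5,5,5,4,2])],6,13,[10,14]),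
  ([([(11,[(56,66)]),(6,[(16,21)]),(5,[(12,15)])],[]),([(5,[(12,15)]),(4,[(7,10)])],[5,5,5,5,5,3,2,1])],6,7,[8]),
  ([([(11,[(56,66)]),(10,[(7,10),(7,8)])],[]),([(6,[(16,21)]),(5,[(12,15)]),(5,[(12,15)])],[6,5,4,3,2,1])],2,1,[]),
  ([([(11,[(56,66)]),(6,[(16,21)]),(5,[(12,15)])],[]),([(5,[(12,15)]),(5,[(11,14)])],[5,5,5,5,3,2,1])],4,3,[]),
  ([([(11,[(56,66)]),(6,[(16,21)])],[]),([(6,[(16,21)])],[6,6,6,6,6,5,4,3,2,1])],5,18,[6,10,15,21]),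
  ([([(11,[(56,66)]),(6,[(16,21)])],[]),([(6,[(16,21)]),(3,[(6,6)])],[6,6,6,6,6,5,4])],5,15,[6]),
  ([([(11,[(56,66)]),(6,[(16,21)])],[]),([(6,[(16,21)]),(5,[(6,6),(6,6)])],[6,6,6,6,6])],5,10,[6]),
  ([([(11,[(56,66)]),(6,[(16,21)])],[]),([(6,[(16,21)]),(6,[(6,6),(6,6),(6,6)])],[6,6,6,6])],5,5,[6]),
  ([([(11,[(56,66)]),(8,[(6,6),(6,6),(6,6),(6,6)])],[]),([(6,[(16,21)]),(6,[(16,21)])],[6,6])],1,0,[]),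
  ([([(11,[(56,66)]),(6,[(16,21)])],[]),([(6,[(16,21)]),(4,[(7,10)])],[6,6,6,6,6,5])],5,14,[6,10]),
  ([([(11,[(56,66)]),(10,[(7,10),(6,6)])],[]),([(6,[(16,21)]),(6,[(16,21)])],[])],5,9,[6]),
  ([([(11,[(56,66)]),(10,[(7,10),(6,6),(6,6)])],[]),([(6,[(16,21)]),(6,[(16,21)])],[])],5,4,[]),
  ([([(11,[(56,66)]),(6,[(16,21)])],[]),([(6,[(16,21)]),(4,[(7,10)]),(4,[(7,10)])],[6,6,6,6,6,5,4,3])],5,8,[6,9]),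
  ([([(11,[(56,66)]),(11,[(7,10),(7,10),(6,6)])],[]),([(6,[(16,21)]),(6,[(16,21)])],[6])],4,3,[]),
  ([([(11,[(56,66)]),(11,[(7,10),(7,10),(7,9)])],[]),([(6,[(16,21)]),(6,[(16,21)])],[6])],3,2,[]),
  ([([(11,[(56,66)]),(6,[(16,21)])],[]),([(6,[(16,21)]),(5,[(11,15)])],[6,6,6,6,6])],5,10,[6,10,11]),
  ([([(11,[(56,66)]),(6,[(16,21)])],[]),([(6,[(16,21)]),(6,[(11,15),(6,6)])],[6,6,6,6])],5,5,[6]),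
  ([([(11,[(56,66)]),(6,[(16,21)])],[]),([(6,[(16,21)]),(6,[(11,15),(6,6)]),(3,[(6,6)])],[6,6,6,6,3,2])],1,0,[]),
  ([([(11,[(56,66)]),(6,[(16,21)])],[]),([(6,[(16,21)]),(5,[(11,15)]),(4,[(7,10)])],[6,6,6,6,6,4,3])],5,4,[]),
  ([([(11,[(56,66)]),(6,[(16,21)])],[]),([(6,[(16,21)]),(5,[(11,15)])],[6,6,6,6,6]),([(5,[(11,11)])],[5,5,5,5,5,5,5,5,5,5,5,5,5,5,5,5,5])],1,0,[]),
  ([([(11,[(56,66)]),(6,[(16,21)])],[]),([(6,[(16,21)]),(6,[(16,21)])],[6,6,6,6])],5,5,[6]),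
  ([([(11,[(56,66)]),(6,[(16,21)])],[]),([(6,[(16,21)]),(6,[(16,21)]),(3,[(6,6)])],[6,6,6,6,3,2])],1,0,[]),
  ([([(11,[(56,66)]),(7,[(22,28)])],[])],11,5,[15,21,28]),
  ([([(11,[(56,66)]),(7,[(22,28)])],[]),([(5,[(12,15)])],[5,5,5,5,4,3,2,1])],6,15,[10,15]),
  ([([(11,[(56,66)]),(7,[(22,28)])],[]),([(5,[(12,15)]),(4,[(7,10)])],[5,5,5,5])],6,12,[10]),
  ([([(11,[(56,66)]),(7,[(22,28)])],[]),([(5,[(12,15)]),(4,[(7,10)]),(4,[(7,10)])],[5,5,5,5,4,3,2])],6,6,[7]),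
  ([([(11,[(56,66)]),(11,[(7,10),(7,10),(7,7)])],[]),([(7,[(22,28)]),(5,[(12,15)])],[6])],1,0,[]),
  ([([(11,[(56,66)]),(7,[(22,28)])],[]),([(5,[(12,15)]),(5,[(11,15)])],[5,5,5])],6,8,[9]),
  ([([(11,[(56,66)]),(7,[(22,28)])],[]),([(5,[(12,15)]),(5,[(11,15)]),(4,[(7,9)])],[5,5,5,4,3,2])],3,2,[]),
  ([([(11,[(56,66)]),(7,[(22,28)])],[]),([(6,[(16,21)])],[6,6,6,6,5,4,3,2,1])],5,14,[6,10,15]),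
  ([([(11,[(56,66)]),(7,[(22,28)])],[]),([(6,[(16,21)]),(3,[(6,6)])],[6,6,6,6,5,4])],5,9,[6]),
  ([([(11,[(56,66)]),(7,[(22,28)])],[]),([(6,[(16,21)]),(5,[(6,6),(6,6)])],[6,6,6,6])],5,4,[]),
  ([([(11,[(56,66)]),(7,[(22,28)])],[]),([(6,[(16,21)]),(4,[(7,10)])],[6,6,6,6,5])],5,8,[6,9]),
  ([([(11,[(56,66)]),(10,[(7,10),(6,6)])],[]),([(7,[(22,28)]),(6,[(16,21)])],[7])],4,3,[]),
  ([([(11,[(56,66)]),(10,[(7,10),(7,9)])],[]),([(7,[(22,28)]),(6,[(16,21)])],[7])],3,2,[]),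
  ([([(11,[(56,66)]),(7,[(22,28)])],[]),([(6,[(16,21)]),(5,[(11,15)])],[6,6,6,6])],5,4,[]),
  ([([(11,[(56,66)]),(7,[(22,28)])],[]),([(7,[(22,28)])],[7,7,7,7,6,5,4,3,2,1])],4,8,[6,9]),
  ([([(11,[(56,66)]),(7,[(22,28)])],[]),([(7,[(22,28)]),(3,[(5,6)])],[7,7,7,7,6,5,4])],4,4,[5]),
  ([([(11,[(56,66)]),(7,[(22,28)])],[]),([(7,[(22,28)]),(6,[(5,6),(5,5)])],[7,7,7,7])],1,0,[]),
  ([([(11,[(56,66)]),(7,[(22,28)])],[]),([(7,[(22,28)]),(4,[(7,9)])],[7,7,7,7,6,5])],3,2,[]),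
  ([([(11,[(56,66)]),(8,[(29,36)])],[])],11,4,[15,21,23]),
  ([([(11,[(56,66)]),(8,[(29,36)])],[]),([(5,[(12,15)])],[5,5,5,4,3,2,1])],6,11,[10,12]),
  ([([(11,[(56,66)]),(8,[(29,36)])],[]),([(5,[(12,15)]),(4,[(7,10)])],[5,5,5])],6,5,[]),
  ([([(11,[(56,66)]),(8,[(29,36)])],[]),([(7,[(12,15),(11,12)])],[7,7,7,6,5,4,3,2,1])],2,1,[]),
  ([([(11,[(56,66)]),(8,[(29,36)])],[]),([(6,[(16,21)])],[6,6,6,5,4,3,2,1])],5,7,[6,8]),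
  ([([(11,[(56,66)]),(8,[(29,36)])],[]),([(6,[(16,21)]),(3,[(6,6)])],[6,6,6,5,4])],3,2,[]),
  ([([(11,[(56,66)]),(8,[(29,36)])],[]),([(6,[(16,21)]),(4,[(7,8)])],[6,6,6,5])],2,1,[]),
  ([([(11,[(56,66)]),(8,[(29,36)])],[]),([(7,[(22,23)])],[7,7,7,6,5,4,3,2,1])],2,1,[]),
  ([([(11,[(56,66)]),(9,[(37,45)])],[])],11,3,[15]),
  ([([(11,[(56,66)]),(9,[(37,45)])],[]),([(5,[(12,15)])],[5,5,4,3,2,1])],4,3,[]),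
  ([([(11,[(56,66)]),(10,[(46,51)])],[])],6,5,[]),
  ([([(12,[(67,78)])],[])],10,13,[15,21,28,36,40]),
  ([([(12,[(67,78)]),(5,[(11,15)])],[])],10,8,[15]),
  ([([(12,[(67,78)]),(5,[(11,15)]),(5,[(11,15)])],[])],10,8,[15]),
  ([([(12,[(67,78)]),(5,[(11,15)]),(5,[(11,15)])],[]),([(5,[(11,15)])],[5,5,5,5,5,5,5,3,1])],5,9,[6,10]),
  ([([(12,[(67,78)]),(6,[(11,15),(6,6)])],[]),([(5,[(11,15)]),(5,[(11,15)])],[5,5,5,5,5])],5,4,[]),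
  ([([(12,[(67,78)]),(5,[(11,15)]),(5,[(11,15)])],[]),([(5,[(11,15)]),(4,[(7,10)])],[5,5,5,5,5,5,5,4,3,2,1])],4,3,[]),
  ([([(12,[(67,78)]),(6,[(16,21)])],[])],10,7,[15,21]),
  ([([(12,[(67,78)]),(6,[(16,21)])],[]),([(5,[(11,15)])],[5,5,5,5,5,5,4,3,2,1])],5,14,[6,10,15]),
  ([([(12,[(67,78)]),(6,[(16,21)])],[]),([(5,[(11,15)]),(3,[(6,6)])],[5,5,5,5,5,5,4])],5,9,[6]),
  ([([(12,[(67,78)]),(6,[(16,21)])],[]),([(5,[(11,15)]),(5,[(6,6),(6,6)])],[5,5,5,5,5])],5,4,[]),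
  ([([(12,[(67,78)]),(6,[(16,21)])],[]),([(5,[(11,15)]),(4,[(7,10)])],[5,5,5,5,5,5])],5,8,[6,9]),
  ([([(12,[(67,78)]),(6,[(16,21)])],[]),([(6,[(11,15),(6,6)]),(4,[(7,10)])],[6,6,6,6,6,6,5])],4,3,[]),
  ([([(12,[(67,78)]),(10,[(7,10),(7,9)])],[]),([(6,[(16,21)]),(5,[(11,15)])],[6,6])],3,2,[]),
  ([([(12,[(67,78)]),(6,[(16,21)])],[]),([(5,[(11,15)]),(5,[(11,15)])],[5,5,5,5,5])],5,4,[]),
  ([([(12,[(67,78)]),(6,[(16,21)])],[]),([(6,[(16,21)])],[6,6,6,6,6,6,5,4,3,2,1])],4,9,[6,10]),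
  ([([(12,[(67,78)]),(6,[(16,21)])],[]),([(6,[(16,21)]),(3,[(5,6)])],[6,6,6,6,6,6,5,4])],4,5,[6]),
  ([([(12,[(67,78)]),(7,[(5,6),(5,6)])],[]),([(6,[(16,21)]),(6,[(16,21)])],[6,6,6,6])],2,1,[]),
  ([([(12,[(67,78)]),(6,[(16,21)])],[]),([(6,[(16,21)]),(4,[(7,10)])],[6,6,6,6,6,6,5])],4,3,[]),
  ([([(12,[(67,78)]),(7,[(22,28)])],[])],10,6,[15,19]),
  ([([(12,[(67,78)]),(7,[(22,28)])],[]),([(5,[(11,15)])],[5,5,5,5,5,4,3,2,1])],5,8,[6,9]),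
  ([([(12,[(67,78)]),(7,[(22,28)])],[]),([(6,[(11,15),(6,6)])],[6,6,6,6,6,5,4,3,2,1])],4,3,[]),
  ([([(12,[(67,78)]),(7,[(22,28)])],[]),([(5,[(11,15)]),(4,[(7,9)])],[5,5,5,5,5])],3,2,[]),
  ([([(12,[(67,78)]),(7,[(22,28)])],[]),([(6,[(16,19)])],[6,6,6,6,6,5,4,3,2,1])],4,3,[]),
  ([([(12,[(67,78)]),(8,[(29,36)])],[])],10,5,[12]),
  ([([(12,[(67,78)]),(8,[(29,36)])],[]),([(5,[(11,12)])],[5,5,5,5,4,3,2,1])],2,1,[]),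
  ([([(12,[(67,78)]),(9,[(37,40)])],[])],4,3,[]), ([([(13,[(79,91)])],[])],9,14,[10,15,21,28]),
  ([([(13,[(79,91)]),(4,[(10,10)])],[])],9,10,[10]),
  ([([(13,[(79,91)]),(6,[(10,10),(10,10)])],[])],9,8,[10]),
  ([([(13,[(79,91)]),(6,[(10,10),(10,10)])],[]),([(4,[(10,10)])],[4,4,4,4,4,4,4,3,2,1])],1,0,[]),
  ([([(13,[(79,91)]),(5,[(11,15)])],[])],9,9,[10,15]),
  ([([(13,[(79,91)]),(5,[(11,15)]),(4,[(10,10)])],[])],9,8,[]),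
  ([([(13,[(79,91)]),(5,[(11,15)])],[]),([(5,[(11,15)])],[5,5,5,5,5,5,5,5,4,3,2,1])],4,7,[6,8]),
  ([([(13,[(79,91)]),(5,[(11,15)])],[]),([(5,[(11,15)]),(3,[(5,6)])],[5,5,5,5,5,5,5,5,4])],4,3,[]),
  ([([(13,[(79,91)]),(5,[(11,15)])],[]),([(5,[(11,15)]),(4,[(7,8)])],[5,5,5,5,5,5,5,5])],2,1,[]),
  ([([(13,[(79,91)]),(6,[(16,21)])],[])],9,8,[10,13]),
  ([([(13,[(79,91)]),(6,[(16,21)])],[]),([(4,[(10,10)])],[4,4,4,4,4,4,4,3,2,1])],4,3,[]),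
  ([([(13,[(79,91)]),(6,[(16,21)])],[]),([(5,[(11,13)])],[5,5,5,5,5,5,5,4,3,2,1])],3,2,[]),
  ([([(13,[(79,91)]),(7,[(22,28)])],[])],7,6,[]), ([([(14,[(92,105)])],[])],8,14,[10,15]),
  ([([(14,[(92,105)]),(4,[(9,10)])],[])],7,6,[]), ([([(14,[(92,105)]),(5,[(11,15)])],[])],5,4,[]),
  ([([(15,[(106,106)])],[])],1,0,[])]

theorem ki_22 : KC 22 105 := kc_of_itree it_22 (by decide +kernel)

end Pool.MP322
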