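import Pool.Agent.Lib.MP_322c5f_al.SG31

/-! (C), part 25: fast checker for interval certificate trees of arbitrary diagrams. -/

set_option autoImplicit false

open Equiv Finset Nat

namespace Pool.MP322

/-- packed counts -/
def encL (L : List ℕ) : ℕ := L.foldr (fun h a => Nat.add (Nat.pow 2 (Nat.mul 7 h)) a) 0

theorem encL_sum (L : List ℕ) {m : ℕ} (hm : ∀ h ∈ L, h < m) :
    encL L = ∑ j ∈ range m, L.count j * 2 ^ (7 * j) := by
  induction L with
  | nil => simp [encL]
  | cons a L ih =>
    have h1 : encL (a :: L) = 2 ^ (7 * a) + encL L := rfl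
    rw [h1, ih fun h hh => hm h (List.mem_cons_of_mem _ hh)]
    have h2 : ∑ j ∈ range m, (a :: L).count j * 2 ^ (7 * j) =
        ∑ j ∈ range m, L.count j * 2 ^ (7 * j) + ∑ j ∈ range m, (if j = a then 2 ^ (7 * j) else 0) := by
      rw [← Finset.sum_add_distrib]
      refine Finset.sum_congr rfl fun j _ => ?_
      rw [List.count_cons]
      by_cases h : j = a
      · subst h
        simp
        ring
      · rw [if_neg h]
        have : (a == j) = false := by simpa using fun h' => h h'.symm
        rw [this]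
        simp
    rw [h2, Finset.sum_ite_eq' (range m) a, if_pos (Finset.mem_range.2 (hm a (List.mem_cons_self ..)))]
    ring

private theorem sum_split35 (w m : ℕ) (e : ℕ → ℕ) :
    ∑ j ∈ Finset.range (m + 1), e j * 2 ^ (w * j) =
      2 ^ w * (∑ j ∈ Finset.range m, e (j + 1) * 2 ^ (w * j)) + e 0 := by
  rw [Finset.sum_range_succ', Finset.mul_sum]
  simp only [mul_zero, pow_zero, mul_one]
  congr 1
  refine Finset.sum_congr rfl fun j _ => ?_
  rw [mul_add, mul_one, pow_add]
  ring

private theorem shr_succ35 (w i x : ℕ) : x >>> (w * (i + 1)) = (x / 2 ^ w) >>> (w * i) := by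
  rw [Nat.shiftRight_eq_div_pow, Nat.shiftRight_eq_div_pow, Nat.div_div_eq_div_mul, mul_add,
    mul_one, pow_add, mul_comm (2 ^ (w * i))]

private theorem dig35 {w : ℕ} : ∀ (m : ℕ) (e : ℕ → ℕ), (∀ i < m, e i < 2 ^ w) → ∀ i < m,
    ((∑ j ∈ Finset.range m, e j * 2 ^ (w * j)) >>> (w * i)) % 2 ^ w = e i := by
  intro m
  induction m with
  | zero => exact fun e _ i hi => absurd hi (Nat.not_lt_zero i)
  | succ m ih =>
    intro e he i hi
    have h0 : e 0 < 2 ^ w := he 0 (Nat.succ_pos m)
    rw [sum_split35]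
    rcases i with _ | i
    · rw [mul_zero, Nat.shiftRight_zero, Nat.mul_add_mod, Nat.mod_eq_of_lt h0]
    · rw [shr_succ35, Nat.mul_add_div (by positivity), Nat.div_eq_of_lt h0, add_zero]
      exact ih (fun j => e (j + 1)) (fun j hj => he (j + 1) (Nat.succ_lt_succ hj)) i
        (Nat.lt_of_succ_lt_succ hi)

theorem encL_count (L : List ℕ) (hL : L.length < 128) (h : ℕ) :
    (encL L >>> (7 * h)) % 128 = L.count h := by
  set m := h + 1 + L.sum with hm
  have h1 : ∀ a ∈ L, a < m + 1 := fun a ha => by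
    have := List.single_le_sum (fun x _ => Nat.zero_le x) a ha
    omega
  rw [encL_sum L h1]
  exact dig35 (w := 7) (m + 1) (fun j => L.count j)
    (fun i _ => lt_of_le_of_lt List.count_le_length hL) h (by omega)

def permB (L L' : List ℕ) : Bool :=
  Nat.beq (encL L) (encL L') && Nat.blt L.length 128 && Nat.blt L'.length 128

theorem permB_spec {L L' : List ℕ} (h : permB L L' = true) : L.Perm L' := by
  unfold permB at h
  rw [Bool.and_eq_true, Bool.and_eq_true] at h
  obtain ⟨⟨h1, h2⟩, h3⟩ := h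
  have h1' := Nat.eq_of_beq_eq_true h1
  have h2' : L.length < 128 := by simpa [Nat.blt_eq] using h2
  have h3' : L'.length < 128 := by simpa [Nat.blt_eq] using h3
  rw [List.perm_iff_count]
  intro a
  rw [← encL_count L h2', ← encL_count L' h3', h1']

/-- sum of truncated differences, fast -/
def sF (k : ℕ) (L : List ℕ) : ℕ := L.foldr (fun s a => Nat.add (Nat.sub s k) a) 0

theorem sF_eq (k : ℕ) (L : List ℕ) : sF k L = sbL k L := foldr_sum L (fun s => Nat.sub s k)

/-- merged contents, fast -/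
def mgF (L : List ℕ) : List ℕ :=
  (List.range (mxL L)).map (fun a => Nat.mul (a + 1) (Nat.mod (Nat.shiftRight (encL L) (Nat.mul 7 (a + 1))) 128))

theorem mgF_eq (L : List ℕ) (hL : L.length < 128) : mgF L = mgL L := by
  unfold mgF mgL
  refine List.map_congr_left fun a _ => ?_
  rw [← encL_count L hL]
  rfl

/-- tables of blocks -/
def okS (S : List (List ℕ × List ℕ)) : Bool := S.all (fun p => (conjL p.1 == p.1) && (mgL p.1 == p.2))
def okR (R : List (List ℕ × List ℕ)) : Bool := R.all (fun p => conjL (mgL p.1) == p.2)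

/-- blocks: `(type, index, intervals)` -/
def blkD (S R F : List (List ℕ × List ℕ)) (b : ℕ × ℕ × List (ℕ × ℕ)) : List ℕ :=
  match b with
  | (0, i, _) => (S.getD i ([], [])).1
  | (1, i, _) => (R.getD i ([], [])).1
  | (2, i, _) => (F.getD i ([], [])).1
  | (_ + 3, i, _) => conjL (F.getD i ([], [])).1

def blkB (S R F : List (List ℕ × List ℕ)) (b : ℕ × ℕ × List (ℕ × ℕ)) : Bool :=
  match b with
  | (0, i, I) => Nat.ble (sF 0 (his I)) (sF 0 (S.getD i ([], [])).1) &&
      (List.range (mxL (S.getD i ([], [])).2)).all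
        (fun k => Nat.ble (sF (k + 1) (S.getD i ([], [])).2) (sF (k + 1) (los I)))
  | (1, i, I) => (List.range (mxL (his I))).all
      (fun k => Nat.ble (sF k (his I)) (sF k (R.getD i ([], [])).2))
  | (2, i, I) => (los I == (F.getD i ([], [])).2) && (his I == (F.getD i ([], [])).2)
  | (_ + 3, i, I) => (los I == (F.getD i ([], [])).2) && (his I == (F.getD i ([], [])).2)

theorem exact_eq : ∀ {I : List (ℕ × ℕ)} {L L' : List ℕ}, List.Forall₂ inI I L → los I = L' →
    his I = L' → L = L' := by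
  intro I L L' h
  induction h generalizing L' with
  | nil => intro h1 _; exact h1
  | @cons p t I L hp _ ih =>
    intro h1 h2
    unfold los at h1
    unfold his at h2
    rw [List.map_cons] at h1 h2
    cases L' with
    | nil => simp at h1
    | cons a L' =>
      obtain ⟨h3, h4⟩ := List.cons.inj h1
      obtain ⟨h5, h6⟩ := List.cons.inj h2
      rw [ih h4 h6]
      congr 1
      have := hp.1
      have := hp.2
      omega

theorem getD_mem {F : List (List ℕ × List ℕ)} {P : List ℕ × List ℕ → Prop} (h : ∀ p ∈ F, P p)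
    (h0 : P ([], [])) (i : ℕ) : P (F.getD i ([], [])) := by
  rcases Nat.lt_or_ge i F.length with hi | hi
  · rw [List.getD_eq_getElem _ _ hi]
    exact h _ (List.getElem_mem hi)
  · rw [List.getD_eq_default _ _ hi]
    exact h0

theorem CC_blk {S R F : List (List ℕ × List ℕ)} (hS : okS S = true) (hR : okR R = true)
    (hF : ∀ p ∈ F, CC (p.1 : Multiset ℕ) (p.2 : Multiset ℕ))
    (b : ℕ × ℕ × List (ℕ × ℕ)) (h : blkB S R F b = true) {L : List ℕ}
    (hL : List.Forall₂ inI b.2.2 L) : CC (blkD S R F b : Multiset ℕ) (L : Multiset ℕ) := by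
  obtain ⟨t, i, I⟩ := b
  have hS' : ∀ p ∈ S, conjL p.1 = p.1 ∧ mgL p.1 = p.2 := by
    intro p hp
    have h1 := List.all_eq_true.1 hS p hp
    rw [Bool.and_eq_true, beq_iff_eq, beq_iff_eq] at h1
    exact h1
  have hR' : ∀ p ∈ R, conjL (mgL p.1) = p.2 := by
    intro p hp
    have h1 := List.all_eq_true.1 hR p hp
    rw [beq_iff_eq] at h1
    exact h1
  have hs0 : sbL 0 L ≤ sbL 0 (his I) := sum_his hL 0
  rw [sbL_z, sbL_z] at hs0
  match t, h with
  | 0, h =>
    obtain ⟨h1, h2⟩ := getD_mem (P := fun p => conjL p.1 = p.1 ∧ mgL p.1 = p.2) hS' ⟨rfl, rfl⟩ i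
    simp only [blkB, Bool.and_eq_true, Nat.ble_eq, List.all_eq_true, List.mem_range, sF_eq] at h
    obtain ⟨h3, h4⟩ := h
    rw [sbL_z, sbL_z] at h3
    show CC (((S.getD i ([], [])).1 : List ℕ) : Multiset ℕ) (L : Multiset ℕ)
    set D := (S.getD i ([], [])).1 with hD
    have hN : ∀ s ∈ (D : Multiset ℕ), s ≤ mxL D := fun s hs => le_mxL (Multiset.mem_coe.1 hs)
    refine CC_sc hN ?_ (by rw [Multiset.sum_coe, Multiset.sum_coe]; omega) fun k hk => ?_
    · have h5 := cD_cj hN
      rw [← conjL_cj, h1] at h5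
      exact h5.symm
    · rw [← mgL_mgc, sbL_coe, sbL_coe]
      have h5 := sum_los hL k
      obtain ⟨k, rfl⟩ : ∃ k', k = k' + 1 := ⟨k - 1, by omega⟩
      rw [h2]
      rcases Nat.lt_or_ge k (mxL (S.getD i ([], [])).2) with h6 | h6
      · exact (h4 k h6).trans h5
      · rw [sbL_zero (by omega)]
        exact Nat.zero_le _
  | 1, h =>
    have h1 := getD_mem (P := fun p => conjL (mgL p.1) = p.2) hR' rfl i
    simp only [blkB, Nat.ble_eq, List.all_eq_true, List.mem_range, sF_eq] at h
    show CC (((R.getD i ([], [])).1 : List ℕ) : Multiset ℕ) (L : Multiset ℕ)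
    set D := (R.getD i ([], [])).1 with hD
    have hN : ∀ s ∈ (D : Multiset ℕ), s ≤ mxL D := fun s hs => le_mxL (Multiset.mem_coe.1 hs)
    refine CC_dir hN fun k => ?_
    rw [sbL_coe]
    have h5 := sum_his hL k
    rcases lt_or_ge k (mxL (his I)) with hk | hk
    · refine (h5.trans (h k hk)).trans ?_
      rw [← h1]
      have h6 := sum_conjL_sub (mgL D) k (w := (D : Multiset ℕ).sum)
        (le_of_eq (by rw [mgL_mgc, sum_mgc hN]))
      rwa [mgL_mgc] at h6
    · have h6 : sbL k (his I) = 0 := sbL_zero hk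
      rw [h6] at h5
      exact h5.trans (Nat.zero_le _)
  | 2, h =>
    have h1 := getD_mem (P := fun p => CC (p.1 : Multiset ℕ) (p.2 : Multiset ℕ)) hF (CC_zero _) i
    simp only [blkB, Bool.and_eq_true, beq_iff_eq] at h
    rw [exact_eq hL h.1 h.2]
    exact h1
  | t + 3, h =>
    have h1 := getD_mem (P := fun p => CC (p.1 : Multiset ℕ) (p.2 : Multiset ℕ)) hF (CC_zero _) i
    simp only [blkB, Bool.and_eq_true, beq_iff_eq] at h
    rw [exact_eq hL h.1 h.2]
    exact CC_conjL.2 h1

end Pool.MP322
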