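import Pool.Agent.Lib.MP_322c5f_al.SG35

/-! (C), part 26: fast checker for interval certificate trees, nodes and trees. -/

set_option autoImplicit false

open Equiv Finset Nat

namespace Pool.MP322

abbrev Blk := ℕ × ℕ × List (ℕ × ℕ)

/-- column heights of a shelf -/
def shJ (S R F : List (List ℕ × List ℕ)) (s : List Blk × List ℕ) : List ℕ :=
  conjL (s.1.flatMap (blkD S R F) ++ s.2)

theorem CC_shJ {S R F : List (List ℕ × List ℕ)} (hS : okS S = true) (hR : okR R = true)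
    (hF : ∀ p ∈ F, CC (p.1 : Multiset ℕ) (p.2 : Multiset ℕ))
    (s : List Blk × List ℕ) (h : ∀ b ∈ s.1, blkB S R F b = true) {L : List ℕ}
    (hL : List.Forall₂ inI (s.1.flatMap (fun b => b.2.2)) L) :
    CC (shJ S R F s : Multiset ℕ) (L : Multiset ℕ) := by
  obtain ⟨bs, X⟩ := s
  have h1 : CC ((bs.flatMap (blkD S R F) : List ℕ) : Multiset ℕ) (L : Multiset ℕ) := by
    induction bs generalizing L with
    | nil =>
      cases hL
      exact CC_zero _
    | cons b bs ih =>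
      simp only [List.flatMap_cons] at hL
      obtain ⟨u, v, rfl, h2, h3⟩ := forall2_append hL
      rw [List.flatMap_cons, ← Multiset.coe_add, ← Multiset.coe_add]
      exact CC_add (CC_blk hS hR hF b (h b (List.mem_cons_self ..)) h2)
        (ih (fun q hq => h q (List.mem_cons_of_mem _ hq)) h3)
  unfold shJ
  rw [CC_conjL, ← Multiset.coe_add]
  exact CC_mono _ h1

theorem CC_shJs {S R F : List (List ℕ × List ℕ)} (hS : okS S = true) (hR : okR R = true)
    (hF : ∀ p ∈ F, CC (p.1 : Multiset ℕ) (p.2 : Multiset ℕ))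
    (sh : List (List Blk × List ℕ)) (h : ∀ s ∈ sh, ∀ b ∈ s.1, blkB S R F b = true) {L : List ℕ}
    (hL : List.Forall₂ inI (sh.flatMap (fun s => s.1.flatMap (fun b => b.2.2))) L) :
    CC ((sh.flatMap (shJ S R F) : List ℕ) : Multiset ℕ) (L : Multiset ℕ) := by
  induction sh generalizing L with
  | nil =>
    cases hL
    exact CC_zero _
  | cons s sh ih =>
    rw [List.flatMap_cons] at hL
    obtain ⟨u, v, rfl, h2, h3⟩ := forall2_append hL
    rw [List.flatMap_cons, ← Multiset.coe_add, ← Multiset.coe_add]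
    exact CC_add (CC_shJ hS hR hF s (h s (List.mem_cons_self ..)) h2)
      (ih (fun q hq => h q (List.mem_cons_of_mem _ hq)) h3)

/-- test for the short items; `C` column heights, `κ` the budget -/
def shortJ (τ i0 κ : ℕ) (C : List ℕ) : Bool :=
  Nat.blt C.length 128 && Nat.ble (2 * κ) (sF 0 C) && Nat.ble (i0 * τ) (sumF i0 (mgF C)) &&
    (Nat.ble κ i0 || Nat.ble (κ + (i0 + 1)) (sumF (i0 + 1) (mgF C)))

theorem CC_shortJ {τ i0 κ : ℕ} {C : List ℕ} (h : shortJ τ i0 κ C = true) {U : Multiset ℕ}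
    (hU : ∀ u ∈ U, 2 ≤ u ∧ u ≤ τ) (hk : (U.map (fun s => s - 1)).sum ≤ κ) :
    CC (C : Multiset ℕ) U := by
  have hN : ∀ s ∈ (C : Multiset ℕ), s ≤ mxL C := fun s hs => le_mxL (Multiset.mem_coe.1 hs)
  unfold shortJ at h
  simp only [Bool.and_eq_true, Bool.or_eq_true, Nat.ble_eq, Nat.blt_eq, sF_eq, sbL_z] at h
  obtain ⟨⟨⟨h1, h2⟩, h3⟩, h4⟩ := h
  rw [mgF_eq C h1] at h3 h4
  have hsm : ∀ i, ∑ r ∈ range i, rf (mgc (mxL C) (C : Multiset ℕ)) r = sumF i (mgL C) := by
    intro i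
    rw [sum_rf, ← mgL_mgc, sumF_eq, Multiset.map_coe, Multiset.sum_coe]
  refine CC_short_mg hN (fun i hi => ?_) hU hk
  rw [← sum_rf]
  refine short_conc (i0 := i0) ?_ ?_ ?_ i hi
  · rw [hsm]; exact h3
  · rw [hsm]; exact h4
  · rw [sum_mgc hN, Multiset.sum_coe]
    exact h2

/-- nodes: orientation, shelves, complement, orientation of the complement, threshold, `i0`,
upper ends -/
abbrev NdJ := Bool × List (List Blk × List ℕ) × List ℕ × Bool × ℕ × ℕ × List ℕ

def nodeJ (S R F : List (List ℕ × List ℕ)) (M : List ℕ) (nd : NdJ) (T : List (ℕ × ℕ)) (κ : ℕ) :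
    Bool :=
  nd.2.1.all (fun s => s.1.all (fun b => blkB S R F b)) &&
    (nd.2.1.flatMap (fun s => s.1.flatMap (fun b => b.2.2))).isPerm T &&
    permB (nd.2.1.flatMap (shJ S R F) ++ nd.2.2.1) (cond nd.1 (conjL M) M) &&
    Nat.ble 1 nd.2.2.2.2.1 &&
    (Nat.ble nd.2.2.2.2.1 1 ||
      shortJ nd.2.2.2.2.1 nd.2.2.2.2.2.1 κ (cond nd.2.2.2.1 (conjL nd.2.2.1) nd.2.2.1))

/-- what a stack entry claims -/
def OKj (M : Multiset ℕ) (o : List (ℕ × ℕ) × ℕ × ℕ) : Prop :=
  ∀ (T : List ℕ) (U : Multiset ℕ), List.Forall₂ inI o.1 T → (∀ u ∈ U, 2 ≤ u ∧ u ≤ o.2.1) →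
    (U.map (fun s => s - 1)).sum ≤ o.2.2 → CC M ((T : Multiset ℕ) + U)

theorem OKj_step {S R F : List (List ℕ × List ℕ)} (hS : okS S = true) (hR : okR R = true)
    (hF : ∀ p ∈ F, CC (p.1 : Multiset ℕ) (p.2 : Multiset ℕ)) {M : List ℕ} {nd : NdJ}
    {o : List (ℕ × ℕ) × ℕ × ℕ} (h : nodeJ S R F M nd o.1 o.2.2 = true)
    (hlast : min o.2.1 (o.2.2 + 1) ≤ lastI nd.2.2.2.2.1 nd.2.2.2.2.2.2)
    (hch : ∀ q ∈ chilI o nd.2.2.2.2.1 nd.2.2.2.2.2.2, OKj (M : Multiset ℕ) q) :
    OKj (M : Multiset ℕ) o := by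
  classical
  intro T U hT hU hk
  obtain ⟨r, sh, C, f, τ, i0, hs⟩ := nd
  unfold nodeJ at h
  simp only [Bool.and_eq_true] at h
  obtain ⟨⟨⟨⟨h1, h2⟩, h3⟩, h4⟩, h5⟩ := h
  have hτ : 1 ≤ τ := Nat.le_of_ble_eq_true h4
  by_cases hall : ∀ u ∈ U, u ≤ τ
  · -- leaf
    obtain ⟨w, hw1, hw2⟩ := List.perm_comp_forall₂ (List.isPerm_iff.1 h2) hT
    have h8 := CC_shJs hS hR hF sh
      (fun s hs p hp => List.all_eq_true.1 (List.all_eq_true.1 h1 s hs) p hp) hw1
    rw [Multiset.coe_eq_coe.2 hw2] at h8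
    have h9 : CC (C : Multiset ℕ) U := by
      rw [Bool.or_eq_true] at h5
      rcases h5 with h5 | h5
      · have h6 : U = 0 := by
          refine Multiset.eq_zero_of_forall_notMem fun u hu => ?_
          have h10 := hU u hu
          have h11 := hall u hu
          have h12 : τ ≤ 1 := Nat.le_of_ble_eq_true h5
          omega
        rw [h6]
        exact CC_zero _
      · cases f with
        | false => exact CC_shortJ h5 (fun u hu => ⟨(hU u hu).1, hall u hu⟩) hk
        | true =>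
          exact CC_conjL.1 (CC_shortJ h5 (fun u hu => ⟨(hU u hu).1, hall u hu⟩) hk)
    have h6 : CC ((sh.flatMap (shJ S R F) : List ℕ) + (C : Multiset ℕ)) ((T : Multiset ℕ) + U) :=
      CC_add h8 h9
    rw [Multiset.coe_add, Multiset.coe_eq_coe.2 (permB_spec h3)] at h6
    cases r with
    | false => exact h6
    | true => exact CC_conjL.1 h6
  · push Not at hall
    obtain ⟨u0, hu0, hu1⟩ := hall
    have hne : U.toFinset.Nonempty := ⟨u0, Multiset.mem_toFinset.2 hu0⟩
    obtain ⟨s, hs', hmax⟩ := Finset.exists_max_image U.toFinset id hne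
    rw [Multiset.mem_toFinset] at hs'
    have hmax' : ∀ u ∈ U, u ≤ s := fun u hu => hmax u (Multiset.mem_toFinset.2 hu)
    have hs2 := hU s hs'
    have hsτ : τ < s := lt_of_lt_of_le hu1 (hmax' u0 hu0)
    obtain ⟨V, hV⟩ := Multiset.exists_cons_of_mem hs'
    rw [hV, Multiset.map_cons, Multiset.sum_cons] at hk
    obtain ⟨lo, hh, h6, h7, h8⟩ := mem_chilI o hs τ s hsτ (by
      have := hs2.2
      have : min o.2.1 (o.2.2 + 1) ≤ lastI τ hs := hlast
      omega)
    have h9 := hch _ h8 (s :: T) V (List.Forall₂.cons ⟨h6, h7⟩ hT) (fun u hu => ?_)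
      (by show _ ≤ o.2.2 - lo; omega)
    · rw [hV]
      have h10 : (((s :: T : List ℕ) : Multiset ℕ)) + V = (T : Multiset ℕ) + s ::ₘ V := by
        rw [← Multiset.cons_coe, Multiset.cons_add, Multiset.add_cons]
      rw [← h10]
      exact h9
    · have hu' : u ∈ U := by rw [hV]; exact Multiset.mem_cons_of_mem hu
      exact ⟨(hU u hu').1, (hmax' u hu').trans h7⟩

/-- the checker -/
def runJ (S R F : List (List ℕ × List ℕ)) (M : List ℕ) :
    List NdJ → List (List (ℕ × ℕ) × ℕ × ℕ) → Bool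
  | _, [] => true
  | [], _ :: _ => false
  | nd :: nds, o :: os => nodeJ S R F M nd o.1 o.2.2 &&
      Nat.ble (o.2.1 - (o.2.1 - (o.2.2 + 1))) (lastI nd.2.2.2.2.1 nd.2.2.2.2.2.2) &&
      runJ S R F M nds (chilI o nd.2.2.2.2.1 nd.2.2.2.2.2.2 ++ os)

theorem runJ_spec {S R F : List (List ℕ × List ℕ)} (hS : okS S = true) (hR : okR R = true)
    (hF : ∀ p ∈ F, CC (p.1 : Multiset ℕ) (p.2 : Multiset ℕ)) (M : List ℕ) :
    ∀ (nds : List NdJ) (os : List (List (ℕ × ℕ) × ℕ × ℕ)), runJ S R F M nds os = true →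
      ∀ o ∈ os, OKj (M : Multiset ℕ) o := by
  intro nds
  induction nds with
  | nil =>
    intro os h o ho
    cases os with
    | nil => simp at ho
    | cons a os => simp [runJ] at h
  | cons nd nds ih =>
    intro os h o ho
    cases os with
    | nil => simp at ho
    | cons a os =>
      unfold runJ at h
      rw [Bool.and_eq_true, Bool.and_eq_true, Nat.ble_eq] at h
      have h1 := ih _ h.2
      rcases List.mem_cons.1 ho with h2 | h2
      · subst h2
        exact OKj_step hS hR hF h.1.1 (by have := h.1.2; omega)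
          fun q hq => h1 q (List.mem_append_left _ hq)
      · exact h1 o (List.mem_append_right _ h2)

theorem kg_of_treeJ {S R F : List (List ℕ × List ℕ)} (hS : okS S = true) (hR : okR R = true)
    (hF : ∀ p ∈ F, CC (p.1 : Multiset ℕ) (p.2 : Multiset ℕ)) {M : List ℕ} {K : ℕ}
    (nds : List NdJ) (h : runJ S R F M nds [([], K + 1, K)] = true) : KG (M : Multiset ℕ) K := by
  intro U hU hUK
  have h1 := runJ_spec hS hR hF M nds _ h ([], K + 1, K) (List.mem_singleton.2 rfl) [] U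
    List.Forall₂.nil ?_ hUK
  · simpa using h1
  · intro s hs
    refine ⟨hU s hs, ?_⟩
    have h2 : s - 1 ≤ (U.map (fun s => s - 1)).sum :=
      Multiset.le_sum_of_mem (Multiset.mem_map_of_mem (fun s => s - 1) hs)
    show s ≤ K + 1
    omega

/-- a list of certificates: all the diagrams carry depth `K` -/
def runAllJ (S R F : List (List ℕ × List ℕ)) (K : ℕ) (cs : List (List ℕ × List NdJ)) : Bool :=
  cs.all (fun c => runJ S R F c.1 c.2 [([], K + 1, K)])

theorem kg_of_allJ {S R F : List (List ℕ × List ℕ)} (hS : okS S = true) (hR : okR R = true)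
    (hF : ∀ p ∈ F, CC (p.1 : Multiset ℕ) (p.2 : Multiset ℕ)) {K : ℕ}
    {cs : List (List ℕ × List NdJ)} (h : runAllJ S R F K cs = true) :
    ∀ M ∈ cs.map Prod.fst, KG (M : Multiset ℕ) K := by
  intro M hM
  rw [List.mem_map] at hM
  obtain ⟨c, hc, rfl⟩ := hM
  exact kg_of_treeJ hS hR hF c.2 (List.all_eq_true.1 h c hc)

end Pool.MP322
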