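import Pool.Agent.Lib.MP_322c5f_al.SG26
import Pool.Agent.Lib.MP_322c5f_al.SG36

/-! (C), part 26b: fast checkers for coverings. -/

set_option autoImplicit false

open Equiv Finset Nat

namespace Pool.MP322

/-- the minors `G` are among the certified diagrams `R`, up to transposition; `2 * index + flag` -/
def minC (c : ℕ) (R : List (List ℕ)) : List (List ℕ) → List ℕ → Bool
  | [], _ => true
  | _ :: _, [] => false
  | p :: G, k :: ks => (match R[k / 2]? with
      | none => false
      | some M => Nat.beq p.length (2 * c) &&
        permB (cond (Nat.beq (k % 2) 1) (conjL (bu (p.take c) (p.drop c)))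
          (bu (p.take c) (p.drop c))) M) && minC c R G ks

theorem minC_spec {c K : ℕ} {R : List (List ℕ)} (hR : ∀ M ∈ R, KG (M : Multiset ℕ) K) :
    ∀ {G : List (List ℕ)} {ks : List ℕ}, minC c R G ks = true → ∀ p ∈ G, p.length = 2 * c ∧
      KG (bu (p.take c) (p.drop c) : Multiset ℕ) K := by
  intro G
  induction G with
  | nil => intro ks _ p hp; simp at hp
  | cons q G ih =>
    intro ks h p hp
    cases ks with
    | nil => simp [minC] at h
    | cons k ks =>
      unfold minC at h
      rw [Bool.and_eq_true] at h
      obtain ⟨h1, h2⟩ := h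
      rcases List.mem_cons.1 hp with h3 | h3
      · subst h3
        cases h4 : R[k / 2]? with
        | none => rw [h4] at h1; simp at h1
        | some M =>
          rw [h4] at h1
          have hM : M ∈ R := List.mem_of_getElem? h4
          simp only [Bool.and_eq_true] at h1
          refine ⟨Nat.eq_of_beq_eq_true h1.1, ?_⟩
          have h5 := permB_spec h1.2
          cases h6 : Nat.beq (k % 2) 1 with
          | true =>
            rw [h6, cond_true] at h5
            have h7 : KG (conjL (bu (p.take c) (p.drop c)) : Multiset ℕ) K := by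
              rw [Multiset.coe_eq_coe.2 h5]
              exact hR M hM
            exact KG_conjL.1 h7
          | false =>
            rw [h6, cond_false] at h5
            rw [Multiset.coe_eq_coe.2 h5]
            exact hR M hM
      · exact ih h2 p h3

/-- pointwise comparison -/
def leB : List ℕ → List ℕ → Bool
  | [], _ => true
  | _ :: _, [] => false
  | a :: l, b :: m => Nat.ble a b && leB l m

theorem leB_spec : ∀ {a b : List ℕ}, leB a b = true → leP a b := by
  intro a
  induction a with
  | nil => intro b _ i; simp
  | cons x a ih =>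
    intro b h i
    cases b with
    | nil => simp [leB] at h
    | cons y b =>
      unfold leB at h
      rw [Bool.and_eq_true, Nat.ble_eq] at h
      cases i with
      | zero => exact h.1
      | succ i => exact ih h.2 i

/-- the fast checker: `l` lower bounds, `u` upper bounds (`0` = none) -/
def btC (c n0 : ℕ) (G : List (List ℕ)) : BT → List ℕ → List ℕ → Bool
  | .small, _, u => Nat.beq u.length (2 * c) && u.all (fun a => Nat.ble 1 a) &&
      Nat.ble (nS (u.take c) (u.drop c) + 1) n0
  | .minor k, l, _ => match G[k]? with
      | none => false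
      | some p => leB p l
  | .split i t lo hi, l, u => Nat.ble 2 t &&
      btC c n0 G lo l (u.set i (t - 1)) && btC c n0 G hi (l.set i t) u

theorem btC_btB (c n0 : ℕ) (G : List (List ℕ)) : ∀ (T : BT) (l u : List ℕ),
    btC c n0 G T l u = true → btB c n0 G T l u = true := by
  intro T
  induction T with
  | small => intro l u h; exact h
  | minor k =>
    intro l u h
    unfold btC at h
    cases h4 : G[k]? with
    | none => rw [h4] at h; simp at h
    | some p =>
      rw [h4] at h
      have h5 := leB_spec h
      obtain ⟨h6, h7⟩ := List.getElem?_eq_some_iff.1 h4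
      simp only [btB, Bool.and_eq_true, List.all_eq_true, Nat.ble_eq]
      refine ⟨?_, fun i _ => ?_⟩
      · unfold Nat.blt
        rw [Nat.ble_eq]; exact h6
      · rw [List.getD_eq_getElem _ _ h6, h7]
        exact h5 i
  | split i t lo hi ih1 ih2 =>
    intro l u h
    unfold btC at h
    simp only [Bool.and_eq_true] at h
    simp only [btB, Bool.and_eq_true]
    exact ⟨⟨h.1.1, ih1 _ _ h.1.2⟩, ih2 _ _ h.2⟩

/-- THE COVERING THEOREM, fast checkers -/
theorem coverC {c K n0 : ℕ} {G R : List (List ℕ)} (ks : List ℕ) (T : BT)
    (hR : ∀ M ∈ R, KG (M : Multiset ℕ) K) (hmin : minC c R G ks = true)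
    (hT : btC c n0 G T (List.replicate (2 * c) 1) (List.replicate (2 * c) 0) = true)
    {M : Multiset ℕ} (hM : ∀ s ∈ M, 1 ≤ s) (hc : M.dedup.card = c) (hn : n0 ≤ M.sum) : KG M K := by
  have hG := minC_spec hR hmin
  refine cover (G := G) (R := G.map (fun p => bu (p.take c) (p.drop c))) T ?_ ?_
    (btC_btB c n0 G T _ _ hT) hM hc hn
  · intro M hM
    rw [List.mem_map] at hM
    obtain ⟨p, hp, rfl⟩ := hM
    exact (hG p hp).2
  · unfold minB
    rw [List.all_eq_true]
    intro p hp
    rw [Bool.and_eq_true]
    refine ⟨by rw [(hG p hp).1]; exact Nat.beq_refl _, ?_⟩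
    rw [List.any_eq_true]
    refine ⟨_, List.mem_map.2 ⟨p, hp, rfl⟩, ?_⟩
    rw [Bool.or_eq_true]
    left
    rw [List.isPerm_iff]

end Pool.MP322
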