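import Pool.Agent.Lib.MP_322c5f_al.SG36b
import Pool.Agent.Lib.MP_322c5f_alF.FB39

/-! (C), part 27: four and five distinct column heights, depth nine. -/

set_option autoImplicit false

namespace Pool.MP322

/-- self-conjugate blocks -/
def S37 : List (List ℕ × List ℕ) := [
  ([2,2],[0,4]), ([3,1,1],[2,0,3]), ([3,2,1],[1,2,3]), ([2,1],[1,2]), ([4,3,2,1],[1,2,3,4]),
  ([4,3,3,1],[1,0,6,4]), ([3,3,2],[0,2,6]), ([3,3,3],[0,0,9]), ([4,2,1,1],[2,2,0,4]),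
  ([5,2,1,1,1],[3,2,0,0,5]), ([4,1,1,1],[3,0,0,4]), ([5,3,2,1,1],[2,2,3,0,5]),
  ([6,2,1,1,1,1],[4,2,0,0,0,6]), ([5,1,1,1,1],[4,0,0,0,5])]

theorem S37_ok : okS S37 = true := by decide +kernel

/-- direct blocks -/
def R37 : List (List ℕ × List ℕ) := [
  ([4,3,2,1],[4,3,2,1])]

theorem R37_ok : okR R37 = true := by decide +kernel

/-- facts used -/
def F37 : List (List ℕ × List ℕ) := [
  ([5,4,3,1],[5,3,3]), ([5,4,3,1],[5,3,3,2]), ([5,4,3,1],[5,5,2]), ([5,4,3,1],[6,3,3]),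
  ([5,4,2,1],[5,3,3]), ([5,4,2,1],[5,5,2]), ([5,4,2,1],[6,3,3]), ([5,4,3,1],[5,3,2,2]),
  ([6,5,4,1],[5,3,2,2,2]), ([5,4,3,1],[6,3,2,2]), ([6,3,2,1],[6,3,3]), ([5,4,3,2],[5,3,3,2]),
  ([5,4,3,2],[5,3,2,2]), ([5,4,3,2],[5,3,2,2,2]), ([5,4,3,2],[5,3,3]), ([5,4,3,2],[5,5,2]),
  ([5,4,3,2],[6,5]), ([6,5,2,1],[5,3,3,2]), ([6,5,2,1],[6,3,2,2]), ([5,4,2,1],[6,5]),
  ([5,4,2,1],[7,3,2]), ([5,4,2,1],[9,2]), ([5,3,2,1],[9,2])]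

theorem F37_ok : ∀ p ∈ F37, CC (p.1 : Multiset ℕ) (p.2 : Multiset ℕ) :=
  Pool.MP322F.inT_sound Pool.MP322F.FTa_ok (by decide +kernel)

noncomputable def cj4c_0 : List (List ℕ × List NdJ) := [
  ([5,5,4,3,1], [
    (false,[],[5,5,4,3,1],true,3,5,[4,5,6,8,9,10]),
    (true,[([(0,0,[(4,4)])],[1,1])],[5,4,3],false,3,3,[4]),
    (false,[([(0,0,[(4,4)]),(0,0,[(4,4)])],[1])],[5,3,1],false,3,1,[4]),
    (false,[([(0,0,[(4,4)]),(0,0,[(4,4)])],[1]),([(0,0,[(4,4)])],[2,1,1])],[1],false,1,0,[]),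
    (false,[([(0,1,[(5,5)])],[2,2])],[5,4],false,1,0,[2,3,4,5]),
    (false,[([(0,2,[(5,5)]),(0,3,[(2,2)])],[])],[5,4],false,2,4,[]),
    (false,[([(0,2,[(5,5)]),(0,3,[(3,3)])],[])],[5,4],false,2,3,[3]),
    (true,[([(2,0,[(5,5),(3,3),(3,3)])],[5])],[],false,1,0,[2]),
    (true,[([(2,1,[(5,5),(3,3),(3,3),(2,2)])],[5])],[],false,1,0,[]),
    (false,[([(0,1,[(5,5)]),(0,0,[(4,4)])],[])],[5,4],false,2,2,[3]),
    (false,[([(0,1,[(5,5)]),(0,0,[(4,4)])],[]),([(0,3,[(3,3)])],[2,2,2])],[],false,1,0,[]),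
    (false,[([(0,4,[(5,5),(5,5)])],[3])],[5],false,1,0,[2]),
    (true,[([(2,2,[(5,5),(5,5),(2,2)])],[5])],[],false,1,0,[]),
    (false,[([(0,2,[(6,6)])],[2,1])],[5,4],false,2,4,[3,4,5]),
    (false,[([(0,2,[(6,6)]),(0,3,[(3,3)])],[])],[5,4],false,2,2,[3]),
    (true,[([(2,3,[(6,6),(3,3),(3,3)])],[5])],[],false,1,0,[]),
    (false,[([(0,2,[(6,6)]),(0,0,[(4,4)])],[])],[5,3],false,2,1,[]),
    (false,[([(0,5,[(6,6),(5,5)])],[2])],[5],false,1,0,[]),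
    (true,[([(0,6,[(7,8)])],[1])],[5,4],false,2,3,[3,4]),
    (true,[([(0,6,[(7,8)]),(0,3,[(3,3)])],[])],[4,3],false,2,1,[]),
    (true,[([(0,6,[(7,8)])],[1]),([(0,0,[(4,4)])],[2,2,1])],[],false,1,0,[]),
    (false,[([(0,7,[(9,9)])],[2,1])],[5,1],false,2,1,[]),
    (false,[([(0,4,[(10,10)])],[3])],[5],false,1,0,[])]),
  ([6,5,3,2,2], [
    (false,[],[6,5,3,2,2],false,4,3,[6,10]),
    (true,[([(0,2,[(5,6)])],[1,1])],[5,3,2],false,3,2,[5,6]),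
    (false,[([(0,2,[(5,6)]),(0,1,[(4,5)])],[])],[5,2],false,2,2,[3]),
    (false,[([(0,2,[(5,6)]),(0,1,[(4,5)])],[]),([(0,3,[(3,3)])],[2,1,1])],[],false,1,0,[]),
    (true,[([(0,2,[(5,6)])],[1,1]),([(0,2,[(6,6)])],[3,1])],[],false,1,0,[]),
    (true,[([(0,4,[(7,10)])],[1])],[5,2],true,2,3,[3,4]),
    (true,[([(0,4,[(7,10)])],[1]),([(0,3,[(3,3)])],[2,1,1])],[],false,1,0,[2]),
    (true,[([(0,4,[(7,10)])],[1]),([(0,3,[(3,3)]),(0,3,[(2,2)])],[1])],[],false,1,0,[]),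
    (true,[([(0,4,[(7,10)])],[1]),([(0,0,[(4,4)])],[1,1,1])],[],false,1,0,[])]),
  ([6,5,3,3,1], [
    (false,[],[6,5,3,3,1],false,3,6,[4,5,6,8,10]),
    (true,[([(0,0,[(4,4)])],[1,1])],[5,4,2,1],false,3,3,[4]),
    (true,[([(0,0,[(4,4)]),(0,0,[(4,4)])],[])],[5,2,2,1],false,3,1,[4]),
    (true,[([(0,4,[(4,4),(4,4)])],[2]),([(0,0,[(4,4)])],[1,1])],[],false,1,0,[]),
    (true,[([(0,1,[(5,5)])],[2])],[5,4,2],false,3,2,[5]),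
    (true,[([(0,4,[(5,5),(4,5)])],[2])],[4,2],false,2,2,[3]),
    (true,[([(0,4,[(5,5),(4,5)])],[2]),([(0,3,[(3,3)])],[2,1])],[],false,1,0,[]),
    (true,[([(0,2,[(6,6)])],[1])],[5,4,2],false,3,2,[5]),
    (true,[([(0,5,[(6,6),(4,5)])],[4])],[2,1],false,2,1,[]),
    (true,[([(0,6,[(7,8)])],[2])],[5,2,1],false,3,1,[4]),
    (true,[([(0,6,[(7,8)])],[2]),([(0,0,[(4,4)])],[1,1,1])],[1],false,1,0,[]),
    (true,[([(0,4,[(9,10)])],[2])],[4,2],false,2,1,[])]),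
  ([6,5,3,3,2], [
    (false,[],[6,5,3,3,2],false,3,6,[6,10]),
    (true,[([(0,2,[(4,6)])],[1])],[5,5,2],true,2,6,[3,5,6]),
    (false,[([(0,2,[(4,6)])],[3,1]),([(0,3,[(3,3)])],[2,2,1,1])],[],false,1,0,[2,3]),
    (false,[([(0,2,[(4,6)]),(0,1,[(3,3),(2,2)])],[])],[5,3],false,2,3,[]),
    (true,[([(0,2,[(4,6)])],[1,1]),([(0,2,[(3,3),(3,3)])],[3,2])],[],false,1,0,[3]),
    (false,[([(0,2,[(4,6)])],[3,1]),([(0,3,[(3,3)]),(0,3,[(3,3)]),(0,3,[(2,3)])],[])],[],false,1,0,[2]),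
    (false,[([(0,2,[(4,6)]),(0,1,[(3,3),(2,2)])],[]),([(0,3,[(3,3)]),(0,3,[(2,3)])],[2])],[],false,1,0,[]),
    (false,[([(0,2,[(4,6)]),(0,1,[(4,5)])],[])],[5,3],false,2,3,[3,4]),
    (false,[([(0,2,[(4,6)]),(0,1,[(4,5)])],[]),([(0,3,[(3,3)])],[2,2,1])],[],false,1,0,[2]),
    (false,[([(0,2,[(4,6)]),(0,1,[(4,5)])],[]),([(0,3,[(3,3)]),(0,3,[(2,2)])],[2])],[],false,1,0,[]),
    (false,[([(0,2,[(4,6)]),(0,1,[(4,5)])],[]),([(0,0,[(4,4)])],[2,1,1])],[],false,1,0,[]),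
    (true,[([(0,2,[(4,6)])],[1,1]),([(0,2,[(6,6)])],[3,2])],[],false,1,0,[2]),
    (false,[([(0,2,[(4,6)]),(0,6,[(6,6),(2,2)])],[])],[3,2],false,1,0,[]),
    (true,[([(0,4,[(7,10)])],[2])],[5,2],true,2,3,[3,4]),
    (true,[([(0,4,[(7,10)])],[2]),([(0,3,[(3,3)])],[2,1,1])],[],false,1,0,[2]),
    (true,[([(0,4,[(7,10)])],[2]),([(0,3,[(3,3)]),(0,3,[(2,2)])],[1])],[],false,1,0,[]),
    (true,[([(0,4,[(7,10)])],[2]),([(0,0,[(4,4)])],[1,1,1])],[],false,1,0,[])]),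
  ([6,5,4,4,1], [
    (false,[],[6,5,4,4,1],false,3,6,[4,5,6,8,10]),
    (true,[([(0,0,[(4,4)])],[2,2])],[5,4,2,1],false,3,3,[4]),
    (true,[([(0,0,[(4,4)]),(0,0,[(4,4)])],[])],[5,4,2,1],false,4,1,[]),
    (true,[([(0,1,[(5,5)])],[2])],[5,4,4],false,2,5,[3,4,5]),
    (false,[([(0,2,[(5,5)]),(0,3,[(3,3)])],[2])],[5,4],false,2,3,[3]),
    (false,[([(2,4,[(5,5),(3,3),(3,3)])],[4,4])],[],false,1,0,[2]),
    (true,[([(2,1,[(5,5),(3,3),(3,3),(2,2)])],[3])],[4],false,1,0,[]),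
    (false,[([(0,1,[(5,5)]),(0,0,[(4,4)])],[2])],[5,4],false,2,2,[3]),
    (true,[([(0,4,[(5,5),(3,3)])],[2]),([(0,0,[(4,4)])],[2,2])],[],false,1,0,[]),
    (false,[([(0,4,[(5,5),(5,5)])],[3,3])],[4],false,1,0,[2]),
    (false,[([(2,5,[(5,5),(5,5),(2,2)])],[4,4])],[],false,1,0,[]),
    (false,[([(0,2,[(6,6)])],[2,2])],[6,4],false,2,4,[3,5]),
    (false,[([(0,2,[(6,6)]),(0,3,[(3,3)])],[2])],[5,4],false,2,2,[3]),
    (false,[([(2,6,[(6,6),(3,3),(3,3)])],[4,4])],[],false,1,0,[]),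
    (true,[([(0,5,[(6,6),(4,5)])],[3])],[4,2],false,2,1,[]),
    (true,[([(0,6,[(7,8)])],[2])],[5,4,1],false,3,1,[4]),
    (true,[([(0,6,[(7,8)])],[2]),([(0,0,[(4,4)])],[2,2,1])],[1],false,1,0,[]),
    (true,[([(0,5,[(9,10)])],[3])],[4,2],false,2,1,[])]),
  ([6,5,5,2,1], [
    (false,[],[6,5,5,2,1],true,3,5,[4,5,6,8,10]),
    (true,[([(0,0,[(4,4)])],[2])],[5,4,3,1],false,3,4,[4]),
    (false,[([(0,0,[(4,4)]),(0,0,[(4,4)])],[2])],[6,2,1],false,3,1,[4]),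
    (false,[([(0,4,[(4,4),(4,4)]),(0,0,[(4,4)])],[])],[5],false,1,0,[]),
    (false,[([(0,1,[(5,5)])],[2,1])],[6,5],false,2,5,[3,4,5]),
    (false,[([(0,1,[(5,5)]),(0,3,[(3,3)])],[])],[6,5],false,2,3,[3]),
    (true,[([(2,4,[(5,5),(3,3),(3,3)])],[4])],[3],false,1,0,[2]),
    (false,[([(2,1,[(5,5),(3,3),(3,3),(2,2)])],[3,3])],[],false,1,0,[]),
    (true,[([(0,1,[(5,5)]),(0,0,[(4,4)])],[])],[4,3,3],false,2,2,[3]),
    (false,[([(0,4,[(5,5),(3,3)]),(0,0,[(4,4)])],[])],[5],false,1,0,[]),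
    (false,[([(0,4,[(5,5),(5,5)])],[2,2])],[5],false,1,0,[2]),
    (true,[([(2,5,[(5,5),(5,5),(2,2)])],[4])],[3],false,1,0,[]),
    (false,[([(0,2,[(6,6)])],[1,1])],[6,5],false,2,4,[3,5]),
    (true,[([(0,2,[(6,6)]),(0,3,[(3,3)])],[])],[4,3,3],false,2,2,[3]),
    (true,[([(2,6,[(6,6),(3,3),(3,3)])],[4])],[3],false,1,0,[]),
    (true,[([(0,5,[(6,6),(4,5)])],[])],[5,3],false,2,1,[]),
    (true,[([(0,6,[(7,8)])],[3,1])],[3,3,1],true,2,3,[3,4]),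
    (true,[([(0,5,[(7,8),(3,3)])],[])],[5,3],false,2,1,[]),
    (false,[([(0,6,[(7,8)]),(0,0,[(4,4)])],[])],[6,1],false,1,0,[]),
    (true,[([(0,5,[(9,10)])],[])],[5,3],false,2,1,[])]),
  ([6,5,5,4,1], [
    (false,[],[6,5,5,4,1],false,3,5,[4,5,6,8,10]),
    (true,[([(0,0,[(4,4)])],[2,2])],[5,4,3,1],false,3,4,[4]),
    (true,[([(0,0,[(4,4)]),(0,0,[(4,4)])],[])],[5,4,3,1],false,4,1,[]),
    (false,[([(0,2,[(5,5)])],[2,2])],[6,5],false,2,5,[3,4,5]),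
    (false,[([(0,4,[(5,5),(3,3)])],[3,3])],[5],false,1,0,[2,3]),
    (false,[([(0,4,[(5,5),(3,3),(2,2)])],[3,3])],[5],false,1,0,[2]),
    (false,[([(2,7,[(5,5),(3,3),(2,2),(2,2)])],[4,4])],[],false,1,0,[2]),
    (true,[([(2,8,[(5,5),(3,3),(2,2),(2,2),(2,2)])],[5])],[],false,1,0,[]),
    (false,[([(2,0,[(5,5),(3,3),(3,3)])],[4,4])],[],false,1,0,[2]),
    (false,[([(2,1,[(5,5),(3,3),(3,3),(2,2)])],[4,4])],[],false,1,0,[]),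
    (false,[([(0,2,[(5,5)]),(0,0,[(4,4)])],[])],[6,5],false,2,2,[3]),
    (true,[([(0,4,[(5,5),(3,3)])],[3]),([(0,0,[(4,4)])],[2,2])],[],false,1,0,[]),
    (false,[([(0,4,[(5,5),(5,5)])],[3,3])],[5],false,1,0,[2]),
    (false,[([(2,2,[(5,5),(5,5),(2,2)])],[4,4])],[],false,1,0,[]),
    (false,[([(0,2,[(6,6)])],[2,2])],[6,5],false,2,4,[3,5]),
    (false,[([(0,4,[(6,6),(3,3)])],[3,3])],[5],false,1,0,[2,3]),
    (false,[([(0,6,[(6,6),(2,2)])],[3,3]),([(0,3,[(3,3)])],[1,1,1,1])],[],false,1,0,[2]),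
    (false,[([(2,9,[(6,6),(3,3),(2,2),(2,2)])],[4,4])],[],false,1,0,[]),
    (false,[([(2,3,[(6,6),(3,3),(3,3)])],[4,4])],[],false,1,0,[]),
    (true,[([(0,5,[(6,6),(4,5)])],[3])],[4,3],false,2,1,[]),
    (true,[([(0,6,[(7,8)])],[3])],[5,4,1],false,3,1,[4]),
    (true,[([(0,6,[(7,8)])],[3]),([(0,0,[(4,4)])],[2,2,1])],[1],false,1,0,[]),
    (true,[([(0,5,[(9,10)])],[3])],[4,3],false,2,1,[])]),
  ([6,6,3,2,1], [
    (false,[],[6,6,3,2,1],true,4,3,[5,6,8,9,10]),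
    (true,[([(0,1,[(5,5)])],[3])],[5,3,2],false,3,2,[5]),
    (false,[([(0,1,[(5,5)]),(0,2,[(4,5)])],[])],[6,1],true,2,2,[3]),
    (false,[([(0,1,[(5,5)]),(0,2,[(4,5)])],[]),([(0,3,[(3,3)])],[1,1,1,1])],[],false,1,0,[]),
    (false,[([(0,2,[(6,6)])],[2,1,1])],[6,2],true,2,4,[3,5]),
    (false,[([(0,2,[(6,6)]),(0,3,[(3,3)])],[1])],[6,2],false,2,2,[3]),
    (true,[([(2,10,[(6,6),(3,3),(3,3)])],[6])],[],false,1,0,[]),
    (false,[([(0,2,[(6,6)]),(0,1,[(4,5)])],[])],[6,1],false,2,1,[]),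
    (true,[([(0,6,[(7,8)])],[1])],[5,2,2],false,2,3,[3,4]),
    (true,[([(0,6,[(7,8)]),(0,3,[(3,3)])],[])],[3,2,2],false,2,1,[]),
    (true,[([(0,8,[(7,8)])],[4]),([(0,0,[(4,4)])],[1,1])],[],false,1,0,[]),
    (false,[([(0,7,[(9,9)])],[2,2,2])],[2,1],false,2,1,[]),
    (false,[([(0,4,[(10,10)])],[1,1])],[6],false,1,0,[])]),
  ([6,6,4,2,1], [
    (false,[],[6,6,4,2,1],true,4,4,[6,8,10]),
    (true,[([(0,2,[(5,6)])],[3])],[5,3,2],false,3,2,[6]),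
    (false,[([(0,2,[(5,6)]),(0,2,[(4,6)])],[])],[6,1],true,2,2,[3]),
    (false,[([(0,2,[(5,6)]),(0,2,[(4,6)])],[]),([(0,3,[(3,3)])],[1,1,1,1])],[],false,1,0,[]),
    (true,[([(0,6,[(7,8)])],[])],[5,4,2],false,3,2,[4]),
    (true,[([(0,8,[(7,8)])],[4]),([(0,0,[(4,4)])],[2,1])],[],false,1,0,[]),
    (true,[([(0,4,[(9,10)])],[4])],[3,2],false,2,1,[])]),
  ([6,6,5,2,1], [
    (false,[],[6,6,5,2,1],true,3,5,[4,5,6,8,9,10]),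
    (true,[([(0,0,[(4,4)])],[2])],[5,4,3,2],false,4,2,[]),
    (false,[([(0,1,[(5,5)])],[2,1,1])],[6,5],false,2,5,[3,4,5]),
    (false,[([(0,1,[(5,5)]),(0,3,[(3,3)])],[1])],[6,5],false,2,3,[3]),
    (true,[([(2,4,[(5,5),(3,3),(3,3)])],[5])],[3],false,1,0,[2]),
    (false,[([(2,11,[(5,5),(3,3),(3,3),(2,2)])],[3,3])],[],false,1,0,[]),
    (false,[([(0,2,[(5,5)]),(0,0,[(4,4)])],[2])],[6,2],false,2,2,[3]),
    (false,[([(0,4,[(5,5),(3,3)]),(0,0,[(4,4)])],[])],[6],false,1,0,[]),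
    (false,[([(0,4,[(5,5),(5,5)])],[2,2])],[6],false,1,0,[2]),
    (true,[([(2,5,[(5,5),(5,5),(2,2)])],[5])],[3],false,1,0,[]),
    (false,[([(0,2,[(6,6)])],[1,1,1])],[6,5],false,2,4,[3,5]),
    (false,[([(0,4,[(6,6),(3,3)])],[2,2])],[6],false,1,0,[3]),
    (false,[([(0,2,[(6,6)])],[2,2,2]),([(0,3,[(3,3)]),(0,3,[(2,3)])],[1,1])],[],false,1,0,[2]),
    (true,[([(0,6,[(6,6),(2,2)])],[]),([(0,2,[(3,3),(2,3)])],[3,3])],[],false,1,0,[]),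
    (true,[([(0,2,[(6,6)])],[3]),([(0,1,[(4,5)])],[3,3])],[],false,1,0,[2]),
    (true,[([(0,6,[(6,6),(2,2)])],[1]),([(0,1,[(4,5)])],[3,3])],[],false,1,0,[]),
    (true,[([(0,6,[(7,8)])],[])],[5,4,3],false,3,3,[4]),
    (false,[([(0,6,[(7,8)]),(0,0,[(4,4)])],[1])],[6,1],false,1,0,[]),
    (false,[([(0,7,[(9,9)])],[3,3,2])],[2,1],false,2,1,[]),
    (false,[([(0,4,[(10,10)])],[2,2])],[6],false,1,0,[])]),
  ([6,6,5,4,3], [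
    (false,[],[6,6,5,4,3],false,4,3,[5,6,8,9,10]),
    (false,[([(0,1,[(5,5)])],[3,3,2])],[6,5],false,2,5,[3,4,5]),
    (false,[([(0,4,[(5,5),(3,3)])],[4,4])],[6],false,1,0,[2,3]),
    (false,[([(0,4,[(5,5),(3,3),(2,2)])],[4,4])],[6],false,1,0,[2]),
    (false,[([(2,12,[(5,5),(3,3),(2,2),(2,2)])],[5,5])],[],false,1,0,[2]),
    (false,[([(2,13,[(5,5),(3,3),(2,2),(2,2),(2,2)])],[5,5])],[],false,1,0,[]),
    (false,[([(2,14,[(5,5),(3,3),(3,3)])],[5,5])],[],false,1,0,[2]),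
    (false,[([(2,11,[(5,5),(3,3),(3,3),(2,2)])],[5,5])],[],false,1,0,[]),
    (false,[([(0,4,[(5,5),(4,4)])],[4,4])],[6],false,1,0,[3]),
    (false,[([(0,1,[(5,5)])],[3,3,2]),([(0,0,[(4,4)]),(0,3,[(2,3)])],[2,2])],[],false,1,0,[2]),
    (true,[([(0,4,[(5,5),(2,3),(2,2)])],[4]),([(0,0,[(4,4)])],[2,2,2])],[],false,1,0,[]),
    (false,[([(0,4,[(5,5),(5,5)])],[4,4])],[6],false,1,0,[2]),
    (false,[([(2,15,[(5,5),(5,5),(2,2)])],[5,5])],[],false,1,0,[]),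
    (false,[([(0,2,[(6,6)])],[3,3,1])],[6,5],false,2,4,[3,4,5]),
    (false,[([(0,4,[(6,6),(3,3)])],[4,4])],[6],false,1,0,[3]),
    (false,[([(0,2,[(6,6)])],[3,3,2]),([(0,3,[(3,3)]),(0,3,[(2,3)])],[2,2])],[],false,1,0,[2]),
    (false,[([(0,6,[(6,6),(2,2)]),(0,2,[(3,3),(2,3)])],[])],[6,4],false,1,0,[]),
    (false,[([(0,4,[(6,6),(4,4)])],[4,4])],[6],false,1,0,[2]),
    (false,[([(0,6,[(6,6),(2,2)]),(0,0,[(4,4)])],[3])],[5,4],false,1,0,[]),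
    (false,[([(2,16,[(6,6),(5,5)])],[5,5])],[],false,1,0,[]),
    (true,[([(0,6,[(7,8)])],[2,2])],[5,4,3],false,3,3,[4]),
    (false,[([(0,6,[(7,8)]),(0,0,[(4,4)])],[3])],[5,4],false,1,0,[]),
    (false,[([(0,7,[(9,9)])],[2,1,1])],[6,5],false,2,1,[]),
    (false,[([(0,4,[(10,10)])],[4,4])],[6],false,1,0,[])]),
  ([7,3,3,2,2,1], [
    (false,[],[7,3,3,2,2,1],true,4,3,[6,8,10]),
    (false,[([(0,2,[(5,6)])],[])],[7,3,2],false,3,2,[5,6]),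
    (false,[([(0,2,[(5,6)]),(0,1,[(4,5)])],[1])],[3,2,1],false,3,1,[]),
    (false,[([(0,2,[(5,6)])],[]),([(0,2,[(6,6)])],[3,1,1,1])],[],false,1,0,[]),
    (false,[([(0,6,[(7,8)])],[])],[7,2,1],false,3,1,[4]),
    (false,[([(0,8,[(7,8)])],[3,1,1]),([(0,0,[(4,4)])],[1])],[],false,1,0,[]),
    (true,[([(0,9,[(9,10)])],[2])],[5,1],false,2,1,[])]),
  ([7,4,4,2,1], [
    (false,[],[7,4,4,2,1],true,4,3,[6,8,10]),
    (true,[([(0,2,[(5,6)])],[2])],[5,3,1,1],false,3,2,[6]),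
    (false,[([(0,2,[(5,6)]),(0,2,[(4,6)])],[1])],[4,1],true,2,2,[3]),
    (false,[([(0,2,[(5,6)]),(0,2,[(4,6)])],[1]),([(0,3,[(3,3)])],[1,1])],[],false,1,0,[]),
    (true,[([(0,8,[(7,8)])],[2])],[4,3,1],false,3,1,[4]),
    (true,[([(0,8,[(7,8)])],[2]),([(0,0,[(4,4)])],[2,1])],[1],false,1,0,[]),
    (true,[([(0,4,[(9,10)])],[3])],[3,1,1],false,2,1,[])]),
  ([7,5,4,2], [
    (false,[],[7,5,4,2],false,3,5,[5,6,10]),
    (true,[([(0,1,[(4,5)])],[1])],[4,3,3,2],false,2,6,[3,5]),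
    (true,[([(0,8,[(4,5),(3,3)])],[])],[4,3,3],false,2,4,[3]),
    (true,[([(0,1,[(4,5)])],[]),([(0,3,[(3,3)]),(0,3,[(3,3)])],[])],[4,3],false,2,2,[3]),
    (true,[([(0,2,[(4,5)])],[2]),([(1,0,[(3,3),(3,3),(3,3)])],[])],[],false,1,0,[]),
    (true,[([(0,4,[(4,5),(4,5)])],[])],[4,3,1],false,3,1,[4]),
    (true,[([(0,4,[(4,5),(4,5)])],[]),([(0,0,[(4,4)])],[2,1])],[1],false,1,0,[]),
    (true,[([(0,2,[(6,6)])],[2])],[4,3,2,1],false,4,1,[5]),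
    (false,[([(0,5,[(6,6),(5,5)])],[4,2,1])],[],false,1,0,[]),
    (true,[([(0,4,[(7,10)])],[])],[4,3,1],false,3,1,[4]),
    (true,[([(0,4,[(7,10)])],[]),([(0,0,[(4,4)])],[2,1])],[1],false,1,0,[])]),
  ([7,5,4,3], [
    (false,[],[7,5,4,3],false,4,3,[5,6,8,10]),
    (true,[([(0,1,[(5,5)])],[1])],[4,4,3,2],false,3,2,[5]),
    (true,[([(0,4,[(5,5),(4,5)])],[])],[4,4,1],true,2,2,[3]),
    (true,[([(0,4,[(5,5),(4,5)])],[]),([(0,3,[(3,3)])],[1,1])],[4],false,1,0,[]),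
    (true,[([(0,2,[(6,6)])],[1])],[4,4,3,1],true,3,2,[5]),
    (false,[([(0,2,[(6,6)]),(0,1,[(4,5)])],[3])],[5],false,1,0,[2]),
    (false,[([(0,6,[(6,6),(2,2)]),(0,1,[(4,5)])],[1])],[5],false,1,0,[]),
    (true,[([(0,6,[(7,8)])],[2])],[4,3,1,1],false,3,2,[4]),
    (true,[([(0,8,[(7,8)])],[]),([(0,0,[(4,4)])],[2,1])],[4],false,1,0,[]),
    (true,[([(0,4,[(9,10)])],[])],[4,4,1],false,2,1,[])]),
  ([7,6,3,2], [
    (false,[],[7,6,3,2],false,3,5,[4,5,6,10]),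
    (true,[([(0,0,[(4,4)])],[])],[4,4,3,2,1],true,4,2,[]),
    (true,[([(0,1,[(5,5)])],[3])],[4,3,2,1],false,4,1,[5]),
    (true,[([(0,4,[(5,5),(5,5)])],[])],[4,2,2],false,2,1,[]),
    (true,[([(0,2,[(6,6)])],[1])],[4,3,2,2],false,3,3,[5]),
    (false,[([(0,2,[(6,6)]),(0,1,[(4,5)])],[])],[7],false,1,0,[2]),
    (true,[([(0,6,[(6,6),(2,2)])],[1]),([(0,1,[(4,5)])],[2])],[2],false,1,0,[]),
    (true,[([(0,4,[(7,10)])],[])],[4,2,2],false,2,3,[3,4]),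
    (true,[([(0,4,[(7,10)])],[]),([(0,3,[(3,3)])],[2,1])],[2],false,1,0,[2]),
    (true,[([(0,4,[(7,10)])],[]),([(0,1,[(3,3),(2,2)])],[3])],[],false,1,0,[]),
    (false,[([(0,4,[(7,10)]),(0,0,[(4,4)])],[4])],[],false,1,0,[])]),
  ([7,6,4,1], [
    (false,[],[7,6,4,1],false,3,5,[4,5,6,8,10]),
    (true,[([(0,0,[(4,4)])],[1])],[4,3,3,2,1],false,3,3,[4]),
    (true,[([(0,0,[(4,4)])],[]),([(0,0,[(4,4)])],[2])],[4,3,1],false,3,1,[4]),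
    (true,[([(0,4,[(4,4),(4,4)])],[]),([(0,0,[(4,4)])],[1])],[3],false,1,0,[]),
    (true,[([(0,2,[(5,5)])],[])],[4,3,3,2],false,3,2,[5]),
    (true,[([(0,4,[(5,5),(4,5)])],[])],[3,3,2],false,2,2,[3]),
    (true,[([(0,4,[(5,5),(4,5)])],[]),([(0,3,[(3,3)])],[2])],[3],false,1,0,[]),
    (true,[([(0,2,[(6,6)])],[])],[4,3,3,2],false,3,2,[5]),
    (true,[([(0,5,[(6,6),(4,5)])],[])],[3,2,2],false,2,1,[]),
    (true,[([(0,6,[(7,8)])],[])],[4,3,2,1],false,4,1,[]),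
    (true,[([(0,4,[(9,10)])],[])],[3,3,2],false,2,1,[])]),
  ([7,6,5,2], [
    (false,[],[7,6,5,2],false,3,6,[4,5,6,8,10]),
    (true,[([(0,0,[(4,4)])],[2])],[4,4,3,2,1],true,4,2,[]),
    (true,[([(0,2,[(5,5)])],[2])],[4,3,3,2],false,3,2,[5]),
    (true,[([(0,4,[(5,5),(4,5)])],[])],[4,3,3],false,2,2,[3]),
    (true,[([(0,4,[(5,5),(4,5)])],[]),([(0,3,[(3,3)])],[2,2])],[3],false,1,0,[]),
    (true,[([(0,2,[(6,6)])],[2])],[4,3,3,2],false,3,2,[5]),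
    (true,[([(0,5,[(6,6),(4,5)])],[])],[4,3,2],false,2,1,[]),
    (true,[([(0,6,[(7,8)])],[])],[4,4,3,1],false,3,1,[4]),
    (false,[([(0,6,[(7,8)]),(0,0,[(4,4)])],[1])],[7],false,1,0,[]),
    (true,[([(0,4,[(9,10)])],[])],[4,3,3],false,2,1,[])]),
  ([7,6,5,3], [
    (false,[],[7,6,5,3],false,4,3,[5,6,8,10]),
    (true,[([(0,2,[(5,5)])],[2])],[4,4,3,2],false,3,2,[5]),
    (true,[([(0,4,[(5,5),(4,5)])],[])],[4,4,3],false,2,2,[3]),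
    (true,[([(0,4,[(5,5),(4,5)])],[]),([(0,3,[(3,3)])],[2,2])],[4],false,1,0,[]),
    (true,[([(0,2,[(6,6)])],[2])],[4,4,3,2],false,3,2,[5]),
    (true,[([(0,5,[(6,6),(4,5)])],[])],[4,4,2],false,2,1,[]),
    (true,[([(0,6,[(7,8)])],[3])],[4,3,2,1],false,4,1,[]),
    (true,[([(0,4,[(9,10)])],[])],[4,4,3],false,2,1,[])]),
  ([7,6,5,4], [
    (false,[],[7,6,5,4],false,4,4,[5,6,8,9,10]),
    (true,[([(0,2,[(5,5)])],[2])],[4,4,4,2],true,2,5,[3,4,5]),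
    (false,[([(0,4,[(5,5),(3,3)])],[4,4,4])],[],false,1,0,[2,3]),
    (false,[([(0,4,[(5,5),(3,3),(2,2)])],[4,4,4])],[],false,1,0,[2]),
    (true,[([(2,12,[(5,5),(3,3),(2,2),(2,2)])],[])],[4,4],false,1,0,[2]),
    (true,[([(2,13,[(5,5),(3,3),(2,2),(2,2),(2,2)])],[])],[4,4],false,1,0,[]),
    (true,[([(2,14,[(5,5),(3,3),(3,3)])],[])],[4,4],false,1,0,[2]),
    (true,[([(2,11,[(5,5),(3,3),(3,3),(2,2)])],[])],[4,4],false,1,0,[]),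
    (true,[([(0,1,[(5,5)])],[2]),([(0,0,[(4,4)])],[2,2])],[4,3],false,2,2,[3]),
    (true,[([(0,4,[(5,5),(3,3)])],[]),([(0,0,[(4,4)])],[2,2])],[4],false,1,0,[]),
    (false,[([(0,4,[(5,5),(5,5)])],[4,4,4])],[],false,1,0,[2]),
    (true,[([(2,15,[(5,5),(5,5),(2,2)])],[])],[4,4],false,1,0,[]),
    (true,[([(0,2,[(6,6)])],[2])],[4,4,4,2],true,2,4,[3,4,5]),
    (false,[([(0,4,[(6,6),(3,3)])],[4,4,4])],[],false,1,0,[3]),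
    (true,[([(0,2,[(6,6)])],[2]),([(0,3,[(3,3)]),(0,3,[(2,3)])],[])],[4,4],false,1,0,[2]),
    (false,[([(0,6,[(6,6),(2,2)]),(0,2,[(3,3),(2,3)])],[3])],[5],false,1,0,[]),
    (true,[([(0,2,[(6,6)])],[1]),([(0,0,[(4,4)])],[2,2])],[4,3],false,2,1,[]),
    (true,[([(2,16,[(6,6),(5,5)])],[])],[4,4],false,1,0,[]),
    (true,[([(0,6,[(7,8)])],[2])],[4,4,3,1],false,3,1,[4]),
    (true,[([(0,6,[(7,8)])],[1]),([(0,0,[(4,4)])],[2,2])],[4,1],false,1,0,[]),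
    (true,[([(0,7,[(9,9)])],[2])],[4,4,2,1],false,2,1,[]),
    (false,[([(0,4,[(10,10)])],[4,4,4])],[],false,1,0,[])]),
  ([8,3,2,2,2,1], [
    (false,[],[8,3,2,2,2,1],false,3,4,[5,7,10]),
    (false,[([(0,2,[(4,5)])],[])],[8,2,2],true,2,6,[3,5]),
    (true,[([(0,8,[(4,5),(3,3)])],[1])],[6,1,1,1],true,2,4,[3]),
    (false,[([(0,1,[(4,5)]),(0,2,[(3,3),(3,3)])],[1,1])],[2,2,1],true,2,2,[3]),
    (false,[([(0,1,[(4,5)]),(0,2,[(3,3),(3,3)])],[1,1]),([(0,3,[(3,3)])],[])],[2],false,1,0,[]),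
    (false,[([(0,1,[(4,5)]),(0,1,[(4,5)])],[1,1])],[3,2,1],false,3,1,[4]),
    (true,[([(0,4,[(4,5),(4,5)]),(0,0,[(4,4)])],[])],[1,1,1,1],false,1,0,[]),
    (true,[([(0,10,[(6,7)])],[1])],[6,2,1,1],false,3,2,[5]),
    (false,[([(0,10,[(6,7)]),(0,1,[(4,5)])],[1])],[3,2],false,2,1,[]),
    (true,[([(0,9,[(8,10)])],[])],[6,1,1],false,2,2,[3]),
    (true,[([(0,9,[(8,10)])],[]),([(0,3,[(3,3)])],[1,1,1,1])],[1],false,1,0,[])]),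
  ([8,3,3,2,1,1], [
    (false,[],[8,3,3,2,1,1],true,4,3,[6,8,10]),
    (false,[([(0,2,[(5,6)])],[])],[8,3,1],true,3,3,[5,6]),
    (false,[([(0,2,[(5,6)]),(0,1,[(4,5)])],[1,1])],[3,1,1],false,2,2,[3]),
    (false,[([(0,2,[(5,6)]),(0,1,[(4,5)])],[1,1]),([(0,3,[(3,3)])],[1])],[1],false,1,0,[]),
    (false,[([(0,11,[(5,6),(6,6)])],[1,1,1])],[3],false,1,0,[]),
    (true,[([(0,8,[(7,8)])],[2,1])],[4,1,1,1],false,2,3,[3,4]),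
    (false,[([(0,5,[(7,8),(3,3)])],[1,1,1,1])],[2,1],false,2,1,[]),
    (false,[([(0,11,[(7,8),(4,4)])],[1,1,1])],[3],false,1,0,[]),
    (true,[([(0,9,[(9,10)])],[2])],[4,1,1],false,2,1,[])]),
  ([8,5,4,1], [
    (false,[],[8,5,4,1],false,3,5,[6,10]),
    (true,[([(0,2,[(4,6)])],[])],[4,3,3,1,1],false,2,6,[3,4,6]),
    (true,[([(0,2,[(4,6)])],[]),([(0,3,[(3,3)])],[1])],[4,3,1],false,2,4,[3]),
    (true,[([(0,2,[(4,6)])],[]),([(0,2,[(3,3),(3,3)])],[2])],[3,1],true,2,2,[3]),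
    (true,[([(0,2,[(4,6)])],[]),([(0,2,[(3,3),(3,3)])],[2]),([(0,3,[(3,3)])],[1])],[],false,1,0,[]),
    (true,[([(0,4,[(4,6),(4,4)])],[])],[3,3,1,1],true,2,3,[3,4]),
    (true,[([(0,4,[(4,6),(4,4)])],[]),([(0,3,[(3,3)])],[1])],[3,1],false,2,1,[]),
    (true,[([(0,4,[(4,6),(4,4)])],[]),([(0,0,[(4,4)])],[2])],[1,1],false,1,0,[]),
    (true,[([(0,2,[(4,6)])],[]),([(0,2,[(5,6)])],[2])],[3,1],true,2,2,[3]),
    (true,[([(0,2,[(4,6)])],[]),([(0,2,[(5,6)])],[2]),([(0,3,[(3,3)])],[1])],[],false,1,0,[]),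
    (true,[([(0,4,[(7,10)])],[])],[3,3,1,1],true,2,3,[3,4]),
    (true,[([(0,4,[(7,10)])],[]),([(0,3,[(3,3)])],[1])],[3,1],false,2,1,[]),
    (true,[([(0,4,[(7,10)])],[]),([(0,0,[(4,4)])],[2])],[1,1],false,1,0,[])]),
  ([8,6,2,1,1], [
    (false,[],[8,6,2,1,1],false,3,4,[5,7,10]),
    (true,[([(0,2,[(4,5)])],[])],[5,2,2,2,1],true,3,3,[4,5]),
    (true,[([(0,1,[(4,5)])],[2,1]),([(0,0,[(4,4)])],[])],[3,2,1],false,3,1,[4]),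
    (false,[([(0,4,[(4,5),(4,4)]),(0,0,[(4,4)])],[2,1])],[1],false,1,0,[]),
    (true,[([(0,4,[(4,5),(5,5)])],[1])],[2,2,2,1],true,2,2,[3]),
    (false,[([(0,4,[(4,5),(5,5)]),(0,3,[(3,3)])],[2,2])],[1],false,1,0,[]),
    (true,[([(0,10,[(6,7)])],[3])],[3,2,2,1],false,2,4,[3,4,5]),
    (true,[([(0,4,[(6,7),(3,3)])],[1])],[2,2,2,1],true,2,2,[3]),
    (false,[([(0,4,[(6,7),(3,3)]),(0,3,[(3,3)])],[2,2])],[1],false,1,0,[]),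
    (true,[([(0,10,[(6,7)])],[2]),([(0,0,[(4,4)])],[])],[3,2],false,2,1,[]),
    (false,[([(0,11,[(6,7),(5,5)])],[2,2,2])],[],false,1,0,[]),
    (true,[([(0,4,[(8,10)])],[1])],[2,2,2,1],true,2,2,[3]),
    (false,[([(0,4,[(8,10)]),(0,3,[(3,3)])],[2,2])],[1],false,1,0,[])])]

theorem cj4c_0_ok : runAllJ S37 R37 F37 9 cj4c_0 = true := by decide +kernel

noncomputable def cj4c_1 : List (List ℕ × List NdJ) := [
  ([8,7,2,1], [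
    (false,[],[8,7,2,1],false,2,9,[3,4,5,6,7,8,9,10]),
    (true,[([(0,3,[(3,3)])],[])],[4,3,2,2,2,2],false,3,3,[]),
    (true,[([(0,0,[(4,4)])],[])],[4,3,2,2,2,1],false,3,4,[4]),
    (true,[([(0,0,[(4,4)])],[]),([(0,0,[(4,4)])],[])],[4,3,2,1],false,4,1,[]),
    (true,[([(0,1,[(5,5)])],[3])],[3,2,2,2,1],true,2,5,[3,4,5]),
    (true,[([(0,1,[(5,5)])],[3]),([(0,3,[(3,3)])],[])],[3,2,2],false,2,3,[3]),
    (true,[([(2,4,[(5,5),(3,3),(3,3)])],[])],[2,2,2],false,1,0,[2]),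
    (true,[([(2,17,[(5,5),(3,3),(3,3),(2,2)])],[])],[2,2],false,1,0,[]),
    (true,[([(0,1,[(5,5)])],[3]),([(0,0,[(4,4)])],[])],[3,2,1],false,3,1,[]),
    (false,[([(0,4,[(5,5),(5,5)])],[2,2,2,2])],[],false,1,0,[2]),
    (true,[([(2,5,[(5,5),(5,5),(2,2)])],[])],[2,2,2],false,1,0,[]),
    (true,[([(0,2,[(6,6)])],[])],[4,2,2,2,2],false,2,4,[3,4,5]),
    (false,[([(0,4,[(6,6),(3,3)])],[2,2,2,2])],[],false,1,0,[2,3]),
    (false,[([(0,6,[(6,6),(2,2)]),(0,3,[(3,3)])],[2,2,2])],[1],false,1,0,[2]),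
    (true,[([(2,18,[(6,6),(3,3),(2,2),(2,2)])],[])],[2,2],false,1,0,[]),
    (true,[([(2,6,[(6,6),(3,3),(3,3)])],[])],[2,2,2],false,1,0,[]),
    (true,[([(0,2,[(6,6)])],[]),([(0,0,[(4,4)])],[])],[4,2,2],false,2,1,[]),
    (true,[([(2,19,[(6,6),(5,5)])],[])],[2,2,2],false,1,0,[]),
    (true,[([(0,6,[(7,7)])],[1])],[2,2,2,2,1],true,2,3,[3,4]),
    (false,[([(0,4,[(7,7),(3,3)])],[2,2,2,2])],[],false,1,0,[2]),
    (true,[([(2,20,[(7,7),(3,3),(2,2)])],[])],[2,2,2],false,1,0,[]),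
    (false,[([(0,6,[(7,7)]),(0,0,[(4,4)])],[2,2,1])],[1],false,1,0,[]),
    (true,[([(0,6,[(8,8)])],[1])],[2,2,2,2,1],true,2,2,[3]),
    (false,[([(0,6,[(8,8)]),(0,3,[(3,3)])],[2,2,2])],[1],false,1,0,[]),
    (false,[([(0,4,[(9,9)])],[2,2,2,2])],[],false,1,0,[2]),
    (true,[([(2,21,[(9,9),(2,2)])],[])],[2,2,2],false,1,0,[]),
    (false,[([(0,4,[(10,10)])],[2,2,2,2])],[],false,1,0,[])]),
  ([8,7,6,1], [
    (false,[],[8,7,6,1],false,3,7,[4,5,6,8,10]),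
    (true,[([(0,0,[(4,4)])],[2])],[4,3,3,3,2,1],false,3,3,[4]),
    (true,[([(0,0,[(4,4)])],[2]),([(0,0,[(4,4)])],[2])],[4,3,2,1],false,4,1,[]),
    (true,[([(0,2,[(5,5)])],[3])],[3,3,3,3,1],true,2,5,[3,4,5]),
    (false,[([(0,4,[(5,5),(3,3)])],[3,3,3,3])],[],false,1,0,[2,3]),
    (false,[([(0,4,[(5,5),(3,3),(2,2)])],[3,3,3,3])],[],false,1,0,[2]),
    (true,[([(2,7,[(5,5),(3,3),(2,2),(2,2)])],[])],[3,3,3],false,1,0,[2]),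
    (true,[([(2,8,[(5,5),(3,3),(2,2),(2,2),(2,2)])],[])],[3,3],false,1,0,[]),
    (true,[([(2,0,[(5,5),(3,3),(3,3)])],[])],[3,3,3],false,1,0,[2]),
    (true,[([(2,1,[(5,5),(3,3),(3,3),(2,2)])],[])],[3,3,3],false,1,0,[]),
    (true,[([(0,2,[(5,5)])],[]),([(0,0,[(4,4)])],[2])],[4,3,3],false,2,2,[3]),
    (true,[([(0,4,[(5,5),(3,3)])],[]),([(0,0,[(4,4)])],[2])],[3,3],false,1,0,[]),
    (false,[([(0,4,[(5,5),(5,5)])],[3,3,3,3])],[],false,1,0,[2]),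
    (true,[([(2,2,[(5,5),(5,5),(2,2)])],[])],[3,3,3],false,1,0,[]),
    (true,[([(0,2,[(6,6)])],[])],[4,3,3,3,3],false,2,4,[3,5]),
    (false,[([(0,4,[(6,6),(3,3)])],[3,3,3,3])],[],false,1,0,[2,3]),
    (true,[([(0,6,[(6,6),(2,2)])],[]),([(0,3,[(3,3)])],[1])],[4,3,3],false,2,1,[]),
    (true,[([(2,3,[(6,6),(3,3),(3,3)])],[])],[3,3,3],false,1,0,[]),
    (true,[([(0,5,[(6,6),(4,5)])],[])],[3,3,3,2],false,2,1,[]),
    (true,[([(0,6,[(7,8)])],[])],[4,3,3,3,1],false,3,1,[4]),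
    (true,[([(0,6,[(7,8)])],[]),([(0,0,[(4,4)])],[2])],[4,3,1],false,1,0,[]),
    (true,[([(0,5,[(9,10)])],[])],[3,3,3,2],false,2,1,[])]),
  ([9,3,2,1,1,1,1], [
    (false,[],[9,3,2,1,1,1,1],false,3,4,[4,6,8,10]),
    (true,[([(0,0,[(4,4)])],[1])],[7,1,1,1,1,1,1],false,2,6,[3,4]),
    (true,[([(0,10,[(4,4),(3,3)])],[1,1,1])],[3,2,1,1,1],false,3,2,[]),
    (true,[([(0,8,[(4,4),(4,4)])],[1,1,1])],[3,1,1,1,1],false,2,3,[3,4]),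
    (false,[([(0,8,[(4,4),(4,4)]),(0,3,[(3,3)])],[1,1,1])],[2,1,1],false,2,1,[]),
    (false,[([(0,8,[(4,4),(4,4)]),(0,1,[(4,4)])],[1,1])],[1,1,1],false,1,0,[]),
    (true,[([(0,2,[(5,6)])],[])],[7,1,1,1,1,1],false,2,5,[3,4,5,6]),
    (false,[([(0,4,[(5,6),(3,3)])],[1,1,1,1,1])],[1,1,1],false,1,0,[2,3]),
    (false,[([(0,8,[(5,6),(2,2)]),(0,3,[(3,3)])],[1,1,1])],[2,1,1],false,2,2,[]),
    (false,[([(0,11,[(5,6),(3,3),(3,3)])],[1,1,1,1])],[1,1],false,1,0,[2]),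
    (false,[([(0,8,[(5,6),(2,2)]),(0,3,[(3,3)])],[1,1,1]),([(0,3,[(3,3)])],[])],[1],false,1,0,[]),
    (false,[([(0,9,[(5,6),(4,4)])],[1,1,1,1])],[3,1],true,2,2,[3]),
    (false,[([(0,9,[(5,6),(4,4)]),(0,3,[(3,3)])],[1,1])],[2,1],false,1,0,[]),
    (false,[([(0,11,[(5,6),(5,5)])],[1,1,1,1])],[1,1],false,1,0,[2]),
    (false,[([(0,8,[(5,6),(2,2)]),(0,1,[(5,5)])],[1,1])],[1,1,1],false,1,0,[]),
    (false,[([(0,12,[(5,6),(6,6)])],[1,1,1])],[3],false,1,0,[]),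
    (true,[([(0,8,[(7,8)])],[1,1,1])],[3,1,1,1,1],false,2,3,[3,4]),
    (false,[([(0,8,[(7,8)]),(0,3,[(3,3)])],[1,1,1])],[2,1,1],false,2,1,[]),
    (false,[([(0,12,[(7,8),(4,4)])],[1,1,1])],[3],false,1,0,[]),
    (false,[([(0,9,[(9,10)])],[1,1,1,1])],[3,1],false,2,1,[])]),
  ([9,3,3,2,1], [
    (false,[],[9,3,3,2,1],true,4,3,[6,8,9,10]),
    (false,[([(0,2,[(5,6)])],[])],[9,3],true,2,5,[3,5,6]),
    (true,[([(0,2,[(5,6)]),(0,3,[(3,3)])],[])],[4,1,1,1,1,1],false,2,3,[3]),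
    (false,[([(0,2,[(5,6)]),(0,3,[(3,3)])],[1,1,1,1]),([(0,3,[(3,3)])],[2])],[],false,1,0,[2]),
    (false,[([(0,2,[(5,6)]),(0,1,[(3,3),(2,2)])],[1,1,1]),([(0,3,[(3,3)])],[1])],[],false,1,0,[]),
    (false,[([(0,2,[(5,6)]),(0,1,[(4,5)])],[1,1,1])],[3,1],true,2,2,[3]),
    (false,[([(0,2,[(5,6)]),(0,1,[(4,5)])],[1,1,1]),([(0,3,[(3,3)])],[1])],[],false,1,0,[]),
    (false,[([(0,2,[(5,6)]),(0,10,[(6,6)])],[1,1])],[3],false,1,0,[]),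
    (true,[([(0,8,[(7,8)])],[2])],[4,1,1,1,1],false,2,3,[3,4]),
    (false,[([(0,5,[(7,8),(3,3)])],[1,1,1,1,1])],[2],false,1,0,[2]),
    (false,[([(0,8,[(7,8)]),(0,1,[(3,3),(2,2)])],[1,1])],[3],false,1,0,[]),
    (false,[([(0,8,[(7,8)]),(0,1,[(4,4)])],[1,1])],[3],false,1,0,[]),
    (true,[([(0,13,[(9,9)])],[])],[4,3,1,1],false,2,1,[]),
    (false,[([(0,4,[(10,10)])],[1,1,1,1,1])],[3],false,1,0,[])]),
  ([9,4,3,2], [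
    (false,[],[9,4,3,2],false,3,4,[5,8,10]),
    (true,[([(0,1,[(4,5)])],[1])],[4,3,2,1,1,1],false,4,2,[5]),
    (true,[([(0,1,[(4,5)])],[]),([(0,1,[(5,5)])],[1])],[4,2,1],false,3,1,[]),
    (true,[([(0,8,[(6,8)])],[])],[4,3,1,1,1],false,3,3,[5]),
    (true,[([(0,8,[(6,8)])],[]),([(0,1,[(4,5)])],[])],[4,1],false,2,1,[]),
    (true,[([(0,4,[(9,10)])],[])],[4,1,1,1,1],false,2,1,[])]),
  ([9,5,2,1,1], [
    (false,[],[9,5,2,1,1],true,4,3,[6,10]),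
    (true,[([(0,2,[(5,6)])],[])],[5,2,2,1,1,1],false,3,3,[6]),
    (true,[([(0,2,[(5,6)])],[]),([(0,2,[(4,6)])],[1,1])],[2,1,1],false,2,2,[3]),
    (false,[([(0,2,[(5,6)]),(0,2,[(4,6)]),(0,3,[(3,3)])],[1])],[1,1],false,1,0,[]),
    (true,[([(0,4,[(7,10)])],[1])],[2,2,1,1,1],false,2,3,[3,4]),
    (true,[([(0,4,[(7,10)])],[1]),([(0,3,[(3,3)])],[])],[2,1,1],false,2,1,[]),
    (false,[([(0,4,[(7,10)]),(0,0,[(4,4)])],[1,1,1])],[1],false,1,0,[])]),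
  ([9,6,2,1], [
    (false,[],[9,6,2,1],true,4,3,[6,10]),
    (true,[([(0,2,[(5,6)])],[])],[4,2,2,2,1,1],false,3,2,[6]),
    (true,[([(0,2,[(5,6)])],[]),([(0,2,[(4,6)])],[1])],[2,2,1],true,2,2,[3]),
    (false,[([(0,2,[(5,6)]),(0,2,[(4,6)]),(0,3,[(3,3)])],[2])],[1],false,1,0,[]),
    (true,[([(0,4,[(7,10)])],[])],[2,2,2,1,1],true,2,3,[3,4]),
    (true,[([(0,4,[(7,10)])],[]),([(0,3,[(3,3)])],[])],[2,2,1],false,2,1,[]),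
    (false,[([(0,4,[(7,10)]),(0,0,[(4,4)])],[2,1,1])],[],false,1,0,[])]),
  ([10,4,3,1], [
    (false,[],[10,4,3,1],true,3,6,[6,10]),
    (true,[([(0,2,[(4,6)])],[])],[4,3,1,1,1,1,1],false,3,3,[5,6]),
    (true,[([(0,2,[(4,6)])],[]),([(0,1,[(4,5)])],[])],[4,1,1,1],false,2,3,[3,4]),
    (true,[([(0,2,[(4,6)])],[]),([(0,1,[(4,5)])],[]),([(0,3,[(3,3)])],[1,1])],[1,1],false,1,0,[2]),
    (false,[([(0,2,[(4,6)]),(0,1,[(4,5)]),(0,1,[(3,3),(2,2)])],[1])],[1],false,1,0,[]),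
    (false,[([(0,4,[(4,6),(4,4)]),(0,1,[(4,5)])],[1,1,1])],[],false,1,0,[]),
    (true,[([(0,2,[(4,6)])],[]),([(0,10,[(6,6)])],[])],[3,1,1],false,2,1,[]),
    (true,[([(0,4,[(7,10)])],[])],[3,1,1,1,1,1],false,2,3,[3,4]),
    (true,[([(0,4,[(7,10)])],[]),([(0,3,[(3,3)])],[1])],[1,1,1,1],false,1,0,[2]),
    (false,[([(0,4,[(7,10)]),(0,1,[(3,3),(2,2)])],[1,1,1])],[],false,1,0,[]),
    (false,[([(0,4,[(7,10)]),(0,1,[(4,4)])],[1,1,1])],[],false,1,0,[])]),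
  ([12,3,2,1], [
    (false,[],[12,3,2,1],true,3,4,[4,5,7,8,9,10]),
    (true,[([(0,1,[(4,4)])],[])],[4,2,1,1,1,1,1,1,1],false,2,6,[3,4]),
    (true,[([(0,10,[(4,4),(3,3)])],[])],[3,2,1,1,1,1,1,1],false,3,2,[]),
    (true,[([(0,8,[(4,4),(4,4)])],[])],[3,1,1,1,1,1,1,1],false,2,3,[3,4]),
    (true,[([(0,10,[(4,4),(3,3)])],[]),([(0,1,[(4,4)])],[])],[2,1,1,1,1],false,2,1,[]),
    (false,[([(0,8,[(4,4),(4,4)]),(0,1,[(4,4)])],[1,1,1,1,1])],[],false,1,0,[]),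
    (true,[([(0,1,[(5,5)])],[])],[4,2,1,1,1,1,1,1,1],false,3,2,[5]),
    (true,[([(0,1,[(5,5)])],[]),([(0,1,[(4,5)])],[1])],[2,1,1,1,1,1],false,2,2,[3]),
    (false,[([(0,8,[(5,5),(3,3)]),(0,1,[(4,5)])],[1,1,1,1,1])],[],false,1,0,[]),
    (true,[([(0,10,[(6,7)])],[])],[3,2,1,1,1,1,1,1],false,3,2,[5]),
    (true,[([(0,10,[(6,7)])],[]),([(0,1,[(4,5)])],[])],[2,1,1,1,1],false,2,1,[]),
    (true,[([(0,8,[(8,8)])],[])],[3,1,1,1,1,1,1,1],false,2,2,[3]),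
    (true,[([(0,8,[(8,8)])],[]),([(0,3,[(3,3)])],[1])],[1,1,1,1,1,1],false,1,0,[]),
    (false,[([(0,4,[(9,9)])],[1,1,1,1,1,1,1,1])],[],false,1,0,[2]),
    (true,[([(2,22,[(9,9),(2,2)])],[])],[1,1,1,1,1,1,1],false,1,0,[]),
    (false,[([(0,4,[(10,10)])],[1,1,1,1,1,1,1,1])],[],false,1,0,[])])]

theorem cj4c_1_ok : runAllJ S37 R37 F37 9 cj4c_1 = true := by decide +kernel

/-- the minors -/
def G4c : List (List ℕ) := [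
  [1,1,1,1,9,1,1,1], [1,1,1,9,1,1,1,1], [1,1,1,1,1,5,1,1], [1,1,5,1,1,1,1,1], [1,1,1,1,1,1,5,1],
  [1,5,1,1,1,1,1,1], [1,1,1,1,1,1,1,4], [4,1,1,1,1,1,1,1], [2,3,1,1,1,1,1,1], [1,1,1,1,1,1,3,2],
  [2,1,1,5,1,1,1,1], [1,1,1,1,5,1,1,2], [2,1,1,1,3,1,1,1], [1,1,1,3,1,1,1,2], [2,1,3,1,1,1,1,1],
  [1,1,1,1,1,3,1,2], [3,1,1,1,1,1,1,2], [2,1,1,1,1,1,1,3], [1,1,1,1,1,2,3,1], [1,3,2,1,1,1,1,1],
  [2,1,1,1,1,1,2,1], [1,2,1,1,1,1,1,2], [2,1,1,1,1,3,1,1], [1,1,3,1,1,1,1,2], [2,1,2,1,1,2,1,1],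
  [1,1,2,1,1,2,1,2], [1,1,2,2,1,1,1,2], [2,1,1,1,2,2,1,1], [2,1,2,1,2,1,1,1], [1,1,1,2,1,2,1,2],
  [3,2,1,1,1,1,1,1], [1,1,1,1,1,1,2,3], [3,1,1,2,1,1,1,1], [1,1,1,1,2,1,1,3], [2,2,1,2,1,1,1,1],
  [1,1,1,1,2,1,2,2], [1,2,1,1,1,1,3,1], [1,3,1,1,1,1,2,1], [1,2,1,1,1,3,1,1], [1,1,3,1,1,1,2,1],
  [1,3,1,3,1,1,1,1], [1,1,1,1,3,1,3,1], [1,2,1,1,3,2,1,1], [1,1,2,3,1,1,2,1], [1,2,1,1,6,1,1,1],
  [1,1,1,6,1,1,2,1], [1,3,1,1,1,2,1,1], [1,1,2,1,1,1,3,1], [1,2,1,2,5,1,1,1], [1,1,1,5,2,1,2,1],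
  [1,1,1,5,1,3,1,1], [1,1,3,1,5,1,1,1], [1,1,4,3,1,1,1,1], [1,1,1,1,3,4,1,1], [1,1,3,4,2,1,1,1],
  [1,1,1,2,4,3,1,1], [1,1,1,2,2,4,1,1], [1,1,4,2,2,1,1,1], [1,2,1,6,1,1,1,1], [1,1,1,1,6,1,2,1],
  [1,1,1,4,1,2,2,1], [1,2,2,1,4,1,1,1], [1,1,1,6,4,1,1,1], [1,1,1,4,6,1,1,1], [1,1,2,1,1,2,2,1],
  [1,2,2,1,1,2,1,1]]

noncomputable def T4c : BT :=
  .split 0 4 (.split 1 5 (.split 2 5 (.split 3 9 (.split 4 9 (.split 5 5 (.split 6 5 (.split 7 4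
  (.split 7 2 (.split 0 2 (.split 6 3 (.split 1 3 (.split 5 3 (.split 2 3 (.split 4 5 (.split 3
  5 (.split 6 2 (.split 1 2 .small (.split 5 2 .small (.split 2 2 .small (.minor 65)))) (.split
  1 2 (.split 4 3 .small (.split 3 3 .small (.split 2 2 .small (.minor 43)))) (.split 5 2
  (.split 4 3 (.split 3 3 .small (.split 2 2 .small (.minor 43))) (.split 3 3 (.split 2 2 .small
  (.split 4 4 .small (.minor 61))) (.split 2 2 .small (.minor 43)))) (.split 2 2 (.split 3 4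
  (.split 4 3 .small (.minor 42)) (.minor 60)) (.minor 64))))) (.split 6 2 (.split 1 2 (.split 4
  3 .small (.split 3 7 .small (.split 4 4 .small (.minor 62)))) (.split 3 6 (.split 5 2 .small
  (.split 2 2 .small (.minor 65))) (.minor 58))) (.split 2 2 (.split 3 6 (.split 4 2 (.split 5 2
  .small (.minor 60)) (.minor 49)) (.minor 45)) (.minor 43)))) (.split 3 6 (.split 6 2 (.split 3
  3 (.split 1 2 .small (.split 2 2 (.split 3 2 .small (.minor 48)) (.minor 61))) (.split 1 2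
  (.split 4 7 .small (.split 3 4 .small (.minor 63))) (.minor 48))) (.split 3 5 (.split 4 6
  (.split 1 2 (.split 3 3 .small (.split 2 2 .small (.minor 43))) (.split 2 2 (.split 3 2
  (.split 5 2 .small (.minor 42)) (.minor 48)) (.minor 61))) (.minor 59)) (.minor 49))) (.minor
  62))) (.split 4 5 (.split 6 2 (.split 3 5 (.split 1 2 (.split 4 3 .small (.split 3 4 .small
  (.minor 54))) (.split 4 4 (.split 5 2 (.split 3 3 .small (.split 2 4 .small (.minor 52)))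
  (.minor 65)) (.minor 61))) (.split 2 4 (.split 4 2 (.split 1 2 .small (.split 3 6 (.split 5 2
  .small (.minor 65)) (.minor 58))) (.minor 54)) (.minor 52))) (.minor 39)) (.minor 51)))
  (.split 1 2 (.split 3 5 (.split 2 3 (.split 4 5 (.split 6 2 (.split 4 3 .small (.split 5 4
  .small (.minor 53))) (.split 2 2 (.split 3 4 (.split 4 3 .small (.split 5 4 .small (.minor
  53))) (.minor 60)) (.minor 64))) (.split 3 2 (.split 5 4 (.split 6 2 .small (.split 2 2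
  (.split 4 6 .small (.minor 59)) (.minor 64))) (.minor 53)) (.minor 55))) (.split 4 5 (.split 6
  2 (.split 4 3 (.split 3 3 (.split 5 4 .small (.split 2 4 .small (.split 4 2 .small (.split 3 2
  .small (.minor 56))))) (.split 2 4 (.split 5 4 .small (.split 4 2 .small (.minor 56))) (.minor
  52))) (.split 3 4 (.split 5 4 (.split 3 2 .small (.split 2 4 .small (.minor 57))) (.minor 53))
  (.minor 54))) (.minor 39)) (.minor 51))) (.minor 50)) (.minor 38))) (.split 2 2 (.split 3 3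
  (.split 4 6 (.split 5 2 (.split 6 2 (.split 4 3 .small (.split 1 4 .small (.split 4 4 .small
  (.split 4 5 .small (.split 3 2 .small (.minor 48)))))) (.minor 37)) (.minor 46)) (.minor 44))
  (.minor 40)) (.minor 19))) (.split 1 2 (.split 2 2 (.split 3 6 (.split 4 3 (.split 5 2 (.split
  3 3 .small (.split 6 4 .small (.split 3 4 .small (.split 4 2 .small (.split 3 5 .small (.minor
  49)))))) (.minor 18)) (.minor 41)) (.minor 45)) (.minor 47)) (.minor 36))) (.split 1 3 (.split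
  2 3 (.split 3 5 (.split 4 3 (.split 5 3 (.split 6 2 (.split 0 3 (.split 5 2 (.split 3 3 .small
  (.split 1 2 .small (.minor 34))) (.split 2 2 (.split 4 2 (.split 1 2 .small (.split 3 2 .small
  (.minor 34))) (.minor 27)) (.minor 24))) (.split 1 2 (.split 3 2 (.split 5 2 .small (.split 2
  2 (.split 4 2 .small (.minor 27)) (.minor 24))) (.minor 32)) (.minor 30))) (.minor 20))
  (.minor 22)) (.minor 12)) (.minor 10)) (.minor 14)) (.minor 8))) (.split 0 3 (.split 1 2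
  (.split 2 3 (.split 3 3 (.split 4 5 (.split 5 3 (.split 6 3 (.split 0 2 (.split 7 3 (.split 6
  2 (.split 4 3 .small (.split 2 2 .small (.split 3 2 .small (.minor 26)))) (.split 4 2 (.split
  2 2 .small (.split 3 2 .small (.minor 26))) (.minor 35))) (.split 4 2 (.split 6 2 (.split 2 2
  .small (.split 3 2 (.split 5 2 .small (.minor 25)) (.minor 26))) (.minor 31)) (.minor 33)))
  (.split 4 3 (.split 6 2 (.split 7 3 (.split 5 2 (.split 2 2 .small (.split 3 2 (.split 4 2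
  .small (.minor 28)) (.minor 26))) (.split 2 2 (.split 3 2 (.split 4 2 .small (.minor 27))
  (.minor 29)) (.minor 24))) (.minor 17)) (.minor 20)) (.minor 12))) (.minor 9)) (.minor 15))
  (.minor 11)) (.minor 13)) (.minor 23)) (.minor 21)) (.minor 16))) (.minor 6)) (.minor 4))
  (.minor 2)) (.minor 0)) (.minor 1)) (.minor 3)) (.minor 5)) (.minor 7)

noncomputable def Rt4c : List (List ℕ) :=
  cj4c_0.map Prod.fst ++ cj4c_1.map Prod.fst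

theorem Rt4c_ok : ∀ M ∈ Rt4c, KG (M : Multiset ℕ) 9 := by
  intro M h
  unfold Rt4c at h
  simp only [List.mem_append] at h
  rcases h with h | h
  · exact kg_of_allJ S37_ok R37_ok F37_ok cj4c_0_ok M h
  · exact kg_of_allJ S37_ok R37_ok F37_ok cj4c_1_ok M h

def ks4c : List ℕ := [
  64, 65, 48, 49, 50, 51, 38, 39, 35, 34, 57, 56, 14, 15, 31, 30, 21, 20, 32, 33, 0, 1, 18, 19, 7,
  6, 17, 16, 3, 2, 37, 36, 29, 28, 27, 26, 12, 13, 10, 11, 45, 44, 24, 25, 54, 55, 9, 8, 42, 43,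
  41, 40, 61, 60, 59, 58, 46, 47, 63, 62, 23, 22, 53, 52, 4, 5]

theorem min4c_ok : minC 4 Rt4c G4c ks4c = true := by decide +kernel

theorem T4c_ok : btC 4 24 G4c T4c (List.replicate (2 * 4) 1)
    (List.replicate (2 * 4) 0) = true := by decide +kernel

theorem kg4c {M : Multiset ℕ} (hM : ∀ s ∈ M, 1 ≤ s)
    (hc : M.dedup.card = 4) (hn : 24 ≤ M.sum) : KG M 9 :=
  coverC ks4c T4c Rt4c_ok min4c_ok T4c_ok hM hc hn

noncomputable def cj5c_0 : List (List ℕ × List NdJ) := [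
  ([6,5,4,2,1], [
    (false,[],[6,5,4,2,1],false,4,3,[6,10]), (true,[([(0,2,[(5,6)])],[])],[5,4,3],false,3,3,[6]),
    (false,[([(0,2,[(5,6)]),(0,2,[(4,6)])],[])],[5,1],true,2,2,[3]),
    (false,[([(0,2,[(5,6)]),(0,2,[(4,6)])],[]),([(0,3,[(3,3)])],[1,1,1])],[],false,1,0,[]),
    (true,[([(0,4,[(7,10)])],[])],[5,3],false,2,3,[3,4]),
    (false,[([(0,4,[(7,10)]),(0,3,[(3,3)])],[])],[5],false,1,0,[2]),
    (true,[([(0,4,[(7,10)])],[]),([(0,3,[(3,3)]),(0,3,[(2,2)])],[2])],[],false,1,0,[]),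
    (false,[([(0,4,[(7,10)]),(0,0,[(4,4)])],[])],[4],false,1,0,[])]),
  ([6,5,4,3,1], [
    (false,[],[6,5,4,3,1],false,4,4,[5,6,10]),
    (true,[([(0,1,[(5,5)])],[2])],[5,4,3],false,3,3,[5]),
    (true,[([(0,4,[(5,5),(4,5)])],[])],[5,4],false,2,2,[3]),
    (true,[([(0,4,[(5,5),(4,5)])],[]),([(0,3,[(3,3)])],[2,2,2])],[],false,1,0,[]),
    (true,[([(0,2,[(6,6)])],[1])],[5,4,3],false,3,3,[5]),
    (true,[([(0,5,[(6,6),(4,5)])],[2])],[4,2],false,2,1,[]),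
    (true,[([(0,4,[(7,10)])],[])],[5,4],false,2,3,[3,4]),
    (true,[([(0,4,[(7,10)])],[]),([(0,3,[(3,3)])],[2,2,2])],[],false,1,0,[2]),
    (true,[([(0,4,[(7,10)])],[3]),([(0,3,[(3,3)]),(0,3,[(2,2)])],[])],[],false,1,0,[]),
    (true,[([(0,4,[(7,10)])],[]),([(0,0,[(4,4)])],[2,2,1])],[],false,1,0,[])]),
  ([6,5,4,3,2], [
    (false,[],[6,5,4,3,2],false,5,2,[6,10]),
    (true,[([(0,2,[(6,6)])],[1,1])],[5,4,3],false,3,3,[5]),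
    (true,[([(0,5,[(6,6),(4,5)])],[2])],[5,2],false,2,1,[]),
    (true,[([(0,4,[(7,10)])],[1])],[5,4],false,2,3,[3,4]),
    (true,[([(0,4,[(7,10)])],[1]),([(0,3,[(3,3)])],[2,2,2])],[],false,1,0,[2]),
    (true,[([(0,4,[(7,10)])],[2]),([(0,3,[(3,3)]),(0,3,[(2,2)])],[2])],[],false,1,0,[]),
    (true,[([(0,4,[(7,10)])],[]),([(0,0,[(4,4)])],[2,2,2])],[],false,1,0,[])]),
  ([7,6,3,2,1], [
    (false,[],[7,6,3,2,1],false,4,3,[6,10]),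
    (true,[([(0,2,[(5,6)])],[])],[5,4,2,2],false,3,4,[5,6]),
    (false,[([(0,2,[(5,6)]),(0,1,[(4,5)])],[])],[7,1],true,2,2,[3]),
    (true,[([(0,4,[(5,6),(3,3)])],[]),([(0,1,[(4,5)])],[3,1])],[],false,1,0,[]),
    (true,[([(0,2,[(5,6)])],[]),([(0,2,[(6,6)])],[3,2])],[2],false,1,0,[]),
    (true,[([(0,4,[(7,10)])],[])],[5,2,2],false,2,3,[3,4]),
    (true,[([(0,4,[(7,10)])],[]),([(0,3,[(3,3)])],[2,1,1])],[2],false,1,0,[2]),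
    (true,[([(0,4,[(7,10)])],[]),([(0,1,[(3,3),(2,2)])],[3,1])],[],false,1,0,[]),
    (false,[([(0,4,[(7,10)]),(0,0,[(4,4)])],[2])],[3],false,1,0,[])]),
  ([8,4,3,2,1], [
    (false,[],[8,4,3,2,1],true,5,2,[8,10]), (true,[([(0,8,[(6,8)])],[])],[5,3,1,1],false,3,2,[5]),
    (false,[([(0,8,[(6,8)]),(0,1,[(4,5)])],[1])],[4],false,1,0,[2]),
    (false,[([(0,4,[(6,8),(2,2)]),(0,1,[(4,5)])],[1])],[2],false,1,0,[]),
    (true,[([(0,9,[(9,10)])],[])],[4,3,1],false,2,1,[])])]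

theorem cj5c_0_ok : runAllJ S37 R37 F37 9 cj5c_0 = true := by decide +kernel

/-- the minors -/
def G5c : List (List ℕ) := [
  [1,1,1,1,1,4,1,1,1,1], [1,1,1,1,4,1,1,1,1,1], [1,1,1,1,1,1,3,1,1,1], [1,1,1,3,1,1,1,1,1,1],
  [1,1,1,1,1,1,1,2,1,1], [1,1,2,1,1,1,1,1,1,1], [1,1,1,1,1,1,1,1,2,1], [1,2,1,1,1,1,1,1,1,1],
  [1,1,1,1,1,1,1,1,1,2], [2,1,1,1,1,1,1,1,1,1]]

noncomputable def T5c : BT :=
  .split 0 2 (.split 1 2 (.split 2 2 (.split 3 3 (.split 4 4 (.split 5 4 (.split 6 3 (.split 7 2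
  (.split 8 2 (.split 9 2 .small (.minor 8)) (.minor 6)) (.minor 4)) (.minor 2)) (.minor 0))
  (.minor 1)) (.minor 3)) (.minor 5)) (.minor 7)) (.minor 9)

noncomputable def Rt5c : List (List ℕ) :=
  cj5c_0.map Prod.fst

theorem Rt5c_ok : ∀ M ∈ Rt5c, KG (M : Multiset ℕ) 9 := by
  intro M h
  unfold Rt5c at h
  exact kg_of_allJ S37_ok R37_ok F37_ok cj5c_0_ok M h

def ks5c : List ℕ := [
  8, 9, 6, 7, 0, 1, 2, 3, 4, 5]

theorem min5c_ok : minC 5 Rt5c G5c ks5c = true := by decide +kernel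

theorem T5c_ok : btC 5 24 G5c T5c (List.replicate (2 * 5) 1)
    (List.replicate (2 * 5) 0) = true := by decide +kernel

theorem kg5c {M : Multiset ℕ} (hM : ∀ s ∈ M, 1 ≤ s)
    (hc : M.dedup.card = 5) (hn : 24 ≤ M.sum) : KG M 9 :=
  coverC ks5c T5c Rt5c_ok min5c_ok T5c_ok hM hc hn

end Pool.MP322
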