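import Pool.Agent.Lib.MP_322c5f_al.SG36b
import Pool.Agent.Lib.MP_322c5f_alF.FB39

/-! (C), part 28: five distinct column heights, depth 14. -/

set_option autoImplicit false

namespace Pool.MP322

/-- self-conjugate blocks -/
def S38 : List (List ℕ × List ℕ) := [
  ([3,2,1],[1,2,3]), ([3,1,1],[2,0,3]), ([3,3,2],[0,2,6]), ([2,1],[1,2]), ([2,2],[0,4]),
  ([3,3,3],[0,0,9]), ([4,4,2,2],[0,4,0,8]), ([4,1,1,1],[3,0,0,4]), ([4,3,2,1],[1,2,3,4]),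
  ([4,4,3,2],[0,2,3,8]), ([5,4,3,2,1],[1,2,3,4,5]), ([5,5,3,2,2],[0,4,3,0,10]),
  ([4,4,4,3],[0,0,3,12]), ([4,3,3,1],[1,0,6,4]), ([4,2,1,1],[2,2,0,4]), ([5,4,4,3,1],[1,0,3,8,5]),
  ([5,4,2,2,1],[1,4,0,4,5]), ([6,5,2,2,2,1],[1,6,0,0,5,6]), ([5,3,2,1,1],[2,2,3,0,5]),
  ([6,4,3,2,1,1],[2,2,3,4,0,6]), ([6,5,3,2,2,1],[1,4,3,0,5,6]), ([6,3,3,1,1,1],[3,0,6,0,0,6]),
  ([5,3,3,1,1],[2,0,6,0,5]), ([5,2,1,1,1],[3,2,0,0,5]), ([6,2,1,1,1,1],[4,2,0,0,0,6]),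
  ([5,1,1,1,1],[4,0,0,0,5]), ([7,2,1,1,1,1,1],[5,2,0,0,0,0,7]), ([7,4,3,2,1,1,1],[3,2,3,4,0,0,7]),
  ([6,3,2,1,1,1],[3,2,3,0,0,6]), ([6,1,1,1,1,1],[5,0,0,0,0,6]), ([7,1,1,1,1,1,1],[6,0,0,0,0,0,7]),
  ([7,3,2,1,1,1,1],[4,2,3,0,0,0,7]), ([6,4,2,2,1,1],[2,4,0,4,0,6]),
  ([8,3,2,1,1,1,1,1],[5,2,3,0,0,0,0,8]), ([8,1,1,1,1,1,1,1],[7,0,0,0,0,0,0,8])]

theorem S38_ok : okS S38 = true := by decide +kernel

/-- direct blocks -/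
def R38 : List (List ℕ × List ℕ) := [
  ([3,2,1],[3,2,1]), ([4,3,2,1],[4,3,2,1])]

theorem R38_ok : okR R38 = true := by decide +kernel

/-- facts used -/
def F38 : List (List ℕ × List ℕ) := [
  ([6,5,3,2,1],[6,5,5]), ([6,5,3,2,1],[10,6]), ([6,5,4,2,1],[5,5,3,2,2]),
  ([6,5,4,3,1],[5,5,3,2,2,2]), ([7,6,5,4,1],[5,5,3,2,2,2,2]), ([6,5,4,2,1],[5,5,3,3,2]),
  ([7,6,5,4,1],[5,5,3,3,2,2]), ([6,5,4,3,1],[5,5,3,3,3]), ([6,5,4,2,1],[5,5,5,2]),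
  ([6,5,4,3,1],[5,5,5,2,2]), ([6,5,4,2,1],[5,5,5,3]), ([6,5,4,3,1],[6,6,3,2,2]),
  ([6,5,4,2,1],[6,6,3,3]), ([6,5,4,2,1],[10,6]), ([6,5,4,3,1],[6,5,5]), ([6,5,4,3,1],[5,5,5,3]),
  ([6,5,4,3,1],[6,6,5]), ([6,5,4,3,2],[6,5,5]), ([6,5,4,3,1],[6,6,3,3]),
  ([6,5,4,3,2],[5,5,5,2,2]), ([6,5,4,3,1],[5,5,3,2,2]), ([6,5,4,3,1],[5,5,3,3,2]),
  ([6,5,4,3,2],[5,5,3,3,2,2]), ([6,5,4,3,1],[5,5,5,2]), ([6,5,4,3,2],[6,6,5]),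
  ([6,5,4,3,2],[10,6]), ([6,5,3,2,1],[5,5,3,2,2]), ([6,5,5,3,2,1],[5,5,3,2,2,2,2]),
  ([6,5,5,3,2,1],[5,5,3,3,2,2]), ([6,5,3,2,1],[5,5,5,2]), ([7,6,5,2,1],[5,5,3,3,2,2]),
  ([7,6,5,2,1],[5,5,3,3,3]), ([7,6,5,2,1],[5,5,5,2,2]), ([6,5,4,2,1],[12,3,2]),
  ([6,5,4,2,1],[13,3]), ([6,5,4,2,1],[14,2]), ([8,7,3,2,1],[5,5,3,3,2,2]), ([6,5,3,2,1],[6,6,5]),
  ([7,6,5,2,1],[5,5,3,2,2,2,2]), ([6,5,4,2,1],[6,5,5]), ([7,6,3,2,1],[5,5,5,3]),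
  ([6,5,4,2,1],[6,6,5]), ([6,5,4,3,1],[7,5,3,2,2]), ([7,6,5,2,1],[5,5,3,2,2,2]),
  ([8,7,3,2,1],[5,3,3,3,3,2,2]), ([8,7,3,2,1],[5,3,3,3,3,3]), ([7,6,3,2,1],[5,5,3,3,2]),
  ([7,6,3,2,1],[5,5,3,3,3]), ([7,6,3,2,1],[5,5,5,2,2]), ([7,6,3,2,1],[6,6,3,2,2]),
  ([7,6,3,2,1],[6,6,3,3]), ([6,5,3,2,1],[8,8]), ([6,5,3,2,1],[9,6,2]), ([6,4,3,2,1],[10,6]),
  ([8,4,3,2,1],[11,3,2,2]), ([7,4,3,2,1],[11,3,3]), ([7,4,3,2,1],[11,4,2]),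
  ([7,4,3,2,1],[12,3,2]), ([7,4,3,2,1],[13,2,2]), ([6,4,3,2,1],[13,3]), ([6,4,3,2,1],[14,2])]

theorem F38_ok : ∀ p ∈ F38, CC (p.1 : Multiset ℕ) (p.2 : Multiset ℕ) :=
  Pool.MP322F.inT_sound Pool.MP322F.FTb_ok (by decide +kernel)

noncomputable def cj5d_0 : List (List ℕ × List NdJ) := [
  ([7,6,5,4,3,3], [
    (false,[],[7,6,5,4,3,3],false,5,4,[6,8,9,10,13,15]),
    (true,[([(0,0,[(6,6)])],[2,1,1])],[6,6,4,2],true,3,4,[6]),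
    (false,[([(0,0,[(6,6)]),(0,0,[(4,6)])],[3])],[6,4,3],false,3,3,[5,6]),
    (false,[([(0,0,[(6,6)]),(0,0,[(4,6)])],[3]),([(0,1,[(4,5)])],[3,3,2])],[],false,1,0,[2,3,4]),
    (false,[([(0,2,[(6,6),(2,2)]),(0,0,[(4,6)])],[]),([(0,1,[(4,5)])],[3,3,2,1])],[],false,1,0,[2]),
    (false,[([(0,2,[(6,6),(2,2)]),(0,0,[(4,6)])],[]),([(0,1,[(4,5)]),(0,3,[(2,2)])],[3,3])],[],false,1,0,[2]),
    (false,[([(0,2,[(6,6),(2,2)]),(0,0,[(4,6)])],[]),([(0,1,[(4,5)]),(1,0,[(2,2),(2,2)])],[3])],[],false,1,0,[]),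
    (true,[([(0,0,[(6,6)]),(0,0,[(4,6)])],[]),([(0,1,[(4,5)]),(0,3,[(3,3)])],[2])],[6],false,1,0,[2]),
    (false,[([(0,2,[(6,6),(2,2)]),(0,0,[(4,6)])],[]),([(0,1,[(4,5)]),(0,3,[(3,3)])],[3,3])],[],false,1,0,[]),
    (true,[([(0,0,[(6,6)]),(0,0,[(4,6)])],[]),([(0,1,[(4,5)]),(0,4,[(4,4)])],[1])],[6],false,1,0,[]),
    (false,[([(0,0,[(6,6)]),(0,0,[(4,6)])],[3]),([(0,0,[(6,6)])],[3,3,1])],[],false,1,0,[2]),
    (false,[([(0,2,[(6,6),(2,2)]),(0,0,[(4,6)])],[]),([(0,0,[(6,6)])],[3,3,1,1])],[],false,1,0,[]),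
    (true,[([(0,2,[(7,8)])],[1,1,1])],[6,6,4,1],true,3,4,[6,8]),
    (false,[([(0,2,[(7,8)]),(0,0,[(4,6)])],[])],[7,4,3],false,3,3,[5,6]),
    (false,[([(0,2,[(7,8)]),(0,0,[(4,6)])],[]),([(0,1,[(4,5)])],[3,3,2,1])],[],false,1,0,[3]),
    (false,[([(0,2,[(7,8)]),(0,0,[(4,6)])],[]),([(0,1,[(4,5)]),(0,3,[(2,3)])],[3,3])],[],false,1,0,[2]),
    (false,[([(0,2,[(7,8)]),(0,0,[(4,6)])],[]),([(0,1,[(4,5)]),(1,0,[(2,3),(2,2)])],[3])],[],false,1,0,[]),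
    (false,[([(0,2,[(7,8)]),(0,0,[(4,6)])],[]),([(0,0,[(6,6)])],[3,3,1,1])],[],false,1,0,[]),
    (true,[([(0,2,[(7,8)]),(0,2,[(7,8)])],[])],[6,3,2,1],false,3,2,[]),
    (true,[([(0,5,[(9,9)])],[2,2,2])],[6,4,2,1],true,4,2,[6,7]),
    (false,[([(0,5,[(9,9)]),(0,0,[(5,6)])],[])],[7,3,3],false,2,2,[3]),
    (true,[([(0,6,[(9,9),(3,3)])],[3,2]),([(0,0,[(5,6)])],[2,2,1])],[],false,1,0,[]),
    (true,[([(0,5,[(9,9)])],[3,2,2]),([(0,7,[(7,7)])],[3,2])],[],false,1,0,[]),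
    (true,[([(0,8,[(10,10)])],[2,1])],[6,6,3],true,2,5,[3,5,6]),
    (true,[([(0,9,[(10,10),(3,3)])],[2,2])],[6,4,1],false,3,1,[]),
    (false,[([(0,10,[(10,10),(4,5)])],[5,5])],[3],false,1,0,[3]),
    (true,[([(0,9,[(10,10),(2,3)])],[2,2]),([(0,1,[(4,5)])],[2,2,2])],[],false,1,0,[2]),
    (true,[([(0,9,[(10,10),(2,3)])],[3,2]),([(0,1,[(4,5)]),(0,3,[(2,2)])],[2])],[],false,1,0,[]),
    (false,[([(0,11,[(10,10),(6,6)])],[5,1])],[5],false,1,0,[]),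
    (true,[([(0,9,[(11,13)])],[2,2])],[6,4,1],true,3,2,[5]),
    (true,[([(0,9,[(11,13)])],[2,2]),([(0,1,[(4,5)])],[2,2,2])],[],false,1,0,[2]),
    (true,[([(0,9,[(11,13)])],[3,2]),([(0,1,[(4,5)]),(0,3,[(2,2)])],[2])],[],false,1,0,[]),
    (false,[([(0,12,[(14,15)])],[2,1])],[7,3],false,2,1,[])]),
  ([7,6,5,4,4,1,1], [
    (false,[],[7,6,5,4,4,1,1],false,4,6,[6,8,11,13,15]),
    (true,[([(0,0,[(5,6)])],[1,1])],[7,5,5,3],false,2,10,[3,5,6]),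
    (false,[([(0,0,[(5,6)]),(0,3,[(3,3)])],[2])],[7,5,4,1],false,3,5,[]),
    (true,[([(0,0,[(5,6)]),(0,0,[(4,5)])],[2])],[5,5,3,1],true,3,4,[4,5]),
    (true,[([(0,8,[(5,6),(4,4)]),(0,0,[(4,5)])],[])],[5,5,2],true,2,4,[3,4]),
    (true,[([(0,0,[(5,6)]),(0,0,[(4,5)])],[2]),([(0,4,[(4,4)]),(0,3,[(3,3)])],[1])],[5,1],true,2,2,[3]),
    (true,[([(0,8,[(5,6),(4,4)]),(0,0,[(4,5)])],[]),([(0,3,[(3,3)]),(0,3,[(3,3)])],[1])],[5],false,1,0,[]),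
    (true,[([(0,0,[(5,6)]),(0,1,[(4,5)])],[1]),([(0,4,[(4,4)]),(0,4,[(4,4)])],[2])],[5,1],false,2,1,[]),
    (true,[([(0,0,[(5,6)]),(0,8,[(4,5),(5,5)])],[])],[5,5,2],true,2,3,[3,4]),
    (true,[([(0,0,[(5,6)]),(0,8,[(4,5),(5,5)])],[]),([(0,3,[(3,3)])],[2,1,1])],[5],false,1,0,[2]),
    (true,[([(0,0,[(5,6)]),(0,8,[(4,5),(5,5)])],[]),([(0,3,[(3,3)]),(0,3,[(2,2)])],[1])],[5],false,1,0,[]),
    (true,[([(0,0,[(5,6)]),(0,8,[(4,5),(5,5)])],[]),([(0,4,[(4,4)])],[1,1,1])],[5],false,1,0,[]),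
    (true,[([(0,0,[(5,6)]),(0,0,[(6,6)])],[2])],[5,5,3,1],true,3,4,[5,6]),
    (false,[([(0,0,[(5,6)]),(0,13,[(6,6),(4,5)])],[])],[6,4,1],false,3,1,[]),
    (true,[([(0,0,[(5,6)]),(0,0,[(6,6)])],[2]),([(0,0,[(6,6)])],[2,1])],[5],false,1,0,[]),
    (true,[([(0,2,[(7,8)])],[2,2])],[7,5,3,1],true,4,2,[6,8]),
    (false,[([(0,2,[(7,8)]),(0,0,[(5,6)])],[3])],[5,4,1,1],false,3,2,[5]),
    (false,[([(0,2,[(7,8)]),(0,0,[(5,6)])],[3]),([(0,1,[(4,5)])],[1])],[5],false,1,0,[2]),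
    (false,[([(0,2,[(7,8)]),(0,1,[(4,5)])],[3]),([(0,14,[(5,6),(2,2)])],[2,2])],[],false,1,0,[]),
    (false,[([(0,2,[(7,8)]),(0,2,[(7,8)])],[1])],[5,4,1,1],false,3,2,[]),
    (false,[([(0,13,[(9,11)])],[3,2])],[7,4,1],true,3,3,[6,7]),
    (false,[([(0,13,[(9,11)]),(0,0,[(4,6)])],[])],[6,4,1],false,3,1,[4]),
    (false,[([(0,13,[(9,11)]),(0,0,[(4,6)])],[]),([(0,4,[(4,4)])],[2,2,1,1])],[1],false,1,0,[]),
    (false,[([(0,13,[(9,11)]),(0,2,[(7,7)])],[])],[4,4,1],false,1,0,[]),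
    (true,[([(0,9,[(12,13)])],[2])],[7,5,1],false,3,1,[4]),
    (false,[([(0,15,[(12,13),(4,4)])],[4,2])],[4,1],false,1,0,[]),
    (false,[([(0,10,[(14,15)])],[4,4])],[4,1],false,2,1,[])]),
  ([7,6,5,4,4,3], [
    (false,[],[7,6,5,4,4,3],false,5,3,[6,8,9,10,13,15]),
    (true,[([(0,0,[(6,6)])],[1,1])],[6,6,6,3],true,2,9,[3,4,5,6]),
    (true,[([(0,0,[(6,6)]),(0,3,[(3,3)])],[])],[6,6,6,2],true,2,7,[3]),
    (false,[([(0,0,[(6,6)]),(0,0,[(3,3),(3,3)])],[3])],[6,4,4],false,2,5,[3]),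
    (true,[([(0,0,[(6,6)]),(0,3,[(3,3)])],[1]),([(0,3,[(3,3)]),(0,3,[(3,3)])],[1,1])],[6,5],false,2,3,[3]),
    (false,[([(0,8,[(6,6),(3,3)])],[4,4]),([(0,3,[(3,3)]),(0,3,[(3,3)]),(0,3,[(3,3)])],[2])],[],false,1,0,[2]),
    (false,[([(0,2,[(6,6),(2,2)]),(0,0,[(3,3),(3,3)])],[3]),([(0,0,[(3,3),(3,3)])],[3,3])],[],false,1,0,[]),
    (true,[([(0,0,[(6,6)]),(0,4,[(4,4)])],[2])],[6,6,3,2],true,3,3,[4]),
    (true,[([(0,8,[(6,6),(4,4)]),(0,4,[(4,4)])],[])],[6,6,3],false,2,3,[4]),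
    (true,[([(0,16,[(6,6),(4,4),(3,4)])],[3]),([(0,4,[(4,4)])],[2,2,2,2])],[],false,1,0,[2]),
    (true,[([(0,8,[(6,6),(3,4)]),(0,4,[(4,4)])],[]),([(0,4,[(4,4)]),(0,3,[(2,2)])],[1,1])],[6],false,1,0,[]),
    (false,[([(0,0,[(6,6)]),(0,1,[(5,5)])],[3])],[6,5,4],false,3,4,[4,5]),
    (true,[([(0,13,[(6,6),(5,5)]),(0,4,[(4,4)])],[])],[6,6,2],false,2,2,[3]),
    (true,[([(0,16,[(6,6),(5,5),(3,3)])],[3]),([(0,4,[(4,4)])],[2,2,2,2])],[],false,1,0,[]),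
    (false,[([(2,0,[(6,6),(5,5),(5,5)])],[6,6])],[],false,1,0,[2]),
    (true,[([(0,2,[(6,6),(2,2)])],[2,2,2]),([(0,8,[(5,5),(5,5)])],[3,2])],[],false,1,0,[]),
    (false,[([(0,0,[(6,6)]),(0,0,[(6,6)])],[3])],[6,4,4],false,2,4,[3,5]),
    (false,[([(0,10,[(6,6),(6,6),(3,3)])],[5,5])],[4],false,1,0,[3]),
    (false,[([(0,0,[(6,6)]),(0,0,[(6,6)])],[3]),([(0,3,[(3,3)]),(0,3,[(2,3)])],[2,2])],[4],false,1,0,[2]),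
    (false,[([(0,2,[(6,6),(2,2)]),(0,0,[(6,6)])],[3]),([(0,0,[(3,3),(2,3)])],[3,3])],[],false,1,0,[]),
    (false,[([(0,0,[(6,6)]),(0,0,[(6,6)])],[3]),([(0,1,[(4,5)])],[3,3,3])],[],false,1,0,[2]),
    (true,[([(0,13,[(6,6),(4,5)])],[2,2]),([(0,2,[(6,6),(2,2)])],[2,2,2])],[],false,1,0,[]),
    (false,[([(0,2,[(7,8)])],[3])],[7,6,5],false,3,5,[6,8]),
    (false,[([(0,2,[(7,8)]),(0,0,[(4,6)])],[3])],[5,4,3],false,3,3,[4,5,6]),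
    (true,[([(0,2,[(7,8)]),(0,0,[(4,6)])],[]),([(0,4,[(4,4)])],[1,1,1,1])],[6,1],true,2,2,[3]),
    (false,[([(0,2,[(7,8)]),(0,0,[(4,6)])],[]),([(0,4,[(4,4)]),(0,3,[(3,3)])],[2,1,1])],[4],false,1,0,[]),
    (false,[([(0,2,[(7,8)]),(0,0,[(4,6)])],[]),([(0,1,[(5,5)])],[3,3,3,1])],[],false,1,0,[2]),
    (true,[([(0,2,[(7,8)]),(0,0,[(4,6)])],[]),([(0,1,[(5,5)]),(0,3,[(2,2)])],[1])],[6],false,1,0,[]),
    (false,[([(0,2,[(7,8)]),(0,0,[(4,6)])],[3]),([(0,0,[(6,6)])],[3,3])],[],false,1,0,[]),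
    (false,[([(0,2,[(7,8)]),(0,2,[(7,8)])],[1])],[5,4,3],false,3,2,[]),
    (true,[([(0,5,[(9,9)])],[3,3,2])],[6,3,2,1],true,4,2,[6,7]),
    (false,[([(0,5,[(9,9)]),(0,0,[(5,6)])],[])],[7,4,3],false,3,2,[]),
    (true,[([(0,5,[(9,9)])],[3,3,2]),([(0,7,[(7,7)])],[3,2])],[],false,1,0,[]),
    (true,[([(0,8,[(10,10)])],[1,1])],[6,6,5],false,2,5,[3,5,6]),
    (true,[([(0,9,[(10,10),(3,3)])],[2,2])],[6,5,1],false,3,1,[]),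
    (false,[([(0,10,[(10,10),(4,5)])],[5,5])],[4],false,1,0,[3]),
    (true,[([(0,9,[(10,10),(2,3)])],[3,3]),([(0,1,[(4,5)])],[2,2,1])],[],false,1,0,[2]),
    (true,[([(0,9,[(10,10),(2,3)])],[3,3]),([(0,1,[(4,5)]),(0,3,[(2,2)])],[2])],[],false,1,0,[]),
    (false,[([(2,1,[(10,10),(6,6)])],[6,6])],[],false,1,0,[]),
    (true,[([(0,9,[(11,13)])],[3,3])],[6,3,1],true,3,3,[5]),
    (true,[([(0,9,[(11,13)])],[3,3]),([(0,1,[(4,5)])],[2,2,1])],[],false,1,0,[2]),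
    (true,[([(0,9,[(11,13)])],[3,3]),([(0,1,[(4,5)]),(0,3,[(2,2)])],[2])],[],false,1,0,[]),
    (false,[([(0,12,[(14,15)])],[1])],[7,6],false,2,1,[])]),
  ([7,6,5,5,3,2], [
    (false,[],[7,6,5,5,3,2],false,4,5,[6,8,11,15]),
    (false,[([(0,0,[(5,6)])],[3,1])],[7,6,5],false,1,0,[3,5,6]),
    (false,[([(0,0,[(5,6)]),(0,3,[(2,3)])],[3,2])],[6,5,3],false,1,0,[2,3]),
    (true,[([(0,0,[(5,6)]),(1,0,[(2,3),(2,2)])],[])],[6,5,4,1],false,2,8,[]),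
    (true,[([(0,8,[(5,6),(3,3)]),(0,3,[(2,3)])],[])],[6,5,4],false,3,4,[]),
    (false,[([(0,0,[(5,6)]),(0,0,[(4,5)])],[2])],[6,5,3],false,3,3,[4,5]),
    (true,[([(0,10,[(5,6),(4,5),(4,4)])],[3])],[6,4],false,2,4,[3,4]),
    (true,[([(0,0,[(5,6)]),(0,0,[(4,5)])],[]),([(0,4,[(4,4)]),(0,3,[(3,3)])],[2])],[6,1],true,2,2,[3]),
    (true,[([(0,10,[(5,6),(4,5),(4,4)])],[3]),([(0,3,[(3,3)]),(0,3,[(3,3)])],[2,2])],[],false,1,0,[]),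
    (true,[([(0,0,[(5,6)]),(0,0,[(4,5)])],[]),([(0,4,[(4,4)]),(0,4,[(4,4)])],[1])],[6,1],false,2,1,[]),
    (true,[([(0,0,[(5,6)])],[2,2,1]),([(0,8,[(4,5),(5,5)])],[4,3])],[],false,1,0,[2,4]),
    (true,[([(0,0,[(5,6)]),(0,3,[(2,2)])],[2]),([(0,8,[(4,5),(5,5)])],[4,3])],[],false,1,0,[2]),
    (true,[([(0,0,[(5,6)]),(1,0,[(2,2),(2,2)])],[]),([(0,8,[(4,5),(5,5)])],[3,3])],[],false,1,0,[2]),
    (true,[([(0,0,[(5,6)]),(1,0,[(2,2),(2,2),(2,2)])],[]),([(0,8,[(4,5),(5,5)])],[3,3])],[],false,1,0,[]),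
    (true,[([(0,8,[(5,6),(3,4)])],[3,3]),([(0,0,[(4,5)]),(0,0,[(5,5)])],[])],[],false,1,0,[2]),
    (true,[([(0,0,[(5,6)]),(0,0,[(3,4),(2,2)])],[]),([(0,8,[(4,5),(5,5)])],[3,3])],[],false,1,0,[]),
    (true,[([(0,0,[(5,6)]),(0,0,[(6,6)])],[])],[6,5,4,1],false,4,1,[6]),
    (false,[([(0,0,[(5,6)]),(0,0,[(6,6)])],[2]),([(0,0,[(5,6)])],[3,3,2])],[],false,1,0,[2]),
    (false,[([(0,0,[(5,6)]),(0,2,[(6,6),(2,2)])],[]),([(0,0,[(5,6)])],[3,2,2,1])],[],false,1,0,[]),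
    (false,[([(0,2,[(7,8)])],[1,1])],[7,6,5],false,3,5,[6,8]),
    (false,[([(0,2,[(7,8)]),(0,0,[(4,6)])],[])],[7,5,2],false,3,2,[6]),
    (false,[([(0,2,[(7,8)]),(0,0,[(4,6)])],[]),([(0,0,[(4,6)])],[3,2,2,1])],[],false,1,0,[3]),
    (false,[([(0,2,[(7,8)]),(0,0,[(4,6)])],[]),([(0,0,[(4,6)]),(0,3,[(2,3)])],[3,2])],[],false,1,0,[2]),
    (false,[([(0,2,[(7,8)]),(0,0,[(4,6)])],[]),([(0,0,[(4,6)]),(1,0,[(2,3),(2,2)])],[2])],[],false,1,0,[]),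
    (true,[([(0,2,[(7,8)]),(0,2,[(7,8)])],[])],[5,4,2,1],false,3,2,[]),
    (true,[([(0,13,[(9,11)])],[3])],[6,6,2],true,2,6,[4,6,7]),
    (true,[([(0,10,[(9,11),(3,4)])],[3])],[6,4],false,2,4,[3,4]),
    (true,[([(0,10,[(9,11),(3,4)])],[3]),([(0,3,[(3,3)])],[2,2,2,1])],[],false,1,0,[3]),
    (true,[([(0,10,[(9,11),(3,4)])],[3]),([(0,3,[(3,3)]),(0,3,[(2,3)])],[2,2])],[],false,1,0,[2]),
    (true,[([(0,13,[(9,11)])],[3,2]),([(0,0,[(3,4),(2,2)]),(0,0,[(3,3),(2,3)])],[])],[],false,1,0,[]),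
    (true,[([(0,10,[(9,11),(3,4)])],[3]),([(0,4,[(4,4)])],[2,2,1,1])],[],false,1,0,[2]),
    (true,[([(0,10,[(9,11),(3,4)])],[3]),([(0,4,[(4,4)]),(0,3,[(2,2)])],[2,1])],[],false,1,0,[]),
    (true,[([(0,13,[(9,11)])],[3,1]),([(0,0,[(5,6)])],[3,2,2])],[],false,1,0,[3]),
    (true,[([(0,13,[(9,11)])],[3,2]),([(0,0,[(5,6)]),(0,3,[(2,3)])],[3])],[],false,1,0,[2]),
    (true,[([(0,13,[(9,11)])],[3,2]),([(0,0,[(5,6)]),(1,0,[(2,3),(2,2)])],[])],[],false,1,0,[]),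
    (true,[([(0,13,[(9,11)])],[3]),([(0,2,[(7,7)])],[2,2,2])],[],false,1,0,[]),
    (true,[([(0,10,[(12,15)])],[3])],[6,4],false,2,3,[3,4]),
    (true,[([(0,10,[(12,15)])],[3]),([(0,3,[(3,3)])],[2,2,2,1])],[],false,1,0,[2]),
    (true,[([(0,10,[(12,15)])],[3]),([(0,3,[(3,3)]),(0,3,[(2,2)])],[2,2])],[],false,1,0,[]),
    (true,[([(0,10,[(12,15)])],[3]),([(0,4,[(4,4)])],[2,2,1,1])],[],false,1,0,[])]),
  ([7,6,5,5,4,1], [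
    (false,[],[7,6,5,5,4,1],false,4,5,[5,6,8,11,13,15]),
    (true,[([(0,1,[(5,5)])],[2,1])],[6,5,5,4],false,2,10,[3,4,5]),
    (true,[([(0,1,[(5,5)]),(0,3,[(3,3)])],[])],[6,5,5,4],false,3,4,[]),
    (false,[([(0,1,[(5,5)]),(0,4,[(4,4)])],[2,2])],[6,5,4],false,3,4,[4]),
    (false,[([(0,1,[(5,5)]),(0,4,[(4,4)]),(0,4,[(4,4)])],[])],[6,5,4],false,3,4,[4]),
    (true,[([(0,1,[(5,5)]),(0,4,[(4,4)])],[2]),([(0,4,[(4,4)]),(0,4,[(4,4)])],[2])],[5,2],false,2,1,[]),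
    (true,[([(0,8,[(5,5),(5,5)])],[2])],[6,5,5],false,2,6,[3,4,5]),
    (false,[([(0,10,[(5,5),(5,5),(3,3)])],[4,4])],[5],false,1,0,[2,3]),
    (false,[([(0,10,[(5,5),(5,5),(3,3),(2,2)])],[4,4])],[5],false,1,0,[2]),
    (false,[([(2,2,[(5,5),(5,5),(3,3),(2,2),(2,2)])],[5,5])],[],false,1,0,[2]),
    (true,[([(2,3,[(5,5),(5,5),(3,3),(2,2),(2,2),(2,2)])],[4])],[5],false,1,0,[2]),
    (true,[([(2,4,[(5,5),(5,5),(3,3),(2,2),(2,2),(2,2),(2,2)])],[5])],[],false,1,0,[]),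
    (false,[([(0,8,[(5,5),(5,5)])],[3,3]),([(0,3,[(3,3)]),(0,3,[(3,3)])],[2,2,2])],[],false,1,0,[2,3]),
    (false,[([(2,5,[(5,5),(5,5),(3,3),(3,3),(2,2)])],[5,5])],[],false,1,0,[2]),
    (true,[([(2,6,[(5,5),(5,5),(3,3),(3,3),(2,2),(2,2)])],[5])],[],false,1,0,[]),
    (true,[([(2,7,[(5,5),(5,5),(3,3),(3,3),(3,3)])],[4])],[5],false,1,0,[]),
    (true,[([(0,8,[(5,5),(5,5)]),(0,4,[(4,4)])],[])],[5,5,4],false,2,3,[3,4]),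
    (true,[([(0,10,[(5,5),(5,5),(3,3)])],[3]),([(0,4,[(4,4)])],[2,2,2])],[],false,1,0,[2]),
    (true,[([(0,10,[(5,5),(5,5),(3,3),(2,2)])],[3]),([(0,4,[(4,4)])],[2,2,2])],[],false,1,0,[]),
    (true,[([(0,10,[(5,5),(5,5),(4,4)])],[3]),([(0,4,[(4,4)])],[2,2,2])],[],false,1,0,[]),
    (false,[([(0,10,[(5,5),(5,5),(5,5)])],[4,4])],[5],false,1,0,[2,3]),
    (false,[([(2,8,[(5,5),(5,5),(5,5),(2,2)])],[5,5])],[],false,1,0,[2]),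
    (true,[([(2,9,[(5,5),(5,5),(5,5),(2,2),(2,2)])],[4])],[5],false,1,0,[]),
    (false,[([(2,10,[(5,5),(5,5),(5,5),(3,3)])],[5,5])],[],false,1,0,[]),
    (false,[([(0,0,[(6,6)])],[2,2])],[7,6,5],false,3,5,[5,6]),
    (true,[([(0,13,[(6,6),(4,5)])],[3,2])],[5,5,2],true,2,6,[3,4,5]),
    (false,[([(0,13,[(6,6),(4,5)]),(0,3,[(3,3)])],[3])],[6,5],false,2,4,[3]),
    (false,[([(0,13,[(6,6),(4,5)]),(0,0,[(3,3),(3,3)])],[])],[6,5],false,2,2,[3]),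
    (false,[([(0,13,[(6,6),(4,5)]),(0,0,[(3,3),(3,3)])],[]),([(0,3,[(3,3)])],[2,2,2,2])],[],false,1,0,[]),
    (false,[([(0,13,[(6,6),(4,5)]),(0,0,[(4,4)])],[])],[6,5],false,2,3,[4]),
    (true,[([(0,10,[(6,6),(4,5),(3,4)])],[3]),([(0,4,[(4,4)])],[2,2,2])],[],false,1,0,[2]),
    (false,[([(0,13,[(6,6),(4,5)]),(0,0,[(3,4),(2,2)])],[]),([(0,4,[(4,4)])],[2,2,2,1])],[],false,1,0,[]),
    (false,[([(0,13,[(6,6),(4,5)]),(0,0,[(5,5)])],[])],[6,5],false,2,2,[3]),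
    (false,[([(0,13,[(6,6),(4,5)]),(0,0,[(5,5)])],[]),([(0,3,[(3,3)])],[2,2,2,2])],[],false,1,0,[]),
    (true,[([(0,0,[(6,6)]),(0,0,[(6,6)])],[])],[5,5,5,1],true,2,4,[3,5]),
    (false,[([(0,10,[(6,6),(6,6),(3,3)])],[4,4])],[5],false,1,0,[2,3]),
    (false,[([(0,8,[(6,6),(3,3)]),(0,2,[(6,6),(2,2)])],[])],[5,5],false,1,0,[2]),
    (true,[([(2,11,[(6,6),(6,6),(3,3),(2,2),(2,2)])],[4])],[5],false,1,0,[]),
    (false,[([(2,12,[(6,6),(6,6),(3,3),(3,3)])],[5,5])],[],false,1,0,[]),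
    (false,[([(0,13,[(6,6),(4,5)]),(0,0,[(6,6)])],[])],[6,5],false,2,1,[]),
    (true,[([(0,2,[(7,8)])],[2,2])],[6,5,4,1],false,3,5,[4,5,6,8]),
    (true,[([(0,2,[(7,8)]),(0,4,[(4,4)])],[])],[6,5,4,1],false,4,1,[]),
    (false,[([(0,2,[(7,8)]),(0,1,[(5,5)])],[3])],[6,5,1],false,2,4,[3,4,5]),
    (false,[([(0,13,[(7,8),(3,3)]),(0,0,[(5,5)])],[])],[6,5],false,2,2,[3]),
    (false,[([(0,13,[(7,8),(3,3)]),(0,0,[(5,5)])],[]),([(0,3,[(3,3)])],[2,2,2,2])],[],false,1,0,[]),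
    (true,[([(0,10,[(7,8),(5,5)])],[3]),([(0,4,[(4,4)])],[2,2,2])],[],false,1,0,[2]),
    (true,[([(0,10,[(7,8),(5,5),(2,2)])],[3]),([(0,4,[(4,4)])],[2,2,2])],[],false,1,0,[]),
    (false,[([(0,2,[(7,8)]),(0,8,[(5,5),(5,5)])],[])],[5,5],false,1,0,[]),
    (false,[([(0,2,[(7,8)]),(0,0,[(6,6)])],[3])],[5,5,1],true,2,3,[3,4]),
    (false,[([(0,13,[(7,8),(3,3)]),(0,0,[(6,6)])],[])],[6,5],false,2,1,[]),
    (true,[([(0,10,[(7,8),(6,6)])],[3]),([(0,4,[(4,4)])],[2,2,2])],[],false,1,0,[]),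
    (false,[([(0,2,[(7,8)]),(0,2,[(7,8)])],[1])],[5,5,1],true,2,2,[3]),
    (false,[([(0,13,[(7,8),(3,3)]),(0,2,[(7,8)])],[])],[5,4],false,1,0,[]),
    (true,[([(0,13,[(9,11)])],[3,2])],[5,5,2],true,2,6,[3,4,6,7]),
    (false,[([(0,13,[(9,11)]),(0,3,[(3,3)])],[3])],[6,5],false,2,4,[3]),
    (false,[([(0,13,[(9,11)]),(0,0,[(3,3),(3,3)])],[])],[6,5],false,2,2,[3]),
    (false,[([(0,13,[(9,11)]),(0,0,[(3,3),(3,3)])],[]),([(0,3,[(3,3)])],[2,2,2,2])],[],false,1,0,[]),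
    (false,[([(0,13,[(9,11)]),(0,0,[(4,4)])],[])],[6,5],false,2,3,[4]),
    (true,[([(0,10,[(9,11),(3,4)])],[3]),([(0,4,[(4,4)])],[2,2,2])],[],false,1,0,[2]),
    (false,[([(0,13,[(9,11)]),(0,0,[(3,4),(2,2)])],[]),([(0,4,[(4,4)])],[2,2,2,1])],[],false,1,0,[]),
    (false,[([(0,13,[(9,11)]),(0,0,[(5,6)])],[])],[6,5],false,2,2,[3]),
    (false,[([(0,13,[(9,11)]),(0,0,[(5,6)])],[]),([(0,3,[(3,3)])],[2,2,2,2])],[],false,1,0,[]),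
    (false,[([(0,13,[(9,11)]),(0,2,[(7,7)])],[])],[5,4],false,1,0,[]),
    (true,[([(0,9,[(12,13)])],[3])],[6,5,1],false,3,1,[4]),
    (false,[([(0,15,[(12,13),(4,4)])],[4])],[7],false,1,0,[]),
    (false,[([(0,12,[(14,15)])],[4,1])],[7,1],false,2,1,[])]),
  ([7,6,5,5,4,2], [
    (false,[],[7,6,5,5,4,2],false,4,6,[5,6,8,11,14,15]),
    (true,[([(0,1,[(5,5)])],[2])],[6,6,5,5],false,2,10,[3,4,5]),
    (true,[([(0,1,[(5,5)]),(0,3,[(3,3)])],[])],[6,6,5,4],false,3,4,[]),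
    (true,[([(0,0,[(5,5)]),(0,4,[(4,4)])],[2])],[6,5,4,2],false,4,2,[]),
    (true,[([(0,8,[(5,5),(5,5)])],[2,2])],[6,5,4],false,3,4,[4,5]),
    (true,[([(0,8,[(5,5),(5,5)]),(0,4,[(4,4)])],[])],[6,5,4],false,3,3,[4]),
    (true,[([(0,10,[(5,5),(5,5),(4,4)])],[3]),([(0,4,[(4,4)])],[2,2,2,1])],[],false,1,0,[]),
    (true,[([(0,10,[(5,5),(5,5),(5,5)])],[3])],[6,5],false,2,2,[3]),
    (false,[([(2,10,[(5,5),(5,5),(5,5),(3,3)])],[6,5])],[],false,1,0,[]),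
    (false,[([(0,0,[(6,6)])],[3,2])],[7,6,5],false,3,5,[6]),
    (false,[([(0,0,[(6,6)]),(0,0,[(4,6)])],[2])],[6,5,4],false,3,4,[5,6]),
    (true,[([(0,13,[(6,6),(4,5)])],[3,2]),([(0,0,[(4,6)])],[3,2,2])],[],false,1,0,[2,3,4]),
    (true,[([(0,13,[(6,6),(4,5)])],[3,3]),([(0,0,[(4,6)]),(0,3,[(2,2)])],[3])],[],false,1,0,[2]),
    (true,[([(0,13,[(6,6),(4,5)])],[3,3]),([(0,0,[(4,6)]),(1,0,[(2,2),(2,2)])],[])],[],false,1,0,[2]),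
    (true,[([(0,13,[(6,6),(4,5)])],[3,3]),([(0,0,[(4,6)]),(1,0,[(2,2),(2,2),(2,2)])],[])],[],false,1,0,[]),
    (true,[([(0,13,[(6,6),(4,5)])],[3,3]),([(0,0,[(4,6)]),(0,3,[(3,3)])],[3])],[],false,1,0,[2]),
    (true,[([(0,13,[(6,6),(4,5)])],[3,3]),([(0,0,[(4,6)]),(0,0,[(3,3),(2,2)])],[])],[],false,1,0,[]),
    (true,[([(0,13,[(6,6),(4,5)])],[3,2]),([(0,0,[(4,6)]),(0,4,[(4,4)])],[3])],[],false,1,0,[]),
    (false,[([(0,0,[(6,6)]),(0,0,[(4,6)])],[2]),([(0,0,[(6,6)])],[3,3,3])],[],false,1,0,[2]),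
    (false,[([(0,2,[(6,6),(2,2)])],[3,3,1]),([(0,0,[(4,6)]),(0,0,[(6,6)])],[2])],[],false,1,0,[]),
    (false,[([(0,2,[(7,8)])],[2,1])],[7,6,5],false,3,5,[5,7,8]),
    (false,[([(0,2,[(7,8)]),(0,1,[(4,5)])],[3])],[6,5,2],false,3,2,[4,5]),
    (true,[([(0,2,[(7,8)])],[2,2,1]),([(0,8,[(4,5),(4,4)])],[3,3])],[],false,1,0,[3]),
    (true,[([(0,2,[(7,8)]),(0,3,[(2,3)])],[2]),([(0,8,[(4,5),(4,4)])],[3,3])],[],false,1,0,[2]),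
    (true,[([(0,10,[(7,8),(4,5),(2,2)])],[3]),([(0,4,[(4,4)]),(0,3,[(2,3)])],[2,2])],[],false,1,0,[]),
    (true,[([(0,2,[(7,8)])],[2,2,1]),([(0,8,[(4,5),(5,5)])],[3,3])],[],false,1,0,[2]),
    (true,[([(0,2,[(7,8)]),(0,3,[(2,2)])],[2]),([(0,8,[(4,5),(5,5)])],[3,3])],[],false,1,0,[]),
    (true,[([(0,10,[(7,8),(6,7)])],[3])],[6,5],false,2,3,[3,4]),
    (true,[([(0,10,[(7,8),(6,7)])],[3]),([(0,3,[(3,3)])],[2,2,2,2])],[],false,1,0,[2]),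
    (true,[([(0,2,[(7,8)]),(0,3,[(2,2)])],[2]),([(0,8,[(6,7),(3,3)])],[3,3])],[],false,1,0,[]),
    (true,[([(0,10,[(7,8),(6,7)])],[3]),([(0,4,[(4,4)])],[2,2,2,1])],[],false,1,0,[]),
    (true,[([(0,15,[(7,8),(8,8)])],[4])],[6,2],false,2,1,[]),
    (true,[([(0,13,[(9,11)])],[3,2])],[6,5,2],false,2,6,[3,6,7]),
    (true,[([(0,10,[(9,11),(3,3)])],[3])],[6,5],false,2,4,[3]),
    (true,[([(0,10,[(9,11),(3,3)])],[3]),([(0,3,[(3,3)])],[2,2,2,2])],[],false,1,0,[3]),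
    (true,[([(0,13,[(9,11)])],[3,3]),([(0,0,[(3,3),(3,3)]),(0,3,[(2,3)])],[3])],[],false,1,0,[2]),
    (true,[([(0,13,[(9,11)])],[3,3]),([(0,0,[(3,3),(3,3)]),(1,0,[(2,3),(2,2)])],[])],[],false,1,0,[]),
    (true,[([(0,13,[(9,11)])],[3,2]),([(0,0,[(4,6)])],[3,2,2])],[],false,1,0,[2,3,4]),
    (true,[([(0,13,[(9,11)])],[3,3]),([(0,0,[(4,6)]),(0,3,[(2,2)])],[3])],[],false,1,0,[2]),
    (true,[([(0,13,[(9,11)])],[3,3]),([(0,0,[(4,6)]),(1,0,[(2,2),(2,2)])],[])],[],false,1,0,[2]),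
    (true,[([(0,13,[(9,11)])],[3,3]),([(0,0,[(4,6)]),(1,0,[(2,2),(2,2),(2,2)])],[])],[],false,1,0,[]),
    (true,[([(0,13,[(9,11)])],[3,3]),([(0,0,[(4,6)]),(0,3,[(3,3)])],[3])],[],false,1,0,[2]),
    (true,[([(0,13,[(9,11)])],[3,3]),([(0,0,[(4,6)]),(0,0,[(3,3),(2,2)])],[])],[],false,1,0,[]),
    (true,[([(0,13,[(9,11)])],[3,2]),([(0,0,[(4,6)]),(0,4,[(4,4)])],[3])],[],false,1,0,[]),
    (true,[([(0,13,[(9,11)])],[3,2]),([(0,2,[(7,7)])],[2,2,1])],[],false,1,0,[]),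
    (true,[([(0,10,[(12,14)])],[3])],[6,5],false,2,3,[3,4]),
    (true,[([(0,15,[(12,14),(3,3)])],[4])],[6,2],false,2,1,[]),
    (true,[([(0,10,[(12,14)])],[3]),([(0,4,[(4,4)])],[2,2,2,1])],[],false,1,0,[]),
    (false,[([(0,10,[(15,15)])],[5,4])],[5],false,1,0,[])]),
  ([7,6,5,5,4,3], [
    (false,[],[7,6,5,5,4,3],false,5,3,[6,8,9,10,13,15]),
    (false,[([(0,0,[(6,6)])],[3,3])],[7,6,5],false,3,5,[4,6]),
    (true,[([(0,0,[(6,6)]),(0,4,[(4,4)])],[2])],[6,6,4,2],true,3,4,[4]),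
    (true,[([(0,8,[(6,6),(4,4)]),(0,4,[(4,4)])],[])],[6,6,4],false,2,3,[4]),
    (true,[([(0,10,[(6,6),(4,4),(3,4)])],[3]),([(0,4,[(4,4)])],[2,2,2,2])],[],false,1,0,[2]),
    (true,[([(0,8,[(6,6),(3,4)]),(0,4,[(4,4)])],[]),([(0,4,[(4,4)]),(0,3,[(2,2)])],[2,1])],[6],false,1,0,[]),
    (false,[([(0,0,[(6,6)]),(0,0,[(5,6)])],[3])],[6,5,4],false,3,4,[4,6]),
    (true,[([(0,0,[(6,6)]),(0,0,[(5,6)])],[]),([(0,4,[(4,4)])],[2,2,2,1])],[6,1],true,2,2,[3]),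
    (true,[([(0,10,[(6,6),(5,6),(3,3)])],[3]),([(0,4,[(4,4)])],[2,2,2,2])],[],false,1,0,[]),
    (false,[([(0,0,[(6,6)]),(0,0,[(5,6)])],[3]),([(0,0,[(5,6)])],[3,3,3])],[],false,1,0,[2]),
    (false,[([(0,2,[(6,6),(2,2)]),(0,0,[(5,6)])],[]),([(0,0,[(5,6)])],[3,3,3,1])],[],false,1,0,[]),
    (false,[([(0,2,[(7,8)])],[3,1])],[7,6,5],false,3,5,[5,6,8]),
    (false,[([(0,2,[(7,8)]),(0,1,[(4,5)])],[2])],[6,5,4],false,3,4,[4,5]),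
    (true,[([(0,2,[(7,8)])],[2,2,2]),([(0,8,[(4,5),(4,4)])],[3,3])],[],false,1,0,[3]),
    (true,[([(0,2,[(7,8)])],[3,3,3]),([(0,8,[(4,5),(4,4)]),(0,3,[(2,3)])],[])],[],false,1,0,[2]),
    (false,[([(0,2,[(7,8)]),(0,1,[(4,5)])],[]),([(0,4,[(4,4)]),(0,3,[(2,3)]),(0,3,[(2,2)])],[2])],[5],false,1,0,[]),
    (true,[([(0,2,[(7,8)])],[2,2,2]),([(0,8,[(4,5),(5,5)])],[3,3])],[],false,1,0,[2]),
    (true,[([(0,2,[(7,8)])],[3,3,3]),([(0,8,[(4,5),(5,5)]),(0,3,[(2,2)])],[])],[],false,1,0,[]),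
    (false,[([(0,2,[(7,8)]),(0,0,[(6,6)])],[])],[7,5,4],false,3,3,[4]),
    (true,[([(0,10,[(7,8),(6,6)])],[3]),([(0,4,[(4,4)])],[2,2,2,2])],[],false,1,0,[]),
    (true,[([(0,2,[(7,8)]),(0,2,[(7,8)])],[])],[6,5,2,1],false,3,2,[]),
    (true,[([(0,5,[(9,9)])],[3,3,2])],[6,4,2,1],true,4,2,[6,7]),
    (false,[([(0,5,[(9,9)]),(0,0,[(5,6)])],[])],[7,5,3],false,3,2,[]),
    (true,[([(0,5,[(9,9)])],[3,3,2]),([(0,14,[(7,7)])],[3,2])],[],false,1,0,[]),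
    (false,[([(0,8,[(10,10)])],[4,4])],[7,5],false,2,5,[3,5,6]),
    (true,[([(0,9,[(10,10),(3,3)])],[3,2])],[6,5,1],false,3,1,[]),
    (false,[([(0,10,[(10,10),(4,5)])],[5,5])],[5],false,1,0,[3]),
    (true,[([(0,9,[(10,10),(2,3)])],[3,3]),([(0,1,[(4,5)])],[2,2,2])],[],false,1,0,[2]),
    (true,[([(0,9,[(10,10),(2,3)])],[4,4]),([(0,1,[(4,5)]),(0,3,[(2,2)])],[1])],[],false,1,0,[]),
    (false,[([(2,13,[(10,10),(6,6)])],[6,6])],[],false,1,0,[]),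
    (true,[([(0,9,[(11,13)])],[3,3])],[6,4,1],true,3,2,[5]),
    (true,[([(0,9,[(11,13)])],[3,3]),([(0,1,[(4,5)])],[2,2,2])],[],false,1,0,[2]),
    (true,[([(0,9,[(11,13)])],[4,4]),([(0,1,[(4,5)]),(0,3,[(2,2)])],[1])],[],false,1,0,[]),
    (false,[([(0,12,[(14,15)])],[2])],[7,6],false,2,1,[])]),
  ([7,6,6,4,3,2], [
    (false,[],[7,6,6,4,3,2],false,4,4,[5,6,8,10,13,15]),
    (false,[([(0,1,[(5,5)])],[3,2,1])],[7,6,4],false,1,0,[3,5]),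
    (true,[([(0,1,[(5,5)]),(0,3,[(2,3)])],[2])],[6,5,4,3],false,3,6,[]),
    (true,[([(0,8,[(5,5),(4,5)])],[3,1])],[6,5,3],false,3,3,[4,5]),
    (true,[([(0,16,[(5,5),(4,5),(4,4)])],[4])],[6,4],false,2,4,[3,4]),
    (true,[([(0,16,[(5,5),(4,5),(4,4)])],[4]),([(0,3,[(3,3)])],[2,2,2,1])],[],false,1,0,[3]),
    (true,[([(0,16,[(5,5),(4,5),(4,4)])],[4]),([(0,3,[(3,3)]),(0,3,[(2,3)])],[2,2])],[],false,1,0,[2]),
    (true,[([(0,10,[(5,5),(4,5),(4,4)])],[4]),([(0,3,[(3,3)]),(0,3,[(2,3)]),(0,3,[(2,2)])],[])],[],false,1,0,[]),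
    (true,[([(0,16,[(5,5),(4,5),(4,4)])],[4]),([(0,4,[(4,4)])],[2,2,1,1])],[],false,1,0,[2]),
    (true,[([(0,16,[(5,5),(4,5),(4,4)])],[4]),([(0,4,[(4,4)]),(0,3,[(2,2)])],[2,1])],[],false,1,0,[]),
    (true,[([(0,10,[(5,5),(4,5),(5,5)])],[4])],[6,3],false,2,3,[3,4]),
    (true,[([(0,10,[(5,5),(4,5),(5,5)])],[4]),([(0,3,[(3,3)])],[2,2,1,1])],[],false,1,0,[2]),
    (true,[([(0,10,[(5,5),(4,5),(5,5)])],[4]),([(0,3,[(3,3)]),(0,3,[(2,2)])],[2,1])],[],false,1,0,[]),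
    (true,[([(0,10,[(5,5),(4,5),(5,5)])],[4]),([(0,4,[(4,4)])],[2,1,1,1])],[],false,1,0,[]),
    (true,[([(0,0,[(6,6)])],[2,1,1])],[6,5,4,3],false,4,3,[6]),
    (false,[([(0,0,[(6,6)]),(0,0,[(5,6)])],[])],[7,6,3],false,3,3,[5,6]),
    (true,[([(0,13,[(6,6),(4,5)])],[1,1]),([(0,0,[(5,6)])],[3,3,3])],[],false,1,0,[3]),
    (true,[([(0,13,[(6,6),(4,5)]),(0,3,[(2,3)])],[]),([(0,0,[(5,6)])],[3,3,2])],[],false,1,0,[2]),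
    (false,[([(0,2,[(6,6),(2,2)]),(0,0,[(5,6)])],[3]),([(0,1,[(4,5)]),(0,3,[(2,3)])],[3])],[],false,1,0,[]),
    (false,[([(0,0,[(6,6)]),(0,0,[(5,6)])],[]),([(0,0,[(6,6)])],[3,3,2,2])],[],false,1,0,[]),
    (false,[([(0,2,[(7,8)])],[1,1,1])],[7,6,4],false,3,4,[6,8]),
    (true,[([(0,2,[(7,8)]),(0,0,[(4,6)])],[])],[6,4,3,1],false,4,1,[6]),
    (false,[([(0,2,[(7,8)]),(0,0,[(4,6)])],[2]),([(0,0,[(5,6)])],[3,2,1])],[],false,1,0,[2]),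
    (true,[([(0,2,[(7,8)]),(0,0,[(4,6)])],[]),([(0,14,[(5,6),(2,2)])],[3,3])],[],false,1,0,[]),
    (false,[([(0,2,[(7,8)]),(0,2,[(7,8)])],[])],[7,3,2],false,3,2,[]),
    (true,[([(0,8,[(9,10)])],[3,1])],[6,5,3],false,3,3,[5,7]),
    (true,[([(0,10,[(9,10),(4,5)])],[4])],[6,3],false,2,3,[3,4]),
    (false,[([(0,9,[(9,10),(3,3)]),(0,0,[(4,5)])],[])],[6,3],false,2,1,[]),
    (true,[([(0,10,[(9,10),(4,5)])],[4]),([(0,4,[(4,4)])],[2,1,1,1])],[],false,1,0,[]),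
    (true,[([(0,15,[(9,10),(6,7)])],[2])],[6,3],false,2,1,[]),
    (true,[([(0,9,[(11,13)])],[4,1])],[6,3,1],true,3,3,[5]),
    (false,[([(0,9,[(11,13)]),(0,0,[(4,5)])],[])],[6,3],false,2,1,[]),
    (true,[([(0,10,[(14,15)])],[4])],[6,3],false,2,1,[])])]

theorem cj5d_0_ok : runAllJ S38 R38 F38 14 cj5d_0 = true := by decide +kernel

noncomputable def cj5d_1 : List (List ℕ × List NdJ) := [
  ([7,6,6,5,2,2,1], [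
    (false,[],[7,6,6,5,2,2,1],false,4,5,[6,8,11,15]),
    (false,[([(0,0,[(5,6)])],[1,1,1])],[7,6,5,2],false,3,6,[4,5,6]),
    (false,[([(0,0,[(5,6)]),(0,4,[(4,4)])],[2])],[7,6,2,2],false,3,4,[4]),
    (false,[([(0,8,[(5,6),(4,4)]),(0,4,[(4,4)])],[])],[7,6,2],false,3,2,[4]),
    (false,[([(0,16,[(5,6),(4,4),(4,4)]),(0,4,[(4,4)])],[])],[6,5],false,2,1,[]),
    (false,[([(0,0,[(5,6)]),(0,0,[(5,5)])],[2])],[6,6,2,1],true,3,3,[4,5]),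
    (false,[([(0,10,[(5,6),(5,5),(4,4)])],[3,3])],[6,2],true,2,3,[4]),
    (false,[([(0,10,[(5,6),(5,5),(3,4)])],[3,3]),([(0,4,[(4,4)])],[1,1,1,1])],[],false,1,0,[2]),
    (true,[([(0,8,[(5,6),(3,4)]),(0,1,[(5,5)])],[]),([(0,4,[(4,4)]),(0,3,[(2,2)])],[2,1])],[4],false,1,0,[]),
    (false,[([(0,0,[(5,6)])],[1,1,1]),([(0,8,[(5,5),(5,5)])],[4,3,3])],[],false,1,0,[2,3]),
    (true,[([(0,0,[(5,6)]),(0,1,[(5,5)])],[3]),([(0,0,[(5,5)]),(0,3,[(2,2)])],[2])],[4],false,1,0,[2]),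
    (true,[([(0,8,[(5,6),(2,2),(2,2)]),(0,1,[(5,5)])],[]),([(0,1,[(5,5)])],[3,3,3])],[],false,1,0,[]),
    (true,[([(0,8,[(5,6),(3,3)]),(0,1,[(5,5)])],[]),([(0,1,[(5,5)])],[3,3,3])],[],false,1,0,[]),
    (false,[([(0,0,[(5,6)]),(0,0,[(6,6)])],[2])],[6,6,2,1],true,3,3,[5,6]),
    (false,[([(0,0,[(5,6)])],[1,1]),([(0,13,[(6,6),(4,5)])],[4,3,3])],[],false,1,0,[3]),
    (false,[([(0,0,[(5,6)]),(0,0,[(6,6)])],[2]),([(0,1,[(4,5)]),(0,3,[(2,3)])],[1])],[6],false,1,0,[2]),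
    (true,[([(0,0,[(5,6)]),(0,3,[(2,3)])],[2]),([(0,2,[(6,6),(2,2)]),(0,1,[(4,5)])],[1])],[4],false,1,0,[]),
    (false,[([(0,0,[(5,6)]),(0,0,[(6,6)])],[2]),([(0,0,[(6,6)])],[1,1,1])],[6],false,1,0,[]),
    (false,[([(0,2,[(7,8)])],[2,2,1])],[7,6,2,1],true,3,4,[6,8]),
    (true,[([(0,2,[(7,8)]),(0,0,[(4,6)])],[3])],[4,4,3,1],true,3,2,[5,6]),
    (true,[([(0,2,[(7,8)]),(0,0,[(4,6)])],[3]),([(0,0,[(4,5)])],[2])],[4],false,1,0,[3]),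
    (true,[([(0,2,[(7,8)]),(0,1,[(4,5)])],[]),([(0,0,[(4,6)]),(0,3,[(2,3)])],[2,1])],[4],false,1,0,[2]),
    (true,[([(0,2,[(7,8)]),(0,1,[(4,5)])],[]),([(0,0,[(4,6)]),(0,3,[(2,3)]),(0,3,[(2,2)])],[])],[4],false,1,0,[]),
    (true,[([(0,2,[(7,8)]),(0,0,[(4,6)])],[3]),([(0,0,[(6,6)])],[2])],[4],false,1,0,[]),
    (true,[([(0,2,[(7,8)]),(0,2,[(7,8)])],[1])],[4,4,3,1],false,3,1,[]),
    (true,[([(0,13,[(9,11)])],[3,1])],[7,4,3],false,3,3,[5,6,7]),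
    (true,[([(0,13,[(9,11)]),(0,1,[(4,5)])],[])],[6,4,3],false,3,3,[4]),
    (true,[([(0,13,[(9,11)]),(0,1,[(4,5)])],[]),([(0,4,[(4,4)])],[2,1])],[6],false,1,0,[]),
    (false,[([(0,15,[(9,11),(6,6)])],[5,4])],[2,1],false,2,1,[]),
    (false,[([(0,13,[(9,11)]),(0,2,[(7,7)])],[])],[6,2,2],false,1,0,[]),
    (false,[([(0,10,[(12,15)])],[3,3])],[6,2],true,2,3,[3,4]),
    (false,[([(0,10,[(12,15)])],[3,3]),([(0,3,[(3,3)])],[2,1,1,1])],[],false,1,0,[2]),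
    (false,[([(0,10,[(12,15)])],[3,3]),([(0,3,[(3,3)]),(0,3,[(2,2)])],[1,1])],[],false,1,0,[]),
    (false,[([(0,10,[(12,15)])],[3,3]),([(0,4,[(4,4)])],[1,1,1,1])],[],false,1,0,[])]),
  ([7,6,6,5,3,1], [
    (false,[],[7,6,6,5,3,1],false,4,4,[5,6,8,10,13,15]),
    (true,[([(0,0,[(5,5)])],[2])],[6,5,5,4],false,2,10,[3,4,5]),
    (false,[([(0,1,[(5,5)]),(0,3,[(3,3)])],[2])],[7,6,5],false,3,5,[]),
    (true,[([(0,0,[(5,5)]),(0,4,[(4,4)])],[])],[6,5,4,3],false,4,3,[]),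
    (true,[([(0,8,[(5,5),(5,5)])],[3])],[6,5,4],false,3,4,[4,5]),
    (true,[([(0,10,[(5,5),(5,5),(4,4)])],[4])],[5,4],false,2,3,[4]),
    (true,[([(0,10,[(5,5),(5,5),(3,4)])],[4]),([(0,4,[(4,4)])],[2,2,1])],[],false,1,0,[2]),
    (true,[([(0,10,[(5,5),(5,5),(3,4)])],[4]),([(0,4,[(4,4)]),(0,3,[(2,2)])],[2])],[],false,1,0,[]),
    (true,[([(0,10,[(5,5),(5,5),(5,5)])],[4])],[5,4],false,2,2,[3]),
    (true,[([(2,10,[(5,5),(5,5),(5,5),(3,3)])],[5])],[5],false,1,0,[]),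
    (true,[([(0,0,[(6,6)])],[2,2])],[6,5,4,3],false,4,3,[5,6]),
    (true,[([(0,13,[(6,6),(5,5)])],[2])],[6,5,4],false,3,4,[4,5]),
    (true,[([(0,10,[(6,6),(5,5),(4,4)])],[4])],[5,4],false,2,2,[3]),
    (true,[([(0,10,[(6,6),(5,5),(4,4)])],[4]),([(0,3,[(3,3)])],[2,2,2])],[],false,1,0,[]),
    (true,[([(3,14,[(6,6),(5,5),(5,5)])],[])],[5,4],false,2,1,[]),
    (true,[([(0,10,[(6,6),(6,6)])],[4])],[5,4],false,2,4,[3,5]),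
    (true,[([(0,10,[(6,6),(6,6),(3,3)])],[4])],[5,4],false,2,2,[3]),
    (true,[([(2,12,[(6,6),(6,6),(3,3),(3,3)])],[5])],[5],false,1,0,[]),
    (true,[([(0,13,[(6,6),(4,5)])],[2]),([(0,0,[(6,6)])],[3,3,3])],[],false,1,0,[2]),
    (false,[([(0,13,[(6,6),(4,5)]),(0,2,[(6,6),(2,2)])],[])],[6,3],false,1,0,[]),
    (true,[([(0,2,[(7,8)])],[3,1])],[6,5,4,1],false,3,5,[4,6,7,8]),
    (false,[([(0,2,[(7,8)]),(0,4,[(4,4)])],[3])],[7,5,1],true,3,2,[4]),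
    (true,[([(0,2,[(7,8)])],[3]),([(0,4,[(4,4)]),(0,4,[(4,4)])],[2])],[6,1],true,2,2,[3]),
    (true,[([(0,10,[(7,8),(4,4),(3,3)])],[4]),([(0,4,[(4,4)])],[2,2,1])],[],false,1,0,[]),
    (true,[([(0,10,[(7,8),(5,6)])],[4])],[5,4],false,2,4,[3,4,5]),
    (true,[([(0,2,[(7,8)]),(0,0,[(5,6)])],[]),([(0,3,[(3,3)])],[1,1])],[5,4],false,2,2,[3]),
    (false,[([(0,2,[(7,8)]),(0,0,[(5,6)])],[]),([(0,0,[(3,3),(3,3)])],[2,2,2,2])],[],false,1,0,[]),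
    (true,[([(0,2,[(7,8)]),(0,0,[(5,6)])],[]),([(0,4,[(4,4)])],[2,2])],[5,1],false,2,1,[]),
    (false,[([(0,2,[(7,8)]),(0,0,[(5,6)])],[]),([(0,0,[(5,5)])],[2,2,2,2])],[],false,1,0,[]),
    (true,[([(0,10,[(7,8),(7,7)])],[4])],[5,4],false,2,2,[3]),
    (true,[([(0,10,[(7,8),(7,7)])],[4]),([(0,3,[(3,3)])],[2,2,2])],[],false,1,0,[]),
    (true,[([(0,15,[(7,8),(8,8)])],[])],[6,5],false,2,1,[]),
    (true,[([(0,8,[(9,10)])],[3])],[6,5,4],false,3,4,[5,7]),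
    (true,[([(0,10,[(9,10),(4,5)])],[4])],[5,4],false,2,3,[3,4]),
    (true,[([(0,10,[(9,10),(4,5)])],[4]),([(0,3,[(3,3)])],[2,2,2])],[],false,1,0,[2]),
    (true,[([(0,9,[(9,10),(3,3)])],[4]),([(0,0,[(4,5)]),(0,3,[(2,2)])],[2])],[],false,1,0,[]),
    (true,[([(0,10,[(9,10),(4,5)])],[4]),([(0,4,[(4,4)])],[2,2,1])],[],false,1,0,[]),
    (true,[([(0,15,[(9,10),(6,7)])],[])],[6,5],false,2,1,[]),
    (true,[([(0,9,[(11,13)])],[4])],[6,4,1],true,3,2,[5]),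
    (true,[([(0,9,[(11,13)])],[4]),([(0,1,[(4,5)])],[2,2,2])],[],false,1,0,[2]),
    (true,[([(0,9,[(11,13)])],[4]),([(0,0,[(4,5)]),(0,3,[(2,2)])],[2])],[],false,1,0,[]),
    (true,[([(0,10,[(14,15)])],[4])],[5,4],false,2,1,[])]),
  ([7,6,6,5,4,2], [
    (false,[],[7,6,6,5,4,2],false,4,5,[5,6,8,10,13,15]),
    (true,[([(0,1,[(5,5)])],[2,2,1])],[6,5,5,4],false,2,10,[3,4,5]),
    (true,[([(0,1,[(5,5)]),(0,3,[(3,3)])],[2])],[6,5,5,4],false,3,4,[]),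
    (true,[([(0,0,[(5,5)]),(0,4,[(4,4)])],[2])],[6,5,4,3],false,4,3,[]),
    (true,[([(0,8,[(5,5),(5,5)])],[3,2])],[6,5,4],false,3,4,[4,5]),
    (true,[([(0,10,[(5,5),(5,5),(4,4)])],[4])],[6,5],false,2,3,[4]),
    (true,[([(0,10,[(5,5),(5,5),(3,4)])],[4]),([(0,4,[(4,4)])],[2,2,2,1])],[],false,1,0,[2]),
    (true,[([(0,10,[(5,5),(5,5),(3,4)])],[4]),([(0,4,[(4,4)]),(0,3,[(2,2)])],[2,2])],[],false,1,0,[]),
    (true,[([(0,10,[(5,5),(5,5),(5,5)])],[4])],[6,5],false,2,2,[3]),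
    (false,[([(2,15,[(5,5),(5,5),(5,5),(3,3)])],[6,5])],[],false,1,0,[]),
    (true,[([(0,0,[(6,6)])],[2,2,2])],[6,5,4,3],false,4,3,[6]),
    (false,[([(0,0,[(6,6)]),(0,0,[(5,6)])],[])],[7,6,5],false,3,5,[5,6]),
    (true,[([(0,13,[(6,6),(4,5)])],[2,2]),([(0,0,[(5,6)])],[3,3,3])],[],false,1,0,[3]),
    (true,[([(0,13,[(6,6),(4,5)])],[4,4]),([(0,0,[(5,6)]),(0,3,[(2,3)])],[2])],[],false,1,0,[2]),
    (true,[([(0,2,[(6,6),(2,2)]),(0,0,[(5,6)])],[]),([(0,0,[(4,5)]),(0,3,[(2,3)])],[2])],[5],false,1,0,[]),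
    (false,[([(0,0,[(6,6)]),(0,0,[(5,6)])],[]),([(0,0,[(6,6)])],[3,3,3,3])],[],false,1,0,[]),
    (false,[([(0,2,[(7,8)])],[2,1,1])],[7,6,5],false,3,5,[6,8]),
    (true,[([(0,2,[(7,8)]),(0,0,[(4,6)])],[])],[6,5,4,1],false,4,1,[6]),
    (false,[([(0,2,[(7,8)]),(0,0,[(4,6)])],[3]),([(0,0,[(5,6)])],[3,2,2])],[],false,1,0,[2]),
    (true,[([(0,2,[(7,8)]),(0,0,[(4,6)])],[]),([(0,0,[(5,6)]),(0,3,[(2,2)])],[2])],[5],false,1,0,[]),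
    (false,[([(0,2,[(7,8)]),(0,2,[(7,8)])],[])],[7,5,2],false,3,2,[]),
    (true,[([(0,8,[(9,10)])],[3,2])],[6,5,4],false,3,4,[5,7]),
    (true,[([(0,10,[(9,10),(4,5)])],[4])],[6,5],false,2,3,[3,4]),
    (false,[([(0,9,[(9,10),(3,3)]),(0,0,[(4,5)])],[])],[6,5],false,2,1,[]),
    (true,[([(0,10,[(9,10),(4,5)])],[4]),([(0,4,[(4,4)])],[2,2,2,1])],[],false,1,0,[]),
    (true,[([(0,15,[(9,10),(6,7)])],[2])],[6,5],false,2,1,[]),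
    (true,[([(0,9,[(11,13)])],[4,4])],[5,3,1],true,3,2,[5]),
    (false,[([(0,9,[(11,13)]),(0,0,[(4,5)])],[])],[6,5],false,2,1,[]),
    (true,[([(0,10,[(14,15)])],[4])],[6,5],false,2,1,[])]),
  ([7,6,6,5,4,3], [
    (false,[],[7,6,6,5,4,3],false,5,3,[6,8,9,11,13,15]),
    (false,[([(0,0,[(6,6)])],[3,3,1])],[7,6,5],false,3,5,[4,5,6]),
    (false,[([(0,0,[(6,6)]),(0,4,[(4,4)])],[3,3])],[6,5,4],false,3,4,[4]),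
    (true,[([(0,13,[(6,6),(4,4)]),(0,4,[(4,4)])],[])],[6,6,4],false,2,3,[4]),
    (true,[([(0,10,[(6,6),(4,4),(3,4)])],[4]),([(0,4,[(4,4)])],[2,2,2,2])],[],false,1,0,[2]),
    (false,[([(0,8,[(6,6),(3,4)])],[4,4]),([(0,4,[(4,4)]),(0,4,[(4,4)]),(0,3,[(2,2)])],[2])],[],false,1,0,[]),
    (true,[([(0,13,[(6,6),(5,5)])],[2,1])],[6,6,5],false,2,5,[3,4,5]),
    (true,[([(0,13,[(6,6),(5,5)]),(0,3,[(3,3)])],[])],[6,6,5],false,2,3,[3]),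
    (true,[([(0,13,[(6,6),(5,5)]),(0,3,[(3,3)])],[]),([(0,3,[(3,3)])],[2,2,2,2])],[6],false,1,0,[2]),
    (true,[([(0,13,[(6,6),(5,5)])],[3,2]),([(0,3,[(3,3)]),(0,3,[(3,3)]),(0,3,[(2,2)])],[])],[6],false,1,0,[]),
    (true,[([(0,13,[(6,6),(5,5)]),(0,4,[(4,4)])],[])],[6,6,4],false,2,2,[3]),
    (true,[([(0,10,[(6,6),(5,5),(3,3)])],[4]),([(0,4,[(4,4)])],[2,2,2,2])],[],false,1,0,[]),
    (false,[([(2,14,[(6,6),(5,5),(5,5)])],[6,6])],[],false,1,0,[2]),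
    (true,[([(0,2,[(6,6),(2,2)])],[3,2,2]),([(0,8,[(5,5),(5,5)])],[3,3])],[],false,1,0,[]),
    (false,[([(0,0,[(6,6)]),(0,0,[(6,6)])],[3])],[6,6,4],false,2,4,[3,4,5]),
    (false,[([(0,10,[(6,6),(6,6),(3,3)])],[5,5])],[6],false,1,0,[3]),
    (false,[([(0,0,[(6,6)]),(0,0,[(6,6)])],[3]),([(0,3,[(3,3)]),(0,3,[(2,3)])],[2,2])],[6],false,1,0,[2]),
    (false,[([(0,2,[(6,6),(2,2)]),(0,0,[(6,6)])],[]),([(0,0,[(3,3),(2,3)])],[3,3,3,2])],[],false,1,0,[]),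
    (true,[([(0,10,[(6,6),(6,6)])],[4]),([(0,4,[(4,4)])],[2,2,2,2])],[],false,1,0,[2]),
    (true,[([(0,10,[(6,6),(6,6),(2,2)])],[4]),([(0,4,[(4,4)])],[2,2,2,2])],[],false,1,0,[]),
    (false,[([(2,16,[(6,6),(6,6),(5,5)])],[6,6])],[],false,1,0,[]),
    (false,[([(0,2,[(7,8)])],[3,1,1])],[7,6,5],false,3,5,[6,8]),
    (false,[([(0,2,[(7,8)]),(0,0,[(4,6)])],[])],[7,6,4],false,3,4,[4,6]),
    (true,[([(0,2,[(7,8)]),(0,0,[(4,6)])],[]),([(0,4,[(4,4)])],[2,2,1,1])],[6,1],true,2,2,[3]),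
    (false,[([(0,2,[(7,8)]),(0,0,[(4,6)])],[]),([(0,4,[(4,4)]),(0,3,[(3,3)])],[2,1])],[7],false,1,0,[]),
    (false,[([(0,2,[(7,8)]),(0,0,[(4,6)])],[]),([(0,0,[(5,6)])],[3,3,3,2])],[],false,1,0,[2]),
    (true,[([(0,2,[(7,8)]),(0,0,[(4,6)])],[]),([(0,0,[(5,6)]),(0,3,[(2,2)])],[2])],[6],false,1,0,[]),
    (false,[([(0,2,[(7,8)]),(0,2,[(7,8)])],[])],[7,5,3],false,3,2,[]),
    (true,[([(0,5,[(9,9)])],[3,3,2])],[6,4,3,1],true,4,2,[6,7]),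
    (false,[([(0,5,[(9,9)]),(0,0,[(5,6)])],[])],[7,6,3],false,3,2,[]),
    (false,[([(0,15,[(9,9),(7,7)])],[5,5])],[4],false,1,0,[]),
    (true,[([(0,13,[(10,11)])],[2,1])],[6,6,5],false,2,5,[3,4,6]),
    (true,[([(0,13,[(10,11)]),(0,3,[(3,3)])],[])],[6,6,5],false,2,3,[3]),
    (false,[([(0,15,[(10,11),(3,3),(3,3)])],[5,5])],[4],false,1,0,[2]),
    (true,[([(0,9,[(10,11),(2,2)])],[4,2]),([(0,0,[(3,3),(3,3)])],[2,2,2])],[],false,1,0,[]),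
    (true,[([(0,13,[(10,11)]),(0,4,[(4,4)])],[])],[6,6,4],false,2,2,[3]),
    (true,[([(0,10,[(10,11),(3,3)])],[4]),([(0,4,[(4,4)])],[2,2,2,2])],[],false,1,0,[]),
    (false,[([(0,15,[(10,11),(5,6)])],[5,5])],[4],false,1,0,[2]),
    (true,[([(0,9,[(10,11),(2,2)])],[4,2]),([(0,0,[(5,6)])],[2,2,2])],[],false,1,0,[]),
    (true,[([(0,9,[(12,13)])],[4,2])],[6,5,1],false,3,1,[4]),
    (false,[([(0,15,[(12,13),(4,4)])],[5,5])],[4],false,1,0,[]),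
    (false,[([(0,12,[(14,15)])],[2,1])],[7,6],false,2,1,[])]),
  ([7,7,5,4,3,2], [
    (false,[],[7,7,5,4,3,2],true,5,3,[6,8,11,15]),
    (true,[([(0,0,[(6,6)])],[3,1])],[6,6,4,2],true,3,4,[6]),
    (true,[([(0,0,[(6,6)]),(0,0,[(4,6)])],[])],[6,5,3,2],false,4,2,[6]),
    (false,[([(0,0,[(6,6)]),(0,0,[(4,6)])],[1]),([(0,0,[(5,6)])],[3,3,2,1])],[],false,1,0,[3]),
    (true,[([(0,8,[(6,6),(2,3)])],[4,2]),([(0,0,[(4,6)]),(0,0,[(5,6)])],[])],[],false,1,0,[2]),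
    (false,[([(0,2,[(6,6),(2,2)]),(0,0,[(4,6)])],[1]),([(0,0,[(5,6)]),(0,3,[(2,3)])],[3,1])],[],false,1,0,[]),
    (true,[([(0,2,[(7,8)])],[1,1,1])],[6,5,4,2],false,4,2,[6,8]),
    (false,[([(0,2,[(7,8)]),(0,0,[(5,6)])],[1])],[7,4,2],false,3,2,[5]),
    (false,[([(0,2,[(7,8)]),(0,0,[(5,6)])],[1]),([(0,1,[(4,5)])],[3,2,2,1])],[],false,1,0,[2]),
    (true,[([(0,8,[(7,8),(2,2)])],[4,3]),([(0,0,[(5,6)]),(0,1,[(4,5)])],[])],[],false,1,0,[]),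
    (false,[([(0,2,[(7,8)]),(0,2,[(7,8)])],[2])],[5,3,2],false,3,2,[]),
    (false,[([(0,13,[(9,11)])],[4,2,1])],[7,3],false,1,0,[2,4,5,6,7]),
    (false,[([(0,13,[(9,11)]),(0,3,[(2,2)])],[4])],[7,3],false,1,0,[2]),
    (true,[([(0,10,[(9,11),(2,2),(2,2)])],[5])],[6,2],true,2,4,[]),
    (true,[([(0,10,[(9,11),(3,4)])],[5])],[6,2],true,2,4,[3,4]),
    (true,[([(0,10,[(9,11),(3,4)])],[5]),([(0,3,[(3,3)])],[2,1,1,1])],[],false,1,0,[2,3]),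
    (true,[([(0,10,[(9,11),(3,4)])],[5]),([(0,3,[(3,3)]),(0,3,[(2,2)])],[1,1])],[],false,1,0,[2]),
    (true,[([(0,13,[(9,11)])],[4,2]),([(0,0,[(3,4),(2,2)]),(0,1,[(3,3),(2,2)])],[])],[],false,1,0,[]),
    (true,[([(0,10,[(9,11),(3,4)])],[5]),([(0,3,[(3,3)]),(0,3,[(3,3)])],[1,1])],[],false,1,0,[]),
    (true,[([(0,10,[(9,11),(3,4)])],[5]),([(0,4,[(4,4)])],[1,1,1,1])],[],false,1,0,[2]),
    (true,[([(0,13,[(9,11)])],[4,2]),([(0,0,[(3,4),(2,2)]),(0,1,[(4,4)])],[])],[],false,1,0,[]),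
    (true,[([(0,13,[(9,11)])],[4,2]),([(0,1,[(5,5)])],[3,2,1])],[],false,1,0,[3]),
    (true,[([(0,13,[(9,11)])],[4,2]),([(0,1,[(5,5)]),(0,3,[(2,3)])],[3])],[],false,1,0,[2]),
    (true,[([(0,13,[(9,11)])],[4,2]),([(0,1,[(5,5)]),(1,0,[(2,3),(2,2)])],[])],[],false,1,0,[]),
    (true,[([(0,13,[(9,11)])],[4,2]),([(0,0,[(6,6)])],[3,1,1])],[],false,1,0,[2]),
    (true,[([(0,13,[(9,11)])],[4,2]),([(0,2,[(6,6),(2,2)])],[1,1,1])],[],false,1,0,[]),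
    (true,[([(0,13,[(9,11)])],[4,2]),([(0,2,[(7,7)])],[1,1,1])],[],false,1,0,[]),
    (true,[([(0,10,[(12,15)])],[5])],[6,2],true,2,3,[3,4]),
    (true,[([(0,10,[(12,15)])],[5]),([(0,3,[(3,3)])],[2,1,1,1])],[],false,1,0,[2]),
    (true,[([(0,10,[(12,15)])],[5]),([(0,3,[(3,3)]),(0,3,[(2,2)])],[1,1])],[],false,1,0,[]),
    (true,[([(0,10,[(12,15)])],[5]),([(0,4,[(4,4)])],[1,1,1,1])],[],false,1,0,[])]),
  ([7,7,6,3,3,2,1], [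
    (false,[],[7,7,6,3,3,2,1],true,4,6,[6,9,11,15]),
    (false,[([(0,0,[(5,6)])],[])],[7,7,6,3],true,2,10,[3,5,6]),
    (false,[([(0,0,[(5,6)]),(0,3,[(3,3)])],[1,1])],[7,6,3,2],false,3,5,[]),
    (false,[([(0,0,[(5,6)]),(0,1,[(4,5)])],[])],[7,7,3,1],true,3,4,[4,5]),
    (false,[([(0,10,[(5,6),(4,5),(4,4)])],[2,2])],[7,3],true,2,4,[4]),
    (false,[([(0,8,[(5,6),(3,4)]),(0,4,[(4,4)])],[2]),([(0,1,[(4,5)])],[3,3,1,1])],[],false,1,0,[3]),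
    (false,[([(0,8,[(5,6),(3,4)]),(0,4,[(4,4)])],[3]),([(0,1,[(4,5)]),(0,3,[(2,3)])],[3,1])],[],false,1,0,[2]),
    (false,[([(0,8,[(5,6),(3,4)]),(0,4,[(4,4)])],[3]),([(0,1,[(4,5)]),(1,0,[(2,3),(2,2)])],[1])],[],false,1,0,[]),
    (false,[([(0,0,[(5,6)])],[2,1,1,1]),([(0,8,[(4,5),(5,5)])],[4,2,2])],[],false,1,0,[2,4]),
    (false,[([(0,0,[(5,6)]),(0,3,[(2,2)])],[1,1]),([(0,8,[(4,5),(5,5)])],[4,2,2])],[],false,1,0,[2]),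
    (false,[([(0,8,[(5,6),(2,2),(2,2)])],[2,2,2]),([(0,1,[(4,5)]),(0,1,[(5,5)])],[3])],[],false,1,0,[2]),
    (true,[([(0,0,[(5,6)]),(0,1,[(4,5)])],[]),([(0,0,[(5,5)]),(1,0,[(2,2),(2,2),(2,2)])],[3])],[3],false,1,0,[]),
    (false,[([(0,8,[(5,6),(3,4)])],[2,2,2]),([(0,1,[(4,5)]),(0,1,[(5,5)])],[3])],[],false,1,0,[2]),
    (true,[([(0,0,[(5,6)]),(0,1,[(4,5)])],[]),([(0,0,[(5,5)]),(0,0,[(3,4),(2,2)])],[3])],[3],false,1,0,[]),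
    (true,[([(0,0,[(5,6)]),(0,0,[(6,6)])],[3])],[6,3,3,2],false,3,2,[5,6]),
    (false,[([(0,0,[(5,6)])],[3,1,1,1]),([(0,13,[(6,6),(4,5)])],[2,2,2])],[],false,1,0,[3]),
    (false,[([(0,0,[(5,6)]),(0,1,[(4,5)])],[1]),([(0,8,[(6,6),(2,3)])],[3,2,2])],[],false,1,0,[2]),
    (false,[([(0,0,[(5,6)]),(0,2,[(6,6),(2,2)])],[2]),([(0,1,[(4,5)]),(0,3,[(2,3)])],[1,1])],[3],false,1,0,[]),
    (false,[([(0,17,[(5,6),(6,6),(6,6)])],[4])],[7],false,1,0,[]),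
    (false,[([(0,8,[(7,9)])],[1,1])],[7,7,3],true,2,8,[3,4,6,8,9]),
    (true,[([(0,8,[(7,9)]),(0,3,[(3,3)])],[4])],[6,3,3],false,2,6,[3]),
    (false,[([(0,10,[(7,9),(3,3),(3,3)])],[2,2])],[7,3],true,2,4,[3]),
    (false,[([(0,10,[(7,9),(3,3),(3,3)])],[2,2]),([(0,3,[(3,3)])],[2,2,1,1,1])],[],false,1,0,[3]),
    (false,[([(0,10,[(7,9),(3,3),(3,3)])],[2,2]),([(0,3,[(3,3)]),(0,3,[(2,3)])],[2,1,1])],[],false,1,0,[2]),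
    (false,[([(0,10,[(7,9),(3,3),(3,3)])],[2,2]),([(0,3,[(3,3)]),(0,3,[(2,3)]),(0,3,[(2,2)])],[1])],[],false,1,0,[]),
    (false,[([(0,8,[(7,9)]),(0,4,[(4,4)])],[3])],[7,3,2],false,3,2,[4]),
    (false,[([(0,8,[(7,9)]),(0,4,[(4,4)])],[2]),([(0,4,[(4,4)])],[2])],[7],false,1,0,[3]),
    (false,[([(0,8,[(7,9)]),(0,4,[(4,4)])],[2]),([(0,4,[(4,4)]),(0,3,[(2,3)])],[1,1,1])],[3],false,1,0,[2]),
    (false,[([(0,10,[(7,9),(4,4),(2,2)]),(0,4,[(4,4)])],[]),([(0,3,[(2,3)])],[2,2,1,1,1])],[],false,1,0,[]),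
    (false,[([(0,10,[(7,9),(5,6)])],[2,2])],[7,3],true,2,4,[3,4,5]),
    (false,[([(0,10,[(7,9),(5,6)])],[2,2]),([(0,3,[(3,3)])],[2,2,1,1,1])],[],false,1,0,[3]),
    (false,[([(0,10,[(7,9),(5,6)])],[2,2]),([(0,3,[(3,3)]),(0,3,[(2,3)])],[2,1,1])],[],false,1,0,[2]),
    (false,[([(0,10,[(7,9),(5,6)])],[2,2]),([(0,3,[(3,3)]),(0,3,[(2,3)]),(0,3,[(2,2)])],[1])],[],false,1,0,[]),
    (false,[([(0,10,[(7,9),(5,6)]),(0,4,[(4,4)])],[])],[7,3],false,2,1,[]),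
    (false,[([(0,8,[(7,9)])],[3,2,2]),([(0,0,[(5,6)]),(0,1,[(5,5)])],[1])],[],false,1,0,[]),
    (false,[([(0,8,[(7,9)])],[1,1]),([(0,2,[(7,8)])],[3,2,2,2])],[],false,1,0,[3]),
    (false,[([(0,8,[(7,9)])],[1,1,1]),([(0,2,[(7,8)]),(0,3,[(2,3)])],[3,2])],[],false,1,0,[2]),
    (false,[([(0,8,[(7,9)])],[1,1,1]),([(0,2,[(7,8)]),(1,0,[(2,3),(2,2)])],[2])],[],false,1,0,[]),
    (false,[([(0,17,[(7,9),(9,9)])],[4])],[7],false,1,0,[]),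
    (false,[([(0,13,[(10,11)])],[1,1,1])],[7,6,2],false,3,2,[5,6]),
    (false,[([(0,13,[(10,11)])],[2,2,2]),([(0,1,[(4,5)])],[3,2,1,1])],[],false,1,0,[3]),
    (false,[([(0,13,[(10,11)])],[2,2,2]),([(0,1,[(4,5)]),(0,3,[(2,3)])],[3,1])],[],false,1,0,[2]),
    (false,[([(0,9,[(10,11),(2,2)]),(0,3,[(2,3)])],[2]),([(0,1,[(4,5)])],[2,2,1,1])],[],false,1,0,[]),
    (false,[([(0,17,[(10,11),(6,6)])],[4])],[7],false,1,0,[]),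
    (false,[([(0,10,[(12,15)])],[2,2])],[7,3],false,2,3,[3,4]),
    (false,[([(0,10,[(12,15)])],[2,2]),([(0,3,[(3,3)])],[2,2,1,1,1])],[],false,1,0,[2]),
    (false,[([(0,10,[(12,15)])],[2,2]),([(0,3,[(3,3)]),(0,3,[(2,2)])],[2,1,1])],[],false,1,0,[]),
    (false,[([(0,10,[(12,15)]),(0,4,[(4,4)])],[])],[7,3],false,1,0,[])]),
  ([7,7,6,4,3,1], [
    (false,[],[7,7,6,4,3,1],true,4,6,[5,6,8,10,13,15]),
    (false,[([(0,1,[(5,5)])],[2,2,1])],[7,7,4],false,1,0,[3,5]),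
    (false,[([(0,14,[(5,5),(2,3)])],[3,3])],[7,7],false,1,0,[3]),
    (false,[([(0,1,[(5,5)]),(0,3,[(2,3)]),(0,3,[(2,3)])],[])],[7,6,4],false,3,4,[]),
    (true,[([(0,8,[(5,5),(4,5)])],[4])],[6,5,3],false,3,3,[4,5]),
    (true,[([(0,16,[(5,5),(4,5),(4,4)])],[5])],[5,4],false,2,4,[3,4]),
    (true,[([(0,1,[(5,5)]),(0,0,[(4,5)])],[]),([(0,4,[(4,4)]),(0,3,[(3,3)])],[1])],[5,4],false,2,2,[3]),
    (true,[([(0,10,[(5,5),(4,5),(4,4)])],[5]),([(0,3,[(3,3)]),(0,3,[(3,3)])],[2])],[],false,1,0,[]),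
    (true,[([(0,1,[(5,5)]),(0,0,[(4,5)])],[]),([(0,4,[(4,4)]),(0,4,[(4,4)])],[1])],[5,3],false,2,1,[]),
    (true,[([(0,10,[(5,5),(4,5),(5,5)])],[5])],[5,3],false,2,3,[3,4]),
    (true,[([(0,10,[(5,5),(4,5),(5,5)])],[5]),([(0,3,[(3,3)])],[2,2,1])],[],false,1,0,[2]),
    (true,[([(0,10,[(5,5),(4,5),(5,5)])],[5]),([(0,3,[(3,3)]),(0,3,[(2,2)])],[2])],[],false,1,0,[]),
    (true,[([(0,10,[(5,5),(4,5),(5,5)])],[5]),([(0,4,[(4,4)])],[2,1,1])],[],false,1,0,[]),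
    (true,[([(0,0,[(6,6)])],[3,1])],[6,5,4,3],false,4,3,[5,6]),
    (true,[([(0,0,[(6,6)]),(0,1,[(5,5)])],[])],[5,5,4,3],false,3,3,[4,5]),
    (true,[([(0,10,[(6,6),(5,5),(4,4)])],[5])],[5,3],false,2,2,[3]),
    (true,[([(0,10,[(6,6),(5,5),(4,4)])],[5]),([(0,3,[(3,3)])],[2,2,1])],[],false,1,0,[]),
    (true,[([(3,17,[(6,6),(5,5),(5,5)])],[])],[5,3],false,2,1,[]),
    (true,[([(0,16,[(6,6),(6,6)])],[5])],[5,4],false,2,4,[3,5]),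
    (true,[([(0,10,[(6,6),(6,6),(3,3)])],[5])],[5,3],false,2,2,[3]),
    (true,[([(2,18,[(6,6),(6,6),(3,3),(3,3)])],[6])],[3],false,1,0,[]),
    (true,[([(0,13,[(6,6),(4,5)])],[4,4]),([(0,0,[(6,6)])],[3])],[],false,1,0,[2]),
    (true,[([(0,13,[(6,6),(4,5)])],[4,4]),([(0,2,[(6,6),(2,2)])],[1])],[],false,1,0,[]),
    (true,[([(0,2,[(7,8)])],[1,1])],[6,5,4,3],false,4,3,[6,8]),
    (true,[([(0,2,[(7,8)]),(0,0,[(5,6)])],[])],[5,4,3,2],false,4,2,[5]),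
    (false,[([(0,2,[(7,8)]),(0,0,[(5,6)])],[2]),([(0,1,[(5,5)])],[2,2,2,1])],[],false,1,0,[]),
    (false,[([(0,2,[(7,8)]),(0,2,[(7,8)])],[1])],[7,3,1],false,3,1,[]),
    (true,[([(0,8,[(9,10)])],[4])],[6,5,3],false,3,3,[5,6,7]),
    (true,[([(0,10,[(9,10),(4,5)])],[5])],[5,3],false,2,3,[3,4]),
    (true,[([(0,10,[(9,10),(4,5)])],[5]),([(0,3,[(3,3)])],[2,2,1])],[],false,1,0,[2]),
    (true,[([(0,10,[(9,10),(4,5)])],[5]),([(0,3,[(3,3)]),(0,3,[(2,2)])],[2])],[],false,1,0,[]),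
    (true,[([(0,10,[(9,10),(4,5)])],[5]),([(0,4,[(4,4)])],[2,1,1])],[],false,1,0,[]),
    (false,[([(0,15,[(9,10),(6,6)])],[2,2])],[7],false,1,0,[2]),
    (false,[([(0,8,[(9,10)]),(0,2,[(6,6),(2,2)])],[])],[7,3],false,1,0,[]),
    (false,[([(0,15,[(9,10),(7,7)])],[2,2])],[7],false,1,0,[]),
    (true,[([(0,9,[(11,13)])],[1])],[6,5,3],false,3,3,[5]),
    (true,[([(0,9,[(11,13)])],[2]),([(0,1,[(4,5)])],[3,3,2])],[],false,1,0,[2]),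
    (true,[([(0,9,[(11,13)])],[4]),([(0,1,[(4,5)]),(0,3,[(2,2)])],[3])],[],false,1,0,[]),
    (true,[([(0,10,[(14,15)])],[5])],[5,3],false,2,1,[])]),
  ([7,7,6,4,3,2], [
    (false,[],[7,7,6,4,3,2],false,4,4,[5,6,8,10,13,15]),
    (false,[([(0,1,[(5,5)])],[3,2,1])],[7,7,4],false,1,0,[3,5]),
    (true,[([(0,1,[(5,5)]),(0,3,[(2,3)])],[3])],[6,5,4,3],false,3,6,[]),
    (true,[([(0,1,[(5,5)]),(0,0,[(4,5)])],[])],[6,5,4,3],false,4,3,[5]),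
    (true,[([(0,10,[(5,5),(4,5),(5,5)])],[5])],[6,3],false,2,3,[4]),
    (true,[([(0,8,[(5,5),(3,4)])],[4,4]),([(0,1,[(4,5)]),(0,0,[(5,5)])],[])],[],false,1,0,[2]),
    (true,[([(0,8,[(5,5),(4,5)])],[4,4]),([(0,1,[(5,5)]),(0,0,[(3,4),(2,2)])],[])],[],false,1,0,[]),
    (true,[([(0,0,[(6,6)])],[3,1,1])],[6,5,4,3],false,4,3,[6]),
    (false,[([(0,0,[(6,6)]),(0,0,[(5,6)])],[1])],[7,6,3],false,3,3,[5,6]),
    (true,[([(0,0,[(6,6)]),(0,0,[(5,6)])],[]),([(0,1,[(4,5)])],[3,3])],[6],false,1,0,[3]),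
    (true,[([(0,8,[(6,6),(2,3)])],[4,4]),([(0,0,[(5,6)]),(0,1,[(4,5)])],[])],[],false,1,0,[2]),
    (false,[([(0,2,[(6,6),(2,2)]),(0,0,[(5,6)])],[2]),([(0,1,[(4,5)]),(0,3,[(2,3)])],[3,2])],[],false,1,0,[]),
    (false,[([(0,0,[(6,6)]),(0,0,[(5,6)])],[1]),([(0,0,[(6,6)])],[3,3,2,2])],[],false,1,0,[]),
    (true,[([(0,2,[(7,8)])],[1,1,1])],[6,5,4,3],false,4,3,[6,8]),
    (true,[([(0,2,[(7,8)]),(0,0,[(5,6)])],[])],[6,4,3,2],false,4,2,[5]),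
    (false,[([(0,2,[(7,8)]),(0,0,[(5,6)])],[2]),([(0,1,[(5,5)])],[3,2,2,1])],[],false,1,0,[]),
    (false,[([(0,2,[(7,8)]),(0,2,[(7,8)])],[1])],[7,3,2],false,3,2,[]),
    (true,[([(0,8,[(9,10)])],[4,1])],[6,5,3],false,3,3,[5,6,7]),
    (true,[([(0,10,[(9,10),(4,5)])],[5])],[6,3],false,2,3,[3,4]),
    (false,[([(0,9,[(9,10),(3,3)]),(0,0,[(4,5)])],[])],[7,3],false,2,1,[]),
    (true,[([(0,10,[(9,10),(4,5)])],[5]),([(0,4,[(4,4)])],[2,1,1,1])],[],false,1,0,[]),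
    (true,[([(0,8,[(9,10)])],[4,1]),([(0,0,[(6,6)])],[3,3,2])],[],false,1,0,[2]),
    (true,[([(0,8,[(9,10)])],[4]),([(0,2,[(6,6),(2,2)])],[3,2,2])],[],false,1,0,[]),
    (true,[([(0,8,[(9,10)])],[4]),([(0,2,[(7,7)])],[3,2,2])],[],false,1,0,[]),
    (true,[([(0,9,[(11,13)])],[1,1])],[6,5,3],false,3,3,[5]),
    (false,[([(0,9,[(11,13)]),(0,0,[(4,5)])],[])],[7,3],false,2,1,[]),
    (true,[([(0,10,[(14,15)])],[5])],[6,3],false,2,1,[])]),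
  ([7,7,6,5,2,1], [
    (false,[],[7,7,6,5,2,1],true,4,5,[5,6,8,9,11,13,15]),
    (false,[([(0,1,[(5,5)])],[2,1])],[7,7,6],false,1,0,[3,4,5]),
    (false,[([(0,1,[(5,5)]),(0,3,[(2,3)])],[1,1])],[7,6,5],false,3,5,[]),
    (true,[([(0,1,[(5,5)]),(0,4,[(4,4)])],[3])],[5,4,4,3],false,3,3,[4]),
    (false,[([(0,1,[(5,5)]),(0,4,[(4,4)]),(0,4,[(4,4)])],[])],[7,6,2],false,3,2,[4]),
    (true,[([(0,1,[(5,5)]),(0,4,[(4,4)])],[3]),([(0,4,[(4,4)]),(0,4,[(4,4)])],[])],[5,3],false,2,1,[]),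
    (true,[([(0,0,[(5,5)]),(0,0,[(5,5)])],[])],[5,4,4,3],false,3,3,[4,5]),
    (false,[([(0,8,[(5,5),(5,5)]),(0,4,[(4,4)])],[1])],[7,6],false,2,3,[4]),
    (true,[([(0,10,[(5,5),(5,5),(3,4)])],[5]),([(0,4,[(4,4)])],[2,2])],[],false,1,0,[2]),
    (false,[([(0,0,[(5,5)]),(0,0,[(5,5)])],[2]),([(0,4,[(4,4)]),(0,0,[(3,4),(2,2)])],[2,2])],[],false,1,0,[]),
    (false,[([(0,10,[(5,5),(5,5),(5,5)])],[3,3])],[7],false,1,0,[2,3]),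
    (true,[([(2,8,[(5,5),(5,5),(5,5),(2,2)])],[6])],[4],false,1,0,[2]),
    (false,[([(2,19,[(5,5),(5,5),(5,5),(2,2),(2,2)])],[4,4])],[],false,1,0,[]),
    (true,[([(2,10,[(5,5),(5,5),(5,5),(3,3)])],[6])],[4],false,1,0,[]),
    (false,[([(0,0,[(6,6)])],[1,1,1,1])],[7,6,5],false,3,5,[4,6]),
    (true,[([(0,13,[(6,6),(4,4)])],[4])],[6,4,3],false,3,3,[4]),
    (false,[([(0,0,[(6,6)]),(0,4,[(4,4)]),(0,4,[(4,4)])],[])],[7,5,2],false,3,2,[4]),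
    (true,[([(0,10,[(6,6),(4,4),(4,4)])],[5]),([(0,4,[(4,4)])],[2,2])],[],false,1,0,[]),
    (true,[([(0,0,[(6,6)]),(0,0,[(5,6)])],[])],[5,4,4,3],false,3,3,[4,6]),
    (true,[([(0,0,[(6,6)]),(0,0,[(5,6)])],[]),([(0,4,[(4,4)])],[2,1])],[5,4],false,2,2,[3]),
    (true,[([(0,10,[(6,6),(5,6),(3,3)])],[5]),([(0,4,[(4,4)])],[2,2])],[],false,1,0,[]),
    (false,[([(0,0,[(6,6)]),(0,0,[(5,6)])],[2]),([(0,0,[(5,6)])],[2,2,2,2])],[],false,1,0,[2]),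
    (true,[([(0,2,[(6,6),(2,2)])],[3]),([(0,0,[(5,6)]),(0,0,[(5,6)])],[])],[5],false,1,0,[]),
    (true,[([(0,2,[(7,8)])],[2])],[6,5,4,3],false,4,3,[5,6,8]),
    (true,[([(0,2,[(7,8)]),(0,1,[(5,5)])],[])],[5,4,4,2],false,3,2,[4,5]),
    (true,[([(0,2,[(7,8)]),(0,1,[(5,5)])],[]),([(0,4,[(4,4)])],[1,1])],[5,4],false,2,1,[]),
    (true,[([(0,2,[(7,8)])],[2]),([(0,8,[(5,5),(5,5)])],[4,4])],[],false,1,0,[]),
    (true,[([(0,2,[(7,8)]),(0,0,[(6,6)])],[])],[4,4,4,2],true,2,3,[4]),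
    (true,[([(0,2,[(7,8)])],[2]),([(0,8,[(6,6),(3,4)])],[4,4])],[],false,1,0,[2]),
    (true,[([(0,2,[(7,8)])],[3]),([(0,0,[(6,6)]),(0,0,[(3,4),(2,2)])],[])],[5],false,1,0,[]),
    (false,[([(0,2,[(7,8)]),(0,2,[(7,8)])],[3])],[6,2,1],false,3,1,[]),
    (true,[([(0,5,[(9,9)])],[2])],[6,5,4,2],false,4,2,[6,7]),
    (false,[([(0,5,[(9,9)]),(0,0,[(5,6)])],[3])],[7,2,1],false,3,1,[]),
    (true,[([(0,5,[(9,9)])],[3,1]),([(0,14,[(7,7)])],[4,3])],[],false,1,0,[]),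
    (true,[([(0,13,[(10,11)])],[4])],[6,4,3],false,3,3,[4,6]),
    (false,[([(0,10,[(10,11),(4,4)])],[3,3])],[7],false,1,0,[3]),
    (true,[([(0,10,[(10,11),(2,3)])],[5]),([(0,4,[(4,4)])],[2,2])],[],false,1,0,[2]),
    (true,[([(0,9,[(10,11),(2,2)]),(0,3,[(2,3)])],[]),([(0,4,[(4,4)])],[2,2])],[4],false,1,0,[]),
    (true,[([(0,13,[(10,11)])],[4]),([(0,0,[(5,6)])],[3,3,1])],[],false,1,0,[2]),
    (true,[([(0,9,[(10,11),(2,2)])],[]),([(0,0,[(5,6)])],[3,3,3])],[],false,1,0,[]),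
    (true,[([(0,9,[(12,13)])],[])],[6,5,4],false,3,3,[4]),
    (true,[([(0,9,[(12,13)])],[]),([(0,4,[(4,4)])],[2,2,1])],[6],false,1,0,[]),
    (false,[([(0,12,[(14,15)])],[4,4,2])],[2,1],false,2,1,[])])]

theorem cj5d_1_ok : runAllJ S38 R38 F38 14 cj5d_1 = true := by decide +kernel

noncomputable def cj5d_2 : List (List ℕ × List NdJ) := [
  ([7,7,6,5,4,1], [
    (false,[],[7,7,6,5,4,1],false,4,5,[5,6,8,11,13,15]),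
    (true,[([(0,1,[(5,5)])],[3,2])],[6,5,5,4],false,2,10,[3,4,5]),
    (false,[([(0,1,[(5,5)]),(0,3,[(3,3)])],[2,2])],[7,6,5],false,3,5,[]),
    (false,[([(0,1,[(5,5)]),(0,4,[(4,4)])],[2,1])],[7,6,5],false,3,5,[4]),
    (false,[([(0,1,[(5,5)]),(0,4,[(4,4)]),(0,4,[(4,4)])],[])],[7,6,4],false,3,4,[4]),
    (true,[([(0,1,[(5,5)]),(0,4,[(4,4)])],[3]),([(0,4,[(4,4)]),(0,4,[(4,4)])],[2])],[5,3],false,2,1,[]),
    (false,[([(0,8,[(5,5),(5,5)])],[3,3,1])],[7,6],false,2,6,[3,4,5]),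
    (false,[([(0,10,[(5,5),(5,5),(3,3)])],[4,4])],[7],false,1,0,[2,3]),
    (false,[([(0,10,[(5,5),(5,5),(3,3),(2,2)])],[4,4])],[7],false,1,0,[2]),
    (true,[([(2,20,[(5,5),(5,5),(3,3),(2,2),(2,2)])],[6])],[5],false,1,0,[2]),
    (true,[([(2,3,[(5,5),(5,5),(3,3),(2,2),(2,2),(2,2)])],[6])],[5],false,1,0,[2]),
    (true,[([(2,4,[(5,5),(5,5),(3,3),(2,2),(2,2),(2,2),(2,2)])],[7])],[],false,1,0,[]),
    (false,[([(0,8,[(5,5),(5,5)])],[3,3,2]),([(0,3,[(3,3)]),(0,3,[(3,3)])],[2,2,2])],[],false,1,0,[2,3]),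
    (true,[([(2,21,[(5,5),(5,5),(3,3),(3,3),(2,2)])],[6])],[5],false,1,0,[2]),
    (false,[([(2,22,[(5,5),(5,5),(3,3),(3,3),(2,2),(2,2)])],[5,5])],[],false,1,0,[]),
    (true,[([(2,7,[(5,5),(5,5),(3,3),(3,3),(3,3)])],[6])],[5],false,1,0,[]),
    (true,[([(0,1,[(5,5)]),(0,0,[(5,5)])],[]),([(0,4,[(4,4)])],[2,2,2])],[5,4],false,2,3,[3,4]),
    (true,[([(0,10,[(5,5),(5,5),(3,3)])],[5]),([(0,4,[(4,4)])],[2,2,2])],[],false,1,0,[2]),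
    (true,[([(0,10,[(5,5),(5,5),(3,3),(2,2)])],[5]),([(0,4,[(4,4)])],[2,2,2])],[],false,1,0,[]),
    (true,[([(0,10,[(5,5),(5,5),(4,4)])],[5]),([(0,4,[(4,4)])],[2,2,2])],[],false,1,0,[]),
    (false,[([(0,10,[(5,5),(5,5),(5,5)])],[4,4])],[7],false,1,0,[2,3]),
    (true,[([(2,23,[(5,5),(5,5),(5,5),(2,2)])],[6])],[5],false,1,0,[2]),
    (true,[([(2,9,[(5,5),(5,5),(5,5),(2,2),(2,2)])],[6])],[5],false,1,0,[]),
    (true,[([(2,15,[(5,5),(5,5),(5,5),(3,3)])],[6])],[5],false,1,0,[]),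
    (false,[([(0,0,[(6,6)])],[2,2,1,1])],[7,6,5],false,3,5,[5,6]),
    (true,[([(0,13,[(6,6),(4,5)])],[4,3])],[5,4,3],false,3,3,[5]),
    (false,[([(0,13,[(6,6),(4,5)]),(0,0,[(4,5)])],[])],[7,6],false,2,3,[3,4]),
    (false,[([(0,13,[(6,6),(4,5)]),(0,0,[(4,5)])],[]),([(0,3,[(3,3)])],[2,2,2,2,2])],[],false,1,0,[2]),
    (false,[([(0,2,[(6,6),(2,2)]),(0,8,[(4,5),(4,5)])],[]),([(0,3,[(3,3)])],[2,2,2,2,1])],[],false,1,0,[]),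
    (false,[([(0,13,[(6,6),(4,5)]),(0,0,[(4,5)])],[]),([(0,4,[(4,4)])],[2,2,2,2,1])],[],false,1,0,[]),
    (true,[([(0,0,[(6,6)]),(0,0,[(6,6)])],[])],[5,5,5,3],true,2,4,[3,5]),
    (false,[([(0,10,[(6,6),(6,6),(3,3)])],[4,4])],[7],false,1,0,[3]),
    (true,[([(0,0,[(6,6)]),(0,0,[(6,6)])],[]),([(0,3,[(3,3)]),(0,3,[(2,3)])],[2])],[5,5],false,1,0,[2]),
    (false,[([(0,8,[(6,6),(3,3)]),(0,2,[(6,6),(2,2)])],[]),([(0,3,[(2,3)])],[2,2,2,2,1])],[],false,1,0,[]),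
    (false,[([(0,13,[(6,6),(4,5)]),(0,0,[(6,6)])],[])],[7,6],false,2,1,[]),
    (true,[([(0,2,[(7,8)])],[2,2])],[6,5,4,3],false,4,3,[6,8]),
    (false,[([(0,2,[(7,8)]),(0,0,[(5,6)])],[3])],[7,5,1],true,3,2,[5]),
    (false,[([(0,2,[(7,8)]),(0,0,[(5,6)])],[3]),([(0,1,[(4,5)])],[2,2,2,2])],[],false,1,0,[2]),
    (false,[([(0,2,[(7,8)]),(0,0,[(5,6)])],[3]),([(0,0,[(4,5)]),(0,3,[(2,2)])],[2,2])],[],false,1,0,[]),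
    (false,[([(0,2,[(7,8)]),(0,2,[(7,8)])],[1])],[7,5,1],false,3,1,[]),
    (true,[([(0,13,[(9,11)])],[4,3])],[5,4,3],false,3,3,[4,6,7]),
    (false,[([(0,13,[(9,11)]),(0,4,[(4,4)])],[3])],[7,5],false,2,3,[4]),
    (true,[([(0,10,[(9,11),(3,4)])],[5]),([(0,4,[(4,4)])],[2,2,2])],[],false,1,0,[2]),
    (false,[([(0,13,[(9,11)]),(0,0,[(3,4),(2,2)])],[]),([(0,4,[(4,4)])],[2,2,2,2,1])],[],false,1,0,[]),
    (false,[([(0,13,[(9,11)]),(0,0,[(5,6)])],[])],[7,6],false,2,2,[3]),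
    (false,[([(0,13,[(9,11)]),(0,0,[(5,6)])],[]),([(0,3,[(3,3)])],[2,2,2,2,2])],[],false,1,0,[]),
    (false,[([(0,13,[(9,11)]),(0,2,[(7,7)])],[])],[7,4],false,1,0,[]),
    (true,[([(0,9,[(12,13)])],[2])],[6,5,4],false,3,3,[4]),
    (false,[([(0,15,[(12,13),(4,4)])],[4,2])],[7],false,1,0,[]),
    (false,[([(0,12,[(14,15)])],[4,2,1])],[7,1],false,2,1,[])]),
  ([7,7,6,5,4,3], [
    (false,[],[7,7,6,5,4,3],false,5,3,[6,8,9,10,13,15]),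
    (false,[([(0,0,[(6,6)])],[3,3,1,1])],[7,6,5],false,3,5,[4,6]),
    (false,[([(0,0,[(6,6)]),(0,4,[(4,4)])],[3,3])],[7,5,4],false,3,4,[4]),
    (true,[([(0,0,[(6,6)]),(0,4,[(4,4)])],[3]),([(0,4,[(4,4)])],[2,1,1,1])],[6,4],false,2,3,[4]),
    (true,[([(0,10,[(6,6),(4,4),(3,4)])],[5]),([(0,4,[(4,4)])],[2,2,2,2])],[],false,1,0,[2]),
    (false,[([(0,8,[(6,6),(3,4)])],[4,4,1]),([(0,4,[(4,4)]),(0,4,[(4,4)]),(0,3,[(2,2)])],[2])],[],false,1,0,[]),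
    (false,[([(0,0,[(6,6)]),(0,0,[(5,6)])],[3])],[7,6,4],false,3,4,[4,6]),
    (true,[([(0,0,[(6,6)]),(0,0,[(5,6)])],[]),([(0,4,[(4,4)])],[2,1,1,1])],[6,5],false,2,2,[3]),
    (true,[([(0,10,[(6,6),(5,6),(3,3)])],[5]),([(0,4,[(4,4)])],[2,2,2,2])],[],false,1,0,[]),
    (false,[([(0,0,[(6,6)]),(0,0,[(5,6)])],[3]),([(0,0,[(5,6)])],[3,3,3,2])],[],false,1,0,[2]),
    (false,[([(0,2,[(6,6),(2,2)]),(0,0,[(5,6)])],[1]),([(0,0,[(5,6)])],[3,3,3,2])],[],false,1,0,[]),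
    (true,[([(0,2,[(7,8)])],[2,2,2])],[6,5,4,3],false,4,3,[6,8]),
    (false,[([(0,2,[(7,8)]),(0,0,[(5,6)])],[1])],[7,6,4],false,3,4,[5]),
    (false,[([(0,2,[(7,8)]),(0,0,[(5,6)])],[2]),([(0,1,[(4,5)])],[3,3,3,2])],[],false,1,0,[2]),
    (false,[([(0,2,[(7,8)]),(0,0,[(5,6)])],[3]),([(0,0,[(4,5)]),(0,3,[(2,2)])],[3,3])],[],false,1,0,[]),
    (false,[([(0,2,[(7,8)]),(0,2,[(7,8)])],[1])],[7,5,3],false,3,2,[]),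
    (true,[([(0,5,[(9,9)])],[2,2,2])],[6,5,4,2],false,4,2,[6,7]),
    (false,[([(0,5,[(9,9)]),(0,0,[(5,6)])],[1])],[7,6,3],false,3,2,[]),
    (true,[([(0,5,[(9,9)])],[3,3,2]),([(0,14,[(7,7)])],[4,3])],[],false,1,0,[]),
    (false,[([(0,8,[(10,10)])],[4,4,1])],[7,6],false,2,5,[3,5,6]),
    (true,[([(0,9,[(10,10),(3,3)])],[2,2])],[6,5,4],false,3,3,[]),
    (false,[([(0,10,[(10,10),(4,5)])],[5,5])],[7],false,1,0,[3]),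
    (true,[([(0,9,[(10,10),(2,3)])],[3,3]),([(0,1,[(4,5)])],[3,3,2])],[],false,1,0,[2]),
    (true,[([(0,9,[(10,10),(2,3)])],[4,4]),([(0,1,[(4,5)]),(0,3,[(2,2)])],[3])],[],false,1,0,[]),
    (false,[([(0,11,[(10,10),(6,6)])],[5,4])],[6],false,1,0,[]),
    (true,[([(0,9,[(11,13)])],[2,2])],[6,5,4],false,3,4,[5]),
    (true,[([(0,9,[(11,13)])],[3,3]),([(0,1,[(4,5)])],[3,3,2])],[],false,1,0,[2]),
    (true,[([(0,9,[(11,13)])],[4,4]),([(0,1,[(4,5)]),(0,3,[(2,2)])],[3])],[],false,1,0,[]),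
    (false,[([(0,12,[(14,15)])],[2,1,1])],[7,6],false,2,1,[])]),
  ([8,5,4,4,3,2,2], [
    (false,[],[8,5,4,4,3,2,2],false,5,3,[8,11,15]),
    (true,[([(0,14,[(6,8)])],[1])],[7,7,4,1],true,3,4,[5,8]),
    (true,[([(0,14,[(6,8)]),(0,0,[(4,5)])],[])],[7,5,1,1],false,2,6,[3,5]),
    (false,[([(0,14,[(6,8)]),(0,14,[(4,5),(3,3)])],[])],[5,4,3],false,3,3,[]),
    (false,[([(0,14,[(6,8)]),(0,8,[(4,5),(4,5)])],[])],[4,4,2],true,2,3,[3,4]),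
    (false,[([(0,14,[(6,8)]),(0,8,[(4,5),(4,5)])],[]),([(0,3,[(3,3)])],[2,1])],[4],false,1,0,[2]),
    (false,[([(0,14,[(6,8)]),(0,8,[(4,5),(4,5)])],[]),([(0,3,[(3,3)]),(0,3,[(2,2)])],[])],[4],false,1,0,[]),
    (false,[([(0,14,[(6,8)]),(0,8,[(4,5),(4,5)])],[]),([(0,4,[(4,4)])],[1,1])],[4],false,1,0,[]),
    (false,[([(0,14,[(6,8)]),(0,14,[(6,8)])],[])],[5,4,3],false,3,3,[4,5]),
    (false,[([(0,14,[(6,8)]),(0,14,[(6,8)])],[]),([(0,4,[(4,4)])],[2,1])],[5],false,1,0,[2]),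
    (false,[([(0,8,[(6,8),(2,2)]),(0,14,[(6,8)])],[]),([(0,4,[(4,4)])],[1,1])],[4],false,1,0,[]),
    (false,[([(0,14,[(6,8)]),(0,14,[(6,8)])],[]),([(0,0,[(5,5)])],[3,3])],[],false,1,0,[]),
    (true,[([(0,18,[(9,11)])],[2,2])],[7,4,1],true,3,3,[6,7]),
    (true,[([(0,13,[(9,11)]),(0,0,[(4,6)])],[])],[7,2,1,1],false,3,2,[4]),
    (true,[([(0,13,[(9,11)]),(0,0,[(4,6)])],[]),([(0,4,[(4,4)])],[1,1,1,1,1])],[1,1],false,1,0,[]),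
    (false,[([(0,13,[(9,11)]),(0,7,[(7,7)])],[])],[5,3,2],false,1,0,[]),
    (true,[([(0,10,[(12,15)])],[3,1])],[7,1,1],true,2,3,[3,4]),
    (false,[([(0,10,[(12,15)])],[5,1,1]),([(0,3,[(3,3)])],[2,1])],[],false,1,0,[2]),
    (true,[([(0,19,[(12,15),(2,2)])],[3]),([(0,3,[(3,3)])],[1,1,1,1,1])],[],false,1,0,[]),
    (false,[([(0,10,[(12,15)])],[5,1,1]),([(0,4,[(4,4)])],[1,1])],[],false,1,0,[])]),
  ([8,5,4,4,3,3,1], [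
    (false,[],[8,5,4,4,3,3,1],false,4,6,[6,8,11,15]),
    (false,[([(0,0,[(5,6)])],[2])],[8,5,4,3],false,4,3,[6]),
    (true,[([(0,0,[(5,6)]),(0,0,[(5,6)])],[])],[7,6,1,1,1],false,3,3,[4,5,6]),
    (false,[([(0,8,[(5,6),(4,4)]),(0,0,[(5,6)])],[1])],[4,4,3],false,2,3,[4]),
    (false,[([(0,8,[(5,6),(3,4)]),(0,0,[(5,6)])],[1]),([(0,4,[(4,4)])],[2,1])],[4],false,1,0,[2]),
    (true,[([(0,18,[(5,6),(5,6)])],[2]),([(0,4,[(4,4)]),(0,0,[(3,4),(2,2)])],[2,2])],[],false,1,0,[]),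
    (true,[([(0,0,[(5,6)]),(0,0,[(5,6)])],[]),([(0,1,[(5,5)])],[1,1,1])],[7,1],true,2,2,[3]),
    (true,[([(0,10,[(5,6),(5,6),(3,3)])],[3,2]),([(0,1,[(5,5)])],[1,1,1])],[],false,1,0,[]),
    (true,[([(0,18,[(5,6),(5,6)])],[2]),([(0,0,[(6,6)])],[2,2,2,2])],[],false,1,0,[2]),
    (false,[([(0,0,[(5,6)]),(0,0,[(5,6)])],[3,1]),([(0,2,[(6,6),(2,2)])],[3])],[1],false,1,0,[]),
    (false,[([(0,2,[(7,8)])],[3])],[8,5,3,1],true,4,3,[6,8]),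
    (false,[([(0,2,[(7,8)]),(0,0,[(5,6)])],[1,1])],[4,4,3,1],true,3,2,[5]),
    (true,[([(0,2,[(7,8)]),(0,0,[(5,6)])],[3]),([(0,1,[(4,5)])],[1,1,1])],[2,1],false,2,1,[]),
    (true,[([(0,2,[(7,8)]),(0,2,[(7,8)])],[])],[7,2,1,1,1],false,3,2,[]),
    (false,[([(0,13,[(9,11)])],[])],[8,5,4],false,3,4,[6,7]),
    (false,[([(0,13,[(9,11)]),(0,0,[(4,6)])],[1])],[4,3,3],false,2,3,[3,4]),
    (false,[([(0,13,[(9,11)]),(0,0,[(4,6)])],[1]),([(0,3,[(3,3)])],[2,2])],[3],false,1,0,[2]),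
    (false,[([(0,13,[(9,11)])],[]),([(0,0,[(4,6)]),(0,1,[(3,3),(2,2)])],[3,3])],[],false,1,0,[]),
    (false,[([(0,13,[(9,11)]),(0,0,[(4,6)])],[1]),([(0,4,[(4,4)])],[2])],[4],false,1,0,[]),
    (true,[([(0,13,[(9,11)])],[3,2,2]),([(0,7,[(7,7)])],[2,1])],[],false,1,0,[]),
    (false,[([(0,10,[(12,15)])],[4,1,1])],[4,3],false,2,3,[3,4]),
    (false,[([(0,10,[(12,15)])],[4,1,1]),([(0,3,[(3,3)])],[2,2])],[],false,1,0,[2]),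
    (true,[([(0,10,[(12,15)])],[3,2]),([(0,1,[(3,3),(2,2)])],[1,1,1])],[],false,1,0,[]),
    (false,[([(0,10,[(12,15)])],[4,1,1]),([(0,4,[(4,4)])],[2,1])],[],false,1,0,[])]),
  ([8,6,4,3,3,3,1], [
    (false,[],[8,6,4,3,3,3,1],false,4,5,[6,8,11,15]),
    (false,[([(0,0,[(5,6)])],[2])],[8,6,3,3],false,3,6,[5,6]),
    (true,[([(0,0,[(5,6)]),(0,1,[(4,5)])],[])],[7,6,2,1,1],false,4,2,[5]),
    (false,[([(0,0,[(5,6)]),(0,8,[(4,5),(5,5)])],[2])],[4,3,3],false,2,3,[4]),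
    (true,[([(0,10,[(5,6),(5,5),(3,4)])],[2,2]),([(0,1,[(4,5)])],[2,1,1])],[],false,1,0,[2]),
    (true,[([(0,10,[(5,6),(5,5),(3,4)])],[2,2]),([(0,1,[(4,5)]),(0,3,[(2,2)])],[1])],[],false,1,0,[]),
    (true,[([(0,18,[(5,6),(6,6)])],[1])],[7,6,2],false,3,2,[6]),
    (true,[([(0,18,[(5,6),(6,6)])],[1]),([(0,0,[(4,6)])],[3,2,2,2])],[],false,1,0,[3]),
    (true,[([(0,10,[(5,6),(6,6),(2,3)])],[2,2]),([(0,0,[(4,6)])],[1,1,1])],[],false,1,0,[2]),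
    (true,[([(0,16,[(5,6),(6,6),(2,2)])],[2,2]),([(0,0,[(4,6)]),(0,3,[(2,3)])],[1])],[],false,1,0,[]),
    (true,[([(0,14,[(7,8)])],[1,1])],[7,6,3,2],false,4,2,[7,8]),
    (true,[([(0,10,[(7,8),(5,7)])],[2,2])],[6,2,1],true,3,2,[5]),
    (true,[([(0,10,[(7,8),(5,7)])],[2,2]),([(0,1,[(4,5)])],[2,1,1])],[],false,1,0,[2]),
    (true,[([(0,10,[(7,8),(5,7)])],[2,2]),([(0,1,[(4,5)]),(0,3,[(2,2)])],[1])],[],false,1,0,[]),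
    (true,[([(0,15,[(7,8),(8,8)])],[3,3])],[2,2,1],false,2,1,[]),
    (false,[([(0,13,[(9,11)])],[])],[8,6,3],false,3,3,[6,7]),
    (false,[([(0,13,[(9,11)]),(0,0,[(4,6)])],[2])],[3,3,3],false,1,0,[2,4]),
    (false,[([(0,13,[(9,11)])],[]),([(0,0,[(4,6)]),(0,3,[(2,2)])],[3,3,2])],[],false,1,0,[2]),
    (true,[([(0,10,[(9,11),(2,2),(2,2)])],[2,2]),([(0,0,[(4,6)])],[1,1,1])],[],false,1,0,[2]),
    (false,[([(0,13,[(9,11)])],[]),([(0,0,[(4,6)]),(1,0,[(2,2),(2,2),(2,2)])],[3,2])],[],false,1,0,[]),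
    (true,[([(0,10,[(9,11),(3,4)])],[2,2]),([(0,0,[(4,6)])],[1,1,1])],[],false,1,0,[2]),
    (false,[([(0,13,[(9,11)])],[]),([(0,0,[(4,6)]),(0,0,[(3,4),(2,2)])],[3,2])],[],false,1,0,[]),
    (false,[([(0,17,[(9,11),(7,7)])],[5,1])],[4],false,1,0,[]),
    (true,[([(0,10,[(12,15)])],[2,2])],[6,2,1],false,3,1,[4]),
    (false,[([(0,20,[(12,15),(4,4)])],[5,1])],[3],false,1,0,[])]),
  ([8,6,5,3,2,2,2], [
    (false,[],[8,6,5,3,2,2,2],false,5,3,[8,12,15]),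
    (false,[([(0,14,[(6,8)])],[4])],[8,6,2],false,1,0,[3,6,8]),
    (true,[([(0,14,[(6,8)]),(0,3,[(2,3)])],[1])],[7,4,3,2],false,3,4,[]),
    (true,[([(0,14,[(6,8)]),(0,0,[(4,6)])],[])],[7,3,3,1],true,3,4,[4,5,6]),
    (false,[([(0,14,[(6,8)]),(0,8,[(4,6),(4,4)])],[])],[6,2,2],false,2,3,[3,4]),
    (true,[([(0,14,[(6,8)]),(0,0,[(4,6)])],[]),([(0,4,[(4,4)]),(0,3,[(3,3)])],[1,1,1])],[3,1],false,2,1,[]),
    (true,[([(0,18,[(6,8),(4,4)])],[1,1]),([(0,0,[(4,6)]),(0,1,[(4,4)])],[3])],[],false,1,0,[]),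
    (false,[([(0,14,[(6,8)]),(0,0,[(4,6)])],[4]),([(0,1,[(5,5)])],[3,1,1])],[],false,1,0,[3]),
    (true,[([(0,14,[(6,8)]),(0,0,[(4,6)])],[]),([(0,1,[(5,5)]),(0,3,[(2,3)])],[2,1])],[3],false,1,0,[2]),
    (true,[([(0,10,[(6,8),(5,5),(2,2)])],[1,1]),([(0,0,[(4,6)]),(0,3,[(2,3)])],[1,1])],[],false,1,0,[]),
    (true,[([(0,10,[(6,8),(6,6)])],[1,1]),([(0,0,[(4,6)])],[2,1,1,1])],[],false,1,0,[2]),
    (true,[([(0,10,[(6,8),(6,6)])],[1,1]),([(0,0,[(4,6)]),(0,3,[(2,2)])],[1,1])],[],false,1,0,[]),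
    (false,[([(0,14,[(6,8)]),(0,8,[(7,8)])],[])],[6,2,2],false,2,3,[3,4]),
    (true,[([(0,14,[(6,8)])],[3,1,1]),([(0,13,[(7,8),(3,3)])],[2,1,1])],[],false,1,0,[2]),
    (false,[([(0,8,[(6,8),(2,2)]),(0,13,[(7,8),(3,3)])],[])],[3,2,2],false,1,0,[]),
    (true,[([(0,18,[(6,8),(4,4)])],[1,1]),([(0,2,[(7,8)])],[3,1,1,1])],[],false,1,0,[]),
    (true,[([(0,18,[(9,12)])],[1,1])],[7,4,3],false,3,3,[5,6,7]),
    (true,[([(0,18,[(9,12)])],[1,1]),([(0,1,[(4,5)])],[3,3,2,1])],[],false,1,0,[2,3,4]),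
    (true,[([(0,18,[(9,12)]),(0,3,[(2,2)])],[]),([(0,1,[(4,5)])],[3,3,1,1])],[],false,1,0,[2]),
    (true,[([(0,18,[(9,12)])],[1,1]),([(0,1,[(4,5)]),(1,0,[(2,2),(2,2)])],[3])],[],false,1,0,[2]),
    (true,[([(0,18,[(9,12)])],[1,1]),([(0,1,[(4,5)]),(1,0,[(2,2),(2,2),(2,2)])],[3])],[],false,1,0,[]),
    (true,[([(0,10,[(9,12),(3,3)])],[1,1]),([(0,1,[(4,5)])],[2,2,1,1])],[],false,1,0,[2]),
    (true,[([(0,10,[(9,12),(3,3)])],[1,1]),([(0,1,[(4,5)]),(0,3,[(2,2)])],[2,1])],[],false,1,0,[]),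
    (true,[([(0,18,[(9,12)])],[4,1]),([(0,1,[(4,5)]),(0,4,[(4,4)])],[1,1])],[],false,1,0,[]),
    (true,[([(0,18,[(9,12)])],[1,1]),([(0,0,[(6,6)])],[3,3,1,1])],[],false,1,0,[2]),
    (true,[([(0,18,[(9,12)])],[1,1]),([(0,2,[(6,6),(2,2)])],[3,1,1,1])],[],false,1,0,[]),
    (true,[([(0,18,[(9,12)])],[1,1]),([(0,2,[(7,7)])],[3,1,1,1])],[],false,1,0,[]),
    (true,[([(0,10,[(13,15)])],[1,1])],[7,3,1],false,3,1,[])]),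
  ([8,6,5,5,3,1], [
    (false,[],[8,6,5,5,3,1],false,4,4,[6,8,11,15]),
    (true,[([(0,0,[(5,6)])],[1])],[6,5,5,4,1],false,3,5,[4,6]),
    (true,[([(0,0,[(5,6)]),(0,4,[(4,4)])],[])],[6,5,4,2,1],false,4,3,[]),
    (false,[([(0,0,[(5,6)]),(0,0,[(5,6)])],[3,1])],[6,5,1],false,2,6,[3,4,6]),
    (true,[([(0,10,[(5,6),(5,6),(3,3)])],[3])],[5,4,1],false,2,4,[3]),
    (true,[([(0,0,[(5,6)]),(0,0,[(5,6)])],[]),([(0,0,[(3,3),(3,3)])],[2,2])],[5,1],true,2,2,[3]),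
    (true,[([(0,10,[(5,6),(5,6),(3,3)])],[3]),([(0,0,[(3,3),(3,3)])],[2,2])],[],false,1,0,[]),
    (false,[([(0,8,[(5,6),(4,4)]),(0,0,[(5,6)])],[1])],[6,5],false,2,3,[4]),
    (true,[([(0,8,[(5,6),(4,4)])],[2]),([(0,8,[(5,6),(3,4)])],[3,3])],[],false,1,0,[2]),
    (false,[([(0,8,[(5,6),(3,4)]),(0,0,[(5,6)])],[1]),([(0,4,[(4,4)]),(0,3,[(2,2)])],[2,2])],[],false,1,0,[]),
    (true,[([(0,0,[(5,6)]),(0,0,[(5,6)])],[]),([(0,0,[(5,6)])],[2,2])],[5,1],true,2,2,[3]),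
    (true,[([(0,10,[(5,6),(5,6),(3,3)])],[3]),([(0,0,[(5,6)])],[2,2])],[],false,1,0,[]),
    (true,[([(0,2,[(7,8)])],[2,1])],[6,5,4,1,1],false,4,2,[6,8]),
    (false,[([(0,2,[(7,8)]),(0,0,[(5,6)])],[])],[8,5,1],true,3,3,[5]),
    (true,[([(0,10,[(7,8),(5,6)])],[3]),([(0,0,[(4,5)])],[2,2])],[],false,1,0,[2]),
    (true,[([(0,10,[(7,8),(4,5),(2,2)])],[3]),([(0,0,[(5,6)])],[2,2])],[],false,1,0,[]),
    (false,[([(0,14,[(7,8)]),(0,2,[(7,8)])],[1])],[6,5],false,2,2,[3]),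
    (false,[([(0,13,[(7,8),(3,3)]),(0,2,[(7,8)])],[1])],[5,3],false,1,0,[]),
    (true,[([(0,13,[(9,11)])],[3])],[6,5,2,1],false,3,3,[6,7]),
    (false,[([(0,13,[(9,11)]),(0,0,[(4,6)])],[3])],[5,3],false,2,3,[3,4]),
    (true,[([(0,10,[(9,11),(3,3)])],[3]),([(0,0,[(4,6)])],[2,2])],[],false,1,0,[2]),
    (false,[([(0,13,[(9,11)]),(0,0,[(4,6)])],[3]),([(0,3,[(3,3)]),(0,3,[(2,2)])],[2])],[],false,1,0,[]),
    (true,[([(0,10,[(9,11),(4,4)])],[3]),([(0,0,[(4,6)])],[2,2])],[],false,1,0,[]),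
    (false,[([(0,13,[(9,11)]),(0,2,[(7,7)])],[1])],[5,3],false,1,0,[]),
    (true,[([(0,10,[(12,15)])],[3])],[5,4,1],false,3,1,[4]),
    (true,[([(0,10,[(12,15)])],[3]),([(0,4,[(4,4)])],[2,2,1])],[1],false,1,0,[])]),
  ([8,6,6,5,4,1], [
    (false,[],[8,6,6,5,4,1],false,4,5,[5,6,8,11,14,15]),
    (true,[([(0,1,[(5,5)])],[1,1])],[6,5,5,4,3],false,4,3,[5]),
    (true,[([(0,8,[(5,5),(5,5)])],[3,3])],[5,5,3,1],true,3,4,[4,5]),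
    (true,[([(0,10,[(5,5),(5,5),(4,4)])],[4])],[5,5,1],true,2,3,[4]),
    (true,[([(0,10,[(5,5),(5,5),(3,4)])],[4]),([(0,4,[(4,4)])],[2,2,2])],[1],false,1,0,[2]),
    (false,[([(0,8,[(5,5),(5,5)]),(0,0,[(3,4),(2,2)])],[3]),([(0,4,[(4,4)])],[2,2,2,1])],[],false,1,0,[]),
    (true,[([(0,10,[(5,5),(5,5),(5,5)])],[4])],[5,5,1],true,2,2,[3]),
    (false,[([(2,15,[(5,5),(5,5),(5,5),(3,3)])],[5,5,1])],[],false,1,0,[]),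
    (false,[([(0,0,[(6,6)])],[2,2,1])],[8,6,5],false,3,5,[5,6]),
    (true,[([(0,13,[(6,6),(4,5)])],[3,2])],[5,5,3,1],true,3,4,[5]),
    (false,[([(0,13,[(6,6),(4,5)]),(0,0,[(4,5)])],[2])],[6,5],false,2,3,[3,4]),
    (false,[([(0,13,[(6,6),(4,5)]),(0,0,[(4,5)])],[2]),([(0,3,[(3,3)])],[2,2,2,2])],[],false,1,0,[2]),
    (true,[([(0,13,[(6,6),(4,5)])],[3,3]),([(0,8,[(4,5),(3,3),(2,2)])],[3])],[],false,1,0,[]),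
    (true,[([(0,13,[(6,6),(4,5)])],[3,3]),([(0,8,[(4,5),(4,4)])],[3])],[],false,1,0,[]),
    (false,[([(0,0,[(6,6)]),(0,0,[(6,6)])],[3,3])],[6,5,1],false,2,4,[4,5]),
    (false,[([(0,8,[(6,6),(3,4)]),(0,0,[(6,6)])],[3])],[6,5],false,2,2,[3]),
    (false,[([(0,8,[(6,6),(3,4)]),(0,0,[(6,6)])],[3]),([(0,3,[(3,3)])],[2,2,2,2])],[],false,1,0,[]),
    (false,[([(2,16,[(6,6),(6,6),(5,5)])],[5,5,1])],[],false,1,0,[]),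
    (true,[([(0,2,[(7,8)])],[3,2])],[6,5,4,1,1],false,4,2,[6,8]),
    (true,[([(0,2,[(7,8)]),(0,0,[(5,6)])],[])],[5,5,4,1,1],false,3,2,[5]),
    (true,[([(0,2,[(7,8)]),(0,0,[(5,6)])],[]),([(0,1,[(4,5)])],[1,1])],[5,4],false,2,1,[]),
    (false,[([(0,2,[(7,8)]),(0,2,[(7,8)])],[])],[8,5,1],false,3,1,[]),
    (true,[([(0,13,[(9,11)])],[3,2])],[5,5,3,1],true,3,4,[6,7]),
    (false,[([(0,13,[(9,11)]),(0,0,[(4,6)])],[2])],[6,5],false,2,3,[3,4]),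
    (false,[([(0,13,[(9,11)]),(0,0,[(4,6)])],[2]),([(0,3,[(3,3)])],[2,2,2,2])],[],false,1,0,[2]),
    (false,[([(0,13,[(9,11)]),(0,0,[(4,6)])],[3]),([(0,3,[(3,3)]),(0,3,[(2,2)])],[2,2])],[],false,1,0,[]),
    (true,[([(0,13,[(9,11)])],[3,3]),([(0,8,[(4,6),(4,4)])],[3])],[],false,1,0,[]),
    (false,[([(0,13,[(9,11)]),(0,2,[(7,7)])],[1])],[6,4],false,1,0,[]),
    (true,[([(0,10,[(12,14)])],[4])],[5,5,1],true,2,3,[3,4]),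
    (true,[([(0,15,[(12,14),(3,3)])],[2])],[5,5,1],false,2,1,[]),
    (true,[([(0,10,[(12,14)])],[4]),([(0,4,[(4,4)])],[2,2,2])],[1],false,1,0,[]),
    (false,[([(0,10,[(15,15)])],[4,4,1])],[6],false,1,0,[])]),
  ([8,7,4,3,2,2,2], [
    (false,[],[8,7,4,3,2,2,2],false,5,3,[8,11,15]),
    (false,[([(0,14,[(6,8)])],[4,1,1])],[8,4,2],false,1,0,[3,6,8]),
    (false,[([(0,14,[(6,8)]),(0,3,[(2,3)])],[4])],[8,3,2],false,1,0,[2,3]),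
    (true,[([(0,8,[(6,8),(2,2)]),(0,3,[(2,3)])],[1])],[7,3,2,2],false,2,7,[]),
    (true,[([(0,14,[(6,8)]),(0,0,[(2,3),(3,3)])],[])],[7,3,2,2],false,3,3,[]),
    (true,[([(0,14,[(6,8)]),(0,0,[(4,6)])],[])],[7,3,2,2],false,3,3,[5,6]),
    (true,[([(0,14,[(6,8)]),(0,0,[(4,6)])],[]),([(0,1,[(4,5)])],[3,1,1,1])],[3],false,1,0,[2,3,4]),
    (true,[([(0,8,[(6,8),(2,2)])],[1,1,1]),([(0,0,[(4,6)]),(0,1,[(4,5)])],[2])],[2],false,1,0,[2]),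
    (true,[([(0,8,[(6,8),(2,2)]),(0,3,[(2,2)])],[1]),([(0,0,[(4,6)]),(0,1,[(4,5)])],[1])],[2],false,1,0,[2]),
    (true,[([(0,14,[(6,8)]),(0,0,[(4,6)])],[]),([(0,1,[(4,5)]),(1,0,[(2,2),(2,2),(2,2)])],[1])],[2],false,1,0,[]),
    (true,[([(0,14,[(6,8)]),(0,0,[(4,6)])],[]),([(0,14,[(4,5),(3,3)])],[4,1,1])],[],false,1,0,[2]),
    (true,[([(0,8,[(6,8),(2,2)]),(0,3,[(3,3)])],[1]),([(0,0,[(4,6)]),(0,1,[(4,5)])],[1])],[2],false,1,0,[]),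
    (true,[([(0,14,[(6,8)]),(0,0,[(4,6)])],[]),([(0,1,[(4,5)]),(0,1,[(4,4)])],[1])],[3],false,1,0,[]),
    (true,[([(0,16,[(6,8),(6,6)])],[1,1]),([(0,0,[(4,6)])],[3,1,1,1])],[],false,1,0,[2]),
    (true,[([(0,8,[(6,8),(2,2)])],[1,1,1]),([(0,0,[(4,6)]),(0,0,[(6,6)])],[1])],[2],false,1,0,[]),
    (false,[([(0,14,[(6,8)]),(0,14,[(7,8)])],[])],[7,3,2],false,3,2,[4]),
    (false,[([(0,14,[(6,8)]),(0,14,[(7,8)])],[]),([(0,4,[(4,4)])],[1])],[7],false,1,0,[]),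
    (true,[([(0,13,[(9,11)])],[2,1,1])],[7,2,2,2],false,2,6,[3,4,5,7]),
    (true,[([(0,16,[(9,11),(3,3)])],[1,1])],[7,3,2],false,3,2,[]),
    (true,[([(0,10,[(9,11),(4,4)])],[1,1])],[7,2,2],false,2,3,[3,4]),
    (true,[([(0,13,[(9,11)]),(0,3,[(3,3)])],[1]),([(0,4,[(4,4)])],[])],[7,2],false,2,1,[]),
    (false,[([(0,10,[(9,11),(4,4)]),(0,4,[(4,4)])],[5])],[2,2],false,1,0,[]),
    (true,[([(0,13,[(9,11)])],[2,1,1]),([(0,1,[(5,5)])],[3,1,1,1])],[2],false,1,0,[3]),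
    (true,[([(0,13,[(9,11)]),(0,3,[(2,3)])],[1]),([(0,1,[(5,5)])],[3,1,1,1])],[2],false,1,0,[2]),
    (true,[([(0,13,[(9,11)]),(0,3,[(2,3)])],[1]),([(0,7,[(5,5),(2,2)])],[4,1,1])],[],false,1,0,[]),
    (true,[([(0,13,[(9,11)])],[2,1,1]),([(0,7,[(6,7)])],[4,1,1])],[],false,1,0,[2]),
    (true,[([(0,13,[(9,11)]),(0,3,[(2,2)])],[1]),([(0,7,[(6,7)])],[4,1,1])],[],false,1,0,[]),
    (true,[([(0,10,[(12,15)])],[1,1])],[7,2,2],false,2,3,[3,4]),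
    (true,[([(0,10,[(12,15)])],[1,1]),([(0,3,[(3,3)])],[2,1,1,1,1])],[2],false,1,0,[2]),
    (true,[([(0,10,[(12,15)])],[1,1]),([(0,1,[(3,3),(2,2)])],[3,1,1,1])],[],false,1,0,[]),
    (false,[([(0,10,[(12,15)]),(0,4,[(4,4)])],[5])],[2,2],false,1,0,[])]),
  ([8,7,4,3,3,3,1], [
    (false,[],[8,7,4,3,3,3,1],false,4,5,[6,8,11,15]),
    (true,[([(0,0,[(5,6)])],[1,1,1])],[7,6,3,2,2],false,4,3,[5,6]),
    (false,[([(0,0,[(5,6)]),(0,1,[(5,5)])],[3])],[8,3,3,1],true,3,4,[5]),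
    (true,[([(0,0,[(5,6)]),(0,1,[(5,5)])],[]),([(0,1,[(4,5)])],[2,1,1])],[7,2],true,2,3,[3,4]),
    (true,[([(0,0,[(5,6)]),(0,1,[(5,5)])],[]),([(0,1,[(4,5)]),(0,3,[(3,3)])],[1])],[7,2],false,2,1,[]),
    (true,[([(0,10,[(5,6),(5,5),(4,4)])],[2,2]),([(0,1,[(4,5)])],[3,1,1])],[],false,1,0,[]),
    (false,[([(0,0,[(5,6)]),(0,7,[(6,6)])],[3])],[7,3,3],false,2,5,[3,5,6]),
    (true,[([(0,10,[(5,6),(6,6),(3,3)])],[2,2])],[6,2,2],false,2,3,[3]),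
    (true,[([(0,0,[(5,6)]),(0,7,[(6,6)])],[]),([(0,3,[(3,3)]),(0,3,[(3,3)])],[1,1])],[6,2],false,2,1,[]),
    (true,[([(0,0,[(5,6)]),(0,1,[(4,5)])],[]),([(0,0,[(6,6)])],[1,1,1])],[7,2],false,2,2,[3]),
    (true,[([(0,10,[(5,6),(6,6),(3,3)])],[2,2]),([(0,1,[(4,5)])],[3,1,1])],[],false,1,0,[]),
    (false,[([(0,17,[(5,6),(6,6),(6,6)])],[5,2])],[4],false,1,0,[]),
    (true,[([(0,14,[(7,8)])],[3,1])],[7,6,2,2],false,3,4,[6,8]),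
    (true,[([(0,2,[(7,8)]),(0,0,[(4,6)])],[2])],[6,2,2,2,1],true,3,4,[5,6]),
    (true,[([(0,2,[(7,8)]),(0,0,[(4,6)])],[2]),([(0,1,[(4,5)])],[2,1,1])],[2,2],false,1,0,[3]),
    (true,[([(0,2,[(7,8)]),(0,3,[(2,3)])],[2,2]),([(0,0,[(4,6)]),(0,1,[(4,5)])],[])],[2,1],false,2,1,[]),
    (true,[([(0,16,[(7,8),(6,6)])],[2,2]),([(0,0,[(4,6)])],[3,1,1])],[],false,1,0,[]),
    (false,[([(0,2,[(7,8)]),(0,2,[(7,8)])],[2,1])],[3,3,3,1],true,2,2,[3]),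
    (false,[([(0,20,[(7,8),(7,8),(3,3)])],[5,2])],[3],false,1,0,[]),
    (false,[([(0,13,[(9,11)])],[])],[8,7,3],false,3,3,[5,6,7]),
    (false,[([(0,13,[(9,11)])],[1,1,1]),([(0,1,[(4,5)])],[3,3,2,1,1])],[],false,1,0,[2,4]),
    (false,[([(0,13,[(9,11)]),(0,3,[(2,2)])],[1]),([(0,1,[(4,5)])],[3,3,1,1,1])],[],false,1,0,[2]),
    (true,[([(0,10,[(9,11),(2,2),(2,2)])],[2,2]),([(0,1,[(4,5)])],[3,1,1])],[],false,1,0,[2]),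
    (false,[([(0,13,[(9,11)])],[1,1,1]),([(0,1,[(4,5)]),(1,0,[(2,2),(2,2),(2,2)])],[3,1])],[],false,1,0,[]),
    (true,[([(0,10,[(9,11),(3,4)])],[2,2]),([(0,1,[(4,5)])],[3,1,1])],[],false,1,0,[2]),
    (false,[([(0,13,[(9,11)])],[1,1,1]),([(0,1,[(4,5)]),(0,0,[(3,4),(2,2)])],[3,1])],[],false,1,0,[]),
    (false,[([(0,15,[(9,11),(6,6)])],[2,2,2])],[3,3],false,1,0,[2]),
    (false,[([(0,20,[(9,11),(6,6),(2,2)])],[5,2])],[3],false,1,0,[]),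
    (false,[([(0,17,[(9,11),(7,7)])],[5,2])],[4],false,1,0,[]),
    (true,[([(0,10,[(12,15)])],[2,2])],[6,2,2],false,2,3,[3,4]),
    (true,[([(0,10,[(12,15)])],[2,2]),([(0,3,[(3,3)])],[2,1,1,1])],[2],false,1,0,[2]),
    (true,[([(0,10,[(12,15)])],[2,2]),([(0,1,[(3,3),(2,2)])],[3,1,1])],[],false,1,0,[]),
    (false,[([(0,20,[(12,15),(4,4)])],[5,2])],[3],false,1,0,[])]),
  ([8,7,4,4,2,2,1], [
    (false,[],[8,7,4,4,2,2,1],false,4,5,[6,10,14,15]),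
    (true,[([(0,0,[(5,6)])],[1])],[7,6,4,2,2],false,4,4,[6]),
    (false,[([(0,0,[(5,6)]),(0,0,[(5,6)])],[1])],[8,4,2,1],true,4,3,[6]),
    (true,[([(0,0,[(5,6)]),(0,0,[(5,6)])],[]),([(0,0,[(5,6)])],[1])],[7,2],false,2,2,[3]),
    (false,[([(0,8,[(5,6),(3,3)])],[2,1,1]),([(0,0,[(5,6)]),(0,0,[(5,6)])],[1,1])],[],false,1,0,[]),
    (false,[([(0,8,[(7,10)])],[2,1,1])],[8,4,2],false,1,0,[3,5,6,8,9]),
    (false,[([(0,8,[(7,10)]),(0,3,[(2,3)])],[1])],[8,4,2],true,3,4,[]),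
    (false,[([(0,8,[(7,10)])],[2,1,1]),([(0,1,[(4,5)])],[3,2,2,1,1])],[],false,1,0,[3,5]),
    (false,[([(0,8,[(7,10)]),(0,3,[(2,3)])],[1]),([(0,1,[(4,5)])],[3,2,2,1,1])],[],false,1,0,[3]),
    (false,[([(0,8,[(7,10)]),(0,3,[(2,3)])],[1]),([(0,1,[(4,5)]),(0,3,[(2,3)])],[3,2,1])],[],false,1,0,[2,3]),
    (false,[([(0,8,[(7,10)]),(0,3,[(2,3)])],[1]),([(0,1,[(4,5)]),(1,0,[(2,3),(2,2)])],[2,1])],[],false,1,0,[2]),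
    (false,[([(0,8,[(7,10)]),(0,3,[(2,3)])],[1]),([(0,1,[(4,5)]),(1,0,[(2,3),(2,2)]),(0,3,[(2,2)])],[])],[],false,1,0,[2]),
    (false,[([(0,8,[(7,10)]),(0,3,[(2,3)])],[1]),([(0,1,[(4,5)]),(0,3,[(2,3)]),(1,0,[(2,2),(2,2),(2,2)])],[])],[],false,1,0,[]),
    (true,[([(0,8,[(7,10)]),(0,3,[(2,3)])],[]),([(0,14,[(4,5),(3,3)]),(0,3,[(2,3)])],[4])],[],false,1,0,[2]),
    (false,[([(0,8,[(7,10)]),(0,3,[(2,3)])],[1]),([(0,1,[(4,5)]),(0,0,[(2,3),(3,3)]),(0,3,[(2,2)])],[])],[],false,1,0,[]),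
    (false,[([(0,8,[(7,10)])],[2,1,1]),([(0,1,[(4,5)]),(0,1,[(4,5)])],[2,2])],[],false,1,0,[3]),
    (false,[([(0,8,[(7,10)]),(0,3,[(2,3)])],[1]),([(0,1,[(4,5)]),(0,1,[(4,5)])],[2,2])],[],false,1,0,[2]),
    (false,[([(0,8,[(7,10)]),(0,3,[(2,3)])],[1]),([(0,1,[(4,5)]),(0,0,[(4,5)]),(0,3,[(2,2)])],[])],[],false,1,0,[]),
    (false,[([(0,8,[(7,10)])],[2,1,1]),([(0,0,[(6,6)])],[3,2,1,1,1])],[],false,1,0,[3,4]),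
    (false,[([(0,8,[(7,10)]),(0,3,[(2,3)])],[1]),([(0,0,[(6,6)])],[3,2,1,1,1])],[],false,1,0,[3]),
    (false,[([(0,8,[(7,10)]),(0,3,[(2,3)])],[1]),([(0,0,[(6,6)]),(0,3,[(2,3)])],[3,1,1])],[],false,1,0,[2]),
    (true,[([(0,8,[(7,10)]),(0,3,[(2,3)])],[]),([(0,14,[(6,6),(2,2)]),(0,3,[(2,3)])],[4])],[],false,1,0,[]),
    (false,[([(0,8,[(7,10)]),(0,4,[(4,4)])],[4,3]),([(0,0,[(6,6)])],[1])],[],false,1,0,[]),
    (false,[([(0,8,[(7,10)]),(0,2,[(7,8)])],[2])],[4,2,2],false,2,2,[3]),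
    (true,[([(0,8,[(7,10)]),(0,3,[(3,3)])],[]),([(0,14,[(7,8)])],[4,2,1])],[],false,1,0,[]),
    (false,[([(0,20,[(7,10),(9,9)])],[3,2])],[4],false,1,0,[]),
    (true,[([(0,16,[(11,14)])],[1])],[7,4,2],false,3,2,[5]),
    (true,[([(0,16,[(11,14)])],[1]),([(0,1,[(4,5)])],[3,2,2,1])],[],false,1,0,[2]),
    (true,[([(0,16,[(11,14)])],[1]),([(0,1,[(4,5)]),(0,3,[(2,2)])],[3,2])],[],false,1,0,[]),
    (false,[([(0,21,[(15,15)])],[5])],[8],false,1,0,[])])]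

theorem cj5d_2_ok : runAllJ S38 R38 F38 14 cj5d_2 = true := by decide +kernel

noncomputable def cj5d_3 : List (List ℕ × List NdJ) := [
  ([8,7,5,4,2,2], [
    (false,[],[8,7,5,4,2,2],false,5,4,[8,12,15]),
    (false,[([(0,14,[(6,8)])],[4,2,1])],[8,5],false,1,0,[2,3,4,6,8]),
    (true,[([(0,8,[(6,8),(2,2)])],[])],[6,6,4,2],true,2,8,[]),
    (false,[([(0,14,[(6,8)]),(0,3,[(3,3)])],[4])],[8,5],false,1,0,[2,3]),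
    (true,[([(0,8,[(6,8),(2,2)]),(0,3,[(3,3)])],[])],[6,4,3,2],false,2,6,[]),
    (true,[([(0,14,[(6,8)])],[3,1]),([(0,0,[(3,3),(3,3)])],[3,2,1])],[4],false,1,0,[2,3]),
    (true,[([(0,8,[(6,8),(2,2)]),(0,3,[(3,3)])],[]),([(0,3,[(3,3)])],[2])],[6,4],false,2,4,[]),
    (true,[([(0,14,[(6,8)])],[3,2]),([(1,1,[(3,3),(3,3),(3,3)])],[4,1])],[],false,1,0,[3]),
    (true,[([(0,14,[(6,8)])],[4,3]),([(1,1,[(3,3),(3,3),(3,3)]),(0,3,[(2,3)])],[])],[],false,1,0,[3]),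
    (true,[([(0,14,[(6,8)])],[3,2]),([(0,3,[(3,3)]),(0,3,[(3,3)]),(0,3,[(3,3)])],[]),([(0,3,[(2,3)]),(0,3,[(2,3)])],[])],[],false,1,0,[2]),
    (true,[([(0,8,[(6,8),(2,2)]),(0,3,[(2,3)])],[]),([(0,0,[(3,3),(3,3)]),(0,0,[(3,3),(2,3)])],[])],[3],false,1,0,[]),
    (true,[([(0,18,[(6,8),(4,4)])],[4])],[6,4,2],false,2,6,[4]),
    (false,[([(0,14,[(6,8)]),(0,14,[(4,4),(3,4)])],[])],[7,5],false,2,4,[3,4]),
    (false,[([(0,14,[(6,8)]),(0,14,[(4,4),(3,4)])],[]),([(0,3,[(3,3)])],[2,2,2,2,1])],[],false,1,0,[3]),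
    (false,[([(0,14,[(6,8)]),(0,14,[(4,4),(3,4)])],[]),([(0,3,[(3,3)]),(0,3,[(2,3)])],[2,2,2])],[],false,1,0,[2]),
    (true,[([(0,10,[(6,8),(4,4),(3,3)])],[1]),([(0,0,[(3,4),(2,2)]),(0,3,[(2,3)])],[3])],[],false,1,0,[]),
    (false,[([(0,14,[(6,8)]),(0,14,[(4,4),(3,4)])],[]),([(0,4,[(4,4)])],[2,2,2,1,1])],[],false,1,0,[2]),
    (true,[([(0,18,[(6,8),(4,4)])],[5]),([(0,0,[(3,4),(2,2)]),(0,4,[(4,4)])],[1])],[],false,1,0,[]),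
    (true,[([(0,14,[(6,8)])],[3,1]),([(0,0,[(5,6)])],[3,2,1])],[4],false,1,0,[2,3,4,6]),
    (false,[([(0,14,[(6,8)]),(0,14,[(5,6),(2,2)])],[])],[7,5],false,2,4,[]),
    (true,[([(0,14,[(6,8)])],[3,2]),([(0,8,[(5,6),(3,3)])],[4,1])],[],false,1,0,[2,3]),
    (true,[([(0,8,[(6,8),(2,2)])],[2,1]),([(0,8,[(5,6),(3,3)])],[4,1])],[],false,1,0,[2]),
    (true,[([(0,8,[(6,8),(2,2)]),(0,3,[(2,2)])],[]),([(0,8,[(5,6),(3,3)])],[4,1])],[],false,1,0,[2]),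
    (true,[([(0,8,[(6,8),(2,2)]),(0,3,[(3,3)])],[]),([(0,8,[(5,6),(2,2),(2,2)])],[4,1])],[],false,1,0,[]),
    (true,[([(0,14,[(6,8)])],[4,3]),([(0,8,[(5,6),(3,3)]),(0,3,[(3,3)])],[])],[],false,1,0,[2]),
    (true,[([(0,8,[(6,8),(2,2)]),(0,3,[(3,3)])],[]),([(0,8,[(5,6),(3,3)])],[4,1])],[],false,1,0,[]),
    (true,[([(0,18,[(6,8),(4,4)])],[4]),([(0,0,[(5,6)])],[3,2,1])],[],false,1,0,[3]),
    (true,[([(0,18,[(6,8),(4,4)])],[4]),([(0,0,[(5,6)]),(0,3,[(2,3)])],[3])],[],false,1,0,[2]),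
    (true,[([(0,18,[(6,8),(4,4)])],[4]),([(0,0,[(5,6)]),(1,0,[(2,3),(2,2)])],[])],[],false,1,0,[]),
    (true,[([(0,14,[(6,8)])],[3,1]),([(0,0,[(5,6)]),(0,0,[(5,6)])],[])],[4],false,1,0,[2]),
    (true,[([(0,8,[(6,8),(2,2)])],[]),([(0,0,[(5,6)]),(0,0,[(5,6)])],[])],[6],false,1,0,[]),
    (false,[([(0,14,[(6,8)]),(0,14,[(7,8)])],[])],[7,5],false,2,3,[3,4]),
    (false,[([(0,14,[(6,8)]),(0,13,[(7,8),(3,3)])],[])],[7,2],false,2,1,[]),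
    (true,[([(0,18,[(6,8),(4,4)])],[4]),([(0,2,[(7,8)])],[2,1,1])],[],false,1,0,[]),
    (true,[([(0,18,[(9,12)])],[4])],[6,4,2],false,2,6,[3,6,7]),
    (true,[([(0,10,[(9,12),(3,3)])],[1])],[6,4,2],false,3,2,[]),
    (true,[([(0,18,[(9,12)])],[4]),([(0,0,[(4,6)])],[3,2,1])],[],false,1,0,[2,3,4]),
    (true,[([(0,18,[(9,12)])],[4]),([(0,0,[(4,6)]),(0,3,[(2,2)])],[3])],[],false,1,0,[2]),
    (true,[([(0,18,[(9,12)])],[4]),([(0,0,[(4,6)]),(1,0,[(2,2),(2,2)])],[])],[],false,1,0,[2]),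
    (true,[([(0,18,[(9,12)])],[4]),([(0,0,[(4,6)]),(1,0,[(2,2),(2,2),(2,2)])],[])],[],false,1,0,[]),
    (true,[([(0,10,[(9,12),(3,3)])],[1]),([(0,0,[(4,6)])],[3,2,1])],[],false,1,0,[2]),
    (true,[([(0,10,[(9,12),(3,3)])],[1]),([(0,0,[(4,6)]),(0,3,[(2,2)])],[3])],[],false,1,0,[]),
    (true,[([(0,18,[(9,12)])],[5]),([(0,0,[(4,6)]),(0,4,[(4,4)])],[1])],[],false,1,0,[]),
    (true,[([(0,18,[(9,12)])],[4]),([(0,2,[(7,7)])],[2,1,1])],[],false,1,0,[]),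
    (true,[([(0,10,[(13,15)])],[1])],[6,4,2],false,3,2,[])]),
  ([8,7,5,5,2,1], [
    (false,[],[8,7,5,5,2,1],true,4,5,[6,8,11,15]),
    (false,[([(0,0,[(5,6)])],[1,1])],[8,7,5],false,3,5,[6]),
    (true,[([(0,0,[(5,6)]),(0,0,[(4,6)])],[])],[5,4,4,2,1],false,3,3,[4,6]),
    (true,[([(0,0,[(5,6)]),(0,0,[(4,6)])],[]),([(0,4,[(4,4)])],[2,2])],[5,2,1],true,3,2,[4]),
    (true,[([(0,0,[(5,6)]),(0,0,[(4,6)])],[]),([(0,4,[(4,4)]),(0,4,[(4,4)])],[])],[5,2,1],false,2,1,[]),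
    (true,[([(0,0,[(5,6)]),(0,0,[(4,6)])],[]),([(0,0,[(5,6)])],[1])],[5,4],false,2,3,[3,4]),
    (true,[([(0,8,[(5,6),(3,3)])],[2]),([(0,0,[(4,6)]),(0,0,[(5,6)])],[])],[4],false,1,0,[2]),
    (false,[([(0,0,[(5,6)]),(0,0,[(4,6)]),(0,3,[(3,3)])],[]),([(0,0,[(5,6)]),(0,3,[(2,2)])],[2,2])],[],false,1,0,[]),
    (true,[([(0,8,[(5,6),(4,4)])],[2]),([(0,0,[(4,6)]),(0,0,[(5,6)])],[])],[4],false,1,0,[]),
    (true,[([(0,2,[(7,8)])],[2])],[6,5,4,2,1],false,4,3,[6,8]),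
    (false,[([(0,2,[(7,8)]),(0,0,[(5,6)])],[3,3])],[5,2,1],true,3,2,[5]),
    (true,[([(0,2,[(7,8)])],[2]),([(0,0,[(5,6)]),(0,0,[(4,5)])],[])],[5,1],false,2,1,[]),
    (false,[([(0,2,[(7,8)]),(0,2,[(7,8)])],[3,1])],[5,2,1],false,3,1,[]),
    (true,[([(0,13,[(9,11)])],[4])],[6,4,2,1],true,4,2,[6,7]),
    (true,[([(0,13,[(9,11)])],[3]),([(0,0,[(5,6)])],[3,2,1])],[2],false,1,0,[3]),
    (true,[([(0,13,[(9,11)])],[3]),([(0,0,[(5,6)]),(0,3,[(2,3)])],[3])],[2],false,1,0,[2]),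
    (true,[([(0,13,[(9,11)])],[3]),([(0,0,[(5,6)]),(1,0,[(2,3),(2,2)])],[])],[2],false,1,0,[]),
    (true,[([(0,13,[(9,11)])],[3]),([(0,14,[(7,7)])],[4,2])],[],false,1,0,[]),
    (true,[([(0,10,[(12,15)])],[3])],[4,4,2],true,2,3,[3,4]),
    (true,[([(0,10,[(12,15)])],[3]),([(0,3,[(3,3)])],[2,1])],[4],false,1,0,[2]),
    (true,[([(0,10,[(12,15)])],[3]),([(0,3,[(3,3)]),(0,3,[(2,2)])],[])],[4],false,1,0,[]),
    (true,[([(0,10,[(12,15)])],[3]),([(0,4,[(4,4)])],[1,1])],[4],false,1,0,[])]),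
  ([8,7,6,2,2,2,1], [
    (false,[],[8,7,6,2,2,2,1],false,4,6,[6,8,11,14,15]),
    (true,[([(0,0,[(5,6)])],[])],[7,6,3,3,3],false,3,6,[5,6]),
    (true,[([(0,0,[(5,6)]),(0,1,[(4,5)])],[])],[7,3,3,3,1],true,3,4,[4,5]),
    (true,[([(0,0,[(5,6)]),(0,1,[(4,5)])],[]),([(0,4,[(4,4)])],[2])],[7,3,1],true,3,3,[4]),
    (true,[([(0,0,[(5,6)]),(0,1,[(4,5)])],[]),([(0,1,[(4,4)]),(0,1,[(4,4)])],[3])],[3,1],false,2,1,[]),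
    (true,[([(0,0,[(5,6)])],[]),([(0,1,[(4,5)]),(0,1,[(5,5)])],[3])],[6,3],false,2,3,[4]),
    (false,[([(0,8,[(5,6),(3,4)])],[2,2,2]),([(0,1,[(4,5)]),(0,1,[(5,5)])],[1,1])],[],false,1,0,[2]),
    (false,[([(0,8,[(5,6),(3,4)]),(0,3,[(2,2)])],[2,2]),([(0,1,[(4,5)]),(0,1,[(5,5)])],[1])],[],false,1,0,[]),
    (false,[([(0,0,[(5,6)]),(0,0,[(6,6)])],[2,2])],[7,2,2,1],true,3,3,[5,6]),
    (true,[([(0,0,[(5,6)])],[3,1,1]),([(0,13,[(6,6),(4,5)])],[1,1,1])],[3],false,1,0,[3]),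
    (false,[([(0,0,[(5,6)]),(0,0,[(6,6)])],[2,2]),([(0,1,[(4,5)]),(0,3,[(2,3)])],[1,1])],[2],false,1,0,[2]),
    (false,[([(0,0,[(5,6)]),(1,0,[(2,3),(2,2)])],[2,2]),([(0,7,[(6,6)]),(0,1,[(4,5)])],[])],[],false,1,0,[]),
    (false,[([(0,17,[(5,6),(6,6),(6,6)])],[2])],[8],false,1,0,[]),
    (true,[([(0,2,[(7,8)])],[])],[7,6,3,3,1],false,3,6,[5,6,8]),
    (true,[([(0,2,[(7,8)]),(0,0,[(4,5)])],[2])],[3,3,3,2,1],true,3,3,[5]),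
    (true,[([(0,2,[(7,8)])],[]),([(0,1,[(4,5)]),(0,1,[(4,5)])],[3])],[6,1],true,2,2,[3]),
    (true,[([(0,13,[(7,8),(3,3)])],[1,1]),([(0,1,[(4,5)]),(0,1,[(4,5)])],[2])],[3],false,1,0,[]),
    (true,[([(0,2,[(7,8)]),(0,0,[(6,6)])],[2])],[3,3,3,2,1],false,3,1,[4]),
    (false,[([(0,17,[(7,8),(6,6),(4,4)])],[2])],[8],false,1,0,[]),
    (true,[([(0,2,[(7,8)])],[]),([(0,2,[(7,8)])],[3,2,2,1])],[3,1],true,2,2,[3]),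
    (false,[([(0,13,[(7,8),(3,3)]),(0,2,[(7,8)])],[3])],[2,2,2],false,1,0,[]),
    (true,[([(0,13,[(9,11)])],[1,1])],[7,3,3,2],true,3,3,[5,6,7]),
    (true,[([(0,13,[(9,11)])],[1,1]),([(0,1,[(4,5)])],[3,2,1,1])],[3],false,1,0,[2,3,4]),
    (true,[([(0,13,[(9,11)])],[1,1]),([(0,1,[(4,5)]),(0,3,[(2,2)])],[3,1])],[3],false,1,0,[2]),
    (true,[([(0,13,[(9,11)])],[1,1]),([(0,1,[(4,5)]),(1,0,[(2,2),(2,2)])],[1])],[3],false,1,0,[2]),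
    (true,[([(0,13,[(9,11)])],[1,1]),([(0,1,[(4,5)]),(1,0,[(2,2),(2,2),(2,2)])],[1])],[3],false,1,0,[]),
    (true,[([(0,13,[(9,11)])],[1,1]),([(0,1,[(4,5)]),(0,3,[(3,3)])],[3,1])],[3],false,1,0,[2]),
    (true,[([(0,13,[(9,11)])],[1,1]),([(0,1,[(4,5)]),(0,1,[(3,3),(2,2)])],[2])],[3],false,1,0,[]),
    (true,[([(0,13,[(9,11)])],[1,1]),([(0,1,[(4,5)]),(0,1,[(4,4)])],[2])],[3],false,1,0,[]),
    (true,[([(0,13,[(9,11)])],[1,1]),([(0,0,[(6,6)])],[3,1,1,1])],[3],false,1,0,[2]),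
    (false,[([(0,13,[(9,11)]),(0,2,[(6,6),(2,2)])],[3])],[2,2,2],false,1,0,[]),
    (false,[([(0,17,[(9,11),(7,7)])],[2])],[8],false,1,0,[]),
    (false,[([(0,16,[(12,14)])],[2,2])],[8,2],true,2,3,[3,4]),
    (false,[([(0,16,[(12,14)]),(0,3,[(3,3)])],[2])],[7,2],false,2,1,[]),
    (false,[([(0,17,[(12,14),(4,4)])],[2])],[8],false,1,0,[]),
    (false,[([(0,10,[(15,15)])],[3,3,3])],[2,2],false,1,0,[])]),
  ([8,7,6,3,2,2], [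
    (false,[],[8,7,6,3,2,2],false,5,3,[8,11,15]),
    (false,[([(0,14,[(6,8)])],[4,1])],[8,7],false,1,0,[2,3,4,5,7,8]),
    (true,[([(0,8,[(6,8),(2,2)])],[1,1])],[6,4,3,3],false,2,8,[]),
    (false,[([(0,14,[(6,8)])],[4,1]),([(0,3,[(3,3)])],[2,2,2,2,2,2])],[],false,1,0,[2,3]),
    (true,[([(0,8,[(6,8),(2,2)]),(0,3,[(3,3)])],[])],[6,3,3,3],false,2,6,[]),
    (true,[([(0,14,[(6,8)])],[3,1]),([(0,0,[(3,3),(3,3)])],[3,3,1])],[3],false,1,0,[2,3]),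
    (true,[([(0,8,[(6,8),(2,2)])],[1,1]),([(0,0,[(3,3),(3,3)])],[3,3,1])],[3],false,1,0,[2]),
    (true,[([(0,8,[(6,8),(2,2)])],[]),([(0,3,[(3,3)]),(0,3,[(3,3)]),(0,3,[(2,2)])],[])],[6,3],false,2,3,[]),
    (true,[([(0,14,[(6,8)])],[3,1]),([(0,3,[(3,3)]),(0,3,[(3,3)]),(0,3,[(3,3)])],[])],[4,3],false,2,3,[3]),
    (true,[([(0,14,[(6,8)])],[3,1]),([(0,3,[(3,3)]),(0,3,[(3,3)]),(0,3,[(3,3)])],[]),([(0,3,[(3,3)])],[2,2])],[],false,1,0,[2]),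
    (true,[([(0,8,[(6,8),(2,2)]),(0,3,[(3,3)])],[]),([(0,3,[(3,3)]),(0,3,[(3,3)]),(0,3,[(3,3)])],[])],[3,3],false,1,0,[]),
    (true,[([(0,18,[(6,8),(4,4)])],[4])],[6,3,3],false,2,6,[3,4]),
    (true,[([(0,10,[(6,8),(4,4),(3,3)])],[1])],[6,3,3],false,2,4,[3]),
    (true,[([(0,10,[(6,8),(4,4),(3,3)])],[1]),([(0,3,[(3,3)])],[2,2,1,1])],[3],false,1,0,[3]),
    (true,[([(0,10,[(6,8),(4,4),(3,3)])],[1]),([(0,3,[(3,3)]),(0,3,[(2,3)])],[2,1])],[3],false,1,0,[2]),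
    (true,[([(0,10,[(6,8),(4,4),(3,3)])],[1]),([(0,3,[(3,3)]),(0,3,[(2,3)]),(0,3,[(2,2)])],[])],[3],false,1,0,[]),
    (false,[([(0,18,[(6,8),(4,4)]),(0,4,[(4,4)])],[5])],[7],false,1,0,[3,4]),
    (true,[([(0,18,[(6,8),(4,4)])],[4]),([(0,4,[(4,4)]),(0,3,[(2,3)])],[1,1])],[3],false,1,0,[3]),
    (false,[([(0,14,[(6,8)])],[4,1,1]),([(0,4,[(4,4)]),(0,4,[(4,4)]),(0,3,[(2,3)]),(0,3,[(2,3)])],[])],[],false,1,0,[2]),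
    (true,[([(0,8,[(6,8),(2,2)]),(0,3,[(2,3)])],[]),([(0,4,[(4,4)]),(0,3,[(2,3)])],[1,1]),([(0,4,[(4,4)])],[2])],[],false,1,0,[]),
    (false,[([(0,14,[(6,8)])],[4,1]),([(0,4,[(4,4)]),(0,4,[(4,4)]),(0,4,[(4,4)])],[2,1])],[],false,1,0,[]),
    (true,[([(0,14,[(6,8)])],[3,1]),([(0,1,[(5,5)])],[3,3,1])],[4],false,1,0,[2,3,4,5]),
    (true,[([(0,10,[(6,8),(5,5),(2,2)])],[1])],[6,3,3],false,2,4,[]),
    (true,[([(0,14,[(6,8)])],[3,1]),([(0,14,[(5,5),(3,3)])],[4,4])],[],false,1,0,[2,3]),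
    (true,[([(0,10,[(6,8),(5,5),(2,2)])],[1]),([(0,3,[(3,3)])],[2,2,1,1])],[3],false,1,0,[2]),
    (true,[([(0,10,[(6,8),(5,5),(2,2)])],[1]),([(0,1,[(3,3),(2,2)])],[3,3,1])],[],false,1,0,[2]),
    (true,[([(0,10,[(6,8),(5,5),(2,2)])],[1]),([(0,3,[(3,3)]),(0,3,[(2,2)]),(0,3,[(2,2)])],[])],[3],false,1,0,[]),
    (true,[([(0,14,[(6,8)])],[3,3]),([(0,1,[(5,5)]),(0,0,[(3,3),(3,3)])],[])],[3],false,1,0,[2]),
    (true,[([(0,10,[(6,8),(5,5),(2,2)])],[1]),([(0,3,[(3,3)]),(0,3,[(3,3)])],[2,1])],[3],false,1,0,[]),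
    (true,[([(0,18,[(6,8),(4,4)])],[4]),([(0,1,[(5,5)])],[3,3,1])],[],false,1,0,[2,3]),
    (true,[([(0,10,[(6,8),(5,5),(2,2)])],[1]),([(0,4,[(4,4)])],[2])],[6],false,1,0,[2]),
    (true,[([(0,10,[(6,8),(5,5),(2,2)])],[1]),([(0,4,[(4,4)]),(0,3,[(2,2)])],[1,1])],[3],false,1,0,[]),
    (true,[([(0,10,[(6,8),(4,4),(3,3)])],[1]),([(0,1,[(5,5)])],[3,3,1])],[],false,1,0,[]),
    (true,[([(0,14,[(6,8)])],[4,4]),([(0,8,[(5,5),(5,5)])],[1,1])],[],false,1,0,[2]),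
    (true,[([(0,10,[(6,8),(5,5),(2,2)])],[1]),([(0,1,[(5,5)])],[3,3,1])],[],false,1,0,[]),
    (true,[([(0,10,[(6,8),(6,7)])],[1])],[6,3,3],false,2,4,[3,4,5]),
    (true,[([(0,10,[(6,8),(6,7)])],[1]),([(0,3,[(3,3)])],[2,2,1,1])],[3],false,1,0,[3]),
    (true,[([(0,10,[(6,8),(6,7)])],[1]),([(0,3,[(3,3)]),(0,3,[(2,3)])],[2,1])],[3],false,1,0,[2]),
    (true,[([(0,10,[(6,8),(6,7)])],[1]),([(0,3,[(3,3)]),(0,3,[(2,3)]),(0,3,[(2,2)])],[])],[3],false,1,0,[]),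
    (true,[([(0,10,[(6,8),(6,7)])],[1]),([(0,4,[(4,4)])],[2])],[6],false,1,0,[2]),
    (true,[([(0,10,[(6,8),(6,7)])],[1]),([(0,4,[(4,4)]),(0,3,[(2,2)])],[1,1])],[3],false,1,0,[]),
    (true,[([(0,10,[(6,8),(6,7)])],[1]),([(0,1,[(5,5)])],[3,3,1])],[],false,1,0,[]),
    (true,[([(0,14,[(6,8)])],[3,1]),([(0,14,[(8,8)])],[4,4])],[],false,1,0,[3]),
    (true,[([(0,14,[(6,8)])],[4,3]),([(0,13,[(8,8),(2,3)])],[1,1])],[],false,1,0,[2]),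
    (true,[([(0,8,[(6,8),(2,2)])],[4,1]),([(0,13,[(8,8),(2,3)])],[1,1])],[],false,1,0,[]),
    (true,[([(0,13,[(9,11)])],[1,1])],[6,4,3,2],false,4,2,[6,7]),
    (true,[([(0,13,[(9,11)])],[]),([(0,0,[(5,6)])],[3,1,1])],[6],false,1,0,[3]),
    (true,[([(0,13,[(9,11)]),(0,3,[(2,3)])],[]),([(0,0,[(5,6)])],[3,1,1])],[3],false,1,0,[2]),
    (true,[([(0,13,[(9,11)])],[1,1]),([(0,0,[(5,6)]),(1,0,[(2,3),(2,2)])],[])],[3],false,1,0,[]),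
    (true,[([(0,13,[(9,11)])],[2,1]),([(0,7,[(7,7)])],[4,3])],[],false,1,0,[]),
    (true,[([(0,10,[(12,15)])],[1])],[6,3,3],false,2,3,[3,4]),
    (true,[([(0,10,[(12,15)])],[1]),([(0,3,[(3,3)])],[2,2,1,1])],[3],false,1,0,[2]),
    (true,[([(0,10,[(12,15)])],[1]),([(0,1,[(3,3),(2,2)])],[3,3,1])],[],false,1,0,[]),
    (true,[([(0,10,[(12,15)])],[1]),([(0,4,[(4,4)])],[2])],[6],false,1,0,[])]),
  ([8,7,6,4,1,1,1], [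
    (false,[],[8,7,6,4,1,1,1],false,5,3,[7,10,13,15]),
    (false,[([(0,7,[(6,7)])],[])],[8,7,6],false,3,6,[4,6,7]),
    (true,[([(0,13,[(6,7),(4,4)])],[])],[7,4,4,2],true,3,3,[4]),
    (true,[([(0,13,[(6,7),(4,4)]),(0,1,[(4,4)])],[])],[4,3,3,2],false,3,2,[4]),
    (true,[([(0,10,[(6,7),(4,4),(4,4)])],[1,1]),([(0,4,[(4,4)])],[2,1])],[4],false,1,0,[]),
    (true,[([(0,14,[(6,7)]),(0,0,[(5,6)])],[])],[4,4,3,3],false,2,5,[3,4,5,6]),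
    (false,[([(0,8,[(6,7),(3,3)]),(0,0,[(5,6)])],[3])],[7,1,1],true,2,3,[3]),
    (false,[([(0,8,[(6,7),(3,3)]),(0,0,[(5,6)])],[3]),([(0,3,[(3,3)])],[1,1,1,1,1])],[1],false,1,0,[2]),
    (false,[([(0,8,[(6,7),(3,3)]),(0,0,[(5,6)])],[3]),([(0,1,[(3,3),(2,2)])],[1,1,1,1])],[],false,1,0,[]),
    (false,[([(0,13,[(6,7),(4,4)]),(0,0,[(5,6)])],[2])],[7,1,1],false,2,2,[3]),
    (false,[([(0,13,[(6,7),(4,4)]),(0,0,[(5,6)])],[2]),([(0,3,[(3,3)])],[1,1,1,1,1])],[1],false,1,0,[]),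
    (false,[([(0,7,[(6,7)])],[1,1,1]),([(0,0,[(5,6)]),(0,0,[(5,5)])],[3,3])],[],false,1,0,[2]),
    (false,[([(0,8,[(6,7),(2,2)]),(0,0,[(5,6)])],[3]),([(0,1,[(5,5)])],[1,1,1,1])],[],false,1,0,[]),
    (false,[([(0,7,[(6,7)])],[1,1,1]),([(0,0,[(5,6)]),(0,0,[(6,6)])],[3,3])],[],false,1,0,[]),
    (true,[([(0,7,[(6,7)]),(0,2,[(7,7)])],[])],[4,4,3,2],false,3,2,[4]),
    (true,[([(0,10,[(6,7),(7,7)])],[1,1]),([(0,4,[(4,4)])],[2,1])],[4],false,1,0,[]),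
    (true,[([(0,8,[(8,10)])],[])],[7,4,4,3],false,3,3,[5,6,8]),
    (true,[([(0,8,[(8,10)]),(0,1,[(4,5)])],[])],[4,4,3,2],false,3,2,[4,5]),
    (true,[([(0,8,[(8,10)]),(0,1,[(4,5)])],[]),([(0,4,[(4,4)])],[1,1])],[4,3],false,2,1,[]),
    (true,[([(0,8,[(8,10)]),(0,1,[(4,5)])],[]),([(0,0,[(5,5)])],[3])],[4],false,1,0,[]),
    (false,[([(0,8,[(8,10)]),(0,0,[(6,6)])],[3])],[7,1,1],false,2,2,[3]),
    (false,[([(0,8,[(8,10)]),(0,0,[(6,6)])],[3]),([(0,3,[(3,3)])],[1,1,1,1,1])],[1],false,1,0,[]),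
    (false,[([(0,8,[(8,10)]),(0,2,[(7,8)])],[])],[8,1,1],false,2,1,[]),
    (true,[([(0,9,[(11,13)])],[])],[7,4,3,1],false,4,1,[5]),
    (true,[([(0,9,[(11,13)])],[]),([(0,1,[(5,5)])],[2,2,1,1])],[4],false,1,0,[]),
    (true,[([(0,10,[(14,15)])],[1,1])],[4,4,3],false,2,1,[])]),
  ([8,7,6,5,2], [
    (false,[],[8,7,6,5,2],false,4,6,[5,6,8,11,14,15]),
    (true,[([(0,1,[(5,5)])],[2])],[5,5,4,4,3],false,2,10,[3,4,5]),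
    (true,[([(0,8,[(5,5),(3,3)])],[])],[5,5,4,4],false,2,8,[3]),
    (true,[([(0,0,[(5,5)])],[2,2]),([(0,3,[(3,3)]),(0,3,[(3,3)])],[])],[5,4,3],false,3,3,[]),
    (true,[([(0,0,[(5,5)]),(0,4,[(4,4)])],[])],[5,4,4,3,2],false,4,2,[]),
    (true,[([(0,8,[(5,5),(5,5)])],[2])],[5,4,4,3],false,3,3,[4,5]),
    (true,[([(0,10,[(5,5),(5,5),(4,4)])],[])],[5,4,4],false,2,3,[4]),
    (true,[([(0,10,[(5,5),(5,5),(3,4)])],[]),([(0,4,[(4,4)])],[2,2])],[5],false,1,0,[2]),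
    (true,[([(0,10,[(5,5),(5,5),(3,4)])],[]),([(0,4,[(4,4)]),(0,3,[(2,2)])],[2])],[4],false,1,0,[]),
    (true,[([(0,10,[(5,5),(5,5),(5,5)])],[])],[5,4,4],false,2,2,[3]),
    (true,[([(2,15,[(5,5),(5,5),(5,5),(3,3)])],[])],[5,4],false,1,0,[]),
    (true,[([(0,0,[(6,6)])],[2,2])],[5,4,4,3,2],false,3,5,[5,6]),
    (true,[([(0,13,[(6,6),(4,5)])],[3])],[5,4,3,2],false,4,2,[5]),
    (true,[([(0,13,[(6,6),(4,5)])],[3]),([(0,1,[(5,5)])],[3,2])],[4],false,1,0,[3]),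
    (true,[([(0,13,[(6,6),(4,5)])],[4]),([(0,0,[(5,5)]),(0,3,[(2,3)])],[])],[4],false,1,0,[2]),
    (false,[([(0,13,[(6,6),(4,5)]),(0,8,[(5,5),(2,3),(2,2)])],[])],[7],false,1,0,[]),
    (true,[([(0,10,[(6,6),(6,6)])],[])],[5,4,4],false,2,4,[3,5]),
    (true,[([(0,10,[(6,6),(6,6),(3,3)])],[])],[5,4,4],false,2,2,[3]),
    (true,[([(2,18,[(6,6),(6,6),(3,3),(3,3)])],[])],[5,4],false,1,0,[]),
    (false,[([(0,13,[(6,6),(4,5)]),(0,0,[(6,6)])],[4])],[7],false,1,0,[2]),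
    (false,[([(0,13,[(6,6),(4,5)]),(0,2,[(6,6),(2,2)])],[4])],[5],false,1,0,[]),
    (true,[([(0,2,[(7,8)])],[2])],[5,5,4,3,1],true,4,2,[5,7,8]),
    (true,[([(0,10,[(7,8),(5,5)])],[])],[5,4,4],false,2,4,[3,5]),
    (true,[([(0,2,[(7,8)])],[3]),([(0,1,[(5,5)]),(0,3,[(3,3)])],[])],[5,4],false,2,2,[3]),
    (false,[([(0,13,[(7,8),(3,3)]),(0,8,[(5,5),(3,3)])],[])],[7],false,1,0,[]),
    (false,[([(0,2,[(7,8)]),(0,8,[(5,5),(4,5)])],[4])],[6],false,1,0,[2]),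
    (true,[([(0,2,[(7,8)]),(0,3,[(2,2)])],[]),([(0,8,[(5,5),(4,5)])],[3])],[4],false,1,0,[]),
    (true,[([(0,10,[(7,8),(6,7)])],[])],[5,4,4],false,2,3,[3,4]),
    (true,[([(0,10,[(7,8),(6,7)])],[]),([(0,3,[(3,3)])],[2,2,2])],[4],false,1,0,[2]),
    (false,[([(0,13,[(7,8),(3,3)]),(0,8,[(6,7),(2,2)])],[])],[7],false,1,0,[]),
    (true,[([(0,10,[(7,8),(6,7)])],[]),([(0,4,[(4,4)])],[2,2])],[5],false,1,0,[]),
    (true,[([(0,15,[(7,8),(8,8)])],[])],[5,4,2],false,2,1,[]),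
    (true,[([(0,13,[(9,11)])],[3])],[5,4,3,2],false,4,2,[6,7]),
    (false,[([(0,13,[(9,11)]),(0,0,[(5,6)])],[4])],[7],false,1,0,[2,3]),
    (true,[([(0,13,[(9,11)])],[4]),([(0,0,[(5,6)]),(0,3,[(2,2)])],[])],[4],false,1,0,[2]),
    (false,[([(0,13,[(9,11)]),(0,8,[(5,6),(2,2),(2,2)])],[])],[7],false,1,0,[]),
    (false,[([(0,13,[(9,11)]),(0,8,[(5,6),(3,3)])],[])],[7],false,1,0,[]),
    (false,[([(0,13,[(9,11)]),(0,2,[(7,7)])],[4])],[5],false,1,0,[]),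
    (true,[([(0,10,[(12,14)])],[])],[5,4,4],false,2,3,[3,4]),
    (true,[([(0,15,[(12,14),(3,3)])],[])],[5,4,2],false,2,1,[]),
    (true,[([(0,10,[(12,14)])],[]),([(0,4,[(4,4)])],[2,2])],[5],false,1,0,[]),
    (false,[([(0,10,[(15,15)])],[5,4,4])],[],false,1,0,[])]),
  ([8,7,6,5,4], [
    (false,[],[8,7,6,5,4],false,5,4,[6,8,9,10,13,15]),
    (true,[([(0,0,[(6,6)])],[2,2])],[5,5,5,3,2],true,3,4,[4,5,6]),
    (true,[([(0,0,[(6,6)]),(0,4,[(4,4)])],[])],[5,5,5,3,2],true,3,4,[4]),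
    (true,[([(0,0,[(6,6)]),(0,4,[(4,4)])],[]),([(0,4,[(4,4)])],[2,2,2])],[5,3,2],false,3,2,[4]),
    (true,[([(0,10,[(6,6),(4,4),(4,4)])],[]),([(0,4,[(4,4)])],[2,2,2])],[5],false,1,0,[]),
    (true,[([(0,13,[(6,6),(5,5)])],[2])],[5,5,5,2],true,2,5,[3,4,5]),
    (false,[([(0,10,[(6,6),(5,5),(3,3)])],[5,5,5])],[],false,1,0,[2,3]),
    (true,[([(0,2,[(6,6),(2,2)])],[3,2]),([(0,1,[(5,5)]),(0,3,[(3,3)])],[])],[5,4],false,2,2,[]),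
    (true,[([(0,13,[(6,6),(5,5)])],[2]),([(0,3,[(3,3)]),(0,3,[(3,3)])],[1])],[5,5],false,1,0,[2]),
    (false,[([(0,2,[(6,6),(2,2)]),(0,1,[(5,5)])],[3]),([(0,3,[(3,3)]),(0,3,[(3,3)])],[2,2,2,2])],[],false,1,0,[]),
    (true,[([(0,13,[(6,6),(5,5)])],[2]),([(0,4,[(4,4)])],[2,2,2])],[5,2],false,2,2,[3]),
    (true,[([(0,10,[(6,6),(5,5),(3,3)])],[]),([(0,4,[(4,4)])],[2,2,2])],[5],false,1,0,[]),
    (true,[([(2,17,[(6,6),(5,5),(5,5)])],[])],[5,5],false,1,0,[2]),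
    (true,[([(0,2,[(6,6),(2,2)])],[2,2]),([(0,8,[(5,5),(5,5)])],[3])],[5],false,1,0,[]),
    (false,[([(0,0,[(6,6)]),(0,0,[(6,6)])],[3,3])],[7,5],false,2,4,[3,4,5]),
    (false,[([(0,10,[(6,6),(6,6),(3,3)])],[5,5,5])],[],false,1,0,[3]),
    (false,[([(0,0,[(6,6)]),(0,0,[(6,6)])],[3,3]),([(0,3,[(3,3)]),(0,3,[(2,3)])],[2,2,2])],[],false,1,0,[2]),
    (false,[([(0,2,[(6,6),(2,2)]),(0,0,[(6,6)])],[3]),([(0,3,[(3,3)]),(0,3,[(2,3)])],[2,2,2,1])],[],false,1,0,[]),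
    (true,[([(0,10,[(6,6),(6,6)])],[]),([(0,4,[(4,4)])],[2,2,2])],[5],false,1,0,[2]),
    (true,[([(0,10,[(6,6),(6,6),(2,2)])],[]),([(0,4,[(4,4)])],[2,2,2])],[5],false,1,0,[]),
    (true,[([(2,24,[(6,6),(6,6),(5,5)])],[])],[5,5],false,1,0,[]),
    (true,[([(0,2,[(7,8)])],[2,2])],[5,5,4,3,1],true,4,2,[5,6,8]),
    (false,[([(0,2,[(7,8)]),(0,1,[(5,5)])],[3])],[8,6],false,2,4,[3,4,5]),
    (true,[([(0,2,[(7,8)])],[3,2]),([(0,1,[(5,5)]),(0,3,[(3,3)])],[])],[5,4],false,2,2,[3]),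
    (false,[([(0,2,[(7,8)]),(0,1,[(5,5)])],[3]),([(0,3,[(3,3)]),(0,3,[(3,3)])],[2,2,2,2])],[],false,1,0,[]),
    (true,[([(0,2,[(7,8)]),(0,4,[(4,4)])],[]),([(0,1,[(5,5)])],[2,2])],[5,4],false,2,1,[]),
    (true,[([(0,2,[(7,8)])],[2,2]),([(0,8,[(5,5),(5,5)])],[3])],[5],false,1,0,[]),
    (false,[([(0,2,[(7,8)]),(0,0,[(6,6)])],[3])],[8,5],false,2,3,[3,4]),
    (true,[([(0,2,[(7,8)])],[2,2]),([(0,0,[(6,6)]),(0,3,[(3,3)])],[])],[5,4],false,2,1,[]),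
    (true,[([(0,10,[(7,8),(6,6)])],[]),([(0,4,[(4,4)])],[2,2,2])],[5],false,1,0,[]),
    (false,[([(0,2,[(7,8)]),(0,2,[(7,8)])],[1])],[8,5],false,2,2,[3]),
    (true,[([(0,13,[(7,8),(3,3)])],[2]),([(0,2,[(7,8)])],[2,2])],[5],false,1,0,[]),
    (true,[([(0,5,[(9,9)])],[3,3])],[5,4,3,2,1],false,5,1,[7]),
    (true,[([(0,5,[(9,9)])],[3,2]),([(0,14,[(6,7)])],[3])],[5],false,1,0,[2]),
    (true,[([(0,5,[(9,9)])],[2,2]),([(0,8,[(6,7),(2,2)])],[2])],[5],false,1,0,[]),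
    (true,[([(0,8,[(10,10)])],[2])],[5,5,5,3],true,2,5,[3,5,6]),
    (true,[([(0,9,[(10,10),(3,3)])],[2])],[5,5,4,1],false,3,1,[]),
    (false,[([(0,10,[(10,10),(4,5)])],[5,5,5])],[],false,1,0,[3]),
    (true,[([(0,9,[(10,10),(2,3)])],[3]),([(0,1,[(4,5)])],[2,2])],[5],false,1,0,[2]),
    (true,[([(0,9,[(10,10),(2,3)])],[4]),([(0,1,[(4,5)]),(0,3,[(2,2)])],[])],[5],false,1,0,[]),
    (true,[([(2,25,[(10,10),(6,6)])],[])],[5,5],false,1,0,[]),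
    (true,[([(0,9,[(11,13)])],[2])],[5,5,4,1],true,3,2,[5]),
    (true,[([(0,9,[(11,13)])],[3]),([(0,1,[(4,5)])],[2,2])],[5],false,1,0,[2]),
    (true,[([(0,9,[(11,13)])],[4]),([(0,1,[(4,5)]),(0,3,[(2,2)])],[])],[5],false,1,0,[]),
    (true,[([(0,12,[(14,15)])],[2])],[5,5,2,1],false,2,1,[])]),
  ([8,7,6,5,5,1], [
    (false,[],[8,7,6,5,5,1],false,4,7,[5,6,8,11,13,15]),
    (false,[([(0,0,[(5,5)])],[2,2,2])],[8,7,5],false,3,5,[4,5]),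
    (false,[([(0,1,[(5,5)]),(0,4,[(4,4)])],[2,2])],[8,6,5],false,3,5,[4]),
    (false,[([(0,1,[(5,5)]),(0,4,[(4,4)]),(0,4,[(4,4)])],[])],[8,6,5],false,3,4,[4]),
    (true,[([(0,8,[(5,5),(4,4)]),(0,4,[(4,4)])],[]),([(0,4,[(4,4)])],[2,2,2])],[5,3],false,2,1,[]),
    (true,[([(0,8,[(5,5),(5,5)])],[1])],[6,5,5,5],false,2,6,[3,4,5]),
    (false,[([(0,16,[(5,5),(5,5),(3,3)])],[4,4,4])],[6],false,1,0,[2,3]),
    (false,[([(0,10,[(5,5),(5,5),(3,3),(2,2)])],[4,4,4])],[5],false,1,0,[2]),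
    (false,[([(2,26,[(5,5),(5,5),(3,3),(2,2),(2,2)])],[5,5,5])],[],false,1,0,[2]),
    (true,[([(2,3,[(5,5),(5,5),(3,3),(2,2),(2,2),(2,2)])],[3])],[5,5],false,1,0,[2]),
    (false,[([(2,27,[(5,5),(5,5),(3,3),(2,2),(2,2),(2,2),(2,2)])],[5,5])],[],false,1,0,[]),
    (false,[([(0,8,[(5,5),(5,5)])],[3,3,3]),([(0,3,[(3,3)]),(0,3,[(3,3)])],[2,2,2,1])],[],false,1,0,[2,3]),
    (true,[([(2,21,[(5,5),(5,5),(3,3),(3,3),(2,2)])],[3])],[5,5],false,1,0,[2]),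
    (false,[([(2,28,[(5,5),(5,5),(3,3),(3,3),(2,2),(2,2)])],[5,5])],[],false,1,0,[]),
    (true,[([(2,7,[(5,5),(5,5),(3,3),(3,3),(3,3)])],[3])],[5,5],false,1,0,[]),
    (true,[([(0,8,[(5,5),(5,5)]),(0,4,[(4,4)])],[])],[5,5,5,3],false,2,3,[3,4]),
    (true,[([(0,16,[(5,5),(5,5),(3,3)])],[3]),([(0,4,[(4,4)])],[2,2,2])],[5],false,1,0,[2]),
    (true,[([(0,10,[(5,5),(5,5),(3,3),(2,2)])],[2]),([(0,4,[(4,4)])],[2,2,2])],[5],false,1,0,[]),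
    (true,[([(0,16,[(5,5),(5,5),(4,4)])],[3]),([(0,4,[(4,4)])],[2,2,2])],[5],false,1,0,[]),
    (false,[([(0,10,[(5,5),(5,5),(5,5)])],[4,4,4])],[5],false,1,0,[2,3]),
    (false,[([(2,29,[(5,5),(5,5),(5,5),(2,2)])],[5,5,5])],[],false,1,0,[2]),
    (true,[([(2,9,[(5,5),(5,5),(5,5),(2,2),(2,2)])],[3])],[5,5],false,1,0,[]),
    (true,[([(2,15,[(5,5),(5,5),(5,5),(3,3)])],[3])],[5,5],false,1,0,[]),
    (false,[([(0,0,[(6,6)])],[2,2,2])],[8,7,5],false,3,5,[5,6]),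
    (true,[([(0,13,[(6,6),(4,5)])],[3,3])],[5,5,3,2],true,3,3,[5]),
    (false,[([(0,13,[(6,6),(4,5)]),(0,1,[(4,5)])],[3])],[7,6],false,2,3,[3,4]),
    (false,[([(0,13,[(6,6),(4,5)]),(0,1,[(4,5)])],[3]),([(0,3,[(3,3)])],[2,2,2,2,2])],[],false,1,0,[2]),
    (false,[([(0,13,[(6,6),(4,5)]),(0,0,[(4,5)])],[3]),([(0,3,[(3,3)]),(0,3,[(2,2)])],[2,2,2])],[],false,1,0,[]),
    (false,[([(0,13,[(6,6),(4,5)]),(0,1,[(4,5)])],[3]),([(0,4,[(4,4)])],[2,2,2,2,1])],[],false,1,0,[]),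
    (false,[([(0,16,[(6,6),(6,6)])],[4,4,4])],[6],false,1,0,[3,5]),
    (false,[([(0,10,[(6,6),(6,6),(2,3)])],[4,4,4])],[5],false,1,0,[2,3]),
    (false,[([(0,8,[(6,6),(2,3)]),(0,2,[(6,6),(2,2)])],[3])],[6,5],false,2,2,[]),
    (false,[([(0,0,[(6,6)]),(0,3,[(2,3)]),(0,3,[(3,3)])],[2]),([(0,0,[(6,6)])],[3,3,3,3])],[],false,1,0,[2]),
    (false,[([(0,8,[(6,6),(2,3)]),(0,2,[(6,6),(2,2)])],[3]),([(0,3,[(3,3)])],[2,2,2,2])],[],false,1,0,[]),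
    (false,[([(0,13,[(6,6),(4,5)]),(0,0,[(6,6)])],[3])],[7,5],false,2,1,[]),
    (true,[([(0,2,[(7,8)])],[2,2])],[6,5,5,3,1],false,3,4,[6,8]),
    (true,[([(0,2,[(7,8)]),(0,0,[(4,6)])],[])],[5,5,5,2,1],true,3,4,[4,5,6]),
    (true,[([(0,2,[(7,8)]),(0,0,[(4,6)])],[]),([(0,4,[(4,4)])],[2,2,2])],[5,2,1],false,3,1,[]),
    (true,[([(0,2,[(7,8)]),(0,0,[(4,6)])],[]),([(0,1,[(5,5)])],[2,1])],[5,5],false,1,0,[2]),
    (true,[([(0,2,[(7,8)]),(0,0,[(4,6)])],[]),([(0,1,[(5,5)]),(0,3,[(2,2)])],[])],[5,5],false,1,0,[]),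
    (false,[([(0,2,[(7,8)]),(0,0,[(4,6)])],[3,3]),([(0,0,[(6,6)])],[2,2,2])],[],false,1,0,[]),
    (false,[([(0,2,[(7,8)]),(0,2,[(7,8)])],[3,1])],[6,5,1],false,3,1,[]),
    (true,[([(0,13,[(9,11)])],[3,3])],[5,5,3,2],true,3,3,[6,7]),
    (false,[([(0,13,[(9,11)]),(0,0,[(4,6)])],[3])],[7,5],false,2,3,[3,4]),
    (false,[([(0,13,[(9,11)]),(0,0,[(4,6)])],[3]),([(0,3,[(3,3)])],[2,2,2,2,1])],[],false,1,0,[2]),
    (false,[([(0,13,[(9,11)]),(0,0,[(4,6)])],[3]),([(0,3,[(3,3)]),(0,3,[(2,2)])],[2,2,2])],[],false,1,0,[]),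
    (false,[([(0,13,[(9,11)]),(0,0,[(4,6)])],[3]),([(0,4,[(4,4)])],[2,2,2,1,1])],[],false,1,0,[]),
    (false,[([(0,13,[(9,11)]),(0,2,[(7,7)])],[])],[8,5],false,1,0,[]),
    (true,[([(0,9,[(12,13)])],[2])],[6,5,5,1],false,3,1,[4]),
    (false,[([(0,15,[(12,13),(4,4)])],[4,4,2])],[5],false,1,0,[]),
    (false,[([(0,12,[(14,15)])],[4,4,2,1])],[5,1],false,2,1,[])])]

theorem cj5d_3_ok : runAllJ S38 R38 F38 14 cj5d_3 = true := by decide +kernel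

noncomputable def cj5d_4 : List (List ℕ × List NdJ) := [
  ([8,7,6,6,2,1], [
    (false,[],[8,7,6,6,2,1],false,3,9,[4,5,6,8,11,12,13,14,15]),
    (true,[([(0,4,[(4,4)])],[2,2])],[6,5,4,4,2,1],false,4,3,[]),
    (false,[([(0,1,[(5,5)])],[2,1,1])],[8,7,6],false,3,6,[4,5]),
    (true,[([(0,1,[(5,5)])],[2]),([(0,4,[(4,4)])],[2,2])],[6,5,4],false,3,4,[4]),
    (false,[([(0,1,[(5,5)]),(0,4,[(4,4)]),(0,4,[(4,4)])],[2])],[7,6,2],false,3,2,[4]),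
    (true,[([(0,8,[(5,5),(4,4)])],[2]),([(0,4,[(4,4)]),(0,4,[(4,4)])],[])],[6,4],false,2,1,[]),
    (false,[([(0,8,[(5,5),(5,5)])],[2,2,2])],[8,6],false,2,6,[3,4,5]),
    (false,[([(0,8,[(5,5),(5,5)]),(0,3,[(3,3)])],[2,2])],[7,6],false,2,4,[3]),
    (false,[([(0,8,[(5,5),(5,5)]),(0,3,[(3,3)])],[2,2]),([(0,3,[(3,3)])],[2,2,2,2,2])],[],false,1,0,[2,3]),
    (false,[([(2,5,[(5,5),(5,5),(3,3),(3,3),(2,2)])],[4,4,4])],[],false,1,0,[2]),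
    (true,[([(2,30,[(5,5),(5,5),(3,3),(3,3),(2,2),(2,2)])],[5])],[4],false,1,0,[]),
    (true,[([(2,31,[(5,5),(5,5),(3,3),(3,3),(3,3)])],[5])],[4],false,1,0,[]),
    (false,[([(0,0,[(5,5)]),(0,0,[(5,5)]),(0,4,[(4,4)])],[])],[7,6,1],false,3,1,[4]),
    (true,[([(0,10,[(5,5),(5,5),(4,4)])],[3]),([(0,4,[(4,4)])],[2,2])],[4],false,1,0,[]),
    (false,[([(0,10,[(5,5),(5,5),(5,5)])],[3,3,3])],[6],false,1,0,[2,3]),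
    (false,[([(2,8,[(5,5),(5,5),(5,5),(2,2)])],[4,4,4])],[],false,1,0,[2]),
    (true,[([(2,32,[(5,5),(5,5),(5,5),(2,2),(2,2)])],[5])],[4],false,1,0,[]),
    (false,[([(2,10,[(5,5),(5,5),(5,5),(3,3)])],[4,4,4])],[],false,1,0,[]),
    (false,[([(0,0,[(6,6)])],[1,1,1])],[8,7,6],false,3,6,[5,6]),
    (true,[([(0,13,[(6,6),(4,5)])],[3])],[6,4,4,2],false,2,6,[3,5]),
    (true,[([(0,13,[(6,6),(4,5)])],[3]),([(0,3,[(3,3)])],[2,1])],[6,4],false,2,4,[3]),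
    (true,[([(0,13,[(6,6),(4,5)])],[3]),([(0,3,[(3,3)]),(0,3,[(3,3)])],[])],[6,4],false,2,2,[3]),
    (true,[([(0,13,[(6,6),(4,5)])],[3]),([(0,0,[(3,3),(3,3)]),(0,3,[(3,3)])],[3])],[4],false,1,0,[]),
    (true,[([(0,13,[(6,6),(4,5)])],[3]),([(0,1,[(4,5)])],[3,2,2])],[4],false,1,0,[2,3,4]),
    (true,[([(0,13,[(6,6),(4,5)])],[3]),([(0,0,[(4,5)]),(0,3,[(2,2)])],[3])],[4],false,1,0,[2]),
    (true,[([(0,13,[(6,6),(4,5)])],[3]),([(0,0,[(4,5)]),(1,0,[(2,2),(2,2)])],[])],[4],false,1,0,[2]),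
    (true,[([(0,13,[(6,6),(4,5)])],[3]),([(0,0,[(4,5)]),(1,0,[(2,2),(2,2),(2,2)])],[])],[4],false,1,0,[]),
    (true,[([(0,13,[(6,6),(4,5)])],[3]),([(0,0,[(4,5)]),(0,3,[(3,3)])],[3])],[4],false,1,0,[2]),
    (true,[([(0,13,[(6,6),(4,5)])],[3]),([(0,0,[(4,5)]),(0,0,[(3,3),(2,2)])],[])],[4],false,1,0,[]),
    (true,[([(0,13,[(6,6),(4,5)])],[3]),([(0,1,[(4,5)]),(0,4,[(4,4)])],[3])],[4],false,1,0,[]),
    (true,[([(0,22,[(6,6),(6,6)])],[4])],[5,4,4],false,2,4,[3,5]),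
    (true,[([(0,0,[(6,6)]),(0,0,[(6,6)])],[]),([(0,3,[(3,3)])],[1,1])],[5,4,4],false,2,2,[3]),
    (false,[([(2,12,[(6,6),(6,6),(3,3),(3,3)])],[4,4,4])],[],false,1,0,[]),
    (true,[([(0,13,[(6,6),(4,5)])],[3]),([(0,0,[(6,6)])],[3,2,1])],[4],false,1,0,[2]),
    (false,[([(0,13,[(6,6),(4,5)]),(0,2,[(6,6),(2,2)])],[3])],[6,2],false,1,0,[]),
    (true,[([(0,2,[(7,8)])],[2])],[6,5,4,4,1],false,3,6,[4,5,6,8]),
    (false,[([(0,2,[(7,8)]),(0,4,[(4,4)])],[2,1])],[8,6,1],true,3,2,[4]),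
    (true,[([(0,2,[(7,8)])],[2]),([(0,4,[(4,4)]),(0,4,[(4,4)])],[])],[6,5,1],false,3,1,[]),
    (true,[([(0,22,[(7,8),(5,5)])],[4])],[5,4,4],false,2,4,[3,4,5]),
    (true,[([(0,2,[(7,8)]),(0,3,[(3,3)])],[]),([(0,1,[(5,5)])],[3,3,3])],[4,1],true,2,2,[3]),
    (true,[([(0,13,[(7,8),(3,3)])],[3]),([(0,0,[(5,5)]),(0,3,[(3,3)])],[3])],[4],false,1,0,[]),
    (true,[([(0,2,[(7,8)])],[2]),([(0,1,[(5,5)]),(0,4,[(4,4)])],[2])],[5,4],false,2,1,[]),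
    (true,[([(0,2,[(7,8)])],[2]),([(0,8,[(5,5),(5,5)])],[3,3])],[4],false,1,0,[]),
    (true,[([(0,2,[(7,8)])],[2]),([(0,0,[(6,6)])],[2,2])],[6,4],false,2,3,[3,4]),
    (true,[([(0,2,[(7,8)])],[2]),([(0,0,[(6,6)]),(0,3,[(3,3)])],[2])],[5,4],false,2,1,[]),
    (true,[([(0,10,[(7,8),(6,6)])],[3]),([(0,4,[(4,4)])],[2,2])],[4],false,1,0,[]),
    (true,[([(0,2,[(7,8)])],[2]),([(0,2,[(7,8)])],[3,3,1])],[4,1],true,2,2,[3]),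
    (false,[([(0,13,[(7,8),(3,3)]),(0,2,[(7,8)])],[3])],[6,2],false,1,0,[]),
    (true,[([(0,13,[(9,11)])],[3])],[6,4,4,2],false,2,6,[3,6,7]),
    (true,[([(0,13,[(9,11)])],[3]),([(0,3,[(3,3)])],[2,1])],[6,4],false,2,4,[3]),
    (true,[([(0,13,[(9,11)])],[3]),([(0,3,[(3,3)]),(0,3,[(3,3)])],[])],[6,4],false,2,2,[3]),
    (true,[([(0,13,[(9,11)])],[3]),([(0,0,[(3,3),(3,3)]),(0,3,[(3,3)])],[3])],[4],false,1,0,[]),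
    (true,[([(0,13,[(9,11)])],[3]),([(0,0,[(4,6)])],[3,2,1])],[4],false,1,0,[2,3,4]),
    (true,[([(0,13,[(9,11)])],[3]),([(0,0,[(4,6)]),(0,3,[(2,2)])],[3])],[4],false,1,0,[2]),
    (true,[([(0,13,[(9,11)])],[3]),([(0,0,[(4,6)]),(1,0,[(2,2),(2,2)])],[])],[4],false,1,0,[2]),
    (true,[([(0,13,[(9,11)])],[3]),([(0,0,[(4,6)]),(1,0,[(2,2),(2,2),(2,2)])],[])],[4],false,1,0,[]),
    (true,[([(0,13,[(9,11)])],[3]),([(0,0,[(4,6)]),(0,3,[(3,3)])],[3])],[4],false,1,0,[2]),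
    (true,[([(0,13,[(9,11)])],[3]),([(0,0,[(4,6)]),(0,0,[(3,3),(2,2)])],[])],[4],false,1,0,[]),
    (true,[([(0,13,[(9,11)])],[4]),([(0,0,[(4,6)]),(0,4,[(4,4)])],[1])],[4],false,1,0,[]),
    (false,[([(0,13,[(9,11)]),(0,2,[(7,7)])],[3])],[6,2],false,1,0,[]),
    (true,[([(0,22,[(12,12)])],[4])],[5,4,4],false,2,3,[3,4]),
    (false,[([(0,10,[(12,12),(3,3)])],[3,3,3])],[6],false,1,0,[2]),
    (false,[([(2,33,[(12,12),(3,3),(2,2)])],[4,4,4])],[],false,1,0,[]),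
    (true,[([(0,22,[(12,12)])],[4]),([(0,4,[(4,4)])],[2,2])],[5],false,1,0,[]),
    (true,[([(0,22,[(13,13)])],[4])],[5,4,4],false,2,2,[3]),
    (false,[([(2,34,[(13,13),(3,3)])],[4,4,4])],[],false,1,0,[]),
    (false,[([(0,10,[(14,14)])],[3,3,3])],[6],false,1,0,[2]),
    (false,[([(2,35,[(14,14),(2,2)])],[4,4,4])],[],false,1,0,[]),
    (false,[([(0,10,[(15,15)])],[3,3,3])],[6],false,1,0,[])]),
  ([8,7,6,6,3,1], [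
    (false,[],[8,7,6,6,3,1],false,4,4,[6,8,11,14,15]),
    (false,[([(0,0,[(5,6)])],[2,1,1])],[8,7,6],false,3,6,[4,6]),
    (true,[([(0,0,[(5,6)]),(0,4,[(4,4)])],[])],[6,5,4,4,2],false,4,2,[]),
    (false,[([(0,0,[(5,6)]),(0,0,[(5,6)])],[3,2])],[7,6,1],false,2,6,[3,4,6]),
    (true,[([(0,10,[(5,6),(5,6),(3,3)])],[3])],[5,4,4],false,2,4,[3]),
    (true,[([(0,0,[(5,6)]),(0,0,[(5,6)])],[]),([(0,0,[(3,3),(3,3)])],[2,2])],[5,4],false,2,2,[3]),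
    (true,[([(0,0,[(5,6)]),(0,0,[(5,6)])],[]),([(0,0,[(3,3),(3,3)])],[2,2]),([(0,3,[(3,3)])],[2,2,2])],[],false,1,0,[]),
    (true,[([(0,0,[(5,6)]),(0,0,[(5,6)])],[]),([(0,4,[(4,4)])],[2,2,1])],[5,4,1],false,3,1,[4]),
    (false,[([(0,8,[(5,6),(4,4)]),(0,0,[(5,6)])],[2]),([(0,4,[(4,4)])],[2,2,2,2,1])],[],false,1,0,[]),
    (true,[([(0,0,[(5,6)]),(0,0,[(5,6)])],[]),([(0,0,[(5,6)])],[2,2])],[5,4],false,2,2,[3]),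
    (true,[([(0,0,[(5,6)]),(0,0,[(5,6)])],[]),([(0,0,[(5,6)])],[2,2]),([(0,3,[(3,3)])],[2,2,2])],[],false,1,0,[]),
    (true,[([(0,2,[(7,8)])],[3,3])],[6,4,4,2,1],true,4,2,[6,8]),
    (false,[([(0,2,[(7,8)]),(0,0,[(5,6)])],[2])],[8,6,1],true,3,2,[5]),
    (true,[([(0,2,[(7,8)])],[3,3]),([(0,0,[(5,6)]),(0,0,[(4,5)])],[])],[4,1],false,2,1,[]),
    (false,[([(0,14,[(7,8)]),(0,2,[(7,8)])],[2])],[7,6],false,2,2,[3]),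
    (false,[([(0,13,[(7,8),(3,3)]),(0,2,[(7,8)])],[3])],[6,3],false,1,0,[]),
    (true,[([(0,13,[(9,11)])],[3])],[6,5,4,2],false,4,2,[6,7]),
    (true,[([(0,13,[(9,11)])],[3]),([(0,0,[(5,6)])],[3,2])],[6],false,1,0,[3]),
    (true,[([(0,13,[(9,11)])],[3]),([(0,0,[(5,6)]),(0,3,[(2,3)])],[3])],[5],false,1,0,[2]),
    (true,[([(0,13,[(9,11)])],[3]),([(0,0,[(5,6)]),(1,0,[(2,3),(2,2)])],[])],[5],false,1,0,[]),
    (false,[([(0,13,[(9,11)]),(0,2,[(7,7)])],[3])],[6,3],false,1,0,[]),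
    (true,[([(0,10,[(12,14)])],[3])],[5,4,4],false,2,3,[3,4]),
    (true,[([(0,15,[(12,14),(3,3)])],[4])],[4,4,2],false,2,1,[]),
    (true,[([(0,10,[(12,14)])],[3]),([(0,4,[(4,4)])],[2,2])],[5],false,1,0,[]),
    (false,[([(0,10,[(15,15)])],[4,3,3])],[6],false,1,0,[])]),
  ([8,7,7,3,2,1], [
    (false,[],[8,7,7,3,2,1],true,4,5,[5,6,7,8,9,11,13,15]),
    (true,[([(0,0,[(5,5)])],[2])],[6,5,3,3,3],false,3,5,[4,5]),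
    (true,[([(0,1,[(5,5)]),(0,4,[(4,4)])],[])],[6,4,3,3,3],false,3,4,[4]),
    (true,[([(0,1,[(5,5)]),(0,4,[(4,4)])],[]),([(0,4,[(4,4)])],[2])],[6,4,3],false,3,3,[4]),
    (false,[([(0,8,[(5,5),(4,4)]),(0,4,[(4,4)]),(0,4,[(4,4)])],[])],[7,3],false,2,1,[]),
    (false,[([(0,8,[(5,5),(5,5)])],[1,1,1])],[8,7],false,2,6,[3,4,5]),
    (true,[([(0,16,[(5,5),(5,5),(3,3)])],[4])],[4,3,3],false,2,4,[3]),
    (true,[([(0,16,[(5,5),(5,5),(3,3)])],[4]),([(0,3,[(3,3)])],[2,2])],[3],false,1,0,[2,3]),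
    (false,[([(2,21,[(5,5),(5,5),(3,3),(3,3),(2,2)])],[3,3,3])],[],false,1,0,[2]),
    (true,[([(2,36,[(5,5),(5,5),(3,3),(3,3),(2,2),(2,2)])],[7])],[],false,1,0,[]),
    (false,[([(2,7,[(5,5),(5,5),(3,3),(3,3),(3,3)])],[3,3,3])],[],false,1,0,[]),
    (true,[([(0,16,[(5,5),(5,5),(4,4)])],[4])],[4,3,3],false,2,3,[4]),
    (false,[([(0,16,[(5,5),(5,5),(3,4)]),(0,4,[(4,4)])],[3])],[7],false,1,0,[2]),
    (true,[([(0,16,[(5,5),(5,5),(3,4)])],[4]),([(0,4,[(4,4)]),(0,3,[(2,2)])],[])],[3],false,1,0,[]),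
    (false,[([(0,10,[(5,5),(5,5),(5,5)])],[2,2,2])],[7],false,1,0,[2,3]),
    (true,[([(2,29,[(5,5),(5,5),(5,5),(2,2)])],[5])],[3,3],false,1,0,[2]),
    (false,[([(2,9,[(5,5),(5,5),(5,5),(2,2),(2,2)])],[3,3,3])],[],false,1,0,[]),
    (false,[([(2,15,[(5,5),(5,5),(5,5),(3,3)])],[3,3,3])],[],false,1,0,[]),
    (true,[([(0,0,[(6,6)])],[2])],[6,5,3,3,3],false,3,5,[5,6]),
    (true,[([(0,13,[(6,6),(4,5)])],[])],[6,5,3,3],false,3,5,[5]),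
    (true,[([(0,13,[(6,6),(4,5)])],[]),([(0,1,[(4,5)])],[3,3])],[6],false,1,0,[2,3,4]),
    (true,[([(0,2,[(6,6),(2,2)]),(0,1,[(4,5)])],[]),([(0,1,[(4,5)])],[3,3])],[3,1],true,2,2,[]),
    (true,[([(0,13,[(6,6),(4,5)])],[1]),([(0,14,[(4,5),(3,3)])],[4,4])],[],false,1,0,[2]),
    (true,[([(0,2,[(6,6),(2,2)]),(0,1,[(4,5)])],[]),([(0,1,[(4,5)])],[3,3]),([(0,3,[(3,3)])],[1])],[],false,1,0,[]),
    (false,[([(0,0,[(6,6)]),(0,1,[(4,5)])],[1]),([(0,0,[(4,5)]),(0,4,[(4,4)])],[2,2,2])],[],false,1,0,[]),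
    (true,[([(0,16,[(6,6),(6,6)])],[4])],[4,3,3],false,2,4,[3,5]),
    (false,[([(0,10,[(6,6),(6,6),(3,3)])],[2,2,2])],[7],false,1,0,[2,3]),
    (true,[([(0,2,[(6,6),(2,2)]),(0,0,[(6,6)])],[]),([(0,3,[(3,3)])],[1])],[4,3,3],false,2,1,[]),
    (false,[([(2,18,[(6,6),(6,6),(3,3),(3,3)])],[3,3,3])],[],false,1,0,[]),
    (true,[([(0,13,[(6,6),(4,5)])],[]),([(0,0,[(6,6)])],[3,3,2])],[3],false,1,0,[2]),
    (true,[([(0,13,[(6,6),(4,5)])],[1]),([(0,14,[(6,6),(2,2)])],[4,4])],[],false,1,0,[]),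
    (false,[([(0,2,[(7,7)])],[1,1,1,1])],[8,7,1],false,2,8,[4,6,7]),
    (true,[([(0,13,[(7,7),(3,4)])],[])],[6,5,3,3],false,3,5,[4]),
    (false,[([(0,13,[(7,7),(3,4)]),(0,4,[(4,4)])],[2,2])],[7,2],true,2,3,[3,4]),
    (true,[([(0,13,[(7,7),(3,4)]),(0,3,[(3,3)])],[]),([(0,4,[(4,4)])],[2])],[5,3],false,2,1,[]),
    (false,[([(0,10,[(7,7),(3,4),(4,4)]),(0,4,[(4,4)])],[2])],[7],false,1,0,[]),
    (false,[([(0,2,[(7,7)]),(0,0,[(5,6)])],[2,2])],[7,2,1],true,3,2,[5]),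
    (false,[([(0,2,[(7,7)]),(0,0,[(5,6)])],[2,2]),([(0,1,[(4,5)])],[2,1,1,1])],[],false,1,0,[2]),
    (false,[([(0,2,[(7,7)]),(0,0,[(5,6)])],[2,2]),([(0,1,[(4,5)]),(0,3,[(2,2)])],[1,1])],[],false,1,0,[]),
    (true,[([(0,16,[(7,7),(7,7)])],[4])],[4,3,3],false,2,2,[3]),
    (true,[([(0,16,[(7,7),(7,7)])],[4]),([(0,3,[(3,3)])],[2,2])],[3],false,1,0,[]),
    (true,[([(0,2,[(8,8)])],[3,1])],[6,3,3,3,1],true,3,3,[6,8]),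
    (false,[([(0,2,[(8,8)]),(0,0,[(4,6)])],[2,2])],[7,2,1],true,3,2,[5]),
    (false,[([(0,2,[(8,8)]),(0,0,[(4,6)])],[2,2]),([(0,1,[(4,5)])],[2,1,1,1])],[],false,1,0,[2]),
    (false,[([(0,2,[(8,8)]),(0,0,[(4,6)])],[2,2]),([(0,1,[(4,5)]),(0,3,[(2,2)])],[1,1])],[],false,1,0,[]),
    (false,[([(0,15,[(8,8),(7,8)])],[3,3,3])],[2],false,1,0,[2]),
    (true,[([(0,13,[(8,8),(2,2)])],[1]),([(0,14,[(7,8)])],[4,4])],[],false,1,0,[]),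
    (true,[([(0,5,[(9,9)])],[])],[6,5,4,3,1],false,5,1,[7]),
    (false,[([(0,15,[(9,9),(6,7)])],[3,3,3])],[2],false,1,0,[2]),
    (true,[([(0,13,[(9,9),(2,2)])],[2]),([(0,7,[(6,7)])],[4,4])],[],false,1,0,[]),
    (true,[([(0,13,[(10,11)])],[])],[6,5,3,3],false,3,5,[4,6]),
    (false,[([(0,13,[(10,11)]),(0,4,[(4,4)])],[2,2])],[7,2],false,2,2,[3]),
    (false,[([(0,16,[(10,11),(3,3)]),(0,4,[(4,4)])],[3])],[7],false,1,0,[]),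
    (false,[([(0,15,[(10,11),(5,6)])],[3,3,3])],[2],false,1,0,[2]),
    (true,[([(0,13,[(10,11)])],[1]),([(0,14,[(5,6),(2,2)])],[4,4])],[],false,1,0,[]),
    (true,[([(0,9,[(12,13)])],[4,1])],[3,3,3,1],true,2,3,[3,4]),
    (false,[([(0,9,[(12,13)]),(0,3,[(3,3)])],[2,2])],[7,1],false,2,1,[]),
    (false,[([(0,15,[(12,13),(4,4)])],[3,3,3])],[2],false,1,0,[]),
    (false,[([(0,12,[(14,15)])],[3,3,3,1])],[2,1],false,2,1,[])]),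
  ([8,7,7,4,3,1], [
    (false,[],[8,7,7,4,3,1],true,4,5,[6,9,11,15]),
    (true,[([(0,0,[(5,6)])],[2,1])],[6,5,4,3,3],false,4,4,[5,6]),
    (false,[([(0,0,[(5,6)]),(0,1,[(5,5)])],[3])],[8,7,1],false,2,6,[3,4,5]),
    (true,[([(0,16,[(5,6),(5,5),(3,3)])],[4])],[5,4,3],false,3,3,[]),
    (true,[([(0,10,[(5,6),(5,5),(4,4)])],[4])],[5,3,3],false,2,3,[4]),
    (false,[([(0,10,[(5,6),(5,5),(3,4)]),(0,4,[(4,4)])],[4])],[7],false,1,0,[2]),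
    (true,[([(0,10,[(5,6),(5,5),(3,4)])],[4]),([(0,4,[(4,4)]),(0,3,[(2,2)])],[1])],[3],false,1,0,[]),
    (true,[([(0,0,[(5,6)])],[2,1]),([(0,8,[(5,5),(5,5)])],[4,4])],[3],false,1,0,[2,3]),
    (true,[([(0,0,[(5,6)]),(0,3,[(2,2)])],[]),([(0,8,[(5,5),(5,5)])],[4,4])],[3],false,1,0,[2]),
    (true,[([(0,10,[(5,6),(5,5),(2,2),(2,2)])],[4]),([(0,1,[(5,5)])],[3,3])],[],false,1,0,[]),
    (true,[([(0,16,[(5,6),(5,5),(3,3)])],[4]),([(0,0,[(5,5)])],[3,3])],[],false,1,0,[]),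
    (false,[([(0,0,[(5,6)])],[2,1,1,1]),([(0,0,[(6,6)])],[3,3,3,2,2])],[],false,1,0,[3,5,6]),
    (true,[([(0,10,[(5,6),(6,6),(2,3)])],[4])],[5,3,3],false,2,4,[3]),
    (true,[([(0,10,[(5,6),(6,6),(2,3)])],[4]),([(0,3,[(3,3)])],[2,2,1])],[3],false,1,0,[3]),
    (true,[([(0,10,[(5,6),(6,6),(2,3)])],[4]),([(0,3,[(3,3)]),(0,3,[(2,3)])],[2])],[3],false,1,0,[2]),
    (false,[([(0,8,[(5,6),(3,3)]),(0,2,[(6,6),(2,2)])],[2]),([(0,3,[(2,3)]),(0,3,[(2,3)])],[2,1,1])],[],false,1,0,[]),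
    (true,[([(0,0,[(5,6)])],[2]),([(0,13,[(6,6),(4,5)])],[4,4])],[3],false,1,0,[3]),
    (true,[([(0,10,[(5,6),(6,6),(2,3)])],[4]),([(0,1,[(4,5)])],[3,3])],[],false,1,0,[2]),
    (false,[([(0,0,[(5,6)]),(0,2,[(6,6),(2,2)])],[2,2]),([(0,1,[(4,5)]),(0,3,[(2,3)])],[2,2])],[],false,1,0,[]),
    (true,[([(0,0,[(5,6)])],[3,3]),([(0,16,[(6,6),(6,6)])],[4])],[],false,1,0,[]),
    (true,[([(0,8,[(7,9)])],[3])],[6,5,3,3],false,3,5,[4,5,6,8,9]),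
    (true,[([(0,8,[(7,9)])],[3]),([(0,4,[(4,4)])],[2])],[6,5],false,2,5,[3,4]),
    (true,[([(0,8,[(7,9)])],[3]),([(0,4,[(4,4)]),(0,3,[(3,3)])],[1])],[6,3],false,2,3,[3]),
    (false,[([(0,10,[(7,9),(3,3),(3,3)]),(0,4,[(4,4)])],[4])],[7],false,1,0,[2]),
    (true,[([(0,10,[(7,9),(4,4),(2,2)])],[4]),([(0,3,[(3,3)]),(0,3,[(3,3)])],[2])],[3],false,1,0,[]),
    (false,[([(0,8,[(7,9)]),(0,4,[(4,4)])],[3,2]),([(0,4,[(4,4)])],[2,2,1,1,1])],[],false,1,0,[3]),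
    (false,[([(0,8,[(7,9)]),(0,4,[(4,4)])],[3,2]),([(0,4,[(4,4)]),(0,3,[(2,3)])],[2,1,1])],[],false,1,0,[2]),
    (true,[([(0,10,[(7,9),(4,4),(2,2)])],[4]),([(0,4,[(4,4)]),(0,3,[(2,3)])],[1])],[3],false,1,0,[]),
    (true,[([(0,16,[(7,9),(5,5)])],[4])],[5,4,3],false,3,3,[4,5]),
    (true,[([(0,16,[(7,9),(5,5)])],[4]),([(0,4,[(4,4)])],[2,1])],[5],false,1,0,[2]),
    (true,[([(0,16,[(7,9),(5,5)])],[4]),([(0,0,[(4,4),(2,2)])],[3,3])],[],false,1,0,[]),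
    (true,[([(0,16,[(7,9),(5,5)])],[4]),([(0,0,[(5,5)])],[3,3])],[],false,1,0,[]),
    (true,[([(0,10,[(7,9),(6,6)])],[4])],[5,3,3],false,2,3,[3,4]),
    (true,[([(0,10,[(7,9),(6,6)])],[4]),([(0,3,[(3,3)])],[2,2,1])],[3],false,1,0,[2]),
    (true,[([(0,10,[(7,9),(6,6)])],[4]),([(0,1,[(3,3),(2,2)])],[3,3])],[],false,1,0,[]),
    (false,[([(0,10,[(7,9),(6,6)]),(0,4,[(4,4)])],[4])],[7],false,1,0,[]),
    (false,[([(0,8,[(7,9)]),(0,2,[(7,8)])],[2])],[7,3],false,2,2,[3]),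
    (true,[([(0,8,[(7,9)])],[4,4]),([(0,13,[(7,8),(3,3)])],[1])],[],false,1,0,[]),
    (true,[([(0,8,[(7,9)])],[3]),([(0,5,[(9,9)])],[1,1])],[6],false,1,0,[]),
    (true,[([(0,13,[(10,11)])],[1])],[6,5,4,3],false,4,3,[6]),
    (true,[([(0,15,[(10,11),(5,6)])],[2])],[5,3,3],false,2,1,[]),
    (true,[([(0,10,[(12,15)])],[4])],[5,3,3],false,2,3,[3,4]),
    (true,[([(0,10,[(12,15)])],[4]),([(0,3,[(3,3)])],[2,2,1])],[3],false,1,0,[2]),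
    (true,[([(0,10,[(12,15)])],[4]),([(0,1,[(3,3),(2,2)])],[3,3])],[],false,1,0,[]),
    (false,[([(0,10,[(12,15)]),(0,4,[(4,4)])],[4])],[7],false,1,0,[])]),
  ([8,7,7,5,4,1], [
    (false,[],[8,7,7,5,4,1],false,4,5,[5,6,8,11,15]),
    (true,[([(0,1,[(5,5)])],[2,2])],[6,5,5,4,3],false,4,3,[5]),
    (true,[([(0,8,[(5,5),(5,5)])],[3])],[6,5,5,3],false,3,3,[5]),
    (true,[([(0,10,[(5,5),(5,5),(4,5)])],[4])],[5,5,3],false,2,3,[3,4]),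
    (true,[([(0,10,[(5,5),(5,5),(4,5)])],[4]),([(0,3,[(3,3)])],[2,2,1])],[5],false,1,0,[2]),
    (true,[([(0,10,[(5,5),(5,5),(4,5)])],[4]),([(0,3,[(3,3)]),(0,3,[(2,2)])],[2])],[5],false,1,0,[]),
    (true,[([(0,10,[(5,5),(5,5),(4,5)])],[4]),([(0,4,[(4,4)])],[2,1,1])],[5],false,1,0,[]),
    (true,[([(0,0,[(6,6)])],[2,1])],[6,5,5,4,3],false,4,3,[5,6]),
    (true,[([(0,13,[(6,6),(5,5)])],[4,4])],[5,4,3,1],false,4,1,[5]),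
    (true,[([(2,14,[(6,6),(5,5),(5,5)])],[5])],[5,3],false,2,1,[]),
    (true,[([(0,16,[(6,6),(6,6)])],[4])],[5,5,4],false,2,4,[4,5]),
    (true,[([(0,8,[(6,6),(3,4)])],[3]),([(0,0,[(6,6)])],[3,3,2])],[5],false,1,0,[3]),
    (true,[([(0,8,[(6,6),(3,4)])],[4,4]),([(0,0,[(6,6)]),(0,3,[(2,3)])],[])],[5],false,1,0,[2]),
    (false,[([(0,8,[(6,6),(3,4)]),(0,2,[(6,6),(2,2)])],[2]),([(0,3,[(2,3)])],[2,2,2,2,1])],[],false,1,0,[]),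
    (true,[([(2,37,[(6,6),(6,6),(5,5)])],[5])],[5,5],false,1,0,[]),
    (true,[([(0,2,[(7,8)])],[3,2])],[6,5,4,3,1],false,4,4,[6,8]),
    (true,[([(0,2,[(7,8)]),(0,0,[(5,6)])],[])],[5,5,4,3,1],false,4,1,[5]),
    (false,[([(0,2,[(7,8)]),(0,0,[(5,6)])],[3,2]),([(0,1,[(5,5)])],[2,2,2,2])],[],false,1,0,[]),
    (false,[([(0,2,[(7,8)]),(0,2,[(7,8)])],[2])],[8,5,1],false,3,1,[]),
    (true,[([(0,13,[(9,11)])],[1])],[6,5,5,4],false,3,4,[5,6,7]),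
    (false,[([(0,13,[(9,11)]),(0,0,[(4,5)])],[])],[8,7],false,2,3,[3,4]),
    (false,[([(0,13,[(9,11)]),(0,0,[(4,5)])],[]),([(0,3,[(3,3)])],[2,2,2,2,2,2])],[],false,1,0,[2]),
    (true,[([(0,13,[(9,11)])],[4,4]),([(0,8,[(4,5),(3,3),(2,2)])],[3])],[],false,1,0,[]),
    (true,[([(0,13,[(9,11)])],[4,4]),([(0,8,[(4,5),(4,4)])],[3])],[],false,1,0,[]),
    (true,[([(0,15,[(9,11),(6,6)])],[2])],[5,5,3],false,2,1,[]),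
    (false,[([(0,13,[(9,11)]),(0,2,[(7,7)])],[2])],[7,4],false,1,0,[]),
    (true,[([(0,10,[(12,15)])],[4])],[5,5,3],false,2,3,[3,4]),
    (true,[([(0,10,[(12,15)])],[4]),([(0,3,[(3,3)])],[2,2,1])],[5],false,1,0,[2]),
    (true,[([(0,10,[(12,15)])],[4]),([(0,3,[(3,3)]),(0,3,[(2,2)])],[2])],[5],false,1,0,[]),
    (true,[([(0,10,[(12,15)])],[4]),([(0,4,[(4,4)])],[2,1,1])],[5],false,1,0,[])]),
  ([8,7,7,6,2,1], [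
    (false,[],[8,7,7,6,2,1],true,4,4,[5,6,8,9,11,13,15]),
    (false,[([(0,1,[(5,5)])],[2,1,1,1])],[8,7,6],false,3,6,[4,5]),
    (true,[([(0,1,[(5,5)]),(0,4,[(4,4)])],[2])],[5,4,4,4,3],false,3,3,[4]),
    (true,[([(0,1,[(5,5)]),(0,4,[(4,4)])],[2]),([(0,4,[(4,4)])],[2,2])],[5,4,3],false,3,3,[4]),
    (false,[([(0,8,[(5,5),(4,4)]),(0,4,[(4,4)]),(0,4,[(4,4)])],[])],[7,6],false,2,1,[]),
    (false,[([(0,8,[(5,5),(5,5)])],[2,2,2])],[8,7],false,2,6,[3,4,5]),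
    (false,[([(0,10,[(5,5),(5,5),(3,3)])],[3,3,3])],[7],false,1,0,[2,3]),
    (false,[([(0,10,[(5,5),(5,5),(3,3),(2,2)])],[3,3,3])],[7],false,1,0,[2]),
    (true,[([(2,2,[(5,5),(5,5),(3,3),(2,2),(2,2)])],[5])],[4,4],false,1,0,[2]),
    (false,[([(2,3,[(5,5),(5,5),(3,3),(2,2),(2,2),(2,2)])],[4,4,4])],[],false,1,0,[2]),
    (true,[([(2,38,[(5,5),(5,5),(3,3),(2,2),(2,2),(2,2),(2,2)])],[6])],[4],false,1,0,[]),
    (false,[([(0,8,[(5,5),(5,5)])],[3,3,3,3]),([(0,3,[(3,3)]),(0,3,[(3,3)])],[1,1,1])],[],false,1,0,[2,3]),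
    (true,[([(2,5,[(5,5),(5,5),(3,3),(3,3),(2,2)])],[5])],[4,4],false,1,0,[2]),
    (true,[([(2,30,[(5,5),(5,5),(3,3),(3,3),(2,2),(2,2)])],[6])],[4],false,1,0,[]),
    (false,[([(2,7,[(5,5),(5,5),(3,3),(3,3),(3,3)])],[4,4,4])],[],false,1,0,[]),
    (false,[([(0,8,[(5,5),(5,5)]),(0,4,[(4,4)])],[2])],[8,7],false,2,3,[3,4]),
    (true,[([(0,10,[(5,5),(5,5),(3,3)])],[4]),([(0,4,[(4,4)])],[2,2])],[4],false,1,0,[2]),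
    (true,[([(0,10,[(5,5),(5,5),(3,3),(2,2)])],[4]),([(0,4,[(4,4)])],[2,2])],[4],false,1,0,[]),
    (true,[([(0,10,[(5,5),(5,5),(4,4)])],[4]),([(0,4,[(4,4)])],[2,2])],[4],false,1,0,[]),
    (false,[([(0,10,[(5,5),(5,5),(5,5)])],[3,3,3])],[7],false,1,0,[2,3]),
    (true,[([(2,8,[(5,5),(5,5),(5,5),(2,2)])],[5])],[4,4],false,1,0,[2]),
    (false,[([(2,9,[(5,5),(5,5),(5,5),(2,2),(2,2)])],[4,4,4])],[],false,1,0,[]),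
    (true,[([(2,10,[(5,5),(5,5),(5,5),(3,3)])],[5])],[4,4],false,1,0,[]),
    (false,[([(0,0,[(6,6)])],[1,1,1,1])],[8,7,6],false,3,6,[4,5,6]),
    (true,[([(0,13,[(6,6),(4,4)])],[3])],[6,4,4,3],false,3,3,[4]),
    (false,[([(0,0,[(6,6)]),(0,4,[(4,4)]),(0,4,[(4,4)])],[])],[8,7,2],false,3,2,[4]),
    (true,[([(0,10,[(6,6),(4,4),(4,4)])],[4]),([(0,4,[(4,4)])],[2,2])],[4],false,1,0,[]),
    (true,[([(0,13,[(6,6),(5,5)])],[3])],[6,4,4,3],false,3,3,[4,5]),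
    (true,[([(0,13,[(6,6),(5,5)])],[2]),([(0,4,[(4,4)])],[2,2])],[6,4],false,2,2,[3]),
    (true,[([(0,10,[(6,6),(5,5),(3,3)])],[4]),([(0,4,[(4,4)])],[2,2])],[4],false,1,0,[]),
    (true,[([(2,39,[(6,6),(5,5),(5,5)])],[5])],[4,4],false,1,0,[2]),
    (true,[([(0,2,[(6,6),(2,2)])],[3]),([(0,8,[(5,5),(5,5)])],[3,3])],[4],false,1,0,[]),
    (false,[([(0,10,[(6,6),(6,6)])],[3,3,3])],[7],false,1,0,[2,3,5]),
    (true,[([(0,2,[(6,6),(2,2)]),(0,0,[(6,6)])],[])],[4,4,4,4,1],true,2,3,[]),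
    (false,[([(0,10,[(6,6),(6,6),(3,3)])],[3,3,3])],[7],false,1,0,[2,3]),
    (true,[([(0,2,[(6,6),(2,2)])],[3]),([(0,0,[(6,6)]),(0,3,[(3,3)])],[2])],[5,4],false,2,1,[]),
    (true,[([(2,12,[(6,6),(6,6),(3,3),(3,3)])],[5])],[4,4],false,1,0,[]),
    (true,[([(0,13,[(6,6),(4,5)])],[3]),([(0,0,[(6,6)])],[3,3,1])],[4],false,1,0,[2]),
    (false,[([(0,13,[(6,6),(4,5)]),(0,2,[(6,6),(2,2)])],[3])],[7,2],false,1,0,[]),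
    (true,[([(0,2,[(7,8)])],[3])],[6,5,4,4,1],false,3,6,[4,6,8]),
    (false,[([(0,2,[(7,8)]),(0,4,[(4,4)])],[2,2])],[8,6,1],true,3,2,[4]),
    (false,[([(0,2,[(7,8)]),(0,4,[(4,4)]),(0,4,[(4,4)])],[])],[8,6,1],false,3,1,[]),
    (true,[([(0,2,[(7,8)]),(0,0,[(5,6)])],[])],[4,4,4,4,1],true,2,4,[3,4,5]),
    (true,[([(0,2,[(7,8)])],[3]),([(0,0,[(5,6)]),(0,3,[(3,3)])],[2])],[5,4],false,2,2,[3]),
    (true,[([(0,2,[(7,8)])],[3]),([(0,0,[(5,6)]),(0,3,[(3,3)])],[2]),([(0,3,[(3,3)])],[2,2,2])],[],false,1,0,[]),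
    (true,[([(0,2,[(7,8)]),(0,0,[(5,6)])],[]),([(0,4,[(4,4)])],[2,2])],[4,4,1],false,2,1,[]),
    (true,[([(0,2,[(7,8)]),(0,1,[(5,5)])],[]),([(0,0,[(5,6)])],[2,2])],[4,4],false,1,0,[]),
    (true,[([(0,2,[(7,8)])],[3]),([(0,2,[(7,8)])],[3,3,1])],[4,1],true,2,2,[3]),
    (false,[([(0,13,[(7,8),(3,3)]),(0,2,[(7,8)])],[3])],[7,2],false,1,0,[]),
    (true,[([(0,5,[(9,9)])],[3])],[6,5,4,3,1],false,5,1,[7]),
    (true,[([(0,15,[(9,9),(6,7)])],[])],[6,4,4],false,2,1,[]),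
    (true,[([(0,13,[(10,11)])],[3])],[6,4,4,3],false,3,3,[4,6]),
    (true,[([(0,13,[(10,11)])],[2]),([(0,4,[(4,4)])],[2,2])],[6,4],false,2,2,[3]),
    (true,[([(0,10,[(10,11),(3,3)])],[4]),([(0,4,[(4,4)])],[2,2])],[4],false,1,0,[]),
    (true,[([(0,15,[(10,11),(5,6)])],[])],[6,4,4],false,2,1,[]),
    (true,[([(0,9,[(12,13)])],[4,1])],[4,4,4,1],true,2,3,[4]),
    (true,[([(0,15,[(12,13),(3,4)])],[])],[6,4,4],false,2,1,[]),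
    (false,[([(0,12,[(14,15)])],[4,4,4,1])],[2,1],false,2,1,[])]),
  ([8,7,7,6,5,1], [
    (false,[],[8,7,7,6,5,1],false,4,6,[5,6,8,10,13,15]),
    (false,[([(0,1,[(5,5)])],[2,2,2,2])],[8,7,6],false,3,6,[4,5]),
    (false,[([(0,1,[(5,5)]),(0,4,[(4,4)])],[2,2])],[8,7,6],false,3,6,[4]),
    (false,[([(0,1,[(5,5)]),(0,4,[(4,4)]),(0,4,[(4,4)])],[])],[8,7,6],false,3,4,[4]),
    (true,[([(0,8,[(5,5),(4,4)])],[3]),([(0,4,[(4,4)]),(0,4,[(4,4)])],[2])],[6,5],false,2,1,[]),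
    (false,[([(0,8,[(5,5),(5,5)])],[3,3,3])],[8,7],false,2,6,[3,4,5]),
    (false,[([(0,10,[(5,5),(5,5),(3,3)])],[4,4,4])],[7],false,1,0,[2,3]),
    (false,[([(0,10,[(5,5),(5,5),(3,3),(2,2)])],[4,4,4])],[7],false,1,0,[2]),
    (false,[([(2,20,[(5,5),(5,5),(3,3),(2,2),(2,2)])],[5,5,5])],[],false,1,0,[2]),
    (false,[([(2,3,[(5,5),(5,5),(3,3),(2,2),(2,2),(2,2)])],[5,5,5])],[],false,1,0,[2]),
    (true,[([(2,4,[(5,5),(5,5),(3,3),(2,2),(2,2),(2,2),(2,2)])],[6])],[5],false,1,0,[]),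
    (false,[([(0,8,[(5,5),(5,5)])],[3,3,3,3]),([(0,3,[(3,3)]),(0,3,[(3,3)])],[2,2,2])],[],false,1,0,[2,3]),
    (false,[([(2,21,[(5,5),(5,5),(3,3),(3,3),(2,2)])],[5,5,5])],[],false,1,0,[2]),
    (true,[([(2,6,[(5,5),(5,5),(3,3),(3,3),(2,2),(2,2)])],[6])],[5],false,1,0,[]),
    (false,[([(2,7,[(5,5),(5,5),(3,3),(3,3),(3,3)])],[5,5,5])],[],false,1,0,[]),
    (true,[([(0,8,[(5,5),(5,5)])],[3]),([(0,4,[(4,4)])],[2,2,2])],[6,5],false,2,3,[3,4]),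
    (true,[([(0,10,[(5,5),(5,5),(3,3)])],[4]),([(0,4,[(4,4)])],[2,2,2])],[5],false,1,0,[2]),
    (true,[([(0,10,[(5,5),(5,5),(3,3),(2,2)])],[4]),([(0,4,[(4,4)])],[2,2,2])],[5],false,1,0,[]),
    (true,[([(0,10,[(5,5),(5,5),(4,4)])],[4]),([(0,4,[(4,4)])],[2,2,2])],[5],false,1,0,[]),
    (false,[([(0,10,[(5,5),(5,5),(5,5)])],[4,4,4])],[7],false,1,0,[2,3]),
    (false,[([(2,23,[(5,5),(5,5),(5,5),(2,2)])],[5,5,5])],[],false,1,0,[2]),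
    (false,[([(2,9,[(5,5),(5,5),(5,5),(2,2),(2,2)])],[5,5,5])],[],false,1,0,[]),
    (false,[([(2,15,[(5,5),(5,5),(5,5),(3,3)])],[5,5,5])],[],false,1,0,[]),
    (false,[([(0,0,[(6,6)])],[2,2,2,1])],[8,7,6],false,3,6,[4,5,6]),
    (true,[([(0,13,[(6,6),(4,4)])],[3,3])],[5,5,4,3],false,3,3,[4]),
    (false,[([(0,0,[(6,6)]),(0,4,[(4,4)]),(0,4,[(4,4)])],[])],[8,7,5],false,3,3,[4]),
    (true,[([(0,10,[(6,6),(4,4),(4,4)])],[4]),([(0,4,[(4,4)])],[2,2,2])],[5],false,1,0,[]),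
    (true,[([(0,13,[(6,6),(5,5)])],[3,3])],[5,5,4,3],false,3,3,[4,5]),
    (false,[([(0,13,[(6,6),(5,5)]),(0,4,[(4,4)])],[3,3])],[7,6],false,2,2,[3]),
    (true,[([(0,10,[(6,6),(5,5),(3,3)])],[4]),([(0,4,[(4,4)])],[2,2,2])],[5],false,1,0,[]),
    (false,[([(2,14,[(6,6),(5,5),(5,5)])],[5,5,5])],[],false,1,0,[2]),
    (false,[([(0,2,[(6,6),(2,2)]),(0,8,[(5,5),(5,5)])],[3])],[7,6],false,1,0,[]),
    (false,[([(0,10,[(6,6),(6,6)])],[4,4,4])],[7],false,1,0,[2,3,5]),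
    (false,[([(0,2,[(6,6),(2,2)]),(0,0,[(6,6)])],[3,3])],[7,6,1],false,2,3,[]),
    (false,[([(0,10,[(6,6),(6,6),(3,3)])],[4,4,4])],[7],false,1,0,[2,3]),
    (false,[([(0,8,[(6,6),(3,3)]),(0,2,[(6,6),(2,2)])],[3])],[7,6],false,2,1,[]),
    (false,[([(2,18,[(6,6),(6,6),(3,3),(3,3)])],[5,5,5])],[],false,1,0,[]),
    (false,[([(0,13,[(6,6),(4,5)]),(0,0,[(6,6)])],[3])],[7,7],false,1,0,[2]),
    (false,[([(0,13,[(6,6),(4,5)]),(0,2,[(6,6),(2,2)])],[])],[8,7],false,1,0,[]),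
    (true,[([(0,2,[(7,8)])],[3,2])],[6,5,5,4,1],false,3,5,[5,7,8]),
    (true,[([(0,2,[(7,8)]),(0,0,[(4,5)])],[])],[5,5,5,4,1],true,3,3,[5]),
    (false,[([(0,2,[(7,8)]),(0,8,[(4,5),(4,5)])],[3])],[7,6],false,2,2,[3]),
    (false,[([(0,2,[(7,8)]),(0,8,[(4,5),(4,5)])],[3]),([(0,3,[(3,3)])],[2,2,2,2,2])],[],false,1,0,[]),
    (false,[([(0,10,[(7,8),(6,7)])],[4,4,4])],[7],false,1,0,[3,4]),
    (false,[([(0,2,[(7,8)]),(0,8,[(6,7),(2,3)])],[3])],[7,6],false,2,2,[3]),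
    (false,[([(0,2,[(7,8)]),(0,8,[(6,7),(2,3)])],[3]),([(0,3,[(3,3)])],[2,2,2,2,2])],[],false,1,0,[]),
    (true,[([(0,10,[(7,8),(6,7)])],[4]),([(0,4,[(4,4)])],[2,2,2])],[5],false,1,0,[]),
    (true,[([(0,15,[(7,8),(8,8)])],[3])],[5,5,4],false,2,1,[]),
    (true,[([(0,13,[(9,10)])],[3,3])],[5,5,4,3],false,3,3,[4,5,7]),
    (true,[([(0,8,[(9,10)])],[3]),([(0,4,[(4,4)])],[2,2,2])],[6,5],false,2,3,[4]),
    (true,[([(0,10,[(9,10),(3,4)])],[4]),([(0,4,[(4,4)])],[2,2,2])],[5],false,1,0,[2]),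
    (false,[([(0,13,[(9,10)]),(0,0,[(3,4),(2,2)])],[3]),([(0,4,[(4,4)])],[2,2,2,2,2])],[],false,1,0,[]),
    (false,[([(0,10,[(9,10),(5,5)])],[4,4,4])],[7],false,1,0,[2,3]),
    (true,[([(0,15,[(9,10),(5,5),(2,2)])],[3])],[5,5,4],false,2,1,[]),
    (true,[([(0,9,[(9,10),(3,3)])],[4]),([(0,0,[(5,5)])],[2,2,2])],[5],false,1,0,[]),
    (true,[([(0,15,[(9,10),(6,7)])],[3])],[5,5,4],false,2,1,[]),
    (true,[([(0,9,[(11,13)])],[4])],[6,5,5,1],false,2,4,[3,4,5]),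
    (true,[([(0,9,[(11,13)])],[4]),([(0,3,[(3,3)])],[1,1,1])],[6,5],false,2,2,[3]),
    (true,[([(0,9,[(11,13)])],[4]),([(0,0,[(3,3),(3,3)])],[2,2,2])],[5],false,1,0,[]),
    (true,[([(0,15,[(11,13),(4,4)])],[3])],[5,5,4],false,2,1,[]),
    (true,[([(0,9,[(11,13)])],[4]),([(0,0,[(5,5)])],[2,2,2])],[5],false,1,0,[]),
    (false,[([(0,12,[(14,15)])],[4,4,2])],[8,1],false,2,1,[])])]

theorem cj5d_4_ok : runAllJ S38 R38 F38 14 cj5d_4 = true := by decide +kernel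

noncomputable def cj5d_5 : List (List ℕ × List NdJ) := [
  ([8,8,5,3,2,1,1], [
    (false,[],[8,8,5,3,2,1,1],true,5,4,[8,12,15]),
    (false,[([(0,14,[(6,8)])],[1])],[8,8,3],true,2,9,[3,6,8]),
    (false,[([(0,14,[(6,8)]),(0,3,[(3,3)])],[1,1])],[8,5,2],true,3,3,[]),
    (false,[([(0,14,[(6,8)]),(0,0,[(4,6)])],[2])],[8,3,1],true,3,3,[4,6]),
    (false,[([(0,18,[(6,8),(4,4)]),(0,0,[(4,6)])],[])],[8,2],true,2,3,[3,4]),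
    (false,[([(0,18,[(6,8),(4,4)]),(0,0,[(4,6)])],[]),([(0,3,[(3,3)])],[2,1,1,1,1,1])],[],false,1,0,[2]),
    (false,[([(0,18,[(6,8),(4,4)]),(0,0,[(4,6)])],[]),([(0,3,[(3,3)]),(0,3,[(2,2)])],[1,1,1,1])],[],false,1,0,[]),
    (false,[([(0,18,[(6,8),(4,4)]),(0,0,[(4,6)])],[]),([(0,4,[(4,4)])],[1,1,1,1,1,1])],[],false,1,0,[]),
    (false,[([(0,14,[(6,8)]),(0,0,[(4,6)])],[2]),([(0,0,[(5,6)])],[2,1,1,1,1])],[],false,1,0,[3]),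
    (false,[([(0,14,[(6,8)]),(0,0,[(4,6)])],[2]),([(0,0,[(5,6)]),(0,3,[(2,3)])],[1,1,1])],[],false,1,0,[2]),
    (false,[([(0,14,[(6,8)]),(0,3,[(2,3)])],[1,1]),([(0,0,[(4,6)]),(0,0,[(5,6)]),(0,3,[(2,2)])],[])],[],false,1,0,[]),
    (false,[([(0,14,[(6,8)]),(0,2,[(7,8)])],[1])],[8,2,1],false,3,1,[4]),
    (true,[([(0,18,[(6,8),(4,4)])],[5,1]),([(0,2,[(7,8)])],[1,1])],[],false,1,0,[]),
    (false,[([(0,18,[(9,12)])],[])],[8,8],false,1,0,[3,6,7]),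
    (false,[([(0,18,[(9,12)]),(0,3,[(2,3)])],[2])],[8,3],true,2,5,[3]),
    (false,[([(0,18,[(9,12)]),(0,0,[(2,3),(3,3)])],[])],[8,2],true,2,3,[3]),
    (false,[([(0,10,[(9,12),(3,3)]),(0,3,[(2,3)])],[1]),([(0,3,[(3,3)])],[1,1,1,1,1,1])],[],false,1,0,[2]),
    (false,[([(0,18,[(9,12)]),(0,0,[(2,3),(3,3)])],[]),([(0,3,[(3,3)]),(0,3,[(2,2)])],[1,1,1,1])],[],false,1,0,[]),
    (false,[([(0,18,[(9,12)]),(0,0,[(4,6)])],[])],[8,2],true,2,3,[3,4]),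
    (false,[([(0,18,[(9,12)]),(0,0,[(4,6)])],[]),([(0,3,[(3,3)])],[2,1,1,1,1,1])],[],false,1,0,[2]),
    (false,[([(0,18,[(9,12)]),(0,0,[(4,6)])],[]),([(0,3,[(3,3)]),(0,3,[(2,2)])],[1,1,1,1])],[],false,1,0,[]),
    (false,[([(0,18,[(9,12)]),(0,0,[(4,6)])],[]),([(0,4,[(4,4)])],[1,1,1,1,1,1])],[],false,1,0,[]),
    (true,[([(0,18,[(9,12)])],[5,1]),([(0,2,[(7,7)])],[1,1])],[],false,1,0,[]),
    (false,[([(0,10,[(13,15)])],[2,1,1])],[8,1],true,2,2,[3]),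
    (false,[([(0,10,[(13,15)]),(0,3,[(3,3)])],[1])],[8,1],false,1,0,[])]),
  ([8,8,5,4,3,1], [
    (false,[],[8,8,5,4,3,1],true,5,3,[7,10,13,15]),
    (true,[([(0,7,[(6,7)])],[4])],[6,5,4,3],false,4,3,[6,7]),
    (false,[([(0,7,[(6,7)]),(0,0,[(5,6)])],[3])],[8,5],false,2,5,[3,4,5,6]),
    (false,[([(0,8,[(6,7),(3,3)]),(0,0,[(5,6)])],[1])],[8,4],false,2,3,[3]),
    (false,[([(0,8,[(6,7),(3,3)]),(0,0,[(5,6)])],[1]),([(0,3,[(3,3)])],[2,2,2,1,1,1])],[],false,1,0,[2]),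
    (true,[([(0,10,[(6,7),(5,6),(2,2)])],[5]),([(0,3,[(3,3)]),(0,3,[(3,3)])],[1])],[2],false,1,0,[]),
    (false,[([(0,13,[(6,7),(4,4)]),(0,0,[(5,6)])],[1])],[8,3],false,2,2,[3]),
    (false,[([(0,13,[(6,7),(4,4)]),(0,0,[(5,6)])],[1]),([(0,3,[(3,3)])],[2,2,1,1,1,1])],[],false,1,0,[]),
    (true,[([(0,14,[(6,7)])],[4]),([(0,0,[(5,6)]),(0,0,[(5,5)])],[])],[5],false,1,0,[2]),
    (true,[([(0,10,[(6,7),(5,6),(2,2)])],[5]),([(0,1,[(5,5)])],[3,1])],[],false,1,0,[]),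
    (true,[([(0,14,[(6,7)])],[4]),([(0,0,[(5,6)]),(0,0,[(6,6)])],[])],[5],false,1,0,[]),
    (true,[([(0,10,[(6,7),(7,7)])],[5])],[5,2,2],false,2,3,[4]),
    (true,[([(0,14,[(6,7)])],[4]),([(0,13,[(7,7),(3,4)])],[4,2])],[],false,1,0,[2]),
    (true,[([(0,7,[(6,7)])],[4]),([(0,2,[(7,7)]),(0,0,[(3,4),(2,2)])],[])],[4],false,1,0,[]),
    (true,[([(0,8,[(8,10)])],[4])],[6,5,2,2],false,3,4,[5,6,8]),
    (true,[([(0,10,[(8,10),(4,5)])],[5])],[5,2,2],false,2,4,[3,4,5]),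
    (true,[([(0,10,[(8,10),(4,5)])],[5]),([(0,3,[(3,3)])],[2,1,1])],[2],false,1,0,[3]),
    (true,[([(0,10,[(8,10),(4,5)])],[5]),([(0,3,[(3,3)]),(0,3,[(2,3)])],[1])],[2],false,1,0,[2]),
    (false,[([(0,8,[(8,10)]),(0,1,[(4,5)])],[1]),([(0,3,[(3,3)]),(0,3,[(2,3)]),(0,3,[(2,2)])],[2,2])],[],false,1,0,[]),
    (true,[([(0,10,[(8,10),(4,5)])],[5]),([(0,4,[(4,4)])],[])],[5],false,1,0,[2]),
    (false,[([(0,8,[(8,10)]),(0,1,[(4,5)])],[1]),([(0,4,[(4,4)]),(0,3,[(2,2)])],[2,2,1,1])],[],false,1,0,[]),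
    (true,[([(0,10,[(8,10),(4,5)])],[5]),([(0,1,[(5,5)])],[3,1])],[],false,1,0,[]),
    (false,[([(0,8,[(8,10)]),(0,0,[(6,6)])],[1])],[8,4],false,2,2,[3]),
    (false,[([(0,8,[(8,10)]),(0,0,[(6,6)])],[1]),([(0,3,[(3,3)])],[2,2,2,1,1,1])],[],false,1,0,[]),
    (true,[([(0,23,[(8,10)])],[5]),([(0,2,[(7,8)])],[3,3])],[],false,1,0,[2]),
    (true,[([(0,18,[(8,10),(2,2)])],[5]),([(0,2,[(7,8)])],[2,2])],[],false,1,0,[]),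
    (true,[([(0,9,[(11,13)])],[1])],[6,5,2,2],false,3,4,[5]),
    (true,[([(0,9,[(11,13)])],[1]),([(0,1,[(4,5)])],[3,1])],[6],false,1,0,[2]),
    (true,[([(0,10,[(11,13),(2,2)])],[5]),([(0,1,[(4,5)])],[3,1])],[],false,1,0,[]),
    (true,[([(0,10,[(14,15)])],[5])],[5,2,2],false,2,1,[])]),
  ([8,8,6,3,2,1], [
    (false,[],[8,8,6,3,2,1],true,5,4,[7,9,11,14,15]),
    (false,[([(0,7,[(6,7)])],[3,2])],[8,8],false,1,0,[2,3,4,5,7]),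
    (false,[([(0,8,[(6,7),(2,2)])],[1,1])],[8,8],false,1,0,[2]),
    (false,[([(0,8,[(6,7),(2,2)]),(0,3,[(2,2)])],[2,2])],[8,3],false,1,0,[2]),
    (false,[([(0,7,[(6,7)]),(1,0,[(2,2),(2,2),(2,2)])],[1])],[8,6],false,2,6,[]),
    (true,[([(0,8,[(6,7),(3,3)])],[4])],[6,3,3,2],false,2,7,[3]),
    (false,[([(0,8,[(6,7),(3,3)]),(0,3,[(3,3)])],[2,2])],[8,3],true,2,5,[3]),
    (false,[([(0,8,[(6,7),(3,3)]),(0,0,[(3,3),(3,3)])],[2])],[8,2],true,2,3,[3]),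
    (true,[([(0,8,[(6,7),(3,3)])],[4]),([(0,3,[(3,3)]),(0,3,[(3,3)]),(0,3,[(3,3)])],[])],[3,2],false,2,1,[]),
    (false,[([(0,7,[(6,7)]),(0,1,[(4,4)])],[2])],[8,6],false,2,6,[3,4]),
    (true,[([(0,16,[(6,7),(4,4),(3,3)])],[5])],[4,3,2],false,3,2,[]),
    (false,[([(0,13,[(6,7),(4,4)]),(0,4,[(4,4)])],[2,1])],[8,2],true,2,3,[4]),
    (false,[([(0,10,[(6,7),(4,4),(3,4)]),(0,4,[(4,4)])],[1])],[8],false,1,0,[2]),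
    (false,[([(0,7,[(6,7)]),(0,0,[(3,4),(2,2)])],[1]),([(0,4,[(4,4)]),(0,4,[(4,4)])],[2,2,1,1])],[],false,1,0,[]),
    (true,[([(0,18,[(6,7),(5,5)])],[5])],[5,3,3],false,2,5,[3,4,5]),
    (false,[([(0,8,[(6,7),(3,3)]),(0,0,[(5,5)])],[2])],[8,2],true,2,3,[3]),
    (false,[([(0,10,[(6,7),(5,5),(3,3)]),(0,3,[(3,3)])],[2])],[8],false,1,0,[2]),
    (false,[([(0,16,[(6,7),(5,5),(2,2)]),(0,0,[(3,3),(3,3)])],[])],[8],false,1,0,[]),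
    (false,[([(0,18,[(6,7),(5,5)]),(0,4,[(4,4)])],[4])],[8],false,1,0,[3]),
    (false,[([(0,10,[(6,7),(5,5),(2,3)]),(0,4,[(4,4)])],[1])],[8],false,1,0,[2]),
    (true,[([(0,16,[(6,7),(5,5),(2,2)])],[5]),([(0,4,[(4,4)]),(0,3,[(2,3)])],[])],[2],false,1,0,[]),
    (true,[([(0,18,[(6,7),(5,5)])],[5]),([(0,1,[(5,5)])],[3,3])],[],false,1,0,[2]),
    (false,[([(0,16,[(6,7),(5,5),(2,2)]),(0,0,[(5,5)])],[])],[8],false,1,0,[]),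
    (true,[([(0,16,[(6,7),(6,7)])],[5])],[4,3,2],false,3,2,[4,5]),
    (true,[([(0,16,[(6,7),(6,7)])],[5]),([(0,4,[(4,4)])],[1])],[4],false,1,0,[2]),
    (false,[([(0,16,[(6,7),(6,7)]),(0,0,[(4,4),(2,2)])],[])],[8],false,1,0,[]),
    (false,[([(0,16,[(6,7),(6,7)]),(0,0,[(5,5)])],[])],[8],false,1,0,[]),
    (true,[([(0,8,[(8,9)])],[4])],[6,3,3,2],false,2,7,[3,5,6,8]),
    (true,[([(0,18,[(8,9),(3,3)])],[5])],[5,3,3],false,2,5,[3]),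
    (false,[([(0,8,[(8,9)]),(0,0,[(3,3),(3,3)])],[2])],[8,2],true,2,3,[3]),
    (true,[([(0,8,[(8,9)])],[4]),([(0,3,[(3,3)]),(0,3,[(3,3)]),(0,3,[(3,3)])],[])],[3,2],false,2,1,[]),
    (true,[([(0,16,[(8,9),(4,5)])],[5])],[4,3,2],false,3,2,[4,5]),
    (true,[([(0,16,[(8,9),(4,5)])],[5]),([(0,4,[(4,4)])],[1])],[4],false,1,0,[2]),
    (false,[([(0,16,[(8,9),(4,5)]),(0,0,[(4,4),(2,2)])],[])],[8],false,1,0,[]),
    (false,[([(0,16,[(8,9),(4,5)]),(0,0,[(5,5)])],[])],[8],false,1,0,[]),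
    (true,[([(0,10,[(8,9),(6,6)])],[5])],[3,3,2],false,2,2,[3]),
    (false,[([(0,10,[(8,9),(6,6)]),(0,3,[(3,3)])],[2])],[8],false,1,0,[]),
    (true,[([(0,8,[(8,9)])],[4]),([(0,2,[(7,8)])],[])],[6],false,1,0,[2]),
    (true,[([(0,13,[(8,9),(2,2)])],[4,2]),([(0,2,[(7,8)])],[])],[3],false,1,0,[]),
    (true,[([(0,18,[(10,11)])],[5])],[5,3,3],false,2,5,[4,5,6]),
    (false,[([(0,10,[(10,11),(3,4)])],[2,2,1])],[8],false,1,0,[2,3,4]),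
    (false,[([(0,10,[(10,11),(3,4)]),(0,3,[(2,2)])],[2])],[8],false,1,0,[2]),
    (true,[([(0,9,[(10,11),(2,2)])],[1]),([(0,0,[(3,4),(2,2)])],[3,1,1])],[3],false,1,0,[2]),
    (true,[([(0,9,[(10,11),(2,2)]),(0,3,[(2,2)])],[]),([(0,0,[(3,4),(2,2)])],[3])],[3],false,1,0,[]),
    (false,[([(0,10,[(10,11),(3,4)]),(0,3,[(3,3)])],[2])],[8],false,1,0,[2]),
    (false,[([(0,16,[(10,11),(3,3)]),(0,0,[(3,4),(2,2)])],[])],[8],false,1,0,[]),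
    (false,[([(0,10,[(10,11),(3,4)]),(0,4,[(4,4)])],[1])],[8],false,1,0,[]),
    (true,[([(0,18,[(10,11)])],[5]),([(0,1,[(5,5)])],[3,3])],[],false,1,0,[2]),
    (true,[([(0,9,[(10,11),(2,2)])],[1]),([(0,1,[(5,5)])],[3,2,1])],[3],false,1,0,[]),
    (false,[([(0,11,[(10,11),(6,6)])],[4,3,3])],[1],false,1,0,[]),
    (true,[([(0,16,[(12,14)])],[5])],[4,3,2],false,3,2,[4]),
    (true,[([(0,16,[(12,14)])],[5]),([(0,4,[(4,4)])],[1])],[4],false,1,0,[]),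
    (false,[([(0,10,[(15,15)])],[2,2,1])],[8],false,1,0,[])]),
  ([8,8,7,3,2,1], [
    (false,[],[8,8,7,3,2,1],true,4,5,[5,6,8,9,10,13,15]),
    (true,[([(0,0,[(5,5)])],[3])],[6,5,3,3,3],false,3,5,[4,5]),
    (true,[([(0,1,[(5,5)]),(0,0,[(4,4)])],[])],[5,4,3,3,3],false,3,4,[4]),
    (true,[([(0,1,[(5,5)]),(0,0,[(4,4)])],[]),([(0,4,[(4,4)])],[2])],[5,4,3],false,3,3,[4]),
    (false,[([(0,8,[(5,5),(4,4)]),(0,4,[(4,4)]),(0,4,[(4,4)])],[])],[8,3],false,2,1,[]),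
    (true,[([(0,1,[(5,5)]),(0,0,[(5,5)])],[])],[5,4,3,3,3],false,3,4,[4,5]),
    (true,[([(0,1,[(5,5)]),(0,0,[(5,5)])],[]),([(0,4,[(4,4)])],[2])],[5,4,3],false,3,3,[4]),
    (false,[([(0,16,[(5,5),(5,5),(4,4)]),(0,4,[(4,4)])],[3])],[8],false,1,0,[]),
    (true,[([(0,1,[(5,5)]),(0,0,[(5,5)])],[]),([(0,1,[(5,5)])],[3,3])],[4,3],false,2,2,[3]),
    (true,[([(2,40,[(5,5),(5,5),(5,5),(3,3)])],[7])],[3],false,1,0,[]),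
    (true,[([(0,0,[(6,6)])],[3])],[6,5,3,3,3],false,3,5,[5,6]),
    (true,[([(0,0,[(6,6)]),(0,1,[(4,5)])],[])],[5,4,3,3,3],false,3,4,[5]),
    (true,[([(0,0,[(6,6)]),(0,1,[(4,5)])],[]),([(0,1,[(4,5)])],[3,3])],[4,3],false,2,3,[3,4]),
    (true,[([(0,0,[(6,6)]),(0,1,[(4,5)])],[]),([(0,1,[(4,5)])],[3,3]),([(0,3,[(3,3)])],[2,2])],[],false,1,0,[2]),
    (true,[([(0,2,[(6,6),(2,2)]),(0,1,[(4,5)])],[]),([(0,1,[(4,5)])],[3,3]),([(0,3,[(3,3)])],[2])],[],false,1,0,[]),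
    (true,[([(0,0,[(6,6)]),(0,1,[(4,5)])],[]),([(0,1,[(4,5)])],[3,3]),([(0,4,[(4,4)])],[2,1])],[],false,1,0,[]),
    (true,[([(0,16,[(6,6),(6,6)])],[5])],[4,3,3],false,2,4,[3,5]),
    (false,[([(0,10,[(6,6),(6,6),(3,3)])],[2,2,2])],[8],false,1,0,[3]),
    (true,[([(0,0,[(6,6)]),(0,0,[(6,6)])],[]),([(0,3,[(3,3)]),(0,3,[(2,3)])],[2])],[3,3,3],false,1,0,[2]),
    (false,[([(0,2,[(6,6),(2,2)]),(0,0,[(6,6)])],[2,2]),([(0,0,[(3,3),(2,3)])],[1,1,1,1,1])],[],false,1,0,[]),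
    (true,[([(0,0,[(6,6)]),(0,0,[(6,6)])],[]),([(0,1,[(4,5)])],[3,3])],[3,3],false,1,0,[2]),
    (false,[([(0,2,[(6,6),(2,2)]),(0,0,[(6,6)])],[2,2]),([(0,1,[(4,5)])],[2,1,1,1,1])],[],false,1,0,[]),
    (true,[([(0,2,[(7,8)])],[])],[6,5,4,3,3],false,4,4,[6,8]),
    (false,[([(0,2,[(7,8)]),(0,0,[(5,6)])],[2,2])],[8,2,1],true,3,2,[5]),
    (false,[([(0,2,[(7,8)]),(0,0,[(5,6)])],[2,2]),([(0,1,[(4,5)])],[2,1,1,1,1])],[],false,1,0,[2]),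
    (false,[([(0,2,[(7,8)]),(0,0,[(5,6)])],[2,2]),([(0,1,[(4,5)]),(0,3,[(2,2)])],[1,1,1])],[],false,1,0,[]),
    (true,[([(0,2,[(7,8)])],[]),([(0,2,[(7,8)])],[3,1])],[6,3],false,2,2,[3]),
    (true,[([(0,2,[(7,8)]),(0,3,[(3,3)])],[3]),([(0,2,[(7,8)])],[])],[4,3],false,1,0,[]),
    (true,[([(0,5,[(9,9)])],[])],[6,5,4,3,2],false,5,2,[7]),
    (true,[([(0,5,[(9,9)])],[1]),([(0,7,[(6,7)])],[4,3])],[5],false,1,0,[2]),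
    (true,[([(0,5,[(9,9)])],[]),([(0,8,[(6,7),(2,2)])],[4])],[6],false,1,0,[]),
    (false,[([(0,8,[(10,10)])],[1,1,1,1])],[8,7],false,2,5,[3,5,6]),
    (true,[([(0,9,[(10,10),(3,3)])],[1])],[6,3,3,3],false,2,3,[3]),
    (false,[([(0,9,[(10,10),(3,3)]),(0,3,[(3,3)])],[2,2])],[8,1],false,2,1,[]),
    (false,[([(0,10,[(10,10),(4,5)])],[2,2,2])],[8],false,1,0,[3]),
    (true,[([(0,9,[(10,10),(2,3)])],[1]),([(0,1,[(4,5)])],[3,3,1])],[3],false,1,0,[2]),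
    (false,[([(0,6,[(10,10),(2,2)]),(0,0,[(4,5)])],[2]),([(0,3,[(2,3)])],[1,1,1,1,1,1])],[],false,1,0,[]),
    (true,[([(2,1,[(10,10),(6,6)])],[6])],[3,3],false,1,0,[]),
    (true,[([(0,9,[(11,13)])],[1])],[6,3,3,3],false,2,4,[3,4,5]),
    (false,[([(0,9,[(11,13)]),(0,3,[(3,3)])],[2,2])],[8,1],true,2,2,[3]),
    (false,[([(0,9,[(11,13)]),(0,3,[(3,3)])],[2,2]),([(0,3,[(3,3)])],[1,1,1,1,1,1])],[],false,1,0,[]),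
    (false,[([(0,9,[(11,13)]),(0,4,[(4,4)])],[2,1])],[8,1],false,2,1,[]),
    (true,[([(0,9,[(11,13)])],[1]),([(0,1,[(5,5)])],[3,3,1])],[3],false,1,0,[]),
    (false,[([(0,12,[(14,15)])],[3,3,3,2])],[2,1],false,2,1,[])]),
  ([9,4,3,3,3,3,2,1], [
    (false,[],[9,4,3,3,3,3,2,1],true,4,6,[5,7,9,12,14,15]),
    (true,[([(0,1,[(5,5)])],[1,1,1])],[8,7,2,1,1,1],false,3,5,[5]),
    (true,[([(0,23,[(5,5),(4,5)])],[1])],[8,7,1,1],false,2,7,[3,5]),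
    (false,[([(0,1,[(5,5)]),(0,1,[(4,5)]),(0,3,[(3,3)])],[3])],[3,3,3,2,1],true,3,3,[]),
    (false,[([(0,1,[(5,5)]),(0,1,[(4,5)]),(0,1,[(4,5)])],[])],[4,3,3,2,1],false,4,1,[5]),
    (false,[([(0,8,[(5,5),(4,5)])],[]),([(0,1,[(4,5)]),(0,1,[(5,5)])],[3,1,1])],[3],false,1,0,[]),
    (true,[([(0,7,[(6,7)])],[1,1])],[8,7,2,1,1],false,3,4,[5,7]),
    (false,[([(0,7,[(6,7)]),(0,1,[(4,5)])],[3,1])],[4,3,3,2],false,2,6,[3,4,5]),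
    (false,[([(0,7,[(6,7)]),(0,14,[(4,5),(3,3)])],[4])],[3,3,2,1],true,3,2,[]),
    (true,[([(0,18,[(6,7),(4,5)]),(0,4,[(4,4)])],[2])],[7,1,1,1],false,2,3,[4]),
    (false,[([(0,7,[(6,7)]),(0,14,[(4,4),(3,4)])],[4]),([(0,0,[(4,5)])],[])],[3],false,1,0,[2]),
    (false,[([(0,13,[(6,7),(4,4)])],[]),([(0,1,[(4,5)]),(0,0,[(3,4),(2,2)])],[1,1,1])],[3],false,1,0,[]),
    (false,[([(0,7,[(6,7)]),(0,8,[(4,5),(5,5)])],[1])],[3,3,3,1],true,2,2,[3]),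
    (true,[([(0,24,[(6,7),(5,5)])],[1]),([(0,0,[(4,5)]),(0,3,[(3,3)])],[2,2,2])],[],false,1,0,[]),
    (false,[([(0,7,[(6,7)]),(0,7,[(6,7)])],[4])],[4,3,2,1],false,4,1,[5]),
    (false,[([(0,18,[(6,7),(5,5)]),(0,7,[(6,7)])],[])],[3,3,3],false,1,0,[]),
    (true,[([(0,25,[(8,9)])],[1,1])],[8,6,2,1],true,4,2,[6,8]),
    (false,[([(0,10,[(8,9),(5,6)])],[1,1,1,1])],[3,3,3],false,1,0,[3,4]),
    (false,[([(0,25,[(8,9)]),(0,3,[(2,3)])],[5,5]),([(0,0,[(5,6)])],[])],[],false,1,0,[2,3]),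
    (true,[([(0,25,[(8,9)]),(0,3,[(2,3)])],[]),([(0,14,[(5,6),(2,2)])],[2,2,2,2])],[],false,1,0,[2]),
    (true,[([(0,25,[(8,9)])],[1,1]),([(0,8,[(5,6),(2,2),(2,2)]),(0,3,[(2,3)])],[2,2])],[],false,1,0,[]),
    (true,[([(0,24,[(8,9),(3,3)])],[1]),([(0,0,[(5,6)]),(0,3,[(2,3)])],[2,2,2])],[],false,1,0,[]),
    (false,[([(0,10,[(8,9),(5,6)])],[1,1,1,1]),([(0,4,[(4,4)])],[2])],[3],false,1,0,[]),
    (true,[([(0,25,[(8,9)])],[1,1]),([(0,14,[(7,8)])],[3,2,2,2])],[],false,1,0,[2]),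
    (true,[([(0,13,[(8,9),(2,2)]),(0,2,[(7,8)])],[3])],[2,1,1,1,1],false,1,0,[]),
    (true,[([(0,24,[(10,12)])],[1])],[8,6,1],true,3,2,[4,6]),
    (true,[([(0,18,[(10,12)]),(0,4,[(4,4)])],[2])],[7,1,1,1],false,2,2,[3]),
    (false,[([(0,10,[(10,12),(3,3)])],[1,1,1,1]),([(0,4,[(4,4)])],[2])],[3],false,1,0,[]),
    (true,[([(0,24,[(10,12)])],[]),([(0,0,[(5,6)])],[2,2,2,2,2])],[],false,1,0,[2]),
    (true,[([(0,24,[(10,12)])],[1]),([(0,0,[(5,6)]),(0,3,[(2,2)])],[2,2,2])],[],false,1,0,[]),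
    (true,[([(0,26,[(13,14)])],[])],[8,6],false,2,2,[3]),
    (true,[([(0,26,[(13,14)])],[]),([(0,3,[(3,3)])],[2,2,2,2,2,1])],[],false,1,0,[]),
    (false,[([(0,10,[(15,15)])],[1,1,1,1])],[3,3,3],false,1,0,[])]),
  ([9,5,4,3,3,2,2], [
    (false,[],[9,5,4,3,3,2,2],false,5,4,[8,12,15]),
    (true,[([(0,14,[(6,8)])],[1])],[7,7,3,1,1],true,3,5,[6,8]),
    (false,[([(0,14,[(6,8)]),(0,0,[(4,6)])],[4,1])],[4,3,2],false,1,0,[2,3,4,6]),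
    (true,[([(0,8,[(6,8),(2,2)]),(0,0,[(4,6)])],[])],[7,2,1,1,1],false,2,5,[]),
    (false,[([(0,14,[(6,8)]),(0,0,[(4,6)])],[4,1]),([(0,3,[(3,3)])],[2])],[4],false,1,0,[2,3]),
    (true,[([(0,8,[(6,8),(2,2)]),(0,0,[(4,6)])],[]),([(0,3,[(3,3)])],[])],[7,1,1],true,2,3,[]),
    (false,[([(0,14,[(6,8)]),(0,0,[(4,6)])],[4,1]),([(0,0,[(3,3),(3,3)])],[3])],[],false,1,0,[2,3]),
    (true,[([(0,8,[(6,8),(2,2)]),(0,0,[(4,6)])],[]),([(0,0,[(3,3),(3,3)])],[1,1,1,1])],[1,1],false,1,0,[2]),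
    (false,[([(0,14,[(6,8)]),(1,1,[(3,3),(3,3),(2,2),(2,2)])],[1]),([(0,0,[(4,6)])],[3])],[],false,1,0,[]),
    (false,[([(0,14,[(6,8)]),(1,1,[(3,3),(3,3),(3,3)])],[1]),([(0,0,[(4,6)])],[3])],[],false,1,0,[]),
    (false,[([(0,14,[(6,8)]),(0,8,[(4,6),(4,4)])],[1])],[4,3,2],false,3,2,[4]),
    (true,[([(0,18,[(6,8),(4,4)]),(0,4,[(4,4)])],[]),([(0,0,[(4,6)])],[2,1,1,1])],[1],false,1,0,[]),
    (false,[([(0,14,[(6,8)]),(0,0,[(4,6)])],[4,1]),([(0,0,[(5,6)])],[3])],[],false,1,0,[2,3]),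
    (true,[([(0,8,[(6,8),(2,2)]),(0,0,[(4,6)])],[]),([(0,0,[(5,6)])],[1,1,1,1])],[1,1],false,1,0,[2]),
    (true,[([(0,8,[(6,8),(2,2)]),(0,0,[(4,6)])],[]),([(0,14,[(5,6),(2,2)])],[1,1,1])],[1],false,1,0,[]),
    (false,[([(0,14,[(6,8)]),(0,8,[(5,6),(3,3)])],[1]),([(0,0,[(4,6)])],[3])],[],false,1,0,[]),
    (false,[([(0,14,[(6,8)]),(0,14,[(7,8)])],[3])],[4,3,2],false,3,2,[4]),
    (true,[([(0,18,[(6,8),(4,4)])],[1,1]),([(0,14,[(7,8)])],[2,2,2])],[],false,1,0,[]),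
    (true,[([(0,18,[(9,12)])],[2,2])],[7,3,1,1],true,3,4,[4,6,7]),
    (true,[([(0,18,[(9,12)]),(0,4,[(4,4)])],[])],[7,3,1,1],false,3,2,[4]),
    (true,[([(0,18,[(9,12)])],[1,1]),([(0,14,[(4,4),(4,4)])],[2,2,2])],[],false,1,0,[]),
    (true,[([(0,18,[(9,12)])],[1,1]),([(0,0,[(5,6)])],[2,2,2,1])],[1],false,1,0,[3]),
    (true,[([(0,18,[(9,12)])],[1,1]),([(0,0,[(5,6)]),(0,3,[(2,3)])],[2,2])],[1],false,1,0,[2]),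
    (true,[([(0,18,[(9,12)])],[2,2]),([(0,14,[(5,6),(2,2)]),(0,3,[(2,3)])],[1])],[],false,1,0,[]),
    (true,[([(0,18,[(9,12)])],[2,2]),([(0,7,[(7,7)])],[2,2,1])],[],false,1,0,[]),
    (false,[([(0,10,[(13,15)])],[5,1,1,1])],[3,2],false,2,2,[3]),
    (true,[([(0,10,[(13,15)]),(0,3,[(3,3)])],[])],[7,1,1,1],false,1,0,[])]),
  ([9,5,4,4,3,1,1,1], [
    (false,[],[9,5,4,4,3,1,1,1],false,5,3,[8,12,15]),
    (false,[([(0,14,[(6,8)])],[2])],[9,4,4,1],true,3,4,[5,7,8]),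
    (true,[([(0,14,[(6,8)]),(0,0,[(4,5)])],[2])],[5,4,1,1,1],false,3,3,[4,5]),
    (false,[([(0,18,[(6,8),(4,4)]),(0,1,[(4,5)])],[1])],[5,4,1],false,3,1,[4]),
    (false,[([(0,18,[(6,8),(4,4)]),(0,1,[(4,5)])],[1]),([(0,4,[(4,4)])],[2,2,1])],[1],false,1,0,[]),
    (true,[([(0,14,[(6,8)]),(0,1,[(4,5)])],[2]),([(0,1,[(5,5)])],[1,1])],[5,1],true,2,2,[3]),
    (false,[([(0,14,[(6,8)]),(0,3,[(3,3)])],[2,1,1]),([(0,8,[(4,5),(5,5)])],[3])],[],false,1,0,[]),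
    (true,[([(0,10,[(6,8),(6,7)])],[3,1,1])],[5,1,1,1],true,2,4,[3,5]),
    (false,[([(0,10,[(6,8),(6,7)])],[4,1,1,1]),([(0,3,[(3,3)])],[1,1])],[1],false,1,0,[3]),
    (false,[([(0,14,[(6,8)]),(0,3,[(2,3)])],[2,1,1]),([(0,8,[(6,7),(3,3)])],[3])],[],false,1,0,[2]),
    (true,[([(0,10,[(6,8),(6,7)]),(0,1,[(3,3),(2,2)])],[]),([(0,3,[(2,3)])],[1,1,1])],[1,1],false,1,0,[]),
    (true,[([(0,10,[(6,8),(6,7)]),(0,1,[(4,5)])],[])],[5,1,1,1],false,2,1,[]),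
    (false,[([(0,19,[(6,8),(8,8)])],[4,1,1])],[4,1],true,2,2,[3]),
    (false,[([(0,27,[(6,8),(8,8),(3,3)])],[4,1])],[4],false,1,0,[]),
    (false,[([(0,18,[(9,12)])],[3,1,1,1])],[5,4,1],false,1,0,[3,6,7]),
    (true,[([(0,18,[(9,12)]),(0,3,[(2,3)])],[2])],[5,4,1,1],false,3,2,[]),
    (false,[([(0,18,[(9,12)]),(0,0,[(4,6)])],[1])],[4,4,1],true,2,3,[3,4]),
    (false,[([(0,18,[(9,12)]),(0,0,[(4,6)])],[1]),([(0,3,[(3,3)])],[1,1])],[4],false,1,0,[2]),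
    (false,[([(0,18,[(9,12)]),(0,1,[(3,3),(2,2)])],[1]),([(0,0,[(4,6)])],[2,2])],[],false,1,0,[]),
    (false,[([(0,18,[(9,12)]),(0,0,[(4,6)])],[1]),([(0,4,[(4,4)])],[2,2])],[1],false,1,0,[]),
    (false,[([(0,27,[(9,12),(7,7)])],[4,1])],[4],false,1,0,[]),
    (true,[([(0,21,[(13,15)])],[3,2])],[5,2,1],false,3,1,[])]),
  ([9,5,5,3,2,1,1,1,1], [
    (false,[],[9,5,5,3,2,1,1,1,1],true,5,4,[8,12,15]),
    (false,[([(0,14,[(6,8)])],[1])],[9,5,3,1,1],true,4,4,[6,8]),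
    (false,[([(0,14,[(6,8)]),(0,0,[(5,6)])],[2,1])],[5,3,1,1,1],false,3,3,[6]),
    (false,[([(0,14,[(6,8)]),(0,0,[(5,6)])],[2,1]),([(0,0,[(4,6)])],[2,1])],[1,1],false,1,0,[3]),
    (false,[([(0,14,[(6,8)]),(0,0,[(5,6)]),(0,3,[(2,3)])],[]),([(0,0,[(4,6)])],[2,1])],[1,1],false,1,0,[2]),
    (false,[([(0,14,[(6,8)]),(0,0,[(4,6)]),(0,3,[(2,3)])],[]),([(0,14,[(5,6),(2,2)])],[2])],[1],false,1,0,[]),
    (false,[([(0,14,[(6,8)]),(0,2,[(7,8)])],[1,1])],[5,2,1,1,1],false,3,2,[4]),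
    (false,[([(0,18,[(6,8),(4,4)]),(0,14,[(7,8)])],[])],[5,1,1,1],false,1,0,[]),
    (false,[([(0,18,[(9,12)])],[])],[9,5,1,1],true,3,4,[6,7]),
    (false,[([(0,18,[(9,12)]),(0,0,[(4,6)])],[1])],[5,2,1,1],false,3,2,[4]),
    (false,[([(0,18,[(9,12)]),(0,0,[(4,6)])],[1]),([(0,4,[(4,4)])],[1,1,1])],[1,1],false,1,0,[]),
    (false,[([(0,27,[(9,12),(7,7)])],[2,1])],[5,1],false,1,0,[]),
    (false,[([(0,21,[(13,15)])],[2,2,1])],[5,2,1],false,3,1,[])]),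
  ([9,5,5,3,3,2,1], [
    (false,[],[9,5,5,3,3,2,1],true,5,4,[8,11,15]),
    (true,[([(0,14,[(6,8)])],[2])],[7,6,3,1,1],false,3,5,[6,8]),
    (false,[([(0,14,[(6,8)]),(0,0,[(4,6)])],[2,1])],[5,3,3],false,1,0,[3,5,6]),
    (false,[([(0,14,[(6,8)]),(0,0,[(4,6)]),(0,3,[(2,3)])],[])],[5,3,3],false,2,5,[3]),
    (false,[([(0,14,[(6,8)]),(0,0,[(4,6)])],[3,1]),([(0,0,[(2,3),(3,3)])],[3,1])],[],false,1,0,[3]),
    (false,[([(0,14,[(6,8)]),(1,1,[(2,3),(3,3),(2,3)])],[1]),([(0,0,[(4,6)])],[2,1])],[],false,1,0,[2,3]),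
    (false,[([(0,14,[(6,8)]),(1,1,[(2,3),(3,3),(2,3)])],[1]),([(0,0,[(4,6)]),(0,3,[(2,2)])],[])],[],false,1,0,[2]),
    (false,[([(0,14,[(6,8)]),(1,1,[(2,3),(3,3),(2,2),(2,2)])],[1]),([(0,0,[(4,6)]),(0,3,[(2,3)])],[])],[],false,1,0,[]),
    (false,[([(0,14,[(6,8)]),(1,1,[(2,3),(3,3),(2,3)])],[1]),([(0,0,[(4,6)]),(0,3,[(3,3)])],[])],[],false,1,0,[]),
    (false,[([(0,14,[(6,8)]),(0,0,[(4,6)])],[2,1]),([(0,1,[(4,5)])],[3,3])],[],false,1,0,[3,4]),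
    (false,[([(0,14,[(6,8)]),(0,0,[(4,6)]),(0,3,[(2,3)])],[]),([(0,1,[(4,5)])],[3,3])],[],false,1,0,[2,3]),
    (true,[([(0,8,[(6,8),(2,2)]),(0,0,[(4,6)])],[]),([(0,1,[(4,5)]),(0,3,[(2,3)])],[2])],[1,1],false,1,0,[2]),
    (false,[([(0,8,[(6,8),(2,2)])],[1]),([(0,0,[(4,6)]),(0,1,[(4,5)]),(1,0,[(2,3),(2,2)])],[])],[],false,1,0,[]),
    (false,[([(0,14,[(6,8)]),(0,14,[(4,5),(3,3)])],[3]),([(0,0,[(4,6)]),(0,3,[(2,3)])],[])],[],false,1,0,[]),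
    (false,[([(0,14,[(6,8)]),(0,8,[(4,6),(4,4)])],[1]),([(0,1,[(4,5)])],[2,2])],[],false,1,0,[]),
    (false,[([(0,14,[(6,8)]),(0,18,[(4,6),(6,6)])],[])],[5,3],false,2,1,[]),
    (false,[([(0,14,[(6,8)]),(0,14,[(7,8)])],[3])],[5,3,1],false,3,1,[4]),
    (false,[([(0,18,[(6,8),(4,4)]),(0,14,[(7,8)])],[])],[5,3],false,1,0,[]),
    (false,[([(0,13,[(9,11)])],[1])],[9,5,2],true,3,4,[6,7]),
    (false,[([(0,13,[(9,11)])],[1]),([(0,0,[(4,6)])],[3,2,2,1,1,1])],[],false,1,0,[3,4]),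
    (false,[([(0,13,[(9,11)]),(0,3,[(2,3)])],[2,1,1]),([(0,0,[(4,6)])],[3,1])],[],false,1,0,[3]),
    (false,[([(0,13,[(9,11)]),(0,3,[(2,3)]),(0,3,[(2,3)])],[1]),([(0,0,[(4,6)])],[3,1])],[],false,1,0,[2]),
    (false,[([(0,13,[(9,11)])],[1]),([(0,0,[(4,6)]),(1,0,[(2,3),(2,2)]),(0,3,[(2,3)])],[1])],[],false,1,0,[]),
    (false,[([(0,13,[(9,11)]),(0,4,[(4,4)])],[1,1,1]),([(0,0,[(4,6)])],[3,1])],[],false,1,0,[]),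
    (false,[([(0,13,[(9,11)]),(0,7,[(7,7)])],[3])],[3,3,1],false,1,0,[]),
    (false,[([(0,10,[(12,15)])],[2,1,1,1])],[5,3],false,2,3,[3,4]),
    (false,[([(0,10,[(12,15)]),(0,3,[(3,3)])],[1,1])],[5,3],false,2,1,[]),
    (false,[([(0,10,[(12,15)])],[2,1,1,1]),([(0,4,[(4,4)])],[2,1,1])],[],false,1,0,[])]),
  ([9,6,4,4,3,2], [
    (false,[],[9,6,4,4,3,2],true,5,3,[8,12,15]),
    (true,[([(0,14,[(6,8)])],[1])],[6,6,4,2,1],true,4,4,[6,8]),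
    (true,[([(0,14,[(6,8)])],[]),([(0,0,[(5,6)])],[1,1,1])],[6,5],false,2,5,[4,6]),
    (false,[([(0,14,[(6,8)]),(0,8,[(5,6),(3,4)])],[3])],[4,3],false,2,3,[3,4]),
    (false,[([(0,14,[(6,8)]),(0,8,[(5,6),(3,4)])],[3]),([(0,3,[(3,3)])],[2,2])],[],false,1,0,[2]),
    (false,[([(0,8,[(6,8),(2,2)]),(0,8,[(5,6),(3,4)])],[1]),([(0,3,[(3,3)])],[2,2])],[],false,1,0,[]),
    (true,[([(0,18,[(6,8),(4,4)])],[2]),([(0,8,[(5,6),(3,4)])],[2,2])],[],false,1,0,[]),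
    (true,[([(0,14,[(6,8)])],[1]),([(0,0,[(5,6)]),(0,0,[(5,6)])],[])],[6,1],false,2,1,[]),
    (false,[([(0,14,[(6,8)]),(0,2,[(7,8)])],[4,1])],[4,3],false,2,3,[3,4]),
    (false,[([(0,14,[(6,8)]),(0,13,[(7,8),(3,3)])],[2])],[4,3],false,2,1,[]),
    (true,[([(0,18,[(6,8),(4,4)])],[2]),([(0,2,[(7,8)])],[2,2,1])],[1],false,1,0,[]),
    (true,[([(0,18,[(9,12)])],[2])],[6,5,2,1],false,3,3,[4,5,6,7]),
    (true,[([(0,18,[(9,12)])],[2]),([(0,4,[(4,4)])],[1,1,1])],[6,1],false,1,0,[4]),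
    (true,[([(0,18,[(9,12)])],[2]),([(0,4,[(4,4)]),(1,1,[(2,4)])],[])],[],false,1,0,[3]),
    (true,[([(0,18,[(9,12)])],[2]),([(0,4,[(4,4)]),(1,1,[(2,4),(2,3)])],[])],[],false,1,0,[2]),
    (true,[([(0,18,[(9,12)])],[2]),([(0,4,[(4,4)]),(1,1,[(2,4),(2,3),(2,2)])],[])],[],false,1,0,[]),
    (true,[([(0,18,[(9,12)])],[2]),([(0,1,[(5,5)])],[2,1])],[6],false,1,0,[3]),
    (true,[([(0,18,[(9,12)])],[2]),([(0,1,[(5,5)]),(0,3,[(2,3)])],[])],[6],false,1,0,[2]),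
    (true,[([(0,18,[(9,12)])],[2]),([(0,8,[(5,5),(2,3),(2,2)])],[2,2])],[],false,1,0,[]),
    (true,[([(0,18,[(9,12)])],[2]),([(0,0,[(6,6)])],[1,1])],[6],false,1,0,[2]),
    (true,[([(0,18,[(9,12)])],[2]),([(0,2,[(6,6),(2,2)])],[2,2,1])],[1],false,1,0,[]),
    (true,[([(0,18,[(9,12)])],[2]),([(0,2,[(7,7)])],[2,2,1])],[1],false,1,0,[]),
    (true,[([(0,10,[(13,15)])],[3])],[6,2,1,1],false,3,2,[])]),
  ([9,6,5,5,2,1], [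
    (false,[],[9,6,5,5,2,1],true,4,5,[6,8,11,15]),
    (false,[([(0,0,[(5,6)])],[1,1])],[9,6,5],false,3,5,[6]),
    (true,[([(0,0,[(5,6)]),(0,0,[(4,6)])],[])],[5,4,4,1,1,1],false,3,3,[4,6]),
    (true,[([(0,0,[(5,6)]),(0,4,[(4,4)])],[]),([(0,0,[(4,6)])],[1])],[6,4,1],true,3,2,[4]),
    (true,[([(0,8,[(5,6),(4,4)])],[2]),([(0,0,[(4,6)]),(0,4,[(4,4)])],[1])],[4,1],false,2,1,[]),
    (true,[([(0,0,[(5,6)]),(0,0,[(4,6)])],[]),([(0,0,[(5,6)])],[2,2])],[4,1,1],true,2,3,[3,4]),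
    (false,[([(0,0,[(5,6)]),(0,0,[(4,6)]),(0,3,[(3,3)])],[1]),([(0,0,[(5,6)])],[2,2,2])],[],false,1,0,[2]),
    (true,[([(0,0,[(5,6)]),(0,0,[(4,6)])],[]),([(0,0,[(5,6)])],[2,2]),([(0,1,[(3,3),(2,2)])],[1])],[],false,1,0,[]),
    (true,[([(0,18,[(5,6),(5,6)])],[2]),([(0,0,[(4,6)]),(0,4,[(4,4)])],[])],[4],false,1,0,[]),
    (true,[([(0,2,[(7,8)])],[2])],[6,5,4,1,1,1],false,4,3,[6,8]),
    (true,[([(0,10,[(7,8),(5,6)])],[3])],[4,4,1,1],true,2,4,[3,5]),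
    (true,[([(0,10,[(7,8),(5,6)])],[3]),([(0,3,[(3,3)])],[1,1])],[4,1],true,2,2,[3]),
    (true,[([(0,10,[(7,8),(5,6)])],[3]),([(0,3,[(3,3)])],[1,1]),([(0,3,[(3,3)])],[1,1])],[],false,1,0,[]),
    (false,[([(0,10,[(7,8),(5,6)]),(0,1,[(4,5)])],[3])],[5],false,1,0,[2]),
    (true,[([(0,2,[(7,8)]),(0,3,[(2,2)])],[]),([(0,0,[(5,6)])],[2,2,1]),([(0,1,[(4,5)])],[1])],[],false,1,0,[]),
    (true,[([(0,14,[(7,8)])],[]),([(0,2,[(7,8)])],[3,3,1])],[4,1],true,2,2,[3]),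
    (false,[([(0,13,[(7,8),(3,3)]),(0,14,[(7,8)])],[3])],[5,1],false,1,0,[]),
    (true,[([(0,13,[(9,11)])],[3])],[6,4,2,1,1],false,4,2,[6,7]),
    (false,[([(0,13,[(9,11)]),(0,0,[(5,6)])],[3,1])],[5,2],false,2,2,[3]),
    (false,[([(0,13,[(9,11)]),(0,8,[(5,6),(3,3)])],[1])],[5,1],false,1,0,[]),
    (false,[([(0,13,[(9,11)]),(0,7,[(7,7)])],[3])],[6,1],false,1,0,[]),
    (true,[([(0,10,[(12,15)])],[3])],[4,4,1,1],true,2,3,[3,4]),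
    (true,[([(0,10,[(12,15)])],[3]),([(0,3,[(3,3)])],[1,1])],[4,1],false,2,1,[]),
    (true,[([(0,10,[(12,15)])],[3]),([(0,4,[(4,4)])],[2,2])],[1,1],false,1,0,[])]),
  ([9,7,6,2,1,1,1,1], [
    (false,[],[9,7,6,2,1,1,1,1],false,4,6,[6,10,13,15]),
    (true,[([(0,0,[(5,6)])],[2])],[8,3,3,3,2,1],true,4,4,[6]),
    (true,[([(0,0,[(5,6)]),(0,0,[(5,6)])],[1,1])],[3,3,3,3,1,1],true,2,6,[3,5,6]),
    (true,[([(0,10,[(5,6),(5,6),(3,3)])],[1,1,1])],[3,3,3,1],true,2,4,[3]),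
    (true,[([(0,10,[(5,6),(5,6),(3,3)])],[1,1,1]),([(0,3,[(3,3)])],[1])],[3,3],false,1,0,[2,3]),
    (true,[([(0,18,[(5,6),(5,6)]),(0,1,[(3,3),(2,2)])],[]),([(0,3,[(3,3)])],[2])],[3,3],false,1,0,[2]),
    (true,[([(0,0,[(5,6)])],[]),([(0,0,[(5,6)])],[2]),([(0,1,[(3,3),(2,2)]),(0,1,[(3,3),(2,2)])],[3,1])],[],false,1,0,[]),
    (true,[([(0,0,[(5,6)])],[]),([(0,0,[(5,6)])],[2]),([(0,3,[(3,3)]),(0,3,[(3,3)]),(0,3,[(3,3)])],[1,1])],[3],false,1,0,[]),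
    (true,[([(0,18,[(5,6),(5,6)]),(0,1,[(4,5)])],[])],[3,3,3,2],true,2,3,[3,4]),
    (true,[([(0,18,[(5,6),(5,6)]),(0,1,[(4,5)])],[]),([(0,3,[(3,3)])],[2])],[3,3],false,1,0,[2]),
    (true,[([(0,0,[(5,6)])],[]),([(0,0,[(5,6)])],[2]),([(0,1,[(4,5)]),(0,1,[(3,3),(2,2)])],[3,1])],[],false,1,0,[]),
    (true,[([(0,18,[(5,6),(5,6)]),(0,1,[(4,5)])],[]),([(0,4,[(4,4)])],[1])],[3,3],false,1,0,[]),
    (true,[([(0,24,[(5,6),(6,6)])],[5,5]),([(0,0,[(5,6)])],[])],[],false,1,0,[2]),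
    (true,[([(0,18,[(5,6),(5,6)])],[3,1,1]),([(0,2,[(6,6),(2,2)])],[])],[3],false,1,0,[]),
    (true,[([(0,8,[(7,10)])],[])],[8,3,3,3,1],true,3,5,[5,7,9]),
    (true,[([(0,8,[(7,10)]),(0,1,[(4,5)])],[1])],[3,3,3,2,1],true,3,3,[5]),
    (true,[([(0,8,[(7,10)])],[]),([(0,1,[(4,5)]),(0,1,[(4,5)])],[3,1])],[3,1],true,2,2,[3]),
    (true,[([(0,8,[(7,10)])],[]),([(0,1,[(4,5)]),(0,1,[(4,5)])],[3,1]),([(0,3,[(3,3)])],[1])],[],false,1,0,[]),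
    (true,[([(0,8,[(7,10)]),(0,7,[(6,7)])],[])],[3,3,3,1,1],true,2,3,[3,4]),
    (true,[([(0,8,[(7,10)]),(0,7,[(6,7)])],[]),([(0,3,[(3,3)])],[1])],[3,3,1],false,2,1,[]),
    (false,[([(0,8,[(7,10)]),(0,13,[(6,7),(4,4)])],[3])],[1,1,1,1],false,1,0,[]),
    (true,[([(0,8,[(7,10)])],[]),([(0,25,[(8,9)])],[4,4,1])],[],false,1,0,[2]),
    (false,[([(0,8,[(7,10)]),(0,13,[(8,9),(2,2)])],[3])],[1,1,1,1],false,1,0,[]),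
    (true,[([(0,22,[(11,13)])],[1,1,1])],[4,3,3,2],false,3,2,[4,5]),
    (true,[([(0,22,[(11,13)])],[1,1,1]),([(0,4,[(4,4)])],[1])],[4,3],false,2,1,[]),
    (true,[([(0,22,[(11,13)])],[1,1,1]),([(0,0,[(5,5)])],[3])],[3],false,1,0,[]),
    (true,[([(0,10,[(14,15)])],[1,1,1])],[3,3,3,1],false,2,1,[])])]

theorem cj5d_5_ok : runAllJ S38 R38 F38 14 cj5d_5 = true := by decide +kernel

noncomputable def cj5d_6 : List (List ℕ × List NdJ) := [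
  ([9,7,6,3,1,1,1], [
    (false,[],[9,7,6,3,1,1,1],false,5,3,[8,12,15]),
    (true,[([(0,14,[(6,8)])],[])],[7,4,3,3,3],false,3,4,[5,7,8]),
    (true,[([(0,14,[(6,8)]),(0,1,[(4,5)])],[])],[4,4,3,3,1],false,2,6,[3,5]),
    (true,[([(0,14,[(6,8)]),(0,1,[(4,5)])],[]),([(0,3,[(3,3)])],[1,1])],[4,3,3],false,2,4,[3]),
    (true,[([(0,14,[(6,8)]),(0,1,[(4,5)])],[]),([(0,0,[(3,3),(3,3)])],[2])],[4,3],false,2,2,[3]),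
    (true,[([(0,14,[(6,8)]),(0,1,[(4,5)])],[]),([(0,0,[(3,3),(3,3)])],[2]),([(0,3,[(3,3)])],[2,2])],[],false,1,0,[]),
    (true,[([(0,14,[(6,8)]),(0,1,[(4,5)])],[]),([(0,0,[(4,5)])],[2])],[4,3],false,2,3,[3,4]),
    (true,[([(0,14,[(6,8)]),(0,1,[(4,5)])],[]),([(0,0,[(4,5)])],[2]),([(0,3,[(3,3)])],[2,2])],[],false,1,0,[2]),
    (true,[([(0,8,[(6,8),(2,2)]),(0,1,[(4,5)])],[]),([(0,0,[(4,5)])],[]),([(0,3,[(3,3)])],[2,2])],[],false,1,0,[]),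
    (true,[([(0,14,[(6,8)]),(0,1,[(4,5)])],[]),([(0,0,[(4,5)])],[2]),([(0,4,[(4,4)])],[2,1])],[],false,1,0,[]),
    (true,[([(0,10,[(6,8),(6,7)])],[1,1])],[4,3,3,1],false,2,4,[3,4,5]),
    (true,[([(0,10,[(6,8),(6,7)])],[1,1]),([(0,3,[(3,3)])],[1])],[4,3],false,2,2,[3]),
    (true,[([(0,10,[(6,8),(6,7)])],[1,1]),([(0,0,[(3,3),(3,3)])],[2])],[3],false,1,0,[]),
    (true,[([(0,10,[(6,8),(6,7)])],[1,1]),([(0,4,[(4,4)])],[2])],[4,1],false,2,1,[]),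
    (true,[([(0,10,[(6,8),(6,7)])],[1,1]),([(0,0,[(5,5)])],[2])],[3],false,1,0,[]),
    (true,[([(0,19,[(6,8),(8,8)])],[1])],[4,3,3],false,2,2,[3]),
    (true,[([(0,19,[(6,8),(8,8)])],[1]),([(0,3,[(3,3)])],[2,2])],[3],false,1,0,[]),
    (true,[([(0,18,[(9,12)])],[1,1])],[4,4,3,3],false,2,6,[3,4,6,7]),
    (true,[([(0,10,[(9,12),(3,3)])],[1,1])],[4,3,3,1],false,2,4,[3]),
    (true,[([(0,10,[(9,12),(3,3)])],[1,1]),([(0,3,[(3,3)])],[1])],[4,3],false,2,2,[3]),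
    (true,[([(0,10,[(9,12),(3,3)])],[1,1]),([(0,0,[(3,3),(3,3)])],[2])],[3],false,1,0,[]),
    (true,[([(0,18,[(9,12)])],[1,1]),([(0,4,[(4,4)])],[2,1])],[4,3],false,2,3,[3,4]),
    (true,[([(0,10,[(9,12),(3,3)])],[1,1]),([(0,4,[(4,4)])],[2])],[4,1],false,2,1,[]),
    (true,[([(0,18,[(9,12)])],[1,1]),([(0,4,[(4,4)]),(0,4,[(4,4)])],[])],[3,3],false,1,0,[]),
    (false,[([(0,18,[(9,12)]),(0,0,[(5,6)])],[2])],[7,1],true,2,2,[3]),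
    (true,[([(0,10,[(9,12),(3,3)])],[1,1]),([(0,0,[(5,6)])],[2])],[3],false,1,0,[]),
    (true,[([(0,18,[(9,12)])],[1,1]),([(0,2,[(7,7)])],[3])],[3],false,1,0,[]),
    (true,[([(0,10,[(13,15)])],[1,1])],[4,3,3,1],false,3,1,[])]),
  ([9,7,6,5,1], [
    (false,[],[9,7,6,5,1],false,4,6,[5,6,8,11,14,15]),
    (true,[([(0,1,[(5,5)])],[1])],[5,4,4,4,3,2],false,3,5,[4,5]),
    (true,[([(0,1,[(5,5)])],[1]),([(0,4,[(4,4)])],[2,2])],[5,4,3,2],false,4,2,[]),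
    (true,[([(0,8,[(5,5),(5,5)])],[2])],[4,4,4,3,1],true,3,3,[4,5]),
    (true,[([(0,8,[(5,5),(5,5)])],[]),([(0,4,[(4,4)])],[2,2])],[5,4,1],false,3,1,[4]),
    (true,[([(0,10,[(5,5),(5,5),(4,4)])],[]),([(0,4,[(4,4)])],[2,2])],[4,1],false,1,0,[]),
    (true,[([(0,10,[(5,5),(5,5),(5,5)])],[])],[4,4,4,1],true,2,2,[3]),
    (true,[([(2,15,[(5,5),(5,5),(5,5),(3,3)])],[])],[4,4,1],false,1,0,[]),
    (true,[([(0,0,[(6,6)])],[2,2])],[4,4,4,3,2,1],true,4,3,[5,6]),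
    (true,[([(0,13,[(6,6),(5,5)])],[3])],[4,4,3,2,1],false,4,1,[5]),
    (true,[([(2,14,[(6,6),(5,5),(5,5)])],[])],[4,4,1],false,2,1,[]),
    (true,[([(0,10,[(6,6),(6,6)])],[])],[4,4,4,1],true,2,4,[3,5]),
    (true,[([(0,10,[(6,6),(6,6),(3,3)])],[])],[4,4,4,1],true,2,2,[3]),
    (true,[([(2,18,[(6,6),(6,6),(3,3),(3,3)])],[])],[4,4,1],false,1,0,[]),
    (true,[([(0,13,[(6,6),(4,5)])],[3]),([(0,0,[(6,6)])],[1])],[4,3],false,2,1,[]),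
    (true,[([(0,2,[(7,8)])],[2])],[5,4,4,3,1,1],false,4,2,[6,8]),
    (true,[([(0,10,[(7,8),(5,6)])],[])],[4,4,4,1],true,2,4,[4,5]),
    (true,[([(0,2,[(7,8)])],[2]),([(0,8,[(5,6),(3,4)])],[3])],[4,1],true,2,2,[3]),
    (true,[([(0,13,[(7,8),(3,3)])],[3]),([(0,8,[(5,6),(3,4)])],[])],[4],false,1,0,[]),
    (true,[([(0,2,[(7,8)])],[2]),([(0,0,[(5,6)])],[3,3]),([(0,1,[(5,5)])],[1])],[],false,1,0,[]),
    (true,[([(0,14,[(7,8)])],[]),([(0,2,[(7,8)])],[3])],[5,4],false,2,2,[3]),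
    (false,[([(0,13,[(7,8),(3,3)]),(0,2,[(7,8)])],[])],[9],false,1,0,[]),
    (true,[([(0,13,[(9,11)])],[3])],[4,4,3,2,1],true,4,2,[6,7]),
    (true,[([(0,13,[(9,11)])],[3]),([(0,0,[(5,6)])],[1])],[4,3],false,2,2,[3]),
    (true,[([(0,13,[(9,11)])],[3]),([(0,8,[(5,6),(3,3)])],[])],[4],false,1,0,[]),
    (false,[([(0,13,[(9,11)]),(0,2,[(7,7)])],[])],[9],false,1,0,[]),
    (true,[([(0,10,[(12,14)])],[])],[4,4,4,1],true,2,3,[3,4]),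
    (true,[([(0,15,[(12,14),(3,3)])],[])],[4,4,2,1],false,2,1,[]),
    (true,[([(0,10,[(12,14)])],[]),([(0,4,[(4,4)])],[2,2])],[4,1],false,1,0,[]),
    (false,[([(0,10,[(15,15)])],[4,4,4,1])],[],false,1,0,[])]),
  ([9,8,3,2,2,2,2,1], [
    (false,[],[9,8,3,2,2,2,2,1],false,4,4,[6,8,10,13,15]),
    (false,[([(0,0,[(5,6)])],[])],[9,8,2,2,2],false,3,6,[5,6]),
    (false,[([(0,0,[(5,6)]),(0,1,[(4,5)])],[1,1])],[9,2,2,2,1],true,3,4,[5]),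
    (false,[([(0,0,[(5,6)])],[]),([(0,1,[(4,5)]),(0,1,[(4,5)])],[1,1])],[9,2],true,2,4,[3,5]),
    (false,[([(0,8,[(5,6),(3,3)])],[1,1,1,1]),([(0,1,[(4,5)]),(0,1,[(4,5)])],[1,1,1])],[2],false,1,0,[3]),
    (false,[([(0,0,[(5,6)])],[]),([(0,1,[(4,5)]),(0,1,[(4,5)])],[1,1]),([(0,3,[(3,3)]),(0,3,[(2,3)])],[1,1,1,1,1])],[],false,1,0,[2]),
    (false,[([(0,0,[(5,6)]),(0,1,[(4,5)])],[1,1]),([(0,1,[(4,5)]),(0,1,[(3,3),(2,2)])],[1,1,1]),([(0,3,[(2,3)])],[])],[],false,1,0,[]),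
    (false,[([(0,0,[(5,6)]),(0,1,[(4,5)])],[1,1]),([(0,1,[(4,5)]),(0,1,[(4,5)])],[1,1,1])],[2,1],false,2,1,[]),
    (true,[([(0,24,[(5,6),(6,6)])],[6])],[8,2,1],true,3,2,[5,6]),
    (true,[([(0,24,[(5,6),(6,6)])],[5]),([(0,1,[(4,5)])],[3,1,1,1,1])],[],false,1,0,[3]),
    (true,[([(0,24,[(5,6),(6,6)])],[6]),([(0,1,[(4,5)]),(0,3,[(2,3)])],[1,1,1])],[],false,1,0,[2]),
    (false,[([(0,14,[(5,6),(2,2)]),(0,7,[(6,6)])],[]),([(0,1,[(4,5)]),(0,3,[(2,3)])],[1,1,1,1])],[2],false,1,0,[]),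
    (false,[([(0,17,[(5,6),(6,6),(6,6)])],[2,2,2])],[3,2],false,1,0,[]),
    (false,[([(0,2,[(7,8)])],[1,1,1,1,1])],[9,2,2,2,1],true,3,4,[5,7,8]),
    (false,[([(0,14,[(7,8)]),(0,1,[(4,5)])],[1])],[9,2,2,2],false,2,5,[3,5]),
    (false,[([(0,14,[(7,8)]),(0,1,[(4,5)])],[1]),([(0,3,[(3,3)])],[2,1,1,1,1,1,1])],[2,2],false,1,0,[2,3]),
    (true,[([(0,2,[(7,8)])],[1,1,1,1]),([(0,1,[(4,5)]),(0,1,[(3,3),(2,2)])],[1,1])],[2,2,1],true,2,2,[]),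
    (false,[([(0,14,[(7,8)]),(0,1,[(4,5)])],[1]),([(0,3,[(3,3)]),(0,3,[(3,3)])],[1,1,1,1,1])],[2,2],false,1,0,[2]),
    (true,[([(0,14,[(7,8)])],[4,1,1]),([(0,1,[(4,5)]),(0,1,[(3,3),(2,2)])],[1,1]),([(0,3,[(3,3)])],[])],[],false,1,0,[]),
    (true,[([(0,2,[(7,8)])],[1,1,1,1]),([(0,1,[(4,5)]),(0,1,[(4,5)])],[1,1])],[2,2,1],true,2,2,[3]),
    (true,[([(0,14,[(7,8)])],[4,1,1]),([(0,1,[(4,5)]),(0,1,[(4,5)])],[1,1]),([(0,3,[(3,3)])],[])],[],false,1,0,[]),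
    (false,[([(0,14,[(7,8)]),(0,7,[(6,7)])],[])],[9,2,2,1],false,3,1,[4]),
    (false,[([(0,20,[(7,8),(6,7),(4,4)])],[2,2,2])],[2,2],false,1,0,[]),
    (false,[([(0,14,[(7,8)]),(0,25,[(8,8)])],[])],[8,2,2],false,2,1,[]),
    (true,[([(0,23,[(9,10)])],[5,1])],[8,2,2,1],true,3,3,[4,5,7]),
    (true,[([(0,26,[(9,10),(4,4)])],[6])],[7,2],true,2,3,[4]),
    (false,[([(0,16,[(9,10),(3,4)]),(0,4,[(4,4)])],[2,2])],[3,2,2],false,2,1,[]),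
    (false,[([(0,10,[(9,10),(5,5)])],[2,2,2,2])],[2,2,2],false,1,0,[3]),
    (false,[([(0,23,[(9,10)])],[5,1,1]),([(0,1,[(5,5)]),(0,3,[(2,3)])],[1,1,1,1])],[],false,1,0,[2]),
    (true,[([(0,24,[(9,10),(2,2)])],[6]),([(0,1,[(5,5)]),(0,3,[(2,3)])],[1,1,1])],[],false,1,0,[]),
    (false,[([(0,23,[(9,10)]),(0,7,[(6,7)])],[])],[8,2,2],false,2,1,[]),
    (true,[([(0,9,[(11,13)])],[2,2,2,1])],[2,2,2,2,1],true,2,4,[3,4,5]),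
    (false,[([(0,9,[(11,13)]),(0,3,[(3,3)])],[2,2,2])],[2,2,2,1],true,2,2,[3]),
    (false,[([(0,20,[(11,13),(3,3),(3,3)])],[2,2,2])],[2,2],false,1,0,[]),
    (false,[([(0,9,[(11,13)]),(0,4,[(4,4)])],[2,2,1])],[2,2,2,1],false,2,1,[]),
    (false,[([(0,17,[(11,13),(5,5)])],[2,2,2])],[3,2],false,1,0,[]),
    (false,[([(0,10,[(14,15)])],[2,2,2,2])],[2,2,2],false,1,0,[2]),
    (false,[([(0,11,[(14,15),(2,2)])],[2,2,2,1])],[2,2,1],false,1,0,[])]),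
  ([9,8,3,3,3,2,1], [
    (false,[],[9,8,3,3,3,2,1],true,4,6,[6,8,11,14,15]),
    (false,[([(0,0,[(5,6)])],[])],[9,8,3,3],false,3,6,[5,6]),
    (false,[([(0,0,[(5,6)]),(0,1,[(4,5)])],[1,1])],[9,3,3,1],true,3,4,[5]),
    (true,[([(0,0,[(5,6)])],[1,1]),([(0,1,[(4,5)]),(0,1,[(4,5)])],[])],[7,2,2],false,2,4,[4,5]),
    (false,[([(0,8,[(5,6),(3,4)])],[1,1,1,1]),([(0,1,[(4,5)]),(0,1,[(4,5)])],[3,1,1])],[],false,1,0,[3]),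
    (true,[([(0,8,[(5,6),(3,4)]),(0,3,[(2,3)])],[2]),([(0,1,[(4,5)]),(0,1,[(4,5)])],[])],[2,2],false,1,0,[2]),
    (true,[([(0,0,[(5,6)]),(0,0,[(3,4),(2,2)])],[2]),([(0,1,[(4,5)]),(0,1,[(4,5)])],[]),([(0,3,[(2,3)])],[])],[2],false,1,0,[]),
    (false,[([(0,0,[(5,6)]),(0,1,[(4,5)])],[1,1]),([(0,1,[(4,5)]),(0,1,[(5,5)])],[3,1,1])],[1],false,1,0,[]),
    (true,[([(0,0,[(5,6)]),(0,0,[(6,6)])],[2])],[6,2,2,2,2,1],true,3,4,[5,6]),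
    (true,[([(0,0,[(5,6)]),(0,0,[(6,6)])],[2]),([(0,1,[(4,5)])],[3,1,1])],[2,2,1],true,2,2,[3]),
    (true,[([(0,0,[(5,6)]),(0,0,[(4,5)])],[2]),([(0,25,[(6,6),(3,3)])],[4])],[2],false,1,0,[]),
    (false,[([(0,17,[(5,6),(6,6),(6,6)])],[4,2,2])],[3],false,1,0,[]),
    (false,[([(0,2,[(7,8)])],[])],[9,8,3,1],false,3,4,[5,7,8]),
    (false,[([(0,14,[(7,8)]),(0,1,[(4,5)])],[1])],[9,3,3],false,2,5,[3,5]),
    (false,[([(0,13,[(7,8),(3,3)])],[1,1,1,1]),([(0,1,[(4,5)])],[3,2,1,1,1,1])],[],false,1,0,[3]),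
    (true,[([(0,2,[(7,8)]),(0,3,[(3,3)]),(0,3,[(2,3)])],[]),([(0,1,[(4,5)])],[3,1,1])],[2,2,1],true,2,2,[3]),
    (true,[([(0,16,[(7,8),(3,3),(3,3)]),(0,3,[(2,3)])],[]),([(0,1,[(4,5)])],[3,1,1])],[2],false,1,0,[]),
    (true,[([(0,2,[(7,8)])],[2,2,1]),([(0,1,[(4,5)]),(0,1,[(4,5)])],[1])],[2,2,1],true,2,2,[3]),
    (false,[([(0,13,[(7,8),(3,3)])],[1,1,1,1]),([(0,1,[(4,5)]),(0,1,[(4,5)])],[2,1,1])],[],false,1,0,[]),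
    (false,[([(0,10,[(7,8),(6,7)])],[2,2,2,2])],[3,3],false,1,0,[3,4]),
    (false,[([(0,2,[(7,8)])],[]),([(0,8,[(6,7),(2,3)])],[3,2,2,2,2])],[],false,1,0,[3]),
    (true,[([(0,2,[(7,8)]),(0,3,[(2,3)]),(0,3,[(2,3)])],[]),([(0,7,[(6,7)])],[4,1])],[2,1],false,2,1,[]),
    (false,[([(0,10,[(7,8),(6,7)]),(0,4,[(4,4)])],[2,2])],[3,3],false,1,0,[]),
    (true,[([(0,14,[(7,8)])],[3,2,2]),([(0,25,[(8,8)])],[5])],[],false,1,0,[2]),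
    (false,[([(0,17,[(7,8),(8,8),(2,2)])],[4,2,2])],[3],false,1,0,[]),
    (false,[([(0,13,[(9,11)])],[1,1,1,1])],[9,3,2],true,2,6,[3,5,6,7]),
    (true,[([(0,16,[(9,11),(3,3)])],[2])],[7,2,2,2],false,2,4,[3]),
    (true,[([(0,16,[(9,11),(3,3)]),(0,3,[(3,3)])],[])],[6,2,2,2],false,2,2,[3]),
    (true,[([(0,16,[(9,11),(3,3)]),(0,3,[(3,3)])],[]),([(0,3,[(3,3)])],[2,1,1,1])],[2,2],false,1,0,[]),
    (false,[([(0,13,[(9,11)])],[1,1,1,1]),([(0,1,[(4,5)])],[3,2,1,1,1,1])],[],false,1,0,[2,3,4]),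
    (false,[([(0,13,[(9,11)])],[1,1,1,1]),([(0,1,[(4,5)]),(0,3,[(2,2)])],[3,1,1,1])],[],false,1,0,[2]),
    (false,[([(0,13,[(9,11)])],[1,1,1,1]),([(0,1,[(4,5)]),(1,0,[(2,2),(2,2)])],[1,1,1])],[],false,1,0,[2]),
    (false,[([(0,13,[(9,11)])],[1,1,1,1]),([(0,1,[(4,5)]),(1,0,[(2,2),(2,2),(2,2)])],[1,1,1])],[],false,1,0,[]),
    (true,[([(0,16,[(9,11),(3,3)])],[2]),([(0,1,[(4,5)])],[3,1,1,1])],[2],false,1,0,[2]),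
    (true,[([(0,16,[(9,11),(3,3)]),(0,3,[(2,2)])],[]),([(0,1,[(4,5)])],[3,1,1])],[2],false,1,0,[]),
    (false,[([(0,13,[(9,11)])],[1,1,1,1]),([(0,1,[(4,5)]),(0,1,[(4,4)])],[2,1,1])],[],false,1,0,[]),
    (false,[([(0,13,[(9,11)])],[1,1,1,1]),([(0,0,[(6,6)])],[3,1,1,1,1,1])],[],false,1,0,[2]),
    (true,[([(0,13,[(9,11)]),(0,2,[(6,6),(2,2)])],[])],[2,2,2,2,2],false,1,0,[]),
    (false,[([(0,17,[(9,11),(7,7)])],[4,2,2])],[3],false,1,0,[]),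
    (true,[([(0,16,[(12,14)])],[2])],[7,2,2,2],false,2,3,[3,4]),
    (true,[([(0,16,[(12,14)]),(0,3,[(3,3)])],[])],[6,2,2,2],false,2,1,[]),
    (false,[([(0,17,[(12,14),(4,4)])],[4,2,2])],[3],false,1,0,[]),
    (false,[([(0,10,[(15,15)])],[2,2,2,2])],[3,3],false,1,0,[])]),
  ([9,8,4,2,2,2,1], [
    (false,[],[9,8,4,2,2,2,1],false,4,5,[6,8,10,14,15]),
    (true,[([(0,0,[(5,6)])],[])],[7,6,3,2,2,2],false,4,3,[6]),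
    (false,[([(0,0,[(5,6)]),(0,0,[(5,6)])],[1,1])],[9,2,2,1],true,3,3,[5,6]),
    (true,[([(0,0,[(5,6)]),(0,1,[(4,5)])],[]),([(0,0,[(5,6)])],[])],[7,2,2],false,2,3,[3,4]),
    (true,[([(0,8,[(5,6),(3,3)])],[1,1]),([(0,0,[(5,6)]),(0,1,[(4,5)])],[1])],[2,2],false,1,0,[2]),
    (false,[([(0,14,[(5,6),(2,2)]),(0,14,[(4,5),(3,3)])],[]),([(0,0,[(5,6)])],[1,1,1,1,1,1])],[],false,1,0,[]),
    (true,[([(0,23,[(5,6),(4,4)])],[4]),([(0,0,[(5,6)]),(0,1,[(4,5)])],[1])],[2],false,1,0,[]),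
    (true,[([(0,24,[(5,6),(6,6)])],[5]),([(0,0,[(5,6)])],[3,1,1])],[],false,1,0,[2]),
    (true,[([(0,24,[(5,6),(6,6)])],[6]),([(0,0,[(5,6)]),(0,3,[(2,2)])],[1])],[],false,1,0,[]),
    (true,[([(0,2,[(7,8)])],[1,1,1])],[7,3,2,2,2,1],true,4,2,[6,8]),
    (false,[([(0,16,[(7,8),(5,6)])],[1,1,1])],[9,2],true,2,4,[3,5]),
    (true,[([(0,16,[(7,8),(5,6)])],[2,2]),([(0,3,[(3,3)])],[2])],[3,2],false,2,2,[3]),
    (false,[([(0,16,[(7,8),(5,6)])],[1,1,1]),([(0,3,[(3,3)]),(0,3,[(3,3)])],[1,1,1,1,1])],[],false,1,0,[]),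
    (true,[([(0,14,[(7,8)])],[4,1]),([(0,0,[(5,6)]),(0,1,[(4,5)])],[1])],[2,1],false,2,1,[]),
    (false,[([(0,14,[(7,8)]),(0,14,[(7,8)])],[])],[9,2,1],false,3,1,[]),
    (true,[([(0,23,[(9,10)])],[5])],[7,3,2,1],true,4,2,[6,7]),
    (true,[([(0,23,[(9,10)])],[4]),([(0,0,[(5,6)])],[3,1,1,1])],[2],false,1,0,[3]),
    (true,[([(0,23,[(9,10)])],[5]),([(0,0,[(5,6)]),(0,3,[(2,3)])],[1,1])],[2],false,1,0,[2]),
    (true,[([(0,24,[(9,10),(2,2)])],[6]),([(0,0,[(5,6)]),(0,3,[(2,3)])],[1])],[],false,1,0,[]),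
    (false,[([(0,17,[(9,10),(7,7)])],[2,2,2])],[4],false,1,0,[]),
    (false,[([(0,16,[(11,14)])],[1,1,1])],[9,2],true,2,4,[3,4,5]),
    (true,[([(0,16,[(11,14)])],[2,2]),([(0,3,[(3,3)])],[2])],[3,2],false,2,2,[3]),
    (false,[([(0,16,[(11,14)])],[1,1,1]),([(0,3,[(3,3)]),(0,3,[(3,3)])],[1,1,1,1,1])],[],false,1,0,[]),
    (false,[([(0,16,[(11,14)]),(0,4,[(4,4)])],[2,2])],[4,2],false,2,1,[]),
    (false,[([(0,20,[(11,14),(5,5)])],[3,2,2])],[2],false,1,0,[]),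
    (false,[([(0,10,[(15,15)])],[3,2,2,2])],[2,2],false,1,0,[])]),
  ([9,8,4,3,1,1,1,1], [
    (false,[],[9,8,4,3,1,1,1,1],false,5,3,[8,11,15]),
    (false,[([(0,14,[(6,8)])],[2,1,1,1])],[9,4,1,1],false,1,0,[3,6,8]),
    (false,[([(0,14,[(6,8)]),(0,3,[(2,3)])],[1,1])],[9,4,1,1],false,1,0,[3]),
    (false,[([(0,14,[(6,8)]),(0,3,[(2,3)]),(0,3,[(2,3)])],[])],[9,3,1,1],true,3,4,[]),
    (true,[([(0,14,[(6,8)]),(0,0,[(4,6)])],[1])],[4,3,2,2,2],false,3,3,[4,5,6]),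
    (true,[([(0,14,[(6,8)]),(0,0,[(4,6)])],[1]),([(0,4,[(4,4)])],[])],[4,3,2],false,3,2,[4]),
    (true,[([(0,14,[(6,8)]),(0,14,[(4,4),(4,4)])],[]),([(0,0,[(4,6)])],[])],[4,2],false,1,0,[]),
    (true,[([(0,14,[(6,8)]),(0,0,[(4,6)])],[1]),([(0,1,[(5,5)])],[3])],[3,2],false,2,2,[3]),
    (true,[([(0,14,[(6,8)]),(0,14,[(5,5),(3,3)])],[]),([(0,0,[(4,6)])],[])],[4,2],false,1,0,[]),
    (true,[([(0,14,[(6,8)]),(0,7,[(6,6)])],[]),([(0,0,[(4,6)])],[1])],[4,2],false,2,1,[]),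
    (true,[([(0,14,[(6,8)]),(0,14,[(7,8)])],[])],[4,3,2,2,1],false,4,1,[]),
    (false,[([(0,13,[(9,11)])],[2,1,1,1])],[9,1,1,1],false,1,0,[2,3,5,7]),
    (false,[([(0,13,[(9,11)]),(0,3,[(2,2)])],[1,1])],[9,1,1,1],false,1,0,[2]),
    (true,[([(0,10,[(9,11),(2,2),(2,2)])],[1,1,1])],[4,2,2,2],false,2,4,[]),
    (true,[([(0,16,[(9,11),(3,3)])],[1,1,1])],[4,3,2,2],false,3,3,[]),
    (true,[([(0,13,[(9,11)]),(0,1,[(4,5)])],[1])],[3,2,2,2,2],false,2,3,[3,4]),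
    (false,[([(0,28,[(9,11),(3,3)]),(0,1,[(4,5)])],[])],[8,1],false,2,1,[]),
    (true,[([(0,10,[(9,11),(4,4)])],[1,1,1]),([(0,1,[(4,5)])],[3])],[2],false,1,0,[]),
    (true,[([(0,13,[(9,11)]),(0,7,[(6,7)])],[])],[3,2,2,2,1],false,2,1,[]),
    (true,[([(0,10,[(12,15)])],[1,1,1])],[4,2,2,2],false,2,3,[3,4]),
    (true,[([(0,10,[(12,15)])],[1,1,1]),([(0,3,[(3,3)])],[2,1])],[2,2],false,1,0,[2]),
    (true,[([(0,10,[(12,15)])],[1,1,1]),([(0,1,[(3,3),(2,2)])],[3])],[2],false,1,0,[]),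
    (false,[([(0,10,[(12,15)]),(0,4,[(4,4)])],[4,2])],[1,1,1],false,1,0,[])]),
  ([9,8,4,3,3,1], [
    (false,[],[9,8,4,3,3,1],false,4,5,[6,8,11,15]),
    (true,[([(0,0,[(5,6)])],[1,1])],[6,5,3,2,2,2],false,4,3,[5,6]),
    (false,[([(0,0,[(5,6)]),(0,1,[(5,5)])],[3,1])],[9,3,1],true,3,3,[5]),
    (false,[([(0,0,[(5,6)]),(0,1,[(5,5)]),(0,1,[(4,5)])],[])],[8,3,1],false,3,1,[4]),
    (true,[([(0,10,[(5,6),(5,5),(4,4)])],[2]),([(0,1,[(4,5)])],[3,1])],[2],false,1,0,[]),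
    (false,[([(0,0,[(5,6)]),(0,7,[(6,6)])],[3])],[9,3],true,2,5,[3,5,6]),
    (true,[([(0,10,[(5,6),(6,6),(3,3)])],[2])],[5,2,2,2],false,2,3,[3]),
    (true,[([(0,10,[(5,6),(6,6),(3,3)])],[2]),([(0,3,[(3,3)])],[2,1,1])],[2,2],false,1,0,[2]),
    (true,[([(0,10,[(5,6),(6,6),(3,3)])],[2]),([(0,1,[(3,3),(2,2)])],[3,1])],[2],false,1,0,[]),
    (true,[([(0,0,[(5,6)]),(0,1,[(4,5)])],[]),([(0,0,[(6,6)])],[1,1])],[5,2,2],false,2,2,[3]),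
    (true,[([(0,10,[(5,6),(6,6),(3,3)])],[2]),([(0,1,[(4,5)])],[3,1])],[2],false,1,0,[]),
    (false,[([(0,17,[(5,6),(6,6),(6,6)])],[5,3,2])],[],false,1,0,[]),
    (true,[([(0,2,[(7,8)])],[2,2])],[6,3,2,2,2,1],true,4,2,[6,8]),
    (true,[([(0,16,[(7,8),(5,6)])],[2])],[5,3,2,2],false,3,3,[5]),
    (true,[([(0,2,[(7,8)]),(0,0,[(5,6)])],[]),([(0,1,[(4,5)])],[3,1])],[2,2,1],false,2,1,[]),
    (false,[([(0,2,[(7,8)]),(0,2,[(7,8)])],[2,2,1])],[3,3,1],true,2,2,[3]),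
    (false,[([(0,20,[(7,8),(7,8),(3,3)])],[5,2,2])],[],false,1,0,[]),
    (false,[([(0,13,[(9,11)])],[])],[9,8],false,2,6,[3,4,5,6,7]),
    (true,[([(0,16,[(9,11),(3,3)])],[2])],[5,3,2,2],false,3,3,[]),
    (true,[([(0,13,[(9,11)])],[4,3]),([(0,4,[(4,4)])],[])],[3,2,1],false,3,1,[4]),
    (false,[([(0,20,[(9,11),(4,4),(4,4)])],[5,2,2])],[],false,1,0,[]),
    (true,[([(0,13,[(9,11)])],[2,2]),([(0,1,[(5,5)])],[3,1])],[2,2],false,1,0,[2,3]),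
    (true,[([(0,13,[(9,11)])],[2,2]),([(0,7,[(5,5),(2,2)])],[4])],[2],false,1,0,[2]),
    (true,[([(0,10,[(9,11),(2,2),(2,2)])],[2]),([(0,1,[(5,5)])],[3,1])],[2],false,1,0,[]),
    (false,[([(0,20,[(9,11),(5,5),(3,3)])],[5,2,2])],[],false,1,0,[]),
    (false,[([(0,15,[(9,11),(6,6)])],[2,2,2,2])],[3],false,1,0,[2]),
    (false,[([(0,20,[(9,11),(6,6),(2,2)])],[5,2,2])],[],false,1,0,[]),
    (false,[([(0,17,[(9,11),(7,7)])],[5,3,2])],[],false,1,0,[]),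
    (true,[([(0,10,[(12,15)])],[2])],[5,2,2,2],false,2,3,[3,4]),
    (true,[([(0,10,[(12,15)])],[2]),([(0,3,[(3,3)])],[2,1,1])],[2,2],false,1,0,[2]),
    (true,[([(0,10,[(12,15)])],[2]),([(0,1,[(3,3),(2,2)])],[3,1])],[2],false,1,0,[]),
    (false,[([(0,20,[(12,15),(4,4)])],[5,2,2])],[],false,1,0,[])]),
  ([9,8,4,3,3,2], [
    (false,[],[9,8,4,3,3,2],false,4,6,[6,10,14,15]),
    (true,[([(0,0,[(5,6)])],[1,1,1])],[6,5,3,2,2,2],false,4,3,[5,6]),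
    (false,[([(0,0,[(5,6)]),(0,1,[(5,5)])],[1,1])],[9,4,3],false,3,3,[5]),
    (false,[([(0,0,[(5,6)]),(0,1,[(5,5)]),(0,1,[(4,5)])],[])],[8,3,2],false,3,2,[4]),
    (true,[([(0,10,[(5,6),(5,5),(4,4)])],[2]),([(0,1,[(4,5)])],[3,1,1])],[2],false,1,0,[]),
    (false,[([(0,0,[(5,6)]),(0,0,[(6,6)])],[1,1])],[9,3,3],false,2,5,[4,5,6]),
    (false,[([(0,8,[(5,6),(3,4)]),(0,7,[(6,6)])],[])],[9,3],false,2,3,[3,4]),
    (true,[([(0,8,[(5,6),(3,4)])],[3,2]),([(0,25,[(6,6),(3,3)])],[5])],[],false,1,0,[2]),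
    (true,[([(0,8,[(5,6),(3,4)])],[1,1]),([(0,2,[(6,6),(2,2)]),(0,3,[(3,3)])],[2])],[2,2],false,1,0,[]),
    (true,[([(0,8,[(5,6),(3,4)])],[2,2]),([(0,23,[(6,6),(4,4)])],[5])],[],false,1,0,[]),
    (true,[([(0,0,[(5,6)]),(0,1,[(5,5)])],[]),([(0,0,[(6,6)])],[1,1])],[6,2,2],false,2,1,[]),
    (false,[([(0,17,[(5,6),(6,6),(6,6)])],[6,3,2])],[],false,1,0,[]),
    (true,[([(0,8,[(7,10)])],[1,1])],[6,5,2,2,2],false,3,5,[4,5,7,8,9]),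
    (true,[([(0,8,[(7,10)]),(0,4,[(4,4)])],[])],[6,3,2,2,2],false,3,3,[4]),
    (true,[([(0,8,[(7,10)]),(0,4,[(4,4)])],[]),([(0,4,[(4,4)])],[])],[6,3,2],false,3,2,[]),
    (true,[([(0,10,[(7,10),(5,5)])],[2])],[6,2,2,2],false,2,4,[3,5]),
    (true,[([(0,10,[(7,10),(5,5)])],[2]),([(0,3,[(3,3)])],[2,1,1,1])],[2,2],false,1,0,[3]),
    (true,[([(0,10,[(7,10),(5,5)])],[2]),([(0,3,[(3,3)]),(0,3,[(2,3)])],[1,1])],[2,2],false,1,0,[2]),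
    (false,[([(0,8,[(7,10)]),(0,7,[(5,5),(2,2)])],[]),([(0,3,[(3,3)]),(0,3,[(2,3)])],[2,1,1,1,1])],[],false,1,0,[]),
    (true,[([(0,8,[(7,10)])],[1]),([(0,1,[(5,5)]),(0,1,[(4,5)])],[])],[6,2],false,2,1,[]),
    (false,[([(0,8,[(7,10)]),(0,7,[(6,7)])],[])],[9,3],false,2,3,[3,4]),
    (true,[([(0,8,[(7,10)])],[2,2]),([(0,23,[(6,7),(3,3)])],[5])],[],false,1,0,[2]),
    (false,[([(0,8,[(7,10)]),(0,7,[(6,7)])],[]),([(0,3,[(3,3)]),(0,3,[(2,2)])],[2,1,1,1,1])],[],false,1,0,[]),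
    (false,[([(0,8,[(7,10)]),(0,7,[(6,7)])],[]),([(0,4,[(4,4)])],[2,1,1,1,1,1,1])],[],false,1,0,[]),
    (true,[([(0,8,[(7,10)])],[2,2]),([(0,14,[(8,8)])],[4,1])],[2],false,1,0,[2]),
    (true,[([(0,8,[(7,10)])],[2,2]),([(0,23,[(8,8),(2,2)])],[5])],[],false,1,0,[]),
    (false,[([(0,20,[(7,10),(9,9)])],[6,2,2])],[],false,1,0,[]),
    (true,[([(0,16,[(11,14)])],[2])],[6,3,2,2],false,3,3,[5]),
    (true,[([(0,16,[(11,14)])],[2]),([(0,1,[(4,5)])],[3,1,1])],[3],false,1,0,[2]),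
    (true,[([(0,16,[(11,14)])],[2]),([(0,1,[(4,5)]),(0,3,[(2,2)])],[3])],[2],false,1,0,[]),
    (false,[([(0,10,[(15,15)])],[5,2,2,2])],[3],false,1,0,[])]),
  ([9,8,4,4,2,1], [
    (false,[],[9,8,4,4,2,1],true,4,6,[6,9,11,15]),
    (true,[([(0,0,[(5,6)])],[1])],[6,5,4,2,2,2],false,4,4,[6]),
    (false,[([(0,0,[(5,6)]),(0,0,[(5,6)])],[1,1])],[9,4,1],true,3,3,[6]),
    (true,[([(0,0,[(5,6)]),(0,0,[(5,6)])],[]),([(0,0,[(4,6)])],[1])],[5,2,2],false,2,3,[3,4]),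
    (true,[([(0,8,[(5,6),(3,3)])],[2]),([(0,0,[(5,6)]),(0,0,[(4,6)])],[])],[2,2],false,1,0,[2]),
    (true,[([(0,0,[(5,6)]),(0,0,[(5,6)])],[]),([(0,0,[(4,6)])],[1]),([(0,1,[(3,3),(2,2)])],[3,1])],[],false,1,0,[]),
    (true,[([(0,8,[(5,6),(4,4)])],[2]),([(0,0,[(5,6)]),(0,0,[(4,6)])],[])],[2,2],false,1,0,[]),
    (true,[([(0,8,[(7,9)])],[2])],[6,4,2,2,2],false,3,4,[4,5,6,8,9]),
    (true,[([(0,8,[(7,9)])],[2]),([(0,4,[(4,4)])],[])],[6,4,2],false,3,2,[4]),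
    (true,[([(0,8,[(7,9)]),(0,4,[(4,4)])],[]),([(0,4,[(4,4)])],[])],[4,4,2],false,2,2,[3]),
    (true,[([(0,8,[(7,9)]),(0,4,[(4,4)])],[]),([(0,4,[(4,4)])],[]),([(0,3,[(3,3)])],[2,1])],[4],false,1,0,[]),
    (true,[([(0,16,[(7,9),(5,5)])],[])],[6,4,2,2],false,3,4,[5]),
    (true,[([(0,8,[(7,9)])],[2]),([(0,1,[(5,5)]),(0,1,[(4,5)])],[])],[4,2],false,2,1,[]),
    (true,[([(0,10,[(7,9),(6,6)])],[3])],[4,2,2,2],false,2,3,[3,4]),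
    (true,[([(0,10,[(7,9),(6,6)])],[3]),([(0,3,[(3,3)])],[2,1])],[2,2],false,1,0,[2]),
    (true,[([(0,10,[(7,9),(6,6)])],[3]),([(0,1,[(3,3),(2,2)])],[3])],[2],false,1,0,[]),
    (false,[([(0,10,[(7,9),(6,6)]),(0,4,[(4,4)])],[3,2])],[4],false,1,0,[]),
    (false,[([(0,8,[(7,9)]),(0,2,[(7,8)])],[2,2])],[4,2],false,2,2,[3]),
    (false,[([(0,8,[(7,9)]),(0,2,[(7,8)])],[2,2]),([(0,3,[(3,3)])],[2,1])],[],false,1,0,[]),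
    (false,[([(0,17,[(7,9),(9,9)])],[4,4,2])],[],false,1,0,[]),
    (true,[([(0,13,[(10,11)])],[4])],[6,2,2,2,1],true,3,4,[6]),
    (true,[([(0,13,[(10,11)])],[4]),([(0,0,[(4,6)])],[1,1,1])],[2,2],false,1,0,[3]),
    (true,[([(0,16,[(10,11),(2,3)])],[]),([(0,0,[(4,6)])],[3,2,1])],[2],false,1,0,[2]),
    (true,[([(0,16,[(10,11),(2,3)])],[]),([(0,0,[(4,6)]),(0,3,[(2,2)])],[3])],[2],false,1,0,[]),
    (true,[([(0,10,[(12,15)])],[3])],[4,2,2,2],false,2,3,[3,4]),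
    (true,[([(0,10,[(12,15)])],[3]),([(0,3,[(3,3)])],[2,1])],[2,2],false,1,0,[2]),
    (true,[([(0,10,[(12,15)])],[3]),([(0,1,[(3,3),(2,2)])],[3])],[2],false,1,0,[]),
    (false,[([(0,10,[(12,15)]),(0,4,[(4,4)])],[3,2])],[4],false,1,0,[])]),
  ([9,8,5,4,2], [
    (false,[],[9,8,5,4,2],false,4,5,[6,10,15]),
    (true,[([(0,0,[(5,6)])],[1])],[5,5,4,3,2,2],false,4,3,[6]),
    (true,[([(0,0,[(5,6)])],[1]),([(0,0,[(5,6)])],[3])],[5,5,2],true,2,6,[3,4,5,6]),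
    (true,[([(0,10,[(5,6),(5,6),(3,3)])],[])],[5,4,2,2],false,3,4,[]),
    (true,[([(0,8,[(5,6),(4,4)])],[]),([(0,0,[(5,6)])],[3,2])],[5,2],true,2,3,[3,4]),
    (true,[([(0,10,[(5,6),(5,6),(3,3)])],[]),([(0,4,[(4,4)])],[])],[5,4],false,2,1,[]),
    (true,[([(0,16,[(5,6),(4,4),(4,4)])],[]),([(0,0,[(5,6)])],[3])],[5],false,1,0,[]),
    (true,[([(0,0,[(5,6)])],[1]),([(0,0,[(5,6)])],[3,2]),([(0,1,[(5,5)])],[3,2])],[],false,1,0,[2,3]),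
    (true,[([(0,0,[(5,6)]),(0,3,[(2,2)])],[]),([(0,0,[(5,6)])],[3,2]),([(0,1,[(5,5)])],[3])],[],false,1,0,[2]),
    (true,[([(0,10,[(5,6),(5,5),(2,2),(2,2)])],[]),([(0,0,[(5,6)])],[3,2])],[2],false,1,0,[]),
    (true,[([(0,10,[(5,6),(5,6),(3,3)])],[]),([(0,1,[(5,5)])],[3])],[5],false,1,0,[]),
    (true,[([(0,0,[(5,6)])],[]),([(0,0,[(5,6)])],[3,2]),([(0,0,[(6,6)])],[3,2])],[],false,1,0,[2]),
    (true,[([(0,16,[(5,6),(6,6),(2,2)])],[]),([(0,0,[(5,6)])],[3])],[5],false,1,0,[]),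
    (true,[([(0,8,[(7,10)])],[2])],[5,4,3,2,2],false,4,3,[5,6,8,9]),
    (true,[([(0,10,[(7,10),(5,5)])],[])],[5,4,2,2],false,3,4,[4,5]),
    (true,[([(0,10,[(7,10),(5,5)])],[]),([(0,4,[(4,4)])],[])],[5,4],false,2,1,[]),
    (true,[([(0,10,[(7,10),(5,5)])],[]),([(0,1,[(5,5)])],[3])],[5],false,1,0,[]),
    (true,[([(0,8,[(7,10)])],[]),([(0,0,[(6,6)])],[3,2])],[5,2],true,2,3,[3,4]),
    (true,[([(0,8,[(7,10)])],[2]),([(0,8,[(6,6),(3,3)])],[4])],[2],false,1,0,[2]),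
    (true,[([(0,8,[(7,10)])],[]),([(0,2,[(6,6),(2,2)]),(0,3,[(3,3)])],[])],[5,2],false,1,0,[]),
    (true,[([(0,8,[(7,10)])],[2]),([(0,8,[(6,6),(4,4)])],[4])],[2],false,1,0,[]),
    (true,[([(0,8,[(7,10)])],[]),([(0,2,[(7,8)])],[2,1])],[5,2],false,2,2,[3]),
    (true,[([(0,8,[(7,10)])],[1]),([(0,13,[(7,8),(3,3)])],[4])],[2],false,1,0,[]),
    (true,[([(0,8,[(7,10)])],[]),([(0,5,[(9,9)])],[3,2])],[2,2],false,1,0,[]),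
    (true,[([(0,10,[(11,15)])],[])],[5,4,2,2],false,3,4,[4,5]),
    (true,[([(0,10,[(11,15)])],[]),([(0,4,[(4,4)])],[])],[5,4],false,2,1,[]),
    (true,[([(0,10,[(11,15)])],[]),([(0,1,[(5,5)])],[3])],[5],false,1,0,[])]),
  ([9,8,6,2,2,1], [
    (false,[],[9,8,6,2,2,1],false,4,5,[6,9,11,14,15]),
    (true,[([(0,0,[(5,6)])],[])],[6,5,3,3,3,2],false,3,6,[5,6]),
    (true,[([(0,0,[(5,6)]),(0,1,[(4,5)])],[])],[5,3,3,3,2,1],true,4,2,[5]),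
    (true,[([(0,0,[(5,6)]),(0,1,[(4,5)])],[]),([(0,1,[(5,5)])],[3,3])],[3,2,1],false,3,1,[4]),
    (true,[([(0,0,[(5,6)])],[]),([(0,16,[(4,5),(5,5),(4,4)])],[5])],[3],false,1,0,[]),
    (false,[([(0,0,[(5,6)]),(0,0,[(6,6)])],[2,2])],[9,2,1],true,3,2,[6]),
    (false,[([(0,0,[(5,6)]),(0,0,[(6,6)])],[2,2]),([(0,0,[(4,6)])],[1,1,1,1,1,1])],[],false,1,0,[3]),
    (false,[([(0,0,[(5,6)]),(0,0,[(6,6)]),(0,3,[(2,3)])],[2]),([(0,0,[(4,6)])],[1,1,1,1,1])],[],false,1,0,[2]),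
    (true,[([(0,0,[(5,6)]),(0,2,[(6,6),(2,2)])],[]),([(0,0,[(4,6)])],[]),([(0,3,[(2,3)])],[2])],[3],false,1,0,[]),
    (true,[([(0,8,[(7,9)])],[1])],[6,3,3,3,2],false,2,8,[3,4,5,6,8,9]),
    (true,[([(0,8,[(7,9)])],[1]),([(0,3,[(3,3)])],[2])],[6,3,3],false,2,6,[3]),
    (false,[([(0,8,[(7,9)]),(0,3,[(3,3)]),(0,3,[(3,3)])],[2])],[8,2],true,2,4,[3]),
    (true,[([(0,8,[(7,9)])],[1]),([(0,3,[(3,3)]),(0,3,[(3,3)]),(0,3,[(3,3)])],[])],[3,3,2],false,2,2,[3]),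
    (false,[([(0,8,[(7,9)]),(0,3,[(3,3)]),(0,3,[(3,3)])],[2]),([(0,3,[(3,3)]),(0,3,[(3,3)])],[1,1,1,1])],[],false,1,0,[]),
    (true,[([(0,8,[(7,9)])],[1]),([(0,4,[(4,4)])],[2])],[6,3,2],false,3,2,[4]),
    (false,[([(0,8,[(7,9)]),(0,4,[(4,4)]),(0,4,[(4,4)])],[2])],[6,2],false,2,2,[3]),
    (false,[([(0,8,[(7,9)]),(0,4,[(4,4)]),(0,4,[(4,4)])],[2]),([(0,3,[(3,3)])],[2,1,1,1])],[],false,1,0,[]),
    (true,[([(0,16,[(7,9),(5,5)])],[5])],[3,3,2,1],true,3,2,[4,5]),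
    (true,[([(0,16,[(7,9),(5,5)])],[3]),([(0,4,[(4,4)])],[2])],[3,2],false,2,1,[]),
    (false,[([(0,20,[(7,9),(5,5),(5,5)])],[3,3,3])],[],false,1,0,[]),
    (true,[([(0,10,[(7,9),(6,6)])],[2])],[3,3,3,2],true,2,3,[3,4]),
    (true,[([(0,10,[(7,9),(6,6)])],[2]),([(0,3,[(3,3)])],[2])],[3,3],false,1,0,[2]),
    (false,[([(0,8,[(7,9)]),(0,2,[(6,6),(2,2)])],[4,3]),([(0,3,[(3,3)])],[])],[],false,1,0,[]),
    (false,[([(0,20,[(7,9),(6,6),(4,4)])],[3,3,3])],[],false,1,0,[]),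
    (true,[([(0,8,[(7,9)])],[1]),([(0,2,[(7,8)])],[])],[6,3],false,2,2,[3]),
    (false,[([(0,8,[(7,9)]),(0,2,[(7,8)])],[4,3]),([(0,3,[(3,3)])],[])],[],false,1,0,[]),
    (false,[([(0,20,[(7,9),(9,9)])],[3,3,3])],[],false,1,0,[]),
    (true,[([(0,13,[(10,11)])],[1])],[6,3,3,2,2],false,3,4,[6]),
    (true,[([(0,13,[(10,11)])],[1]),([(0,0,[(4,6)])],[3,1,1])],[3,2],false,2,2,[3]),
    (true,[([(0,16,[(10,11),(3,3)])],[5]),([(0,0,[(4,6)])],[])],[3],false,1,0,[]),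
    (true,[([(0,16,[(12,14)])],[5])],[3,3,2,1],false,3,1,[4]),
    (false,[([(0,20,[(12,14),(4,4)])],[3,3,3])],[],false,1,0,[]),
    (false,[([(0,10,[(15,15)])],[3,3,3,2])],[2],false,1,0,[])])]

theorem cj5d_6_ok : runAllJ S38 R38 F38 14 cj5d_6 = true := by decide +kernel

noncomputable def cj5d_7 : List (List ℕ × List NdJ) := [
  ([9,8,6,3,2], [
    (false,[],[9,8,6,3,2],false,4,5,[6,10,15]),
    (true,[([(0,0,[(5,6)])],[])],[5,5,4,3,3,2],false,3,6,[6]),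
    (false,[([(0,0,[(5,6)]),(0,0,[(4,6)])],[2,2])],[9,3],false,1,0,[2,3,4,6]),
    (false,[([(0,14,[(5,6),(2,2)]),(0,0,[(4,6)])],[4,2])],[8],false,1,0,[2]),
    (true,[([(0,8,[(5,6),(2,2),(2,2)])],[]),([(0,0,[(4,6)])],[3,1])],[5,3],false,1,0,[2]),
    (false,[([(0,0,[(5,6)]),(0,0,[(4,6)]),(1,0,[(2,2),(2,2),(2,2)])],[])],[8,2],true,2,4,[]),
    (true,[([(0,0,[(5,6)]),(0,3,[(3,3)])],[]),([(0,0,[(4,6)])],[3])],[5,3,2],false,3,2,[]),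
    (false,[([(0,0,[(5,6)]),(0,0,[(4,6)]),(0,4,[(4,4)])],[])],[9,3],true,2,4,[3,4]),
    (true,[([(0,8,[(5,6),(4,4)])],[4]),([(0,0,[(4,6)]),(0,3,[(3,3)])],[])],[3,2],false,2,2,[3]),
    (true,[([(0,8,[(5,6),(4,4)])],[4]),([(0,0,[(4,6)]),(0,3,[(3,3)])],[]),([(0,3,[(3,3)])],[2])],[],false,1,0,[]),
    (true,[([(0,10,[(5,6),(4,4),(4,4)])],[]),([(0,0,[(4,6)])],[3,1])],[3],false,1,0,[2]),
    (true,[([(0,8,[(5,6),(4,4)])],[4]),([(0,0,[(4,6)]),(0,3,[(2,2)])],[]),([(0,4,[(4,4)])],[1])],[],false,1,0,[]),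
    (false,[([(0,0,[(5,6)]),(0,0,[(4,6)]),(0,0,[(5,6)])],[])],[8,2],true,2,3,[3,4]),
    (true,[([(0,10,[(5,6),(5,6),(3,3)])],[]),([(0,0,[(4,6)])],[3,1])],[3],false,1,0,[2]),
    (false,[([(0,0,[(5,6)]),(0,0,[(4,6)]),(0,0,[(5,6)])],[]),([(0,3,[(3,3)]),(0,3,[(2,2)])],[1,1,1,1])],[],false,1,0,[]),
    (false,[([(0,0,[(5,6)]),(0,0,[(4,6)]),(0,0,[(5,6)])],[]),([(0,4,[(4,4)])],[1,1,1,1,1,1])],[],false,1,0,[]),
    (true,[([(0,8,[(7,10)])],[1])],[5,4,3,3,2],false,4,2,[5,6,8,9]),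
    (true,[([(0,10,[(7,10),(5,5)])],[])],[5,3,3,2],false,3,2,[4,5]),
    (true,[([(0,10,[(7,10),(5,5)])],[]),([(0,4,[(4,4)])],[1])],[5,3],false,2,1,[]),
    (true,[([(0,10,[(7,10),(5,5)])],[]),([(0,1,[(5,5)])],[3,2])],[3],false,1,0,[]),
    (true,[([(0,8,[(7,10)])],[]),([(0,0,[(6,6)])],[3,1])],[5,3],false,2,3,[3,4]),
    (true,[([(0,8,[(7,10)])],[4]),([(0,0,[(6,6)]),(0,3,[(3,3)])],[])],[3,2],false,2,1,[]),
    (true,[([(0,8,[(7,10)])],[1]),([(0,8,[(6,6),(4,4)])],[4])],[3],false,1,0,[]),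
    (true,[([(0,8,[(7,10)])],[]),([(0,2,[(7,8)])],[1,1])],[5,3],false,2,2,[3]),
    (true,[([(0,8,[(7,10)])],[4]),([(0,13,[(7,8),(3,3)])],[1])],[2],false,1,0,[]),
    (false,[([(0,8,[(7,10)]),(0,5,[(9,9)])],[4,2])],[3],false,1,0,[]),
    (true,[([(0,10,[(11,15)])],[])],[5,3,3,2],false,3,2,[4,5]),
    (true,[([(0,10,[(11,15)])],[]),([(0,4,[(4,4)])],[1])],[5,3],false,2,1,[]),
    (true,[([(0,10,[(11,15)])],[]),([(0,1,[(5,5)])],[3,2])],[3],false,1,0,[])]),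
  ([9,8,6,4,1], [
    (false,[],[9,8,6,4,1],false,4,5,[6,10,15]),
    (true,[([(0,0,[(5,6)])],[2])],[5,4,4,3,2,2],false,4,3,[5,6]),
    (true,[([(0,0,[(5,6)])],[2]),([(0,1,[(5,5)])],[3])],[5,4,3],false,3,3,[5]),
    (true,[([(0,0,[(5,6)])],[1]),([(0,8,[(5,5),(4,5)])],[4])],[4,3],false,2,3,[3,4]),
    (true,[([(0,10,[(5,6),(5,5),(3,3)])],[]),([(0,0,[(4,5)])],[3])],[4],false,1,0,[2]),
    (true,[([(0,0,[(5,6)])],[3]),([(0,10,[(5,5),(4,5),(3,3),(2,2)])],[])],[4],false,1,0,[]),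
    (true,[([(0,10,[(5,6),(5,5),(4,4)])],[]),([(0,0,[(4,5)])],[3])],[4],false,1,0,[]),
    (true,[([(0,0,[(5,6)])],[1]),([(0,0,[(6,6)])],[3])],[5,4,3],false,3,3,[6]),
    (true,[([(0,0,[(5,6)])],[1]),([(0,0,[(6,6)])],[3]),([(0,0,[(4,6)])],[3,3])],[],false,1,0,[3]),
    (true,[([(0,10,[(5,6),(6,6),(2,3)])],[]),([(0,0,[(4,6)])],[3])],[4],false,1,0,[2]),
    (true,[([(0,0,[(5,6)]),(0,3,[(2,3)])],[]),([(0,2,[(6,6),(2,2)])],[2]),([(0,0,[(4,6)])],[3])],[],false,1,0,[]),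
    (true,[([(0,8,[(7,10)])],[])],[5,4,4,3,2],false,4,2,[5,6,8,9]),
    (true,[([(0,10,[(7,10),(5,5)])],[])],[4,4,3,2],false,3,2,[4,5]),
    (true,[([(0,10,[(7,10),(5,5)])],[]),([(0,4,[(4,4)])],[1,1])],[4,3],false,2,1,[]),
    (true,[([(0,10,[(7,10),(5,5)])],[]),([(0,0,[(5,5)])],[3])],[4],false,1,0,[]),
    (true,[([(0,8,[(7,10)])],[]),([(0,0,[(6,6)])],[3])],[5,4],false,2,3,[3,4]),
    (true,[([(0,8,[(7,10)])],[]),([(0,8,[(6,6),(3,3)])],[4])],[4],false,1,0,[2]),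
    (true,[([(0,8,[(7,10)])],[]),([(0,2,[(6,6),(2,2)]),(0,3,[(3,3)])],[])],[4,3],false,1,0,[]),
    (true,[([(0,8,[(7,10)])],[]),([(0,8,[(6,6),(4,4)])],[4])],[4],false,1,0,[]),
    (true,[([(0,8,[(7,10)])],[]),([(0,2,[(7,8)])],[1])],[5,4],false,2,2,[3]),
    (true,[([(0,8,[(7,10)])],[]),([(0,13,[(7,8),(3,3)])],[4])],[3],false,1,0,[]),
    (false,[([(0,8,[(7,10)]),(0,5,[(9,9)])],[3,2])],[4],false,1,0,[]),
    (true,[([(0,10,[(11,15)])],[])],[4,4,3,2],false,3,2,[4,5]),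
    (true,[([(0,10,[(11,15)])],[]),([(0,4,[(4,4)])],[1,1])],[4,3],false,2,1,[]),
    (true,[([(0,10,[(11,15)])],[]),([(0,0,[(5,5)])],[3])],[4],false,1,0,[])]),
  ([9,8,6,4,2], [
    (false,[],[9,8,6,4,2],false,4,6,[6,10,15]),
    (true,[([(0,0,[(5,6)])],[3])],[5,5,4,3,2,1],true,5,2,[6]),
    (true,[([(0,0,[(5,6)])],[]),([(0,0,[(6,6)])],[3,2])],[5,4,3],false,3,3,[6]),
    (true,[([(0,0,[(5,6)])],[]),([(0,0,[(6,6)])],[3,2]),([(0,0,[(4,6)])],[3,3])],[],false,1,0,[3]),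
    (true,[([(0,10,[(5,6),(6,6),(2,3)])],[]),([(0,0,[(4,6)])],[3])],[5],false,1,0,[2]),
    (true,[([(0,0,[(5,6)]),(0,3,[(2,3)])],[]),([(0,2,[(6,6),(2,2)])],[1]),([(0,0,[(4,6)])],[3,2])],[],false,1,0,[]),
    (true,[([(0,8,[(7,10)])],[])],[5,5,4,3,2],false,4,2,[6,8,9]),
    (true,[([(0,8,[(7,10)])],[]),([(0,0,[(5,6)])],[3,1])],[5,4],false,2,4,[3,4,5]),
    (true,[([(0,8,[(7,10)])],[4]),([(0,0,[(5,6)]),(0,3,[(3,3)])],[])],[4,2],false,2,2,[3]),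
    (true,[([(0,8,[(7,10)])],[4]),([(0,0,[(5,6)]),(0,3,[(3,3)])],[]),([(0,3,[(3,3)])],[2,1])],[],false,1,0,[]),
    (true,[([(0,8,[(7,10)])],[4]),([(0,0,[(5,6)]),(0,4,[(4,4)])],[])],[3,2],false,2,1,[]),
    (true,[([(0,10,[(7,10),(5,5)])],[]),([(0,0,[(5,6)])],[3])],[5],false,1,0,[]),
    (true,[([(0,8,[(7,10)])],[]),([(0,2,[(7,8)])],[1,1])],[5,4],false,2,2,[3]),
    (true,[([(0,8,[(7,10)])],[1]),([(0,13,[(7,8),(3,3)])],[4])],[3],false,1,0,[]),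
    (false,[([(0,8,[(7,10)]),(0,5,[(9,9)])],[4,2])],[4],false,1,0,[]),
    (true,[([(0,10,[(11,15)])],[])],[5,4,3,2],false,4,2,[5]),
    (true,[([(0,10,[(11,15)])],[]),([(0,1,[(5,5)])],[3,2])],[4],false,1,0,[])]),
  ([9,8,6,5,1], [
    (false,[],[9,8,6,5,1],false,4,6,[5,6,8,11,15]),
    (true,[([(0,1,[(5,5)])],[2])],[5,4,4,4,3,2],false,3,5,[5]),
    (true,[([(0,8,[(5,5),(4,5)])],[2])],[4,4,4,3,2],true,3,3,[4,5]),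
    (true,[([(0,8,[(5,5),(4,5)])],[]),([(0,4,[(4,4)])],[2,2])],[5,4,2],false,3,2,[4]),
    (true,[([(0,16,[(5,5),(4,5),(4,4)])],[]),([(0,4,[(4,4)])],[2,2])],[4,3],false,2,1,[]),
    (true,[([(0,10,[(5,5),(4,5),(5,5)])],[])],[4,4,4,2],true,2,3,[3,4]),
    (true,[([(0,10,[(5,5),(4,5),(5,5)])],[]),([(0,3,[(3,3)])],[2,1])],[4,4],false,1,0,[2]),
    (true,[([(0,10,[(5,5),(4,5),(5,5)])],[]),([(0,3,[(3,3)]),(0,3,[(2,2)])],[])],[4,4],false,1,0,[]),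
    (true,[([(0,10,[(5,5),(4,5),(5,5)])],[]),([(0,4,[(4,4)])],[1,1])],[4,4],false,1,0,[]),
    (true,[([(0,0,[(6,6)])],[3,2])],[4,4,4,3,2,1],true,4,3,[5,6]),
    (true,[([(0,13,[(6,6),(5,5)])],[4])],[4,4,3,2,1],false,4,1,[5]),
    (true,[([(2,14,[(6,6),(5,5),(5,5)])],[])],[4,4,2],false,2,1,[]),
    (true,[([(0,10,[(6,6),(6,6)])],[])],[4,4,4,2],true,2,4,[3,5]),
    (true,[([(0,10,[(6,6),(6,6),(3,3)])],[])],[4,4,4,2],false,2,2,[3]),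
    (true,[([(2,18,[(6,6),(6,6),(3,3),(3,3)])],[])],[4,4,2],false,1,0,[]),
    (true,[([(0,13,[(6,6),(4,5)])],[3]),([(0,0,[(6,6)])],[3])],[4,2],false,2,1,[]),
    (true,[([(0,2,[(7,8)])],[2])],[5,4,4,3,2,1],false,4,3,[6,8]),
    (true,[([(0,2,[(7,8)])],[2]),([(0,0,[(5,6)])],[1])],[5,4,3],false,3,3,[4,5]),
    (true,[([(0,16,[(7,8),(5,6)])],[]),([(0,4,[(4,4)])],[2,2])],[4,3],false,2,1,[]),
    (true,[([(0,2,[(7,8)])],[2]),([(0,0,[(5,6)])],[3,3]),([(0,1,[(5,5)])],[2])],[],false,1,0,[]),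
    (true,[([(0,2,[(7,8)])],[1]),([(0,2,[(7,8)])],[2])],[5,4,1],false,3,1,[]),
    (true,[([(0,13,[(9,11)])],[4])],[4,4,3,2,1],true,4,2,[6,7]),
    (true,[([(0,13,[(9,11)])],[3]),([(0,0,[(5,6)])],[3])],[4,2],false,2,2,[3]),
    (true,[([(0,13,[(9,11)])],[4]),([(0,8,[(5,6),(3,3)])],[])],[4],false,1,0,[]),
    (false,[([(0,13,[(9,11)]),(0,2,[(7,7)])],[1])],[9],false,1,0,[]),
    (true,[([(0,10,[(12,15)])],[])],[4,4,4,2],true,2,3,[3,4]),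
    (true,[([(0,10,[(12,15)])],[]),([(0,3,[(3,3)])],[2,1])],[4,4],false,1,0,[2]),
    (true,[([(0,10,[(12,15)])],[]),([(0,3,[(3,3)]),(0,3,[(2,2)])],[])],[4,4],false,1,0,[]),
    (true,[([(0,10,[(12,15)])],[]),([(0,4,[(4,4)])],[1,1])],[4,4],false,1,0,[])]),
  ([9,8,7,3,1], [
    (false,[],[9,8,7,3,1],false,4,4,[5,6,8,11,14,15]),
    (true,[([(0,0,[(5,5)])],[])],[5,4,4,3,3,3],false,3,5,[4,5]),
    (true,[([(0,0,[(5,5)])],[2]),([(0,4,[(4,4)])],[2])],[5,4,3,2],false,4,2,[]),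
    (true,[([(0,8,[(5,5),(5,5)])],[])],[5,4,3,3,3],false,3,4,[4,5]),
    (true,[([(0,8,[(5,5),(5,5)])],[]),([(0,4,[(4,4)])],[2])],[5,4,3],false,3,3,[4]),
    (true,[([(0,10,[(5,5),(5,5),(4,4)])],[]),([(0,4,[(4,4)])],[2])],[4,3],false,1,0,[]),
    (true,[([(0,10,[(5,5),(5,5),(5,5)])],[])],[4,3,3,3],false,2,2,[3]),
    (true,[([(2,10,[(5,5),(5,5),(5,5),(3,3)])],[])],[4,3,3],false,1,0,[]),
    (true,[([(0,0,[(6,6)])],[])],[5,4,4,3,3,3],false,3,5,[5,6]),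
    (true,[([(0,13,[(6,6),(4,5)])],[])],[5,4,3,3,2],false,4,2,[5]),
    (true,[([(0,13,[(6,6),(4,5)])],[]),([(0,1,[(5,5)])],[3,2])],[4,3],false,2,2,[3]),
    (true,[([(0,13,[(6,6),(4,5)])],[]),([(0,8,[(5,5),(3,3)])],[4])],[3],false,1,0,[]),
    (true,[([(0,10,[(6,6),(6,6)])],[])],[4,3,3,3],false,2,4,[3,5]),
    (true,[([(0,10,[(6,6),(6,6),(3,3)])],[])],[4,3,3,3],false,2,2,[3]),
    (true,[([(2,12,[(6,6),(6,6),(3,3),(3,3)])],[])],[4,3,3],false,1,0,[]),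
    (true,[([(0,13,[(6,6),(4,5)])],[]),([(0,0,[(6,6)])],[3])],[5,3],false,2,1,[]),
    (true,[([(0,2,[(7,8)])],[3])],[5,3,3,3,2,1],true,4,2,[6,8]),
    (true,[([(0,2,[(7,8)])],[]),([(0,0,[(5,6)])],[2])],[5,4,3],false,3,3,[4,5]),
    (true,[([(0,10,[(7,8),(5,6)])],[]),([(0,4,[(4,4)])],[2])],[4,3],false,2,1,[]),
    (true,[([(0,2,[(7,8)])],[1]),([(0,0,[(5,6)])],[2]),([(0,1,[(5,5)])],[3,3])],[],false,1,0,[]),
    (true,[([(0,2,[(7,8)])],[]),([(0,2,[(7,8)])],[3])],[5,3,1],false,3,1,[]),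
    (true,[([(0,13,[(9,11)])],[])],[5,4,3,3,2],false,4,2,[6,7]),
    (true,[([(0,13,[(9,11)])],[]),([(0,0,[(5,6)])],[3])],[5,3],false,2,2,[3]),
    (true,[([(0,13,[(9,11)])],[]),([(0,8,[(5,6),(3,3)])],[4])],[3],false,1,0,[]),
    (false,[([(0,13,[(9,11)]),(0,2,[(7,7)])],[3,3])],[3],false,1,0,[]),
    (true,[([(0,10,[(12,14)])],[])],[4,3,3,3],false,2,3,[3,4]),
    (true,[([(0,15,[(12,14),(3,3)])],[])],[3,3,3,2],false,2,1,[]),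
    (true,[([(0,10,[(12,14)])],[]),([(0,4,[(4,4)])],[2])],[4,3],false,1,0,[]),
    (false,[([(0,10,[(15,15)])],[4,3,3,3])],[],false,1,0,[])]),
  ([9,8,7,3,2], [
    (false,[],[9,8,7,3,2],false,4,5,[5,6,8,11,15]),
    (true,[([(0,1,[(5,5)])],[2,2])],[5,4,3,3,3,2],false,3,5,[5]),
    (true,[([(0,8,[(5,5),(4,5)])],[1])],[5,4,3,3,3],false,3,4,[4,5]),
    (true,[([(0,8,[(5,5),(4,5)])],[1]),([(0,4,[(4,4)])],[2])],[5,4,3],false,3,3,[4]),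
    (true,[([(0,10,[(5,5),(4,5),(4,4)])],[]),([(0,4,[(4,4)])],[2])],[5,3],false,2,1,[]),
    (true,[([(0,10,[(5,5),(4,5),(5,5)])],[])],[5,3,3,3],false,2,3,[3,4]),
    (true,[([(0,10,[(5,5),(4,5),(5,5)])],[]),([(0,3,[(3,3)])],[2,2,1])],[3,3],false,1,0,[2]),
    (true,[([(0,10,[(5,5),(4,5),(5,5)])],[]),([(0,1,[(3,3),(2,2)])],[3,3])],[3],false,1,0,[]),
    (true,[([(0,10,[(5,5),(4,5),(5,5)])],[]),([(0,4,[(4,4)])],[2])],[5,3],false,1,0,[]),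
    (true,[([(0,0,[(6,6)])],[])],[5,5,4,3,3,3],false,3,4,[5,6]),
    (true,[([(0,13,[(6,6),(4,5)])],[1])],[5,4,3,3,2],false,4,2,[5]),
    (true,[([(0,13,[(6,6),(4,5)])],[]),([(0,1,[(5,5)])],[3,2])],[5,3],false,2,2,[3]),
    (true,[([(0,10,[(6,6),(4,5),(3,3)])],[]),([(0,1,[(5,5)])],[3,3])],[3],false,1,0,[]),
    (true,[([(0,10,[(6,6),(6,6)])],[])],[5,3,3,3],false,2,4,[4,5]),
    (true,[([(0,8,[(6,6),(3,4)])],[1]),([(0,0,[(6,6)])],[3,3])],[3,3],false,1,0,[3]),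
    (true,[([(0,8,[(6,6),(3,4)])],[4]),([(0,0,[(6,6)]),(0,3,[(2,3)])],[])],[3,3],false,1,0,[2]),
    (true,[([(0,8,[(6,6),(3,4)])],[3]),([(0,2,[(6,6),(2,2)])],[]),([(0,3,[(2,3)])],[2,2,1])],[],false,1,0,[]),
    (true,[([(2,41,[(6,6),(6,6),(5,5)])],[])],[5,3,3],false,1,0,[]),
    (true,[([(0,2,[(7,8)])],[])],[5,5,4,3,3,1],true,4,2,[7,8]),
    (true,[([(0,10,[(7,8),(5,7)])],[])],[5,3,3,3],false,2,4,[3,4,5]),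
    (true,[([(0,2,[(7,8)])],[]),([(0,8,[(5,7),(3,3)])],[3])],[5,3],false,2,2,[3]),
    (true,[([(0,10,[(7,8),(5,7)])],[]),([(0,3,[(3,3)]),(0,3,[(3,3)])],[2])],[3,3],false,1,0,[]),
    (true,[([(0,10,[(7,8),(5,7)])],[]),([(0,4,[(4,4)])],[2])],[5,3],false,2,1,[]),
    (true,[([(0,10,[(7,8),(5,7)])],[]),([(0,1,[(5,5)])],[3,3])],[3],false,1,0,[]),
    (true,[([(0,2,[(7,8)])],[]),([(0,2,[(8,8)])],[3,1])],[5,3,1],false,2,1,[]),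
    (true,[([(0,13,[(9,11)])],[1])],[5,4,3,3,2],false,4,2,[6,7]),
    (true,[([(0,13,[(9,11)])],[]),([(0,0,[(5,6)])],[3,1])],[5,3],false,2,2,[3]),
    (true,[([(0,13,[(9,11)])],[1]),([(0,8,[(5,6),(3,3)])],[4])],[3],false,1,0,[]),
    (false,[([(0,13,[(9,11)]),(0,2,[(7,7)])],[4,3])],[3],false,1,0,[]),
    (true,[([(0,10,[(12,15)])],[])],[5,3,3,3],false,2,3,[3,4]),
    (true,[([(0,10,[(12,15)])],[]),([(0,3,[(3,3)])],[2,2,1])],[3,3],false,1,0,[2]),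
    (true,[([(0,10,[(12,15)])],[]),([(0,1,[(3,3),(2,2)])],[3,3])],[3],false,1,0,[]),
    (true,[([(0,10,[(12,15)])],[]),([(0,4,[(4,4)])],[2])],[5,3],false,1,0,[])]),
  ([9,8,7,4,1], [
    (false,[],[9,8,7,4,1],false,4,5,[6,8,11,15]),
    (true,[([(0,0,[(5,6)])],[])],[5,4,4,4,3,3],false,3,5,[4,5,6]),
    (true,[([(0,0,[(5,6)])],[2]),([(0,4,[(4,4)])],[2,1])],[5,4,3,2],false,4,2,[]),
    (true,[([(0,0,[(5,6)])],[2]),([(0,0,[(5,5)])],[3])],[5,4,3],false,3,3,[4,5]),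
    (true,[([(0,10,[(5,6),(5,5),(4,4)])],[])],[4,4,3,3],false,2,3,[4]),
    (true,[([(0,10,[(5,6),(5,5),(3,4)])],[]),([(0,4,[(4,4)])],[2,1])],[4,3],false,2,1,[]),
    (true,[([(0,0,[(5,6)])],[2]),([(0,8,[(5,5),(5,5)])],[4])],[4,3],false,2,2,[3]),
    (true,[([(0,0,[(5,6)])],[2]),([(0,8,[(5,5),(5,5)])],[4]),([(0,3,[(3,3)])],[2,2])],[],false,1,0,[]),
    (true,[([(0,0,[(5,6)])],[2]),([(0,0,[(6,6)])],[3])],[5,4,3],false,3,3,[5,6]),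
    (true,[([(0,0,[(5,6)])],[3]),([(0,13,[(6,6),(4,5)])],[])],[5,4],false,2,2,[3]),
    (true,[([(0,8,[(5,6),(3,3)])],[4]),([(0,13,[(6,6),(4,5)])],[])],[4],false,1,0,[]),
    (true,[([(0,0,[(5,6)])],[2]),([(0,0,[(6,6)])],[3]),([(0,0,[(6,6)])],[3,3])],[],false,1,0,[]),
    (true,[([(0,2,[(7,8)])],[3])],[5,4,3,3,2,1],false,4,3,[6,8]),
    (true,[([(0,2,[(7,8)])],[1]),([(0,0,[(5,6)])],[2])],[5,4,3],false,3,3,[5]),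
    (false,[([(0,2,[(7,8)]),(0,0,[(5,6)]),(0,0,[(4,5)])],[])],[8,1],false,2,1,[]),
    (true,[([(0,2,[(7,8)])],[]),([(0,2,[(7,8)])],[3])],[5,4,1],false,3,1,[]),
    (true,[([(0,13,[(9,11)])],[])],[5,4,4,3,2],false,4,2,[6,7]),
    (true,[([(0,13,[(9,11)])],[]),([(0,0,[(5,6)])],[3])],[5,4],false,2,2,[3]),
    (true,[([(0,13,[(9,11)])],[]),([(0,8,[(5,6),(3,3)])],[4])],[4],false,1,0,[]),
    (false,[([(0,13,[(9,11)]),(0,2,[(7,7)])],[3,3])],[4],false,1,0,[]),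
    (true,[([(0,10,[(12,15)])],[])],[4,4,3,3],false,2,3,[3,4]),
    (true,[([(0,10,[(12,15)])],[]),([(0,3,[(3,3)])],[2,2])],[4,3],false,2,1,[]),
    (true,[([(0,10,[(12,15)])],[]),([(0,4,[(4,4)])],[2])],[4,4],false,1,0,[])]),
  ([9,8,7,4,2], [
    (false,[],[9,8,7,4,2],false,4,6,[6,10,15]),
    (true,[([(0,0,[(5,6)])],[])],[5,5,4,4,3,3],false,3,6,[5,6]),
    (false,[([(0,0,[(5,6)]),(0,1,[(4,5)])],[2])],[9,8],false,2,7,[3,5]),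
    (true,[([(0,0,[(5,6)]),(0,3,[(3,3)])],[]),([(0,0,[(4,5)])],[3])],[5,4,3],false,3,3,[]),
    (false,[([(0,0,[(5,6)]),(0,8,[(4,5),(4,5)])],[4,2])],[8],false,1,0,[2,3,4,5]),
    (true,[([(0,0,[(5,6)]),(0,3,[(2,2)])],[]),([(0,8,[(4,5),(4,5)])],[4])],[4,3],false,2,3,[]),
    (true,[([(0,0,[(5,6)]),(0,3,[(3,3)])],[]),([(0,8,[(4,5),(4,5)])],[4])],[4,3],false,2,2,[3]),
    (true,[([(0,0,[(5,6)]),(0,3,[(3,3)])],[]),([(0,8,[(4,5),(4,5)])],[4]),([(0,3,[(3,3)])],[2,2])],[],false,1,0,[]),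
    (true,[([(0,10,[(5,6),(4,5),(4,4)])],[]),([(0,1,[(4,5)])],[3,3])],[4],false,1,0,[2]),
    (true,[([(0,0,[(5,6)]),(0,3,[(2,2)])],[]),([(0,8,[(4,5),(4,5)])],[4]),([(0,4,[(4,4)])],[2,1])],[],false,1,0,[]),
    (true,[([(0,0,[(5,6)])],[3,3]),([(0,10,[(4,5),(4,5),(5,5)])],[])],[3],false,1,0,[]),
    (true,[([(0,0,[(5,6)])],[]),([(0,0,[(6,6)])],[3,3])],[5,4,3],false,3,3,[6]),
    (true,[([(0,0,[(5,6)])],[]),([(0,0,[(6,6)])],[3,3]),([(0,0,[(4,6)])],[3,3])],[],false,1,0,[3]),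
    (true,[([(0,10,[(5,6),(6,6),(2,3)])],[]),([(0,0,[(4,6)])],[3,3])],[3],false,1,0,[2]),
    (false,[([(0,0,[(5,6)]),(0,2,[(6,6),(2,2)]),(0,0,[(4,6)])],[]),([(0,3,[(2,3)])],[2,1,1,1,1,1])],[],false,1,0,[]),
    (true,[([(0,8,[(7,10)])],[3])],[5,4,3,3,2],false,4,2,[6,8,9]),
    (false,[([(0,8,[(7,10)]),(0,0,[(5,6)])],[4,2])],[8],false,1,0,[2,3,4,5]),
    (true,[([(0,8,[(7,10)])],[4]),([(0,0,[(5,6)]),(0,3,[(2,2)])],[])],[4,3],false,2,3,[]),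
    (true,[([(0,8,[(7,10)])],[4]),([(0,0,[(5,6)]),(0,3,[(3,3)])],[])],[4,3],false,2,2,[3]),
    (true,[([(0,8,[(7,10)])],[4]),([(0,0,[(5,6)]),(0,3,[(3,3)])],[]),([(0,3,[(3,3)])],[2,2])],[],false,1,0,[]),
    (false,[([(0,8,[(7,10)]),(0,8,[(5,6),(4,4)])],[2])],[8],false,1,0,[2]),
    (true,[([(0,8,[(7,10)])],[4]),([(0,0,[(5,6)]),(0,3,[(2,2)])],[]),([(0,4,[(4,4)])],[2,1])],[],false,1,0,[]),
    (true,[([(0,10,[(7,10),(5,5)])],[]),([(0,0,[(5,6)])],[3,3])],[3],false,1,0,[]),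
    (true,[([(0,8,[(7,10)])],[]),([(0,2,[(7,8)])],[3,1])],[5,3],false,2,2,[3]),
    (true,[([(0,8,[(7,10)])],[4]),([(0,13,[(7,8),(3,3)])],[])],[5],false,1,0,[]),
    (false,[([(0,8,[(7,10)]),(0,5,[(9,9)])],[4,3])],[4],false,1,0,[]),
    (true,[([(0,10,[(11,15)])],[])],[5,4,3,3],false,3,4,[4,5]),
    (true,[([(0,10,[(11,15)])],[]),([(0,4,[(4,4)])],[2])],[5,4],false,2,1,[]),
    (true,[([(0,10,[(11,15)])],[]),([(0,1,[(5,5)])],[3,3])],[4],false,1,0,[])]),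
  ([9,9,4,3,2,1], [
    (false,[],[9,9,4,3,2,1],true,5,3,[7,10,13,15]),
    (false,[([(0,7,[(6,7)])],[3,2,1,1,1])],[9,4],false,1,0,[3,6,7]),
    (false,[([(0,8,[(6,7),(2,3)])],[])],[9,9],false,1,0,[2,3]),
    (false,[([(0,8,[(6,7),(2,3)]),(0,3,[(2,2)])],[1,1,1])],[9,3],false,1,0,[2]),
    (false,[([(0,7,[(6,7)]),(1,0,[(2,3),(2,2)]),(0,3,[(2,2)])],[])],[9,3],true,2,6,[]),
    (false,[([(0,8,[(6,7),(2,3)]),(0,3,[(3,3)])],[1,1,1])],[9,3],true,2,6,[3]),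
    (false,[([(0,7,[(6,7)]),(0,0,[(2,3),(3,3)]),(0,3,[(3,3)])],[])],[9,3],true,2,4,[3]),
    (true,[([(0,7,[(6,7)])],[4]),([(0,0,[(2,3),(3,3)]),(0,0,[(3,3),(3,3)])],[])],[3,2],false,2,2,[3]),
    (false,[([(0,8,[(6,7),(2,3)]),(0,3,[(3,3)])],[1,1,1]),([(0,3,[(3,3)]),(0,3,[(3,3)]),(0,3,[(3,3)])],[1,1,1])],[],false,1,0,[]),
    (false,[([(0,7,[(6,7)]),(0,0,[(4,6)])],[2,1])],[9,3],true,2,6,[3,4,6]),
    (false,[([(0,7,[(6,7)]),(0,0,[(4,6)]),(0,3,[(3,3)])],[])],[9,3],true,2,4,[3]),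
    (true,[([(0,7,[(6,7)])],[4]),([(0,0,[(4,6)]),(0,0,[(3,3),(3,3)])],[])],[3,2],false,2,2,[3]),
    (true,[([(0,7,[(6,7)])],[4]),([(0,0,[(4,6)]),(0,0,[(3,3),(3,3)])],[]),([(0,3,[(3,3)])],[2])],[],false,1,0,[]),
    (false,[([(0,7,[(6,7)]),(0,8,[(4,6),(4,4)])],[1])],[9,1],false,1,0,[2,3,4]),
    (true,[([(0,7,[(6,7)])],[4]),([(0,0,[(4,6)]),(0,0,[(4,4),(2,2)])],[])],[3,2],false,2,2,[]),
    (false,[([(0,7,[(6,7)]),(0,8,[(4,6),(4,4)])],[1]),([(0,3,[(3,3)])],[1,1,1,1,1,1,1])],[],false,1,0,[2]),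
    (true,[([(0,7,[(6,7)])],[4]),([(0,0,[(4,6)]),(0,0,[(4,4),(2,2)])],[]),([(0,3,[(3,3)])],[2])],[],false,1,0,[]),
    (false,[([(0,7,[(6,7)]),(0,0,[(4,6)])],[1,1]),([(0,4,[(4,4)]),(0,4,[(4,4)])],[1,1,1,1,1])],[],false,1,0,[]),
    (true,[([(0,7,[(6,7)])],[4]),([(0,0,[(4,6)]),(0,0,[(5,6)])],[])],[3,2],false,2,2,[3]),
    (true,[([(0,7,[(6,7)])],[4]),([(0,0,[(4,6)]),(0,0,[(5,6)])],[]),([(0,3,[(3,3)])],[2])],[],false,1,0,[]),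
    (false,[([(0,7,[(6,7)]),(0,2,[(7,7)])],[1,1])],[9,2],true,2,3,[3,4]),
    (false,[([(0,8,[(6,7),(3,3)]),(0,7,[(7,7)])],[1])],[9,1],false,2,1,[]),
    (true,[([(0,10,[(6,7),(7,7)])],[5]),([(0,4,[(4,4)])],[])],[2,2],false,1,0,[]),
    (false,[([(0,23,[(8,10)])],[4,3,1,1])],[9],false,1,0,[2,3,4,5,7,8]),
    (false,[([(0,8,[(8,10)]),(0,3,[(2,2)])],[1,1,1])],[9,3],true,2,6,[]),
    (false,[([(0,8,[(8,10)]),(0,3,[(3,3)])],[1,1,1])],[9,3],true,2,5,[3]),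
    (true,[([(0,23,[(8,10)])],[5]),([(0,3,[(3,3)]),(0,3,[(3,3)])],[])],[5,2],true,2,3,[3]),
    (true,[([(0,23,[(8,10)])],[5]),([(0,3,[(3,3)]),(0,3,[(3,3)])],[]),([(0,3,[(3,3)])],[2,1,1])],[],false,1,0,[2]),
    (false,[([(0,8,[(8,10)]),(0,1,[(3,3),(2,2)])],[1,1]),([(0,3,[(3,3)]),(0,3,[(3,3)])],[1,1,1,1,1])],[],false,1,0,[]),
    (true,[([(0,23,[(8,10)])],[5]),([(0,4,[(4,4)])],[])],[5,4],false,2,4,[3,4]),
    (false,[([(0,8,[(8,10)]),(0,7,[(4,4),(3,3)])],[1])],[9,1],true,2,2,[3]),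
    (false,[([(0,8,[(8,10)]),(0,7,[(4,4),(3,3)])],[1]),([(0,3,[(3,3)])],[1,1,1,1,1,1,1])],[],false,1,0,[]),
    (true,[([(0,10,[(8,10),(4,4)])],[5]),([(0,4,[(4,4)])],[])],[2,2],false,1,0,[2]),
    (true,[([(0,18,[(8,10),(2,2)])],[5]),([(0,4,[(4,4)])],[]),([(0,4,[(4,4)])],[1,1,1])],[],false,1,0,[]),
    (false,[([(0,8,[(8,10)]),(0,1,[(5,5)])],[1,1])],[9,2],true,2,3,[3,4]),
    (false,[([(0,8,[(8,10)]),(0,1,[(5,5)])],[1,1]),([(0,3,[(3,3)])],[2,1,1,1,1,1,1])],[],false,1,0,[2]),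
    (false,[([(0,8,[(8,10)]),(0,7,[(5,5),(2,2)])],[1]),([(0,3,[(3,3)])],[1,1,1,1,1,1,1])],[],false,1,0,[]),
    (true,[([(0,10,[(8,10),(5,5)])],[5]),([(0,4,[(4,4)])],[])],[2,2],false,1,0,[]),
    (false,[([(0,8,[(8,10)]),(0,7,[(6,7)])],[1])],[9,1],true,2,2,[3]),
    (false,[([(0,8,[(8,10)]),(0,7,[(6,7)])],[1]),([(0,3,[(3,3)])],[1,1,1,1,1,1,1])],[],false,1,0,[]),
    (true,[([(0,23,[(8,10)])],[5]),([(0,2,[(8,8)])],[2,1])],[2],false,1,0,[]),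
    (true,[([(0,9,[(11,13)])],[1])],[6,2,2,2,2],false,2,4,[3,5]),
    (true,[([(0,9,[(11,13)]),(0,3,[(3,3)])],[])],[4,2,2,2,2],false,2,2,[3]),
    (true,[([(0,9,[(11,13)]),(0,3,[(3,3)])],[]),([(0,3,[(3,3)])],[2,1])],[2,2,2],false,1,0,[]),
    (true,[([(0,9,[(11,13)])],[1]),([(0,1,[(4,5)])],[3,1,1])],[2,2],false,1,0,[2]),
    (true,[([(0,9,[(11,13)]),(0,3,[(2,2)])],[]),([(0,1,[(4,5)])],[3])],[2,2],false,1,0,[]),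
    (false,[([(0,12,[(14,15)])],[2,2,2,2,2])],[2,1],false,2,1,[])]),
  ([10,4,3,3,3,2,2,1], [
    (false,[],[10,4,3,3,3,2,2,1],false,4,4,[6,10,13,15]),
    (false,[([(0,0,[(5,6)])],[])],[10,4,3,3,2],false,3,6,[5,6]),
    (true,[([(0,0,[(5,6)]),(0,0,[(4,5)])],[2])],[8,1,1,1,1,1,1],true,2,7,[3,5]),
    (false,[([(0,0,[(5,6)]),(0,1,[(4,5)]),(0,3,[(3,3)])],[1,1])],[3,3,3,2,1],true,3,3,[]),
    (false,[([(0,0,[(5,6)]),(0,1,[(4,5)]),(0,1,[(4,5)])],[1])],[3,3,2,2,1],true,3,2,[5]),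
    (false,[([(0,0,[(5,6)]),(0,1,[(4,5)]),(0,1,[(4,5)])],[1]),([(0,0,[(4,5)])],[])],[3,2],false,2,1,[]),
    (true,[([(0,24,[(5,6),(6,6)])],[1])],[8,5,1,1],false,3,2,[6]),
    (true,[([(0,24,[(5,6),(6,6)])],[1]),([(0,0,[(4,6)])],[2,2,2,1,1])],[1],false,1,0,[3]),
    (true,[([(0,24,[(5,6),(6,6)])],[1]),([(0,0,[(4,6)]),(0,3,[(2,3)])],[2,2,1])],[1],false,1,0,[2]),
    (true,[([(0,24,[(5,6),(6,6)])],[1]),([(0,0,[(4,6)]),(0,3,[(2,3)]),(0,3,[(2,2)])],[2])],[1],false,1,0,[]),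
    (false,[([(0,8,[(7,10)])],[])],[10,3,3,2],false,2,8,[3,4,5,7,9]),
    (true,[([(0,8,[(7,10)]),(0,3,[(3,3)])],[2])],[8,1,1,1,1,1],true,2,6,[3]),
    (true,[([(0,8,[(7,10)]),(0,3,[(3,3)]),(0,3,[(3,3)])],[])],[7,1,1,1,1,1],false,2,4,[3]),
    (false,[([(0,8,[(7,10)])],[]),([(0,3,[(3,3)]),(0,3,[(3,3)]),(0,3,[(3,3)])],[1,1,1,1])],[3,2],false,2,2,[3]),
    (false,[([(0,8,[(7,10)])],[]),([(0,3,[(3,3)]),(0,3,[(3,3)]),(0,3,[(3,3)])],[1,1,1,1]),([(0,3,[(3,3)])],[2])],[],false,1,0,[]),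
    (true,[([(0,8,[(7,10)]),(0,4,[(4,4)])],[1])],[8,1,1,1,1,1],false,2,5,[3,4]),
    (false,[([(0,8,[(7,10)]),(0,7,[(4,4),(3,3)])],[1,1])],[3,3,2,1],false,3,1,[]),
    (true,[([(0,8,[(7,10)]),(0,4,[(4,4)]),(0,4,[(4,4)])],[])],[5,1,1,1,1,1],false,2,2,[3]),
    (false,[([(0,8,[(7,10)]),(0,7,[(4,4),(3,3)])],[1,1]),([(0,4,[(4,4)])],[1])],[3,1],false,1,0,[]),
    (false,[([(0,8,[(7,10)]),(0,1,[(5,5)])],[1,1,1])],[3,3,2,2],false,2,4,[3,5]),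
    (false,[([(0,8,[(7,10)]),(0,1,[(5,5)])],[1,1,1]),([(0,3,[(3,3)])],[2])],[3,2],false,2,2,[3]),
    (false,[([(0,8,[(7,10)])],[]),([(0,1,[(5,5)]),(0,0,[(3,3),(3,3)])],[1,1,1,1])],[3],false,1,0,[]),
    (false,[([(0,8,[(7,10)])],[]),([(0,1,[(5,5)]),(0,1,[(4,5)])],[2,1,1,1])],[3],false,1,0,[2]),
    (false,[([(0,8,[(7,10)]),(0,7,[(5,5),(2,2)])],[1,1]),([(0,0,[(4,5)])],[])],[3],false,1,0,[]),
    (false,[([(0,8,[(7,10)]),(0,7,[(6,7)])],[1,1])],[3,3,2,1],false,3,1,[4]),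
    (false,[([(0,8,[(7,10)]),(0,7,[(6,7)])],[1,1]),([(0,4,[(4,4)])],[1])],[3,1],false,1,0,[]),
    (false,[([(0,8,[(7,10)]),(0,25,[(8,9)])],[1])],[3,3,2],false,2,1,[]),
    (false,[([(0,9,[(11,13)])],[1,1,1,1,1,1])],[3,3,2,1],true,3,2,[4,5]),
    (false,[([(0,9,[(11,13)])],[1,1,1,1,1,1]),([(0,4,[(4,4)])],[1])],[3,1],false,2,1,[]),
    (true,[([(0,9,[(11,13)]),(0,0,[(5,5)])],[3])],[1,1,1,1,1,1],false,1,0,[]),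
    (false,[([(0,10,[(14,15)])],[1,1,1,1,1])],[3,3,2],false,2,1,[])]),
  ([10,4,4,4,3,2,1], [
    (false,[],[10,4,4,4,3,2,1],true,5,4,[8,11,13,15]),
    (false,[([(0,14,[(6,8)])],[3,1,1,1,1,1])],[4,4,4],false,1,0,[2,3,4,5,6,8]),
    (false,[([(0,8,[(6,8),(2,2)])],[])],[10,4,4],false,2,8,[]),
    (true,[([(0,14,[(6,8)]),(0,3,[(3,3)])],[2])],[6,5,1,1,1,1],false,3,4,[]),
    (true,[([(0,14,[(6,8)]),(0,4,[(4,4)])],[])],[7,5,1,1,1,1],false,3,4,[4]),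
    (true,[([(0,14,[(6,8)]),(0,4,[(4,4)])],[]),([(0,1,[(4,4)])],[1,1])],[7,1,1],true,2,3,[4]),
    (true,[([(0,14,[(6,8)]),(0,4,[(4,4)])],[]),([(0,14,[(4,4),(3,4)])],[2,2,2])],[1,1],false,1,0,[2]),
    (true,[([(0,14,[(6,8)]),(0,4,[(4,4)])],[]),([(0,4,[(4,4)]),(0,0,[(3,4),(2,2)])],[2,1])],[1,1,1],false,1,0,[]),
    (false,[([(0,14,[(6,8)]),(0,1,[(5,5)])],[1,1,1])],[4,4,4],false,1,0,[2,3,5]),
    (false,[([(0,8,[(6,8),(2,2)]),(0,1,[(5,5)])],[1,1,1])],[4,4,2],true,2,4,[]),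
    (false,[([(0,14,[(6,8)]),(0,1,[(5,5)]),(0,3,[(3,3)])],[1])],[4,4,3],false,2,3,[3]),
    (false,[([(0,14,[(6,8)]),(0,1,[(5,5)]),(0,3,[(3,3)])],[1]),([(0,3,[(3,3)])],[2,2])],[4],false,1,0,[2]),
    (false,[([(0,8,[(6,8),(2,2)]),(0,1,[(5,5)])],[1,1,1]),([(0,3,[(3,3)]),(0,3,[(3,3)])],[])],[4],false,1,0,[]),
    (false,[([(0,14,[(6,8)]),(0,1,[(5,5)]),(0,1,[(4,5)])],[])],[4,4,2],false,2,2,[3]),
    (false,[([(0,14,[(6,8)]),(0,1,[(5,5)]),(0,1,[(4,5)])],[]),([(0,3,[(3,3)])],[2,1])],[4],false,1,0,[]),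
    (false,[([(0,10,[(6,8),(6,6)])],[1,1,1,1,1])],[4,4],false,1,0,[2,3,4,5]),
    (false,[([(0,8,[(6,8),(2,2)]),(0,7,[(6,6)])],[1,1])],[4,4,1],true,2,3,[]),
    (true,[([(0,14,[(6,8)]),(0,3,[(3,3)])],[2]),([(0,7,[(6,6)])],[1])],[6,1],true,2,2,[3]),
    (true,[([(0,14,[(6,8)]),(0,3,[(3,3)])],[2]),([(0,25,[(6,6),(3,3)])],[])],[6],false,1,0,[]),
    (true,[([(0,14,[(6,8)]),(0,4,[(4,4)])],[]),([(0,7,[(6,6)])],[1])],[7,1],false,2,1,[]),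
    (true,[([(0,14,[(6,8)])],[3,3,3]),([(0,29,[(6,6),(5,5)])],[])],[],false,1,0,[]),
    (true,[([(0,14,[(6,8)])],[2,2]),([(0,14,[(7,8)])],[2,2,2])],[1,1],false,1,0,[2,3,4]),
    (true,[([(0,8,[(6,8),(2,2)]),(0,2,[(7,8)])],[])],[5,1,1,1,1,1],false,2,2,[]),
    (false,[([(0,14,[(6,8)]),(0,3,[(3,3)])],[3,1,1,1]),([(0,2,[(7,8)])],[3])],[],false,1,0,[2]),
    (true,[([(0,8,[(6,8),(2,2)]),(0,2,[(7,8)])],[]),([(0,3,[(3,3)])],[1,1,1])],[1,1,1,1],false,1,0,[]),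
    (true,[([(0,14,[(6,8)]),(0,4,[(4,4)])],[]),([(0,14,[(7,8)])],[2,2,2])],[1,1],false,1,0,[]),
    (true,[([(0,13,[(9,11)])],[3,2])],[7,1,1,1,1,1],true,2,6,[3,6,7]),
    (false,[([(0,13,[(9,11)]),(0,3,[(3,3)])],[1,1,1,1])],[4,4,2],true,2,4,[3]),
    (true,[([(0,13,[(9,11)]),(0,0,[(3,3),(3,3)])],[])],[6,1,1,1,1,1],false,2,2,[3]),
    (true,[([(0,13,[(9,11)]),(0,0,[(3,3),(3,3)])],[]),([(0,3,[(3,3)])],[1,1,1,1])],[1,1,1,1],false,1,0,[]),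
    (true,[([(0,13,[(9,11)]),(0,0,[(4,6)])],[])],[6,1,1,1,1,1],false,2,3,[3,4]),
    (true,[([(0,13,[(9,11)]),(0,0,[(4,6)])],[]),([(0,3,[(3,3)])],[1,1,1,1])],[1,1,1,1],false,1,0,[2]),
    (true,[([(0,13,[(9,11)]),(0,0,[(4,6)])],[]),([(0,1,[(3,3),(2,2)])],[1,1,1])],[1,1,1],false,1,0,[]),
    (true,[([(0,13,[(9,11)]),(0,0,[(4,6)])],[]),([(0,1,[(4,4)])],[1,1,1])],[1,1,1],false,1,0,[]),
    (false,[([(0,13,[(9,11)]),(0,7,[(7,7)])],[1,1])],[4,3,1],false,1,0,[]),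
    (true,[([(0,30,[(12,13)])],[])],[6,5,4],false,3,3,[4]),
    (false,[([(0,15,[(12,13),(4,4)])],[1,1,1,1,1])],[4,2],false,1,0,[]),
    (false,[([(0,12,[(14,15)])],[])],[10,2,1],false,2,1,[])])]

theorem cj5d_7_ok : runAllJ S38 R38 F38 14 cj5d_7 = true := by decide +kernel

noncomputable def cj5d_8 : List (List ℕ × List NdJ) := [
  ([10,5,3,3,2,2,2,1], [
    (false,[],[10,5,3,3,2,2,2,1],true,5,4,[8,12,15]),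
    (true,[([(0,14,[(6,8)])],[])],[8,7,2,1,1,1],false,3,5,[6,8]),
    (true,[([(0,14,[(6,8)]),(0,0,[(4,6)])],[])],[8,2,1,1,1,1],false,2,6,[3,5,6]),
    (false,[([(0,14,[(6,8)]),(0,0,[(4,6)]),(0,3,[(3,3)])],[1])],[3,3,2,2],false,2,4,[3]),
    (false,[([(0,14,[(6,8)]),(0,0,[(4,6)]),(0,3,[(3,3)])],[1]),([(0,3,[(3,3)])],[2])],[3,2],false,2,2,[3]),
    (false,[([(0,14,[(6,8)]),(1,1,[(3,3),(3,3),(3,3)])],[1,1]),([(0,0,[(4,6)])],[])],[2],false,1,0,[]),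
    (false,[([(0,14,[(6,8)]),(0,0,[(4,6)]),(0,1,[(4,5)])],[])],[3,2,2,2],false,2,3,[3,4]),
    (true,[([(0,14,[(6,8)]),(0,0,[(4,6)])],[]),([(0,14,[(4,5),(3,3)])],[1,1,1,1])],[1,1],false,1,0,[2]),
    (false,[([(0,8,[(6,8),(2,2)]),(0,14,[(4,5),(3,3)])],[1,1]),([(0,0,[(4,6)])],[])],[2],false,1,0,[]),
    (false,[([(0,14,[(6,8)]),(0,8,[(4,6),(4,4)])],[1,1]),([(0,0,[(4,5)])],[])],[2],false,1,0,[]),
    (false,[([(0,14,[(6,8)]),(0,18,[(4,6),(6,6)])],[1])],[3,2,2],false,2,1,[]),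
    (false,[([(0,14,[(6,8)]),(0,14,[(7,8)])],[2,1])],[3,3,2,1],false,3,1,[4]),
    (false,[([(0,18,[(6,8),(4,4)]),(0,14,[(7,8)])],[1])],[3,2,2],false,1,0,[]),
    (true,[([(0,18,[(9,12)])],[2,1])],[8,2,1,1,1],true,2,6,[3,4,6,7]),
    (true,[([(0,18,[(9,12)]),(0,3,[(3,3)])],[])],[8,2,1,1,1],false,3,2,[]),
    (false,[([(0,18,[(9,12)])],[4,2,1,1,1]),([(0,4,[(4,4)])],[])],[3],false,1,0,[3,4]),
    (false,[([(0,18,[(9,12)]),(0,3,[(2,3)])],[4,1,1]),([(0,4,[(4,4)])],[])],[3],false,1,0,[2,3]),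
    (false,[([(0,18,[(9,12)]),(0,3,[(2,3)])],[5,1,1]),([(0,0,[(4,4),(2,2)])],[])],[],false,1,0,[2]),
    (false,[([(0,18,[(9,12)]),(0,14,[(4,4),(2,2),(2,2)])],[1]),([(0,3,[(2,3)])],[2])],[2],false,1,0,[]),
    (true,[([(0,10,[(9,12),(3,3)]),(0,4,[(4,4)])],[3]),([(0,3,[(2,3)])],[])],[1,1,1],false,1,0,[]),
    (false,[([(0,18,[(9,12)]),(0,14,[(4,4),(4,4)])],[1])],[3,2,2],false,1,0,[]),
    (false,[([(0,18,[(9,12)])],[5,2,1,1,1]),([(0,0,[(5,6)])],[])],[],false,1,0,[3]),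
    (false,[([(0,18,[(9,12)]),(0,3,[(2,3)])],[5,1,1]),([(0,0,[(5,6)])],[])],[],false,1,0,[2]),
    (false,[([(0,18,[(9,12)]),(0,14,[(5,6),(2,2)])],[1]),([(0,3,[(2,3)])],[2])],[2],false,1,0,[]),
    (false,[([(0,20,[(9,12),(7,7)])],[1,1,1,1])],[3,2],false,1,0,[]),
    (true,[([(0,31,[(13,15)])],[2])],[7,2,1],false,3,1,[])]),
  ([10,5,5,4,3,1], [
    (false,[],[10,5,5,4,3,1],true,5,3,[8,11,15]),
    (true,[([(0,14,[(6,8)])],[2])],[6,5,4,1,1,1],false,4,3,[5,7,8]),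
    (true,[([(0,14,[(6,8)])],[2]),([(0,1,[(5,5)])],[1,1])],[6,4,1],true,3,2,[5]),
    (false,[([(0,14,[(6,8)]),(0,1,[(5,5)]),(0,0,[(4,5)])],[])],[5,4],false,2,2,[3]),
    (false,[([(0,14,[(6,8)]),(0,1,[(5,5)]),(0,0,[(4,5)])],[]),([(0,3,[(3,3)])],[2,2,2])],[],false,1,0,[]),
    (true,[([(0,10,[(6,8),(6,7)])],[4])],[5,1,1,1,1],false,2,4,[3,4,5]),
    (true,[([(0,14,[(6,8)]),(0,3,[(3,3)])],[]),([(0,7,[(6,7)])],[1])],[5,4],false,2,2,[3]),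
    (true,[([(0,14,[(6,8)]),(0,3,[(3,3)])],[]),([(0,7,[(6,7)])],[1]),([(0,3,[(3,3)])],[2,2,2])],[],false,1,0,[]),
    (true,[([(0,14,[(6,8)]),(0,4,[(4,4)])],[]),([(0,7,[(6,7)])],[1])],[5,3],false,2,1,[]),
    (true,[([(0,10,[(6,8),(6,7)])],[4]),([(0,1,[(5,5)])],[1,1])],[1,1],false,1,0,[]),
    (true,[([(0,14,[(6,8)])],[2]),([(0,14,[(8,8)])],[2,2])],[5,1],true,2,2,[3]),
    (true,[([(0,14,[(6,8)])],[2]),([(0,13,[(8,8),(3,3)])],[3,2])],[1,1],false,1,0,[]),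
    (true,[([(0,13,[(9,11)])],[2])],[6,5,1,1,1,1],false,3,4,[6,7]),
    (false,[([(0,13,[(9,11)]),(0,0,[(4,6)])],[1,1,1])],[5,3],false,2,3,[3,4]),
    (false,[([(0,13,[(9,11)]),(0,0,[(4,6)])],[1,1,1]),([(0,3,[(3,3)])],[2,2,1])],[],false,1,0,[2]),
    (false,[([(0,13,[(9,11)]),(0,0,[(4,6)])],[1,1,1]),([(0,3,[(3,3)]),(0,3,[(2,2)])],[2])],[],false,1,0,[]),
    (false,[([(0,13,[(9,11)]),(0,0,[(4,6)])],[1,1,1]),([(0,4,[(4,4)])],[2,1,1])],[],false,1,0,[]),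
    (false,[([(0,13,[(9,11)]),(0,7,[(7,7)])],[4,1])],[4,1],false,1,0,[]),
    (true,[([(0,10,[(12,15)])],[4])],[5,1,1,1,1],false,2,3,[3,4]),
    (true,[([(0,10,[(12,15)])],[4]),([(0,3,[(3,3)])],[1,1,1])],[1,1,1],false,1,0,[2]),
    (true,[([(0,10,[(12,15)])],[4]),([(0,1,[(3,3),(2,2)])],[1,1])],[1,1],false,1,0,[]),
    (true,[([(0,10,[(12,15)])],[4]),([(0,1,[(4,4)])],[1,1])],[1,1],false,1,0,[])]),
  ([10,6,5,2,2,1,1,1], [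
    (false,[],[10,6,5,2,2,1,1,1],false,5,3,[8,12,15]),
    (false,[([(0,14,[(6,8)])],[1])],[10,6,2,1],true,4,3,[6,8]),
    (false,[([(0,14,[(6,8)]),(0,0,[(5,6)])],[2,1,1])],[6,2,1,1],true,3,2,[6]),
    (true,[([(0,14,[(6,8)]),(0,0,[(5,6)])],[3]),([(0,0,[(4,6)])],[])],[3,1,1],false,2,2,[3]),
    (false,[([(0,14,[(6,8)]),(0,0,[(5,6)]),(0,3,[(3,3)])],[1]),([(0,0,[(4,6)])],[1,1,1])],[1],false,1,0,[]),
    (true,[([(0,14,[(6,8)]),(0,2,[(7,8)])],[1])],[3,3,2,1,1,1],false,3,2,[4]),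
    (true,[([(0,18,[(6,8),(4,4)])],[]),([(0,14,[(7,8)])],[2,1,1,1])],[3],false,1,0,[]),
    (true,[([(0,18,[(9,12)])],[])],[8,3,3,1,1],true,3,5,[6,7]),
    (true,[([(0,18,[(9,12)]),(0,0,[(4,6)])],[])],[3,3,2,1,1],false,3,2,[4]),
    (true,[([(0,18,[(9,12)]),(0,0,[(4,6)])],[]),([(0,4,[(4,4)])],[1])],[3,1,1],false,1,0,[]),
    (false,[([(0,27,[(9,12),(7,7)])],[3,3,1])],[2],false,1,0,[]),
    (true,[([(0,21,[(13,15)])],[1,1])],[5,3,2,1],false,3,2,[])]),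
  ([10,6,5,4,1,1,1], [
    (false,[],[10,6,5,4,1,1,1],false,5,3,[8,12,15]),
    (true,[([(0,14,[(6,8)])],[])],[7,4,4,3,1,1],true,4,3,[6,8]),
    (true,[([(0,14,[(6,8)]),(0,0,[(5,6)])],[])],[4,4,3,1,1,1],false,3,3,[6]),
    (true,[([(0,14,[(6,8)]),(0,0,[(5,6)])],[]),([(0,0,[(4,6)])],[2])],[4,1,1],false,2,2,[3]),
    (true,[([(0,14,[(6,8)]),(0,0,[(5,6)])],[]),([(0,0,[(4,6)])],[2]),([(0,3,[(3,3)])],[1,1])],[1],false,1,0,[]),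
    (true,[([(0,14,[(6,8)])],[]),([(0,14,[(7,8)])],[2,2,1])],[4,3],false,2,3,[4]),
    (true,[([(0,14,[(6,8)])],[]),([(0,18,[(7,8),(3,4)])],[3,1])],[4],false,1,0,[2]),
    (true,[([(0,14,[(6,8)]),(0,0,[(3,4),(2,2)])],[]),([(0,2,[(7,8)])],[3])],[1,1,1],false,1,0,[]),
    (true,[([(0,18,[(9,12)])],[3,1])],[4,4,2,1,1],true,3,3,[5,6,7]),
    (true,[([(0,18,[(9,12)])],[2,1]),([(0,1,[(4,5)])],[1])],[4,3],false,2,3,[3,4]),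
    (true,[([(0,10,[(9,12),(3,3)])],[1,1]),([(0,1,[(4,5)])],[1])],[4,1],false,2,1,[]),
    (true,[([(0,18,[(9,12)])],[1,1]),([(0,1,[(4,5)])],[1]),([(0,4,[(4,4)])],[2,2])],[],false,1,0,[]),
    (false,[([(0,18,[(9,12)]),(0,0,[(6,6)])],[3,1])],[5,1],false,2,1,[]),
    (false,[([(0,27,[(9,12),(7,7)])],[4,4,1])],[],false,1,0,[]),
    (true,[([(0,21,[(13,15)])],[2])],[4,4,2,1],false,3,1,[])]),
  ([10,6,5,4,3], [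
    (false,[],[10,6,5,4,3],false,5,3,[8,12,15]),
    (true,[([(0,14,[(6,8)])],[])],[5,5,5,3,1,1],true,3,6,[6,8]),
    (false,[([(0,14,[(6,8)]),(0,0,[(4,6)])],[4,4,1])],[5],false,1,0,[2,3,4,5,6]),
    (true,[([(0,14,[(6,8)])],[1]),([(0,0,[(4,6)]),(0,3,[(2,2)])],[])],[5,4,1],false,2,5,[]),
    (true,[([(0,14,[(6,8)])],[1]),([(0,0,[(4,6)]),(0,3,[(3,3)])],[])],[5,4,1],false,2,4,[3]),
    (true,[([(0,14,[(6,8)])],[1]),([(0,0,[(4,6)])],[2,1]),([(0,0,[(3,3),(3,3)])],[2,2])],[],false,1,0,[2,3]),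
    (true,[([(0,14,[(6,8)])],[1]),([(0,0,[(4,6)]),(0,3,[(2,2)])],[]),([(0,0,[(3,3),(3,3)])],[2,2])],[],false,1,0,[2]),
    (true,[([(0,8,[(6,8),(2,2)])],[2]),([(0,0,[(4,6)]),(0,3,[(3,3)])],[]),([(0,1,[(3,3),(2,2)])],[1,1])],[],false,1,0,[]),
    (true,[([(0,14,[(6,8)])],[1]),([(0,0,[(4,6)]),(0,3,[(3,3)])],[]),([(0,0,[(3,3),(3,3)])],[2,2])],[],false,1,0,[]),
    (true,[([(0,14,[(6,8)])],[1]),([(0,0,[(4,6)]),(0,4,[(4,4)])],[])],[5,3,1],false,3,1,[4]),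
    (true,[([(0,18,[(6,8),(4,4)])],[]),([(0,0,[(4,6)]),(0,4,[(4,4)])],[])],[5,1],false,1,0,[]),
    (true,[([(0,14,[(6,8)])],[1]),([(0,0,[(4,6)])],[2,2]),([(0,1,[(5,5)])],[2,2])],[],false,1,0,[3]),
    (true,[([(0,14,[(6,8)])],[2]),([(0,0,[(4,6)])],[2,2]),([(0,1,[(5,5)]),(0,3,[(2,3)])],[])],[],false,1,0,[2]),
    (true,[([(0,8,[(6,8),(2,2)])],[2]),([(0,0,[(4,6)]),(0,3,[(2,3)])],[]),([(0,1,[(5,5)])],[1,1])],[],false,1,0,[]),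
    (true,[([(0,14,[(6,8)])],[1]),([(0,0,[(4,6)])],[2,1]),([(0,0,[(6,6)])],[2,2])],[],false,1,0,[2]),
    (true,[([(0,14,[(6,8)])],[1]),([(0,0,[(4,6)]),(0,3,[(2,2)])],[]),([(0,0,[(6,6)])],[2,2])],[],false,1,0,[]),
    (true,[([(0,14,[(6,8)])],[1]),([(0,14,[(7,8)])],[2])],[5,4],false,2,3,[3,4]),
    (true,[([(0,14,[(6,8)])],[1]),([(0,13,[(7,8),(3,3)])],[2])],[5,1],false,2,1,[]),
    (true,[([(0,18,[(6,8),(4,4)])],[]),([(0,2,[(7,8)])],[3,3])],[1,1],false,1,0,[]),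
    (true,[([(0,18,[(9,12)])],[])],[5,5,4,1,1],false,2,6,[3,5,6,7]),
    (true,[([(0,10,[(9,12),(3,3)])],[])],[5,5,1,1,1],true,2,4,[3]),
    (true,[([(0,10,[(9,12),(3,3)])],[]),([(0,3,[(3,3)])],[1,1,1])],[5,1,1],false,2,2,[3]),
    (true,[([(0,10,[(9,12),(3,3)])],[]),([(0,3,[(3,3)])],[1,1,1]),([(0,3,[(3,3)])],[1,1,1])],[1],false,1,0,[]),
    (true,[([(0,18,[(9,12)])],[]),([(0,1,[(4,5)])],[1,1])],[5,4],false,2,3,[3,4]),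
    (true,[([(0,10,[(9,12),(3,3)])],[]),([(0,1,[(4,5)])],[1,1])],[5,1],false,2,1,[]),
    (true,[([(0,18,[(9,12)])],[]),([(0,1,[(4,5)])],[1]),([(0,4,[(4,4)])],[2,2,2])],[],false,1,0,[]),
    (true,[([(0,18,[(9,12)])],[]),([(0,0,[(6,6)])],[2,2])],[5,1],false,2,1,[]),
    (true,[([(0,18,[(9,12)])],[]),([(0,2,[(7,7)])],[3,3])],[1,1],false,1,0,[]),
    (true,[([(0,10,[(13,15)])],[])],[5,5,1,1,1],false,2,2,[3]),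
    (true,[([(0,10,[(13,15)])],[]),([(0,3,[(3,3)])],[1,1,1])],[5,1,1],false,1,0,[])]),
  ([10,7,4,3,3,1], [
    (false,[],[10,7,4,3,3,1],true,5,3,[8,12,15]),
    (true,[([(0,14,[(6,8)])],[1])],[6,5,3,2,2,1],false,4,4,[6,8]),
    (true,[([(0,14,[(6,8)])],[1]),([(0,0,[(5,6)])],[])],[6,5,2],false,3,2,[5,6]),
    (true,[([(0,14,[(6,8)])],[1]),([(0,0,[(5,6)]),(0,1,[(4,5)])],[])],[5,2,1],false,3,1,[]),
    (false,[([(0,16,[(6,8),(6,6)]),(0,0,[(5,6)])],[4,1])],[3],false,1,0,[]),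
    (true,[([(0,14,[(6,8)])],[1]),([(0,2,[(7,8)])],[1,1])],[6,2,1],false,3,1,[4]),
    (true,[([(0,18,[(6,8),(4,4)])],[]),([(0,2,[(7,8)])],[2,2,1])],[2,1],false,1,0,[]),
    (true,[([(0,18,[(9,12)])],[])],[6,5,2,2,1],false,3,5,[6,7]),
    (true,[([(0,18,[(9,12)])],[]),([(0,0,[(4,6)])],[1,1])],[6,2],true,2,3,[3,4]),
    (true,[([(0,10,[(9,12),(3,3)])],[2]),([(0,0,[(4,6)])],[1,1])],[2,1],false,2,1,[]),
    (true,[([(0,18,[(9,12)])],[]),([(0,8,[(4,6),(4,4)])],[2,2])],[2],false,1,0,[]),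
    (false,[([(0,20,[(9,12),(7,7)])],[5,2,1,1])],[],false,1,0,[]),
    (true,[([(0,10,[(13,15)])],[2])],[5,2,2,1,1],false,3,2,[])]),
  ([10,7,4,4,2,1], [
    (false,[],[10,7,4,4,2,1],true,5,3,[8,12,15]),
    (true,[([(0,14,[(6,8)])],[])],[6,5,4,2,2,1],false,4,4,[6,8]),
    (true,[([(0,14,[(6,8)])],[]),([(0,0,[(5,6)])],[1])],[6,5,2],false,3,2,[6]),
    (true,[([(0,14,[(6,8)])],[]),([(0,0,[(5,6)]),(0,0,[(4,6)])],[])],[5,2,1],false,3,1,[]),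
    (true,[([(0,14,[(6,8)])],[]),([(0,2,[(7,8)])],[2,1])],[6,2,1],false,3,1,[4]),
    (true,[([(0,18,[(6,8),(4,4)])],[2]),([(0,2,[(7,8)])],[2,1])],[2,1],false,1,0,[]),
    (true,[([(0,18,[(9,12)])],[2])],[5,4,2,2,1],false,3,4,[6,7]),
    (true,[([(0,18,[(9,12)])],[2]),([(0,0,[(4,6)])],[1])],[5,2],true,2,3,[3,4]),
    (true,[([(0,10,[(9,12),(3,3)])],[3]),([(0,0,[(4,6)])],[1])],[2,1],false,2,1,[]),
    (false,[([(0,18,[(9,12)]),(0,8,[(4,6),(4,4)])],[2])],[4],false,1,0,[]),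
    (true,[([(0,18,[(9,12)])],[2]),([(0,7,[(7,7)])],[3])],[4],false,1,0,[]),
    (true,[([(0,10,[(13,15)])],[3])],[4,2,2,1,1],false,3,2,[])]),
  ([10,7,6,2,1,1,1], [
    (false,[],[10,7,6,2,1,1,1],false,4,5,[6,10,15]),
    (true,[([(0,0,[(5,6)])],[2])],[7,3,3,3,2,1,1],true,4,4,[6]),
    (true,[([(0,18,[(5,6),(5,6)])],[3,1])],[3,3,3,2,1],true,3,3,[5,6]),
    (true,[([(0,0,[(5,6)]),(0,0,[(5,6)])],[1]),([(0,1,[(4,5)])],[])],[3,3,3,1],true,2,3,[4]),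
    (true,[([(0,8,[(5,6),(3,4)]),(0,1,[(4,5)])],[]),([(0,0,[(5,6)])],[])],[3,3,1],false,2,1,[]),
    (true,[([(0,0,[(5,6)]),(0,7,[(6,6)])],[]),([(0,0,[(5,6)])],[2])],[3,3,1],false,2,1,[]),
    (true,[([(0,8,[(7,10)])],[])],[7,3,3,3,1,1],true,3,4,[5,6,8,9]),
    (true,[([(0,8,[(7,10)]),(0,1,[(4,5)])],[])],[3,3,3,2,1,1],true,3,3,[5]),
    (true,[([(0,8,[(7,10)]),(0,1,[(4,5)])],[]),([(0,1,[(4,5)])],[])],[3,3,2],false,2,2,[3]),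
    (true,[([(0,8,[(7,10)]),(0,1,[(4,5)])],[]),([(0,1,[(4,5)])],[]),([(0,3,[(3,3)])],[2])],[3],false,1,0,[]),
    (true,[([(0,8,[(7,10)])],[]),([(0,0,[(6,6)])],[2,1,1,1])],[3,3,1],true,2,3,[3,4]),
    (true,[([(0,8,[(7,10)])],[]),([(0,0,[(6,6)]),(0,3,[(3,3)])],[1,1])],[3,3,1],false,2,1,[]),
    (false,[([(0,8,[(7,10)]),(0,13,[(6,6),(4,4)])],[3,1])],[1,1,1],false,1,0,[]),
    (true,[([(0,8,[(7,10)])],[3,1,1]),([(0,2,[(7,8)])],[])],[3,1,1],false,2,2,[3]),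
    (false,[([(0,8,[(7,10)]),(0,13,[(7,8),(3,3)])],[3,1])],[1,1,1],false,1,0,[]),
    (false,[([(0,27,[(7,10),(9,9)])],[3,3,3])],[],false,1,0,[]),
    (true,[([(0,10,[(11,15)])],[1,1])],[3,3,3,1,1],true,2,4,[3,4,5]),
    (true,[([(0,10,[(11,15)])],[1,1]),([(0,3,[(3,3)])],[1])],[3,3,1],true,2,2,[3]),
    (true,[([(0,10,[(11,15)])],[1,1]),([(0,3,[(3,3)])],[1]),([(0,3,[(3,3)])],[1])],[3],false,1,0,[]),
    (true,[([(0,10,[(11,15)])],[1,1]),([(0,4,[(4,4)])],[2])],[3,1,1],false,2,1,[]),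
    (false,[([(0,10,[(11,15)]),(0,1,[(5,5)])],[3,3])],[1,1],false,1,0,[])]),
  ([10,7,6,3,2], [
    (false,[],[10,7,6,3,2],false,4,5,[6,10,15]),
    (true,[([(0,0,[(5,6)])],[2])],[5,5,3,3,2,1,1],true,4,4,[6]),
    (true,[([(0,18,[(5,6),(5,6)])],[])],[5,4,3,3,1],false,3,5,[6]),
    (true,[([(0,18,[(5,6),(5,6)])],[]),([(0,0,[(4,6)])],[2])],[5,3],false,2,3,[4]),
    (true,[([(0,8,[(5,6),(3,4)])],[]),([(0,0,[(5,6)])],[2,1]),([(0,0,[(4,6)])],[2,1])],[],false,1,0,[2]),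
    (true,[([(0,8,[(5,6),(3,4)])],[]),([(0,0,[(5,6)]),(0,3,[(2,2)])],[]),([(0,0,[(4,6)])],[2,1])],[],false,1,0,[]),
    (true,[([(0,8,[(7,10)])],[1])],[5,4,3,3,1,1],false,4,2,[6,9]),
    (true,[([(0,8,[(7,10)])],[]),([(0,0,[(5,6)])],[2,1])],[5,3,1],true,3,2,[5]),
    (true,[([(0,8,[(7,10)])],[]),([(0,0,[(5,6)])],[2,1]),([(0,1,[(4,5)])],[2,2])],[],false,1,0,[2]),
    (true,[([(0,8,[(7,10)])],[]),([(0,0,[(5,6)]),(0,3,[(2,2)])],[]),([(0,1,[(4,5)])],[2,2])],[],false,1,0,[]),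
    (true,[([(0,8,[(7,10)])],[1]),([(0,8,[(7,9)])],[3])],[3,1],true,2,2,[3]),
    (true,[([(0,8,[(7,10)])],[3]),([(0,18,[(7,9),(3,3)])],[])],[3],false,1,0,[]),
    (true,[([(0,10,[(11,15)])],[])],[5,3,3,1,1],false,3,2,[5]),
    (true,[([(0,10,[(11,15)])],[]),([(0,1,[(4,5)])],[])],[5,3],false,2,1,[])]),
  ([10,7,6,4,1], [
    (false,[],[10,7,6,4,1],false,4,5,[6,10,15]),
    (true,[([(0,0,[(5,6)])],[2])],[5,4,4,3,2,1,1],false,5,2,[6]),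
    (true,[([(0,0,[(5,6)])],[1]),([(0,0,[(6,6)])],[2])],[5,4,3,1],false,4,1,[6]),
    (false,[([(0,0,[(5,6)]),(0,0,[(6,6)]),(0,0,[(5,6)])],[3])],[6,1],false,2,1,[]),
    (true,[([(0,8,[(7,10)])],[])],[5,4,4,3,1,1],false,4,2,[6,9]),
    (true,[([(0,8,[(7,10)])],[]),([(0,0,[(5,6)])],[2])],[5,4,1],false,2,4,[4,5]),
    (true,[([(0,8,[(7,10)])],[]),([(0,8,[(5,6),(3,4)])],[3])],[4,1],true,2,2,[3]),
    (true,[([(0,8,[(7,10)])],[]),([(0,8,[(5,6),(3,4)])],[3]),([(0,3,[(3,3)])],[1,1])],[],false,1,0,[]),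
    (true,[([(0,10,[(7,10),(5,5)])],[]),([(0,0,[(5,6)])],[2])],[4,1],false,1,0,[]),
    (true,[([(0,8,[(7,10)])],[]),([(0,8,[(7,9)])],[3])],[4,1],true,2,2,[3]),
    (true,[([(0,8,[(7,10)])],[]),([(0,8,[(7,9)])],[3]),([(0,3,[(3,3)])],[1,1])],[],false,1,0,[]),
    (true,[([(0,10,[(11,15)])],[])],[4,4,3,1,1],false,3,2,[5]),
    (true,[([(0,10,[(11,15)])],[]),([(0,1,[(4,5)])],[1])],[4,3],false,2,1,[])]),
  ([10,9,3,2,1,1,1,1], [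
    (false,[],[10,9,3,2,1,1,1,1],false,4,4,[5,7,10,12,15]),
    (true,[([(0,1,[(5,5)])],[3])],[8,3,2,2,2,2,1],true,3,6,[5]),
    (false,[([(0,23,[(5,5),(4,5)])],[1,1,1,1])],[10,3,1],true,3,3,[5]),
    (true,[([(0,1,[(5,5)]),(0,1,[(4,5)])],[1,1]),([(0,1,[(4,5)])],[3])],[3,2,2,1],false,2,4,[3,4,5]),
    (true,[([(0,1,[(5,5)]),(0,1,[(4,5)]),(0,3,[(3,3)])],[]),([(0,1,[(4,5)])],[3])],[2,2,2,1],true,2,2,[3]),
    (false,[([(0,23,[(5,5),(4,5)]),(0,3,[(3,3)])],[1,1]),([(0,1,[(4,5)]),(0,3,[(3,3)])],[1,1,1,1,1])],[],false,1,0,[]),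
    (true,[([(0,1,[(5,5)]),(0,1,[(4,5)])],[1,1]),([(0,1,[(4,5)])],[2]),([(0,4,[(4,4)])],[])],[3,2],false,2,1,[]),
    (false,[([(0,23,[(5,5),(4,5)]),(0,1,[(4,5)])],[1]),([(0,1,[(5,5)])],[1,1,1,1,1,1,1])],[],false,1,0,[]),
    (false,[([(0,7,[(6,7)])],[1,1,1,1,1])],[10,3,2,1],false,1,0,[2,3,5,7]),
    (true,[([(0,8,[(6,7),(2,2)])],[])],[8,2,2,2,2,2],false,2,8,[]),
    (false,[([(0,23,[(6,7),(3,3)])],[1,1,1,1])],[10,3,1],true,3,3,[]),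
    (true,[([(0,7,[(6,7)]),(0,1,[(4,5)])],[1])],[4,3,2,2,2,2],false,3,3,[5]),
    (true,[([(0,7,[(6,7)]),(0,8,[(4,5),(4,5)])],[])],[2,2,2,2,2,1],true,2,3,[3,4]),
    (true,[([(0,7,[(6,7)]),(0,14,[(4,5),(3,3)])],[]),([(0,1,[(4,5)])],[3])],[2,2,1],false,2,1,[]),
    (true,[([(0,7,[(6,7)]),(0,8,[(4,5),(4,5)])],[]),([(0,4,[(4,4)])],[])],[2,2,2,1],false,1,0,[]),
    (true,[([(0,7,[(6,7)]),(0,7,[(6,7)])],[])],[4,3,2,2,2,1],false,4,1,[5]),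
    (true,[([(0,7,[(6,7)]),(0,7,[(6,7)])],[]),([(0,1,[(5,5)])],[2])],[3,2,2],false,1,0,[]),
    (false,[([(0,23,[(8,10)])],[1,1,1,1])],[10,3,1],true,3,3,[4,5,7,8]),
    (true,[([(0,23,[(8,10)])],[4,1,1]),([(0,4,[(4,4)])],[])],[4,2,2],false,2,4,[3,4]),
    (true,[([(0,23,[(8,10)]),(0,3,[(3,3)])],[5]),([(0,4,[(4,4)])],[])],[3,2,1],false,3,1,[]),
    (true,[([(0,28,[(8,10),(4,4)])],[6,1]),([(0,4,[(4,4)])],[])],[2,1],false,2,1,[]),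
    (false,[([(0,23,[(8,10)]),(0,1,[(5,5)])],[1])],[10,1,1],true,2,3,[3,4]),
    (false,[([(0,23,[(8,10)]),(0,1,[(5,5)])],[1]),([(0,3,[(3,3)])],[1,1,1,1,1,1,1,1])],[1],false,1,0,[2]),
    (true,[([(0,8,[(8,10)]),(0,7,[(5,5),(2,2)])],[]),([(0,3,[(3,3)])],[])],[2,2,2,2],false,1,0,[]),
    (false,[([(0,10,[(8,10),(5,5)]),(0,4,[(4,4)])],[2,2,2])],[1,1,1],false,1,0,[]),
    (true,[([(0,8,[(8,10)]),(0,7,[(6,7)])],[])],[2,2,2,2,2,1],true,2,2,[3]),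
    (true,[([(0,8,[(8,10)]),(0,7,[(6,7)])],[]),([(0,3,[(3,3)])],[])],[2,2,2,2],false,1,0,[]),
    (true,[([(0,8,[(8,10)])],[]),([(0,25,[(8,8)])],[5,1,1])],[2],false,1,0,[]),
    (true,[([(0,24,[(11,12)])],[6,1])],[4,2,2,1],true,3,2,[5]),
    (false,[([(0,24,[(11,12)]),(0,1,[(4,5)])],[])],[10,1],false,2,1,[]),
    (true,[([(0,31,[(13,15)])],[7])],[2,2,1],true,2,2,[3]),
    (true,[([(0,31,[(13,15)])],[7]),([(0,3,[(3,3)])],[])],[2],false,1,0,[])]),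
  ([10,9,3,2,2,2,1], [
    (false,[],[10,9,3,2,2,2,1],false,4,4,[6,8,10,13,15]),
    (true,[([(0,0,[(5,6)])],[])],[7,6,2,2,2,2,2],false,3,6,[5,6]),
    (false,[([(0,0,[(5,6)]),(0,1,[(4,5)])],[1,1,1])],[10,2,2,1],true,3,3,[5]),
    (true,[([(0,0,[(5,6)])],[]),([(0,1,[(4,5)]),(0,1,[(4,5)])],[])],[7,2,2,2],false,2,4,[3,5]),
    (false,[([(0,8,[(5,6),(3,3)])],[1,1,1,1,1]),([(0,1,[(4,5)]),(0,1,[(4,5)])],[1,1,1,1])],[],false,1,0,[3]),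
    (true,[([(0,0,[(5,6)])],[]),([(0,1,[(4,5)]),(0,1,[(4,5)])],[]),([(0,3,[(3,3)]),(0,3,[(2,3)])],[1,1,1])],[2,2],false,1,0,[2]),
    (true,[([(0,0,[(5,6)]),(0,1,[(4,5)])],[]),([(0,1,[(4,5)]),(0,1,[(3,3),(2,2)])],[1]),([(0,3,[(2,3)])],[])],[2,2],false,1,0,[]),
    (true,[([(0,0,[(5,6)]),(0,1,[(4,5)])],[]),([(0,1,[(4,5)]),(0,1,[(4,5)])],[1])],[2,2,2,1],false,2,1,[]),
    (true,[([(0,24,[(5,6),(6,6)])],[6])],[6,2,2,1],true,3,3,[5,6]),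
    (true,[([(0,0,[(5,6)]),(0,1,[(4,5)])],[]),([(0,7,[(6,6)])],[4,1,1])],[2,2,1],true,2,2,[3]),
    (true,[([(0,24,[(5,6),(6,6)])],[6]),([(0,1,[(4,5)]),(0,3,[(3,3)])],[1])],[2],false,1,0,[]),
    (false,[([(0,17,[(5,6),(6,6),(6,6)])],[2,2,2,2])],[3],false,1,0,[]),
    (true,[([(0,14,[(7,8)])],[4,1])],[7,2,2,2,2,1],true,3,5,[5,7,8]),
    (false,[([(0,14,[(7,8)]),(0,1,[(4,5)])],[1,1])],[10,2,2],true,2,5,[3,5]),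
    (false,[([(0,14,[(7,8)]),(0,1,[(4,5)])],[1,1]),([(0,3,[(3,3)])],[2,1,1,1,1,1,1,1])],[2],false,1,0,[2,3]),
    (true,[([(0,14,[(7,8)])],[4,1]),([(0,1,[(4,5)]),(0,1,[(3,3),(2,2)])],[1])],[2,2,1],true,2,2,[]),
    (false,[([(0,14,[(7,8)]),(0,1,[(4,5)])],[1,1]),([(0,3,[(3,3)]),(0,3,[(3,3)])],[1,1,1,1,1,1])],[2],false,1,0,[2]),
    (true,[([(0,14,[(7,8)])],[4,1]),([(0,1,[(4,5)]),(0,1,[(3,3),(2,2)])],[1]),([(0,3,[(3,3)])],[])],[2],false,1,0,[]),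
    (true,[([(0,14,[(7,8)])],[4,1]),([(0,1,[(4,5)]),(0,1,[(4,5)])],[1])],[2,2,1],true,2,2,[3]),
    (true,[([(0,14,[(7,8)])],[4,1]),([(0,1,[(4,5)]),(0,1,[(4,5)])],[1]),([(0,3,[(3,3)])],[])],[2],false,1,0,[]),
    (false,[([(0,14,[(7,8)]),(0,7,[(6,7)])],[1])],[10,2,1],false,3,1,[4]),
    (false,[([(0,20,[(7,8),(6,7),(4,4)])],[2,2,2,2])],[2],false,1,0,[]),
    (false,[([(0,14,[(7,8)]),(0,25,[(8,8)])],[])],[10,2],false,2,1,[]),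
    (true,[([(0,23,[(9,10)])],[5])],[7,2,2,2,1],true,3,4,[4,5,7]),
    (true,[([(0,23,[(9,10)])],[5]),([(0,4,[(4,4)])],[])],[7,2,1],false,3,1,[4]),
    (false,[([(0,17,[(9,10),(4,4),(4,4)])],[2,2,2,2])],[3],false,1,0,[]),
    (false,[([(0,10,[(9,10),(5,5)])],[2,2,2,2,2])],[2,2],false,1,0,[3]),
    (true,[([(0,23,[(9,10)])],[5]),([(0,1,[(5,5)]),(0,3,[(2,3)])],[1,1])],[2,2],false,1,0,[2]),
    (true,[([(0,24,[(9,10),(2,2)])],[6]),([(0,1,[(5,5)]),(0,3,[(2,3)])],[1])],[2],false,1,0,[]),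
    (false,[([(0,23,[(9,10)]),(0,7,[(6,7)])],[])],[10,2],false,2,1,[]),
    (true,[([(0,9,[(11,13)])],[2,2,1])],[2,2,2,2,2,1],true,2,4,[3,4,5]),
    (false,[([(0,9,[(11,13)]),(0,3,[(3,3)])],[2,2,2,2])],[2,2,1],true,2,2,[3]),
    (false,[([(0,20,[(11,13),(3,3),(3,3)])],[2,2,2,2])],[2],false,1,0,[]),
    (false,[([(0,9,[(11,13)]),(0,4,[(4,4)])],[2,2,2,1])],[2,2,1],false,2,1,[]),
    (false,[([(0,17,[(11,13),(5,5)])],[2,2,2,2])],[3],false,1,0,[]),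
    (false,[([(0,10,[(14,15)])],[2,2,2,2,2])],[2,2],false,1,0,[2]),
    (false,[([(0,11,[(14,15),(2,2)])],[2,2,2,2,1])],[2,1],false,1,0,[])]),
  ([10,9,4,3,2], [
    (false,[],[10,9,4,3,2],false,4,4,[6,8,10,14,15]),
    (true,[([(0,0,[(5,6)])],[1,1])],[5,4,3,2,2,2,2],false,4,3,[5,6]),
    (true,[([(0,0,[(5,6)])],[]),([(0,1,[(5,5)])],[3,1])],[5,4,2,2],false,3,4,[5]),
    (false,[([(0,0,[(5,6)]),(0,1,[(5,5)]),(0,1,[(4,5)])],[])],[10,2],true,2,3,[3,4]),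
    (true,[([(0,16,[(5,6),(5,5),(3,3)])],[]),([(0,1,[(4,5)])],[3,1])],[3,2],false,2,1,[]),
    (true,[([(0,10,[(5,6),(5,5),(4,4)])],[]),([(0,1,[(4,5)])],[3,1])],[2,2],false,1,0,[]),
    (true,[([(0,0,[(5,6)])],[]),([(0,7,[(6,6)])],[4])],[5,4,2],false,3,2,[5,6]),
    (true,[([(0,0,[(5,6)])],[]),([(0,0,[(6,6)])],[3,2]),([(0,1,[(4,5)])],[3,1])],[2],false,1,0,[3]),
    (true,[([(0,10,[(5,6),(6,6),(2,3)])],[]),([(0,1,[(4,5)])],[3,1])],[2,2],false,1,0,[2]),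
    (true,[([(0,16,[(5,6),(6,6),(2,2)])],[]),([(0,1,[(4,5)])],[3,1]),([(0,3,[(2,3)])],[2])],[],false,1,0,[]),
    (true,[([(0,0,[(5,6)])],[3,1]),([(0,16,[(6,6),(6,6)])],[])],[2,2],false,1,0,[]),
    (true,[([(0,14,[(7,8)])],[3])],[5,4,2,2,2,2],false,3,4,[6,8]),
    (true,[([(0,2,[(7,8)])],[1]),([(0,0,[(4,6)])],[1,1])],[5,2,2,2],false,2,5,[3,4,5,6]),
    (true,[([(0,2,[(7,8)]),(0,3,[(3,3)])],[]),([(0,0,[(4,6)])],[])],[5,2,2,2],false,2,3,[3]),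
    (true,[([(0,16,[(7,8),(3,3),(3,3)])],[]),([(0,0,[(4,6)])],[3,1])],[2,2],false,1,0,[2]),
    (true,[([(0,2,[(7,8)]),(0,3,[(3,3)])],[]),([(0,0,[(4,6)])],[]),([(0,1,[(3,3),(2,2)])],[3,1])],[2],false,1,0,[]),
    (false,[([(0,2,[(7,8)]),(0,0,[(4,6)]),(0,4,[(4,4)])],[2,2])],[4,2],false,2,2,[3]),
    (true,[([(0,2,[(7,8)]),(0,3,[(3,3)])],[]),([(0,8,[(4,6),(4,4)])],[1])],[2,2,2],false,1,0,[]),
    (true,[([(0,16,[(7,8),(5,5)])],[]),([(0,0,[(4,6)])],[3,1])],[2,2],false,1,0,[2]),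
    (true,[([(0,2,[(7,8)])],[1]),([(0,0,[(4,6)])],[1,1]),([(0,7,[(5,5),(2,2)])],[4])],[],false,1,0,[]),
    (true,[([(0,16,[(7,8),(6,6)])],[]),([(0,0,[(4,6)])],[3,1])],[2,2],false,1,0,[]),
    (true,[([(0,14,[(7,8)])],[4]),([(0,2,[(7,8)])],[2,1])],[2,2,1],true,2,2,[3]),
    (true,[([(0,14,[(7,8)])],[3]),([(0,2,[(7,8)]),(0,3,[(3,3)])],[])],[2,2,2],false,1,0,[]),
    (true,[([(0,8,[(9,10)])],[1])],[5,4,2,2,2,2],false,3,4,[5,7]),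
    (true,[([(0,10,[(9,10),(4,5)])],[])],[5,2,2,2,2],false,2,3,[4]),
    (true,[([(0,16,[(9,10),(3,4)])],[]),([(0,1,[(4,5)])],[3,1])],[3,2],false,2,1,[]),
    (true,[([(0,8,[(9,10)])],[]),([(0,7,[(6,7)])],[4])],[5,2],false,2,1,[]),
    (true,[([(0,16,[(11,14)])],[])],[5,3,2,2,2],false,3,3,[5]),
    (true,[([(0,16,[(11,14)])],[]),([(0,1,[(4,5)])],[3,1])],[3,2],false,2,1,[]),
    (false,[([(0,10,[(15,15)])],[5,2,2,2,2])],[],false,1,0,[])]),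
  ([10,9,6,2,1], [
    (false,[],[10,9,6,2,1],true,4,5,[6,8,11,15]),
    (true,[([(0,0,[(5,6)])],[])],[5,4,3,3,3,2,2],false,4,4,[5,6]),
    (true,[([(0,0,[(5,6)])],[]),([(0,1,[(5,5)])],[3,2])],[4,3,3,2],false,2,6,[4,5]),
    (true,[([(0,10,[(5,6),(5,5),(3,4)])],[])],[3,3,3,2,2],false,2,4,[3,4]),
    (true,[([(0,10,[(5,6),(5,5),(3,4)])],[]),([(0,3,[(3,3)])],[2])],[3,3,2],false,2,2,[3]),
    (true,[([(0,10,[(5,6),(5,5),(3,4)])],[]),([(0,3,[(3,3)])],[2]),([(0,3,[(3,3)])],[2])],[3],false,1,0,[]),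
    (true,[([(0,10,[(5,6),(5,5),(3,4)])],[]),([(0,4,[(4,4)])],[1])],[3,3,2],false,2,1,[]),
    (true,[([(0,0,[(5,6)])],[]),([(0,8,[(5,5),(5,5)])],[4])],[3,3,2],false,2,2,[3]),
    (true,[([(0,0,[(5,6)])],[]),([(0,8,[(5,5),(5,5)])],[4]),([(0,3,[(3,3)])],[2])],[3],false,1,0,[]),
    (true,[([(0,0,[(5,6)])],[]),([(0,0,[(6,6)])],[3])],[5,3,3,2],false,3,2,[5,6]),
    (true,[([(0,0,[(5,6)])],[3]),([(0,13,[(6,6),(4,5)])],[1])],[3,2,2],false,2,2,[3]),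
    (true,[([(0,0,[(5,6)])],[3]),([(0,13,[(6,6),(4,5)])],[1]),([(0,3,[(3,3)])],[2])],[2],false,1,0,[]),
    (true,[([(0,0,[(5,6)])],[]),([(0,0,[(6,6)])],[3]),([(0,0,[(6,6)])],[3,1])],[3],false,1,0,[]),
    (true,[([(0,2,[(7,8)])],[])],[5,4,3,3,2,2,1],false,4,4,[6,8]),
    (true,[([(0,2,[(7,8)])],[]),([(0,0,[(5,6)])],[])],[5,4,3,2],false,4,2,[5]),
    (true,[([(0,2,[(7,8)])],[]),([(0,0,[(5,6)])],[]),([(0,1,[(5,5)])],[3,2])],[4],false,1,0,[]),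
    (true,[([(0,14,[(7,8)])],[3]),([(0,2,[(7,8)])],[])],[4,3,2],false,3,2,[]),
    (true,[([(0,13,[(9,11)])],[])],[5,3,3,2,2,2],false,3,5,[5,7]),
    (true,[([(0,13,[(9,11)])],[]),([(0,1,[(4,5)])],[3,2])],[3,2,2],false,2,3,[3,4]),
    (true,[([(0,13,[(9,11)])],[]),([(0,14,[(4,5),(3,3)])],[4])],[3,2],false,2,1,[]),
    (true,[([(0,13,[(9,11)])],[]),([(0,1,[(4,5)])],[3,1]),([(0,4,[(4,4)])],[1])],[3],false,1,0,[]),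
    (true,[([(0,13,[(9,11)])],[]),([(0,14,[(6,7)])],[4])],[3,2],false,2,1,[]),
    (true,[([(0,10,[(12,15)])],[])],[3,3,3,2,2],false,2,3,[3,4]),
    (true,[([(0,10,[(12,15)])],[]),([(0,3,[(3,3)])],[2])],[3,3,2],false,2,1,[]),
    (false,[([(0,10,[(12,15)]),(0,4,[(4,4)])],[3,3,3])],[],false,1,0,[])])]

theorem cj5d_8_ok : runAllJ S38 R38 F38 14 cj5d_8 = true := by decide +kernel

noncomputable def cj5d_9 : List (List ℕ × List NdJ) := [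
  ([10,9,8,7,1], [
    (false,[],[10,9,8,7,1],false,4,8,[5,6,7,8,10,13,15]),
    (true,[([(0,0,[(5,5)])],[2,2])],[4,4,4,4,4,3,2],true,3,5,[4,5]),
    (true,[([(0,1,[(5,5)])],[2]),([(0,4,[(4,4)])],[2,2])],[5,4,4,4,3],false,3,3,[4]),
    (true,[([(0,1,[(5,5)])],[2]),([(0,4,[(4,4)]),(0,4,[(4,4)])],[])],[5,4,4,4,3],false,3,3,[4]),
    (true,[([(0,8,[(5,5),(4,4)])],[]),([(0,4,[(4,4)]),(0,4,[(4,4)])],[])],[5,4,4,4],false,2,1,[]),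
    (true,[([(0,8,[(5,5),(5,5)])],[3])],[4,4,4,4,4,2],true,2,6,[3,4,5]),
    (false,[([(0,10,[(5,5),(5,5),(3,3)])],[4,4,4,4,4])],[],false,1,0,[2,3]),
    (false,[([(0,10,[(5,5),(5,5),(3,3),(2,2)])],[4,4,4,4,4])],[],false,1,0,[2]),
    (true,[([(2,20,[(5,5),(5,5),(3,3),(2,2),(2,2)])],[])],[4,4,4,4],false,1,0,[2]),
    (true,[([(2,3,[(5,5),(5,5),(3,3),(2,2),(2,2),(2,2)])],[])],[4,4,4,4],false,1,0,[2]),
    (true,[([(2,4,[(5,5),(5,5),(3,3),(2,2),(2,2),(2,2),(2,2)])],[])],[4,4,4],false,1,0,[]),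
    (true,[([(0,8,[(5,5),(5,5)])],[3]),([(0,3,[(3,3)]),(0,3,[(3,3)])],[])],[4,4,4,4],false,1,0,[2,3]),
    (true,[([(2,21,[(5,5),(5,5),(3,3),(3,3),(2,2)])],[])],[4,4,4,4],false,1,0,[2]),
    (true,[([(2,6,[(5,5),(5,5),(3,3),(3,3),(2,2),(2,2)])],[])],[4,4,4],false,1,0,[]),
    (true,[([(2,7,[(5,5),(5,5),(3,3),(3,3),(3,3)])],[])],[4,4,4,4],false,1,0,[]),
    (true,[([(0,8,[(5,5),(5,5)])],[]),([(0,4,[(4,4)])],[2,2])],[5,4,4,4],false,2,3,[3,4]),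
    (true,[([(0,10,[(5,5),(5,5),(3,3)])],[]),([(0,4,[(4,4)])],[2,2])],[4,4,4],false,1,0,[2]),
    (true,[([(0,10,[(5,5),(5,5),(3,3),(2,2)])],[]),([(0,4,[(4,4)])],[2,2])],[4,4,4],false,1,0,[]),
    (true,[([(0,10,[(5,5),(5,5),(4,4)])],[]),([(0,4,[(4,4)])],[2,2])],[4,4,4],false,1,0,[]),
    (false,[([(0,10,[(5,5),(5,5),(5,5)])],[4,4,4,4,4])],[],false,1,0,[2,3]),
    (true,[([(2,23,[(5,5),(5,5),(5,5),(2,2)])],[])],[4,4,4,4],false,1,0,[2]),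
    (true,[([(2,9,[(5,5),(5,5),(5,5),(2,2),(2,2)])],[])],[4,4,4,4],false,1,0,[]),
    (true,[([(2,15,[(5,5),(5,5),(5,5),(3,3)])],[])],[4,4,4,4],false,1,0,[]),
    (true,[([(0,0,[(6,6)])],[2,2])],[4,4,4,4,4,3,2],true,3,5,[4,5,6]),
    (true,[([(0,13,[(6,6),(4,4)])],[3])],[4,4,4,4,3,2],true,3,4,[4]),
    (true,[([(0,13,[(6,6),(4,4)])],[3]),([(0,4,[(4,4)])],[2,2])],[4,4,3,2],false,3,2,[4]),
    (true,[([(0,10,[(6,6),(4,4),(4,4)])],[]),([(0,4,[(4,4)])],[2,2])],[4,4,4],false,1,0,[]),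
    (true,[([(0,13,[(6,6),(5,5)])],[3])],[4,4,4,4,3,2],false,3,2,[4,5]),
    (true,[([(0,13,[(6,6),(5,5)])],[3]),([(0,4,[(4,4)])],[2,2])],[4,4,3,2],false,3,2,[]),
    (true,[([(2,14,[(6,6),(5,5),(5,5)])],[])],[4,4,4,4],false,1,0,[2]),
    (false,[([(0,2,[(6,6),(2,2)]),(0,8,[(5,5),(5,5)])],[3,3,3])],[8],false,1,0,[]),
    (false,[([(0,10,[(6,6),(6,6)])],[4,4,4,4,4])],[],false,1,0,[2,3,5]),
    (true,[([(0,2,[(6,6),(2,2)])],[2]),([(0,0,[(6,6)])],[2])],[5,4,4,4],false,2,3,[]),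
    (false,[([(0,10,[(6,6),(6,6),(3,3)])],[4,4,4,4,4])],[],false,1,0,[2,3]),
    (false,[([(0,8,[(6,6),(3,3)]),(0,2,[(6,6),(2,2)])],[3,3,3])],[8],false,1,0,[2]),
    (true,[([(2,11,[(6,6),(6,6),(3,3),(2,2),(2,2)])],[])],[4,4,4,4],false,1,0,[]),
    (true,[([(2,18,[(6,6),(6,6),(3,3),(3,3)])],[])],[4,4,4,4],false,1,0,[]),
    (false,[([(0,13,[(6,6),(4,5)]),(0,0,[(6,6)])],[3,3,3])],[9],false,1,0,[2]),
    (false,[([(0,13,[(6,6),(4,5)]),(0,2,[(6,6),(2,2)])],[3,3])],[10],false,1,0,[]),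
    (true,[([(0,2,[(7,7)])],[2])],[5,4,4,4,4,3,1],false,3,4,[4,5,6,7]),
    (true,[([(0,2,[(7,7)])],[2]),([(0,4,[(4,4)])],[2,2])],[5,4,4,3,1],false,4,1,[]),
    (true,[([(0,2,[(7,7)])],[3]),([(0,1,[(5,5)])],[2])],[5,4,4,4],false,2,4,[3,4,5]),
    (false,[([(0,10,[(7,7),(5,5),(3,3)])],[4,4,4,4,4])],[],false,1,0,[2,3]),
    (false,[([(0,2,[(7,7)]),(0,8,[(5,5),(3,3),(2,2)])],[3,3,3])],[8],false,1,0,[2]),
    (true,[([(2,42,[(7,7),(5,5),(3,3),(2,2),(2,2)])],[])],[4,4,4,4],false,1,0,[]),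
    (true,[([(0,2,[(7,7)])],[3]),([(0,0,[(5,5)])],[2,2]),([(0,3,[(3,3)]),(0,3,[(3,3)])],[])],[4,4],false,1,0,[]),
    (true,[([(0,2,[(7,7)])],[3]),([(0,1,[(5,5)])],[2]),([(0,4,[(4,4)])],[2,2])],[5,4],false,2,1,[]),
    (false,[([(0,2,[(7,7)]),(0,8,[(5,5),(5,5)])],[3,3,3])],[8],false,1,0,[]),
    (true,[([(0,2,[(7,7)])],[2]),([(0,0,[(6,6)])],[2])],[5,4,4,4],false,2,3,[4]),
    (false,[([(0,13,[(7,7),(3,4)]),(0,0,[(6,6)])],[3,3,3])],[9],false,1,0,[2]),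
    (false,[([(0,13,[(7,7),(3,4)]),(0,2,[(6,6),(2,2)])],[3,3])],[10],false,1,0,[]),
    (true,[([(0,2,[(7,7)])],[2]),([(0,2,[(7,7)])],[3])],[5,4,4,1],false,3,1,[]),
    (true,[([(0,2,[(8,8)])],[2])],[5,4,4,4,4,3,1],false,3,4,[5,7,8]),
    (true,[([(0,9,[(8,8),(4,5)])],[])],[5,4,4,4,4,1],false,2,4,[3,4,5]),
    (true,[([(0,9,[(8,8),(4,5)])],[]),([(0,3,[(3,3)])],[1,1])],[5,4,4,4],false,2,2,[3]),
    (true,[([(0,9,[(8,8),(4,5)])],[]),([(0,0,[(3,3),(3,3)])],[2,2])],[4,4,4],false,1,0,[]),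
    (true,[([(0,9,[(8,8),(4,5)])],[]),([(0,4,[(4,4)])],[2,2])],[5,4,4,1],false,2,1,[]),
    (true,[([(0,9,[(8,8),(4,5)])],[]),([(0,0,[(5,5)])],[2,2])],[4,4,4],false,1,0,[]),
    (false,[([(0,10,[(8,8),(6,7)])],[4,4,4,4,4])],[],false,1,0,[3]),
    (false,[([(0,2,[(8,8)]),(0,8,[(6,7),(2,3)])],[3,3,3])],[8],false,1,0,[2]),
    (true,[([(0,15,[(8,8),(6,7),(2,2)])],[]),([(0,3,[(2,3)])],[2,1])],[4,4,4],false,1,0,[]),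
    (false,[([(0,15,[(8,8),(8,8)])],[4,4,4,4,2])],[],false,1,0,[]),
    (true,[([(0,13,[(9,10)])],[3])],[4,4,4,4,3,2],true,3,4,[4,5,7]),
    (true,[([(0,13,[(9,10)])],[3]),([(0,4,[(4,4)])],[2,2])],[4,4,3,2],false,3,2,[4]),
    (true,[([(0,10,[(9,10),(4,4)])],[]),([(0,4,[(4,4)])],[2,2])],[4,4,4],false,1,0,[]),
    (false,[([(0,10,[(9,10),(5,5)])],[4,4,4,4,4])],[],false,1,0,[2,3]),
    (true,[([(0,15,[(9,10),(5,5),(2,2)])],[])],[4,4,4,4,2],false,2,1,[]),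
    (true,[([(0,9,[(9,10),(3,3)])],[]),([(0,0,[(5,5)])],[2,2])],[4,4,4],false,1,0,[]),
    (true,[([(0,15,[(9,10),(6,7)])],[])],[4,4,4,4,2],false,2,1,[]),
    (true,[([(0,9,[(11,13)])],[])],[5,4,4,4,4,1],false,2,4,[3,4,5]),
    (true,[([(0,9,[(11,13)])],[]),([(0,3,[(3,3)])],[1,1])],[5,4,4,4],false,2,2,[3]),
    (true,[([(0,9,[(11,13)])],[]),([(0,0,[(3,3),(3,3)])],[2,2])],[4,4,4],false,1,0,[]),
    (true,[([(0,15,[(11,13),(4,4)])],[])],[4,4,4,4,2],false,2,1,[]),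
    (true,[([(0,9,[(11,13)])],[]),([(0,0,[(5,5)])],[2,2])],[4,4,4],false,1,0,[]),
    (true,[([(0,12,[(14,15)])],[])],[5,4,4,4,2,1],false,2,1,[])]),
  ([11,4,3,2,2,2,1,1,1,1], [
    (false,[],[11,4,3,2,2,2,1,1,1,1],false,5,3,[8,12,15]),
    (false,[([(0,14,[(6,8)])],[])],[11,3,2,2,1,1],false,3,4,[5,8]),
    (true,[([(0,14,[(6,8)]),(0,1,[(4,5)])],[1,1,1])],[6,1,1,1,1,1,1],false,2,6,[3,5]),
    (false,[([(0,14,[(6,8)]),(0,14,[(4,5),(3,3)])],[1,1,1])],[3,2,1,1,1,1],false,3,2,[]),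
    (false,[([(0,14,[(6,8)]),(0,1,[(4,5)]),(0,1,[(4,5)])],[1])],[2,2,2,1,1,1],false,2,3,[3,4]),
    (false,[([(0,14,[(6,8)]),(0,14,[(4,5),(3,3)])],[1,1,1]),([(0,1,[(4,5)])],[])],[2,1,1],false,2,1,[]),
    (false,[([(0,14,[(6,8)]),(0,1,[(4,5)]),(0,1,[(4,5)])],[1]),([(0,4,[(4,4)])],[])],[2,1,1,1],false,1,0,[]),
    (false,[([(0,14,[(6,8)]),(0,14,[(6,8)])],[1,1,1])],[3,2,1,1,1,1],false,3,2,[5]),
    (false,[([(0,14,[(6,8)]),(0,14,[(6,8)])],[1,1,1]),([(0,1,[(4,5)])],[])],[2,1,1],false,2,1,[]),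
    (true,[([(0,18,[(9,12)])],[1])],[10,1,1,1,1,1],true,2,6,[3,5,7]),
    (false,[([(0,18,[(9,12)]),(0,3,[(3,3)])],[1,1,1,1])],[3,2,2,1,1],false,3,2,[]),
    (false,[([(0,18,[(9,12)]),(0,1,[(4,5)])],[1,1,1])],[2,2,2,1,1],true,2,3,[3,4]),
    (false,[([(0,18,[(9,12)]),(0,1,[(4,5)])],[1,1,1]),([(0,3,[(3,3)])],[])],[2,2,1],false,2,1,[]),
    (true,[([(0,18,[(9,12)]),(0,1,[(4,5)]),(0,4,[(4,4)])],[])],[2,1,1,1,1,1],false,1,0,[]),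
    (false,[([(0,18,[(9,12)]),(0,7,[(6,7)])],[1,1])],[2,2,1,1,1],false,2,1,[]),
    (false,[([(0,32,[(13,15)])],[1,1,1,1,1])],[3,2,1,1],false,3,2,[])]),
  ([11,4,3,3,2,1,1,1,1,1], [
    (false,[],[11,4,3,3,2,1,1,1,1,1],false,4,5,[6,8,12,15]),
    (false,[([(0,0,[(5,6)])],[])],[11,4,3,1,1,1,1],false,4,3,[6]),
    (false,[([(0,18,[(5,6),(5,6)])],[1,1,1,1,1,1])],[4,3,1,1,1],false,1,0,[3,5,6]),
    (true,[([(0,18,[(5,6),(5,6)]),(0,3,[(2,3)])],[1,1,1])],[5,1,1,1,1,1],false,2,5,[3]),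
    (true,[([(0,18,[(5,6),(5,6)]),(0,3,[(2,3)]),(0,3,[(3,3)])],[1])],[4,1,1,1,1,1],false,2,3,[3]),
    (true,[([(0,18,[(5,6),(5,6)]),(0,3,[(2,3)]),(0,3,[(3,3)])],[1]),([(0,3,[(3,3)])],[1,1])],[1,1,1,1],false,1,0,[2]),
    (false,[([(0,18,[(5,6),(5,6)]),(0,1,[(3,3),(2,2)])],[1,1,1]),([(0,0,[(2,3),(3,3)])],[])],[1,1],false,1,0,[]),
    (false,[([(0,18,[(5,6),(5,6)]),(0,1,[(4,5)])],[1,1,1])],[3,2,1,1,1],false,3,2,[4]),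
    (false,[([(0,18,[(5,6),(5,6)]),(0,1,[(4,5)])],[1,1,1]),([(0,4,[(4,4)])],[1])],[1,1,1],false,1,0,[]),
    (false,[([(0,18,[(5,6),(5,6)]),(0,7,[(6,6)])],[1,1])],[3,1,1,1,1],false,2,1,[]),
    (false,[([(0,14,[(7,8)])],[])],[11,3,3,1,1,1],true,3,6,[6,8]),
    (true,[([(0,14,[(7,8)]),(0,0,[(4,6)])],[1,1,1])],[5,1,1,1,1,1,1],false,2,5,[3,5,6]),
    (true,[([(0,14,[(7,8)]),(0,0,[(4,6)]),(0,3,[(3,3)])],[1])],[4,1,1,1,1,1,1],false,2,3,[3]),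
    (false,[([(0,14,[(7,8)]),(0,3,[(3,3)]),(0,3,[(3,3)])],[1,1,1]),([(0,0,[(4,6)])],[])],[3,1,1],false,2,1,[]),
    (false,[([(0,14,[(7,8)]),(0,0,[(4,6)])],[1,1,1,1]),([(0,1,[(4,5)])],[])],[3,1,1],false,2,2,[3]),
    (false,[([(0,18,[(7,8),(3,3)]),(0,1,[(4,5)])],[1,1,1]),([(0,0,[(4,6)])],[])],[1,1],false,1,0,[]),
    (false,[([(0,26,[(7,8),(6,6)]),(0,0,[(4,6)])],[1])],[3,3,1],false,1,0,[]),
    (false,[([(0,31,[(7,8),(7,8)])],[1,1,1,1])],[4,3,1],false,3,1,[]),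
    (false,[([(0,18,[(9,12)])],[1,1,1,1,1,1])],[4,3,1,1,1],false,1,0,[3,5,7]),
    (true,[([(0,18,[(9,12)]),(0,3,[(2,3)])],[1,1,1])],[5,1,1,1,1,1],false,2,5,[3]),
    (true,[([(0,18,[(9,12)]),(0,3,[(2,3)]),(0,3,[(3,3)])],[1])],[4,1,1,1,1,1],false,2,3,[3]),
    (true,[([(0,18,[(9,12)]),(0,3,[(2,3)]),(0,3,[(3,3)])],[1]),([(0,3,[(3,3)])],[1,1])],[1,1,1,1],false,1,0,[2]),
    (false,[([(0,18,[(9,12)]),(0,1,[(3,3),(2,2)])],[1,1,1]),([(0,0,[(2,3),(3,3)])],[])],[1,1],false,1,0,[]),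
    (false,[([(0,18,[(9,12)]),(0,1,[(4,5)])],[1,1,1])],[3,2,1,1,1],false,3,2,[4]),
    (false,[([(0,18,[(9,12)]),(0,1,[(4,5)])],[1,1,1]),([(0,4,[(4,4)])],[1])],[1,1,1],false,1,0,[]),
    (false,[([(0,18,[(9,12)]),(0,7,[(6,7)])],[1,1])],[3,1,1,1,1],false,2,1,[]),
    (false,[([(0,21,[(13,15)])],[1,1,1,1,1])],[4,2,1,1],false,3,2,[])]),
  ([11,4,4,3,3,2,1], [
    (false,[],[11,4,4,3,3,2,1],true,5,3,[8,11,14,15]),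
    (true,[([(0,14,[(6,8)])],[2])],[7,6,1,1,1,1,1],false,3,5,[4,5,7,8]),
    (true,[([(0,14,[(6,8)]),(0,4,[(4,4)])],[2])],[6,3,1,1,1,1,1],false,3,3,[4]),
    (false,[([(0,14,[(6,8)]),(0,1,[(4,4)]),(0,1,[(4,4)])],[1])],[4,3,2],false,3,2,[4]),
    (true,[([(0,14,[(6,8)]),(0,4,[(4,4)])],[2]),([(0,14,[(4,4),(4,4)])],[2,1])],[1,1,1],false,1,0,[]),
    (false,[([(0,14,[(6,8)]),(0,1,[(5,5)])],[1,1,1,1])],[4,4,3],false,1,0,[2,3,5]),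
    (false,[([(0,8,[(6,8),(2,2)]),(0,1,[(5,5)])],[1,1,1,1])],[4,3,2],false,2,4,[]),
    (false,[([(0,14,[(6,8)]),(0,1,[(5,5)]),(0,3,[(3,3)])],[1,1])],[4,3,3],false,2,3,[3]),
    (true,[([(0,14,[(6,8)]),(0,3,[(3,3)])],[]),([(0,14,[(5,5),(3,3)])],[2,2,2])],[1,1,1],false,1,0,[2]),
    (false,[([(0,8,[(6,8),(2,2)]),(0,1,[(5,5)])],[1,1,1,1]),([(0,0,[(3,3),(3,3)])],[3])],[],false,1,0,[]),
    (false,[([(0,14,[(6,8)]),(0,1,[(5,5)]),(0,1,[(4,5)])],[1])],[4,3,2],false,3,2,[]),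
    (false,[([(0,14,[(6,8)]),(0,7,[(6,7)])],[3,1,1])],[4,3,1],false,2,4,[3,5]),
    (true,[([(0,14,[(6,8)]),(0,3,[(3,3)])],[]),([(0,7,[(6,7)])],[1])],[7,1,1],false,2,2,[3]),
    (false,[([(0,14,[(6,8)]),(0,7,[(6,7)])],[3,1,1]),([(0,0,[(3,3),(3,3)])],[2])],[],false,1,0,[]),
    (false,[([(0,14,[(6,8)]),(0,7,[(6,7)]),(0,1,[(4,5)])],[])],[4,3,1],false,2,1,[]),
    (true,[([(0,14,[(6,8)]),(0,2,[(8,8)])],[])],[6,1,1,1,1,1,1],false,2,2,[3]),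
    (false,[([(0,14,[(6,8)]),(0,29,[(8,8),(3,3)])],[5])],[4],false,1,0,[]),
    (false,[([(0,13,[(9,11)])],[])],[11,4,2],true,3,4,[6,7]),
    (false,[([(0,13,[(9,11)])],[]),([(0,0,[(4,6)])],[3,2,1,1,1,1,1,1])],[],false,1,0,[2,3,4]),
    (false,[([(0,13,[(9,11)]),(0,3,[(2,2)])],[1,1,1,1,1]),([(0,0,[(4,6)])],[3])],[],false,1,0,[2]),
    (false,[([(0,13,[(9,11)])],[]),([(0,0,[(4,6)]),(1,0,[(2,2),(2,2)])],[1,1,1,1,1])],[],false,1,0,[2]),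
    (false,[([(0,13,[(9,11)])],[]),([(0,0,[(4,6)]),(1,0,[(2,2),(2,2),(2,2)])],[1,1,1,1,1])],[],false,1,0,[]),
    (false,[([(0,13,[(9,11)]),(0,3,[(3,3)])],[1,1,1,1,1]),([(0,0,[(4,6)])],[3])],[],false,1,0,[2]),
    (false,[([(0,13,[(9,11)])],[]),([(0,0,[(4,6)]),(0,1,[(3,3),(2,2)])],[2,1,1,1,1])],[],false,1,0,[]),
    (false,[([(0,13,[(9,11)])],[]),([(0,0,[(4,6)]),(0,1,[(4,4)])],[2,1,1,1,1])],[],false,1,0,[]),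
    (false,[([(0,13,[(9,11)]),(0,7,[(7,7)])],[1,1,1])],[3,3,1],false,1,0,[]),
    (false,[([(0,10,[(12,14)])],[1,1,1,1,1,1])],[4,3],false,2,3,[3,4]),
    (false,[([(0,15,[(12,14),(3,3)])],[1,1,1,1,1,1])],[3,2],false,2,1,[]),
    (false,[([(0,10,[(12,14)])],[1,1,1,1,1,1]),([(0,4,[(4,4)])],[2,1])],[],false,1,0,[]),
    (false,[([(0,10,[(15,15)])],[1,1,1,1,1,1])],[4,3],false,1,0,[])]),
  ([11,5,3,3,3,2,1], [
    (false,[],[11,5,3,3,3,2,1],true,5,4,[8,11,14,15]),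
    (true,[([(0,14,[(6,8)])],[1])],[7,6,2,1,1,1,1],false,3,6,[4,6,8]),
    (true,[([(0,14,[(6,8)]),(0,4,[(4,4)])],[2])],[6,2,2,1,1,1,1],false,3,4,[4]),
    (true,[([(0,18,[(6,8),(4,4)]),(0,4,[(4,4)])],[])],[6,2,1,1,1,1],false,3,2,[4]),
    (false,[([(0,18,[(6,8),(4,4)]),(0,14,[(4,4),(4,4)])],[1,1])],[3,3],false,1,0,[]),
    (false,[([(0,14,[(6,8)]),(0,0,[(5,6)])],[2,1,1,1])],[3,3,3],false,1,0,[2,3,5,6]),
    (false,[([(0,8,[(6,8),(2,2)]),(0,0,[(5,6)])],[1,1,1,1])],[3,3,2],false,1,0,[2]),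
    (false,[([(0,8,[(6,8),(2,2)]),(0,14,[(5,6),(2,2)])],[1,1,1])],[3,3,1],true,2,3,[]),
    (false,[([(0,14,[(6,8)]),(0,8,[(5,6),(3,3)])],[1,1,1])],[3,3,1],true,2,3,[3]),
    (false,[([(0,14,[(6,8)]),(0,18,[(5,6),(3,3),(3,3)])],[1,1])],[3,3],false,1,0,[2]),
    (false,[([(0,14,[(6,8)]),(0,14,[(5,6),(2,2)])],[4,1,1]),([(0,0,[(3,3),(3,3)])],[])],[],false,1,0,[]),
    (false,[([(0,14,[(6,8)]),(0,0,[(5,6)]),(0,1,[(4,5)])],[1])],[3,3,2],false,2,2,[3]),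
    (false,[([(0,14,[(6,8)]),(0,14,[(4,5),(3,3)])],[4,1,1]),([(0,0,[(5,6)])],[])],[],false,1,0,[]),
    (false,[([(0,14,[(6,8)]),(0,24,[(5,6),(6,6)])],[5])],[3],false,1,0,[]),
    (false,[([(0,14,[(6,8)]),(0,14,[(7,8)])],[4,1,1])],[3,2,1],false,3,1,[4]),
    (false,[([(0,18,[(6,8),(4,4)]),(0,14,[(7,8)])],[1,1])],[3,3],false,1,0,[]),
    (false,[([(0,13,[(9,11)])],[1])],[11,3,2],true,2,6,[3,5,7]),
    (true,[([(0,16,[(9,11),(3,3)])],[2])],[7,1,1,1,1,1],false,2,4,[3]),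
    (true,[([(0,16,[(9,11),(3,3)]),(0,3,[(3,3)])],[])],[6,1,1,1,1,1],false,2,2,[3]),
    (true,[([(0,16,[(9,11),(3,3)]),(0,3,[(3,3)])],[]),([(0,3,[(3,3)])],[1,1,1,1])],[1,1,1,1],false,1,0,[]),
    (false,[([(0,13,[(9,11)])],[1]),([(0,1,[(4,5)])],[3,2,1,1,1,1,1,1])],[],false,1,0,[2,3,4]),
    (false,[([(0,13,[(9,11)])],[1]),([(0,1,[(4,5)]),(0,3,[(2,2)])],[3,1,1,1,1,1])],[],false,1,0,[2]),
    (false,[([(0,13,[(9,11)])],[1]),([(0,1,[(4,5)]),(1,0,[(2,2),(2,2)])],[1,1,1,1,1])],[],false,1,0,[2]),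
    (false,[([(0,13,[(9,11)])],[1]),([(0,1,[(4,5)]),(1,0,[(2,2),(2,2),(2,2)])],[1,1,1,1,1])],[],false,1,0,[]),
    (false,[([(0,16,[(9,11),(3,3)]),(0,1,[(4,5)])],[1,1,1])],[3,3],false,1,0,[2]),
    (true,[([(0,16,[(9,11),(3,3)]),(0,3,[(2,2)])],[]),([(0,1,[(4,5)])],[1,1,1])],[1,1,1],false,1,0,[]),
    (false,[([(0,13,[(9,11)])],[1]),([(0,1,[(4,5)]),(0,1,[(4,4)])],[2,1,1,1,1])],[],false,1,0,[]),
    (true,[([(0,18,[(9,11)])],[2,2]),([(0,7,[(6,7)])],[1,1])],[2,1],false,2,1,[]),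
    (true,[([(0,26,[(12,14)])],[])],[6,5,2,1],false,4,1,[]),
    (false,[([(0,10,[(15,15)])],[2,1,1,1,1,1])],[3,3],false,1,0,[])]),
  ([11,5,4,2,2,1,1,1,1], [
    (false,[],[11,5,4,2,2,1,1,1,1],false,5,4,[8,12,15]),
    (false,[([(0,14,[(6,8)])],[])],[11,5,2,1,1],true,4,3,[6,8]),
    (false,[([(0,14,[(6,8)]),(0,0,[(5,6)])],[1,1,1,1])],[5,2,1,1,1],false,3,2,[6]),
    (false,[([(0,14,[(6,8)]),(0,0,[(5,6)])],[1,1,1,1]),([(0,0,[(4,6)])],[1,1])],[1,1],false,1,0,[3]),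
    (false,[([(0,14,[(6,8)]),(0,0,[(5,6)]),(0,3,[(2,3)])],[1,1]),([(0,0,[(4,6)])],[1])],[1,1],false,1,0,[2]),
    (false,[([(0,14,[(6,8)]),(0,0,[(4,6)]),(0,3,[(2,3)])],[1,1]),([(0,14,[(5,6),(2,2)])],[])],[1],false,1,0,[]),
    (true,[([(0,14,[(6,8)]),(0,2,[(7,8)])],[1,1])],[3,2,1,1,1,1,1],false,3,2,[4]),
    (true,[([(0,18,[(6,8),(4,4)]),(0,14,[(7,8)])],[])],[3,1,1,1,1,1],false,1,0,[]),
    (true,[([(0,18,[(9,12)])],[])],[9,3,1,1,1,1],false,3,3,[6,7]),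
    (true,[([(0,18,[(9,12)]),(0,0,[(4,6)])],[1])],[3,2,1,1,1,1],false,3,2,[4]),
    (true,[([(0,18,[(9,12)]),(0,0,[(4,6)])],[1]),([(0,4,[(4,4)])],[1])],[1,1,1,1],false,1,0,[]),
    (false,[([(0,27,[(9,12),(7,7)])],[3,1,1,1])],[2,1],false,1,0,[]),
    (true,[([(0,21,[(13,15)])],[1,1,1])],[5,2,1,1,1],false,3,2,[])]),
  ([11,5,4,3,3,2], [
    (false,[],[11,5,4,3,3,2],false,4,5,[6,10,14,15]),
    (true,[([(0,0,[(5,6)])],[])],[6,6,5,1,1,1,1,1],false,3,5,[5,6]),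
    (true,[([(0,0,[(5,6)]),(0,1,[(4,5)])],[])],[6,5,1,1,1,1,1,1],false,3,5,[5]),
    (false,[([(0,0,[(5,6)]),(0,1,[(4,5)]),(0,1,[(4,5)])],[1,1])],[5,3,2],false,3,2,[5]),
    (false,[([(0,0,[(5,6)]),(0,1,[(4,5)]),(0,1,[(4,5)])],[1,1]),([(0,1,[(4,5)])],[3,2])],[],false,1,0,[2]),
    (false,[([(0,0,[(5,6)]),(0,1,[(4,5)]),(0,1,[(4,5)]),(0,3,[(2,2)])],[]),([(0,0,[(4,5)])],[3])],[],false,1,0,[]),
    (true,[([(0,24,[(5,6),(6,6)])],[])],[6,5,3,1,1],false,4,2,[6]),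
    (true,[([(0,24,[(5,6),(6,6)])],[]),([(0,0,[(5,6)])],[2,1])],[6,1],false,2,1,[]),
    (true,[([(0,8,[(7,10)])],[1,1])],[6,5,1,1,1,1,1],false,3,5,[4,5,7,9]),
    (true,[([(0,8,[(7,10)]),(0,4,[(4,4)])],[])],[6,3,1,1,1,1,1],false,3,3,[4]),
    (false,[([(0,8,[(7,10)]),(0,14,[(4,4),(4,4)])],[1,1,1])],[4,3],false,2,2,[3]),
    (false,[([(0,8,[(7,10)]),(0,14,[(4,4),(4,4)])],[1,1,1]),([(0,3,[(3,3)])],[2,2])],[],false,1,0,[]),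
    (true,[([(0,10,[(7,10),(5,5)])],[2])],[6,1,1,1,1,1],false,2,4,[3,5]),
    (false,[([(0,8,[(7,10)]),(0,14,[(5,5),(3,3)])],[1,1,1])],[4,3],false,2,2,[3]),
    (false,[([(0,8,[(7,10)]),(0,14,[(5,5),(3,3)])],[1,1,1]),([(0,3,[(3,3)])],[2,2])],[],false,1,0,[]),
    (true,[([(0,10,[(7,10),(5,5)])],[2]),([(0,1,[(4,5)])],[1,1,1])],[1,1,1],false,1,0,[2]),
    (false,[([(0,8,[(7,10)]),(0,7,[(5,5),(2,2)]),(0,1,[(4,5)])],[])],[3,3],false,1,0,[]),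
    (false,[([(0,8,[(7,10)]),(0,7,[(6,7)])],[1,1,1])],[5,3],false,2,3,[3,4]),
    (false,[([(0,8,[(7,10)]),(0,7,[(6,7)]),(0,3,[(3,3)])],[1])],[4,3],false,2,1,[]),
    (false,[([(0,8,[(7,10)]),(0,7,[(6,7)])],[1,1,1]),([(0,4,[(4,4)])],[2,1,1])],[],false,1,0,[]),
    (true,[([(0,8,[(7,10)])],[1]),([(0,25,[(8,9)])],[1])],[6,1],false,2,1,[]),
    (true,[([(0,28,[(11,14)])],[])],[6,5,1,1,1],false,3,3,[5]),
    (true,[([(0,28,[(11,14)])],[]),([(0,1,[(4,5)])],[1,1])],[6,1],false,2,1,[]),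
    (false,[([(0,10,[(15,15)])],[5,1,1,1,1,1])],[3],false,1,0,[])]),
  ([11,5,5,4,2,1], [
    (false,[],[11,5,5,4,2,1],true,5,3,[8,12,15]),
    (true,[([(0,14,[(6,8)])],[2])],[6,4,4,1,1,1,1],false,3,4,[5,7,8]),
    (true,[([(0,14,[(6,8)])],[2]),([(0,1,[(4,5)])],[1])],[6,4,1,1],false,2,6,[3,5]),
    (true,[([(0,14,[(6,8)]),(0,3,[(3,3)])],[]),([(0,1,[(4,5)])],[1])],[5,4,1,1],false,3,2,[]),
    (false,[([(0,14,[(6,8)]),(0,1,[(4,5)]),(0,1,[(4,5)])],[3])],[5,2],true,2,3,[3,4]),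
    (true,[([(0,14,[(6,8)])],[2]),([(0,14,[(4,5),(3,3)])],[2,2]),([(0,1,[(4,5)])],[1])],[],false,1,0,[2]),
    (false,[([(0,8,[(6,8),(2,2)]),(0,1,[(4,5)]),(0,1,[(4,5)])],[1]),([(0,3,[(3,3)])],[2,1,1])],[],false,1,0,[]),
    (true,[([(0,14,[(6,8)]),(0,4,[(4,4)])],[]),([(0,8,[(4,5),(4,5)])],[3])],[1,1,1],false,1,0,[]),
    (true,[([(0,14,[(6,8)])],[2]),([(0,7,[(6,7)])],[])],[6,4,1],true,3,2,[5]),
    (false,[([(0,10,[(6,8),(6,7)]),(0,1,[(4,5)])],[1,1,1])],[5],false,1,0,[2]),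
    (false,[([(0,8,[(6,8),(2,2)]),(0,7,[(6,7)]),(0,1,[(4,5)])],[])],[5,1],false,1,0,[]),
    (true,[([(0,14,[(6,8)])],[2]),([(0,14,[(8,8)])],[2,2])],[4,1,1],false,2,2,[3]),
    (false,[([(0,14,[(6,8)]),(0,13,[(8,8),(3,3)])],[1,1,1])],[5,1],false,1,0,[]),
    (true,[([(0,18,[(9,12)])],[3])],[5,4,1,1,1,1],false,3,4,[5,7]),
    (true,[([(0,18,[(9,12)])],[3]),([(0,1,[(4,5)])],[1])],[5,1,1],true,2,3,[3,4]),
    (false,[([(0,10,[(9,12),(3,3)]),(0,1,[(4,5)])],[1,1,1])],[5],false,1,0,[2]),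
    (true,[([(0,18,[(9,12)])],[3]),([(0,1,[(4,5)])],[1]),([(0,1,[(3,3),(2,2)])],[1,1])],[],false,1,0,[]),
    (true,[([(0,18,[(9,12)])],[3]),([(0,1,[(4,5)])],[1]),([(0,1,[(4,4)])],[1,1])],[],false,1,0,[]),
    (true,[([(0,18,[(9,12)])],[3]),([(0,7,[(6,7)])],[])],[5,1],false,2,1,[]),
    (true,[([(0,10,[(13,15)])],[4])],[4,1,1,1,1,1],false,2,2,[3]),
    (true,[([(0,10,[(13,15)])],[4]),([(0,3,[(3,3)])],[1,1])],[1,1,1,1],false,1,0,[])]),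
  ([11,6,5,4,1,1], [
    (false,[],[11,6,5,4,1,1],false,4,5,[6,10,15]),
    (true,[([(0,0,[(5,6)])],[1])],[6,4,4,3,1,1,1,1],false,4,3,[6]),
    (true,[([(0,18,[(5,6),(5,6)])],[2])],[4,4,3,1,1,1],false,3,3,[6]),
    (true,[([(0,18,[(5,6),(5,6)])],[2]),([(0,0,[(4,6)])],[2])],[4,1,1],true,2,3,[3,4]),
    (true,[([(0,18,[(5,6),(5,6)])],[2]),([(0,0,[(4,6)])],[2]),([(0,3,[(3,3)])],[1,1])],[1],false,1,0,[2]),
    (false,[([(0,18,[(5,6),(5,6)]),(0,0,[(4,6)]),(0,1,[(3,3),(2,2)])],[])],[5],false,1,0,[]),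
    (false,[([(0,18,[(5,6),(5,6)]),(0,0,[(4,6)]),(0,1,[(4,4)])],[])],[5],false,1,0,[]),
    (true,[([(0,8,[(7,10)])],[])],[6,4,4,1,1,1,1],false,3,4,[5,8,9]),
    (true,[([(0,8,[(7,10)])],[]),([(0,1,[(4,5)])],[1])],[6,4,1,1],false,3,2,[5]),
    (false,[([(0,8,[(7,10)]),(0,1,[(4,5)]),(0,1,[(4,5)])],[1])],[6,1],true,2,2,[3]),
    (true,[([(0,8,[(7,10)])],[]),([(0,14,[(4,5),(3,3)])],[2,2]),([(0,1,[(4,5)])],[1])],[],false,1,0,[]),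
    (true,[([(0,8,[(7,10)])],[]),([(0,14,[(6,8)])],[2,2])],[4,1,1],true,2,3,[3,4]),
    (true,[([(0,8,[(7,10)])],[]),([(0,14,[(6,8)])],[2,2]),([(0,3,[(3,3)])],[1,1])],[1],false,1,0,[2]),
    (true,[([(0,8,[(7,10)])],[]),([(0,14,[(6,8)])],[2,2]),([(0,1,[(3,3),(2,2)])],[1])],[],false,1,0,[]),
    (true,[([(0,8,[(7,10)])],[]),([(0,14,[(6,8)]),(0,4,[(4,4)])],[])],[4,1,1],false,1,0,[]),
    (false,[([(0,8,[(7,10)]),(0,25,[(9,9)])],[4,4])],[1],false,1,0,[]),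
    (true,[([(0,10,[(11,15)])],[1])],[4,4,1,1,1,1],false,2,4,[3,5]),
    (true,[([(0,10,[(11,15)])],[1]),([(0,3,[(3,3)])],[1,1])],[4,1,1,1],false,2,2,[3]),
    (true,[([(0,10,[(11,15)])],[1]),([(0,3,[(3,3)])],[1,1]),([(0,3,[(3,3)])],[1,1])],[1,1],false,1,0,[]),
    (true,[([(0,10,[(11,15)])],[1]),([(0,1,[(4,5)])],[1])],[4,1,1],false,2,1,[])]),
  ([11,6,5,4,2], [
    (false,[],[11,6,5,4,2],false,4,5,[6,10,15]),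
    (true,[([(0,0,[(5,6)])],[1])],[5,5,4,3,1,1,1,1],false,4,3,[6]),
    (true,[([(0,18,[(5,6),(5,6)])],[])],[5,4,4,1,1,1],false,3,3,[6]),
    (true,[([(0,18,[(5,6),(5,6)])],[]),([(0,0,[(4,6)])],[2,2])],[4,1,1],true,2,3,[3,4]),
    (true,[([(0,10,[(5,6),(5,6),(3,3)])],[]),([(0,0,[(4,6)])],[2,2])],[1,1,1],false,1,0,[2]),
    (true,[([(0,18,[(5,6),(5,6)])],[]),([(0,0,[(4,6)])],[2,2]),([(0,1,[(3,3),(2,2)])],[1])],[],false,1,0,[]),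
    (true,[([(0,18,[(5,6),(5,6)])],[]),([(0,0,[(4,6)]),(0,4,[(4,4)])],[])],[4,1,1],false,1,0,[]),
    (true,[([(0,8,[(7,10)])],[2])],[5,4,3,1,1,1,1],false,4,3,[6,8,9]),
    (true,[([(0,8,[(7,10)])],[]),([(0,0,[(5,6)])],[2,2])],[5,1,1,1],true,2,4,[3,5]),
    (true,[([(0,8,[(7,10)])],[2]),([(0,0,[(5,6)]),(0,3,[(3,3)])],[])],[4,1,1,1],false,2,2,[3]),
    (true,[([(0,8,[(7,10)])],[2]),([(0,0,[(5,6)]),(0,3,[(3,3)])],[]),([(0,3,[(3,3)])],[1,1])],[1,1],false,1,0,[]),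
    (true,[([(0,8,[(7,10)])],[]),([(0,0,[(5,6)])],[2,2]),([(0,1,[(4,5)])],[1,1])],[1],false,1,0,[2]),
    (false,[([(0,8,[(7,10)]),(0,14,[(5,6),(2,2)]),(0,1,[(4,5)])],[])],[5],false,1,0,[]),
    (true,[([(0,8,[(7,10)])],[2]),([(0,14,[(7,8)])],[2])],[4,1,1],false,2,2,[3]),
    (false,[([(0,8,[(7,10)]),(0,13,[(7,8),(3,3)])],[1,1,1])],[4],false,1,0,[]),
    (false,[([(0,8,[(7,10)]),(0,25,[(9,9)])],[5,4])],[],false,1,0,[]),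
    (true,[([(0,10,[(11,15)])],[])],[5,4,1,1,1,1],false,3,4,[5]),
    (true,[([(0,10,[(11,15)])],[]),([(0,1,[(4,5)])],[1])],[5,1,1],false,2,1,[])]),
  ([11,7,6,2,1,1], [
    (false,[],[11,7,6,2,1,1],false,4,4,[6,10,15]),
    (true,[([(0,0,[(5,6)])],[])],[6,4,3,3,3,1,1,1],false,4,3,[6]),
    (true,[([(0,18,[(5,6),(5,6)])],[3])],[3,3,3,2,1,1],true,3,3,[6]),
    (true,[([(0,18,[(5,6),(5,6)])],[1]),([(0,0,[(4,6)])],[2])],[3,3,1],true,2,3,[3,4]),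
    (true,[([(0,0,[(5,6)]),(0,3,[(3,3)])],[1]),([(0,0,[(5,6)])],[]),([(0,0,[(4,6)])],[2])],[3,1],false,2,1,[]),
    (true,[([(0,18,[(5,6),(5,6)])],[1]),([(0,0,[(4,6)])],[2]),([(0,4,[(4,4)])],[2])],[1],false,1,0,[]),
    (true,[([(0,8,[(7,10)])],[])],[6,3,3,3,1,1,1],false,2,8,[3,5,8,9]),
    (true,[([(0,8,[(7,10)])],[]),([(0,3,[(3,3)])],[1])],[6,3,3,1,1],true,3,3,[]),
    (true,[([(0,8,[(7,10)])],[]),([(0,1,[(4,5)])],[])],[6,3,3,1],true,3,3,[4,5]),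
    (true,[([(0,8,[(7,10)])],[]),([(0,1,[(4,5)]),(0,4,[(4,4)])],[1])],[3,3,1,1],false,2,2,[3]),
    (true,[([(0,8,[(7,10)])],[]),([(0,14,[(4,5),(3,3)])],[2,1]),([(0,4,[(4,4)])],[2])],[1],false,1,0,[]),
    (true,[([(0,10,[(7,10),(5,5)])],[1]),([(0,1,[(4,5)])],[])],[3,3,1],false,2,1,[]),
    (true,[([(0,8,[(7,10)])],[]),([(0,14,[(6,8)])],[2,1])],[3,3,1],true,2,3,[3,4]),
    (true,[([(0,8,[(7,10)])],[]),([(0,14,[(6,8)]),(0,3,[(3,3)])],[])],[3,3,1],false,2,1,[]),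
    (true,[([(0,8,[(7,10)])],[]),([(0,14,[(6,8)])],[2,1]),([(0,4,[(4,4)])],[2])],[1],false,1,0,[]),
    (false,[([(0,8,[(7,10)]),(0,5,[(9,9)])],[3,1,1,1])],[2,1],false,1,0,[]),
    (true,[([(0,10,[(11,15)])],[1])],[3,3,3,1,1,1],true,2,4,[3,5]),
    (true,[([(0,10,[(11,15)])],[1]),([(0,3,[(3,3)])],[1])],[3,3,1,1],false,2,2,[3]),
    (true,[([(0,10,[(11,15)])],[1]),([(0,3,[(3,3)])],[1]),([(0,3,[(3,3)])],[1])],[3,1],false,1,0,[]),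
    (true,[([(0,10,[(11,15)])],[1]),([(0,1,[(4,5)])],[])],[3,3,1],false,2,1,[])]),
  ([11,7,6,3,1], [
    (false,[],[11,7,6,3,1],false,4,4,[6,10,15]),
    (true,[([(0,0,[(5,6)])],[2])],[5,4,3,3,2,1,1,1],false,5,2,[6]),
    (true,[([(0,0,[(5,6)])],[]),([(0,0,[(6,6)])],[2])],[5,4,3,1,1],false,4,2,[6]),
    (true,[([(0,18,[(5,6),(6,6)])],[]),([(0,0,[(5,6)])],[2])],[4,3,1],false,2,1,[]),
    (true,[([(0,8,[(7,10)])],[])],[5,4,3,3,1,1,1],false,4,3,[6,9]),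
    (true,[([(0,8,[(7,10)])],[]),([(0,0,[(5,6)])],[2])],[5,3,1,1],false,3,2,[5]),
    (true,[([(0,8,[(7,10)])],[]),([(0,0,[(5,6)])],[2]),([(0,1,[(4,5)])],[])],[5],false,1,0,[2]),
    (true,[([(0,8,[(7,10)])],[]),([(0,14,[(5,6),(2,2)])],[2]),([(0,0,[(4,5)])],[2])],[],false,1,0,[]),
    (true,[([(0,8,[(7,10)])],[]),([(0,8,[(7,9)])],[3])],[3,1,1],false,2,2,[3]),
    (true,[([(0,8,[(7,10)])],[]),([(0,8,[(7,9)])],[3]),([(0,3,[(3,3)])],[1])],[1],false,1,0,[]),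
    (true,[([(0,10,[(11,15)])],[])],[4,3,3,1,1,1],false,3,3,[5]),
    (true,[([(0,10,[(11,15)])],[]),([(0,1,[(4,5)])],[])],[4,3,1],false,2,1,[])]),
  ([11,8,3,3,2,1], [
    (false,[],[11,8,3,3,2,1],true,5,3,[8,12,15]),
    (true,[([(0,14,[(6,8)])],[])],[6,5,2,2,2,2,1],false,3,6,[6,8]),
    (true,[([(0,14,[(6,8)])],[]),([(0,0,[(4,6)])],[1,1])],[6,2,2,2],false,2,6,[3,5,6]),
    (false,[([(0,14,[(6,8)]),(0,0,[(4,6)])],[3,2,2,2]),([(0,3,[(3,3)])],[2])],[],false,1,0,[2,3]),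
    (true,[([(0,8,[(6,8),(2,2)]),(0,3,[(3,3)])],[]),([(0,0,[(4,6)])],[1,1])],[2,2,2,1],true,2,3,[]),
    (true,[([(0,14,[(6,8)])],[1]),([(0,0,[(4,6)]),(0,0,[(3,3),(3,3)])],[])],[2,2,2,1],true,2,2,[3]),
    (true,[([(0,14,[(6,8)])],[1]),([(0,0,[(4,6)]),(0,0,[(3,3),(3,3)])],[]),([(0,3,[(3,3)])],[])],[2,2],false,1,0,[]),
    (true,[([(0,14,[(6,8)])],[1]),([(0,0,[(4,6)]),(0,0,[(4,5)])],[])],[2,2,2,1],true,2,3,[3,4]),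
    (true,[([(0,14,[(6,8)])],[1]),([(0,0,[(4,6)]),(0,0,[(4,5)])],[]),([(0,3,[(3,3)])],[])],[2,2],false,1,0,[2]),
    (true,[([(0,14,[(6,8)])],[]),([(0,0,[(4,6)])],[1,1]),([(0,1,[(4,5)]),(0,1,[(3,3),(2,2)])],[])],[2],false,1,0,[]),
    (true,[([(0,14,[(6,8)])],[]),([(0,0,[(4,6)])],[1,1]),([(0,1,[(4,5)]),(0,1,[(4,4)])],[])],[2],false,1,0,[]),
    (true,[([(0,16,[(6,8),(6,6)])],[]),([(0,0,[(4,6)])],[1,1,1])],[2,2,1],false,2,1,[]),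
    (true,[([(0,14,[(6,8)])],[]),([(0,2,[(7,8)])],[2,2,1])],[2,2,2,1],true,2,3,[3,4]),
    (false,[([(0,14,[(6,8)]),(0,2,[(7,8)]),(0,3,[(3,3)])],[2,2])],[3,2],false,2,1,[]),
    (true,[([(0,14,[(6,8)])],[1]),([(0,14,[(7,8)])],[3,2]),([(0,4,[(4,4)])],[])],[2],false,1,0,[]),
    (true,[([(0,18,[(9,12)])],[2])],[5,2,2,2,2,1],true,3,3,[4,5,7]),
    (true,[([(0,18,[(9,12)])],[2]),([(0,4,[(4,4)])],[])],[5,2,2,1],false,3,1,[4]),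
    (false,[([(0,18,[(9,12)]),(0,4,[(4,4)]),(0,4,[(4,4)])],[4,1])],[3],false,1,0,[]),
    (true,[([(0,18,[(9,12)])],[2]),([(0,1,[(5,5)])],[3,1])],[2,2,1],true,2,2,[3]),
    (true,[([(0,18,[(9,12)])],[2]),([(0,1,[(5,5)]),(0,3,[(3,3)])],[])],[2,2,2],false,1,0,[]),
    (true,[([(0,18,[(9,12)])],[2]),([(0,7,[(6,7)])],[4])],[2,1],false,2,1,[]),
    (true,[([(0,32,[(13,15)])],[])],[5,2,2,2,1],false,3,1,[])]),
  ([11,8,4,3,2], [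
    (false,[],[11,8,4,3,2],true,5,3,[8,12,15]),
    (true,[([(0,14,[(6,8)])],[])],[5,5,3,2,2,2,1],true,4,3,[6,8]),
    (true,[([(0,14,[(6,8)])],[]),([(0,0,[(5,6)])],[1,1])],[5,3,2,2],false,3,3,[5,6]),
    (true,[([(0,14,[(6,8)])],[]),([(0,0,[(5,6)])],[]),([(0,1,[(4,5)])],[3,1])],[5],false,1,0,[3]),
    (true,[([(0,14,[(6,8)])],[]),([(0,0,[(5,6)]),(0,3,[(2,3)])],[]),([(0,1,[(4,5)])],[3,1])],[2],false,1,0,[2]),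
    (true,[([(0,8,[(6,8),(2,2)])],[]),([(0,0,[(5,6)])],[1,1]),([(0,1,[(4,5)]),(0,3,[(2,3)])],[])],[2],false,1,0,[]),
    (false,[([(0,16,[(6,8),(6,6)]),(0,0,[(5,6)])],[5,2,1])],[],false,1,0,[]),
    (true,[([(0,14,[(6,8)])],[]),([(0,14,[(7,8)])],[4])],[5,2,1],false,3,1,[4]),
    (true,[([(0,18,[(6,8),(4,4)])],[]),([(0,2,[(7,8)])],[2,1])],[2,2,1],false,1,0,[]),
    (true,[([(0,18,[(9,12)])],[])],[5,4,2,2,2,1],false,3,5,[6,7]),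
    (true,[([(0,18,[(9,12)])],[]),([(0,0,[(4,6)])],[1])],[5,2,2],false,2,3,[3,4]),
    (true,[([(0,10,[(9,12),(3,3)])],[]),([(0,0,[(4,6)])],[1,1])],[2,2,1],false,2,1,[]),
    (true,[([(0,18,[(9,12)])],[]),([(0,8,[(4,6),(4,4)])],[2])],[2,2],false,1,0,[]),
    (true,[([(0,18,[(9,12)])],[]),([(0,7,[(7,7)])],[3])],[4,2],false,1,0,[]),
    (true,[([(0,10,[(13,15)])],[])],[5,2,2,2,1,1],false,3,2,[])])]

theorem cj5d_9_ok : runAllJ S38 R38 F38 14 cj5d_9 = true := by decide +kernel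

noncomputable def cj5d_10 : List (List ℕ × List NdJ) := [
  ([11,8,5,2,1,1], [
    (false,[],[11,8,5,2,1,1],true,5,3,[8,12,15]),
    (true,[([(0,14,[(6,8)])],[])],[6,3,3,3,2,2,1],true,4,3,[6,8]),
    (true,[([(0,14,[(6,8)])],[3,1]),([(0,0,[(5,6)])],[])],[4,3,2,1],false,4,1,[6]),
    (true,[([(0,14,[(6,8)])],[]),([(0,0,[(5,6)])],[]),([(0,0,[(5,6)])],[3,1,1])],[3],false,1,0,[2]),
    (false,[([(0,8,[(6,8),(2,2)]),(0,18,[(5,6),(5,6)])],[3,2])],[1],false,1,0,[]),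
    (true,[([(0,14,[(6,8)])],[]),([(0,2,[(7,8)])],[])],[6,3,2,1],false,4,1,[]),
    (true,[([(0,18,[(9,12)])],[1])],[4,3,3,2,2,1],false,3,4,[6,7]),
    (true,[([(0,18,[(9,12)])],[1]),([(0,0,[(4,6)])],[])],[4,3,2],false,3,2,[4]),
    (false,[([(0,18,[(9,12)]),(0,8,[(4,6),(4,4)])],[3,2])],[1],false,1,0,[]),
    (false,[([(0,18,[(9,12)]),(0,2,[(7,7)])],[3,2,1])],[2],false,1,0,[]),
    (true,[([(0,21,[(13,15)])],[])],[4,3,2,2,2],false,3,2,[])]),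
  ([11,9,3,2,1,1,1], [
    (false,[],[11,9,3,2,1,1,1],true,4,4,[6,9,12,15]),
    (true,[([(0,0,[(5,6)])],[])],[7,4,2,2,2,2,2,1],true,4,3,[6]),
    (true,[([(0,0,[(5,6)]),(0,0,[(5,6)])],[1])],[3,2,2,2,2,2,1,1],true,2,6,[3,5,6]),
    (true,[([(0,10,[(5,6),(5,6),(3,3)])],[1,1])],[2,2,2,2,2,1],true,2,4,[3]),
    (true,[([(0,0,[(5,6)]),(0,0,[(5,6)])],[1]),([(0,0,[(3,3),(3,3)])],[])],[2,2,2,2,1],true,2,2,[3]),
    (true,[([(0,0,[(5,6)]),(0,0,[(5,6)])],[1]),([(0,0,[(3,3),(3,3)])],[]),([(0,3,[(3,3)])],[])],[2,2,2],false,1,0,[]),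
    (true,[([(0,0,[(5,6)]),(0,0,[(5,6)])],[1]),([(0,0,[(4,5)])],[])],[2,2,2,2,1],true,2,3,[3,4]),
    (true,[([(0,0,[(5,6)]),(0,14,[(4,5),(3,3)])],[]),([(0,0,[(5,6)])],[])],[2,2,2,2],false,1,0,[2]),
    (true,[([(0,0,[(5,6)])],[]),([(0,0,[(5,6)])],[1]),([(0,1,[(4,5)]),(0,1,[(3,3),(2,2)])],[1])],[2,2],false,1,0,[]),
    (true,[([(0,18,[(5,6),(5,6)])],[1,1]),([(0,1,[(4,5)])],[3]),([(0,4,[(4,4)])],[])],[2],false,1,0,[]),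
    (true,[([(0,24,[(5,6),(6,6)])],[6]),([(0,0,[(5,6)])],[1])],[2,1],false,2,1,[]),
    (true,[([(0,8,[(7,9)])],[])],[7,2,2,2,2,2,1],true,3,5,[4,5,6,7,9]),
    (true,[([(0,8,[(7,9)])],[]),([(0,4,[(4,4)])],[])],[7,2,2,2,1],true,3,4,[4]),
    (true,[([(0,8,[(7,9)])],[]),([(0,4,[(4,4)])],[]),([(0,4,[(4,4)])],[])],[7,2,1],false,3,1,[]),
    (true,[([(0,28,[(7,9),(5,5)])],[5])],[2,2,2,2,1],true,2,4,[3,5]),
    (true,[([(0,28,[(7,9),(5,5)])],[6]),([(0,3,[(3,3)])],[])],[2,2,1],true,2,2,[3]),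
    (false,[([(0,16,[(7,9),(5,5)]),(0,0,[(3,3),(3,3)])],[2,2,2])],[1,1],false,1,0,[]),
    (true,[([(0,8,[(7,9)])],[]),([(0,1,[(5,5)]),(0,1,[(4,5)])],[1])],[2,2,2,1],false,2,1,[]),
    (true,[([(0,10,[(7,9),(6,6)])],[1,1])],[2,2,2,2,2,1],true,2,3,[3,4]),
    (true,[([(0,8,[(7,9)])],[]),([(0,25,[(6,6),(3,3)])],[5,1])],[2,1],false,2,1,[]),
    (false,[([(0,10,[(7,9),(6,6)]),(0,4,[(4,4)])],[2,2,2,1])],[1,1],false,1,0,[]),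
    (true,[([(0,32,[(7,9),(7,7)])],[1])],[3,2,2,2,2],false,2,2,[3]),
    (true,[([(0,32,[(7,9),(7,7)])],[1]),([(0,3,[(3,3)])],[2])],[2,2,2],false,1,0,[]),
    (true,[([(0,8,[(7,9)])],[]),([(0,25,[(8,9)])],[5,1])],[2,1],false,2,1,[]),
    (true,[([(0,24,[(10,12)])],[5])],[4,2,2,2,1],true,3,2,[4,6]),
    (true,[([(0,24,[(10,12)])],[5]),([(0,4,[(4,4)])],[])],[4,2,1],false,3,1,[]),
    (true,[([(0,24,[(10,12)])],[6]),([(0,0,[(5,6)])],[1])],[2,1],false,2,1,[]),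
    (true,[([(0,10,[(13,15)])],[1,1])],[2,2,2,2,2,1],true,2,2,[3]),
    (false,[([(0,10,[(13,15)]),(0,3,[(3,3)])],[2,2,2,2])],[1,1],false,1,0,[])]),
  ([11,10,3,2,2,1], [
    (false,[],[11,10,3,2,2,1],true,4,4,[6,8,10,13,15]),
    (true,[([(0,0,[(5,6)])],[])],[6,5,2,2,2,2,2,2],false,3,5,[5,6]),
    (true,[([(0,0,[(5,6)]),(0,1,[(4,5)])],[])],[5,2,2,2,2,2,2,1],true,3,3,[4,5]),
    (true,[([(0,0,[(5,6)]),(0,1,[(4,5)])],[]),([(0,4,[(4,4)])],[])],[5,2,2,2,2,1],true,3,3,[4]),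
    (true,[([(0,0,[(5,6)]),(0,1,[(4,5)])],[]),([(0,4,[(4,4)])],[]),([(0,4,[(4,4)])],[])],[5,2,2,1],false,2,1,[]),
    (true,[([(0,0,[(5,6)]),(0,1,[(4,5)])],[]),([(0,1,[(5,5)])],[3,1])],[2,2,2,2,1],true,2,3,[3,4]),
    (true,[([(0,8,[(5,6),(3,3)])],[1]),([(0,1,[(4,5)]),(0,1,[(5,5)])],[])],[2,2,2,2],false,1,0,[2]),
    (true,[([(0,14,[(5,6),(2,2)])],[4]),([(0,1,[(4,5)]),(0,1,[(5,5)])],[]),([(0,3,[(3,3)])],[])],[2,2],false,1,0,[]),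
    (true,[([(0,0,[(5,6)])],[1,1]),([(0,23,[(4,5),(5,5)])],[5]),([(0,4,[(4,4)])],[])],[2],false,1,0,[]),
    (true,[([(0,0,[(5,6)])],[]),([(0,7,[(6,6)])],[4])],[6,2,2,2],false,2,5,[3,5,6]),
    (true,[([(0,0,[(5,6)])],[]),([(0,25,[(6,6),(3,3)])],[5])],[5,2,2],false,2,3,[3]),
    (true,[([(0,8,[(5,6),(3,3)])],[1]),([(0,25,[(6,6),(3,3)])],[5])],[2,2],false,1,0,[2]),
    (true,[([(0,14,[(5,6),(2,2)])],[4]),([(0,25,[(6,6),(3,3)])],[5]),([(0,3,[(3,3)])],[])],[],false,1,0,[]),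
    (true,[([(0,0,[(5,6)]),(0,1,[(4,5)])],[]),([(0,7,[(6,6)])],[4])],[2,2,2,1],true,2,2,[3]),
    (true,[([(0,0,[(5,6)])],[]),([(0,25,[(6,6),(3,3)])],[5]),([(0,1,[(4,5)])],[3,1])],[],false,1,0,[]),
    (false,[([(0,17,[(5,6),(6,6),(6,6)])],[3,2,2,2,2])],[],false,1,0,[]),
    (true,[([(0,14,[(7,8)])],[4])],[6,2,2,2,2,2,1],true,3,4,[5,7,8]),
    (true,[([(0,2,[(7,8)]),(0,0,[(4,5)])],[])],[2,2,2,2,2,2,2,1],true,2,5,[3,5]),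
    (false,[([(0,14,[(7,8)]),(0,1,[(4,5)])],[1,1,1]),([(0,3,[(3,3)])],[2,1,1,1,1,1,1,1,1])],[],false,1,0,[2,3]),
    (true,[([(0,14,[(7,8)])],[4]),([(0,1,[(4,5)]),(0,1,[(3,3),(2,2)])],[])],[2,2,2,1],true,2,2,[]),
    (false,[([(0,14,[(7,8)]),(0,1,[(4,5)])],[1,1,1]),([(0,3,[(3,3)]),(0,3,[(3,3)])],[1,1,1,1,1,1,1])],[],false,1,0,[2]),
    (true,[([(0,14,[(7,8)])],[4]),([(0,1,[(4,5)]),(0,1,[(3,3),(2,2)])],[]),([(0,3,[(3,3)])],[])],[2,2],false,1,0,[]),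
    (true,[([(0,14,[(7,8)])],[4]),([(0,1,[(4,5)]),(0,1,[(4,5)])],[])],[2,2,2,1],true,2,2,[3]),
    (true,[([(0,14,[(7,8)])],[4]),([(0,1,[(4,5)]),(0,1,[(4,5)])],[]),([(0,3,[(3,3)])],[])],[2,2],false,1,0,[]),
    (true,[([(0,2,[(7,8)])],[1,1]),([(0,7,[(6,7)])],[4,1])],[2,2,2,1],true,2,3,[3,4]),
    (false,[([(0,14,[(7,8)]),(0,7,[(6,7)])],[1,1]),([(0,3,[(3,3)])],[1,1,1,1,1,1,1,1,1])],[],false,1,0,[2]),
    (true,[([(0,23,[(7,8),(2,2)])],[5]),([(0,7,[(6,7)])],[4]),([(0,3,[(3,3)])],[])],[],false,1,0,[]),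
    (false,[([(0,20,[(7,8),(6,7),(4,4)])],[2,2,2,2,2])],[],false,1,0,[]),
    (true,[([(0,14,[(7,8)])],[4]),([(0,25,[(8,8)])],[5])],[2,1],false,2,1,[]),
    (true,[([(0,23,[(9,10)])],[5])],[5,2,2,2,2,1],true,3,3,[4,5,7]),
    (true,[([(0,23,[(9,10)])],[5]),([(0,4,[(4,4)])],[])],[5,2,2,1],false,3,1,[4]),
    (false,[([(0,17,[(9,10),(4,4),(4,4)])],[3,2,2,2,2])],[],false,1,0,[]),
    (true,[([(0,23,[(9,10)])],[5]),([(0,1,[(5,5)])],[3,1])],[2,2,1],true,2,2,[3]),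
    (false,[([(0,17,[(9,10),(5,5),(3,3)])],[3,2,2,2,2])],[],false,1,0,[]),
    (true,[([(0,23,[(9,10)])],[5]),([(0,7,[(6,7)])],[4])],[2,1],false,2,1,[]),
    (true,[([(0,9,[(11,13)])],[2,1])],[2,2,2,2,2,2,1],true,2,4,[3,4,5]),
    (true,[([(0,9,[(11,13)]),(0,3,[(3,3)])],[])],[2,2,2,2,2,2,1],true,2,2,[3]),
    (false,[([(0,20,[(11,13),(3,3),(3,3)])],[2,2,2,2,2])],[],false,1,0,[]),
    (false,[([(0,9,[(11,13)]),(0,4,[(4,4)])],[2,2,2,2,1])],[2,1],false,2,1,[]),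
    (false,[([(0,17,[(11,13),(5,5)])],[3,2,2,2,2])],[],false,1,0,[]),
    (false,[([(0,10,[(14,15)])],[2,2,2,2,2,2])],[2],false,1,0,[2]),
    (false,[([(0,11,[(14,15),(2,2)])],[2,2,2,2,2,1])],[1],false,1,0,[])]),
  ([11,10,4,3,1], [
    (false,[],[11,10,4,3,1],true,4,4,[6,8,10,14,15]),
    (true,[([(0,0,[(5,6)])],[1])],[5,4,3,2,2,2,2,2],false,4,3,[5,6]),
    (true,[([(0,0,[(5,6)])],[]),([(0,1,[(5,5)])],[3])],[5,4,2,2,2],false,3,4,[5]),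
    (true,[([(0,0,[(5,6)])],[]),([(0,1,[(5,5)])],[3]),([(0,1,[(4,5)])],[3])],[5,2],true,2,3,[4]),
    (true,[([(0,10,[(5,6),(5,5),(3,4)])],[]),([(0,1,[(4,5)])],[3])],[2,2,2],false,1,0,[2]),
    (true,[([(0,8,[(5,6),(3,4)])],[]),([(0,7,[(5,5),(2,2)])],[4]),([(0,1,[(4,5)])],[3])],[],false,1,0,[]),
    (true,[([(0,0,[(5,6)])],[1]),([(0,7,[(6,6)])],[4])],[4,3,2,2],false,3,3,[5,6]),
    (true,[([(0,0,[(5,6)])],[]),([(0,13,[(6,6),(4,5)])],[4])],[2,2,2,2],false,1,0,[3]),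
    (true,[([(0,10,[(5,6),(6,6),(2,3)])],[]),([(0,1,[(4,5)])],[3])],[2,2,2],false,1,0,[2]),
    (true,[([(0,16,[(5,6),(6,6),(2,2)])],[]),([(0,1,[(4,5)])],[3]),([(0,3,[(2,3)])],[2])],[2],false,1,0,[]),
    (true,[([(0,0,[(5,6)])],[3]),([(0,16,[(6,6),(6,6)])],[])],[2,2,2],false,1,0,[]),
    (true,[([(0,14,[(7,8)])],[4])],[4,4,2,2,2,2,1],true,3,4,[6,8]),
    (true,[([(0,2,[(7,8)])],[1]),([(0,0,[(4,6)])],[1])],[5,2,2,2,2],false,2,5,[3,4,5,6]),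
    (true,[([(0,2,[(7,8)]),(0,3,[(3,3)])],[]),([(0,0,[(4,6)])],[])],[4,2,2,2,2],false,2,3,[3]),
    (true,[([(0,16,[(7,8),(3,3),(3,3)])],[]),([(0,0,[(4,6)])],[3])],[2,2,2],false,1,0,[2]),
    (true,[([(0,2,[(7,8)]),(0,3,[(3,3)])],[]),([(0,0,[(4,6)])],[]),([(0,1,[(3,3),(2,2)])],[3])],[2,2],false,1,0,[]),
    (true,[([(0,14,[(7,8)])],[4]),([(0,0,[(4,6)])],[1]),([(0,4,[(4,4)])],[])],[4,2],false,2,2,[3]),
    (true,[([(0,2,[(7,8)]),(0,3,[(3,3)])],[]),([(0,8,[(4,6),(4,4)])],[])],[2,2,2,2],false,1,0,[]),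
    (true,[([(0,16,[(7,8),(5,5)])],[]),([(0,0,[(4,6)])],[3])],[2,2,2],false,1,0,[2]),
    (true,[([(0,2,[(7,8)])],[1]),([(0,0,[(4,6)])],[1]),([(0,7,[(5,5),(2,2)])],[4])],[2],false,1,0,[]),
    (true,[([(0,16,[(7,8),(6,6)])],[]),([(0,0,[(4,6)])],[3])],[2,2,2],false,1,0,[]),
    (true,[([(0,14,[(7,8)])],[4]),([(0,2,[(7,8)])],[2])],[2,2,2,1],true,2,2,[3]),
    (true,[([(0,14,[(7,8)])],[4]),([(0,2,[(7,8)])],[2]),([(0,3,[(3,3)])],[])],[2,2],false,1,0,[]),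
    (true,[([(0,8,[(9,10)])],[])],[5,4,2,2,2,2,2],false,3,4,[5,7]),
    (true,[([(0,10,[(9,10),(4,5)])],[])],[4,2,2,2,2,2],false,2,3,[4]),
    (true,[([(0,16,[(9,10),(3,4)])],[]),([(0,1,[(4,5)])],[3])],[3,2,2],false,2,1,[]),
    (true,[([(0,8,[(9,10)])],[]),([(0,7,[(6,7)])],[4])],[4,2,2],false,2,1,[]),
    (true,[([(0,16,[(11,14)])],[])],[4,3,2,2,2,2],false,3,3,[5]),
    (true,[([(0,16,[(11,14)])],[]),([(0,1,[(4,5)])],[3])],[3,2,2],false,2,1,[]),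
    (false,[([(0,10,[(15,15)])],[4,2,2,2,2,2])],[],false,1,0,[])]),
  ([11,10,9,2,1], [
    (false,[],[11,10,9,2,1],false,3,11,[4,5,6,8,11,12,13,14,15]),
    (true,[([(0,4,[(4,4)])],[2])],[5,4,3,3,3,3,3,2,1],false,4,3,[]),
    (true,[([(0,1,[(5,5)])],[3,3])],[4,3,3,3,3,3,2,1],true,3,7,[4,5]),
    (true,[([(0,1,[(5,5)])],[3,3]),([(0,4,[(4,4)])],[2])],[4,3,3,3,2,1],false,3,3,[4]),
    (true,[([(0,1,[(5,5)])],[3,3]),([(0,4,[(4,4)])],[2]),([(0,4,[(4,4)])],[2])],[4,3,2,1],false,4,1,[]),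
    (true,[([(0,8,[(5,5),(5,5)])],[3])],[3,3,3,3,3,3,2],true,2,6,[3,4,5]),
    (false,[([(0,10,[(5,5),(5,5),(3,3)])],[3,3,3,3,3,3])],[],false,1,0,[2,3]),
    (false,[([(0,10,[(5,5),(5,5),(3,3),(2,2)])],[3,3,3,3,3,3])],[],false,1,0,[2]),
    (true,[([(2,2,[(5,5),(5,5),(3,3),(2,2),(2,2)])],[])],[3,3,3,3,3],false,1,0,[2]),
    (true,[([(2,43,[(5,5),(5,5),(3,3),(2,2),(2,2),(2,2)])],[])],[3,3,3,3],false,1,0,[2]),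
    (true,[([(2,38,[(5,5),(5,5),(3,3),(2,2),(2,2),(2,2),(2,2)])],[])],[3,3,3,3],false,1,0,[]),
    (true,[([(0,8,[(5,5),(5,5)])],[]),([(0,3,[(3,3)]),(0,3,[(3,3)])],[2])],[3,3,3,3,3],false,1,0,[2,3]),
    (true,[([(2,5,[(5,5),(5,5),(3,3),(3,3),(2,2)])],[])],[3,3,3,3,3],false,1,0,[2]),
    (true,[([(2,30,[(5,5),(5,5),(3,3),(3,3),(2,2),(2,2)])],[])],[3,3,3,3],false,1,0,[]),
    (true,[([(2,31,[(5,5),(5,5),(3,3),(3,3),(3,3)])],[])],[3,3,3,3],false,1,0,[]),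
    (true,[([(0,8,[(5,5),(5,5)])],[]),([(0,4,[(4,4)])],[2])],[5,3,3,3,3],false,2,3,[3,4]),
    (true,[([(0,10,[(5,5),(5,5),(3,3)])],[]),([(0,4,[(4,4)])],[2])],[3,3,3,3],false,1,0,[2]),
    (true,[([(0,10,[(5,5),(5,5),(3,3),(2,2)])],[]),([(0,4,[(4,4)])],[2])],[3,3,3,3],false,1,0,[]),
    (true,[([(0,10,[(5,5),(5,5),(4,4)])],[]),([(0,4,[(4,4)])],[2])],[3,3,3,3],false,1,0,[]),
    (false,[([(0,10,[(5,5),(5,5),(5,5)])],[3,3,3,3,3,3])],[],false,1,0,[2,3]),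
    (true,[([(2,8,[(5,5),(5,5),(5,5),(2,2)])],[])],[3,3,3,3,3],false,1,0,[2]),
    (true,[([(2,32,[(5,5),(5,5),(5,5),(2,2),(2,2)])],[])],[3,3,3,3],false,1,0,[]),
    (true,[([(2,10,[(5,5),(5,5),(5,5),(3,3)])],[])],[3,3,3,3,3],false,1,0,[]),
    (true,[([(0,0,[(6,6)])],[])],[5,4,3,3,3,3,3,3],false,3,4,[5,6]),
    (true,[([(0,13,[(6,6),(4,5)])],[])],[5,3,3,3,3,3,2],false,2,6,[3,4,5]),
    (true,[([(0,13,[(6,6),(4,5)])],[]),([(0,3,[(3,3)])],[2])],[5,3,3,3,3],false,2,4,[3]),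
    (true,[([(0,13,[(6,6),(4,5)])],[]),([(0,3,[(3,3)]),(0,3,[(3,3)])],[2])],[3,3,3,3,2],false,2,2,[3]),
    (true,[([(0,13,[(6,6),(4,5)])],[]),([(0,3,[(3,3)]),(0,3,[(3,3)])],[2]),([(0,3,[(3,3)])],[2])],[3,3,3],false,1,0,[]),
    (true,[([(0,13,[(6,6),(4,5)])],[]),([(0,4,[(4,4)])],[2])],[5,3,3,3,2],false,3,2,[4]),
    (true,[([(0,10,[(6,6),(4,5),(4,4)])],[]),([(0,4,[(4,4)])],[2])],[3,3,3,3],false,1,0,[]),
    (true,[([(0,13,[(6,6),(4,5)])],[]),([(0,1,[(5,5)])],[3,3])],[3,3,3,2],false,2,2,[3]),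
    (true,[([(0,13,[(6,6),(4,5)])],[]),([(0,1,[(5,5)])],[3,3]),([(0,3,[(3,3)])],[2])],[3,3],false,1,0,[]),
    (false,[([(0,10,[(6,6),(6,6)])],[3,3,3,3,3,3])],[],false,1,0,[2,3,5]),
    (true,[([(0,2,[(6,6),(2,2)])],[]),([(0,0,[(6,6)])],[2])],[5,3,3,3,3],false,2,3,[]),
    (false,[([(0,10,[(6,6),(6,6),(3,3)])],[3,3,3,3,3,3])],[],false,1,0,[2,3]),
    (true,[([(0,2,[(6,6),(2,2)])],[]),([(0,0,[(6,6)]),(0,3,[(3,3)])],[])],[4,3,3,3,3],false,2,1,[]),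
    (true,[([(2,12,[(6,6),(6,6),(3,3),(3,3)])],[])],[3,3,3,3,3],false,1,0,[]),
    (true,[([(0,13,[(6,6),(4,5)])],[]),([(0,0,[(6,6)])],[3,1])],[3,3,3,3],false,1,0,[2]),
    (false,[([(0,13,[(6,6),(4,5)]),(0,2,[(6,6),(2,2)])],[3,3,3,3])],[2],false,1,0,[]),
    (true,[([(0,2,[(7,8)])],[])],[5,4,3,3,3,3,3,1],false,3,5,[4,6,8]),
    (true,[([(0,2,[(7,8)])],[]),([(0,4,[(4,4)])],[2])],[5,4,3,3,3,1],false,4,1,[]),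
    (true,[([(0,2,[(7,8)])],[]),([(0,0,[(5,6)])],[2])],[5,3,3,3,3],false,2,4,[3,4,5]),
    (true,[([(0,2,[(7,8)])],[]),([(0,0,[(5,6)]),(0,3,[(3,3)])],[])],[4,3,3,3,3],false,2,2,[3]),
    (true,[([(0,2,[(7,8)])],[]),([(0,0,[(5,6)]),(0,3,[(3,3)])],[]),([(0,3,[(3,3)])],[2,2])],[3,3,3],false,1,0,[]),
    (true,[([(0,2,[(7,8)])],[]),([(0,0,[(5,6)])],[2]),([(0,4,[(4,4)])],[2])],[5,3,3],false,2,1,[]),
    (true,[([(0,2,[(7,8)])],[]),([(0,0,[(5,6)])],[2]),([(0,1,[(5,5)])],[3,3])],[3,3],false,1,0,[]),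
    (true,[([(0,2,[(7,8)])],[]),([(0,2,[(7,8)])],[3,1])],[3,3,3,3,1],true,2,2,[3]),
    (false,[([(0,13,[(7,8),(3,3)]),(0,2,[(7,8)])],[3,3,3,3])],[2],false,1,0,[]),
    (true,[([(0,13,[(9,11)])],[])],[5,3,3,3,3,3,2],false,2,6,[3,4,5,6,7]),
    (true,[([(0,13,[(9,11)])],[]),([(0,3,[(3,3)])],[2])],[5,3,3,3,3],false,2,4,[3]),
    (true,[([(0,13,[(9,11)])],[]),([(0,3,[(3,3)]),(0,3,[(3,3)])],[2])],[3,3,3,3,2],false,2,2,[3]),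
    (true,[([(0,13,[(9,11)])],[]),([(0,3,[(3,3)]),(0,3,[(3,3)])],[2]),([(0,3,[(3,3)])],[2])],[3,3,3],false,1,0,[]),
    (true,[([(0,13,[(9,11)])],[]),([(0,4,[(4,4)])],[2])],[5,3,3,3,2],false,3,2,[4]),
    (true,[([(0,10,[(9,11),(4,4)])],[]),([(0,4,[(4,4)])],[2])],[3,3,3,3],false,1,0,[]),
    (true,[([(0,13,[(9,11)])],[]),([(0,1,[(5,5)])],[3,3])],[3,3,3,2],false,2,2,[3]),
    (true,[([(0,13,[(9,11)])],[]),([(0,1,[(5,5)])],[3,3]),([(0,3,[(3,3)])],[2])],[3,3],false,1,0,[]),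
    (true,[([(0,13,[(9,11)])],[]),([(0,0,[(6,6)])],[3,1])],[3,3,3,3],false,1,0,[2]),
    (false,[([(0,13,[(9,11)]),(0,2,[(6,6),(2,2)])],[3,3,3,3])],[2],false,1,0,[]),
    (false,[([(0,13,[(9,11)]),(0,2,[(7,7)])],[3,3,3,3])],[2],false,1,0,[]),
    (true,[([(0,9,[(12,12)])],[1])],[3,3,3,3,3,3,1],true,2,3,[3,4]),
    (false,[([(0,10,[(12,12),(3,3)])],[3,3,3,3,3,3])],[],false,1,0,[2]),
    (true,[([(2,33,[(12,12),(3,3),(2,2)])],[])],[3,3,3,3,3],false,1,0,[]),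
    (true,[([(0,9,[(12,12)])],[1]),([(0,4,[(4,4)])],[2])],[3,3,3,3,1],false,1,0,[]),
    (true,[([(0,9,[(13,13)])],[1])],[3,3,3,3,3,3,1],true,2,2,[3]),
    (true,[([(2,34,[(13,13),(3,3)])],[])],[3,3,3,3,3],false,1,0,[]),
    (false,[([(0,10,[(14,14)])],[3,3,3,3,3,3])],[],false,1,0,[2]),
    (true,[([(2,35,[(14,14),(2,2)])],[])],[3,3,3,3,3],false,1,0,[]),
    (false,[([(0,10,[(15,15)])],[3,3,3,3,3,3])],[],false,1,0,[])]),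
  ([12,4,3,2,2,2,2,1], [
    (false,[],[12,4,3,2,2,2,2,1],true,4,5,[6,8,10,13,15]),
    (true,[([(0,0,[(5,6)])],[])],[8,7,1,1,1,1,1,1,1],false,3,7,[5,6]),
    (true,[([(0,0,[(5,6)]),(0,1,[(4,5)])],[1])],[8,1,1,1,1,1,1,1,1],false,2,7,[3,4,5]),
    (false,[([(0,0,[(5,6)]),(0,1,[(4,5)]),(0,3,[(3,3)])],[1,1,1,1])],[3,2,2,2,1],true,2,5,[3]),
    (false,[([(0,0,[(5,6)]),(0,1,[(4,5)]),(0,3,[(3,3)])],[1,1,1,1]),([(0,3,[(3,3)])],[])],[3,2,2],false,2,3,[3]),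
    (false,[([(0,0,[(5,6)]),(0,1,[(4,5)]),(0,3,[(3,3)])],[1,1,1,1]),([(0,0,[(3,3),(3,3)])],[])],[2,2],false,1,0,[2]),
    (false,[([(0,14,[(5,6),(2,2)]),(0,14,[(4,5),(3,3)])],[1,1,1,1]),([(0,0,[(3,3),(3,3)])],[])],[2],false,1,0,[]),
    (true,[([(0,23,[(5,6),(4,4)]),(0,1,[(4,5)])],[])],[7,1,1,1,1,1,1],false,2,4,[4]),
    (false,[([(0,8,[(5,6),(3,4)]),(0,1,[(4,5)])],[1,1,1,1,1]),([(0,4,[(4,4)])],[])],[2,2],false,1,0,[2,3]),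
    (false,[([(0,14,[(5,6),(2,2)]),(0,14,[(4,4),(3,4)])],[1,1,1,1]),([(0,0,[(4,5)])],[])],[2],false,1,0,[2]),
    (false,[([(0,0,[(5,6)]),(0,1,[(4,5)]),(0,3,[(2,2)])],[1,1,1,1]),([(0,4,[(4,4)])],[]),([(0,0,[(3,4),(2,2)])],[])],[],false,1,0,[]),
    (false,[([(0,0,[(5,6)])],[]),([(0,14,[(4,5),(3,3)]),(0,14,[(4,4),(3,4)])],[1,1,1,1])],[2],false,1,0,[]),
    (false,[([(0,0,[(5,6)]),(0,1,[(4,5)]),(0,1,[(5,5)])],[1,1,1])],[2,2,2,2,1],true,2,3,[3,4]),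
    (true,[([(0,0,[(5,6)]),(0,3,[(3,3)])],[1,1]),([(0,23,[(4,5),(5,5)])],[1,1,1])],[1,1,1,1],false,1,0,[2]),
    (false,[([(0,14,[(5,6),(2,2)]),(0,23,[(4,5),(5,5)])],[1,1,1]),([(0,3,[(3,3)])],[2])],[2],false,1,0,[]),
    (false,[([(0,23,[(5,6),(4,4)]),(0,23,[(4,5),(5,5)])],[1,1])],[3,2,1],false,1,0,[]),
    (true,[([(0,24,[(5,6),(6,6)])],[1])],[8,3,1,1,1,1],false,3,3,[6]),
    (true,[([(0,24,[(5,6),(6,6)])],[1]),([(0,0,[(4,6)])],[2,1,1,1,1])],[1,1,1],false,1,0,[3]),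
    (true,[([(0,24,[(5,6),(6,6)]),(0,3,[(2,3)])],[]),([(0,0,[(4,6)])],[1,1,1,1])],[1,1,1],false,1,0,[2]),
    (false,[([(0,14,[(5,6),(2,2)]),(0,7,[(6,6)]),(0,3,[(2,3)])],[1,1]),([(0,0,[(4,6)])],[])],[2],false,1,0,[]),
    (true,[([(0,14,[(7,8)])],[1,1,1])],[8,3,1,1,1,1,1,1],true,3,4,[5,8]),
    (true,[([(0,14,[(7,8)]),(0,1,[(4,5)])],[])],[8,1,1,1,1,1,1,1],false,2,5,[3,4,5]),
    (false,[([(0,14,[(7,8)]),(0,14,[(4,5),(3,3)])],[1,1,1,1])],[3,2,2,1],false,3,1,[]),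
    (true,[([(0,24,[(7,8),(4,4)])],[1]),([(0,1,[(4,5)])],[])],[8,1,1],false,2,2,[3]),
    (true,[([(0,24,[(7,8),(4,4)])],[1]),([(0,14,[(4,5),(3,3)])],[2,1,1,1])],[1,1],false,1,0,[]),
    (false,[([(0,14,[(7,8)]),(0,23,[(4,5),(5,5)])],[1,1,1])],[3,2,2],false,2,1,[]),
    (false,[([(0,14,[(7,8)]),(0,14,[(6,8)])],[1,1,1,1])],[3,2,2,1],false,3,1,[4]),
    (true,[([(0,24,[(7,8),(4,4)])],[1]),([(0,14,[(6,8)])],[2,1,1,1])],[1,1],false,1,0,[]),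
    (true,[([(0,23,[(9,10)])],[1,1])],[8,3,1,1,1,1,1],false,3,3,[5,7]),
    (true,[([(0,23,[(9,10)]),(0,1,[(4,5)])],[])],[7,1,1,1,1,1,1],false,2,3,[3,4]),
    (false,[([(0,23,[(9,10)]),(0,14,[(4,5),(3,3)])],[1,1,1])],[3,2,2],false,2,1,[]),
    (true,[([(0,10,[(9,10),(4,5)]),(0,4,[(4,4)])],[2])],[1,1,1,1,1,1,1],false,1,0,[]),
    (false,[([(0,23,[(9,10)]),(0,7,[(6,7)])],[1,1,1])],[4,2,2],false,2,1,[]),
    (true,[([(0,28,[(11,13)])],[1])],[8,1,1,1,1,1],false,2,4,[3,4,5]),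
    (true,[([(0,31,[(11,13),(3,3)])],[])],[8,1,1,1,1],false,2,2,[3]),
    (true,[([(0,31,[(11,13),(3,3)])],[]),([(0,3,[(3,3)])],[1,1,1,1,1,1])],[1,1,1],false,1,0,[]),
    (false,[([(0,9,[(11,13)])],[1,1,1,1,1,1,1,1]),([(0,4,[(4,4)])],[])],[2,1],false,2,1,[]),
    (false,[([(0,33,[(11,13),(5,5)])],[7,1,1,1])],[],false,1,0,[]),
    (true,[([(0,34,[(14,15)])],[])],[7,3,2,1],false,2,1,[])]),
  ([12,5,4,3,3,1], [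
    (false,[],[12,5,4,3,3,1],false,4,5,[6,10,14,15]),
    (true,[([(0,0,[(5,6)])],[1,1])],[6,5,3,1,1,1,1,1,1],false,4,3,[6]),
    (true,[([(0,18,[(5,6),(5,6)])],[])],[6,5,1,1,1,1,1],false,3,5,[5,6]),
    (false,[([(0,0,[(5,6)]),(0,0,[(5,6)]),(0,1,[(4,5)])],[1,1,1])],[4,3,1],false,3,1,[4]),
    (true,[([(0,18,[(5,6),(5,6)])],[]),([(0,1,[(4,5)])],[1,1]),([(0,1,[(4,4)])],[1,1,1])],[1],false,1,0,[]),
    (true,[([(0,18,[(5,6),(5,6)])],[]),([(0,7,[(6,6)])],[1])],[6,1,1],false,2,1,[]),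
    (true,[([(0,8,[(7,10)])],[1])],[6,5,1,1,1,1,1,1],false,3,5,[4,5,7,9]),
    (true,[([(0,8,[(7,10)]),(0,4,[(4,4)])],[])],[5,3,1,1,1,1,1,1],false,3,3,[4]),
    (true,[([(0,8,[(7,10)]),(0,4,[(4,4)])],[]),([(0,1,[(4,4)])],[])],[5,1,1,1,1],false,2,2,[3]),
    (true,[([(0,8,[(7,10)]),(0,4,[(4,4)])],[]),([(0,7,[(4,4),(3,3)])],[1])],[3,1,1,1],false,1,0,[]),
    (true,[([(0,10,[(7,10),(5,5)])],[2])],[5,1,1,1,1,1,1],false,2,4,[3,5]),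
    (false,[([(0,8,[(7,10)]),(0,1,[(5,5)]),(0,3,[(3,3)])],[1,1,1])],[4,3],false,2,2,[3]),
    (false,[([(0,8,[(7,10)]),(0,1,[(5,5)]),(0,3,[(3,3)])],[1,1,1]),([(0,3,[(3,3)])],[2,2])],[],false,1,0,[]),
    (true,[([(0,10,[(7,10),(5,5)])],[2]),([(0,1,[(4,5)])],[1,1])],[1,1,1,1],false,1,0,[2]),
    (true,[([(0,8,[(7,10)])],[1]),([(0,7,[(5,5),(2,2)])],[1]),([(0,1,[(4,5)])],[1,1,1])],[1],false,1,0,[]),
    (true,[([(0,8,[(7,10)])],[1]),([(0,7,[(6,7)])],[1])],[6,1,1,1],false,2,3,[3,4]),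
    (true,[([(0,8,[(7,10)])],[3,2]),([(0,23,[(6,7),(3,3)])],[])],[1,1,1],false,1,0,[2]),
    (true,[([(0,8,[(7,10)])],[1]),([(0,7,[(6,7)])],[1]),([(0,1,[(3,3),(2,2)])],[1,1,1])],[1],false,1,0,[]),
    (true,[([(0,8,[(7,10)]),(0,4,[(4,4)])],[]),([(0,7,[(6,7)])],[1])],[3,1,1,1],false,1,0,[]),
    (true,[([(0,8,[(7,10)])],[1]),([(0,25,[(8,9)])],[])],[6,1,1],false,2,1,[]),
    (true,[([(0,28,[(11,14)])],[])],[5,5,1,1,1,1],false,2,4,[3,5]),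
    (true,[([(0,28,[(11,14)])],[]),([(0,3,[(3,3)])],[1,1,1])],[5,1,1,1],false,2,2,[3]),
    (true,[([(0,28,[(11,14)])],[]),([(0,3,[(3,3)])],[1,1,1]),([(0,3,[(3,3)])],[1,1,1])],[1,1],false,1,0,[]),
    (true,[([(0,28,[(11,14)])],[]),([(0,1,[(4,5)])],[1,1])],[5,1,1],false,2,1,[]),
    (false,[([(0,10,[(15,15)])],[4,1,1,1,1,1,1])],[3],false,1,0,[])]),
  ([12,6,5,4,1], [
    (false,[],[12,6,5,4,1],false,4,5,[6,10,15]),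
    (true,[([(0,0,[(5,6)])],[1])],[5,4,4,3,1,1,1,1,1],false,4,3,[6]),
    (true,[([(0,0,[(5,6)])],[1]),([(0,0,[(5,6)])],[2])],[5,4,1,1,1,1],false,3,4,[5,6]),
    (true,[([(0,18,[(5,6),(5,6)])],[]),([(0,1,[(4,5)])],[1])],[4,4,1,1],true,2,3,[4]),
    (false,[([(0,8,[(5,6),(3,4)]),(0,0,[(5,6)]),(0,1,[(4,5)])],[1,1])],[5],false,1,0,[2]),
    (true,[([(0,8,[(5,6),(3,4)])],[3]),([(0,14,[(5,6),(2,2)])],[]),([(0,1,[(4,5)])],[1])],[1],false,1,0,[]),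
    (true,[([(0,18,[(5,6),(5,6)])],[]),([(0,7,[(6,6)])],[])],[4,4,1],false,2,1,[]),
    (true,[([(0,8,[(7,10)])],[])],[5,4,4,1,1,1,1,1],false,3,5,[5,8,9]),
    (true,[([(0,8,[(7,10)])],[]),([(0,1,[(4,5)])],[1])],[5,4,1,1,1],false,3,3,[5]),
    (true,[([(0,8,[(7,10)])],[]),([(0,1,[(4,5)])],[1]),([(0,1,[(4,5)])],[1])],[5,1],true,2,2,[3]),
    (true,[([(0,8,[(7,10)])],[3]),([(0,14,[(4,5),(3,3)])],[]),([(0,1,[(4,5)])],[1])],[1],false,1,0,[]),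
    (true,[([(0,8,[(7,10)])],[3]),([(0,14,[(6,8)])],[])],[4,1,1,1],false,2,3,[3,4]),
    (true,[([(0,8,[(7,10)])],[3]),([(0,14,[(6,8)])],[]),([(0,3,[(3,3)])],[1,1])],[1,1],false,1,0,[2]),
    (true,[([(0,8,[(7,10)])],[3]),([(0,14,[(6,8)])],[]),([(0,1,[(3,3),(2,2)])],[1])],[1],false,1,0,[]),
    (true,[([(0,8,[(7,10)])],[3]),([(0,14,[(6,8)])],[]),([(0,1,[(4,4)])],[1])],[1],false,1,0,[]),
    (false,[([(0,8,[(7,10)]),(0,25,[(9,9)])],[4,4,1])],[],false,1,0,[]),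
    (true,[([(0,10,[(11,15)])],[])],[4,4,1,1,1,1,1],false,2,4,[3,5]),
    (true,[([(0,10,[(11,15)])],[]),([(0,3,[(3,3)])],[1,1])],[4,1,1,1,1],false,2,2,[3]),
    (true,[([(0,10,[(11,15)])],[]),([(0,3,[(3,3)])],[1,1]),([(0,3,[(3,3)])],[1,1])],[1,1,1],false,1,0,[]),
    (true,[([(0,10,[(11,15)])],[]),([(0,1,[(4,5)])],[1])],[4,1,1,1],false,2,1,[])]),
  ([12,7,3,2,1,1,1,1], [
    (false,[],[12,7,3,2,1,1,1,1],true,5,3,[8,12,15]),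
    (true,[([(0,14,[(6,8)])],[])],[8,3,2,2,2,1,1,1],false,4,3,[6,8]),
    (true,[([(0,14,[(6,8)]),(0,0,[(5,6)])],[1])],[3,2,2,2,1,1,1,1],false,3,3,[6]),
    (false,[([(0,14,[(6,8)]),(0,0,[(5,6)]),(0,0,[(4,6)])],[2,1])],[2,1,1,1],false,2,2,[3]),
    (false,[([(0,14,[(6,8)]),(0,0,[(5,6)]),(0,0,[(4,6)]),(0,3,[(3,3)])],[])],[2,1,1,1],false,1,0,[]),
    (true,[([(0,14,[(6,8)]),(0,14,[(7,8)])],[])],[3,2,2,1,1,1,1,1],false,3,3,[4]),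
    (false,[([(0,18,[(6,8),(4,4)]),(0,14,[(7,8)])],[2,2,1])],[1,1,1],false,1,0,[]),
    (true,[([(0,18,[(9,12)])],[1,1,1])],[4,2,2,2,1,1,1],false,3,3,[6,7]),
    (false,[([(0,18,[(9,12)]),(0,0,[(4,6)])],[2,2,1,1])],[2,1,1],false,1,0,[3,4]),
    (false,[([(0,18,[(9,12)]),(0,0,[(4,6)]),(0,3,[(2,3)])],[2,1])],[2,1,1],false,2,2,[3]),
    (false,[([(0,18,[(9,12)]),(0,0,[(4,6)]),(0,3,[(2,3)]),(0,3,[(3,3)])],[])],[2,1,1],false,1,0,[]),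
    (false,[([(0,18,[(9,12)]),(0,0,[(4,6)]),(0,4,[(4,4)])],[1,1])],[2,1,1],false,1,0,[]),
    (false,[([(0,27,[(9,12),(7,7)])],[2,2,2,1,1])],[1],false,1,0,[]),
    (true,[([(0,31,[(13,15)])],[1])],[4,2,2,2,1],false,3,1,[])]),
  ([12,7,4,2,1,1,1], [
    (false,[],[12,7,4,2,1,1,1],true,5,4,[8,12,15]),
    (true,[([(0,14,[(6,8)])],[])],[7,3,3,2,2,1,1,1],false,4,3,[6,8]),
    (true,[([(0,14,[(6,8)])],[]),([(0,0,[(5,6)])],[])],[7,3,2,1,1],false,4,2,[6]),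
    (true,[([(0,14,[(6,8)])],[]),([(0,18,[(5,6),(5,6)])],[1,1])],[3,2,1],false,2,1,[]),
    (true,[([(0,14,[(6,8)])],[]),([(0,14,[(7,8)])],[1,1,1])],[3,3,2,1],false,3,1,[4]),
    (false,[([(0,18,[(6,8),(4,4)]),(0,14,[(7,8)])],[3,2,1])],[1,1],false,1,0,[]),
    (true,[([(0,18,[(9,12)])],[1,1])],[4,3,2,2,1,1,1],false,4,3,[6,7]),
    (true,[([(0,18,[(9,12)])],[1,1]),([(0,0,[(5,6)])],[])],[4,2,1,1],false,3,2,[]),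
    (false,[([(0,27,[(9,12),(7,7)])],[3,2,2,1,1])],[],false,1,0,[]),
    (true,[([(0,21,[(13,15)])],[1])],[4,2,2,2,1,1],false,3,2,[])]),
  ([12,7,6,2,1], [
    (false,[],[12,7,6,2,1],true,4,5,[6,10,15]),
    (true,[([(0,0,[(5,6)])],[])],[5,4,3,3,3,1,1,1,1],false,4,4,[6]),
    (true,[([(0,18,[(5,6),(5,6)])],[])],[4,3,3,3,1,1,1],false,3,3,[6]),
    (true,[([(0,18,[(5,6),(5,6)])],[]),([(0,0,[(4,6)])],[2])],[3,3,1,1],true,2,3,[3,4]),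
    (true,[([(0,18,[(5,6),(5,6)])],[]),([(0,0,[(4,6)])],[2]),([(0,3,[(3,3)])],[1])],[3,1],false,2,1,[]),
    (true,[([(0,18,[(5,6),(5,6)])],[]),([(0,0,[(4,6)])],[2]),([(0,4,[(4,4)])],[2])],[1,1],false,1,0,[]),
    (true,[([(0,8,[(7,10)])],[])],[5,3,3,3,1,1,1,1],false,3,4,[5,8,9]),
    (true,[([(0,8,[(7,10)])],[]),([(0,1,[(4,5)])],[])],[5,3,3,1,1],false,3,2,[5]),
    (true,[([(0,8,[(7,10)])],[]),([(0,1,[(4,5)])],[]),([(0,1,[(4,5)])],[])],[5,3],false,2,2,[3]),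
    (true,[([(0,8,[(7,10)])],[]),([(0,14,[(4,5),(3,3)])],[2]),([(0,1,[(4,5)])],[])],[3],false,1,0,[]),
    (true,[([(0,8,[(7,10)])],[]),([(0,14,[(6,8)])],[2])],[3,3,1,1],true,2,3,[3,4]),
    (true,[([(0,8,[(7,10)])],[]),([(0,14,[(6,8)])],[2]),([(0,3,[(3,3)])],[1])],[3,1],false,2,1,[]),
    (true,[([(0,8,[(7,10)])],[]),([(0,14,[(6,8)])],[2]),([(0,4,[(4,4)])],[2])],[1,1],false,1,0,[]),
    (false,[([(0,8,[(7,10)]),(0,25,[(9,9)])],[3,3,3])],[],false,1,0,[]),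
    (true,[([(0,10,[(11,15)])],[])],[3,3,3,1,1,1,1],false,2,4,[3,5]),
    (true,[([(0,10,[(11,15)])],[]),([(0,3,[(3,3)])],[1])],[3,3,1,1,1],false,2,2,[3]),
    (true,[([(0,10,[(11,15)])],[]),([(0,3,[(3,3)])],[1]),([(0,3,[(3,3)])],[1])],[3,1,1],false,1,0,[]),
    (true,[([(0,10,[(11,15)])],[]),([(0,1,[(4,5)])],[])],[3,3,1,1],false,2,1,[])]),
  ([12,8,5,2,1], [
    (false,[],[12,8,5,2,1],true,5,4,[8,12,15]),
    (true,[([(0,14,[(6,8)])],[])],[5,3,3,3,2,2,1,1],false,3,5,[6,8]),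
    (true,[([(0,14,[(6,8)])],[]),([(0,0,[(4,6)])],[])],[5,3,3,2,1],true,4,2,[6]),
    (true,[([(0,14,[(6,8)])],[]),([(0,0,[(4,6)])],[]),([(0,0,[(5,6)])],[])],[5,3],false,2,2,[3]),
    (false,[([(0,14,[(6,8)]),(0,0,[(4,6)]),(0,8,[(5,6),(3,3)])],[3])],[1],false,1,0,[]),
    (true,[([(0,14,[(6,8)])],[]),([(0,2,[(7,8)])],[])],[5,3,2,1,1],false,4,2,[]),
    (true,[([(0,18,[(9,12)])],[])],[4,3,3,2,2,1,1],false,4,2,[6,7]),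
    (true,[([(0,18,[(9,12)])],[]),([(0,0,[(5,6)])],[])],[4,3,2,1],false,3,2,[]),
    (false,[([(0,18,[(9,12)]),(0,14,[(7,7)])],[3,3,2])],[],false,1,0,[]),
    (true,[([(0,10,[(13,15)])],[])],[3,3,2,2,1,1,1],false,3,2,[])])]

theorem cj5d_10_ok : runAllJ S38 R38 F38 14 cj5d_10 = true := by decide +kernel

noncomputable def cj5d_11 : List (List ℕ × List NdJ) := [
  ([12,11,3,2,1], [
    (false,[],[12,11,3,2,1],false,2,14,[3,4,5,6,7,8,9,10,12,14,15]),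
    (true,[([(0,3,[(3,3)])],[])],[5,4,3,2,2,2,2,2,2,2],false,3,6,[]),
    (true,[([(0,4,[(4,4)])],[])],[5,4,3,2,2,2,2,2,2,1],false,4,4,[]),
    (true,[([(0,1,[(5,5)])],[3])],[5,3,2,2,2,2,2,2,1],true,2,10,[3,4,5]),
    (true,[([(0,14,[(5,5),(3,3)])],[4])],[4,2,2,2,2,2,2,1],true,2,8,[3]),
    (true,[([(0,1,[(5,5)])],[3]),([(0,3,[(3,3)]),(0,3,[(3,3)])],[1])],[3,2,2,2,2,2,1],true,2,6,[3]),
    (true,[([(0,14,[(5,5),(3,3)])],[4]),([(0,3,[(3,3)]),(0,3,[(3,3)])],[])],[2,2,2,2,2,1],true,2,4,[3]),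
    (true,[([(0,14,[(5,5),(3,3)])],[4]),([(0,3,[(3,3)]),(0,3,[(3,3)])],[]),([(0,3,[(3,3)])],[])],[2,2,2,2],false,1,0,[2,3]),
    (true,[([(0,7,[(5,5),(2,2)])],[4]),([(0,0,[(3,3),(3,3)])],[]),([(0,3,[(3,3)]),(0,3,[(3,3)])],[])],[2,2,2],false,1,0,[2]),
    (true,[([(2,44,[(5,5),(3,3),(3,3),(3,3),(3,3),(2,2),(2,2)])],[])],[2,2,2,2],false,1,0,[]),
    (true,[([(2,45,[(5,5),(3,3),(3,3),(3,3),(3,3),(3,3)])],[])],[2,2,2,2],false,1,0,[]),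
    (true,[([(0,1,[(5,5)])],[3]),([(0,4,[(4,4)])],[])],[5,3,2,2,2,2,1],true,4,2,[]),
    (true,[([(0,8,[(5,5),(5,5)])],[4])],[2,2,2,2,2,2,2,1],true,2,6,[3,4,5]),
    (true,[([(0,14,[(5,5),(3,3)])],[4]),([(0,1,[(5,5)])],[3])],[2,2,2,2,1],true,2,4,[3]),
    (true,[([(0,16,[(5,5),(5,5),(3,3)])],[]),([(0,3,[(3,3)])],[2])],[2,2,2,2,2],false,1,0,[2,3]),
    (true,[([(2,46,[(5,5),(5,5),(3,3),(3,3),(2,2)])],[])],[2,2,2,2,2],false,1,0,[2]),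
    (true,[([(2,36,[(5,5),(5,5),(3,3),(3,3),(2,2),(2,2)])],[])],[2,2,2,2],false,1,0,[]),
    (true,[([(2,47,[(5,5),(5,5),(3,3),(3,3),(3,3)])],[])],[2,2,2,2,2],false,1,0,[]),
    (true,[([(0,1,[(5,5)])],[3]),([(0,1,[(5,5)])],[3,1]),([(0,4,[(4,4)])],[])],[3,2,2,1],false,3,1,[4]),
    (false,[([(0,16,[(5,5),(5,5),(4,4)]),(0,4,[(4,4)])],[3,2,2,2,2])],[],false,1,0,[]),
    (false,[([(0,10,[(5,5),(5,5),(5,5)])],[2,2,2,2,2,2,2])],[],false,1,0,[2,3]),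
    (true,[([(2,29,[(5,5),(5,5),(5,5),(2,2)])],[])],[2,2,2,2,2,2],false,1,0,[2]),
    (true,[([(2,48,[(5,5),(5,5),(5,5),(2,2),(2,2)])],[])],[2,2,2,2,2],false,1,0,[]),
    (true,[([(2,40,[(5,5),(5,5),(5,5),(3,3)])],[])],[2,2,2,2,2],false,1,0,[]),
    (true,[([(0,0,[(6,6)])],[])],[5,4,2,2,2,2,2,2,2],false,3,4,[4,5,6]),
    (true,[([(0,0,[(6,6)])],[]),([(0,4,[(4,4)])],[])],[5,4,2,2,2,2,2],false,3,4,[4]),
    (true,[([(0,7,[(6,6)])],[4]),([(0,4,[(4,4)])],[]),([(0,4,[(4,4)])],[])],[4,3,2,1],false,4,1,[]),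
    (true,[([(0,0,[(6,6)])],[]),([(0,1,[(5,5)])],[3])],[5,2,2,2,2,2],false,2,5,[3,4,5]),
    (true,[([(0,16,[(6,6),(5,5),(3,3)])],[])],[3,2,2,2,2,2,2],false,2,3,[3]),
    (true,[([(0,16,[(6,6),(5,5),(3,3)])],[]),([(0,3,[(3,3)])],[2])],[2,2,2,2,2],false,1,0,[2]),
    (true,[([(0,0,[(6,6)])],[]),([(0,7,[(5,5),(2,2)])],[4]),([(0,3,[(3,3)]),(0,3,[(3,3)])],[])],[2,2,2],false,1,0,[]),
    (true,[([(0,7,[(6,6)])],[4]),([(0,1,[(5,5)])],[3]),([(0,4,[(4,4)])],[])],[3,2,1],false,3,1,[]),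
    (true,[([(2,0,[(6,6),(5,5),(5,5)])],[])],[2,2,2,2,2,2],false,1,0,[2]),
    (true,[([(0,0,[(6,6)])],[]),([(0,7,[(5,5),(2,2)])],[4]),([(0,1,[(5,5)])],[3])],[2,2],false,1,0,[]),
    (true,[([(0,0,[(6,6)])],[]),([(0,7,[(6,6)])],[4])],[4,2,2,2,2],false,2,4,[3,4,5]),
    (false,[([(0,10,[(6,6),(6,6),(3,3)])],[2,2,2,2,2,2,2])],[],false,1,0,[2,3]),
    (true,[([(0,16,[(6,6),(6,6),(2,2)])],[]),([(0,3,[(3,3)])],[2])],[2,2,2,2,2],false,1,0,[2]),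
    (true,[([(2,49,[(6,6),(6,6),(3,3),(2,2),(2,2)])],[])],[2,2,2,2,2],false,1,0,[]),
    (true,[([(2,50,[(6,6),(6,6),(3,3),(3,3)])],[])],[2,2,2,2,2],false,1,0,[]),
    (true,[([(0,16,[(6,6),(6,6)])],[]),([(0,4,[(4,4)])],[])],[3,2,2,2,2],false,2,1,[]),
    (true,[([(2,37,[(6,6),(6,6),(5,5)])],[])],[2,2,2,2,2,2],false,1,0,[]),
    (true,[([(0,7,[(7,7)])],[4])],[4,3,2,2,2,2,2,1],false,3,4,[4,5,6,7]),
    (true,[([(0,7,[(7,7)])],[4]),([(0,4,[(4,4)])],[])],[4,3,2,2,2,1],false,4,1,[]),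
    (true,[([(0,7,[(7,7)])],[4]),([(0,1,[(5,5)])],[3])],[3,2,2,2,1],false,2,4,[3,4,5]),
    (true,[([(0,7,[(7,7)])],[4]),([(0,1,[(5,5)])],[3]),([(0,3,[(3,3)])],[])],[3,2,2],false,2,2,[3]),
    (true,[([(0,7,[(7,7)])],[4]),([(0,1,[(5,5)])],[3]),([(0,0,[(3,3),(3,3)])],[])],[2,2],false,1,0,[]),
    (true,[([(0,16,[(7,7),(5,5)])],[]),([(0,4,[(4,4)])],[])],[3,2,2,2,2],false,2,1,[]),
    (true,[([(0,7,[(7,7)])],[4]),([(0,8,[(5,5),(5,5)])],[])],[2,2,2,2],false,1,0,[]),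
    (true,[([(0,16,[(7,7),(6,6)])],[])],[3,2,2,2,2,2,2],false,2,3,[3,4]),
    (true,[([(0,16,[(7,7),(6,6)])],[]),([(0,3,[(3,3)])],[2])],[2,2,2,2,2],false,1,0,[2]),
    (true,[([(0,7,[(7,7)])],[4]),([(0,2,[(6,6),(2,2)])],[1]),([(0,3,[(3,3)])],[])],[2,2,2],false,1,0,[]),
    (false,[([(0,16,[(7,7),(6,6)]),(0,4,[(4,4)])],[3,2,2,2,2])],[],false,1,0,[]),
    (true,[([(0,16,[(7,7),(7,7)])],[])],[3,2,2,2,2,2,2],false,2,2,[3]),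
    (true,[([(0,16,[(7,7),(7,7)])],[]),([(0,3,[(3,3)])],[2])],[2,2,2,2,2],false,1,0,[]),
    (true,[([(0,2,[(8,8)])],[1])],[5,2,2,2,2,2,2,2,1],true,3,3,[4,5,7,8]),
    (true,[([(0,14,[(8,8)])],[4]),([(0,4,[(4,4)])],[])],[4,2,2,2,2,1],true,3,2,[4]),
    (true,[([(0,6,[(8,8),(4,4)])],[1]),([(0,4,[(4,4)])],[])],[3,2,2,2,2,1],false,2,1,[]),
    (true,[([(0,9,[(8,8),(5,5)])],[1])],[2,2,2,2,2,2,2,1],true,2,3,[3,4]),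
    (false,[([(0,9,[(8,8),(5,5)]),(0,3,[(3,3)])],[2,2,2,2,2,2])],[1],false,1,0,[2]),
    (true,[([(0,2,[(8,8)])],[1]),([(0,7,[(5,5),(2,2)])],[4]),([(0,3,[(3,3)])],[])],[2,2,2],false,1,0,[]),
    (false,[([(0,9,[(8,8),(5,5)]),(0,4,[(4,4)])],[2,2,2,2,2,1])],[1],false,1,0,[]),
    (true,[([(0,2,[(8,8)])],[1]),([(0,7,[(6,7)])],[4])],[2,2,2,2,1],true,2,2,[3]),
    (true,[([(0,2,[(8,8)])],[1]),([(0,7,[(6,7)])],[4]),([(0,3,[(3,3)])],[])],[2,2,2],false,1,0,[]),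
    (true,[([(2,51,[(8,8),(8,8)])],[])],[2,2,2,2,2,2],false,1,0,[]),
    (true,[([(0,5,[(9,9)])],[2,1])],[2,2,2,2,2,2,2,2,1],true,2,6,[3,4,5,6,7]),
    (true,[([(0,6,[(9,9),(3,3)])],[1])],[3,2,2,2,2,2,2,1],false,2,4,[3]),
    (true,[([(0,6,[(9,9),(3,3)])],[1]),([(0,3,[(3,3)])],[])],[3,2,2,2,2,2],false,2,2,[3]),
    (false,[([(0,6,[(9,9),(3,3)]),(0,0,[(3,3),(3,3)])],[2,2,2,2,2])],[1],false,1,0,[]),
    (true,[([(0,9,[(9,9),(4,4)])],[1])],[2,2,2,2,2,2,2,1],true,2,3,[4]),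
    (true,[([(0,9,[(9,9),(3,4)])],[1]),([(0,4,[(4,4)])],[])],[2,2,2,2,2,1],false,2,1,[]),
    (true,[([(0,16,[(9,9),(5,5)])],[])],[3,2,2,2,2,2,2],false,2,2,[3]),
    (true,[([(0,16,[(9,9),(5,5)])],[]),([(0,3,[(3,3)])],[2])],[2,2,2,2,2],false,1,0,[]),
    (false,[([(0,10,[(9,9),(6,6)])],[2,2,2,2,2,2,2])],[],false,1,0,[2]),
    (true,[([(2,52,[(9,9),(6,6),(2,2)])],[])],[2,2,2,2,2,2],false,1,0,[]),
    (true,[([(0,8,[(9,9)])],[]),([(0,7,[(7,7)])],[4])],[2,2,2,2],false,1,0,[]),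
    (true,[([(0,8,[(10,10)])],[])],[5,2,2,2,2,2,2,2],false,2,5,[3,4,5,6]),
    (true,[([(0,9,[(10,10),(3,3)])],[1])],[2,2,2,2,2,2,2,1],true,2,3,[3]),
    (false,[([(0,9,[(10,10),(3,3)]),(0,3,[(3,3)])],[2,2,2,2,2,2])],[1],false,1,0,[2]),
    (false,[([(0,6,[(10,10),(2,2)]),(0,0,[(3,3),(3,3)])],[2,2,2,2,2])],[1],false,1,0,[]),
    (true,[([(0,16,[(10,10),(4,4)])],[])],[3,2,2,2,2,2,2],false,2,2,[3]),
    (true,[([(0,16,[(10,10),(4,4)])],[]),([(0,3,[(3,3)])],[2])],[2,2,2,2,2],false,1,0,[]),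
    (false,[([(0,10,[(10,10),(5,5)])],[2,2,2,2,2,2,2])],[],false,1,0,[2]),
    (false,[([(0,6,[(10,10),(2,2)]),(0,0,[(5,5)])],[2,2,2,2,2])],[1],false,1,0,[]),
    (true,[([(2,1,[(10,10),(6,6)])],[])],[2,2,2,2,2,2],false,1,0,[]),
    (true,[([(0,6,[(11,12)])],[1])],[3,2,2,2,2,2,2,1],false,2,4,[3,4,5]),
    (true,[([(0,6,[(11,12)])],[1]),([(0,3,[(3,3)])],[])],[3,2,2,2,2,2],false,2,2,[3]),
    (false,[([(0,6,[(11,12)]),(0,0,[(3,3),(3,3)])],[2,2,2,2,2])],[1],false,1,0,[]),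
    (true,[([(0,6,[(11,12)])],[1]),([(0,4,[(4,4)])],[])],[3,2,2,2,2,1],false,2,1,[]),
    (false,[([(0,6,[(11,12)]),(0,0,[(5,5)])],[2,2,2,2,2])],[1],false,1,0,[]),
    (true,[([(0,16,[(13,14)])],[])],[3,2,2,2,2,2,2],false,2,2,[3]),
    (true,[([(0,16,[(13,14)])],[]),([(0,3,[(3,3)])],[2])],[2,2,2,2,2],false,1,0,[]),
    (false,[([(0,10,[(15,15)])],[2,2,2,2,2,2,2])],[],false,1,0,[])]),
  ([13,5,3,2,1,1,1,1,1], [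
    (false,[],[13,5,3,2,1,1,1,1,1],true,5,3,[8,12,15]),
    (false,[([(0,14,[(6,8)])],[1])],[13,3,1,1,1],true,3,4,[5,7,8]),
    (true,[([(0,14,[(6,8)]),(0,1,[(4,5)])],[1,1])],[4,2,1,1,1,1,1,1,1],false,2,6,[3,5]),
    (true,[([(0,14,[(6,8)]),(0,1,[(4,5)]),(0,3,[(3,3)])],[])],[3,2,1,1,1,1,1,1,1],false,3,2,[]),
    (false,[([(0,14,[(6,8)]),(0,8,[(4,5),(4,5)])],[1,1,1,1,1])],[1,1,1,1,1],false,1,0,[3,4]),
    (false,[([(0,14,[(6,8)]),(0,1,[(4,5)]),(0,1,[(4,5)]),(0,3,[(2,3)])],[1])],[2,1,1,1,1],false,2,2,[3]),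
    (false,[([(0,14,[(6,8)]),(0,1,[(4,5)]),(0,1,[(4,5)]),(0,3,[(2,3)])],[1]),([(0,3,[(3,3)])],[])],[1,1,1],false,1,0,[]),
    (false,[([(0,14,[(6,8)]),(0,1,[(4,5)]),(0,4,[(4,4)])],[1,1,1,1]),([(0,1,[(4,5)])],[])],[1,1],false,1,0,[]),
    (true,[([(0,14,[(6,8)])],[]),([(0,7,[(6,7)])],[1,1,1,1,1])],[3,2,1,1,1],false,3,2,[5]),
    (true,[([(0,14,[(6,8)]),(0,1,[(4,5)])],[1,1]),([(0,7,[(6,7)])],[])],[2,1,1,1,1],false,2,1,[]),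
    (true,[([(0,31,[(6,8),(8,8)])],[1,1])],[4,2,1,1,1,1],false,3,2,[]),
    (true,[([(0,18,[(9,12)])],[1,1,1,1])],[4,2,1,1,1,1,1,1],false,2,6,[3,5,7]),
    (true,[([(0,18,[(9,12)]),(0,3,[(3,3)])],[1,1])],[3,2,1,1,1,1,1,1],false,3,2,[]),
    (true,[([(0,18,[(9,12)]),(0,1,[(4,5)])],[1])],[2,2,1,1,1,1,1,1],false,2,3,[3,4]),
    (false,[([(0,18,[(9,12)]),(0,1,[(4,5)]),(0,3,[(3,3)])],[1,1,1])],[2,1,1,1],false,2,1,[]),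
    (true,[([(0,18,[(9,12)]),(0,1,[(4,5)])],[1]),([(0,4,[(4,4)])],[])],[1,1,1,1,1,1],false,1,0,[]),
    (true,[([(0,18,[(9,12)]),(0,7,[(6,7)])],[])],[2,1,1,1,1,1,1,1],false,2,1,[]),
    (true,[([(0,31,[(13,15)])],[1,1])],[4,2,1,1,1,1],false,3,2,[])]),
  ([13,6,3,3,2,1], [
    (false,[],[13,6,3,3,2,1],true,5,4,[8,12,15]),
    (true,[([(0,14,[(6,8)])],[])],[6,5,2,2,1,1,1,1,1],false,4,4,[6,8]),
    (true,[([(0,14,[(6,8)])],[]),([(0,0,[(5,6)])],[1,1])],[6,2,1,1,1,1],false,3,2,[6]),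
    (false,[([(0,14,[(6,8)]),(0,0,[(5,6)]),(0,0,[(4,6)])],[1,1,1])],[3,2],false,2,2,[3]),
    (false,[([(0,14,[(6,8)]),(0,0,[(5,6)]),(0,0,[(4,6)])],[1,1,1]),([(0,3,[(3,3)])],[2])],[],false,1,0,[]),
    (true,[([(0,14,[(6,8)])],[]),([(0,14,[(7,8)])],[1])],[6,2,1,1,1],false,3,2,[4]),
    (false,[([(0,18,[(6,8),(4,4)]),(0,14,[(7,8)])],[2,1,1,1])],[3],false,1,0,[]),
    (true,[([(0,18,[(9,12)])],[2])],[5,2,2,1,1,1,1,1],false,3,4,[5,7]),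
    (true,[([(0,18,[(9,12)])],[2]),([(0,1,[(4,5)])],[1,1])],[2,2,1,1,1],false,2,3,[3,4]),
    (true,[([(0,18,[(9,12)])],[2]),([(0,14,[(4,5),(3,3)])],[1])],[2,1,1,1],false,2,1,[]),
    (true,[([(0,18,[(9,12)])],[2]),([(0,1,[(4,5)])],[1,1]),([(0,4,[(4,4)])],[])],[1,1,1],false,1,0,[]),
    (true,[([(0,18,[(9,12)])],[2]),([(0,7,[(6,7)])],[1])],[2,2,1,1],false,2,1,[]),
    (true,[([(0,32,[(13,15)])],[])],[5,2,1,1,1,1,1],false,3,2,[])]),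
  ([13,6,4,2,2,1], [
    (false,[],[13,6,4,2,2,1],true,5,4,[8,12,15]),
    (true,[([(0,14,[(6,8)])],[1])],[6,3,3,2,1,1,1,1,1],true,4,3,[6,8]),
    (true,[([(0,14,[(6,8)])],[1]),([(0,0,[(5,6)])],[])],[6,3,1,1,1,1],false,3,3,[6]),
    (true,[([(0,14,[(6,8)])],[1]),([(0,0,[(5,6)])],[]),([(0,0,[(4,6)])],[2,1,1])],[1,1,1],false,1,0,[3]),
    (true,[([(0,14,[(6,8)]),(0,3,[(2,3)])],[]),([(0,0,[(5,6)])],[]),([(0,0,[(4,6)])],[1,1])],[1,1,1],false,1,0,[2]),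
    (true,[([(0,14,[(6,8)]),(0,3,[(2,3)])],[]),([(0,14,[(5,6),(2,2)])],[1]),([(0,0,[(4,6)])],[])],[1,1],false,1,0,[]),
    (true,[([(0,14,[(6,8)])],[1]),([(0,14,[(7,8)])],[2,1])],[3,2,1,1,1],false,3,2,[4]),
    (false,[([(0,18,[(6,8),(4,4)]),(0,14,[(7,8)])],[3,1,1,1])],[2],false,1,0,[]),
    (true,[([(0,18,[(9,12)])],[])],[6,3,2,1,1,1,1,1],false,4,2,[6,7]),
    (true,[([(0,18,[(9,12)])],[]),([(0,0,[(5,6)])],[])],[6,1,1,1,1],false,2,2,[3]),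
    (false,[([(0,10,[(9,12),(3,3)]),(0,0,[(5,6)])],[1,1,1,1,1])],[2],false,1,0,[]),
    (false,[([(0,20,[(9,12),(7,7)])],[3,1,1,1,1,1,1])],[],false,1,0,[]),
    (true,[([(0,21,[(13,15)])],[])],[5,2,2,1,1,1,1],false,3,2,[])]),
  ([13,7,3,2,1,1,1], [
    (false,[],[13,7,3,2,1,1,1],true,5,3,[8,12,15]),
    (true,[([(0,14,[(6,8)])],[])],[7,3,2,2,2,1,1,1,1],false,4,3,[6,8]),
    (true,[([(0,14,[(6,8)]),(0,0,[(5,6)])],[])],[3,2,2,2,1,1,1,1,1],false,3,3,[6]),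
    (false,[([(0,14,[(6,8)]),(0,0,[(5,6)]),(0,0,[(4,6)])],[2,1,1])],[2,1,1],false,2,2,[3]),
    (false,[([(0,14,[(6,8)]),(0,0,[(5,6)]),(0,0,[(4,6)]),(0,3,[(3,3)])],[1])],[2,1,1],false,1,0,[]),
    (true,[([(0,14,[(6,8)])],[]),([(0,14,[(7,8)])],[1,1,1])],[3,2,2,1,1],false,3,2,[4]),
    (false,[([(0,18,[(6,8),(4,4)]),(0,14,[(7,8)])],[2,2,1,1])],[1,1],false,1,0,[]),
    (true,[([(0,18,[(9,12)])],[1,1])],[4,2,2,2,1,1,1,1],false,3,4,[6,7]),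
    (true,[([(0,18,[(9,12)])],[1,1]),([(0,0,[(4,6)])],[1])],[2,2,1,1,1],false,2,3,[3,4]),
    (false,[([(0,18,[(9,12)]),(0,0,[(4,6)]),(0,3,[(3,3)])],[2,1,1])],[2,1],false,2,1,[]),
    (false,[([(0,18,[(9,12)]),(0,0,[(4,6)]),(0,4,[(4,4)])],[1,1,1])],[2,1],false,1,0,[]),
    (false,[([(0,27,[(9,12),(7,7)])],[2,2,2,1,1,1])],[],false,1,0,[]),
    (true,[([(0,31,[(13,15)])],[])],[4,2,2,2,1,1],false,3,2,[])]),
  ([13,7,4,2,1,1], [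
    (false,[],[13,7,4,2,1,1],true,5,4,[8,12,15]),
    (true,[([(0,14,[(6,8)])],[])],[6,3,3,2,2,1,1,1,1],false,4,4,[6,8]),
    (true,[([(0,14,[(6,8)])],[]),([(0,0,[(5,6)])],[])],[6,3,2,1,1,1],false,4,2,[6]),
    (true,[([(0,14,[(6,8)])],[]),([(0,18,[(5,6),(5,6)])],[1])],[3,2,1,1],false,2,1,[]),
    (true,[([(0,14,[(6,8)])],[]),([(0,14,[(7,8)])],[1,1])],[3,3,2,1,1],false,3,2,[4]),
    (false,[([(0,18,[(6,8),(4,4)]),(0,14,[(7,8)])],[3,2,1,1])],[1],false,1,0,[]),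
    (true,[([(0,18,[(9,12)])],[1])],[4,3,2,2,1,1,1,1],false,4,3,[6,7]),
    (true,[([(0,18,[(9,12)])],[1]),([(0,0,[(5,6)])],[])],[4,2,1,1,1],false,3,2,[]),
    (false,[([(0,18,[(9,12)]),(0,7,[(7,7)])],[3,2,2,1])],[1],false,1,0,[]),
    (true,[([(0,21,[(13,15)])],[])],[4,2,2,2,1,1,1],false,3,2,[])]),
  ([14,4,4,3,2,1], [
    (false,[],[14,4,4,3,2,1],true,5,3,[8,10,11,13,15]),
    (true,[([(0,14,[(6,8)])],[2])],[6,4,1,1,1,1,1,1,1,1],false,3,4,[4,5,7,8]),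
    (true,[([(0,14,[(6,8)]),(0,4,[(4,4)])],[])],[5,3,1,1,1,1,1,1,1,1],false,3,3,[4]),
    (true,[([(0,14,[(6,8)]),(0,4,[(4,4)])],[]),([(0,1,[(4,4)])],[])],[5,1,1,1,1,1,1],false,2,3,[3,4]),
    (false,[([(0,14,[(6,8)]),(0,7,[(4,4),(3,3)]),(0,1,[(4,4)])],[1,1,1])],[4,1],false,2,1,[]),
    (true,[([(0,14,[(6,8)]),(0,4,[(4,4)])],[]),([(0,14,[(4,4),(4,4)])],[2])],[1,1,1,1,1,1],false,1,0,[]),
    (true,[([(0,14,[(6,8)])],[2]),([(0,1,[(5,5)])],[1])],[6,1,1,1,1,1,1],false,2,5,[3,5]),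
    (false,[([(0,14,[(6,8)]),(0,1,[(5,5)]),(0,3,[(3,3)])],[1,1,1,1,1])],[4,3],false,2,3,[3]),
    (false,[([(0,14,[(6,8)]),(0,1,[(5,5)]),(0,3,[(3,3)])],[1,1,1,1,1]),([(0,3,[(3,3)])],[2,2])],[],false,1,0,[2]),
    (false,[([(0,8,[(6,8),(2,2)]),(0,1,[(5,5)])],[1,1,1,1,1,1,1]),([(0,3,[(3,3)]),(0,3,[(3,3)])],[])],[],false,1,0,[]),
    (false,[([(0,14,[(6,8)]),(0,1,[(5,5)]),(0,1,[(4,5)])],[1,1,1,1])],[4,2],false,2,2,[3]),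
    (false,[([(0,14,[(6,8)]),(0,1,[(5,5)]),(0,1,[(4,5)])],[1,1,1,1]),([(0,3,[(3,3)])],[2,1])],[],false,1,0,[]),
    (true,[([(0,14,[(6,8)])],[2]),([(0,7,[(6,7)])],[])],[6,1,1,1,1,1],false,2,4,[3,5]),
    (true,[([(0,14,[(6,8)]),(0,3,[(3,3)])],[]),([(0,7,[(6,7)])],[])],[5,1,1,1,1,1],false,2,2,[3]),
    (true,[([(0,14,[(6,8)]),(0,3,[(3,3)])],[]),([(0,7,[(6,7)])],[]),([(0,3,[(3,3)])],[1,1,1])],[1,1,1,1],false,1,0,[]),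
    (false,[([(0,14,[(6,8)]),(0,7,[(6,7)]),(0,1,[(4,5)])],[1,1,1])],[4,1],false,2,1,[]),
    (true,[([(0,14,[(6,8)])],[2]),([(0,25,[(8,8)])],[1])],[4,1,1,1,1],false,2,2,[3]),
    (true,[([(0,14,[(6,8)])],[2]),([(0,29,[(8,8),(3,3)])],[])],[4,1,1,1],false,1,0,[]),
    (true,[([(0,23,[(9,10)])],[2])],[5,4,1,1,1,1,1,1,1],false,3,4,[5,7]),
    (true,[([(0,23,[(9,10)])],[2]),([(0,1,[(4,5)])],[1])],[5,1,1,1,1,1],false,2,3,[3,4]),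
    (true,[([(0,22,[(9,10),(3,3)])],[2]),([(0,1,[(4,5)])],[1,1])],[1,1,1,1,1,1],false,1,0,[2]),
    (true,[([(0,23,[(9,10)])],[2]),([(0,1,[(4,5)])],[1]),([(0,1,[(3,3),(2,2)])],[1,1])],[1,1,1],false,1,0,[]),
    (true,[([(0,23,[(9,10)])],[2]),([(0,1,[(4,5)])],[1]),([(0,1,[(4,4)])],[1,1])],[1,1,1],false,1,0,[]),
    (true,[([(0,23,[(9,10)])],[2]),([(0,7,[(6,7)])],[])],[5,1,1,1,1],false,2,1,[]),
    (true,[([(0,29,[(11,11)])],[])],[5,4,3,1,1,1,1,1],false,4,3,[5]),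
    (false,[([(0,15,[(11,11),(5,5)])],[1,1,1,1,1,1,1,1,1])],[2],false,1,0,[]),
    (true,[([(0,22,[(12,13)])],[2])],[5,1,1,1,1,1,1,1,1],false,2,3,[3,4]),
    (false,[([(0,15,[(12,13),(3,3)])],[1,1,1,1,1,1,1,1,1])],[2],false,1,0,[2]),
    (true,[([(0,22,[(12,13)])],[2]),([(0,1,[(3,3),(2,2)])],[1,1])],[1,1,1,1,1,1],false,1,0,[]),
    (false,[([(0,15,[(12,13),(4,4)])],[1,1,1,1,1,1,1,1,1])],[2],false,1,0,[]),
    (false,[([(0,12,[(14,15)])],[1,1,1,1,1,1,1,1,1,1])],[2,1],false,2,1,[])]),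
  ([14,5,4,3,1,1], [
    (false,[],[14,5,4,3,1,1],false,4,4,[6,10,14,15]),
    (true,[([(0,0,[(5,6)])],[1])],[6,4,3,1,1,1,1,1,1,1,1],false,4,3,[6]),
    (true,[([(0,18,[(5,6),(5,6)])],[2])],[4,3,1,1,1,1,1,1,1],false,3,3,[5,6]),
    (true,[([(0,18,[(5,6),(5,6)])],[1]),([(0,1,[(4,5)])],[1])],[4,1,1,1,1,1],false,2,3,[3,4]),
    (true,[([(0,10,[(5,6),(5,6),(3,3)])],[1]),([(0,1,[(4,5)])],[1])],[1,1,1,1,1,1],false,1,0,[2]),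
    (false,[([(0,18,[(5,6),(5,6)]),(0,1,[(4,5)]),(0,1,[(3,3),(2,2)])],[1,1,1])],[3],false,1,0,[]),
    (false,[([(0,18,[(5,6),(5,6)]),(0,1,[(4,5)]),(0,1,[(4,4)])],[1,1,1])],[3],false,1,0,[]),
    (true,[([(0,18,[(5,6),(5,6)])],[1]),([(0,7,[(6,6)])],[])],[4,1,1,1,1],false,2,1,[]),
    (true,[([(0,8,[(7,10)])],[])],[6,4,1,1,1,1,1,1,1,1],false,3,4,[5,7,9]),
    (true,[([(0,8,[(7,10)])],[]),([(0,1,[(4,5)])],[1])],[6,1,1,1,1,1,1],false,2,5,[3,5]),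
    (true,[([(0,8,[(7,10)]),(0,3,[(3,3)])],[]),([(0,1,[(4,5)])],[])],[4,1,1,1,1,1,1],false,2,3,[3]),
    (false,[([(0,8,[(7,10)]),(0,1,[(4,5)]),(0,3,[(3,3)])],[1,1,1,1,1]),([(0,3,[(3,3)])],[1,1])],[],false,1,0,[2]),
    (false,[([(0,8,[(7,10)]),(0,1,[(4,5)]),(0,1,[(3,3),(2,2)])],[1,1,1,1]),([(0,3,[(3,3)])],[1])],[],false,1,0,[]),
    (false,[([(0,8,[(7,10)]),(0,1,[(4,5)]),(0,1,[(4,5)])],[1,1,1,1])],[3,1],true,2,2,[3]),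
    (false,[([(0,8,[(7,10)]),(0,1,[(4,5)]),(0,1,[(4,5)])],[1,1,1,1]),([(0,3,[(3,3)])],[1])],[],false,1,0,[]),
    (true,[([(0,8,[(7,10)])],[]),([(0,7,[(6,7)])],[])],[6,1,1,1,1,1],false,2,3,[3,4]),
    (true,[([(0,8,[(7,10)]),(0,3,[(3,3)])],[]),([(0,7,[(6,7)])],[])],[3,1,1,1,1,1],false,2,1,[]),
    (true,[([(0,8,[(7,10)])],[]),([(0,7,[(6,7)])],[]),([(0,1,[(4,4)])],[1,1,1])],[1,1,1],false,1,0,[]),
    (true,[([(0,8,[(7,10)])],[]),([(0,25,[(8,9)])],[1])],[4,1,1,1,1],false,2,1,[]),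
    (true,[([(0,28,[(11,14)])],[])],[4,4,1,1,1,1,1,1],false,2,4,[3,5]),
    (true,[([(0,19,[(11,14),(3,3)])],[])],[4,1,1,1,1,1,1,1],false,2,2,[3]),
    (true,[([(0,19,[(11,14),(3,3)])],[]),([(0,3,[(3,3)])],[1,1])],[1,1,1,1,1,1],false,1,0,[]),
    (true,[([(0,28,[(11,14)])],[]),([(0,1,[(4,5)])],[1])],[4,1,1,1,1],false,2,1,[]),
    (false,[([(0,10,[(15,15)])],[4,1,1,1,1,1,1,1,1])],[1],false,1,0,[])]),
  ([14,5,4,3,2], [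
    (false,[],[14,5,4,3,2],false,4,4,[6,8,12,15]),
    (true,[([(0,0,[(5,6)])],[1,1])],[5,4,3,1,1,1,1,1,1,1,1],false,4,3,[6]),
    (true,[([(0,18,[(5,6),(5,6)])],[])],[5,4,1,1,1,1,1,1,1],false,3,4,[5,6]),
    (true,[([(0,18,[(5,6),(5,6)])],[]),([(0,1,[(4,5)])],[1])],[5,1,1,1,1,1],false,2,3,[3,4]),
    (true,[([(0,10,[(5,6),(5,6),(3,3)])],[]),([(0,1,[(4,5)])],[1,1])],[1,1,1,1,1,1],false,1,0,[2]),
    (true,[([(0,18,[(5,6),(5,6)])],[]),([(0,1,[(4,5)])],[1]),([(0,1,[(3,3),(2,2)])],[1,1])],[1,1,1],false,1,0,[]),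
    (true,[([(0,18,[(5,6),(5,6)])],[]),([(0,1,[(4,5)])],[1]),([(0,1,[(4,4)])],[1,1])],[1,1,1],false,1,0,[]),
    (true,[([(0,18,[(5,6),(5,6)])],[]),([(0,7,[(6,6)])],[])],[5,1,1,1,1],false,2,1,[]),
    (true,[([(0,14,[(7,8)])],[1])],[5,4,3,1,1,1,1,1,1,1],false,4,3,[6,8]),
    (true,[([(0,10,[(7,8),(5,6)])],[])],[5,1,1,1,1,1,1,1,1],false,2,4,[3,5]),
    (true,[([(0,14,[(7,8)])],[]),([(0,0,[(5,6)]),(0,3,[(3,3)])],[])],[5,1,1,1,1,1,1],false,2,2,[3]),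
    (true,[([(0,14,[(7,8)])],[]),([(0,0,[(5,6)]),(0,3,[(3,3)])],[]),([(0,3,[(3,3)])],[1,1,1])],[1,1,1,1,1],false,1,0,[]),
    (true,[([(0,10,[(7,8),(5,6)])],[]),([(0,1,[(4,5)])],[1,1])],[1,1,1,1,1,1],false,1,0,[2]),
    (true,[([(0,23,[(7,8),(2,2)])],[]),([(0,0,[(5,6)])],[2]),([(0,1,[(4,5)])],[1,1])],[1,1,1],false,1,0,[]),
    (true,[([(0,14,[(7,8)])],[]),([(0,14,[(7,8)])],[2])],[5,1,1,1,1,1],false,2,2,[3]),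
    (false,[([(0,13,[(7,8),(3,3)]),(0,14,[(7,8)])],[1,1,1,1,1,1])],[3],false,1,0,[]),
    (true,[([(0,18,[(9,12)])],[])],[5,4,1,1,1,1,1,1,1],false,3,4,[5,7]),
    (true,[([(0,18,[(9,12)])],[]),([(0,1,[(4,5)])],[1])],[5,1,1,1,1,1],false,2,3,[3,4]),
    (true,[([(0,10,[(9,12),(3,3)])],[]),([(0,1,[(4,5)])],[1,1])],[1,1,1,1,1,1],false,1,0,[2]),
    (true,[([(0,18,[(9,12)])],[]),([(0,1,[(4,5)])],[1]),([(0,1,[(3,3),(2,2)])],[1,1])],[1,1,1],false,1,0,[]),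
    (true,[([(0,18,[(9,12)])],[]),([(0,1,[(4,5)])],[1]),([(0,1,[(4,4)])],[1,1])],[1,1,1],false,1,0,[]),
    (true,[([(0,18,[(9,12)])],[]),([(0,7,[(6,7)])],[])],[5,1,1,1,1],false,2,1,[]),
    (true,[([(0,10,[(13,15)])],[])],[5,1,1,1,1,1,1,1,1],false,2,2,[3]),
    (true,[([(0,10,[(13,15)])],[]),([(0,3,[(3,3)])],[1,1,1])],[1,1,1,1,1,1,1],false,1,0,[])]),
  ([14,7,4,2,1], [
    (false,[],[14,7,4,2,1],true,5,4,[8,12,15]),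
    (true,[([(0,14,[(6,8)])],[])],[5,3,3,2,2,1,1,1,1,1],false,4,4,[6,8]),
    (true,[([(0,14,[(6,8)])],[]),([(0,0,[(5,6)])],[])],[5,3,2,1,1,1,1],false,4,2,[6]),
    (true,[([(0,14,[(6,8)])],[]),([(0,18,[(5,6),(5,6)])],[])],[3,2,1,1,1],false,2,1,[]),
    (true,[([(0,14,[(6,8)])],[]),([(0,14,[(7,8)])],[1])],[3,3,2,1,1,1],false,3,2,[4]),
    (false,[([(0,18,[(6,8),(4,4)]),(0,14,[(7,8)])],[3,2,1,1,1])],[],false,1,0,[]),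
    (true,[([(0,18,[(9,12)])],[])],[4,3,2,2,1,1,1,1,1],false,4,3,[6,7]),
    (true,[([(0,18,[(9,12)])],[]),([(0,0,[(5,6)])],[])],[4,2,1,1,1,1],false,3,2,[]),
    (false,[([(0,18,[(9,12)]),(0,7,[(7,7)])],[3,2,2,1,1])],[],false,1,0,[]),
    (true,[([(0,10,[(13,15)])],[])],[3,2,2,1,1,1,1,1,1],false,3,2,[])]),
  ([15,5,4,2,1,1], [
    (false,[],[15,5,4,2,1,1],true,4,6,[6,9,12,15]),
    (true,[([(0,0,[(5,6)])],[])],[6,4,3,1,1,1,1,1,1,1,1,1],false,4,3,[6]),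
    (true,[([(0,18,[(5,6),(5,6)])],[1])],[4,3,1,1,1,1,1,1,1,1],false,3,3,[5,6]),
    (true,[([(0,18,[(5,6),(5,6)])],[1]),([(0,1,[(4,5)])],[])],[4,1,1,1,1,1,1],false,2,3,[3,4]),
    (false,[([(0,10,[(5,6),(5,6),(3,3)]),(0,1,[(4,5)])],[1,1,1,1,1,1,1])],[1],false,1,0,[2]),
    (false,[([(0,18,[(5,6),(5,6)]),(0,1,[(4,5)]),(0,1,[(3,3),(2,2)])],[1,1,1,1])],[2],false,1,0,[]),
    (false,[([(0,18,[(5,6),(5,6)]),(0,1,[(4,5)]),(0,1,[(4,4)])],[1,1,1,1])],[2],false,1,0,[]),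
    (true,[([(0,18,[(5,6),(5,6)])],[1]),([(0,7,[(6,6)])],[])],[3,1,1,1,1,1],false,2,1,[]),
    (true,[([(0,8,[(7,9)])],[])],[6,3,1,1,1,1,1,1,1,1,1],false,2,8,[3,4,5,7,9]),
    (true,[([(0,18,[(7,9),(3,3)])],[1])],[4,3,1,1,1,1,1,1,1,1],false,3,3,[]),
    (true,[([(0,8,[(7,9)])],[]),([(0,1,[(4,4)])],[])],[6,1,1,1,1,1,1,1],false,2,5,[3,4]),
    (true,[([(0,18,[(7,9),(3,3)])],[1]),([(0,1,[(4,4)])],[])],[4,1,1,1,1,1,1],false,2,3,[3]),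
    (true,[([(0,18,[(7,9),(3,3)])],[1]),([(0,7,[(4,4),(3,3)])],[])],[3,1,1,1,1,1],false,2,1,[]),
    (true,[([(0,19,[(7,9),(4,4),(4,4)])],[])],[3,1,1,1,1,1,1,1,1],false,2,2,[3]),
    (true,[([(0,19,[(7,9),(4,4),(4,4)])],[]),([(0,3,[(3,3)])],[1])],[1,1,1,1,1,1,1],false,1,0,[]),
    (true,[([(0,28,[(7,9),(5,5)])],[])],[4,3,1,1,1,1,1,1,1],false,3,3,[5]),
    (true,[([(0,28,[(7,9),(5,5)])],[]),([(0,1,[(4,5)])],[])],[4,1,1,1,1,1],false,2,1,[]),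
    (true,[([(0,8,[(7,9)])],[]),([(0,7,[(6,7)])],[1,1])],[3,1,1,1,1,1,1],false,2,3,[3,4]),
    (true,[([(0,18,[(7,9),(3,3)])],[1]),([(0,7,[(6,7)])],[])],[3,1,1,1,1,1],false,2,1,[]),
    (false,[([(0,8,[(7,9)]),(0,7,[(6,7)]),(0,1,[(4,4)])],[1,1,1,1])],[1,1],false,1,0,[]),
    (true,[([(0,8,[(7,9)])],[]),([(0,25,[(8,9)])],[1])],[3,1,1,1,1,1],false,2,1,[]),
    (true,[([(0,24,[(10,12)])],[])],[4,3,3,1,1,1,1,1,1],false,3,4,[6]),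
    (true,[([(0,24,[(10,12)])],[]),([(0,0,[(4,6)])],[2])],[3,1,1,1,1,1],false,2,2,[3]),
    (true,[([(0,24,[(10,12)])],[]),([(0,0,[(4,6)])],[2]),([(0,3,[(3,3)])],[1])],[1,1,1,1],false,1,0,[]),
    (true,[([(0,21,[(13,15)])],[])],[4,2,1,1,1,1,1,1,1],false,3,2,[])]),
  ([15,5,4,3,1], [
    (false,[],[15,5,4,3,1],true,4,5,[6,8,10,12,15]),
    (true,[([(0,0,[(5,6)])],[1])],[5,4,3,1,1,1,1,1,1,1,1,1],false,4,3,[5,6]),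
    (true,[([(0,0,[(5,6)])],[]),([(0,1,[(5,5)])],[1])],[5,4,1,1,1,1,1,1,1],false,3,4,[5]),
    (true,[([(0,18,[(5,6),(5,5)])],[]),([(0,1,[(4,5)])],[1])],[4,1,1,1,1,1,1],false,2,3,[4]),
    (true,[([(0,10,[(5,6),(5,5),(3,4)])],[]),([(0,1,[(4,5)])],[1])],[1,1,1,1,1,1,1],false,1,0,[2]),
    (true,[([(0,8,[(5,6),(3,4)])],[]),([(0,7,[(5,5),(2,2)])],[]),([(0,1,[(4,5)])],[1,1])],[1,1,1,1],false,1,0,[]),
    (true,[([(0,0,[(5,6)])],[]),([(0,7,[(6,6)])],[])],[5,4,1,1,1,1,1,1],false,3,4,[6]),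
    (false,[([(0,0,[(5,6)]),(0,7,[(6,6)]),(0,0,[(4,6)])],[1,1,1,1,1])],[4],false,1,0,[3]),
    (true,[([(0,0,[(5,6)]),(0,3,[(2,3)])],[]),([(0,7,[(6,6)])],[]),([(0,0,[(4,6)])],[1])],[1,1,1,1,1],false,1,0,[2]),
    (true,[([(0,14,[(5,6),(2,2)])],[]),([(0,7,[(6,6)])],[]),([(0,0,[(4,6)]),(0,3,[(2,3)])],[])],[1,1,1,1],false,1,0,[]),
    (true,[([(0,14,[(7,8)])],[])],[5,4,3,1,1,1,1,1,1,1,1],false,4,3,[6,8]),
    (true,[([(0,10,[(7,8),(5,6)])],[])],[4,1,1,1,1,1,1,1,1,1],false,2,4,[3,5]),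
    (true,[([(0,14,[(7,8)])],[]),([(0,0,[(5,6)]),(0,3,[(3,3)])],[])],[4,1,1,1,1,1,1,1],false,2,2,[3]),
    (true,[([(0,14,[(7,8)])],[]),([(0,0,[(5,6)]),(0,3,[(3,3)])],[]),([(0,3,[(3,3)])],[1,1])],[1,1,1,1,1,1],false,1,0,[]),
    (true,[([(0,10,[(7,8),(5,6)])],[]),([(0,1,[(4,5)])],[1])],[1,1,1,1,1,1,1],false,1,0,[2]),
    (true,[([(0,23,[(7,8),(2,2)])],[]),([(0,0,[(5,6)])],[2]),([(0,1,[(4,5)])],[1])],[1,1,1,1],false,1,0,[]),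
    (true,[([(0,14,[(7,8)])],[]),([(0,14,[(7,8)])],[2])],[4,1,1,1,1,1,1],false,2,2,[3]),
    (true,[([(0,13,[(7,8),(3,3)])],[2]),([(0,14,[(7,8)])],[])],[1,1,1,1,1,1,1],false,1,0,[]),
    (true,[([(0,23,[(9,10)])],[])],[4,4,3,1,1,1,1,1,1,1],false,3,3,[6,7]),
    (true,[([(0,23,[(9,10)])],[]),([(0,0,[(4,6)])],[2])],[4,1,1,1,1,1,1],false,2,3,[3,4]),
    (true,[([(0,23,[(9,10)])],[]),([(0,0,[(4,6)])],[2]),([(0,3,[(3,3)])],[1,1])],[1,1,1,1,1],false,1,0,[2]),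
    (true,[([(0,23,[(9,10)])],[]),([(0,0,[(4,6)])],[2]),([(0,1,[(3,3),(2,2)])],[1])],[1,1,1,1],false,1,0,[]),
    (true,[([(0,23,[(9,10)])],[]),([(0,0,[(4,6)])],[2]),([(0,1,[(4,4)])],[1])],[1,1,1,1],false,1,0,[]),
    (false,[([(0,15,[(9,10),(7,7)])],[2,1,1,1,1,1,1,1,1,1])],[],false,1,0,[]),
    (true,[([(0,18,[(11,12)])],[])],[4,4,1,1,1,1,1,1,1,1],false,2,4,[3,5]),
    (true,[([(0,10,[(11,12),(3,3)])],[])],[4,1,1,1,1,1,1,1,1,1],false,2,2,[3]),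
    (true,[([(0,10,[(11,12),(3,3)])],[]),([(0,3,[(3,3)])],[1,1])],[1,1,1,1,1,1,1,1],false,1,0,[]),
    (true,[([(0,15,[(11,12),(4,5)])],[])],[2,1,1,1,1,1,1,1,1,1],false,2,1,[]),
    (true,[([(0,10,[(13,15)])],[])],[4,1,1,1,1,1,1,1,1,1],false,2,2,[3]),
    (true,[([(0,10,[(13,15)])],[]),([(0,3,[(3,3)])],[1,1])],[1,1,1,1,1,1,1,1],false,1,0,[])]),
  ([15,6,3,2,1,1], [
    (false,[],[15,6,3,2,1,1],true,5,3,[8,12,15]),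
    (true,[([(0,14,[(6,8)])],[])],[6,3,2,2,1,1,1,1,1,1,1],false,4,3,[6,8]),
    (true,[([(0,14,[(6,8)])],[]),([(0,0,[(5,6)])],[])],[6,2,1,1,1,1,1,1],false,3,2,[5,6]),
    (true,[([(0,14,[(6,8)])],[]),([(0,0,[(5,6)]),(0,1,[(4,5)])],[])],[2,1,1,1,1,1,1,1],false,2,2,[3]),
    (false,[([(0,14,[(6,8)]),(0,0,[(5,6)]),(0,14,[(4,5),(3,3)])],[1,1,1,1])],[1,1],false,1,0,[]),
    (true,[([(0,28,[(6,8),(6,6)])],[]),([(0,0,[(5,6)])],[1])],[2,1,1,1,1,1],false,1,0,[]),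
    (true,[([(0,14,[(6,8)])],[]),([(0,14,[(7,8)])],[1,1])],[3,2,1,1,1,1,1],false,3,2,[4]),
    (false,[([(0,18,[(6,8),(4,4)]),(0,14,[(7,8)])],[2,1,1,1,1,1])],[1],false,1,0,[]),
    (true,[([(0,18,[(9,12)])],[1])],[4,2,2,1,1,1,1,1,1,1],false,3,4,[5,7]),
    (true,[([(0,18,[(9,12)])],[1]),([(0,1,[(4,5)])],[1])],[2,2,1,1,1,1,1],false,2,3,[3,4]),
    (true,[([(0,18,[(9,12)])],[1]),([(0,14,[(4,5),(3,3)])],[])],[2,1,1,1,1,1],false,2,1,[]),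
    (false,[([(0,18,[(9,12)]),(0,1,[(4,5)]),(0,4,[(4,4)])],[1,1,1,1,1])],[2],false,1,0,[]),
    (true,[([(0,18,[(9,12)])],[1]),([(0,7,[(6,7)])],[])],[2,2,1,1,1,1],false,2,1,[]),
    (true,[([(0,32,[(13,15)])],[])],[3,2,1,1,1,1,1,1,1],false,3,2,[])]),
  ([16,4,3,2,1,1,1], [
    (false,[],[16,4,3,2,1,1,1],true,4,4,[5,7,10,13,15]),
    (false,[([(0,1,[(5,5)])],[])],[16,4,2,1],true,4,3,[5]),
    (true,[([(0,23,[(5,5),(5,5)])],[1,1])],[4,3,1,1,1,1,1,1,1,1,1],false,3,3,[5]),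
    (true,[([(0,23,[(5,5),(5,5)])],[1,1]),([(0,1,[(4,5)])],[])],[4,1,1,1,1,1,1,1],false,2,3,[3,4]),
    (false,[([(0,23,[(5,5),(5,5)]),(0,1,[(4,5)]),(0,3,[(3,3)])],[1,1,1,1,1,1])],[3,1],false,2,1,[]),
    (false,[([(0,23,[(5,5),(5,5)]),(0,1,[(4,5)]),(0,1,[(4,4)])],[1,1,1,1,1])],[2,1],false,1,0,[]),
    (true,[([(0,7,[(6,7)])],[])],[7,3,2,1,1,1,1,1,1,1,1,1],false,3,5,[5,7]),
    (true,[([(0,7,[(6,7)])],[]),([(0,1,[(4,5)])],[])],[7,2,1,1,1,1,1,1,1],false,2,6,[3,5]),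
    (true,[([(0,23,[(6,7),(3,3)])],[1,1]),([(0,1,[(4,5)])],[])],[4,1,1,1,1,1,1,1],false,2,4,[3]),
    (false,[([(0,23,[(6,7),(3,3)]),(0,1,[(4,5)]),(0,3,[(3,3)])],[1,1,1,1,1,1])],[3,1],true,2,2,[3]),
    (true,[([(0,23,[(6,7),(3,3)]),(0,3,[(3,3)])],[]),([(0,14,[(4,5),(3,3)])],[])],[1,1,1,1,1,1,1],false,1,0,[]),
    (false,[([(0,18,[(6,7),(4,5)]),(0,1,[(4,5)])],[1,1,1,1,1,1,1,1])],[2,1],false,1,0,[3,4]),
    (false,[([(0,7,[(6,7)]),(0,1,[(4,5)]),(0,1,[(4,5)]),(0,3,[(2,3)])],[1,1,1,1])],[2,1,1],false,2,2,[3]),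
    (false,[([(0,23,[(6,7),(3,3)]),(0,1,[(4,5)]),(0,1,[(4,5)])],[1,1,1,1,1]),([(0,3,[(2,3)])],[])],[],false,1,0,[]),
    (false,[([(0,7,[(6,7)]),(0,1,[(4,5)]),(0,4,[(4,4)])],[1,1,1,1,1,1,1]),([(0,1,[(4,5)])],[])],[],false,1,0,[]),
    (true,[([(0,7,[(6,7)])],[]),([(0,7,[(6,7)])],[1,1,1])],[3,2,1,1,1,1,1,1],false,3,2,[5]),
    (true,[([(0,7,[(6,7)])],[]),([(0,7,[(6,7)])],[1,1,1]),([(0,1,[(4,5)])],[])],[2,1,1,1,1],false,2,1,[]),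
    (true,[([(0,23,[(8,10)])],[1,1])],[4,3,1,1,1,1,1,1,1,1,1],false,3,3,[5,7,8]),
    (true,[([(0,23,[(8,10)])],[1,1]),([(0,1,[(4,5)])],[])],[4,1,1,1,1,1,1,1],false,2,4,[3,5]),
    (false,[([(0,23,[(8,10)]),(0,1,[(4,5)]),(0,3,[(3,3)])],[1,1,1,1,1,1])],[3,1],true,2,2,[3]),
    (true,[([(0,23,[(8,10)]),(0,3,[(3,3)])],[]),([(0,14,[(4,5),(3,3)])],[])],[1,1,1,1,1,1,1],false,1,0,[]),
    (false,[([(0,23,[(8,10)]),(0,1,[(4,5)]),(0,1,[(4,5)])],[1,1,1,1,1])],[2,1],false,2,1,[]),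
    (true,[([(0,23,[(8,10)])],[1,1]),([(0,7,[(6,7)])],[])],[3,1,1,1,1,1,1],false,2,2,[3]),
    (true,[([(0,23,[(8,10)]),(0,3,[(3,3)])],[]),([(0,7,[(6,7)])],[])],[2,1,1,1,1,1,1],false,1,0,[]),
    (false,[([(0,27,[(8,10),(8,8)])],[1,1,1,1,1,1,1,1,1])],[],false,1,0,[]),
    (true,[([(0,28,[(11,13)])],[1])],[4,1,1,1,1,1,1,1,1,1],false,2,4,[3,4,5]),
    (true,[([(0,31,[(11,13),(3,3)])],[])],[4,1,1,1,1,1,1,1,1],false,2,2,[3]),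
    (false,[([(0,27,[(11,13),(3,3),(3,3)])],[1,1,1,1,1,1,1,1,1])],[],false,1,0,[]),
    (false,[([(0,19,[(11,13),(4,4)])],[1,1,1,1,1,1,1,1,1,1])],[1],false,1,0,[2]),
    (false,[([(0,27,[(11,13),(4,4),(2,2)])],[1,1,1,1,1,1,1,1,1])],[],false,1,0,[]),
    (false,[([(0,27,[(11,13),(5,5)])],[1,1,1,1,1,1,1,1,1])],[],false,1,0,[]),
    (true,[([(0,21,[(14,15)])],[2])],[2,1,1,1,1,1,1,1,1,1],false,2,1,[])])]

theorem cj5d_11_ok : runAllJ S38 R38 F38 14 cj5d_11 = true := by decide +kernel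

noncomputable def cj5d_12 : List (List ℕ × List NdJ) := [
  ([16,5,4,2,1], [
    (false,[],[16,5,4,2,1],true,4,5,[6,8,12,15]),
    (true,[([(0,0,[(5,6)])],[])],[5,4,3,1,1,1,1,1,1,1,1,1,1],false,4,3,[6]),
    (true,[([(0,18,[(5,6),(5,6)])],[])],[4,3,1,1,1,1,1,1,1,1,1],false,3,3,[5,6]),
    (true,[([(0,18,[(5,6),(5,6)])],[]),([(0,1,[(4,5)])],[])],[4,1,1,1,1,1,1,1],false,2,3,[3,4]),
    (false,[([(0,10,[(5,6),(5,6),(3,3)]),(0,1,[(4,5)])],[1,1,1,1,1,1,1,1])],[],false,1,0,[2]),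
    (true,[([(0,18,[(5,6),(5,6)])],[]),([(0,1,[(4,5)])],[]),([(0,1,[(3,3),(2,2)])],[1])],[1,1,1,1,1],false,1,0,[]),
    (true,[([(0,18,[(5,6),(5,6)])],[]),([(0,1,[(4,5)])],[]),([(0,1,[(4,4)])],[1])],[1,1,1,1,1],false,1,0,[]),
    (true,[([(0,18,[(5,6),(5,6)])],[]),([(0,7,[(6,6)])],[])],[3,1,1,1,1,1,1],false,2,1,[]),
    (true,[([(0,14,[(7,8)])],[2])],[4,3,2,1,1,1,1,1,1,1,1,1],false,4,2,[6,8]),
    (true,[([(0,14,[(7,8)])],[2]),([(0,0,[(5,6)])],[])],[4,1,1,1,1,1,1,1,1],false,2,4,[3,5]),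
    (true,[([(0,14,[(7,8)])],[]),([(0,0,[(5,6)]),(0,3,[(3,3)])],[])],[3,1,1,1,1,1,1,1,1],false,2,2,[3]),
    (true,[([(0,14,[(7,8)])],[]),([(0,0,[(5,6)]),(0,3,[(3,3)])],[]),([(0,3,[(3,3)])],[1])],[1,1,1,1,1,1,1],false,1,0,[]),
    (false,[([(0,10,[(7,8),(5,6)]),(0,1,[(4,5)])],[1,1,1,1,1,1,1,1])],[],false,1,0,[2]),
    (true,[([(0,23,[(7,8),(2,2)])],[]),([(0,0,[(5,6)])],[2]),([(0,1,[(4,5)])],[])],[1,1,1,1,1],false,1,0,[]),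
    (true,[([(0,14,[(7,8)])],[]),([(0,14,[(7,8)])],[2])],[3,1,1,1,1,1,1,1],false,2,2,[3]),
    (false,[([(0,13,[(7,8),(3,3)]),(0,14,[(7,8)])],[1,1,1,1,1,1,1,1])],[1],false,1,0,[]),
    (true,[([(0,18,[(9,12)])],[])],[4,3,1,1,1,1,1,1,1,1,1],false,3,3,[5,7]),
    (true,[([(0,18,[(9,12)])],[]),([(0,1,[(4,5)])],[])],[4,1,1,1,1,1,1,1],false,2,3,[3,4]),
    (false,[([(0,10,[(9,12),(3,3)]),(0,1,[(4,5)])],[1,1,1,1,1,1,1,1])],[],false,1,0,[2]),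
    (true,[([(0,18,[(9,12)])],[]),([(0,1,[(4,5)])],[]),([(0,1,[(3,3),(2,2)])],[1])],[1,1,1,1,1],false,1,0,[]),
    (true,[([(0,18,[(9,12)])],[]),([(0,1,[(4,5)])],[]),([(0,1,[(4,4)])],[1])],[1,1,1,1,1],false,1,0,[]),
    (true,[([(0,18,[(9,12)])],[]),([(0,7,[(6,7)])],[])],[3,1,1,1,1,1,1],false,2,1,[]),
    (true,[([(0,10,[(13,15)])],[])],[3,1,1,1,1,1,1,1,1,1,1],false,2,2,[3]),
    (true,[([(0,10,[(13,15)])],[]),([(0,3,[(3,3)])],[1])],[1,1,1,1,1,1,1,1,1],false,1,0,[])]),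
  ([16,6,3,2,1], [
    (false,[],[16,6,3,2,1],true,5,3,[8,12,15]),
    (true,[([(0,14,[(6,8)])],[])],[5,3,2,2,1,1,1,1,1,1,1,1],false,4,3,[6,8]),
    (true,[([(0,14,[(6,8)])],[]),([(0,0,[(5,6)])],[])],[5,2,1,1,1,1,1,1,1],false,3,2,[5,6]),
    (true,[([(0,14,[(6,8)])],[]),([(0,0,[(5,6)])],[]),([(0,1,[(4,5)])],[1,1])],[2,1,1,1,1,1],false,2,2,[3]),
    (false,[([(0,14,[(6,8)]),(0,0,[(5,6)]),(0,14,[(4,5),(3,3)])],[1,1,1,1,1])],[1],false,1,0,[]),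
    (false,[([(0,16,[(6,8),(6,6)]),(0,0,[(5,6)])],[1,1,1,1,1,1,1,1])],[],false,1,0,[]),
    (true,[([(0,14,[(6,8)])],[]),([(0,14,[(7,8)])],[1])],[3,2,1,1,1,1,1,1],false,3,2,[4]),
    (false,[([(0,18,[(6,8),(4,4)]),(0,14,[(7,8)])],[2,1,1,1,1,1,1])],[],false,1,0,[]),
    (true,[([(0,18,[(9,12)])],[])],[4,2,2,1,1,1,1,1,1,1,1],false,3,4,[5,7]),
    (true,[([(0,18,[(9,12)])],[]),([(0,1,[(4,5)])],[1])],[2,2,1,1,1,1,1,1],false,2,3,[3,4]),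
    (true,[([(0,18,[(9,12)])],[]),([(0,14,[(4,5),(3,3)])],[])],[2,1,1,1,1,1,1],false,2,1,[]),
    (true,[([(0,18,[(9,12)])],[]),([(0,1,[(4,5)])],[1]),([(0,4,[(4,4)])],[])],[1,1,1,1,1,1],false,1,0,[]),
    (true,[([(0,18,[(9,12)])],[]),([(0,7,[(6,7)])],[])],[2,2,1,1,1,1,1],false,2,1,[]),
    (true,[([(0,10,[(13,15)])],[])],[2,2,1,1,1,1,1,1,1,1,1],false,2,2,[3]),
    (false,[([(0,10,[(13,15)]),(0,3,[(3,3)])],[2,1,1,1,1,1,1,1,1])],[],false,1,0,[])]),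
  ([18,4,3,2,1], [
    (false,[],[18,4,3,2,1],true,4,4,[5,7,9,10,11,12,13,14,15]),
    (true,[([(0,1,[(5,5)])],[])],[5,4,2,1,1,1,1,1,1,1,1,1,1,1,1],false,3,5,[5]),
    (true,[([(0,23,[(5,5),(4,5)])],[])],[4,3,1,1,1,1,1,1,1,1,1,1,1],false,3,3,[4,5]),
    (true,[([(0,25,[(5,5),(4,4)])],[]),([(0,1,[(4,5)])],[])],[4,2,1,1,1,1,1,1,1,1],false,3,2,[4]),
    (true,[([(0,25,[(5,5),(4,4)])],[]),([(0,1,[(4,5)])],[]),([(0,1,[(4,4)])],[1])],[2,1,1,1,1,1,1],false,2,1,[]),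
    (true,[([(0,23,[(5,5),(4,5)])],[]),([(0,1,[(5,5)])],[])],[4,1,1,1,1,1,1,1,1,1],false,2,3,[3,4]),
    (false,[([(0,1,[(5,5)]),(0,1,[(4,5)]),(0,1,[(5,5)]),(0,3,[(3,3)])],[1,1,1,1,1,1,1])],[2,1],false,2,1,[]),
    (false,[([(0,8,[(5,5),(4,5)]),(0,25,[(5,5),(4,4)])],[1,1,1,1,1,1,1,1,1])],[],false,1,0,[]),
    (true,[([(0,7,[(6,7)])],[])],[5,3,2,1,1,1,1,1,1,1,1,1,1,1],false,3,5,[4,5,7]),
    (true,[([(0,7,[(6,7)])],[]),([(0,1,[(4,4)])],[])],[5,2,1,1,1,1,1,1,1,1,1],false,2,6,[3,4]),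
    (true,[([(0,7,[(6,7)])],[]),([(0,7,[(4,4),(3,3)])],[1])],[3,2,1,1,1,1,1,1,1,1],false,3,2,[]),
    (true,[([(0,7,[(6,7)])],[]),([(0,14,[(4,4),(4,4)])],[1])],[3,1,1,1,1,1,1,1,1,1],false,2,3,[3,4]),
    (true,[([(0,7,[(6,7)])],[]),([(0,7,[(4,4),(3,3)])],[1]),([(0,1,[(4,4)])],[])],[2,1,1,1,1,1,1],false,2,1,[]),
    (false,[([(0,7,[(6,7)]),(0,14,[(4,4),(4,4)]),(0,1,[(4,4)])],[1,1,1,1,1,1,1])],[1],false,1,0,[]),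
    (true,[([(0,7,[(6,7)])],[]),([(0,1,[(5,5)])],[])],[5,2,1,1,1,1,1,1,1,1,1],false,3,2,[5]),
    (true,[([(0,7,[(6,7)])],[]),([(0,23,[(5,5),(4,5)])],[])],[3,1,1,1,1,1,1,1,1],false,2,2,[3]),
    (true,[([(0,7,[(6,7)])],[]),([(0,23,[(5,5),(4,5)])],[]),([(0,3,[(3,3)])],[1])],[1,1,1,1,1,1,1],false,1,0,[]),
    (true,[([(0,7,[(6,7)])],[]),([(0,7,[(6,7)])],[1])],[3,2,1,1,1,1,1,1,1,1],false,3,2,[5]),
    (true,[([(0,7,[(6,7)])],[]),([(0,7,[(6,7)])],[1]),([(0,1,[(4,5)])],[])],[2,1,1,1,1,1,1],false,2,1,[]),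
    (true,[([(0,25,[(8,9)])],[])],[4,3,2,1,1,1,1,1,1,1,1,1,1],false,4,2,[6,8]),
    (true,[([(0,25,[(8,9)])],[]),([(0,0,[(5,6)])],[])],[4,1,1,1,1,1,1,1,1,1],false,2,3,[3,4]),
    (false,[([(0,25,[(8,9)]),(0,8,[(5,6),(3,3)])],[1,1,1,1,1,1,1,1,1])],[],false,1,0,[2]),
    (true,[([(0,25,[(8,9)])],[]),([(0,14,[(5,6),(2,2)])],[]),([(0,3,[(3,3)])],[1])],[1,1,1,1,1,1,1],false,1,0,[]),
    (false,[([(0,25,[(8,9)]),(0,8,[(5,6),(4,4)])],[1,1,1,1,1,1,1,1,1])],[],false,1,0,[]),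
    (true,[([(0,25,[(8,9)])],[]),([(0,14,[(7,8)])],[])],[3,1,1,1,1,1,1,1,1],false,2,1,[]),
    (true,[([(0,23,[(10,10)])],[])],[4,3,1,1,1,1,1,1,1,1,1,1,1],false,3,3,[5,6]),
    (true,[([(0,23,[(10,10)])],[]),([(0,1,[(4,5)])],[])],[4,1,1,1,1,1,1,1,1,1],false,2,2,[3]),
    (true,[([(0,23,[(10,10)])],[]),([(0,1,[(4,5)])],[]),([(0,3,[(3,3)])],[1,1])],[1,1,1,1,1,1,1,1],false,1,0,[]),
    (true,[([(2,53,[(10,10),(6,6)])],[])],[1,1,1,1,1,1,1,1,1,1,1,1],false,1,0,[]),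
    (true,[([(0,18,[(11,11)])],[])],[4,1,1,1,1,1,1,1,1,1,1,1,1],false,2,4,[3,4,5]),
    (false,[([(0,10,[(11,11),(3,3)])],[1,1,1,1,1,1,1,1,1,1,1,1,1])],[],false,1,0,[2,3]),
    (true,[([(0,18,[(11,11)])],[]),([(0,1,[(3,3),(2,2)])],[1])],[1,1,1,1,1,1,1,1,1,1],false,1,0,[2]),
    (true,[([(2,54,[(11,11),(3,3),(2,2),(2,2)])],[])],[1,1,1,1,1,1,1,1,1,1],false,1,0,[]),
    (true,[([(2,55,[(11,11),(3,3),(3,3)])],[])],[1,1,1,1,1,1,1,1,1,1,1],false,1,0,[]),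
    (false,[([(0,10,[(11,11),(4,4)])],[1,1,1,1,1,1,1,1,1,1,1,1,1])],[],false,1,0,[2]),
    (true,[([(2,56,[(11,11),(4,4),(2,2)])],[])],[1,1,1,1,1,1,1,1,1,1,1],false,1,0,[]),
    (true,[([(0,18,[(11,11)])],[]),([(0,1,[(5,5)])],[1])],[1,1,1,1,1,1,1,1,1,1],false,1,0,[]),
    (true,[([(0,18,[(12,12)])],[])],[4,1,1,1,1,1,1,1,1,1,1,1,1],false,2,3,[3,4]),
    (false,[([(0,10,[(12,12),(3,3)])],[1,1,1,1,1,1,1,1,1,1,1,1,1])],[],false,1,0,[2]),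
    (true,[([(2,57,[(12,12),(3,3),(2,2)])],[])],[1,1,1,1,1,1,1,1,1,1,1],false,1,0,[]),
    (true,[([(0,18,[(12,12)])],[]),([(0,1,[(4,4)])],[1])],[1,1,1,1,1,1,1,1,1,1],false,1,0,[]),
    (false,[([(0,9,[(13,13)])],[1,1,1,1,1,1,1,1,1,1,1,1,1,1])],[1],false,1,0,[2,3]),
    (false,[([(0,10,[(13,13),(2,2)])],[1,1,1,1,1,1,1,1,1,1,1,1,1])],[],false,1,0,[2]),
    (true,[([(2,58,[(13,13),(2,2),(2,2)])],[])],[1,1,1,1,1,1,1,1,1,1,1],false,1,0,[]),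
    (true,[([(2,59,[(13,13),(3,3)])],[])],[1,1,1,1,1,1,1,1,1,1,1,1],false,1,0,[]),
    (false,[([(0,10,[(14,14)])],[1,1,1,1,1,1,1,1,1,1,1,1,1])],[],false,1,0,[2]),
    (true,[([(2,60,[(14,14),(2,2)])],[])],[1,1,1,1,1,1,1,1,1,1,1,1],false,1,0,[]),
    (false,[([(0,10,[(15,15)])],[1,1,1,1,1,1,1,1,1,1,1,1,1])],[],false,1,0,[])])]

theorem cj5d_12_ok : runAllJ S38 R38 F38 14 cj5d_12 = true := by decide +kernel

/-- the minors -/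
def G5d : List (List ℕ) := [
  [1,1,1,1,1,14,1,1,1,1], [1,1,1,1,14,1,1,1,1,1], [1,1,1,1,1,1,8,1,1,1], [1,1,1,8,1,1,1,1,1,1],
  [1,1,1,1,1,1,1,7,1,1], [1,1,7,1,1,1,1,1,1,1], [1,1,1,1,1,1,1,1,6,1], [1,6,1,1,1,1,1,1,1,1],
  [1,1,1,1,1,1,1,1,1,4], [4,1,1,1,1,1,1,1,1,1], [1,3,3,1,1,1,1,1,1,1], [1,1,1,1,1,1,1,3,3,1],
  [2,3,1,1,1,1,1,1,1,1], [1,1,1,1,1,1,1,1,3,2], [1,1,1,1,1,1,1,4,1,2], [2,1,4,1,1,1,1,1,1,1],
  [1,3,1,1,6,1,1,1,1,1], [1,1,1,1,1,6,1,1,3,1], [1,4,1,1,1,1,1,1,2,1], [1,2,1,1,1,1,1,1,4,1],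
  [1,3,1,1,1,1,1,2,1,1], [1,1,2,1,1,1,1,1,3,1], [1,2,1,1,1,1,4,1,1,1], [1,1,1,4,1,1,1,1,2,1],
  [1,2,1,1,1,1,1,1,1,3], [3,1,1,1,1,1,1,1,2,1], [1,2,1,1,1,1,1,1,2,2], [2,2,1,1,1,1,1,1,2,1],
  [1,2,1,1,1,5,1,1,2,1], [1,2,1,1,5,1,1,1,2,1], [1,3,1,2,1,1,1,1,2,1], [1,2,1,1,1,1,2,1,3,1],
  [1,2,2,1,1,1,1,1,2,1], [1,2,1,1,1,1,1,2,2,1], [1,2,1,1,1,1,3,1,2,1], [1,2,1,3,1,1,1,1,2,1],
  [1,3,1,1,2,1,1,1,2,1], [1,2,1,1,1,2,1,1,3,1], [1,3,1,1,1,2,2,1,1,1], [1,1,1,2,2,1,1,1,3,1],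
  [1,2,1,1,1,1,2,1,1,2], [2,1,1,2,1,1,1,1,2,1], [1,3,1,1,1,6,1,1,1,1], [1,1,1,1,6,1,1,1,3,1],
  [1,2,1,1,3,1,1,1,1,2], [2,1,1,1,1,3,1,1,2,1], [1,4,1,2,1,1,1,1,1,1], [1,1,1,1,1,1,2,1,4,1],
  [1,3,1,1,1,1,1,1,1,2], [2,1,1,1,1,1,1,1,3,1], [1,4,1,1,1,1,2,1,1,1], [1,1,1,2,1,1,1,1,4,1],
  [1,3,2,1,1,3,1,1,1,1], [1,1,1,1,3,1,1,2,3,1], [1,3,1,1,4,3,1,1,1,1], [1,1,1,1,3,4,1,1,3,1],
  [1,3,2,1,3,1,1,1,1,1], [1,1,1,1,1,3,1,2,3,1], [1,3,1,1,5,2,1,1,1,1], [1,1,1,1,2,5,1,1,3,1],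
  [1,4,1,1,2,1,1,1,1,1], [1,1,1,1,1,2,1,1,4,1], [1,2,1,3,3,1,2,1,1,1], [1,1,1,2,1,3,3,1,2,1],
  [1,2,1,2,2,1,3,1,1,1], [1,1,1,3,1,2,2,1,2,1], [1,3,2,2,1,1,1,1,1,1], [1,1,1,1,1,1,2,2,3,1],
  [1,1,1,1,5,1,1,1,1,2], [2,1,1,1,1,5,1,1,1,1], [2,1,1,4,1,1,2,1,1,1], [1,1,1,2,1,1,4,1,1,2],
  [2,1,1,1,1,1,1,1,1,3], [3,1,1,1,1,1,1,1,1,2], [1,1,1,1,1,1,3,4,1,1], [1,1,4,3,1,1,1,1,1,1],
  [2,1,2,1,1,1,1,2,1,1], [1,1,2,1,1,1,1,2,1,2], [1,1,1,3,1,1,1,4,1,1], [1,1,4,1,1,1,3,1,1,1],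
  [3,1,1,1,1,1,1,2,1,1], [1,1,2,1,1,1,1,1,1,3], [1,1,1,1,5,1,1,4,1,1], [1,1,4,1,1,5,1,1,1,1],
  [2,2,1,1,1,1,1,2,1,1], [1,1,2,1,1,1,1,1,2,2], [2,1,1,1,1,1,1,3,1,1], [1,1,3,1,1,1,1,1,1,2],
  [3,1,1,1,4,1,1,1,1,1], [1,1,1,1,1,4,1,1,1,3], [2,1,2,1,1,1,3,1,1,1], [1,1,1,3,1,1,1,2,1,2],
  [1,1,1,1,4,1,4,1,2,1], [1,2,1,4,1,4,1,1,1,1], [1,1,1,1,8,1,4,1,1,1], [1,1,1,4,1,8,1,1,1,1],
  [3,1,1,1,1,1,2,1,1,1], [1,1,1,2,1,1,1,1,1,3], [1,1,1,1,1,1,5,1,1,2], [2,1,1,5,1,1,1,1,1,1],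
  [1,1,1,1,3,1,3,1,1,2], [2,1,1,3,1,3,1,1,1,1], [1,1,1,1,1,3,4,1,1,2], [2,1,1,4,3,1,1,1,1,1],
  [1,1,1,1,1,1,3,1,2,2], [2,2,1,3,1,1,1,1,1,1], [2,1,1,1,2,1,1,1,1,2], [2,1,1,1,1,2,1,1,1,2],
  [1,1,1,1,1,1,6,1,2,1], [1,2,1,6,1,1,1,1,1,1], [2,1,1,1,1,2,3,1,1,1], [1,1,1,3,2,1,1,1,1,2],
  [1,1,1,1,4,1,6,1,1,1], [1,1,1,6,1,4,1,1,1,1], [2,1,1,1,1,1,4,1,1,1], [1,1,1,4,1,1,1,1,1,2],
  [2,2,2,2,1,1,1,1,1,1], [1,1,1,1,1,1,2,2,2,2], [2,1,1,2,1,1,1,1,1,2], [2,1,1,1,1,1,2,1,1,2],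
  [3,1,1,1,1,2,1,1,1,1], [1,1,1,1,2,1,1,1,1,3], [2,2,3,1,1,1,1,1,1,1], [1,1,1,1,1,1,1,3,2,2],
  [2,1,3,2,1,1,1,1,1,1], [1,1,1,1,1,1,2,3,1,2], [1,1,1,1,10,1,1,1,2,1], [1,2,1,1,1,10,1,1,1,1],
  [1,1,2,1,6,1,1,1,2,1], [1,2,1,1,1,6,1,2,1,1], [1,2,1,1,10,1,1,1,1,1], [1,1,1,1,1,10,1,1,2,1],
  [2,1,3,1,3,1,1,1,1,1], [1,1,1,1,1,3,1,3,1,2], [2,1,1,1,6,1,2,1,1,1], [1,1,1,2,1,6,1,1,1,2],
  [1,1,1,1,7,1,1,2,2,1], [1,2,2,1,1,7,1,1,1,1], [2,1,1,2,3,1,1,2,1,1], [1,1,2,1,1,3,2,1,1,2],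
  [2,1,1,1,3,2,1,2,1,1], [1,1,2,1,2,3,1,1,1,2], [2,1,1,1,9,1,1,1,1,1], [1,1,1,1,1,9,1,1,1,2],
  [2,1,1,1,1,1,2,1,2,1], [1,2,1,2,1,1,1,1,1,2], [2,1,3,1,1,2,1,1,1,1], [1,1,1,1,2,1,1,3,1,2],
  [2,2,1,1,5,1,1,1,1,1], [1,1,1,1,1,5,1,1,2,2], [2,1,2,1,2,3,1,1,1,1], [1,1,1,1,3,2,1,2,1,2],
  [1,2,2,1,1,4,2,1,1,1], [1,1,1,2,4,1,1,2,2,1], [2,1,1,1,4,2,2,1,1,1], [1,1,1,2,2,4,1,1,1,2],
  [2,1,1,1,2,3,2,1,1,1], [1,1,1,2,3,2,1,1,1,2], [2,2,1,2,1,2,1,1,1,1], [1,1,1,1,2,1,2,1,2,2],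
  [1,1,4,1,1,1,1,2,1,1], [1,1,2,1,1,1,1,4,1,1], [1,1,4,1,1,1,1,1,2,1], [1,2,1,1,1,1,1,4,1,1],
  [1,2,3,1,4,1,1,1,1,1], [1,1,1,1,1,4,1,3,2,1], [1,1,4,1,5,1,1,1,1,1], [1,1,1,1,1,5,1,4,1,1],
  [1,2,4,1,1,1,1,1,1,1], [1,1,1,1,1,1,1,4,2,1], [1,1,4,1,3,3,1,1,1,1], [1,1,1,1,3,3,1,4,1,1],
  [1,1,4,2,1,1,2,1,1,1], [1,1,1,2,1,1,2,4,1,1], [1,1,4,1,4,2,1,1,1,1], [1,1,1,1,2,4,1,4,1,1],
  [1,1,4,1,2,4,1,1,1,1], [1,1,1,1,4,2,1,4,1,1], [1,1,2,3,3,1,1,2,1,1], [1,1,2,1,1,3,3,2,1,1],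
  [1,1,1,3,1,1,4,2,1,1], [1,1,2,4,1,1,3,1,1,1], [1,1,1,5,1,1,4,1,1,1], [1,1,1,4,1,1,5,1,1,1],
  [1,1,1,3,7,1,1,2,1,1], [1,1,2,1,1,7,3,1,1,1], [1,1,1,6,1,1,3,1,1,1], [1,1,1,3,1,1,6,1,1,1],
  [1,1,1,4,5,4,1,1,1,1], [1,1,1,1,4,5,4,1,1,1], [1,1,1,3,10,1,1,1,1,1], [1,1,1,1,1,10,3,1,1,1],
  [1,2,1,2,1,1,1,3,1,1], [1,1,3,1,1,1,2,1,2,1], [1,1,2,4,1,1,1,2,1,1], [1,1,2,1,1,1,4,2,1,1],
  [1,2,1,4,1,1,2,1,1,1], [1,1,1,2,1,1,4,1,2,1], [1,1,1,5,3,1,1,2,1,1], [1,1,2,1,1,3,5,1,1,1],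
  [1,2,1,1,4,3,1,2,1,1], [1,1,2,1,3,4,1,1,2,1], [1,1,1,2,3,4,1,3,1,1], [1,1,3,1,4,3,2,1,1,1],
  [1,1,1,5,1,1,1,3,1,1], [1,1,3,1,1,1,5,1,1,1], [1,1,1,4,6,3,1,1,1,1], [1,1,1,1,3,6,4,1,1,1],
  [1,1,2,3,7,1,1,1,1,1], [1,1,1,1,1,7,3,2,1,1], [1,1,3,3,4,1,1,1,1,1], [1,1,1,1,1,4,3,3,1,1],
  [1,1,1,7,1,1,2,1,1,1], [1,1,1,2,1,1,7,1,1,1], [1,1,1,3,9,2,1,1,1,1], [1,1,1,1,2,9,3,1,1,1],
  [1,1,2,3,6,2,1,1,1,1], [1,1,1,1,2,6,3,2,1,1], [1,1,2,3,5,3,1,1,1,1], [1,1,1,1,3,5,3,2,1,1],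
  [1,1,3,3,3,2,1,1,1,1], [1,1,1,1,2,3,3,3,1,1], [1,1,1,6,2,3,1,1,1,1], [1,1,1,1,3,2,6,1,1,1],
  [1,2,3,1,2,3,1,1,1,1], [1,1,1,1,3,2,1,3,2,1], [1,1,2,1,5,7,1,1,1,1], [1,1,1,1,7,5,1,2,1,1],
  [1,2,1,1,7,1,2,1,1,1], [1,1,1,2,1,7,1,1,2,1], [1,1,1,1,6,1,2,3,1,1], [1,1,3,2,1,6,1,1,1,1],
  [1,1,2,1,11,1,1,1,1,1], [1,1,1,1,1,11,1,2,1,1], [1,2,1,1,3,1,2,2,1,1], [1,1,2,2,1,3,1,1,2,1],
  [1,2,3,1,1,1,1,2,1,1], [1,1,2,1,1,1,1,3,2,1], [1,2,2,1,2,1,1,2,1,1], [1,1,2,1,1,2,1,2,2,1],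
  [1,1,2,1,1,3,1,3,1,1], [1,1,3,1,3,1,1,2,1,1], [1,1,2,2,7,1,2,1,1,1], [1,1,1,2,1,7,2,2,1,1],
  [1,1,2,1,6,4,2,1,1,1], [1,1,1,2,4,6,1,2,1,1], [1,1,1,2,6,1,1,3,1,1], [1,1,3,1,1,6,2,1,1,1],
  [1,1,2,1,10,2,1,1,1,1], [1,1,1,1,2,10,1,2,1,1], [1,1,2,3,1,1,2,2,1,1], [1,1,2,2,1,1,3,2,1,1],
  [1,1,3,2,1,1,1,2,1,1], [1,1,2,1,1,1,2,3,1,1], [1,1,1,1,2,9,1,1,2,1], [1,2,1,1,9,2,1,1,1,1],
  [1,1,1,3,4,7,1,1,1,1], [1,1,1,1,7,4,3,1,1,1], [1,1,2,3,1,5,2,1,1,1], [1,1,1,2,5,1,3,2,1,1],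
  [1,1,1,2,8,5,1,1,1,1], [1,1,1,1,5,8,2,1,1,1], [1,1,1,1,12,3,1,1,1,1], [1,1,1,1,3,12,1,1,1,1],
  [1,1,1,3,1,1,3,1,2,1], [1,2,1,3,1,1,3,1,1,1], [1,1,1,2,4,4,1,1,2,1], [1,2,1,1,4,4,2,1,1,1]]

noncomputable def T5d : BT :=
  .split 0 4 (.split 1 6 (.split 2 7 (.split 3 8 (.split 4 14 (.split 5 14 (.split 6 8 (.split 7
  7 (.split 8 6 (.split 9 4 (.split 8 3 (.split 1 3 (.split 9 2 (.split 0 2 (.split 7 4 (.split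
  2 4 (.split 6 4 (.split 3 4 (.split 7 2 (.split 5 7 (.split 4 7 (.split 8 2 (.split 6 2
  (.split 2 2 .small (.split 5 4 (.split 4 4 .small (.split 3 2 .small (.split 1 2 .small
  (.split 2 3 .small (.minor 164))))) (.split 4 4 (.split 3 2 .small (.split 1 2 .small (.split
  2 3 .small (.split 4 2 .small (.minor 224))))) (.split 3 2 .small (.split 1 2 .small (.split 2
  3 (.split 5 5 .small (.split 4 5 .small (.split 3 3 .small (.minor 218)))) (.minor 164)))))))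
  (.split 2 2 (.split 1 2 .small (.split 5 4 (.split 4 4 .small (.split 3 3 .small (.minor 62)))
  (.split 4 4 (.split 3 2 .small (.split 6 3 .small (.split 3 3 .small (.minor 265)))) (.minor
  267)))) (.split 1 2 (.split 5 4 (.split 4 4 .small (.split 3 2 .small (.split 2 3 .small
  (.split 3 3 .small (.minor 210))))) (.split 4 6 (.split 4 3 .small (.split 3 2 .small (.split
  2 3 .small (.split 3 3 (.split 4 4 .small (.minor 203)) (.minor 220))))) (.minor 244)))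
  (.split 5 4 (.split 4 4 (.split 3 2 .small (.split 6 3 (.split 2 3 .small (.split 5 2 .small
  (.split 4 2 .small (.split 5 3 .small (.minor 224))))) (.split 3 3 (.split 4 2 .small (.minor
  64)) (.minor 265)))) (.split 2 3 (.split 3 3 (.split 6 3 .small (.split 3 2 .small (.minor
  64))) (.minor 62)) (.minor 164))) (.minor 152))))) (.split 2 2 (.split 1 2 (.split 3 2 .small
  (.split 5 4 (.split 4 4 .small (.split 6 2 .small (.split 3 3 .small (.split 5 2 .small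
  (.minor 65))))) (.split 4 4 (.split 6 3 .small (.minor 63)) (.minor 266)))) (.split 3 3
  (.split 4 5 (.split 5 5 (.split 6 3 (.split 6 2 .small (.split 5 3 .small (.split 4 3 .small
  (.split 3 2 .small (.split 5 4 .small (.split 4 4 .small (.minor 266))))))) (.minor 34))
  (.minor 28)) (.minor 29)) (.minor 35))) (.split 1 2 (.split 4 6 (.split 3 2 (.split 5 4
  (.split 6 2 .small (.split 2 3 .small (.minor 193))) (.split 4 3 (.split 6 2 .small (.split 2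
  3 .small (.minor 193))) (.minor 201))) (.split 5 3 (.split 6 2 (.split 4 3 .small (.split 2 3
  .small (.split 3 3 .small (.split 4 4 (.split 5 2 .small (.minor 220)) (.minor 210)))))
  (.split 2 3 (.split 4 3 .small (.split 3 3 .small (.split 5 2 (.split 6 3 .small (.minor 264))
  (.minor 65)))) (.minor 193))) (.minor 235))) (.minor 128)) (.minor 32)))) (.split 8 2 (.split
  6 2 (.split 4 10 (.split 2 2 (.split 5 4 .small (.split 3 2 .small (.split 1 2 .small (.split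
  4 9 .small (.minor 255))))) (.split 3 3 (.split 5 4 (.split 1 2 .small (.split 2 3 .small
  (.minor 164))) (.split 1 2 (.split 2 3 .small (.split 5 5 .small (.split 4 8 .small (.split 3
  2 .small (.minor 260))))) (.split 2 3 (.split 4 9 (.split 5 5 .small (.split 3 2 .small
  (.split 4 8 .small (.minor 260)))) (.minor 255)) (.minor 164)))) (.minor 208))) (.split 1 2
  (.split 3 3 (.split 2 2 .small (.split 4 11 (.split 5 2 .small (.minor 248)) (.minor 232)))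
  (.minor 190)) (.minor 130))) (.split 1 2 (.split 4 10 (.split 2 2 (.split 5 4 .small (.split 6
  3 .small (.minor 257))) (.split 3 2 (.split 5 4 .small (.minor 244)) (.minor 242))) (.split 3
  3 (.split 2 2 (.split 5 4 .small (.split 4 12 (.split 6 3 .small (.minor 257)) (.minor 262)))
  (.split 3 2 (.split 4 11 (.split 5 2 .small (.minor 248)) (.minor 232)) (.minor 242))) (.minor
  190))) (.minor 228))) (.split 1 2 (.split 2 2 (.split 4 10 (.split 3 2 (.split 5 4 .small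
  (.split 6 3 .small (.minor 257))) (.split 5 4 (.split 6 2 .small (.split 3 3 (.split 6 3
  .small (.split 5 3 .small (.minor 63))) (.split 5 2 (.split 6 3 .small (.minor 264)) (.minor
  65)))) (.minor 266))) (.minor 126)) (.minor 128)) (.minor 29)))) (.split 4 12 (.split 4 6
  (.split 8 2 (.split 6 2 (.split 5 10 (.split 2 2 .small (.split 1 2 (.split 4 5 (.split 3 2
  .small (.split 2 3 .small (.minor 231))) (.minor 226)) (.minor 137))) (.split 1 2 (.split 2 2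
  .small (.split 4 5 (.split 3 2 (.split 5 12 .small (.split 4 3 .small (.minor 263))) (.split 2
  3 (.split 5 12 .small (.split 4 3 .small (.minor 263))) (.minor 231))) (.minor 226))) (.minor
  127))) (.split 2 3 (.split 5 10 (.split 1 2 (.split 4 3 .small (.split 3 2 .small (.split 2 2
  .small (.split 3 3 (.split 4 5 .small (.minor 226)) (.minor 258))))) (.split 2 2 (.split 4 4
  (.split 3 2 .small (.split 6 3 (.split 5 8 .small (.split 4 2 .small (.split 3 3 .small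
  (.split 4 3 .small (.minor 62))))) (.split 3 3 (.split 4 2 .small (.minor 64)) (.minor 265))))
  (.minor 267)) (.minor 137))) (.split 1 2 (.split 4 5 (.split 6 3 (.split 3 2 .small (.split 5
  12 (.split 4 3 .small (.split 2 2 .small (.split 3 3 .small (.minor 258)))) (.split 4 3
  (.split 2 2 .small (.split 3 3 .small (.minor 258))) (.minor 263)))) (.minor 191)) (.minor
  261)) (.minor 127))) (.minor 247))) (.split 1 2 (.split 3 2 (.split 5 10 (.split 2 2 .small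
  (.split 4 3 (.split 6 3 (.split 2 3 .small (.split 6 2 (.split 5 8 .small (.split 5 9 .small
  (.split 4 2 .small (.minor 254)))) (.minor 193))) (.minor 185)) (.minor 201))) (.minor 131))
  (.minor 229)) (.minor 28))) (.split 2 2 (.split 3 3 (.split 5 12 (.split 1 2 (.split 8 2
  (.split 4 9 (.split 6 2 .small (.split 5 8 .small (.minor 261))) (.split 3 2 (.split 6 3
  (.split 5 9 .small (.split 6 2 .small (.minor 261))) (.minor 257)) (.minor 260))) (.split 3 2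
  (.split 4 10 (.split 5 9 (.split 6 2 .small (.split 5 8 (.split 4 8 .small (.split 6 3 .small
  (.minor 257))) (.minor 261))) (.minor 254)) (.minor 126)) (.minor 229))) (.split 4 9 (.split 5
  10 (.split 6 2 (.split 8 2 (.split 5 8 .small (.split 4 7 .small (.split 3 2 .small (.split 4
  8 .small (.minor 260))))) (.minor 28)) (.minor 267)) (.minor 127)) (.minor 255))) (.minor
  263)) (.minor 256)) (.minor 226))) (.minor 262))) (.split 5 11 (.split 4 7 (.split 2 2 (.split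
  5 6 (.split 1 2 (.split 8 2 (.split 4 4 .small (.split 6 2 .small (.split 5 3 .small (.split 3
  2 .small (.split 7 3 .small (.split 4 6 (.split 5 4 .small (.minor 202)) (.minor 230)))))))
  (.split 3 2 (.split 4 4 .small (.split 6 2 .small (.split 5 3 .small (.split 7 3 .small
  (.minor 225))))) (.split 4 4 (.split 6 2 (.split 5 3 .small (.split 7 3 .small (.split 4 3
  (.split 5 4 .small (.minor 165)) (.minor 225)))) (.split 5 3 (.split 7 3 .small (.split 3 3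
  .small (.split 5 2 (.split 6 3 .small (.minor 264)) (.minor 65)))) (.split 3 3 (.split 6 3
  (.split 7 3 .small (.split 4 3 .small (.minor 225))) (.minor 63)) (.minor 65)))) (.minor
  153)))) (.split 8 2 (.split 6 2 (.split 4 4 (.split 7 3 .small (.split 3 2 .small (.minor
  192))) (.split 5 3 (.split 7 3 .small (.split 3 2 .small (.minor 192))) (.minor 200))) (.split
  4 3 (.split 7 3 (.split 5 3 .small (.split 3 2 .small (.split 6 3 .small (.split 3 3 (.split 4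
  2 .small (.minor 64)) (.minor 265))))) (.split 3 2 (.split 5 3 .small (.split 6 3 .small
  (.split 4 2 (.split 5 4 .small (.minor 211)) (.minor 221)))) (.minor 192))) (.minor 234)))
  (.minor 33))) (.split 1 2 (.split 8 2 (.split 4 4 (.split 6 2 (.split 5 8 .small (.split 3 2
  .small (.split 7 3 .small (.split 4 3 .small (.minor 202))))) (.split 5 8 (.split 3 2 .small
  (.split 5 7 (.split 7 3 .small (.split 4 3 .small (.minor 202))) (.minor 243))) (.split 3 2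
  (.split 6 3 .small (.minor 209)) (.minor 243)))) (.split 3 2 (.split 5 10 (.split 6 3 (.split
  7 3 .small (.split 5 8 .small (.split 6 2 .small (.split 4 5 .small (.minor 261))))) (.minor
  217)) (.minor 249)) (.minor 245))) (.split 5 10 (.split 7 3 (.split 3 2 (.split 4 4 (.split 6
  2 .small (.split 5 8 .small (.split 6 3 .small (.minor 209)))) (.split 5 9 (.split 6 3 (.split
  6 2 .small (.split 5 7 .small (.split 4 5 .small (.split 5 8 .small (.minor 261))))) (.minor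
  217)) (.minor 254))) (.split 4 4 (.split 5 7 (.split 6 3 (.split 3 3 .small (.split 6 2 .small
  (.minor 65))) (.minor 63)) (.minor 229)) (.minor 153))) (.minor 165)) (.minor 131))) (.minor
  129))) (.split 8 2 (.split 5 6 (.split 1 2 (.split 7 3 (.split 4 4 (.split 6 2 (.split 5 3
  .small (.split 3 2 .small (.split 2 3 .small (.minor 252)))) (.split 3 3 (.split 5 3 .small
  (.split 6 3 (.split 2 3 .small (.split 3 2 .small (.minor 252))) (.minor 179))) (.minor 250)))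
  (.split 2 3 (.split 3 3 (.split 6 2 .small (.split 5 3 .small (.split 6 3 .small (.minor
  179)))) (.minor 178)) (.minor 241))) (.split 5 3 (.split 6 2 (.split 4 4 (.split 2 3 .small
  (.split 3 2 .small (.minor 252))) (.split 2 3 (.split 3 3 .small (.minor 178)) (.minor 241)))
  (.minor 253)) (.minor 240))) (.split 2 3 (.split 4 2 (.split 6 2 (.split 7 3 .small (.split 3
  2 (.split 5 3 .small (.minor 240)) (.minor 192))) (.split 3 3 (.split 5 4 (.split 7 3 (.split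
  6 3 .small (.split 3 2 .small (.minor 251))) (.minor 253)) (.minor 152)) (.minor 250)))
  (.minor 238)) (.minor 236))) (.split 1 2 (.split 6 3 (.split 7 3 (.split 4 4 (.split 5 8
  (.split 3 2 (.split 2 3 .small (.split 4 3 .small (.minor 241))) (.split 2 3 (.split 6 2
  .small (.split 3 3 .small (.minor 250))) (.minor 231))) (.split 3 2 (.split 2 3 .small (.split
  4 3 (.split 6 2 (.split 5 9 .small (.split 5 10 .small (.split 4 2 .small (.minor 249))))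
  (.minor 247)) (.minor 241))) (.split 2 3 (.split 6 2 (.split 5 9 .small (.split 4 2 .small
  (.split 5 10 (.split 3 3 .small (.split 4 3 .small (.minor 178))) (.minor 249)))) (.minor
  243)) (.minor 231)))) (.split 2 3 (.split 3 2 (.split 5 10 (.split 5 8 .small (.split 4 5
  .small (.minor 226))) (.minor 249)) (.minor 245)) (.minor 241))) (.minor 240)) (.minor 179))
  (.minor 129))) (.split 1 2 (.split 4 6 (.split 5 2 (.split 7 3 (.split 3 2 (.split 2 3 .small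
  (.split 4 3 (.split 6 2 .small (.minor 193)) (.minor 241))) (.split 2 3 (.split 4 4 (.split 6
  3 (.split 3 3 .small (.split 4 3 (.split 6 2 .small (.minor 250)) (.minor 178))) (.minor 251))
  (.minor 153)) (.minor 252))) (.minor 237)) (.minor 239)) (.minor 128)) (.minor 32)))) (.split
  2 3 (.split 3 3 (.split 5 5 (.split 8 2 (.split 1 2 (.split 4 10 (.split 2 2 (.split 6 2
  .small (.split 7 3 .small (.minor 230))) (.split 7 3 (.split 6 2 .small (.split 3 2 (.split 5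
  4 (.split 6 3 .small (.split 5 3 .small (.minor 179))) (.minor 244)) (.minor 242))) (.split 3
  2 (.split 5 3 (.split 6 2 .small (.minor 230)) (.minor 240)) (.minor 246)))) (.split 2 2
  (.split 6 2 (.split 7 3 .small (.split 3 2 (.split 5 3 .small (.split 4 12 .small (.minor
  262))) (.minor 246))) (.split 7 3 (.split 5 3 (.split 4 12 .small (.split 6 3 .small (.split 3
  2 .small (.minor 259)))) (.split 4 12 (.split 6 3 .small (.split 3 2 .small (.minor 259)))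
  (.minor 262))) (.minor 230))) (.split 4 11 (.split 5 2 (.split 7 3 (.split 6 2 .small (.split
  3 2 .small (.minor 242))) (.split 3 2 (.split 6 2 .small (.minor 230)) (.minor 246))) (.minor
  248)) (.minor 232)))) (.split 2 2 (.split 4 10 (.split 5 3 (.split 6 2 (.split 7 3 .small
  (.split 3 2 (.split 4 8 .small (.split 5 2 .small (.split 4 9 .small (.minor 255)))) (.minor
  192))) (.minor 228)) (.minor 200)) (.minor 130)) (.minor 238))) (.minor 136)) (.minor 227))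
  (.minor 184)) (.minor 241))) (.minor 233))) (.split 4 10 (.split 5 8 (.split 8 2 (.split 7 2
  (.split 4 5 (.split 6 2 (.split 5 4 (.split 3 6 (.split 2 2 .small (.split 1 2 .small (.split
  4 3 (.split 2 3 .small (.split 5 2 .small (.split 3 5 .small (.split 5 3 .small (.split 4 2
  .small (.minor 224)))))) (.split 2 3 .small (.split 4 4 (.split 5 2 .small (.minor 220))
  (.minor 164)))))) (.split 1 2 (.split 2 2 .small (.split 4 3 (.split 2 3 .small (.split 5 2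
  .small (.split 3 7 .small (.split 5 3 .small (.split 4 2 .small (.minor 222)))))) (.split 5 3
  (.split 2 3 .small (.split 4 4 (.split 5 2 .small (.minor 220)) (.minor 210))) (.minor 222))))
  (.minor 109))) (.split 1 2 (.split 3 6 (.split 2 2 .small (.split 5 6 (.split 4 3 .small
  (.split 2 3 .small (.minor 220))) (.split 2 3 .small (.minor 231)))) (.minor 113)) (.minor
  93))) (.split 1 2 (.split 3 7 (.split 5 4 (.split 2 2 .small (.split 6 3 (.split 3 5 .small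
  (.split 4 3 (.split 2 3 .small (.split 5 2 .small (.split 3 6 .small (.split 5 3 .small
  (.split 4 2 .small (.minor 222)))))) (.split 2 3 .small (.split 4 4 (.split 5 2 .small (.minor
  220)) (.minor 210))))) (.minor 181))) (.split 3 6 (.split 2 2 (.split 5 6 .small (.split 4 3
  .small (.split 6 3 .small (.split 3 5 .small (.split 5 7 .small (.split 4 4 .small (.minor
  256))))))) (.split 5 5 (.split 6 3 (.split 4 3 .small (.split 2 3 .small (.minor 220)))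
  (.minor 181)) (.minor 258))) (.minor 113))) (.minor 212)) (.minor 196))) (.split 2 3 (.split 5
  4 (.split 6 2 (.split 3 6 (.split 4 7 (.split 1 2 .small (.split 2 2 .small (.split 5 3
  (.split 3 5 .small (.split 5 2 .small (.split 4 6 .small (.minor 216)))) (.minor 218))))
  (.split 2 2 (.split 5 3 (.split 1 2 .small (.split 4 8 .small (.split 3 5 .small (.split 5 2
  .small (.split 4 9 .small (.minor 214)))))) (.minor 206)) (.minor 208))) (.split 1 2 (.split 5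
  3 (.split 4 7 (.split 2 2 .small (.split 3 7 .small (.split 5 2 .small (.split 4 6 .small
  (.minor 216))))) (.split 2 2 (.split 4 8 .small (.split 3 7 .small (.split 5 2 .small (.split
  4 9 .small (.minor 214))))) (.minor 208))) (.minor 222)) (.minor 109))) (.split 1 2 (.split 3
  7 (.split 4 7 (.split 3 5 .small (.split 2 2 (.split 6 3 .small (.split 3 6 .small (.minor
  186))) (.split 5 3 (.split 6 3 (.split 3 6 .small (.split 5 2 .small (.split 4 6 .small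
  (.minor 216)))) (.minor 181)) (.minor 218)))) (.split 2 2 (.split 5 3 (.split 3 5 .small
  (.split 6 3 (.split 4 8 .small (.split 3 6 .small (.split 5 2 .small (.split 4 9 .small
  (.minor 214))))) (.split 3 6 (.split 4 8 .small (.split 5 2 .small (.split 4 9 .small (.minor
  214)))) (.minor 186)))) (.minor 206)) (.minor 208))) (.minor 212)) (.minor 62))) (.minor 188))
  (.minor 210))) (.split 2 2 (.split 4 7 (.split 1 2 (.split 5 4 (.split 3 6 (.split 4 4 (.split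
  6 2 .small (.split 7 3 .small (.split 3 5 .small (.minor 204)))) (.split 3 5 (.split 6 2
  .small (.split 7 3 .small (.split 4 6 (.split 6 3 .small (.split 4 5 (.split 5 3 .small
  (.minor 221)) (.minor 259))) (.minor 230)))) (.minor 198))) (.split 4 3 (.split 6 3 (.split 7
  3 .small (.minor 204)) (.minor 186)) (.minor 198))) (.split 3 6 (.split 4 5 (.split 6 2
  (.split 7 3 .small (.split 3 5 (.split 4 3 .small (.minor 202)) (.minor 204))) (.split 5 7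
  (.split 7 3 (.split 4 3 (.split 6 3 .small (.split 5 5 .small (.split 3 5 .small (.split 5 6
  .small (.split 4 2 .small (.minor 217)))))) (.split 3 5 (.split 6 3 .small (.split 5 5 .small
  (.minor 219))) (.minor 198))) (.split 3 5 (.split 4 3 (.split 6 3 .small (.minor 211)) (.minor
  202)) (.minor 204))) (.minor 243))) (.minor 188)) (.minor 113))) (.split 3 6 (.split 5 4
  (.split 6 2 (.split 7 3 (.split 4 4 .small (.split 3 5 (.split 5 3 .small (.minor 200))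
  (.minor 198))) (.minor 192)) (.minor 196)) (.minor 93)) (.minor 109))) (.minor 184)) (.minor
  194))) (.minor 23)) (.minor 95)) (.minor 190))) (.split 1 2 (.split 3 5 (.split 4 8 (.split 5
  10 (.split 2 2 (.split 3 3 (.split 5 5 (.split 7 2 (.split 6 6 (.split 4 4 .small (.split 8 2
  .small (.minor 92))) (.split 4 4 (.split 8 2 .small (.minor 108)) (.minor 112))) (.split 6 6
  (.split 4 4 (.split 8 2 (.split 7 3 .small (.split 5 4 .small (.minor 211))) (.split 3 2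
  (.split 7 3 .small (.split 5 4 (.split 6 5 .small (.split 5 2 .small (.split 4 3 (.split 5 3
  .small (.split 4 2 .small (.minor 221))) (.minor 225)))) (.minor 165))) (.minor 197))) (.split
  8 2 (.split 7 3 (.split 5 3 .small (.split 4 6 .small (.split 3 2 .small (.minor 259))))
  (.split 4 6 (.split 5 3 (.split 6 5 .small (.split 3 2 .small (.split 4 5 .small (.minor
  259)))) (.minor 221)) (.minor 230))) (.minor 92))) (.split 4 4 (.split 8 2 (.split 7 3 (.split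
  5 3 .small (.split 4 3 (.split 6 7 .small (.split 3 2 .small (.minor 213))) (.minor 223)))
  (.split 5 4 (.split 6 7 (.split 5 2 .small (.split 4 3 (.split 3 2 .small (.split 5 3 .small
  (.split 4 2 .small (.minor 221)))) (.minor 223))) (.split 3 2 (.split 5 2 .small (.split 4 3
  (.split 5 3 .small (.split 4 2 .small (.minor 221))) (.minor 223))) (.minor 213))) (.minor
  211))) (.minor 108)) (.minor 112)))) (.split 4 4 (.split 7 3 (.split 6 6 (.split 8 2 (.split 5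
  7 .small (.split 4 3 (.split 7 2 .small (.minor 209)) (.minor 207))) (.split 3 2 (.split 5 7
  (.split 7 2 .small (.split 4 3 (.split 6 5 .small (.split 5 6 .small (.split 4 2 .small
  (.minor 217)))) (.minor 219))) (.split 4 3 (.split 7 2 (.split 6 5 .small (.split 5 8 .small
  (.split 5 9 .small (.split 4 2 .small (.minor 215))))) (.minor 209)) (.minor 207))) (.minor
  63))) (.split 4 3 (.split 8 2 (.split 5 7 (.split 7 2 .small (.split 6 7 (.split 3 2 .small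
  (.split 5 6 .small (.split 4 2 .small (.minor 217)))) (.split 3 2 (.split 5 6 .small (.split 4
  2 .small (.minor 217))) (.minor 213)))) (.split 7 2 (.split 6 7 (.split 5 8 .small (.split 3 2
  .small (.split 5 9 .small (.split 4 2 .small (.minor 215))))) (.split 3 2 (.split 5 8 .small
  (.split 5 9 .small (.split 4 2 .small (.minor 215)))) (.minor 213))) (.minor 209))) (.minor
  108)) (.minor 223))) (.minor 211)) (.minor 189))) (.split 6 6 (.split 7 2 (.split 8 2 (.split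
  5 5 (.split 4 4 .small (.split 5 3 (.split 4 6 .small (.split 6 5 .small (.split 3 4 .small
  (.minor 183)))) (.split 4 6 (.split 6 5 .small (.split 3 4 .small (.minor 183))) (.split 3 4
  (.split 6 5 .small (.split 5 4 .small (.split 4 7 .small (.minor 257)))) (.minor 206)))))
  (.split 4 4 (.split 5 7 (.split 6 5 .small (.split 3 4 .small (.minor 183))) (.split 4 3
  (.split 6 5 (.split 5 8 .small (.split 3 4 .small (.minor 95))) (.split 3 4 (.split 5 8 .small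
  (.split 5 9 .small (.split 4 2 .small (.minor 215)))) (.minor 183))) (.minor 207))) (.minor
  189))) (.minor 197)) (.minor 180)) (.minor 187))) (.split 3 4 (.split 5 7 (.split 7 2 (.split
  8 2 (.split 6 6 (.split 4 4 (.split 5 4 (.split 3 2 .small (.split 2 3 .small (.split 6 5
  .small (.minor 205)))) (.split 6 5 (.split 3 2 .small (.split 2 3 .small (.split 5 6 (.split 4
  2 .small (.split 3 3 .small (.split 4 3 (.split 5 5 .small (.minor 258)) (.minor 220))))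
  (.minor 231)))) (.minor 199))) (.split 5 5 (.split 3 2 (.split 5 3 (.split 4 6 .small (.split
  2 3 .small (.split 6 5 .small (.minor 205)))) (.split 2 3 .small (.minor 203))) (.split 4 7
  (.split 5 3 (.split 2 3 (.split 6 5 .small (.split 4 5 .small (.split 3 3 .small (.split 5 2
  .small (.split 4 6 .small (.minor 216)))))) (.split 3 3 (.split 6 5 .small (.minor 205))
  (.minor 210))) (.split 2 3 (.split 6 5 (.split 4 5 .small (.split 3 3 .small (.minor 218)))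
  (.minor 199)) (.minor 203))) (.minor 242))) (.minor 189))) (.split 2 3 (.split 3 3 (.split 4 4
  (.split 5 3 .small (.minor 199)) (.minor 112)) (.minor 187)) (.minor 205))) (.split 2 3
  (.split 3 2 (.split 4 4 (.split 6 6 (.split 5 4 .small (.split 4 3 (.split 6 5 .small (.minor
  199)) (.minor 201))) (.minor 108)) (.minor 92)) (.minor 197)) (.minor 193))) (.minor 195))
  (.minor 185)) (.minor 181))) (.minor 191)) (.minor 94)) (.minor 182)) (.minor 22))) (.split 1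
  2 (.split 3 3 (.split 4 5 (.split 5 5 (.split 6 3 (.split 7 2 (.split 8 2 (.split 2 5 .small
  (.split 5 3 (.split 4 3 (.split 2 6 .small (.split 6 2 .small (.split 3 2 .small (.minor
  172)))) (.split 2 6 .small (.split 6 2 (.split 3 2 .small (.split 5 2 .small (.split 4 4
  .small (.minor 174)))) (.split 3 2 (.split 5 2 .small (.split 4 4 .small (.minor 174)))
  (.minor 172))))) (.split 4 3 (.split 2 6 .small (.split 6 2 (.split 3 2 .small (.split 5 4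
  .small (.split 4 2 .small (.minor 176)))) (.split 3 2 (.split 5 4 .small (.split 4 2 .small
  (.minor 176))) (.minor 172)))) (.minor 170)))) (.minor 162)) (.minor 160)) (.minor 79))
  (.minor 83)) (.minor 166)) (.minor 75)) (.minor 168))) (.split 1 2 (.split 2 2 (.split 3 3
  (.split 4 5 (.split 5 5 (.split 6 3 (.split 8 2 (.split 7 5 .small (.split 7 6 (.split 5 3
  .small (.split 4 3 .small (.minor 171))) (.split 5 3 (.split 4 3 (.split 6 2 .small (.split 3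
  2 .small (.minor 173))) (.split 6 2 (.split 3 2 .small (.split 5 2 .small (.split 4 4 .small
  (.minor 177)))) (.split 3 2 (.split 5 2 .small (.split 4 4 .small (.minor 177))) (.minor
  173)))) (.split 4 3 (.split 6 2 (.split 3 2 .small (.split 5 4 .small (.split 4 2 .small
  (.minor 175)))) (.split 3 2 (.split 5 4 .small (.split 4 2 .small (.minor 175))) (.minor
  173))) (.minor 171))))) (.minor 169)) (.minor 74)) (.minor 167)) (.minor 82)) (.minor 78))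
  (.minor 161)) (.minor 163))) (.split 2 4 (.split 3 5 (.split 4 9 (.split 5 5 (.split 6 4
  (.split 7 3 (.split 8 2 (.split 0 3 (.split 6 2 (.split 2 2 (.split 4 5 (.split 5 3 (.split 3
  3 (.split 7 2 .small (.split 1 2 .small (.minor 84))) (.split 1 2 .small (.minor 105)))
  (.split 3 3 (.split 7 2 .small (.split 1 2 .small (.minor 84))) (.minor 101))) (.split 1 2
  (.split 3 4 (.split 5 3 (.split 7 2 .small (.split 3 2 .small (.minor 138))) (.split 3 3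
  (.split 7 2 .small (.minor 140)) (.minor 101))) (.minor 103)) (.minor 148))) (.split 7 2
  (.split 4 5 (.split 5 3 (.split 3 3 (.split 1 2 .small (.split 2 3 .small (.minor 122)))
  (.split 1 2 (.split 2 3 .small (.minor 124)) (.minor 105))) (.split 2 3 (.split 3 3 (.split 4
  2 .small (.minor 150)) (.minor 101)) (.minor 146))) (.split 1 2 (.split 2 3 (.split 3 4
  (.split 5 3 (.split 3 2 .small (.split 4 7 .small (.split 3 3 .small (.minor 208)))) (.minor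
  150)) (.minor 103)) (.minor 132)) (.minor 148))) (.minor 76))) (.split 3 4 (.split 4 6 (.split
  2 2 (.split 1 2 (.split 5 3 (.split 7 2 (.split 4 3 .small (.split 3 2 .small (.split 6 3
  .small (.split 5 2 .small (.minor 110))))) (.split 4 3 (.split 3 2 .small (.split 6 3 .small
  (.split 5 2 .small (.minor 110)))) (.split 3 2 (.split 5 2 .small (.minor 140)) (.minor
  138)))) (.split 3 3 (.split 4 2 (.split 6 3 .small (.minor 110)) (.minor 156)) (.minor 101)))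
  (.split 3 3 (.split 4 5 (.split 7 2 (.split 5 3 (.split 6 3 .small (.split 5 2 (.split 4 3
  .small (.split 3 2 .small (.minor 64))) (.minor 110))) (.split 3 2 (.split 4 2 (.split 6 3
  .small (.minor 110)) (.minor 156)) (.minor 158))) (.minor 84)) (.minor 148)) (.minor 105)))
  (.split 6 3 (.split 7 2 (.split 5 3 (.split 1 2 (.split 4 3 (.split 3 2 .small (.split 2 3
  .small (.minor 124))) (.split 2 3 (.split 3 2 .small (.split 5 2 .small (.split 4 4 .small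
  (.minor 154)))) (.minor 132))) (.split 2 3 (.split 3 2 (.split 4 5 (.split 4 3 .small (.split
  5 2 .small (.split 4 4 .small (.minor 154)))) (.minor 148)) (.minor 116)) (.minor 122)))
  (.split 2 3 (.split 3 3 (.split 4 2 (.split 1 2 .small (.split 3 2 (.split 5 4 .small (.minor
  152)) (.minor 116))) (.minor 150)) (.minor 101)) (.minor 146))) (.minor 76)) (.minor 90)))
  (.minor 134)) (.minor 70))) (.split 4 4 (.split 5 2 (.split 6 2 (.split 7 2 (.split 3 3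
  (.split 2 2 .small (.split 1 2 .small (.split 2 3 (.split 3 2 .small (.minor 116)) (.minor
  122)))) (.split 1 2 (.split 2 3 (.split 2 2 .small (.split 4 2 .small (.split 3 4 .small
  (.split 4 3 .small (.minor 103))))) (.minor 124)) (.minor 105))) (.minor 80)) (.minor 96))
  (.minor 120)) (.minor 88))) (.split 0 3 (.split 1 2 (.split 3 2 (.split 5 3 (.split 6 2
  (.split 2 2 (.split 4 5 .small (.split 7 2 .small (.split 4 7 (.split 5 2 .small (.minor 140))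
  (.minor 136)))) (.split 4 6 (.split 7 2 (.split 4 3 (.split 2 3 .small (.split 5 2 .small
  (.minor 146))) (.split 2 3 .small (.minor 132))) (.minor 76)) (.minor 128))) (.minor 144))
  (.minor 45)) (.minor 41)) (.minor 27)) (.minor 25))) (.minor 86)) (.minor 114)) (.minor 69))
  (.minor 142)) (.minor 99)) (.minor 15))) (.split 0 3 (.split 2 3 (.split 3 4 (.split 4 5
  (.split 5 9 (.split 6 5 (.split 7 4 (.split 0 2 (.split 9 3 (.split 1 2 (.split 7 2 (.split 3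
  2 (.split 5 5 (.split 6 3 (.split 4 3 (.split 8 2 .small (.split 2 2 .small (.minor 85)))
  (.split 8 2 .small (.split 2 2 .small (.minor 85)))) (.split 4 3 (.split 8 2 .small (.minor
  104)) (.minor 100))) (.split 6 4 (.split 8 2 (.split 4 3 (.split 6 2 .small (.split 2 2 .small
  (.minor 139))) (.split 2 2 (.split 6 3 .small (.minor 100)) (.minor 141))) (.minor 149))
  (.minor 102))) (.split 5 6 (.split 6 4 (.split 8 2 (.split 4 3 (.split 6 2 (.split 5 3 .small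
  (.split 2 2 .small (.split 4 2 .small (.minor 141)))) (.split 5 3 (.split 2 2 .small (.split 3
  3 .small (.split 4 2 .small (.minor 111)))) (.split 2 2 (.split 3 3 .small (.split 4 2 .small
  (.minor 111))) (.minor 139)))) (.split 3 3 (.split 5 2 (.split 6 3 .small (.minor 100))
  (.minor 157)) (.minor 111))) (.split 2 2 (.split 5 5 (.split 6 3 (.split 4 3 (.split 3 3
  .small (.split 4 2 (.split 5 3 .small (.split 6 2 .small (.minor 65))) (.minor 111))) (.split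
  3 3 (.split 5 2 (.split 6 2 .small (.minor 159)) (.minor 157)) (.minor 111))) (.minor 104))
  (.minor 149)) (.minor 85))) (.minor 71)) (.minor 135))) (.split 2 2 (.split 3 3 (.split 5 5
  (.split 6 3 (.split 4 3 (.split 8 2 (.split 7 3 .small (.split 4 2 .small (.minor 147)))
  (.split 6 2 (.split 7 3 (.split 3 2 .small (.split 5 3 .small (.split 4 2 .small (.split 5 4
  .small (.minor 155))))) (.minor 123)) (.minor 117))) (.split 5 2 (.split 7 3 (.split 8 2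
  .small (.split 6 2 (.split 3 2 .small (.split 4 4 .small (.minor 153))) (.minor 117))) (.minor
  147)) (.minor 151))) (.split 4 3 (.split 7 3 (.split 8 2 (.split 5 3 .small (.split 6 4 .small
  (.minor 102))) (.minor 104)) (.minor 125)) (.minor 100))) (.split 4 3 (.split 6 4 (.split 7 3
  (.split 8 2 (.split 6 2 .small (.split 5 7 (.split 3 2 .small (.split 4 2 .small (.minor
  155))) (.split 3 2 (.split 6 3 .small (.minor 209)) (.minor 135)))) (.minor 149)) (.minor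
  133)) (.minor 102)) (.minor 151))) (.minor 91)) (.minor 77))) (.split 3 2 (.split 4 3 (.split
  6 2 (.split 8 2 (.split 7 2 (.split 5 5 .small (.split 2 2 .small (.split 4 2 (.split 5 7
  .small (.minor 137)) (.minor 141)))) (.split 2 2 (.split 5 6 (.split 7 3 .small (.split 4 2
  (.split 5 3 .small (.minor 133)) (.minor 147))) (.minor 129)) (.minor 77))) (.minor 26))
  (.minor 40)) (.minor 44)) (.minor 145))) (.split 1 2 (.split 2 2 (.split 3 2 (.split 4 2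
  (.split 5 4 (.split 7 2 (.split 6 3 .small (.split 8 2 .small (.minor 104))) (.split 6 3
  (.split 8 2 .small (.split 6 2 (.split 7 3 .small (.minor 123)) (.minor 117))) (.split 7 3
  (.split 8 2 (.split 6 4 .small (.split 5 3 .small (.minor 102))) (.minor 104)) (.minor 125))))
  (.minor 89)) (.minor 121)) (.minor 97)) (.minor 81)) (.minor 24))) (.split 3 2 (.split 4 2
  (.split 5 2 (.split 6 2 (.split 7 3 (.split 9 3 (.split 8 2 (.split 7 2 .small (.split 1 2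
  .small (.minor 84))) (.split 1 2 (.split 2 2 .small (.minor 85)) (.minor 26))) (.minor 72))
  (.minor 86)) (.minor 119)) (.minor 107)) (.minor 106)) (.minor 118))) (.minor 14)) (.minor
  98)) (.minor 143)) (.minor 68)) (.minor 115)) (.minor 87)) (.minor 73))) (.split 0 2 (.split 2
  3 (.split 3 6 (.split 4 6 (.split 5 6 (.split 6 4 (.split 7 2 (.split 9 2 (.split 1 4 (.split
  3 3 (.split 8 2 (.split 6 2 (.split 5 3 .small (.split 2 2 .small (.minor 52))) (.split 5 2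
  (.split 6 3 (.split 4 3 .small (.split 2 2 .small (.minor 56))) (.split 4 3 (.split 2 2 .small
  (.split 3 2 .small (.minor 66))) (.split 2 2 (.split 3 2 .small (.minor 64)) (.minor 56))))
  (.minor 38))) (.split 2 2 (.split 3 2 (.split 4 2 (.split 5 5 (.split 6 3 (.split 6 2 .small
  (.split 5 2 .small (.minor 38))) (.minor 34)) (.minor 28)) (.minor 36)) (.minor 30)) (.minor
  32))) (.split 2 2 (.split 6 3 (.split 8 2 (.split 6 2 (.split 5 3 (.split 4 3 .small (.split 3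
  4 .small (.split 4 4 .small (.split 3 5 .small (.split 5 2 .small (.split 4 5 .small (.minor
  58))))))) (.split 4 4 (.split 3 4 .small (.split 5 4 .small (.minor 93))) (.minor 54)))
  (.split 3 4 (.split 4 3 (.split 5 2 .small (.minor 38)) (.minor 62)) (.minor 196))) (.minor
  30)) (.minor 265)) (.minor 66))) (.split 3 2 (.split 4 2 (.split 6 2 (.split 8 2 (.split 5 3
  .small (.split 2 2 .small (.minor 52))) (.minor 18)) (.minor 50)) (.minor 60)) (.minor 46)))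
  (.minor 48)) (.minor 20)) (.minor 22)) (.minor 42)) (.minor 16)) (.minor 109)) (.minor 10))
  (.minor 12))) (.split 0 2 (.split 1 4 (.split 2 2 (.split 3 4 (.split 4 6 (.split 5 6 (.split
  6 6 (.split 7 3 (.split 9 2 (.split 1 2 (.split 8 4 (.split 6 3 (.split 3 2 (.split 5 3 .small
  (.split 7 2 .small (.minor 57))) (.split 4 2 (.split 5 3 (.split 3 3 .small (.split 7 2 .small
  (.split 6 2 .small (.minor 67)))) (.split 7 2 (.split 3 3 .small (.split 6 2 .small (.minor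
  65))) (.minor 57))) (.minor 39))) (.split 3 3 (.split 7 2 (.split 6 4 (.split 5 3 (.split 4 3
  .small (.split 3 2 .small (.minor 39))) (.split 3 2 .small (.minor 63))) (.split 3 2 (.split 4
  4 (.split 5 3 .small (.split 6 5 .small (.split 5 4 .small (.split 4 3 (.split 5 5 .small
  (.split 4 2 .small (.minor 59))) (.minor 55))))) (.minor 92)) (.minor 197))) (.minor 67))
  (.minor 264))) (.split 3 2 (.split 5 2 (.split 6 2 (.split 8 5 .small (.split 4 3 .small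
  (.split 7 2 .small (.minor 53)))) (.minor 47)) (.minor 61)) (.minor 51))) (.split 3 3 (.split
  4 5 (.split 5 2 (.split 6 2 (.split 7 2 (.split 8 4 (.split 1 3 (.split 3 2 .small (.split 4 2
  .small (.minor 39))) (.split 3 2 (.split 4 2 .small (.minor 36)) (.minor 30))) (.minor 19))
  (.minor 33)) (.minor 31)) (.minor 37)) (.minor 29)) (.minor 35))) (.minor 13)) (.minor 11))
  (.minor 108)) (.minor 17)) (.minor 43)) (.minor 23)) (.minor 21)) (.minor 18)) (.minor 49)))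
  (.minor 8)) (.minor 6)) (.minor 4)) (.minor 2)) (.minor 0)) (.minor 1)) (.minor 3)) (.minor
  5)) (.minor 7)) (.minor 9)

noncomputable def Rt5d : List (List ℕ) :=
  cj5d_0.map Prod.fst ++ cj5d_1.map Prod.fst ++ cj5d_2.map Prod.fst ++ cj5d_3.map Prod.fst ++
  cj5d_4.map Prod.fst ++ cj5d_5.map Prod.fst ++ cj5d_6.map Prod.fst ++ cj5d_7.map Prod.fst ++
  cj5d_8.map Prod.fst ++ cj5d_9.map Prod.fst ++ cj5d_10.map Prod.fst ++ cj5d_11.map Prod.fst ++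
  cj5d_12.map Prod.fst

theorem Rt5d_ok : ∀ M ∈ Rt5d, KG (M : Multiset ℕ) 14 := by
  intro M h
  unfold Rt5d at h
  simp only [List.mem_append] at h
  rcases h with (((((((((((h | h) | h) | h) | h) | h) | h) | h) | h) | h) | h) | h) | h
  · exact kg_of_allJ S38_ok R38_ok F38_ok cj5d_0_ok M h
  · exact kg_of_allJ S38_ok R38_ok F38_ok cj5d_1_ok M h
  · exact kg_of_allJ S38_ok R38_ok F38_ok cj5d_2_ok M h
  · exact kg_of_allJ S38_ok R38_ok F38_ok cj5d_3_ok M h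
  · exact kg_of_allJ S38_ok R38_ok F38_ok cj5d_4_ok M h
  · exact kg_of_allJ S38_ok R38_ok F38_ok cj5d_5_ok M h
  · exact kg_of_allJ S38_ok R38_ok F38_ok cj5d_6_ok M h
  · exact kg_of_allJ S38_ok R38_ok F38_ok cj5d_7_ok M h
  · exact kg_of_allJ S38_ok R38_ok F38_ok cj5d_8_ok M h
  · exact kg_of_allJ S38_ok R38_ok F38_ok cj5d_9_ok M h
  · exact kg_of_allJ S38_ok R38_ok F38_ok cj5d_10_ok M h
  · exact kg_of_allJ S38_ok R38_ok F38_ok cj5d_11_ok M h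
  · exact kg_of_allJ S38_ok R38_ok F38_ok cj5d_12_ok M h

def ks5d : List ℕ := [
  266, 267, 234, 235, 218, 219, 182, 183, 68, 69, 145, 144, 67, 66, 142, 143, 225, 224, 85, 84, 9,
  8, 76, 77, 22, 23, 20, 21, 156, 157, 81, 80, 19, 18, 78, 79, 49, 48, 3, 2, 14, 15, 152, 153, 89,
  88, 139, 138, 35, 34, 71, 70, 65, 64, 161, 160, 173, 172, 199, 198, 113, 112, 165, 164, 43, 42,
  135, 134, 149, 148, 125, 124, 36, 37, 180, 181, 7, 6, 60, 61, 13, 12, 95, 94, 11, 10, 32, 33,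
  163, 162, 26, 27, 120, 121, 221, 220, 5, 4, 178, 179, 50, 51, 208, 209, 128, 129, 25, 24, 216,
  217, 90, 91, 174, 175, 92, 93, 137, 136, 31, 30, 1, 0, 147, 146, 133, 132, 247, 246, 197, 196,
  257, 256, 171, 170, 195, 194, 189, 188, 105, 104, 39, 38, 251, 250, 28, 29, 63, 62, 201, 200,
  45, 44, 102, 103, 97, 96, 86, 87, 57, 56, 73, 72, 83, 82, 205, 204, 231, 230, 141, 140, 169,
  168, 131, 130, 203, 202, 109, 108, 167, 166, 118, 119, 115, 114, 239, 238, 177, 176, 227, 226,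
  265, 264, 16, 17, 127, 126, 123, 122, 207, 206, 99, 98, 158, 159, 117, 116, 243, 242, 253, 252,
  233, 232, 215, 214, 259, 258, 245, 244, 229, 228, 211, 210, 213, 212, 111, 110, 186, 187, 223,
  222, 151, 150, 263, 262, 41, 40, 75, 74, 47, 46, 106, 107, 241, 240, 193, 192, 191, 190, 255,
  254, 55, 54, 59, 58, 248, 249, 184, 185, 154, 155, 237, 236, 261, 260, 52, 53, 101, 100]

theorem min5d_ok : minC 5 Rt5d G5d ks5d = true := by decide +kernel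

theorem T5d_ok : btC 5 36 G5d T5d (List.replicate (2 * 5) 1)
    (List.replicate (2 * 5) 0) = true := by decide +kernel

theorem kg5d {M : Multiset ℕ} (hM : ∀ s ∈ M, 1 ≤ s)
    (hc : M.dedup.card = 5) (hn : 36 ≤ M.sum) : KG M 14 :=
  coverC ks5d T5d Rt5d_ok min5d_ok T5d_ok hM hc hn

end Pool.MP322
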