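import Pool.Agent.Lib.MP_322c5f_al.SG36b
import Pool.Agent.Lib.MP_322c5f_alF.FB40

/-! (C), part 29: six distinct column heights, depths 14 and 16. -/

set_option autoImplicit false

namespace Pool.MP322

/-- self-conjugate blocks -/
def S39 : List (List ℕ × List ℕ) := [
  ([4,3,2,1],[1,2,3,4]), ([3,2,1],[1,2,3]), ([2,1],[1,2]), ([3,3,2],[0,2,6]), ([3,3,3],[0,0,9]),
  ([4,4,3,2],[0,2,3,8]), ([3,1,1],[2,0,3]), ([5,4,3,2,1],[1,2,3,4,5]), ([2,2],[0,4]),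
  ([6,5,3,2,2,1],[1,4,3,0,5,6]), ([5,4,2,2,1],[1,4,0,4,5]), ([4,2,1,1],[2,2,0,4]),
  ([5,3,2,1,1],[2,2,3,0,5]), ([4,3,3,1],[1,0,6,4]), ([4,1,1,1],[3,0,0,4]),
  ([5,4,4,3,1],[1,0,3,8,5]), ([6,4,3,2,1,1],[2,2,3,4,0,6]), ([6,5,2,2,2,1],[1,6,0,0,5,6]),
  ([7,4,3,2,1,1,1],[3,2,3,4,0,0,7]), ([5,1,1,1,1],[4,0,0,0,5]), ([6,3,2,1,1,1],[3,2,3,0,0,6]),
  ([6,5,4,3,2,1],[1,2,3,4,5,6]), ([5,5,4,3,2],[0,2,3,4,10]), ([5,5,3,2,2],[0,4,3,0,10]),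
  ([6,4,4,3,1,1],[2,0,3,8,0,6]), ([5,2,1,1,1],[3,2,0,0,5]), ([7,3,3,1,1,1,1],[4,0,6,0,0,0,7]),
  ([7,3,2,1,1,1,1],[4,2,3,0,0,0,7]), ([4,4,2,2],[0,4,0,8]), ([7,2,1,1,1,1,1],[5,2,0,0,0,0,7]),
  ([9,1,1,1,1,1,1,1,1],[8,0,0,0,0,0,0,0,9]), ([8,4,3,2,1,1,1,1],[4,2,3,4,0,0,0,8]),
  ([5,3,3,1,1],[2,0,6,0,5]), ([6,2,1,1,1,1],[4,2,0,0,0,6])]

theorem S39_ok : okS S39 = true := by decide +kernel

/-- direct blocks -/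
def R39 : List (List ℕ × List ℕ) := [
  ([3,2,1],[3,2,1]), ([4,3,2,1],[4,3,2,1]), ([5,4,3,2,1],[5,4,3,2,1]),
  ([6,5,4,3,2,1],[6,5,4,3,2,1])]

theorem R39_ok : okR R39 = true := by decide +kernel

/-- facts used -/
def F39 : List (List ℕ × List ℕ) := [
  ([7,6,5,4,2,1],[5,5,5,3,2,2])]

theorem F39_ok : ∀ p ∈ F39, CC (p.1 : Multiset ℕ) (p.2 : Multiset ℕ) :=
  Pool.MP322F.inT_sound Pool.MP322F.FTc_ok (by decide +kernel)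

noncomputable def cj6c_0 : List (List ℕ × List NdJ) := [
  ([7,7,5,4,3,2,1], [
    (false,[],[7,7,5,4,3,2,1],true,6,3,[10,13,15]),
    (false,[([(0,0,[(7,10)])],[1,1,1])],[7,5,4],false,3,4,[6,8,9]),
    (false,[([(0,0,[(7,10)]),(0,1,[(4,6)])],[])],[7,4,2],false,3,2,[6]),
    (false,[([(0,0,[(7,10)]),(0,1,[(4,6)])],[]),([(0,1,[(4,6)])],[3,2,1,1])],[],false,1,0,[3]),
    (false,[([(0,0,[(7,10)]),(0,1,[(4,6)])],[]),([(0,1,[(4,6)]),(0,2,[(2,3)])],[3,1])],[],false,1,0,[2]),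
    (false,[([(0,0,[(7,10)]),(0,1,[(4,6)])],[]),([(0,1,[(4,6)]),(1,0,[(2,3),(2,2)])],[1])],[],false,1,0,[]),
    (false,[([(0,0,[(7,10)])],[]),([(0,3,[(7,8)])],[3,3,3,2])],[],false,1,0,[3]),
    (false,[([(0,0,[(7,10)]),(0,2,[(2,3)])],[1]),([(0,3,[(7,8)])],[3,2,1,1])],[],false,1,0,[2]),
    (false,[([(0,0,[(7,10)]),(1,0,[(2,3),(2,2)])],[]),([(0,3,[(7,8)])],[2,1,1,1])],[],false,1,0,[]),
    (false,[([(0,0,[(7,10)])],[]),([(0,4,[(9,9)])],[3,3,2,2])],[],false,1,0,[]),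
    (false,[([(0,5,[(11,13)])],[1,1,1])],[7,5,1],true,3,2,[5]),
    (false,[([(0,5,[(11,13)]),(0,6,[(4,5)])],[])],[7,3,1],false,2,1,[]),
    (false,[([(0,7,[(14,15)])],[1,1])],[7,5],false,2,1,[])]),
  ([7,7,6,4,3,2,1], [
    (false,[],[7,7,6,4,3,2,1],true,6,2,[10,14,15]),
    (false,[([(0,0,[(7,10)])],[1,1,1])],[7,6,4],false,3,4,[4,5,6,8,9]),
    (false,[([(0,0,[(7,10)]),(0,8,[(4,4)])],[2])],[7,4,3],false,3,3,[4]),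
    (false,[([(0,0,[(7,10)]),(0,8,[(4,4)])],[2]),([(0,8,[(4,4)])],[2,1])],[7],false,1,0,[3]),
    (false,[([(0,0,[(7,10)]),(0,8,[(4,4)])],[2]),([(0,8,[(4,4)]),(0,2,[(2,3)])],[])],[7],false,1,0,[2]),
    (false,[([(0,0,[(7,10)]),(0,8,[(4,4)])],[3]),([(0,1,[(4,4),(2,2)]),(0,2,[(2,3)])],[3,1])],[],false,1,0,[]),
    (false,[([(0,0,[(7,10)]),(0,6,[(5,5)])],[])],[7,6,2],false,3,2,[4,5]),
    (false,[([(0,7,[(7,10),(5,5)]),(0,8,[(4,4)])],[])],[7,4],false,2,1,[]),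
    (false,[([(0,0,[(7,10)]),(0,6,[(5,5)])],[]),([(0,1,[(5,5)])],[3,2,2,2])],[],false,1,0,[]),
    (false,[([(0,0,[(7,10)])],[1,1,1]),([(0,1,[(6,6)])],[3,3,3,2])],[],false,1,0,[3,4]),
    (false,[([(0,0,[(7,10)]),(0,2,[(2,3)])],[1]),([(0,1,[(6,6)])],[3,3,2,2])],[],false,1,0,[3]),
    (false,[([(0,0,[(7,10)])],[4,2,2]),([(0,1,[(6,6)]),(0,2,[(2,3)]),(0,2,[(2,3)])],[])],[],false,1,0,[2]),
    (false,[([(0,0,[(7,10)]),(0,3,[(6,6),(2,2)])],[]),([(0,2,[(2,3)]),(0,2,[(2,3)])],[1,1,1])],[3],false,1,0,[]),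
    (false,[([(0,0,[(7,10)]),(0,8,[(4,4)])],[2]),([(0,1,[(6,6)])],[3,3,1,1])],[],false,1,0,[]),
    (false,[([(0,0,[(7,10)]),(0,3,[(7,8)])],[])],[7,3,2],false,3,2,[]),
    (false,[([(0,9,[(7,10),(9,9)])],[4])],[7],false,1,0,[]),
    (false,[([(0,10,[(11,14)])],[3,2])],[7,4],false,2,4,[3,4,5]),
    (false,[([(0,10,[(11,14)])],[3,2]),([(0,2,[(3,3)])],[2,2,2,1,1])],[],false,1,0,[3]),
    (false,[([(0,10,[(11,14)])],[3,2]),([(0,2,[(3,3)]),(0,2,[(2,3)])],[2,2,1])],[],false,1,0,[2]),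
    (false,[([(0,10,[(11,14)])],[3,2]),([(0,2,[(3,3)]),(0,2,[(2,3)]),(0,2,[(2,2)])],[2])],[],false,1,0,[]),
    (false,[([(0,7,[(11,14)]),(0,8,[(4,4)])],[])],[7,4],false,2,1,[]),
    (false,[([(0,9,[(11,14),(5,5)])],[4])],[7],false,1,0,[]),
    (false,[([(0,7,[(15,15)])],[1])],[7,7],false,1,0,[])]),
  ([8,5,5,4,3,2,1], [
    (false,[],[8,5,5,4,3,2,1],true,6,3,[10,15]),
    (false,[([(0,0,[(7,10)])],[1])],[8,5,4],false,3,4,[6,8,9]),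
    (false,[([(0,0,[(7,10)]),(0,1,[(4,6)])],[1])],[5,4,2],false,3,2,[4,6]),
    (false,[([(0,0,[(7,10)]),(0,1,[(4,6)])],[1]),([(0,8,[(4,4)])],[1,1])],[5],false,1,0,[3]),
    (false,[([(0,0,[(7,10)]),(0,1,[(4,6)])],[1]),([(0,8,[(4,4)]),(0,2,[(2,3)])],[2])],[2],false,1,0,[2]),
    (true,[([(0,0,[(7,10)]),(0,1,[(4,6)])],[]),([(0,1,[(4,4),(2,2)]),(0,2,[(2,3)])],[2])],[1],false,1,0,[]),
    (false,[([(0,0,[(7,10)]),(0,1,[(4,6)])],[1]),([(0,1,[(5,6)])],[3,2])],[],false,1,0,[2]),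
    (true,[([(0,0,[(7,10)]),(0,1,[(4,6)])],[]),([(0,11,[(5,6),(2,2)])],[2,2])],[],false,1,0,[]),
    (false,[([(0,0,[(7,10)]),(0,11,[(7,8)])],[])],[5,4,1],false,3,1,[]),
    (true,[([(0,0,[(7,10)]),(0,4,[(9,9)])],[])],[4,3,1,1],false,1,0,[]),
    (false,[([(0,7,[(11,15)])],[])],[8,5],false,2,4,[3,5]),
    (false,[([(0,7,[(11,15)]),(0,2,[(3,3)])],[1])],[5,4],false,2,2,[3]),
    (false,[([(0,7,[(11,15)]),(0,2,[(3,3)])],[1]),([(0,2,[(3,3)])],[2,2,2])],[],false,1,0,[]),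
    (false,[([(0,7,[(11,15)]),(0,6,[(4,5)])],[])],[5,3],false,2,1,[])]),
  ([8,6,5,4,3,2], [
    (false,[],[8,6,5,4,3,2],false,6,2,[10,15]),
    (true,[([(0,0,[(7,10)])],[1])],[6,6,4,1],true,3,4,[4,6,9]),
    (true,[([(0,0,[(7,10)]),(0,8,[(4,4)])],[])],[6,4,3,1],false,4,1,[]),
    (false,[([(0,0,[(7,10)]),(0,1,[(5,6)])],[4])],[5,3],false,1,0,[3,4,5]),
    (false,[([(0,0,[(7,10)]),(0,1,[(5,6)])],[4]),([(0,2,[(2,3)])],[2,2,1])],[],false,1,0,[3]),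
    (false,[([(0,0,[(7,10)]),(0,1,[(5,6)])],[4]),([(0,2,[(2,3)]),(0,2,[(2,3)])],[2])],[],false,1,0,[2,3]),
    (false,[([(0,0,[(7,10)]),(0,11,[(5,6),(2,2)])],[]),([(0,2,[(2,3)]),(0,2,[(2,3)])],[2,2])],[],false,1,0,[2]),
    (false,[([(0,0,[(7,10)]),(0,0,[(5,6),(2,2),(2,2)])],[]),([(0,2,[(2,3)]),(0,2,[(2,3)])],[2])],[],false,1,0,[]),
    (false,[([(0,0,[(7,10)]),(0,0,[(5,6),(3,3)])],[]),([(0,2,[(2,3)]),(0,2,[(2,3)])],[2])],[],false,1,0,[]),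
    (false,[([(0,0,[(7,10)]),(0,0,[(5,6),(4,4)])],[])],[5,3],false,2,1,[]),
    (true,[([(0,7,[(7,10),(5,5)])],[1]),([(0,1,[(5,6)])],[2,2,2])],[],false,1,0,[]),
    (false,[([(0,0,[(7,10)]),(0,0,[(7,9)])],[])],[5,3],false,2,2,[3]),
    (false,[([(0,0,[(7,10)]),(0,0,[(7,9)])],[]),([(0,2,[(3,3)])],[2,2,1])],[],false,1,0,[]),
    (true,[([(0,7,[(11,15)])],[2])],[6,4,1],true,3,2,[5]),
    (true,[([(0,7,[(11,15)])],[2]),([(0,6,[(4,5)])],[2,2,2])],[],false,1,0,[2]),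
    (true,[([(0,7,[(11,15)])],[3]),([(0,6,[(4,5)]),(0,2,[(2,2)])],[2])],[],false,1,0,[])]),
  ([8,7,5,4,3,1], [
    (false,[],[8,7,5,4,3,1],false,5,4,[8,11,15]),
    (false,[([(0,11,[(6,8)])],[3,3,1])],[8,5],false,1,0,[3,4,6,8]),
    (false,[([(0,11,[(6,8)]),(0,2,[(2,3)])],[3,3])],[7,4],false,1,0,[2,3]),
    (true,[([(0,0,[(6,8),(2,2)]),(0,2,[(2,3)])],[])],[5,5,3,2],true,2,7,[]),
    (false,[([(0,11,[(6,8)]),(0,1,[(2,3),(3,3)])],[3])],[7,4],false,1,0,[2,3]),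
    (true,[([(0,0,[(6,8),(2,2)])],[]),([(0,2,[(2,3)]),(0,2,[(3,3)])],[1])],[6,5],false,2,5,[]),
    (true,[([(0,11,[(6,8)])],[3]),([(1,1,[(2,3),(3,3),(3,3)])],[4,3])],[],false,1,0,[3]),
    (true,[([(0,11,[(6,8)])],[3]),([(0,1,[(2,3),(3,3)]),(0,1,[(3,3),(2,3)])],[])],[5],false,1,0,[2,3]),
    (true,[([(0,0,[(6,8),(2,2)])],[1]),([(0,1,[(2,3),(3,3)]),(0,1,[(3,3),(2,3)])],[])],[5],false,1,0,[2]),
    (false,[([(0,0,[(6,8),(2,2)]),(0,1,[(2,3),(3,3)])],[]),([(0,2,[(3,3)]),(0,2,[(2,3)]),(0,2,[(2,2)])],[2,1])],[],false,1,0,[2]),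
    (false,[([(0,0,[(6,8),(2,2)]),(0,1,[(2,3),(3,3)])],[]),([(0,2,[(3,3)]),(0,2,[(2,3)]),(0,2,[(2,2)]),(0,2,[(2,2)])],[])],[],false,1,0,[]),
    (false,[([(0,11,[(6,8)]),(0,1,[(2,3),(3,3)])],[3]),([(0,2,[(3,3)]),(0,2,[(2,3)]),(0,2,[(3,3)])],[2])],[],false,1,0,[2]),
    (false,[([(0,0,[(6,8),(2,2)]),(0,1,[(2,3),(3,3)])],[]),([(0,2,[(3,3)]),(0,2,[(2,3)]),(0,2,[(3,3)])],[2,1])],[],false,1,0,[]),
    (true,[([(0,12,[(6,8),(4,4)])],[4])],[5,5,2],true,2,6,[3,4]),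
    (true,[([(0,7,[(6,8),(4,4),(3,3)])],[])],[6,5,2],false,3,2,[]),
    (true,[([(0,11,[(6,8)])],[3]),([(0,8,[(4,4)]),(0,8,[(4,4)])],[1])],[6,2],true,2,3,[3,4]),
    (true,[([(0,11,[(6,8)])],[3]),([(0,8,[(4,4)]),(0,8,[(4,4)]),(0,2,[(3,3)])],[])],[4,2],false,2,1,[]),
    (true,[([(0,12,[(6,8),(4,4)])],[4]),([(0,8,[(4,4)]),(0,8,[(4,4)])],[2])],[2],false,1,0,[]),
    (false,[([(0,11,[(6,8)]),(0,1,[(5,6)])],[3])],[7,4],false,1,0,[3,4,6]),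
    (false,[([(0,11,[(6,8)]),(0,1,[(5,6)])],[3]),([(0,2,[(2,3)])],[2,2,2,1,1])],[],false,1,0,[3]),
    (false,[([(0,11,[(6,8)]),(0,1,[(5,6)])],[3]),([(0,2,[(2,3)]),(0,2,[(2,3)])],[2,2,1])],[],false,1,0,[2,3]),
    (false,[([(0,0,[(6,8),(2,2)]),(0,1,[(5,6)])],[]),([(0,2,[(2,3)]),(0,2,[(2,3)])],[2,2,1,1])],[],false,1,0,[2]),
    (false,[([(0,0,[(6,8),(2,2)]),(0,1,[(5,6)])],[]),([(0,2,[(2,3)]),(0,2,[(2,3)]),(0,2,[(2,2)])],[2,1])],[],false,1,0,[2]),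
    (false,[([(0,0,[(6,8),(2,2)]),(0,1,[(5,6)])],[]),([(0,2,[(2,3)]),(0,2,[(2,3)]),(0,2,[(2,2)]),(0,2,[(2,2)])],[])],[],false,1,0,[]),
    (false,[([(0,11,[(6,8)]),(0,1,[(5,6)])],[3]),([(0,2,[(2,3)]),(0,2,[(2,3)]),(0,2,[(3,3)])],[2])],[],false,1,0,[2]),
    (false,[([(0,0,[(6,8),(2,2)]),(0,1,[(5,6)])],[]),([(0,2,[(2,3)]),(0,2,[(2,3)]),(0,2,[(3,3)])],[2,1])],[],false,1,0,[]),
    (true,[([(0,11,[(6,8)])],[3]),([(0,0,[(5,6),(4,4)])],[4,3])],[],false,1,0,[3]),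
    (false,[([(0,11,[(6,8)]),(0,1,[(5,6)])],[3]),([(0,8,[(4,4)]),(0,2,[(2,3)])],[2,1,1])],[],false,1,0,[2]),
    (false,[([(0,0,[(6,8),(2,2)]),(0,1,[(5,6)])],[]),([(0,8,[(4,4)]),(0,2,[(2,3)])],[2,1,1,1])],[],false,1,0,[]),
    (true,[([(0,11,[(6,8)])],[3]),([(0,1,[(5,6)]),(0,1,[(5,6)])],[])],[5],false,1,0,[2]),
    (true,[([(0,0,[(6,8),(2,2)])],[1]),([(0,1,[(5,6)]),(0,1,[(5,6)])],[])],[5],false,1,0,[]),
    (false,[([(0,11,[(6,8)]),(0,3,[(7,8)])],[])],[8,4],false,2,3,[3,4]),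
    (true,[([(0,11,[(6,8)])],[3]),([(0,13,[(7,8),(3,3)])],[4,2])],[],false,1,0,[2]),
    (true,[([(0,0,[(6,8),(2,2)])],[]),([(0,13,[(7,8),(3,3)])],[4,3])],[],false,1,0,[]),
    (true,[([(0,12,[(6,8),(4,4)])],[4]),([(0,3,[(7,8)])],[2,2])],[],false,1,0,[]),
    (true,[([(0,13,[(9,11)])],[2])],[6,5,2,2],false,3,4,[6,7]),
    (false,[([(0,13,[(9,11)]),(0,1,[(4,6)])],[])],[8,3],false,2,3,[3,4]),
    (true,[([(0,10,[(9,11),(3,3)])],[]),([(0,1,[(4,6)])],[3,3,2])],[],false,1,0,[2]),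
    (false,[([(0,13,[(9,11)]),(0,1,[(4,6)])],[]),([(0,2,[(3,3)]),(0,2,[(2,2)])],[2,1,1,1])],[],false,1,0,[]),
    (true,[([(0,7,[(9,11),(4,4)])],[]),([(0,1,[(4,6)])],[3,2,2])],[],false,1,0,[]),
    (false,[([(0,9,[(9,11),(7,7)])],[5,4])],[],false,1,0,[]),
    (true,[([(0,7,[(12,15)])],[])],[6,5,2],false,3,2,[4]),
    (false,[([(0,9,[(12,15),(4,4)])],[5,4])],[],false,1,0,[])]),
  ([8,7,5,4,3,2], [
    (false,[],[8,7,5,4,3,2],false,6,2,[10,15]),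
    (true,[([(0,0,[(7,10)])],[1,1])],[6,5,4,2],false,4,2,[6,8,9]),
    (true,[([(0,0,[(7,10)])],[]),([(0,1,[(5,6)])],[3,2,2])],[6],false,1,0,[3,5]),
    (true,[([(0,0,[(7,10)]),(0,2,[(2,3)])],[]),([(0,1,[(5,6)])],[3,1])],[6],false,1,0,[2,3]),
    (false,[([(0,0,[(7,10)]),(0,11,[(5,6),(2,2)])],[]),([(0,2,[(2,3)])],[2,2,2,1,1])],[],false,1,0,[2]),
    (true,[([(0,0,[(7,10)]),(0,2,[(2,3)])],[]),([(0,0,[(5,6),(2,2),(2,2)])],[4,2])],[],false,1,0,[2]),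
    (false,[([(0,0,[(7,10)]),(0,11,[(5,6),(2,2)])],[]),([(0,2,[(2,3)]),(0,2,[(2,2)]),(0,2,[(2,2)])],[2])],[],false,1,0,[]),
    (true,[([(0,0,[(7,10)]),(0,2,[(2,3)])],[]),([(0,0,[(5,6),(3,3)])],[4,2])],[],false,1,0,[2]),
    (false,[([(0,0,[(7,10)]),(0,11,[(5,6),(2,2)])],[]),([(0,2,[(2,3)]),(0,2,[(3,3)])],[2,2,1])],[],false,1,0,[]),
    (true,[([(0,0,[(7,10)])],[2]),([(0,1,[(5,6)]),(0,6,[(4,5)])],[])],[6],false,1,0,[2]),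
    (true,[([(0,0,[(7,10)]),(0,2,[(2,2)])],[]),([(0,1,[(5,6)]),(0,6,[(4,5)])],[])],[5],false,1,0,[]),
    (false,[([(0,0,[(7,10)]),(0,11,[(7,8)])],[])],[7,4],false,2,2,[3]),
    (true,[([(0,0,[(7,10)])],[1,1]),([(0,13,[(7,8),(3,3)])],[4,2])],[],false,1,0,[]),
    (false,[([(0,9,[(7,10),(9,9)])],[6,4])],[],false,1,0,[]),
    (true,[([(0,7,[(11,15)])],[1])],[6,5,2],false,3,2,[5]),
    (true,[([(0,7,[(11,15)])],[2]),([(0,6,[(4,5)])],[3,2,2])],[],false,1,0,[2]),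
    (true,[([(0,7,[(11,15)])],[3]),([(0,6,[(4,5)]),(0,2,[(2,2)])],[3])],[],false,1,0,[])]),
  ([8,7,6,4,2,1], [
    (false,[],[8,7,6,4,2,1],false,5,3,[8,11,15]),
    (false,[([(0,11,[(6,8)])],[3,2])],[8,7],false,1,0,[2,3,4,5,7,8]),
    (true,[([(0,0,[(6,8),(2,2)])],[])],[6,5,4,3],false,2,8,[]),
    (false,[([(0,11,[(6,8)]),(0,2,[(3,3)])],[3])],[8,6],false,1,0,[2,3]),
    (false,[([(0,0,[(6,8),(2,2)]),(0,2,[(3,3)])],[])],[8,7],false,2,6,[]),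
    (false,[([(0,11,[(6,8)]),(0,1,[(3,3),(3,3)])],[])],[8,6],false,2,5,[3]),
    (true,[([(0,11,[(6,8)])],[3,3]),([(1,1,[(3,3),(3,3),(3,3)])],[4])],[],false,1,0,[2,3]),
    (false,[([(0,0,[(6,8),(2,2)]),(1,1,[(3,3),(3,3),(3,3)])],[])],[7,1],true,2,2,[]),
    (false,[([(0,11,[(6,8)]),(0,1,[(3,3),(3,3)])],[]),([(0,2,[(3,3)]),(0,2,[(3,3)])],[2,2,2,2])],[],false,1,0,[2]),
    (false,[([(0,0,[(6,8),(2,2)]),(1,1,[(3,3),(3,3),(3,3)])],[]),([(0,2,[(3,3)])],[1,1,1,1,1])],[],false,1,0,[]),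
    (true,[([(0,12,[(6,8),(4,4)])],[4])],[5,4,3],false,3,3,[4]),
    (true,[([(0,11,[(6,8)])],[3]),([(0,8,[(4,4)]),(0,8,[(4,4)])],[])],[6,3],false,2,3,[3,4]),
    (false,[([(0,7,[(6,8),(4,4),(3,3)]),(0,8,[(4,4)])],[3])],[6],false,1,0,[2]),
    (false,[([(0,7,[(6,8),(4,4),(3,3)]),(0,1,[(4,4),(2,2)])],[])],[7],false,1,0,[]),
    (true,[([(0,12,[(6,8),(4,4)])],[4]),([(0,8,[(4,4)]),(0,8,[(4,4)])],[1])],[3],false,1,0,[]),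
    (false,[([(0,11,[(6,8)]),(0,6,[(5,5)])],[2])],[7,6],false,2,5,[3,4,5]),
    (true,[([(0,11,[(6,8)])],[3,3]),([(0,0,[(5,5),(3,3)])],[4])],[],false,1,0,[2,3]),
    (false,[([(0,0,[(6,8),(2,2)]),(0,0,[(5,5),(3,3)])],[])],[7,1],true,2,2,[]),
    (false,[([(0,11,[(6,8)]),(0,1,[(5,5)])],[]),([(0,2,[(3,3)]),(0,2,[(3,3)])],[2,2,2,2])],[],false,1,0,[2]),
    (false,[([(0,7,[(6,8),(5,5),(2,2)]),(0,1,[(3,3),(3,3)])],[])],[7],false,1,0,[]),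
    (true,[([(0,12,[(6,8),(4,4)])],[4]),([(0,1,[(5,5)])],[3,3])],[],false,1,0,[3]),
    (false,[([(0,11,[(6,8)]),(0,6,[(5,5)])],[2]),([(0,8,[(4,4)]),(0,2,[(2,3)])],[2,2,2])],[],false,1,0,[2]),
    (true,[([(0,7,[(6,8),(5,5),(2,2)])],[]),([(0,8,[(4,4)]),(0,2,[(2,3)])],[])],[6],false,1,0,[]),
    (true,[([(0,11,[(6,8)])],[3,3]),([(0,0,[(5,5),(5,5)])],[4])],[],false,1,0,[2]),
    (true,[([(0,7,[(6,8),(5,5),(2,2)])],[]),([(0,6,[(5,5)])],[3,3,2])],[],false,1,0,[]),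
    (true,[([(0,7,[(6,8),(6,7)])],[])],[6,4,3],false,3,3,[4,5]),
    (false,[([(0,7,[(6,8),(6,7)]),(0,8,[(4,4)])],[3])],[6],false,1,0,[2]),
    (false,[([(0,7,[(6,8),(6,7)]),(0,1,[(4,4),(2,2)])],[])],[7],false,1,0,[]),
    (true,[([(0,7,[(6,8),(6,7)])],[]),([(0,6,[(5,5)])],[3,3,2])],[],false,1,0,[]),
    (false,[([(0,11,[(6,8)]),(0,3,[(8,8)])],[3])],[7,2],false,2,2,[3]),
    (true,[([(0,11,[(6,8)])],[4,3]),([(0,13,[(8,8),(3,3)])],[2])],[],false,1,0,[]),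
    (true,[([(0,13,[(9,11)])],[])],[6,5,4,2],false,4,2,[6,7]),
    (false,[([(0,13,[(9,11)]),(0,1,[(5,6)])],[2])],[7,2],false,2,2,[3]),
    (false,[([(0,7,[(9,11),(3,3)]),(0,1,[(5,6)])],[])],[7],false,1,0,[]),
    (true,[([(0,13,[(9,11)])],[3]),([(0,14,[(7,7)])],[4,3])],[],false,1,0,[]),
    (true,[([(0,7,[(12,15)])],[])],[6,4,3],false,3,3,[4]),
    (false,[([(0,7,[(12,15)]),(0,8,[(4,4)])],[3])],[6],false,1,0,[])]),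
  ([8,7,6,4,3,1], [
    (false,[],[8,7,6,4,3,1],false,5,4,[7,10,15]),
    (true,[([(0,11,[(6,7)])],[3])],[6,5,4,3],false,4,3,[5,7]),
    (false,[([(0,14,[(6,7)]),(0,1,[(5,5)])],[3])],[7,6],false,2,5,[4,5]),
    (true,[([(0,11,[(6,7)])],[3]),([(0,0,[(5,5),(3,4)])],[4,4])],[],false,1,0,[2,3,4]),
    (true,[([(0,0,[(6,7),(2,2)])],[1]),([(0,0,[(5,5),(3,4)])],[4,4])],[],false,1,0,[2]),
    (true,[([(0,10,[(6,7),(5,5),(2,2)])],[3]),([(0,1,[(3,4),(2,2)])],[3,3])],[],false,1,0,[2]),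
    (true,[([(0,7,[(6,7),(5,5),(2,2)])],[5]),([(0,1,[(3,4),(2,2)]),(0,2,[(2,2)])],[])],[],false,1,0,[]),
    (true,[([(0,0,[(6,7),(3,3)])],[1]),([(0,0,[(5,5),(3,4)])],[4,4])],[],false,1,0,[2]),
    (true,[([(0,7,[(6,7),(5,5),(3,3)])],[]),([(0,1,[(3,4),(2,2)])],[3,3,2])],[],false,1,0,[]),
    (true,[([(0,7,[(6,7),(3,4),(4,4)])],[3]),([(0,6,[(5,5)])],[3,3])],[],false,1,0,[]),
    (true,[([(0,11,[(6,7)])],[3]),([(0,0,[(5,5),(5,5)])],[4,4])],[],false,1,0,[2]),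
    (true,[([(0,10,[(6,7),(5,5),(2,2)])],[3]),([(0,1,[(5,5)])],[3,3])],[],false,1,0,[]),
    (true,[([(0,10,[(6,7),(6,7)])],[3])],[5,4,3],false,3,3,[5]),
    (true,[([(0,10,[(6,7),(6,7)])],[3]),([(0,1,[(4,5)])],[3,3])],[],false,1,0,[2]),
    (true,[([(0,7,[(6,7),(6,7)])],[5]),([(0,1,[(4,5)]),(0,2,[(2,2)])],[])],[],false,1,0,[]),
    (true,[([(0,0,[(8,10)])],[1])],[6,5,4,3],false,4,3,[6,8]),
    (false,[([(0,0,[(8,10)]),(0,1,[(5,6)])],[2])],[7,4],false,2,3,[3,4]),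
    (true,[([(0,0,[(8,10)])],[1]),([(0,0,[(5,6),(3,3)])],[4,4])],[],false,1,0,[2]),
    (true,[([(0,7,[(8,10),(3,3),(2,2)])],[]),([(0,1,[(5,6)])],[3,3,2])],[],false,1,0,[]),
    (true,[([(0,10,[(8,10),(4,4)])],[3]),([(0,1,[(5,6)])],[3,3])],[],false,1,0,[]),
    (false,[([(0,0,[(8,10)]),(0,3,[(7,8)])],[])],[8,3],false,2,1,[]),
    (true,[([(0,7,[(11,15)])],[])],[6,5,3],false,3,3,[5]),
    (true,[([(0,7,[(11,15)])],[3]),([(0,6,[(4,5)])],[3,3])],[],false,1,0,[2]),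
    (true,[([(0,7,[(11,15)])],[5]),([(0,1,[(4,5)]),(0,2,[(2,2)])],[])],[],false,1,0,[])]),
  ([8,7,6,4,3,2], [
    (false,[],[8,7,6,4,3,2],false,6,2,[10,15]),
    (true,[([(0,0,[(7,10)])],[1,1])],[6,5,4,3],false,4,3,[6,9]),
    (false,[([(0,0,[(7,10)]),(0,1,[(5,6)])],[4])],[7,3],true,2,4,[4,5]),
    (false,[([(0,0,[(7,10)]),(0,0,[(5,6),(3,4)])],[])],[7,3],false,2,2,[3]),
    (false,[([(0,0,[(7,10)]),(0,0,[(5,6),(3,4)])],[]),([(0,2,[(3,3)])],[2,2,1,1,1])],[],false,1,0,[]),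
    (true,[([(0,7,[(7,10),(5,5)])],[1]),([(0,1,[(5,6)])],[3,3,2])],[],false,1,0,[]),
    (false,[([(0,0,[(7,10)]),(0,0,[(7,9)])],[])],[7,3],false,2,2,[3]),
    (false,[([(0,0,[(7,10)]),(0,0,[(7,9)])],[]),([(0,2,[(3,3)])],[2,2,1,1,1])],[],false,1,0,[]),
    (true,[([(0,7,[(11,15)])],[1])],[6,5,3],false,3,3,[5]),
    (true,[([(0,7,[(11,15)])],[2]),([(0,6,[(4,5)])],[3,3,2])],[],false,1,0,[2]),
    (true,[([(0,7,[(11,15)])],[4]),([(0,6,[(4,5)]),(0,2,[(2,2)])],[3])],[],false,1,0,[])]),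
  ([8,7,6,5,2,1], [
    (false,[],[8,7,6,5,2,1],false,5,3,[6,8,11,15]),
    (true,[([(0,1,[(6,6)])],[1])],[6,5,4,4,3],false,4,3,[6]),
    (true,[([(0,1,[(6,6)]),(0,1,[(5,6)])],[])],[5,4,4,3,1],false,4,1,[6]),
    (true,[([(0,1,[(6,6)]),(0,1,[(5,6)])],[]),([(0,1,[(5,6)])],[2])],[5,4],false,2,1,[]),
    (true,[([(0,3,[(7,8)])],[2])],[6,5,4,3,1],false,4,4,[7,8]),
    (true,[([(0,7,[(7,8),(5,7)])],[])],[6,4,4],false,2,4,[3,4,5]),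
    (false,[([(0,3,[(7,8)]),(0,0,[(5,7),(3,3)])],[3])],[6,2],false,2,2,[3]),
    (true,[([(0,7,[(7,8),(5,7)])],[]),([(0,2,[(3,3)]),(0,2,[(3,3)])],[2,2])],[4],false,1,0,[]),
    (true,[([(0,7,[(7,8),(5,7)])],[]),([(0,8,[(4,4)])],[2,2])],[6],false,1,0,[2]),
    (true,[([(0,7,[(7,8),(5,7)])],[]),([(0,8,[(4,4)]),(0,2,[(2,2)])],[2,1])],[4],false,1,0,[]),
    (true,[([(0,7,[(7,8),(5,7)])],[]),([(0,6,[(5,5)])],[3,3,3])],[],false,1,0,[]),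
    (true,[([(0,15,[(7,8),(8,8)])],[])],[6,4,2],false,2,1,[]),
    (true,[([(0,13,[(9,11)])],[3])],[6,4,3,2],false,4,2,[6,7]),
    (false,[([(0,13,[(9,11)]),(0,1,[(5,6)])],[3])],[7,2],false,2,2,[3]),
    (false,[([(0,13,[(9,11)]),(0,0,[(5,6),(3,3)])],[])],[7,1],false,1,0,[]),
    (true,[([(0,13,[(9,11)])],[3]),([(0,11,[(7,7)])],[4,3])],[],false,1,0,[]),
    (true,[([(0,7,[(12,15)])],[])],[6,4,4],false,2,3,[3,4]),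
    (true,[([(0,7,[(12,15)])],[]),([(0,2,[(3,3)])],[2,2,2,1])],[4],false,1,0,[2]),
    (true,[([(0,7,[(12,15)])],[]),([(0,6,[(3,3),(2,2)])],[3,3,3])],[],false,1,0,[]),
    (true,[([(0,7,[(12,15)])],[]),([(0,8,[(4,4)])],[2,2])],[6],false,1,0,[])]),
  ([8,7,6,5,3,1], [
    (false,[],[8,7,6,5,3,1],false,5,4,[6,10,15]),
    (true,[([(0,1,[(6,6)])],[2,2])],[6,5,4,3,2],false,5,2,[6]),
    (true,[([(0,1,[(6,6)]),(0,1,[(6,6)])],[])],[5,5,4,3,1],false,4,1,[5]),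
    (true,[([(0,7,[(6,6),(6,6)])],[]),([(0,1,[(5,5)])],[3,3,3])],[],false,1,0,[]),
    (true,[([(0,0,[(7,10)])],[2])],[6,5,4,3],false,4,3,[5,6,8,9]),
    (true,[([(0,7,[(7,10),(5,5)])],[])],[6,5,4],false,3,4,[4,5]),
    (true,[([(0,7,[(7,10),(5,5)])],[]),([(0,8,[(4,4)])],[2,2,1])],[6],false,1,0,[2]),
    (true,[([(0,7,[(7,10),(5,5)])],[]),([(0,1,[(4,4),(2,2)])],[3,3,3])],[],false,1,0,[]),
    (true,[([(0,7,[(7,10),(5,5)])],[]),([(0,1,[(5,5)])],[3,3,3])],[],false,1,0,[]),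
    (false,[([(0,0,[(7,10)]),(0,1,[(6,6)])],[])],[8,6],false,2,3,[4]),
    (true,[([(0,0,[(7,10)])],[2]),([(0,0,[(6,6),(3,4)])],[4,4])],[],false,1,0,[2]),
    (true,[([(0,0,[(7,10)])],[3]),([(0,1,[(6,6)]),(0,1,[(3,4),(2,2)])],[])],[5],false,1,0,[]),
    (false,[([(0,0,[(7,10)]),(0,3,[(7,8)])],[3])],[6,3],false,2,2,[3]),
    (true,[([(0,0,[(7,10)])],[3]),([(0,13,[(7,8),(3,3)])],[4,2])],[],false,1,0,[]),
    (false,[([(0,0,[(7,10)]),(0,4,[(9,9)])],[])],[8,3],false,1,0,[]),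
    (true,[([(0,7,[(11,15)])],[])],[6,5,4],false,3,4,[4,5]),
    (true,[([(0,7,[(11,15)])],[]),([(0,8,[(4,4)])],[2,2,1])],[6],false,1,0,[2]),
    (true,[([(0,7,[(11,15)])],[]),([(0,1,[(4,4),(2,2)])],[3,3,3])],[],false,1,0,[]),
    (true,[([(0,7,[(11,15)])],[]),([(0,1,[(5,5)])],[3,3,3])],[],false,1,0,[])]),
  ([8,7,6,5,3,2], [
    (false,[],[8,7,6,5,3,2],false,6,2,[10,15]),
    (true,[([(0,0,[(7,10)])],[2,1])],[6,5,4,3],false,4,3,[6,8,9]),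
    (true,[([(0,0,[(7,10)])],[]),([(0,1,[(5,6)])],[3,3,3])],[6],false,1,0,[2,3,4,5]),
    (false,[([(0,0,[(7,10)]),(0,11,[(5,6),(2,2)])],[])],[7,6],false,2,3,[]),
    (true,[([(0,0,[(7,10)])],[2,1]),([(0,0,[(5,6),(3,3)])],[4,4])],[],false,1,0,[2,3]),
    (true,[([(0,0,[(7,10)]),(0,2,[(2,2)])],[]),([(0,0,[(5,6),(3,3)])],[4,4])],[],false,1,0,[2]),
    (true,[([(0,0,[(7,10)]),(0,2,[(3,3)])],[]),([(0,0,[(5,6),(2,2),(2,2)])],[4,4])],[],false,1,0,[]),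
    (true,[([(0,0,[(7,10)]),(0,2,[(3,3)])],[]),([(0,0,[(5,6),(3,3)])],[4,4])],[],false,1,0,[]),
    (true,[([(0,0,[(7,10)])],[2,1]),([(0,0,[(5,6),(4,4)])],[4,4])],[],false,1,0,[2]),
    (true,[([(0,0,[(7,10)]),(0,2,[(2,2)])],[]),([(0,0,[(5,6),(4,4)])],[4,4])],[],false,1,0,[]),
    (true,[([(0,7,[(7,10),(5,5)])],[1]),([(0,1,[(5,6)])],[3,3,3])],[],false,1,0,[]),
    (false,[([(0,0,[(7,10)]),(0,11,[(7,8)])],[])],[7,6],false,2,2,[3]),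
    (false,[([(0,0,[(7,10)]),(0,13,[(7,8),(3,3)])],[])],[7,3],false,1,0,[]),
    (false,[([(0,0,[(7,10)]),(0,4,[(9,9)])],[4])],[5,3],false,1,0,[]),
    (true,[([(0,7,[(11,15)])],[1])],[6,5,4],false,3,4,[5]),
    (true,[([(0,7,[(11,15)])],[2]),([(0,6,[(4,5)])],[3,3,3])],[],false,1,0,[2]),
    (true,[([(0,7,[(11,15)])],[4]),([(0,1,[(4,5)]),(0,2,[(2,2)])],[3])],[],false,1,0,[])]),
  ([8,7,6,5,4,1], [
    (false,[],[8,7,6,5,4,1],false,5,5,[6,8,11,15]),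
    (true,[([(0,1,[(6,6)])],[1,1])],[6,5,5,4,3],false,4,3,[6]),
    (false,[([(0,1,[(6,6)]),(0,1,[(5,6)])],[3,3])],[7,5,1],true,3,2,[6]),
    (false,[([(0,1,[(6,6)]),(0,1,[(5,6)])],[3,3]),([(0,1,[(4,6)])],[2,2,2,1])],[],false,1,0,[3]),
    (false,[([(0,1,[(6,6)]),(0,1,[(5,6)])],[3,3]),([(0,1,[(4,6)]),(0,2,[(2,3)])],[2,2])],[],false,1,0,[2]),
    (false,[([(0,3,[(6,6),(2,2)]),(0,1,[(5,6)])],[3]),([(0,1,[(4,6)]),(0,2,[(2,3)])],[2,2,1])],[],false,1,0,[]),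
    (true,[([(0,3,[(7,8)])],[2,2])],[6,5,4,3,1],false,4,4,[6,8]),
    (true,[([(0,3,[(7,8)]),(0,1,[(5,6)])],[])],[5,5,4,2,1],false,4,1,[5]),
    (false,[([(0,3,[(7,8)]),(0,1,[(5,6)])],[3]),([(0,6,[(5,5)])],[2,2,2,2,1])],[],false,1,0,[]),
    (false,[([(0,3,[(7,8)]),(0,3,[(7,8)])],[1])],[8,5,1],false,3,1,[]),
    (true,[([(0,13,[(9,11)])],[3,3])],[5,4,3,2],false,4,2,[6,7]),
    (false,[([(0,13,[(9,11)]),(0,1,[(5,6)])],[])],[8,6],false,2,2,[3]),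
    (true,[([(0,13,[(9,11)])],[3,3]),([(0,0,[(5,6),(3,3)])],[4])],[],false,1,0,[]),
    (false,[([(0,13,[(9,11)]),(0,3,[(7,7)])],[])],[8,4],false,1,0,[]),
    (true,[([(0,7,[(12,15)])],[])],[6,5,5],false,2,3,[3,4]),
    (true,[([(0,7,[(12,15)])],[]),([(0,2,[(3,3)])],[2,2,2,2])],[5],false,1,0,[2]),
    (true,[([(0,7,[(12,15)])],[3]),([(0,2,[(3,3)]),(0,2,[(2,2)])],[2])],[5],false,1,0,[]),
    (true,[([(0,7,[(12,15)])],[]),([(0,8,[(4,4)])],[2,2,2])],[6],false,1,0,[])]),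
  ([8,7,6,5,4,2], [
    (false,[],[8,7,6,5,4,2],false,6,2,[10,15]),
    (true,[([(0,0,[(7,10)])],[2,2])],[6,5,4,3],false,4,3,[6,9]),
    (false,[([(0,0,[(7,10)]),(0,1,[(5,6)])],[4])],[7,5],false,2,4,[4,5]),
    (false,[([(0,0,[(7,10)]),(0,0,[(5,6),(3,4)])],[])],[7,5],false,2,2,[3]),
    (false,[([(0,0,[(7,10)]),(0,0,[(5,6),(3,4)])],[]),([(0,2,[(3,3)])],[2,2,2,2,1])],[],false,1,0,[]),
    (true,[([(0,7,[(7,10),(5,5)])],[2]),([(0,1,[(5,6)])],[3,3,3])],[],false,1,0,[]),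
    (false,[([(0,0,[(7,10)]),(0,0,[(7,9)])],[])],[7,5],false,2,2,[3]),
    (false,[([(0,0,[(7,10)]),(0,0,[(7,9)])],[]),([(0,2,[(3,3)])],[2,2,2,2,1])],[],false,1,0,[]),
    (true,[([(0,7,[(11,15)])],[2])],[6,5,4],false,3,4,[4,5]),
    (true,[([(0,7,[(11,15)])],[]),([(0,8,[(4,4)])],[2,2,2,1])],[6],false,1,0,[2]),
    (true,[([(0,7,[(11,15)])],[2]),([(0,1,[(4,4),(2,2)])],[3,3,3])],[],false,1,0,[]),
    (true,[([(0,7,[(11,15)])],[2]),([(0,1,[(5,5)])],[3,3,3])],[],false,1,0,[])]),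
  ([8,7,6,5,4,3], [
    (false,[],[8,7,6,5,4,3],false,6,3,[10,13,15]),
    (true,[([(0,0,[(7,10)])],[1,1])],[6,6,5,4],false,3,4,[4,5,6,8,9]),
    (true,[([(0,0,[(7,10)]),(0,8,[(4,4)])],[])],[6,6,4,3],false,3,3,[4]),
    (true,[([(0,0,[(7,10)]),(0,8,[(4,4)])],[]),([(0,8,[(4,4)])],[2,1,1,1])],[6,4],false,2,2,[3]),
    (false,[([(0,0,[(7,10)]),(0,8,[(4,4)])],[4,4]),([(0,8,[(4,4)]),(0,2,[(3,3)])],[2,2])],[],false,1,0,[]),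
    (true,[([(0,7,[(7,10),(5,5)])],[1])],[6,6,5],false,2,4,[3,4,5]),
    (true,[([(0,7,[(7,10),(5,5)])],[1]),([(0,2,[(3,3)])],[2,2,2,2])],[6],false,1,0,[3]),
    (true,[([(0,7,[(7,10),(5,5)])],[2]),([(0,2,[(3,3)]),(0,2,[(2,3)])],[2,2])],[6],false,1,0,[2]),
    (true,[([(0,7,[(7,10),(5,5)])],[3]),([(0,2,[(3,3)]),(0,2,[(2,3)]),(0,2,[(2,2)])],[])],[6],false,1,0,[]),
    (true,[([(0,7,[(7,10),(5,5)])],[]),([(0,8,[(4,4)])],[2,2,2,2])],[6],false,1,0,[2]),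
    (true,[([(0,7,[(7,10),(5,5)])],[1]),([(0,8,[(4,4)]),(0,2,[(2,2)])],[2,2])],[6],false,1,0,[]),
    (true,[([(0,0,[(7,10)])],[3,3]),([(0,6,[(5,5)]),(0,1,[(5,5)])],[])],[6],false,1,0,[]),
    (true,[([(0,0,[(7,10)])],[1,1]),([(0,1,[(6,6)])],[3,3,3])],[6],false,1,0,[3,4]),
    (true,[([(0,0,[(7,10)]),(0,2,[(2,3)])],[]),([(0,1,[(6,6)])],[3,3,2])],[6],false,1,0,[2,3]),
    (true,[([(0,0,[(7,10)]),(0,2,[(2,3)])],[]),([(0,3,[(6,6),(2,2)])],[3,2,1])],[6],false,1,0,[2]),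
    (true,[([(0,0,[(7,10)])],[2,1]),([(0,3,[(6,6),(2,2)]),(1,0,[(2,3),(2,2)])],[])],[6],false,1,0,[]),
    (true,[([(0,0,[(7,10)])],[3,2]),([(0,1,[(6,6)]),(0,1,[(2,3),(3,3)])],[])],[6],false,1,0,[]),
    (true,[([(0,0,[(7,10)]),(0,8,[(4,4)])],[]),([(0,1,[(6,6)])],[3,3,1])],[6],false,1,0,[]),
    (true,[([(0,0,[(7,10)])],[]),([(0,3,[(7,8)])],[3,3,3])],[6],false,1,0,[3]),
    (true,[([(0,0,[(7,10)]),(0,2,[(2,3)])],[]),([(0,3,[(7,8)])],[3,2,1])],[6],false,1,0,[2]),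
    (true,[([(0,0,[(7,10)])],[2,1]),([(0,3,[(7,8)]),(1,0,[(2,3),(2,2)])],[])],[6],false,1,0,[]),
    (true,[([(0,0,[(7,10)])],[]),([(0,4,[(9,9)])],[3,3,2])],[6],false,1,0,[]),
    (true,[([(0,5,[(11,13)])],[2,2])],[6,5,4,1],false,4,1,[5]),
    (false,[([(0,5,[(11,13)]),(0,6,[(5,5)])],[4])],[7,4],false,1,0,[]),
    (true,[([(0,7,[(14,15)])],[1])],[6,6,5],false,2,1,[])]),
  ([9,6,5,4,3,1], [
    (false,[],[9,6,5,4,3,1],true,6,2,[10,15]),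
    (true,[([(0,0,[(7,10)])],[1])],[6,5,4,1,1],false,4,2,[6,8,9]),
    (false,[([(0,0,[(7,10)]),(0,1,[(5,6)])],[1,1])],[6,4],false,2,4,[3,4,5]),
    (false,[([(0,0,[(7,10)]),(0,1,[(5,6)]),(0,2,[(3,3)])],[])],[5,4],false,2,2,[3]),
    (true,[([(0,0,[(7,10)])],[3,3]),([(0,12,[(5,6),(3,3),(3,3)])],[])],[],false,1,0,[]),
    (true,[([(0,0,[(7,10)]),(0,8,[(4,4)])],[]),([(0,1,[(5,6)])],[2])],[5,1],false,2,1,[]),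
    (true,[([(0,7,[(7,10),(5,5)])],[]),([(0,1,[(5,6)])],[2,2,2])],[1],false,1,0,[]),
    (false,[([(0,0,[(7,10)]),(0,11,[(7,8)])],[4])],[5,1],true,2,2,[3]),
    (true,[([(0,0,[(7,10)])],[]),([(0,13,[(7,8),(3,3)])],[3,3])],[1],false,1,0,[]),
    (false,[([(0,0,[(7,10)]),(0,4,[(9,9)])],[1,1])],[4,3],false,1,0,[]),
    (true,[([(0,7,[(11,15)])],[])],[6,5,1,1],false,3,2,[5]),
    (false,[([(0,7,[(11,15)]),(0,6,[(4,5)])],[4])],[4],false,1,0,[2]),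
    (true,[([(0,7,[(11,15)])],[4]),([(0,6,[(4,5)]),(0,2,[(2,2)])],[])],[1],false,1,0,[])]),
  ([9,7,5,4,2,1], [
    (false,[],[9,7,5,4,2,1],true,6,2,[10,15]),
    (true,[([(0,0,[(7,10)])],[2])],[6,4,3,2,1],true,5,2,[8,9]),
    (true,[([(0,0,[(7,10)])],[]),([(0,11,[(6,8)])],[3,2])],[5],false,1,0,[2,3,4]),
    (false,[([(0,0,[(7,10)]),(0,0,[(6,8),(2,2)])],[2])],[5,1],true,2,2,[]),
    (true,[([(0,0,[(7,10)]),(0,2,[(3,3)])],[]),([(0,11,[(6,8)])],[3])],[4],false,1,0,[2]),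
    (false,[([(0,0,[(7,10)]),(0,0,[(6,8),(2,2)])],[2]),([(0,2,[(3,3)])],[1,1,1])],[],false,1,0,[]),
    (true,[([(0,0,[(7,10)])],[2]),([(0,12,[(6,8),(4,4)])],[4])],[],false,1,0,[]),
    (false,[([(0,9,[(7,10),(9,9)])],[4,4,1])],[],false,1,0,[]),
    (true,[([(0,7,[(11,15)])],[])],[6,4,2,1],false,4,1,[5]),
    (false,[([(0,7,[(11,15)]),(0,6,[(5,5)])],[1])],[7],false,1,0,[])])]

theorem cj6c_0_ok : runAllJ S39 R39 F39 14 cj6c_0 = true := by decide +kernel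

noncomputable def cj6c_1 : List (List ℕ × List NdJ) := [
  ([9,7,6,3,2,1], [
    (false,[],[9,7,6,3,2,1],false,5,3,[8,12,15]),
    (true,[([(0,11,[(6,8)])],[])],[6,5,3,3,3],false,3,5,[6,8]),
    (false,[([(0,11,[(6,8)]),(0,1,[(4,6)])],[2,2])],[7,3],false,1,0,[3,5,6]),
    (false,[([(0,11,[(6,8)]),(0,1,[(4,6)])],[2,2]),([(0,2,[(2,3)])],[2,2,1,1,1])],[],false,1,0,[2,3]),
    (false,[([(0,0,[(6,8),(2,2)]),(0,1,[(4,6)]),(0,2,[(2,3)])],[])],[7,2],true,2,4,[]),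
    (true,[([(0,11,[(6,8)])],[2]),([(0,1,[(4,6)]),(0,1,[(2,3),(3,3)])],[])],[3,3],false,1,0,[2,3]),
    (false,[([(0,0,[(6,8),(2,2)]),(0,1,[(4,6)]),(0,2,[(2,3)])],[]),([(0,2,[(3,3)])],[2,1,1,1,1])],[],false,1,0,[2]),
    (true,[([(0,0,[(6,8),(2,2)])],[3]),([(0,1,[(4,6)]),(0,6,[(3,3),(2,2)])],[]),([(0,2,[(2,3)])],[1])],[],false,1,0,[2]),
    (true,[([(0,0,[(6,8),(2,2)])],[]),([(0,1,[(4,6)]),(0,2,[(2,3)])],[]),([(0,2,[(3,3)]),(0,2,[(2,2)]),(0,2,[(2,2)])],[])],[],false,1,0,[]),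
    (false,[([(0,11,[(6,8)]),(0,1,[(4,6)])],[2,2]),([(0,2,[(2,3)]),(0,2,[(3,3)]),(0,2,[(3,3)])],[1])],[],false,1,0,[2]),
    (false,[([(0,0,[(6,8),(2,2)]),(0,1,[(4,6)]),(0,2,[(2,3)])],[]),([(0,2,[(3,3)]),(0,2,[(3,3)])],[1,1,1])],[],false,1,0,[]),
    (true,[([(0,11,[(6,8)])],[2]),([(0,1,[(4,6)]),(0,6,[(4,5)])],[])],[4,3],false,2,3,[3,4]),
    (true,[([(0,11,[(6,8)])],[2]),([(0,1,[(4,6)]),(0,6,[(4,5)])],[]),([(0,2,[(3,3)])],[2,2])],[],false,1,0,[2]),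
    (true,[([(0,0,[(6,8),(2,2)])],[3]),([(0,1,[(4,6)]),(0,6,[(4,5)])],[]),([(0,2,[(3,3)])],[1])],[],false,1,0,[]),
    (true,[([(0,11,[(6,8)])],[2]),([(0,1,[(4,6)]),(0,6,[(4,5)])],[]),([(0,8,[(4,4)])],[2,1])],[],false,1,0,[]),
    (false,[([(0,10,[(6,8),(6,6)]),(0,1,[(4,6)])],[1])],[7],false,1,0,[2]),
    (true,[([(0,7,[(6,8),(6,6)])],[]),([(0,1,[(4,6)]),(0,2,[(2,2)])],[1])],[3],false,1,0,[]),
    (false,[([(0,11,[(6,8)]),(0,3,[(7,8)])],[2,1])],[7,2],true,2,3,[4]),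
    (true,[([(0,11,[(6,8)])],[4,4]),([(0,12,[(7,8),(3,4)])],[])],[],false,1,0,[2]),
    (true,[([(0,11,[(6,8)])],[]),([(0,3,[(7,8)]),(0,1,[(3,4),(2,2)])],[])],[3,3],false,1,0,[]),
    (true,[([(0,12,[(9,12)])],[])],[6,4,3,3],false,3,4,[4,5,6,7]),
    (true,[([(0,12,[(9,12)])],[]),([(0,8,[(4,4)])],[2])],[6,4],false,2,3,[3,4]),
    (true,[([(0,7,[(9,12),(3,3)])],[]),([(0,8,[(4,4)])],[2])],[6,1],false,2,1,[]),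
    (true,[([(0,12,[(9,12)])],[]),([(0,11,[(4,4),(4,4)])],[4,4])],[],false,1,0,[]),
    (true,[([(0,16,[(9,12),(5,5)])],[])],[5,3,3],false,2,2,[3]),
    (true,[([(0,16,[(9,12),(5,5)])],[]),([(0,2,[(3,3)])],[2,2,1])],[3],false,1,0,[]),
    (true,[([(0,12,[(9,12)])],[]),([(0,1,[(6,6)])],[3,3,1])],[3],false,1,0,[2]),
    (true,[([(0,12,[(9,12)])],[]),([(0,11,[(6,6),(2,2)])],[4,4])],[],false,1,0,[]),
    (true,[([(0,12,[(9,12)])],[]),([(0,11,[(7,7)])],[4,4])],[],false,1,0,[]),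
    (true,[([(0,7,[(13,15)])],[])],[6,3,3,1],false,3,1,[])]),
  ([9,8,4,3,2,1,1], [
    (false,[],[9,8,4,3,2,1,1],false,5,3,[8,12,15]),
    (false,[([(0,11,[(6,8)])],[])],[9,8,3],false,2,9,[3,6,8]),
    (false,[([(0,11,[(6,8)]),(0,2,[(3,3)])],[1,1])],[9,4,2],true,3,4,[]),
    (false,[([(0,11,[(6,8)]),(0,1,[(4,6)])],[1])],[9,3,1],true,3,3,[4,5,6]),
    (true,[([(0,11,[(6,8)]),(0,1,[(4,6)])],[]),([(0,8,[(4,4)])],[])],[5,3,2],false,3,2,[4]),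
    (true,[([(0,11,[(6,8)]),(0,8,[(4,4)])],[4]),([(0,0,[(4,6),(4,4)])],[])],[2],false,1,0,[]),
    (true,[([(0,11,[(6,8)]),(0,1,[(4,6)])],[]),([(0,6,[(5,5)])],[3,1])],[3,2],false,2,2,[3]),
    (true,[([(0,11,[(6,8)]),(0,1,[(4,6)])],[]),([(0,11,[(5,5),(3,3)])],[4])],[2],false,1,0,[]),
    (true,[([(0,11,[(6,8)])],[4]),([(0,1,[(4,6)]),(0,1,[(6,6)])],[1])],[2,1],false,2,1,[]),
    (true,[([(0,11,[(6,8)]),(0,3,[(7,8)])],[])],[4,2,2,2,2],false,2,3,[3,4]),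
    (true,[([(0,11,[(6,8)]),(0,2,[(3,3)])],[4]),([(0,3,[(7,8)])],[1,1])],[2,1],false,2,1,[]),
    (true,[([(0,11,[(6,8)]),(0,1,[(4,4)])],[]),([(0,11,[(7,8)])],[4])],[2],false,1,0,[]),
    (false,[([(0,12,[(9,12)])],[2,1,1])],[9,3],true,2,6,[3,5,7]),
    (true,[([(0,7,[(9,12),(3,3)])],[])],[7,2,2,2],false,2,4,[3]),
    (true,[([(0,7,[(9,12),(3,3)]),(0,2,[(3,3)])],[])],[4,2,2,2],false,2,2,[3]),
    (true,[([(0,7,[(9,12),(3,3)]),(0,2,[(3,3)])],[]),([(0,2,[(3,3)])],[2,1])],[2,2],false,1,0,[]),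
    (false,[([(0,12,[(9,12)]),(0,6,[(4,5)])],[])],[9,2],true,2,3,[3,4]),
    (true,[([(0,7,[(9,12),(3,3)])],[]),([(0,6,[(4,5)])],[3,1,1,1])],[2],false,1,0,[2]),
    (true,[([(0,7,[(9,12),(3,3)]),(0,2,[(2,2)])],[]),([(0,6,[(4,5)])],[3])],[2],false,1,0,[]),
    (false,[([(0,12,[(9,12)]),(0,6,[(4,5)])],[]),([(0,8,[(4,4)])],[1,1,1,1,1,1,1])],[],false,1,0,[]),
    (false,[([(0,12,[(9,12)]),(0,14,[(6,7)])],[])],[8,1],false,2,1,[]),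
    (false,[([(0,7,[(13,15)])],[1,1,1])],[9,1],true,2,2,[3]),
    (false,[([(0,17,[(13,15),(3,3)])],[4,3,2])],[1],false,1,0,[])]),
  ([9,8,5,3,2,1], [
    (false,[],[9,8,5,3,2,1],false,5,3,[8,12,15]),
    (false,[([(0,11,[(6,8)])],[3])],[9,8],false,1,0,[3,6,8]),
    (false,[([(0,11,[(6,8)]),(0,2,[(2,3)])],[3,2])],[9,3],false,1,0,[3]),
    (false,[([(0,11,[(6,8)]),(1,1,[(2,3),(2,3)])],[])],[9,1],false,1,0,[2,3]),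
    (false,[([(0,0,[(6,8),(2,2)]),(0,2,[(2,3)]),(0,2,[(2,3)])],[])],[9,3],true,2,6,[]),
    (false,[([(0,11,[(6,8)]),(0,1,[(2,3),(3,3)]),(0,2,[(2,3)])],[])],[8,3],true,2,5,[3]),
    (true,[([(0,11,[(6,8)])],[4]),([(1,2,[(2,3),(2,3),(3,3),(3,3)])],[1])],[],false,1,0,[3]),
    (true,[([(0,11,[(6,8)])],[4]),([(1,2,[(2,3),(2,3),(3,3),(3,3),(2,3)])],[1])],[],false,1,0,[2,3]),
    (true,[([(0,0,[(6,8),(2,2)])],[1]),([(0,1,[(2,3),(3,3)]),(0,1,[(2,3),(3,3)])],[]),([(0,2,[(2,3)])],[2])],[],false,1,0,[2]),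
    (true,[([(0,0,[(6,8),(2,2)])],[]),([(0,1,[(2,3),(3,3)]),(0,6,[(3,3),(2,2)])],[]),([(0,2,[(2,3)]),(0,2,[(2,3)])],[1])],[],false,1,0,[]),
    (false,[([(0,11,[(6,8)]),(0,1,[(2,3),(3,3)]),(0,2,[(2,3)])],[]),([(0,2,[(3,3)]),(0,2,[(2,3)]),(0,2,[(3,3)])],[1,1])],[],false,1,0,[]),
    (false,[([(0,11,[(6,8)]),(0,1,[(4,6)])],[2])],[9,3],true,2,6,[3,6]),
    (false,[([(0,11,[(6,8)]),(0,1,[(4,6)]),(0,2,[(3,3)])],[])],[8,3],true,2,4,[3]),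
    (true,[([(0,11,[(6,8)])],[3]),([(0,1,[(4,6)]),(0,1,[(3,3),(3,3)])],[])],[3,2],false,2,2,[3]),
    (true,[([(0,11,[(6,8)])],[3]),([(0,1,[(4,6)]),(0,1,[(3,3),(3,3)])],[]),([(0,2,[(3,3)])],[2])],[],false,1,0,[]),
    (true,[([(0,11,[(6,8)])],[3]),([(0,1,[(4,6)]),(0,1,[(4,6)])],[])],[3,2],false,1,0,[2,3,4]),
    (true,[([(0,0,[(6,8),(2,2)])],[1]),([(0,1,[(4,6)]),(0,1,[(4,6)])],[])],[3,2],false,2,2,[]),
    (true,[([(0,11,[(6,8)])],[3]),([(0,1,[(4,6)]),(0,1,[(4,6)])],[]),([(0,2,[(3,3)])],[2])],[],false,1,0,[2]),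
    (true,[([(0,0,[(6,8),(2,2)])],[1]),([(0,1,[(4,6)]),(0,1,[(4,6)])],[]),([(0,2,[(3,3)])],[2])],[],false,1,0,[]),
    (true,[([(0,11,[(6,8)])],[3]),([(0,1,[(4,6)]),(0,1,[(4,6)])],[]),([(0,8,[(4,4)])],[1])],[],false,1,0,[]),
    (false,[([(0,11,[(6,8)]),(0,3,[(7,8)])],[1])],[9,2],true,2,3,[4]),
    (false,[([(0,11,[(6,8)]),(0,12,[(7,8),(3,4)])],[])],[8],false,1,0,[2]),
    (true,[([(0,0,[(6,8),(2,2)])],[1]),([(0,12,[(7,8),(3,4)])],[5])],[],false,1,0,[]),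
    (true,[([(0,12,[(9,12)])],[4])],[5,3,2,2],false,3,3,[4,6,7]),
    (true,[([(0,12,[(9,12)])],[4]),([(0,8,[(4,4)])],[])],[5,3],false,2,3,[4]),
    (false,[([(0,12,[(9,12)]),(0,11,[(4,4),(3,4)])],[])],[8],false,1,0,[2]),
    (true,[([(0,12,[(9,12)])],[5]),([(0,0,[(4,4),(3,4),(2,2)])],[1])],[],false,1,0,[]),
    (true,[([(0,12,[(9,12)])],[4]),([(0,1,[(5,6)])],[3,1])],[2],false,1,0,[2,3]),
    (false,[([(0,12,[(9,12)]),(0,11,[(5,6),(2,2)])],[])],[8],false,1,0,[2]),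
    (true,[([(0,12,[(9,12)])],[5]),([(0,0,[(5,6),(2,2),(2,2)])],[1])],[],false,1,0,[]),
    (true,[([(0,7,[(9,12),(3,3)])],[]),([(0,1,[(5,6)])],[3,1,1])],[2],false,1,0,[]),
    (false,[([(0,9,[(9,12),(7,7)])],[4,3,2])],[],false,1,0,[]),
    (true,[([(0,7,[(13,15)])],[])],[6,3,2,2],false,3,2,[])]),
  ([9,8,5,4,2,1], [
    (false,[],[9,8,5,4,2,1],false,5,3,[8,12,15]),
    (true,[([(0,11,[(6,8)])],[3])],[6,4,4,2,2],false,3,4,[6,8]),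
    (false,[([(0,11,[(6,8)]),(0,1,[(4,6)])],[1])],[9,5],false,1,0,[3,6]),
    (false,[([(0,11,[(6,8)]),(0,1,[(4,6)]),(0,2,[(2,3)])],[])],[8,4],false,1,0,[3]),
    (false,[([(0,11,[(6,8)]),(0,1,[(4,6)]),(0,2,[(2,3)])],[]),([(0,2,[(2,3)])],[2,2,2,1,1,1])],[],false,1,0,[2,3]),
    (true,[([(0,0,[(6,8),(2,2)]),(0,2,[(2,3)])],[]),([(0,1,[(4,6)])],[3]),([(0,2,[(2,3)])],[2,1,1])],[],false,1,0,[2]),
    (true,[([(0,0,[(6,8),(2,2)])],[]),([(0,1,[(4,6)]),(1,0,[(2,3),(2,2)])],[]),([(0,2,[(2,3)])],[2,1,1])],[],false,1,0,[2]),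
    (true,[([(0,0,[(6,8),(2,2)])],[]),([(0,1,[(4,6)]),(1,0,[(2,3),(2,2)])],[]),([(0,2,[(2,3)]),(0,2,[(2,2)])],[1])],[],false,1,0,[2]),
    (true,[([(0,0,[(6,8),(2,2)])],[]),([(0,1,[(4,6)]),(1,0,[(2,2),(2,2),(2,2)])],[]),([(0,2,[(2,3)]),(0,2,[(2,3)])],[1])],[],false,1,0,[]),
    (true,[([(0,11,[(6,8)])],[3]),([(0,1,[(4,6)]),(0,1,[(2,3),(3,3)])],[]),([(0,2,[(2,3)])],[2,1])],[],false,1,0,[3]),
    (true,[([(0,11,[(6,8)])],[3]),([(0,1,[(4,6)]),(0,1,[(2,3),(3,3)])],[]),([(0,2,[(2,3)]),(0,2,[(2,3)])],[])],[],false,1,0,[2]),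
    (true,[([(0,0,[(6,8),(2,2)])],[]),([(0,1,[(4,6)]),(0,1,[(2,3),(3,3)])],[]),([(0,2,[(2,3)]),(0,2,[(2,3)])],[1])],[],false,1,0,[]),
    (true,[([(0,11,[(6,8)])],[3]),([(0,1,[(4,6)]),(0,1,[(4,6)])],[])],[4,2],false,1,0,[3,4]),
    (true,[([(0,11,[(6,8)])],[3]),([(0,1,[(4,6)]),(0,1,[(4,6)])],[]),([(0,2,[(2,3)])],[2,1])],[],false,1,0,[3]),
    (true,[([(0,11,[(6,8)])],[3]),([(0,1,[(4,6)]),(0,1,[(4,6)])],[]),([(0,2,[(2,3)]),(0,2,[(2,3)])],[])],[],false,1,0,[2]),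
    (true,[([(0,0,[(6,8),(2,2)])],[]),([(0,1,[(4,6)]),(0,1,[(4,6)])],[]),([(0,2,[(2,3)]),(0,2,[(2,3)])],[1])],[],false,1,0,[]),
    (true,[([(0,11,[(6,8)])],[3]),([(0,1,[(4,6)]),(0,1,[(4,6)])],[]),([(0,8,[(4,4)])],[1,1])],[],false,1,0,[]),
    (true,[([(0,11,[(6,8)])],[3]),([(0,3,[(7,8)])],[2])],[6,2],true,2,3,[3,4]),
    (false,[([(0,11,[(6,8)]),(0,13,[(7,8),(3,3)])],[])],[9,1],false,2,1,[]),
    (true,[([(0,12,[(6,8),(4,4)])],[4]),([(0,3,[(7,8)])],[2,1])],[2],false,1,0,[]),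
    (true,[([(0,12,[(9,12)])],[4])],[5,4,2,2],false,3,4,[4,5,6,7]),
    (true,[([(0,12,[(9,12)])],[4]),([(0,8,[(4,4)])],[])],[5,4],false,2,3,[3,4]),
    (true,[([(0,7,[(9,12),(3,3)])],[]),([(0,8,[(4,4)])],[])],[6,4],false,2,1,[]),
    (true,[([(0,12,[(9,12)])],[5]),([(0,0,[(4,4),(4,4)])],[2])],[],false,1,0,[]),
    (false,[([(0,12,[(9,12)]),(0,6,[(5,5)])],[4])],[8],false,1,0,[3]),
    (true,[([(0,12,[(9,12)])],[5]),([(0,6,[(5,5)]),(0,2,[(2,3)])],[])],[4],false,1,0,[2]),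
    (true,[([(0,12,[(9,12)])],[5]),([(0,0,[(5,5),(2,3),(2,2)])],[2])],[],false,1,0,[]),
    (true,[([(0,12,[(9,12)])],[4]),([(0,1,[(6,6)])],[3,2])],[2],false,1,0,[2]),
    (true,[([(0,12,[(9,12)])],[4]),([(0,3,[(6,6),(2,2)])],[2,1])],[2],false,1,0,[]),
    (false,[([(0,9,[(9,12),(7,7)])],[4,4,2])],[],false,1,0,[]),
    (true,[([(0,7,[(13,15)])],[])],[6,4,2,2],false,3,2,[])]),
  ([9,8,6,3,2,1], [
    (false,[],[9,8,6,3,2,1],false,5,3,[8,11,15]),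
    (true,[([(0,11,[(6,8)])],[3])],[6,4,3,3,2],false,3,6,[6,8]),
    (false,[([(0,11,[(6,8)]),(0,1,[(4,6)])],[2,2])],[8,3],false,1,0,[3,5,6]),
    (false,[([(0,11,[(6,8)]),(0,1,[(4,6)])],[2,2]),([(0,2,[(2,3)])],[2,2,1,1,1,1])],[],false,1,0,[2,3]),
    (false,[([(0,0,[(6,8),(2,2)]),(0,1,[(4,6)]),(0,2,[(2,3)])],[])],[8,2],true,2,4,[]),
    (true,[([(0,11,[(6,8)])],[3]),([(0,1,[(4,6)]),(0,1,[(2,3),(3,3)])],[])],[3,3],false,1,0,[2,3]),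
    (true,[([(0,0,[(6,8),(2,2)])],[1]),([(0,1,[(4,6)]),(0,1,[(2,3),(3,3)])],[])],[3,3],false,1,0,[2]),
    (true,[([(0,0,[(6,8),(2,2)])],[]),([(0,1,[(4,6)]),(0,6,[(3,3),(2,2)])],[]),([(0,2,[(2,3)])],[2,2,1])],[],false,1,0,[2]),
    (true,[([(0,0,[(6,8),(2,2)])],[]),([(0,1,[(4,6)]),(0,6,[(3,3),(2,2)])],[]),([(0,2,[(2,3)]),(0,2,[(2,2)])],[2])],[],false,1,0,[]),
    (false,[([(0,11,[(6,8)]),(0,1,[(4,6)])],[2,2]),([(0,2,[(2,3)]),(0,2,[(3,3)]),(0,2,[(3,3)])],[1,1])],[],false,1,0,[2]),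
    (false,[([(0,0,[(6,8),(2,2)]),(0,1,[(4,6)]),(0,2,[(2,3)])],[]),([(0,2,[(3,3)]),(0,2,[(3,3)])],[1,1,1,1])],[],false,1,0,[]),
    (true,[([(0,11,[(6,8)])],[3]),([(0,1,[(4,6)]),(0,6,[(4,5)])],[])],[4,3],false,2,3,[3,4]),
    (true,[([(0,11,[(6,8)])],[3]),([(0,1,[(4,6)]),(0,6,[(4,5)])],[]),([(0,2,[(3,3)])],[2,2])],[],false,1,0,[2]),
    (true,[([(0,0,[(6,8),(2,2)])],[]),([(0,1,[(4,6)]),(0,6,[(4,5)])],[]),([(0,2,[(3,3)])],[2,2,1])],[],false,1,0,[]),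
    (true,[([(0,11,[(6,8)])],[3]),([(0,1,[(4,6)]),(0,6,[(4,5)])],[]),([(0,8,[(4,4)])],[2,1])],[],false,1,0,[]),
    (false,[([(0,10,[(6,8),(6,6)]),(0,1,[(4,6)])],[])],[9],false,1,0,[2]),
    (true,[([(0,0,[(6,8),(2,2)])],[1]),([(0,1,[(4,6)]),(0,1,[(6,6)])],[])],[3,3],false,1,0,[]),
    (false,[([(0,11,[(6,8)]),(0,3,[(7,8)])],[2])],[9,2],true,2,3,[3,4]),
    (false,[([(0,11,[(6,8)]),(0,3,[(7,8)]),(0,2,[(3,3)])],[])],[8,2],false,2,1,[]),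
    (true,[([(0,12,[(6,8),(4,4)])],[4]),([(0,3,[(7,8)])],[])],[5],false,1,0,[]),
    (true,[([(0,13,[(9,11)])],[])],[6,5,3,2,2],false,4,3,[6,7]),
    (true,[([(0,13,[(9,11)])],[]),([(0,1,[(5,6)])],[3,1])],[6,2],false,2,2,[3]),
    (false,[([(0,10,[(9,11),(3,3)]),(0,1,[(5,6)])],[])],[9],false,1,0,[]),
    (false,[([(0,9,[(9,11),(7,7)])],[4,3,3])],[],false,1,0,[]),
    (true,[([(0,7,[(12,15)])],[])],[6,3,3,2],false,3,2,[4]),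
    (false,[([(0,9,[(12,15),(4,4)])],[4,3,3])],[],false,1,0,[])]),
  ([9,8,7,3,2,1], [
    (false,[],[9,8,7,3,2,1],false,5,3,[8,11,15]),
    (true,[([(0,11,[(6,8)])],[3])],[6,4,3,3,3],false,3,4,[4,5,7,8]),
    (true,[([(0,11,[(6,8)])],[3]),([(0,8,[(4,4)])],[2])],[6,4,3],false,3,3,[4]),
    (true,[([(0,12,[(6,8),(4,4)])],[4]),([(0,8,[(4,4)])],[2])],[5,3],false,2,3,[3,4]),
    (true,[([(0,7,[(6,8),(4,4),(3,3)])],[]),([(0,8,[(4,4)])],[2])],[6,3],false,2,1,[]),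
    (true,[([(0,12,[(6,8),(4,4)])],[4]),([(0,8,[(4,4)])],[2]),([(0,8,[(4,4)])],[2,1,1])],[],false,1,0,[]),
    (false,[([(0,11,[(6,8)]),(0,6,[(5,5)])],[])],[9,8],false,2,5,[3,4,5]),
    (true,[([(0,11,[(6,8)])],[3]),([(0,11,[(5,5),(3,3)])],[4,4])],[3],false,1,0,[2,3]),
    (false,[([(0,7,[(6,8),(5,5),(2,2)]),(0,2,[(3,3)])],[2,2])],[8],false,1,0,[2]),
    (true,[([(0,7,[(6,8),(5,5),(2,2)])],[]),([(0,6,[(3,3),(2,2)])],[3,3,1])],[3],false,1,0,[2]),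
    (true,[([(0,7,[(6,8),(5,5),(2,2)])],[]),([(0,2,[(3,3)]),(0,2,[(2,2)]),(0,2,[(2,2)])],[])],[3,3],false,1,0,[]),
    (false,[([(0,11,[(6,8)]),(0,6,[(5,5)])],[1]),([(0,2,[(3,3)]),(0,2,[(3,3)])],[2,2,2,2,2])],[],false,1,0,[2]),
    (true,[([(0,7,[(6,8),(5,5),(2,2)])],[]),([(0,2,[(3,3)]),(0,2,[(3,3)])],[2,1])],[3,3],false,1,0,[]),
    (true,[([(0,11,[(6,8)])],[4,4]),([(0,6,[(5,5)]),(0,8,[(4,4)])],[])],[3,2],false,2,2,[3]),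
    (true,[([(0,7,[(6,8),(4,4),(3,3)])],[]),([(0,6,[(5,5)])],[3,3,1])],[3],false,1,0,[]),
    (true,[([(0,11,[(6,8)])],[4,4]),([(0,0,[(5,5),(5,5)])],[1])],[3],false,1,0,[2]),
    (true,[([(0,7,[(6,8),(5,5),(2,2)])],[]),([(0,6,[(5,5)])],[3,3,1])],[3],false,1,0,[]),
    (true,[([(0,7,[(6,8),(6,7)])],[])],[6,3,3,3],false,2,4,[3,4,5]),
    (false,[([(0,7,[(6,8),(6,7)]),(0,2,[(3,3)])],[2,2])],[8],false,1,0,[3]),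
    (true,[([(0,7,[(6,8),(6,7)])],[]),([(0,2,[(3,3)]),(0,2,[(2,3)])],[2,1])],[3,3],false,1,0,[2]),
    (true,[([(0,7,[(6,8),(6,7)])],[]),([(0,2,[(3,3)]),(0,2,[(2,3)]),(0,2,[(2,2)])],[])],[3,3],false,1,0,[]),
    (true,[([(0,7,[(6,8),(6,7)])],[]),([(0,8,[(4,4)])],[2])],[6,3],false,2,1,[]),
    (true,[([(0,7,[(6,8),(6,7)])],[]),([(0,6,[(5,5)])],[3,3,1])],[3],false,1,0,[]),
    (false,[([(0,11,[(6,8)]),(0,3,[(8,8)])],[2,2])],[8,2],false,2,2,[3]),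
    (true,[([(0,11,[(6,8)])],[4,3]),([(0,13,[(8,8),(3,3)])],[1])],[3],false,1,0,[]),
    (true,[([(0,13,[(9,11)])],[])],[6,5,3,3,2],false,4,2,[6,7]),
    (true,[([(0,13,[(9,11)])],[]),([(0,1,[(5,6)])],[3,1])],[6,3],false,2,2,[3]),
    (false,[([(0,10,[(9,11),(3,3)]),(0,1,[(5,6)])],[2])],[8],false,1,0,[]),
    (true,[([(0,13,[(9,11)])],[]),([(0,14,[(7,7)])],[4,3])],[5],false,1,0,[]),
    (true,[([(0,7,[(12,15)])],[])],[6,3,3,3],false,2,3,[3,4]),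
    (false,[([(0,7,[(12,15)]),(0,2,[(3,3)])],[2,2])],[8],false,1,0,[2]),
    (true,[([(0,7,[(12,15)])],[]),([(0,6,[(3,3),(2,2)])],[3,3,1])],[3],false,1,0,[]),
    (false,[([(0,7,[(12,15)]),(0,8,[(4,4)])],[2])],[9],false,1,0,[])]),
  ([10,6,5,4,2,1], [
    (false,[],[10,6,5,4,2,1],true,6,2,[10,15]),
    (true,[([(0,0,[(7,10)])],[])],[6,5,4,1,1,1],false,4,3,[6,9]),
    (false,[([(0,0,[(7,10)]),(0,1,[(5,6)])],[3,1,1])],[5,2],false,1,0,[3,5]),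
    (true,[([(0,0,[(7,10)]),(0,2,[(2,3)])],[]),([(0,1,[(5,6)])],[2])],[5,1,1],true,2,3,[3]),
    (true,[([(0,0,[(7,10)]),(0,2,[(2,3)])],[]),([(0,1,[(5,6)]),(0,2,[(3,3)])],[])],[4,1,1],false,2,1,[]),
    (false,[([(0,0,[(7,10)]),(0,1,[(5,6)]),(0,6,[(4,5)])],[])],[5,2],false,2,1,[]),
    (false,[([(0,0,[(7,10)]),(0,0,[(7,9)])],[1,1])],[5,1],true,2,2,[3]),
    (false,[([(0,0,[(7,10)]),(0,12,[(7,9),(3,3)])],[1])],[5],false,1,0,[]),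
    (true,[([(0,7,[(11,15)])],[])],[6,4,1,1,1],false,3,3,[5]),
    (true,[([(0,7,[(11,15)])],[]),([(0,6,[(4,5)])],[1])],[6,1],false,2,1,[])]),
  ([10,7,5,3,2,1], [
    (false,[],[10,7,5,3,2,1],true,6,3,[10,15]),
    (true,[([(0,0,[(7,10)])],[])],[6,5,3,2,1,1],false,5,2,[8,9]),
    (true,[([(0,0,[(7,10)])],[]),([(0,11,[(6,8)])],[1])],[6,3],false,2,3,[3,4]),
    (true,[([(0,0,[(7,10)]),(0,2,[(3,3)])],[]),([(0,11,[(6,8)])],[2])],[3,2],false,2,1,[]),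
    (false,[([(0,0,[(7,10)]),(0,12,[(6,8),(4,4)])],[3])],[3],false,1,0,[]),
    (false,[([(0,9,[(7,10),(9,9)])],[4,3,1,1])],[],false,1,0,[]),
    (true,[([(0,7,[(11,15)])],[])],[6,3,2,1,1],false,4,2,[5]),
    (false,[([(0,7,[(11,15)]),(0,6,[(5,5)])],[3,2])],[3],false,1,0,[])]),
  ([10,8,4,3,2,1], [
    (false,[],[10,8,4,3,2,1],true,6,2,[10,15]),
    (true,[([(0,0,[(7,10)])],[1])],[6,4,2,2,2,1],true,4,2,[6,9]),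
    (true,[([(0,0,[(7,10)])],[]),([(0,1,[(5,6)])],[1,1])],[6,2,2],false,2,4,[4,5]),
    (false,[([(0,0,[(7,10)]),(0,0,[(5,6),(3,4)])],[2,2])],[3,1],true,2,2,[3]),
    (false,[([(0,0,[(7,10)]),(0,0,[(5,6),(3,4)])],[2,2]),([(0,2,[(3,3)])],[1])],[],false,1,0,[]),
    (false,[([(0,7,[(7,10),(5,5)]),(0,1,[(5,6)])],[2,2])],[3],false,1,0,[]),
    (false,[([(0,0,[(7,10)]),(0,0,[(7,9)])],[2,2])],[3,1],true,2,2,[3]),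
    (false,[([(0,0,[(7,10)]),(0,0,[(7,9)])],[2,2]),([(0,2,[(3,3)])],[1])],[],false,1,0,[]),
    (true,[([(0,7,[(11,15)])],[])],[6,2,2,2,1],true,3,4,[5]),
    (true,[([(0,7,[(11,15)])],[]),([(0,6,[(4,5)])],[3,1,1])],[2,1],false,2,1,[])]),
  ([10,9,4,3,2,1], [
    (false,[],[10,9,4,3,2,1],false,5,3,[8,11,15]),
    (true,[([(0,11,[(6,8)])],[3])],[6,4,2,2,2,2],false,3,4,[5,7,8]),
    (false,[([(0,11,[(6,8)]),(0,6,[(4,5)])],[1,1])],[10,4],true,2,6,[3,5]),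
    (false,[([(0,11,[(6,8)]),(0,6,[(4,5)]),(0,2,[(3,3)])],[])],[10,3],true,2,4,[3]),
    (true,[([(0,11,[(6,8)])],[4]),([(0,1,[(4,5)]),(0,1,[(3,3),(3,3)])],[])],[2,2,1],true,2,2,[3]),
    (true,[([(0,11,[(6,8)])],[4]),([(0,1,[(4,5)]),(0,1,[(3,3),(3,3)])],[]),([(0,2,[(3,3)])],[])],[2],false,1,0,[]),
    (true,[([(0,11,[(6,8)])],[4]),([(0,6,[(4,5)]),(0,6,[(4,5)])],[])],[4,2,1],false,3,1,[4]),
    (true,[([(0,11,[(6,8)])],[4]),([(0,0,[(4,5),(4,5)])],[2,1]),([(0,8,[(4,4)])],[])],[],false,1,0,[]),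
    (true,[([(0,7,[(6,8),(6,7)])],[])],[6,2,2,2,2],false,2,4,[3,4,5]),
    (true,[([(0,7,[(6,8),(6,7)])],[]),([(0,2,[(3,3)])],[2,1,1,1])],[2,2,2],false,1,0,[3]),
    (true,[([(0,7,[(6,8),(6,7)])],[]),([(0,2,[(3,3)]),(0,2,[(2,3)])],[1,1])],[2,2,2],false,1,0,[2]),
    (true,[([(0,0,[(6,8),(2,2)]),(0,2,[(3,3)])],[]),([(0,14,[(6,7)])],[4]),([(0,2,[(2,3)])],[2])],[],false,1,0,[]),
    (true,[([(0,7,[(6,8),(6,7)])],[]),([(0,8,[(4,4)])],[])],[6,2,2],false,2,1,[]),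
    (true,[([(0,7,[(6,8),(6,7)])],[]),([(0,6,[(5,5)])],[3,1,1])],[2,2],false,1,0,[]),
    (true,[([(0,11,[(6,8)])],[4]),([(0,3,[(8,8)])],[2,1,1])],[2,2,1],true,2,2,[3]),
    (false,[([(0,9,[(6,8),(8,8),(3,3)])],[4,2,2,2])],[],false,1,0,[]),
    (true,[([(0,12,[(9,11)])],[5])],[5,2,2,2,1],true,3,3,[4,5,7]),
    (true,[([(0,13,[(9,11)])],[4,2]),([(0,8,[(4,4)])],[])],[3,2,2,1],false,3,1,[4]),
    (false,[([(0,9,[(9,11),(4,4),(4,4)])],[4,2,2,2])],[],false,1,0,[]),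
    (true,[([(0,13,[(9,11)])],[2]),([(0,6,[(5,5)])],[3,1,1])],[2,2,2],false,1,0,[3]),
    (true,[([(0,13,[(9,11)]),(0,2,[(2,3)])],[]),([(0,6,[(5,5)])],[3,1])],[2,2,2],false,1,0,[2]),
    (true,[([(0,13,[(9,11)]),(0,2,[(2,3)])],[]),([(0,14,[(5,5),(2,2)])],[4])],[2,2],false,1,0,[]),
    (true,[([(0,13,[(9,11)])],[2]),([(0,14,[(6,7)])],[4,1])],[2,2],false,1,0,[2]),
    (true,[([(0,13,[(9,11)]),(0,2,[(2,2)])],[]),([(0,14,[(6,7)])],[4])],[2,2],false,1,0,[]),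
    (true,[([(0,7,[(12,15)])],[])],[6,2,2,2,2],false,2,3,[3,4]),
    (true,[([(0,7,[(12,15)])],[]),([(0,2,[(3,3)])],[2,1,1,1])],[2,2,2],false,1,0,[2]),
    (true,[([(0,7,[(12,15)])],[]),([(0,6,[(3,3),(2,2)])],[3,1,1])],[2,2],false,1,0,[]),
    (false,[([(0,9,[(12,15),(4,4)])],[4,2,2,2])],[],false,1,0,[])]),
  ([11,5,4,3,2,1,1,1], [
    (false,[],[11,5,4,3,2,1,1,1],false,6,2,[10,15]),
    (false,[([(0,0,[(7,10)])],[])],[11,5,1,1],true,3,4,[6,8,9]),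
    (true,[([(0,0,[(7,10)]),(0,1,[(4,6)])],[1])],[4,2,1,1,1,1,1],false,3,2,[5,6]),
    (true,[([(0,0,[(7,10)]),(0,1,[(4,6)])],[1]),([(0,6,[(4,5)])],[1])],[2,1,1,1],false,2,2,[3]),
    (false,[([(0,0,[(7,10)]),(0,1,[(4,6)])],[1,1,1,1]),([(0,11,[(4,5),(3,3)])],[])],[],false,1,0,[]),
    (false,[([(0,0,[(7,10)]),(0,1,[(4,6)])],[1,1,1,1]),([(0,1,[(6,6)])],[1])],[1],false,1,0,[]),
    (false,[([(0,0,[(7,10)]),(0,11,[(7,8)])],[1,1,1])],[4,1,1,1],false,2,2,[3]),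
    (false,[([(0,0,[(7,10)]),(0,11,[(7,8)])],[1,1,1]),([(0,2,[(3,3)])],[1,1])],[1,1],false,1,0,[]),
    (false,[([(0,18,[(7,10),(9,9)])],[1,1,1,1])],[5],false,1,0,[]),
    (true,[([(0,7,[(11,15)])],[])],[8,1,1,1,1,1],false,2,4,[3,5]),
    (false,[([(0,7,[(11,15)]),(0,2,[(3,3)])],[1,1,1,1])],[4,1,1],false,2,2,[3]),
    (false,[([(0,7,[(11,15)]),(0,2,[(3,3)])],[1,1,1,1]),([(0,2,[(3,3)])],[1,1])],[1],false,1,0,[]),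
    (false,[([(0,7,[(11,15)]),(0,6,[(4,5)])],[1,1,1])],[3,1,1],false,2,1,[])]),
  ([11,6,5,3,2,1], [
    (false,[],[11,6,5,3,2,1],true,6,2,[10,15]),
    (true,[([(0,0,[(7,10)])],[])],[6,5,3,1,1,1,1],false,4,3,[6,8,9]),
    (false,[([(0,0,[(7,10)]),(0,1,[(5,6)])],[1,1,1,1])],[6,2],true,2,4,[3,5]),
    (false,[([(0,0,[(7,10)]),(0,1,[(5,6)]),(0,2,[(3,3)])],[1,1])],[5,2],false,2,2,[3]),
    (true,[([(0,0,[(7,10)])],[1]),([(0,12,[(5,6),(3,3),(3,3)])],[3])],[1,1],false,1,0,[]),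
    (true,[([(0,0,[(7,10)])],[3]),([(0,1,[(5,6)]),(0,6,[(4,5)])],[])],[1,1,1,1],false,1,0,[2]),
    (true,[([(0,0,[(7,10)])],[]),([(0,11,[(5,6),(2,2)])],[2]),([(0,6,[(4,5)])],[1,1,1])],[],false,1,0,[]),
    (false,[([(0,0,[(7,10)]),(0,11,[(7,8)])],[1,1,1])],[6,1],true,2,2,[3]),
    (false,[([(0,0,[(7,10)]),(0,13,[(7,8),(3,3)])],[1,1,1])],[3,1],false,1,0,[]),
    (false,[([(0,0,[(7,10)]),(0,19,[(9,9)])],[2,1])],[6],false,1,0,[]),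
    (true,[([(0,7,[(11,15)])],[])],[6,3,1,1,1,1],false,3,3,[5]),
    (true,[([(0,7,[(11,15)])],[]),([(0,6,[(4,5)])],[])],[6,1,1],false,2,1,[])]),
  ([11,7,4,3,2,1], [
    (false,[],[11,7,4,3,2,1],true,6,3,[10,15]),
    (true,[([(0,0,[(7,10)])],[])],[6,5,2,2,1,1,1],false,4,3,[6,9]),
    (true,[([(0,0,[(7,10)])],[]),([(0,1,[(5,6)])],[1,1])],[6,2,1,1],false,3,2,[5]),
    (false,[([(0,0,[(7,10)]),(0,1,[(5,6)]),(0,6,[(4,5)])],[2])],[3,2],false,2,1,[]),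
    (false,[([(0,0,[(7,10)]),(0,0,[(7,9)])],[2,1,1])],[3,1],true,2,2,[3]),
    (false,[([(0,0,[(7,10)]),(0,12,[(7,9),(3,3)])],[2,1])],[3],false,1,0,[]),
    (true,[([(0,7,[(11,15)])],[])],[6,2,2,1,1,1],false,3,3,[5]),
    (true,[([(0,7,[(11,15)])],[]),([(0,6,[(4,5)])],[1,1,1])],[2,2,1],false,2,1,[])]),
  ([13,5,4,3,2,1], [
    (false,[],[13,5,4,3,2,1],true,6,2,[10,14,15]),
    (true,[([(0,0,[(7,10)])],[])],[6,5,1,1,1,1,1,1,1],false,3,5,[5,7,9]),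
    (true,[([(0,0,[(7,10)])],[]),([(0,6,[(4,5)])],[1,1])],[6,1,1,1,1,1],false,2,5,[3,5]),
    (true,[([(0,0,[(7,10)]),(0,2,[(3,3)])],[]),([(0,6,[(4,5)])],[])],[5,1,1,1,1,1],false,2,3,[3]),
    (false,[([(0,0,[(7,10)]),(0,11,[(4,5),(3,3)])],[1,1,1,1,1]),([(0,2,[(3,3)])],[1,1])],[],false,1,0,[2]),
    (false,[([(0,0,[(7,10)]),(0,6,[(4,5)]),(0,6,[(3,3),(2,2)])],[1,1,1]),([(0,2,[(3,3)])],[2])],[],false,1,0,[]),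
    (false,[([(0,0,[(7,10)]),(0,6,[(4,5)]),(0,6,[(4,5)])],[1,1,1])],[3,2],false,2,2,[3]),
    (false,[([(0,0,[(7,10)]),(0,6,[(4,5)]),(0,6,[(4,5)])],[1,1,1]),([(0,2,[(3,3)])],[2])],[],false,1,0,[]),
    (true,[([(0,0,[(7,10)])],[]),([(0,14,[(6,7)])],[1])],[6,1,1,1,1],false,2,3,[3,4]),
    (false,[([(0,0,[(7,10)]),(0,14,[(6,7)]),(0,2,[(3,3)])],[1,1,1])],[4,1],false,2,1,[]),
    (false,[([(0,0,[(7,10)]),(0,14,[(6,7)]),(0,6,[(4,4)])],[1,1])],[3,1],false,1,0,[]),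
    (true,[([(0,0,[(7,10)])],[]),([(0,19,[(8,9)])],[])],[6,1,1,1],false,2,1,[]),
    (true,[([(0,20,[(11,14)])],[])],[5,4,1,1,1,1,1],false,3,4,[5]),
    (true,[([(0,20,[(11,14)])],[]),([(0,6,[(4,5)])],[1])],[5,1,1,1],false,2,1,[]),
    (false,[([(0,7,[(15,15)])],[])],[13],false,1,0,[])])]

theorem cj6c_1_ok : runAllJ S39 R39 F39 14 cj6c_1 = true := by decide +kernel

/-- the minors -/
def G6c : List (List ℕ) := [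
  [1,1,1,1,1,1,8,1,1,1,1,1], [1,1,1,1,1,8,1,1,1,1,1,1], [1,1,1,1,1,1,1,5,1,1,1,1],
  [1,1,1,1,5,1,1,1,1,1,1,1], [1,1,1,1,1,1,1,1,4,1,1,1], [1,1,1,4,1,1,1,1,1,1,1,1],
  [1,1,1,1,1,1,1,1,1,3,1,1], [1,1,3,1,1,1,1,1,1,1,1,1], [1,1,1,1,1,1,1,1,1,1,3,1],
  [1,3,1,1,1,1,1,1,1,1,1,1], [1,1,1,1,1,1,1,1,1,1,1,3], [3,1,1,1,1,1,1,1,1,1,1,1],
  [2,2,1,1,1,1,1,1,1,1,1,1], [1,1,1,1,1,1,1,1,1,1,2,2], [2,1,1,1,1,2,1,1,1,1,1,1],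
  [1,1,1,1,1,1,2,1,1,1,1,2], [2,1,1,1,2,1,1,1,1,1,1,1], [1,1,1,1,1,1,1,2,1,1,1,2],
  [2,1,1,1,1,1,2,1,1,1,1,1], [1,1,1,1,1,2,1,1,1,1,1,2], [2,1,1,2,1,1,1,1,1,1,1,1],
  [1,1,1,1,1,1,1,1,2,1,1,2], [1,1,1,1,1,1,1,2,1,1,2,1], [1,2,1,1,2,1,1,1,1,1,1,1],
  [1,1,1,1,1,1,1,3,1,2,1,1], [1,1,2,1,3,1,1,1,1,1,1,1], [2,1,1,1,1,1,1,2,1,1,1,1],
  [1,1,1,1,2,1,1,1,1,1,1,2], [2,1,2,1,1,1,1,1,1,1,1,1], [1,1,1,1,1,1,1,1,1,2,1,2],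
  [1,1,1,1,1,1,1,1,1,2,2,1], [1,2,2,1,1,1,1,1,1,1,1,1], [1,2,1,2,1,1,1,1,1,1,1,1],
  [1,1,1,1,1,1,1,1,2,1,2,1], [1,1,1,1,1,1,1,3,2,1,1,1], [1,1,1,2,3,1,1,1,1,1,1,1],
  [1,1,1,1,1,1,4,3,1,1,1,1], [1,1,1,1,3,4,1,1,1,1,1,1], [1,2,1,1,1,3,1,1,1,1,1,1],
  [1,1,1,1,1,1,3,1,1,1,2,1], [1,1,1,1,1,1,2,4,1,1,1,1], [1,1,1,1,4,2,1,1,1,1,1,1],
  [1,1,1,1,1,2,1,4,1,1,1,1], [1,1,1,1,4,1,2,1,1,1,1,1], [1,1,1,1,1,1,4,1,1,2,1,1],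
  [1,1,2,1,1,4,1,1,1,1,1,1], [1,1,1,1,1,1,2,1,3,1,1,1], [1,1,1,3,1,2,1,1,1,1,1,1],
  [1,2,1,1,1,1,3,1,1,1,1,1], [1,1,1,1,1,3,1,1,1,1,2,1], [1,1,1,1,1,1,1,1,2,2,1,1],
  [1,1,2,2,1,1,1,1,1,1,1,1], [1,1,1,1,1,1,1,2,3,1,1,1], [1,1,1,3,2,1,1,1,1,1,1,1],
  [1,1,1,1,1,1,2,2,1,2,1,1], [1,1,2,1,2,2,1,1,1,1,1,1], [1,1,1,1,1,6,3,1,1,1,1,1],
  [1,1,1,1,1,3,6,1,1,1,1,1], [1,1,1,1,1,1,3,2,2,1,1,1], [1,1,1,2,2,3,1,1,1,1,1,1],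
  [1,1,1,2,1,5,1,1,1,1,1,1], [1,1,1,1,1,1,5,1,2,1,1,1]]

noncomputable def T6c : BT :=
  .split 0 3 (.split 1 3 (.split 2 3 (.split 3 4 (.split 4 5 (.split 5 8 (.split 6 8 (.split 7 5
  (.split 8 4 (.split 9 3 (.split 10 3 (.split 11 3 (.split 11 2 (.split 0 2 (.split 10 2
  (.split 1 2 (.split 8 2 (.split 3 2 (.split 7 3 (.split 6 4 (.split 5 4 (.split 4 3 (.split 9
  2 .small (.split 2 2 .small (.split 7 2 (.split 6 2 .small (.split 5 2 .small (.split 4 2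
  .small (.minor 55)))) (.split 6 2 (.split 5 2 .small (.split 4 2 .small (.minor 55))) (.minor
  54))))) (.split 2 2 (.split 9 2 .small (.split 7 2 .small (.split 6 2 .small (.minor 54))))
  (.minor 25))) (.split 2 2 (.split 4 3 (.split 9 2 .small (.split 5 6 .small (.split 6 3
  (.split 7 2 .small (.split 6 2 .small (.minor 54))) (.minor 56)))) (.minor 37)) (.minor 45)))
  (.split 4 4 (.split 5 6 (.split 9 2 (.split 5 3 (.split 4 2 .small (.split 2 2 .small (.split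
  4 3 (.split 5 2 .small (.minor 55)) (.minor 25)))) (.split 6 6 (.split 4 2 .small (.split 2 2
  .small (.minor 55))) (.minor 57))) (.minor 44)) (.minor 56)) (.minor 43))) (.split 6 4 (.split
  9 2 (.split 5 4 (.split 4 3 (.split 2 2 .small (.split 7 4 .small (.split 5 2 .small (.minor
  42)))) (.split 2 2 (.split 7 4 .small (.split 5 2 .small (.minor 42))) (.minor 25))) (.split 2
  2 (.split 4 3 (.split 7 4 .small (.minor 42)) (.minor 37)) (.minor 45))) (.minor 24)) (.minor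
  36))) (.split 2 2 (.split 4 3 (.split 5 5 (.split 9 2 (.split 7 3 (.split 6 4 (.split 5 3
  .small (.split 3 3 .small (.minor 47))) (.split 6 6 (.split 5 3 (.split 3 3 .small (.split 4 2
  .small (.minor 53))) (.split 3 3 .small (.minor 47))) (.split 5 3 (.split 3 3 .small (.split 4
  2 (.split 5 2 .small (.minor 47)) (.minor 53))) (.minor 57)))) (.split 6 4 (.split 5 3 (.split
  3 3 .small (.split 4 2 (.split 5 2 .small (.minor 47)) (.minor 53))) (.split 3 3 (.split 4 2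
  .small (.minor 59)) (.minor 47))) (.minor 36))) (.split 6 4 (.split 7 3 (.split 3 3 (.split 5
  3 (.split 7 2 .small (.split 6 2 .small (.minor 54))) (.split 4 2 (.split 7 2 .small (.split 6
  2 .small (.minor 54))) (.minor 59))) (.split 4 2 (.split 5 2 (.split 7 2 .small (.split 6 2
  .small (.minor 54))) (.minor 47)) (.minor 53))) (.minor 24)) (.minor 44))) (.minor 60))
  (.minor 35)) (.minor 51))) (.split 6 5 (.split 7 3 (.split 9 2 (.split 5 4 (.split 4 3 (.split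
  3 2 (.split 2 2 (.split 8 3 .small (.split 6 2 .small (.minor 46))) (.split 8 3 (.split 6 3
  (.split 7 2 .small (.split 5 2 .small (.split 4 2 .small (.minor 55)))) (.split 7 2 (.split 5
  2 .small (.split 4 2 .small (.minor 55))) (.minor 58))) (.split 6 2 (.split 7 2 (.split 5 2
  .small (.split 4 2 .small (.minor 55))) (.minor 52)) (.minor 46)))) (.split 2 2 (.split 8 3
  (.split 6 3 (.split 3 3 .small (.split 4 2 .small (.minor 53))) (.split 7 2 (.split 3 3 .small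
  (.split 4 2 .small (.minor 53))) (.minor 58))) (.split 6 2 (.split 7 2 (.split 3 3 .small
  (.split 4 2 .small (.minor 53))) (.minor 52)) (.minor 46))) (.minor 51))) (.split 2 2 (.split
  3 2 (.split 8 3 (.split 6 3 .small (.split 4 4 .small (.minor 43))) (.split 6 2 (.split 7 2
  .small (.minor 52)) (.minor 46))) (.minor 35)) (.minor 25))) (.split 2 2 (.split 3 3 (.split 4
  3 (.split 8 3 (.split 6 3 (.split 5 6 (.split 3 2 .small (.split 4 2 .small (.minor 59)))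
  (.split 3 2 .small (.minor 60))) (.split 5 6 (.split 7 2 (.split 3 2 .small (.split 4 2 .small
  (.minor 59))) (.minor 58)) (.minor 56))) (.split 6 2 (.split 7 2 (.split 5 6 (.split 3 2
  .small (.split 4 2 .small (.minor 59))) (.split 3 2 .small (.minor 60))) (.minor 52)) (.minor
  46))) (.minor 37)) (.minor 47)) (.minor 45))) (.minor 50)) (.minor 34)) (.minor 61))) (.split
  2 2 (.split 3 2 (.split 4 2 (.split 5 3 (.split 6 3 (.split 7 3 (.split 8 2 (.split 9 2 .small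
  (.split 7 2 .small (.split 6 2 .small (.minor 54)))) (.split 9 2 (.split 8 3 .small (.split 6
  2 (.split 7 2 .small (.minor 52)) (.minor 46))) (.minor 50))) (.split 8 2 (.split 9 2 (.split
  7 4 .small (.split 5 2 (.split 6 2 .small (.minor 40)) (.minor 42))) (.minor 24)) (.minor
  34))) (.minor 48)) (.minor 38)) (.minor 23)) (.minor 32)) (.minor 31))) (.split 5 3 (.split 6
  3 (.split 7 2 (.split 8 2 (.split 9 2 (.split 4 3 (.split 3 2 (.split 1 2 (.split 2 2 .small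
  (.split 4 2 .small (.split 5 2 .small (.minor 55)))) (.split 2 2 (.split 4 2 .small (.minor
  23)) (.minor 31))) (.split 1 2 (.split 2 2 (.split 3 3 .small (.split 4 2 (.split 5 2 .small
  (.minor 47)) (.minor 53))) (.minor 51)) (.minor 32))) (.split 1 2 (.split 2 2 (.split 3 2
  (.split 4 4 .small (.split 5 2 (.split 6 2 .small (.minor 43)) (.minor 41))) (.minor 35))
  (.minor 25)) (.minor 23))) (.minor 30)) (.minor 33)) (.minor 22)) (.minor 39)) (.minor 49)))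
  (.split 1 2 (.split 2 2 (.split 3 2 (.split 4 2 (.split 5 2 (.split 6 2 (.split 7 2 (.split 8
  2 (.split 10 2 .small (.split 9 2 .small (.minor 30))) (.split 9 2 (.split 10 2 .small (.minor
  33)) (.minor 50))) (.minor 26)) (.minor 18)) (.minor 14)) (.minor 16)) (.minor 20)) (.minor
  28)) (.minor 12))) (.split 4 2 (.split 5 2 (.split 6 2 (.split 7 2 (.split 8 2 (.split 9 2
  (.split 10 2 (.split 3 2 (.split 0 2 (.split 1 2 .small (.split 2 2 .small (.minor 31)))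
  (.split 1 2 (.split 2 2 .small (.minor 28)) (.minor 12))) (.split 0 2 (.split 1 2 (.split 2 2
  .small (.minor 51)) (.minor 32)) (.minor 20))) (.minor 13)) (.minor 29)) (.minor 21)) (.minor
  17)) (.minor 15)) (.minor 19)) (.minor 27))) (.minor 10)) (.minor 8)) (.minor 6)) (.minor 4))
  (.minor 2)) (.minor 0)) (.minor 1)) (.minor 3)) (.minor 5)) (.minor 7)) (.minor 9)) (.minor
  11)

noncomputable def Rt6c : List (List ℕ) :=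
  cj6c_0.map Prod.fst ++ cj6c_1.map Prod.fst

theorem Rt6c_ok : ∀ M ∈ Rt6c, KG (M : Multiset ℕ) 14 := by
  intro M h
  unfold Rt6c at h
  simp only [List.mem_append] at h
  rcases h with h | h
  · exact kg_of_allJ S39_ok R39_ok F39_ok cj6c_0_ok M h
  · exact kg_of_allJ S39_ok R39_ok F39_ok cj6c_1_ok M h

def ks6c : List ℕ := [
  60, 61, 52, 53, 44, 45, 18, 19, 24, 25, 28, 29, 27, 26, 7, 6, 11, 10, 0, 1, 17, 16, 8, 9, 40,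
  41, 2, 3, 23, 22, 20, 21, 15, 14, 38, 39, 58, 59, 31, 30, 50, 51, 36, 37, 46, 47, 34, 35, 4, 5,
  12, 13, 42, 43, 32, 33, 55, 54, 48, 49, 57, 56]

theorem min6c_ok : minC 6 Rt6c G6c ks6c = true := by decide +kernel

theorem T6c_ok : btC 6 36 G6c T6c (List.replicate (2 * 6) 1)
    (List.replicate (2 * 6) 0) = true := by decide +kernel

theorem kg6c {M : Multiset ℕ} (hM : ∀ s ∈ M, 1 ≤ s)
    (hc : M.dedup.card = 6) (hn : 36 ≤ M.sum) : KG M 14 :=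
  coverC ks6c T6c Rt6c_ok min6c_ok T6c_ok hM hc hn

noncomputable def cj7c_0 : List (List ℕ × List NdJ) := [
  ([7,6,5,4,3,2,1], [
    (false,[],[7,6,5,4,3,2,1],false,6,3,[10,14,15]),
    (false,[([(0,0,[(7,10)])],[])],[7,6,5],false,3,5,[6,8,9]),
    (false,[([(0,0,[(7,10)]),(0,1,[(4,6)])],[])],[6,4,2],false,3,2,[6]),
    (false,[([(0,0,[(7,10)]),(0,1,[(4,6)])],[]),([(0,1,[(4,6)])],[3,2,1])],[],false,1,0,[3]),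
    (false,[([(0,0,[(7,10)]),(0,1,[(4,6)])],[]),([(0,1,[(4,6)]),(0,2,[(2,3)])],[3])],[],false,1,0,[2]),
    (false,[([(0,0,[(7,10)]),(0,1,[(4,6)])],[]),([(0,1,[(4,6)]),(1,0,[(2,3),(2,2)])],[])],[],false,1,0,[]),
    (false,[([(0,0,[(7,10)]),(0,3,[(7,8)])],[])],[5,3,2],false,3,2,[]),
    (false,[([(0,9,[(7,10),(9,9)])],[4])],[5],false,1,0,[]),
    (false,[([(0,10,[(11,14)])],[3])],[7,4],false,2,4,[3,4,5]),
    (false,[([(0,7,[(11,14)]),(0,2,[(3,3)])],[])],[6,4],false,2,2,[3]),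
    (false,[([(0,10,[(11,14)])],[3]),([(0,2,[(3,3)]),(0,2,[(3,3)])],[2,2,1])],[],false,1,0,[]),
    (false,[([(0,7,[(11,14)]),(0,8,[(4,4)])],[])],[5,4],false,2,1,[]),
    (false,[([(0,9,[(11,14),(5,5)])],[4])],[5],false,1,0,[]),
    (false,[([(0,7,[(15,15)])],[])],[7,6],false,1,0,[])])]

theorem cj7c_0_ok : runAllJ S39 R39 F39 14 cj7c_0 = true := by decide +kernel

/-- the minors -/
def G7c : List (List ℕ) := [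
  [1,1,1,1,1,1,1,1,1,1,1,1,1,1]]

noncomputable def T7c : BT :=
  .minor 0

noncomputable def Rt7c : List (List ℕ) :=
  cj7c_0.map Prod.fst

theorem Rt7c_ok : ∀ M ∈ Rt7c, KG (M : Multiset ℕ) 14 := by
  intro M h
  unfold Rt7c at h
  exact kg_of_allJ S39_ok R39_ok F39_ok cj7c_0_ok M h

def ks7c : List ℕ := [
  0]

theorem min7c_ok : minC 7 Rt7c G7c ks7c = true := by decide +kernel

theorem T7c_ok : btC 7 36 G7c T7c (List.replicate (2 * 7) 1)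
    (List.replicate (2 * 7) 0) = true := by decide +kernel

theorem kg7c {M : Multiset ℕ} (hM : ∀ s ∈ M, 1 ≤ s)
    (hc : M.dedup.card = 7) (hn : 36 ≤ M.sum) : KG M 14 :=
  coverC ks7c T7c Rt7c_ok min7c_ok T7c_ok hM hc hn

noncomputable def cj6d_0 : List (List ℕ × List NdJ) := [
  ([7,6,6,5,4,3,1], [
    (false,[],[7,6,6,5,4,3,1],false,5,4,[6,8,11,14,17]),
    (false,[([(0,1,[(6,6)])],[2,1,1])],[7,6,5,4],false,4,4,[6]),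
    (false,[([(0,1,[(6,6)]),(0,1,[(5,6)])],[3])],[6,6,4,1],true,3,4,[4,6]),
    (false,[([(0,0,[(6,6),(4,4)]),(0,1,[(5,6)])],[])],[6,6,4],false,2,4,[4]),
    (false,[([(0,0,[(6,6),(3,4)]),(0,1,[(5,6)])],[]),([(0,8,[(4,4)])],[2,2,1,1])],[6],false,1,0,[2,3]),
    (false,[([(0,0,[(6,6),(3,4)]),(0,1,[(5,6)])],[]),([(0,8,[(4,4)]),(0,2,[(2,2)])],[2,1])],[6],false,1,0,[2]),
    (false,[([(0,3,[(6,6),(2,2)]),(0,0,[(5,6),(4,4)])],[]),([(0,1,[(3,4),(2,2)])],[3,3,2])],[],false,1,0,[]),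
    (false,[([(0,0,[(6,6),(3,4)]),(0,1,[(5,6)])],[]),([(0,8,[(4,4)]),(0,2,[(3,3)])],[2,1])],[6],false,1,0,[]),
    (false,[([(0,1,[(6,6)]),(0,1,[(5,6)])],[3]),([(0,1,[(5,6)])],[2,2,1])],[6],false,1,0,[2,3,4]),
    (false,[([(0,3,[(6,6),(2,2)]),(0,1,[(5,6)])],[]),([(0,1,[(5,6)])],[2,2,1])],[7],false,1,0,[2]),
    (false,[([(0,3,[(6,6),(2,2)]),(0,1,[(5,6)])],[]),([(0,1,[(5,6)]),(0,2,[(2,2)])],[2])],[7],false,1,0,[2]),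
    (false,[([(0,3,[(6,6),(2,2)]),(0,0,[(5,6),(2,2),(2,2)])],[]),([(0,1,[(5,6)])],[3,3,2])],[],false,1,0,[]),
    (false,[([(0,21,[(6,6),(5,6),(5,6),(3,3)])],[5])],[6],false,1,0,[2]),
    (false,[([(0,3,[(6,6),(2,2)]),(0,0,[(5,6),(3,3)])],[]),([(0,1,[(5,6)])],[3,3,2])],[],false,1,0,[]),
    (false,[([(0,1,[(6,6)]),(0,1,[(5,6)])],[3]),([(0,1,[(5,6)]),(0,8,[(4,4)])],[1])],[6],false,1,0,[]),
    (false,[([(0,11,[(7,8)])],[3,3])],[7,6,5],false,1,0,[3,5,7,8]),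
    (false,[([(0,3,[(7,8)]),(0,2,[(2,3)])],[3])],[7,6,4,1],false,3,5,[]),
    (false,[([(0,3,[(7,8)]),(0,6,[(4,5)])],[])],[7,6,5,1],false,3,6,[5]),
    (false,[([(0,3,[(7,8)]),(0,0,[(4,5),(4,5)])],[])],[6,5,3],false,3,3,[4,5]),
    (false,[([(0,3,[(7,8)]),(0,0,[(4,5),(4,5)])],[]),([(0,8,[(4,4)])],[2,1,1])],[6],false,1,0,[2]),
    (false,[([(0,3,[(7,8)]),(0,0,[(4,5),(4,5)])],[]),([(0,1,[(4,4),(2,2)])],[3,3,2])],[],false,1,0,[]),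
    (false,[([(0,3,[(7,8)]),(0,0,[(4,5),(4,5)])],[]),([(0,1,[(5,5)])],[3,3,2])],[],false,1,0,[]),
    (false,[([(0,7,[(7,8),(6,7)])],[4])],[7,6],false,2,5,[3,4,6]),
    (false,[([(0,3,[(7,8)]),(0,0,[(6,7),(3,3)])],[])],[6,5,3],false,3,3,[]),
    (false,[([(0,3,[(7,8)]),(0,13,[(6,7),(4,4)])],[])],[6,4,3],false,3,2,[]),
    (false,[([(0,21,[(7,8),(6,7),(5,6)])],[5])],[6],false,1,0,[2]),
    (false,[([(0,3,[(7,8)]),(0,0,[(6,7),(2,2)])],[]),([(0,1,[(5,6)])],[3,3,2])],[],false,1,0,[]),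
    (false,[([(0,3,[(7,8)]),(0,3,[(8,8)])],[])],[7,5,3,1],false,4,1,[]),
    (false,[([(0,13,[(9,11)])],[2,1])],[7,6,5],false,3,5,[4,5,6,8,9]),
    (false,[([(0,13,[(9,11)]),(0,8,[(4,4)])],[])],[7,6,4],false,3,4,[4]),
    (false,[([(0,7,[(9,11),(4,4)])],[4]),([(0,8,[(4,4)])],[2,2,2,2,1])],[],false,1,0,[3]),
    (false,[([(0,7,[(9,11),(4,4)])],[4]),([(0,8,[(4,4)]),(0,2,[(2,3)])],[2,2,2])],[],false,1,0,[2]),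
    (false,[([(0,7,[(9,11),(4,4)])],[4,3]),([(0,8,[(4,4)]),(0,2,[(2,3)]),(0,2,[(2,2)])],[])],[],false,1,0,[]),
    (false,[([(0,13,[(9,11)]),(0,1,[(5,5)])],[])],[6,6,3],true,2,4,[3,4,5]),
    (false,[([(0,13,[(9,11)]),(0,1,[(5,5)])],[]),([(0,2,[(3,3)])],[2,2,1,1])],[6],false,1,0,[3]),
    (false,[([(0,13,[(9,11)]),(0,1,[(5,5)])],[]),([(0,2,[(3,3)]),(0,2,[(2,3)])],[2,1])],[6],false,1,0,[2]),
    (false,[([(0,13,[(9,11)]),(0,1,[(5,5)])],[]),([(0,2,[(3,3)]),(0,2,[(2,3)]),(0,2,[(2,2)])],[])],[6],false,1,0,[]),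
    (false,[([(0,21,[(9,11),(5,5),(4,4)])],[5])],[6],false,1,0,[2]),
    (false,[([(0,13,[(9,11)]),(0,1,[(5,5)])],[]),([(0,8,[(4,4)]),(0,2,[(2,2)])],[1,1])],[6],false,1,0,[]),
    (false,[([(0,21,[(9,11),(5,5),(5,5)])],[5])],[6],false,1,0,[]),
    (false,[([(0,15,[(9,11),(6,6)])],[2])],[7,6],false,2,3,[3,4]),
    (false,[([(0,21,[(9,11),(6,6),(3,3)])],[5])],[6],false,1,0,[2]),
    (false,[([(0,15,[(9,11),(6,6)])],[3,2]),([(0,2,[(3,3)]),(0,2,[(2,2)])],[2,2])],[],false,1,0,[]),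
    (false,[([(0,21,[(9,11),(6,6),(4,4)])],[5])],[6],false,1,0,[]),
    (false,[([(0,13,[(9,11)]),(0,3,[(7,8)])],[])],[6,4,3],false,3,2,[]),
    (false,[([(0,21,[(9,11),(9,9)])],[5])],[6],false,1,0,[]),
    (false,[([(0,10,[(12,14)])],[4,3])],[6,5],false,2,5,[3,4,5,6]),
    (false,[([(0,15,[(12,14),(3,3)])],[2])],[7,6],false,2,3,[3]),
    (false,[([(0,21,[(12,14),(3,3),(3,3)])],[5])],[6],false,1,0,[2]),
    (false,[([(0,15,[(12,14),(3,3)])],[3,2]),([(0,2,[(3,3)]),(0,2,[(2,2)])],[2,2])],[],false,1,0,[]),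
    (false,[([(0,10,[(12,14)])],[4,3]),([(0,8,[(4,4)])],[2,2,2,1])],[],false,1,0,[3]),
    (false,[([(0,21,[(12,14),(4,4),(2,3)])],[5])],[6],false,1,0,[2]),
    (false,[([(0,7,[(12,14)])],[4,3]),([(0,8,[(4,4)]),(0,2,[(2,3)]),(0,2,[(2,2)])],[])],[],false,1,0,[]),
    (false,[([(0,22,[(12,14),(5,5)])],[5])],[7,1],false,2,1,[]),
    (false,[([(0,21,[(12,14),(6,6)])],[5])],[6],false,1,0,[]),
    (false,[([(0,15,[(15,17)])],[2])],[7,6],false,2,2,[3]),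
    (false,[([(0,21,[(15,17),(3,3)])],[5])],[6],false,1,0,[])]),
  ([7,7,6,5,4,2,1], [
    (false,[],[7,7,6,5,4,2,1],true,5,4,[6,8,11,14,17]),
    (false,[([(0,1,[(6,6)])],[1,1,1,1])],[7,6,5,4],false,4,4,[6]),
    (true,[([(0,1,[(6,6)]),(0,1,[(5,6)])],[2])],[6,5,4,3],false,4,3,[6]),
    (false,[([(0,1,[(6,6)]),(0,1,[(5,6)])],[]),([(0,1,[(5,6)])],[2,2,2,1])],[7],false,1,0,[3,4]),
    (false,[([(0,0,[(6,6),(2,3)])],[3,3,2]),([(0,1,[(5,6)]),(0,1,[(5,6)])],[2])],[],false,1,0,[3]),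
    (false,[([(0,1,[(6,6)]),(0,1,[(5,6)])],[2]),([(0,1,[(5,6)]),(0,2,[(2,3)]),(0,2,[(2,3)])],[])],[6],false,1,0,[2]),
    (false,[([(0,3,[(6,6),(2,2)]),(1,1,[(2,3),(2,3)])],[]),([(0,1,[(5,6)]),(0,1,[(5,6)])],[2])],[],false,1,0,[]),
    (false,[([(0,0,[(6,6),(4,4)])],[3,3,2]),([(0,1,[(5,6)]),(0,1,[(5,6)])],[2])],[],false,1,0,[]),
    (true,[([(0,3,[(7,8)])],[1,1])],[7,6,5,4],false,4,4,[6,8]),
    (false,[([(0,3,[(7,8)]),(0,1,[(5,6)])],[3])],[7,5,2,1],true,4,2,[6]),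
    (false,[([(0,11,[(7,8)]),(0,1,[(5,6)])],[]),([(0,1,[(5,6)])],[3,3,3,3])],[],false,1,0,[3]),
    (false,[([(0,3,[(7,8)]),(0,1,[(5,6)])],[3]),([(0,1,[(5,6)]),(0,2,[(2,3)])],[2,2])],[2],false,1,0,[2]),
    (false,[([(0,3,[(7,8)]),(0,1,[(5,6)])],[3]),([(0,1,[(5,6)]),(1,0,[(2,3),(2,2)])],[2])],[1],false,1,0,[]),
    (false,[([(0,3,[(7,8)]),(0,3,[(7,8)])],[1])],[7,5,2,1],false,4,1,[5]),
    (false,[([(0,21,[(7,8),(7,8),(5,5)])],[4])],[7],false,1,0,[]),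
    (false,[([(0,13,[(9,11)])],[3,2])],[7,7,2],false,1,0,[3,4,6,8,9]),
    (true,[([(0,13,[(9,11)]),(0,2,[(2,3)])],[4])],[6,5,3],false,3,3,[]),
    (false,[([(0,13,[(9,11)]),(0,8,[(4,4)])],[3])],[7,5,2],false,3,2,[4]),
    (false,[([(0,7,[(9,11),(4,4)])],[3]),([(0,8,[(4,4)])],[2,2,2,2,2])],[],false,1,0,[3]),
    (false,[([(0,7,[(9,11),(4,4)])],[3,1]),([(0,8,[(4,4)]),(0,2,[(2,3)])],[2,2,2])],[],false,1,0,[2]),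
    (false,[([(0,7,[(9,11),(4,4)])],[3,2]),([(0,8,[(4,4)]),(0,2,[(2,3)]),(0,2,[(2,2)])],[2])],[],false,1,0,[]),
    (false,[([(0,13,[(9,11)]),(0,1,[(5,6)])],[])],[7,6,2],false,3,2,[4,5]),
    (false,[([(0,21,[(9,11),(5,6),(4,4)])],[4])],[7],false,1,0,[2]),
    (false,[([(0,13,[(9,11)]),(0,1,[(5,6)])],[]),([(0,1,[(4,4),(2,2)])],[3,2,2,2])],[],false,1,0,[]),
    (false,[([(0,13,[(9,11)]),(0,1,[(5,6)])],[]),([(0,1,[(5,5)])],[3,2,2,2])],[],false,1,0,[]),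
    (false,[([(0,13,[(9,11)]),(0,3,[(7,8)])],[])],[7,4,2],false,3,2,[]),
    (false,[([(0,21,[(9,11),(9,9)])],[4])],[7],false,1,0,[]),
    (false,[([(0,10,[(12,14)])],[3,3])],[7,5],false,2,5,[3,4,5,6]),
    (false,[([(0,15,[(12,14),(3,3)])],[4,2])],[7,2],true,2,3,[3]),
    (false,[([(0,21,[(12,14),(3,3),(3,3)])],[4])],[7],false,1,0,[2]),
    (false,[([(0,15,[(12,14),(3,3)])],[4,2]),([(0,2,[(3,3)]),(0,2,[(2,2)])],[1,1,1])],[],false,1,0,[]),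
    (false,[([(0,10,[(12,14)])],[3,3]),([(0,8,[(4,4)])],[2,2,2,1,1])],[],false,1,0,[3]),
    (false,[([(0,21,[(12,14),(4,4),(2,3)])],[4])],[7],false,1,0,[2]),
    (false,[([(0,10,[(12,14)])],[3,3]),([(0,8,[(4,4)]),(0,2,[(2,3)]),(0,2,[(2,2)])],[2])],[],false,1,0,[]),
    (false,[([(0,22,[(12,14),(5,5)])],[4,1])],[7,1],false,2,1,[]),
    (false,[([(0,21,[(12,14),(6,6)])],[4])],[7],false,1,0,[]),
    (false,[([(0,23,[(15,17)])],[4,4])],[6,1],true,2,2,[3]),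
    (false,[([(0,21,[(15,17),(3,3)])],[4])],[7],false,1,0,[])]),
  ([7,7,6,5,4,3,1], [
    (false,[],[7,7,6,5,4,3,1],false,5,4,[6,8,11,14,17]),
    (false,[([(0,1,[(6,6)])],[2,1,1,1])],[7,6,5,4],false,4,4,[6]),
    (true,[([(0,1,[(6,6)]),(0,1,[(5,6)])],[])],[7,6,5,3],false,4,3,[6]),
    (false,[([(0,1,[(6,6)]),(0,1,[(5,6)])],[3]),([(0,1,[(5,6)])],[2,2,1])],[7],false,1,0,[3,4]),
    (false,[([(0,0,[(6,6),(2,3)]),(0,1,[(5,6)])],[]),([(0,1,[(5,6)])],[3,3,3,2])],[],false,1,0,[3]),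
    (false,[([(0,1,[(6,6)]),(0,1,[(5,6)])],[3]),([(0,1,[(5,6)]),(0,2,[(2,3)]),(0,2,[(2,3)])],[])],[6],false,1,0,[2]),
    (false,[([(0,3,[(6,6),(2,2)]),(0,1,[(5,6)])],[3]),([(0,1,[(5,6)]),(1,1,[(2,3),(2,3)])],[])],[],false,1,0,[]),
    (false,[([(0,0,[(6,6),(4,4)]),(0,1,[(5,6)])],[]),([(0,1,[(5,6)])],[3,3,3,2])],[],false,1,0,[]),
    (true,[([(0,3,[(7,8)])],[1,1,1])],[7,6,5,4],false,4,4,[6,8]),
    (false,[([(0,3,[(7,8)]),(0,1,[(5,6)])],[2])],[7,5,4,1],true,4,2,[6]),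
    (false,[([(0,3,[(7,8)]),(0,1,[(5,6)])],[]),([(0,1,[(5,6)])],[2,2,1,1])],[7],false,1,0,[3]),
    (false,[([(0,3,[(7,8)]),(0,1,[(5,6)])],[]),([(0,1,[(5,6)]),(0,2,[(2,3)])],[2,1])],[7],false,1,0,[2]),
    (false,[([(0,3,[(7,8)]),(0,1,[(5,6)])],[3]),([(0,1,[(5,6)]),(1,0,[(2,3),(2,2)])],[3])],[1],false,1,0,[]),
    (false,[([(0,3,[(7,8)]),(0,3,[(7,8)])],[1])],[7,5,3,1],false,4,1,[5]),
    (false,[([(0,21,[(7,8),(7,8),(5,5)])],[5])],[7],false,1,0,[]),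
    (false,[([(0,13,[(9,11)])],[2,1,1])],[7,6,5],false,3,5,[4,6,8,9]),
    (false,[([(0,13,[(9,11)]),(0,8,[(4,4)])],[1])],[7,6,4],false,3,4,[4]),
    (false,[([(0,7,[(9,11),(4,4)])],[4]),([(0,8,[(4,4)])],[2,2,2,2,2])],[],false,1,0,[3]),
    (false,[([(0,7,[(9,11),(4,4)])],[4,1]),([(0,8,[(4,4)]),(0,2,[(2,3)])],[2,2,2])],[],false,1,0,[2]),
    (false,[([(0,7,[(9,11),(4,4)])],[4,2]),([(0,8,[(4,4)]),(0,2,[(2,3)]),(0,2,[(2,2)])],[2])],[],false,1,0,[]),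
    (false,[([(0,13,[(9,11)]),(0,1,[(5,6)])],[])],[7,6,3],false,3,3,[4,5]),
    (false,[([(0,21,[(9,11),(5,6),(4,4)])],[5])],[7],false,1,0,[2]),
    (false,[([(0,13,[(9,11)]),(0,1,[(5,6)])],[]),([(0,1,[(4,4),(2,2)])],[3,3,2,2])],[],false,1,0,[]),
    (false,[([(0,13,[(9,11)]),(0,1,[(5,6)])],[]),([(0,1,[(5,5)])],[3,3,2,2])],[],false,1,0,[]),
    (false,[([(0,13,[(9,11)]),(0,3,[(7,8)])],[])],[7,4,3],false,3,2,[]),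
    (false,[([(0,21,[(9,11),(9,9)])],[5])],[7],false,1,0,[]),
    (false,[([(0,10,[(12,14)])],[4,3])],[7,5],false,2,5,[3,4,5,6]),
    (false,[([(0,15,[(12,14),(3,3)])],[2,1])],[7,6],false,2,3,[3]),
    (false,[([(0,15,[(12,14),(3,3)]),(0,2,[(3,3)])],[])],[7,6],false,2,1,[]),
    (false,[([(0,10,[(12,14)])],[4,3]),([(0,8,[(4,4)])],[2,2,2,1,1])],[],false,1,0,[3]),
    (false,[([(0,21,[(12,14),(4,4),(2,3)])],[5])],[7],false,1,0,[2]),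
    (false,[([(0,10,[(12,14)])],[4,3]),([(0,8,[(4,4)]),(0,2,[(2,3)]),(0,2,[(2,2)])],[2])],[],false,1,0,[]),
    (false,[([(0,22,[(12,14),(5,5)])],[5,1])],[7,1],false,2,1,[]),
    (false,[([(0,21,[(12,14),(6,6)])],[5])],[7],false,1,0,[]),
    (false,[([(0,23,[(15,17)])],[5,4])],[6,1],true,2,2,[3]),
    (false,[([(0,21,[(15,17),(3,3)])],[5])],[7],false,1,0,[])]),
  ([8,6,5,5,4,3,1], [
    (false,[],[8,6,5,5,4,3,1],false,5,4,[7,10,13,17]),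
    (true,[([(0,14,[(6,7)])],[2,1])],[7,6,5,4],false,4,4,[5,6,7]),
    (true,[([(0,12,[(6,7),(5,5)])],[2])],[7,6,5],false,3,5,[4,5]),
    (false,[([(0,13,[(6,7),(4,4)]),(0,6,[(5,5)])],[2])],[6,5,3],false,3,3,[4]),
    (true,[([(0,21,[(6,7),(5,5),(4,4),(4,4)])],[4])],[6,1],false,2,1,[]),
    (false,[([(0,16,[(6,7),(5,5),(5,5)])],[5,5])],[5],false,1,0,[3,4]),
    (true,[([(0,7,[(6,7),(5,5),(2,3)])],[3,3]),([(0,6,[(5,5)])],[2,2,2])],[],false,1,0,[2,3]),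
    (true,[([(0,7,[(6,7),(5,5),(2,3)])],[4,4]),([(0,6,[(5,5)]),(0,2,[(2,2)])],[1])],[],false,1,0,[2]),
    (true,[([(0,21,[(6,7),(5,5),(5,5),(2,2),(2,2)])],[4]),([(0,2,[(2,3)])],[1,1,1,1])],[],false,1,0,[]),
    (true,[([(0,21,[(6,7),(5,5),(5,5),(3,3)])],[4]),([(0,2,[(2,3)])],[1,1,1,1])],[],false,1,0,[]),
    (false,[([(0,21,[(6,7),(5,5),(5,5),(4,4)])],[5,1])],[5],false,1,0,[]),
    (false,[([(0,11,[(6,7)]),(0,1,[(6,6)])],[3])],[6,5,4],false,3,4,[5,6]),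
    (true,[([(0,10,[(6,7),(6,6)])],[3,3]),([(0,1,[(4,5)])],[2,2,2])],[],false,1,0,[3,4]),
    (true,[([(0,7,[(6,7),(6,6)])],[4,4]),([(0,6,[(4,5)]),(0,2,[(2,3)])],[1])],[],false,1,0,[2,3]),
    (true,[([(0,7,[(6,7),(6,6),(2,2)])],[4,4]),([(0,6,[(4,5)]),(0,2,[(2,3)])],[1])],[],false,1,0,[2]),
    (true,[([(0,0,[(6,7),(2,3)]),(0,3,[(6,6),(2,2)])],[]),([(0,6,[(4,5)]),(0,2,[(2,2)])],[])],[6],false,1,0,[]),
    (true,[([(0,21,[(6,7),(6,6),(4,5),(3,3)])],[4]),([(0,2,[(2,3)])],[1,1,1,1])],[],false,1,0,[]),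
    (true,[([(0,10,[(6,7),(6,6)])],[3,3]),([(0,1,[(4,5)]),(0,8,[(4,4)])],[2])],[],false,1,0,[]),
    (true,[([(0,21,[(6,7),(6,6),(6,6)])],[4])],[6,1],false,2,1,[]),
    (true,[([(0,7,[(6,7),(7,7)])],[3,3])],[6,4,1],true,3,2,[5,6]),
    (true,[([(0,10,[(6,7),(7,7)])],[3,3]),([(0,1,[(4,5)])],[2,2,2])],[],false,1,0,[3]),
    (true,[([(0,7,[(6,7),(7,7)])],[4,4]),([(0,6,[(4,5)]),(0,2,[(2,3)])],[1])],[],false,1,0,[2]),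
    (true,[([(0,21,[(6,7),(7,7),(4,5),(2,2)])],[4]),([(0,2,[(2,3)])],[1,1,1,1])],[],false,1,0,[]),
    (false,[([(0,21,[(6,7),(7,7),(6,6)])],[5,1])],[5],false,1,0,[]),
    (false,[([(0,0,[(8,10)])],[3])],[8,6,5],false,3,5,[4,6,8,10]),
    (true,[([(0,0,[(8,10)]),(0,8,[(4,4)])],[])],[7,6,4,1],false,3,5,[4]),
    (false,[([(0,10,[(8,10),(4,4)])],[4,3,1]),([(0,8,[(4,4)])],[2,2,2])],[],false,1,0,[3,4]),
    (true,[([(0,0,[(8,10)]),(0,8,[(4,4)])],[]),([(0,8,[(4,4)]),(0,2,[(2,3)])],[2,1])],[7,1],true,2,2,[3]),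
    (true,[([(0,21,[(8,10),(4,4),(4,4),(3,3)])],[4]),([(0,2,[(2,3)])],[1,1,1,1])],[],false,1,0,[]),
    (false,[([(0,10,[(8,10),(4,4)])],[4,3,1]),([(0,8,[(4,4)]),(0,8,[(4,4)])],[2])],[],false,1,0,[]),
    (false,[([(0,0,[(8,10)]),(0,1,[(5,6)])],[1])],[6,5,4],false,3,4,[4,5,6]),
    (true,[([(0,10,[(8,10),(4,4)])],[3,3]),([(0,1,[(5,6)])],[2,2,2])],[],false,1,0,[3]),
    (true,[([(0,7,[(8,10),(4,4)])],[3,3]),([(0,1,[(5,6)]),(0,2,[(2,3)])],[2])],[],false,1,0,[2]),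
    (false,[([(0,0,[(8,10)]),(0,1,[(5,6)])],[1]),([(0,8,[(4,4)]),(0,2,[(2,3)]),(0,2,[(2,2)])],[])],[5],false,1,0,[]),
    (true,[([(0,21,[(8,10),(5,6),(5,5)])],[4])],[6,1],false,2,1,[]),
    (false,[([(0,0,[(8,10)]),(0,1,[(5,6)])],[1]),([(0,1,[(6,6)])],[3,3,3])],[],false,1,0,[]),
    (true,[([(0,0,[(8,10)]),(0,3,[(7,8)])],[])],[6,5,2,1],false,4,1,[]),
    (true,[([(0,21,[(8,10),(9,10)])],[4])],[6,1],false,2,1,[]),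
    (false,[([(0,5,[(11,13)])],[4,1])],[8,5,1],true,3,3,[6,7]),
    (true,[([(0,5,[(11,13)]),(0,1,[(4,6)])],[])],[6,5,1,1],false,3,2,[4]),
    (false,[([(0,15,[(11,13),(4,4)]),(0,1,[(4,6)])],[])],[5,4],false,1,0,[]),
    (false,[([(0,21,[(11,13),(7,7)])],[5,1])],[5],false,1,0,[]),
    (true,[([(0,15,[(14,17)])],[4,2])],[6,2,1],false,3,1,[4]),
    (false,[([(0,21,[(14,17),(4,4)])],[5,1])],[5],false,1,0,[])]),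
  ([8,7,5,4,3,3,2], [
    (false,[],[8,7,5,4,3,3,2],false,5,5,[8,11,15,17]),
    (false,[([(0,11,[(6,8)])],[4,3,1])],[8,5,3],false,1,0,[3,6,8]),
    (false,[([(0,11,[(6,8)]),(0,2,[(2,3)])],[4,3])],[7,4,3],false,1,0,[3]),
    (false,[([(0,11,[(6,8)]),(1,1,[(2,3),(2,3)])],[])],[7,4,3],false,1,0,[2,3]),
    (true,[([(0,0,[(6,8),(2,2)])],[1,1,1]),([(1,1,[(2,3),(2,3)])],[4,3,2])],[],false,1,0,[2]),
    (false,[([(0,11,[(6,8)]),(1,1,[(2,3),(2,3),(2,2),(2,2)])],[])],[7,4,3],false,2,7,[]),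
    (false,[([(0,11,[(6,8)]),(1,1,[(2,3),(2,3),(3,3)])],[])],[7,4,3],false,3,3,[]),
    (true,[([(0,11,[(6,8)]),(0,1,[(4,6)])],[])],[7,6,3,2],false,4,2,[5,6]),
    (false,[([(0,11,[(6,8)]),(0,1,[(4,6)])],[4]),([(0,6,[(5,5)])],[3,3,2,1])],[],false,1,0,[3,5]),
    (false,[([(0,11,[(6,8)]),(0,1,[(4,6)])],[4]),([(0,6,[(5,5)]),(0,2,[(2,3)])],[3,3])],[],false,1,0,[2,3]),
    (true,[([(0,7,[(6,8),(5,5),(2,2)])],[2,2]),([(0,1,[(4,6)]),(0,2,[(2,3)])],[3,1])],[],false,1,0,[2]),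
    (true,[([(0,7,[(6,8),(5,5),(2,2)])],[2,2]),([(0,1,[(4,6)]),(1,0,[(2,3),(2,2)])],[1])],[],false,1,0,[2]),
    (false,[([(0,0,[(6,8),(2,2)]),(0,14,[(5,5),(2,2)])],[]),([(0,1,[(4,6)]),(1,0,[(2,3),(2,2)])],[3])],[],false,1,0,[]),
    (false,[([(0,11,[(6,8)]),(0,1,[(4,6)])],[4]),([(0,6,[(5,5)]),(0,1,[(2,3),(3,3)])],[3])],[],false,1,0,[2]),
    (true,[([(0,7,[(6,8),(5,5),(2,2)])],[2,2]),([(0,1,[(4,6)]),(0,1,[(2,3),(3,3)])],[1])],[],false,1,0,[]),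
    (true,[([(0,11,[(6,8)]),(0,1,[(4,6)])],[]),([(0,0,[(5,5),(4,5)])],[4,2,2])],[],false,1,0,[2]),
    (true,[([(0,7,[(6,8),(5,5),(2,2)])],[2,2]),([(0,1,[(4,6)]),(0,6,[(4,5)])],[2])],[],false,1,0,[]),
    (true,[([(0,10,[(6,8),(6,6)])],[1,1]),([(0,1,[(4,6)])],[3,3,2,2])],[],false,1,0,[3,4]),
    (true,[([(0,10,[(6,8),(6,6)])],[3,2]),([(0,1,[(4,6)]),(0,2,[(2,3)])],[3,1])],[],false,1,0,[2,3]),
    (true,[([(0,10,[(6,8),(6,6)])],[3,2]),([(0,1,[(4,6)]),(1,0,[(2,3),(2,2)])],[1])],[],false,1,0,[2]),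
    (true,[([(0,0,[(6,8),(2,2)]),(0,2,[(2,3)])],[1]),([(0,1,[(4,6)]),(0,3,[(6,6),(2,2)])],[2])],[2],false,1,0,[]),
    (true,[([(0,10,[(6,8),(6,6)])],[3,2]),([(0,1,[(4,6)]),(0,1,[(2,3),(3,3)])],[1])],[],false,1,0,[]),
    (true,[([(0,10,[(6,8),(6,6)]),(0,8,[(4,4)])],[]),([(0,1,[(4,6)])],[3,3,1,1])],[],false,1,0,[]),
    (false,[([(0,11,[(6,8)]),(0,0,[(7,8)])],[])],[7,4,3],false,3,3,[6]),
    (false,[([(0,11,[(6,8)]),(0,1,[(4,6)])],[4]),([(0,3,[(7,8)])],[3,1,1,1])],[],false,1,0,[3]),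
    (true,[([(0,11,[(6,8)]),(0,1,[(4,6)])],[]),([(0,3,[(7,8)]),(0,2,[(2,3)])],[2,2])],[3],false,1,0,[2]),
    (true,[([(0,0,[(6,8),(2,2)]),(0,2,[(2,3)])],[1]),([(0,3,[(7,8)]),(0,1,[(4,6)])],[2])],[2],false,1,0,[]),
    (true,[([(0,13,[(9,11)])],[2,1,1])],[7,6,2,2],false,3,4,[6,8,9]),
    (false,[([(0,13,[(9,11)])],[4,4,2,2]),([(0,1,[(4,6)])],[3])],[],false,1,0,[2,4,5,6]),
    (true,[([(0,13,[(9,11)]),(0,2,[(2,2)])],[1]),([(0,1,[(4,6)])],[3,2,2,2])],[2],false,1,0,[2]),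
    (true,[([(0,7,[(9,11),(2,2),(2,2)])],[1,1]),([(0,1,[(4,6)])],[3,2,2,2])],[],false,1,0,[2]),
    (true,[([(0,7,[(9,11),(2,2),(2,2)])],[2,2]),([(0,1,[(4,6)]),(0,2,[(2,2)])],[3,1])],[],false,1,0,[2]),
    (true,[([(0,7,[(9,11),(2,2),(2,2)])],[2,2]),([(0,1,[(4,6)]),(1,0,[(2,2),(2,2)])],[1])],[],false,1,0,[2]),
    (true,[([(0,7,[(9,11),(2,2),(2,2)])],[2,2]),([(0,1,[(4,6)]),(1,0,[(2,2),(2,2),(2,2)])],[1])],[],false,1,0,[]),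
    (true,[([(0,7,[(9,11),(3,4)])],[1,1]),([(0,1,[(4,6)])],[3,2,2,2])],[],false,1,0,[2,3,4]),
    (true,[([(0,7,[(9,11),(3,4)])],[2,2]),([(0,1,[(4,6)]),(0,2,[(2,2)])],[3,1])],[],false,1,0,[2]),
    (true,[([(0,7,[(9,11),(3,4)])],[2,2]),([(0,1,[(4,6)]),(1,0,[(2,2),(2,2)])],[1])],[],false,1,0,[2]),
    (true,[([(0,7,[(9,11),(3,4)])],[2,2]),([(0,1,[(4,6)]),(1,0,[(2,2),(2,2),(2,2)])],[1])],[],false,1,0,[]),
    (true,[([(0,7,[(9,11),(3,4)])],[2,2]),([(0,1,[(4,6)]),(0,2,[(3,3)])],[3,1])],[],false,1,0,[2]),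
    (true,[([(0,7,[(9,11),(3,4)])],[2,2]),([(0,1,[(4,6)]),(0,6,[(3,3),(2,2)])],[2])],[],false,1,0,[]),
    (true,[([(0,7,[(9,11),(3,4)]),(0,8,[(4,4)])],[]),([(0,1,[(4,6)])],[3,2,1,1])],[],false,1,0,[]),
    (true,[([(0,13,[(9,11)])],[2,2,2]),([(0,1,[(4,6)]),(0,6,[(5,5)])],[2])],[2],false,1,0,[2]),
    (true,[([(0,13,[(9,11)])],[4,2,2]),([(0,1,[(4,6)]),(0,14,[(5,5),(2,2)])],[])],[],false,1,0,[]),
    (true,[([(0,13,[(9,11)])],[2,2,2]),([(0,1,[(4,6)]),(0,1,[(6,6)])],[1])],[2],false,1,0,[]),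
    (true,[([(0,9,[(9,11),(7,8)])],[2])],[7,4],false,2,2,[3]),
    (true,[([(0,9,[(9,11),(7,8)])],[2]),([(0,2,[(3,3)])],[2,2,2,1,1])],[],false,1,0,[]),
    (false,[([(0,21,[(9,11),(9,9)])],[6,2])],[3],false,1,0,[]),
    (true,[([(0,7,[(12,15)])],[1,1])],[7,6,2],false,3,2,[6]),
    (true,[([(0,7,[(12,15)])],[1,1]),([(0,1,[(4,6)])],[3,2,2,2])],[],false,1,0,[3]),
    (true,[([(0,7,[(12,15)])],[2,2]),([(0,1,[(4,6)]),(0,2,[(2,3)])],[3,1])],[],false,1,0,[2]),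
    (true,[([(0,7,[(12,15)])],[2,2]),([(0,1,[(4,6)]),(1,0,[(2,3),(2,2)])],[1])],[],false,1,0,[]),
    (false,[([(0,23,[(16,17)])],[4,2,1])],[5,3],false,2,1,[])]),
  ([8,7,5,5,4,2,1], [
    (false,[],[8,7,5,5,4,2,1],true,5,4,[8,11,15,17]),
    (false,[([(0,11,[(6,8)])],[3,2,1])],[8,5,5],false,1,0,[3,4,6,8]),
    (false,[([(0,11,[(6,8)]),(0,2,[(2,3)])],[3])],[8,5,5],false,1,0,[2,3]),
    (true,[([(0,0,[(6,8),(2,2)]),(0,2,[(2,3)])],[])],[7,5,5,2],false,2,9,[]),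
    (false,[([(0,11,[(6,8)]),(0,1,[(2,3),(3,3)])],[2])],[7,5,4],false,3,4,[]),
    (true,[([(0,11,[(6,8)]),(0,8,[(4,4)])],[3])],[6,5,4,2],false,4,2,[]),
    (false,[([(0,11,[(6,8)]),(0,1,[(5,6)])],[2])],[7,5,4],false,3,4,[4,5,6]),
    (true,[([(0,11,[(6,8)]),(0,1,[(5,6)])],[]),([(0,8,[(4,4)])],[1,1,1])],[6,5],false,2,4,[3,4]),
    (true,[([(0,11,[(6,8)]),(0,1,[(5,6)])],[]),([(0,8,[(4,4)]),(0,2,[(3,3)])],[2,2])],[5,2],false,2,2,[3]),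
    (true,[([(0,7,[(6,8),(4,4),(3,3)])],[3]),([(0,1,[(5,6)]),(0,2,[(3,3)])],[3,2])],[],false,1,0,[]),
    (true,[([(0,11,[(6,8)]),(0,1,[(5,6)])],[]),([(0,8,[(4,4)]),(0,8,[(4,4)])],[2])],[6,2],false,2,1,[]),
    (false,[([(0,11,[(6,8)]),(0,1,[(5,6)])],[]),([(0,6,[(5,5)])],[3,3,3,3,1])],[],false,1,0,[2,3,4]),
    (true,[([(0,7,[(6,8),(5,5),(2,2)])],[3]),([(0,1,[(5,6)])],[3,2,2,1])],[],false,1,0,[2]),
    (true,[([(0,7,[(6,8),(5,5),(2,2)])],[3]),([(0,1,[(5,6)]),(0,2,[(2,2)])],[3,2])],[],false,1,0,[2]),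
    (true,[([(0,7,[(6,8),(5,5),(2,2)])],[3]),([(0,1,[(5,6)]),(1,0,[(2,2),(2,2)])],[2])],[],false,1,0,[]),
    (false,[([(0,11,[(6,8)])],[3,3,3]),([(0,1,[(5,6)]),(0,1,[(5,5)]),(0,2,[(3,3)])],[])],[],false,1,0,[2]),
    (true,[([(0,7,[(6,8),(5,5),(2,2)])],[3]),([(0,1,[(5,6)]),(0,2,[(3,3)])],[3,2])],[],false,1,0,[]),
    (true,[([(0,11,[(6,8)]),(0,1,[(5,6)])],[]),([(0,1,[(5,5)]),(0,8,[(4,4)])],[3])],[5],false,1,0,[]),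
    (true,[([(0,10,[(6,8),(6,6)])],[]),([(0,1,[(5,6)])],[3,3,3,3])],[],false,1,0,[3]),
    (true,[([(0,10,[(6,8),(6,6)]),(0,2,[(2,3)])],[]),([(0,1,[(5,6)])],[3,3,3])],[],false,1,0,[2]),
    (true,[([(0,7,[(6,8),(6,6)])],[3]),([(0,1,[(5,6)]),(1,0,[(2,3),(2,2)])],[2])],[],false,1,0,[]),
    (false,[([(0,11,[(6,8)])],[3,2,2]),([(0,3,[(7,8)])],[3,3,1,1,1])],[],false,1,0,[3,5,6]),
    (false,[([(0,11,[(6,8)]),(0,2,[(2,3)])],[3,2]),([(0,3,[(7,8)])],[3,3,1,1])],[],false,1,0,[3]),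
    (true,[([(0,11,[(6,8)]),(0,2,[(2,3)])],[3]),([(0,3,[(7,8)]),(0,2,[(2,3)])],[2])],[5],false,1,0,[2,3]),
    (true,[([(0,0,[(6,8),(2,2)]),(0,3,[(7,8)])],[]),([(0,2,[(2,3)]),(0,2,[(2,3)])],[1])],[5,2],false,2,2,[]),
    (false,[([(0,11,[(6,8)]),(0,13,[(7,8),(3,3)])],[]),([(0,2,[(2,3)]),(0,2,[(2,3)])],[2,2,2])],[1],false,1,0,[2]),
    (false,[([(0,11,[(6,8)]),(0,13,[(7,8),(3,3)])],[]),([(1,0,[(2,3),(2,2)]),(0,2,[(2,3)])],[2,2])],[],false,1,0,[]),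
    (false,[([(0,11,[(6,8)])],[3,2,2]),([(0,3,[(7,8)]),(0,6,[(4,5)])],[3,1])],[],false,1,0,[3]),
    (false,[([(0,11,[(6,8)]),(0,2,[(2,3)])],[3,2]),([(0,3,[(7,8)]),(0,6,[(4,5)])],[3])],[],false,1,0,[2]),
    (false,[([(0,0,[(6,8),(2,2)]),(0,6,[(4,5)])],[3]),([(0,3,[(7,8)]),(0,2,[(2,3)])],[2,1])],[],false,1,0,[]),
    (false,[([(0,10,[(6,8),(6,6)]),(0,3,[(7,8)])],[])],[5,5],false,1,0,[]),
    (true,[([(0,13,[(9,11)])],[3,2])],[7,5,2,2],false,3,4,[6,8,9]),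
    (false,[([(0,13,[(9,11)]),(0,1,[(4,6)])],[])],[8,5,2],false,3,2,[6]),
    (false,[([(0,13,[(9,11)]),(0,1,[(4,6)])],[]),([(0,1,[(4,6)])],[3,2,2,1,1])],[],false,1,0,[3]),
    (false,[([(0,13,[(9,11)]),(0,1,[(4,6)])],[]),([(0,1,[(4,6)]),(0,2,[(2,3)])],[3,2,1])],[],false,1,0,[2]),
    (false,[([(0,13,[(9,11)]),(0,1,[(4,6)])],[]),([(0,1,[(4,6)]),(1,0,[(2,3),(2,2)])],[2,1])],[],false,1,0,[]),
    (false,[([(0,13,[(9,11)]),(0,11,[(7,8)])],[])],[7,5,1],false,3,1,[]),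
    (false,[([(0,21,[(9,11),(9,9)])],[4,2])],[5],false,1,0,[]),
    (true,[([(0,7,[(12,15)])],[3])],[7,5,2],false,3,2,[6]),
    (true,[([(0,7,[(12,15)])],[3]),([(0,1,[(4,6)])],[3,2,2,1])],[],false,1,0,[3]),
    (true,[([(0,7,[(12,15)])],[3]),([(0,1,[(4,6)]),(0,2,[(2,3)])],[3,2])],[],false,1,0,[2]),
    (true,[([(0,7,[(12,15)])],[3]),([(0,1,[(4,6)]),(1,0,[(2,3),(2,2)])],[2])],[],false,1,0,[]),
    (false,[([(0,23,[(16,17)])],[4,4,1])],[5,1],false,2,1,[])]),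
  ([8,7,6,4,3,3,1], [
    (false,[],[8,7,6,4,3,3,1],false,5,5,[8,11,15,17]),
    (false,[([(0,11,[(6,8)])],[3,3])],[8,7,3],false,1,0,[2,3,4,5,7,8]),
    (true,[([(0,0,[(6,8),(2,2)])],[])],[7,6,6,3],false,2,10,[]),
    (true,[([(0,11,[(6,8)]),(0,2,[(3,3)])],[3])],[6,6,3,3],false,1,0,[2,3]),
    (true,[([(0,0,[(6,8),(2,2)]),(0,2,[(3,3)])],[])],[7,6,3,3],false,2,8,[]),
    (true,[([(0,11,[(6,8)]),(0,1,[(3,3),(3,3)])],[])],[6,6,3,3],false,1,0,[2,3]),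
    (false,[([(0,0,[(6,8),(2,2)]),(0,1,[(3,3),(3,3)])],[2])],[7,4,3],false,2,6,[]),
    (true,[([(0,11,[(6,8)])],[3,1]),([(1,1,[(3,3),(3,3),(3,3)])],[4,4,2])],[],false,1,0,[2,3]),
    (true,[([(0,0,[(6,8),(2,2)]),(0,2,[(3,3)])],[]),([(0,2,[(3,3)]),(0,2,[(3,3)])],[2,1])],[7,3],true,2,4,[]),
    (true,[([(0,11,[(6,8)]),(0,1,[(3,3),(3,3)])],[]),([(0,2,[(3,3)]),(0,2,[(3,3)])],[2,1])],[6,3],false,2,3,[3]),
    (true,[([(0,11,[(6,8)]),(0,1,[(3,3),(3,3)])],[]),([(0,2,[(3,3)]),(0,2,[(3,3)]),(0,2,[(3,3)])],[])],[6,3],false,2,1,[]),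
    (true,[([(0,12,[(6,8),(4,4)])],[4])],[7,6,3],false,2,8,[3,4]),
    (true,[([(0,7,[(6,8),(4,4),(3,3)])],[1])],[7,6,3],false,3,3,[]),
    (false,[([(0,12,[(6,8),(4,4)])],[4,4,2]),([(0,8,[(4,4)])],[2,1,1,1,1])],[],false,1,0,[3,4]),
    (true,[([(0,11,[(6,8)]),(0,6,[(4,4)])],[]),([(0,8,[(4,4)]),(0,2,[(2,3)])],[1,1])],[6,4],false,2,4,[3]),
    (false,[([(0,7,[(6,8),(4,4),(3,3)]),(0,8,[(4,4)])],[4]),([(0,2,[(2,3)])],[2,2,1,1])],[],false,1,0,[3]),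
    (false,[([(0,7,[(6,8),(4,4),(3,3)]),(0,8,[(4,4)])],[4]),([(0,2,[(2,3)]),(0,2,[(2,3)])],[2,1])],[],false,1,0,[2]),
    (false,[([(0,7,[(6,8),(4,4),(3,3)]),(0,8,[(4,4)])],[4]),([(0,2,[(2,3)]),(0,2,[(2,3)]),(0,2,[(2,2)])],[])],[],false,1,0,[]),
    (true,[([(0,11,[(6,8)])],[3,1]),([(0,8,[(4,4)]),(0,8,[(4,4)]),(0,8,[(4,4)])],[1])],[4,3],false,2,2,[3]),
    (false,[([(0,7,[(6,8),(4,4),(3,3)]),(0,8,[(4,4)])],[4]),([(0,8,[(4,4)])],[2,1,1,1])],[],false,1,0,[]),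
    (false,[([(0,11,[(6,8)]),(0,6,[(5,5)])],[3])],[7,6,3],false,3,3,[4,5]),
    (true,[([(0,11,[(6,8)]),(0,6,[(5,5)])],[]),([(0,8,[(4,4)])],[2,1,1,1])],[6,4],false,2,4,[3,4]),
    (true,[([(0,11,[(6,8)]),(0,6,[(5,5)])],[]),([(0,8,[(4,4)]),(0,2,[(3,3)])],[1,1])],[6,4],false,2,2,[3]),
    (true,[([(0,7,[(6,8),(4,4),(3,3)])],[4,2]),([(0,6,[(5,5)]),(0,2,[(3,3)])],[3])],[],false,1,0,[]),
    (true,[([(0,21,[(6,8),(5,5),(4,4),(4,4)])],[2])],[6,3],false,2,1,[]),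
    (true,[([(0,11,[(6,8)])],[3,1]),([(0,0,[(5,5),(5,5)])],[4,4,2])],[],false,1,0,[2,3,4]),
    (true,[([(0,7,[(6,8),(5,5),(2,2)])],[2,2]),([(0,6,[(5,5)])],[3,3,2])],[],false,1,0,[2]),
    (true,[([(0,7,[(6,8),(5,5),(2,2)])],[4,2]),([(0,6,[(5,5)]),(0,2,[(2,2)])],[3])],[],false,1,0,[2]),
    (true,[([(0,7,[(6,8),(5,5),(2,2)])],[4,2]),([(0,6,[(5,5)]),(1,0,[(2,2),(2,2)])],[])],[],false,1,0,[]),
    (true,[([(0,21,[(6,8),(5,5),(5,5),(3,3)])],[2])],[6,3],false,2,1,[]),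
    (true,[([(0,11,[(6,8)])],[3,3]),([(0,0,[(5,5),(5,5)]),(0,8,[(4,4)])],[4])],[],false,1,0,[]),
    (true,[([(0,7,[(6,8),(6,7)])],[1])],[7,6,3],false,3,3,[5,6,7]),
    (true,[([(0,7,[(6,8),(6,7)])],[2,2]),([(0,6,[(4,5)])],[3,3,2])],[],false,1,0,[2,3,4]),
    (true,[([(0,7,[(6,8),(6,7)])],[4,2]),([(0,6,[(4,5)]),(0,2,[(2,2)])],[3])],[],false,1,0,[2]),
    (true,[([(0,7,[(6,8),(6,7)])],[4,2]),([(0,6,[(4,5)]),(1,0,[(2,2),(2,2)])],[])],[],false,1,0,[2]),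
    (true,[([(0,7,[(6,8),(6,7)])],[4,2]),([(0,6,[(4,5)]),(1,0,[(2,2),(2,2),(2,2)])],[])],[],false,1,0,[]),
    (true,[([(0,7,[(6,8),(6,7)])],[4,2]),([(0,6,[(4,5)]),(0,2,[(3,3)])],[3])],[],false,1,0,[2]),
    (true,[([(0,7,[(6,8),(6,7)])],[4,2]),([(0,6,[(4,5)]),(0,1,[(3,3),(2,2)])],[])],[],false,1,0,[]),
    (true,[([(0,7,[(6,8),(6,7)]),(0,8,[(4,4)])],[]),([(0,6,[(4,5)])],[3,3,2])],[],false,1,0,[]),
    (true,[([(0,21,[(6,8),(6,7),(6,6)])],[2])],[6,3],false,2,1,[]),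
    (true,[([(0,7,[(6,8),(6,7)])],[1]),([(0,3,[(7,7)])],[3,2,2,1])],[],false,1,0,[]),
    (false,[([(0,11,[(6,8)]),(0,3,[(8,8)])],[2])],[7,4,3],false,3,3,[5]),
    (true,[([(0,21,[(6,8),(8,8),(4,5)])],[2])],[6,3],false,2,1,[]),
    (true,[([(0,13,[(9,11)])],[1,1])],[7,6,4,2],false,4,2,[6,8,9]),
    (false,[([(0,13,[(9,11)]),(0,1,[(5,6)])],[2])],[7,3,3],false,2,4,[4,5]),
    (true,[([(0,7,[(9,11),(3,4)])],[1]),([(0,1,[(5,6)])],[3,3,2,2])],[],false,1,0,[3]),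
    (true,[([(0,7,[(9,11),(3,4)])],[5,2]),([(0,1,[(5,6)]),(0,2,[(2,3)])],[1])],[],false,1,0,[2]),
    (false,[([(0,13,[(9,11)]),(0,2,[(2,3)])],[1]),([(0,1,[(5,6)]),(0,1,[(3,4),(2,2)])],[3,2])],[],false,1,0,[]),
    (false,[([(0,13,[(9,11)]),(0,1,[(5,6)])],[2]),([(0,6,[(5,5)])],[3,3,1,1])],[],false,1,0,[]),
    (true,[([(0,9,[(9,11),(7,8)])],[4])],[6,3],false,2,2,[3]),
    (true,[([(0,9,[(9,11),(7,8)])],[4]),([(0,2,[(3,3)])],[2,2,1,1])],[],false,1,0,[]),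
    (false,[([(0,21,[(9,11),(9,9)])],[5,3])],[3],false,1,0,[]),
    (true,[([(0,7,[(12,15)])],[1])],[7,6,3],false,3,3,[5,6]),
    (true,[([(0,7,[(12,15)])],[2,2]),([(0,6,[(4,5)])],[3,3,2])],[],false,1,0,[3]),
    (true,[([(0,7,[(12,15)])],[4,2]),([(0,6,[(4,5)]),(0,2,[(2,3)])],[3])],[],false,1,0,[2]),
    (true,[([(0,7,[(12,15)])],[4,2]),([(0,6,[(4,5)]),(1,0,[(2,3),(2,2)])],[])],[],false,1,0,[]),
    (false,[([(0,21,[(12,15),(6,6)])],[5,3])],[3],false,1,0,[]),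
    (false,[([(0,23,[(16,17)])],[5,1])],[8,1],false,2,1,[])])]

theorem cj6d_0_ok : runAllJ S39 R39 F39 16 cj6d_0 = true := by decide +kernel

noncomputable def cj6d_1 : List (List ℕ × List NdJ) := [
  ([8,7,6,4,4,2,1], [
    (false,[],[8,7,6,4,4,2,1],false,4,8,[6,10,15,17]),
    (false,[([(0,1,[(5,6)])],[1])],[8,7,6,4],false,4,4,[6]),
    (false,[([(0,1,[(5,6)]),(0,1,[(5,6)])],[1])],[8,6,4,1],true,4,2,[6]),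
    (true,[([(0,1,[(5,6)]),(0,1,[(5,6)])],[3]),([(0,1,[(5,6)])],[])],[6,5],false,2,4,[4,5]),
    (false,[([(0,0,[(5,6),(3,4)]),(0,1,[(5,6)])],[3]),([(0,1,[(5,6)])],[3,2,1,1])],[],false,1,0,[3]),
    (false,[([(0,0,[(5,6),(3,4)]),(0,1,[(5,6)])],[3]),([(0,1,[(5,6)]),(0,2,[(2,3)])],[3,1])],[],false,1,0,[2]),
    (false,[([(0,0,[(5,6),(3,4)]),(0,1,[(5,6)])],[3]),([(0,1,[(5,6)]),(1,0,[(2,3),(2,2)])],[1])],[],false,1,0,[]),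
    (false,[([(0,1,[(5,6)]),(0,1,[(5,6)])],[3,3]),([(0,1,[(5,6)]),(0,6,[(5,5)])],[2])],[1],false,1,0,[]),
    (true,[([(0,0,[(7,10)])],[1])],[7,6,5,3],false,4,3,[6,10]),
    (true,[([(0,0,[(7,10)]),(0,1,[(5,6)])],[])],[6,5,3,2],false,4,2,[6]),
    (false,[([(0,0,[(7,10)]),(0,1,[(5,6)])],[3]),([(0,1,[(5,6)])],[3,2,1,1])],[],false,1,0,[3]),
    (false,[([(0,0,[(7,10)]),(0,1,[(5,6)])],[3]),([(0,1,[(5,6)]),(0,2,[(2,3)])],[3,1])],[],false,1,0,[2]),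
    (false,[([(0,0,[(7,10)]),(0,1,[(5,6)])],[3]),([(0,1,[(5,6)]),(1,0,[(2,3),(2,2)])],[1])],[],false,1,0,[]),
    (false,[([(0,0,[(7,10)]),(0,0,[(7,10)])],[])],[7,4,1],true,3,3,[5]),
    (false,[([(0,0,[(7,10)]),(0,0,[(7,10)])],[]),([(0,6,[(4,5)])],[2,2,2,1])],[],false,1,0,[2]),
    (false,[([(0,0,[(7,10)]),(0,0,[(7,10)])],[]),([(0,6,[(4,5)]),(0,2,[(2,2)])],[2,2])],[],false,1,0,[]),
    (true,[([(0,7,[(11,15)])],[2])],[7,5,3],false,3,3,[6,7]),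
    (false,[([(0,7,[(11,15)]),(0,1,[(4,6)])],[])],[7,4],false,2,3,[3,4]),
    (false,[([(0,7,[(11,15)]),(0,1,[(4,6)])],[]),([(0,2,[(3,3)])],[2,2,2,1,1])],[],false,1,0,[2]),
    (true,[([(0,7,[(11,15)])],[2]),([(0,1,[(4,6)]),(0,1,[(3,3),(2,2)])],[3])],[],false,1,0,[]),
    (false,[([(0,7,[(11,15)]),(0,1,[(4,6)])],[]),([(0,8,[(4,4)])],[2,2,1,1,1])],[],false,1,0,[]),
    (true,[([(0,7,[(11,15)])],[2]),([(0,3,[(7,7)])],[3,2,1,1])],[],false,1,0,[]),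
    (false,[([(0,15,[(16,17)])],[4,3,2])],[4,2],false,2,1,[])]),
  ([8,7,6,5,4,1,1], [
    (false,[],[8,7,6,5,4,1,1],false,5,5,[6,8,11,14,17]),
    (true,[([(0,1,[(6,6)])],[1,1])],[7,5,5,4,3],false,4,3,[6]),
    (true,[([(0,1,[(6,6)]),(0,1,[(5,6)])],[2])],[5,5,4,3,1],true,4,2,[6]),
    (true,[([(0,1,[(6,6)]),(0,1,[(5,6)])],[2]),([(0,1,[(5,6)])],[2,1])],[5,4],false,2,3,[4]),
    (false,[([(0,0,[(6,6),(3,4)]),(0,1,[(5,6)])],[3]),([(0,1,[(5,6)])],[2,2,2,1])],[],false,1,0,[2]),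
    (false,[([(0,0,[(6,6),(3,4)]),(0,1,[(5,6)])],[3]),([(0,1,[(5,6)]),(0,2,[(2,2)])],[2,2])],[],false,1,0,[]),
    (true,[([(0,3,[(7,8)])],[2,2])],[7,5,4,3,1],true,5,2,[8]),
    (false,[([(0,3,[(7,8)]),(0,11,[(6,8)])],[3])],[7,5,1],true,3,2,[6]),
    (false,[([(0,3,[(7,8)]),(0,11,[(6,8)])],[3]),([(0,1,[(4,6)])],[2,2,2,1])],[],false,1,0,[3]),
    (false,[([(0,3,[(7,8)]),(0,11,[(6,8)])],[3]),([(0,1,[(4,6)]),(0,2,[(2,3)])],[2,2])],[],false,1,0,[2]),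
    (false,[([(0,3,[(7,8)]),(0,0,[(6,8),(2,2)])],[]),([(0,1,[(4,6)]),(0,2,[(2,3)])],[2,2,1])],[],false,1,0,[]),
    (false,[([(0,13,[(9,11)])],[3,2])],[8,7,1],false,2,8,[3,6,8,9]),
    (false,[([(0,13,[(9,11)]),(0,2,[(3,3)])],[3,3])],[7,4,1],true,3,3,[]),
    (false,[([(0,13,[(9,11)]),(0,1,[(4,6)])],[])],[8,6,1],true,3,2,[6]),
    (false,[([(0,13,[(9,11)]),(0,1,[(4,6)])],[]),([(0,1,[(4,6)])],[2,2,2,2,1])],[],false,1,0,[3]),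
    (false,[([(0,13,[(9,11)]),(0,1,[(4,6)])],[]),([(0,1,[(4,6)]),(0,2,[(2,3)])],[2,2,2])],[],false,1,0,[2]),
    (false,[([(0,13,[(9,11)]),(0,1,[(4,6)])],[3]),([(0,1,[(4,6)]),(0,2,[(2,3)]),(0,2,[(2,2)])],[])],[],false,1,0,[]),
    (false,[([(0,13,[(9,11)]),(0,3,[(7,8)])],[])],[8,4,1],false,3,1,[]),
    (false,[([(0,21,[(9,11),(9,9)])],[5,5])],[1],false,1,0,[]),
    (true,[([(0,7,[(12,14)])],[])],[7,5,5],false,2,5,[3,4,5,6]),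
    (true,[([(0,15,[(12,14),(3,3)])],[3,1])],[5,4,2],false,3,2,[]),
    (true,[([(0,10,[(12,14)])],[3,1]),([(0,8,[(4,4)])],[2,2,1])],[5],false,1,0,[3]),
    (false,[([(0,21,[(12,14),(4,4),(2,3)])],[5,5])],[1],false,1,0,[2]),
    (true,[([(0,7,[(12,14)]),(0,2,[(2,3)])],[]),([(0,8,[(4,4)]),(0,2,[(2,2)])],[2])],[5],false,1,0,[]),
    (true,[([(0,24,[(12,14),(5,5)])],[5])],[5,3],false,2,1,[]),
    (false,[([(0,21,[(12,14),(6,6)])],[5,5])],[1],false,1,0,[]),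
    (true,[([(0,15,[(15,17)])],[3,1])],[5,4,2],false,3,2,[])]),
  ([8,7,6,5,4,2], [
    (false,[],[8,7,6,5,4,2],false,5,5,[6,10,13,17]),
    (true,[([(0,1,[(6,6)])],[1,1])],[6,6,5,4,3],false,4,3,[6]),
    (false,[([(0,1,[(6,6)]),(0,1,[(5,6)])],[])],[8,7,5],false,3,5,[6]),
    (true,[([(0,1,[(6,6)]),(0,1,[(5,6)])],[]),([(0,1,[(4,6)])],[2,1])],[6,5],false,2,4,[3,5]),
    (true,[([(0,1,[(6,6)]),(0,1,[(5,6)])],[]),([(0,1,[(4,6)]),(0,2,[(3,3)])],[])],[6,5],false,2,2,[3]),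
    (false,[([(0,1,[(6,6)]),(0,1,[(5,6)])],[2]),([(0,1,[(4,6)]),(0,1,[(3,3),(3,3)])],[3,3])],[],false,1,0,[]),
    (true,[([(0,13,[(6,6),(4,5)])],[2,2]),([(0,1,[(5,6)]),(0,1,[(4,6)])],[])],[5],false,1,0,[2]),
    (false,[([(0,3,[(6,6),(2,2)]),(0,1,[(5,6)])],[3]),([(0,1,[(4,6)]),(0,6,[(4,5)])],[2,2])],[],false,1,0,[]),
    (true,[([(0,0,[(7,10)])],[])],[6,6,5,5],false,2,10,[3,4,5,6,8,10]),
    (true,[([(0,0,[(7,10)]),(0,2,[(3,3)])],[])],[6,5,5,3],false,2,8,[3]),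
    (false,[([(0,0,[(7,10)]),(0,1,[(3,3),(3,3)])],[4])],[7,5],false,1,0,[2,3]),
    (false,[([(0,0,[(7,10)]),(1,1,[(3,3),(3,3),(2,2)])],[])],[7,5],false,2,5,[]),
    (false,[([(0,0,[(7,10)]),(1,1,[(3,3),(3,3),(3,3)])],[])],[7,5],false,2,4,[3]),
    (false,[([(0,0,[(7,10)]),(1,1,[(3,3),(3,3),(3,3)])],[]),([(0,2,[(3,3)])],[2,2,2,2,1])],[],false,1,0,[2,3]),
    (false,[([(0,0,[(7,10)]),(1,1,[(3,3),(3,3),(3,3)])],[]),([(0,2,[(3,3)]),(0,2,[(2,2)])],[2,2,2])],[],false,1,0,[2]),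
    (false,[([(0,0,[(7,10)]),(1,1,[(3,3),(3,3),(2,2),(2,2)])],[]),([(0,2,[(3,3)]),(0,2,[(3,3)])],[2,2,2])],[],false,1,0,[]),
    (false,[([(0,0,[(7,10)]),(1,1,[(3,3),(3,3),(3,3)])],[]),([(0,2,[(3,3)]),(0,2,[(3,3)])],[2,2,2])],[],false,1,0,[]),
    (true,[([(0,0,[(7,10)]),(0,8,[(4,4)])],[])],[6,5,4,3],false,4,3,[]),
    (true,[([(0,7,[(7,10),(5,5)])],[2])],[6,5,4],false,3,4,[5]),
    (false,[([(0,0,[(7,10)]),(0,0,[(5,5),(4,5)])],[])],[7,5],false,2,3,[3,4]),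
    (false,[([(0,0,[(7,10)]),(0,0,[(5,5),(4,5)])],[]),([(0,2,[(3,3)])],[2,2,2,2,1])],[],false,1,0,[2]),
    (false,[([(0,0,[(7,10)]),(0,0,[(5,5),(4,5)])],[]),([(0,2,[(3,3)]),(0,2,[(2,2)])],[2,2,2])],[],false,1,0,[]),
    (true,[([(0,7,[(7,10),(5,5)])],[4]),([(0,1,[(4,5)]),(0,8,[(4,4)])],[3])],[],false,1,0,[]),
    (false,[([(0,0,[(7,10)]),(0,1,[(6,6)])],[4])],[7,5],false,2,5,[4,6]),
    (false,[([(0,0,[(7,10)]),(0,0,[(6,6),(3,4)])],[])],[7,5],false,2,3,[3,4]),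
    (false,[([(0,0,[(7,10)]),(0,0,[(6,6),(3,4)])],[]),([(0,2,[(3,3)])],[2,2,2,2,1])],[],false,1,0,[2]),
    (false,[([(0,0,[(7,10)]),(0,0,[(6,6),(3,4)])],[]),([(0,2,[(3,3)]),(0,2,[(2,2)])],[2,2,2])],[],false,1,0,[]),
    (false,[([(0,0,[(7,10)]),(0,0,[(6,6),(3,4)])],[]),([(0,8,[(4,4)])],[2,2,2,1,1])],[],false,1,0,[]),
    (true,[([(0,0,[(7,10)])],[3,2]),([(0,1,[(6,6)]),(0,1,[(5,6)])],[])],[5],false,1,0,[2]),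
    (true,[([(0,0,[(7,10)])],[2]),([(0,3,[(6,6),(2,2)]),(0,1,[(5,6)])],[])],[6],false,1,0,[]),
    (false,[([(0,0,[(7,10)]),(0,3,[(7,8)])],[4])],[6,4],false,2,4,[3,5]),
    (false,[([(0,0,[(7,10)]),(0,13,[(7,8),(3,3)])],[])],[7,4],false,2,2,[3]),
    (false,[([(0,0,[(7,10)]),(0,13,[(7,8),(3,3)])],[]),([(0,2,[(3,3)])],[2,2,2,1,1])],[],false,1,0,[]),
    (true,[([(0,0,[(7,10)])],[2,2]),([(0,3,[(7,8)]),(0,6,[(4,5)])],[])],[5],false,1,0,[2]),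
    (true,[([(0,0,[(7,10)]),(0,2,[(2,2)])],[]),([(0,3,[(7,8)]),(0,1,[(4,5)])],[])],[5],false,1,0,[]),
    (false,[([(0,0,[(7,10)]),(0,0,[(9,10)])],[])],[7,5],false,2,2,[3]),
    (true,[([(0,0,[(7,10)])],[1]),([(0,5,[(9,10),(3,3)])],[4,4])],[],false,1,0,[]),
    (true,[([(0,5,[(11,13)])],[2])],[6,6,4,1],true,3,4,[6,7]),
    (false,[([(0,5,[(11,13)]),(0,1,[(4,6)])],[])],[8,5],false,2,3,[3,4]),
    (false,[([(0,5,[(11,13)]),(0,1,[(4,6)])],[]),([(0,2,[(3,3)])],[2,2,2,2,1,1])],[],false,1,0,[2]),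
    (false,[([(0,5,[(11,13)]),(0,1,[(4,6)])],[]),([(0,2,[(3,3)]),(0,2,[(2,2)])],[2,2,2,1])],[],false,1,0,[]),
    (true,[([(0,15,[(11,13),(4,4)])],[2]),([(0,1,[(4,6)])],[3,2,2])],[],false,1,0,[]),
    (false,[([(0,21,[(11,13),(7,7)])],[6,5])],[],false,1,0,[]),
    (true,[([(0,15,[(14,17)])],[2])],[6,5,2],false,3,2,[4]),
    (false,[([(0,21,[(14,17),(4,4)])],[6,5])],[],false,1,0,[])]),
  ([8,7,6,5,4,3], [
    (false,[],[8,7,6,5,4,3],false,6,3,[8,10,13,17]),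
    (true,[([(0,3,[(7,8)])],[2,2,1])],[6,6,4,3,1],true,4,3,[6,8]),
    (true,[([(0,3,[(7,8)]),(0,1,[(5,6)])],[])],[6,6,4,2,1],true,4,4,[6]),
    (true,[([(0,3,[(7,8)]),(0,1,[(5,6)])],[]),([(0,1,[(5,6)])],[1,1,1])],[6,4],false,2,2,[3]),
    (true,[([(0,3,[(7,8)])],[2,2,2]),([(0,7,[(5,6),(5,6),(3,3)])],[4])],[],false,1,0,[]),
    (true,[([(0,3,[(7,8)]),(0,3,[(7,8)])],[])],[6,5,3,2,1],false,5,1,[]),
    (true,[([(0,0,[(9,10)])],[1,1])],[6,6,5,4],false,3,4,[4,5,7,9]),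
    (true,[([(0,0,[(9,10)]),(0,8,[(4,4)])],[])],[6,6,4,3],false,3,3,[4]),
    (true,[([(0,0,[(9,10)]),(0,8,[(4,4)])],[]),([(0,8,[(4,4)])],[2,1,1,1])],[6,4],false,2,2,[3]),
    (false,[([(0,21,[(9,10),(4,4),(4,4),(3,3)])],[6,6])],[],false,1,0,[]),
    (true,[([(0,7,[(9,10),(5,5)])],[1])],[6,6,5],false,2,4,[3,4,5]),
    (false,[([(0,5,[(9,10),(3,3)]),(0,6,[(5,5)])],[4])],[7,4],false,2,2,[3]),
    (false,[([(0,21,[(9,10),(5,5),(3,3),(3,3)])],[6,6])],[],false,1,0,[]),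
    (false,[([(0,21,[(9,10),(5,5),(4,4)])],[6,6])],[],false,1,0,[2]),
    (false,[([(0,21,[(9,10),(5,5),(4,4),(2,2)])],[6,6])],[],false,1,0,[]),
    (false,[([(0,21,[(9,10),(5,5),(5,5)])],[6,6])],[],false,1,0,[]),
    (true,[([(0,15,[(9,10),(6,7)])],[2])],[6,6,2],true,2,3,[3,4]),
    (false,[([(0,5,[(9,10),(3,3)]),(0,14,[(6,7)])],[])],[7,6],false,2,1,[]),
    (false,[([(0,21,[(9,10),(6,7),(4,4)])],[6,6])],[],false,1,0,[]),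
    (false,[([(0,21,[(9,10),(8,9)])],[6,6])],[],false,1,0,[2]),
    (false,[([(0,21,[(9,10),(8,9),(2,2)])],[6,6])],[],false,1,0,[]),
    (true,[([(0,5,[(11,13)])],[3,3])],[6,4,3,1],true,4,2,[6,7]),
    (false,[([(0,5,[(11,13)]),(0,1,[(5,6)])],[4])],[6,4],false,2,2,[3]),
    (false,[([(0,5,[(11,13)]),(0,0,[(5,6),(3,3)])],[])],[6,4],false,1,0,[]),
    (false,[([(0,21,[(11,13),(7,7)])],[6,6])],[],false,1,0,[]),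
    (true,[([(0,15,[(14,17)])],[2])],[6,6,2],true,2,3,[3,4]),
    (false,[([(0,21,[(14,17),(3,3)])],[6,6])],[],false,1,0,[2]),
    (true,[([(0,15,[(14,17)])],[2]),([(0,2,[(3,3)]),(0,2,[(2,2)])],[1,1])],[6],false,1,0,[]),
    (false,[([(0,21,[(14,17),(4,4)])],[6,6])],[],false,1,0,[])]),
  ([8,7,6,5,5,2,1], [
    (false,[],[8,7,6,5,5,2,1],false,4,8,[6,8,11,14,17]),
    (false,[([(0,1,[(5,6)])],[1,1])],[8,7,6,5],false,4,5,[6]),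
    (false,[([(0,1,[(5,6)]),(0,1,[(5,6)])],[2])],[8,6,5,1],false,3,6,[5,6]),
    (true,[([(0,1,[(5,6)]),(0,1,[(5,6)])],[2]),([(0,6,[(4,5)])],[2,2])],[6,5],false,2,5,[3,4,5]),
    (true,[([(0,1,[(5,6)]),(0,1,[(5,6)])],[3]),([(0,6,[(4,5)]),(0,2,[(3,3)])],[])],[6,5],false,2,3,[3]),
    (false,[([(0,0,[(5,6),(3,3)])],[3,3,3]),([(0,1,[(5,6)]),(0,1,[(4,5)]),(0,2,[(3,3)])],[])],[],false,1,0,[2]),
    (false,[([(0,1,[(5,6)]),(0,1,[(5,6)]),(0,2,[(3,3)])],[]),([(0,0,[(4,5),(3,3),(2,2)])],[3,3,3])],[],false,1,0,[]),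
    (true,[([(0,1,[(5,6)]),(0,1,[(5,6)])],[2]),([(0,6,[(4,5)]),(0,8,[(4,4)])],[])],[6,5],false,2,2,[3]),
    (false,[([(0,0,[(5,6),(4,4)])],[3,3,3]),([(0,1,[(5,6)]),(0,1,[(4,5)]),(0,2,[(3,3)])],[])],[],false,1,0,[]),
    (false,[([(0,1,[(5,6)]),(0,1,[(5,6)])],[2]),([(0,0,[(4,5),(5,5)])],[3,3,3,1])],[],false,1,0,[2]),
    (false,[([(0,1,[(5,6)]),(0,1,[(5,6)]),(0,2,[(2,2)])],[]),([(0,0,[(4,5),(5,5)])],[3,3,3])],[],false,1,0,[]),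
    (true,[([(0,1,[(5,6)]),(0,1,[(5,6)])],[2]),([(0,1,[(6,6)])],[2,1])],[6,5],false,2,3,[4]),
    (true,[([(0,0,[(5,6),(3,4)]),(0,1,[(5,6)])],[]),([(0,1,[(6,6)])],[3,2,2])],[5],false,1,0,[2]),
    (true,[([(0,0,[(5,6),(3,4)]),(0,1,[(5,6)])],[]),([(0,3,[(6,6),(2,2)])],[2,2])],[6],false,1,0,[]),
    (true,[([(0,3,[(7,8)])],[2,2])],[7,6,5,3,1],false,4,4,[6,8]),
    (true,[([(0,3,[(7,8)]),(0,1,[(5,6)])],[])],[7,5,5,2,1],true,4,2,[6]),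
    (true,[([(0,3,[(7,8)]),(0,1,[(5,6)])],[]),([(0,1,[(5,6)])],[1,1])],[7,5],false,2,2,[3]),
    (false,[([(0,3,[(7,8)]),(0,7,[(5,6),(5,6),(3,3)])],[])],[6,5],false,1,0,[]),
    (false,[([(0,3,[(7,8)]),(0,3,[(7,8)])],[3,1])],[6,5,2,1],false,4,1,[5]),
    (false,[([(0,21,[(7,8),(7,8),(5,5)])],[4,4])],[5],false,1,0,[]),
    (true,[([(0,13,[(9,11)])],[3,3])],[7,5,3,2],false,4,2,[6,9]),
    (false,[([(0,13,[(9,11)]),(0,1,[(5,6)])],[3])],[7,5,2],false,3,2,[5]),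
    (false,[([(0,13,[(9,11)]),(0,1,[(5,6)])],[3]),([(0,6,[(4,5)])],[3,2,2,2])],[],false,1,0,[2]),
    (false,[([(0,13,[(9,11)]),(0,1,[(5,6)])],[3]),([(0,1,[(4,5)]),(0,2,[(2,2)])],[3,2])],[],false,1,0,[]),
    (false,[([(0,13,[(9,11)]),(0,0,[(7,9)])],[])],[7,5,1],false,3,1,[]),
    (false,[([(0,10,[(12,14)])],[3,3,3])],[6,5],false,2,5,[3,4,5,6]),
    (true,[([(0,15,[(12,14),(3,3)])],[3])],[7,5,2],false,3,2,[]),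
    (false,[([(0,10,[(12,14)])],[3,3,3]),([(0,8,[(4,4)])],[2,2,2,1])],[],false,1,0,[3]),
    (false,[([(0,21,[(12,14),(4,4),(2,3)])],[4,4])],[5],false,1,0,[2]),
    (true,[([(0,10,[(12,14)])],[3]),([(0,8,[(4,4)]),(0,2,[(2,3)]),(0,2,[(2,2)])],[2])],[5],false,1,0,[]),
    (false,[([(0,22,[(12,14),(5,5)])],[4,4,1])],[5,1],false,2,1,[]),
    (false,[([(0,21,[(12,14),(6,6)])],[4,4])],[5],false,1,0,[]),
    (true,[([(0,15,[(15,17)])],[3])],[7,5,2],false,3,2,[])]),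
  ([8,7,6,6,3,2,1], [
    (false,[],[8,7,6,6,3,2,1],false,4,6,[6,9,11,14,17]),
    (true,[([(0,1,[(5,6)])],[1])],[7,6,5,4,4],false,4,5,[6]),
    (false,[([(0,1,[(5,6)]),(0,1,[(5,6)])],[2,2])],[7,6,3,1],false,3,4,[4,5,6]),
    (false,[([(0,1,[(5,6)]),(0,1,[(5,6)]),(0,8,[(4,4)])],[])],[7,6,3,1],false,4,1,[]),
    (true,[([(0,1,[(5,6)]),(0,1,[(5,6)])],[]),([(0,6,[(5,5)])],[2,2,2,1])],[5,4],false,2,4,[3,4,5]),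
    (false,[([(0,10,[(5,6),(5,5),(3,3)]),(0,1,[(5,6)])],[])],[7,6],false,2,2,[3]),
    (false,[([(0,10,[(5,6),(5,5),(3,3)]),(0,1,[(5,6)])],[]),([(0,2,[(3,3)])],[2,2,2,2,2])],[],false,1,0,[]),
    (true,[([(0,1,[(5,6)]),(0,1,[(5,6)])],[]),([(0,6,[(5,5)]),(0,8,[(4,4)])],[2,1])],[5,4],false,2,1,[]),
    (false,[([(0,1,[(5,6)]),(0,1,[(5,6)])],[2,2]),([(0,0,[(5,5),(5,5)])],[3,2,2])],[],false,1,0,[]),
    (true,[([(0,1,[(5,6)]),(0,1,[(5,6)])],[]),([(0,1,[(6,6)])],[2,2])],[7,4],false,2,3,[4]),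
    (false,[([(0,0,[(5,6),(3,4)]),(0,1,[(5,6)])],[2]),([(0,1,[(6,6)])],[3,2,2,2])],[],false,1,0,[2]),
    (false,[([(0,0,[(5,6),(3,4)]),(0,1,[(5,6)])],[2]),([(0,3,[(6,6),(2,2)])],[2,2,2,1])],[],false,1,0,[]),
    (false,[([(0,0,[(7,9)])],[1,1])],[8,7,6],false,3,6,[4,5,6,8,9]),
    (false,[([(0,0,[(7,9)]),(0,8,[(4,4)])],[2])],[8,6,3],false,3,3,[4]),
    (false,[([(0,0,[(7,9)]),(0,8,[(4,4)]),(0,8,[(4,4)])],[])],[6,6,3],true,2,4,[3,4]),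
    (true,[([(0,0,[(7,9)]),(0,2,[(3,3)])],[]),([(0,8,[(4,4)]),(0,8,[(4,4)])],[])],[7,5],false,2,2,[3]),
    (false,[([(0,7,[(7,9),(3,3),(3,3)]),(0,8,[(4,4)])],[]),([(0,8,[(4,4)])],[2,2,2,2,1,1])],[],false,1,0,[]),
    (true,[([(0,0,[(7,9)]),(0,8,[(4,4)])],[]),([(0,8,[(4,4)]),(0,8,[(4,4)])],[])],[7,4],false,2,1,[]),
    (false,[([(0,10,[(7,9),(5,5)])],[3,2])],[8,6],false,2,6,[3,4,5]),
    (false,[([(0,10,[(7,9),(5,5)]),(0,2,[(3,3)])],[3])],[7,6],false,2,4,[3]),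
    (false,[([(0,10,[(7,9),(5,5)]),(0,1,[(3,3),(3,3)])],[])],[7,6],false,2,2,[3]),
    (false,[([(0,10,[(7,9),(5,5)]),(0,1,[(3,3),(3,3)])],[]),([(0,2,[(3,3)])],[2,2,2,2,2])],[],false,1,0,[]),
    (false,[([(0,10,[(7,9),(5,5)]),(0,1,[(4,4)])],[])],[7,6],false,2,3,[3,4]),
    (false,[([(0,21,[(7,9),(5,5),(4,4),(3,3)])],[3,3])],[6],false,1,0,[2]),
    (false,[([(0,10,[(7,9),(5,5)]),(0,1,[(4,4),(2,2)])],[]),([(0,2,[(3,3)])],[2,2,2,2,2])],[],false,1,0,[]),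
    (false,[([(0,10,[(7,9),(5,5)]),(0,8,[(4,4)])],[3]),([(0,8,[(4,4)])],[2,2,2,2])],[],false,1,0,[]),
    (false,[([(0,10,[(7,9),(5,5)]),(0,1,[(5,5)])],[])],[7,6],false,2,2,[3]),
    (false,[([(0,10,[(7,9),(5,5)]),(0,1,[(5,5)])],[]),([(0,2,[(3,3)])],[2,2,2,2,2])],[],false,1,0,[]),
    (false,[([(0,0,[(7,9)]),(0,1,[(6,6)])],[2])],[7,6,2],false,3,2,[4,6]),
    (false,[([(0,7,[(7,9),(6,6)]),(0,8,[(4,4)])],[])],[8,6],false,2,2,[3]),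
    (false,[([(0,7,[(7,9),(6,6)]),(0,8,[(4,4)])],[]),([(0,2,[(3,3)])],[2,2,2,2,2,1])],[],false,1,0,[]),
    (false,[([(0,21,[(7,9),(6,6),(5,6)])],[3,3])],[6],false,1,0,[2]),
    (true,[([(0,7,[(7,9),(5,6)])],[4,4]),([(0,3,[(6,6),(2,2)])],[2])],[],false,1,0,[]),
    (true,[([(0,0,[(7,9)]),(0,3,[(7,8)])],[])],[5,4,4,2],false,3,2,[5]),
    (true,[([(0,0,[(7,9)]),(0,3,[(7,8)])],[]),([(0,1,[(4,5)])],[3,2])],[4],false,1,0,[2]),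
    (true,[([(0,0,[(7,9)]),(0,2,[(2,2)])],[]),([(0,3,[(7,8)]),(0,6,[(4,5)])],[3])],[4],false,1,0,[]),
    (false,[([(0,0,[(7,9)]),(0,4,[(9,9)])],[3])],[6,3,2],false,3,2,[]),
    (true,[([(0,13,[(10,11)])],[3])],[7,6,4,2],false,4,2,[6,8]),
    (true,[([(0,13,[(10,11)]),(0,1,[(5,6)])],[])],[6,4,4,2],false,3,2,[4]),
    (false,[([(0,21,[(10,11),(5,6),(4,4)])],[3,3])],[6],false,1,0,[]),
    (false,[([(0,22,[(10,11),(7,8)])],[3,3,1])],[6,1],false,2,1,[]),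
    (true,[([(0,10,[(12,14)])],[4,4])],[5,4,2],false,3,2,[6]),
    (false,[([(0,10,[(12,14)]),(0,1,[(4,6)])],[])],[7,6],false,2,2,[3]),
    (false,[([(0,10,[(12,14)]),(0,1,[(4,6)])],[]),([(0,2,[(3,3)])],[2,2,2,2,2])],[],false,1,0,[]),
    (false,[([(0,15,[(15,17)])],[3,3])],[8,2],false,2,2,[3]),
    (false,[([(0,21,[(15,17),(3,3)])],[3,3])],[6],false,1,0,[])]),
  ([8,7,6,6,4,2,1], [
    (false,[],[8,7,6,6,4,2,1],false,4,7,[6,10,15,17]),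
    (false,[([(0,1,[(5,6)])],[1,1,1])],[8,7,6,4],false,4,4,[6]),
    (true,[([(0,1,[(5,6)]),(0,1,[(5,6)])],[])],[7,5,5,4,1],true,4,2,[5,6]),
    (true,[([(0,1,[(5,6)]),(0,1,[(5,6)])],[]),([(0,6,[(5,5)])],[2,2,2,2])],[5,4],false,2,4,[4,5]),
    (false,[([(0,7,[(5,6),(5,5),(3,4)]),(0,1,[(5,6)])],[])],[7,6],false,2,2,[3]),
    (false,[([(0,7,[(5,6),(5,5),(3,4)]),(0,1,[(5,6)])],[]),([(0,2,[(3,3)])],[2,2,2,2,2])],[],false,1,0,[]),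
    (false,[([(0,1,[(5,6)]),(0,1,[(5,6)])],[]),([(0,0,[(5,5),(5,5)])],[3,3,3,3])],[],false,1,0,[]),
    (true,[([(0,1,[(5,6)]),(0,1,[(5,6)])],[]),([(0,1,[(6,6)])],[2,2])],[7,5],false,2,3,[4]),
    (false,[([(0,0,[(5,6),(3,4)]),(0,1,[(5,6)])],[3]),([(0,1,[(6,6)])],[3,2,2,2])],[],false,1,0,[2]),
    (false,[([(0,0,[(5,6),(3,4)]),(0,1,[(5,6)])],[3]),([(0,3,[(6,6),(2,2)])],[2,2,2,1])],[],false,1,0,[]),
    (true,[([(0,0,[(7,10)])],[2])],[7,6,5,4],false,4,4,[6,8,10]),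
    (false,[([(0,0,[(7,10)]),(0,1,[(5,6)])],[3])],[7,6,2],false,2,6,[3,4,5,6]),
    (false,[([(0,0,[(7,10)]),(0,0,[(5,6),(3,3)])],[])],[7,6,1],false,2,4,[3]),
    (false,[([(0,0,[(7,10)]),(0,0,[(5,6),(3,3)])],[]),([(0,2,[(3,3)])],[1,1,1,1])],[7],false,1,0,[2,3]),
    (false,[([(0,0,[(7,10)]),(0,0,[(5,6),(3,3)])],[]),([(0,1,[(3,3),(2,2)])],[2,2,2,2])],[],false,1,0,[2]),
    (false,[([(0,0,[(7,10)]),(0,0,[(5,6),(2,2),(2,2)])],[]),([(0,1,[(3,3),(3,3)])],[2,2,2,2])],[],false,1,0,[]),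
    (false,[([(0,0,[(7,10)]),(0,0,[(5,6),(3,3)])],[]),([(0,1,[(3,3),(3,3)])],[2,2,2,2])],[],false,1,0,[]),
    (false,[([(0,0,[(7,10)]),(0,0,[(5,6),(4,4)])],[])],[7,6,1],false,3,1,[4]),
    (false,[([(0,0,[(7,10)]),(0,0,[(5,6),(4,4)])],[]),([(0,8,[(4,4)])],[2,2,2,2,1])],[1],false,1,0,[]),
    (false,[([(0,7,[(7,10),(5,5)]),(0,1,[(5,6)])],[])],[7,6],false,2,2,[3]),
    (false,[([(0,7,[(7,10),(5,5)]),(0,1,[(5,6)])],[]),([(0,2,[(3,3)])],[2,2,2,2,2])],[],false,1,0,[]),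
    (false,[([(0,0,[(7,10)]),(0,1,[(5,6)])],[3]),([(0,1,[(6,6)])],[3,2,2,2])],[],false,1,0,[2]),
    (false,[([(0,0,[(7,10)]),(0,1,[(5,6)])],[3]),([(0,3,[(6,6),(2,2)])],[2,2,2,1])],[],false,1,0,[]),
    (false,[([(0,0,[(7,10)]),(0,3,[(7,8)])],[])],[8,6,2],false,3,2,[5]),
    (false,[([(0,0,[(7,10)]),(0,3,[(7,8)])],[]),([(0,6,[(4,5)])],[3,2,2,2,2])],[],false,1,0,[2]),
    (false,[([(0,0,[(7,10)]),(0,0,[(7,8),(2,2)])],[]),([(0,1,[(4,5)])],[2,2,2,2])],[],false,1,0,[]),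
    (false,[([(0,0,[(7,10)]),(0,0,[(9,10)])],[])],[7,6,1],false,3,1,[]),
    (true,[([(0,7,[(11,15)])],[3])],[7,5,4],false,3,4,[4,6,7]),
    (false,[([(0,7,[(11,15)]),(0,1,[(4,4)])],[])],[7,6],false,2,3,[3,4]),
    (false,[([(0,7,[(11,15)]),(0,2,[(3,3)])],[3]),([(0,8,[(4,4)])],[2,2,2,2,1])],[],false,1,0,[2]),
    (false,[([(0,7,[(11,15)]),(0,1,[(4,4),(2,2)])],[]),([(0,2,[(3,3)])],[2,2,2,2,2])],[],false,1,0,[]),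
    (false,[([(0,7,[(11,15)]),(0,8,[(4,4)])],[3]),([(0,8,[(4,4)])],[2,2,2,2])],[],false,1,0,[]),
    (false,[([(0,7,[(11,15)]),(0,1,[(5,6)])],[])],[7,6],false,2,2,[3]),
    (false,[([(0,7,[(11,15)]),(0,1,[(5,6)])],[]),([(0,2,[(3,3)])],[2,2,2,2,2])],[],false,1,0,[]),
    (true,[([(0,7,[(11,15)])],[3]),([(0,3,[(7,7)])],[3,3,1,1])],[],false,1,0,[]),
    (false,[([(0,15,[(16,17)])],[4,3])],[8,2],false,2,1,[])]),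
  ([8,7,6,6,5,2,1], [
    (false,[],[8,7,6,6,5,2,1],false,4,7,[5,6,8,11,14,17]),
    (false,[([(0,6,[(5,5)])],[2,1,1])],[8,7,6,5],false,4,5,[5]),
    (false,[([(0,0,[(5,5),(5,5)])],[2,2])],[8,7,6],false,3,6,[4,5]),
    (false,[([(0,1,[(5,5)]),(0,1,[(5,5)]),(0,8,[(4,4)])],[])],[7,6,5,1],false,4,1,[]),
    (false,[([(0,7,[(5,5),(5,5),(5,5)])],[3,3])],[8,6],false,2,4,[3,4,5]),
    (false,[([(1,3,[(5,5),(5,5),(5,5),(3,3)])],[4,4])],[6],false,1,0,[2,3]),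
    (false,[([(1,3,[(5,5),(5,5),(5,5),(3,3),(2,2)])],[4,4])],[6],false,1,0,[2]),
    (false,[([(2,0,[(5,5),(5,5),(5,5),(3,3),(2,2),(2,2)])],[5,5])],[],false,1,0,[]),
    (false,[([(0,7,[(5,5),(5,5),(5,5)])],[3,3]),([(0,2,[(3,3)]),(0,2,[(3,3)])],[2,2,2,2])],[],false,1,0,[]),
    (true,[([(0,1,[(5,5)]),(0,1,[(5,5)])],[2]),([(0,1,[(5,5)]),(0,8,[(4,4)])],[])],[6,5],false,2,1,[]),
    (true,[([(0,7,[(5,5),(5,5),(5,5)])],[3]),([(0,6,[(5,5)])],[3,3,3,3])],[],false,1,0,[]),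
    (false,[([(0,1,[(6,6)])],[1,1,1])],[8,7,6,5],false,4,5,[6]),
    (false,[([(0,1,[(6,6)]),(0,1,[(5,6)])],[2,2])],[7,6,5,1],false,3,6,[5,6]),
    (false,[([(0,13,[(6,6),(4,5)]),(0,1,[(5,6)])],[3])],[7,6,2],false,3,2,[5]),
    (false,[([(0,13,[(6,6),(4,5)]),(0,1,[(5,6)])],[3]),([(0,1,[(4,5)])],[3,2,2,2])],[],false,1,0,[2]),
    (false,[([(0,13,[(6,6),(4,5)])],[3,3,3]),([(0,1,[(5,6)]),(0,1,[(4,5)]),(0,2,[(2,2)])],[])],[],false,1,0,[]),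
    (true,[([(0,1,[(6,6)]),(0,1,[(5,6)])],[2]),([(0,1,[(6,6)])],[2,2])],[6,5],false,2,2,[3]),
    (false,[([(0,21,[(6,6),(5,6),(6,6),(3,3)])],[4,4])],[6],false,1,0,[]),
    (true,[([(0,3,[(7,8)])],[2,2])],[7,6,5,4,1],false,4,5,[6,8]),
    (false,[([(0,3,[(7,8)]),(0,1,[(5,6)])],[3,3])],[6,6,2,1],true,3,3,[5,6]),
    (true,[([(0,3,[(7,8)]),(0,6,[(4,5)])],[3]),([(0,1,[(5,6)])],[1,1])],[6,5],false,2,3,[3,4]),
    (false,[([(0,13,[(7,8),(3,3)]),(0,1,[(5,6)])],[3]),([(0,1,[(4,5)])],[3,2,2,2])],[],false,1,0,[2]),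
    (false,[([(0,13,[(7,8),(3,3)])],[3,3,3]),([(0,1,[(5,6)]),(0,1,[(4,5)]),(0,2,[(2,2)])],[])],[],false,1,0,[]),
    (false,[([(0,3,[(7,8)]),(0,7,[(5,6),(4,5),(4,4)])],[])],[6,6],false,1,0,[]),
    (true,[([(0,3,[(7,8)])],[3,3]),([(0,1,[(5,6)]),(0,1,[(6,6)])],[2])],[6,1],false,2,1,[]),
    (false,[([(0,3,[(7,8)]),(0,3,[(7,8)])],[3,1])],[6,6,2,1],true,3,3,[5]),
    (true,[([(0,3,[(7,8)]),(0,6,[(4,5)])],[3]),([(0,3,[(7,8)])],[2,2])],[6,1],false,2,1,[]),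
    (true,[([(0,13,[(9,11)])],[3,3])],[7,5,4,2],false,4,2,[6,9]),
    (false,[([(0,13,[(9,11)]),(0,1,[(5,6)])],[3])],[7,6,2],false,3,2,[5]),
    (false,[([(0,13,[(9,11)]),(0,1,[(5,6)])],[3]),([(0,1,[(4,5)])],[3,2,2,2])],[],false,1,0,[2]),
    (false,[([(0,13,[(9,11)])],[3,3,3]),([(0,1,[(5,6)]),(0,1,[(4,5)]),(0,2,[(2,2)])],[])],[],false,1,0,[]),
    (false,[([(0,13,[(9,11)]),(0,0,[(7,9)])],[])],[7,6,1],false,3,1,[]),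
    (false,[([(0,7,[(12,14)])],[3,3])],[8,6],false,2,5,[3,4,5,6]),
    (true,[([(0,15,[(12,14),(3,3)])],[4])],[7,5,2],false,3,2,[]),
    (false,[([(0,10,[(12,14)])],[3,3,3]),([(0,8,[(4,4)])],[2,2,2,2])],[],false,1,0,[3]),
    (false,[([(0,21,[(12,14),(4,4),(2,3)])],[4,4])],[6],false,1,0,[2]),
    (false,[([(0,7,[(12,14)])],[3,3]),([(0,8,[(4,4)]),(0,2,[(2,3)]),(0,2,[(2,2)])],[2,2])],[],false,1,0,[]),
    (true,[([(0,24,[(12,14),(5,5)])],[5])],[6,5],false,2,1,[]),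
    (false,[([(0,21,[(12,14),(6,6)])],[4,4])],[6],false,1,0,[]),
    (true,[([(0,15,[(15,17)])],[4])],[7,5,2],false,3,2,[])]),
  ([8,7,7,4,3,2,1], [
    (false,[],[8,7,7,4,3,2,1],true,5,5,[8,11,14,17]),
    (false,[([(0,11,[(6,8)])],[3,1,1])],[8,7,4],false,1,0,[2,3,4,5,6,8]),
    (false,[([(0,0,[(6,8),(2,2)])],[])],[8,7,7],false,1,0,[2]),
    (false,[([(0,0,[(6,8),(2,2)]),(0,2,[(2,2)])],[1])],[8,7,3],false,2,9,[]),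
    (false,[([(0,11,[(6,8)]),(0,2,[(3,3)])],[3])],[8,7,3],false,2,9,[3]),
    (false,[([(0,11,[(6,8)]),(0,1,[(3,3),(3,3)])],[])],[8,7,3],false,3,3,[]),
    (false,[([(0,11,[(6,8)]),(0,6,[(4,4)])],[])],[8,7,4],false,3,4,[4]),
    (false,[([(0,12,[(6,8),(4,4)])],[4,1]),([(0,8,[(4,4)])],[2,2,2,2,2,1])],[],false,1,0,[3,4]),
    (false,[([(0,12,[(6,8),(4,4)])],[4,1]),([(0,8,[(4,4)]),(0,2,[(2,3)])],[2,2,2,2])],[],false,1,0,[2,3]),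
    (true,[([(0,0,[(6,8),(2,2)]),(0,8,[(4,4)])],[3]),([(0,8,[(4,4)]),(0,2,[(2,3)])],[])],[5,3],false,2,3,[]),
    (false,[([(0,7,[(6,8),(4,4),(3,3)]),(0,8,[(4,4)])],[2]),([(0,2,[(2,3)])],[2,2,2,1,1])],[],false,1,0,[3]),
    (false,[([(0,7,[(6,8),(4,4),(3,3)]),(0,8,[(4,4)])],[2]),([(0,2,[(2,3)]),(0,2,[(2,3)])],[2,2,1])],[],false,1,0,[2]),
    (false,[([(0,7,[(6,8),(4,4),(3,3)]),(0,8,[(4,4)])],[2]),([(0,2,[(2,3)]),(0,2,[(2,3)]),(0,2,[(2,2)])],[2])],[],false,1,0,[]),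
    (false,[([(0,12,[(6,8),(4,4)])],[4,1]),([(0,8,[(4,4)]),(0,8,[(4,4)])],[2,2,2,1])],[],false,1,0,[2,3]),
    (false,[([(0,12,[(6,8),(4,4)])],[4,1]),([(0,8,[(4,4)]),(0,8,[(4,4)]),(0,2,[(2,2)])],[2,2])],[],false,1,0,[2]),
    (true,[([(0,0,[(6,8),(2,2)]),(0,1,[(4,4),(2,2)])],[]),([(0,11,[(4,4),(4,4)])],[4,4])],[],false,1,0,[]),
    (false,[([(0,7,[(6,8),(4,4),(3,3)]),(0,8,[(4,4)])],[2]),([(0,8,[(4,4)])],[2,2,1,1,1])],[],false,1,0,[]),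
    (false,[([(0,11,[(6,8)]),(0,6,[(5,5)])],[])],[8,7,4],false,3,4,[4,5]),
    (true,[([(0,12,[(6,8),(4,4)])],[4,4]),([(0,6,[(5,5)])],[3,3,1])],[],false,1,0,[3,4]),
    (true,[([(0,12,[(6,8),(4,4)])],[5,5]),([(0,6,[(5,5)]),(0,2,[(2,3)])],[2])],[],false,1,0,[2,3]),
    (true,[([(0,0,[(6,8),(2,2)]),(0,6,[(5,5)])],[]),([(0,8,[(4,4)]),(0,2,[(2,3)])],[1])],[6,3],false,2,2,[]),
    (true,[([(0,11,[(6,8)])],[4,4]),([(0,0,[(5,5),(4,4)]),(0,1,[(2,3),(3,3)])],[])],[],false,1,0,[2]),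
    (false,[([(0,7,[(6,8),(5,5),(2,2)]),(0,8,[(4,4)])],[2]),([(0,2,[(2,3)]),(0,2,[(3,3)])],[2,2,1])],[],false,1,0,[]),
    (false,[([(0,21,[(6,8),(5,5),(4,4),(4,4)])],[2,2])],[7],false,1,0,[2]),
    (false,[([(0,7,[(6,8),(5,5),(2,2)]),(0,8,[(4,4)])],[2]),([(0,8,[(4,4)])],[2,2,1,1,1])],[],false,1,0,[]),
    (true,[([(0,11,[(6,8)])],[4,4]),([(0,0,[(5,5),(5,5)])],[3,2,1])],[],false,1,0,[2,4]),
    (true,[([(0,7,[(6,8),(5,5),(2,2)])],[4]),([(0,6,[(5,5)])],[3,3,1,1])],[],false,1,0,[2]),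
    (true,[([(0,11,[(6,8)])],[4,4]),([(0,0,[(5,5),(5,5)]),(1,0,[(2,2),(2,2)])],[])],[],false,1,0,[2]),
    (true,[([(0,11,[(6,8)])],[4,4]),([(0,0,[(5,5),(5,5)]),(1,0,[(2,2),(2,2),(2,2)])],[])],[],false,1,0,[]),
    (true,[([(0,11,[(6,8)])],[4,4]),([(0,0,[(5,5),(3,4)]),(0,1,[(5,5)])],[])],[],false,1,0,[2]),
    (true,[([(0,11,[(6,8)])],[4,4]),([(0,0,[(5,5),(5,5)]),(0,1,[(3,4),(2,2)])],[])],[],false,1,0,[]),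
    (true,[([(0,10,[(6,8),(6,6)])],[4])],[7,4,3],false,3,3,[6]),
    (true,[([(0,10,[(6,8),(6,6)])],[4]),([(0,1,[(4,6)])],[3,3,1,1])],[],false,1,0,[2,3,4]),
    (true,[([(0,0,[(6,8),(2,2)]),(0,1,[(6,6)])],[]),([(0,1,[(4,6)])],[3,3,1])],[3],false,1,0,[2]),
    (true,[([(0,0,[(6,8),(2,2)]),(0,1,[(4,6)])],[]),([(0,11,[(6,6),(2,2)])],[4,4])],[],false,1,0,[2]),
    (false,[([(0,0,[(6,8),(2,2)]),(0,2,[(2,2)])],[1]),([(0,3,[(6,6),(2,2)]),(0,1,[(4,6)])],[2,2])],[],false,1,0,[]),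
    (true,[([(0,11,[(6,8)])],[4,4]),([(0,0,[(6,6),(3,3)]),(0,1,[(4,6)])],[])],[],false,1,0,[2]),
    (true,[([(0,10,[(6,8),(6,6)])],[4]),([(0,1,[(4,6)]),(0,6,[(3,3),(2,2)])],[3])],[],false,1,0,[]),
    (true,[([(0,10,[(6,8),(6,6)])],[4]),([(0,1,[(4,6)]),(0,6,[(4,4)])],[3])],[],false,1,0,[]),
    (true,[([(0,11,[(6,8)]),(0,3,[(7,8)])],[])],[6,4,3,3],false,3,4,[6]),
    (true,[([(0,11,[(6,8)]),(0,3,[(7,8)])],[]),([(0,1,[(4,6)])],[3,3,1])],[3],false,1,0,[3]),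
    (false,[([(0,11,[(6,8)]),(0,1,[(4,6)])],[]),([(0,3,[(7,8)]),(0,2,[(2,3)])],[3,2,2])],[],false,1,0,[2]),
    (false,[([(0,0,[(6,8),(2,2)]),(0,2,[(2,3)])],[1]),([(0,3,[(7,8)]),(0,1,[(4,6)])],[2,2])],[],false,1,0,[]),
    (true,[([(0,13,[(9,11)])],[])],[7,6,5,3],false,4,3,[6,8,9]),
    (true,[([(0,13,[(9,11)]),(0,1,[(5,6)])],[])],[6,3,3,3],false,2,4,[3,5]),
    (true,[([(0,10,[(9,11),(3,3)])],[4]),([(0,1,[(5,6)])],[3,3,1,1])],[],false,1,0,[3]),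
    (false,[([(0,13,[(9,11)])],[2,2,2,2]),([(0,1,[(5,6)]),(0,1,[(3,3),(2,3)])],[1])],[],false,1,0,[2]),
    (true,[([(0,13,[(9,11)]),(0,2,[(2,2)])],[]),([(0,1,[(5,6)]),(0,1,[(3,3),(2,3)])],[3])],[3],false,1,0,[]),
    (true,[([(0,13,[(9,11)]),(0,1,[(5,6)])],[]),([(0,6,[(4,5)])],[3,3,1])],[3],false,1,0,[2]),
    (true,[([(0,13,[(9,11)]),(0,2,[(2,2)])],[]),([(0,1,[(5,6)]),(0,1,[(4,5)])],[3])],[3],false,1,0,[]),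
    (true,[([(0,9,[(9,11),(7,8)])],[5])],[5,3],false,2,2,[3]),
    (true,[([(0,9,[(9,11),(7,8)])],[5]),([(0,2,[(3,3)])],[2,2,1])],[],false,1,0,[]),
    (false,[([(0,21,[(9,11),(9,9)])],[2,2])],[7],false,1,0,[]),
    (true,[([(0,10,[(12,14)])],[4])],[7,4,3],false,3,3,[5,6]),
    (true,[([(0,9,[(12,14),(4,5)])],[5])],[5,3],false,2,2,[3]),
    (true,[([(0,9,[(12,14),(4,5)])],[5]),([(0,2,[(3,3)])],[2,2,1])],[],false,1,0,[]),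
    (false,[([(0,21,[(12,14),(6,6)])],[2,2])],[7],false,1,0,[]),
    (true,[([(0,23,[(15,17)])],[5,1])],[5,3,1],false,3,1,[])])]

theorem cj6d_1_ok : runAllJ S39 R39 F39 16 cj6d_1 = true := by decide +kernel

noncomputable def cj6d_2 : List (List ℕ × List NdJ) := [
  ([8,7,7,5,3,2,1], [
    (false,[],[8,7,7,5,3,2,1],true,5,6,[7,10,15,17]),
    (false,[([(0,14,[(6,7)])],[3,2,1])],[8,7,5],false,1,0,[3,4,6,7]),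
    (false,[([(0,0,[(6,7),(2,3)])],[1,1,1])],[8,7,5],false,3,5,[]),
    (true,[([(0,13,[(6,7),(4,4)])],[])],[7,6,5,4],false,4,4,[]),
    (false,[([(0,14,[(6,7)]),(0,1,[(5,6)])],[])],[8,7,5],false,3,5,[4,5,6]),
    (true,[([(0,13,[(6,7),(4,4)]),(0,1,[(5,6)])],[])],[6,4,3,3],false,3,4,[4]),
    (true,[([(0,21,[(6,7),(5,6),(4,4),(4,4)])],[5])],[4,3],false,2,1,[]),
    (true,[([(0,12,[(6,7),(5,5)])],[4,4]),([(0,1,[(5,6)])],[3,3,1])],[],false,1,0,[3,4]),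
    (true,[([(0,7,[(6,7),(5,5),(2,3)])],[4]),([(0,1,[(5,6)])],[3,3,1,1])],[],false,1,0,[2,3]),
    (true,[([(0,7,[(6,7),(5,6),(2,2)])],[4]),([(0,6,[(5,5)]),(0,2,[(2,3)])],[3,3])],[],false,1,0,[2]),
    (true,[([(0,7,[(6,7),(5,6),(2,2)])],[4]),([(0,6,[(5,5)]),(1,0,[(2,3),(2,2)])],[3])],[],false,1,0,[]),
    (true,[([(0,21,[(6,7),(5,6),(5,5),(3,3)])],[5]),([(0,2,[(2,3)])],[2,2])],[],false,1,0,[]),
    (true,[([(0,12,[(6,7),(5,5)])],[5,5]),([(0,1,[(5,6)]),(0,8,[(4,4)])],[1])],[],false,1,0,[]),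
    (true,[([(0,9,[(6,7),(5,6),(6,6)])],[5])],[5,4],false,2,2,[3]),
    (true,[([(0,9,[(6,7),(5,6),(6,6)])],[5]),([(0,2,[(3,3)])],[2,2,2])],[],false,1,0,[]),
    (true,[([(0,14,[(6,7)]),(0,3,[(7,7)])],[])],[6,5,4,3],false,4,3,[6]),
    (true,[([(0,21,[(6,7),(7,7),(5,6)])],[5])],[4,3],false,2,1,[]),
    (true,[([(0,0,[(8,10)])],[3])],[7,6,4,3],false,4,3,[6,8,10]),
    (false,[([(0,0,[(8,10)]),(0,1,[(5,6)])],[])],[8,7,2],false,3,2,[4,5,6]),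
    (true,[([(0,0,[(8,10)]),(0,1,[(5,6)])],[]),([(0,8,[(4,4)])],[2,1])],[6,4],false,2,2,[3]),
    (true,[([(0,10,[(8,10),(4,4)])],[5,5]),([(0,1,[(5,6)]),(0,2,[(3,3)])],[])],[],false,1,0,[]),
    (true,[([(0,21,[(8,10),(5,6),(5,5)])],[5])],[4,3],false,2,1,[]),
    (false,[([(0,0,[(8,10)]),(0,1,[(5,6)])],[]),([(0,1,[(6,6)])],[3,2,2,2,2])],[],false,1,0,[]),
    (false,[([(0,0,[(8,10)]),(0,3,[(7,8)])],[3])],[7,3,2],false,3,2,[4]),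
    (true,[([(0,10,[(8,10),(4,4)])],[4,3]),([(0,3,[(7,8)])],[3,1])],[],false,1,0,[]),
    (true,[([(0,21,[(8,10),(9,10)])],[5])],[4,3],false,2,1,[]),
    (true,[([(0,7,[(11,15)])],[4])],[7,4,3],false,3,3,[5,6,7]),
    (true,[([(0,7,[(11,15)])],[4]),([(0,6,[(4,5)])],[3,3,2,1])],[],false,1,0,[2,3,4]),
    (true,[([(0,7,[(11,15)])],[4]),([(0,6,[(4,5)]),(0,2,[(2,2)])],[3,3])],[],false,1,0,[2]),
    (true,[([(0,7,[(11,15)])],[4]),([(0,6,[(4,5)]),(1,0,[(2,2),(2,2)])],[3])],[],false,1,0,[2]),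
    (true,[([(0,7,[(11,15)])],[4]),([(0,6,[(4,5)]),(1,0,[(2,2),(2,2),(2,2)])],[3])],[],false,1,0,[]),
    (true,[([(0,7,[(11,15)])],[4]),([(0,6,[(4,5)]),(0,2,[(3,3)])],[3,3])],[],false,1,0,[2]),
    (true,[([(0,7,[(11,15)])],[4]),([(0,6,[(4,5)]),(0,1,[(3,3),(2,2)])],[3])],[],false,1,0,[]),
    (true,[([(0,7,[(11,15)])],[4]),([(0,6,[(4,5)]),(0,1,[(4,4)])],[3])],[],false,1,0,[]),
    (true,[([(0,21,[(11,15),(6,6)])],[5])],[4,3],false,2,1,[]),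
    (false,[([(0,7,[(11,15)]),(0,3,[(7,7)])],[])],[7,3],false,1,0,[]),
    (false,[([(0,23,[(16,17)])],[4,3])],[8,1],false,2,1,[])]),
  ([8,7,7,6,3,2,1], [
    (false,[],[8,7,7,6,3,2,1],true,5,4,[6,8,11,14,17]),
    (false,[([(0,1,[(6,6)])],[1,1,1,1])],[8,7,6,3],false,4,3,[6]),
    (false,[([(0,1,[(6,6)]),(0,1,[(5,6)])],[2,2])],[7,7,3,1],true,3,4,[5,6]),
    (true,[([(0,13,[(6,6),(4,5)]),(0,1,[(5,6)])],[])],[6,4,4,3],false,3,3,[5]),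
    (true,[([(0,13,[(6,6),(4,5)]),(0,1,[(5,6)])],[]),([(0,6,[(4,5)])],[3,3,2])],[4],false,1,0,[2]),
    (false,[([(0,3,[(6,6),(2,2)]),(0,1,[(5,6)])],[2]),([(0,0,[(4,5),(4,5)])],[2,2,2,2])],[],false,1,0,[]),
    (false,[([(0,10,[(6,6),(6,6)]),(0,1,[(5,6)])],[])],[7,7],false,1,0,[3]),
    (false,[([(0,21,[(6,6),(5,6),(6,6),(2,3)])],[3,3])],[7],false,1,0,[2]),
    (true,[([(0,7,[(6,6),(5,6),(2,3)])],[4,4]),([(0,3,[(6,6),(2,2)])],[3])],[],false,1,0,[]),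
    (true,[([(0,3,[(7,8)])],[3])],[7,6,5,4,1],false,4,5,[6,8]),
    (true,[([(0,10,[(7,8),(5,6)])],[4,4])],[5,4,3],false,3,3,[6]),
    (true,[([(0,3,[(7,8)]),(0,1,[(5,6)])],[3]),([(0,1,[(4,6)])],[2])],[5,4],false,2,3,[3,4]),
    (true,[([(0,13,[(7,8),(3,3)]),(0,1,[(5,6)])],[]),([(0,1,[(4,6)])],[3,3,1])],[4],false,1,0,[2]),
    (true,[([(0,3,[(7,8)]),(0,1,[(5,6)])],[]),([(0,1,[(4,6)]),(0,2,[(3,3)]),(0,2,[(2,2)])],[])],[4,4],false,1,0,[]),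
    (false,[([(0,10,[(7,8),(5,6)]),(0,1,[(4,6)])],[]),([(0,8,[(4,4)])],[2,2,2,2,2])],[],false,1,0,[]),
    (true,[([(0,3,[(7,8)]),(0,3,[(7,8)])],[1])],[5,4,4,3,1],false,4,1,[5]),
    (false,[([(0,21,[(7,8),(7,8),(5,5)])],[3,3])],[7],false,1,0,[]),
    (true,[([(0,13,[(9,11)])],[3])],[7,6,4,3],false,4,3,[6,8,9]),
    (true,[([(0,13,[(9,11)]),(0,1,[(5,6)])],[])],[6,4,4,3],false,3,3,[4,5]),
    (true,[([(0,13,[(9,11)]),(0,1,[(5,6)])],[]),([(0,8,[(4,4)])],[2,1])],[6,4],false,2,1,[]),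
    (true,[([(0,13,[(9,11)]),(0,1,[(5,6)])],[]),([(0,6,[(5,5)])],[3,3,2])],[4],false,1,0,[]),
    (false,[([(0,13,[(9,11)]),(0,3,[(7,8)])],[3])],[7,3,2],false,3,2,[]),
    (false,[([(0,21,[(9,11),(9,9)])],[3,3])],[7],false,1,0,[]),
    (true,[([(0,10,[(12,14)])],[4,4])],[5,4,3],false,3,3,[4,5,6]),
    (false,[([(0,10,[(12,14)]),(0,8,[(4,4)])],[3])],[7,6],false,2,2,[3]),
    (false,[([(0,21,[(12,14),(4,4),(3,3)])],[3,3])],[7],false,1,0,[]),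
    (false,[([(0,22,[(12,14),(5,5)])],[3,3])],[8,1],false,2,1,[]),
    (false,[([(0,21,[(12,14),(6,6)])],[3,3])],[7],false,1,0,[]),
    (true,[([(0,15,[(15,17)])],[])],[7,6,4],false,3,2,[])]),
  ([8,7,7,6,5,2,1], [
    (false,[],[8,7,7,6,5,2,1],true,5,4,[6,8,11,14,17]),
    (false,[([(0,1,[(6,6)])],[1,1,1,1])],[8,7,6,5],false,4,5,[6]),
    (false,[([(0,1,[(6,6)]),(0,1,[(5,6)])],[2])],[8,7,6,1],false,3,7,[5,6]),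
    (true,[([(0,13,[(6,6),(4,5)]),(0,1,[(5,6)])],[])],[6,5,5,3],false,3,3,[5]),
    (true,[([(0,13,[(6,6),(4,5)]),(0,1,[(5,6)])],[]),([(0,1,[(4,5)])],[3,3,2])],[5],false,1,0,[2]),
    (false,[([(0,3,[(6,6),(2,2)]),(0,1,[(5,6)])],[3,3]),([(0,0,[(4,5),(4,5)])],[2,2,2])],[],false,1,0,[]),
    (true,[([(0,1,[(6,6)]),(0,1,[(5,6)])],[3]),([(0,1,[(6,6)])],[2,2])],[6,5],false,2,2,[3]),
    (false,[([(0,21,[(6,6),(5,6),(6,6),(3,3)])],[4,4])],[7],false,1,0,[]),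
    (true,[([(0,3,[(7,8)])],[3,2])],[7,6,5,4,1],false,4,5,[6,8]),
    (true,[([(0,3,[(7,8)]),(0,1,[(5,6)])],[])],[7,5,5,4,1],true,4,2,[6]),
    (true,[([(0,3,[(7,8)]),(0,1,[(5,6)])],[]),([(0,1,[(5,6)])],[2,2])],[7,5],false,2,2,[3]),
    (false,[([(0,3,[(7,8)]),(0,7,[(5,6),(5,6),(3,3)])],[])],[7,6],false,1,0,[]),
    (false,[([(0,3,[(7,8)]),(0,3,[(7,8)])],[3])],[8,6,2,1],false,4,1,[5]),
    (false,[([(0,21,[(7,8),(7,8),(5,5)])],[4,4])],[7],false,1,0,[]),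
    (true,[([(0,13,[(9,11)])],[3,3])],[7,5,4,3],false,4,3,[6,9]),
    (true,[([(0,13,[(9,11)]),(0,1,[(5,6)])],[])],[6,5,5,3],false,3,3,[4,5]),
    (false,[([(0,13,[(9,11)]),(0,0,[(5,6),(4,4)])],[])],[7,7,1],false,2,1,[]),
    (true,[([(0,13,[(9,11)]),(0,1,[(5,6)])],[]),([(0,1,[(5,5)])],[3,3,2])],[5],false,1,0,[]),
    (false,[([(0,13,[(9,11)]),(0,0,[(7,9)])],[])],[7,7,1],true,2,2,[3]),
    (false,[([(0,13,[(9,11)]),(0,0,[(7,9)])],[]),([(0,2,[(3,3)])],[1,1,1,1,1])],[7],false,1,0,[]),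
    (false,[([(0,10,[(12,14)])],[3,3,3])],[7,6],false,2,5,[3,4,5,6]),
    (true,[([(0,15,[(12,14),(3,3)])],[3])],[7,5,4],false,3,3,[]),
    (false,[([(0,10,[(12,14)])],[3,3,3]),([(0,8,[(4,4)])],[2,2,2,2,1])],[],false,1,0,[3]),
    (false,[([(0,21,[(12,14),(4,4),(2,3)])],[4,4])],[7],false,1,0,[2]),
    (false,[([(0,7,[(12,14)])],[3,3,3]),([(0,8,[(4,4)]),(0,2,[(2,3)]),(0,2,[(2,2)])],[2])],[],false,1,0,[]),
    (false,[([(0,22,[(12,14),(5,5)])],[4,4])],[8,1],false,2,1,[]),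
    (false,[([(0,21,[(12,14),(6,6)])],[4,4])],[7],false,1,0,[]),
    (true,[([(0,15,[(15,17)])],[3])],[7,5,4],false,3,2,[])]),
  ([8,8,6,4,3,2,1], [
    (false,[],[8,8,6,4,3,2,1],true,6,4,[10,15,17]),
    (false,[([(0,0,[(7,10)])],[])],[8,8,6],false,1,0,[3,6,10]),
    (false,[([(0,0,[(7,10)]),(0,2,[(2,3)])],[])],[8,8,3],true,2,9,[3]),
    (false,[([(0,0,[(7,10)]),(0,1,[(2,3),(3,3)])],[2])],[8,4,2],true,3,4,[]),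
    (false,[([(0,0,[(7,10)]),(0,1,[(4,6)])],[2])],[8,4,2],true,3,4,[5,6]),
    (false,[([(0,0,[(7,10)]),(0,1,[(4,6)])],[2]),([(0,6,[(4,5)])],[3,2,2,1,1])],[],false,1,0,[3,5]),
    (false,[([(0,0,[(7,10)]),(0,1,[(4,6)])],[2]),([(0,6,[(4,5)]),(0,2,[(2,3)])],[3,2,1])],[],false,1,0,[2,3]),
    (false,[([(0,0,[(7,10)]),(0,1,[(4,6)])],[2]),([(0,6,[(4,5)]),(1,0,[(2,3),(2,2)])],[2,1])],[],false,1,0,[2]),
    (false,[([(0,0,[(7,10)]),(0,1,[(4,6)])],[2]),([(0,6,[(4,5)]),(1,0,[(2,3),(2,2)]),(0,2,[(2,2)])],[])],[],false,1,0,[2]),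
    (false,[([(0,0,[(7,10)]),(0,1,[(4,6)])],[2]),([(0,6,[(4,5)]),(0,2,[(2,3)]),(1,0,[(2,2),(2,2),(2,2)])],[])],[],false,1,0,[]),
    (false,[([(0,0,[(7,10)]),(0,1,[(4,6)])],[2]),([(0,6,[(4,5)]),(0,1,[(2,3),(3,3)])],[2,1])],[],false,1,0,[2]),
    (false,[([(0,0,[(7,10)]),(0,0,[(4,5),(3,3),(2,2)])],[]),([(0,1,[(4,6)]),(0,2,[(2,3)])],[1,1,1])],[],false,1,0,[]),
    (false,[([(0,0,[(7,10)]),(0,0,[(4,5),(4,5)])],[]),([(0,1,[(4,6)])],[2,1,1,1,1])],[],false,1,0,[2]),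
    (false,[([(0,0,[(7,10)]),(0,0,[(4,5),(4,5)])],[]),([(0,1,[(4,6)]),(0,2,[(2,2)])],[1,1,1])],[],false,1,0,[]),
    (false,[([(0,0,[(7,10)]),(0,1,[(4,6)])],[2]),([(0,1,[(6,6)])],[3,2,1,1,1])],[],false,1,0,[3]),
    (false,[([(0,0,[(7,10)]),(0,0,[(6,6),(2,3)])],[]),([(0,1,[(4,6)])],[2,1,1,1,1])],[],false,1,0,[2]),
    (false,[([(0,0,[(7,10)]),(0,0,[(6,6),(2,3)])],[]),([(0,1,[(4,6)]),(0,2,[(2,2)])],[1,1,1])],[],false,1,0,[]),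
    (false,[([(0,0,[(7,10)]),(0,0,[(7,10)])],[])],[8,3,1],true,3,3,[5]),
    (false,[([(0,0,[(7,10)]),(0,0,[(7,10)])],[]),([(0,6,[(4,5)])],[2,2,1,1,1])],[],false,1,0,[2]),
    (false,[([(0,0,[(7,10)]),(0,0,[(7,10)])],[]),([(0,6,[(4,5)]),(0,2,[(2,2)])],[2,1,1])],[],false,1,0,[]),
    (false,[([(0,7,[(11,15)])],[1,1,1])],[8,6],false,2,6,[3,6,7]),
    (false,[([(0,7,[(11,15)]),(0,2,[(3,3)])],[2])],[8,4],false,2,4,[3]),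
    (false,[([(0,7,[(11,15)]),(0,1,[(3,3),(3,3)])],[])],[8,3],false,2,2,[3]),
    (false,[([(0,7,[(11,15)]),(0,1,[(3,3),(3,3)])],[]),([(0,2,[(3,3)])],[2,2,1,1,1,1])],[],false,1,0,[]),
    (false,[([(0,7,[(11,15)]),(0,1,[(4,6)])],[])],[8,3],false,2,3,[3,4]),
    (false,[([(0,7,[(11,15)]),(0,1,[(4,6)])],[]),([(0,2,[(3,3)])],[2,2,1,1,1,1])],[],false,1,0,[2]),
    (true,[([(0,7,[(11,15)])],[5]),([(0,1,[(4,6)]),(0,6,[(3,3),(2,2)])],[1])],[],false,1,0,[]),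
    (false,[([(0,7,[(11,15)]),(0,1,[(4,6)])],[]),([(0,8,[(4,4)])],[2,1,1,1,1,1])],[],false,1,0,[]),
    (true,[([(0,7,[(11,15)])],[5]),([(0,3,[(7,7)])],[1,1,1,1])],[],false,1,0,[]),
    (true,[([(0,16,[(16,17)])],[6])],[6,3],false,2,1,[])]),
  ([8,8,6,5,3,2,1], [
    (false,[],[8,8,6,5,3,2,1],true,6,3,[10,15,17]),
    (false,[([(0,0,[(7,10)])],[1])],[8,8,6],false,1,0,[3,6,8,10]),
    (false,[([(0,0,[(7,10)]),(0,2,[(2,3)])],[2,1])],[8,6,3],false,1,0,[2,3]),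
    (false,[([(0,0,[(7,10)]),(1,0,[(2,3),(2,2)])],[1])],[8,6,2],false,2,8,[]),
    (false,[([(0,0,[(7,10)]),(0,1,[(2,3),(3,3)])],[2])],[8,5,2],true,3,3,[]),
    (false,[([(0,0,[(7,10)]),(0,1,[(4,6)])],[2])],[8,5,2],true,3,3,[6]),
    (false,[([(0,0,[(7,10)]),(0,1,[(4,6)])],[1]),([(0,1,[(4,6)])],[3,2,2,2,1])],[],false,1,0,[3,5]),
    (false,[([(0,0,[(7,10)]),(0,1,[(4,6)])],[1]),([(0,1,[(4,6)]),(0,2,[(2,3)])],[3,2,2])],[],false,1,0,[2,3]),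
    (false,[([(0,0,[(7,10)]),(0,1,[(4,6)])],[1]),([(0,1,[(4,6)]),(1,0,[(2,3),(2,2)])],[2,2])],[],false,1,0,[2]),
    (false,[([(0,0,[(7,10)]),(0,1,[(4,6)])],[2]),([(0,1,[(4,6)]),(1,0,[(2,3),(2,2)]),(0,2,[(2,2)])],[])],[],false,1,0,[2]),
    (false,[([(0,0,[(7,10)]),(0,1,[(4,6)])],[2]),([(0,1,[(4,6)]),(0,2,[(2,3)]),(1,0,[(2,2),(2,2),(2,2)])],[])],[],false,1,0,[]),
    (false,[([(0,0,[(7,10)]),(0,1,[(4,6)])],[1]),([(0,1,[(4,6)]),(0,1,[(2,3),(3,3)])],[2,2])],[],false,1,0,[2]),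
    (false,[([(0,0,[(7,10)]),(0,1,[(4,6)])],[2]),([(0,1,[(4,6)]),(0,1,[(2,3),(3,3)]),(0,2,[(2,2)])],[])],[],false,1,0,[]),
    (false,[([(0,0,[(7,10)]),(0,1,[(4,6)])],[2]),([(0,1,[(4,6)]),(0,6,[(4,5)])],[2,2])],[],false,1,0,[2]),
    (false,[([(0,0,[(7,10)]),(0,1,[(4,6)])],[2]),([(0,1,[(4,6)]),(0,1,[(4,5)]),(0,2,[(2,2)])],[])],[],false,1,0,[]),
    (false,[([(0,0,[(7,10)]),(0,11,[(7,8)])],[])],[8,6,1],true,3,2,[5]),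
    (false,[([(0,0,[(7,10)]),(0,11,[(7,8)])],[]),([(0,6,[(4,5)])],[2,2,2,2,2])],[],false,1,0,[2]),
    (false,[([(0,0,[(7,10)]),(0,11,[(7,8)])],[]),([(0,1,[(4,5)]),(0,2,[(2,2)])],[2,2,2])],[],false,1,0,[]),
    (false,[([(0,0,[(7,10)]),(0,13,[(9,10)])],[])],[8,3,1],false,3,1,[]),
    (true,[([(0,7,[(11,15)])],[5])],[7,4,2],true,3,3,[6,7]),
    (true,[([(0,7,[(11,15)])],[5]),([(0,1,[(4,6)])],[3,2,1,1])],[],false,1,0,[2,3,4]),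
    (true,[([(0,7,[(11,15)])],[5]),([(0,1,[(4,6)]),(0,2,[(2,2)])],[3,1])],[],false,1,0,[2]),
    (true,[([(0,7,[(11,15)])],[5]),([(0,1,[(4,6)]),(1,0,[(2,2),(2,2)])],[1])],[],false,1,0,[2]),
    (true,[([(0,7,[(11,15)])],[5]),([(0,1,[(4,6)]),(1,0,[(2,2),(2,2),(2,2)])],[1])],[],false,1,0,[]),
    (true,[([(0,7,[(11,15)])],[5]),([(0,1,[(4,6)]),(0,2,[(3,3)])],[3,1])],[],false,1,0,[2]),
    (true,[([(0,7,[(11,15)])],[5]),([(0,1,[(4,6)]),(0,6,[(3,3),(2,2)])],[2])],[],false,1,0,[]),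
    (true,[([(0,7,[(11,15)])],[5]),([(0,1,[(4,6)]),(0,6,[(4,4)])],[2])],[],false,1,0,[]),
    (true,[([(0,7,[(11,15)])],[5]),([(0,3,[(7,7)])],[2,1,1,1])],[],false,1,0,[]),
    (true,[([(0,16,[(16,17)])],[6])],[6,4],false,2,1,[])]),
  ([8,8,7,4,3,2,1], [
    (false,[],[8,8,7,4,3,2,1],true,5,5,[7,10,14,17]),
    (false,[([(0,14,[(6,7)])],[3,2,1])],[8,8,4],false,1,0,[3,5,7]),
    (false,[([(0,0,[(6,7),(2,3)])],[])],[8,8,7],false,1,0,[2,3]),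
    (false,[([(0,0,[(6,7),(2,3)]),(0,2,[(2,2)])],[1])],[8,8,3],true,2,9,[]),
    (true,[([(0,0,[(6,7),(2,3)]),(0,2,[(3,3)])],[4])],[6,4,3,3],false,3,4,[]),
    (false,[([(0,14,[(6,7)]),(0,6,[(4,5)])],[2])],[8,7,4],false,3,4,[4,5]),
    (false,[([(0,14,[(6,7)]),(0,0,[(4,5),(4,4)])],[])],[8,7,1],false,2,5,[3,4]),
    (false,[([(0,7,[(6,7),(4,5),(3,3)]),(0,8,[(4,4)])],[2])],[8,4],false,2,3,[3]),
    (false,[([(0,7,[(6,7),(4,5),(3,3)]),(0,8,[(4,4)])],[2]),([(0,2,[(3,3)])],[2,2,2,1,1,1])],[],false,1,0,[2]),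
    (true,[([(0,7,[(6,7),(4,5),(3,3)])],[5]),([(0,6,[(4,4)]),(0,6,[(3,3),(2,2)])],[3])],[],false,1,0,[]),
    (false,[([(0,12,[(6,7),(4,5)])],[4,1]),([(0,8,[(4,4)]),(0,8,[(4,4)])],[2,2,2,2])],[],false,1,0,[3]),
    (false,[([(0,12,[(6,7),(4,5)])],[4,1,1]),([(0,8,[(4,4)]),(0,8,[(4,4)]),(0,2,[(2,3)])],[2,2])],[],false,1,0,[2]),
    (false,[([(0,13,[(6,7),(4,4)])],[2,2,2,2]),([(0,6,[(4,5)]),(0,1,[(4,4),(2,2)]),(0,2,[(2,3)])],[])],[],false,1,0,[]),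
    (false,[([(0,14,[(6,7)]),(0,0,[(4,5),(5,5)])],[])],[8,7,1],false,2,4,[3,5]),
    (true,[([(0,7,[(6,7),(4,5),(3,3)])],[5]),([(0,6,[(5,5)])],[3,3,1,1])],[],false,1,0,[3]),
    (true,[([(0,12,[(6,7),(4,5)])],[5,5]),([(0,6,[(5,5)]),(0,1,[(3,3),(2,3)])],[])],[],false,1,0,[2]),
    (true,[([(0,7,[(6,7),(5,5),(2,3)])],[5]),([(0,6,[(4,5)]),(0,6,[(3,3),(2,2)])],[3])],[],false,1,0,[]),
    (true,[([(0,12,[(6,7),(4,5)])],[5,5]),([(0,6,[(5,5)]),(0,1,[(4,5)])],[])],[],false,1,0,[2]),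
    (true,[([(0,10,[(6,7),(5,5),(2,2)])],[5]),([(0,6,[(4,5)]),(0,1,[(4,5)])],[3])],[],false,1,0,[]),
    (true,[([(0,10,[(6,7),(6,7)])],[5])],[7,4,3],false,3,3,[5,6,7]),
    (true,[([(0,10,[(6,7),(6,7)])],[5]),([(0,6,[(4,5)])],[3,3,2,1])],[],false,1,0,[2,3,4]),
    (true,[([(0,10,[(6,7),(6,7)])],[5]),([(0,6,[(4,5)]),(0,2,[(2,2)])],[3,3])],[],false,1,0,[2]),
    (true,[([(0,10,[(6,7),(6,7)])],[5]),([(0,6,[(4,5)]),(1,0,[(2,2),(2,2)])],[3])],[],false,1,0,[2]),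
    (true,[([(0,10,[(6,7),(6,7)])],[5]),([(0,6,[(4,5)]),(1,0,[(2,2),(2,2),(2,2)])],[3])],[],false,1,0,[]),
    (true,[([(0,10,[(6,7),(6,7)])],[5]),([(0,6,[(4,5)]),(0,2,[(3,3)])],[3,3])],[],false,1,0,[2]),
    (true,[([(0,10,[(6,7),(6,7)])],[5]),([(0,6,[(4,5)]),(0,1,[(3,3),(2,2)])],[3])],[],false,1,0,[]),
    (true,[([(0,10,[(6,7),(6,7)])],[5]),([(0,6,[(4,5)]),(0,1,[(4,4)])],[3])],[],false,1,0,[]),
    (false,[([(0,21,[(6,7),(6,7),(6,6)])],[2,2])],[8],false,1,0,[2]),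
    (false,[([(0,10,[(6,7),(6,7)]),(0,3,[(6,6),(2,2)])],[])],[8,3],false,1,0,[]),
    (false,[([(0,21,[(6,7),(6,7),(7,7)])],[2,2])],[8],false,1,0,[]),
    (false,[([(0,0,[(8,10)])],[1,1,1,1])],[8,7,4],false,3,4,[4,5,6,8,9,10]),
    (true,[([(0,10,[(8,10),(4,4)])],[5])],[7,4,3],false,3,3,[4]),
    (false,[([(0,0,[(8,10)]),(0,8,[(4,4)]),(0,8,[(4,4)])],[])],[8,4,3],false,3,3,[4]),
    (false,[([(0,10,[(8,10),(4,4)]),(0,8,[(4,4)])],[3]),([(0,8,[(4,4)])],[2,2,1,1,1,1])],[],false,1,0,[]),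
    (false,[([(0,0,[(8,10)]),(0,6,[(5,5)])],[1])],[8,7,2],false,3,2,[4,5]),
    (true,[([(0,9,[(8,10),(5,5),(4,4)])],[6])],[5,3],false,2,2,[3]),
    (true,[([(0,9,[(8,10),(5,5),(4,4)])],[6]),([(0,2,[(3,3)])],[2,2,1])],[],false,1,0,[]),
    (false,[([(0,21,[(8,10),(5,5),(5,5)])],[2,2])],[8],false,1,0,[2]),
    (true,[([(0,12,[(8,10),(2,2)])],[5,5]),([(0,6,[(5,5)]),(0,1,[(5,5)])],[])],[],false,1,0,[]),
    (false,[([(0,0,[(8,10)]),(0,14,[(6,6)])],[])],[8,7,1],false,2,4,[3,5]),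
    (true,[([(0,9,[(8,10),(6,6),(3,3)])],[6])],[5,3],false,2,2,[3]),
    (true,[([(0,9,[(8,10),(6,6),(3,3)])],[6]),([(0,2,[(3,3)])],[2,2,1])],[],false,1,0,[]),
    (false,[([(0,21,[(8,10),(6,6),(4,5)])],[2,2])],[8],false,1,0,[2]),
    (true,[([(0,7,[(8,10),(4,5)])],[5,5]),([(0,3,[(6,6),(2,2)])],[])],[],false,1,0,[]),
    (false,[([(0,0,[(8,10)]),(0,3,[(7,8)])],[2])],[8,3,2],false,3,2,[4]),
    (false,[([(0,10,[(8,10),(4,4)]),(0,3,[(7,8)])],[])],[8,3],false,1,0,[]),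
    (true,[([(0,9,[(8,10),(9,9)])],[6])],[5,3],false,2,1,[]),
    (false,[([(0,21,[(8,10),(10,10)])],[2,2])],[8],false,1,0,[]),
    (true,[([(0,10,[(11,14)])],[5])],[7,4,3],false,3,3,[5,6,7]),
    (true,[([(0,10,[(11,14)])],[5]),([(0,6,[(4,5)])],[3,3,2,1])],[],false,1,0,[2,3,4]),
    (true,[([(0,10,[(11,14)])],[5]),([(0,6,[(4,5)]),(0,2,[(2,2)])],[3,3])],[],false,1,0,[2]),
    (true,[([(0,10,[(11,14)])],[5]),([(0,6,[(4,5)]),(1,0,[(2,2),(2,2)])],[3])],[],false,1,0,[2]),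
    (true,[([(0,10,[(11,14)])],[5]),([(0,6,[(4,5)]),(1,0,[(2,2),(2,2),(2,2)])],[3])],[],false,1,0,[]),
    (true,[([(0,10,[(11,14)])],[5]),([(0,6,[(4,5)]),(0,2,[(3,3)])],[3,3])],[],false,1,0,[2]),
    (true,[([(0,10,[(11,14)])],[5]),([(0,6,[(4,5)]),(0,1,[(3,3),(2,2)])],[3])],[],false,1,0,[]),
    (true,[([(0,10,[(11,14)])],[5]),([(0,6,[(4,5)]),(0,1,[(4,4)])],[3])],[],false,1,0,[]),
    (false,[([(0,21,[(11,14),(6,6)])],[2,2])],[8],false,1,0,[2]),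
    (false,[([(0,10,[(11,14)]),(0,3,[(6,6),(2,2)])],[])],[8,3],false,1,0,[]),
    (false,[([(0,21,[(11,14),(7,7)])],[2,2])],[8],false,1,0,[]),
    (true,[([(0,23,[(15,17)])],[5,1])],[5,3,2],false,3,2,[])]),
  ([9,5,5,4,3,3,2,1], [
    (false,[],[9,5,5,4,3,3,2,1],true,6,3,[10,15,17]),
    (false,[([(0,0,[(7,10)])],[1])],[9,5,4,3],false,4,3,[6,8,10]),
    (false,[([(0,0,[(7,10)]),(0,1,[(5,6)])],[1,1])],[5,4,3,2],false,4,2,[6]),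
    (false,[([(0,0,[(7,10)]),(0,1,[(5,6)])],[1,1]),([(0,1,[(5,6)])],[3])],[5],false,1,0,[3]),
    (true,[([(0,0,[(7,10)]),(0,1,[(5,6)])],[2]),([(0,1,[(5,6)]),(0,2,[(2,3)])],[2,1])],[1,1],false,1,0,[2]),
    (false,[([(0,0,[(7,10)]),(0,11,[(5,6),(2,2)])],[1]),([(0,1,[(5,6)]),(0,2,[(2,3)])],[])],[4],false,1,0,[]),
    (false,[([(0,0,[(7,10)]),(0,11,[(7,8)])],[1])],[5,4,3,1],false,4,1,[5]),
    (false,[([(0,7,[(7,10),(5,5)])],[]),([(0,3,[(7,8)])],[3,2,1,1,1,1])],[],false,1,0,[]),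
    (false,[([(0,0,[(7,10)]),(0,25,[(9,10)])],[])],[5,4,3],false,3,2,[]),
    (false,[([(0,7,[(11,15)])],[])],[9,5,3],false,3,3,[6,7]),
    (false,[([(0,7,[(11,15)])],[]),([(0,1,[(4,6)])],[3,3,2,1,1,1])],[],false,1,0,[2,3,4]),
    (false,[([(0,7,[(11,15)]),(0,2,[(2,2)])],[1,1]),([(0,1,[(4,6)])],[3,3])],[],false,1,0,[2]),
    (false,[([(0,7,[(11,15)])],[]),([(0,1,[(4,6)]),(1,0,[(2,2),(2,2)])],[3,1,1])],[],false,1,0,[2]),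
    (false,[([(0,7,[(11,15)])],[]),([(0,1,[(4,6)]),(1,0,[(2,2),(2,2),(2,2)])],[3,1,1])],[],false,1,0,[]),
    (false,[([(0,7,[(11,15)]),(0,2,[(3,3)])],[1,1]),([(0,1,[(4,6)])],[3,3])],[],false,1,0,[2]),
    (false,[([(0,7,[(11,15)])],[]),([(0,1,[(4,6)]),(0,6,[(3,3),(2,2)])],[3,2,1])],[],false,1,0,[]),
    (false,[([(0,7,[(11,15)])],[]),([(0,1,[(4,6)]),(0,6,[(4,4)])],[3,2,1])],[],false,1,0,[]),
    (false,[([(0,7,[(11,15)]),(0,14,[(7,7)])],[])],[5,3,2],false,1,0,[]),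
    (true,[([(0,26,[(16,17)])],[2])],[7,6],false,2,1,[])]),
  ([9,7,6,3,2,2,2,1], [
    (false,[],[9,7,6,3,2,2,2,1],false,5,4,[8,11,15,17]),
    (true,[([(0,11,[(6,8)])],[])],[8,7,3,3,3],false,3,7,[6,8]),
    (true,[([(0,11,[(6,8)]),(0,1,[(4,6)])],[])],[8,3,3,3,1],true,3,5,[5,6]),
    (true,[([(0,11,[(6,8)]),(0,6,[(4,5)])],[]),([(0,1,[(4,6)])],[2])],[8,3],true,2,5,[3,5]),
    (true,[([(0,11,[(6,8)]),(0,6,[(4,5)])],[]),([(0,1,[(4,6)]),(0,2,[(3,3)])],[1,1,1])],[4,3],false,2,3,[3]),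
    (false,[([(0,11,[(6,8)]),(0,1,[(4,6)])],[2,2]),([(0,6,[(4,5)]),(0,1,[(3,3),(3,3)])],[1])],[2],false,1,0,[2]),
    (false,[([(0,11,[(6,8)]),(0,6,[(4,5)])],[]),([(0,1,[(4,6)]),(0,1,[(3,3),(3,3)]),(0,2,[(2,2)])],[2])],[2],false,1,0,[]),
    (true,[([(0,11,[(6,8)]),(0,1,[(4,6)])],[]),([(0,6,[(4,5)]),(0,6,[(4,5)])],[3,1])],[3,1],true,2,2,[3]),
    (true,[([(0,11,[(6,8)]),(0,1,[(4,6)])],[]),([(0,6,[(4,5)]),(0,6,[(4,5)])],[3,1]),([(0,2,[(3,3)])],[1])],[],false,1,0,[]),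
    (false,[([(0,10,[(6,8),(6,6)]),(0,1,[(4,6)])],[1])],[7,2,2],false,2,3,[3,4]),
    (false,[([(0,10,[(6,8),(6,6)]),(0,1,[(4,6)])],[1]),([(0,2,[(3,3)])],[2,1,1,1,1])],[2],false,1,0,[2]),
    (false,[([(0,10,[(6,8),(6,6)]),(0,1,[(4,6)])],[1]),([(0,6,[(3,3),(2,2)])],[3,1,1,1])],[],false,1,0,[]),
    (true,[([(0,10,[(6,8),(6,6)])],[4,2,2]),([(0,0,[(4,6),(4,4)])],[])],[],false,1,0,[]),
    (false,[([(0,11,[(6,8)]),(0,0,[(7,8)])],[2])],[7,2,2,1],true,3,3,[6]),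
    (false,[([(0,11,[(6,8)]),(0,1,[(4,6)])],[2,2]),([(0,11,[(7,8)])],[4,1,1])],[],false,1,0,[2,3]),
    (true,[([(0,0,[(6,8),(2,2)])],[]),([(0,3,[(7,8)]),(0,1,[(4,6)])],[2,2])],[3,1],false,2,1,[]),
    (true,[([(0,11,[(6,8)]),(0,1,[(4,6)])],[]),([(0,13,[(7,8),(3,3)])],[1,1,1,1])],[3],false,1,0,[]),
    (true,[([(0,13,[(9,11)])],[1,1,1])],[8,4,3,2,1],true,5,2,[8,9]),
    (true,[([(0,13,[(9,11)])],[]),([(0,11,[(6,8)])],[3,1,1])],[8],false,1,0,[3,4]),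
    (true,[([(0,13,[(9,11)]),(0,2,[(2,3)])],[1]),([(0,11,[(6,8)])],[3,1,1,1])],[3],false,1,0,[2,3]),
    (false,[([(0,13,[(9,11)]),(0,0,[(6,8),(2,2)])],[3]),([(0,2,[(2,3)])],[])],[3,2],false,2,1,[]),
    (true,[([(0,13,[(9,11)])],[1,1,1]),([(0,11,[(6,8)]),(0,1,[(2,3),(3,3)])],[1])],[3],false,1,0,[]),
    (true,[([(0,13,[(9,11)])],[1,1,1]),([(0,12,[(6,8),(4,4)])],[4,1,1])],[],false,1,0,[]),
    (false,[([(0,21,[(9,11),(9,9)])],[3,3,1])],[2,2],false,1,0,[]),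
    (true,[([(0,7,[(12,15)])],[1,1])],[8,3,3,1],true,3,4,[5,6]),
    (false,[([(0,7,[(12,15)])],[2,2]),([(0,6,[(4,5)])],[3,1,1,1,1,1])],[],false,1,0,[3]),
    (false,[([(0,7,[(12,15)]),(0,2,[(2,3)])],[2,1]),([(0,6,[(4,5)])],[3,1,1,1])],[],false,1,0,[2]),
    (false,[([(0,7,[(12,15)]),(0,2,[(2,3)]),(0,2,[(2,2)])],[]),([(0,6,[(4,5)])],[3,1,1,1])],[],false,1,0,[]),
    (false,[([(0,21,[(12,15),(6,6)])],[3,3,1])],[2,2],false,1,0,[]),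
    (false,[([(0,16,[(16,17)])],[6,3,3])],[2,1],false,2,1,[])]),
  ([9,7,6,5,3,2], [
    (false,[],[9,7,6,5,3,2],false,5,5,[8,12,17]),
    (true,[([(0,11,[(6,8)])],[])],[6,6,5,4,3],false,4,3,[6,8]),
    (false,[([(0,11,[(6,8)]),(0,1,[(5,6)])],[4,1])],[7,6],false,1,0,[3,4,6]),
    (false,[([(0,11,[(6,8)]),(0,1,[(5,6)])],[4,1]),([(0,2,[(2,3)])],[2,2,2,2,2])],[],false,1,0,[3]),
    (false,[([(0,11,[(6,8)]),(0,1,[(5,6)])],[4,2]),([(0,2,[(2,3)]),(0,2,[(2,3)])],[2,2,2])],[],false,1,0,[2,3]),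
    (true,[([(0,0,[(6,8),(2,2)]),(0,2,[(2,3)])],[]),([(0,1,[(5,6)]),(0,2,[(2,3)])],[])],[6,4],false,2,4,[]),
    (true,[([(0,11,[(6,8)]),(0,2,[(2,3)])],[]),([(0,1,[(5,6)]),(0,1,[(2,3),(3,3)])],[])],[5,4],false,2,3,[3]),
    (true,[([(0,11,[(6,8)]),(0,2,[(2,3)])],[]),([(0,1,[(5,6)]),(0,1,[(2,3),(3,3)])],[]),([(0,2,[(3,3)])],[2,2,2])],[],false,1,0,[2]),
    (false,[([(0,0,[(6,8),(2,2)]),(0,0,[(5,6),(3,3)])],[3]),([(0,2,[(2,3)]),(0,2,[(2,3)]),(0,2,[(3,3)])],[])],[],false,1,0,[]),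
    (false,[([(0,11,[(6,8)]),(0,0,[(5,6),(4,4)])],[1])],[7,6],false,2,4,[4]),
    (true,[([(0,12,[(6,8),(4,4)])],[2]),([(0,0,[(5,6),(3,4)])],[4,4])],[],false,1,0,[3]),
    (false,[([(0,11,[(6,8)]),(0,0,[(5,6),(3,4)])],[1]),([(0,8,[(4,4)]),(0,2,[(2,3)])],[2,2,2])],[],false,1,0,[2]),
    (false,[([(0,0,[(6,8),(2,2)]),(0,0,[(5,6),(3,4)])],[3]),([(0,8,[(4,4)]),(0,2,[(2,3)])],[1,1])],[],false,1,0,[]),
    (true,[([(0,11,[(6,8)])],[2]),([(0,1,[(5,6)]),(0,1,[(5,6)])],[])],[6,4],false,2,3,[3,4]),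
    (true,[([(0,11,[(6,8)]),(0,2,[(3,3)])],[]),([(0,1,[(5,6)]),(0,1,[(5,6)])],[])],[5,4],false,2,1,[]),
    (true,[([(0,12,[(6,8),(4,4)])],[3]),([(0,1,[(5,6)]),(0,1,[(5,6)])],[])],[5],false,1,0,[]),
    (false,[([(0,11,[(6,8)]),(0,11,[(7,8)])],[3])],[7,6],false,2,5,[3,6]),
    (false,[([(0,11,[(6,8)]),(0,13,[(7,8),(3,3)])],[3])],[7,3],false,2,3,[3]),
    (true,[([(0,11,[(6,8)])],[]),([(0,3,[(7,8)]),(0,1,[(3,3),(3,3)])],[])],[6,4],false,2,1,[]),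
    (true,[([(0,11,[(6,8)])],[]),([(0,3,[(7,8)]),(0,1,[(4,6)])],[])],[6,4],false,2,2,[3]),
    (true,[([(0,11,[(6,8)])],[]),([(0,3,[(7,8)]),(0,1,[(4,6)])],[]),([(0,2,[(3,3)])],[2,2,2,1])],[],false,1,0,[]),
    (true,[([(0,12,[(9,12)])],[2])],[6,5,4,3],false,4,3,[5,6,8,9]),
    (true,[([(0,16,[(9,12),(5,5)])],[])],[6,5,4],false,3,4,[4,5]),
    (true,[([(0,21,[(9,12),(5,5),(4,4)])],[])],[6,4,1],false,2,1,[]),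
    (true,[([(0,16,[(9,12),(5,5)])],[]),([(0,1,[(5,5)])],[3,3,3])],[],false,1,0,[]),
    (true,[([(0,12,[(9,12)])],[1]),([(0,1,[(6,6)])],[3,3,3])],[4],false,1,0,[3,4]),
    (true,[([(0,12,[(9,12)])],[2]),([(0,0,[(6,6),(2,3)])],[4,4])],[],false,1,0,[2,3]),
    (true,[([(0,12,[(9,12)])],[2]),([(0,3,[(6,6),(2,2)]),(0,2,[(2,3)])],[3])],[4],false,1,0,[2]),
    (true,[([(0,12,[(9,12)])],[2]),([(0,3,[(6,6),(2,2)]),(1,0,[(2,3),(2,2)])],[])],[4],false,1,0,[]),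
    (true,[([(0,21,[(9,12),(6,6),(3,3)])],[]),([(0,2,[(2,3)])],[1,1])],[6],false,1,0,[]),
    (true,[([(0,12,[(9,12)])],[2]),([(0,0,[(6,6),(4,4)])],[4,4])],[],false,1,0,[]),
    (true,[([(0,12,[(9,12)])],[]),([(0,3,[(7,8)])],[3,3,2])],[4],false,1,0,[3]),
    (true,[([(0,12,[(9,12)])],[2]),([(0,3,[(7,8)]),(0,2,[(2,3)])],[3])],[4],false,1,0,[2]),
    (true,[([(0,12,[(9,12)])],[2]),([(0,3,[(7,8)]),(1,0,[(2,3),(2,2)])],[])],[4],false,1,0,[]),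
    (false,[([(0,21,[(9,12),(9,9)])],[6,4,1])],[],false,1,0,[]),
    (true,[([(0,16,[(13,17)])],[])],[6,5,4],false,3,4,[4,5]),
    (true,[([(0,21,[(13,17),(4,4)])],[])],[6,4,1],false,2,1,[]),
    (true,[([(0,16,[(13,17)])],[]),([(0,1,[(5,5)])],[3,3,3])],[],false,1,0,[])]),
  ([9,8,4,3,2,2,2,2,1], [
    (false,[],[9,8,4,3,2,2,2,2,1],false,5,4,[8,11,14,17]),
    (false,[([(0,11,[(6,8)])],[3,1,1,1])],[9,4,2,2,2],false,1,0,[2,3,5,8]),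
    (false,[([(0,0,[(6,8),(2,2)])],[])],[9,8,2,2,2],false,2,10,[]),
    (false,[([(0,11,[(6,8)]),(0,2,[(3,3)])],[3,1])],[9,3,2,2,2],false,2,9,[3]),
    (false,[([(0,11,[(6,8)]),(0,1,[(3,3),(3,3)])],[1])],[9,3,2,2,2],false,3,3,[]),
    (false,[([(0,11,[(6,8)]),(0,6,[(4,5)])],[1])],[9,4,2,2,2],false,3,4,[5]),
    (false,[([(0,11,[(6,8)])],[4,1,1,1]),([(0,0,[(4,5),(4,5)])],[2,1,1,1,1])],[2],false,1,0,[2,3,5]),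
    (false,[([(0,0,[(6,8),(2,2)])],[]),([(0,6,[(4,5)]),(0,6,[(4,5)])],[1,1])],[9,2],true,2,4,[]),
    (false,[([(0,11,[(6,8)]),(0,11,[(4,5),(3,3)])],[]),([(0,1,[(4,5)])],[])],[9,2],true,2,3,[3]),
    (false,[([(0,11,[(6,8)]),(0,11,[(4,5),(3,3)])],[]),([(0,6,[(4,5)]),(0,2,[(3,3)])],[1,1,1,1])],[3,2],false,2,1,[]),
    (false,[([(0,11,[(6,8)]),(0,6,[(4,5)])],[1]),([(0,6,[(4,5)]),(0,6,[(4,5)])],[1,1,1])],[4,2],false,2,2,[3]),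
    (false,[([(0,11,[(6,8)]),(0,11,[(4,5),(3,3)])],[]),([(0,0,[(4,5),(4,5)])],[1,1,1,1,1])],[2],false,1,0,[]),
    (false,[([(0,11,[(6,8)]),(0,11,[(6,8)])],[])],[9,3,2,2,1],true,4,2,[6,7]),
    (false,[([(0,11,[(6,8)]),(0,11,[(6,8)])],[]),([(0,1,[(5,6)])],[])],[9,2],false,2,2,[3]),
    (false,[([(0,11,[(6,8)]),(0,11,[(6,8)])],[]),([(0,0,[(5,6),(3,3)])],[1,1,1,1,1])],[2],false,1,0,[]),
    (false,[([(0,11,[(6,8)]),(0,11,[(6,8)])],[]),([(0,14,[(7,7)])],[3,1,1,1,1])],[3],false,1,0,[]),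
    (false,[([(0,13,[(9,11)])],[2,1,1,1])],[9,2,2,2,2],false,2,8,[3,4,5,7,9]),
    (false,[([(0,10,[(9,11),(3,3)])],[1,1,1])],[9,3,2,2],false,3,3,[]),
    (false,[([(0,7,[(9,11),(4,4)])],[1,1,1])],[9,2,2,2],false,2,5,[4]),
    (false,[([(0,7,[(9,11),(3,4)]),(0,8,[(4,4)])],[2,2])],[4,2,2,2],false,2,3,[3,4]),
    (false,[([(0,7,[(9,11),(3,4)])],[1,1,1]),([(0,14,[(4,4),(3,3)])],[4,1,1,1,1])],[],false,1,0,[2]),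
    (false,[([(0,7,[(9,11),(3,4)]),(0,8,[(4,4)])],[2,2]),([(0,6,[(3,3),(2,2)])],[3])],[2],false,1,0,[]),
    (false,[([(0,7,[(9,11),(3,4)]),(0,8,[(4,4)]),(0,8,[(4,4)])],[])],[4,2,2,2],false,1,0,[]),
    (false,[([(0,27,[(9,11),(5,5)])],[6])],[9,2],true,2,4,[3,5]),
    (false,[([(0,9,[(9,11),(5,5),(3,3)])],[2,2,2])],[4,2,2],false,2,2,[3]),
    (false,[([(0,9,[(9,11),(5,5),(3,3)])],[2,2,2]),([(0,2,[(3,3)])],[2,1])],[2],false,1,0,[]),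
    (false,[([(0,21,[(9,11),(5,5),(4,5)])],[2,2,2])],[2,2,2],false,1,0,[2]),
    (false,[([(0,12,[(9,11)]),(0,14,[(5,5),(2,2)])],[]),([(0,6,[(4,5)])],[3,1,1,1,1])],[2],false,1,0,[]),
    (false,[([(0,12,[(9,11)]),(0,14,[(6,7)])],[])],[8,2,2,2],false,2,3,[3,4]),
    (false,[([(0,21,[(9,11),(6,7),(3,3)])],[2,2,2])],[2,2,2],false,1,0,[2]),
    (false,[([(0,10,[(9,11),(3,3)])],[1,1,1]),([(0,14,[(6,7)]),(0,2,[(2,2)])],[4,1,1])],[],false,1,0,[]),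
    (false,[([(0,7,[(9,11),(4,4)])],[1,1,1]),([(0,14,[(6,7)])],[4,1,1,1,1])],[],false,1,0,[]),
    (false,[([(0,21,[(9,11),(8,9)])],[2,2,2])],[2,2,2],false,1,0,[2]),
    (false,[([(0,13,[(9,11)]),(0,2,[(2,2)])],[1,1]),([(0,19,[(8,9)])],[5,1,1,1])],[],false,1,0,[]),
    (false,[([(0,20,[(12,14)])],[6,1])],[9,2,1],true,3,2,[5,6]),
    (false,[([(0,9,[(12,14),(4,5)])],[2,2,2])],[4,2,2],false,2,2,[3]),
    (false,[([(0,9,[(12,14),(4,5)])],[2,2,2]),([(0,2,[(3,3)])],[2,1])],[2],false,1,0,[]),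
    (false,[([(0,21,[(12,14),(6,6)])],[2,2,2])],[2,2,2],false,1,0,[]),
    (false,[([(0,23,[(15,17)])],[2,2,2,1])],[4,2,2,1],false,3,1,[])])]

theorem cj6d_2_ok : runAllJ S39 R39 F39 16 cj6d_2 = true := by decide +kernel

noncomputable def cj6d_3 : List (List ℕ × List NdJ) := [
  ([9,8,6,3,2,1,1,1,1], [
    (false,[],[9,8,6,3,2,1,1,1,1],false,5,4,[8,12,17]),
    (false,[([(0,11,[(6,8)])],[1,1])],[9,8,3,1,1],false,3,5,[6,8]),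
    (false,[([(0,11,[(6,8)]),(0,1,[(4,6)])],[2,2])],[8,3,1,1,1],false,1,0,[2,3,5,6]),
    (false,[([(0,0,[(6,8),(2,2)]),(0,1,[(4,6)])],[2])],[9,2,1,1,1],true,2,7,[]),
    (true,[([(0,11,[(6,8)]),(0,1,[(4,6)]),(0,2,[(3,3)])],[])],[4,3,3,3,2],false,2,6,[3]),
    (true,[([(0,11,[(6,8)]),(0,1,[(4,6)]),(0,2,[(3,3)])],[]),([(0,2,[(3,3)])],[2])],[4,3,3],false,2,4,[3]),
    (true,[([(0,11,[(6,8)]),(1,1,[(3,3),(3,3),(3,3)])],[1]),([(0,1,[(4,6)])],[])],[4,3],false,2,2,[3]),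
    (true,[([(0,11,[(6,8)]),(1,1,[(3,3),(3,3),(3,3)])],[1]),([(0,1,[(4,6)])],[]),([(0,2,[(3,3)])],[2,2])],[],false,1,0,[]),
    (false,[([(0,11,[(6,8)]),(0,1,[(4,6)])],[2,2]),([(0,6,[(4,5)])],[])],[8,1],false,1,0,[3,5]),
    (false,[([(0,11,[(6,8)]),(0,1,[(4,6)])],[2,2]),([(0,6,[(4,5)]),(0,2,[(2,3)])],[2,1,1])],[1,1],false,1,0,[2,3]),
    (false,[([(0,0,[(6,8),(2,2)]),(0,1,[(4,6)]),(0,2,[(2,3)])],[]),([(0,6,[(4,5)])],[1,1,1,1,1])],[2,1],false,1,0,[2]),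
    (true,[([(0,0,[(6,8),(2,2)])],[]),([(0,1,[(4,6)]),(0,6,[(4,5)]),(1,0,[(2,3),(2,2)])],[])],[3,2],false,2,2,[]),
    (false,[([(0,11,[(6,8)]),(0,1,[(4,6)])],[2,2]),([(0,11,[(4,5),(3,3)]),(0,2,[(2,3)])],[1,1])],[1],false,1,0,[3]),
    (true,[([(0,11,[(6,8)]),(0,11,[(4,5),(3,3)])],[4]),([(0,1,[(4,6)])],[]),([(0,2,[(2,3)]),(0,2,[(2,3)])],[])],[],false,1,0,[2]),
    (true,[([(0,0,[(6,8),(2,2)])],[]),([(0,1,[(4,6)]),(0,6,[(4,5)]),(0,1,[(2,3),(3,3)])],[]),([(0,2,[(2,3)])],[2])],[],false,1,0,[]),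
    (true,[([(0,11,[(6,8)]),(0,0,[(4,5),(4,5)])],[1]),([(0,1,[(4,6)])],[])],[4,3],false,2,2,[3]),
    (true,[([(0,11,[(6,8)]),(0,0,[(4,5),(4,5)])],[1]),([(0,1,[(4,6)])],[]),([(0,2,[(3,3)])],[2,2])],[],false,1,0,[]),
    (true,[([(0,11,[(6,8)]),(0,12,[(4,6),(6,6)])],[])],[4,3,3,2],false,3,2,[4]),
    (true,[([(0,10,[(6,8),(6,6)])],[5,1,1,1]),([(0,0,[(4,6),(4,4)])],[])],[],false,1,0,[]),
    (true,[([(0,11,[(6,8)]),(0,11,[(7,8)])],[3])],[4,3,3,2,1],false,4,1,[6]),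
    (true,[([(0,11,[(6,8)]),(0,11,[(7,8)])],[3]),([(0,1,[(5,6)])],[])],[4,3],false,2,1,[]),
    (false,[([(0,12,[(9,12)])],[1])],[9,8,1,1],false,2,8,[3,6,8,9]),
    (true,[([(0,7,[(9,12),(3,3)])],[])],[9,3,3,2],true,3,3,[]),
    (false,[([(0,12,[(9,12)]),(0,1,[(4,6)])],[2])],[8,2,1,1],true,3,2,[4,6]),
    (false,[([(0,12,[(9,12)]),(0,1,[(4,6)])],[2]),([(0,8,[(4,4)])],[1,1,1,1,1,1])],[1,1],false,1,0,[3]),
    (false,[([(0,12,[(9,12)]),(0,1,[(4,6)])],[2]),([(0,6,[(4,4)]),(0,2,[(2,3)])],[1,1,1])],[1],false,1,0,[2]),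
    (false,[([(0,12,[(9,12)]),(0,8,[(4,4)]),(0,2,[(2,3)])],[]),([(0,1,[(4,6)]),(0,2,[(2,2)])],[1,1,1])],[1],false,1,0,[]),
    (false,[([(0,12,[(9,12)]),(0,1,[(4,6)])],[2]),([(0,1,[(5,6)])],[1,1,1,1,1])],[1],false,1,0,[2]),
    (false,[([(0,12,[(9,12)]),(0,1,[(4,6)])],[2]),([(0,11,[(5,6),(2,2)])],[1,1,1,1])],[],false,1,0,[]),
    (true,[([(0,12,[(9,12)]),(0,11,[(7,8)])],[])],[4,3,3,2],false,3,2,[]),
    (false,[([(0,21,[(9,12),(9,9)])],[3,3,2])],[1,1,1],false,1,0,[]),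
    (false,[([(0,16,[(13,17)])],[2,2])],[9,1,1],false,1,0,[3,5]),
    (false,[([(0,16,[(13,17)]),(0,2,[(2,3)])],[2])],[8,1,1],true,2,3,[3]),
    (false,[([(0,16,[(13,17)]),(0,2,[(2,3)])],[2]),([(0,2,[(3,3)])],[1,1,1,1,1,1])],[1],false,1,0,[2]),
    (false,[([(0,16,[(13,17)]),(0,2,[(2,3)])],[2]),([(0,6,[(3,3),(2,2)])],[1,1,1,1,1])],[],false,1,0,[]),
    (false,[([(0,16,[(13,17)])],[2,2]),([(0,6,[(4,5)])],[1,1,1,1,1,1])],[],false,1,0,[2]),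
    (false,[([(0,16,[(13,17)]),(0,2,[(2,2)])],[2]),([(0,6,[(4,5)])],[1,1,1,1,1])],[],false,1,0,[])]),
  ([9,8,6,4,3,2], [
    (false,[],[9,8,6,4,3,2],false,5,4,[8,11,15,17]),
    (false,[([(0,11,[(6,8)])],[4,3])],[9,8],false,1,0,[3,5,7,8]),
    (false,[([(0,11,[(6,8)]),(0,2,[(2,3)])],[4,3,2])],[8,4],false,1,0,[2,3]),
    (true,[([(0,0,[(6,8),(2,2)]),(0,2,[(2,3)])],[])],[6,5,3,3,2],false,2,9,[]),
    (false,[([(0,11,[(6,8)]),(0,1,[(2,3),(3,3)])],[4,2])],[8,4],false,1,0,[2,3]),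
    (true,[([(0,0,[(6,8),(2,2)]),(0,2,[(2,3)])],[]),([(0,2,[(3,3)])],[2])],[6,5,3],false,2,7,[]),
    (true,[([(0,11,[(6,8)])],[3]),([(0,2,[(2,3)]),(0,2,[(3,3)]),(0,2,[(3,3)])],[])],[6,4,2],false,2,6,[3]),
    (true,[([(0,11,[(6,8)])],[3,1]),([(1,2,[(2,3),(3,3),(3,3),(3,3)])],[5])],[],false,1,0,[2,3]),
    (true,[([(0,0,[(6,8),(2,2)])],[1]),([(0,1,[(2,3),(3,3)]),(0,1,[(3,3),(3,3)])],[])],[6,3],false,2,3,[]),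
    (true,[([(0,11,[(6,8)])],[3,1]),([(1,2,[(2,3),(3,3),(3,3),(3,3),(3,3)])],[5])],[],false,1,0,[3]),
    (false,[([(0,11,[(6,8)]),(1,1,[(2,3),(3,3),(3,3)])],[2]),([(0,2,[(3,3)]),(0,2,[(3,3)]),(0,2,[(2,3)])],[2,1])],[],false,1,0,[2]),
    (false,[([(0,0,[(6,8),(2,2)]),(1,1,[(2,3),(3,3),(3,3)])],[]),([(0,2,[(3,3)]),(0,2,[(3,3)]),(0,2,[(2,3)])],[1,1,1])],[],false,1,0,[]),
    (false,[([(0,11,[(6,8)]),(0,6,[(4,5)])],[4])],[9,6],false,1,0,[2,3,5]),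
    (false,[([(0,0,[(6,8),(2,2)]),(0,6,[(4,5)])],[4,2])],[8,3],false,1,0,[2]),
    (true,[([(0,0,[(6,8),(2,2)])],[1,1]),([(1,2,[(4,5),(2,2)])],[5])],[],false,1,0,[2]),
    (true,[([(0,0,[(6,8),(2,2)])],[]),([(0,6,[(4,5)]),(1,0,[(2,2),(2,2)])],[])],[6,5],false,2,5,[]),
    (true,[([(0,11,[(6,8)])],[3]),([(0,11,[(4,5),(3,3)])],[4,3])],[6],false,1,0,[3]),
    (true,[([(0,11,[(6,8)])],[3,1]),([(1,2,[(4,5),(3,3),(2,3)])],[5])],[],false,1,0,[2,3]),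
    (true,[([(0,0,[(6,8),(2,2)])],[]),([(0,6,[(4,5)]),(0,1,[(3,3),(2,3)])],[])],[6,5],false,2,4,[]),
    (true,[([(0,11,[(6,8)])],[3,1]),([(1,2,[(4,5),(3,3),(2,3),(3,3)])],[5])],[],false,1,0,[2,3]),
    (true,[([(0,0,[(6,8),(2,2)]),(0,2,[(3,3)])],[]),([(0,6,[(4,5)]),(0,1,[(3,3),(2,3)])],[])],[5,3],false,2,2,[]),
    (true,[([(0,11,[(6,8)])],[3]),([(0,6,[(4,5)]),(0,1,[(3,3),(2,3)])],[]),([(0,2,[(3,3)]),(0,2,[(3,3)])],[2,2])],[],false,1,0,[2]),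
    (false,[([(0,0,[(6,8),(2,2)]),(0,11,[(4,5),(3,3)])],[2]),([(0,2,[(2,3)]),(0,2,[(3,3)]),(0,2,[(3,3)])],[2,1])],[],false,1,0,[]),
    (false,[([(0,11,[(6,8)]),(0,0,[(4,5),(4,5)])],[3])],[8,3],true,2,5,[3,4,5]),
    (false,[([(0,11,[(6,8)]),(0,0,[(4,5),(4,5)])],[2]),([(0,2,[(3,3)])],[2,2,2,1,1,1])],[],false,1,0,[3]),
    (false,[([(0,11,[(6,8)]),(0,0,[(4,5),(4,5)])],[2]),([(0,2,[(3,3)]),(0,2,[(2,3)])],[2,2,1,1])],[],false,1,0,[3]),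
    (false,[([(0,11,[(6,8)]),(0,0,[(4,5),(4,5)])],[2]),([(0,2,[(3,3)]),(0,2,[(2,3)]),(0,2,[(2,3)])],[2,1])],[],false,1,0,[2]),
    (false,[([(0,0,[(6,8),(2,2)]),(0,0,[(4,5),(4,5)])],[]),([(0,2,[(3,3)]),(0,2,[(2,3)]),(0,2,[(2,3)])],[1,1,1])],[],false,1,0,[]),
    (true,[([(0,12,[(6,8),(4,4)])],[4]),([(0,0,[(4,5),(4,5)])],[4,2])],[],false,1,0,[3]),
    (false,[([(0,11,[(6,8)]),(0,0,[(4,5),(4,5)])],[2]),([(0,8,[(4,4)]),(0,2,[(2,3)])],[2,1,1,1])],[],false,1,0,[2]),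
    (false,[([(0,0,[(6,8),(2,2)]),(0,0,[(4,5),(4,5)])],[]),([(0,8,[(4,4)]),(0,2,[(2,3)])],[1,1,1,1,1])],[],false,1,0,[]),
    (true,[([(0,11,[(6,8)])],[3,1]),([(0,7,[(4,5),(4,5),(5,5)])],[5])],[],false,1,0,[2]),
    (true,[([(0,7,[(6,8),(5,5),(2,2)])],[1]),([(0,0,[(4,5),(4,5)])],[4,2])],[],false,1,0,[]),
    (true,[([(0,7,[(6,8),(6,7)])],[1])],[6,5,3,2],false,4,2,[6,7]),
    (true,[([(0,7,[(6,8),(6,7)])],[]),([(0,1,[(5,6)])],[3,1,1])],[6],false,1,0,[3]),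
    (true,[([(0,7,[(6,8),(6,7)])],[2]),([(0,1,[(5,6)]),(0,2,[(2,3)])],[3])],[3],false,1,0,[2]),
    (true,[([(0,7,[(6,8),(6,7)])],[2]),([(0,1,[(5,6)]),(1,0,[(2,3),(2,2)])],[])],[3],false,1,0,[]),
    (true,[([(0,7,[(6,8),(6,7)])],[3]),([(0,14,[(7,7)])],[4,3])],[],false,1,0,[]),
    (false,[([(0,11,[(6,8)]),(0,3,[(8,8)])],[4])],[9,3],true,2,4,[3,5]),
    (true,[([(0,9,[(6,8),(8,8),(3,3)])],[])],[6,4,3],false,3,2,[]),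
    (true,[([(0,21,[(6,8),(8,8),(4,5)])],[])],[6,3,2],false,2,1,[]),
    (true,[([(0,13,[(9,11)])],[1,1])],[6,5,4,2,2],false,4,4,[6,9]),
    (true,[([(0,13,[(9,11)])],[]),([(0,1,[(5,6)])],[3,2,2])],[6,2],true,2,4,[4,5]),
    (true,[([(0,7,[(9,11),(3,4)])],[]),([(0,1,[(5,6)])],[3,1,1])],[6],false,1,0,[3]),
    (true,[([(0,7,[(9,11),(3,4)])],[2]),([(0,1,[(5,6)]),(0,2,[(2,3)])],[3])],[3],false,1,0,[2]),
    (true,[([(0,7,[(9,11),(3,4)])],[2]),([(0,1,[(5,6)]),(1,0,[(2,3),(2,2)])],[])],[3],false,1,0,[]),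
    (true,[([(0,13,[(9,11)])],[2,2]),([(0,12,[(5,6),(5,5)])],[5])],[],false,1,0,[]),
    (true,[([(0,13,[(9,11)])],[1,1]),([(0,0,[(7,9)])],[4,3])],[2],false,1,0,[2,3]),
    (true,[([(0,13,[(9,11)]),(0,2,[(2,2)])],[]),([(0,0,[(7,9)])],[4,2])],[2],false,1,0,[2]),
    (true,[([(0,7,[(9,11),(2,2),(2,2)])],[1]),([(0,0,[(7,9)])],[4,2])],[],false,1,0,[]),
    (true,[([(0,10,[(9,11),(3,3)])],[3]),([(0,0,[(7,9)])],[4,1])],[],false,1,0,[]),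
    (true,[([(0,7,[(12,15)])],[1])],[6,5,3,2],false,4,2,[6]),
    (true,[([(0,21,[(12,15),(5,6)])],[])],[6,3,2],false,2,1,[]),
    (true,[([(0,23,[(16,17)])],[1])],[6,4,3,1],false,2,1,[])]),
  ([9,8,6,5,2,1,1], [
    (false,[],[9,8,6,5,2,1,1],false,5,4,[8,11,15,17]),
    (false,[([(0,11,[(6,8)])],[1])],[9,8,6],false,3,6,[6,8]),
    (true,[([(0,11,[(6,8)]),(0,1,[(4,6)])],[])],[5,4,4,3,2],false,4,2,[5,6]),
    (true,[([(0,11,[(6,8)]),(0,1,[(4,6)])],[]),([(0,1,[(5,5)])],[3])],[5,4],false,2,4,[3,5]),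
    (true,[([(0,11,[(6,8)]),(0,1,[(4,6)])],[]),([(0,0,[(5,5),(3,3)])],[4])],[4],false,1,0,[3]),
    (false,[([(0,11,[(6,8)]),(0,1,[(4,6)]),(0,2,[(3,3)])],[]),([(0,1,[(5,5)]),(0,2,[(2,3)])],[2,2,2])],[],false,1,0,[2]),
    (true,[([(0,7,[(6,8),(5,5),(2,2)])],[]),([(0,1,[(4,6)]),(0,1,[(3,3),(2,3)])],[1])],[4],false,1,0,[]),
    (true,[([(0,11,[(6,8)]),(0,1,[(4,6)])],[]),([(0,0,[(5,5),(4,5)])],[4])],[4],false,1,0,[2]),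
    (true,[([(0,7,[(6,8),(5,5),(2,2)])],[]),([(0,1,[(4,6)]),(0,6,[(4,5)])],[2])],[4],false,1,0,[]),
    (true,[([(0,11,[(6,8)]),(0,1,[(4,6)])],[]),([(0,1,[(6,6)])],[3])],[5,4],false,2,3,[4]),
    (true,[([(0,11,[(6,8)]),(0,1,[(4,6)])],[]),([(0,0,[(6,6),(3,4)])],[4])],[4],false,1,0,[2]),
    (true,[([(0,7,[(6,8),(6,6)])],[]),([(0,1,[(4,6)]),(0,1,[(3,4),(2,2)])],[1])],[4],false,1,0,[]),
    (true,[([(0,11,[(6,8)]),(0,3,[(7,8)])],[])],[4,4,4,2,2],true,2,5,[3,6]),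
    (false,[([(0,11,[(6,8)]),(0,13,[(7,8),(3,3)])],[3])],[8,1,1],true,2,3,[3]),
    (true,[([(0,11,[(6,8)]),(0,1,[(3,3),(3,3)])],[]),([(0,3,[(7,8)])],[1])],[5,4],false,2,1,[]),
    (true,[([(0,11,[(6,8)]),(0,1,[(4,6)])],[]),([(0,3,[(7,8)])],[1])],[5,4],false,2,2,[3]),
    (true,[([(0,11,[(6,8)]),(0,1,[(4,6)])],[]),([(0,13,[(7,8),(3,3)])],[4])],[3],false,1,0,[]),
    (true,[([(0,13,[(9,11)])],[4])],[7,4,3,2,1],true,5,2,[8,9]),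
    (false,[([(0,13,[(9,11)]),(0,11,[(6,8)])],[3])],[8,1,1],true,2,3,[3,4]),
    (false,[([(0,13,[(9,11)]),(0,11,[(6,8)])],[3]),([(0,2,[(3,3)])],[1,1,1,1,1,1])],[1],false,1,0,[2]),
    (false,[([(0,13,[(9,11)]),(0,0,[(6,8),(2,2)])],[]),([(0,2,[(3,3)])],[1,1,1,1,1,1,1])],[1],false,1,0,[]),
    (false,[([(0,13,[(9,11)]),(0,12,[(6,8),(4,4)])],[])],[8,1],false,1,0,[]),
    (false,[([(0,21,[(9,11),(9,9)])],[4,4,2])],[1],false,1,0,[]),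
    (true,[([(0,7,[(12,15)])],[])],[7,4,4,2],false,3,2,[6]),
    (true,[([(0,7,[(12,15)])],[]),([(0,1,[(4,6)])],[3,2,1,1])],[4],false,1,0,[3]),
    (true,[([(0,7,[(12,15)])],[]),([(0,1,[(4,6)]),(0,2,[(2,3)])],[3,1])],[4],false,1,0,[2]),
    (true,[([(0,7,[(12,15)])],[]),([(0,1,[(4,6)]),(1,0,[(2,3),(2,2)])],[1])],[4],false,1,0,[]),
    (true,[([(0,16,[(16,17)])],[5])],[4,4,2],false,2,1,[])]),
  ([9,8,6,5,3,1], [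
    (false,[],[9,8,6,5,3,1],false,5,4,[8,11,15,17]),
    (false,[([(0,11,[(6,8)])],[3,3,2,1])],[9,6],false,1,0,[2,3,4,6,8]),
    (true,[([(0,0,[(6,8),(2,2)])],[])],[6,5,5,4,2],false,2,10,[]),
    (false,[([(0,11,[(6,8)]),(0,2,[(3,3)])],[3,3])],[9,6],false,1,0,[2,3]),
    (true,[([(0,0,[(6,8),(2,2)]),(0,2,[(3,3)])],[])],[5,5,4,3,2],false,2,8,[]),
    (true,[([(0,11,[(6,8)])],[3]),([(0,2,[(3,3)]),(0,2,[(3,3)])],[])],[6,5,4],false,3,4,[]),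
    (true,[([(0,12,[(6,8),(4,4)])],[4])],[5,5,4,2],true,2,8,[3,4]),
    (true,[([(0,7,[(6,8),(4,4),(3,3)])],[])],[6,5,4,2],false,3,5,[]),
    (true,[([(0,11,[(6,8)])],[3]),([(0,8,[(4,4)]),(0,8,[(4,4)])],[])],[6,5,2],false,3,2,[4]),
    (true,[([(0,12,[(6,8),(4,4)])],[4]),([(0,8,[(4,4)]),(0,8,[(4,4)])],[1])],[5,2],false,2,2,[3]),
    (true,[([(0,7,[(6,8),(4,4),(3,3)])],[]),([(0,0,[(4,4),(4,4)])],[4,3])],[],false,1,0,[]),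
    (false,[([(0,11,[(6,8)]),(0,1,[(5,6)])],[3])],[9,6],false,1,0,[2,3,4,6]),
    (false,[([(0,0,[(6,8),(2,2)]),(0,1,[(5,6)])],[1])],[9,6],false,2,6,[]),
    (true,[([(0,11,[(6,8)])],[3]),([(0,0,[(5,6),(3,3)])],[4,3])],[4],false,1,0,[2,3]),
    (false,[([(0,0,[(6,8),(2,2)]),(0,1,[(5,6)]),(0,2,[(3,3)])],[])],[8,5],false,2,4,[]),
    (true,[([(0,11,[(6,8)])],[3]),([(0,1,[(5,6)]),(0,1,[(3,3),(3,3)])],[])],[5,4],false,2,3,[3]),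
    (true,[([(0,11,[(6,8)])],[3]),([(0,1,[(5,6)]),(0,1,[(3,3),(3,3)])],[]),([(0,2,[(3,3)])],[2,2,2])],[],false,1,0,[2]),
    (true,[([(0,0,[(6,8),(2,2)])],[1]),([(0,1,[(5,6)]),(0,1,[(3,3),(3,3)])],[]),([(0,2,[(3,3)])],[2,2,2])],[],false,1,0,[]),
    (true,[([(0,11,[(6,8)])],[4]),([(0,1,[(5,6)]),(0,8,[(4,4)])],[])],[6,4],false,2,4,[3,4]),
    (true,[([(0,7,[(6,8),(4,4),(3,3)])],[]),([(0,1,[(5,6)])],[3,2])],[6],false,1,0,[3]),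
    (true,[([(0,7,[(6,8),(4,4),(3,3)])],[]),([(0,1,[(5,6)]),(0,2,[(2,3)])],[3])],[5],false,1,0,[2]),
    (true,[([(0,7,[(6,8),(4,4),(3,3)])],[]),([(0,1,[(5,6)]),(1,0,[(2,3),(2,2)])],[])],[5],false,1,0,[]),
    (true,[([(0,12,[(6,8),(4,4)])],[5]),([(0,1,[(5,6)]),(0,8,[(4,4)])],[])],[5],false,1,0,[2]),
    (true,[([(0,0,[(6,8),(2,2)])],[4,4]),([(0,10,[(5,6),(4,4),(4,4)])],[])],[],false,1,0,[]),
    (true,[([(0,11,[(6,8)])],[3]),([(0,1,[(5,6)]),(0,1,[(5,6)])],[])],[5,4],false,2,3,[3,4]),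
    (true,[([(0,11,[(6,8)])],[3]),([(0,1,[(5,6)]),(0,1,[(5,6)])],[]),([(0,2,[(3,3)])],[2,2,2])],[],false,1,0,[2]),
    (true,[([(0,0,[(6,8),(2,2)])],[2]),([(0,7,[(5,6),(5,6),(3,3)])],[5])],[],false,1,0,[]),
    (true,[([(0,11,[(6,8)])],[3]),([(0,1,[(5,6)]),(0,1,[(5,6)])],[]),([(0,8,[(4,4)])],[2,2,1])],[],false,1,0,[]),
    (false,[([(0,11,[(6,8)]),(0,3,[(7,8)])],[1])],[9,6],false,2,5,[3,4,5,6]),
    (false,[([(0,11,[(6,8)]),(0,3,[(7,8)]),(0,2,[(3,3)])],[])],[8,5],false,2,3,[3]),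
    (false,[([(0,11,[(6,8)]),(0,13,[(7,8),(3,3)])],[4]),([(0,2,[(3,3)])],[1,1,1,1,1,1])],[],false,1,0,[2]),
    (true,[([(0,0,[(6,8),(2,2)])],[4,4]),([(0,10,[(7,8),(3,3),(3,3)])],[])],[],false,1,0,[]),
    (true,[([(0,11,[(6,8)])],[3,2]),([(0,3,[(7,8)]),(0,8,[(4,4)])],[])],[4,3],false,2,2,[3]),
    (false,[([(0,7,[(6,8),(4,4),(3,3)]),(0,3,[(7,8)])],[4])],[5],false,1,0,[]),
    (true,[([(0,21,[(6,8),(7,8),(5,5)])],[])],[5,4,2],false,2,1,[]),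
    (false,[([(0,10,[(6,8),(6,6)]),(0,3,[(7,8)])],[4])],[6],false,1,0,[]),
    (true,[([(0,13,[(9,11)])],[2])],[6,5,4,2,2],false,4,4,[6,8,9]),
    (false,[([(0,13,[(9,11)]),(0,1,[(5,6)])],[3])],[9,3],true,2,4,[4,5]),
    (true,[([(0,7,[(9,11),(3,4)])],[]),([(0,1,[(5,6)])],[3,2])],[6],false,1,0,[3]),
    (true,[([(0,7,[(9,11),(3,4)])],[]),([(0,1,[(5,6)]),(0,2,[(2,3)])],[3])],[5],false,1,0,[2]),
    (true,[([(0,7,[(9,11),(3,4)])],[]),([(0,1,[(5,6)]),(1,0,[(2,3),(2,2)])],[])],[5],false,1,0,[]),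
    (true,[([(0,13,[(9,11)])],[3]),([(0,1,[(5,6)]),(0,6,[(5,5)])],[])],[5,2],false,1,0,[]),
    (true,[([(0,9,[(9,11),(7,8)])],[])],[5,4,4],false,2,2,[3]),
    (true,[([(0,9,[(9,11),(7,8)])],[]),([(0,2,[(3,3)])],[2,2,2])],[4],false,1,0,[]),
    (false,[([(0,21,[(9,11),(9,9)])],[5,4,2])],[],false,1,0,[]),
    (true,[([(0,7,[(12,15)])],[])],[6,5,4,2],false,4,2,[6]),
    (true,[([(0,21,[(12,15),(5,6)])],[])],[5,4,2],false,2,1,[]),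
    (true,[([(0,23,[(16,17)])],[])],[6,4,4,1],false,2,1,[])]),
  ([9,8,6,5,4,1], [
    (false,[],[9,8,6,5,4,1],false,5,5,[7,10,14,17]),
    (true,[([(0,14,[(6,7)])],[3])],[6,5,5,4,3],false,4,3,[5,7]),
    (true,[([(0,12,[(6,7),(5,5)])],[4])],[5,5,5,2],true,2,7,[3,4,5]),
    (true,[([(0,7,[(6,7),(5,5),(3,3)])],[])],[6,5,5,2],false,3,2,[]),
    (false,[([(0,13,[(6,7),(4,4)]),(0,6,[(5,5)])],[2])],[9,6],false,2,4,[4]),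
    (true,[([(0,7,[(6,7),(4,4),(3,4)])],[3]),([(0,6,[(5,5)])],[3,2])],[5],false,1,0,[3]),
    (true,[([(0,7,[(6,7),(4,4),(3,4)])],[5]),([(0,6,[(5,5)]),(0,2,[(2,3)])],[])],[5],false,1,0,[2]),
    (true,[([(0,7,[(6,7),(5,5),(2,3)])],[]),([(0,8,[(4,4)]),(0,1,[(3,4),(2,2)])],[3])],[5],false,1,0,[]),
    (true,[([(0,14,[(6,7)])],[3]),([(0,0,[(5,5),(5,5)])],[4,4])],[5],false,1,0,[3,4]),
    (true,[([(0,7,[(6,7),(5,5),(2,3)])],[3]),([(0,6,[(5,5)])],[3,2])],[5],false,1,0,[2,3]),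
    (true,[([(0,9,[(6,7),(5,5),(5,5),(2,2)])],[]),([(0,2,[(2,3)])],[2,2,2])],[5],false,1,0,[2]),
    (true,[([(0,21,[(6,7),(5,5),(5,5),(2,2),(2,2)])],[]),([(0,2,[(2,3)])],[2,1,1])],[5],false,1,0,[]),
    (true,[([(0,21,[(6,7),(5,5),(5,5),(3,3)])],[]),([(0,2,[(2,3)])],[2,1,1])],[5],false,1,0,[]),
    (false,[([(0,21,[(6,7),(5,5),(5,5),(4,4)])],[5,5,2])],[],false,1,0,[]),
    (true,[([(0,10,[(6,7),(6,7)])],[])],[6,5,5,3],false,3,3,[4,5,7]),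
    (true,[([(0,10,[(6,7),(6,7)])],[]),([(0,8,[(4,4)])],[2,1,1])],[6,5],false,2,3,[3,4]),
    (true,[([(0,21,[(6,7),(6,7),(4,4),(3,3)])],[])],[5,5,2],false,2,1,[]),
    (true,[([(0,10,[(6,7),(6,7)])],[]),([(0,8,[(4,4)]),(0,8,[(4,4)])],[2])],[6,3],false,1,0,[]),
    (true,[([(0,9,[(6,7),(6,7),(5,5)])],[])],[5,5,4],false,2,2,[3]),
    (true,[([(0,9,[(6,7),(6,7),(5,5)])],[]),([(0,2,[(3,3)])],[2,2,2])],[5],false,1,0,[]),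
    (true,[([(0,21,[(6,7),(6,7),(6,7)])],[])],[5,5,2],false,2,1,[]),
    (true,[([(0,0,[(8,10)])],[1])],[6,5,5,4,2],false,3,6,[4,6,8,10]),
    (true,[([(0,0,[(8,10)]),(0,8,[(4,4)])],[])],[5,5,4,3,2],false,4,2,[]),
    (false,[([(0,0,[(8,10)]),(0,1,[(5,6)])],[3])],[9,5],false,2,5,[3,4,5,6]),
    (true,[([(0,0,[(8,10)])],[4,3]),([(0,1,[(5,6)]),(0,2,[(3,3)])],[])],[5,2],true,2,3,[3]),
    (true,[([(0,0,[(8,10)])],[1]),([(0,1,[(5,6)]),(0,1,[(3,3),(3,3)])],[])],[5,5],false,1,0,[2]),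
    (false,[([(0,0,[(8,10)]),(0,1,[(5,6)])],[3]),([(0,2,[(3,3)]),(0,2,[(3,3)]),(0,2,[(2,2)])],[2,2,1])],[],false,1,0,[]),
    (true,[([(0,0,[(8,10)]),(0,8,[(4,4)])],[]),([(0,1,[(5,6)])],[3,1])],[5,4],false,2,2,[3]),
    (true,[([(0,0,[(8,10)]),(0,8,[(4,4)])],[]),([(0,0,[(5,6),(3,3)])],[4])],[5],false,1,0,[]),
    (true,[([(0,21,[(8,10),(5,6),(5,5)])],[])],[5,5,2],false,2,1,[]),
    (true,[([(0,0,[(8,10)])],[1]),([(0,1,[(5,6)]),(0,1,[(6,6)])],[])],[5,5],false,1,0,[]),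
    (false,[([(0,0,[(8,10)]),(0,3,[(7,8)])],[1])],[9,5],false,2,3,[3,4]),
    (true,[([(0,21,[(8,10),(7,8),(3,3)])],[])],[5,5,2],false,2,1,[]),
    (true,[([(0,10,[(8,10),(4,4)])],[]),([(0,3,[(7,8)])],[3,2])],[6],false,1,0,[]),
    (true,[([(0,21,[(8,10),(9,10)])],[])],[5,5,2],false,2,1,[]),
    (true,[([(0,10,[(11,14)])],[])],[6,5,5,3],false,3,3,[4,5,7]),
    (true,[([(0,10,[(11,14)])],[]),([(0,8,[(4,4)])],[2,1,1])],[6,5],false,2,3,[3,4]),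
    (true,[([(0,21,[(11,14),(4,4),(3,3)])],[])],[5,5,2],false,2,1,[]),
    (true,[([(0,10,[(11,14)])],[]),([(0,8,[(4,4)]),(0,8,[(4,4)])],[2])],[6,3],false,1,0,[]),
    (true,[([(0,9,[(11,14),(5,5)])],[])],[5,5,4],false,2,2,[3]),
    (true,[([(0,9,[(11,14),(5,5)])],[]),([(0,2,[(3,3)])],[2,2,2])],[5],false,1,0,[]),
    (true,[([(0,21,[(11,14),(6,7)])],[])],[5,5,2],false,2,1,[]),
    (true,[([(0,23,[(15,17)])],[])],[6,5,4,1],false,3,2,[])]),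
  ([9,8,7,3,2,1,1,1], [
    (false,[],[9,8,7,3,2,1,1,1],false,5,4,[8,11,15,17]),
    (false,[([(0,11,[(6,8)])],[1,1,1])],[9,8,3,1],false,1,0,[2,3,5,7,8]),
    (true,[([(0,0,[(6,8),(2,2)])],[])],[8,5,3,3,3],false,2,10,[]),
    (false,[([(0,11,[(6,8)]),(0,2,[(3,3)])],[1,1])],[9,7,2,1],true,3,4,[]),
    (true,[([(0,11,[(6,8)]),(0,6,[(4,5)])],[1])],[5,4,3,3,3],false,3,4,[4,5]),
    (true,[([(0,11,[(6,8)]),(0,6,[(4,5)])],[1]),([(0,8,[(4,4)])],[2])],[5,4,3],false,3,3,[4]),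
    (true,[([(0,11,[(6,8)]),(0,0,[(4,5),(4,4)])],[]),([(0,8,[(4,4)])],[2])],[4,3,1],false,3,1,[]),
    (true,[([(0,11,[(6,8)]),(0,0,[(4,5),(5,5)])],[])],[4,3,3,3,1],false,2,4,[3,5]),
    (true,[([(0,11,[(6,8)]),(0,0,[(4,5),(5,5)])],[]),([(0,2,[(3,3)])],[1])],[4,3,3],false,2,2,[3]),
    (true,[([(0,11,[(6,8)]),(0,0,[(4,5),(5,5)])],[]),([(0,1,[(3,3),(3,3)])],[2])],[3,3],false,1,0,[]),
    (true,[([(0,11,[(6,8)]),(0,0,[(4,5),(5,5)])],[]),([(0,1,[(4,5)])],[2])],[3,3],false,1,0,[2]),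
    (true,[([(0,7,[(6,8),(5,5),(2,2)])],[]),([(0,6,[(4,5)]),(0,6,[(4,5)])],[3,1])],[3],false,1,0,[]),
    (true,[([(0,7,[(6,8),(6,7)])],[])],[8,3,3,3],false,2,6,[3,5,6,7]),
    (true,[([(0,7,[(6,8),(6,7)]),(0,2,[(3,3)])],[1])],[4,3,3,3],false,2,4,[3]),
    (true,[([(0,11,[(6,8)]),(0,0,[(6,7),(3,3)])],[]),([(0,2,[(3,3)])],[1])],[4,3,3],false,2,2,[3]),
    (true,[([(0,7,[(6,8),(6,7)])],[]),([(0,2,[(3,3)]),(0,2,[(3,3)]),(0,2,[(3,3)])],[1,1])],[3,3],false,1,0,[]),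
    (true,[([(0,7,[(6,8),(6,7)]),(0,6,[(4,5)])],[])],[3,3,3,3],false,1,0,[2,3,4]),
    (true,[([(0,0,[(6,8),(2,2)]),(0,14,[(6,7)])],[]),([(0,6,[(4,5)])],[3,3])],[3,1],true,2,2,[]),
    (false,[([(0,7,[(6,8),(6,7)]),(0,2,[(3,3)])],[2,2]),([(0,6,[(4,5)])],[1,1,1,1,1])],[],false,1,0,[2]),
    (true,[([(0,7,[(6,8),(6,7)])],[]),([(0,6,[(4,5)]),(0,6,[(3,3),(2,2)])],[3,1])],[3],false,1,0,[]),
    (true,[([(0,7,[(6,8),(6,7)]),(0,6,[(4,5)])],[]),([(0,8,[(4,4)])],[2])],[3,3],false,1,0,[]),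
    (false,[([(0,21,[(6,8),(6,7),(6,6)])],[3,3,3])],[1,1],false,1,0,[2]),
    (true,[([(0,7,[(6,8),(6,7)])],[4,1,1]),([(0,3,[(6,6),(2,2)])],[])],[3],false,1,0,[]),
    (true,[([(0,7,[(6,8),(6,7)])],[]),([(0,14,[(7,7)])],[4,4,1,1])],[],false,1,0,[]),
    (false,[([(0,11,[(6,8)]),(0,3,[(8,8)])],[2,2])],[8,2,1,1],false,3,2,[5]),
    (true,[([(0,11,[(6,8)]),(0,6,[(4,5)])],[3]),([(0,3,[(8,8)])],[])],[5,3],false,2,1,[]),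
    (true,[([(0,13,[(9,11)])],[])],[8,5,3,3,2],false,4,2,[6,8,9]),
    (true,[([(0,13,[(9,11)]),(0,1,[(5,6)])],[1])],[3,3,3,3,2],true,2,4,[4,5]),
    (true,[([(0,13,[(9,11)])],[]),([(0,0,[(5,6),(3,4)])],[4,2,1,1])],[3],false,1,0,[3]),
    (true,[([(0,13,[(9,11)])],[]),([(0,0,[(5,6),(3,4)]),(0,2,[(2,3)])],[4,1])],[3],false,1,0,[2]),
    (true,[([(0,13,[(9,11)])],[]),([(0,11,[(5,6),(2,2)]),(1,1,[(3,4),(2,3)])],[])],[3],false,1,0,[]),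
    (true,[([(0,13,[(9,11)])],[]),([(0,1,[(5,6)]),(0,6,[(5,5)])],[1,1])],[5,3],false,1,0,[]),
    (false,[([(0,13,[(9,11)]),(0,3,[(7,8)])],[3,3])],[3,2,1,1],false,3,2,[]),
    (false,[([(0,21,[(9,11),(9,9)])],[3,3,3])],[1,1],false,1,0,[]),
    (true,[([(0,7,[(12,15)])],[])],[8,3,3,3],false,2,5,[3,4,5,6]),
    (false,[([(0,7,[(12,15)]),(0,2,[(3,3)])],[2,2])],[8,1,1],true,2,3,[3]),
    (false,[([(0,21,[(12,15),(3,3),(3,3)])],[3,3,3])],[1,1],false,1,0,[2]),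
    (false,[([(0,7,[(12,15)]),(0,2,[(3,3)])],[2,2]),([(0,6,[(3,3),(2,2)])],[1,1,1,1,1])],[],false,1,0,[]),
    (false,[([(0,7,[(12,15)]),(0,8,[(4,4)])],[2])],[9,1,1],false,2,2,[3]),
    (true,[([(0,7,[(12,15)])],[]),([(0,14,[(4,4),(3,3)])],[4,4,1,1])],[],false,1,0,[]),
    (false,[([(0,21,[(12,15),(5,5)])],[3,3,3])],[1,1],false,1,0,[2]),
    (true,[([(0,7,[(12,15)])],[]),([(0,14,[(5,5),(2,2)])],[4,4,1,1])],[],false,1,0,[]),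
    (false,[([(0,21,[(12,15),(6,6)])],[3,3,3])],[1,1],false,1,0,[]),
    (false,[([(0,16,[(16,17)])],[2,2,2])],[8,1],false,2,1,[])]),
  ([9,8,7,3,2,2,1], [
    (false,[],[9,8,7,3,2,2,1],false,5,4,[7,10,14,17]),
    (false,[([(0,14,[(6,7)])],[3,1,1])],[9,8,3],false,1,0,[3,6,7]),
    (true,[([(0,0,[(6,7),(2,3)])],[])],[7,6,3,3,3],false,3,6,[]),
    (true,[([(0,14,[(6,7)]),(0,1,[(4,6)])],[])],[6,4,3,3,3],false,3,4,[4,5,6]),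
    (true,[([(0,14,[(6,7)]),(0,1,[(4,6)])],[]),([(0,8,[(4,4)])],[2])],[6,4,3],false,3,3,[4]),
    (true,[([(0,13,[(6,7),(4,4)])],[]),([(0,1,[(4,6)]),(0,8,[(4,4)])],[3,3])],[3,2],false,2,2,[3]),
    (false,[([(0,10,[(6,7),(4,4),(3,3)]),(0,1,[(4,6)])],[2]),([(0,8,[(4,4)])],[1,1,1,1,1,1])],[],false,1,0,[]),
    (false,[([(0,14,[(6,7)]),(0,1,[(4,6)])],[1]),([(0,6,[(5,5)])],[3,2,2,2,2,2])],[],false,1,0,[2,3,5]),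
    (false,[([(0,10,[(6,7),(5,5),(2,2)]),(0,1,[(4,6)])],[2])],[8,2],true,2,3,[]),
    (true,[([(0,25,[(6,7),(3,3)])],[4,4]),([(0,1,[(4,6)]),(0,6,[(5,5)])],[])],[3],false,1,0,[3]),
    (false,[([(0,0,[(6,7),(3,3)]),(0,2,[(2,3)])],[2,2,2]),([(0,1,[(4,6)]),(0,6,[(5,5)])],[1,1])],[],false,1,0,[2]),
    (false,[([(0,10,[(6,7),(5,5),(2,2)]),(0,1,[(4,6)])],[2]),([(0,2,[(3,3)]),(0,2,[(2,3)])],[1,1,1,1])],[],false,1,0,[]),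
    (false,[([(0,14,[(6,7)]),(0,1,[(4,6)])],[1]),([(0,1,[(5,5)]),(0,1,[(4,5)])],[2,2,2])],[],false,1,0,[2]),
    (false,[([(0,0,[(6,7),(2,2)]),(0,1,[(4,6)])],[2,2]),([(0,6,[(5,5)]),(0,6,[(4,5)])],[1,1])],[],false,1,0,[]),
    (false,[([(0,10,[(6,7),(6,6)]),(0,1,[(4,6)])],[2])],[8,2],true,2,3,[3,4]),
    (false,[([(0,10,[(6,7),(6,6)]),(0,1,[(4,6)])],[2]),([(0,2,[(3,3)])],[2,1,1,1,1,1])],[],false,1,0,[2]),
    (false,[([(0,10,[(6,7),(6,6)]),(0,1,[(4,6)])],[2]),([(0,2,[(3,3)]),(0,2,[(2,2)])],[1,1,1,1])],[],false,1,0,[]),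
    (false,[([(0,10,[(6,7),(6,6)]),(0,1,[(4,6)])],[2]),([(0,8,[(4,4)])],[1,1,1,1,1,1])],[],false,1,0,[]),
    (true,[([(0,10,[(6,7),(7,7)])],[4,2])],[4,3,3,2],false,3,2,[6]),
    (false,[([(0,10,[(6,7),(7,7)]),(0,1,[(4,6)])],[2])],[8,2],false,2,2,[3]),
    (false,[([(0,10,[(6,7),(7,7)]),(0,1,[(4,6)])],[2]),([(0,2,[(3,3)])],[2,1,1,1,1,1])],[],false,1,0,[]),
    (true,[([(0,0,[(8,10)])],[])],[7,6,3,3,3],false,3,6,[5,6,8,9,10]),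
    (true,[([(0,0,[(8,10)]),(0,6,[(4,5)])],[])],[6,3,3,3,2],true,3,3,[5]),
    (true,[([(0,0,[(8,10)])],[]),([(0,6,[(4,5)]),(0,6,[(4,5)])],[3])],[6,3],false,2,3,[3,4]),
    (true,[([(0,0,[(8,10)]),(0,6,[(4,5)])],[]),([(0,6,[(4,5)]),(0,2,[(3,3)])],[3])],[3,3],false,1,0,[2]),
    (true,[([(0,7,[(8,10),(4,5)])],[1]),([(0,6,[(4,5)]),(0,6,[(3,3),(2,2)])],[3])],[3],false,1,0,[]),
    (true,[([(0,7,[(8,10),(4,5)])],[1]),([(0,6,[(4,5)]),(0,6,[(4,4)])],[3])],[3],false,1,0,[]),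
    (false,[([(0,25,[(8,10)]),(0,14,[(6,6)])],[])],[8,7],false,2,4,[3,5]),
    (true,[([(0,9,[(8,10),(6,6),(3,3)])],[5])],[3,3,2],false,2,2,[3]),
    (false,[([(0,9,[(8,10),(6,6),(3,3)]),(0,2,[(3,3)])],[2])],[8],false,1,0,[]),
    (false,[([(0,21,[(8,10),(6,6),(4,5)])],[3,3,3])],[2],false,1,0,[2]),
    (true,[([(0,7,[(8,10),(4,5)])],[4,2]),([(0,3,[(6,6),(2,2)])],[])],[3],false,1,0,[]),
    (true,[([(0,0,[(8,10)]),(0,3,[(7,8)])],[])],[3,3,3,3,2],true,2,3,[3,4]),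
    (false,[([(0,21,[(8,10),(7,8),(3,3)])],[3,3,3])],[2],false,1,0,[2]),
    (true,[([(0,7,[(8,10),(3,3),(2,2)])],[4,2]),([(0,3,[(7,8)])],[])],[3],false,1,0,[]),
    (true,[([(0,10,[(8,10),(4,4)])],[4,2]),([(0,3,[(7,8)])],[])],[4],false,1,0,[]),
    (true,[([(0,9,[(8,10),(9,9)])],[5])],[3,3,2],false,2,1,[]),
    (false,[([(0,21,[(8,10),(10,10)])],[3,3,3])],[2],false,1,0,[]),
    (false,[([(0,10,[(11,14)])],[2,2,2])],[9,3],true,2,6,[3,6,7]),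
    (false,[([(0,10,[(11,14)]),(0,2,[(3,3)])],[2,2])],[8,3],true,2,4,[3]),
    (false,[([(0,10,[(11,14)]),(0,1,[(3,3),(3,3)])],[2])],[8,2],false,2,2,[3]),
    (false,[([(0,10,[(11,14)]),(0,1,[(3,3),(3,3)])],[2]),([(0,2,[(3,3)])],[2,1,1,1,1,1])],[],false,1,0,[]),
    (false,[([(0,10,[(11,14)]),(0,1,[(4,6)])],[2])],[8,2],true,2,3,[3,4]),
    (false,[([(0,10,[(11,14)]),(0,1,[(4,6)])],[2]),([(0,2,[(3,3)])],[2,1,1,1,1,1])],[],false,1,0,[2]),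
    (false,[([(0,10,[(11,14)]),(0,1,[(4,6)])],[2]),([(0,2,[(3,3)]),(0,2,[(2,2)])],[1,1,1,1])],[],false,1,0,[]),
    (false,[([(0,10,[(11,14)]),(0,1,[(4,6)])],[2]),([(0,8,[(4,4)])],[1,1,1,1,1,1])],[],false,1,0,[]),
    (false,[([(0,21,[(11,14),(7,7)])],[3,3,3])],[2],false,1,0,[]),
    (true,[([(0,23,[(15,17)])],[5,1])],[3,3,2,1],false,3,1,[])]),
  ([9,8,7,3,3,2,1], [
    (false,[],[9,8,7,3,3,2,1],false,4,8,[6,10,15,17]),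
    (true,[([(0,1,[(5,6)])],[])],[7,6,5,3,3,3],false,4,5,[6]),
    (true,[([(0,1,[(5,6)]),(0,1,[(5,6)])],[3])],[6,3,3,3,2,1],true,4,3,[6]),
    (true,[([(0,1,[(5,6)]),(0,1,[(5,6)])],[3]),([(0,1,[(5,6)])],[])],[6,3,3],false,2,4,[3,5]),
    (true,[([(0,1,[(5,6)]),(0,1,[(5,6)])],[3]),([(0,1,[(5,6)]),(0,2,[(3,3)])],[1])],[3,3,2],false,2,2,[3]),
    (true,[([(0,1,[(5,6)]),(0,1,[(5,6)])],[3]),([(0,1,[(5,6)]),(0,2,[(3,3)])],[1]),([(0,2,[(3,3)])],[2])],[3],false,1,0,[]),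
    (true,[([(0,1,[(5,6)]),(0,1,[(5,6)])],[3]),([(0,1,[(5,6)]),(0,6,[(4,5)])],[])],[3,3,1],false,2,1,[]),
    (true,[([(0,0,[(7,10)])],[1])],[7,6,3,3,3],false,3,6,[5,6,8,9,10]),
    (true,[([(0,0,[(7,10)]),(0,1,[(4,5)])],[])],[6,3,3,3,2],true,3,3,[5]),
    (false,[([(0,0,[(7,10)])],[2,2,2,2]),([(0,6,[(4,5)]),(0,6,[(4,5)])],[3,1,1])],[],false,1,0,[2,3,5]),
    (false,[([(0,0,[(7,10)]),(0,2,[(2,2)])],[2,2,2]),([(0,6,[(4,5)]),(0,6,[(4,5)])],[3,1])],[],false,1,0,[2]),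
    (false,[([(0,0,[(7,10)]),(1,0,[(2,2),(2,2)])],[2,2]),([(0,6,[(4,5)]),(0,6,[(4,5)])],[2,1])],[],false,1,0,[2]),
    (false,[([(0,0,[(7,10)]),(1,0,[(2,2),(2,2),(2,2)])],[2,2]),([(0,6,[(4,5)]),(0,6,[(4,5)])],[2,1])],[],false,1,0,[2]),
    (false,[([(0,0,[(7,10)]),(1,0,[(2,2),(2,2),(2,2)])],[2,2]),([(0,6,[(4,5)]),(0,6,[(4,5)]),(0,2,[(2,2)])],[])],[],false,1,0,[]),
    (false,[([(0,0,[(7,10)]),(0,2,[(3,3)])],[2,2,2]),([(0,6,[(4,5)]),(0,6,[(4,5)])],[3,1])],[],false,1,0,[3]),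
    (false,[([(0,0,[(7,10)]),(0,1,[(3,3),(2,3)])],[2,2]),([(0,6,[(4,5)]),(0,6,[(4,5)])],[2,1])],[],false,1,0,[2]),
    (false,[([(0,0,[(7,10)]),(0,1,[(3,3),(2,3)])],[2,2]),([(0,6,[(4,5)]),(0,6,[(4,5)]),(0,2,[(2,2)])],[])],[],false,1,0,[]),
    (false,[([(0,0,[(7,10)])],[2,2,2,2]),([(0,6,[(4,5)]),(0,6,[(4,5)]),(0,6,[(4,5)])],[])],[],false,1,0,[2]),
    (false,[([(0,0,[(7,10)]),(0,1,[(4,5)])],[2,2]),([(0,6,[(4,5)]),(0,6,[(4,5)]),(0,2,[(2,2)])],[])],[],false,1,0,[]),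
    (false,[([(0,0,[(7,10)]),(0,1,[(6,6)])],[2,2])],[8,3,2],false,3,2,[5,6]),
    (true,[([(0,0,[(7,10)]),(0,1,[(6,6)])],[]),([(0,6,[(4,5)])],[3,3,1])],[3,2],false,2,2,[3]),
    (true,[([(0,0,[(7,10)]),(0,2,[(3,3)])],[4]),([(0,13,[(6,6),(4,5)])],[1,1])],[3],false,1,0,[]),
    (false,[([(0,0,[(7,10)]),(0,1,[(6,6)])],[2,2]),([(0,1,[(6,6)])],[3,1,1,1,1])],[],false,1,0,[]),
    (true,[([(0,0,[(7,10)])],[3,2]),([(0,3,[(7,8)])],[])],[7,3],true,2,4,[3,5]),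
    (true,[([(0,0,[(7,10)]),(0,2,[(3,3)])],[3]),([(0,3,[(7,8)])],[])],[6,3],false,2,2,[3]),
    (true,[([(0,0,[(7,10)]),(0,2,[(3,3)])],[4]),([(0,13,[(7,8),(3,3)])],[1,1])],[3],false,1,0,[]),
    (true,[([(0,0,[(7,10)]),(0,1,[(4,5)])],[]),([(0,3,[(7,8)])],[])],[6,3],false,2,1,[]),
    (false,[([(0,0,[(7,10)]),(0,4,[(9,9)])],[4,4])],[3,2,1],false,3,1,[]),
    (false,[([(0,21,[(7,10),(10,10)])],[3,3,3])],[3],false,1,0,[2]),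
    (true,[([(0,0,[(7,10)])],[1]),([(0,28,[(10,10),(2,2)])],[4,2,1])],[3],false,1,0,[]),
    (false,[([(0,7,[(11,15)])],[2,2,2])],[9,3],true,2,6,[3,4,5,7]),
    (false,[([(0,7,[(11,15)]),(0,2,[(3,3)])],[2,2])],[8,3],true,2,4,[3]),
    (false,[([(0,7,[(11,15)]),(0,2,[(3,3)])],[2,2]),([(0,2,[(3,3)])],[2,2,1,1,1,1])],[],false,1,0,[3]),
    (false,[([(0,7,[(11,15)]),(0,2,[(3,3)])],[2,2]),([(0,2,[(3,3)]),(0,2,[(2,3)])],[2,1,1,1])],[],false,1,0,[2]),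
    (false,[([(0,7,[(11,15)]),(0,2,[(3,3)])],[2,2]),([(0,2,[(3,3)]),(0,2,[(2,3)]),(0,2,[(2,2)])],[1,1])],[],false,1,0,[]),
    (false,[([(0,7,[(11,15)]),(0,8,[(4,4)])],[2])],[9,3],false,2,3,[3,4]),
    (false,[([(0,7,[(11,15)]),(0,8,[(4,4)]),(0,2,[(3,3)])],[])],[8,3],false,2,1,[]),
    (false,[([(0,7,[(11,15)]),(0,8,[(4,4)]),(0,8,[(4,4)])],[])],[7,3],false,1,0,[]),
    (true,[([(0,7,[(11,15)])],[2]),([(0,6,[(5,5)])],[3,3,1,1])],[3],false,1,0,[3]),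
    (true,[([(0,7,[(11,15)]),(0,2,[(2,3)])],[]),([(0,6,[(5,5)])],[3,3,1])],[3],false,1,0,[2]),
    (true,[([(0,7,[(11,15)]),(0,2,[(2,3)])],[]),([(0,14,[(5,5),(2,2)])],[4,4])],[],false,1,0,[]),
    (true,[([(0,7,[(11,15)])],[2]),([(0,14,[(6,7)])],[4,4,1])],[],false,1,0,[2]),
    (true,[([(0,7,[(11,15)]),(0,2,[(2,2)])],[]),([(0,14,[(6,7)])],[4,4])],[],false,1,0,[]),
    (false,[([(0,15,[(16,17)])],[3,3,3,2])],[3,2],false,2,1,[])])]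

theorem cj6d_3_ok : runAllJ S39 R39 F39 16 cj6d_3 = true := by decide +kernel

noncomputable def cj6d_4 : List (List ℕ × List NdJ) := [
  ([9,8,7,4,3,1], [
    (false,[],[9,8,7,4,3,1],false,5,4,[7,10,14,17]),
    (false,[([(0,14,[(6,7)])],[3,3,2])],[9,8],false,1,0,[3,4,5,7]),
    (true,[([(0,0,[(6,7),(2,3)])],[])],[6,5,5,3,3],false,3,6,[]),
    (true,[([(0,13,[(6,7),(4,4)])],[])],[6,5,5,3,2],false,4,2,[]),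
    (false,[([(0,14,[(6,7)]),(0,6,[(5,5)])],[3,2])],[8,7],false,2,7,[3,4,5]),
    (true,[([(0,7,[(6,7),(5,5),(3,3)])],[])],[6,5,3,3],false,3,5,[]),
    (true,[([(0,13,[(6,7),(4,4)])],[]),([(0,6,[(5,5)])],[3,2])],[6,5],false,2,4,[4]),
    (true,[([(0,7,[(6,7),(4,4),(3,4)])],[]),([(0,6,[(5,5)])],[3,3])],[6],false,1,0,[3]),
    (true,[([(0,7,[(6,7),(4,4),(3,4)])],[5]),([(0,1,[(5,5)]),(0,2,[(2,3)])],[])],[3],false,1,0,[2]),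
    (true,[([(0,13,[(6,7),(4,4)])],[1]),([(1,2,[(5,5),(3,4),(2,3),(2,2)])],[5])],[],false,1,0,[]),
    (true,[([(0,12,[(6,7),(5,5)])],[4]),([(0,6,[(5,5)])],[3,3])],[5],false,1,0,[3,4]),
    (true,[([(0,0,[(6,7),(2,3)])],[3]),([(0,6,[(5,5)]),(0,1,[(5,5)])],[])],[5,3],false,2,2,[3]),
    (true,[([(0,21,[(6,7),(5,5),(5,5),(3,3)])],[]),([(0,2,[(2,3)])],[2,2,1])],[3],false,1,0,[]),
    (false,[([(0,21,[(6,7),(5,5),(5,5),(4,4)])],[5,3,3])],[],false,1,0,[]),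
    (true,[([(0,10,[(6,7),(6,7)])],[4])],[5,4,3,2],false,4,2,[6,7]),
    (false,[([(0,10,[(6,7),(6,7)]),(0,1,[(5,6)])],[4])],[8],false,1,0,[2,3]),
    (true,[([(0,10,[(6,7),(6,7)])],[5]),([(0,1,[(5,6)]),(0,2,[(2,2)])],[])],[4],false,1,0,[2]),
    (false,[([(0,10,[(6,7),(6,7)]),(0,0,[(5,6),(2,2),(2,2)])],[])],[8],false,1,0,[]),
    (false,[([(0,10,[(6,7),(6,7)]),(0,0,[(5,6),(3,3)])],[])],[8],false,1,0,[]),
    (false,[([(0,21,[(6,7),(6,7),(7,7)])],[5,3,3])],[],false,1,0,[]),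
    (true,[([(0,0,[(8,10)])],[1])],[6,5,4,3,3],false,4,4,[5,6,8,10]),
    (true,[([(0,7,[(8,10),(5,5)])],[])],[6,5,3,3],false,3,5,[5]),
    (true,[([(0,0,[(8,10)])],[3]),([(0,6,[(5,5)]),(0,1,[(4,5)])],[])],[5,3],false,2,2,[3]),
    (true,[([(0,7,[(8,10),(5,5)])],[5]),([(0,1,[(4,5)]),(0,2,[(3,3)])],[])],[3],false,1,0,[]),
    (false,[([(0,0,[(8,10)]),(0,1,[(6,6)])],[2,2])],[8,4],false,2,4,[3,5]),
    (true,[([(0,0,[(8,10)])],[4]),([(0,1,[(6,6)]),(0,2,[(3,3)])],[])],[6,3],false,2,2,[3]),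
    (false,[([(0,0,[(8,10)]),(0,1,[(6,6)])],[2,2]),([(0,2,[(3,3)]),(0,2,[(3,3)])],[2,2,1,1])],[],false,1,0,[]),
    (true,[([(0,21,[(8,10),(6,6),(4,5)])],[])],[5,3,3],false,2,1,[]),
    (false,[([(0,0,[(8,10)]),(0,3,[(7,8)])],[2])],[9,3],false,2,3,[3,4]),
    (true,[([(0,21,[(8,10),(7,8),(3,3)])],[])],[5,3,3],false,2,1,[]),
    (true,[([(0,10,[(8,10),(4,4)])],[3]),([(0,3,[(7,8)])],[3,1])],[3],false,1,0,[]),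
    (true,[([(0,21,[(8,10),(9,10)])],[])],[5,3,3],false,2,1,[]),
    (true,[([(0,10,[(11,14)])],[4])],[5,4,3,2],false,4,2,[6,7]),
    (false,[([(0,10,[(11,14)]),(0,1,[(5,6)])],[4])],[8],false,1,0,[2,3]),
    (true,[([(0,10,[(11,14)])],[5]),([(0,1,[(5,6)]),(0,2,[(2,2)])],[])],[4],false,1,0,[2]),
    (false,[([(0,10,[(11,14)]),(0,0,[(5,6),(2,2),(2,2)])],[])],[8],false,1,0,[]),
    (false,[([(0,10,[(11,14)]),(0,0,[(5,6),(3,3)])],[])],[8],false,1,0,[]),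
    (false,[([(0,21,[(11,14),(7,7)])],[5,3,3])],[],false,1,0,[]),
    (true,[([(0,15,[(15,17)])],[2])],[5,3,3,2],false,3,2,[])]),
  ([9,8,7,4,3,2], [
    (false,[],[9,8,7,4,3,2],false,5,4,[8,11,15,17]),
    (false,[([(0,11,[(6,8)])],[4,3,1])],[9,8],false,1,0,[3,4,6,8]),
    (false,[([(0,11,[(6,8)])],[4,3,1]),([(0,2,[(2,3)])],[2,2,2,2,2,2,2])],[],false,1,0,[2,3]),
    (true,[([(0,0,[(6,8),(2,2)]),(0,2,[(2,3)])],[])],[6,5,3,3,3],false,2,9,[]),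
    (true,[([(0,11,[(6,8)])],[3]),([(0,1,[(2,3),(3,3)])],[3,3,1])],[6,3],false,1,0,[2,3]),
    (true,[([(0,0,[(6,8),(2,2)])],[]),([(0,2,[(2,3)]),(0,2,[(3,3)])],[2,1])],[6,5,3],false,2,7,[]),
    (true,[([(0,11,[(6,8)])],[3]),([(0,2,[(2,3)]),(0,2,[(3,3)]),(0,2,[(3,3)])],[])],[6,4,3],false,3,3,[]),
    (true,[([(0,12,[(6,8),(4,4)])],[4])],[6,5,3,3],false,3,5,[4]),
    (true,[([(0,12,[(6,8),(4,4)])],[4]),([(0,8,[(4,4)])],[2])],[6,5],false,2,5,[3,4]),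
    (true,[([(0,11,[(6,8)])],[4,4]),([(0,8,[(4,4)]),(0,8,[(4,4)]),(0,2,[(3,3)])],[])],[3,2,1],false,3,1,[]),
    (true,[([(0,11,[(6,8)])],[3]),([(0,8,[(4,4)]),(0,8,[(4,4)]),(0,8,[(4,4)])],[])],[4,3,3],false,2,2,[3]),
    (true,[([(0,7,[(6,8),(4,4),(3,3)])],[2]),([(0,11,[(4,4),(4,4)])],[4,4])],[],false,1,0,[]),
    (true,[([(0,11,[(6,8)])],[3]),([(0,1,[(5,6)])],[3,3,1])],[6,3],false,1,0,[2,3,4,5,6]),
    (false,[([(0,0,[(6,8),(2,2)]),(0,1,[(5,6)])],[4,2])],[8,3],false,1,0,[2]),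
    (true,[([(0,0,[(6,8),(2,2)])],[1]),([(0,11,[(5,6),(2,2)])],[4,4])],[6],false,1,0,[2]),
    (false,[([(0,0,[(6,8),(2,2)]),(0,0,[(5,6),(2,2),(2,2)])],[2])],[8,3],true,2,4,[]),
    (true,[([(0,11,[(6,8)])],[3,1]),([(0,0,[(5,6),(3,3)])],[4,4])],[3],false,1,0,[2,3]),
    (false,[([(0,0,[(6,8),(2,2)]),(0,0,[(5,6),(3,3)])],[2])],[8,3],true,2,4,[]),
    (true,[([(0,11,[(6,8)])],[4,3]),([(0,1,[(5,6)]),(0,2,[(3,3)])],[]),([(0,2,[(3,3)])],[2,2,1,1])],[],false,1,0,[2,3]),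
    (false,[([(0,0,[(6,8),(2,2)]),(0,0,[(5,6),(3,3)])],[2]),([(0,2,[(3,3)])],[2,2,1,1,1,1])],[],false,1,0,[2]),
    (false,[([(0,0,[(6,8),(2,2)]),(0,0,[(5,6),(3,3)])],[2]),([(0,2,[(3,3)]),(0,2,[(2,2)])],[2,1,1,1])],[],false,1,0,[2]),
    (false,[([(0,0,[(6,8),(2,2)]),(0,0,[(5,6),(3,3)])],[2]),([(0,2,[(3,3)]),(0,2,[(2,2)]),(0,2,[(2,2)])],[1,1])],[],false,1,0,[]),
    (true,[([(0,11,[(6,8)])],[4,3]),([(0,1,[(5,6)]),(0,2,[(3,3)])],[]),([(0,2,[(3,3)]),(0,2,[(3,3)])],[2,1])],[],false,1,0,[2]),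
    (false,[([(0,0,[(6,8),(2,2)]),(0,0,[(5,6),(3,3)])],[2]),([(0,2,[(3,3)]),(0,2,[(3,3)])],[2,1,1,1])],[],false,1,0,[]),
    (true,[([(0,12,[(6,8),(4,4)])],[4]),([(0,1,[(5,6)])],[3,3,2])],[3],false,1,0,[3,4]),
    (true,[([(0,11,[(6,8)])],[4,4]),([(0,1,[(5,6)]),(0,8,[(4,4)])],[2]),([(0,2,[(2,3)])],[2])],[],false,1,0,[2,3]),
    (false,[([(0,0,[(6,8),(2,2)]),(0,0,[(5,6),(4,4)])],[2]),([(0,2,[(2,3)])],[2,2,1,1,1,1])],[],false,1,0,[2]),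
    (false,[([(0,0,[(6,8),(2,2)]),(0,0,[(5,6),(4,4)])],[2]),([(0,2,[(2,3)]),(0,2,[(2,2)])],[2,1,1,1])],[],false,1,0,[2]),
    (false,[([(0,0,[(6,8),(2,2)]),(0,0,[(5,6),(4,4)])],[2]),([(0,2,[(2,3)]),(0,2,[(2,2)]),(0,2,[(2,2)])],[1,1])],[],false,1,0,[]),
    (true,[([(0,7,[(6,8),(4,4),(3,3)])],[5]),([(0,1,[(5,6)]),(0,2,[(2,3)])],[1])],[3],false,1,0,[2]),
    (false,[([(0,0,[(6,8),(2,2)]),(0,0,[(5,6),(4,4)])],[2]),([(0,2,[(2,3)]),(0,2,[(3,3)])],[2,1,1,1])],[],false,1,0,[]),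
    (true,[([(0,11,[(6,8)])],[3,3]),([(0,10,[(5,6),(4,4),(4,4)])],[5])],[],false,1,0,[2]),
    (true,[([(0,0,[(6,8),(2,2)])],[3,1]),([(0,10,[(5,6),(4,4),(4,4)])],[5])],[],false,1,0,[]),
    (true,[([(0,11,[(6,8)])],[3,3]),([(0,1,[(5,6)]),(0,6,[(5,5)])],[])],[5,3],false,2,3,[3,4]),
    (true,[([(0,11,[(6,8)])],[3,3]),([(0,10,[(5,6),(5,5),(3,3)])],[5])],[],false,1,0,[2]),
    (true,[([(0,7,[(6,8),(5,5),(2,2)])],[5]),([(0,1,[(5,6)]),(0,2,[(3,3)])],[1])],[3],false,1,0,[]),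
    (true,[([(0,11,[(6,8)])],[4,4]),([(0,7,[(5,6),(5,5),(4,4)])],[2])],[],false,1,0,[]),
    (false,[([(0,10,[(6,8),(6,6)]),(0,1,[(5,6)])],[5])],[8],false,1,0,[3]),
    (true,[([(0,10,[(6,8),(6,6)])],[4]),([(0,1,[(5,6)]),(0,2,[(2,3)])],[3])],[3],false,1,0,[2]),
    (true,[([(0,10,[(6,8),(6,6)])],[4]),([(0,1,[(5,6)]),(1,0,[(2,3),(2,2)])],[])],[3],false,1,0,[]),
    (false,[([(0,11,[(6,8)]),(0,3,[(7,8)])],[4,2])],[8,3],true,2,5,[3,6]),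
    (true,[([(0,11,[(6,8)])],[3,1]),([(0,3,[(7,8)]),(0,2,[(3,3)])],[3])],[4,3],false,2,3,[3]),
    (true,[([(0,11,[(6,8)])],[3,1]),([(0,3,[(7,8)]),(0,1,[(3,3),(3,3)])],[])],[4,3],false,2,1,[]),
    (true,[([(0,11,[(6,8)])],[3,1]),([(0,3,[(7,8)]),(0,1,[(4,6)])],[])],[4,3],false,2,2,[3]),
    (true,[([(0,11,[(6,8)])],[3,1]),([(0,3,[(7,8)]),(0,1,[(4,6)])],[]),([(0,2,[(3,3)])],[2,2])],[],false,1,0,[]),
    (true,[([(0,13,[(9,11)])],[1,1])],[6,5,4,3,2],false,5,2,[6,8,9]),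
    (true,[([(0,15,[(9,11),(6,6)])],[2])],[6,3,3,2],false,3,2,[4]),
    (false,[([(0,21,[(9,11),(6,6),(4,4)])],[6,3,3])],[],false,1,0,[]),
    (false,[([(0,13,[(9,11)]),(0,3,[(7,8)])],[4,3])],[4,3],false,2,2,[3]),
    (true,[([(0,10,[(9,11),(3,3)])],[3]),([(0,11,[(7,8)])],[4,4])],[],false,1,0,[]),
    (false,[([(0,21,[(9,11),(9,9)])],[6,3,3])],[],false,1,0,[]),
    (true,[([(0,7,[(12,15)])],[1])],[6,5,3,3],false,3,5,[5,6]),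
    (true,[([(0,7,[(12,15)])],[]),([(0,6,[(4,5)])],[3,3,1])],[6],false,1,0,[3]),
    (true,[([(0,7,[(12,15)])],[4]),([(0,6,[(4,5)]),(0,2,[(2,3)])],[3])],[3],false,1,0,[2]),
    (true,[([(0,7,[(12,15)])],[4]),([(0,6,[(4,5)]),(1,0,[(2,3),(2,2)])],[])],[3],false,1,0,[]),
    (false,[([(0,21,[(12,15),(6,6)])],[6,3,3])],[],false,1,0,[]),
    (true,[([(0,23,[(16,17)])],[4])],[5,3,3,1],false,2,1,[])]),
  ([9,8,7,5,2,1], [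
    (false,[],[9,8,7,5,2,1],false,4,7,[6,10,13,17]),
    (true,[([(0,1,[(5,6)])],[1])],[6,5,4,4,3,3],false,4,5,[6]),
    (true,[([(0,1,[(5,6)]),(0,1,[(5,6)])],[])],[5,4,4,3,3,1],false,3,6,[5,6]),
    (true,[([(0,1,[(5,6)]),(0,1,[(5,6)])],[]),([(0,1,[(4,5)])],[2])],[5,4,3],false,3,3,[5]),
    (true,[([(0,1,[(5,6)]),(0,1,[(5,6)])],[]),([(0,0,[(4,5),(4,5)])],[3])],[4,3],false,2,2,[3]),
    (true,[([(0,1,[(5,6)]),(0,1,[(5,6)])],[]),([(0,0,[(4,5),(4,5)])],[3]),([(0,2,[(3,3)])],[2,2])],[],false,1,0,[]),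
    (true,[([(0,1,[(5,6)]),(0,1,[(5,6)])],[]),([(0,1,[(6,6)])],[2])],[5,4,3],false,3,3,[4]),
    (true,[([(0,0,[(5,6),(4,4)])],[3]),([(0,1,[(5,6)]),(0,1,[(6,6)])],[])],[4,3],false,1,0,[]),
    (true,[([(0,0,[(7,10)])],[])],[6,5,4,4,3],false,4,3,[6,8,10]),
    (false,[([(0,0,[(7,10)]),(0,1,[(5,6)])],[3,3])],[8,2],false,1,0,[2,3,4,6]),
    (true,[([(0,0,[(7,10)])],[2]),([(0,11,[(5,6),(2,2)])],[4,4])],[4],false,1,0,[2]),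
    (false,[([(0,0,[(7,10)]),(0,0,[(5,6),(2,2),(2,2)])],[3])],[8,1],false,1,0,[2]),
    (true,[([(0,0,[(7,10)])],[3]),([(0,1,[(5,6)]),(1,0,[(2,2),(2,2),(2,2)])],[])],[4,3],false,2,3,[]),
    (false,[([(0,0,[(7,10)]),(0,0,[(5,6),(3,3)])],[3])],[8,1],false,1,0,[2,3]),
    (true,[([(0,0,[(7,10)])],[3]),([(0,1,[(5,6)]),(0,1,[(3,3),(2,2)])],[])],[4,3],false,2,3,[]),
    (true,[([(0,0,[(7,10)])],[3]),([(0,1,[(5,6)]),(0,1,[(3,3),(3,3)])],[])],[4,3],false,2,2,[3]),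
    (true,[([(0,0,[(7,10)])],[3]),([(0,1,[(5,6)]),(0,1,[(3,3),(3,3)])],[]),([(0,2,[(3,3)])],[2,2])],[],false,1,0,[]),
    (true,[([(0,0,[(7,10)])],[4]),([(0,1,[(5,6)]),(0,8,[(4,4)])],[1])],[4,3],false,2,3,[3,4]),
    (false,[([(0,0,[(7,10)]),(0,0,[(5,6),(4,4)])],[3]),([(0,2,[(3,3)])],[1,1,1,1,1,1])],[],false,1,0,[2]),
    (true,[([(0,0,[(7,10)])],[3]),([(0,1,[(5,6)]),(0,1,[(4,4),(2,2)])],[]),([(0,2,[(3,3)])],[2,2])],[],false,1,0,[]),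
    (true,[([(0,0,[(7,10)])],[4]),([(0,1,[(5,6)]),(0,8,[(4,4)])],[1]),([(0,8,[(4,4)])],[2,1])],[],false,1,0,[]),
    (true,[([(0,0,[(7,10)])],[3]),([(0,1,[(5,6)]),(0,1,[(5,6)])],[])],[4,3],false,2,2,[3]),
    (true,[([(0,0,[(7,10)])],[3]),([(0,1,[(5,6)]),(0,1,[(5,6)])],[]),([(0,2,[(3,3)])],[2,2])],[],false,1,0,[]),
    (false,[([(0,0,[(7,10)]),(0,3,[(7,8)])],[3])],[9,2],true,2,4,[3,5]),
    (false,[([(0,0,[(7,10)]),(0,13,[(7,8),(3,3)])],[2])],[8,1],true,2,2,[3]),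
    (false,[([(0,0,[(7,10)]),(0,13,[(7,8),(3,3)])],[2]),([(0,2,[(3,3)])],[1,1,1,1,1,1])],[],false,1,0,[]),
    (true,[([(0,0,[(7,10)])],[]),([(0,3,[(7,8)]),(0,6,[(4,5)])],[])],[5,4],false,2,1,[]),
    (false,[([(0,0,[(7,10)]),(0,0,[(9,10)])],[3])],[8,1],true,2,2,[3]),
    (true,[([(0,0,[(7,10)])],[]),([(0,5,[(9,10),(3,3)])],[4,1])],[4],false,1,0,[]),
    (true,[([(0,5,[(11,13)])],[])],[6,5,4,3,1],false,5,1,[7]),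
    (true,[([(0,21,[(11,13),(6,7)])],[])],[4,4,3],false,2,1,[]),
    (true,[([(0,15,[(14,17)])],[])],[6,4,3,2],false,4,2,[])]),
  ([9,8,7,6,2,1], [
    (false,[],[9,8,7,6,2,1],false,4,8,[5,6,8,11,14,17]),
    (false,[([(0,6,[(5,5)])],[2,1,1])],[9,8,7],false,3,7,[4,5]),
    (true,[([(0,6,[(5,5)])],[2]),([(0,8,[(4,4)])],[2,2])],[6,5,4,3],false,4,3,[]),
    (true,[([(0,0,[(5,5),(5,5)])],[])],[6,5,4,4,4],false,3,5,[4,5]),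
    (true,[([(0,1,[(5,5)]),(0,1,[(5,5)])],[]),([(0,8,[(4,4)])],[2,2])],[5,4,3,1],false,4,1,[]),
    (true,[([(0,7,[(5,5),(5,5),(5,5)])],[])],[6,4,4,4],false,2,4,[3,4,5]),
    (false,[([(1,3,[(5,5),(5,5),(5,5),(3,3)])],[4,4,4])],[],false,1,0,[2,3]),
    (false,[([(1,3,[(5,5),(5,5),(5,5),(3,3),(2,2)])],[4,4,4])],[],false,1,0,[2]),
    (true,[([(2,0,[(5,5),(5,5),(5,5),(3,3),(2,2),(2,2)])],[])],[4,4],false,1,0,[]),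
    (true,[([(0,7,[(5,5),(5,5),(5,5)])],[]),([(0,2,[(3,3)]),(0,2,[(3,3)])],[2,2])],[4,4],false,1,0,[]),
    (true,[([(0,7,[(5,5),(5,5),(5,5)])],[]),([(0,8,[(4,4)])],[2,2])],[6,4],false,2,1,[]),
    (true,[([(0,7,[(5,5),(5,5),(5,5)])],[]),([(0,6,[(5,5)])],[3,3,3])],[4],false,1,0,[]),
    (true,[([(0,1,[(6,6)])],[1])],[6,5,4,4,4,3],false,4,3,[6]),
    (true,[([(0,1,[(6,6)]),(0,1,[(5,6)])],[])],[5,4,4,4,3,1],false,3,4,[5,6]),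
    (false,[([(0,13,[(6,6),(4,5)]),(0,1,[(5,6)])],[3,3])],[8,2],true,2,4,[4,5]),
    (false,[([(0,13,[(6,6),(4,5)]),(0,0,[(5,6),(3,4)])],[3])],[8,1],true,2,2,[3]),
    (false,[([(0,13,[(6,6),(4,5)]),(0,0,[(5,6),(3,4)])],[3]),([(0,2,[(3,3)])],[1,1,1,1,1,1])],[],false,1,0,[]),
    (true,[([(0,13,[(6,6),(4,5)])],[3]),([(0,1,[(5,6)]),(0,6,[(5,5)])],[])],[4,4],false,1,0,[]),
    (true,[([(0,1,[(6,6)]),(0,1,[(5,6)])],[]),([(0,1,[(6,6)])],[2])],[5,4,4],false,2,2,[3]),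
    (false,[([(0,21,[(6,6),(5,6),(6,6),(3,3)])],[4,4,4])],[],false,1,0,[]),
    (true,[([(0,3,[(7,8)])],[2])],[6,5,4,4,3,1],false,4,4,[6,8]),
    (true,[([(0,3,[(7,8)]),(0,1,[(5,6)])],[])],[4,4,4,4,2,1],true,3,5,[6]),
    (true,[([(0,3,[(7,8)])],[3]),([(0,1,[(5,6)]),(0,1,[(4,6)])],[])],[5,4,1],false,3,1,[4]),
    (true,[([(0,3,[(7,8)]),(0,1,[(5,6)])],[]),([(0,1,[(4,6)])],[1]),([(0,8,[(4,4)])],[2,2])],[4],false,1,0,[]),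
    (false,[([(0,3,[(7,8)]),(0,3,[(7,8)])],[3,3,1])],[7,2,1],true,3,2,[5]),
    (true,[([(0,3,[(7,8)]),(0,6,[(4,5)])],[]),([(0,3,[(7,8)])],[2])],[5,4,1],false,2,1,[]),
    (true,[([(0,13,[(9,11)])],[3])],[6,4,4,3,2],false,4,2,[6,9]),
    (false,[([(0,13,[(9,11)]),(0,1,[(5,6)])],[3,3])],[8,2],true,2,4,[4,5]),
    (false,[([(0,13,[(9,11)]),(0,0,[(5,6),(3,4)])],[3])],[8,1],true,2,2,[3]),
    (false,[([(0,13,[(9,11)]),(0,0,[(5,6),(3,4)])],[3]),([(0,2,[(3,3)])],[1,1,1,1,1,1])],[],false,1,0,[]),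
    (true,[([(0,13,[(9,11)])],[3]),([(0,1,[(5,6)]),(0,6,[(5,5)])],[])],[4,4],false,1,0,[]),
    (false,[([(0,13,[(9,11)]),(0,0,[(7,9)])],[3])],[8,1],true,2,2,[3]),
    (false,[([(0,13,[(9,11)]),(0,0,[(7,9)])],[3]),([(0,2,[(3,3)])],[1,1,1,1,1,1])],[],false,1,0,[]),
    (true,[([(0,7,[(12,14)])],[])],[6,4,4,4],false,2,5,[3,4,5,6]),
    (true,[([(0,15,[(12,14),(3,3)])],[])],[6,4,4,2],false,3,2,[]),
    (true,[([(0,7,[(12,14)])],[]),([(0,8,[(4,4)])],[2,2])],[6,4],false,2,2,[3]),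
    (false,[([(0,21,[(12,14),(4,4),(3,3)])],[4,4,4])],[],false,1,0,[]),
    (true,[([(0,22,[(12,14),(5,5)])],[1])],[4,4,4,1],false,2,1,[]),
    (false,[([(0,21,[(12,14),(6,6)])],[4,4,4])],[],false,1,0,[]),
    (true,[([(0,15,[(15,17)])],[])],[6,4,4,2],false,3,2,[])]),
  ([9,8,7,6,4,1], [
    (false,[],[9,8,7,6,4,1],false,5,5,[6,8,11,15,17]),
    (true,[([(0,1,[(6,6)])],[2,2])],[6,5,5,4,3,2],false,5,2,[6]),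
    (true,[([(0,1,[(6,6)]),(0,1,[(6,6)])],[])],[5,5,5,4,3,1],true,4,3,[6]),
    (true,[([(0,1,[(6,6)]),(0,1,[(6,6)])],[]),([(0,1,[(5,6)])],[2,1])],[5,5,4],false,2,2,[3]),
    (false,[([(0,21,[(6,6),(6,6),(5,6),(3,3)])],[5,5,4])],[],false,1,0,[]),
    (true,[([(0,3,[(7,8)])],[3,3])],[6,5,4,3,2,1],false,5,3,[8]),
    (false,[([(0,3,[(7,8)]),(0,11,[(6,8)])],[3])],[9,7],false,2,5,[3,4,5,6]),
    (false,[([(0,3,[(7,8)]),(0,11,[(6,8)])],[3]),([(0,2,[(3,3)])],[2,2,2,2,2,2,1])],[],false,1,0,[2,3]),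
    (false,[([(0,3,[(7,8)]),(0,0,[(6,8),(2,2)]),(0,2,[(3,3)])],[])],[8,6],false,2,2,[]),
    (false,[([(0,3,[(7,8)]),(0,11,[(6,8)])],[3]),([(0,2,[(3,3)]),(0,2,[(3,3)])],[2,2,2,2,2])],[],false,1,0,[2]),
    (true,[([(0,3,[(7,8)]),(0,1,[(3,3),(3,3)])],[]),([(0,0,[(6,8),(2,2)])],[2])],[5,4],false,1,0,[]),
    (true,[([(0,3,[(7,8)]),(0,8,[(4,4)])],[]),([(0,11,[(6,8)])],[3,3])],[5,4],false,2,2,[3]),
    (true,[([(0,3,[(7,8)])],[2,1]),([(0,7,[(6,8),(4,4),(3,3)])],[4])],[5],false,1,0,[]),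
    (true,[([(0,21,[(7,8),(6,8),(5,5)])],[])],[5,5,4],false,2,1,[]),
    (true,[([(0,3,[(7,8)])],[3,3]),([(0,10,[(6,8),(6,6)])],[3])],[4],false,1,0,[]),
    (true,[([(0,13,[(9,11)])],[2])],[6,5,5,4,2],false,4,2,[6,8,9]),
    (false,[([(0,13,[(9,11)]),(0,1,[(5,6)])],[2])],[9,7],false,2,4,[3,4,5]),
    (false,[([(0,13,[(9,11)]),(0,1,[(5,6)]),(0,2,[(3,3)])],[])],[8,7],false,2,2,[3]),
    (true,[([(0,13,[(9,11)])],[2]),([(0,1,[(5,6)]),(0,1,[(3,3),(3,3)])],[])],[5,5],false,1,0,[]),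
    (true,[([(0,21,[(9,11),(5,6),(4,4)])],[])],[5,5,4],false,2,1,[]),
    (true,[([(0,13,[(9,11)])],[3]),([(0,1,[(5,6)]),(0,6,[(5,5)])],[])],[5,5],false,1,0,[]),
    (false,[([(0,13,[(9,11)]),(0,3,[(7,8)])],[3])],[9,4],false,2,2,[3]),
    (true,[([(0,10,[(9,11),(3,3)])],[3]),([(0,3,[(7,8)])],[3,3])],[4],false,1,0,[]),
    (false,[([(0,21,[(9,11),(9,9)])],[5,5,4])],[],false,1,0,[]),
    (true,[([(0,7,[(12,15)])],[])],[6,5,5,4],false,3,4,[4,6]),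
    (true,[([(0,7,[(12,15)])],[]),([(0,8,[(4,4)])],[2,2,1])],[6,5],false,2,2,[3]),
    (true,[([(0,7,[(12,15)])],[]),([(0,8,[(4,4)]),(0,2,[(3,3)])],[2])],[6,5],false,1,0,[]),
    (true,[([(0,21,[(12,15),(5,6)])],[])],[5,5,4],false,2,1,[]),
    (true,[([(0,15,[(16,17)])],[])],[6,5,5,2],false,2,1,[])]),
  ([9,8,7,6,5,1], [
    (false,[],[9,8,7,6,5,1],false,5,6,[6,8,11,14,17]),
    (true,[([(0,1,[(6,6)])],[1,1])],[6,5,5,5,4,3],false,4,3,[6]),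
    (true,[([(0,1,[(6,6)]),(0,1,[(5,6)])],[])],[5,5,5,5,3,1],true,3,6,[4,6]),
    (true,[([(0,1,[(6,6)]),(0,1,[(5,6)])],[]),([(0,8,[(4,4)])],[2,2,2])],[5,5,3,1],true,3,4,[4]),
    (true,[([(0,13,[(6,6),(4,4)])],[4,3]),([(0,1,[(5,6)]),(0,8,[(4,4)])],[])],[5,3],false,2,1,[]),
    (false,[([(0,1,[(6,6)]),(0,1,[(5,6)])],[3,3,3]),([(0,1,[(5,6)])],[2,2,2,2,1])],[],false,1,0,[2,3,4]),
    (true,[([(0,3,[(6,6),(2,2)]),(0,1,[(5,6)])],[]),([(0,1,[(5,6)])],[1,1])],[5,5,4],false,2,2,[]),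
    (false,[([(0,21,[(6,6),(5,6),(5,6),(3,3)])],[5,5,5])],[],false,1,0,[2]),
    (true,[([(0,3,[(6,6),(2,2)])],[2,2]),([(0,7,[(5,6),(5,6),(3,3)])],[4])],[5],false,1,0,[]),
    (false,[([(0,1,[(6,6)]),(0,1,[(5,6)])],[3,3,3]),([(0,1,[(5,6)]),(0,8,[(4,4)])],[2,2,1])],[],false,1,0,[]),
    (true,[([(0,3,[(7,8)])],[2,2])],[6,5,5,4,3,1],false,4,4,[6,8]),
    (true,[([(0,3,[(7,8)]),(0,1,[(5,6)])],[])],[5,5,5,4,2,1],true,4,3,[6]),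
    (true,[([(0,3,[(7,8)]),(0,1,[(5,6)])],[]),([(0,1,[(5,6)])],[1,1])],[5,5,4],false,2,2,[3]),
    (true,[([(0,3,[(7,8)])],[2,2]),([(0,7,[(5,6),(5,6),(3,3)])],[4])],[5],false,1,0,[]),
    (false,[([(0,3,[(7,8)]),(0,3,[(7,8)])],[3,1])],[9,6,1],true,3,3,[5]),
    (false,[([(0,3,[(7,8)]),(0,3,[(7,8)]),(0,6,[(4,5)])],[])],[8,6,1],false,2,1,[]),
    (true,[([(0,13,[(9,11)])],[3,3])],[5,5,4,3,2],false,4,2,[5,6,8,9]),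
    (false,[([(0,13,[(9,11)]),(0,6,[(5,5)])],[3,2])],[8,7],false,2,4,[3,4,5]),
    (true,[([(0,13,[(9,11)])],[4,4]),([(0,6,[(5,5)]),(0,2,[(3,3)])],[])],[5,4],false,2,2,[3]),
    (true,[([(0,13,[(9,11)])],[4,4]),([(0,6,[(5,5)]),(0,2,[(3,3)])],[]),([(0,2,[(3,3)])],[2,2,2])],[],false,1,0,[]),
    (true,[([(0,13,[(9,11)])],[4,3]),([(0,6,[(5,5)]),(0,8,[(4,4)])],[])],[5,4],false,2,1,[]),
    (false,[([(0,21,[(9,11),(5,5),(5,5)])],[5,5,5])],[],false,1,0,[]),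
    (true,[([(0,15,[(9,11),(6,6)])],[3])],[5,5,4,2],false,3,2,[4]),
    (false,[([(0,21,[(9,11),(6,6),(4,4)])],[5,5,5])],[],false,1,0,[]),
    (false,[([(0,13,[(9,11)]),(0,3,[(7,8)])],[])],[9,8],false,2,2,[3]),
    (true,[([(0,10,[(9,11),(3,3)])],[3]),([(0,3,[(7,8)])],[3,3])],[5],false,1,0,[]),
    (false,[([(0,21,[(9,11),(9,9)])],[5,5,5])],[],false,1,0,[]),
    (true,[([(0,7,[(12,14)])],[])],[6,5,5,5],false,2,5,[3,4,5,6]),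
    (true,[([(0,15,[(12,14),(3,3)])],[3])],[5,5,4,2],false,3,2,[]),
    (true,[([(0,10,[(12,14)])],[3]),([(0,8,[(4,4)])],[2,2,2])],[5,4],false,2,2,[3]),
    (false,[([(0,21,[(12,14),(4,4),(3,3)])],[5,5,5])],[],false,1,0,[]),
    (true,[([(0,22,[(12,14),(5,5)])],[])],[6,5,5,1],false,2,1,[]),
    (false,[([(0,21,[(12,14),(6,6)])],[5,5,5])],[],false,1,0,[]),
    (true,[([(0,15,[(15,17)])],[3])],[5,5,4,2],false,3,2,[])]),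
  ([9,9,5,4,3,2,1], [
    (false,[],[9,9,5,4,3,2,1],true,6,3,[10,15,17]),
    (false,[([(0,0,[(7,10)])],[1])],[9,9,4],true,2,10,[3,6,8,10]),
    (false,[([(0,0,[(7,10)]),(0,2,[(3,3)])],[1,1,1])],[9,5,3],true,3,4,[]),
    (false,[([(0,0,[(7,10)]),(0,1,[(4,6)])],[1,1])],[9,4,2],true,3,4,[5,6]),
    (false,[([(0,0,[(7,10)]),(0,1,[(4,6)])],[1,1]),([(0,6,[(4,5)])],[3,2,2,1,1,1])],[],false,1,0,[3,5]),
    (false,[([(0,0,[(7,10)]),(0,1,[(4,6)])],[1,1]),([(0,6,[(4,5)]),(0,2,[(2,3)])],[3,2,1,1])],[],false,1,0,[2,3]),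
    (false,[([(0,0,[(7,10)]),(0,1,[(4,6)])],[1,1]),([(0,6,[(4,5)]),(1,0,[(2,3),(2,2)])],[2,1,1])],[],false,1,0,[2]),
    (false,[([(0,0,[(7,10)]),(0,1,[(4,6)])],[1,1]),([(0,6,[(4,5)]),(1,0,[(2,3),(2,2)]),(0,2,[(2,2)])],[1])],[],false,1,0,[2]),
    (false,[([(0,0,[(7,10)]),(0,1,[(4,6)])],[1,1]),([(0,6,[(4,5)]),(0,2,[(2,3)]),(1,0,[(2,2),(2,2),(2,2)])],[1])],[],false,1,0,[]),
    (false,[([(0,0,[(7,10)]),(0,11,[(4,5),(3,3)])],[1]),([(0,1,[(4,6)]),(0,2,[(2,3)])],[2,1,1,1])],[],false,1,0,[2]),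
    (false,[([(0,0,[(7,10)]),(0,11,[(4,5),(3,3)])],[1]),([(0,1,[(4,6)]),(0,2,[(2,3)]),(0,2,[(2,2)])],[1,1])],[],false,1,0,[]),
    (false,[([(0,0,[(7,10)]),(0,1,[(4,6)])],[1,1]),([(0,6,[(4,5)]),(0,6,[(4,5)])],[2,2,1])],[],false,1,0,[2]),
    (false,[([(0,0,[(7,10)]),(0,1,[(4,6)])],[1,1]),([(0,6,[(4,5)]),(0,6,[(4,5)]),(0,2,[(2,2)])],[2])],[],false,1,0,[]),
    (false,[([(0,0,[(7,10)]),(0,1,[(4,6)])],[1,1]),([(0,1,[(6,6)])],[3,2,1,1,1,1])],[],false,1,0,[3]),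
    (false,[([(0,0,[(7,10)]),(0,1,[(4,6)])],[1,1]),([(0,1,[(6,6)]),(0,2,[(2,3)])],[3,1,1,1])],[],false,1,0,[2]),
    (false,[([(0,0,[(7,10)]),(0,1,[(4,6)])],[1,1]),([(0,3,[(6,6),(2,2)]),(0,2,[(2,3)])],[1,1,1,1])],[],false,1,0,[]),
    (false,[([(0,0,[(7,10)]),(0,11,[(7,8)])],[1])],[9,4,1],true,3,3,[5]),
    (false,[([(0,0,[(7,10)]),(0,11,[(7,8)])],[1]),([(0,6,[(4,5)])],[2,2,2,1,1,1])],[],false,1,0,[2]),
    (false,[([(0,0,[(7,10)]),(0,11,[(7,8)])],[1]),([(0,6,[(4,5)]),(0,2,[(2,2)])],[2,2,1,1])],[],false,1,0,[]),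
    (false,[([(0,0,[(7,10)]),(0,25,[(9,10)])],[])],[9,4],false,2,2,[3]),
    (false,[([(0,0,[(7,10)]),(0,25,[(9,10)])],[]),([(0,2,[(3,3)])],[2,2,2,1,1,1,1])],[],false,1,0,[]),
    (false,[([(0,7,[(11,15)])],[3,1,1,1])],[9,3],true,2,6,[3,5,7]),
    (false,[([(0,7,[(11,15)]),(0,2,[(3,3)])],[1,1])],[9,4],false,2,4,[3]),
    (false,[([(0,7,[(11,15)]),(0,2,[(3,3)])],[1,1]),([(0,2,[(3,3)])],[2,2,2,1,1,1,1])],[],false,1,0,[3]),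
    (false,[([(0,7,[(11,15)]),(0,2,[(3,3)])],[1,1]),([(0,2,[(3,3)]),(0,2,[(2,3)])],[2,2,1,1,1])],[],false,1,0,[2]),
    (false,[([(0,7,[(11,15)]),(0,6,[(3,3),(2,2)])],[1]),([(0,2,[(3,3)]),(0,2,[(2,3)])],[2,1,1,1,1])],[],false,1,0,[]),
    (false,[([(0,7,[(11,15)]),(0,6,[(4,5)])],[1])],[9,3],false,2,3,[3,4]),
    (false,[([(0,7,[(11,15)]),(0,6,[(4,5)])],[1]),([(0,2,[(3,3)])],[2,2,1,1,1,1,1])],[],false,1,0,[2]),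
    (true,[([(0,7,[(11,15)])],[5]),([(0,6,[(4,5)]),(0,6,[(3,3),(2,2)])],[1])],[2],false,1,0,[]),
    (false,[([(0,7,[(11,15)]),(0,6,[(4,5)])],[1]),([(0,8,[(4,4)])],[2,1,1,1,1,1,1])],[],false,1,0,[]),
    (false,[([(0,7,[(11,15)]),(0,14,[(6,7)])],[])],[9,2],false,2,1,[]),
    (true,[([(0,16,[(16,17)])],[6])],[6,2,2],false,2,1,[])]),
  ([10,7,6,4,3,2], [
    (false,[],[10,7,6,4,3,2],false,5,4,[8,12,17]),
    (true,[([(0,11,[(6,8)])],[2])],[6,6,4,3,2,1],true,5,3,[7,8]),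
    (true,[([(0,7,[(6,8),(6,7)])],[1])],[6,5,3,1,1],false,4,2,[6,7]),
    (true,[([(0,7,[(6,8),(6,7)])],[]),([(0,1,[(5,6)])],[2,1,1])],[6,1],true,2,2,[3]),
    (true,[([(0,7,[(6,8),(6,7)])],[1]),([(0,0,[(5,6),(3,3)])],[3,2])],[1],false,1,0,[]),
    (true,[([(0,7,[(6,8),(6,7)])],[]),([(0,14,[(7,7)])],[2,2])],[6],false,1,0,[]),
    (true,[([(0,16,[(6,8),(8,8)])],[])],[6,5,3,1],false,4,1,[5]),
    (false,[([(0,21,[(6,8),(8,8),(5,5)])],[6,3,1,1])],[],false,1,0,[]),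
    (true,[([(0,12,[(9,12)])],[])],[6,6,4,3,1],true,4,3,[6,8,9]),
    (true,[([(0,12,[(9,12)])],[]),([(0,1,[(5,6)])],[2,1,1])],[6,4],false,2,4,[3,5]),
    (true,[([(0,7,[(9,12),(3,3)])],[]),([(0,1,[(5,6)])],[2,1,1])],[6,1],true,2,2,[3]),
    (true,[([(0,7,[(9,12),(3,3)])],[1]),([(0,0,[(5,6),(3,3)])],[3,2])],[1],false,1,0,[]),
    (true,[([(0,12,[(9,12)])],[3]),([(0,1,[(5,6)]),(0,6,[(4,5)])],[])],[5,1],false,2,1,[]),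
    (true,[([(0,12,[(9,12)])],[]),([(0,3,[(7,8)])],[3,1,1])],[6,1],true,2,2,[3]),
    (true,[([(0,7,[(9,12),(3,3)])],[]),([(0,11,[(7,8)])],[2,1])],[6],false,1,0,[]),
    (false,[([(0,21,[(9,12),(9,9)])],[6,3,1,1])],[],false,1,0,[]),
    (true,[([(0,16,[(13,17)])],[])],[6,5,3,1],false,4,1,[5]),
    (true,[([(0,16,[(13,17)])],[]),([(0,6,[(5,5)])],[2,2])],[6],false,1,0,[])]),
  ([10,7,6,5,3,1], [
    (false,[],[10,7,6,5,3,1],false,5,4,[8,12,17]),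
    (true,[([(0,11,[(6,8)])],[])],[6,5,5,4,3,1],false,4,4,[6,8]),
    (true,[([(0,11,[(6,8)])],[]),([(0,1,[(5,6)])],[2,1])],[6,5,4],false,3,4,[6]),
    (false,[([(0,11,[(6,8)]),(0,1,[(5,6)]),(0,1,[(4,6)])],[])],[7,5],false,2,4,[3,5]),
    (false,[([(0,11,[(6,8)]),(0,1,[(5,6)]),(0,1,[(4,6)])],[]),([(0,2,[(3,3)])],[2,2,2,2,1])],[],false,1,0,[3]),
    (true,[([(0,11,[(6,8)])],[2]),([(0,1,[(5,6)]),(0,1,[(4,6)])],[]),([(0,1,[(3,3),(2,3)])],[2,2])],[],false,1,0,[2]),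
    (true,[([(0,0,[(6,8),(2,2)]),(0,2,[(3,3)])],[]),([(0,1,[(5,6)]),(0,2,[(2,3)])],[]),([(0,1,[(4,6)])],[2,2])],[],false,1,0,[]),
    (true,[([(0,11,[(6,8)])],[2]),([(0,1,[(5,6)]),(0,1,[(4,6)])],[]),([(0,1,[(4,5)])],[2,2])],[],false,1,0,[2]),
    (true,[([(0,0,[(6,8),(2,2)])],[3]),([(0,1,[(5,6)]),(0,1,[(4,6)])],[]),([(0,6,[(4,5)])],[1,1])],[],false,1,0,[]),
    (true,[([(0,11,[(6,8)])],[]),([(0,3,[(7,8)])],[3,2])],[6,4,1],true,3,2,[6]),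
    (true,[([(0,11,[(6,8)])],[]),([(0,3,[(7,8)]),(0,1,[(4,6)])],[])],[5,4,1],false,3,1,[]),
    (true,[([(0,12,[(9,12)])],[2])],[5,5,4,3,1],true,4,2,[6,8,9]),
    (true,[([(0,12,[(9,12)])],[]),([(0,1,[(5,6)])],[2,2])],[6,4],false,2,4,[3,4,5]),
    (true,[([(0,7,[(9,12),(3,3)])],[]),([(0,1,[(5,6)])],[2,2])],[6,1],true,2,2,[3]),
    (false,[([(0,7,[(9,12),(3,3)]),(0,0,[(5,6),(3,3)])],[1])],[6],false,1,0,[]),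
    (true,[([(0,12,[(9,12)])],[]),([(0,1,[(5,6)]),(0,8,[(4,4)])],[])],[6,4],false,2,1,[]),
    (true,[([(0,16,[(9,12),(5,5)])],[]),([(0,1,[(5,6)])],[2,2])],[5],false,1,0,[]),
    (true,[([(0,12,[(9,12)])],[]),([(0,3,[(7,8)])],[3,3,1])],[4,1],true,2,2,[3]),
    (false,[([(0,7,[(9,12),(3,3)]),(0,11,[(7,8)])],[3])],[6],false,1,0,[]),
    (false,[([(0,21,[(9,12),(9,9)])],[5,4,1,1])],[],false,1,0,[]),
    (true,[([(0,16,[(13,17)])],[])],[5,5,4,1],true,3,2,[4,5]),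
    (true,[([(0,21,[(13,17),(4,4)])],[])],[5,4,1,1],false,2,1,[]),
    (true,[([(0,16,[(13,17)])],[]),([(0,1,[(5,5)])],[2,2])],[5],false,1,0,[])]),
  ([10,9,4,3,2,2,2,1], [
    (false,[],[10,9,4,3,2,2,2,1],false,5,4,[8,11,14,17]),
    (false,[([(0,11,[(6,8)])],[3,1,1,1,1])],[10,4,2,2],false,1,0,[2,3,5,8]),
    (false,[([(0,0,[(6,8),(2,2)])],[])],[10,9,2,2],false,2,10,[]),
    (true,[([(0,11,[(6,8)]),(0,2,[(3,3)])],[4])],[8,3,2,2,2,1],false,3,4,[]),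
    (false,[([(0,11,[(6,8)]),(0,6,[(4,5)])],[1,1])],[10,4,2,2],false,3,4,[5]),
    (false,[([(0,11,[(6,8)]),(0,6,[(4,5)]),(0,6,[(4,5)])],[])],[9,2,2,2],false,2,5,[3,5]),
    (true,[([(0,11,[(6,8)]),(0,11,[(4,5),(3,3)])],[]),([(0,6,[(4,5)])],[3,1,1,1])],[3,2,1],false,3,1,[]),
    (true,[([(0,11,[(6,8)]),(0,6,[(4,5)])],[]),([(0,6,[(4,5)]),(0,6,[(4,5)])],[1,1])],[4,2,2],false,2,2,[3]),
    (false,[([(0,11,[(6,8)]),(0,11,[(4,5),(3,3)])],[1]),([(0,0,[(4,5),(4,5)])],[1,1,1,1,1,1])],[],false,1,0,[]),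
    (false,[([(0,11,[(6,8)]),(0,11,[(6,8)])],[1])],[10,3,2,1],true,4,2,[6,7]),
    (true,[([(0,11,[(6,8)]),(0,11,[(6,8)])],[]),([(0,1,[(5,6)])],[])],[7,2,2],false,2,2,[3]),
    (false,[([(0,11,[(6,8)]),(0,11,[(6,8)])],[1]),([(0,0,[(5,6),(3,3)])],[1,1,1,1,1,1])],[],false,1,0,[]),
    (false,[([(0,11,[(6,8)]),(0,11,[(6,8)])],[1]),([(0,14,[(7,7)])],[3,2,1,1,1,1])],[],false,1,0,[]),
    (false,[([(0,13,[(9,11)])],[2,1,1,1,1])],[10,2,2,2],true,2,8,[3,4,5,7,9]),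
    (true,[([(0,20,[(9,11),(3,3)])],[6])],[8,2,2,1],true,3,3,[]),
    (true,[([(0,12,[(9,11)])],[5,1]),([(0,8,[(4,4)])],[])],[8,2,1],true,3,2,[4]),
    (false,[([(0,13,[(9,11)]),(0,8,[(4,4)]),(0,8,[(4,4)])],[4,2])],[3,2,2,1],false,3,1,[]),
    (true,[([(0,27,[(9,11),(5,5)])],[7])],[7,2,1],true,3,2,[5]),
    (true,[([(0,12,[(9,11)])],[5,1]),([(0,6,[(5,5)]),(0,6,[(4,5)])],[1,1])],[2,1],false,2,1,[]),
    (false,[([(0,12,[(9,11)]),(0,14,[(6,7)])],[])],[10,2,2],false,2,3,[3,4]),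
    (false,[([(0,21,[(9,11),(6,7),(3,3)])],[2,2,2,2])],[2,2],false,1,0,[2]),
    (true,[([(0,10,[(9,11),(3,3)])],[1,1]),([(0,14,[(6,7)]),(0,2,[(2,2)])],[4,1])],[2],false,1,0,[]),
    (true,[([(0,7,[(9,11),(4,4)])],[1,1]),([(0,14,[(6,7)])],[4,1,1,1])],[2],false,1,0,[]),
    (false,[([(0,12,[(9,11)]),(0,19,[(8,9)])],[])],[9,2,1],false,2,1,[]),
    (true,[([(0,29,[(12,14)])],[6])],[7,4,2],false,3,2,[6]),
    (true,[([(0,29,[(12,14)])],[6]),([(0,1,[(4,6)])],[3,2,1,1])],[],false,1,0,[3]),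
    (true,[([(0,29,[(12,14)])],[6]),([(0,1,[(4,6)]),(0,2,[(2,3)])],[3,1])],[],false,1,0,[2]),
    (true,[([(0,29,[(12,14)])],[6]),([(0,1,[(4,6)]),(1,0,[(2,3),(2,2)])],[1])],[],false,1,0,[]),
    (false,[([(0,23,[(15,17)])],[2,2,2,2,1])],[4,2,1],false,3,1,[])])]

theorem cj6d_4_ok : runAllJ S39 R39 F39 16 cj6d_4 = true := by decide +kernel

noncomputable def cj6d_5 : List (List ℕ × List NdJ) := [
  ([10,9,4,3,3,2,1], [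
    (false,[],[10,9,4,3,3,2,1],true,5,4,[7,10,15,17]),
    (true,[([(0,14,[(6,7)])],[3])],[7,6,3,2,2,2],false,4,3,[6,7]),
    (false,[([(0,14,[(6,7)]),(0,1,[(5,6)])],[1,1])],[10,4,3],false,3,3,[5,6]),
    (false,[([(0,14,[(6,7)]),(0,1,[(5,6)]),(0,6,[(4,5)])],[])],[9,3,2],false,3,2,[5]),
    (true,[([(0,14,[(6,7)]),(0,1,[(5,6)])],[]),([(0,6,[(4,5)]),(0,6,[(4,5)])],[])],[5,2,2],false,2,1,[]),
    (true,[([(0,14,[(6,7)])],[4,1]),([(0,1,[(5,6)]),(0,1,[(6,6)])],[2])],[3,2,1],false,3,1,[]),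
    (true,[([(0,10,[(6,7),(7,7)])],[2])],[7,3,2,2,2],false,3,3,[6]),
    (true,[([(0,14,[(6,7)]),(0,1,[(4,6)])],[]),([(0,14,[(7,7)])],[4])],[6,2],false,2,2,[3]),
    (true,[([(0,10,[(6,7),(7,7)]),(0,2,[(3,3)])],[]),([(0,1,[(4,6)])],[3,1,1])],[2,2],false,1,0,[]),
    (true,[([(0,25,[(8,10)])],[4])],[7,5,2,2,2],false,3,5,[5,7,9,10]),
    (false,[([(0,7,[(8,10),(4,5)])],[1,1,1,1])],[10,3],true,2,6,[3,5]),
    (true,[([(0,7,[(8,10),(4,5)]),(0,2,[(3,3)])],[])],[6,2,2,2,2],false,2,4,[3]),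
    (true,[([(0,7,[(8,10),(4,5)]),(0,2,[(3,3)])],[]),([(0,2,[(3,3)])],[2,1,1,1])],[2,2,2],false,1,0,[2,3]),
    (true,[([(0,0,[(8,10)]),(0,2,[(3,3)])],[2]),([(0,6,[(4,5)]),(0,6,[(3,3),(2,2)])],[])],[3,2,2],false,2,1,[]),
    (true,[([(0,7,[(8,10),(4,5)]),(0,2,[(3,3)])],[]),([(0,2,[(3,3)]),(0,2,[(3,3)])],[1,1])],[2,2,2],false,1,0,[]),
    (true,[([(0,25,[(8,10)])],[4]),([(0,6,[(4,5)]),(0,6,[(4,5)])],[1])],[5,2],true,2,3,[3,4]),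
    (true,[([(0,0,[(8,10)]),(0,2,[(3,3)])],[2]),([(0,6,[(4,5)]),(0,6,[(4,5)])],[])],[3,2,2],false,2,1,[]),
    (true,[([(0,7,[(8,10),(4,5)]),(0,8,[(4,4)])],[]),([(0,6,[(4,5)])],[3,1])],[2,2],false,1,0,[]),
    (false,[([(0,0,[(8,10)]),(0,14,[(6,7)])],[1])],[10,3,1],true,3,3,[5]),
    (true,[([(0,7,[(8,10),(4,5)])],[2]),([(0,14,[(6,7)])],[4,1,1])],[2],false,1,0,[2]),
    (true,[([(0,7,[(8,10),(4,5)]),(0,2,[(2,2)])],[]),([(0,14,[(6,7)])],[4,1])],[2],false,1,0,[]),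
    (true,[([(0,9,[(8,10),(8,9)])],[])],[7,2,2,2],false,2,2,[3]),
    (true,[([(0,9,[(8,10),(8,9)])],[]),([(0,2,[(3,3)])],[2,1,1,1,1])],[2,2],false,1,0,[]),
    (false,[([(0,21,[(8,10),(10,10)])],[2,2,2,2])],[3],false,1,0,[]),
    (false,[([(0,7,[(11,15)])],[1,1,1,1])],[10,3],true,2,6,[3,4,5,7]),
    (true,[([(0,7,[(11,15)]),(0,2,[(3,3)])],[])],[6,2,2,2,2],false,2,4,[3]),
    (true,[([(0,7,[(11,15)]),(0,2,[(3,3)])],[]),([(0,2,[(3,3)])],[2,1,1,1])],[2,2,2],false,1,0,[2,3]),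
    (true,[([(0,7,[(11,15)]),(0,2,[(3,3)])],[]),([(0,6,[(3,3),(2,2)])],[3,1,1])],[2,2],false,1,0,[2]),
    (true,[([(0,7,[(11,15)])],[2]),([(0,6,[(3,3),(2,2)]),(0,6,[(3,3),(2,2)])],[1])],[2,2],false,1,0,[]),
    (true,[([(0,7,[(11,15)]),(0,2,[(3,3)])],[]),([(0,2,[(3,3)]),(0,2,[(3,3)])],[1,1])],[2,2,2],false,1,0,[]),
    (false,[([(0,7,[(11,15)]),(0,8,[(4,4)])],[2,2,2])],[4,3],false,2,3,[3,4]),
    (true,[([(0,7,[(11,15)]),(0,2,[(3,3)])],[]),([(0,8,[(4,4)])],[])],[6,2,2],false,2,1,[]),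
    (false,[([(0,7,[(11,15)]),(0,8,[(4,4)]),(0,8,[(4,4)])],[2])],[4,3],false,1,0,[]),
    (true,[([(0,7,[(11,15)])],[2]),([(0,6,[(5,5)])],[3,1,1,1])],[2,2],false,1,0,[3]),
    (true,[([(0,7,[(11,15)]),(0,2,[(2,3)])],[]),([(0,6,[(5,5)])],[3,1,1])],[2,2],false,1,0,[2]),
    (true,[([(0,7,[(11,15)]),(0,2,[(2,3)])],[]),([(0,14,[(5,5),(2,2)])],[4,1])],[2],false,1,0,[]),
    (true,[([(0,7,[(11,15)])],[2]),([(0,14,[(6,7)])],[4,1,1])],[2],false,1,0,[2]),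
    (true,[([(0,7,[(11,15)]),(0,2,[(2,2)])],[]),([(0,14,[(6,7)])],[4,1])],[2],false,1,0,[]),
    (false,[([(0,23,[(16,17)])],[4,2,2,2,1])],[3,1],false,2,1,[])]),
  ([10,9,5,3,2,1,1,1], [
    (false,[],[10,9,5,3,2,1,1,1],false,5,4,[8,12,17]),
    (false,[([(0,11,[(6,8)])],[1])],[10,9,3,1],true,3,5,[6,8]),
    (true,[([(0,11,[(6,8)]),(0,1,[(4,6)])],[1])],[5,3,3,2,2,2],false,3,5,[6]),
    (false,[([(0,11,[(6,8)]),(0,1,[(4,6)])],[2,1]),([(0,1,[(4,6)])],[2,1,1,1,1,1,1])],[1],false,1,0,[2,3,4,6]),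
    (false,[([(0,0,[(6,8),(2,2)]),(0,1,[(4,6)])],[1,1]),([(0,1,[(4,6)])],[1,1,1,1,1,1,1])],[1],false,1,0,[2]),
    (true,[([(0,0,[(6,8),(2,2)])],[]),([(0,1,[(4,6)]),(0,1,[(4,6)]),(0,2,[(2,2)])],[])],[3,2,2],false,2,3,[]),
    (false,[([(0,11,[(6,8)]),(0,1,[(4,6)]),(0,2,[(3,3)])],[]),([(0,1,[(4,6)])],[2,1,1,1,1,1,1])],[1],false,1,0,[2,3]),
    (true,[([(0,0,[(6,8),(2,2)])],[]),([(0,1,[(4,6)]),(0,1,[(4,6)]),(0,2,[(3,3)])],[])],[3,2,2],false,2,2,[]),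
    (true,[([(0,11,[(6,8)])],[4]),([(0,1,[(4,6)]),(0,1,[(4,6)])],[1,1]),([(0,1,[(3,3),(3,3)])],[])],[],false,1,0,[2]),
    (true,[([(0,0,[(6,8),(2,2)])],[]),([(0,1,[(4,6)]),(0,1,[(4,6)]),(0,2,[(3,3)])],[]),([(0,2,[(3,3)])],[2])],[2],false,1,0,[]),
    (true,[([(0,11,[(6,8)]),(0,0,[(4,6),(4,4)])],[]),([(0,1,[(4,6)])],[])],[4,2,2],false,2,2,[3]),
    (true,[([(0,11,[(6,8)]),(0,0,[(4,6),(4,4)])],[]),([(0,1,[(4,6)])],[]),([(0,2,[(3,3)])],[2,1])],[2],false,1,0,[]),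
    (true,[([(0,11,[(6,8)])],[4]),([(0,1,[(4,6)]),(0,1,[(4,6)])],[1,1]),([(0,1,[(5,6)])],[])],[],false,1,0,[2]),
    (true,[([(0,11,[(6,8)]),(0,11,[(5,6),(2,2)])],[]),([(0,1,[(4,6)])],[]),([(0,1,[(4,6)])],[3,1])],[],false,1,0,[]),
    (true,[([(0,11,[(6,8)]),(0,11,[(7,8)])],[])],[5,3,3,2,2,1],false,4,1,[6]),
    (false,[([(0,11,[(6,8)]),(0,20,[(7,8),(5,6)])],[])],[9,1],false,2,1,[]),
    (false,[([(0,12,[(9,12)])],[])],[10,9,1],false,2,8,[3,5,8,9]),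
    (true,[([(0,7,[(9,12),(3,3)])],[])],[8,3,2,2,2],false,3,3,[]),
    (false,[([(0,12,[(9,12)]),(0,6,[(4,5)])],[2])],[10,2,1],true,3,2,[5]),
    (true,[([(0,12,[(9,12)])],[5,1,1]),([(0,0,[(4,5),(4,5)])],[1])],[2],false,1,0,[3]),
    (true,[([(0,12,[(9,12)]),(0,2,[(2,3)])],[5]),([(0,0,[(4,5),(4,5)])],[])],[2],false,1,0,[2]),
    (false,[([(0,12,[(9,12)]),(0,6,[(4,5)]),(0,2,[(2,3)])],[]),([(0,6,[(4,5)]),(0,2,[(2,2)])],[1,1,1,1])],[],false,1,0,[]),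
    (false,[([(0,12,[(9,12)]),(0,11,[(6,8)])],[])],[10,1,1],true,2,3,[3,4]),
    (true,[([(0,7,[(9,12),(3,3)])],[]),([(0,11,[(6,8)])],[4,1,1,1])],[2],false,1,0,[2]),
    (true,[([(0,12,[(9,12)]),(0,2,[(3,3)])],[5]),([(0,0,[(6,8),(2,2)])],[])],[2],false,1,0,[]),
    (false,[([(0,12,[(9,12)]),(0,11,[(6,8)])],[]),([(0,6,[(4,4)])],[1,1,1,1,1,1,1])],[],false,1,0,[]),
    (false,[([(0,21,[(9,12),(9,9)])],[3,2,2,2])],[1,1],false,1,0,[]),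
    (true,[([(0,16,[(13,17)])],[6,1])],[3,2,2,1],false,2,4,[3,4,5]),
    (false,[([(0,16,[(13,17)]),(0,2,[(3,3)])],[1])],[10,1],true,2,2,[3]),
    (true,[([(0,16,[(13,17)])],[6,1]),([(0,1,[(3,3),(3,3)])],[])],[2],false,1,0,[]),
    (true,[([(0,21,[(13,17),(4,4)])],[1,1])],[3,2,2,2],false,2,1,[]),
    (true,[([(0,16,[(13,17)])],[6,1]),([(0,1,[(5,5)])],[])],[2],false,1,0,[])]),
  ([10,9,5,4,3,1], [
    (false,[],[10,9,5,4,3,1],false,5,4,[8,11,15,17]),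
    (false,[([(0,11,[(6,8)])],[3,3,1,1,1])],[10,5],false,1,0,[3,6,8]),
    (false,[([(0,11,[(6,8)]),(0,2,[(2,3)])],[3,3,1])],[10,4],false,1,0,[2,3]),
    (true,[([(0,0,[(6,8),(2,2)]),(0,2,[(2,3)])],[])],[5,5,3,2,2,2],false,2,9,[]),
    (false,[([(0,11,[(6,8)]),(0,1,[(2,3),(3,3)])],[3,1])],[10,4],false,1,0,[2,3]),
    (true,[([(0,0,[(6,8),(2,2)])],[]),([(0,2,[(2,3)]),(0,2,[(3,3)])],[1])],[6,5,2,2],false,2,7,[]),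
    (true,[([(0,11,[(6,8)])],[3]),([(1,1,[(2,3),(3,3),(3,3)])],[4,3])],[2,2],false,1,0,[2,3]),
    (false,[([(0,11,[(6,8)]),(0,1,[(2,3),(3,3)]),(0,6,[(3,3),(2,2)])],[])],[9,4],true,2,5,[]),
    (true,[([(0,11,[(6,8)])],[4]),([(0,1,[(2,3),(3,3)]),(0,1,[(3,3),(3,3)])],[])],[5,2,1],true,3,2,[]),
    (false,[([(0,11,[(6,8)]),(0,1,[(4,6)])],[3,1])],[10,4],false,1,0,[2,3,4,6]),
    (false,[([(0,0,[(6,8),(2,2)]),(0,1,[(4,6)])],[1,1])],[10,4],false,1,0,[2]),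
    (false,[([(0,0,[(6,8),(2,2)]),(0,1,[(4,6)])],[1,1]),([(0,2,[(2,2)])],[2,2,2,1,1,1,1,1])],[],false,1,0,[2]),
    (true,[([(0,0,[(6,8),(2,2)])],[1]),([(0,1,[(4,6)]),(1,0,[(2,2),(2,2)])],[])],[5,2,2],false,1,0,[2]),
    (true,[([(0,0,[(6,8),(2,2)])],[1]),([(0,1,[(4,6)]),(1,0,[(2,2),(2,2),(2,2)])],[])],[5,2,2],false,2,4,[]),
    (false,[([(0,11,[(6,8)]),(0,1,[(4,6)])],[3,1]),([(0,2,[(3,3)])],[2,2,2,1,1,1,1,1])],[],false,1,0,[2,3]),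
    (false,[([(0,11,[(6,8)]),(0,1,[(4,6)]),(0,6,[(3,3),(2,2)])],[])],[9,4],true,2,5,[]),
    (true,[([(0,11,[(6,8)])],[4]),([(0,1,[(4,6)]),(0,1,[(3,3),(3,3)])],[])],[5,2,1],true,3,2,[]),
    (false,[([(0,11,[(6,8)]),(0,1,[(4,6)]),(0,6,[(4,4)])],[])],[9,4],true,2,5,[3,4]),
    (true,[([(0,11,[(6,8)])],[4]),([(0,0,[(4,6),(4,4)]),(0,2,[(3,3)])],[])],[5,2],true,2,3,[3]),
    (true,[([(0,12,[(6,8),(4,4)])],[5]),([(0,1,[(4,6)])],[1,1]),([(0,2,[(3,3)]),(0,2,[(3,3)])],[1])],[],false,1,0,[2]),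
    (true,[([(0,11,[(6,8)])],[4]),([(0,0,[(4,6),(4,4)]),(0,2,[(3,3)])],[]),([(0,2,[(3,3)]),(0,2,[(2,2)])],[1])],[],false,1,0,[]),
    (true,[([(0,11,[(6,8)])],[4]),([(0,0,[(4,6),(4,4)]),(0,8,[(4,4)])],[])],[4,2],false,2,2,[3]),
    (true,[([(0,7,[(6,8),(4,4),(3,3)])],[]),([(0,1,[(4,6)]),(0,8,[(4,4)])],[3])],[2,2],false,1,0,[]),
    (true,[([(0,11,[(6,8)])],[4]),([(0,1,[(4,6)]),(0,1,[(5,6)])],[])],[5,2,1],true,3,2,[5]),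
    (true,[([(0,11,[(6,8)])],[3]),([(0,1,[(4,6)]),(0,1,[(5,6)])],[]),([(0,6,[(4,5)])],[3,1])],[],false,1,0,[2]),
    (true,[([(0,0,[(6,8),(2,2)])],[1]),([(0,1,[(4,6)]),(0,1,[(5,6)])],[]),([(0,6,[(4,5)])],[3,1])],[],false,1,0,[]),
    (false,[([(0,11,[(6,8)]),(0,3,[(7,8)])],[1,1])],[10,4],true,2,5,[3,5,6]),
    (true,[([(0,11,[(6,8)])],[4]),([(0,3,[(7,8)]),(0,2,[(3,3)])],[])],[6,2,1],false,3,1,[]),
    (true,[([(0,11,[(6,8)])],[3]),([(0,3,[(7,8)])],[2,1]),([(0,6,[(4,5)])],[3,1,1])],[],false,1,0,[3]),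
    (true,[([(0,11,[(6,8)])],[3]),([(0,3,[(7,8)]),(0,2,[(2,3)])],[]),([(0,6,[(4,5)])],[3,1,1])],[],false,1,0,[2]),
    (true,[([(0,0,[(6,8),(2,2)]),(0,2,[(2,3)])],[]),([(0,3,[(7,8)])],[1,1]),([(0,6,[(4,5)])],[3,1])],[],false,1,0,[]),
    (true,[([(0,10,[(6,8),(6,6)])],[]),([(0,11,[(7,8)])],[4])],[6],false,1,0,[]),
    (true,[([(0,13,[(9,11)])],[2])],[6,5,2,2,2,2],false,3,5,[5,7,9]),
    (false,[([(0,13,[(9,11)]),(0,6,[(4,5)])],[2,1])],[10,3],true,2,5,[4,5]),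
    (true,[([(0,7,[(9,11),(3,4)])],[]),([(0,6,[(4,5)])],[3,1])],[6,2],true,2,3,[3,4]),
    (true,[([(0,7,[(9,11),(3,4)])],[3]),([(0,11,[(4,5),(3,3)])],[4])],[2],false,1,0,[2]),
    (true,[([(0,7,[(9,11),(3,4)])],[]),([(0,6,[(4,5)]),(0,6,[(3,3),(2,2)])],[])],[5,2],false,1,0,[]),
    (true,[([(0,7,[(9,11),(3,4)])],[]),([(0,6,[(4,5)])],[3,1]),([(0,8,[(4,4)])],[1,1,1,1])],[],false,1,0,[]),
    (true,[([(0,21,[(9,11),(4,5),(5,5)])],[])],[5,2,2,2],false,2,1,[]),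
    (true,[([(0,13,[(9,11)])],[2]),([(0,14,[(6,7)])],[4])],[6,2],true,2,3,[3,4]),
    (true,[([(0,21,[(9,11),(6,7),(3,3)])],[])],[5,2,2,2],false,2,1,[]),
    (false,[([(0,7,[(9,11),(4,4)]),(0,14,[(6,7)])],[])],[10],false,1,0,[]),
    (true,[([(0,21,[(9,11),(8,9)])],[])],[5,2,2,2],false,2,1,[]),
    (true,[([(0,7,[(12,15)])],[])],[6,5,2,2,2],false,3,5,[5,6]),
    (true,[([(0,7,[(12,15)])],[]),([(0,6,[(4,5)])],[3,1])],[6,2],false,2,2,[3]),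
    (true,[([(0,7,[(12,15)])],[3]),([(0,11,[(4,5),(3,3)])],[4])],[2],false,1,0,[]),
    (false,[([(0,21,[(12,15),(6,6)])],[5,2,2,2])],[],false,1,0,[]),
    (true,[([(0,23,[(16,17)])],[])],[6,4,2,2,1],false,2,1,[])]),
  ([10,9,5,4,3,2], [
    (false,[],[10,9,5,4,3,2],false,5,4,[8,12,15,17]),
    (false,[([(0,11,[(6,8)])],[4,3,1,1,1])],[10,5],false,1,0,[3,6,8]),
    (false,[([(0,11,[(6,8)]),(0,2,[(2,3)])],[4,3,1])],[10,4],false,1,0,[2,3]),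
    (true,[([(0,0,[(6,8),(2,2)]),(0,2,[(2,3)])],[])],[6,5,3,2,2,2],false,2,9,[]),
    (true,[([(0,11,[(6,8)])],[3]),([(0,2,[(2,3)]),(0,2,[(3,3)])],[])],[6,6,2,2],true,2,8,[3]),
    (false,[([(0,11,[(6,8)]),(1,1,[(2,3),(3,3),(3,3)])],[1])],[10,4],true,2,6,[3]),
    (true,[([(0,11,[(6,8)])],[4]),([(0,1,[(2,3),(3,3)]),(0,1,[(3,3),(3,3)])],[])],[6,2,1],true,3,2,[]),
    (false,[([(0,11,[(6,8)]),(0,1,[(4,6)])],[4,1])],[10,4],false,1,0,[2,3,5,6]),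
    (true,[([(0,0,[(6,8),(2,2)])],[]),([(0,1,[(4,6)])],[3,2,2])],[6,2,2],false,1,0,[2]),
    (true,[([(0,0,[(6,8),(2,2)]),(0,2,[(2,2)])],[]),([(0,1,[(4,6)])],[3,1])],[6,2,2],false,1,0,[2]),
    (true,[([(0,0,[(6,8),(2,2)])],[1]),([(0,1,[(4,6)]),(1,0,[(2,2),(2,2)])],[])],[6,2,2],false,1,0,[2]),
    (true,[([(0,0,[(6,8),(2,2)])],[1]),([(0,1,[(4,6)]),(1,0,[(2,2),(2,2),(2,2)])],[])],[6,2,2],false,2,4,[]),
    (false,[([(0,11,[(6,8)]),(0,1,[(4,6)])],[4,1]),([(0,2,[(3,3)])],[2,2,2,1,1,1,1,1])],[],false,1,0,[2,3]),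
    (true,[([(0,0,[(6,8),(2,2)]),(0,2,[(3,3)])],[]),([(0,1,[(4,6)])],[3,1])],[6,2,2],false,1,0,[2]),
    (true,[([(0,0,[(6,8),(2,2)])],[2]),([(0,1,[(4,6)]),(0,6,[(3,3),(2,2)])],[])],[6,2,2],false,2,4,[]),
    (true,[([(0,11,[(6,8)])],[4]),([(0,1,[(4,6)]),(0,1,[(3,3),(3,3)])],[])],[6,2,1],true,3,2,[]),
    (true,[([(0,11,[(6,8)])],[3,2]),([(0,1,[(4,6)]),(0,6,[(4,5)])],[])],[5,2,2],false,1,0,[2,3,5]),
    (true,[([(0,0,[(6,8),(2,2)])],[2]),([(0,1,[(4,6)]),(0,6,[(4,5)])],[])],[6,2,2],false,2,4,[]),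
    (true,[([(0,11,[(6,8)])],[3,2]),([(0,1,[(4,6)]),(0,6,[(4,5)])],[]),([(0,2,[(3,3)])],[2,1,1])],[2],false,1,0,[2,3]),
    (true,[([(0,0,[(6,8),(2,2)]),(0,2,[(3,3)])],[]),([(0,1,[(4,6)]),(0,6,[(4,5)])],[])],[5,2,2],false,2,2,[]),
    (true,[([(0,11,[(6,8)])],[4,2]),([(0,1,[(4,6)]),(0,6,[(4,5)])],[]),([(0,1,[(3,3),(3,3)])],[1,1])],[],false,1,0,[2]),
    (true,[([(0,0,[(6,8),(2,2)])],[1]),([(0,1,[(4,6)]),(0,1,[(3,3),(3,3)])],[]),([(0,6,[(4,5)])],[3,1,1])],[],false,1,0,[]),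
    (true,[([(0,11,[(6,8)])],[3,2]),([(0,1,[(4,6)]),(0,6,[(4,5)])],[]),([(0,6,[(4,5)])],[3,1])],[],false,1,0,[3]),
    (true,[([(0,11,[(6,8)])],[4,2]),([(0,1,[(4,6)]),(0,6,[(4,5)])],[]),([(0,6,[(4,5)]),(0,2,[(2,3)])],[])],[],false,1,0,[2]),
    (true,[([(0,0,[(6,8),(2,2)]),(0,2,[(2,3)])],[]),([(0,1,[(4,6)]),(0,6,[(4,5)])],[]),([(0,6,[(4,5)])],[3,1])],[],false,1,0,[]),
    (true,[([(0,11,[(6,8)])],[4]),([(0,1,[(4,6)]),(0,1,[(6,6)])],[])],[6,2,1],false,3,1,[4]),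
    (true,[([(0,10,[(6,8),(6,6)])],[1]),([(0,0,[(4,6),(4,4)])],[4,2])],[2],false,1,0,[]),
    (false,[([(0,11,[(6,8)]),(0,11,[(7,8)])],[3])],[10,4],true,2,5,[3,6]),
    (true,[([(0,11,[(6,8)])],[4]),([(0,3,[(7,8)]),(0,2,[(3,3)])],[1])],[6,2,1],false,3,1,[]),
    (true,[([(0,11,[(6,8)])],[4,2]),([(0,3,[(7,8)]),(0,1,[(4,6)])],[])],[2,2,1],true,2,2,[3]),
    (true,[([(0,11,[(6,8)])],[4,2]),([(0,3,[(7,8)]),(0,1,[(4,6)])],[]),([(0,2,[(3,3)])],[])],[2],false,1,0,[]),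
    (true,[([(0,12,[(9,12)])],[4])],[6,5,2,2,2],false,3,5,[5,6,8,9]),
    (true,[([(0,12,[(9,12)])],[4]),([(0,6,[(4,5)])],[3,1])],[6,2],false,1,0,[3,5]),
    (true,[([(0,12,[(9,12)])],[5]),([(0,6,[(4,5)]),(0,2,[(2,3)])],[])],[6,2],true,2,4,[3]),
    (true,[([(0,7,[(9,12),(3,3)])],[3]),([(0,6,[(4,5)]),(0,2,[(2,3)])],[3])],[2,2],false,1,0,[3]),
    (true,[([(0,7,[(9,12),(3,3)])],[]),([(0,6,[(4,5)])],[3,1,1]),([(0,2,[(2,3)]),(0,2,[(2,3)])],[1,1])],[],false,1,0,[2]),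
    (true,[([(0,12,[(9,12)])],[4]),([(0,6,[(4,5)]),(0,6,[(3,3),(2,2)])],[]),([(0,2,[(2,3)]),(0,2,[(2,3)])],[1])],[],false,1,0,[]),
    (true,[([(0,12,[(9,12)])],[4]),([(0,6,[(4,5)]),(0,6,[(4,5)])],[])],[5,2],false,2,2,[3]),
    (true,[([(0,7,[(9,12),(3,3)])],[]),([(0,6,[(4,5)]),(0,6,[(4,5)])],[])],[6,2],false,1,0,[]),
    (true,[([(0,12,[(9,12)])],[5]),([(0,1,[(6,6)])],[1,1])],[6,2],true,2,3,[3,4]),
    (true,[([(0,21,[(9,12),(6,6),(3,3)])],[])],[6,2,2,2],false,2,1,[]),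
    (true,[([(0,12,[(9,12)])],[5]),([(0,0,[(6,6),(4,4)])],[2,2])],[2],false,1,0,[]),
    (true,[([(0,12,[(9,12)])],[4]),([(0,3,[(7,8)])],[2,2,1])],[2,2],false,1,0,[3]),
    (true,[([(0,12,[(9,12)])],[5]),([(0,3,[(7,8)]),(0,2,[(2,3)])],[2])],[2,1],false,2,1,[]),
    (false,[([(0,21,[(9,12),(9,9)])],[6,2,2,2])],[],false,1,0,[]),
    (true,[([(0,7,[(13,15)])],[1])],[6,5,2,2,2],false,3,4,[5]),
    (true,[([(0,21,[(13,15),(4,5)])],[])],[6,2,2,2],false,2,1,[]),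
    (true,[([(0,23,[(16,17)])],[1])],[6,4,2,2,1],false,2,1,[])]),
  ([10,9,6,5,2,1], [
    (false,[],[10,9,6,5,2,1],true,5,4,[8,12,15,17]),
    (false,[([(0,11,[(6,8)])],[3,2,2,1,1])],[10,6],false,1,0,[3,4,6,8]),
    (false,[([(0,11,[(6,8)]),(0,2,[(2,3)])],[3,2,1])],[10,6],false,1,0,[2,3]),
    (true,[([(0,0,[(6,8),(2,2)]),(0,2,[(2,3)])],[])],[5,4,4,3,2,2],false,2,9,[]),
    (true,[([(0,11,[(6,8)])],[3]),([(0,2,[(2,3)]),(0,2,[(3,3)])],[])],[6,4,4,2],false,2,8,[3]),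
    (false,[([(0,11,[(6,8)]),(0,1,[(2,3),(3,3)]),(0,2,[(3,3)])],[])],[10,6],false,2,6,[3]),
    (true,[([(0,11,[(6,8)])],[3]),([(0,1,[(2,3),(3,3)]),(0,1,[(3,3),(3,3)])],[])],[4,4,2],true,2,4,[3]),
    (true,[([(0,11,[(6,8)])],[4,2]),([(1,2,[(2,3),(3,3),(3,3),(3,3),(3,3)])],[])],[4],false,1,0,[3]),
    (true,[([(0,11,[(6,8)])],[3]),([(0,1,[(2,3),(3,3)]),(0,1,[(3,3),(3,3)])],[]),([(0,2,[(3,3)]),(0,2,[(2,3)])],[])],[4],false,1,0,[2]),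
    (true,[([(0,0,[(6,8),(2,2)]),(0,2,[(3,3)])],[]),([(1,1,[(2,3),(3,3),(3,3)])],[4]),([(0,2,[(3,3)]),(0,2,[(2,3)])],[])],[],false,1,0,[]),
    (true,[([(0,12,[(6,8),(4,4)])],[4])],[5,4,4,2,2],false,3,4,[4]),
    (true,[([(0,11,[(6,8)])],[4]),([(0,8,[(4,4)]),(0,8,[(4,4)])],[])],[6,4,2,1],false,4,1,[]),
    (false,[([(0,11,[(6,8)]),(0,1,[(5,6)])],[2,1])],[10,6],false,1,0,[3,4,6]),
    (false,[([(0,11,[(6,8)]),(0,1,[(5,6)]),(0,2,[(2,3)])],[])],[10,6],false,2,6,[3]),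
    (true,[([(0,11,[(6,8)])],[3]),([(0,1,[(5,6)]),(0,1,[(2,3),(3,3)])],[])],[4,4,2],true,2,4,[3]),
    (true,[([(0,11,[(6,8)])],[3,2]),([(0,0,[(5,6),(3,3)])],[4]),([(0,2,[(2,3)]),(0,2,[(3,3)])],[])],[],false,1,0,[3]),
    (true,[([(0,11,[(6,8)])],[3]),([(0,1,[(5,6)]),(0,1,[(2,3),(3,3)])],[]),([(0,2,[(3,3)]),(0,2,[(2,3)])],[])],[4],false,1,0,[2]),
    (true,[([(0,0,[(6,8),(2,2)]),(0,2,[(2,3)])],[]),([(0,0,[(5,6),(3,3)])],[4]),([(0,2,[(3,3)]),(0,2,[(2,3)])],[])],[],false,1,0,[]),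
    (true,[([(0,11,[(6,8)])],[4,2]),([(0,1,[(5,6)]),(0,8,[(4,4)])],[])],[4,3,2],false,3,2,[4]),
    (true,[([(0,12,[(6,8),(4,4)])],[5]),([(0,1,[(5,6)]),(0,8,[(4,4)])],[])],[4,2],false,2,1,[]),
    (true,[([(0,11,[(6,8)])],[3]),([(0,1,[(5,6)]),(0,1,[(5,6)])],[])],[4,4,2],true,2,3,[3,4]),
    (true,[([(0,11,[(6,8)])],[4,2]),([(0,7,[(5,6),(5,6),(3,3)])],[])],[4],false,1,0,[2]),
    (true,[([(0,0,[(6,8),(2,2)])],[]),([(0,1,[(5,6)]),(0,1,[(5,6)])],[]),([(0,2,[(3,3)])],[2,1])],[5],false,1,0,[]),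
    (true,[([(0,11,[(6,8)])],[3]),([(0,1,[(5,6)]),(0,1,[(5,6)])],[]),([(0,8,[(4,4)])],[1,1])],[4],false,1,0,[]),
    (true,[([(0,11,[(6,8)])],[3]),([(0,3,[(7,8)])],[2])],[6,4,2],false,3,2,[6]),
    (true,[([(0,11,[(6,8)])],[3]),([(0,3,[(7,8)])],[2]),([(0,1,[(4,6)])],[3,2,1])],[],false,1,0,[3]),
    (true,[([(0,11,[(6,8)])],[3,2]),([(0,3,[(7,8)]),(0,2,[(2,3)])],[]),([(0,1,[(4,6)])],[3])],[],false,1,0,[2]),
    (true,[([(0,0,[(6,8),(2,2)]),(0,2,[(2,3)])],[]),([(0,3,[(7,8)])],[1]),([(0,1,[(4,6)])],[3,2])],[],false,1,0,[]),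
    (true,[([(0,12,[(9,12)])],[4])],[5,4,4,2,2],false,3,4,[4,5,6,8,9]),
    (true,[([(0,12,[(9,12)])],[4]),([(0,8,[(4,4)])],[1,1])],[5,4,2],false,3,2,[4]),
    (true,[([(0,12,[(9,12)])],[5]),([(0,8,[(4,4)]),(0,8,[(4,4)])],[])],[5,2,1],false,3,1,[]),
    (true,[([(0,12,[(9,12)])],[4]),([(0,6,[(5,5)])],[3])],[5,4],false,2,4,[3,4,5]),
    (true,[([(0,7,[(9,12),(3,3)])],[]),([(0,6,[(5,5)])],[3])],[6,4],false,2,2,[3]),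
    (true,[([(0,7,[(9,12),(3,3)])],[]),([(0,11,[(5,5),(3,3)])],[4,2])],[4],false,1,0,[]),
    (true,[([(0,21,[(9,12),(5,5),(4,4)])],[])],[4,4,2,2],false,2,1,[]),
    (true,[([(0,12,[(9,12)])],[5]),([(0,0,[(5,5),(5,5)])],[2])],[4],false,1,0,[]),
    (true,[([(0,12,[(9,12)])],[5]),([(0,1,[(6,6)])],[1])],[5,4],false,2,3,[3,4]),
    (true,[([(0,21,[(9,12),(6,6),(3,3)])],[])],[4,4,2,2],false,2,1,[]),
    (true,[([(0,12,[(9,12)])],[5]),([(0,0,[(6,6),(4,4)])],[2])],[4],false,1,0,[]),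
    (true,[([(0,12,[(9,12)])],[4]),([(0,3,[(7,8)])],[2])],[5,2],false,2,2,[3]),
    (true,[([(0,7,[(9,12),(3,3)])],[]),([(0,11,[(7,8)])],[4,2])],[4],false,1,0,[]),
    (false,[([(0,21,[(9,12),(9,9)])],[4,4,2,2])],[],false,1,0,[]),
    (true,[([(0,7,[(13,15)])],[])],[6,4,4,2,2],false,3,4,[5]),
    (true,[([(0,21,[(13,15),(4,5)])],[])],[4,4,2,2],false,2,1,[]),
    (true,[([(0,23,[(16,17)])],[1])],[4,4,4,2,1],false,2,1,[])]),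
  ([10,9,7,3,2,1], [
    (false,[],[10,9,7,3,2,1],true,5,4,[8,11,15,17]),
    (false,[([(0,11,[(6,8)])],[3,1,1])],[10,9],false,1,0,[2,3,4,5,7,8]),
    (true,[([(0,0,[(6,8),(2,2)])],[])],[6,5,3,3,3,2],false,2,10,[]),
    (false,[([(0,11,[(6,8)]),(0,2,[(3,3)])],[3,2,2,2])],[9,3],false,1,0,[2,3]),
    (true,[([(0,0,[(6,8),(2,2)])],[]),([(0,2,[(3,3)])],[2])],[6,5,3,3],false,2,8,[]),
    (false,[([(0,11,[(6,8)]),(0,1,[(3,3),(3,3)])],[2,2,2])],[9,3],false,1,0,[2,3]),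
    (true,[([(0,0,[(6,8),(2,2)])],[]),([(0,1,[(3,3),(3,3)])],[3,1])],[6,3,3],false,2,6,[]),
    (true,[([(0,11,[(6,8)])],[3]),([(0,2,[(3,3)]),(0,2,[(3,3)]),(0,2,[(3,3)])],[])],[4,3,3,2],false,3,2,[]),
    (true,[([(0,11,[(6,8)])],[3]),([(0,8,[(4,4)])],[1])],[6,4,3,3],false,3,4,[4]),
    (true,[([(0,12,[(6,8),(4,4)])],[4]),([(0,8,[(4,4)])],[2])],[5,3,2],false,3,2,[4]),
    (false,[([(0,11,[(6,8)]),(0,0,[(4,4),(4,4)]),(0,8,[(4,4)])],[])],[9,1],true,2,2,[3]),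
    (false,[([(0,7,[(6,8),(4,4),(3,3)]),(0,8,[(4,4)]),(0,8,[(4,4)])],[2])],[7],false,1,0,[]),
    (false,[([(0,11,[(6,8)]),(0,6,[(5,5)])],[])],[10,9],false,2,7,[3,4,5]),
    (true,[([(0,11,[(6,8)])],[3]),([(0,11,[(5,5),(3,3)])],[4,3])],[3,3],false,1,0,[2,3]),
    (true,[([(0,7,[(6,8),(5,5),(2,2)])],[]),([(0,2,[(3,3)])],[2])],[6,3,3],false,2,4,[]),
    (true,[([(0,11,[(6,8)])],[3]),([(0,6,[(5,5)]),(0,1,[(3,3),(3,3)])],[])],[4,3,3],false,2,3,[3]),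
    (true,[([(0,11,[(6,8)])],[3]),([(0,6,[(5,5)]),(0,1,[(3,3),(3,3)])],[]),([(0,2,[(3,3)])],[2,2])],[3],false,1,0,[2]),
    (true,[([(0,7,[(6,8),(5,5),(2,2)])],[]),([(0,2,[(3,3)]),(0,2,[(3,3)]),(0,2,[(3,3)])],[])],[3,3,2],false,1,0,[]),
    (true,[([(0,11,[(6,8)])],[4]),([(0,6,[(5,5)]),(0,8,[(4,4)])],[1])],[4,3,3],false,2,4,[4]),
    (false,[([(0,11,[(6,8)]),(0,0,[(5,5),(3,4)]),(0,8,[(4,4)])],[])],[9,1],true,2,2,[3]),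
    (false,[([(0,11,[(6,8)]),(0,0,[(5,5),(3,4)]),(0,8,[(4,4)])],[]),([(0,2,[(3,3)])],[1,1,1,1,1,1,1])],[],false,1,0,[]),
    (true,[([(0,11,[(6,8)])],[3]),([(0,6,[(5,5)]),(0,1,[(5,5)])],[])],[4,3,3],false,2,3,[3,4]),
    (true,[([(0,21,[(6,8),(5,5),(5,5),(3,3)])],[])],[3,3,3,2],false,2,1,[]),
    (false,[([(0,11,[(6,8)]),(0,0,[(5,5),(5,5)]),(0,8,[(4,4)])],[])],[9,1],false,1,0,[]),
    (true,[([(0,7,[(6,8),(6,7)])],[])],[6,3,3,3,2],true,3,3,[5,7]),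
    (true,[([(0,7,[(6,8),(6,7)])],[]),([(0,6,[(4,5)])],[3,2,1])],[3,3],false,1,0,[2,3,4]),
    (true,[([(0,7,[(6,8),(6,7)])],[]),([(0,6,[(4,5)]),(0,2,[(2,2)])],[3])],[3,3],false,1,0,[2]),
    (true,[([(0,7,[(6,8),(6,7)])],[]),([(0,6,[(4,5)]),(1,0,[(2,2),(2,2)])],[])],[3,3],false,1,0,[2]),
    (true,[([(0,7,[(6,8),(6,7)])],[]),([(0,6,[(4,5)]),(1,0,[(2,2),(2,2),(2,2)])],[])],[3,3],false,1,0,[]),
    (true,[([(0,7,[(6,8),(6,7)])],[]),([(0,6,[(4,5)]),(0,2,[(3,3)])],[3])],[3,3],false,1,0,[2]),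
    (true,[([(0,7,[(6,8),(6,7)])],[]),([(0,6,[(4,5)]),(0,1,[(3,3),(2,2)])],[])],[3,3],false,1,0,[]),
    (true,[([(0,7,[(6,8),(6,7)])],[]),([(0,6,[(4,5)])],[3,2,1]),([(0,8,[(4,4)])],[2])],[],false,1,0,[]),
    (true,[([(0,7,[(6,8),(6,7)])],[]),([(0,14,[(6,7)])],[4,3])],[3],false,1,0,[2]),
    (true,[([(0,0,[(6,8),(2,2)])],[]),([(0,10,[(6,7),(6,7)])],[5])],[3],false,1,0,[]),
    (true,[([(0,11,[(6,8)])],[3]),([(0,3,[(8,8)])],[])],[6,4,3],false,3,3,[5]),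
    (true,[([(0,21,[(6,8),(8,8),(4,5)])],[])],[3,3,3,2],false,2,1,[]),
    (true,[([(0,13,[(9,11)])],[])],[6,5,3,3,2,2],false,4,4,[6,9]),
    (true,[([(0,13,[(9,11)])],[]),([(0,1,[(5,6)])],[3,1])],[6,3,2],false,3,2,[5]),
    (true,[([(0,13,[(9,11)])],[]),([(0,1,[(5,6)]),(0,6,[(4,5)])],[])],[5,3,2],false,2,1,[]),
    (true,[([(0,13,[(9,11)])],[]),([(0,0,[(7,9)])],[4,2])],[3,2],false,2,2,[3]),
    (true,[([(0,10,[(9,11),(3,3)])],[5]),([(0,0,[(7,9)])],[])],[3],false,1,0,[]),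
    (true,[([(0,7,[(12,15)])],[])],[6,3,3,3,2],false,3,2,[5,6]),
    (true,[([(0,7,[(12,15)])],[]),([(0,6,[(4,5)])],[3,3,1])],[3,2],false,2,2,[3]),
    (true,[([(0,7,[(12,15)])],[]),([(0,6,[(4,5)]),(0,2,[(3,3)])],[3])],[3,3],false,1,0,[]),
    (false,[([(0,21,[(12,15),(6,6)])],[3,3,3,2])],[],false,1,0,[]),
    (true,[([(0,23,[(16,17)])],[1])],[4,3,3,3,1],false,2,1,[])]),
  ([10,9,8,3,2,1], [
    (false,[],[10,9,8,3,2,1],false,4,6,[6,8,11,14,17]),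
    (true,[([(0,1,[(5,6)])],[])],[6,5,4,3,3,3,3],false,4,4,[5,6]),
    (true,[([(0,1,[(5,6)]),(0,6,[(5,5)])],[])],[5,4,3,3,3,3,1],false,3,5,[4,5]),
    (true,[([(0,1,[(5,6)]),(0,6,[(5,5)])],[]),([(0,8,[(4,4)])],[2])],[5,4,3,3,1],false,4,1,[]),
    (false,[([(0,1,[(5,6)]),(0,0,[(5,5),(5,5)])],[2,2,2])],[9,2],true,2,4,[3,4,5]),
    (true,[([(0,1,[(5,6)]),(0,6,[(5,5)])],[]),([(0,6,[(5,5)])],[3,3]),([(0,2,[(3,3)])],[1])],[4,3],false,2,2,[3]),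
    (false,[([(0,1,[(5,6)]),(0,0,[(5,5),(5,5)])],[2,2,2]),([(0,2,[(3,3)]),(0,2,[(3,3)])],[1,1,1,1,1])],[],false,1,0,[]),
    (false,[([(0,1,[(5,6)]),(0,0,[(5,5),(5,5)]),(0,8,[(4,4)])],[2])],[9,2],false,2,1,[]),
    (true,[([(0,1,[(5,6)]),(0,6,[(5,5)])],[]),([(0,0,[(5,5),(5,5)])],[3])],[3,3,3],false,1,0,[]),
    (true,[([(0,1,[(5,6)]),(0,1,[(6,6)])],[])],[5,3,3,3,3,3,1],true,2,7,[3,5,6]),
    (true,[([(0,7,[(5,6),(6,6),(3,3)])],[])],[6,3,3,3,3],false,2,5,[3]),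
    (true,[([(0,1,[(5,6)]),(0,1,[(6,6)])],[]),([(0,2,[(3,3)]),(0,2,[(3,3)])],[2])],[3,3,3,3,1],true,2,3,[3]),
    (true,[([(0,7,[(5,6),(6,6),(3,3)])],[]),([(0,2,[(3,3)]),(0,2,[(3,3)])],[2,1])],[3,3,3],false,1,0,[2]),
    (true,[([(0,7,[(5,6),(6,6),(3,3)])],[]),([(0,2,[(3,3)]),(0,2,[(3,3)]),(0,2,[(2,2)])],[])],[3,3,3],false,1,0,[]),
    (true,[([(0,1,[(5,6)])],[3]),([(0,13,[(6,6),(4,5)])],[1])],[6,3,3],false,2,4,[3,5]),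
    (true,[([(0,1,[(5,6)]),(0,6,[(4,5)])],[]),([(0,1,[(6,6)]),(0,2,[(3,3)])],[])],[4,3,3,3],false,2,2,[3]),
    (true,[([(0,1,[(5,6)]),(0,1,[(3,3),(3,3)])],[]),([(0,13,[(6,6),(4,5)])],[1])],[3,3,3],false,1,0,[]),
    (true,[([(0,1,[(5,6)]),(0,6,[(4,5)])],[]),([(0,13,[(6,6),(4,5)])],[])],[5,3,3],false,2,1,[]),
    (false,[([(0,1,[(5,6)]),(0,10,[(6,6),(6,6)])],[2,2])],[9],false,1,0,[3]),
    (false,[([(0,21,[(5,6),(6,6),(6,6),(2,3)])],[3,3,3,3])],[],false,1,0,[2]),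
    (true,[([(0,7,[(5,6),(6,6),(2,3)])],[4]),([(0,3,[(6,6),(2,2)])],[])],[3,3],false,1,0,[]),
    (true,[([(0,3,[(7,8)])],[])],[6,5,4,3,3,3,1],false,4,5,[6,8]),
    (true,[([(0,3,[(7,8)]),(0,1,[(5,6)])],[])],[4,3,3,3,3,2,1],false,3,3,[6]),
    (true,[([(0,3,[(7,8)]),(0,1,[(5,6)])],[]),([(0,1,[(4,6)])],[])],[4,3,3,3],false,2,3,[3,4]),
    (true,[([(0,13,[(7,8),(3,3)])],[1]),([(0,1,[(5,6)]),(0,1,[(4,6)])],[])],[3,3,3],false,1,0,[2]),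
    (true,[([(0,3,[(7,8)])],[]),([(0,11,[(5,6),(2,2)])],[4,4]),([(0,1,[(4,6)]),(0,2,[(3,3)])],[])],[],false,1,0,[]),
    (false,[([(0,10,[(7,8),(5,6)]),(0,1,[(4,6)]),(0,8,[(4,4)])],[])],[9],false,1,0,[]),
    (true,[([(0,11,[(7,8)])],[4,4]),([(0,3,[(7,8)])],[])],[5,3,1],true,3,2,[5]),
    (true,[([(0,3,[(7,8)]),(0,6,[(4,5)])],[]),([(0,3,[(7,8)])],[])],[5,3,3,1],false,2,1,[]),
    (true,[([(0,13,[(9,11)])],[])],[6,5,3,3,3,2],false,4,2,[6,8,9]),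
    (true,[([(0,13,[(9,11)])],[]),([(0,1,[(5,6)])],[3,1])],[6,3,3],false,2,4,[3,5]),
    (false,[([(0,10,[(9,11),(3,3)]),(0,1,[(5,6)])],[2,2])],[9],false,1,0,[3]),
    (true,[([(0,13,[(9,11)])],[1]),([(0,1,[(5,6)]),(0,1,[(3,3),(2,3)])],[])],[3,3,3],false,1,0,[2]),
    (true,[([(0,13,[(9,11)])],[]),([(0,1,[(5,6)]),(0,6,[(3,3),(2,2)])],[]),([(0,2,[(2,3)])],[2,2,1])],[3],false,1,0,[]),
    (true,[([(0,13,[(9,11)])],[]),([(0,1,[(5,6)]),(0,6,[(4,5)])],[])],[5,3,3],false,2,1,[]),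
    (true,[([(0,13,[(9,11)])],[]),([(0,3,[(7,8)])],[])],[6,5,3],false,3,2,[]),
    (false,[([(0,21,[(9,11),(9,9)])],[3,3,3,3])],[],false,1,0,[]),
    (true,[([(0,10,[(12,14)])],[4])],[4,3,3,3,2],false,3,2,[4,5,6]),
    (true,[([(0,10,[(12,14)])],[4]),([(0,8,[(4,4)])],[2])],[4,3,2],false,3,2,[]),
    (true,[([(0,22,[(12,14),(5,5)])],[1])],[3,3,3,3,1],false,2,1,[]),
    (false,[([(0,21,[(12,14),(6,6)])],[3,3,3,3])],[],false,1,0,[]),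
    (true,[([(0,15,[(15,17)])],[2])],[3,3,3,3,2],false,2,2,[3]),
    (false,[([(0,21,[(15,17),(3,3)])],[3,3,3,3])],[],false,1,0,[])]),
  ([11,5,4,3,3,3,2,1], [
    (false,[],[11,5,4,3,3,3,2,1],true,5,5,[8,12,16,17]),
    (true,[([(0,11,[(6,8)])],[1,1])],[8,7,3,1,1,1,1],false,4,3,[6,8]),
    (false,[([(0,11,[(6,8)]),(0,1,[(5,6)])],[1,1,1,1])],[5,3,3,3],false,1,0,[2,3,5,6]),
    (false,[([(0,0,[(6,8),(2,2)]),(0,1,[(5,6)])],[1,1,1,1])],[4,3,3,2],false,2,6,[]),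
    (false,[([(0,11,[(6,8)]),(0,0,[(5,6),(3,3)])],[1,1,1])],[4,3,3,1],false,2,5,[3]),
    (false,[([(0,11,[(6,8)]),(0,12,[(5,6),(3,3),(3,3)])],[1,1])],[4,3,3],false,2,3,[3]),
    (false,[([(0,11,[(6,8)]),(0,12,[(5,6),(3,3),(3,3)])],[1,1]),([(0,2,[(3,3)])],[2,2])],[3],false,1,0,[2]),
    (false,[([(0,11,[(6,8)]),(0,11,[(5,6),(2,2)])],[4,1,1]),([(1,1,[(3,3),(3,3),(3,3)])],[])],[],false,1,0,[]),
    (false,[([(0,11,[(6,8)]),(0,1,[(5,6)]),(0,6,[(4,5)])],[1])],[4,3,3,2],false,3,2,[5]),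
    (false,[([(0,11,[(6,8)]),(0,0,[(4,5),(4,5)])],[1,1,1]),([(0,1,[(5,6)])],[2])],[3],false,1,0,[2]),
    (false,[([(0,11,[(6,8)]),(0,11,[(5,6),(2,2)])],[4,1,1]),([(0,0,[(4,5),(4,5)])],[])],[],false,1,0,[]),
    (false,[([(0,11,[(6,8)]),(0,1,[(5,6)]),(0,14,[(6,6)])],[])],[4,3,3,1],false,3,1,[]),
    (false,[([(0,11,[(6,8)]),(0,11,[(7,8)])],[4,1,1])],[4,3,2,1],false,4,1,[6]),
    (true,[([(0,11,[(6,8)])],[2,2,2,2]),([(0,20,[(7,8),(5,6)])],[1])],[1],false,1,0,[2]),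
    (false,[([(0,0,[(6,8),(2,2)]),(0,11,[(7,8)])],[1,1,1]),([(0,1,[(5,6)])],[2])],[3],false,1,0,[]),
    (true,[([(0,12,[(9,12)])],[1])],[8,7,1,1,1,1],false,3,4,[4,5,7,9]),
    (true,[([(0,12,[(9,12)]),(0,8,[(4,4)])],[2])],[7,3,1,1,1,1],false,3,3,[4]),
    (false,[([(0,12,[(9,12)]),(0,11,[(4,4),(4,4)])],[1,1])],[4,3,3],false,2,2,[3]),
    (false,[([(0,12,[(9,12)]),(0,11,[(4,4),(4,4)])],[1,1]),([(0,2,[(3,3)])],[2,2])],[3],false,1,0,[]),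
    (true,[([(0,16,[(9,12),(5,5)])],[2,2])],[7,1,1,1,1],false,2,4,[3,5]),
    (false,[([(0,12,[(9,12)]),(0,11,[(5,5),(3,3)])],[1,1])],[4,3,3],false,2,2,[3]),
    (true,[([(0,7,[(9,12),(3,3)]),(0,2,[(3,3)])],[2]),([(0,6,[(5,5)])],[1,1,1,1])],[1,1,1],false,1,0,[]),
    (true,[([(0,16,[(9,12),(5,5)])],[2,2]),([(0,6,[(4,5)])],[1,1,1,1])],[1,1],false,1,0,[2]),
    (true,[([(0,12,[(9,12)])],[2,2,2]),([(0,25,[(5,5),(4,5)]),(0,2,[(2,2)])],[])],[1],false,1,0,[]),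
    (false,[([(0,12,[(9,12)]),(0,14,[(6,7)])],[1,1])],[5,3,3],false,2,3,[3,4]),
    (false,[([(0,7,[(9,12),(3,3)]),(0,14,[(6,7)])],[1,1])],[3,3,2],false,2,1,[]),
    (false,[([(0,12,[(9,12)]),(0,14,[(6,7)])],[1,1]),([(0,8,[(4,4)])],[2])],[5],false,1,0,[]),
    (false,[([(0,12,[(9,12)]),(0,19,[(8,9)])],[4])],[3,3,1],false,2,1,[]),
    (true,[([(0,27,[(13,16)])],[])],[8,6,1,1],false,3,2,[5]),
    (false,[([(0,21,[(13,16),(4,5)])],[1,1,1,1,1])],[3,3],false,1,0,[2]),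
    (true,[([(0,27,[(13,16)])],[]),([(0,1,[(4,5)]),(0,2,[(2,2)])],[2,2,2])],[1],false,1,0,[]),
    (false,[([(0,16,[(17,17)])],[5,1,1,1,1])],[3,3],false,1,0,[])])]

theorem cj6d_5_ok : runAllJ S39 R39 F39 16 cj6d_5 = true := by decide +kernel

noncomputable def cj6d_6 : List (List ℕ × List NdJ) := [
  ([11,6,4,3,2,1,1,1,1,1,1], [
    (false,[],[11,6,4,3,2,1,1,1,1,1,1],true,6,3,[10,15,17]),
    (true,[([(0,0,[(7,10)])],[])],[11,5,2,1,1,1,1],true,4,3,[6,8,10]),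
    (true,[([(0,0,[(7,10)]),(0,1,[(5,6)])],[1,1,1,1])],[4,2,2,1,1,1,1],false,3,4,[6]),
    (false,[([(0,0,[(7,10)]),(0,1,[(5,6)])],[2,1,1,1]),([(0,1,[(4,6)])],[1])],[1,1,1,1],false,1,0,[2,3,4]),
    (true,[([(0,0,[(7,10)]),(0,1,[(4,6)])],[1,1,1,1]),([(0,11,[(5,6),(2,2)])],[])],[2,1,1],false,2,2,[]),
    (false,[([(0,0,[(7,10)]),(0,1,[(5,6)]),(0,2,[(3,3)])],[1,1]),([(0,1,[(4,6)])],[1])],[1,1,1,1],false,1,0,[2]),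
    (false,[([(0,0,[(7,10)]),(0,1,[(4,6)]),(0,2,[(3,3)])],[1,1]),([(0,11,[(5,6),(2,2)])],[])],[1,1,1],false,1,0,[]),
    (true,[([(0,0,[(7,10)]),(0,25,[(5,6),(4,4)])],[1,1]),([(0,1,[(4,6)])],[1])],[1,1,1],false,1,0,[]),
    (true,[([(0,0,[(7,10)]),(0,11,[(7,8)])],[1,1,1])],[4,2,1,1,1,1,1],false,3,2,[5]),
    (false,[([(0,0,[(7,10)]),(0,11,[(7,8)]),(0,6,[(4,5)])],[])],[3,1,1,1,1,1,1],false,2,1,[]),
    (true,[([(0,0,[(7,10)]),(0,25,[(9,10)])],[1,1])],[4,2,1,1,1,1],false,3,2,[]),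
    (false,[([(0,7,[(11,15)])],[1])],[11,1,1,1,1,1],true,2,6,[3,6,7]),
    (true,[([(0,7,[(11,15)]),(0,2,[(3,3)])],[1,1,1,1])],[4,2,1,1,1,1],false,3,2,[]),
    (false,[([(0,7,[(11,15)]),(0,1,[(4,6)])],[1,1,1])],[3,1,1,1,1,1],false,2,3,[3,4]),
    (false,[([(0,7,[(11,15)]),(0,1,[(4,6)])],[1,1,1]),([(0,2,[(3,3)])],[1])],[1,1,1,1],false,1,0,[2]),
    (false,[([(0,7,[(11,15)]),(0,1,[(4,6)])],[1,1,1]),([(0,6,[(3,3),(2,2)])],[])],[1,1,1],false,1,0,[]),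
    (false,[([(0,7,[(11,15)]),(0,1,[(4,6)])],[1,1,1]),([(0,6,[(4,4)])],[])],[1,1,1],false,1,0,[]),
    (false,[([(0,7,[(11,15)]),(0,14,[(7,7)])],[2,1])],[2,1,1,1,1,1],false,1,0,[]),
    (false,[([(0,30,[(16,17)])],[3,2])],[6,4],false,2,1,[])]),
  ([11,6,5,3,2,2,2,1], [
    (false,[],[11,6,5,3,2,2,2,1],false,5,4,[8,12,17]),
    (true,[([(0,11,[(6,8)])],[])],[8,7,3,3,1,1,1],false,4,3,[6,8]),
    (true,[([(0,11,[(6,8)]),(0,1,[(5,6)])],[])],[8,3,3,1,1,1,1],false,3,4,[6]),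
    (false,[([(0,11,[(6,8)]),(0,1,[(5,6)]),(0,1,[(4,6)])],[1])],[5,2,2,2],false,2,4,[4,5]),
    (false,[([(0,11,[(6,8)]),(0,0,[(5,6),(3,4)])],[1,1,1]),([(0,1,[(4,6)])],[1,1,1])],[2],false,1,0,[2,3]),
    (false,[([(0,11,[(6,8)]),(0,0,[(5,6),(3,4)]),(0,2,[(2,2)])],[1]),([(0,1,[(4,6)])],[1,1])],[2],false,1,0,[2]),
    (false,[([(0,11,[(6,8)]),(0,11,[(5,6),(2,2)]),(0,1,[(4,6)])],[]),([(0,1,[(3,4),(2,2)])],[1,1])],[2],false,1,0,[]),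
    (false,[([(0,11,[(6,8)]),(0,0,[(5,6),(3,4)]),(0,2,[(3,3)])],[1]),([(0,1,[(4,6)])],[1,1])],[2],false,1,0,[]),
    (false,[([(0,11,[(6,8)]),(0,1,[(5,6)]),(0,1,[(4,6)])],[1]),([(0,6,[(5,5)])],[3,1])],[2],false,1,0,[]),
    (false,[([(0,11,[(6,8)]),(0,11,[(7,8)])],[2,1,1])],[6,3,2,1],false,4,1,[6]),
    (false,[([(0,11,[(6,8)]),(0,11,[(7,8)]),(0,1,[(5,6)])],[])],[5,2,2,1],false,2,1,[]),
    (true,[([(0,12,[(9,12)])],[1,1])],[8,4,3,1,1,1],false,4,3,[6,8,9]),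
    (false,[([(0,12,[(9,12)])],[5,2,1,1,1,1]),([(0,1,[(5,6)])],[1,1,1])],[],false,1,0,[3,5]),
    (true,[([(0,12,[(9,12)])],[1,1]),([(0,1,[(5,6)]),(0,2,[(2,3)])],[1,1,1])],[4,1,1],true,2,3,[3]),
    (true,[([(0,12,[(9,12)]),(0,2,[(2,3)])],[]),([(0,1,[(5,6)]),(0,2,[(3,3)])],[1,1,1])],[3,1,1],false,2,1,[]),
    (true,[([(0,12,[(9,12)]),(0,6,[(4,5)])],[]),([(0,1,[(5,6)])],[])],[7,1,1],false,2,1,[]),
    (false,[([(0,12,[(9,12)]),(0,11,[(7,8)])],[1,1])],[6,2,2],false,2,2,[3]),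
    (true,[([(0,7,[(9,12),(3,3)])],[1,1]),([(0,11,[(7,8)])],[2,1,1,1])],[1,1],false,1,0,[]),
    (false,[([(0,31,[(9,12),(9,9)])],[7,3,1])],[],false,1,0,[]),
    (true,[([(0,16,[(13,17)])],[1])],[8,3,1,1,1],false,3,3,[5]),
    (false,[([(0,16,[(13,17)]),(0,6,[(4,5)])],[6,1])],[2,1],false,2,1,[])]),
  ([11,7,4,4,3,2,1], [
    (false,[],[11,7,4,4,3,2,1],true,6,4,[10,15,17]),
    (true,[([(0,0,[(7,10)])],[2])],[7,6,2,2,1,1,1],false,4,3,[6,10]),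
    (false,[([(0,0,[(7,10)]),(0,1,[(5,6)])],[2,2,1,1])],[4,4,2],false,1,0,[3,6]),
    (true,[([(0,0,[(7,10)]),(0,2,[(2,3)])],[]),([(0,1,[(5,6)])],[1,1])],[7,2,1,1],true,3,2,[]),
    (false,[([(0,0,[(7,10)]),(0,1,[(5,6)]),(0,1,[(4,6)])],[1])],[4,3,2],false,3,2,[4]),
    (false,[([(0,0,[(7,10)]),(0,0,[(5,6),(4,4)])],[2,1,1]),([(0,1,[(4,6)])],[2])],[],false,1,0,[]),
    (false,[([(0,0,[(7,10)]),(0,0,[(7,10)])],[2,1,1])],[4,3,1],false,2,4,[3,5]),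
    (false,[([(0,0,[(7,10)]),(0,0,[(7,10)]),(0,2,[(3,3)])],[1])],[4,3,1],false,3,1,[]),
    (false,[([(0,0,[(7,10)]),(0,0,[(7,10)])],[2,1,1]),([(0,1,[(4,5)])],[2])],[],false,1,0,[2]),
    (false,[([(0,0,[(7,10)]),(0,0,[(7,10)]),(0,2,[(2,2)])],[1]),([(0,1,[(4,5)])],[2])],[],false,1,0,[]),
    (true,[([(0,7,[(11,15)])],[3])],[7,2,2,1,1,1],false,3,3,[6,7]),
    (false,[([(0,7,[(11,15)]),(0,1,[(4,6)])],[2,1,1])],[4,3],false,2,3,[3,4]),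
    (false,[([(0,7,[(11,15)]),(0,1,[(4,6)]),(0,2,[(3,3)])],[1])],[4,3],false,2,1,[]),
    (false,[([(0,7,[(11,15)]),(0,1,[(4,6)])],[2,1,1]),([(0,8,[(4,4)])],[2,1])],[],false,1,0,[]),
    (false,[([(0,7,[(11,15)]),(0,14,[(7,7)])],[2,2])],[4,2],false,1,0,[]),
    (true,[([(0,16,[(16,17)])],[3])],[6,2,2,1,1],false,2,1,[])]),
  ([11,7,5,4,3,2], [
    (false,[],[11,7,5,4,3,2],true,6,3,[10,15,17]),
    (true,[([(0,0,[(7,10)])],[1,1])],[6,5,4,2,1,1,1],false,5,2,[8,10]),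
    (true,[([(0,0,[(7,10)])],[1]),([(0,11,[(6,8)])],[1,1])],[6,4,1],true,3,2,[6]),
    (false,[([(0,0,[(7,10)]),(0,11,[(6,8)]),(0,1,[(4,6)])],[])],[5,3],false,2,2,[3]),
    (false,[([(0,0,[(7,10)]),(0,11,[(6,8)]),(0,1,[(4,6)])],[]),([(0,2,[(3,3)])],[2,2,1])],[],false,1,0,[]),
    (true,[([(0,0,[(7,10)])],[]),([(0,25,[(9,10)])],[1])],[6,5],false,2,2,[3]),
    (true,[([(0,0,[(7,10)])],[2,2]),([(0,32,[(9,10),(3,3)])],[2])],[2,1],false,1,0,[]),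
    (true,[([(0,7,[(11,15)])],[1])],[6,5,2,1,1,1],false,4,2,[6,7]),
    (true,[([(0,7,[(11,15)])],[]),([(0,1,[(5,6)])],[1,1,1])],[6,1,1],false,2,2,[3]),
    (true,[([(0,7,[(11,15)])],[1]),([(0,0,[(5,6),(3,3)])],[2,2])],[1,1],false,1,0,[]),
    (false,[([(0,7,[(11,15)]),(0,14,[(7,7)])],[5,2])],[3],false,1,0,[]),
    (true,[([(0,16,[(16,17)])],[])],[6,5,2,1,1],false,2,1,[])]),
  ([11,7,6,4,3,1], [
    (false,[],[11,7,6,4,3,1],false,5,4,[8,12,17]),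
    (true,[([(0,11,[(6,8)])],[2])],[6,5,4,3,2,1,1],false,6,2,[8]),
    (true,[([(0,11,[(6,8)])],[]),([(0,11,[(7,8)])],[2])],[6,5,3],false,3,3,[6]),
    (true,[([(0,11,[(6,8)])],[]),([(0,3,[(7,8)]),(0,1,[(4,6)])],[])],[5,3,1,1],false,3,2,[]),
    (true,[([(0,12,[(9,12)])],[])],[6,5,4,3,1,1],false,5,2,[8,9]),
    (true,[([(0,12,[(9,12)])],[]),([(0,11,[(6,8)])],[2])],[6,4],false,2,3,[3,4]),
    (true,[([(0,7,[(9,12),(3,3)])],[]),([(0,11,[(6,8)])],[2])],[6,1],false,2,1,[]),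
    (true,[([(0,12,[(9,12)])],[]),([(0,12,[(6,8),(4,4)])],[3])],[5],false,1,0,[]),
    (false,[([(0,21,[(9,12),(9,9)])],[5,3,1,1,1])],[],false,1,0,[]),
    (true,[([(0,16,[(13,17)])],[])],[5,5,3,1,1],false,3,2,[5]),
    (true,[([(0,16,[(13,17)])],[]),([(0,6,[(4,5)])],[1,1])],[5,3],false,2,1,[])]),
  ([11,7,6,5,2,1], [
    (false,[],[11,7,6,5,2,1],true,5,4,[8,12,17]),
    (true,[([(0,11,[(6,8)])],[])],[6,5,4,4,3,1,1],false,5,2,[7,8]),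
    (true,[([(0,7,[(6,8),(6,7)])],[])],[6,4,4,1,1,1],false,3,3,[6,7]),
    (true,[([(0,7,[(6,8),(6,7)])],[]),([(0,1,[(4,6)])],[2,2,1])],[4,1,1],true,2,3,[3,4]),
    (true,[([(0,7,[(6,8),(6,7)])],[]),([(0,1,[(4,6)]),(0,2,[(3,3)])],[2])],[4,1,1],false,2,1,[]),
    (false,[([(0,7,[(6,8),(6,7)]),(0,1,[(4,6)]),(0,6,[(4,4)])],[])],[6],false,1,0,[]),
    (false,[([(0,7,[(6,8),(6,7)]),(0,14,[(7,7)])],[4,4])],[2],false,1,0,[]),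
    (true,[([(0,16,[(6,8),(8,8)])],[])],[5,4,4,1,1],false,3,2,[5]),
    (true,[([(0,21,[(6,8),(8,8),(4,5)])],[])],[4,4,1,1,1],false,2,1,[]),
    (true,[([(0,12,[(9,12)])],[2])],[5,4,4,3,1,1],false,4,2,[6,9]),
    (true,[([(0,12,[(9,12)])],[2]),([(0,1,[(5,6)])],[2])],[5,4,1],false,2,4,[4,5]),
    (true,[([(0,12,[(9,12)])],[2]),([(0,0,[(5,6),(3,4)])],[3])],[4,1],true,2,2,[3]),
    (true,[([(0,12,[(9,12)])],[2]),([(0,0,[(5,6),(3,4)])],[3]),([(0,2,[(3,3)])],[1,1])],[],false,1,0,[]),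
    (true,[([(0,16,[(9,12),(5,5)])],[]),([(0,1,[(5,6)])],[2,2])],[4,1],false,1,0,[]),
    (true,[([(0,12,[(9,12)])],[2]),([(0,0,[(7,9)])],[3])],[4,1],true,2,2,[3]),
    (true,[([(0,12,[(9,12)])],[2]),([(0,0,[(7,9)])],[3]),([(0,2,[(3,3)])],[1,1])],[],false,1,0,[]),
    (true,[([(0,16,[(13,17)])],[])],[5,4,4,1,1],false,3,2,[5]),
    (true,[([(0,16,[(13,17)])],[]),([(0,6,[(4,5)])],[1])],[5,4],false,2,1,[])]),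
  ([11,8,4,3,3,2,1], [
    (false,[],[11,8,4,3,3,2,1],true,6,3,[10,15,17]),
    (true,[([(0,0,[(7,10)])],[1])],[7,6,2,2,2,1,1],false,3,7,[6,9,10]),
    (true,[([(0,0,[(7,10)]),(0,1,[(4,6)])],[])],[6,2,2,2,2,1,1],true,3,4,[5,6]),
    (true,[([(0,0,[(7,10)]),(0,1,[(4,6)])],[]),([(0,6,[(4,5)])],[1,1,1])],[2,2,2,2],false,1,0,[3,5]),
    (true,[([(0,0,[(7,10)]),(0,1,[(4,6)])],[]),([(0,6,[(4,5)]),(0,2,[(2,3)])],[1])],[2,2,2,1],true,2,3,[3]),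
    (true,[([(0,0,[(7,10)]),(0,2,[(2,3)])],[2]),([(0,1,[(4,6)]),(0,6,[(4,5)])],[]),([(0,2,[(3,3)])],[])],[2,1],false,2,1,[]),
    (true,[([(0,0,[(7,10)]),(0,1,[(4,6)])],[]),([(0,6,[(4,5)]),(0,6,[(4,5)])],[])],[2,2,1,1],false,2,1,[]),
    (false,[([(0,0,[(7,10)]),(0,1,[(4,6)]),(0,1,[(6,6)])],[2])],[3,3,2],false,2,2,[3]),
    (true,[([(0,0,[(7,10)]),(0,2,[(3,3)])],[2]),([(0,12,[(4,6),(6,6)])],[1])],[2,2],false,1,0,[]),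
    (false,[([(0,0,[(7,10)]),(0,0,[(7,9)])],[2,2,1])],[3,3,1],false,1,0,[2,3,4,5]),
    (false,[([(0,0,[(7,10)]),(0,0,[(7,9)]),(0,2,[(2,2)])],[2])],[3,3,1],true,2,3,[]),
    (false,[([(0,0,[(7,10)]),(0,0,[(7,9)]),(0,2,[(3,3)])],[2])],[3,3,1],true,2,2,[3]),
    (true,[([(0,0,[(7,10)]),(0,2,[(3,3)])],[2]),([(0,12,[(7,9),(3,3)])],[1])],[2,2],false,1,0,[]),
    (false,[([(0,0,[(7,10)]),(0,0,[(7,9)]),(0,8,[(4,4)])],[1])],[3,3,1],false,2,1,[]),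
    (false,[([(0,0,[(7,10)]),(0,10,[(7,9),(5,5)])],[2,1])],[3,2],false,1,0,[]),
    (true,[([(0,21,[(7,10),(10,10)])],[3])],[2,2,2,1,1],false,2,1,[]),
    (true,[([(0,7,[(11,15)])],[2])],[7,2,2,2,1,1],true,3,4,[6,7]),
    (false,[([(0,7,[(11,15)]),(0,1,[(4,6)])],[2,2,1])],[3,3],false,1,0,[3,4]),
    (true,[([(0,7,[(11,15)]),(0,2,[(2,3)])],[]),([(0,1,[(4,6)])],[1,1,1])],[2,2,1],true,2,2,[3]),
    (true,[([(0,7,[(11,15)]),(0,2,[(2,3)])],[]),([(0,1,[(4,6)])],[1,1,1]),([(0,2,[(3,3)])],[])],[2],false,1,0,[]),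
    (false,[([(0,7,[(11,15)]),(0,1,[(4,6)]),(0,8,[(4,4)])],[1])],[3,3],false,1,0,[]),
    (true,[([(0,7,[(11,15)])],[2]),([(0,14,[(7,7)])],[2,1,1])],[2,2],false,1,0,[]),
    (true,[([(0,16,[(16,17)])],[2])],[6,2,2,2,1],false,2,1,[])]),
  ([11,10,4,3,2,1,1], [
    (false,[],[11,10,4,3,2,1,1],true,5,4,[8,11,15,17]),
    (false,[([(0,11,[(6,8)])],[])],[11,10,3],false,2,11,[3,5,7,8]),
    (false,[([(0,11,[(6,8)]),(0,2,[(3,3)])],[1,1,1,1])],[11,4,2],false,1,0,[2,3]),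
    (true,[([(0,0,[(6,8),(2,2)]),(0,2,[(3,3)])],[1])],[5,3,2,2,2,2,2],false,2,8,[]),
    (false,[([(0,11,[(6,8)]),(0,1,[(3,3),(3,3)])],[1,1,1])],[11,3,1],true,3,3,[]),
    (true,[([(0,11,[(6,8)]),(0,6,[(4,5)])],[])],[5,4,2,2,2,2,2],false,3,4,[5]),
    (false,[([(0,11,[(6,8)]),(0,6,[(4,5)]),(0,6,[(4,5)])],[])],[11,2,1],true,3,2,[4,5]),
    (true,[([(0,11,[(6,8)]),(0,6,[(4,5)])],[]),([(0,6,[(4,5)])],[3]),([(0,8,[(4,4)])],[])],[5,2],false,2,2,[3]),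
    (true,[([(0,11,[(6,8)]),(0,2,[(3,3)])],[4]),([(0,0,[(4,5),(4,5)])],[1]),([(0,8,[(4,4)])],[])],[2],false,1,0,[]),
    (false,[([(0,11,[(6,8)]),(0,6,[(4,5)]),(0,6,[(4,5)])],[]),([(0,6,[(5,5)])],[2,1,1,1,1,1,1,1])],[],false,1,0,[2]),
    (true,[([(0,7,[(6,8),(5,5),(2,2)])],[]),([(0,6,[(4,5)]),(0,6,[(4,5)])],[1])],[2,2,2],false,1,0,[]),
    (true,[([(0,7,[(6,8),(6,7)])],[])],[7,2,2,2,2,2],false,2,6,[3,5,6,7]),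
    (true,[([(0,7,[(6,8),(6,7)]),(0,2,[(3,3)])],[])],[4,2,2,2,2,2],false,2,4,[3]),
    (true,[([(0,11,[(6,8)]),(0,1,[(3,3),(3,3)])],[]),([(0,14,[(6,7)])],[4])],[3,2,2],false,2,2,[3]),
    (true,[([(0,7,[(6,8),(6,7)]),(0,2,[(3,3)])],[]),([(0,2,[(3,3)]),(0,2,[(3,3)])],[])],[2,2,2,2],false,1,0,[]),
    (false,[([(0,11,[(6,8)]),(0,14,[(6,7)]),(0,6,[(4,5)])],[])],[10,1,1],true,2,3,[3,4]),
    (true,[([(0,7,[(6,8),(6,7)]),(0,2,[(3,3)])],[]),([(0,6,[(4,5)])],[3])],[2,2,2],false,1,0,[2]),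
    (true,[([(0,7,[(6,8),(6,7)])],[]),([(0,6,[(4,5)]),(0,6,[(3,3),(2,2)])],[1])],[2,2,2],false,1,0,[]),
    (true,[([(0,7,[(6,8),(6,7)])],[]),([(0,6,[(4,5)])],[3,1,1,1]),([(0,8,[(4,4)])],[])],[2],false,1,0,[]),
    (true,[([(0,10,[(6,8),(6,6)])],[]),([(0,14,[(6,7)])],[4,1,1])],[3,2],false,2,1,[]),
    (true,[([(0,7,[(6,8),(6,7)])],[]),([(0,14,[(7,7)])],[4,1,1])],[2,2],false,1,0,[]),
    (true,[([(0,16,[(6,8),(8,8)])],[6])],[2,2,2,2,1],true,2,4,[3,5]),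
    (true,[([(0,9,[(6,8),(8,8),(3,3)])],[1])],[4,2,2,2,2],false,2,2,[3]),
    (true,[([(0,9,[(6,8),(8,8),(3,3)])],[1]),([(0,2,[(3,3)])],[2,1])],[2,2,2],false,1,0,[]),
    (false,[([(0,21,[(6,8),(8,8),(4,5)])],[2,2,2,2,2])],[1],false,1,0,[2]),
    (false,[([(0,0,[(6,8),(2,2)]),(0,3,[(8,8)])],[2,2,2,2]),([(0,1,[(4,5)])],[])],[],false,1,0,[]),
    (false,[([(0,13,[(9,11)])],[2,1,1,1,1,1])],[11,2,1],false,1,0,[3,4,5,6,8,9]),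
    (true,[([(0,13,[(9,11)]),(0,2,[(2,3)])],[4])],[3,2,2,2,2,2,1],true,2,7,[3]),
    (true,[([(0,10,[(9,11),(3,3)]),(0,2,[(2,3)])],[])],[4,3,2,2,2,2],false,3,3,[]),
    (true,[([(0,12,[(9,11)])],[5,1]),([(0,8,[(4,4)])],[])],[5,2,2,1],true,3,3,[4]),
    (false,[([(0,13,[(9,11)]),(0,8,[(4,4)]),(0,8,[(4,4)])],[2,2,2])],[4,2,1],false,3,1,[]),
    (true,[([(0,16,[(9,11),(5,5)])],[6])],[2,2,2,2,1],true,2,4,[3,4,5]),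
    (true,[([(0,9,[(9,11),(5,5),(3,3)])],[1])],[4,2,2,2,2],false,2,2,[3]),
    (true,[([(0,9,[(9,11),(5,5),(3,3)])],[1]),([(0,2,[(3,3)])],[2,1])],[2,2,2],false,1,0,[]),
    (true,[([(0,16,[(9,11),(5,5)])],[6]),([(0,8,[(4,4)])],[])],[2,2,1],false,2,1,[]),
    (false,[([(0,21,[(9,11),(5,5),(5,5)])],[2,2,2,2,2])],[1],false,1,0,[]),
    (true,[([(0,16,[(9,11),(6,6)])],[6])],[2,2,2,2,1],true,2,3,[3,4]),
    (true,[([(0,10,[(9,11),(3,3)])],[]),([(0,14,[(6,6)])],[4,1,1])],[3,2],false,2,1,[]),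
    (false,[([(0,21,[(9,11),(6,6),(4,4)])],[2,2,2,2,2])],[1],false,1,0,[]),
    (true,[([(0,9,[(9,11),(7,8)])],[1])],[4,2,2,2,2],false,2,2,[3]),
    (true,[([(0,9,[(9,11),(7,8)])],[1]),([(0,2,[(3,3)])],[2,1])],[2,2,2],false,1,0,[]),
    (false,[([(0,21,[(9,11),(9,9)])],[2,2,2,2,2])],[1],false,1,0,[]),
    (true,[([(0,7,[(12,15)])],[])],[7,2,2,2,2,2],false,2,5,[3,4,5,6]),
    (true,[([(0,7,[(12,15)]),(0,2,[(3,3)])],[])],[4,2,2,2,2,2],false,2,3,[3]),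
    (false,[([(0,21,[(12,15),(3,3),(3,3)])],[2,2,2,2,2])],[1],false,1,0,[2]),
    (true,[([(0,7,[(12,15)]),(0,2,[(3,3)])],[]),([(0,6,[(3,3),(2,2)])],[3])],[2,2,2],false,1,0,[]),
    (true,[([(0,9,[(12,15),(4,4)])],[1])],[4,2,2,2,2],false,2,2,[3]),
    (true,[([(0,9,[(12,15),(4,4)])],[1]),([(0,2,[(3,3)])],[2,1])],[2,2,2],false,1,0,[]),
    (false,[([(0,21,[(12,15),(5,5)])],[2,2,2,2,2])],[1],false,1,0,[2]),
    (true,[([(0,7,[(12,15)])],[]),([(0,14,[(5,5),(2,2)])],[4,1,1])],[2,2],false,1,0,[]),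
    (false,[([(0,21,[(12,15),(6,6)])],[2,2,2,2,2])],[1],false,1,0,[]),
    (true,[([(0,16,[(16,17)])],[6])],[2,2,2,2,1],false,2,1,[])]),
  ([11,10,6,3,2,1], [
    (false,[],[11,10,6,3,2,1],true,5,5,[8,12,15,17]),
    (true,[([(0,11,[(6,8)])],[3])],[6,4,3,3,2,2,2],false,4,4,[6,8]),
    (true,[([(0,11,[(6,8)])],[4]),([(0,1,[(5,6)])],[])],[6,4,3,2],false,4,2,[6]),
    (true,[([(0,11,[(6,8)])],[4]),([(0,1,[(5,6)]),(0,1,[(5,6)])],[])],[3,3,2,1],false,3,1,[4]),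
    (true,[([(0,11,[(6,8)])],[3]),([(0,12,[(5,6),(5,6)])],[5]),([(0,8,[(4,4)])],[1])],[],false,1,0,[]),
    (true,[([(0,11,[(6,8)])],[4]),([(0,3,[(7,8)])],[])],[6,4,2,1],false,4,1,[6]),
    (true,[([(0,11,[(6,8)])],[4]),([(0,7,[(7,8),(5,6)])],[1])],[3,2],false,2,1,[]),
    (true,[([(0,12,[(9,12)])],[5])],[5,3,3,2,2,1],true,4,2,[6,9]),
    (true,[([(0,12,[(9,12)])],[5]),([(0,1,[(5,6)])],[])],[5,3,2],false,3,2,[4,5]),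
    (true,[([(0,12,[(9,12)])],[5]),([(0,0,[(5,6),(4,4)])],[1])],[3,2],false,2,1,[]),
    (true,[([(0,12,[(9,12)])],[5]),([(0,1,[(5,6)])],[]),([(0,6,[(5,5)])],[3,2])],[],false,1,0,[]),
    (true,[([(0,12,[(9,12)])],[5]),([(0,0,[(7,9)])],[1])],[3,2],false,2,2,[3]),
    (true,[([(0,12,[(9,12)])],[5]),([(0,0,[(7,9)])],[1]),([(0,2,[(3,3)])],[2])],[],false,1,0,[]),
    (true,[([(0,7,[(13,15)])],[])],[6,3,3,2,2,2],false,3,4,[5]),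
    (true,[([(0,21,[(13,15),(4,5)])],[])],[3,3,2,2,2],false,2,1,[]),
    (true,[([(0,23,[(16,17)])],[1])],[4,3,3,2,2,1],false,2,1,[])]),
  ([12,5,5,4,3,2,1], [
    (false,[],[12,5,5,4,3,2,1],true,6,3,[10,15,17]),
    (false,[([(0,0,[(7,10)])],[])],[12,5,5],false,2,10,[3,6,8,10]),
    (true,[([(0,0,[(7,10)]),(0,2,[(3,3)])],[3])],[6,4,1,1,1,1,1,1],false,3,4,[]),
    (true,[([(0,0,[(7,10)]),(0,1,[(4,6)])],[])],[6,4,1,1,1,1,1,1],false,3,4,[5,6]),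
    (true,[([(0,0,[(7,10)]),(0,1,[(4,6)])],[]),([(0,6,[(4,5)])],[1])],[6,1,1,1,1],false,2,4,[3,5]),
    (true,[([(0,0,[(7,10)]),(0,1,[(4,6)])],[]),([(0,11,[(4,5),(3,3)])],[2,2])],[1,1,1,1],false,1,0,[3]),
    (false,[([(0,0,[(7,10)])],[2]),([(0,1,[(4,6)]),(0,6,[(4,5)]),(0,1,[(3,3),(2,3)])],[1,1,1])],[],false,1,0,[2]),
    (false,[([(0,0,[(7,10)])],[2]),([(0,1,[(4,6)]),(0,6,[(4,5)]),(0,6,[(3,3),(2,2)]),(0,2,[(2,3)])],[1])],[],false,1,0,[]),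
    (true,[([(0,0,[(7,10)]),(0,1,[(4,6)])],[]),([(0,6,[(4,5)])],[1]),([(0,6,[(4,5)])],[1,1,1])],[1,1],false,1,0,[2]),
    (false,[([(0,0,[(7,10)])],[2]),([(0,1,[(4,6)]),(0,6,[(4,5)]),(0,6,[(4,5)]),(0,2,[(2,2)])],[1])],[],false,1,0,[]),
    (true,[([(0,0,[(7,10)]),(0,1,[(4,6)])],[]),([(0,14,[(6,6)])],[])],[6,1,1,1],false,2,2,[3]),
    (true,[([(0,0,[(7,10)]),(0,1,[(4,6)])],[]),([(0,19,[(6,6),(3,3)])],[1])],[4,1,1],false,1,0,[]),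
    (true,[([(0,0,[(7,10)]),(0,3,[(7,8)])],[])],[5,3,1,1,1,1,1,1],false,3,3,[5]),
    (true,[([(0,0,[(7,10)]),(0,3,[(7,8)])],[]),([(0,6,[(4,5)])],[])],[5,1,1,1,1],false,2,1,[]),
    (false,[([(0,0,[(7,10)]),(0,25,[(9,10)])],[1,1,1])],[5,4],false,2,2,[3]),
    (false,[([(0,0,[(7,10)]),(0,25,[(9,10)])],[1,1,1]),([(0,2,[(3,3)])],[2,2,2])],[],false,1,0,[]),
    (false,[([(0,7,[(11,15)])],[])],[12,5],true,2,6,[3,5,7]),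
    (false,[([(0,7,[(11,15)]),(0,2,[(3,3)])],[1,1,1,1,1])],[5,4],false,2,4,[3]),
    (false,[([(0,7,[(11,15)]),(0,2,[(3,3)])],[1,1,1,1,1]),([(0,2,[(3,3)])],[2,2,2])],[],false,1,0,[3]),
    (false,[([(0,7,[(11,15)])],[]),([(0,2,[(3,3)]),(0,2,[(3,3)]),(0,2,[(2,3)])],[2,2,1,1,1,1])],[],false,1,0,[2]),
    (false,[([(0,7,[(11,15)]),(0,6,[(3,3),(2,2)])],[1,1,1,1]),([(0,2,[(3,3)]),(0,2,[(2,3)])],[2])],[],false,1,0,[]),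
    (false,[([(0,7,[(11,15)]),(0,6,[(4,5)])],[1,1,1,1])],[5,3],false,2,3,[3,4]),
    (false,[([(0,7,[(11,15)]),(0,6,[(4,5)])],[1,1,1,1]),([(0,2,[(3,3)])],[2,2,1])],[],false,1,0,[2]),
    (false,[([(0,7,[(11,15)]),(0,6,[(4,5)])],[1,1,1,1]),([(0,2,[(3,3)]),(0,2,[(2,2)])],[2])],[],false,1,0,[]),
    (false,[([(0,7,[(11,15)]),(0,6,[(4,5)])],[1,1,1,1]),([(0,8,[(4,4)])],[2,1,1])],[],false,1,0,[]),
    (false,[([(0,7,[(11,15)]),(0,14,[(6,7)])],[1,1,1])],[5,2],false,2,1,[]),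
    (true,[([(0,16,[(16,17)])],[4])],[6,1,1,1,1,1],false,2,1,[])]),
  ([12,6,4,4,3,2,1], [
    (false,[],[12,6,4,4,3,2,1],true,6,4,[10,15,17]),
    (true,[([(0,0,[(7,10)])],[2])],[7,6,2,1,1,1,1,1],false,3,6,[5,8,10]),
    (false,[([(0,0,[(7,10)]),(0,6,[(4,5)])],[1,1,1,1,1])],[6,4,2],false,1,0,[3,5]),
    (true,[([(0,0,[(7,10)]),(0,2,[(2,3)])],[]),([(0,6,[(4,5)])],[1,1])],[7,2,1,1,1],true,2,6,[3]),
    (false,[([(0,0,[(7,10)]),(0,6,[(4,5)]),(0,1,[(2,3),(3,3)])],[1,1])],[4,3,2],false,3,2,[]),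
    (false,[([(0,0,[(7,10)]),(0,6,[(4,5)]),(0,6,[(4,5)])],[2,1])],[4,3,2],false,3,2,[5]),
    (false,[([(0,0,[(7,10)]),(0,0,[(4,5),(4,5)])],[1,1,1,1]),([(0,1,[(4,5)])],[2])],[],false,1,0,[2]),
    (false,[([(0,0,[(7,10)]),(0,6,[(4,5)]),(0,6,[(4,5)]),(0,2,[(2,2)])],[]),([(0,1,[(4,5)])],[3])],[],false,1,0,[]),
    (false,[([(0,0,[(7,10)]),(0,11,[(6,8)])],[2,1,1,1])],[4,4,1],false,1,0,[2,3,5,6]),
    (false,[([(0,0,[(7,10)]),(0,0,[(6,8),(2,2)])],[1,1,1,1])],[4,3,1],false,2,4,[]),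
    (false,[([(0,0,[(7,10)]),(0,11,[(6,8)]),(0,2,[(3,3)])],[1,1])],[4,4,1],true,2,3,[3]),
    (false,[([(0,0,[(7,10)]),(0,11,[(6,8)])],[3,1,1,1]),([(0,1,[(3,3),(3,3)])],[2])],[],false,1,0,[2]),
    (false,[([(0,0,[(7,10)]),(0,0,[(6,8),(2,2)])],[1,1,1,1]),([(0,1,[(3,3),(3,3)])],[2])],[],false,1,0,[]),
    (false,[([(0,0,[(7,10)]),(0,11,[(6,8)]),(0,6,[(4,5)])],[1])],[4,3,1],false,3,1,[]),
    (true,[([(0,0,[(7,10)])],[2,2]),([(0,20,[(6,8),(6,6)])],[2])],[1,1],false,1,0,[]),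
    (false,[([(0,0,[(7,10)]),(0,0,[(9,10)])],[1,1,1,1])],[4,3,1],false,3,1,[]),
    (false,[([(0,7,[(11,15)])],[1])],[12,4],true,2,6,[3,5,7]),
    (true,[([(0,7,[(11,15)])],[3]),([(0,2,[(3,3)])],[])],[7,1,1,1,1],false,2,4,[3]),
    (false,[([(0,7,[(11,15)]),(0,1,[(3,3),(3,3)])],[1,1,1,1])],[4,3],false,2,2,[3]),
    (false,[([(0,7,[(11,15)]),(0,1,[(3,3),(3,3)])],[1,1,1,1]),([(0,2,[(3,3)])],[2,2])],[],false,1,0,[]),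
    (false,[([(0,7,[(11,15)]),(0,6,[(4,5)])],[2,1,1,1])],[4,3],false,2,3,[3,4]),
    (false,[([(0,7,[(11,15)]),(0,11,[(4,5),(3,3)])],[1,1,1])],[4,2],false,2,1,[]),
    (false,[([(0,7,[(11,15)]),(0,6,[(4,5)])],[2,1,1,1]),([(0,8,[(4,4)])],[2,1])],[],false,1,0,[]),
    (false,[([(0,7,[(11,15)]),(0,14,[(6,7)])],[2,1,1])],[4,2],false,2,1,[]),
    (true,[([(0,16,[(16,17)])],[3])],[6,2,1,1,1,1],false,2,1,[])]),
  ([12,8,5,4,2,1], [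
    (false,[],[12,8,5,4,2,1],true,6,3,[10,15,17]),
    (true,[([(0,0,[(7,10)])],[])],[6,5,4,2,2,1,1,1],false,5,3,[8,10]),
    (true,[([(0,0,[(7,10)])],[]),([(0,11,[(6,8)])],[])],[6,5,2,1],false,4,1,[6]),
    (false,[([(0,0,[(7,10)]),(0,11,[(6,8)]),(0,1,[(5,6)])],[2])],[5,1],false,2,1,[]),
    (true,[([(0,0,[(7,10)])],[]),([(0,25,[(9,10)])],[])],[6,4,2],false,3,2,[]),
    (true,[([(0,7,[(11,15)])],[])],[6,4,2,2,1,1,1],false,4,3,[6,7]),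
    (true,[([(0,7,[(11,15)])],[]),([(0,1,[(5,6)])],[1])],[6,2,1,1],false,3,2,[]),
    (false,[([(0,7,[(11,15)]),(0,14,[(7,7)])],[4,2,2])],[2],false,1,0,[]),
    (true,[([(0,16,[(16,17)])],[])],[5,4,2,2,1,1],false,2,1,[])]),
  ([12,9,5,3,2,1], [
    (false,[],[12,9,5,3,2,1],true,6,3,[10,15,17]),
    (true,[([(0,0,[(7,10)])],[])],[6,5,3,2,2,2,1,1],false,5,2,[8,10]),
    (true,[([(0,0,[(7,10)])],[]),([(0,11,[(6,8)])],[1])],[6,3,2,2],false,3,3,[6]),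
    (true,[([(0,0,[(7,10)])],[]),([(0,11,[(6,8)])],[1]),([(0,1,[(4,6)])],[3,1,1])],[2],false,1,0,[3]),
    (true,[([(0,0,[(7,10)]),(0,2,[(2,3)])],[]),([(0,11,[(6,8)])],[3]),([(0,1,[(4,6)])],[])],[2],false,1,0,[2]),
    (false,[([(0,0,[(7,10)]),(0,0,[(6,8),(2,2)]),(0,1,[(4,6)])],[2]),([(0,2,[(2,3)])],[1])],[],false,1,0,[]),
    (true,[([(0,0,[(7,10)])],[]),([(0,25,[(9,10)])],[4])],[5,2,1],false,3,1,[]),
    (true,[([(0,7,[(11,15)])],[])],[6,3,2,2,2,1,1],false,4,2,[6,7]),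
    (true,[([(0,7,[(11,15)])],[]),([(0,1,[(5,6)])],[])],[6,2,2,1],false,3,1,[]),
    (true,[([(0,7,[(11,15)])],[]),([(0,14,[(7,7)])],[2,1])],[3,2,2],false,1,0,[]),
    (true,[([(0,16,[(16,17)])],[])],[5,3,2,2,2,1],false,2,1,[])]),
  ([12,11,4,3,2,1], [
    (false,[],[12,11,4,3,2,1],true,5,4,[7,10,14,17]),
    (true,[([(0,14,[(6,7)])],[3])],[6,4,3,2,2,2,2,2],false,4,3,[6,7]),
    (true,[([(0,14,[(6,7)])],[4]),([(0,1,[(5,6)])],[])],[6,4,2,2,2],false,3,4,[6]),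
    (true,[([(0,14,[(6,7)])],[4]),([(0,1,[(5,6)]),(0,1,[(4,6)])],[])],[3,2,2,2,1],false,2,4,[3,4,5]),
    (true,[([(0,14,[(6,7)])],[4]),([(0,1,[(5,6)]),(0,1,[(4,6)])],[]),([(0,2,[(3,3)])],[])],[3,2,2],false,2,2,[3]),
    (true,[([(0,14,[(6,7)])],[4]),([(0,1,[(5,6)]),(0,1,[(4,6)])],[]),([(0,1,[(3,3),(3,3)])],[])],[2,2],false,1,0,[]),
    (true,[([(0,14,[(6,7)])],[3]),([(0,1,[(5,6)]),(0,1,[(4,6)])],[]),([(0,8,[(4,4)])],[])],[3,2,2],false,2,1,[]),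
    (true,[([(0,14,[(6,7)])],[4]),([(0,1,[(5,6)]),(0,1,[(4,6)])],[]),([(0,1,[(5,5)])],[])],[2,2],false,1,0,[]),
    (true,[([(0,14,[(6,7)])],[4]),([(0,14,[(7,7)])],[4,1])],[4,3,2,1],false,4,1,[6]),
    (true,[([(0,14,[(6,7)])],[4]),([(0,10,[(7,7),(5,6)])],[1])],[3,2,2],false,2,1,[]),
    (true,[([(0,25,[(8,10)])],[4])],[5,4,2,2,2,2,2],false,3,4,[5,7,9,10]),
    (true,[([(0,7,[(8,10),(4,5)])],[])],[6,2,2,2,2,2,2],false,2,6,[3,5]),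
    (true,[([(0,25,[(8,10)])],[5]),([(0,6,[(4,5)]),(0,2,[(3,3)])],[])],[4,2,2,2],false,2,4,[3]),
    (true,[([(0,7,[(8,10),(4,5)])],[]),([(0,2,[(3,3)]),(0,2,[(3,3)])],[1,1])],[2,2,2,2,2],false,1,0,[2,3]),
    (true,[([(0,25,[(8,10)])],[5]),([(0,6,[(4,5)]),(0,2,[(3,3)])],[]),([(0,6,[(3,3),(2,2)])],[3])],[2],false,1,0,[2]),
    (true,[([(0,7,[(8,10),(4,5)])],[]),([(0,6,[(3,3),(2,2)]),(0,6,[(3,3),(2,2)])],[])],[2,2,2,2],false,1,0,[]),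
    (true,[([(0,25,[(8,10)])],[5]),([(0,6,[(4,5)]),(0,2,[(3,3)])],[]),([(0,2,[(3,3)]),(0,2,[(3,3)])],[])],[2,2],false,1,0,[]),
    (true,[([(0,0,[(8,10)])],[]),([(0,6,[(4,5)]),(0,6,[(4,5)])],[])],[5,2,2,2,2],false,2,3,[3,4]),
    (true,[([(0,25,[(8,10)])],[5]),([(0,6,[(4,5)]),(0,2,[(3,3)])],[]),([(0,6,[(4,5)])],[3])],[2],false,1,0,[2]),
    (true,[([(0,7,[(8,10),(4,5)])],[]),([(0,6,[(4,5)]),(0,6,[(3,3),(2,2)])],[])],[2,2,2,2],false,1,0,[]),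
    (true,[([(0,7,[(8,10),(4,5)])],[]),([(0,6,[(4,5)])],[3,1,1]),([(0,8,[(4,4)])],[])],[2,2],false,1,0,[]),
    (true,[([(0,25,[(8,10)])],[4]),([(0,14,[(6,7)])],[4])],[4,2,2],false,2,4,[3,4,5]),
    (true,[([(0,0,[(8,10)]),(0,2,[(3,3)])],[]),([(0,14,[(6,7)])],[4])],[3,2,2,2],false,2,2,[3]),
    (true,[([(0,25,[(8,10)])],[5]),([(0,14,[(6,7)])],[4]),([(0,1,[(3,3),(3,3)])],[1])],[],false,1,0,[]),
    (true,[([(0,10,[(8,10),(4,4)])],[]),([(0,14,[(6,7)])],[4,1])],[3,2,2],false,2,1,[]),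
    (true,[([(0,7,[(8,10),(5,5)])],[]),([(0,14,[(6,7)])],[4,1])],[2,2,2],false,1,0,[]),
    (true,[([(0,9,[(8,10),(8,9)])],[])],[4,2,2,2,2,2],false,2,2,[3]),
    (true,[([(0,9,[(8,10),(8,9)])],[]),([(0,2,[(3,3)])],[2,1])],[2,2,2,2],false,1,0,[]),
    (false,[([(0,21,[(8,10),(10,10)])],[2,2,2,2,2,2])],[],false,1,0,[]),
    (true,[([(0,10,[(11,14)])],[])],[6,3,2,2,2,2,2],false,3,3,[5,7]),
    (true,[([(0,10,[(11,14)])],[]),([(0,6,[(4,5)])],[3,1,1])],[3,2,2,2],false,2,3,[3,4]),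
    (true,[([(0,10,[(11,14)])],[]),([(0,11,[(4,5),(3,3)])],[4,1])],[2,2,2],false,1,0,[2]),
    (true,[([(0,10,[(11,14)])],[]),([(0,6,[(4,5)]),(0,6,[(3,3),(2,2)])],[])],[3,2,2,2],false,1,0,[]),
    (true,[([(0,10,[(11,14)])],[]),([(0,6,[(4,5)])],[3,1,1]),([(0,8,[(4,4)])],[])],[3,2],false,1,0,[]),
    (true,[([(0,10,[(11,14)])],[]),([(0,14,[(6,7)])],[4,1])],[3,2,2],false,2,1,[]),
    (true,[([(0,23,[(15,17)])],[1])],[4,2,2,2,2,2,1],false,3,1,[])]),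
  ([13,5,4,3,2,2,1,1,1], [
    (false,[],[13,5,4,3,2,2,1,1,1],false,6,3,[10,15,17]),
    (false,[([(0,0,[(7,10)])],[])],[13,5,2,1,1],true,4,3,[6,8,10]),
    (true,[([(0,0,[(7,10)]),(0,1,[(5,6)])],[2,1])],[4,2,1,1,1,1,1,1,1],false,2,6,[3,5,6]),
    (true,[([(0,0,[(7,10)]),(0,1,[(5,6)]),(0,2,[(3,3)])],[])],[4,2,1,1,1,1,1,1,1],false,3,2,[]),
    (false,[([(0,0,[(7,10)]),(0,1,[(5,6)])],[1,1,1,1,1,1]),([(0,6,[(4,5)])],[1])],[2,2],false,1,0,[3,4]),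
    (true,[([(0,0,[(7,10)]),(0,1,[(5,6)]),(0,2,[(2,3)])],[]),([(0,6,[(4,5)])],[1])],[2,1,1,1,1,1],false,2,2,[3]),
    (true,[([(0,0,[(7,10)]),(0,1,[(5,6)]),(0,2,[(2,3)])],[]),([(0,11,[(4,5),(3,3)])],[])],[1,1,1,1,1],false,1,0,[]),
    (false,[([(0,0,[(7,10)]),(0,25,[(5,6),(4,4)])],[1,1,1,1]),([(0,6,[(4,5)])],[1])],[2],false,1,0,[]),
    (false,[([(0,0,[(7,10)]),(0,33,[(5,6),(6,6)])],[1,1,1])],[4,2,1],false,2,1,[]),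
    (false,[([(0,0,[(7,10)]),(0,11,[(7,8)])],[1,1,1,1,1])],[4,2,1,1,1],false,3,2,[5]),
    (false,[([(0,0,[(7,10)]),(0,11,[(7,8)])],[1,1,1,1,1]),([(0,6,[(4,5)])],[1])],[2,1],false,2,1,[]),
    (false,[([(0,0,[(7,10)]),(0,25,[(9,10)])],[1,1,1,1])],[4,2,1,1],false,3,2,[]),
    (false,[([(0,7,[(11,15)])],[])],[13,2,1,1],true,2,6,[3,6,7]),
    (false,[([(0,7,[(11,15)]),(0,2,[(3,3)])],[1,1,1,1,1,1])],[4,2,1,1],false,3,2,[]),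
    (true,[([(0,7,[(11,15)]),(0,1,[(4,6)])],[1])],[3,1,1,1,1,1,1,1],false,2,3,[3,4]),
    (true,[([(0,7,[(11,15)]),(0,1,[(4,6)])],[1]),([(0,2,[(3,3)])],[1])],[1,1,1,1,1,1],false,1,0,[2]),
    (true,[([(0,7,[(11,15)]),(0,1,[(4,6)])],[1]),([(0,6,[(3,3),(2,2)])],[])],[1,1,1,1,1],false,1,0,[]),
    (true,[([(0,7,[(11,15)]),(0,1,[(4,6)])],[1]),([(0,6,[(4,4)])],[])],[1,1,1,1,1],false,1,0,[]),
    (false,[([(0,7,[(11,15)]),(0,14,[(7,7)])],[1,1,1,1])],[2,2,1,1],false,1,0,[]),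
    (true,[([(0,30,[(16,17)])],[])],[6,4,3,2],false,2,1,[])])]

theorem cj6d_6_ok : runAllJ S39 R39 F39 16 cj6d_6 = true := by decide +kernel

noncomputable def cj6d_7 : List (List ℕ × List NdJ) := [
  ([13,5,4,4,3,2,1], [
    (false,[],[13,5,4,4,3,2,1],true,5,5,[8,12,15,17]),
    (true,[([(0,11,[(6,8)])],[])],[7,6,5,1,1,1,1,1,1],false,4,5,[6,8]),
    (true,[([(0,11,[(6,8)]),(0,1,[(5,6)])],[])],[6,5,1,1,1,1,1,1,1],false,3,5,[5,6]),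
    (false,[([(0,11,[(6,8)]),(0,1,[(5,6)]),(0,6,[(4,5)])],[1,1,1])],[4,4,2],true,2,4,[3,5]),
    (false,[([(0,11,[(6,8)]),(0,1,[(5,6)]),(0,6,[(4,5)])],[1,1,1]),([(0,2,[(3,3)])],[2,1])],[4],false,1,0,[2,3]),
    (false,[([(0,0,[(6,8),(2,2)])],[3]),([(0,1,[(5,6)]),(0,6,[(4,5)]),(0,2,[(3,3)])],[1,1,1,1,1])],[],false,1,0,[2]),
    (false,[([(0,0,[(6,8),(2,2)]),(0,6,[(4,5)]),(0,6,[(3,3),(2,2)])],[1,1,1]),([(0,1,[(5,6)])],[3])],[],false,1,0,[]),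
    (false,[([(0,11,[(6,8)]),(0,1,[(5,6)]),(0,6,[(4,5)])],[1,1,1]),([(0,2,[(3,3)]),(0,2,[(3,3)])],[])],[4],false,1,0,[]),
    (true,[([(0,11,[(6,8)]),(0,1,[(5,6)])],[]),([(0,6,[(4,5)])],[1,1]),([(0,6,[(4,5)])],[1,1,1])],[1,1,1],false,1,0,[2]),
    (false,[([(0,0,[(6,8),(2,2)]),(0,6,[(4,5)]),(0,6,[(4,5)])],[1,1,1]),([(0,1,[(5,6)])],[3])],[],false,1,0,[]),
    (true,[([(0,11,[(6,8)])],[2,2]),([(0,33,[(5,6),(6,6)])],[1])],[5,1,1],false,2,2,[3]),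
    (true,[([(0,11,[(6,8)]),(0,2,[(3,3)])],[2]),([(0,33,[(5,6),(6,6)])],[])],[5,1,1],false,1,0,[]),
    (true,[([(0,11,[(6,8)])],[]),([(0,11,[(7,8)])],[2,2,2])],[6,1,1,1,1],true,2,5,[4,6]),
    (false,[([(0,11,[(6,8)]),(0,12,[(7,8),(3,4)])],[1,1,1,1])],[4,4],false,1,0,[2,3,4]),
    (false,[([(0,11,[(6,8)]),(0,1,[(3,4),(2,2)])],[1,1,1,1,1,1]),([(0,3,[(7,8)])],[3,1])],[],false,1,0,[2]),
    (true,[([(0,0,[(6,8),(2,2)]),(0,3,[(7,8)])],[]),([(0,1,[(3,4),(2,2)])],[1,1])],[1,1,1,1,1,1],false,1,0,[2]),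
    (true,[([(0,11,[(6,8)])],[1]),([(0,3,[(7,8)]),(1,1,[(3,4),(2,2),(2,2),(2,2)])],[])],[1,1,1,1,1],false,1,0,[]),
    (true,[([(0,11,[(6,8)])],[1]),([(0,3,[(7,8)]),(1,1,[(3,4),(3,3)])],[])],[1,1,1,1,1],false,1,0,[2]),
    (false,[([(0,11,[(6,8)]),(0,13,[(7,8),(3,3)])],[1,1,1,1,1]),([(0,1,[(3,4),(2,2)])],[2])],[],false,1,0,[]),
    (false,[([(0,11,[(6,8)]),(0,12,[(7,8),(3,4)])],[1,1,1,1]),([(0,8,[(4,4)])],[2,2])],[],false,1,0,[]),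
    (false,[([(0,11,[(6,8)]),(0,1,[(5,6)])],[1,1,1,1,1,1]),([(0,3,[(7,8)])],[3,1])],[],false,1,0,[2]),
    (true,[([(0,0,[(6,8),(2,2)]),(0,3,[(7,8)])],[]),([(0,1,[(5,6)])],[1,1])],[1,1,1,1,1,1],false,1,0,[]),
    (true,[([(0,12,[(9,12)])],[2])],[7,5,1,1,1,1,1,1],false,3,5,[5,7,9]),
    (true,[([(0,12,[(9,12)])],[2]),([(0,6,[(4,5)])],[1,1])],[7,1,1,1,1],true,2,5,[3,4,5]),
    (false,[([(0,7,[(9,12),(3,3)]),(0,6,[(4,5)])],[1,1,1,1,1])],[4,3],false,2,3,[3]),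
    (false,[([(0,7,[(9,12),(3,3)]),(0,6,[(4,5)])],[1,1,1,1,1]),([(0,2,[(3,3)])],[2,2])],[],false,1,0,[2]),
    (true,[([(0,12,[(9,12)]),(0,2,[(3,3)])],[]),([(0,6,[(4,5)])],[1,1]),([(0,6,[(3,3),(2,2)])],[1,1,1])],[1,1],false,1,0,[]),
    (true,[([(0,12,[(9,12)]),(0,8,[(4,4)])],[]),([(0,6,[(4,5)])],[1])],[6,1,1,1,1],false,2,2,[3]),
    (false,[([(0,7,[(9,12),(3,3)]),(0,6,[(4,5)])],[1,1,1,1,1]),([(0,8,[(4,4)])],[2,1])],[],false,1,0,[]),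
    (true,[([(0,16,[(9,12),(5,5)])],[3]),([(0,6,[(4,5)])],[1,1,1])],[1,1,1,1],false,1,0,[2]),
    (false,[([(0,12,[(9,12)]),(0,6,[(4,5)]),(0,14,[(5,5),(2,2)])],[1])],[4,3],false,1,0,[]),
    (false,[([(0,12,[(9,12)]),(0,14,[(6,7)])],[1,1,1,1])],[5,4],false,2,3,[3,4]),
    (false,[([(0,7,[(9,12),(3,3)]),(0,14,[(6,7)])],[1,1,1,1])],[4,2],false,2,1,[]),
    (false,[([(0,12,[(9,12)]),(0,14,[(6,7)])],[1,1,1,1]),([(0,8,[(4,4)])],[2,2,1])],[],false,1,0,[]),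
    (false,[([(0,12,[(9,12)]),(0,19,[(8,9)])],[4,1,1])],[4,1],false,2,1,[]),
    (false,[([(0,7,[(13,15)])],[])],[13,4],false,2,4,[3,5]),
    (false,[([(0,7,[(13,15)]),(0,2,[(3,3)])],[1,1,1,1,1,1])],[4,4],false,1,0,[3]),
    (false,[([(0,21,[(13,15),(3,3),(2,3)])],[1,1,1,1,1,1,1])],[4],false,1,0,[2]),
    (false,[([(0,15,[(13,15),(2,2)]),(0,2,[(3,3)])],[1,1,1,1,1,1]),([(0,2,[(2,3)])],[2,1])],[],false,1,0,[]),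
    (false,[([(0,7,[(13,15)]),(0,6,[(4,5)])],[1,1,1,1,1])],[4,3],false,2,1,[]),
    (true,[([(0,16,[(16,17)])],[3])],[6,1,1,1,1,1,1],false,2,1,[])]),
  ([13,6,5,4,3,1], [
    (false,[],[13,6,5,4,3,1],false,5,4,[8,12,17]),
    (true,[([(0,11,[(6,8)])],[1])],[6,5,4,3,1,1,1,1,1],false,5,3,[8]),
    (true,[([(0,11,[(6,8)])],[]),([(0,11,[(6,8)])],[2])],[6,5,1,1,1],false,3,3,[5,7]),
    (false,[([(0,11,[(6,8)]),(0,11,[(6,8)]),(0,6,[(4,5)])],[4,1])],[5,1],false,1,0,[3,4]),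
    (true,[([(0,11,[(6,8)]),(0,2,[(2,3)])],[]),([(0,11,[(6,8)])],[]),([(0,6,[(4,5)])],[1,1])],[5,1],true,2,2,[3]),
    (true,[([(0,11,[(6,8)]),(0,2,[(2,3)])],[]),([(0,11,[(6,8)])],[]),([(0,6,[(4,5)])],[1,1]),([(0,2,[(3,3)])],[1,1,1])],[],false,1,0,[]),
    (true,[([(0,12,[(6,8),(4,4)])],[]),([(0,11,[(6,8)])],[2,2]),([(0,6,[(4,5)])],[1,1])],[1],false,1,0,[]),
    (false,[([(0,11,[(6,8)]),(0,11,[(6,8)]),(0,14,[(6,7)])],[3])],[5,1],false,2,1,[]),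
    (true,[([(0,12,[(9,12)])],[])],[6,5,4,1,1,1,1,1],false,4,4,[6,8,9]),
    (true,[([(0,12,[(9,12)])],[]),([(0,1,[(5,6)])],[2,2])],[6,1,1,1,1],false,2,4,[3,5]),
    (true,[([(0,12,[(9,12)])],[]),([(0,1,[(5,6)]),(0,2,[(3,3)])],[2])],[5,1,1,1,1],false,2,2,[3]),
    (true,[([(0,7,[(9,12),(3,3)])],[3]),([(0,1,[(5,6)]),(0,2,[(3,3)])],[])],[1,1,1,1,1],false,1,0,[]),
    (true,[([(0,12,[(9,12)])],[]),([(0,1,[(5,6)])],[2,2]),([(0,6,[(4,5)])],[1,1,1])],[1,1],false,1,0,[2]),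
    (true,[([(0,12,[(9,12)])],[]),([(0,11,[(5,6),(2,2)])],[2,2]),([(0,6,[(4,5)])],[1,1])],[1],false,1,0,[]),
    (true,[([(0,12,[(9,12)])],[]),([(0,11,[(7,8)])],[2,2])],[5,1,1,1],false,2,2,[3]),
    (false,[([(0,7,[(9,12),(3,3)]),(0,11,[(7,8)])],[1,1,1,1])],[5],false,1,0,[]),
    (false,[([(0,21,[(9,12),(9,9)])],[5,1,1,1,1,1,1])],[],false,1,0,[]),
    (true,[([(0,16,[(13,17)])],[])],[5,5,1,1,1,1,1],false,2,4,[3,5]),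
    (true,[([(0,16,[(13,17)])],[]),([(0,2,[(3,3)])],[1,1,1])],[5,1,1,1,1],false,2,2,[3]),
    (true,[([(0,16,[(13,17)])],[]),([(0,2,[(3,3)])],[1,1,1]),([(0,2,[(3,3)])],[1,1,1])],[1,1,1],false,1,0,[]),
    (true,[([(0,16,[(13,17)])],[]),([(0,6,[(4,5)])],[1,1])],[5,1,1,1],false,2,1,[])]),
  ([13,7,5,4,2,1], [
    (false,[],[13,7,5,4,2,1],true,6,3,[10,15,17]),
    (true,[([(0,0,[(7,10)])],[])],[6,5,4,2,1,1,1,1,1],false,5,2,[8,10]),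
    (true,[([(0,0,[(7,10)])],[]),([(0,11,[(6,8)])],[])],[6,5,1,1,1],false,3,3,[6]),
    (false,[([(0,0,[(7,10)]),(0,11,[(6,8)]),(0,1,[(4,6)])],[1,1])],[5,1],true,2,2,[3]),
    (false,[([(0,0,[(7,10)]),(0,11,[(6,8)]),(0,1,[(4,6)])],[1,1]),([(0,2,[(3,3)])],[1,1,1])],[],false,1,0,[]),
    (true,[([(0,0,[(7,10)])],[]),([(0,25,[(9,10)])],[])],[6,4,1,1],false,3,2,[]),
    (true,[([(0,7,[(11,15)])],[])],[6,4,2,1,1,1,1,1],false,4,2,[6,7]),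
    (true,[([(0,7,[(11,15)])],[]),([(0,1,[(5,6)])],[1])],[6,1,1,1,1],false,2,2,[3]),
    (true,[([(0,7,[(11,15)])],[]),([(0,0,[(5,6),(3,3)])],[2,1])],[1,1,1,1],false,1,0,[]),
    (false,[([(0,7,[(11,15)]),(0,14,[(7,7)])],[4,2,1,1])],[2],false,1,0,[]),
    (true,[([(0,16,[(16,17)])],[])],[5,4,2,1,1,1,1],false,2,1,[])]),
  ([13,7,6,3,2,1], [
    (false,[],[13,7,6,3,2,1],true,5,5,[8,12,17]),
    (true,[([(0,11,[(6,8)])],[2])],[6,4,3,3,2,1,1,1,1],false,5,2,[8]),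
    (true,[([(0,11,[(6,8)])],[]),([(0,11,[(6,8)])],[2])],[6,3,3,1,1],true,3,3,[6,7]),
    (false,[([(0,11,[(6,8)]),(0,11,[(6,8)]),(0,1,[(4,6)])],[1,1])],[7,1],false,1,0,[3,4]),
    (false,[([(0,11,[(6,8)]),(0,11,[(6,8)]),(0,1,[(4,6)]),(0,2,[(2,3)])],[])],[6,1],true,2,2,[3]),
    (false,[([(0,11,[(6,8)]),(0,11,[(6,8)]),(0,1,[(4,6)]),(0,2,[(2,3)])],[]),([(0,2,[(3,3)])],[1,1,1,1])],[],false,1,0,[]),
    (true,[([(0,12,[(6,8),(4,4)])],[]),([(0,11,[(6,8)])],[2,1]),([(0,1,[(4,6)])],[2])],[1],false,1,0,[]),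
    (true,[([(0,7,[(6,8),(7,7)])],[]),([(0,11,[(6,8)])],[2,1])],[3,1,1,1],false,1,0,[]),
    (true,[([(0,12,[(9,12)])],[])],[6,4,3,3,1,1,1,1],false,4,4,[6,9]),
    (true,[([(0,12,[(9,12)])],[]),([(0,1,[(5,6)])],[2])],[6,3,1,1,1],false,3,3,[5]),
    (true,[([(0,12,[(9,12)])],[]),([(0,1,[(5,6)])],[2]),([(0,6,[(4,5)])],[])],[6,1],false,2,1,[]),
    (true,[([(0,12,[(9,12)])],[]),([(0,0,[(7,9)])],[3,1])],[3,1,1,1],false,2,2,[3]),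
    (true,[([(0,12,[(9,12)])],[]),([(0,12,[(7,9),(3,3)])],[3])],[3,1,1],false,1,0,[]),
    (true,[([(0,16,[(13,17)])],[])],[5,3,3,1,1,1,1],false,3,4,[5]),
    (true,[([(0,16,[(13,17)])],[]),([(0,6,[(4,5)])],[])],[5,3,1,1],false,2,1,[])]),
  ([14,5,4,3,3,2,1], [
    (false,[],[14,5,4,3,3,2,1],true,5,5,[8,12,16,17]),
    (true,[([(0,11,[(6,8)])],[1])],[7,6,3,1,1,1,1,1,1,1],false,4,3,[6,8]),
    (false,[([(0,11,[(6,8)]),(0,1,[(5,6)])],[1,1,1,1,1,1,1])],[5,3,3],false,1,0,[2,3,5,6]),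
    (true,[([(0,0,[(6,8),(2,2)]),(0,1,[(5,6)])],[])],[6,2,1,1,1,1,1,1,1,1],false,2,6,[]),
    (true,[([(0,11,[(6,8)]),(0,2,[(3,3)])],[]),([(0,1,[(5,6)])],[1,1])],[7,1,1,1,1,1,1],false,2,5,[3]),
    (false,[([(0,11,[(6,8)]),(0,12,[(5,6),(3,3),(3,3)])],[1,1,1,1,1])],[4,3],false,2,3,[3]),
    (false,[([(0,11,[(6,8)]),(0,12,[(5,6),(3,3),(3,3)])],[1,1,1,1,1]),([(0,2,[(3,3)])],[2,2])],[],false,1,0,[2]),
    (false,[([(0,11,[(6,8)]),(0,1,[(5,6)]),(0,6,[(3,3),(2,2)])],[1,1,1,1]),([(0,1,[(3,3),(3,3)])],[3])],[],false,1,0,[]),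
    (false,[([(0,11,[(6,8)]),(0,1,[(5,6)]),(0,6,[(4,5)])],[1,1,1,1])],[4,3,2],false,3,2,[5]),
    (false,[([(0,11,[(6,8)]),(0,0,[(4,5),(4,5)])],[1,1,1,1,1,1]),([(0,1,[(5,6)])],[2])],[],false,1,0,[2]),
    (false,[([(0,0,[(6,8),(2,2)])],[]),([(0,1,[(5,6)]),(0,6,[(4,5)]),(0,6,[(4,5)])],[2,1,1,1,1])],[],false,1,0,[]),
    (false,[([(0,11,[(6,8)]),(0,1,[(5,6)]),(0,14,[(6,6)])],[1,1,1])],[4,3,1],false,3,1,[]),
    (true,[([(0,11,[(6,8)]),(0,3,[(7,8)])],[])],[6,2,1,1,1,1,1,1,1,1],false,3,2,[5,6]),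
    (false,[([(0,11,[(6,8)]),(0,11,[(7,8)]),(0,6,[(4,5)])],[1,1,1])],[4,3,1],false,3,1,[]),
    (true,[([(0,20,[(6,8),(6,6)])],[]),([(0,11,[(7,8)])],[2,2,2])],[1,1,1,1],false,1,0,[]),
    (true,[([(0,12,[(9,12)])],[])],[7,6,1,1,1,1,1,1,1],false,3,6,[4,5,7,9]),
    (true,[([(0,12,[(9,12)]),(0,8,[(4,4)])],[])],[6,3,1,1,1,1,1,1,1],false,3,3,[4]),
    (false,[([(0,12,[(9,12)]),(0,11,[(4,4),(4,4)])],[1,1,1,1,1])],[4,3],false,2,2,[3]),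
    (false,[([(0,12,[(9,12)]),(0,11,[(4,4),(4,4)])],[1,1,1,1,1]),([(0,2,[(3,3)])],[2,2])],[],false,1,0,[]),
    (true,[([(0,16,[(9,12),(5,5)])],[2])],[6,1,1,1,1,1,1,1],false,2,4,[3,5]),
    (false,[([(0,12,[(9,12)]),(0,11,[(5,5),(3,3)])],[1,1,1,1,1])],[4,3],false,2,2,[3]),
    (true,[([(0,7,[(9,12),(3,3)]),(0,2,[(3,3)])],[]),([(0,6,[(5,5)])],[1,1,1])],[1,1,1,1,1,1],false,1,0,[]),
    (true,[([(0,16,[(9,12),(5,5)])],[2]),([(0,6,[(4,5)])],[1,1,1])],[1,1,1,1,1],false,1,0,[2]),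
    (false,[([(0,12,[(9,12)]),(0,14,[(5,5),(2,2)]),(0,6,[(4,5)])],[1,1])],[3,3],false,1,0,[]),
    (false,[([(0,12,[(9,12)]),(0,14,[(6,7)])],[1,1,1,1,1])],[5,3],false,2,3,[3,4]),
    (false,[([(0,7,[(9,12),(3,3)]),(0,14,[(6,7)])],[1,1,1,1,1])],[3,2],false,2,1,[]),
    (false,[([(0,12,[(9,12)]),(0,14,[(6,7)])],[1,1,1,1,1]),([(0,8,[(4,4)])],[2,1,1])],[],false,1,0,[]),
    (false,[([(0,12,[(9,12)]),(0,19,[(8,9)])],[4,1,1,1])],[3,1],false,2,1,[]),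
    (true,[([(0,27,[(13,16)])],[])],[6,5,1,1,1,1,1],false,3,4,[5]),
    (true,[([(0,27,[(13,16)])],[]),([(0,6,[(4,5)])],[1,1])],[6,1,1,1],false,2,1,[]),
    (false,[([(0,16,[(17,17)])],[5,1,1,1,1,1,1,1])],[3],false,1,0,[])]),
  ([14,6,5,4,2,1], [
    (false,[],[14,6,5,4,2,1],true,5,5,[8,12,17]),
    (true,[([(0,11,[(6,8)])],[])],[6,5,4,3,1,1,1,1,1,1],false,5,3,[8]),
    (true,[([(0,11,[(6,8)])],[]),([(0,11,[(6,8)])],[2])],[6,4,1,1,1,1],false,3,4,[5,7]),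
    (true,[([(0,11,[(6,8)])],[]),([(0,11,[(6,8)])],[2]),([(0,6,[(4,5)])],[1])],[6,1,1],true,2,3,[3,4]),
    (true,[([(0,11,[(6,8)]),(0,2,[(3,3)])],[]),([(0,11,[(6,8)])],[]),([(0,6,[(4,5)])],[1])],[5,1,1],false,2,1,[]),
    (false,[([(0,12,[(6,8),(4,4)]),(0,11,[(6,8)]),(0,6,[(4,5)])],[1,1])],[5],false,1,0,[]),
    (true,[([(0,11,[(6,8)])],[]),([(0,11,[(6,8)])],[2]),([(0,14,[(6,7)])],[])],[6,1],false,2,1,[]),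
    (true,[([(0,12,[(9,12)])],[2])],[5,4,3,1,1,1,1,1,1],false,4,3,[6,8,9]),
    (true,[([(0,12,[(9,12)])],[]),([(0,1,[(5,6)])],[2,2,1])],[4,1,1,1,1,1],false,2,4,[3,5]),
    (true,[([(0,12,[(9,12)])],[]),([(0,1,[(5,6)]),(0,2,[(3,3)])],[2])],[4,1,1,1,1,1],false,2,2,[3]),
    (true,[([(0,7,[(9,12),(3,3)])],[]),([(0,1,[(5,6)]),(0,2,[(3,3)])],[2])],[1,1,1,1,1,1],false,1,0,[]),
    (true,[([(0,12,[(9,12)])],[]),([(0,1,[(5,6)])],[2,2,1]),([(0,6,[(4,5)])],[1])],[1,1,1],false,1,0,[2]),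
    (false,[([(0,12,[(9,12)]),(0,11,[(5,6),(2,2)]),(0,6,[(4,5)])],[1,1])],[5],false,1,0,[]),
    (true,[([(0,12,[(9,12)])],[]),([(0,11,[(7,8)])],[2,2])],[4,1,1,1,1],false,2,2,[3]),
    (true,[([(0,7,[(9,12),(3,3)])],[]),([(0,11,[(7,8)])],[2,2])],[1,1,1,1,1],false,1,0,[]),
    (false,[([(0,21,[(9,12),(9,9)])],[4,1,1,1,1,1,1,1])],[],false,1,0,[]),
    (true,[([(0,16,[(13,17)])],[])],[5,4,1,1,1,1,1,1],false,3,4,[5]),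
    (true,[([(0,16,[(13,17)])],[]),([(0,6,[(4,5)])],[1])],[5,1,1,1,1],false,2,1,[])]),
  ([16,6,4,3,2,1], [
    (false,[],[16,6,4,3,2,1],true,6,3,[10,14,17]),
    (true,[([(0,0,[(7,10)])],[])],[6,5,2,1,1,1,1,1,1,1,1,1],false,3,6,[5,8,10]),
    (true,[([(0,0,[(7,10)])],[]),([(0,6,[(4,5)])],[1,1])],[6,2,1,1,1,1,1,1,1],false,2,7,[3,4,5]),
    (true,[([(0,0,[(7,10)]),(0,2,[(3,3)])],[]),([(0,6,[(4,5)])],[])],[5,2,1,1,1,1,1,1,1],false,3,2,[]),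
    (true,[([(0,0,[(7,10)]),(0,8,[(4,4)])],[]),([(0,6,[(4,5)])],[])],[4,2,1,1,1,1,1,1,1],false,3,2,[4]),
    (false,[([(0,0,[(7,10)]),(0,6,[(4,5)]),(0,11,[(4,4),(4,4)])],[1,1,1,1,1])],[3,1],false,2,1,[]),
    (true,[([(0,0,[(7,10)])],[]),([(0,25,[(4,5),(5,5)])],[])],[6,1,1,1,1,1,1],false,2,3,[3,4]),
    (true,[([(0,0,[(7,10)]),(0,2,[(3,3)])],[]),([(0,25,[(4,5),(5,5)])],[])],[3,1,1,1,1,1,1],false,2,1,[]),
    (false,[([(0,0,[(7,10)]),(0,25,[(4,5),(5,5)]),(0,6,[(4,4)])],[1,1,1,1])],[3],false,1,0,[]),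
    (true,[([(0,0,[(7,10)])],[]),([(0,11,[(6,8)])],[1])],[6,1,1,1,1,1,1,1],false,2,5,[3,5,6]),
    (true,[([(0,0,[(7,10)]),(0,2,[(3,3)])],[]),([(0,11,[(6,8)])],[1])],[3,1,1,1,1,1,1,1],false,2,3,[3]),
    (false,[([(0,0,[(7,10)]),(0,11,[(6,8)]),(0,2,[(3,3)])],[1,1,1,1,1,1]),([(0,2,[(3,3)])],[1,1])],[],false,1,0,[2]),
    (false,[([(0,0,[(7,10)]),(0,11,[(6,8)]),(0,6,[(3,3),(2,2)])],[1,1,1,1,1]),([(0,2,[(3,3)])],[1])],[],false,1,0,[]),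
    (false,[([(0,0,[(7,10)]),(0,11,[(6,8)]),(0,6,[(4,5)])],[1,1,1,1,1])],[3,1],true,2,2,[3]),
    (false,[([(0,0,[(7,10)]),(0,11,[(6,8)]),(0,6,[(4,5)])],[1,1,1,1,1]),([(0,2,[(3,3)])],[1])],[],false,1,0,[]),
    (true,[([(0,0,[(7,10)])],[2]),([(0,20,[(6,8),(6,6)])],[])],[1,1,1,1,1,1],false,1,0,[]),
    (true,[([(0,0,[(7,10)])],[]),([(0,25,[(9,10)])],[])],[6,1,1,1,1,1,1],false,2,2,[3]),
    (true,[([(0,0,[(7,10)])],[2]),([(0,20,[(9,10),(3,3)])],[])],[1,1,1,1,1,1],false,1,0,[]),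
    (true,[([(0,20,[(11,14)])],[])],[5,4,2,1,1,1,1,1,1,1],false,4,2,[6,7]),
    (true,[([(0,20,[(11,14)])],[]),([(0,1,[(5,6)])],[1])],[5,1,1,1,1,1,1],false,2,2,[3]),
    (true,[([(0,16,[(11,14),(3,3)])],[]),([(0,1,[(5,6)])],[1,1])],[1,1,1,1,1,1,1],false,1,0,[]),
    (false,[([(0,21,[(11,14),(7,7)])],[2,1,1,1,1,1,1,1,1,1])],[],false,1,0,[]),
    (true,[([(0,16,[(15,17)])],[])],[5,2,1,1,1,1,1,1,1,1],false,3,2,[])]),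
  ([17,5,4,3,2,1], [
    (false,[],[17,5,4,3,2,1],true,5,4,[8,11,14,17]),
    (true,[([(0,11,[(6,8)])],[])],[6,5,3,1,1,1,1,1,1,1,1,1,1],false,4,3,[5,7,8]),
    (true,[([(0,11,[(6,8)])],[]),([(0,6,[(5,5)])],[])],[6,5,1,1,1,1,1,1,1,1],false,3,5,[5]),
    (true,[([(0,11,[(6,8)])],[]),([(0,25,[(5,5),(4,5)])],[2])],[5,1,1,1,1,1,1,1],false,2,4,[3,5]),
    (true,[([(0,11,[(6,8)]),(0,2,[(3,3)])],[]),([(0,25,[(5,5),(4,5)])],[])],[4,1,1,1,1,1,1,1],false,2,2,[3]),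
    (true,[([(0,11,[(6,8)]),(0,2,[(3,3)])],[]),([(0,25,[(5,5),(4,5)])],[]),([(0,2,[(3,3)])],[1,1])],[1,1,1,1,1,1],false,1,0,[]),
    (false,[([(0,11,[(6,8)]),(0,6,[(5,5)]),(0,6,[(4,5)]),(0,6,[(4,5)])],[1,1,1,1])],[3,2],false,2,1,[]),
    (true,[([(0,11,[(6,8)])],[]),([(0,14,[(6,7)])],[1])],[6,3,1,1,1,1,1,1,1],false,3,3,[5,7]),
    (true,[([(0,11,[(6,8)])],[]),([(0,14,[(6,7)])],[1]),([(0,6,[(4,5)])],[])],[6,1,1,1,1,1],false,2,3,[3,4]),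
    (false,[([(0,11,[(6,8)]),(0,14,[(6,7)]),(0,6,[(4,5)]),(0,2,[(3,3)])],[1,1,1,1])],[4,1],false,2,1,[]),
    (true,[([(0,11,[(6,8)]),(0,8,[(4,4)])],[]),([(0,12,[(6,7),(4,5)])],[])],[1,1,1,1,1,1,1,1],false,1,0,[]),
    (false,[([(0,11,[(6,8)]),(0,14,[(6,7)]),(0,14,[(6,7)])],[3,1,1,1,1])],[2,1],false,2,1,[]),
    (true,[([(0,11,[(6,8)])],[]),([(0,19,[(8,8)])],[])],[6,3,1,1,1,1,1,1],false,3,3,[5]),
    (false,[([(0,11,[(6,8)]),(0,11,[(8,8)]),(0,6,[(4,5)])],[1,1,1,1,1,1])],[4,1],false,2,1,[]),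
    (true,[([(0,12,[(9,11)])],[])],[6,4,1,1,1,1,1,1,1,1,1,1],false,3,4,[5,7,9]),
    (true,[([(0,12,[(9,11)])],[]),([(0,6,[(4,5)])],[1])],[6,1,1,1,1,1,1,1,1],false,2,5,[3,4,5]),
    (true,[([(0,20,[(9,11),(3,3)])],[]),([(0,6,[(4,5)])],[1])],[5,1,1,1,1,1,1,1],false,2,3,[3]),
    (true,[([(0,16,[(9,11),(3,3),(3,3)])],[]),([(0,6,[(4,5)])],[1,1])],[1,1,1,1,1,1,1,1],false,1,0,[2]),
    (true,[([(0,20,[(9,11),(3,3)])],[]),([(0,6,[(4,5)])],[1]),([(0,6,[(3,3),(2,2)])],[1,1])],[1,1,1,1,1],false,1,0,[]),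
    (true,[([(0,13,[(9,11)]),(0,8,[(4,4)])],[]),([(0,6,[(4,5)])],[1])],[2,1,1,1,1,1,1,1,1,1],false,2,2,[3]),
    (true,[([(0,20,[(9,11),(3,3)])],[]),([(0,6,[(4,5)])],[1]),([(0,6,[(4,4)])],[1,1])],[1,1,1,1,1],false,1,0,[]),
    (false,[([(0,21,[(9,11),(4,5),(5,5)])],[1,1,1,1,1,1,1,1,1,1,1])],[],false,1,0,[2]),
    (true,[([(0,13,[(9,11)]),(0,2,[(2,2)])],[]),([(0,25,[(4,5),(5,5)])],[])],[1,1,1,1,1,1,1,1],false,1,0,[]),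
    (true,[([(0,12,[(9,11)])],[]),([(0,14,[(6,7)])],[])],[6,1,1,1,1,1,1,1],false,2,3,[3,4]),
    (true,[([(0,20,[(9,11),(3,3)])],[]),([(0,14,[(6,7)])],[])],[5,1,1,1,1,1,1],false,2,1,[]),
    (false,[([(0,7,[(9,11),(4,4)]),(0,14,[(6,7)])],[1,1,1,1,1,1,1,1])],[2],false,1,0,[]),
    (true,[([(0,13,[(9,11)])],[2]),([(0,19,[(8,9)])],[1])],[2,1,1,1,1,1,1,1],false,2,1,[]),
    (true,[([(0,20,[(12,14)])],[])],[5,4,1,1,1,1,1,1,1,1,1],false,3,4,[5,6]),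
    (true,[([(0,20,[(12,14)])],[]),([(0,6,[(4,5)])],[1])],[5,1,1,1,1,1,1,1],false,2,2,[3]),
    (true,[([(0,16,[(12,14),(3,3)])],[]),([(0,6,[(4,5)])],[1,1])],[1,1,1,1,1,1,1,1],false,1,0,[]),
    (false,[([(0,21,[(12,14),(6,6)])],[1,1,1,1,1,1,1,1,1,1,1])],[],false,1,0,[]),
    (true,[([(0,16,[(15,17)])],[])],[5,1,1,1,1,1,1,1,1,1,1],false,2,2,[3]),
    (false,[([(0,21,[(15,17),(3,3)])],[1,1,1,1,1,1,1,1,1,1,1])],[],false,1,0,[])])]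

theorem cj6d_7_ok : runAllJ S39 R39 F39 16 cj6d_7 = true := by decide +kernel

/-- the minors -/
def G6d : List (List ℕ) := [
  [1,1,1,1,1,1,12,1,1,1,1,1], [1,1,1,1,1,12,1,1,1,1,1,1], [1,1,1,1,1,1,1,7,1,1,1,1],
  [1,1,1,1,7,1,1,1,1,1,1,1], [1,1,1,1,1,1,1,1,5,1,1,1], [1,1,1,5,1,1,1,1,1,1,1,1],
  [1,1,1,1,1,1,1,1,1,4,1,1], [1,1,4,1,1,1,1,1,1,1,1,1], [1,1,1,1,1,1,1,1,1,1,4,1],
  [1,4,1,1,1,1,1,1,1,1,1,1], [1,1,1,1,1,1,1,1,1,1,1,3], [3,1,1,1,1,1,1,1,1,1,1,1],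
  [1,1,1,1,1,1,1,1,1,1,2,2], [2,2,1,1,1,1,1,1,1,1,1,1], [1,2,1,1,1,1,1,1,1,1,2,1],
  [1,1,1,1,1,1,1,1,3,1,1,2], [2,1,1,3,1,1,1,1,1,1,1,1], [1,2,1,1,1,1,1,1,1,1,1,2],
  [2,1,1,1,1,1,1,1,1,1,2,1], [1,2,1,1,1,1,1,3,1,1,1,1], [1,1,1,1,3,1,1,1,1,1,2,1],
  [1,1,2,1,1,1,1,1,3,1,1,1], [1,1,1,3,1,1,1,1,1,2,1,1], [1,2,1,1,1,1,1,1,3,1,1,1],
  [1,1,1,3,1,1,1,1,1,1,2,1], [1,1,1,1,2,6,1,1,1,2,1,1], [1,1,2,1,1,1,6,2,1,1,1,1],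
  [1,2,1,1,4,1,1,1,1,1,1,1], [1,1,1,1,1,1,1,4,1,1,2,1], [1,3,2,1,1,1,1,1,1,1,1,1],
  [1,1,1,1,1,1,1,1,1,2,3,1], [1,2,1,2,1,4,1,1,1,1,1,1], [1,1,1,1,1,1,4,1,2,1,2,1],
  [1,2,1,1,1,7,1,1,1,1,1,1], [1,1,1,1,1,1,7,1,1,1,2,1], [1,1,1,1,1,1,4,1,1,3,1,1],
  [1,1,3,1,1,4,1,1,1,1,1,1], [1,3,1,1,1,1,2,1,1,1,1,1], [1,1,1,1,1,2,1,1,1,1,3,1],
  [1,1,1,1,1,1,8,1,1,2,1,1], [1,1,2,1,1,8,1,1,1,1,1,1], [1,2,1,1,1,1,1,1,1,3,1,1],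
  [1,1,3,1,1,1,1,1,1,1,2,1], [1,2,1,2,1,1,4,1,1,1,1,1], [1,1,1,1,1,4,1,1,2,1,2,1],
  [1,2,1,3,1,1,1,1,1,1,1,1], [1,1,1,1,1,1,1,1,3,1,2,1], [1,2,1,1,1,1,7,1,1,1,1,1],
  [1,1,1,1,1,7,1,1,1,1,2,1], [1,1,1,2,1,1,1,1,2,2,1,1], [1,1,2,2,1,1,1,1,2,1,1,1],
  [1,3,1,1,2,1,1,1,1,1,1,1], [1,1,1,1,1,1,1,2,1,1,3,1], [1,2,1,1,1,1,1,2,2,1,1,1],
  [1,1,1,2,2,1,1,1,1,1,2,1], [1,2,1,2,1,1,1,2,1,1,1,1], [1,1,1,1,2,1,1,1,2,1,2,1],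
  [1,1,2,1,2,1,1,1,1,2,1,1], [1,1,2,1,1,1,1,2,1,2,1,1], [1,1,2,1,1,1,1,1,2,2,1,1],
  [1,1,2,2,1,1,1,1,1,2,1,1], [1,2,1,1,1,2,1,1,1,2,1,1], [1,1,2,1,1,1,2,1,1,1,2,1],
  [1,2,2,1,2,1,1,1,1,1,1,1], [1,1,1,1,1,1,1,2,1,2,2,1], [1,2,2,1,1,3,1,1,1,1,1,1],
  [1,1,1,1,1,1,3,1,1,2,2,1], [1,1,2,1,1,1,8,1,1,1,1,1], [1,1,1,1,1,8,1,1,1,2,1,1],
  [1,1,2,1,1,1,1,1,1,1,1,2], [2,1,1,1,1,1,1,1,1,2,1,1], [2,1,1,1,1,1,4,1,1,1,1,1],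
  [1,1,1,1,1,4,1,1,1,1,1,2], [2,1,1,1,4,1,1,1,1,1,1,1], [1,1,1,1,1,1,1,4,1,1,1,2],
  [1,1,1,1,1,1,1,4,3,1,1,1], [1,1,1,3,4,1,1,1,1,1,1,1], [1,1,1,1,1,1,1,2,4,1,1,1],
  [1,1,1,4,2,1,1,1,1,1,1,1], [2,1,1,1,1,1,1,3,1,1,1,1], [1,1,1,1,3,1,1,1,1,1,1,2],
  [1,1,1,1,1,3,1,1,4,1,1,1], [1,1,1,4,1,1,3,1,1,1,1,1], [2,1,1,2,2,1,1,1,1,1,1,1],
  [1,1,1,1,1,1,1,2,2,1,1,2], [2,1,1,1,2,4,1,1,1,1,1,1], [1,1,1,1,1,1,4,2,1,1,1,2],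
  [1,1,1,1,2,1,1,1,4,1,1,1], [1,1,1,4,1,1,1,2,1,1,1,1], [1,1,1,1,3,1,2,1,3,1,1,1],
  [1,1,1,3,1,2,1,3,1,1,1,1], [2,1,1,2,1,3,1,1,1,1,1,1], [1,1,1,1,1,1,3,1,2,1,1,2],
  [1,1,1,1,1,4,1,2,3,1,1,1], [1,1,1,3,2,1,4,1,1,1,1,1], [1,1,1,2,1,1,1,1,4,1,1,1],
  [1,1,1,4,1,1,1,1,2,1,1,1], [1,1,1,2,1,2,1,1,1,1,1,2], [2,1,1,1,1,1,2,1,2,1,1,1],
  [1,1,1,1,2,2,1,1,1,1,1,2], [2,1,1,1,1,1,2,2,1,1,1,1], [1,1,3,1,1,1,1,1,2,1,1,1],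
  [1,1,1,2,1,1,1,1,1,3,1,1], [2,1,1,1,2,1,1,2,1,1,1,1], [1,1,1,1,2,1,1,2,1,1,1,2],
  [2,1,2,1,1,2,1,1,1,1,1,1], [1,1,1,1,1,1,2,1,1,2,1,2], [1,1,3,1,2,1,2,1,1,1,1,1],
  [1,1,1,1,1,2,1,2,1,3,1,1], [1,1,3,1,1,1,1,1,1,2,1,1], [1,1,2,1,1,1,1,1,1,3,1,1],
  [1,1,3,2,1,1,1,1,1,1,1,1], [1,1,1,1,1,1,1,1,2,3,1,1], [1,1,1,2,1,1,1,5,1,1,1,1],
  [1,1,1,1,5,1,1,1,2,1,1,1], [1,1,1,3,1,6,1,1,1,1,1,1], [1,1,1,1,1,1,6,1,3,1,1,1],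
  [1,1,3,1,3,1,1,1,1,1,1,1], [1,1,1,1,1,1,1,3,1,3,1,1], [1,1,1,1,1,1,3,4,2,1,1,1],
  [1,1,1,2,4,3,1,1,1,1,1,1], [1,1,1,1,4,1,1,4,1,1,1,1], [1,1,1,1,1,2,1,6,1,1,1,1],
  [1,1,1,1,6,1,2,1,1,1,1,1], [1,1,1,1,1,3,1,4,2,1,1,1], [1,1,1,2,4,1,3,1,1,1,1,1],
  [1,1,1,1,3,1,1,5,1,1,1,1], [1,1,1,1,5,1,1,3,1,1,1,1], [1,1,2,1,3,4,1,1,1,1,1,1],
  [1,1,1,1,1,1,4,3,1,2,1,1], [1,1,2,1,1,1,4,3,1,1,1,1], [1,1,1,1,3,4,1,1,1,2,1,1],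
  [1,1,1,1,4,3,1,1,2,1,1,1], [1,1,1,2,1,1,3,4,1,1,1,1], [1,1,1,1,1,6,5,2,1,1,1,1],
  [1,1,1,1,2,5,6,1,1,1,1,1], [1,1,2,1,2,6,1,1,1,1,1,1], [1,1,1,1,1,1,6,2,1,2,1,1],
  [1,1,1,2,1,1,9,1,1,1,1,1], [1,1,1,1,1,9,1,1,2,1,1,1], [1,1,1,3,1,1,6,1,1,1,1,1],
  [1,1,1,1,1,6,1,1,3,1,1,1], [1,1,1,1,2,10,1,1,1,1,1,1], [1,1,1,1,1,1,10,2,1,1,1,1],
  [1,1,1,1,1,8,3,2,1,1,1,1], [1,1,1,1,2,3,8,1,1,1,1,1], [1,1,1,2,1,5,1,3,1,1,1,1],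
  [1,1,1,1,3,1,5,1,2,1,1,1]]

noncomputable def T6d : BT :=
  .split 0 3 (.split 1 4 (.split 2 4 (.split 3 5 (.split 4 7 (.split 5 12 (.split 6 12 (.split 7
  7 (.split 8 5 (.split 9 4 (.split 10 4 (.split 11 3 (.split 10 2 (.split 1 2 (.split 11 2
  (.split 0 2 (.split 9 2 (.split 8 3 (.split 7 4 (.split 6 6 (.split 5 6 (.split 4 4 (.split 2
  2 (.split 3 3 (.split 7 2 .small (.split 6 3 .small (.split 5 3 .small (.split 4 2 .small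
  (.split 8 2 .small (.split 3 2 .small (.split 7 3 .small (.split 5 5 .small (.minor
  146))))))))) (.split 7 2 (.split 6 3 .small (.split 3 4 .small (.minor 82))) (.split 3 4
  (.split 6 3 (.split 5 3 .small (.split 7 3 .small (.minor 90))) (.split 5 3 (.split 4 2 .small
  (.split 6 4 .small (.minor 94))) (.split 7 3 (.split 4 2 .small (.split 6 4 .small (.minor
  94))) (.minor 90)))) (.minor 88)))) (.split 3 3 (.split 8 2 (.split 7 2 (.split 6 3 .small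
  (.split 5 3 .small (.split 4 2 .small (.split 2 3 .small (.minor 107))))) (.split 6 3 (.split
  5 3 .small (.split 4 2 .small (.split 2 3 .small (.split 3 2 .small (.minor 111))))) (.split 5
  3 (.split 4 2 .small (.split 2 3 .small (.minor 107))) (.split 4 2 (.split 2 3 .small (.split
  3 2 .small (.minor 111))) (.split 2 3 (.split 3 2 .small (.split 7 3 .small (.split 5 5
  (.split 6 4 .small (.minor 130)) (.minor 146)))) (.minor 107)))))) (.split 2 3 (.split 3 2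
  (.split 7 2 .small (.split 6 3 .small (.split 5 3 .small (.split 4 2 .small (.split 7 3
  (.split 6 4 .small (.split 5 4 .small (.split 4 3 .small (.minor 128)))) (.split 6 4 (.split 5
  4 .small (.split 4 3 .small (.minor 128))) (.minor 130))))))) (.minor 50)) (.minor 101)))
  (.split 2 3 (.split 8 2 (.split 7 2 (.split 6 3 (.split 5 3 .small (.split 4 2 .small (.split
  3 4 .small (.minor 78)))) (.split 3 4 (.split 5 3 .small (.split 4 2 .small (.split 6 4 .small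
  (.minor 94)))) (.minor 82))) (.split 3 4 (.split 6 3 (.split 5 3 .small (.split 7 3 .small
  (.minor 90))) (.split 5 3 (.split 4 2 .small (.split 6 4 .small (.minor 94))) (.split 7 3
  (.split 4 2 .small (.split 6 4 (.split 5 4 .small (.split 4 3 .small (.minor 128))) (.minor
  94))) (.minor 90)))) (.minor 88))) (.minor 50)) (.minor 111)))) (.split 2 3 (.split 3 3
  (.split 2 2 (.split 7 2 (.split 6 3 .small (.split 3 2 .small (.minor 125))) (.split 6 3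
  (.split 5 3 (.split 4 5 .small (.split 7 3 .small (.minor 127))) (.split 3 2 (.split 8 2
  .small (.minor 132)) (.minor 120))) (.split 3 2 (.split 4 6 (.split 5 3 .small (.split 8 2
  .small (.minor 132))) (.minor 123)) (.minor 125)))) (.split 5 4 (.split 8 2 (.split 7 2
  (.split 6 3 .small (.split 3 2 .small (.minor 125))) (.split 6 3 (.split 4 5 .small (.split 7
  3 (.split 3 2 .small (.split 5 3 .small (.minor 120))) (.minor 127))) (.split 3 2 (.split 4 6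
  (.split 7 3 .small (.split 4 5 .small (.minor 127))) (.minor 123)) (.minor 125)))) (.split 3 2
  (.split 4 5 (.split 5 3 (.split 6 5 (.split 7 2 .small (.split 6 3 .small (.split 7 3 .small
  (.split 6 4 .small (.minor 130))))) (.minor 147)) (.minor 132)) (.minor 114)) (.minor 50)))
  (.minor 128))) (.minor 76)) (.minor 117))) (.split 2 3 (.split 3 3 (.split 4 4 (.split 5 9
  (.split 2 2 (.split 7 2 .small (.split 6 5 (.split 4 2 .small (.split 8 2 .small (.split 6 3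
  (.split 3 2 .small (.split 7 3 .small (.minor 146))) (.split 5 8 (.split 3 2 .small (.split 7
  3 .small (.minor 146))) (.minor 144))))) (.minor 134))) (.split 4 2 (.split 5 8 (.split 8 2
  .small (.split 3 2 (.split 7 2 .small (.split 6 5 .small (.minor 134))) (.minor 50))) (.minor
  40)) (.minor 136))) (.split 2 2 (.split 8 2 (.split 7 2 .small (.split 6 3 (.split 4 2 .small
  (.split 5 10 .small (.minor 142))) (.minor 144))) (.minor 139)) (.minor 40))) (.split 2 2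
  (.split 3 2 (.split 5 10 (.split 8 2 (.split 7 2 (.split 6 3 .small (.split 4 6 .small (.minor
  123))) (.split 6 5 (.split 4 5 .small (.split 7 3 (.split 6 3 .small (.split 4 6 .small
  (.minor 123))) (.minor 127))) (.minor 134))) (.minor 132)) (.minor 142)) (.minor 120)) (.minor
  128))) (.minor 115)) (.minor 36))) (.split 3 3 (.split 4 6 (.split 5 6 (.split 2 2 (.split 4 3
  (.split 6 9 (.split 7 2 .small (.split 5 3 .small (.split 8 2 .small (.split 3 2 .small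
  (.split 7 3 .small (.split 5 5 (.split 6 7 .small (.split 4 2 .small (.split 6 8 .small
  (.minor 145)))) (.minor 146))))))) (.split 3 2 (.split 7 2 .small (.split 6 10 .small (.minor
  143))) (.minor 138))) (.split 5 5 (.split 8 2 (.split 6 9 (.split 7 2 .small (.split 4 4
  .small (.split 3 2 (.split 5 3 .small (.split 6 8 .small (.minor 145))) (.minor 125))))
  (.split 3 2 (.split 5 3 (.split 7 2 .small (.split 6 10 .small (.minor 143))) (.minor 145))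
  (.minor 138))) (.minor 147)) (.minor 135))) (.split 6 8 (.split 7 2 (.split 4 3 (.split 8 2
  (.split 5 3 .small (.split 2 3 .small (.split 3 2 .small (.minor 111)))) (.split 2 3 (.split 3
  2 .small (.minor 50)) (.minor 101))) (.split 2 3 (.split 5 4 (.split 8 2 (.split 4 4 .small
  (.split 3 2 .small (.minor 125))) (.minor 147)) (.minor 128)) (.minor 107))) (.minor 26))
  (.minor 67))) (.split 2 3 (.split 4 2 (.split 7 2 (.split 6 9 (.split 5 9 (.split 2 2 .small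
  (.split 5 8 (.split 6 8 (.split 8 2 .small (.split 3 2 .small (.minor 50))) (.minor 67))
  (.minor 40))) (.split 2 2 (.split 8 2 .small (.minor 139)) (.minor 40))) (.split 2 2 (.split 3
  2 (.split 5 9 .small (.split 8 2 .small (.minor 139))) (.minor 138)) (.minor 67))) (.minor
  134)) (.minor 135)) (.minor 36))) (.minor 123)) (.minor 140))) (.split 3 4 (.split 4 4 (.split
  6 10 (.split 5 6 (.split 2 2 (.split 6 5 (.split 3 2 (.split 7 5 .small (.split 4 3 (.split 5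
  3 .small (.split 7 6 .small (.minor 122))) (.minor 126))) (.split 5 5 (.split 6 3 (.split 7 5
  (.split 4 2 .small (.split 8 2 .small (.split 5 3 .small (.minor 124)))) (.minor 113)) (.minor
  133)) (.minor 146))) (.split 3 2 (.split 8 2 (.split 7 5 (.split 6 7 .small (.split 5 3 .small
  (.split 4 2 .small (.split 5 5 .small (.minor 135))))) (.split 4 3 (.split 6 7 .small (.split
  5 3 .small (.split 7 6 (.split 6 8 .small (.split 4 2 .small (.minor 145))) (.minor 122))))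
  (.minor 126))) (.minor 119)) (.minor 133))) (.split 6 4 (.split 3 2 (.split 8 2 (.split 7 5
  (.split 5 3 .small (.split 4 2 .small (.split 2 3 .small (.split 4 3 (.split 5 4 .small
  (.minor 36)) (.minor 117))))) (.split 4 3 (.split 5 3 (.split 2 3 .small (.split 7 6 .small
  (.split 5 2 (.split 6 2 .small (.split 4 2 .small (.minor 107))) (.minor 122)))) (.split 7 6
  (.split 2 3 .small (.split 5 4 (.split 6 2 .small (.split 4 2 .small (.minor 107))) (.minor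
  36))) (.minor 122))) (.minor 126))) (.split 2 3 (.split 5 3 (.split 6 3 (.split 7 5 .small
  (.split 4 3 (.split 7 6 .small (.split 5 2 .small (.minor 122))) (.minor 126))) (.minor 119))
  (.minor 124)) (.minor 101))) (.split 2 3 (.split 5 5 (.split 6 3 (.split 7 5 (.split 8 2
  (.split 4 2 .small (.split 5 3 (.split 3 3 .small (.split 5 2 .small (.minor 90))) (.split 3 3
  .small (.minor 90)))) (.minor 50)) (.minor 113)) (.minor 133)) (.minor 146)) (.minor 111)))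
  (.minor 130))) (.split 2 3 (.split 3 2 (.split 6 5 (.split 7 6 (.split 8 2 (.split 5 9 (.split
  4 2 (.split 2 2 .small (.split 5 8 .small (.minor 40))) (.split 2 2 (.split 6 3 .small (.split
  5 8 .small (.minor 144))) (.minor 136))) (.split 2 2 (.split 6 3 (.split 4 2 .small (.split 5
  10 .small (.minor 142))) (.minor 144)) (.minor 40))) (.minor 124)) (.minor 122)) (.minor 134))
  (.minor 146)) (.minor 36))) (.minor 143)) (.minor 121)) (.minor 88))) (.split 2 2 (.split 3 4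
  (.split 4 5 (.split 5 6 (.split 6 6 (.split 7 4 (.split 4 3 (.split 3 2 (.split 7 2 .small
  (.split 5 4 .small (.minor 93))) (.split 8 4 (.split 7 2 (.split 6 3 .small (.split 5 3 .small
  (.split 3 3 .small (.split 6 4 .small (.split 4 2 .small (.minor 94)))))) (.split 5 4 (.split
  6 3 .small (.split 3 3 .small (.split 7 3 (.split 6 4 .small (.split 4 2 .small (.minor 94)))
  (.split 5 2 (.split 6 4 .small (.split 4 2 .small (.minor 94))) (.minor 90))))) (.minor 93)))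
  (.minor 95))) (.split 6 2 (.split 8 4 (.split 3 2 .small (.split 7 2 (.split 5 3 .small
  (.split 4 4 .small (.minor 120))) (.split 5 4 (.split 3 3 .small (.split 4 4 (.split 7 3
  .small (.split 5 2 .small (.minor 90))) (.minor 76))) (.minor 93)))) (.minor 87)) (.minor
  89))) (.minor 75)) (.minor 116)) (.minor 141)) (.minor 114)) (.minor 96)) (.minor 21)))
  (.split 2 3 (.split 3 3 (.split 5 8 (.split 6 8 (.split 8 3 (.split 7 4 (.split 4 4 (.split 2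
  2 (.split 6 4 (.split 5 4 (.split 9 3 (.split 7 2 .small (.split 4 2 .small (.split 3 2 .small
  (.split 8 2 .small (.minor 49))))) (.split 3 2 (.split 7 3 .small (.minor 118)) (.minor 102)))
  (.split 4 3 (.split 9 3 (.split 7 2 .small (.split 3 2 .small (.split 8 2 (.split 5 6 .small
  (.split 4 2 .small (.minor 25))) (.minor 49)))) (.split 3 2 (.split 7 2 .small (.minor 108))
  (.minor 102))) (.minor 131))) (.split 7 3 (.split 9 3 (.split 5 4 (.split 4 2 .small (.split 3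
  2 .small (.split 8 2 (.split 6 6 .small (.split 7 2 .small (.minor 137))) (.minor 49))))
  (.split 4 3 (.split 3 2 (.split 8 2 .small (.split 6 6 .small (.split 7 2 .small (.minor
  137)))) (.split 8 2 (.split 6 6 (.split 5 6 .small (.split 4 2 .small (.minor 25))) (.split 7
  2 (.split 5 6 .small (.split 4 2 .small (.minor 25))) (.minor 137))) (.minor 49))) (.minor
  131))) (.minor 35)) (.minor 129))) (.split 3 2 (.split 4 2 (.split 7 2 (.split 8 2 (.split 9 3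
  .small (.minor 110)) (.minor 59)) (.minor 58)) (.minor 57)) (.minor 60))) (.split 2 2 (.split
  5 4 (.split 6 4 (.split 9 3 (.split 7 2 (.split 4 5 .small (.split 8 2 (.split 3 2 .small
  (.split 5 3 .small (.minor 120))) (.minor 114))) (.split 4 5 (.split 3 2 .small (.split 5 3
  (.split 6 3 (.split 8 2 .small (.minor 49)) (.minor 125)) (.minor 120))) (.split 7 3 (.split 8
  2 (.split 3 2 .small (.split 5 3 (.split 6 3 (.split 4 6 .small (.split 6 2 .small (.minor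
  123))) (.minor 125)) (.minor 120))) (.minor 114)) (.minor 127)))) (.split 3 2 (.split 7 3
  (.split 8 2 (.split 4 5 .small (.split 7 2 (.split 6 2 .small (.split 4 6 .small (.minor
  123))) (.split 5 2 (.split 6 2 .small (.split 4 6 .small (.minor 123))) (.minor 108))))
  (.minor 112)) (.minor 118)) (.minor 102))) (.split 3 2 (.split 4 6 (.split 7 3 (.split 9 3
  (.split 8 2 (.split 6 6 .small (.split 7 2 .small (.minor 137))) (.split 4 5 (.split 5 3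
  (.split 6 5 .small (.minor 147)) (.minor 132)) (.minor 114))) (.minor 35)) (.minor 129))
  (.minor 123)) (.minor 125))) (.minor 131)) (.minor 57))) (.split 2 2 (.split 4 4 (.split 6 4
  (.split 9 3 (.split 5 4 (.split 7 5 (.split 4 2 .small (.split 3 2 .small (.split 6 3 (.split
  8 2 .small (.minor 49)) (.minor 133)))) (.split 3 2 (.split 4 3 (.split 8 2 .small (.split 5 3
  (.split 6 3 .small (.minor 119)) (.minor 124))) (.minor 126)) (.minor 113))) (.split 4 3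
  (.split 7 6 (.split 8 2 (.split 3 2 (.split 5 6 .small (.split 4 2 .small (.minor 25)))
  (.split 5 5 (.split 6 3 (.split 7 5 .small (.minor 113)) (.minor 133)) (.minor 146))) (.minor
  124)) (.minor 122)) (.minor 131))) (.minor 118)) (.minor 129)) (.minor 121)) (.minor 58)))
  (.split 2 2 (.split 3 2 (.split 4 5 (.split 5 6 (.split 6 6 (.split 7 4 (.split 9 3 (.split 4
  3 (.split 7 2 (.split 6 3 .small (.split 5 3 .small (.split 8 4 .small (.minor 81)))) (.split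
  5 4 (.split 8 4 (.split 6 3 .small (.split 7 3 .small (.split 6 4 .small (.minor 129))))
  (.minor 77)) (.minor 93))) (.split 5 4 (.split 6 2 (.split 8 4 (.split 7 2 .small (.split 7 3
  .small (.split 5 2 .small (.split 4 4 .small (.split 5 3 .small (.minor 132)))))) (.minor 87))
  (.minor 89)) (.minor 131))) (.minor 112)) (.minor 75)) (.minor 116)) (.minor 141)) (.minor
  114)) (.minor 49)) (.minor 21))) (.minor 39)) (.minor 68)) (.minor 22)) (.minor 109))) (.split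
  3 3 (.split 4 4 (.split 6 4 (.split 7 3 (.split 9 2 (.split 8 3 (.split 5 6 (.split 2 2
  (.split 8 2 (.split 6 2 .small (.split 7 2 .small (.minor 100))) (.split 6 2 (.split 5 3
  .small (.split 3 2 .small (.minor 91))) (.minor 98))) (.split 5 2 (.split 8 2 (.split 6 2
  (.split 4 2 .small (.split 3 2 .small (.minor 83))) (.split 7 2 (.split 4 2 .small (.split 2 3
  .small (.minor 107))) (.minor 100))) (.split 2 3 (.split 3 2 (.split 6 2 (.split 4 2 .small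
  (.split 7 2 .small (.minor 103))) (.minor 98)) (.minor 50)) (.minor 101))) (.minor 105)))
  (.split 2 2 (.split 3 2 (.split 4 2 (.split 5 9 (.split 8 2 .small (.split 6 2 .small (.minor
  98))) (.split 8 2 (.split 6 2 .small (.split 7 2 .small (.minor 100))) (.minor 139))) (.minor
  85)) (.minor 91)) (.minor 105))) (.split 2 2 (.split 5 6 (.split 6 2 (.split 8 4 (.split 5 3
  (.split 4 2 .small (.split 3 2 (.split 7 2 .small (.minor 103)) (.minor 83))) (.split 3 2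
  (.split 4 2 .small (.split 5 4 (.split 7 2 .small (.minor 103)) (.minor 85))) (.minor 91)))
  (.split 3 2 (.split 4 2 (.split 5 3 (.split 7 2 .small (.minor 77)) (.minor 81)) (.minor 87))
  (.minor 95))) (.minor 98)) (.minor 141)) (.minor 21))) (.minor 70)) (.minor 79)) (.minor 71))
  (.minor 73)) (.minor 16))) (.split 2 2 (.split 4 3 (.split 5 4 (.split 7 4 (.split 8 3 (.split
  0 2 (.split 3 3 (.split 9 2 (.split 6 6 (.split 7 2 (.split 6 3 .small (.split 8 2 .small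
  (.minor 92))) (.split 4 2 (.split 6 4 (.split 8 2 .small (.minor 84)) (.minor 86)) (.minor
  104))) (.split 7 2 (.split 8 2 (.split 6 9 (.split 5 2 .small (.split 3 2 .small (.minor 97)))
  (.split 3 2 (.split 5 2 .small (.split 4 2 .small (.minor 99))) (.minor 138))) (.minor 92))
  (.minor 86))) (.split 6 2 (.split 3 2 (.split 9 3 (.split 7 2 .small (.split 4 2 .small
  (.minor 104))) (.split 7 3 (.split 8 2 (.split 5 2 .small (.split 4 2 .small (.minor 99)))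
  (.minor 112)) (.minor 118))) (.split 5 2 (.split 8 2 (.split 9 3 (.split 7 2 .small (.split 4
  2 .small (.minor 104))) (.minor 102)) (.minor 49)) (.minor 97))) (.minor 106))) (.split 5 2
  (.split 6 6 (.split 9 2 (.split 7 2 (.split 6 3 (.split 3 4 .small (.split 4 2 (.split 8 2
  .small (.minor 96)) (.minor 78))) (.split 3 4 (.split 8 2 .small (.minor 92)) (.minor 82)))
  (.split 3 4 (.split 4 2 (.split 6 4 (.split 8 2 .small (.minor 84)) (.minor 86)) (.minor 104))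
  (.minor 88))) (.minor 22)) (.minor 140)) (.minor 97))) (.split 3 3 (.split 6 4 (.split 7 3
  (.split 9 2 (.split 8 2 (.split 6 2 (.split 5 2 (.split 3 2 .small (.split 4 2 .small (.minor
  83))) (.split 3 2 (.split 4 2 .small (.minor 99)) (.minor 97))) (.split 7 2 (.split 5 2
  (.split 3 2 .small (.split 4 2 .small (.minor 83))) (.split 3 2 (.split 4 2 .small (.minor
  99)) (.minor 97))) (.minor 100))) (.split 6 2 (.split 7 2 (.split 5 2 (.split 3 2 .small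
  (.split 4 2 .small (.minor 83))) (.split 3 2 (.split 4 2 .small (.minor 99)) (.minor 97)))
  (.minor 84)) (.minor 98))) (.minor 70)) (.minor 79)) (.minor 71)) (.minor 16))) (.minor 15))
  (.minor 74)) (.minor 72)) (.minor 80)) (.minor 69))) (.split 0 2 (.split 3 3 (.split 4 4
  (.split 5 7 (.split 6 7 (.split 7 3 (.split 8 3 (.split 9 3 (.split 11 2 (.split 2 2 (.split 1
  3 (.split 9 2 (.split 6 4 (.split 5 4 (.split 8 2 .small (.split 7 2 .small (.minor 53)))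
  (.split 3 2 (.split 8 2 .small (.split 7 2 .small (.minor 53))) (.minor 31))) (.split 3 2
  (.split 5 4 (.split 8 2 .small (.split 7 2 .small (.minor 53))) (.split 8 2 (.split 4 2 .small
  (.split 7 2 .small (.split 6 5 .small (.split 5 6 .small (.minor 134))))) (.split 7 2 (.split
  4 2 .small (.split 6 5 .small (.split 4 3 .small (.minor 147)))) (.minor 53)))) (.minor 43)))
  (.split 5 2 (.split 6 4 (.split 8 2 (.split 4 2 .small (.split 3 2 .small (.split 7 2 .small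
  (.minor 55)))) (.split 3 2 (.split 7 2 .small (.minor 53)) (.minor 49))) (.split 3 2 (.split 8
  2 (.split 4 2 .small (.split 7 2 .small (.split 6 6 .small (.minor 137)))) (.split 7 2 (.split
  4 2 .small (.split 6 5 .small (.split 4 3 .small (.minor 147)))) (.minor 53))) (.minor 43)))
  (.minor 61))) (.split 4 2 (.split 6 2 (.split 9 2 (.split 8 2 (.split 5 4 .small (.split 3 2
  .small (.minor 31))) (.split 7 2 (.split 5 4 .small (.split 3 2 .small (.minor 31))) (.minor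
  53))) (.split 5 2 (.split 8 2 (.split 7 2 .small (.split 3 2 .small (.minor 55))) (.split 3 2
  (.split 7 2 .small (.minor 53)) (.minor 49))) (.minor 61))) (.minor 37)) (.minor 51))) (.split
  1 3 (.split 4 2 (.split 5 3 (.split 9 2 (.split 8 2 (.split 6 4 (.split 2 3 .small (.split 3 2
  .small (.minor 111))) (.split 3 2 (.split 2 3 .small (.split 7 2 .small (.split 6 6 .small
  (.minor 26)))) (.minor 43))) (.split 2 3 (.split 3 2 (.split 7 2 .small (.minor 53)) (.minor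
  50)) (.minor 101))) (.split 2 3 (.split 3 2 (.split 5 2 (.split 7 2 (.split 8 2 .small (.minor
  59)) (.minor 58)) (.minor 61)) (.minor 60)) (.minor 109))) (.minor 65)) (.minor 63)) (.minor
  29))) (.minor 17)) (.minor 41)) (.minor 23)) (.minor 19)) (.minor 47)) (.minor 33)) (.minor
  27)) (.minor 45)) (.minor 13))) (.split 0 2 (.split 1 2 (.split 2 3 (.split 3 3 (.split 4 3
  (.split 5 7 (.split 6 7 (.split 7 4 (.split 8 3 (.split 11 2 (.split 9 2 (.split 10 3 (.split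
  2 2 (.split 6 4 (.split 5 4 (.split 7 2 .small (.split 3 2 .small (.split 4 2 .small (.minor
  54)))) (.split 8 2 (.split 7 2 .small (.split 3 2 .small (.split 4 2 .small (.minor 54))))
  (.minor 44))) (.split 8 2 (.split 5 4 (.split 7 2 .small (.split 3 2 .small (.split 4 2 .small
  (.minor 54)))) (.split 7 2 (.split 3 2 .small (.split 4 2 .small (.minor 54))) (.split 3 2
  (.split 4 2 .small (.split 7 3 .small (.split 6 5 .small (.split 5 6 .small (.minor 134)))))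
  (.split 4 2 (.split 7 3 .small (.split 5 5 .small (.minor 146))) (.minor 54))))) (.minor 32)))
  (.split 6 2 (.split 5 4 (.split 8 2 (.split 7 2 .small (.split 3 2 .small (.split 4 2 .small
  (.minor 54)))) (.split 3 2 (.split 4 2 .small (.minor 56)) (.minor 50))) (.split 8 2 (.split 7
  2 (.split 3 2 .small (.split 4 2 .small (.minor 54))) (.split 3 2 (.split 4 2 .small (.split 5
  6 .small (.minor 136))) (.split 4 2 (.split 7 3 .small (.split 5 5 .small (.minor 146)))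
  (.minor 54)))) (.minor 44))) (.minor 62))) (.split 5 2 (.split 7 2 (.split 2 2 (.split 6 4
  (.split 3 2 .small (.split 4 2 .small (.minor 54))) (.split 8 2 (.split 3 2 .small (.split 4 2
  .small (.minor 54))) (.minor 32))) (.split 6 2 (.split 3 2 (.split 8 2 .small (.split 4 2
  .small (.minor 56))) (.split 4 2 (.split 8 2 .small (.minor 50)) (.minor 54))) (.minor 62)))
  (.minor 52)) (.minor 38))) (.split 6 3 (.split 7 2 (.split 10 3 (.split 2 2 (.split 3 2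
  (.split 5 4 (.split 9 3 .small (.split 8 2 .small (.minor 112))) (.split 8 2 (.split 9 3
  .small (.split 4 2 .small (.split 5 6 .small (.minor 25)))) (.minor 44))) (.split 4 2 (.split
  8 2 (.split 9 3 .small (.minor 102)) (.minor 49)) (.minor 54))) (.split 3 2 (.split 4 2
  (.split 6 2 (.split 8 2 (.split 9 3 .small (.minor 110)) (.minor 59)) (.minor 62)) (.minor
  57)) (.minor 60))) (.minor 30)) (.minor 64)) (.minor 66))) (.minor 12)) (.minor 46)) (.minor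
  28)) (.minor 34)) (.minor 48)) (.minor 20)) (.minor 24)) (.minor 42)) (.minor 14)) (.minor
  18))) (.minor 10)) (.minor 8)) (.minor 6)) (.minor 4)) (.minor 2)) (.minor 0)) (.minor 1))
  (.minor 3)) (.minor 5)) (.minor 7)) (.minor 9)) (.minor 11)

noncomputable def Rt6d : List (List ℕ) :=
  cj6d_0.map Prod.fst ++ cj6d_1.map Prod.fst ++ cj6d_2.map Prod.fst ++ cj6d_3.map Prod.fst ++
  cj6d_4.map Prod.fst ++ cj6d_5.map Prod.fst ++ cj6d_6.map Prod.fst ++ cj6d_7.map Prod.fst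

theorem Rt6d_ok : ∀ M ∈ Rt6d, KG (M : Multiset ℕ) 16 := by
  intro M h
  unfold Rt6d at h
  simp only [List.mem_append] at h
  rcases h with ((((((h | h) | h) | h) | h) | h) | h) | h
  · exact kg_of_allJ S39_ok R39_ok F39_ok cj6d_0_ok M h
  · exact kg_of_allJ S39_ok R39_ok F39_ok cj6d_1_ok M h
  · exact kg_of_allJ S39_ok R39_ok F39_ok cj6d_2_ok M h
  · exact kg_of_allJ S39_ok R39_ok F39_ok cj6d_3_ok M h
  · exact kg_of_allJ S39_ok R39_ok F39_ok cj6d_4_ok M h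
  · exact kg_of_allJ S39_ok R39_ok F39_ok cj6d_5_ok M h
  · exact kg_of_allJ S39_ok R39_ok F39_ok cj6d_6_ok M h
  · exact kg_of_allJ S39_ok R39_ok F39_ok cj6d_7_ok M h

def ks6d : List ℕ := [
  148, 149, 130, 131, 100, 101, 74, 75, 78, 79, 20, 21, 18, 19, 0, 70, 71, 5, 4, 30, 31, 24, 25,
  34, 35, 125, 124, 93, 92, 77, 76, 113, 112, 137, 136, 114, 115, 17, 16, 144, 145, 36, 37, 44,
  45, 69, 68, 122, 123, 14, 15, 61, 60, 32, 33, 13, 12, 11, 10, 26, 27, 7, 6, 59, 58, 85, 84, 134,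
  135, 3, 2, 80, 81, 95, 94, 120, 121, 98, 99, 42, 43, 62, 63, 55, 54, 111, 110, 64, 65, 46, 47,
  83, 82, 52, 53, 66, 67, 41, 40, 39, 38, 23, 22, 9, 8, 49, 48, 57, 56, 29, 28, 73, 72, 88, 89,
  141, 140, 97, 96, 128, 129, 50, 118, 119, 90, 91, 86, 87, 127, 126, 108, 109, 117, 116, 104,
  105, 139, 138, 142, 143, 102, 103, 147, 146, 133, 132, 107, 106]

theorem min6d_ok : minC 6 Rt6d G6d ks6d = true := by decide +kernel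

theorem T6d_ok : btC 6 43 G6d T6d (List.replicate (2 * 6) 1)
    (List.replicate (2 * 6) 0) = true := by decide +kernel

theorem kg6d {M : Multiset ℕ} (hM : ∀ s ∈ M, 1 ≤ s)
    (hc : M.dedup.card = 6) (hn : 43 ≤ M.sum) : KG M 16 :=
  coverC ks6d T6d Rt6d_ok min6d_ok T6d_ok hM hc hn

end Pool.MP322
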