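import Pool.Agent.Lib.MP_322c5f_al.SG3

/-! Semigroup property, part 4: the image of `Ph` consists of the antisymmetric functions. -/

set_option autoImplicit false

open Equiv Finset Nat

namespace Pool.MP322

theorem sg_equiv_fin (s t : Finset ℕ) (f g : ℕ → ℕ)
    (h : ∀ r, (s.filter (fun c => f c = r)).card = (t.filter (fun c => g c = r)).card) :
    ∃ κ : ℕ → ℕ, (∀ a ∈ s, ∀ b ∈ s, κ a = κ b → a = b) ∧ ∀ c ∈ s, g (κ c) = f c := by
  classical
  have e1 : ∀ (s : Finset ℕ) (g : ℕ → ℕ) (r : ℕ),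
      (univ.filter (fun x : {c // c ∈ s} => g x.1 = r)).card =
        (s.filter (fun c => g c = r)).card := by
    intro s g r
    refine Finset.card_bij (fun x _ => x.1) ?_ ?_ ?_
    · intro x hx
      exact Finset.mem_filter.2 ⟨x.2, (Finset.mem_filter.1 hx).2⟩
    · intro x _ y _ hxy
      exact Subtype.ext hxy
    · intro c hc
      obtain ⟨h1, h2⟩ := Finset.mem_filter.1 hc
      exact ⟨⟨c, h1⟩, Finset.mem_filter.2 ⟨Finset.mem_univ _, h2⟩, rfl⟩
  obtain ⟨e, he⟩ := sg_equiv (fun c : {c // c ∈ s} => f c.1) (fun c : {c // c ∈ t} => g c.1)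
    (fun r => by rw [e1 s f r, e1 t g r]; exact h r)
  refine ⟨fun c => if h : c ∈ s then (e ⟨c, h⟩).1 else 0, ?_, ?_⟩
  · intro a ha b hb hab
    simp only [dif_pos ha, dif_pos hb] at hab
    exact congrArg Subtype.val (e.injective (Subtype.ext hab))
  · intro c hc
    simp only [dif_pos hc]
    exact he ⟨c, hc⟩

section
variable {n : ℕ} (lam : Y n)

theorem sg_im (T : Tab ⊥ lam.1 n) : ∀ c, c ∈ lam.1 ↔ ∃ i, T.1 i = c := by
  intro c
  rw [T.2.2.2.1 c]
  constructor
  · rintro (h | h)
    · exact absurd h (YoungDiagram.notMem_bot c)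
    · exact h
  · exact Or.inr

theorem occ_perm (w : Fin n → ℕ) (σ : Perm (Fin n)) (r : ℕ) : occ (fun i => w (σ i)) r = occ w r := by
  classical
  unfold occ
  refine Finset.card_bij (fun i _ => σ i) ?_ ?_ ?_
  · intro i hi
    exact Finset.mem_filter.2 ⟨Finset.mem_univ _, (Finset.mem_filter.1 hi).2⟩
  · intro i _ j _ hij
    exact σ.injective hij
  · intro j hj
    refine ⟨σ⁻¹ j, Finset.mem_filter.2 ⟨Finset.mem_univ _, ?_⟩, sg_ai σ j⟩
    show w (σ (σ⁻¹ j)) = r
    rw [sg_ai]
    exact (Finset.mem_filter.1 hj).2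

theorem occ_rw (r : ℕ) : occ (rw' lam) r = lam.1.rowLen r :=
  sg_occ_T (rT lam).2.1 (sg_im lam (rT lam)) r

/-- the functions `ph` have content `lam` -/
theorem ph_sup (x : Tab ⊥ lam.1 n) : Sup lam.1 (ph lam x) := by
  intro w hw r
  by_cases h : ∃ π : Perm (Fin n), w = fun i => rw' lam (π i)
  · obtain ⟨π, rfl⟩ := h
    rw [occ_perm, occ_rw]
  · exact absurd (ph_zero lam x w h) hw

theorem g0_anti : Anti (cc lam) (ph lam (cT lam)) := by
  intro i j hij hc w
  have h1 : ∀ k, cc lam (swap i j k) = cc lam k := by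
    intro k
    rw [swap_apply_def]
    split_ifs with h2 h3
    · rw [h2, hc]
    · rw [h3, hc]
    · rfl
  rw [ph_equiv, Finset.sum_congr rfl fun y _ => by rw [rep_cT lam (swap i j) h1 y]]
  simp only [ite_mul, zero_mul, Finset.sum_ite_eq', Finset.mem_univ, if_true]
  rw [Perm.sign_swap hij]
  norm_num

theorem g0_ne : ph lam (cT lam) (cw lam) ≠ 0 := by
  intro h0
  have h1 : ∀ w, ph lam (cT lam) w = 0 := by
    intro w
    rcases sg_value (T := (cT lam).1) (cT lam).2.1 (sg_im lam (cT lam)) w with h | ⟨s, h⟩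
    · exact h _ (g0_anti lam) (ph_sup lam _)
    · rw [h _ (g0_anti lam) (ph_sup lam _)]
      have h2 : ph lam (cT lam) (fun i => ((cT lam).1 i).1) = 0 := h0
      rw [h2, mul_zero]
  have h2 := ph_sum lam (cT lam) (cT lam)
  rw [if_pos rfl, Finset.sum_eq_zero (fun π _ => by rw [h1, zero_mul])] at h2
  have h3 : (0 : ℝ) < (n ! : ℝ) / fd lam := div_pos (by exact_mod_cast Nat.factorial_pos n) (fd_pos lam)
  exact h3.ne h2

theorem sp_mem0 {f : (Fin n → ℕ) → ℝ} (hf : Anti (cc lam) f) (hs : Sup lam.1 f) (w : Fin n → ℕ) :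
    f w = f (cw lam) / ph lam (cT lam) (cw lam) * ph lam (cT lam) w := by
  have h0 := g0_ne lam
  rcases sg_value (T := (cT lam).1) (cT lam).2.1 (sg_im lam (cT lam)) w with h | ⟨s, h⟩
  · rw [h _ hf hs, h _ (g0_anti lam) (ph_sup lam _), mul_zero]
  · rw [h _ hf hs, h _ (g0_anti lam) (ph_sup lam _)]
    have h1 : (fun i => ((cT lam).1 i).1) = cw lam := rfl
    rw [h1]
    field_simp

/-- a bijective filling is a permutation of the column reading one. -/
theorem sg_fill {T : Fin n → ℕ × ℕ} (hinj : Function.Injective T)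
    (him : ∀ c, c ∈ lam.1 ↔ ∃ i, T i = c) : ∃ π : Perm (Fin n), ∀ i, T i = (cT lam).1 (π i) := by
  classical
  have h1 : ∀ i, ∃ j, (cT lam).1 j = T i := fun i =>
    (sg_im lam (cT lam) (T i)).1 ((him _).2 ⟨i, rfl⟩)
  choose s hs using h1
  have hsi : Function.Injective s := by
    intro i j hij
    apply hinj
    rw [← hs i, ← hs j, hij]
  exact ⟨Equiv.ofBijective s (Finite.injective_iff_bijective.1 hsi), fun i => (hs i).symm⟩

theorem sp_mem1 {T : Fin n → ℕ × ℕ} (hinj : Function.Injective T)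
    (him : ∀ c, c ∈ lam.1 ↔ ∃ i, T i = c) {f : (Fin n → ℕ) → ℝ} (hf : Anti (fun i => (T i).2) f)
    (hs : Sup lam.1 f) : ∃ v, ∀ w, f w = Ph lam v w := by
  classical
  obtain ⟨π, hπ⟩ := sg_fill lam hinj him
  set f' : (Fin n → ℕ) → ℝ := fun w => f (fun i => w (π i)) with hf'
  have h1 : Anti (cc lam) f' := by
    intro a b hab hc w
    have h2 : (fun i => (fun k => w (swap a b k)) (π i)) =
        fun i => (fun k => w (π k)) (swap (π⁻¹ a) (π⁻¹ b) i) := by
      funext i
      show w (swap a b (π i)) = w (π (swap (π⁻¹ a) (π⁻¹ b) i))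
      congr 1
      rw [swap_apply_def, swap_apply_def]
      have h3 : ∀ x, i = π⁻¹ x ↔ π i = x := fun x => by
        constructor
        · rintro rfl
          exact sg_ai π x
        · rintro rfl
          exact (sg_ia π i).symm
      by_cases h4 : π i = a
      · rw [if_pos h4, if_pos ((h3 a).2 h4), sg_ai]
      · rw [if_neg h4, if_neg (fun h => h4 ((h3 a).1 h))]
        by_cases h5 : π i = b
        · rw [if_pos h5, if_pos ((h3 b).2 h5), sg_ai]
        · rw [if_neg h5, if_neg (fun h => h5 ((h3 b).1 h))]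
    have h3 : f' (fun k => w (swap a b k)) =
        f (fun i => (fun k => w (π k)) (swap (π⁻¹ a) (π⁻¹ b) i)) := by
      rw [hf']
      simp only
      rw [← h2]
    rw [h3]
    refine hf (π⁻¹ a) (π⁻¹ b) ?_ ?_ (fun k => w (π k))
    · intro h4
      exact hab (by rw [← sg_ai π a, h4, sg_ai])
    · show (T (π⁻¹ a)).2 = (T (π⁻¹ b)).2
      rw [hπ, hπ, sg_ai, sg_ai]
      exact hc
  have h2 : Sup lam.1 f' := by
    intro w hw r
    have h3 := hs _ hw r
    rwa [occ_perm] at h3
  set c := f' (cw lam) / ph lam (cT lam) (cw lam) with hc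
  refine ⟨fun y => c * rep ⊥ lam.1 n π⁻¹ y (cT lam), fun w => ?_⟩
  have h3 := sp_mem0 lam h1 h2 (fun i => w (π⁻¹ i))
  have h4 : f' (fun i => w (π⁻¹ i)) = f w := by
    rw [hf']
    simp only
    congr 1
    funext i
    rw [sg_ia]
  rw [h4, ← hc, ph_equiv] at h3
  rw [h3, Finset.mul_sum]
  unfold Ph
  exact Finset.sum_congr rfl fun y _ => by ring

/-- the column type of `u` is `lam`. -/
def Ctype (lam : YoungDiagram) (u : Fin n → ℕ) : Prop :=
  ∀ r, ((univ.image u).filter (fun c => r < occ u c)).card = lam.rowLen r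

theorem occ_pos {u : Fin n → ℕ} {c : ℕ} : 0 < occ u c ↔ c ∈ univ.image u := by
  classical
  unfold occ
  rw [Finset.card_pos, Finset.mem_image]
  constructor
  · rintro ⟨i, hi⟩
    exact ⟨i, Finset.mem_univ _, (Finset.mem_filter.1 hi).2⟩
  · rintro ⟨i, -, hi⟩
    exact ⟨i, Finset.mem_filter.2 ⟨Finset.mem_univ _, hi⟩⟩

/-- numbering of the columns -/
theorem sg_kappa {u : Fin n → ℕ} (hu : Ctype lam.1 u) : ∃ κ : ℕ → ℕ,
    (∀ i j, κ (u i) = κ (u j) → u i = u j) ∧ ∀ i, lam.1.colLen (κ (u i)) = occ u (u i) := by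
  classical
  have hcol : ∀ r, ((range (lam.1.rowLen 0)).filter (fun c => r < lam.1.colLen c)).card =
      lam.1.rowLen r := by
    intro r
    rw [← Finset.card_range (lam.1.rowLen r)]
    congr 1
    ext c
    rw [Finset.mem_filter, Finset.mem_range, Finset.mem_range, ← YoungDiagram.mem_iff_lt_colLen,
      YoungDiagram.mem_iff_lt_rowLen]
    constructor
    · exact fun h => h.2
    · exact fun h => ⟨lt_of_lt_of_le h (lam.1.rowLen_anti 0 r (Nat.zero_le _)), h⟩
  have hsplit : ∀ (s : Finset ℕ) (g : ℕ → ℕ) (r : ℕ),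
      (s.filter (fun c => r < g c)).card = (s.filter (fun c => g c = r + 1)).card +
        (s.filter (fun c => r + 1 < g c)).card := by
    intro s g r
    rw [← Finset.card_union_of_disjoint]
    · congr 1
      ext c
      simp only [Finset.mem_filter, Finset.mem_union]
      constructor
      · rintro ⟨h1, h2⟩
        rcases Nat.lt_or_ge (r + 1) (g c) with h3 | h3
        · exact Or.inr ⟨h1, h3⟩
        · exact Or.inl ⟨h1, by omega⟩
      · rintro (⟨h1, h2⟩ | ⟨h1, h2⟩)
        · exact ⟨h1, by omega⟩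
        · exact ⟨h1, by omega⟩
    · rw [Finset.disjoint_filter]
      intro c _ h1
      omega
  have heq : ∀ r, ((univ.image u).filter (fun c => occ u c = r)).card =
      ((range (lam.1.rowLen 0)).filter (fun c => lam.1.colLen c = r)).card := by
    intro r
    rcases Nat.eq_zero_or_pos r with h0 | h0
    · subst h0
      rw [Finset.filter_eq_empty_iff.2, Finset.filter_eq_empty_iff.2]
      · intro c hc h1
        rw [Finset.mem_range, ← YoungDiagram.mem_iff_lt_rowLen, YoungDiagram.mem_iff_lt_colLen] at hc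
        omega
      · intro c hc h1
        have := occ_pos.2 hc
        omega
    · obtain ⟨k, rfl⟩ := Nat.exists_eq_succ_of_ne_zero h0.ne'
      have h1 := hsplit (univ.image u) (occ u) k
      have h2 := hsplit (range (lam.1.rowLen 0)) lam.1.colLen k
      rw [hu k, hu (k + 1)] at h1
      rw [hcol k, hcol (k + 1)] at h2
      have h3 : k.succ = k + 1 := rfl
      rw [h3]
      omega
  obtain ⟨κ, h1, h2⟩ := sg_equiv_fin (univ.image u) (range (lam.1.rowLen 0)) (occ u)
    lam.1.colLen heq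
  exact ⟨κ, fun i j hij => h1 _ (Finset.mem_image_of_mem _ (Finset.mem_univ _)) _
    (Finset.mem_image_of_mem _ (Finset.mem_univ _)) hij,
    fun i => h2 _ (Finset.mem_image_of_mem _ (Finset.mem_univ _))⟩

/-- every antisymmetric function of the right type is in the image of `Ph` -/
theorem sp_mem {u : Fin n → ℕ} (hu : Ctype lam.1 u) {f : (Fin n → ℕ) → ℝ} (hf : Anti u f)
    (hs : Sup lam.1 f) : ∃ v, ∀ w, f w = Ph lam v w := by
  classical
  obtain ⟨κ, h1, h2⟩ := sg_kappa lam hu
  set a : Fin n → ℕ := fun i => (univ.filter (fun j => j < i ∧ u j = u i)).card with ha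
  set T : Fin n → ℕ × ℕ := fun i => (a i, κ (u i)) with hT
  have hlt : ∀ i j, i < j → u i = u j → a i < a j := by
    intro i j hij huij
    rw [ha]
    simp only
    refine Finset.card_lt_card ?_
    rw [Finset.ssubset_iff_of_subset]
    · refine ⟨i, Finset.mem_filter.2 ⟨Finset.mem_univ _, hij, huij⟩, fun h => ?_⟩
      exact absurd (Finset.mem_filter.1 h).2.1 (lt_irrefl _)
    · intro k hk
      obtain ⟨-, h3, h4⟩ := Finset.mem_filter.1 hk
      exact Finset.mem_filter.2 ⟨Finset.mem_univ _, h3.trans hij, h4.trans huij⟩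
  have hinj : Function.Injective T := by
    intro i j hij
    have h3 : a i = a j := congrArg Prod.fst hij
    have h4 : u i = u j := h1 i j (congrArg Prod.snd hij)
    rcases lt_trichotomy i j with h5 | h5 | h5
    · exact absurd h3 (hlt i j h5 h4).ne
    · exact h5
    · exact absurd h3 (hlt j i h5 h4.symm).ne'
  have hmem : ∀ i, T i ∈ lam.1 := by
    intro i
    rw [hT]
    simp only
    rw [YoungDiagram.mem_iff_lt_colLen, h2, ha]
    simp only
    unfold occ
    refine Finset.card_lt_card ?_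
    rw [Finset.ssubset_iff_of_subset]
    · refine ⟨i, Finset.mem_filter.2 ⟨Finset.mem_univ _, rfl⟩, fun h => ?_⟩
      exact absurd (Finset.mem_filter.1 h).2.1 (lt_irrefl _)
    · intro k hk
      obtain ⟨-, h3, h4⟩ := Finset.mem_filter.1 hk
      exact Finset.mem_filter.2 ⟨Finset.mem_univ _, h4⟩
  have him : ∀ c, c ∈ lam.1 ↔ ∃ i, T i = c := by
    intro c
    constructor
    · intro hc
      have h3 : (univ.image T) = lam.1.cells := by
        refine Finset.eq_of_subset_of_card_le ?_ ?_
        · intro d hd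
          obtain ⟨i, -, rfl⟩ := Finset.mem_image.1 hd
          exact (YoungDiagram.mem_cells _).2 (hmem i)
        · rw [Finset.card_image_of_injective _ hinj, Finset.card_univ, Fintype.card_fin]
          exact lam.2.le
      have h4 : c ∈ univ.image T := by
        rw [h3]
        exact (YoungDiagram.mem_cells _).2 hc
      obtain ⟨i, -, hi⟩ := Finset.mem_image.1 h4
      exact ⟨i, hi⟩
    · rintro ⟨i, rfl⟩
      exact hmem i
  refine sp_mem1 lam hinj him ?_ hs
  intro i j hij hcol w
  exact hf i j hij (h1 i j hcol) w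

/-- `ph x` as a combination of translates of the basic function -/
theorem sp_gen (x : Tab ⊥ lam.1 n) (w : Fin n → ℕ) :
    ph lam x w = ∑ σ : Perm (Fin n), fd lam / (n ! : ℝ) * rep ⊥ lam.1 n σ x (cT lam) *
      ph lam (cT lam) (fun i => w (σ i)) := by
  classical
  have h1 : ∀ σ : Perm (Fin n), fd lam / (n ! : ℝ) * rep ⊥ lam.1 n σ x (cT lam) *
      ph lam (cT lam) (fun i => w (σ i)) =
      ∑ y, fd lam / (n ! : ℝ) * ph lam y w *
        (rep ⊥ lam.1 n σ x (cT lam) * rep ⊥ lam.1 n σ y (cT lam)) := by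
    intro σ
    rw [ph_equiv, Finset.mul_sum]
    exact Finset.sum_congr rfl fun y _ => by ring
  rw [Finset.sum_congr rfl fun σ _ => h1 σ, Finset.sum_comm]
  have h2 : ∀ y, ∑ σ : Perm (Fin n), fd lam / (n ! : ℝ) * ph lam y w *
      (rep ⊥ lam.1 n σ x (cT lam) * rep ⊥ lam.1 n σ y (cT lam)) =
      fd lam / (n ! : ℝ) * ph lam y w * (if x = y then (n ! : ℝ) / fd lam else 0) := by
    intro y
    rw [← Finset.mul_sum]
    congr 1
    have h3 := schur_orth_same lam x (cT lam) y (cT lam)
    simp only [and_true] at h3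
    exact h3
  rw [Finset.sum_congr rfl fun y _ => h2 y]
  simp only [mul_ite, mul_zero, Finset.sum_ite_eq, Finset.mem_univ, if_true]
  have h4 := (fd_pos lam).ne'
  have h5 : (n ! : ℝ) ≠ 0 := by exact_mod_cast (Nat.factorial_pos n).ne'
  field_simp

theorem cc_ctype : Ctype lam.1 (cc lam) := by
  classical
  intro r
  have h1 : ∀ c, occ (cc lam) c = lam.1.colLen c := by
    intro c
    have h2 := sg_colcount (T := (cT lam).1) (cT lam).2.1 (sg_im lam (cT lam)) c (lam.1.colLen c)
    rw [min_self] at h2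
    rw [← h2]
    unfold occ
    congr 1
    ext i
    simp only [Finset.mem_filter, Finset.mem_univ, true_and]
    constructor
    · intro h5
      refine ⟨h5, ?_⟩
      rw [← YoungDiagram.mem_iff_lt_colLen]
      have h6 : ((cT lam).1 i).2 = c := h5
      rw [← h6]
      exact (sg_im lam (cT lam) _).2 ⟨i, rfl⟩
    · exact fun h5 => h5.1
  rw [← Finset.card_range (lam.1.rowLen r)]
  congr 1
  ext c
  rw [Finset.mem_filter, Finset.mem_range, h1, ← YoungDiagram.mem_iff_lt_rowLen,
    YoungDiagram.mem_iff_lt_colLen, ← occ_pos, h1]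
  constructor
  · exact fun h => h.2
  · exact fun h => ⟨by omega, h⟩

end

end Pool.MP322
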