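import Pool.Agent.Lib.MP_322c5f_al.SG36b
import Pool.Agent.Lib.MP_322c5f_alF.FB40

/-! (C), part 30: six distinct column heights, depth 18. -/

set_option autoImplicit false

namespace Pool.MP322

/-- self-conjugate blocks -/
def S40 : List (List ℕ × List ℕ) := [
  ([3,3,2],[0,2,6]), ([3,2,1],[1,2,3]), ([4,3,2,1],[1,2,3,4]), ([2,1],[1,2]), ([3,1,1],[2,0,3]),
  ([5,4,3,2,1],[1,2,3,4,5]), ([3,3,3],[0,0,9]), ([6,5,3,2,2,1],[1,4,3,0,5,6]),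
  ([6,5,4,3,2,1],[1,2,3,4,5,6]), ([4,4,3,2],[0,2,3,8]), ([4,4,2,2],[0,4,0,8]),
  ([4,3,3,1],[1,0,6,4]), ([2,2],[0,4]), ([5,5,4,3,2],[0,2,3,4,10]), ([5,4,4,3,1],[1,0,3,8,5]),
  ([4,2,1,1],[2,2,0,4]), ([4,4,4,3],[0,0,3,12]), ([5,4,2,2,1],[1,4,0,4,5]),
  ([6,5,4,4,2,1],[1,2,0,8,5,6]), ([4,1,1,1],[3,0,0,4]), ([5,5,4,4,2],[0,2,0,8,10]),
  ([6,5,2,2,2,1],[1,6,0,0,5,6]), ([5,3,3,1,1],[2,0,6,0,5]), ([5,4,4,4,1],[1,0,0,12,5]),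
  ([6,4,4,3,1,1],[2,0,3,8,0,6]), ([5,3,2,1,1],[2,2,3,0,5]), ([6,4,3,2,1,1],[2,2,3,4,0,6]),
  ([5,2,1,1,1],[3,2,0,0,5]), ([7,6,3,2,2,2,1],[1,6,3,0,0,6,7]), ([5,5,3,2,2],[0,4,3,0,10]),
  ([6,3,2,1,1,1],[3,2,3,0,0,6]), ([5,1,1,1,1],[4,0,0,0,5]), ([6,4,2,2,1,1],[2,4,0,4,0,6]),
  ([7,3,2,1,1,1,1],[4,2,3,0,0,0,7]), ([7,4,3,2,1,1,1],[3,2,3,4,0,0,7]),
  ([6,2,1,1,1,1],[4,2,0,0,0,6]), ([9,4,3,2,1,1,1,1,1],[5,2,3,4,0,0,0,0,9]),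
  ([8,3,3,1,1,1,1,1],[5,0,6,0,0,0,0,8]), ([7,5,4,3,2,1,1],[2,2,3,4,5,0,7]),
  ([6,1,1,1,1,1],[5,0,0,0,0,6])]

theorem S40_ok : okS S40 = true := by decide +kernel

/-- direct blocks -/
def R40 : List (List ℕ × List ℕ) := [
  ([3,2,1],[3,2,1]), ([4,3,2,1],[4,3,2,1]), ([5,4,3,2,1],[5,4,3,2,1]),
  ([6,5,4,3,2,1],[6,5,4,3,2,1])]

theorem R40_ok : okR R40 = true := by decide +kernel

/-- facts used -/
def F40 : List (List ℕ × List ℕ) := [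
  ([7,6,5,4,2,1],[5,5,5,3,2,2]), ([7,6,5,4,2,1],[5,5,5,3,2,2,2]),
  ([8,7,6,5,2,1],[5,5,5,3,2,2,2,2]), ([7,6,5,4,2,1],[5,5,5,3,3,2]),
  ([7,6,5,4,2,1],[5,5,5,3,3,2,2]), ([7,6,5,4,2,1],[5,5,5,3,3,3]), ([7,6,5,4,2,1],[5,5,5,5,2]),
  ([7,6,5,4,2,1],[5,5,5,5,2,2]), ([7,6,5,4,2,1],[5,5,5,5,3]), ([7,6,5,3,2,1],[5,5,5,3,3,2]),
  ([8,7,6,3,2,1],[5,5,5,3,3,2,2]), ([7,6,5,3,2,1],[5,5,5,3,3,3]), ([7,6,5,3,2,1],[5,5,5,5,2]),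
  ([7,6,5,3,2,1],[5,5,5,5,2,2]), ([7,6,5,3,2,1],[5,5,5,5,3])]

theorem F40_ok : ∀ p ∈ F40, CC (p.1 : Multiset ℕ) (p.2 : Multiset ℕ) :=
  Pool.MP322F.inT_sound Pool.MP322F.FTc_ok (by decide +kernel)

noncomputable def cj6e_0 : List (List ℕ × List NdJ) := [
  ([8,7,6,5,4,4,3], [
    (false,[],[8,7,6,5,4,4,3],false,6,3,[8,9,11,13,15,19]),
    (false,[([(0,0,[(7,8)])],[3])],[8,7,6,5],false,4,5,[6,8]),
    (false,[([(0,0,[(7,8)]),(0,1,[(5,6)])],[3])],[8,5,4,3],false,4,3,[6]),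
    (true,[([(0,0,[(7,8)]),(0,1,[(5,6)])],[2]),([(0,1,[(5,6)])],[1,1,1,1])],[7,4],false,2,4,[4,5]),
    (true,[([(0,0,[(7,8)]),(0,2,[(5,6),(3,4)])],[]),([(0,1,[(5,6)])],[3,1,1,1])],[7],false,1,0,[2,3]),
    (true,[([(0,0,[(7,8)]),(0,1,[(5,6)])],[2]),([(0,1,[(5,6)]),(0,1,[(3,4),(2,2)])],[1])],[7,1],false,2,1,[]),
    (true,[([(0,0,[(7,8)]),(0,1,[(5,6)])],[2]),([(0,2,[(5,6),(3,4)]),(0,3,[(3,3)])],[1])],[7],false,1,0,[]),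
    (false,[([(0,0,[(7,8)]),(0,1,[(5,6)])],[2]),([(0,1,[(5,6)]),(0,4,[(5,5)])],[3,3])],[4],false,1,0,[]),
    (true,[([(0,0,[(7,8)]),(0,0,[(7,8)])],[2])],[7,6,3,2,1],false,5,1,[7]),
    (true,[([(0,5,[(7,8),(6,7)])],[1,1]),([(0,0,[(7,8)])],[3,3,3,3])],[],false,1,0,[2]),
    (false,[([(0,0,[(7,8)]),(0,0,[(7,8)])],[1]),([(0,2,[(6,7),(2,2)])],[4,4,1,1])],[],false,1,0,[]),
    (false,[([(0,6,[(9,9)])],[2])],[8,7,6,5],false,4,5,[6,9]),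
    (false,[([(0,6,[(9,9)]),(0,1,[(5,6)])],[])],[8,7,4,3],false,4,3,[6]),
    (true,[([(0,6,[(9,9)]),(0,1,[(5,6)])],[2]),([(0,1,[(5,6)])],[1,1,1,1])],[7,3],false,2,2,[3]),
    (true,[([(0,6,[(9,9)])],[2,2,2,2]),([(0,5,[(5,6),(5,6),(3,3)])],[3,2])],[],false,1,0,[]),
    (false,[([(0,7,[(9,9),(7,9)])],[6,6])],[6],false,1,0,[3,5]),
    (false,[([(0,8,[(9,9),(7,9),(2,3)])],[6,6])],[4],false,1,0,[3]),
    (false,[([(0,6,[(9,9)]),(0,3,[(2,3)]),(0,3,[(2,3)])],[3]),([(0,2,[(7,9)])],[4,4,1])],[],false,1,0,[2,3]),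
    (false,[([(0,6,[(9,9)]),(1,0,[(2,3),(2,2)]),(0,3,[(2,3)])],[]),([(0,2,[(7,9)])],[4,4,1])],[],false,1,0,[2]),
    (false,[([(0,9,[(9,9),(2,2),(2,2)]),(0,2,[(7,9)])],[]),([(0,3,[(2,3)]),(0,3,[(2,3)])],[2,2])],[4],false,1,0,[]),
    (false,[([(0,10,[(9,9),(3,3)]),(0,2,[(7,9)])],[]),([(0,3,[(2,3)]),(0,3,[(2,3)])],[2,2])],[5],false,1,0,[]),
    (false,[([(0,6,[(9,9)]),(0,4,[(4,5)])],[]),([(0,2,[(7,9)])],[4,4,3,2])],[],false,1,0,[2]),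
    (false,[([(0,6,[(9,9)]),(0,4,[(4,5)]),(0,3,[(2,2)])],[]),([(0,2,[(7,9)])],[4,4,2])],[],false,1,0,[]),
    (true,[([(0,11,[(10,11)])],[2,2,2])],[7,7,4,2],true,3,6,[4,6,8,10]),
    (true,[([(0,11,[(10,11)]),(0,12,[(4,4)])],[2])],[7,7,4,2],true,3,6,[4]),
    (true,[([(0,13,[(10,11),(4,4),(4,4)])],[2,2])],[7,6,1],false,3,1,[4]),
    (true,[([(0,7,[(10,11),(4,4),(4,4)])],[4]),([(0,12,[(4,4)])],[2,2,2,2,2])],[],false,1,0,[]),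
    (true,[([(0,14,[(10,11),(5,6)])],[2,2])],[7,7,2],true,2,5,[3,4,6]),
    (false,[([(0,8,[(10,11),(5,6),(3,3)])],[6,6])],[4],false,1,0,[2,3]),
    (false,[([(0,9,[(10,11),(2,2)]),(0,2,[(5,6),(3,3)])],[])],[6,4,4],false,2,2,[]),
    (true,[([(0,14,[(10,11),(5,6)])],[2,2]),([(0,3,[(3,3)]),(0,3,[(3,3)])],[1,1,1])],[7],false,1,0,[2]),
    (false,[([(0,9,[(10,11),(2,2)]),(0,2,[(5,6),(3,3)])],[]),([(0,3,[(3,3)])],[2,2,2,1])],[4],false,1,0,[]),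
    (true,[([(0,14,[(10,11),(5,6)]),(0,12,[(4,4)])],[])],[7,7,2],false,2,2,[3]),
    (true,[([(0,8,[(10,11),(5,6),(3,3)])],[2]),([(0,12,[(4,4)])],[2,2,2,2,2])],[],false,1,0,[]),
    (true,[([(0,11,[(10,11)])],[2,2,2]),([(0,1,[(5,6)]),(0,1,[(5,6)])],[1])],[7],false,1,0,[2]),
    (true,[([(0,9,[(10,11),(2,2)]),(0,1,[(5,6)])],[]),([(0,1,[(5,6)])],[2,1,1,1])],[7],false,1,0,[]),
    (true,[([(0,13,[(10,11),(7,8)])],[2,2])],[7,6,1],false,3,1,[4]),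
    (true,[([(0,7,[(10,11),(7,8)])],[4]),([(0,12,[(4,4)])],[2,2,2,2,2])],[],false,1,0,[]),
    (false,[([(0,8,[(10,11),(9,10)])],[6,6])],[4],false,1,0,[2]),
    (false,[([(0,9,[(10,11),(2,2)]),(0,2,[(9,10)])],[])],[6,4,4],false,1,0,[]),
    (true,[([(0,9,[(12,13)])],[3,3,3])],[7,4,3,1],true,4,2,[6,8]),
    (true,[([(0,13,[(12,13),(5,6)])],[2,2])],[7,6,1],false,3,1,[4]),
    (true,[([(0,7,[(12,13),(5,6)])],[4]),([(0,12,[(4,4)])],[2,2,2,2,2])],[],false,1,0,[]),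
    (false,[([(0,9,[(12,13)]),(0,15,[(7,8)])],[])],[7,5,4],false,2,1,[]),
    (true,[([(0,16,[(14,15)])],[2,2,2])],[7,6,2,1],false,4,1,[6]),
    (false,[([(0,16,[(14,15)]),(0,1,[(5,6)])],[])],[8,4,4],false,2,1,[]),
    (true,[([(0,13,[(16,19)])],[2,2])],[7,6,1],false,3,1,[4]),
    (true,[([(0,7,[(16,19)])],[4]),([(0,12,[(4,4)])],[2,2,2,2,2])],[],false,1,0,[])]),
  ([8,7,6,5,5,3,2], [
    (false,[],[8,7,6,5,5,3,2],false,5,5,[8,11,15,19]),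
    (false,[([(0,15,[(6,8)])],[4,3,2])],[8,6,5],false,1,0,[3,4,5,6,8]),
    (false,[([(0,15,[(6,8)]),(0,3,[(2,3)])],[4,3])],[7,6,5],false,1,0,[3]),
    (false,[([(0,15,[(6,8)]),(1,1,[(2,3),(2,3)])],[])],[7,6,5],false,1,0,[2,3]),
    (true,[([(0,2,[(6,8),(2,2)])],[2,2,1]),([(1,1,[(2,3),(2,3)])],[4,4,3])],[],false,1,0,[2]),
    (false,[([(0,15,[(6,8)]),(1,1,[(2,3),(2,3),(2,2),(2,2)])],[])],[7,6,5],false,2,9,[]),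
    (false,[([(0,15,[(6,8)]),(1,1,[(2,3),(2,3),(3,3)])],[])],[7,6,5],false,3,5,[]),
    (true,[([(0,15,[(6,8)]),(0,12,[(4,4)])],[3])],[7,6,5,3],false,4,3,[]),
    (true,[([(0,15,[(6,8)]),(0,4,[(5,5)])],[])],[7,6,5,5],false,3,6,[4,5]),
    (false,[([(0,15,[(6,8)]),(0,2,[(5,5),(4,4)])],[])],[7,6,5],false,3,5,[4]),
    (true,[([(0,8,[(6,8),(5,5),(4,4),(4,4)])],[3])],[7,5],false,2,3,[3,4]),
    (true,[([(0,8,[(6,8),(5,5),(4,4),(4,4)])],[3]),([(0,3,[(3,3)])],[2,2,2,2,1])],[],false,1,0,[2]),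
    (true,[([(0,8,[(6,8),(5,5),(4,4),(4,4)])],[3]),([(0,3,[(3,3)]),(0,3,[(2,2)])],[2,2,2])],[],false,1,0,[]),
    (true,[([(0,8,[(6,8),(5,5),(4,4),(4,4)])],[3]),([(0,12,[(4,4)])],[2,2,2,1,1])],[],false,1,0,[]),
    (false,[([(0,15,[(6,8)]),(0,2,[(5,5),(5,5)])],[])],[7,6,5],false,3,5,[4,5]),
    (false,[([(0,15,[(6,8)]),(0,2,[(5,5),(5,5)])],[]),([(0,12,[(4,4)])],[2,2,2,1])],[7],false,1,0,[3]),
    (false,[([(0,15,[(6,8)]),(0,2,[(5,5),(5,5)])],[]),([(0,12,[(4,4)]),(0,3,[(2,3)])],[2,2])],[7],false,1,0,[2]),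
    (true,[([(0,5,[(6,8),(5,5),(2,2)])],[5,3]),([(0,1,[(5,5)]),(0,12,[(4,4)]),(0,3,[(2,3)])],[])],[],false,1,0,[]),
    (false,[([(0,15,[(6,8)]),(0,2,[(5,5),(5,5)])],[]),([(0,1,[(5,5)])],[3,3,3,3])],[],false,1,0,[2]),
    (true,[([(0,5,[(6,8),(5,5),(2,2)])],[3,3]),([(0,1,[(5,5)]),(0,1,[(5,5)])],[3])],[],false,1,0,[]),
    (true,[([(0,17,[(6,8),(6,6)])],[3,1])],[7,6,5],false,3,5,[4,5,6]),
    (false,[([(0,15,[(6,8)]),(0,2,[(6,6),(4,4)])],[])],[7,6,5],false,3,5,[4]),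
    (false,[([(0,17,[(6,8),(6,6)])],[5,3,3]),([(0,12,[(4,4)]),(0,12,[(4,4)])],[2,1])],[],false,1,0,[3]),
    (false,[([(0,17,[(6,8),(6,6)])],[5,3,3]),([(0,12,[(4,4)]),(0,12,[(4,4)]),(0,3,[(2,3)])],[])],[],false,1,0,[2]),
    (true,[([(0,5,[(6,8),(6,6)])],[5,3]),([(0,1,[(4,4),(2,2)]),(0,12,[(4,4)]),(0,3,[(2,3)])],[])],[],false,1,0,[]),
    (true,[([(0,17,[(6,8),(6,6)])],[3,2]),([(0,4,[(5,5)])],[3,3,3,3])],[],false,1,0,[2,3,5]),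
    (true,[([(0,8,[(6,8),(6,6),(5,5),(2,2)])],[3])],[7,5],false,2,3,[]),
    (true,[([(0,5,[(6,8),(6,6)]),(0,3,[(3,3)])],[]),([(0,1,[(5,5)])],[3,3,3,3])],[],false,1,0,[3]),
    (true,[([(0,5,[(6,8),(6,6)])],[3,3]),([(0,1,[(5,5)]),(0,1,[(3,3),(2,3)])],[3])],[],false,1,0,[2]),
    (true,[([(0,8,[(6,8),(6,6),(5,5),(2,2)])],[3]),([(0,3,[(3,3)]),(0,3,[(2,3)])],[2,2,2])],[],false,1,0,[]),
    (true,[([(0,5,[(6,8),(6,6)])],[3,3]),([(0,1,[(5,5)]),(0,1,[(4,5)])],[3])],[],false,1,0,[2]),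
    (true,[([(0,5,[(6,8),(5,5),(2,2)])],[3,3]),([(0,1,[(6,6)]),(0,1,[(4,5)])],[3])],[],false,1,0,[]),
    (true,[([(0,8,[(6,8),(6,6),(6,6)])],[3])],[7,5],false,2,3,[4]),
    (false,[([(0,15,[(6,8)]),(0,2,[(6,6),(3,4)])],[]),([(0,1,[(6,6)])],[3,3,3,3])],[],false,1,0,[2]),
    (true,[([(0,5,[(6,8),(6,6)])],[3,3]),([(0,1,[(6,6)]),(0,1,[(3,4),(2,2)])],[3])],[],false,1,0,[]),
    (true,[([(0,15,[(6,8)]),(0,0,[(7,8)])],[])],[7,6,5,2],false,4,2,[6,8]),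
    (true,[([(0,15,[(6,8)]),(0,0,[(7,8)])],[]),([(0,1,[(5,6)])],[3,2,2])],[7],false,1,0,[3,4]),
    (true,[([(0,15,[(6,8)]),(0,0,[(7,8)])],[]),([(0,1,[(5,6)]),(0,3,[(2,3)])],[3,2])],[6],false,1,0,[2,3]),
    (true,[([(0,2,[(6,8),(2,2)]),(0,1,[(5,6)])],[]),([(0,0,[(7,8)]),(0,3,[(2,3)])],[2])],[7],false,1,0,[2]),
    (true,[([(0,2,[(6,8),(2,2)]),(0,1,[(5,6)])],[]),([(0,0,[(7,8)]),(0,3,[(2,3)]),(0,3,[(2,2)])],[])],[6],false,1,0,[]),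
    (true,[([(0,15,[(6,8)]),(0,0,[(7,8)])],[]),([(0,1,[(5,6)]),(0,1,[(2,3),(3,3)])],[2])],[6],false,1,0,[]),
    (true,[([(0,15,[(6,8)]),(0,0,[(7,8)])],[]),([(0,2,[(5,6),(4,4)])],[4,3,3])],[],false,1,0,[]),
    (true,[([(0,15,[(6,8)]),(0,0,[(7,8)])],[]),([(0,0,[(7,8)])],[2,2,1])],[7],false,1,0,[2]),
    (false,[([(0,2,[(6,8),(2,2)]),(0,15,[(7,8)])],[]),([(0,0,[(7,8)])],[3,3,3,1])],[],false,1,0,[]),
    (true,[([(0,11,[(9,11)])],[2,2,1])],[7,6,5,2],false,3,6,[6,10,11]),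
    (false,[([(0,11,[(9,11)]),(0,1,[(4,6)])],[4])],[7,5,3],false,3,3,[6]),
    (false,[([(0,11,[(9,11)]),(0,1,[(4,6)])],[4]),([(0,1,[(4,6)])],[3,3,2,1])],[],false,1,0,[3,4,5]),
    (false,[([(0,11,[(9,11)]),(0,1,[(4,6)])],[4]),([(0,1,[(4,6)]),(0,3,[(2,3)])],[3,3])],[],false,1,0,[3]),
    (false,[([(0,11,[(9,11)]),(1,1,[(2,3),(2,3)])],[]),([(0,1,[(4,6)]),(0,1,[(4,6)])],[3])],[],false,1,0,[2,3]),
    (false,[([(0,11,[(9,11)]),(1,1,[(2,3),(2,3),(2,2)])],[]),([(0,1,[(4,6)]),(0,1,[(4,6)])],[3])],[],false,1,0,[2]),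
    (false,[([(0,11,[(9,11)]),(1,1,[(2,3),(2,3),(2,2),(2,2)])],[]),([(0,1,[(4,6)]),(0,1,[(4,6)])],[3])],[],false,1,0,[]),
    (false,[([(0,11,[(9,11)]),(1,1,[(2,3),(2,3),(3,3)])],[]),([(0,1,[(4,6)]),(0,1,[(4,6)])],[3])],[],false,1,0,[]),
    (true,[([(0,5,[(9,11),(4,4)])],[3,3]),([(0,1,[(4,6)]),(0,1,[(4,6)])],[3])],[],false,1,0,[2]),
    (false,[([(0,11,[(9,11)]),(0,2,[(4,6),(4,4)])],[]),([(0,1,[(4,6)]),(0,3,[(2,2)])],[3,3])],[],false,1,0,[]),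
    (false,[([(0,11,[(9,11)]),(0,1,[(4,6)])],[4]),([(0,1,[(4,6)]),(0,1,[(5,5)])],[3])],[],false,1,0,[]),
    (false,[([(0,11,[(9,11)]),(0,2,[(7,10)])],[])],[7,5,3],false,3,3,[5]),
    (false,[([(0,11,[(9,11)]),(0,2,[(7,10)])],[]),([(0,4,[(4,5)])],[3,3,2,2])],[],false,1,0,[2]),
    (false,[([(0,11,[(9,11)]),(0,2,[(7,10)])],[]),([(0,1,[(4,5)]),(0,3,[(2,2)])],[3,3])],[],false,1,0,[]),
    (false,[([(0,18,[(9,11),(11,11)])],[6])],[8],false,1,0,[]),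
    (true,[([(0,5,[(12,15)])],[2,1])],[7,6,5],false,3,5,[4,6,8]),
    (true,[([(0,5,[(12,15)]),(0,12,[(4,4)])],[])],[7,5,5],false,2,4,[3,4]),
    (true,[([(0,5,[(12,15)]),(0,12,[(4,4)])],[]),([(0,3,[(3,3)])],[2,2,2,2,1])],[5],false,1,0,[3]),
    (true,[([(0,5,[(12,15)])],[4,3]),([(0,12,[(4,4)]),(0,1,[(3,3),(2,3)])],[3,1])],[],false,1,0,[2]),
    (true,[([(0,8,[(12,15),(4,4),(2,2)])],[3]),([(0,3,[(3,3)]),(0,3,[(2,3)])],[2,2,2])],[],false,1,0,[]),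
    (true,[([(0,5,[(12,15)]),(0,12,[(4,4)])],[]),([(0,12,[(4,4)])],[2,2,2])],[7],false,1,0,[2]),
    (true,[([(0,8,[(12,15),(4,4),(2,2)])],[3]),([(0,12,[(4,4)])],[2,2,2,1,1])],[],false,1,0,[]),
    (true,[([(0,8,[(12,15),(5,6)])],[3])],[7,5],false,2,3,[3,4]),
    (true,[([(0,8,[(12,15),(5,6)])],[3]),([(0,3,[(3,3)])],[2,2,2,2,1])],[],false,1,0,[2]),
    (true,[([(0,8,[(12,15),(5,6)])],[3]),([(0,3,[(3,3)]),(0,3,[(2,2)])],[2,2,2])],[],false,1,0,[]),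
    (true,[([(0,8,[(12,15),(5,6)])],[3]),([(0,12,[(4,4)])],[2,2,2,1,1])],[],false,1,0,[]),
    (true,[([(0,5,[(12,15)])],[2]),([(0,0,[(7,8)])],[3,3,3,2])],[],false,1,0,[2]),
    (true,[([(0,5,[(12,15)]),(0,3,[(2,2)])],[]),([(0,0,[(7,8)])],[3,3,3,1])],[],false,1,0,[]),
    (true,[([(0,13,[(16,19)])],[3,1])],[7,5,1],false,3,1,[4]),
    (false,[([(0,13,[(16,19)])],[3,1]),([(0,12,[(4,4)])],[2,2,2,1,1,1])],[],false,1,0,[])]),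
  ([8,7,6,5,5,4,1], [
    (false,[],[8,7,6,5,5,4,1],false,5,5,[6,8,10,12,14,17,19]),
    (false,[([(0,1,[(6,6)])],[2,2])],[8,7,6,5],false,4,5,[5,6]),
    (false,[([(0,11,[(6,6),(5,5)])],[3,2])],[8,7,5],false,3,5,[4,5]),
    (false,[([(0,11,[(6,6),(5,5)]),(0,12,[(4,4)])],[3,3])],[6,5,4],false,3,4,[4]),
    (true,[([(0,1,[(6,6)]),(0,4,[(5,5)])],[]),([(0,12,[(4,4)]),(0,12,[(4,4)])],[2,1])],[7,6,1],false,3,1,[4]),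
    (true,[([(0,8,[(6,6),(5,5),(4,4),(4,4)])],[3]),([(0,12,[(4,4)])],[2,2,2,2])],[],false,1,0,[]),
    (false,[([(0,11,[(6,6),(5,5)]),(0,4,[(5,5)])],[2])],[7,6,5],false,3,5,[4,5]),
    (true,[([(0,1,[(6,6)]),(0,2,[(5,5),(5,5)])],[]),([(0,12,[(4,4)])],[2,2,2,2])],[6,2],false,2,2,[3]),
    (true,[([(0,8,[(6,6),(5,5),(5,5),(3,3)])],[3]),([(0,12,[(4,4)])],[2,2,2,2])],[],false,1,0,[]),
    (false,[([(0,8,[(6,6),(5,5),(5,5),(5,5)])],[5,5])],[5],false,1,0,[2]),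
    (true,[([(0,0,[(6,6),(2,2)])],[2,2,2]),([(0,5,[(5,5),(5,5),(5,5)])],[4,3])],[],false,1,0,[]),
    (true,[([(0,1,[(6,6)]),(0,1,[(6,6)])],[2])],[6,6,6,3,1],true,3,5,[5,6]),
    (false,[([(0,11,[(6,6),(4,5)]),(0,1,[(6,6)])],[])],[8,6,5],false,3,5,[4,5]),
    (true,[([(0,1,[(6,6)]),(0,4,[(4,5)])],[]),([(0,1,[(6,6)]),(0,12,[(4,4)])],[2])],[7,6],false,2,2,[3]),
    (true,[([(0,8,[(6,6),(6,6),(4,5),(3,3)])],[3]),([(0,12,[(4,4)])],[2,2,2,2])],[],false,1,0,[]),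
    (true,[([(0,11,[(6,6),(4,5)])],[2,2]),([(0,11,[(6,6),(5,5)])],[4,3,3])],[],false,1,0,[2]),
    (false,[([(0,11,[(6,6),(4,5)]),(0,0,[(6,6),(2,2)])],[]),([(0,4,[(5,5)])],[3,3,3,2,1])],[],false,1,0,[]),
    (false,[([(0,8,[(6,6),(6,6),(6,6)])],[5,5])],[5],false,1,0,[2,3,4]),
    (true,[([(0,0,[(6,6),(2,2)]),(0,1,[(6,6)])],[]),([(0,1,[(6,6)])],[1,1,1])],[7,6],false,2,2,[]),
    (false,[([(0,8,[(6,6),(6,6),(6,6),(3,3)])],[5,5])],[5],false,1,0,[2]),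
    (true,[([(0,5,[(6,6),(6,6),(3,3)])],[2,2]),([(0,0,[(6,6),(2,2)])],[3,3,3])],[],false,1,0,[]),
    (true,[([(0,8,[(6,6),(6,6),(6,6)])],[3]),([(0,12,[(4,4)])],[2,2,2,2])],[],false,1,0,[]),
    (true,[([(0,0,[(7,8)])],[1,1,1])],[7,6,6,5,1],false,3,6,[4,5,6,8]),
    (true,[([(0,0,[(7,8)]),(0,12,[(4,4)])],[2])],[7,6,5,3,1],false,4,4,[]),
    (true,[([(0,0,[(7,8)]),(0,1,[(5,5)])],[2])],[6,6,5,2,1],true,4,2,[5]),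
    (false,[([(0,0,[(7,8)]),(0,2,[(5,5),(5,5)])],[3])],[6,5,4],false,3,4,[4,5]),
    (true,[([(0,0,[(7,8)]),(0,1,[(5,5)])],[]),([(0,1,[(5,5)]),(0,12,[(4,4)])],[2,2])],[6,2],false,2,1,[]),
    (true,[([(0,0,[(7,8)])],[2,2,2]),([(0,5,[(5,5),(5,5),(5,5)])],[4,3])],[],false,1,0,[]),
    (true,[([(0,0,[(7,8)]),(0,1,[(6,6)])],[2])],[6,6,5,2,1],true,4,2,[6]),
    (true,[([(0,0,[(7,8)]),(0,1,[(6,6)])],[]),([(0,1,[(5,6)])],[1,1,1])],[7,6],false,2,3,[4]),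
    (false,[([(0,0,[(7,8)]),(0,2,[(6,6),(3,4)])],[3]),([(0,1,[(5,6)])],[3,3,3])],[],false,1,0,[2]),
    (false,[([(0,0,[(7,8)]),(0,0,[(6,6),(2,2)])],[3,1]),([(0,2,[(5,6),(3,4)])],[3,3])],[],false,1,0,[]),
    (false,[([(0,0,[(7,8)]),(0,0,[(7,8)])],[1])],[8,5,5,1],true,3,3,[6,7]),
    (false,[([(0,0,[(7,8)]),(0,0,[(7,8)])],[1]),([(0,1,[(4,6)])],[2,2,2,1,1])],[5],false,1,0,[3,4]),
    (true,[([(0,0,[(7,8)]),(0,1,[(4,6)])],[]),([(0,0,[(7,8)]),(0,3,[(2,3)])],[2,2])],[6,1],true,2,2,[3]),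
    (false,[([(0,0,[(7,8)]),(0,0,[(7,8)])],[1]),([(0,1,[(4,6)]),(0,3,[(2,3)]),(0,3,[(3,3)])],[2])],[5],false,1,0,[]),
    (false,[([(0,0,[(7,8)]),(0,0,[(7,8)])],[3,1]),([(0,2,[(4,6),(4,4)])],[3,3])],[],false,1,0,[]),
    (true,[([(0,5,[(7,8),(7,7)])],[2,2]),([(0,0,[(7,8)])],[3,3,3])],[],false,1,0,[]),
    (false,[([(0,2,[(9,10)])],[3,3])],[8,7,5],false,3,5,[5,7,8,9,10]),
    (false,[([(0,2,[(9,10)]),(0,4,[(4,5)])],[3])],[7,6,5],false,3,5,[4,5]),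
    (true,[([(0,5,[(9,10),(4,5)]),(0,12,[(4,4)])],[])],[6,6,5],false,2,4,[3,4]),
    (true,[([(0,5,[(9,10),(4,5)]),(0,12,[(4,4)])],[]),([(0,3,[(3,3)])],[2,2,2,2])],[6],false,1,0,[3]),
    (false,[([(0,5,[(9,10),(4,5)])],[4,4]),([(0,12,[(4,4)]),(0,3,[(3,3)]),(0,3,[(2,3)])],[2,1])],[],false,1,0,[2]),
    (false,[([(0,5,[(9,10),(4,5)])],[4,4]),([(0,12,[(4,4)]),(0,3,[(3,3)]),(0,3,[(2,3)]),(0,3,[(2,2)])],[])],[],false,1,0,[]),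
    (true,[([(0,2,[(9,10)]),(0,1,[(4,5)])],[]),([(0,12,[(4,4)]),(0,12,[(4,4)])],[2,2])],[6,2],false,2,1,[]),
    (false,[([(0,8,[(9,10),(4,5),(5,5)])],[5,5])],[5],false,1,0,[2,3,4]),
    (true,[([(0,14,[(9,10),(5,5),(2,2)])],[4,4]),([(0,4,[(4,5)])],[3,2,1])],[],false,1,0,[2]),
    (true,[([(0,14,[(9,10),(5,5),(2,2)])],[4,4]),([(0,4,[(4,5)]),(0,3,[(2,2)])],[3])],[],false,1,0,[2]),
    (true,[([(0,14,[(9,10),(5,5),(2,2)])],[4,4]),([(0,4,[(4,5)]),(1,0,[(2,2),(2,2)])],[])],[],false,1,0,[]),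
    (true,[([(0,9,[(9,10),(3,3)])],[2,2]),([(0,2,[(4,5),(5,5)])],[3,3,3])],[],false,1,0,[2]),
    (true,[([(0,14,[(9,10),(5,5),(2,2)])],[4,4]),([(0,4,[(4,5)]),(0,3,[(3,3)])],[3])],[],false,1,0,[]),
    (true,[([(0,8,[(9,10),(4,5),(5,5)])],[3]),([(0,12,[(4,4)])],[2,2,2,2])],[],false,1,0,[]),
    (true,[([(0,14,[(9,10),(6,7)])],[3,3])],[6,5,2],false,3,2,[5,6]),
    (true,[([(0,14,[(9,10),(6,7)])],[4,4]),([(0,4,[(4,5)])],[3,2,1])],[],false,1,0,[3]),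
    (true,[([(0,14,[(9,10),(6,7)])],[4,4]),([(0,4,[(4,5)]),(0,3,[(2,3)])],[3])],[],false,1,0,[2]),
    (true,[([(0,14,[(9,10),(6,7)])],[4,4]),([(0,4,[(4,5)]),(1,0,[(2,3),(2,2)])],[])],[],false,1,0,[]),
    (true,[([(0,14,[(9,10),(6,7)])],[3,3]),([(0,1,[(6,6)])],[3,2,2])],[],false,1,0,[]),
    (false,[([(0,2,[(9,10)]),(0,0,[(8,8)])],[3])],[6,5,4],false,3,3,[4]),
    (true,[([(0,8,[(9,10),(8,8)])],[3]),([(0,12,[(4,4)])],[2,2,2,2])],[],false,1,0,[]),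
    (false,[([(0,2,[(9,10)]),(0,6,[(9,9)])],[])],[8,5,4],false,3,2,[]),
    (false,[([(0,8,[(9,10),(10,10)])],[5,5])],[5],false,1,0,[2]),
    (true,[([(0,2,[(9,10)])],[3,3,3]),([(0,10,[(10,10),(2,2)])],[3,2])],[],false,1,0,[]),
    (true,[([(0,10,[(11,12)])],[3,2])],[7,6,5,1],false,3,6,[6,8,9]),
    (true,[([(0,10,[(11,12)]),(0,1,[(4,6)])],[])],[6,6,5,1],true,3,2,[4,5,6]),
    (true,[([(0,10,[(11,12)]),(0,1,[(4,6)])],[]),([(0,12,[(4,4)])],[2,2,2,1])],[6,1],true,2,2,[3]),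
    (true,[([(0,8,[(11,12),(4,6),(3,3)])],[3]),([(0,12,[(4,4)])],[2,2,2,2])],[],false,1,0,[]),
    (true,[([(0,14,[(11,12),(5,5)])],[3,3]),([(0,1,[(4,6)])],[3,2,2])],[],false,1,0,[2]),
    (true,[([(0,13,[(11,12),(5,5),(2,2)])],[3]),([(0,1,[(4,6)])],[2,2,2,2])],[],false,1,0,[]),
    (true,[([(0,13,[(11,12),(6,6)])],[3]),([(0,1,[(4,6)])],[2,2,2,2])],[],false,1,0,[]),
    (false,[([(0,8,[(11,12),(7,8)])],[5,5])],[5],false,1,0,[3]),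
    (true,[([(0,5,[(11,12),(2,3)])],[2,2]),([(0,0,[(7,8)])],[3,3,3])],[],false,1,0,[2]),
    (true,[([(0,10,[(11,12)]),(1,0,[(2,3),(2,2)])],[]),([(0,0,[(7,8)])],[3,3,3])],[1],false,1,0,[]),
    (false,[([(0,8,[(11,12),(9,9)])],[5,5])],[5],false,1,0,[]),
    (true,[([(0,17,[(13,14)])],[3])],[7,6,6],false,2,6,[3,5,6,7]),
    (true,[([(0,14,[(13,14),(3,3)])],[3,3])],[6,5,2],false,3,2,[]),
    (true,[([(0,13,[(13,14),(4,5)])],[3])],[7,6,1],false,3,1,[4]),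
    (true,[([(0,13,[(13,14),(4,5)])],[3]),([(0,12,[(4,4)])],[2,2,2,2,1])],[1],false,1,0,[]),
    (false,[([(0,8,[(13,14),(6,6)])],[5,5])],[5],false,1,0,[2]),
    (true,[([(0,14,[(13,14),(2,2)])],[3,3]),([(0,1,[(6,6)])],[3,2,2])],[],false,1,0,[]),
    (false,[([(0,8,[(13,14),(7,7)])],[5,5])],[5],false,1,0,[]),
    (true,[([(0,14,[(15,17)])],[3,3])],[6,5,2],false,3,2,[5]),
    (true,[([(0,14,[(15,17)])],[4,4]),([(0,4,[(4,5)])],[3,2,1])],[],false,1,0,[2]),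
    (true,[([(0,13,[(15,17),(2,2)])],[3]),([(0,1,[(4,5)])],[2,2,2,2])],[],false,1,0,[]),
    (false,[([(0,13,[(18,19)])],[5,5,1])],[5,1],false,2,1,[])]),
  ([8,7,6,5,5,4,3], [
    (false,[],[8,7,6,5,5,4,3],false,6,3,[8,9,11,13,15,19]),
    (false,[([(0,0,[(7,8)])],[3,1])],[8,7,6,5],false,4,5,[6,8]),
    (false,[([(0,0,[(7,8)]),(0,1,[(5,6)])],[])],[8,7,5,4],false,4,4,[6]),
    (true,[([(0,0,[(7,8)]),(0,1,[(5,6)])],[1]),([(0,1,[(5,6)])],[1,1,1,1])],[7,6],false,2,4,[4,5]),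
    (false,[([(0,0,[(7,8)]),(0,1,[(5,6)])],[]),([(0,2,[(5,6),(3,4)])],[4,4,4,2])],[],false,1,0,[2,3]),
    (true,[([(0,0,[(7,8)]),(0,1,[(5,6)])],[2]),([(0,1,[(5,6)]),(0,1,[(3,4),(2,2)])],[2])],[7,1],false,2,1,[]),
    (true,[([(0,0,[(7,8)]),(0,1,[(5,6)])],[2]),([(0,2,[(5,6),(3,4)]),(0,3,[(3,3)])],[2])],[7],false,1,0,[]),
    (false,[([(0,0,[(7,8)]),(0,1,[(5,6)])],[]),([(0,1,[(5,6)]),(0,4,[(5,5)])],[3,3])],[7],false,1,0,[]),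
    (true,[([(0,0,[(7,8)]),(0,0,[(7,8)])],[3])],[7,6,3,2,1],false,5,1,[7]),
    (true,[([(0,5,[(7,8),(6,7)])],[2,1]),([(0,0,[(7,8)])],[3,3,3,3])],[],false,1,0,[2]),
    (true,[([(0,5,[(7,8),(6,7)]),(0,3,[(2,2)])],[]),([(0,0,[(7,8)])],[3,3,3,3])],[],false,1,0,[]),
    (false,[([(0,6,[(9,9)])],[2,1])],[8,7,6,5],false,4,5,[6,9]),
    (false,[([(0,6,[(9,9)]),(0,1,[(5,6)])],[])],[8,7,5,3],false,4,3,[6]),
    (true,[([(0,6,[(9,9)]),(0,1,[(5,6)])],[3]),([(0,1,[(5,6)])],[1,1,1,1])],[7,3],false,2,2,[3]),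
    (true,[([(0,6,[(9,9)])],[2,2,2,2]),([(0,5,[(5,6),(5,6),(3,3)])],[3,3])],[],false,1,0,[]),
    (true,[([(0,6,[(9,9)]),(0,2,[(7,9)])],[])],[7,7,3,2],false,3,2,[5]),
    (true,[([(0,6,[(9,9)]),(0,2,[(7,9)])],[]),([(0,4,[(4,5)])],[3,2,1,1])],[7],false,1,0,[2]),
    (true,[([(0,6,[(9,9)]),(0,2,[(7,9)])],[]),([(0,4,[(4,5)]),(0,3,[(2,2)])],[3,1])],[7],false,1,0,[]),
    (false,[([(0,11,[(10,11)])],[4,4])],[8,7,4],false,3,4,[4,6,8,10]),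
    (false,[([(0,11,[(10,11)]),(0,12,[(4,4)])],[4,4])],[6,5,4],false,3,4,[4]),
    (true,[([(0,13,[(10,11),(4,4),(4,4)])],[3,2])],[7,6,1],false,3,1,[4]),
    (false,[([(0,13,[(10,11),(4,4),(4,4)])],[5,1]),([(0,12,[(4,4)])],[2,2,2,1,1,1])],[],false,1,0,[]),
    (true,[([(0,14,[(10,11),(5,6)])],[3,2])],[7,7,2],true,2,5,[3,4,6]),
    (false,[([(0,8,[(10,11),(5,6),(3,3)])],[6,6])],[5],false,1,0,[2,3]),
    (false,[([(0,9,[(10,11),(2,2)]),(0,2,[(5,6),(3,3)])],[])],[6,5,4],false,2,2,[]),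
    (true,[([(0,14,[(10,11),(5,6)])],[3,2]),([(0,3,[(3,3)]),(0,3,[(3,3)])],[1,1,1])],[7],false,1,0,[2]),
    (false,[([(0,9,[(10,11),(2,2)]),(0,2,[(5,6),(3,3)])],[]),([(0,3,[(3,3)])],[2,2,2])],[6],false,1,0,[]),
    (false,[([(0,8,[(10,11),(5,6),(4,4)])],[6,6])],[5],false,1,0,[3]),
    (false,[([(0,14,[(10,11),(5,6)])],[5,5,2]),([(0,12,[(4,4)]),(0,3,[(2,3)])],[2])],[],false,1,0,[2]),
    (false,[([(0,9,[(10,11),(2,2)]),(0,2,[(5,6),(4,4)])],[]),([(0,3,[(2,3)])],[2,2,2])],[6],false,1,0,[]),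
    (false,[([(0,11,[(10,11)])],[4,4,1]),([(0,1,[(5,6)]),(0,1,[(5,6)])],[3,3])],[],false,1,0,[2]),
    (false,[([(0,9,[(10,11),(2,2)]),(0,1,[(5,6)])],[4]),([(0,1,[(5,6)])],[3,3,3])],[],false,1,0,[]),
    (true,[([(0,13,[(10,11),(7,8)])],[3,2])],[7,6,1],false,3,1,[4]),
    (false,[([(0,13,[(10,11),(7,8)])],[5,1]),([(0,12,[(4,4)])],[2,2,2,1,1,1])],[],false,1,0,[]),
    (false,[([(0,8,[(10,11),(9,10)])],[6,6])],[5],false,1,0,[2]),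
    (false,[([(0,9,[(10,11),(2,2)]),(0,2,[(9,10)])],[])],[6,5,4],false,1,0,[]),
    (true,[([(0,9,[(12,13)])],[3,3,3])],[7,5,3,1],true,4,2,[6,8]),
    (true,[([(0,13,[(12,13),(5,6)])],[3,2])],[7,6,1],false,3,1,[4]),
    (false,[([(0,13,[(12,13),(5,6)])],[5,1]),([(0,12,[(4,4)])],[2,2,2,1,1,1])],[],false,1,0,[]),
    (false,[([(0,9,[(12,13)]),(0,15,[(7,8)])],[])],[7,5,5],false,2,1,[]),
    (true,[([(0,16,[(14,15)])],[3,2,2])],[7,6,2,1],false,4,1,[6]),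
    (false,[([(0,16,[(14,15)]),(0,1,[(5,6)])],[])],[8,5,4],false,2,1,[]),
    (true,[([(0,13,[(16,19)])],[3,2])],[7,6,1],false,3,1,[4]),
    (false,[([(0,13,[(16,19)])],[5,1]),([(0,12,[(4,4)])],[2,2,2,1,1,1])],[],false,1,0,[])]),
  ([8,7,6,6,3,3,2,1], [
    (false,[],[8,7,6,6,3,3,2,1],false,4,8,[6,10,15,19]),
    (true,[([(0,1,[(5,6)])],[1])],[8,7,6,4,4],false,4,6,[6]),
    (false,[([(0,1,[(5,6)]),(0,1,[(5,6)])],[2,2])],[7,6,3,3,1],false,3,6,[5,6]),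
    (false,[([(0,1,[(5,6)]),(0,4,[(4,5)])],[]),([(0,1,[(5,6)])],[2,1,1])],[8,7],false,2,7,[3,4,5]),
    (true,[([(0,5,[(5,6),(5,6),(3,3)]),(0,1,[(4,5)])],[])],[7,4,4],false,2,5,[3]),
    (false,[([(0,1,[(5,6)]),(0,1,[(5,6)])],[2,2]),([(0,4,[(4,5)]),(0,3,[(3,3)]),(0,3,[(3,3)])],[])],[6,3],false,2,3,[3]),
    (true,[([(0,5,[(5,6),(5,6),(3,3)]),(0,1,[(3,3),(3,3)])],[]),([(0,4,[(4,5)])],[3,3,3,1])],[],false,1,0,[2]),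
    (true,[([(0,5,[(5,6),(5,6),(3,3)]),(0,1,[(4,5)])],[]),([(0,3,[(3,3)]),(0,3,[(3,3)]),(0,3,[(2,2)])],[2])],[4],false,1,0,[]),
    (true,[([(0,5,[(5,6),(4,5),(4,4)]),(0,1,[(5,6)])],[])],[7,4,4],false,2,4,[4]),
    (true,[([(0,2,[(5,6),(4,4)]),(0,2,[(5,6),(3,4)])],[]),([(0,4,[(4,5)])],[2,2,2,1])],[4],false,1,0,[3]),
    (true,[([(0,2,[(5,6),(4,4)]),(0,2,[(5,6),(3,4)])],[]),([(0,4,[(4,5)]),(0,3,[(2,3)])],[2,2])],[4],false,1,0,[2]),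
    (true,[([(0,2,[(5,6),(4,4)]),(0,2,[(5,6),(3,4)])],[]),([(0,1,[(4,5)]),(0,3,[(2,3)]),(0,3,[(2,2)])],[])],[4],false,1,0,[]),
    (false,[([(0,1,[(5,6)]),(0,1,[(5,6)])],[2,2]),([(0,2,[(4,5),(5,5)])],[3,2,2])],[3],false,1,0,[2,4]),
    (true,[([(0,1,[(5,6)]),(0,1,[(5,6)])],[1]),([(0,2,[(4,5),(5,5)]),(0,3,[(2,2)])],[3,3])],[4],false,1,0,[2]),
    (true,[([(0,5,[(5,6),(5,5),(2,2),(2,2)]),(0,1,[(5,6)])],[]),([(0,4,[(4,5)])],[3,3,3,1])],[],false,1,0,[2]),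
    (true,[([(0,2,[(5,6),(2,2),(2,2)]),(0,2,[(4,5),(5,5)])],[]),([(0,1,[(5,6)]),(0,3,[(2,2)])],[2,1])],[4],false,1,0,[]),
    (true,[([(0,5,[(5,6),(5,5),(3,4)]),(0,1,[(5,6)])],[]),([(0,4,[(4,5)])],[3,3,3,1])],[],false,1,0,[2]),
    (true,[([(0,2,[(5,6),(3,4)]),(0,2,[(4,5),(5,5)])],[]),([(0,1,[(5,6)]),(0,3,[(2,2)])],[2,1])],[4],false,1,0,[]),
    (false,[([(0,1,[(5,6)]),(0,1,[(5,6)])],[3,2]),([(0,1,[(6,6)])],[])],[7,6],false,2,5,[4,6]),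
    (false,[([(0,2,[(5,6),(3,4)]),(0,1,[(5,6)])],[2]),([(0,1,[(6,6)])],[3,1,1])],[7],false,1,0,[4]),
    (false,[([(0,2,[(5,6),(3,4)]),(0,1,[(5,6)])],[2]),([(0,2,[(6,6),(2,4)])],[4,2,2])],[],false,1,0,[3]),
    (true,[([(0,2,[(5,6),(3,4)]),(0,2,[(6,6),(2,4)])],[]),([(0,1,[(5,6)]),(0,3,[(2,3)])],[2,1])],[4],false,1,0,[2]),
    (true,[([(0,2,[(5,6),(3,4)]),(0,2,[(6,6),(2,4)])],[]),([(0,1,[(5,6)]),(0,3,[(2,3)]),(0,3,[(2,2)])],[])],[4],false,1,0,[]),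
    (true,[([(0,1,[(5,6)]),(0,1,[(5,6)])],[1]),([(0,1,[(6,6)]),(0,1,[(5,6)])],[3,3])],[4,1],false,2,1,[]),
    (false,[([(0,2,[(7,10)])],[1,1])],[8,7,6,3],false,3,8,[6,10]),
    (false,[([(0,2,[(7,10)]),(0,1,[(4,6)])],[2])],[7,6,3,2],false,3,5,[4,5,6]),
    (true,[([(0,2,[(7,10)]),(0,2,[(4,6),(4,4)])],[])],[7,4,4,1],true,3,3,[4]),
    (true,[([(0,2,[(7,10)]),(0,1,[(4,6)])],[3]),([(0,12,[(4,4)]),(0,12,[(4,4)])],[])],[7,2],true,2,3,[3,4]),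
    (true,[([(0,2,[(7,10)]),(0,2,[(4,6),(4,4)])],[]),([(0,12,[(4,4)]),(0,3,[(3,3)])],[2,1,1])],[4,1],false,2,1,[]),
    (true,[([(0,2,[(7,10)]),(0,2,[(4,6),(4,4)])],[]),([(0,12,[(4,4)]),(0,12,[(4,4)])],[])],[7,1],false,1,0,[]),
    (true,[([(0,5,[(7,10),(5,5)]),(0,1,[(4,6)])],[])],[7,4,4],false,2,5,[3,5]),
    (true,[([(0,5,[(7,10),(5,5)]),(0,1,[(4,6)])],[]),([(0,3,[(3,3)])],[2,2,2,1,1])],[4],false,1,0,[3]),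
    (false,[([(0,5,[(7,10),(5,5)])],[2,2]),([(0,1,[(4,6)]),(0,1,[(3,3),(2,3)])],[3,2])],[],false,1,0,[3]),
    (true,[([(0,5,[(7,10),(5,5)]),(0,1,[(4,6)])],[]),([(0,3,[(3,3)]),(0,3,[(2,3)]),(0,3,[(2,3)])],[2])],[4],false,1,0,[2]),
    (true,[([(0,2,[(7,10)]),(0,2,[(5,5),(3,3),(2,2)])],[]),([(0,1,[(4,6)]),(0,3,[(2,3)]),(0,3,[(2,3)])],[])],[4],false,1,0,[]),
    (true,[([(0,5,[(7,10),(5,5)]),(0,1,[(4,6)])],[]),([(0,4,[(4,5)])],[3,3,3,1])],[],false,1,0,[3]),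
    (true,[([(0,2,[(7,10)]),(0,2,[(5,5),(4,5)])],[]),([(0,1,[(4,6)]),(0,3,[(2,3)])],[2,1])],[4],false,1,0,[2]),
    (true,[([(0,2,[(7,10)]),(0,2,[(5,5),(4,5)])],[]),([(0,1,[(4,6)]),(0,3,[(2,3)]),(0,3,[(2,2)])],[])],[4],false,1,0,[]),
    (false,[([(0,2,[(7,10)]),(0,1,[(4,6)])],[2]),([(0,1,[(6,6)])],[3,1,1])],[7],false,1,0,[3,5]),
    (false,[([(0,2,[(7,10)]),(0,1,[(4,6)])],[2]),([(0,2,[(6,6),(2,3)])],[4,2,2])],[],false,1,0,[2,3]),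
    (true,[([(0,2,[(7,10)]),(0,2,[(6,6),(2,3)])],[]),([(0,1,[(4,6)]),(0,3,[(2,2)])],[2,1])],[4],false,1,0,[2]),
    (true,[([(0,2,[(7,10)]),(0,2,[(6,6),(2,3)])],[]),([(0,1,[(4,6)]),(0,3,[(2,2)]),(0,3,[(2,2)])],[])],[4],false,1,0,[2]),
    (true,[([(0,2,[(7,10)]),(0,2,[(6,6),(2,2),(2,2)])],[]),([(0,1,[(4,6)]),(0,3,[(2,3)]),(0,3,[(2,2)])],[])],[4],false,1,0,[]),
    (true,[([(0,2,[(7,10)]),(0,2,[(6,6),(2,3)])],[]),([(0,1,[(4,6)]),(0,3,[(3,3)])],[2,1])],[4],false,1,0,[2]),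
    (true,[([(0,2,[(7,10)]),(0,2,[(6,6),(2,3)])],[]),([(0,1,[(4,6)]),(0,3,[(3,3)]),(0,3,[(2,2)])],[])],[4],false,1,0,[]),
    (true,[([(0,2,[(7,10)]),(0,1,[(4,6)])],[3]),([(0,11,[(6,6),(4,5)])],[4,1,1])],[],false,1,0,[2]),
    (false,[([(0,2,[(7,10)]),(0,1,[(4,6)])],[2]),([(0,0,[(6,6),(2,2)]),(0,1,[(4,5)])],[2])],[2],false,1,0,[]),
    (true,[([(0,2,[(7,10)]),(0,2,[(7,10)])],[])],[7,4,4,1],true,3,3,[4,6,7]),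
    (true,[([(0,2,[(7,10)]),(0,2,[(7,10)])],[]),([(0,12,[(4,4)])],[2,2])],[7,1],false,1,0,[3,4]),
    (true,[([(0,2,[(7,10)]),(0,2,[(7,10)])],[]),([(0,12,[(4,4)]),(0,3,[(2,3)])],[2,1,1])],[4,1],true,2,2,[3]),
    (true,[([(0,2,[(7,10)]),(0,2,[(7,10)])],[]),([(0,12,[(4,4)]),(0,1,[(2,3),(3,3)])],[1,1])],[4],false,1,0,[]),
    (true,[([(0,2,[(7,10)]),(0,2,[(7,10)])],[]),([(0,12,[(4,4)]),(0,12,[(4,4)])],[])],[7,1],false,1,0,[]),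
    (true,[([(0,2,[(7,10)]),(0,2,[(7,10)])],[]),([(0,1,[(5,6)])],[2,2,1,1])],[4],false,1,0,[3]),
    (true,[([(0,2,[(7,10)]),(0,2,[(7,10)])],[]),([(0,1,[(5,6)]),(0,3,[(2,3)])],[2,1])],[4],false,1,0,[2]),
    (true,[([(0,2,[(7,10)]),(0,2,[(7,10)])],[]),([(0,1,[(5,6)]),(0,3,[(2,3)]),(0,3,[(2,2)])],[])],[4],false,1,0,[]),
    (true,[([(0,2,[(7,10)]),(0,2,[(7,10)])],[]),([(0,19,[(7,7)])],[3,3,3])],[],false,1,0,[]),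
    (false,[([(0,5,[(11,15)])],[2,2])],[8,6,3],false,2,8,[3,4,6,8,9]),
    (false,[([(0,5,[(11,15)]),(0,3,[(3,3)])],[2])],[7,6,3],false,3,3,[]),
    (false,[([(0,5,[(11,15)]),(0,12,[(4,4)])],[])],[8,6,3],false,3,3,[4]),
    (false,[([(0,5,[(11,15)]),(0,12,[(4,4)])],[]),([(0,12,[(4,4)])],[2,1,1,1])],[8],false,1,0,[3]),
    (false,[([(0,5,[(11,15)]),(0,12,[(4,4)])],[]),([(0,12,[(4,4)]),(0,3,[(2,3)])],[1,1])],[8],false,1,0,[2]),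
    (true,[([(0,5,[(11,15)]),(0,1,[(4,4),(2,2)])],[]),([(0,12,[(4,4)]),(0,3,[(2,3)])],[2,1,1])],[4],false,1,0,[]),
    (true,[([(0,5,[(11,15)]),(0,1,[(5,6)])],[])],[7,4,4],false,2,4,[3,4,5]),
    (true,[([(0,5,[(11,15)]),(0,1,[(5,6)])],[]),([(0,3,[(3,3)])],[2,2,2,1,1])],[4],false,1,0,[3]),
    (false,[([(0,5,[(11,15)])],[2,2]),([(0,1,[(5,6)]),(0,1,[(3,3),(2,3)])],[3,2])],[],false,1,0,[2]),
    (true,[([(0,5,[(11,15)]),(0,1,[(5,6)])],[]),([(0,3,[(3,3)]),(0,3,[(2,3)]),(0,3,[(2,2)])],[2])],[4],false,1,0,[]),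
    (true,[([(0,5,[(11,15)]),(0,1,[(5,6)])],[]),([(0,12,[(4,4)])],[2,2])],[7],false,1,0,[2]),
    (false,[([(0,5,[(11,15)])],[2,2]),([(0,1,[(5,6)]),(0,1,[(4,4),(2,2)])],[3,2])],[],false,1,0,[]),
    (true,[([(0,5,[(11,15)]),(0,1,[(5,6)])],[]),([(0,4,[(5,5)])],[3,3,3,1])],[],false,1,0,[]),
    (false,[([(0,5,[(11,15)])],[2,2]),([(0,0,[(7,8)])],[3,2,2,1,1])],[],false,1,0,[3]),
    (false,[([(0,5,[(11,15)]),(0,3,[(2,3)])],[2]),([(0,0,[(7,8)])],[3,2,2,1])],[],false,1,0,[2]),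
    (false,[([(0,5,[(11,15)])],[2,2]),([(0,0,[(7,8)]),(1,0,[(2,3),(2,2)])],[2,1])],[],false,1,0,[]),
    (false,[([(0,5,[(11,15)]),(0,6,[(9,9)])],[])],[6,3,3],false,1,0,[]),
    (false,[([(0,13,[(16,19)])],[3,3,1])],[6,3,1],false,3,1,[4]),
    (false,[([(0,13,[(16,19)])],[3,3,1]),([(0,12,[(4,4)])],[2,1,1,1])],[1],false,1,0,[])])]

theorem cj6e_0_ok : runAllJ S40 R40 F40 18 cj6e_0 = true := by decide +kernel

noncomputable def cj6e_1 : List (List ℕ × List NdJ) := [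
  ([8,7,6,6,5,4,1], [
    (false,[],[8,7,6,6,5,4,1],false,5,5,[6,8,10,13,17,19]),
    (false,[([(0,1,[(6,6)])],[2,2,1])],[8,7,6,5],false,4,5,[5,6]),
    (false,[([(0,11,[(6,6),(5,5)])],[3,2])],[8,7,6],false,3,6,[4,5]),
    (false,[([(0,11,[(6,6),(5,5)]),(0,12,[(4,4)])],[3])],[8,6,5],false,3,5,[4]),
    (true,[([(0,1,[(6,6)]),(0,4,[(5,5)])],[2]),([(0,12,[(4,4)]),(0,12,[(4,4)])],[2,2])],[6,5,1],false,3,1,[4]),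
    (true,[([(0,8,[(6,6),(5,5),(4,4),(4,4)])],[4]),([(0,12,[(4,4)])],[2,2,2,2])],[],false,1,0,[]),
    (false,[([(0,11,[(6,6),(5,5)]),(0,1,[(5,5)])],[2])],[7,6,5],false,3,5,[4,5]),
    (true,[([(0,11,[(6,6),(5,5)]),(0,1,[(5,5)])],[]),([(0,12,[(4,4)])],[2,2,2,2])],[6,2],false,2,2,[3]),
    (true,[([(0,8,[(6,6),(5,5),(5,5),(3,3)])],[4]),([(0,12,[(4,4)])],[2,2,2,2])],[],false,1,0,[]),
    (false,[([(0,8,[(6,6),(5,5),(5,5),(5,5)])],[5,5])],[6],false,1,0,[2]),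
    (true,[([(0,0,[(6,6),(2,2)])],[2,2,2]),([(0,5,[(5,5),(5,5),(5,5)])],[4,4])],[],false,1,0,[]),
    (false,[([(0,1,[(6,6)]),(0,1,[(6,6)])],[3,3])],[7,6,5,1],false,3,6,[5,6]),
    (false,[([(0,11,[(6,6),(4,5)]),(0,1,[(6,6)])],[2])],[7,6,5],false,3,5,[4,5]),
    (true,[([(0,11,[(6,6),(4,5)]),(0,1,[(6,6)])],[]),([(0,12,[(4,4)])],[2,2,2,2])],[6,2],false,2,2,[3]),
    (true,[([(0,8,[(6,6),(6,6),(4,5),(3,3)])],[4]),([(0,12,[(4,4)])],[2,2,2,2])],[],false,1,0,[]),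
    (true,[([(0,11,[(6,6),(4,5)])],[3,2]),([(0,11,[(6,6),(5,5)])],[4,3,3])],[],false,1,0,[2]),
    (false,[([(0,11,[(6,6),(4,5)]),(0,0,[(6,6),(2,2)])],[]),([(0,4,[(5,5)])],[3,3,3,2,2])],[],false,1,0,[]),
    (true,[([(0,1,[(6,6)]),(0,1,[(6,6)])],[]),([(0,1,[(6,6)])],[2,2,2])],[7,6],false,2,3,[4]),
    (false,[([(0,2,[(6,6),(3,4)]),(0,1,[(6,6)])],[3]),([(0,1,[(6,6)])],[3,3,3,3])],[],false,1,0,[2]),
    (false,[([(0,2,[(6,6),(3,4)]),(0,0,[(6,6),(2,2)])],[]),([(0,1,[(6,6)])],[3,3,3,3,1])],[],false,1,0,[]),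
    (true,[([(0,0,[(7,8)])],[2,1,1])],[7,6,6,5,1],false,3,6,[4,5,6,8]),
    (true,[([(0,0,[(7,8)]),(0,12,[(4,4)])],[2])],[7,6,5,4,1],false,4,5,[]),
    (true,[([(0,0,[(7,8)]),(0,1,[(5,5)])],[3])],[6,6,5,2,1],true,4,2,[5]),
    (false,[([(0,0,[(7,8)]),(0,2,[(5,5),(5,5)])],[])],[8,6,5],false,3,4,[4,5]),
    (true,[([(0,0,[(7,8)]),(0,2,[(5,5),(5,5)])],[]),([(0,12,[(4,4)])],[1,1,1,1])],[6,5],false,2,1,[]),
    (true,[([(0,0,[(7,8)])],[2,2,2]),([(0,5,[(5,5),(5,5),(5,5)])],[4,4])],[],false,1,0,[]),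
    (false,[([(0,0,[(7,8)]),(0,1,[(6,6)])],[3])],[8,6,5,1],true,4,2,[6]),
    (true,[([(0,0,[(7,8)]),(0,1,[(6,6)])],[3]),([(0,1,[(5,6)])],[1,1,1])],[6,5],false,2,3,[4]),
    (false,[([(0,0,[(7,8)]),(0,2,[(6,6),(3,4)])],[]),([(0,1,[(5,6)])],[3,3,3,3,1])],[],false,1,0,[2]),
    (false,[([(0,0,[(7,8)]),(0,0,[(6,6),(2,2)])],[]),([(0,2,[(5,6),(3,4)])],[3,3,3,2])],[],false,1,0,[]),
    (true,[([(0,0,[(7,8)]),(0,0,[(7,8)])],[])],[7,6,5,2,1],false,5,1,[7]),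
    (true,[([(0,5,[(7,8),(6,7)])],[3,2]),([(0,0,[(7,8)])],[3,3,3])],[],false,1,0,[2]),
    (false,[([(0,0,[(7,8)]),(0,0,[(7,8)])],[]),([(0,2,[(6,7),(2,2)])],[3,3,3,2])],[],false,1,0,[]),
    (false,[([(0,2,[(9,10)])],[3,3])],[8,7,6],false,3,6,[6,8,9,10]),
    (false,[([(0,2,[(9,10)]),(0,1,[(4,6)])],[3])],[7,6,5],false,3,5,[4,5,6]),
    (true,[([(0,11,[(9,10)]),(0,1,[(4,6)])],[]),([(0,12,[(4,4)])],[2,2,2,2])],[6,2],true,2,4,[3,4]),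
    (true,[([(0,9,[(9,10),(3,3)]),(0,1,[(4,6)])],[]),([(0,12,[(4,4)])],[2,2,2,1])],[6,1],true,2,2,[3]),
    (true,[([(0,14,[(9,10),(4,4),(3,3)])],[4,4]),([(0,1,[(4,6)]),(0,3,[(3,3)])],[3])],[],false,1,0,[]),
    (true,[([(0,11,[(9,10)]),(0,1,[(4,6)])],[]),([(0,12,[(4,4)]),(0,12,[(4,4)])],[2,2])],[6,2],false,2,1,[]),
    (false,[([(0,8,[(9,10),(4,6),(5,5)])],[5,5])],[6],false,1,0,[2,3,4]),
    (true,[([(0,14,[(9,10),(5,5),(2,2)])],[4,3]),([(0,1,[(4,6)])],[3,2,2])],[],false,1,0,[2]),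
    (true,[([(0,14,[(9,10),(5,5),(2,2)])],[4,4]),([(0,1,[(4,6)]),(0,3,[(2,2)])],[3])],[],false,1,0,[2]),
    (true,[([(0,14,[(9,10),(5,5),(2,2)])],[4,4]),([(0,1,[(4,6)]),(1,0,[(2,2),(2,2)])],[])],[],false,1,0,[]),
    (true,[([(0,9,[(9,10),(3,3)]),(0,1,[(4,6)])],[]),([(0,1,[(5,5)])],[2,2,2])],[6],false,1,0,[2]),
    (true,[([(0,14,[(9,10),(5,5),(2,2)])],[4,4]),([(0,1,[(4,6)]),(0,3,[(3,3)])],[3])],[],false,1,0,[]),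
    (true,[([(0,8,[(9,10),(4,6),(5,5)])],[4]),([(0,12,[(4,4)])],[2,2,2,2])],[],false,1,0,[]),
    (true,[([(0,14,[(9,10),(6,6)])],[4,3]),([(0,1,[(4,6)])],[3,2,2])],[],false,1,0,[3]),
    (true,[([(0,14,[(9,10),(6,6)])],[4,4]),([(0,1,[(4,6)]),(0,3,[(2,3)])],[3])],[],false,1,0,[2]),
    (true,[([(0,14,[(9,10),(6,6)])],[4,4]),([(0,1,[(4,6)]),(1,0,[(2,3),(2,2)])],[])],[],false,1,0,[]),
    (false,[([(0,2,[(9,10)]),(0,0,[(7,8)])],[])],[8,6,5],false,3,4,[5]),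
    (true,[([(0,5,[(9,10),(4,5)])],[3,2]),([(0,0,[(7,8)])],[3,3,3])],[],false,1,0,[2]),
    (false,[([(0,11,[(9,10)]),(0,0,[(7,8)])],[]),([(0,1,[(4,5)]),(0,3,[(2,2)])],[3,3,3])],[],false,1,0,[]),
    (false,[([(0,2,[(9,10)]),(0,6,[(9,9)])],[])],[8,6,4],false,3,2,[]),
    (false,[([(0,20,[(9,10),(10,10)])],[5,5,1])],[5,1],false,2,1,[]),
    (true,[([(0,9,[(11,13)])],[3,2])],[7,6,5,1],false,3,6,[4,6,8,9]),
    (true,[([(0,14,[(11,13),(4,4)])],[4,3])],[6,5,2],false,3,2,[4]),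
    (true,[([(0,9,[(11,13)])],[3,1]),([(0,12,[(4,4)]),(0,12,[(4,4)])],[2,2])],[7,1],true,2,2,[3]),
    (true,[([(0,8,[(11,13),(4,4),(3,3)])],[4]),([(0,12,[(4,4)])],[2,2,2,2])],[],false,1,0,[]),
    (true,[([(0,9,[(11,13)]),(0,1,[(5,6)])],[])],[6,6,5,1],true,3,2,[4,5]),
    (true,[([(0,9,[(11,13)]),(0,1,[(5,6)])],[]),([(0,12,[(4,4)])],[2,2,2,1])],[6,1],false,2,1,[]),
    (true,[([(0,9,[(11,13)]),(0,1,[(5,6)])],[]),([(0,1,[(5,5)])],[2,2,2])],[6],false,1,0,[]),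
    (false,[([(0,8,[(11,13),(7,8)])],[5,5])],[6],false,1,0,[3]),
    (true,[([(0,9,[(11,13)]),(0,3,[(2,3)])],[3]),([(0,0,[(7,8)])],[3,3,3])],[1],false,1,0,[2]),
    (true,[([(0,9,[(11,13)]),(1,0,[(2,3),(2,2)])],[]),([(0,0,[(7,8)])],[3,3,3])],[1],false,1,0,[]),
    (false,[([(0,18,[(11,13),(9,9)])],[5,5])],[5],false,1,0,[]),
    (true,[([(0,14,[(14,17)])],[4,3])],[6,5,2],false,3,2,[6]),
    (true,[([(0,14,[(14,17)])],[4,3]),([(0,1,[(4,6)])],[3,2,2])],[],false,1,0,[3]),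
    (true,[([(0,14,[(14,17)])],[4,4]),([(0,1,[(4,6)]),(0,3,[(2,3)])],[3])],[],false,1,0,[2]),
    (true,[([(0,14,[(14,17)])],[4,4]),([(0,1,[(4,6)]),(1,0,[(2,3),(2,2)])],[])],[],false,1,0,[]),
    (false,[([(0,13,[(18,19)])],[5,5,1])],[6,1],false,2,1,[])]),
  ([8,7,7,6,3,2,2,1], [
    (false,[],[8,7,7,6,3,2,2,1],false,5,4,[7,9,11,15,19]),
    (false,[([(0,19,[(6,7)])],[3,1])],[8,7,7,3],false,1,0,[3,4,6,7]),
    (false,[([(0,2,[(6,7),(2,3)])],[1,1])],[8,7,7,2],false,1,0,[2,3]),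
    (false,[([(0,19,[(6,7)]),(1,0,[(2,3),(2,2)])],[])],[8,7,6,2],false,2,11,[]),
    (false,[([(0,19,[(6,7)]),(0,1,[(2,3),(3,3)])],[])],[8,7,6,2],false,3,7,[]),
    (true,[([(0,11,[(6,7),(4,4)])],[3])],[8,7,4,3],false,4,3,[]),
    (false,[([(0,19,[(6,7)]),(0,1,[(5,6)])],[])],[8,7,6,2],false,3,7,[4,5,6]),
    (true,[([(0,11,[(6,7),(4,4)]),(0,1,[(5,6)])],[])],[8,4,4,3],false,3,3,[4]),
    (false,[([(0,8,[(6,7),(5,6),(4,4),(4,4)])],[3,3])],[7,2],true,2,3,[4]),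
    (false,[([(0,5,[(6,7),(4,4),(3,4)]),(0,12,[(4,4)])],[]),([(0,1,[(5,6)])],[3,2,2,2,2])],[],false,1,0,[2]),
    (true,[([(0,11,[(6,7),(4,4)]),(0,1,[(5,6)])],[]),([(0,4,[(4,4)]),(0,1,[(3,4),(2,2)])],[3,1])],[4],false,1,0,[]),
    (false,[([(0,19,[(6,7)]),(0,1,[(5,6)])],[]),([(0,4,[(5,5)])],[3,2,2,2,2])],[7],false,1,0,[2,3,4,5]),
    (false,[([(0,17,[(6,7),(5,5),(2,2)]),(0,1,[(5,6)])],[])],[7,7,2],true,2,4,[]),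
    (false,[([(0,8,[(6,7),(5,6),(5,5),(3,3)])],[3,3])],[7,2],true,2,3,[3]),
    (false,[([(0,8,[(6,7),(5,6),(5,5),(3,3)])],[3,3]),([(0,3,[(3,3)])],[2,1,1,1,1])],[],false,1,0,[2]),
    (false,[([(0,8,[(6,7),(5,6),(5,5),(3,3)])],[3,3]),([(0,3,[(3,3)]),(0,3,[(2,2)])],[1,1,1])],[],false,1,0,[]),
    (true,[([(0,11,[(6,7),(4,4)]),(0,1,[(5,6)])],[]),([(0,4,[(5,5)])],[3,3,2,1,1])],[4],false,1,0,[2,3]),
    (false,[([(0,5,[(6,7),(5,6),(2,2)])],[3,3,3]),([(0,4,[(5,5)]),(0,4,[(4,4)])],[2])],[],false,1,0,[2]),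
    (false,[([(0,5,[(6,7),(5,6),(2,2)])],[3,3,3]),([(0,4,[(5,5)]),(0,1,[(4,4),(2,2)])],[1])],[],false,1,0,[]),
    (false,[([(0,8,[(6,7),(5,6),(5,5),(3,3)])],[3,3]),([(0,12,[(4,4)])],[1,1,1,1,1])],[],false,1,0,[]),
    (false,[([(0,19,[(6,7)]),(0,1,[(5,6)])],[]),([(0,2,[(5,5),(5,5)])],[4,3,3,3])],[],false,1,0,[2]),
    (false,[([(0,5,[(6,7),(5,6),(2,2)])],[3,3,3]),([(0,4,[(5,5)]),(0,4,[(5,5)])],[2])],[],false,1,0,[]),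
    (false,[([(0,7,[(6,7),(5,6),(6,6)])],[2])],[8,7],false,2,4,[3,5]),
    (false,[([(0,7,[(6,7),(5,6),(6,6)]),(0,3,[(3,3)])],[])],[7,7],false,1,0,[3]),
    (false,[([(0,17,[(6,7),(6,6)]),(0,1,[(5,6)])],[]),([(0,3,[(3,3)]),(0,3,[(2,3)])],[1,1,1])],[7],false,1,0,[2]),
    (false,[([(0,8,[(6,7),(5,6),(6,6),(2,2)])],[3,3]),([(0,3,[(3,3)]),(0,3,[(2,3)])],[1,1,1])],[],false,1,0,[]),
    (false,[([(0,5,[(6,7),(6,6)])],[3,3,3]),([(0,1,[(5,6)]),(0,4,[(4,5)])],[1])],[],false,1,0,[2]),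
    (false,[([(0,5,[(6,7),(5,6),(2,2)])],[3,3,3]),([(0,1,[(6,6)]),(0,4,[(4,5)])],[1])],[],false,1,0,[]),
    (false,[([(0,17,[(6,7),(7,7)])],[2,2])],[8,7,3],false,3,3,[5,7]),
    (false,[([(0,7,[(6,7),(7,7),(4,5)])],[2])],[8,7],false,2,4,[3,5]),
    (false,[([(0,7,[(6,7),(7,7),(4,5)]),(0,3,[(3,3)])],[])],[7,7],false,1,0,[3]),
    (false,[([(0,5,[(6,7),(7,7)])],[3,3,3]),([(0,4,[(4,5)]),(0,1,[(3,3),(2,3)])],[1])],[],false,1,0,[2]),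
    (false,[([(0,8,[(6,7),(7,7),(4,5),(2,2)])],[3,3]),([(0,3,[(3,3)]),(0,3,[(2,3)])],[1,1,1])],[],false,1,0,[]),
    (false,[([(0,5,[(6,7),(7,7)])],[3,3,3]),([(0,4,[(4,5)]),(0,4,[(4,5)])],[2])],[],false,1,0,[2]),
    (true,[([(0,2,[(6,7),(2,2)]),(0,4,[(4,5)])],[]),([(0,0,[(7,7)]),(0,4,[(4,5)])],[3,1])],[4],false,1,0,[]),
    (false,[([(0,8,[(6,7),(7,7),(6,7)])],[3,3])],[7,2],false,2,2,[3]),
    (false,[([(0,8,[(6,7),(7,7),(6,7)])],[3,3]),([(0,3,[(3,3)])],[2,1,1,1,1])],[],false,1,0,[]),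
    (false,[([(0,2,[(8,9)])],[1,1,1])],[8,7,6,2],false,3,7,[5,6,8,9]),
    (true,[([(0,2,[(8,9)]),(0,4,[(4,5)])],[])],[8,5,4,4],false,3,5,[4,5]),
    (false,[([(0,17,[(8,9),(4,5)]),(0,12,[(4,4)])],[])],[8,7,3],false,3,3,[4]),
    (true,[([(0,9,[(8,9),(4,4)]),(0,2,[(4,5),(4,4)])],[])],[4,4,4,1],true,2,2,[3]),
    (false,[([(0,8,[(8,9),(4,5),(4,4),(3,3)])],[3,3]),([(0,12,[(4,4)])],[1,1,1,1,1])],[],false,1,0,[]),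
    (false,[([(0,7,[(8,9),(4,5),(5,5)])],[2])],[8,7],false,2,4,[3,5]),
    (false,[([(0,7,[(8,9),(4,5),(5,5)]),(0,3,[(3,3)])],[])],[7,7],false,1,0,[3]),
    (false,[([(0,5,[(8,9),(4,5)])],[3,3,3]),([(0,4,[(5,5)]),(0,1,[(3,3),(2,3)])],[1])],[],false,1,0,[2]),
    (false,[([(0,8,[(8,9),(4,5),(5,5),(2,2)])],[3,3]),([(0,3,[(3,3)]),(0,3,[(2,3)])],[1,1,1])],[],false,1,0,[]),
    (false,[([(0,5,[(8,9),(4,5)])],[3,3,3]),([(0,4,[(5,5)]),(0,4,[(4,5)])],[2])],[],false,1,0,[2]),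
    (true,[([(0,11,[(8,9),(2,2)]),(0,4,[(4,5)])],[]),([(0,2,[(4,5),(5,5)])],[4,4,1,1])],[],false,1,0,[]),
    (false,[([(0,5,[(8,9),(6,6)])],[2,2])],[8,7,2],false,2,6,[3,6]),
    (false,[([(0,21,[(8,9),(6,6),(3,3)])],[3])],[8,7],false,2,4,[3]),
    (false,[([(0,8,[(8,9),(6,6),(3,3),(3,3)])],[3,3])],[7,2],false,2,2,[3]),
    (false,[([(0,8,[(8,9),(6,6),(3,3),(3,3)])],[3,3]),([(0,3,[(3,3)])],[2,1,1,1,1])],[],false,1,0,[]),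
    (false,[([(0,8,[(8,9),(6,6),(4,6)])],[3,3])],[7,2],true,2,3,[3,4]),
    (false,[([(0,8,[(8,9),(6,6),(4,6)])],[3,3]),([(0,3,[(3,3)])],[2,1,1,1,1])],[],false,1,0,[2]),
    (false,[([(0,8,[(8,9),(6,6),(4,6)])],[3,3]),([(0,3,[(3,3)]),(0,3,[(2,2)])],[1,1,1])],[],false,1,0,[]),
    (false,[([(0,8,[(8,9),(6,6),(4,6)])],[3,3]),([(0,12,[(4,4)])],[1,1,1,1,1])],[],false,1,0,[]),
    (true,[([(0,14,[(8,9),(7,8)])],[])],[8,7,4],false,3,4,[6]),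
    (false,[([(0,14,[(8,9),(7,8)])],[5,4,4]),([(0,1,[(4,6)])],[])],[],false,1,0,[3]),
    (false,[([(0,5,[(8,9),(4,6)]),(0,3,[(2,3)])],[2]),([(0,0,[(7,8)])],[2,2,2,2])],[],false,1,0,[2]),
    (false,[([(0,11,[(8,9),(2,2)]),(0,0,[(7,8)])],[4]),([(0,1,[(4,6)]),(0,3,[(2,3)])],[1,1])],[2],false,1,0,[]),
    (false,[([(0,2,[(8,9)]),(0,6,[(9,9)])],[4])],[7,3,2,1],false,4,1,[]),
    (true,[([(0,11,[(10,11)])],[3])],[8,7,4,3],false,4,3,[6,10]),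
    (true,[([(0,14,[(10,11),(5,6)])],[])],[8,7,4],false,3,4,[5,6]),
    (false,[([(0,14,[(10,11),(5,6)])],[3,3,2]),([(0,4,[(4,5)])],[3,1,1,1])],[],false,1,0,[3]),
    (true,[([(0,14,[(10,11),(5,6)]),(0,3,[(2,3)])],[]),([(0,4,[(4,5)])],[3,3,3,1,1])],[],false,1,0,[2]),
    (true,[([(0,14,[(10,11),(5,6)])],[1,1]),([(0,4,[(4,5)]),(1,0,[(2,3),(2,2)])],[3,3])],[],false,1,0,[]),
    (false,[([(0,14,[(10,11),(5,6)])],[5,4,4]),([(0,1,[(6,6)])],[])],[],false,1,0,[]),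
    (false,[([(0,8,[(10,11),(7,10)])],[3,3])],[7,2],true,2,3,[3,4]),
    (false,[([(0,8,[(10,11),(7,10)])],[3,3]),([(0,3,[(3,3)])],[2,1,1,1,1])],[],false,1,0,[2]),
    (false,[([(0,8,[(10,11),(7,10)])],[3,3]),([(0,3,[(3,3)]),(0,3,[(2,2)])],[1,1,1])],[],false,1,0,[]),
    (false,[([(0,8,[(10,11),(7,10)])],[3,3]),([(0,12,[(4,4)])],[1,1,1,1,1])],[],false,1,0,[]),
    (false,[([(0,5,[(12,15)])],[2,2])],[8,7,2],false,2,7,[3,4,6,8]),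
    (false,[([(0,5,[(12,15)]),(0,3,[(3,3)])],[2])],[7,7,2],true,2,5,[3]),
    (false,[([(0,8,[(12,15),(3,3),(3,3)])],[3,3])],[7,2],true,2,3,[3]),
    (false,[([(0,8,[(12,15),(3,3),(3,3)])],[3,3]),([(0,3,[(3,3)])],[2,1,1,1,1])],[],false,1,0,[2]),
    (false,[([(0,8,[(12,15),(3,3),(3,3)])],[3,3]),([(0,3,[(3,3)]),(0,3,[(2,2)])],[1,1,1])],[],false,1,0,[]),
    (false,[([(0,5,[(12,15)]),(0,12,[(4,4)])],[])],[8,7,2],false,3,2,[4]),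
    (false,[([(0,7,[(12,15),(4,4)]),(0,12,[(4,4)])],[])],[7,6],false,2,1,[]),
    (false,[([(0,8,[(12,15),(5,6)])],[3,3])],[7,2],true,2,3,[3,4]),
    (false,[([(0,8,[(12,15),(5,6)])],[3,3]),([(0,3,[(3,3)])],[2,1,1,1,1])],[],false,1,0,[2]),
    (false,[([(0,8,[(12,15),(5,6)])],[3,3]),([(0,3,[(3,3)]),(0,3,[(2,2)])],[1,1,1])],[],false,1,0,[]),
    (false,[([(0,8,[(12,15),(5,6)])],[3,3]),([(0,12,[(4,4)])],[1,1,1,1,1])],[],false,1,0,[]),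
    (false,[([(0,5,[(12,15)])],[2,2]),([(0,0,[(7,8)])],[2,2,2,2,1])],[],false,1,0,[2]),
    (false,[([(0,5,[(12,15)]),(0,3,[(2,2)])],[2]),([(0,0,[(7,8)])],[2,2,2,2])],[],false,1,0,[]),
    (false,[([(0,13,[(16,19)])],[3,3])],[8,2,1],false,3,1,[4]),
    (false,[([(0,7,[(16,19)]),(0,12,[(4,4)])],[])],[7,6],false,1,0,[])]),
  ([8,7,7,6,4,3,1], [
    (false,[],[8,7,7,6,4,3,1],false,5,4,[6,8,11,15,19]),
    (true,[([(0,1,[(6,6)])],[2])],[7,6,6,5,4],false,4,4,[6]),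
    (false,[([(0,1,[(6,6)]),(0,1,[(5,6)])],[3,2])],[7,7,4,1],true,3,4,[4,5,6]),
    (true,[([(0,11,[(6,6),(4,4)]),(0,1,[(5,6)])],[])],[6,6,4,3],false,3,3,[4]),
    (true,[([(0,1,[(6,6)]),(0,1,[(5,6)])],[3]),([(0,12,[(4,4)]),(0,12,[(4,4)])],[1,1])],[6,4,1],false,3,1,[4]),
    (true,[([(0,8,[(6,6),(5,6),(4,4),(4,4)])],[5]),([(0,12,[(4,4)])],[2,2,1,1])],[],false,1,0,[]),
    (true,[([(0,11,[(6,6),(5,5)]),(0,1,[(5,6)])],[])],[6,6,4,3],false,3,3,[4,5]),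
    (true,[([(0,8,[(6,6),(5,6),(5,5),(4,4)])],[5])],[6,4],false,2,2,[3]),
    (true,[([(0,8,[(6,6),(5,6),(5,5),(4,4)])],[5]),([(0,3,[(3,3)])],[2,2,2,1])],[],false,1,0,[]),
    (true,[([(0,11,[(6,6),(5,5)]),(0,1,[(5,6)])],[]),([(0,4,[(5,5)])],[3,3,2])],[6],false,1,0,[2]),
    (false,[([(0,0,[(6,6),(2,2)]),(0,1,[(5,6)])],[2]),([(0,2,[(5,5),(5,5)])],[3,3,2,2])],[],false,1,0,[]),
    (true,[([(0,1,[(6,6)]),(0,1,[(5,6)])],[3]),([(0,1,[(6,6)])],[2,2,1])],[6,4],false,2,4,[3,5]),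
    (true,[([(0,8,[(6,6),(5,6),(6,6),(3,3)])],[5])],[6,4],false,2,2,[3]),
    (true,[([(0,8,[(6,6),(5,6),(6,6),(3,3)])],[5]),([(0,3,[(3,3)])],[2,2,2,1])],[],false,1,0,[]),
    (true,[([(0,11,[(6,6),(4,5)]),(0,1,[(5,6)])],[]),([(0,1,[(6,6)])],[3,3,1])],[6],false,1,0,[2]),
    (false,[([(0,11,[(6,6),(4,5)]),(0,1,[(5,6)])],[2]),([(0,0,[(6,6),(2,2)])],[3,2,2,2])],[],false,1,0,[]),
    (true,[([(0,0,[(7,8)])],[3])],[7,6,6,5,1],false,3,6,[5,8]),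
    (true,[([(0,0,[(7,8)]),(0,4,[(4,5)])],[])],[7,6,5,4,1],false,4,5,[5]),
    (true,[([(0,0,[(7,8)]),(0,2,[(4,5),(5,5)])],[])],[6,5,4,3],false,4,3,[5]),
    (true,[([(0,0,[(7,8)])],[3,1,1]),([(0,5,[(4,5),(5,5),(5,5)])],[4,4])],[],false,1,0,[2]),
    (true,[([(0,0,[(7,8)]),(0,3,[(2,2)])],[3,3]),([(0,5,[(4,5),(5,5),(5,5)])],[4])],[],false,1,0,[]),
    (false,[([(0,0,[(7,8)]),(0,15,[(6,8)])],[3])],[7,7,3],true,2,7,[3,4,5,7,8]),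
    (false,[([(0,0,[(7,8)]),(0,15,[(6,8)])],[2]),([(0,3,[(3,3)])],[2,2,2,1,1])],[7],false,1,0,[2,3]),
    (true,[([(0,0,[(7,8)]),(0,2,[(6,8),(2,2)])],[]),([(0,3,[(3,3)])],[2,2])],[6,5],false,2,4,[]),
    (true,[([(0,0,[(7,8)]),(0,15,[(6,8)])],[]),([(0,3,[(3,3)]),(0,3,[(3,3)])],[2,2])],[6,4],false,2,3,[3]),
    (false,[([(0,0,[(7,8)]),(0,15,[(6,8)])],[2]),([(0,3,[(3,3)]),(0,3,[(3,3)]),(0,3,[(3,3)])],[2])],[7],false,1,0,[2]),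
    (true,[([(0,0,[(7,8)]),(0,2,[(6,8),(2,2)])],[]),([(1,1,[(3,3),(3,3),(3,3)])],[4,4])],[],false,1,0,[]),
    (true,[([(0,0,[(7,8)]),(0,15,[(6,8)])],[]),([(0,12,[(4,4)])],[2,2,1,1])],[6,4],false,2,4,[3,4]),
    (true,[([(0,0,[(7,8)]),(0,15,[(6,8)])],[]),([(0,12,[(4,4)]),(0,3,[(3,3)])],[2,1])],[6,4],false,2,2,[3]),
    (true,[([(0,0,[(7,8)]),(0,3,[(3,3)])],[3,3]),([(0,5,[(6,8),(4,4),(3,3)])],[4])],[],false,1,0,[]),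
    (true,[([(0,0,[(7,8)]),(0,15,[(6,8)])],[]),([(0,12,[(4,4)]),(0,12,[(4,4)])],[1,1])],[6,4],false,2,1,[]),
    (true,[([(0,8,[(7,8),(6,8),(5,5)])],[5])],[6,4],false,2,3,[3,4]),
    (true,[([(0,8,[(7,8),(6,8),(5,5)])],[5]),([(0,3,[(3,3)])],[2,2,2,1])],[],false,1,0,[2]),
    (true,[([(0,8,[(7,8),(6,8),(5,5)])],[5]),([(0,3,[(3,3)]),(0,3,[(2,2)])],[2,2])],[],false,1,0,[]),
    (true,[([(0,8,[(7,8),(6,8),(5,5)])],[5]),([(0,12,[(4,4)])],[2,2,1,1])],[],false,1,0,[]),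
    (true,[([(0,0,[(7,8)])],[3,1,1]),([(0,5,[(6,8),(6,7)])],[4,4])],[],false,1,0,[3]),
    (true,[([(0,0,[(7,8)]),(0,3,[(2,3)])],[3,3]),([(0,5,[(6,8),(6,7)])],[4])],[],false,1,0,[2]),
    (true,[([(0,0,[(7,8)]),(1,0,[(2,3),(2,2)])],[3]),([(0,5,[(6,8),(6,7)])],[4])],[],false,1,0,[]),
    (false,[([(0,0,[(7,8)]),(0,15,[(6,8)])],[2]),([(0,0,[(8,8)])],[3,3,2,2])],[],false,1,0,[]),
    (true,[([(0,11,[(9,11)])],[2,1])],[7,6,5,4],false,4,4,[5,6,8,10,11]),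
    (true,[([(0,11,[(9,11)]),(0,4,[(5,5)])],[])],[6,6,5,3],false,3,3,[5]),
    (true,[([(0,8,[(9,11),(5,5),(4,5)])],[5])],[6,4],false,2,3,[3,4]),
    (true,[([(0,8,[(9,11),(5,5),(4,5)])],[5]),([(0,3,[(3,3)])],[2,2,2,1])],[],false,1,0,[2]),
    (true,[([(0,8,[(9,11),(5,5),(4,5)])],[5]),([(0,3,[(3,3)]),(0,3,[(2,2)])],[2,2])],[],false,1,0,[]),
    (true,[([(0,8,[(9,11),(5,5),(4,5)])],[5]),([(0,12,[(4,4)])],[2,2,1,1])],[],false,1,0,[]),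
    (true,[([(0,14,[(9,11),(6,6)])],[1])],[7,6,5],false,3,5,[4,6]),
    (true,[([(0,14,[(9,11),(6,6)]),(0,12,[(4,4)])],[])],[6,5,4],false,3,2,[]),
    (true,[([(0,14,[(9,11),(6,6)])],[1]),([(0,1,[(5,6)])],[3,3,3,3])],[],false,1,0,[2]),
    (false,[([(0,11,[(9,11)]),(0,0,[(6,6),(2,2)])],[3]),([(0,1,[(5,6)])],[3,3,1,1])],[],false,1,0,[]),
    (false,[([(0,11,[(9,11)]),(0,0,[(7,8)])],[3])],[7,4,3],false,3,3,[5]),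
    (false,[([(0,11,[(9,11)]),(0,0,[(7,8)])],[3]),([(0,4,[(4,5)])],[3,3,2,1])],[],false,1,0,[2]),
    (false,[([(0,11,[(9,11)]),(0,0,[(7,8)])],[3]),([(0,4,[(4,5)]),(0,3,[(2,2)])],[3,3])],[],false,1,0,[]),
    (true,[([(0,8,[(9,11),(9,10)])],[5])],[6,4],false,2,2,[3]),
    (true,[([(0,8,[(9,11),(9,10)])],[5]),([(0,3,[(3,3)])],[2,2,2,1])],[],false,1,0,[]),
    (true,[([(0,11,[(9,11)])],[2]),([(0,11,[(11,11)])],[4,4,4])],[],false,1,0,[]),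
    (true,[([(0,5,[(12,15)])],[4])],[7,6,4],false,3,4,[4,6,8]),
    (false,[([(0,5,[(12,15)]),(0,12,[(4,4)])],[4])],[7,6],false,2,4,[3,4]),
    (false,[([(0,5,[(12,15)]),(0,12,[(4,4)])],[4]),([(0,3,[(3,3)])],[2,2,2,2,2])],[],false,1,0,[3]),
    (true,[([(0,5,[(12,15)])],[5,5]),([(0,12,[(4,4)]),(0,1,[(3,3),(2,3)])],[1])],[],false,1,0,[2]),
    (true,[([(0,8,[(12,15),(4,4),(2,2)])],[5]),([(0,3,[(3,3)]),(0,3,[(2,3)])],[2,2])],[],false,1,0,[]),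
    (false,[([(0,5,[(12,15)]),(0,12,[(4,4)])],[4]),([(0,12,[(4,4)])],[2,2,2,2,1])],[],false,1,0,[2]),
    (true,[([(0,8,[(12,15),(4,4),(2,2)])],[5]),([(0,12,[(4,4)])],[2,2,1,1])],[],false,1,0,[]),
    (true,[([(0,8,[(12,15),(5,6)])],[5])],[6,4],false,2,3,[3,4]),
    (true,[([(0,8,[(12,15),(5,6)])],[5]),([(0,3,[(3,3)])],[2,2,2,1])],[],false,1,0,[2]),
    (true,[([(0,8,[(12,15),(5,6)])],[5]),([(0,3,[(3,3)]),(0,3,[(2,2)])],[2,2])],[],false,1,0,[]),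
    (true,[([(0,8,[(12,15),(5,6)])],[5]),([(0,12,[(4,4)])],[2,2,1,1])],[],false,1,0,[]),
    (true,[([(0,5,[(12,15)])],[4]),([(0,0,[(7,8)])],[3,3,2,1])],[],false,1,0,[2]),
    (true,[([(0,5,[(12,15)])],[4]),([(0,0,[(7,8)]),(0,3,[(2,2)])],[3,3])],[],false,1,0,[]),
    (true,[([(0,13,[(16,19)])],[5])],[7,4,1],false,3,1,[4]),
    (true,[([(0,13,[(16,19)])],[5]),([(0,12,[(4,4)])],[2,2,1,1,1])],[1],false,1,0,[])]),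
  ([8,7,7,6,5,2,1], [
    (false,[],[8,7,7,6,5,2,1],true,5,4,[6,8,11,13,17,19]),
    (false,[([(0,1,[(6,6)])],[1,1,1,1])],[8,7,6,5],false,4,5,[5,6]),
    (true,[([(0,11,[(6,6),(5,5)])],[3,3])],[7,5,4,3],false,4,3,[5]),
    (true,[([(0,11,[(6,6),(5,5)]),(0,1,[(5,5)])],[])],[6,5,5,3],false,3,3,[5]),
    (false,[([(0,11,[(6,6),(5,5)]),(0,2,[(5,5),(4,5)])],[])],[7,7,1],true,2,2,[3]),
    (false,[([(0,11,[(6,6),(5,5)]),(0,2,[(5,5),(4,5)])],[]),([(0,3,[(3,3)])],[1,1,1,1,1])],[7],false,1,0,[]),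
    (false,[([(0,1,[(6,6)]),(0,1,[(6,6)])],[2])],[8,7,6,1],false,3,7,[5,6]),
    (true,[([(0,11,[(6,6),(4,5)]),(0,1,[(6,6)])],[])],[6,5,5,3],false,3,3,[5]),
    (true,[([(0,11,[(6,6),(4,5)])],[3,2]),([(0,11,[(6,6),(4,5)])],[4,4,1])],[],false,1,0,[3]),
    (true,[([(0,11,[(6,6),(4,5)]),(0,3,[(2,3)])],[3]),([(0,11,[(6,6),(4,5)])],[4,4])],[],false,1,0,[2]),
    (true,[([(0,11,[(6,6),(4,5)]),(1,0,[(2,3),(2,2)])],[]),([(0,11,[(6,6),(4,5)])],[4,4])],[],false,1,0,[]),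
    (true,[([(0,1,[(6,6)]),(0,1,[(6,6)])],[3]),([(0,1,[(6,6)])],[2,2])],[6,5],false,2,3,[4]),
    (true,[([(0,2,[(6,6),(3,4)]),(0,1,[(6,6)])],[]),([(0,1,[(6,6)])],[3,3,3])],[5],false,1,0,[2]),
    (false,[([(0,2,[(6,6),(3,4)]),(0,0,[(6,6),(2,2)])],[3]),([(0,1,[(6,6)])],[3,2,2,2])],[],false,1,0,[]),
    (true,[([(0,0,[(7,8)])],[3,1])],[7,6,5,5,1],false,3,7,[5,7,8]),
    (true,[([(0,0,[(7,8)]),(0,4,[(4,5)])],[2])],[6,5,5,4,1],false,3,5,[4,5]),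
    (true,[([(0,0,[(7,8)]),(0,1,[(4,5)])],[]),([(0,12,[(4,4)])],[2,2,2])],[7,4,1],true,3,3,[4]),
    (true,[([(0,0,[(7,8)]),(0,4,[(4,5)])],[]),([(0,12,[(4,4)]),(0,12,[(4,4)])],[2])],[7,5,1],false,3,1,[4]),
    (true,[([(0,8,[(7,8),(4,5),(4,4),(4,4)])],[5]),([(0,12,[(4,4)])],[2,2,2])],[],false,1,0,[]),
    (false,[([(0,0,[(7,8)]),(0,2,[(4,5),(5,5)])],[3])],[7,6,2],false,3,2,[5]),
    (false,[([(0,0,[(7,8)]),(0,5,[(4,5),(5,5),(4,5)])],[])],[7,6],false,2,2,[3]),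
    (false,[([(0,0,[(7,8)]),(0,5,[(4,5),(5,5),(4,5)])],[]),([(0,3,[(3,3)])],[2,2,2,2,2])],[],false,1,0,[]),
    (true,[([(0,0,[(7,8)]),(0,15,[(6,7)])],[])],[6,5,5,4],false,3,4,[4,6,7]),
    (false,[([(0,0,[(7,8)]),(0,11,[(6,7),(4,4)])],[])],[8,7,2],false,3,2,[4]),
    (false,[([(0,0,[(7,8)]),(0,5,[(6,7),(4,4),(4,4)])],[])],[7,6],false,2,1,[]),
    (false,[([(0,8,[(7,8),(6,7),(5,6)])],[4,4])],[7],false,1,0,[2,3,4]),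
    (false,[([(0,0,[(7,8)]),(0,5,[(6,7),(5,6),(2,2)])],[])],[7,6],false,2,2,[]),
    (false,[([(0,0,[(7,8)]),(0,2,[(6,7),(3,3)])],[3]),([(0,1,[(5,6)])],[3,2,2,2])],[],false,1,0,[2]),
    (false,[([(0,0,[(7,8)]),(0,5,[(6,7),(5,6),(2,2)])],[]),([(0,3,[(3,3)])],[2,2,2,2,2])],[],false,1,0,[]),
    (true,[([(0,8,[(7,8),(6,7),(5,6)])],[5]),([(0,12,[(4,4)])],[2,2,2])],[],false,1,0,[]),
    (false,[([(0,5,[(7,8),(6,7)]),(0,0,[(7,7)])],[])],[7,6],false,2,1,[]),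
    (false,[([(0,0,[(7,8)]),(0,0,[(8,8)])],[3])],[8,6,2,1],false,4,1,[6]),
    (true,[([(0,18,[(7,8),(8,8),(5,6)])],[5])],[5,4],false,2,1,[]),
    (true,[([(0,11,[(9,11)])],[2])],[7,6,5,5],false,3,6,[4,5,6,8,11]),
    (true,[([(0,11,[(9,11)]),(0,12,[(4,4)])],[])],[7,5,5,4],false,3,4,[4]),
    (true,[([(0,11,[(9,11)]),(0,12,[(4,4)])],[]),([(0,12,[(4,4)])],[2,2,1])],[7,5],false,2,4,[4]),
    (false,[([(0,5,[(9,11),(3,4)])],[3,3]),([(0,12,[(4,4)]),(0,12,[(4,4)])],[2,2,2,1])],[],false,1,0,[2,3]),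
    (true,[([(0,11,[(9,11)]),(0,1,[(3,4),(2,2)])],[]),([(0,12,[(4,4)]),(0,12,[(4,4)])],[2])],[6,3],false,2,1,[]),
    (false,[([(0,5,[(9,11),(3,4)])],[3,3]),([(0,12,[(4,4)]),(0,12,[(4,4)]),(0,3,[(3,3)])],[2,2])],[],false,1,0,[]),
    (true,[([(0,11,[(9,11)]),(0,1,[(5,5)])],[])],[6,5,5,3],false,3,3,[4,5]),
    (false,[([(0,11,[(9,11)]),(0,2,[(5,5),(4,4)])],[])],[7,7,1],true,2,3,[3,4]),
    (true,[([(0,11,[(9,11)]),(0,1,[(5,5)])],[]),([(0,12,[(4,4)]),(0,3,[(3,3)])],[1])],[6,5],false,2,1,[]),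
    (true,[([(0,8,[(9,11),(5,5),(4,4)])],[5]),([(0,12,[(4,4)])],[2,2,2])],[],false,1,0,[]),
    (false,[([(0,11,[(9,11)]),(0,2,[(5,5),(5,5)])],[])],[7,7,1],true,2,2,[3]),
    (false,[([(0,11,[(9,11)]),(0,2,[(5,5),(5,5)])],[]),([(0,3,[(3,3)])],[1,1,1,1,1])],[7],false,1,0,[]),
    (true,[([(0,14,[(9,11),(6,6)])],[3])],[7,5,4],false,3,4,[6]),
    (true,[([(0,14,[(9,11),(6,6)])],[3]),([(0,1,[(4,6)])],[3,3,3,1])],[],false,1,0,[3]),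
    (true,[([(0,14,[(9,11),(6,6)])],[4]),([(0,1,[(4,6)]),(0,3,[(2,3)])],[3,3])],[],false,1,0,[2]),
    (true,[([(0,14,[(9,11),(6,6)])],[4]),([(0,1,[(4,6)]),(1,0,[(2,3),(2,2)])],[3])],[],false,1,0,[]),
    (false,[([(0,11,[(9,11)]),(0,0,[(7,8)])],[])],[8,7,2],false,3,2,[5]),
    (false,[([(0,11,[(9,11)]),(0,0,[(7,8)])],[3]),([(0,4,[(4,5)])],[3,2,2,2])],[],false,1,0,[2]),
    (false,[([(0,11,[(9,11)]),(0,0,[(7,8)])],[3]),([(0,1,[(4,5)]),(0,3,[(2,2)])],[3,2])],[],false,1,0,[]),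
    (true,[([(0,11,[(9,11)])],[3,2]),([(0,11,[(9,11)])],[4,4,1])],[],false,1,0,[3]),
    (true,[([(0,11,[(9,11)]),(0,3,[(2,3)])],[3]),([(0,11,[(9,11)])],[4,4])],[],false,1,0,[2]),
    (true,[([(0,11,[(9,11)]),(1,0,[(2,3),(2,2)])],[]),([(0,11,[(9,11)])],[4,4])],[],false,1,0,[]),
    (true,[([(0,22,[(12,13)])],[4,4])],[6,5,4],false,3,4,[6,8]),
    (false,[([(0,9,[(12,13)]),(0,1,[(4,6)])],[3])],[7,6,1],false,2,4,[4,5]),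
    (true,[([(0,14,[(12,13),(3,4)])],[3]),([(0,1,[(4,6)])],[3,3,3,1])],[],false,1,0,[3]),
    (true,[([(0,14,[(12,13),(3,4)])],[4]),([(0,1,[(4,6)]),(0,3,[(2,3)])],[3,3])],[],false,1,0,[2]),
    (true,[([(0,14,[(12,13),(3,4)])],[4]),([(0,1,[(4,6)]),(1,0,[(2,3),(2,2)])],[3])],[],false,1,0,[]),
    (true,[([(0,23,[(12,13),(5,5)])],[3]),([(0,1,[(4,6)])],[3,3,2,1])],[],false,1,0,[]),
    (true,[([(0,18,[(12,13),(7,8)])],[5])],[5,4],false,2,1,[]),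
    (true,[([(0,14,[(14,17)])],[3])],[7,5,4],false,3,4,[6]),
    (true,[([(0,14,[(14,17)])],[3]),([(0,1,[(4,6)])],[3,3,3,1])],[],false,1,0,[3]),
    (true,[([(0,14,[(14,17)])],[4]),([(0,1,[(4,6)]),(0,3,[(2,3)])],[3,3])],[],false,1,0,[2]),
    (true,[([(0,14,[(14,17)])],[4]),([(0,1,[(4,6)]),(1,0,[(2,3),(2,2)])],[3])],[],false,1,0,[]),
    (false,[([(0,13,[(18,19)])],[4,4])],[8,1],false,2,1,[])])]

theorem cj6e_1_ok : runAllJ S40 R40 F40 18 cj6e_1 = true := by decide +kernel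

noncomputable def cj6e_2 : List (List ℕ × List NdJ) := [
  ([8,7,7,6,5,4,1], [
    (false,[],[8,7,7,6,5,4,1],false,5,5,[6,8,10,12,14,17,19]),
    (false,[([(0,1,[(6,6)])],[2,2,1,1])],[8,7,6,5],false,4,5,[5,6]),
    (true,[([(0,11,[(6,6),(5,5)])],[3,3,3])],[6,5,4,3],false,4,3,[5]),
    (false,[([(0,11,[(6,6),(5,5)]),(0,1,[(5,5)])],[])],[8,7,6],false,3,5,[4,5]),
    (true,[([(0,11,[(6,6),(5,5)]),(0,1,[(5,5)])],[]),([(0,12,[(4,4)])],[2,2,2,2])],[6,3],false,2,2,[3]),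
    (true,[([(0,8,[(6,6),(5,5),(5,5),(3,3)])],[5]),([(0,12,[(4,4)])],[2,2,2,2])],[],false,1,0,[]),
    (false,[([(0,8,[(6,6),(5,5),(5,5),(5,5)])],[5,5])],[7],false,1,0,[2]),
    (true,[([(0,0,[(6,6),(2,2)])],[3,2,2]),([(0,5,[(5,5),(5,5),(5,5)])],[4,4])],[],false,1,0,[]),
    (false,[([(0,1,[(6,6)]),(0,1,[(6,6)])],[3,3])],[7,7,5,1],true,3,4,[5,6]),
    (false,[([(0,11,[(6,6),(4,5)]),(0,1,[(6,6)])],[])],[8,7,6],false,3,5,[4,5]),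
    (true,[([(0,11,[(6,6),(4,5)]),(0,1,[(6,6)])],[]),([(0,12,[(4,4)])],[2,2,2,2])],[6,3],false,2,2,[3]),
    (true,[([(0,8,[(6,6),(6,6),(4,5),(3,3)])],[5]),([(0,12,[(4,4)])],[2,2,2,2])],[],false,1,0,[]),
    (true,[([(0,11,[(6,6),(4,5)])],[2,2]),([(0,11,[(6,6),(5,5)])],[4,4,4])],[],false,1,0,[2]),
    (false,[([(0,11,[(6,6),(4,5)]),(0,0,[(6,6),(2,2)])],[3]),([(0,4,[(5,5)])],[3,3,3,2])],[],false,1,0,[]),
    (false,[([(0,8,[(6,6),(6,6),(6,6)])],[5,5])],[7],false,1,0,[2,3,4]),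
    (true,[([(0,0,[(6,6),(2,2)]),(0,1,[(6,6)])],[]),([(0,1,[(6,6)])],[2,2,1])],[7,6],false,2,2,[]),
    (false,[([(0,8,[(6,6),(6,6),(6,6),(3,3)])],[5,5])],[7],false,1,0,[2]),
    (true,[([(0,5,[(6,6),(6,6),(3,3)])],[4,2]),([(0,0,[(6,6),(2,2)])],[3,3,3])],[],false,1,0,[]),
    (true,[([(0,8,[(6,6),(6,6),(6,6)])],[5]),([(0,12,[(4,4)])],[2,2,2,2])],[],false,1,0,[]),
    (true,[([(0,0,[(7,8)])],[3,1,1])],[7,6,6,5,1],false,3,6,[4,5,6,8]),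
    (true,[([(0,0,[(7,8)]),(0,12,[(4,4)])],[3])],[7,6,5,4,1],false,4,5,[]),
    (true,[([(0,0,[(7,8)]),(0,1,[(5,5)])],[2])],[6,6,5,4,1],true,4,2,[5]),
    (false,[([(0,0,[(7,8)]),(0,2,[(5,5),(5,5)])],[])],[8,7,5],false,3,4,[4,5]),
    (true,[([(0,0,[(7,8)]),(0,2,[(5,5),(5,5)])],[]),([(0,12,[(4,4)])],[2,1,1,1])],[6,5],false,2,1,[]),
    (true,[([(0,0,[(7,8)])],[3,2,2]),([(0,5,[(5,5),(5,5),(5,5)])],[4,4])],[],false,1,0,[]),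
    (true,[([(0,0,[(7,8)]),(0,1,[(6,6)])],[2])],[6,6,5,4,1],true,4,2,[6]),
    (true,[([(0,0,[(7,8)]),(0,1,[(6,6)])],[]),([(0,1,[(5,6)])],[2,2,1])],[7,6],false,2,3,[4]),
    (false,[([(0,0,[(7,8)]),(0,2,[(6,6),(3,4)])],[]),([(0,1,[(5,6)])],[3,3,3,3,2])],[],false,1,0,[2]),
    (false,[([(0,0,[(7,8)]),(0,0,[(6,6),(2,2)])],[1]),([(0,2,[(5,6),(3,4)])],[3,3,3,2])],[],false,1,0,[]),
    (true,[([(0,0,[(7,8)]),(0,0,[(7,8)])],[])],[7,6,5,3,1],false,5,1,[7]),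
    (true,[([(0,5,[(7,8),(6,7)])],[4,2]),([(0,0,[(7,8)])],[3,3,3])],[],false,1,0,[2]),
    (false,[([(0,0,[(7,8)]),(0,0,[(7,8)])],[1]),([(0,2,[(6,7),(2,2)])],[3,3,3,2])],[],false,1,0,[]),
    (false,[([(0,2,[(9,10)])],[3,3,1])],[8,7,6],false,3,6,[4,5,7,8,9,10]),
    (false,[([(0,2,[(9,10)]),(0,12,[(4,4)])],[3,3])],[7,6,5],false,3,5,[4]),
    (true,[([(0,2,[(9,10)]),(0,12,[(4,4)])],[3]),([(0,12,[(4,4)])],[2,2,1,1])],[6,5],false,2,4,[3,4]),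
    (false,[([(0,14,[(9,10),(4,4),(3,3)]),(0,12,[(4,4)])],[4])],[7,6],false,2,2,[3]),
    (true,[([(0,8,[(9,10),(4,4),(3,3),(3,3)])],[5]),([(0,12,[(4,4)])],[2,2,2,2])],[],false,1,0,[]),
    (true,[([(0,2,[(9,10)]),(0,12,[(4,4)])],[3]),([(0,12,[(4,4)]),(0,12,[(4,4)])],[1,1])],[6,5],false,2,1,[]),
    (false,[([(0,11,[(9,10)]),(0,1,[(5,5)])],[])],[8,7,6],false,3,6,[4,5]),
    (true,[([(0,2,[(9,10)]),(0,4,[(5,5)])],[]),([(0,12,[(4,4)])],[2,2,2,2])],[6,5],false,2,3,[3,4]),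
    (false,[([(0,5,[(9,10),(5,5)])],[4,4]),([(0,12,[(4,4)]),(0,3,[(3,3)])],[2,2,2,2])],[],false,1,0,[2]),
    (true,[([(0,8,[(9,10),(5,5),(3,3),(2,2)])],[5]),([(0,12,[(4,4)])],[2,2,2,2])],[],false,1,0,[]),
    (true,[([(0,8,[(9,10),(5,5),(4,4)])],[5]),([(0,12,[(4,4)])],[2,2,2,2])],[],false,1,0,[]),
    (false,[([(0,8,[(9,10),(5,5),(5,5)])],[5,5])],[7],false,1,0,[2,3]),
    (true,[([(0,14,[(9,10),(5,5),(2,2)])],[4,4]),([(0,4,[(5,5)])],[3,3,2])],[],false,1,0,[2]),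
    (true,[([(0,14,[(9,10),(5,5),(2,2)])],[5,5]),([(0,1,[(5,5)]),(0,3,[(2,2)])],[2])],[],false,1,0,[]),
    (true,[([(0,9,[(9,10),(3,3)])],[4,2]),([(0,2,[(5,5),(5,5)])],[3,3,3])],[],false,1,0,[]),
    (true,[([(0,14,[(9,10),(6,7)])],[3,3])],[6,5,4],false,3,4,[4,6]),
    (false,[([(0,14,[(9,10),(6,7)]),(0,12,[(4,4)])],[4])],[7,6],false,2,2,[3]),
    (true,[([(0,8,[(9,10),(6,7),(3,3)])],[5]),([(0,12,[(4,4)])],[2,2,2,2])],[],false,1,0,[]),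
    (true,[([(0,14,[(9,10),(6,7)])],[3,3]),([(0,1,[(5,6)])],[3,3,3])],[],false,1,0,[2]),
    (true,[([(0,14,[(9,10),(6,7)])],[5,5]),([(0,1,[(5,6)]),(0,3,[(2,2)])],[2])],[],false,1,0,[]),
    (false,[([(0,2,[(9,10)]),(0,0,[(8,8)])],[])],[8,7,5],false,3,3,[4]),
    (true,[([(0,8,[(9,10),(8,8)])],[5]),([(0,12,[(4,4)])],[2,2,2,2])],[],false,1,0,[]),
    (false,[([(0,2,[(9,10)]),(0,6,[(9,9)])],[])],[8,7,4],false,3,2,[]),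
    (false,[([(0,8,[(9,10),(10,10)])],[5,5])],[7],false,1,0,[2]),
    (true,[([(0,2,[(9,10)])],[3,3,3]),([(0,10,[(10,10),(2,2)])],[4,3])],[],false,1,0,[]),
    (true,[([(0,10,[(11,12)])],[4,3])],[7,6,5,1],false,3,6,[5,7,9]),
    (true,[([(0,14,[(11,12),(4,5)])],[3,3])],[6,5,4],false,3,4,[4,5]),
    (false,[([(0,14,[(11,12),(4,5)]),(0,12,[(4,4)])],[4])],[7,6],false,2,2,[3]),
    (true,[([(0,8,[(11,12),(4,5),(3,3)])],[5]),([(0,12,[(4,4)])],[2,2,2,2])],[],false,1,0,[]),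
    (true,[([(0,14,[(11,12),(4,5)])],[4,4]),([(0,4,[(5,5)])],[3,3,2])],[],false,1,0,[2]),
    (true,[([(0,14,[(11,12),(4,5)])],[5,5]),([(0,1,[(5,5)]),(0,3,[(2,2)])],[2])],[],false,1,0,[]),
    (true,[([(0,13,[(11,12),(6,7)])],[5])],[7,6,1],false,3,1,[4]),
    (true,[([(0,13,[(11,12),(6,7)])],[5]),([(0,12,[(4,4)])],[2,2,2,2,1])],[1],false,1,0,[]),
    (false,[([(0,8,[(11,12),(8,9)])],[5,5])],[7],false,1,0,[2]),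
    (true,[([(0,10,[(11,12)])],[4,3]),([(0,11,[(8,9),(2,2)])],[3,3,2])],[],false,1,0,[]),
    (false,[([(0,17,[(13,14)])],[4,4,3])],[7,6],false,2,6,[3,5,6,7]),
    (true,[([(0,14,[(13,14),(3,3)])],[3,3])],[6,5,4],false,3,4,[]),
    (true,[([(0,13,[(13,14),(4,5)])],[5])],[7,6,1],false,3,1,[4]),
    (true,[([(0,13,[(13,14),(4,5)])],[5]),([(0,12,[(4,4)])],[2,2,2,2,1])],[1],false,1,0,[]),
    (false,[([(0,8,[(13,14),(6,6)])],[5,5])],[7],false,1,0,[2]),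
    (true,[([(0,14,[(13,14),(2,2)])],[3,3]),([(0,1,[(6,6)])],[3,3,3])],[],false,1,0,[]),
    (false,[([(0,8,[(13,14),(7,7)])],[5,5])],[7],false,1,0,[]),
    (true,[([(0,14,[(15,17)])],[3,3])],[6,5,4],false,3,4,[5]),
    (true,[([(0,14,[(15,17)])],[4,4]),([(0,4,[(4,5)])],[3,3,2])],[],false,1,0,[2]),
    (true,[([(0,13,[(15,17),(2,2)])],[5]),([(0,1,[(4,5)])],[2,2,2,2])],[],false,1,0,[]),
    (false,[([(0,13,[(18,19)])],[5,5])],[8,1],false,2,1,[])]),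
  ([8,8,5,5,4,3,2,1], [
    (false,[],[8,8,5,5,4,3,2,1],true,6,4,[10,15,19]),
    (false,[([(0,2,[(7,10)])],[2])],[8,8,5,3],true,3,6,[6,10]),
    (false,[([(0,2,[(7,10)]),(0,1,[(4,6)])],[1])],[8,5,4,2],false,3,5,[4,6]),
    (true,[([(0,2,[(7,10)]),(0,2,[(4,6),(4,4)])],[])],[7,5,2,2],false,3,4,[4]),
    (true,[([(0,2,[(7,10)]),(0,2,[(4,6),(4,4)])],[]),([(0,12,[(4,4)])],[])],[7,5],false,2,3,[4]),
    (true,[([(0,2,[(7,10)]),(0,2,[(4,6),(4,4)])],[]),([(0,15,[(4,4),(3,4)])],[4,2,2])],[],false,1,0,[2]),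
    (true,[([(0,2,[(7,10)]),(0,2,[(4,6),(4,4)])],[]),([(0,12,[(4,4)]),(0,1,[(3,4),(2,2)])],[3,1])],[2],false,1,0,[]),
    (false,[([(0,2,[(7,10)]),(0,1,[(4,6)])],[1]),([(0,1,[(5,6)])],[3,2])],[8],false,1,0,[2,4,6]),
    (false,[([(0,2,[(7,10)]),(0,1,[(4,6)])],[1]),([(0,15,[(5,6),(2,2)])],[4,3,3,1])],[],false,1,0,[2]),
    (false,[([(0,2,[(7,10)]),(0,1,[(4,6)])],[1]),([(0,2,[(5,6),(2,2),(2,2)])],[4,3,1,1])],[],false,1,0,[2]),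
    (true,[([(0,2,[(7,10)]),(0,2,[(5,6),(2,2),(2,2)])],[]),([(0,1,[(4,6)]),(0,3,[(2,2)])],[3,2])],[2],false,1,0,[2]),
    (true,[([(0,2,[(7,10)]),(0,2,[(5,6),(2,2),(2,2)])],[]),([(0,1,[(4,6)]),(1,0,[(2,2),(2,2)])],[2])],[2],false,1,0,[2]),
    (true,[([(0,2,[(7,10)]),(0,2,[(5,6),(2,2),(2,2)])],[]),([(0,1,[(4,6)]),(1,0,[(2,2),(2,2),(2,2)])],[2])],[2],false,1,0,[]),
    (false,[([(0,2,[(7,10)]),(0,1,[(4,6)])],[1]),([(0,2,[(5,6),(3,4)])],[4,3,1,1])],[],false,1,0,[2,3,4]),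
    (true,[([(0,2,[(7,10)]),(0,2,[(5,6),(3,4)])],[]),([(0,1,[(4,6)]),(0,3,[(2,2)])],[3,2])],[2],false,1,0,[2]),
    (true,[([(0,2,[(7,10)]),(0,2,[(5,6),(3,4)])],[]),([(0,1,[(4,6)]),(1,0,[(2,2),(2,2)])],[2])],[2],false,1,0,[2]),
    (true,[([(0,2,[(7,10)]),(0,2,[(5,6),(3,4)])],[]),([(0,1,[(4,6)]),(1,0,[(2,2),(2,2),(2,2)])],[2])],[2],false,1,0,[]),
    (true,[([(0,2,[(7,10)]),(0,2,[(5,6),(3,4)])],[]),([(0,1,[(4,6)]),(0,3,[(3,3)])],[3,2])],[2],false,1,0,[2]),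
    (false,[([(0,2,[(7,10)]),(0,1,[(4,6)])],[1]),([(0,2,[(5,6),(3,4)]),(0,4,[(3,3),(2,2)])],[4])],[],false,1,0,[]),
    (false,[([(0,2,[(7,10)]),(0,1,[(4,6)])],[1]),([(0,2,[(5,6),(3,4)]),(0,4,[(4,4)])],[4])],[],false,1,0,[]),
    (false,[([(0,2,[(7,10)]),(0,1,[(4,6)])],[1]),([(0,1,[(5,6)]),(0,1,[(5,6)])],[1,1])],[5],false,1,0,[2]),
    (false,[([(0,2,[(7,10)]),(0,1,[(4,6)])],[1]),([(0,1,[(5,6)]),(0,1,[(5,6)]),(0,3,[(2,2)])],[])],[4],false,1,0,[]),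
    (true,[([(0,2,[(7,10)]),(0,2,[(7,10)])],[])],[7,5,2,2],false,3,4,[6,7]),
    (true,[([(0,2,[(7,10)]),(0,2,[(7,10)])],[]),([(0,1,[(4,6)])],[3,2,2,1])],[2],false,1,0,[2,3,4]),
    (true,[([(0,2,[(7,10)]),(0,2,[(7,10)])],[]),([(0,1,[(4,6)]),(0,3,[(2,2)])],[3,2])],[2],false,1,0,[2]),
    (true,[([(0,2,[(7,10)]),(0,2,[(7,10)])],[]),([(0,1,[(4,6)]),(1,0,[(2,2),(2,2)])],[2])],[2],false,1,0,[2]),
    (true,[([(0,2,[(7,10)]),(0,2,[(7,10)])],[]),([(0,1,[(4,6)]),(1,0,[(2,2),(2,2),(2,2)])],[2])],[2],false,1,0,[]),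
    (true,[([(0,2,[(7,10)]),(0,2,[(7,10)])],[]),([(0,1,[(4,6)]),(0,3,[(3,3)])],[3,2])],[2],false,1,0,[2]),
    (true,[([(0,2,[(7,10)]),(0,2,[(7,10)])],[]),([(0,1,[(4,6)]),(0,1,[(3,3),(2,2)])],[2])],[2],false,1,0,[]),
    (true,[([(0,2,[(7,10)]),(0,2,[(7,10)])],[]),([(0,1,[(4,6)]),(0,12,[(4,4)])],[3,1])],[2],false,1,0,[]),
    (true,[([(0,2,[(7,10)]),(0,2,[(7,10)])],[]),([(0,15,[(7,7)])],[4,2,2])],[],false,1,0,[]),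
    (false,[([(0,5,[(11,15)])],[2,1,1])],[8,5,4],false,3,4,[5,6,8,9]),
    (false,[([(0,5,[(11,15)]),(0,4,[(4,5)])],[])],[8,5,3],false,3,3,[5]),
    (false,[([(0,5,[(11,15)]),(0,4,[(4,5)])],[]),([(0,4,[(4,5)])],[3,3,2,2,1])],[],false,1,0,[3]),
    (false,[([(0,5,[(11,15)]),(0,4,[(4,5)])],[]),([(0,4,[(4,5)]),(0,3,[(2,3)])],[3,3,2])],[],false,1,0,[2]),
    (false,[([(0,5,[(11,15)]),(0,4,[(4,5)])],[]),([(0,4,[(4,5)]),(1,0,[(2,3),(2,2)])],[3,2])],[],false,1,0,[]),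
    (false,[([(0,8,[(11,15),(6,6)])],[1,1])],[8,5],false,2,3,[3,4]),
    (false,[([(0,8,[(11,15),(6,6)])],[1,1]),([(0,3,[(3,3)])],[2,2,2,2,1,1])],[],false,1,0,[2]),
    (false,[([(0,8,[(11,15),(6,6)])],[1,1]),([(0,3,[(3,3)]),(0,3,[(2,2)])],[2,2,2,1])],[],false,1,0,[]),
    (false,[([(0,8,[(11,15),(6,6)])],[1,1]),([(0,12,[(4,4)])],[2,2,2,1,1,1])],[],false,1,0,[]),
    (false,[([(0,5,[(11,15)])],[]),([(0,0,[(7,8)])],[3,3,3,2,2])],[],false,1,0,[3]),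
    (false,[([(0,5,[(11,15)]),(0,3,[(2,3)])],[1]),([(0,0,[(7,8)])],[3,3,1,1,1])],[],false,1,0,[2]),
    (false,[([(0,5,[(11,15)])],[3,1,1]),([(0,0,[(7,8)]),(1,0,[(2,3),(2,2)])],[1,1])],[],false,1,0,[]),
    (false,[([(0,5,[(11,15)])],[]),([(0,6,[(9,9)])],[3,3,2,2,2])],[],false,1,0,[]),
    (false,[([(0,13,[(16,19)])],[1,1,1])],[8,5,1],false,3,1,[4]),
    (false,[([(0,24,[(16,19)])],[5,1]),([(0,12,[(4,4)])],[2,1,1,1,1,1])],[],false,1,0,[])]),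
  ([8,8,6,5,4,3,2], [
    (false,[],[8,8,6,5,4,3,2],true,6,3,[10,13,17,19]),
    (false,[([(0,2,[(7,10)])],[4])],[8,8,6],false,1,0,[3,4,6,10]),
    (false,[([(0,2,[(7,10)]),(0,3,[(2,3)])],[4,1])],[8,6,4],false,1,0,[2,3]),
    (false,[([(0,2,[(7,10)]),(1,0,[(2,3),(2,2)])],[4])],[8,5,3],false,1,0,[2]),
    (false,[([(0,2,[(7,10)]),(1,1,[(2,3),(2,2),(2,2)])],[])],[8,5,3],false,1,0,[2]),
    (false,[([(0,2,[(7,10)]),(1,1,[(2,3),(2,2),(2,2),(2,2)])],[])],[8,5,3],false,2,8,[]),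
    (false,[([(0,2,[(7,10)]),(0,1,[(2,3),(3,3)])],[4])],[8,5,3],false,1,0,[2,3]),
    (false,[([(0,2,[(7,10)]),(1,1,[(2,3),(3,3),(2,2)])],[])],[8,5,3],false,2,8,[]),
    (false,[([(0,2,[(7,10)]),(1,1,[(2,3),(3,3),(3,3)])],[])],[8,5,3],false,3,3,[]),
    (true,[([(0,2,[(7,10)]),(0,12,[(4,4)])],[4])],[7,5,4,2],false,3,5,[4]),
    (false,[([(0,2,[(7,10)]),(0,15,[(4,4),(4,4)])],[])],[8,6,4],false,3,4,[4]),
    (true,[([(0,2,[(7,10)]),(0,12,[(4,4)])],[4]),([(0,12,[(4,4)]),(0,12,[(4,4)])],[1])],[7,2],true,2,3,[4]),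
    (false,[([(0,2,[(7,10)]),(0,15,[(4,4),(3,4)])],[]),([(0,12,[(4,4)]),(0,12,[(4,4)])],[1,1])],[8],false,1,0,[2]),
    (false,[([(0,2,[(7,10)]),(0,15,[(4,4),(4,4)])],[]),([(0,1,[(4,4)]),(0,1,[(3,4),(2,2)])],[3,3])],[],false,1,0,[]),
    (false,[([(0,2,[(7,10)]),(0,1,[(5,6)])],[4])],[8,5,3],false,2,8,[4,6]),
    (false,[([(0,2,[(7,10)]),(0,2,[(5,6),(3,4)])],[])],[8,5,3],false,3,3,[4]),
    (false,[([(0,2,[(7,10)]),(0,2,[(5,6),(3,4)])],[]),([(0,12,[(4,4)])],[2,1,1])],[8],false,1,0,[3,4]),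
    (false,[([(0,2,[(7,10)]),(0,2,[(5,6),(3,4)])],[]),([(0,12,[(4,4)]),(0,3,[(2,3)])],[1])],[8],false,1,0,[3]),
    (false,[([(0,2,[(7,10)]),(0,2,[(5,6),(3,4)])],[]),([(0,12,[(4,4)]),(0,3,[(2,3)]),(0,3,[(2,3)])],[2,1])],[3],false,1,0,[2]),
    (false,[([(0,2,[(7,10)]),(0,2,[(5,6),(3,4)])],[]),([(0,12,[(4,4)]),(0,3,[(2,3)]),(0,3,[(2,3)]),(0,3,[(2,2)])],[])],[3],false,1,0,[]),
    (false,[([(0,2,[(7,10)]),(0,2,[(5,6),(3,4)])],[]),([(0,12,[(4,4)]),(0,12,[(4,4)])],[2,1,1,1])],[3],false,1,0,[]),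
    (false,[([(0,2,[(7,10)]),(0,1,[(5,6)])],[4]),([(0,1,[(5,6)])],[3,3,2,1,1])],[],false,1,0,[3,5]),
    (false,[([(0,2,[(7,10)]),(0,1,[(5,6)])],[4]),([(0,1,[(5,6)]),(0,3,[(2,3)])],[3,3,1])],[],false,1,0,[3]),
    (false,[([(0,2,[(7,10)]),(1,1,[(2,3),(2,3)])],[]),([(0,1,[(5,6)]),(0,1,[(5,6)])],[3,1])],[],false,1,0,[2,3]),
    (false,[([(0,2,[(7,10)]),(1,1,[(2,3),(2,3),(2,2)])],[]),([(0,1,[(5,6)]),(0,1,[(5,6)])],[3,1])],[],false,1,0,[2]),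
    (false,[([(0,2,[(7,10)]),(1,1,[(2,3),(2,3),(2,2),(2,2)])],[]),([(0,1,[(5,6)]),(0,1,[(5,6)])],[3,1])],[],false,1,0,[]),
    (false,[([(0,2,[(7,10)]),(1,1,[(2,3),(2,3),(3,3)])],[]),([(0,1,[(5,6)]),(0,1,[(5,6)])],[3,1])],[],false,1,0,[]),
    (false,[([(0,2,[(7,10)]),(0,1,[(5,6)])],[4]),([(0,1,[(5,6)]),(0,4,[(4,5)])],[3,2])],[],false,1,0,[2]),
    (false,[([(0,2,[(7,10)]),(0,15,[(5,6),(2,2)])],[]),([(0,1,[(5,6)]),(0,1,[(4,5)])],[3,3])],[],false,1,0,[]),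
    (false,[([(0,2,[(7,10)]),(0,2,[(7,10)])],[])],[8,5,3],false,3,3,[6,7]),
    (false,[([(0,2,[(7,10)]),(0,2,[(7,10)])],[]),([(0,1,[(4,6)])],[3,3,2,1,1])],[],false,1,0,[2,3,4]),
    (false,[([(0,2,[(7,10)]),(0,2,[(7,10)])],[]),([(0,1,[(4,6)]),(0,3,[(2,2)])],[3,3,1])],[],false,1,0,[2]),
    (false,[([(0,2,[(7,10)]),(0,2,[(7,10)])],[]),([(0,1,[(4,6)]),(1,0,[(2,2),(2,2)])],[3,1])],[],false,1,0,[2]),
    (false,[([(0,2,[(7,10)]),(0,2,[(7,10)])],[]),([(0,1,[(4,6)]),(1,0,[(2,2),(2,2),(2,2)])],[3,1])],[],false,1,0,[]),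
    (false,[([(0,2,[(7,10)]),(0,2,[(7,10)])],[]),([(0,1,[(4,6)]),(0,3,[(3,3)])],[3,3,1])],[],false,1,0,[2]),
    (false,[([(0,2,[(7,10)]),(0,2,[(7,10)])],[]),([(0,1,[(4,6)]),(0,4,[(3,3),(2,2)])],[3,2])],[],false,1,0,[]),
    (false,[([(0,2,[(7,10)]),(0,2,[(7,10)])],[]),([(0,1,[(4,6)]),(0,4,[(4,4)])],[3,2])],[],false,1,0,[]),
    (false,[([(0,2,[(7,10)]),(0,2,[(7,10)])],[]),([(0,0,[(7,7)])],[3,2,1,1,1])],[],false,1,0,[]),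
    (true,[([(0,9,[(11,13)])],[1,1,1])],[7,6,5,2],false,4,2,[6,9]),
    (true,[([(0,9,[(11,13)]),(0,1,[(5,6)])],[])],[7,5,3,2],false,4,2,[5]),
    (false,[([(0,9,[(11,13)]),(0,1,[(5,6)])],[1]),([(0,4,[(5,5)])],[3,3,2,2,1])],[],false,1,0,[]),
    (true,[([(0,9,[(11,13)])],[1,1,1]),([(0,2,[(7,9)])],[4,3,3])],[],false,1,0,[3]),
    (true,[([(0,9,[(11,13)]),(0,3,[(2,3)])],[1]),([(0,2,[(7,9)])],[4,3,2])],[],false,1,0,[2]),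
    (true,[([(0,9,[(11,13)]),(1,0,[(2,3),(2,2)])],[]),([(0,2,[(7,9)])],[4,2,1])],[],false,1,0,[]),
    (true,[([(0,14,[(14,17)])],[5,2])],[7,3,2],false,3,2,[5,6]),
    (true,[([(0,14,[(14,17)])],[5,2]),([(0,4,[(4,5)])],[3,2,1,1])],[],false,1,0,[3]),
    (true,[([(0,14,[(14,17)])],[5,2]),([(0,4,[(4,5)]),(0,3,[(2,3)])],[3,1])],[],false,1,0,[2]),
    (true,[([(0,14,[(14,17)])],[5,2]),([(0,4,[(4,5)]),(1,0,[(2,3),(2,2)])],[1])],[],false,1,0,[]),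
    (true,[([(0,14,[(14,17)])],[5,2]),([(0,1,[(6,6)])],[3,1,1,1])],[],false,1,0,[]),
    (false,[([(0,13,[(18,19)])],[1,1,1])],[8,6],false,2,1,[])]),
  ([8,8,7,6,4,3,1], [
    (false,[],[8,8,7,6,4,3,1],false,5,4,[6,8,11,15,19]),
    (true,[([(0,1,[(6,6)])],[3])],[7,6,6,5,4],false,4,4,[6]),
    (true,[([(0,1,[(6,6)]),(0,1,[(5,6)])],[])],[7,6,5,4,3],false,5,3,[6]),
    (true,[([(0,1,[(6,6)]),(0,1,[(5,6)])],[]),([(0,1,[(6,6)])],[3,3])],[7,6],false,2,4,[3,5]),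
    (true,[([(0,8,[(6,6),(5,6),(6,6),(3,3)])],[6])],[6,4],false,2,2,[3]),
    (true,[([(0,8,[(6,6),(5,6),(6,6),(3,3)])],[6]),([(0,3,[(3,3)])],[2,2,2,1])],[],false,1,0,[]),
    (true,[([(0,1,[(6,6)]),(0,1,[(5,6)])],[]),([(0,1,[(6,6)]),(0,4,[(4,5)])],[3])],[6,5],false,2,1,[]),
    (true,[([(0,0,[(7,8)])],[2,1,1])],[7,6,5,4,3],false,5,3,[7,8]),
    (true,[([(0,5,[(7,8),(6,7)])],[5])],[7,6,4],false,3,4,[4,6,7]),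
    (false,[([(0,0,[(7,8)]),(0,11,[(6,7),(4,4)])],[3])],[8,4,3],false,3,3,[4]),
    (false,[([(0,5,[(7,8),(6,7)]),(0,12,[(4,4)])],[4]),([(0,12,[(4,4)])],[2,2,2,2,1,1])],[],false,1,0,[2]),
    (true,[([(0,8,[(7,8),(6,7),(4,4),(2,2)])],[6]),([(0,12,[(4,4)])],[2,2,1,1])],[],false,1,0,[]),
    (true,[([(0,8,[(7,8),(6,7),(5,6)])],[6])],[6,4],false,2,3,[3,4]),
    (true,[([(0,8,[(7,8),(6,7),(5,6)])],[6]),([(0,3,[(3,3)])],[2,2,2,1])],[],false,1,0,[2]),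
    (true,[([(0,8,[(7,8),(6,7),(5,6)])],[6]),([(0,3,[(3,3)]),(0,3,[(2,2)])],[2,2])],[],false,1,0,[]),
    (true,[([(0,8,[(7,8),(6,7),(5,6)])],[6]),([(0,12,[(4,4)])],[2,2,1,1])],[],false,1,0,[]),
    (true,[([(0,5,[(7,8),(6,7)])],[5]),([(0,0,[(7,7)])],[3,3,2,1])],[],false,1,0,[2]),
    (true,[([(0,5,[(7,8),(6,7)])],[5]),([(0,0,[(7,7)]),(0,3,[(2,2)])],[3,3])],[],false,1,0,[]),
    (true,[([(0,0,[(7,8)]),(0,0,[(8,8)])],[])],[7,5,4,3,2],false,5,2,[6]),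
    (true,[([(0,14,[(7,8),(8,8)])],[5,2]),([(0,1,[(6,6)])],[3,3,1])],[],false,1,0,[]),
    (true,[([(0,11,[(9,11)])],[4,1])],[7,6,5,3],false,4,3,[5,6,8,10,11]),
    (false,[([(0,11,[(9,11)]),(0,1,[(5,5)])],[2])],[8,7,3],false,3,3,[5]),
    (true,[([(0,8,[(9,11),(5,5),(4,5)])],[6])],[6,4],false,2,3,[3,4]),
    (true,[([(0,8,[(9,11),(5,5),(4,5)])],[6]),([(0,3,[(3,3)])],[2,2,2,1])],[],false,1,0,[2]),
    (true,[([(0,8,[(9,11),(5,5),(4,5)])],[6]),([(0,3,[(3,3)]),(0,3,[(2,2)])],[2,2])],[],false,1,0,[]),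
    (true,[([(0,8,[(9,11),(5,5),(4,5)])],[6]),([(0,12,[(4,4)])],[2,2,1,1])],[],false,1,0,[]),
    (true,[([(0,14,[(9,11),(6,6)])],[5,2])],[6,4,3],false,3,3,[6]),
    (true,[([(0,14,[(9,11),(6,6)])],[5,2]),([(0,1,[(4,6)])],[3,3,1])],[],false,1,0,[2,3]),
    (false,[([(0,11,[(9,11)]),(0,0,[(6,6),(2,2)])],[3]),([(0,1,[(4,6)])],[3,3,1,1,1])],[],false,1,0,[2]),
    (true,[([(0,5,[(9,11),(2,2),(2,2)])],[5,5]),([(0,1,[(6,6)]),(0,1,[(4,6)])],[])],[],false,1,0,[]),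
    (true,[([(0,5,[(9,11),(3,3)])],[5,5]),([(0,1,[(6,6)]),(0,1,[(4,6)])],[])],[],false,1,0,[]),
    (false,[([(0,11,[(9,11)]),(0,0,[(7,8)])],[3])],[8,4,3],false,3,3,[5]),
    (false,[([(0,11,[(9,11)]),(0,0,[(7,8)])],[3]),([(0,4,[(4,5)])],[3,3,2,1,1])],[],false,1,0,[2]),
    (false,[([(0,11,[(9,11)]),(0,0,[(7,8)])],[3]),([(0,4,[(4,5)]),(0,3,[(2,2)])],[3,3,1])],[],false,1,0,[]),
    (true,[([(0,8,[(9,11),(9,10)])],[6])],[6,4],false,2,2,[3]),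
    (true,[([(0,8,[(9,11),(9,10)])],[6]),([(0,3,[(3,3)])],[2,2,2,1])],[],false,1,0,[]),
    (true,[([(0,11,[(9,11)])],[4]),([(0,11,[(11,11)])],[4,4,3])],[],false,1,0,[]),
    (true,[([(0,5,[(12,15)])],[5])],[7,6,4],false,3,4,[4,6,8]),
    (false,[([(0,5,[(12,15)]),(0,12,[(4,4)])],[4])],[8,6],false,2,4,[3,4]),
    (false,[([(0,5,[(12,15)]),(0,12,[(4,4)])],[4]),([(0,3,[(3,3)])],[2,2,2,2,2,1])],[],false,1,0,[3]),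
    (true,[([(0,5,[(12,15)])],[5,5]),([(0,1,[(4,4)]),(0,1,[(3,3),(2,3)])],[])],[],false,1,0,[2]),
    (true,[([(0,8,[(12,15),(4,4),(2,2)])],[6]),([(0,3,[(3,3)]),(0,3,[(2,3)])],[2,2])],[],false,1,0,[]),
    (false,[([(0,5,[(12,15)]),(0,12,[(4,4)])],[4]),([(0,12,[(4,4)])],[2,2,2,2,1,1])],[],false,1,0,[2]),
    (true,[([(0,8,[(12,15),(4,4),(2,2)])],[6]),([(0,12,[(4,4)])],[2,2,1,1])],[],false,1,0,[]),
    (true,[([(0,8,[(12,15),(5,6)])],[6])],[6,4],false,2,3,[3,4]),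
    (true,[([(0,8,[(12,15),(5,6)])],[6]),([(0,3,[(3,3)])],[2,2,2,1])],[],false,1,0,[2]),
    (true,[([(0,8,[(12,15),(5,6)])],[6]),([(0,3,[(3,3)]),(0,3,[(2,2)])],[2,2])],[],false,1,0,[]),
    (true,[([(0,8,[(12,15),(5,6)])],[6]),([(0,12,[(4,4)])],[2,2,1,1])],[],false,1,0,[]),
    (true,[([(0,5,[(12,15)])],[5]),([(0,0,[(7,8)])],[3,3,2,1])],[],false,1,0,[2]),
    (true,[([(0,5,[(12,15)])],[5]),([(0,0,[(7,8)]),(0,3,[(2,2)])],[3,3])],[],false,1,0,[]),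
    (true,[([(0,13,[(16,19)])],[1])],[7,6,4],false,3,3,[4]),
    (true,[([(0,13,[(16,19)])],[1]),([(0,12,[(4,4)])],[2,2,1,1])],[7],false,1,0,[])]),
  ([8,8,7,6,5,2,1], [
    (false,[],[8,8,7,6,5,2,1],true,5,4,[6,8,10,13,17,19]),
    (false,[([(0,1,[(6,6)])],[1,1,1,1,1])],[8,7,6,5],false,4,5,[6]),
    (true,[([(0,1,[(6,6)]),(0,1,[(5,6)])],[2])],[6,5,5,4,3],false,4,3,[6]),
    (true,[([(0,1,[(6,6)]),(0,1,[(5,6)])],[2]),([(0,1,[(5,6)])],[3,3])],[6,5],false,2,5,[4,6]),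
    (false,[([(0,2,[(6,6),(3,4)])],[3,3,3,2]),([(0,1,[(5,6)]),(0,1,[(5,6)])],[2,2])],[],false,1,0,[2,3,4]),
    (false,[([(0,2,[(6,6),(3,4)])],[3,3,3,3]),([(0,1,[(5,6)]),(0,1,[(5,6)]),(0,3,[(2,2)])],[])],[],false,1,0,[2]),
    (true,[([(0,0,[(6,6),(2,2)]),(0,1,[(5,6)])],[]),([(0,1,[(5,6)]),(0,1,[(3,4),(2,2)])],[2])],[5,4],false,2,1,[]),
    (false,[([(0,2,[(6,6),(3,4)])],[3,3,3,3]),([(0,1,[(5,6)]),(0,1,[(5,6)]),(0,3,[(3,3)])],[])],[],false,1,0,[2]),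
    (false,[([(0,0,[(6,6),(2,2)]),(0,2,[(5,6),(3,4)])],[3]),([(0,1,[(5,6)]),(0,3,[(3,3)])],[3,2,2])],[],false,1,0,[]),
    (false,[([(0,2,[(6,6),(3,4)])],[3,3,3,2]),([(0,1,[(5,6)]),(0,1,[(5,6)]),(0,12,[(4,4)])],[])],[],false,1,0,[]),
    (true,[([(0,1,[(6,6)]),(0,1,[(5,6)])],[]),([(0,1,[(5,6)]),(0,1,[(5,6)])],[3])],[5,5],false,1,0,[2]),
    (false,[([(0,0,[(6,6),(2,2)]),(0,1,[(5,6)])],[3,3]),([(0,1,[(5,6)]),(0,1,[(5,6)])],[2,2])],[1],false,1,0,[]),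
    (true,[([(0,0,[(7,8)])],[2,2])],[7,6,5,4,3],false,5,3,[7,8]),
    (false,[([(0,5,[(7,8),(6,7)])],[3,3,1])],[8,7],false,2,7,[3,4,6,7]),
    (false,[([(0,0,[(7,8)]),(0,2,[(6,7),(3,3)])],[3])],[8,6,2],false,3,2,[]),
    (false,[([(0,0,[(7,8)]),(0,11,[(6,7),(4,4)])],[1])],[8,7,2],false,3,2,[4]),
    (false,[([(0,0,[(7,8)]),(0,5,[(6,7),(4,4),(4,4)])],[])],[8,6],false,2,1,[]),
    (false,[([(0,8,[(7,8),(6,7),(5,6)])],[4,4])],[8],false,1,0,[3,4]),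
    (false,[([(0,0,[(7,8)]),(0,2,[(6,7),(2,3)])],[3]),([(0,1,[(5,6)])],[3,2,2,2,1])],[],false,1,0,[3]),
    (false,[([(0,0,[(7,8)]),(0,2,[(6,7),(2,3)])],[3]),([(0,1,[(5,6)]),(0,3,[(2,3)])],[3,2,2])],[],false,1,0,[2]),
    (false,[([(0,0,[(7,8)]),(0,5,[(6,7),(5,6),(2,2)])],[]),([(0,3,[(2,3)]),(0,3,[(2,3)])],[2,2,2,2])],[],false,1,0,[]),
    (true,[([(0,8,[(7,8),(6,7),(5,6)])],[6]),([(0,12,[(4,4)])],[2,2,2])],[],false,1,0,[]),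
    (false,[([(0,5,[(7,8),(6,7)]),(0,0,[(7,7)])],[])],[8,6],false,2,1,[]),
    (false,[([(0,0,[(7,8)]),(0,0,[(8,8)])],[3,1])],[8,6,2,1],false,4,1,[6]),
    (true,[([(0,18,[(7,8),(8,8),(5,6)])],[6])],[5,4],false,2,1,[]),
    (false,[([(0,2,[(9,10)])],[2,2,1,1])],[8,7,6],false,3,6,[6,8,10]),
    (false,[([(0,11,[(9,10)]),(0,1,[(4,6)])],[3])],[8,7,2],false,2,7,[3,4,5,6]),
    (false,[([(0,9,[(9,10),(3,3)]),(0,1,[(4,6)])],[3])],[8,6,1],true,3,2,[]),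
    (false,[([(0,11,[(9,10)]),(0,2,[(4,6),(4,4)])],[])],[8,7,1],false,2,4,[3,4]),
    (true,[([(0,9,[(9,10),(3,3)]),(0,1,[(4,6)])],[]),([(0,12,[(4,4)])],[2,2,2])],[5,3],false,2,2,[3]),
    (true,[([(0,14,[(9,10),(4,4),(3,3)])],[5]),([(0,1,[(4,6)]),(0,3,[(3,3)])],[3,3])],[],false,1,0,[]),
    (false,[([(0,11,[(9,10)]),(0,2,[(4,6),(4,4)])],[]),([(0,12,[(4,4)])],[2,2,2,2,2,1])],[1],false,1,0,[2]),
    (false,[([(0,11,[(9,10)]),(0,2,[(4,6),(4,4)])],[]),([(0,1,[(4,4),(2,2)])],[2,2,2,2,2])],[],false,1,0,[]),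
    (false,[([(0,8,[(9,10),(4,6),(5,5)])],[4,4])],[8],false,1,0,[3,4]),
    (false,[([(0,2,[(9,10)])],[3,3,3,3]),([(0,1,[(4,6)]),(0,1,[(5,5)]),(0,3,[(2,3)])],[])],[],false,1,0,[2,3]),
    (true,[([(0,14,[(9,10),(5,5),(2,2)])],[5]),([(0,1,[(4,6)]),(0,3,[(2,3)])],[3,3])],[],false,1,0,[2]),
    (true,[([(0,14,[(9,10),(5,5),(2,2)])],[5]),([(0,1,[(4,6)]),(1,0,[(2,3),(2,2)])],[3])],[],false,1,0,[]),
    (false,[([(0,9,[(9,10),(3,3)]),(0,1,[(4,6)])],[3]),([(0,1,[(5,5)]),(0,3,[(2,3)])],[2,2,2])],[],false,1,0,[]),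
    (true,[([(0,8,[(9,10),(4,6),(5,5)])],[6]),([(0,12,[(4,4)])],[2,2,2])],[],false,1,0,[]),
    (true,[([(0,14,[(9,10),(6,6)])],[5]),([(0,1,[(4,6)])],[3,3,2,1])],[],false,1,0,[3]),
    (true,[([(0,14,[(9,10),(6,6)])],[5]),([(0,1,[(4,6)]),(0,3,[(2,3)])],[3,3])],[],false,1,0,[2]),
    (true,[([(0,14,[(9,10),(6,6)])],[5]),([(0,1,[(4,6)]),(1,0,[(2,3),(2,2)])],[3])],[],false,1,0,[]),
    (false,[([(0,2,[(9,10)]),(0,0,[(7,8)])],[3])],[8,6,2],false,3,2,[5]),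
    (false,[([(0,5,[(9,10),(4,5)]),(0,0,[(7,8)])],[])],[8,6],false,2,1,[]),
    (false,[([(0,2,[(9,10)]),(0,11,[(9,10)])],[])],[8,7,1],false,3,1,[]),
    (true,[([(0,9,[(11,13)])],[2])],[7,6,5,4],false,4,4,[6,8,9]),
    (false,[([(0,9,[(11,13)]),(0,1,[(5,6)])],[3])],[8,6,1],true,3,2,[5]),
    (false,[([(0,9,[(11,13)]),(0,1,[(5,6)])],[3]),([(0,4,[(4,5)])],[2,2,2,2,2])],[],false,1,0,[2]),
    (false,[([(0,9,[(11,13)]),(0,1,[(5,6)])],[3]),([(0,1,[(4,5)]),(0,3,[(2,2)])],[2,2,2])],[],false,1,0,[]),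
    (false,[([(0,9,[(11,13)]),(0,0,[(7,8)])],[1])],[8,6,1],false,3,1,[]),
    (false,[([(0,18,[(11,13),(9,9)])],[4,3])],[8],false,1,0,[]),
    (true,[([(0,14,[(14,17)])],[5])],[7,5,3],false,3,3,[6]),
    (true,[([(0,14,[(14,17)])],[5]),([(0,1,[(4,6)])],[3,3,2,1])],[],false,1,0,[3]),
    (true,[([(0,14,[(14,17)])],[5]),([(0,1,[(4,6)]),(0,3,[(2,3)])],[3,3])],[],false,1,0,[2]),
    (true,[([(0,14,[(14,17)])],[5]),([(0,1,[(4,6)]),(1,0,[(2,3),(2,2)])],[3])],[],false,1,0,[]),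
    (false,[([(0,13,[(18,19)])],[4,4,1])],[8,1],false,2,1,[])]),
  ([9,6,5,5,5,3,2,1], [
    (false,[],[9,6,5,5,5,3,2,1],true,5,5,[8,11,15,19]),
    (true,[([(0,15,[(6,8)])],[1])],[8,7,6,5,1],false,4,6,[5,6,8]),
    (true,[([(0,15,[(6,8)]),(0,1,[(5,5)])],[2])],[7,6,5,1,1],false,3,6,[4,5]),
    (false,[([(0,15,[(6,8)]),(0,4,[(5,5)]),(0,12,[(4,4)])],[])],[6,5,5,3],false,3,3,[4]),
    (true,[([(0,8,[(6,8),(5,5),(4,4),(4,4)])],[4,4])],[5,1,1],true,2,3,[4]),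
    (false,[([(0,15,[(6,8)]),(0,2,[(5,5),(3,4)])],[1]),([(0,12,[(4,4)]),(0,12,[(4,4)])],[2])],[6,1],false,2,1,[]),
    (false,[([(0,15,[(6,8)]),(0,2,[(5,5),(5,5)])],[1])],[6,5,5,1],false,2,5,[3,4,5]),
    (true,[([(0,8,[(6,8),(5,5),(5,5),(3,3)])],[4,4])],[5,1,1],true,2,3,[3]),
    (true,[([(0,8,[(6,8),(5,5),(5,5),(3,3)])],[4,4]),([(0,3,[(3,3)])],[1,1,1])],[1],false,1,0,[2]),
    (false,[([(0,8,[(6,8),(5,5),(5,5),(3,3)]),(0,4,[(3,3),(2,2)])],[])],[5,5],false,1,0,[]),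
    (false,[([(0,15,[(6,8)]),(0,2,[(5,5),(5,5)])],[1]),([(0,12,[(4,4)])],[2,2,2])],[6,1],true,2,2,[3]),
    (false,[([(0,8,[(6,8),(5,5),(5,5),(3,3)])],[3,1,1]),([(0,12,[(4,4)])],[2,2,2])],[],false,1,0,[]),
    (true,[([(0,15,[(6,8)])],[1]),([(0,5,[(5,5),(5,5),(5,5)])],[4,4,4])],[],false,1,0,[2]),
    (false,[([(0,5,[(6,8),(5,5),(2,2)])],[2]),([(0,4,[(5,5)]),(0,4,[(5,5)])],[3,3,3])],[],false,1,0,[]),
    (true,[([(0,15,[(6,8)]),(0,1,[(6,6)])],[2])],[7,6,5,1,1],false,4,2,[6]),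
    (false,[([(0,15,[(6,8)]),(0,25,[(6,6),(5,6)])],[])],[6,5,5],false,2,4,[3,5]),
    (true,[([(0,15,[(6,8)]),(0,1,[(6,6)])],[2]),([(0,1,[(5,6)]),(0,3,[(3,3)])],[2,2])],[6,1],true,2,2,[3]),
    (true,[([(0,26,[(6,8),(6,6),(3,3)])],[3,3]),([(0,1,[(5,6)]),(0,3,[(3,3)])],[2,2])],[],false,1,0,[]),
    (false,[([(0,15,[(6,8)]),(0,11,[(6,6),(4,5)])],[3]),([(0,1,[(5,6)])],[2,1])],[5],false,1,0,[2]),
    (false,[([(0,2,[(6,8),(2,2)]),(0,11,[(6,6),(4,5)])],[1]),([(0,1,[(5,6)])],[2,1])],[5],false,1,0,[]),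
    (false,[([(0,15,[(6,8)]),(0,15,[(7,8)])],[3])],[6,5,5,1],false,2,7,[3,5,7,8]),
    (false,[([(0,15,[(6,8)]),(0,11,[(7,8),(3,3)])],[3])],[5,5,3,1],true,3,4,[]),
    (false,[([(0,15,[(6,8)]),(0,15,[(7,8)])],[3]),([(0,1,[(4,5)])],[2,2,2])],[5],false,1,0,[3,5]),
    (false,[([(0,15,[(6,8)]),(0,4,[(4,5)])],[2,2]),([(0,0,[(7,8)]),(0,3,[(2,3)])],[3])],[5],false,1,0,[2,3]),
    (true,[([(0,2,[(6,8),(2,2)]),(0,0,[(7,8)])],[3]),([(0,4,[(4,5)]),(0,3,[(2,3)])],[])],[6,1],true,2,2,[]),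
    (false,[([(0,15,[(6,8)]),(0,11,[(7,8),(3,3)])],[4]),([(0,4,[(4,5)]),(0,3,[(2,3)])],[])],[5],false,1,0,[2]),
    (true,[([(0,2,[(6,8),(2,2)]),(0,11,[(7,8),(3,3)])],[]),([(0,4,[(4,5)])],[1,1]),([(0,3,[(2,3)])],[1,1,1,1,1])],[],false,1,0,[]),
    (true,[([(0,15,[(6,8)])],[1]),([(0,0,[(7,8)]),(0,2,[(4,5),(4,5)])],[3])],[6],false,1,0,[2]),
    (true,[([(0,2,[(6,8),(2,2)]),(0,0,[(7,8)])],[3]),([(0,2,[(4,5),(4,5)])],[2,2])],[1],false,1,0,[]),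
    (true,[([(0,5,[(6,8),(6,7)]),(0,0,[(7,8)])],[])],[6,5,1,1],false,3,2,[]),
    (true,[([(0,15,[(6,8)])],[1]),([(0,14,[(7,8),(8,8)])],[4,4,2])],[],false,1,0,[]),
    (true,[([(0,25,[(9,11)])],[2,2])],[8,6,5,1],false,3,6,[6,10,11]),
    (true,[([(0,11,[(9,11)]),(0,1,[(4,6)])],[3])],[7,5,2,1,1],false,4,2,[6]),
    (true,[([(0,26,[(9,11),(5,6)])],[3,3]),([(0,1,[(4,6)])],[2,2,2,1])],[],false,1,0,[3,4]),
    (true,[([(0,26,[(9,11),(5,6)])],[3,3]),([(0,1,[(4,6)]),(0,3,[(2,3)])],[2,2])],[],false,1,0,[2,3]),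
    (false,[([(0,11,[(9,11)]),(0,15,[(5,6),(2,2)])],[3]),([(0,1,[(4,6)]),(0,3,[(2,3)])],[])],[5],false,1,0,[2]),
    (true,[([(0,11,[(9,11)]),(0,1,[(4,6)])],[3]),([(0,2,[(5,6),(2,2),(2,2)]),(0,3,[(2,3)])],[2])],[1],false,1,0,[]),
    (true,[([(0,11,[(9,11)]),(0,1,[(4,6)])],[3]),([(0,2,[(5,6),(3,3)]),(0,3,[(2,3)])],[2])],[1],false,1,0,[]),
    (true,[([(0,26,[(9,11),(5,6)])],[3,3]),([(0,1,[(4,6)]),(0,12,[(4,4)])],[2,1])],[],false,1,0,[]),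
    (false,[([(0,11,[(9,11)]),(0,2,[(7,10)])],[1])],[5,5,3,1],true,3,4,[5]),
    (true,[([(0,11,[(9,11)]),(0,2,[(7,10)])],[]),([(0,4,[(4,5)])],[1,1])],[7,1],false,2,1,[]),
    (false,[([(0,18,[(9,11),(11,11)])],[4,1,1])],[5,3],false,1,0,[]),
    (true,[([(0,5,[(12,15)])],[3,3])],[8,5,1,1],true,3,3,[4,6,8]),
    (false,[([(0,5,[(12,15)]),(0,4,[(4,4)])],[3])],[5,5,3],true,2,4,[4]),
    (true,[([(0,5,[(12,15)])],[3,3]),([(0,15,[(4,4),(3,4)])],[2,2,2,1])],[],false,1,0,[3]),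
    (true,[([(0,5,[(12,15)])],[3,3]),([(0,15,[(4,4),(3,4)]),(0,3,[(2,3)])],[2,2])],[],false,1,0,[2]),
    (true,[([(0,5,[(12,15)])],[3,3]),([(0,12,[(4,4)]),(0,1,[(3,4),(2,2)]),(0,3,[(2,3)])],[1])],[1],false,1,0,[]),
    (true,[([(0,8,[(12,15),(5,6)])],[4,4])],[5,1,1],true,2,3,[3,4]),
    (true,[([(0,8,[(12,15),(5,6)])],[4,4]),([(0,3,[(3,3)])],[1,1,1])],[1],false,1,0,[2]),
    (false,[([(0,8,[(12,15),(5,6)]),(0,4,[(3,3),(2,2)])],[])],[5,5],false,1,0,[]),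
    (false,[([(0,8,[(12,15),(5,6)])],[3,1,1]),([(0,12,[(4,4)])],[2,2,2])],[],false,1,0,[]),
    (true,[([(0,5,[(12,15)]),(0,0,[(7,8)])],[])],[6,5,1,1],false,2,1,[]),
    (false,[([(0,13,[(16,19)])],[3,1,1,1])],[5,5,1],true,2,3,[3,4]),
    (false,[([(0,18,[(16,19),(3,3)])],[4,1,1])],[5,3],false,2,1,[]),
    (false,[([(0,13,[(16,19)])],[3,1,1,1]),([(0,12,[(4,4)])],[2,2,2])],[1],false,1,0,[])])]

theorem cj6e_2_ok : runAllJ S40 R40 F40 18 cj6e_2 = true := by decide +kernel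

noncomputable def cj6e_3 : List (List ℕ × List NdJ) := [
  ([9,7,6,6,5,2,1], [
    (false,[],[9,7,6,6,5,2,1],true,5,4,[6,8,11,14,17,19]),
    (false,[([(0,1,[(6,6)])],[1,1,1])],[9,7,6,5],false,4,5,[6]),
    (true,[([(0,25,[(6,6),(5,6)])],[2,2])],[6,5,5,4],false,3,4,[5,6]),
    (true,[([(0,11,[(6,6),(4,5)]),(0,1,[(5,6)])],[])],[6,5,5,2,1],false,3,3,[5]),
    (true,[([(0,11,[(6,6),(4,5)]),(0,1,[(5,6)])],[]),([(0,4,[(4,5)])],[2,1])],[6,5],false,2,3,[4]),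
    (false,[([(0,11,[(6,6),(4,5)]),(0,2,[(5,6),(3,4)])],[1]),([(0,1,[(4,5)])],[2,2,2,2])],[],false,1,0,[2]),
    (false,[([(0,11,[(6,6),(4,5)]),(0,4,[(4,5)])],[3,3]),([(0,1,[(5,6)]),(0,1,[(3,4),(2,2)])],[2])],[],false,1,0,[]),
    (false,[([(0,22,[(6,6),(6,6)]),(0,1,[(5,6)])],[4])],[7,6],false,2,4,[4,5]),
    (false,[([(0,22,[(6,6),(6,6)]),(0,2,[(5,6),(3,4)])],[])],[7,6],false,2,2,[3]),
    (false,[([(0,22,[(6,6),(6,6)]),(0,2,[(5,6),(3,4)])],[]),([(0,3,[(3,3)])],[2,2,2,2,2])],[],false,1,0,[]),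
    (false,[([(0,25,[(6,6),(5,6)]),(0,11,[(6,6),(5,5)])],[])],[7,6],false,1,0,[]),
    (true,[([(0,15,[(7,8)])],[1])],[7,6,5,5,4],false,4,4,[6,8]),
    (false,[([(0,15,[(7,8)]),(0,1,[(5,6)])],[2,2])],[7,6,5],false,3,5,[4,5,6]),
    (true,[([(0,0,[(7,8)]),(0,2,[(5,6),(4,4)])],[])],[5,5,5,2,1],true,3,4,[4]),
    (true,[([(0,0,[(7,8)]),(0,2,[(5,6),(4,4)])],[]),([(0,12,[(4,4)])],[2,2,2])],[5,2,1],false,3,1,[]),
    (true,[([(0,0,[(7,8)]),(0,4,[(5,5)])],[3]),([(0,1,[(5,6)])],[2,2,2])],[5,2,1],true,3,2,[4,5]),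
    (false,[([(0,22,[(7,8),(5,5)]),(0,2,[(5,6),(4,4)])],[])],[7,6],false,2,1,[]),
    (true,[([(0,22,[(7,8),(5,5)])],[3,3]),([(0,1,[(5,6)]),(0,1,[(5,5)])],[])],[5],false,1,0,[]),
    (true,[([(0,8,[(7,8),(5,6),(6,6)])],[4])],[5,5,1],true,2,3,[4]),
    (true,[([(0,0,[(7,8)]),(0,2,[(5,6),(3,4)])],[]),([(0,1,[(6,6)])],[1,1])],[5,5],false,1,0,[2]),
    (false,[([(0,0,[(7,8)]),(0,2,[(5,6),(3,4)])],[3,1]),([(0,0,[(6,6),(2,2)])],[2,2,2])],[],false,1,0,[]),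
    (false,[([(0,0,[(7,8)]),(0,0,[(7,8)])],[3,1,1])],[6,6,2,1],true,3,3,[6,7]),
    (true,[([(0,0,[(7,8)]),(0,0,[(7,8)])],[1]),([(0,1,[(4,6)])],[1,1])],[5,5,1],true,2,3,[3,4]),
    (true,[([(0,11,[(7,8),(3,3)]),(0,0,[(7,8)])],[]),([(0,1,[(4,6)])],[1,1])],[5,4],false,2,1,[]),
    (false,[([(0,0,[(7,8)]),(0,2,[(4,6),(4,4)])],[3,1]),([(0,0,[(7,8)])],[2,2,2])],[],false,1,0,[]),
    (false,[([(0,5,[(7,8),(7,7)]),(0,0,[(7,8)])],[1])],[6,6],false,1,0,[]),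
    (true,[([(0,11,[(9,11)])],[3,2])],[7,5,5,2,1],true,3,5,[6,9,11]),
    (true,[([(0,11,[(9,11)]),(0,1,[(4,6)])],[])],[6,5,5,2,1],false,3,3,[5,6]),
    (true,[([(0,11,[(9,11)]),(0,1,[(4,6)])],[]),([(0,4,[(4,5)])],[2,1])],[6,5],false,2,4,[3,4,5]),
    (true,[([(0,11,[(9,11)]),(0,1,[(4,6)])],[]),([(0,4,[(4,5)]),(0,3,[(3,3)])],[])],[6,5],false,2,2,[3]),
    (false,[([(0,11,[(9,11)]),(0,4,[(4,5)])],[3,3]),([(0,1,[(4,6)]),(0,1,[(3,3),(3,3)])],[2])],[],false,1,0,[]),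
    (true,[([(0,11,[(9,11)]),(0,1,[(4,6)])],[]),([(0,1,[(4,5)]),(0,12,[(4,4)])],[2])],[5,2],false,2,1,[]),
    (true,[([(0,11,[(9,11)]),(0,1,[(4,6)])],[]),([(0,2,[(4,5),(5,5)])],[2,2])],[5],false,1,0,[]),
    (false,[([(0,11,[(9,11)]),(0,25,[(4,6),(6,6)])],[])],[7,6],false,2,2,[3]),
    (true,[([(0,14,[(9,11),(6,6)])],[4]),([(0,1,[(4,6)]),(0,3,[(3,3)])],[2,2])],[2],false,1,0,[]),
    (false,[([(0,11,[(9,11)]),(0,2,[(7,9)])],[1])],[7,6,1],false,2,4,[3,4,5]),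
    (false,[([(0,11,[(9,11)]),(0,25,[(7,9),(3,3)])],[])],[7,6],false,2,2,[3]),
    (true,[([(0,11,[(9,11)])],[3,3]),([(0,5,[(7,9),(3,3),(3,3)])],[3,1])],[],false,1,0,[]),
    (false,[([(0,11,[(9,11)]),(0,2,[(7,9)])],[1]),([(0,12,[(4,4)])],[2,2,2,2,1])],[1],false,1,0,[2]),
    (true,[([(0,11,[(9,11)])],[3,3]),([(0,5,[(7,9),(4,4),(2,2)])],[3,1])],[],false,1,0,[]),
    (true,[([(0,11,[(9,11)])],[3,3]),([(0,5,[(7,9),(5,5)])],[3,1])],[],false,1,0,[]),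
    (true,[([(0,18,[(9,11),(10,11)])],[3])],[5,5,1],false,2,1,[]),
    (true,[([(0,5,[(12,14)])],[3])],[7,5,5,1],false,2,7,[3,5,7,8]),
    (true,[([(0,14,[(12,14),(3,3)])],[4])],[7,5,2,1],false,3,3,[]),
    (false,[([(0,5,[(12,14)]),(0,4,[(4,5)])],[3])],[7,6],false,2,4,[3,4,5]),
    (true,[([(0,14,[(12,14),(3,3)])],[4]),([(0,4,[(4,5)])],[2,1])],[7],false,1,0,[3]),
    (true,[([(0,14,[(12,14),(3,3)])],[4]),([(0,4,[(4,5)]),(0,3,[(2,3)])],[])],[7],false,1,0,[2]),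
    (true,[([(0,14,[(12,14),(3,3)])],[4]),([(0,1,[(4,5)]),(1,0,[(2,3),(2,2)])],[2])],[1],false,1,0,[]),
    (false,[([(0,5,[(12,14)]),(0,4,[(4,5)])],[3]),([(0,12,[(4,4)])],[2,2,2,2,1])],[],false,1,0,[2]),
    (true,[([(0,8,[(12,14),(4,5),(2,2)])],[4]),([(0,12,[(4,4)])],[2,2,2])],[1],false,1,0,[]),
    (true,[([(0,24,[(12,14),(5,5)])],[4]),([(0,1,[(4,5)])],[3,2,2])],[],false,1,0,[]),
    (true,[([(0,8,[(12,14),(6,7)])],[4])],[5,5,1],true,2,2,[3]),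
    (true,[([(0,8,[(12,14),(6,7)])],[4]),([(0,3,[(3,3)])],[1,1,1])],[5],false,1,0,[]),
    (false,[([(0,18,[(12,14),(8,8)])],[4,3,1])],[6],false,1,0,[]),
    (true,[([(0,14,[(15,17)])],[4])],[7,5,2,1],false,4,1,[5]),
    (false,[([(0,18,[(15,17),(5,5)])],[4,3,1])],[6],false,1,0,[]),
    (true,[([(0,24,[(18,19)])],[4])],[6,5,2],false,2,1,[])]),
  ([9,8,7,3,2,2,2,2,1], [
    (false,[],[9,8,7,3,2,2,2,2,1],false,5,4,[7,10,14,19]),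
    (false,[([(0,19,[(6,7)])],[3,1,1])],[9,8,3,2,2],false,1,0,[3,5,7]),
    (true,[([(0,2,[(6,7),(2,3)])],[])],[9,8,3,3,3],false,3,8,[]),
    (false,[([(0,19,[(6,7)]),(0,4,[(4,5)])],[])],[9,8,3,2,2],false,4,3,[5]),
    (false,[([(0,19,[(6,7)]),(0,27,[(4,5),(5,5)])],[])],[8,7,2,2],false,3,4,[5]),
    (false,[([(0,19,[(6,7)]),(0,4,[(4,5)])],[]),([(0,4,[(5,5)]),(0,4,[(4,5)])],[1,1])],[9,3],false,2,3,[4]),
    (true,[([(0,19,[(6,7)]),(0,2,[(5,5),(3,4)])],[]),([(0,4,[(4,5)]),(0,4,[(4,5)])],[3,1,1])],[3,1],false,2,1,[]),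
    (false,[([(0,19,[(6,7)]),(0,19,[(6,7)])],[])],[9,7,3,2,1],true,5,2,[7]),
    (false,[([(0,8,[(6,7),(6,7),(6,7)])],[3,3,3])],[2,2,2],false,1,0,[4]),
    (true,[([(0,19,[(6,7)]),(0,19,[(6,7)])],[4]),([(0,19,[(6,7)]),(1,1,[(2,4)])],[])],[1],false,1,0,[3]),
    (true,[([(0,19,[(6,7)]),(0,19,[(6,7)])],[4]),([(0,19,[(6,7)]),(1,1,[(2,4),(2,3)])],[])],[1],false,1,0,[2]),
    (true,[([(0,19,[(6,7)]),(0,19,[(6,7)])],[4]),([(0,19,[(6,7)]),(1,1,[(2,4),(2,3),(2,2)])],[])],[1],false,1,0,[]),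
    (false,[([(0,2,[(8,10)])],[1,1,1])],[9,8,2,2,2],false,3,6,[5,7,9,10]),
    (true,[([(0,2,[(8,10)]),(0,4,[(4,5)])],[1])],[9,3,3,3,2],true,3,4,[5]),
    (true,[([(0,2,[(8,10)])],[]),([(0,4,[(4,5)]),(0,4,[(4,5)])],[3,1])],[9,3],true,2,5,[3,5]),
    (false,[([(0,5,[(8,10),(4,5)]),(0,3,[(3,3)])],[2,2]),([(0,4,[(4,5)])],[3,1,1,1,1])],[2],false,1,0,[2,3]),
    (true,[([(0,2,[(8,10)]),(0,4,[(4,5)])],[1]),([(0,4,[(4,5)]),(0,4,[(3,3),(2,2)])],[3,1,1])],[3,2],false,2,2,[]),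
    (true,[([(0,2,[(8,10)]),(0,4,[(4,5)])],[1]),([(0,4,[(4,5)]),(0,1,[(3,3),(3,3)])],[1,1,1])],[3,3],false,1,0,[2]),
    (false,[([(0,5,[(8,10),(4,5)]),(0,3,[(3,3)])],[2,2]),([(0,4,[(4,5)]),(0,4,[(3,3),(2,2)])],[1,1])],[2],false,1,0,[]),
    (true,[([(0,2,[(8,10)]),(0,4,[(4,5)])],[1]),([(0,4,[(4,5)]),(0,4,[(4,5)])],[3,1,1])],[3,2],false,2,2,[3]),
    (false,[([(0,5,[(8,10),(4,5)]),(0,3,[(3,3)])],[2,2]),([(0,4,[(4,5)]),(0,4,[(4,5)])],[1,1])],[2],false,1,0,[]),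
    (false,[([(0,27,[(8,10)]),(0,19,[(6,7)])],[])],[8,7,2,2],false,3,4,[4,6,7]),
    (true,[([(0,2,[(8,10)]),(0,19,[(6,7)])],[]),([(0,12,[(4,4)])],[2])],[9,3,1],false,3,1,[4]),
    (true,[([(0,8,[(8,10),(6,7),(4,4)]),(0,12,[(4,4)])],[2])],[3,3,3],false,1,0,[]),
    (false,[([(0,27,[(8,10)]),(0,19,[(6,7)])],[]),([(0,1,[(5,6)])],[3,2,2,2,2])],[2],false,1,0,[3]),
    (true,[([(0,2,[(8,10)]),(0,19,[(6,7)])],[]),([(0,1,[(5,6)]),(0,3,[(2,3)])],[1,1,1,1])],[3,3],false,1,0,[2]),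
    (false,[([(0,2,[(8,10)]),(0,3,[(2,3)])],[2,2,2]),([(0,19,[(6,7)]),(0,15,[(5,6),(2,2)])],[])],[2],false,1,0,[]),
    (false,[([(0,27,[(8,10)]),(0,19,[(6,7)])],[]),([(0,0,[(7,7)])],[2,2,2,2,1])],[2],false,1,0,[]),
    (false,[([(0,7,[(8,10),(8,9)])],[2,2])],[9,2,2],false,2,4,[3,5]),
    (false,[([(0,7,[(8,10),(8,9)]),(0,3,[(3,3)])],[2])],[8,2,2],false,2,2,[3]),
    (false,[([(0,7,[(8,10),(8,9)]),(0,3,[(3,3)])],[2]),([(0,3,[(3,3)])],[2,1,1,1,1,1])],[2],false,1,0,[]),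
    (false,[([(0,7,[(8,10),(8,9)])],[2,2]),([(0,4,[(4,5)])],[3,1,1,1,1,1])],[],false,1,0,[2]),
    (false,[([(0,7,[(8,10),(8,9)]),(0,3,[(2,2)])],[2]),([(0,4,[(4,5)])],[3,1,1,1,1])],[],false,1,0,[]),
    (false,[([(0,8,[(8,10),(10,10)])],[3,3,3])],[2,2,2],false,1,0,[3]),
    (false,[([(0,27,[(8,10)])],[5,1,1]),([(0,2,[(10,10)]),(0,3,[(2,3)])],[2,2,2])],[],false,1,0,[2]),
    (false,[([(0,27,[(8,10)])],[4,1]),([(0,10,[(10,10),(2,2)]),(0,3,[(2,3)])],[2,2,2])],[],false,1,0,[]),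
    (false,[([(0,17,[(11,14)])],[2,2,2])],[9,3,2,2],true,2,8,[3,5,7,8,9]),
    (false,[([(0,17,[(11,14)]),(0,3,[(3,3)])],[2,2])],[8,3,2,2],false,3,3,[]),
    (false,[([(0,17,[(11,14)]),(0,1,[(4,5)])],[2])],[8,2,2,2],false,2,5,[3,5]),
    (false,[([(0,17,[(11,14)])],[2,2,2]),([(0,15,[(4,5),(3,3)])],[4,1,1,1,1])],[],false,1,0,[3]),
    (false,[([(0,17,[(11,14)]),(0,3,[(2,3)])],[2,2]),([(0,15,[(4,5),(3,3)])],[4,1,1,1])],[],false,1,0,[2,3]),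
    (false,[([(0,17,[(11,14)]),(0,3,[(2,2)])],[2,2]),([(0,4,[(4,5)]),(0,1,[(3,3),(2,3)])],[1,1])],[2],false,1,0,[2]),
    (false,[([(0,17,[(11,14)]),(1,0,[(2,3),(2,2)])],[2]),([(0,4,[(4,5)]),(0,4,[(3,3),(2,2)])],[1,1])],[2],false,1,0,[]),
    (false,[([(0,17,[(11,14)]),(0,3,[(3,3)])],[2,2]),([(0,4,[(4,5)]),(0,1,[(3,3),(2,3)])],[1,1])],[2],false,1,0,[]),
    (false,[([(0,17,[(11,14)])],[2,2,2]),([(0,4,[(4,5)]),(0,4,[(4,5)])],[1,1,1])],[3],false,1,0,[3]),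
    (false,[([(0,17,[(11,14)]),(0,3,[(2,3)])],[2,2]),([(0,4,[(4,5)]),(0,4,[(4,5)])],[1,1])],[3],false,1,0,[2]),
    (false,[([(0,17,[(11,14)]),(1,0,[(2,3),(2,2)])],[2]),([(0,4,[(4,5)]),(0,4,[(4,5)])],[1,1])],[2],false,1,0,[]),
    (false,[([(0,8,[(11,14),(6,7)])],[3,3,3])],[2,2,2],false,1,0,[2,3,4]),
    (false,[([(0,17,[(11,14)]),(0,3,[(2,2)])],[2,2]),([(0,19,[(6,7)])],[4,2,1,1])],[],false,1,0,[2]),
    (false,[([(0,17,[(11,14)]),(1,0,[(2,2),(2,2)])],[2]),([(0,19,[(6,7)])],[4,1,1,1])],[],false,1,0,[2]),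
    (false,[([(0,17,[(11,14)]),(1,0,[(2,2),(2,2),(2,2)])],[2]),([(0,19,[(6,7)])],[4,1,1,1])],[],false,1,0,[]),
    (false,[([(0,17,[(11,14)]),(0,3,[(3,3)])],[2,2]),([(0,19,[(6,7)])],[4,2,1,1])],[],false,1,0,[2]),
    (false,[([(0,17,[(11,14)]),(0,1,[(3,3),(2,2)])],[2]),([(0,19,[(6,7)])],[4,1,1,1])],[],false,1,0,[]),
    (true,[([(0,8,[(11,14),(6,7)]),(0,12,[(4,4)])],[2])],[3,3,3],false,1,0,[]),
    (false,[([(0,17,[(11,14)])],[2,2,2]),([(0,15,[(8,8)])],[4,1,1,1,1])],[],false,1,0,[2]),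
    (true,[([(0,17,[(11,14)])],[5,2,2,2]),([(0,11,[(8,8),(2,2)])],[])],[],false,1,0,[]),
    (false,[([(0,28,[(11,14),(9,9)])],[2])],[9,2],false,1,0,[]),
    (false,[([(0,7,[(15,19)])],[2,2])],[9,2,2],false,2,4,[3,5]),
    (false,[([(0,7,[(15,19)]),(0,3,[(3,3)])],[2])],[8,2,2],false,2,2,[3]),
    (false,[([(0,7,[(15,19)]),(0,3,[(3,3)])],[2]),([(0,3,[(3,3)])],[2,1,1,1,1,1])],[2],false,1,0,[]),
    (false,[([(0,7,[(15,19)])],[2,2]),([(0,4,[(4,5)])],[3,1,1,1,1,1])],[],false,1,0,[2]),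
    (false,[([(0,7,[(15,19)]),(0,3,[(2,2)])],[2]),([(0,4,[(4,5)])],[3,1,1,1,1])],[],false,1,0,[])]),
  ([9,8,7,4,3,3,2], [
    (false,[],[9,8,7,4,3,3,2],false,5,6,[8,11,15,19]),
    (false,[([(0,15,[(6,8)])],[4,3,1])],[9,8,3],false,1,0,[3,4,5,6,8]),
    (true,[([(0,15,[(6,8)]),(0,3,[(2,3)])],[3])],[7,6,3,3,3],false,1,0,[2,3]),
    (true,[([(0,2,[(6,8),(2,2)]),(0,3,[(2,3)])],[1])],[7,6,3,3,3],false,2,11,[]),
    (true,[([(0,15,[(6,8)]),(0,1,[(2,3),(3,3)])],[])],[7,6,3,3,3],false,3,6,[]),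
    (true,[([(0,15,[(6,8)]),(0,4,[(4,4)])],[])],[7,6,4,3,3],false,4,4,[]),
    (true,[([(0,15,[(6,8)]),(0,4,[(5,5)])],[])],[7,6,4,3,3],false,4,4,[5]),
    (true,[([(0,15,[(6,8)])],[3,1,1]),([(0,2,[(5,5),(5,5)])],[4,4,2])],[3],false,1,0,[3,5]),
    (true,[([(0,15,[(6,8)]),(0,4,[(5,5)])],[]),([(0,15,[(5,5),(2,3)])],[4,4])],[7],false,1,0,[2,3]),
    (true,[([(0,2,[(6,8),(2,2)]),(0,4,[(5,5)])],[]),([(0,4,[(5,5)]),(0,3,[(2,3)])],[3])],[7,3],false,2,3,[]),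
    (true,[([(0,15,[(6,8)]),(0,4,[(5,5)])],[]),([(0,4,[(5,5)]),(0,1,[(2,3),(3,3)])],[3])],[6,3],false,2,2,[3]),
    (true,[([(0,8,[(6,8),(5,5),(5,5),(3,3)])],[2]),([(0,3,[(2,3)]),(0,3,[(3,3)])],[2,1,1])],[3],false,1,0,[]),
    (true,[([(0,15,[(6,8)]),(0,4,[(5,5)])],[]),([(0,4,[(5,5)]),(0,4,[(4,5)])],[3])],[6,4],false,2,2,[3]),
    (true,[([(0,8,[(6,8),(5,5),(5,5),(3,3)])],[2]),([(0,4,[(4,5)])],[3,3,1,1])],[],false,1,0,[]),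
    (true,[([(0,17,[(6,8),(6,6)])],[4,2])],[7,4,3,2],false,4,2,[6]),
    (false,[([(0,17,[(6,8),(6,6)]),(0,1,[(5,6)])],[5])],[8,3],true,2,4,[3,5]),
    (true,[([(0,17,[(6,8),(6,6)])],[4,2]),([(0,2,[(5,6),(3,3)])],[4,1,1])],[],false,1,0,[3]),
    (true,[([(0,17,[(6,8),(6,6)])],[4,2]),([(0,1,[(5,6)]),(0,1,[(3,3),(2,3)])],[1])],[3],false,1,0,[2]),
    (false,[([(0,17,[(6,8),(6,6)]),(0,1,[(5,6)])],[5]),([(0,3,[(3,3)]),(0,3,[(2,3)]),(0,3,[(2,2)])],[1,1])],[],false,1,0,[]),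
    (true,[([(0,17,[(6,8),(6,6)])],[3,2]),([(0,1,[(5,6)]),(0,4,[(4,5)])],[3])],[3],false,1,0,[2]),
    (false,[([(0,2,[(6,8),(2,2)]),(0,19,[(6,6)])],[]),([(0,1,[(5,6)]),(0,1,[(4,5)])],[3,2,2])],[],false,1,0,[]),
    (true,[([(0,15,[(6,8)])],[3,1]),([(0,15,[(7,8)])],[4,4,1])],[7],false,1,0,[3,6,8]),
    (false,[([(0,15,[(6,8)]),(0,0,[(7,8)])],[4,2]),([(0,3,[(2,3)])],[2,2,1,1,1,1])],[3],false,1,0,[2,3]),
    (true,[([(0,2,[(6,8),(2,2)]),(0,0,[(7,8)])],[]),([(0,3,[(2,3)])],[2])],[7,3,3],false,2,5,[]),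
    (true,[([(0,15,[(6,8)]),(0,1,[(2,3),(3,3)])],[]),([(0,0,[(7,8)])],[3,2,2,1])],[3,3],false,1,0,[2,3]),
    (true,[([(0,2,[(6,8),(2,2)])],[]),([(0,0,[(7,8)]),(0,1,[(2,3),(3,3)])],[2])],[7,3],false,2,3,[]),
    (true,[([(0,15,[(6,8)]),(0,1,[(2,3),(3,3)])],[]),([(0,0,[(7,8)]),(0,3,[(3,3)])],[3,2])],[3,3],false,1,0,[2,3]),
    (true,[([(0,15,[(6,8)]),(0,4,[(3,3),(2,2)])],[]),([(0,0,[(7,8)]),(0,1,[(2,3),(3,3)])],[2])],[4,3],false,2,1,[]),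
    (true,[([(0,15,[(6,8)]),(0,1,[(2,3),(3,3)])],[]),([(0,0,[(7,8)]),(0,1,[(3,3),(3,3)])],[2])],[3,3],false,1,0,[]),
    (true,[([(0,15,[(6,8)]),(0,1,[(4,6)])],[]),([(0,0,[(7,8)])],[3,2,2,1])],[3,3],false,1,0,[2,3,5]),
    (true,[([(0,2,[(6,8),(2,2)])],[]),([(0,0,[(7,8)]),(0,1,[(4,6)])],[2])],[7,3],false,2,3,[]),
    (true,[([(0,15,[(6,8)]),(0,1,[(4,6)])],[]),([(0,0,[(7,8)]),(0,3,[(3,3)])],[3,2])],[3,3],false,1,0,[3]),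
    (true,[([(0,15,[(6,8)]),(0,1,[(4,6)])],[]),([(0,0,[(7,8)]),(0,1,[(3,3),(2,3)])],[2])],[3,3],false,1,0,[2]),
    (true,[([(0,2,[(6,8),(2,2)])],[]),([(0,0,[(7,8)]),(0,1,[(4,6)])],[2]),([(0,3,[(3,3)]),(0,3,[(2,3)])],[2,1,1])],[],false,1,0,[]),
    (true,[([(0,15,[(6,8)]),(0,4,[(4,5)])],[]),([(0,0,[(7,8)]),(0,1,[(4,6)])],[2])],[4,3],false,2,1,[]),
    (true,[([(0,15,[(6,8)])],[3,1]),([(0,0,[(7,8)]),(0,0,[(7,8)])],[2])],[3,3],false,1,0,[2]),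
    (true,[([(0,2,[(6,8),(2,2)]),(0,0,[(7,8)])],[]),([(0,0,[(7,8)])],[])],[7,3],false,1,0,[]),
    (true,[([(0,11,[(9,11)])],[1,1,1])],[7,6,4,3,2],false,5,2,[6,8,10,11]),
    (true,[([(0,14,[(9,11),(6,6)])],[2,2])],[7,3,3,2],false,3,2,[6]),
    (true,[([(0,11,[(9,11)])],[1,1]),([(0,1,[(6,6)]),(0,1,[(4,6)])],[1])],[7,3],false,2,2,[3]),
    (true,[([(0,11,[(9,11)])],[1,1,1]),([(0,5,[(6,6),(4,6),(3,3)])],[5,2])],[],false,1,0,[]),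
    (true,[([(0,7,[(9,11),(7,8)])],[5])],[7,3,2],false,3,2,[5]),
    (true,[([(0,11,[(9,11)])],[1,1]),([(0,0,[(7,8)]),(0,4,[(4,5)])],[1])],[7,2],false,2,1,[]),
    (true,[([(0,8,[(9,11),(9,10)])],[2])],[7,3,3],false,2,2,[3]),
    (true,[([(0,8,[(9,11),(9,10)])],[2]),([(0,3,[(3,3)])],[2,2,1,1,1])],[3],false,1,0,[]),
    (true,[([(0,11,[(9,11)])],[1,1,1]),([(0,11,[(11,11)])],[4,2,2])],[3],false,1,0,[]),
    (true,[([(0,5,[(12,15)])],[1,1])],[7,6,3,3],false,3,6,[4,6,8]),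
    (true,[([(0,7,[(12,15),(4,4)])],[5])],[7,3,2],false,3,2,[4]),
    (true,[([(0,5,[(12,15)]),(0,12,[(4,4)])],[]),([(0,12,[(4,4)])],[2])],[7,4],false,2,1,[]),
    (true,[([(0,8,[(12,15),(5,6)])],[2])],[7,3,3],false,2,3,[3,4]),
    (true,[([(0,8,[(12,15),(5,6)])],[2]),([(0,3,[(3,3)])],[2,2,1,1,1])],[3],false,1,0,[2]),
    (true,[([(0,8,[(12,15),(5,6)])],[2]),([(0,4,[(3,3),(2,2)])],[3,3,1,1])],[],false,1,0,[]),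
    (true,[([(0,8,[(12,15),(5,6)])],[2]),([(0,12,[(4,4)])],[2])],[7],false,1,0,[]),
    (true,[([(0,5,[(12,15)])],[2,2]),([(0,15,[(7,8)])],[4,4,1])],[],false,1,0,[2]),
    (true,[([(0,5,[(12,15)])],[1,1]),([(0,0,[(7,8)]),(0,3,[(2,2)])],[3,2])],[3],false,1,0,[]),
    (true,[([(0,7,[(16,19)])],[5])],[7,3,2],false,3,2,[4]),
    (false,[([(0,7,[(16,19)]),(0,12,[(4,4)])],[6])],[7],false,1,0,[])]),
  ([9,8,7,5,4,3], [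
    (false,[],[9,8,7,5,4,3],false,6,3,[10,14,17,19]),
    (true,[([(0,2,[(7,10)])],[1,1])],[6,6,5,4,3],false,3,6,[4,5,6,8,9,10]),
    (true,[([(0,2,[(7,10)]),(0,12,[(4,4)])],[])],[6,6,4,3,3],false,3,4,[4]),
    (true,[([(0,2,[(7,10)]),(0,12,[(4,4)])],[]),([(0,12,[(4,4)])],[2,1,1,1])],[6,4,3],false,3,3,[4]),
    (true,[([(0,2,[(7,10)])],[]),([(0,12,[(4,4)]),(0,12,[(4,4)]),(0,12,[(4,4)])],[])],[6,5,3],false,3,3,[4]),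
    (false,[([(0,2,[(7,10)]),(0,2,[(4,4),(4,4)])],[4]),([(0,12,[(4,4)]),(0,12,[(4,4)])],[1,1,1,1])],[],false,1,0,[]),
    (true,[([(0,5,[(7,10),(5,5)])],[5])],[6,6,3,1],true,3,4,[4,5]),
    (true,[([(0,5,[(7,10),(5,5)])],[1]),([(0,12,[(4,4)])],[2,1,1,1])],[6,5],false,2,5,[3,4]),
    (true,[([(0,5,[(7,10),(5,5)])],[1]),([(0,12,[(4,4)]),(0,3,[(3,3)])],[1,1])],[6,5],false,2,3,[3]),
    (true,[([(0,5,[(7,10),(5,5)])],[2]),([(0,12,[(4,4)]),(0,3,[(3,3)]),(0,3,[(3,3)])],[])],[6,3],false,2,1,[]),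
    (true,[([(0,5,[(7,10),(5,5)])],[]),([(0,12,[(4,4)]),(0,12,[(4,4)])],[2,2])],[6,3],false,2,2,[3]),
    (true,[([(0,5,[(7,10),(5,5)])],[1]),([(0,12,[(4,4)]),(0,12,[(4,4)]),(0,3,[(3,3)])],[])],[6,3],false,1,0,[]),
    (false,[([(0,2,[(7,10)]),(0,2,[(5,5),(5,5)])],[4])],[8,4],false,2,4,[3,4,5]),
    (true,[([(0,5,[(7,10),(5,5)])],[4]),([(0,4,[(5,5)]),(0,3,[(3,3)])],[3])],[6],false,1,0,[2,3]),
    (true,[([(0,5,[(7,10),(5,5)])],[4]),([(0,4,[(5,5)]),(0,1,[(3,3),(2,2)])],[])],[6],false,1,0,[2]),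
    (false,[([(0,2,[(7,10)]),(0,2,[(5,5),(5,5)])],[4]),([(0,3,[(3,3)]),(0,3,[(2,2)]),(0,3,[(2,2)])],[2,1])],[],false,1,0,[]),
    (true,[([(0,5,[(7,10),(5,5)])],[4]),([(0,4,[(5,5)]),(0,1,[(3,3),(3,3)])],[])],[6],false,1,0,[]),
    (true,[([(0,5,[(7,10),(5,5)])],[5]),([(0,4,[(5,5)]),(0,12,[(4,4)])],[1])],[6],false,1,0,[2]),
    (true,[([(0,5,[(7,10),(5,5)])],[4]),([(0,4,[(5,5)]),(0,1,[(4,4),(2,2)])],[])],[6],false,1,0,[]),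
    (true,[([(0,5,[(7,10),(5,5)])],[4]),([(0,4,[(5,5)]),(0,1,[(5,5)])],[])],[6],false,1,0,[]),
    (false,[([(0,2,[(7,10)]),(0,19,[(6,6)])],[4])],[8,7],false,2,7,[3,5,6]),
    (true,[([(0,2,[(7,10)])],[4,1]),([(0,1,[(6,6)]),(0,3,[(3,3)])],[1])],[6,5],false,2,5,[3]),
    (true,[([(0,2,[(7,10)])],[3,2]),([(0,1,[(6,6)]),(0,1,[(3,3),(3,3)])],[])],[6,3],false,2,3,[3]),
    (false,[([(0,2,[(7,10)]),(0,2,[(6,6),(3,3)])],[4]),([(0,3,[(3,3)]),(0,3,[(3,3)])],[2,2,1,1])],[],false,1,0,[2]),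
    (false,[([(0,2,[(7,10)]),(0,2,[(6,6),(3,3)])],[4]),([(0,3,[(3,3)]),(0,3,[(3,3)]),(0,3,[(2,2)])],[2,1])],[],false,1,0,[]),
    (true,[([(0,2,[(7,10)])],[3,1]),([(0,1,[(6,6)]),(0,4,[(4,5)])],[])],[6,5],false,2,4,[3,4,5]),
    (true,[([(0,2,[(7,10)])],[4,2]),([(0,11,[(6,6),(4,5)]),(0,3,[(3,3)])],[])],[6],false,1,0,[2,3]),
    (true,[([(0,2,[(7,10)]),(0,3,[(3,3)])],[]),([(0,0,[(6,6),(2,2)]),(0,1,[(4,5)])],[])],[6,3],false,2,1,[]),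
    (true,[([(0,2,[(7,10)])],[3,2]),([(0,1,[(6,6)]),(0,4,[(4,5)])],[]),([(0,3,[(3,3)]),(0,3,[(3,3)])],[2,2])],[],false,1,0,[]),
    (true,[([(0,2,[(7,10)])],[4,1]),([(0,11,[(6,6),(4,5)]),(0,12,[(4,4)])],[])],[6],false,1,0,[2]),
    (true,[([(0,2,[(7,10)]),(0,12,[(4,4)])],[]),([(0,0,[(6,6),(2,2)]),(0,4,[(4,5)])],[])],[6,3],false,1,0,[]),
    (true,[([(0,5,[(7,10),(5,5)])],[4]),([(0,1,[(6,6)]),(0,4,[(4,5)])],[])],[6],false,1,0,[]),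
    (true,[([(0,2,[(7,10)])],[3,2]),([(0,1,[(6,6)]),(0,1,[(6,6)])],[])],[6,3],false,2,2,[3]),
    (true,[([(0,2,[(7,10)])],[3,2]),([(0,1,[(6,6)]),(0,1,[(6,6)])],[]),([(0,3,[(3,3)])],[2,2,1,1])],[],false,1,0,[]),
    (true,[([(0,2,[(7,10)])],[2,2]),([(0,15,[(7,8)])],[4,4])],[6],false,1,0,[3,6,7]),
    (true,[([(0,2,[(7,10)]),(0,3,[(2,3)])],[]),([(0,0,[(7,8)])],[3,2,1])],[6,3],false,1,0,[2,3]),
    (true,[([(0,2,[(7,10)])],[1,1]),([(0,0,[(7,8)]),(1,0,[(2,3),(2,2)])],[])],[6,4],false,2,4,[]),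
    (true,[([(0,2,[(7,10)])],[1,1]),([(0,0,[(7,8)]),(0,1,[(2,3),(3,3)])],[])],[6,4],false,2,3,[3]),
    (true,[([(0,2,[(7,10)]),(0,3,[(3,3)])],[]),([(0,0,[(7,8)]),(0,1,[(2,3),(3,3)])],[])],[6,3],false,2,1,[]),
    (true,[([(0,2,[(7,10)])],[1,1]),([(0,0,[(7,8)]),(0,1,[(4,6)])],[])],[6,4],false,2,3,[3,4]),
    (true,[([(0,2,[(7,10)]),(0,3,[(3,3)])],[]),([(0,0,[(7,8)]),(0,1,[(4,6)])],[])],[6,3],false,2,1,[]),
    (true,[([(0,2,[(7,10)])],[]),([(0,0,[(7,8)]),(0,1,[(4,6)])],[]),([(0,12,[(4,4)])],[2,2,2,2])],[],false,1,0,[]),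
    (true,[([(0,2,[(7,10)])],[1]),([(0,0,[(7,8)]),(0,0,[(7,7)])],[])],[6,3],false,1,0,[]),
    (false,[([(0,2,[(7,10)]),(0,6,[(9,9)])],[4,4])],[5,4],false,2,4,[4,5]),
    (false,[([(0,2,[(7,10)]),(0,9,[(9,9),(3,4)])],[])],[9,4],false,2,2,[3]),
    (false,[([(0,2,[(7,10)]),(0,9,[(9,9),(3,4)])],[]),([(0,3,[(3,3)])],[2,2,2,1,1,1,1])],[],false,1,0,[]),
    (true,[([(0,5,[(7,10),(5,5)])],[]),([(0,6,[(9,9)])],[2,2,2])],[6],false,1,0,[]),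
    (true,[([(0,8,[(7,10),(10,10)])],[])],[6,6,3],false,2,3,[3,4]),
    (false,[([(0,2,[(7,10)]),(0,9,[(10,10),(3,3)])],[])],[9,4],false,2,1,[]),
    (true,[([(0,8,[(7,10),(10,10)])],[]),([(0,12,[(4,4)])],[2,1,1,1])],[6],false,1,0,[]),
    (true,[([(0,17,[(11,14)])],[4])],[6,6,4,2],true,3,4,[4,5,7,8,9]),
    (true,[([(0,5,[(11,14)])],[1]),([(0,12,[(4,4)])],[2,1,1,1])],[6,5],false,2,5,[3,4]),
    (true,[([(0,8,[(11,14),(4,4),(3,3)])],[])],[6,6,3],false,2,3,[3]),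
    (true,[([(0,17,[(11,14)])],[3]),([(0,12,[(4,4)]),(0,3,[(3,3)]),(0,3,[(3,3)])],[])],[6,3],false,2,1,[]),
    (true,[([(0,17,[(11,14)])],[3]),([(0,12,[(4,4)]),(0,12,[(4,4)])],[1,1])],[6,3],false,2,2,[3]),
    (true,[([(0,8,[(11,14),(4,4),(3,3)])],[]),([(0,12,[(4,4)])],[2,1,1,1])],[6],false,1,0,[]),
    (true,[([(0,17,[(11,14)])],[3]),([(0,4,[(5,5)])],[3,3,2])],[6],false,1,0,[3,4,5]),
    (true,[([(0,17,[(11,14)])],[4]),([(0,1,[(5,5)]),(0,3,[(2,3)])],[3])],[6],false,1,0,[2,3]),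
    (true,[([(0,8,[(11,14),(5,5),(2,2)])],[]),([(0,3,[(2,3)])],[2,2,1,1])],[6],false,1,0,[2]),
    (true,[([(0,8,[(11,14),(5,5),(2,2)])],[]),([(0,3,[(2,3)]),(0,3,[(2,2)])],[2,1])],[6],false,1,0,[2]),
    (true,[([(0,8,[(11,14),(5,5),(2,2)])],[]),([(0,3,[(2,3)]),(0,3,[(2,2)]),(0,3,[(2,2)])],[])],[6],false,1,0,[]),
    (true,[([(0,17,[(11,14)])],[4]),([(0,1,[(5,5)]),(0,1,[(2,3),(3,3)])],[])],[6],false,1,0,[2]),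
    (true,[([(0,8,[(11,14),(5,5),(2,2)])],[]),([(0,3,[(2,3)]),(0,3,[(3,3)])],[2,1])],[6],false,1,0,[]),
    (true,[([(0,17,[(11,14)])],[4]),([(0,4,[(5,5)]),(0,12,[(4,4)])],[3])],[6],false,1,0,[2]),
    (true,[([(0,8,[(11,14),(5,5),(2,2)])],[]),([(0,12,[(4,4)])],[2,1,1,1])],[6],false,1,0,[]),
    (true,[([(0,17,[(11,14)])],[4]),([(0,1,[(5,5)]),(0,1,[(5,5)])],[])],[6],false,1,0,[]),
    (true,[([(0,8,[(11,14),(6,7)])],[])],[6,6,3],false,2,3,[3,4]),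
    (true,[([(0,8,[(11,14),(6,7)])],[]),([(0,3,[(3,3)])],[2,2,1,1])],[6],false,1,0,[2]),
    (true,[([(0,8,[(11,14),(6,7)])],[]),([(0,3,[(3,3)]),(0,3,[(2,2)])],[2,1])],[6],false,1,0,[]),
    (true,[([(0,8,[(11,14),(6,7)])],[]),([(0,12,[(4,4)])],[2,1,1,1])],[6],false,1,0,[]),
    (true,[([(0,17,[(11,14)])],[3]),([(0,0,[(8,8)])],[3,1,1])],[6],false,1,0,[2]),
    (true,[([(0,17,[(11,14)])],[4]),([(0,0,[(8,8)]),(0,3,[(2,2)])],[1])],[6],false,1,0,[]),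
    (true,[([(0,17,[(11,14)])],[3]),([(0,6,[(9,9)])],[2,1,1])],[6],false,1,0,[]),
    (true,[([(0,29,[(15,17)])],[4])],[6,5,3,1],false,4,1,[5]),
    (true,[([(0,29,[(15,17)])],[4]),([(0,4,[(5,5)])],[2,2])],[6],false,1,0,[]),
    (true,[([(0,13,[(18,19)])],[1])],[6,6,3,1],false,2,1,[])]),
  ([9,8,7,6,4,2], [
    (false,[],[9,8,7,6,4,2],false,5,6,[6,9,12,15,19]),
    (true,[([(0,1,[(6,6)])],[2,2])],[6,6,5,4,3,2],false,4,4,[6]),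
    (true,[([(0,1,[(6,6)]),(0,1,[(5,6)])],[])],[6,5,5,4,3,1],false,4,4,[6]),
    (true,[([(0,1,[(6,6)]),(0,1,[(5,6)])],[]),([(0,1,[(5,6)])],[2,1])],[6,5,4],false,3,4,[6]),
    (false,[([(0,1,[(6,6)]),(0,1,[(5,6)])],[2,2]),([(0,1,[(5,6)]),(0,1,[(4,6)])],[3,3,2])],[],false,1,0,[3]),
    (true,[([(0,5,[(6,6),(5,6),(2,3)])],[4]),([(0,1,[(5,6)]),(0,1,[(4,6)])],[])],[5],false,1,0,[2]),
    (false,[([(0,0,[(6,6),(2,2)]),(0,1,[(5,6)]),(0,1,[(5,6)])],[]),([(0,1,[(4,6)]),(0,3,[(2,3)])],[3,2,2])],[],false,1,0,[]),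
    (true,[([(0,2,[(7,9)])],[1,1])],[6,5,5,4,4],false,3,6,[4,5,6,8,9]),
    (true,[([(0,2,[(7,9)]),(0,12,[(4,4)])],[])],[6,5,4,4,3],false,4,3,[]),
    (true,[([(0,5,[(7,9),(5,5)])],[3])],[6,5,4,3],false,4,3,[5]),
    (false,[([(0,2,[(7,9)]),(0,2,[(5,5),(5,5)])],[])],[9,7],false,2,4,[3,5]),
    (true,[([(0,5,[(7,9),(5,5)])],[3]),([(0,2,[(5,5),(3,3)])],[4,4])],[],false,1,0,[3]),
    (true,[([(0,5,[(7,9),(5,5)])],[4]),([(0,1,[(5,5)]),(0,1,[(3,3),(2,3)])],[])],[5],false,1,0,[2]),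
    (true,[([(0,8,[(7,9),(5,5),(5,5),(2,2)])],[]),([(0,1,[(3,3),(2,3)])],[3,3,3])],[],false,1,0,[]),
    (true,[([(0,5,[(7,9),(5,5)])],[3]),([(0,2,[(5,5),(4,5)])],[4,4])],[],false,1,0,[2]),
    (true,[([(0,8,[(7,9),(5,5),(5,5),(2,2)])],[]),([(0,1,[(4,5)])],[3,3,3])],[],false,1,0,[]),
    (true,[([(0,5,[(7,9),(6,6)])],[3])],[6,5,4,3],false,4,3,[6]),
    (true,[([(0,8,[(7,9),(6,6),(5,6)])],[])],[6,5,4],false,3,3,[4]),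
    (true,[([(0,8,[(7,9),(6,6),(5,6)])],[]),([(0,12,[(4,4)])],[2,2,1])],[6],false,1,0,[]),
    (false,[([(0,2,[(7,9)]),(0,15,[(7,8)])],[3])],[8,7],false,2,6,[3,6,7]),
    (false,[([(0,2,[(7,9)]),(0,11,[(7,8),(3,3)])],[3])],[8,4],false,2,4,[3]),
    (true,[([(0,2,[(7,9)])],[2]),([(0,0,[(7,8)]),(0,1,[(3,3),(3,3)])],[])],[6,4],false,2,2,[3]),
    (true,[([(0,5,[(7,9),(3,3),(3,3)])],[4]),([(0,11,[(7,8),(3,3)])],[4,2])],[],false,1,0,[]),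
    (true,[([(0,2,[(7,9)])],[2]),([(0,0,[(7,8)]),(0,1,[(4,6)])],[])],[6,4],false,2,3,[3,4]),
    (true,[([(0,2,[(7,9)]),(0,3,[(3,3)])],[]),([(0,0,[(7,8)]),(0,1,[(4,6)])],[])],[5,4],false,2,1,[]),
    (true,[([(0,8,[(7,9),(7,8),(4,4)])],[]),([(0,1,[(4,6)])],[3,3,3])],[],false,1,0,[]),
    (true,[([(0,2,[(7,9)])],[3,3]),([(0,5,[(7,8),(7,7)])],[5])],[],false,1,0,[]),
    (false,[([(0,2,[(7,9)]),(0,6,[(9,9)])],[4])],[9,4],false,2,4,[4,5]),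
    (false,[([(0,2,[(7,9)]),(0,9,[(9,9),(3,4)])],[4])],[7,2],false,2,2,[3]),
    (false,[([(0,2,[(7,9)]),(0,9,[(9,9),(3,4)])],[4]),([(0,3,[(3,3)])],[2,1,1,1,1])],[],false,1,0,[]),
    (true,[([(0,17,[(7,9),(5,5)])],[3]),([(0,6,[(9,9)])],[3,1])],[6],false,1,0,[]),
    (true,[([(0,25,[(10,12)])],[4])],[6,5,5,4],false,3,4,[4,5,6,9,10]),
    (true,[([(0,25,[(10,12)])],[4]),([(0,12,[(4,4)])],[2,2,1])],[6,5],false,1,0,[3,4]),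
    (true,[([(0,5,[(10,12),(2,3)])],[]),([(0,12,[(4,4)])],[2,2,1,1])],[6,5],false,2,5,[3]),
    (true,[([(0,5,[(10,12),(2,3)])],[]),([(0,12,[(4,4)]),(0,3,[(3,3)])],[2,1])],[6,5],false,2,3,[3]),
    (true,[([(0,5,[(10,12),(2,3)])],[]),([(0,12,[(4,4)]),(0,3,[(3,3)]),(0,3,[(3,3)])],[])],[6,5],false,2,1,[]),
    (true,[([(0,8,[(10,12),(4,4),(4,4)])],[])],[6,5,4],false,3,3,[4]),
    (true,[([(0,8,[(10,12),(4,4),(4,4)])],[]),([(0,12,[(4,4)])],[2,2,1])],[6],false,1,0,[]),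
    (true,[([(0,14,[(10,12),(5,5)])],[2])],[6,5,4,2],false,4,2,[5]),
    (true,[([(0,18,[(10,12),(5,5),(5,5)])],[])],[6,5,3],false,2,1,[]),
    (true,[([(0,25,[(10,12)])],[4]),([(0,1,[(6,6)])],[3,3,3])],[5],false,1,0,[3,4,5]),
    (true,[([(0,8,[(10,12),(6,6),(2,3)])],[])],[6,5,4],false,3,3,[]),
    (true,[([(0,18,[(10,12),(6,6),(4,4)])],[])],[6,5,3],false,2,1,[]),
    (false,[([(0,14,[(10,12),(5,5)]),(0,1,[(6,6)])],[5])],[8],false,1,0,[]),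
    (true,[([(0,8,[(10,12),(7,9)])],[])],[6,5,4],false,3,3,[4]),
    (true,[([(0,8,[(10,12),(7,9)])],[]),([(0,12,[(4,4)])],[2,2,1])],[6],false,1,0,[]),
    (false,[([(0,18,[(10,12),(10,10)])],[6,5,3])],[],false,1,0,[]),
    (true,[([(0,5,[(13,15)])],[3])],[6,5,4,3],false,4,3,[6,7]),
    (true,[([(0,8,[(13,15),(5,6)])],[])],[6,5,4],false,3,2,[]),
    (false,[([(0,18,[(13,15),(7,7)])],[6,5,3])],[],false,1,0,[]),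
    (true,[([(0,13,[(16,19)])],[1])],[6,5,4,1],false,4,1,[])])]

theorem cj6e_3_ok : runAllJ S40 R40 F40 18 cj6e_3 = true := by decide +kernel

noncomputable def cj6e_4 : List (List ℕ × List NdJ) := [
  ([9,8,7,6,4,3], [
    (false,[],[9,8,7,6,4,3],false,6,3,[9,12,15,19]),
    (true,[([(0,2,[(7,9)])],[2,1])],[6,6,5,4,3],false,3,6,[4,6,8,9]),
    (true,[([(0,2,[(7,9)]),(0,12,[(4,4)])],[])],[6,6,4,4,3],false,2,9,[3,4]),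
    (true,[([(0,2,[(7,9)]),(0,3,[(3,3)])],[]),([(0,12,[(4,4)])],[2,1,1,1])],[6,5,4],false,3,4,[]),
    (true,[([(0,2,[(7,9)]),(0,12,[(4,4)])],[]),([(0,12,[(4,4)])],[2,2,1,1])],[6,4,3],false,3,3,[4]),
    (true,[([(0,2,[(7,9)]),(0,12,[(4,4)])],[]),([(0,12,[(4,4)]),(0,12,[(4,4)])],[1,1])],[6,4,3],false,3,3,[4]),
    (true,[([(0,8,[(7,9),(4,4),(4,4),(4,4)])],[]),([(0,12,[(4,4)])],[2,2,1,1])],[6],false,1,0,[]),
    (true,[([(0,5,[(7,9),(5,6)])],[1])],[6,6,5,4],false,3,4,[4,6]),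
    (true,[([(0,5,[(7,9),(5,6)])],[1]),([(0,12,[(4,4)])],[2,2,1,1])],[6,5],false,2,5,[3,4]),
    (true,[([(0,5,[(7,9),(5,6)])],[1]),([(0,12,[(4,4)]),(0,3,[(3,3)])],[2,1])],[6,5],false,2,3,[3]),
    (true,[([(0,5,[(7,9),(5,6)])],[1]),([(0,12,[(4,4)]),(0,3,[(3,3)]),(0,3,[(3,3)])],[])],[6,5],false,2,1,[]),
    (true,[([(0,5,[(7,9),(5,6)])],[]),([(0,12,[(4,4)]),(0,12,[(4,4)])],[2,2])],[6,4],false,2,2,[3]),
    (true,[([(0,5,[(7,9),(5,6)])],[1]),([(0,12,[(4,4)]),(0,12,[(4,4)]),(0,3,[(3,3)])],[])],[6,4],false,1,0,[]),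
    (true,[([(0,2,[(7,9)])],[3,1]),([(0,1,[(5,6)]),(0,1,[(5,6)])],[])],[6,5],false,2,4,[3,4,5]),
    (true,[([(0,5,[(7,9),(5,6)])],[4]),([(0,1,[(5,6)]),(0,3,[(3,3)])],[3])],[6],false,1,0,[2,3]),
    (true,[([(0,5,[(7,9),(5,6)])],[4]),([(0,1,[(5,6)]),(0,1,[(3,3),(2,2)])],[])],[6],false,1,0,[2]),
    (true,[([(0,2,[(7,9)])],[3,3]),([(0,1,[(5,6)]),(0,1,[(5,6)])],[]),([(0,3,[(3,3)]),(0,3,[(2,2)]),(0,3,[(2,2)])],[])],[],false,1,0,[]),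
    (true,[([(0,5,[(7,9),(5,6)])],[4]),([(0,1,[(5,6)]),(0,1,[(3,3),(3,3)])],[])],[6],false,1,0,[]),
    (true,[([(0,5,[(7,9),(5,6)])],[5]),([(0,1,[(5,6)]),(0,12,[(4,4)])],[1])],[6],false,1,0,[2]),
    (true,[([(0,5,[(7,9),(5,6)])],[4]),([(0,1,[(5,6)]),(0,1,[(4,4),(2,2)])],[])],[6],false,1,0,[]),
    (true,[([(0,5,[(7,9),(5,6)])],[4]),([(0,1,[(5,6)]),(0,1,[(5,5)])],[])],[6],false,1,0,[]),
    (false,[([(0,2,[(7,9)]),(0,15,[(7,8)])],[4])],[8,7],false,2,6,[3,6,7]),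
    (false,[([(0,2,[(7,9)]),(0,11,[(7,8),(3,3)])],[4])],[8,4],false,2,4,[3]),
    (true,[([(0,2,[(7,9)])],[2,1]),([(0,0,[(7,8)]),(0,1,[(3,3),(3,3)])],[])],[6,4],false,2,2,[3]),
    (true,[([(0,5,[(7,9),(3,3),(3,3)])],[4]),([(0,0,[(7,8)]),(0,3,[(3,3)])],[1])],[6],false,1,0,[]),
    (true,[([(0,2,[(7,9)])],[2,1]),([(0,0,[(7,8)]),(0,1,[(4,6)])],[])],[6,4],false,2,3,[3,4]),
    (true,[([(0,2,[(7,9)]),(0,3,[(3,3)])],[]),([(0,0,[(7,8)]),(0,1,[(4,6)])],[])],[6,4],false,2,1,[]),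
    (true,[([(0,2,[(7,9)])],[2,1]),([(0,0,[(7,8)]),(0,1,[(4,6)])],[]),([(0,12,[(4,4)])],[2,2,1,1])],[],false,1,0,[]),
    (true,[([(0,2,[(7,9)])],[]),([(0,0,[(7,8)]),(0,0,[(7,7)])],[])],[6,5],false,1,0,[]),
    (false,[([(0,2,[(7,9)]),(0,6,[(9,9)])],[4,4])],[6,4],false,2,4,[4,5]),
    (false,[([(0,2,[(7,9)]),(0,9,[(9,9),(3,4)])],[3])],[7,4],false,2,2,[3]),
    (true,[([(0,25,[(7,9),(3,3)])],[4]),([(0,9,[(9,9),(3,4)])],[4,4])],[],false,1,0,[]),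
    (true,[([(0,17,[(7,9),(5,5)])],[3]),([(0,6,[(9,9)])],[3,1,1])],[6],false,1,0,[]),
    (true,[([(0,25,[(10,12)])],[4])],[6,6,5,4],false,3,4,[4,5,6,9,10]),
    (true,[([(0,25,[(10,12)])],[4]),([(0,12,[(4,4)])],[2,2,1])],[6,6],false,1,0,[3,4]),
    (true,[([(0,5,[(10,12),(2,3)])],[1]),([(0,12,[(4,4)])],[2,2,1,1])],[6,5],false,2,5,[3]),
    (true,[([(0,5,[(10,12),(2,3)])],[1]),([(0,12,[(4,4)]),(0,3,[(3,3)])],[2,1])],[6,5],false,2,3,[3]),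
    (true,[([(0,5,[(10,12),(2,3)])],[1]),([(0,12,[(4,4)]),(0,3,[(3,3)]),(0,3,[(3,3)])],[])],[6,5],false,2,1,[]),
    (true,[([(0,8,[(10,12),(4,4),(4,4)])],[])],[6,6,4],false,2,3,[3,4]),
    (true,[([(0,5,[(10,12),(3,3)])],[]),([(0,12,[(4,4)]),(0,12,[(4,4)])],[2,2])],[6,4],false,2,1,[]),
    (true,[([(0,8,[(10,12),(4,4),(4,4)])],[]),([(0,12,[(4,4)])],[2,2,1,1])],[6],false,1,0,[]),
    (true,[([(0,14,[(10,12),(5,5)])],[1])],[6,6,5,2],false,3,2,[5]),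
    (true,[([(0,14,[(10,12),(5,5)])],[2]),([(0,4,[(4,5)])],[3,2,2])],[6],false,1,0,[3]),
    (true,[([(0,14,[(10,12),(5,5)])],[2]),([(0,1,[(4,5)]),(0,3,[(2,3)])],[3])],[6],false,1,0,[2]),
    (true,[([(0,14,[(10,12),(5,5)])],[2]),([(0,1,[(4,5)]),(1,0,[(2,3),(2,2)])],[])],[6],false,1,0,[]),
    (true,[([(0,25,[(10,12)])],[4]),([(0,1,[(6,6)])],[3,3,3])],[6],false,1,0,[3,4,5]),
    (true,[([(0,8,[(10,12),(6,6),(2,3)])],[])],[6,6,4],false,2,3,[3]),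
    (true,[([(0,8,[(10,12),(6,6),(2,3)])],[]),([(0,3,[(3,3)])],[2,2,2,1])],[6],false,1,0,[2]),
    (true,[([(0,8,[(10,12),(6,6),(2,3)])],[]),([(0,3,[(3,3)]),(0,3,[(2,2)])],[2,2])],[6],false,1,0,[]),
    (true,[([(0,18,[(10,12),(6,6),(4,4)])],[])],[6,6,3],false,2,1,[]),
    (true,[([(0,14,[(10,12),(5,5)])],[1]),([(0,1,[(6,6)])],[3,2,2])],[6],false,1,0,[]),
    (true,[([(0,8,[(10,12),(7,9)])],[])],[6,6,4],false,2,3,[3,4]),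
    (true,[([(0,8,[(10,12),(7,9)])],[]),([(0,3,[(3,3)])],[2,2,2,1])],[6],false,1,0,[2]),
    (true,[([(0,8,[(10,12),(7,9)])],[]),([(0,3,[(3,3)]),(0,3,[(2,2)])],[2,2])],[6],false,1,0,[]),
    (true,[([(0,8,[(10,12),(7,9)])],[]),([(0,12,[(4,4)])],[2,2,1,1])],[6],false,1,0,[]),
    (false,[([(0,18,[(10,12),(10,10)])],[6,6,3])],[],false,1,0,[]),
    (true,[([(0,5,[(13,15)])],[1])],[6,6,5,4],false,3,4,[6,7]),
    (true,[([(0,8,[(13,15),(4,6)])],[])],[6,6,4],false,2,3,[3,4]),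
    (true,[([(0,8,[(13,15),(4,6)])],[]),([(0,3,[(3,3)])],[2,2,2,1])],[6],false,1,0,[2]),
    (true,[([(0,8,[(13,15),(4,6)])],[]),([(0,3,[(3,3)]),(0,3,[(2,2)])],[2,2])],[6],false,1,0,[]),
    (true,[([(0,8,[(13,15),(4,6)])],[]),([(0,12,[(4,4)])],[2,2,1,1])],[6],false,1,0,[]),
    (false,[([(0,18,[(13,15),(7,7)])],[6,6,3])],[],false,1,0,[]),
    (true,[([(0,13,[(16,19)])],[2])],[6,5,4,1],false,4,1,[])]),
  ([9,8,7,6,5,1], [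
    (false,[],[9,8,7,6,5,1],false,5,6,[6,8,10,13,17,19]),
    (true,[([(0,1,[(6,6)])],[1,1])],[6,5,5,5,4,3],false,3,6,[4,5,6]),
    (true,[([(0,1,[(6,6)]),(0,12,[(4,4)])],[2])],[5,5,5,4,3,2],true,4,3,[]),
    (true,[([(0,11,[(6,6),(5,5)])],[3,2])],[5,5,5,3,2],true,3,4,[4,5]),
    (true,[([(0,11,[(6,6),(5,5)]),(0,12,[(4,4)])],[])],[5,5,5,4,2],true,3,3,[4]),
    (true,[([(0,11,[(6,6),(5,5)]),(0,12,[(4,4)])],[]),([(0,12,[(4,4)])],[2,2,2])],[5,4,2],false,3,2,[4]),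
    (true,[([(0,8,[(6,6),(5,5),(4,4),(4,4)])],[]),([(0,12,[(4,4)])],[2,2,2])],[5],false,1,0,[]),
    (false,[([(0,11,[(6,6),(5,5)]),(0,4,[(5,5)])],[3,2])],[8,7],false,2,5,[3,4,5]),
    (true,[([(0,11,[(6,6),(5,5)])],[4,4]),([(0,4,[(5,5)]),(0,3,[(3,3)])],[])],[5,4],false,2,3,[3]),
    (true,[([(0,11,[(6,6),(5,5)])],[4,4]),([(0,4,[(5,5)]),(0,3,[(3,3)])],[]),([(0,3,[(3,3)])],[2,2,2])],[],false,1,0,[2]),
    (false,[([(0,11,[(6,6),(5,5)]),(0,1,[(5,5)])],[3,3]),([(0,3,[(3,3)]),(0,3,[(3,3)]),(0,3,[(2,2)])],[2,2])],[],false,1,0,[]),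
    (true,[([(0,11,[(6,6),(5,5)])],[4,3]),([(0,4,[(5,5)]),(0,12,[(4,4)])],[])],[5,4],false,2,2,[3]),
    (true,[([(0,8,[(6,6),(5,5),(5,5),(3,3)])],[]),([(0,12,[(4,4)])],[2,2,2])],[5],false,1,0,[]),
    (false,[([(0,8,[(6,6),(5,5),(5,5),(5,5)])],[5,5,5])],[],false,1,0,[2]),
    (true,[([(0,0,[(6,6),(2,2)])],[2,2]),([(0,5,[(5,5),(5,5),(5,5)])],[4])],[5],false,1,0,[]),
    (true,[([(0,1,[(6,6)]),(0,1,[(6,6)])],[])],[5,5,5,5,3,1],true,3,6,[4,5,6]),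
    (true,[([(0,1,[(6,6)]),(0,1,[(6,6)])],[]),([(0,12,[(4,4)])],[2,2,2])],[5,5,3,1],true,3,4,[4]),
    (true,[([(0,1,[(6,6)]),(0,1,[(6,6)])],[]),([(0,12,[(4,4)]),(0,12,[(4,4)])],[2])],[5,5,3,1],false,3,1,[]),
    (false,[([(0,11,[(6,6),(5,5)]),(0,1,[(6,6)])],[3])],[9,7],false,2,4,[3,5]),
    (true,[([(0,11,[(6,6),(5,5)])],[4,3]),([(0,1,[(6,6)]),(0,3,[(3,3)])],[])],[5,4],false,2,2,[3]),
    (false,[([(0,11,[(6,6),(5,5)]),(0,1,[(6,6)])],[3]),([(0,3,[(3,3)]),(0,3,[(3,3)])],[2,2,2,2,2])],[],false,1,0,[]),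
    (true,[([(0,11,[(6,6),(5,5)])],[2]),([(0,11,[(6,6),(4,5)])],[4,3])],[5],false,1,0,[2]),
    (true,[([(0,0,[(6,6),(2,2)]),(0,1,[(6,6)])],[]),([(0,2,[(5,5),(4,5)])],[2])],[5,5],false,1,0,[]),
    (false,[([(0,8,[(6,6),(6,6),(6,6)])],[5,5,5])],[],false,1,0,[2,3,4]),
    (true,[([(0,0,[(6,6),(2,2)]),(0,1,[(6,6)])],[]),([(0,1,[(6,6)])],[1,1])],[5,5,4],false,2,2,[]),
    (false,[([(0,8,[(6,6),(6,6),(6,6),(3,3)])],[5,5,5])],[],false,1,0,[2]),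
    (true,[([(0,5,[(6,6),(6,6),(3,3)])],[2]),([(0,0,[(6,6),(2,2)])],[3,3])],[5],false,1,0,[]),
    (true,[([(0,8,[(6,6),(6,6),(6,6)])],[]),([(0,12,[(4,4)])],[2,2,2])],[5],false,1,0,[]),
    (true,[([(0,0,[(7,8)])],[2,2])],[6,5,5,4,3,1],false,4,4,[5,6,8]),
    (true,[([(0,0,[(7,8)]),(0,1,[(5,5)])],[])],[5,5,5,4,2,1],true,4,3,[5]),
    (false,[([(0,0,[(7,8)]),(0,2,[(5,5),(5,5)])],[3])],[9,6],false,2,4,[3,4,5]),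
    (true,[([(0,0,[(7,8)]),(0,1,[(5,5)])],[]),([(0,4,[(5,5)]),(0,3,[(3,3)])],[])],[5,5,4],false,2,2,[3]),
    (true,[([(0,0,[(7,8)]),(0,1,[(3,3),(3,3)])],[]),([(0,2,[(5,5),(5,5)])],[2])],[5,5],false,1,0,[]),
    (true,[([(0,0,[(7,8)]),(0,12,[(4,4)])],[]),([(0,2,[(5,5),(5,5)])],[3])],[6,5],false,2,1,[]),
    (true,[([(0,0,[(7,8)])],[2,2]),([(0,5,[(5,5),(5,5),(5,5)])],[4])],[5],false,1,0,[]),
    (true,[([(0,0,[(7,8)]),(0,1,[(6,6)])],[])],[5,5,5,4,2,1],true,4,3,[6]),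
    (true,[([(0,0,[(7,8)]),(0,1,[(6,6)])],[]),([(0,1,[(5,6)])],[1,1])],[5,5,4],false,2,3,[3,4]),
    (true,[([(0,0,[(7,8)])],[2,2]),([(0,5,[(6,6),(5,6),(3,3)])],[4])],[5],false,1,0,[2]),
    (false,[([(0,0,[(7,8)]),(0,0,[(6,6),(2,2)]),(0,1,[(5,6)])],[]),([(0,3,[(3,3)])],[1,1,1,1])],[7],false,1,0,[]),
    (true,[([(0,8,[(7,8),(6,6),(5,6)])],[]),([(0,12,[(4,4)])],[2,2,2])],[5],false,1,0,[]),
    (false,[([(0,0,[(7,8)]),(0,0,[(7,8)])],[3,1])],[9,6,1],true,3,3,[6,7]),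
    (false,[([(0,0,[(7,8)]),(0,0,[(7,8)]),(0,1,[(4,6)])],[])],[7,6,1],false,3,1,[4]),
    (false,[([(0,0,[(7,8)]),(0,0,[(7,8)]),(0,1,[(4,6)])],[]),([(0,12,[(4,4)])],[2,2,2,2,1])],[1],false,1,0,[]),
    (true,[([(0,5,[(7,8),(7,7)])],[2]),([(0,0,[(7,8)])],[3,3])],[5],false,1,0,[]),
    (true,[([(0,2,[(9,10)])],[1])],[6,5,5,5,4],false,2,10,[3,4,5,7,8,9,10]),
    (true,[([(0,9,[(9,10),(3,3)])],[2])],[6,5,5,4,1],false,3,5,[]),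
    (true,[([(0,2,[(9,10)]),(0,12,[(4,4)])],[])],[5,5,5,4,3],false,3,3,[4]),
    (true,[([(0,2,[(9,10)]),(0,12,[(4,4)])],[]),([(0,12,[(4,4)])],[2,2,2])],[5,4,3],false,3,3,[4]),
    (true,[([(0,17,[(9,10),(4,4)])],[3]),([(0,12,[(4,4)]),(0,12,[(4,4)])],[2])],[5,4],false,2,1,[]),
    (true,[([(0,5,[(9,10),(5,5)])],[])],[6,5,5,5],false,2,6,[3,4,5]),
    (true,[([(0,9,[(9,10),(3,3)])],[3]),([(0,4,[(5,5)])],[2,2])],[6,5],false,2,4,[3]),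
    (true,[([(0,9,[(9,10),(3,3)])],[4]),([(0,4,[(5,5)]),(0,3,[(3,3)])],[])],[6,5],false,2,2,[3]),
    (true,[([(0,9,[(9,10),(3,3)])],[4]),([(0,4,[(5,5)]),(0,3,[(3,3)])],[]),([(0,3,[(3,3)])],[2,2,2,2])],[],false,1,0,[]),
    (true,[([(0,5,[(9,10),(5,5)])],[]),([(0,12,[(4,4)])],[2,2,2])],[6,5],false,2,3,[3,4]),
    (true,[([(0,9,[(9,10),(3,3)])],[3]),([(0,4,[(5,5)]),(0,12,[(4,4)])],[])],[6,5],false,2,1,[]),
    (true,[([(0,8,[(9,10),(5,5),(4,4)])],[]),([(0,12,[(4,4)])],[2,2,2])],[5],false,1,0,[]),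
    (false,[([(0,8,[(9,10),(5,5),(5,5)])],[5,5,5])],[],false,1,0,[2,3]),
    (true,[([(0,14,[(9,10),(5,5),(2,2)])],[4]),([(0,4,[(5,5)])],[3,2])],[5],false,1,0,[2]),
    (true,[([(0,14,[(9,10),(5,5),(2,2)])],[5]),([(0,1,[(5,5)]),(0,3,[(2,2)])],[])],[5],false,1,0,[]),
    (true,[([(0,9,[(9,10),(3,3)])],[2]),([(0,2,[(5,5),(5,5)])],[3,3])],[5],false,1,0,[]),
    (true,[([(0,14,[(9,10),(6,7)])],[3])],[5,5,4,2],false,3,2,[4,6]),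
    (true,[([(0,14,[(9,10),(6,7)])],[2]),([(0,12,[(4,4)])],[2,2,2])],[5,2],false,2,2,[3]),
    (true,[([(0,8,[(9,10),(6,7),(3,3)])],[]),([(0,12,[(4,4)])],[2,2,2])],[5],false,1,0,[]),
    (true,[([(0,14,[(9,10),(6,7)])],[3]),([(0,1,[(5,6)])],[3,2])],[5],false,1,0,[2]),
    (true,[([(0,14,[(9,10),(6,7)])],[5]),([(0,1,[(5,6)]),(0,3,[(2,2)])],[])],[5],false,1,0,[]),
    (false,[([(0,2,[(9,10)]),(0,0,[(8,8)])],[3])],[9,6],false,2,3,[4]),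
    (true,[([(0,17,[(9,10),(3,4)])],[3]),([(0,0,[(8,8)])],[3,3])],[5],false,1,0,[2]),
    (true,[([(0,2,[(9,10)])],[2]),([(0,0,[(8,8)]),(0,1,[(3,4),(2,2)])],[])],[5,5],false,1,0,[]),
    (false,[([(0,2,[(9,10)]),(0,6,[(9,9)])],[])],[9,8],false,2,2,[3]),
    (true,[([(0,9,[(9,10),(3,3)])],[1]),([(0,6,[(9,9)])],[3,3])],[6,1],false,1,0,[]),
    (false,[([(0,8,[(9,10),(10,10)])],[5,5,5])],[],false,1,0,[2]),
    (true,[([(0,2,[(9,10)])],[3,3]),([(0,10,[(10,10),(2,2)])],[3])],[5],false,1,0,[]),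
    (true,[([(0,9,[(11,13)])],[2])],[6,5,5,4,1],false,3,5,[4,5,6,8,9]),
    (true,[([(0,14,[(11,13),(4,4)])],[3])],[5,5,4,2],false,3,2,[4]),
    (true,[([(0,9,[(11,13)])],[1]),([(0,12,[(4,4)]),(0,12,[(4,4)])],[2])],[6,5,1],false,3,1,[]),
    (true,[([(0,9,[(11,13)])],[3]),([(0,4,[(5,5)])],[2,2])],[6,5],false,2,4,[3,4,5]),
    (true,[([(0,9,[(11,13)])],[4]),([(0,4,[(5,5)]),(0,3,[(3,3)])],[])],[6,5],false,2,2,[3]),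
    (true,[([(0,9,[(11,13)])],[4]),([(0,4,[(5,5)]),(0,3,[(3,3)])],[]),([(0,3,[(3,3)])],[2,2,2,2])],[],false,1,0,[]),
    (true,[([(0,9,[(11,13)])],[3]),([(0,4,[(5,5)]),(0,12,[(4,4)])],[])],[6,5],false,2,1,[]),
    (true,[([(0,9,[(11,13)])],[2]),([(0,2,[(5,5),(5,5)])],[3,3])],[5],false,1,0,[]),
    (true,[([(0,13,[(11,13),(6,6)])],[])],[6,5,5,1],false,3,1,[4]),
    (true,[([(0,13,[(11,13),(6,6)])],[]),([(0,12,[(4,4)])],[2,2,2])],[6,1],false,1,0,[]),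
    (true,[([(0,9,[(11,13)])],[2]),([(0,0,[(7,8)])],[3,3])],[6,1],true,2,2,[3]),
    (true,[([(0,9,[(11,13)])],[1]),([(0,11,[(7,8),(3,3)])],[3,3])],[5],false,1,0,[]),
    (true,[([(0,9,[(11,13)])],[1]),([(0,6,[(9,9)])],[3,3])],[6,1],false,1,0,[]),
    (true,[([(0,14,[(14,17)])],[3])],[5,5,4,2],false,3,2,[4,6]),
    (true,[([(0,14,[(14,17)])],[2]),([(0,12,[(4,4)])],[2,2,2])],[5,2],false,2,2,[3]),
    (true,[([(0,8,[(14,17),(3,3)])],[]),([(0,12,[(4,4)])],[2,2,2])],[5],false,1,0,[]),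
    (true,[([(0,14,[(14,17)])],[3]),([(0,1,[(5,6)])],[3,2])],[5],false,1,0,[2]),
    (true,[([(0,14,[(14,17)])],[5]),([(0,1,[(5,6)]),(0,3,[(2,2)])],[])],[5],false,1,0,[]),
    (true,[([(0,13,[(18,19)])],[])],[6,5,5,1],false,2,1,[])]),
  ([9,8,7,6,5,4], [
    (false,[],[9,8,7,6,5,4],false,6,4,[8,9,11,13,15,19]),
    (true,[([(0,0,[(7,8)])],[2,2,1])],[6,6,6,4,3,1],true,4,4,[6,8]),
    (true,[([(0,0,[(7,8)]),(0,1,[(5,6)])],[])],[6,6,6,4,2,1],true,4,5,[6]),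
    (false,[([(0,0,[(7,8)]),(0,1,[(5,6)]),(0,1,[(5,6)])],[])],[8,6,5],false,3,4,[5]),
    (true,[([(0,0,[(7,8)]),(0,1,[(5,6)])],[]),([(0,1,[(5,6)]),(0,1,[(4,5)])],[])],[6,6,1],false,2,1,[]),
    (true,[([(0,0,[(7,8)]),(0,0,[(7,8)])],[])],[6,6,5,3,2,1],false,5,1,[7]),
    (true,[([(0,0,[(7,8)]),(0,0,[(7,8)])],[]),([(0,19,[(6,7)])],[3,2])],[6,5],false,2,1,[]),
    (true,[([(0,6,[(9,9)])],[2,2,2])],[6,6,5,4,2,1],true,5,2,[8,9]),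
    (true,[([(0,14,[(9,9),(6,8)])],[2])],[6,6,6,2],true,2,5,[4,6]),
    (false,[([(0,9,[(9,9),(3,4)]),(0,15,[(6,8)])],[4])],[8,6],false,2,3,[3,4]),
    (false,[([(0,9,[(9,9),(3,4)]),(0,15,[(6,8)])],[4]),([(0,3,[(3,3)])],[2,2,2,2,2,1])],[],false,1,0,[2]),
    (false,[([(0,9,[(9,9),(3,4)]),(0,2,[(6,8),(2,2)])],[4]),([(0,3,[(3,3)])],[2,2,2,2,1])],[],false,1,0,[]),
    (true,[([(0,8,[(9,9),(6,8),(3,4)])],[]),([(0,12,[(4,4)])],[2,2,2,2])],[6],false,1,0,[]),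
    (true,[([(0,6,[(9,9)]),(0,1,[(5,6)])],[]),([(0,15,[(6,8)])],[3,1])],[6,6],false,1,0,[2]),
    (true,[([(0,6,[(9,9)]),(0,1,[(5,6)])],[]),([(0,2,[(6,8),(2,2)])],[1,1])],[6,6],false,1,0,[]),
    (false,[([(0,6,[(9,9)]),(0,6,[(9,9)])],[2,1])],[9,5,4],false,3,2,[]),
    (true,[([(0,11,[(10,11)])],[2,2])],[6,6,6,4,2],true,3,6,[4,6,8,10]),
    (true,[([(0,11,[(10,11)]),(0,12,[(4,4)])],[])],[6,6,6,4,2],true,3,6,[4]),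
    (true,[([(0,13,[(10,11),(4,4),(4,4)])],[2])],[6,6,5,1],false,3,1,[4]),
    (true,[([(0,13,[(10,11),(4,4),(4,4)])],[1]),([(0,12,[(4,4)])],[2,2,2,2])],[6,1],false,1,0,[]),
    (true,[([(0,14,[(10,11),(5,6)])],[2])],[6,6,6,2],true,2,5,[3,4,6]),
    (false,[([(0,8,[(10,11),(5,6),(3,3)])],[6,6,6])],[],false,1,0,[2,3]),
    (false,[([(0,9,[(10,11),(2,2)]),(0,2,[(5,6),(3,3)])],[4])],[7,5],false,2,2,[]),
    (true,[([(0,14,[(10,11),(5,6)])],[2]),([(0,3,[(3,3)]),(0,3,[(3,3)])],[1,1])],[6,6],false,1,0,[2]),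
    (false,[([(0,9,[(10,11),(2,2)]),(0,2,[(5,6),(3,3)])],[4]),([(0,3,[(3,3)])],[2,2,2,2,1])],[],false,1,0,[]),
    (true,[([(0,14,[(10,11),(5,6)])],[2]),([(0,12,[(4,4)])],[2,2,2,2])],[6,2],false,2,2,[3]),
    (true,[([(0,8,[(10,11),(5,6),(3,3)])],[]),([(0,12,[(4,4)])],[2,2,2,2])],[6],false,1,0,[]),
    (true,[([(0,11,[(10,11)])],[2,2]),([(0,1,[(5,6)]),(0,1,[(5,6)])],[])],[6,6],false,1,0,[2]),
    (true,[([(0,9,[(10,11),(2,2)])],[4,3]),([(0,1,[(5,6)]),(0,1,[(5,6)])],[])],[6,1],false,1,0,[]),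
    (true,[([(0,13,[(10,11),(7,8)])],[2])],[6,6,5,1],false,3,1,[4]),
    (true,[([(0,13,[(10,11),(7,8)])],[1]),([(0,12,[(4,4)])],[2,2,2,2])],[6,1],false,1,0,[]),
    (false,[([(0,8,[(10,11),(9,10)])],[6,6,6])],[],false,1,0,[2]),
    (false,[([(0,9,[(10,11),(2,2)]),(0,2,[(9,10)])],[4])],[7,5],false,1,0,[]),
    (true,[([(0,9,[(12,13)])],[2,2])],[6,6,5,4,1],true,4,2,[6,8]),
    (true,[([(0,13,[(12,13),(5,6)])],[2])],[6,6,5,1],false,3,1,[4]),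
    (true,[([(0,13,[(12,13),(5,6)])],[1]),([(0,12,[(4,4)])],[2,2,2,2])],[6,1],false,1,0,[]),
    (false,[([(0,9,[(12,13)]),(0,15,[(7,8)])],[4])],[8,6],false,2,1,[]),
    (true,[([(0,16,[(14,15)])],[3,3])],[6,5,4,2,1],false,5,1,[6]),
    (false,[([(0,8,[(14,15),(6,6)])],[6,6,6])],[],false,1,0,[]),
    (true,[([(0,13,[(16,19)])],[2])],[6,6,5,1],false,3,1,[4]),
    (true,[([(0,13,[(16,19)])],[1]),([(0,12,[(4,4)])],[2,2,2,2])],[6,1],false,1,0,[])]),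
  ([9,8,8,5,4,2,1], [
    (false,[],[9,8,8,5,4,2,1],true,5,5,[8,11,15,19]),
    (false,[([(0,15,[(6,8)])],[3,2,1,1])],[9,8,5],false,1,0,[3,4,5,6,8]),
    (false,[([(0,15,[(6,8)]),(0,3,[(2,3)])],[3,1])],[9,8,5],false,1,0,[2,3]),
    (false,[([(0,2,[(6,8),(2,2)]),(0,3,[(2,3)])],[1,1])],[9,8,5],false,2,11,[]),
    (false,[([(0,15,[(6,8)]),(0,1,[(2,3),(3,3)])],[1])],[9,8,5],false,3,5,[]),
    (false,[([(0,15,[(6,8)]),(0,4,[(4,4)])],[2])],[9,8,5],false,3,5,[4]),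
    (false,[([(0,15,[(6,8)]),(0,12,[(4,4)]),(0,4,[(4,4)])],[])],[8,8,4],true,2,7,[3,4]),
    (false,[([(0,5,[(6,8),(4,4),(3,3)]),(0,12,[(4,4)])],[3,2])],[8,5],false,2,5,[3]),
    (true,[([(0,5,[(6,8),(4,4),(3,3)])],[4]),([(0,12,[(4,4)]),(0,3,[(3,3)])],[1])],[7,3],false,2,3,[3]),
    (true,[([(0,5,[(6,8),(4,4),(3,3)])],[4]),([(0,1,[(4,4)]),(0,1,[(3,3),(3,3)])],[3])],[3],false,1,0,[2]),
    (true,[([(0,5,[(6,8),(4,4),(3,3)])],[4]),([(0,1,[(4,4),(2,2)]),(0,1,[(3,3),(3,3)])],[3])],[3],false,1,0,[]),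
    (true,[([(0,25,[(6,8),(4,4)])],[5,5]),([(0,2,[(4,4),(4,4)])],[3,2])],[],false,1,0,[2,3,4]),
    (true,[([(0,2,[(6,8),(2,2)]),(0,12,[(4,4)])],[3]),([(0,12,[(4,4)]),(0,12,[(4,4)])],[1])],[5,3,3],false,2,3,[]),
    (true,[([(0,25,[(6,8),(4,4)])],[5,5]),([(0,12,[(4,4)]),(0,12,[(4,4)]),(0,3,[(3,3)])],[])],[3,1],true,2,2,[3]),
    (false,[([(0,5,[(6,8),(4,4),(3,3)]),(0,12,[(4,4)])],[3,2]),([(0,12,[(4,4)]),(0,3,[(3,3)])],[2,2,1,1])],[],false,1,0,[]),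
    (false,[([(0,25,[(6,8),(4,4)])],[4,3,1]),([(0,12,[(4,4)]),(0,12,[(4,4)]),(0,12,[(4,4)])],[2,2,1])],[],false,1,0,[2]),
    (false,[([(0,25,[(6,8),(4,4)])],[4,3,1]),([(0,12,[(4,4)]),(0,12,[(4,4)]),(0,12,[(4,4)]),(0,3,[(2,2)])],[2])],[],false,1,0,[]),
    (false,[([(0,15,[(6,8)]),(0,4,[(5,5)])],[2])],[9,8,5],false,3,5,[4,5]),
    (false,[([(0,15,[(6,8)]),(0,4,[(5,5)]),(0,12,[(4,4)])],[])],[8,8,4],true,2,6,[3,4]),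
    (false,[([(0,5,[(6,8),(4,4),(3,3)]),(0,4,[(5,5)])],[])],[9,8],false,2,4,[3]),
    (true,[([(0,5,[(6,8),(4,4),(3,3)])],[4]),([(0,15,[(5,5),(3,3)])],[4,4,2])],[],false,1,0,[3]),
    (true,[([(0,5,[(6,8),(4,4),(3,3)])],[4]),([(0,1,[(5,5)]),(0,1,[(3,3),(2,3)])],[3])],[3],false,1,0,[2]),
    (false,[([(0,5,[(6,8),(5,5),(2,2)]),(0,12,[(4,4)])],[3,2]),([(0,3,[(3,3)]),(0,3,[(3,3)]),(0,3,[(2,3)])],[2,2])],[],false,1,0,[]),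
    (true,[([(0,8,[(6,8),(5,5),(4,4),(4,4)])],[5])],[5,3,3],false,2,3,[3,4]),
    (true,[([(0,8,[(6,8),(5,5),(4,4),(4,4)])],[5]),([(0,3,[(3,3)])],[2,2,1])],[3],false,1,0,[2]),
    (true,[([(0,8,[(6,8),(5,5),(4,4),(4,4)])],[5]),([(0,4,[(3,3),(2,2)])],[3,3])],[],false,1,0,[]),
    (false,[([(0,8,[(6,8),(5,5),(4,4),(4,4)]),(0,12,[(4,4)])],[4])],[8],false,1,0,[]),
    (true,[([(0,15,[(6,8)])],[3,3,2]),([(0,2,[(5,5),(5,5)])],[4,4])],[3],false,1,0,[2,3,4,5]),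
    (false,[([(0,5,[(6,8),(5,5),(2,2)]),(0,4,[(5,5)])],[])],[9,8],false,2,4,[]),
    (true,[([(0,8,[(6,8),(5,5),(5,5),(3,3)])],[5])],[5,3,3],false,2,3,[3]),
    (true,[([(0,8,[(6,8),(5,5),(5,5),(3,3)])],[5]),([(0,3,[(3,3)])],[2,2,1])],[3],false,1,0,[2]),
    (true,[([(0,8,[(6,8),(5,5),(5,5),(3,3)])],[5]),([(0,4,[(3,3),(2,2)])],[3,3])],[],false,1,0,[]),
    (true,[([(0,25,[(6,8),(4,4)])],[5,5]),([(0,2,[(5,5),(5,5)])],[3,2])],[],false,1,0,[2,3]),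
    (false,[([(0,5,[(6,8),(5,5),(2,2)]),(0,4,[(5,5)])],[]),([(0,12,[(4,4)])],[2,2,2,2,2,2,1])],[],false,1,0,[2]),
    (true,[([(0,5,[(6,8),(5,5),(2,2)])],[4]),([(0,1,[(5,5)]),(0,1,[(4,4),(2,2)])],[3])],[3],false,1,0,[]),
    (false,[([(0,8,[(6,8),(5,5),(5,5),(3,3)]),(0,12,[(4,4)])],[4])],[8],false,1,0,[]),
    (true,[([(0,15,[(6,8)])],[4,4,2]),([(0,5,[(5,5),(5,5),(5,5)])],[4])],[],false,1,0,[2]),
    (true,[([(0,5,[(6,8),(5,5),(2,2)])],[4]),([(0,4,[(5,5)]),(0,4,[(5,5)])],[3])],[5],false,1,0,[]),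
    (true,[([(0,17,[(6,8),(6,6)])],[4])],[7,5,4,3],false,4,3,[5,6]),
    (true,[([(0,7,[(6,8),(6,6),(5,5)])],[5])],[5,5,3],true,2,4,[3,5]),
    (true,[([(0,7,[(6,8),(6,6),(5,5)])],[5]),([(0,3,[(3,3)])],[2,2,1])],[5],false,1,0,[3]),
    (true,[([(0,7,[(6,8),(6,6),(5,5)])],[5]),([(0,3,[(3,3)]),(0,3,[(2,3)])],[2])],[5],false,1,0,[2]),
    (true,[([(0,8,[(6,8),(6,6),(5,5),(2,2)])],[5]),([(0,3,[(3,3)]),(0,3,[(2,3)])],[2])],[3],false,1,0,[]),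
    (true,[([(0,17,[(6,8),(6,6)])],[4]),([(0,2,[(5,5),(4,5)])],[4,4,1])],[],false,1,0,[2]),
    (true,[([(0,8,[(6,8),(6,6),(5,5),(2,2)])],[5]),([(0,4,[(4,5)])],[3,3])],[],false,1,0,[]),
    (true,[([(0,8,[(6,8),(6,6),(6,6)])],[5])],[5,3,3],false,2,3,[4]),
    (true,[([(0,17,[(6,8),(6,6)])],[4]),([(0,2,[(6,6),(3,4)])],[4,4,1])],[],false,1,0,[2]),
    (true,[([(0,17,[(6,8),(6,6)])],[4]),([(0,1,[(6,6)]),(0,1,[(3,4),(2,2)])],[3])],[4],false,1,0,[]),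
    (true,[([(0,15,[(6,8)]),(0,0,[(7,8)])],[])],[6,5,4,3,3],false,4,4,[6,8]),
    (true,[([(0,15,[(6,8)]),(0,0,[(7,8)])],[]),([(0,1,[(5,6)])],[3,3])],[6,3],false,2,3,[4]),
    (true,[([(0,15,[(6,8)]),(0,0,[(7,8)])],[]),([(0,2,[(5,6),(3,4)])],[4,4])],[3],false,1,0,[2]),
    (false,[([(0,15,[(6,8)]),(0,1,[(5,6)])],[1]),([(0,0,[(7,8)]),(0,1,[(3,4),(2,2)])],[3,3,2])],[],false,1,0,[]),
    (true,[([(0,15,[(6,8)]),(0,0,[(7,8)])],[]),([(0,0,[(7,8)])],[3,1])],[6,3],false,2,1,[]),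
    (true,[([(0,11,[(9,11)])],[1])],[7,6,5,4,3],false,5,3,[7,10,11]),
    (false,[([(0,11,[(9,11)]),(0,15,[(6,7)])],[])],[9,8,1],false,2,5,[3,4,6]),
    (true,[([(0,8,[(9,11),(6,7),(3,3)])],[5])],[5,3,3],false,2,3,[3]),
    (true,[([(0,8,[(9,11),(6,7),(3,3)])],[5]),([(0,3,[(3,3)])],[2,2,1])],[3],false,1,0,[2]),
    (true,[([(0,8,[(9,11),(6,7),(3,3)])],[5]),([(0,4,[(3,3),(2,2)])],[3,3])],[],false,1,0,[]),
    (true,[([(0,5,[(9,11),(4,4)])],[4]),([(0,15,[(6,7)])],[4,4,2])],[],false,1,0,[3]),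
    (true,[([(0,11,[(9,11)]),(0,3,[(2,3)])],[]),([(0,11,[(6,7),(4,4)])],[4,4,1])],[3],false,1,0,[2]),
    (false,[([(0,11,[(9,11)]),(0,15,[(6,7)])],[]),([(0,12,[(4,4)]),(1,0,[(2,3),(2,2)])],[2,2,2,2])],[],false,1,0,[]),
    (true,[([(0,11,[(9,11)]),(0,1,[(5,6)])],[]),([(0,19,[(6,7)])],[4,4])],[5],false,1,0,[2]),
    (true,[([(0,11,[(9,11)])],[1]),([(0,5,[(6,7),(5,6),(2,2)])],[5,5])],[],false,1,0,[]),
    (true,[([(0,8,[(9,11),(8,10)])],[5])],[5,3,3],false,2,3,[3,4]),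
    (true,[([(0,8,[(9,11),(8,10)])],[5]),([(0,3,[(3,3)])],[2,2,1])],[3],false,1,0,[2]),
    (true,[([(0,8,[(9,11),(8,10)])],[5]),([(0,4,[(3,3),(2,2)])],[3,3])],[],false,1,0,[]),
    (false,[([(0,8,[(9,11),(8,10)]),(0,12,[(4,4)])],[4])],[8],false,1,0,[]),
    (false,[([(0,18,[(9,11),(11,11)])],[3,2,2])],[8],false,1,0,[]),
    (true,[([(0,5,[(12,15)])],[4])],[7,5,3,3],false,3,5,[4,6,8]),
    (true,[([(0,7,[(12,15),(4,4)])],[5])],[5,5,3],true,2,4,[3,4]),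
    (true,[([(0,5,[(12,15)])],[4]),([(0,12,[(4,4)]),(0,3,[(3,3)])],[1])],[7,3],false,2,2,[3]),
    (true,[([(0,7,[(12,15),(4,4)])],[5]),([(0,3,[(3,3)]),(0,3,[(3,3)])],[2])],[5],false,1,0,[]),
    (true,[([(0,7,[(12,15),(4,4)])],[5]),([(0,12,[(4,4)])],[2,1,1])],[5],false,1,0,[2]),
    (false,[([(0,8,[(12,15),(4,4),(2,2)]),(0,12,[(4,4)])],[4])],[8],false,1,0,[]),
    (true,[([(0,8,[(12,15),(5,6)])],[5])],[5,3,3],false,2,3,[3,4]),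
    (true,[([(0,8,[(12,15),(5,6)])],[5]),([(0,3,[(3,3)])],[2,2,1])],[3],false,1,0,[2]),
    (true,[([(0,8,[(12,15),(5,6)])],[5]),([(0,4,[(3,3),(2,2)])],[3,3])],[],false,1,0,[]),
    (false,[([(0,8,[(12,15),(5,6)]),(0,12,[(4,4)])],[4])],[8],false,1,0,[]),
    (false,[([(0,5,[(12,15)]),(0,0,[(7,8)])],[2])],[8,4],false,2,1,[]),
    (true,[([(0,13,[(16,19)])],[5,1])],[5,3,3,1],false,3,1,[4]),
    (true,[([(0,7,[(16,19)])],[5]),([(0,12,[(4,4)])],[2,1,1])],[5],false,1,0,[])]),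
  ([9,9,6,5,4,2,1], [
    (false,[],[9,9,6,5,4,2,1],true,6,3,[10,14,17,19]),
    (false,[([(0,2,[(7,10)])],[2])],[9,9,6],false,1,0,[2,3,4,6,8,10]),
    (false,[([(0,2,[(7,10)]),(0,3,[(2,2)])],[])],[9,9,5],false,1,0,[2]),
    (false,[([(0,2,[(7,10)]),(1,0,[(2,2),(2,2)])],[3,1])],[9,5,2],false,1,0,[2]),
    (false,[([(0,2,[(7,10)]),(1,0,[(2,2),(2,2),(2,2)])],[3,1])],[9,5,2],false,1,0,[2]),
    (false,[([(0,2,[(7,10)]),(1,1,[(2,2),(2,2),(2,2),(2,2)])],[1])],[9,5,1],false,1,0,[2]),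
    (false,[([(0,2,[(7,10)]),(1,1,[(2,2),(2,2),(2,2),(2,2),(2,2)])],[1])],[9,5,1],true,2,7,[]),
    (false,[([(0,2,[(7,10)]),(0,3,[(3,3)])],[1,1,1])],[9,6,5],false,3,5,[]),
    (false,[([(0,2,[(7,10)]),(0,12,[(4,4)])],[1,1,1])],[9,6,4],false,3,4,[4]),
    (false,[([(0,2,[(7,10)]),(0,15,[(4,4),(4,4)])],[3])],[9,5,1],true,3,3,[4]),
    (true,[([(0,2,[(7,10)]),(0,12,[(4,4)])],[4]),([(0,12,[(4,4)]),(0,12,[(4,4)])],[1])],[5,2,2],false,2,3,[4]),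
    (false,[([(0,2,[(7,10)]),(0,15,[(4,4),(3,4)])],[3]),([(0,12,[(4,4)]),(0,12,[(4,4)])],[2,1,1,1,1])],[1],false,1,0,[2]),
    (false,[([(0,2,[(7,10)]),(0,15,[(4,4),(4,4)])],[3]),([(0,12,[(4,4)]),(0,1,[(3,4),(2,2)])],[2,1,1,1])],[],false,1,0,[]),
    (false,[([(0,2,[(7,10)]),(0,1,[(5,6)])],[3,1])],[9,5,2],true,3,4,[6]),
    (false,[([(0,2,[(7,10)]),(0,1,[(5,6)])],[3,1]),([(0,1,[(4,6)])],[3,2,2,1,1,1])],[],false,1,0,[3,4,6]),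
    (false,[([(0,2,[(7,10)]),(0,1,[(5,6)])],[3,1]),([(0,1,[(4,6)]),(0,3,[(2,3)])],[3,2,1,1])],[],false,1,0,[3]),
    (false,[([(0,2,[(7,10)]),(0,1,[(5,6)])],[3,1]),([(0,1,[(4,6)]),(0,3,[(2,3)]),(0,3,[(2,3)])],[3,1])],[],false,1,0,[3]),
    (false,[([(0,2,[(7,10)]),(0,1,[(5,6)])],[4,1]),([(0,1,[(4,6)]),(0,3,[(2,3)]),(0,3,[(2,3)]),(0,3,[(2,3)])],[])],[],false,1,0,[2,3]),
    (false,[([(0,2,[(7,10)]),(0,15,[(5,6),(2,2)])],[3]),([(0,1,[(4,6)]),(0,3,[(2,3)]),(0,3,[(2,3)]),(0,3,[(2,3)])],[])],[],false,1,0,[2]),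
    (false,[([(0,2,[(7,10)]),(0,2,[(5,6),(2,2),(2,2)])],[1]),([(0,1,[(4,6)]),(0,3,[(2,3)]),(0,3,[(2,3)]),(0,3,[(2,3)])],[])],[],false,1,0,[]),
    (false,[([(0,2,[(7,10)]),(0,2,[(5,6),(3,3)])],[1]),([(0,1,[(4,6)]),(0,3,[(2,3)]),(0,3,[(2,3)]),(0,3,[(2,3)])],[])],[],false,1,0,[]),
    (false,[([(0,2,[(7,10)]),(0,2,[(5,6),(4,4)])],[1]),([(0,1,[(4,6)])],[2,2,2,1,1,1])],[],false,1,0,[3]),
    (false,[([(0,2,[(7,10)]),(0,2,[(5,6),(4,4)])],[1]),([(0,1,[(4,6)]),(0,3,[(2,3)])],[2,2,1,1])],[],false,1,0,[2]),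
    (false,[([(0,2,[(7,10)]),(0,2,[(5,6),(4,4)])],[1]),([(0,1,[(4,6)]),(0,3,[(2,3)]),(0,3,[(2,2)])],[2,1])],[],false,1,0,[]),
    (false,[([(0,2,[(7,10)]),(0,1,[(5,6)])],[3,1]),([(0,1,[(4,6)]),(0,1,[(5,6)])],[2,1,1])],[],false,1,0,[2]),
    (false,[([(0,2,[(7,10)]),(0,1,[(5,6)])],[3,1]),([(0,1,[(4,6)]),(0,1,[(5,6)]),(0,3,[(2,2)])],[1])],[],false,1,0,[]),
    (false,[([(0,2,[(7,10)]),(0,15,[(7,8)])],[3])],[9,5,1],true,3,3,[6,7]),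
    (false,[([(0,2,[(7,10)]),(0,15,[(7,8)])],[3]),([(0,1,[(4,6)])],[2,2,2,1,1,1])],[],false,1,0,[3,4]),
    (false,[([(0,2,[(7,10)]),(0,15,[(7,8)])],[3]),([(0,1,[(4,6)]),(0,3,[(2,3)])],[2,2,1,1])],[],false,1,0,[3]),
    (false,[([(0,2,[(7,10)]),(0,15,[(7,8)])],[3]),([(0,1,[(4,6)]),(0,3,[(2,3)]),(0,3,[(2,3)])],[2,1])],[],false,1,0,[2]),
    (false,[([(0,2,[(7,10)]),(0,2,[(7,8),(2,2)])],[1]),([(0,1,[(4,6)]),(0,3,[(2,3)]),(0,3,[(2,3)])],[2,1])],[],false,1,0,[]),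
    (false,[([(0,2,[(7,10)]),(0,15,[(7,8)])],[3]),([(0,1,[(4,6)]),(0,12,[(4,4)])],[2,1,1,1])],[],false,1,0,[]),
    (true,[([(0,26,[(7,10),(7,7)])],[6]),([(0,0,[(7,8)])],[2,2,1])],[],false,1,0,[]),
    (false,[([(0,2,[(7,10)]),(0,2,[(9,10)])],[1])],[9,5,1],true,3,3,[5]),
    (false,[([(0,2,[(7,10)]),(0,2,[(9,10)])],[1]),([(0,4,[(4,5)])],[2,2,2,2,1,1])],[],false,1,0,[2]),
    (false,[([(0,2,[(7,10)]),(0,2,[(9,10)])],[1]),([(0,4,[(4,5)]),(0,3,[(2,2)])],[2,2,2,1])],[],false,1,0,[]),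
    (true,[([(0,5,[(11,14)])],[5])],[7,5,2,2],false,3,4,[4,6,8,9]),
    (false,[([(0,17,[(11,14)]),(0,4,[(4,4)])],[3])],[9,5],false,2,5,[3,4]),
    (true,[([(0,8,[(11,14),(4,4),(3,3)])],[6])],[5,2,2],false,2,3,[3]),
    (true,[([(0,8,[(11,14),(4,4),(3,3)])],[6]),([(0,3,[(3,3)])],[2,1,1])],[2],false,1,0,[2]),
    (true,[([(0,8,[(11,14),(4,4),(3,3)])],[6]),([(0,4,[(3,3),(2,2)])],[3,1])],[],false,1,0,[]),
    (true,[([(0,5,[(11,14)])],[5]),([(0,15,[(4,4),(4,4)])],[4,2,2])],[],false,1,0,[3]),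
    (true,[([(0,30,[(11,14)])],[6]),([(0,12,[(4,4)]),(0,12,[(4,4)]),(0,3,[(2,3)])],[])],[5],false,1,0,[2]),
    (false,[([(0,5,[(11,14)]),(0,1,[(4,4),(2,2)])],[1]),([(0,12,[(4,4)]),(0,3,[(2,3)])],[2,2,1,1,1])],[],false,1,0,[]),
    (false,[([(0,5,[(11,14)]),(0,1,[(5,6)])],[1])],[9,5],false,2,4,[3,4,5]),
    (true,[([(0,26,[(11,14),(3,3)])],[6]),([(0,1,[(5,6)])],[3,2,2])],[],false,1,0,[3]),
    (true,[([(0,5,[(11,14)])],[5]),([(0,1,[(5,6)]),(0,1,[(3,3),(2,3)])],[2])],[2],false,1,0,[2]),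
    (false,[([(0,5,[(11,14)]),(0,1,[(5,6)])],[1]),([(0,3,[(3,3)]),(0,3,[(2,3)]),(0,3,[(2,2)])],[2,2,1])],[],false,1,0,[]),
    (false,[([(0,5,[(11,14)]),(0,1,[(5,6)])],[1]),([(0,12,[(4,4)])],[2,2,2,1,1,1,1])],[],false,1,0,[2]),
    (true,[([(0,5,[(11,14)])],[5]),([(0,15,[(5,6),(2,2)]),(0,12,[(4,4)])],[4])],[],false,1,0,[]),
    (true,[([(0,5,[(11,14)])],[5]),([(0,1,[(5,6)]),(0,1,[(5,5)])],[2])],[2],false,1,0,[]),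
    (true,[([(0,17,[(11,14)])],[5,3]),([(0,0,[(7,8)])],[2,2])],[2],false,1,0,[3]),
    (true,[([(0,5,[(11,14)])],[5]),([(0,0,[(7,8)]),(0,3,[(2,3)])],[2,1])],[2],false,1,0,[2]),
    (true,[([(0,5,[(11,14)])],[5]),([(0,0,[(7,8)]),(0,3,[(2,3)]),(0,3,[(2,2)])],[])],[2],false,1,0,[]),
    (true,[([(0,30,[(11,14)])],[6]),([(0,6,[(9,9)])],[3,3,1])],[],false,1,0,[]),
    (true,[([(0,29,[(15,17)])],[])],[7,6,4,2],false,4,2,[5]),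
    (false,[([(0,18,[(15,17),(5,5)])],[3,1,1])],[9],false,1,0,[]),
    (true,[([(0,24,[(18,19)])],[6])],[6,3,2],false,2,1,[])])]

theorem cj6e_4_ok : runAllJ S40 R40 F40 18 cj6e_4 = true := by decide +kernel

noncomputable def cj6e_5 : List (List ℕ × List NdJ) := [
  ([9,9,8,4,3,2,1], [
    (false,[],[9,9,8,4,3,2,1],true,5,5,[7,9,11,13,15,19]),
    (false,[([(0,19,[(6,7)])],[3,2,1,1])],[9,9,4],false,1,0,[2,3,4,5,6,7]),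
    (false,[([(0,2,[(6,7),(2,2)])],[])],[9,9,8],false,1,0,[2]),
    (false,[([(0,2,[(6,7),(2,2)]),(0,3,[(2,2)])],[1,1])],[9,9,3],false,1,0,[2]),
    (false,[([(0,19,[(6,7)]),(1,0,[(2,2),(2,2),(2,2)])],[1])],[9,9,4],true,2,10,[]),
    (true,[([(0,2,[(6,7),(3,3)])],[4])],[7,6,3,3,3],false,3,6,[]),
    (false,[([(0,19,[(6,7)]),(0,12,[(4,4)])],[3,1,1])],[9,8,3],false,2,10,[3,4]),
    (true,[([(0,17,[(6,7),(4,4),(3,3)])],[5])],[7,4,3,3],false,3,4,[]),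
    (false,[([(0,11,[(6,7),(4,4)]),(0,12,[(4,4)])],[2,2,2])],[9,4,2],true,3,4,[4]),
    (false,[([(0,11,[(6,7),(4,4)]),(0,12,[(4,4)]),(0,12,[(4,4)])],[2])],[9,4,2],false,3,2,[4]),
    (false,[([(0,5,[(6,7),(4,4),(4,4)]),(0,12,[(4,4)]),(0,12,[(4,4)])],[])],[9,4],false,2,1,[]),
    (false,[([(0,19,[(6,7)]),(0,4,[(5,5)])],[2,1])],[9,8,4],false,3,4,[4,5]),
    (false,[([(0,19,[(6,7)]),(0,4,[(5,5)]),(0,12,[(4,4)])],[])],[9,8,3],false,3,3,[4]),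
    (false,[([(0,8,[(6,7),(5,5),(4,4),(4,4)])],[2,2,2])],[9],false,1,0,[3,4]),
    (false,[([(0,5,[(6,7),(5,5),(2,3)]),(0,12,[(4,4)]),(0,12,[(4,4)])],[])],[9,4],false,2,2,[3]),
    (true,[([(0,7,[(6,7),(5,5),(4,4),(3,3)])],[6]),([(0,12,[(4,4)]),(0,3,[(2,3)])],[1])],[3],false,1,0,[]),
    (false,[([(0,8,[(6,7),(5,5),(4,4),(4,4)]),(0,12,[(4,4)])],[2])],[9],false,1,0,[]),
    (false,[([(0,19,[(6,7)]),(0,2,[(5,5),(5,5)])],[1])],[9,8,1],false,2,5,[3,4,5]),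
    (true,[([(0,2,[(6,7),(3,3)])],[4]),([(0,4,[(5,5)]),(0,4,[(5,5)])],[3])],[6,3],false,2,3,[3]),
    (true,[([(0,25,[(6,7),(5,5)])],[5,5]),([(0,4,[(5,5)]),(0,1,[(3,3),(3,3)])],[])],[3],false,1,0,[2]),
    (true,[([(0,7,[(6,7),(5,5),(5,5),(2,2)])],[6]),([(0,3,[(3,3)]),(0,3,[(3,3)])],[2])],[3],false,1,0,[]),
    (false,[([(0,8,[(6,7),(5,5),(5,5),(4,4)])],[2,2,2])],[9],false,1,0,[3]),
    (true,[([(0,5,[(6,7),(5,5),(2,3)])],[5]),([(0,4,[(5,5)]),(0,4,[(4,4)])],[3])],[3],false,1,0,[2]),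
    (true,[([(0,7,[(6,7),(5,5),(5,5),(2,2)])],[6]),([(0,12,[(4,4)]),(0,3,[(2,3)])],[1])],[3],false,1,0,[]),
    (true,[([(0,25,[(6,7),(5,5)])],[5,5]),([(0,4,[(5,5)]),(0,1,[(5,5)])],[])],[3],false,1,0,[2]),
    (true,[([(0,7,[(6,7),(5,5),(5,5),(2,2)])],[6]),([(0,4,[(5,5)])],[3,3])],[],false,1,0,[]),
    (true,[([(0,17,[(6,7),(6,6)])],[5])],[7,4,3,3],false,3,4,[4,5,6]),
    (false,[([(0,17,[(6,7),(6,6)]),(0,12,[(4,4)])],[3,2])],[9,4],true,2,5,[3,4]),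
    (true,[([(0,17,[(6,7),(6,6)])],[5]),([(0,12,[(4,4)]),(0,3,[(3,3)])],[])],[7,3],false,2,3,[3]),
    (false,[([(0,7,[(6,7),(6,6),(3,3),(3,3)]),(0,12,[(4,4)])],[4])],[9],false,1,0,[2]),
    (true,[([(0,7,[(6,7),(6,6),(4,4),(2,2)])],[6]),([(0,3,[(3,3)]),(0,3,[(3,3)])],[2])],[3],false,1,0,[]),
    (false,[([(0,5,[(6,7),(6,6)]),(0,12,[(4,4)]),(0,12,[(4,4)])],[])],[9,4],false,2,2,[3]),
    (false,[([(0,8,[(6,7),(6,6),(4,4),(3,3)]),(0,12,[(4,4)])],[2])],[9],false,1,0,[]),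
    (true,[([(0,21,[(6,7),(6,6),(5,5)])],[6])],[5,4,3],false,3,3,[5]),
    (true,[([(0,21,[(6,7),(6,6),(5,5)])],[6]),([(0,1,[(4,5)])],[3,3])],[],false,1,0,[2]),
    (true,[([(0,5,[(6,7),(6,6),(2,2)])],[5]),([(0,4,[(5,5)]),(0,4,[(4,5)])],[3])],[3],false,1,0,[]),
    (true,[([(0,7,[(6,7),(6,6),(6,6)])],[6])],[5,3,3],false,2,3,[3,4]),
    (true,[([(0,7,[(6,7),(6,6),(6,6)])],[6]),([(0,3,[(3,3)])],[2,2,1])],[3],false,1,0,[2]),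
    (true,[([(0,7,[(6,7),(6,6),(6,6)])],[6]),([(0,4,[(3,3),(2,2)])],[3,3])],[],false,1,0,[]),
    (false,[([(0,7,[(6,7),(6,6),(6,6)]),(0,12,[(4,4)])],[4])],[9],false,1,0,[]),
    (true,[([(0,17,[(6,7),(7,7)])],[5])],[7,4,3,3],false,3,4,[4,6,7]),
    (true,[([(0,21,[(6,7),(7,7),(4,4)])],[6])],[5,4,3],false,3,3,[4]),
    (false,[([(0,5,[(6,7),(7,7)]),(0,12,[(4,4)]),(0,12,[(4,4)])],[])],[9,4],false,2,1,[]),
    (true,[([(0,19,[(6,7)])],[4,3]),([(0,0,[(7,7)]),(0,1,[(5,6)])],[1])],[4,3],false,2,3,[3,4]),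
    (true,[([(0,27,[(6,7),(3,3)])],[5,4]),([(0,0,[(7,7)]),(0,1,[(5,6)])],[])],[3],false,1,0,[2]),
    (true,[([(0,17,[(6,7),(7,7)])],[5]),([(0,1,[(5,6)]),(0,4,[(3,3),(2,2)])],[3])],[3],false,1,0,[]),
    (false,[([(0,8,[(6,7),(7,7),(5,6)]),(0,12,[(4,4)])],[2])],[9],false,1,0,[]),
    (false,[([(0,17,[(6,7),(7,7)]),(0,0,[(7,7)])],[2])],[9,3],false,2,1,[]),
    (true,[([(0,2,[(8,9)])],[4])],[7,6,3,3,3],false,3,6,[4,5,6,8,9]),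
    (true,[([(0,9,[(8,9),(4,4)])],[1])],[7,6,3,3,3],false,3,6,[4]),
    (false,[([(0,9,[(8,9),(4,4)]),(0,12,[(4,4)])],[2,2,1])],[9,4,1],true,3,3,[4]),
    (false,[([(0,9,[(8,9),(4,4)]),(0,12,[(4,4)]),(0,12,[(4,4)])],[1])],[9,4,1],false,3,1,[]),
    (true,[([(0,17,[(8,9),(5,5)])],[5])],[7,4,3,3],false,3,4,[4,5]),
    (true,[([(0,21,[(8,9),(5,5),(4,4)])],[6])],[5,4,3],false,3,3,[4]),
    (false,[([(0,5,[(8,9),(5,5)]),(0,12,[(4,4)]),(0,12,[(4,4)])],[])],[9,4],false,2,1,[]),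
    (true,[([(0,7,[(8,9),(5,5),(5,5)])],[6])],[5,3,3],false,2,3,[3,4]),
    (true,[([(0,7,[(8,9),(5,5),(5,5)])],[6]),([(0,3,[(3,3)])],[2,2,1])],[3],false,1,0,[2]),
    (true,[([(0,7,[(8,9),(5,5),(5,5)])],[6]),([(0,4,[(3,3),(2,2)])],[3,3])],[],false,1,0,[]),
    (false,[([(0,7,[(8,9),(5,5),(5,5)]),(0,12,[(4,4)])],[4])],[9],false,1,0,[]),
    (false,[([(0,5,[(8,9),(6,6)])],[1,1,1,1])],[9,8],false,2,6,[3,5,6]),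
    (true,[([(0,21,[(8,9),(6,6),(3,3)])],[6])],[5,4,3],false,3,3,[]),
    (false,[([(0,8,[(8,9),(6,6),(4,5)])],[2,2,2])],[9],false,1,0,[2,3,4]),
    (false,[([(0,17,[(8,9),(4,5)]),(0,0,[(6,6),(2,2)])],[2])],[9,3],false,2,2,[]),
    (true,[([(0,21,[(8,9),(6,6),(3,3)])],[6]),([(0,1,[(4,5)])],[3,3])],[],false,1,0,[2]),
    (true,[([(0,5,[(8,9),(6,6)])],[5]),([(0,4,[(4,5)]),(0,4,[(3,3),(2,2)])],[3])],[3],false,1,0,[]),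
    (false,[([(0,8,[(8,9),(6,6),(4,5)]),(0,12,[(4,4)])],[2])],[9],false,1,0,[]),
    (false,[([(0,8,[(8,9),(6,6),(6,6)])],[2,2,2])],[9],false,1,0,[2]),
    (true,[([(0,5,[(8,9),(6,6)])],[5,5]),([(0,0,[(6,6),(2,2)])],[])],[3],false,1,0,[]),
    (false,[([(0,2,[(8,9)]),(0,0,[(7,8)])],[2,2])],[9,3,2],false,3,2,[5,6]),
    (false,[([(0,17,[(8,9),(4,5)]),(0,0,[(7,8)])],[2])],[9,3],false,2,2,[3]),
    (false,[([(0,17,[(8,9),(4,5)]),(0,0,[(7,8)])],[2]),([(0,3,[(3,3)])],[2,2,1,1,1,1,1])],[],false,1,0,[]),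
    (true,[([(0,5,[(8,9),(6,6)])],[5,5]),([(0,0,[(7,8)])],[])],[3],false,1,0,[]),
    (true,[([(0,21,[(8,9),(9,9)])],[6])],[5,4,3],false,3,3,[4]),
    (true,[([(0,21,[(8,9),(9,9)])],[6]),([(0,12,[(4,4)])],[2,1])],[5],false,1,0,[]),
    (false,[([(0,11,[(10,11)])],[2,1,1,1,1])],[9,8,2],false,2,9,[3,4,6,8,10]),
    (true,[([(0,17,[(10,11),(3,3)])],[5])],[7,4,3,3],false,3,4,[]),
    (false,[([(0,11,[(10,11)]),(0,12,[(4,4)])],[2,2,2])],[9,4,2],true,3,4,[4]),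
    (false,[([(0,11,[(10,11)]),(0,12,[(4,4)]),(0,12,[(4,4)])],[2])],[9,4,2],false,3,2,[4]),
    (false,[([(0,7,[(10,11),(4,4),(4,4)]),(0,12,[(4,4)])],[4])],[9],false,1,0,[]),
    (false,[([(0,14,[(10,11),(5,6)])],[2,2,2,2])],[9,2],false,1,0,[2,3,5,6]),
    (true,[([(0,7,[(10,11),(5,6),(2,2)])],[6])],[5,3,3],false,2,4,[]),
    (false,[([(0,8,[(10,11),(5,6),(3,3)])],[2,2,2])],[9],false,1,0,[2,3]),
    (true,[([(0,7,[(10,11),(5,6),(2,2)])],[6]),([(0,3,[(3,3)])],[2,2,1])],[3],false,1,0,[2]),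
    (true,[([(0,7,[(10,11),(5,6),(2,2)])],[6]),([(0,4,[(3,3),(2,2)])],[3,3])],[],false,1,0,[2]),
    (false,[([(0,9,[(10,11),(2,2)]),(0,1,[(5,6)])],[2,2]),([(0,4,[(3,3),(2,2)]),(0,3,[(2,2)])],[2,1,1,1])],[],false,1,0,[]),
    (false,[([(0,14,[(10,11),(5,6)])],[2,2,2,2]),([(0,3,[(3,3)]),(0,3,[(3,3)])],[1,1,1,1,1])],[],false,1,0,[2]),
    (true,[([(0,7,[(10,11),(5,6),(2,2)])],[6]),([(0,3,[(3,3)]),(0,3,[(3,3)])],[2])],[3],false,1,0,[]),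
    (false,[([(0,11,[(10,11)])],[2,2,2,2,2]),([(0,1,[(5,6)]),(0,4,[(4,5)])],[2,1,1])],[],false,1,0,[3]),
    (true,[([(0,17,[(10,11),(2,3)])],[5]),([(0,1,[(5,6)]),(0,4,[(4,5)])],[3])],[3],false,1,0,[2]),
    (false,[([(0,9,[(10,11),(2,2)]),(0,1,[(5,6)])],[2,2]),([(0,4,[(4,5)]),(0,3,[(2,3)])],[2,1,1,1])],[],false,1,0,[]),
    (true,[([(0,29,[(10,11),(6,6)])],[5,1]),([(0,1,[(5,6)])],[3,1])],[3],false,1,0,[]),
    (true,[([(0,7,[(10,11),(7,8)])],[6])],[5,3,3],false,2,3,[3,4]),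
    (false,[([(0,13,[(10,11),(7,8)]),(0,3,[(3,3)])],[2,2])],[9,1],false,2,1,[]),
    (false,[([(0,7,[(10,11),(7,8)]),(0,12,[(4,4)])],[4])],[9],false,1,0,[]),
    (false,[([(0,8,[(10,11),(9,10)])],[2,2,2])],[9],false,1,0,[2]),
    (true,[([(0,9,[(10,11),(2,2)])],[2,1]),([(0,27,[(9,10)])],[5,5])],[],false,1,0,[]),
    (false,[([(0,9,[(12,13)])],[2,2,2,2,1])],[9,4,1],true,3,3,[6,8]),
    (false,[([(0,9,[(12,13)]),(0,1,[(4,6)])],[2,2])],[9,3,1],true,3,3,[5]),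
    (true,[([(0,7,[(12,13),(4,6)])],[6]),([(0,4,[(4,5)])],[3,3])],[],false,1,0,[2]),
    (false,[([(0,9,[(12,13)]),(0,1,[(4,6)])],[2,2]),([(0,4,[(4,5)]),(0,3,[(2,2)])],[2,1,1,1])],[],false,1,0,[]),
    (true,[([(0,9,[(12,13)])],[4,1]),([(0,0,[(7,8)])],[])],[7,3],false,2,1,[]),
    (false,[([(0,16,[(14,15)])],[2,2,2,2,1])],[9,2,1],true,3,2,[6]),
    (true,[([(0,16,[(14,15)]),(0,1,[(4,6)])],[])],[4,3,3,3,2],false,3,2,[]),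
    (true,[([(0,7,[(16,19)])],[6])],[5,3,3],false,2,3,[3,4]),
    (false,[([(0,13,[(16,19)]),(0,3,[(3,3)])],[2,2])],[9,1],false,2,1,[]),
    (false,[([(0,7,[(16,19)]),(0,12,[(4,4)])],[4])],[9],false,1,0,[])]),
  ([10,7,6,5,4,1,1,1,1], [
    (false,[],[10,7,6,5,4,1,1,1,1],false,6,4,[10,15,19]),
    (true,[([(0,2,[(7,10)])],[2])],[9,5,5,3,1,1],true,4,4,[6,8,10]),
    (true,[([(0,2,[(7,10)]),(0,1,[(5,6)])],[1,1])],[5,5,4,2,1,1],true,4,2,[6]),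
    (false,[([(0,2,[(7,10)]),(0,1,[(5,6)]),(0,1,[(5,6)])],[])],[6,5,1,1,1],false,3,3,[5]),
    (false,[([(0,2,[(7,10)]),(0,1,[(5,6)]),(0,1,[(5,6)])],[]),([(0,4,[(4,5)])],[1,1])],[6,1],false,2,1,[]),
    (true,[([(0,2,[(7,10)]),(0,15,[(7,8)])],[1])],[5,5,4,1,1,1],false,3,3,[6,7]),
    (true,[([(0,2,[(7,10)]),(0,15,[(7,8)])],[1]),([(0,1,[(4,6)])],[2,2])],[5,1,1],true,2,3,[3,4]),
    (true,[([(0,2,[(7,10)])],[1]),([(0,11,[(7,8),(3,3)]),(0,1,[(4,6)])],[1,1])],[5,1],false,2,1,[]),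
    (true,[([(0,2,[(7,10)])],[2]),([(0,25,[(7,8),(4,4)]),(0,1,[(4,6)])],[1])],[5],false,1,0,[]),
    (true,[([(0,26,[(7,10),(7,7)])],[2,1,1]),([(0,0,[(7,8)])],[3,3])],[1],false,1,0,[]),
    (true,[([(0,2,[(7,10)]),(0,27,[(9,10)])],[])],[5,5,4,1,1],false,3,2,[5]),
    (true,[([(0,2,[(7,10)]),(0,27,[(9,10)])],[]),([(0,4,[(4,5)])],[1,1])],[5,4],false,2,1,[]),
    (true,[([(0,5,[(11,15)])],[])],[9,5,5,1,1],true,3,4,[6,8,9]),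
    (true,[([(0,5,[(11,15)])],[]),([(0,1,[(4,6)])],[2,2,2,1,1,1])],[5,1],false,1,0,[3,5,6]),
    (true,[([(0,5,[(11,15)]),(0,3,[(2,3)])],[1,1]),([(0,1,[(4,6)])],[2,2])],[5,1],false,1,0,[3]),
    (true,[([(0,5,[(11,15)]),(0,3,[(2,3)])],[1,1]),([(0,1,[(4,6)])],[2,2]),([(0,3,[(2,3)])],[1,1,1])],[],false,1,0,[3]),
    (true,[([(0,5,[(11,15)])],[]),([(0,1,[(4,6)]),(0,3,[(2,3)]),(0,3,[(2,3)]),(0,3,[(2,3)])],[])],[5,1],true,2,2,[3]),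
    (true,[([(0,5,[(11,15)])],[]),([(0,1,[(4,6)]),(0,3,[(2,3)]),(0,3,[(2,3)]),(0,3,[(2,3)])],[]),([(0,3,[(3,3)])],[1,1,1])],[],false,1,0,[]),
    (true,[([(0,5,[(11,15)]),(0,4,[(4,5)])],[1]),([(0,1,[(4,6)])],[2,1])],[5,1],true,2,2,[3]),
    (true,[([(0,5,[(11,15)]),(0,4,[(4,5)])],[1]),([(0,1,[(4,6)]),(0,3,[(3,3)])],[])],[5,1],false,1,0,[]),
    (true,[([(0,5,[(11,15)]),(0,19,[(6,6)])],[]),([(0,1,[(4,6)])],[1,1])],[5,1],false,1,0,[]),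
    (false,[([(0,5,[(11,15)]),(0,15,[(7,8)])],[4])],[6,1,1,1],false,2,2,[3]),
    (true,[([(0,5,[(11,15)])],[]),([(0,11,[(7,8),(3,3)])],[3,3,1,1,1])],[1],false,1,0,[]),
    (true,[([(0,5,[(11,15)])],[]),([(0,31,[(9,9)])],[3,3,3,3])],[],false,1,0,[]),
    (true,[([(0,24,[(16,19)])],[3,1,1])],[5,4,2,1],false,4,1,[])]),
  ([10,8,8,4,3,2,1], [
    (false,[],[10,8,8,4,3,2,1],true,5,5,[8,11,15,19]),
    (true,[([(0,15,[(6,8)])],[2])],[7,6,4,3,3,3],false,4,4,[6,8]),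
    (false,[([(0,15,[(6,8)]),(0,1,[(5,6)])],[1])],[10,8,3],false,2,9,[3,4,6]),
    (true,[([(0,15,[(6,8)])],[2]),([(0,2,[(5,6),(3,3)])],[4,4,2])],[3,3],false,1,0,[2,3]),
    (false,[([(0,2,[(6,8),(2,2)]),(0,2,[(5,6),(3,3)])],[2,2])],[8,3,1],true,2,6,[]),
    (true,[([(0,15,[(6,8)])],[2,1]),([(0,25,[(5,6),(3,3),(3,3)])],[5,5])],[3],false,1,0,[2,3]),
    (true,[([(0,2,[(6,8),(2,2)]),(0,1,[(5,6)])],[]),([(0,1,[(3,3),(3,3)])],[2])],[6,3,3],false,2,4,[]),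
    (true,[([(0,15,[(6,8)]),(0,3,[(3,3)])],[]),([(0,1,[(5,6)]),(0,1,[(3,3),(3,3)])],[3])],[4,3,3],false,2,3,[3]),
    (true,[([(0,15,[(6,8)])],[4,4]),([(0,2,[(5,6),(3,3)]),(0,1,[(3,3),(3,3)])],[]),([(0,3,[(3,3)])],[1])],[],false,1,0,[2]),
    (false,[([(0,2,[(6,8),(2,2)]),(0,2,[(5,6),(3,3)])],[2,2]),([(0,1,[(3,3),(3,3)]),(0,3,[(3,3)])],[1,1,1])],[],false,1,0,[]),
    (true,[([(0,15,[(6,8)])],[2]),([(0,1,[(5,6)]),(0,4,[(4,4)])],[3])],[6,3,3],false,2,6,[4]),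
    (true,[([(0,15,[(6,8)])],[2]),([(0,2,[(5,6),(3,4)])],[4,4,2]),([(0,12,[(4,4)])],[2])],[],false,1,0,[2,3,4]),
    (false,[([(0,2,[(6,8),(2,2)]),(0,2,[(5,6),(3,4)]),(0,12,[(4,4)])],[])],[8,3,1],false,2,3,[]),
    (true,[([(0,15,[(6,8)]),(0,3,[(3,3)])],[]),([(0,2,[(5,6),(3,4)])],[4,4,1]),([(0,12,[(4,4)])],[2])],[],false,1,0,[2,3]),
    (true,[([(0,15,[(6,8)])],[4,4]),([(0,2,[(5,6),(4,4)]),(0,1,[(3,4),(2,2)])],[]),([(0,3,[(3,3)])],[1])],[],false,1,0,[2]),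
    (false,[([(0,2,[(6,8),(2,2)]),(0,2,[(5,6),(4,4)])],[2,2]),([(0,1,[(3,4),(2,2)]),(0,3,[(3,3)])],[1,1,1])],[],false,1,0,[]),
    (true,[([(0,15,[(6,8)])],[3,3]),([(0,2,[(5,6),(3,4)]),(0,1,[(3,3),(3,3)])],[]),([(0,12,[(4,4)])],[2])],[],false,1,0,[]),
    (true,[([(0,15,[(6,8)])],[3,3]),([(0,2,[(5,6),(3,4)]),(0,1,[(4,4)])],[]),([(0,12,[(4,4)])],[2])],[],false,1,0,[2]),
    (true,[([(0,25,[(6,8),(4,4)])],[3]),([(0,1,[(5,6)]),(0,1,[(3,4),(2,2)])],[3]),([(0,12,[(4,4)])],[2])],[],false,1,0,[]),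
    (true,[([(0,15,[(6,8)])],[2,1]),([(0,25,[(5,6),(5,6)])],[5,5])],[3],false,1,0,[2,3,4,6]),
    (true,[([(0,2,[(6,8),(2,2)]),(0,1,[(5,6)])],[]),([(0,1,[(5,6)])],[2])],[6,3,3],false,2,4,[]),
    (true,[([(0,15,[(6,8)]),(0,3,[(3,3)])],[]),([(0,1,[(5,6)]),(0,1,[(5,6)])],[3])],[4,3,3],false,2,3,[3]),
    (true,[([(0,15,[(6,8)])],[4,4]),([(0,2,[(5,6),(3,3)]),(0,1,[(5,6)])],[]),([(0,3,[(3,3)])],[1])],[],false,1,0,[2]),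
    (false,[([(0,2,[(6,8),(2,2)]),(0,2,[(5,6),(3,3)])],[2,2]),([(0,1,[(5,6)]),(0,3,[(3,3)])],[1,1,1])],[],false,1,0,[]),
    (true,[([(0,15,[(6,8)])],[4,4]),([(0,2,[(5,6),(4,4)]),(0,1,[(5,6)])],[])],[3,1],true,2,2,[3]),
    (true,[([(0,15,[(6,8)])],[4,4]),([(0,2,[(5,6),(4,4)]),(0,1,[(5,6)])],[]),([(0,3,[(3,3)])],[1])],[],false,1,0,[]),
    (false,[([(0,15,[(6,8)]),(0,1,[(5,6)])],[1]),([(0,1,[(5,6)]),(0,1,[(5,6)])],[3,2,2,2])],[],false,1,0,[2]),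
    (false,[([(0,2,[(6,8),(2,2)]),(0,1,[(5,6)])],[2,2,2]),([(0,1,[(5,6)]),(0,1,[(5,6)])],[1,1])],[],false,1,0,[]),
    (true,[([(0,15,[(6,8)]),(0,0,[(7,8)])],[])],[6,4,3,3,3,1],true,4,2,[6,8]),
    (true,[([(0,15,[(6,8)]),(0,0,[(7,8)])],[]),([(0,1,[(5,6)])],[2])],[6,3,3],false,2,3,[4]),
    (true,[([(0,15,[(6,8)]),(0,0,[(7,8)])],[]),([(0,2,[(5,6),(3,4)])],[3,1])],[3,3],false,1,0,[2]),
    (false,[([(0,15,[(6,8)]),(0,0,[(7,8)])],[2,2,2]),([(0,1,[(5,6)]),(0,1,[(3,4),(2,2)])],[1,1])],[],false,1,0,[]),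
    (true,[([(0,15,[(6,8)]),(0,0,[(7,8)])],[]),([(0,15,[(7,8)])],[4,4])],[3,1],false,2,1,[]),
    (true,[([(0,11,[(9,11)])],[1,1])],[7,5,4,3,3,1],true,5,2,[8,11]),
    (true,[([(0,11,[(9,11)])],[]),([(0,15,[(6,8)])],[3,3,2])],[6,3],false,1,0,[3,4,5,6]),
    (true,[([(0,11,[(9,11)]),(0,3,[(2,3)])],[]),([(0,15,[(6,8)])],[3,3,2])],[3,3],false,1,0,[3]),
    (true,[([(0,11,[(9,11)]),(0,3,[(2,3)])],[]),([(0,15,[(6,8)])],[4,4,2]),([(0,3,[(2,3)])],[1])],[],false,1,0,[2,3]),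
    (true,[([(0,11,[(9,11)]),(0,3,[(2,3)])],[]),([(0,2,[(6,8),(2,2)]),(0,3,[(2,3)])],[3])],[3,3],false,1,0,[2]),
    (true,[([(0,11,[(9,11)]),(0,3,[(2,3)])],[]),([(0,2,[(6,8),(2,2)]),(1,0,[(2,3),(2,2)])],[])],[3,3],false,1,0,[2]),
    (true,[([(0,11,[(9,11)])],[]),([(0,2,[(6,8),(2,2)]),(1,0,[(2,3),(2,2)])],[]),([(0,3,[(2,3)]),(0,3,[(2,2)])],[2,1])],[],false,1,0,[]),
    (true,[([(0,11,[(9,11)])],[]),([(0,15,[(6,8)])],[3,3,2]),([(0,3,[(2,3)]),(0,3,[(2,3)]),(0,3,[(3,3)])],[])],[],false,1,0,[2]),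
    (false,[([(0,17,[(9,11),(3,3)]),(0,2,[(6,8),(2,2)])],[2]),([(0,3,[(2,3)]),(0,3,[(2,3)])],[1,1,1,1])],[],false,1,0,[]),
    (true,[([(0,11,[(9,11)]),(0,12,[(4,4)])],[]),([(0,15,[(6,8)])],[4,4,1])],[3,1],true,2,2,[3]),
    (true,[([(0,11,[(9,11)])],[]),([(0,5,[(6,8),(4,4),(3,3)])],[4,3])],[3],false,1,0,[]),
    (true,[([(0,32,[(9,11),(5,5)])],[4]),([(0,15,[(6,8)])],[4,4])],[],false,1,0,[2]),
    (true,[([(0,11,[(9,11)])],[]),([(0,5,[(6,8),(5,5),(2,2)])],[4,3])],[3],false,1,0,[]),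
    (true,[([(0,11,[(9,11)])],[]),([(0,17,[(6,8),(6,6)])],[4])],[7],false,1,0,[]),
    (false,[([(0,11,[(9,11)]),(0,11,[(9,11)])],[3,3])],[4,3,1],false,3,1,[]),
    (true,[([(0,5,[(12,15)])],[4])],[7,3,3,3,1],true,3,4,[5,6,7,8]),
    (false,[([(0,5,[(12,15)]),(0,1,[(4,5)])],[2,2])],[8,3],true,2,4,[3,5]),
    (true,[([(0,5,[(12,15)])],[4]),([(0,4,[(4,5)]),(0,3,[(3,3)])],[2,1])],[3,3],false,1,0,[3]),
    (true,[([(0,5,[(12,15)])],[4]),([(0,4,[(4,5)]),(0,3,[(3,3)]),(0,3,[(2,3)])],[])],[3,3],false,1,0,[2]),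
    (true,[([(0,5,[(12,15)])],[4]),([(0,4,[(4,5)]),(0,4,[(3,3),(2,2)])],[3]),([(0,3,[(2,3)])],[1])],[],false,1,0,[]),
    (true,[([(0,5,[(12,15)])],[4]),([(0,4,[(4,5)]),(0,4,[(4,5)])],[3])],[3,1],false,2,1,[]),
    (true,[([(0,8,[(12,15),(6,6)])],[5])],[3,3,3,1],true,2,2,[3]),
    (false,[([(0,8,[(12,15),(6,6)]),(0,3,[(3,3)])],[2,2])],[8],false,1,0,[]),
    (true,[([(0,5,[(12,15)])],[4]),([(0,19,[(7,7)])],[3,3,1])],[3],false,1,0,[2]),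
    (true,[([(0,26,[(12,15),(2,2)])],[4]),([(0,19,[(7,7)])],[4,4])],[],false,1,0,[]),
    (true,[([(0,5,[(12,15)])],[4]),([(0,31,[(8,8)])],[4,4])],[],false,1,0,[]),
    (true,[([(0,7,[(16,19)])],[5])],[5,3,3,1],false,3,1,[4]),
    (false,[([(0,7,[(16,19)]),(0,12,[(4,4)])],[4,1])],[8],false,1,0,[])]),
  ([10,9,6,5,4,2], [
    (false,[],[10,9,6,5,4,2],false,5,5,[8,11,15,19]),
    (false,[([(0,15,[(6,8)])],[4,3,3,1,1])],[10,6],false,1,0,[2,3,4,6,8]),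
    (true,[([(0,2,[(6,8),(2,2)])],[])],[6,6,5,5,2,2],false,2,12,[]),
    (false,[([(0,15,[(6,8)]),(0,3,[(3,3)])],[4,3,3])],[10,5],false,1,0,[2,3]),
    (true,[([(0,2,[(6,8),(2,2)]),(0,3,[(3,3)])],[])],[6,5,5,3,2,2],false,2,10,[]),
    (true,[([(0,15,[(6,8)])],[3]),([(0,3,[(3,3)]),(0,3,[(3,3)])],[1])],[6,6,4,2],true,3,4,[]),
    (true,[([(0,25,[(6,8),(4,4)])],[4])],[6,5,5,2,2],false,2,10,[3,4]),
    (true,[([(0,5,[(6,8),(4,4),(3,3)])],[])],[6,6,5,2,2],false,3,4,[]),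
    (true,[([(0,15,[(6,8)])],[3]),([(0,12,[(4,4)]),(0,12,[(4,4)])],[1,1])],[6,5,2,2],false,3,4,[4]),
    (true,[([(0,15,[(6,8)])],[4]),([(0,12,[(4,4)]),(0,12,[(4,4)]),(0,12,[(4,4)])],[])],[5,4,2,1],false,4,1,[]),
    (false,[([(0,15,[(6,8)]),(0,1,[(5,6)])],[4,3])],[10,5],false,1,0,[2,3,4,6]),
    (false,[([(0,2,[(6,8),(2,2)]),(0,1,[(5,6)])],[4,1])],[10,5],false,1,0,[2]),
    (false,[([(0,2,[(6,8),(2,2)]),(0,15,[(5,6),(2,2)])],[3])],[10,5],false,1,0,[2]),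
    (true,[([(0,2,[(6,8),(2,2)])],[1]),([(0,1,[(5,6)]),(1,0,[(2,2),(2,2)])],[])],[6,5,2],false,2,6,[]),
    (false,[([(0,15,[(6,8)]),(0,2,[(5,6),(3,3)])],[3])],[10,5],false,1,0,[2,3]),
    (true,[([(0,2,[(6,8),(2,2)]),(0,3,[(3,3)])],[]),([(0,1,[(5,6)])],[3,1])],[6,5,2],false,2,6,[]),
    (true,[([(0,15,[(6,8)])],[3]),([(0,1,[(5,6)]),(0,1,[(3,3),(3,3)])],[])],[6,5,2],false,3,2,[]),
    (true,[([(0,15,[(6,8)])],[3]),([(0,1,[(5,6)]),(0,12,[(4,4)])],[3])],[6,4,2],false,2,6,[4]),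
    (true,[([(0,15,[(6,8)])],[4]),([(0,2,[(5,6),(3,4)]),(0,12,[(4,4)])],[])],[6,4],false,2,4,[3,4]),
    (true,[([(0,5,[(6,8),(4,4),(3,3)])],[2]),([(0,2,[(5,6),(3,4)])],[4,3])],[2],false,1,0,[3]),
    (false,[([(0,15,[(6,8)]),(0,2,[(5,6),(3,4)])],[3]),([(0,12,[(4,4)]),(0,3,[(3,3)]),(0,3,[(2,3)])],[2,1,1,1])],[],false,1,0,[2]),
    (true,[([(0,5,[(6,8),(4,4),(3,3)])],[2]),([(0,1,[(5,6)]),(0,1,[(3,4),(2,2)])],[]),([(0,3,[(2,3)])],[2,1,1])],[],false,1,0,[]),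
    (true,[([(0,25,[(6,8),(4,4)])],[5]),([(0,2,[(5,6),(3,4)]),(0,12,[(4,4)])],[])],[5],false,1,0,[2]),
    (false,[([(0,2,[(6,8),(2,2)]),(0,2,[(5,6),(3,4)])],[1]),([(0,12,[(4,4)]),(0,12,[(4,4)])],[2,1,1,1,1,1])],[],false,1,0,[]),
    (true,[([(0,15,[(6,8)])],[3]),([(0,1,[(5,6)]),(0,1,[(5,6)])],[])],[6,5,2],false,3,2,[4,6]),
    (true,[([(0,15,[(6,8)])],[3]),([(0,1,[(5,6)]),(0,1,[(5,6)])],[]),([(0,12,[(4,4)])],[1,1,1])],[6],false,1,0,[3]),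
    (true,[([(0,15,[(6,8)])],[3]),([(0,1,[(5,6)]),(0,1,[(5,6)])],[]),([(0,12,[(4,4)]),(0,3,[(2,3)])],[2,2])],[2],false,1,0,[2]),
    (true,[([(0,2,[(6,8),(2,2)]),(0,12,[(4,4)])],[]),([(0,1,[(5,6)]),(0,1,[(5,6)])],[]),([(0,3,[(2,3)])],[2])],[5],false,1,0,[]),
    (true,[([(0,15,[(6,8)])],[3]),([(0,1,[(5,6)]),(0,1,[(5,6)])],[]),([(0,1,[(5,6)])],[3,2,2])],[],false,1,0,[2]),
    (true,[([(0,2,[(6,8),(2,2)])],[1]),([(0,1,[(5,6)]),(0,1,[(5,6)])],[]),([(0,1,[(5,6)])],[3,2,2])],[],false,1,0,[]),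
    (false,[([(0,15,[(6,8)]),(0,15,[(7,8)])],[3,3])],[9,5],false,1,0,[3,6,8]),
    (true,[([(0,15,[(6,8)])],[3]),([(0,0,[(7,8)]),(0,3,[(2,3)])],[])],[6,6,2],true,2,6,[3]),
    (true,[([(0,15,[(6,8)])],[4,2]),([(0,0,[(7,8)]),(0,1,[(2,3),(3,3)])],[])],[5,2,1],true,3,2,[]),
    (true,[([(0,15,[(6,8)])],[4,2]),([(0,0,[(7,8)]),(0,1,[(4,6)])],[])],[5,2,1],true,3,2,[5]),
    (true,[([(0,15,[(6,8)])],[3,2]),([(0,0,[(7,8)]),(0,1,[(4,6)])],[]),([(0,4,[(4,5)])],[3,1])],[],false,1,0,[2]),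
    (true,[([(0,2,[(6,8),(2,2)])],[2]),([(0,0,[(7,8)]),(0,1,[(4,6)])],[]),([(0,4,[(4,5)])],[3,1,1])],[],false,1,0,[]),
    (true,[([(0,15,[(6,8)])],[3]),([(0,0,[(7,8)]),(0,0,[(7,8)])],[])],[5,2,2],false,2,1,[]),
    (true,[([(0,11,[(9,11)])],[2,2])],[6,5,4,2,2,2],false,4,4,[6,10,11]),
    (false,[([(0,11,[(9,11)]),(0,1,[(5,6)])],[4,1])],[10,4],true,2,6,[4,6]),
    (true,[([(0,5,[(9,11),(3,4)])],[]),([(0,1,[(5,6)])],[3,2,2])],[6,2],true,2,4,[3,4]),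
    (true,[([(0,5,[(9,11),(3,4)])],[2]),([(0,1,[(5,6)]),(0,3,[(3,3)])],[3])],[5,2],false,2,2,[3]),
    (true,[([(0,5,[(9,11),(3,4)])],[2]),([(0,1,[(5,6)]),(0,1,[(3,3),(3,3)])],[])],[5,2],false,1,0,[]),
    (true,[([(0,5,[(9,11),(3,4)])],[]),([(0,1,[(5,6)]),(0,12,[(4,4)])],[3])],[6,2],false,2,1,[]),
    (true,[([(0,11,[(9,11)])],[4,3]),([(0,1,[(5,6)]),(0,1,[(5,6)])],[])],[3,2,1],false,3,1,[]),
    (false,[([(0,11,[(9,11)]),(0,2,[(7,10)])],[1])],[10,4],false,2,4,[3,4,5]),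
    (true,[([(0,11,[(9,11)])],[4,3]),([(0,2,[(7,10)]),(0,3,[(3,3)])],[])],[3,2],false,2,2,[3]),
    (false,[([(0,11,[(9,11)]),(0,2,[(7,10)])],[1]),([(0,3,[(3,3)]),(0,3,[(3,3)])],[2,2,1,1,1,1])],[],false,1,0,[]),
    (true,[([(0,11,[(9,11)])],[4,2]),([(0,2,[(7,10)]),(0,12,[(4,4)])],[])],[3,2],false,2,1,[]),
    (true,[([(0,11,[(9,11)])],[4,2]),([(0,5,[(7,10),(5,5)])],[2])],[2],false,1,0,[]),
    (true,[([(0,11,[(9,11)])],[2,1]),([(0,11,[(11,11)])],[4,3])],[2,2],false,1,0,[]),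
    (true,[([(0,5,[(12,15)])],[2])],[6,5,4,2,2],false,4,4,[6,8]),
    (true,[([(0,8,[(12,15),(5,6)])],[])],[6,5,2,2],false,3,3,[4]),
    (false,[([(0,8,[(12,15),(5,6)]),(0,12,[(4,4)])],[6,5])],[],false,1,0,[]),
    (true,[([(0,5,[(12,15)])],[]),([(0,0,[(7,8)])],[2,2,1])],[6,2],false,2,1,[]),
    (true,[([(0,7,[(16,19)])],[])],[6,5,4,2],false,4,2,[])]),
  ([10,9,6,5,4,3], [
    (false,[],[10,9,6,5,4,3],false,6,3,[10,15,19]),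
    (true,[([(0,2,[(7,10)])],[1,1])],[6,6,5,4,2,2],false,4,4,[6,8,9,10]),
    (true,[([(0,2,[(7,10)])],[]),([(0,1,[(5,6)])],[3,2,2])],[6,6,2],false,1,0,[3,6]),
    (true,[([(0,2,[(7,10)]),(0,3,[(2,3)])],[]),([(0,1,[(5,6)])],[3,1])],[6,6,2],false,1,0,[2,3]),
    (true,[([(0,2,[(7,10)])],[1]),([(0,1,[(5,6)]),(1,0,[(2,3),(2,2)])],[])],[6,6,2],true,2,6,[]),
    (true,[([(0,2,[(7,10)])],[1,1]),([(0,1,[(5,6)]),(0,1,[(2,3),(3,3)])],[])],[6,5,2],false,3,2,[]),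
    (true,[([(0,2,[(7,10)])],[1,1]),([(0,1,[(5,6)]),(0,1,[(4,6)])],[])],[6,5,2],false,3,2,[5,6]),
    (true,[([(0,2,[(7,10)])],[2,2]),([(0,1,[(5,6)]),(0,1,[(4,6)])],[]),([(0,4,[(4,5)])],[3,2,1])],[],false,1,0,[3]),
    (true,[([(0,2,[(7,10)])],[2,2]),([(0,1,[(5,6)]),(0,1,[(4,6)])],[]),([(0,4,[(4,5)]),(0,3,[(2,3)])],[3])],[],false,1,0,[2]),
    (true,[([(0,2,[(7,10)])],[2,2]),([(0,1,[(5,6)]),(0,1,[(4,6)])],[]),([(0,4,[(4,5)]),(1,0,[(2,3),(2,2)])],[])],[],false,1,0,[]),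
    (true,[([(0,2,[(7,10)])],[1,1]),([(0,1,[(5,6)]),(0,1,[(4,6)])],[]),([(0,1,[(6,6)])],[3,2,2])],[],false,1,0,[]),
    (true,[([(0,2,[(7,10)])],[]),([(0,0,[(7,8)])],[2,2,1])],[6,6,2],true,2,6,[3,6,7]),
    (true,[([(0,2,[(7,10)]),(0,3,[(3,3)])],[]),([(0,0,[(7,8)])],[1,1,1])],[6,5,2],false,3,2,[]),
    (true,[([(0,2,[(7,10)])],[2,1]),([(0,0,[(7,8)]),(0,1,[(4,6)])],[])],[6,2,2],false,2,3,[3,4]),
    (true,[([(0,2,[(7,10)]),(0,3,[(3,3)])],[]),([(0,0,[(7,8)]),(0,1,[(4,6)])],[])],[6,2,2],false,2,1,[]),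
    (true,[([(0,2,[(7,10)])],[2,1]),([(0,0,[(7,8)]),(0,1,[(4,6)])],[]),([(0,12,[(4,4)])],[])],[6],false,1,0,[]),
    (true,[([(0,2,[(7,10)])],[1]),([(0,0,[(7,8)]),(0,0,[(7,7)])],[])],[6,2,2],false,1,0,[]),
    (true,[([(0,7,[(7,10),(9,9)])],[])],[6,6,4,2],false,3,2,[5]),
    (true,[([(0,2,[(7,10)])],[1,1]),([(0,6,[(9,9)]),(0,1,[(4,5)])],[])],[6,2,2],false,2,1,[]),
    (true,[([(0,8,[(7,10),(10,10)])],[])],[6,6,2,2],false,2,3,[3,4]),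
    (true,[([(0,8,[(7,10),(10,10)])],[]),([(0,3,[(3,3)])],[2,1,1,1])],[6,2],false,2,1,[]),
    (false,[([(0,8,[(7,10),(10,10)]),(0,12,[(4,4)])],[6,6])],[],false,1,0,[]),
    (true,[([(0,5,[(11,15)])],[1])],[6,6,5,2,2],false,3,4,[6,8,9]),
    (true,[([(0,5,[(11,15)])],[1]),([(0,1,[(4,6)])],[3,2,2])],[6,2],false,1,0,[3,6]),
    (true,[([(0,5,[(11,15)])],[2]),([(0,1,[(4,6)]),(0,3,[(2,3)])],[3])],[6,2],true,2,4,[3]),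
    (true,[([(0,5,[(11,15)])],[2]),([(0,1,[(4,6)]),(0,1,[(2,3),(3,3)])],[])],[6,2],false,2,2,[3]),
    (true,[([(0,5,[(11,15)])],[2]),([(0,1,[(4,6)]),(0,1,[(2,3),(3,3)])],[]),([(0,3,[(3,3)])],[2,1,1,1])],[],false,1,0,[]),
    (true,[([(0,5,[(11,15)])],[2]),([(0,1,[(4,6)]),(0,1,[(4,6)])],[])],[6,2],false,2,2,[3]),
    (true,[([(0,5,[(11,15)])],[2]),([(0,1,[(4,6)]),(0,1,[(4,6)])],[]),([(0,3,[(3,3)])],[2,1,1,1])],[],false,1,0,[]),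
    (true,[([(0,5,[(11,15)])],[]),([(0,0,[(7,8)])],[2,2,2])],[6,2],false,2,2,[3]),
    (true,[([(0,5,[(11,15)])],[1]),([(0,0,[(7,8)]),(0,3,[(3,3)])],[2])],[6,2],false,1,0,[]),
    (true,[([(0,5,[(11,15)])],[]),([(0,6,[(9,9)])],[3,3,3])],[2,2],false,1,0,[]),
    (true,[([(0,13,[(16,19)])],[2])],[6,5,2,2,1],false,4,1,[])]),
  ([10,9,7,3,2,1,1,1,1,1], [
    (false,[],[10,9,7,3,2,1,1,1,1,1],false,5,5,[8,12,16,19]),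
    (false,[([(0,15,[(6,8)])],[1,1,1])],[10,9,3,1,1,1],false,1,0,[3,5,8]),
    (false,[([(0,15,[(6,8)]),(0,3,[(2,3)])],[1])],[10,9,2,1,1,1],false,2,12,[3]),
    (false,[([(0,15,[(6,8)]),(0,3,[(2,3)])],[1]),([(0,3,[(3,3)])],[])],[10,9,1,1],false,2,10,[3]),
    (true,[([(0,15,[(6,8)]),(1,1,[(2,3),(3,3),(3,3)])],[1,1])],[4,3,3,3,2,1],true,3,5,[]),
    (true,[([(0,15,[(6,8)]),(0,4,[(4,5)])],[1,1,1])],[5,4,3,3,3,2],false,3,5,[5]),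
    (true,[([(0,15,[(6,8)]),(0,2,[(4,5),(4,5)])],[1,1])],[4,3,3,3,2,1],false,3,3,[5]),
    (true,[([(0,15,[(6,8)])],[3]),([(0,4,[(4,5)]),(0,4,[(4,5)]),(0,4,[(4,5)])],[1])],[4,3,2],false,3,2,[5]),
    (true,[([(0,15,[(6,8)]),(0,2,[(4,5),(4,5)])],[1,1]),([(0,2,[(4,5),(4,5)])],[])],[3,3],false,1,0,[2]),
    (true,[([(0,2,[(6,8),(2,2)])],[]),([(0,4,[(4,5)]),(0,4,[(4,5)]),(0,4,[(4,5)])],[1]),([(0,4,[(4,5)])],[3,2])],[],false,1,0,[]),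
    (true,[([(0,15,[(6,8)]),(0,15,[(6,8)])],[3,1])],[4,3,3,3,2,1],true,3,5,[5,7,8]),
    (true,[([(0,15,[(6,8)]),(0,15,[(6,8)])],[1,1]),([(0,4,[(4,5)])],[2,2])],[3,3,3],false,1,0,[2,3,5]),
    (true,[([(0,2,[(6,8),(2,2)]),(0,15,[(6,8)])],[1,1]),([(0,1,[(4,5)])],[])],[4,3,3],false,2,4,[]),
    (true,[([(0,15,[(6,8)]),(0,15,[(6,8)])],[1,1]),([(0,4,[(4,5)])],[3,3]),([(0,3,[(3,3)])],[1])],[3],false,1,0,[2,3]),
    (true,[([(0,2,[(6,8),(2,2)])],[]),([(0,15,[(6,8)]),(0,15,[(4,5),(3,3)])],[4,1])],[3,2],false,2,2,[]),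
    (true,[([(0,15,[(6,8)]),(0,15,[(6,8)])],[4,1]),([(0,1,[(4,5)])],[]),([(0,1,[(3,3),(3,3)])],[3])],[],false,1,0,[2]),
    (true,[([(0,2,[(6,8),(2,2)])],[]),([(0,15,[(6,8)]),(0,15,[(4,5),(3,3)])],[4,1]),([(0,3,[(3,3)])],[2])],[],false,1,0,[]),
    (true,[([(0,15,[(6,8)]),(0,15,[(6,8)])],[4,1]),([(0,2,[(4,5),(4,5)])],[])],[3,2],false,2,2,[3]),
    (true,[([(0,15,[(6,8)]),(0,15,[(6,8)])],[4,1]),([(0,2,[(4,5),(4,5)])],[]),([(0,3,[(3,3)])],[2])],[],false,1,0,[]),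
    (true,[([(0,15,[(6,8)]),(0,19,[(6,7)])],[3,1]),([(0,15,[(6,8)])],[3])],[3,3],false,1,0,[3,4]),
    (true,[([(0,15,[(6,8)]),(0,15,[(6,8)])],[4,1]),([(0,2,[(6,7),(2,3)])],[])],[3,2],false,2,2,[3]),
    (true,[([(0,15,[(6,8)]),(0,15,[(6,8)])],[4,1]),([(0,2,[(6,7),(2,3)])],[]),([(0,3,[(3,3)])],[2])],[],false,1,0,[]),
    (true,[([(0,15,[(6,8)]),(0,15,[(6,8)])],[1,1]),([(0,11,[(6,7),(4,4)])],[1])],[3,3],false,1,0,[]),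
    (true,[([(0,15,[(6,8)]),(0,15,[(6,8)])],[3,1]),([(0,0,[(8,8)])],[])],[4,3,1],false,2,1,[]),
    (false,[([(0,25,[(9,12)])],[1,1])],[10,9,1,1,1],false,2,10,[3,5,7,10,11]),
    (true,[([(0,5,[(9,12),(3,3)])],[])],[10,3,3,3,2],true,3,4,[]),
    (false,[([(0,25,[(9,12)]),(0,1,[(4,5)])],[2,2])],[9,2,1,1,1],true,2,7,[3,4,5]),
    (true,[([(0,25,[(9,12)]),(0,15,[(4,5),(3,3)])],[1])],[4,3,3,3,2],false,3,2,[]),
    (false,[([(0,25,[(9,12)]),(0,1,[(4,5)]),(0,12,[(4,4)])],[])],[9,2,1,1,1],false,3,2,[4]),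
    (false,[([(0,25,[(9,12)]),(0,12,[(4,4)]),(0,12,[(4,4)])],[]),([(0,4,[(4,5)])],[])],[10,1],false,2,1,[]),
    (true,[([(0,25,[(9,12)]),(0,27,[(4,5),(5,5)])],[])],[4,3,3,3,1],false,3,1,[4]),
    (false,[([(0,26,[(9,12),(5,5)]),(0,12,[(4,4)])],[2]),([(0,4,[(4,5)])],[1,1,1,1,1,1,1])],[1],false,1,0,[]),
    (true,[([(0,25,[(9,12)]),(0,19,[(6,7)])],[1])],[5,3,3,3,2],false,3,2,[5,6]),
    (true,[([(0,25,[(9,12)]),(0,19,[(6,7)])],[1]),([(0,4,[(4,5)])],[3,3])],[3,2],false,2,2,[3]),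
    (true,[([(0,5,[(9,12),(3,3)])],[]),([(0,19,[(6,7)]),(0,4,[(4,5)])],[4,1,1])],[3],false,1,0,[]),
    (true,[([(0,25,[(9,12)]),(0,19,[(6,7)])],[1]),([(0,1,[(6,6)])],[3,1])],[3,3],false,1,0,[]),
    (true,[([(0,25,[(9,12)]),(0,27,[(8,10)])],[])],[4,3,3,3,1],false,3,1,[4]),
    (true,[([(0,25,[(9,12)]),(0,27,[(8,10)])],[]),([(0,12,[(4,4)])],[2])],[4,3,1],false,1,0,[]),
    (true,[([(0,25,[(9,12)])],[5,1,1,1,1]),([(0,11,[(11,11)])],[1])],[3],false,1,0,[]),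
    (false,[([(0,33,[(13,16)])],[1,1])],[10,7,1],true,3,3,[6,7]),
    (false,[([(0,32,[(13,16)]),(0,1,[(4,6)])],[2])],[9,1,1,1],false,2,3,[3,4]),
    (false,[([(0,33,[(13,16)])],[1,1]),([(0,1,[(4,6)]),(0,3,[(3,3)])],[2,2,2,2,1])],[],false,1,0,[2]),
    (false,[([(0,32,[(13,16)]),(0,1,[(4,6)])],[2]),([(0,4,[(3,3),(2,2)])],[1,1,1,1,1,1])],[1],false,1,0,[]),
    (false,[([(0,33,[(13,16)])],[]),([(0,1,[(4,6)]),(0,12,[(4,4)])],[2,2,2,2,2])],[],false,1,0,[]),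
    (true,[([(0,33,[(13,16)])],[6,5,1]),([(0,0,[(7,7)])],[])],[],false,1,0,[]),
    (true,[([(0,13,[(17,19)])],[1,1,1,1,1])],[3,3,3,2,1],false,3,1,[])])]

theorem cj6e_5_ok : runAllJ S40 R40 F40 18 cj6e_5 = true := by decide +kernel

noncomputable def cj6e_6 : List (List ℕ × List NdJ) := [
  ([10,9,8,4,3,2], [
    (false,[],[10,9,8,4,3,2],false,5,4,[8,11,15,19]),
    (false,[([(0,15,[(6,8)])],[4,3,1,1])],[10,9],false,1,0,[3,4,5,6,8]),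
    (false,[([(0,15,[(6,8)])],[4,3,1,1]),([(0,3,[(2,3)])],[2,2,2,2,2,2,2,2])],[],false,1,0,[2,3]),
    (true,[([(0,2,[(6,8),(2,2)]),(0,3,[(2,3)])],[])],[6,5,3,3,3,3],false,2,11,[]),
    (true,[([(0,15,[(6,8)])],[3]),([(0,1,[(2,3),(3,3)])],[3,3,1])],[6,3,3],false,1,0,[2,3]),
    (false,[([(0,2,[(6,8),(2,2)]),(0,1,[(2,3),(3,3)])],[4,2,2])],[9,3],false,1,0,[2]),
    (true,[([(0,2,[(6,8),(2,2)])],[]),([(0,3,[(2,3)]),(0,3,[(3,3)]),(0,3,[(2,2)])],[])],[6,5,3,3],false,2,8,[]),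
    (true,[([(0,15,[(6,8)])],[3]),([(0,3,[(2,3)]),(0,3,[(3,3)]),(0,3,[(3,3)])],[])],[6,4,3,3],false,3,4,[]),
    (true,[([(0,25,[(6,8),(4,4)])],[4])],[6,5,3,3,3],false,3,5,[4]),
    (true,[([(0,25,[(6,8),(4,4)])],[4]),([(0,12,[(4,4)])],[2])],[6,5,3],false,3,3,[4]),
    (true,[([(0,15,[(6,8)])],[3]),([(0,12,[(4,4)]),(0,12,[(4,4)]),(0,12,[(4,4)])],[])],[4,3,3,3],false,2,4,[3,4]),
    (true,[([(0,5,[(6,8),(4,4),(3,3)])],[2]),([(0,15,[(4,4),(4,4)])],[4,4])],[3],false,1,0,[3]),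
    (true,[([(0,5,[(6,8),(4,4),(3,3)])],[1]),([(0,12,[(4,4)]),(0,12,[(4,4)]),(0,3,[(2,3)])],[])],[3,3,3],false,1,0,[2]),
    (true,[([(0,5,[(6,8),(4,4),(3,3)])],[5]),([(0,1,[(4,4),(2,2)]),(0,3,[(2,3)])],[1]),([(0,12,[(4,4)])],[2])],[],false,1,0,[]),
    (true,[([(0,25,[(6,8),(4,4)])],[4]),([(0,12,[(4,4)]),(0,12,[(4,4)])],[2,1]),([(0,12,[(4,4)])],[2])],[3],false,1,0,[2]),
    (true,[([(0,25,[(6,8),(4,4)])],[4]),([(0,12,[(4,4)]),(0,12,[(4,4)]),(0,3,[(2,2)])],[]),([(0,12,[(4,4)])],[2])],[3],false,1,0,[]),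
    (false,[([(0,15,[(6,8)]),(0,4,[(5,5)])],[4])],[10,9],false,2,9,[3,4,5]),
    (true,[([(0,15,[(6,8)])],[3]),([(0,15,[(5,5),(3,3)])],[4,4])],[6,3],false,1,0,[2,3]),
    (true,[([(0,5,[(6,8),(5,5),(2,2)])],[]),([(0,3,[(3,3)])],[2,2,1,1])],[6,3,3],false,2,6,[]),
    (true,[([(0,15,[(6,8)])],[3,3]),([(0,4,[(5,5)]),(0,1,[(3,3),(3,3)])],[])],[5,3,3],false,2,5,[3]),
    (true,[([(0,15,[(6,8)])],[4,4]),([(1,2,[(5,5),(3,3),(3,3),(3,3)])],[2])],[3],false,1,0,[2,3]),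
    (true,[([(0,5,[(6,8),(5,5),(2,2)])],[]),([(0,3,[(3,3)]),(0,3,[(3,3)]),(0,3,[(3,3)])],[])],[6,3,3],false,2,2,[]),
    (true,[([(0,15,[(6,8)])],[3]),([(0,15,[(5,5),(3,3)])],[4,4]),([(0,3,[(3,3)]),(0,3,[(3,3)]),(0,3,[(3,3)])],[])],[],false,1,0,[2]),
    (true,[([(0,5,[(6,8),(5,5),(2,2)])],[]),([(0,3,[(3,3)]),(0,3,[(3,3)]),(0,3,[(3,3)])],[]),([(0,3,[(3,3)])],[2,2,1,1])],[3],false,1,0,[]),
    (true,[([(0,15,[(6,8)])],[4,3]),([(0,4,[(5,5)]),(0,12,[(4,4)])],[])],[6,3,3],false,2,6,[3,4]),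
    (true,[([(0,5,[(6,8),(4,4),(3,3)])],[]),([(0,4,[(5,5)])],[3,3,1])],[6,3],false,1,0,[2,3]),
    (true,[([(0,5,[(6,8),(5,5),(2,2)])],[]),([(0,12,[(4,4)]),(0,3,[(3,3)])],[1,1])],[6,3,3],false,2,3,[]),
    (true,[([(0,5,[(6,8),(4,4),(3,3)])],[2]),([(0,15,[(5,5),(3,3)])],[4,4])],[3],false,1,0,[3]),
    (true,[([(0,5,[(6,8),(4,4),(3,3)])],[4]),([(0,4,[(5,5)]),(0,1,[(3,3),(2,3)])],[])],[3,3],false,1,0,[2]),
    (true,[([(0,5,[(6,8),(5,5),(2,2)])],[5]),([(0,12,[(4,4)])],[2]),([(0,1,[(3,3),(3,3)]),(0,3,[(2,3)])],[1])],[],false,1,0,[]),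
    (true,[([(0,8,[(6,8),(5,5),(4,4),(4,4)])],[])],[6,3,3,3],false,2,3,[3,4]),
    (true,[([(0,8,[(6,8),(5,5),(4,4),(4,4)])],[]),([(0,3,[(3,3)])],[2,2,1,1])],[3,3],false,1,0,[2]),
    (true,[([(0,8,[(6,8),(5,5),(4,4),(4,4)])],[]),([(0,4,[(3,3),(2,2)])],[3,3,1])],[3],false,1,0,[]),
    (true,[([(0,8,[(6,8),(5,5),(4,4),(4,4)])],[]),([(0,12,[(4,4)])],[2])],[6,3],false,1,0,[]),
    (true,[([(0,15,[(6,8)])],[3,3]),([(0,4,[(5,5)]),(0,1,[(5,5)])],[])],[5,3,3],false,2,5,[3,4,5]),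
    (true,[([(0,8,[(6,8),(5,5),(5,5),(3,3)])],[])],[6,3,3,3],false,2,3,[3]),
    (true,[([(0,8,[(6,8),(5,5),(5,5),(3,3)])],[]),([(0,3,[(3,3)])],[2,2,1,1])],[3,3],false,1,0,[2]),
    (true,[([(0,8,[(6,8),(5,5),(5,5),(3,3)])],[]),([(0,4,[(3,3),(2,2)])],[3,3,1])],[3],false,1,0,[]),
    (true,[([(0,15,[(6,8)])],[3,3]),([(0,17,[(5,5),(5,5),(4,4)])],[5])],[3],false,1,0,[3]),
    (true,[([(0,15,[(6,8)])],[4,4]),([(0,2,[(5,5),(5,5)])],[1]),([(0,12,[(4,4)]),(0,3,[(2,3)])],[1,1])],[],false,1,0,[2]),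
    (true,[([(0,5,[(6,8),(5,5),(2,2)])],[4]),([(0,4,[(5,5)]),(0,3,[(2,3)])],[3]),([(0,12,[(4,4)])],[2])],[],false,1,0,[]),
    (true,[([(0,15,[(6,8)])],[4,4]),([(0,5,[(5,5),(5,5),(5,5)])],[2])],[3],false,1,0,[2]),
    (true,[([(0,5,[(6,8),(5,5),(2,2)])],[4]),([(0,4,[(5,5)]),(0,1,[(5,5)])],[])],[3,3],false,1,0,[]),
    (true,[([(0,17,[(6,8),(6,6)])],[4])],[6,4,3,3,2],false,4,2,[6]),
    (false,[([(0,17,[(6,8),(6,6)]),(0,1,[(5,6)])],[5,2])],[9],false,1,0,[3,5]),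
    (true,[([(0,17,[(6,8),(6,6)])],[5]),([(0,1,[(5,6)]),(0,3,[(2,3)])],[1])],[4,3],false,2,3,[3]),
    (true,[([(0,17,[(6,8),(6,6)])],[4]),([(0,1,[(5,6)]),(0,1,[(2,3),(3,3)])],[])],[3,3],false,1,0,[2]),
    (true,[([(0,17,[(6,8),(6,6)])],[4]),([(0,1,[(5,6)]),(0,4,[(3,3),(2,2)])],[]),([(0,3,[(2,3)])],[2,2])],[],false,1,0,[]),
    (true,[([(0,17,[(6,8),(6,6)])],[4]),([(0,1,[(5,6)]),(0,4,[(4,5)])],[])],[4,3],false,2,1,[]),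
    (true,[([(0,15,[(6,8)])],[3,3]),([(0,0,[(7,8)])],[])],[6,5,3],false,3,3,[6,8]),
    (true,[([(0,15,[(6,8)])],[3,1]),([(0,0,[(7,8)]),(0,1,[(4,6)])],[])],[4,3,3],false,2,4,[3,5]),
    (true,[([(0,15,[(6,8)])],[3,1]),([(0,0,[(7,8)]),(0,1,[(4,6)])],[]),([(0,3,[(3,3)])],[2,2])],[3],false,1,0,[3]),
    (true,[([(0,15,[(6,8)])],[4,4]),([(0,0,[(7,8)]),(0,1,[(4,6)])],[]),([(0,1,[(3,3),(2,3)])],[])],[],false,1,0,[2]),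
    (true,[([(0,2,[(6,8),(2,2)])],[]),([(0,0,[(7,8)]),(0,1,[(4,6)])],[]),([(0,3,[(3,3)]),(0,3,[(2,3)])],[2,1])],[3],false,1,0,[]),
    (true,[([(0,15,[(6,8)])],[4,4]),([(0,0,[(7,8)]),(0,1,[(4,6)])],[]),([(0,1,[(4,5)])],[])],[],false,1,0,[2]),
    (true,[([(0,2,[(6,8),(2,2)])],[]),([(0,0,[(7,8)]),(0,1,[(4,6)])],[]),([(0,4,[(4,5)])],[3,3,1])],[],false,1,0,[]),
    (true,[([(0,15,[(6,8)])],[3]),([(0,0,[(7,8)]),(0,0,[(7,8)])],[])],[3,3,3],false,1,0,[2]),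
    (true,[([(0,2,[(6,8),(2,2)])],[1]),([(0,0,[(7,8)]),(0,0,[(7,8)])],[])],[3,3,3],false,1,0,[]),
    (true,[([(0,11,[(9,11)])],[1,1])],[6,5,4,3,3,2],false,5,2,[6,8,10,11]),
    (true,[([(0,14,[(9,11),(6,6)])],[2])],[6,3,3,3,2],false,3,2,[6]),
    (true,[([(0,11,[(9,11)])],[1]),([(0,1,[(6,6)]),(0,1,[(4,6)])],[])],[6,3,3],false,2,2,[3]),
    (true,[([(0,11,[(9,11)])],[1,1]),([(0,5,[(6,6),(4,6),(3,3)])],[5])],[3],false,1,0,[]),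
    (true,[([(0,11,[(9,11)])],[]),([(0,0,[(7,8)])],[1,1,1])],[6,5,3],false,3,3,[5]),
    (true,[([(0,11,[(9,11)])],[1]),([(0,0,[(7,8)]),(0,4,[(4,5)])],[])],[6,3,2],false,2,1,[]),
    (true,[([(0,8,[(9,11),(9,10)])],[])],[6,3,3,3],false,2,2,[3]),
    (true,[([(0,8,[(9,11),(9,10)])],[]),([(0,3,[(3,3)])],[2,2,1,1])],[3,3],false,1,0,[]),
    (true,[([(0,11,[(9,11)])],[1,1]),([(0,11,[(11,11)])],[4,2])],[3,3],false,1,0,[]),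
    (true,[([(0,5,[(12,15)])],[1])],[6,5,3,3,3],false,3,5,[4,6,8]),
    (true,[([(0,5,[(12,15)])],[1]),([(0,12,[(4,4)])],[2])],[6,5,3],false,3,3,[4]),
    (true,[([(0,5,[(12,15)])],[2]),([(0,15,[(4,4),(4,4)])],[4,4])],[3],false,1,0,[2]),
    (true,[([(0,8,[(12,15),(4,4),(2,2)])],[]),([(0,12,[(4,4)])],[2])],[6,3],false,1,0,[]),
    (true,[([(0,8,[(12,15),(5,6)])],[])],[6,3,3,3],false,2,3,[3,4]),
    (true,[([(0,8,[(12,15),(5,6)])],[]),([(0,3,[(3,3)])],[2,2,1,1])],[3,3],false,1,0,[2]),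
    (true,[([(0,8,[(12,15),(5,6)])],[]),([(0,4,[(3,3),(2,2)])],[3,3,1])],[3],false,1,0,[]),
    (true,[([(0,8,[(12,15),(5,6)])],[]),([(0,12,[(4,4)])],[2])],[6,3],false,1,0,[]),
    (true,[([(0,5,[(12,15)])],[4]),([(0,0,[(7,8)])],[])],[6,3],false,2,1,[]),
    (true,[([(0,13,[(16,19)])],[1])],[6,3,3,3,1],false,3,1,[4]),
    (false,[([(0,13,[(16,19)]),(0,12,[(4,4)])],[2,1])],[10],false,1,0,[])]),
  ([10,9,8,5,2,2,1], [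
    (false,[],[10,9,8,5,2,2,1],false,5,5,[8,11,15,19]),
    (false,[([(0,15,[(6,8)])],[3,2,2,1])],[10,9,2],false,1,0,[3,5,7,8]),
    (false,[([(0,15,[(6,8)]),(0,3,[(2,3)])],[3,2])],[10,9,2],false,1,0,[2,3]),
    (true,[([(0,2,[(6,8),(2,2)]),(0,3,[(2,3)])],[])],[7,4,4,3,3,3],false,2,11,[]),
    (true,[([(0,15,[(6,8)]),(0,1,[(2,3),(3,3)])],[])],[6,4,4,3,3,3],false,3,6,[]),
    (true,[([(0,15,[(6,8)]),(0,4,[(4,5)])],[])],[6,4,4,4,3,3],false,3,6,[4,5]),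
    (true,[([(0,15,[(6,8)]),(0,4,[(4,5)])],[]),([(0,12,[(4,4)])],[2,1])],[6,4,4,3],false,3,3,[4]),
    (true,[([(0,15,[(6,8)]),(0,4,[(4,5)])],[]),([(0,12,[(4,4)]),(0,12,[(4,4)])],[])],[6,4,3,3],false,3,4,[4]),
    (true,[([(0,25,[(6,8),(4,4)])],[4]),([(0,4,[(4,5)])],[3,3,1,1]),([(0,12,[(4,4)]),(0,12,[(4,4)])],[])],[],false,1,0,[2]),
    (true,[([(0,25,[(6,8),(4,4)])],[4]),([(0,4,[(4,5)]),(0,1,[(4,4),(2,2)])],[3]),([(0,12,[(4,4)])],[2,1])],[],false,1,0,[]),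
    (false,[([(0,15,[(6,8)]),(0,27,[(4,5),(5,5)])],[2])],[9,8],false,2,6,[3,5]),
    (false,[([(0,15,[(6,8)]),(0,27,[(4,5),(5,5)])],[2]),([(0,3,[(3,3)])],[2,2,2,2,2,2,2])],[],false,1,0,[3]),
    (true,[([(0,15,[(6,8)])],[4,4]),([(0,2,[(4,5),(5,5)]),(0,3,[(3,3)])],[1]),([(0,3,[(2,3)])],[2,2])],[],false,1,0,[2,3]),
    (true,[([(0,5,[(6,8),(5,5),(2,2)])],[1]),([(0,4,[(4,5)]),(0,1,[(3,3),(2,3)])],[3])],[4,3],false,2,2,[]),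
    (true,[([(0,15,[(6,8)])],[4,4]),([(0,2,[(4,5),(5,5)])],[]),([(0,3,[(3,3)]),(0,3,[(2,3)]),(0,3,[(3,3)])],[2])],[],false,1,0,[2]),
    (true,[([(0,5,[(6,8),(5,5),(2,2)])],[1]),([(0,4,[(4,5)]),(0,1,[(3,3),(2,3)])],[3]),([(0,3,[(3,3)])],[2,2])],[],false,1,0,[]),
    (true,[([(0,15,[(6,8)])],[4,3]),([(0,2,[(4,5),(5,5)]),(0,4,[(4,5)])],[])],[4,3],false,2,3,[3,4]),
    (true,[([(0,15,[(6,8)])],[4,3]),([(0,2,[(4,5),(5,5)]),(0,4,[(4,5)])],[]),([(0,3,[(3,3)])],[2,2])],[],false,1,0,[2]),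
    (true,[([(0,5,[(6,8),(5,5),(2,2)])],[1]),([(0,4,[(4,5)]),(0,1,[(4,5)])],[3]),([(0,3,[(3,3)])],[2,2])],[],false,1,0,[]),
    (true,[([(0,15,[(6,8)])],[4,3]),([(0,2,[(4,5),(5,5)]),(0,4,[(4,5)])],[]),([(0,12,[(4,4)])],[2,1])],[],false,1,0,[]),
    (true,[([(0,5,[(6,8),(6,7)])],[1])],[7,4,4,3,3],false,3,6,[5,6,7]),
    (true,[([(0,5,[(6,8),(6,7)])],[1]),([(0,4,[(4,5)])],[3,3,1,1])],[4,4],false,1,0,[3,5]),
    (true,[([(0,5,[(6,8),(6,7)])],[1]),([(0,4,[(4,5)]),(0,3,[(2,3)])],[3,3])],[4,3],false,1,0,[2,3]),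
    (true,[([(0,5,[(6,8),(6,7)])],[1]),([(0,4,[(4,5)]),(1,0,[(2,3),(2,2)])],[3])],[4,3],false,2,3,[]),
    (true,[([(0,5,[(6,8),(6,7)])],[1]),([(0,4,[(4,5)]),(0,1,[(2,3),(3,3)])],[3])],[4,3],false,2,2,[3]),
    (true,[([(0,5,[(6,8),(6,7)])],[1]),([(0,4,[(4,5)]),(0,1,[(2,3),(3,3)])],[3]),([(0,3,[(3,3)])],[2,2])],[],false,1,0,[]),
    (true,[([(0,5,[(6,8),(6,7)])],[1]),([(0,4,[(4,5)]),(0,1,[(4,5)])],[3])],[4,3],false,2,2,[3]),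
    (true,[([(0,5,[(6,8),(6,7)])],[1]),([(0,4,[(4,5)]),(0,1,[(4,5)])],[3]),([(0,3,[(3,3)])],[2,2])],[],false,1,0,[]),
    (true,[([(0,8,[(6,8),(6,7),(6,6)])],[2])],[4,4,3,3],false,2,3,[3,4]),
    (true,[([(0,8,[(6,8),(6,7),(6,6)])],[2]),([(0,3,[(3,3)])],[2,2])],[4,3],false,2,1,[]),
    (true,[([(0,8,[(6,8),(6,7),(6,6)])],[2]),([(0,12,[(4,4)])],[2])],[4,4],false,1,0,[]),
    (false,[([(0,5,[(6,8),(6,7)]),(0,0,[(7,7)])],[2])],[10,2],false,2,2,[3]),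
    (true,[([(0,5,[(6,8),(6,7)])],[5,2]),([(0,11,[(7,7),(3,3)])],[])],[4],false,1,0,[]),
    (true,[([(0,15,[(6,8)])],[3,1]),([(0,0,[(8,8)])],[3])],[7,4,3],false,3,3,[6,7]),
    (true,[([(0,15,[(6,8)]),(0,1,[(4,6)])],[]),([(0,15,[(8,8)])],[4,4])],[4,3],false,2,3,[3,4]),
    (false,[([(0,7,[(6,8),(8,8),(3,3)]),(0,1,[(4,6)])],[3])],[9],false,1,0,[2]),
    (false,[([(0,2,[(6,8),(2,2)]),(0,11,[(8,8),(3,3)])],[2,2]),([(0,1,[(4,6)])],[1,1,1,1,1,1])],[],false,1,0,[]),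
    (false,[([(0,15,[(6,8)]),(0,15,[(8,8)])],[2]),([(0,1,[(4,6)]),(0,12,[(4,4)])],[2,2,2,2,1])],[],false,1,0,[]),
    (true,[([(0,5,[(6,8),(7,7)])],[1]),([(0,15,[(8,8)])],[4,4,1])],[4],false,1,0,[]),
    (true,[([(0,11,[(9,11)])],[])],[7,6,4,4,3,2],false,5,2,[8,11]),
    (true,[([(0,11,[(9,11)])],[]),([(0,15,[(6,8)])],[4,3])],[7,4],false,1,0,[3,5,6]),
    (true,[([(0,11,[(9,11)]),(0,3,[(2,3)])],[]),([(0,15,[(6,8)])],[4,3,1])],[4,3],false,1,0,[2,3]),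
    (true,[([(0,11,[(9,11)]),(0,3,[(2,3)])],[]),([(0,2,[(6,8),(2,2)])],[4,1,1])],[4,3],false,2,3,[]),
    (true,[([(0,11,[(9,11)]),(0,3,[(2,3)])],[]),([(0,15,[(6,8)])],[4,3,1]),([(0,3,[(3,3)])],[2,2])],[],false,1,0,[3]),
    (true,[([(0,11,[(9,11)]),(0,3,[(2,3)])],[]),([(0,15,[(6,8)])],[4,4,1]),([(0,3,[(3,3)]),(0,3,[(2,3)])],[])],[],false,1,0,[2]),
    (true,[([(0,11,[(9,11)])],[]),([(0,2,[(6,8),(2,2)])],[4,1]),([(0,3,[(2,3)]),(0,3,[(3,3)]),(0,3,[(2,3)])],[2])],[],false,1,0,[]),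
    (true,[([(0,11,[(9,11)]),(0,4,[(4,5)])],[]),([(0,15,[(6,8)])],[4,4])],[3,2],false,2,2,[3]),
    (true,[([(0,11,[(9,11)]),(0,4,[(4,5)])],[]),([(0,15,[(6,8)])],[4,4]),([(0,3,[(3,3)])],[2])],[],false,1,0,[]),
    (true,[([(0,14,[(9,11),(6,6)])],[1]),([(0,15,[(6,8)])],[4,3,1])],[3],false,1,0,[]),
    (true,[([(0,11,[(9,11)])],[]),([(0,11,[(9,11)])],[4,1])],[7,3],false,2,2,[3]),
    (true,[([(0,17,[(9,11),(3,3)])],[5,3]),([(0,11,[(9,11)])],[])],[4],false,1,0,[]),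
    (true,[([(0,5,[(12,15)])],[1])],[7,4,4,3,3],false,3,6,[6,8]),
    (false,[([(0,5,[(12,15)]),(0,1,[(4,6)])],[3,2])],[9,2],true,2,4,[3,5]),
    (false,[([(0,5,[(12,15)]),(0,1,[(4,6)])],[3,2]),([(0,3,[(3,3)])],[2,1,1,1,1,1,1])],[],false,1,0,[3]),
    (false,[([(0,5,[(12,15)]),(0,1,[(4,6)])],[3,2]),([(0,3,[(3,3)]),(0,3,[(2,3)])],[1,1,1,1,1])],[],false,1,0,[2]),
    (true,[([(0,5,[(12,15)])],[1]),([(0,1,[(4,6)]),(0,4,[(3,3),(2,2)])],[3]),([(0,3,[(2,3)])],[2,2])],[],false,1,0,[]),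
    (true,[([(0,5,[(12,15)])],[1]),([(0,1,[(4,6)]),(0,4,[(4,5)])],[3])],[4,3],false,2,1,[]),
    (false,[([(0,5,[(12,15)]),(0,0,[(7,8)])],[2])],[10,2],false,2,1,[]),
    (true,[([(0,7,[(16,19)])],[5])],[4,4,3,2],false,3,2,[4]),
    (false,[([(0,7,[(16,19)]),(0,12,[(4,4)])],[3,3])],[8],false,1,0,[])]),
  ([10,9,8,6,2,1], [
    (false,[],[10,9,8,6,2,1],false,4,8,[6,8,11,14,17,19]),
    (true,[([(0,1,[(5,6)])],[1])],[6,5,4,4,4,3,3],false,4,5,[6]),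
    (true,[([(0,1,[(5,6)]),(0,1,[(5,6)])],[])],[5,4,4,4,3,3,1],false,3,6,[4,5,6]),
    (true,[([(0,1,[(5,6)]),(0,1,[(5,6)])],[]),([(0,12,[(4,4)])],[2,1])],[5,4,4,3,1],false,3,4,[4]),
    (true,[([(0,1,[(5,6)]),(0,1,[(5,6)])],[]),([(0,12,[(4,4)]),(0,12,[(4,4)])],[])],[5,4,3,3,1],false,4,1,[]),
    (true,[([(0,1,[(5,6)]),(0,1,[(5,6)])],[]),([(0,1,[(5,5)])],[2])],[5,4,4,3],false,3,3,[4,5]),
    (true,[([(0,2,[(5,6),(4,4)])],[3]),([(0,1,[(5,6)]),(0,1,[(5,5)])],[])],[4,4,3],false,2,3,[3,4]),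
    (true,[([(0,5,[(5,6),(5,6),(3,3)])],[]),([(0,4,[(5,5)])],[3,3,2]),([(0,12,[(4,4)])],[2,2])],[],false,1,0,[2]),
    (true,[([(0,5,[(5,6),(5,6),(3,3)])],[]),([(0,4,[(5,5)])],[3,3,3]),([(0,12,[(4,4)]),(0,3,[(2,2)])],[])],[],false,1,0,[]),
    (true,[([(0,25,[(5,6),(5,6)])],[4]),([(0,1,[(5,5)])],[3,3]),([(0,12,[(4,4)]),(0,12,[(4,4)])],[])],[],false,1,0,[]),
    (true,[([(0,1,[(5,6)]),(0,1,[(5,6)])],[]),([(0,2,[(5,5),(5,5)])],[3])],[4,4,3],false,2,2,[3]),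
    (true,[([(0,1,[(5,6)]),(0,1,[(5,6)])],[]),([(0,2,[(5,5),(5,5)])],[3]),([(0,3,[(3,3)])],[2,2])],[4],false,1,0,[]),
    (true,[([(0,1,[(5,6)]),(0,1,[(5,6)])],[]),([(0,1,[(6,6)])],[2])],[5,4,4,3],false,3,3,[5,6]),
    (true,[([(0,1,[(5,6)]),(0,1,[(5,6)])],[]),([(0,11,[(6,6),(4,5)])],[])],[5,4,4],false,2,2,[3]),
    (true,[([(0,1,[(5,6)]),(0,1,[(5,6)])],[]),([(0,11,[(6,6),(4,5)])],[]),([(0,3,[(3,3)])],[2,2,2])],[4],false,1,0,[]),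
    (true,[([(0,1,[(5,6)]),(0,1,[(5,6)])],[]),([(0,1,[(6,6)])],[2]),([(0,1,[(6,6)])],[3,3])],[4],false,1,0,[]),
    (true,[([(0,0,[(7,8)])],[3])],[6,5,4,4,3,2,1],false,5,3,[7,8]),
    (true,[([(0,5,[(7,8),(6,7)])],[])],[6,4,4,4,3],false,3,3,[4,6,7]),
    (true,[([(0,5,[(7,8),(6,7)])],[]),([(0,12,[(4,4)])],[2,2])],[6,4,3],false,3,3,[4]),
    (true,[([(0,5,[(7,8),(6,7)])],[]),([(0,12,[(4,4)]),(0,12,[(4,4)])],[])],[6,4,3],false,2,1,[]),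
    (true,[([(0,8,[(7,8),(6,7),(5,6)])],[])],[4,4,4,3],false,2,3,[3,4]),
    (true,[([(0,8,[(7,8),(6,7),(5,6)])],[]),([(0,3,[(3,3)])],[2,2])],[4,4],false,1,0,[2]),
    (true,[([(0,0,[(7,8)])],[2]),([(0,5,[(6,7),(5,6),(2,2)])],[4]),([(0,3,[(3,3)])],[2,2])],[],false,1,0,[]),
    (true,[([(0,8,[(7,8),(6,7),(5,6)])],[]),([(0,12,[(4,4)])],[2,1])],[4,4],false,1,0,[]),
    (true,[([(0,5,[(7,8),(6,7)])],[]),([(0,0,[(7,7)])],[3])],[6,4],false,2,1,[]),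
    (true,[([(0,14,[(7,8),(8,8)])],[])],[6,4,4,3,2],false,4,2,[6]),
    (true,[([(0,18,[(7,8),(8,8),(5,6)])],[])],[4,4,3,3],false,2,1,[]),
    (true,[([(0,11,[(9,11)])],[])],[6,5,4,4,4,2],false,3,6,[4,6,8,11]),
    (true,[([(0,11,[(9,11)])],[]),([(0,12,[(4,4)])],[2,2])],[6,5,4,2],false,4,2,[]),
    (true,[([(0,11,[(9,11)])],[3]),([(0,1,[(5,6)])],[3])],[6,4,3],false,3,3,[4,6]),
    (true,[([(0,8,[(9,11),(5,6),(4,4)])],[])],[4,4,4,3],false,2,3,[4]),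
    (true,[([(0,5,[(9,11),(3,4)])],[]),([(0,1,[(5,6)])],[3,3,1]),([(0,12,[(4,4)])],[2,2])],[],false,1,0,[2]),
    (true,[([(0,11,[(9,11)]),(0,3,[(2,2)])],[]),([(0,2,[(5,6),(3,4)])],[4]),([(0,12,[(4,4)])],[2,2])],[],false,1,0,[]),
    (true,[([(0,11,[(9,11)])],[]),([(0,1,[(5,6)]),(0,1,[(5,6)])],[])],[5,4,4],false,2,2,[3]),
    (true,[([(0,11,[(9,11)])],[]),([(0,1,[(5,6)]),(0,1,[(5,6)])],[]),([(0,3,[(3,3)])],[2,2,2])],[4],false,1,0,[]),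
    (true,[([(0,11,[(9,11)])],[]),([(0,0,[(7,8)])],[2])],[6,5,4],false,3,4,[5]),
    (false,[([(0,11,[(9,11)]),(0,0,[(7,8)]),(0,1,[(4,5)])],[])],[9,2],false,2,1,[]),
    (false,[([(0,11,[(9,11)]),(0,11,[(9,11)])],[2,2])],[9,1],true,2,2,[3]),
    (false,[([(0,11,[(9,11)]),(0,11,[(9,11)])],[2,2]),([(0,3,[(3,3)])],[1,1,1,1,1,1,1])],[],false,1,0,[]),
    (true,[([(0,5,[(12,14)])],[])],[6,4,4,4,3],false,3,3,[5,7,8]),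
    (true,[([(0,5,[(12,14)])],[]),([(0,4,[(4,5)])],[3,3,2])],[4,4],false,1,0,[2,3,4,5]),
    (true,[([(0,8,[(12,14),(4,5),(2,2)])],[])],[4,4,4,3],false,2,3,[]),
    (true,[([(0,14,[(12,14),(3,3)])],[]),([(0,4,[(4,5)])],[3,2,2])],[4,3],false,2,2,[3]),
    (true,[([(0,14,[(12,14),(3,3)])],[]),([(0,15,[(4,5),(3,3)])],[4,3])],[4],false,1,0,[]),
    (true,[([(0,5,[(12,14)])],[]),([(0,4,[(4,5)])],[3,3,2]),([(0,12,[(4,4)])],[2,2])],[],false,1,0,[2]),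
    (true,[([(0,8,[(12,14),(4,5),(2,2)])],[]),([(0,12,[(4,4)])],[2,1])],[4,4],false,1,0,[]),
    (true,[([(0,13,[(12,14),(5,5)])],[1]),([(0,1,[(4,5)])],[2])],[4,4],false,1,0,[]),
    (true,[([(0,8,[(12,14),(6,7)])],[])],[4,4,4,3],false,2,2,[3]),
    (true,[([(0,8,[(12,14),(6,7)])],[]),([(0,3,[(3,3)])],[2,2])],[4,4],false,1,0,[]),
    (false,[([(0,18,[(12,14),(8,8)])],[4,4,3,3])],[],false,1,0,[]),
    (true,[([(0,14,[(15,17)])],[])],[6,4,4,3,2],false,4,2,[5]),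
    (false,[([(0,18,[(15,17),(5,5)])],[4,4,3,3])],[],false,1,0,[]),
    (true,[([(0,13,[(18,19)])],[1])],[4,4,4,3,1],false,2,1,[])]),
  ([10,9,8,7,2,1], [
    (false,[],[10,9,8,7,2,1],false,4,9,[5,6,8,11,14,17,19]),
    (true,[([(0,4,[(5,5)])],[2])],[6,5,4,4,4,4,3],false,3,7,[4,5]),
    (true,[([(0,4,[(5,5)])],[2]),([(0,12,[(4,4)])],[2,2])],[6,5,4,4,3],false,4,3,[]),
    (true,[([(0,2,[(5,5),(5,5)])],[])],[6,5,4,4,4,4],false,3,5,[4,5]),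
    (true,[([(0,2,[(5,5),(5,5)])],[]),([(0,12,[(4,4)])],[2,2])],[6,5,4,4],false,3,5,[4]),
    (true,[([(0,1,[(5,5)]),(0,1,[(5,5)])],[]),([(0,12,[(4,4)]),(0,12,[(4,4)])],[])],[5,4,4,3,1],false,4,1,[]),
    (true,[([(0,5,[(5,5),(5,5),(5,5)])],[])],[6,4,4,4,4],false,2,6,[3,4,5]),
    (false,[([(1,3,[(5,5),(5,5),(5,5),(3,3)])],[4,4,4,4])],[],false,1,0,[2,3]),
    (false,[([(1,3,[(5,5),(5,5),(5,5),(3,3),(2,2)])],[4,4,4,4])],[],false,1,0,[2]),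
    (true,[([(2,0,[(5,5),(5,5),(5,5),(3,3),(2,2),(2,2)])],[])],[4,4,4],false,1,0,[2]),
    (true,[([(2,1,[(5,5),(5,5),(5,5),(3,3),(2,2),(2,2),(2,2)])],[])],[4,4,4],false,1,0,[2]),
    (true,[([(2,2,[(5,5),(5,5),(5,5),(3,3),(2,2),(2,2),(2,2),(2,2)])],[])],[4,4],false,1,0,[]),
    (true,[([(0,5,[(5,5),(5,5),(5,5)])],[]),([(0,3,[(3,3)]),(0,3,[(3,3)])],[2,2])],[4,4,4],false,1,0,[2,3]),
    (true,[([(2,3,[(5,5),(5,5),(5,5),(3,3),(3,3),(2,2)])],[])],[4,4,4],false,1,0,[2]),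
    (true,[([(2,4,[(5,5),(5,5),(5,5),(3,3),(3,3),(2,2),(2,2)])],[])],[4,4,4],false,1,0,[]),
    (true,[([(2,5,[(5,5),(5,5),(5,5),(3,3),(3,3),(3,3)])],[])],[4,4,4],false,1,0,[]),
    (true,[([(0,5,[(5,5),(5,5),(5,5)])],[]),([(0,12,[(4,4)])],[2,2])],[6,4,4],false,2,3,[4]),
    (true,[([(0,5,[(5,5),(5,5),(3,4)])],[]),([(0,4,[(5,5)])],[3,3,3]),([(0,12,[(4,4)])],[2,2])],[],false,1,0,[2]),
    (true,[([(0,2,[(5,5),(5,5)])],[3]),([(0,1,[(5,5)]),(0,1,[(3,4),(2,2)])],[]),([(0,12,[(4,4)])],[2,2])],[4],false,1,0,[]),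
    (true,[([(0,5,[(5,5),(5,5),(5,5)])],[]),([(0,4,[(5,5)])],[3,3,3])],[4,4],false,1,0,[2,3]),
    (true,[([(2,6,[(5,5),(5,5),(5,5),(5,5),(2,2)])],[])],[4,4,4],false,1,0,[2]),
    (true,[([(2,7,[(5,5),(5,5),(5,5),(5,5),(2,2),(2,2)])],[])],[4,4,4],false,1,0,[]),
    (true,[([(2,8,[(5,5),(5,5),(5,5),(5,5),(3,3)])],[])],[4,4,4],false,1,0,[]),
    (false,[([(0,1,[(6,6)])],[1,1,1,1])],[10,9,8],false,3,8,[5,6]),
    (true,[([(0,11,[(6,6),(4,5)])],[3])],[6,4,4,4,3,2],false,3,5,[4,5]),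
    (true,[([(0,11,[(6,6),(4,5)])],[3]),([(0,12,[(4,4)])],[2,2])],[6,4,3,2],false,4,2,[]),
    (true,[([(0,11,[(6,6),(4,5)])],[3]),([(0,1,[(5,5)])],[3])],[6,4,4],false,2,6,[3,4,5]),
    (true,[([(0,5,[(6,6),(4,5),(3,3)])],[]),([(0,4,[(5,5)])],[3,3,3])],[4,4],false,1,0,[2,3]),
    (true,[([(0,11,[(6,6),(4,5)])],[3]),([(0,1,[(5,5)]),(0,1,[(3,3),(2,2)])],[])],[4,4,3],false,2,3,[]),
    (true,[([(0,11,[(6,6),(4,5)])],[3]),([(0,1,[(5,5)]),(0,1,[(3,3),(3,3)])],[])],[4,4,3],false,2,2,[3]),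
    (true,[([(0,11,[(6,6),(4,5)])],[3]),([(0,1,[(5,5)]),(0,1,[(3,3),(3,3)])],[]),([(0,3,[(3,3)])],[2,2])],[4],false,1,0,[]),
    (true,[([(0,11,[(6,6),(4,5)])],[3]),([(0,4,[(5,5)]),(0,12,[(4,4)])],[3])],[4,4,3],false,2,3,[4]),
    (true,[([(0,5,[(6,6),(4,5),(3,4)])],[]),([(0,4,[(5,5)])],[3,3,3]),([(0,12,[(4,4)])],[2,2])],[],false,1,0,[2]),
    (true,[([(0,11,[(6,6),(4,5)])],[3]),([(0,4,[(5,5)]),(0,1,[(3,4),(2,2)])],[]),([(0,12,[(4,4)])],[2,2])],[4],false,1,0,[]),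
    (false,[([(0,11,[(6,6),(4,5)]),(0,2,[(5,5),(5,5)])],[3,3])],[9,1],true,2,2,[3]),
    (false,[([(0,11,[(6,6),(4,5)]),(0,2,[(5,5),(5,5)])],[3,3]),([(0,3,[(3,3)])],[1,1,1,1,1,1,1])],[],false,1,0,[]),
    (true,[([(0,1,[(6,6)]),(0,1,[(6,6)])],[])],[5,4,4,4,4,3,1],false,3,4,[5,6]),
    (true,[([(0,11,[(6,6),(4,5)])],[3]),([(0,1,[(6,6)])],[3])],[6,4,4],false,2,5,[4,5]),
    (false,[([(0,8,[(6,6),(6,6),(4,5),(3,4)])],[4,4,4,4])],[],false,1,0,[2,3,4]),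
    (true,[([(0,11,[(6,6),(4,5)])],[3]),([(0,1,[(6,6)]),(0,1,[(3,4),(2,2)])],[])],[4,4,3],false,2,2,[]),
    (false,[([(0,11,[(6,6),(4,5)]),(0,2,[(6,6),(3,4)])],[3,3]),([(0,3,[(3,3)])],[1,1,1,1,1,1,1])],[],false,1,0,[2]),
    (true,[([(0,11,[(6,6),(4,5)])],[3]),([(0,1,[(6,6)]),(0,1,[(3,4),(2,2)])],[]),([(0,3,[(3,3)])],[2,2])],[4],false,1,0,[]),
    (true,[([(0,8,[(6,6),(6,6),(4,5),(3,4)])],[]),([(0,12,[(4,4)])],[2,2])],[4,4],false,1,0,[]),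
    (false,[([(0,11,[(6,6),(4,5)]),(0,11,[(6,6),(5,5)])],[3,2])],[9,1],false,2,1,[]),
    (true,[([(0,1,[(6,6)]),(0,1,[(6,6)])],[]),([(0,1,[(6,6)])],[2])],[5,4,4,4],false,2,3,[3,4]),
    (false,[([(0,8,[(6,6),(6,6),(6,6),(3,3)])],[4,4,4,4])],[],false,1,0,[2]),
    (false,[([(0,5,[(6,6),(6,6),(3,3)]),(0,0,[(6,6),(2,2)])],[3,3])],[8],false,1,0,[]),
    (true,[([(0,8,[(6,6),(6,6),(6,6)])],[]),([(0,12,[(4,4)])],[2,2])],[4,4],false,1,0,[]),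
    (true,[([(0,0,[(7,8)])],[2])],[6,5,4,4,4,3,1],false,4,4,[6,8]),
    (true,[([(0,0,[(7,8)]),(0,1,[(5,6)])],[])],[4,4,4,4,4,2,1],true,3,6,[4,6]),
    (true,[([(0,0,[(7,8)]),(0,1,[(5,6)])],[]),([(0,12,[(4,4)])],[2,2])],[4,4,4,2,1],true,3,4,[4]),
    (true,[([(0,0,[(7,8)]),(0,1,[(5,6)])],[]),([(0,12,[(4,4)]),(0,12,[(4,4)])],[])],[4,4,4,2,1],false,3,1,[]),
    (true,[([(0,0,[(7,8)])],[3]),([(0,1,[(5,6)]),(0,1,[(5,6)])],[])],[5,4,4,1],false,2,4,[3,4,5]),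
    (true,[([(0,11,[(7,8),(3,3)])],[3]),([(0,1,[(5,6)]),(0,1,[(5,6)])],[])],[4,4,3],false,2,2,[3]),
    (true,[([(0,11,[(7,8),(3,3)])],[3]),([(0,1,[(5,6)]),(0,1,[(5,6)])],[]),([(0,3,[(3,3)])],[2,2])],[4],false,1,0,[]),
    (true,[([(0,0,[(7,8)])],[3]),([(0,1,[(5,6)]),(0,1,[(5,6)])],[]),([(0,12,[(4,4)])],[2,2])],[5,1],false,2,1,[]),
    (true,[([(0,0,[(7,8)])],[3]),([(0,1,[(5,6)]),(0,1,[(5,6)])],[]),([(0,1,[(5,5)])],[2,2])],[4],false,1,0,[]),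
    (true,[([(0,0,[(7,8)])],[2]),([(0,0,[(7,8)])],[3])],[6,5,4,1],false,3,5,[6,7]),
    (true,[([(0,0,[(7,8)]),(0,1,[(4,6)])],[]),([(0,0,[(7,8)])],[2])],[4,4,4,1],true,2,3,[3,4]),
    (true,[([(0,11,[(7,8),(3,3)])],[3]),([(0,0,[(7,8)])],[2]),([(0,1,[(4,6)])],[3,3,1])],[],false,1,0,[2]),
    (true,[([(0,11,[(7,8),(3,3)])],[3]),([(0,0,[(7,8)])],[3]),([(0,1,[(4,6)]),(0,3,[(2,2)])],[3])],[],false,1,0,[]),
    (true,[([(0,0,[(7,8)])],[2]),([(0,0,[(7,8)])],[3]),([(0,2,[(4,6),(4,4)])],[3,3])],[],false,1,0,[]),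
    (false,[([(0,5,[(7,8),(7,7)]),(0,0,[(7,8)])],[3,3])],[8],false,1,0,[]),
    (true,[([(0,11,[(9,11)])],[3])],[6,4,4,4,3,2],false,3,5,[4,6,8,11]),
    (true,[([(0,11,[(9,11)])],[3]),([(0,12,[(4,4)])],[2,2])],[6,4,3,2],false,4,2,[]),
    (true,[([(0,11,[(9,11)])],[3]),([(0,1,[(5,6)])],[3])],[6,4,4],false,2,6,[3,4,6]),
    (false,[([(0,11,[(9,11)]),(0,2,[(5,6),(3,3)])],[3,3])],[9,1],false,1,0,[2,3]),
    (true,[([(0,11,[(9,11)])],[3]),([(0,1,[(5,6)]),(0,1,[(3,3),(2,2)])],[])],[4,4,3],false,2,3,[]),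
    (true,[([(0,11,[(9,11)])],[3]),([(0,1,[(5,6)]),(0,1,[(3,3),(3,3)])],[])],[4,4,3],false,2,2,[3]),
    (true,[([(0,11,[(9,11)])],[3]),([(0,1,[(5,6)]),(0,1,[(3,3),(3,3)])],[]),([(0,3,[(3,3)])],[2,2])],[4],false,1,0,[]),
    (true,[([(0,11,[(9,11)])],[4]),([(0,1,[(5,6)]),(0,12,[(4,4)])],[1])],[4,4,3],false,2,3,[4]),
    (true,[([(0,11,[(9,11)])],[3]),([(0,2,[(5,6),(3,4)])],[4,1]),([(0,12,[(4,4)])],[2,2])],[],false,1,0,[2]),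
    (true,[([(0,11,[(9,11)])],[2]),([(0,1,[(5,6)]),(0,1,[(3,4),(2,2)])],[]),([(0,12,[(4,4)])],[2,2])],[4],false,1,0,[]),
    (true,[([(0,11,[(9,11)])],[3]),([(0,1,[(5,6)]),(0,1,[(5,6)])],[])],[4,4,3],false,2,2,[3]),
    (true,[([(0,11,[(9,11)])],[3]),([(0,1,[(5,6)]),(0,1,[(5,6)])],[]),([(0,3,[(3,3)])],[2,2])],[4],false,1,0,[]),
    (true,[([(0,11,[(9,11)])],[3]),([(0,0,[(7,8)])],[2])],[6,4,3],false,3,3,[5]),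
    (true,[([(0,11,[(9,11)])],[3]),([(0,0,[(7,8)]),(0,4,[(4,5)])],[])],[4,4,2],false,2,1,[]),
    (false,[([(0,11,[(9,11)]),(0,11,[(9,11)])],[3,2])],[9,1],true,2,2,[3]),
    (false,[([(0,11,[(9,11)]),(0,11,[(9,11)])],[3,2]),([(0,3,[(3,3)])],[1,1,1,1,1,1,1])],[],false,1,0,[]),
    (true,[([(0,5,[(12,14)])],[4])],[4,4,4,4,2],true,2,7,[3,4,5,6,8]),
    (true,[([(0,14,[(12,14),(3,3)])],[])],[6,4,4,4,2],false,3,2,[]),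
    (true,[([(0,5,[(12,14)])],[]),([(0,12,[(4,4)])],[2,2])],[6,4,4],false,2,4,[3,4]),
    (true,[([(0,14,[(12,14),(3,3)])],[]),([(0,12,[(4,4)])],[2,2])],[6,4,2],false,3,2,[]),
    (true,[([(0,18,[(12,14),(4,4),(4,4)])],[])],[4,4,4,3],false,2,1,[]),
    (true,[([(0,13,[(12,14),(5,5)])],[1])],[4,4,4,4,1],true,2,3,[3,4]),
    (true,[([(0,18,[(12,14),(5,5),(3,3)])],[])],[4,4,4,3],false,2,1,[]),
    (true,[([(0,13,[(12,14),(5,5)])],[1]),([(0,12,[(4,4)])],[2,2])],[4,4,1],false,1,0,[]),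
    (false,[([(0,8,[(12,14),(6,6)])],[4,4,4,4])],[],false,1,0,[2,3]),
    (true,[([(0,18,[(12,14),(6,6),(2,2)])],[])],[4,4,4,3],false,2,1,[]),
    (true,[([(0,14,[(12,14),(3,3)])],[]),([(0,1,[(6,6)])],[3,2,1])],[4,4],false,1,0,[]),
    (true,[([(0,18,[(12,14),(7,8)])],[])],[4,4,4,3],false,2,1,[]),
    (true,[([(0,14,[(15,17)])],[])],[6,4,4,4,2],false,3,2,[5]),
    (true,[([(0,18,[(15,17),(4,5)])],[])],[4,4,4,3],false,2,1,[]),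
    (true,[([(0,13,[(18,19)])],[1])],[4,4,4,4,1],false,2,1,[])]),
  ([10,9,8,7,3,1], [
    (false,[],[10,9,8,7,3,1],false,5,4,[6,8,11,14,17,19]),
    (true,[([(0,1,[(6,6)])],[2,2])],[6,5,4,4,4,3,2],false,4,5,[6]),
    (true,[([(0,1,[(6,6)]),(0,1,[(5,6)])],[])],[5,5,4,4,4,3,1],false,3,4,[6]),
    (true,[([(0,1,[(6,6)]),(0,1,[(5,6)])],[]),([(0,1,[(4,6)])],[2,2])],[5,4,4,3],false,3,3,[5,6]),
    (true,[([(0,11,[(6,6),(4,5)])],[3]),([(0,1,[(5,6)]),(0,1,[(4,6)])],[])],[5,4,3],false,3,3,[4]),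
    (true,[([(0,11,[(6,6),(4,5)])],[2]),([(0,1,[(5,6)]),(0,1,[(4,6)])],[]),([(0,12,[(4,4)])],[2,2])],[5],false,1,0,[]),
    (false,[([(0,1,[(6,6)]),(0,1,[(5,6)]),(0,1,[(4,6)])],[2]),([(0,1,[(6,6)])],[2,2,2,2,2,2])],[],false,1,0,[2]),
    (true,[([(0,0,[(6,6),(2,2)])],[3]),([(0,1,[(5,6)]),(0,1,[(4,6)])],[]),([(0,1,[(6,6)])],[2,2])],[5],false,1,0,[]),
    (true,[([(0,0,[(7,8)])],[2])],[6,5,5,4,4,3,1],false,4,4,[6,8]),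
    (true,[([(0,0,[(7,8)])],[2]),([(0,1,[(5,6)])],[2,2])],[6,5,4,3],false,4,3,[6]),
    (true,[([(0,0,[(7,8)])],[3]),([(0,1,[(5,6)]),(0,1,[(5,6)])],[])],[5,5,4,1],true,3,2,[4,5]),
    (true,[([(0,0,[(7,8)]),(0,1,[(5,6)])],[]),([(0,1,[(5,6)]),(0,12,[(4,4)])],[])],[4,4,4,2],false,2,1,[]),
    (true,[([(0,0,[(7,8)])],[3]),([(0,1,[(5,6)]),(0,1,[(5,6)])],[]),([(0,1,[(5,5)])],[2,2])],[5],false,1,0,[]),
    (true,[([(0,0,[(7,8)])],[2]),([(0,0,[(7,8)])],[3,3])],[6,4,3,1],true,4,2,[7]),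
    (true,[([(0,5,[(7,8),(5,7)])],[3]),([(0,0,[(7,8)])],[3])],[5,4],false,2,2,[3]),
    (false,[([(0,5,[(7,8),(5,7)]),(0,11,[(7,8),(3,3)])],[3])],[9],false,1,0,[]),
    (true,[([(0,11,[(9,11)])],[3])],[6,5,4,4,3,2],false,5,2,[6,8,11]),
    (true,[([(0,14,[(9,11),(6,6)])],[])],[6,5,4,4,2],false,4,2,[6]),
    (true,[([(0,14,[(9,11),(6,6)])],[]),([(0,1,[(5,6)])],[3,2])],[6,4],false,2,1,[]),
    (true,[([(0,11,[(9,11)])],[2]),([(0,0,[(7,8)])],[2])],[6,5,4],false,3,4,[5]),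
    (true,[([(0,11,[(9,11)])],[3]),([(0,0,[(7,8)]),(0,4,[(4,5)])],[])],[5,4,2],false,2,1,[]),
    (false,[([(0,11,[(9,11)]),(0,11,[(9,11)])],[4,2])],[9,1],true,2,2,[3]),
    (false,[([(0,5,[(9,11),(3,3)]),(0,11,[(9,11)])],[3])],[9],false,1,0,[]),
    (true,[([(0,5,[(12,14)])],[])],[6,5,4,4,4],false,3,5,[5,7,8]),
    (true,[([(0,5,[(12,14)])],[]),([(0,4,[(4,5)])],[3,3,3])],[5,4],false,2,4,[3,4,5]),
    (true,[([(0,14,[(12,14),(3,3)])],[]),([(0,4,[(4,5)])],[3,2,2])],[5,4],false,2,2,[3]),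
    (true,[([(0,14,[(12,14),(3,3)])],[]),([(0,4,[(4,5)])],[3,2,2]),([(0,3,[(3,3)])],[2,2,2])],[],false,1,0,[]),
    (true,[([(0,5,[(12,14)])],[]),([(0,4,[(4,5)])],[3,3,3]),([(0,12,[(4,4)])],[2,2,1])],[],false,1,0,[2]),
    (true,[([(0,8,[(12,14),(4,5),(2,2)])],[]),([(0,12,[(4,4)])],[2,2])],[5,4],false,1,0,[]),
    (true,[([(0,13,[(12,14),(5,5)])],[]),([(0,4,[(4,5)])],[2,2,2])],[4,4],false,1,0,[]),
    (true,[([(0,8,[(12,14),(6,7)])],[])],[5,4,4,4],false,2,2,[3]),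
    (true,[([(0,8,[(12,14),(6,7)])],[]),([(0,3,[(3,3)])],[2,2,2])],[4,4],false,1,0,[]),
    (false,[([(0,18,[(12,14),(8,8)])],[5,4,4,3])],[],false,1,0,[]),
    (true,[([(0,14,[(15,17)])],[])],[6,5,4,4,2],false,4,2,[5]),
    (false,[([(0,18,[(15,17),(5,5)])],[5,4,4,3])],[],false,1,0,[]),
    (true,[([(0,13,[(18,19)])],[])],[6,4,4,4,1],false,2,1,[])])]

theorem cj6e_6_ok : runAllJ S40 R40 F40 18 cj6e_6 = true := by decide +kernel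

noncomputable def cj6e_7 : List (List ℕ × List NdJ) := [
  ([10,9,9,4,3,2,1], [
    (false,[],[10,9,9,4,3,2,1],true,5,5,[7,10,14,18,19]),
    (false,[([(0,19,[(6,7)])],[3,2,1,1,1])],[10,9,4],false,1,0,[3,5,7]),
    (true,[([(0,2,[(6,7),(2,3)])],[3])],[7,6,3,3,3,3],false,3,6,[]),
    (false,[([(0,19,[(6,7)]),(0,4,[(4,5)])],[2,1])],[10,9,4],false,2,10,[3,4,5]),
    (true,[([(0,2,[(6,7),(3,3)]),(0,4,[(4,5)])],[])],[6,5,3,3,3,3],false,3,5,[]),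
    (true,[([(0,11,[(6,7),(4,4)])],[]),([(0,4,[(4,5)])],[3,3])],[7,6,3],false,3,3,[4]),
    (true,[([(0,11,[(6,7),(4,4)])],[]),([(0,4,[(4,5)]),(0,4,[(4,4)])],[3])],[6,5,3],false,3,3,[4]),
    (true,[([(0,11,[(6,7),(4,4)]),(0,12,[(4,4)])],[]),([(0,4,[(4,5)]),(0,4,[(4,4)])],[3])],[4,3,3],false,2,1,[]),
    (true,[([(0,19,[(6,7)])],[3,3]),([(0,4,[(4,5)]),(0,4,[(5,5)])],[3])],[5,4,3],false,3,3,[5]),
    (true,[([(0,19,[(6,7)])],[4,4]),([(0,2,[(4,5),(5,5)]),(0,4,[(4,5)])],[])],[5,3],false,2,3,[3,4]),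
    (true,[([(0,5,[(6,7),(4,5),(3,3)])],[4]),([(0,4,[(5,5)]),(0,4,[(4,5)])],[3])],[3,3],false,1,0,[2]),
    (true,[([(0,17,[(6,7),(5,5),(2,2)])],[4]),([(0,4,[(4,5)]),(0,4,[(4,5)])],[3]),([(0,3,[(3,3)])],[2,2])],[],false,1,0,[]),
    (false,[([(0,19,[(6,7)]),(0,2,[(4,5),(5,5)])],[1]),([(0,1,[(4,5)]),(0,12,[(4,4)])],[2,2,2,2,2])],[],false,1,0,[]),
    (true,[([(0,17,[(6,7),(6,7)])],[4])],[7,4,3,3,3],false,3,4,[5,6,7]),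
    (false,[([(0,25,[(6,7),(4,5)]),(0,19,[(6,7)])],[])],[10,9],false,2,5,[3,5]),
    (true,[([(0,2,[(6,7),(3,3)]),(0,4,[(4,5)])],[]),([(0,19,[(6,7)])],[4,4])],[5,3],false,2,3,[3]),
    (true,[([(0,17,[(6,7),(6,7)])],[4]),([(0,4,[(4,5)]),(0,1,[(3,3),(3,3)])],[3])],[3,3],false,1,0,[2]),
    (true,[([(0,17,[(6,7),(6,7)])],[4]),([(0,4,[(4,5)]),(0,4,[(3,3),(2,2)])],[3]),([(0,3,[(3,3)])],[2,2])],[],false,1,0,[]),
    (true,[([(0,17,[(6,7),(6,7)])],[4]),([(0,4,[(4,5)]),(0,4,[(4,5)])],[3])],[4,3],false,2,2,[3]),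
    (true,[([(0,17,[(6,7),(6,7)])],[4]),([(0,4,[(4,5)]),(0,4,[(4,5)])],[3]),([(0,3,[(3,3)])],[2,2])],[],false,1,0,[]),
    (false,[([(0,8,[(6,7),(6,7),(6,6)])],[2,2,2,2])],[9],false,1,0,[3,4]),
    (true,[([(0,2,[(6,7),(2,3)]),(0,1,[(6,6)])],[]),([(0,19,[(6,7)])],[4,4])],[4,3],false,2,2,[3]),
    (true,[([(0,2,[(6,7),(2,3)]),(0,1,[(6,6)])],[]),([(0,19,[(6,7)])],[4,4]),([(0,3,[(3,3)])],[2,2])],[],false,1,0,[]),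
    (false,[([(0,8,[(6,7),(6,7),(6,6)]),(0,12,[(4,4)])],[2,2])],[9],false,1,0,[]),
    (false,[([(0,17,[(6,7),(6,7)]),(0,0,[(7,7)])],[2,2])],[9,3],false,2,2,[3]),
    (true,[([(0,17,[(6,7),(6,7)])],[4]),([(0,27,[(7,7),(3,3)])],[5,5])],[],false,1,0,[]),
    (true,[([(0,2,[(8,10)])],[3])],[7,6,3,3,3,3],false,3,6,[4,6,8,9,10]),
    (true,[([(0,17,[(8,10),(4,4)])],[4])],[7,4,3,3,3],false,3,4,[4]),
    (true,[([(0,17,[(8,10),(4,4)])],[4]),([(0,12,[(4,4)])],[2])],[7,4,3],false,3,3,[4]),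
    (false,[([(0,2,[(8,10)]),(0,12,[(4,4)]),(0,12,[(4,4)]),(0,12,[(4,4)])],[])],[9,4,3],false,3,2,[]),
    (true,[([(0,2,[(8,10)]),(0,1,[(5,6)])],[])],[6,4,3,3,3,3],false,3,4,[4,5,6]),
    (true,[([(0,2,[(8,10)]),(0,1,[(5,6)])],[]),([(0,12,[(4,4)])],[2])],[6,4,3,3],false,3,4,[4]),
    (true,[([(0,2,[(8,10)]),(0,1,[(5,6)])],[]),([(0,12,[(4,4)])],[2]),([(0,12,[(4,4)])],[2])],[6,4],false,2,1,[]),
    (true,[([(0,2,[(8,10)]),(0,1,[(5,6)])],[]),([(0,4,[(5,5)])],[3,3,1])],[4,3,3],false,2,3,[3,4]),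
    (true,[([(0,27,[(8,10)])],[5,5]),([(0,17,[(5,6),(5,5),(3,3)])],[4])],[],false,1,0,[2]),
    (true,[([(0,2,[(8,10)]),(0,1,[(5,6)])],[]),([(0,19,[(5,5),(2,2)])],[4,4]),([(0,3,[(3,3)])],[2,2])],[],false,1,0,[]),
    (false,[([(0,8,[(8,10),(5,6),(5,5)]),(0,12,[(4,4)])],[2,2])],[9],false,1,0,[]),
    (true,[([(0,2,[(8,10)]),(0,1,[(5,6)])],[]),([(0,19,[(6,6)])],[4,4])],[4,3],false,2,2,[3]),
    (true,[([(0,2,[(8,10)]),(0,1,[(5,6)])],[]),([(0,19,[(6,6)])],[4,4]),([(0,3,[(3,3)])],[2,2])],[],false,1,0,[]),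
    (false,[([(0,2,[(8,10)]),(0,0,[(7,8)])],[2,2,2])],[9,3,2],false,3,2,[6]),
    (true,[([(0,27,[(8,10)])],[5,5]),([(0,0,[(7,8)]),(0,1,[(4,6)])],[])],[3,1],true,2,2,[3]),
    (true,[([(0,27,[(8,10)])],[5,5]),([(0,0,[(7,8)]),(0,1,[(4,6)])],[]),([(0,3,[(3,3)])],[1])],[],false,1,0,[]),
    (true,[([(0,2,[(8,10)])],[3]),([(0,6,[(9,9)])],[])],[7,6,3],false,3,3,[4]),
    (false,[([(0,7,[(8,10),(9,9)]),(0,12,[(4,4)])],[4,2])],[9],false,1,0,[]),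
    (false,[([(0,8,[(8,10),(10,10)])],[2,2,2,2])],[9],false,1,0,[3]),
    (true,[([(0,27,[(8,10)])],[5,5]),([(0,17,[(10,10),(2,3)])],[4])],[],false,1,0,[2]),
    (false,[([(0,2,[(8,10)]),(0,10,[(10,10),(2,2)])],[2,2]),([(0,3,[(2,3)])],[])],[9],false,1,0,[]),
    (true,[([(0,17,[(11,14)])],[4])],[7,4,3,3,3],false,3,4,[4,5,6,8,9]),
    (true,[([(0,17,[(11,14)])],[4]),([(0,12,[(4,4)])],[2])],[7,4,3],false,3,3,[4]),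
    (false,[([(0,17,[(11,14)]),(0,12,[(4,4)]),(0,12,[(4,4)])],[3])],[9,4],false,2,2,[3]),
    (false,[([(0,8,[(11,14),(4,4),(3,3)]),(0,12,[(4,4)])],[2,2])],[9],false,1,0,[]),
    (true,[([(0,7,[(11,14),(5,5)])],[5])],[5,3,3,3],false,2,4,[3,5]),
    (true,[([(0,7,[(11,14),(5,5)])],[5]),([(0,3,[(3,3)])],[2,2,1])],[3,3],false,1,0,[3]),
    (true,[([(0,7,[(11,14),(5,5)])],[5]),([(0,3,[(3,3)]),(0,3,[(2,3)])],[2])],[3,3],false,1,0,[2]),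
    (true,[([(0,17,[(11,14)])],[4]),([(0,4,[(5,5)]),(0,4,[(3,3),(2,2)])],[3]),([(0,3,[(2,3)])],[2,2])],[],false,1,0,[]),
    (true,[([(0,17,[(11,14)])],[4]),([(0,4,[(5,5)]),(0,4,[(4,5)])],[3])],[4,3],false,2,1,[]),
    (false,[([(0,8,[(11,14),(6,6)])],[2,2,2,2])],[9],false,1,0,[2,3,4]),
    (false,[([(0,17,[(11,14)]),(0,0,[(6,6),(2,2)])],[2,2])],[9,3],false,2,2,[]),
    (true,[([(0,17,[(11,14)])],[4]),([(0,27,[(6,6),(3,3)])],[5,5])],[],false,1,0,[2]),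
    (false,[([(0,17,[(11,14)]),(0,0,[(6,6),(2,2)])],[2,2]),([(0,3,[(3,3)])],[2,2,1,1,1,1,1])],[],false,1,0,[]),
    (false,[([(0,8,[(11,14),(6,6)]),(0,12,[(4,4)])],[2,2])],[9],false,1,0,[]),
    (false,[([(0,17,[(11,14)]),(0,0,[(7,8)])],[2,2])],[9,3],false,2,2,[3]),
    (false,[([(0,17,[(11,14)]),(0,0,[(7,8)])],[2,2]),([(0,3,[(3,3)])],[2,2,1,1,1,1,1])],[],false,1,0,[]),
    (true,[([(0,17,[(11,14)])],[4]),([(0,6,[(9,9)])],[])],[7,4],false,1,0,[]),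
    (true,[([(0,21,[(15,18)])],[5])],[5,4,3,3],false,3,4,[4,5]),
    (true,[([(0,21,[(15,18)])],[5]),([(0,12,[(4,4)])],[2])],[5,4],false,2,1,[]),
    (true,[([(0,21,[(15,18)])],[5]),([(0,4,[(5,5)])],[3,3])],[4],false,1,0,[]),
    (false,[([(0,7,[(19,19)])],[4,2,2,2])],[9],false,1,0,[])]),
  ([11,6,5,5,4,3,2], [
    (false,[],[11,6,5,5,4,3,2],false,5,4,[8,11,15,19]),
    (true,[([(0,15,[(6,8)])],[])],[7,7,6,5,1,1,1],false,3,7,[5,7,8]),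
    (true,[([(0,15,[(6,8)]),(0,1,[(4,5)])],[])],[7,6,5,1,1,1,1],false,4,4,[5]),
    (false,[([(0,15,[(6,8)]),(0,2,[(4,5),(5,5)])],[1,1,1])],[6,5,4],false,3,4,[5]),
    (false,[([(0,15,[(6,8)]),(0,2,[(4,5),(5,5)]),(0,4,[(4,5)])],[])],[5,5,3],false,2,3,[3,4]),
    (true,[([(0,15,[(6,8)]),(0,3,[(3,3)])],[2]),([(0,5,[(4,5),(5,5),(4,5)])],[3,3])],[1,1],false,1,0,[2]),
    (false,[([(0,15,[(6,8)]),(0,2,[(4,5),(5,5)]),(0,4,[(4,5)])],[]),([(0,3,[(3,3)]),(0,3,[(2,2)])],[2])],[5],false,1,0,[]),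
    (true,[([(0,15,[(6,8)]),(0,12,[(4,4)])],[1]),([(0,5,[(4,5),(5,5),(4,5)])],[3,3])],[1,1],false,1,0,[]),
    (true,[([(0,5,[(6,8),(6,7)])],[3,1])],[7,6,1,1,1,1],false,3,4,[6,7]),
    (false,[([(0,15,[(6,8)]),(0,19,[(6,7)]),(0,1,[(4,6)])],[])],[6,5,4],false,3,4,[4,6]),
    (true,[([(0,15,[(6,8)])],[1,1]),([(0,11,[(6,7),(4,4)]),(0,1,[(4,6)])],[])],[7,1,1],false,2,2,[3]),
    (true,[([(0,5,[(6,8),(6,7)])],[3,2]),([(0,1,[(4,6)]),(0,12,[(4,4)]),(0,3,[(3,3)])],[])],[1,1,1],false,1,0,[]),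
    (false,[([(0,15,[(6,8)]),(0,19,[(6,7)]),(0,1,[(4,6)])],[]),([(0,1,[(5,6)])],[3,3,3])],[],false,1,0,[2]),
    (true,[([(0,15,[(6,8)]),(0,1,[(4,6)])],[]),([(0,19,[(6,7)])],[1,1]),([(0,1,[(5,6)]),(0,3,[(2,2)])],[2,2])],[],false,1,0,[]),
    (false,[([(0,5,[(6,8),(6,7)]),(0,19,[(7,7)])],[5,1])],[5,3],false,2,2,[3]),
    (false,[([(0,5,[(6,8),(6,7)]),(0,27,[(7,7),(3,3)])],[1])],[5,5],false,1,0,[]),
    (true,[([(0,26,[(6,8),(8,8)])],[3])],[7,6,1,1,1],false,3,3,[6,7]),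
    (false,[([(0,15,[(6,8)]),(0,15,[(8,8)]),(0,1,[(4,6)])],[])],[5,5,4],false,2,3,[3,4]),
    (true,[([(0,15,[(6,8)])],[1,1]),([(0,11,[(8,8),(3,3)]),(0,1,[(4,6)])],[])],[7,1,1],false,2,1,[]),
    (true,[([(0,26,[(6,8),(8,8)])],[3]),([(0,1,[(4,6)]),(0,12,[(4,4)])],[2,2])],[1,1],false,1,0,[]),
    (true,[([(0,26,[(6,8),(8,8)])],[3]),([(0,19,[(7,7)])],[1,1])],[7],false,1,0,[]),
    (true,[([(0,25,[(9,11)])],[2,1])],[7,6,5,1,1,1],false,4,3,[6,10,11]),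
    (true,[([(0,11,[(9,11)]),(0,1,[(5,6)])],[])],[7,6,2,1,1,1,1],false,4,2,[6]),
    (true,[([(0,11,[(9,11)]),(0,1,[(5,6)])],[]),([(0,1,[(5,6)])],[1,1,1])],[7,1,1,1],false,2,2,[3]),
    (true,[([(0,11,[(9,11)])],[3,3,2]),([(0,25,[(5,6),(5,6)]),(0,3,[(3,3)])],[])],[1,1],false,1,0,[]),
    (false,[([(0,11,[(9,11)]),(0,2,[(7,10)])],[1,1,1])],[5,4,3],false,3,3,[4,5]),
    (false,[([(0,11,[(9,11)]),(0,2,[(7,10)])],[1,1,1]),([(0,12,[(4,4)])],[2,1])],[5],false,1,0,[2]),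
    (false,[([(0,11,[(9,11)]),(0,2,[(7,10)])],[1,1,1]),([(0,1,[(4,4),(2,2)])],[3,3])],[],false,1,0,[]),
    (false,[([(0,11,[(9,11)]),(0,2,[(7,10)])],[1,1,1]),([(0,1,[(5,5)])],[3,3])],[],false,1,0,[]),
    (false,[([(0,18,[(9,11),(11,11)])],[6,1,1,1,1])],[4],false,1,0,[]),
    (true,[([(0,5,[(12,15)])],[3,1])],[7,6,1,1,1,1],false,3,4,[4,6,8]),
    (false,[([(0,5,[(12,15)]),(0,4,[(4,4)])],[5,1,1])],[5,4],false,2,4,[4]),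
    (true,[([(0,5,[(12,15)])],[3,2]),([(0,15,[(4,4),(3,4)])],[2,2,2])],[1,1],false,1,0,[3]),
    (true,[([(0,5,[(12,15)])],[3,3]),([(0,15,[(4,4),(3,4)]),(0,3,[(2,3)])],[2])],[1,1],false,1,0,[2]),
    (true,[([(0,5,[(12,15)])],[3,2]),([(0,12,[(4,4)]),(0,1,[(3,4),(2,2)]),(0,3,[(2,3)])],[])],[1,1,1],false,1,0,[]),
    (true,[([(0,8,[(12,15),(5,6)])],[4])],[7,1,1,1,1],false,2,3,[3,4]),
    (true,[([(0,8,[(12,15),(5,6)])],[4]),([(0,3,[(3,3)])],[1,1,1,1,1])],[1,1,1],false,1,0,[2]),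
    (true,[([(0,8,[(12,15),(5,6)])],[4]),([(0,4,[(3,3),(2,2)])],[1,1,1,1])],[1,1],false,1,0,[]),
    (true,[([(0,8,[(12,15),(5,6)])],[4]),([(0,4,[(4,4)])],[1,1,1,1])],[1,1],false,1,0,[]),
    (true,[([(0,5,[(12,15)])],[3,2]),([(0,15,[(7,8)])],[2,2,2])],[1,1],false,1,0,[2]),
    (false,[([(0,5,[(12,15)]),(0,27,[(7,8),(2,2)])],[1])],[5,5],false,1,0,[]),
    (false,[([(0,13,[(16,19)])],[])],[11,6],false,2,3,[3,4]),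
    (true,[([(0,18,[(16,19),(3,3)])],[3])],[7,1,1,1,1],false,2,1,[]),
    (false,[([(0,13,[(16,19)])],[]),([(0,12,[(4,4)])],[2,2,2,2,1,1,1,1,1])],[],false,1,0,[])]),
  ([11,7,6,3,2,2,2,2,1], [
    (false,[],[11,7,6,3,2,2,2,2,1],false,5,4,[8,12,17,19]),
    (true,[([(0,15,[(6,8)])],[])],[9,8,3,3,3,1,1],false,3,9,[6,8]),
    (true,[([(0,15,[(6,8)]),(0,1,[(4,6)])],[1])],[9,3,3,3,1,1,1],true,3,6,[5,6]),
    (true,[([(0,15,[(6,8)]),(0,1,[(4,6)])],[1]),([(0,4,[(4,5)])],[])],[9,3,3,1],true,3,4,[5]),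
    (true,[([(0,15,[(6,8)])],[1,1,1,1]),([(0,1,[(4,6)]),(0,4,[(4,5)]),(0,4,[(4,5)])],[])],[3,3,1,1],true,2,4,[3,5]),
    (true,[([(0,15,[(6,8)]),(0,3,[(3,3)])],[1,1]),([(0,1,[(4,6)]),(0,4,[(4,5)]),(0,4,[(4,5)])],[])],[3,2,1,1],false,3,2,[]),
    (true,[([(0,15,[(6,8)]),(0,1,[(4,6)])],[1]),([(0,4,[(4,5)]),(0,4,[(4,5)]),(0,4,[(4,5)])],[])],[3,1,1,1],false,2,1,[]),
    (false,[([(0,15,[(6,8)]),(0,1,[(4,6)]),(0,15,[(6,6)])],[])],[7,2,2,2,1],true,3,4,[5,6]),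
    (true,[([(0,30,[(6,8),(6,6)]),(0,4,[(4,5)])],[]),([(0,1,[(4,6)])],[])],[8,3],false,2,2,[3]),
    (true,[([(0,30,[(6,8),(6,6)]),(0,4,[(4,5)])],[]),([(0,1,[(4,6)]),(0,3,[(3,3)])],[1,1,1])],[3,2],false,1,0,[]),
    (true,[([(0,30,[(6,8),(6,6)])],[1,1]),([(0,1,[(4,6)]),(0,19,[(6,6)])],[3,1])],[3],false,1,0,[]),
    (false,[([(0,15,[(6,8)]),(0,15,[(7,8)])],[2,2,1])],[7,3,2,2,1],true,4,2,[6,8]),
    (false,[([(0,15,[(6,8)]),(0,15,[(7,8)]),(0,1,[(5,6)])],[])],[7,2,2,2,1],false,3,1,[4]),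
    (true,[([(0,15,[(6,8)]),(0,4,[(4,4)])],[1]),([(0,30,[(7,8),(5,6)])],[3,1,1])],[3],false,1,0,[]),
    (false,[([(0,15,[(6,8)]),(0,15,[(7,8)])],[2,2,1]),([(0,0,[(7,8)])],[1,1,1,1])],[2,1],false,2,1,[]),
    (true,[([(0,25,[(9,12)])],[1,1,1])],[9,4,3,3,1,1],false,3,6,[5,8,11]),
    (true,[([(0,25,[(9,12)]),(0,4,[(4,5)])],[])],[9,3,3,2,1,1],false,4,2,[5]),
    (false,[([(0,25,[(9,12)]),(0,27,[(4,5),(5,5)])],[2])],[7,2,2,1],false,3,1,[4]),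
    (false,[([(0,8,[(9,12),(5,5),(4,4)]),(0,4,[(4,5)])],[3,1])],[2,2,2],false,1,0,[]),
    (false,[([(0,25,[(9,12)]),(0,15,[(6,8)])],[2,1])],[7,2,2,2],false,2,5,[3,5,6]),
    (false,[([(0,25,[(9,12)]),(0,15,[(6,8)]),(0,3,[(3,3)])],[])],[7,2,2,2],false,2,3,[3]),
    (true,[([(0,5,[(9,12),(3,3)])],[1,1,1]),([(0,15,[(6,8)]),(0,3,[(3,3)])],[1,1,1])],[3,1],false,2,1,[]),
    (true,[([(0,25,[(9,12)]),(0,4,[(4,5)])],[]),([(0,15,[(6,8)])],[2,1,1,1,1])],[3,2],false,2,2,[3]),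
    (false,[([(0,25,[(9,12)]),(0,15,[(6,8)]),(0,3,[(3,3)])],[]),([(0,4,[(4,5)])],[3,1,1,1])],[2],false,1,0,[]),
    (false,[([(0,25,[(9,12)]),(0,15,[(6,8)])],[2,1]),([(0,19,[(6,6)])],[4,1,1])],[],false,1,0,[]),
    (false,[([(0,25,[(9,12)]),(0,11,[(9,11)])],[3,1])],[3,2,2,2],false,2,2,[3]),
    (false,[([(0,5,[(9,12),(3,3)]),(0,11,[(9,11)])],[1,1])],[2,2,2,2],false,1,0,[]),
    (true,[([(0,26,[(13,17)])],[1,1])],[9,3,3,1,1],true,3,5,[5,7]),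
    (true,[([(0,26,[(13,17)])],[1,1]),([(0,4,[(4,5)])],[])],[9,3],false,2,3,[3,4]),
    (true,[([(0,26,[(13,17)])],[1,1]),([(0,4,[(4,5)]),(0,3,[(3,3)])],[2,1,1,1])],[3,1],false,2,1,[]),
    (false,[([(0,8,[(13,17),(4,4)]),(0,4,[(4,5)])],[3,1])],[2,2,2],false,1,0,[]),
    (true,[([(0,26,[(13,17)])],[1,1]),([(0,19,[(6,7)])],[2,2,1,1,1])],[3],false,1,0,[2]),
    (true,[([(0,26,[(13,17)])],[1,1]),([(0,19,[(6,7)]),(0,3,[(2,2)])],[2,1,1])],[3],false,1,0,[]),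
    (false,[([(0,34,[(18,19)])],[7,3,3,1])],[2,1],false,2,1,[])]),
  ([11,7,6,3,3,3,2,1], [
    (false,[],[11,7,6,3,3,3,2,1],true,5,6,[8,12,17,19]),
    (true,[([(0,15,[(6,8)])],[1,1])],[8,7,3,3,3,1,1],false,3,8,[6,8]),
    (false,[([(0,15,[(6,8)]),(0,1,[(4,6)])],[2,2,1,1])],[7,3,3,3],false,1,0,[3,6]),
    (true,[([(0,15,[(6,8)]),(0,3,[(2,3)])],[]),([(0,1,[(4,6)])],[])],[8,7,3,1],false,3,4,[]),
    (false,[([(0,15,[(6,8)]),(0,1,[(4,6)]),(0,1,[(4,6)])],[1])],[7,3,3,2],true,3,3,[5,6]),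
    (false,[([(0,15,[(6,8)]),(0,1,[(4,6)]),(0,1,[(4,6)])],[1]),([(0,4,[(4,5)])],[3,2,1,1])],[3],false,1,0,[2,3,5]),
    (true,[([(0,2,[(6,8),(2,2)]),(0,1,[(4,6)])],[2]),([(0,1,[(4,6)]),(0,4,[(4,5)])],[1])],[3,1,1,1],false,2,3,[]),
    (false,[([(0,15,[(6,8)]),(0,1,[(4,6)]),(0,15,[(4,5),(3,3)])],[]),([(0,1,[(4,6)])],[2,1,1,1])],[3],false,1,0,[3]),
    (false,[([(0,15,[(6,8)]),(0,1,[(4,6)]),(0,15,[(4,5),(3,3)])],[]),([(0,1,[(4,6)]),(0,3,[(2,3)])],[1,1])],[3],false,1,0,[2]),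
    (true,[([(0,2,[(6,8),(2,2)]),(0,1,[(4,6)])],[2]),([(0,1,[(4,6)])],[]),([(0,15,[(4,5),(3,3)]),(0,3,[(2,3)])],[1])],[],false,1,0,[]),
    (true,[([(0,15,[(6,8)])],[2,1,1]),([(0,1,[(4,6)]),(0,2,[(4,5),(4,5)])],[2]),([(0,1,[(4,6)])],[])],[],false,1,0,[2]),
    (true,[([(0,15,[(6,8)]),(0,3,[(2,2)])],[1]),([(0,1,[(4,6)]),(0,2,[(4,5),(4,5)])],[2]),([(0,1,[(4,6)])],[])],[],false,1,0,[]),
    (true,[([(0,30,[(6,8),(6,6)])],[1]),([(0,1,[(4,6)]),(0,1,[(4,6)])],[3,2])],[3,1],true,2,2,[3]),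
    (true,[([(0,30,[(6,8),(6,6)])],[1]),([(0,1,[(4,6)]),(0,1,[(4,6)])],[3,2]),([(0,3,[(3,3)])],[1])],[],false,1,0,[]),
    (true,[([(0,15,[(6,8)]),(0,0,[(7,8)])],[2])],[7,3,3,2,1,1,1],false,4,2,[7,8]),
    (true,[([(0,15,[(6,8)])],[2,1]),([(0,5,[(7,8),(5,7)])],[2,2,2])],[3,1],false,1,0,[3,4]),
    (true,[([(0,15,[(6,8)]),(0,3,[(2,3)])],[]),([(0,5,[(7,8),(5,7)])],[2,2,2])],[3,1],true,2,2,[3]),
    (true,[([(0,15,[(6,8)]),(0,3,[(2,3)])],[1]),([(0,5,[(7,8),(5,7)]),(0,3,[(3,3)])],[2])],[3,1],false,1,0,[]),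
    (true,[([(0,15,[(6,8)])],[2,1]),([(0,5,[(7,8),(5,7)]),(0,12,[(4,4)])],[2])],[3,1],false,1,0,[]),
    (true,[([(0,33,[(6,8),(8,8)])],[]),([(0,15,[(7,8)])],[4,4,2,2])],[],false,1,0,[]),
    (true,[([(0,25,[(9,12)])],[1])],[8,7,3,3,1,1],false,3,7,[6,10,11]),
    (false,[([(0,25,[(9,12)])],[5,5,3,3,1,1]),([(0,1,[(4,6)])],[])],[],false,1,0,[3,4,6]),
    (true,[([(0,25,[(9,12)])],[1]),([(0,1,[(4,6)]),(0,3,[(2,3)])],[1,1])],[8,3,1],true,3,3,[]),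
    (true,[([(0,25,[(9,12)]),(0,12,[(4,4)])],[3]),([(0,1,[(4,6)])],[])],[7,3,1],true,3,3,[4]),
    (true,[([(0,25,[(9,12)]),(0,12,[(4,4)])],[3]),([(0,2,[(4,6),(4,4)])],[1,1,1])],[3,1],false,2,1,[]),
    (true,[([(0,25,[(9,12)])],[1,1]),([(0,1,[(4,6)]),(0,1,[(5,6)])],[3,2])],[3,1,1],false,1,0,[3,4]),
    (true,[([(0,25,[(9,12)])],[1,1]),([(0,1,[(4,6)]),(0,1,[(5,6)])],[3,2]),([(0,3,[(2,3)])],[1])],[1],false,1,0,[2,3]),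
    (true,[([(0,25,[(9,12)])],[1]),([(0,1,[(4,6)]),(0,3,[(2,3)])],[1,1]),([(0,1,[(5,6)]),(0,3,[(2,2)])],[1,1,1])],[],false,1,0,[2]),
    (true,[([(0,25,[(9,12)])],[1,1]),([(0,1,[(4,6)]),(0,2,[(5,6),(2,2),(2,2)])],[2]),([(0,3,[(2,3)])],[1])],[],false,1,0,[]),
    (true,[([(0,25,[(9,12)])],[1,1]),([(0,1,[(4,6)]),(0,2,[(5,6),(3,3)])],[2]),([(0,3,[(2,3)])],[1])],[],false,1,0,[]),
    (true,[([(0,25,[(9,12)])],[1,1]),([(0,2,[(4,6),(4,4)]),(0,1,[(5,6)])],[2])],[3,1],false,1,0,[]),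
    (true,[([(0,25,[(9,12)])],[1]),([(0,2,[(7,10)])],[3,2,2,2])],[3,1],false,1,0,[3,5]),
    (true,[([(0,25,[(9,12)])],[1,1]),([(0,2,[(7,10)]),(0,3,[(2,3)])],[3,2])],[3,1],false,1,0,[2,3]),
    (true,[([(0,25,[(9,12)])],[1,1]),([(0,2,[(7,10)]),(1,0,[(2,3),(2,2)])],[2])],[3,1],true,2,2,[]),
    (true,[([(0,25,[(9,12)])],[1,1]),([(0,2,[(7,10)]),(0,1,[(2,3),(3,3)])],[2])],[3,1],false,2,1,[]),
    (true,[([(0,25,[(9,12)])],[1,1]),([(0,2,[(7,10)]),(0,1,[(4,5)])],[2])],[3,1],false,2,1,[]),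
    (false,[([(0,25,[(9,12)]),(0,11,[(11,11)])],[3,1])],[3,3,3],false,1,0,[]),
    (true,[([(0,26,[(13,17)])],[2,2])],[7,3,3,1,1],true,3,4,[6,7]),
    (true,[([(0,26,[(13,17)])],[2,2]),([(0,1,[(4,6)])],[2,1,1,1])],[3,1],false,1,0,[3,4]),
    (true,[([(0,26,[(13,17)])],[2,2]),([(0,1,[(4,6)]),(0,3,[(2,3)])],[1,1])],[3,1],true,2,2,[3]),
    (true,[([(0,26,[(13,17)])],[2,2]),([(0,1,[(4,6)]),(0,3,[(2,3)])],[1,1]),([(0,3,[(3,3)])],[1])],[],false,1,0,[]),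
    (true,[([(0,26,[(13,17)]),(0,12,[(4,4)])],[]),([(0,1,[(4,6)])],[2,1,1,1])],[3,1],false,1,0,[]),
    (true,[([(0,26,[(13,17)])],[2,2]),([(0,19,[(7,7)])],[2,2,1])],[3],false,1,0,[]),
    (false,[([(0,13,[(18,19)])],[3,3,1,1,1,1])],[3,3,1],false,2,1,[])]),
  ([11,10,7,6,2,1], [
    (false,[],[11,10,7,6,2,1],true,5,4,[7,10,15,19]),
    (true,[([(0,19,[(6,7)])],[3])],[6,4,4,4,4,3,2],true,3,6,[5,7]),
    (true,[([(0,25,[(6,7),(4,5)])],[5])],[5,4,4,4,2,1],true,3,6,[5]),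
    (false,[([(0,25,[(6,7),(4,5)]),(0,4,[(4,5)])],[4,3,3])],[10],false,1,0,[3,4,5]),
    (true,[([(0,2,[(6,7),(2,3)])],[3]),([(0,4,[(4,5)]),(0,4,[(4,5)])],[])],[4,4,4,2],true,2,6,[3]),
    (true,[([(0,5,[(6,7),(4,5),(3,3)])],[]),([(0,1,[(4,5)]),(0,3,[(2,3)])],[3])],[4,4,2],true,2,4,[3]),
    (true,[([(0,5,[(6,7),(4,5),(3,3)])],[]),([(0,1,[(4,5)]),(0,1,[(2,3),(3,3)])],[])],[4,4,2],false,2,2,[3]),
    (true,[([(0,5,[(6,7),(4,5),(3,3)])],[]),([(0,1,[(4,5)]),(0,1,[(2,3),(3,3)])],[]),([(0,3,[(3,3)])],[2,1])],[4],false,1,0,[]),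
    (true,[([(0,11,[(6,7),(4,4)])],[4]),([(0,1,[(4,5)]),(0,1,[(4,5)])],[])],[4,3,2,1],false,4,1,[]),
    (true,[([(0,25,[(6,7),(4,5)])],[5]),([(0,2,[(4,5),(5,5)])],[2])],[4,4],false,1,0,[3,4]),
    (true,[([(0,5,[(6,7),(5,5),(2,3)])],[]),([(0,1,[(4,5)]),(0,1,[(4,5)])],[])],[4,4,2],false,2,2,[3]),
    (true,[([(0,5,[(6,7),(4,5),(3,3)])],[]),([(0,1,[(4,5)]),(0,1,[(5,5)])],[]),([(0,3,[(2,3)])],[2,1])],[4],false,1,0,[]),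
    (true,[([(0,8,[(6,7),(4,5),(5,5),(4,4)])],[]),([(0,4,[(4,5)])],[3])],[4,4],false,1,0,[]),
    (true,[([(0,17,[(6,7),(6,7)])],[])],[6,4,4,4,3,2],false,4,2,[6,7]),
    (true,[([(0,17,[(6,7),(6,7)])],[]),([(0,1,[(5,6)])],[3])],[6,4,4],false,2,4,[3,5]),
    (true,[([(0,17,[(6,7),(6,7)])],[]),([(0,1,[(5,6)]),(0,3,[(3,3)])],[3])],[4,4,3],false,2,2,[3]),
    (true,[([(0,17,[(6,7),(6,7)])],[]),([(0,1,[(5,6)]),(0,1,[(3,3),(3,3)])],[])],[4,4,3],false,1,0,[]),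
    (true,[([(0,17,[(6,7),(6,7)])],[]),([(0,1,[(5,6)]),(0,1,[(4,5)])],[])],[4,4,3],false,2,1,[]),
    (true,[([(0,17,[(6,7),(6,7)])],[]),([(0,0,[(7,7)])],[2])],[6,4,3],false,3,2,[]),
    (true,[([(0,2,[(8,10)])],[])],[6,5,4,4,4,2,2],false,4,4,[6,8,10]),
    (true,[([(0,2,[(8,10)])],[]),([(0,1,[(5,6)])],[3,2])],[6,4,4,2],false,2,7,[4,6]),
    (true,[([(0,2,[(8,10)])],[]),([(0,2,[(5,6),(3,4)])],[4,3])],[4,4,2],false,1,0,[2,3,4]),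
    (true,[([(0,2,[(8,10)]),(0,3,[(2,2)])],[]),([(0,2,[(5,6),(3,4)])],[4])],[4,4,2],true,2,4,[]),
    (true,[([(0,2,[(8,10)]),(0,3,[(3,3)])],[]),([(0,2,[(5,6),(3,4)])],[4])],[4,4,2],true,2,3,[3]),
    (true,[([(0,2,[(8,10)]),(0,3,[(3,3)])],[]),([(0,2,[(5,6),(3,4)])],[4]),([(0,3,[(3,3)])],[2,1])],[4],false,1,0,[2]),
    (true,[([(0,2,[(8,10)]),(0,3,[(3,3)])],[]),([(0,2,[(5,6),(3,4)])],[4]),([(0,3,[(3,3)]),(0,3,[(2,2)])],[])],[4],false,1,0,[]),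
    (true,[([(0,17,[(8,10),(4,4)])],[]),([(0,2,[(5,6),(3,4)])],[4,1])],[4,4],false,1,0,[3]),
    (true,[([(0,2,[(8,10)]),(0,3,[(2,3)])],[]),([(0,2,[(5,6),(3,4)])],[4]),([(0,12,[(4,4)])],[1,1])],[4],false,1,0,[2]),
    (true,[([(0,17,[(8,10),(4,4)])],[]),([(0,1,[(5,6)]),(0,1,[(3,4),(2,2)])],[]),([(0,3,[(2,3)])],[2,2])],[4],false,1,0,[]),
    (true,[([(0,2,[(8,10)])],[]),([(0,1,[(5,6)]),(0,1,[(5,6)])],[])],[5,4,4,2],false,3,2,[4]),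
    (true,[([(0,2,[(8,10)])],[2]),([(0,25,[(5,6),(5,6)])],[5]),([(0,12,[(4,4)])],[2,2])],[],false,1,0,[]),
    (true,[([(0,2,[(8,10)])],[]),([(0,0,[(7,8)])],[2])],[6,5,4,2],false,4,2,[6]),
    (true,[([(0,2,[(8,10)])],[4]),([(0,17,[(7,8),(5,6)])],[1])],[4,4],false,1,0,[2]),
    (true,[([(0,25,[(8,10),(2,2)])],[4]),([(0,0,[(7,8)])],[2]),([(0,1,[(5,6)])],[3,2])],[],false,1,0,[]),
    (true,[([(0,2,[(8,10)])],[]),([(0,11,[(9,10)])],[4])],[6,4,2],false,3,2,[4]),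
    (false,[([(0,8,[(8,10),(9,10)]),(0,12,[(4,4)])],[4,4,4])],[],false,1,0,[]),
    (true,[([(0,5,[(11,15)])],[])],[6,4,4,4,2,2],false,3,4,[6,8,9]),
    (true,[([(0,5,[(11,15)])],[]),([(0,1,[(4,6)])],[3,2,1])],[4,4,2],false,1,0,[3,6]),
    (true,[([(0,5,[(11,15)])],[]),([(0,1,[(4,6)]),(0,3,[(2,3)])],[3])],[4,4,2],true,2,4,[3]),
    (true,[([(0,5,[(11,15)])],[]),([(0,1,[(4,6)]),(0,1,[(2,3),(3,3)])],[])],[4,4,2],false,2,2,[3]),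
    (true,[([(0,5,[(11,15)])],[]),([(0,1,[(4,6)]),(0,1,[(2,3),(3,3)])],[]),([(0,3,[(3,3)])],[2,1])],[4],false,1,0,[]),
    (true,[([(0,5,[(11,15)])],[]),([(0,1,[(4,6)]),(0,1,[(4,6)])],[])],[4,4,2],false,2,2,[3]),
    (true,[([(0,5,[(11,15)])],[]),([(0,1,[(4,6)]),(0,1,[(4,6)])],[]),([(0,3,[(3,3)])],[2,1])],[4],false,1,0,[]),
    (true,[([(0,5,[(11,15)])],[]),([(0,0,[(7,8)])],[2])],[6,4,2],false,3,2,[]),
    (false,[([(0,5,[(11,15)]),(0,6,[(9,9)])],[1,1])],[11],false,1,0,[]),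
    (true,[([(0,13,[(16,19)])],[1])],[4,4,4,2,2,1],false,3,1,[4]),
    (true,[([(0,7,[(16,19)])],[]),([(0,12,[(4,4)])],[1,1])],[4,4,4],false,1,0,[])]),
  ([11,10,8,4,2,1], [
    (false,[],[11,10,8,4,2,1],true,5,5,[8,11,15,19]),
    (false,[([(0,15,[(6,8)])],[3,2,1,1])],[11,10],false,1,0,[2,3,4,5,7,8]),
    (true,[([(0,2,[(6,8),(2,2)])],[])],[6,5,4,3,3,3,2],false,2,12,[]),
    (false,[([(0,15,[(6,8)]),(0,3,[(3,3)])],[3,1])],[11,10],false,1,0,[2,3]),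
    (false,[([(0,2,[(6,8),(2,2)]),(0,3,[(3,3)])],[1,1])],[11,10],false,2,10,[]),
    (true,[([(0,15,[(6,8)])],[3]),([(0,3,[(3,3)]),(0,3,[(3,3)])],[])],[6,4,3,3,3],false,3,4,[]),
    (true,[([(0,25,[(6,8),(4,4)])],[4])],[5,4,3,3,3,2],false,3,5,[4]),
    (true,[([(0,25,[(6,8),(4,4)])],[4]),([(0,12,[(4,4)])],[2])],[5,4,3,2],false,4,2,[]),
    (false,[([(0,15,[(6,8)]),(0,4,[(5,5)])],[2])],[11,10],false,2,9,[3,4,5]),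
    (false,[([(0,15,[(6,8)]),(0,4,[(5,5)]),(0,3,[(3,3)])],[1])],[11,8],false,2,7,[3]),
    (true,[([(0,15,[(6,8)])],[3]),([(0,4,[(5,5)]),(0,1,[(3,3),(3,3)])],[])],[4,4,3,3],false,2,5,[3]),
    (true,[([(0,15,[(6,8)])],[3]),([(0,4,[(5,5)]),(0,1,[(3,3),(3,3)])],[]),([(0,3,[(3,3)])],[2,2])],[4,3],false,2,3,[3]),
    (true,[([(0,15,[(6,8)])],[4,4]),([(1,2,[(5,5),(3,3),(3,3),(3,3)])],[]),([(0,3,[(3,3)])],[2])],[],false,1,0,[2]),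
    (true,[([(0,5,[(6,8),(5,5),(2,2)])],[]),([(0,1,[(3,3),(3,3)]),(0,1,[(3,3),(3,3)])],[])],[3,3,3],false,1,0,[]),
    (true,[([(0,15,[(6,8)])],[4]),([(0,4,[(5,5)]),(0,12,[(4,4)])],[1])],[4,4,3,3],false,2,6,[3,4]),
    (true,[([(0,5,[(6,8),(4,4),(3,3)])],[]),([(0,4,[(5,5)])],[3,3,1])],[4,3,2],false,3,2,[]),
    (true,[([(0,8,[(6,8),(5,5),(4,4),(4,4)])],[])],[4,3,3,3,2],false,3,2,[4]),
    (true,[([(0,8,[(6,8),(5,5),(4,4),(4,4)])],[]),([(0,12,[(4,4)])],[1])],[4,3,3],false,1,0,[]),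
    (true,[([(0,15,[(6,8)])],[4,4]),([(0,2,[(5,5),(5,5)])],[])],[5,3,2],false,3,2,[5]),
    (true,[([(0,15,[(6,8)])],[4,4]),([(0,5,[(5,5),(5,5),(4,5)])],[])],[3,2],false,2,2,[3]),
    (true,[([(0,8,[(6,8),(5,5),(5,5),(3,3)])],[]),([(0,1,[(4,5)])],[3])],[3,3],false,1,0,[]),
    (true,[([(0,5,[(6,8),(6,7)])],[])],[6,4,3,3,3,2],false,4,2,[6,7]),
    (true,[([(0,5,[(6,8),(6,7)])],[]),([(0,1,[(5,6)])],[3])],[6,3,3],false,2,4,[3,5]),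
    (true,[([(0,5,[(6,8),(6,7)])],[]),([(0,2,[(5,6),(3,3)])],[4,1])],[3,3],false,1,0,[3]),
    (true,[([(0,5,[(6,8),(6,7)])],[]),([(0,1,[(5,6)]),(0,1,[(3,3),(2,3)])],[])],[3,3,3],false,1,0,[2]),
    (true,[([(0,5,[(6,8),(6,7)])],[]),([(0,1,[(5,6)]),(0,4,[(3,3),(2,2)])],[]),([(0,3,[(2,3)])],[2,2])],[3],false,1,0,[]),
    (true,[([(0,5,[(6,8),(6,7)])],[]),([(0,1,[(5,6)]),(0,4,[(4,5)])],[])],[4,3,3],false,2,1,[]),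
    (true,[([(0,5,[(6,8),(6,7)])],[]),([(0,0,[(7,7)])],[])],[6,4,3],false,3,2,[]),
    (true,[([(0,15,[(6,8)])],[3,3]),([(0,0,[(8,8)])],[])],[5,4,3,2],false,4,2,[7]),
    (true,[([(0,15,[(6,8)])],[4,4]),([(0,5,[(8,8),(5,7)])],[])],[3,2],false,2,2,[3]),
    (true,[([(0,15,[(6,8)])],[4,4]),([(0,5,[(8,8),(5,7)])],[]),([(0,3,[(3,3)])],[2])],[],false,1,0,[]),
    (true,[([(0,11,[(9,11)])],[])],[6,5,4,3,3,2,2],false,5,4,[8,11]),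
    (true,[([(0,11,[(9,11)])],[]),([(0,15,[(6,8)])],[4])],[6,4,3],false,3,3,[4,6]),
    (true,[([(0,5,[(9,11),(4,4)])],[]),([(0,15,[(6,8)])],[4,4])],[3,2],false,2,2,[3]),
    (true,[([(0,5,[(9,11),(4,4)])],[]),([(0,15,[(6,8)])],[4,4]),([(0,3,[(3,3)])],[2])],[],false,1,0,[]),
    (true,[([(0,11,[(9,11)])],[]),([(0,15,[(6,8)])],[4]),([(0,1,[(5,6)])],[3,3,1])],[],false,1,0,[2]),
    (true,[([(0,11,[(9,11)])],[]),([(0,2,[(6,8),(2,2)])],[4]),([(0,1,[(5,6)])],[3,1,1])],[],false,1,0,[]),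
    (true,[([(0,11,[(9,11)])],[]),([(0,11,[(9,11)])],[4,2])],[3,3,2],false,2,2,[3]),
    (true,[([(0,17,[(9,11),(3,3)])],[5]),([(0,11,[(9,11)])],[])],[4,2],false,1,0,[]),
    (true,[([(0,5,[(12,15)])],[])],[6,4,3,3,3,2],false,4,2,[6,8]),
    (true,[([(0,8,[(12,15),(5,6)])],[])],[4,3,3,3,2],false,3,2,[4]),
    (true,[([(0,8,[(12,15),(5,6)])],[]),([(0,12,[(4,4)])],[1])],[4,3,3],false,1,0,[]),
    (true,[([(0,5,[(12,15)])],[]),([(0,15,[(7,8)])],[4,4])],[3,2],false,2,1,[]),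
    (true,[([(0,13,[(16,19)])],[1])],[4,3,3,3,2,1],false,4,1,[])])]

theorem cj6e_7_ok : runAllJ S40 R40 F40 18 cj6e_7 = true := by decide +kernel

noncomputable def cj6e_8 : List (List ℕ × List NdJ) := [
  ([11,10,9,3,2,1], [
    (false,[],[11,10,9,3,2,1],false,4,6,[5,6,8,11,13,15,17,19]),
    (true,[([(0,1,[(5,5)])],[])],[6,5,4,3,3,3,3,3],false,4,4,[5]),
    (true,[([(0,2,[(5,5),(5,5)])],[])],[6,5,3,3,3,3,3],false,3,5,[4,5]),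
    (true,[([(0,2,[(5,5),(5,5)])],[]),([(0,12,[(4,4)])],[2])],[6,5,3,3,3],false,3,5,[4]),
    (true,[([(0,4,[(5,5)]),(0,1,[(5,5)])],[]),([(0,12,[(4,4)])],[2]),([(0,12,[(4,4)])],[2])],[5,4,3,1],false,4,1,[]),
    (true,[([(0,5,[(5,5),(5,5),(5,5)])],[])],[6,3,3,3,3,3],false,2,6,[3,4,5]),
    (true,[([(0,4,[(5,5)]),(0,1,[(5,5)])],[]),([(0,4,[(5,5)])],[3,3]),([(0,3,[(3,3)])],[1])],[4,3,3],false,2,4,[3]),
    (true,[([(0,5,[(5,5),(5,5),(5,5)])],[]),([(0,3,[(3,3)]),(0,3,[(3,3)])],[2,1])],[3,3,3,3],false,1,0,[2,3]),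
    (true,[([(2,9,[(5,5),(5,5),(5,5),(3,3),(3,3),(2,2)])],[])],[3,3,3,3],false,1,0,[2]),
    (true,[([(2,10,[(5,5),(5,5),(5,5),(3,3),(3,3),(2,2),(2,2)])],[])],[3,3,3],false,1,0,[]),
    (true,[([(2,11,[(5,5),(5,5),(5,5),(3,3),(3,3),(3,3)])],[])],[3,3,3,3],false,1,0,[]),
    (true,[([(0,4,[(5,5)]),(0,1,[(5,5)])],[]),([(0,4,[(5,5)])],[3,3]),([(0,12,[(4,4)])],[2])],[4,3,1],false,3,1,[4]),
    (false,[([(0,5,[(5,5),(5,5),(5,5)]),(0,12,[(4,4)]),(0,12,[(4,4)])],[2])],[11],false,1,0,[]),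
    (true,[([(0,5,[(5,5),(5,5),(5,5)])],[]),([(0,4,[(5,5)])],[3,3,1])],[3,3,3],false,1,0,[2,3]),
    (true,[([(2,12,[(5,5),(5,5),(5,5),(5,5),(2,2)])],[])],[3,3,3,3],false,1,0,[2]),
    (true,[([(2,13,[(5,5),(5,5),(5,5),(5,5),(2,2),(2,2)])],[])],[3,3,3,3],false,1,0,[]),
    (true,[([(2,14,[(5,5),(5,5),(5,5),(5,5),(3,3)])],[])],[3,3,3,3],false,1,0,[]),
    (true,[([(0,1,[(6,6)])],[])],[6,5,4,3,3,3,3,3],false,4,4,[5,6]),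
    (true,[([(0,11,[(6,6),(5,5)])],[])],[6,5,3,3,3,3,2],false,3,6,[5]),
    (true,[([(0,11,[(6,6),(5,5)])],[]),([(0,4,[(4,5)])],[3,3])],[6,3,3,2],true,3,3,[5]),
    (true,[([(0,11,[(6,6),(5,5)])],[]),([(0,4,[(4,5)]),(0,1,[(4,5)])],[])],[5,3,3,3],false,2,3,[3,4]),
    (true,[([(0,11,[(6,6),(5,5)])],[]),([(0,4,[(4,5)]),(0,3,[(3,3)])],[3]),([(0,4,[(4,5)])],[3,3])],[3],false,1,0,[2]),
    (true,[([(0,11,[(6,6),(5,5)])],[]),([(0,4,[(4,5)]),(0,1,[(3,3),(2,2)])],[]),([(0,4,[(4,5)])],[3,3])],[3],false,1,0,[]),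
    (true,[([(0,8,[(6,6),(5,5),(4,5),(4,5)])],[]),([(0,12,[(4,4)])],[2])],[3,3,3],false,1,0,[]),
    (true,[([(0,1,[(6,6)]),(0,1,[(6,6)])],[])],[5,3,3,3,3,3,3,1],true,2,8,[3,5,6]),
    (true,[([(0,5,[(6,6),(6,6),(3,3)])],[])],[6,3,3,3,3,3],false,2,6,[3]),
    (true,[([(0,1,[(6,6)]),(0,1,[(6,6)])],[]),([(0,3,[(3,3)]),(0,3,[(3,3)])],[2])],[3,3,3,3,3,1],true,2,4,[3]),
    (false,[([(0,8,[(6,6),(6,6),(3,3),(3,3),(3,3)])],[3,3,3,3,3])],[],false,1,0,[2,3]),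
    (true,[([(0,0,[(6,6),(2,2)])],[]),([(0,1,[(6,6)]),(0,3,[(3,3)])],[]),([(0,3,[(3,3)]),(0,3,[(3,3)])],[2,1])],[4,3,3],false,2,1,[]),
    (true,[([(0,5,[(6,6),(6,6),(3,3)])],[]),([(0,3,[(3,3)]),(0,3,[(3,3)]),(0,3,[(3,3)])],[])],[3,3,3,3],false,1,0,[]),
    (true,[([(0,11,[(6,6),(4,5)])],[]),([(0,19,[(6,6)])],[4,4])],[5,3,2],false,3,2,[5]),
    (true,[([(0,11,[(6,6),(4,5)])],[]),([(0,1,[(6,6)]),(0,4,[(4,5)])],[])],[5,3,3,3],false,2,2,[3]),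
    (true,[([(0,17,[(6,6),(4,5),(3,3)])],[5]),([(0,11,[(6,6),(4,5)])],[])],[3,3],false,1,0,[]),
    (false,[([(0,8,[(6,6),(6,6),(6,6)])],[3,3,3,3,3])],[],false,1,0,[2,3,4]),
    (true,[([(0,17,[(6,6),(6,6)])],[4]),([(0,0,[(6,6),(2,2)])],[])],[4,3,3],false,2,2,[]),
    (false,[([(0,8,[(6,6),(6,6),(6,6),(3,3)])],[3,3,3,3,3])],[],false,1,0,[2]),
    (true,[([(0,5,[(6,6),(6,6),(3,3)])],[4]),([(0,0,[(6,6),(2,2)])],[])],[3,3,3],false,1,0,[]),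
    (true,[([(0,8,[(6,6),(6,6),(6,6)])],[]),([(0,12,[(4,4)])],[2])],[3,3,3],false,1,0,[]),
    (true,[([(0,0,[(7,8)])],[])],[6,5,4,3,3,3,3,1],false,4,5,[6,8]),
    (true,[([(0,0,[(7,8)]),(0,1,[(5,6)])],[])],[4,3,3,3,3,3,2,1],true,3,7,[4,5,6]),
    (true,[([(0,0,[(7,8)]),(0,1,[(5,6)])],[]),([(0,12,[(4,4)])],[2])],[4,3,3,3,2,1],false,4,1,[]),
    (true,[([(0,0,[(7,8)]),(0,1,[(5,6)])],[]),([(0,1,[(5,5)])],[])],[4,3,3,3,3],false,2,4,[3,4,5]),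
    (true,[([(0,0,[(7,8)])],[]),([(0,17,[(5,6),(5,5),(3,3)])],[4])],[4,3,3],false,2,2,[3]),
    (true,[([(0,11,[(7,8),(3,3)])],[]),([(0,17,[(5,6),(5,5),(3,3)])],[5])],[3,3],false,1,0,[]),
    (true,[([(0,0,[(7,8)]),(0,1,[(5,6)])],[]),([(0,1,[(5,5)])],[]),([(0,12,[(4,4)])],[2])],[4,3,3],false,2,1,[]),
    (true,[([(0,0,[(7,8)]),(0,1,[(5,6)])],[]),([(0,2,[(5,5),(5,5)])],[])],[3,3,3,3],false,1,0,[]),
    (true,[([(0,0,[(7,8)]),(0,1,[(5,6)])],[]),([(0,1,[(6,6)])],[])],[4,3,3,3,3],false,2,3,[3,4]),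
    (true,[([(0,0,[(7,8)])],[]),([(0,5,[(5,6),(6,6),(3,3)])],[4])],[3,3,3],false,1,0,[2]),
    (true,[([(0,17,[(7,8),(5,6)])],[4]),([(0,0,[(6,6),(2,2)])],[]),([(0,3,[(3,3)])],[2,2])],[3],false,1,0,[]),
    (true,[([(0,8,[(7,8),(5,6),(6,6)])],[]),([(0,12,[(4,4)])],[2])],[3,3,3],false,1,0,[]),
    (true,[([(0,0,[(7,8)])],[]),([(0,0,[(7,8)])],[3,1])],[6,3,3,3,1],true,3,3,[6,7]),
    (true,[([(0,0,[(7,8)]),(0,1,[(4,6)])],[]),([(0,0,[(7,8)])],[])],[4,3,3,3,1],false,3,1,[4]),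
    (true,[([(0,0,[(7,8)]),(0,1,[(4,6)])],[]),([(0,0,[(7,8)])],[]),([(0,12,[(4,4)])],[2])],[4,3,1],false,1,0,[]),
    (true,[([(0,5,[(7,8),(7,7)])],[4]),([(0,0,[(7,8)])],[])],[3,3,3],false,1,0,[]),
    (true,[([(0,11,[(9,11)])],[])],[6,5,3,3,3,3,2],false,3,6,[4,5,7,8,9,10,11]),
    (true,[([(0,11,[(9,11)])],[]),([(0,12,[(4,4)])],[2])],[6,5,3,3,2],false,4,2,[]),
    (true,[([(0,11,[(9,11)])],[]),([(0,4,[(5,5)])],[3,3])],[6,3,3,2],true,3,3,[5]),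
    (true,[([(0,11,[(9,11)])],[]),([(0,4,[(5,5)]),(0,1,[(4,5)])],[])],[5,3,3,3],false,2,3,[3,4]),
    (true,[([(0,11,[(9,11)])],[]),([(0,4,[(5,5)]),(0,3,[(3,3)])],[3]),([(0,4,[(4,5)])],[3,3])],[3],false,1,0,[2]),
    (true,[([(0,11,[(9,11)])],[]),([(0,4,[(5,5)]),(0,1,[(3,3),(2,2)])],[]),([(0,4,[(4,5)])],[3,3])],[3],false,1,0,[]),
    (true,[([(0,8,[(9,11),(5,5),(4,5)])],[]),([(0,12,[(4,4)])],[2])],[3,3,3],false,1,0,[]),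
    (true,[([(0,11,[(9,11)])],[]),([(0,19,[(6,7)])],[4,4])],[5,3,2],false,3,2,[4,5,6]),
    (true,[([(0,5,[(9,11),(4,4)])],[]),([(0,19,[(6,7)])],[4,4])],[3,3],false,1,0,[2,3]),
    (true,[([(0,11,[(9,11)])],[]),([(0,2,[(6,7),(2,2)])],[4,2]),([(0,12,[(4,4)])],[2])],[3],false,1,0,[2]),
    (true,[([(0,5,[(9,11),(2,2),(2,2)])],[]),([(0,19,[(6,7)])],[4,4]),([(0,12,[(4,4)])],[2])],[],false,1,0,[]),
    (true,[([(0,8,[(9,11),(6,7),(3,3)])],[]),([(0,12,[(4,4)])],[2])],[3,3,3],false,1,0,[]),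
    (true,[([(0,11,[(9,11)])],[]),([(0,19,[(6,7)])],[4,3]),([(0,4,[(5,5)])],[3,3])],[],false,1,0,[2]),
    (true,[([(0,11,[(9,11)])],[]),([(0,17,[(6,7),(5,5),(2,2)])],[5])],[3,3],false,1,0,[]),
    (true,[([(0,11,[(9,11)])],[]),([(0,17,[(6,7),(6,6)])],[5])],[3,3],false,1,0,[]),
    (true,[([(0,11,[(9,11)])],[]),([(0,0,[(8,8)])],[])],[6,5,3,3],false,3,3,[4]),
    (true,[([(0,8,[(9,11),(8,8)])],[]),([(0,12,[(4,4)])],[2])],[3,3,3],false,1,0,[]),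
    (true,[([(0,11,[(9,11)])],[]),([(0,6,[(9,9)])],[])],[6,5,3,2],false,3,2,[]),
    (false,[([(0,8,[(9,11),(10,10)])],[3,3,3,3,3])],[],false,1,0,[2]),
    (true,[([(0,11,[(9,11)])],[]),([(0,10,[(10,10),(2,2)])],[3,1])],[3,3,3],false,1,0,[]),
    (true,[([(0,11,[(9,11)])],[]),([(0,10,[(11,11)])],[3,1])],[3,3,3],false,1,0,[]),
    (true,[([(0,9,[(12,13)])],[1])],[6,3,3,3,3,3,1],true,3,3,[4,5,7,8]),
    (true,[([(0,9,[(12,13)])],[1]),([(0,12,[(4,4)])],[2])],[6,3,3,3,1],true,3,3,[4]),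
    (true,[([(0,14,[(12,13),(4,4)])],[2]),([(0,12,[(4,4)])],[2])],[3,3,3,2],false,2,1,[]),
    (true,[([(0,13,[(12,13),(5,5)])],[1])],[3,3,3,3,3,1],true,2,3,[3,4]),
    (false,[([(0,8,[(12,13),(5,5),(3,3)])],[3,3,3,3,3])],[],false,1,0,[2]),
    (true,[([(0,9,[(12,13)])],[1]),([(0,19,[(5,5),(2,2)])],[4,4]),([(0,3,[(3,3)])],[1])],[3],false,1,0,[]),
    (true,[([(0,13,[(12,13),(5,5)])],[1]),([(0,12,[(4,4)])],[2])],[3,3,3,1],false,1,0,[]),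
    (true,[([(0,9,[(12,13)])],[1]),([(0,19,[(6,7)])],[4,4])],[3,3,1],true,2,2,[3]),
    (true,[([(0,9,[(12,13)])],[1]),([(0,19,[(6,7)])],[4,4]),([(0,3,[(3,3)])],[1])],[3],false,1,0,[]),
    (false,[([(0,8,[(12,13),(8,8)])],[3,3,3,3,3])],[],false,1,0,[]),
    (true,[([(0,16,[(14,15)])],[2,1])],[3,3,3,3,3,2,1],true,3,5,[4,6]),
    (true,[([(0,16,[(14,15)])],[2,1]),([(0,12,[(4,4)])],[2])],[3,3,3,2,1],false,3,1,[]),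
    (false,[([(0,16,[(14,15)]),(0,1,[(5,6)])],[3,3,3,3])],[2,1],false,2,1,[]),
    (true,[([(0,14,[(16,17)])],[2])],[3,3,3,3,3,2],true,2,3,[3,4]),
    (false,[([(0,8,[(16,17),(3,3)])],[3,3,3,3,3])],[],false,1,0,[2]),
    (true,[([(0,13,[(16,17),(2,2)])],[1]),([(0,3,[(3,3)])],[1])],[3,3,3,3],false,1,0,[]),
    (false,[([(0,8,[(16,17),(4,4)])],[3,3,3,3,3])],[],false,1,0,[]),
    (true,[([(0,13,[(18,19)])],[1])],[3,3,3,3,3,1],false,2,1,[])]),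
  ([11,10,9,4,2,1], [
    (false,[],[11,10,9,4,2,1],false,4,7,[6,8,11,15,19]),
    (true,[([(0,1,[(5,6)])],[])],[6,5,4,4,3,3,3,3],false,4,5,[5,6]),
    (true,[([(0,1,[(5,6)]),(0,4,[(5,5)])],[])],[5,4,4,3,3,3,3,1],false,3,6,[4,5]),
    (true,[([(0,5,[(5,6),(5,5),(4,4)])],[])],[6,4,3,3,3,3],false,3,4,[4]),
    (true,[([(0,1,[(5,6)]),(0,4,[(5,5)])],[]),([(0,12,[(4,4)])],[2]),([(0,12,[(4,4)])],[2,1])],[5,4,3,1],false,4,1,[]),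
    (true,[([(0,1,[(5,6)]),(0,4,[(5,5)])],[]),([(0,1,[(5,5)])],[2])],[5,4,3,3,3],false,3,4,[4,5]),
    (true,[([(0,1,[(5,6)]),(0,4,[(5,5)])],[]),([(0,4,[(5,5)])],[3,3]),([(0,12,[(4,4)])],[2,1])],[4,3,1],false,3,1,[4]),
    (true,[([(0,5,[(5,6),(5,5),(4,4)])],[]),([(0,4,[(5,5)])],[3,3,1]),([(0,12,[(4,4)])],[2])],[4],false,1,0,[]),
    (true,[([(0,1,[(5,6)]),(0,4,[(5,5)])],[]),([(0,2,[(5,5),(5,5)])],[3])],[4,3,3,3],false,2,2,[3]),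
    (true,[([(0,1,[(5,6)]),(0,4,[(5,5)])],[]),([(0,2,[(5,5),(5,5)])],[3]),([(0,3,[(3,3)])],[2,2])],[3,3],false,1,0,[]),
    (true,[([(0,25,[(5,6),(6,6)])],[4])],[5,4,3,3,3,3],false,3,4,[5,6]),
    (true,[([(0,1,[(5,6)])],[3]),([(0,11,[(6,6),(4,5)])],[])],[6,5,3,3],false,3,5,[5]),
    (true,[([(0,1,[(5,6)]),(0,4,[(4,5)])],[]),([(0,11,[(6,6),(4,5)])],[])],[5,4,3,3],false,3,3,[4]),
    (true,[([(0,5,[(5,6),(4,5),(4,4)])],[5]),([(0,11,[(6,6),(4,5)])],[])],[3,3],false,1,0,[]),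
    (true,[([(0,1,[(5,6)])],[2]),([(0,17,[(6,6),(6,6)])],[5])],[4,3,3],false,2,4,[3,5]),
    (true,[([(0,8,[(5,6),(6,6),(6,6),(3,3)])],[])],[4,3,3,3,3],false,2,2,[3]),
    (true,[([(0,8,[(5,6),(6,6),(6,6),(3,3)])],[]),([(0,3,[(3,3)])],[2,2])],[3,3,3],false,1,0,[]),
    (true,[([(0,1,[(5,6)]),(0,1,[(6,6)])],[]),([(0,11,[(6,6),(4,5)])],[])],[5,3,3,3],false,2,1,[]),
    (true,[([(0,0,[(7,8)])],[])],[6,5,4,4,3,3,3,1],false,4,6,[6,8]),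
    (true,[([(0,0,[(7,8)]),(0,1,[(5,6)])],[])],[4,4,3,3,3,3,2,1],true,4,2,[6]),
    (false,[([(0,0,[(7,8)]),(0,1,[(5,6)]),(0,1,[(5,6)])],[2,2])],[10,2,1],true,3,2,[5]),
    (false,[([(0,0,[(7,8)]),(0,1,[(5,6)]),(0,1,[(5,6)])],[2,2]),([(0,4,[(4,5)])],[2,1,1,1,1,1,1])],[],false,1,0,[2]),
    (false,[([(0,0,[(7,8)]),(0,1,[(5,6)]),(0,1,[(5,6)])],[2,2]),([(0,4,[(4,5)]),(0,3,[(2,2)])],[1,1,1,1,1])],[],false,1,0,[]),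
    (true,[([(0,0,[(7,8)])],[]),([(0,0,[(7,8)])],[3,1])],[6,4,3,3,1],true,4,2,[7]),
    (true,[([(0,5,[(7,8),(5,7)])],[4]),([(0,0,[(7,8)])],[])],[4,3,3],false,2,2,[3]),
    (true,[([(0,5,[(7,8),(5,7)])],[5]),([(0,11,[(7,8),(3,3)])],[])],[3,3],false,1,0,[]),
    (true,[([(0,11,[(9,11)])],[])],[6,5,4,3,3,3,2],false,5,2,[8,10,11]),
    (true,[([(0,11,[(9,11)])],[]),([(0,15,[(6,8)])],[4,4])],[5,3,2],false,3,2,[4,5,6]),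
    (true,[([(0,5,[(9,11),(4,4)])],[]),([(0,15,[(6,8)])],[4,4])],[3,3],false,1,0,[3]),
    (true,[([(0,11,[(9,11)])],[]),([(0,15,[(6,8)])],[4,3]),([(0,12,[(4,4)]),(0,3,[(2,3)])],[1])],[3],false,1,0,[2]),
    (true,[([(0,11,[(9,11)]),(0,3,[(2,3)])],[]),([(0,2,[(6,8),(2,2)])],[4]),([(0,12,[(4,4)])],[2])],[3],false,1,0,[]),
    (true,[([(0,11,[(9,11)])],[]),([(0,15,[(6,8)])],[4,3]),([(0,4,[(5,5)])],[3,3])],[],false,1,0,[2]),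
    (true,[([(0,11,[(9,11)])],[]),([(0,5,[(6,8),(5,5),(2,2)])],[5])],[3,3],false,1,0,[]),
    (true,[([(0,11,[(9,11)])],[]),([(0,17,[(6,8),(6,6)])],[5])],[4,3],false,1,0,[]),
    (true,[([(0,8,[(9,11),(9,10)])],[])],[4,3,3,3,3],false,2,2,[3]),
    (true,[([(0,8,[(9,11),(9,10)])],[]),([(0,3,[(3,3)])],[2,2])],[3,3,3],false,1,0,[]),
    (false,[([(0,18,[(9,11),(11,11)])],[3,3,3,3,3])],[],false,1,0,[]),
    (true,[([(0,5,[(12,15)])],[])],[6,4,3,3,3,3],false,3,4,[4,5,7,8]),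
    (true,[([(0,5,[(12,15)])],[]),([(0,12,[(4,4)])],[2])],[6,4,3,3],false,3,4,[4]),
    (true,[([(0,5,[(12,15)])],[]),([(0,12,[(4,4)])],[2]),([(0,12,[(4,4)])],[2])],[6,4],false,2,1,[]),
    (true,[([(0,8,[(12,15),(5,5)])],[])],[4,3,3,3,3],false,2,3,[3,4]),
    (true,[([(0,8,[(12,15),(5,5)])],[]),([(0,3,[(3,3)])],[2,2])],[3,3,3],false,1,0,[2]),
    (true,[([(0,5,[(12,15)])],[]),([(0,19,[(5,5),(2,2)])],[4,4]),([(0,3,[(3,3)])],[2,2])],[],false,1,0,[]),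
    (true,[([(0,8,[(12,15),(5,5)])],[]),([(0,12,[(4,4)])],[2])],[4,3,3],false,1,0,[]),
    (true,[([(0,5,[(12,15)])],[]),([(0,19,[(6,7)])],[4,4])],[4,3],false,2,2,[3]),
    (true,[([(0,5,[(12,15)])],[]),([(0,19,[(6,7)])],[4,4]),([(0,3,[(3,3)])],[2,2])],[],false,1,0,[]),
    (true,[([(0,5,[(12,15)])],[]),([(0,15,[(8,8)])],[4,4])],[3,3],false,1,0,[]),
    (true,[([(0,13,[(16,19)])],[1])],[4,3,3,3,3,1],false,3,1,[4]),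
    (true,[([(0,13,[(16,19)])],[1]),([(0,12,[(4,4)])],[2])],[4,3,3,1],false,1,0,[])]),
  ([11,11,5,4,3,2,1], [
    (false,[],[11,11,5,4,3,2,1],true,6,3,[10,14,17,19]),
    (false,[([(0,2,[(7,10)])],[])],[11,11,5],true,2,12,[3,4,5,6,8,9,10]),
    (true,[([(0,2,[(7,10)]),(0,3,[(3,3)])],[4])],[6,4,2,2,2,2,2],false,2,10,[3]),
    (false,[([(0,2,[(7,10)]),(0,1,[(3,3),(3,3)])],[1,1,1,1])],[11,4,2],true,3,4,[]),
    (true,[([(0,2,[(7,10)]),(0,12,[(4,4)])],[4])],[5,4,2,2,2,2,2],false,3,4,[4]),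
    (false,[([(0,2,[(7,10)]),(0,15,[(4,4),(4,4)])],[1,1,1])],[11,4,1],true,3,3,[4]),
    (true,[([(0,2,[(7,10)]),(0,12,[(4,4)])],[4]),([(0,12,[(4,4)])],[]),([(0,12,[(4,4)])],[])],[5,4,2],false,3,2,[4]),
    (false,[([(0,2,[(7,10)]),(0,15,[(4,4),(4,4)])],[1,1,1]),([(0,12,[(4,4)]),(0,12,[(4,4)])],[1,1,1,1,1,1,1])],[1],false,1,0,[]),
    (false,[([(0,2,[(7,10)]),(0,4,[(5,5)])],[1,1,1,1])],[11,5,2],true,3,6,[5]),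
    (false,[([(0,2,[(7,10)]),(0,4,[(5,5)]),(0,4,[(4,5)])],[1])],[11,3,2],false,3,2,[5]),
    (true,[([(0,5,[(7,10),(5,5)])],[5]),([(0,4,[(4,5)]),(0,4,[(4,5)])],[1])],[2,2,2],false,1,0,[2,3]),
    (false,[([(0,2,[(7,10)]),(0,19,[(5,5),(2,2)]),(0,4,[(4,5)])],[]),([(0,4,[(4,5)])],[2,2,1,1,1,1,1,1])],[],false,1,0,[2]),
    (false,[([(0,2,[(7,10)]),(0,19,[(5,5),(2,2)]),(0,4,[(4,5)])],[]),([(0,4,[(4,5)]),(0,3,[(2,2)])],[2,1,1,1,1,1])],[],false,1,0,[]),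
    (false,[([(0,2,[(7,10)]),(0,4,[(5,5)]),(0,4,[(4,5)])],[1]),([(0,4,[(4,5)]),(0,3,[(3,3)])],[3,1,1,1,1,1])],[],false,1,0,[]),
    (false,[([(0,2,[(7,10)]),(0,1,[(6,6)])],[1,1,1,1])],[11,4,2],true,3,4,[5,6]),
    (false,[([(0,2,[(7,10)]),(0,19,[(6,6)]),(0,4,[(4,5)])],[])],[11,3,1],true,3,3,[5]),
    (false,[([(0,2,[(7,10)]),(0,1,[(6,6)])],[1,1,1,1]),([(0,4,[(4,5)]),(0,4,[(4,5)])],[2,2,1,1,1])],[],false,1,0,[2]),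
    (false,[([(0,2,[(7,10)]),(0,4,[(4,5)]),(0,4,[(4,5)])],[1]),([(0,0,[(6,6),(2,2)])],[1,1,1,1,1,1,1,1])],[],false,1,0,[]),
    (true,[([(0,2,[(7,10)])],[4,3]),([(0,35,[(6,6),(6,6)])],[6])],[2],false,1,0,[3]),
    (false,[([(0,2,[(7,10)]),(0,1,[(6,6)])],[1,1,1,1]),([(0,1,[(6,6)]),(0,3,[(2,3)])],[3,1,1,1,1,1])],[],false,1,0,[2]),
    (false,[([(0,2,[(7,10)]),(0,15,[(6,6),(2,2)])],[1,1,1]),([(0,1,[(6,6)]),(0,3,[(2,3)])],[2,1,1,1,1,1])],[],false,1,0,[]),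
    (false,[([(0,2,[(7,10)]),(0,15,[(7,8)])],[1,1,1])],[11,4,1],true,3,3,[4,6,7]),
    (true,[([(0,2,[(7,10)])],[4,3]),([(0,35,[(7,8),(4,4)])],[6])],[2],false,1,0,[3,4]),
    (false,[([(0,2,[(7,10)]),(0,15,[(7,8)])],[1,1,1]),([(0,12,[(4,4)]),(0,3,[(2,3)])],[2,1,1,1,1,1,1])],[1],false,1,0,[2,3]),
    (false,[([(0,2,[(7,10)]),(0,27,[(7,8),(2,2)])],[1,1]),([(0,12,[(4,4)]),(0,3,[(2,3)])],[2,1,1,1,1,1,1])],[],false,1,0,[2]),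
    (false,[([(0,2,[(7,10)]),(0,27,[(7,8),(2,2)])],[1,1]),([(0,12,[(4,4)]),(0,3,[(2,3)]),(0,3,[(2,2)])],[1,1,1,1,1])],[],false,1,0,[]),
    (false,[([(0,2,[(7,10)]),(0,15,[(7,8)])],[1,1,1]),([(0,12,[(4,4)]),(0,1,[(2,3),(3,3)])],[1,1,1,1,1,1])],[],false,1,0,[]),
    (false,[([(0,2,[(7,10)]),(0,15,[(7,8)])],[1,1,1]),([(0,12,[(4,4)]),(0,12,[(4,4)])],[1,1,1,1,1,1,1])],[1],false,1,0,[]),
    (false,[([(0,2,[(7,10)]),(0,15,[(7,8)])],[1,1,1]),([(0,1,[(5,6)])],[2,2,1,1,1,1,1,1])],[],false,1,0,[3]),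
    (false,[([(0,2,[(7,10)]),(0,15,[(7,8)])],[1,1,1]),([(0,1,[(5,6)]),(0,3,[(2,3)])],[2,1,1,1,1,1])],[],false,1,0,[2]),
    (false,[([(0,2,[(7,10)]),(0,15,[(7,8)])],[1,1,1]),([(0,1,[(5,6)]),(0,3,[(2,3)]),(0,3,[(2,2)])],[1,1,1,1])],[],false,1,0,[]),
    (false,[([(0,2,[(7,10)])],[]),([(0,0,[(7,8)]),(0,0,[(7,7)])],[3,2,2,2,2])],[],false,1,0,[]),
    (false,[([(0,2,[(7,10)]),(0,31,[(9,9)])],[1,1])],[11,5],false,2,4,[3,5]),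
    (false,[([(0,2,[(7,10)]),(0,31,[(9,9)]),(0,3,[(3,3)])],[])],[11,4],false,2,2,[3]),
    (true,[([(0,2,[(7,10)]),(0,3,[(3,3)])],[4]),([(0,10,[(9,9),(3,3)])],[1,1])],[2,2,2],false,1,0,[]),
    (false,[([(0,2,[(7,10)])],[1,1,1,1,1,1,1]),([(0,6,[(9,9)]),(0,4,[(4,5)])],[2,1,1,1,1])],[],false,1,0,[2]),
    (false,[([(0,2,[(7,10)])],[1,1,1,1,1,1,1]),([(0,6,[(9,9)]),(0,4,[(4,5)]),(0,3,[(2,2)])],[1,1,1])],[],false,1,0,[]),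
    (false,[([(0,2,[(7,10)]),(0,27,[(10,10)])],[1,1])],[11,4],false,2,3,[3,4]),
    (false,[([(0,2,[(7,10)]),(0,27,[(10,10)])],[1,1]),([(0,3,[(3,3)])],[2,2,2,1,1,1,1,1,1])],[],false,1,0,[2]),
    (true,[([(0,2,[(7,10)]),(0,3,[(3,3)])],[4]),([(0,10,[(10,10),(2,2)])],[1,1])],[2,2,2],false,1,0,[]),
    (true,[([(0,8,[(7,10),(10,10)])],[6]),([(0,12,[(4,4)])],[])],[2,2,2],false,1,0,[]),
    (true,[([(0,30,[(11,14)])],[6])],[6,5,2,2,2],false,3,5,[5,7,9]),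
    (false,[([(0,17,[(11,14)]),(0,4,[(4,5)])],[1,1,1])],[11,4],true,2,5,[3,5]),
    (true,[([(0,26,[(11,14),(3,3)])],[6]),([(0,4,[(4,5)])],[3,1,1])],[2,2],false,1,0,[3]),
    (true,[([(0,30,[(11,14)])],[6]),([(0,4,[(4,5)])],[3,1]),([(0,3,[(3,3)]),(0,3,[(2,3)])],[1,1])],[],false,1,0,[2,3]),
    (true,[([(0,30,[(11,14)])],[6]),([(0,4,[(4,5)]),(0,4,[(3,3),(2,2)])],[]),([(0,3,[(2,3)])],[2,1,1])],[],false,1,0,[2]),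
    (true,[([(0,30,[(11,14)])],[6]),([(0,4,[(4,5)]),(0,4,[(3,3),(2,2)])],[]),([(0,3,[(2,3)]),(0,3,[(2,2)])],[1])],[],false,1,0,[]),
    (false,[([(0,17,[(11,14)]),(0,4,[(4,5)])],[1,1,1]),([(0,3,[(3,3)]),(0,3,[(2,3)]),(0,3,[(3,3)])],[2,1,1,1,1])],[],false,1,0,[]),
    (true,[([(0,30,[(11,14)])],[6]),([(0,4,[(4,5)]),(0,4,[(4,5)])],[])],[5,2],false,2,2,[3]),
    (true,[([(0,26,[(11,14),(3,3)])],[6]),([(0,4,[(4,5)]),(0,4,[(4,5)])],[])],[2,2],false,1,0,[]),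
    (false,[([(0,5,[(11,14)]),(0,19,[(6,7)])],[1,1])],[11,2],true,2,3,[3,4]),
    (true,[([(0,26,[(11,14),(3,3)])],[6]),([(0,19,[(6,7)])],[4,1])],[2],false,1,0,[2]),
    (false,[([(0,5,[(11,14)]),(0,19,[(6,7)])],[1,1]),([(0,3,[(3,3)]),(0,3,[(2,2)])],[1,1,1,1,1,1,1])],[],false,1,0,[]),
    (true,[([(0,8,[(11,14),(6,7)])],[6]),([(0,12,[(4,4)])],[])],[2,2,2],false,1,0,[]),
    (false,[([(0,5,[(11,14)]),(0,31,[(8,9)])],[1])],[11,1],false,2,1,[]),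
    (true,[([(0,29,[(15,17)])],[1])],[7,4,2,2,2,2],false,3,4,[5]),
    (true,[([(0,29,[(15,17)])],[1]),([(0,4,[(4,5)])],[3])],[7,2,2],false,2,1,[]),
    (false,[([(0,13,[(18,19)])],[1,1,1,1,1,1])],[11,1],false,2,1,[])]),
  ([12,7,6,4,2,1,1,1,1,1], [
    (false,[],[12,7,6,4,2,1,1,1,1,1],false,5,5,[8,12,17,19]),
    (true,[([(0,15,[(6,8)])],[])],[10,5,4,3,3,1,1,1],false,5,3,[8]),
    (true,[([(0,15,[(6,8)])],[]),([(0,15,[(6,8)])],[2])],[10,4,3,1],true,4,2,[6,8]),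
    (true,[([(0,15,[(6,8)]),(0,1,[(5,6)])],[1,1,1]),([(0,15,[(6,8)])],[2])],[4,3,1,1],false,3,2,[5]),
    (true,[([(0,15,[(6,8)]),(0,1,[(5,6)]),(0,4,[(4,5)])],[]),([(0,15,[(6,8)])],[])],[4,3,1,1],false,2,1,[]),
    (true,[([(0,15,[(6,8)]),(0,0,[(7,8)])],[1,1,1]),([(0,15,[(6,8)])],[])],[4,3,1,1],false,3,2,[]),
    (true,[([(0,25,[(9,12)])],[])],[10,4,4,3,1,1,1],false,4,3,[6,10,11]),
    (true,[([(0,25,[(9,12)]),(0,1,[(5,6)])],[1,1])],[4,4,3,2,1,1,1],false,4,2,[6]),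
    (false,[([(0,25,[(9,12)]),(0,1,[(5,6)]),(0,1,[(5,6)])],[1])],[6,2,1,1,1],false,3,2,[]),
    (false,[([(0,25,[(9,12)]),(0,2,[(7,10)])],[1,1,1])],[7,1,1,1,1],false,2,4,[3,5]),
    (false,[([(0,25,[(9,12)]),(0,2,[(7,10)]),(0,3,[(3,3)])],[1])],[6,1,1,1,1],false,2,2,[3]),
    (true,[([(0,25,[(9,12)]),(0,1,[(3,3),(3,3)])],[1,1]),([(0,2,[(7,10)])],[])],[4,1,1],false,1,0,[]),
    (true,[([(0,25,[(9,12)]),(0,4,[(4,5)])],[1,1]),([(0,2,[(7,10)])],[])],[5,1,1],false,2,1,[]),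
    (false,[([(0,36,[(9,12),(11,11)])],[3,2,1])],[7],false,1,0,[]),
    (true,[([(0,26,[(13,17)])],[1,1,1,1])],[5,4,3,1,1,1],false,4,3,[6,7]),
    (false,[([(0,26,[(13,17)]),(0,1,[(5,6)])],[1,1,1])],[7,1,1,1],false,2,2,[3]),
    (true,[([(0,26,[(13,17)])],[1,1,1,1]),([(0,2,[(5,6),(3,3)])],[3])],[1,1],false,1,0,[]),
    (false,[([(0,26,[(13,17)]),(0,19,[(7,7)])],[4,3])],[2,1,1,1],false,1,0,[]),
    (false,[([(0,37,[(18,19)])],[3,2,2,1])],[7,2],false,2,1,[])]),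
  ([12,7,7,4,3,2,1], [
    (false,[],[12,7,7,4,3,2,1],true,6,4,[10,15,19]),
    (false,[([(0,2,[(7,10)])],[])],[12,7,7],false,2,12,[3,6,9,10]),
    (false,[([(0,2,[(7,10)]),(0,3,[(3,3)])],[1])],[12,7,3],true,3,5,[]),
    (true,[([(0,2,[(7,10)]),(0,1,[(4,6)])],[])],[6,4,3,3,1,1,1,1],false,4,4,[6]),
    (false,[([(0,2,[(7,10)]),(0,1,[(4,6)]),(0,1,[(5,6)])],[1,1])],[7,3,2],false,3,2,[6]),
    (false,[([(0,2,[(7,10)]),(0,1,[(4,6)]),(0,1,[(5,6)])],[1,1]),([(0,1,[(4,6)])],[3,1,1,1])],[],false,1,0,[3]),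
    (false,[([(0,2,[(7,10)]),(0,1,[(4,6)]),(0,3,[(2,3)])],[2,1,1]),([(0,1,[(5,6)]),(0,1,[(4,6)])],[1])],[],false,1,0,[2]),
    (false,[([(0,2,[(7,10)]),(0,1,[(4,6)]),(0,15,[(5,6),(2,2)])],[1]),([(0,1,[(4,6)]),(0,3,[(2,3)])],[1,1])],[],false,1,0,[]),
    (false,[([(0,2,[(7,10)]),(0,2,[(7,9)])],[2,1,1,1])],[7,3,1],false,1,0,[3,6,7]),
    (false,[([(0,2,[(7,10)]),(0,2,[(7,9)]),(0,3,[(2,3)])],[1,1])],[7,3,1],true,3,3,[]),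
    (true,[([(0,2,[(7,10)]),(0,1,[(4,6)])],[]),([(0,2,[(7,9)])],[3,1])],[3,1,1,1],false,2,3,[3,4]),
    (true,[([(0,2,[(7,10)]),(0,1,[(4,6)])],[]),([(0,25,[(7,9),(3,3)])],[3])],[3,1,1],false,2,1,[]),
    (true,[([(0,2,[(7,10)]),(0,1,[(4,6)])],[]),([(0,2,[(7,9)])],[3,1]),([(0,4,[(4,4)])],[])],[1],false,1,0,[]),
    (true,[([(0,2,[(7,10)])],[3,1]),([(0,32,[(7,9),(7,7)])],[4])],[1,1],false,1,0,[]),
    (true,[([(0,2,[(7,10)])],[3]),([(0,27,[(10,10)])],[2])],[7,3,1],false,3,1,[4]),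
    (false,[([(0,8,[(7,10),(10,10)]),(0,12,[(4,4)])],[1,1,1,1])],[7],false,1,0,[]),
    (true,[([(0,5,[(11,15)])],[4])],[7,3,3,1,1,1,1],false,3,4,[5,8,9]),
    (true,[([(0,5,[(11,15)])],[4]),([(0,4,[(4,5)])],[])],[7,3,1,1],false,3,2,[5]),
    (true,[([(0,5,[(11,15)])],[4]),([(0,4,[(4,5)]),(0,4,[(4,5)])],[3])],[1,1,1,1],false,1,0,[3]),
    (true,[([(0,5,[(11,15)])],[4]),([(0,4,[(4,5)]),(0,3,[(2,3)])],[2,1]),([(0,4,[(4,5)])],[])],[1],false,1,0,[2]),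
    (true,[([(0,5,[(11,15)])],[4]),([(0,4,[(4,5)]),(0,3,[(2,3)]),(0,3,[(2,2)])],[]),([(0,4,[(4,5)])],[])],[1],false,1,0,[]),
    (false,[([(0,5,[(11,15)]),(0,15,[(6,8)])],[2,1,1])],[7,2],true,2,3,[3,4]),
    (false,[([(0,5,[(11,15)]),(0,15,[(6,8)]),(0,3,[(3,3)])],[1])],[7,2],false,2,1,[]),
    (false,[([(0,5,[(11,15)]),(0,15,[(6,8)])],[2,1,1]),([(0,12,[(4,4)])],[1,1,1,1,1])],[],false,1,0,[]),
    (false,[([(0,5,[(11,15)]),(0,31,[(9,9)])],[2,2])],[7,1],false,1,0,[]),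
    (true,[([(0,7,[(16,19)])],[5])],[5,3,1,1,1,1],false,3,3,[4]),
    (true,[([(0,7,[(16,19)])],[5]),([(0,12,[(4,4)])],[2,1,1])],[1,1,1,1],false,1,0,[])]),
  ([12,8,7,6,2,1], [
    (false,[],[12,8,7,6,2,1],true,5,4,[8,12,15,19]),
    (true,[([(0,15,[(6,8)])],[])],[6,5,4,4,4,3,1,1],false,4,5,[6,8]),
    (true,[([(0,15,[(6,8)])],[]),([(0,1,[(5,6)])],[2])],[6,5,4,4,1],false,3,6,[4,5,6]),
    (true,[([(0,15,[(6,8)]),(0,12,[(4,4)])],[]),([(0,1,[(5,6)])],[2,2])],[4,4,3,2,1],true,4,2,[]),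
    (true,[([(0,15,[(6,8)])],[]),([(0,25,[(5,6),(5,5)])],[3])],[5,4,4],false,2,5,[4,5]),
    (true,[([(0,15,[(6,8)])],[]),([(0,5,[(5,6),(5,5),(3,4)])],[4])],[4,4,1],true,2,3,[3,4]),
    (true,[([(0,15,[(6,8)])],[]),([(0,5,[(5,6),(5,5),(3,4)])],[4]),([(0,3,[(3,3)])],[1,1])],[4],false,1,0,[2]),
    (false,[([(0,2,[(6,8),(2,2)]),(0,2,[(5,6),(3,4)]),(0,4,[(5,5)])],[3]),([(0,3,[(3,3)])],[1,1,1,1,1])],[],false,1,0,[]),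
    (true,[([(0,15,[(6,8)]),(0,12,[(4,4)])],[]),([(0,5,[(5,6),(5,5),(3,4)])],[])],[4,4,1],false,1,0,[]),
    (true,[([(0,15,[(6,8)])],[]),([(0,1,[(5,6)])],[2]),([(0,2,[(5,5),(5,5)])],[3,3])],[4],false,1,0,[2]),
    (false,[([(0,5,[(6,8),(5,5),(2,2)]),(0,1,[(5,6)]),(0,4,[(5,5)])],[3])],[7],false,1,0,[]),
    (true,[([(0,5,[(6,8),(6,6)])],[]),([(0,1,[(5,6)])],[2,2,1])],[4,4,1,1],true,2,4,[3,5]),
    (true,[([(0,26,[(6,8),(6,6),(3,3)])],[]),([(0,1,[(5,6)])],[2,2])],[4,4,1],true,2,2,[3]),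
    (true,[([(0,26,[(6,8),(6,6),(3,3)])],[]),([(0,1,[(5,6)])],[2,2]),([(0,3,[(3,3)])],[1,1])],[4],false,1,0,[]),
    (false,[([(0,15,[(6,8)]),(0,1,[(5,6)]),(0,11,[(6,6),(4,5)])],[3])],[7,1],false,2,1,[]),
    (true,[([(0,15,[(6,8)])],[]),([(0,0,[(7,8)])],[3])],[6,5,4,1,1],false,4,2,[6,8]),
    (true,[([(0,15,[(6,8)])],[]),([(0,5,[(7,8),(5,6)])],[4])],[4,4,1],true,2,3,[3,4]),
    (false,[([(0,15,[(6,8)]),(0,11,[(7,8),(3,3)]),(0,1,[(5,6)])],[3])],[7,1],false,2,1,[]),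
    (true,[([(0,15,[(6,8)]),(0,12,[(4,4)])],[]),([(0,5,[(7,8),(5,6)])],[])],[4,4,1],false,1,0,[]),
    (true,[([(0,15,[(6,8)])],[]),([(0,15,[(7,8)])],[2,2]),([(0,0,[(7,8)])],[3])],[5],false,1,0,[2]),
    (true,[([(0,2,[(6,8),(2,2)])],[2]),([(0,15,[(7,8)])],[2,2]),([(0,0,[(7,8)])],[3])],[1],false,1,0,[]),
    (true,[([(0,25,[(9,12)])],[2])],[5,4,4,4,3,1,1],false,3,5,[5,6,8,11]),
    (true,[([(0,25,[(9,12)])],[2]),([(0,4,[(4,5)])],[1])],[5,4,4,3],false,3,3,[4,5]),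
    (true,[([(0,25,[(9,12)])],[2]),([(0,1,[(4,5)]),(0,12,[(4,4)])],[])],[4,4,3,1],true,3,2,[4]),
    (true,[([(0,25,[(9,12)])],[]),([(0,4,[(4,5)]),(0,12,[(4,4)])],[2]),([(0,12,[(4,4)])],[2,2])],[4,1],false,2,1,[]),
    (true,[([(0,26,[(9,12),(5,5)])],[]),([(0,4,[(4,5)])],[1])],[5,4,4],false,2,3,[3,4]),
    (true,[([(0,26,[(9,12),(5,5)])],[]),([(0,4,[(4,5)])],[1]),([(0,3,[(3,3)])],[2,2,2])],[4],false,1,0,[2]),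
    (true,[([(0,5,[(9,12),(3,3)])],[]),([(0,4,[(4,5)])],[3,3,3]),([(0,19,[(5,5),(2,2)])],[])],[],false,1,0,[]),
    (true,[([(0,8,[(9,12),(5,5),(4,4)])],[]),([(0,4,[(4,5)])],[1])],[4,4,1],false,1,0,[]),
    (true,[([(0,25,[(9,12)])],[2]),([(0,1,[(6,6)])],[2,2])],[4,4,3,1],true,3,2,[5,6]),
    (true,[([(0,25,[(9,12)])],[2]),([(0,11,[(6,6),(4,5)])],[3])],[4,3,1],false,3,1,[]),
    (true,[([(0,25,[(9,12)])],[]),([(0,22,[(6,6),(6,6)])],[3])],[4,4],false,1,0,[]),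
    (true,[([(0,25,[(9,12)])],[2]),([(0,0,[(7,8)])],[3])],[5,4,1,1],false,3,2,[5]),
    (false,[([(0,25,[(9,12)]),(0,0,[(7,8)]),(0,4,[(4,5)])],[4])],[7],false,1,0,[2]),
    (true,[([(0,25,[(9,12)])],[3]),([(0,0,[(7,8)]),(0,3,[(2,2)])],[]),([(0,4,[(4,5)])],[1])],[4],false,1,0,[]),
    (true,[([(0,25,[(9,12)])],[2]),([(0,11,[(9,11)])],[3])],[4,3,1],false,3,1,[]),
    (true,[([(0,5,[(13,15)])],[])],[6,4,4,4,1,1,1],false,3,3,[6,7]),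
    (true,[([(0,8,[(13,15),(4,6)])],[])],[4,4,4,1,1,1],false,2,3,[3,4]),
    (true,[([(0,8,[(13,15),(4,6)])],[]),([(0,3,[(3,3)])],[1,1])],[4,4,1,1],false,2,1,[]),
    (true,[([(0,8,[(13,15),(4,6)])],[]),([(0,12,[(4,4)])],[2,2])],[4,1,1,1],false,1,0,[]),
    (false,[([(0,18,[(13,15),(7,7)])],[4,4,3,1,1,1])],[],false,1,0,[]),
    (true,[([(0,24,[(16,19)])],[])],[5,4,4,2,1,1],false,4,2,[])]),
  ([12,11,6,5,2,1], [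
    (false,[],[12,11,6,5,2,1],true,5,4,[8,12,15,19]),
    (true,[([(0,15,[(6,8)])],[3])],[6,4,4,4,2,2,2,2],false,3,6,[6,8]),
    (false,[([(0,15,[(6,8)]),(0,1,[(4,6)])],[2,1,1,1])],[12,6],false,1,0,[3,6]),
    (false,[([(0,15,[(6,8)]),(0,1,[(4,6)]),(0,3,[(2,3)])],[1,1])],[12,6],false,1,0,[2,3]),
    (true,[([(0,2,[(6,8),(2,2)]),(0,3,[(2,3)])],[]),([(0,1,[(4,6)])],[3])],[5,4,2,2,2],false,1,0,[2]),
    (true,[([(0,2,[(6,8),(2,2)])],[]),([(0,1,[(4,6)]),(1,0,[(2,3),(2,2)])],[])],[5,4,2,2,2],false,2,7,[]),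
    (false,[([(0,15,[(6,8)]),(0,1,[(4,6)]),(0,3,[(2,3)]),(0,3,[(3,3)])],[])],[12,5],true,2,7,[3]),
    (true,[([(0,15,[(6,8)])],[4,2]),([(0,1,[(4,6)])],[1]),([(1,1,[(2,3),(3,3),(3,3)])],[4])],[2],false,1,0,[2,3]),
    (true,[([(0,2,[(6,8),(2,2)])],[]),([(0,1,[(4,6)]),(0,1,[(2,3),(3,3)])],[]),([(0,3,[(3,3)])],[2,1])],[5,2,2],false,2,4,[]),
    (true,[([(0,15,[(6,8)])],[4]),([(0,1,[(4,6)]),(0,1,[(2,3),(3,3)])],[]),([(0,3,[(3,3)]),(0,3,[(3,3)])],[])],[4,2,1],false,3,1,[]),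
    (true,[([(0,15,[(6,8)])],[3]),([(0,1,[(4,6)]),(0,1,[(4,6)])],[])],[4,4,2,2,2],false,1,0,[2,3,4,5,6]),
    (true,[([(0,2,[(6,8),(2,2)])],[]),([(0,1,[(4,6)]),(0,1,[(4,6)])],[])],[5,4,2,2,2],false,2,6,[]),
    (true,[([(0,15,[(6,8)])],[3]),([(0,1,[(4,6)]),(0,1,[(4,6)])],[]),([(0,3,[(3,3)])],[2,1])],[4,2,2],false,1,0,[2,3]),
    (true,[([(0,2,[(6,8),(2,2)])],[]),([(0,1,[(4,6)]),(0,1,[(4,6)])],[]),([(0,3,[(3,3)])],[2,1])],[5,2,2],false,2,4,[]),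
    (true,[([(0,15,[(6,8)])],[4]),([(0,1,[(4,6)]),(0,1,[(4,6)])],[]),([(0,3,[(3,3)]),(0,3,[(3,3)])],[])],[4,2,1],false,3,1,[]),
    (true,[([(0,15,[(6,8)])],[3]),([(0,1,[(4,6)]),(0,1,[(4,6)])],[]),([(0,12,[(4,4)])],[])],[4,4,2],true,2,4,[3,4]),
    (true,[([(0,5,[(6,8),(4,4),(3,3)])],[]),([(0,1,[(4,6)]),(0,1,[(4,6)])],[])],[4,2,2,2],false,2,2,[3]),
    (true,[([(0,5,[(6,8),(4,4),(3,3)])],[]),([(0,1,[(4,6)]),(0,1,[(4,6)])],[]),([(0,3,[(3,3)])],[2,1])],[2,2],false,1,0,[]),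
    (true,[([(0,15,[(6,8)])],[4]),([(0,1,[(4,6)]),(0,1,[(4,6)])],[]),([(0,12,[(4,4)]),(0,12,[(4,4)])],[])],[2,2,1],false,2,1,[]),
    (true,[([(0,15,[(6,8)])],[3]),([(0,1,[(4,6)]),(0,1,[(4,6)])],[]),([(0,4,[(5,5)])],[3])],[4,2],false,1,0,[3,4]),
    (true,[([(0,15,[(6,8)])],[3]),([(0,1,[(4,6)]),(0,1,[(4,6)])],[]),([(0,4,[(5,5)])],[3]),([(0,3,[(2,3)])],[2,1])],[],false,1,0,[3]),
    (true,[([(0,15,[(6,8)])],[3]),([(0,1,[(4,6)]),(0,1,[(4,6)])],[]),([(0,4,[(5,5)])],[3]),([(0,3,[(2,3)]),(0,3,[(2,3)])],[])],[],false,1,0,[2]),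
    (true,[([(0,5,[(6,8),(5,5),(2,2)])],[]),([(0,1,[(4,6)]),(0,1,[(4,6)])],[]),([(0,3,[(2,3)]),(0,3,[(2,3)])],[])],[2,2],false,1,0,[]),
    (true,[([(0,15,[(6,8)])],[3]),([(0,1,[(4,6)]),(0,1,[(4,6)])],[]),([(0,4,[(5,5)])],[3]),([(0,12,[(4,4)])],[1,1])],[],false,1,0,[]),
    (true,[([(0,17,[(6,8),(6,6)])],[]),([(0,1,[(4,6)]),(0,1,[(4,6)])],[])],[4,3,2,2],false,3,2,[]),
    (true,[([(0,15,[(6,8)])],[4]),([(0,0,[(7,8)])],[2])],[6,4,2,2,1],true,4,2,[7,8]),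
    (true,[([(0,15,[(6,8)])],[4,2]),([(0,5,[(7,8),(5,7)])],[])],[4,2,2],false,2,3,[3,4]),
    (true,[([(0,15,[(6,8)])],[4,2]),([(0,5,[(7,8),(5,7)])],[]),([(0,3,[(3,3)])],[2,1])],[2],false,1,0,[2]),
    (true,[([(0,15,[(6,8)])],[4,2]),([(0,5,[(7,8),(5,7)])],[]),([(0,4,[(3,3),(2,2)])],[3])],[],false,1,0,[]),
    (true,[([(0,15,[(6,8)])],[4,2]),([(0,5,[(7,8),(5,7)])],[]),([(0,12,[(4,4)])],[])],[4],false,1,0,[]),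
    (true,[([(0,15,[(6,8)])],[4,2]),([(0,14,[(7,8),(8,8)])],[])],[2,2,2],false,1,0,[]),
    (true,[([(0,25,[(9,12)])],[4])],[5,4,4,2,2,2,2],false,3,5,[4,5,6,8,11]),
    (true,[([(0,25,[(9,12)])],[4]),([(0,12,[(4,4)])],[])],[5,4,4,2,2],false,3,4,[4]),
    (true,[([(0,25,[(9,12)])],[5]),([(0,12,[(4,4)]),(0,12,[(4,4)])],[])],[5,2,2,2,1],true,3,3,[4]),
    (true,[([(0,25,[(9,12)])],[4]),([(0,12,[(4,4)]),(0,12,[(4,4)])],[]),([(0,12,[(4,4)])],[])],[5,2,2],false,2,1,[]),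
    (true,[([(0,25,[(9,12)])],[4]),([(0,4,[(5,5)])],[3])],[5,4,2,2],false,3,4,[5]),
    (true,[([(0,25,[(9,12)])],[5]),([(0,2,[(5,5),(4,5)])],[2])],[4,2,2],false,2,3,[3,4]),
    (true,[([(0,5,[(9,12),(3,3)])],[]),([(0,4,[(5,5)]),(0,4,[(4,5)])],[])],[4,4,2,2],false,2,1,[]),
    (true,[([(0,8,[(9,12),(5,5),(4,4)])],[]),([(0,4,[(4,5)])],[3])],[4,2,2],false,1,0,[]),
    (true,[([(0,25,[(9,12)])],[5]),([(0,1,[(6,6)])],[1])],[5,4,2,2],false,3,4,[6]),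
    (true,[([(0,25,[(9,12)])],[5]),([(0,1,[(6,6)])],[1]),([(0,1,[(4,6)])],[3,2])],[2],false,1,0,[2,3]),
    (true,[([(0,25,[(9,12)])],[5]),([(0,0,[(6,6),(2,2)])],[2]),([(0,1,[(4,6)])],[1,1])],[2],false,1,0,[2]),
    (true,[([(0,25,[(9,12)])],[5]),([(0,0,[(6,6),(2,2)]),(0,3,[(2,2)])],[]),([(0,1,[(4,6)])],[1])],[2],false,1,0,[]),
    (true,[([(0,5,[(9,12),(3,3)])],[]),([(0,1,[(6,6)]),(0,1,[(4,6)])],[])],[4,2,2,2],false,1,0,[]),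
    (true,[([(0,25,[(9,12)])],[5]),([(0,0,[(7,8)])],[2])],[5,2,2,1],true,3,3,[5]),
    (true,[([(0,25,[(9,12)])],[4]),([(0,0,[(7,8)])],[2]),([(0,4,[(4,5)])],[3,1])],[2],false,1,0,[2]),
    (true,[([(0,25,[(9,12)])],[5]),([(0,2,[(7,8),(2,2)])],[2]),([(0,4,[(4,5)])],[3])],[],false,1,0,[]),
    (true,[([(0,25,[(9,12)])],[5]),([(0,11,[(9,11)])],[4])],[2,2,1],true,2,2,[3]),
    (true,[([(0,5,[(9,12),(3,3)])],[]),([(0,11,[(9,11)])],[4,1])],[2,2,2],false,1,0,[]),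
    (true,[([(0,5,[(13,15)])],[])],[6,4,4,2,2,2,2],false,3,6,[6,7]),
    (true,[([(0,8,[(13,15),(4,6)])],[])],[4,4,2,2,2,2],false,2,3,[3,4]),
    (true,[([(0,8,[(13,15),(4,6)])],[]),([(0,3,[(3,3)])],[2,1])],[4,2,2,2],false,2,1,[]),
    (false,[([(0,8,[(13,15),(4,6)]),(0,12,[(4,4)])],[4,4,2,2])],[],false,1,0,[]),
    (false,[([(0,18,[(13,15),(7,7)])],[4,3,2,2,2,2])],[],false,1,0,[]),
    (true,[([(0,13,[(16,19)])],[1])],[4,4,2,2,2,2,1],false,3,1,[4]),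
    (false,[([(0,7,[(16,19)]),(0,12,[(4,4)])],[4,4,4,2])],[],false,1,0,[])])]

theorem cj6e_8_ok : runAllJ S40 R40 F40 18 cj6e_8 = true := by decide +kernel

noncomputable def cj6e_9 : List (List ℕ × List NdJ) := [
  ([12,11,7,3,2,1], [
    (false,[],[12,11,7,3,2,1],true,5,5,[8,12,15,19]),
    (false,[([(0,15,[(6,8)])],[3,1,1])],[12,11],false,1,0,[3,5,7,8]),
    (false,[([(0,15,[(6,8)]),(0,3,[(2,3)])],[3,2,2,2,1])],[12,3],false,1,0,[2,3]),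
    (true,[([(0,2,[(6,8),(2,2)]),(0,3,[(2,3)])],[])],[5,3,3,3,3,2,2,2],false,2,11,[]),
    (false,[([(0,15,[(6,8)]),(0,1,[(2,3),(3,3)])],[2,2,2,1])],[12,3],false,1,0,[2,3]),
    (true,[([(0,2,[(6,8),(2,2)]),(0,3,[(2,3)])],[]),([(0,3,[(3,3)])],[2])],[5,3,3,3,2,2],false,2,9,[]),
    (true,[([(0,15,[(6,8)])],[3]),([(0,3,[(2,3)]),(0,3,[(3,3)]),(0,3,[(3,3)])],[])],[4,3,3,2,2,2],false,3,4,[]),
    (false,[([(0,15,[(6,8)]),(0,4,[(4,5)])],[])],[12,11],false,2,10,[3,5]),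
    (false,[([(0,15,[(6,8)]),(0,15,[(4,5),(3,3)])],[3,2,2])],[12,1],false,1,0,[3]),
    (true,[([(0,15,[(6,8)])],[3]),([(0,4,[(4,5)]),(0,1,[(3,3),(2,3)])],[])],[4,3,3,2,2],false,3,4,[]),
    (true,[([(0,15,[(6,8)])],[3]),([(0,4,[(4,5)]),(0,1,[(4,5)])],[])],[4,3,3,2,2],false,3,4,[4,5]),
    (true,[([(0,15,[(6,8)])],[3]),([(0,4,[(4,5)]),(0,4,[(4,5)])],[]),([(0,12,[(4,4)])],[2])],[4,3,2],false,3,2,[4]),
    (true,[([(0,25,[(6,8),(4,4)])],[5]),([(0,2,[(4,5),(4,5)])],[1]),([(0,12,[(4,4)])],[1])],[3],false,1,0,[2]),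
    (true,[([(0,2,[(6,8),(2,2)])],[]),([(0,2,[(4,5),(4,5)])],[4,2]),([(0,12,[(4,4)])],[]),([(0,12,[(4,4)])],[2])],[],false,1,0,[]),
    (true,[([(0,15,[(6,8)])],[4]),([(0,4,[(4,5)]),(0,1,[(4,5)])],[]),([(0,1,[(5,5)])],[])],[4,3],false,2,3,[4]),
    (true,[([(0,15,[(6,8)])],[4]),([(0,4,[(4,5)]),(0,1,[(4,5)])],[]),([(0,2,[(5,5),(3,4)])],[])],[3],false,1,0,[2]),
    (true,[([(0,15,[(6,8)])],[4]),([(0,2,[(4,5),(4,5)])],[]),([(0,4,[(5,5)]),(0,1,[(3,4),(2,2)])],[])],[3],false,1,0,[]),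
    (true,[([(0,5,[(6,8),(6,7)])],[])],[6,3,3,3,2,2,2],false,3,6,[5,7]),
    (true,[([(0,5,[(6,8),(6,7)])],[]),([(0,4,[(4,5)])],[3,1,1])],[3,3,3,2],false,1,0,[3,5]),
    (true,[([(0,5,[(6,8),(6,7)])],[]),([(0,4,[(4,5)]),(0,3,[(2,3)])],[3])],[3,3,2,2],false,2,4,[3]),
    (true,[([(0,5,[(6,8),(6,7)])],[]),([(0,4,[(4,5)]),(0,1,[(2,3),(3,3)])],[])],[3,3,2,2],false,2,2,[3]),
    (true,[([(0,5,[(6,8),(6,7)])],[]),([(0,4,[(4,5)]),(0,1,[(2,3),(3,3)])],[]),([(0,3,[(3,3)])],[2])],[3,2],false,1,0,[]),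
    (true,[([(0,5,[(6,8),(6,7)])],[]),([(0,4,[(4,5)]),(0,4,[(4,5)])],[])],[3,3,3,2],false,2,2,[3]),
    (true,[([(0,5,[(6,8),(6,7)])],[]),([(0,4,[(4,5)]),(0,4,[(4,5)])],[]),([(0,3,[(3,3)])],[2])],[3,3],false,1,0,[]),
    (true,[([(0,5,[(6,8),(6,7)])],[]),([(0,19,[(6,7)])],[4,3])],[3,2,2],false,2,3,[3,4]),
    (true,[([(0,5,[(6,8),(6,7)])],[]),([(0,27,[(6,7),(3,3)])],[5])],[3,3],false,1,0,[2]),
    (true,[([(0,2,[(6,8),(2,2)])],[]),([(0,17,[(6,7),(6,7)])],[5]),([(0,3,[(3,3)])],[2])],[2],false,1,0,[]),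
    (true,[([(0,5,[(6,8),(6,7)])],[]),([(0,19,[(6,7)])],[4,1]),([(0,12,[(4,4)])],[2])],[3],false,1,0,[]),
    (true,[([(0,15,[(6,8)])],[4]),([(0,0,[(8,8)])],[])],[6,4,3,2,1],false,5,1,[7]),
    (true,[([(0,5,[(6,8),(6,7)])],[]),([(0,15,[(8,8)])],[4,1])],[3,3,2],false,2,1,[]),
    (true,[([(0,25,[(9,12)])],[4])],[5,3,3,3,2,2,2],false,3,5,[4,5,6,8,11]),
    (true,[([(0,25,[(9,12)])],[5]),([(0,12,[(4,4)])],[1])],[5,3,3,2,1],true,4,2,[]),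
    (true,[([(0,25,[(9,12)])],[5]),([(0,1,[(5,5)])],[])],[5,3,3,2],false,2,6,[3,4,5]),
    (true,[([(0,5,[(9,12),(3,3)])],[]),([(0,4,[(5,5)])],[3,2,1])],[3,3,2,2],false,2,4,[3]),
    (true,[([(0,5,[(9,12),(3,3)])],[]),([(0,15,[(5,5),(3,3)])],[4,1])],[3,3,2],false,2,2,[3]),
    (true,[([(0,5,[(9,12),(3,3)])],[]),([(0,15,[(5,5),(3,3)])],[4,1]),([(0,3,[(3,3)])],[2])],[3],false,1,0,[]),
    (true,[([(0,8,[(9,12),(5,5),(4,4)])],[])],[3,3,3,2,2,2],false,2,3,[3,4]),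
    (true,[([(0,8,[(9,12),(5,5),(4,4)])],[]),([(0,3,[(3,3)])],[2])],[3,3,2,2],false,2,1,[]),
    (false,[([(0,8,[(9,12),(5,5),(4,4)]),(0,12,[(4,4)])],[3,3,3,2])],[],false,1,0,[]),
    (true,[([(0,25,[(9,12)])],[5]),([(0,2,[(5,5),(5,5)])],[1])],[3,3,2],false,2,2,[3]),
    (true,[([(0,5,[(9,12),(3,3)])],[]),([(0,27,[(5,5),(5,5)])],[5])],[3,3],false,1,0,[]),
    (true,[([(0,25,[(9,12)])],[5]),([(0,1,[(6,6)])],[])],[5,3,3,2],false,3,2,[5,6]),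
    (true,[([(0,25,[(9,12)])],[5]),([(0,11,[(6,6),(4,5)])],[1])],[3,2,2],false,2,2,[3]),
    (true,[([(0,25,[(9,12)])],[5]),([(0,11,[(6,6),(4,5)])],[1]),([(0,3,[(3,3)])],[2])],[2],false,1,0,[]),
    (true,[([(0,25,[(9,12)])],[5]),([(0,1,[(6,6)])],[]),([(0,1,[(6,6)])],[3,1])],[3],false,1,0,[]),
    (true,[([(0,25,[(9,12)])],[5]),([(0,0,[(7,8)])],[])],[5,3,2,1],false,4,1,[5]),
    (true,[([(0,25,[(9,12)])],[4]),([(0,0,[(7,8)])],[]),([(0,4,[(5,5)])],[3,1])],[3],false,1,0,[]),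
    (true,[([(0,25,[(9,12)])],[5]),([(0,11,[(9,11)])],[1])],[3,2,2],false,2,2,[3]),
    (true,[([(0,25,[(9,12)])],[5]),([(0,11,[(9,11)])],[1]),([(0,3,[(3,3)])],[2])],[2],false,1,0,[]),
    (true,[([(0,5,[(13,15)])],[])],[6,3,3,3,2,2,2],false,3,6,[6,7]),
    (true,[([(0,8,[(13,15),(4,6)])],[])],[3,3,3,2,2,2],false,2,3,[4]),
    (true,[([(0,7,[(13,15),(3,4)])],[]),([(0,1,[(4,6)])],[3])],[3,3,2],false,2,1,[]),
    (true,[([(0,5,[(13,15)])],[]),([(0,19,[(7,7)])],[4,1])],[3,3,3],false,1,0,[]),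
    (true,[([(0,7,[(16,19)])],[])],[4,3,3,3,2,2],false,3,3,[4]),
    (false,[([(0,7,[(16,19)]),(0,12,[(4,4)])],[4,3,3,3])],[],false,1,0,[])]),
  ([12,11,8,3,2,1], [
    (false,[],[12,11,8,3,2,1],true,5,5,[8,11,15,19]),
    (true,[([(0,15,[(6,8)])],[3])],[6,4,3,3,3,3,2,2],false,4,4,[6,8]),
    (true,[([(0,15,[(6,8)])],[4]),([(0,1,[(5,6)])],[])],[6,4,3,3,3],false,3,4,[4,5,6]),
    (true,[([(0,15,[(6,8)])],[4]),([(0,1,[(5,6)])],[]),([(0,12,[(4,4)])],[2])],[6,4,3],false,3,3,[4]),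
    (true,[([(0,15,[(6,8)])],[3]),([(0,1,[(5,6)]),(0,4,[(4,4)])],[]),([(0,12,[(4,4)])],[2])],[4,3,2],false,3,2,[4]),
    (true,[([(0,25,[(6,8),(4,4)])],[5]),([(0,2,[(5,6),(4,4)])],[1]),([(0,12,[(4,4)])],[2])],[3],false,1,0,[]),
    (true,[([(0,15,[(6,8)])],[3]),([(0,1,[(5,6)]),(0,4,[(5,5)])],[])],[4,3,3,3,2],false,3,2,[4,5]),
    (true,[([(0,15,[(6,8)])],[3]),([(0,1,[(5,6)]),(0,4,[(5,5)])],[]),([(0,12,[(4,4)])],[2])],[4,3,2],false,3,2,[]),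
    (true,[([(0,15,[(6,8)])],[3]),([(0,1,[(5,6)]),(0,4,[(5,5)])],[]),([(0,1,[(5,5)])],[3])],[3,3],false,1,0,[2]),
    (true,[([(0,5,[(6,8),(5,5),(2,2)])],[]),([(0,1,[(5,6)]),(0,4,[(5,5)])],[])],[3,3,3,2],false,1,0,[]),
    (true,[([(0,17,[(6,8),(6,6)])],[5]),([(0,1,[(5,6)])],[])],[4,3,3,2],false,3,2,[5]),
    (true,[([(0,5,[(6,8),(6,6)])],[]),([(0,1,[(5,6)]),(0,4,[(4,5)])],[])],[3,3,3,2],false,2,1,[]),
    (true,[([(0,15,[(6,8)])],[3]),([(0,0,[(7,8)])],[])],[6,4,3,3,2],false,4,2,[6,8]),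
    (true,[([(0,15,[(6,8)])],[3]),([(0,0,[(7,8)])],[]),([(0,1,[(5,6)])],[3])],[6,3],false,2,3,[4]),
    (true,[([(0,15,[(6,8)])],[3]),([(0,0,[(7,8)])],[]),([(0,2,[(5,6),(3,4)])],[4,1])],[3],false,1,0,[2]),
    (true,[([(0,2,[(6,8),(2,2)])],[]),([(0,0,[(7,8)])],[]),([(0,2,[(5,6),(3,4)])],[4,2])],[3],false,1,0,[]),
    (true,[([(0,15,[(6,8)])],[3]),([(0,0,[(7,8)])],[]),([(0,0,[(7,8)])],[])],[6,4],false,2,1,[]),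
    (true,[([(0,11,[(9,11)])],[])],[6,5,3,3,3,2,2,2],false,4,5,[6,9,11]),
    (true,[([(0,11,[(9,11)])],[]),([(0,1,[(5,6)])],[3,1])],[6,3,3,2,2],false,3,4,[6]),
    (true,[([(0,11,[(9,11)])],[1]),([(0,1,[(5,6)]),(0,1,[(4,6)])],[])],[3,3,3,2,2],false,2,3,[3,4]),
    (true,[([(0,11,[(9,11)])],[1]),([(0,1,[(5,6)]),(0,1,[(4,6)])],[]),([(0,3,[(3,3)])],[2])],[3,3,2],false,2,1,[]),
    (true,[([(0,11,[(9,11)])],[1]),([(0,1,[(5,6)]),(0,1,[(4,6)])],[]),([(0,12,[(4,4)])],[])],[3,3,3],false,1,0,[]),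
    (true,[([(0,11,[(9,11)])],[]),([(0,2,[(7,9)])],[4,2])],[3,3,2,2],false,2,4,[3,4,5]),
    (true,[([(0,17,[(9,11),(3,3)])],[5]),([(0,2,[(7,9)])],[])],[3,3,2],false,2,2,[3]),
    (true,[([(0,17,[(9,11),(3,3)])],[5]),([(0,2,[(7,9)])],[]),([(0,3,[(3,3)])],[2])],[3],false,1,0,[]),
    (true,[([(0,11,[(9,11)])],[]),([(0,2,[(7,9)])],[4,2]),([(0,12,[(4,4)])],[1])],[3,2],false,2,1,[]),
    (true,[([(0,11,[(9,11)])],[]),([(0,17,[(7,9),(5,5)])],[5])],[3,2,2],false,1,0,[]),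
    (true,[([(0,11,[(9,11)])],[1]),([(0,25,[(10,11)])],[5])],[3,3,2],false,2,1,[]),
    (true,[([(0,5,[(12,15)])],[])],[6,3,3,3,3,2,2],false,3,4,[5,7,8]),
    (true,[([(0,5,[(12,15)])],[]),([(0,4,[(4,5)])],[3,3,1])],[3,3,2,2],false,2,4,[3,5]),
    (true,[([(0,5,[(12,15)])],[]),([(0,4,[(4,5)]),(0,3,[(3,3)])],[3])],[3,3,3,2],false,2,2,[3]),
    (true,[([(0,5,[(12,15)])],[]),([(0,4,[(4,5)]),(0,1,[(3,3),(3,3)])],[])],[3,3,3,2],false,1,0,[]),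
    (true,[([(0,5,[(12,15)])],[]),([(0,4,[(4,5)]),(0,1,[(4,5)])],[])],[3,3,3,2],false,2,1,[]),
    (true,[([(0,5,[(12,15)])],[]),([(0,19,[(6,7)])],[4,3])],[3,3,2],false,2,2,[3]),
    (true,[([(0,5,[(12,15)])],[]),([(0,19,[(6,7)])],[4,3]),([(0,3,[(3,3)])],[2])],[3],false,1,0,[]),
    (true,[([(0,5,[(12,15)])],[]),([(0,15,[(8,8)])],[4,1])],[3,3,3],false,1,0,[]),
    (true,[([(0,7,[(16,19)])],[])],[4,3,3,3,3,2],false,3,2,[4]),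
    (true,[([(0,7,[(16,19)])],[]),([(0,12,[(4,4)])],[1])],[4,3,3,3],false,1,0,[])]),
  ([13,5,4,3,2,2,2,2,2,1], [
    (false,[],[13,5,4,3,2,2,2,2,2,1],false,5,4,[8,12,16,19]),
    (true,[([(0,15,[(6,8)])],[])],[10,9,3,1,1,1,1,1,1],false,3,9,[5,8]),
    (true,[([(0,15,[(6,8)]),(0,4,[(4,5)])],[1,1])],[10,4,1,1,1,1,1,1,1],true,3,6,[5]),
    (true,[([(0,15,[(6,8)]),(0,4,[(4,5)]),(0,4,[(4,5)])],[])],[9,2,1,1,1,1,1,1,1],false,2,7,[3,4,5]),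
    (false,[([(0,15,[(6,8)]),(0,15,[(4,5),(3,3)]),(0,4,[(4,5)])],[1,1])],[4,2,2,2,2,1],true,3,2,[]),
    (false,[([(0,15,[(6,8)]),(0,2,[(4,5),(4,5)])],[1,1,1,1,1]),([(0,12,[(4,4)])],[])],[4,2,2,1],true,3,2,[4]),
    (false,[([(0,15,[(6,8)]),(0,2,[(4,5),(4,5)])],[1,1,1,1,1]),([(0,12,[(4,4)])],[]),([(0,12,[(4,4)])],[])],[4,1],false,2,1,[]),
    (false,[([(0,15,[(6,8)]),(0,27,[(4,5),(5,5)]),(0,4,[(4,5)])],[1])],[4,2,2,2,2],false,2,3,[3,4]),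
    (false,[([(0,15,[(6,8)]),(0,27,[(4,5),(5,5)]),(0,3,[(3,3)])],[1,1]),([(0,4,[(4,5)])],[3])],[3,2],false,2,1,[]),
    (false,[([(0,15,[(6,8)]),(0,2,[(4,5),(4,5)])],[1,1,1,1,1]),([(0,4,[(5,5)])],[2]),([(0,12,[(4,4)])],[])],[2],false,1,0,[]),
    (false,[([(0,15,[(6,8)]),(0,15,[(6,8)])],[1,1,1,1,1])],[5,3,2,2,2,1],false,1,0,[3,5,7,8]),
    (false,[([(0,15,[(6,8)]),(0,15,[(6,8)]),(0,3,[(2,3)])],[1,1,1])],[4,3,2,2,2,1],false,3,4,[]),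
    (false,[([(0,15,[(6,8)]),(0,15,[(6,8)]),(0,4,[(4,5)])],[1,1])],[4,2,2,2,2,1],true,3,2,[5]),
    (false,[([(0,15,[(6,8)]),(0,15,[(6,8)]),(0,4,[(4,5)])],[1,1]),([(0,4,[(4,5)])],[3])],[2,2,1],true,2,2,[3]),
    (false,[([(0,15,[(6,8)]),(0,15,[(6,8)]),(0,3,[(3,3)])],[1,1,1]),([(0,2,[(4,5),(4,5)])],[])],[2,2],false,1,0,[]),
    (false,[([(0,15,[(6,8)]),(0,15,[(6,8)])],[1,1,1,1,1]),([(0,19,[(6,7)])],[3])],[3,2],false,1,0,[3,4]),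
    (false,[([(0,15,[(6,8)]),(0,15,[(6,8)])],[1,1,1,1,1]),([(0,2,[(6,7),(2,3)])],[1])],[2,2],false,1,0,[3]),
    (false,[([(0,15,[(6,8)]),(0,15,[(6,8)]),(0,3,[(2,3)])],[1,1,1]),([(0,2,[(6,7),(2,3)])],[])],[2,2],false,1,0,[2]),
    (false,[([(0,2,[(6,8),(2,2)])],[]),([(0,15,[(6,8)]),(0,19,[(6,7)]),(0,3,[(2,3)]),(0,3,[(2,3)])],[1])],[2,2],false,1,0,[]),
    (false,[([(0,15,[(6,8)]),(0,15,[(6,8)])],[1,1,1,1,1]),([(0,19,[(6,7)])],[3]),([(0,12,[(4,4)])],[1])],[],false,1,0,[]),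
    (false,[([(0,15,[(6,8)]),(0,15,[(6,8)])],[1,1,1,1,1]),([(0,15,[(8,8)])],[4])],[2,1],false,2,1,[]),
    (true,[([(0,25,[(9,12)])],[1,1,1,1])],[10,4,1,1,1,1,1,1],true,3,6,[4,5,7,10,11]),
    (true,[([(0,25,[(9,12)]),(0,4,[(4,4)])],[1])],[10,2,1,1,1,1,1,1],false,2,7,[3,4]),
    (false,[([(0,5,[(9,12),(3,3)])],[]),([(0,12,[(4,4)])],[])],[13,2,2],true,2,5,[3]),
    (false,[([(0,5,[(9,12),(3,3)]),(0,3,[(3,3)])],[1,1,1,1,1,1]),([(0,12,[(4,4)])],[])],[4,2,2],false,2,3,[3]),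
    (false,[([(0,5,[(9,12),(3,3)]),(0,3,[(3,3)])],[1,1,1,1,1,1]),([(0,12,[(4,4)])],[]),([(0,3,[(3,3)])],[2,1])],[2],false,1,0,[2]),
    (false,[([(0,5,[(9,12),(3,3)]),(0,4,[(3,3),(2,2)])],[1,1,1,1,1]),([(0,12,[(4,4)])],[]),([(0,3,[(3,3)])],[2])],[2],false,1,0,[]),
    (false,[([(0,25,[(9,12)]),(0,15,[(4,4),(4,4)])],[1,1,1,1])],[4,2,2,2,2],false,2,4,[4]),
    (false,[([(0,25,[(9,12)]),(0,15,[(4,4),(3,4)])],[1,1,1,1]),([(0,12,[(4,4)])],[])],[4,2,2],false,2,2,[3]),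
    (false,[([(0,25,[(9,12)]),(0,15,[(4,4),(3,4)])],[1,1,1,1]),([(0,12,[(4,4)])],[]),([(0,3,[(3,3)])],[2,1])],[2],false,1,0,[]),
    (true,[([(0,26,[(9,12),(5,5)])],[1,1,1])],[10,1,1,1,1,1,1],false,2,6,[3,5]),
    (false,[([(0,25,[(9,12)]),(0,15,[(5,5),(3,3)])],[1,1,1,1])],[4,2,2,2,2],false,2,4,[3]),
    (false,[([(0,5,[(9,12),(3,3)]),(0,4,[(5,5)])],[1,1,1,1,1]),([(0,3,[(3,3)])],[2])],[2,2,2],false,1,0,[3]),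
    (false,[([(0,25,[(9,12)]),(0,15,[(5,5),(3,3)])],[1,1,1,1]),([(0,3,[(3,3)]),(0,3,[(2,3)])],[])],[2,2,2],false,1,0,[2]),
    (false,[([(0,25,[(9,12)]),(0,27,[(5,5),(3,3),(2,2)])],[1,1,1]),([(0,1,[(3,3),(2,3)])],[1])],[2,2],false,1,0,[]),
    (false,[([(0,25,[(9,12)]),(0,27,[(5,5),(4,5)])],[1,1,1])],[4,2,2,2,1],false,3,1,[4]),
    (false,[([(0,25,[(9,12)]),(0,27,[(5,5),(4,5)])],[1,1,1]),([(0,12,[(4,4)])],[])],[4,2,1],false,1,0,[]),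
    (false,[([(0,25,[(9,12)]),(0,19,[(6,7)])],[1,1,1,1])],[5,2,2,2,2],false,2,5,[3,5,6]),
    (false,[([(0,25,[(9,12)]),(0,27,[(6,7),(3,3)])],[1,1,1])],[4,2,2,2,1],false,3,1,[]),
    (false,[([(0,25,[(9,12)]),(0,19,[(6,7)]),(0,4,[(4,5)])],[1])],[3,2,2,2,2],false,2,2,[3]),
    (false,[([(0,25,[(9,12)]),(0,27,[(6,7),(3,3)])],[1,1,1]),([(0,4,[(4,5)])],[2])],[2,2],false,1,0,[]),
    (false,[([(0,25,[(9,12)]),(0,19,[(6,7)]),(0,19,[(6,6)])],[])],[2,2,2,2,2],false,1,0,[]),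
    (false,[([(0,25,[(9,12)]),(0,27,[(8,10)])],[1,1,1])],[4,2,2,2,1],false,3,1,[4]),
    (false,[([(0,25,[(9,12)]),(0,27,[(8,10)])],[1,1,1]),([(0,12,[(4,4)])],[])],[4,2,1],false,1,0,[]),
    (false,[([(0,36,[(9,12),(11,11)])],[8,1,1,1])],[2],false,1,0,[]),
    (true,[([(0,33,[(13,16)])],[1,1])],[10,4,1,1,1,1],false,3,4,[5,7]),
    (false,[([(0,33,[(13,16)]),(0,4,[(4,5)])],[7,1,1])],[3,2,1],false,3,1,[4]),
    (true,[([(0,8,[(13,16),(4,5)]),(0,12,[(4,4)])],[2,2])],[1,1,1,1,1,1,1],false,1,0,[]),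
    (false,[([(0,33,[(13,16)]),(0,19,[(6,7)])],[7,1])],[2,2,1],false,2,1,[]),
    (true,[([(0,37,[(17,19)])],[2])],[10,2,1,1,1],false,3,2,[])]),
  ([13,7,5,3,2,1,1,1,1,1,1], [
    (false,[],[13,7,5,3,2,1,1,1,1,1,1],true,6,4,[10,15,19]),
    (true,[([(0,2,[(7,10)])],[])],[11,5,3,2,1,1,1,1,1],true,5,3,[8,10]),
    (true,[([(0,2,[(7,10)]),(0,15,[(6,8)])],[1,1,1])],[4,3,2,1,1,1,1,1,1],false,4,2,[6,8]),
    (true,[([(0,2,[(7,10)]),(0,1,[(5,6)])],[1,1,1,1]),([(0,15,[(6,8)])],[])],[3,2,1,1,1],false,3,2,[4]),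
    (true,[([(0,2,[(7,10)])],[]),([(0,25,[(6,8),(4,4)]),(0,1,[(5,6)])],[1,1,1])],[2,1,1,1],false,1,0,[]),
    (true,[([(0,2,[(7,10)]),(0,15,[(6,8)])],[1,1,1]),([(0,15,[(7,8)])],[])],[3,1,1,1,1],false,2,1,[]),
    (true,[([(0,2,[(7,10)]),(0,27,[(9,10)])],[1,1])],[4,3,2,1,1,1,1,1],false,4,2,[5]),
    (false,[([(0,5,[(7,10),(5,5)]),(0,27,[(9,10)])],[3,1,1])],[1,1,1,1,1,1],false,1,0,[]),
    (true,[([(0,5,[(11,15)])],[])],[11,3,2,1,1,1,1,1],false,4,2,[6,9]),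
    (true,[([(0,5,[(11,15)])],[]),([(0,1,[(5,6)])],[])],[11,1,1,1,1],false,2,4,[4,5]),
    (false,[([(0,5,[(11,15)]),(0,2,[(5,6),(3,4)])],[1,1,1,1])],[2,1,1,1,1,1],false,2,2,[3]),
    (false,[([(0,5,[(11,15)]),(0,2,[(5,6),(3,4)])],[1,1,1,1]),([(0,3,[(3,3)])],[])],[1,1,1,1],false,1,0,[]),
    (false,[([(0,5,[(11,15)]),(0,25,[(5,6),(5,5)])],[1,1,1])],[1,1,1,1,1,1],false,1,0,[]),
    (false,[([(0,5,[(11,15)]),(0,2,[(7,9)])],[1,1,1,1])],[2,1,1,1,1,1],false,2,2,[3]),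
    (false,[([(0,5,[(11,15)]),(0,25,[(7,9),(3,3)])],[1,1,1])],[1,1,1,1,1,1],false,1,0,[]),
    (true,[([(0,34,[(16,19)])],[1,1,1,1])],[5,3,2,1,1,1],false,4,2,[])]),
  ([13,11,5,4,2,1], [
    (false,[],[13,11,5,4,2,1],true,5,5,[8,12,17,19]),
    (true,[([(0,15,[(6,8)])],[])],[6,5,4,3,2,2,2,2,2],false,5,3,[8]),
    (true,[([(0,15,[(6,8)])],[]),([(0,15,[(6,8)])],[4])],[6,4,2,2,2],false,3,4,[4,5,7,8]),
    (true,[([(0,15,[(6,8)])],[]),([(0,15,[(6,8)])],[4]),([(0,12,[(4,4)])],[])],[6,4,2],false,3,2,[4]),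
    (true,[([(0,25,[(6,8),(4,4)])],[]),([(0,15,[(6,8)])],[4,2]),([(0,12,[(4,4)])],[])],[4,2],false,2,2,[3]),
    (true,[([(0,5,[(6,8),(4,4),(3,3)])],[]),([(0,15,[(6,8)])],[3,2]),([(0,12,[(4,4)])],[])],[2,2],false,1,0,[]),
    (true,[([(0,15,[(6,8)])],[]),([(0,15,[(6,8)])],[4]),([(0,4,[(5,5)])],[3])],[6,2],true,2,4,[3,5]),
    (true,[([(0,15,[(6,8)])],[]),([(0,15,[(6,8)])],[4]),([(0,15,[(5,5),(3,3)])],[4,2])],[2],false,1,0,[3]),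
    (true,[([(0,15,[(6,8)])],[]),([(0,15,[(6,8)])],[4]),([(0,1,[(5,5)]),(0,1,[(3,3),(2,3)])],[])],[2,2],false,1,0,[2]),
    (true,[([(0,2,[(6,8),(2,2)]),(0,3,[(3,3)])],[]),([(0,15,[(6,8)])],[4]),([(0,4,[(5,5)])],[3]),([(0,3,[(2,3)])],[])],[],false,1,0,[]),
    (true,[([(0,15,[(6,8)])],[]),([(0,15,[(6,8)])],[4]),([(0,4,[(5,5)]),(0,4,[(4,5)])],[])],[4,2],false,2,1,[]),
    (true,[([(0,5,[(6,8),(6,7)])],[]),([(0,15,[(6,8)])],[4,2])],[2,2,2,1],true,2,3,[3,4]),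
    (true,[([(0,5,[(6,8),(6,7)])],[]),([(0,15,[(6,8)])],[4,2]),([(0,3,[(3,3)])],[])],[2,2],false,1,0,[2]),
    (true,[([(0,5,[(6,8),(6,7)])],[]),([(0,2,[(6,8),(2,2)]),(0,3,[(3,3)])],[])],[2,2,2,2],false,1,0,[]),
    (true,[([(0,5,[(6,8),(6,7)])],[]),([(0,15,[(6,8)])],[3,2]),([(0,12,[(4,4)])],[])],[2,2],false,1,0,[]),
    (true,[([(0,32,[(6,8),(8,8)])],[]),([(0,15,[(6,8)])],[4])],[4,2,2],false,2,1,[]),
    (true,[([(0,25,[(9,12)])],[2])],[5,4,3,2,2,2,2,2],false,4,3,[6,8,10,11]),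
    (true,[([(0,25,[(9,12)])],[5]),([(0,1,[(5,6)])],[1])],[5,2,2,2,1],true,3,3,[6]),
    (true,[([(0,25,[(9,12)])],[]),([(0,1,[(5,6)]),(0,1,[(4,6)])],[])],[4,2,2,2,2],false,2,3,[3,4]),
    (true,[([(0,5,[(9,12),(3,3)])],[]),([(0,1,[(5,6)]),(0,1,[(4,6)])],[])],[2,2,2,2,1],false,2,1,[]),
    (true,[([(0,25,[(9,12)])],[]),([(0,1,[(5,6)]),(0,1,[(4,6)])],[]),([(0,12,[(4,4)])],[])],[4,2,2],false,1,0,[]),
    (true,[([(0,25,[(9,12)])],[]),([(0,15,[(7,8)])],[4,2])],[4,2,2,2],false,2,4,[3,5]),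
    (true,[([(0,5,[(9,12),(3,3)])],[]),([(0,15,[(7,8)])],[4,2])],[2,2,2,1],true,2,2,[3]),
    (true,[([(0,5,[(9,12),(3,3)])],[]),([(0,15,[(7,8)])],[4,2]),([(0,3,[(3,3)])],[])],[2,2],false,1,0,[]),
    (true,[([(0,25,[(9,12)])],[]),([(0,15,[(7,8)])],[4,2]),([(0,4,[(4,5)])],[3])],[2],false,1,0,[2]),
    (true,[([(0,25,[(9,12)])],[]),([(0,0,[(7,8)]),(0,3,[(2,2)])],[1]),([(0,4,[(4,5)])],[3])],[2,2],false,1,0,[]),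
    (true,[([(0,25,[(9,12)])],[5]),([(0,2,[(9,10)])],[2])],[2,2,2,1],true,2,2,[3]),
    (true,[([(0,5,[(9,12),(3,3)])],[]),([(0,2,[(9,10)])],[2,1])],[2,2,2,2],false,1,0,[]),
    (true,[([(0,25,[(9,12)])],[]),([(0,11,[(11,11)])],[4,1])],[2,2,2,2],false,1,0,[]),
    (true,[([(0,26,[(13,17)])],[])],[5,4,2,2,2,2,2],false,3,4,[5,7]),
    (true,[([(0,26,[(13,17)])],[]),([(0,4,[(4,5)])],[3])],[5,2,2,2],false,2,3,[3,4]),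
    (true,[([(0,26,[(13,17)])],[]),([(0,4,[(4,5)])],[3]),([(0,3,[(3,3)])],[2,1,1])],[2,2],false,1,0,[2]),
    (true,[([(0,26,[(13,17)])],[]),([(0,4,[(4,5)])],[3]),([(0,4,[(3,3),(2,2)])],[3,1])],[2],false,1,0,[]),
    (true,[([(0,8,[(13,17),(4,4)])],[]),([(0,4,[(4,5)])],[2])],[2,2,2,2],false,1,0,[]),
    (true,[([(0,26,[(13,17)])],[]),([(0,19,[(6,7)])],[4])],[4,2,2],false,2,1,[]),
    (true,[([(0,7,[(18,19)])],[])],[4,4,2,2,2,2,1],false,2,1,[])]),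
  ([13,12,5,3,2,1], [
    (false,[],[13,12,5,3,2,1],true,5,5,[8,11,15,19]),
    (false,[([(0,15,[(6,8)])],[3])],[13,12],false,1,0,[2,3,4,6,8]),
    (false,[([(0,2,[(6,8),(2,2)])],[1])],[13,12],false,2,12,[]),
    (false,[([(0,15,[(6,8)]),(0,3,[(3,3)])],[3,2,1,1,1,1])],[13,3],false,1,0,[2,3]),
    (true,[([(0,2,[(6,8),(2,2)]),(0,3,[(3,3)])],[])],[5,3,3,2,2,2,2,2,2],false,2,10,[]),
    (true,[([(0,15,[(6,8)])],[4]),([(0,1,[(3,3),(3,3)])],[])],[6,4,2,2,2,2],false,3,4,[]),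
    (true,[([(0,15,[(6,8)])],[3]),([(0,12,[(4,4)])],[])],[6,4,3,2,2,2,2],false,4,3,[]),
    (true,[([(0,15,[(6,8)])],[4]),([(0,1,[(5,6)])],[])],[6,4,2,2,2,2],false,3,4,[4,5,6]),
    (true,[([(0,15,[(6,8)])],[4]),([(0,1,[(5,6)])],[]),([(0,12,[(4,4)])],[])],[6,4,2,2],false,3,4,[4]),
    (true,[([(0,15,[(6,8)])],[4]),([(0,1,[(5,6)]),(0,4,[(4,4)])],[]),([(0,12,[(4,4)])],[])],[4,2,2,1],false,3,1,[4]),
    (true,[([(0,25,[(6,8),(4,4)])],[5]),([(0,2,[(5,6),(4,4)])],[1]),([(0,12,[(4,4)])],[])],[2,2],false,1,0,[]),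
    (true,[([(0,15,[(6,8)])],[4]),([(0,1,[(5,6)]),(0,4,[(5,5)])],[])],[4,2,2,2,2,1],true,3,2,[5]),
    (true,[([(0,15,[(6,8)])],[4]),([(0,1,[(5,6)]),(0,4,[(5,5)])],[]),([(0,4,[(4,5)])],[3])],[2,2,1],true,2,2,[3]),
    (true,[([(0,15,[(6,8)])],[4]),([(0,2,[(5,6),(3,3)])],[]),([(0,4,[(5,5)]),(0,4,[(4,5)])],[])],[2,2],false,1,0,[]),
    (true,[([(0,15,[(6,8)])],[4]),([(0,1,[(5,6)]),(0,1,[(6,6)])],[])],[3,2,2,2,2,1],false,2,4,[3,5]),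
    (true,[([(0,15,[(6,8)])],[4]),([(0,1,[(5,6)]),(0,1,[(6,6)])],[]),([(0,3,[(3,3)])],[])],[3,2,2,2],false,2,2,[3]),
    (true,[([(0,15,[(6,8)])],[4]),([(0,2,[(5,6),(3,3)])],[]),([(0,31,[(6,6),(3,3)])],[5])],[],false,1,0,[]),
    (true,[([(0,17,[(6,8),(6,6)])],[]),([(0,1,[(5,6)]),(0,4,[(4,5)])],[])],[3,2,2,2,2],false,2,1,[]),
    (true,[([(0,15,[(6,8)])],[4]),([(0,0,[(7,8)])],[1])],[6,2,2,2,2,1],true,3,4,[4,5,7,8]),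
    (true,[([(0,15,[(6,8)])],[4]),([(0,0,[(7,8)])],[1]),([(0,12,[(4,4)])],[])],[6,2,2,1],true,3,3,[4]),
    (true,[([(0,25,[(6,8),(4,4)])],[5]),([(0,15,[(7,8)])],[4]),([(0,12,[(4,4)])],[])],[2,1],false,2,1,[]),
    (true,[([(0,8,[(6,8),(7,8),(5,5)])],[])],[3,2,2,2,2,2,2],false,2,3,[3,4]),
    (true,[([(0,8,[(6,8),(7,8),(5,5)])],[]),([(0,3,[(3,3)])],[2])],[2,2,2,2,2],false,1,0,[2]),
    (true,[([(0,2,[(6,8),(2,2)]),(0,3,[(3,3)])],[]),([(0,0,[(7,8)])],[]),([(0,4,[(5,5)])],[3,1])],[2,2,2],false,1,0,[]),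
    (false,[([(0,8,[(6,8),(7,8),(5,5)]),(0,12,[(4,4)])],[3,2,2,2,2])],[],false,1,0,[]),
    (true,[([(0,5,[(6,8),(6,7)])],[]),([(0,15,[(7,8)])],[4,1])],[2,2,2,2],false,1,0,[3]),
    (true,[([(0,15,[(6,8)])],[4]),([(0,0,[(7,8)])],[1]),([(0,19,[(6,7)])],[4,1]),([(0,3,[(2,3)])],[])],[],false,1,0,[2]),
    (true,[([(0,2,[(6,8),(2,2)]),(0,3,[(2,3)])],[]),([(0,0,[(7,8)])],[]),([(0,19,[(6,7)])],[4])],[2,2],false,1,0,[]),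
    (true,[([(0,15,[(6,8)])],[3]),([(0,0,[(7,8)])],[1]),([(0,31,[(8,8)])],[5])],[2],false,1,0,[]),
    (true,[([(0,11,[(9,11)])],[])],[6,5,2,2,2,2,2,2,2],false,3,5,[4,5,7,10,11]),
    (true,[([(0,25,[(9,11)])],[5]),([(0,12,[(4,4)])],[])],[5,3,2,2,2,1],true,4,2,[]),
    (true,[([(0,11,[(9,11)])],[]),([(0,4,[(5,5)])],[3,1])],[6,2,2,2,2,2],false,2,6,[4,5]),
    (true,[([(0,5,[(9,11),(3,4)])],[]),([(0,4,[(5,5)])],[3,1,1])],[3,2,2,2,2],false,1,0,[2,3,4]),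
    (true,[([(0,5,[(9,11),(3,4)])],[]),([(0,19,[(5,5),(2,2)])],[4,1])],[3,2,2,2],false,2,3,[]),
    (true,[([(0,5,[(9,11),(3,4)])],[]),([(0,15,[(5,5),(3,3)])],[4,1])],[2,2,2,2],false,1,0,[3]),
    (true,[([(0,5,[(9,11),(3,4)])],[]),([(0,4,[(5,5)]),(0,1,[(3,3),(2,3)])],[])],[2,2,2,2,2],false,1,0,[2]),
    (true,[([(0,5,[(9,11),(3,4)])],[]),([(0,4,[(5,5)]),(0,4,[(3,3),(2,2)])],[]),([(0,3,[(2,3)])],[2])],[2,2,2],false,1,0,[]),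
    (true,[([(0,5,[(9,11),(3,4)])],[]),([(0,31,[(5,5),(4,4)])],[5])],[3,2,2],false,2,1,[]),
    (true,[([(0,8,[(9,11),(5,5),(5,5)])],[])],[3,2,2,2,2,2,2],false,2,2,[3]),
    (true,[([(0,8,[(9,11),(5,5),(5,5)])],[]),([(0,3,[(3,3)])],[2])],[2,2,2,2,2],false,1,0,[]),
    (true,[([(0,11,[(9,11)])],[]),([(0,19,[(6,7)])],[4])],[6,2,2,2,2],false,2,5,[3,4,5,6]),
    (true,[([(0,8,[(9,11),(6,7),(3,3)])],[])],[3,2,2,2,2,2,2],false,2,3,[3]),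
    (true,[([(0,17,[(9,11),(3,3)])],[]),([(0,27,[(6,7),(3,3)])],[5])],[3,2,2],false,2,1,[]),
    (true,[([(0,5,[(9,11),(4,4)])],[]),([(0,19,[(6,7)])],[4,1])],[3,2,2,2],false,2,2,[3]),
    (false,[([(0,8,[(9,11),(6,7),(3,3)]),(0,12,[(4,4)])],[3,2,2,2,2])],[],false,1,0,[]),
    (true,[([(0,11,[(9,11)])],[]),([(0,19,[(6,7)])],[4]),([(0,4,[(5,5)])],[3,1,1])],[2,2],false,1,0,[2]),
    (true,[([(0,11,[(9,11)])],[]),([(0,19,[(6,7)])],[4]),([(0,19,[(5,5),(2,2)])],[4,1])],[2],false,1,0,[]),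
    (true,[([(0,11,[(9,11)])],[]),([(0,19,[(6,7)])],[4]),([(0,19,[(6,6)])],[4,1])],[2],false,1,0,[]),
    (true,[([(0,8,[(9,11),(8,10)])],[])],[3,2,2,2,2,2,2],false,2,3,[3,4]),
    (true,[([(0,17,[(9,11),(3,3)])],[]),([(0,27,[(8,10)])],[5])],[3,2,2],false,2,1,[]),
    (false,[([(0,8,[(9,11),(8,10)]),(0,12,[(4,4)])],[3,2,2,2,2])],[],false,1,0,[]),
    (false,[([(0,11,[(9,11)]),(0,10,[(11,11)])],[2,2,2,2,2])],[2,1],false,1,0,[]),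
    (true,[([(0,5,[(12,15)])],[])],[6,3,2,2,2,2,2,2],false,3,3,[4,6,8]),
    (true,[([(0,7,[(12,15),(4,4)])],[])],[4,3,2,2,2,2,2],false,3,3,[4]),
    (true,[([(0,7,[(12,15),(4,4)])],[]),([(0,12,[(4,4)])],[])],[4,3,2,2,2],false,2,1,[]),
    (true,[([(0,8,[(12,15),(5,6)])],[])],[3,2,2,2,2,2,2],false,2,3,[3,4]),
    (true,[([(0,8,[(12,15),(5,6)])],[]),([(0,3,[(3,3)])],[2])],[2,2,2,2,2],false,1,0,[2]),
    (true,[([(0,5,[(12,15)])],[]),([(0,1,[(5,6)]),(0,4,[(3,3),(2,2)])],[])],[2,2,2,2,2],false,1,0,[]),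
    (false,[([(0,8,[(12,15),(5,6)]),(0,12,[(4,4)])],[3,2,2,2,2])],[],false,1,0,[]),
    (true,[([(0,5,[(12,15)])],[]),([(0,15,[(7,8)])],[4,1])],[2,2,2,2],false,1,0,[2]),
    (true,[([(0,5,[(12,15)])],[]),([(0,27,[(7,8),(2,2)])],[5])],[2,2,2],false,1,0,[]),
    (true,[([(0,7,[(16,19)])],[])],[4,3,2,2,2,2,2],false,3,3,[4]),
    (false,[([(0,7,[(16,19)]),(0,12,[(4,4)])],[4,3,2,2,2])],[],false,1,0,[])]),
  ([14,6,5,4,3,2,2], [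
    (false,[],[14,6,5,4,3,2,2],false,6,3,[10,15,19]),
    (true,[([(0,2,[(7,10)])],[1])],[7,7,4,1,1,1,1,1,1,1],true,3,6,[6,8,10]),
    (true,[([(0,2,[(7,10)]),(0,1,[(4,6)])],[])],[7,4,2,1,1,1,1,1,1,1],true,4,3,[6]),
    (true,[([(0,2,[(7,10)]),(0,1,[(4,6)])],[]),([(0,1,[(5,6)])],[1])],[7,1,1,1,1,1,1],false,2,5,[3,4,6]),
    (true,[([(0,2,[(7,10)]),(0,1,[(4,6)])],[]),([(0,2,[(5,6),(3,3)])],[2,1,1])],[1,1,1,1,1,1],false,1,0,[3]),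
    (true,[([(0,2,[(7,10)]),(0,1,[(4,6)])],[]),([(0,1,[(5,6)]),(0,3,[(3,3)]),(0,3,[(2,3)])],[])],[2,1,1,1,1,1,1],false,2,2,[3]),
    (true,[([(0,2,[(7,10)]),(0,1,[(4,6)])],[]),([(0,25,[(5,6),(3,3),(3,3)]),(0,3,[(2,3)])],[])],[1,1,1,1,1],false,1,0,[]),
    (true,[([(0,2,[(7,10)]),(0,1,[(4,6)])],[]),([(0,27,[(5,6),(4,4)])],[1,1])],[4,1,1,1,1],false,2,2,[3]),
    (true,[([(0,2,[(7,10)]),(0,1,[(5,6)])],[]),([(0,2,[(4,6),(4,4)]),(0,3,[(3,3)])],[1])],[1,1,1,1,1,1],false,1,0,[]),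
    (true,[([(0,2,[(7,10)]),(0,1,[(4,6)])],[]),([(0,25,[(5,6),(5,6)])],[2,1])],[1,1,1,1,1],false,1,0,[2]),
    (true,[([(0,2,[(7,10)]),(0,1,[(4,6)])],[]),([(0,25,[(5,6),(5,6)]),(0,3,[(2,2)])],[])],[1,1,1,1,1],false,1,0,[]),
    (false,[([(0,2,[(7,10)]),(0,15,[(7,8)])],[1,1,1,1,1,1])],[6,4,2],false,2,6,[4,6,7]),
    (true,[([(0,2,[(7,10)])],[1,1,1]),([(0,25,[(7,8),(3,4)])],[3,3])],[1,1,1,1,1],false,1,0,[3,4]),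
    (true,[([(0,2,[(7,10)]),(0,3,[(2,3)])],[1]),([(0,25,[(7,8),(3,4)])],[3,2])],[1,1,1,1,1],false,1,0,[2,3]),
    (true,[([(0,2,[(7,10)]),(0,1,[(3,4),(2,2)])],[]),([(0,15,[(7,8)]),(0,3,[(2,3)])],[2])],[2,1,1,1,1,1],false,2,2,[]),
    (true,[([(0,2,[(7,10)]),(0,1,[(2,3),(3,3)])],[]),([(0,25,[(7,8),(3,4)])],[2,1])],[1,1,1,1,1],false,1,0,[2]),
    (true,[([(0,2,[(7,10)]),(0,1,[(2,3),(3,3)])],[]),([(0,25,[(7,8),(3,4)]),(0,3,[(2,2)])],[])],[1,1,1,1,1],false,1,0,[]),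
    (true,[([(0,2,[(7,10)]),(0,12,[(4,4)])],[1]),([(0,25,[(7,8),(3,4)])],[3,1])],[1,1,1,1,1],false,1,0,[2]),
    (true,[([(0,2,[(7,10)]),(0,1,[(4,4),(2,2)])],[]),([(0,25,[(7,8),(3,4)])],[2,1])],[1,1,1,1,1],false,1,0,[]),
    (true,[([(0,2,[(7,10)]),(0,1,[(5,6)])],[]),([(0,15,[(7,8)])],[])],[7,1,1,1,1,1],false,2,2,[3]),
    (true,[([(0,2,[(7,10)]),(0,3,[(3,3)])],[2]),([(0,30,[(7,8),(5,6)])],[3])],[1,1,1,1],false,1,0,[]),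
    (true,[([(0,26,[(7,10),(7,7)])],[1]),([(0,15,[(7,8)])],[2,2,2])],[1,1,1,1],false,1,0,[]),
    (false,[([(0,2,[(7,10)]),(0,2,[(9,10)])],[1,1,1,1,1,1])],[5,3,2],false,3,2,[5]),
    (true,[([(0,2,[(7,10)]),(0,4,[(4,5)])],[]),([(0,27,[(9,10)])],[])],[7,1,1,1,1],false,2,1,[]),
    (true,[([(0,5,[(11,15)])],[1,1])],[7,5,1,1,1,1,1,1,1],false,3,5,[5,7,9]),
    (true,[([(0,5,[(11,15)])],[]),([(0,4,[(4,5)])],[1,1,1,1])],[7,1,1,1,1,1],false,2,5,[3,4,5]),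
    (true,[([(0,5,[(11,15)]),(0,3,[(3,3)])],[]),([(0,4,[(4,5)])],[1])],[7,1,1,1,1,1],false,2,3,[3]),
    (true,[([(0,5,[(11,15)]),(0,3,[(3,3)])],[]),([(0,15,[(4,5),(3,3)])],[2,2,1])],[1,1,1,1,1],false,1,0,[2]),
    (true,[([(0,5,[(11,15)]),(0,3,[(3,3)])],[]),([(0,15,[(4,5),(3,3)]),(0,3,[(2,2)])],[2])],[1,1,1,1,1],false,1,0,[]),
    (false,[([(0,5,[(11,15)]),(0,4,[(4,5)])],[5,1,1,1,1,1]),([(0,12,[(4,4)])],[1,1])],[],false,1,0,[3]),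
    (true,[([(0,5,[(11,15)]),(0,3,[(2,3)])],[]),([(0,4,[(4,5)]),(0,12,[(4,4)])],[2,1])],[1,1,1,1,1,1],false,1,0,[2]),
    (true,[([(0,5,[(11,15)]),(0,3,[(2,3)])],[]),([(0,4,[(4,5)]),(0,12,[(4,4)]),(0,3,[(2,2)])],[])],[1,1,1,1,1,1],false,1,0,[]),
    (false,[([(0,5,[(11,15)]),(0,27,[(4,5),(5,5)])],[1,1,1,1])],[5,2],false,2,1,[]),
    (true,[([(0,5,[(11,15)])],[]),([(0,19,[(6,7)])],[1,1,1])],[7,1,1,1,1],false,2,3,[3,4]),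
    (false,[([(0,5,[(11,15)]),(0,27,[(6,7),(3,3)])],[1,1,1,1])],[5,2],false,2,1,[]),
    (false,[([(0,5,[(11,15)]),(0,19,[(6,7)])],[5,1,1,1,1]),([(0,12,[(4,4)])],[1])],[],false,1,0,[]),
    (false,[([(0,5,[(11,15)]),(0,31,[(8,9)])],[1,1,1,1])],[6,2],false,2,1,[]),
    (true,[([(0,34,[(16,19)])],[])],[7,5,1,1,1,1,1],false,3,3,[4]),
    (false,[([(0,38,[(16,19),(4,4)])],[7,1,1,1,1,1,1])],[],false,1,0,[])]),
  ([14,6,5,5,3,2,1], [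
    (false,[],[14,6,5,5,3,2,1],true,5,6,[8,12,17,19]),
    (true,[([(0,15,[(6,8)])],[])],[7,6,5,4,1,1,1,1,1,1],false,5,4,[8]),
    (true,[([(0,15,[(6,8)])],[]),([(0,15,[(6,8)])],[2,2])],[7,5,1,1,1,1],false,3,4,[5,7,8]),
    (false,[([(0,15,[(6,8)]),(0,15,[(6,8)]),(0,4,[(4,5)])],[1,1,1])],[6,5,1],false,2,5,[3,4,5]),
    (false,[([(0,15,[(6,8)]),(0,15,[(6,8)]),(0,4,[(4,5)]),(0,3,[(3,3)])],[1])],[5,5,1],true,2,3,[3]),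
    (true,[([(0,15,[(6,8)]),(0,3,[(3,3)])],[2]),([(0,15,[(6,8)])],[1]),([(0,15,[(4,5),(3,3)])],[2,2])],[1,1],false,1,0,[2]),
    (true,[([(0,2,[(6,8),(2,2)]),(0,3,[(3,3)])],[]),([(0,15,[(6,8)]),(0,3,[(3,3)])],[2]),([(0,4,[(4,5)])],[1,1])],[1,1,1],false,1,0,[]),
    (true,[([(0,15,[(6,8)]),(0,12,[(4,4)])],[]),([(0,15,[(6,8)])],[]),([(0,4,[(4,5)])],[1,1])],[7,1,1],false,2,2,[3]),
    (true,[([(0,25,[(6,8),(4,4)]),(0,3,[(3,3)])],[]),([(0,15,[(6,8)])],[2,2]),([(0,4,[(4,5)])],[1,1])],[1,1],false,1,0,[]),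
    (true,[([(0,15,[(6,8)])],[1]),([(0,15,[(6,8)])],[2,2]),([(0,27,[(4,5),(5,5)])],[2,2])],[1],false,1,0,[2]),
    (true,[([(0,15,[(6,8)]),(0,3,[(2,2)])],[2]),([(0,15,[(6,8)])],[2,2]),([(0,27,[(4,5),(5,5)])],[])],[1],false,1,0,[]),
    (true,[([(0,5,[(6,8),(6,7)])],[3]),([(0,15,[(6,8)])],[2,2,1])],[1,1,1,1,1],false,1,0,[3,4]),
    (true,[([(0,15,[(6,8)]),(0,3,[(2,3)])],[2]),([(0,15,[(6,8)])],[]),([(0,19,[(6,7)])],[1])],[6,1],true,2,2,[3]),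
    (true,[([(0,15,[(6,8)]),(0,3,[(2,3)])],[2]),([(0,15,[(6,8)])],[2,2]),([(0,27,[(6,7),(3,3)])],[])],[1],false,1,0,[]),
    (true,[([(0,5,[(6,8),(6,7)])],[3]),([(0,15,[(6,8)]),(0,12,[(4,4)])],[1])],[1,1,1,1,1],false,1,0,[]),
    (true,[([(0,26,[(6,8),(8,8)])],[3]),([(0,15,[(6,8)])],[2,2])],[1,1,1,1],false,1,0,[2]),
    (true,[([(0,2,[(6,8),(2,2)]),(0,0,[(8,8)])],[]),([(0,15,[(6,8)])],[])],[5,1,1,1,1,1],false,1,0,[]),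
    (true,[([(0,25,[(9,12)])],[2])],[7,5,4,1,1,1,1,1,1],false,4,4,[6,8,11]),
    (true,[([(0,25,[(9,12)])],[2]),([(0,1,[(5,6)])],[2,2])],[7,1,1,1,1,1],true,2,6,[3,4,5,6]),
    (true,[([(0,25,[(9,12)]),(0,3,[(3,3)])],[]),([(0,1,[(5,6)])],[2,2])],[6,1,1,1,1,1],false,2,4,[3]),
    (true,[([(0,25,[(9,12)]),(0,3,[(3,3)])],[]),([(0,1,[(5,6)]),(0,3,[(3,3)])],[2])],[5,1,1,1,1,1],false,2,2,[3]),
    (true,[([(0,5,[(9,12),(3,3)])],[3]),([(0,1,[(5,6)]),(0,3,[(3,3)]),(0,3,[(3,3)])],[])],[1,1,1,1,1,1],false,1,0,[]),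
    (true,[([(0,25,[(9,12)])],[2]),([(0,27,[(5,6),(4,4)])],[2,2])],[5,1,1,1],false,2,3,[3,4]),
    (true,[([(0,25,[(9,12)]),(0,12,[(4,4)])],[]),([(0,1,[(5,6)]),(0,3,[(3,3)])],[2])],[4,1,1,1,1,1],false,2,1,[]),
    (true,[([(0,25,[(9,12)])],[2]),([(0,27,[(5,6),(4,4)]),(0,12,[(4,4)])],[])],[5,1,1,1],false,1,0,[]),
    (true,[([(0,26,[(9,12),(5,5)])],[3]),([(0,1,[(5,6)])],[2,2,1])],[1,1,1,1,1],false,1,0,[3]),
    (true,[([(0,26,[(9,12),(5,5)])],[3]),([(0,1,[(5,6)]),(0,3,[(2,3)])],[2])],[1,1,1,1,1],false,1,0,[2]),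
    (true,[([(0,25,[(9,12)]),(0,3,[(2,3)])],[]),([(0,15,[(5,6),(2,2)])],[2,2]),([(0,4,[(5,5)])],[1,1])],[1,1],false,1,0,[]),
    (true,[([(0,25,[(9,12)])],[3,3]),([(0,35,[(5,6),(6,6)])],[])],[4,1,1],false,2,1,[]),
    (false,[([(0,25,[(9,12)]),(0,15,[(7,8)])],[1,1,1,1,1])],[6,5],false,2,4,[3,5]),
    (false,[([(0,25,[(9,12)]),(0,11,[(7,8),(3,3)])],[1,1,1,1,1])],[5,3],false,2,2,[3]),
    (true,[([(0,5,[(9,12),(3,3)])],[3]),([(0,15,[(7,8)]),(0,3,[(3,3)])],[2])],[1,1,1,1,1],false,1,0,[]),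
    (true,[([(0,25,[(9,12)])],[2]),([(0,15,[(7,8)])],[2,2,1]),([(0,4,[(4,5)])],[1,1])],[1,1],false,1,0,[2]),
    (true,[([(0,25,[(9,12)])],[2]),([(0,27,[(7,8),(2,2)])],[2,2]),([(0,4,[(4,5)])],[1,1])],[1],false,1,0,[]),
    (false,[([(0,25,[(9,12)]),(0,11,[(9,11)])],[1,1,1,1,1])],[5,3],false,2,2,[3]),
    (false,[([(0,25,[(9,12)]),(0,11,[(9,11)])],[1,1,1,1,1]),([(0,3,[(3,3)])],[2,2,1])],[],false,1,0,[]),
    (true,[([(0,26,[(13,17)])],[3])],[6,4,1,1,1,1,1,1],false,3,4,[5,7]),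
    (true,[([(0,26,[(13,17)])],[3]),([(0,4,[(4,5)])],[1])],[6,1,1,1,1],false,2,3,[3,4]),
    (true,[([(0,26,[(13,17)])],[3]),([(0,15,[(4,5),(3,3)])],[2,2])],[1,1,1,1],false,1,0,[2]),
    (true,[([(0,26,[(13,17)])],[3]),([(0,4,[(4,5)])],[1]),([(0,4,[(3,3),(2,2)])],[1,1,1])],[1,1],false,1,0,[]),
    (false,[([(0,8,[(13,17),(4,4)]),(0,4,[(4,5)])],[1,1,1,1,1])],[5],false,1,0,[]),
    (true,[([(0,26,[(13,17)])],[3]),([(0,19,[(6,7)])],[])],[6,1,1,1],false,2,1,[]),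
    (false,[([(0,13,[(18,19)])],[3,1,1,1,1,1,1,1,1])],[5,1],false,2,1,[])])]

theorem cj6e_9_ok : runAllJ S40 R40 F40 18 cj6e_9 = true := by decide +kernel

noncomputable def cj6e_10 : List (List ℕ × List NdJ) := [
  ([14,7,6,5,3,1], [
    (false,[],[14,7,6,5,3,1],false,5,4,[8,12,17,19]),
    (true,[([(0,15,[(6,8)])],[])],[6,5,5,4,3,1,1,1,1,1],false,5,3,[8]),
    (true,[([(0,15,[(6,8)])],[]),([(0,15,[(6,8)])],[2])],[6,5,4,1,1,1],false,4,3,[6,8]),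
    (true,[([(0,15,[(6,8)])],[]),([(0,15,[(6,8)])],[2]),([(0,1,[(5,6)])],[2,2])],[6,1,1],false,1,0,[3,5]),
    (true,[([(0,15,[(6,8)]),(0,3,[(2,3)])],[]),([(0,15,[(6,8)])],[]),([(0,1,[(5,6)])],[2,2])],[5,1,1],true,2,3,[3]),
    (true,[([(0,15,[(6,8)]),(0,3,[(2,3)])],[]),([(0,15,[(6,8)])],[]),([(0,1,[(5,6)])],[2,2]),([(0,3,[(3,3)])],[1,1,1])],[1],false,1,0,[2]),
    (true,[([(0,15,[(6,8)]),(0,3,[(2,3)])],[]),([(0,15,[(6,8)])],[]),([(0,1,[(5,6)])],[2,2]),([(0,4,[(3,3),(2,2)])],[1,1])],[],false,1,0,[]),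
    (true,[([(0,15,[(6,8)])],[]),([(0,15,[(6,8)])],[2]),([(0,1,[(5,6)])],[2,2]),([(0,4,[(4,5)])],[1,1,1])],[],false,1,0,[2]),
    (true,[([(0,15,[(6,8)]),(0,3,[(2,2)])],[]),([(0,15,[(6,8)])],[]),([(0,1,[(5,6)])],[2,2]),([(0,4,[(4,5)])],[1,1])],[],false,1,0,[]),
    (true,[([(0,15,[(6,8)])],[]),([(0,15,[(6,8)])],[2]),([(0,15,[(7,8)])],[2,2])],[5,1],true,2,2,[3]),
    (false,[([(0,15,[(6,8)]),(0,15,[(6,8)]),(0,11,[(7,8),(3,3)])],[1,1])],[6,1],false,1,0,[]),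
    (true,[([(0,25,[(9,12)])],[])],[6,5,4,4,1,1,1,1,1],false,4,5,[6,8,11]),
    (true,[([(0,25,[(9,12)])],[]),([(0,1,[(5,6)])],[2,2])],[6,4,1,1,1,1],false,3,4,[5,6]),
    (true,[([(0,25,[(9,12)])],[]),([(0,1,[(5,6)])],[2,2]),([(0,4,[(4,5)])],[1])],[6,1,1],true,2,3,[3,4]),
    (true,[([(0,25,[(9,12)])],[]),([(0,1,[(5,6)]),(0,3,[(3,3)])],[2]),([(0,4,[(4,5)])],[1])],[5,1,1],false,2,1,[]),
    (true,[([(0,25,[(9,12)])],[3]),([(0,27,[(5,6),(4,4)])],[]),([(0,4,[(4,5)])],[1])],[5],false,1,0,[]),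
    (true,[([(0,25,[(9,12)])],[]),([(0,1,[(5,6)])],[2,2]),([(0,19,[(6,6)])],[])],[6,1],false,2,1,[]),
    (true,[([(0,25,[(9,12)])],[]),([(0,15,[(7,8)])],[2,2])],[5,4,1,1,1],false,3,3,[5]),
    (true,[([(0,25,[(9,12)])],[]),([(0,15,[(7,8)])],[2,2]),([(0,4,[(4,5)])],[1])],[5,1],false,2,1,[]),
    (true,[([(0,25,[(9,12)])],[]),([(0,11,[(9,11)])],[3])],[6,1,1,1,1],false,2,2,[3]),
    (false,[([(0,5,[(9,12),(3,3)]),(0,11,[(9,11)])],[1,1,1,1,1])],[5],false,1,0,[]),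
    (true,[([(0,26,[(13,17)])],[])],[5,5,4,1,1,1,1,1],false,3,4,[6,7]),
    (true,[([(0,26,[(13,17)])],[]),([(0,1,[(4,6)])],[2,2])],[5,1,1,1,1],false,2,3,[3,4]),
    (true,[([(0,26,[(13,17)])],[]),([(0,1,[(4,6)])],[2,2]),([(0,3,[(3,3)])],[1,1,1])],[1,1,1],false,1,0,[2]),
    (true,[([(0,26,[(13,17)])],[]),([(0,1,[(4,6)])],[2,2]),([(0,4,[(3,3),(2,2)])],[1,1])],[1,1],false,1,0,[]),
    (true,[([(0,8,[(13,17),(4,4)])],[]),([(0,1,[(4,6)])],[2,2])],[1,1,1,1,1],false,1,0,[]),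
    (false,[([(0,26,[(13,17)]),(0,19,[(7,7)])],[5,5,1,1])],[],false,1,0,[]),
    (true,[([(0,24,[(18,19)])],[])],[5,5,2,1,1,1,1,1],false,2,1,[])]),
  ([14,13,4,3,2,1], [
    (false,[],[14,13,4,3,2,1],true,5,4,[7,9,11,14,18,19]),
    (true,[([(0,19,[(6,7)])],[4])],[6,4,3,2,2,2,2,2,2,1],false,4,4,[6,7]),
    (true,[([(0,19,[(6,7)])],[4]),([(0,1,[(5,6)])],[])],[6,4,2,2,2,2,2],false,3,4,[4,5,6]),
    (true,[([(0,19,[(6,7)])],[4]),([(0,1,[(5,6)])],[]),([(0,12,[(4,4)])],[])],[6,4,2,2,2],false,3,4,[4]),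
    (true,[([(0,19,[(6,7)])],[4]),([(0,27,[(5,6),(4,4)])],[5]),([(0,12,[(4,4)])],[])],[4,2,1],false,3,1,[4]),
    (false,[([(0,8,[(6,7),(5,6),(4,4),(4,4)]),(0,12,[(4,4)])],[2,2,2,2,2,2])],[],false,1,0,[]),
    (true,[([(0,19,[(6,7)])],[4]),([(0,1,[(5,6)]),(0,4,[(5,5)])],[])],[4,2,2,2,2,2,1],true,3,2,[5]),
    (true,[([(0,19,[(6,7)])],[4]),([(0,1,[(5,6)]),(0,4,[(5,5)])],[]),([(0,4,[(4,5)])],[3])],[2,2,2,1],true,2,2,[3]),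
    (true,[([(0,19,[(6,7)])],[4]),([(0,2,[(5,6),(3,3)])],[]),([(0,4,[(5,5)]),(0,4,[(4,5)])],[])],[2,2,2],false,1,0,[]),
    (true,[([(0,7,[(6,7),(5,6),(6,6)])],[])],[4,2,2,2,2,2,2,2],false,2,4,[3,4,5]),
    (true,[([(0,19,[(6,7)])],[4]),([(0,1,[(5,6)])],[]),([(0,31,[(6,6),(3,3)])],[5])],[4,2],false,2,2,[3]),
    (true,[([(0,7,[(6,7),(5,6),(6,6)])],[]),([(0,3,[(3,3)]),(0,3,[(3,3)])],[])],[2,2,2,2,2,2],false,1,0,[]),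
    (true,[([(0,7,[(6,7),(5,6),(6,6)])],[]),([(0,12,[(4,4)])],[])],[4,2,2,2,2,2],false,2,1,[]),
    (true,[([(0,7,[(6,7),(5,6),(6,6)])],[]),([(0,4,[(5,5)])],[3])],[2,2,2,2,2],false,1,0,[]),
    (true,[([(0,17,[(6,7),(7,7)])],[])],[6,3,2,2,2,2,2,2,2],false,3,3,[5,7]),
    (true,[([(0,7,[(6,7),(7,7),(4,5)])],[])],[4,2,2,2,2,2,2,2],false,2,4,[3,5]),
    (false,[([(0,19,[(6,7)]),(0,19,[(7,7)]),(0,4,[(4,5)]),(0,3,[(3,3)])],[])],[14,1],true,2,2,[3]),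
    (true,[([(0,7,[(6,7),(7,7),(4,5)])],[]),([(0,3,[(3,3)]),(0,3,[(3,3)])],[])],[2,2,2,2,2,2],false,1,0,[]),
    (true,[([(0,17,[(6,7),(7,7)])],[]),([(0,4,[(4,5)]),(0,4,[(4,5)])],[])],[3,2,2,2,2,2],false,2,1,[]),
    (true,[([(0,17,[(6,7),(7,7)])],[]),([(0,19,[(6,7)])],[4,1])],[3,2,2,2,2],false,2,2,[3]),
    (true,[([(0,17,[(6,7),(7,7)])],[]),([(0,27,[(6,7),(3,3)])],[5])],[2,2,2,2],false,1,0,[]),
    (true,[([(0,31,[(8,9)])],[4])],[5,4,3,2,2,2,2,2,2],false,4,3,[6,8,9]),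
    (true,[([(0,31,[(8,9)])],[5]),([(0,1,[(5,6)])],[])],[5,4,2,2,2,2],false,3,4,[4,5,6]),
    (true,[([(0,31,[(8,9)])],[5]),([(0,1,[(5,6)])],[]),([(0,12,[(4,4)])],[])],[5,4,2,2],false,3,4,[4]),
    (true,[([(0,7,[(8,9),(5,6),(4,4)])],[]),([(0,12,[(4,4)])],[])],[4,2,2,2,2,2],false,2,1,[]),
    (true,[([(0,31,[(8,9)])],[5]),([(0,1,[(5,6)])],[]),([(0,4,[(5,5)])],[3])],[5,2,2],false,2,3,[4]),
    (true,[([(0,31,[(8,9)])],[5]),([(0,5,[(5,6),(5,5),(3,4)])],[])],[2,2,2,2],false,1,0,[2]),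
    (true,[([(0,31,[(8,9)])],[5]),([(0,2,[(5,6),(3,4)])],[]),([(0,19,[(5,5),(2,2)])],[4])],[2],false,1,0,[]),
    (true,[([(0,31,[(8,9)])],[5]),([(0,1,[(5,6)])],[]),([(0,19,[(6,6)])],[4])],[4,2],false,2,2,[3]),
    (true,[([(0,5,[(8,9),(5,6)])],[]),([(0,31,[(6,6),(3,3)])],[5])],[2,2,2,2],false,1,0,[]),
    (true,[([(0,31,[(8,9)])],[5]),([(0,15,[(7,8)])],[4])],[4,2,2,2,1],true,3,2,[5,6]),
    (true,[([(0,31,[(8,9)])],[5]),([(0,0,[(7,8)])],[1]),([(0,4,[(4,5)])],[3,1])],[2,2,1],true,2,2,[3]),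
    (true,[([(0,31,[(8,9)])],[5]),([(0,15,[(7,8)])],[4]),([(0,4,[(4,5)])],[3]),([(0,3,[(3,3)])],[])],[],false,1,0,[]),
    (true,[([(0,31,[(8,9)])],[5]),([(0,17,[(7,8),(6,6)])],[])],[3,2,2,2],false,1,0,[]),
    (true,[([(0,21,[(8,9),(9,9)])],[])],[4,3,2,2,2,2,2,2],false,3,3,[4]),
    (false,[([(0,21,[(8,9),(9,9)]),(0,12,[(4,4)])],[4,3,2,2,2,2])],[],false,1,0,[]),
    (true,[([(0,11,[(10,11)])],[4,2])],[3,2,2,2,2,2,2,2,2,1],true,2,9,[3,5,7,9,10]),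
    (true,[([(0,17,[(10,11),(3,3)])],[])],[6,3,2,2,2,2,2,2,2],false,3,3,[]),
    (true,[([(0,11,[(10,11)])],[2]),([(0,4,[(4,5)])],[3,1,1])],[2,2,2,2,2,2,2],false,1,0,[3,5]),
    (true,[([(0,17,[(10,11),(2,3)])],[]),([(0,4,[(4,5)])],[3,1,1])],[3,2,2,2,2,2],false,1,0,[2,3]),
    (true,[([(0,9,[(10,11),(2,2)]),(0,3,[(2,3)])],[]),([(0,4,[(4,5)])],[3])],[2,2,2,2,2,2,1],true,2,4,[]),
    (true,[([(0,7,[(10,11),(4,5),(3,3)])],[]),([(0,3,[(2,3)])],[2,1])],[2,2,2,2,2,2],false,1,0,[2,3]),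
    (true,[([(0,17,[(10,11),(2,3)])],[]),([(0,4,[(4,5)]),(0,4,[(3,3),(2,2)])],[])],[3,2,2,2,2,2],false,2,2,[]),
    (true,[([(0,7,[(10,11),(4,5),(3,3)])],[]),([(0,3,[(2,3)]),(0,3,[(3,3)])],[])],[2,2,2,2,2,2],false,1,0,[2]),
    (true,[([(0,17,[(10,11),(2,3)])],[]),([(0,4,[(4,5)]),(0,4,[(3,3),(2,2)])],[]),([(0,3,[(3,3)])],[2])],[2,2,2,2],false,1,0,[]),
    (false,[([(0,8,[(10,11),(4,5),(4,5)])],[2,2,2,2,2,2,2,2])],[],false,1,0,[3,4]),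
    (true,[([(0,17,[(10,11),(2,3)])],[]),([(0,4,[(4,5)]),(0,4,[(4,5)])],[])],[3,2,2,2,2,2],false,2,2,[3]),
    (true,[([(0,17,[(10,11),(2,3)])],[]),([(0,4,[(4,5)]),(0,4,[(4,5)])],[]),([(0,3,[(3,3)])],[2])],[2,2,2,2],false,1,0,[]),
    (false,[([(0,8,[(10,11),(4,5),(4,5)]),(0,12,[(4,4)])],[2,2,2,2,2,2])],[],false,1,0,[]),
    (true,[([(0,21,[(10,11),(6,7)])],[])],[4,3,2,2,2,2,2,2],false,3,3,[5]),
    (true,[([(0,21,[(10,11),(6,7)])],[]),([(0,4,[(4,5)])],[3])],[3,2,2,2,2],false,2,1,[]),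
    (false,[([(0,8,[(10,11),(8,9)])],[2,2,2,2,2,2,2,2])],[],false,1,0,[3]),
    (true,[([(0,17,[(10,11),(2,3)])],[]),([(0,31,[(8,9)])],[5])],[3,2,2,2],false,2,1,[]),
    (false,[([(0,8,[(10,11),(10,10)])],[2,2,2,2,2,2,2,2])],[],false,1,0,[]),
    (true,[([(0,17,[(12,14)])],[])],[6,3,2,2,2,2,2,2,2],false,3,3,[5,7,8]),
    (true,[([(0,7,[(12,14),(4,5)])],[])],[4,2,2,2,2,2,2,2],false,2,4,[3,5]),
    (true,[([(0,7,[(12,14),(4,5)])],[]),([(0,3,[(3,3)])],[2,1])],[2,2,2,2,2,2],false,1,0,[3]),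
    (true,[([(0,7,[(12,14),(4,5)])],[]),([(0,3,[(3,3)]),(0,3,[(2,3)])],[])],[2,2,2,2,2,2],false,1,0,[2]),
    (true,[([(0,17,[(12,14)])],[]),([(0,4,[(4,5)]),(0,4,[(3,3),(2,2)])],[]),([(0,3,[(2,3)])],[2])],[2,2,2,2],false,1,0,[]),
    (true,[([(0,17,[(12,14)])],[]),([(0,4,[(4,5)]),(0,4,[(4,5)])],[])],[3,2,2,2,2,2],false,2,1,[]),
    (true,[([(0,17,[(12,14)])],[]),([(0,19,[(6,7)])],[4,1])],[3,2,2,2,2],false,2,2,[3]),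
    (true,[([(0,17,[(12,14)])],[]),([(0,27,[(6,7),(3,3)])],[5])],[2,2,2,2],false,1,0,[]),
    (true,[([(0,17,[(12,14)])],[]),([(0,15,[(8,8)])],[4,1])],[2,2,2,2,2],false,1,0,[]),
    (true,[([(0,21,[(15,18)])],[])],[4,3,2,2,2,2,2,2],false,3,3,[5]),
    (true,[([(0,21,[(15,18)])],[]),([(0,4,[(4,5)])],[3])],[3,2,2,2,2],false,2,1,[]),
    (false,[([(0,7,[(19,19)])],[4,2,2,2,2,2,2,2])],[],false,1,0,[])]),
  ([16,5,5,4,3,2,1], [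
    (false,[],[16,5,5,4,3,2,1],true,6,3,[8,11,14,17,19]),
    (true,[([(0,15,[(7,8)])],[2])],[7,6,4,1,1,1,1,1,1,1,1,1],false,4,4,[6,8]),
    (true,[([(0,30,[(7,8),(5,6)])],[3])],[6,5,1,1,1,1,1,1,1,1],false,3,5,[5,6]),
    (false,[([(0,15,[(7,8)]),(0,1,[(5,6)]),(0,4,[(4,5)])],[1,1,1,1,1,1])],[5,4,2],false,3,2,[5]),
    (true,[([(0,30,[(7,8),(5,6)])],[3]),([(0,4,[(4,5)])],[1,1]),([(0,4,[(4,5)])],[1,1,1])],[1,1,1,1],false,1,0,[2,3]),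
    (true,[([(0,0,[(7,8)]),(0,2,[(4,5),(4,5)])],[]),([(0,15,[(5,6),(2,2)])],[2])],[1,1,1,1,1,1,1,1],false,1,0,[2]),
    (false,[([(0,2,[(7,8),(2,2)])],[2]),([(0,1,[(5,6)]),(0,4,[(4,5)]),(0,4,[(4,5)]),(0,3,[(2,2)])],[1,1,1,1,1])],[],false,1,0,[]),
    (true,[([(0,0,[(7,8)]),(0,2,[(4,5),(4,5)])],[]),([(0,1,[(5,6)]),(0,3,[(3,3)])],[])],[1,1,1,1,1,1,1,1,1],false,1,0,[]),
    (false,[([(0,15,[(7,8)]),(0,1,[(5,6)]),(0,19,[(6,6)])],[1,1,1,1,1])],[5,4,1],false,3,1,[4]),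
    (true,[([(0,30,[(7,8),(5,6)])],[3]),([(0,1,[(6,6)]),(0,12,[(4,4)])],[2])],[1,1,1,1,1,1,1],false,1,0,[]),
    (true,[([(0,15,[(7,8)]),(0,0,[(7,8)])],[])],[6,4,1,1,1,1,1,1,1,1,1,1],false,3,4,[5,7]),
    (false,[([(0,15,[(7,8)]),(0,15,[(7,8)]),(0,4,[(4,5)])],[1,1,1,1,1])],[5,4,1],false,3,1,[4]),
    (true,[([(0,35,[(7,8),(4,4)])],[2]),([(0,15,[(7,8)])],[2,2]),([(0,4,[(4,5)])],[1,1])],[1,1,1],false,1,0,[]),
    (true,[([(0,15,[(7,8)]),(0,0,[(7,8)])],[]),([(0,19,[(6,7)])],[])],[6,1,1,1,1,1,1,1],false,2,1,[]),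
    (false,[([(0,11,[(9,11)])],[2])],[16,5,2],true,3,6,[6,8,10,11]),
    (true,[([(0,11,[(9,11)]),(0,1,[(4,6)])],[])],[6,3,1,1,1,1,1,1,1,1,1,1],false,3,3,[4,5,6]),
    (true,[([(0,11,[(9,11)]),(0,1,[(4,6)])],[]),([(0,4,[(4,4)])],[])],[6,1,1,1,1,1,1,1,1],false,2,4,[3,4]),
    (true,[([(0,11,[(9,11)]),(0,1,[(4,6)])],[]),([(0,19,[(4,4),(3,3)])],[1,1])],[3,1,1,1,1,1,1,1],false,2,2,[3]),
    (true,[([(0,11,[(9,11)]),(0,1,[(4,6)])],[]),([(0,19,[(4,4),(3,3)])],[1,1]),([(0,3,[(3,3)])],[1])],[1,1,1,1,1,1],false,1,0,[]),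
    (true,[([(0,11,[(9,11)]),(0,1,[(4,6)])],[]),([(0,15,[(4,4),(4,4)])],[2,1])],[1,1,1,1,1,1,1,1],false,1,0,[2]),
    (true,[([(0,11,[(9,11)]),(0,1,[(4,6)])],[]),([(0,15,[(4,4),(4,4)]),(0,3,[(2,2)])],[])],[1,1,1,1,1,1,1,1],false,1,0,[]),
    (true,[([(0,11,[(9,11)]),(0,1,[(4,6)])],[]),([(0,4,[(5,5)])],[])],[6,1,1,1,1,1,1,1,1],false,2,3,[3,4]),
    (true,[([(0,11,[(9,11)]),(0,1,[(4,6)])],[]),([(0,15,[(5,5),(3,3)])],[2,1])],[1,1,1,1,1,1,1,1],false,1,0,[2]),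
    (true,[([(0,11,[(9,11)]),(0,1,[(4,6)])],[]),([(0,27,[(5,5),(3,3),(2,2)])],[2])],[1,1,1,1,1,1,1],false,1,0,[]),
    (true,[([(0,11,[(9,11)]),(0,1,[(4,6)])],[]),([(0,31,[(5,5),(4,4)])],[1])],[3,1,1,1,1,1,1],false,1,0,[]),
    (true,[([(0,11,[(9,11)]),(0,1,[(4,6)])],[]),([(0,19,[(6,6)])],[1,1])],[3,1,1,1,1,1,1,1],false,2,2,[3]),
    (true,[([(0,11,[(9,11)]),(0,1,[(4,6)])],[]),([(0,31,[(6,6),(3,3)])],[1])],[3,1,1,1,1,1,1],false,1,0,[]),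
    (false,[([(0,11,[(9,11)]),(0,15,[(7,8)])],[1,1,1,1,1,1,1,1])],[5,3,1],true,3,2,[5]),
    (true,[([(0,11,[(9,11)]),(0,0,[(7,8)])],[]),([(0,4,[(4,5)])],[])],[4,1,1,1,1,1,1,1,1],false,2,1,[]),
    (false,[([(0,11,[(9,11)]),(0,27,[(9,10)])],[1,1,1,1,1,1,1])],[5,3],false,2,2,[3]),
    (false,[([(0,11,[(9,11)]),(0,27,[(9,10)])],[1,1,1,1,1,1,1]),([(0,3,[(3,3)])],[2,2,1])],[],false,1,0,[]),
    (false,[([(0,11,[(9,11)]),(0,39,[(11,11)])],[5,1,1,1,1,1])],[4],false,1,0,[]),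
    (true,[([(0,30,[(12,14)])],[3])],[6,5,1,1,1,1,1,1,1,1],false,3,5,[5,7,8]),
    (true,[([(0,30,[(12,14)])],[3]),([(0,4,[(4,5)])],[1,1])],[6,1,1,1,1,1,1],false,2,4,[3,4,5]),
    (false,[([(0,14,[(12,14),(3,3)]),(0,4,[(4,5)])],[1,1,1,1,1,1,1,1])],[4,2],false,2,2,[3]),
    (false,[([(0,14,[(12,14),(3,3)]),(0,4,[(4,5)])],[1,1,1,1,1,1,1,1]),([(0,3,[(3,3)])],[2,1])],[],false,1,0,[]),
    (true,[([(0,30,[(12,14)])],[3]),([(0,4,[(4,5)])],[1,1]),([(0,4,[(4,4)])],[1,1,1])],[1,1,1,1],false,1,0,[2]),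
    (false,[([(0,17,[(12,14)]),(0,4,[(4,5)])],[1,1,1,1,1,1,1,1]),([(0,12,[(4,4)]),(0,3,[(2,2)])],[2])],[],false,1,0,[]),
    (true,[([(0,24,[(12,14),(5,5)])],[2]),([(0,4,[(4,5)])],[1,1,1])],[1,1,1,1,1,1,1],false,1,0,[]),
    (true,[([(0,30,[(12,14)])],[3]),([(0,19,[(6,7)])],[1])],[6,1,1,1,1,1],false,2,2,[3]),
    (true,[([(0,26,[(12,14),(3,3)])],[4]),([(0,19,[(6,7)])],[1,1])],[1,1,1,1,1,1],false,1,0,[]),
    (false,[([(0,30,[(12,14)]),(0,31,[(8,8)])],[4,1,1,1,1])],[5],false,1,0,[]),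
    (true,[([(0,26,[(15,17)])],[4])],[6,1,1,1,1,1,1,1,1,1],false,2,4,[3,5]),
    (false,[([(0,14,[(15,17)]),(0,3,[(3,3)])],[1,1,1,1,1,1,1,1,1])],[5,2],false,2,2,[3]),
    (false,[([(0,14,[(15,17)]),(0,3,[(3,3)])],[1,1,1,1,1,1,1,1,1]),([(0,3,[(3,3)])],[2,1,1])],[],false,1,0,[]),
    (false,[([(0,14,[(15,17)]),(0,4,[(4,5)])],[1,1,1,1,1,1,1,1])],[4,2],false,2,1,[]),
    (true,[([(0,24,[(18,19)])],[2])],[6,1,1,1,1,1,1,1,1,1],false,2,1,[])]),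
  ([17,6,5,4,3,1], [
    (false,[],[17,6,5,4,3,1],false,5,4,[8,12,15,19]),
    (true,[([(0,15,[(6,8)])],[1])],[6,5,4,3,1,1,1,1,1,1,1,1,1],false,5,3,[8]),
    (true,[([(0,15,[(6,8)])],[]),([(0,15,[(6,8)])],[2])],[6,5,1,1,1,1,1,1,1],false,3,5,[5,7,8]),
    (true,[([(0,15,[(6,8)])],[]),([(0,15,[(6,8)])],[2]),([(0,4,[(4,5)])],[1,1])],[6,1,1,1,1,1],false,2,5,[3,4,5]),
    (true,[([(0,15,[(6,8)]),(0,3,[(3,3)])],[]),([(0,15,[(6,8)])],[]),([(0,4,[(4,5)])],[1,1])],[5,1,1,1,1,1],false,2,3,[3]),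
    (true,[([(0,15,[(6,8)]),(0,3,[(3,3)])],[]),([(0,15,[(6,8)])],[]),([(0,4,[(4,5)])],[1,1]),([(0,3,[(3,3)])],[1,1,1])],[1,1,1,1],false,1,0,[2]),
    (true,[([(0,15,[(6,8)]),(0,3,[(3,3)])],[]),([(0,15,[(6,8)])],[]),([(0,4,[(4,5)])],[1,1]),([(0,4,[(3,3),(2,2)])],[1,1])],[1,1,1],false,1,0,[]),
    (true,[([(0,15,[(6,8)]),(0,12,[(4,4)])],[]),([(0,15,[(6,8)])],[1]),([(0,4,[(4,5)])],[])],[5,1,1,1,1,1],false,2,2,[3]),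
    (true,[([(0,15,[(6,8)]),(0,12,[(4,4)])],[]),([(0,15,[(6,8)])],[1]),([(0,15,[(4,5),(3,3)])],[2])],[1,1,1,1,1],false,1,0,[]),
    (true,[([(0,15,[(6,8)])],[2]),([(0,15,[(6,8)])],[2,2]),([(0,27,[(4,5),(5,5)])],[])],[1,1,1,1],false,1,0,[2]),
    (false,[([(0,15,[(6,8)]),(0,15,[(6,8)]),(0,4,[(4,5)]),(0,19,[(5,5),(2,2)])],[1,1])],[5,1],false,1,0,[]),
    (true,[([(0,15,[(6,8)])],[]),([(0,15,[(6,8)])],[2]),([(0,19,[(6,7)])],[1])],[6,1,1,1,1],false,2,3,[3,4]),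
    (true,[([(0,15,[(6,8)]),(0,3,[(3,3)])],[]),([(0,15,[(6,8)])],[]),([(0,19,[(6,7)])],[1])],[5,1,1,1,1],false,2,1,[]),
    (false,[([(0,25,[(6,8),(4,4)]),(0,15,[(6,8)]),(0,19,[(6,7)])],[1,1,1,1])],[5],false,1,0,[]),
    (true,[([(0,15,[(6,8)])],[]),([(0,15,[(6,8)])],[2]),([(0,31,[(8,8)])],[])],[6,1,1,1],false,2,1,[]),
    (true,[([(0,25,[(9,12)])],[])],[6,5,4,1,1,1,1,1,1,1,1,1],false,4,4,[5,7,10,11]),
    (true,[([(0,25,[(9,12)])],[]),([(0,4,[(5,5)])],[1])],[6,5,1,1,1,1,1,1,1],false,3,5,[5]),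
    (true,[([(0,26,[(9,12),(5,5)])],[]),([(0,4,[(4,5)])],[1,1])],[5,1,1,1,1,1,1,1],false,2,3,[3,4]),
    (true,[([(0,26,[(9,12),(5,5)])],[]),([(0,4,[(4,5)])],[1,1]),([(0,3,[(3,3)])],[1,1,1])],[1,1,1,1,1,1],false,1,0,[2]),
    (true,[([(0,26,[(9,12),(5,5)])],[]),([(0,4,[(4,5)])],[1,1]),([(0,4,[(3,3),(2,2)])],[1,1])],[1,1,1,1,1],false,1,0,[]),
    (true,[([(0,8,[(9,12),(5,5),(4,4)])],[]),([(0,4,[(4,5)])],[1,1])],[1,1,1,1,1,1,1,1],false,1,0,[]),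
    (true,[([(0,25,[(9,12)])],[]),([(0,19,[(6,7)])],[])],[6,5,1,1,1,1,1,1],false,3,5,[5,6]),
    (true,[([(0,25,[(9,12)])],[]),([(0,19,[(6,7)])],[]),([(0,4,[(4,5)])],[1,1])],[6,1,1,1,1],false,2,2,[3]),
    (false,[([(0,5,[(9,12),(3,3)]),(0,19,[(6,7)]),(0,4,[(4,5)])],[1,1,1,1,1])],[4],false,1,0,[]),
    (false,[([(0,25,[(9,12)]),(0,19,[(6,7)]),(0,19,[(6,6)])],[1,1,1,1])],[6],false,1,0,[]),
    (true,[([(0,25,[(9,12)])],[3]),([(0,27,[(8,10)])],[])],[5,1,1,1,1,1,1],false,2,3,[3,4]),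
    (true,[([(0,5,[(9,12),(3,3)])],[4]),([(0,27,[(8,10)])],[])],[1,1,1,1,1,1,1],false,1,0,[2]),
    (true,[([(0,25,[(9,12)])],[3]),([(0,27,[(8,10)])],[]),([(0,4,[(3,3),(2,2)])],[1,1])],[1,1,1,1],false,1,0,[]),
    (true,[([(0,25,[(9,12)])],[3]),([(0,27,[(8,10)])],[]),([(0,4,[(4,4)])],[1,1])],[1,1,1,1],false,1,0,[]),
    (false,[([(0,25,[(9,12)]),(0,39,[(11,11)])],[5,4,1,1,1,1])],[],false,1,0,[]),
    (true,[([(0,5,[(13,15)])],[])],[6,5,1,1,1,1,1,1,1,1,1,1],false,3,5,[6,7]),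
    (true,[([(0,8,[(13,15),(4,6)])],[])],[5,1,1,1,1,1,1,1,1,1,1],false,2,3,[3,4]),
    (true,[([(0,8,[(13,15),(4,6)])],[]),([(0,3,[(3,3)])],[1,1,1])],[1,1,1,1,1,1,1,1,1],false,1,0,[2]),
    (true,[([(0,8,[(13,15),(4,6)])],[]),([(0,4,[(3,3),(2,2)])],[1,1])],[1,1,1,1,1,1,1,1],false,1,0,[]),
    (true,[([(0,8,[(13,15),(4,6)])],[]),([(0,4,[(4,4)])],[1,1])],[1,1,1,1,1,1,1,1],false,1,0,[]),
    (false,[([(0,5,[(13,15)]),(0,19,[(7,7)])],[1,1,1,1,1,1,1,1])],[6],false,1,0,[]),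
    (true,[([(0,13,[(16,19)])],[])],[6,1,1,1,1,1,1,1,1,1,1,1],false,2,3,[3,4]),
    (true,[([(0,13,[(16,19)])],[]),([(0,3,[(3,3)])],[1,1,1,1])],[1,1,1,1,1,1,1,1,1,1],false,1,0,[2]),
    (true,[([(0,8,[(16,19),(2,2)])],[]),([(0,3,[(3,3)])],[1,1,1])],[1,1,1,1,1,1,1,1,1],false,1,0,[]),
    (true,[([(0,13,[(16,19)])],[]),([(0,4,[(4,4)])],[1,1,1])],[1,1,1,1,1,1,1,1,1],false,1,0,[])]),
  ([17,9,4,3,2,1], [
    (false,[],[17,9,4,3,2,1],true,6,3,[10,15,19]),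
    (true,[([(0,2,[(7,10)])],[])],[6,5,2,2,2,2,1,1,1,1,1,1,1],false,4,5,[6,8,10]),
    (true,[([(0,2,[(7,10)])],[]),([(0,1,[(5,6)])],[1,1])],[6,2,2,2,1,1,1,1,1,1],false,3,6,[5,6]),
    (true,[([(0,2,[(7,10)])],[2]),([(0,1,[(5,6)]),(0,4,[(4,5)])],[])],[2,2,2,1,1,1,1,1,1,1],false,2,5,[3,5]),
    (true,[([(0,2,[(7,10)])],[]),([(0,1,[(5,6)])],[1,1]),([(0,15,[(4,5),(3,3)])],[1,1])],[2,2,1,1,1,1],false,2,3,[3]),
    (false,[([(0,2,[(7,10)]),(0,1,[(5,6)]),(0,15,[(4,5),(3,3)]),(0,3,[(3,3)])],[2,1,1,1])],[3,1],false,2,1,[]),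
    (true,[([(0,2,[(7,10)])],[]),([(0,1,[(5,6)])],[1,1]),([(0,4,[(4,5)]),(0,4,[(4,5)])],[])],[2,1,1,1,1,1,1],false,2,2,[3]),
    (true,[([(0,2,[(7,10)])],[]),([(0,1,[(5,6)])],[1,1]),([(0,4,[(4,5)]),(0,4,[(4,5)])],[]),([(0,3,[(3,3)])],[])],[1,1,1,1,1],false,1,0,[]),
    (true,[([(0,2,[(7,10)])],[]),([(0,35,[(5,6),(6,6)])],[])],[5,2,2,2,1,1,1],false,3,3,[4]),
    (true,[([(0,2,[(7,10)])],[1]),([(0,32,[(5,6),(6,6),(4,4)])],[])],[2,2,1,1,1,1,1],false,1,0,[]),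
    (true,[([(0,2,[(7,10)])],[]),([(0,15,[(7,8)])],[1])],[6,2,2,2,1,1,1,1,1],false,3,5,[6,7]),
    (true,[([(0,2,[(7,10)])],[]),([(0,15,[(7,8)])],[1]),([(0,1,[(4,6)])],[1,1,1])],[2,2,1,1,1,1],false,2,3,[3,4]),
    (false,[([(0,2,[(7,10)]),(0,15,[(7,8)]),(0,1,[(4,6)]),(0,3,[(3,3)])],[2,1,1,1])],[3,1],false,2,1,[]),
    (true,[([(0,2,[(7,10)])],[]),([(0,35,[(7,8),(4,4)])],[]),([(0,1,[(4,6)])],[1,1])],[2,2,1,1],false,1,0,[]),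
    (true,[([(0,26,[(7,10),(7,7)])],[]),([(0,15,[(7,8)])],[1])],[2,2,2,1,1,1,1],false,1,0,[]),
    (true,[([(0,2,[(7,10)])],[]),([(0,27,[(9,10)])],[])],[6,2,2,2,1,1,1,1],false,3,4,[5]),
    (true,[([(0,2,[(7,10)])],[]),([(0,27,[(9,10)])],[]),([(0,4,[(4,5)])],[1,1,1])],[2,2,2,1,1],false,2,1,[]),
    (true,[([(0,5,[(11,15)])],[])],[6,2,2,2,2,1,1,1,1,1,1,1],false,3,6,[5,8,9]),
    (true,[([(0,5,[(11,15)])],[]),([(0,4,[(4,5)])],[1,1,1])],[2,2,2,2,1,1,1,1,1],false,2,5,[3,5]),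
    (true,[([(0,5,[(11,15)])],[]),([(0,15,[(4,5),(3,3)])],[1,1])],[2,2,2,1,1,1,1,1],false,2,3,[3]),
    (true,[([(0,5,[(11,15)])],[]),([(0,15,[(4,5),(3,3)])],[1,1]),([(0,3,[(3,3)])],[])],[2,2,1,1,1,1],false,2,1,[]),
    (true,[([(0,5,[(11,15)])],[]),([(0,4,[(4,5)]),(0,4,[(4,5)])],[])],[2,2,1,1,1,1,1,1,1],false,2,2,[3]),
    (true,[([(0,5,[(11,15)])],[]),([(0,4,[(4,5)]),(0,4,[(4,5)])],[]),([(0,3,[(3,3)])],[])],[2,1,1,1,1,1,1],false,1,0,[]),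
    (true,[([(0,5,[(11,15)])],[]),([(0,15,[(6,8)])],[1,1])],[2,2,2,1,1,1,1,1],false,2,3,[3,4]),
    (true,[([(0,5,[(11,15)])],[]),([(0,15,[(6,8)])],[1,1]),([(0,3,[(3,3)])],[])],[2,2,1,1,1,1],false,2,1,[]),
    (false,[([(0,5,[(11,15)]),(0,15,[(6,8)]),(0,12,[(4,4)])],[2,1,1,1,1,1])],[2],false,1,0,[]),
    (false,[([(0,5,[(11,15)]),(0,31,[(9,9)])],[2,2,2,2,1,1,1])],[1],false,1,0,[]),
    (true,[([(0,7,[(16,19)])],[])],[4,2,2,2,1,1,1,1,1,1,1],false,3,3,[4]),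
    (false,[([(0,7,[(16,19)]),(0,12,[(4,4)])],[4,2,1,1,1,1,1,1,1])],[],false,1,0,[])]),
  ([18,6,5,4,2,1], [
    (false,[],[18,6,5,4,2,1],true,5,5,[8,12,17,19]),
    (true,[([(0,15,[(6,8)])],[])],[6,5,4,3,1,1,1,1,1,1,1,1,1,1],false,5,3,[8]),
    (true,[([(0,15,[(6,8)])],[]),([(0,15,[(6,8)])],[2])],[6,4,1,1,1,1,1,1,1,1],false,3,4,[5,7,8]),
    (true,[([(0,15,[(6,8)])],[]),([(0,15,[(6,8)])],[2]),([(0,4,[(4,5)])],[1])],[6,1,1,1,1,1,1],false,2,5,[3,5]),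
    (true,[([(0,15,[(6,8)]),(0,3,[(3,3)])],[]),([(0,15,[(6,8)])],[]),([(0,4,[(4,5)])],[1])],[5,1,1,1,1,1,1],false,2,3,[3]),
    (true,[([(0,15,[(6,8)]),(0,3,[(3,3)])],[]),([(0,15,[(6,8)])],[]),([(0,4,[(4,5)])],[1]),([(0,3,[(3,3)])],[1,1,1])],[1,1,1,1,1],false,1,0,[2]),
    (false,[([(0,15,[(6,8)]),(0,15,[(6,8)]),(0,4,[(4,5)]),(0,4,[(3,3),(2,2)])],[1,1,1,1]),([(0,3,[(3,3)])],[1,1,1])],[],false,1,0,[]),
    (false,[([(0,15,[(6,8)]),(0,15,[(6,8)]),(0,4,[(4,5)]),(0,4,[(4,5)])],[1,1,1,1])],[5,1],true,2,2,[3]),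
    (false,[([(0,15,[(6,8)]),(0,15,[(6,8)]),(0,4,[(4,5)]),(0,4,[(4,5)])],[1,1,1,1]),([(0,3,[(3,3)])],[1,1,1])],[],false,1,0,[]),
    (true,[([(0,15,[(6,8)])],[]),([(0,15,[(6,8)])],[2]),([(0,19,[(6,7)])],[])],[6,1,1,1,1,1],false,2,3,[3,4]),
    (true,[([(0,15,[(6,8)]),(0,3,[(3,3)])],[]),([(0,15,[(6,8)])],[]),([(0,19,[(6,7)])],[])],[5,1,1,1,1,1],false,2,1,[]),
    (true,[([(0,5,[(6,8),(6,7)])],[]),([(0,15,[(6,8)]),(0,12,[(4,4)])],[])],[1,1,1,1,1,1,1,1,1],false,1,0,[]),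
    (true,[([(0,15,[(6,8)])],[]),([(0,15,[(6,8)])],[2]),([(0,31,[(8,8)])],[1])],[4,1,1,1,1],false,2,1,[]),
    (true,[([(0,25,[(9,12)])],[2])],[5,4,3,1,1,1,1,1,1,1,1,1,1],false,4,3,[5,7,10,11]),
    (true,[([(0,26,[(9,12),(5,5)])],[])],[5,4,1,1,1,1,1,1,1,1,1,1],false,3,4,[5]),
    (true,[([(0,26,[(9,12),(5,5)])],[]),([(0,4,[(4,5)])],[1])],[5,1,1,1,1,1,1,1,1],false,2,3,[3,4]),
    (true,[([(0,26,[(9,12),(5,5)])],[]),([(0,4,[(4,5)])],[1]),([(0,3,[(3,3)])],[1,1,1])],[1,1,1,1,1,1,1],false,1,0,[2]),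
    (true,[([(0,26,[(9,12),(5,5)])],[]),([(0,4,[(4,5)])],[1]),([(0,4,[(3,3),(2,2)])],[1,1])],[1,1,1,1,1,1],false,1,0,[]),
    (true,[([(0,8,[(9,12),(5,5),(4,4)])],[]),([(0,4,[(4,5)])],[1])],[1,1,1,1,1,1,1,1,1],false,1,0,[]),
    (true,[([(0,25,[(9,12)])],[]),([(0,19,[(6,7)])],[])],[6,4,1,1,1,1,1,1,1],false,3,4,[5,6]),
    (true,[([(0,25,[(9,12)])],[]),([(0,19,[(6,7)])],[]),([(0,4,[(4,5)])],[1])],[6,1,1,1,1,1],false,2,2,[3]),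
    (true,[([(0,5,[(9,12),(3,3)])],[]),([(0,19,[(6,7)])],[]),([(0,4,[(4,5)])],[1,1,1])],[1,1,1,1,1,1],false,1,0,[]),
    (true,[([(0,25,[(9,12)])],[]),([(0,22,[(6,7),(6,6)])],[3])],[1,1,1,1,1,1,1,1],false,1,0,[]),
    (true,[([(0,25,[(9,12)])],[3]),([(0,27,[(8,10)])],[])],[4,1,1,1,1,1,1,1],false,2,3,[3,4]),
    (true,[([(0,25,[(9,12)])],[3]),([(0,27,[(8,10)])],[]),([(0,3,[(3,3)])],[1,1])],[1,1,1,1,1,1],false,1,0,[2]),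
    (true,[([(0,25,[(9,12)])],[3]),([(0,27,[(8,10)])],[]),([(0,4,[(3,3),(2,2)])],[1])],[1,1,1,1,1],false,1,0,[]),
    (true,[([(0,25,[(9,12)])],[3]),([(0,27,[(8,10)])],[]),([(0,4,[(4,4)])],[1])],[1,1,1,1,1],false,1,0,[]),
    (false,[([(0,25,[(9,12)]),(0,39,[(11,11)])],[4,4,1,1,1,1,1])],[],false,1,0,[]),
    (true,[([(0,26,[(13,17)])],[])],[5,4,1,1,1,1,1,1,1,1,1,1],false,3,4,[5,7]),
    (true,[([(0,26,[(13,17)])],[]),([(0,4,[(4,5)])],[1])],[5,1,1,1,1,1,1,1,1],false,2,3,[3,4]),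
    (true,[([(0,26,[(13,17)])],[]),([(0,4,[(4,5)])],[1]),([(0,3,[(3,3)])],[1,1,1])],[1,1,1,1,1,1,1],false,1,0,[2]),
    (true,[([(0,26,[(13,17)])],[]),([(0,4,[(4,5)])],[1]),([(0,4,[(3,3),(2,2)])],[1,1])],[1,1,1,1,1,1],false,1,0,[]),
    (true,[([(0,8,[(13,17),(4,4)])],[]),([(0,4,[(4,5)])],[1])],[1,1,1,1,1,1,1,1,1],false,1,0,[]),
    (true,[([(0,26,[(13,17)])],[]),([(0,19,[(6,7)])],[])],[5,1,1,1,1,1,1,1],false,2,1,[]),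
    (true,[([(0,24,[(18,19)])],[])],[5,2,1,1,1,1,1,1,1,1,1,1],false,2,1,[])]),
  ([21,5,4,3,2,1], [
    (false,[],[21,5,4,3,2,1],true,5,4,[7,10,12,14,15,17,19]),
    (true,[([(0,19,[(6,7)])],[])],[6,5,3,2,1,1,1,1,1,1,1,1,1,1,1,1,1],false,4,5,[6,7]),
    (true,[([(0,19,[(6,7)])],[]),([(0,1,[(5,6)])],[])],[6,5,1,1,1,1,1,1,1,1,1,1,1,1],false,3,5,[4,5,6]),
    (true,[([(0,19,[(6,7)])],[]),([(0,27,[(5,6),(4,4)])],[])],[6,3,1,1,1,1,1,1,1,1,1,1],false,3,3,[4]),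
    (true,[([(0,19,[(6,7)]),(0,12,[(4,4)])],[]),([(0,27,[(5,6),(4,4)])],[])],[4,1,1,1,1,1,1,1,1,1,1,1],false,2,3,[4]),
    (true,[([(0,19,[(6,7)])],[]),([(0,27,[(5,6),(4,4)])],[]),([(0,15,[(4,4),(3,4)])],[2,1])],[1,1,1,1,1,1,1,1],false,1,0,[2]),
    (true,[([(0,19,[(6,7)])],[]),([(0,27,[(5,6),(4,4)])],[]),([(0,15,[(4,4),(3,4)]),(0,3,[(2,2)])],[])],[1,1,1,1,1,1,1,1],false,1,0,[]),
    (true,[([(0,35,[(6,7),(5,5)])],[]),([(0,1,[(5,6)])],[2])],[5,1,1,1,1,1,1,1,1,1,1,1],false,2,5,[3,5]),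
    (true,[([(0,35,[(6,7),(5,5)])],[]),([(0,1,[(5,6)]),(0,3,[(3,3)])],[])],[4,1,1,1,1,1,1,1,1,1,1,1],false,2,3,[3]),
    (true,[([(0,35,[(6,7),(5,5)])],[]),([(0,1,[(5,6)]),(0,3,[(3,3)])],[]),([(0,3,[(3,3)])],[1,1])],[1,1,1,1,1,1,1,1,1,1],false,1,0,[2]),
    (true,[([(0,35,[(6,7),(5,5)])],[]),([(0,1,[(5,6)]),(0,3,[(3,3)])],[]),([(0,4,[(3,3),(2,2)])],[1])],[1,1,1,1,1,1,1,1,1],false,1,0,[]),
    (false,[([(0,19,[(6,7)]),(0,1,[(5,6)]),(0,4,[(5,5)]),(0,4,[(4,5)])],[1,1,1,1,1,1,1,1])],[3,2],false,2,2,[3]),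
    (true,[([(0,35,[(6,7),(5,5)])],[]),([(0,1,[(5,6)]),(0,3,[(3,3)])],[]),([(0,4,[(4,5)])],[1])],[1,1,1,1,1,1,1,1,1],false,1,0,[]),
    (true,[([(0,19,[(6,7)])],[]),([(0,35,[(5,6),(6,6)])],[])],[5,3,1,1,1,1,1,1,1,1,1],false,3,3,[5]),
    (true,[([(0,19,[(6,7)])],[]),([(0,35,[(5,6),(6,6)])],[]),([(0,4,[(4,5)])],[])],[5,1,1,1,1,1,1,1],false,2,1,[]),
    (true,[([(0,19,[(6,7)])],[]),([(0,19,[(7,7)])],[1])],[6,3,2,1,1,1,1,1,1,1,1,1,1],false,4,2,[7]),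
    (true,[([(0,19,[(6,7)])],[]),([(0,30,[(7,7),(5,7)])],[])],[5,1,1,1,1,1,1,1,1,1,1],false,2,3,[3,4]),
    (false,[([(0,19,[(6,7)]),(0,19,[(7,7)]),(0,2,[(5,7),(3,3)])],[1,1,1,1,1,1,1,1,1])],[2,1],false,2,1,[]),
    (true,[([(0,19,[(6,7)])],[]),([(0,30,[(7,7),(5,7)])],[]),([(0,4,[(4,4)])],[1,1])],[1,1,1,1,1,1,1,1],false,1,0,[]),
    (true,[([(0,27,[(8,10)])],[])],[6,4,3,1,1,1,1,1,1,1,1,1,1,1,1,1],false,4,3,[5,7,9,10]),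
    (true,[([(0,27,[(8,10)])],[]),([(0,4,[(5,5)])],[])],[6,4,1,1,1,1,1,1,1,1,1,1,1],false,3,4,[4,5]),
    (true,[([(0,27,[(8,10)])],[]),([(0,31,[(5,5),(4,4)])],[1])],[4,3,1,1,1,1,1,1,1,1,1],false,3,3,[4]),
    (true,[([(0,30,[(8,10),(4,4)])],[]),([(0,31,[(5,5),(4,4)])],[])],[4,1,1,1,1,1,1,1,1,1],false,2,1,[]),
    (true,[([(0,27,[(8,10)])],[]),([(0,27,[(5,5),(5,5)])],[2])],[4,1,1,1,1,1,1,1,1,1,1],false,2,3,[3,4]),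
    (true,[([(0,27,[(8,10)])],[]),([(0,27,[(5,5),(5,5)])],[2]),([(0,3,[(3,3)])],[1,1])],[1,1,1,1,1,1,1,1,1],false,1,0,[2]),
    (true,[([(0,27,[(8,10)])],[]),([(0,27,[(5,5),(5,5)])],[2]),([(0,4,[(3,3),(2,2)])],[1])],[1,1,1,1,1,1,1,1],false,1,0,[]),
    (false,[([(0,5,[(8,10),(5,5)]),(0,31,[(5,5),(4,4)])],[1,1,1,1,1,1,1,1,1,1,1])],[1],false,1,0,[]),
    (true,[([(0,27,[(8,10)])],[]),([(0,19,[(6,7)])],[])],[6,3,1,1,1,1,1,1,1,1,1,1],false,3,3,[5,7]),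
    (true,[([(0,27,[(8,10)])],[]),([(0,19,[(6,7)])],[]),([(0,4,[(4,5)])],[])],[6,1,1,1,1,1,1,1,1],false,2,3,[3,4]),
    (true,[([(0,27,[(8,10)])],[]),([(0,27,[(6,7),(3,3)])],[2]),([(0,4,[(4,5)])],[1])],[1,1,1,1,1,1,1,1],false,1,0,[2]),
    (true,[([(0,27,[(8,10)])],[]),([(0,19,[(6,7)])],[]),([(0,15,[(4,5),(3,3)]),(0,3,[(2,2)])],[])],[1,1,1,1,1,1,1,1],false,1,0,[]),
    (true,[([(0,30,[(8,10),(4,4)])],[]),([(0,19,[(6,7)])],[]),([(0,4,[(4,5)])],[1,1])],[1,1,1,1,1,1,1,1],false,1,0,[]),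
    (true,[([(0,27,[(8,10)])],[]),([(0,19,[(6,7)])],[]),([(0,19,[(6,7)])],[1,1])],[3,1,1,1,1,1,1,1],false,2,1,[]),
    (true,[([(0,27,[(8,10)])],[]),([(0,31,[(8,9)])],[1])],[4,3,1,1,1,1,1,1,1,1,1],false,3,3,[5]),
    (true,[([(0,27,[(8,10)])],[]),([(0,31,[(8,9)])],[1]),([(0,4,[(4,5)])],[])],[4,1,1,1,1,1,1,1],false,2,1,[]),
    (true,[([(0,27,[(8,10)])],[]),([(0,39,[(10,10)])],[])],[4,3,1,1,1,1,1,1,1,1],false,3,2,[]),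
    (true,[([(0,35,[(11,12)])],[])],[5,4,3,1,1,1,1,1,1,1,1,1,1,1,1],false,4,3,[6,8,9]),
    (true,[([(0,35,[(11,12)])],[]),([(0,1,[(5,6)])],[2])],[5,1,1,1,1,1,1,1,1,1,1,1],false,2,4,[3,5]),
    (true,[([(0,35,[(11,12)])],[]),([(0,1,[(5,6)]),(0,3,[(3,3)])],[])],[4,1,1,1,1,1,1,1,1,1,1,1],false,2,2,[3]),
    (true,[([(0,35,[(11,12)])],[]),([(0,1,[(5,6)]),(0,3,[(3,3)])],[]),([(0,3,[(3,3)])],[1,1])],[1,1,1,1,1,1,1,1,1,1],false,1,0,[]),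
    (true,[([(0,35,[(11,12)])],[]),([(0,1,[(5,6)])],[2]),([(0,4,[(4,5)])],[1,1])],[1,1,1,1,1,1,1,1,1],false,1,0,[2]),
    (true,[([(0,35,[(11,12)])],[]),([(0,15,[(5,6),(2,2)])],[2]),([(0,4,[(4,5)])],[1])],[1,1,1,1,1,1,1,1],false,1,0,[]),
    (true,[([(0,35,[(11,12)])],[]),([(0,15,[(7,8)])],[2])],[4,1,1,1,1,1,1,1,1,1,1],false,2,2,[3]),
    (true,[([(0,35,[(11,12)])],[]),([(0,11,[(7,8),(3,3)])],[2])],[1,1,1,1,1,1,1,1,1,1,1],false,1,0,[]),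
    (false,[([(0,8,[(11,12),(9,9)])],[1,1,1,1,1,1,1,1,1,1,1,1,1,1,1])],[],false,1,0,[]),
    (true,[([(0,30,[(13,14)])],[])],[5,4,1,1,1,1,1,1,1,1,1,1,1,1,1],false,3,4,[5,7]),
    (true,[([(0,30,[(13,14)])],[]),([(0,4,[(4,5)])],[1])],[5,1,1,1,1,1,1,1,1,1,1,1],false,2,3,[3,4]),
    (true,[([(0,26,[(13,14),(3,3)])],[]),([(0,4,[(4,5)])],[1,1])],[1,1,1,1,1,1,1,1,1,1,1,1],false,1,0,[2]),
    (true,[([(0,30,[(13,14)])],[]),([(0,4,[(4,5)])],[1]),([(0,4,[(3,3),(2,2)])],[1,1])],[1,1,1,1,1,1,1,1,1],false,1,0,[]),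
    (true,[([(0,30,[(13,14)])],[]),([(0,4,[(4,5)])],[1]),([(0,4,[(4,4)])],[1,1])],[1,1,1,1,1,1,1,1,1],false,1,0,[]),
    (true,[([(0,30,[(13,14)])],[]),([(0,19,[(6,7)])],[])],[5,1,1,1,1,1,1,1,1,1,1],false,2,1,[]),
    (true,[([(0,5,[(15,15)])],[])],[6,1,1,1,1,1,1,1,1,1,1,1,1,1,1,1],false,2,4,[3,5]),
    (true,[([(0,16,[(15,15)]),(0,3,[(3,3)])],[])],[2,1,1,1,1,1,1,1,1,1,1,1,1,1,1,1,1],false,2,2,[3]),
    (false,[([(0,8,[(15,15),(3,3),(3,3)])],[1,1,1,1,1,1,1,1,1,1,1,1,1,1,1])],[],false,1,0,[]),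
    (false,[([(0,8,[(15,15),(4,5)])],[1,1,1,1,1,1,1,1,1,1,1,1,1,1,1])],[],false,1,0,[2]),
    (true,[([(0,26,[(15,15),(2,2)])],[]),([(0,4,[(4,5)])],[1,1])],[1,1,1,1,1,1,1,1,1,1,1,1],false,1,0,[]),
    (true,[([(0,26,[(16,17)])],[])],[5,1,1,1,1,1,1,1,1,1,1,1,1,1,1],false,2,3,[3,4]),
    (false,[([(0,8,[(16,17),(3,3)])],[1,1,1,1,1,1,1,1,1,1,1,1,1,1,1])],[],false,1,0,[2]),
    (true,[([(0,26,[(16,17)])],[]),([(0,4,[(3,3),(2,2)])],[1,1])],[1,1,1,1,1,1,1,1,1,1,1,1],false,1,0,[]),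
    (false,[([(0,8,[(16,17),(4,4)])],[1,1,1,1,1,1,1,1,1,1,1,1,1,1,1])],[],false,1,0,[]),
    (false,[([(0,13,[(18,19)])],[1,1,1,1,1,1,1,1,1,1,1,1,1,1,1,1])],[1],false,1,0,[2]),
    (false,[([(0,8,[(18,19),(2,2)])],[1,1,1,1,1,1,1,1,1,1,1,1,1,1,1])],[],false,1,0,[])])]

theorem cj6e_10_ok : runAllJ S40 R40 F40 18 cj6e_10 = true := by decide +kernel

/-- the minors -/
def G6e : List (List ℕ) := [
  [1,1,1,1,1,1,16,1,1,1,1,1], [1,1,1,1,1,16,1,1,1,1,1,1], [1,1,1,1,1,1,1,9,1,1,1,1],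
  [1,1,1,1,9,1,1,1,1,1,1,1], [1,1,1,1,1,1,1,1,6,1,1,1], [1,1,1,6,1,1,1,1,1,1,1,1],
  [1,1,1,1,1,1,1,1,1,5,1,1], [1,1,5,1,1,1,1,1,1,1,1,1], [1,1,1,1,1,1,1,1,1,1,4,1],
  [1,4,1,1,1,1,1,1,1,1,1,1], [1,1,1,1,1,1,1,1,1,1,1,4], [4,1,1,1,1,1,1,1,1,1,1,1],
  [1,1,3,1,1,1,1,1,1,1,2,1], [1,2,1,1,1,1,1,1,1,3,1,1], [1,1,1,1,5,8,1,1,1,1,1,1],
  [1,1,1,1,1,1,8,5,1,1,1,1], [1,1,1,1,4,1,1,1,1,1,1,2], [2,1,1,1,1,1,1,4,1,1,1,1],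
  [2,1,1,1,1,1,1,1,1,3,1,1], [1,1,3,1,1,1,1,1,1,1,1,2], [2,1,1,1,1,8,2,1,1,1,1,1],
  [1,1,1,1,1,2,8,1,1,1,1,2], [1,1,1,1,1,6,1,1,1,1,1,2], [2,1,1,1,1,1,6,1,1,1,1,1],
  [2,1,1,1,1,1,1,1,2,1,2,1], [1,2,1,2,1,1,1,1,1,1,1,2], [3,1,1,1,1,1,1,1,2,1,1,1],
  [1,1,1,2,1,1,1,1,1,1,1,3], [1,1,1,1,1,1,1,1,2,1,1,3], [3,1,1,2,1,1,1,1,1,1,1,1],
  [2,1,1,4,1,1,1,1,1,1,1,1], [1,1,1,1,1,1,1,1,4,1,1,2], [1,1,1,1,2,1,1,1,1,1,1,3],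
  [3,1,1,1,1,1,1,2,1,1,1,1], [3,1,2,1,1,1,1,1,1,1,1,1], [1,1,1,1,1,1,1,1,1,2,1,3],
  [3,1,1,1,3,1,1,1,1,1,1,1], [1,1,1,1,1,1,1,3,1,1,1,3], [1,1,2,1,1,3,1,1,1,1,1,2],
  [2,1,1,1,1,1,3,1,1,2,1,1], [2,2,2,1,1,1,1,1,1,1,1,1], [1,1,1,1,1,1,1,1,1,2,2,2],
  [1,1,1,1,2,1,1,1,3,1,1,2], [2,1,1,3,1,1,1,2,1,1,1,1], [2,1,1,1,1,1,2,1,1,1,1,2],
  [2,1,1,1,1,2,1,1,1,1,1,2], [1,1,1,2,7,1,1,1,1,1,1,1], [1,1,1,1,1,1,1,7,2,1,1,1],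
  [2,2,1,1,3,1,1,1,1,1,1,1], [1,1,1,1,1,1,1,3,1,1,2,2], [1,1,1,1,5,1,1,1,1,1,2,1],
  [1,2,1,1,1,1,1,5,1,1,1,1], [1,1,1,2,1,1,1,1,1,1,3,1], [1,3,1,1,1,1,1,1,2,1,1,1],
  [1,1,1,1,4,2,1,1,1,1,2,1], [1,2,1,1,1,1,2,4,1,1,1,1], [1,1,1,1,1,4,3,1,1,1,3,1],
  [1,3,1,1,1,3,4,1,1,1,1,1], [1,1,2,1,1,1,1,1,1,1,3,1], [1,3,1,1,1,1,1,1,1,2,1,1],
  [1,2,1,1,1,1,1,3,1,2,1,1], [1,1,2,1,3,1,1,1,1,1,2,1], [1,2,1,1,1,1,1,1,1,1,3,1],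
  [1,3,1,1,1,1,1,1,1,1,2,1], [2,1,1,1,1,5,1,1,1,2,1,1], [1,1,2,1,1,1,5,1,1,1,1,2],
  [1,1,1,1,4,1,1,1,4,1,1,1], [1,1,1,4,1,1,1,4,1,1,1,1], [1,1,3,1,5,1,1,1,1,1,1,1],
  [1,1,1,1,1,1,1,5,1,3,1,1], [1,1,4,1,1,4,1,1,1,1,1,1], [1,1,1,1,1,1,4,1,1,4,1,1],
  [1,1,3,1,1,1,3,1,2,1,1,1], [1,1,1,2,1,3,1,1,1,3,1,1], [1,1,2,1,6,2,1,1,1,1,1,1],
  [1,1,1,1,1,1,2,6,1,2,1,1], [2,1,2,1,1,1,1,1,2,1,1,1], [1,1,1,2,1,1,1,1,1,2,1,2],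
  [1,1,1,1,1,5,1,2,4,1,1,1], [1,1,1,4,2,1,5,1,1,1,1,1], [1,1,1,1,1,1,1,2,4,2,1,1],
  [1,1,2,4,2,1,1,1,1,1,1,1], [2,2,1,1,1,1,3,1,1,1,1,1], [1,1,1,1,1,3,1,1,1,1,2,2],
  [1,1,2,1,1,12,1,1,1,1,1,1], [1,1,1,1,1,1,12,1,1,2,1,1], [1,2,4,1,1,1,1,1,1,1,1,1],
  [1,1,1,1,1,1,1,1,1,4,2,1], [1,1,1,1,5,1,8,1,1,1,1,1], [1,1,1,1,1,8,1,5,1,1,1,1],
  [1,2,1,1,1,1,5,3,1,1,1,1], [1,1,1,1,3,5,1,1,1,1,2,1], [1,1,1,3,1,4,1,1,3,1,1,1],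
  [1,1,1,3,1,1,4,1,3,1,1,1], [1,1,1,1,4,1,4,1,3,1,1,1], [1,1,1,3,1,4,1,4,1,1,1,1],
  [1,2,1,1,2,1,1,1,3,1,1,1], [1,1,1,3,1,1,1,2,1,1,2,1], [1,1,1,1,1,1,7,1,1,2,2,1],
  [1,2,2,1,1,7,1,1,1,1,1,1], [1,1,1,1,1,1,11,1,1,1,2,1], [1,2,1,1,1,11,1,1,1,1,1,1],
  [1,1,2,1,1,1,8,1,2,1,1,1], [1,1,1,2,1,8,1,1,1,2,1,1], [1,1,1,1,1,1,1,4,4,1,1,1],
  [1,1,1,4,4,1,1,1,1,1,1,1], [1,1,3,1,1,2,1,1,1,2,1,1], [1,1,2,1,1,1,2,1,1,3,1,1],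
  [1,1,1,1,1,1,1,3,5,1,1,1], [1,1,1,5,3,1,1,1,1,1,1,1], [1,1,1,3,1,1,1,1,2,2,1,1],
  [1,1,2,2,1,1,1,1,3,1,1,1], [1,1,1,1,1,6,6,2,2,1,1,1], [1,1,1,2,2,6,6,1,1,1,1,1],
  [1,1,1,1,1,5,5,1,2,2,1,1], [1,1,2,2,1,5,5,1,1,1,1,1], [1,2,1,1,1,1,11,1,1,1,1,1],
  [1,1,1,1,1,11,1,1,1,1,2,1], [1,2,1,1,1,1,1,1,2,1,2,1], [1,2,1,2,1,1,1,1,1,1,2,1],
  [1,1,4,2,1,1,1,1,1,1,1,1], [1,1,1,1,1,1,1,1,2,4,1,1], [1,1,2,5,1,1,1,1,1,1,1,1],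
  [1,1,1,1,1,1,1,1,5,2,1,1], [1,1,3,3,1,1,1,2,1,1,1,1], [1,1,1,1,2,1,1,1,3,3,1,1],
  [1,1,1,1,1,1,1,3,1,4,1,1], [1,1,4,1,3,1,1,1,1,1,1,1]]

noncomputable def T6e : BT :=
  .split 0 4 (.split 1 4 (.split 2 5 (.split 3 6 (.split 4 9 (.split 5 16 (.split 6 16 (.split 7
  9 (.split 8 6 (.split 9 5 (.split 10 4 (.split 11 4 (.split 11 2 (.split 0 2 (.split 10 2
  (.split 9 3 (.split 1 2 (.split 2 3 (.split 8 3 (.split 3 3 (.split 7 5 (.split 6 8 (.split 5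
  8 (.split 4 5 .small (.split 9 2 .small (.split 7 3 (.split 6 4 .small (.split 5 4 .small
  (.split 4 7 .small (.split 2 2 .small (.minor 74))))) (.split 6 4 (.split 5 4 .small (.split 4
  7 .small (.split 2 2 .small (.minor 74)))) (.split 5 4 (.split 4 7 .small (.split 3 2 .small
  (.minor 46))) (.split 4 7 (.split 2 2 .small (.split 4 6 .small (.minor 74))) (.split 2 2
  .small (.minor 74)))))))) (.split 4 5 (.split 5 12 (.split 9 2 .small (.split 3 2 .small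
  (.minor 103))) (.split 2 2 .small (.minor 84))) (.minor 14))) (.split 4 5 (.split 5 8 (.split
  6 12 (.split 9 2 .small (.split 7 3 .small (.split 5 4 .small (.split 4 3 .small (.split 2 2
  .small (.split 8 2 .small (.minor 102))))))) (.split 9 2 .small (.minor 85))) (.split 6 12
  (.split 5 12 (.split 9 2 .small (.split 3 2 (.split 8 2 .small (.minor 114)) (.minor 103)))
  (.split 2 2 (.split 7 3 .small (.split 8 2 .small (.minor 112))) (.minor 84))) (.split 9 2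
  (.split 5 12 (.split 7 3 .small (.split 8 2 .small (.minor 112))) (.split 2 2 (.split 7 3
  .small (.split 8 2 .small (.minor 112))) (.minor 84))) (.minor 85)))) (.minor 88))) (.split 5
  8 (.split 6 8 (.split 4 5 (.split 9 2 .small (.split 7 7 (.split 6 4 .small (.split 7 6 .small
  (.minor 75))) (.split 6 2 .small (.minor 75)))) (.split 9 2 (.split 7 7 (.split 6 4 .small
  (.split 5 4 .small (.split 4 7 .small (.split 2 2 .small (.minor 74))))) (.split 8 2 (.split 6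
  4 .small (.split 5 4 .small (.split 4 7 .small (.split 2 2 .small (.minor 74))))) (.minor
  47))) (.split 7 7 (.split 6 4 (.split 5 4 (.split 4 7 .small (.split 3 2 .small (.minor 46)))
  (.split 4 7 (.split 2 2 .small (.split 4 6 .small (.minor 74))) (.split 2 2 .small (.minor
  74)))) (.split 7 6 (.split 5 4 (.split 4 7 .small (.split 3 2 .small (.minor 46))) (.split 4 7
  (.split 2 2 .small (.split 4 6 (.split 8 2 .small (.split 3 2 .small (.split 6 6 .small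
  (.split 5 5 .small (.minor 114))))) (.minor 74))) (.split 2 2 (.split 3 2 .small (.minor 46))
  (.minor 74)))) (.minor 75))) (.split 6 2 (.split 8 2 (.split 5 4 .small (.split 4 7 .small
  (.split 2 2 .small (.minor 74)))) (.minor 47)) (.minor 75))))) (.minor 15)) (.minor 89)))
  (.split 4 7 (.split 7 5 (.split 6 8 (.split 5 8 (.split 4 4 (.split 9 2 .small (.split 8 2
  (.split 3 4 .small (.split 7 4 (.split 6 4 .small (.split 5 4 .small (.split 2 2 .small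
  (.split 3 5 .small (.minor 122))))) (.minor 67))) (.minor 110))) (.split 3 4 (.split 9 2
  .small (.split 8 2 (.split 7 3 .small (.split 6 4 .small (.split 5 4 .small (.split 7 4 .small
  (.minor 95))))) (.minor 110))) (.minor 105))) (.split 4 5 (.split 7 4 (.split 9 2 (.split 5 12
  (.split 6 4 .small (.split 4 3 .small (.split 3 5 .small (.minor 109)))) (.split 2 2 (.split 6
  4 .small (.split 4 3 .small (.split 3 5 .small (.minor 109)))) (.minor 84))) (.minor 103))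
  (.minor 95)) (.minor 14))) (.split 4 5 (.split 5 8 (.split 9 2 (.split 6 12 (.split 7 3 .small
  (.split 5 4 .small (.split 7 4 (.split 4 3 .small (.split 3 4 .small (.minor 79))) (.minor
  95)))) (.split 7 3 (.split 5 4 .small (.split 4 3 .small (.split 3 4 .small (.minor 79))))
  (.split 5 4 (.split 4 3 .small (.split 3 4 .small (.minor 79))) (.split 7 4 (.split 4 3
  (.split 3 4 .small (.split 4 2 .small (.minor 79))) (.split 3 4 .small (.minor 79))) (.minor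
  95))))) (.split 6 12 (.split 8 2 (.split 3 4 (.split 7 3 .small (.split 5 4 .small (.split 7 4
  .small (.minor 95)))) (.split 4 2 (.split 7 4 (.split 5 4 .small (.split 2 2 .small (.split 3
  5 .small (.minor 122)))) (.minor 67)) (.minor 79))) (.minor 110)) (.minor 85))) (.split 2 2
  (.split 4 2 (.split 7 4 (.split 9 2 (.split 6 12 .small (.split 5 12 .small (.split 3 4 .small
  (.split 7 2 .small (.split 8 2 .small (.minor 112)))))) (.minor 103)) (.minor 95)) (.minor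
  113)) (.minor 115))) (.minor 88))) (.split 3 4 (.split 5 4 (.split 6 8 (.split 4 4 (.split 9 2
  .small (.split 8 2 .small (.minor 110))) (.split 9 2 (.split 7 7 .small (.split 8 2 .small
  (.minor 47))) (.split 8 2 (.split 7 7 (.split 6 4 .small (.split 7 6 .small (.minor 75)))
  (.split 6 2 .small (.minor 75))) (.minor 110)))) (.minor 15)) (.minor 95)) (.minor 67)))
  (.minor 46))) (.split 7 7 (.split 3 3 (.split 6 8 (.split 5 8 (.split 4 5 (.split 7 4 (.split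
  2 2 .small (.split 3 2 (.split 8 4 .small (.split 4 4 (.split 6 4 .small (.split 5 4 .small
  (.split 9 2 .small (.split 7 2 .small (.minor 80))))) (.minor 66))) (.minor 111))) (.split 8 4
  (.split 2 2 .small (.split 3 2 (.split 6 4 .small (.split 4 4 .small (.minor 94))) (.minor
  111))) (.minor 104))) (.split 6 4 (.split 8 4 (.split 7 4 (.split 2 2 .small (.split 3 2
  .small (.minor 111))) (.split 2 2 (.split 5 4 .small (.split 4 7 .small (.split 3 2 .small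
  (.minor 46)))) (.split 3 2 (.split 5 4 (.split 4 7 .small (.split 5 2 .small (.minor 74)))
  (.split 4 6 .small (.minor 74))) (.minor 111)))) (.minor 66)) (.minor 94))) (.split 4 5
  (.split 7 5 (.split 2 2 (.split 5 12 (.split 8 4 .small (.split 4 4 (.split 7 2 .small (.minor
  78)) (.minor 66))) (.split 8 4 (.split 7 3 .small (.split 6 6 .small (.minor 112))) (.split 4
  4 (.split 7 2 .small (.minor 78)) (.minor 66)))) (.split 3 2 (.split 5 12 (.split 8 4 (.split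
  7 3 .small (.split 6 6 .small (.minor 112))) (.split 4 4 (.split 7 2 (.split 6 4 .small
  (.split 9 2 .small (.split 6 5 .small (.minor 114)))) (.minor 78)) (.minor 66))) (.minor 84))
  (.minor 111))) (.minor 89)) (.minor 14))) (.split 2 2 (.split 4 4 (.split 7 5 (.split 5 8
  (.split 6 12 (.split 8 4 .small (.split 7 4 .small (.minor 104))) (.split 9 2 (.split 8 4
  .small (.split 7 4 .small (.minor 104))) (.minor 85))) (.split 7 2 (.split 9 2 (.split 6 12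
  .small (.split 5 12 .small (.split 8 4 .small (.split 4 2 .small (.split 3 2 .small (.minor
  113)))))) (.minor 114)) (.minor 112))) (.minor 15)) (.minor 94)) (.minor 102))) (.split 2 2
  (.split 4 7 (.split 5 4 (.split 6 4 (.split 9 2 (.split 7 4 .small (.split 3 4 .small (.minor
  67))) (.minor 110)) (.minor 93)) (.minor 92)) (.minor 46)) (.minor 111))) (.minor 47)))
  (.split 3 5 (.split 4 5 (.split 5 12 (.split 8 3 (.split 7 5 (.split 6 8 (.split 3 3 (.split 5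
  6 (.split 9 2 .small (.split 5 2 (.split 8 2 .small (.split 6 3 .small (.minor 72))) (.minor
  106))) (.split 2 4 (.split 9 2 .small (.minor 106)) (.minor 70))) (.split 2 4 (.split 7 2
  (.split 5 6 (.split 9 2 .small (.split 5 2 .small (.minor 106))) (.split 6 5 (.split 9 2
  .small (.minor 106)) (.minor 115))) (.minor 124)) (.minor 120))) (.split 8 2 (.split 3 3
  (.split 5 6 (.split 9 2 (.split 6 12 .small (.split 7 3 .small (.split 4 3 .small (.split 2 4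
  .small (.minor 127))))) (.split 5 2 (.split 6 12 (.split 7 3 .small (.split 4 3 .small (.split
  2 4 .small (.minor 127)))) (.minor 85)) (.minor 106))) (.split 2 4 (.split 3 2 (.split 9 2
  .small (.minor 106)) (.minor 115)) (.minor 70))) (.split 2 4 (.split 5 5 (.split 7 2 (.split 9
  2 .small (.split 5 2 (.split 6 12 .small (.minor 85)) (.minor 106))) (.minor 124)) (.minor
  115)) (.minor 120))) (.minor 72))) (.split 3 3 (.split 5 8 (.split 6 8 (.split 9 2 (.split 8 2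
  (.split 7 7 .small (.split 6 4 .small (.split 5 4 .small (.split 2 4 .small (.minor 70)))))
  (.split 6 3 (.split 7 7 .small (.minor 47)) (.minor 72))) (.split 5 2 (.split 8 2 (.split 7 7
  (.split 6 4 .small (.split 7 6 .small (.minor 75))) (.split 6 2 .small (.minor 75))) (.split 6
  3 (.split 7 7 (.split 4 3 .small (.split 2 4 .small (.minor 127))) (.minor 47)) (.minor 72)))
  (.minor 106))) (.minor 15)) (.minor 89)) (.minor 124))) (.split 3 2 (.split 6 3 (.split 7 7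
  (.split 8 4 (.split 7 4 (.split 5 6 (.split 9 2 .small (.split 5 2 .small (.minor 106)))
  (.split 2 4 (.split 9 2 .small (.minor 106)) (.minor 70))) (.split 5 6 (.split 9 2 (.split 4 3
  .small (.split 2 4 .small (.minor 127))) (.split 5 2 (.split 2 4 .small (.split 4 3 .small
  (.minor 127))) (.minor 106))) (.split 2 4 (.split 9 2 (.split 4 3 .small (.split 5 9 .small
  (.split 7 5 .small (.minor 89)))) (.minor 106)) (.minor 70)))) (.split 4 4 (.split 7 4 (.split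
  5 6 (.split 2 4 (.split 9 2 .small (.split 5 2 .small (.minor 106))) (.split 4 3 (.split 5 4
  (.split 9 2 (.split 8 5 .small (.split 7 3 .small (.minor 108))) (.split 5 2 (.split 7 2
  (.split 8 5 .small (.minor 123)) (.minor 80)) (.minor 106))) (.minor 70)) (.minor 127)))
  (.split 2 4 (.split 7 2 (.split 9 2 .small (.minor 106)) (.minor 78)) (.minor 70))) (.minor
  104)) (.minor 66))) (.minor 47)) (.minor 72)) (.minor 111))) (.minor 84)) (.minor 68)) (.minor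
  122))) (.split 2 4 (.split 5 11 (.split 6 11 (.split 7 5 (.split 8 3 (.split 3 3 (.split 4 5
  (.split 7 3 (.split 2 2 (.split 6 6 (.split 5 6 .small (.split 1 3 .small (.split 6 4 (.split
  8 2 .small (.minor 53)) (.minor 57)))) (.split 5 6 (.split 1 3 .small (.split 5 3 (.split 8 2
  .small (.minor 53)) (.minor 57))) (.split 1 3 (.split 9 2 .small (.split 8 2 .small (.minor
  114))) (.minor 57)))) (.split 5 7 (.split 9 2 (.split 6 6 (.split 8 2 .small (.split 1 3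
  .small (.minor 53))) (.split 8 2 (.split 4 3 .small (.split 1 3 .small (.split 5 3 .small
  (.minor 57)))) (.split 1 3 (.split 2 3 .small (.minor 72)) (.minor 53)))) (.split 1 3 (.split
  6 6 (.split 8 2 .small (.split 4 3 .small (.split 2 3 .small (.split 5 2 .small (.minor
  106))))) (.split 8 2 (.split 4 3 .small (.split 5 4 .small (.split 2 3 .small (.minor 106))))
  (.split 2 3 (.split 5 5 (.split 6 8 .small (.minor 102)) (.minor 114)) (.minor 72)))) (.minor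
  59))) (.minor 99))) (.split 6 5 (.split 9 2 (.split 2 2 (.split 5 6 .small (.split 1 3 .small
  (.split 6 4 (.split 8 2 .small (.minor 53)) (.minor 57)))) (.split 5 7 (.split 1 3 (.split 8 2
  .small (.split 4 3 .small (.split 5 4 .small (.split 2 3 .small (.split 6 3 .small (.minor
  72)))))) (.split 8 2 (.split 4 3 .small (.split 5 4 .small (.split 6 4 (.split 7 4 .small
  (.split 6 2 .small (.minor 55))) (.minor 57)))) (.minor 53))) (.minor 99))) (.minor 60))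
  (.minor 90))) (.split 2 3 (.split 5 8 (.split 6 8 (.split 7 3 (.split 9 2 (.split 1 3 (.split
  6 4 .small (.split 5 4 .small (.split 4 7 .small (.split 2 2 .small (.minor 74))))) (.split 8
  2 (.split 6 4 .small (.split 5 3 .small (.minor 57))) (.minor 53))) (.split 1 3 (.split 6 4
  (.split 5 4 (.split 4 7 .small (.split 3 2 .small (.minor 46))) (.split 4 7 (.split 2 2 .small
  (.split 4 6 .small (.minor 74))) (.split 2 2 .small (.minor 74)))) (.split 5 4 (.split 4 7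
  (.split 2 2 .small (.split 8 2 .small (.split 3 2 .small (.split 7 2 .small (.split 6 6 .small
  (.split 5 2 .small (.split 4 6 .small (.minor 74)))))))) (.split 3 2 (.split 2 2 .small
  (.split 5 2 .small (.minor 74))) (.minor 46))) (.split 4 7 (.split 2 2 .small (.split 4 6
  (.split 5 7 (.split 8 2 .small (.split 3 2 .small (.split 7 2 .small (.split 6 6 .small
  (.split 5 5 .small (.minor 114)))))) (.minor 99)) (.minor 74))) (.split 2 2 (.split 3 2 .small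
  (.minor 46)) (.minor 74))))) (.minor 59))) (.split 6 5 (.split 9 2 (.split 1 3 (.split 5 4
  (.split 4 7 .small (.split 3 2 .small (.minor 46))) (.split 4 7 (.split 8 2 .small (.split 2 2
  .small (.split 4 6 .small (.minor 74)))) (.split 2 2 .small (.minor 74)))) (.split 8 2 (.split
  5 4 (.split 4 7 .small (.split 3 2 (.split 7 4 .small (.split 6 2 .small (.minor 55))) (.minor
  46))) (.split 6 4 (.split 4 7 (.split 7 4 .small (.split 6 2 (.split 2 2 .small (.split 4 6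
  .small (.minor 74))) (.minor 55))) (.split 2 2 (.split 3 2 .small (.minor 46)) (.minor 74)))
  (.minor 57))) (.minor 53))) (.minor 60)) (.minor 90))) (.minor 88)) (.minor 14)) (.minor 68)))
  (.split 4 7 (.split 9 2 (.split 7 3 (.split 4 4 (.split 2 2 (.split 6 6 (.split 5 6 .small
  (.split 1 3 .small (.split 6 4 (.split 8 2 .small (.minor 53)) (.minor 57)))) (.split 5 6
  (.split 1 3 .small (.split 5 3 (.split 8 2 .small (.minor 53)) (.minor 57))) (.split 1 3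
  (.split 4 2 .small (.minor 113)) (.minor 57)))) (.split 3 5 (.split 5 7 (.split 6 6 (.split 8
  2 .small (.split 1 3 .small (.minor 53))) (.split 5 5 (.split 8 2 (.split 1 3 .small (.split 5
  3 (.split 7 2 .small (.split 2 3 .small (.minor 124))) (.minor 57))) (.split 1 3 (.split 2 3
  .small (.minor 72)) (.minor 53))) (.minor 115))) (.minor 99)) (.minor 122))) (.split 3 4
  (.split 2 2 (.split 6 6 (.split 5 6 .small (.split 1 3 .small (.split 6 4 (.split 8 2 .small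
  (.minor 53)) (.minor 57)))) (.split 5 6 (.split 1 3 .small (.split 5 3 (.split 8 2 .small
  (.minor 53)) (.minor 57))) (.minor 113))) (.split 5 7 (.split 6 6 (.split 8 2 (.split 1 3
  .small (.split 5 4 .small (.split 4 6 (.split 6 4 .small (.minor 57)) (.minor 74)))) (.split 1
  3 (.split 5 4 .small (.split 4 6 (.split 2 3 .small (.split 4 5 .small (.minor 68))) (.minor
  74))) (.minor 53))) (.split 5 5 (.split 8 2 (.split 1 3 .small (.split 5 3 (.split 7 2 .small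
  (.split 2 3 .small (.minor 124))) (.minor 57))) (.split 1 3 (.split 2 3 (.split 6 8 .small
  (.minor 102)) (.minor 72)) (.minor 53))) (.minor 115))) (.minor 99))) (.minor 105))) (.split 2
  3 (.split 6 5 (.split 4 4 (.split 5 6 (.split 1 3 (.split 3 4 .small (.split 7 4 .small
  (.minor 67))) (.split 8 2 (.split 3 4 .small (.split 7 4 (.split 5 3 .small (.split 6 4 .small
  (.minor 57))) (.minor 67))) (.minor 53))) (.split 7 4 (.split 1 3 (.split 3 4 .small (.split 8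
  2 .small (.split 2 2 .small (.split 3 5 (.split 4 2 .small (.minor 81)) (.minor 122)))))
  (.split 6 4 (.split 8 2 (.split 3 4 .small (.split 5 8 (.split 4 2 .small (.split 2 2 .small
  (.minor 81))) (.split 2 2 (.split 4 2 .small (.split 3 5 .small (.split 4 3 .small (.minor
  109)))) (.minor 99)))) (.minor 53)) (.minor 57))) (.minor 95))) (.split 3 4 (.split 5 6
  (.split 1 3 (.split 8 2 .small (.split 2 2 .small (.split 5 3 .small (.split 4 6 .small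
  (.minor 74))))) (.split 8 2 (.split 7 4 (.split 5 3 .small (.split 6 4 .small (.minor 57)))
  (.split 5 4 (.split 6 2 .small (.minor 55)) (.minor 95))) (.minor 53))) (.split 7 4 (.split 1
  3 (.split 8 2 .small (.split 2 2 .small (.split 4 6 (.split 5 7 .small (.minor 99)) (.minor
  74)))) (.split 6 4 (.split 8 2 (.split 5 8 (.split 4 5 .small (.split 2 2 .small (.split 4 6
  .small (.minor 74)))) (.split 2 2 (.split 4 5 .small (.minor 14)) (.minor 99))) (.minor 53))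
  (.minor 57))) (.minor 95))) (.minor 105))) (.minor 90)) (.minor 124))) (.split 1 3 (.split 5 8
  (.split 7 3 (.split 8 2 (.split 4 4 (.split 2 2 (.split 6 6 .small (.split 3 4 .small (.split
  4 2 .small (.minor 79)))) (.split 3 5 (.split 5 7 (.split 6 6 (.split 5 4 (.split 2 3 .small
  (.split 5 2 .small (.minor 106))) (.split 2 3 .small (.minor 106))) (.split 5 5 (.split 2 3
  (.split 6 8 .small (.split 4 2 .small (.split 3 4 .small (.minor 79)))) (.split 5 2 (.split 7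
  2 (.split 6 8 .small (.split 4 2 .small (.split 3 4 .small (.minor 79)))) (.minor 124))
  (.minor 106))) (.minor 115))) (.minor 99)) (.minor 122))) (.split 3 4 (.split 2 2 (.split 6 6
  .small (.split 5 6 .small (.minor 113))) (.split 5 7 (.split 6 6 (.split 5 4 (.split 2 3
  .small (.split 4 5 .small (.minor 68))) (.split 2 3 (.split 4 6 .small (.minor 74)) (.minor
  106))) (.split 5 5 (.split 2 3 (.split 6 8 (.split 4 5 .small (.split 7 2 .small (.split 5 3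
  .small (.split 4 6 .small (.minor 74))))) (.split 4 5 .small (.minor 88))) (.split 4 5 (.split
  5 2 (.split 7 2 .small (.minor 124)) (.minor 106)) (.minor 68))) (.minor 115))) (.minor 99)))
  (.minor 105))) (.minor 110)) (.minor 60)) (.minor 103)) (.minor 59))) (.minor 46))) (.split 1
  3 (.split 4 2 (.split 2 2 (.split 3 3 (.split 7 3 (.split 6 6 (.split 5 6 .small (.split 8 4
  .small (.split 7 2 .small (.minor 78)))) (.split 5 6 (.split 8 4 .small (.split 9 2 .small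
  (.split 5 5 (.split 7 2 .small (.minor 80)) (.minor 114)))) (.split 7 2 (.split 9 2 .small
  (.minor 114)) (.minor 112)))) (.split 6 5 (.split 8 5 (.split 9 2 .small (.minor 60)) (.minor
  108)) (.minor 90))) (.split 5 4 (.split 6 4 (.split 9 2 (.split 7 3 .small (.split 8 5 .small
  (.minor 108))) (.minor 110)) (.minor 93)) (.minor 92))) (.split 3 2 (.split 5 7 (.split 6 8
  (.split 8 4 (.split 7 3 (.split 9 2 .small (.split 2 3 .small (.split 5 2 .small (.minor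
  106)))) (.split 6 5 (.split 9 2 .small (.minor 60)) (.minor 90))) (.split 7 4 (.split 2 3
  (.split 9 2 (.split 7 2 .small (.split 5 5 .small (.minor 78))) (.split 7 2 (.split 8 5 .small
  (.minor 123)) (.minor 80))) (.split 6 3 (.split 9 2 (.split 8 5 .small (.split 7 3 (.split 5 4
  .small (.split 7 2 .small (.split 5 5 .small (.minor 78)))) (.minor 108))) (.split 5 2 (.split
  7 2 (.split 8 5 .small (.minor 123)) (.minor 80)) (.minor 106))) (.minor 72))) (.minor 104)))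
  (.minor 102)) (.minor 99)) (.minor 111))) (.minor 96)) (.minor 53))) (.minor 51)) (.minor
  116)) (.minor 101)) (.minor 86))) (.split 1 2 (.split 6 12 (.split 7 5 (.split 8 5 (.split 2 3
  (.split 3 3 (.split 5 8 (.split 4 5 (.split 8 3 (.split 6 6 (.split 2 2 .small (.split 6 2
  (.split 9 4 .small (.split 7 3 .small (.minor 126))) (.minor 107))) (.split 2 2 (.split 9 4
  .small (.minor 71)) (.minor 107))) (.split 4 2 (.split 9 4 (.split 6 6 (.split 2 2 .small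
  (.split 3 2 .small (.minor 111))) (.split 2 2 .small (.minor 107))) (.minor 121)) (.minor
  125))) (.split 6 8 (.split 8 3 (.split 2 2 (.split 7 3 (.split 6 4 (.split 5 4 .small (.split
  3 2 .small (.minor 73))) (.split 9 4 .small (.minor 71))) (.split 9 4 (.split 6 4 .small
  (.split 5 4 .small (.split 3 2 .small (.minor 73)))) (.minor 126))) (.split 6 2 (.split 9 4
  (.split 7 3 (.split 5 4 .small (.split 3 2 .small (.minor 73))) (.split 5 4 (.split 4 7 .small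
  (.split 3 2 .small (.minor 46))) (.split 3 2 .small (.minor 73)))) (.split 7 3 (.split 8 2
  (.split 5 4 .small (.split 3 2 .small (.minor 73))) (.minor 121)) (.minor 126))) (.minor
  107))) (.minor 125)) (.minor 88))) (.split 3 2 (.split 4 5 (.split 8 3 (.split 6 6 (.split 2 2
  (.split 5 12 .small (.split 7 3 .small (.split 9 4 .small (.minor 126)))) (.split 5 12 (.split
  6 2 (.split 7 3 .small (.split 9 4 .small (.minor 126))) (.minor 107)) (.minor 84))) (.split 2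
  2 (.split 8 2 (.split 9 4 .small (.minor 71)) (.minor 114)) (.minor 107))) (.split 4 2 (.split
  6 5 (.split 9 4 (.split 2 2 .small (.split 5 12 (.split 6 2 .small (.minor 107)) (.minor 84)))
  (.minor 121)) (.minor 114)) (.minor 125))) (.minor 14)) (.minor 73))) (.split 4 7 (.split 5 3
  (.split 8 2 (.split 3 4 (.split 6 6 (.split 4 4 (.split 9 4 .small (.split 6 4 .small (.minor
  71))) (.split 9 4 (.split 7 3 .small (.split 2 2 .small (.split 6 2 .small (.minor 107))))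
  (.split 6 4 (.split 7 3 (.split 2 2 .small (.split 6 2 .small (.minor 107))) (.minor 126))
  (.minor 71)))) (.split 2 2 (.split 9 4 (.split 4 4 .small (.split 7 3 .small (.split 6 9
  .small (.split 4 5 .small (.minor 88))))) (.minor 71)) (.minor 107))) (.split 4 4 (.split 7 4
  (.split 6 6 (.split 9 4 (.split 2 2 .small (.split 3 5 .small (.minor 122))) (.split 6 4
  (.split 7 3 (.split 2 2 (.split 3 5 .small (.split 4 3 .small (.minor 109))) (.split 3 5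
  (.split 4 2 .small (.minor 81)) (.minor 122))) (.minor 126)) (.minor 71))) (.split 2 2 (.split
  4 2 (.split 9 4 .small (.minor 71)) (.minor 79)) (.minor 107))) (.minor 67)) (.minor 105)))
  (.minor 110)) (.minor 73)) (.minor 46))) (.split 3 5 (.split 4 5 (.split 5 2 (.split 6 2
  (.split 8 3 (.split 3 3 (.split 9 4 (.split 2 4 .small (.split 3 2 .small (.minor 120)))
  (.split 7 3 (.split 8 2 (.split 2 4 .small (.split 3 2 .small (.minor 120))) (.minor 121))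
  (.minor 126))) (.split 2 4 (.split 7 2 (.split 8 2 (.split 9 4 .small (.split 4 3 (.split 3 4
  .small (.split 4 2 .small (.minor 81))) (.split 3 4 .small (.minor 81)))) (.minor 110))
  (.minor 124)) (.minor 120))) (.split 3 2 (.split 4 2 (.split 9 4 (.split 2 4 .small (.split 8
  4 .small (.split 7 2 .small (.minor 80)))) (.minor 121)) (.minor 125)) (.minor 111))) (.minor
  107)) (.minor 106)) (.minor 68)) (.minor 122))) (.minor 123)) (.minor 69)) (.minor 85))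
  (.minor 13))) (.split 1 3 (.split 2 3 (.split 4 5 (.split 5 11 (.split 6 11 (.split 9 4
  (.split 3 3 (.split 7 5 (.split 8 3 (.split 9 2 (.split 4 3 (.split 1 2 (.split 6 6 (.split 5
  6 .small (.split 10 3 .small (.split 2 2 .small (.minor 58)))) (.split 5 6 (.split 10 3 .small
  (.split 2 2 .small (.minor 58))) (.split 10 3 (.split 7 3 .small (.split 8 2 .small (.minor
  112))) (.minor 56)))) (.split 3 2 (.split 8 2 (.split 10 3 (.split 7 3 .small (.split 6 5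
  .small (.minor 90))) (.minor 62)) (.minor 118)) (.minor 119))) (.split 2 2 (.split 5 5 (.split
  1 2 (.split 10 3 .small (.split 3 2 .small (.minor 52))) (.split 3 2 (.split 8 2 (.split 10 3
  .small (.minor 62)) (.minor 118)) (.minor 119))) (.minor 91)) (.minor 61))) (.split 6 7
  (.split 1 2 (.split 4 3 (.split 5 6 (.split 2 2 (.split 10 3 .small (.split 3 2 .small (.minor
  52))) (.split 10 3 (.split 9 3 .small (.split 6 2 .small (.minor 107))) (.minor 58))) (.split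
  2 2 (.split 10 3 (.split 7 3 .small (.split 3 2 .small (.split 5 8 .small (.minor 103))))
  (.split 3 2 (.split 6 3 .small (.minor 56)) (.minor 52))) (.split 10 3 (.split 9 3 (.split 7 3
  .small (.split 6 4 .small (.split 3 2 .small (.split 5 8 .small (.minor 103))))) (.split 3 2
  (.split 6 2 .small (.minor 107)) (.minor 73))) (.minor 58)))) (.split 2 2 (.split 5 5 (.split
  10 3 (.split 7 3 .small (.split 3 2 .small (.split 9 3 .small (.split 5 3 .small (.minor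
  73))))) (.split 3 2 (.split 7 3 .small (.split 6 4 .small (.split 5 4 (.split 9 3 .small
  (.split 4 4 .small (.split 5 2 .small (.minor 54)))) (.minor 56)))) (.minor 52))) (.minor 91))
  (.minor 61))) (.split 3 2 (.split 7 3 (.split 8 2 (.split 9 3 (.split 10 3 (.split 5 6 .small
  (.split 4 3 .small (.minor 91))) (.minor 62)) (.minor 13)) (.minor 118)) (.minor 60)) (.minor
  119))) (.minor 98))) (.split 1 2 (.split 9 2 (.split 4 3 (.split 2 2 (.split 6 6 (.split 5 6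
  (.split 10 3 .small (.split 3 2 .small (.minor 52))) (.split 10 3 .small (.split 3 2 (.split 6
  3 .small (.minor 56)) (.minor 52)))) (.split 5 6 (.split 10 3 .small (.split 3 2 (.split 5 4
  .small (.minor 56)) (.minor 52))) (.split 7 2 (.split 10 3 .small (.minor 56)) (.minor 112))))
  (.split 3 2 (.split 6 8 (.split 10 3 (.split 5 6 (.split 8 4 .small (.split 7 4 .small (.minor
  104))) (.split 8 4 .small (.split 7 2 .small (.minor 78)))) (.minor 58)) (.minor 102)) (.minor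
  111))) (.split 2 2 (.split 5 5 (.split 10 3 (.split 6 6 .small (.split 4 4 (.split 8 4 .small
  (.split 7 4 .small (.minor 104))) (.minor 94))) (.split 3 2 (.split 6 6 (.split 8 4 .small
  (.split 4 4 .small (.minor 66))) (.split 4 4 (.split 5 4 (.split 8 4 .small (.split 7 4
  (.split 7 2 .small (.split 6 8 .small (.split 8 5 .small (.split 7 3 .small (.minor 108)))))
  (.minor 104))) (.minor 56)) (.minor 94))) (.minor 52))) (.minor 91)) (.minor 61))) (.split 6 7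
  (.split 8 5 (.split 4 3 (.split 2 2 (.split 5 6 (.split 10 3 (.split 7 3 .small (.split 8 4
  .small (.minor 80))) (.split 3 2 (.split 7 3 .small (.split 8 4 .small (.minor 80))) (.minor
  52))) (.split 6 5 (.split 10 3 (.split 7 3 (.split 3 2 .small (.split 5 8 .small (.minor
  103))) (.split 8 4 (.split 3 2 .small (.split 5 8 .small (.minor 103))) (.minor 78))) (.split
  3 2 (.split 6 3 (.split 7 3 .small (.split 8 4 .small (.minor 78))) (.minor 56)) (.minor 52)))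
  (.minor 114))) (.split 3 2 (.split 10 3 (.split 5 6 (.split 7 3 (.split 9 3 .small (.split 4 2
  .small (.minor 125))) (.split 8 4 (.split 9 3 .small (.split 4 2 .small (.minor 125))) (.minor
  80))) (.split 6 5 (.split 7 3 (.split 9 3 .small (.split 4 2 (.split 6 2 .small (.minor 107))
  (.minor 125))) (.split 8 4 (.split 9 3 .small (.split 4 2 (.split 6 2 .small (.minor 107))
  (.minor 125))) (.minor 78))) (.minor 114))) (.minor 58)) (.minor 111))) (.split 2 2 (.split 5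
  5 (.split 9 3 (.split 10 3 (.split 7 3 .small (.split 8 4 .small (.minor 80))) (.split 3 2
  (.split 7 3 (.split 6 4 .small (.split 4 4 .small (.minor 94))) (.split 8 4 (.split 6 4 .small
  (.split 4 4 .small (.minor 94))) (.minor 80))) (.minor 52))) (.minor 125)) (.minor 91))
  (.minor 61))) (.minor 123)) (.minor 98))) (.minor 118))) (.split 1 2 (.split 5 8 (.split 6 8
  (.split 8 4 (.split 9 3 (.split 4 3 (.split 2 2 (.split 10 3 (.split 8 2 .small (.split 7 7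
  (.split 6 4 .small (.split 5 4 .small (.split 9 2 .small (.split 6 7 .small (.minor 98)))))
  (.minor 47))) (.split 3 2 (.split 8 2 .small (.split 7 7 (.split 6 4 .small (.split 5 4 .small
  (.minor 56))) (.minor 47))) (.minor 52))) (.split 10 3 (.split 8 2 (.split 9 2 .small (.split
  6 7 (.split 7 7 .small (.split 6 2 .small (.minor 75))) (.minor 98))) (.split 7 7 (.split 9 2
  (.split 6 4 .small (.split 5 4 .small (.split 8 3 .small (.split 3 2 .small (.minor 111)))))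
  (.split 6 7 (.split 5 4 (.split 6 4 (.split 3 2 .small (.split 8 3 .small (.minor 111)))
  (.split 7 6 (.split 3 2 .small (.split 8 3 .small (.minor 111))) (.minor 75))) (.split 6 4
  (.split 3 2 .small (.split 8 3 (.split 5 6 .small (.split 4 2 .small (.split 7 6 .small
  (.split 6 2 .small (.minor 75))))) (.minor 111))) (.split 7 6 (.split 3 2 (.split 8 3 .small
  (.split 5 6 .small (.split 6 5 .small (.minor 114)))) (.split 8 3 (.split 5 6 .small (.split 6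
  5 .small (.minor 114))) (.minor 111))) (.minor 75)))) (.minor 98))) (.minor 47))) (.minor
  58))) (.split 2 2 (.split 5 5 (.split 10 3 (.split 8 2 (.split 7 7 .small (.split 6 4 .small
  (.split 9 2 .small (.minor 75)))) (.split 7 7 (.split 6 4 .small (.split 9 2 .small (.split 6
  7 (.split 7 6 (.split 3 2 .small (.split 8 3 .small (.split 4 4 .small (.minor 94)))) (.minor
  75)) (.minor 98)))) (.minor 47))) (.split 3 2 (.split 8 2 (.split 7 7 (.split 6 4 .small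
  (.split 5 4 .small (.minor 56))) (.split 6 4 (.split 9 2 .small (.split 6 2 .small (.minor
  75))) (.split 5 4 (.split 9 2 .small (.minor 75)) (.minor 56)))) (.split 7 7 (.split 6 4
  (.split 9 2 .small (.split 4 4 .small (.split 5 2 .small (.minor 54)))) (.split 5 4 (.split 9
  2 (.split 4 4 .small (.split 5 2 .small (.minor 54))) (.split 6 7 (.split 7 6 (.split 4 4
  .small (.split 5 2 (.split 8 3 .small (.minor 94)) (.minor 54))) (.minor 75)) (.minor 98)))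
  (.minor 56))) (.minor 47))) (.minor 52))) (.minor 91)) (.minor 61))) (.minor 69)) (.minor
  104)) (.minor 15)) (.minor 89)) (.minor 51))) (.split 1 2 (.split 7 2 (.split 10 3 (.split 9 2
  (.split 8 3 (.split 6 6 (.split 5 6 (.split 4 3 .small (.split 2 2 .small (.minor 61)))
  (.split 4 3 (.split 3 4 .small (.split 2 2 .small (.split 3 5 .small (.minor 122)))) (.minor
  91))) (.split 5 6 (.split 4 3 (.split 3 4 .small (.split 4 2 .small (.minor 79))) (.split 2 2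
  (.split 3 4 .small (.minor 79)) (.minor 61))) (.split 2 2 (.split 4 2 .small (.minor 113))
  (.minor 115)))) (.split 2 2 (.split 5 4 (.split 6 4 (.split 4 3 .small (.split 3 5 .small
  (.minor 109))) (.minor 93)) (.minor 92)) (.minor 111))) (.split 5 8 (.split 6 7 (.split 8 2
  (.split 3 4 (.split 4 3 (.split 9 3 .small (.split 5 3 .small (.minor 73))) (.split 2 2
  (.split 5 5 .small (.minor 91)) (.minor 61))) (.split 4 4 (.split 9 3 (.split 5 4 (.split 4 2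
  .small (.split 2 2 .small (.minor 81))) (.split 4 2 (.split 2 2 .small (.split 3 5 .small
  (.minor 122))) (.split 2 2 (.split 6 5 .small (.minor 79)) (.minor 81)))) (.split 5 3 (.split
  2 2 (.split 4 2 .small (.split 6 5 (.split 3 5 .small (.split 4 3 .small (.minor 109)))
  (.minor 79))) (.split 3 5 (.split 4 2 .small (.minor 81)) (.minor 122))) (.minor 73))) (.minor
  105))) (.minor 110)) (.minor 98)) (.minor 103))) (.minor 52)) (.minor 97)) (.minor 119)))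
  (.minor 87)) (.minor 100)) (.minor 117)) (.minor 50)) (.minor 12)) (.minor 63))) (.split 3 4
  (.split 6 6 (.split 7 4 (.split 9 3 (.split 10 2 (.split 8 3 (.split 2 3 (.split 1 2 (.split 5
  8 (.split 4 5 (.split 0 3 (.split 9 2 (.split 6 3 .small (.split 7 2 .small (.split 3 3 .small
  (.minor 43)))) (.split 5 5 (.split 6 3 (.split 3 2 .small (.split 7 2 .small (.split 3 3
  .small (.minor 43)))) (.minor 39)) (.minor 64))) (.split 2 2 (.split 3 2 (.split 4 3 (.split 7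
  2 .small (.minor 33)) (.minor 36)) (.minor 29)) (.minor 34))) (.split 0 3 (.split 9 2 (.split
  6 3 (.split 7 2 .small (.split 3 3 (.split 5 4 .small (.split 4 7 .small (.split 2 2 .small
  (.minor 74)))) (.minor 43))) (.split 7 2 (.split 5 4 (.split 4 7 .small (.split 3 2 .small
  (.minor 46))) (.split 4 7 (.split 3 2 .small (.split 8 2 .small (.split 2 2 .small (.minor
  76)))) (.split 2 2 .small (.minor 74)))) (.split 3 3 (.split 5 4 (.split 4 7 .small (.split 3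
  2 (.split 8 2 .small (.split 2 2 .small (.minor 76))) (.minor 46))) (.split 4 7 (.split 8 2
  .small (.split 2 2 .small (.minor 76))) (.split 2 2 (.split 3 2 .small (.minor 46)) (.minor
  74)))) (.minor 43)))) (.split 5 5 (.split 6 3 (.split 3 2 (.split 7 2 .small (.split 4 7
  .small (.split 2 2 .small (.split 5 2 .small (.minor 74))))) (.split 4 7 (.split 7 2 .small
  (.split 3 3 (.split 2 2 .small (.split 8 2 .small (.minor 76))) (.minor 43))) (.minor 46)))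
  (.minor 39)) (.minor 64))) (.minor 36))) (.split 4 5 (.split 6 2 (.split 9 2 (.split 0 3
  (.split 5 12 .small (.split 2 2 .small (.minor 84))) (.split 2 2 (.split 3 2 (.split 4 3
  .small (.minor 36)) (.minor 29)) (.minor 34))) (.minor 64)) (.minor 20)) (.minor 14))) (.split
  2 2 (.split 4 3 (.split 5 11 (.split 6 3 (.split 7 2 (.split 9 2 (.split 5 6 .small (.split 0
  3 .small (.split 3 2 .small (.minor 29)))) (.split 1 3 (.split 5 5 (.split 0 3 .small (.split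
  3 2 .small (.minor 29))) (.minor 64)) (.minor 59))) (.split 0 3 (.split 3 3 (.split 5 6
  (.split 1 3 .small (.split 8 2 (.split 9 2 .small (.minor 59)) (.minor 53))) (.split 9 2
  (.split 1 3 .small (.split 8 2 .small (.minor 53))) (.minor 64))) (.minor 43)) (.minor 33)))
  (.minor 82)) (.minor 101)) (.minor 48)) (.minor 40))) (.split 0 3 (.split 1 2 (.split 4 5
  (.split 5 12 (.split 8 2 (.split 9 2 (.split 5 6 (.split 6 3 .small (.split 7 2 .small (.split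
  3 3 (.split 4 3 .small (.split 2 4 .small (.minor 127))) (.minor 43)))) (.split 2 4 (.split 6
  3 .small (.split 5 8 (.split 7 2 .small (.split 3 3 .small (.minor 43))) (.minor 20))) (.minor
  70))) (.split 5 2 (.split 6 3 (.split 3 2 .small (.split 2 4 .small (.minor 120))) (.minor
  39)) (.minor 106))) (.minor 76)) (.minor 84)) (.minor 68)) (.minor 40)) (.minor 34))) (.split
  0 3 (.split 1 3 (.split 2 2 (.split 5 8 (.split 4 5 (.split 1 2 (.split 8 4 (.split 6 3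
  (.split 3 2 .small (.split 9 2 .small (.split 3 3 .small (.minor 110)))) (.split 9 2 (.split 7
  2 .small (.split 3 3 .small (.minor 43))) (.minor 39))) (.split 4 4 (.split 6 3 (.split 3 2
  (.split 7 2 .small (.split 5 5 .small (.minor 78))) (.split 9 2 (.split 7 2 .small (.split 3 3
  .small (.minor 43))) (.split 3 3 (.split 5 5 (.split 7 2 .small (.minor 80)) (.minor 64))
  (.minor 110)))) (.split 9 2 (.split 7 2 (.split 5 4 .small (.split 3 3 .small (.minor 92)))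
  (.split 3 3 (.split 5 5 (.split 8 5 .small (.split 7 3 .small (.minor 108))) (.minor 78))
  (.minor 43))) (.minor 39))) (.minor 66))) (.split 4 2 (.split 6 3 (.split 8 4 (.split 9 2
  .small (.split 3 3 (.split 5 5 .small (.minor 64)) (.minor 110))) (.split 9 2 (.split 7 2
  (.split 5 4 .small (.split 3 3 .small (.minor 92))) (.split 3 3 (.split 5 5 (.split 8 5 .small
  (.split 7 3 .small (.minor 108))) (.minor 78)) (.minor 43))) (.split 3 3 (.split 5 5 (.split 7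
  2 (.split 8 5 .small (.minor 123)) (.minor 80)) (.minor 64)) (.minor 110)))) (.minor 82))
  (.minor 96))) (.split 1 2 (.split 6 4 (.split 8 4 (.split 3 2 (.split 7 2 .small (.split 5 4
  (.split 4 7 .small (.split 9 2 .small (.split 6 3 .small (.minor 39)))) (.split 4 7 (.split 9
  2 .small (.split 5 5 .small (.minor 64))) (.split 9 2 .small (.split 5 5 (.split 6 3 .small
  (.minor 39)) (.minor 64)))))) (.split 4 7 (.split 9 2 (.split 7 2 .small (.split 3 3 .small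
  (.minor 43))) (.split 3 3 (.split 5 5 (.split 6 3 .small (.minor 39)) (.minor 64)) (.minor
  110))) (.minor 46))) (.minor 66)) (.minor 94)) (.minor 48))) (.split 3 3 (.split 4 5 (.split 6
  2 (.split 9 2 (.split 1 2 (.split 8 4 .small (.split 4 4 (.split 7 2 .small (.minor 78))
  (.minor 66))) (.split 4 2 (.split 5 11 (.split 8 4 .small (.split 7 2 .small (.minor 78)))
  (.minor 101)) (.minor 96))) (.minor 64)) (.minor 20)) (.minor 14)) (.minor 92))) (.minor 76))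
  (.minor 53)) (.minor 26))) (.split 1 3 (.split 2 3 (.split 4 5 (.split 5 11 (.split 8 2
  (.split 0 3 (.split 10 3 (.split 3 2 (.split 5 6 (.split 4 3 (.split 1 2 .small (.split 2 2
  (.split 6 3 .small (.minor 82)) (.minor 40))) (.split 1 2 (.split 2 2 .small (.minor 61))
  (.minor 48))) (.split 4 3 (.split 9 2 (.split 7 2 .small (.split 6 3 (.split 1 2 .small
  (.split 2 2 .small (.minor 40))) (.split 1 2 .small (.minor 82)))) (.minor 64)) (.minor 91)))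
  (.split 1 2 (.split 5 6 (.split 4 3 (.split 9 2 (.split 6 3 .small (.split 7 2 .small (.split
  3 3 .small (.minor 43)))) (.split 5 5 (.split 6 3 (.split 7 2 .small (.split 3 3 .small
  (.minor 43))) (.minor 39)) (.minor 64))) (.split 2 2 (.split 5 5 (.split 6 3 (.split 9 2
  .small (.split 7 2 .small (.split 3 3 .small (.minor 43)))) (.split 9 2 (.split 7 2 .small
  (.split 3 3 .small (.minor 43))) (.minor 39))) (.minor 91)) (.minor 61))) (.split 4 3 (.split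
  9 2 (.split 6 3 (.split 7 2 .small (.split 3 3 .small (.minor 43))) (.split 5 8 (.split 7 2
  .small (.split 3 3 .small (.minor 43))) (.minor 20))) (.minor 64)) (.minor 91))) (.minor
  119))) (.split 1 2 (.split 2 2 (.split 3 2 (.split 4 3 (.split 5 6 (.split 6 3 .small (.split
  5 4 .small (.minor 56))) (.split 6 3 .small (.minor 56))) (.split 5 5 (.split 6 3 (.split 7 2
  .small (.split 9 2 .small (.split 4 4 .small (.split 5 2 .small (.minor 54))))) (.split 5 4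
  (.split 9 2 (.split 7 2 .small (.split 6 4 .small (.split 4 4 .small (.split 5 2 .small
  (.minor 54))))) (.minor 39)) (.minor 56))) (.minor 91))) (.minor 52)) (.minor 58)) (.minor
  62))) (.split 2 2 (.split 3 2 (.split 4 3 (.split 7 2 (.split 6 3 (.split 10 3 (.split 5 6
  .small (.split 9 2 .small (.minor 64))) (.split 1 2 (.split 5 6 .small (.split 9 2 .small
  (.minor 64))) (.minor 62))) (.split 1 2 (.split 5 8 (.split 9 2 (.split 10 3 .small (.split 5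
  4 .small (.minor 56))) (.minor 39)) (.minor 20)) (.minor 82))) (.minor 33)) (.minor 36))
  (.minor 29)) (.minor 34))) (.minor 24)) (.minor 117)) (.minor 50)) (.minor 12)) (.minor 63)))
  (.minor 18)) (.minor 17)) (.minor 23)) (.minor 30))) (.split 2 3 (.split 4 4 (.split 5 6
  (.split 8 4 (.split 0 2 (.split 1 2 (.split 3 3 (.split 10 2 (.split 9 3 (.split 11 3 (.split
  7 5 (.split 6 8 (.split 8 2 (.split 5 3 .small (.split 2 2 .small (.minor 38))) (.split 5 3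
  (.split 2 2 .small (.split 6 5 (.split 9 2 .small (.split 3 2 .small (.minor 77))) (.minor
  65))) (.split 2 2 (.split 7 3 .small (.split 6 4 .small (.split 4 2 .small (.split 8 3 .small
  (.minor 42))))) (.minor 38)))) (.split 2 2 (.split 5 2 (.split 6 12 .small (.split 9 2 .small
  (.minor 85))) (.minor 21)) (.minor 65))) (.split 6 8 (.split 8 2 (.split 5 3 (.split 9 2
  .small (.split 3 2 .small (.minor 77))) (.split 2 2 (.split 7 7 (.split 6 4 .small (.split 4 2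
  .small (.split 9 2 .small (.split 3 2 .small (.minor 77))))) (.split 6 4 (.split 4 2 .small
  (.split 9 2 .small (.split 3 2 .small (.minor 77)))) (.split 9 2 .small (.minor 75)))) (.minor
  38))) (.split 7 7 (.split 5 3 (.split 2 2 (.split 6 4 .small (.split 4 2 .small (.split 8 3
  .small (.minor 42)))) (.split 6 5 (.split 9 2 .small (.split 3 2 (.split 4 2 .small (.split 8
  3 .small (.minor 42))) (.minor 77))) (.minor 65))) (.split 2 2 (.split 6 4 (.split 4 2 .small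
  (.split 8 3 .small (.minor 42))) (.split 4 2 (.split 9 2 .small (.split 3 2 .small (.minor
  77))) (.split 8 3 (.split 9 2 .small (.split 3 2 .small (.minor 77))) (.minor 42)))) (.minor
  38))) (.minor 47))) (.minor 15))) (.split 3 2 (.split 4 2 (.split 7 3 (.split 8 2 (.split 9 2
  (.split 6 8 .small (.split 2 2 .small (.minor 65))) (.minor 35)) (.minor 28)) (.minor 37))
  (.minor 32)) (.minor 27))) (.split 3 2 (.split 6 12 (.split 7 5 (.split 11 3 (.split 6 6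
  (.split 2 2 (.split 5 3 .small (.split 8 2 .small (.split 9 4 .small (.minor 121)))) (.split 5
  3 (.split 6 2 (.split 8 2 .small (.split 9 4 .small (.minor 121))) (.minor 107)) (.minor 38)))
  (.split 2 2 (.split 9 4 (.split 5 3 .small (.split 6 8 (.split 8 2 .small (.split 5 5 .small
  (.minor 114))) (.minor 21))) (.minor 71)) (.minor 65))) (.minor 35)) (.minor 69)) (.minor 85))
  (.minor 77))) (.split 5 3 (.split 6 11 (.split 7 3 (.split 9 2 (.split 4 2 (.split 2 2 (.split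
  6 6 .small (.split 11 3 .small (.split 3 2 .small (.minor 27)))) (.split 6 5 (.split 10 3
  (.split 11 3 .small (.split 3 2 .small (.minor 27))) (.minor 58)) (.minor 65))) (.split 8 3
  (.split 11 3 (.split 10 3 (.split 6 6 .small (.split 2 2 .small (.minor 65))) (.split 2 2
  (.split 3 2 .small (.minor 52)) (.minor 58))) (.minor 32)) (.minor 42))) (.minor 41)) (.minor
  49)) (.minor 100)) (.minor 83))) (.split 9 2 (.split 10 3 (.split 11 3 (.split 7 5 (.split 6 8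
  (.split 10 2 (.split 8 2 (.split 5 3 (.split 3 4 .small (.split 7 4 (.split 6 4 .small (.split
  4 2 .small (.split 2 2 .small (.minor 81)))) (.minor 67))) (.split 2 2 (.split 3 4 .small
  (.split 7 4 (.split 6 4 .small (.split 4 2 .small (.split 6 5 .small (.minor 79)))) (.minor
  67))) (.minor 38))) (.split 5 3 (.split 3 4 (.split 2 2 .small (.split 6 5 .small (.minor
  65))) (.split 7 4 (.split 2 2 (.split 6 4 .small (.split 8 3 .small (.minor 93))) (.split 3 5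
  (.split 4 2 .small (.minor 81)) (.minor 122))) (.minor 67))) (.split 2 2 (.split 3 4 (.split 7
  3 .small (.split 6 4 .small (.split 8 3 .small (.minor 93)))) (.split 7 4 (.split 6 4 (.split
  4 2 .small (.split 8 3 (.split 7 2 .small (.split 5 4 .small (.split 3 5 .small (.split 4 3
  .small (.minor 109))))) (.minor 42))) (.split 8 3 (.split 4 2 .small (.split 6 5 (.split 7 2
  .small (.split 5 4 .small (.split 3 5 .small (.split 4 3 .small (.minor 109))))) (.minor 79)))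
  (.minor 93))) (.minor 67))) (.minor 38)))) (.split 5 3 (.split 7 2 (.split 3 4 (.split 8 2
  .small (.split 4 2 .small (.split 8 3 (.split 2 2 .small (.split 4 3 .small (.minor 61)))
  (.minor 42)))) (.split 8 2 (.split 4 2 (.split 6 4 .small (.split 2 2 .small (.split 3 5
  .small (.minor 122)))) (.split 2 2 (.split 6 5 .small (.minor 79)) (.minor 81))) (.split 4 2
  (.split 2 2 (.split 6 4 .small (.split 8 3 .small (.minor 93))) (.split 3 5 (.split 6 5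
  (.split 8 3 .small (.minor 111)) (.minor 65)) (.minor 122))) (.split 2 2 (.split 6 5 (.split 8
  3 (.split 3 5 .small (.split 4 3 .small (.minor 109))) (.minor 42)) (.minor 79)) (.minor
  81))))) (.minor 97)) (.minor 83))) (.split 2 2 (.split 5 2 (.split 8 3 (.split 10 2 (.split 3
  4 .small (.split 4 2 (.split 7 4 .small (.minor 67)) (.minor 79))) (.split 6 11 (.split 7 2
  (.split 3 4 .small (.split 4 2 .small (.minor 79))) (.minor 97)) (.minor 100))) (.minor 93))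
  (.minor 21)) (.minor 65))) (.split 3 4 (.split 5 4 (.split 6 8 (.split 10 2 (.split 8 2
  (.split 7 7 (.split 6 4 .small (.split 4 2 .small (.split 2 2 .small (.split 5 3 .small
  (.minor 38))))) (.split 6 4 (.split 4 2 .small (.split 2 2 .small (.split 5 3 .small (.minor
  38)))) (.split 4 2 .small (.split 2 2 .small (.split 5 3 (.split 6 5 .small (.minor 65))
  (.minor 38)))))) (.split 7 7 (.split 2 2 (.split 6 4 .small (.split 8 3 .small (.minor 93)))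
  (.split 5 3 (.split 6 5 (.split 8 3 .small (.minor 111)) (.minor 65)) (.minor 38))) (.minor
  47))) (.minor 49)) (.minor 15)) (.minor 95)) (.minor 67))) (.minor 27)) (.minor 52)) (.minor
  77))) (.split 3 2 (.split 6 11 (.split 7 5 (.split 9 3 (.split 10 3 (.split 11 3 (.split 1 3
  (.split 8 2 (.split 10 2 (.split 7 3 (.split 6 6 .small (.split 2 2 .small (.minor 65)))
  (.split 6 5 (.split 9 2 .small (.minor 60)) (.minor 90))) (.split 5 3 (.split 7 3 (.split 9 2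
  (.split 6 6 .small (.split 2 2 .small (.minor 65))) (.minor 41)) (.minor 49)) (.minor 83)))
  (.split 10 2 (.split 7 3 (.split 6 6 (.split 5 3 (.split 2 2 .small (.split 6 5 (.split 9 2
  .small (.split 4 2 .small (.split 8 3 .small (.minor 42)))) (.minor 65))) (.split 2 2 (.split
  4 2 .small (.split 8 3 .small (.minor 42))) (.minor 38))) (.split 2 2 (.split 5 3 (.split 4 2
  .small (.split 8 3 .small (.minor 42))) (.split 6 8 (.split 4 2 .small (.split 8 3 .small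
  (.minor 42))) (.minor 21))) (.minor 65))) (.split 6 5 (.split 9 2 (.split 5 3 (.split 2 2
  .small (.split 4 2 .small (.split 8 3 .small (.minor 42)))) (.split 2 2 (.split 4 2 .small
  (.split 8 3 .small (.minor 42))) (.minor 38))) (.minor 60)) (.minor 90))) (.minor 118)))
  (.split 8 2 (.split 9 2 (.split 10 2 (.split 7 3 (.split 6 6 (.split 5 3 .small (.split 2 2
  .small (.minor 38))) (.split 2 2 (.split 5 3 .small (.minor 57)) (.minor 65))) (.split 6 5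
  (.split 5 3 (.split 4 2 .small (.split 2 2 .small (.split 7 4 .small (.split 6 2 .small
  (.minor 55))))) (.split 2 2 (.split 6 4 (.split 4 2 .small (.split 7 4 .small (.split 6 2
  .small (.minor 55)))) (.minor 57)) (.minor 38))) (.minor 90))) (.minor 63)) (.minor 59))
  (.minor 53))) (.split 4 2 (.split 7 3 (.split 8 2 (.split 9 2 (.split 5 3 (.split 6 6 (.split
  1 3 .small (.split 10 2 .small (.minor 63))) (.split 2 2 (.split 1 3 .small (.split 10 2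
  .small (.minor 63))) (.minor 65))) (.split 2 2 (.split 6 8 (.split 10 2 (.split 1 3 .small
  (.split 6 4 .small (.minor 57))) (.minor 83)) (.minor 21)) (.minor 38))) (.minor 35)) (.minor
  28)) (.minor 37)) (.minor 32))) (.minor 62)) (.minor 13)) (.minor 51)) (.minor 116)) (.minor
  25))) (.split 3 4 (.split 5 2 (.split 6 2 (.split 7 4 (.split 9 3 (.split 10 2 (.split 1 2
  (.split 11 3 (.split 8 2 (.split 3 2 (.split 0 3 .small (.split 2 2 .small (.minor 34)))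
  (.split 0 3 (.split 9 2 .small (.minor 77)) (.minor 29))) (.split 0 3 (.split 2 2 (.split 3 2
  .small (.split 9 2 .small (.minor 77))) (.minor 76)) (.minor 26))) (.split 3 2 (.split 4 2
  (.split 7 3 (.split 8 2 (.split 9 2 .small (.minor 35)) (.minor 28)) (.minor 37)) (.minor 32))
  (.minor 27))) (.split 2 2 (.split 3 2 (.split 4 3 (.split 8 2 (.split 7 2 (.split 11 3 .small
  (.split 4 2 (.split 9 2 .small (.minor 35)) (.minor 32))) (.split 0 3 (.split 11 3 (.split 1 3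
  .small (.split 9 2 .small (.minor 59))) (.split 4 2 (.split 7 3 (.split 9 2 .small (.minor
  35)) (.minor 37)) (.minor 32))) (.minor 33))) (.split 0 3 (.split 1 3 (.split 11 3 (.split 7 2
  .small (.split 9 2 .small (.split 7 3 .small (.minor 60)))) (.minor 28)) (.minor 53)) (.minor
  26))) (.minor 48)) (.minor 25)) (.minor 40))) (.split 1 3 (.split 7 3 (.split 8 2 (.split 9 2
  (.split 11 3 (.split 10 3 (.split 3 2 (.split 0 3 .small (.split 2 2 (.split 4 3 .small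
  (.minor 36)) (.minor 34))) (.split 0 3 (.split 1 2 (.split 4 2 .small (.split 2 2 .small
  (.split 4 3 .small (.minor 61)))) (.minor 25)) (.minor 29))) (.split 1 2 (.split 2 2 (.split 3
  2 (.split 4 2 .small (.split 0 3 .small (.split 4 3 .small (.minor 36)))) (.minor 52)) (.minor
  58)) (.minor 62))) (.split 3 2 (.split 4 2 (.split 0 3 (.split 1 2 .small (.split 2 2 (.split
  10 3 .small (.minor 62)) (.minor 40))) (.split 2 2 (.split 7 2 (.split 1 2 .small (.split 10 3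
  .small (.minor 62))) (.minor 33)) (.minor 34))) (.minor 32)) (.minor 27))) (.minor 41))
  (.minor 24)) (.minor 49)) (.minor 63))) (.minor 18)) (.minor 17)) (.minor 44)) (.minor 45))
  (.minor 30))) (.minor 31)) (.minor 22)) (.minor 16)) (.minor 19))) (.minor 10)) (.minor 8))
  (.minor 6)) (.minor 4)) (.minor 2)) (.minor 0)) (.minor 1)) (.minor 3)) (.minor 5)) (.minor
  7)) (.minor 9)) (.minor 11)

noncomputable def Rt6e : List (List ℕ) :=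
  cj6e_0.map Prod.fst ++ cj6e_1.map Prod.fst ++ cj6e_2.map Prod.fst ++ cj6e_3.map Prod.fst ++
  cj6e_4.map Prod.fst ++ cj6e_5.map Prod.fst ++ cj6e_6.map Prod.fst ++ cj6e_7.map Prod.fst ++
  cj6e_8.map Prod.fst ++ cj6e_9.map Prod.fst ++ cj6e_10.map Prod.fst

theorem Rt6e_ok : ∀ M ∈ Rt6e, KG (M : Multiset ℕ) 18 := by
  intro M h
  unfold Rt6e at h
  simp only [List.mem_append] at h
  rcases h with (((((((((h | h) | h) | h) | h) | h) | h) | h) | h) | h) | h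
  · exact kg_of_allJ S40_ok R40_ok F40_ok cj6e_0_ok M h
  · exact kg_of_allJ S40_ok R40_ok F40_ok cj6e_1_ok M h
  · exact kg_of_allJ S40_ok R40_ok F40_ok cj6e_2_ok M h
  · exact kg_of_allJ S40_ok R40_ok F40_ok cj6e_3_ok M h
  · exact kg_of_allJ S40_ok R40_ok F40_ok cj6e_4_ok M h
  · exact kg_of_allJ S40_ok R40_ok F40_ok cj6e_5_ok M h
  · exact kg_of_allJ S40_ok R40_ok F40_ok cj6e_6_ok M h
  · exact kg_of_allJ S40_ok R40_ok F40_ok cj6e_7_ok M h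
  · exact kg_of_allJ S40_ok R40_ok F40_ok cj6e_8_ok M h
  · exact kg_of_allJ S40_ok R40_ok F40_ok cj6e_9_ok M h
  · exact kg_of_allJ S40_ok R40_ok F40_ok cj6e_10_ok M h

def ks6e : List ℕ := [
  126, 127, 116, 117, 84, 85, 68, 69, 42, 43, 44, 45, 17, 16, 123, 122, 51, 50, 26, 27, 111, 110,
  89, 88, 24, 25, 7, 6, 36, 37, 63, 62, 0, 1, 41, 40, 59, 58, 49, 48, 39, 38, 34, 35, 22, 23, 109,
  108, 57, 56, 73, 72, 4, 5, 55, 54, 52, 53, 10, 11, 46, 47, 18, 19, 75, 74, 32, 33, 97, 96, 95,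
  94, 28, 29, 107, 106, 3, 2, 60, 61, 82, 83, 20, 21, 125, 124, 71, 70, 102, 103, 92, 93, 79, 78,
  76, 77, 12, 13, 114, 115, 120, 121, 112, 113, 98, 99, 31, 30, 100, 101, 9, 8, 104, 105, 90, 91,
  118, 119, 14, 15, 67, 66, 87, 86, 65, 64, 80, 81]

theorem min6e_ok : minC 6 Rt6e G6e ks6e = true := by decide +kernel

theorem T6e_ok : btC 6 66 G6e T6e (List.replicate (2 * 6) 1)
    (List.replicate (2 * 6) 0) = true := by decide +kernel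

theorem kg6e {M : Multiset ℕ} (hM : ∀ s ∈ M, 1 ≤ s)
    (hc : M.dedup.card = 6) (hn : 66 ≤ M.sum) : KG M 18 :=
  coverC ks6e T6e Rt6e_ok min6e_ok T6e_ok hM hc hn

end Pool.MP322
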