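import Pool.Agent.Lib.MP_322c5f_al.SG36b

/-! (C), part 31: seven and eight distinct column heights. -/

set_option autoImplicit false

namespace Pool.MP322

/-- self-conjugate blocks -/
def S41 : List (List ℕ × List ℕ) := [
  ([4,3,2,1],[1,2,3,4]), ([3,2,1],[1,2,3]), ([2,1],[1,2]), ([3,1,1],[2,0,3]),
  ([5,4,3,2,1],[1,2,3,4,5]), ([3,3,2],[0,2,6]), ([5,5,4,3,2],[0,2,3,4,10]), ([4,2,1,1],[2,2,0,4]),
  ([2,2],[0,4]), ([5,4,4,4,1],[1,0,0,12,5]), ([3,3,3],[0,0,9]), ([6,5,4,3,2,1],[1,2,3,4,5,6]),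
  ([5,3,2,1,1],[2,2,3,0,5]), ([4,3,3,1],[1,0,6,4]), ([5,4,2,2,1],[1,4,0,4,5]),
  ([6,5,2,2,2,1],[1,6,0,0,5,6]), ([4,1,1,1],[3,0,0,4]), ([5,3,3,1,1],[2,0,6,0,5]),
  ([5,2,1,1,1],[3,2,0,0,5]), ([6,3,2,1,1,1],[3,2,3,0,0,6]), ([7,4,2,2,1,1,1],[3,4,0,4,0,0,7]),
  ([6,4,3,2,1,1],[2,2,3,4,0,6]), ([5,4,4,3,1],[1,0,3,8,5]), ([6,5,3,2,2,1],[1,4,3,0,5,6]),
  ([6,5,4,4,2,1],[1,2,0,8,5,6]), ([6,5,5,4,3,1],[1,0,3,4,10,6]), ([6,4,4,4,1,1],[2,0,0,12,0,6]),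
  ([4,4,3,2],[0,2,3,8]), ([5,5,4,4,2],[0,2,0,8,10]), ([6,4,2,2,1,1],[2,4,0,4,0,6]),
  ([6,5,5,3,3,1],[1,0,6,0,10,6]), ([5,5,3,2,2],[0,4,3,0,10]), ([7,6,4,3,2,2,1],[1,4,3,4,0,6,7]),
  ([7,5,4,3,2,1,1],[2,2,3,4,5,0,7]), ([7,4,3,2,1,1,1],[3,2,3,4,0,0,7]),
  ([6,6,2,2,2,2],[0,8,0,0,0,12]), ([5,1,1,1,1],[4,0,0,0,5]), ([6,2,1,1,1,1],[4,2,0,0,0,6]),
  ([7,5,4,4,2,1,1],[2,2,0,8,5,0,7]), ([7,6,5,4,3,2,1],[1,2,3,4,5,6,7]),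
  ([7,6,5,3,3,2,1],[1,2,6,0,5,6,7]), ([4,4,2,2],[0,4,0,8]), ([7,6,2,2,2,2,1],[1,8,0,0,0,6,7])]

theorem S41_ok : okS S41 = true := by decide +kernel

/-- direct blocks -/
def R41 : List (List ℕ × List ℕ) := [
  ([3,2,1],[3,2,1]), ([4,3,2,1],[4,3,2,1])]

theorem R41_ok : okR R41 = true := by decide +kernel

def F41 : List (List ℕ × List ℕ) := []

theorem F41_ok : ∀ p ∈ F41, CC (p.1 : Multiset ℕ) (p.2 : Multiset ℕ) := by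
  intro p hp
  simp [F41] at hp

noncomputable def cj7d_0 : List (List ℕ × List NdJ) := [
  ([8,7,6,4,3,3,2,1], [
    (false,[],[8,7,6,4,3,3,2,1],false,6,3,[10,15,18]),
    (false,[([(0,0,[(7,10)])],[])],[8,7,6,3],false,4,3,[6,10]),
    (false,[([(0,0,[(7,10)]),(0,1,[(5,6)])],[2])],[7,4,3,2],false,4,2,[6]),
    (false,[([(0,0,[(7,10)]),(0,1,[(5,6)])],[2]),([(0,1,[(5,6)])],[3])],[7],false,1,0,[3,4]),
    (false,[([(0,0,[(7,10)]),(0,1,[(5,6)])],[2]),([(0,1,[(5,6)]),(0,2,[(2,3)])],[3,1])],[3],false,1,0,[2,3]),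
    (false,[([(0,0,[(7,10)]),(0,1,[(5,6)])],[2]),([(0,1,[(5,6)]),(1,0,[(2,3),(2,2)])],[1])],[3],false,1,0,[2]),
    (false,[([(0,0,[(7,10)]),(0,0,[(5,6),(2,2),(2,2)])],[]),([(0,1,[(5,6)]),(0,2,[(2,3)])],[1,1])],[3],false,1,0,[]),
    (false,[([(0,0,[(7,10)]),(0,0,[(5,6),(3,3)])],[]),([(0,1,[(5,6)]),(0,2,[(2,3)])],[1,1])],[3],false,1,0,[]),
    (false,[([(0,0,[(7,10)]),(0,0,[(5,6),(4,4)])],[]),([(0,1,[(5,6)])],[2,1,1,1])],[3],false,1,0,[]),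
    (false,[([(0,0,[(7,10)]),(0,0,[(7,10)])],[])],[7,3,3,1],true,3,4,[5,6]),
    (false,[([(0,0,[(7,10)]),(0,0,[(7,10)])],[]),([(0,3,[(4,5)])],[2,2,1,1])],[3],false,1,0,[3]),
    (false,[([(0,0,[(7,10)]),(0,0,[(7,10)])],[]),([(0,3,[(4,5)]),(0,2,[(2,3)])],[2,1])],[3],false,1,0,[2]),
    (false,[([(0,0,[(7,10)]),(0,0,[(7,10)])],[]),([(0,3,[(4,5)]),(0,2,[(2,3)]),(0,2,[(2,2)])],[])],[3],false,1,0,[]),
    (false,[([(0,0,[(7,10)]),(0,0,[(7,10)])],[]),([(0,1,[(6,6)])],[2,1,1,1])],[3],false,1,0,[]),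
    (false,[([(0,4,[(11,15)])],[1])],[8,7,3],false,3,3,[6,8]),
    (false,[([(0,4,[(11,15)]),(0,1,[(4,6)])],[])],[7,3,3],false,2,4,[3,5]),
    (false,[([(0,4,[(11,15)]),(0,1,[(4,6)])],[]),([(0,2,[(3,3)])],[2,2,1,1,1])],[3],false,1,0,[3]),
    (false,[([(0,4,[(11,15)])],[1,1]),([(0,1,[(4,6)]),(0,1,[(3,3),(2,3)])],[3,2])],[],false,1,0,[2]),
    (false,[([(0,4,[(11,15)]),(0,2,[(2,3)])],[2]),([(0,1,[(4,6)]),(0,3,[(3,3),(2,2)])],[3])],[],false,1,0,[]),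
    (false,[([(0,4,[(11,15)]),(0,1,[(4,6)])],[]),([(0,3,[(4,5)])],[3,3,1,1])],[],false,1,0,[2]),
    (false,[([(0,4,[(11,15)]),(0,2,[(2,2)])],[2]),([(0,1,[(4,6)]),(0,3,[(4,5)])],[3])],[],false,1,0,[]),
    (false,[([(0,4,[(11,15)])],[1]),([(0,5,[(7,8)])],[3,2,2,2,1])],[],false,1,0,[2]),
    (false,[([(0,4,[(11,15)]),(0,2,[(2,2)])],[2]),([(0,5,[(7,8)])],[3,1,1,1])],[],false,1,0,[]),
    (false,[([(0,6,[(16,18)])],[2,1])],[8,3,1],false,3,1,[])]),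
  ([8,7,6,5,4,2,1,1], [
    (false,[],[8,7,6,5,4,2,1,1],false,6,4,[10,15,18]),
    (true,[([(0,0,[(7,10)])],[1])],[8,6,5,4],false,4,4,[6,10]),
    (false,[([(0,0,[(7,10)]),(0,1,[(5,6)])],[3])],[7,5,2,1],true,4,2,[6]),
    (false,[([(0,0,[(7,10)]),(0,1,[(5,6)])],[3]),([(0,1,[(5,6)])],[1,1])],[7],false,1,0,[3,4]),
    (false,[([(0,0,[(7,10)]),(0,1,[(5,6)])],[3]),([(0,1,[(5,6)]),(0,2,[(2,3)])],[2,2])],[2],false,1,0,[2,3]),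
    (true,[([(0,0,[(7,10)]),(0,7,[(5,6),(2,2)])],[]),([(0,1,[(5,6)]),(0,2,[(2,3)])],[2])],[5],false,1,0,[2]),
    (false,[([(0,0,[(7,10)]),(0,0,[(5,6),(2,2),(2,2)])],[]),([(0,1,[(5,6)]),(0,2,[(2,3)])],[2,2])],[1],false,1,0,[]),
    (false,[([(0,0,[(7,10)]),(0,0,[(5,6),(3,3)])],[]),([(0,1,[(5,6)]),(0,2,[(2,3)])],[2,2])],[1],false,1,0,[]),
    (false,[([(0,0,[(7,10)]),(0,0,[(5,6),(4,4)])],[]),([(0,1,[(5,6)])],[2,2,2,1])],[1],false,1,0,[]),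
    (false,[([(0,0,[(7,10)]),(0,0,[(7,10)])],[])],[7,5,1,1],false,3,2,[4,6]),
    (true,[([(0,0,[(7,10)]),(0,0,[(7,10)])],[]),([(0,8,[(4,4)])],[2,1,1])],[5,1],true,2,2,[3]),
    (false,[([(0,0,[(7,10)]),(0,0,[(7,10)])],[]),([(0,7,[(4,4),(3,3)])],[2,2,2])],[],false,1,0,[]),
    (false,[([(0,0,[(7,10)]),(0,0,[(7,10)])],[]),([(0,1,[(5,6)])],[2,2,2,1])],[1],false,1,0,[2]),
    (false,[([(0,0,[(7,10)]),(0,0,[(7,10)])],[]),([(0,7,[(5,6),(2,2)])],[2,2,2])],[],false,1,0,[]),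
    (true,[([(0,4,[(11,15)])],[])],[8,6,5],false,3,5,[6,8]),
    (false,[([(0,4,[(11,15)]),(0,1,[(4,6)])],[])],[7,5,1],true,3,2,[5]),
    (false,[([(0,4,[(11,15)]),(0,1,[(4,6)])],[]),([(0,3,[(4,5)])],[2,2,2,2])],[],false,1,0,[2]),
    (false,[([(0,4,[(11,15)]),(0,1,[(4,6)])],[]),([(0,1,[(4,5)]),(0,2,[(2,2)])],[2,2])],[],false,1,0,[]),
    (false,[([(0,4,[(11,15)]),(0,5,[(7,8)])],[])],[6,4,1],false,2,1,[]),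
    (false,[([(0,9,[(16,18)])],[3,2])],[8,2,1],false,3,1,[])]),
  ([8,7,6,5,4,3,1], [
    (false,[],[8,7,6,5,4,3,1],false,6,4,[10,15,18]),
    (true,[([(0,0,[(7,10)])],[1,1])],[7,6,5,4],false,4,4,[5,6,8,9,10]),
    (true,[([(0,4,[(7,10),(5,5)])],[1])],[7,6,5],false,3,5,[4,5]),
    (true,[([(0,4,[(7,10),(5,5)]),(0,8,[(4,4)])],[])],[6,5,4],false,3,4,[4]),
    (true,[([(0,0,[(7,10)]),(0,3,[(5,5)])],[]),([(0,8,[(4,4)]),(0,8,[(4,4)])],[2,1])],[6,2],false,2,1,[]),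
    (true,[([(0,4,[(7,10),(5,5)])],[3,3]),([(0,3,[(5,5)])],[3,3,2])],[],false,1,0,[2,3,4]),
    (true,[([(0,4,[(7,10),(5,5)])],[4,4]),([(0,3,[(5,5)]),(0,2,[(2,2)])],[3])],[],false,1,0,[2]),
    (true,[([(0,4,[(7,10),(5,5)])],[4,4]),([(0,3,[(5,5)]),(1,0,[(2,2),(2,2)])],[])],[],false,1,0,[2]),
    (true,[([(0,4,[(7,10),(5,5)])],[4,4]),([(0,3,[(5,5)]),(1,0,[(2,2),(2,2),(2,2)])],[])],[],false,1,0,[]),
    (true,[([(0,4,[(7,10),(5,5)])],[4,4]),([(0,3,[(5,5)]),(0,2,[(3,3)])],[3])],[],false,1,0,[2]),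
    (true,[([(0,4,[(7,10),(5,5)])],[4,4]),([(0,3,[(5,5)]),(0,1,[(3,3),(2,2)])],[])],[],false,1,0,[]),
    (true,[([(0,4,[(7,10),(5,5)])],[4,3]),([(0,3,[(5,5)]),(0,8,[(4,4)])],[3])],[],false,1,0,[]),
    (false,[([(0,0,[(7,10)]),(0,1,[(6,6)])],[])],[8,6,4],false,3,4,[6]),
    (false,[([(0,0,[(7,10)]),(0,1,[(6,6)])],[]),([(0,1,[(4,6)])],[3,3,3,2,1])],[],false,1,0,[3,4]),
    (false,[([(0,0,[(7,10)]),(0,1,[(6,6)])],[]),([(0,1,[(4,6)]),(0,2,[(2,3)])],[3,3,3])],[],false,1,0,[2,3]),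
    (false,[([(0,0,[(7,10)]),(0,5,[(6,6),(2,2)])],[]),([(0,1,[(4,6)]),(0,2,[(2,3)])],[3,3,1])],[],false,1,0,[2]),
    (false,[([(0,0,[(7,10)]),(0,5,[(6,6),(2,2)])],[]),([(0,1,[(4,6)]),(1,0,[(2,3),(2,2)])],[3,1])],[],false,1,0,[]),
    (false,[([(0,0,[(7,10)]),(0,1,[(6,6)])],[]),([(0,1,[(4,6)]),(0,1,[(2,3),(3,3)])],[3,3])],[],false,1,0,[]),
    (false,[([(0,0,[(7,10)]),(0,1,[(6,6)])],[]),([(0,1,[(4,6)]),(0,1,[(4,4)])],[3,3])],[],false,1,0,[]),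
    (true,[([(0,0,[(7,10)]),(0,5,[(7,8)])],[])],[6,5,3,2],false,4,2,[6]),
    (false,[([(0,0,[(7,10)]),(0,5,[(7,8)])],[]),([(0,1,[(5,6)])],[3,3,2,1,1])],[],false,1,0,[2]),
    (false,[([(0,0,[(7,10)]),(0,5,[(7,8)])],[]),([(0,1,[(5,6)]),(0,2,[(2,2)])],[3,3,1])],[],false,1,0,[]),
    (true,[([(0,0,[(7,10)]),(0,10,[(9,9)])],[])],[6,4,3,2],false,4,2,[]),
    (true,[([(0,11,[(7,10),(10,10)])],[])],[7,6],false,2,2,[3]),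
    (true,[([(0,11,[(7,10),(10,10)])],[]),([(0,2,[(3,3)])],[2,2,2,2,2])],[],false,1,0,[]),
    (true,[([(0,4,[(11,15)])],[1])],[7,6,5],false,3,5,[4,6,8]),
    (true,[([(0,4,[(11,15)]),(0,8,[(4,4)])],[])],[6,5,4],false,3,4,[4]),
    (false,[([(0,4,[(11,15)]),(0,8,[(4,4)])],[4]),([(0,8,[(4,4)])],[2,2,2,1])],[],false,1,0,[2]),
    (true,[([(0,4,[(11,15)]),(0,8,[(4,4)])],[]),([(0,1,[(4,4),(2,2)])],[3,3,3])],[],false,1,0,[]),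
    (true,[([(0,4,[(11,15)])],[1]),([(0,1,[(5,6)])],[3,3,3,3])],[],false,1,0,[2,3,4]),
    (true,[([(0,4,[(11,15)])],[4,3]),([(0,1,[(5,6)]),(0,2,[(2,2)])],[3])],[],false,1,0,[2]),
    (true,[([(0,4,[(11,15)])],[4,3]),([(0,1,[(5,6)]),(1,0,[(2,2),(2,2)])],[])],[],false,1,0,[2]),
    (true,[([(0,4,[(11,15)])],[4,3]),([(0,1,[(5,6)]),(1,0,[(2,2),(2,2),(2,2)])],[])],[],false,1,0,[]),
    (true,[([(0,4,[(11,15)])],[4,3]),([(0,1,[(5,6)]),(0,2,[(3,3)])],[3])],[],false,1,0,[2]),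
    (true,[([(0,4,[(11,15)])],[4,4]),([(0,1,[(5,6)]),(0,3,[(3,3),(2,2)])],[])],[],false,1,0,[]),
    (true,[([(0,4,[(11,15)]),(0,8,[(4,4)])],[]),([(0,1,[(5,6)])],[3,3,3])],[],false,1,0,[]),
    (true,[([(0,4,[(11,15)])],[1]),([(0,5,[(7,8)])],[3,3,3,1])],[],false,1,0,[2]),
    (true,[([(0,4,[(11,15)]),(0,2,[(2,2)])],[]),([(0,5,[(7,8)])],[3,3,2])],[],false,1,0,[]),
    (true,[([(0,9,[(16,18)])],[3,2])],[6,3,2],false,3,2,[])]),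
  ([8,7,6,5,4,3,2], [
    (false,[],[8,7,6,5,4,3,2],false,7,2,[10,15,18]),
    (true,[([(0,0,[(8,10)])],[1,1,1])],[7,6,5,4],false,4,4,[6,10]),
    (true,[([(0,0,[(8,10)]),(0,1,[(5,6)])],[])],[7,6,4,2],false,4,2,[6]),
    (false,[([(0,0,[(8,10)]),(0,1,[(5,6)])],[4]),([(0,1,[(5,6)])],[3,3,2,1])],[],false,1,0,[3]),
    (false,[([(0,0,[(8,10)]),(0,1,[(5,6)])],[4]),([(0,1,[(5,6)]),(0,2,[(2,3)])],[3,3])],[],false,1,0,[2]),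
    (false,[([(0,0,[(8,10)]),(0,1,[(5,6)])],[4]),([(0,1,[(5,6)]),(1,0,[(2,3),(2,2)])],[3])],[],false,1,0,[]),
    (false,[([(0,0,[(8,10)]),(0,0,[(7,10)])],[])],[7,5,3],false,3,3,[5]),
    (false,[([(0,0,[(8,10)]),(0,0,[(7,10)])],[]),([(0,3,[(4,5)])],[3,3,2,2])],[],false,1,0,[2]),
    (false,[([(0,0,[(8,10)]),(0,0,[(7,10)])],[]),([(0,1,[(4,5)]),(0,2,[(2,2)])],[3,3])],[],false,1,0,[]),
    (true,[([(0,4,[(11,15)])],[1,1])],[7,6,5],false,3,5,[4,6,8]),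
    (true,[([(0,4,[(11,15)]),(0,8,[(4,4)])],[])],[7,5,4],false,3,4,[4]),
    (false,[([(0,4,[(11,15)]),(0,8,[(4,4)])],[5]),([(0,8,[(4,4)])],[2,2,2,1])],[],false,1,0,[2]),
    (true,[([(0,4,[(11,15)]),(0,8,[(4,4)])],[]),([(0,1,[(4,4),(2,2)])],[3,3,3,1])],[],false,1,0,[]),
    (true,[([(0,4,[(11,15)])],[1,1]),([(0,1,[(5,6)])],[3,3,3,3])],[],false,1,0,[2,3,4]),
    (true,[([(0,4,[(11,15)]),(0,2,[(2,2)])],[]),([(0,1,[(5,6)])],[3,3,3,2])],[],false,1,0,[2]),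
    (true,[([(0,4,[(11,15)])],[3,2]),([(0,1,[(5,6)]),(1,0,[(2,2),(2,2)])],[3])],[],false,1,0,[2]),
    (true,[([(0,4,[(11,15)])],[3,2]),([(0,1,[(5,6)]),(1,0,[(2,2),(2,2),(2,2)])],[3])],[],false,1,0,[]),
    (true,[([(0,4,[(11,15)]),(0,2,[(3,3)])],[]),([(0,1,[(5,6)])],[3,3,3,2])],[],false,1,0,[2]),
    (true,[([(0,4,[(11,15)])],[3,3]),([(0,1,[(5,6)]),(0,3,[(3,3),(2,2)])],[3])],[],false,1,0,[]),
    (true,[([(0,4,[(11,15)]),(0,8,[(4,4)])],[]),([(0,1,[(5,6)])],[3,3,3,1])],[],false,1,0,[]),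
    (true,[([(0,4,[(11,15)])],[]),([(0,5,[(7,8)])],[3,3,3,3])],[],false,1,0,[2]),
    (true,[([(0,4,[(11,15)]),(0,2,[(2,2)])],[]),([(0,5,[(7,8)])],[3,3,2,1])],[],false,1,0,[]),
    (true,[([(0,9,[(16,18)])],[3,2])],[7,3,2],false,3,2,[])]),
  ([9,7,6,5,4,2,1], [
    (false,[],[9,7,6,5,4,2,1],false,6,3,[10,15,18]),
    (true,[([(0,0,[(7,10)])],[1])],[7,6,5,4,1],false,4,5,[6,10]),
    (true,[([(0,0,[(7,10)]),(0,1,[(5,6)])],[])],[6,5,4,2,1],false,5,1,[6]),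
    (false,[([(0,0,[(7,10)]),(0,12,[(5,6),(6,6)])],[])],[7,5],false,2,2,[3]),
    (true,[([(0,0,[(7,10)])],[1]),([(0,4,[(5,6),(6,6),(3,3)])],[4,4])],[],false,1,0,[]),
    (false,[([(0,0,[(7,10)]),(0,0,[(7,10)])],[1])],[7,5,1],true,3,2,[4,6]),
    (false,[([(0,0,[(7,10)]),(0,0,[(7,10)])],[1]),([(0,8,[(4,4)])],[2,2,2,1,1])],[1],false,1,0,[3]),
    (false,[([(0,0,[(7,10)]),(0,0,[(7,10)])],[1]),([(0,8,[(4,4)]),(0,2,[(2,3)])],[2,2,1])],[1],false,1,0,[2]),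
    (false,[([(0,0,[(7,10)]),(0,0,[(7,10)])],[1]),([(0,1,[(4,4),(2,2)]),(0,2,[(2,3)])],[2,2])],[],false,1,0,[]),
    (false,[([(0,0,[(7,10)]),(0,0,[(7,10)])],[1]),([(0,1,[(5,6)])],[2,2,2,1])],[],false,1,0,[2]),
    (false,[([(0,0,[(7,10)]),(0,0,[(7,10)])],[1]),([(0,1,[(5,6)]),(0,2,[(2,2)])],[2,2])],[],false,1,0,[]),
    (true,[([(0,4,[(11,15)])],[2])],[7,5,4,1],true,4,2,[6,8]),
    (false,[([(0,4,[(11,15)]),(0,1,[(5,6)])],[1])],[7,5],false,2,3,[4]),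
    (true,[([(0,4,[(11,15)])],[]),([(0,0,[(5,6),(3,4)])],[3,3,3])],[],false,1,0,[2]),
    (true,[([(0,4,[(11,15)]),(0,2,[(2,2)])],[]),([(0,0,[(5,6),(3,4)])],[3,3])],[],false,1,0,[]),
    (false,[([(0,4,[(11,15)]),(0,5,[(7,8)])],[1])],[6,4],false,2,1,[]),
    (true,[([(0,9,[(16,18)])],[3])],[7,3,2,1],false,3,2,[])]),
  ([9,8,6,5,3,2,1], [
    (false,[],[9,8,6,5,3,2,1],false,6,3,[10,15,18]),
    (true,[([(0,0,[(7,10)])],[])],[7,6,5,4,2],false,5,2,[8,10]),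
    (false,[([(0,0,[(7,10)]),(0,7,[(6,8)])],[])],[9,6,1],true,3,3,[4,6,7]),
    (true,[([(0,0,[(7,10)])],[2,1]),([(0,12,[(6,8),(4,4)])],[5,4])],[],false,1,0,[2,3,4]),
    (true,[([(0,0,[(7,10)]),(0,2,[(2,2)])],[]),([(0,12,[(6,8),(4,4)])],[5,4])],[],false,1,0,[2]),
    (false,[([(0,0,[(7,10)]),(0,7,[(6,8)])],[]),([(0,1,[(4,4),(2,2)]),(0,2,[(2,2)])],[2,2,2,1])],[],false,1,0,[2]),
    (false,[([(0,0,[(7,10)]),(0,7,[(6,8)])],[]),([(0,1,[(4,4),(2,2)]),(0,2,[(2,2)]),(0,2,[(2,2)])],[2,2])],[],false,1,0,[]),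
    (true,[([(0,0,[(7,10)])],[]),([(0,4,[(6,8),(4,4),(3,3)])],[5,4])],[],false,1,0,[2]),
    (true,[([(0,0,[(7,10)]),(0,2,[(2,2)])],[]),([(0,4,[(6,8),(4,4),(3,3)])],[5,1])],[],false,1,0,[]),
    (false,[([(0,0,[(7,10)]),(0,7,[(6,8)])],[]),([(0,8,[(4,4)]),(0,8,[(4,4)])],[2,2,1,1,1])],[1],false,1,0,[]),
    (false,[([(0,0,[(7,10)]),(0,7,[(6,8)])],[]),([(0,1,[(5,6)])],[2,2,2,2,1,1])],[],false,1,0,[3]),
    (false,[([(0,0,[(7,10)]),(0,7,[(6,8)])],[]),([(0,1,[(5,6)]),(0,2,[(2,3)])],[2,2,2,1])],[],false,1,0,[2]),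
    (false,[([(0,0,[(7,10)]),(0,7,[(6,8)])],[]),([(0,1,[(5,6)]),(0,2,[(2,3)]),(0,2,[(2,2)])],[2,2])],[],false,1,0,[]),
    (true,[([(0,0,[(7,10)])],[]),([(0,4,[(6,8),(7,7)])],[5,4])],[],false,1,0,[]),
    (false,[([(0,0,[(7,10)]),(0,13,[(9,10)])],[])],[9,3,1],false,3,1,[4]),
    (true,[([(0,0,[(7,10)])],[1]),([(0,14,[(9,10),(4,4)])],[5,4])],[],false,1,0,[]),
    (true,[([(0,4,[(11,15)])],[])],[7,6,4,2],false,4,2,[6,8]),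
    (true,[([(0,4,[(11,15)])],[]),([(0,1,[(5,6)])],[3,2,1])],[7],false,1,0,[3,4]),
    (true,[([(0,4,[(11,15)]),(0,2,[(2,3)])],[]),([(0,1,[(5,6)])],[3,2,1])],[4],false,1,0,[3]),
    (true,[([(0,4,[(11,15)]),(0,2,[(2,3)])],[]),([(0,1,[(5,6)]),(0,2,[(2,3)])],[3])],[4],false,1,0,[2]),
    (true,[([(0,4,[(11,15)]),(0,2,[(2,3)])],[]),([(0,1,[(5,6)]),(1,0,[(2,3),(2,2)])],[])],[4],false,1,0,[]),
    (true,[([(0,4,[(11,15)])],[]),([(0,0,[(5,6),(4,4)])],[4,3,2])],[],false,1,0,[]),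
    (false,[([(0,4,[(11,15)]),(0,5,[(7,8)])],[2])],[6,3],false,2,1,[]),
    (true,[([(0,9,[(16,18)])],[2])],[7,3,2,2],false,3,2,[])]),
  ([9,8,6,5,4,2,1], [
    (false,[],[9,8,6,5,4,2,1],false,6,3,[10,15,18]),
    (true,[([(0,0,[(7,10)])],[1])],[7,6,5,4,2],false,5,2,[8,10]),
    (false,[([(0,0,[(7,10)]),(0,7,[(6,8)])],[3])],[8,5,1],true,3,3,[6,7]),
    (false,[([(0,0,[(7,10)]),(0,7,[(6,8)])],[3]),([(0,1,[(4,6)])],[2,2,2,1,1])],[],false,1,0,[3,4]),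
    (false,[([(0,0,[(7,10)]),(0,7,[(6,8)])],[3]),([(0,1,[(4,6)]),(0,2,[(2,3)])],[2,2,1])],[],false,1,0,[3]),
    (false,[([(0,0,[(7,10)]),(0,7,[(6,8)])],[3]),([(0,1,[(4,6)]),(0,2,[(2,3)]),(0,2,[(2,3)])],[2])],[],false,1,0,[2]),
    (false,[([(0,0,[(7,10)]),(0,0,[(6,8),(2,2)])],[]),([(0,1,[(4,6)]),(0,2,[(2,3)]),(0,2,[(2,3)])],[2,1])],[],false,1,0,[]),
    (false,[([(0,0,[(7,10)]),(0,7,[(6,8)])],[3]),([(0,1,[(4,6)]),(0,8,[(4,4)])],[2,1,1])],[],false,1,0,[]),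
    (true,[([(0,0,[(7,10)])],[1]),([(0,4,[(6,8),(7,7)])],[5,4])],[],false,1,0,[]),
    (false,[([(0,0,[(7,10)]),(0,0,[(9,10)])],[])],[9,5,1],false,3,1,[4]),
    (true,[([(0,0,[(7,10)])],[4,3]),([(0,14,[(9,10),(4,4)])],[3,1])],[],false,1,0,[]),
    (true,[([(0,4,[(11,15)])],[])],[7,6,5,2],false,4,2,[6,8]),
    (false,[([(0,4,[(11,15)]),(0,1,[(5,6)])],[])],[9,5],false,2,3,[4]),
    (true,[([(0,4,[(11,15)])],[]),([(0,0,[(5,6),(3,4)])],[4,3,3])],[],false,1,0,[2]),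
    (true,[([(0,4,[(11,15)]),(0,2,[(2,2)])],[]),([(0,0,[(5,6),(3,4)])],[4,3])],[],false,1,0,[]),
    (false,[([(0,4,[(11,15)]),(0,5,[(7,8)])],[2])],[6,4],false,2,1,[]),
    (true,[([(0,9,[(16,18)])],[3])],[7,3,2,2],false,3,2,[])]),
  ([9,8,7,4,3,2,1], [
    (false,[],[9,8,7,4,3,2,1],false,6,3,[10,15,18]),
    (true,[([(0,0,[(7,10)])],[])],[7,6,5,3,3],false,4,5,[6,10]),
    (true,[([(0,0,[(7,10)]),(0,1,[(5,6)])],[])],[6,4,3,3,2],false,4,2,[6]),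
    (true,[([(0,0,[(7,10)]),(0,1,[(5,6)])],[]),([(0,1,[(5,6)])],[3])],[6,3],false,2,3,[4]),
    (false,[([(0,0,[(7,10)]),(0,0,[(5,6),(3,4)])],[2]),([(0,1,[(5,6)])],[2,1,1,1,1])],[],false,1,0,[2]),
    (false,[([(0,0,[(7,10)]),(0,0,[(5,6),(3,4)])],[2]),([(0,1,[(5,6)]),(0,2,[(2,2)])],[1,1,1])],[],false,1,0,[]),
    (false,[([(0,0,[(7,10)]),(0,0,[(7,10)])],[2])],[8,3,1],true,3,3,[5,6]),
    (false,[([(0,0,[(7,10)]),(0,0,[(7,10)])],[2]),([(0,3,[(4,5)])],[2,2,1,1,1])],[],false,1,0,[3]),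
    (false,[([(0,0,[(7,10)]),(0,0,[(7,10)])],[2]),([(0,3,[(4,5)]),(0,2,[(2,3)])],[2,1,1])],[],false,1,0,[2]),
    (false,[([(0,0,[(7,10)]),(0,0,[(7,10)])],[2]),([(0,3,[(4,5)]),(0,2,[(2,3)]),(0,2,[(2,2)])],[1])],[],false,1,0,[]),
    (false,[([(0,0,[(7,10)]),(0,0,[(7,10)])],[2]),([(0,1,[(6,6)])],[2,1,1,1,1])],[],false,1,0,[]),
    (true,[([(0,4,[(11,15)])],[])],[7,6,3,3],false,3,6,[6,8]),
    (false,[([(0,4,[(11,15)]),(0,1,[(4,6)])],[2])],[8,3],true,2,4,[3,4,5]),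
    (false,[([(0,4,[(11,15)]),(0,1,[(4,6)])],[2]),([(0,2,[(3,3)])],[2,2,1,1,1,1])],[],false,1,0,[3]),
    (true,[([(0,4,[(11,15)])],[1]),([(0,1,[(4,6)]),(0,1,[(3,3),(2,3)])],[3])],[3],false,1,0,[2]),
    (false,[([(0,4,[(11,15)]),(0,1,[(4,6)])],[2]),([(0,2,[(3,3)]),(0,2,[(2,3)]),(0,2,[(2,2)])],[1,1])],[],false,1,0,[]),
    (false,[([(0,4,[(11,15)]),(0,1,[(4,6)])],[2]),([(0,8,[(4,4)])],[2,1,1,1,1,1])],[],false,1,0,[2]),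
    (true,[([(0,4,[(11,15)])],[1]),([(0,1,[(4,6)]),(0,1,[(4,4),(2,2)])],[3])],[3],false,1,0,[]),
    (true,[([(0,4,[(11,15)])],[2]),([(0,1,[(4,6)]),(0,3,[(5,5)])],[3])],[3],false,1,0,[]),
    (true,[([(0,4,[(11,15)])],[1]),([(0,7,[(7,8)])],[4,4,2])],[],false,1,0,[2]),
    (true,[([(0,4,[(11,15)]),(0,2,[(2,2)])],[]),([(0,7,[(7,8)])],[4,4])],[],false,1,0,[]),
    (true,[([(0,15,[(16,18)])],[4])],[5,4,3],false,3,2,[])]),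
  ([9,8,7,5,4,2,1], [
    (false,[],[9,8,7,5,4,2,1],false,6,3,[10,15,18]),
    (true,[([(0,0,[(7,10)])],[1])],[7,6,5,4,3],false,5,3,[7,10]),
    (false,[([(0,0,[(7,10)]),(0,16,[(6,7)])],[3])],[8,7,1],false,2,6,[3,6,7]),
    (false,[([(0,0,[(7,10)]),(0,0,[(6,7),(3,3)])],[2])],[8,5,1],true,3,3,[]),
    (false,[([(0,0,[(7,10)]),(0,16,[(6,7)])],[3]),([(0,1,[(4,6)])],[2,2,2,2,2])],[],false,1,0,[3,4]),
    (false,[([(0,0,[(7,10)]),(0,0,[(6,7),(2,3)])],[2]),([(0,1,[(4,6)])],[2,2,2,1,1])],[],false,1,0,[3]),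
    (false,[([(0,0,[(7,10)]),(0,0,[(6,7),(2,3)])],[2]),([(0,1,[(4,6)]),(0,2,[(2,3)])],[2,2,1])],[],false,1,0,[2]),
    (false,[([(0,0,[(7,10)]),(0,0,[(6,7),(2,3)])],[2]),([(0,1,[(4,6)]),(0,2,[(2,3)]),(0,2,[(2,2)])],[2])],[],false,1,0,[]),
    (false,[([(0,0,[(7,10)]),(0,13,[(6,7),(4,4)])],[2]),([(0,1,[(4,6)])],[2,2,1,1,1])],[],false,1,0,[]),
    (true,[([(0,0,[(7,10)])],[3,3]),([(0,14,[(6,7),(7,7)])],[5,1])],[],false,1,0,[]),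
    (false,[([(0,0,[(7,10)]),(0,0,[(8,10)])],[2])],[8,5,1],true,3,3,[5]),
    (true,[([(0,0,[(7,10)])],[1]),([(0,4,[(8,10),(4,5)])],[5,5])],[],false,1,0,[2]),
    (true,[([(0,0,[(7,10)]),(0,2,[(2,2)])],[3]),([(0,4,[(8,10),(4,5)])],[5])],[],false,1,0,[]),
    (true,[([(0,4,[(11,15)])],[])],[7,6,5,3],false,4,3,[6,8]),
    (false,[([(0,4,[(11,15)]),(0,1,[(5,6)])],[2])],[8,5],false,2,3,[4]),
    (true,[([(0,4,[(11,15)])],[]),([(0,0,[(5,6),(3,4)])],[4,4,3])],[],false,1,0,[2]),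
    (true,[([(0,4,[(11,15)]),(0,2,[(2,2)])],[]),([(0,0,[(5,6),(3,4)])],[4,4])],[],false,1,0,[]),
    (false,[([(0,4,[(11,15)]),(0,5,[(7,8)])],[])],[9,4],false,2,1,[]),
    (true,[([(0,9,[(16,18)])],[3])],[7,3,3,2],false,3,2,[])]),
  ([9,8,7,6,3,2,1], [
    (false,[],[9,8,7,6,3,2,1],false,6,3,[10,15,18]),
    (true,[([(0,0,[(7,10)])],[])],[7,6,5,4,4],false,4,5,[6,8,10]),
    (false,[([(0,0,[(7,10)]),(0,1,[(5,6)])],[2])],[9,7,2],false,2,7,[3,6]),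
    (false,[([(0,0,[(7,10)]),(0,1,[(5,6)]),(0,2,[(3,3)])],[])],[8,7,2],false,3,2,[]),
    (true,[([(0,0,[(7,10)])],[3]),([(0,1,[(5,6)]),(0,1,[(4,6)])],[])],[7,4],false,2,4,[3,5]),
    (false,[([(0,0,[(7,10)]),(0,1,[(5,6)]),(0,2,[(3,3)])],[]),([(0,1,[(4,6)])],[3,2,2,2,2])],[],false,1,0,[3]),
    (false,[([(0,0,[(7,10)]),(0,1,[(5,6)])],[2]),([(0,1,[(4,6)]),(0,1,[(3,3),(2,3)])],[2,2,2])],[],false,1,0,[2]),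
    (true,[([(0,0,[(7,10)]),(0,3,[(3,3),(2,2)])],[]),([(0,1,[(5,6)]),(0,1,[(4,6)])],[]),([(0,2,[(2,3)])],[2,2,2])],[],false,1,0,[]),
    (true,[([(0,0,[(7,10)]),(0,3,[(4,5)])],[]),([(0,1,[(5,6)]),(0,1,[(4,6)])],[])],[5,4],false,2,1,[]),
    (true,[([(0,0,[(7,10)]),(0,5,[(7,8)])],[])],[5,4,4,3,2],false,4,2,[6]),
    (true,[([(0,0,[(7,10)]),(0,5,[(7,8)])],[]),([(0,1,[(5,6)])],[3])],[5,4],false,2,1,[]),
    (false,[([(0,0,[(7,10)]),(0,13,[(9,10)])],[3])],[8,3,1],false,3,1,[4]),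
    (true,[([(0,0,[(7,10)])],[2]),([(0,14,[(9,10),(4,4)])],[5,5])],[],false,1,0,[]),
    (true,[([(0,4,[(11,15)])],[])],[7,6,4,4],false,3,6,[4,6,8]),
    (false,[([(0,4,[(11,15)]),(0,8,[(4,4)])],[])],[9,8],false,2,4,[3,4]),
    (false,[([(0,4,[(11,15)]),(0,8,[(4,4)]),(0,2,[(3,3)])],[])],[8,6],false,2,2,[3]),
    (true,[([(0,4,[(11,15)])],[5]),([(0,8,[(4,4)]),(0,1,[(3,3),(3,3)])],[1,1])],[4],false,1,0,[]),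
    (false,[([(0,4,[(11,15)]),(0,8,[(4,4)]),(0,8,[(4,4)])],[])],[7,6],false,2,1,[]),
    (true,[([(0,4,[(11,15)])],[]),([(0,1,[(5,6)])],[3,3,3,2])],[4],false,1,0,[2,3,4]),
    (true,[([(0,4,[(11,15)])],[1]),([(0,7,[(5,6),(2,2)])],[4,4,4])],[],false,1,0,[2]),
    (true,[([(0,4,[(11,15)])],[4]),([(0,1,[(5,6)]),(1,0,[(2,2),(2,2)])],[1])],[4],false,1,0,[2]),
    (true,[([(0,4,[(11,15)])],[4]),([(0,1,[(5,6)]),(1,0,[(2,2),(2,2),(2,2)])],[1])],[4],false,1,0,[]),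
    (true,[([(0,4,[(11,15)])],[4]),([(0,1,[(5,6)]),(0,2,[(3,3)])],[3,1])],[4],false,1,0,[2]),
    (true,[([(0,4,[(11,15)])],[3]),([(0,1,[(5,6)]),(0,3,[(3,3),(2,2)])],[3])],[4],false,1,0,[]),
    (true,[([(0,4,[(11,15)])],[5]),([(0,1,[(5,6)]),(0,8,[(4,4)])],[1,1])],[4],false,1,0,[]),
    (false,[([(0,4,[(11,15)]),(0,5,[(7,8)])],[3])],[7,3],false,2,1,[]),
    (true,[([(0,9,[(16,18)])],[])],[7,6,3,2],false,3,2,[])]),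
  ([9,8,7,6,4,2,1], [
    (false,[],[9,8,7,6,4,2,1],false,6,3,[10,15,18]),
    (true,[([(0,0,[(7,10)])],[2])],[7,6,5,4,3],false,5,3,[7,10]),
    (false,[([(0,0,[(7,10)]),(0,7,[(6,7)])],[3])],[8,7,1],false,2,6,[3,5,6,7]),
    (false,[([(0,0,[(7,10)]),(0,0,[(6,7),(3,3)])],[])],[9,7,1],true,3,2,[]),
    (false,[([(0,0,[(7,10)]),(0,12,[(6,7),(4,5)])],[])],[8,7],false,2,3,[3,4]),
    (true,[([(0,0,[(7,10)])],[2]),([(0,4,[(6,7),(4,5),(3,3)])],[5,5])],[],false,1,0,[2]),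
    (false,[([(0,0,[(7,10)]),(0,0,[(6,7),(3,3)])],[]),([(0,1,[(4,5)]),(0,2,[(2,2)])],[2,2,2,2])],[],false,1,0,[]),
    (false,[([(0,0,[(7,10)]),(0,12,[(6,7),(4,5)])],[]),([(0,8,[(4,4)])],[2,2,2,2,2,1])],[],false,1,0,[]),
    (true,[([(0,0,[(7,10)])],[4,4]),([(0,17,[(6,7),(6,6)])],[4,2])],[],false,1,0,[2]),
    (true,[([(0,0,[(7,10)])],[2]),([(0,4,[(6,7),(6,6),(2,2)])],[5,5])],[],false,1,0,[]),
    (true,[([(0,0,[(7,10)])],[2]),([(0,4,[(6,7),(7,7)])],[5,5])],[],false,1,0,[]),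
    (false,[([(0,0,[(7,10)]),(0,0,[(8,10)])],[])],[9,7,1],true,3,2,[5]),
    (true,[([(0,0,[(7,10)])],[2]),([(0,4,[(8,10),(4,5)])],[5,5])],[],false,1,0,[2]),
    (false,[([(0,0,[(7,10)]),(0,0,[(8,10)])],[]),([(0,1,[(4,5)]),(0,2,[(2,2)])],[2,2,2,2])],[],false,1,0,[]),
    (true,[([(0,4,[(11,15)])],[])],[7,6,5,4],false,4,4,[6,8]),
    (false,[([(0,4,[(11,15)]),(0,1,[(5,6)])],[])],[9,7],false,2,3,[4]),
    (true,[([(0,4,[(11,15)])],[]),([(0,0,[(5,6),(3,4)])],[4,4,4])],[],false,1,0,[2]),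
    (true,[([(0,4,[(11,15)])],[3]),([(0,1,[(5,6)]),(0,1,[(3,4),(2,2)])],[3])],[4],false,1,0,[]),
    (false,[([(0,4,[(11,15)]),(0,5,[(7,8)])],[3])],[7,4],false,2,1,[]),
    (true,[([(0,9,[(16,18)])],[2])],[7,5,3,2],false,3,2,[])]),
  ([9,8,7,6,5,2,1], [
    (false,[],[9,8,7,6,5,2,1],false,6,3,[10,15,18]),
    (true,[([(0,0,[(7,10)])],[1])],[7,6,5,5,4],false,4,4,[6,10]),
    (true,[([(0,0,[(7,10)]),(0,1,[(5,6)])],[])],[6,5,5,4,2],false,4,2,[6]),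
    (true,[([(0,0,[(7,10)]),(0,1,[(5,6)])],[]),([(0,1,[(5,6)])],[3,2])],[6,5],false,2,3,[4]),
    (false,[([(0,0,[(7,10)]),(0,0,[(5,6),(3,4)])],[3]),([(0,1,[(5,6)])],[2,2,2,2,1])],[],false,1,0,[2]),
    (false,[([(0,0,[(7,10)]),(0,0,[(5,6),(3,4)])],[3]),([(0,1,[(5,6)]),(0,2,[(2,2)])],[2,2,2])],[],false,1,0,[]),
    (false,[([(0,0,[(7,10)]),(0,0,[(7,10)])],[3])],[8,6,1],true,3,2,[4,6]),
    (false,[([(0,0,[(7,10)]),(0,0,[(7,10)])],[3]),([(0,8,[(4,4)])],[2,2,2,2,1,1])],[1],false,1,0,[3]),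
    (false,[([(0,0,[(7,10)]),(0,0,[(7,10)])],[3]),([(0,8,[(4,4)]),(0,2,[(2,3)])],[2,2,2,1])],[1],false,1,0,[2]),
    (false,[([(0,0,[(7,10)]),(0,0,[(7,10)])],[3]),([(0,1,[(4,4),(2,2)]),(0,2,[(2,3)])],[2,2,2])],[],false,1,0,[]),
    (false,[([(0,0,[(7,10)]),(0,0,[(7,10)])],[3]),([(0,1,[(5,6)])],[2,2,2,2,1])],[],false,1,0,[2]),
    (false,[([(0,0,[(7,10)]),(0,0,[(7,10)])],[3]),([(0,1,[(5,6)]),(0,2,[(2,2)])],[2,2,2])],[],false,1,0,[]),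
    (true,[([(0,4,[(11,15)])],[])],[7,6,5,5],false,3,6,[4,6,8]),
    (false,[([(0,4,[(11,15)]),(0,8,[(4,4)])],[3,3])],[7,6],false,2,4,[3,4]),
    (true,[([(0,4,[(11,15)]),(0,2,[(3,3)])],[]),([(0,8,[(4,4)])],[2,2,1])],[6,5],false,2,2,[3]),
    (false,[([(0,4,[(11,15)]),(0,1,[(3,3),(3,3)])],[3]),([(0,8,[(4,4)])],[2,2,2,2,1,1])],[],false,1,0,[]),
    (true,[([(0,4,[(11,15)]),(0,8,[(4,4)])],[]),([(0,8,[(4,4)])],[2,2,2])],[5,4],false,2,1,[]),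
    (false,[([(0,4,[(11,15)]),(0,1,[(5,6)])],[3])],[8,6],false,2,3,[3,4]),
    (false,[([(0,4,[(11,15)]),(0,1,[(5,6)])],[3]),([(0,2,[(3,3)])],[2,2,2,2,2,1])],[],false,1,0,[2]),
    (true,[([(0,4,[(11,15)])],[3]),([(0,1,[(5,6)]),(0,1,[(3,3),(2,2)])],[3])],[5],false,1,0,[]),
    (false,[([(0,4,[(11,15)]),(0,1,[(5,6)])],[3]),([(0,8,[(4,4)])],[2,2,2,2,1,1])],[],false,1,0,[]),
    (false,[([(0,4,[(11,15)]),(0,5,[(7,8)])],[])],[9,6],false,2,1,[]),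
    (true,[([(0,9,[(16,18)])],[3])],[7,5,3,2],false,3,2,[])]),
  ([10,6,5,4,3,3,2,1], [
    (false,[],[10,6,5,4,3,3,2,1],true,7,2,[10,15,18]),
    (true,[([(0,18,[(8,10)])],[1,1])],[8,6,4,3,1],true,5,2,[8,10]),
    (false,[([(0,0,[(8,10)]),(0,7,[(6,8)])],[1,1])],[6,4,3,1],false,4,1,[6]),
    (true,[([(0,0,[(8,10)]),(0,1,[(5,6)])],[2]),([(0,7,[(6,8)])],[])],[7,1],false,2,1,[]),
    (false,[([(0,18,[(8,10)]),(0,0,[(9,10)])],[1])],[6,4,3],false,3,2,[]),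
    (false,[([(0,4,[(11,15)])],[])],[10,6,3],false,3,3,[6,8]),
    (true,[([(0,4,[(11,15)]),(0,1,[(4,6)])],[])],[7,3,1,1,1],false,3,3,[5]),
    (true,[([(0,4,[(11,15)]),(0,1,[(4,6)])],[]),([(0,3,[(4,5)])],[])],[7,1],false,2,1,[]),
    (false,[([(0,4,[(11,15)]),(0,7,[(7,8)])],[1])],[5,3,2],false,2,1,[]),
    (true,[([(0,9,[(16,18)])],[3,3,2])],[3,2,1,1,1],false,3,2,[])]),
  ([10,7,6,5,3,2,1], [
    (false,[],[10,7,6,5,3,2,1],true,7,2,[10,15,18]),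
    (true,[([(0,18,[(8,10)])],[2,2])],[6,5,4,3,2],false,5,2,[8,10]),
    (false,[([(0,0,[(8,10)]),(0,7,[(6,8)])],[2,1])],[7,5,1],true,3,2,[6]),
    (true,[([(0,0,[(8,10)]),(0,1,[(4,6)])],[]),([(0,7,[(6,8)])],[])],[6,4],false,2,2,[3]),
    (false,[([(0,0,[(8,10)]),(0,7,[(6,8)]),(0,2,[(3,3)])],[]),([(0,1,[(4,6)])],[2,2,2,1])],[],false,1,0,[]),
    (true,[([(0,11,[(8,10),(9,10)])],[])],[7,4,1,1],false,3,2,[]),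
    (true,[([(0,4,[(11,15)])],[])],[7,6,4,1,1],false,4,2,[6,8]),
    (false,[([(0,4,[(11,15)]),(0,1,[(5,6)])],[3,1])],[6,3],false,2,3,[4]),
    (false,[([(0,4,[(11,15)]),(0,0,[(5,6),(3,4)])],[1])],[6,2],false,2,1,[]),
    (false,[([(0,4,[(11,15)]),(0,7,[(7,8)])],[3])],[6,2],false,2,1,[]),
    (true,[([(0,9,[(16,18)])],[2])],[7,3,2,1,1],false,3,2,[])]),
  ([10,9,5,4,3,2,1], [
    (false,[],[10,9,5,4,3,2,1],false,6,3,[10,15,18]),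
    (true,[([(0,0,[(7,10)])],[])],[7,6,5,2,2,2],false,4,5,[6,8,10]),
    (false,[([(0,0,[(7,10)]),(0,1,[(5,6)])],[1,1])],[10,4,2],true,3,4,[6]),
    (true,[([(0,0,[(7,10)])],[]),([(0,1,[(5,6)]),(0,1,[(4,6)])],[2])],[6,2,2],false,2,4,[3,5]),
    (true,[([(0,0,[(7,10)]),(0,2,[(3,3)])],[]),([(0,1,[(5,6)]),(0,1,[(4,6)])],[2])],[3,2,2],false,2,2,[3]),
    (false,[([(0,0,[(7,10)]),(0,1,[(5,6)])],[1,1]),([(0,1,[(4,6)]),(0,1,[(3,3),(3,3)])],[1,1,1,1])],[],false,1,0,[]),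
    (false,[([(0,0,[(7,10)]),(0,1,[(5,6)])],[1,1]),([(0,1,[(4,6)]),(0,3,[(4,5)])],[2,1,1,1])],[],false,1,0,[2]),
    (false,[([(0,0,[(7,10)]),(0,1,[(5,6)])],[1,1]),([(0,1,[(4,6)]),(0,3,[(4,5)]),(0,2,[(2,2)])],[1,1])],[],false,1,0,[]),
    (false,[([(0,0,[(7,10)]),(0,7,[(7,8)])],[1])],[10,4,1],true,3,3,[6]),
    (false,[([(0,0,[(7,10)]),(0,7,[(7,8)])],[1]),([(0,1,[(4,6)])],[2,2,1,1,1,1,1])],[],false,1,0,[3]),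
    (false,[([(0,0,[(7,10)]),(0,7,[(7,8)])],[1]),([(0,1,[(4,6)]),(0,2,[(2,3)])],[2,1,1,1,1])],[],false,1,0,[2]),
    (false,[([(0,0,[(7,10)]),(0,7,[(7,8)])],[1]),([(0,1,[(4,6)]),(0,2,[(2,3)]),(0,2,[(2,2)])],[1,1,1])],[],false,1,0,[]),
    (false,[([(0,0,[(7,10)]),(0,18,[(9,10)])],[])],[10,4],false,2,3,[4]),
    (true,[([(0,0,[(7,10)])],[2,2]),([(0,19,[(9,10),(3,4)])],[6])],[],false,1,0,[2]),
    (true,[([(0,0,[(7,10)]),(0,2,[(2,2)])],[4]),([(0,14,[(9,10),(3,4)])],[1])],[2],false,1,0,[]),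
    (true,[([(0,4,[(11,15)])],[])],[7,6,2,2,2],false,3,6,[6,8]),
    (true,[([(0,4,[(11,15)])],[]),([(0,1,[(4,6)])],[3,2,2,2])],[2,2],false,1,0,[3,5]),
    (true,[([(0,4,[(11,15)]),(0,2,[(2,3)])],[]),([(0,1,[(4,6)])],[3,2,1])],[2,2],false,1,0,[2,3]),
    (true,[([(0,4,[(11,15)])],[1]),([(0,1,[(4,6)]),(1,0,[(2,3),(2,2)])],[2])],[2,2],false,1,0,[2]),
    (true,[([(0,4,[(11,15)]),(0,2,[(2,2)])],[]),([(0,1,[(4,6)]),(1,0,[(2,3),(2,2)])],[])],[2,2],false,1,0,[2]),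
    (true,[([(0,4,[(11,15)]),(0,2,[(2,3)])],[]),([(0,1,[(4,6)]),(1,0,[(2,2),(2,2),(2,2)])],[])],[2,2],false,1,0,[]),
    (true,[([(0,4,[(11,15)])],[1]),([(0,1,[(4,6)]),(0,1,[(2,3),(3,3)])],[2])],[2,2],false,1,0,[2]),
    (true,[([(0,4,[(11,15)]),(0,2,[(2,2)])],[]),([(0,1,[(4,6)]),(0,1,[(2,3),(3,3)])],[])],[2,2],false,1,0,[]),
    (true,[([(0,4,[(11,15)])],[2]),([(0,1,[(4,6)]),(0,3,[(4,5)])],[2])],[2,2],false,1,0,[2]),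
    (true,[([(0,4,[(11,15)]),(0,2,[(2,2)])],[]),([(0,1,[(4,6)]),(0,1,[(4,5)])],[])],[2,2],false,1,0,[]),
    (false,[([(0,4,[(11,15)]),(0,5,[(7,8)])],[2,2])],[4,3],false,2,1,[]),
    (true,[([(0,15,[(16,18)])],[])],[7,4,3,2],false,3,2,[])]),
  ([11,7,6,4,3,2,1], [
    (false,[],[11,7,6,4,3,2,1],true,7,2,[10,15,18]),
    (true,[([(0,18,[(8,10)])],[2])],[7,5,4,3,2,1],true,6,2,[10]),
    (false,[([(0,0,[(8,10)]),(0,0,[(7,10)])],[1,1,1])],[7,3,1],true,3,3,[5]),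
    (true,[([(0,18,[(8,10)])],[]),([(0,0,[(7,10)]),(0,3,[(4,5)])],[])],[6,3],false,2,1,[]),
    (true,[([(0,4,[(11,15)])],[])],[7,6,3,1,1,1],false,4,3,[6,8]),
    (false,[([(0,4,[(11,15)]),(0,1,[(5,6)])],[1,1,1])],[7,3],false,2,3,[4]),
    (true,[([(0,4,[(11,15)])],[]),([(0,0,[(5,6),(3,4)])],[3,2,2])],[1,1],false,1,0,[2]),
    (true,[([(0,4,[(11,15)]),(0,2,[(2,2)])],[]),([(0,0,[(5,6),(3,4)])],[3,1])],[1,1],false,1,0,[]),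
    (false,[([(0,4,[(11,15)]),(0,7,[(7,8)])],[1,1])],[7,2],false,2,1,[]),
    (true,[([(0,15,[(16,18)])],[4])],[5,4,1,1,1],false,3,2,[])]),
  ([11,8,5,4,3,2,1], [
    (false,[],[11,8,5,4,3,2,1],true,7,3,[10,15,18]),
    (true,[([(0,18,[(8,10)])],[])],[7,6,4,3,2,2],false,5,3,[8,10]),
    (false,[([(0,0,[(8,10)]),(0,7,[(6,8)])],[])],[11,4,1],true,3,3,[6]),
    (true,[([(0,0,[(8,10)])],[1]),([(0,7,[(6,8)]),(0,1,[(4,6)])],[])],[6,2,1],false,3,1,[]),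
    (true,[([(0,11,[(8,10),(9,10)])],[])],[7,2,2,1,1],false,3,2,[]),
    (true,[([(0,4,[(11,15)])],[])],[7,6,2,2,1,1],false,4,2,[6,8]),
    (true,[([(0,4,[(11,15)])],[]),([(0,1,[(5,6)])],[1,1,1])],[7,2,1],false,3,1,[4]),
    (true,[([(0,4,[(11,15)])],[2]),([(0,18,[(5,6),(4,4)])],[3,2])],[2],false,1,0,[]),
    (false,[([(0,4,[(11,15)]),(0,7,[(7,8)])],[2,2])],[5,2],false,2,1,[]),
    (true,[([(0,20,[(16,18)])],[])],[6,5,3,2],false,3,2,[])])]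

theorem cj7d_0_ok : runAllJ S41 R41 F41 17 cj7d_0 = true := by decide +kernel

noncomputable def cj7d_1 : List (List ℕ × List NdJ) := [
  ([13,6,5,4,3,2,1], [
    (false,[],[13,6,5,4,3,2,1],true,7,2,[10,15,18]),
    (true,[([(0,18,[(8,10)])],[])],[7,6,4,3,1,1,1,1],false,5,3,[8,10]),
    (true,[([(0,18,[(8,10)])],[]),([(0,7,[(6,8)])],[2,1])],[7,4,1,1],false,3,2,[6]),
    (false,[([(0,18,[(8,10)]),(0,7,[(6,8)]),(0,1,[(4,6)])],[1])],[5,4],false,2,2,[3]),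
    (false,[([(0,18,[(8,10)]),(0,7,[(6,8)]),(0,1,[(4,6)])],[1]),([(0,2,[(3,3)])],[2,2,2])],[],false,1,0,[]),
    (true,[([(0,18,[(8,10)])],[]),([(0,18,[(9,10)])],[2])],[7,4,1],false,3,1,[]),
    (true,[([(0,4,[(11,15)])],[])],[7,6,1,1,1,1,1,1],false,3,6,[5,8]),
    (true,[([(0,4,[(11,15)])],[]),([(0,3,[(4,5)])],[1,1,1])],[7,1,1,1,1],false,2,4,[3,5]),
    (false,[([(0,4,[(11,15)]),(0,7,[(4,5),(3,3)])],[1,1,1,1])],[5,2],false,2,2,[3]),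
    (false,[([(0,4,[(11,15)]),(0,7,[(4,5),(3,3)])],[1,1,1,1]),([(0,2,[(3,3)])],[2,1,1])],[],false,1,0,[]),
    (false,[([(0,4,[(11,15)]),(0,3,[(4,5)]),(0,3,[(4,5)])],[1,1])],[4,3],false,2,1,[]),
    (false,[([(0,4,[(11,15)]),(0,7,[(6,8)])],[1,1,1,1])],[5,2],false,2,2,[3]),
    (false,[([(0,4,[(11,15)]),(0,7,[(6,8)])],[1,1,1,1]),([(0,2,[(3,3)])],[2,1,1])],[],false,1,0,[]),
    (true,[([(0,9,[(16,18)])],[3,2])],[3,2,1,1,1,1,1,1],false,3,2,[])])]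

theorem cj7d_1_ok : runAllJ S41 R41 F41 17 cj7d_1 = true := by decide +kernel

/-- the minors -/
def G7d : List (List ℕ) := [
  [1,1,1,1,1,1,1,7,1,1,1,1,1,1], [1,1,1,1,1,1,7,1,1,1,1,1,1,1], [1,1,1,1,1,1,1,1,4,1,1,1,1,1],
  [1,1,1,1,1,4,1,1,1,1,1,1,1,1], [1,1,1,1,1,1,1,1,1,3,1,1,1,1], [1,1,1,1,3,1,1,1,1,1,1,1,1,1],
  [1,1,1,1,1,1,1,1,1,1,3,1,1,1], [1,1,1,3,1,1,1,1,1,1,1,1,1,1], [1,1,1,1,1,1,1,1,1,1,1,3,1,1],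
  [1,1,3,1,1,1,1,1,1,1,1,1,1,1], [1,1,1,1,1,1,1,1,1,1,1,1,2,1], [1,2,1,1,1,1,1,1,1,1,1,1,1,1],
  [1,1,1,1,1,1,1,1,1,1,1,1,1,2], [2,1,1,1,1,1,1,1,1,1,1,1,1,1], [1,1,2,2,1,1,1,1,1,1,1,1,1,1],
  [1,1,1,1,1,1,1,1,1,1,2,2,1,1], [1,1,1,1,1,1,1,2,1,1,1,2,1,1], [1,1,2,1,1,1,2,1,1,1,1,1,1,1],
  [1,1,2,1,2,1,1,1,1,1,1,1,1,1], [1,1,1,1,1,1,1,1,1,2,1,2,1,1], [1,1,1,1,1,1,1,1,2,1,1,2,1,1],
  [1,1,2,1,1,2,1,1,1,1,1,1,1,1], [1,1,1,1,1,1,1,3,1,1,2,1,1,1], [1,1,1,2,1,1,3,1,1,1,1,1,1,1],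
  [1,1,1,1,1,1,1,1,2,1,2,1,1,1], [1,1,1,2,1,2,1,1,1,1,1,1,1,1], [1,1,2,1,1,1,1,2,1,1,1,1,1,1],
  [1,1,1,1,1,1,2,1,1,1,1,2,1,1], [1,1,1,1,2,1,1,1,1,2,1,1,1,1], [1,1,1,1,2,1,1,4,1,1,1,1,1,1],
  [1,1,1,1,1,1,4,1,1,2,1,1,1,1], [1,1,1,1,1,1,1,4,1,2,1,1,1,1], [1,1,1,1,2,1,4,1,1,1,1,1,1,1],
  [1,1,1,1,1,3,3,1,1,1,1,1,1,1], [1,1,1,1,1,1,1,3,3,1,1,1,1,1]]

noncomputable def T7d : BT :=
  .split 0 2 (.split 1 2 (.split 2 3 (.split 3 3 (.split 4 3 (.split 5 4 (.split 6 7 (.split 7 7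
  (.split 8 4 (.split 9 3 (.split 10 3 (.split 11 3 (.split 12 2 (.split 13 2 (.split 11 2
  (.split 2 2 (.split 10 2 (.split 7 4 (.split 6 4 (.split 8 2 (.split 5 2 .small (.split 3 2
  .small (.minor 25))) (.split 5 2 (.split 3 2 .small (.split 6 3 (.split 9 2 .small (.split 4 2
  .small (.minor 28))) (.minor 23))) (.split 3 2 (.split 9 2 (.split 4 2 .small (.split 8 3
  .small (.split 7 3 .small (.minor 34)))) (.split 4 2 (.split 8 3 .small (.split 7 3 .small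
  (.minor 34))) (.minor 28))) (.minor 25)))) (.split 3 2 (.split 4 2 (.split 5 3 (.split 9 2
  .small (.minor 30)) (.minor 33)) (.minor 32)) (.minor 23))) (.split 4 2 (.split 8 3 (.split 9
  2 (.split 6 4 (.split 5 2 .small (.split 3 2 .small (.minor 25))) (.split 3 2 (.split 5 3
  .small (.minor 33)) (.minor 23))) (.minor 31)) (.minor 34)) (.minor 29))) (.split 7 3 (.split
  8 2 (.split 6 4 (.split 3 2 (.split 5 2 .small (.split 9 2 .small (.split 4 2 .small (.minor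
  28)))) (.split 5 2 (.split 6 3 (.split 9 2 .small (.split 4 2 .small (.minor 28))) (.minor
  23)) (.minor 25))) (.split 3 2 (.split 4 2 (.split 5 3 (.split 9 2 .small (.minor 30)) (.minor
  33)) (.minor 32)) (.minor 23))) (.minor 24)) (.minor 22))) (.split 3 2 (.split 4 2 (.split 5 2
  (.split 6 2 (.split 7 2 (.split 10 2 .small (.split 8 2 .small (.minor 24))) (.minor 26))
  (.minor 17)) (.minor 21)) (.minor 18)) (.minor 14))) (.split 6 2 (.split 7 2 (.split 8 2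
  (.split 9 2 (.split 10 2 (.split 2 2 (.split 3 2 .small (.split 5 2 .small (.minor 25)))
  (.split 3 2 (.split 4 2 (.split 5 2 .small (.minor 21)) (.minor 18)) (.minor 14))) (.minor
  15)) (.minor 19)) (.minor 20)) (.minor 16)) (.minor 27))) (.minor 12)) (.minor 10)) (.minor
  8)) (.minor 6)) (.minor 4)) (.minor 2)) (.minor 0)) (.minor 1)) (.minor 3)) (.minor 5))
  (.minor 7)) (.minor 9)) (.minor 11)) (.minor 13)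

noncomputable def Rt7d : List (List ℕ) :=
  cj7d_0.map Prod.fst ++ cj7d_1.map Prod.fst

theorem Rt7d_ok : ∀ M ∈ Rt7d, KG (M : Multiset ℕ) 17 := by
  intro M h
  unfold Rt7d at h
  simp only [List.mem_append] at h
  rcases h with h | h
  · exact kg_of_allJ S41_ok R41_ok F41_ok cj7d_0_ok M h
  · exact kg_of_allJ S41_ok R41_ok F41_ok cj7d_1_ok M h

def ks7d : List ℕ := [
  34, 35, 28, 29, 14, 15, 18, 19, 22, 23, 4, 5, 6, 7, 21, 20, 8, 9, 17, 16, 12, 13, 26, 27, 10,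
  11, 3, 2, 0, 24, 25, 30, 31, 33, 32]

theorem min7d_ok : minC 7 Rt7d G7d ks7d = true := by decide +kernel

theorem T7d_ok : btC 7 43 G7d T7d (List.replicate (2 * 7) 1)
    (List.replicate (2 * 7) 0) = true := by decide +kernel

theorem kg7d {M : Multiset ℕ} (hM : ∀ s ∈ M, 1 ≤ s)
    (hc : M.dedup.card = 7) (hn : 43 ≤ M.sum) : KG M 17 :=
  coverC ks7d T7d Rt7d_ok min7d_ok T7d_ok hM hc hn

noncomputable def cj7e_0 : List (List ℕ × List NdJ) := [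
  ([8,7,6,6,5,3,2,1], [
    (false,[],[8,7,6,6,5,3,2,1],true,6,3,[9,12,15,19,20]),
    (false,[([(0,0,[(7,9)])],[1,1])],[8,7,6,5],false,4,5,[6,8,9]),
    (false,[([(0,4,[(7,9),(5,6)])],[2])],[8,7,6],false,3,6,[4,6]),
    (false,[([(0,4,[(7,9),(5,6)]),(0,8,[(4,4)])],[])],[8,6,5],false,3,5,[4]),
    (false,[([(0,0,[(7,9)]),(0,1,[(5,6)])],[]),([(0,8,[(4,4)]),(0,8,[(4,4)])],[2,2])],[8,2],true,2,3,[4]),
    (true,[([(0,0,[(7,9)]),(0,0,[(5,6),(3,4)])],[]),([(0,8,[(4,4)]),(0,8,[(4,4)])],[2])],[7,1],false,2,1,[]),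
    (true,[([(0,4,[(7,9),(5,6)]),(0,1,[(5,6)])],[])],[7,5,5],false,2,5,[3,4,6]),
    (true,[([(0,4,[(7,9),(5,6)]),(0,1,[(5,6)])],[]),([(0,2,[(3,3)])],[2,2,2,2,1])],[5],false,1,0,[2,3]),
    (true,[([(0,4,[(7,9),(5,6)]),(0,1,[(5,6)])],[]),([(0,3,[(3,3),(2,2)])],[3,3,3,3])],[],false,1,0,[2]),
    (true,[([(0,4,[(7,9),(5,6)])],[4,4]),([(0,1,[(5,6)]),(0,1,[(3,3),(2,2)]),(0,2,[(2,2)])],[])],[],false,1,0,[2]),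
    (true,[([(0,4,[(7,9),(5,6)])],[4,4]),([(0,1,[(5,6)]),(0,2,[(3,3)]),(1,0,[(2,2),(2,2),(2,2)])],[])],[],false,1,0,[]),
    (false,[([(0,4,[(7,9),(5,6)])],[3,3]),([(0,1,[(5,6)]),(0,1,[(3,3),(3,3)])],[3,2])],[],false,1,0,[2]),
    (true,[([(0,4,[(7,9),(5,6)])],[4,4]),([(0,1,[(5,6)]),(0,1,[(3,3),(3,3)]),(0,2,[(2,2)])],[])],[],false,1,0,[]),
    (true,[([(0,4,[(7,9),(5,6)]),(0,1,[(5,6)])],[]),([(0,8,[(4,4)])],[2,2,2])],[7],false,1,0,[3]),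
    (true,[([(0,4,[(7,9),(5,6)]),(0,1,[(5,6)])],[]),([(0,8,[(4,4)]),(0,2,[(2,3)])],[2,2,1])],[5],false,1,0,[2]),
    (true,[([(0,4,[(7,9),(5,6)])],[4,4]),([(0,1,[(5,6)]),(0,1,[(4,4),(2,2)]),(0,2,[(2,3)])],[])],[],false,1,0,[]),
    (false,[([(0,4,[(7,9),(5,6)])],[3,3]),([(0,1,[(5,6)]),(0,1,[(5,6)])],[3,2])],[],false,1,0,[2]),
    (true,[([(0,4,[(7,9),(5,6)])],[4,4]),([(0,1,[(5,6)]),(0,1,[(5,6)]),(0,2,[(2,2)])],[])],[],false,1,0,[]),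
    (true,[([(0,0,[(7,9)]),(0,5,[(7,8)])],[3])],[6,5,4,2],false,4,2,[6,8]),
    (true,[([(0,4,[(7,9),(5,6)]),(0,5,[(7,8)])],[])],[6,5,4],false,3,3,[4]),
    (false,[([(0,4,[(7,9),(5,6)]),(0,5,[(7,8)])],[]),([(0,8,[(4,4)])],[2,1,1,1])],[6],false,1,0,[]),
    (false,[([(0,0,[(7,9)])],[4,3,3]),([(0,7,[(7,8)]),(0,5,[(7,8)])],[2])],[],false,1,0,[2]),
    (true,[([(0,0,[(7,9)]),(0,5,[(7,8)])],[3]),([(0,0,[(7,8),(2,2)])],[4,3])],[],false,1,0,[]),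
    (false,[([(0,0,[(7,9)]),(0,10,[(9,9)])],[])],[8,6,3,2],false,4,2,[6]),
    (false,[([(0,4,[(7,9),(5,6)]),(0,10,[(9,9)])],[])],[6,5,3],false,2,1,[]),
    (false,[([(0,12,[(10,12)])],[4,2])],[8,6,6],false,1,0,[3,5,6,8,10,11]),
    (false,[([(0,4,[(10,12),(2,3)])],[2])],[8,7,6],false,3,6,[]),
    (false,[([(0,21,[(10,12),(4,5)])],[5,3])],[7,6],false,1,0,[3,4,5]),
    (true,[([(0,4,[(10,12),(2,3)]),(0,3,[(4,5)])],[])],[7,6,5],false,3,5,[]),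
    (false,[([(0,11,[(10,12),(4,5),(4,4)])],[3])],[8,6],false,2,4,[3,4]),
    (false,[([(0,11,[(10,12),(4,5),(4,4)])],[3]),([(0,2,[(3,3)])],[2,2,2,2,2,1])],[],false,1,0,[3]),
    (false,[([(0,11,[(10,12),(4,5),(4,4)])],[3]),([(0,2,[(3,3)]),(0,2,[(2,3)])],[2,2,2,2])],[],false,1,0,[2]),
    (false,[([(0,11,[(10,12),(4,5),(4,4)])],[4,4]),([(0,2,[(3,3)]),(0,2,[(2,3)]),(0,2,[(2,2)])],[])],[],false,1,0,[]),
    (false,[([(0,11,[(10,12),(4,5),(4,4)])],[3]),([(0,8,[(4,4)])],[2,2,2,2,1,1])],[],false,1,0,[2]),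
    (false,[([(0,11,[(10,12),(4,5),(4,4)])],[3]),([(0,8,[(4,4)]),(0,2,[(2,2)])],[2,2,2,1])],[],false,1,0,[]),
    (false,[([(0,22,[(10,12),(5,5)]),(0,1,[(4,5)])],[])],[7,6,2],false,3,2,[4]),
    (false,[([(0,22,[(10,12),(5,5)])],[3,2]),([(0,3,[(4,5)]),(0,8,[(4,4)])],[3,2,2])],[],false,1,0,[]),
    (true,[([(0,23,[(10,12),(6,6)])],[4,4])],[6,5],false,2,5,[3,6]),
    (false,[([(0,11,[(10,12),(6,6),(3,3)])],[3])],[8,6],false,2,3,[3]),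
    (false,[([(0,11,[(10,12),(6,6),(3,3)])],[3]),([(0,2,[(3,3)])],[2,2,2,2,2,1])],[],false,1,0,[2]),
    (false,[([(0,11,[(10,12),(6,6),(3,3)])],[3]),([(0,2,[(3,3)]),(0,2,[(2,2)])],[2,2,2,2])],[],false,1,0,[]),
    (true,[([(0,12,[(10,12)])],[4,4,4]),([(0,1,[(6,6)]),(0,1,[(4,6)])],[2])],[],false,1,0,[3]),
    (false,[([(0,4,[(10,12),(2,3)])],[3,3]),([(0,1,[(6,6)]),(0,1,[(4,6)])],[3,2])],[],false,1,0,[2]),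
    (true,[([(0,4,[(10,12),(2,3)]),(0,5,[(6,6),(2,2)])],[]),([(0,1,[(4,6)])],[3,3,3])],[],false,1,0,[]),
    (false,[([(0,11,[(10,12),(7,8)])],[3])],[8,6],false,2,4,[3,5]),
    (true,[([(0,4,[(10,12),(3,3)]),(0,5,[(7,8)])],[])],[6,5,4],false,3,2,[]),
    (true,[([(0,12,[(10,12)])],[4,3]),([(0,5,[(7,8)]),(0,3,[(4,5)])],[3,3])],[],false,1,0,[2]),
    (false,[([(0,14,[(10,12),(2,2)])],[3,2]),([(0,5,[(7,8)]),(0,3,[(4,5)])],[3,3])],[],false,1,0,[]),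
    (false,[([(0,24,[(10,12),(9,10)])],[4,3])],[6,3],false,2,2,[3]),
    (false,[([(0,24,[(10,12),(9,10)])],[4,3]),([(0,2,[(3,3)])],[2,2,1,1])],[],false,1,0,[]),
    (false,[([(0,25,[(10,12),(11,11)])],[4])],[8,2],false,1,0,[]),
    (false,[([(0,4,[(13,15)])],[2])],[8,7,6],false,3,6,[6,8]),
    (false,[([(0,11,[(13,15),(4,6)])],[3])],[8,6],false,2,4,[3,5]),
    (false,[([(0,11,[(13,15),(4,6)])],[3]),([(0,2,[(3,3)])],[2,2,2,2,2,1])],[],false,1,0,[3]),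
    (false,[([(0,11,[(13,15),(4,6)])],[3]),([(0,2,[(3,3)]),(0,2,[(2,3)])],[2,2,2,2])],[],false,1,0,[2]),
    (false,[([(0,11,[(13,15),(4,6)])],[4,4]),([(0,2,[(3,3)]),(0,2,[(2,3)]),(0,2,[(2,2)])],[])],[],false,1,0,[]),
    (true,[([(0,4,[(13,15)]),(0,1,[(4,6)])],[]),([(0,3,[(4,5)])],[3,3,3,3])],[],false,1,0,[2]),
    (false,[([(0,22,[(13,15),(2,2)]),(0,1,[(4,6)])],[]),([(0,1,[(4,5)])],[3,2,2,2])],[],false,1,0,[]),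
    (false,[([(0,4,[(13,15)]),(0,5,[(7,8)])],[])],[6,6,3],false,2,1,[]),
    (false,[([(0,6,[(16,19)])],[3,1])],[8,6,1],true,3,2,[5]),
    (false,[([(0,6,[(16,19)]),(0,3,[(4,5)])],[])],[7,6,1],false,2,1,[]),
    (false,[([(0,26,[(20,20)])],[5,3])],[7,3],false,1,0,[])]),
  ([8,7,6,6,5,4,2,1], [
    (false,[],[8,7,6,6,5,4,2,1],false,6,3,[10,13,17,20]),
    (false,[([(0,0,[(7,10)])],[2,1])],[8,7,6,5],false,4,5,[5,6,8,10]),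
    (false,[([(0,4,[(7,10),(5,5)])],[3])],[8,7,6],false,3,6,[5]),
    (false,[([(0,4,[(7,10),(5,5)]),(0,1,[(4,5)])],[])],[7,6,5],false,3,5,[4,5]),
    (false,[([(0,4,[(7,10),(5,5)]),(0,3,[(4,5)])],[]),([(0,8,[(4,4)])],[2,2,2,2])],[7],false,1,0,[3,4]),
    (false,[([(0,0,[(7,10)]),(0,0,[(5,5),(4,5)])],[]),([(0,8,[(4,4)]),(0,2,[(2,3)])],[2,2])],[7,1],true,2,2,[3]),
    (false,[([(0,4,[(7,10),(5,5)])],[4,4]),([(0,1,[(4,5)]),(0,8,[(4,4)]),(0,1,[(2,3),(3,3)])],[])],[],false,1,0,[]),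
    (false,[([(0,4,[(7,10),(5,5)]),(0,3,[(4,5)])],[]),([(0,8,[(4,4)]),(0,8,[(4,4)])],[2,2])],[7],false,1,0,[]),
    (false,[([(0,4,[(7,10),(5,5)]),(0,1,[(4,5)])],[]),([(0,1,[(5,5)])],[3,3,3,3])],[],false,1,0,[2,3]),
    (false,[([(0,0,[(7,10)]),(0,0,[(5,5),(4,5)])],[]),([(0,1,[(5,5)]),(0,2,[(2,2)])],[2,2])],[6],false,1,0,[2]),
    (false,[([(0,0,[(7,10)]),(0,0,[(5,5),(4,5)])],[]),([(0,0,[(5,5),(2,2),(2,2)])],[3,3,3])],[],false,1,0,[]),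
    (false,[([(0,0,[(7,10)]),(0,0,[(5,5),(4,5)])],[]),([(0,0,[(5,5),(3,3)])],[3,3,3])],[],false,1,0,[]),
    (false,[([(0,0,[(7,10)]),(0,1,[(6,6)])],[3])],[7,6,5,2],false,4,2,[5,6]),
    (false,[([(0,0,[(7,10)]),(0,13,[(6,6),(5,5)])],[])],[7,6,4,1],false,4,1,[5]),
    (false,[([(0,4,[(7,10),(5,5)]),(0,1,[(6,6)])],[]),([(0,1,[(5,5)])],[3,3,3,3])],[],false,1,0,[]),
    (false,[([(0,0,[(7,10)]),(0,1,[(6,6)])],[3]),([(0,1,[(6,6)])],[3,2,2])],[7],false,1,0,[4]),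
    (false,[([(0,0,[(7,10)]),(0,0,[(6,6),(2,4)])],[]),([(0,1,[(6,6)])],[2,2,2])],[7],false,1,0,[2,3]),
    (false,[([(0,0,[(7,10)]),(0,0,[(6,6),(2,4)])],[]),([(0,5,[(6,6),(2,2)])],[3,3,3,1])],[1],false,1,0,[2]),
    (false,[([(0,0,[(7,10)]),(0,0,[(6,6),(2,4)])],[]),([(0,0,[(6,6),(2,2),(2,2)])],[3,3,3])],[],false,1,0,[]),
    (false,[([(0,0,[(7,10)]),(0,0,[(6,6),(2,4)])],[]),([(0,0,[(6,6),(3,3)])],[3,3,3])],[],false,1,0,[]),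
    (false,[([(0,0,[(7,10)]),(0,5,[(7,8)])],[])],[8,6,5,2],false,4,2,[6,8]),
    (false,[([(0,0,[(7,10)]),(0,5,[(7,8)])],[]),([(0,1,[(5,6)])],[3,2,2])],[8],false,1,0,[2,4]),
    (false,[([(0,0,[(7,10)]),(0,0,[(7,8),(2,2)])],[]),([(0,1,[(5,6)])],[2,2,2])],[7],false,1,0,[2]),
    (false,[([(0,0,[(7,10)]),(0,0,[(7,8),(2,2)])],[]),([(0,1,[(5,6)]),(0,2,[(2,2)])],[2,2])],[6],false,1,0,[2]),
    (false,[([(0,0,[(7,10)]),(0,0,[(7,8),(2,2)])],[]),([(0,0,[(5,6),(2,2),(2,2)])],[3,3,3])],[],false,1,0,[]),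
    (false,[([(0,0,[(7,10)]),(0,5,[(7,8)])],[]),([(0,0,[(5,6),(3,4)])],[4,3,3,1])],[],false,1,0,[2]),
    (false,[([(0,0,[(7,10)]),(0,0,[(7,8),(2,2)])],[]),([(0,0,[(5,6),(3,4)])],[3,3,3])],[],false,1,0,[]),
    (false,[([(0,0,[(7,10)]),(0,5,[(7,8)])],[]),([(0,7,[(7,8)])],[4,3,3,3])],[],false,1,0,[2]),
    (false,[([(0,0,[(7,10)]),(0,0,[(7,8),(2,2)])],[]),([(0,5,[(7,8)])],[3,3,3,1])],[1],false,1,0,[]),
    (false,[([(0,0,[(7,10)]),(0,0,[(9,10)])],[])],[7,6,5,1],false,4,1,[6]),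
    (false,[([(0,0,[(7,10)]),(0,0,[(9,10)])],[]),([(0,1,[(5,6)])],[2,2,2])],[7],false,1,0,[2]),
    (false,[([(0,0,[(7,10)]),(0,0,[(9,10)])],[]),([(0,1,[(5,6)]),(0,2,[(2,2)])],[2,2])],[6],false,1,0,[]),
    (false,[([(0,17,[(11,13)])],[4,2,2])],[7,6,5],false,3,5,[6,10]),
    (false,[([(0,27,[(11,13)]),(0,1,[(4,6)])],[])],[8,6,5,1],true,4,2,[6]),
    (false,[([(0,17,[(11,13)])],[4,4,4]),([(0,1,[(4,6)]),(0,1,[(5,6)])],[2])],[],false,1,0,[3]),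
    (false,[([(0,27,[(11,13)]),(0,1,[(4,6)])],[]),([(0,1,[(5,6)]),(0,2,[(2,3)])],[2,2,1])],[6],false,1,0,[2]),
    (false,[([(0,27,[(11,13)]),(0,1,[(4,6)])],[]),([(0,1,[(5,6)]),(0,2,[(2,3)]),(0,2,[(2,2)])],[2])],[6],false,1,0,[]),
    (false,[([(0,27,[(11,13)])],[3,1]),([(0,0,[(7,10)])],[3,3,3,3])],[],false,1,0,[2,3,4]),
    (false,[([(0,27,[(11,13)]),(0,2,[(2,2)])],[3]),([(0,0,[(7,10)])],[3,3,3,1])],[],false,1,0,[2]),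
    (false,[([(0,27,[(11,13)]),(1,0,[(2,2),(2,2)])],[]),([(0,0,[(7,10)])],[3,3,3,1])],[],false,1,0,[2]),
    (false,[([(0,27,[(11,13)]),(1,0,[(2,2),(2,2),(2,2)])],[]),([(0,0,[(7,10)])],[3,3,3,1])],[],false,1,0,[]),
    (false,[([(0,27,[(11,13)]),(0,2,[(3,3)])],[3]),([(0,0,[(7,10)])],[3,3,3,1])],[],false,1,0,[2]),
    (false,[([(0,27,[(11,13)]),(0,3,[(3,3),(2,2)])],[2]),([(0,0,[(7,10)])],[3,3,3])],[],false,1,0,[]),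
    (false,[([(0,27,[(11,13)])],[3,3]),([(0,0,[(7,10)]),(0,8,[(4,4)])],[3,3])],[],false,1,0,[]),
    (false,[([(0,22,[(14,17)])],[4,3])],[8,5,2],true,3,3,[6,7]),
    (false,[([(0,22,[(14,17)])],[4,2]),([(0,1,[(4,6)])],[3,2,2,2,1])],[],false,1,0,[3,4]),
    (false,[([(0,22,[(14,17)]),(0,2,[(2,3)])],[4]),([(0,1,[(4,6)])],[3,2,2,2])],[],false,1,0,[3]),
    (false,[([(0,22,[(14,17)])],[4,3]),([(0,1,[(4,6)]),(0,2,[(2,3)]),(0,2,[(2,3)])],[3])],[],false,1,0,[2]),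
    (false,[([(0,22,[(14,17)])],[4,3]),([(0,1,[(4,6)]),(1,0,[(2,3),(2,2)]),(0,2,[(2,3)])],[])],[],false,1,0,[]),
    (false,[([(0,22,[(14,17)])],[4,2]),([(0,1,[(4,6)]),(0,8,[(4,4)])],[3,2,1])],[],false,1,0,[]),
    (false,[([(0,25,[(14,17),(7,7)])],[5])],[8,2],false,1,0,[]),
    (false,[([(0,28,[(18,20)])],[3])],[8,7,1],false,3,1,[])]),
  ([8,7,7,6,4,3,2,1], [
    (false,[],[8,7,7,6,4,3,2,1],true,6,4,[9,12,15,19,20]),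
    (false,[([(0,0,[(7,9)])],[])],[8,7,7,6],false,3,6,[4,5,6,8,9]),
    (false,[([(0,0,[(7,9)]),(0,8,[(4,4)])],[2])],[8,7,4,3],false,4,3,[]),
    (true,[([(0,0,[(7,9)]),(0,3,[(5,5)])],[])],[8,6,5,4],false,4,4,[5]),
    (false,[([(0,0,[(7,9)]),(0,0,[(5,5),(5,5)])],[])],[7,7,3,1],true,3,4,[4,5]),
    (false,[([(0,0,[(7,9)]),(0,0,[(5,5),(5,5)])],[]),([(0,8,[(4,4)])],[2,1,1,1,1])],[7,1],true,2,2,[3]),
    (false,[([(0,23,[(7,9),(5,5),(5,5)])],[4]),([(0,8,[(4,4)]),(0,2,[(3,3)])],[2,2,2,2])],[],false,1,0,[]),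
    (true,[([(0,14,[(7,9),(5,5)])],[4,3]),([(0,3,[(5,5)]),(0,1,[(5,5)])],[3,3])],[],false,1,0,[2]),
    (false,[([(0,0,[(7,9)]),(0,0,[(5,5),(5,5)])],[]),([(0,3,[(5,5)]),(0,2,[(2,2)])],[2,1])],[7],false,1,0,[]),
    (true,[([(0,0,[(7,9)]),(0,1,[(6,6)])],[3])],[7,5,4,3],false,4,3,[6]),
    (false,[([(0,11,[(7,9),(6,6),(5,6)])],[2])],[8,7],false,2,4,[4,5]),
    (false,[([(0,0,[(7,9)]),(0,0,[(6,6),(3,4)])],[]),([(0,1,[(5,6)])],[2,1,1,1])],[7],false,1,0,[2,3]),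
    (false,[([(0,4,[(7,9),(6,6)])],[4,3,3]),([(0,1,[(5,6)]),(0,1,[(3,4),(2,2)])],[1])],[],false,1,0,[2]),
    (false,[([(0,4,[(7,9),(5,6)]),(0,1,[(3,4),(2,2)])],[]),([(0,5,[(6,6),(2,2)])],[3,2,2,2])],[],false,1,0,[]),
    (false,[([(0,0,[(7,9)]),(0,0,[(6,6),(3,4)])],[]),([(0,1,[(5,6)]),(0,2,[(3,3)])],[1,1])],[7],false,1,0,[]),
    (false,[([(0,4,[(7,9),(6,6)])],[3,3,3]),([(0,1,[(5,6)]),(0,3,[(5,5)])],[3])],[],false,1,0,[]),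
    (false,[([(0,0,[(7,9)]),(0,5,[(7,8)])],[])],[8,7,3,2],false,4,2,[6,8]),
    (false,[([(0,4,[(7,9),(5,6)])],[1,1]),([(0,5,[(7,8)])],[3,3,3,3,1])],[],false,1,0,[2,4]),
    (false,[([(0,4,[(7,9),(5,6)]),(0,2,[(2,2)])],[2]),([(0,5,[(7,8)])],[3,3,2,2])],[],false,1,0,[2]),
    (false,[([(0,4,[(7,9),(5,6)]),(1,0,[(2,2),(2,2)])],[]),([(0,5,[(7,8)])],[3,2,2,2])],[],false,1,0,[2]),
    (false,[([(0,4,[(7,9),(5,6)]),(1,0,[(2,2),(2,2),(2,2)])],[]),([(0,5,[(7,8)])],[3,2,2,2])],[],false,1,0,[]),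
    (false,[([(0,0,[(7,9)]),(0,5,[(7,8)])],[]),([(0,0,[(5,6),(3,4)])],[4,2,2,2])],[],false,1,0,[2]),
    (false,[([(0,4,[(7,9),(5,6)]),(0,1,[(3,4),(2,2)])],[]),([(0,5,[(7,8)])],[3,2,2,2])],[],false,1,0,[]),
    (true,[([(0,0,[(7,9)]),(0,5,[(7,8)])],[]),([(0,7,[(7,8)])],[4,4,3,1])],[],false,1,0,[2]),
    (false,[([(0,0,[(7,9)]),(0,0,[(7,8),(2,2)])],[]),([(0,5,[(7,8)])],[3,2,2,2])],[1],false,1,0,[]),
    (false,[([(0,0,[(7,9)]),(0,10,[(9,9)])],[3])],[7,4,3,2],false,4,2,[6]),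
    (false,[([(0,4,[(7,9),(5,6)]),(0,10,[(9,9)])],[])],[7,4,3],false,2,1,[]),
    (false,[([(0,12,[(10,12)])],[4,1])],[8,7,6],false,3,6,[4,5,6,8,10,11]),
    (false,[([(0,29,[(10,12),(4,4)])],[5,3])],[7,7],false,1,0,[3,4]),
    (false,[([(0,4,[(10,12),(2,3)]),(0,8,[(4,4)])],[])],[8,7,4],false,3,4,[]),
    (false,[([(0,11,[(10,12),(4,4),(4,4)])],[2])],[8,7],false,2,4,[3,4]),
    (false,[([(0,11,[(10,12),(4,4),(4,4)]),(0,2,[(3,3)])],[])],[7,7],false,1,0,[3]),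
    (false,[([(0,11,[(10,12),(4,4),(4,4)])],[3,3]),([(0,2,[(3,3)]),(0,2,[(2,3)])],[2,2,1])],[],false,1,0,[2]),
    (false,[([(0,11,[(10,12),(4,4),(4,4)])],[3,3]),([(0,2,[(3,3)]),(0,2,[(2,3)]),(0,2,[(2,2)])],[2])],[],false,1,0,[]),
    (false,[([(0,11,[(10,12),(4,4),(4,4)]),(0,8,[(4,4)])],[])],[7,6],false,2,1,[]),
    (false,[([(0,22,[(10,12),(5,5)])],[3,3,2])],[7,4,2],true,3,3,[5]),
    (true,[([(0,22,[(10,12),(5,5)]),(0,1,[(4,5)])],[])],[7,4,4],false,2,3,[3,4]),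
    (true,[([(0,22,[(10,12),(5,5)]),(0,2,[(3,3)])],[]),([(0,3,[(4,5)])],[3,3,3,2,2])],[],false,1,0,[2]),
    (false,[([(0,22,[(10,12),(5,5)])],[4,3,2]),([(0,3,[(4,5)]),(0,3,[(3,3),(2,2)])],[2])],[],false,1,0,[]),
    (true,[([(0,22,[(10,12),(5,5)]),(0,8,[(4,4)])],[]),([(0,3,[(4,5)])],[3,3,3,2,1])],[],false,1,0,[]),
    (false,[([(0,15,[(10,12),(6,6)])],[4,3])],[7,6],false,2,5,[3,6]),
    (false,[([(0,11,[(10,12),(6,6),(3,3)])],[2])],[8,7],false,2,3,[3]),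
    (false,[([(0,11,[(10,12),(6,6),(3,3)]),(0,2,[(3,3)])],[])],[7,7],false,1,0,[2]),
    (false,[([(0,11,[(10,12),(6,6),(3,3)])],[3,3]),([(0,2,[(3,3)]),(0,2,[(2,2)])],[2,2,1])],[],false,1,0,[]),
    (true,[([(0,12,[(10,12)])],[4,4]),([(0,1,[(6,6)]),(0,1,[(4,6)])],[3,3])],[],false,1,0,[3]),
    (false,[([(0,4,[(10,12),(2,3)])],[4,3,3]),([(0,1,[(6,6)]),(0,1,[(4,6)])],[1])],[],false,1,0,[2]),
    (false,[([(0,4,[(10,12),(2,3)]),(0,1,[(4,6)])],[]),([(0,5,[(6,6),(2,2)])],[3,2,2,2])],[],false,1,0,[]),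
    (false,[([(0,11,[(10,12),(7,8)])],[2])],[8,7],false,2,4,[3,5]),
    (false,[([(0,11,[(10,12),(7,8)]),(0,2,[(3,3)])],[])],[7,7],false,1,0,[3]),
    (false,[([(0,11,[(10,12),(7,8)])],[3,3]),([(0,2,[(3,3)]),(0,2,[(2,3)])],[2,2,1])],[],false,1,0,[2]),
    (false,[([(0,11,[(10,12),(7,8)])],[3,3]),([(0,2,[(3,3)]),(0,2,[(2,3)]),(0,2,[(2,2)])],[2])],[],false,1,0,[]),
    (true,[([(0,12,[(10,12)])],[4,4]),([(0,5,[(7,8)]),(0,3,[(4,5)])],[3,2])],[],false,1,0,[2]),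
    (false,[([(0,14,[(10,12),(2,2)]),(0,5,[(7,8)])],[]),([(0,1,[(4,5)])],[3,3,2,2])],[],false,1,0,[]),
    (false,[([(0,24,[(10,12),(9,10)])],[3,3])],[7,3],false,2,2,[3]),
    (false,[([(0,24,[(10,12),(9,10)])],[3,3]),([(0,2,[(3,3)])],[2,2,1,1,1])],[],false,1,0,[]),
    (false,[([(0,30,[(10,12),(11,11)])],[4,2])],[7,2],false,1,0,[]),
    (false,[([(0,4,[(13,15)])],[1,1])],[8,7,6],false,3,6,[6,8]),
    (false,[([(0,11,[(13,15),(4,6)])],[2])],[8,7],false,2,4,[3,5]),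
    (false,[([(0,11,[(13,15),(4,6)]),(0,2,[(3,3)])],[])],[7,7],false,1,0,[3]),
    (false,[([(0,11,[(13,15),(4,6)])],[3,3]),([(0,2,[(3,3)]),(0,2,[(2,3)])],[2,2,1])],[],false,1,0,[2]),
    (false,[([(0,11,[(13,15),(4,6)])],[3,3]),([(0,2,[(3,3)]),(0,2,[(2,3)]),(0,2,[(2,2)])],[2])],[],false,1,0,[]),
    (false,[([(0,4,[(13,15)])],[3,3,3]),([(0,1,[(4,6)]),(0,3,[(4,5)])],[3])],[],false,1,0,[2]),
    (true,[([(0,22,[(13,15),(2,2)]),(0,1,[(4,6)])],[]),([(0,3,[(4,5)])],[3,3,3,1])],[],false,1,0,[]),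
    (false,[([(0,4,[(13,15)])],[1,1]),([(0,5,[(7,8)])],[3,3,3,3,1])],[],false,1,0,[2]),
    (false,[([(0,22,[(13,15),(2,2)]),(0,5,[(7,8)])],[])],[7,4,2],false,1,0,[]),
    (false,[([(0,6,[(16,19)])],[2,2])],[8,6,1],true,3,2,[5]),
    (false,[([(0,6,[(16,19)])],[2,2]),([(0,3,[(4,5)])],[2,2,2,2,2])],[],false,1,0,[2]),
    (true,[([(0,6,[(16,19)]),(0,2,[(2,2)])],[5]),([(0,3,[(4,5)])],[2,2,2])],[],false,1,0,[]),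
    (false,[([(0,28,[(20,20)])],[3,3])],[8,3,1],false,1,0,[])]),
  ([8,7,7,6,5,3,2,1], [
    (false,[],[8,7,7,6,5,3,2,1],true,6,4,[8,11,15,19,20]),
    (false,[([(0,7,[(7,8)])],[3,1,1])],[8,7,6,5],false,4,5,[6,8]),
    (true,[([(0,5,[(7,8)]),(0,1,[(5,6)])],[1])],[8,6,5,4,1],true,5,2,[6]),
    (false,[([(0,11,[(7,8),(5,6),(6,6)])],[3])],[8,7],false,2,4,[4,5]),
    (true,[([(0,12,[(7,8),(3,4)])],[4,4,4]),([(0,1,[(5,6)]),(0,1,[(6,6)])],[3])],[],false,1,0,[2,3]),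
    (false,[([(0,4,[(7,8),(5,6)])],[3,3,3]),([(0,1,[(6,6)]),(0,1,[(3,4),(2,2)])],[3])],[],false,1,0,[2]),
    (false,[([(0,14,[(7,8),(5,6)]),(0,1,[(3,4),(2,2)])],[]),([(0,5,[(6,6),(2,2)])],[3,3,3,2])],[],false,1,0,[]),
    (false,[([(0,4,[(7,8),(3,4),(3,3)])],[3,3,3]),([(0,1,[(5,6)]),(0,1,[(6,6)])],[3])],[],false,1,0,[]),
    (false,[([(0,4,[(7,8),(5,6)])],[4,4,4]),([(0,1,[(6,6)]),(0,3,[(5,5)])],[1])],[],false,1,0,[]),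
    (false,[([(0,5,[(7,8)]),(0,5,[(7,8)])],[3])],[8,6,3,2,1],false,5,1,[8]),
    (true,[([(0,7,[(7,8)]),(0,5,[(7,8)])],[]),([(0,7,[(6,8)])],[4,4,4,3])],[],false,1,0,[3]),
    (true,[([(0,5,[(7,8)]),(0,5,[(7,8)])],[1]),([(0,7,[(6,8)]),(0,2,[(2,3)])],[3,3])],[5],false,1,0,[2]),
    (true,[([(0,5,[(7,8)]),(0,5,[(7,8)]),(0,2,[(2,3)])],[]),([(0,0,[(6,8),(2,2)])],[3,2])],[5],false,1,0,[]),
    (true,[([(0,13,[(9,11)])],[2])],[8,7,6,5],false,4,5,[6,10,11]),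
    (true,[([(0,13,[(9,11)]),(0,1,[(5,6)])],[])],[8,6,5,3],false,4,3,[6]),
    (false,[([(0,13,[(9,11)]),(0,1,[(5,6)])],[3]),([(0,1,[(5,6)])],[3,1,1,1])],[7],false,1,0,[3,4]),
    (false,[([(0,13,[(9,11)]),(0,1,[(5,6)])],[4]),([(0,1,[(5,6)]),(0,2,[(2,3)])],[1,1])],[7],false,1,0,[2,3]),
    (true,[([(0,13,[(9,11)]),(0,1,[(5,6)])],[]),([(0,1,[(5,6)]),(1,0,[(2,3),(2,2)])],[3,1])],[6],false,1,0,[2]),
    (false,[([(0,13,[(9,11)]),(0,0,[(5,6),(2,2),(2,2)])],[]),([(0,1,[(5,6)]),(0,2,[(2,3)])],[1,1])],[7],false,1,0,[]),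
    (false,[([(0,13,[(9,11)]),(0,0,[(5,6),(3,3)])],[]),([(0,1,[(5,6)]),(0,2,[(2,3)])],[1,1])],[7],false,1,0,[]),
    (false,[([(0,4,[(9,11),(4,4)])],[3,3,3]),([(0,1,[(5,6)]),(0,1,[(5,6)])],[3])],[],false,1,0,[]),
    (false,[([(0,13,[(9,11)]),(0,0,[(7,10)])],[])],[7,7,3,1],true,3,4,[5,6]),
    (false,[([(0,13,[(9,11)]),(0,0,[(7,10)])],[]),([(0,3,[(4,5)])],[2,2,1,1])],[7],false,1,0,[3]),
    (false,[([(0,13,[(9,11)]),(0,0,[(7,10)])],[]),([(0,3,[(4,5)]),(0,2,[(2,3)])],[2,1])],[7],false,1,0,[2]),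
    (false,[([(0,13,[(9,11)]),(0,0,[(7,10)])],[]),([(0,3,[(4,5)]),(0,2,[(2,3)]),(0,2,[(2,2)])],[])],[7],false,1,0,[]),
    (false,[([(0,13,[(9,11)]),(0,0,[(7,10)])],[]),([(0,1,[(6,6)])],[2,1,1,1])],[7],false,1,0,[]),
    (false,[([(0,24,[(9,11),(11,11)])],[4,3])],[7,3],false,2,1,[]),
    (false,[([(0,4,[(12,15)])],[2,1])],[8,7,6],false,3,6,[4,6,8,9]),
    (false,[([(0,4,[(12,15)]),(0,8,[(4,4)])],[])],[8,7,5],false,3,5,[4]),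
    (false,[([(0,23,[(12,15),(4,4)])],[4,3]),([(0,8,[(4,4)])],[2,2,2,2,1])],[],false,1,0,[3]),
    (false,[([(0,23,[(12,15),(4,4)])],[4,3]),([(0,8,[(4,4)]),(0,2,[(2,3)])],[2,2,2])],[],false,1,0,[2]),
    (false,[([(0,11,[(12,15),(4,4),(2,2)])],[3]),([(0,8,[(4,4)]),(0,2,[(2,3)])],[2,2,2,2])],[],false,1,0,[]),
    (false,[([(0,11,[(12,15),(5,6)])],[3])],[8,7],false,2,4,[3,4,5]),
    (false,[([(0,11,[(12,15),(5,6)])],[3]),([(0,2,[(3,3)])],[2,2,2,2,2,2])],[],false,1,0,[3]),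
    (false,[([(0,11,[(12,15),(5,6)])],[3,3]),([(0,2,[(3,3)]),(0,2,[(2,3)])],[2,2,2])],[],false,1,0,[2]),
    (false,[([(0,11,[(12,15),(5,6)])],[4,4]),([(0,2,[(3,3)]),(0,2,[(2,3)]),(0,2,[(2,2)])],[1])],[],false,1,0,[]),
    (false,[([(0,11,[(12,15),(5,6)])],[3]),([(0,8,[(4,4)])],[2,2,2,2,2,1])],[],false,1,0,[2]),
    (false,[([(0,11,[(12,15),(5,6)])],[3]),([(0,8,[(4,4)]),(0,2,[(2,2)])],[2,2,2,2])],[],false,1,0,[]),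
    (false,[([(0,4,[(12,15)])],[4,4,4]),([(0,1,[(5,6)]),(0,3,[(5,5)])],[1])],[],false,1,0,[]),
    (false,[([(0,4,[(12,15)]),(0,5,[(7,8)])],[])],[7,6,3],false,3,2,[]),
    (false,[([(0,25,[(12,15),(9,9)])],[4,2])],[7,2],false,1,0,[]),
    (false,[([(0,6,[(16,19)])],[3,2])],[8,6,1],true,3,2,[5]),
    (false,[([(0,6,[(16,19)]),(0,3,[(4,5)])],[])],[7,7,1],false,2,1,[]),
    (false,[([(0,28,[(20,20)])],[4,3])],[8,3,1],false,1,0,[])]),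
  ([8,8,7,6,4,3,2,1], [
    (false,[],[8,8,7,6,4,3,2,1],true,6,5,[10,14,17,20]),
    (false,[([(0,0,[(7,10)])],[])],[8,8,7,6],false,3,6,[5,6,10]),
    (true,[([(0,0,[(7,10)]),(0,3,[(4,5)])],[4])],[7,6,4,3],false,4,3,[5]),
    (true,[([(0,0,[(7,10)]),(0,0,[(4,5),(5,5)])],[])],[7,5,4,3],false,4,3,[5]),
    (false,[([(0,4,[(7,10),(5,5)])],[3,3,3]),([(0,3,[(4,5)]),(0,3,[(5,5)])],[3,2])],[],false,1,0,[2,3]),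
    (false,[([(0,4,[(7,10),(5,5)])],[4,4,3]),([(0,3,[(4,5)]),(0,3,[(5,5)]),(0,2,[(2,2)])],[])],[],false,1,0,[2]),
    (false,[([(0,0,[(7,10)]),(0,0,[(4,5),(5,5)])],[]),([(0,0,[(5,5),(2,2),(2,2)])],[3,2,2,2])],[],false,1,0,[]),
    (false,[([(0,4,[(7,10),(5,5)])],[4,4,3]),([(0,3,[(4,5)]),(0,3,[(5,5)]),(0,2,[(3,3)])],[])],[],false,1,0,[]),
    (false,[([(0,0,[(7,10)]),(0,1,[(6,6)])],[2])],[8,7,4,2],false,4,2,[5,6]),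
    (false,[([(0,4,[(7,10),(5,5)]),(0,1,[(6,6)])],[])],[8,7,3],false,3,3,[5]),
    (false,[([(0,4,[(7,10),(5,5)]),(0,1,[(6,6)])],[]),([(0,1,[(4,5)])],[3,3,2,2,2])],[],false,1,0,[2]),
    (false,[([(0,4,[(7,10),(5,5)])],[2,2,2]),([(0,5,[(6,6),(2,2)]),(0,3,[(4,5)])],[3,2])],[],false,1,0,[]),
    (false,[([(0,0,[(7,10)]),(0,1,[(6,6)])],[2]),([(0,1,[(6,6)])],[3,2,1,1])],[8],false,1,0,[4]),
    (false,[([(0,0,[(7,10)]),(0,0,[(6,6),(2,4)])],[]),([(0,1,[(6,6)])],[2,1,1,1])],[8],false,1,0,[3]),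
    (false,[([(0,0,[(7,10)]),(0,0,[(6,6),(2,4)])],[]),([(0,0,[(6,6),(2,3)])],[3,2,2,2])],[],false,1,0,[2]),
    (false,[([(0,0,[(7,10)]),(0,0,[(6,6),(2,4)])],[]),([(0,5,[(6,6),(2,2)]),(0,2,[(2,3)])],[3,2,2])],[1],false,1,0,[]),
    (true,[([(0,0,[(7,10)]),(0,0,[(7,10)])],[])],[7,5,4,3],false,4,3,[6,8]),
    (false,[([(0,0,[(7,10)]),(0,0,[(7,10)])],[]),([(0,1,[(5,6)])],[2,1,1,1])],[8],false,1,0,[2,4]),
    (true,[([(0,0,[(7,10)]),(0,0,[(7,10)])],[]),([(0,7,[(5,6),(2,2)])],[4,4,3])],[],false,1,0,[2]),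
    (false,[([(0,0,[(7,10)]),(0,0,[(7,10)])],[]),([(0,0,[(5,6),(2,2),(2,2)])],[3,2,2,2])],[],false,1,0,[2]),
    (true,[([(0,0,[(7,10)]),(0,0,[(7,10)])],[]),([(0,1,[(5,6)]),(1,0,[(2,2),(2,2),(2,2)])],[3])],[4],false,1,0,[]),
    (false,[([(0,0,[(7,10)]),(0,0,[(7,10)])],[]),([(0,0,[(5,6),(3,4)])],[3,2,2,2])],[],false,1,0,[2]),
    (true,[([(0,0,[(7,10)]),(0,0,[(7,10)])],[]),([(0,1,[(5,6)]),(0,1,[(3,4),(2,2)])],[3])],[4],false,1,0,[]),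
    (true,[([(0,0,[(7,10)]),(0,0,[(7,10)])],[]),([(0,7,[(7,8)])],[4,4,3])],[],false,1,0,[2]),
    (false,[([(0,0,[(7,10)]),(0,0,[(7,10)])],[]),([(0,0,[(7,8),(2,2)])],[3,2,2,2])],[],false,1,0,[]),
    (false,[([(0,14,[(11,14)])],[3,2,1])],[8,7,4],false,3,4,[4,6,8,9,10]),
    (false,[([(0,14,[(11,14)]),(0,8,[(4,4)])],[3])],[8,6,4],false,3,4,[4]),
    (false,[([(0,14,[(11,14)]),(0,8,[(4,4)])],[3]),([(0,8,[(4,4)])],[2,2,1,1])],[8],false,1,0,[2,3,4]),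
    (false,[([(0,14,[(11,14)]),(0,1,[(4,4),(2,2)])],[]),([(0,8,[(4,4)])],[2,2,1,1,1])],[8],false,1,0,[2]),
    (false,[([(0,14,[(11,14)]),(0,1,[(4,4),(2,2)])],[]),([(0,1,[(4,4),(2,2)])],[3,3,3,2,2])],[],false,1,0,[2]),
    (true,[([(0,14,[(11,14)])],[5,5]),([(0,1,[(4,4),(2,2)]),(0,1,[(4,4),(2,2)]),(0,2,[(2,2)])],[])],[],false,1,0,[]),
    (false,[([(0,11,[(11,14),(4,4),(3,3)]),(0,8,[(4,4)])],[])],[8,6],false,2,1,[]),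
    (false,[([(0,14,[(11,14)]),(0,8,[(4,4)])],[3]),([(0,8,[(4,4)]),(0,8,[(4,4)])],[1,1])],[8],false,1,0,[]),
    (false,[([(0,14,[(11,14)]),(0,1,[(5,6)])],[])],[8,7,4],false,3,4,[4,6]),
    (false,[([(0,14,[(11,14)]),(0,1,[(5,6)])],[]),([(0,8,[(4,4)])],[2,2,1,1,1])],[8],false,1,0,[3]),
    (false,[([(0,14,[(11,14)]),(0,1,[(5,6)])],[]),([(0,8,[(4,4)]),(0,2,[(2,3)])],[2,1,1])],[8],false,1,0,[2]),
    (true,[([(0,14,[(11,14)])],[5,5]),([(0,1,[(5,6)]),(0,1,[(4,4),(2,2)]),(0,2,[(2,3)])],[])],[],false,1,0,[]),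
    (false,[([(0,14,[(11,14)]),(0,1,[(5,6)])],[]),([(0,1,[(5,6)])],[3,3,3,2,2])],[],false,1,0,[2]),
    (true,[([(0,14,[(11,14)])],[5,5]),([(0,1,[(5,6)]),(0,1,[(5,6)]),(0,2,[(2,2)])],[])],[],false,1,0,[]),
    (false,[([(0,14,[(11,14)]),(0,5,[(7,8)])],[])],[8,6,3],false,3,3,[4]),
    (false,[([(0,14,[(11,14)]),(0,5,[(7,8)])],[]),([(0,8,[(4,4)])],[2,1,1,1])],[8],false,1,0,[]),
    (false,[([(0,4,[(11,14)]),(0,10,[(9,9)])],[])],[8,4,3],false,2,1,[]),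
    (false,[([(0,25,[(11,14),(10,10)])],[3,2])],[8,2],false,1,0,[]),
    (false,[([(0,31,[(15,17)])],[4,2,1])],[8,6,1],true,3,2,[6]),
    (false,[([(0,31,[(15,17)])],[4,1,1]),([(0,1,[(4,6)])],[2,2,2,2,2])],[],false,1,0,[3]),
    (false,[([(0,31,[(15,17)]),(0,2,[(2,3)])],[4]),([(0,1,[(4,6)])],[2,2,2,2,1])],[],false,1,0,[2]),
    (true,[([(0,6,[(15,17),(2,2)]),(0,1,[(4,6)])],[]),([(0,2,[(2,3)])],[2,2,2,1])],[4],false,1,0,[]),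
    (false,[([(0,28,[(18,20)])],[3,3,1])],[8,3,1],false,3,1,[])]),
  ([8,8,7,6,5,3,2,1], [
    (false,[],[8,8,7,6,5,3,2,1],true,6,4,[10,14,17,20]),
    (false,[([(0,0,[(7,10)])],[1,1,1,1])],[8,7,6,5],false,4,5,[5,6,10]),
    (true,[([(0,0,[(7,10)]),(0,3,[(5,5)])],[4])],[7,6,5,3],false,4,3,[5]),
    (true,[([(0,0,[(7,10)]),(0,0,[(5,5),(5,5)])],[])],[7,5,5,3],false,3,3,[4,5]),
    (true,[([(0,0,[(7,10)]),(0,0,[(5,5),(5,5)])],[]),([(0,8,[(4,4)])],[2,1,1])],[7,5],false,2,2,[3]),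
    (false,[([(0,4,[(7,10),(5,5)])],[4,3,3]),([(0,3,[(5,5)]),(0,8,[(4,4)]),(0,2,[(3,3)])],[3])],[],false,1,0,[]),
    (false,[([(0,4,[(7,10),(5,5)])],[4,4,4]),([(0,3,[(5,5)]),(0,3,[(5,5)])],[2,1])],[],false,1,0,[2]),
    (false,[([(0,4,[(7,10),(5,5)])],[4,4,4]),([(0,3,[(5,5)]),(0,3,[(5,5)]),(0,2,[(2,2)])],[])],[],false,1,0,[]),
    (false,[([(0,0,[(7,10)]),(0,1,[(6,6)])],[1])],[8,7,6,2],false,4,2,[5,6]),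
    (false,[([(0,0,[(7,10)]),(0,13,[(6,6),(5,5)])],[])],[8,7,3,1],false,4,1,[5]),
    (false,[([(0,4,[(7,10),(5,5)])],[3,3,3]),([(0,1,[(6,6)]),(0,3,[(5,5)])],[3,2])],[],false,1,0,[]),
    (false,[([(0,0,[(7,10)]),(0,1,[(6,6)])],[]),([(0,1,[(6,6)])],[3,2,2,2,1])],[8],false,1,0,[4]),
    (true,[([(0,0,[(7,10)]),(0,0,[(6,6),(2,4)])],[]),([(0,1,[(6,6)])],[3,3,2,1])],[5],false,1,0,[2,3]),
    (true,[([(0,0,[(7,10)]),(0,0,[(6,6),(2,4)])],[]),([(0,5,[(6,6),(2,2)])],[3,2])],[7],false,1,0,[2]),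
    (true,[([(0,0,[(7,10)]),(0,0,[(6,6),(2,4)])],[]),([(0,5,[(6,6),(2,2)]),(0,2,[(2,2)])],[3,1])],[5],false,1,0,[]),
    (true,[([(0,0,[(7,10)]),(0,0,[(6,6),(2,4)])],[]),([(0,1,[(6,6)]),(0,2,[(3,3)])],[3,3])],[5],false,1,0,[]),
    (true,[([(0,0,[(7,10)]),(0,0,[(7,10)])],[])],[7,5,5,3],false,3,3,[4,6,8]),
    (true,[([(0,0,[(7,10)]),(0,0,[(7,10)])],[]),([(0,8,[(4,4)])],[2,1,1])],[7,5],false,2,4,[3,4]),
    (true,[([(0,0,[(7,10)]),(0,0,[(7,10)])],[]),([(0,8,[(4,4)]),(0,2,[(3,3)])],[1])],[7,5],false,2,2,[3]),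
    (true,[([(0,0,[(7,10)]),(0,0,[(7,10)])],[]),([(0,1,[(4,4)]),(0,1,[(3,3),(3,3)])],[3])],[5],false,1,0,[]),
    (true,[([(0,0,[(7,10)]),(0,0,[(7,10)])],[]),([(0,8,[(4,4)]),(0,8,[(4,4)])],[2])],[7,3],false,2,1,[]),
    (true,[([(0,0,[(7,10)]),(0,0,[(7,10)])],[]),([(0,1,[(5,6)])],[3,3,2,1])],[5],false,1,0,[2,3,4]),
    (false,[([(0,0,[(7,10)]),(0,7,[(5,6),(2,2)])],[]),([(0,0,[(7,10)])],[3,3,3,3])],[],false,1,0,[2]),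
    (true,[([(0,0,[(7,10)]),(0,0,[(7,10)])],[]),([(0,1,[(5,6)]),(1,0,[(2,2),(2,2)])],[3])],[5],false,1,0,[2]),
    (true,[([(0,0,[(7,10)]),(0,0,[(7,10)])],[]),([(0,1,[(5,6)]),(1,0,[(2,2),(2,2),(2,2)])],[3])],[5],false,1,0,[]),
    (true,[([(0,0,[(7,10)]),(0,0,[(7,10)])],[]),([(0,1,[(5,6)]),(0,2,[(3,3)])],[3,3])],[5],false,1,0,[2]),
    (true,[([(0,0,[(7,10)]),(0,0,[(7,10)])],[]),([(0,1,[(5,6)]),(0,1,[(3,3),(2,2)])],[3])],[5],false,1,0,[]),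
    (true,[([(0,0,[(7,10)]),(0,0,[(7,10)])],[]),([(0,1,[(5,6)]),(0,1,[(4,4)])],[3])],[5],false,1,0,[]),
    (true,[([(0,0,[(7,10)]),(0,0,[(7,10)])],[]),([(0,5,[(7,8)])],[3,2])],[7],false,1,0,[2]),
    (true,[([(0,0,[(7,10)]),(0,0,[(7,10)])],[]),([(0,5,[(7,8)]),(0,2,[(2,2)])],[3,1])],[5],false,1,0,[]),
    (false,[([(0,14,[(11,14)])],[3,1,1])],[8,7,6],false,3,6,[4,6,8,9,10]),
    (false,[([(0,14,[(11,14)]),(0,8,[(4,4)])],[3])],[8,6,5],false,3,5,[4]),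
    (false,[([(0,14,[(11,14)]),(0,8,[(4,4)])],[3]),([(0,8,[(4,4)])],[2,2,2,1])],[8],false,1,0,[2,3,4]),
    (false,[([(0,14,[(11,14)]),(0,1,[(4,4),(2,2)])],[]),([(0,8,[(4,4)])],[2,2,2,1,1])],[8],false,1,0,[2]),
    (false,[([(0,14,[(11,14)]),(0,1,[(4,4),(2,2)])],[]),([(0,1,[(4,4),(2,2)])],[3,3,3,3,2])],[],false,1,0,[2]),
    (false,[([(0,4,[(11,14)])],[4,3,3]),([(0,1,[(4,4),(2,2)]),(0,1,[(4,4),(2,2)]),(0,2,[(2,2)])],[])],[],false,1,0,[]),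
    (false,[([(0,11,[(11,14),(4,4),(3,3)])],[3]),([(0,8,[(4,4)])],[2,2,2,2,2,2])],[],false,1,0,[2]),
    (false,[([(0,11,[(11,14),(4,4),(3,3)])],[3,1]),([(0,8,[(4,4)]),(0,2,[(2,2)])],[2,2,2,2])],[],false,1,0,[]),
    (false,[([(0,14,[(11,14)]),(0,8,[(4,4)])],[3]),([(0,8,[(4,4)]),(0,8,[(4,4)])],[2,1])],[8],false,1,0,[]),
    (false,[([(0,14,[(11,14)]),(0,1,[(5,6)])],[])],[8,7,5],false,3,5,[4,6]),
    (false,[([(0,14,[(11,14)]),(0,1,[(5,6)])],[]),([(0,8,[(4,4)])],[2,2,2,1,1])],[8],false,1,0,[3]),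
    (false,[([(0,14,[(11,14)]),(0,1,[(5,6)])],[]),([(0,8,[(4,4)]),(0,2,[(2,3)])],[2,2,1])],[8],false,1,0,[2]),
    (false,[([(0,4,[(11,14)])],[4,3,3]),([(0,1,[(5,6)]),(0,1,[(4,4),(2,2)]),(0,2,[(2,3)])],[])],[],false,1,0,[]),
    (false,[([(0,14,[(11,14)]),(0,1,[(5,6)])],[]),([(0,1,[(5,6)])],[3,3,3,3,2])],[],false,1,0,[2]),
    (false,[([(0,4,[(11,14)])],[4,3,3]),([(0,1,[(5,6)]),(0,1,[(5,6)]),(0,2,[(2,2)])],[])],[],false,1,0,[]),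
    (false,[([(0,4,[(11,14)]),(0,5,[(7,8)])],[])],[8,6,3],false,3,3,[4]),
    (false,[([(0,14,[(11,14)]),(0,8,[(4,4)])],[3]),([(0,5,[(7,8)])],[3,3,3,1,1])],[],false,1,0,[]),
    (false,[([(0,14,[(11,14)]),(0,10,[(9,9)])],[])],[8,6,3],false,2,1,[]),
    (false,[([(0,25,[(11,14),(10,10)])],[4,2])],[8,2],false,1,0,[]),
    (false,[([(0,31,[(15,17)])],[4,3,1])],[8,6,1],true,3,2,[6]),
    (false,[([(0,22,[(15,17)]),(0,1,[(4,6)])],[])],[8,7,2],false,3,2,[]),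
    (false,[([(0,28,[(18,20)])],[4,3,1])],[8,3,1],false,3,1,[])])]

theorem cj7e_0_ok : runAllJ S41 R41 F41 19 cj7e_0 = true := by decide +kernel

noncomputable def cj7e_1 : List (List ℕ × List NdJ) := [
  ([9,8,7,4,3,2,2,2,1], [
    (false,[],[9,8,7,4,3,2,2,2,1],false,6,4,[10,15,20]),
    (false,[([(0,0,[(7,10)])],[])],[9,8,7,2,2],false,4,4,[6,10]),
    (false,[([(0,0,[(7,10)]),(0,1,[(5,6)])],[2,2])],[8,4,2,2,2],false,3,4,[6]),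
    (true,[([(0,0,[(7,10)]),(0,1,[(5,6)])],[1]),([(0,1,[(4,6)])],[3])],[9,3],true,2,6,[4,5,6]),
    (false,[([(0,0,[(7,10)]),(0,0,[(5,6),(3,4)])],[2]),([(0,1,[(4,6)])],[])],[8,2],true,2,4,[3,4]),
    (false,[([(0,0,[(7,10)]),(0,0,[(5,6),(3,4)])],[2]),([(0,1,[(4,6)]),(0,2,[(3,3)])],[1,1,1])],[2,2],false,1,0,[3]),
    (false,[([(0,0,[(7,10)]),(0,0,[(5,6),(3,4)])],[2]),([(0,1,[(4,6)])],[]),([(0,2,[(3,3)]),(0,2,[(2,3)])],[1,1,1,1])],[],false,1,0,[2]),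
    (false,[([(0,0,[(7,10)]),(0,0,[(5,6),(3,4)])],[2]),([(0,1,[(4,6)]),(0,3,[(3,3),(2,2)])],[1,1]),([(0,2,[(2,3)])],[])],[],false,1,0,[]),
    (false,[([(0,0,[(7,10)]),(0,0,[(5,6),(3,4)])],[2]),([(0,1,[(4,6)]),(0,3,[(4,4)])],[1,1])],[2,1],false,2,1,[]),
    (true,[([(0,0,[(7,10)]),(0,1,[(5,6)])],[1]),([(0,1,[(4,6)]),(0,3,[(5,5)])],[1,1,1])],[4,3],false,2,2,[3]),
    (false,[([(0,4,[(7,10),(5,5)]),(0,2,[(3,3)])],[2,2]),([(0,1,[(5,6)]),(0,1,[(4,6)])],[1,1])],[2],false,1,0,[]),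
    (false,[([(0,0,[(7,10)]),(0,16,[(6,6)])],[]),([(0,1,[(5,6)]),(0,1,[(4,6)])],[2,2,2])],[2,1],false,2,1,[]),
    (false,[([(0,0,[(7,10)]),(0,0,[(7,10)])],[2])],[8,3,2,2,1],true,4,2,[6,8]),
    (false,[([(0,0,[(7,10)]),(0,0,[(7,10)])],[2]),([(0,1,[(5,6)])],[])],[8,2],true,2,3,[3,4]),
    (false,[([(0,0,[(7,10)]),(0,0,[(7,10)])],[2]),([(0,0,[(5,6),(3,3)])],[1,1,1,1])],[2],false,1,0,[2]),
    (false,[([(0,0,[(7,10)]),(0,0,[(7,10)])],[2]),([(0,1,[(5,6)]),(0,3,[(3,3),(2,2)])],[1,1])],[2,1],false,1,0,[]),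
    (false,[([(0,0,[(7,10)]),(0,0,[(7,10)])],[2]),([(0,18,[(5,6),(4,4)])],[4,1,1])],[],false,1,0,[]),
    (false,[([(0,0,[(7,10)]),(0,0,[(7,10)])],[2]),([(0,5,[(7,8)])],[1,1,1,1,1])],[2,1],false,2,1,[]),
    (false,[([(0,4,[(11,15)])],[1,1])],[9,8,2,2],false,3,4,[6,8,9,10]),
    (false,[([(0,4,[(11,15)]),(0,1,[(4,6)])],[2])],[8,3,2,2],false,3,3,[5,6]),
    (false,[([(0,4,[(11,15)]),(0,1,[(4,6)])],[2]),([(0,3,[(4,5)])],[3,1,1,1,1])],[3],false,1,0,[2,3,4]),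
    (false,[([(0,4,[(11,15)]),(0,1,[(4,6)])],[2]),([(0,3,[(4,5)]),(0,2,[(2,2)])],[3,1,1])],[2],false,1,0,[2]),
    (false,[([(0,4,[(11,15)]),(0,1,[(4,6)])],[2]),([(0,3,[(4,5)]),(1,0,[(2,2),(2,2)])],[1,1])],[2],false,1,0,[2]),
    (false,[([(0,4,[(11,15)]),(0,1,[(4,6)])],[2]),([(0,3,[(4,5)]),(1,0,[(2,2),(2,2),(2,2)])],[1,1])],[2],false,1,0,[]),
    (false,[([(0,4,[(11,15)]),(0,1,[(4,6)])],[2]),([(0,7,[(4,5),(3,3)])],[4,1,1,1])],[],false,1,0,[2]),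
    (false,[([(0,4,[(11,15)]),(0,1,[(4,6)])],[2]),([(0,3,[(4,5)]),(0,3,[(3,3),(2,2)])],[1,1])],[3],false,1,0,[]),
    (false,[([(0,4,[(11,15)]),(0,1,[(4,6)])],[2]),([(0,3,[(4,5)]),(0,3,[(4,4)])],[1,1])],[3],false,1,0,[]),
    (false,[([(0,4,[(11,15)]),(0,1,[(4,6)])],[2]),([(0,1,[(6,6)])],[3,1,1,1,1])],[2],false,1,0,[2]),
    (false,[([(0,4,[(11,15)]),(0,1,[(4,6)])],[2]),([(0,7,[(6,6),(2,2)])],[4,1,1,1])],[],false,1,0,[]),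
    (true,[([(0,4,[(11,15)]),(0,5,[(7,8)])],[2])],[4,3,3,3],false,2,3,[3,4]),
    (true,[([(0,4,[(11,15)])],[5,1,1]),([(0,13,[(7,8),(3,3)])],[1,1,1,1,1])],[],false,1,0,[2]),
    (false,[([(0,4,[(11,15)]),(0,1,[(3,3),(2,2)])],[2]),([(0,7,[(7,8)])],[4,1,1,1])],[],false,1,0,[]),
    (false,[([(0,4,[(11,15)]),(0,8,[(4,4)])],[2]),([(0,7,[(7,8)])],[4,2,1,1,1])],[],false,1,0,[]),
    (false,[([(0,4,[(11,15)]),(0,10,[(9,9)])],[3])],[4,3,2,2],false,2,1,[]),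
    (false,[([(0,32,[(11,15),(10,10)])],[2])],[9,2],false,1,0,[]),
    (false,[([(0,11,[(16,20)])],[2,2])],[9,2,2],false,2,4,[3,5]),
    (false,[([(0,11,[(16,20)]),(0,2,[(3,3)])],[2])],[8,2,2],false,2,2,[3]),
    (false,[([(0,11,[(16,20)]),(0,2,[(3,3)])],[2]),([(0,2,[(3,3)])],[2,1,1,1,1,1])],[2],false,1,0,[]),
    (false,[([(0,11,[(16,20)])],[2,2]),([(0,3,[(4,5)])],[3,1,1,1,1,1])],[],false,1,0,[2]),
    (false,[([(0,11,[(16,20)]),(0,2,[(2,2)])],[2]),([(0,3,[(4,5)])],[3,1,1,1,1])],[],false,1,0,[])]),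
  ([9,8,7,6,4,3,1], [
    (false,[],[9,8,7,6,4,3,1],false,6,4,[10,15,20]),
    (true,[([(0,0,[(7,10)])],[])],[7,6,6,5,4],false,4,4,[6,8,10]),
    (false,[([(0,0,[(7,10)]),(0,1,[(5,6)])],[2])],[9,7,4],false,3,4,[4,6]),
    (false,[([(0,0,[(7,10)]),(0,1,[(5,6)]),(0,8,[(4,4)])],[])],[8,6,4],false,3,4,[4]),
    (true,[([(0,0,[(7,10)]),(0,1,[(5,6)])],[]),([(0,8,[(4,4)]),(0,8,[(4,4)])],[1,1])],[6,4,2],false,3,2,[4]),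
    (false,[([(0,0,[(7,10)]),(0,14,[(5,6),(4,4),(4,4)])],[]),([(0,8,[(4,4)])],[2,2,2,2,1,1])],[],false,1,0,[]),
    (true,[([(0,0,[(7,10)])],[3]),([(0,1,[(5,6)]),(0,1,[(5,6)])],[])],[7,6],false,2,5,[3,6]),
    (true,[([(0,0,[(7,10)]),(0,1,[(5,6)])],[]),([(0,1,[(5,6)]),(0,2,[(3,3)])],[3])],[6,4],false,2,3,[3]),
    (true,[([(0,0,[(7,10)]),(0,1,[(5,6)])],[]),([(0,1,[(5,6)]),(0,1,[(3,3),(3,3)])],[])],[6,4],false,2,1,[]),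
    (true,[([(0,0,[(7,10)]),(0,1,[(5,6)])],[]),([(0,1,[(5,6)]),(0,1,[(4,6)])],[])],[6,4],false,2,2,[3]),
    (true,[([(0,0,[(7,10)]),(0,1,[(5,6)])],[]),([(0,1,[(5,6)]),(0,1,[(4,6)])],[]),([(0,2,[(3,3)])],[2,2,2,1])],[],false,1,0,[]),
    (true,[([(0,0,[(7,10)]),(0,5,[(7,8)])],[])],[6,5,4,3,2],false,5,2,[6,8]),
    (false,[([(0,0,[(7,10)]),(0,14,[(7,8),(6,6)])],[])],[8,6],false,2,2,[3]),
    (false,[([(0,0,[(7,10)]),(0,14,[(7,8),(6,6)])],[]),([(0,2,[(3,3)])],[2,2,2,2,2,1])],[],false,1,0,[]),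
    (true,[([(0,0,[(7,10)]),(0,5,[(7,8)])],[]),([(0,5,[(7,8)])],[1])],[6,5],false,2,1,[]),
    (false,[([(0,0,[(7,10)]),(0,13,[(9,10)])],[4])],[8,4,1],true,3,3,[6]),
    (false,[([(0,0,[(7,10)]),(0,13,[(9,10)])],[4]),([(0,1,[(4,6)])],[2,2,1,1,1])],[],false,1,0,[3]),
    (false,[([(0,0,[(7,10)]),(0,13,[(9,10)])],[4]),([(0,1,[(4,6)]),(0,2,[(2,3)])],[2,1,1])],[],false,1,0,[2]),
    (false,[([(0,0,[(7,10)]),(0,13,[(9,10)])],[4]),([(0,1,[(4,6)]),(0,2,[(2,3)]),(0,2,[(2,2)])],[1])],[],false,1,0,[]),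
    (true,[([(0,4,[(11,15)])],[1])],[7,6,5,4],false,4,4,[5,6,8,10]),
    (true,[([(0,4,[(11,15)])],[1]),([(0,3,[(5,5)])],[3,3,3,2])],[6],false,1,0,[2,3,4,5]),
    (false,[([(0,4,[(11,15)]),(0,7,[(5,5),(2,2)])],[])],[8,7],false,2,4,[]),
    (false,[([(0,4,[(11,15)]),(0,7,[(5,5),(3,3)])],[])],[8,7],false,2,3,[3]),
    (false,[([(0,4,[(11,15)]),(0,7,[(5,5),(3,3)])],[]),([(0,2,[(3,3)])],[2,2,2,2,2,2])],[],false,1,0,[2]),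
    (true,[([(0,4,[(11,15)])],[5,5]),([(0,0,[(5,5),(3,3),(2,2)]),(0,2,[(3,3)])],[])],[],false,1,0,[]),
    (true,[([(0,4,[(11,15)])],[1]),([(0,0,[(5,5),(4,4)])],[4,4,4])],[],false,1,0,[3]),
    (true,[([(0,4,[(11,15)])],[5,5]),([(0,0,[(5,5),(4,4)]),(0,2,[(2,3)])],[])],[],false,1,0,[2]),
    (false,[([(0,4,[(11,15)]),(0,7,[(5,5),(2,3)])],[]),([(0,8,[(4,4)]),(0,2,[(2,2)])],[2,2,2,2])],[],false,1,0,[]),
    (true,[([(0,4,[(11,15)])],[1]),([(0,0,[(5,5),(5,5)])],[4,4,4])],[],false,1,0,[2]),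
    (true,[([(0,4,[(11,15)])],[5,5]),([(0,0,[(5,5),(5,5)]),(0,2,[(2,2)])],[])],[],false,1,0,[]),
    (true,[([(0,11,[(11,15),(6,6)])],[])],[7,6,4],false,3,4,[5]),
    (false,[([(0,4,[(11,15)]),(0,13,[(6,6),(4,5)])],[])],[8,4],false,2,1,[]),
    (false,[([(0,4,[(11,15)]),(0,7,[(7,8)])],[])],[8,7],false,2,3,[4]),
    (true,[([(0,4,[(11,15)])],[5]),([(0,5,[(7,8)]),(1,1,[(3,4)])],[])],[],false,1,0,[2]),
    (true,[([(0,4,[(11,15)])],[]),([(0,5,[(7,8)]),(0,1,[(3,4),(2,2)])],[3])],[6],false,1,0,[]),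
    (false,[([(0,4,[(11,15)]),(0,13,[(9,10)])],[])],[8,4],false,2,1,[]),
    (true,[([(0,11,[(16,20)])],[])],[7,6,4],false,3,4,[5]),
    (true,[([(0,11,[(16,20)])],[3]),([(0,3,[(4,5)])],[3,3,3])],[],false,1,0,[2]),
    (true,[([(0,11,[(16,20)])],[5]),([(0,1,[(4,5)]),(0,2,[(2,2)])],[3])],[],false,1,0,[])]),
  ([9,8,7,6,5,2,1], [
    (false,[],[9,8,7,6,5,2,1],false,6,3,[10,13,17,20]),
    (true,[([(0,0,[(7,10)])],[1])],[7,6,5,5,4],false,4,4,[5,6,8,10]),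
    (true,[([(0,4,[(7,10),(5,5)])],[])],[7,6,5,5],false,3,6,[4,5]),
    (true,[([(0,0,[(7,10)]),(0,1,[(5,5)])],[]),([(0,8,[(4,4)])],[1,1,1])],[6,5,4],false,3,4,[4]),
    (true,[([(0,0,[(7,10)]),(0,3,[(5,5)])],[]),([(0,8,[(4,4)]),(0,8,[(4,4)])],[2])],[6,5,2],false,3,2,[4]),
    (false,[([(0,4,[(7,10),(5,5)]),(0,8,[(4,4)])],[3,3]),([(0,8,[(4,4)]),(0,8,[(4,4)])],[2,2,1])],[],false,1,0,[]),
    (false,[([(0,0,[(7,10)]),(0,0,[(5,5),(5,5)])],[3])],[8,6,1],true,3,2,[4,5]),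
    (true,[([(0,0,[(7,10)]),(0,1,[(5,5)])],[]),([(0,1,[(5,5)]),(0,8,[(4,4)])],[3])],[5,4],false,2,2,[3]),
    (false,[([(0,4,[(7,10),(5,5)]),(0,3,[(5,5)])],[3]),([(0,8,[(4,4)]),(0,2,[(3,3)])],[2,2,2,2])],[],false,1,0,[]),
    (true,[([(0,4,[(7,10),(5,5)])],[3]),([(0,1,[(5,5)]),(0,1,[(5,5)])],[3])],[5],false,1,0,[2]),
    (false,[([(0,0,[(7,10)]),(0,0,[(5,5),(5,5)])],[3]),([(0,1,[(5,5)]),(0,2,[(2,2)])],[2,2,2])],[],false,1,0,[]),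
    (true,[([(0,0,[(7,10)]),(0,1,[(6,6)])],[])],[6,5,5,4,2],false,4,2,[6]),
    (true,[([(0,0,[(7,10)]),(0,1,[(6,6)])],[]),([(0,1,[(5,6)])],[3,2])],[6,5],false,2,4,[3,5]),
    (false,[([(0,0,[(7,10)]),(0,0,[(6,6),(3,3)])],[3]),([(0,1,[(5,6)])],[2,2,2,2,1])],[],false,1,0,[2,3]),
    (true,[([(0,0,[(7,10)]),(0,1,[(5,6)])],[]),([(0,5,[(6,6),(2,2)]),(0,2,[(3,3)])],[])],[6,5],false,2,1,[]),
    (false,[([(0,0,[(7,10)]),(0,0,[(6,6),(3,3)])],[3]),([(0,1,[(5,6)]),(0,2,[(3,3)])],[2,2,2])],[],false,1,0,[]),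
    (false,[([(0,0,[(7,10)]),(0,13,[(6,6),(4,5)])],[]),([(0,1,[(5,6)])],[2,2,2,2,2,1])],[],false,1,0,[2]),
    (false,[([(0,0,[(7,10)]),(0,13,[(6,6),(4,5)])],[]),([(0,1,[(5,6)]),(0,2,[(2,2)])],[2,2,2,2])],[],false,1,0,[]),
    (false,[([(0,0,[(7,10)]),(0,5,[(7,8)])],[3])],[9,6,2],true,3,3,[6,8]),
    (true,[([(0,0,[(7,10)]),(0,1,[(4,6)])],[]),([(0,5,[(7,8)])],[2,1])],[6,5],false,2,4,[3,5]),
    (true,[([(0,0,[(7,10)]),(0,1,[(4,6)])],[]),([(0,5,[(7,8)]),(0,2,[(3,3)])],[])],[6,5],false,2,2,[3]),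
    (false,[([(0,0,[(7,10)]),(0,13,[(7,8),(3,3)])],[]),([(0,1,[(4,6)]),(0,2,[(3,3)])],[2,2,2,2])],[],false,1,0,[]),
    (false,[([(0,0,[(7,10)]),(0,5,[(7,8)])],[3]),([(0,1,[(4,6)]),(0,3,[(4,5)])],[2,2,2])],[],false,1,0,[2]),
    (false,[([(0,0,[(7,10)]),(0,5,[(7,8)])],[3]),([(0,1,[(4,6)]),(0,1,[(4,5)]),(0,2,[(2,2)])],[2])],[],false,1,0,[]),
    (true,[([(0,0,[(7,10)]),(0,5,[(7,8)])],[]),([(0,5,[(7,8)])],[2,2])],[5,3],false,2,1,[]),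
    (false,[([(0,0,[(7,10)]),(0,0,[(9,10)])],[3])],[8,6,1],true,3,2,[6]),
    (false,[([(0,0,[(7,10)]),(0,0,[(9,10)])],[3]),([(0,1,[(4,6)])],[2,2,2,2,1])],[],false,1,0,[3]),
    (false,[([(0,0,[(7,10)]),(0,0,[(9,10)])],[3]),([(0,1,[(4,6)]),(0,2,[(2,3)])],[2,2,2])],[],false,1,0,[2]),
    (false,[([(0,0,[(7,10)]),(0,13,[(9,10)])],[3]),([(0,1,[(4,6)]),(0,2,[(2,3)]),(0,2,[(2,2)])],[2])],[],false,1,0,[]),
    (true,[([(0,17,[(11,13)])],[4,3])],[6,5,4,3],false,4,3,[6,10]),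
    (false,[([(0,27,[(11,13)]),(0,1,[(5,6)])],[3])],[9,6,1],true,3,3,[6]),
    (true,[([(0,27,[(11,13)])],[3]),([(0,1,[(5,6)]),(0,1,[(4,6)])],[3])],[6,1],true,2,2,[3]),
    (true,[([(0,27,[(11,13)])],[3]),([(0,0,[(5,6),(3,3)]),(0,1,[(4,6)])],[])],[6],false,1,0,[]),
    (false,[([(0,17,[(11,13)]),(0,0,[(7,10)])],[])],[8,7],false,2,3,[3,4]),
    (false,[([(0,17,[(11,13)]),(0,0,[(7,10)])],[]),([(0,2,[(3,3)])],[2,2,2,2,2,2])],[],false,1,0,[2]),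
    (true,[([(0,27,[(11,13)]),(0,3,[(3,3),(2,2)])],[]),([(0,0,[(7,10)])],[3,2])],[5],false,1,0,[]),
    (true,[([(0,22,[(11,13),(4,4)])],[3]),([(0,0,[(7,10)])],[4,3,1])],[],false,1,0,[]),
    (true,[([(0,22,[(14,17)])],[3])],[7,5,4,2],false,4,2,[6,7]),
    (true,[([(0,22,[(14,17)])],[2]),([(0,1,[(5,6)])],[3,2,2,1])],[5],false,1,0,[3]),
    (true,[([(0,22,[(14,17)]),(0,2,[(2,3)])],[]),([(0,1,[(5,6)])],[3,2,2])],[5],false,1,0,[2]),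
    (true,[([(0,22,[(14,17)])],[2]),([(0,1,[(5,6)]),(1,0,[(2,3),(2,2)])],[2])],[5],false,1,0,[]),
    (false,[([(0,25,[(14,17),(7,7)])],[5,5,2])],[2],false,1,0,[]),
    (true,[([(0,26,[(18,20)])],[5])],[6,4,3],false,3,2,[])]),
  ([9,8,7,6,5,4,1], [
    (false,[],[9,8,7,6,5,4,1],false,6,5,[8,11,15,19,20]),
    (true,[([(0,5,[(7,8)])],[2,2,2])],[7,6,5,4,3,1],false,5,4,[8]),
    (false,[([(0,5,[(7,8)]),(0,7,[(6,8)])],[3])],[9,7,5],false,3,5,[4,6,8]),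
    (true,[([(0,5,[(7,8)]),(0,7,[(6,8)])],[]),([(0,8,[(4,4)])],[2,2,2,2])],[6,4,2],false,3,2,[4]),
    (true,[([(0,5,[(7,8)]),(0,7,[(6,8)])],[]),([(0,8,[(4,4)]),(0,8,[(4,4)])],[2,2])],[6,4,2],false,3,2,[]),
    (true,[([(0,5,[(7,8)]),(0,1,[(5,6)])],[]),([(0,7,[(6,8)])],[3,2])],[7,6],false,2,4,[3,5]),
    (false,[([(0,5,[(7,8)]),(0,7,[(6,8)])],[3]),([(0,1,[(5,6)]),(0,2,[(3,3)])],[3,3,3,3])],[],false,1,0,[2,3]),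
    (true,[([(0,5,[(7,8)]),(0,1,[(5,6)])],[]),([(0,0,[(6,8),(2,2)]),(0,2,[(3,3)])],[])],[7,6],false,2,1,[]),
    (false,[([(0,5,[(7,8)]),(0,7,[(6,8)])],[3]),([(0,1,[(5,6)]),(0,1,[(3,3),(3,3)])],[3,3,3])],[],false,1,0,[]),
    (false,[([(0,5,[(7,8)]),(0,7,[(6,8)])],[3]),([(0,1,[(5,6)]),(0,1,[(4,5)])],[3,3,3])],[],false,1,0,[2]),
    (false,[([(0,5,[(7,8)]),(0,0,[(6,8),(2,2)])],[2]),([(0,1,[(5,6)]),(0,3,[(4,5)])],[3,3,3])],[],false,1,0,[]),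
    (true,[([(0,5,[(7,8)]),(0,7,[(6,8)])],[]),([(0,5,[(7,8)])],[2,2,2])],[6,4],false,2,2,[3]),
    (true,[([(0,13,[(7,8),(3,3)]),(0,5,[(7,8)])],[]),([(0,7,[(6,8)])],[4,3])],[6],false,1,0,[]),
    (false,[([(0,13,[(9,11)])],[3,2])],[9,8,7],false,3,7,[5,6,8,10,11]),
    (false,[([(0,13,[(9,11)]),(0,3,[(4,5)])],[2])],[9,7,6],false,3,6,[4,5]),
    (false,[([(0,13,[(9,11)]),(0,3,[(4,5)]),(0,8,[(4,4)])],[])],[8,7,5],false,3,5,[4]),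
    (true,[([(0,13,[(9,11)]),(0,1,[(4,5)])],[]),([(0,8,[(4,4)]),(0,8,[(4,4)])],[2,2])],[6,3,2],false,3,2,[]),
    (true,[([(0,11,[(9,11),(4,5),(5,5)])],[])],[7,6,6],false,2,4,[3,4,5]),
    (true,[([(0,11,[(9,11),(4,5),(5,5)])],[]),([(0,2,[(3,3)])],[2,2,2,2,2])],[6],false,1,0,[3]),
    (true,[([(0,11,[(9,11),(4,5),(5,5)])],[3]),([(0,2,[(3,3)]),(0,2,[(2,3)])],[2,2])],[6],false,1,0,[2]),
    (true,[([(0,11,[(9,11),(4,5),(5,5)])],[4]),([(0,2,[(3,3)]),(0,2,[(2,3)]),(0,2,[(2,2)])],[])],[6],false,1,0,[]),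
    (true,[([(0,13,[(9,11)]),(0,8,[(4,4)])],[3]),([(0,3,[(4,5)]),(0,1,[(5,5)])],[])],[6,5],false,2,1,[]),
    (true,[([(0,13,[(9,11)])],[3,3,3]),([(0,4,[(4,5),(5,5),(5,5)])],[5])],[],false,1,0,[]),
    (true,[([(0,22,[(9,11),(6,6)])],[3,3])],[6,5,4,2],false,4,2,[6]),
    (false,[([(0,22,[(9,11),(6,6)]),(0,1,[(5,6)])],[4])],[8,5],false,2,2,[3]),
    (false,[([(0,22,[(9,11),(6,6)]),(0,0,[(5,6),(3,3)])],[])],[8,5],false,1,0,[]),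
    (true,[([(0,13,[(9,11)]),(0,5,[(7,8)])],[])],[6,6,4,3,2],false,4,2,[6]),
    (true,[([(0,13,[(9,11)]),(0,5,[(7,8)])],[]),([(0,1,[(5,6)])],[3,1,1])],[6,4],false,2,1,[]),
    (true,[([(0,11,[(9,11),(9,10)])],[])],[7,6,6],false,2,3,[3,4]),
    (false,[([(0,13,[(9,11)]),(0,27,[(9,10),(3,3)])],[4])],[6,5,1],false,2,1,[]),
    (true,[([(0,11,[(9,11),(9,10)])],[]),([(0,8,[(4,4)])],[2,2,2,2])],[7],false,1,0,[]),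
    (true,[([(0,24,[(9,11),(11,11)])],[3])],[6,6,3],false,2,1,[]),
    (true,[([(0,4,[(12,15)])],[1])],[7,6,6,5],false,3,5,[4,6,8,9]),
    (true,[([(0,4,[(12,15)]),(0,8,[(4,4)])],[])],[6,6,5,4],false,3,4,[4]),
    (true,[([(0,4,[(12,15)]),(0,8,[(4,4)])],[]),([(0,8,[(4,4)])],[2,2,1,1])],[6,5],false,2,2,[3]),
    (true,[([(0,23,[(12,15),(4,4)])],[4]),([(0,8,[(4,4)]),(0,2,[(3,3)])],[2,2])],[6],false,1,0,[]),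
    (true,[([(0,11,[(12,15),(5,6)])],[])],[7,6,6],false,2,4,[3,4,5]),
    (true,[([(0,11,[(12,15),(5,6)])],[]),([(0,2,[(3,3)])],[2,2,2,2,2])],[6],false,1,0,[3]),
    (true,[([(0,11,[(12,15),(5,6)])],[3]),([(0,2,[(3,3)]),(0,2,[(2,3)])],[2,2])],[6],false,1,0,[2]),
    (true,[([(0,11,[(12,15),(5,6)])],[4]),([(0,2,[(3,3)]),(0,2,[(2,3)]),(0,2,[(2,2)])],[])],[6],false,1,0,[]),
    (true,[([(0,11,[(12,15),(5,6)])],[]),([(0,8,[(4,4)])],[2,2,2,2])],[7],false,1,0,[2]),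
    (true,[([(0,11,[(12,15),(5,6)])],[]),([(0,8,[(4,4)]),(0,2,[(2,2)])],[2,2,2])],[6],false,1,0,[]),
    (true,[([(0,4,[(12,15)])],[4,4]),([(0,1,[(5,6)]),(0,3,[(5,5)])],[])],[6],false,1,0,[]),
    (true,[([(0,4,[(12,15)])],[1]),([(0,5,[(7,8)])],[3,3,3])],[7],false,1,0,[3]),
    (true,[([(0,4,[(12,15)]),(0,2,[(2,3)])],[]),([(0,5,[(7,8)])],[3,3,2])],[6],false,1,0,[2]),
    (true,[([(0,4,[(12,15)])],[2]),([(0,5,[(7,8)]),(1,0,[(2,3),(2,2)])],[3])],[6],false,1,0,[]),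
    (false,[([(0,25,[(12,15),(9,9)])],[5,2])],[9],false,1,0,[]),
    (true,[([(0,6,[(16,19)])],[2])],[7,6,5,1],false,4,1,[5]),
    (false,[([(0,25,[(16,19),(5,5)])],[5,2])],[9],false,1,0,[]),
    (false,[([(0,28,[(20,20)])],[5,5,3,1])],[5,1],false,1,0,[])]),
  ([9,8,7,6,5,4,2], [
    (false,[],[9,8,7,6,5,4,2],false,6,5,[10,14,19,20]),
    (true,[([(0,0,[(7,10)])],[1,1])],[7,7,6,5,4],false,4,4,[6,10]),
    (false,[([(0,0,[(7,10)]),(0,1,[(5,6)])],[4])],[9,7,5],false,3,5,[6]),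
    (true,[([(0,0,[(7,10)]),(0,1,[(5,6)])],[]),([(0,1,[(4,6)])],[3,2,1])],[7,6],false,2,6,[3,5,6]),
    (true,[([(0,0,[(7,10)]),(0,1,[(5,6)])],[]),([(0,1,[(4,6)]),(0,2,[(3,3)])],[3])],[7,6],false,2,4,[3]),
    (true,[([(0,0,[(7,10)]),(0,1,[(5,6)])],[]),([(0,1,[(4,6)]),(0,1,[(3,3),(3,3)])],[])],[7,6],false,2,2,[3]),
    (false,[([(0,0,[(7,10)]),(0,0,[(5,6),(3,3)])],[]),([(0,1,[(4,6)]),(0,1,[(3,3),(3,3)])],[3,3,3])],[],false,1,0,[]),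
    (true,[([(0,0,[(7,10)]),(0,1,[(5,6)])],[]),([(0,1,[(4,6)]),(0,1,[(4,5)])],[])],[7,6],false,2,3,[3,4]),
    (false,[([(0,0,[(7,10)]),(0,0,[(5,6),(3,3)])],[]),([(0,1,[(4,6)]),(0,1,[(4,5)])],[3,3,3])],[],false,1,0,[2]),
    (false,[([(0,0,[(7,10)]),(0,0,[(4,5),(3,3),(2,2)])],[]),([(0,1,[(5,6)]),(0,1,[(4,6)])],[3,3,3])],[],false,1,0,[]),
    (false,[([(0,0,[(7,10)]),(0,0,[(5,6),(4,4)])],[]),([(0,1,[(4,6)]),(0,1,[(4,5)])],[3,3,3])],[],false,1,0,[]),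
    (true,[([(0,0,[(7,10)]),(0,1,[(5,6)])],[]),([(0,1,[(4,6)]),(0,1,[(6,6)])],[])],[7,6],false,2,1,[]),
    (false,[([(0,0,[(7,10)]),(0,0,[(7,10)])],[])],[9,7,5],false,3,5,[4,6,8]),
    (false,[([(0,0,[(7,10)]),(0,0,[(7,10)])],[]),([(0,8,[(4,4)])],[2,2,2,1,1])],[9],false,1,0,[2,3,4]),
    (false,[([(0,0,[(7,10)]),(0,0,[(7,10)])],[]),([(0,1,[(4,4),(2,2)])],[3,3,3,3,2,1])],[],false,1,0,[2]),
    (false,[([(0,0,[(7,10)]),(0,0,[(7,10)])],[]),([(0,1,[(4,4),(2,2)]),(0,2,[(2,2)])],[3,3,3,3])],[],false,1,0,[2]),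
    (false,[([(0,0,[(7,10)]),(0,0,[(7,10)])],[]),([(0,1,[(4,4),(2,2)]),(1,0,[(2,2),(2,2)])],[3,3,3])],[],false,1,0,[2]),
    (false,[([(0,0,[(7,10)]),(0,0,[(7,10)])],[]),([(0,1,[(4,4),(2,2)]),(1,0,[(2,2),(2,2),(2,2)])],[3,3,3])],[],false,1,0,[]),
    (false,[([(0,0,[(7,10)]),(0,0,[(7,10)])],[]),([(0,8,[(4,4)]),(0,2,[(3,3)])],[2,2,1])],[9],false,1,0,[3]),
    (false,[([(0,0,[(7,10)]),(0,0,[(7,10)])],[]),([(0,1,[(4,4)]),(0,1,[(3,3),(2,3)])],[3,3,3])],[],false,1,0,[2]),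
    (false,[([(0,0,[(7,10)]),(0,0,[(7,10)])],[]),([(0,1,[(4,4),(2,2)]),(0,1,[(3,3),(2,3)])],[3,3,3])],[],false,1,0,[]),
    (false,[([(0,0,[(7,10)]),(0,0,[(7,10)])],[]),([(0,8,[(4,4)]),(0,8,[(4,4)])],[2,1,1])],[9],false,1,0,[2]),
    (false,[([(0,0,[(7,10)]),(0,0,[(7,10)])],[]),([(0,1,[(4,4),(2,2)]),(0,1,[(4,4)])],[3,3,3])],[],false,1,0,[]),
    (false,[([(0,0,[(7,10)]),(0,0,[(7,10)])],[]),([(0,1,[(5,6)])],[3,3,3,3,2,1])],[],false,1,0,[2,3,4]),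
    (false,[([(0,0,[(7,10)]),(0,0,[(7,10)])],[]),([(0,1,[(5,6)]),(0,2,[(2,2)])],[3,3,3,3])],[],false,1,0,[2]),
    (false,[([(0,0,[(7,10)]),(0,0,[(7,10)])],[]),([(0,1,[(5,6)]),(1,0,[(2,2),(2,2)])],[3,3,3])],[],false,1,0,[2]),
    (false,[([(0,0,[(7,10)]),(0,0,[(7,10)])],[]),([(0,1,[(5,6)]),(1,0,[(2,2),(2,2),(2,2)])],[3,3,3])],[],false,1,0,[]),
    (false,[([(0,0,[(7,10)]),(0,0,[(7,10)])],[]),([(0,1,[(5,6)]),(0,2,[(3,3)])],[3,3,3,3])],[],false,1,0,[2]),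
    (false,[([(0,0,[(7,10)]),(0,0,[(7,10)])],[]),([(0,1,[(5,6)]),(0,1,[(3,3),(2,2)])],[3,3,3])],[],false,1,0,[]),
    (false,[([(0,0,[(7,10)]),(0,0,[(7,10)])],[]),([(0,1,[(5,6)]),(0,1,[(4,4)])],[3,3,3])],[],false,1,0,[]),
    (false,[([(0,0,[(7,10)]),(0,0,[(7,10)])],[]),([(0,5,[(7,8)])],[3,3,3,2,1,1])],[],false,1,0,[2]),
    (false,[([(0,0,[(7,10)]),(0,0,[(7,10)])],[]),([(0,5,[(7,8)]),(0,2,[(2,2)])],[3,3,3,1])],[],false,1,0,[]),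
    (true,[([(0,14,[(11,14)])],[3,2])],[7,6,5,4],false,4,4,[5,7,8,10]),
    (true,[([(0,23,[(11,14),(5,5)])],[4])],[7,6,5],false,3,5,[4,5]),
    (true,[([(0,23,[(11,14),(5,5)])],[4]),([(0,8,[(4,4)])],[2,2,2,1])],[7],false,1,0,[3]),
    (true,[([(0,23,[(11,14),(5,5)])],[4]),([(0,8,[(4,4)]),(0,2,[(2,3)])],[2,2])],[7],false,1,0,[2]),
    (true,[([(0,11,[(11,14),(5,5),(2,2)])],[]),([(0,8,[(4,4)]),(0,2,[(2,3)])],[2,2,2])],[7],false,1,0,[]),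
    (true,[([(0,23,[(11,14),(5,5)])],[4]),([(0,1,[(5,5)])],[3,3,3,3])],[],false,1,0,[2]),
    (true,[([(0,11,[(11,14),(5,5),(2,2)])],[2]),([(0,1,[(5,5)])],[3,3,3,3])],[],false,1,0,[]),
    (true,[([(0,11,[(11,14),(6,7)])],[2])],[7,6,5],false,3,4,[4,5]),
    (true,[([(0,11,[(11,14),(6,7)])],[]),([(0,8,[(4,4)])],[2,2,2,2,1])],[7],false,1,0,[2]),
    (true,[([(0,11,[(11,14),(6,7)])],[2]),([(0,1,[(4,4),(2,2)])],[3,3,3,3])],[],false,1,0,[]),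
    (true,[([(0,11,[(11,14),(6,7)])],[2]),([(0,1,[(5,5)])],[3,3,3,3])],[],false,1,0,[]),
    (true,[([(0,24,[(11,14),(8,8)])],[3])],[7,6,3],false,3,2,[]),
    (true,[([(0,14,[(11,14)])],[3,2]),([(0,0,[(9,10)])],[4,4,4])],[],false,1,0,[2]),
    (true,[([(0,4,[(11,14)]),(0,2,[(2,2)])],[]),([(0,13,[(9,10)])],[4,4,4])],[],false,1,0,[]),
    (true,[([(0,23,[(15,19)])],[4])],[7,6,5],false,3,5,[4,6]),
    (true,[([(0,23,[(15,19)])],[4]),([(0,8,[(4,4)])],[2,2,2,1])],[7],false,1,0,[3]),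
    (true,[([(0,23,[(15,19)])],[4]),([(0,8,[(4,4)]),(0,2,[(2,3)])],[2,2])],[7],false,1,0,[2]),
    (true,[([(0,11,[(15,19),(2,2)])],[]),([(0,8,[(4,4)]),(0,2,[(2,3)])],[2,2,2])],[7],false,1,0,[]),
    (true,[([(0,23,[(15,19)])],[4]),([(0,1,[(5,6)])],[3,3,3,3])],[],false,1,0,[2]),
    (true,[([(0,11,[(15,19),(2,2)])],[2]),([(0,1,[(5,6)])],[3,3,3,3])],[],false,1,0,[]),
    (false,[([(0,28,[(20,20)])],[3,1])],[9,8],false,1,0,[])]),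
  ([9,8,7,6,5,4,3], [
    (false,[],[9,8,7,6,5,4,3],false,7,3,[10,13,17,20]),
    (true,[([(0,0,[(8,10)])],[1,1,1])],[7,7,6,5,4],false,4,4,[6,10]),
    (true,[([(0,0,[(8,10)]),(0,1,[(5,6)])],[])],[7,7,6,4,2],false,4,2,[6]),
    (true,[([(0,0,[(8,10)]),(0,1,[(5,6)])],[]),([(0,1,[(5,6)])],[3,2,1,1])],[7,6],false,2,4,[4,5]),
    (false,[([(0,0,[(8,10)]),(0,0,[(5,6),(3,4)])],[4]),([(0,1,[(5,6)])],[3,3,3,2,1])],[],false,1,0,[3]),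
    (false,[([(0,0,[(8,10)]),(0,0,[(5,6),(3,4)])],[4]),([(0,1,[(5,6)]),(0,2,[(2,3)])],[3,3,3])],[],false,1,0,[2]),
    (false,[([(0,0,[(8,10)]),(0,0,[(5,6),(3,4)])],[4]),([(0,1,[(5,6)]),(1,0,[(2,3),(2,2)])],[3,3])],[],false,1,0,[]),
    (true,[([(0,4,[(8,10),(5,5)])],[3,2]),([(0,1,[(5,6)]),(0,1,[(5,6)])],[3])],[7],false,1,0,[]),
    (false,[([(0,0,[(8,10)]),(0,0,[(7,10)])],[4])],[8,6,4],false,3,4,[6,7]),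
    (false,[([(0,0,[(8,10)]),(0,0,[(7,10)])],[4]),([(0,1,[(4,6)])],[3,3,3,2,1])],[],false,1,0,[2,3,4]),
    (false,[([(0,0,[(8,10)]),(0,0,[(7,10)])],[4]),([(0,1,[(4,6)]),(0,2,[(2,2)])],[3,3,3])],[],false,1,0,[2]),
    (false,[([(0,0,[(8,10)]),(0,0,[(7,10)])],[4]),([(0,1,[(4,6)]),(1,0,[(2,2),(2,2)])],[3,3])],[],false,1,0,[2]),
    (false,[([(0,0,[(8,10)]),(0,0,[(7,10)])],[4]),([(0,1,[(4,6)]),(1,0,[(2,2),(2,2),(2,2)])],[3,3])],[],false,1,0,[]),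
    (false,[([(0,0,[(8,10)]),(0,0,[(7,10)])],[4]),([(0,1,[(4,6)]),(0,2,[(3,3)])],[3,3,3])],[],false,1,0,[2]),
    (false,[([(0,0,[(8,10)]),(0,0,[(7,10)])],[4]),([(0,1,[(4,6)]),(0,1,[(3,3),(2,2)])],[3,3])],[],false,1,0,[]),
    (false,[([(0,0,[(8,10)]),(0,0,[(7,10)])],[4]),([(0,1,[(4,6)]),(0,1,[(4,4)])],[3,3])],[],false,1,0,[]),
    (false,[([(0,0,[(8,10)]),(0,0,[(7,10)])],[4]),([(0,5,[(7,7)])],[3,3,2,1,1])],[],false,1,0,[]),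
    (true,[([(0,27,[(11,13)])],[3,3,3])],[7,5,4,3,1],true,5,2,[8,10]),
    (false,[([(0,27,[(11,13)]),(0,7,[(6,8)])],[])],[9,7,5],false,3,4,[5]),
    (false,[([(0,27,[(11,13)]),(0,7,[(6,8)])],[]),([(0,3,[(4,5)])],[3,3,3,3,2,2])],[],false,1,0,[2]),
    (false,[([(0,27,[(11,13)]),(0,0,[(6,8),(2,2)])],[]),([(0,3,[(4,5)])],[3,3,3,2,2,1])],[],false,1,0,[]),
    (false,[([(0,27,[(11,13)]),(0,0,[(9,10)])],[])],[9,6,4],false,2,1,[]),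
    (true,[([(0,22,[(14,17)])],[2,2])],[7,7,5,2],true,3,4,[6,7]),
    (true,[([(0,22,[(14,17)])],[2,1]),([(0,1,[(4,6)])],[3,2,2,2])],[7],false,1,0,[2,3,4]),
    (true,[([(0,22,[(14,17)]),(0,2,[(2,2)])],[]),([(0,1,[(4,6)])],[3,2,2,2])],[7],false,1,0,[2]),
    (true,[([(0,22,[(14,17)])],[2,2]),([(0,1,[(4,6)]),(1,0,[(2,2),(2,2)])],[2])],[7],false,1,0,[2]),
    (true,[([(0,22,[(14,17)])],[2,2]),([(0,1,[(4,6)]),(1,0,[(2,2),(2,2),(2,2)])],[2])],[7],false,1,0,[]),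
    (true,[([(0,22,[(14,17)]),(0,2,[(3,3)])],[]),([(0,1,[(4,6)])],[3,2,2,2])],[7],false,1,0,[2]),
    (true,[([(0,22,[(14,17)])],[3,2]),([(0,1,[(4,6)]),(0,3,[(3,3),(2,2)])],[2])],[7],false,1,0,[]),
    (true,[([(0,22,[(14,17)]),(0,8,[(4,4)])],[]),([(0,1,[(4,6)])],[3,2,2,1])],[7],false,1,0,[]),
    (false,[([(0,25,[(14,17),(7,7)])],[6,6,2])],[4],false,1,0,[]),
    (true,[([(0,28,[(18,20)])],[3,1])],[7,7,3,1],false,3,1,[])]),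
  ([9,9,6,5,4,3,2,1], [
    (false,[],[9,9,6,5,4,3,2,1],true,7,3,[10,14,18,20]),
    (true,[([(0,18,[(8,10)])],[5])],[8,7,5,4],false,4,4,[6,10]),
    (false,[([(0,0,[(8,10)]),(0,1,[(5,6)])],[1,1])],[9,6,4,2],false,4,2,[6]),
    (false,[([(0,0,[(8,10)]),(0,12,[(5,6),(5,6)])],[])],[9,5,3],false,3,3,[5]),
    (true,[([(0,0,[(8,10)]),(0,1,[(5,6)])],[4]),([(0,1,[(5,6)]),(0,3,[(4,5)])],[1])],[5,2],false,2,1,[]),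
    (false,[([(0,0,[(8,10)]),(0,0,[(7,10)])],[1])],[9,5,3,1],true,4,4,[6,7]),
    (true,[([(0,0,[(8,10)]),(0,0,[(7,10)])],[]),([(0,1,[(5,6)])],[3,1])],[7,2],false,2,2,[3]),
    (false,[([(0,0,[(8,10)]),(0,0,[(7,10)])],[1]),([(0,0,[(5,6),(3,3)])],[3,2,1,1,1])],[],false,1,0,[]),
    (false,[([(0,18,[(8,10)]),(0,0,[(7,10)])],[]),([(0,5,[(7,7)])],[3,3,2,1,1,1])],[],false,1,0,[]),
    (true,[([(0,19,[(11,14)])],[6])],[8,6,5],false,3,5,[6,8,9,10]),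
    (false,[([(0,14,[(11,14)]),(0,1,[(4,6)])],[1])],[9,5,4],false,3,4,[6]),
    (false,[([(0,14,[(11,14)]),(0,1,[(4,6)])],[1]),([(0,1,[(4,6)])],[3,3,3,1,1,1])],[],false,1,0,[2,3,4]),
    (false,[([(0,14,[(11,14)])],[4,3,1,1]),([(0,1,[(4,6)]),(0,1,[(4,6)]),(0,2,[(2,2)])],[1])],[],false,1,0,[2]),
    (false,[([(0,4,[(11,14)]),(0,1,[(4,6)])],[1]),([(0,1,[(4,6)]),(1,0,[(2,2),(2,2)])],[3,1,1])],[],false,1,0,[2]),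
    (false,[([(0,4,[(11,14)]),(0,1,[(4,6)])],[1]),([(0,1,[(4,6)]),(1,0,[(2,2),(2,2),(2,2)])],[3,1,1])],[],false,1,0,[]),
    (true,[([(0,21,[(11,14),(3,3)])],[6]),([(0,1,[(4,6)]),(0,1,[(4,6)])],[2,2])],[],false,1,0,[2]),
    (false,[([(0,14,[(11,14)]),(0,1,[(4,6)])],[1]),([(0,1,[(4,6)]),(0,3,[(3,3),(2,2)])],[3,3,1])],[],false,1,0,[]),
    (false,[([(0,14,[(11,14)]),(0,1,[(4,6)])],[1]),([(0,1,[(4,6)]),(0,3,[(4,4)])],[3,3,1])],[],false,1,0,[]),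
    (false,[([(0,4,[(11,14)]),(0,7,[(7,8)])],[])],[9,5,2],false,3,2,[4]),
    (true,[([(0,19,[(11,14)])],[6,3]),([(0,5,[(7,8)]),(0,8,[(4,4)])],[3,1])],[],false,1,0,[]),
    (true,[([(0,33,[(11,14),(9,9)])],[7])],[7,2],false,2,1,[]),
    (false,[([(0,25,[(11,14),(10,10)])],[2,1,1])],[9,2],false,1,0,[]),
    (true,[([(0,34,[(15,18)])],[7])],[7,6],false,2,5,[3,5,6]),
    (false,[([(0,11,[(15,18),(3,3)])],[1,1,1])],[9,6],false,2,3,[3]),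
    (false,[([(0,11,[(15,18),(3,3)]),(0,2,[(3,3)])],[1])],[9,5],false,2,1,[]),
    (true,[([(0,33,[(15,18),(4,5)])],[7])],[7,2],false,2,2,[3]),
    (true,[([(0,33,[(15,18),(4,5)])],[7]),([(0,2,[(3,3)])],[2,1,1,1,1])],[],false,1,0,[]),
    (false,[([(0,25,[(15,18),(6,6)])],[2,1,1])],[9,2],false,1,0,[]),
    (false,[([(0,35,[(19,20)])],[5,4,3])],[6,1],false,2,1,[])]),
  ([10,8,7,4,3,3,2,1], [
    (false,[],[10,8,7,4,3,3,2,1],false,6,3,[10,15,20]),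
    (true,[([(0,0,[(7,10)])],[])],[8,7,6,3,3,1],false,4,6,[6,10]),
    (true,[([(0,0,[(7,10)]),(0,1,[(5,6)])],[2])],[7,4,3,3,2,1],true,5,2,[6]),
    (false,[([(0,0,[(7,10)]),(0,1,[(5,6)]),(0,1,[(6,6)])],[])],[8,3,3,2],false,3,2,[5]),
    (true,[([(0,0,[(7,10)]),(0,1,[(5,6)])],[2]),([(0,13,[(6,6),(4,5)])],[])],[7,2],false,2,1,[]),
    (false,[([(0,0,[(7,10)]),(0,0,[(7,10)])],[2,1])],[8,3,3,1],true,3,4,[6,8]),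
    (true,[([(0,0,[(7,10)]),(0,1,[(4,6)])],[2]),([(0,0,[(7,10)])],[])],[7,3],true,2,4,[3,5]),
    (true,[([(0,0,[(7,10)]),(0,0,[(7,10)])],[]),([(0,1,[(4,6)]),(0,2,[(3,3)])],[1,1])],[3,3,1],true,2,2,[3]),
    (false,[([(0,0,[(7,10)]),(0,0,[(7,10)]),(0,2,[(3,3)])],[]),([(0,1,[(4,6)]),(0,2,[(3,3)])],[1,1,1])],[3],false,1,0,[]),
    (true,[([(0,0,[(7,10)]),(0,1,[(4,6)])],[2]),([(0,0,[(7,10)]),(0,3,[(4,5)])],[])],[3,2],false,2,1,[]),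
    (true,[([(0,0,[(7,10)]),(0,0,[(7,10)])],[]),([(0,7,[(7,8)])],[2,1,1])],[3,3],false,1,0,[2]),
    (true,[([(0,0,[(7,10)]),(0,0,[(7,10)])],[]),([(0,7,[(7,8)]),(0,2,[(2,2)])],[1])],[3,3],false,1,0,[]),
    (true,[([(0,4,[(11,15)])],[1])],[8,7,3,3,1],false,3,7,[6,10]),
    (true,[([(0,4,[(11,15)]),(0,1,[(4,6)])],[])],[7,3,3,3,1],true,3,4,[6]),
    (true,[([(0,4,[(11,15)]),(0,1,[(4,6)])],[]),([(0,1,[(4,6)])],[2,1,1,1])],[3,3],false,1,0,[2,3,4]),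
    (true,[([(0,4,[(11,15)]),(0,1,[(4,6)])],[]),([(0,1,[(4,6)]),(0,2,[(2,2)])],[1,1])],[3,3],false,1,0,[2]),
    (false,[([(0,4,[(11,15)])],[1,1,1]),([(0,1,[(4,6)]),(0,1,[(4,6)]),(1,0,[(2,2),(2,2)])],[2])],[],false,1,0,[2]),
    (false,[([(0,4,[(11,15)])],[1,1,1]),([(0,1,[(4,6)]),(0,1,[(4,6)]),(1,0,[(2,2),(2,2),(2,2)])],[2])],[],false,1,0,[]),
    (true,[([(0,4,[(11,15)]),(0,1,[(4,6)])],[]),([(0,1,[(4,6)]),(0,2,[(3,3)])],[1,1])],[3,3],false,1,0,[2]),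
    (false,[([(0,4,[(11,15)])],[1,1,1]),([(0,1,[(4,6)]),(0,1,[(4,6)]),(0,1,[(3,3),(2,2)])],[2])],[],false,1,0,[]),
    (true,[([(0,4,[(11,15)])],[1,1]),([(0,0,[(4,6),(4,4)]),(0,1,[(4,6)])],[2])],[3],false,1,0,[]),
    (true,[([(0,4,[(11,15)])],[1]),([(0,0,[(7,10)])],[3,2,2,2])],[3],false,1,0,[2,3,4]),
    (true,[([(0,4,[(11,15)]),(0,2,[(2,2)])],[2]),([(0,0,[(7,10)])],[3,1,1])],[3],false,1,0,[2]),
    (true,[([(0,4,[(11,15)])],[1,1]),([(0,0,[(7,10)]),(1,0,[(2,2),(2,2)])],[2])],[3],false,1,0,[2]),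
    (true,[([(0,4,[(11,15)])],[1,1]),([(0,0,[(7,10)]),(1,0,[(2,2),(2,2),(2,2)])],[2])],[3],false,1,0,[]),
    (true,[([(0,4,[(11,15)]),(0,2,[(3,3)])],[2]),([(0,0,[(7,10)])],[3,1,1])],[3],false,1,0,[2]),
    (true,[([(0,4,[(11,15)])],[2,2]),([(0,0,[(7,10)]),(0,3,[(3,3),(2,2)])],[1])],[3],false,1,0,[]),
    (true,[([(0,4,[(11,15)]),(0,8,[(4,4)])],[]),([(0,0,[(7,10)])],[3,1,1,1])],[3],false,1,0,[]),
    (true,[([(0,11,[(16,20)])],[2])],[8,3,3,1],true,3,4,[5]),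
    (true,[([(0,11,[(16,20)])],[2]),([(0,3,[(4,5)])],[2,2,1,1,1])],[3],false,1,0,[2]),
    (true,[([(0,11,[(16,20)]),(0,2,[(2,2)])],[]),([(0,3,[(4,5)])],[2,2,1,1])],[3],false,1,0,[])]),
  ([10,9,6,5,3,2,2,1], [
    (false,[],[10,9,6,5,3,2,2,1],false,6,4,[10,15,20]),
    (true,[([(0,0,[(7,10)])],[])],[8,7,5,4,2,2],false,5,4,[8,10]),
    (false,[([(0,0,[(7,10)]),(0,7,[(6,8)])],[1])],[10,6,2,1],true,4,3,[6,8]),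
    (true,[([(0,0,[(7,10)]),(0,7,[(6,8)])],[]),([(0,1,[(5,6)])],[1])],[7,4,2],false,3,2,[5]),
    (true,[([(0,0,[(7,10)]),(0,7,[(6,8)])],[]),([(0,1,[(5,6)]),(0,3,[(4,5)])],[2])],[4,2,1],false,2,1,[]),
    (true,[([(0,0,[(7,10)]),(0,7,[(6,8)])],[]),([(0,5,[(7,8)])],[2])],[7,2,1],false,3,1,[]),
    (false,[([(0,0,[(7,10)]),(0,13,[(9,10)])],[1])],[10,3,2,1],false,4,1,[6]),
    (true,[([(0,0,[(7,10)])],[2,1,1]),([(0,21,[(9,10),(5,6)])],[6,1])],[],false,1,0,[2]),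
    (true,[([(0,0,[(7,10)]),(0,2,[(2,2)])],[1]),([(0,21,[(9,10),(5,6)])],[6,1])],[],false,1,0,[]),
    (true,[([(0,4,[(11,15)])],[])],[8,7,4,2,2],false,4,4,[6,8,10]),
    (false,[([(0,4,[(11,15)])],[2]),([(0,1,[(5,6)])],[3,2,2,2,2,2,2])],[],false,1,0,[3,6]),
    (true,[([(0,4,[(11,15)])],[]),([(0,1,[(5,6)]),(0,2,[(2,3)])],[3,1])],[8,2],true,2,4,[3]),
    (true,[([(0,4,[(11,15)])],[]),([(0,1,[(5,6)]),(0,1,[(2,3),(3,3)])],[1])],[8,2],false,2,2,[3]),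
    (false,[([(0,4,[(11,15)]),(0,2,[(3,3)])],[1,1]),([(0,1,[(5,6)]),(0,1,[(2,3),(3,3)])],[2,2,1,1])],[],false,1,0,[]),
    (true,[([(0,4,[(11,15)])],[]),([(0,1,[(5,6)]),(0,1,[(4,6)])],[1])],[8,2],false,2,2,[3]),
    (false,[([(0,4,[(11,15)]),(0,2,[(3,3)])],[1,1]),([(0,1,[(5,6)]),(0,1,[(4,6)])],[2,2,1,1])],[],false,1,0,[]),
    (false,[([(0,4,[(11,15)]),(0,5,[(7,8)])],[2,2])],[6,3,2],false,3,2,[4]),
    (true,[([(0,4,[(11,15)])],[1,1]),([(0,12,[(7,8),(4,4)])],[5,3,1])],[],false,1,0,[]),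
    (true,[([(0,4,[(11,15)])],[1,1]),([(0,18,[(9,10)])],[5,3,3])],[],false,1,0,[2]),
    (true,[([(0,4,[(11,15)])],[1,1]),([(0,12,[(9,10),(2,2)])],[5,3,1])],[],false,1,0,[]),
    (true,[([(0,11,[(16,20)])],[1])],[8,4,2,2],false,3,4,[5]),
    (false,[([(0,11,[(16,20)]),(0,3,[(4,5)])],[])],[10,2],false,2,1,[])])]

theorem cj7e_1_ok : runAllJ S41 R41 F41 19 cj7e_1 = true := by decide +kernel

noncomputable def cj7e_2 : List (List ℕ × List NdJ) := [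
  ([10,9,6,5,4,3,1], [
    (false,[],[10,9,6,5,4,3,1],false,6,4,[10,15,20]),
    (true,[([(0,0,[(7,10)])],[1,1])],[7,6,5,4,2,2],false,5,4,[7,8,10]),
    (false,[([(0,0,[(7,10)]),(0,7,[(6,7)])],[4])],[10,5,1],true,2,8,[3,4,5,6,7]),
    (true,[([(0,0,[(7,10)]),(0,2,[(3,3)])],[]),([(0,7,[(6,7)])],[4])],[7,6],false,2,6,[3]),
    (true,[([(0,0,[(7,10)]),(0,2,[(3,3)])],[]),([(0,0,[(6,7),(3,3)])],[4,2])],[7,2],true,2,4,[3]),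
    (true,[([(0,0,[(7,10)]),(0,2,[(3,3)])],[]),([(0,0,[(6,7),(3,3)]),(0,2,[(3,3)])],[4])],[6,2],false,2,2,[3]),
    (false,[([(0,0,[(7,10)]),(0,18,[(6,7),(3,3)])],[4]),([(0,2,[(3,3)]),(0,2,[(3,3)]),(0,2,[(3,3)])],[2,2,1])],[],false,1,0,[]),
    (true,[([(0,0,[(7,10)])],[1,1]),([(0,16,[(6,7)]),(0,8,[(4,4)])],[4])],[6,5],false,2,5,[3,4]),
    (true,[([(0,0,[(7,10)])],[1,1]),([(0,13,[(6,7),(4,4)]),(0,2,[(3,3)])],[4])],[6,2],true,2,3,[3]),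
    (true,[([(0,0,[(7,10)]),(0,8,[(4,4)])],[4]),([(0,0,[(6,7),(3,3)]),(0,2,[(3,3)])],[])],[5,2],false,2,1,[]),
    (true,[([(0,0,[(7,10)]),(0,8,[(4,4)])],[]),([(0,13,[(6,7),(4,4)])],[4,2,2])],[3,2],false,2,2,[3]),
    (true,[([(0,0,[(7,10)]),(0,2,[(3,3)])],[]),([(0,4,[(6,7),(4,4),(4,4)])],[5,3])],[2],false,1,0,[]),
    (false,[([(0,4,[(7,10),(5,5)]),(0,16,[(6,7)])],[])],[10,6],false,2,4,[3,4,5]),
    (true,[([(0,4,[(7,10),(5,5)])],[4,4]),([(0,18,[(6,7),(3,3)])],[5])],[],false,1,0,[3]),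
    (true,[([(0,4,[(7,10),(5,5)])],[5,3]),([(0,0,[(6,7),(3,3)]),(0,2,[(2,3)])],[])],[2],false,1,0,[2]),
    (false,[([(0,4,[(7,10),(5,5)]),(0,16,[(6,7)])],[]),([(0,2,[(3,3)]),(0,2,[(2,3)]),(0,2,[(2,2)])],[2,2,2,1])],[],false,1,0,[]),
    (true,[([(0,4,[(7,10),(5,5)])],[]),([(0,13,[(6,7),(4,4)])],[4,3,3])],[2],false,1,0,[2]),
    (true,[([(0,4,[(7,10),(5,5)]),(0,8,[(4,4)])],[]),([(0,0,[(6,7),(2,2)])],[4,3])],[2],false,1,0,[]),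
    (true,[([(0,4,[(7,10),(5,5)])],[3,3]),([(0,12,[(6,7),(5,5)])],[5])],[],false,1,0,[]),
    (true,[([(0,0,[(7,10)]),(0,1,[(6,6)])],[]),([(0,16,[(6,7)])],[4,1])],[6,4],false,2,3,[3,4]),
    (true,[([(0,0,[(7,10)]),(0,2,[(3,3)])],[4]),([(0,14,[(6,7),(6,6)])],[1])],[6],false,1,0,[2]),
    (true,[([(0,0,[(7,10)]),(0,2,[(3,3)])],[]),([(0,4,[(6,7),(6,6),(2,2)])],[5,3])],[2],false,1,0,[]),
    (true,[([(0,0,[(7,10)]),(0,8,[(4,4)])],[]),([(0,14,[(6,7),(6,6)])],[5,3])],[2],false,1,0,[]),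
    (true,[([(0,0,[(7,10)]),(0,5,[(7,7)])],[]),([(0,16,[(6,7)])],[4])],[6,3],false,2,2,[3]),
    (true,[([(0,0,[(7,10)]),(0,2,[(3,3)])],[4]),([(0,14,[(6,7),(7,7)])],[1])],[6],false,1,0,[]),
    (true,[([(0,0,[(7,10)]),(0,5,[(8,8)])],[])],[6,5,3,2,2,2],false,4,3,[6,7]),
    (true,[([(0,0,[(7,10)]),(0,1,[(5,6)])],[]),([(0,7,[(8,8)])],[4,2])],[6,2],false,2,2,[3]),
    (true,[([(0,11,[(7,10),(8,8),(3,3)])],[]),([(0,1,[(5,6)])],[3,2,2,2])],[2],false,1,0,[]),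
    (false,[([(0,32,[(7,10),(8,8),(7,7)])],[6,5,2])],[],false,1,0,[]),
    (false,[([(0,0,[(7,10)]),(0,18,[(9,10)])],[4])],[9,5],false,2,5,[3,4,5,6]),
    (false,[([(0,0,[(7,10)]),(0,27,[(9,10),(3,3)])],[2,2])],[6,4,1],false,3,1,[]),
    (true,[([(0,0,[(7,10)]),(0,8,[(4,4)])],[]),([(0,0,[(9,10)])],[4,1])],[7,2],false,2,2,[3]),
    (true,[([(0,0,[(7,10)])],[]),([(0,22,[(9,10),(4,4),(3,3)])],[5,4])],[2],false,1,0,[]),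
    (true,[([(0,4,[(7,10),(5,5)])],[4,4]),([(0,18,[(9,10)])],[5])],[],false,1,0,[2]),
    (true,[([(0,4,[(7,10),(5,5)])],[3,3]),([(0,12,[(9,10),(2,2)])],[5])],[],false,1,0,[]),
    (true,[([(0,0,[(7,10)])],[]),([(0,22,[(9,10),(6,6)])],[5,4])],[2],false,1,0,[]),
    (true,[([(0,4,[(11,15)])],[1])],[7,6,5,2,2],false,4,4,[6,8,10]),
    (true,[([(0,4,[(11,15)])],[]),([(0,1,[(5,6)])],[3,2,2,2])],[6,2],false,1,0,[3,6]),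
    (true,[([(0,4,[(11,15)]),(0,2,[(2,3)])],[]),([(0,1,[(5,6)])],[3,2,1])],[6,2],true,2,4,[3]),
    (true,[([(0,4,[(11,15)])],[1]),([(0,1,[(5,6)]),(0,1,[(2,3),(3,3)])],[2])],[6,2],false,2,2,[3]),
    (true,[([(0,4,[(11,15)]),(0,2,[(3,3)])],[]),([(0,1,[(5,6)]),(0,1,[(2,3),(3,3)])],[])],[6,2],false,1,0,[]),
    (true,[([(0,4,[(11,15)])],[1]),([(0,1,[(5,6)]),(0,1,[(4,6)])],[2])],[6,2],false,2,2,[3]),
    (true,[([(0,4,[(11,15)]),(0,2,[(3,3)])],[]),([(0,1,[(5,6)]),(0,1,[(4,6)])],[])],[6,2],false,1,0,[]),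
    (false,[([(0,4,[(11,15)]),(0,7,[(7,8)])],[])],[10,5],false,2,3,[4]),
    (true,[([(0,4,[(11,15)])],[3,3]),([(0,12,[(7,8),(3,4)])],[5])],[],false,1,0,[2]),
    (true,[([(0,4,[(11,15)])],[2]),([(0,5,[(7,8)]),(0,1,[(3,4),(2,2)])],[3])],[2,2],false,1,0,[]),
    (true,[([(0,4,[(11,15)])],[4,4]),([(0,18,[(9,10)])],[5])],[],false,1,0,[2]),
    (true,[([(0,4,[(11,15)])],[3,3]),([(0,12,[(9,10),(2,2)])],[5])],[],false,1,0,[]),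
    (true,[([(0,11,[(16,20)])],[])],[7,6,2,2],false,3,4,[5]),
    (true,[([(0,11,[(16,20)])],[]),([(0,3,[(4,5)])],[3,1,1])],[7],false,1,0,[2]),
    (true,[([(0,11,[(16,20)])],[4]),([(0,3,[(4,5)]),(0,2,[(2,2)])],[3])],[2],false,1,0,[])]),
  ([10,9,6,5,4,3,2], [
    (false,[],[10,9,6,5,4,3,2],false,6,4,[10,15,20]),
    (true,[([(0,0,[(7,10)])],[1,1,1])],[7,6,5,4,2,2],false,5,4,[8,10]),
    (false,[([(0,0,[(7,10)]),(0,7,[(6,8)])],[1])],[10,6,4],false,3,4,[4,6,8]),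
    (true,[([(0,0,[(7,10)])],[]),([(0,7,[(6,8)]),(0,8,[(4,4)])],[4])],[7,6],false,2,5,[3,4]),
    (true,[([(0,0,[(7,10)]),(0,8,[(4,4)])],[]),([(0,7,[(6,8)]),(0,2,[(3,3)])],[4])],[7,3],false,2,3,[3]),
    (true,[([(0,0,[(7,10)]),(0,8,[(4,4)])],[4]),([(0,7,[(6,8)]),(0,1,[(3,3),(3,3)])],[])],[5,2],false,2,1,[]),
    (true,[([(0,0,[(7,10)]),(0,8,[(4,4)])],[2]),([(0,7,[(6,8)]),(0,8,[(4,4)])],[4])],[4,3],false,2,2,[3]),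
    (true,[([(0,0,[(7,10)]),(0,8,[(4,4)])],[1]),([(0,4,[(6,8),(4,4),(3,3)])],[5,2])],[2],false,1,0,[]),
    (true,[([(0,0,[(7,10)]),(0,1,[(5,6)])],[]),([(0,7,[(6,8)])],[4,2])],[7,2],true,2,4,[3,5]),
    (true,[([(0,0,[(7,10)]),(0,1,[(5,6)])],[]),([(0,7,[(6,8)]),(0,2,[(3,3)])],[4])],[6,2],false,2,2,[3]),
    (false,[([(0,0,[(7,10)]),(0,7,[(6,8)])],[1]),([(0,1,[(5,6)]),(0,1,[(3,3),(3,3)])],[3,3,1,1])],[],false,1,0,[]),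
    (false,[([(0,0,[(7,10)]),(0,7,[(6,8)])],[1]),([(0,1,[(5,6)]),(0,3,[(4,5)])],[3,3,2,1])],[],false,1,0,[2]),
    (false,[([(0,0,[(7,10)]),(0,0,[(6,8),(2,2)])],[1]),([(0,1,[(5,6)]),(0,3,[(4,5)])],[3,2,1,1])],[],false,1,0,[]),
    (true,[([(0,0,[(7,10)]),(0,5,[(7,8)])],[]),([(0,7,[(6,8)])],[4])],[7,2],false,2,2,[3]),
    (false,[([(0,0,[(7,10)]),(0,7,[(6,8)]),(0,2,[(3,3)])],[]),([(0,5,[(7,8)])],[3,3,1,1,1,1])],[],false,1,0,[]),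
    (false,[([(0,0,[(7,10)]),(0,0,[(9,10)])],[1])],[10,5,3],false,3,3,[6]),
    (true,[([(0,0,[(7,10)]),(0,1,[(4,6)])],[]),([(0,18,[(9,10)])],[5,2])],[6],false,1,0,[3]),
    (false,[([(0,0,[(7,10)]),(0,0,[(9,10)])],[1]),([(0,1,[(4,6)]),(0,2,[(2,3)])],[3,3,1,1,1])],[],false,1,0,[2]),
    (false,[([(0,0,[(7,10)]),(0,0,[(9,10)])],[1]),([(0,1,[(4,6)]),(1,0,[(2,3),(2,2)])],[3,1,1,1])],[],false,1,0,[]),
    (true,[([(0,4,[(11,15)])],[1,1])],[7,6,5,2,2],false,4,4,[6,8,10]),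
    (true,[([(0,4,[(11,15)])],[]),([(0,1,[(5,6)])],[3,2,2,2])],[7,2],false,1,0,[3,6]),
    (true,[([(0,4,[(11,15)]),(0,2,[(2,3)])],[]),([(0,1,[(5,6)])],[3,2,1])],[7,2],true,2,4,[3]),
    (true,[([(0,4,[(11,15)])],[1]),([(0,1,[(5,6)]),(0,1,[(2,3),(3,3)])],[2])],[7,2],false,2,2,[3]),
    (true,[([(0,4,[(11,15)]),(0,2,[(3,3)])],[]),([(0,1,[(5,6)]),(0,1,[(2,3),(3,3)])],[])],[7,2],false,1,0,[]),
    (true,[([(0,4,[(11,15)])],[1]),([(0,1,[(5,6)]),(0,1,[(4,6)])],[2])],[7,2],false,2,2,[3]),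
    (true,[([(0,4,[(11,15)]),(0,2,[(3,3)])],[]),([(0,1,[(5,6)]),(0,1,[(4,6)])],[])],[7,2],false,1,0,[]),
    (false,[([(0,4,[(11,15)]),(0,5,[(7,8)])],[5,2])],[5,4],false,2,3,[4]),
    (true,[([(0,4,[(11,15)])],[2,2]),([(0,12,[(7,8),(3,4)])],[5,3])],[],false,1,0,[2]),
    (true,[([(0,4,[(11,15)])],[5,3]),([(0,7,[(7,8)]),(0,1,[(3,4),(2,2)])],[])],[2],false,1,0,[]),
    (false,[([(0,4,[(11,15)]),(0,18,[(9,10)])],[])],[9,5],false,2,1,[]),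
    (true,[([(0,11,[(16,20)])],[1])],[7,6,2,2],false,3,4,[5]),
    (true,[([(0,11,[(16,20)])],[]),([(0,3,[(4,5)])],[3,1,1,1])],[7],false,1,0,[2]),
    (true,[([(0,11,[(16,20)])],[3]),([(0,3,[(4,5)]),(0,2,[(2,2)])],[3,2])],[2],false,1,0,[])]),
  ([10,9,8,6,3,2,1], [
    (false,[],[10,9,8,6,3,2,1],true,6,3,[10,15,20]),
    (true,[([(0,0,[(7,10)])],[])],[7,6,5,4,4,3],false,5,3,[6,8,10]),
    (true,[([(0,0,[(7,10)]),(0,1,[(6,6)])],[])],[6,4,4,4,3,2],false,4,2,[6]),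
    (true,[([(0,0,[(7,10)])],[3]),([(0,1,[(6,6)]),(0,1,[(5,6)])],[])],[7,4,3],false,3,3,[5]),
    (true,[([(0,0,[(7,10)]),(0,1,[(5,6)])],[]),([(0,13,[(6,6),(4,5)])],[4,1])],[4,3],false,2,1,[]),
    (true,[([(0,0,[(7,10)]),(0,5,[(7,8)])],[])],[5,4,4,3,3,2],false,4,2,[7,8]),
    (false,[([(0,0,[(7,10)]),(0,4,[(7,8),(5,7)])],[3])],[9,2],true,2,3,[3,4]),
    (true,[([(0,0,[(7,10)]),(0,5,[(7,8)])],[]),([(0,0,[(5,7),(3,3)])],[4])],[4,3],false,2,1,[]),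
    (false,[([(0,0,[(7,10)]),(0,4,[(7,8),(5,7)])],[3]),([(0,8,[(4,4)])],[1,1,1,1,1,1,1])],[],false,1,0,[]),
    (true,[([(0,0,[(7,10)])],[4]),([(0,22,[(7,8),(8,8)])],[1])],[7],false,1,0,[]),
    (false,[([(0,0,[(7,10)]),(0,0,[(9,10)])],[3,3])],[9,3,1],true,3,3,[6]),
    (true,[([(0,0,[(7,10)]),(0,1,[(4,6)])],[]),([(0,13,[(9,10)])],[4,1])],[4,3],false,2,2,[3]),
    (false,[([(0,0,[(7,10)]),(0,27,[(9,10),(3,3)])],[3]),([(0,1,[(4,6)])],[1,1,1,1,1,1,1])],[],false,1,0,[]),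
    (true,[([(0,4,[(11,15)])],[])],[7,6,4,4,3],false,4,3,[6,10]),
    (false,[([(0,4,[(11,15)]),(0,1,[(5,6)])],[3,3])],[9,3],true,2,5,[4,6]),
    (false,[([(0,4,[(11,15)]),(0,0,[(5,6),(3,4)])],[3])],[9,2],true,2,3,[3,4]),
    (false,[([(0,4,[(11,15)]),(0,0,[(5,6),(3,4)])],[3]),([(0,2,[(3,3)])],[2,1,1,1,1,1,1])],[],false,1,0,[2]),
    (true,[([(0,4,[(11,15)])],[5]),([(0,0,[(5,6),(3,4)]),(0,3,[(3,3),(2,2)])],[])],[4],false,1,0,[]),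
    (false,[([(0,4,[(11,15)]),(0,0,[(5,6),(3,4)])],[3]),([(0,8,[(4,4)])],[1,1,1,1,1,1,1])],[],false,1,0,[]),
    (true,[([(0,4,[(11,15)])],[4]),([(0,1,[(5,6)]),(0,1,[(5,6)])],[1])],[4,3],false,2,1,[]),
    (false,[([(0,4,[(11,15)]),(0,0,[(7,10)])],[3])],[9,2],true,2,3,[3,4]),
    (false,[([(0,4,[(11,15)]),(0,0,[(7,10)])],[3]),([(0,2,[(3,3)])],[2,1,1,1,1,1,1])],[],false,1,0,[2]),
    (true,[([(0,4,[(11,15)])],[5]),([(0,0,[(7,10)]),(0,3,[(3,3),(2,2)])],[])],[4],false,1,0,[]),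
    (false,[([(0,4,[(11,15)]),(0,0,[(7,10)])],[3]),([(0,8,[(4,4)])],[1,1,1,1,1,1,1])],[],false,1,0,[]),
    (true,[([(0,11,[(16,20)])],[])],[7,4,4,3],false,3,3,[5]),
    (true,[([(0,11,[(16,20)])],[]),([(0,3,[(4,5)])],[3,3,2,1])],[4],false,1,0,[2]),
    (true,[([(0,11,[(16,20)])],[]),([(0,3,[(4,5)]),(0,2,[(2,2)])],[3,3])],[4],false,1,0,[])]),
  ([10,9,8,7,3,2,1], [
    (false,[],[10,9,8,7,3,2,1],false,5,6,[8,11,15,20]),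
    (false,[([(0,7,[(6,8)])],[3,1,1])],[10,9,8],false,1,0,[3,4,5,6,8]),
    (true,[([(0,7,[(6,8)]),(0,2,[(2,3)])],[3])],[6,5,4,4,4,3],false,3,7,[]),
    (true,[([(0,7,[(6,8)]),(0,1,[(4,4)])],[])],[6,5,4,4,4,3],false,4,3,[]),
    (true,[([(0,7,[(6,8)]),(0,1,[(5,5)])],[])],[6,5,4,4,4,3],false,4,3,[5]),
    (true,[([(0,7,[(6,8)]),(0,1,[(5,5)])],[]),([(0,3,[(5,5)])],[3,3,3])],[5,4,3],false,3,3,[4,5]),
    (false,[([(0,7,[(6,8)]),(0,0,[(5,5),(5,5)]),(0,8,[(4,4)])],[])],[9,8,1],false,3,1,[4]),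
    (true,[([(0,11,[(6,8),(5,5),(4,4),(4,4)])],[]),([(0,3,[(5,5)])],[3,3,3,1])],[4],false,1,0,[]),
    (true,[([(0,7,[(6,8)])],[4,4,4]),([(0,4,[(5,5),(5,5),(5,5)])],[1])],[4],false,1,0,[2,3]),
    (true,[([(0,0,[(6,8),(2,2)]),(0,3,[(5,5)])],[]),([(0,1,[(5,5)]),(0,1,[(5,5)])],[])],[5,4,4],false,2,1,[]),
    (true,[([(0,11,[(6,8),(5,5),(5,5),(3,3)])],[]),([(0,3,[(5,5)])],[3,3,3,1])],[4],false,1,0,[]),
    (true,[([(0,7,[(6,8)]),(0,1,[(6,6)])],[])],[6,5,4,4,4,3],false,4,3,[5,6]),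
    (true,[([(0,7,[(6,8)]),(0,1,[(6,6)])],[]),([(0,3,[(5,5)])],[3,3,3])],[5,4,3],false,3,3,[5]),
    (true,[([(0,7,[(6,8)])],[4,3]),([(0,13,[(6,6),(5,5)]),(0,3,[(4,5)])],[])],[5,4],false,2,2,[3]),
    (true,[([(0,7,[(6,8)])],[4,3]),([(0,13,[(6,6),(5,5)]),(0,3,[(4,5)])],[]),([(0,2,[(3,3)])],[2,2,2])],[],false,1,0,[]),
    (true,[([(0,11,[(6,8),(6,6),(6,6)])],[])],[7,4,4,4],false,2,4,[3,5]),
    (false,[([(0,14,[(6,8),(6,6)]),(0,1,[(6,6)]),(0,2,[(3,3)])],[])],[9,8],false,2,2,[3]),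
    (true,[([(0,11,[(6,8),(6,6),(6,6)])],[]),([(0,2,[(3,3)]),(0,2,[(3,3)])],[2,2,1])],[4,4],false,1,0,[]),
    (false,[([(0,4,[(6,8),(6,6)]),(0,13,[(6,6),(4,5)])],[3])],[9,2],false,2,1,[]),
    (true,[([(0,7,[(6,8)])],[3,2]),([(0,5,[(7,8)])],[3])],[7,5,4],false,3,4,[6,8]),
    (true,[([(0,7,[(6,8)]),(0,1,[(4,6)])],[]),([(0,5,[(7,8)])],[3])],[6,5,4],false,3,4,[5,6]),
    (true,[([(0,7,[(6,8)]),(0,1,[(4,6)])],[]),([(0,5,[(7,8)]),(0,3,[(4,5)])],[])],[5,4,4],false,2,2,[3]),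
    (true,[([(0,7,[(6,8)]),(0,1,[(4,6)])],[]),([(0,5,[(7,8)]),(0,3,[(4,5)])],[]),([(0,2,[(3,3)])],[2,2,2])],[4],false,1,0,[]),
    (true,[([(0,4,[(6,8),(6,6)])],[]),([(0,5,[(7,8)]),(0,1,[(4,6)])],[3])],[4,4],false,1,0,[]),
    (true,[([(0,7,[(6,8)]),(0,5,[(7,8)])],[]),([(0,5,[(7,8)])],[2])],[6,4,4],false,2,2,[3]),
    (true,[([(0,7,[(6,8)]),(0,5,[(7,8)])],[]),([(0,13,[(7,8),(3,3)])],[4,1])],[4,4],false,1,0,[]),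
    (true,[([(0,13,[(9,11)])],[3])],[7,6,4,4,3,2],false,5,2,[8,11]),
    (true,[([(0,13,[(9,11)])],[2,1]),([(0,7,[(6,8)])],[4,3,3])],[4,4],false,1,0,[2,3,5,7]),
    (false,[([(0,13,[(9,11)]),(0,0,[(6,8),(2,2)])],[3,3])],[9,3,1],true,2,5,[]),
    (true,[([(0,4,[(9,11),(3,3)])],[1]),([(0,7,[(6,8)])],[4,4,4])],[4],false,1,0,[2,3]),
    (true,[([(0,13,[(9,11)]),(0,3,[(3,3),(2,2)])],[]),([(0,7,[(6,8)])],[4,3])],[5,4],false,2,3,[]),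
    (true,[([(0,13,[(9,11)]),(0,1,[(3,3),(3,3)])],[]),([(0,7,[(6,8)])],[4,3])],[4,4],false,1,0,[2,3]),
    (false,[([(0,13,[(9,11)]),(0,0,[(6,8),(2,2)])],[3,3]),([(0,1,[(3,3),(3,3)])],[2,1,1,1,1,1])],[],false,1,0,[2]),
    (false,[([(0,13,[(9,11)]),(0,0,[(6,8),(2,2)])],[3,3]),([(0,1,[(3,3),(3,3)]),(0,2,[(2,2)])],[1,1,1,1])],[],false,1,0,[]),
    (true,[([(0,13,[(9,11)]),(0,2,[(3,3)])],[]),([(0,7,[(6,8)])],[4,4,4]),([(0,2,[(3,3)]),(0,2,[(3,3)])],[])],[],false,1,0,[]),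
    (true,[([(0,13,[(9,11)]),(0,3,[(4,5)])],[]),([(0,7,[(6,8)])],[4,3])],[5,4],false,2,3,[3,4]),
    (true,[([(0,13,[(9,11)]),(0,3,[(4,5)])],[]),([(0,7,[(6,8)])],[4,3]),([(0,2,[(3,3)])],[2,2,2])],[],false,1,0,[2]),
    (false,[([(0,13,[(9,11)]),(0,0,[(6,8),(2,2)])],[3,3]),([(0,3,[(4,5)]),(0,2,[(3,3)])],[2,1,1,1])],[],false,1,0,[]),
    (true,[([(0,13,[(9,11)]),(0,3,[(4,5)])],[]),([(0,7,[(6,8)])],[4,3]),([(0,8,[(4,4)])],[2,2,1])],[],false,1,0,[]),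
    (false,[([(0,13,[(9,11)]),(0,4,[(6,8),(6,7)])],[3])],[9,2],false,2,1,[]),
    (false,[([(0,13,[(9,11)]),(0,13,[(9,11)])],[3,2])],[9,3,1],false,3,1,[4]),
    (false,[([(0,4,[(9,11),(4,4)]),(0,13,[(9,11)])],[3])],[9,2],false,1,0,[]),
    (true,[([(0,4,[(12,15)])],[])],[7,6,4,4,4],false,3,6,[4,6,8,9]),
    (true,[([(0,4,[(12,15)])],[]),([(0,8,[(4,4)])],[2,2])],[7,6,4],false,3,4,[4]),
    (true,[([(0,4,[(12,15)])],[]),([(0,8,[(4,4)]),(0,8,[(4,4)])],[])],[7,6,4],false,3,2,[]),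
    (true,[([(0,11,[(12,15),(5,6)])],[])],[7,4,4,4],false,2,4,[3,4,5]),
    (true,[([(0,11,[(12,15),(5,6)])],[]),([(0,2,[(3,3)])],[2,2,2,1,1])],[4,4],false,1,0,[3]),
    (true,[([(0,11,[(12,15),(5,6)])],[]),([(0,2,[(3,3)]),(0,2,[(2,3)])],[2,2,1])],[4,4],false,1,0,[2]),
    (true,[([(0,11,[(12,15),(5,6)])],[]),([(0,2,[(3,3)]),(0,2,[(2,3)]),(0,2,[(2,2)])],[2])],[4,4],false,1,0,[]),
    (true,[([(0,11,[(12,15),(5,6)])],[]),([(0,8,[(4,4)])],[2,2])],[7,4],false,2,1,[]),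
    (true,[([(0,11,[(12,15),(5,6)])],[]),([(0,3,[(5,5)])],[3,3,3,1])],[4],false,1,0,[]),
    (false,[([(0,4,[(12,15)]),(0,5,[(7,8)])],[3,3])],[8,3],false,2,2,[3]),
    (false,[([(0,4,[(12,15)]),(0,13,[(7,8),(3,3)])],[3])],[9,2],false,1,0,[]),
    (false,[([(0,25,[(12,15),(9,9)])],[4,4,4,2])],[2],false,1,0,[]),
    (true,[([(0,11,[(16,20)])],[])],[7,4,4,4],false,2,4,[3,4,5]),
    (true,[([(0,11,[(16,20)])],[]),([(0,2,[(3,3)])],[2,2,2,1,1])],[4,4],false,1,0,[3]),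
    (true,[([(0,11,[(16,20)])],[]),([(0,2,[(3,3)]),(0,2,[(2,3)])],[2,2,1])],[4,4],false,1,0,[2]),
    (true,[([(0,11,[(16,20)])],[]),([(0,2,[(3,3)]),(0,2,[(2,3)]),(0,2,[(2,2)])],[2])],[4,4],false,1,0,[]),
    (true,[([(0,11,[(16,20)])],[]),([(0,8,[(4,4)])],[2,2])],[7,4],false,2,1,[]),
    (true,[([(0,11,[(16,20)])],[]),([(0,3,[(5,5)])],[3,3,3,1])],[4],false,1,0,[])]),
  ([11,6,5,4,3,3,3,2,1], [
    (false,[],[11,6,5,4,3,3,3,2,1],false,6,3,[10,15,20]),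
    (false,[([(0,0,[(7,10)])],[])],[11,6,5,3,3],false,4,5,[6,10]),
    (true,[([(0,0,[(7,10)]),(0,1,[(5,6)])],[2,2])],[8,4,2,1,1,1,1],true,4,3,[6]),
    (false,[([(0,0,[(7,10)]),(0,12,[(5,6),(5,6)])],[1,1])],[5,3,3,3],false,2,5,[4,6]),
    (false,[([(0,0,[(7,10)]),(0,0,[(5,6),(3,4)])],[1,1,1]),([(0,1,[(5,6)])],[2,1])],[3,3],false,1,0,[2,3,4]),
    (false,[([(0,0,[(7,10)])],[]),([(0,1,[(5,6)]),(0,1,[(5,6)]),(0,1,[(3,4),(2,2)])],[1,1])],[5,3],false,2,2,[]),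
    (false,[([(0,0,[(7,10)]),(0,0,[(5,6),(3,4)])],[1,1,1]),([(0,1,[(5,6)]),(0,2,[(3,3)])],[])],[3,3],false,1,0,[2]),
    (true,[([(0,0,[(7,10)]),(0,1,[(3,4),(2,2)])],[2,2]),([(0,12,[(5,6),(5,6)]),(0,2,[(3,3)])],[1])],[1,1],false,1,0,[]),
    (true,[([(0,0,[(7,10)]),(0,0,[(5,6),(3,4)])],[2]),([(0,18,[(5,6),(4,4)])],[2,1,1])],[1,1],false,1,0,[]),
    (false,[([(0,0,[(7,10)])],[]),([(0,1,[(5,6)]),(0,1,[(5,6)]),(0,1,[(5,6)])],[1,1])],[5,3],false,2,1,[]),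
    (true,[([(0,0,[(7,10)]),(0,0,[(7,10)])],[2])],[8,3,1,1,1,1,1],false,3,3,[4,5,7,8]),
    (false,[([(0,0,[(7,10)]),(0,0,[(7,10)])],[1,1,1]),([(0,8,[(4,4)])],[2])],[5,3,1],true,3,2,[4]),
    (true,[([(0,0,[(7,10)]),(0,0,[(7,10)])],[2]),([(0,7,[(4,4),(4,4)])],[2,1,1,1])],[1,1,1],false,1,0,[2]),
    (true,[([(0,0,[(7,10)]),(0,0,[(7,10)])],[2]),([(0,7,[(4,4),(4,4)]),(0,2,[(2,2)])],[1,1])],[1,1,1],false,1,0,[]),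
    (true,[([(0,0,[(7,10)]),(0,0,[(7,10)])],[2]),([(0,3,[(5,5)])],[])],[8,1,1,1],false,2,3,[3,4]),
    (true,[([(0,0,[(7,10)]),(0,0,[(7,10)])],[2]),([(0,7,[(5,5),(3,3)])],[2,1,1,1])],[1,1,1],false,1,0,[2]),
    (true,[([(0,0,[(7,10)]),(0,0,[(7,10)])],[2]),([(0,18,[(5,5),(3,3),(2,2)])],[2,1,1])],[1,1],false,1,0,[]),
    (true,[([(0,0,[(7,10)]),(0,0,[(7,10)])],[2]),([(0,36,[(5,5),(4,4)])],[1,1,1])],[3,1],false,1,0,[]),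
    (true,[([(0,0,[(7,10)]),(0,0,[(7,10)])],[2]),([(0,16,[(6,7)])],[1,1,1,1])],[3,1,1],false,2,2,[3]),
    (true,[([(0,0,[(7,10)]),(0,0,[(7,10)])],[2]),([(0,18,[(6,7),(3,3)])],[2,1,1])],[1,1],false,1,0,[]),
    (true,[([(0,0,[(7,10)]),(0,0,[(7,10)])],[2]),([(0,7,[(8,8)])],[2,1,1,1])],[1,1,1],false,1,0,[]),
    (false,[([(0,4,[(11,15)])],[])],[11,6,3,3],false,3,6,[6,8,10]),
    (true,[([(0,4,[(11,15)]),(0,1,[(4,6)])],[2])],[8,3,1,1,1,1],false,3,3,[6]),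
    (true,[([(0,4,[(11,15)]),(0,1,[(4,6)])],[2]),([(0,1,[(4,6)])],[2,1,1,1,1])],[1,1,1],false,1,0,[2,3,4]),
    (true,[([(0,4,[(11,15)]),(0,1,[(4,6)])],[2]),([(0,1,[(4,6)]),(0,2,[(2,2)])],[1,1,1])],[1,1,1],false,1,0,[2]),
    (false,[([(0,4,[(11,15)])],[]),([(0,1,[(4,6)]),(0,1,[(4,6)]),(1,0,[(2,2),(2,2)])],[1,1])],[3],false,1,0,[2]),
    (false,[([(0,4,[(11,15)])],[]),([(0,1,[(4,6)]),(0,1,[(4,6)]),(1,0,[(2,2),(2,2),(2,2)])],[1,1])],[3],false,1,0,[]),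
    (true,[([(0,4,[(11,15)]),(0,1,[(4,6)])],[2]),([(0,1,[(4,6)]),(0,2,[(3,3)])],[1,1,1])],[1,1,1],false,1,0,[2]),
    (false,[([(0,4,[(11,15)])],[]),([(0,1,[(4,6)]),(0,1,[(4,6)]),(0,3,[(3,3),(2,2)])],[2,1])],[3],false,1,0,[]),
    (false,[([(0,4,[(11,15)])],[]),([(0,1,[(4,6)]),(0,1,[(4,6)]),(0,3,[(4,4)])],[2,1])],[3],false,1,0,[]),
    (false,[([(0,4,[(11,15)]),(0,7,[(7,8)])],[1,1])],[5,3,3,2],false,3,2,[4]),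
    (false,[([(0,4,[(11,15)]),(0,37,[(7,8),(4,4)])],[])],[5,3,3],false,1,0,[]),
    (false,[([(0,4,[(11,15)]),(0,18,[(9,10)])],[1])],[5,3,3,1],false,2,1,[]),
    (false,[([(0,11,[(16,20)])],[])],[11,3,3],false,2,4,[3,5]),
    (true,[([(0,33,[(16,20),(3,3)])],[2,2])],[8,1,1,1],false,2,2,[3]),
    (true,[([(0,33,[(16,20),(3,3)])],[2,2]),([(0,2,[(3,3)])],[1,1,1,1,1,1])],[1,1],false,1,0,[]),
    (false,[([(0,11,[(16,20)]),(0,3,[(4,5)])],[1,1])],[4,3,3],false,2,1,[])]),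
  ([11,7,6,5,4,3,2], [
    (false,[],[11,7,6,5,4,3,2],false,6,4,[10,15,20]),
    (true,[([(0,0,[(7,10)])],[])],[7,7,6,5,1,1,1],false,3,7,[6,10]),
    (true,[([(0,0,[(7,10)]),(0,1,[(4,6)])],[])],[7,6,4,2,1,1,1],false,5,2,[6]),
    (true,[([(0,0,[(7,10)]),(0,1,[(4,6)])],[]),([(0,1,[(6,6)])],[1])],[7,6,1,1],false,3,2,[6]),
    (true,[([(0,0,[(7,10)]),(0,1,[(4,6)])],[]),([(0,12,[(4,6),(6,6)])],[2])],[7,1],true,2,2,[3]),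
    (true,[([(0,0,[(7,10)]),(0,1,[(4,6)])],[]),([(0,4,[(4,6),(6,6),(3,3)])],[3,2])],[1,1],false,1,0,[]),
    (false,[([(0,0,[(7,10)]),(0,0,[(7,10)])],[1,1,1])],[7,5,3],false,3,3,[6,8]),
    (false,[([(0,0,[(7,10)]),(0,0,[(7,10)])],[1,1,1]),([(0,1,[(4,6)])],[3,3,2,1])],[],false,1,0,[3,5]),
    (true,[([(0,0,[(7,10)]),(0,1,[(4,6)])],[]),([(0,0,[(7,10)]),(0,2,[(2,3)])],[])],[7,1,1],true,2,3,[3]),
    (false,[([(0,0,[(7,10)]),(0,0,[(7,10)])],[1,1,1]),([(0,1,[(4,6)]),(0,1,[(2,3),(3,3)])],[3])],[],false,1,0,[2]),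
    (true,[([(0,0,[(7,10)]),(0,1,[(4,6)])],[]),([(0,0,[(7,10)]),(0,2,[(2,3)])],[]),([(0,3,[(3,3),(2,2)])],[1,1,1,1])],[],false,1,0,[]),
    (false,[([(0,0,[(7,10)]),(0,0,[(7,10)]),(0,3,[(4,5)])],[]),([(0,1,[(4,6)])],[3,3,1])],[],false,1,0,[2]),
    (true,[([(0,0,[(7,10)]),(0,1,[(4,6)])],[]),([(0,0,[(7,10)]),(0,2,[(2,2)])],[]),([(0,3,[(4,5)])],[1,1,1,1])],[],false,1,0,[]),
    (true,[([(0,0,[(7,10)]),(0,5,[(7,8)])],[]),([(0,0,[(7,10)])],[1])],[7,1,1],false,2,1,[]),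
    (true,[([(0,4,[(11,15)])],[1,1])],[7,6,5,1,1,1],false,4,3,[6,10]),
    (false,[([(0,4,[(11,15)]),(0,1,[(5,6)])],[5,1,1])],[6,4],false,1,0,[3,6]),
    (false,[([(0,4,[(11,15)]),(0,1,[(5,6)])],[5,1,1]),([(0,2,[(2,3)])],[2,2,2,1])],[],false,1,0,[3]),
    (true,[([(0,4,[(11,15)]),(0,2,[(2,3)])],[]),([(0,1,[(5,6)]),(0,2,[(2,3)])],[2])],[7,1,1],true,2,3,[3]),
    (true,[([(0,4,[(11,15)]),(0,2,[(2,3)])],[]),([(0,1,[(5,6)]),(0,2,[(2,3)]),(0,2,[(3,3)])],[])],[6,1,1],false,2,1,[]),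
    (true,[([(0,4,[(11,15)])],[3,2]),([(0,1,[(5,6)]),(0,1,[(4,6)])],[3])],[1,1,1],false,1,0,[2,3]),
    (true,[([(0,4,[(11,15)])],[4,3]),([(0,7,[(5,6),(2,2)]),(0,1,[(4,6)])],[])],[1,1],false,1,0,[2]),
    (true,[([(0,4,[(11,15)])],[3,2]),([(0,0,[(5,6),(2,2),(2,2)]),(0,1,[(4,6)])],[])],[1,1],false,1,0,[]),
    (true,[([(0,4,[(11,15)])],[3,2]),([(0,0,[(5,6),(3,3)]),(0,1,[(4,6)])],[])],[1,1],false,1,0,[]),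
    (true,[([(0,4,[(11,15)])],[1,1]),([(0,0,[(7,10)])],[3,3,3])],[1,1],false,1,0,[2,3,4]),
    (true,[([(0,4,[(11,15)]),(0,2,[(2,2)])],[]),([(0,0,[(7,10)])],[3,3,2])],[1,1],false,1,0,[2]),
    (true,[([(0,4,[(11,15)])],[3,2]),([(0,0,[(7,10)]),(1,0,[(2,2),(2,2)])],[])],[1,1],false,1,0,[2]),
    (true,[([(0,4,[(11,15)])],[3,2]),([(0,0,[(7,10)]),(1,0,[(2,2),(2,2),(2,2)])],[])],[1,1],false,1,0,[]),
    (true,[([(0,4,[(11,15)]),(0,2,[(3,3)])],[]),([(0,0,[(7,10)])],[3,3,2])],[1,1],false,1,0,[2]),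
    (true,[([(0,4,[(11,15)])],[3,3]),([(0,0,[(7,10)]),(0,3,[(3,3),(2,2)])],[])],[1,1],false,1,0,[]),
    (true,[([(0,4,[(11,15)]),(0,8,[(4,4)])],[]),([(0,0,[(7,10)])],[3,3,1])],[1,1],false,1,0,[]),
    (true,[([(0,11,[(16,20)])],[1])],[7,6,1,1,1],false,3,3,[5]),
    (true,[([(0,11,[(16,20)])],[]),([(0,3,[(4,5)])],[1,1,1,1])],[7,1],false,2,1,[])]),
  ([11,8,7,6,3,2,1], [
    (false,[],[11,8,7,6,3,2,1],true,6,4,[10,15,20]),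
    (true,[([(0,0,[(7,10)])],[])],[7,6,5,4,4,1,1],false,4,6,[6,10]),
    (false,[([(0,0,[(7,10)]),(0,1,[(5,6)])],[2])],[11,7,2],true,3,4,[6]),
    (true,[([(0,0,[(7,10)])],[3]),([(0,1,[(5,6)]),(0,1,[(4,6)])],[])],[7,4,1,1],true,3,3,[6]),
    (true,[([(0,0,[(7,10)]),(0,1,[(5,6)])],[]),([(0,1,[(4,6)]),(0,1,[(4,6)])],[])],[4,4,1,1],true,2,3,[3,4]),
    (true,[([(0,0,[(7,10)]),(0,1,[(5,6)])],[]),([(0,1,[(4,6)]),(0,1,[(4,6)])],[]),([(0,2,[(3,3)])],[1,1])],[4,1],false,2,1,[]),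
    (false,[([(0,0,[(7,10)]),(0,1,[(5,6)]),(0,8,[(4,4)])],[1,1]),([(0,1,[(4,6)]),(0,1,[(4,6)])],[2,2])],[],false,1,0,[]),
    (false,[([(0,0,[(7,10)]),(0,0,[(7,10)])],[3,3,1])],[7,3,1],false,1,0,[3,6,8]),
    (true,[([(0,0,[(7,10)]),(0,2,[(2,3)])],[]),([(0,0,[(7,10)])],[3])],[7,4,1],true,3,3,[]),
    (false,[([(0,0,[(7,10)]),(0,0,[(7,10)])],[3,3,1]),([(0,1,[(4,6)])],[2,1,1,1])],[],false,1,0,[3,5]),
    (true,[([(0,0,[(7,10)]),(0,1,[(4,6)])],[]),([(0,0,[(7,10)]),(0,2,[(2,3)])],[])],[4,4,1],true,2,3,[3]),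
    (true,[([(0,0,[(7,10)]),(0,1,[(4,6)])],[]),([(0,0,[(7,10)]),(0,2,[(2,3)])],[]),([(0,2,[(3,3)])],[1,1])],[4],false,1,0,[2]),
    (true,[([(0,0,[(7,10)]),(0,2,[(2,3)])],[]),([(0,0,[(7,10)]),(0,3,[(3,3),(2,2)])],[]),([(0,1,[(4,6)])],[2,2])],[],false,1,0,[]),
    (true,[([(0,0,[(7,10)]),(0,3,[(4,5)])],[]),([(0,0,[(7,10)])],[2]),([(0,1,[(4,6)])],[2,2,1])],[],false,1,0,[2]),
    (true,[([(0,0,[(7,10)]),(0,3,[(4,5)])],[]),([(0,0,[(7,10)]),(0,2,[(2,2)])],[]),([(0,1,[(4,6)])],[2,2])],[],false,1,0,[]),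
    (true,[([(0,0,[(7,10)]),(0,5,[(7,8)])],[]),([(0,0,[(7,10)])],[])],[5,4,1],false,2,1,[]),
    (true,[([(0,4,[(11,15)])],[3])],[7,4,4,3,1,1],true,4,3,[6,10]),
    (true,[([(0,4,[(11,15)])],[]),([(0,1,[(5,6)])],[2,2,1])],[7,4,1],true,3,3,[6]),
    (true,[([(0,4,[(11,15)])],[4]),([(0,1,[(5,6)]),(0,1,[(4,6)])],[1])],[4,1,1],false,2,2,[3]),
    (true,[([(0,4,[(11,15)])],[4]),([(0,1,[(5,6)]),(0,1,[(4,6)])],[1]),([(0,2,[(3,3)])],[1,1])],[1],false,1,0,[]),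
    (false,[([(0,4,[(11,15)]),(0,0,[(7,10)])],[3,1])],[7,2],true,2,3,[3,4]),
    (true,[([(0,4,[(11,15)])],[4]),([(0,0,[(7,10)]),(0,2,[(3,3)])],[1])],[4,1],false,2,1,[]),
    (false,[([(0,4,[(11,15)]),(0,0,[(7,10)])],[3,1]),([(0,8,[(4,4)])],[1,1,1,1,1])],[],false,1,0,[]),
    (true,[([(0,11,[(16,20)])],[])],[7,4,4,1,1],false,3,2,[5]),
    (true,[([(0,11,[(16,20)])],[]),([(0,3,[(4,5)])],[1])],[7,4],false,2,1,[])]),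
  ([11,10,9,4,3,2,1], [
    (false,[],[11,10,9,4,3,2,1],true,6,3,[10,15,20]),
    (true,[([(0,0,[(7,10)])],[])],[7,6,5,3,3,3,3],false,4,5,[6,8,10]),
    (true,[([(0,0,[(7,10)]),(0,1,[(5,6)])],[])],[6,4,3,3,3,3,2],false,3,6,[4,5,6]),
    (true,[([(0,0,[(7,10)]),(0,1,[(5,6)])],[]),([(0,8,[(4,4)])],[2])],[6,4,3,3,2],false,4,2,[]),
    (true,[([(0,0,[(7,10)]),(0,1,[(5,6)])],[]),([(0,3,[(5,5)])],[3,3,1])],[4,3,3,2],false,3,2,[5]),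
    (true,[([(0,0,[(7,10)]),(0,1,[(5,6)])],[]),([(0,3,[(5,5)]),(0,1,[(4,5)])],[])],[4,3,3,3],false,2,2,[3]),
    (true,[([(0,0,[(7,10)]),(0,3,[(4,5)])],[]),([(0,14,[(5,6),(5,5),(3,3)])],[5])],[3,3],false,1,0,[]),
    (true,[([(0,0,[(7,10)]),(0,1,[(5,6)])],[]),([(0,16,[(6,6)])],[4,4])],[4,3,2],false,3,2,[5]),
    (true,[([(0,0,[(7,10)]),(0,1,[(5,6)])],[]),([(0,1,[(6,6)]),(0,3,[(4,5)])],[])],[4,3,3,3],false,2,1,[]),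
    (true,[([(0,0,[(7,10)])],[3]),([(0,5,[(7,8)])],[])],[7,6,3,3],false,3,6,[6,8]),
    (true,[([(0,0,[(7,10)]),(0,1,[(4,6)])],[]),([(0,5,[(7,8)])],[])],[6,4,3,3],false,3,4,[5]),
    (true,[([(0,0,[(7,10)]),(0,1,[(4,6)])],[]),([(0,5,[(7,8)]),(0,3,[(4,5)])],[])],[3,3,3,2],false,2,1,[]),
    (true,[([(0,0,[(7,10)]),(0,5,[(7,8)])],[]),([(0,5,[(7,8)])],[])],[5,3,3,3],false,2,1,[]),
    (false,[([(0,0,[(7,10)]),(0,0,[(9,10)])],[2,2,2])],[10,3,1],true,3,3,[5,6]),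
    (false,[([(0,0,[(7,10)]),(0,0,[(9,10)])],[2,2,2]),([(0,3,[(4,5)])],[2,2,1,1,1,1,1])],[],false,1,0,[3]),
    (false,[([(0,0,[(7,10)]),(0,0,[(9,10)])],[2,2,2]),([(0,3,[(4,5)]),(0,2,[(2,3)])],[2,1,1,1,1])],[],false,1,0,[2]),
    (false,[([(0,0,[(7,10)]),(0,0,[(9,10)])],[2,2,2]),([(0,3,[(4,5)]),(0,2,[(2,3)]),(0,2,[(2,2)])],[1,1,1])],[],false,1,0,[]),
    (false,[([(0,0,[(7,10)]),(0,0,[(9,10)])],[2,2,2]),([(0,1,[(6,6)])],[2,1,1,1,1,1,1])],[],false,1,0,[]),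
    (true,[([(0,4,[(11,15)])],[])],[7,6,3,3,3,3],false,3,6,[4,5,6,8,9,10]),
    (true,[([(0,4,[(11,15)]),(0,8,[(4,4)])],[])],[5,4,3,3,3,3],false,3,4,[4]),
    (true,[([(0,4,[(11,15)]),(0,8,[(4,4)])],[]),([(0,8,[(4,4)])],[2])],[5,4,3,3],false,3,3,[4]),
    (true,[([(0,4,[(11,15)])],[1]),([(0,7,[(4,4),(4,4)])],[4,4,2]),([(0,8,[(4,4)])],[2])],[],false,1,0,[]),
    (true,[([(0,4,[(11,15)])],[]),([(0,3,[(5,5)])],[3,3,1])],[7,3,3],false,2,5,[3,5]),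
    (true,[([(0,4,[(11,15)]),(0,2,[(3,3)])],[]),([(0,3,[(5,5)])],[3,3,1])],[4,3,3],false,2,3,[3]),
    (true,[([(0,4,[(11,15)]),(0,2,[(3,3)])],[]),([(0,7,[(5,5),(3,3)])],[4,4])],[3,3],false,1,0,[2]),
    (true,[([(0,4,[(11,15)]),(0,2,[(3,3)])],[]),([(0,16,[(5,5),(2,2)])],[4,4]),([(0,2,[(3,3)])],[2,2])],[],false,1,0,[]),
    (true,[([(0,4,[(11,15)])],[]),([(0,3,[(5,5)]),(0,3,[(4,5)])],[3])],[6,3,3],false,2,2,[3]),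
    (true,[([(0,4,[(11,15)])],[]),([(0,3,[(5,5)]),(0,3,[(4,5)])],[3]),([(0,2,[(3,3)])],[2,2,1,1])],[3],false,1,0,[]),
    (true,[([(0,11,[(11,15),(6,6)])],[])],[7,3,3,3,3],false,2,4,[3,5]),
    (true,[([(0,4,[(11,15)]),(0,2,[(3,3)])],[]),([(0,16,[(6,6)])],[4,4])],[4,3],false,2,2,[3]),
    (true,[([(0,11,[(11,15),(6,6)])],[]),([(0,2,[(3,3)]),(0,2,[(3,3)])],[2,1,1])],[3,3,3],false,1,0,[]),
    (true,[([(0,11,[(11,15),(6,6)])],[]),([(0,3,[(4,5)])],[3,3,1,1])],[3,3],false,1,0,[2]),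
    (true,[([(0,4,[(11,15)])],[1]),([(0,5,[(6,6),(2,2)]),(0,3,[(4,5)])],[2])],[3,3,3],false,1,0,[]),
    (true,[([(0,4,[(11,15)])],[4]),([(0,5,[(7,8)])],[])],[7,3,3],false,2,3,[3,4]),
    (true,[([(0,4,[(11,15)])],[5]),([(0,13,[(7,8),(3,3)])],[1,1,1])],[3,3],false,1,0,[2]),
    (true,[([(0,4,[(11,15)])],[1]),([(0,5,[(7,8)]),(0,3,[(3,3),(2,2)])],[2])],[3,3,3],false,1,0,[]),
    (true,[([(0,4,[(11,15)])],[1]),([(0,7,[(7,8)])],[4,4,2]),([(0,8,[(4,4)])],[2])],[],false,1,0,[]),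
    (false,[([(0,4,[(11,15)]),(0,10,[(9,9)])],[3,3,3])],[4,3],false,2,1,[]),
    (true,[([(0,4,[(11,15)])],[2]),([(0,18,[(10,10)])],[5,5])],[3],false,1,0,[]),
    (true,[([(0,11,[(16,20)])],[])],[7,3,3,3,3],false,2,4,[3,4,5]),
    (false,[([(0,11,[(16,20)]),(0,2,[(3,3)])],[2,2,2])],[10],false,1,0,[3]),
    (true,[([(0,11,[(16,20)])],[]),([(0,2,[(3,3)]),(0,2,[(2,3)])],[2,1,1])],[3,3,3],false,1,0,[2]),
    (true,[([(0,11,[(16,20)])],[]),([(0,2,[(3,3)]),(0,2,[(2,3)]),(0,2,[(2,2)])],[1])],[3,3,3],false,1,0,[]),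
    (true,[([(0,11,[(16,20)])],[]),([(0,8,[(4,4)])],[2])],[7,3,3],false,2,1,[]),
    (true,[([(0,11,[(16,20)])],[]),([(0,3,[(5,5)])],[3,3,1,1])],[3,3],false,1,0,[])]),
  ([12,7,6,5,4,3,1], [
    (false,[],[12,7,6,5,4,3,1],false,6,4,[10,15,20]),
    (true,[([(0,0,[(7,10)])],[1,1])],[7,6,5,4,1,1,1,1],false,5,4,[8,10]),
    (false,[([(0,0,[(7,10)]),(0,7,[(6,8)])],[4,1,1,1])],[7,5,1],false,1,0,[3,6,8]),
    (true,[([(0,0,[(7,10)]),(0,2,[(2,3)])],[]),([(0,7,[(6,8)])],[2])],[7,6,1,1],false,2,7,[3]),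
    (true,[([(0,0,[(7,10)]),(0,1,[(2,3),(3,3)])],[]),([(0,7,[(6,8)])],[1,1])],[6,4,1,1],false,3,2,[]),
    (true,[([(0,0,[(7,10)]),(0,1,[(4,6)])],[]),([(0,7,[(6,8)])],[1,1])],[6,4,1,1],false,3,2,[5,6]),
    (false,[([(0,0,[(7,10)]),(0,7,[(6,8)]),(0,3,[(4,5)])],[4]),([(0,1,[(4,6)])],[2,2,1])],[],false,1,0,[3]),
    (false,[([(0,0,[(7,10)]),(0,7,[(6,8)]),(0,3,[(4,5)])],[4]),([(0,1,[(4,6)]),(0,2,[(2,3)])],[2])],[],false,1,0,[2]),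
    (true,[([(0,0,[(7,10)]),(0,1,[(4,6)])],[]),([(0,0,[(6,8),(2,2)]),(0,2,[(2,3)])],[]),([(0,3,[(4,5)])],[1,1,1])],[1],false,1,0,[]),
    (false,[([(0,0,[(7,10)]),(0,7,[(6,8)]),(0,16,[(6,6)])],[]),([(0,1,[(4,6)])],[2,2,2,1])],[],false,1,0,[]),
    (false,[([(0,0,[(7,10)]),(0,7,[(6,8)]),(0,7,[(7,8)])],[])],[6,5,1],false,3,1,[]),
    (true,[([(0,0,[(7,10)])],[2,1]),([(0,18,[(9,10)])],[2])],[7,5,1],true,3,2,[6]),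
    (true,[([(0,0,[(7,10)]),(0,1,[(4,6)])],[]),([(0,18,[(9,10)])],[1])],[6,4,1],false,3,1,[]),
    (true,[([(0,4,[(11,15)])],[1])],[7,6,5,1,1,1,1],false,4,4,[6,10]),
    (false,[([(0,4,[(11,15)]),(0,1,[(5,6)])],[4,1,1,1])],[6,4],false,1,0,[3,5,6]),
    (true,[([(0,4,[(11,15)]),(0,2,[(2,3)])],[]),([(0,1,[(5,6)])],[2,2,1])],[6,1,1,1],true,2,4,[3]),
    (true,[([(0,4,[(11,15)]),(0,2,[(2,3)])],[]),([(0,1,[(5,6)]),(0,2,[(3,3)])],[2])],[6,1,1,1],false,2,2,[3]),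
    (false,[([(0,4,[(11,15)]),(0,0,[(5,6),(3,3)])],[1,1,1]),([(0,2,[(2,3)]),(0,2,[(3,3)])],[2,2])],[],false,1,0,[]),
    (true,[([(0,4,[(11,15)])],[4,4]),([(0,1,[(5,6)]),(0,3,[(4,5)])],[])],[1,1,1,1],false,1,0,[3]),
    (true,[([(0,4,[(11,15)]),(0,2,[(2,3)])],[]),([(0,1,[(5,6)])],[2,2,1]),([(0,3,[(4,5)])],[1,1,1])],[1],false,1,0,[2]),
    (false,[([(0,4,[(11,15)]),(0,7,[(5,6),(2,2)]),(0,3,[(4,5)])],[]),([(0,2,[(2,3)])],[2,2,2,1])],[],false,1,0,[]),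
    (true,[([(0,11,[(11,15),(6,6)])],[]),([(0,1,[(5,6)])],[2,2,2,2])],[1,1,1],false,1,0,[]),
    (false,[([(0,4,[(11,15)]),(0,0,[(7,10)])],[1,1,1])],[6,4],false,2,3,[3,4]),
    (false,[([(0,4,[(11,15)]),(0,0,[(7,10)])],[1,1,1]),([(0,2,[(3,3)])],[2,2,2,1])],[],false,1,0,[2]),
    (false,[([(0,4,[(11,15)]),(0,0,[(7,10)])],[1,1,1]),([(0,2,[(3,3)]),(0,2,[(2,2)])],[2,2])],[],false,1,0,[]),
    (false,[([(0,4,[(11,15)]),(0,0,[(7,10)])],[1,1,1]),([(0,8,[(4,4)])],[2,2,1,1])],[],false,1,0,[]),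
    (true,[([(0,11,[(16,20)])],[])],[7,6,1,1,1,1],false,3,4,[5]),
    (true,[([(0,11,[(16,20)])],[]),([(0,3,[(4,5)])],[1,1,1])],[7,1,1],false,2,1,[])]),
  ([12,9,7,4,3,2,1], [
    (false,[],[12,9,7,4,3,2,1],true,7,3,[10,15,20]),
    (true,[([(0,18,[(8,10)])],[3])],[7,5,4,3,3,2,1],true,6,2,[10]),
    (true,[([(0,0,[(8,10)])],[]),([(0,0,[(7,10)])],[1,1])],[7,5,3,1],true,4,2,[6,7]),
    (true,[([(0,18,[(8,10)])],[3]),([(0,0,[(7,10)]),(0,1,[(5,6)])],[])],[4,3,2],false,3,2,[]),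
    (false,[([(0,21,[(8,10),(7,7)]),(0,0,[(7,10)])],[5,3])],[3],false,1,0,[]),
    (true,[([(0,4,[(11,15)])],[])],[7,6,3,3,2,1,1],false,5,2,[8,10]),
    (true,[([(0,4,[(11,15)])],[]),([(0,7,[(6,8)])],[2,1])],[7,3,2],false,3,2,[5]),
    (true,[([(0,4,[(11,15)])],[]),([(0,7,[(6,8)]),(0,3,[(4,5)])],[])],[6,3,1],false,2,1,[]),
    (false,[([(0,4,[(11,15)]),(0,18,[(9,10)])],[2,1])],[9,1],false,2,1,[]),
    (true,[([(0,11,[(16,20)])],[])],[7,3,3,2,1,1],false,4,2,[5]),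
    (false,[([(0,32,[(16,20),(5,5)])],[5,3,3,1,1])],[],false,1,0,[])])]

theorem cj7e_2_ok : runAllJ S41 R41 F41 19 cj7e_2 = true := by decide +kernel

noncomputable def cj7e_3 : List (List ℕ × List NdJ) := [
  ([12,11,5,4,3,2,1], [
    (false,[],[12,11,5,4,3,2,1],true,6,4,[10,15,19,20]),
    (true,[([(0,0,[(7,10)])],[])],[7,6,5,2,2,2,2,2],false,4,5,[6,8,9,10]),
    (false,[([(0,0,[(7,10)]),(0,1,[(5,6)])],[1,1,1,1])],[12,4,2],true,3,4,[4,5,6]),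
    (true,[([(0,0,[(7,10)]),(0,1,[(5,6)])],[]),([(0,8,[(4,4)])],[])],[6,4,2,2,2,2],false,3,4,[4]),
    (true,[([(0,0,[(7,10)]),(0,1,[(5,6)])],[]),([(0,8,[(4,4)])],[]),([(0,8,[(4,4)])],[])],[6,4,2,2],false,3,3,[4]),
    (true,[([(0,0,[(7,10)]),(0,8,[(4,4)])],[4]),([(0,14,[(5,6),(4,4),(4,4)])],[])],[2,2,2],false,1,0,[]),
    (true,[([(0,0,[(7,10)]),(0,1,[(5,6)])],[]),([(0,3,[(5,5)])],[3])],[6,2,2,2,2],false,2,5,[3,5]),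
    (true,[([(0,0,[(7,10)]),(0,2,[(3,3)])],[]),([(0,1,[(5,6)]),(0,3,[(5,5)])],[1])],[5,2,2,2,2],false,2,3,[3]),
    (true,[([(0,4,[(7,10),(5,5)])],[1]),([(0,1,[(5,6)]),(0,1,[(3,3),(3,3)])],[2])],[2,2,2,2],false,1,0,[2]),
    (true,[([(0,4,[(7,10),(5,5)]),(0,2,[(2,2)])],[]),([(0,1,[(5,6)]),(0,1,[(3,3),(3,3)])],[])],[2,2,2,2],false,1,0,[]),
    (true,[([(0,0,[(7,10)]),(0,1,[(5,6)])],[]),([(0,3,[(5,5)]),(0,3,[(4,5)])],[])],[4,2,2,2,2],false,2,2,[3]),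
    (true,[([(0,4,[(7,10),(5,5)]),(0,2,[(3,3)])],[]),([(0,1,[(5,6)]),(0,1,[(4,5)])],[])],[2,2,2,2],false,1,0,[]),
    (true,[([(0,0,[(7,10)])],[2]),([(0,37,[(5,6),(6,6)])],[6])],[6,2],true,2,4,[3,5]),
    (true,[([(0,0,[(7,10)]),(0,2,[(3,3)])],[]),([(0,37,[(5,6),(6,6)])],[6])],[5,2],false,2,2,[3]),
    (true,[([(0,0,[(7,10)]),(0,2,[(3,3)])],[]),([(0,37,[(5,6),(6,6)])],[6]),([(0,2,[(3,3)])],[2,1,1])],[],false,1,0,[]),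
    (false,[([(0,0,[(7,10)]),(0,1,[(5,6)])],[1,1,1,1]),([(0,1,[(6,6)]),(0,3,[(4,5)])],[2,1,1,1,1,1])],[],false,1,0,[2]),
    (false,[([(0,0,[(7,10)]),(0,1,[(5,6)])],[1,1,1,1]),([(0,1,[(6,6)]),(0,3,[(4,5)]),(0,2,[(2,2)])],[1,1,1,1])],[],false,1,0,[]),
    (false,[([(0,0,[(7,10)]),(0,7,[(7,8)])],[1,1,1])],[12,4,1],true,3,3,[4,5,7,8]),
    (false,[([(0,0,[(7,10)]),(0,5,[(7,8)]),(0,8,[(4,4)])],[2,2,2])],[5,3,2],false,3,2,[4]),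
    (true,[([(0,0,[(7,10)]),(0,8,[(4,4)])],[]),([(0,37,[(7,8),(4,4)])],[6])],[4,2],false,2,1,[]),
    (false,[([(0,4,[(7,10),(5,5)]),(0,5,[(7,8)])],[2,2,2,2])],[4,3],false,2,3,[3,4]),
    (true,[([(0,4,[(7,10),(5,5)]),(0,2,[(3,3)])],[]),([(0,7,[(7,8)])],[4,2])],[2,2,2],false,1,0,[2]),
    (true,[([(0,4,[(7,10),(5,5)]),(0,2,[(3,3)])],[]),([(0,5,[(7,8)]),(0,2,[(2,2)])],[1])],[2,2,2,2],false,1,0,[]),
    (true,[([(0,4,[(7,10),(5,5)])],[3]),([(0,37,[(7,8),(4,4)])],[6])],[2],false,1,0,[]),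
    (true,[([(0,0,[(7,10)]),(0,5,[(7,8)])],[]),([(0,16,[(6,7)])],[4])],[3,2,2,2],false,2,2,[3]),
    (true,[([(0,0,[(7,10)]),(0,2,[(3,3)])],[]),([(0,7,[(7,8)])],[4]),([(0,16,[(6,7)])],[4,1,1])],[],false,1,0,[]),
    (true,[([(0,0,[(7,10)]),(0,5,[(8,8)])],[]),([(0,7,[(7,8)])],[4])],[2,2,2,2],false,1,0,[]),
    (true,[([(0,23,[(7,10),(9,9)])],[])],[7,4,2,2,2,2],false,3,4,[6]),
    (true,[([(0,0,[(7,10)]),(0,1,[(4,6)])],[]),([(0,36,[(9,9)])],[5])],[4,2,2],false,2,2,[3]),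
    (true,[([(0,23,[(7,10),(9,9)])],[]),([(0,1,[(4,6)]),(0,2,[(3,3)])],[3,1])],[2,2,2],false,1,0,[]),
    (true,[([(0,11,[(7,10),(10,10)])],[])],[7,2,2,2,2,2],false,2,4,[4,5]),
    (true,[([(0,0,[(7,10)])],[2,2]),([(0,19,[(10,10),(3,4)])],[6])],[2,2],false,1,0,[3]),
    (true,[([(0,0,[(7,10)]),(0,2,[(2,3)])],[4]),([(0,14,[(10,10),(3,4)])],[1])],[2,2,2],false,1,0,[2]),
    (false,[([(0,0,[(7,10)]),(0,27,[(10,10),(2,3)])],[2,2,2,2]),([(0,1,[(3,4),(2,2)])],[1])],[],false,1,0,[]),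
    (false,[([(0,32,[(7,10),(10,10),(5,5)])],[5,2,2,2,2])],[],false,1,0,[]),
    (true,[([(0,4,[(11,15)])],[])],[7,6,2,2,2,2,2],false,3,6,[5,7,9,10]),
    (false,[([(0,4,[(11,15)]),(0,3,[(4,5)])],[1,1,1])],[12,3],true,2,6,[3,5]),
    (true,[([(0,4,[(11,15)]),(0,2,[(3,3)])],[]),([(0,3,[(4,5)])],[3])],[6,2,2,2],false,2,4,[3]),
    (true,[([(0,4,[(11,15)]),(0,2,[(3,3)])],[]),([(0,7,[(4,5),(3,3)])],[4,2])],[2,2,2],false,1,0,[2,3]),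
    (true,[([(0,4,[(11,15)]),(0,2,[(3,3)])],[]),([(0,3,[(4,5)]),(0,3,[(3,3),(2,2)])],[])],[4,2,2,2],false,2,1,[]),
    (true,[([(0,4,[(11,15)]),(0,2,[(3,3)])],[]),([(0,1,[(4,5)]),(0,1,[(3,3),(3,3)])],[])],[2,2,2,2],false,1,0,[]),
    (true,[([(0,4,[(11,15)])],[]),([(0,3,[(4,5)]),(0,3,[(4,5)])],[])],[7,2,2,2],false,2,3,[3,4]),
    (true,[([(0,4,[(11,15)]),(0,2,[(3,3)])],[]),([(0,3,[(4,5)]),(0,3,[(4,5)])],[])],[4,2,2,2],false,2,1,[]),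
    (true,[([(0,4,[(11,15)])],[]),([(0,3,[(4,5)]),(0,3,[(4,5)])],[]),([(0,8,[(4,4)])],[])],[7,2],false,1,0,[]),
    (false,[([(0,4,[(11,15)]),(0,16,[(6,7)])],[1,1])],[12,2],true,2,4,[3,5]),
    (true,[([(0,4,[(11,15)]),(0,2,[(3,3)])],[]),([(0,16,[(6,7)])],[4,1])],[4,2,2],false,2,2,[3]),
    (false,[([(0,4,[(11,15)]),(0,16,[(6,7)])],[1,1]),([(0,2,[(3,3)]),(0,2,[(3,3)])],[1,1,1,1,1,1,1,1])],[],false,1,0,[]),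
    (true,[([(0,4,[(11,15)])],[5]),([(0,16,[(6,7)]),(0,3,[(4,5)])],[])],[2,2,2],false,1,0,[2]),
    (true,[([(0,4,[(11,15)]),(0,2,[(2,2)])],[]),([(0,16,[(6,7)])],[4,1]),([(0,3,[(4,5)])],[3])],[],false,1,0,[]),
    (false,[([(0,4,[(11,15)]),(0,36,[(8,9)])],[1])],[12,1],true,2,2,[3]),
    (true,[([(0,4,[(11,15)])],[3]),([(0,37,[(8,9),(3,3)])],[6])],[2],false,1,0,[]),
    (false,[([(0,32,[(11,15),(10,10)])],[5,2,2,2,2])],[],false,1,0,[]),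
    (true,[([(0,23,[(16,19)])],[])],[7,4,2,2,2,2],false,3,4,[5]),
    (true,[([(0,23,[(16,19)])],[]),([(0,3,[(4,5)])],[3])],[7,2,2],false,2,1,[]),
    (false,[([(0,35,[(20,20)])],[5,4,3,2,2,1])],[1],false,1,0,[])]),
  ([13,7,6,5,4,2,1], [
    (false,[],[13,7,6,5,4,2,1],false,6,3,[10,15,20]),
    (true,[([(0,0,[(7,10)])],[1])],[7,6,5,4,1,1,1,1,1],false,5,4,[8,10]),
    (true,[([(0,0,[(7,10)])],[2]),([(0,7,[(6,8)])],[2])],[7,6,1,1,1],false,2,8,[3,6,8]),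
    (true,[([(0,0,[(7,10)]),(0,2,[(3,3)])],[]),([(0,7,[(6,8)])],[2])],[7,5,1,1,1],false,3,3,[]),
    (true,[([(0,0,[(7,10)]),(0,1,[(4,6)])],[]),([(0,7,[(6,8)])],[])],[6,5,1,1,1],false,3,3,[5,6]),
    (true,[([(0,0,[(7,10)]),(0,1,[(4,6)])],[]),([(0,7,[(6,8)])],[]),([(0,3,[(4,5)])],[1,1])],[6,1],true,2,2,[3]),
    (true,[([(0,0,[(7,10)]),(0,1,[(4,6)])],[]),([(0,7,[(6,8)])],[1]),([(0,7,[(4,5),(3,3)])],[2,2])],[1],false,1,0,[]),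
    (true,[([(0,0,[(7,10)]),(0,1,[(4,6)])],[]),([(0,4,[(6,8),(6,6)])],[3])],[1,1,1,1],false,1,0,[]),
    (true,[([(0,0,[(7,10)]),(0,5,[(7,8)])],[]),([(0,7,[(6,8)])],[1])],[5,3,1,1,1],false,3,2,[]),
    (true,[([(0,0,[(7,10)])],[1]),([(0,18,[(9,10)])],[2,2])],[6,5,1,1],false,3,2,[6]),
    (true,[([(0,0,[(7,10)]),(0,1,[(4,6)])],[]),([(0,18,[(9,10)])],[])],[6,4,1,1],false,3,2,[]),
    (true,[([(0,4,[(11,15)])],[])],[7,6,5,1,1,1,1,1],false,4,5,[6,10]),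
    (false,[([(0,4,[(11,15)]),(0,1,[(5,6)])],[1,1,1,1,1])],[7,5],false,2,5,[4,5,6]),
    (true,[([(0,4,[(11,15)])],[]),([(0,0,[(5,6),(3,4)])],[3,3,3])],[1,1,1,1],false,1,0,[2,3,4]),
    (true,[([(0,4,[(11,15)]),(0,2,[(2,2)])],[]),([(0,0,[(5,6),(3,4)])],[3,3])],[1,1,1,1],false,1,0,[2]),
    (true,[([(0,4,[(11,15)])],[3]),([(0,0,[(5,6),(3,4)]),(1,0,[(2,2),(2,2)])],[])],[1,1,1,1],false,1,0,[2]),
    (true,[([(0,4,[(11,15)])],[3]),([(0,0,[(5,6),(3,4)]),(1,0,[(2,2),(2,2),(2,2)])],[])],[1,1,1,1],false,1,0,[]),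
    (true,[([(0,4,[(11,15)]),(0,2,[(3,3)])],[]),([(0,0,[(5,6),(3,4)])],[3,3])],[1,1,1,1],false,1,0,[2]),
    (true,[([(0,4,[(11,15)])],[3]),([(0,0,[(5,6),(3,4)]),(0,1,[(3,3),(2,2)])],[])],[1,1,1,1],false,1,0,[]),
    (true,[([(0,4,[(11,15)])],[4]),([(0,0,[(5,6),(3,4)]),(0,8,[(4,4)])],[1])],[1,1,1,1],false,1,0,[]),
    (false,[([(0,4,[(11,15)]),(0,1,[(5,6)]),(0,3,[(5,5)])],[1,1])],[6,4],false,2,1,[]),
    (true,[([(0,11,[(11,15),(6,6)])],[]),([(0,1,[(5,6)])],[2,2,2,1])],[1,1,1,1],false,1,0,[]),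
    (true,[([(0,4,[(11,15)])],[]),([(0,0,[(7,10)])],[3,3,3])],[1,1,1,1],false,1,0,[2,3,4]),
    (true,[([(0,4,[(11,15)]),(0,2,[(2,2)])],[]),([(0,0,[(7,10)])],[3,3])],[1,1,1,1],false,1,0,[2]),
    (true,[([(0,4,[(11,15)])],[3]),([(0,0,[(7,10)]),(1,0,[(2,2),(2,2)])],[])],[1,1,1,1],false,1,0,[2]),
    (true,[([(0,4,[(11,15)])],[3]),([(0,0,[(7,10)]),(1,0,[(2,2),(2,2),(2,2)])],[])],[1,1,1,1],false,1,0,[]),
    (true,[([(0,4,[(11,15)]),(0,2,[(3,3)])],[]),([(0,0,[(7,10)])],[3,3])],[1,1,1,1],false,1,0,[2]),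
    (true,[([(0,4,[(11,15)])],[3]),([(0,0,[(7,10)]),(0,1,[(3,3),(2,2)])],[])],[1,1,1,1],false,1,0,[]),
    (true,[([(0,4,[(11,15)])],[4]),([(0,0,[(7,10)]),(0,8,[(4,4)])],[1])],[1,1,1,1],false,1,0,[]),
    (true,[([(0,11,[(16,20)])],[])],[7,5,1,1,1,1,1],false,3,4,[5]),
    (true,[([(0,11,[(16,20)])],[]),([(0,3,[(4,5)])],[1,1])],[7,1,1,1],false,2,1,[])]),
  ([15,8,5,4,3,2,1], [
    (false,[],[15,8,5,4,3,2,1],true,7,3,[10,15,20]),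
    (true,[([(0,18,[(8,10)])],[])],[7,6,4,3,2,2,1,1,1,1],false,6,3,[10]),
    (true,[([(0,18,[(8,10)])],[]),([(0,0,[(7,10)])],[])],[7,6,2,1,1,1],false,4,2,[6,7]),
    (true,[([(0,18,[(8,10)])],[1]),([(0,0,[(7,10)]),(0,1,[(5,6)])],[])],[4,2,2,1,1,1],false,3,2,[]),
    (true,[([(0,21,[(8,10),(7,7)])],[]),([(0,0,[(7,10)])],[2,2,1])],[2,1,1,1,1],false,1,0,[]),
    (true,[([(0,4,[(11,15)])],[])],[7,6,2,2,1,1,1,1,1,1],false,4,4,[6,10]),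
    (true,[([(0,4,[(11,15)])],[]),([(0,1,[(5,6)])],[1,1,1])],[7,2,1,1,1,1,1],false,3,2,[6]),
    (false,[([(0,4,[(11,15)]),(0,1,[(5,6)]),(0,1,[(4,6)])],[1,1,1,1])],[4,3],false,2,2,[3]),
    (false,[([(0,4,[(11,15)]),(0,1,[(5,6)]),(0,1,[(4,6)])],[1,1,1,1]),([(0,2,[(3,3)])],[2,2])],[],false,1,0,[]),
    (false,[([(0,4,[(11,15)]),(0,0,[(7,10)])],[2,1,1,1,1,1])],[4,2],false,1,0,[3,4]),
    (false,[([(0,4,[(11,15)]),(0,0,[(7,10)]),(0,2,[(2,3)])],[1,1,1,1])],[4,2],false,2,2,[3]),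
    (false,[([(0,4,[(11,15)]),(0,0,[(7,10)]),(0,2,[(2,3)])],[1,1,1,1]),([(0,2,[(3,3)])],[2,1])],[],false,1,0,[]),
    (false,[([(0,4,[(11,15)]),(0,0,[(7,10)])],[2,1,1,1,1,1]),([(0,8,[(4,4)])],[1,1])],[],false,1,0,[]),
    (true,[([(0,11,[(16,20)])],[])],[7,2,2,1,1,1,1,1,1],false,3,4,[5]),
    (true,[([(0,11,[(16,20)])],[]),([(0,3,[(4,5)])],[1,1,1,1])],[2,2,1,1,1,1],false,2,1,[])]),
  ([17,6,5,4,3,2,1], [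
    (false,[],[17,6,5,4,3,2,1],true,6,4,[10,15,19,20]),
    (true,[([(0,0,[(7,10)])],[])],[7,6,5,1,1,1,1,1,1,1,1,1,1],false,4,5,[6,8,10]),
    (true,[([(0,0,[(7,10)]),(0,1,[(5,6)])],[])],[6,4,2,1,1,1,1,1,1,1,1,1,1],false,3,6,[4,5,6]),
    (true,[([(0,0,[(7,10)])],[1]),([(0,18,[(5,6),(4,4)])],[2,2])],[6,1,1,1,1,1,1,1],false,2,6,[3,4]),
    (false,[([(0,0,[(7,10)]),(0,1,[(5,6)]),(0,16,[(4,4),(3,3)])],[1,1,1,1,1,1])],[5,3,1],true,3,2,[]),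
    (false,[([(0,0,[(7,10)]),(0,18,[(5,6),(4,4)]),(0,3,[(4,4)])],[1,1,1,1,1])],[5,3],false,2,3,[4]),
    (true,[([(0,0,[(7,10)]),(0,1,[(5,6)])],[]),([(0,7,[(4,4),(3,4)]),(0,8,[(4,4)])],[])],[2,1,1,1,1,1,1,1,1],false,2,1,[]),
    (false,[([(0,0,[(7,10)]),(0,1,[(5,6)]),(0,3,[(5,5)])],[1,1,1,1,1,1,1])],[5,3,2],false,3,2,[5]),
    (true,[([(0,0,[(7,10)]),(0,1,[(5,6)])],[]),([(0,18,[(5,5),(4,5)])],[1])],[4,1,1,1,1,1,1,1],false,2,2,[3]),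
    (true,[([(0,0,[(7,10)]),(0,1,[(5,6)])],[]),([(0,18,[(5,5),(4,5)])],[1]),([(0,2,[(3,3)])],[1,1])],[1,1,1,1,1,1],false,1,0,[]),
    (false,[([(0,0,[(7,10)]),(0,1,[(5,6)]),(0,16,[(6,6)])],[1,1,1,1,1,1])],[5,3,1],true,3,2,[5]),
    (true,[([(0,0,[(7,10)]),(0,3,[(4,5)])],[]),([(0,37,[(5,6),(6,6)])],[])],[5,1,1,1,1,1,1],false,2,1,[]),
    (true,[([(0,0,[(7,10)]),(0,5,[(7,8)])],[])],[5,3,2,1,1,1,1,1,1,1,1,1,1],false,4,2,[6,8]),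
    (true,[([(0,0,[(7,10)]),(0,1,[(5,6)])],[]),([(0,7,[(7,8)])],[])],[6,1,1,1,1,1,1,1,1],false,2,3,[3,4]),
    (true,[([(0,0,[(7,10)]),(0,5,[(7,8)])],[]),([(0,1,[(5,6)]),(0,2,[(3,3)])],[])],[2,1,1,1,1,1,1,1,1,1],false,2,1,[]),
    (true,[([(0,0,[(7,10)]),(0,8,[(4,4)])],[]),([(0,19,[(7,8),(5,6)])],[3])],[1,1,1,1,1,1,1],false,1,0,[]),
    (true,[([(0,0,[(7,10)]),(0,5,[(7,8)])],[]),([(0,7,[(7,8)])],[1])],[3,1,1,1,1,1,1,1,1],false,2,1,[]),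
    (true,[([(0,0,[(7,10)])],[1]),([(0,18,[(9,10)])],[2,2])],[6,1,1,1,1,1,1,1],false,2,5,[3,6]),
    (false,[([(0,0,[(7,10)]),(0,17,[(9,10),(3,3)])],[1,1,1,1,1,1,1,1])],[4,3],false,2,3,[3]),
    (true,[([(0,0,[(7,10)]),(0,1,[(3,3),(3,3)])],[]),([(0,18,[(9,10)])],[1])],[4,1,1,1,1,1,1,1],false,2,1,[]),
    (true,[([(0,0,[(7,10)]),(0,1,[(4,6)])],[]),([(0,18,[(9,10)])],[1])],[4,1,1,1,1,1,1,1],false,2,2,[3]),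
    (true,[([(0,0,[(7,10)]),(0,1,[(4,6)])],[]),([(0,18,[(9,10)])],[1]),([(0,2,[(3,3)])],[1,1])],[1,1,1,1,1,1],false,1,0,[]),
    (true,[([(0,4,[(11,15)])],[])],[7,6,1,1,1,1,1,1,1,1,1,1],false,3,6,[4,5,7,10]),
    (true,[([(0,4,[(11,15)]),(0,8,[(4,4)])],[])],[5,4,1,1,1,1,1,1,1,1,1,1],false,3,4,[4]),
    (false,[([(0,4,[(11,15)]),(0,7,[(4,4),(4,4)])],[1,1,1,1,1,1,1,1])],[5,2],true,2,3,[4]),
    (false,[([(0,4,[(11,15)]),(0,7,[(4,4),(3,4)])],[1,1,1,1,1,1,1,1]),([(0,8,[(4,4)])],[1,1,1])],[],false,1,0,[2]),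
    (true,[([(0,4,[(11,15)]),(0,2,[(2,2)])],[]),([(0,7,[(4,4),(3,4)]),(0,8,[(4,4)])],[])],[1,1,1,1,1,1,1,1],false,1,0,[]),
    (true,[([(0,4,[(11,15)])],[]),([(0,3,[(5,5)])],[1,1,1])],[7,1,1,1,1,1,1,1,1],false,2,5,[3,5]),
    (false,[([(0,4,[(11,15)]),(0,7,[(5,5),(3,3)])],[1,1,1,1,1,1,1,1])],[5,2],true,2,3,[3]),
    (false,[([(0,4,[(11,15)]),(0,7,[(5,5),(3,3)])],[1,1,1,1,1,1,1,1]),([(0,2,[(3,3)])],[2,1,1])],[],false,1,0,[2]),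
    (false,[([(0,4,[(11,15)]),(0,18,[(5,5),(3,3),(2,2)])],[1,1,1,1,1,1,1]),([(0,2,[(3,3)])],[1,1,1])],[],false,1,0,[]),
    (false,[([(0,4,[(11,15)]),(0,18,[(5,5),(4,5)])],[1,1,1,1,1,1,1])],[5,1],true,2,2,[3]),
    (false,[([(0,4,[(11,15)]),(0,18,[(5,5),(4,5)])],[1,1,1,1,1,1,1]),([(0,2,[(3,3)])],[1,1,1])],[],false,1,0,[]),
    (false,[([(0,4,[(11,15)]),(0,16,[(6,7)])],[1,1,1,1,1,1,1,1])],[6,2],true,2,4,[3,5]),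
    (false,[([(0,4,[(11,15)]),(0,18,[(6,7),(3,3)])],[1,1,1,1,1,1,1])],[5,1],true,2,2,[3]),
    (false,[([(0,4,[(11,15)]),(0,18,[(6,7),(3,3)])],[1,1,1,1,1,1,1]),([(0,2,[(3,3)])],[1,1,1])],[],false,1,0,[]),
    (false,[([(0,4,[(11,15)]),(0,16,[(6,7)]),(0,3,[(4,5)])],[1,1,1,1,1])],[4,2],false,2,1,[]),
    (false,[([(0,4,[(11,15)]),(0,18,[(8,10)])],[1,1,1,1,1,1,1])],[5,1],true,2,2,[3]),
    (false,[([(0,4,[(11,15)]),(0,18,[(8,10)])],[1,1,1,1,1,1,1]),([(0,2,[(3,3)])],[1,1,1])],[],false,1,0,[]),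
    (true,[([(0,34,[(16,19)])],[])],[6,5,1,1,1,1,1,1,1,1],false,3,4,[5]),
    (true,[([(0,34,[(16,19)])],[]),([(0,3,[(4,5)])],[1,1])],[6,1,1,1,1,1,1],false,2,1,[]),
    (false,[([(0,28,[(20,20)])],[3,1,1,1,1,1,1,1,1,1,1,1])],[3,1],false,1,0,[])])]

theorem cj7e_3_ok : runAllJ S41 R41 F41 19 cj7e_3 = true := by decide +kernel

/-- the minors -/
def G7e : List (List ℕ) := [
  [1,1,1,1,1,1,1,11,1,1,1,1,1,1], [1,1,1,1,1,1,11,1,1,1,1,1,1,1], [1,1,1,1,1,1,1,1,6,1,1,1,1,1],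
  [1,1,1,1,1,6,1,1,1,1,1,1,1,1], [1,1,1,1,1,1,1,1,1,5,1,1,1,1], [1,1,1,1,5,1,1,1,1,1,1,1,1,1],
  [1,1,1,1,1,1,1,1,1,1,4,1,1,1], [1,1,1,4,1,1,1,1,1,1,1,1,1,1], [1,1,1,1,1,1,1,1,1,1,1,3,1,1],
  [1,1,3,1,1,1,1,1,1,1,1,1,1,1], [1,1,1,1,1,1,1,1,1,1,1,1,3,1], [1,3,1,1,1,1,1,1,1,1,1,1,1,1],
  [1,1,1,1,1,1,1,1,1,1,1,1,1,3], [3,1,1,1,1,1,1,1,1,1,1,1,1,1], [2,1,1,1,1,1,4,1,1,1,1,1,1,1],
  [1,1,1,1,1,1,1,4,1,1,1,1,1,2], [1,1,1,1,2,1,1,1,1,1,1,1,1,2], [2,1,1,1,1,1,1,1,1,2,1,1,1,1],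
  [1,1,1,2,1,3,1,1,2,1,1,1,1,1], [1,1,1,1,1,2,1,1,3,1,2,1,1,1], [1,1,1,2,1,1,1,1,1,1,1,1,2,1],
  [1,2,1,1,1,1,1,1,1,1,2,1,1,1], [1,1,1,2,1,1,1,1,1,1,1,2,1,1], [1,1,2,1,1,1,1,1,1,1,2,1,1,1],
  [2,1,1,1,1,1,1,1,1,1,2,1,1,1], [1,1,1,2,1,1,1,1,1,1,1,1,1,2], [2,2,1,1,1,1,1,1,1,1,1,1,1,1],
  [1,1,1,1,1,1,1,1,1,1,1,1,2,2], [1,1,1,1,3,1,1,5,1,1,1,1,1,1], [1,1,1,1,1,1,5,1,1,3,1,1,1,1],
  [2,1,1,1,1,3,1,1,1,1,1,1,1,1], [1,1,1,1,1,1,1,1,3,1,1,1,1,2], [2,1,1,1,1,1,1,3,1,1,1,1,1,1],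
  [1,1,1,1,1,1,3,1,1,1,1,1,1,2], [1,1,2,1,1,1,1,1,1,1,1,2,1,1], [1,1,1,1,2,1,1,1,1,1,1,1,2,1],
  [1,2,1,1,1,1,1,1,1,2,1,1,1,1], [1,1,2,1,1,1,6,1,1,1,1,1,1,1], [1,1,1,1,1,1,1,6,1,1,1,2,1,1],
  [1,2,1,1,1,3,1,1,1,1,1,1,1,1], [1,1,1,1,1,1,1,1,3,1,1,1,2,1], [1,1,1,1,3,1,1,1,3,1,1,1,1,1],
  [1,1,1,1,1,3,1,1,1,3,1,1,1,1], [1,2,1,1,1,1,5,1,1,1,1,1,1,1], [1,1,1,1,1,1,1,5,1,1,1,1,2,1],
  [1,1,1,3,1,1,3,1,1,1,1,1,1,1], [1,1,1,1,1,1,1,3,1,1,3,1,1,1], [1,1,1,1,1,1,1,7,3,1,1,1,1,1],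
  [1,1,1,1,1,3,7,1,1,1,1,1,1,1], [1,1,1,3,2,1,1,1,1,1,1,1,1,1], [1,1,1,1,1,1,1,1,1,2,3,1,1,1],
  [1,2,1,2,1,1,1,1,1,1,1,1,1,1], [1,1,1,1,1,1,1,1,1,1,2,1,2,1], [1,1,1,1,1,1,1,3,2,3,1,1,1,1],
  [1,1,1,1,3,2,3,1,1,1,1,1,1,1], [1,1,1,1,2,1,1,2,1,3,1,1,1,1], [1,1,1,1,3,1,2,1,1,2,1,1,1,1]]

noncomputable def T7e : BT :=
  .split 0 3 (.split 1 3 (.split 2 3 (.split 3 4 (.split 4 5 (.split 5 6 (.split 6 11 (.split 7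
  11 (.split 8 6 (.split 9 5 (.split 10 4 (.split 11 3 (.split 12 3 (.split 13 3 (.split 13 2
  (.split 0 2 (.split 12 2 (.split 10 2 (.split 9 3 (.split 11 2 (.split 8 3 (.split 7 6 (.split
  6 6 (.split 4 3 (.split 5 3 (.split 3 2 .small (.split 1 2 .small (.minor 51))) (.split 1 2
  (.split 3 2 .small (.split 8 2 .small (.minor 18))) (.minor 39))) (.split 3 3 (.split 7 5
  (.split 5 3 (.split 1 2 .small (.split 3 2 .small (.minor 51))) (.split 1 2 (.split 6 3 .small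
  (.minor 54)) (.minor 39))) (.minor 28)) (.minor 49))) (.split 1 2 (.split 2 2 (.split 3 3
  (.split 4 3 .small (.split 5 2 .small (.minor 54))) (.minor 45)) (.minor 37)) (.minor 43)))
  (.split 4 3 (.split 6 6 (.split 5 3 (.split 3 2 .small (.split 1 2 .small (.minor 51)))
  (.split 1 2 (.split 3 2 .small (.split 8 2 (.split 2 2 .small (.split 9 2 .small (.split 7 8
  (.split 6 3 .small (.split 3 3 .small (.minor 45))) (.split 6 3 (.split 5 4 .small (.split 3 3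
  .small (.split 4 2 .small (.minor 49)))) (.split 3 3 .small (.minor 45)))))) (.minor 18)))
  (.minor 39))) (.split 1 2 (.split 2 2 (.split 3 3 (.split 5 3 .small (.split 6 7 .small
  (.minor 48))) (.minor 45)) (.minor 37)) (.minor 43))) (.minor 28))) (.split 4 3 (.split 7 7
  (.split 1 2 (.split 6 6 (.split 5 3 (.split 3 2 .small (.split 2 2 .small (.split 7 4 .small
  (.split 9 2 .small (.split 8 4 .small (.split 6 3 .small (.split 3 3 .small (.minor 45))))))))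
  (.split 3 2 .small (.minor 18))) (.split 2 2 (.split 3 3 (.split 5 3 .small (.split 3 2 .small
  (.minor 18))) (.minor 45)) (.minor 37))) (.split 3 2 (.split 5 3 (.split 6 5 (.split 9 2
  .small (.minor 36)) (.minor 43)) (.minor 39)) (.minor 51))) (.minor 47)) (.minor 41))) (.split
  2 2 (.split 3 2 (.split 7 6 (.split 8 3 (.split 4 3 (.split 6 6 (.split 1 2 .small (.split 5 3
  .small (.minor 39))) (.split 1 2 .small (.minor 43))) (.split 7 5 (.split 6 6 (.split 1 2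
  .small (.split 5 3 (.split 6 5 (.split 9 2 .small (.minor 36)) (.minor 43)) (.minor 39)))
  (.split 1 2 (.split 5 2 .small (.minor 54)) (.minor 43))) (.minor 28))) (.split 4 3 (.split 1
  2 (.split 6 6 .small (.split 5 3 .small (.split 6 7 .small (.minor 48)))) (.split 5 3 (.split
  6 5 (.split 9 2 .small (.minor 36)) (.minor 43)) (.minor 39))) (.minor 41))) (.minor 38))
  (.minor 22)) (.minor 34))) (.split 1 2 (.split 5 3 (.split 6 5 (.split 4 3 (.split 3 2 (.split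
  7 6 (.split 2 2 .small (.split 11 2 .small (.minor 34))) (.split 4 2 (.split 8 2 .small
  (.minor 53)) (.minor 55))) (.split 11 2 (.split 7 6 (.split 8 3 (.split 2 2 .small (.split 9 4
  .small (.split 7 3 .small (.split 4 2 .small (.minor 55))))) (.split 7 3 (.split 2 2 .small
  (.split 9 4 (.split 8 4 .small (.split 3 3 .small (.split 4 2 .small (.minor 49)))) (.split 8
  4 (.split 3 3 .small (.split 4 2 .small (.minor 49))) (.split 3 3 (.split 6 3 .small (.split 4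
  2 .small (.split 7 2 .small (.minor 55)))) (.split 4 2 (.split 6 3 .small (.minor 45)) (.minor
  49)))))) (.minor 53))) (.split 4 2 (.split 8 2 (.split 2 2 .small (.split 9 4 .small (.split 7
  8 .small (.split 3 3 .small (.split 6 3 .small (.minor 45)))))) (.minor 53)) (.minor 55)))
  (.minor 22))) (.split 3 3 (.split 6 2 (.split 7 2 (.split 8 3 (.split 11 2 .small (.split 2 2
  .small (.minor 34))) (.minor 41)) (.minor 55)) (.minor 56)) (.minor 49))) (.minor 29)) (.minor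
  42)) (.minor 36))) (.split 1 2 (.split 2 2 (.split 3 2 (.split 4 3 (.split 9 3 (.split 7 6
  (.split 6 6 (.split 8 3 (.split 5 3 .small (.split 11 2 .small (.split 10 3 .small (.split 7 3
  .small (.minor 46))))) (.split 5 2 .small (.minor 19))) (.split 8 3 (.split 5 3 .small (.split
  6 7 (.split 11 2 .small (.split 10 3 .small (.split 7 3 .small (.minor 46)))) (.minor 48)))
  (.split 5 2 (.split 11 2 .small (.split 10 3 .small (.split 7 3 (.split 9 2 .small (.minor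
  50)) (.minor 46)))) (.minor 19)))) (.split 10 3 (.split 11 2 (.split 6 6 (.split 8 3 .small
  (.split 5 2 .small (.minor 19))) (.split 8 3 (.split 5 3 .small (.split 6 7 .small (.minor
  48))) (.split 5 2 .small (.minor 19)))) (.minor 38)) (.minor 46))) (.split 5 3 (.split 6 5
  (.split 10 3 (.split 7 6 (.split 8 3 .small (.split 5 2 .small (.minor 19))) (.split 4 2
  (.split 8 2 .small (.minor 53)) (.minor 55))) (.minor 50)) (.minor 29)) (.minor 42))) (.split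
  7 5 (.split 8 3 (.split 9 3 (.split 6 6 (.split 11 2 .small (.split 5 3 (.split 10 3 .small
  (.split 7 3 .small (.minor 46))) (.split 6 3 (.split 10 3 (.split 5 4 .small (.split 4 4
  .small (.split 9 2 .small (.split 6 2 .small (.minor 56))))) (.split 7 3 (.split 9 2 .small
  (.minor 50)) (.minor 46))) (.minor 54)))) (.split 5 2 (.split 9 2 (.split 11 2 .small (.split
  10 3 .small (.split 7 3 .small (.minor 46)))) (.minor 56)) (.minor 54))) (.split 5 3 (.split 6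
  2 (.split 7 2 (.split 10 3 .small (.minor 50)) (.minor 55)) (.minor 56)) (.minor 42))) (.minor
  41)) (.minor 28))) (.split 11 2 (.split 9 3 (.split 7 6 (.split 6 6 (.split 4 3 (.split 8 3
  (.split 5 3 (.split 10 3 .small (.split 7 3 .small (.minor 46))) (.split 8 2 (.split 10 3
  .small (.split 7 3 (.split 9 2 .small (.minor 50)) (.minor 46))) (.minor 18))) (.split 5 2
  (.split 10 3 .small (.split 7 3 (.split 9 2 .small (.minor 50)) (.minor 46))) (.minor 19)))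
  (.split 3 3 (.split 7 5 (.split 8 3 (.split 5 3 .small (.split 6 3 (.split 8 2 (.split 10 3
  .small (.split 7 3 .small (.minor 46))) (.minor 18)) (.minor 54))) (.minor 41)) (.minor 28))
  (.minor 49))) (.split 3 3 (.split 4 3 (.split 8 3 (.split 5 3 .small (.split 6 7 (.split 8 2
  .small (.minor 18)) (.minor 48))) (.split 5 2 (.split 10 3 .small (.split 7 3 (.split 9 2
  .small (.minor 50)) (.minor 46))) (.minor 19))) (.split 5 2 (.split 7 5 (.split 8 3 (.split 9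
  2 .small (.minor 56)) (.minor 41)) (.minor 28)) (.minor 54))) (.minor 45))) (.split 4 3
  (.split 10 3 (.split 6 6 (.split 8 3 (.split 5 3 .small (.split 8 2 (.split 3 3 .small (.split
  4 2 (.split 6 3 .small (.minor 45)) (.minor 49))) (.minor 18))) (.split 5 2 (.split 7 7 .small
  (.minor 47)) (.minor 19))) (.split 3 3 (.split 8 3 (.split 5 3 .small (.split 6 7 (.split 8 2
  .small (.minor 18)) (.minor 48))) (.split 5 2 (.split 7 7 .small (.minor 47)) (.minor 19)))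
  (.minor 45))) (.minor 46)) (.minor 28))) (.split 5 3 (.split 6 5 (.split 10 3 (.split 7 6
  (.split 4 3 (.split 8 3 .small (.split 5 2 (.split 7 3 (.split 3 3 .small (.split 4 2 .small
  (.minor 49))) (.minor 53)) (.minor 19))) (.split 3 3 (.split 6 2 (.split 7 2 .small (.minor
  55)) (.minor 56)) (.minor 49))) (.split 4 2 (.split 8 2 .small (.minor 53)) (.minor 55)))
  (.minor 50)) (.minor 29)) (.minor 42))) (.minor 22))) (.minor 23)) (.minor 21))) (.split 3 2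
  (.split 4 2 (.split 7 5 (.split 8 3 (.split 10 2 (.split 9 3 (.split 5 3 (.split 1 2 (.split 6
  6 .small (.split 2 2 .small (.minor 37))) (.split 6 5 (.split 9 2 (.split 11 2 .small (.split
  2 2 .small (.minor 34))) (.minor 36)) (.minor 43))) (.split 1 2 (.split 6 7 (.split 2 2 .small
  (.split 6 6 (.split 11 2 .small (.minor 34)) (.minor 37))) (.minor 48)) (.minor 39))) (.split
  1 2 (.split 5 3 (.split 6 5 (.split 2 2 .small (.split 11 2 .small (.minor 34))) (.minor 29))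
  (.minor 42)) (.minor 36))) (.minor 52)) (.minor 40)) (.minor 44)) (.minor 35)) (.minor 20)))
  (.split 1 2 (.split 5 3 (.split 6 4 (.split 7 3 (.split 9 2 (.split 10 2 (.split 4 3 (.split
  12 2 (.split 8 3 (.split 11 2 .small (.split 2 2 .small (.minor 34))) (.split 11 2 (.split 3 2
  .small (.split 8 4 .small (.split 2 2 .small (.split 3 3 .small (.split 4 2 (.split 6 3 .small
  (.minor 45)) (.minor 49)))))) (.split 2 2 (.split 3 2 .small (.minor 22)) (.minor 34))))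
  (.split 3 2 (.split 4 2 (.split 8 3 .small (.minor 40)) (.minor 35)) (.minor 20))) (.split 3 3
  (.split 8 3 (.split 12 2 (.split 11 2 .small (.split 2 2 (.split 3 2 .small (.minor 22))
  (.minor 34))) (.minor 35)) (.minor 41)) (.minor 49))) (.minor 24)) (.minor 17)) (.minor 32))
  (.minor 14)) (.minor 30)) (.minor 26))) (.split 3 2 (.split 4 2 (.split 6 3 (.split 7 4
  (.split 8 3 (.split 12 2 (.split 9 3 (.split 0 2 (.split 10 2 (.split 5 3 (.split 1 2 .small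
  (.split 9 2 .small (.minor 36))) (.split 1 2 (.split 2 2 .small (.split 11 2 .small (.minor
  34))) (.minor 39))) (.split 1 2 (.split 2 2 (.split 5 3 .small (.split 5 4 .small (.split 11 2
  .small (.split 10 3 .small (.split 7 3 (.split 9 2 .small (.minor 50)) (.minor 46))))))
  (.minor 23)) (.minor 21))) (.split 1 2 (.split 5 3 (.split 7 3 (.split 9 2 (.split 10 2
  (.split 11 2 .small (.split 2 2 .small (.minor 34))) (.minor 24)) (.minor 17)) (.minor 32))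
  (.minor 30)) (.minor 26))) (.split 0 2 (.split 1 2 (.split 5 3 (.split 10 3 (.split 2 2 .small
  (.split 10 2 (.split 11 2 .small (.minor 34)) (.minor 23))) (.minor 50)) (.minor 42)) (.minor
  36)) (.minor 17))) (.minor 27)) (.minor 31)) (.minor 15)) (.minor 33)) (.minor 16)) (.minor
  25))) (.minor 12)) (.minor 10)) (.minor 8)) (.minor 6)) (.minor 4)) (.minor 2)) (.minor 0))
  (.minor 1)) (.minor 3)) (.minor 5)) (.minor 7)) (.minor 9)) (.minor 11)) (.minor 13)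

noncomputable def Rt7e : List (List ℕ) :=
  cj7e_0.map Prod.fst ++ cj7e_1.map Prod.fst ++ cj7e_2.map Prod.fst ++ cj7e_3.map Prod.fst

theorem Rt7e_ok : ∀ M ∈ Rt7e, KG (M : Multiset ℕ) 19 := by
  intro M h
  unfold Rt7e at h
  simp only [List.mem_append] at h
  rcases h with ((h | h) | h) | h
  · exact kg_of_allJ S41_ok R41_ok F41_ok cj7e_0_ok M h
  · exact kg_of_allJ S41_ok R41_ok F41_ok cj7e_1_ok M h
  · exact kg_of_allJ S41_ok R41_ok F41_ok cj7e_2_ok M h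
  · exact kg_of_allJ S41_ok R41_ok F41_ok cj7e_3_ok M h

def ks7e : List ℕ := [
  56, 57, 50, 51, 44, 45, 36, 37, 16, 17, 18, 19, 22, 23, 41, 40, 9, 8, 29, 28, 7, 6, 1, 0, 10,
  11, 21, 20, 38, 39, 33, 32, 24, 25, 2, 5, 4, 53, 52, 31, 30, 13, 12, 47, 46, 43, 42, 54, 55, 35,
  34, 15, 14, 48, 49, 26, 27]

theorem min7e_ok : minC 7 Rt7e G7e ks7e = true := by decide +kernel

theorem T7e_ok : btC 7 66 G7e T7e (List.replicate (2 * 7) 1)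
    (List.replicate (2 * 7) 0) = true := by decide +kernel

theorem kg7e {M : Multiset ℕ} (hM : ∀ s ∈ M, 1 ≤ s)
    (hc : M.dedup.card = 7) (hn : 66 ≤ M.sum) : KG M 19 :=
  coverC ks7e T7e Rt7e_ok min7e_ok T7e_ok hM hc hn

noncomputable def cj8c_0 : List (List ℕ × List NdJ) := [
  ([9,8,6,5,4,3,2,1], [
    (false,[],[9,8,6,5,4,3,2,1],false,7,3,[10,15,20]),
    (true,[([(0,18,[(8,10)])],[4])],[8,7,5,4],false,4,4,[6,10]),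
    (true,[([(0,0,[(8,10)]),(0,1,[(5,6)])],[4])],[7,5,3,2,1],true,5,2,[6]),
    (false,[([(0,0,[(8,10)]),(0,12,[(5,6),(6,6)])],[])],[8,5,3],false,3,3,[4]),
    (true,[([(0,11,[(8,10),(6,6),(4,4)])],[]),([(0,1,[(5,6)])],[3,2,2,2,2])],[],false,1,0,[]),
    (true,[([(0,0,[(8,10)]),(0,0,[(7,10)])],[])],[7,5,3,2,1],false,5,1,[7]),
    (false,[([(0,0,[(8,10)]),(0,0,[(7,10)])],[]),([(0,16,[(6,7)])],[3,3,2,2,1])],[],false,1,0,[2]),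
    (false,[([(0,0,[(8,10)]),(0,0,[(7,10)])],[]),([(0,0,[(6,7),(2,2)])],[3,2,1,1,1])],[],false,1,0,[]),
    (true,[([(0,4,[(11,15)])],[3,2])],[8,5,3,2],true,4,3,[6,10]),
    (true,[([(0,4,[(11,15)]),(0,1,[(5,6)])],[])],[7,5,3,2],false,4,2,[6]),
    (false,[([(0,4,[(11,15)]),(0,1,[(5,6)])],[]),([(0,1,[(5,6)])],[3,3,2,1,1,1])],[],false,1,0,[2]),
    (false,[([(0,4,[(11,15)]),(0,7,[(5,6),(2,2)])],[]),([(0,1,[(5,6)])],[3,2,2,1,1])],[],false,1,0,[]),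
    (true,[([(0,4,[(11,15)])],[]),([(0,0,[(7,10)])],[4,3,3,3])],[],false,1,0,[4]),
    (true,[([(0,4,[(11,15)])],[2,1]),([(0,0,[(7,10)]),(1,1,[(2,4)])],[])],[],false,1,0,[3]),
    (true,[([(0,4,[(11,15)])],[2,1]),([(0,0,[(7,10)]),(1,1,[(2,4),(2,3)])],[])],[],false,1,0,[2]),
    (true,[([(0,4,[(11,15)])],[2,1]),([(0,0,[(7,10)]),(1,1,[(2,4),(2,3),(2,2)])],[])],[],false,1,0,[]),
    (true,[([(0,11,[(16,20)])],[])],[8,7,2],false,3,2,[5]),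
    (false,[([(0,11,[(16,20)]),(0,3,[(4,5)])],[])],[8,4],false,2,1,[])]),
  ([9,8,7,5,4,3,2,1], [
    (false,[],[9,8,7,5,4,3,2,1],false,7,3,[10,15,20]),
    (true,[([(0,0,[(8,10)])],[])],[8,7,6,5,3],false,5,3,[8,10]),
    (true,[([(0,0,[(8,10)]),(0,7,[(6,8)])],[])],[7,6,4,3,1],false,5,1,[7,8]),
    (false,[([(0,0,[(8,10)]),(0,4,[(6,8),(6,7)])],[])],[8,4,2],false,3,2,[]),
    (false,[([(0,0,[(8,10)]),(0,7,[(6,8)])],[]),([(0,7,[(8,8)])],[3,3,3,2,2])],[],false,1,0,[]),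
    (false,[([(0,0,[(8,10)]),(0,0,[(9,10)])],[2])],[8,5,3,1],false,4,1,[5]),
    (false,[([(0,32,[(8,10),(9,10),(5,5)])],[5])],[9],false,1,0,[]),
    (true,[([(0,4,[(11,15)])],[])],[8,7,6,3],false,4,3,[6,10]),
    (false,[([(0,4,[(11,15)]),(0,1,[(5,6)])],[2])],[8,5,3],false,3,3,[6]),
    (false,[([(0,4,[(11,15)]),(0,1,[(5,6)])],[2]),([(0,1,[(4,6)])],[3,3,2,1,1])],[],false,1,0,[3]),
    (false,[([(0,4,[(11,15)]),(0,1,[(5,6)])],[2]),([(0,1,[(4,6)]),(0,2,[(2,3)])],[3,3,1])],[],false,1,0,[2]),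
    (false,[([(0,4,[(11,15)]),(0,1,[(5,6)])],[2]),([(0,1,[(4,6)]),(1,0,[(2,3),(2,2)])],[3,1])],[],false,1,0,[]),
    (false,[([(0,4,[(11,15)]),(0,0,[(7,10)])],[])],[8,4,2],false,3,2,[4]),
    (false,[([(0,4,[(11,15)]),(0,0,[(7,10)])],[]),([(0,8,[(4,4)])],[1,1])],[8],false,1,0,[]),
    (true,[([(0,11,[(16,20)])],[])],[8,7,3],false,3,3,[5]),
    (false,[([(0,11,[(16,20)]),(0,1,[(4,5)])],[])],[8,4],false,2,1,[])]),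
  ([9,8,7,6,4,3,2,1], [
    (false,[],[9,8,7,6,4,3,2,1],false,7,3,[10,15,20]),
    (true,[([(0,0,[(8,10)])],[])],[8,7,6,5,4],false,5,4,[8,10]),
    (false,[([(0,0,[(8,10)]),(0,7,[(6,8)])],[2])],[8,7,4,1],false,3,5,[6,8]),
    (true,[([(0,0,[(8,10)]),(0,7,[(6,8)])],[]),([(0,1,[(4,6)])],[2,2,1])],[7,4],false,2,4,[3,5]),
    (true,[([(0,0,[(8,10)]),(0,7,[(6,8)])],[]),([(0,1,[(4,6)]),(0,2,[(3,3)])],[2])],[7,4],false,2,2,[3]),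
    (false,[([(0,0,[(8,10)]),(0,7,[(6,8)])],[2]),([(0,1,[(4,6)]),(0,2,[(3,3)]),(0,2,[(3,3)])],[])],[8],false,1,0,[]),
    (false,[([(0,4,[(8,10),(4,5)]),(0,7,[(6,8)])],[]),([(0,1,[(4,6)])],[3,2,2,2,2])],[],false,1,0,[2]),
    (true,[([(0,4,[(8,10),(4,5)]),(0,1,[(4,6)])],[]),([(0,0,[(6,8),(2,2)])],[4,4,1])],[],false,1,0,[]),
    (true,[([(0,0,[(8,10)]),(0,7,[(6,8)])],[]),([(0,5,[(7,8)])],[3,3,2,1])],[4,1],false,2,1,[]),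
    (true,[([(0,0,[(8,10)]),(0,0,[(9,10)])],[])],[7,5,4,3,1],false,5,1,[]),
    (true,[([(0,4,[(11,15)])],[])],[8,7,6,4],false,4,4,[6,10]),
    (true,[([(0,4,[(11,15)]),(0,1,[(5,6)])],[])],[7,5,4,3],false,4,3,[6]),
    (false,[([(0,4,[(11,15)]),(0,1,[(5,6)])],[]),([(0,1,[(5,6)])],[3,3,2,2,2,1])],[],false,1,0,[2]),
    (false,[([(0,4,[(11,15)]),(0,7,[(5,6),(2,2)])],[]),([(0,1,[(5,6)])],[3,2,2,2,2])],[],false,1,0,[]),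
    (true,[([(0,4,[(11,15)])],[]),([(0,0,[(7,10)])],[4,4,4,3])],[],false,1,0,[4]),
    (true,[([(0,4,[(11,15)])],[4,1]),([(0,0,[(7,10)]),(1,1,[(2,4)])],[])],[],false,1,0,[3]),
    (true,[([(0,4,[(11,15)])],[4,1]),([(0,0,[(7,10)]),(1,1,[(2,4),(2,3)])],[])],[],false,1,0,[2]),
    (true,[([(0,4,[(11,15)])],[4,1]),([(0,0,[(7,10)]),(1,1,[(2,4),(2,3),(2,2)])],[])],[],false,1,0,[]),
    (true,[([(0,11,[(16,20)])],[])],[8,7,4],false,3,4,[5]),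
    (true,[([(0,11,[(16,20)])],[1]),([(0,3,[(4,5)])],[3,3,3,2,2])],[],false,1,0,[2]),
    (true,[([(0,11,[(16,20)]),(0,2,[(2,2)])],[]),([(0,3,[(4,5)])],[3,3,3,2])],[],false,1,0,[])]),
  ([9,8,7,6,5,3,2,1], [
    (false,[],[9,8,7,6,5,3,2,1],false,7,3,[10,15,20]),
    (true,[([(0,0,[(8,10)])],[1])],[8,7,6,5,4],false,5,4,[8,10]),
    (true,[([(0,0,[(8,10)]),(0,7,[(6,8)])],[])],[7,6,5,4,1],false,5,1,[7,8]),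
    (false,[([(0,0,[(8,10)]),(0,4,[(6,8),(6,7)])],[])],[8,6,2],false,3,2,[]),
    (false,[([(0,0,[(8,10)]),(0,7,[(6,8)])],[]),([(0,7,[(8,8)])],[3,3,3,3,3])],[],false,1,0,[]),
    (true,[([(0,0,[(8,10)]),(0,13,[(9,10)])],[])],[7,5,4,3,1],false,5,1,[]),
    (true,[([(0,4,[(11,15)])],[])],[8,7,6,5],false,4,5,[6,10]),
    (false,[([(0,4,[(11,15)]),(0,1,[(5,6)])],[3])],[8,6,3],false,3,3,[6]),
    (false,[([(0,4,[(11,15)]),(0,1,[(5,6)])],[3]),([(0,1,[(4,6)])],[3,3,2,2,1])],[],false,1,0,[3]),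
    (false,[([(0,4,[(11,15)]),(0,1,[(5,6)])],[3]),([(0,1,[(4,6)]),(0,2,[(2,3)])],[3,3,2])],[],false,1,0,[2]),
    (false,[([(0,4,[(11,15)]),(0,1,[(5,6)])],[3]),([(0,1,[(4,6)]),(1,0,[(2,3),(2,2)])],[3,2])],[],false,1,0,[]),
    (false,[([(0,4,[(11,15)]),(0,0,[(7,10)])],[])],[8,6,2],false,3,2,[4]),
    (false,[([(0,4,[(11,15)]),(0,0,[(7,10)])],[]),([(0,8,[(4,4)])],[1,1,1,1])],[8],false,1,0,[]),
    (true,[([(0,11,[(16,20)])],[])],[8,7,5],false,3,4,[5]),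
    (false,[([(0,11,[(16,20)]),(0,3,[(4,5)])],[])],[8,7],false,2,1,[])]),
  ([9,8,7,6,5,4,2,1], [
    (false,[],[9,8,7,6,5,4,2,1],false,7,3,[10,15,20]),
    (true,[([(0,0,[(8,10)])],[1,1])],[8,7,6,5,4],false,5,4,[8,10]),
    (false,[([(0,0,[(8,10)]),(0,7,[(6,8)])],[3])],[8,7,5,1],false,3,6,[4,6,8]),
    (false,[([(0,0,[(8,10)]),(0,12,[(6,8),(4,4)])],[])],[8,7,5],false,3,4,[4]),
    (false,[([(0,0,[(8,10)]),(0,7,[(6,8)])],[3]),([(0,8,[(4,4)]),(0,8,[(4,4)])],[2,1,1])],[8,1],false,2,1,[]),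
    (true,[([(0,0,[(8,10)]),(0,7,[(6,8)])],[]),([(0,1,[(5,6)])],[2,2,1])],[7,6],false,2,3,[4]),
    (false,[([(0,0,[(8,10)]),(0,7,[(6,8)])],[3]),([(0,0,[(5,6),(3,4)])],[3,3,3,2])],[],false,1,0,[2]),
    (false,[([(0,0,[(8,10)]),(0,0,[(6,8),(2,2)])],[]),([(0,0,[(5,6),(3,4)])],[3,3,3,2,1])],[],false,1,0,[]),
    (true,[([(0,0,[(8,10)]),(0,7,[(6,8)])],[]),([(0,5,[(7,8)])],[3,3,2])],[7,1],false,2,1,[]),
    (true,[([(0,0,[(8,10)]),(0,0,[(9,10)])],[])],[7,6,5,3,1],false,5,1,[]),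
    (true,[([(0,4,[(11,15)])],[1])],[8,7,6,5],false,4,5,[6,10]),
    (true,[([(0,4,[(11,15)]),(0,1,[(5,6)])],[])],[7,6,5,3],false,4,3,[6]),
    (false,[([(0,4,[(11,15)]),(0,1,[(5,6)])],[]),([(0,1,[(5,6)])],[3,3,3,3,2,1])],[],false,1,0,[2]),
    (false,[([(0,4,[(11,15)]),(0,1,[(5,6)])],[]),([(0,1,[(5,6)]),(0,2,[(2,2)])],[3,3,3,3])],[],false,1,0,[]),
    (true,[([(0,4,[(11,15)])],[1]),([(0,0,[(7,10)])],[4,4,4,4])],[],false,1,0,[4]),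
    (true,[([(0,4,[(11,15)])],[4,3]),([(0,0,[(7,10)]),(1,1,[(2,4)])],[])],[],false,1,0,[3]),
    (true,[([(0,4,[(11,15)])],[4,3]),([(0,0,[(7,10)]),(1,1,[(2,4),(2,3)])],[])],[],false,1,0,[2]),
    (true,[([(0,4,[(11,15)])],[4,3]),([(0,0,[(7,10)]),(1,1,[(2,4),(2,3),(2,2)])],[])],[],false,1,0,[]),
    (true,[([(0,11,[(16,20)])],[])],[8,7,6],false,3,4,[5]),
    (true,[([(0,11,[(16,20)])],[1]),([(0,3,[(4,5)])],[3,3,3,3,3])],[],false,1,0,[2]),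
    (true,[([(0,11,[(16,20)])],[5,5]),([(0,3,[(4,5)]),(0,2,[(2,2)])],[3])],[],false,1,0,[])]),
  ([9,8,7,6,5,4,3,1], [
    (false,[],[9,8,7,6,5,4,3,1],false,7,4,[10,15,20]),
    (true,[([(0,0,[(8,10)])],[1,1,1])],[8,7,6,5,4],false,5,4,[8,10]),
    (true,[([(0,0,[(8,10)]),(0,7,[(6,8)])],[])],[7,7,6,4,1],true,4,2,[6,8]),
    (true,[([(0,0,[(8,10)]),(0,7,[(6,8)])],[]),([(0,1,[(5,6)])],[2,2,1,1])],[7,6],false,2,3,[4]),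
    (false,[([(0,0,[(8,10)]),(0,7,[(6,8)])],[4]),([(0,0,[(5,6),(3,4)])],[3,3,3,2])],[],false,1,0,[2]),
    (false,[([(0,0,[(8,10)]),(0,0,[(6,8),(2,2)])],[4]),([(0,0,[(5,6),(3,4)])],[3,3,2,1])],[],false,1,0,[]),
    (true,[([(0,0,[(8,10)]),(0,7,[(6,8)])],[]),([(0,5,[(7,8)])],[3,3,2,1])],[7,1],false,2,1,[]),
    (false,[([(0,0,[(8,10)]),(0,0,[(9,10)])],[4])],[8,6,4,1],false,4,1,[5]),
    (false,[([(0,32,[(8,10),(9,10),(5,5)])],[6,5])],[7],false,1,0,[]),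
    (true,[([(0,4,[(11,15)])],[1,1])],[8,7,6,5],false,4,5,[6,10]),
    (false,[([(0,4,[(11,15)]),(0,1,[(5,6)])],[4])],[8,6,4],false,3,4,[6]),
    (false,[([(0,4,[(11,15)]),(0,1,[(5,6)])],[4]),([(0,1,[(4,6)])],[3,3,3,2,1])],[],false,1,0,[3]),
    (false,[([(0,4,[(11,15)]),(0,1,[(5,6)])],[4]),([(0,1,[(4,6)]),(0,2,[(2,3)])],[3,3,3])],[],false,1,0,[2]),
    (false,[([(0,4,[(11,15)]),(0,1,[(5,6)])],[4]),([(0,1,[(4,6)]),(1,0,[(2,3),(2,2)])],[3,3])],[],false,1,0,[]),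
    (false,[([(0,4,[(11,15)]),(0,0,[(7,10)])],[])],[8,6,4],false,3,3,[4]),
    (false,[([(0,4,[(11,15)]),(0,0,[(7,10)])],[]),([(0,8,[(4,4)])],[2,2,1,1])],[8],false,1,0,[]),
    (true,[([(0,11,[(16,20)])],[1])],[8,7,6],false,3,4,[5]),
    (true,[([(0,11,[(16,20)])],[3,3]),([(0,3,[(4,5)])],[3,3,3,2])],[],false,1,0,[2]),
    (true,[([(0,11,[(16,20)])],[4,4]),([(0,3,[(4,5)]),(0,2,[(2,2)])],[3,3])],[],false,1,0,[])]),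
  ([9,8,7,6,5,4,3,2], [
    (false,[],[9,8,7,6,5,4,3,2],false,8,2,[11,15,20]),
    (true,[([(0,13,[(9,11)])],[2,1,1,1])],[8,7,6,5,2],false,5,2,[8,11]),
    (true,[([(0,13,[(9,11)]),(0,7,[(6,8)])],[])],[8,7,6,3,1],false,5,1,[7]),
    (true,[([(0,13,[(9,11)])],[2,1,1,1]),([(0,4,[(6,8),(6,7)])],[5,4,4])],[],false,1,0,[2]),
    (true,[([(0,13,[(9,11)]),(0,2,[(2,2)])],[1,1]),([(0,4,[(6,8),(6,7)])],[5,4,4])],[],false,1,0,[]),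
    (false,[([(0,13,[(9,11)]),(0,13,[(9,11)])],[2])],[8,5,4,3],false,4,3,[]),
    (true,[([(0,4,[(12,15)])],[1,1,1])],[8,7,6,5],false,4,5,[6,9]),
    (true,[([(0,4,[(12,15)]),(0,1,[(5,6)])],[])],[8,7,5,3],false,4,3,[5]),
    (true,[([(0,11,[(12,15),(5,6)])],[2,2]),([(0,3,[(5,5)])],[3,3,3,3,2])],[],false,1,0,[]),
    (true,[([(0,4,[(12,15)])],[1,1,1]),([(0,0,[(7,9)])],[4,4,4,4])],[],false,1,0,[3]),
    (true,[([(0,4,[(12,15)]),(0,2,[(2,3)])],[1]),([(0,0,[(7,9)])],[4,4,4,3])],[],false,1,0,[2]),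
    (true,[([(0,4,[(12,15)]),(1,0,[(2,3),(2,2)])],[]),([(0,0,[(7,9)])],[4,4,3,2])],[],false,1,0,[]),
    (true,[([(0,11,[(16,20)])],[1,1])],[8,7,6],false,3,4,[5]),
    (true,[([(0,11,[(16,20)])],[2,2]),([(0,3,[(4,5)])],[3,3,3,3,2])],[],false,1,0,[2]),
    (true,[([(0,11,[(16,20)])],[3,3]),([(0,3,[(4,5)]),(0,2,[(2,2)])],[3,3,3])],[],false,1,0,[])]),
  ([10,7,6,5,4,3,2,1], [
    (false,[],[10,7,6,5,4,3,2,1],true,8,2,[12,17,20]),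
    (true,[([(0,12,[(9,12)])],[2,2])],[8,6,4,3,1],true,5,2,[8,11,12]),
    (false,[([(0,12,[(9,12)]),(0,7,[(6,8)])],[1])],[7,6,4],false,3,4,[6,7]),
    (false,[([(0,12,[(9,12)]),(0,7,[(6,8)])],[1]),([(0,1,[(4,6)])],[3,3,3,2])],[],false,1,0,[3,4]),
    (false,[([(0,12,[(9,12)]),(0,7,[(6,8)])],[3]),([(0,1,[(4,6)]),(0,2,[(2,3)])],[3,3])],[],false,1,0,[2,3]),
    (false,[([(0,12,[(9,12)]),(0,0,[(6,8),(2,2)])],[1]),([(0,1,[(4,6)]),(0,2,[(2,3)])],[3,3])],[],false,1,0,[2]),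
    (false,[([(0,12,[(9,12)]),(0,0,[(6,8),(2,2)])],[1]),([(0,1,[(4,6)]),(1,0,[(2,3),(2,2)])],[3])],[],false,1,0,[]),
    (false,[([(0,4,[(9,12),(3,3)]),(0,7,[(6,8)])],[1]),([(0,1,[(4,6)]),(0,2,[(2,3)])],[3,2])],[],false,1,0,[]),
    (false,[([(0,12,[(9,12)]),(0,7,[(6,8)])],[4]),([(0,1,[(4,6)]),(0,8,[(4,4)])],[3,1])],[],false,1,0,[]),
    (false,[([(0,23,[(9,12),(7,7)]),(0,7,[(6,8)])],[])],[6,5],false,1,0,[]),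
    (false,[([(0,12,[(9,12)]),(0,13,[(9,11)])],[1])],[7,4,3],false,3,3,[4]),
    (false,[([(0,12,[(9,12)]),(0,4,[(9,11),(4,4)])],[])],[6,4,1],false,1,0,[]),
    (false,[([(0,38,[(9,12),(12,12)])],[6,3,1])],[4],false,1,0,[]),
    (true,[([(0,21,[(13,17)])],[1])],[8,6,5,1],true,4,2,[6,8]),
    (false,[([(0,21,[(13,17)]),(0,1,[(5,6)])],[5])],[6,4],false,2,3,[4]),
    (true,[([(0,21,[(13,17)])],[]),([(0,0,[(5,6),(3,4)])],[3,3,3,2])],[],false,1,0,[2]),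
    (true,[([(0,21,[(13,17)]),(0,2,[(2,2)])],[]),([(0,0,[(5,6),(3,4)])],[3,3,2])],[],false,1,0,[]),
    (true,[([(0,21,[(13,17)])],[1]),([(0,7,[(7,8)])],[3,3,3,3])],[],false,1,0,[2]),
    (true,[([(0,21,[(13,17)])],[]),([(0,0,[(7,8),(2,2)])],[3,3,3,2])],[],false,1,0,[]),
    (true,[([(0,26,[(18,20)])],[3,2])],[7,3,2,1],false,3,2,[])])]

theorem cj8c_0_ok : runAllJ S41 R41 F41 19 cj8c_0 = true := by decide +kernel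

/-- the minors -/
def G8c : List (List ℕ) := [
  [1,1,1,1,1,1,1,1,3,1,1,1,1,1,1,1], [1,1,1,1,1,1,1,3,1,1,1,1,1,1,1,1],
  [1,1,1,1,1,1,1,1,1,2,1,1,1,1,1,1], [1,1,1,1,1,1,2,1,1,1,1,1,1,1,1,1],
  [1,1,1,1,1,1,1,1,1,1,2,1,1,1,1,1], [1,1,1,1,1,2,1,1,1,1,1,1,1,1,1,1],
  [1,1,1,1,1,1,1,1,1,1,1,2,1,1,1,1], [1,1,1,1,2,1,1,1,1,1,1,1,1,1,1,1],
  [1,1,1,1,1,1,1,1,1,1,1,1,2,1,1,1], [1,1,1,2,1,1,1,1,1,1,1,1,1,1,1,1],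
  [1,1,1,1,1,1,1,1,1,1,1,1,1,2,1,1], [1,1,2,1,1,1,1,1,1,1,1,1,1,1,1,1],
  [1,1,1,1,1,1,1,1,1,1,1,1,1,1,2,1], [1,2,1,1,1,1,1,1,1,1,1,1,1,1,1,1],
  [1,1,1,1,1,1,1,1,1,1,1,1,1,1,1,2], [2,1,1,1,1,1,1,1,1,1,1,1,1,1,1,1]]

noncomputable def T8c : BT :=
  .split 0 2 (.split 1 2 (.split 2 2 (.split 3 2 (.split 4 2 (.split 5 2 (.split 6 2 (.split 7 3
  (.split 8 3 (.split 9 2 (.split 10 2 (.split 11 2 (.split 12 2 (.split 13 2 (.split 14 2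
  (.split 15 2 .small (.minor 14)) (.minor 12)) (.minor 10)) (.minor 8)) (.minor 6)) (.minor 4))
  (.minor 2)) (.minor 0)) (.minor 1)) (.minor 3)) (.minor 5)) (.minor 7)) (.minor 9)) (.minor
  11)) (.minor 13)) (.minor 15)

noncomputable def Rt8c : List (List ℕ) :=
  cj8c_0.map Prod.fst

theorem Rt8c_ok : ∀ M ∈ Rt8c, KG (M : Multiset ℕ) 19 := by
  intro M h
  unfold Rt8c at h
  exact kg_of_allJ S41_ok R41_ok F41_ok cj8c_0_ok M h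

def ks8c : List ℕ := [
  14, 15, 0, 1, 2, 3, 4, 5, 6, 7, 8, 9, 10, 11, 12, 13]

theorem min8c_ok : minC 8 Rt8c G8c ks8c = true := by decide +kernel

theorem T8c_ok : btC 8 66 G8c T8c (List.replicate (2 * 8) 1)
    (List.replicate (2 * 8) 0) = true := by decide +kernel

theorem kg8c {M : Multiset ℕ} (hM : ∀ s ∈ M, 1 ≤ s)
    (hc : M.dedup.card = 8) (hn : 66 ≤ M.sum) : KG M 19 :=
  coverC ks8c T8c Rt8c_ok min8c_ok T8c_ok hM hc hn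

noncomputable def cj8d_0 : List (List ℕ × List NdJ) := [
  ([9,8,7,6,5,4,2,1], [
    (false,[],[9,8,7,6,5,4,2,1],false,7,3,[10,15,21,22]),
    (true,[([(0,0,[(8,10)])],[1,1])],[8,7,6,5,4],false,5,4,[7,10]),
    (true,[([(0,21,[(8,10),(6,7)])],[5,2])],[7,6,5],false,3,5,[4,6,7]),
    (false,[([(0,0,[(8,10)]),(0,13,[(6,7),(4,4)])],[])],[9,7,4,1],true,4,2,[]),
    (true,[([(0,0,[(8,10)]),(0,16,[(6,7)])],[]),([(0,1,[(5,6)])],[2,2,2])],[7,6],false,2,5,[4,5,6]),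
    (false,[([(0,0,[(8,10)]),(0,16,[(6,7)])],[3]),([(0,0,[(5,6),(3,4)])],[3,3,3,3])],[],false,1,0,[3,4]),
    (false,[([(0,0,[(8,10)]),(0,0,[(6,7),(2,3)])],[]),([(0,0,[(5,6),(3,4)])],[3,3,3,2,1])],[],false,1,0,[3]),
    (false,[([(0,0,[(8,10)]),(0,0,[(6,7),(2,3)])],[]),([(0,0,[(5,6),(3,4)]),(0,2,[(2,3)])],[3,3,3])],[],false,1,0,[2]),
    (false,[([(0,0,[(8,10)]),(0,0,[(6,7),(2,3)])],[]),([(0,0,[(5,6),(3,4)]),(1,0,[(2,3),(2,2)])],[3,3])],[],false,1,0,[]),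
    (true,[([(0,0,[(8,10)]),(0,1,[(5,6)])],[2]),([(0,4,[(6,7),(3,4),(4,4)])],[5,4])],[],false,1,0,[]),
    (false,[([(0,0,[(8,10)]),(0,12,[(6,7),(5,5)])],[]),([(0,1,[(5,6)])],[3,3,3,3,2])],[],false,1,0,[2]),
    (true,[([(0,0,[(8,10)]),(0,1,[(5,5)])],[2]),([(0,4,[(6,7),(5,6),(2,2)])],[5,4])],[],false,1,0,[]),
    (false,[([(0,0,[(8,10)]),(0,17,[(6,7),(6,6)])],[]),([(0,1,[(5,6)])],[3,3,3,2,2])],[],false,1,0,[]),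
    (false,[([(0,22,[(8,10),(7,7)]),(0,7,[(6,7)])],[])],[8,7,2],false,3,2,[4]),
    (false,[([(0,39,[(8,10),(6,7),(7,7),(4,4)])],[5])],[9],false,1,0,[]),
    (true,[([(0,0,[(8,10)]),(0,0,[(8,10)])],[])],[7,6,5,3,1],false,5,1,[7,8]),
    (false,[([(0,0,[(8,10)]),(0,0,[(8,10)])],[]),([(0,7,[(6,7)])],[3,3,3,3,2])],[],false,1,0,[3]),
    (false,[([(0,0,[(8,10)]),(0,0,[(8,10)])],[]),([(0,0,[(6,7),(2,3)])],[3,3,3,2,1])],[],false,1,0,[2]),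
    (false,[([(0,0,[(8,10)]),(0,0,[(8,10)])],[]),([(0,0,[(6,7),(2,3)]),(0,2,[(2,2)])],[3,3,3])],[],false,1,0,[]),
    (false,[([(0,39,[(8,10),(8,10),(8,8)])],[5])],[9],false,1,0,[]),
    (true,[([(0,4,[(11,15)])],[1])],[8,7,6,5],false,4,5,[6,8,11,12]),
    (true,[([(0,4,[(11,15)]),(0,1,[(5,6)])],[])],[7,6,5,3],false,4,3,[6]),
    (false,[([(0,4,[(11,15)]),(0,1,[(5,6)])],[]),([(0,1,[(5,6)])],[3,3,3,3,2,1])],[],false,1,0,[2,4]),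
    (false,[([(0,4,[(11,15)]),(0,1,[(5,6)])],[]),([(0,1,[(5,6)]),(0,2,[(2,2)])],[3,3,3,3])],[],false,1,0,[2]),
    (true,[([(0,4,[(11,15)]),(0,1,[(5,6)])],[]),([(0,0,[(5,6),(2,2),(2,2)])],[4,4,3])],[],false,1,0,[2]),
    (false,[([(0,4,[(11,15)]),(0,1,[(5,6)])],[]),([(0,1,[(5,6)]),(1,0,[(2,2),(2,2),(2,2)])],[3,3,3])],[],false,1,0,[]),
    (true,[([(0,4,[(11,15)]),(0,1,[(5,6)])],[]),([(0,0,[(5,6),(3,4)])],[4,4,3])],[],false,1,0,[2]),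
    (false,[([(0,4,[(11,15)]),(0,1,[(5,6)])],[]),([(0,1,[(5,6)]),(0,1,[(3,4),(2,2)])],[3,3,3])],[],false,1,0,[]),
    (false,[([(0,4,[(11,15)]),(0,5,[(7,8)])],[])],[9,6,4],false,3,4,[6]),
    (false,[([(0,4,[(11,15)]),(0,5,[(7,8)])],[]),([(0,1,[(4,6)])],[3,3,3,2,1,1])],[],false,1,0,[3]),
    (false,[([(0,4,[(11,15)]),(0,5,[(7,8)])],[]),([(0,1,[(4,6)]),(0,2,[(2,3)])],[3,3,3,1])],[],false,1,0,[2]),
    (false,[([(0,4,[(11,15)]),(0,5,[(7,8)])],[]),([(0,1,[(4,6)]),(1,0,[(2,3),(2,2)])],[3,3,1])],[],false,1,0,[]),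
    (true,[([(0,4,[(11,15)])],[2]),([(0,13,[(9,11)])],[4,4,4,2])],[],false,1,0,[4]),
    (true,[([(0,4,[(11,15)])],[4,2]),([(0,13,[(9,11)]),(1,1,[(2,4)])],[])],[],false,1,0,[3]),
    (true,[([(0,4,[(11,15)])],[4,2]),([(0,13,[(9,11)]),(1,1,[(2,4),(2,3)])],[])],[],false,1,0,[2]),
    (true,[([(0,4,[(11,15)])],[4,2]),([(0,13,[(9,11)]),(1,1,[(2,4),(2,3),(2,2)])],[])],[],false,1,0,[]),
    (false,[([(0,40,[(11,15),(12,12)])],[5,4])],[6],false,1,0,[]),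
    (true,[([(0,11,[(16,21)])],[])],[8,7,6],false,3,6,[6,7]),
    (true,[([(0,11,[(16,21)])],[]),([(0,1,[(4,6)])],[3,3,3,3,3])],[],false,1,0,[2,3,4]),
    (true,[([(0,11,[(16,21)]),(0,2,[(2,2)])],[]),([(0,1,[(4,6)])],[3,3,3,3])],[],false,1,0,[2]),
    (true,[([(0,11,[(16,21)])],[3]),([(0,1,[(4,6)]),(1,0,[(2,2),(2,2)])],[3,3])],[],false,1,0,[2]),
    (true,[([(0,11,[(16,21)])],[3]),([(0,1,[(4,6)]),(1,0,[(2,2),(2,2),(2,2)])],[3,3])],[],false,1,0,[]),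
    (true,[([(0,11,[(16,21)]),(0,2,[(3,3)])],[]),([(0,1,[(4,6)])],[3,3,3,3])],[],false,1,0,[2]),
    (true,[([(0,11,[(16,21)])],[5,5]),([(0,1,[(4,6)]),(0,3,[(3,3),(2,2)])],[])],[],false,1,0,[]),
    (true,[([(0,11,[(16,21)])],[4]),([(0,1,[(4,6)]),(0,8,[(4,4)])],[3,3,1])],[],false,1,0,[]),
    (false,[([(0,39,[(16,21),(7,7)])],[5])],[9],false,1,0,[]),
    (false,[([(0,24,[(22,22)])],[3])],[9,8],false,1,0,[])]),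
  ([9,8,7,6,5,4,3,1], [
    (false,[],[9,8,7,6,5,4,3,1],false,7,4,[10,15,21,22]),
    (true,[([(0,0,[(8,10)])],[1,1,1])],[8,7,6,5,4],false,5,4,[8,10]),
    (false,[([(0,0,[(8,10)]),(0,7,[(6,8)])],[4])],[8,7,5,1],false,3,6,[4,6,8]),
    (false,[([(0,4,[(8,10),(4,4)]),(0,7,[(6,8)])],[])],[8,7,5],false,3,5,[4]),
    (true,[([(0,0,[(8,10)]),(0,7,[(6,8)])],[]),([(0,8,[(4,4)]),(0,8,[(4,4)])],[1,1,1])],[7,6,1],false,3,1,[4]),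
    (false,[([(0,4,[(8,10),(4,4)]),(0,7,[(6,8)])],[]),([(0,8,[(4,4)]),(0,8,[(4,4)])],[2,1,1])],[8],false,1,0,[]),
    (true,[([(0,0,[(8,10)]),(0,7,[(6,8)])],[]),([(0,1,[(5,6)])],[2,2,1,1])],[7,6],false,2,5,[3,4,5,6]),
    (true,[([(0,0,[(8,10)]),(0,7,[(6,8)])],[]),([(0,1,[(5,6)]),(0,2,[(3,3)])],[2,1])],[7,6],false,2,3,[3]),
    (true,[([(0,0,[(8,10)]),(0,7,[(6,8)])],[]),([(0,1,[(5,6)]),(0,2,[(3,3)]),(0,2,[(3,3)])],[])],[7,6],false,2,1,[]),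
    (true,[([(0,0,[(8,10)]),(0,7,[(6,8)])],[]),([(0,1,[(5,6)]),(0,8,[(4,4)])],[1,1])],[7,6],false,2,2,[3]),
    (false,[([(0,0,[(8,10)]),(0,4,[(6,8),(4,4),(3,3)])],[]),([(0,1,[(5,6)])],[3,3,3,2,1])],[],false,1,0,[]),
    (false,[([(0,4,[(8,10),(5,5)]),(0,7,[(6,8)])],[]),([(0,1,[(5,6)])],[3,3,3,3,2])],[],false,1,0,[2]),
    (false,[([(0,4,[(8,10),(5,5)]),(0,0,[(6,8),(2,2)])],[]),([(0,1,[(5,6)])],[3,3,3,2,1])],[],false,1,0,[]),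
    (false,[([(0,0,[(8,10)]),(0,14,[(6,8),(6,6)])],[]),([(0,1,[(5,6)])],[3,3,3,3,1])],[],false,1,0,[]),
    (false,[([(0,0,[(8,10)]),(0,7,[(6,8)])],[4]),([(0,5,[(7,8)])],[3,3,3,2,1])],[1],false,1,0,[4]),
    (false,[([(0,0,[(8,10)]),(0,7,[(6,8)])],[4]),([(0,5,[(7,8)]),(1,1,[(2,4)])],[3])],[],false,1,0,[3]),
    (false,[([(0,0,[(8,10)]),(0,7,[(6,8)])],[4]),([(0,5,[(7,8)]),(1,1,[(2,4),(2,3)])],[3])],[],false,1,0,[2]),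
    (false,[([(0,0,[(8,10)]),(0,0,[(6,8),(2,2)])],[4]),([(0,5,[(7,8)]),(1,1,[(2,4),(2,3)])],[1])],[],false,1,0,[]),
    (false,[([(0,0,[(8,10)]),(0,0,[(9,10)])],[4])],[8,6,4,1],true,4,2,[6,7]),
    (true,[([(0,0,[(8,10)]),(0,0,[(9,10)])],[]),([(0,1,[(5,6)])],[2,1,1,1])],[7,5],false,2,2,[3]),
    (true,[([(0,11,[(8,10),(9,10)])],[4,3]),([(0,1,[(5,6)]),(0,2,[(3,3)])],[3,3])],[],false,1,0,[]),
    (false,[([(0,40,[(8,10),(9,10),(7,7)])],[6,4])],[6],false,1,0,[]),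
    (true,[([(0,4,[(11,15)])],[1,1])],[8,7,6,5],false,4,5,[6,10,12]),
    (false,[([(0,4,[(11,15)]),(0,1,[(5,6)])],[4])],[8,6,4],false,3,4,[6]),
    (false,[([(0,4,[(11,15)]),(0,1,[(5,6)])],[4]),([(0,1,[(4,6)])],[3,3,3,2,1])],[],false,1,0,[3,4,5]),
    (false,[([(0,4,[(11,15)]),(0,1,[(5,6)])],[4]),([(0,1,[(4,6)]),(0,2,[(2,3)])],[3,3,3])],[],false,1,0,[3]),
    (false,[([(0,4,[(11,15)]),(1,1,[(2,3),(2,3)])],[]),([(0,1,[(5,6)]),(0,1,[(4,6)])],[3,3])],[],false,1,0,[2,3]),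
    (false,[([(0,4,[(11,15)]),(1,1,[(2,3),(2,3),(2,2)])],[]),([(0,1,[(5,6)]),(0,1,[(4,6)])],[3,3])],[],false,1,0,[2]),
    (false,[([(0,4,[(11,15)]),(1,1,[(2,3),(2,3),(2,2),(2,2)])],[]),([(0,1,[(5,6)]),(0,1,[(4,6)])],[3,3])],[],false,1,0,[]),
    (false,[([(0,4,[(11,15)]),(1,1,[(2,3),(2,3),(3,3)])],[]),([(0,1,[(5,6)]),(0,1,[(4,6)])],[3,3])],[],false,1,0,[]),
    (false,[([(0,4,[(11,15)]),(0,0,[(5,6),(4,4)])],[]),([(0,1,[(4,6)])],[3,3,3,2,1])],[],false,1,0,[2]),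
    (false,[([(0,4,[(11,15)]),(0,0,[(5,6),(4,4)])],[]),([(0,1,[(4,6)]),(0,2,[(2,2)])],[3,3,3])],[],false,1,0,[]),
    (false,[([(0,4,[(11,15)]),(0,1,[(5,6)])],[4]),([(0,1,[(4,6)]),(0,1,[(5,5)])],[3,3])],[],false,1,0,[]),
    (false,[([(0,4,[(11,15)]),(0,0,[(7,10)])],[])],[8,6,4],false,3,4,[6]),
    (false,[([(0,4,[(11,15)]),(0,0,[(7,10)])],[]),([(0,1,[(4,6)])],[3,3,3,2,1])],[],false,1,0,[3]),
    (false,[([(0,4,[(11,15)]),(0,0,[(7,10)])],[]),([(0,1,[(4,6)]),(0,2,[(2,3)])],[3,3,3])],[],false,1,0,[2]),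
    (false,[([(0,4,[(11,15)]),(0,0,[(7,10)])],[]),([(0,1,[(4,6)]),(1,0,[(2,3),(2,2)])],[3,3])],[],false,1,0,[]),
    (false,[([(0,4,[(11,15)]),(0,41,[(11,12)])],[])],[7,6,3],false,2,1,[]),
    (true,[([(0,11,[(16,21)])],[1])],[8,7,6],false,3,6,[6,7]),
    (true,[([(0,11,[(16,21)])],[1]),([(0,1,[(4,6)])],[3,3,3,3,3])],[],false,1,0,[2,3,4]),
    (true,[([(0,11,[(16,21)])],[4,3]),([(0,1,[(4,6)]),(0,2,[(2,2)])],[3,3])],[],false,1,0,[2]),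
    (true,[([(0,11,[(16,21)])],[4,3]),([(0,1,[(4,6)]),(1,0,[(2,2),(2,2)])],[3])],[],false,1,0,[2]),
    (true,[([(0,11,[(16,21)])],[4,3]),([(0,1,[(4,6)]),(1,0,[(2,2),(2,2),(2,2)])],[3])],[],false,1,0,[]),
    (true,[([(0,11,[(16,21)])],[4,3]),([(0,1,[(4,6)]),(0,2,[(3,3)])],[3,3])],[],false,1,0,[2]),
    (true,[([(0,11,[(16,21)])],[4,4]),([(0,1,[(4,6)]),(0,3,[(3,3),(2,2)])],[3])],[],false,1,0,[]),
    (true,[([(0,11,[(16,21)]),(0,8,[(4,4)])],[]),([(0,1,[(4,6)])],[3,3,3,3])],[],false,1,0,[]),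
    (false,[([(0,39,[(16,21),(7,7)])],[6])],[9],false,1,0,[]),
    (false,[([(0,24,[(22,22)])],[5,3])],[9,4],false,1,0,[])]),
  ([9,8,7,6,5,4,3,2], [
    (false,[],[9,8,7,6,5,4,3,2],false,7,4,[10,15,21,22]),
    (true,[([(0,0,[(8,10)])],[1,1,1,1])],[8,7,6,5,4],false,5,4,[8,10]),
    (false,[([(0,0,[(8,10)]),(0,7,[(6,8)])],[])],[9,7,6,4],false,4,4,[6,8]),
    (true,[([(0,0,[(8,10)]),(0,7,[(6,8)])],[]),([(0,1,[(5,6)])],[2,2,1])],[8,7],false,2,5,[4,6]),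
    (false,[([(0,0,[(8,10)]),(0,7,[(6,8)])],[]),([(0,0,[(5,6),(3,4)])],[4,4,4,3,1])],[],false,1,0,[3,4]),
    (true,[([(0,0,[(8,10)]),(0,7,[(6,8)])],[]),([(0,0,[(5,6),(3,4)]),(0,2,[(2,3)])],[3,3])],[7],false,1,0,[2,3]),
    (false,[([(0,0,[(8,10)]),(0,0,[(6,8),(2,2)])],[]),([(0,0,[(5,6),(3,4)]),(0,2,[(2,3)])],[4,4,3])],[],false,1,0,[2]),
    (false,[([(0,0,[(8,10)]),(0,0,[(6,8),(2,2)])],[]),([(0,0,[(5,6),(3,4)]),(1,0,[(2,3),(2,2)])],[4,4])],[],false,1,0,[]),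
    (true,[([(0,0,[(8,10)]),(0,7,[(6,8)])],[]),([(0,0,[(5,6),(3,4)]),(0,1,[(2,3),(3,3)])],[3])],[7],false,1,0,[]),
    (true,[([(0,4,[(8,10),(4,4)])],[4,4,3]),([(0,7,[(6,8)]),(0,0,[(5,6),(3,4)])],[])],[],false,1,0,[]),
    (true,[([(0,0,[(8,10)]),(0,7,[(6,8)])],[]),([(0,1,[(5,6)]),(0,1,[(5,6)])],[3,3])],[7,1],false,2,1,[]),
    (false,[([(0,0,[(8,10)]),(0,7,[(6,8)])],[]),([(0,7,[(7,8)])],[4,4,4,3,3])],[],false,1,0,[4]),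
    (false,[([(0,0,[(8,10)]),(0,7,[(6,8)])],[4]),([(0,5,[(7,8)]),(1,1,[(2,4)])],[4])],[],false,1,0,[3]),
    (false,[([(0,0,[(8,10)]),(0,7,[(6,8)])],[4]),([(0,5,[(7,8)]),(1,1,[(2,4),(2,3)])],[4])],[],false,1,0,[2]),
    (true,[([(0,0,[(8,10)]),(0,0,[(6,8),(2,2)])],[]),([(0,5,[(7,8)]),(1,1,[(2,4),(2,3)])],[3])],[3],false,1,0,[]),
    (true,[([(0,0,[(8,10)]),(0,0,[(9,10)])],[])],[8,7,5,3,1],false,5,1,[7]),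
    (true,[([(0,0,[(8,10)])],[2,1,1,1]),([(0,22,[(9,10),(6,7)])],[5,5,2])],[],false,1,0,[2]),
    (true,[([(0,0,[(8,10)]),(0,2,[(2,2)])],[1,1]),([(0,22,[(9,10),(6,7)])],[5,5,2])],[],false,1,0,[]),
    (true,[([(0,4,[(11,15)])],[1,1,1])],[8,7,6,5],false,4,5,[6,10,12]),
    (true,[([(0,4,[(11,15)]),(0,1,[(5,6)])],[])],[8,7,5,3],false,4,3,[6]),
    (false,[([(0,4,[(11,15)]),(0,1,[(5,6)])],[5]),([(0,1,[(5,6)])],[3,3,3,2,1])],[],false,1,0,[2,4]),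
    (true,[([(0,4,[(11,15)])],[4,4,3]),([(0,7,[(5,6),(2,2)]),(0,1,[(5,6)])],[4])],[],false,1,0,[2]),
    (true,[([(0,4,[(11,15)]),(0,1,[(5,6)])],[]),([(0,0,[(5,6),(2,2),(2,2)])],[4,4,3,2])],[],false,1,0,[2]),
    (true,[([(0,4,[(11,15)])],[4,4,3]),([(0,0,[(5,6),(2,2),(2,2)]),(0,7,[(5,6),(2,2)])],[])],[],false,1,0,[]),
    (true,[([(0,4,[(11,15)]),(0,1,[(5,6)])],[]),([(0,0,[(5,6),(3,4)])],[4,4,3,2])],[],false,1,0,[2]),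
    (true,[([(0,4,[(11,15)])],[4,4,3]),([(0,0,[(5,6),(3,4)]),(0,7,[(5,6),(2,2)])],[])],[],false,1,0,[]),
    (true,[([(0,4,[(11,15)])],[1,1,1]),([(0,0,[(7,10)])],[4,4,4,4])],[],false,1,0,[2,4,6]),
    (true,[([(0,4,[(11,15)]),(0,2,[(2,2)])],[1]),([(0,0,[(7,10)])],[4,4,4,3])],[],false,1,0,[2]),
    (true,[([(0,4,[(11,15)]),(1,0,[(2,2),(2,2)])],[]),([(0,0,[(7,10)])],[4,4,3,2])],[],false,1,0,[2]),
    (true,[([(0,4,[(11,15)]),(1,0,[(2,2),(2,2),(2,2)])],[]),([(0,0,[(7,10)])],[4,4,3,2])],[],false,1,0,[2]),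
    (true,[([(0,4,[(11,15)])],[4,3,2]),([(0,0,[(7,10)]),(1,1,[(2,2),(2,2),(2,2),(2,2)])],[])],[],false,1,0,[2]),
    (true,[([(0,4,[(11,15)])],[4,3,2]),([(0,0,[(7,10)]),(1,1,[(2,2),(2,2),(2,2),(2,2),(2,2)])],[])],[],false,1,0,[]),
    (true,[([(0,4,[(11,15)])],[4,3,2]),([(0,0,[(7,10)]),(1,1,[(3,4)])],[])],[],false,1,0,[2,3,4]),
    (true,[([(0,4,[(11,15)]),(0,1,[(3,4),(2,2)])],[]),([(0,0,[(7,10)])],[4,4,3,2])],[],false,1,0,[2]),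
    (true,[([(0,4,[(11,15)])],[4,3,2]),([(0,0,[(7,10)]),(1,1,[(3,4),(2,2),(2,2)])],[])],[],false,1,0,[2]),
    (true,[([(0,4,[(11,15)])],[4,3,2]),([(0,0,[(7,10)]),(1,1,[(3,4),(2,2),(2,2),(2,2)])],[])],[],false,1,0,[]),
    (true,[([(0,4,[(11,15)])],[4,3,2]),([(0,0,[(7,10)]),(1,1,[(3,4),(3,3)])],[])],[],false,1,0,[2]),
    (true,[([(0,4,[(11,15)])],[4,3,2]),([(0,0,[(7,10)]),(1,1,[(3,4),(3,3),(2,2)])],[])],[],false,1,0,[]),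
    (true,[([(0,4,[(11,15)])],[4,4,3]),([(0,0,[(7,10)]),(0,7,[(3,4),(4,4)])],[])],[],false,1,0,[]),
    (true,[([(0,4,[(11,15)]),(0,1,[(5,6)])],[]),([(0,0,[(7,10)])],[4,4,3,2])],[],false,1,0,[2]),
    (true,[([(0,4,[(11,15)])],[4,4,3]),([(0,0,[(7,10)]),(0,7,[(5,6),(2,2)])],[])],[],false,1,0,[]),
    (true,[([(0,4,[(11,15)])],[1,1]),([(0,41,[(11,12)])],[4,4,4,3])],[],false,1,0,[2]),
    (true,[([(0,4,[(11,15)]),(0,2,[(2,2)])],[]),([(0,41,[(11,12)])],[4,4,3,3])],[],false,1,0,[]),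
    (true,[([(0,11,[(16,21)])],[1,1])],[8,7,6],false,3,6,[6,7]),
    (true,[([(0,11,[(16,21)])],[1,1]),([(0,1,[(4,6)])],[3,3,3,3,3])],[],false,1,0,[3,4]),
    (true,[([(0,11,[(16,21)]),(0,2,[(2,3)])],[]),([(0,1,[(4,6)])],[3,3,3,3,2])],[],false,1,0,[3]),
    (true,[([(0,11,[(16,21)])],[5,3]),([(0,1,[(4,6)]),(0,2,[(2,3)]),(0,2,[(2,3)])],[3])],[],false,1,0,[2]),
    (true,[([(0,11,[(16,21)])],[5,3]),([(0,1,[(4,6)]),(1,0,[(2,3),(2,2)]),(0,2,[(2,3)])],[])],[],false,1,0,[]),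
    (true,[([(0,11,[(16,21)]),(0,8,[(4,4)])],[]),([(0,1,[(4,6)])],[3,3,3,3,1])],[],false,1,0,[]),
    (false,[([(0,39,[(16,21),(7,7)])],[7])],[9],false,1,0,[]),
    (false,[([(0,24,[(22,22)])],[6,3])],[9,4],false,1,0,[])]),
  ([10,9,8,5,4,3,2,1], [
    (false,[],[10,9,8,5,4,3,2,1],false,7,3,[10,15,21,22]),
    (true,[([(0,0,[(8,10)])],[])],[8,7,6,5,3,3],false,5,5,[8,10]),
    (true,[([(0,0,[(8,10)]),(0,7,[(6,8)])],[])],[7,6,4,3,3,1],false,4,5,[6,8]),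
    (true,[([(0,0,[(8,10)]),(0,7,[(6,8)])],[]),([(0,1,[(5,6)])],[2])],[7,6,3],false,3,3,[6]),
    (false,[([(0,0,[(8,10)]),(0,7,[(6,8)])],[1]),([(0,1,[(5,6)]),(0,1,[(4,6)])],[3,3,2,2])],[1],false,1,0,[3]),
    (true,[([(0,0,[(8,10)]),(0,7,[(6,8)])],[]),([(0,1,[(5,6)]),(0,2,[(2,3)])],[1]),([(0,1,[(4,6)])],[3,3,1,1])],[],false,1,0,[2]),
    (true,[([(0,0,[(8,10)]),(0,0,[(6,8),(2,2)])],[]),([(0,1,[(5,6)]),(0,1,[(4,6)])],[3]),([(0,2,[(2,3)])],[1])],[3],false,1,0,[]),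
    (true,[([(0,0,[(8,10)]),(0,7,[(6,8)])],[]),([(0,5,[(7,8)])],[3,1,1])],[7,3,1],false,3,1,[4]),
    (true,[([(0,14,[(8,10),(4,4)])],[4,1]),([(0,7,[(6,8)]),(0,5,[(7,8)])],[4])],[3],false,1,0,[]),
    (false,[([(0,0,[(8,10)]),(0,0,[(9,10)])],[2,2])],[9,5,3,1],true,4,4,[6,7]),
    (false,[([(0,11,[(8,10),(9,10)]),(0,1,[(5,6)])],[2])],[9,4],false,2,2,[3]),
    (false,[([(0,11,[(8,10),(9,10)]),(0,1,[(5,6)])],[2]),([(0,2,[(3,3)])],[2,2,2,1,1,1,1])],[],false,1,0,[]),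
    (false,[([(0,40,[(8,10),(9,10),(7,7)])],[4,3,3])],[5],false,1,0,[]),
    (true,[([(0,4,[(11,15)])],[])],[8,7,6,3,3],false,4,6,[6,10,12]),
    (false,[([(0,4,[(11,15)]),(0,1,[(5,6)])],[2,2])],[9,5,3],false,3,3,[6]),
    (true,[([(0,4,[(11,15)])],[]),([(0,1,[(5,6)]),(0,1,[(4,6)])],[3,2])],[7,3],true,2,4,[4,5]),
    (false,[([(0,4,[(11,15)]),(0,0,[(5,6),(3,4)])],[2]),([(0,1,[(4,6)])],[3,2,1,1,1,1])],[],false,1,0,[3]),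
    (false,[([(0,4,[(11,15)]),(0,0,[(5,6),(3,4)])],[2]),([(0,1,[(4,6)]),(0,2,[(2,3)])],[3,1,1,1])],[],false,1,0,[2]),
    (false,[([(0,4,[(11,15)]),(0,0,[(5,6),(3,4)])],[2]),([(0,1,[(4,6)]),(1,0,[(2,3),(2,2)])],[1,1,1])],[],false,1,0,[]),
    (false,[([(0,4,[(11,15)]),(0,1,[(5,6)])],[2,2]),([(0,1,[(4,6)]),(0,3,[(5,5)])],[3,2,1])],[],false,1,0,[]),
    (false,[([(0,4,[(11,15)]),(0,0,[(7,10)])],[2])],[9,4,2],false,3,2,[6]),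
    (false,[([(0,4,[(11,15)]),(0,0,[(7,10)])],[2]),([(0,1,[(4,6)])],[3,2,1,1,1,1])],[],false,1,0,[3]),
    (false,[([(0,4,[(11,15)]),(0,0,[(7,10)])],[2]),([(0,1,[(4,6)]),(0,2,[(2,3)])],[3,1,1,1])],[],false,1,0,[2]),
    (false,[([(0,4,[(11,15)]),(0,0,[(7,10)])],[2]),([(0,1,[(4,6)]),(1,0,[(2,3),(2,2)])],[1,1,1])],[],false,1,0,[]),
    (false,[([(0,4,[(11,15)]),(0,41,[(11,12)])],[])],[10,3,2],false,2,1,[]),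
    (true,[([(0,11,[(16,21)])],[])],[8,7,3,3],false,3,6,[6,7]),
    (false,[([(0,11,[(16,21)]),(0,1,[(4,6)])],[2])],[9,4],false,2,3,[3,4]),
    (false,[([(0,11,[(16,21)]),(0,1,[(4,6)])],[2]),([(0,2,[(3,3)])],[2,2,2,1,1,1,1])],[],false,1,0,[2]),
    (true,[([(0,11,[(16,21)])],[2]),([(0,1,[(4,6)]),(0,3,[(3,3),(2,2)])],[3,2])],[3],false,1,0,[]),
    (false,[([(0,11,[(16,21)]),(0,1,[(4,6)])],[2]),([(0,8,[(4,4)])],[2,2,1,1,1,1,1])],[],false,1,0,[]),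
    (false,[([(0,39,[(16,21),(7,7)])],[2,2])],[10],false,1,0,[]),
    (false,[([(0,42,[(22,22)])],[5,4,3])],[8],false,1,0,[])]),
  ([10,9,8,7,4,3,2,1], [
    (false,[],[10,9,8,7,4,3,2,1],false,7,3,[10,15,21,22]),
    (true,[([(0,0,[(8,10)])],[])],[8,7,6,5,4,4],false,5,5,[8,10]),
    (false,[([(0,0,[(8,10)]),(0,7,[(6,8)])],[2,2])],[9,8,4,1],false,3,5,[5,7,8]),
    (true,[([(0,0,[(8,10)]),(0,7,[(6,8)])],[]),([(0,3,[(4,5)])],[3,3,3])],[7,4,1],true,3,3,[4,5]),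
    (true,[([(0,0,[(8,10)]),(0,0,[(4,5),(4,4)])],[]),([(0,7,[(6,8)])],[3,3,1])],[5,4],false,2,3,[3,4]),
    (false,[([(0,4,[(8,10),(4,5)]),(0,7,[(6,8)])],[2]),([(0,8,[(4,4)]),(0,2,[(3,3)])],[2,2,2,2,2])],[2],false,1,0,[2]),
    (true,[([(0,4,[(8,10),(4,5)])],[4,4]),([(0,0,[(6,8),(2,2)]),(0,16,[(4,4),(3,3)])],[])],[4],false,1,0,[]),
    (false,[([(0,4,[(8,10),(4,5)]),(0,7,[(6,8)])],[2]),([(0,8,[(4,4)]),(0,8,[(4,4)])],[2,2,2,2,1])],[2],false,1,0,[]),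
    (true,[([(0,0,[(8,10)]),(0,0,[(4,5),(5,5)])],[]),([(0,7,[(6,8)])],[3,3,1])],[5,4],false,2,2,[3]),
    (true,[([(0,0,[(8,10)]),(0,0,[(4,5),(5,5)])],[]),([(0,7,[(6,8)])],[3,3,1]),([(0,2,[(3,3)])],[2,2,2])],[],false,1,0,[]),
    (true,[([(0,0,[(8,10)]),(0,7,[(6,8)])],[]),([(0,16,[(6,7)])],[3,3,3])],[6,4],false,2,4,[4,5]),
    (true,[([(0,0,[(8,10)]),(1,1,[(3,4)])],[]),([(0,4,[(6,8),(6,7)])],[4,1])],[4],false,1,0,[3]),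
    (true,[([(0,0,[(8,10)]),(1,1,[(3,4),(2,3)])],[]),([(0,4,[(6,8),(6,7)])],[4,1])],[4],false,1,0,[2]),
    (true,[([(0,0,[(8,10)]),(1,1,[(3,4),(2,3),(2,2)])],[]),([(0,4,[(6,8),(6,7)])],[4,1])],[4],false,1,0,[]),
    (true,[([(0,0,[(8,10)]),(0,3,[(5,5)])],[]),([(0,4,[(6,8),(6,7)])],[5,4,1])],[4],false,1,0,[]),
    (false,[([(0,23,[(8,10),(8,8)]),(0,7,[(6,8)])],[])],[9,8],false,2,2,[3]),
    (true,[([(0,11,[(8,10),(8,8),(3,3)])],[1]),([(0,7,[(6,8)])],[4,4,4,2])],[],false,1,0,[]),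
    (true,[([(0,0,[(8,10)]),(0,0,[(9,10)])],[])],[7,5,4,4,3,1],false,5,1,[7]),
    (false,[([(0,0,[(8,10)]),(0,22,[(9,10),(6,7)])],[3])],[9,3,2],false,2,1,[]),
    (true,[([(0,4,[(11,15)])],[])],[8,7,6,4,4],false,4,6,[6,10,12]),
    (true,[([(0,4,[(11,15)]),(0,1,[(5,6)])],[])],[7,5,4,4,3],false,4,3,[6]),
    (true,[([(0,4,[(11,15)]),(0,1,[(5,6)])],[]),([(0,1,[(5,6)])],[3,3])],[7,4],false,2,3,[4]),
    (true,[([(0,4,[(11,15)]),(0,1,[(5,6)])],[]),([(0,0,[(5,6),(3,4)])],[4,4,1])],[4],false,1,0,[2]),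
    (false,[([(0,4,[(11,15)]),(0,1,[(5,6)])],[2]),([(0,1,[(5,6)]),(0,1,[(3,4),(2,2)])],[3,2,2,2])],[],false,1,0,[]),
    (true,[([(0,4,[(11,15)])],[]),([(0,0,[(7,10)])],[4,4,4,3])],[4],false,1,0,[2,3,4,5,6]),
    (true,[([(0,4,[(11,15)]),(0,2,[(2,2)])],[3]),([(0,0,[(7,10)])],[4,4,1])],[4],false,1,0,[2]),
    (true,[([(0,4,[(11,15)]),(1,0,[(2,2),(2,2)])],[]),([(0,0,[(7,10)])],[4,4,1])],[4],false,1,0,[2]),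
    (true,[([(0,4,[(11,15)]),(1,0,[(2,2),(2,2),(2,2)])],[]),([(0,0,[(7,10)])],[4,4,1])],[4],false,1,0,[2]),
    (true,[([(0,4,[(11,15)])],[4,1]),([(0,0,[(7,10)]),(1,1,[(2,2),(2,2),(2,2),(2,2)])],[])],[4],false,1,0,[2]),
    (true,[([(0,4,[(11,15)])],[4,1]),([(0,0,[(7,10)]),(1,1,[(2,2),(2,2),(2,2),(2,2),(2,2)])],[])],[4],false,1,0,[]),
    (true,[([(0,4,[(11,15)]),(0,2,[(3,3)])],[3]),([(0,0,[(7,10)])],[4,4,1])],[4],false,1,0,[3]),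
    (true,[([(0,4,[(11,15)]),(0,1,[(3,3),(2,3)])],[]),([(0,0,[(7,10)])],[4,4,1])],[4],false,1,0,[2,3]),
    (true,[([(0,4,[(11,15)])],[4,1]),([(0,0,[(7,10)]),(1,1,[(3,3),(2,3),(2,2)])],[])],[4],false,1,0,[2]),
    (true,[([(0,4,[(11,15)])],[4,1]),([(0,0,[(7,10)]),(1,1,[(3,3),(2,3),(2,2),(2,2)])],[])],[4],false,1,0,[]),
    (true,[([(0,4,[(11,15)])],[4,1]),([(0,0,[(7,10)]),(1,1,[(3,3),(2,3),(3,3)])],[])],[4],false,1,0,[]),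
    (true,[([(0,4,[(11,15)]),(0,8,[(4,4)])],[3]),([(0,0,[(7,10)])],[4,4])],[4],false,1,0,[3]),
    (true,[([(0,4,[(11,15)])],[4,1]),([(0,0,[(7,10)]),(1,1,[(4,4),(2,3)])],[])],[4],false,1,0,[2]),
    (true,[([(0,4,[(11,15)])],[4,1]),([(0,0,[(7,10)]),(1,1,[(4,4),(2,3),(2,2)])],[])],[4],false,1,0,[]),
    (true,[([(0,4,[(11,15)]),(0,3,[(5,5)])],[]),([(0,0,[(7,10)])],[4,4,2])],[4],false,1,0,[2]),
    (true,[([(0,4,[(11,15)])],[4,4]),([(0,0,[(7,10)]),(0,16,[(5,5),(2,2)])],[])],[4],false,1,0,[]),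
    (true,[([(0,4,[(11,15)]),(0,1,[(6,6)])],[]),([(0,0,[(7,10)])],[4,4,1])],[4],false,1,0,[]),
    (false,[([(0,4,[(11,15)]),(0,27,[(11,12)])],[3])],[8,3,2],false,2,1,[]),
    (true,[([(0,11,[(16,21)])],[])],[8,7,4,4],false,3,6,[6,7]),
    (true,[([(0,11,[(16,21)])],[]),([(0,1,[(4,6)])],[3,3,3,2,2])],[4],false,1,0,[2,3,4]),
    (true,[([(0,11,[(16,21)]),(0,2,[(2,2)])],[]),([(0,1,[(4,6)])],[3,3,3,1])],[4],false,1,0,[2]),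
    (true,[([(0,11,[(16,21)])],[1]),([(0,1,[(4,6)]),(1,0,[(2,2),(2,2)])],[3,3])],[4],false,1,0,[2]),
    (true,[([(0,11,[(16,21)])],[1]),([(0,1,[(4,6)]),(1,0,[(2,2),(2,2),(2,2)])],[3,3])],[4],false,1,0,[]),
    (true,[([(0,11,[(16,21)]),(0,2,[(3,3)])],[]),([(0,1,[(4,6)])],[3,3,3,1])],[4],false,1,0,[2]),
    (true,[([(0,11,[(16,21)])],[2]),([(0,1,[(4,6)]),(0,3,[(3,3),(2,2)])],[3,3])],[4],false,1,0,[]),
    (true,[([(0,11,[(16,21)]),(0,8,[(4,4)])],[]),([(0,1,[(4,6)])],[3,3,3])],[4],false,1,0,[]),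
    (false,[([(0,39,[(16,21),(7,7)])],[3,3])],[10],false,1,0,[]),
    (false,[([(0,24,[(22,22)])],[3,3,3])],[10,3],false,1,0,[])]),
  ([10,9,8,7,6,3,2,1], [
    (false,[],[10,9,8,7,6,3,2,1],false,7,3,[10,15,21,22]),
    (true,[([(0,0,[(8,10)])],[1])],[8,7,6,5,5,4],false,5,4,[8,10]),
    (true,[([(0,0,[(8,10)]),(0,7,[(6,8)])],[])],[7,6,5,5,4,1],false,4,5,[6,8]),
    (true,[([(0,0,[(8,10)]),(0,7,[(6,8)])],[]),([(0,1,[(5,6)])],[2,2])],[7,6,5],false,3,5,[6]),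
    (true,[([(0,0,[(8,10)]),(0,7,[(6,8)])],[]),([(0,1,[(5,6)])],[2,2]),([(0,1,[(4,6)])],[3,3,3,3])],[],false,1,0,[3]),
    (true,[([(0,0,[(8,10)]),(0,7,[(6,8)])],[]),([(0,1,[(5,6)]),(0,2,[(2,3)])],[2,2]),([(0,1,[(4,6)])],[3,3,3])],[],false,1,0,[2]),
    (true,[([(0,0,[(8,10)]),(0,0,[(6,8),(2,2)])],[]),([(0,1,[(5,6)]),(0,1,[(4,6)])],[3]),([(0,2,[(2,3)])],[1,1,1])],[5],false,1,0,[]),
    (true,[([(0,0,[(8,10)]),(0,7,[(6,8)])],[]),([(0,5,[(7,8)])],[3,3])],[7,6,1],false,3,1,[4]),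
    (true,[([(0,4,[(8,10),(4,4)])],[5,4]),([(0,7,[(6,8)]),(0,5,[(7,8)])],[1])],[5],false,1,0,[]),
    (true,[([(0,0,[(8,10)]),(0,13,[(9,10)])],[])],[7,5,5,4,3,1],false,5,1,[7]),
    (true,[([(0,0,[(8,10)]),(0,7,[(6,7)])],[]),([(0,0,[(9,10)])],[3,3])],[7,5],false,2,1,[]),
    (true,[([(0,4,[(11,15)])],[])],[8,7,6,5,5],false,4,6,[6,10,12]),
    (false,[([(0,4,[(11,15)]),(0,1,[(5,6)])],[3,3])],[9,7,3],false,3,3,[6]),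
    (true,[([(0,4,[(11,15)])],[3]),([(0,1,[(5,6)]),(0,1,[(4,6)])],[3])],[8,5],false,2,4,[4,5]),
    (false,[([(0,4,[(11,15)]),(0,0,[(5,6),(3,4)])],[3]),([(0,1,[(4,6)])],[3,2,2,2,2,1])],[],false,1,0,[3]),
    (false,[([(0,4,[(11,15)]),(0,0,[(5,6),(3,4)])],[3]),([(0,1,[(4,6)]),(0,2,[(2,3)])],[3,2,2,2])],[],false,1,0,[2]),
    (false,[([(0,4,[(11,15)]),(0,0,[(5,6),(3,4)])],[3]),([(0,1,[(4,6)]),(1,0,[(2,3),(2,2)])],[2,2,2])],[],false,1,0,[]),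
    (false,[([(0,4,[(11,15)]),(0,1,[(5,6)])],[3,3]),([(0,1,[(4,6)]),(0,1,[(5,5)])],[3,2,2])],[],false,1,0,[]),
    (false,[([(0,4,[(11,15)]),(0,0,[(7,10)])],[3])],[9,7,2],false,3,2,[6]),
    (false,[([(0,4,[(11,15)]),(0,0,[(7,10)])],[3]),([(0,1,[(4,6)])],[3,2,2,2,2,1])],[],false,1,0,[3]),
    (false,[([(0,4,[(11,15)]),(0,0,[(7,10)])],[3]),([(0,1,[(4,6)]),(0,2,[(2,3)])],[3,2,2,2])],[],false,1,0,[2]),
    (false,[([(0,4,[(11,15)]),(0,0,[(7,10)])],[3]),([(0,1,[(4,6)]),(1,0,[(2,3),(2,2)])],[2,2,2])],[],false,1,0,[]),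
    (false,[([(0,4,[(11,15)]),(0,17,[(11,12)])],[])],[9,8,1],false,2,1,[]),
    (true,[([(0,11,[(16,21)])],[])],[8,7,5,5],false,3,6,[6,7]),
    (false,[([(0,11,[(16,21)]),(0,1,[(4,6)])],[3])],[9,7],false,2,3,[3,4]),
    (false,[([(0,11,[(16,21)]),(0,1,[(4,6)])],[3]),([(0,2,[(3,3)])],[2,2,2,2,2,2,1])],[],false,1,0,[2]),
    (true,[([(0,11,[(16,21)])],[3]),([(0,1,[(4,6)]),(0,3,[(3,3),(2,2)])],[3,3])],[5],false,1,0,[]),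
    (false,[([(0,11,[(16,21)]),(0,1,[(4,6)])],[3]),([(0,8,[(4,4)])],[2,2,2,2,2,1,1])],[],false,1,0,[]),
    (false,[([(0,39,[(16,21),(7,7)])],[4,4])],[10],false,1,0,[]),
    (false,[([(0,24,[(22,22)])],[4,4,3])],[10,3],false,1,0,[])]),
  ([11,10,6,5,4,3,2,1], [
    (false,[],[11,10,6,5,4,3,2,1],false,7,3,[10,15,21,22]),
    (true,[([(0,18,[(8,10)])],[4])],[8,7,5,4,2,2],false,5,4,[8,10]),
    (false,[([(0,0,[(8,10)]),(0,7,[(6,8)])],[1,1])],[11,6,4,1],true,4,4,[6,8]),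
    (true,[([(0,0,[(8,10)]),(0,7,[(6,8)])],[]),([(0,1,[(5,6)])],[1])],[7,6,2,2],false,3,4,[6]),
    (true,[([(0,0,[(8,10)]),(0,7,[(6,8)])],[]),([(0,1,[(5,6)]),(0,1,[(4,6)])],[])],[7,2,2,1],false,3,1,[]),
    (true,[([(0,0,[(8,10)]),(0,7,[(6,8)])],[]),([(0,7,[(7,8)])],[4,2])],[7,2,1],false,3,1,[4]),
    (true,[([(0,14,[(8,10),(4,4)])],[2]),([(0,7,[(6,8)]),(0,7,[(7,8)])],[])],[7,3],false,1,0,[]),
    (true,[([(0,0,[(8,10)]),(0,0,[(9,10)])],[])],[7,5,3,2,2,2,1],false,5,1,[7]),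
    (false,[([(0,11,[(8,10),(9,10)]),(0,16,[(6,7)])],[])],[11,3],false,2,1,[]),
    (true,[([(0,4,[(11,15)])],[])],[8,7,6,2,2,2],false,4,6,[6,10,12]),
    (true,[([(0,4,[(11,15)]),(0,1,[(5,6)])],[])],[7,5,3,2,2,2],false,4,3,[6]),
    (true,[([(0,4,[(11,15)]),(0,1,[(5,6)])],[]),([(0,1,[(5,6)])],[3,1])],[7,2,2],false,2,3,[4]),
    (true,[([(0,4,[(11,15)]),(0,1,[(5,6)])],[]),([(0,0,[(5,6),(3,4)])],[4,2,1])],[2,2],false,1,0,[2]),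
    (true,[([(0,4,[(11,15)]),(0,1,[(3,4),(2,2)])],[]),([(0,12,[(5,6),(5,6)])],[5,2])],[2],false,1,0,[]),
    (true,[([(0,4,[(11,15)])],[]),([(0,0,[(7,10)])],[4,3,3,3])],[2,2],false,1,0,[4,6]),
    (true,[([(0,4,[(11,15)])],[2,1]),([(0,0,[(7,10)]),(1,1,[(2,4)])],[])],[2,2],false,1,0,[3,4]),
    (true,[([(0,4,[(11,15)])],[2,1]),([(0,0,[(7,10)]),(1,1,[(2,4),(2,3)])],[])],[2,2],false,1,0,[2,3]),
    (true,[([(0,4,[(11,15)])],[2,1]),([(0,0,[(7,10)]),(1,1,[(2,4),(2,3),(2,2)])],[])],[2,2],false,1,0,[2]),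
    (true,[([(0,4,[(11,15)]),(0,2,[(2,2)])],[]),([(0,0,[(7,10)]),(1,1,[(2,4),(2,3),(2,2)])],[])],[2,2],false,1,0,[2]),
    (true,[([(0,4,[(11,15)]),(0,2,[(2,3)])],[]),([(0,0,[(7,10)]),(1,1,[(2,4),(2,2),(2,2),(2,2)])],[])],[2,2],false,1,0,[]),
    (true,[([(0,4,[(11,15)]),(0,2,[(3,3)])],[]),([(0,0,[(7,10)]),(1,1,[(2,4),(2,3)])],[])],[2,2],false,1,0,[2]),
    (true,[([(0,4,[(11,15)]),(0,2,[(3,3)])],[]),([(0,0,[(7,10)]),(1,1,[(2,4),(2,3),(2,2)])],[])],[2,2],false,1,0,[]),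
    (true,[([(0,4,[(11,15)])],[2,1]),([(0,0,[(7,10)]),(1,1,[(2,4)])],[]),([(0,8,[(4,4)])],[])],[],false,1,0,[2]),
    (true,[([(0,4,[(11,15)])],[2,1]),([(0,0,[(7,10)]),(1,1,[(2,4),(2,2)])],[]),([(0,8,[(4,4)])],[])],[],false,1,0,[]),
    (true,[([(0,4,[(11,15)]),(0,1,[(5,6)])],[]),([(0,0,[(7,10)])],[4,2,1])],[2,2],false,1,0,[2]),
    (true,[([(0,4,[(11,15)])],[3,2]),([(0,0,[(7,10)]),(0,7,[(5,6),(2,2)])],[])],[2,2],false,1,0,[]),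
    (false,[([(0,4,[(11,15)]),(0,37,[(11,12)])],[])],[10,5],false,2,1,[]),
    (true,[([(0,11,[(16,21)])],[])],[8,7,2,2,2],false,3,6,[6,7]),
    (true,[([(0,11,[(16,21)])],[]),([(0,1,[(4,6)])],[3,2,2,2,2])],[2,2],false,1,0,[3,4]),
    (true,[([(0,11,[(16,21)]),(0,2,[(2,3)])],[]),([(0,1,[(4,6)])],[3,2,2,1])],[2,2],false,1,0,[3]),
    (true,[([(0,11,[(16,21)]),(0,2,[(2,3)])],[]),([(0,1,[(4,6)]),(0,2,[(2,3)])],[3,2])],[2,2],false,1,0,[2]),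
    (true,[([(0,11,[(16,21)]),(0,2,[(2,3)])],[]),([(0,1,[(4,6)]),(1,0,[(2,3),(2,2)])],[2])],[2,2],false,1,0,[]),
    (true,[([(0,11,[(16,21)]),(0,8,[(4,4)])],[]),([(0,1,[(4,6)])],[3,2,2])],[2,2],false,1,0,[]),
    (false,[([(0,39,[(16,21),(7,7)])],[1,1,1])],[11],false,1,0,[]),
    (false,[([(0,42,[(22,22)])],[5,4,3,2])],[6],false,1,0,[])]),
  ([14,7,6,5,4,3,2,1], [
    (false,[],[14,7,6,5,4,3,2,1],false,7,3,[10,15,21,22]),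
    (true,[([(0,18,[(8,10)])],[])],[8,7,6,4,3,1,1,1,1],false,6,3,[10]),
    (false,[([(0,0,[(8,10)]),(0,0,[(7,10)])],[1,1,1,1,1,1])],[7,5,3,1],true,4,2,[6,9]),
    (false,[([(0,18,[(8,10)]),(0,0,[(7,10)]),(0,1,[(5,6)])],[1,1])],[6,5,3],false,3,3,[5]),
    (true,[([(0,18,[(8,10)]),(0,1,[(5,6)])],[]),([(0,0,[(7,10)]),(0,1,[(4,5)])],[])],[6,1,1,1,1],false,2,1,[]),
    (true,[([(0,18,[(8,10)])],[2,1]),([(0,0,[(7,10)]),(0,0,[(7,9)])],[])],[5,1,1,1,1],false,2,2,[3]),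
    (true,[([(0,0,[(8,10)]),(0,0,[(7,10)])],[]),([(0,12,[(7,9),(3,3)])],[3,2])],[1,1,1,1,1],false,1,0,[]),
    (true,[([(0,4,[(11,15)])],[])],[8,7,6,1,1,1,1,1,1],false,4,6,[6,10,12]),
    (true,[([(0,4,[(11,15)]),(0,1,[(5,6)])],[])],[7,5,3,1,1,1,1,1,1],false,4,3,[6]),
    (false,[([(0,4,[(11,15)]),(0,12,[(5,6),(5,6)])],[1,1,1,1])],[6,4,1],false,3,1,[4]),
    (false,[([(0,4,[(11,15)]),(0,12,[(5,6),(5,6)])],[1,1,1,1]),([(0,8,[(4,4)])],[2,2,1,1])],[1],false,1,0,[]),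
    (false,[([(0,4,[(11,15)]),(0,0,[(7,10)])],[1,1,1,1,1])],[6,4,2],false,3,2,[6]),
    (false,[([(0,4,[(11,15)]),(0,0,[(7,10)])],[1,1,1,1,1]),([(0,1,[(4,6)])],[3,2,1])],[],false,1,0,[3]),
    (false,[([(0,4,[(11,15)]),(0,0,[(7,10)])],[1,1,1,1,1]),([(0,1,[(4,6)]),(0,2,[(2,3)])],[3])],[],false,1,0,[2]),
    (false,[([(0,4,[(11,15)]),(0,0,[(7,10)])],[1,1,1,1,1]),([(0,1,[(4,6)]),(1,0,[(2,3),(2,2)])],[])],[],false,1,0,[]),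
    (false,[([(0,4,[(11,15)]),(0,37,[(11,12)])],[1,1,1])],[7,5],false,2,1,[]),
    (true,[([(0,11,[(16,21)])],[])],[8,7,1,1,1,1,1,1],false,3,6,[6,7]),
    (false,[([(0,11,[(16,21)]),(0,1,[(4,6)])],[1,1,1,1,1])],[6,4],false,2,3,[3,4]),
    (false,[([(0,11,[(16,21)]),(0,1,[(4,6)])],[1,1,1,1,1]),([(0,2,[(3,3)])],[2,2,2,1])],[],false,1,0,[2]),
    (false,[([(0,11,[(16,21)]),(0,1,[(4,6)])],[1,1,1,1,1]),([(0,2,[(3,3)]),(0,2,[(2,2)])],[2,2])],[],false,1,0,[]),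
    (false,[([(0,11,[(16,21)]),(0,1,[(4,6)])],[1,1,1,1,1]),([(0,8,[(4,4)])],[2,2,1,1])],[],false,1,0,[]),
    (false,[([(0,39,[(16,21),(7,7)])],[])],[14],false,1,0,[]),
    (false,[([(0,24,[(22,22)])],[3])],[14,3],false,1,0,[])])]

theorem cj8d_0_ok : runAllJ S41 R41 F41 21 cj8d_0 = true := by decide +kernel

/-- the minors -/
def G8d : List (List ℕ) := [
  [1,1,1,1,1,1,1,1,7,1,1,1,1,1,1,1], [1,1,1,1,1,1,1,7,1,1,1,1,1,1,1,1],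
  [1,1,1,1,1,1,1,1,1,4,1,1,1,1,1,1], [1,1,1,1,1,1,4,1,1,1,1,1,1,1,1,1],
  [1,1,1,1,1,1,1,1,1,1,3,1,1,1,1,1], [1,1,1,1,1,3,1,1,1,1,1,1,1,1,1,1],
  [1,1,1,1,1,1,1,1,1,1,1,3,1,1,1,1], [1,1,1,1,3,1,1,1,1,1,1,1,1,1,1,1],
  [1,1,1,1,1,1,1,1,1,1,1,1,3,1,1,1], [1,1,1,3,1,1,1,1,1,1,1,1,1,1,1,1],
  [1,1,1,1,1,1,1,1,1,1,1,1,1,2,1,1], [1,1,2,1,1,1,1,1,1,1,1,1,1,1,1,1],
  [1,1,1,1,1,1,1,1,1,1,1,1,1,1,2,1], [1,2,1,1,1,1,1,1,1,1,1,1,1,1,1,1],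
  [1,1,1,1,1,1,1,1,1,1,1,1,1,1,1,2], [2,1,1,1,1,1,1,1,1,1,1,1,1,1,1,1]]

noncomputable def T8d : BT :=
  .split 0 2 (.split 1 2 (.split 2 2 (.split 3 3 (.split 4 3 (.split 5 3 (.split 6 4 (.split 7 7
  (.split 8 7 (.split 9 4 (.split 10 3 (.split 11 3 (.split 12 3 (.split 13 2 (.split 14 2
  (.split 15 2 .small (.minor 14)) (.minor 12)) (.minor 10)) (.minor 8)) (.minor 6)) (.minor 4))
  (.minor 2)) (.minor 0)) (.minor 1)) (.minor 3)) (.minor 5)) (.minor 7)) (.minor 9)) (.minor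
  11)) (.minor 13)) (.minor 15)

noncomputable def Rt8d : List (List ℕ) :=
  cj8d_0.map Prod.fst

theorem Rt8d_ok : ∀ M ∈ Rt8d, KG (M : Multiset ℕ) 21 := by
  intro M h
  unfold Rt8d at h
  exact kg_of_allJ S41_ok R41_ok F41_ok cj8d_0_ok M h

def ks8d : List ℕ := [
  14, 15, 12, 13, 6, 7, 8, 9, 10, 11, 0, 1, 2, 3, 4, 5]

theorem min8d_ok : minC 8 Rt8d G8d ks8d = true := by decide +kernel

theorem T8d_ok : btC 8 91 G8d T8d (List.replicate (2 * 8) 1)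
    (List.replicate (2 * 8) 0) = true := by decide +kernel

theorem kg8d {M : Multiset ℕ} (hM : ∀ s ∈ M, 1 ≤ s)
    (hc : M.dedup.card = 8) (hn : 91 ≤ M.sum) : KG M 21 :=
  coverC ks8d T8d Rt8d_ok min8d_ok T8d_ok hM hc hn

end Pool.MP322
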