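import Pool.Agent.Lib.MP_322c5f_al.SG36b

/-! (C), part 32: seven distinct column heights, depth 21. -/

set_option autoImplicit false

namespace Pool.MP322

/-- self-conjugate blocks -/
def S42 : List (List ℕ × List ℕ) := [
  ([3,3,2],[0,2,6]), ([3,2,1],[1,2,3]), ([6,5,4,3,2,1],[1,2,3,4,5,6]), ([2,1],[1,2]),
  ([5,4,3,2,1],[1,2,3,4,5]), ([4,2,1,1],[2,2,0,4]), ([4,3,2,1],[1,2,3,4]), ([3,1,1],[2,0,3]),
  ([4,3,3,1],[1,0,6,4]), ([2,2],[0,4]), ([7,6,5,4,3,2,1],[1,2,3,4,5,6,7]),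
  ([5,4,4,3,1],[1,0,3,8,5]), ([5,4,2,2,1],[1,4,0,4,5]), ([4,4,2,2],[0,4,0,8]),
  ([6,5,3,2,2,1],[1,4,3,0,5,6]), ([5,5,4,3,2],[0,2,3,4,10]), ([6,5,4,4,2,1],[1,2,0,8,5,6]),
  ([6,5,5,4,3,1],[1,0,3,4,10,6]), ([6,6,5,3,3,2],[0,2,6,0,5,12]), ([5,5,3,2,2],[0,4,3,0,10]),
  ([5,2,1,1,1],[3,2,0,0,5]), ([4,4,3,2],[0,2,3,8]), ([5,3,2,1,1],[2,2,3,0,5]),
  ([5,3,3,1,1],[2,0,6,0,5]), ([3,3,3],[0,0,9]), ([6,4,3,2,1,1],[2,2,3,4,0,6]),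
  ([6,6,5,4,3,2],[0,2,3,4,5,12]), ([7,6,4,3,2,2,1],[1,4,3,4,0,6,7]), ([4,1,1,1],[3,0,0,4]),
  ([7,6,5,3,3,2,1],[1,2,6,0,5,6,7]), ([7,5,4,4,2,1,1],[2,2,0,8,5,0,7]),
  ([5,5,5,4,3],[0,0,3,4,15]), ([7,6,2,2,2,2,1],[1,8,0,0,0,6,7]), ([6,4,4,3,1,1],[2,0,3,8,0,6]),
  ([6,5,2,2,2,1],[1,6,0,0,5,6]), ([5,1,1,1,1],[4,0,0,0,5]), ([7,6,3,2,2,2,1],[1,6,3,0,0,6,7]),
  ([7,3,2,1,1,1,1],[4,2,3,0,0,0,7]), ([6,1,1,1,1,1],[5,0,0,0,0,6]), ([6,2,1,1,1,1],[4,2,0,0,0,6]),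
  ([6,3,2,1,1,1],[3,2,3,0,0,6]), ([7,4,3,2,1,1,1],[3,2,3,4,0,0,7]),
  ([7,4,4,4,1,1,1],[3,0,0,12,0,0,7]), ([8,2,1,1,1,1,1,1],[6,2,0,0,0,0,0,8]),
  ([6,3,3,1,1,1],[3,0,6,0,0,6]), ([8,3,2,1,1,1,1,1],[5,2,3,0,0,0,0,8]),
  ([7,2,1,1,1,1,1],[5,2,0,0,0,0,7]), ([7,5,4,3,2,1,1],[2,2,3,4,5,0,7]),
  ([11,2,1,1,1,1,1,1,1,1,1],[9,2,0,0,0,0,0,0,0,0,11]), ([6,4,2,2,1,1],[2,4,0,4,0,6])]

theorem S42_ok : okS S42 = true := by decide +kernel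

/-- direct blocks -/
def R42 : List (List ℕ × List ℕ) := [
  ([4,3,2,1],[4,3,2,1]), ([3,2,1],[3,2,1]), ([7,6,5,4,3,2,1],[7,6,5,4,3,2,1]),
  ([5,4,3,2,1],[5,4,3,2,1])]

theorem R42_ok : okR R42 = true := by decide +kernel

def F42 : List (List ℕ × List ℕ) := []

theorem F42_ok : ∀ p ∈ F42, CC (p.1 : Multiset ℕ) (p.2 : Multiset ℕ) := by
  intro p hp
  simp [F42] at hp

noncomputable def cj7f_0 : List (List ℕ × List NdJ) := [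
  ([8,8,7,6,5,4,3,1], [
    (false,[],[8,8,7,6,5,4,3,1],false,6,4,[8,11,14,17,22]),
    (true,[([(0,0,[(7,8)])],[1,1,1,1])],[8,7,6,5,4],false,5,4,[6,8]),
    (false,[([(0,0,[(7,8)]),(0,1,[(6,6)])],[2,2])],[8,6,5,4,1],true,5,2,[6]),
    (false,[([(0,2,[(7,8),(6,6),(6,6)])],[5,1])],[8,7],false,2,5,[3,6]),
    (false,[([(0,2,[(7,8),(6,6),(6,6)])],[5,1]),([(0,3,[(3,3)])],[2,2,2,2,2,2])],[],false,1,0,[3]),
    (false,[([(0,2,[(7,8),(6,6),(6,6)])],[5,2]),([(0,3,[(3,3)]),(0,3,[(2,3)])],[2,2,2,2])],[],false,1,0,[3]),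
    (false,[([(0,2,[(7,8),(6,6),(6,6)])],[5,3]),([(0,3,[(3,3)]),(0,3,[(2,3)]),(0,3,[(2,3)])],[2,2])],[],false,1,0,[2]),
    (false,[([(0,2,[(7,8),(6,6),(6,6)])],[5,4]),([(0,3,[(3,3)]),(0,3,[(2,3)]),(0,3,[(2,3)]),(0,3,[(2,2)])],[])],[],false,1,0,[]),
    (false,[([(0,0,[(7,8)]),(0,1,[(6,6)])],[1]),([(0,1,[(6,6)]),(0,1,[(4,6)])],[3,3])],[8,1],true,2,2,[3]),
    (false,[([(0,0,[(7,8)]),(0,1,[(4,6)])],[1,1]),([(0,4,[(6,6),(6,6),(3,3)])],[4,4,3])],[],false,1,0,[]),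
    (false,[([(0,0,[(7,8)]),(0,0,[(7,8)])],[2,1])],[8,6,5,3,1],true,5,2,[8]),
    (false,[([(0,0,[(7,8)]),(0,0,[(7,8)])],[1]),([(0,5,[(6,8)])],[3,3,2,1])],[8],false,1,0,[3,5]),
    (false,[([(0,0,[(7,8)]),(0,0,[(7,8)]),(0,3,[(2,3)])],[]),([(0,5,[(6,8)])],[3,3,2,1])],[6],false,1,0,[3]),
    (true,[([(0,0,[(7,8)]),(0,0,[(7,8)])],[1]),([(0,5,[(6,8)]),(1,0,[(2,3),(2,3)])],[])],[7],false,1,0,[3]),
    (true,[([(0,0,[(7,8)]),(0,0,[(7,8)])],[1]),([(0,5,[(6,8)]),(1,0,[(2,3),(2,3),(2,3)])],[])],[7],false,1,0,[2]),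
    (true,[([(0,0,[(7,8)]),(0,0,[(7,8)])],[3]),([(0,6,[(6,8),(2,2)]),(1,0,[(2,3),(2,3),(2,3)])],[])],[3],false,1,0,[]),
    (false,[([(0,0,[(7,8)]),(0,0,[(7,8)])],[3,1]),([(0,5,[(6,8)]),(0,7,[(4,5)])],[3])],[6],false,1,0,[2]),
    (true,[([(0,6,[(7,8),(2,2)]),(0,5,[(6,8)])],[]),([(0,0,[(7,8)]),(0,1,[(4,5)])],[3])],[7],false,1,0,[]),
    (false,[([(0,8,[(9,11)])],[2,1,1,1])],[8,7,6,5],false,4,5,[5,6,8,10,11]),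
    (false,[([(0,8,[(9,11)]),(0,7,[(5,5)])],[2])],[8,7,6,3],false,4,3,[5]),
    (true,[([(0,8,[(9,11)]),(0,6,[(5,5),(5,5)])],[])],[7,7,4,3],false,3,3,[4,5]),
    (true,[([(0,8,[(9,11)]),(0,6,[(5,5),(5,5)])],[]),([(0,9,[(4,4)])],[2,1,1,1,1])],[7,4],false,2,2,[3]),
    (false,[([(0,10,[(9,11),(5,5),(5,5),(4,4),(3,3)])],[6])],[8],false,1,0,[]),
    (true,[([(0,8,[(9,11)]),(0,6,[(5,5),(5,5)])],[]),([(0,7,[(5,5)])],[3,3,2,1])],[7],false,1,0,[2]),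
    (false,[([(0,10,[(9,11),(5,5),(5,5),(5,5),(2,2)])],[6])],[8],false,1,0,[]),
    (false,[([(0,8,[(9,11)]),(0,1,[(6,6)])],[1])],[8,7,6,3],false,4,3,[6]),
    (false,[([(0,11,[(9,11),(6,6)]),(0,1,[(5,6)])],[])],[8,7,4],false,3,4,[5]),
    (false,[([(0,11,[(9,11),(6,6)]),(0,1,[(5,6)])],[]),([(0,1,[(4,5)])],[3,3,3,2,2])],[],false,1,0,[2]),
    (false,[([(0,8,[(9,11)]),(0,0,[(6,6),(2,2)])],[]),([(0,1,[(5,6)]),(0,7,[(4,5)])],[3,1])],[8],false,1,0,[]),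
    (false,[([(0,8,[(9,11)]),(0,0,[(7,8)])],[1])],[8,7,4,3],false,4,3,[6,8]),
    (true,[([(0,8,[(9,11)]),(0,5,[(7,8)])],[]),([(0,1,[(5,6)])],[3,3,2,2])],[7],false,1,0,[3,4]),
    (false,[([(0,8,[(9,11)]),(0,0,[(7,8)])],[2]),([(0,1,[(5,6)]),(0,3,[(2,3)])],[3,3,2])],[4],false,1,0,[2,3]),
    (true,[([(0,8,[(9,11)]),(0,5,[(5,6),(2,2)])],[]),([(0,0,[(7,8)]),(0,3,[(2,3)])],[3,2])],[7],false,1,0,[2]),
    (false,[([(0,4,[(9,11),(2,2),(2,2)]),(0,3,[(2,3)])],[4]),([(0,0,[(7,8)]),(0,1,[(5,6)])],[3,3])],[],false,1,0,[]),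
    (false,[([(0,12,[(9,11),(3,3)])],[4,4,3]),([(0,0,[(7,8)]),(0,1,[(5,6)]),(0,3,[(2,3)])],[])],[],false,1,0,[]),
    (false,[([(0,4,[(9,11),(4,4)])],[4,2,1]),([(0,0,[(7,8)]),(0,1,[(5,6)])],[3,3])],[],false,1,0,[]),
    (true,[([(0,8,[(9,11)]),(0,5,[(7,8)])],[]),([(0,0,[(7,8)])],[3,2,2,1])],[7],false,1,0,[2]),
    (true,[([(0,8,[(9,11)]),(0,6,[(7,8),(2,2)])],[]),([(0,0,[(7,8)])],[3,1,1,1])],[7],false,1,0,[]),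
    (true,[([(0,8,[(9,11)]),(0,6,[(9,10)])],[])],[7,7,4,3],false,3,3,[5,6]),
    (true,[([(0,8,[(9,11)]),(0,6,[(9,10)])],[]),([(0,7,[(4,5)])],[3,3,2,1])],[7],false,1,0,[3]),
    (true,[([(0,8,[(9,11)]),(0,6,[(9,10)])],[]),([(0,7,[(4,5)]),(0,3,[(2,3)])],[3,3])],[7],false,1,0,[2]),
    (true,[([(0,8,[(9,11)]),(0,6,[(9,10)])],[]),([(0,7,[(4,5)]),(1,1,[(2,3),(2,2)])],[3])],[7],false,1,0,[]),
    (false,[([(0,10,[(9,11),(9,10),(6,6)])],[6])],[8],false,1,0,[]),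
    (false,[([(0,8,[(9,11)]),(0,13,[(11,11)])],[])],[8,6,4,1],false,4,1,[]),
    (false,[([(0,12,[(12,14)])],[4,3,1])],[8,7,5],false,3,5,[5,6,8,10,11]),
    (false,[([(0,14,[(12,14),(4,5)])],[5,4])],[8,6],false,1,0,[2,3,4,5]),
    (false,[([(0,2,[(12,14),(4,5),(2,2)])],[5,1])],[8,7],false,2,6,[]),
    (false,[([(0,11,[(12,14),(3,3)]),(0,1,[(4,5)])],[])],[8,7,4],false,3,4,[]),
    (false,[([(0,14,[(12,14),(4,5)])],[5,4]),([(0,9,[(4,4)])],[2,2,2,2,1,1])],[],false,1,0,[3,4]),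
    (false,[([(0,14,[(12,14),(4,5)])],[5,4]),([(0,9,[(4,4)]),(0,3,[(2,3)])],[2,2,2,1])],[],false,1,0,[2,3]),
    (false,[([(0,2,[(12,14),(4,5),(2,2)])],[5,1]),([(0,9,[(4,4)]),(0,3,[(2,3)])],[2,2,2,2])],[],false,1,0,[2]),
    (false,[([(0,2,[(12,14),(4,5),(2,2)])],[5,2]),([(0,9,[(4,4)]),(0,3,[(2,3)]),(0,3,[(2,2)])],[2,2])],[],false,1,0,[2]),
    (false,[([(0,2,[(12,14),(4,5),(2,2)])],[5,3]),([(0,9,[(4,4)]),(0,3,[(2,3)]),(0,3,[(2,2)]),(0,3,[(2,2)])],[])],[],false,1,0,[]),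
    (false,[([(0,14,[(12,14),(4,5)])],[5,4]),([(0,9,[(4,4)]),(0,3,[(2,3)]),(0,3,[(3,3)])],[2,2])],[],false,1,0,[2]),
    (false,[([(0,2,[(12,14),(4,5),(2,2)])],[5,2]),([(0,9,[(4,4)]),(0,3,[(2,3)]),(0,3,[(3,3)])],[2,2])],[],false,1,0,[]),
    (false,[([(0,14,[(12,14),(4,5)])],[5,4]),([(0,9,[(4,4)]),(0,9,[(4,4)])],[2,2,1,1])],[],false,1,0,[2]),
    (false,[([(0,2,[(12,14),(4,5),(2,2)])],[5]),([(0,9,[(4,4)]),(0,9,[(4,4)])],[2,2,2,2])],[],false,1,0,[]),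
    (true,[([(0,15,[(12,14),(5,5)]),(0,1,[(4,5)])],[])],[7,6,4],false,3,3,[4]),
    (false,[([(0,10,[(12,14),(4,5),(5,5),(4,4)])],[6])],[8],false,1,0,[]),
    (false,[([(0,2,[(12,14),(6,6)])],[5,1])],[8,7],false,2,5,[3,6]),
    (false,[([(0,11,[(12,14),(3,3)]),(0,1,[(6,6)])],[])],[8,7,4],false,3,3,[]),
    (false,[([(0,12,[(12,14)])],[4,3,3]),([(0,1,[(6,6)]),(0,1,[(4,6)])],[3,3])],[],false,1,0,[2,3]),
    (false,[([(0,12,[(12,14)])],[4,3,1]),([(0,0,[(6,6),(2,2)]),(0,1,[(4,6)])],[3,3])],[],false,1,0,[2]),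
    (false,[([(0,12,[(12,14)])],[4,4,3]),([(0,0,[(6,6),(2,2)]),(0,1,[(4,6)]),(0,3,[(2,2)])],[])],[],false,1,0,[]),
    (false,[([(0,11,[(12,14),(3,3)]),(0,1,[(6,6)])],[]),([(0,1,[(4,6)])],[3,3,3,2,2])],[],false,1,0,[]),
    (false,[([(0,16,[(12,14),(7,8)])],[5,3])],[8,4],false,2,4,[3,5]),
    (false,[([(0,11,[(12,14),(3,3)]),(0,0,[(7,8)])],[])],[8,5,4],false,3,2,[]),
    (false,[([(0,12,[(12,14)])],[4,3,2]),([(0,0,[(7,8)]),(0,7,[(4,5)])],[3,3])],[],false,1,0,[2]),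
    (false,[([(0,12,[(12,14)])],[4,4,3]),([(0,0,[(7,8)]),(0,1,[(4,5)]),(0,3,[(2,2)])],[])],[],false,1,0,[]),
    (false,[([(0,17,[(12,14),(9,10)])],[2,1])],[8,7],false,2,2,[3]),
    (false,[([(0,10,[(12,14),(9,10),(3,3)])],[6])],[8],false,1,0,[]),
    (false,[([(0,18,[(12,14),(11,11)])],[6,4])],[6,1],false,1,0,[]),
    (true,[([(0,19,[(15,17)])],[4,1])],[8,7,5],false,3,5,[6,8]),
    (false,[([(0,11,[(15,17)]),(0,1,[(4,6)])],[])],[8,7,4],false,3,4,[5]),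
    (true,[([(0,19,[(15,17)])],[4,3]),([(0,1,[(4,6)]),(0,1,[(4,5)])],[3,3])],[],false,1,0,[2]),
    (true,[([(0,15,[(15,17),(2,2)]),(0,1,[(4,6)])],[]),([(0,1,[(4,5)])],[3,3,3,2])],[],false,1,0,[]),
    (false,[([(0,11,[(15,17)]),(0,0,[(7,8)])],[])],[8,5,4],false,2,1,[]),
    (false,[([(0,16,[(18,22)])],[5,3])],[8,4],false,2,4,[3,4,5]),
    (false,[([(0,16,[(18,22)])],[5,3]),([(0,3,[(3,3)])],[2,2,2,1,1,1])],[],false,1,0,[3]),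
    (false,[([(0,16,[(18,22)])],[5,3]),([(0,3,[(3,3)]),(0,3,[(2,3)])],[2,2,1,1])],[],false,1,0,[2]),
    (false,[([(0,16,[(18,22)])],[5,3]),([(0,3,[(3,3)]),(0,3,[(2,3)]),(0,3,[(2,2)])],[2,1])],[],false,1,0,[]),
    (false,[([(0,16,[(18,22)])],[5,3]),([(0,9,[(4,4)])],[2,2,1,1,1,1])],[],false,1,0,[2]),
    (false,[([(0,10,[(18,22),(4,4),(2,2)])],[6])],[8],false,1,0,[]),
    (false,[([(0,10,[(18,22),(5,5)])],[6])],[8],false,1,0,[])]),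
  ([9,7,6,6,5,4,3,2], [
    (false,[],[9,7,6,6,5,4,3,2],false,6,4,[10,13,17,22]),
    (false,[([(0,6,[(7,10)])],[4])],[9,7,6,6],false,1,0,[3,5,6,8,10]),
    (false,[([(0,6,[(7,10)]),(0,3,[(2,3)])],[4])],[9,6,6,4],false,1,0,[3]),
    (true,[([(0,6,[(7,10)]),(0,3,[(2,3)]),(0,3,[(2,3)])],[])],[8,7,6,4,1],false,3,8,[]),
    (true,[([(0,6,[(7,10)]),(0,7,[(4,5)])],[3])],[8,7,6,2,1],false,3,8,[4,5]),
    (false,[([(0,6,[(7,10)]),(0,6,[(4,5),(4,4)])],[1])],[7,6,5,3],false,4,3,[]),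
    (false,[([(0,6,[(7,10)]),(0,6,[(4,5),(5,5)])],[1])],[7,6,5,3],false,4,3,[5]),
    (true,[([(0,6,[(7,10)]),(0,6,[(4,5),(5,5)])],[]),([(0,7,[(5,5)])],[1,1])],[8,7],false,2,4,[3,4,5]),
    (true,[([(0,6,[(7,10)]),(0,6,[(4,5),(5,5)])],[]),([(0,7,[(5,5)]),(0,3,[(3,3)])],[2,2,2])],[7,1],true,2,2,[3]),
    (true,[([(0,4,[(7,10),(5,5)]),(0,1,[(3,3),(3,3)])],[]),([(0,6,[(4,5),(5,5)])],[3,3,3,2])],[],false,1,0,[]),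
    (true,[([(0,4,[(7,10),(5,5)]),(0,9,[(4,4)])],[3]),([(0,6,[(4,5),(5,5)])],[3,3,3,1])],[],false,1,0,[2]),
    (true,[([(0,4,[(7,10),(5,5)]),(0,1,[(4,4),(2,2)])],[]),([(0,6,[(4,5),(5,5)])],[3,3,3,2])],[],false,1,0,[]),
    (true,[([(0,4,[(7,10),(5,5)]),(0,7,[(5,5)])],[]),([(0,6,[(4,5),(5,5)])],[3,3,3,3])],[],false,1,0,[]),
    (false,[([(0,6,[(7,10)]),(0,1,[(6,6)])],[4,1])],[7,6,5,3],false,4,3,[6]),
    (true,[([(0,6,[(7,10)]),(0,1,[(6,6)])],[3]),([(0,1,[(5,6)])],[1,1])],[8,7],false,2,6,[3,6]),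
    (true,[([(0,6,[(7,10)]),(0,1,[(6,6)])],[3]),([(0,1,[(5,6)]),(0,3,[(3,3)])],[2,2])],[8,2],true,2,4,[3]),
    (true,[([(0,6,[(7,10)]),(0,6,[(6,6),(3,3)])],[]),([(0,1,[(5,6)]),(0,3,[(3,3)])],[2,2])],[8,1],true,2,2,[3]),
    (true,[([(0,6,[(7,10)]),(0,1,[(3,3),(3,3)])],[3]),([(0,4,[(6,6),(5,6),(3,3)])],[3,3,2])],[],false,1,0,[]),
    (false,[([(0,6,[(7,10)]),(0,1,[(6,6)])],[4,1]),([(0,1,[(5,6)]),(0,1,[(4,6)])],[3])],[6],false,1,0,[2,4]),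
    (true,[([(0,6,[(7,10)]),(0,0,[(6,6),(2,2)])],[]),([(0,1,[(5,6)]),(0,1,[(4,6)])],[2,1])],[8,1],true,2,2,[]),
    (false,[([(0,6,[(7,10)]),(0,6,[(6,6),(3,4)])],[1]),([(0,1,[(5,6)]),(0,1,[(4,6)])],[3])],[6],false,1,0,[2]),
    (true,[([(0,6,[(7,10)]),(0,0,[(6,6),(2,2)])],[3]),([(0,6,[(5,6),(3,4)]),(0,1,[(4,6)])],[3])],[2],false,1,0,[]),
    (true,[([(0,6,[(7,10)]),(0,0,[(7,8)])],[2])],[8,6,5,2,1],true,5,2,[8]),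
    (true,[([(0,6,[(7,10)]),(0,0,[(7,8)])],[]),([(0,5,[(6,8)])],[3,2,2,1])],[8],false,1,0,[3,5]),
    (true,[([(0,6,[(7,10)]),(0,0,[(7,8)])],[]),([(0,5,[(6,8)]),(0,3,[(2,3)])],[3,2])],[8],false,1,0,[3]),
    (true,[([(0,6,[(7,10)]),(0,0,[(7,8)])],[4]),([(0,5,[(6,8)]),(0,3,[(2,3)]),(0,3,[(2,3)])],[])],[6],false,1,0,[2,3]),
    (true,[([(0,6,[(7,10)]),(0,0,[(7,8)])],[3]),([(0,6,[(6,8),(2,2)]),(1,0,[(2,3),(2,3)])],[])],[1],false,1,0,[2]),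
    (true,[([(0,6,[(7,10)]),(0,0,[(7,8)])],[3]),([(0,6,[(6,8),(2,2)]),(1,0,[(2,3),(2,3),(2,2)])],[])],[1],false,1,0,[]),
    (true,[([(0,6,[(7,10)]),(0,8,[(7,8),(3,3)])],[]),([(0,5,[(6,8)]),(0,3,[(2,3)]),(0,3,[(2,3)])],[])],[7],false,1,0,[]),
    (true,[([(0,6,[(7,10)]),(0,0,[(7,8)])],[3]),([(0,5,[(6,8)]),(0,7,[(4,5)])],[2])],[6],false,1,0,[2]),
    (true,[([(0,6,[(7,10)]),(0,0,[(7,8)])],[3]),([(0,6,[(6,8),(2,2)]),(0,1,[(4,5)])],[3])],[2],false,1,0,[]),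
    (false,[([(0,6,[(7,10)]),(0,6,[(9,10)])],[1])],[7,6,5,3],false,4,3,[6,8]),
    (true,[([(0,6,[(7,10)])],[4,4,4,4]),([(0,20,[(9,10)]),(0,1,[(5,6)])],[])],[],false,1,0,[3,4]),
    (true,[([(0,6,[(7,10)]),(0,6,[(9,10)])],[]),([(0,1,[(5,6)]),(0,3,[(2,3)])],[2,2])],[8,1],true,2,2,[3]),
    (false,[([(0,6,[(7,10)]),(0,21,[(9,10),(3,3)])],[1]),([(0,1,[(5,6)]),(0,3,[(2,3)])],[3])],[6],false,1,0,[]),
    (true,[([(0,6,[(7,10)]),(0,1,[(5,6)])],[3]),([(0,12,[(9,10),(4,4)])],[3,3,3])],[],false,1,0,[]),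
    (true,[([(0,6,[(7,10)]),(0,6,[(9,10)])],[]),([(0,5,[(7,8)])],[2,2,2])],[8],false,1,0,[2]),
    (true,[([(0,6,[(7,10)]),(0,0,[(7,8)])],[2]),([(0,22,[(9,10),(2,2)])],[4,3,3])],[],false,1,0,[]),
    (false,[([(0,21,[(11,13)])],[1,1])],[9,7,6,5],false,4,5,[6,10,12]),
    (true,[([(0,23,[(11,13)]),(0,1,[(5,6)])],[])],[8,7,6,2],false,4,2,[6]),
    (true,[([(0,14,[(11,13),(5,6)])],[4,4]),([(0,1,[(5,6)])],[2,2,2,2,1])],[],false,1,0,[4]),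
    (true,[([(0,21,[(11,13)]),(0,1,[(5,6)])],[3]),([(0,1,[(5,6)]),(1,0,[(2,4)])],[3])],[1],false,1,0,[3]),
    (true,[([(0,21,[(11,13)]),(0,1,[(5,6)])],[3]),([(0,1,[(5,6)]),(1,0,[(2,4),(2,3)])],[3])],[1],false,1,0,[2]),
    (true,[([(0,21,[(11,13)]),(0,1,[(5,6)])],[3]),([(0,1,[(5,6)]),(1,0,[(2,4),(2,3),(2,2)])],[3])],[1],false,1,0,[]),
    (false,[([(0,21,[(11,13)]),(0,6,[(7,10)])],[1])],[6,6,4,2],false,3,2,[6]),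
    (true,[([(0,23,[(11,13)]),(0,1,[(4,6)])],[]),([(0,6,[(7,10)])],[4,3,3,3])],[],false,1,0,[3]),
    (false,[([(0,21,[(11,13)]),(0,6,[(7,10)])],[1]),([(0,1,[(4,6)]),(0,3,[(2,3)])],[3])],[6],false,1,0,[2]),
    (false,[([(0,21,[(11,13)]),(0,6,[(7,10)])],[1]),([(0,1,[(4,6)]),(1,1,[(2,3),(2,2)])],[])],[6],false,1,0,[]),
    (true,[([(0,21,[(11,13)]),(0,13,[(11,12)])],[])],[7,6,2,1,1],false,2,1,[]),
    (true,[([(0,11,[(14,17)])],[4,2,2])],[8,6,2,1],true,4,2,[6,9]),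
    (false,[([(0,11,[(14,17)]),(0,1,[(5,6)])],[5])],[6,5,3],false,3,3,[5]),
    (false,[([(0,11,[(14,17)]),(0,1,[(5,6)])],[5]),([(0,1,[(4,5)])],[3,3,2])],[],false,1,0,[2]),
    (true,[([(0,11,[(14,17)])],[4,4,2]),([(0,5,[(5,6),(2,2)]),(0,7,[(4,5)])],[2])],[],false,1,0,[]),
    (true,[([(0,11,[(14,17)])],[4,2,1]),([(0,6,[(7,9)])],[2,2,2,2])],[],false,1,0,[3]),
    (true,[([(0,11,[(14,17)]),(0,3,[(2,3)])],[4]),([(0,6,[(7,9)])],[2,2,2,2])],[],false,1,0,[2]),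
    (true,[([(0,11,[(14,17)])],[4,3,2]),([(0,6,[(7,9)]),(0,3,[(2,3)]),(0,3,[(2,2)])],[])],[],false,1,0,[]),
    (true,[([(0,16,[(18,22)])],[3,2])],[8,6,1],true,3,2,[5]),
    (true,[([(0,16,[(18,22)])],[3,2]),([(0,7,[(4,5)])],[2,2,2,2,2])],[],false,1,0,[2]),
    (true,[([(0,16,[(18,22)])],[3,3]),([(0,7,[(4,5)]),(0,3,[(2,2)])],[2,2,2])],[],false,1,0,[])]),
  ([9,8,7,6,5,4,3], [
    (false,[],[9,8,7,6,5,4,3],false,7,3,[10,13,17,22]),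
    (true,[([(0,6,[(8,10)])],[1,1,1])],[7,7,6,5,4],false,4,4,[5,6,8,9,10]),
    (true,[([(0,4,[(8,10),(5,5)])],[1,1])],[7,7,6,5],false,3,5,[4,5]),
    (true,[([(0,4,[(8,10),(5,5)]),(0,9,[(4,4)])],[])],[7,7,5,4],false,3,4,[4]),
    (true,[([(0,6,[(8,10)]),(0,7,[(5,5)])],[]),([(0,9,[(4,4)]),(0,9,[(4,4)])],[2,1,1])],[7,6,2],false,3,2,[4]),
    (true,[([(0,4,[(8,10),(5,5)]),(0,9,[(4,4)])],[]),([(0,9,[(4,4)]),(0,9,[(4,4)])],[1,1,1])],[7,5],false,2,1,[]),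
    (false,[([(0,6,[(8,10)]),(0,6,[(5,5),(5,5)])],[4])],[8,6,4],false,3,4,[4,5]),
    (true,[([(0,6,[(8,10)]),(0,7,[(5,5)])],[]),([(0,7,[(5,5)]),(0,9,[(4,4)])],[3,2])],[7,6],false,2,3,[3,4]),
    (true,[([(0,2,[(8,10),(5,5),(5,5)])],[1]),([(0,9,[(4,4)]),(0,3,[(3,3)])],[2,2,2])],[7],false,1,0,[2]),
    (true,[([(0,2,[(8,10),(5,5),(5,5)])],[2]),([(0,9,[(4,4)]),(0,3,[(3,3)]),(0,3,[(2,2)])],[2])],[7],false,1,0,[]),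
    (false,[([(0,10,[(8,10),(5,5),(5,5),(4,4),(4,4)])],[7,7])],[],false,1,0,[]),
    (true,[([(0,6,[(8,10)]),(0,7,[(5,5)])],[]),([(0,1,[(5,5)]),(0,1,[(5,5)])],[2])],[7,6],false,2,2,[3]),
    (false,[([(0,10,[(8,10),(5,5),(5,5),(5,5),(3,3)])],[7,7])],[],false,1,0,[]),
    (false,[([(0,6,[(8,10)]),(0,1,[(6,6)])],[4,4])],[8,6,4],false,3,4,[5,6]),
    (false,[([(0,6,[(8,10)]),(0,8,[(6,6),(4,5)])],[4])],[8,5,4],false,3,4,[5]),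
    (true,[([(0,6,[(8,10)]),(0,1,[(6,6)])],[]),([(0,7,[(4,5)]),(0,1,[(4,5)])],[2])],[7,6],false,2,3,[3,4]),
    (false,[([(0,6,[(8,10)]),(0,8,[(6,6),(4,5)])],[4]),([(0,7,[(4,5)]),(0,3,[(3,3)])],[3,3,3])],[],false,1,0,[2]),
    (true,[([(0,4,[(8,10),(4,5)]),(0,3,[(3,3)])],[]),([(0,0,[(6,6),(2,2)]),(0,1,[(4,5)])],[3])],[7],false,1,0,[]),
    (false,[([(0,6,[(8,10)]),(0,8,[(6,6),(4,5)])],[4]),([(0,7,[(4,5)]),(0,1,[(4,4)])],[3,3])],[],false,1,0,[]),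
    (true,[([(0,16,[(8,10),(6,6),(6,6)])],[3])],[7,7,3],true,2,4,[3,5]),
    (true,[([(0,6,[(8,10)]),(0,1,[(6,6)])],[]),([(0,1,[(6,6)]),(0,3,[(3,3)])],[3,1])],[7,6],false,2,2,[3]),
    (false,[([(0,10,[(8,10),(6,6),(6,6),(3,3),(3,3)])],[7,7])],[],false,1,0,[]),
    (true,[([(0,6,[(8,10)]),(0,1,[(6,6)])],[]),([(0,1,[(6,6)]),(0,7,[(4,5)])],[2])],[7,6],false,2,1,[]),
    (true,[([(0,6,[(8,10)]),(0,0,[(7,8)])],[])],[7,7,5,3,2],false,4,2,[6,8]),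
    (true,[([(0,6,[(8,10)]),(0,0,[(7,8)])],[]),([(0,1,[(5,6)])],[3,1,1,1])],[7,5],false,2,4,[4,5]),
    (true,[([(0,6,[(8,10)]),(0,0,[(7,8)])],[]),([(0,6,[(5,6),(3,4)])],[4,2,1])],[7],false,1,0,[2,3]),
    (true,[([(0,6,[(8,10)]),(0,0,[(7,8)])],[]),([(0,1,[(5,6)]),(0,1,[(3,4),(2,2)])],[2])],[7,3],false,2,1,[]),
    (true,[([(0,6,[(8,10)]),(0,0,[(7,8)])],[]),([(0,6,[(5,6),(3,4)]),(0,3,[(3,3)])],[4])],[7],false,1,0,[]),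
    (true,[([(0,2,[(8,10),(5,6),(5,5)])],[1]),([(0,0,[(7,8)])],[3,3,3,3])],[],false,1,0,[]),
    (true,[([(0,6,[(8,10)]),(0,0,[(7,8)])],[]),([(0,0,[(7,8)])],[1,1,1,1])],[7,5],false,2,2,[3]),
    (true,[([(0,2,[(8,10),(7,8),(3,3)])],[1]),([(0,0,[(7,8)])],[3,3,3,3])],[],false,1,0,[]),
    (true,[([(0,6,[(8,10)]),(0,24,[(9,9)])],[])],[7,7,4,3,2],false,4,2,[6,7]),
    (true,[([(0,6,[(8,10)]),(0,24,[(9,9)])],[]),([(0,1,[(5,6)])],[3,1,1,1])],[7,4],false,2,2,[3]),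
    (false,[([(0,10,[(8,10),(9,9),(5,6),(3,3)])],[7,7])],[],false,1,0,[]),
    (false,[([(0,10,[(8,10),(9,9),(7,7)])],[7,7])],[],false,1,0,[]),
    (false,[([(0,6,[(8,10)]),(0,6,[(10,10)])],[4])],[8,6,4],false,3,4,[6]),
    (false,[([(0,6,[(8,10)]),(0,6,[(10,10)])],[4]),([(0,1,[(4,6)])],[3,3,3,2,1])],[],false,1,0,[3]),
    (false,[([(0,6,[(8,10)]),(0,21,[(10,10),(2,3)])],[]),([(0,1,[(4,6)])],[3,3,3,2,1,1])],[],false,1,0,[2]),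
    (false,[([(0,6,[(8,10)]),(0,21,[(10,10),(2,3)])],[]),([(0,1,[(4,6)]),(0,3,[(2,2)])],[3,3,3,1])],[],false,1,0,[]),
    (true,[([(0,21,[(11,13)])],[2,2,1])],[7,7,5,4,1],true,4,3,[6,10,12]),
    (true,[([(0,21,[(11,13)]),(0,1,[(5,6)])],[])],[7,7,5,3,1],true,4,4,[6]),
    (true,[([(0,21,[(11,13)]),(0,1,[(5,6)])],[]),([(0,1,[(5,6)])],[2,1,1,1])],[7,5],false,2,3,[4]),
    (false,[([(0,21,[(11,13)]),(0,6,[(5,6),(3,4)])],[]),([(0,1,[(5,6)])],[3,3,3,2,1,1])],[],false,1,0,[2]),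
    (false,[([(0,21,[(11,13)]),(0,6,[(5,6),(3,4)])],[]),([(0,1,[(5,6)]),(0,3,[(2,2)])],[3,3,3,1])],[],false,1,0,[]),
    (false,[([(0,21,[(11,13)]),(0,6,[(7,10)])],[])],[9,6,4],false,3,4,[6]),
    (false,[([(0,21,[(11,13)]),(0,6,[(7,10)])],[]),([(0,1,[(4,6)])],[3,3,3,2,1,1])],[],false,1,0,[3]),
    (false,[([(0,21,[(11,13)]),(0,6,[(7,10)])],[]),([(0,1,[(4,6)]),(0,3,[(2,3)])],[3,3,3,1])],[],false,1,0,[2]),
    (false,[([(0,21,[(11,13)]),(0,6,[(7,10)])],[]),([(0,1,[(4,6)]),(1,1,[(2,3),(2,2)])],[3,3,1])],[],false,1,0,[]),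
    (false,[([(0,21,[(11,13)]),(0,13,[(11,12)])],[1])],[7,6,3],false,2,1,[]),
    (true,[([(0,11,[(14,17)])],[2,2])],[7,7,5,2],true,3,4,[4,5,6,8,9]),
    (true,[([(0,11,[(14,17)]),(0,9,[(4,4)])],[])],[7,7,5,2],false,3,2,[4]),
    (true,[([(0,11,[(14,17)]),(0,9,[(4,4)])],[]),([(0,9,[(4,4)])],[1,1,1,1,1])],[7,5],false,2,2,[3]),
    (false,[([(0,10,[(14,17),(4,4),(4,4),(3,3)])],[7,7])],[],false,1,0,[]),
    (true,[([(0,16,[(14,17),(5,5)])],[3])],[7,7,3],true,2,4,[3,4,5]),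
    (true,[([(0,16,[(14,17),(5,5)])],[3]),([(0,3,[(3,3)])],[2,2,1,1,1])],[7],false,1,0,[3]),
    (true,[([(0,16,[(14,17),(5,5)])],[3]),([(0,3,[(3,3)]),(0,3,[(2,3)])],[2,1,1])],[7],false,1,0,[2]),
    (true,[([(0,16,[(14,17),(5,5)])],[3]),([(0,3,[(3,3)]),(0,3,[(2,3)]),(0,3,[(2,2)])],[1])],[7],false,1,0,[]),
    (true,[([(0,16,[(14,17),(5,5)])],[3]),([(0,9,[(4,4)])],[2,1,1,1,1])],[7],false,1,0,[2]),
    (false,[([(0,10,[(14,17),(5,5),(4,4),(2,2)])],[7,7])],[],false,1,0,[]),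
    (false,[([(0,10,[(14,17),(5,5),(5,5)])],[7,7])],[],false,1,0,[]),
    (true,[([(0,11,[(14,17)])],[2,1]),([(0,1,[(6,6)])],[3,2,2,2])],[7],false,1,0,[3,4]),
    (true,[([(0,11,[(14,17)]),(0,3,[(2,3)])],[]),([(0,1,[(6,6)])],[3,2,2,2])],[7],false,1,0,[2,3]),
    (true,[([(0,11,[(14,17)]),(0,3,[(2,3)])],[]),([(0,0,[(6,6),(2,2)])],[2,2,2,1])],[7],false,1,0,[2]),
    (true,[([(0,11,[(14,17)]),(0,3,[(2,3)])],[]),([(0,0,[(6,6),(2,2)]),(0,3,[(2,2)])],[2,2])],[7],false,1,0,[]),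
    (true,[([(0,11,[(14,17)])],[2,2]),([(0,1,[(6,6)]),(0,1,[(2,3),(3,3)])],[2])],[7],false,1,0,[]),
    (false,[([(0,10,[(14,17),(6,6),(4,4)])],[7,7])],[],false,1,0,[]),
    (true,[([(0,25,[(14,17)])],[5]),([(0,0,[(7,8)])],[3,3,3,3])],[],false,1,0,[3]),
    (true,[([(0,11,[(14,17)]),(0,3,[(2,3)])],[]),([(0,0,[(7,8)])],[2,2,2,1])],[7],false,1,0,[2]),
    (true,[([(0,11,[(14,17)]),(0,3,[(2,3)])],[]),([(0,0,[(7,8)]),(0,3,[(2,2)])],[2,2])],[7],false,1,0,[]),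
    (false,[([(0,26,[(14,17),(9,9)])],[6,1])],[9],false,1,0,[]),
    (true,[([(0,16,[(18,22)])],[3])],[7,7,3],true,2,4,[3,4,5]),
    (true,[([(0,16,[(18,22)])],[3]),([(0,3,[(3,3)])],[2,2,1,1,1])],[7],false,1,0,[3]),
    (true,[([(0,16,[(18,22)])],[3]),([(0,3,[(3,3)]),(0,3,[(2,3)])],[2,1,1])],[7],false,1,0,[2]),
    (true,[([(0,16,[(18,22)])],[3]),([(0,3,[(3,3)]),(0,3,[(2,3)]),(0,3,[(2,2)])],[1])],[7],false,1,0,[]),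
    (true,[([(0,16,[(18,22)])],[3]),([(0,9,[(4,4)])],[2,1,1,1,1])],[7],false,1,0,[2]),
    (false,[([(0,10,[(18,22),(4,4),(2,2)])],[7,7])],[],false,1,0,[]),
    (false,[([(0,10,[(18,22),(5,5)])],[7,7])],[],false,1,0,[])]),
  ([9,8,7,6,5,4,4,1], [
    (false,[],[9,8,7,6,5,4,4,1],false,6,6,[8,11,14,17,22]),
    (true,[([(0,0,[(7,8)])],[1,1,1,1])],[8,7,7,5,4,1],false,4,5,[6,8]),
    (false,[([(0,0,[(7,8)]),(0,1,[(5,6)])],[3,1])],[9,7,5,4,1],true,5,2,[6]),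
    (false,[([(0,0,[(7,8)]),(0,1,[(5,6)]),(0,1,[(6,6)])],[])],[8,6,5,4,1],false,5,1,[6]),
    (false,[([(0,12,[(7,8),(5,6)])],[4,4,1]),([(0,1,[(6,6)]),(0,1,[(6,6)])],[3,3,3])],[],false,1,0,[2]),
    (false,[([(0,10,[(7,8),(5,6),(6,6),(6,6),(2,2)])],[6,6])],[4],false,1,0,[]),
    (true,[([(0,0,[(7,8)]),(0,0,[(7,8)])],[2])],[8,7,5,3,2,1],false,6,1,[8]),
    (true,[([(0,0,[(7,8)]),(0,0,[(7,8)])],[2]),([(0,0,[(7,8)])],[1,1])],[8,7,1],false,3,1,[4]),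
    (false,[([(0,10,[(7,8),(7,8),(7,8),(4,4)])],[6,6])],[4],false,1,0,[]),
    (false,[([(0,8,[(9,11)])],[3])],[9,8,7,6],false,4,6,[5,6,8,10,11]),
    (false,[([(0,8,[(9,11)]),(0,7,[(5,5)])],[])],[9,8,6,5],false,4,5,[5]),
    (false,[([(0,2,[(9,11),(5,5),(5,5)])],[5,5])],[9,4],true,2,5,[3,5]),
    (true,[([(0,8,[(9,11)]),(0,3,[(3,3)])],[3]),([(0,7,[(5,5)]),(0,7,[(5,5)])],[2])],[8,7],false,2,3,[3]),
    (false,[([(0,2,[(9,11),(5,5),(5,5)])],[5,5]),([(0,3,[(3,3)]),(0,3,[(3,3)])],[2,2,1,1,1])],[],false,1,0,[2]),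
    (false,[([(0,2,[(9,11),(5,5),(5,5)])],[5,5]),([(0,3,[(3,3)]),(0,3,[(3,3)]),(0,3,[(2,2)])],[2,1,1])],[],false,1,0,[]),
    (true,[([(0,8,[(9,11)]),(0,1,[(4,5)])],[]),([(0,7,[(5,5)]),(0,7,[(5,5)])],[2])],[8,7],false,2,2,[3]),
    (true,[([(0,8,[(9,11)])],[4,4,4,3]),([(0,4,[(5,5),(5,5),(4,5)]),(0,3,[(3,3)])],[])],[],false,1,0,[]),
    (true,[([(0,11,[(9,11),(6,6)])],[3,3,3])],[7,5,4,2],false,4,2,[6]),
    (false,[([(0,11,[(9,11),(6,6)]),(0,1,[(5,6)])],[4])],[8,5,4],false,3,4,[5]),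
    (true,[([(0,8,[(9,11)]),(0,1,[(6,6)])],[]),([(0,1,[(5,6)]),(0,7,[(4,5)])],[1])],[8,7],false,2,1,[]),
    (true,[([(0,8,[(9,11)]),(0,0,[(7,8)])],[2])],[7,7,4,3,2],false,4,2,[6,8]),
    (true,[([(0,8,[(9,11)]),(0,0,[(7,8)])],[2]),([(0,1,[(5,6)])],[3,1,1,1])],[7,4],false,2,3,[4]),
    (true,[([(0,4,[(9,11),(3,4)]),(0,0,[(7,8)])],[]),([(0,1,[(5,6)])],[3,3,1,1])],[7],false,1,0,[2]),
    (false,[([(0,4,[(9,11),(3,4)]),(0,3,[(2,2)])],[4,4]),([(0,0,[(7,8)]),(0,1,[(5,6)])],[3,1])],[],false,1,0,[]),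
    (true,[([(0,8,[(9,11)]),(0,5,[(7,8)])],[]),([(0,0,[(7,8)])],[3,2,2,2])],[7,1],false,2,1,[]),
    (false,[([(0,2,[(9,11),(9,10)])],[5,5])],[9,4],true,2,5,[3,4,6]),
    (false,[([(0,8,[(9,11)]),(0,21,[(9,10),(3,3)])],[4])],[6,5,4,1],false,3,3,[]),
    (true,[([(0,2,[(9,11),(9,10)]),(0,9,[(4,4)])],[])],[7,7,5],false,2,2,[3]),
    (false,[([(0,10,[(9,11),(9,10),(4,4),(3,3)])],[6,6])],[4],false,1,0,[]),
    (false,[([(0,8,[(9,11)]),(0,1,[(5,6)])],[]),([(0,6,[(9,10)])],[4,4,4,3,2])],[],false,1,0,[2]),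
    (false,[([(0,8,[(9,11)]),(0,1,[(5,6)]),(0,3,[(2,2)])],[]),([(0,6,[(9,10)])],[4,4,4,2])],[],false,1,0,[]),
    (false,[([(0,8,[(9,11)]),(0,13,[(11,11)])],[4])],[7,5,4,1],false,4,1,[]),
    (false,[([(0,12,[(12,14)])],[4,4])],[9,8,5],false,3,5,[5,6,8,10,11]),
    (true,[([(0,14,[(12,14),(4,5)])],[4,4])],[7,7,3],true,2,7,[3,4,5]),
    (false,[([(0,11,[(12,14),(3,3)]),(0,1,[(4,5)])],[4])],[8,5,4],false,3,4,[]),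
    (true,[([(0,12,[(12,14)]),(0,7,[(4,5)])],[]),([(0,9,[(4,4)])],[2,2,2,2,2])],[7,4],false,2,4,[3,4]),
    (false,[([(0,11,[(12,14),(3,3)]),(0,6,[(4,5),(4,4)])],[])],[8,5,4],false,3,2,[]),
    (true,[([(0,12,[(12,14)]),(0,7,[(4,5)])],[]),([(0,9,[(4,4)]),(0,9,[(4,4)])],[2,2,2])],[7,4],false,2,1,[]),
    (true,[([(0,15,[(12,14),(5,5)]),(0,1,[(4,5)])],[])],[7,7,4,1],false,3,1,[4]),
    (false,[([(0,10,[(12,14),(4,5),(5,5),(4,4)])],[6,6])],[4],false,1,0,[]),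
    (false,[([(0,2,[(12,14),(6,6)])],[5,5])],[9,4],true,2,5,[3,6]),
    (false,[([(0,11,[(12,14),(3,3)]),(0,1,[(6,6)])],[4])],[8,5,4],false,3,3,[]),
    (false,[([(0,12,[(12,14)])],[4,4,1]),([(0,1,[(6,6)]),(0,1,[(4,6)])],[3,3,3])],[],false,1,0,[3]),
    (false,[([(0,4,[(12,14)]),(0,3,[(2,3)])],[4,4]),([(0,1,[(6,6)]),(0,1,[(4,6)])],[3,3])],[],false,1,0,[2]),
    (true,[([(0,12,[(12,14)]),(0,0,[(6,6),(2,2)])],[]),([(0,1,[(4,6)]),(0,3,[(2,3)])],[3,3])],[7],false,1,0,[]),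
    (true,[([(0,12,[(12,14)]),(0,0,[(7,8)])],[])],[7,7,5,3],false,3,3,[5]),
    (true,[([(0,14,[(12,14),(4,5)])],[4,2]),([(0,0,[(7,8)])],[3,3,3,2])],[],false,1,0,[2]),
    (true,[([(0,2,[(12,14),(4,5),(2,2)])],[2,2]),([(0,0,[(7,8)])],[3,3,3,2])],[],false,1,0,[]),
    (true,[([(0,17,[(12,14),(9,10)])],[3,3])],[7,5,2],false,3,2,[]),
    (false,[([(0,27,[(12,14),(11,11)])],[6,6])],[7],false,1,0,[]),
    (true,[([(0,11,[(15,17)])],[3,3,3])],[7,5,4,2],false,4,2,[6,8]),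
    (false,[([(0,11,[(15,17)]),(0,1,[(5,6)])],[4])],[8,5,4],false,3,3,[4]),
    (false,[([(0,10,[(15,17),(5,6),(4,4)])],[6,6])],[4],false,1,0,[]),
    (false,[([(0,11,[(15,17)]),(0,5,[(7,8)])],[])],[8,7,4],false,2,1,[]),
    (false,[([(0,16,[(18,22)])],[5,5,3])],[5,4],false,2,4,[3,4,5]),
    (false,[([(0,27,[(18,22),(3,3)])],[6,6])],[7],false,1,0,[3]),
    (true,[([(0,16,[(18,22)])],[3,2]),([(0,3,[(3,3)]),(0,3,[(2,3)])],[2,1,1])],[7],false,1,0,[2]),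
    (true,[([(0,16,[(18,22)])],[3,2]),([(0,3,[(3,3)]),(0,3,[(2,3)]),(0,3,[(2,2)])],[1])],[7],false,1,0,[]),
    (false,[([(0,16,[(18,22)])],[5,5,3]),([(0,9,[(4,4)])],[2,2,1])],[],false,1,0,[2]),
    (false,[([(0,10,[(18,22),(4,4),(2,2)])],[6,6])],[4],false,1,0,[]),
    (false,[([(0,10,[(18,22),(5,5)])],[6,6])],[4],false,1,0,[])])]

theorem cj7f_0_ok : runAllJ S42 R42 F42 21 cj7f_0 = true := by decide +kernel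

noncomputable def cj7f_1 : List (List ℕ × List NdJ) := [
  ([9,8,7,6,5,5,2,1], [
    (false,[],[9,8,7,6,5,5,2,1],false,5,8,[7,10,13,17,22]),
    (false,[([(0,28,[(6,7)])],[3,2,2,2])],[9,7,6,5],false,1,0,[3,4,5,6,7]),
    (true,[([(0,6,[(6,7),(2,3)])],[])],[8,7,6,6,6],false,3,7,[]),
    (false,[([(0,28,[(6,7)]),(0,9,[(4,4)])],[3,2])],[9,7,6,5],false,4,5,[]),
    (false,[([(0,28,[(6,7)]),(0,1,[(5,5)])],[2,2])],[8,7,6,5],false,4,5,[5]),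
    (true,[([(0,28,[(6,7)]),(0,6,[(5,5),(5,5)])],[])],[7,6,6,6,1],false,2,8,[4,5]),
    (true,[([(0,2,[(6,7),(5,5),(5,5),(3,4)])],[2])],[8,6,6],false,2,6,[3,4]),
    (true,[([(0,2,[(6,7),(5,5),(5,5),(3,4)]),(0,3,[(3,3)])],[])],[7,6,6],false,2,4,[3]),
    (false,[([(1,2,[(6,7),(5,5),(5,5),(3,4),(3,3),(3,3)])],[5,5])],[5],false,1,0,[3]),
    (false,[([(0,2,[(6,7),(5,5),(5,5),(3,4)])],[4,4]),([(0,3,[(3,3)]),(0,3,[(3,3)]),(0,3,[(2,3)])],[2,2,1])],[],false,1,0,[2]),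
    (false,[([(0,2,[(6,7),(5,5),(5,5),(3,4)])],[4,4]),([(0,3,[(3,3)]),(0,3,[(3,3)]),(0,3,[(2,3)]),(0,3,[(2,2)])],[2])],[],false,1,0,[]),
    (false,[([(1,2,[(6,7),(5,5),(5,5),(3,4),(4,4)])],[5,5])],[5],false,1,0,[3,4]),
    (true,[([(1,2,[(6,7),(5,5),(5,5),(3,4),(2,3)])],[3]),([(0,9,[(4,4)])],[2,2,2,2])],[],false,1,0,[3]),
    (true,[([(1,2,[(6,7),(5,5),(5,5),(3,4),(2,3),(2,3)])],[3]),([(0,9,[(4,4)])],[2,2,2,2])],[],false,1,0,[2]),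
    (false,[([(0,2,[(6,7),(5,5),(5,5),(3,4)])],[4,4]),([(0,9,[(4,4)]),(0,3,[(2,3)]),(0,3,[(2,3)]),(0,3,[(2,2)])],[1])],[],false,1,0,[]),
    (true,[([(1,2,[(6,7),(5,5),(5,5),(3,4),(4,4)])],[3]),([(0,9,[(4,4)])],[2,2,2,2])],[],false,1,0,[]),
    (false,[([(1,2,[(6,7),(5,5),(5,5),(5,5)])],[5,5])],[5],false,1,0,[2,3,4,5]),
    (true,[([(0,6,[(6,7),(2,2)]),(0,6,[(5,5),(5,5)])],[]),([(0,7,[(5,5)])],[2,2,1])],[7,6],false,2,3,[]),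
    (true,[([(0,6,[(6,7),(3,3)]),(0,6,[(5,5),(5,5)])],[]),([(0,7,[(5,5)])],[2,2,1])],[7,6],false,2,2,[3]),
    (false,[([(0,4,[(6,7),(5,5),(3,3)])],[4,4,4]),([(0,7,[(5,5)]),(0,1,[(5,5)]),(0,3,[(3,3)])],[2])],[],false,1,0,[]),
    (true,[([(1,2,[(6,7),(5,5),(5,5),(5,5)])],[3]),([(0,9,[(4,4)])],[2,2,2,2])],[],false,1,0,[2]),
    (true,[([(1,2,[(6,7),(5,5),(5,5),(5,5),(2,2)])],[3]),([(0,9,[(4,4)])],[2,2,2,2])],[],false,1,0,[]),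
    (false,[([(0,5,[(6,7)])],[3,3,3,3]),([(0,6,[(5,5),(5,5)]),(0,6,[(5,5),(5,5)])],[3])],[],false,1,0,[]),
    (false,[([(0,28,[(6,7)]),(0,1,[(6,6)])],[2,2])],[8,7,6,5],false,4,5,[6]),
    (false,[([(0,23,[(6,7),(6,6)]),(0,1,[(5,6)])],[4])],[8,7,5],false,3,5,[4,6]),
    (false,[([(0,23,[(6,7),(6,6)]),(0,6,[(5,6),(4,4)])],[])],[8,7,5],false,3,4,[4]),
    (true,[([(0,12,[(6,7),(6,6)]),(0,1,[(5,6)])],[]),([(0,9,[(4,4)]),(0,9,[(4,4)])],[1,1])],[7,6],false,2,1,[]),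
    (false,[([(0,23,[(6,7),(6,6)]),(0,1,[(5,6)])],[4]),([(0,1,[(5,6)])],[3,3,3,3,2])],[],false,1,0,[2,3,4]),
    (true,[([(0,6,[(6,7),(2,2)]),(0,1,[(6,6)])],[2]),([(0,1,[(5,6)]),(0,1,[(5,6)])],[])],[7,6],false,2,2,[]),
    (true,[([(0,6,[(6,7),(3,3)]),(0,1,[(6,6)])],[2]),([(0,1,[(5,6)]),(0,1,[(5,6)])],[])],[7,6],false,2,1,[]),
    (false,[([(0,23,[(6,7),(6,6)]),(0,6,[(5,6),(4,4)])],[]),([(0,1,[(5,6)])],[3,3,3,3,2])],[],false,1,0,[]),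
    (false,[([(0,12,[(6,7),(7,7)])],[3,3,3])],[9,6,5],false,3,5,[4,6,7]),
    (false,[([(0,8,[(6,7),(4,4)]),(0,0,[(7,7)])],[])],[9,8,5,2],false,4,2,[]),
    (true,[([(0,12,[(6,7),(7,7)]),(0,1,[(5,6)])],[])],[7,6,6,4],false,3,4,[6]),
    (true,[([(0,5,[(6,7)]),(0,0,[(7,7)])],[2]),([(0,1,[(5,6)]),(0,1,[(4,6)])],[])],[7,6],false,2,3,[3,4]),
    (true,[([(0,6,[(6,7),(3,3)]),(0,0,[(7,7)])],[]),([(0,1,[(5,6)]),(0,1,[(4,6)])],[2,2])],[6,3],false,2,1,[]),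
    (false,[([(0,12,[(6,7),(7,7)])],[4,4,4]),([(0,1,[(5,6)]),(0,1,[(4,6)]),(0,9,[(4,4)])],[1])],[],false,1,0,[]),
    (false,[([(0,12,[(6,7),(7,7)]),(0,0,[(7,7)])],[3])],[7,6,5],false,3,4,[5]),
    (true,[([(0,28,[(6,7)]),(0,7,[(4,5)])],[2]),([(0,0,[(7,7)]),(0,0,[(7,7)])],[])],[7,6],false,2,1,[]),
    (false,[([(0,6,[(8,10)])],[2,2])],[9,8,7,5],false,4,5,[6,10]),
    (false,[([(0,6,[(8,10)]),(0,1,[(5,6)])],[3,3])],[8,6,5,2],false,3,6,[5,6]),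
    (false,[([(0,4,[(8,10),(4,5)]),(0,1,[(5,6)])],[3])],[8,6,5],false,3,5,[4,5]),
    (true,[([(0,4,[(8,10),(4,5)]),(0,1,[(5,6)])],[]),([(0,9,[(4,4)])],[2,1,1,1])],[7,6],false,2,4,[3,4]),
    (true,[([(0,4,[(8,10),(4,5)]),(0,1,[(5,6)])],[]),([(0,9,[(4,4)]),(0,3,[(3,3)])],[1,1])],[7,6],false,2,2,[3]),
    (true,[([(0,4,[(8,10),(4,5)]),(0,1,[(5,6)])],[]),([(0,9,[(4,4)]),(0,1,[(3,3),(3,3)])],[3,3])],[6],false,1,0,[]),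
    (true,[([(0,4,[(8,10),(4,5)]),(0,1,[(5,6)])],[]),([(0,9,[(4,4)]),(0,9,[(4,4)])],[2,2])],[7,3],false,2,1,[]),
    (true,[([(0,6,[(8,10)]),(0,6,[(4,5),(5,5)])],[]),([(0,1,[(5,6)])],[2,1,1])],[7,6],false,2,3,[3,4]),
    (true,[([(0,6,[(8,10)]),(0,6,[(4,5),(5,5)])],[]),([(0,1,[(5,6)]),(0,3,[(3,3)])],[1])],[7,6],false,2,1,[]),
    (true,[([(0,4,[(8,10),(4,5)]),(0,1,[(5,6)])],[]),([(0,1,[(5,5)]),(0,9,[(4,4)])],[3,3])],[6],false,1,0,[]),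
    (true,[([(0,6,[(8,10)]),(0,1,[(5,6)])],[2]),([(0,1,[(6,6)])],[3,2,1])],[7,6],false,2,5,[4,6]),
    (true,[([(0,6,[(8,10)]),(0,6,[(5,6),(3,4)])],[]),([(0,1,[(6,6)])],[2,1,1])],[7,6],false,2,3,[3,4]),
    (true,[([(0,6,[(8,10)]),(0,6,[(5,6),(3,4)])],[]),([(0,1,[(6,6)]),(0,3,[(3,3)])],[1])],[7,6],false,2,1,[]),
    (false,[([(0,6,[(8,10)]),(0,6,[(5,6),(3,4)])],[3]),([(0,6,[(6,6),(4,4)])],[3,3,3,1])],[],false,1,0,[]),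
    (true,[([(0,6,[(8,10)]),(0,1,[(5,6)])],[2]),([(0,1,[(6,6)]),(0,1,[(5,6)])],[])],[7,6],false,2,1,[]),
    (false,[([(0,6,[(8,10)]),(0,6,[(7,10)])],[3])],[8,6,5,1],false,3,6,[4,5,6,8,9]),
    (true,[([(0,6,[(8,10)]),(0,6,[(7,10)])],[]),([(0,9,[(4,4)])],[2,2,2,2])],[7,3,1],true,3,3,[4]),
    (true,[([(0,6,[(8,10)]),(0,6,[(7,10)])],[]),([(0,9,[(4,4)]),(0,9,[(4,4)])],[2,2])],[7,3,1],false,3,1,[]),
    (true,[([(0,6,[(8,10)]),(0,6,[(7,10)])],[]),([(0,7,[(5,5)])],[2,2,1])],[7,6],false,2,4,[3,4,5]),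
    (true,[([(0,6,[(8,10)]),(0,6,[(7,10)])],[]),([(0,7,[(5,5)]),(0,3,[(3,3)])],[2])],[7,6],false,2,2,[3]),
    (true,[([(0,6,[(8,10)]),(0,6,[(7,10)])],[]),([(0,7,[(5,5)]),(0,3,[(3,3)]),(0,3,[(3,3)])],[])],[6,6],false,1,0,[]),
    (true,[([(0,6,[(8,10)]),(0,6,[(7,10)])],[]),([(0,7,[(5,5)]),(0,9,[(4,4)])],[1])],[7,6],false,2,1,[]),
    (false,[([(0,6,[(8,10)]),(0,6,[(7,10)])],[3]),([(0,6,[(5,5),(5,5)])],[3,3,3,1])],[],false,1,0,[]),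
    (true,[([(0,6,[(8,10)]),(0,6,[(7,10)])],[]),([(0,1,[(6,6)])],[2,1,1])],[7,6],false,2,3,[3,4]),
    (true,[([(0,6,[(8,10)]),(0,6,[(7,10)])],[]),([(0,1,[(6,6)]),(0,3,[(3,3)])],[1])],[7,6],false,2,1,[]),
    (false,[([(0,6,[(8,10)]),(0,6,[(7,10)])],[3]),([(0,6,[(6,6),(4,4)])],[3,3,3,1])],[],false,1,0,[]),
    (true,[([(0,6,[(8,10)]),(0,6,[(7,10)])],[]),([(0,0,[(7,8)])],[3,2,2])],[7,1],true,2,2,[3]),
    (false,[([(0,6,[(8,10)]),(0,6,[(7,10)])],[3]),([(0,8,[(7,8),(3,3)])],[3,3,2,1])],[],false,1,0,[]),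
    (false,[([(0,6,[(8,10)]),(0,6,[(7,10)])],[3]),([(0,24,[(9,9)])],[3,3,2,1,1])],[1],false,1,0,[]),
    (true,[([(0,21,[(11,13)])],[2,2])],[8,7,6,4,1],false,4,5,[6,10,12]),
    (false,[([(0,21,[(11,13)]),(0,1,[(5,6)])],[3])],[9,6,5,1],true,4,2,[6]),
    (true,[([(0,21,[(11,13)]),(0,1,[(5,6)])],[]),([(0,1,[(5,6)])],[2,1,1])],[8,6],false,2,3,[4]),
    (false,[([(0,23,[(11,13)]),(0,6,[(5,6),(3,4)])],[]),([(0,1,[(5,6)])],[3,3,3,3,2])],[],false,1,0,[2]),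
    (true,[([(0,21,[(11,13)]),(0,5,[(5,6),(2,2)])],[]),([(0,6,[(5,6),(3,4)])],[2,2,2])],[6],false,1,0,[]),
    (false,[([(0,23,[(11,13)]),(0,6,[(7,10)])],[])],[8,7,5],false,3,5,[6]),
    (false,[([(0,23,[(11,13)]),(0,6,[(7,10)])],[]),([(0,1,[(4,6)])],[3,3,3,3,2])],[],false,1,0,[3]),
    (true,[([(0,21,[(11,13)]),(0,1,[(4,6)])],[]),([(0,6,[(7,10)]),(0,3,[(2,3)])],[3,2])],[6],false,1,0,[2]),
    (true,[([(0,21,[(11,13)]),(0,1,[(4,6)])],[]),([(0,6,[(7,10)]),(1,1,[(2,3),(2,2)])],[2])],[6],false,1,0,[]),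
    (true,[([(0,23,[(11,13)])],[4,3,3]),([(0,13,[(11,12)])],[4,3,1])],[],false,1,0,[2]),
    (false,[([(0,29,[(11,13),(11,12),(2,2)])],[5,5])],[6],false,1,0,[]),
    (true,[([(0,11,[(14,17)])],[3,3])],[8,6,4,2],false,4,2,[6,9]),
    (false,[([(0,11,[(14,17)])],[4,4,2]),([(0,1,[(5,6)])],[3,2,2,1,1,1])],[],false,1,0,[4,5]),
    (true,[([(0,11,[(14,17)])],[3,3]),([(0,1,[(5,6)]),(1,0,[(2,4)])],[4])],[],false,1,0,[3,4]),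
    (true,[([(0,11,[(14,17)])],[3,3]),([(0,1,[(5,6)]),(1,0,[(2,4),(2,3)])],[4])],[],false,1,0,[2,3]),
    (true,[([(0,11,[(14,17)])],[3,3]),([(0,1,[(5,6)]),(1,0,[(2,4),(2,3),(2,2)])],[4])],[],false,1,0,[2]),
    (true,[([(0,11,[(14,17)])],[3,3]),([(0,6,[(5,6),(2,2),(2,2)]),(1,0,[(2,4),(2,3)])],[])],[],false,1,0,[]),
    (true,[([(0,11,[(14,17)])],[3,3]),([(0,6,[(5,6),(3,3)]),(1,0,[(2,4),(2,3)])],[])],[],false,1,0,[]),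
    (true,[([(0,11,[(14,17)])],[3,3]),([(0,6,[(5,6),(4,4)]),(1,0,[(2,4)])],[])],[],false,1,0,[]),
    (false,[([(0,10,[(14,17),(5,6),(5,5)])],[5,5])],[5],false,1,0,[]),
    (true,[([(0,11,[(14,17)])],[3,3]),([(0,6,[(7,9)])],[4,3,2,1])],[],false,1,0,[3]),
    (true,[([(0,11,[(14,17)])],[3,3]),([(0,6,[(7,9)]),(0,3,[(2,3)])],[4,3])],[],false,1,0,[2]),
    (true,[([(0,11,[(14,17)])],[3,3]),([(0,6,[(7,9)]),(1,1,[(2,3),(2,2)])],[4])],[],false,1,0,[]),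
    (true,[([(0,16,[(18,22)])],[4,4])],[6,4,3],false,3,3,[5]),
    (true,[([(0,16,[(18,22)])],[4,4]),([(0,7,[(4,5)])],[3,3,2])],[],false,1,0,[2]),
    (true,[([(0,16,[(18,22)])],[5,5]),([(0,7,[(4,5)]),(0,3,[(2,2)])],[3])],[],false,1,0,[])]),
  ([9,8,7,6,6,3,2,1], [
    (false,[],[9,8,7,6,6,3,2,1],false,5,6,[6,8,11,14,17,22]),
    (false,[([(0,1,[(6,6)])],[])],[9,8,7,6,6],false,4,7,[6]),
    (false,[([(0,1,[(6,6)]),(0,1,[(5,6)])],[2,2])],[9,7,6,3,1],false,4,4,[6]),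
    (false,[([(0,1,[(6,6)]),(0,1,[(5,6)]),(0,1,[(5,6)])],[])],[8,7,6,2,1],false,4,3,[6]),
    (false,[([(0,1,[(6,6)]),(0,1,[(5,6)]),(0,1,[(5,6)])],[]),([(0,1,[(5,6)])],[1,1,1])],[8,7],false,2,4,[3,5]),
    (true,[([(0,1,[(6,6)]),(0,1,[(5,6)]),(0,3,[(3,3)])],[]),([(0,1,[(5,6)]),(0,1,[(5,6)])],[3])],[6,5,1],false,3,1,[]),
    (true,[([(0,8,[(6,6),(4,5)]),(0,1,[(5,6)])],[3]),([(0,1,[(5,6)]),(0,1,[(5,6)])],[2])],[5,3],false,2,1,[]),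
    (true,[([(0,0,[(7,8)])],[2,2])],[8,7,6,5,3,1],false,5,4,[7,8]),
    (false,[([(0,4,[(7,8),(6,7)])],[2,2])],[9,8,6],false,3,6,[4,6,7]),
    (false,[([(0,0,[(7,8)]),(0,8,[(6,7),(4,4)])],[3])],[9,6,3,2],false,4,2,[]),
    (false,[([(0,2,[(7,8),(6,7),(5,6)])],[3,3])],[9,6],false,2,6,[3,6]),
    (true,[([(0,5,[(7,8)]),(0,6,[(6,7),(3,3)])],[]),([(0,1,[(5,6)])],[2,2,2])],[7,5],false,2,4,[3]),
    (true,[([(0,8,[(7,8),(3,3)]),(0,6,[(6,7),(3,3)])],[]),([(0,1,[(5,6)])],[2,1])],[7,5],false,2,2,[3]),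
    (false,[([(0,2,[(7,8),(6,7),(5,6)])],[3,3]),([(0,3,[(3,3)]),(0,3,[(3,3)]),(0,3,[(3,3)])],[2,2,2])],[],false,1,0,[]),
    (true,[([(0,0,[(7,8)]),(0,28,[(6,7)])],[2]),([(0,1,[(5,6)]),(0,1,[(4,6)])],[2])],[6,5],false,2,3,[3,4]),
    (true,[([(0,0,[(7,8)]),(0,5,[(6,7)])],[]),([(0,1,[(5,6)]),(0,1,[(4,6)]),(0,3,[(3,3)])],[])],[6,5],false,2,1,[]),
    (false,[([(0,4,[(7,8),(6,7)])],[4,3,3]),([(0,1,[(5,6)]),(0,1,[(4,6)]),(0,9,[(4,4)])],[1])],[],false,1,0,[]),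
    (false,[([(0,4,[(7,8),(6,7)]),(0,0,[(7,7)])],[3])],[7,6,3],false,3,3,[5]),
    (false,[([(0,4,[(7,8),(6,7)]),(0,0,[(7,7)])],[3]),([(0,1,[(4,5)])],[3,3,2,2])],[],false,1,0,[2]),
    (false,[([(0,4,[(7,8),(6,7)]),(0,3,[(2,2)])],[2]),([(0,0,[(7,7)]),(0,7,[(4,5)])],[3,3,3])],[],false,1,0,[]),
    (true,[([(0,11,[(7,8),(8,8)])],[3])],[8,7,5,2],false,4,2,[7,8]),
    (false,[([(0,4,[(7,8),(5,7)]),(0,0,[(8,8)])],[3])],[7,6,3],false,3,3,[5]),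
    (true,[([(0,4,[(7,8),(5,7)])],[4,4,4]),([(0,21,[(8,8),(4,5)])],[2])],[],false,1,0,[2]),
    (false,[([(0,4,[(7,8),(5,7)]),(0,8,[(8,8),(2,2)])],[]),([(0,7,[(4,5)])],[3,2,2,2,2])],[],false,1,0,[]),
    (true,[([(0,30,[(7,8),(8,8),(8,8)])],[6])],[7,5],false,2,1,[]),
    (true,[([(0,8,[(9,11)])],[2,2])],[8,7,5,5,2],false,3,8,[6,10,11]),
    (true,[([(0,8,[(9,11)]),(0,1,[(4,6)])],[3])],[7,5,5,3,2],false,3,5,[4,6]),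
    (false,[([(0,8,[(9,11)]),(0,6,[(4,6),(4,4)])],[3])],[8,6,3,1],true,4,2,[]),
    (false,[([(0,8,[(9,11)]),(0,1,[(4,6)])],[3,3]),([(0,1,[(5,6)])],[3,1,1])],[8],false,1,0,[2,5,6]),
    (true,[([(0,8,[(9,11)]),(0,1,[(4,6)])],[4]),([(0,1,[(5,6)]),(0,3,[(2,2)])],[])],[7,5],false,2,5,[]),
    (false,[([(0,8,[(9,11)]),(1,3,[(3,5)])],[]),([(0,1,[(4,6)]),(0,1,[(5,6)])],[2,2])],[],false,1,0,[4,5]),
    (false,[([(0,8,[(9,11)]),(1,3,[(3,5),(2,4)])],[]),([(0,1,[(4,6)]),(0,1,[(5,6)])],[2,2])],[],false,1,0,[2,3,4]),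
    (false,[([(0,8,[(9,11)]),(1,3,[(3,5),(2,4),(2,2)])],[]),([(0,1,[(4,6)]),(0,1,[(5,6)])],[2,2])],[],false,1,0,[2]),
    (false,[([(0,8,[(9,11)]),(1,3,[(3,5),(2,4),(2,2),(2,2)])],[]),([(0,1,[(4,6)]),(0,1,[(5,6)])],[2,2])],[],false,1,0,[2]),
    (false,[([(0,8,[(9,11)]),(1,3,[(3,5),(2,4),(2,2),(2,2),(2,2)])],[]),([(0,1,[(4,6)]),(0,1,[(5,6)])],[2,2])],[],false,1,0,[]),
    (false,[([(0,8,[(9,11)]),(1,3,[(3,5),(2,4),(3,3)])],[]),([(0,1,[(4,6)]),(0,1,[(5,6)])],[2,2])],[],false,1,0,[2]),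
    (false,[([(0,8,[(9,11)]),(1,3,[(3,5),(2,4),(3,3),(2,2)])],[]),([(0,1,[(4,6)]),(0,1,[(5,6)])],[2,2])],[],false,1,0,[]),
    (false,[([(0,8,[(9,11)]),(1,3,[(3,5),(2,4)])],[]),([(0,1,[(4,6)]),(0,1,[(5,6)]),(0,9,[(4,4)])],[])],[],false,1,0,[]),
    (false,[([(0,8,[(9,11)]),(0,1,[(4,6)])],[4,3]),([(0,1,[(5,6)]),(0,6,[(3,5),(5,5)])],[2])],[],false,1,0,[]),
    (true,[([(0,8,[(9,11)]),(0,1,[(4,6)])],[3]),([(0,1,[(5,6)]),(0,1,[(6,6)])],[2])],[5,3],false,2,1,[]),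
    (false,[([(0,8,[(9,11)]),(0,6,[(7,10)])],[3])],[8,6,3,1],true,4,2,[6,8]),
    (true,[([(0,8,[(9,11)]),(0,6,[(7,10)])],[]),([(0,1,[(5,6)])],[2,1])],[7,5],false,2,3,[4]),
    (false,[([(0,8,[(9,11)]),(0,6,[(7,10)])],[3]),([(0,6,[(5,6),(3,4)])],[3,2,2,1])],[],false,1,0,[2]),
    (false,[([(0,8,[(9,11)]),(0,6,[(7,10)])],[3]),([(0,6,[(5,6),(3,4)]),(0,3,[(2,2)])],[3,2])],[],false,1,0,[]),
    (true,[([(0,8,[(9,11)]),(0,6,[(7,10)])],[]),([(0,0,[(7,8)])],[3,2])],[7,1],false,2,1,[]),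
    (false,[([(0,8,[(9,11)]),(0,8,[(11,11)])],[])],[9,7,3,1],false,4,1,[]),
    (false,[([(0,12,[(12,14)])],[3,2])],[9,8,6],false,3,6,[6,8,11]),
    (false,[([(0,12,[(12,14)]),(0,1,[(4,6)])],[])],[9,7,6],false,3,6,[4,6]),
    (true,[([(0,12,[(12,14)]),(0,1,[(4,6)])],[]),([(0,9,[(4,4)])],[2,2,2])],[7,5],false,2,4,[3,4]),
    (true,[([(0,11,[(12,14),(3,3)]),(0,1,[(4,6)])],[]),([(0,9,[(4,4)])],[1,1,1])],[7,5],false,2,2,[3]),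
    (false,[([(0,11,[(12,14),(3,3)]),(0,1,[(4,6)])],[3]),([(0,9,[(4,4)]),(0,3,[(3,3)])],[2,2,2,1])],[2],false,1,0,[]),
    (true,[([(0,12,[(12,14)]),(0,1,[(4,6)])],[]),([(0,9,[(4,4)]),(0,9,[(4,4)])],[2])],[7,5],false,2,1,[]),
    (false,[([(0,12,[(12,14)]),(0,1,[(4,6)])],[]),([(0,1,[(5,6)])],[3,3,3,3,3,1])],[],false,1,0,[2,3,4]),
    (false,[([(0,4,[(12,14)])],[3,3,3]),([(0,1,[(4,6)]),(0,1,[(5,6)]),(0,3,[(2,2)])],[3])],[],false,1,0,[2]),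
    (false,[([(0,4,[(12,14)])],[3,3,3]),([(0,1,[(4,6)]),(0,1,[(5,6)]),(1,1,[(2,2),(2,2)])],[])],[],false,1,0,[2]),
    (false,[([(0,4,[(12,14)])],[3,3,3]),([(0,1,[(4,6)]),(0,1,[(5,6)]),(1,1,[(2,2),(2,2),(2,2)])],[])],[],false,1,0,[]),
    (false,[([(0,11,[(12,14),(3,3)]),(0,1,[(4,6)])],[3]),([(0,1,[(5,6)])],[3,2,2,2,1])],[],false,1,0,[2]),
    (false,[([(0,11,[(12,14),(3,3)]),(0,1,[(4,6)])],[3]),([(0,1,[(5,6)]),(0,3,[(2,2)])],[3,2,2])],[],false,1,0,[]),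
    (false,[([(0,4,[(12,14)])],[4,3,3]),([(0,1,[(4,6)]),(0,1,[(5,6)]),(0,9,[(4,4)])],[1])],[],false,1,0,[]),
    (true,[([(0,16,[(12,14),(7,8)])],[4])],[8,5,3],false,3,3,[5]),
    (true,[([(0,16,[(12,14),(7,8)])],[4]),([(0,7,[(4,5)])],[3,3,2,2,1])],[],false,1,0,[2]),
    (true,[([(0,16,[(12,14),(7,8)])],[4]),([(0,7,[(4,5)]),(0,3,[(2,2)])],[3,3,2])],[],false,1,0,[]),
    (false,[([(0,4,[(12,14)]),(0,8,[(9,11)])],[])],[8,6,2],false,3,2,[]),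
    (true,[([(0,11,[(15,17)])],[3])],[8,7,5,2],false,4,2,[6,8]),
    (false,[([(0,11,[(15,17)]),(0,1,[(5,6)])],[3])],[8,6,2],false,3,2,[4]),
    (false,[([(0,10,[(15,17),(5,6),(4,4)])],[4,4])],[6],false,1,0,[]),
    (false,[([(0,11,[(15,17)]),(0,0,[(7,8)])],[])],[9,6,2],false,2,1,[]),
    (true,[([(0,16,[(18,22)])],[4])],[8,5,3],false,3,3,[5]),
    (true,[([(0,16,[(18,22)])],[4]),([(0,7,[(4,5)])],[3,3,2,2,1])],[],false,1,0,[2]),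
    (true,[([(0,16,[(18,22)])],[4]),([(0,7,[(4,5)]),(0,3,[(2,2)])],[3,3,2])],[],false,1,0,[])]),
  ([9,8,7,7,5,4,3,1], [
    (false,[],[9,8,7,7,5,4,3,1],false,6,4,[10,15,21,22]),
    (true,[([(0,6,[(7,10)])],[2,1,1])],[8,7,6,5,4],false,5,4,[6,8,10]),
    (false,[([(0,6,[(7,10)]),(0,1,[(6,6)])],[])],[9,8,7,4],false,4,4,[6]),
    (true,[([(0,6,[(7,10)])],[3,3]),([(0,1,[(6,6)]),(0,1,[(5,6)])],[1])],[8,7],false,2,6,[3,5,6]),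
    (false,[([(0,6,[(7,10)]),(0,4,[(6,6),(5,6),(3,3)])],[])],[8,7,4],false,3,4,[]),
    (true,[([(0,6,[(7,10)]),(0,8,[(6,6),(4,5)])],[]),([(0,1,[(5,6)])],[2,2,1,1])],[7,4],false,2,3,[4]),
    (false,[([(0,6,[(7,10)]),(0,4,[(6,6),(4,5),(3,4)])],[]),([(0,1,[(5,6)])],[3,3,3,2,2])],[],false,1,0,[2]),
    (true,[([(0,6,[(7,10)]),(0,6,[(5,6),(3,4)])],[]),([(0,8,[(6,6),(4,5)]),(0,3,[(2,2)])],[3])],[7],false,1,0,[]),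
    (true,[([(0,6,[(7,10)]),(0,1,[(6,6)])],[3]),([(0,1,[(5,6)]),(0,1,[(6,6)])],[1])],[7,5],false,2,1,[]),
    (true,[([(0,6,[(7,10)]),(0,0,[(7,8)])],[])],[8,7,5,4,2],false,5,2,[7,8]),
    (false,[([(0,6,[(7,10)]),(0,4,[(7,8),(6,7)])],[])],[8,7,4],false,3,4,[5]),
    (false,[([(0,6,[(7,10)]),(0,4,[(7,8),(6,7)])],[]),([(0,1,[(4,5)])],[3,3,3,2,2])],[],false,1,0,[2]),
    (true,[([(0,6,[(7,10)]),(0,0,[(7,8)])],[]),([(0,6,[(6,7),(2,2)]),(0,7,[(4,5)])],[4])],[7],false,1,0,[]),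
    (true,[([(0,6,[(7,10)]),(0,0,[(7,8)])],[]),([(0,0,[(8,8)])],[2,1])],[8,7],false,2,2,[3]),
    (true,[([(0,2,[(7,10),(8,8),(3,3)])],[4]),([(0,0,[(7,8)])],[3,3,2,2,1])],[],false,1,0,[]),
    (true,[([(0,6,[(7,10)]),(0,6,[(9,10)])],[])],[7,7,5,4,1],true,4,3,[6,8]),
    (true,[([(0,6,[(7,10)]),(0,6,[(9,10)])],[]),([(0,1,[(5,6)])],[2,2,1,1])],[7,5],false,2,3,[4]),
    (false,[([(0,6,[(7,10)]),(0,12,[(9,10),(3,4)])],[]),([(0,1,[(5,6)])],[3,3,3,3,2])],[],false,1,0,[2]),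
    (true,[([(0,6,[(7,10)]),(0,6,[(5,6),(3,4)])],[]),([(0,8,[(9,10)]),(0,3,[(2,2)])],[3])],[7],false,1,0,[]),
    (true,[([(0,6,[(7,10)]),(0,6,[(9,10)])],[]),([(0,0,[(7,8)])],[3,3,1,1])],[7,1],false,2,1,[]),
    (true,[([(0,4,[(11,15)])],[3,1])],[8,7,6,4],false,4,4,[5,6,8,11,12]),
    (true,[([(0,4,[(11,15)]),(0,7,[(5,5)])],[])],[7,7,6,4],false,3,4,[5]),
    (false,[([(0,4,[(11,15)]),(0,6,[(5,5),(4,5)])],[])],[8,7,4],false,3,4,[4,5]),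
    (false,[([(0,4,[(11,15)]),(0,6,[(5,5),(4,5)])],[]),([(0,9,[(4,4)])],[2,2,1,1,1])],[8],false,1,0,[2]),
    (false,[([(0,4,[(11,15)]),(0,6,[(5,5),(4,5)])],[]),([(0,1,[(4,4),(2,2)])],[3,3,3,2,2])],[],false,1,0,[]),
    (false,[([(0,4,[(11,15)]),(0,6,[(5,5),(4,5)])],[]),([(0,1,[(5,5)])],[3,3,3,2,2])],[],false,1,0,[]),
    (true,[([(0,2,[(11,15),(6,6)])],[4])],[8,7,4],false,3,4,[6]),
    (true,[([(0,2,[(11,15),(6,6)])],[4]),([(0,1,[(4,6)])],[3,3,3,2,2])],[],false,1,0,[3,4]),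
    (true,[([(0,2,[(11,15),(6,6)])],[5,5]),([(0,1,[(4,6)]),(0,3,[(2,3)])],[3,1])],[],false,1,0,[3]),
    (true,[([(0,2,[(11,15),(6,6)])],[6,5]),([(0,1,[(4,6)]),(0,3,[(2,3)]),(0,3,[(2,3)])],[])],[],false,1,0,[2]),
    (false,[([(0,4,[(11,15)]),(1,0,[(2,3),(2,3)])],[]),([(0,0,[(6,6),(2,2)]),(0,1,[(4,6)])],[3,2])],[],false,1,0,[]),
    (true,[([(0,2,[(11,15),(6,6)])],[4]),([(0,1,[(4,6)]),(0,9,[(4,4)])],[3,3,3])],[],false,1,0,[]),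
    (true,[([(0,4,[(11,15)]),(0,0,[(7,8)])],[])],[7,6,4,4],false,3,5,[6]),
    (true,[([(0,4,[(11,15)])],[5,5,5]),([(0,5,[(7,8)]),(0,1,[(4,6)])],[])],[],false,1,0,[3]),
    (false,[([(0,4,[(11,15)]),(0,1,[(4,6)])],[4]),([(0,0,[(7,8)]),(0,3,[(2,3)])],[3,3,2])],[],false,1,0,[2]),
    (false,[([(0,4,[(11,15)]),(0,1,[(4,6)])],[4]),([(0,0,[(7,8)]),(1,1,[(2,3),(2,2)])],[3,2])],[],false,1,0,[]),
    (true,[([(0,4,[(11,15)])],[3]),([(0,8,[(9,11)])],[4,4,4,3])],[],false,1,0,[2,3,4]),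
    (true,[([(0,4,[(11,15)])],[4,4,3]),([(0,8,[(9,11)]),(0,3,[(2,2)])],[4])],[],false,1,0,[2]),
    (true,[([(0,4,[(11,15)])],[5,4,3]),([(0,8,[(9,11)]),(1,1,[(2,2),(2,2)])],[])],[],false,1,0,[2]),
    (true,[([(0,4,[(11,15)])],[5,4,3]),([(0,8,[(9,11)]),(1,1,[(2,2),(2,2),(2,2)])],[])],[],false,1,0,[]),
    (true,[([(0,4,[(11,15)])],[4,4,3]),([(0,8,[(9,11)]),(0,3,[(3,3)])],[4])],[],false,1,0,[2]),
    (true,[([(0,4,[(11,15)])],[5,4,4]),([(0,8,[(9,11)]),(0,7,[(3,3),(2,2)])],[])],[],false,1,0,[]),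
    (true,[([(0,4,[(11,15)])],[4,4]),([(0,8,[(9,11)]),(0,9,[(4,4)])],[4,2])],[],false,1,0,[]),
    (false,[([(0,29,[(11,15),(12,12)])],[6,4])],[7],false,1,0,[]),
    (true,[([(0,2,[(16,21)])],[4])],[8,7,4],false,3,4,[6,7]),
    (true,[([(0,2,[(16,21)])],[4]),([(0,1,[(4,6)])],[3,3,3,2,2])],[],false,1,0,[2,3,4]),
    (true,[([(0,2,[(16,21)])],[5,5]),([(0,1,[(4,6)]),(0,3,[(2,2)])],[3,1])],[],false,1,0,[2]),
    (true,[([(0,2,[(16,21)])],[5,5]),([(0,1,[(4,6)]),(1,1,[(2,2),(2,2)])],[1])],[],false,1,0,[2]),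
    (true,[([(0,2,[(16,21)])],[5,5]),([(0,1,[(4,6)]),(1,1,[(2,2),(2,2),(2,2)])],[1])],[],false,1,0,[]),
    (true,[([(0,2,[(16,21)])],[5,5]),([(0,1,[(4,6)]),(0,3,[(3,3)])],[3,1])],[],false,1,0,[2]),
    (true,[([(0,2,[(16,21)])],[5,5]),([(0,1,[(4,6)]),(0,7,[(3,3),(2,2)])],[2])],[],false,1,0,[]),
    (true,[([(0,2,[(16,21)])],[4]),([(0,1,[(4,6)]),(0,9,[(4,4)])],[3,3,3])],[],false,1,0,[]),
    (false,[([(0,10,[(16,21),(7,7)])],[6,3])],[7],false,1,0,[]),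
    (false,[([(0,16,[(22,22)])],[5,3,3])],[7,4],false,1,0,[])]),
  ([9,9,8,7,4,3,2,1], [
    (false,[],[9,9,8,7,4,3,2,1],true,6,5,[10,14,19,22]),
    (false,[([(0,6,[(7,10)])],[])],[9,9,8,7],false,3,7,[5,6,10]),
    (false,[([(0,6,[(7,10)]),(0,7,[(4,5)])],[1,1])],[9,8,7,2],false,3,8,[5]),
    (true,[([(0,6,[(7,10)]),(0,6,[(4,5),(4,5)])],[])],[7,5,4,4,3],false,4,3,[5]),
    (false,[([(0,6,[(7,10)]),(0,6,[(4,5),(4,5)])],[2]),([(0,7,[(5,5)])],[2,2,1,1,1])],[9],false,1,0,[2,3,5]),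
    (true,[([(0,6,[(7,10)]),(0,6,[(4,5),(4,5)])],[]),([(0,7,[(5,5)]),(0,3,[(2,2)])],[3,3])],[5,4],false,2,4,[]),
    (true,[([(0,6,[(7,10)]),(0,6,[(4,5),(4,5)])],[]),([(0,7,[(5,5)]),(0,3,[(3,3)])],[3,3])],[5,4],false,2,3,[3]),
    (true,[([(0,6,[(7,10)]),(0,6,[(4,5),(4,5)])],[]),([(0,7,[(5,5)]),(0,1,[(3,3),(3,3)])],[3])],[5,4],false,2,1,[]),
    (true,[([(0,6,[(7,10)]),(0,6,[(4,5),(4,5)])],[]),([(0,7,[(5,5)]),(0,1,[(4,5)])],[3])],[5,4],false,2,2,[3]),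
    (true,[([(0,6,[(7,10)]),(0,6,[(4,5),(4,5)])],[]),([(0,7,[(5,5)]),(0,1,[(4,5)])],[3]),([(0,3,[(3,3)])],[2,2,2])],[],false,1,0,[]),
    (true,[([(0,6,[(7,10)]),(0,1,[(6,6)])],[4])],[7,5,4,4,3],false,4,3,[5,6]),
    (false,[([(0,4,[(7,10),(5,5)]),(0,1,[(6,6)])],[2])],[9,8,3],false,3,3,[5]),
    (true,[([(0,6,[(7,10)]),(0,8,[(6,6),(5,5)])],[]),([(0,7,[(4,5)])],[3,3,3,1])],[4,3],false,2,3,[3,4]),
    (false,[([(0,4,[(7,10),(5,5)])],[4,3,3,3]),([(0,1,[(6,6)]),(0,7,[(4,5)]),(0,3,[(3,3)])],[1])],[],false,1,0,[2]),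
    (true,[([(0,2,[(7,10),(6,6),(5,5)])],[6]),([(0,7,[(4,5)]),(0,7,[(3,3),(2,2)])],[3,3])],[],false,1,0,[]),
    (true,[([(0,2,[(7,10),(6,6),(5,5)])],[6]),([(0,7,[(4,5)]),(0,7,[(4,4)])],[3,3])],[],false,1,0,[]),
    (false,[([(0,6,[(7,10)]),(0,12,[(6,6),(6,6)])],[])],[9,8,2],false,3,2,[6]),
    (false,[([(0,6,[(7,10)]),(0,12,[(6,6),(6,6)])],[]),([(0,1,[(4,6)])],[3,2,2,2,2,2])],[],false,1,0,[2,3]),
    (true,[([(0,6,[(7,10)]),(0,28,[(6,6)])],[]),([(0,0,[(6,6),(2,2)]),(0,1,[(4,6)])],[3])],[5,4],false,2,1,[]),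
    (true,[([(0,6,[(7,10)]),(0,6,[(6,6),(3,3)])],[]),([(0,1,[(6,6)]),(0,1,[(4,6)])],[3])],[4,4],false,1,0,[]),
    (true,[([(0,6,[(7,10)]),(0,6,[(7,10)])],[])],[7,5,4,4,3],false,4,3,[5,6,8,9,10]),
    (false,[([(0,6,[(7,10)]),(0,6,[(7,10)])],[2]),([(0,7,[(5,5)])],[2,2,1,1,1])],[9],false,1,0,[2,3,5]),
    (true,[([(0,6,[(7,10)]),(0,6,[(7,10)])],[]),([(0,7,[(5,5)]),(0,3,[(2,2)])],[3,3])],[5,4],false,2,4,[]),
    (true,[([(0,6,[(7,10)]),(0,6,[(7,10)])],[]),([(0,7,[(5,5)]),(0,3,[(3,3)])],[3,3])],[5,4],false,2,3,[3]),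
    (true,[([(0,6,[(7,10)]),(0,6,[(7,10)])],[]),([(0,7,[(5,5)]),(0,1,[(3,3),(3,3)])],[3])],[5,4],false,2,1,[]),
    (true,[([(0,6,[(7,10)]),(0,6,[(7,10)])],[]),([(0,7,[(5,5)]),(0,1,[(4,5)])],[3])],[5,4],false,2,2,[3]),
    (true,[([(0,6,[(7,10)]),(0,6,[(7,10)])],[]),([(0,7,[(5,5)]),(0,1,[(4,5)])],[3]),([(0,3,[(3,3)])],[2,2,2])],[],false,1,0,[]),
    (true,[([(0,6,[(7,10)]),(0,6,[(7,10)])],[]),([(0,1,[(6,6)])],[3,3])],[7,4],false,2,4,[3,5]),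
    (false,[([(0,6,[(7,10)]),(0,6,[(7,10)])],[2]),([(0,6,[(6,6),(3,3)])],[3,2,2,2,2])],[],false,1,0,[3]),
    (true,[([(0,6,[(7,10)]),(0,6,[(7,10)])],[]),([(0,1,[(6,6)]),(0,1,[(3,3),(2,3)])],[3])],[4,4],false,1,0,[2]),
    (false,[([(0,6,[(7,10)]),(0,6,[(7,10)])],[2]),([(0,0,[(6,6),(2,2)]),(0,1,[(3,3),(2,3)])],[2,2,2])],[1],false,1,0,[]),
    (true,[([(0,6,[(7,10)]),(0,6,[(7,10)])],[]),([(0,1,[(6,6)]),(0,7,[(4,5)])],[3])],[5,4],false,2,1,[]),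
    (true,[([(0,6,[(7,10)]),(0,6,[(7,10)])],[]),([(0,0,[(7,8)])],[3])],[7,5],false,2,3,[3,4]),
    (false,[([(0,6,[(7,10)]),(0,6,[(7,10)])],[2]),([(0,8,[(7,8),(3,3)])],[2,2,2,2,2])],[],false,1,0,[2]),
    (true,[([(0,6,[(7,10)]),(0,6,[(7,10)])],[]),([(0,0,[(7,8)]),(0,7,[(3,3),(2,2)])],[1])],[5,4],false,1,0,[]),
    (false,[([(0,6,[(7,10)]),(0,6,[(7,10)])],[2]),([(0,0,[(7,8)]),(0,9,[(4,4)])],[3,2,2,1])],[1],false,1,0,[]),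
    (true,[([(0,6,[(7,10)]),(0,6,[(7,10)])],[]),([(0,24,[(9,9)])],[2])],[7,5],false,2,1,[]),
    (false,[([(0,6,[(7,10)]),(0,6,[(7,10)])],[2]),([(0,6,[(10,10)])],[3,2,2,2,2])],[],false,1,0,[]),
    (false,[([(0,4,[(11,14)])],[1,1,1,1])],[9,8,7],false,3,7,[5,6,8,10,12]),
    (false,[([(0,12,[(11,14)]),(0,1,[(4,5)])],[2])],[9,8,4],false,3,4,[5]),
    (false,[([(0,12,[(11,14)]),(0,6,[(4,5),(4,5)])],[])],[9,8,2],false,3,2,[4,5]),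
    (false,[([(0,12,[(11,14)]),(0,6,[(4,5),(4,5)])],[]),([(0,9,[(4,4)])],[1,1,1,1,1,1])],[9],false,1,0,[3]),
    (false,[([(0,12,[(11,14)]),(0,6,[(4,5),(4,5)])],[]),([(0,9,[(4,4)]),(0,3,[(2,3)])],[2,2,2,2,2])],[2],false,1,0,[2]),
    (false,[([(0,12,[(11,14)]),(0,6,[(4,5),(4,5)])],[]),([(0,9,[(4,4)]),(1,1,[(2,3),(2,2)])],[3,2,2,2])],[],false,1,0,[]),
    (false,[([(0,12,[(11,14)]),(0,6,[(4,5),(4,5)])],[]),([(0,1,[(5,5)])],[3,2,2,2,2,2])],[],false,1,0,[2]),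
    (true,[([(0,2,[(11,14),(5,5),(2,2)])],[6]),([(0,7,[(4,5)]),(0,7,[(4,5)])],[3,3])],[],false,1,0,[]),
    (false,[([(0,12,[(11,14)]),(0,1,[(6,6)])],[2])],[9,8,4],false,3,4,[6]),
    (false,[([(0,12,[(11,14)]),(0,1,[(6,6)])],[2]),([(0,1,[(4,6)])],[3,3,3,2,2,2])],[],false,1,0,[2,3,4]),
    (false,[([(0,12,[(11,14)]),(0,0,[(6,6),(2,2)])],[1]),([(0,1,[(4,6)])],[3,3,2,2,2,2])],[],false,1,0,[2]),
    (false,[([(0,12,[(11,14)]),(0,6,[(6,6),(2,2),(2,2)])],[]),([(0,1,[(4,6)])],[3,2,2,2,2,2])],[],false,1,0,[2]),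
    (false,[([(0,12,[(11,14)]),(0,0,[(6,6),(2,2)])],[2]),([(0,1,[(4,6)]),(1,1,[(2,2),(2,2)])],[3,2,2])],[],false,1,0,[]),
    (false,[([(0,12,[(11,14)]),(0,6,[(6,6),(3,3)])],[]),([(0,1,[(4,6)])],[3,2,2,2,2,2])],[],false,1,0,[2]),
    (false,[([(0,12,[(11,14)]),(0,0,[(6,6),(2,2)])],[2]),([(0,1,[(4,6)]),(0,3,[(3,3)])],[3,3,2,2])],[],false,1,0,[]),
    (false,[([(0,12,[(11,14)]),(0,6,[(6,6),(4,4)])],[]),([(0,1,[(4,6)])],[3,2,2,2,2,2])],[],false,1,0,[]),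
    (false,[([(0,12,[(11,14)]),(0,0,[(7,8)])],[1])],[9,8,3],false,3,3,[6]),
    (false,[([(0,12,[(11,14)]),(0,0,[(7,8)])],[1]),([(0,1,[(4,6)])],[3,3,2,2,2,2])],[],false,1,0,[3]),
    (false,[([(0,12,[(11,14)]),(0,0,[(7,8)])],[2]),([(0,1,[(4,6)]),(0,3,[(2,3)])],[3,3,2,2])],[],false,1,0,[2]),
    (false,[([(0,12,[(11,14)]),(0,0,[(7,8)])],[2]),([(0,1,[(4,6)]),(1,1,[(2,3),(2,2)])],[3,2,2])],[],false,1,0,[]),
    (false,[([(0,12,[(11,14)]),(0,6,[(9,10)])],[])],[9,8,2],false,3,2,[4]),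
    (false,[([(0,10,[(11,14),(9,10),(4,4)])],[3,3])],[9],false,1,0,[]),
    (true,[([(0,12,[(11,14)])],[5,4]),([(0,21,[(11,12)])],[4,1,1,1])],[],false,1,0,[2]),
    (false,[([(0,10,[(11,14),(11,12),(2,2)])],[3,3])],[9],false,1,0,[]),
    (false,[([(0,14,[(15,19)])],[4,2,1])],[9,8],false,2,7,[3,4,6,8]),
    (false,[([(0,14,[(15,19)]),(0,3,[(3,3)])],[4])],[9,8],false,2,5,[3]),
    (true,[([(0,14,[(15,19)])],[6,5]),([(0,1,[(3,3),(3,3)])],[3,3,1])],[],false,1,0,[3]),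
    (true,[([(0,14,[(15,19)])],[6,6]),([(0,1,[(3,3),(3,3)]),(0,3,[(2,3)])],[3])],[],false,1,0,[3]),
    (true,[([(0,14,[(15,19)])],[6,6]),([(0,1,[(3,3),(2,3)]),(0,1,[(3,3),(2,3)])],[])],[],false,1,0,[2]),
    (false,[([(0,2,[(15,19),(2,2)])],[3,3,3]),([(0,3,[(3,3)]),(0,3,[(3,3)]),(0,3,[(2,3)]),(0,3,[(2,3)])],[1])],[],false,1,0,[]),
    (false,[([(0,14,[(15,19)]),(0,9,[(4,4)])],[4])],[9,7],false,2,4,[3,4]),
    (false,[([(0,14,[(15,19)]),(0,9,[(4,4)])],[4]),([(0,3,[(3,3)])],[2,2,2,2,2,2,1])],[],false,1,0,[3]),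
    (true,[([(0,14,[(15,19)])],[6,6]),([(0,1,[(4,4)]),(0,1,[(3,3),(2,3)])],[])],[],false,1,0,[2]),
    (true,[([(0,14,[(15,19)])],[6,6]),([(0,1,[(4,4),(2,2)]),(0,1,[(3,3),(2,3)])],[])],[],false,1,0,[]),
    (false,[([(0,14,[(15,19)]),(0,9,[(4,4)])],[4]),([(0,9,[(4,4)])],[2,2,2,2,2,1,1])],[],false,1,0,[2]),
    (false,[([(0,2,[(15,19),(2,2)]),(0,9,[(4,4)])],[]),([(0,9,[(4,4)])],[2,2,2,2,2,2,2])],[],false,1,0,[]),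
    (true,[([(0,14,[(15,19)])],[6,5]),([(0,1,[(5,6)])],[3,3,1])],[],false,1,0,[2,3,4]),
    (true,[([(0,14,[(15,19)])],[6,6]),([(0,1,[(5,6)]),(0,3,[(2,2)])],[3])],[],false,1,0,[2]),
    (true,[([(0,14,[(15,19)])],[6,6]),([(0,1,[(5,6)]),(1,1,[(2,2),(2,2)])],[])],[],false,1,0,[2]),
    (true,[([(0,14,[(15,19)])],[6,6]),([(0,1,[(5,6)]),(1,1,[(2,2),(2,2),(2,2)])],[])],[],false,1,0,[]),
    (true,[([(0,14,[(15,19)])],[6,6]),([(0,1,[(5,6)]),(0,3,[(3,3)])],[3])],[],false,1,0,[2]),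
    (true,[([(0,14,[(15,19)])],[6,6]),([(0,1,[(5,6)]),(0,1,[(3,3),(2,2)])],[])],[],false,1,0,[]),
    (true,[([(0,14,[(15,19)])],[6,6]),([(0,1,[(5,6)]),(0,1,[(4,4)])],[])],[],false,1,0,[]),
    (true,[([(0,14,[(15,19)])],[6,5]),([(0,0,[(7,8)])],[3,1,1])],[],false,1,0,[2]),
    (true,[([(0,2,[(15,19),(2,2)])],[6,5]),([(0,0,[(7,8)])],[3])],[],false,1,0,[]),
    (false,[([(0,31,[(20,22)])],[3,3,2,1])],[9,2,1],false,3,1,[])]),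
  ([10,6,6,5,5,4,3,2,1], [
    (false,[],[10,6,6,5,5,4,3,2,1],true,7,3,[10,15,21,22]),
    (false,[([(0,6,[(8,10)])],[2,2])],[10,6,5,4,3],false,5,3,[8,10]),
    (false,[([(0,20,[(8,10)]),(0,5,[(6,8)])],[3])],[6,6,5,4],false,3,4,[5,7,8]),
    (false,[([(0,4,[(8,10),(4,5)]),(0,5,[(6,8)])],[1])],[6,5,5,2],false,2,6,[3,5]),
    (false,[([(0,4,[(8,10),(4,5)]),(0,5,[(6,8)])],[1]),([(0,3,[(3,3)])],[2,1,1])],[6,5],false,2,4,[3]),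
    (false,[([(0,4,[(8,10),(4,5)]),(0,5,[(6,8)])],[1]),([(0,3,[(3,3)]),(0,3,[(3,3)])],[1])],[6,5],false,2,2,[3]),
    (true,[([(0,4,[(8,10),(4,5)]),(1,0,[(3,3),(3,3),(3,3)])],[]),([(0,5,[(6,8)])],[2,2,2,2])],[1],false,1,0,[]),
    (false,[([(0,4,[(8,10),(4,5)]),(0,5,[(6,8)])],[1]),([(0,1,[(4,5)])],[3,2,2])],[5],false,1,0,[2,3,4]),
    (true,[([(0,4,[(8,10),(4,5)]),(0,6,[(6,8),(2,2)])],[]),([(0,7,[(4,5)])],[1,1,1])],[8,1],true,2,2,[]),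
    (false,[([(0,6,[(8,10)]),(0,5,[(6,8)]),(0,3,[(3,3)])],[]),([(0,6,[(4,5),(4,5)])],[3,3])],[5],false,1,0,[2]),
    (true,[([(0,4,[(8,10),(4,5)]),(0,6,[(6,8),(2,2)])],[]),([(0,5,[(4,5),(3,3)])],[2,2,2,2])],[1],false,1,0,[]),
    (true,[([(0,4,[(8,10),(4,5)]),(0,6,[(4,5),(4,4)])],[]),([(0,5,[(6,8)])],[2,2,2,2])],[1],false,1,0,[]),
    (true,[([(0,6,[(8,10)]),(0,4,[(6,8),(6,7)])],[])],[8,6,1,1,1],false,3,3,[5]),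
    (true,[([(0,6,[(8,10)]),(0,4,[(6,8),(6,7)])],[]),([(0,7,[(4,5)])],[1,1,1])],[8,1],false,2,1,[]),
    (false,[([(0,6,[(8,10)]),(0,5,[(6,8)])],[1,1]),([(0,0,[(8,8)])],[3,3,1])],[6,1],true,2,2,[3]),
    (false,[([(0,6,[(8,10)]),(0,5,[(6,8)])],[1,1]),([(0,8,[(8,8),(3,3)])],[3,2])],[6],false,1,0,[]),
    (false,[([(0,6,[(8,10)]),(0,8,[(9,10)])],[1,1])],[6,5,4,3,1],false,5,1,[7]),
    (false,[([(0,2,[(8,10),(9,10)]),(0,28,[(6,7)])],[])],[6,5,3],false,2,1,[]),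
    (false,[([(0,4,[(11,15)])],[2])],[10,6,5,4],false,4,4,[6,10,12]),
    (false,[([(0,4,[(11,15)]),(0,1,[(5,6)])],[1,1])],[6,5,5,3],false,3,3,[5,6]),
    (true,[([(0,4,[(11,15)]),(0,1,[(5,6)])],[4]),([(0,7,[(4,5)])],[1,1,1])],[8,1],false,1,0,[2,4,5]),
    (false,[([(0,4,[(11,15)]),(0,5,[(5,6),(2,2)])],[1]),([(0,1,[(4,5)])],[3,2,2])],[5],false,1,0,[2]),
    (true,[([(0,4,[(11,15)]),(0,6,[(5,6),(2,2),(2,2)])],[]),([(0,7,[(4,5)])],[1,1,1])],[8,1],true,2,2,[]),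
    (true,[([(0,4,[(11,15)]),(0,6,[(5,6),(3,4)])],[]),([(0,7,[(4,5)])],[1,1,1])],[8,1],true,2,2,[3]),
    (true,[([(0,4,[(11,15)]),(0,6,[(5,6),(3,4)])],[]),([(0,5,[(4,5),(3,3)])],[2,2,2,2])],[1],false,1,0,[]),
    (false,[([(0,4,[(11,15)]),(0,20,[(4,5),(5,5)])],[]),([(0,1,[(5,6)])],[2,2,2])],[5],false,1,0,[]),
    (false,[([(0,2,[(11,15),(6,6)])],[]),([(0,1,[(5,6)])],[3,3,3,3,1,1,1])],[],false,1,0,[3]),
    (true,[([(0,4,[(11,15)]),(0,6,[(6,6),(2,3)])],[]),([(0,1,[(5,6)])],[2,2,2,2,1])],[1,1],false,1,0,[2]),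
    (true,[([(0,4,[(11,15)]),(0,6,[(6,6),(2,3)])],[]),([(0,5,[(5,6),(2,2)])],[2,2,2,2])],[1],false,1,0,[]),
    (true,[([(0,4,[(11,15)]),(0,6,[(7,10)])],[])],[8,6,1,1,1],false,3,3,[5,6]),
    (true,[([(0,4,[(11,15)]),(0,6,[(7,10)])],[]),([(0,7,[(4,5)])],[1,1,1])],[8,1],true,2,2,[3]),
    (true,[([(0,4,[(11,15)]),(0,6,[(7,10)])],[]),([(0,5,[(4,5),(3,3)])],[2,2,2,2])],[1],false,1,0,[]),
    (true,[([(0,4,[(11,15)]),(0,6,[(7,10)])],[]),([(0,1,[(6,6)])],[2,2,2,2,1])],[1,1],false,1,0,[]),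
    (false,[([(0,4,[(11,15)])],[4,4,1,1,1]),([(0,13,[(11,12)])],[3,1])],[],false,1,0,[2]),
    (false,[([(0,4,[(11,15)]),(0,3,[(2,2)])],[1,1,1]),([(0,21,[(11,12)])],[4,4])],[],false,1,0,[]),
    (false,[([(0,2,[(16,21)])],[])],[10,6,5],false,3,5,[5,7]),
    (false,[([(0,2,[(16,21)]),(0,7,[(4,5)])],[1])],[6,5,4],false,3,3,[4]),
    (false,[([(0,2,[(16,21)]),(0,7,[(4,5)])],[1]),([(0,9,[(4,4)])],[2,2,1])],[6],false,1,0,[]),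
    (false,[([(0,2,[(16,21)]),(0,28,[(6,7)])],[])],[6,5,3],false,2,1,[]),
    (false,[([(0,16,[(22,22)])],[3,1,1,1])],[6,5,3],false,1,0,[])])]

theorem cj7f_1_ok : runAllJ S42 R42 F42 21 cj7f_1 = true := by decide +kernel

noncomputable def cj7f_2 : List (List ℕ × List NdJ) := [
  ([10,9,8,5,5,4,2,1], [
    (false,[],[10,9,8,5,5,4,2,1],false,5,7,[8,11,15,21,22]),
    (true,[([(0,5,[(6,8)])],[3,1])],[8,7,6,5,3,3],false,5,5,[7,8]),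
    (true,[([(0,4,[(6,8),(6,7)])],[2])],[8,7,6,3,3],false,4,6,[6,7]),
    (false,[([(0,4,[(6,8),(6,7)]),(0,1,[(5,6)])],[3,2])],[9,5,4],false,3,4,[6]),
    (true,[([(0,4,[(6,8),(6,7)])],[2]),([(0,1,[(5,6)]),(0,1,[(4,6)])],[3,2])],[7,3],true,2,4,[3,4,5]),
    (true,[([(0,4,[(6,8),(6,7)]),(0,3,[(3,3)])],[]),([(0,1,[(5,6)]),(0,1,[(4,6)])],[3,2])],[6,3],false,2,2,[3]),
    (false,[([(0,4,[(6,8),(6,7)]),(0,3,[(3,3)])],[4,4,2]),([(0,1,[(5,6)]),(0,1,[(4,6)]),(0,3,[(3,3)])],[1])],[],false,1,0,[]),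
    (true,[([(0,4,[(6,8),(6,7)]),(0,9,[(4,4)])],[]),([(0,1,[(5,6)]),(0,1,[(4,6)])],[3,1])],[6,3],false,2,1,[]),
    (false,[([(0,4,[(6,8),(6,7)]),(0,1,[(5,6)])],[3,2]),([(0,1,[(4,6)]),(0,7,[(5,5)])],[3,3,1])],[],false,1,0,[]),
    (false,[([(0,4,[(6,8),(6,7)]),(0,0,[(7,7)])],[2])],[10,5,4],false,3,4,[6]),
    (true,[([(0,4,[(6,8),(6,7)])],[2]),([(0,0,[(7,7)]),(0,1,[(4,6)])],[2])],[8,3],false,2,2,[3]),
    (true,[([(0,4,[(6,8),(6,7)])],[5,3]),([(0,6,[(7,7),(3,3)]),(0,1,[(4,6)])],[2])],[3],false,1,0,[]),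
    (true,[([(0,5,[(6,8)]),(0,0,[(8,8)])],[2])],[7,6,5,3,3,2],false,5,2,[8]),
    (true,[([(0,5,[(6,8)]),(0,0,[(8,8)])],[]),([(0,5,[(6,8)])],[4,4,2,2])],[6,2],true,2,4,[3,5]),
    (false,[([(0,5,[(6,8)]),(0,8,[(8,8),(3,3)])],[1]),([(0,5,[(6,8)])],[3,3,3,3,2,2])],[],false,1,0,[2,3]),
    (true,[([(0,6,[(6,8),(2,2)]),(0,5,[(6,8)])],[]),([(0,8,[(8,8),(3,3)])],[1,1])],[7,6],false,2,1,[]),
    (true,[([(0,5,[(6,8)]),(0,0,[(8,8)])],[]),([(0,5,[(6,8)])],[4,3,2,2]),([(0,3,[(3,3)]),(0,3,[(3,3)])],[2,1])],[],false,1,0,[]),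
    (true,[([(0,2,[(6,8),(8,8),(4,5)])],[3]),([(0,5,[(6,8)])],[4,4,2,2])],[],false,1,0,[2]),
    (true,[([(0,6,[(6,8),(2,2)]),(0,21,[(8,8),(4,5)])],[]),([(0,5,[(6,8)])],[3,1])],[6,3],false,1,0,[]),
    (true,[([(0,8,[(9,11)])],[1,1])],[8,7,6,5,3,2],false,6,2,[10,11]),
    (false,[([(0,8,[(9,11)]),(0,6,[(7,10)])],[2,2])],[9,5,4,1],true,4,2,[6,8]),
    (true,[([(0,8,[(9,11)]),(0,6,[(7,10)])],[]),([(0,1,[(5,6)])],[2,1,1])],[7,3,3],false,2,3,[4]),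
    (true,[([(0,4,[(9,11),(3,4)])],[5,3]),([(0,6,[(7,10)]),(0,1,[(5,6)])],[2])],[3],false,1,0,[2]),
    (false,[([(0,8,[(9,11)]),(0,3,[(2,2)])],[3,1,1]),([(0,6,[(7,10)]),(0,6,[(5,6),(3,4)])],[3,2])],[],false,1,0,[]),
    (true,[([(0,8,[(9,11)]),(0,6,[(7,10)])],[]),([(0,0,[(7,8)])],[3,2,2,1])],[3,3,1],false,2,1,[]),
    (true,[([(0,8,[(9,11)]),(0,8,[(11,11)])],[])],[7,5,3,3,3,1],false,4,1,[]),
    (true,[([(0,4,[(12,15)])],[2])],[8,7,6,3,3],false,4,6,[6,8,10,11]),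
    (true,[([(0,2,[(12,15),(5,6)])],[3])],[8,6,3,3],false,3,6,[6]),
    (true,[([(0,4,[(12,15)])],[2]),([(0,1,[(5,6)]),(0,1,[(4,6)])],[3,2])],[7,3],false,2,3,[4]),
    (true,[([(0,4,[(12,15)])],[5,3]),([(0,6,[(5,6),(3,4)]),(0,1,[(4,6)])],[2])],[3],false,1,0,[2]),
    (true,[([(0,2,[(12,15),(5,6)])],[3]),([(0,1,[(4,6)]),(0,1,[(3,4),(2,2)])],[3,2])],[3],false,1,0,[]),
    (false,[([(0,4,[(12,15)]),(0,0,[(7,8)])],[2])],[10,5,4],false,3,4,[5]),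
    (true,[([(0,4,[(12,15)]),(0,0,[(7,8)])],[]),([(0,7,[(4,5)])],[3,3,1])],[6,3],false,2,1,[]),
    (true,[([(0,4,[(12,15)])],[2]),([(0,6,[(9,10)])],[4,4,3,3])],[3],false,1,0,[3]),
    (true,[([(0,4,[(12,15)]),(0,3,[(2,3)])],[2]),([(0,6,[(9,10)])],[4,4,3])],[3],false,1,0,[2]),
    (true,[([(0,4,[(12,15)])],[5,3]),([(0,6,[(9,10)]),(1,1,[(2,3),(2,2)])],[2])],[3],false,1,0,[]),
    (false,[([(0,26,[(12,15),(11,11)])],[5,3,3,1])],[5,1],false,1,0,[]),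
    (true,[([(0,2,[(16,21)])],[3])],[8,6,3,3],false,3,6,[6,7]),
    (true,[([(0,2,[(16,21)])],[3]),([(0,1,[(4,6)])],[3,3,2,2,1])],[3],false,1,0,[2,3,4]),
    (true,[([(0,2,[(16,21)])],[3]),([(0,1,[(4,6)]),(0,3,[(2,2)])],[3,3,2])],[3],false,1,0,[2]),
    (true,[([(0,2,[(16,21)])],[3]),([(0,1,[(4,6)]),(1,1,[(2,2),(2,2)])],[3,2])],[3],false,1,0,[2]),
    (true,[([(0,2,[(16,21)])],[3]),([(0,1,[(4,6)]),(1,1,[(2,2),(2,2),(2,2)])],[3,2])],[3],false,1,0,[]),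
    (true,[([(0,2,[(16,21)])],[3]),([(0,1,[(4,6)]),(0,3,[(3,3)])],[3,3,2])],[3],false,1,0,[2]),
    (true,[([(0,2,[(16,21)])],[5,4]),([(0,1,[(4,6)]),(0,7,[(3,3),(2,2)])],[])],[3],false,1,0,[]),
    (true,[([(0,2,[(16,21)])],[3]),([(0,1,[(4,6)]),(0,9,[(4,4)])],[3,3,1])],[3],false,1,0,[]),
    (false,[([(0,10,[(16,21),(7,7)])],[5,3,3])],[5],false,1,0,[]),
    (false,[([(0,32,[(22,22)])],[5,5,4])],[8],false,1,0,[])]),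
  ([10,9,8,6,5,4,1], [
    (false,[],[10,9,8,6,5,4,1],false,6,5,[10,15,21,22]),
    (true,[([(0,6,[(7,10)])],[1,1])],[7,6,6,5,4,3],false,5,3,[6,8,10]),
    (true,[([(0,6,[(7,10)]),(0,1,[(6,6)])],[])],[6,6,6,4,3,2],true,4,4,[5,6]),
    (true,[([(0,2,[(7,10),(6,6),(5,5)])],[])],[7,6,6,3],false,3,3,[5]),
    (true,[([(0,4,[(7,10),(5,5)])],[4]),([(0,1,[(6,6)]),(0,7,[(4,5)])],[])],[7,6],false,2,3,[3,4]),
    (true,[([(0,2,[(7,10),(6,6),(5,5)])],[5]),([(0,7,[(4,5)]),(0,3,[(3,3)])],[3])],[6],false,1,0,[2]),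
    (true,[([(0,2,[(7,10),(6,6),(5,5)])],[5]),([(0,7,[(4,5)]),(0,1,[(3,3),(2,2)])],[])],[6],false,1,0,[]),
    (true,[([(0,2,[(7,10),(6,6),(5,5)])],[6]),([(0,7,[(4,5)]),(0,9,[(4,4)])],[1])],[6],false,1,0,[]),
    (true,[([(0,6,[(7,10)])],[3,2]),([(0,1,[(6,6)]),(0,1,[(6,6)])],[])],[7,6,3],false,3,3,[6]),
    (true,[([(0,6,[(7,10)]),(0,1,[(6,6)])],[]),([(0,1,[(6,6)]),(0,1,[(4,6)])],[])],[6,6,3],false,2,2,[3]),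
    (true,[([(0,6,[(7,10)]),(0,1,[(6,6)])],[]),([(0,1,[(6,6)]),(0,1,[(4,6)])],[]),([(0,3,[(3,3)])],[2,2,1,1])],[6],false,1,0,[]),
    (false,[([(0,6,[(7,10)]),(0,0,[(7,8)])],[1])],[10,9,5],false,3,5,[6,8]),
    (false,[([(0,6,[(7,10)]),(0,0,[(7,8)]),(0,1,[(4,6)])],[])],[9,6,4],false,3,4,[4,5,6]),
    (true,[([(0,6,[(7,10)]),(0,0,[(7,8)])],[]),([(0,1,[(4,6)]),(0,7,[(4,4)])],[])],[6,5,3],false,3,3,[4]),
    (true,[([(0,6,[(7,10)]),(0,0,[(7,8)])],[]),([(0,6,[(4,6),(4,4)])],[4,2]),([(0,9,[(4,4)])],[2,1,1,1])],[],false,1,0,[]),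
    (true,[([(0,6,[(7,10)]),(0,0,[(7,8)])],[]),([(0,1,[(4,6)]),(0,7,[(5,5)])],[])],[6,5,3],false,3,2,[]),
    (false,[([(0,6,[(7,10)]),(0,0,[(7,8)]),(0,1,[(4,6)])],[]),([(0,1,[(6,6)])],[3,3,3,2,1,1])],[],false,1,0,[2]),
    (false,[([(0,6,[(7,10)]),(0,0,[(7,8)]),(0,1,[(4,6)])],[]),([(0,0,[(6,6),(2,2)])],[3,3,2,1,1,1])],[],false,1,0,[]),
    (false,[([(0,6,[(7,10)]),(0,0,[(7,8)]),(0,0,[(7,8)])],[])],[8,5,4],false,3,3,[4]),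
    (true,[([(0,6,[(7,10)])],[4,1]),([(0,5,[(7,8)]),(0,0,[(7,8)])],[]),([(0,9,[(4,4)])],[2,2,2,2])],[],false,1,0,[]),
    (false,[([(0,6,[(7,10)]),(0,6,[(9,10)])],[4,4])],[9,5,1],true,3,3,[4,5,7,8]),
    (false,[([(0,6,[(7,10)]),(0,12,[(9,10),(4,4)])],[4])],[9,6],false,2,4,[3,4]),
    (false,[([(0,6,[(7,10)]),(0,11,[(9,10),(4,4),(3,3)])],[2])],[9,5],false,2,2,[3]),
    (false,[([(0,6,[(7,10)]),(0,11,[(9,10),(4,4),(3,3)])],[2]),([(0,3,[(3,3)])],[2,2,2,2,1,1,1])],[],false,1,0,[]),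
    (false,[([(0,6,[(7,10)]),(0,12,[(9,10),(4,4)])],[4]),([(0,9,[(4,4)])],[2,2,2,2,1,1,1])],[],false,1,0,[2]),
    (false,[([(0,6,[(7,10)]),(0,12,[(9,10),(4,4)])],[4]),([(0,9,[(4,4)]),(0,3,[(2,2)])],[2,2,2,1,1])],[],false,1,0,[]),
    (false,[([(0,4,[(7,10),(5,5)]),(0,6,[(9,10)])],[4])],[9,5],false,2,3,[3,4]),
    (false,[([(0,4,[(7,10),(5,5)]),(0,21,[(9,10),(3,3)])],[])],[10,5],false,2,1,[]),
    (false,[([(0,4,[(7,10),(5,5)]),(0,6,[(9,10)])],[4]),([(0,9,[(4,4)])],[2,2,2,1,1,1,1])],[],false,1,0,[]),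
    (false,[([(0,6,[(7,10)]),(0,11,[(9,10),(6,7)])],[2])],[9,5],false,2,2,[3]),
    (false,[([(0,6,[(7,10)]),(0,11,[(9,10),(6,7)])],[2]),([(0,3,[(3,3)])],[2,2,2,2,1,1,1])],[],false,1,0,[]),
    (false,[([(0,10,[(7,10),(9,10),(8,8)])],[6,6,3])],[],false,1,0,[]),
    (true,[([(0,4,[(11,15)])],[1])],[7,6,6,5,3],false,4,3,[6,8,10,12]),
    (false,[([(0,4,[(11,15)]),(0,1,[(5,6)])],[4,4])],[9,5],false,1,0,[2,4,6]),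
    (true,[([(0,4,[(11,15)])],[5]),([(0,1,[(5,6)]),(0,3,[(2,2)])],[1])],[7,6],false,2,6,[]),
    (false,[([(0,4,[(11,15)]),(0,6,[(5,6),(3,4)])],[4])],[9,5],false,2,5,[3,4]),
    (false,[([(0,4,[(11,15)]),(0,6,[(5,6),(3,4)])],[4]),([(0,3,[(3,3)])],[2,2,2,2,1,1,1])],[],false,1,0,[2,3]),
    (false,[([(0,4,[(11,15)]),(0,6,[(5,6),(3,4)])],[4]),([(0,3,[(3,3)]),(0,3,[(2,2)])],[2,2,2,1,1])],[],false,1,0,[2]),
    (false,[([(0,4,[(11,15)]),(0,6,[(5,6),(3,4)])],[4]),([(0,3,[(3,3)]),(0,3,[(2,2)]),(0,3,[(2,2)])],[2,2,1])],[],false,1,0,[2]),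
    (false,[([(0,4,[(11,15)]),(0,6,[(5,6),(3,4)])],[4]),([(0,3,[(3,3)]),(0,3,[(2,2)]),(0,3,[(2,2)]),(0,3,[(2,2)])],[2])],[],false,1,0,[]),
    (false,[([(0,4,[(11,15)]),(0,6,[(5,6),(3,4)])],[4]),([(0,3,[(3,3)]),(0,3,[(3,3)])],[2,2,2,1,1])],[],false,1,0,[2]),
    (false,[([(0,4,[(11,15)]),(0,6,[(5,6),(3,4)])],[4]),([(0,3,[(3,3)]),(0,3,[(3,3)]),(0,3,[(2,2)])],[2,2,1])],[],false,1,0,[]),
    (false,[([(0,4,[(11,15)]),(0,6,[(5,6),(3,4)])],[4]),([(0,9,[(4,4)])],[2,2,2,1,1,1,1])],[],false,1,0,[3]),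
    (false,[([(0,4,[(11,15)]),(0,6,[(5,6),(3,4)])],[4]),([(0,9,[(4,4)]),(0,3,[(2,3)])],[2,2,1,1,1])],[],false,1,0,[2]),
    (false,[([(0,4,[(11,15)]),(0,6,[(5,6),(3,4)])],[4]),([(0,9,[(4,4)]),(0,3,[(2,3)]),(0,3,[(2,2)])],[2,1,1])],[],false,1,0,[]),
    (true,[([(0,4,[(11,15)])],[4,3]),([(0,1,[(5,6)]),(0,1,[(5,6)])],[])],[6,3],false,2,3,[3,4]),
    (true,[([(0,4,[(11,15)])],[4,3]),([(0,1,[(5,6)]),(0,1,[(5,6)])],[]),([(0,3,[(3,3)])],[2,2,1,1])],[],false,1,0,[2]),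
    (true,[([(0,4,[(11,15)])],[4,3]),([(0,1,[(5,6)]),(0,1,[(5,6)])],[]),([(0,3,[(3,3)]),(0,3,[(2,2)])],[2,1])],[],false,1,0,[]),
    (true,[([(0,4,[(11,15)])],[1]),([(0,1,[(5,6)]),(0,1,[(5,6)])],[3]),([(0,9,[(4,4)])],[2,2,2,2])],[],false,1,0,[]),
    (true,[([(0,4,[(11,15)])],[]),([(0,0,[(7,8)])],[3,2,2])],[7,6],false,2,5,[3,6]),
    (true,[([(0,4,[(11,15)]),(0,3,[(3,3)])],[]),([(0,0,[(7,8)])],[3,2,2])],[6,4],false,2,3,[3]),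
    (true,[([(0,4,[(11,15)])],[1]),([(0,0,[(7,8)]),(0,1,[(3,3),(3,3)])],[])],[7,6],false,2,1,[]),
    (true,[([(0,4,[(11,15)])],[1]),([(0,0,[(7,8)]),(0,1,[(4,6)])],[])],[7,6],false,2,2,[3]),
    (true,[([(0,4,[(11,15)])],[1]),([(0,0,[(7,8)]),(0,1,[(4,6)])],[]),([(0,3,[(3,3)])],[2,2,2,2,2])],[],false,1,0,[]),
    (false,[([(0,4,[(11,15)]),(0,6,[(9,10)])],[4])],[9,5],false,2,3,[3,4]),
    (false,[([(0,4,[(11,15)]),(0,21,[(9,10),(3,3)])],[])],[10,5],false,2,1,[]),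
    (false,[([(0,4,[(11,15)]),(0,6,[(9,10)])],[4]),([(0,9,[(4,4)])],[2,2,2,1,1,1,1])],[],false,1,0,[]),
    (false,[([(0,4,[(11,15)]),(0,13,[(11,12)])],[])],[10,6],false,2,1,[]),
    (true,[([(0,2,[(16,21)])],[])],[7,6,6,3],false,3,3,[5,6,7]),
    (true,[([(0,2,[(16,21)])],[3]),([(0,7,[(4,5)])],[3,3,2])],[6],false,1,0,[2,3,4]),
    (true,[([(0,2,[(16,21)])],[5]),([(0,7,[(4,5)]),(0,3,[(2,2)])],[3])],[6],false,1,0,[2]),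
    (true,[([(0,2,[(16,21)])],[5]),([(0,7,[(4,5)]),(1,1,[(2,2),(2,2)])],[])],[6],false,1,0,[2]),
    (true,[([(0,2,[(16,21)])],[5]),([(0,7,[(4,5)]),(1,1,[(2,2),(2,2),(2,2)])],[])],[6],false,1,0,[]),
    (true,[([(0,2,[(16,21)])],[5]),([(0,7,[(4,5)]),(0,3,[(3,3)])],[3])],[6],false,1,0,[2]),
    (true,[([(0,2,[(16,21)])],[5]),([(0,7,[(4,5)]),(0,1,[(3,3),(2,2)])],[])],[6],false,1,0,[]),
    (true,[([(0,2,[(16,21)])],[6]),([(0,7,[(4,5)]),(0,9,[(4,4)])],[1])],[6],false,1,0,[]),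
    (true,[([(0,2,[(16,21)])],[]),([(0,1,[(6,6)])],[3,3,2,2])],[6],false,1,0,[2]),
    (true,[([(0,2,[(16,21)])],[]),([(0,0,[(6,6),(2,2)])],[3,2,2])],[7],false,1,0,[]),
    (false,[([(0,10,[(16,21),(7,7)])],[6,6,3])],[],false,1,0,[]),
    (false,[([(0,16,[(22,22)])],[5,5,3,3])],[5],false,1,0,[])]),
  ([10,9,8,7,4,3,2], [
    (false,[],[10,9,8,7,4,3,2],false,6,4,[10,14,19,22]),
    (true,[([(0,6,[(7,10)])],[])],[7,7,6,5,4,4],false,4,5,[6,8,10]),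
    (true,[([(0,6,[(7,10)]),(0,1,[(5,6)])],[])],[7,6,4,4,4,2],false,3,7,[4,5,6]),
    (true,[([(0,6,[(7,10)]),(0,1,[(5,6)])],[]),([(0,9,[(4,4)])],[2,2])],[7,6,4,2],false,4,2,[]),
    (true,[([(0,6,[(7,10)]),(0,7,[(5,5)])],[]),([(0,1,[(5,6)])],[3,2])],[7,6,4],false,3,4,[5]),
    (true,[([(0,6,[(7,10)]),(0,7,[(5,5)])],[]),([(0,1,[(5,6)]),(0,7,[(4,5)])],[2])],[6,5,4],false,3,4,[4,5]),
    (true,[([(0,4,[(7,10),(5,5)])],[5,4]),([(0,6,[(5,6),(4,4)]),(0,7,[(4,5)])],[])],[4],false,1,0,[2]),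
    (true,[([(0,4,[(7,10),(5,5)])],[3]),([(0,1,[(5,6)]),(0,7,[(4,5)])],[3]),([(0,9,[(4,4)]),(0,3,[(2,2)])],[2,1,1])],[],false,1,0,[]),
    (false,[([(0,6,[(7,10)]),(0,6,[(5,5),(4,5)])],[2]),([(0,1,[(5,6)]),(0,1,[(5,5)])],[3,2,2,2])],[],false,1,0,[]),
    (true,[([(0,6,[(7,10)])],[3]),([(0,1,[(5,6)]),(0,1,[(6,6)])],[1])],[7,6,4],false,3,4,[6]),
    (true,[([(0,6,[(7,10)]),(0,1,[(5,6)])],[]),([(0,1,[(6,6)]),(0,1,[(4,6)])],[])],[7,4,4],false,2,3,[4]),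
    (false,[([(0,6,[(7,10)]),(0,6,[(5,6),(3,4)])],[2]),([(0,1,[(6,6)]),(0,1,[(4,6)])],[3,2,2,2])],[],false,1,0,[2]),
    (false,[([(0,6,[(7,10)]),(0,6,[(5,6),(3,4)])],[2]),([(0,0,[(6,6),(2,2)]),(0,1,[(4,6)])],[2,2,2,1])],[],false,1,0,[]),
    (true,[([(0,6,[(7,10)]),(0,0,[(7,8)])],[])],[7,5,4,4,3,2],false,5,2,[8]),
    (true,[([(0,6,[(7,10)]),(0,0,[(7,8)])],[]),([(0,5,[(6,8)])],[4,3,1])],[5,4],false,2,4,[3,5]),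
    (true,[([(0,6,[(7,10)]),(0,0,[(7,8)])],[]),([(0,5,[(6,8)])],[4,3,1]),([(0,3,[(3,3)])],[2,2,2])],[],false,1,0,[3]),
    (false,[([(0,6,[(7,10)]),(0,5,[(6,8)])],[2,2]),([(0,0,[(7,8)]),(0,1,[(3,3),(2,3)])],[3,2,2])],[],false,1,0,[2]),
    (false,[([(0,6,[(7,10)]),(0,6,[(6,8),(2,2)])],[2]),([(0,0,[(7,8)]),(0,1,[(3,3),(2,3)])],[2,2,2,1])],[],false,1,0,[]),
    (false,[([(0,6,[(7,10)]),(0,5,[(6,8)])],[2,2]),([(0,0,[(7,8)]),(0,1,[(4,5)])],[3,2,2])],[],false,1,0,[2]),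
    (false,[([(0,6,[(7,10)]),(0,6,[(6,8),(2,2)])],[2]),([(0,0,[(7,8)]),(0,7,[(4,5)])],[2,2,2,2])],[],false,1,0,[]),
    (false,[([(0,6,[(7,10)]),(0,6,[(9,10)])],[2])],[10,8,3],false,3,3,[6,8]),
    (true,[([(0,6,[(7,10)]),(0,1,[(4,6)])],[]),([(0,8,[(9,10)])],[4,1])],[7,4],false,2,4,[3,5]),
    (true,[([(0,6,[(7,10)])],[3]),([(0,21,[(9,10),(3,3)]),(0,1,[(4,6)])],[])],[7,4],false,2,2,[3]),
    (false,[([(0,6,[(7,10)]),(0,21,[(9,10),(3,3)])],[3,3]),([(0,1,[(4,6)]),(0,3,[(3,3)])],[3,1,1])],[],false,1,0,[]),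
    (false,[([(0,6,[(7,10)]),(0,6,[(9,10)])],[2]),([(0,1,[(4,6)]),(0,1,[(4,5)])],[3,2,2,2])],[],false,1,0,[2]),
    (false,[([(0,6,[(7,10)]),(0,8,[(9,10)])],[4,3]),([(0,1,[(4,6)]),(0,7,[(4,5)]),(0,3,[(2,2)])],[1])],[],false,1,0,[]),
    (true,[([(0,6,[(7,10)]),(0,0,[(7,8)])],[]),([(0,6,[(9,10)])],[4])],[7,4],false,2,1,[]),
    (true,[([(0,12,[(11,14)])],[3,3])],[7,5,4,4,3],false,4,3,[5,7,9,12]),
    (true,[([(0,14,[(11,14),(5,5)])],[4])],[7,5,4,4],false,3,5,[5]),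
    (true,[([(0,12,[(11,14)])],[4,4]),([(0,7,[(5,5)]),(0,7,[(4,5)])],[2])],[5,4],false,2,4,[3,5]),
    (true,[([(0,14,[(11,14),(5,5)])],[4]),([(0,5,[(4,5),(3,3)])],[4,4,4])],[],false,1,0,[3]),
    (true,[([(0,12,[(11,14)])],[5,4]),([(0,6,[(5,5),(4,5)]),(0,1,[(3,3),(2,3)])],[])],[4],false,1,0,[2]),
    (true,[([(0,2,[(11,14),(5,5),(2,2)])],[4]),([(0,7,[(4,5)]),(0,1,[(3,3),(2,3)])],[3])],[4],false,1,0,[]),
    (true,[([(0,12,[(11,14)])],[4,4]),([(0,4,[(5,5),(4,5),(4,5)])],[5,1])],[],false,1,0,[2]),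
    (true,[([(0,2,[(11,14),(5,5),(2,2)])],[4]),([(0,7,[(4,5)]),(0,1,[(4,5)])],[3])],[4],false,1,0,[]),
    (true,[([(0,2,[(11,14),(6,7)])],[1])],[7,6,4,4],false,3,6,[6,7]),
    (true,[([(0,2,[(11,14),(6,7)])],[1]),([(0,1,[(4,6)])],[3,3,3,2])],[4],false,1,0,[2,3,4]),
    (true,[([(0,2,[(11,14),(6,7)])],[5]),([(0,1,[(4,6)]),(0,3,[(2,2)])],[3,1])],[4],false,1,0,[2]),
    (true,[([(0,2,[(11,14),(6,7)])],[5]),([(0,1,[(4,6)]),(1,1,[(2,2),(2,2)])],[1])],[4],false,1,0,[2]),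
    (true,[([(0,2,[(11,14),(6,7)])],[5]),([(0,1,[(4,6)]),(1,1,[(2,2),(2,2),(2,2)])],[1])],[4],false,1,0,[]),
    (true,[([(0,2,[(11,14),(6,7)])],[5]),([(0,1,[(4,6)]),(0,3,[(3,3)])],[3,1])],[4],false,1,0,[2]),
    (true,[([(0,2,[(11,14),(6,7)])],[4]),([(0,1,[(4,6)]),(0,7,[(3,3),(2,2)])],[3])],[4],false,1,0,[]),
    (true,[([(0,2,[(11,14),(6,7)])],[6]),([(0,1,[(4,6)]),(0,9,[(4,4)])],[1,1])],[4],false,1,0,[]),
    (false,[([(0,10,[(11,14),(6,7),(7,7)])],[7,4,4])],[],false,1,0,[]),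
    (true,[([(0,12,[(11,14)])],[3,3]),([(0,6,[(8,9)])],[4,4,1])],[4],false,1,0,[3,5]),
    (false,[([(0,12,[(11,14)]),(0,22,[(8,9),(2,3)])],[])],[9,8],false,2,3,[3]),
    (true,[([(0,12,[(11,14)])],[4,4]),([(0,4,[(8,9),(2,3),(3,3)])],[5,1])],[],false,1,0,[2]),
    (true,[([(0,12,[(11,14)])],[5,3]),([(0,8,[(8,9),(2,2)]),(0,1,[(2,3),(3,3)])],[])],[4],false,1,0,[]),
    (true,[([(0,12,[(11,14)])],[4,4]),([(0,4,[(8,9),(4,5)])],[5,1])],[],false,1,0,[2]),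
    (true,[([(0,12,[(11,14)])],[5,3]),([(0,8,[(8,9),(2,2)]),(0,7,[(4,5)])],[])],[5],false,1,0,[]),
    (false,[([(0,12,[(11,14)]),(0,22,[(10,12)])],[])],[9,8],false,2,2,[3]),
    (true,[([(0,12,[(11,14)])],[4,4]),([(0,4,[(10,12),(3,3)])],[5,1])],[],false,1,0,[]),
    (true,[([(0,14,[(15,19)])],[4])],[7,5,4,4],false,3,5,[4,5,6,8]),
    (true,[([(0,14,[(15,19)])],[4]),([(0,9,[(4,4)])],[2,2])],[7,5],false,2,4,[3,4]),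
    (true,[([(0,14,[(15,19)])],[4]),([(0,9,[(4,4)]),(0,3,[(3,3)])],[2])],[7,4],false,2,2,[3]),
    (true,[([(0,14,[(15,19)])],[4]),([(0,9,[(4,4)]),(0,3,[(3,3)]),(0,3,[(3,3)])],[1])],[5,4],false,1,0,[]),
    (true,[([(0,14,[(15,19)])],[4]),([(0,9,[(4,4)]),(0,9,[(4,4)])],[])],[7,5],false,2,1,[]),
    (true,[([(0,14,[(15,19)])],[4]),([(0,7,[(5,5)])],[3,3,3,1])],[5],false,1,0,[2,3,4]),
    (true,[([(0,2,[(15,19),(2,2)])],[]),([(0,7,[(5,5)])],[3,3,3,1])],[7],false,1,0,[2]),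
    (true,[([(0,2,[(15,19),(2,2)])],[3]),([(0,28,[(5,5),(2,2)])],[4,4,4])],[],false,1,0,[2]),
    (true,[([(0,2,[(15,19),(2,2)])],[4]),([(0,7,[(5,5)]),(1,1,[(2,2),(2,2)])],[3])],[4],false,1,0,[]),
    (true,[([(0,14,[(15,19)])],[4]),([(0,5,[(5,5),(3,3)])],[4,4,4])],[],false,1,0,[2]),
    (true,[([(0,2,[(15,19),(2,2)])],[2]),([(0,5,[(5,5),(3,3)])],[4,4,4])],[],false,1,0,[]),
    (false,[([(0,10,[(15,19),(5,5),(4,4)])],[7,4,4])],[],false,1,0,[]),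
    (true,[([(0,14,[(15,19)])],[4]),([(0,1,[(6,6)])],[3,3,3,1])],[4],false,1,0,[2,3]),
    (true,[([(0,2,[(15,19),(2,2)])],[1]),([(0,1,[(6,6)])],[3,3,3,2])],[4],false,1,0,[2]),
    (true,[([(0,2,[(15,19),(2,2)])],[2]),([(0,5,[(6,6),(2,2)])],[4,4,4])],[],false,1,0,[]),
    (false,[([(0,10,[(15,19),(6,6),(3,3)])],[7,4,4])],[],false,1,0,[]),
    (true,[([(0,14,[(15,19)])],[4]),([(0,5,[(7,8)])],[4,4,4])],[],false,1,0,[2]),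
    (true,[([(0,2,[(15,19),(2,2)])],[2]),([(0,5,[(7,8)])],[4,4,4])],[],false,1,0,[]),
    (true,[([(0,16,[(20,22)])],[])],[7,7,4,3],false,3,2,[])]),
  ([10,9,8,7,5,2,1], [
    (false,[],[10,9,8,7,5,2,1],false,5,7,[6,10,13,17,22]),
    (true,[([(0,1,[(6,6)])],[2,2])],[7,6,5,5,4,3,2],false,5,4,[6]),
    (true,[([(0,1,[(6,6)]),(0,1,[(6,6)])],[])],[7,5,5,5,4,3,1],true,5,2,[6]),
    (true,[([(0,1,[(6,6)]),(0,1,[(6,6)])],[2]),([(0,1,[(6,6)])],[2,2])],[6,5,4,3],false,4,3,[6]),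
    (true,[([(0,1,[(6,6)]),(0,1,[(6,6)])],[]),([(0,1,[(6,6)]),(0,1,[(5,6)])],[3])],[5,5,4,1],false,3,1,[]),
    (true,[([(0,6,[(7,10)])],[2])],[7,6,5,5,4,3],false,5,3,[6,8,9,10]),
    (true,[([(0,6,[(7,10)]),(0,1,[(6,6)])],[])],[6,5,5,4,4,2],false,3,8,[5,6]),
    (false,[([(0,6,[(7,10)]),(0,8,[(6,6),(4,5)])],[3,3])],[9,5,1],true,3,3,[4,5]),
    (false,[([(0,6,[(7,10)]),(0,8,[(6,6),(4,5)]),(0,9,[(4,4)])],[])],[9,7,1],true,3,2,[4]),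
    (false,[([(0,6,[(7,10)]),(0,8,[(6,6),(4,5)]),(0,9,[(4,4)])],[]),([(0,9,[(4,4)])],[2,2,2,2,2,1,1])],[1],false,1,0,[2]),
    (false,[([(0,6,[(7,10)]),(0,8,[(6,6),(4,5)]),(0,9,[(4,4)])],[]),([(0,1,[(4,4),(2,2)])],[2,2,2,2,2,1])],[],false,1,0,[]),
    (true,[([(0,6,[(7,10)]),(0,7,[(5,5)])],[]),([(0,8,[(6,6),(4,5)])],[4,3])],[5,4],false,2,3,[3,4]),
    (true,[([(0,4,[(7,10),(5,5)])],[4]),([(0,8,[(6,6),(4,5)]),(0,3,[(3,3)])],[4])],[5],false,1,0,[2]),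
    (true,[([(0,4,[(7,10),(5,5)])],[5]),([(0,8,[(6,6),(4,5)]),(0,1,[(3,3),(2,2)])],[])],[5],false,1,0,[]),
    (true,[([(0,2,[(7,10),(6,6),(5,5)])],[6]),([(0,1,[(4,5)]),(0,9,[(4,4)])],[])],[5],false,1,0,[]),
    (true,[([(0,6,[(7,10)]),(0,1,[(6,6)])],[]),([(0,1,[(6,6)])],[3,2])],[6,5,4],false,3,4,[6]),
    (true,[([(0,6,[(7,10)]),(0,1,[(6,6)])],[]),([(0,1,[(6,6)]),(0,1,[(4,6)])],[])],[5,5,4],false,2,2,[3]),
    (true,[([(0,6,[(7,10)]),(0,1,[(6,6)])],[]),([(0,1,[(6,6)]),(0,1,[(4,6)])],[]),([(0,3,[(3,3)])],[2,2,2])],[5],false,1,0,[]),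
    (true,[([(0,6,[(7,10)]),(0,0,[(7,8)])],[])],[5,5,5,4,3,2],true,4,3,[5,6,8]),
    (false,[([(0,6,[(7,10)]),(0,0,[(7,8)]),(0,7,[(5,5)])],[])],[9,8,2],false,3,2,[5]),
    (true,[([(0,4,[(7,10),(5,5)])],[]),([(0,0,[(7,8)]),(0,7,[(4,5)])],[3])],[6,5],false,2,2,[3]),
    (true,[([(0,4,[(7,10),(5,5)])],[5]),([(0,8,[(7,8),(3,3)]),(0,1,[(4,5)])],[])],[5],false,1,0,[]),
    (false,[([(0,6,[(7,10)]),(0,0,[(7,8)]),(0,1,[(6,6)])],[])],[9,7,2],false,3,2,[5]),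
    (true,[([(0,6,[(7,10)])],[4]),([(0,0,[(7,8)]),(0,8,[(6,6),(4,5)])],[])],[5,4],false,2,1,[]),
    (true,[([(0,6,[(7,10)]),(0,0,[(7,8)])],[]),([(0,0,[(7,8)])],[2,2])],[5,4,3],false,3,3,[4]),
    (true,[([(0,6,[(7,10)])],[4,3]),([(0,5,[(7,8)]),(0,0,[(7,8)])],[]),([(0,9,[(4,4)])],[2,2,1])],[],false,1,0,[]),
    (true,[([(0,6,[(7,10)]),(0,24,[(9,9)])],[])],[5,5,4,4,3,2],false,4,2,[6,8]),
    (true,[([(0,6,[(7,10)]),(0,24,[(9,9)])],[]),([(0,1,[(5,6)])],[3,2])],[5,4,3],false,3,3,[4]),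
    (true,[([(0,6,[(7,10)])],[4,4]),([(0,33,[(9,9),(5,6),(4,4)])],[5])],[],false,1,0,[]),
    (false,[([(0,6,[(7,10)]),(0,11,[(9,9),(7,8)])],[4])],[9,2],false,2,1,[]),
    (true,[([(0,2,[(7,10),(10,10)])],[])],[7,5,5,4],false,3,4,[6,7]),
    (true,[([(0,6,[(7,10)]),(0,1,[(4,6)])],[]),([(0,6,[(10,10)])],[4,3])],[5,4],false,2,3,[3,4]),
    (true,[([(0,6,[(7,10)]),(0,1,[(4,6)])],[]),([(0,21,[(10,10),(3,3)])],[3])],[6,4],false,2,1,[]),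
    (true,[([(0,2,[(7,10),(10,10)])],[6]),([(0,1,[(4,6)]),(0,9,[(4,4)])],[])],[5],false,1,0,[]),
    (false,[([(0,10,[(7,10),(10,10),(7,7)])],[5,5,4])],[],false,1,0,[]),
    (true,[([(0,21,[(11,13)])],[3])],[7,6,5,4,3,1],false,5,4,[8,11,12]),
    (true,[([(0,2,[(11,13),(6,8)])],[])],[7,5,5,4],false,3,4,[6,7]),
    (true,[([(0,21,[(11,13)])],[4]),([(0,5,[(6,8)]),(0,1,[(4,6)])],[])],[6,5],false,2,3,[3,4]),
    (true,[([(0,21,[(11,13)])],[4]),([(0,5,[(6,8)]),(0,1,[(4,6)])],[]),([(0,3,[(3,3)])],[2,2,2,2])],[],false,1,0,[2]),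
    (true,[([(0,21,[(11,13)])],[3]),([(0,6,[(6,8),(2,2)]),(0,1,[(4,6)])],[]),([(0,3,[(3,3)])],[2,2,2,1])],[],false,1,0,[]),
    (true,[([(0,2,[(11,13),(6,8)])],[6]),([(0,1,[(4,6)]),(0,9,[(4,4)])],[])],[5],false,1,0,[]),
    (false,[([(0,10,[(11,13),(6,8),(7,7)])],[5,5,4])],[],false,1,0,[]),
    (false,[([(0,21,[(11,13)]),(0,8,[(9,11)])],[4,4])],[7,2,1],false,3,1,[4]),
    (false,[([(0,10,[(11,13),(9,11),(4,4)])],[5,5,4])],[],false,1,0,[]),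
    (false,[([(0,26,[(11,13),(12,12)])],[5,5,4,1])],[1],false,1,0,[]),
    (true,[([(0,11,[(14,17)])],[4])],[7,5,4,3,2],false,5,2,[7,9]),
    (true,[([(0,11,[(14,17)])],[3]),([(0,28,[(6,7)])],[4,3,3])],[5],false,1,0,[3,4]),
    (false,[([(0,11,[(14,17)]),(0,6,[(6,7),(2,3)])],[4])],[9,2],false,2,2,[3]),
    (false,[([(0,11,[(14,17)]),(0,6,[(6,7),(2,3)])],[4]),([(0,3,[(3,3)])],[2,1,1,1,1,1,1])],[],false,1,0,[]),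
    (false,[([(0,10,[(14,17),(6,7),(4,4)])],[5,5,4])],[],false,1,0,[]),
    (false,[([(0,11,[(14,17)]),(0,6,[(8,9)])],[4])],[9,2],false,2,1,[]),
    (true,[([(0,16,[(18,22)])],[])],[7,5,5,3],false,3,3,[5]),
    (true,[([(0,16,[(18,22)])],[]),([(0,7,[(4,5)])],[3,3,2,2])],[5],false,1,0,[2]),
    (true,[([(0,16,[(18,22)])],[]),([(0,1,[(4,5)]),(0,3,[(2,2)])],[3,3])],[5],false,1,0,[])]),
  ([10,9,8,7,6,2,1], [
    (false,[],[10,9,8,7,6,2,1],false,5,8,[6,8,11,14,17,22]),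
    (false,[([(0,1,[(6,6)])],[1,1,1])],[10,9,8,7],false,4,7,[6]),
    (true,[([(0,1,[(6,6)]),(0,1,[(5,6)])],[2])],[6,5,5,5,4,3,1],false,4,4,[5,6]),
    (true,[([(0,8,[(6,6),(5,5)]),(0,1,[(5,6)])],[])],[6,5,5,5,3,2],false,4,2,[5]),
    (true,[([(0,8,[(6,6),(5,5)])],[3,3]),([(0,1,[(5,6)]),(0,1,[(5,5)])],[2])],[5,4,3],false,3,3,[5]),
    (true,[([(0,8,[(6,6),(5,5)])],[4,3]),([(0,1,[(5,6)]),(0,6,[(5,5),(4,5)])],[])],[5,4],false,2,1,[]),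
    (true,[([(0,1,[(6,6)]),(0,1,[(5,6)])],[2]),([(0,1,[(6,6)])],[2,1])],[6,5,5,4],false,3,4,[4,6]),
    (true,[([(0,8,[(6,6),(4,4)])],[3,3]),([(0,1,[(5,6)]),(0,1,[(6,6)])],[2])],[5,4,3],false,3,3,[4]),
    (true,[([(1,2,[(6,6),(5,6),(6,6),(4,4)])],[]),([(0,9,[(4,4)])],[2,2,2])],[5],false,1,0,[2]),
    (true,[([(1,2,[(6,6),(5,6),(6,6),(4,4),(2,2)])],[]),([(0,9,[(4,4)])],[2,2,2])],[5],false,1,0,[]),
    (true,[([(0,1,[(6,6)]),(0,1,[(5,6)])],[]),([(0,1,[(6,6)]),(0,1,[(5,6)])],[3])],[5,5,5,1],true,2,3,[3,4]),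
    (true,[([(0,4,[(6,6),(5,6),(3,3)])],[3]),([(0,1,[(6,6)]),(0,1,[(5,6)])],[3])],[5,5],false,1,0,[2]),
    (true,[([(0,2,[(6,6),(5,6),(5,6),(3,3)])],[3]),([(0,0,[(6,6),(2,2)])],[3,3])],[5],false,1,0,[]),
    (true,[([(0,23,[(6,6),(6,6)])],[4,4]),([(0,1,[(5,6)]),(0,1,[(5,6)])],[]),([(0,9,[(4,4)])],[2,2,2])],[],false,1,0,[]),
    (true,[([(0,0,[(7,8)])],[2,2])],[7,6,5,5,4,3,1],false,5,4,[6,8]),
    (true,[([(0,0,[(7,8)]),(0,1,[(6,6)])],[])],[7,5,5,5,4,2,1],true,5,2,[6]),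
    (true,[([(0,0,[(7,8)])],[2,2]),([(0,1,[(6,6)]),(0,1,[(6,6)])],[3])],[6,5,4,1],false,4,1,[6]),
    (true,[([(0,0,[(7,8)]),(0,1,[(5,6)])],[]),([(0,23,[(6,6),(6,6)])],[4,3])],[5,4],false,2,1,[]),
    (false,[([(0,0,[(7,8)]),(0,0,[(7,8)])],[3,3,1])],[10,7,2,1],true,4,3,[6,8]),
    (false,[([(0,0,[(7,8)]),(0,0,[(7,8)]),(0,1,[(5,6)])],[3])],[8,7,2,1],false,4,1,[6]),
    (true,[([(0,4,[(7,8),(5,6)])],[3]),([(0,0,[(7,8)]),(0,1,[(5,6)])],[1])],[5,5],false,1,0,[2]),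
    (false,[([(0,6,[(7,8),(2,2)]),(0,0,[(7,8)])],[3,3]),([(0,1,[(5,6)]),(0,1,[(5,6)])],[2,2,2,1])],[],false,1,0,[]),
    (false,[([(0,0,[(7,8)]),(0,0,[(7,8)]),(0,0,[(7,8)])],[1])],[8,7,2,1],false,4,1,[]),
    (true,[([(0,8,[(9,11)])],[3,3])],[7,5,5,4,3,2],false,4,4,[6,8,11]),
    (true,[([(0,8,[(9,11)]),(0,1,[(5,6)])],[])],[6,5,5,5,3,2],false,3,5,[5,6]),
    (true,[([(0,8,[(9,11)])],[3,3]),([(0,1,[(5,6)]),(0,1,[(4,5)])],[2])],[5,4,3],false,3,3,[5]),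
    (true,[([(0,8,[(9,11)])],[4,3]),([(0,1,[(5,6)]),(0,6,[(4,5),(4,5)])],[])],[5,4],false,2,3,[3,4]),
    (false,[([(0,8,[(9,11)]),(0,6,[(4,5),(4,5)])],[3]),([(0,1,[(5,6)]),(0,3,[(3,3)])],[2,2,2,2,2])],[],false,1,0,[2]),
    (false,[([(0,8,[(9,11)]),(0,6,[(4,5),(4,5)])],[3,3]),([(0,1,[(5,6)]),(0,3,[(3,3)]),(0,3,[(2,2)])],[2,2])],[],false,1,0,[]),
    (true,[([(0,8,[(9,11)]),(0,1,[(5,6)])],[]),([(0,6,[(4,5),(4,5)])],[4,2]),([(0,9,[(4,4)])],[2,2,2])],[],false,1,0,[]),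
    (true,[([(0,8,[(9,11)])],[3,3]),([(0,1,[(5,6)]),(0,1,[(6,6)])],[2])],[5,4,3],false,3,3,[5]),
    (true,[([(0,11,[(9,11),(6,6)])],[3]),([(0,1,[(5,6)]),(0,1,[(4,5)])],[2])],[5,4],false,2,1,[]),
    (true,[([(0,8,[(9,11)]),(0,0,[(7,8)])],[])],[5,5,5,4,3,2],false,4,2,[6,8]),
    (false,[([(0,8,[(9,11)]),(0,0,[(7,8)]),(0,1,[(5,6)])],[])],[9,7,2],false,3,2,[4]),
    (true,[([(0,2,[(9,11),(5,6),(4,4)])],[3]),([(0,0,[(7,8)])],[3,3])],[5],false,1,0,[]),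
    (true,[([(0,8,[(9,11)])],[4,3]),([(0,5,[(7,8)]),(0,0,[(7,8)])],[])],[5,4],false,2,1,[]),
    (false,[([(0,8,[(9,11)]),(0,8,[(9,11)])],[2])],[10,8,1],true,3,2,[6]),
    (true,[([(0,8,[(9,11)]),(0,1,[(4,6)])],[]),([(0,8,[(9,11)])],[4,3])],[5,3],false,2,2,[3]),
    (false,[([(0,8,[(9,11)]),(0,8,[(9,11)]),(0,3,[(3,3)])],[]),([(0,1,[(4,6)])],[2,2,2,2,2,2])],[],false,1,0,[]),
    (true,[([(0,4,[(12,14)])],[])],[7,6,5,5,5],false,3,6,[5,7,8,10,11]),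
    (false,[([(0,4,[(12,14)]),(0,7,[(4,5)])],[3,3])],[9,8],false,2,7,[3,4,5]),
    (true,[([(0,11,[(12,14),(3,3)])],[4]),([(0,7,[(4,5)])],[3,2])],[7,5],false,2,5,[3]),
    (true,[([(0,11,[(12,14),(3,3)])],[3]),([(0,1,[(4,5)]),(0,3,[(3,3)])],[3,2])],[5,4],false,2,3,[3]),
    (true,[([(0,11,[(12,14),(3,3)])],[3]),([(0,1,[(4,5)]),(0,1,[(3,3),(3,3)])],[2])],[5,4],false,2,1,[]),
    (true,[([(0,14,[(12,14),(4,5)])],[4]),([(0,9,[(4,4)])],[2,2,2])],[5,5],false,1,0,[2,3,4]),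
    (true,[([(0,2,[(12,14),(4,5),(2,2)])],[]),([(0,9,[(4,4)])],[2,2,2])],[7,5],false,2,3,[]),
    (true,[([(0,11,[(12,14),(3,3)])],[3]),([(0,7,[(4,5)]),(0,9,[(4,4)])],[3,2])],[5,4],false,2,2,[3]),
    (true,[([(0,11,[(12,14),(3,3)])],[4]),([(0,6,[(4,5),(4,4)]),(0,3,[(3,3)])],[4])],[5],false,1,0,[]),
    (true,[([(0,14,[(12,14),(4,5)])],[4]),([(0,9,[(4,4)]),(0,9,[(4,4)])],[2])],[5,5],false,1,0,[2]),
    (true,[([(0,2,[(12,14),(4,5),(2,2)])],[]),([(0,9,[(4,4)]),(0,9,[(4,4)])],[2])],[7,5],false,1,0,[]),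
    (true,[([(0,15,[(12,14),(5,5)])],[]),([(0,7,[(4,5)])],[2,2,2,2])],[6,5],false,2,3,[3,4]),
    (true,[([(0,15,[(12,14),(5,5)])],[]),([(0,1,[(4,5)]),(0,3,[(3,3)])],[2,2])],[6,5],false,2,1,[]),
    (false,[([(0,10,[(12,14),(4,5),(5,5),(4,4)])],[5,5,5])],[],false,1,0,[]),
    (true,[([(0,2,[(12,14),(6,7)])],[])],[7,5,5,5],false,2,5,[3,4,5,6]),
    (true,[([(0,2,[(12,14),(6,7)])],[]),([(0,3,[(3,3)])],[2,2,2,2,1])],[5,5],false,1,0,[3]),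
    (true,[([(0,2,[(12,14),(6,7)])],[]),([(0,3,[(3,3)]),(0,3,[(2,3)])],[2,2,2])],[5,5],false,1,0,[3]),
    (true,[([(0,11,[(12,14),(3,3)])],[4]),([(0,6,[(6,7),(2,3)]),(0,3,[(2,3)])],[4])],[5],false,1,0,[2]),
    (true,[([(0,11,[(12,14),(3,3)])],[5]),([(0,6,[(6,7),(2,3)]),(1,1,[(2,3),(2,2)])],[])],[5],false,1,0,[]),
    (true,[([(0,2,[(12,14),(6,7)])],[]),([(0,9,[(4,4)])],[2,2,2])],[7,5],false,2,2,[3]),
    (false,[([(0,10,[(12,14),(6,7),(4,4),(3,3)])],[5,5,5])],[],false,1,0,[]),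
    (true,[([(0,2,[(12,14),(6,7)])],[]),([(0,7,[(5,5)])],[3,3,3,3])],[5],false,1,0,[2]),
    (false,[([(0,10,[(12,14),(6,7),(5,5),(2,2)])],[5,5,5])],[],false,1,0,[]),
    (false,[([(0,10,[(12,14),(6,7),(6,6)])],[5,5,5])],[],false,1,0,[]),
    (true,[([(0,16,[(12,14),(8,8)])],[4])],[5,5,4,3],false,3,3,[4]),
    (false,[([(0,26,[(12,14),(8,8),(4,4)])],[5,5,5,1])],[1],false,1,0,[]),
    (true,[([(0,17,[(12,14),(9,10)])],[])],[7,5,5,2],false,3,2,[]),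
    (false,[([(0,26,[(12,14),(11,11)])],[5,5,5,1])],[1],false,1,0,[]),
    (true,[([(0,11,[(15,17)])],[3])],[7,5,5,4,2],false,4,2,[6,8]),
    (true,[([(0,11,[(15,17)])],[3]),([(0,1,[(5,6)])],[3,2])],[7,5],false,2,3,[4]),
    (true,[([(0,11,[(15,17)])],[3]),([(0,6,[(5,6),(3,4)])],[4,3,1])],[5],false,1,0,[2]),
    (true,[([(0,15,[(15,17),(2,2)])],[]),([(0,6,[(5,6),(3,4)])],[3,3,3])],[5],false,1,0,[]),
    (true,[([(0,11,[(15,17)])],[2]),([(0,0,[(7,8)])],[2,2])],[7,5],false,2,1,[]),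
    (true,[([(0,16,[(18,22)])],[4])],[5,5,4,3],false,3,3,[4,5]),
    (true,[([(0,16,[(18,22)])],[3]),([(0,9,[(4,4)])],[2,2,2])],[5,3],false,2,1,[]),
    (false,[([(0,10,[(18,22),(5,5)])],[5,5,5])],[],false,1,0,[])])]

theorem cj7f_2_ok : runAllJ S42 R42 F42 21 cj7f_2 = true := by decide +kernel

noncomputable def cj7f_3 : List (List ℕ × List NdJ) := [
  ([10,9,8,7,6,3,1], [
    (false,[],[10,9,8,7,6,3,1],false,6,4,[10,15,19,22]),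
    (true,[([(0,6,[(7,10)])],[2,2])],[7,6,5,5,4,3],false,5,3,[6,8,10]),
    (false,[([(0,6,[(7,10)]),(0,1,[(6,6)])],[2])],[10,9,7],false,3,7,[5,6]),
    (true,[([(0,6,[(7,10)]),(0,1,[(6,6)])],[]),([(0,1,[(4,5)])],[3,2,2])],[6,5,4],false,3,4,[4,5]),
    (true,[([(0,6,[(7,10)]),(0,1,[(6,6)])],[]),([(0,1,[(4,5)]),(0,9,[(4,4)])],[3])],[6,5,4],false,3,4,[4]),
    (false,[([(0,6,[(7,10)]),(0,4,[(6,6),(4,5),(4,4)])],[3]),([(0,9,[(4,4)])],[2,2,2,2,2,1,1])],[],false,1,0,[2]),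
    (false,[([(0,6,[(7,10)]),(0,4,[(6,6),(4,5),(4,4)])],[3]),([(0,9,[(4,4)]),(0,3,[(2,2)])],[2,2,2,2,1])],[],false,1,0,[]),
    (false,[([(0,4,[(7,10),(5,5)]),(0,8,[(6,6),(4,5)])],[])],[10,8],false,2,3,[3,4]),
    (false,[([(0,4,[(7,10),(5,5)]),(0,8,[(6,6),(4,5)])],[]),([(0,3,[(3,3)])],[2,2,2,2,2,2,2,1])],[],false,1,0,[2]),
    (false,[([(0,4,[(7,10),(5,5)]),(0,8,[(6,6),(4,5)])],[]),([(0,3,[(3,3)]),(0,3,[(2,2)])],[2,2,2,2,2,2])],[],false,1,0,[]),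
    (true,[([(0,2,[(7,10),(6,6),(5,5)])],[5]),([(0,1,[(4,5)]),(0,9,[(4,4)])],[3])],[5],false,1,0,[]),
    (true,[([(0,6,[(7,10)]),(0,1,[(6,6)])],[]),([(0,1,[(6,6)])],[3,2,2])],[6,5,4],false,3,4,[6]),
    (true,[([(0,6,[(7,10)]),(0,1,[(6,6)])],[]),([(0,1,[(6,6)]),(0,1,[(4,6)])],[])],[6,5,5],false,2,2,[3]),
    (true,[([(0,6,[(7,10)]),(0,1,[(6,6)])],[]),([(0,1,[(6,6)]),(0,1,[(4,6)])],[]),([(0,3,[(3,3)])],[2,2,2,2])],[5],false,1,0,[]),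
    (true,[([(0,6,[(7,10)]),(0,0,[(7,8)])],[])],[6,5,5,5,3,2],false,3,5,[6,8]),
    (true,[([(0,6,[(7,10)]),(0,1,[(4,6)])],[]),([(0,0,[(7,8)])],[2,2,1])],[6,5,4],false,3,4,[4,5,6]),
    (true,[([(0,6,[(7,10)]),(0,1,[(4,6)])],[]),([(0,0,[(7,8)]),(0,9,[(4,4)])],[1])],[6,5,4],false,3,3,[4]),
    (true,[([(0,6,[(7,10)]),(0,0,[(7,8)])],[]),([(0,6,[(4,6),(4,4)])],[4,2]),([(0,9,[(4,4)])],[2,2,2])],[],false,1,0,[]),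
    (true,[([(0,4,[(7,10),(5,5)])],[3]),([(0,0,[(7,8)]),(0,1,[(4,6)])],[])],[7,5],false,2,2,[3]),
    (true,[([(0,4,[(7,10),(5,5)])],[3]),([(0,0,[(7,8)]),(0,1,[(4,6)])],[]),([(0,3,[(3,3)])],[2,2,2,2,1])],[],false,1,0,[]),
    (false,[([(0,6,[(7,10)]),(0,0,[(7,8)])],[3,3]),([(0,1,[(4,6)]),(0,1,[(6,6)])],[3,2,2,1])],[],false,1,0,[2]),
    (false,[([(0,6,[(7,10)]),(0,0,[(7,8)]),(0,0,[(6,6),(2,2)])],[]),([(0,1,[(4,6)])],[3,3,2,2,2])],[],false,1,0,[]),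
    (false,[([(0,6,[(7,10)]),(0,0,[(7,8)]),(0,0,[(7,8)])],[])],[8,7,3],false,3,3,[4]),
    (true,[([(0,6,[(7,10)])],[4,3]),([(0,5,[(7,8)]),(0,0,[(7,8)])],[]),([(0,9,[(4,4)])],[2,2,2,1])],[],false,1,0,[]),
    (false,[([(0,6,[(7,10)]),(0,6,[(9,10)])],[4,3])],[9,7,1],false,2,7,[3,4,6,8]),
    (false,[([(0,6,[(7,10)]),(0,21,[(9,10),(3,3)])],[3])],[10,7,1],true,3,3,[]),
    (false,[([(0,6,[(7,10)]),(0,4,[(9,10),(4,4)])],[3])],[9,7],false,2,4,[3,4]),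
    (true,[([(0,6,[(7,10)]),(0,9,[(4,4)])],[]),([(0,21,[(9,10),(3,3)])],[4])],[7,6],false,2,2,[3]),
    (true,[([(0,6,[(7,10)]),(0,3,[(3,3)])],[3]),([(0,11,[(9,10),(4,4),(3,3)])],[5])],[6],false,1,0,[]),
    (false,[([(0,6,[(7,10)]),(0,4,[(9,10),(4,4)])],[3]),([(0,9,[(4,4)])],[2,2,2,2,2,1,1])],[],false,1,0,[2]),
    (false,[([(0,6,[(7,10)]),(0,4,[(9,10),(4,4)])],[3]),([(0,9,[(4,4)]),(0,3,[(2,2)])],[2,2,2,2,1])],[],false,1,0,[]),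
    (true,[([(0,6,[(7,10)]),(0,1,[(5,6)])],[]),([(0,6,[(9,10)])],[4,3])],[6,5],false,2,3,[3,4]),
    (true,[([(0,6,[(7,10)]),(0,1,[(5,6)])],[]),([(0,21,[(9,10),(3,3)])],[3,1])],[6,5],false,2,1,[]),
    (false,[([(0,6,[(7,10)]),(0,6,[(9,10)])],[4,3]),([(0,1,[(5,6)]),(0,9,[(4,4)])],[2,2,2,1])],[],false,1,0,[]),
    (true,[([(0,6,[(7,10)]),(0,0,[(7,8)])],[]),([(0,8,[(9,10)])],[4,3])],[5,3],false,2,1,[]),
    (true,[([(0,4,[(11,15)])],[2])],[7,6,5,5,4],false,4,4,[5,6,8,11,12]),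
    (false,[([(0,4,[(11,15)]),(0,7,[(5,5)])],[4,3])],[9,8],false,2,7,[3,4,5]),
    (false,[([(0,4,[(11,15)]),(0,6,[(5,5),(3,3)])],[3])],[9,7],false,2,5,[3]),
    (true,[([(0,4,[(11,15)])],[3]),([(0,1,[(5,5)]),(0,1,[(3,3),(3,3)])],[3])],[6,5],false,2,3,[3]),
    (false,[([(0,4,[(11,15)]),(0,6,[(5,5),(3,3)])],[3]),([(0,3,[(3,3)]),(0,3,[(3,3)])],[2,2,2,2,2])],[],false,1,0,[2]),
    (false,[([(0,4,[(11,15)]),(0,6,[(5,5),(3,3),(2,2)])],[3]),([(0,3,[(3,3)]),(0,3,[(3,3)])],[2,2,2,2,2])],[],false,1,0,[]),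
    (false,[([(0,4,[(11,15)]),(0,6,[(5,5),(4,4)])],[3])],[9,7],false,2,4,[4]),
    (false,[([(0,4,[(11,15)]),(0,6,[(5,5),(3,4)])],[3]),([(0,9,[(4,4)])],[2,2,2,2,2,1,1])],[],false,1,0,[2,3]),
    (false,[([(0,4,[(11,15)]),(0,6,[(5,5),(3,4)])],[3]),([(0,9,[(4,4)]),(0,3,[(2,2)])],[2,2,2,2,1])],[],false,1,0,[2]),
    (false,[([(0,4,[(11,15)]),(0,6,[(5,5),(3,4)])],[3]),([(0,9,[(4,4)]),(0,3,[(2,2)]),(0,3,[(2,2)])],[2,2,2])],[],false,1,0,[]),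
    (false,[([(0,4,[(11,15)]),(0,6,[(5,5),(3,4)])],[3]),([(0,9,[(4,4)]),(0,3,[(3,3)])],[2,2,2,2,1])],[],false,1,0,[]),
    (false,[([(0,4,[(11,15)]),(0,6,[(5,5),(5,5)])],[3])],[9,7],false,2,3,[3,4]),
    (false,[([(0,4,[(11,15)]),(0,6,[(5,5),(5,5)])],[3]),([(0,3,[(3,3)])],[2,2,2,2,2,2,1])],[],false,1,0,[2]),
    (false,[([(0,4,[(11,15)]),(0,6,[(5,5),(5,5)])],[3]),([(0,3,[(3,3)]),(0,3,[(2,2)])],[2,2,2,2,2])],[],false,1,0,[]),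
    (false,[([(0,4,[(11,15)]),(0,6,[(5,5),(5,5)])],[3]),([(0,9,[(4,4)])],[2,2,2,2,2,1,1])],[],false,1,0,[]),
    (true,[([(0,2,[(11,15),(6,6)])],[])],[7,6,5,5],false,3,6,[6]),
    (true,[([(0,4,[(11,15)])],[3]),([(0,1,[(6,6)]),(0,1,[(4,6)])],[3])],[6,5],false,2,3,[3,4]),
    (true,[([(0,4,[(11,15)])],[3]),([(0,1,[(6,6)]),(0,1,[(4,6)])],[3]),([(0,3,[(3,3)])],[2,2,2,2])],[],false,1,0,[2]),
    (true,[([(0,4,[(11,15)])],[3]),([(0,0,[(6,6),(2,2)]),(0,1,[(4,6)])],[]),([(0,3,[(3,3)])],[2,2,2,2,1])],[],false,1,0,[]),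
    (true,[([(0,2,[(11,15),(6,6)])],[5]),([(0,1,[(4,6)]),(0,9,[(4,4)])],[3])],[5],false,1,0,[]),
    (false,[([(0,4,[(11,15)]),(0,0,[(7,8)])],[4])],[10,7],false,2,5,[3,6]),
    (false,[([(0,4,[(11,15)]),(0,8,[(7,8),(3,3)])],[])],[10,8],false,2,3,[3]),
    (true,[([(0,4,[(11,15)])],[3]),([(0,0,[(7,8)]),(0,1,[(3,3),(3,3)])],[])],[7,5],false,2,1,[]),
    (true,[([(0,4,[(11,15)])],[3]),([(0,0,[(7,8)]),(0,1,[(4,6)])],[])],[7,5],false,2,2,[3]),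
    (true,[([(0,4,[(11,15)])],[3]),([(0,0,[(7,8)]),(0,1,[(4,6)])],[]),([(0,3,[(3,3)])],[2,2,2,2,1])],[],false,1,0,[]),
    (false,[([(0,4,[(11,15)]),(0,8,[(9,11)])],[])],[10,8],false,2,3,[3,4]),
    (false,[([(0,4,[(11,15)]),(0,8,[(9,11)])],[]),([(0,3,[(3,3)])],[2,2,2,2,2,2,2,1])],[],false,1,0,[2]),
    (false,[([(0,4,[(11,15)]),(0,8,[(9,11)])],[]),([(0,3,[(3,3)]),(0,3,[(2,2)])],[2,2,2,2,2,2])],[],false,1,0,[]),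
    (false,[([(0,4,[(11,15)]),(0,8,[(9,11)])],[]),([(0,9,[(4,4)])],[2,2,2,2,2,2,1,1])],[],false,1,0,[]),
    (false,[([(0,10,[(11,15),(12,12)])],[6,5,5])],[],false,1,0,[]),
    (true,[([(0,15,[(16,19)])],[3])],[7,5,5,4,1],true,4,2,[6,7]),
    (true,[([(0,15,[(16,19)])],[]),([(0,1,[(5,6)])],[2,2,2])],[7,6],false,2,2,[3]),
    (false,[([(0,10,[(16,19),(5,6),(3,3)])],[6,5,5])],[],false,1,0,[]),
    (false,[([(0,26,[(16,19),(7,7)])],[6,5,5,1])],[1],false,1,0,[]),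
    (true,[([(0,16,[(20,22)])],[3])],[6,5,5,3],false,3,2,[])]),
  ([10,9,8,7,6,5,1], [
    (false,[],[10,9,8,7,6,5,1],false,6,6,[8,11,14,17,22]),
    (true,[([(0,0,[(7,8)])],[2,2,2])],[7,6,6,5,4,3,1],false,5,4,[6,8]),
    (true,[([(0,0,[(7,8)]),(0,1,[(6,6)])],[2])],[6,6,6,5,4,2,1],true,5,3,[6]),
    (false,[([(0,0,[(7,8)]),(0,1,[(6,6)]),(0,1,[(6,6)])],[3])],[9,7,6,1],false,4,1,[6]),
    (true,[([(0,0,[(7,8)]),(0,1,[(6,6)])],[]),([(0,1,[(6,6)]),(0,1,[(5,6)])],[])],[7,6,6,1],false,2,1,[]),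
    (true,[([(0,0,[(7,8)]),(0,0,[(7,8)])],[])],[7,6,6,5,3,2,1],false,6,1,[8]),
    (false,[([(0,0,[(7,8)]),(0,0,[(7,8)]),(0,0,[(7,8)])],[1])],[8,7,5,1],false,4,1,[]),
    (true,[([(0,8,[(9,11)])],[3,3,2])],[6,6,6,4,3,2],true,4,4,[5,6,8,10,11]),
    (false,[([(0,8,[(9,11)]),(0,7,[(5,5)])],[3,2])],[10,8,7],false,3,7,[4,5]),
    (false,[([(0,8,[(9,11)]),(0,7,[(5,5)]),(0,9,[(4,4)])],[3])],[9,8,6],false,3,6,[4]),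
    (true,[([(0,8,[(9,11)]),(0,1,[(5,5)])],[]),([(0,9,[(4,4)]),(0,9,[(4,4)])],[2,2])],[6,6,3,2],false,3,2,[4]),
    (false,[([(0,10,[(9,11),(5,5),(4,4),(4,4),(4,4)])],[6,6,6])],[],false,1,0,[]),
    (false,[([(0,8,[(9,11)]),(0,7,[(5,5)]),(0,1,[(5,5)])],[])],[9,8,7],false,3,5,[4,5]),
    (true,[([(0,2,[(9,11),(5,5),(5,5)])],[]),([(0,9,[(4,4)])],[2,2,2,2])],[7,6],false,2,2,[3]),
    (false,[([(0,10,[(9,11),(5,5),(5,5),(4,4),(3,3)])],[6,6,6])],[],false,1,0,[]),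
    (true,[([(0,8,[(9,11)])],[3,3,3]),([(0,4,[(5,5),(5,5),(5,5)])],[5])],[6],false,1,0,[2]),
    (false,[([(0,10,[(9,11),(5,5),(5,5),(5,5),(2,2)])],[6,6,6])],[],false,1,0,[]),
    (true,[([(0,11,[(9,11),(6,6)])],[3,3])],[6,6,5,4,2],false,4,2,[6]),
    (false,[([(0,8,[(9,11)]),(0,1,[(6,6)]),(0,1,[(5,6)])],[])],[9,8,6],false,3,4,[5]),
    (true,[([(0,11,[(9,11),(6,6)])],[4,3]),([(0,1,[(5,6)]),(0,7,[(4,5)])],[])],[6,5],false,2,1,[]),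
    (true,[([(0,8,[(9,11)]),(0,0,[(7,8)])],[])],[6,6,6,4,3,2],false,4,2,[6,8]),
    (false,[([(0,8,[(9,11)]),(0,0,[(7,8)]),(0,1,[(5,6)])],[])],[9,7,5],false,3,3,[4]),
    (true,[([(0,2,[(9,11),(5,6),(4,4)])],[2]),([(0,0,[(7,8)])],[3,3,3])],[6],false,1,0,[]),
    (false,[([(0,8,[(9,11)]),(0,0,[(7,8)]),(0,0,[(7,8)])],[])],[8,6,5],false,2,1,[]),
    (true,[([(0,2,[(9,11),(9,10)])],[])],[7,6,6,6],false,2,5,[3,4,5,6]),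
    (false,[([(0,8,[(9,11)]),(0,21,[(9,10),(3,3)])],[4,4])],[7,6,1],false,3,1,[]),
    (true,[([(0,2,[(9,11),(9,10)])],[]),([(0,9,[(4,4)])],[2,2,2,2])],[7,6],false,2,2,[3]),
    (false,[([(0,10,[(9,11),(9,10),(4,4),(3,3)])],[6,6,6])],[],false,1,0,[]),
    (true,[([(0,8,[(9,11)])],[3,3,3]),([(0,4,[(9,10),(5,5)])],[5])],[6],false,1,0,[2]),
    (false,[([(0,10,[(9,11),(9,10),(5,5),(2,2)])],[6,6,6])],[],false,1,0,[]),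
    (false,[([(0,10,[(9,11),(9,10),(6,6)])],[6,6,6])],[],false,1,0,[]),
    (false,[([(0,8,[(9,11)]),(0,13,[(11,11)])],[4,4])],[8,6,1],false,3,1,[4]),
    (false,[([(0,10,[(9,11),(11,11),(4,4)])],[6,6,6])],[],false,1,0,[]),
    (true,[([(0,4,[(12,14)])],[1])],[7,6,6,6,5],false,3,5,[5,6,8,10,11]),
    (false,[([(0,14,[(12,14),(4,5)])],[5,5,5,4])],[8],false,1,0,[2,3,4,5]),
    (true,[([(0,2,[(12,14),(4,5),(2,2)])],[])],[7,6,6,6],false,2,6,[]),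
    (true,[([(0,11,[(12,14),(3,3)])],[3,3]),([(0,7,[(4,5)])],[3,2,2])],[6,5],false,2,5,[3]),
    (false,[([(0,11,[(12,14),(3,3)]),(0,5,[(4,5),(3,3)])],[4])],[9,8],false,2,3,[3]),
    (true,[([(0,11,[(12,14),(3,3)])],[4,3]),([(0,7,[(4,5)]),(0,1,[(3,3),(3,3)])],[])],[6,5],false,2,1,[]),
    (true,[([(0,14,[(12,14),(4,5)])],[4]),([(0,9,[(4,4)])],[2,2,2,2])],[6,5],false,2,4,[3,4]),
    (false,[([(0,11,[(12,14),(3,3)]),(0,6,[(4,5),(4,4)])],[4])],[9,6],false,2,2,[3]),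
    (false,[([(0,11,[(12,14),(3,3)]),(0,6,[(4,5),(4,4)])],[4]),([(0,3,[(3,3)])],[2,2,2,2,2,1,1])],[],false,1,0,[]),
    (true,[([(0,14,[(12,14),(4,5)])],[4]),([(0,9,[(4,4)]),(0,9,[(4,4)])],[2,2])],[6,5],false,2,1,[]),
    (true,[([(0,15,[(12,14),(5,5)])],[3]),([(0,7,[(4,5)])],[2,2,2])],[7,6],false,2,3,[3,4]),
    (true,[([(0,15,[(12,14),(5,5)])],[4]),([(0,7,[(4,5)]),(0,3,[(3,3)])],[2])],[7,6],false,2,1,[]),
    (false,[([(0,10,[(12,14),(4,5),(5,5),(4,4)])],[6,6,6])],[],false,1,0,[]),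
    (true,[([(0,2,[(12,14),(6,6)])],[])],[7,6,6,6],false,2,5,[3,5,6]),
    (false,[([(0,11,[(12,14),(3,3)]),(0,1,[(6,6)])],[4,4])],[9,6],false,2,3,[3]),
    (false,[([(0,11,[(12,14),(3,3)]),(0,6,[(6,6),(3,3)])],[4])],[9,6],false,2,1,[]),
    (true,[([(0,12,[(12,14)])],[3]),([(0,8,[(6,6),(4,5)])],[4,4,4])],[6],false,1,0,[2,3]),
    (true,[([(0,14,[(12,14),(4,5)])],[4]),([(0,0,[(6,6),(2,2)])],[3,3,3])],[6],false,1,0,[2]),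
    (true,[([(0,2,[(12,14),(4,5),(2,2)])],[2]),([(0,0,[(6,6),(2,2)])],[3,3,3])],[6],false,1,0,[]),
    (false,[([(0,10,[(12,14),(6,6),(4,5),(3,3)])],[6,6,6])],[],false,1,0,[]),
    (false,[([(0,26,[(12,14),(6,6),(6,6)])],[6,6,6,1])],[1],false,1,0,[]),
    (true,[([(0,16,[(12,14),(7,8)])],[3])],[6,6,6,3],true,2,4,[3,5]),
    (false,[([(0,11,[(12,14),(3,3)]),(0,5,[(7,8)])],[4])],[9,8],false,2,2,[3]),
    (false,[([(0,10,[(12,14),(7,8),(3,3),(3,3)])],[6,6,6])],[],false,1,0,[]),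
    (true,[([(0,14,[(12,14),(4,5)])],[4]),([(0,0,[(7,8)])],[3,3,3])],[6],false,1,0,[2]),
    (true,[([(0,2,[(12,14),(4,5),(2,2)])],[2]),([(0,0,[(7,8)])],[3,3,3])],[6],false,1,0,[]),
    (true,[([(0,17,[(12,14),(9,10)])],[3])],[6,6,5,2],false,3,2,[]),
    (false,[([(0,26,[(12,14),(11,11)])],[6,6,6,1])],[1],false,1,0,[]),
    (true,[([(0,11,[(15,17)])],[3,3])],[6,6,5,4,2],false,4,2,[6,8]),
    (true,[([(0,19,[(15,17)])],[4]),([(0,1,[(5,6)])],[2,2,2])],[7,6],false,2,3,[4]),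
    (false,[([(0,11,[(15,17)]),(0,6,[(5,6),(3,4)])],[4])],[9,6],false,2,1,[]),
    (true,[([(0,19,[(15,17)])],[4]),([(0,0,[(7,8)])],[3,3,3])],[7,1],false,2,1,[]),
    (true,[([(0,16,[(18,22)])],[3])],[6,6,6,3],true,2,4,[3,4,5]),
    (true,[([(0,16,[(18,22)])],[3]),([(0,3,[(3,3)])],[2,2,1,1])],[6,6],false,1,0,[3]),
    (true,[([(0,16,[(18,22)])],[3]),([(0,3,[(3,3)]),(0,3,[(2,3)])],[2,1])],[6,6],false,1,0,[2]),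
    (true,[([(0,16,[(18,22)])],[3]),([(0,3,[(3,3)]),(0,3,[(2,3)]),(0,3,[(2,2)])],[])],[6,6],false,1,0,[]),
    (true,[([(0,16,[(18,22)])],[3]),([(0,9,[(4,4)])],[2,2,2,2])],[6,3],false,2,1,[]),
    (false,[([(0,10,[(18,22),(5,5)])],[6,6,6])],[],false,1,0,[])]),
  ([10,9,9,5,4,3,2,1], [
    (false,[],[10,9,9,5,4,3,2,1],true,6,5,[9,12,16,21,22]),
    (true,[([(0,6,[(7,9)])],[3])],[8,7,6,3,3,3],false,4,6,[6,8,9]),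
    (true,[([(0,6,[(7,9)]),(0,1,[(5,6)])],[])],[8,6,4,3,3,3],false,4,4,[5,6]),
    (false,[([(0,4,[(7,9),(5,6)]),(0,7,[(5,5)])],[1])],[10,9,3],false,3,3,[5]),
    (true,[([(0,6,[(7,9)]),(0,1,[(5,6)])],[]),([(0,7,[(5,5)]),(0,7,[(4,5)])],[3,1])],[6,4,3],false,3,3,[4,5]),
    (false,[([(0,4,[(7,9),(5,6)]),(0,7,[(5,5)])],[1]),([(0,1,[(4,5)]),(0,9,[(4,4)])],[3,3,2,2,2])],[],false,1,0,[2]),
    (false,[([(0,4,[(7,9),(5,6)]),(0,28,[(5,5),(2,2)])],[]),([(0,1,[(4,5)]),(0,9,[(4,4)])],[3,2,2,2,2])],[],false,1,0,[]),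
    (false,[([(0,4,[(7,9),(5,6)])],[3,3,2,2,2]),([(0,7,[(5,5)]),(0,7,[(4,5)]),(0,1,[(5,5)])],[])],[],false,1,0,[]),
    (false,[([(0,2,[(7,9),(5,6),(6,6)])],[1,1,1])],[10,9],false,2,6,[3,6]),
    (true,[([(0,6,[(7,9)]),(0,1,[(5,6)])],[]),([(0,1,[(6,6)]),(0,3,[(3,3)])],[3,3,2])],[4,3,3],false,2,4,[3]),
    (false,[([(0,2,[(7,9),(5,6),(6,6)])],[2,2,2,2]),([(0,3,[(3,3)]),(0,3,[(3,3)])],[2,2,2,1,1])],[],false,1,0,[3]),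
    (false,[([(0,2,[(7,9),(5,6),(6,6)])],[2,2,2,2]),([(0,3,[(3,3)]),(0,3,[(3,3)]),(0,3,[(2,3)])],[2,2,1])],[],false,1,0,[2]),
    (false,[([(0,2,[(7,9),(5,6),(6,6)])],[2,2,2,2]),([(0,3,[(3,3)]),(0,3,[(3,3)]),(0,3,[(2,3)]),(0,3,[(2,2)])],[2])],[],false,1,0,[]),
    (true,[([(0,6,[(7,9)]),(0,1,[(5,6)])],[]),([(0,1,[(6,6)]),(0,1,[(4,6)])],[3,2])],[4,3,3],false,2,3,[3,4]),
    (true,[([(0,4,[(7,9),(5,6)]),(0,3,[(3,3)])],[4]),([(0,1,[(6,6)]),(0,1,[(4,6)])],[3])],[3,3],false,1,0,[2]),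
    (false,[([(0,4,[(7,9),(5,6)]),(0,3,[(3,3)])],[1,1]),([(0,0,[(6,6),(2,2)]),(0,1,[(4,6)])],[3,2,2,2])],[],false,1,0,[]),
    (false,[([(0,4,[(7,9),(5,6)]),(0,9,[(4,4)])],[3,2,2]),([(0,1,[(6,6)]),(0,1,[(4,6)])],[3,1,1])],[],false,1,0,[]),
    (false,[([(0,6,[(7,9)]),(0,0,[(7,8)])],[2,2,2])],[9,5,3,2],true,4,3,[6,8]),
    (false,[([(0,4,[(7,9),(5,6)]),(0,0,[(7,8)])],[2,2])],[9,4,3],false,3,3,[6]),
    (true,[([(0,6,[(7,9)]),(0,1,[(5,6)])],[]),([(0,0,[(7,8)]),(0,1,[(4,6)])],[2,1])],[4,3,3],false,2,2,[3]),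
    (false,[([(0,4,[(7,9),(5,6)]),(0,3,[(3,3)])],[1,1]),([(0,0,[(7,8)]),(0,1,[(4,6)])],[3,2,2,2])],[],false,1,0,[]),
    (false,[([(0,6,[(7,9)]),(0,5,[(7,8)])],[1]),([(0,0,[(7,8)])],[3,3,2,2,2,2,1])],[1],false,1,0,[4]),
    (false,[([(0,6,[(7,9)]),(0,5,[(7,8)])],[1]),([(0,0,[(7,8)]),(1,0,[(2,4)])],[2,2,2])],[],false,1,0,[3]),
    (false,[([(0,6,[(7,9)]),(0,5,[(7,8)])],[1]),([(0,0,[(7,8)]),(1,0,[(2,4),(2,3)])],[2,2,2])],[],false,1,0,[2]),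
    (false,[([(0,6,[(7,9)]),(0,5,[(7,8)])],[1]),([(0,0,[(7,8)]),(1,0,[(2,4),(2,3),(2,2)])],[2,2,2])],[],false,1,0,[]),
    (true,[([(0,34,[(7,9),(9,9)])],[5])],[8,5,4,3],false,4,3,[6,8]),
    (true,[([(0,6,[(7,9)]),(0,1,[(5,6)])],[]),([(0,24,[(9,9)])],[])],[8,6,4],false,3,3,[4]),
    (false,[([(0,10,[(7,9),(9,9),(5,6),(4,4)])],[2,2,2])],[9],false,1,0,[]),
    (false,[([(0,34,[(7,9),(9,9)]),(0,0,[(7,8)])],[4])],[9,4],false,2,1,[]),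
    (false,[([(0,22,[(10,12)])],[4,1,1,1])],[10,9,5],false,2,12,[3,5,7,9,11,12]),
    (false,[([(0,4,[(10,12),(3,3)])],[1,1,1,1])],[10,9,5],false,3,5,[]),
    (false,[([(0,25,[(10,12),(4,5)])],[5,1,1])],[10,9],false,2,9,[3,4,5]),
    (false,[([(0,4,[(10,12),(3,3)]),(0,7,[(4,5)])],[1])],[10,9,3],false,3,3,[]),
    (false,[([(0,2,[(10,12),(4,5),(4,4)])],[1,1,1])],[10,9],false,2,6,[3,4]),
    (true,[([(0,4,[(10,12),(3,3)])],[4]),([(0,7,[(4,5)]),(0,7,[(4,4)])],[3])],[8,3],true,2,4,[3]),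
    (true,[([(0,4,[(10,12),(3,3)]),(0,3,[(3,3)])],[4]),([(0,7,[(4,5)]),(0,7,[(4,4)])],[3])],[5,3],false,2,2,[3]),
    (false,[([(0,2,[(10,12),(4,5),(4,4)])],[2,2,2,2]),([(0,3,[(3,3)]),(0,3,[(3,3)]),(0,3,[(3,3)])],[2,2,1])],[],false,1,0,[]),
    (false,[([(0,2,[(10,12),(4,5),(4,4)]),(0,9,[(4,4)])],[2,2])],[9,5],false,2,3,[3,4]),
    (true,[([(0,2,[(10,12),(4,5),(4,4)])],[5]),([(0,28,[(4,4),(3,3)])],[4,4,1,1])],[],false,1,0,[2]),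
    (true,[([(0,2,[(10,12),(4,5),(4,4)])],[5]),([(0,7,[(4,4)]),(0,7,[(3,3),(2,2)])],[3,1])],[3],false,1,0,[]),
    (false,[([(0,2,[(10,12),(4,5),(4,4)]),(0,9,[(4,4)]),(0,9,[(4,4)])],[])],[9,5],false,1,0,[]),
    (true,[([(0,11,[(10,12),(5,5)]),(0,1,[(4,5)])],[])],[7,4,3,3,3],false,3,4,[5]),
    (true,[([(0,11,[(10,12),(5,5)])],[2]),([(0,7,[(4,5)]),(0,7,[(4,5)])],[3])],[8,3],false,2,2,[3]),
    (true,[([(0,2,[(10,12),(5,5),(3,3)])],[5]),([(0,7,[(4,5)]),(0,7,[(4,5)])],[3,1])],[3],false,1,0,[]),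
    (true,[([(0,14,[(10,12),(6,7)])],[5])],[8,5,3,3],false,3,5,[4,6,7]),
    (false,[([(0,14,[(10,12),(6,7)]),(0,9,[(4,4)])],[4,2])],[9,5],false,2,4,[4]),
    (true,[([(0,14,[(10,12),(6,7)])],[5]),([(0,5,[(4,4),(3,4)])],[4,4,2,1])],[],false,1,0,[2,3]),
    (true,[([(0,14,[(10,12),(6,7)])],[5]),([(0,5,[(4,4),(3,4)]),(0,3,[(2,2)])],[4,4])],[],false,1,0,[2]),
    (true,[([(0,14,[(10,12),(6,7)])],[5]),([(0,1,[(4,4),(2,2)]),(0,1,[(3,4),(2,2)])],[3,1])],[3],false,1,0,[]),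
    (true,[([(0,14,[(10,12),(6,7)])],[5]),([(0,5,[(4,4),(3,4)]),(0,3,[(3,3)])],[4,4])],[],false,1,0,[]),
    (true,[([(0,14,[(10,12),(6,7)])],[5]),([(0,1,[(5,6)])],[3,3,2,1,1])],[3],false,1,0,[2,3,4]),
    (true,[([(0,14,[(10,12),(6,7)])],[5]),([(0,5,[(5,6),(2,2)])],[4,4,2,1])],[],false,1,0,[2]),
    (true,[([(0,14,[(10,12),(6,7)])],[5]),([(0,5,[(5,6),(2,2)]),(0,3,[(2,2)])],[4,4])],[],false,1,0,[2]),
    (true,[([(0,14,[(10,12),(6,7)])],[5]),([(0,1,[(5,6)]),(1,1,[(2,2),(2,2),(2,2)])],[3,1])],[3],false,1,0,[]),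
    (true,[([(0,14,[(10,12),(6,7)])],[5]),([(0,1,[(5,6)]),(0,3,[(3,3)])],[3,3,1])],[3],false,1,0,[2]),
    (true,[([(0,14,[(10,12),(6,7)])],[5]),([(0,5,[(5,6),(2,2)]),(0,3,[(3,3)])],[4,4])],[],false,1,0,[]),
    (true,[([(0,14,[(10,12),(6,7)])],[5]),([(0,1,[(5,6)]),(0,7,[(4,4)])],[3,2])],[3],false,1,0,[]),
    (true,[([(0,14,[(10,12),(6,7)])],[5]),([(0,28,[(7,7)])],[4,4,2,2])],[],false,1,0,[2]),
    (false,[([(0,10,[(10,12),(6,7),(7,7),(2,2)])],[2,2,2])],[9],false,1,0,[]),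
    (false,[([(0,2,[(10,12),(8,9)])],[1,1,1])],[10,9],false,2,5,[3,4,5,6]),
    (false,[([(0,4,[(10,12),(3,3)]),(0,35,[(8,9)])],[])],[9,9,1],true,2,3,[3]),
    (false,[([(0,2,[(10,12),(8,9)])],[2,2,2,2]),([(0,3,[(3,3)]),(0,3,[(3,3)])],[2,2,2,1,1])],[],false,1,0,[2]),
    (false,[([(0,2,[(10,12),(8,9)])],[2,2,2,2]),([(0,3,[(3,3)]),(0,3,[(3,3)]),(0,3,[(2,2)])],[2,2,1])],[],false,1,0,[]),
    (true,[([(0,27,[(10,12),(8,9),(4,4)])],[6])],[6,3,3],false,2,2,[3]),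
    (false,[([(0,10,[(10,12),(8,9),(4,4),(3,3)])],[2,2,2])],[9],false,1,0,[]),
    (true,[([(0,2,[(10,12),(8,9)])],[5]),([(0,7,[(5,5)])],[3,3,1,1,1])],[3],false,1,0,[2]),
    (false,[([(0,10,[(10,12),(8,9),(5,5),(2,2)])],[2,2,2])],[9],false,1,0,[]),
    (false,[([(0,10,[(10,12),(8,9),(6,6)])],[2,2,2])],[9],false,1,0,[]),
    (true,[([(0,36,[(10,12),(10,11)])],[6])],[6,5,3],false,3,3,[4]),
    (false,[([(0,10,[(10,12),(10,11),(4,4)])],[2,2,2])],[9],false,1,0,[]),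
    (false,[([(0,17,[(10,12),(12,12)])],[2,2,2,2])],[9,2],false,2,1,[]),
    (false,[([(0,25,[(13,16)])],[5,1,1])],[10,9],false,2,9,[3,4,5,6,7,9,10]),
    (true,[([(0,14,[(13,16),(3,3)])],[5])],[8,5,3,3],false,3,5,[]),
    (false,[([(0,2,[(13,16),(4,4)])],[1,1,1])],[10,9],false,2,6,[3,4]),
    (false,[([(0,14,[(13,16),(3,3)]),(0,9,[(4,4)])],[4,2])],[9,5],false,2,4,[3]),
    (true,[([(0,14,[(13,16),(3,3)])],[5]),([(0,9,[(4,4)]),(0,3,[(3,3)])],[1])],[8,3],false,2,2,[3]),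
    (false,[([(0,2,[(13,16),(4,4)])],[2,2,2,2]),([(0,3,[(3,3)]),(0,3,[(3,3)]),(0,3,[(3,3)])],[2,2,1])],[],false,1,0,[]),
    (false,[([(0,2,[(13,16),(4,4)]),(0,9,[(4,4)])],[2,2])],[9,5],false,2,3,[3,4]),
    (true,[([(0,2,[(13,16),(4,4)])],[5]),([(0,28,[(4,4),(3,3)])],[4,4,1,1])],[],false,1,0,[2]),
    (true,[([(0,2,[(13,16),(4,4)])],[5]),([(0,7,[(4,4)]),(0,7,[(3,3),(2,2)])],[3,1])],[3],false,1,0,[]),
    (false,[([(0,10,[(13,16),(4,4),(4,4),(4,4)])],[2,2,2])],[9],false,1,0,[]),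
    (false,[([(0,2,[(13,16),(5,5)])],[1,1,1])],[10,9],false,2,5,[3,4,5]),
    (false,[([(0,2,[(13,16),(5,5)])],[1,1,1]),([(0,3,[(3,3)])],[2,2,2,2,2,2,2,2])],[],false,1,0,[3]),
    (false,[([(0,2,[(13,16),(5,5)])],[2,2,2,2]),([(0,3,[(3,3)]),(0,3,[(2,3)])],[2,2,2,1,1])],[],false,1,0,[3]),
    (false,[([(0,2,[(13,16),(5,5)])],[2,2,2,2]),([(0,3,[(3,3)]),(0,3,[(2,3)]),(0,3,[(2,3)])],[2,2,1])],[],false,1,0,[2]),
    (false,[([(0,2,[(13,16),(5,5)])],[2,2,2,2]),([(0,3,[(3,3)]),(0,3,[(2,3)]),(0,3,[(2,3)]),(0,3,[(2,2)])],[2])],[],false,1,0,[]),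
    (true,[([(0,27,[(13,16),(5,5),(4,4)])],[6])],[6,3,3],false,2,2,[3]),
    (false,[([(0,10,[(13,16),(5,5),(4,4),(3,3)])],[2,2,2])],[9],false,1,0,[]),
    (true,[([(0,2,[(13,16),(5,5)])],[5]),([(0,7,[(5,5)])],[3,3,1,1,1])],[3],false,1,0,[2]),
    (false,[([(0,10,[(13,16),(5,5),(5,5),(2,2)])],[2,2,2])],[9],false,1,0,[]),
    (false,[([(0,16,[(13,16),(6,6)])],[3,2,2,2])],[9,3],true,2,4,[3,4,5]),
    (true,[([(0,27,[(13,16),(6,6),(3,3)])],[6])],[6,3,3],false,2,2,[3]),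
    (false,[([(0,10,[(13,16),(6,6),(3,3),(3,3)])],[2,2,2])],[9],false,1,0,[]),
    (false,[([(0,16,[(13,16),(6,6)]),(0,9,[(4,4)])],[3,2])],[9,3],false,2,1,[]),
    (false,[([(0,10,[(13,16),(6,6),(5,5)])],[2,2,2])],[9],false,1,0,[]),
    (true,[([(0,36,[(13,16),(7,7)])],[6])],[6,5,3],false,3,3,[4]),
    (false,[([(0,10,[(13,16),(7,7),(4,4)])],[2,2,2])],[9],false,1,0,[]),
    (true,[([(0,27,[(13,16),(8,9)])],[6])],[6,3,3],false,2,2,[3]),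
    (false,[([(0,10,[(13,16),(8,9),(3,3)])],[2,2,2])],[9],false,1,0,[]),
    (false,[([(0,26,[(13,16),(10,10)])],[2,2,2])],[10,1],false,1,0,[]),
    (false,[([(0,2,[(17,21)])],[1,1,1])],[10,9],false,2,5,[3,4,5,6]),
    (false,[([(0,2,[(17,21)])],[1,1,1]),([(0,3,[(3,3)])],[2,2,2,2,2,2,2,2])],[],false,1,0,[3]),
    (false,[([(0,2,[(17,21)])],[2,2,2,2]),([(0,3,[(3,3)]),(0,3,[(2,3)])],[2,2,2,1,1])],[],false,1,0,[3]),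
    (false,[([(0,2,[(17,21)])],[2,2,2,2]),([(0,3,[(3,3)]),(0,3,[(2,3)]),(0,3,[(2,3)])],[2,2,1])],[],false,1,0,[2]),
    (false,[([(0,2,[(17,21)])],[2,2,2,2]),([(0,3,[(3,3)]),(0,3,[(2,3)]),(0,3,[(2,3)]),(0,3,[(2,2)])],[2])],[],false,1,0,[]),
    (true,[([(0,27,[(17,21),(4,4)])],[6])],[6,3,3],false,2,2,[3]),
    (false,[([(0,10,[(17,21),(4,4),(3,3)])],[2,2,2])],[9],false,1,0,[]),
    (true,[([(0,2,[(17,21)])],[5]),([(0,7,[(5,5)])],[3,3,1,1,1])],[3],false,1,0,[2]),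
    (false,[([(0,10,[(17,21),(5,5),(2,2)])],[2,2,2])],[9],false,1,0,[]),
    (false,[([(0,10,[(17,21),(6,6)])],[2,2,2])],[9],false,1,0,[]),
    (false,[([(0,32,[(22,22)])],[5,4,3])],[9],false,1,0,[])]),
  ([11,6,5,5,5,4,3,2,1], [
    (false,[],[11,6,5,5,5,4,3,2,1],true,6,6,[10,15,21,22]),
    (false,[([(0,6,[(7,10)])],[1])],[11,6,5,5,4],false,3,10,[5,7,9,10]),
    (false,[([(0,6,[(7,10)]),(0,7,[(4,5)])],[1,1,1,1])],[6,5,5,5,2],false,1,0,[3,5]),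
    (false,[([(0,6,[(7,10)]),(0,7,[(4,5)]),(0,3,[(2,3)])],[1,1])],[6,5,5,4,2],false,3,6,[]),
    (false,[([(0,6,[(7,10)]),(0,6,[(4,5),(4,5)])],[1,1,1])],[5,5,5,3,1],true,3,5,[4,5]),
    (false,[([(0,6,[(7,10)]),(0,7,[(4,5)]),(0,7,[(4,5)])],[1]),([(0,9,[(4,4)])],[1,1,1])],[6,5,3],false,3,3,[4]),
    (false,[([(0,6,[(7,10)]),(0,6,[(4,5),(4,5)])],[1,1,1]),([(0,9,[(4,4)]),(0,9,[(4,4)])],[2])],[5,3,1],false,3,1,[4]),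
    (true,[([(0,6,[(7,10)]),(0,6,[(4,5),(4,5)])],[3]),([(0,5,[(4,4),(4,4)]),(0,9,[(4,4)])],[2,2])],[1,1,1],false,1,0,[]),
    (false,[([(0,4,[(7,10),(5,5)]),(0,7,[(4,5)]),(0,7,[(4,5)])],[])],[5,5,4,3],false,3,3,[4,5]),
    (true,[([(0,6,[(7,10)]),(0,6,[(4,5),(4,5)])],[3]),([(0,35,[(5,5),(4,4)])],[1])],[8,1],true,2,2,[3]),
    (true,[([(0,6,[(7,10)]),(0,6,[(4,5),(4,5)])],[3]),([(0,35,[(5,5),(4,4)])],[1]),([(0,3,[(3,3)])],[1,1,1,1,1,1])],[],false,1,0,[]),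
    (true,[([(0,6,[(7,10)]),(0,6,[(4,5),(4,5)])],[3]),([(0,7,[(5,5)])],[1,1,1]),([(0,7,[(5,5)])],[1,1,1,1,1])],[1],false,1,0,[2]),
    (true,[([(0,6,[(7,10)]),(0,6,[(4,5),(4,5)])],[3]),([(0,28,[(5,5),(2,2)])],[1,1]),([(0,7,[(5,5)])],[1,1,1,1,1])],[],false,1,0,[]),
    (false,[([(0,6,[(7,10)]),(0,28,[(6,7)])],[2,1,1])],[6,5,5,4,1],false,3,5,[4,6,7]),
    (false,[([(0,6,[(7,10)]),(0,8,[(6,7),(4,4)])],[1,1,1])],[5,5,4,3,1],true,4,2,[]),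
    (false,[([(0,6,[(7,10)]),(0,28,[(6,7)]),(0,1,[(5,6)])],[])],[5,5,5,3,1],true,3,5,[5,6]),
    (false,[([(0,6,[(7,10)]),(0,28,[(6,7)]),(0,7,[(4,5)])],[]),([(0,1,[(5,6)])],[2,1])],[6,5],false,2,3,[3,4]),
    (false,[([(0,6,[(7,10)]),(0,28,[(6,7)]),(0,7,[(4,5)])],[]),([(0,1,[(5,6)]),(0,3,[(3,3)])],[])],[6,5],false,2,1,[]),
    (true,[([(0,6,[(7,10)]),(0,1,[(5,6)])],[3,3]),([(0,22,[(6,7),(4,5)]),(0,9,[(4,4)])],[2])],[1,1],false,1,0,[]),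
    (false,[([(0,6,[(7,10)]),(0,23,[(6,7),(6,6)])],[1,1]),([(0,1,[(5,6)])],[3,3])],[5],false,1,0,[2]),
    (false,[([(0,6,[(7,10)])],[3,3]),([(0,28,[(6,7)]),(0,5,[(5,6),(2,2)]),(0,1,[(6,6)])],[])],[5],false,1,0,[]),
    (true,[([(0,6,[(7,10)]),(0,0,[(7,7)])],[3]),([(0,28,[(6,7)])],[1,1])],[9,2,1],true,3,2,[5]),
    (false,[([(0,6,[(7,10)]),(0,28,[(6,7)]),(0,7,[(4,5)])],[]),([(0,0,[(7,7)])],[3,2])],[6,1],false,2,1,[]),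
    (false,[([(0,6,[(7,10)]),(0,35,[(8,9)])],[2,1])],[6,5,5,4],false,3,4,[4,6,9]),
    (false,[([(0,6,[(7,10)]),(0,23,[(8,9),(4,4)])],[1,1])],[5,5,4,3],false,3,3,[4]),
    (false,[([(0,6,[(7,10)]),(0,23,[(8,9),(4,4)])],[1,1]),([(0,9,[(4,4)])],[2,1,1])],[5,4],false,2,2,[3]),
    (true,[([(0,6,[(7,10)])],[3,3,3,3]),([(0,37,[(8,9),(4,4),(3,3)]),(0,9,[(4,4)])],[])],[],false,1,0,[]),
    (true,[([(0,6,[(7,10)]),(0,1,[(5,6)])],[3,3]),([(0,35,[(8,9)])],[1])],[8,2],true,2,4,[4,5]),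
    (true,[([(0,6,[(7,10)]),(0,6,[(5,6),(3,4)])],[3]),([(0,35,[(8,9)])],[1])],[8,1],true,2,2,[3]),
    (true,[([(0,6,[(7,10)]),(0,6,[(5,6),(3,4)])],[3]),([(0,35,[(8,9)])],[1]),([(0,3,[(3,3)])],[1,1,1,1,1,1])],[],false,1,0,[]),
    (false,[([(0,4,[(7,10),(5,5)]),(0,35,[(8,9)])],[1]),([(0,1,[(5,6)])],[2,2,2])],[5],false,1,0,[]),
    (true,[([(0,6,[(7,10)]),(0,6,[(7,9)])],[3]),([(0,35,[(8,9)])],[1])],[8,1],true,2,2,[3]),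
    (true,[([(0,6,[(7,10)]),(0,6,[(7,9)])],[3]),([(0,35,[(8,9)])],[1]),([(0,3,[(3,3)])],[1,1,1,1,1,1])],[],false,1,0,[]),
    (false,[([(0,6,[(7,10)]),(0,8,[(10,10)])],[1,1,1])],[5,5,4,3,1],true,4,2,[7]),
    (false,[([(0,6,[(7,10)])],[3,2]),([(0,11,[(10,10),(5,7)])],[5,1,1,1,1,1])],[],false,1,0,[3]),
    (false,[([(0,6,[(7,10)]),(0,3,[(2,3)])],[3,1,1,1,1]),([(0,11,[(10,10),(5,7)])],[5])],[],false,1,0,[2]),
    (false,[([(0,6,[(7,10)]),(1,1,[(2,3),(2,2)])],[1,1,1,1]),([(0,11,[(10,10),(5,7)])],[5])],[],false,1,0,[]),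
    (false,[([(0,4,[(11,15)])],[])],[11,6,5,5],false,3,6,[5,7,9,11,12]),
    (true,[([(0,4,[(11,15)]),(0,7,[(4,5)])],[3])],[8,7,1,1,1,1],false,3,4,[5]),
    (false,[([(0,4,[(11,15)]),(0,7,[(4,5)]),(0,7,[(4,5)])],[])],[5,5,4,3],false,3,3,[4,5]),
    (false,[([(0,4,[(11,15)]),(0,7,[(4,5)]),(0,7,[(4,5)])],[]),([(0,9,[(4,4)])],[2,1,1])],[5,4],false,2,2,[3]),
    (true,[([(0,4,[(11,15)]),(0,1,[(4,5)])],[3]),([(0,5,[(4,5),(3,3)]),(0,9,[(4,4)])],[2,2])],[1,1],false,1,0,[]),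
    (false,[([(0,4,[(11,15)]),(0,7,[(4,5)]),(0,7,[(4,5)])],[]),([(0,1,[(5,5)])],[3,3])],[5],false,1,0,[2]),
    (false,[([(0,4,[(11,15)])],[3]),([(0,7,[(4,5)]),(0,7,[(4,5)]),(0,1,[(5,5)]),(0,3,[(2,2)])],[])],[5],false,1,0,[]),
    (false,[([(0,4,[(11,15)]),(0,28,[(6,7)])],[4,1])],[5,5,3,2],true,3,3,[4,6,7]),
    (false,[([(0,4,[(11,15)]),(0,28,[(6,7)])],[1,1]),([(0,9,[(4,4)])],[1,1,1])],[6,5],false,2,3,[4]),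
    (false,[([(0,4,[(11,15)])],[]),([(0,28,[(6,7)]),(0,5,[(4,4),(3,4)])],[4,4,4])],[],false,1,0,[2]),
    (false,[([(0,4,[(11,15)]),(0,28,[(6,7)])],[1,1]),([(0,9,[(4,4)]),(0,1,[(3,4),(2,2)])],[3])],[5],false,1,0,[]),
    (true,[([(0,4,[(11,15)]),(0,1,[(5,6)])],[3]),([(0,28,[(6,7)])],[1,1])],[8,1],true,2,2,[3]),
    (false,[([(0,4,[(11,15)]),(0,28,[(6,7)])],[5,1]),([(0,1,[(5,6)]),(0,3,[(3,3)])],[])],[5],false,1,0,[]),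
    (false,[([(0,4,[(11,15)]),(0,28,[(6,7)])],[1,1]),([(0,0,[(7,7)])],[2,2])],[6],false,1,0,[]),
    (false,[([(0,4,[(11,15)]),(0,35,[(8,9)])],[3])],[5,5,4,1],true,3,2,[5]),
    (false,[([(0,4,[(11,15)]),(0,35,[(8,9)])],[4]),([(0,7,[(4,5)])],[2,2])],[5],false,1,0,[2]),
    (false,[([(0,4,[(11,15)]),(0,7,[(4,5)])],[1,1,1]),([(0,8,[(8,9),(2,2)])],[4,4])],[],false,1,0,[]),
    (false,[([(0,4,[(11,15)]),(0,38,[(10,11)])],[])],[6,5,5],false,2,2,[3]),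
    (false,[([(0,4,[(11,15)]),(0,38,[(10,11)])],[]),([(0,3,[(3,3)])],[2,2,2,2])],[5],false,1,0,[]),
    (false,[([(0,10,[(11,15),(12,12)])],[1,1,1,1])],[5,5],false,1,0,[]),
    (false,[([(0,2,[(16,21)])],[])],[11,5,5],false,2,6,[3,5,7]),
    (false,[([(0,2,[(16,21)]),(0,3,[(3,3)])],[1,1,1])],[5,5,5],false,1,0,[3]),
    (false,[([(0,2,[(16,21)])],[]),([(0,3,[(3,3)]),(0,3,[(2,3)])],[2,2,2,1,1,1,1])],[5],false,1,0,[3]),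
    (false,[([(0,2,[(16,21)])],[]),([(0,3,[(3,3)]),(0,3,[(2,3)]),(0,3,[(2,3)])],[2,2,1,1,1])],[5],false,1,0,[3]),
    (false,[([(0,2,[(16,21)])],[]),([(0,3,[(3,3)]),(0,3,[(2,3)]),(0,3,[(2,3)]),(0,3,[(2,3)])],[2,1,1])],[5],false,1,0,[2]),
    (false,[([(0,2,[(16,21)])],[]),([(0,3,[(3,3)]),(0,3,[(2,3)]),(0,3,[(2,3)]),(0,3,[(2,3)]),(0,3,[(2,2)])],[1])],[5],false,1,0,[]),
    (false,[([(0,2,[(16,21)]),(0,7,[(4,5)])],[1,1])],[5,5,4],false,2,3,[3,4]),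
    (false,[([(0,2,[(16,21)]),(0,7,[(4,5)])],[1,1]),([(0,3,[(3,3)])],[2,2,2])],[5],false,1,0,[2]),
    (false,[([(0,2,[(16,21)])],[]),([(0,7,[(4,5)]),(0,7,[(3,3),(2,2)])],[3,3,3,1,1])],[],false,1,0,[]),
    (false,[([(0,2,[(16,21)]),(0,7,[(4,5)])],[1,1]),([(0,9,[(4,4)])],[2,2,1])],[5],false,1,0,[]),
    (false,[([(0,2,[(16,21)]),(0,28,[(6,7)])],[1])],[5,5,3],false,2,1,[]),
    (false,[([(0,16,[(22,22)])],[3,1,1,1,1])],[5,5,3],false,1,0,[])])]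

theorem cj7f_3_ok : runAllJ S42 R42 F42 21 cj7f_3 = true := by decide +kernel

noncomputable def cj7f_4 : List (List ℕ × List NdJ) := [
  ([11,8,7,6,5,3,2], [
    (false,[],[11,8,7,6,5,3,2],false,6,5,[10,15,21,22]),
    (true,[([(0,6,[(7,10)])],[1])],[7,7,6,5,4,1,1],false,4,5,[6,10]),
    (true,[([(0,6,[(7,10)]),(0,1,[(5,6)])],[])],[7,6,5,4,2,1,1],false,6,2,[]),
    (false,[([(0,6,[(7,10)]),(0,6,[(7,10)])],[3,1,1])],[8,6,3],false,1,0,[3,6,8,9,10]),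
    (false,[([(0,6,[(7,10)]),(0,6,[(7,10)]),(0,3,[(2,3)])],[3])],[7,6,3],false,2,8,[3]),
    (false,[([(0,6,[(7,10)]),(0,6,[(7,10)]),(0,1,[(2,3),(3,3)])],[])],[7,6,3],false,3,3,[]),
    (false,[([(0,6,[(7,10)]),(0,6,[(7,10)]),(0,1,[(4,6)])],[])],[7,6,3],false,3,3,[5,6]),
    (false,[([(0,6,[(7,10)]),(0,6,[(7,10)]),(0,1,[(4,6)])],[]),([(0,1,[(4,5)])],[3,3,2,2])],[],false,1,0,[2,3,4]),
    (false,[([(0,6,[(7,10)]),(0,6,[(7,10)]),(0,7,[(4,5)])],[]),([(0,1,[(4,6)]),(0,3,[(2,2)])],[3,3,2])],[],false,1,0,[2]),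
    (false,[([(0,6,[(7,10)]),(0,6,[(7,10)]),(0,7,[(4,5)])],[]),([(0,1,[(4,6)]),(1,1,[(2,2),(2,2)])],[3,2])],[],false,1,0,[2]),
    (false,[([(0,6,[(7,10)]),(0,6,[(7,10)]),(0,7,[(4,5)])],[]),([(0,1,[(4,6)]),(1,1,[(2,2),(2,2),(2,2)])],[3,2])],[],false,1,0,[]),
    (false,[([(0,6,[(7,10)]),(0,6,[(7,10)]),(0,7,[(4,5)])],[]),([(0,1,[(4,6)]),(0,3,[(3,3)])],[3,3,2])],[],false,1,0,[2]),
    (false,[([(0,6,[(7,10)]),(0,6,[(7,10)]),(0,7,[(4,5)])],[]),([(0,1,[(4,6)]),(0,1,[(3,3),(2,2)])],[3,2])],[],false,1,0,[]),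
    (false,[([(0,6,[(7,10)]),(0,6,[(7,10)]),(0,1,[(4,6)])],[]),([(0,1,[(4,5)]),(0,9,[(4,4)])],[3,3])],[],false,1,0,[]),
    (false,[([(0,6,[(7,10)]),(0,6,[(7,10)]),(0,1,[(4,6)])],[]),([(0,1,[(6,6)])],[3,3,2,2])],[],false,1,0,[2]),
    (false,[([(0,6,[(7,10)]),(0,6,[(7,10)]),(0,1,[(4,6)])],[]),([(0,0,[(6,6),(2,2)])],[3,2,2,1])],[],false,1,0,[]),
    (true,[([(0,6,[(7,10)]),(0,0,[(7,8)])],[]),([(0,6,[(7,10)])],[1])],[7,5,1],false,3,1,[4]),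
    (false,[([(0,6,[(7,10)]),(0,6,[(7,10)])],[3,1,1]),([(0,0,[(7,8)]),(0,9,[(4,4)])],[3,1,1])],[],false,1,0,[]),
    (true,[([(0,6,[(7,10)]),(0,24,[(9,9)])],[]),([(0,6,[(7,10)])],[])],[7,5,1],false,2,1,[]),
    (true,[([(0,2,[(7,10),(10,10)])],[1]),([(0,6,[(7,10)])],[3,3,3])],[1],false,1,0,[]),
    (true,[([(0,4,[(11,15)])],[2,1])],[7,6,5,4,1,1],false,5,2,[8,12]),
    (true,[([(0,4,[(11,15)])],[]),([(0,5,[(6,8)])],[2,2,2])],[7,6],false,2,6,[3,4,6,7]),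
    (true,[([(0,4,[(11,15)]),(0,3,[(3,3)])],[]),([(0,5,[(6,8)])],[2,2])],[7,5],false,2,4,[3]),
    (true,[([(0,4,[(11,15)])],[4,3]),([(0,5,[(6,8)]),(0,1,[(3,3),(3,3)])],[])],[5,1],true,2,2,[3]),
    (true,[([(0,4,[(11,15)])],[4,3]),([(0,5,[(6,8)]),(0,1,[(3,3),(3,3)])],[]),([(0,3,[(3,3)])],[1,1,1])],[],false,1,0,[]),
    (false,[([(0,4,[(11,15)]),(0,22,[(6,8),(4,4)])],[1])],[8,6],false,2,3,[3,4]),
    (true,[([(0,4,[(11,15)]),(0,3,[(3,3)])],[]),([(0,5,[(6,8)]),(0,9,[(4,4)])],[])],[7,5],false,2,1,[]),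
    (false,[([(0,4,[(11,15)]),(0,22,[(6,8),(4,4)])],[1]),([(0,9,[(4,4)])],[2,2,2,2,1,1])],[],false,1,0,[]),
    (true,[([(0,4,[(11,15)])],[4,3]),([(0,5,[(6,8)]),(0,1,[(5,6)])],[])],[5,1],true,2,2,[3]),
    (true,[([(0,4,[(11,15)])],[4,3]),([(0,5,[(6,8)]),(0,1,[(5,6)])],[]),([(0,3,[(3,3)])],[1,1,1])],[],false,1,0,[]),
    (true,[([(0,4,[(11,15)])],[2,1]),([(0,4,[(6,8),(7,7)])],[4,4])],[1],false,1,0,[]),
    (false,[([(0,4,[(11,15)]),(0,22,[(9,12)])],[1])],[8,6],false,2,3,[3,4]),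
    (true,[([(0,4,[(11,15)])],[2,1]),([(0,4,[(9,12),(3,3)])],[4,4])],[1],false,1,0,[2]),
    (true,[([(0,4,[(11,15)]),(0,3,[(2,2)])],[]),([(0,4,[(9,12),(3,3)])],[4,4])],[1],false,1,0,[]),
    (false,[([(0,4,[(11,15)]),(0,22,[(9,12)])],[1]),([(0,9,[(4,4)])],[2,2,2,2,1,1])],[],false,1,0,[]),
    (true,[([(0,2,[(16,21)])],[1])],[7,6,5,1,1],false,4,2,[6,7]),
    (true,[([(0,2,[(16,21)])],[]),([(0,1,[(5,6)])],[2,2,2,1])],[7,1],true,2,2,[3]),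
    (true,[([(0,2,[(16,21)])],[1]),([(0,6,[(5,6),(3,3)])],[3,3,3])],[1],false,1,0,[]),
    (false,[([(0,10,[(16,21),(7,7)])],[7,5,1,1])],[],false,1,0,[]),
    (false,[([(0,16,[(22,22)])],[6,3])],[11],false,1,0,[])]),
  ([11,10,5,4,4,3,2,2,1], [
    (false,[],[11,10,5,4,4,3,2,2,1],false,6,4,[10,15,21,22]),
    (false,[([(0,6,[(7,10)])],[])],[11,10,5,4,2],false,4,5,[5,8,10]),
    (false,[([(0,6,[(7,10)]),(0,7,[(5,5)])],[1,1,1])],[11,5,4,2,2],false,4,4,[5]),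
    (false,[([(0,4,[(7,10),(5,5)]),(0,7,[(5,5)])],[1,1])],[11,4,3,2],false,4,2,[5]),
    (true,[([(0,6,[(7,10)]),(0,7,[(5,5)])],[4,3]),([(0,7,[(5,5)]),(0,7,[(5,5)])],[1,1])],[3,2,2,1],false,3,1,[4]),
    (true,[([(0,4,[(7,10),(5,5)]),(0,9,[(4,4)])],[1]),([(0,20,[(5,5),(5,5)])],[5,2,2,1])],[2],false,1,0,[]),
    (false,[([(0,6,[(7,10)]),(0,5,[(6,8)])],[1,1])],[11,4,4,2,1],true,4,4,[6,8]),
    (false,[([(0,6,[(7,10)]),(0,5,[(6,8)])],[1,1]),([(0,1,[(5,6)])],[1])],[11,4],true,2,6,[3,6]),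
    (false,[([(0,6,[(7,10)]),(0,5,[(6,8)])],[1,1]),([(0,6,[(5,6),(3,3)])],[2,1,1,1,1,1,1])],[4],false,1,0,[3]),
    (true,[([(0,6,[(7,10)]),(0,5,[(6,8)])],[]),([(0,1,[(5,6)]),(0,1,[(3,3),(2,3)])],[2,2,1])],[2,2,2,1],true,2,3,[3]),
    (true,[([(0,6,[(7,10)]),(0,5,[(6,8)])],[]),([(0,1,[(5,6)]),(0,1,[(3,3),(2,3)]),(0,3,[(3,3)])],[2])],[2,2,2,1],false,2,1,[]),
    (true,[([(0,6,[(7,10)]),(0,5,[(6,8)])],[]),([(0,1,[(5,6)]),(0,1,[(4,6)])],[2,2,1])],[2,2,2,1],true,2,3,[3,4]),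
    (true,[([(0,6,[(7,10)]),(0,5,[(6,8)])],[]),([(0,1,[(5,6)]),(0,1,[(4,6)]),(0,3,[(3,3)])],[2])],[2,2,2,1],false,2,1,[]),
    (true,[([(0,6,[(7,10)]),(0,5,[(6,8)])],[]),([(0,1,[(5,6)]),(0,1,[(4,6)]),(0,9,[(4,4)])],[1])],[2,2,2,1],false,1,0,[]),
    (true,[([(0,6,[(7,10)])],[1,1]),([(0,5,[(6,8)]),(0,5,[(7,8)])],[2])],[8,2,2],false,2,4,[3,5]),
    (true,[([(0,6,[(7,10)]),(0,8,[(7,8),(3,3)])],[]),([(0,5,[(6,8)])],[4,1,1,1,1])],[2,2,1],true,2,2,[3]),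
    (true,[([(0,6,[(7,10)]),(0,5,[(6,8)])],[]),([(0,12,[(7,8),(3,3),(3,3)])],[2,2,1,1])],[2,2],false,1,0,[]),
    (false,[([(0,6,[(7,10)]),(0,5,[(6,8)])],[1,1]),([(0,5,[(7,8)]),(0,7,[(4,5)])],[2,1,1,1])],[4],false,1,0,[2]),
    (false,[([(0,6,[(7,10)]),(0,5,[(6,8)])],[1,1]),([(0,5,[(7,8)]),(0,7,[(4,5)]),(0,3,[(2,2)])],[1,1])],[4],false,1,0,[]),
    (true,[([(0,6,[(7,10)]),(0,8,[(9,10)])],[])],[9,3,2,2,2,2,1],true,4,2,[6,8]),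
    (true,[([(0,6,[(7,10)]),(0,8,[(9,10)])],[]),([(0,1,[(5,6)])],[])],[9,2,2,2],false,2,3,[4]),
    (true,[([(0,6,[(7,10)]),(0,8,[(9,10)])],[]),([(0,6,[(5,6),(3,4)])],[1,1,1,1,1])],[2,2,2],false,1,0,[2]),
    (true,[([(0,6,[(7,10)]),(0,5,[(5,6),(2,2)])],[]),([(0,12,[(9,10),(3,4)])],[2,2,1,1])],[2,2],false,1,0,[]),
    (true,[([(0,6,[(7,10)]),(0,5,[(7,8)])],[]),([(0,20,[(9,10)])],[5,2,2,2])],[2,1],false,2,1,[]),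
    (false,[([(0,4,[(11,15)])],[])],[11,10,4,2],false,3,6,[5,7,9,11,12]),
    (false,[([(0,4,[(11,15)]),(0,7,[(4,5)])],[1,1])],[11,4,3,2],false,4,2,[5]),
    (true,[([(0,4,[(11,15)])],[2]),([(0,7,[(4,5)]),(0,7,[(5,5)])],[1,1])],[9,2,2],false,2,4,[3,5]),
    (true,[([(0,4,[(11,15)]),(0,3,[(3,3)])],[1]),([(0,7,[(4,5)]),(0,7,[(5,5)])],[])],[9,2,2],false,2,2,[3]),
    (true,[([(0,4,[(11,15)]),(0,3,[(3,3)]),(0,3,[(3,3)])],[]),([(0,20,[(4,5),(5,5)])],[5,2,2])],[2],false,1,0,[]),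
    (true,[([(0,4,[(11,15)]),(0,7,[(4,5)])],[3]),([(0,7,[(5,5)]),(0,7,[(4,5)])],[1,1])],[3,2,2],false,2,1,[]),
    (false,[([(0,4,[(11,15)]),(0,28,[(6,7)])],[1])],[11,4,2,2],false,3,4,[6,7]),
    (false,[([(0,4,[(11,15)]),(0,28,[(6,7)])],[1]),([(0,1,[(4,6)])],[3,2,1,1,1,1,1,1])],[2],false,1,0,[2,3,4]),
    (false,[([(0,4,[(11,15)]),(0,28,[(6,7)])],[1]),([(0,1,[(4,6)]),(0,3,[(2,2)])],[3,1,1,1,1,1])],[2],false,1,0,[2]),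
    (false,[([(0,4,[(11,15)]),(0,28,[(6,7)])],[1]),([(0,1,[(4,6)]),(1,1,[(2,2),(2,2)])],[1,1,1,1,1])],[2],false,1,0,[2]),
    (false,[([(0,4,[(11,15)]),(0,28,[(6,7)])],[1]),([(0,1,[(4,6)]),(1,1,[(2,2),(2,2),(2,2)])],[1,1,1,1,1])],[2],false,1,0,[]),
    (false,[([(0,4,[(11,15)]),(0,28,[(6,7)])],[1]),([(0,1,[(4,6)]),(0,3,[(3,3)])],[3,1,1,1,1,1])],[2],false,1,0,[2]),
    (false,[([(0,4,[(11,15)]),(0,28,[(6,7)])],[1]),([(0,1,[(4,6)]),(0,7,[(3,3),(2,2)])],[2,1,1,1,1])],[2],false,1,0,[]),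
    (false,[([(0,4,[(11,15)])],[1,1,1,1,1]),([(0,28,[(6,7)]),(0,6,[(4,6),(4,4)])],[3,1,1])],[],false,1,0,[]),
    (false,[([(0,4,[(11,15)]),(0,28,[(6,7)])],[1]),([(0,28,[(7,7)])],[4,2,2,1,1,1,1])],[],false,1,0,[]),
    (false,[([(0,4,[(11,15)]),(0,35,[(8,9)])],[])],[11,4,2,1],false,4,1,[5]),
    (false,[([(0,4,[(11,15)]),(0,35,[(8,9)])],[]),([(0,7,[(5,5)])],[2])],[11],false,1,0,[]),
    (false,[([(0,4,[(11,15)]),(0,38,[(10,11)])],[])],[10,4,2],false,3,2,[]),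
    (false,[([(0,10,[(11,15),(12,12)])],[2,2,2,2])],[4,2],false,1,0,[]),
    (false,[([(0,2,[(16,21)])],[1,1,1,1])],[11,4,2],true,3,4,[6,7]),
    (false,[([(0,2,[(16,21)])],[1,1,1,1]),([(0,1,[(4,6)])],[3,2,1,1,1,1,1,1])],[],false,1,0,[2,3,4]),
    (false,[([(0,2,[(16,21)])],[1,1,1,1]),([(0,1,[(4,6)]),(0,3,[(2,2)])],[3,1,1,1,1,1])],[],false,1,0,[2]),
    (false,[([(0,2,[(16,21)])],[1,1,1,1]),([(0,1,[(4,6)]),(1,1,[(2,2),(2,2)])],[1,1,1,1,1])],[],false,1,0,[2]),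
    (false,[([(0,2,[(16,21)])],[1,1,1,1]),([(0,1,[(4,6)]),(1,1,[(2,2),(2,2),(2,2)])],[1,1,1,1,1])],[],false,1,0,[]),
    (false,[([(0,2,[(16,21)])],[1,1,1,1]),([(0,1,[(4,6)]),(0,3,[(3,3)])],[3,1,1,1,1,1])],[],false,1,0,[2]),
    (false,[([(0,2,[(16,21)])],[1,1,1,1]),([(0,1,[(4,6)]),(0,7,[(3,3),(2,2)])],[2,1,1,1,1])],[],false,1,0,[]),
    (false,[([(0,2,[(16,21)]),(0,9,[(4,4)])],[2,2,2]),([(0,1,[(4,6)])],[3,2])],[],false,1,0,[]),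
    (false,[([(0,10,[(16,21),(7,7)])],[2,2,2,2])],[4,2],false,1,0,[]),
    (false,[([(0,32,[(22,22)])],[4,3,2,2])],[5,4],false,1,0,[])]),
  ([11,10,7,5,4,3,2], [
    (false,[],[11,10,7,5,4,3,2],false,6,4,[10,15,21,22]),
    (true,[([(0,6,[(7,10)])],[])],[7,7,6,5,3,2,2],false,5,3,[8,10]),
    (false,[([(0,6,[(7,10)]),(0,5,[(6,8)])],[1,1])],[11,7,4],false,2,10,[3,4,6,8]),
    (false,[([(0,6,[(7,10)]),(0,5,[(6,8)]),(0,3,[(3,3)])],[2])],[10,5,4],false,3,4,[]),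
    (false,[([(0,6,[(7,10)]),(0,5,[(6,8)]),(0,9,[(4,4)])],[])],[11,5,4],false,3,4,[4]),
    (true,[([(0,6,[(7,10)]),(0,9,[(4,4)])],[3]),([(0,5,[(6,8)]),(0,9,[(4,4)])],[4])],[4,3,2],false,3,2,[4]),
    (false,[([(0,6,[(7,10)]),(0,22,[(6,8),(4,4)])],[5]),([(0,9,[(4,4)]),(0,9,[(4,4)])],[1,1,1,1,1,1,1])],[],false,1,0,[2]),
    (true,[([(0,6,[(7,10)]),(0,1,[(4,4),(2,2)])],[]),([(0,22,[(6,8),(4,4)])],[5]),([(0,9,[(4,4)])],[1,1,1,1,1])],[],false,1,0,[]),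
    (false,[([(0,6,[(7,10)]),(0,5,[(6,8)]),(0,1,[(5,6)])],[])],[10,5,3],false,3,3,[4,6]),
    (true,[([(0,6,[(7,10)]),(0,9,[(4,4)])],[4]),([(0,5,[(6,8)]),(0,1,[(5,6)])],[])],[5,3,2],false,3,2,[4]),
    (true,[([(0,6,[(7,10)]),(0,1,[(5,6)])],[]),([(0,22,[(6,8),(4,4)])],[5]),([(0,9,[(4,4)])],[1,1,1,1,1])],[],false,1,0,[]),
    (false,[([(0,6,[(7,10)]),(0,5,[(6,8)]),(0,1,[(5,6)])],[]),([(0,1,[(5,6)])],[3,3,2,1,1,1,1])],[],false,1,0,[3]),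
    (false,[([(0,6,[(7,10)]),(0,5,[(6,8)]),(0,1,[(5,6)])],[]),([(0,1,[(5,6)]),(0,3,[(2,3)])],[3,3,1,1,1])],[],false,1,0,[2]),
    (false,[([(0,6,[(7,10)]),(0,6,[(6,8),(2,2)]),(0,3,[(2,3)])],[]),([(0,1,[(5,6)]),(0,1,[(5,6)])],[3,1,1,1,1])],[],false,1,0,[]),
    (true,[([(0,6,[(7,10)]),(0,0,[(7,8)])],[]),([(0,5,[(6,8)])],[4])],[7,3,2],false,3,2,[5]),
    (false,[([(0,6,[(7,10)]),(0,5,[(6,8)])],[1,1]),([(0,0,[(7,8)]),(0,7,[(4,5)])],[3,2,2,1,1])],[],false,1,0,[2]),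
    (false,[([(0,6,[(7,10)]),(0,6,[(6,8),(2,2)]),(0,7,[(4,5)])],[]),([(0,0,[(7,8)])],[3,1,1,1,1,1,1])],[],false,1,0,[]),
    (false,[([(0,6,[(7,10)]),(0,6,[(9,10)])],[2,1])],[11,5,3],false,3,3,[6,8]),
    (true,[([(0,6,[(7,10)]),(0,1,[(4,6)])],[]),([(0,20,[(9,10)])],[5])],[7,4],false,2,4,[3,5]),
    (true,[([(0,6,[(7,10)])],[1]),([(0,21,[(9,10),(3,3)]),(0,1,[(4,6)])],[])],[7,3,2],false,3,2,[]),
    (true,[([(0,6,[(7,10)]),(0,1,[(4,6)])],[]),([(0,4,[(9,10),(4,5)])],[5,2])],[2,2],false,1,0,[2]),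
    (false,[([(0,6,[(7,10)]),(0,6,[(9,10)]),(0,3,[(2,2)])],[]),([(0,1,[(4,6)]),(0,7,[(4,5)])],[3,2,1,1,1])],[],false,1,0,[]),
    (true,[([(0,6,[(7,10)]),(0,0,[(7,8)])],[]),([(0,20,[(9,10)])],[5,1])],[5,3],false,2,1,[]),
    (true,[([(0,4,[(11,15)])],[1,1])],[7,6,5,3,2,2],false,5,3,[8,12]),
    (false,[([(0,4,[(11,15)]),(0,5,[(6,8)])],[5])],[11,3],true,2,6,[3,5,7]),
    (true,[([(0,4,[(11,15)]),(0,3,[(3,3)])],[]),([(0,5,[(6,8)])],[4,1])],[7,4],false,2,4,[3]),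
    (true,[([(0,4,[(11,15)])],[5,3]),([(0,5,[(6,8)]),(0,1,[(3,3),(3,3)])],[])],[3,2],false,2,2,[3]),
    (true,[([(0,4,[(11,15)])],[5,3]),([(0,5,[(6,8)]),(0,1,[(3,3),(3,3)])],[]),([(0,3,[(3,3)])],[2])],[],false,1,0,[]),
    (true,[([(0,4,[(11,15)])],[5]),([(0,5,[(6,8)]),(0,7,[(4,5)])],[])],[7,2],true,2,3,[3,4]),
    (true,[([(0,4,[(11,15)])],[5]),([(0,5,[(6,8)]),(0,7,[(4,5)])],[]),([(0,3,[(3,3)])],[2,1,1,1,1])],[],false,1,0,[2]),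
    (true,[([(0,4,[(11,15)])],[5]),([(0,5,[(6,8)]),(0,7,[(4,5)])],[]),([(0,3,[(3,3)]),(0,3,[(2,2)])],[1,1,1])],[],false,1,0,[]),
    (true,[([(0,4,[(11,15)])],[5]),([(0,5,[(6,8)]),(0,7,[(4,5)])],[]),([(0,9,[(4,4)])],[1,1,1,1,1])],[],false,1,0,[]),
    (true,[([(0,4,[(11,15)])],[1,1]),([(0,4,[(6,8),(6,7)])],[5,3])],[2],false,1,0,[2]),
    (true,[([(0,4,[(11,15)]),(0,3,[(2,2)])],[]),([(0,4,[(6,8),(6,7)])],[5,2])],[2],false,1,0,[]),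
    (false,[([(0,4,[(11,15)]),(0,22,[(9,12)])],[])],[11,4],false,2,3,[3,4]),
    (true,[([(0,4,[(11,15)])],[1,1]),([(0,4,[(9,12),(3,3)])],[5,3])],[2],false,1,0,[2]),
    (true,[([(0,4,[(11,15)]),(0,3,[(2,2)])],[]),([(0,4,[(9,12),(3,3)])],[5,2])],[2],false,1,0,[]),
    (false,[([(0,4,[(11,15)]),(0,22,[(9,12)])],[]),([(0,9,[(4,4)])],[2,2,1,1,1,1,1,1,1])],[],false,1,0,[]),
    (true,[([(0,2,[(16,21)])],[1])],[7,6,3,2,2],false,4,3,[6,7]),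
    (true,[([(0,2,[(16,21)])],[]),([(0,1,[(5,6)])],[3,1,1,1])],[7,2],false,2,2,[3]),
    (true,[([(0,2,[(16,21)])],[1]),([(0,6,[(5,6),(3,3)])],[4,2,2])],[2],false,1,0,[]),
    (false,[([(0,10,[(16,21),(7,7)])],[7,3,2,2])],[],false,1,0,[]),
    (false,[([(0,16,[(22,22)])],[6,3,3,2,2])],[4],false,1,0,[])]),
  ([11,10,7,6,5,2,1], [
    (false,[],[11,10,7,6,5,2,1],true,6,4,[10,15,21,22]),
    (true,[([(0,6,[(7,10)])],[1])],[7,6,5,5,4,2,2],false,5,4,[6,8,10]),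
    (true,[([(0,6,[(7,10)]),(0,1,[(6,6)])],[])],[6,5,5,4,2,2,2],false,4,4,[6]),
    (true,[([(0,6,[(7,10)])],[1]),([(0,1,[(6,6)]),(0,1,[(5,6)])],[2])],[6,5,4,2],false,4,2,[6]),
    (true,[([(0,6,[(7,10)]),(0,1,[(6,6)])],[]),([(0,1,[(5,6)]),(0,1,[(5,6)])],[])],[5,5,2,2],false,2,2,[3]),
    (true,[([(0,6,[(7,10)])],[1]),([(0,6,[(6,6),(3,3)])],[4,3]),([(0,1,[(5,6)]),(0,1,[(5,6)])],[2])],[],false,1,0,[]),
    (true,[([(0,6,[(7,10)])],[2]),([(0,5,[(7,8)])],[4])],[7,6,5],false,3,5,[6,8]),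
    (true,[([(0,6,[(7,10)]),(0,1,[(4,6)])],[]),([(0,0,[(7,8)])],[2,1])],[6,5,2,2],false,3,4,[4,5,6]),
    (true,[([(0,6,[(7,10)]),(0,1,[(4,6)])],[]),([(0,0,[(7,8)]),(0,9,[(4,4)])],[])],[6,4,2,2],false,3,3,[4]),
    (true,[([(0,6,[(7,10)]),(0,9,[(4,4)])],[]),([(0,0,[(7,8)])],[1,1]),([(0,6,[(4,6),(4,4)])],[4,3,1])],[],false,1,0,[]),
    (true,[([(0,4,[(7,10),(5,5)])],[3]),([(0,0,[(7,8)]),(0,1,[(4,6)])],[1])],[5,2,2],false,2,2,[3]),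
    (true,[([(0,4,[(7,10),(5,5)])],[3]),([(0,0,[(7,8)]),(0,1,[(4,6)])],[1]),([(0,3,[(3,3)])],[2,1,1])],[2],false,1,0,[]),
    (true,[([(0,6,[(7,10)])],[3,3]),([(0,5,[(7,8)])],[4]),([(0,1,[(4,6)]),(0,1,[(6,6)])],[2])],[],false,1,0,[2]),
    (true,[([(0,6,[(7,10)])],[1]),([(0,6,[(7,8),(2,2)])],[4,3]),([(0,1,[(4,6)]),(0,1,[(6,6)])],[2])],[],false,1,0,[]),
    (false,[([(0,6,[(7,10)]),(0,0,[(7,8)]),(0,0,[(7,8)])],[2])],[7,5,2],false,3,2,[4]),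
    (true,[([(0,6,[(7,10)]),(0,9,[(4,4)])],[]),([(0,25,[(7,8),(7,8)])],[6])],[5],false,1,0,[]),
    (false,[([(0,6,[(7,10)]),(0,6,[(9,10)])],[3,1])],[11,6,1],true,3,3,[6,8]),
    (true,[([(0,6,[(7,10)]),(0,1,[(4,6)])],[]),([(0,6,[(9,10)])],[4,3])],[5,2,2],false,2,4,[3,5]),
    (true,[([(0,6,[(7,10)]),(0,1,[(4,6)])],[]),([(0,21,[(9,10),(3,3)])],[3])],[6,2,2],false,2,2,[3]),
    (true,[([(0,6,[(7,10)]),(0,1,[(4,6)])],[]),([(0,21,[(9,10),(3,3)])],[3]),([(0,3,[(3,3)])],[2,1,1,1])],[2],false,1,0,[]),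
    (false,[([(0,6,[(7,10)]),(0,6,[(9,10)]),(0,7,[(4,5)])],[]),([(0,1,[(4,6)])],[2,2,2,2,1,1,1])],[],false,1,0,[2]),
    (false,[([(0,6,[(7,10)]),(0,6,[(9,10)]),(0,7,[(4,5)])],[]),([(0,1,[(4,6)]),(0,3,[(2,2)])],[2,2,2,1,1])],[],false,1,0,[]),
    (true,[([(0,6,[(7,10)])],[4]),([(0,8,[(9,10)]),(0,0,[(7,8)])],[])],[5,2,2],false,2,1,[]),
    (true,[([(0,4,[(11,15)])],[])],[7,6,5,5,2,2],false,4,4,[6,8,11,12]),
    (true,[([(0,4,[(11,15)])],[]),([(0,1,[(5,6)])],[3,2,2])],[7,5,2],false,2,7,[4,6]),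
    (true,[([(0,4,[(11,15)])],[]),([(0,6,[(5,6),(3,4)])],[4,3,3])],[5,2],false,1,0,[2,3,4]),
    (true,[([(0,4,[(11,15)])],[]),([(0,1,[(5,6)]),(0,1,[(3,4),(2,2)])],[2])],[6,5,2],false,2,4,[]),
    (true,[([(0,4,[(11,15)]),(0,3,[(3,3)])],[]),([(0,6,[(5,6),(3,4)])],[4,3])],[5,2],true,2,3,[3]),
    (true,[([(0,4,[(11,15)]),(0,3,[(3,3)])],[]),([(0,6,[(5,6),(3,4)])],[4,3]),([(0,3,[(3,3)])],[2,1,1])],[],false,1,0,[2]),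
    (true,[([(0,4,[(11,15)]),(0,3,[(3,3)])],[]),([(0,6,[(5,6),(3,4)])],[4,3]),([(0,3,[(3,3)]),(0,3,[(2,2)])],[1])],[],false,1,0,[]),
    (true,[([(0,4,[(11,15)])],[5]),([(0,6,[(5,6),(3,4)]),(0,9,[(4,4)])],[1])],[5,2],false,2,2,[3]),
    (true,[([(0,4,[(11,15)])],[5]),([(0,6,[(5,6),(3,4)]),(0,9,[(4,4)])],[1]),([(0,3,[(3,3)])],[2,1,1])],[],false,1,0,[]),
    (true,[([(0,4,[(11,15)])],[]),([(0,1,[(5,6)]),(0,1,[(5,6)])],[2])],[6,5,2],false,3,2,[4]),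
    (true,[([(0,4,[(11,15)])],[]),([(0,1,[(5,6)]),(0,1,[(5,6)])],[2]),([(0,9,[(4,4)])],[1,1,1])],[6],false,1,0,[]),
    (true,[([(0,4,[(11,15)])],[]),([(0,0,[(7,8)])],[2,2])],[7,6,2],false,3,2,[6]),
    (true,[([(0,4,[(11,15)])],[3]),([(0,0,[(7,8)]),(0,1,[(4,6)])],[1])],[5,2,2],false,2,2,[3]),
    (true,[([(0,4,[(11,15)])],[3]),([(0,0,[(7,8)]),(0,1,[(4,6)])],[1]),([(0,3,[(3,3)])],[2,1,1])],[2],false,1,0,[]),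
    (true,[([(0,4,[(11,15)])],[]),([(0,8,[(9,11)])],[4,3])],[7,2],true,2,3,[3,4]),
    (true,[([(0,4,[(11,15)]),(0,3,[(3,3)])],[]),([(0,8,[(9,11)])],[4,2])],[5,2],false,2,1,[]),
    (true,[([(0,4,[(11,15)])],[]),([(0,8,[(9,11)])],[4,3]),([(0,9,[(4,4)])],[1,1,1,1,1])],[],false,1,0,[]),
    (false,[([(0,10,[(11,15),(12,12)])],[5,5,2,2])],[],false,1,0,[]),
    (true,[([(0,2,[(16,21)])],[])],[7,5,5,2,2],false,3,4,[6,7]),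
    (true,[([(0,2,[(16,21)])],[]),([(0,1,[(4,6)])],[3,2,2,1])],[5,2],true,2,3,[3,4]),
    (true,[([(0,2,[(16,21)])],[]),([(0,1,[(4,6)]),(0,3,[(3,3)])],[3,2])],[5,2],false,2,1,[]),
    (true,[([(0,2,[(16,21)])],[]),([(0,1,[(4,6)]),(0,9,[(4,4)])],[3,1])],[5,2],false,1,0,[]),
    (false,[([(0,10,[(16,21),(7,7)])],[5,5,2,2])],[],false,1,0,[]),
    (false,[([(0,16,[(22,22)])],[4,3,1,1])],[11],false,1,0,[])]),
  ([11,10,7,6,5,3,1], [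
    (false,[],[11,10,7,6,5,3,1],false,6,4,[10,15,21,22]),
    (true,[([(0,6,[(7,10)])],[1])],[7,6,6,5,4,2,2],false,5,4,[7,10]),
    (false,[([(0,6,[(7,10)]),(0,28,[(6,7)])],[4,3])],[11,7,1],false,1,0,[3,4,6,7]),
    (true,[([(0,6,[(7,10)]),(0,3,[(2,3)])],[]),([(0,5,[(6,7)])],[4])],[7,6,5],false,3,5,[]),
    (false,[([(0,6,[(7,10)]),(0,8,[(6,7),(4,4)])],[4,1])],[11,5,1],true,3,3,[4]),
    (true,[([(0,6,[(7,10)]),(0,9,[(4,4)])],[]),([(0,8,[(6,7),(4,4)])],[4,2])],[7,3,2],false,3,2,[4]),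
    (true,[([(0,6,[(7,10)]),(0,9,[(4,4)])],[]),([(0,4,[(6,7),(4,4),(4,4)])],[5])],[7,2],false,2,1,[]),
    (true,[([(0,6,[(7,10)]),(0,1,[(5,6)])],[]),([(0,28,[(6,7)])],[4,1])],[6,5,4],false,3,4,[4,6]),
    (true,[([(0,6,[(7,10)]),(0,1,[(5,6)])],[]),([(0,8,[(6,7),(4,4)])],[4,2])],[6,2,2],false,2,3,[3,4]),
    (false,[([(0,6,[(7,10)]),(0,8,[(6,7),(4,4)])],[4,1]),([(0,1,[(5,6)]),(0,3,[(3,3)])],[2,2,1,1,1,1])],[],false,1,0,[2]),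
    (false,[([(0,6,[(7,10)]),(0,4,[(6,7),(5,6),(2,2)])],[1]),([(0,9,[(4,4)]),(0,3,[(3,3)])],[2,2,2,1,1,1,1])],[],false,1,0,[]),
    (true,[([(0,6,[(7,10)])],[2,2]),([(0,2,[(6,7),(5,6),(4,4),(4,4)])],[6])],[2],false,1,0,[]),
    (true,[([(0,6,[(7,10)]),(0,1,[(5,6)])],[]),([(0,28,[(6,7)])],[4,1]),([(0,1,[(5,6)])],[3,3,3])],[],false,1,0,[3]),
    (true,[([(0,6,[(7,10)])],[1]),([(0,6,[(6,7),(2,3)])],[4,3,3]),([(0,1,[(5,6)]),(0,1,[(5,6)])],[])],[],false,1,0,[2]),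
    (true,[([(0,6,[(7,10)]),(0,3,[(2,2)])],[]),([(0,6,[(6,7),(2,3)])],[4,2]),([(0,1,[(5,6)]),(0,1,[(5,6)])],[2])],[],false,1,0,[]),
    (true,[([(0,6,[(7,10)]),(0,0,[(7,7)])],[]),([(0,28,[(6,7)])],[4])],[6,5,3],false,3,3,[5]),
    (true,[([(0,6,[(7,10)])],[4,2]),([(0,14,[(6,7),(7,7),(4,5)])],[3])],[5],false,1,0,[2]),
    (true,[([(0,6,[(7,10)])],[2,2]),([(0,2,[(6,7),(7,7),(4,5),(2,2)])],[6])],[2],false,1,0,[]),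
    (false,[([(0,6,[(7,10)]),(0,6,[(8,10)])],[4,1])],[11,6,1],true,2,8,[3,4,6,8,9]),
    (true,[([(0,6,[(7,10)]),(0,3,[(3,3)])],[]),([(0,6,[(8,10)])],[4,2])],[7,5,2],false,2,6,[3]),
    (true,[([(0,6,[(7,10)]),(0,3,[(3,3)])],[]),([(0,6,[(8,10)]),(0,3,[(3,3)])],[4])],[6,5,2],false,3,2,[]),
    (true,[([(0,6,[(7,10)]),(0,9,[(4,4)])],[]),([(0,6,[(8,10)])],[4])],[7,6,2],false,3,2,[4]),
    (true,[([(0,6,[(7,10)]),(0,9,[(4,4)])],[]),([(0,6,[(8,10)]),(0,9,[(4,4)])],[4])],[5,4,2],false,3,2,[]),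
    (true,[([(0,6,[(7,10)]),(0,1,[(5,6)])],[]),([(0,6,[(8,10)])],[4,3])],[6,2,2],false,2,4,[3,5]),
    (false,[([(0,6,[(7,10)]),(0,6,[(8,10)])],[4,1]),([(0,1,[(5,6)]),(0,3,[(3,3)])],[2,2,2,1,1,1])],[],false,1,0,[3]),
    (true,[([(0,6,[(7,10)])],[1]),([(0,6,[(8,10)])],[4,3,3]),([(0,1,[(5,6)]),(0,1,[(3,3),(2,3)])],[])],[],false,1,0,[2]),
    (true,[([(0,6,[(7,10)]),(0,3,[(2,2)])],[]),([(0,6,[(8,10)])],[4,2]),([(0,1,[(5,6)]),(0,1,[(3,3),(2,3)])],[2])],[],false,1,0,[]),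
    (true,[([(0,6,[(7,10)]),(0,1,[(5,6)])],[]),([(0,6,[(8,10)])],[4,3]),([(0,7,[(4,5)])],[3,1,1])],[],false,1,0,[2]),
    (true,[([(0,6,[(7,10)]),(0,3,[(2,2)])],[2]),([(0,6,[(8,10)])],[4,3]),([(0,1,[(5,6)]),(0,7,[(4,5)])],[])],[],false,1,0,[]),
    (true,[([(0,6,[(7,10)]),(0,0,[(7,8)])],[]),([(0,6,[(8,10)])],[4,2])],[5,2,2],false,2,2,[3]),
    (true,[([(0,6,[(7,10)])],[2,2]),([(0,2,[(8,10),(7,8),(3,3)])],[6])],[2],false,1,0,[]),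
    (true,[([(0,14,[(7,10),(9,9)])],[]),([(0,6,[(8,10)])],[4,3])],[7],false,1,0,[]),
    (true,[([(0,4,[(11,15)])],[2])],[7,6,5,4,2,2],false,5,4,[7,10,12]),
    (false,[([(0,4,[(11,15)]),(0,28,[(6,7)])],[3])],[11,7],false,2,6,[3,4,5,7]),
    (false,[([(0,4,[(11,15)]),(0,6,[(6,7),(3,3)])],[1])],[11,6],false,2,4,[3]),
    (true,[([(0,4,[(11,15)]),(0,3,[(3,3)])],[]),([(0,6,[(6,7),(3,3)])],[4,3])],[6,2],false,2,2,[3]),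
    (false,[([(0,4,[(11,15)]),(0,6,[(6,7),(3,3)])],[1]),([(0,3,[(3,3)]),(0,3,[(3,3)])],[2,2,2,2,1,1,1])],[],false,1,0,[]),
    (false,[([(0,4,[(11,15)]),(0,8,[(6,7),(4,4)])],[1])],[11,5],false,2,3,[3,4]),
    (true,[([(0,4,[(11,15)]),(0,3,[(3,3)])],[]),([(0,8,[(6,7),(4,4)])],[4,2])],[6,2],false,2,1,[]),
    (true,[([(0,4,[(11,15)])],[2]),([(0,4,[(6,7),(4,4),(4,4)])],[5,4])],[2],false,1,0,[]),
    (true,[([(0,4,[(11,15)])],[5]),([(0,28,[(6,7)]),(0,7,[(5,5)])],[])],[6,5],false,2,2,[3]),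
    (true,[([(0,4,[(11,15)])],[2]),([(0,4,[(6,7),(5,5),(3,3)])],[5,4])],[2],false,1,0,[]),
    (true,[([(0,4,[(11,15)])],[5]),([(0,12,[(6,7),(6,7)])],[2])],[7],false,1,0,[2]),
    (true,[([(0,4,[(11,15)])],[5]),([(0,12,[(6,7),(6,7)]),(0,3,[(2,2)])],[])],[6],false,1,0,[]),
    (false,[([(0,4,[(11,15)]),(0,6,[(8,10)])],[1])],[11,6],false,2,4,[3,4,5]),
    (true,[([(0,4,[(11,15)]),(0,3,[(3,3)])],[]),([(0,6,[(8,10)])],[4,3])],[6,2],false,2,2,[3]),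
    (false,[([(0,4,[(11,15)]),(0,6,[(8,10)])],[1]),([(0,3,[(3,3)]),(0,3,[(3,3)])],[2,2,2,2,1,1,1])],[],false,1,0,[]),
    (true,[([(0,4,[(11,15)]),(0,9,[(4,4)])],[]),([(0,6,[(8,10)])],[4,3])],[5,2],false,2,1,[]),
    (true,[([(0,4,[(11,15)])],[2]),([(0,4,[(8,10),(5,5)])],[5,4])],[2],false,1,0,[]),
    (false,[([(0,4,[(11,15)]),(0,13,[(11,12)])],[4,2])],[7,3],false,2,1,[]),
    (true,[([(0,2,[(16,21)])],[])],[7,6,5,2,2],false,4,4,[6,7]),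
    (true,[([(0,2,[(16,21)])],[]),([(0,1,[(5,6)])],[3,2,2])],[7,2],false,2,2,[3]),
    (true,[([(0,2,[(16,21)])],[]),([(0,6,[(5,6),(3,3)])],[4,3,3])],[2],false,1,0,[]),
    (false,[([(0,10,[(16,21),(7,7)])],[6,5,2,2])],[],false,1,0,[]),
    (false,[([(0,16,[(22,22)])],[5,3,1,1])],[11],false,1,0,[])]),
  ([11,10,9,4,3,2,2,1], [
    (false,[],[11,10,9,4,3,2,2,1],false,6,4,[10,14,19,22]),
    (true,[([(0,6,[(7,10)])],[])],[8,7,5,3,3,3,3],false,4,5,[5,6,8,10]),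
    (true,[([(0,6,[(7,10)]),(0,7,[(5,5)])],[])],[8,5,3,3,3,3,2],true,4,3,[5]),
    (false,[([(0,6,[(7,10)]),(0,6,[(5,5),(5,5)])],[2,2,2])],[10,3,2,1],true,4,2,[5]),
    (true,[([(0,6,[(7,10)]),(0,7,[(5,5)])],[]),([(0,7,[(5,5)]),(0,7,[(5,5)])],[3,1])],[5,3,3,2],false,3,2,[4]),
    (true,[([(0,4,[(7,10),(5,5)]),(0,7,[(5,5)])],[]),([(0,35,[(5,5),(4,4)])],[5,5])],[3],false,1,0,[]),
    (true,[([(0,6,[(7,10)]),(0,1,[(6,6)])],[])],[8,4,3,3,3,3,2],false,3,6,[5,6]),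
    (true,[([(0,6,[(7,10)]),(0,28,[(6,6)])],[]),([(0,7,[(4,5)])],[3,3])],[7,3,3,1],true,3,4,[5]),
    (true,[([(0,6,[(7,10)]),(0,1,[(6,6)])],[]),([(0,7,[(4,5)]),(0,7,[(4,5)])],[3,1])],[4,3,3,2],false,3,2,[5]),
    (true,[([(0,6,[(7,10)])],[4]),([(0,8,[(6,6),(4,5)])],[1,1,1]),([(0,7,[(4,5)]),(0,7,[(4,5)])],[3,1])],[],false,1,0,[2]),
    (true,[([(0,6,[(7,10)]),(0,3,[(2,2)])],[4]),([(0,8,[(6,6),(4,5)])],[]),([(0,7,[(4,5)]),(0,7,[(4,5)])],[3,1])],[],false,1,0,[]),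
    (false,[([(0,6,[(7,10)]),(0,12,[(6,6),(6,6)])],[2,2])],[10,2,2],true,2,5,[3,6]),
    (true,[([(0,6,[(7,10)]),(0,1,[(6,6)])],[]),([(0,35,[(6,6),(3,3)])],[5,4,1])],[4,3],false,2,3,[3]),
    (true,[([(0,6,[(7,10)]),(0,1,[(3,3),(3,3)])],[]),([(0,39,[(6,6),(6,6)])],[6,5])],[3],false,1,0,[2]),
    (false,[([(0,6,[(7,10)]),(0,12,[(6,6),(6,6),(2,2)])],[2,2]),([(0,3,[(3,3)]),(0,3,[(3,3)])],[1,1,1,1,1,1])],[2],false,1,0,[]),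
    (true,[([(0,6,[(7,10)]),(0,28,[(6,6)])],[]),([(0,1,[(6,6)]),(0,1,[(4,6)])],[3])],[3,3,3,1],true,2,2,[3]),
    (false,[([(0,6,[(7,10)]),(0,35,[(6,6),(3,3)])],[1]),([(0,1,[(6,6)]),(0,1,[(4,6)])],[2,2,2,2,2])],[],false,1,0,[]),
    (true,[([(0,6,[(7,10)]),(0,5,[(7,8)])],[])],[7,4,3,3,3,3,1],false,3,5,[6,8]),
    (true,[([(0,6,[(7,10)]),(0,1,[(4,6)])],[]),([(0,0,[(7,8)])],[])],[8,4,3,3],false,3,4,[4,5,6]),
    (true,[([(0,6,[(7,10)]),(0,5,[(7,8)])],[]),([(0,1,[(4,6)])],[2]),([(0,9,[(4,4)])],[2])],[7,3],false,2,3,[3,4]),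
    (true,[([(0,6,[(7,10)]),(0,28,[(4,4),(3,3)])],[]),([(0,0,[(7,8)]),(0,1,[(4,6)])],[1])],[3,3,3,1],false,2,1,[]),
    (true,[([(0,6,[(7,10)]),(0,5,[(7,8)])],[]),([(0,6,[(4,6),(4,4)])],[3,1,1]),([(0,9,[(4,4)])],[2])],[3],false,1,0,[]),
    (true,[([(0,6,[(7,10)]),(0,5,[(7,8)])],[]),([(0,1,[(4,6)]),(0,7,[(5,5)])],[3])],[3,3,3,1],true,2,2,[3]),
    (false,[([(0,6,[(7,10)]),(0,1,[(4,6)])],[2,2,2,2]),([(0,5,[(7,8)]),(0,5,[(5,5),(3,3)])],[1,1])],[],false,1,0,[]),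
    (true,[([(0,6,[(7,10)]),(0,28,[(6,6)])],[]),([(0,0,[(7,8)]),(0,1,[(4,6)])],[1])],[3,3,3,1],false,2,1,[]),
    (true,[([(0,6,[(7,10)]),(0,5,[(7,8)])],[]),([(0,5,[(7,8)])],[4,4,1])],[3,3,1],true,2,3,[3,4]),
    (true,[([(0,6,[(7,10)]),(0,5,[(7,8)])],[]),([(0,8,[(7,8),(3,3)])],[])],[7,3,3],false,2,1,[]),
    (true,[([(0,6,[(7,10)]),(0,5,[(7,8)])],[]),([(0,5,[(7,8)])],[3,3,1]),([(0,9,[(4,4)])],[2])],[3],false,1,0,[]),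
    (false,[([(0,6,[(7,10)]),(0,6,[(9,10)])],[2,2,2])],[10,3,2,1],true,4,2,[6,8]),
    (true,[([(0,6,[(7,10)]),(0,1,[(5,6)])],[]),([(0,20,[(9,10)])],[5,4,1])],[3,3],false,1,0,[2,3,4]),
    (true,[([(0,6,[(7,10)]),(0,5,[(5,6),(2,2)])],[]),([(0,20,[(9,10)])],[5,5])],[3,1],true,2,2,[]),
    (true,[([(0,6,[(7,10)]),(0,21,[(9,10),(3,3)])],[]),([(0,1,[(5,6)])],[])],[4,3,3,3],false,2,1,[]),
    (false,[([(0,6,[(7,10)]),(0,6,[(9,10)])],[2,2,2]),([(0,6,[(5,6),(4,4)])],[1,1,1,1,1,1])],[],false,1,0,[]),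
    (false,[([(0,6,[(7,10)]),(0,34,[(9,10),(7,8)])],[2])],[10,2],false,2,1,[]),
    (true,[([(0,12,[(11,14)])],[4,1])],[8,4,3,3,3,2],false,3,6,[5,7,9,11,12]),
    (true,[([(0,12,[(11,14)]),(0,7,[(4,5)])],[])],[7,4,3,3,3,3],false,3,4,[4,5]),
    (true,[([(0,12,[(11,14)]),(0,7,[(4,5)])],[]),([(0,9,[(4,4)])],[2])],[7,4,3,3],false,3,4,[4]),
    (false,[([(0,12,[(11,14)]),(0,6,[(4,5),(4,4)]),(0,9,[(4,4)])],[])],[10,2,2],false,2,2,[3]),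
    (true,[([(0,2,[(11,14),(4,4),(3,3)]),(0,9,[(4,4)])],[]),([(0,7,[(4,5)])],[3,3])],[3,3],false,1,0,[]),
    (true,[([(0,12,[(11,14)])],[4,1]),([(0,7,[(4,5)]),(0,7,[(5,5)])],[3,1])],[4,3,2],false,3,2,[5]),
    (true,[([(0,12,[(11,14)]),(0,7,[(4,5)])],[]),([(0,7,[(5,5)]),(0,7,[(4,5)])],[3])],[4,3,3],false,2,1,[]),
    (true,[([(0,2,[(11,14),(6,7)])],[1])],[8,3,3,3,3],false,2,6,[3,5,7]),
    (false,[([(0,2,[(11,14),(6,7)]),(0,3,[(3,3)])],[2,2,2])],[10,2],true,2,4,[3]),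
    (false,[([(0,2,[(11,14),(6,7)]),(0,3,[(3,3)])],[2,2,2]),([(0,3,[(3,3)])],[2,1,1,1,1,1,1,1])],[],false,1,0,[2,3]),
    (false,[([(0,2,[(11,14),(6,7)]),(0,3,[(3,3)])],[2,2,2]),([(0,3,[(3,3)]),(0,3,[(2,2)])],[1,1,1,1,1,1])],[],false,1,0,[2]),
    (true,[([(0,2,[(11,14),(6,7)])],[1]),([(0,7,[(3,3),(2,2)]),(0,7,[(3,3),(2,2)])],[3,1])],[3,3],false,1,0,[]),
    (false,[([(0,2,[(11,14),(6,7)]),(0,3,[(3,3)])],[2,2,2]),([(0,3,[(3,3)]),(0,3,[(3,3)])],[1,1,1,1,1,1])],[],false,1,0,[]),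
    (true,[([(0,12,[(11,14)]),(0,7,[(4,5)])],[]),([(0,28,[(6,7)])],[4,4,1])],[4,3],false,2,3,[3,4]),
    (true,[([(0,12,[(11,14)]),(0,7,[(4,5)])],[]),([(0,20,[(6,7),(3,3)])],[5,5])],[3],false,1,0,[2]),
    (true,[([(0,2,[(11,14),(6,7)])],[1]),([(0,7,[(4,5)]),(0,7,[(3,3),(2,2)])],[3,1])],[3,3],false,1,0,[]),
    (true,[([(0,2,[(11,14),(6,7)]),(0,9,[(4,4)])],[]),([(0,7,[(4,5)])],[3,3])],[3,3],false,1,0,[]),
    (true,[([(0,2,[(11,14),(6,7)])],[1]),([(0,28,[(6,7)])],[4,4,1,1])],[3],false,1,0,[2]),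
    (true,[([(0,12,[(11,14)])],[4,1]),([(0,6,[(6,7),(2,2)]),(0,28,[(6,7)])],[])],[3,3],false,1,0,[]),
    (false,[([(0,40,[(11,14)]),(0,35,[(8,9)])],[])],[10,9],false,2,4,[3,4,5]),
    (true,[([(0,25,[(11,14),(3,3)])],[5]),([(0,35,[(8,9)])],[5,5,1])],[],false,1,0,[3]),
    (true,[([(0,4,[(11,14)]),(0,3,[(2,3)])],[]),([(0,39,[(8,9),(3,3)])],[6,6])],[],false,1,0,[2]),
    (true,[([(0,12,[(11,14)])],[5,1]),([(0,8,[(8,9),(2,2)])],[]),([(0,3,[(3,3)]),(0,3,[(2,3)])],[2,1,1,1])],[],false,1,0,[]),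
    (false,[([(0,12,[(11,14)]),(0,6,[(8,9)]),(0,9,[(4,4)])],[])],[10,2,2],false,2,1,[]),
    (false,[([(0,10,[(11,14),(8,9),(5,5)])],[3,3,3,3])],[2],false,1,0,[]),
    (true,[([(0,27,[(11,14),(10,11)])],[6])],[3,3,3,2],false,2,2,[3]),
    (false,[([(0,10,[(11,14),(10,11),(3,3)])],[3,3,3,3])],[2],false,1,0,[]),
    (false,[([(0,26,[(11,14),(12,12)])],[3,3,3,3,1])],[2,1],false,1,0,[]),
    (false,[([(0,14,[(15,19)])],[2,2,2,2])],[11,4],true,2,7,[3,4,6,8]),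
    (false,[([(0,14,[(15,19)]),(0,3,[(3,3)])],[2,2,2])],[10,4],true,2,5,[3]),
    (false,[([(0,14,[(15,19)]),(0,1,[(3,3),(3,3)])],[2,2])],[10,3],false,2,3,[3]),
    (false,[([(0,14,[(15,19)]),(0,1,[(3,3),(3,3)])],[2,2]),([(0,3,[(3,3)])],[2,2,1,1,1,1,1,1])],[],false,1,0,[2]),
    (false,[([(0,14,[(15,19)]),(0,1,[(3,3),(3,3)])],[2,2]),([(0,3,[(3,3)]),(0,3,[(2,2)])],[2,1,1,1,1,1])],[],false,1,0,[]),
    (true,[([(0,14,[(15,19)])],[5,2]),([(0,9,[(4,4)])],[2])],[5,3,2],false,3,2,[4]),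
    (false,[([(0,14,[(15,19)]),(0,9,[(4,4)]),(0,9,[(4,4)])],[])],[11,4],false,2,1,[]),
    (false,[([(0,14,[(15,19)]),(0,1,[(5,6)])],[2,2])],[10,3],false,2,3,[3,4]),
    (false,[([(0,14,[(15,19)]),(0,1,[(5,6)])],[2,2]),([(0,3,[(3,3)])],[2,2,1,1,1,1,1,1])],[],false,1,0,[2]),
    (false,[([(0,14,[(15,19)]),(0,1,[(5,6)])],[2,2]),([(0,3,[(3,3)]),(0,3,[(2,2)])],[2,1,1,1,1,1])],[],false,1,0,[]),
    (false,[([(0,14,[(15,19)]),(0,1,[(5,6)]),(0,9,[(4,4)])],[])],[10,3],false,1,0,[]),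
    (true,[([(0,14,[(15,19)])],[5,2]),([(0,0,[(7,8)])],[])],[5,3],false,2,1,[]),
    (true,[([(0,32,[(20,22)])],[5])],[5,4,3,3],false,3,2,[])])]

theorem cj7f_4_ok : runAllJ S42 R42 F42 21 cj7f_4 = true := by decide +kernel

noncomputable def cj7f_5 : List (List ℕ × List NdJ) := [
  ([11,10,9,5,4,3,1], [
    (false,[],[11,10,9,5,4,3,1],false,6,4,[10,15,21,22]),
    (true,[([(0,6,[(7,10)])],[1,1])],[7,6,5,4,3,3,3],false,5,4,[6,8,10]),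
    (true,[([(0,6,[(7,10)]),(0,1,[(6,6)])],[])],[6,6,4,3,3,3,2],true,4,3,[5,6]),
    (true,[([(0,6,[(7,10)]),(0,1,[(6,6)])],[]),([(0,7,[(5,5)])],[3,3,1])],[6,4,3,2],false,4,2,[5]),
    (true,[([(0,6,[(7,10)]),(0,1,[(6,6)])],[]),([(0,7,[(5,5)]),(0,1,[(5,5)])],[])],[6,4,3,3],false,3,2,[]),
    (true,[([(0,6,[(7,10)]),(0,1,[(6,6)])],[]),([(0,1,[(6,6)])],[3,1,1])],[6,4,3,3],false,3,4,[6]),
    (true,[([(0,6,[(7,10)]),(0,1,[(6,6)])],[]),([(0,1,[(6,6)]),(0,1,[(4,6)])],[])],[6,3,3,3],false,2,2,[3]),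
    (true,[([(0,6,[(7,10)]),(0,1,[(6,6)])],[]),([(0,1,[(6,6)]),(0,1,[(4,6)])],[]),([(0,3,[(3,3)])],[2,2,1,1])],[3,3],false,1,0,[]),
    (true,[([(0,6,[(7,10)])],[3,1]),([(0,0,[(7,8)])],[])],[7,6,5,3],false,4,3,[6,8]),
    (true,[([(0,6,[(7,10)]),(0,1,[(5,6)])],[]),([(0,5,[(7,8)])],[4,4])],[6,3,2],false,3,2,[5,6]),
    (true,[([(0,6,[(7,10)]),(0,1,[(5,6)])],[]),([(0,0,[(7,8)]),(0,7,[(4,5)])],[])],[6,3,3,2],false,3,2,[]),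
    (true,[([(0,6,[(7,10)]),(0,1,[(5,6)])],[]),([(0,5,[(7,8)])],[4,4]),([(0,1,[(6,6)])],[3,1,1])],[],false,1,0,[]),
    (true,[([(0,6,[(7,10)]),(0,0,[(7,8)])],[]),([(0,0,[(7,8)])],[])],[6,5,3,3],false,3,3,[4]),
    (true,[([(0,6,[(7,10)])],[4,1]),([(0,5,[(7,8)]),(0,0,[(7,8)])],[]),([(0,9,[(4,4)])],[2])],[6],false,1,0,[]),
    (false,[([(0,6,[(7,10)]),(0,6,[(9,10)])],[4,2,2])],[10,4,1],true,3,3,[6,8]),
    (true,[([(0,6,[(7,10)]),(0,1,[(4,6)])],[]),([(0,6,[(9,10)])],[4,1])],[6,3,3],false,2,4,[3,4,5]),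
    (true,[([(0,6,[(7,10)]),(0,1,[(4,6)])],[]),([(0,21,[(9,10),(3,3)])],[1,1])],[6,3,3],false,2,2,[3]),
    (false,[([(0,6,[(7,10)]),(0,21,[(9,10),(3,3)]),(0,3,[(3,3)])],[2]),([(0,1,[(4,6)])],[2,2,1,1,1,1,1])],[],false,1,0,[]),
    (false,[([(0,6,[(7,10)]),(0,6,[(9,10)]),(0,9,[(4,4)])],[4]),([(0,1,[(4,6)])],[2,2,1,1,1,1,1])],[],false,1,0,[2]),
    (true,[([(0,6,[(7,10)])],[4,1]),([(0,8,[(9,10)])],[1,1]),([(0,1,[(4,6)]),(0,1,[(4,4),(2,2)])],[3])],[],false,1,0,[]),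
    (true,[([(0,6,[(7,10)]),(0,1,[(4,6)])],[]),([(0,6,[(9,10)])],[4,1]),([(0,7,[(5,5)])],[3,3,1])],[],false,1,0,[]),
    (false,[([(0,6,[(7,10)]),(0,34,[(9,10),(7,8)])],[5])],[10],false,1,0,[2]),
    (true,[([(0,6,[(7,10)]),(0,3,[(2,2)])],[4]),([(0,8,[(9,10)])],[]),([(0,0,[(7,8)])],[3,2,2])],[],false,1,0,[]),
    (true,[([(0,4,[(11,15)])],[1])],[7,6,5,3,3,3],false,4,5,[6,8,11,12]),
    (false,[([(0,4,[(11,15)]),(0,1,[(5,6)])],[4,2,2])],[10,4],false,1,0,[2,4,6]),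
    (true,[([(0,4,[(11,15)]),(0,3,[(2,2)])],[]),([(0,1,[(5,6)])],[3,3,1])],[6,3,3],false,2,6,[]),
    (false,[([(0,4,[(11,15)]),(0,6,[(5,6),(3,4)])],[2,2])],[10,4],true,2,5,[3,4]),
    (false,[([(0,4,[(11,15)]),(0,6,[(5,6),(3,4)])],[2,2]),([(0,3,[(3,3)])],[2,2,2,1,1,1,1,1])],[],false,1,0,[2,3]),
    (false,[([(0,4,[(11,15)]),(0,6,[(5,6),(3,4)])],[2,2]),([(0,3,[(3,3)]),(0,3,[(2,2)])],[2,2,1,1,1,1])],[],false,1,0,[2]),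
    (false,[([(0,4,[(11,15)]),(0,6,[(5,6),(3,4)])],[2,2]),([(0,3,[(3,3)]),(0,3,[(2,2)]),(0,3,[(2,2)])],[2,1,1,1])],[],false,1,0,[2]),
    (false,[([(0,4,[(11,15)]),(0,6,[(5,6),(3,4)])],[2,2]),([(0,3,[(3,3)]),(0,3,[(2,2)]),(0,3,[(2,2)]),(0,3,[(2,2)])],[1,1])],[],false,1,0,[]),
    (false,[([(0,4,[(11,15)]),(0,6,[(5,6),(3,4)])],[2,2]),([(0,3,[(3,3)]),(0,3,[(3,3)])],[2,2,1,1,1,1])],[],false,1,0,[2]),
    (false,[([(0,4,[(11,15)]),(0,6,[(5,6),(3,4)])],[2,2]),([(0,3,[(3,3)]),(0,3,[(3,3)]),(0,3,[(2,2)])],[2,1,1,1])],[],false,1,0,[]),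
    (false,[([(0,4,[(11,15)]),(0,6,[(5,6),(3,4)]),(0,9,[(4,4)])],[])],[10,4],false,2,2,[3]),
    (false,[([(0,4,[(11,15)]),(0,6,[(5,6),(3,4)]),(0,9,[(4,4)])],[]),([(0,3,[(3,3)])],[2,2,2,1,1,1,1,1])],[],false,1,0,[]),
    (true,[([(0,4,[(11,15)])],[1]),([(0,1,[(5,6)]),(0,1,[(5,6)])],[3])],[6,3,3],false,2,3,[3,4]),
    (true,[([(0,4,[(11,15)])],[1]),([(0,1,[(5,6)]),(0,1,[(5,6)])],[3]),([(0,3,[(3,3)])],[2,2,1,1])],[3],false,1,0,[2]),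
    (true,[([(0,4,[(11,15)])],[1]),([(0,1,[(5,6)]),(0,1,[(5,6)])],[3]),([(0,7,[(3,3),(2,2)])],[3,3,1])],[],false,1,0,[]),
    (true,[([(0,4,[(11,15)])],[1]),([(0,1,[(5,6)]),(0,1,[(5,6)])],[3]),([(0,9,[(4,4)])],[2])],[6],false,1,0,[]),
    (true,[([(0,4,[(11,15)])],[4]),([(0,0,[(7,8)])],[])],[7,6,3],false,3,3,[6]),
    (true,[([(0,4,[(11,15)])],[]),([(0,0,[(7,8)]),(0,1,[(4,6)])],[2])],[6,3,3],false,2,2,[3]),
    (true,[([(0,4,[(11,15)])],[]),([(0,0,[(7,8)]),(0,1,[(4,6)])],[2]),([(0,3,[(3,3)])],[2,2,1,1])],[3],false,1,0,[]),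
    (true,[([(0,4,[(11,15)])],[5]),([(0,8,[(9,11)])],[1,1])],[7,3],false,2,3,[3,4]),
    (true,[([(0,4,[(11,15)])],[4]),([(0,12,[(9,11),(3,3)])],[5,2])],[3],false,1,0,[2]),
    (true,[([(0,4,[(11,15)])],[5]),([(0,8,[(9,11)])],[1,1]),([(0,3,[(3,3)]),(0,3,[(2,2)])],[2,1,1])],[],false,1,0,[]),
    (true,[([(0,4,[(11,15)])],[5]),([(0,8,[(9,11)]),(0,9,[(4,4)])],[2])],[3,3],false,1,0,[]),
    (false,[([(0,29,[(11,15),(12,12)])],[6,4,3,3])],[],false,1,0,[]),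
    (true,[([(0,2,[(16,21)])],[])],[7,6,3,3,3],false,3,6,[5,6,7]),
    (true,[([(0,2,[(16,21)])],[]),([(0,7,[(4,5)])],[3,3,1])],[7,3],false,2,3,[3,4]),
    (true,[([(0,2,[(16,21)])],[3]),([(0,5,[(4,5),(3,3)])],[4,4])],[3],false,1,0,[2]),
    (true,[([(0,2,[(16,21)])],[]),([(0,7,[(4,5)]),(0,7,[(3,3),(2,2)])],[3])],[6,3],false,1,0,[]),
    (true,[([(0,2,[(16,21)])],[6]),([(0,7,[(4,5)]),(0,9,[(4,4)])],[1])],[3,3],false,1,0,[]),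
    (true,[([(0,2,[(16,21)])],[]),([(0,1,[(6,6)])],[3,3,2,2])],[3,3],false,1,0,[2]),
    (true,[([(0,2,[(16,21)])],[3]),([(0,5,[(6,6),(2,2)])],[4,4])],[3],false,1,0,[]),
    (false,[([(0,10,[(16,21),(7,7)])],[6,3,3,3])],[],false,1,0,[]),
    (false,[([(0,16,[(22,22)])],[5,3,3,3,3])],[4],false,1,0,[])]),
  ([11,10,9,6,3,2,1], [
    (false,[],[11,10,9,6,3,2,1],false,5,6,[8,11,15,21,22]),
    (false,[([(0,5,[(6,8)])],[3,1])],[11,10,9],false,1,0,[3,4,6,8]),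
    (false,[([(0,5,[(6,8)]),(0,3,[(2,3)])],[3,2,2])],[11,10,3],false,1,0,[2,3]),
    (true,[([(0,6,[(6,8),(2,2)]),(0,3,[(2,3)])],[])],[7,5,4,4,3,3,3],false,2,14,[]),
    (true,[([(0,5,[(6,8)]),(0,1,[(2,3),(3,3)])],[])],[6,5,4,4,3,3,3],false,3,9,[]),
    (true,[([(0,22,[(6,8),(4,4)])],[4])],[7,5,4,4,3,3],false,4,5,[]),
    (true,[([(0,5,[(6,8)]),(0,1,[(5,6)])],[])],[6,5,4,4,3,3,3],false,4,5,[5,6]),
    (true,[([(0,5,[(6,8)]),(0,1,[(5,6)])],[]),([(0,1,[(5,5)])],[3,3])],[6,4,3,3],false,3,4,[4,5]),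
    (true,[([(0,22,[(6,8),(4,4)])],[4]),([(0,1,[(5,6)]),(0,7,[(5,5)])],[3])],[5,4,3],false,3,3,[4]),
    (true,[([(0,2,[(6,8),(5,5),(4,4),(4,4)])],[]),([(0,1,[(5,6)])],[3,3,1,1])],[4,3],false,2,2,[3]),
    (true,[([(0,2,[(6,8),(5,5),(4,4),(4,4)])],[]),([(0,1,[(5,6)])],[3,3,1,1]),([(0,3,[(3,3)])],[2,2])],[],false,1,0,[]),
    (true,[([(0,5,[(6,8)]),(0,1,[(5,6)])],[]),([(0,6,[(5,5),(5,5)])],[4,4])],[4,3,3],false,2,4,[3,5]),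
    (true,[([(0,2,[(6,8),(5,5),(5,5),(3,3)])],[]),([(0,1,[(5,6)])],[3,3,1,1])],[4,3],false,2,2,[3]),
    (true,[([(0,2,[(6,8),(5,5),(5,5),(3,3)])],[]),([(0,1,[(5,6)])],[3,3,1,1]),([(0,3,[(3,3)])],[2,2])],[],false,1,0,[]),
    (true,[([(0,5,[(6,8)])],[3,3]),([(0,1,[(5,6)]),(0,7,[(4,5)])],[3]),([(0,6,[(5,5),(5,5)])],[4])],[],false,1,0,[2]),
    (true,[([(0,4,[(6,8),(5,5),(2,2)])],[]),([(0,1,[(5,6)]),(0,7,[(5,5)])],[3]),([(0,7,[(4,5)])],[3,3,2])],[],false,1,0,[]),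
    (true,[([(0,4,[(6,8),(6,6)])],[]),([(0,1,[(5,6)])],[3,3,1])],[7,4,3],false,3,3,[5,6]),
    (true,[([(0,4,[(6,8),(6,6)])],[]),([(0,1,[(5,6)]),(0,7,[(4,5)])],[3])],[6,4,3],false,3,3,[4,5]),
    (true,[([(0,4,[(6,8),(6,6)])],[5]),([(0,6,[(5,6),(4,4)]),(0,7,[(4,5)])],[])],[4,3],false,2,1,[]),
    (true,[([(0,4,[(6,8),(6,6)])],[]),([(0,1,[(5,6)]),(0,7,[(4,5)])],[3]),([(0,7,[(5,5)])],[3,3,2])],[],false,1,0,[]),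
    (true,[([(0,2,[(6,8),(6,6),(6,6)])],[]),([(0,1,[(5,6)])],[3,3,1,1])],[4,3],false,2,2,[3]),
    (true,[([(0,2,[(6,8),(6,6),(6,6)])],[]),([(0,1,[(5,6)])],[3,3,1,1]),([(0,3,[(3,3)])],[2,2])],[],false,1,0,[]),
    (true,[([(0,5,[(6,8)])],[3]),([(0,0,[(7,8)])],[3])],[7,6,4,3],false,4,3,[6,8]),
    (true,[([(0,5,[(6,8)]),(0,1,[(5,6)])],[]),([(0,5,[(7,8)])],[4,4])],[5,4,3],false,3,3,[6]),
    (true,[([(0,5,[(6,8)]),(0,0,[(7,8)])],[]),([(0,1,[(5,6)]),(0,1,[(4,6)])],[])],[4,4,3,3],false,2,3,[4]),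
    (true,[([(0,5,[(6,8)])],[4,3]),([(0,0,[(7,8)])],[3]),([(0,6,[(5,6),(3,4)]),(0,1,[(4,6)])],[])],[],false,1,0,[2]),
    (false,[([(0,6,[(6,8),(2,2)]),(0,0,[(7,8)]),(0,6,[(5,6),(3,4)])],[]),([(0,1,[(4,6)])],[2,1,1,1,1,1,1])],[],false,1,0,[]),
    (true,[([(0,5,[(6,8)]),(0,0,[(7,8)])],[]),([(0,0,[(7,8)])],[3])],[6,4,3,2],false,4,2,[5]),
    (true,[([(0,2,[(6,8),(7,8),(5,5)])],[]),([(0,5,[(7,8)])],[4,4,1])],[4],false,1,0,[]),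
    (true,[([(0,8,[(9,11)])],[])],[7,6,5,4,4,3,2],false,6,2,[10,11]),
    (false,[([(0,8,[(9,11)]),(0,6,[(7,10)])],[3,2,2])],[10,3,1],true,3,3,[6,8]),
    (true,[([(0,8,[(9,11)]),(0,1,[(4,6)])],[]),([(0,6,[(7,10)])],[4,1])],[4,3,3],false,2,4,[3,5]),
    (false,[([(0,8,[(9,11)]),(0,6,[(7,10)])],[3,2,2]),([(0,1,[(4,6)]),(0,3,[(3,3)])],[1,1,1,1,1])],[],false,1,0,[3]),
    (true,[([(0,8,[(9,11)])],[]),([(0,6,[(7,10)])],[4,4]),([(0,1,[(4,6)]),(0,1,[(3,3),(2,3)])],[1])],[],false,1,0,[2]),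
    (true,[([(0,8,[(9,11)]),(0,3,[(2,3)])],[]),([(0,6,[(7,10)])],[4]),([(0,1,[(4,6)]),(0,7,[(3,3),(2,2)])],[3])],[],false,1,0,[]),
    (true,[([(0,8,[(9,11)])],[]),([(0,6,[(7,10)])],[4,3]),([(0,1,[(4,6)]),(0,7,[(4,5)])],[3])],[],false,1,0,[2]),
    (true,[([(0,8,[(9,11)]),(0,3,[(2,2)])],[]),([(0,6,[(7,10)])],[4]),([(0,1,[(4,6)]),(0,7,[(4,5)])],[3])],[],false,1,0,[]),
    (false,[([(0,14,[(9,11),(7,8)]),(0,6,[(7,10)])],[3])],[10],false,1,0,[2]),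
    (true,[([(0,8,[(9,11)]),(0,3,[(2,2)])],[]),([(0,6,[(7,10)])],[4]),([(0,0,[(7,8)])],[3,1,1,1])],[],false,1,0,[]),
    (true,[([(0,16,[(9,11),(11,11)])],[])],[7,4,3,3,3],false,3,3,[4]),
    (false,[([(0,29,[(9,11),(11,11),(4,4)])],[4,4,4,3])],[],false,1,0,[]),
    (true,[([(0,4,[(12,15)])],[])],[7,6,4,4,3,3],false,4,6,[6,10,11]),
    (true,[([(0,2,[(12,15),(5,6)])],[])],[7,4,4,3,3],false,3,6,[6]),
    (true,[([(0,2,[(12,15),(5,6)])],[]),([(0,1,[(4,6)])],[3,3,1,1])],[4,3],false,2,3,[3,4]),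
    (true,[([(0,2,[(12,15),(5,6)])],[]),([(0,1,[(4,6)])],[3,3,1,1]),([(0,3,[(3,3)])],[2,2])],[],false,1,0,[2]),
    (true,[([(0,2,[(12,15),(5,6)])],[]),([(0,1,[(4,6)]),(0,7,[(3,3),(2,2)])],[3])],[4,3],false,1,0,[]),
    (true,[([(0,2,[(12,15),(5,6)])],[]),([(0,1,[(4,6)])],[3,3,1,1]),([(0,9,[(4,4)])],[2,1])],[],false,1,0,[]),
    (false,[([(0,4,[(12,15)]),(0,6,[(7,10)])],[3,2])],[10,2],true,2,4,[3,5]),
    (false,[([(0,4,[(12,15)]),(0,6,[(7,10)])],[3,2]),([(0,3,[(3,3)])],[2,1,1,1,1,1,1,1])],[],false,1,0,[3]),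
    (false,[([(0,4,[(12,15)]),(0,6,[(7,10)])],[3,2]),([(0,3,[(3,3)]),(0,3,[(2,3)])],[1,1,1,1,1,1])],[],false,1,0,[2]),
    (true,[([(0,4,[(12,15)])],[5]),([(0,6,[(7,10)]),(0,7,[(3,3),(2,2)])],[]),([(0,3,[(2,3)])],[2,2])],[],false,1,0,[]),
    (true,[([(0,4,[(12,15)])],[5]),([(0,6,[(7,10)]),(0,7,[(4,5)])],[])],[4,3],false,2,1,[]),
    (false,[([(0,26,[(12,15),(11,11)])],[4,4,3,3,1])],[1],false,1,0,[]),
    (true,[([(0,2,[(16,21)])],[])],[7,4,4,3,3],false,3,6,[6,7]),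
    (true,[([(0,2,[(16,21)])],[]),([(0,1,[(4,6)])],[3,3,1,1])],[4,3],false,2,3,[3,4]),
    (true,[([(0,2,[(16,21)])],[]),([(0,1,[(4,6)])],[3,3,1,1]),([(0,3,[(3,3)])],[2,2])],[],false,1,0,[2]),
    (true,[([(0,2,[(16,21)])],[]),([(0,1,[(4,6)]),(0,7,[(3,3),(2,2)])],[3])],[4,3],false,1,0,[]),
    (true,[([(0,2,[(16,21)])],[]),([(0,1,[(4,6)])],[3,3,1,1]),([(0,9,[(4,4)])],[2,1])],[],false,1,0,[]),
    (false,[([(0,10,[(16,21),(7,7)])],[4,4,3,3])],[],false,1,0,[]),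
    (false,[([(0,16,[(22,22)])],[4,4,3,3,3])],[3],false,1,0,[])]),
  ([11,10,9,8,3,2,1], [
    (false,[],[11,10,9,8,3,2,1],false,5,6,[6,8,11,14,17,22]),
    (false,[([(0,1,[(6,6)])],[])],[11,10,9,8],false,4,8,[6]),
    (true,[([(0,1,[(6,6)]),(0,1,[(5,6)])],[])],[7,5,4,4,4,4,3,1],false,4,4,[6]),
    (false,[([(0,1,[(6,6)]),(0,1,[(5,6)]),(0,1,[(5,6)])],[2,2])],[10,9,2,1],true,3,4,[5,6]),
    (true,[([(0,8,[(6,6),(4,5)])],[3]),([(0,1,[(5,6)]),(0,1,[(5,6)])],[])],[7,4,4,3],false,3,3,[5]),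
    (true,[([(0,8,[(6,6),(4,5)]),(0,7,[(4,5)])],[]),([(0,1,[(5,6)]),(0,1,[(5,6)])],[])],[5,4,4,3],false,3,2,[]),
    (true,[([(0,1,[(6,6)]),(0,1,[(5,6)])],[]),([(0,1,[(5,6)]),(0,1,[(6,6)])],[3])],[4,4,4,4,1],true,2,3,[3,4]),
    (true,[([(0,2,[(6,6),(5,6),(5,6),(3,3)])],[]),([(0,28,[(6,6)])],[4,4,4])],[4],false,1,0,[2]),
    (false,[([(0,2,[(6,6),(5,6),(5,6),(3,3)]),(0,0,[(6,6),(2,2)])],[3,3])],[9],false,1,0,[]),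
    (true,[([(0,22,[(6,6),(5,6)])],[4,4]),([(0,1,[(5,6)]),(0,1,[(6,6)])],[]),([(0,9,[(4,4)])],[2,2])],[4],false,1,0,[]),
    (true,[([(0,0,[(7,8)])],[2])],[7,6,5,4,4,4,3,1],false,5,4,[8]),
    (true,[([(0,0,[(7,8)])],[2]),([(0,5,[(6,8)])],[3,3])],[7,5,4,4],false,3,5,[4,5,7,8]),
    (true,[([(0,0,[(7,8)])],[3]),([(0,5,[(6,8)]),(0,1,[(4,4)])],[])],[6,5,4,4],false,3,5,[4]),
    (false,[([(0,0,[(7,8)]),(0,5,[(6,8)]),(0,9,[(4,4)]),(0,9,[(4,4)])],[])],[10,8,2],false,3,2,[4]),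
    (true,[([(0,22,[(7,8),(4,4)])],[4]),([(0,5,[(6,8)])],[4,4,4]),([(0,9,[(4,4)]),(0,9,[(4,4)])],[])],[],false,1,0,[2]),
    (true,[([(0,4,[(7,8),(4,4),(2,2)])],[1]),([(0,5,[(6,8)])],[4,4,4]),([(0,9,[(4,4)]),(0,9,[(4,4)])],[])],[],false,1,0,[]),
    (true,[([(0,0,[(7,8)])],[3]),([(0,5,[(6,8)]),(0,1,[(5,5)])],[])],[6,5,4,4],false,3,5,[5]),
    (true,[([(0,0,[(7,8)]),(0,7,[(5,5)])],[]),([(0,5,[(6,8)]),(0,1,[(4,5)])],[])],[5,4,4,4],false,2,3,[3,4]),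
    (true,[([(0,0,[(7,8)])],[3]),([(0,5,[(6,8)])],[4,4,4]),([(0,6,[(5,5),(4,5)]),(0,3,[(3,3)])],[])],[],false,1,0,[2]),
    (true,[([(0,8,[(7,8),(3,3)]),(0,7,[(4,5)])],[]),([(0,4,[(6,8),(5,5),(2,2)])],[5])],[4,4],false,1,0,[]),
    (true,[([(0,2,[(7,8),(6,8),(5,5)])],[]),([(0,7,[(4,5)])],[3,3,3,1]),([(0,9,[(4,4)])],[2,2])],[],false,1,0,[]),
    (false,[([(0,0,[(7,8)]),(0,4,[(6,8),(6,7)])],[3,3,3])],[9,3],true,2,5,[3,4,5,6]),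
    (false,[([(0,8,[(7,8),(3,3)]),(0,4,[(6,8),(6,7)])],[3,3])],[10,2],true,2,3,[3]),
    (false,[([(0,8,[(7,8),(3,3)]),(0,4,[(6,8),(6,7)])],[3,3]),([(0,3,[(3,3)])],[2,1,1,1,1,1,1,1])],[],false,1,0,[2]),
    (true,[([(0,8,[(7,8),(3,3)]),(0,7,[(3,3),(2,2)])],[]),([(0,4,[(6,8),(6,7)])],[5])],[4,4],false,1,0,[]),
    (true,[([(0,4,[(7,8),(6,7)])],[1]),([(0,5,[(6,8)])],[4,4,4]),([(0,9,[(4,4)])],[2,2])],[],false,1,0,[2,3]),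
    (true,[([(0,0,[(7,8)]),(0,6,[(6,8),(2,2)])],[]),([(0,8,[(6,7),(4,4)])],[4])],[4,4,3],false,2,1,[]),
    (false,[([(0,8,[(7,8),(3,3)]),(0,4,[(6,8),(6,7)])],[3,3]),([(0,9,[(4,4)])],[1,1,1,1,1,1,1,1])],[],false,1,0,[]),
    (true,[([(0,2,[(7,8),(6,8),(5,5)])],[]),([(0,28,[(6,7)])],[4,4,4])],[4],false,1,0,[2]),
    (true,[([(0,0,[(7,8)]),(0,7,[(5,5)])],[]),([(0,6,[(6,8),(2,2)])],[2]),([(0,28,[(6,7)])],[4,4,4])],[],false,1,0,[]),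
    (false,[([(0,0,[(7,8)]),(0,2,[(6,8),(6,7),(6,6)])],[3,3])],[9],false,1,0,[]),
    (true,[([(0,0,[(7,8)]),(0,5,[(6,8)])],[]),([(0,0,[(8,8)])],[2])],[6,4,4,4],false,2,3,[3,4]),
    (true,[([(0,11,[(7,8),(8,8)])],[1]),([(0,5,[(6,8)])],[4,4,4]),([(0,3,[(3,3)])],[2,1])],[],false,1,0,[2]),
    (true,[([(0,11,[(7,8),(8,8)])],[1]),([(0,5,[(6,8)])],[4,4,4]),([(0,3,[(3,3)]),(0,3,[(2,2)])],[])],[],false,1,0,[]),
    (false,[([(0,10,[(7,8),(6,8),(8,8),(4,4)])],[4,4,4,4])],[],false,1,0,[]),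
    (true,[([(0,8,[(9,11)])],[3])],[7,6,4,4,4,3,2],false,4,5,[6,9,11]),
    (true,[([(0,8,[(9,11)]),(0,1,[(5,6)])],[])],[6,4,4,4,4,3,2],false,3,5,[6]),
    (true,[([(0,8,[(9,11)])],[3]),([(0,1,[(5,6)]),(0,1,[(4,6)])],[])],[7,4,4,3],false,3,3,[6]),
    (true,[([(0,8,[(9,11)]),(0,1,[(5,6)])],[]),([(0,1,[(4,6)]),(0,1,[(4,6)])],[])],[4,4,4,3],false,2,3,[3,4]),
    (true,[([(0,8,[(9,11)]),(0,1,[(5,6)])],[]),([(0,1,[(4,6)]),(0,1,[(4,6)])],[]),([(0,3,[(3,3)])],[2,2])],[4,4],false,1,0,[2]),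
    (true,[([(0,8,[(9,11)]),(0,7,[(3,3),(2,2)])],[]),([(0,1,[(5,6)]),(0,1,[(4,6)])],[]),([(0,1,[(4,6)])],[3,3])],[4],false,1,0,[]),
    (true,[([(0,8,[(9,11)]),(0,1,[(5,6)])],[]),([(0,1,[(4,6)]),(0,1,[(4,6)])],[]),([(0,9,[(4,4)])],[2,1])],[4,4],false,1,0,[]),
    (false,[([(0,8,[(9,11)]),(0,6,[(7,9)])],[3,3,3])],[10,3,1],true,3,3,[4,6,8]),
    (true,[([(0,8,[(9,11)]),(0,7,[(4,4)])],[]),([(0,6,[(7,9)])],[4])],[6,4,4],false,2,4,[3,4]),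
    (true,[([(0,12,[(9,11),(3,3)])],[4,4]),([(0,6,[(7,9)])],[4]),([(0,9,[(4,4)])],[2,2])],[],false,1,0,[3]),
    (true,[([(0,8,[(9,11)]),(0,1,[(3,3),(2,3)])],[]),([(0,6,[(7,9)])],[4,1]),([(0,9,[(4,4)])],[2,2])],[4],false,1,0,[2]),
    (false,[([(0,8,[(9,11)]),(0,4,[(7,9),(4,4),(2,2)])],[3,3]),([(0,3,[(3,3)]),(0,3,[(2,3)])],[1,1,1,1,1,1])],[],false,1,0,[]),
    (false,[([(0,8,[(9,11)]),(0,6,[(7,9)])],[3,3,3]),([(0,9,[(4,4)]),(0,7,[(4,4)])],[1,1,1,1,1])],[],false,1,0,[2]),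
    (false,[([(0,8,[(9,11)]),(0,4,[(7,9),(4,4),(2,2)])],[3,3]),([(0,9,[(4,4)])],[1,1,1,1,1,1,1,1])],[],false,1,0,[]),
    (false,[([(0,8,[(9,11)]),(0,4,[(7,9),(5,6)])],[3,3])],[10,2],true,2,3,[3,4]),
    (false,[([(0,8,[(9,11)]),(0,4,[(7,9),(5,6)])],[3,3]),([(0,3,[(3,3)])],[2,1,1,1,1,1,1,1])],[],false,1,0,[2]),
    (true,[([(0,8,[(9,11)]),(0,7,[(3,3),(2,2)])],[]),([(0,4,[(7,9),(5,6)])],[5])],[4,4],false,1,0,[]),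
    (false,[([(0,8,[(9,11)]),(0,4,[(7,9),(5,6)])],[3,3]),([(0,9,[(4,4)])],[1,1,1,1,1,1,1,1])],[],false,1,0,[]),
    (true,[([(0,8,[(9,11)])],[4]),([(0,6,[(7,9)]),(0,0,[(7,8)])],[])],[4,4,3],false,2,1,[]),
    (true,[([(0,16,[(9,11),(10,11)])],[])],[7,4,4,4,3],false,3,3,[5]),
    (true,[([(0,16,[(9,11),(10,11)])],[]),([(0,7,[(4,5)])],[3,3,3,1])],[4,3],false,2,1,[]),
    (true,[([(0,12,[(12,14)])],[4,4])],[5,4,4,4,3,2],false,3,5,[5,7,9,11]),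
    (false,[([(0,12,[(12,14)]),(0,7,[(4,5)])],[2,2,2])],[10,9],false,2,7,[3,4,5]),
    (true,[([(0,11,[(12,14),(3,3)])],[]),([(0,7,[(4,5)])],[3,3,3])],[7,4,2],false,3,2,[]),
    (true,[([(0,14,[(12,14),(4,5)])],[4]),([(0,9,[(4,4)])],[2,2])],[5,4,4],false,2,4,[3,4]),
    (true,[([(0,11,[(12,14),(3,3)])],[]),([(0,7,[(4,5)]),(0,9,[(4,4)])],[3])],[7,4,4],false,2,2,[3]),
    (true,[([(0,2,[(12,14),(3,3),(3,3)])],[]),([(0,7,[(4,5)])],[3,3,3,1]),([(0,9,[(4,4)])],[2,2])],[],false,1,0,[]),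
    (true,[([(0,14,[(12,14),(4,5)])],[4]),([(0,9,[(4,4)]),(0,9,[(4,4)])],[])],[5,4,4],false,2,1,[]),
    (true,[([(0,15,[(12,14),(5,5)])],[1]),([(0,7,[(4,5)])],[3,3,3,1])],[4,4,1],true,2,3,[3,4]),
    (true,[([(0,16,[(12,14),(5,5),(3,3)])],[]),([(0,7,[(4,5)])],[3,3,3,1])],[4,3],false,2,1,[]),
    (false,[([(0,10,[(12,14),(4,5),(5,5),(4,4)])],[4,4,4,4])],[],false,1,0,[]),
    (true,[([(0,2,[(12,14),(6,7)])],[])],[7,4,4,4,4],false,2,5,[3,4,5,6]),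
    (true,[([(0,11,[(12,14),(3,3)])],[]),([(0,28,[(6,7)])],[4,3,3])],[6,4],false,2,3,[3]),
    (true,[([(0,2,[(12,14),(6,7)])],[]),([(0,3,[(3,3)]),(0,3,[(3,3)])],[2,2,1])],[4,4,4],false,1,0,[2]),
    (true,[([(0,2,[(12,14),(6,7)])],[]),([(0,3,[(3,3)]),(0,3,[(3,3)]),(0,3,[(2,2)])],[2])],[4,4,4],false,1,0,[]),
    (true,[([(0,2,[(12,14),(6,7)])],[]),([(0,9,[(4,4)])],[2,2])],[7,4,4],false,2,2,[3]),
    (false,[([(0,10,[(12,14),(6,7),(4,4),(3,3)])],[4,4,4,4])],[],false,1,0,[]),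
    (true,[([(0,15,[(12,14),(5,5)])],[1]),([(0,28,[(6,7)])],[4,4,4])],[4,1],false,2,1,[]),
    (false,[([(0,10,[(12,14),(6,7),(6,6)])],[4,4,4,4])],[],false,1,0,[]),
    (true,[([(0,12,[(12,14)])],[4,4]),([(0,6,[(8,9)])],[4])],[4,4],false,1,0,[2,3,4]),
    (true,[([(0,12,[(12,14)])],[4,4]),([(0,8,[(8,9),(2,2)])],[4])],[4,3],false,2,2,[]),
    (true,[([(0,11,[(12,14),(3,3)])],[]),([(0,6,[(8,9)])],[4,3,2])],[4,4],false,1,0,[2]),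
    (false,[([(0,10,[(12,14),(8,9),(3,3),(2,2)])],[4,4,4,4])],[],false,1,0,[]),
    (false,[([(0,10,[(12,14),(8,9),(4,4)])],[4,4,4,4])],[],false,1,0,[]),
    (true,[([(0,12,[(12,14)])],[4,4]),([(0,8,[(10,11)])],[4])],[4,3],false,2,1,[]),
    (true,[([(0,11,[(15,17)])],[])],[7,6,4,4,4,2],false,4,2,[6,8]),
    (false,[([(0,11,[(15,17)]),(0,1,[(5,6)])],[3,3,3])],[10,2],true,2,3,[4]),
    (true,[([(0,11,[(15,17)])],[]),([(0,6,[(5,6),(3,4)])],[4,3,2])],[4,4],false,1,0,[2]),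
    (true,[([(0,11,[(15,17)])],[]),([(0,1,[(5,6)]),(0,1,[(3,4),(2,2)])],[])],[7,4,4],false,1,0,[]),
    (true,[([(0,11,[(15,17)])],[1]),([(0,5,[(7,8)])],[4,4,4])],[4,2],false,2,1,[]),
    (true,[([(0,16,[(18,22)])],[])],[7,4,4,4,3],false,3,3,[5]),
    (true,[([(0,16,[(18,22)])],[]),([(0,7,[(4,5)])],[3,3,3,1])],[4,3],false,2,1,[])]),
  ([11,10,9,8,4,2,1], [
    (false,[],[11,10,9,8,4,2,1],false,5,7,[6,10,14,17,22]),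
    (true,[([(0,1,[(6,6)])],[2,2])],[7,6,5,4,4,4,3,2],false,5,5,[6]),
    (true,[([(0,1,[(6,6)]),(0,1,[(6,6)])],[])],[7,5,5,4,4,4,3,1],true,5,2,[6]),
    (true,[([(0,1,[(6,6)]),(0,1,[(6,6)])],[]),([(0,1,[(6,6)])],[2,2])],[7,5,4,4,3],false,4,3,[6]),
    (true,[([(0,1,[(6,6)]),(0,1,[(6,6)])],[]),([(0,1,[(6,6)]),(0,1,[(5,6)])],[3])],[5,4,4,4,1],false,3,1,[]),
    (true,[([(0,6,[(7,10)])],[2])],[7,6,5,4,4,4,3],false,5,3,[6,8,10]),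
    (true,[([(0,6,[(7,10)]),(0,1,[(6,6)])],[])],[6,5,4,4,4,4,2],false,3,6,[5,6]),
    (false,[([(0,6,[(7,10)]),(0,8,[(6,6),(4,5)])],[3,3,3])],[10,4,1],true,3,3,[5]),
    (true,[([(0,6,[(7,10)]),(0,7,[(4,5)])],[]),([(0,8,[(6,6),(4,5)])],[4])],[6,5,4],false,3,4,[4,5]),
    (false,[([(0,6,[(7,10)]),(0,8,[(6,6),(4,5)])],[3,3,3]),([(0,7,[(4,5)]),(0,9,[(4,4)])],[2,1,1,1,1])],[],false,1,0,[2]),
    (true,[([(0,6,[(7,10)]),(0,7,[(4,5)])],[]),([(0,8,[(6,6),(4,5)])],[4]),([(0,1,[(4,4),(2,2)])],[3,3,3])],[],false,1,0,[]),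
    (true,[([(0,4,[(7,10),(5,5)])],[5]),([(0,8,[(6,6),(4,5)]),(0,7,[(4,5)])],[])],[5,4],false,1,0,[]),
    (false,[([(0,6,[(7,10)]),(0,1,[(6,6)]),(0,1,[(6,6)])],[2])],[10,9,2],false,3,2,[4,6]),
    (false,[([(0,6,[(7,10)]),(0,22,[(6,6),(6,6)]),(0,9,[(4,4)])],[])],[10,9],false,2,2,[3]),
    (true,[([(0,6,[(7,10)])],[2]),([(0,4,[(6,6),(6,6),(3,3)])],[5,5]),([(0,9,[(4,4)])],[2,2])],[],false,1,0,[]),
    (true,[([(0,6,[(7,10)]),(0,1,[(6,6)])],[]),([(0,1,[(6,6)]),(0,1,[(5,6)])],[])],[5,4,4,4],false,2,1,[]),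
    (true,[([(0,6,[(7,10)])],[2]),([(0,0,[(7,8)])],[3])],[7,6,5,4],false,4,4,[6,8]),
    (true,[([(0,6,[(7,10)]),(0,0,[(7,8)])],[]),([(0,1,[(5,6)])],[3,2])],[5,4,4,3],false,3,3,[4,6]),
    (true,[([(0,6,[(7,10)]),(0,0,[(7,8)])],[]),([(0,6,[(5,6),(4,4)])],[4])],[5,4,4],false,2,2,[3]),
    (true,[([(0,6,[(7,10)])],[2]),([(0,12,[(7,8),(5,6)])],[5,5]),([(0,9,[(4,4)]),(0,3,[(3,3)])],[2])],[],false,1,0,[]),
    (true,[([(0,6,[(7,10)])],[3]),([(0,5,[(7,8)])],[4,4,4]),([(0,1,[(5,6)]),(0,1,[(5,6)])],[])],[],false,1,0,[2]),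
    (false,[([(0,6,[(7,10)]),(0,0,[(7,8)]),(0,3,[(2,2)])],[2]),([(0,1,[(5,6)]),(0,1,[(5,6)])],[2,2,2,2,2])],[],false,1,0,[]),
    (true,[([(0,6,[(7,10)]),(0,0,[(7,8)])],[]),([(0,0,[(7,8)])],[2])],[5,5,4,3],false,3,3,[4]),
    (true,[([(0,6,[(7,10)])],[4,3]),([(0,5,[(7,8)]),(0,0,[(7,8)])],[]),([(0,9,[(4,4)])],[2,2])],[4],false,1,0,[]),
    (false,[([(0,6,[(7,10)]),(0,8,[(9,10)])],[3,3,3])],[10,4,1],true,3,3,[4,6,8]),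
    (false,[([(0,6,[(7,10)]),(0,6,[(9,10)]),(0,9,[(4,4)])],[])],[11,9,1],true,3,2,[4]),
    (true,[([(0,6,[(7,10)])],[2]),([(0,12,[(9,10),(4,4)])],[5,5]),([(0,9,[(4,4)])],[2,2,1])],[],false,1,0,[2]),
    (true,[([(0,6,[(7,10)])],[2]),([(0,12,[(9,10),(4,4)])],[5,5]),([(0,9,[(4,4)]),(0,3,[(2,2)])],[2])],[],false,1,0,[]),
    (true,[([(0,6,[(7,10)]),(0,1,[(5,6)])],[]),([(0,8,[(9,10)])],[4])],[6,4,4],false,2,3,[3,4]),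
    (true,[([(0,6,[(7,10)])],[3]),([(0,21,[(9,10),(3,3)]),(0,1,[(5,6)])],[])],[5,4,4],false,2,1,[]),
    (false,[([(0,6,[(7,10)]),(0,6,[(9,10)]),(0,9,[(4,4)])],[]),([(0,1,[(5,6)])],[2,2,2,2,2,2,2,1])],[],false,1,0,[]),
    (true,[([(0,6,[(7,10)]),(0,0,[(7,8)])],[]),([(0,6,[(9,10)])],[4])],[5,4,4],false,2,1,[]),
    (true,[([(0,4,[(11,14)])],[])],[7,6,5,4,4,4],false,4,5,[5,7,8,11,12]),
    (true,[([(0,4,[(11,14)])],[]),([(0,7,[(5,5)])],[3,3,3])],[7,5,4],false,3,4,[4,5]),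
    (true,[([(0,12,[(11,14)])],[5,4]),([(0,1,[(5,5)]),(0,9,[(4,4)])],[])],[5,4,3],false,3,3,[4]),
    (true,[([(0,14,[(11,14),(5,5)])],[4]),([(0,9,[(4,4)]),(0,9,[(4,4)])],[])],[5,5,4],false,2,1,[]),
    (true,[([(0,12,[(11,14)])],[4,4]),([(0,6,[(5,5),(5,5)])],[4])],[5,4],false,2,3,[3,4]),
    (true,[([(0,12,[(11,14)])],[4,4]),([(0,6,[(5,5),(5,5)])],[4]),([(0,3,[(3,3)])],[2,2,2])],[],false,1,0,[2]),
    (true,[([(0,2,[(11,14),(5,5),(2,2)])],[]),([(0,5,[(5,5),(3,3)])],[4,4,4])],[4],false,1,0,[]),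
    (false,[([(0,10,[(11,14),(5,5),(5,5),(4,4)])],[5,4,4,4])],[],false,1,0,[]),
    (true,[([(0,2,[(11,14),(6,7)])],[])],[7,5,4,4,4],false,3,5,[4,5,6,7]),
    (true,[([(0,2,[(11,14),(6,7)])],[]),([(0,9,[(4,4)])],[2,2])],[7,5,4],false,3,3,[4]),
    (true,[([(0,2,[(11,14),(6,7)])],[]),([(0,5,[(4,4),(4,4)])],[4,4,4])],[4],false,1,0,[]),
    (true,[([(0,2,[(11,14),(6,7)])],[]),([(0,7,[(5,5)])],[3,3,3,1])],[5,4],false,2,2,[3]),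
    (true,[([(0,2,[(11,14),(6,7)])],[]),([(0,5,[(5,5),(3,3)])],[4,4,4])],[4],false,1,0,[]),
    (true,[([(0,2,[(11,14),(6,7)])],[]),([(0,1,[(6,6)])],[3,3,3,1])],[4,4],false,1,0,[2]),
    (true,[([(0,2,[(11,14),(6,7)])],[]),([(0,5,[(6,6),(2,2)])],[4,4,4])],[4],false,1,0,[]),
    (false,[([(0,10,[(11,14),(6,7),(7,7)])],[5,4,4,4])],[],false,1,0,[]),
    (true,[([(0,16,[(11,14),(8,8)])],[])],[7,5,4,4,3],false,4,3,[5]),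
    (false,[([(0,10,[(11,14),(8,8),(5,5)])],[5,4,4,4])],[],false,1,0,[]),
    (true,[([(0,12,[(11,14)])],[4,3]),([(0,8,[(9,11)])],[4])],[5,4],false,2,3,[3,4]),
    (true,[([(0,12,[(11,14)])],[4,3]),([(0,8,[(9,11)])],[4]),([(0,3,[(3,3)])],[2,2,2])],[],false,1,0,[2]),
    (true,[([(0,4,[(11,14)])],[5]),([(0,8,[(9,11)]),(0,7,[(3,3),(2,2)])],[])],[5,4],false,1,0,[]),
    (true,[([(0,12,[(11,14)])],[4,3]),([(0,8,[(9,11)])],[4]),([(0,9,[(4,4)])],[2,2,1])],[],false,1,0,[]),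
    (false,[([(0,26,[(11,14),(12,12)])],[5,4,4,4,1])],[1],false,1,0,[]),
    (true,[([(0,11,[(15,17)])],[])],[7,6,5,4,4,2],false,5,2,[8]),
    (true,[([(0,11,[(15,17)])],[]),([(0,5,[(6,8)])],[4,3,3])],[6,4],false,2,2,[3]),
    (false,[([(0,10,[(15,17),(6,8),(3,3)])],[5,4,4,4])],[],false,1,0,[]),
    (true,[([(0,16,[(18,22)])],[])],[7,5,4,4,3],false,4,3,[5]),
    (false,[([(0,10,[(18,22),(5,5)])],[5,4,4,4])],[],false,1,0,[])]),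
  ([12,7,6,5,4,3,3,2], [
    (false,[],[12,7,6,5,4,3,3,2],false,6,5,[10,15,21,22]),
    (true,[([(0,6,[(7,10)])],[])],[8,8,7,5,1,1,1,1],false,3,8,[6,10]),
    (true,[([(0,6,[(7,10)]),(0,1,[(4,6)])],[])],[8,8,4,2,1,1,1,1],true,4,4,[6]),
    (true,[([(0,6,[(7,10)]),(0,1,[(4,6)])],[1]),([(0,1,[(5,6)])],[1])],[8,7,1,1,1],false,2,8,[3,5,6]),
    (true,[([(0,6,[(7,10)]),(0,1,[(4,6)])],[]),([(0,1,[(5,6)]),(0,3,[(3,3)])],[2,1,1])],[8,2,1,1,1],true,2,6,[3]),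
    (true,[([(0,6,[(7,10)]),(0,1,[(4,6)])],[]),([(0,1,[(5,6)]),(0,3,[(3,3)]),(0,3,[(3,3)])],[1])],[8,2,1,1,1],false,3,2,[]),
    (true,[([(0,6,[(7,10)]),(0,1,[(4,6)])],[]),([(0,1,[(5,6)]),(0,7,[(4,5)])],[2,1])],[8,1,1,1,1],true,2,5,[3,4,5]),
    (true,[([(0,6,[(7,10)]),(0,1,[(4,6)])],[]),([(0,1,[(5,6)]),(0,5,[(4,5),(3,3)])],[1])],[8,1,1,1],false,2,3,[3]),
    (true,[([(0,6,[(7,10)]),(0,1,[(4,6)])],[]),([(0,22,[(5,6),(3,3),(3,3)])],[2,1,1]),([(0,7,[(4,5)])],[1,1,1,1,1])],[],false,1,0,[2]),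
    (true,[([(0,6,[(7,10)]),(0,1,[(4,6)])],[]),([(0,22,[(5,6),(3,3),(3,3)]),(0,3,[(2,2)])],[1]),([(0,7,[(4,5)])],[1,1,1,1,1])],[],false,1,0,[]),
    (true,[([(0,6,[(7,10)]),(0,1,[(4,6)])],[]),([(0,20,[(5,6),(4,4)]),(0,1,[(4,5)])],[])],[8,1,1],false,2,2,[3]),
    (true,[([(0,6,[(7,10)]),(0,1,[(5,6)])],[]),([(0,6,[(4,6),(4,4)]),(0,3,[(3,3)])],[1,1]),([(0,7,[(4,5)])],[1,1,1,1,1])],[1],false,1,0,[]),
    (true,[([(0,6,[(7,10)]),(0,1,[(4,6)])],[]),([(0,1,[(5,6)]),(0,20,[(4,5),(5,5)])],[])],[8,1,1],false,2,1,[]),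
    (true,[([(0,6,[(7,10)]),(0,1,[(5,6)])],[]),([(0,22,[(4,6),(6,6)])],[2,1,1])],[8,1,1],true,2,3,[4]),
    (true,[([(0,6,[(7,10)]),(0,1,[(4,6)])],[]),([(0,1,[(5,6)]),(0,20,[(6,6),(3,4)])],[])],[8,1,1],false,2,1,[]),
    (false,[([(0,6,[(7,10)]),(0,6,[(7,10)])],[1,1,1,1])],[7,5,3,3],false,3,5,[5,7,8,9,10]),
    (false,[([(0,6,[(7,10)]),(0,6,[(7,10)]),(0,7,[(4,5)])],[1])],[6,4,3,3],false,3,4,[4,5]),
    (false,[([(0,6,[(7,10)]),(0,6,[(7,10)]),(0,7,[(4,5)])],[1]),([(0,9,[(4,4)])],[2])],[6,4],false,2,3,[3,4]),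
    (false,[([(0,6,[(7,10)]),(0,6,[(7,10)]),(0,7,[(4,5)])],[1]),([(0,9,[(4,4)]),(0,3,[(3,3)])],[])],[6,3],false,2,1,[]),
    (false,[([(0,6,[(7,10)]),(0,6,[(7,10)]),(0,7,[(4,5)])],[1]),([(0,5,[(4,4),(4,4)])],[4,4])],[],false,1,0,[]),
    (true,[([(0,4,[(7,10),(5,5)]),(0,7,[(4,5)])],[]),([(0,6,[(7,10)])],[3,2,2,2])],[1,1,1],false,1,0,[2,3]),
    (false,[([(0,6,[(7,10)]),(0,6,[(7,10)]),(0,7,[(4,5)])],[1]),([(0,5,[(5,5),(2,2)])],[4,4])],[],false,1,0,[2]),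
    (false,[([(0,6,[(7,10)]),(0,6,[(7,10)]),(0,28,[(5,5),(2,2)])],[]),([(0,7,[(4,5)]),(0,3,[(2,2)])],[3])],[4],false,1,0,[]),
    (false,[([(0,6,[(7,10)]),(0,6,[(7,10)]),(0,7,[(5,5)])],[1]),([(0,5,[(4,5),(3,3)])],[4,4])],[],false,1,0,[]),
    (false,[([(0,6,[(7,10)]),(0,6,[(7,10)]),(0,28,[(6,7)])],[])],[6,4,3,2],false,4,2,[5]),
    (false,[([(0,6,[(7,10)]),(0,6,[(7,10)]),(0,28,[(6,7)])],[]),([(0,7,[(5,5)])],[3,2,1])],[4],false,1,0,[]),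
    (true,[([(0,6,[(7,10)]),(0,0,[(8,8)])],[2]),([(0,6,[(7,10)])],[1])],[8,1,1,1],false,2,2,[3]),
    (false,[([(0,6,[(7,10)]),(0,8,[(8,8),(3,3)])],[4,1,1,1]),([(0,6,[(7,10)])],[4])],[],false,1,0,[]),
    (true,[([(0,6,[(7,10)]),(0,24,[(9,9)])],[2]),([(0,6,[(7,10)])],[])],[8,1,1,1],false,2,1,[]),
    (false,[([(0,6,[(7,10)]),(0,6,[(7,10)])],[4,1,1,1]),([(0,6,[(10,10)])],[4,1])],[],false,1,0,[]),
    (true,[([(0,4,[(11,15)])],[1,1,1])],[8,7,5,1,1,1,1],false,4,4,[6,8,12]),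
    (false,[([(0,4,[(11,15)]),(0,1,[(5,6)])],[5,1,1,1])],[6,4,3],false,1,0,[3,5,6]),
    (false,[([(0,4,[(11,15)]),(0,1,[(5,6)])],[5,1,1,1]),([(0,3,[(2,3)])],[2,2])],[6],false,1,0,[2,3]),
    (false,[([(0,4,[(11,15)]),(0,5,[(5,6),(2,2)])],[5,1,1]),([(0,3,[(2,3)])],[2,2,1,1])],[3],false,1,0,[2]),
    (true,[([(0,4,[(11,15)]),(0,3,[(2,3)])],[]),([(0,1,[(5,6)]),(0,3,[(2,2)]),(0,3,[(2,2)])],[1])],[8,1,1,1],true,2,4,[]),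
    (true,[([(0,4,[(11,15)]),(0,3,[(2,3)])],[]),([(0,1,[(5,6)]),(0,3,[(3,3)])],[2,1,1])],[8,1,1,1],true,2,4,[3]),
    (true,[([(0,4,[(11,15)]),(0,3,[(2,3)])],[]),([(0,1,[(5,6)]),(0,3,[(3,3)]),(0,3,[(3,3)])],[1])],[8,1,1,1],false,2,2,[3]),
    (false,[([(0,4,[(11,15)]),(0,22,[(5,6),(3,3),(3,3)])],[1,1]),([(0,1,[(2,3),(3,3)])],[3,3,1])],[],false,1,0,[]),
    (true,[([(0,4,[(11,15)]),(0,7,[(4,5)])],[]),([(0,1,[(5,6)])],[2,1,1,1])],[8,1,1,1],true,2,4,[3,5]),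
    (true,[([(0,4,[(11,15)]),(0,7,[(4,5)])],[]),([(0,1,[(5,6)]),(0,3,[(3,3)])],[1,1])],[8,1,1,1],false,2,2,[3]),
    (false,[([(0,4,[(11,15)]),(0,22,[(5,6),(3,3),(3,3)])],[1,1]),([(0,7,[(4,5)])],[3,3,2])],[],false,1,0,[]),
    (true,[([(0,4,[(11,15)])],[3,2,2]),([(0,1,[(5,6)]),(0,6,[(4,5),(4,5)])],[1])],[1,1,1],false,1,0,[2]),
    (true,[([(0,4,[(11,15)]),(0,7,[(4,5)])],[]),([(0,5,[(5,6),(2,2)])],[2,1,1]),([(0,7,[(4,5)])],[1,1,1,1,1])],[],false,1,0,[]),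
    (false,[([(0,4,[(11,15)]),(0,22,[(5,6),(6,6)])],[1,1])],[6,4,3],false,3,2,[]),
    (true,[([(0,4,[(11,15)]),(0,0,[(7,8)])],[])],[8,4,3,1,1,1,1],false,4,3,[6]),
    (true,[([(0,4,[(11,15)]),(0,0,[(7,8)])],[]),([(0,1,[(5,6)])],[2])],[8,1,1,1],false,2,1,[]),
    (false,[([(0,4,[(11,15)]),(0,22,[(9,12)])],[1,1])],[6,4,3],false,3,3,[4]),
    (false,[([(0,4,[(11,15)]),(0,22,[(9,12)])],[1,1]),([(0,9,[(4,4)])],[2,1])],[6],false,1,0,[]),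
    (true,[([(0,2,[(16,21)])],[1,1])],[8,7,1,1,1,1],false,3,4,[5,7]),
    (false,[([(0,2,[(16,21)]),(0,7,[(4,5)])],[6,1,1])],[5,3],false,2,3,[3,4]),
    (true,[([(0,2,[(16,21)])],[2,2]),([(0,5,[(4,5),(3,3)])],[2,2,2,1])],[1,1],false,1,0,[2]),
    (true,[([(0,2,[(16,21)])],[2,2]),([(0,5,[(4,5),(3,3)]),(0,3,[(2,2)])],[2,2])],[1,1],false,1,0,[]),
    (false,[([(0,2,[(16,21)]),(0,7,[(4,5)])],[6,1,1]),([(0,9,[(4,4)])],[2,1,1])],[],false,1,0,[]),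
    (false,[([(0,2,[(16,21)]),(0,28,[(6,7)])],[6,1])],[4,3],false,2,1,[]),
    (false,[([(0,16,[(22,22)])],[6,3,1,1,1,1])],[4,3],false,1,0,[])])]

theorem cj7f_5_ok : runAllJ S42 R42 F42 21 cj7f_5 = true := by decide +kernel

noncomputable def cj7f_6 : List (List ℕ × List NdJ) := [
  ([12,7,6,5,5,4,2,1], [
    (false,[],[12,7,6,5,5,4,2,1],true,6,5,[10,15,21,22]),
    (true,[([(0,6,[(7,10)])],[1,1])],[8,7,6,5,1,1,1,1],false,5,4,[8,10]),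
    (true,[([(0,6,[(7,10)]),(0,5,[(6,8)])],[])],[7,6,6,1,1,1,1,1],false,3,5,[4,5,7,8]),
    (false,[([(0,6,[(7,10)]),(0,22,[(6,8),(4,4)])],[3,1,1])],[6,5,4],false,3,4,[4]),
    (false,[([(0,6,[(7,10)]),(0,22,[(6,8),(4,4)]),(0,7,[(4,4)])],[])],[6,5,4],false,3,4,[4]),
    (true,[([(0,6,[(7,10)]),(0,9,[(4,4)])],[]),([(0,22,[(6,8),(4,4)]),(0,9,[(4,4)])],[3])],[7,1,1],false,2,1,[]),
    (false,[([(0,6,[(7,10)]),(0,5,[(6,8)]),(0,7,[(5,5)])],[3])],[6,5,4,1],false,3,5,[4,5]),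
    (false,[([(0,6,[(7,10)]),(0,22,[(6,8),(4,4)]),(0,7,[(5,5)])],[])],[6,5,4],false,3,3,[4]),
    (true,[([(0,4,[(7,10),(5,5)]),(0,9,[(4,4)])],[]),([(0,22,[(6,8),(4,4)])],[3,3,3])],[1,1],false,1,0,[]),
    (true,[([(0,6,[(7,10)]),(0,5,[(6,8)])],[]),([(0,7,[(5,5)])],[1,1,1]),([(0,7,[(5,5)])],[1,1,1])],[7,1],true,2,2,[3]),
    (true,[([(0,4,[(7,10),(5,5)]),(0,3,[(3,3)])],[]),([(0,5,[(6,8)])],[2,2,2,2]),([(0,7,[(5,5)])],[1,1,1])],[],false,1,0,[]),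
    (true,[([(0,6,[(7,10)]),(0,5,[(6,8)])],[]),([(0,28,[(6,7)])],[1,1])],[7,6,1,1],false,3,2,[6]),
    (true,[([(0,6,[(7,10)]),(0,1,[(4,6)])],[2]),([(0,4,[(6,8),(6,7)])],[3,3])],[1,1,1],false,1,0,[3]),
    (true,[([(0,6,[(7,10)]),(0,1,[(4,6)])],[]),([(0,5,[(6,8)])],[2,2,2,2]),([(0,28,[(6,7)]),(0,3,[(2,3)])],[])],[],false,1,0,[2]),
    (true,[([(0,6,[(7,10)]),(0,1,[(4,6)])],[]),([(0,6,[(6,8),(2,2)]),(0,3,[(2,3)])],[2,2]),([(0,28,[(6,7)])],[1,1])],[],false,1,0,[]),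
    (true,[([(0,6,[(7,10)]),(0,5,[(6,8)])],[]),([(0,35,[(8,8)])],[1])],[7,6,1],false,3,1,[4]),
    (true,[([(0,6,[(7,10)]),(0,9,[(4,4)])],[2]),([(0,25,[(6,8),(8,8)])],[4,3])],[1,1],false,1,0,[]),
    (false,[([(0,6,[(7,10)]),(0,8,[(9,10)])],[1,1,1,1])],[7,5,4,1],true,4,2,[6,8]),
    (true,[([(0,6,[(7,10)]),(0,1,[(5,6)])],[]),([(0,20,[(9,10)])],[1])],[8,6,1],false,3,1,[4]),
    (true,[([(0,6,[(7,10)]),(0,9,[(4,4)])],[2]),([(0,25,[(9,10),(5,6)])],[4,3])],[1,1],false,1,0,[]),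
    (true,[([(0,6,[(7,10)]),(0,0,[(7,8)])],[3]),([(0,20,[(9,10)])],[1])],[6,3,1],false,2,1,[]),
    (true,[([(0,4,[(11,15)])],[2])],[8,7,6,1,1,1,1],false,4,4,[6,8,11,12]),
    (false,[([(0,4,[(11,15)]),(0,1,[(5,6)])],[3,1,1,1])],[6,5,4],false,3,4,[5,6]),
    (false,[([(0,4,[(11,15)]),(0,1,[(5,6)]),(0,7,[(4,5)])],[1])],[6,5,4],false,3,4,[4,5]),
    (false,[([(0,4,[(11,15)]),(0,20,[(5,6),(4,4)])],[4,1]),([(0,1,[(4,5)])],[2,2,2])],[],false,1,0,[2]),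
    (false,[([(0,4,[(11,15)]),(0,5,[(5,6),(2,2)])],[4,1,1]),([(0,1,[(4,5)]),(0,9,[(4,4)])],[3])],[],false,1,0,[]),
    (false,[([(0,4,[(11,15)]),(0,20,[(4,5),(5,5)])],[4,1]),([(0,1,[(5,6)])],[2,2,2])],[],false,1,0,[]),
    (false,[([(0,4,[(11,15)]),(0,39,[(5,6),(6,6)])],[4])],[6,5],false,2,2,[3]),
    (true,[([(0,2,[(11,15),(6,6)])],[3]),([(0,1,[(5,6)]),(0,3,[(3,3)])],[2,2,2])],[1,1,1],false,1,0,[]),
    (false,[([(0,4,[(11,15)]),(0,5,[(7,8)])],[4,1,1])],[6,5,2],false,3,2,[6]),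
    (true,[([(0,4,[(11,15)]),(0,0,[(7,8)])],[]),([(0,1,[(4,6)])],[2,1,1])],[6,1,1,1],false,2,2,[3]),
    (true,[([(0,4,[(11,15)])],[2,2]),([(0,8,[(7,8),(3,3)]),(0,1,[(4,6)])],[3])],[1,1,1],false,1,0,[]),
    (true,[([(0,4,[(11,15)])],[2]),([(0,8,[(9,11)])],[3,3,3,2])],[1,1,1],false,1,0,[2,3,4]),
    (true,[([(0,4,[(11,15)]),(0,3,[(2,2)])],[]),([(0,8,[(9,11)])],[3,3,3,1])],[1,1,1],false,1,0,[2]),
    (true,[([(0,4,[(11,15)])],[2,2]),([(0,8,[(9,11)]),(1,1,[(2,2),(2,2)])],[3])],[1,1,1],false,1,0,[2]),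
    (true,[([(0,4,[(11,15)])],[2,2]),([(0,8,[(9,11)]),(1,1,[(2,2),(2,2),(2,2)])],[3])],[1,1,1],false,1,0,[]),
    (true,[([(0,4,[(11,15)])],[4,4,4]),([(0,40,[(9,11),(3,3)])],[])],[1],false,1,0,[2]),
    (true,[([(0,4,[(11,15)])],[2,2]),([(0,8,[(9,11)]),(0,1,[(3,3),(2,2)])],[3])],[1,1,1],false,1,0,[]),
    (true,[([(0,4,[(11,15)]),(0,9,[(4,4)])],[]),([(0,8,[(9,11)])],[3,3,2,1])],[1,1,1],false,1,0,[]),
    (false,[([(0,10,[(11,15),(12,12)])],[5,1,1,1,1])],[5],false,1,0,[]),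
    (true,[([(0,2,[(16,21)])],[3])],[8,6,1,1,1,1],false,3,4,[5,7]),
    (true,[([(0,2,[(16,21)])],[3]),([(0,7,[(4,5)])],[1,1,1])],[8,1,1],true,2,3,[3,4]),
    (false,[([(0,2,[(16,21)]),(0,5,[(4,5),(3,3)])],[1,1])],[6,5],false,2,1,[]),
    (false,[([(0,2,[(16,21)]),(0,7,[(4,5)])],[4,1,1]),([(0,9,[(4,4)])],[2,2,2])],[],false,1,0,[]),
    (false,[([(0,2,[(16,21)]),(0,28,[(6,7)])],[1,1])],[7,5],false,2,1,[]),
    (false,[([(0,16,[(22,22)])],[3])],[12,5],false,1,0,[])]),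
  ([12,7,7,6,4,3,2,1], [
    (false,[],[12,7,7,6,4,3,2,1],true,7,3,[10,15,21,22]),
    (true,[([(0,20,[(8,10)])],[2,2])],[8,6,5,4,3,1,1],false,6,2,[10]),
    (false,[([(0,20,[(8,10)]),(0,6,[(7,10)])],[2,2,1])],[7,6,4],false,3,4,[6,8,9]),
    (false,[([(0,20,[(8,10)]),(0,6,[(7,10)]),(0,1,[(4,6)])],[])],[7,6,3],false,3,3,[6]),
    (true,[([(0,6,[(8,10)]),(0,1,[(4,6)])],[]),([(0,6,[(7,10)]),(0,1,[(4,6)])],[3])],[4,1,1,1],false,2,2,[3]),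
    (true,[([(0,20,[(8,10)]),(0,3,[(3,3)])],[]),([(0,6,[(7,10)]),(0,1,[(4,6)])],[3]),([(0,1,[(4,6)])],[2,2])],[],false,1,0,[]),
    (true,[([(0,20,[(8,10)])],[2]),([(0,6,[(7,10)]),(0,0,[(7,8)])],[2])],[5,4,1],false,3,1,[]),
    (true,[([(0,41,[(8,10),(9,9)])],[4]),([(0,6,[(7,10)])],[3,3,2])],[1],false,1,0,[]),
    (true,[([(0,4,[(11,15)])],[4])],[8,7,4,1,1,1,1],false,4,4,[6,8,11,12]),
    (false,[([(0,4,[(11,15)]),(0,1,[(5,6)])],[2,1,1,1])],[7,6,3],false,3,3,[4,6]),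
    (false,[([(0,4,[(11,15)]),(0,20,[(5,6),(4,4)])],[2,1])],[7,6,1],false,2,4,[4]),
    (true,[([(0,4,[(11,15)]),(0,9,[(4,4)])],[4]),([(0,6,[(5,6),(3,4)])],[3,3])],[1,1,1],false,1,0,[3]),
    (false,[([(0,4,[(11,15)]),(0,5,[(4,4),(3,4)]),(0,3,[(2,3)])],[1]),([(0,1,[(5,6)])],[3,2,2,2])],[],false,1,0,[2]),
    (false,[([(0,4,[(11,15)]),(0,20,[(5,6),(4,4)]),(0,3,[(2,3)])],[]),([(0,1,[(3,4),(2,2)])],[2,2,2,2])],[],false,1,0,[]),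
    (true,[([(0,4,[(11,15)])],[4,1]),([(0,22,[(5,6),(5,6)])],[3,3,2])],[1,1],false,1,0,[3,4]),
    (true,[([(0,4,[(11,15)]),(0,3,[(2,3)])],[4]),([(0,22,[(5,6),(5,6)])],[3,3])],[1,1],false,1,0,[3]),
    (false,[([(0,4,[(11,15)])],[3,2]),([(0,1,[(5,6)]),(0,1,[(5,6)]),(0,3,[(2,3)]),(0,3,[(2,3)])],[3,1])],[],false,1,0,[2]),
    (false,[([(0,4,[(11,15)])],[3,2]),([(0,1,[(5,6)]),(0,1,[(5,6)]),(1,1,[(2,3),(2,2)]),(0,3,[(2,3)])],[1])],[],false,1,0,[]),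
    (true,[([(0,4,[(11,15)])],[4,4]),([(0,22,[(5,6),(5,6)]),(0,7,[(4,4)])],[])],[1,1],false,1,0,[]),
    (false,[([(0,4,[(11,15)]),(0,5,[(7,8)])],[2,1,1])],[7,6,2],false,3,2,[6]),
    (false,[([(0,4,[(11,15)]),(0,5,[(7,8)])],[2,1,1]),([(0,1,[(4,6)])],[3,2,2,2])],[],false,1,0,[3]),
    (false,[([(0,4,[(11,15)]),(0,5,[(7,8)]),(0,3,[(2,3)])],[1]),([(0,1,[(4,6)])],[3,2,2,2])],[],false,1,0,[2]),
    (false,[([(0,4,[(11,15)]),(0,20,[(7,8),(2,2)]),(0,3,[(2,3)])],[]),([(0,1,[(4,6)])],[2,2,2,2])],[],false,1,0,[]),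
    (false,[([(0,4,[(11,15)]),(0,8,[(9,11)])],[1,1,1])],[7,4,2],false,3,2,[4]),
    (false,[([(0,4,[(11,15)]),(0,8,[(9,11)])],[1,1,1]),([(0,9,[(4,4)])],[1,1])],[7],false,1,0,[]),
    (false,[([(0,29,[(11,15),(12,12)])],[4,1,1,1,1])],[7],false,1,0,[]),
    (true,[([(0,2,[(16,21)])],[5])],[8,4,1,1,1,1],false,3,4,[5,7]),
    (false,[([(0,2,[(16,21)]),(0,7,[(4,5)])],[3,1,1])],[7,4],false,2,3,[3,4]),
    (true,[([(0,2,[(16,21)])],[5]),([(0,5,[(4,5),(3,3)])],[2,2,1,1])],[1,1],false,1,0,[2]),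
    (true,[([(0,2,[(16,21)])],[5]),([(0,5,[(4,5),(3,3)]),(0,3,[(2,2)])],[2,1])],[1,1],false,1,0,[]),
    (false,[([(0,2,[(16,21)]),(0,7,[(4,5)])],[3,1,1]),([(0,9,[(4,4)])],[2,2,1,1,1])],[],false,1,0,[]),
    (false,[([(0,2,[(16,21)]),(0,28,[(6,7)])],[3,1])],[7,3],false,2,1,[]),
    (false,[([(0,42,[(22,22)])],[6,5,3,1,1])],[4],false,1,0,[])]),
  ([12,9,8,7,3,2,1], [
    (false,[],[12,9,8,7,3,2,1],true,6,4,[10,15,21,22]),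
    (true,[([(0,6,[(7,10)])],[])],[7,6,5,4,4,4,1,1],false,4,6,[6,9,10]),
    (true,[([(0,6,[(7,10)]),(0,1,[(5,6)])],[])],[6,4,4,4,4,2,1,1],true,3,8,[5,6]),
    (true,[([(0,6,[(7,10)]),(0,7,[(4,5)])],[]),([(0,1,[(5,6)])],[2,2])],[6,4,4,2,1],true,4,2,[5]),
    (true,[([(0,6,[(7,10)]),(0,7,[(4,5)])],[]),([(0,1,[(5,6)]),(0,1,[(5,5)])],[])],[5,4,4,1,1],false,3,2,[4,5]),
    (true,[([(0,6,[(7,10)]),(0,7,[(5,5)])],[]),([(0,4,[(5,6),(4,5),(4,4)])],[3])],[4,4,1],false,2,1,[]),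
    (true,[([(0,4,[(7,10),(5,5)])],[3]),([(0,1,[(5,6)]),(0,7,[(4,5)])],[3]),([(0,7,[(5,5)])],[1])],[4],false,1,0,[]),
    (true,[([(0,6,[(7,10)]),(0,1,[(5,6)])],[]),([(0,1,[(6,6)])],[2,2,1])],[4,4,4,2,1],true,3,4,[6]),
    (true,[([(0,6,[(7,10)]),(0,1,[(5,6)])],[]),([(0,1,[(6,6)]),(0,1,[(4,6)])],[])],[4,4,4,1,1],true,2,3,[3,4]),
    (true,[([(0,6,[(7,10)]),(0,1,[(5,6)])],[]),([(0,1,[(6,6)]),(0,1,[(4,6)])],[]),([(0,3,[(3,3)])],[1,1])],[4,4,1],false,2,1,[]),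
    (true,[([(0,6,[(7,10)]),(0,1,[(4,6)])],[]),([(0,22,[(5,6),(6,6)])],[2]),([(0,9,[(4,4)])],[2,2])],[4],false,1,0,[]),
    (false,[([(0,6,[(7,10)]),(0,6,[(7,9)])],[3,3,3,1])],[8,3,1],false,1,0,[2,3,5,6,8,9]),
    (true,[([(0,6,[(7,10)]),(0,3,[(2,2)])],[]),([(0,6,[(7,9)])],[3])],[7,4,4,1],false,2,8,[]),
    (true,[([(0,6,[(7,10)]),(0,3,[(3,3)])],[]),([(0,6,[(7,9)])],[3])],[7,4,4,1],true,3,3,[]),
    (true,[([(0,6,[(7,10)]),(0,7,[(4,5)])],[]),([(0,6,[(7,9)])],[2])],[6,4,4,1],false,2,6,[3,4,5]),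
    (true,[([(0,6,[(7,10)]),(0,7,[(4,5)])],[]),([(0,22,[(7,9),(3,3)])],[2])],[5,4,4],false,2,4,[3]),
    (true,[([(0,6,[(7,10)]),(0,7,[(4,5)])],[]),([(0,4,[(7,9),(3,3),(3,3)])],[3])],[4,4,1],true,2,2,[3]),
    (true,[([(0,6,[(7,10)]),(0,7,[(4,5)])],[]),([(0,4,[(7,9),(3,3),(3,3)])],[3]),([(0,3,[(3,3)])],[1,1])],[4],false,1,0,[]),
    (true,[([(0,6,[(7,10)]),(0,7,[(4,5)])],[]),([(0,6,[(7,9)]),(0,9,[(4,4)])],[])],[4,4,4,1],true,2,3,[3,4]),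
    (true,[([(0,6,[(7,10)]),(0,7,[(4,5)])],[]),([(0,6,[(7,9)]),(0,3,[(3,3)])],[]),([(0,9,[(4,4)])],[2,2])],[5,1],false,2,1,[]),
    (true,[([(0,6,[(7,10)]),(0,7,[(4,5)])],[]),([(0,6,[(7,9)]),(0,9,[(4,4)])],[]),([(0,9,[(4,4)])],[2,2])],[4,1],false,1,0,[]),
    (true,[([(0,4,[(7,10),(5,5)])],[3]),([(0,6,[(7,9)]),(0,7,[(4,5)])],[])],[4,4,1],true,2,2,[3]),
    (true,[([(0,4,[(7,10),(5,5)])],[3]),([(0,6,[(7,9)]),(0,7,[(4,5)])],[]),([(0,3,[(3,3)])],[1,1])],[4],false,1,0,[]),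
    (false,[([(0,6,[(7,10)]),(0,4,[(7,9),(6,6)])],[3,3,1])],[8,2],true,2,4,[3,5]),
    (true,[([(0,6,[(7,10)]),(0,3,[(3,3)])],[]),([(0,4,[(7,9),(6,6)])],[4,1])],[4,4,1],true,2,2,[3]),
    (false,[([(0,6,[(7,10)]),(0,4,[(7,9),(6,6)])],[3,3,1]),([(0,3,[(3,3)]),(0,3,[(3,3)])],[1,1,1,1])],[],false,1,0,[]),
    (true,[([(0,6,[(7,10)]),(0,7,[(4,5)])],[]),([(0,4,[(7,9),(6,6)])],[3])],[4,4,1],false,2,1,[]),
    (true,[([(0,6,[(7,10)]),(0,0,[(7,8)])],[]),([(0,6,[(7,9)])],[])],[5,4,4,1],false,3,1,[4]),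
    (true,[([(0,6,[(7,10)])],[2,1]),([(0,25,[(7,9),(7,8)])],[4]),([(0,9,[(4,4)])],[2,2])],[],false,1,0,[]),
    (false,[([(0,6,[(7,10)]),(0,6,[(7,9)]),(0,24,[(9,9)])],[1])],[8,3,1],false,2,1,[]),
    (true,[([(0,6,[(7,10)])],[]),([(0,8,[(10,10)])],[3,1])],[7,5,4,1],true,4,2,[7]),
    (true,[([(0,6,[(7,10)])],[2]),([(0,11,[(10,10),(5,7)])],[1])],[7,4,1],false,3,1,[]),
    (true,[([(0,4,[(11,15)])],[3])],[7,4,4,4,3,1,1],true,4,3,[6,8,11,12]),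
    (true,[([(0,4,[(11,15)])],[]),([(0,1,[(5,6)])],[2,2,1])],[7,4,4,1],true,3,3,[6]),
    (true,[([(0,4,[(11,15)])],[4]),([(0,1,[(5,6)]),(0,1,[(4,6)])],[1])],[4,4,1,1],true,2,4,[3,4,5]),
    (true,[([(0,4,[(11,15)])],[4]),([(0,1,[(5,6)]),(0,1,[(4,6)])],[1]),([(0,3,[(3,3)])],[1,1])],[4,1],true,2,2,[3]),
    (true,[([(0,4,[(11,15)])],[4]),([(0,1,[(5,6)]),(0,1,[(4,6)])],[1]),([(0,3,[(3,3)])],[1,1]),([(0,3,[(3,3)])],[1,1])],[],false,1,0,[]),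
    (true,[([(0,4,[(11,15)])],[4]),([(0,1,[(5,6)]),(0,1,[(4,6)])],[1]),([(0,9,[(4,4)])],[2,2])],[1,1],false,1,0,[2]),
    (true,[([(0,4,[(11,15)])],[4]),([(0,5,[(5,6),(2,2)]),(0,1,[(4,6)])],[]),([(0,9,[(4,4)])],[2,2])],[1],false,1,0,[]),
    (true,[([(0,4,[(11,15)])],[4]),([(0,1,[(5,6)]),(0,1,[(4,6)])],[1]),([(0,7,[(5,5)])],[1])],[4],false,1,0,[]),
    (true,[([(0,4,[(11,15)])],[3]),([(0,0,[(7,8)])],[3])],[7,4,1,1],false,3,2,[6]),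
    (true,[([(0,4,[(11,15)])],[4]),([(0,5,[(7,8)]),(0,1,[(4,6)])],[])],[4,4,1],true,2,2,[3]),
    (false,[([(0,4,[(11,15)]),(0,8,[(7,8),(3,3)]),(0,1,[(4,6)])],[])],[8,2],false,1,0,[]),
    (true,[([(0,4,[(11,15)])],[]),([(0,8,[(9,11)])],[3,1])],[7,4,1],false,3,1,[4]),
    (false,[([(0,4,[(11,15)]),(0,8,[(9,11)])],[3,1,1]),([(0,9,[(4,4)])],[1,1,1,1,1,1,1])],[],false,1,0,[]),
    (false,[([(0,10,[(11,15),(12,12)])],[4,4,4,1,1])],[],false,1,0,[]),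
    (true,[([(0,2,[(16,21)])],[])],[7,4,4,4,1,1],true,3,3,[6,7]),
    (true,[([(0,2,[(16,21)])],[]),([(0,1,[(4,6)])],[2,2,1,1])],[4,4,1],true,2,3,[3,4]),
    (true,[([(0,2,[(16,21)])],[]),([(0,1,[(4,6)]),(0,3,[(3,3)])],[2,1])],[4,4,1],false,2,1,[]),
    (true,[([(0,2,[(16,21)])],[]),([(0,1,[(4,6)]),(0,9,[(4,4)])],[1,1])],[4,4,1],false,1,0,[]),
    (false,[([(0,10,[(16,21),(7,7)])],[4,4,4,1,1])],[],false,1,0,[]),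
    (false,[([(0,42,[(22,22)])],[6,5,4,3,2])],[],false,1,0,[])]),
  ([12,11,6,5,4,3,1], [
    (false,[],[12,11,6,5,4,3,1],false,6,4,[10,15,21,22]),
    (true,[([(0,6,[(7,10)])],[1,1])],[7,6,5,4,2,2,2,2],false,5,4,[7,9,10]),
    (true,[([(0,6,[(7,10)])],[]),([(0,28,[(6,7)])],[4,1])],[7,6,5,2],false,3,6,[4,6,7]),
    (true,[([(0,6,[(7,10)]),(0,9,[(4,4)])],[]),([(0,28,[(6,7)])],[4,1])],[7,4,3,2],false,4,2,[]),
    (true,[([(0,6,[(7,10)]),(0,1,[(5,6)])],[]),([(0,28,[(6,7)])],[4,1])],[6,4,2,2],false,3,4,[4,6]),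
    (true,[([(0,6,[(7,10)]),(0,1,[(5,6)])],[]),([(0,28,[(6,7)])],[4,1]),([(0,9,[(4,4)])],[])],[6,4],false,2,3,[3,4]),
    (true,[([(0,6,[(7,10)]),(0,3,[(3,3)])],[]),([(0,28,[(6,7)])],[4]),([(0,6,[(5,6),(4,4)])],[4,2,2])],[],false,1,0,[2]),
    (true,[([(0,6,[(7,10)]),(0,3,[(3,3)])],[]),([(0,4,[(6,7),(5,6),(2,2)])],[5,3]),([(0,9,[(4,4)])],[])],[2],false,1,0,[]),
    (true,[([(0,6,[(7,10)]),(0,9,[(4,4)])],[]),([(0,28,[(6,7)])],[4,1]),([(0,6,[(5,6),(4,4)])],[4,1,1])],[],false,1,0,[]),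
    (true,[([(0,6,[(7,10)]),(0,1,[(5,6)])],[]),([(0,28,[(6,7)])],[4,1]),([(0,1,[(5,6)])],[3,2,1])],[2],false,1,0,[3]),
    (true,[([(0,6,[(7,10)]),(0,1,[(5,6)])],[]),([(0,28,[(6,7)])],[4,1]),([(0,1,[(5,6)]),(0,3,[(2,3)])],[3])],[2],false,1,0,[2]),
    (false,[([(0,6,[(7,10)]),(0,28,[(6,7)]),(0,5,[(5,6),(2,2)])],[]),([(0,1,[(5,6)]),(0,3,[(2,3)])],[2,2,1,1,1,1])],[],false,1,0,[]),
    (false,[([(0,6,[(7,10)]),(0,28,[(6,7)]),(0,28,[(7,7)])],[])],[11,6,1],true,3,3,[5]),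
    (true,[([(0,6,[(7,10)])],[4,2]),([(0,14,[(6,7),(7,7),(4,5)])],[3])],[2,2],false,1,0,[2]),
    (true,[([(0,6,[(7,10)]),(0,3,[(2,2)])],[4]),([(0,12,[(6,7),(7,7)])],[1]),([(0,7,[(4,5)])],[3,1,1])],[],false,1,0,[]),
    (true,[([(0,6,[(7,10)])],[]),([(0,35,[(8,9)])],[5])],[7,6,5],false,3,5,[6,8,9]),
    (true,[([(0,6,[(7,10)]),(0,1,[(4,6)])],[]),([(0,35,[(8,9)])],[5])],[6,4,2],false,3,2,[6]),
    (true,[([(0,6,[(7,10)]),(0,1,[(4,6)])],[]),([(0,35,[(8,9)])],[5]),([(0,1,[(4,6)])],[3,2,1])],[],false,1,0,[3]),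
    (true,[([(0,6,[(7,10)]),(0,1,[(4,6)])],[]),([(0,35,[(8,9)])],[5]),([(0,1,[(4,6)]),(0,3,[(2,3)])],[3])],[],false,1,0,[2]),
    (true,[([(0,6,[(7,10)]),(0,1,[(4,6)])],[]),([(0,35,[(8,9)])],[5]),([(0,1,[(4,6)]),(1,1,[(2,3),(2,2)])],[])],[],false,1,0,[]),
    (true,[([(0,6,[(7,10)]),(0,0,[(7,8)])],[]),([(0,35,[(8,9)])],[5])],[5,3,2],false,3,2,[]),
    (false,[([(0,10,[(7,10),(8,9),(9,9)])],[6,2,2,2,2])],[],false,1,0,[]),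
    (true,[([(0,2,[(7,10),(10,10)])],[])],[7,6,2,2,2,2],false,3,6,[6,7]),
    (true,[([(0,2,[(7,10),(10,10)])],[]),([(0,1,[(4,6)])],[3,2,2,2])],[2,2,2],false,1,0,[3,4]),
    (true,[([(0,6,[(7,10)])],[1]),([(0,21,[(10,10),(2,3)]),(0,1,[(4,6)])],[])],[6,2,2,2],false,2,2,[3]),
    (true,[([(0,2,[(7,10),(10,10)])],[3]),([(0,1,[(4,6)]),(0,1,[(2,3),(3,3)])],[])],[2,2,2],false,1,0,[]),
    (true,[([(0,2,[(7,10),(10,10)])],[]),([(0,1,[(4,6)]),(0,9,[(4,4)])],[3,2])],[2,2,2],false,1,0,[]),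
    (false,[([(0,10,[(7,10),(10,10),(7,7)])],[6,2,2,2,2])],[],false,1,0,[]),
    (true,[([(0,4,[(11,15)])],[1])],[7,6,5,2,2,2,2],false,4,5,[6,8,10,12]),
    (true,[([(0,4,[(11,15)])],[]),([(0,1,[(5,6)])],[3,2,2,2])],[6,2,2,2],false,1,0,[3,6]),
    (true,[([(0,4,[(11,15)]),(0,3,[(2,3)])],[]),([(0,1,[(5,6)])],[3,2,1])],[6,2,2,2],false,2,6,[3]),
    (true,[([(0,4,[(11,15)])],[1]),([(0,1,[(5,6)]),(0,1,[(2,3),(3,3)])],[2])],[6,2,2,2],false,2,4,[3]),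
    (true,[([(0,4,[(11,15)]),(0,3,[(3,3)])],[]),([(0,1,[(5,6)]),(0,1,[(2,3),(3,3)])],[])],[6,2,2,2],false,2,2,[3]),
    (true,[([(0,4,[(11,15)]),(0,3,[(3,3)])],[]),([(0,1,[(5,6)]),(0,1,[(2,3),(3,3)])],[]),([(0,3,[(3,3)])],[2,1,1,1])],[2,2],false,1,0,[]),
    (true,[([(0,4,[(11,15)])],[1]),([(0,1,[(5,6)]),(0,1,[(4,6)])],[2])],[6,2,2,2],false,2,4,[3,5]),
    (true,[([(0,4,[(11,15)]),(0,3,[(3,3)])],[]),([(0,1,[(5,6)]),(0,1,[(4,6)])],[])],[6,2,2,2],false,2,2,[3]),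
    (true,[([(0,4,[(11,15)]),(0,3,[(3,3)])],[]),([(0,1,[(5,6)]),(0,1,[(4,6)])],[]),([(0,3,[(3,3)])],[2,1,1,1])],[2,2],false,1,0,[]),
    (true,[([(0,4,[(11,15)])],[1]),([(0,1,[(5,6)]),(0,1,[(4,6)])],[2]),([(0,7,[(4,5)])],[3,1,1])],[2],false,1,0,[2]),
    (true,[([(0,4,[(11,15)]),(0,3,[(2,2)])],[]),([(0,1,[(5,6)]),(0,1,[(4,6)])],[]),([(0,7,[(4,5)])],[3,1,1])],[2],false,1,0,[]),
    (false,[([(0,4,[(11,15)]),(0,5,[(7,8)])],[1,1])],[12,5],false,2,5,[3,5,6]),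
    (true,[([(0,4,[(11,15)]),(0,3,[(3,3)])],[]),([(0,5,[(7,8)])],[4,2])],[6,2,2],false,2,3,[3]),
    (true,[([(0,4,[(11,15)]),(0,3,[(3,3)])],[]),([(0,0,[(7,8)]),(0,3,[(3,3)])],[1])],[6,2,2,2],false,2,1,[]),
    (true,[([(0,4,[(11,15)])],[1]),([(0,5,[(7,8)])],[4,2,2]),([(0,7,[(4,5)])],[3,1,1])],[],false,1,0,[3]),
    (true,[([(0,4,[(11,15)]),(0,3,[(2,3)])],[]),([(0,5,[(7,8)])],[4,2]),([(0,7,[(4,5)])],[3,1,1])],[],false,1,0,[2]),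
    (true,[([(0,4,[(11,15)]),(0,3,[(2,3)])],[]),([(0,0,[(7,8)]),(0,3,[(2,2)])],[1]),([(0,7,[(4,5)])],[3,1,1])],[2],false,1,0,[]),
    (true,[([(0,2,[(11,15),(6,6)])],[3]),([(0,5,[(7,8)])],[4,2])],[2,2],false,1,0,[]),
    (true,[([(0,4,[(11,15)])],[2]),([(0,20,[(9,10)])],[5,2])],[6,2],true,2,3,[3,4]),
    (false,[([(0,4,[(11,15)]),(0,21,[(9,10),(3,3)])],[2,2,2])],[5,3],false,2,1,[]),
    (true,[([(0,4,[(11,15)])],[5]),([(0,12,[(9,10),(4,4)])],[2,2])],[2,2],false,1,0,[]),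
    (false,[([(0,4,[(11,15)]),(0,13,[(11,12)])],[2,2,2])],[6,3],false,2,1,[]),
    (true,[([(0,2,[(16,21)])],[])],[7,6,2,2,2,2],false,3,6,[6,7]),
    (true,[([(0,2,[(16,21)])],[]),([(0,1,[(4,6)])],[3,2,2,2])],[2,2,2],false,1,0,[2,3,4]),
    (true,[([(0,2,[(16,21)])],[3]),([(0,1,[(4,6)]),(0,3,[(2,2)])],[3])],[2,2,2],false,1,0,[2]),
    (true,[([(0,2,[(16,21)])],[3]),([(0,1,[(4,6)]),(1,1,[(2,2),(2,2)])],[])],[2,2,2],false,1,0,[2]),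
    (true,[([(0,2,[(16,21)])],[3]),([(0,1,[(4,6)]),(1,1,[(2,2),(2,2),(2,2)])],[])],[2,2,2],false,1,0,[]),
    (true,[([(0,2,[(16,21)])],[3]),([(0,1,[(4,6)]),(0,3,[(3,3)])],[3])],[2,2,2],false,1,0,[2]),
    (true,[([(0,2,[(16,21)])],[4]),([(0,1,[(4,6)]),(0,7,[(3,3),(2,2)])],[])],[2,2,2],false,1,0,[]),
    (true,[([(0,2,[(16,21)])],[]),([(0,1,[(4,6)]),(0,9,[(4,4)])],[3,2])],[2,2,2],false,1,0,[]),
    (false,[([(0,10,[(16,21),(7,7)])],[6,2,2,2,2])],[],false,1,0,[]),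
    (false,[([(0,32,[(22,22)])],[6,5,4,3,2])],[],false,1,0,[])]),
  ([12,11,7,6,3,2,1], [
    (false,[],[12,11,7,6,3,2,1],true,6,4,[10,15,21,22]),
    (true,[([(0,6,[(7,10)])],[])],[7,6,5,4,4,2,2,2],false,5,5,[8,10]),
    (false,[([(0,6,[(7,10)]),(0,5,[(6,8)])],[2,1,1])],[12,7,1],false,1,0,[3,4,6,8]),
    (false,[([(0,6,[(7,10)]),(0,5,[(6,8)]),(0,3,[(2,3)])],[2])],[12,6,1],true,2,9,[3]),
    (true,[([(0,6,[(7,10)])],[4]),([(0,5,[(6,8)]),(0,1,[(2,3),(3,3)])],[])],[6,4,2,2],false,3,4,[]),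
    (false,[([(0,6,[(7,10)]),(0,5,[(6,8)]),(0,9,[(4,4)])],[1])],[12,6,1],true,3,3,[4]),
    (true,[([(0,6,[(7,10)]),(0,9,[(4,4)])],[]),([(0,22,[(6,8),(4,4)])],[5,1])],[4,4,2],true,2,4,[3,4]),
    (true,[([(0,6,[(7,10)])],[]),([(0,4,[(6,8),(4,4),(3,3)])],[5,4]),([(0,9,[(4,4)])],[])],[4],false,1,0,[2,3]),
    (true,[([(0,6,[(7,10)]),(0,3,[(2,2)])],[]),([(0,4,[(6,8),(4,4),(3,3)])],[5,1]),([(0,9,[(4,4)])],[])],[4],false,1,0,[2]),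
    (true,[([(0,6,[(7,10)])],[2]),([(0,22,[(6,8),(4,4)])],[5]),([(0,1,[(4,4),(2,2)]),(0,7,[(3,3),(2,2)])],[2])],[],false,1,0,[]),
    (true,[([(0,6,[(7,10)]),(0,3,[(3,3)])],[]),([(0,4,[(6,8),(4,4),(3,3)])],[5,1]),([(0,9,[(4,4)])],[])],[4],false,1,0,[]),
    (true,[([(0,6,[(7,10)]),(0,9,[(4,4)])],[]),([(0,22,[(6,8),(4,4)])],[5,1]),([(0,9,[(4,4)])],[1,1])],[4],false,1,0,[2]),
    (true,[([(0,6,[(7,10)])],[2]),([(0,22,[(6,8),(4,4)])],[5]),([(0,1,[(4,4),(2,2)]),(0,7,[(4,4)])],[2])],[],false,1,0,[]),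
    (true,[([(0,6,[(7,10)])],[4]),([(0,5,[(6,8)]),(0,1,[(5,6)])],[])],[6,4,2,2],false,3,4,[4,6]),
    (true,[([(0,6,[(7,10)])],[4]),([(0,5,[(6,8)]),(0,1,[(5,6)])],[]),([(0,9,[(4,4)])],[])],[6,4],false,2,3,[4]),
    (true,[([(0,6,[(7,10)])],[4]),([(0,5,[(6,8)]),(0,1,[(5,6)])],[]),([(0,5,[(4,4),(3,4)])],[4,2])],[],false,1,0,[2]),
    (true,[([(0,6,[(7,10)])],[]),([(0,22,[(6,8),(4,4)])],[5,3]),([(0,1,[(5,6)]),(0,1,[(3,4),(2,2)])],[])],[],false,1,0,[]),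
    (true,[([(0,6,[(7,10)])],[4]),([(0,5,[(6,8)]),(0,1,[(5,6)])],[]),([(0,1,[(5,6)])],[3,2,1])],[2],false,1,0,[3]),
    (true,[([(0,6,[(7,10)])],[4]),([(0,5,[(6,8)]),(0,1,[(5,6)])],[]),([(0,1,[(5,6)]),(0,3,[(2,3)])],[3])],[2],false,1,0,[2]),
    (true,[([(0,6,[(7,10)]),(0,3,[(2,3)])],[]),([(0,6,[(6,8),(2,2)])],[4]),([(0,1,[(5,6)]),(0,1,[(5,6)])],[1])],[2],false,1,0,[]),
    (true,[([(0,6,[(7,10)]),(0,0,[(7,8)])],[]),([(0,5,[(6,8)])],[4])],[4,4,2,2],false,2,4,[3,5]),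
    (true,[([(0,6,[(7,10)]),(0,0,[(7,8)])],[]),([(0,5,[(6,8)])],[4]),([(0,3,[(3,3)])],[2,1])],[4,2],false,2,2,[3]),
    (true,[([(0,6,[(7,10)]),(0,3,[(3,3)])],[]),([(0,5,[(6,8)])],[4]),([(0,8,[(7,8),(3,3)])],[4,1,1])],[],false,1,0,[]),
    (true,[([(0,6,[(7,10)])],[4]),([(0,5,[(6,8)]),(0,1,[(4,5)])],[]),([(0,5,[(7,8)])],[4,2])],[],false,1,0,[2]),
    (true,[([(0,6,[(7,10)]),(0,0,[(7,8)])],[]),([(0,6,[(6,8),(2,2)])],[4]),([(0,7,[(4,5)])],[3])],[2],false,1,0,[]),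
    (true,[([(0,6,[(7,10)])],[]),([(0,20,[(9,10)])],[5,2])],[6,5,4],false,3,4,[6,8]),
    (true,[([(0,6,[(7,10)]),(0,1,[(4,6)])],[]),([(0,8,[(9,10)])],[4,1])],[4,2,2,2],false,2,4,[4,5]),
    (true,[([(0,6,[(7,10)])],[4]),([(0,12,[(9,10),(3,4)])],[1]),([(0,1,[(4,6)])],[3,2,1,1])],[],false,1,0,[3]),
    (true,[([(0,6,[(7,10)])],[4]),([(0,12,[(9,10),(3,4)])],[1]),([(0,1,[(4,6)]),(0,3,[(2,3)])],[3,1])],[],false,1,0,[2]),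
    (true,[([(0,6,[(7,10)])],[4]),([(0,12,[(9,10),(3,4)])],[1]),([(0,1,[(4,6)]),(1,1,[(2,3),(2,2)])],[1])],[],false,1,0,[]),
    (true,[([(0,6,[(7,10)])],[2]),([(0,20,[(9,10)])],[5,3]),([(0,1,[(4,6)]),(0,1,[(5,5)])],[])],[],false,1,0,[]),
    (true,[([(0,6,[(7,10)])],[4]),([(0,14,[(9,10),(7,8)])],[3])],[4,2],false,2,1,[]),
    (true,[([(0,4,[(11,15)])],[])],[7,6,4,4,2,2,2],false,4,6,[6,8,11,12]),
    (true,[([(0,4,[(11,15)])],[]),([(0,1,[(5,6)])],[3,2,1])],[7,4,2,2],false,3,4,[6]),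
    (true,[([(0,4,[(11,15)])],[]),([(0,1,[(5,6)]),(0,1,[(4,6)])],[])],[7,4,2,2],false,3,4,[5]),
    (true,[([(0,4,[(11,15)])],[]),([(0,1,[(5,6)]),(0,1,[(4,6)])],[]),([(0,7,[(4,5)])],[3])],[7],false,1,0,[2]),
    (true,[([(0,4,[(11,15)])],[5]),([(0,5,[(5,6),(2,2)]),(0,1,[(4,6)])],[]),([(0,7,[(4,5)])],[3])],[],false,1,0,[]),
    (true,[([(0,4,[(11,15)])],[]),([(0,5,[(7,8)])],[4,2])],[7,4,2],false,3,2,[6]),
    (true,[([(0,4,[(11,15)])],[5]),([(0,5,[(7,8)]),(0,1,[(4,6)])],[])],[4,2,2],false,2,2,[3]),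
    (true,[([(0,4,[(11,15)])],[5]),([(0,5,[(7,8)]),(0,1,[(4,6)])],[]),([(0,3,[(3,3)])],[2,1])],[2],false,1,0,[]),
    (false,[([(0,4,[(11,15)]),(0,8,[(9,11)])],[1,1])],[12,2],true,2,3,[3,4]),
    (true,[([(0,4,[(11,15)])],[5]),([(0,12,[(9,11),(3,3)])],[1,1])],[4,2],false,2,1,[]),
    (false,[([(0,4,[(11,15)]),(0,8,[(9,11)])],[1,1]),([(0,9,[(4,4)])],[1,1,1,1,1,1,1,1,1,1])],[],false,1,0,[]),
    (false,[([(0,10,[(11,15),(12,12)])],[4,4,2,2,2])],[],false,1,0,[]),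
    (true,[([(0,2,[(16,21)])],[])],[7,4,4,2,2,2],false,3,6,[6,7]),
    (true,[([(0,2,[(16,21)])],[]),([(0,1,[(4,6)])],[3,2,1,1])],[4,2,2],false,2,3,[3,4]),
    (true,[([(0,2,[(16,21)])],[]),([(0,1,[(4,6)]),(0,3,[(3,3)])],[3,1])],[4,2,2],false,2,1,[]),
    (true,[([(0,2,[(16,21)])],[]),([(0,1,[(4,6)])],[3,2,1,1]),([(0,9,[(4,4)])],[])],[4],false,1,0,[]),
    (false,[([(0,10,[(16,21),(7,7)])],[4,4,2,2,2])],[],false,1,0,[]),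
    (false,[([(0,32,[(22,22)])],[5,4,4,4,3])],[],false,1,0,[])]),
  ([12,11,10,4,3,2,1], [
    (false,[],[12,11,10,4,3,2,1],false,5,5,[7,10,14,18,21,22]),
    (true,[([(0,5,[(6,7)])],[3])],[7,6,4,3,3,3,3,3],false,3,8,[5,7]),
    (true,[([(0,28,[(6,7)]),(0,1,[(4,5)])],[])],[6,5,4,3,3,3,3,3],false,4,4,[5]),
    (true,[([(0,28,[(6,7)])],[4,4]),([(0,6,[(4,5),(5,5)])],[])],[7,5,3,3],false,3,5,[4,5]),
    (true,[([(0,8,[(6,7),(4,4)])],[]),([(0,7,[(4,5)]),(0,7,[(5,5)])],[3])],[6,5,3,3,2],false,4,2,[]),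
    (true,[([(0,28,[(6,7)])],[4,4]),([(0,6,[(4,5),(5,5)]),(0,7,[(5,5)])],[])],[5,3,3,2],false,3,2,[4,5]),
    (true,[([(0,22,[(6,7),(4,5)])],[4]),([(0,7,[(5,5)]),(0,7,[(5,5)])],[3]),([(0,9,[(4,4)])],[2])],[5,3],false,2,2,[3]),
    (true,[([(1,2,[(6,7),(4,5),(5,5),(5,5),(3,3)])],[]),([(0,9,[(4,4)])],[2])],[3,3,3],false,1,0,[]),
    (true,[([(0,22,[(6,7),(4,5)])],[4]),([(0,7,[(5,5)]),(0,7,[(5,5)])],[3]),([(0,7,[(5,5)])],[3,3])],[3],false,1,0,[2]),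
    (true,[([(0,12,[(6,7),(5,5),(2,2)])],[5]),([(0,6,[(4,5),(5,5)]),(0,7,[(5,5)])],[])],[3,3,3],false,1,0,[]),
    (true,[([(0,12,[(6,7),(6,7)])],[4])],[7,4,3,3,3,3,2],false,3,6,[4,6,7]),
    (true,[([(0,12,[(6,7),(6,7)])],[4]),([(0,9,[(4,4)])],[2])],[7,4,3,3,2],false,4,2,[]),
    (true,[([(0,28,[(6,7)]),(0,1,[(5,6)])],[]),([(0,28,[(6,7)])],[4,4])],[5,4,3,3],false,3,4,[4,5,6]),
    (false,[([(0,12,[(6,7),(6,7)]),(0,6,[(5,6),(4,4)])],[2,2,2])],[11,2],true,2,4,[4]),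
    (false,[([(0,12,[(6,7),(6,7)]),(0,6,[(5,6),(3,4)]),(0,9,[(4,4)])],[2])],[11,2],false,2,2,[3]),
    (false,[([(0,12,[(6,7),(6,7)]),(0,6,[(5,6),(3,4)]),(0,9,[(4,4)])],[2]),([(0,3,[(3,3)])],[2,1,1,1,1,1,1,1,1])],[],false,1,0,[]),
    (true,[([(0,12,[(6,7),(6,7)])],[4]),([(0,1,[(5,6)]),(0,7,[(5,5)])],[1])],[4,3,3,3],false,2,3,[3,4]),
    (true,[([(0,14,[(6,7),(6,7),(5,5)])],[6]),([(0,1,[(5,6)]),(0,3,[(3,3)])],[])],[3,3,3],false,1,0,[2]),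
    (true,[([(0,12,[(6,7),(6,7)])],[4]),([(0,1,[(5,6)])],[3]),([(0,7,[(5,5)]),(0,7,[(3,3),(2,2)])],[3])],[3],false,1,0,[]),
    (true,[([(0,14,[(6,7),(6,7),(5,5)])],[5]),([(0,1,[(5,6)])],[3,1]),([(0,9,[(4,4)])],[2])],[3],false,1,0,[]),
    (true,[([(0,12,[(6,7),(6,7)])],[4]),([(0,1,[(5,6)]),(0,1,[(6,6)])],[1])],[3,3,3,3],false,1,0,[2,3]),
    (true,[([(0,12,[(6,7),(6,7)])],[4]),([(0,1,[(5,6)])],[3,3,1,1]),([(0,0,[(6,6),(2,2)])],[])],[3],false,1,0,[2]),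
    (true,[([(0,12,[(6,7),(6,7)])],[4]),([(0,5,[(5,6),(2,2)])],[4,4,1]),([(0,0,[(6,6),(2,2)])],[])],[],false,1,0,[]),
    (true,[([(0,6,[(6,7),(3,3)]),(0,1,[(5,6)])],[]),([(0,28,[(6,7)])],[4,4]),([(0,1,[(6,6)])],[3])],[3],false,1,0,[]),
    (true,[([(0,12,[(6,7),(6,7)])],[4]),([(0,0,[(7,7)])],[])],[7,4,3,3],false,3,4,[5,6]),
    (true,[([(0,12,[(6,7),(6,7)])],[4]),([(0,0,[(7,7)]),(0,7,[(4,5)])],[1])],[3,3,3,2],false,2,2,[3]),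
    (true,[([(0,12,[(6,7),(6,7)])],[5]),([(0,6,[(7,7),(3,3)]),(0,7,[(4,5)])],[])],[3,3,3],false,1,0,[]),
    (false,[([(0,29,[(6,7),(6,7),(7,7),(6,6)])],[4,3,3,3,3])],[],false,1,0,[]),
    (true,[([(0,6,[(8,10)])],[])],[7,6,5,3,3,3,3,3],false,4,5,[6,8,10]),
    (true,[([(0,6,[(8,10)]),(0,1,[(5,6)])],[])],[6,4,3,3,3,3,3,2],false,3,6,[4,5,6]),
    (true,[([(0,6,[(8,10)]),(0,1,[(5,6)])],[]),([(0,9,[(4,4)])],[2])],[6,4,3,3,3,2],false,4,2,[]),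
    (true,[([(0,2,[(8,10),(5,6),(5,5)])],[])],[7,3,3,3,3,3],false,2,6,[3,5]),
    (false,[([(0,6,[(8,10)]),(0,12,[(5,6),(5,5),(3,3)])],[2,2,2])],[11,2],true,2,4,[3]),
    (true,[([(0,2,[(8,10),(5,6),(5,5)])],[]),([(0,3,[(3,3)]),(0,3,[(3,3)])],[2,1,1])],[3,3,3,3],false,1,0,[2,3]),
    (true,[([(0,2,[(8,10),(5,6),(5,5)])],[]),([(0,3,[(3,3)]),(0,3,[(3,3)]),(0,3,[(2,2)])],[1])],[3,3,3,3],false,1,0,[2]),
    (true,[([(0,2,[(8,10),(5,6),(5,5)])],[]),([(0,7,[(3,3),(2,2)]),(0,7,[(3,3),(2,2)])],[3])],[3,3,3],false,1,0,[]),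
    (true,[([(0,2,[(8,10),(5,6),(5,5)])],[]),([(0,3,[(3,3)]),(0,3,[(3,3)]),(0,3,[(3,3)])],[1])],[3,3,3,3],false,1,0,[]),
    (true,[([(0,6,[(8,10)]),(0,1,[(5,6)])],[]),([(0,7,[(5,5)]),(0,1,[(4,5)])],[])],[4,3,3,3,3],false,2,3,[3,4]),
    (true,[([(0,6,[(8,10)]),(0,7,[(4,5)])],[]),([(0,12,[(5,6),(5,5),(3,3)])],[5])],[3,3,3],false,1,0,[2]),
    (true,[([(0,2,[(8,10),(5,6),(5,5)])],[]),([(0,7,[(4,5)]),(0,7,[(3,3),(2,2)])],[3])],[3,3,3],false,1,0,[]),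
    (true,[([(0,2,[(8,10),(5,6),(5,5)])],[]),([(0,7,[(4,5)])],[3,3,1,1]),([(0,9,[(4,4)])],[2])],[3],false,1,0,[]),
    (true,[([(0,6,[(8,10)]),(0,1,[(5,6)])],[]),([(0,28,[(6,6)])],[4,4])],[4,3,3,2],false,3,2,[4,6]),
    (true,[([(0,6,[(8,10)]),(0,1,[(5,6)])],[]),([(0,1,[(6,6)])],[3]),([(0,9,[(4,4)])],[2])],[6,3,3],false,2,2,[3]),
    (true,[([(0,14,[(8,10),(6,6),(3,3)])],[5]),([(0,1,[(5,6)])],[3,1]),([(0,9,[(4,4)])],[2])],[3],false,1,0,[]),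
    (false,[([(0,6,[(8,10)]),(0,1,[(5,6)])],[2,2,2,2,2]),([(0,1,[(6,6)]),(0,1,[(5,6)])],[1,1,1,1,1])],[],false,1,0,[2]),
    (true,[([(0,20,[(8,10)])],[5,5]),([(0,1,[(5,6)]),(0,0,[(6,6),(2,2)])],[]),([(0,1,[(5,6)])],[])],[3],false,1,0,[]),
    (true,[([(0,20,[(8,10)])],[4,4]),([(0,0,[(7,8)])],[])],[6,5,3,3],false,3,5,[6,8]),
    (true,[([(0,6,[(8,10)]),(0,1,[(4,6)])],[]),([(0,0,[(7,8)])],[])],[6,4,3,3,3],false,3,4,[5,6]),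
    (true,[([(0,6,[(8,10)]),(0,1,[(4,6)])],[]),([(0,0,[(7,8)]),(0,7,[(4,5)])],[])],[3,3,3,3,2],false,2,2,[3]),
    (true,[([(0,20,[(8,10)])],[5,5]),([(0,8,[(7,8),(3,3)])],[1]),([(0,1,[(4,6)]),(0,7,[(4,5)])],[])],[],false,1,0,[]),
    (true,[([(0,20,[(8,10)])],[5,5]),([(0,0,[(7,8)]),(0,1,[(4,6)])],[]),([(0,1,[(6,6)])],[])],[3],false,1,0,[]),
    (true,[([(0,6,[(8,10)]),(0,0,[(7,8)])],[]),([(0,0,[(7,8)])],[])],[5,3,3,3,3],false,2,2,[3]),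
    (true,[([(0,2,[(8,10),(7,8),(3,3)])],[5]),([(0,0,[(7,8)])],[])],[3,3,3],false,1,0,[]),
    (false,[([(0,6,[(8,10)]),(0,6,[(9,10)])],[2,2,2,2])],[11,3,1],true,3,3,[4,5,7]),
    (false,[([(0,6,[(8,10)]),(0,6,[(9,10)]),(0,9,[(4,4)])],[2,2])],[11,3,1],false,3,1,[4]),
    (false,[([(0,10,[(8,10),(9,10),(4,4),(4,4)])],[3,3,3,3,3])],[],false,1,0,[]),
    (true,[([(0,2,[(8,10),(9,10)])],[]),([(0,7,[(5,5)])],[3,3,1,1])],[3,3,3],false,1,0,[2,3]),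
    (true,[([(0,2,[(8,10),(9,10)])],[]),([(0,28,[(5,5),(2,2)])],[4,4,1])],[3,3],false,1,0,[2]),
    (true,[([(0,6,[(8,10)]),(0,7,[(5,5)])],[]),([(0,12,[(9,10),(2,2),(2,2)])],[5])],[3,3,3],false,1,0,[]),
    (false,[([(0,10,[(8,10),(9,10),(5,5),(3,3)])],[3,3,3,3,3])],[],false,1,0,[]),
    (true,[([(0,2,[(8,10),(9,10)])],[]),([(0,28,[(6,7)])],[4,4,1])],[3,3],false,1,0,[2]),
    (true,[([(0,6,[(8,10)]),(0,3,[(2,2)])],[4]),([(0,8,[(9,10)])],[]),([(0,28,[(6,7)])],[4,4])],[],false,1,0,[]),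
    (true,[([(0,12,[(11,14)])],[4])],[7,4,3,3,3,3,2],false,3,6,[4,5,6,8,11,12]),
    (true,[([(0,12,[(11,14)])],[4]),([(0,9,[(4,4)])],[2])],[7,4,3,3,2],false,4,2,[]),
    (true,[([(0,14,[(11,14),(5,5)])],[5])],[5,3,3,3,3,2],false,2,7,[3,5]),
    (true,[([(0,14,[(11,14),(5,5)])],[5]),([(0,3,[(3,3)])],[2])],[5,3,3,3],false,2,5,[3]),
    (true,[([(0,14,[(11,14),(5,5)])],[5]),([(0,3,[(3,3)]),(0,3,[(3,3)])],[2])],[3,3,3,2],true,2,3,[3]),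
    (true,[([(0,14,[(11,14),(5,5)])],[6]),([(0,1,[(3,3),(3,3)]),(0,3,[(3,3)])],[])],[3,3,3],false,1,0,[2]),
    (true,[([(0,2,[(11,14),(5,5),(2,2)])],[]),([(0,3,[(3,3)]),(0,3,[(3,3)]),(0,3,[(3,3)])],[1])],[3,3,3,3],false,1,0,[]),
    (true,[([(0,12,[(11,14)])],[4]),([(0,7,[(5,5)]),(0,7,[(4,5)])],[3])],[4,3,3,2],false,3,2,[5]),
    (true,[([(0,12,[(11,14)])],[5]),([(0,6,[(5,5),(4,5)]),(0,7,[(4,5)])],[])],[3,3,3],false,1,0,[2]),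
    (true,[([(0,2,[(11,14),(5,5),(2,2)])],[]),([(0,7,[(4,5)]),(0,7,[(4,5)])],[3])],[3,3,3],false,1,0,[]),
    (true,[([(0,2,[(11,14),(6,6)])],[])],[7,3,3,3,3,3],false,2,6,[3,5,6]),
    (false,[([(0,12,[(11,14)]),(0,6,[(6,6),(3,3)])],[2,2,2])],[11,2],true,2,4,[3]),
    (true,[([(0,2,[(11,14),(6,6)])],[]),([(0,3,[(3,3)]),(0,3,[(3,3)])],[2,1,1])],[3,3,3,3],false,1,0,[2,3]),
    (true,[([(0,12,[(11,14)])],[4]),([(0,0,[(6,6),(2,2)])],[]),([(0,3,[(3,3)]),(0,3,[(3,3)])],[2,1,1])],[4,3],false,2,1,[]),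
    (true,[([(0,2,[(11,14),(6,6)])],[]),([(0,3,[(3,3)]),(0,3,[(3,3)]),(0,3,[(3,3)])],[1])],[3,3,3,3],false,1,0,[]),
    (true,[([(0,12,[(11,14)])],[5]),([(0,8,[(6,6),(4,5)])],[])],[7,3,3],false,2,3,[3,4]),
    (true,[([(0,12,[(11,14)])],[5]),([(0,8,[(6,6),(4,5)]),(0,3,[(3,3)])],[1])],[3,3,3],false,1,0,[2]),
    (true,[([(0,2,[(11,14),(6,6)])],[]),([(0,7,[(4,5)]),(0,7,[(3,3),(2,2)])],[3])],[3,3,3],false,1,0,[]),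
    (true,[([(0,2,[(11,14),(6,6)])],[]),([(0,7,[(4,5)])],[3,3,1,1]),([(0,9,[(4,4)])],[2])],[3],false,1,0,[]),
    (true,[([(0,2,[(11,14),(6,6)])],[]),([(0,28,[(6,6)])],[4,4,1])],[3,3],false,1,0,[2]),
    (false,[([(0,10,[(11,14),(6,6),(6,6),(2,2)])],[3,3,3,3,3])],[],false,1,0,[]),
    (true,[([(0,12,[(11,14)])],[4]),([(0,0,[(7,8)])],[])],[7,4,3,3],false,3,4,[5,6]),
    (true,[([(0,12,[(11,14)])],[4]),([(0,0,[(7,8)]),(0,7,[(4,5)])],[1])],[3,3,3,2],false,2,2,[3]),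
    (true,[([(0,12,[(11,14)])],[5]),([(0,8,[(7,8),(3,3)])],[]),([(0,7,[(4,5)])],[3,3,1,1])],[],false,1,0,[]),
    (false,[([(0,10,[(11,14),(7,8),(6,6)])],[3,3,3,3,3])],[],false,1,0,[]),
    (true,[([(0,12,[(11,14)])],[5]),([(0,8,[(9,11)])],[])],[7,3,3],false,2,3,[3,4]),
    (true,[([(0,12,[(11,14)])],[5]),([(0,8,[(9,11)]),(0,3,[(3,3)])],[1])],[3,3,3],false,1,0,[2]),
    (true,[([(0,12,[(11,14)])],[5]),([(0,8,[(9,11)])],[]),([(0,7,[(3,3),(2,2)])],[3,3,1,1])],[],false,1,0,[]),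
    (true,[([(0,12,[(11,14)])],[5]),([(0,8,[(9,11)])],[]),([(0,9,[(4,4)])],[2])],[7],false,1,0,[]),
    (false,[([(0,26,[(11,14),(12,12)])],[3,3,3,3,3,1])],[1],false,1,0,[]),
    (true,[([(0,34,[(15,18)])],[5])],[5,4,3,3,3,2],false,4,2,[6,8]),
    (true,[([(0,34,[(15,18)])],[5]),([(0,1,[(5,6)])],[3])],[5,3,3],false,2,3,[3,4]),
    (true,[([(0,34,[(15,18)])],[6]),([(0,1,[(5,6)]),(0,3,[(3,3)])],[])],[4,3,3],false,2,1,[]),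
    (false,[([(0,10,[(15,18),(5,6),(4,4)])],[3,3,3,3,3])],[],false,1,0,[]),
    (true,[([(0,34,[(15,18)])],[5]),([(0,0,[(7,8)])],[])],[5,4,3],false,2,1,[]),
    (true,[([(0,2,[(19,21)])],[])],[7,3,3,3,3,3],false,2,3,[3,4]),
    (true,[([(0,17,[(19,21),(3,3)])],[2])],[3,3,3,3,3,2],false,2,1,[]),
    (false,[([(0,18,[(19,21),(4,4)])],[4,3,3,3,3,1])],[1],false,1,0,[]),
    (false,[([(0,16,[(22,22)])],[3,3,3,3,3,3])],[3],false,1,0,[])])]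

theorem cj7f_6_ok : runAllJ S42 R42 F42 21 cj7f_6 = true := by decide +kernel

noncomputable def cj7f_7 : List (List ℕ × List NdJ) := [
  ([13,7,6,6,4,3,2,1], [
    (false,[],[13,7,6,6,4,3,2,1],true,6,6,[10,15,21,22]),
    (true,[([(0,6,[(7,10)])],[2])],[8,7,6,4,1,1,1,1,1],false,5,4,[8,10]),
    (false,[([(0,6,[(7,10)]),(0,5,[(6,8)])],[2,1,1,1,1])],[7,6,4,1],false,1,0,[3,6,8]),
    (false,[([(0,6,[(7,10)]),(0,5,[(6,8)]),(0,3,[(2,3)])],[1,1,1])],[7,6,4,1],false,3,5,[]),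
    (false,[([(0,6,[(7,10)]),(0,5,[(6,8)]),(0,1,[(4,6)])],[1,1])],[6,6,3,1],true,3,4,[4,6]),
    (true,[([(0,6,[(7,10)]),(0,1,[(4,6)])],[3]),([(0,5,[(6,8)]),(0,9,[(4,4)])],[1])],[5,2,1,1,1],false,3,2,[4]),
    (true,[([(0,6,[(7,10)]),(0,1,[(4,6)])],[3]),([(0,22,[(6,8),(4,4)]),(0,9,[(4,4)])],[])],[4,1,1,1],false,2,1,[]),
    (true,[([(0,6,[(7,10)]),(0,1,[(4,6)])],[3]),([(0,5,[(6,8)]),(0,1,[(5,6)])],[])],[5,1,1,1,1],false,2,3,[3,4]),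
    (false,[([(0,6,[(7,10)]),(0,5,[(6,8)]),(0,1,[(4,6)])],[1,1]),([(0,1,[(5,6)]),(0,3,[(3,3)])],[1])],[6],false,1,0,[2]),
    (true,[([(0,6,[(7,10)]),(0,1,[(4,6)])],[3]),([(0,5,[(6,8)]),(0,3,[(3,3)])],[2]),([(0,5,[(5,6),(2,2)])],[1])],[1],false,1,0,[]),
    (true,[([(0,6,[(7,10)]),(0,1,[(4,6)])],[3]),([(0,5,[(6,8)])],[1]),([(0,20,[(5,6),(4,4)])],[2,2])],[],false,1,0,[]),
    (false,[([(0,6,[(7,10)]),(0,5,[(6,8)]),(0,5,[(7,8)])],[1])],[6,6,2,1],true,3,3,[5]),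
    (true,[([(0,6,[(7,10)]),(0,0,[(7,8)])],[]),([(0,5,[(6,8)]),(0,7,[(4,5)])],[2])],[5,1,1,1,1],false,2,1,[]),
    (true,[([(0,6,[(7,10)]),(0,6,[(9,10)])],[])],[7,5,4,1,1,1,1,1,1],false,4,4,[7,8]),
    (true,[([(0,6,[(7,10)])],[2,1,1]),([(0,25,[(9,10),(5,7)])],[4,4])],[1,1,1],false,1,0,[2,3,4]),
    (true,[([(0,6,[(7,10)]),(0,3,[(2,2)])],[1]),([(0,25,[(9,10),(5,7)])],[4,4])],[1,1,1],false,1,0,[2]),
    (true,[([(0,6,[(7,10)]),(1,1,[(2,2),(2,2)])],[3]),([(0,25,[(9,10),(5,7)])],[3])],[1,1,1],false,1,0,[2]),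
    (true,[([(0,6,[(7,10)]),(1,1,[(2,2),(2,2),(2,2)])],[3]),([(0,25,[(9,10),(5,7)])],[3])],[1,1,1],false,1,0,[]),
    (true,[([(0,6,[(7,10)]),(0,6,[(5,7),(3,3)])],[]),([(0,20,[(9,10)])],[2,2])],[5,1,1,1],false,2,1,[]),
    (true,[([(0,6,[(7,10)]),(0,1,[(4,4)])],[3]),([(0,25,[(9,10),(5,7)])],[3])],[1,1,1],false,1,0,[]),
    (false,[([(0,10,[(7,10),(9,10),(8,8)])],[3,1,1,1,1,1])],[6],false,1,0,[]),
    (true,[([(0,4,[(11,15)])],[3])],[8,7,4,1,1,1,1,1],false,4,4,[6,8,12]),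
    (true,[([(0,4,[(11,15)]),(0,1,[(5,6)])],[])],[7,5,4,1,1,1,1,1],false,4,4,[6]),
    (true,[([(0,4,[(11,15)]),(0,1,[(5,6)])],[]),([(0,1,[(5,6)])],[2,2])],[7,1,1,1,1],false,2,3,[4]),
    (true,[([(0,4,[(11,15)]),(0,1,[(5,6)])],[]),([(0,6,[(5,6),(3,4)])],[3,3,1])],[1,1,1,1],false,1,0,[2]),
    (true,[([(0,4,[(11,15)]),(0,1,[(3,4),(2,2)])],[]),([(0,22,[(5,6),(5,6)])],[3,3])],[1,1,1],false,1,0,[]),
    (false,[([(0,4,[(11,15)]),(0,5,[(7,8)])],[1,1,1,1])],[7,6,2],false,3,2,[6]),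
    (true,[([(0,4,[(11,15)]),(0,1,[(4,6)])],[]),([(0,5,[(7,8)])],[2,2,1])],[5,1,1,1],false,2,2,[3]),
    (false,[([(0,4,[(11,15)]),(0,8,[(7,8),(3,3)])],[1,1,1,1]),([(0,1,[(4,6)])],[3,2,1])],[],false,1,0,[]),
    (true,[([(0,4,[(11,15)])],[3,1]),([(0,22,[(9,12)])],[3,3,2])],[1,1,1],false,1,0,[2,3,4]),
    (true,[([(0,4,[(11,15)]),(0,3,[(2,2)])],[3]),([(0,22,[(9,12)])],[3,3])],[1,1,1],false,1,0,[2]),
    (true,[([(0,4,[(11,15)]),(1,1,[(2,2),(2,2)])],[]),([(0,22,[(9,12)])],[3,3])],[1,1,1],false,1,0,[2]),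
    (true,[([(0,4,[(11,15)]),(1,1,[(2,2),(2,2),(2,2)])],[]),([(0,22,[(9,12)])],[3,3])],[1,1,1],false,1,0,[]),
    (true,[([(0,4,[(11,15)]),(0,3,[(3,3)])],[3]),([(0,22,[(9,12)])],[3,3])],[1,1,1],false,1,0,[2]),
    (true,[([(0,4,[(11,15)]),(0,1,[(3,3),(2,2)])],[]),([(0,22,[(9,12)])],[3,3])],[1,1,1],false,1,0,[]),
    (true,[([(0,4,[(11,15)]),(0,1,[(4,4)])],[]),([(0,22,[(9,12)])],[3,3])],[1,1,1],false,1,0,[]),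
    (true,[([(0,2,[(16,21)])],[4])],[8,4,1,1,1,1,1],false,3,4,[5,7]),
    (false,[([(0,2,[(16,21)]),(0,7,[(4,5)])],[3,1,1,1])],[6,4],false,2,3,[3,4]),
    (true,[([(0,2,[(16,21)])],[4]),([(0,5,[(4,5),(3,3)])],[2,2,1,1])],[1,1,1],false,1,0,[2]),
    (true,[([(0,2,[(16,21)])],[4]),([(0,5,[(4,5),(3,3)]),(0,3,[(2,2)])],[2,1])],[1,1,1],false,1,0,[]),
    (false,[([(0,2,[(16,21)]),(0,7,[(4,5)])],[3,1,1,1]),([(0,9,[(4,4)])],[2,2,1,1])],[],false,1,0,[]),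
    (false,[([(0,2,[(16,21)]),(0,28,[(6,7)])],[3,1,1])],[6,3],false,2,1,[]),
    (false,[([(0,42,[(22,22)])],[6,5,2,1,1,1])],[4],false,1,0,[])]),
  ([13,9,6,5,4,3,2], [
    (false,[],[13,9,6,5,4,3,2],true,7,3,[10,15,21,22]),
    (true,[([(0,20,[(8,10)])],[])],[7,7,6,4,3,2,2,1],true,6,2,[10]),
    (true,[([(0,20,[(8,10)])],[]),([(0,6,[(7,10)])],[1,1,1])],[7,6,4,2],false,4,2,[6,9]),
    (true,[([(0,20,[(8,10)])],[1]),([(0,6,[(7,10)]),(0,1,[(5,6)])],[])],[7,4,2,2],false,3,4,[5]),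
    (true,[([(0,4,[(8,10),(4,5)])],[3,2]),([(0,6,[(7,10)]),(0,1,[(5,6)])],[])],[2,2,1,1],false,2,1,[]),
    (false,[([(0,6,[(8,10)]),(0,6,[(7,10)]),(0,6,[(7,9)])],[1])],[5,4,2],false,3,2,[]),
    (true,[([(0,4,[(11,15)])],[1,1])],[7,6,5,2,2,1,1,1],false,5,3,[8,12]),
    (true,[([(0,4,[(11,15)])],[1]),([(0,5,[(6,8)])],[1,1,1])],[7,5,2,1],true,4,2,[6,7]),
    (true,[([(0,4,[(11,15)])],[2]),([(0,5,[(6,8)]),(0,1,[(5,6)])],[])],[7,2,1,1],false,3,2,[]),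
    (false,[([(0,4,[(11,15)]),(0,4,[(6,8),(7,7)])],[2,1,1])],[5,3],false,1,0,[]),
    (true,[([(0,4,[(11,15)])],[1]),([(0,22,[(9,12)])],[2,2])],[7,2,1],false,3,1,[4]),
    (false,[([(0,4,[(11,15)]),(0,22,[(9,12)]),(0,9,[(4,4)])],[1])],[6,4],false,1,0,[]),
    (true,[([(0,2,[(16,21)])],[1])],[7,6,2,2,1,1,1],false,4,3,[6,7]),
    (true,[([(0,2,[(16,21)])],[]),([(0,1,[(5,6)])],[1,1,1,1])],[7,2,1,1],false,3,2,[]),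
    (false,[([(0,10,[(16,21),(7,7)])],[7,2,2,1,1,1])],[],false,1,0,[]),
    (false,[([(0,16,[(22,22)])],[6,3,2,2,1,1,1])],[4],false,1,0,[])]),
  ([13,12,6,5,4,2,1], [
    (false,[],[13,12,6,5,4,2,1],true,6,4,[10,15,21,22]),
    (true,[([(0,6,[(7,10)])],[1])],[7,6,5,4,2,2,2,2,2],false,5,4,[7,9,10]),
    (true,[([(0,6,[(7,10)])],[]),([(0,28,[(6,7)])],[4])],[7,6,5,2,2],false,4,4,[6,7]),
    (false,[([(0,6,[(7,10)]),(0,28,[(6,7)]),(0,1,[(5,6)])],[1])],[13,5,1],true,3,3,[6]),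
    (true,[([(0,6,[(7,10)])],[]),([(0,28,[(6,7)])],[4]),([(0,1,[(5,6)]),(0,1,[(4,6)])],[2])],[6,2],true,2,3,[3,4]),
    (true,[([(0,6,[(7,10)]),(0,3,[(3,3)])],[]),([(0,28,[(6,7)])],[4]),([(0,1,[(5,6)]),(0,1,[(4,6)])],[2])],[3,2],false,2,1,[]),
    (false,[([(0,6,[(7,10)]),(0,28,[(6,7)]),(0,1,[(5,6)])],[1]),([(0,1,[(4,6)]),(0,9,[(4,4)])],[2,1,1,1,1,1,1,1])],[],false,1,0,[]),
    (true,[([(0,25,[(7,10),(7,7)])],[6]),([(0,28,[(6,7)])],[4])],[6,2,1],true,3,2,[5]),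
    (true,[([(0,6,[(7,10)]),(0,0,[(7,7)])],[]),([(0,28,[(6,7)])],[4]),([(0,7,[(4,5)])],[3,1])],[3,2],false,2,1,[]),
    (true,[([(0,6,[(7,10)])],[1]),([(0,35,[(8,9)])],[5])],[7,5,4,2],false,4,2,[6,8,9]),
    (true,[([(0,6,[(7,10)]),(0,1,[(5,6)])],[]),([(0,35,[(8,9)])],[5])],[5,4,2,2],false,3,4,[4,5]),
    (true,[([(0,6,[(7,10)])],[1]),([(0,21,[(8,9),(4,4)]),(0,1,[(5,6)])],[])],[5,2,2,2,2],false,2,1,[]),
    (true,[([(0,4,[(7,10),(5,5)])],[]),([(0,35,[(8,9)])],[5]),([(0,1,[(5,6)])],[3,2,2,1])],[],false,1,0,[]),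
    (true,[([(0,6,[(7,10)])],[2,2]),([(0,25,[(8,9),(7,8)])],[6])],[2,2,2],false,1,0,[3]),
    (true,[([(0,6,[(7,10)]),(0,3,[(2,3)])],[]),([(0,35,[(8,9)])],[5,1]),([(0,0,[(7,8)])],[1,1])],[5],false,1,0,[2]),
    (true,[([(0,6,[(7,10)]),(0,3,[(2,3)])],[2]),([(0,35,[(8,9)])],[5]),([(0,6,[(7,8),(2,2)])],[4])],[],false,1,0,[]),
    (false,[([(0,10,[(7,10),(8,9),(9,9)])],[5,2,2,2,2,2])],[],false,1,0,[]),
    (true,[([(0,2,[(7,10),(10,10)])],[])],[7,5,2,2,2,2,2],false,3,5,[6,7]),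
    (true,[([(0,2,[(7,10),(10,10)])],[]),([(0,1,[(4,6)])],[3,2,2,1])],[2,2,2,2],false,1,0,[3,4]),
    (true,[([(0,6,[(7,10)])],[1]),([(0,21,[(10,10),(2,3)]),(0,1,[(4,6)])],[])],[5,2,2,2,2],false,2,2,[3]),
    (true,[([(0,2,[(7,10),(10,10)])],[]),([(0,1,[(4,6)]),(0,1,[(2,3),(3,3)])],[2])],[2,2,2,2],false,1,0,[]),
    (true,[([(0,2,[(7,10),(10,10)])],[]),([(0,1,[(4,6)]),(0,9,[(4,4)])],[3,1])],[2,2,2,2],false,1,0,[]),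
    (false,[([(0,10,[(7,10),(10,10),(7,7)])],[5,2,2,2,2,2])],[],false,1,0,[]),
    (true,[([(0,4,[(11,15)])],[])],[7,6,5,2,2,2,2,2],false,4,5,[6,8,10,12]),
    (false,[([(0,4,[(11,15)]),(0,1,[(5,6)])],[1,1,1,1])],[13,5],true,2,7,[3,6]),
    (true,[([(0,4,[(11,15)]),(0,3,[(3,3)])],[]),([(0,1,[(5,6)])],[3,2])],[6,2,2,2,2],false,2,5,[3]),
    (true,[([(0,4,[(11,15)])],[]),([(0,1,[(5,6)]),(0,1,[(3,3),(3,3)])],[2])],[6,2,2,2,2],false,2,3,[3]),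
    (true,[([(0,4,[(11,15)]),(0,3,[(3,3)])],[]),([(0,1,[(5,6)]),(0,1,[(3,3),(3,3)])],[])],[5,2,2,2,2],false,2,1,[]),
    (true,[([(0,4,[(11,15)])],[]),([(0,1,[(5,6)]),(0,1,[(4,6)])],[2])],[6,2,2,2,2],false,2,4,[3,5]),
    (true,[([(0,4,[(11,15)]),(0,3,[(3,3)])],[]),([(0,1,[(5,6)]),(0,1,[(4,6)])],[])],[5,2,2,2,2],false,2,2,[3]),
    (true,[([(0,4,[(11,15)]),(0,3,[(3,3)])],[]),([(0,1,[(5,6)]),(0,1,[(4,6)])],[]),([(0,3,[(3,3)])],[2,1,1])],[2,2,2],false,1,0,[]),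
    (true,[([(0,4,[(11,15)])],[]),([(0,1,[(5,6)]),(0,1,[(4,6)])],[2]),([(0,7,[(4,5)])],[3,1,1])],[2,2],false,1,0,[2]),
    (true,[([(0,4,[(11,15)]),(0,3,[(2,2)])],[]),([(0,1,[(5,6)]),(0,1,[(4,6)])],[]),([(0,7,[(4,5)])],[3,1])],[2,2],false,1,0,[]),
    (true,[([(0,4,[(11,15)])],[]),([(0,5,[(7,8)])],[4,2,2])],[6,2,2,2],false,2,5,[3,5,6]),
    (true,[([(0,4,[(11,15)]),(0,3,[(3,3)])],[]),([(0,5,[(7,8)])],[4,2])],[5,2,2,2],false,2,3,[3]),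
    (true,[([(0,4,[(11,15)]),(0,3,[(3,3)])],[]),([(0,0,[(7,8)]),(0,3,[(3,3)])],[])],[6,2,2,2,2],false,2,1,[]),
    (true,[([(0,4,[(11,15)])],[]),([(0,5,[(7,8)])],[4,2,2]),([(0,7,[(4,5)])],[3,1,1])],[2],false,1,0,[3]),
    (true,[([(0,4,[(11,15)]),(0,3,[(2,3)])],[]),([(0,5,[(7,8)])],[4,2]),([(0,7,[(4,5)])],[3,1])],[2],false,1,0,[2]),
    (true,[([(0,4,[(11,15)]),(0,3,[(2,3)])],[]),([(0,0,[(7,8)]),(0,3,[(2,2)])],[]),([(0,7,[(4,5)])],[3,1,1])],[2,2],false,1,0,[]),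
    (true,[([(0,2,[(11,15),(6,6)])],[]),([(0,5,[(7,8)])],[4,2,2])],[2,2,2],false,1,0,[]),
    (true,[([(0,4,[(11,15)])],[2]),([(0,20,[(9,10)])],[5,2])],[5,2,2],false,2,3,[4]),
    (true,[([(0,4,[(11,15)])],[5]),([(0,12,[(9,10),(3,4)])],[2,1])],[2,2,2],false,1,0,[2]),
    (true,[([(0,4,[(11,15)])],[5]),([(0,12,[(9,10),(3,4)]),(0,3,[(2,2)])],[])],[2,2,2],false,1,0,[]),
    (true,[([(0,4,[(11,15)])],[3]),([(0,39,[(11,12)])],[6])],[5,2],false,2,1,[]),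
    (true,[([(0,2,[(16,21)])],[])],[7,5,2,2,2,2,2],false,3,5,[6,7]),
    (true,[([(0,2,[(16,21)])],[]),([(0,1,[(4,6)])],[3,2,2,1])],[2,2,2,2],false,1,0,[2,3,4]),
    (true,[([(0,2,[(16,21)])],[]),([(0,1,[(4,6)]),(0,3,[(2,2)])],[3,2])],[2,2,2,2],false,1,0,[2]),
    (true,[([(0,2,[(16,21)])],[]),([(0,1,[(4,6)]),(1,1,[(2,2),(2,2)])],[2])],[2,2,2,2],false,1,0,[2]),
    (true,[([(0,2,[(16,21)])],[]),([(0,1,[(4,6)]),(1,1,[(2,2),(2,2),(2,2)])],[2])],[2,2,2,2],false,1,0,[]),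
    (true,[([(0,2,[(16,21)])],[]),([(0,1,[(4,6)]),(0,3,[(3,3)])],[3,2])],[2,2,2,2],false,1,0,[2]),
    (true,[([(0,2,[(16,21)])],[]),([(0,1,[(4,6)]),(0,1,[(3,3),(2,2)])],[2])],[2,2,2,2],false,1,0,[]),
    (true,[([(0,2,[(16,21)])],[]),([(0,1,[(4,6)]),(0,9,[(4,4)])],[3,1])],[2,2,2,2],false,1,0,[]),
    (false,[([(0,10,[(16,21),(7,7)])],[5,2,2,2,2,2])],[],false,1,0,[]),
    (false,[([(0,32,[(22,22)])],[5,5,4,3,2,2])],[],false,1,0,[])]),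
  ([14,13,5,4,3,2,1], [
    (false,[],[14,13,5,4,3,2,1],true,6,4,[10,14,19,22]),
    (true,[([(0,6,[(7,10)])],[])],[7,6,5,2,2,2,2,2,2,2],false,4,5,[5,7,9,10]),
    (true,[([(0,4,[(7,10),(5,5)])],[])],[7,6,2,2,2,2,2,2,2],false,3,6,[4,5]),
    (true,[([(0,4,[(7,10),(5,5)]),(0,9,[(4,4)])],[])],[5,4,2,2,2,2,2,2,2],false,3,4,[4]),
    (true,[([(0,4,[(7,10),(5,5)]),(0,9,[(4,4)])],[]),([(0,9,[(4,4)])],[])],[5,4,2,2,2,2,2],false,3,4,[4]),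
    (true,[([(0,4,[(7,10),(5,5)]),(0,9,[(4,4)])],[]),([(0,9,[(4,4)])],[]),([(0,9,[(4,4)])],[])],[5,4,2,2,2],false,3,2,[]),
    (true,[([(0,6,[(7,10)])],[]),([(0,7,[(5,5)]),(0,7,[(5,5)])],[])],[7,5,2,2,2,2,2],false,3,5,[4,5]),
    (true,[([(0,6,[(7,10)]),(0,9,[(4,4)])],[]),([(0,7,[(5,5)]),(0,7,[(5,5)])],[1])],[4,3,2,2,2,2,2],false,3,3,[4]),
    (true,[([(0,4,[(7,10),(5,5)])],[]),([(0,35,[(5,5),(4,4)])],[5]),([(0,9,[(4,4)])],[])],[7,2],false,2,1,[]),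
    (true,[([(0,4,[(7,10),(5,5)])],[]),([(0,7,[(5,5)]),(0,7,[(5,5)])],[])],[7,2,2,2,2,2],false,2,3,[3,4]),
    (true,[([(0,4,[(7,10),(5,5)]),(0,3,[(3,3)])],[]),([(0,7,[(5,5)]),(0,7,[(5,5)])],[])],[4,2,2,2,2,2],false,2,1,[]),
    (true,[([(0,4,[(7,10),(5,5)])],[2]),([(0,20,[(5,5),(5,5)])],[5,2]),([(0,9,[(4,4)])],[])],[2,2],false,1,0,[]),
    (true,[([(0,6,[(7,10)])],[]),([(0,28,[(6,7)])],[4])],[7,6,2,2,2,2],false,3,6,[4,5,6,7]),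
    (false,[([(0,6,[(7,10)]),(0,28,[(6,7)]),(0,7,[(4,4)])],[1,1])],[14,3,1],true,3,3,[4]),
    (true,[([(0,6,[(7,10)]),(0,9,[(4,4)])],[]),([(0,28,[(6,7)])],[4,1,1]),([(0,9,[(4,4)])],[])],[4,3,2,2],false,3,3,[4]),
    (true,[([(0,6,[(7,10)])],[1]),([(0,8,[(6,7),(4,4)]),(0,9,[(4,4)])],[4]),([(0,9,[(4,4)])],[])],[2,2,2,2],false,1,0,[2]),
    (true,[([(0,6,[(7,10)])],[1,1]),([(0,8,[(6,7),(4,4)]),(0,3,[(2,2)])],[4]),([(0,9,[(4,4)])],[]),([(0,9,[(4,4)])],[])],[2,2],false,1,0,[]),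
    (false,[([(0,6,[(7,10)]),(0,28,[(6,7)]),(0,7,[(5,5)])],[1,1])],[14,3,1],true,3,3,[5]),
    (true,[([(0,6,[(7,10)])],[]),([(0,28,[(6,7)])],[4]),([(0,7,[(5,5)]),(0,7,[(4,5)])],[])],[7,2,2],false,2,3,[3,4]),
    (true,[([(0,4,[(7,10),(5,5)]),(0,3,[(3,3)])],[]),([(0,28,[(6,7)])],[4,1]),([(0,7,[(4,5)])],[3])],[2,2],false,1,0,[2]),
    (true,[([(0,4,[(7,10),(5,5)])],[]),([(0,28,[(6,7)])],[4,1]),([(0,7,[(4,5)]),(0,7,[(3,3),(2,2)])],[1])],[2,2],false,1,0,[]),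
    (true,[([(0,4,[(7,10),(5,5)])],[5]),([(0,28,[(6,7)]),(0,7,[(4,5)])],[]),([(0,9,[(4,4)])],[])],[2,2,2],false,1,0,[]),
    (false,[([(0,6,[(7,10)]),(0,28,[(6,7)]),(0,28,[(6,6)])],[1])],[14,2,1],true,3,2,[4,6]),
    (true,[([(0,6,[(7,10)]),(0,1,[(6,6)])],[]),([(0,28,[(6,7)])],[4,1]),([(0,9,[(4,4)])],[])],[4,2,2,2],false,2,2,[3]),
    (true,[([(0,6,[(7,10)]),(0,3,[(3,3)])],[4]),([(0,12,[(6,7),(6,6)])],[1]),([(0,9,[(4,4)])],[])],[2,2,2],false,1,0,[]),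
    (true,[([(0,6,[(7,10)])],[2]),([(0,28,[(6,7)])],[4,1]),([(0,39,[(6,6),(5,6)])],[6])],[],false,1,0,[2]),
    (true,[([(0,6,[(7,10)]),(0,3,[(2,2)])],[]),([(0,28,[(6,7)])],[4]),([(0,39,[(6,6),(5,6)])],[6])],[],false,1,0,[]),
    (false,[([(0,6,[(7,10)]),(0,28,[(6,7)]),(0,28,[(7,7)])],[1])],[14,2,1],true,3,2,[5]),
    (true,[([(0,6,[(7,10)])],[2]),([(0,28,[(6,7)])],[4,1]),([(0,39,[(7,7),(4,5)])],[6])],[],false,1,0,[2]),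
    (true,[([(0,6,[(7,10)]),(0,3,[(2,2)])],[]),([(0,28,[(6,7)])],[4]),([(0,39,[(7,7),(4,5)])],[6])],[],false,1,0,[]),
    (true,[([(0,6,[(7,10)])],[]),([(0,35,[(8,9)])],[5])],[7,5,2,2,2],false,3,5,[4,5,7,9]),
    (true,[([(0,6,[(7,10)]),(0,9,[(4,4)])],[]),([(0,35,[(8,9)])],[5,1])],[4,3,2,2,2],false,3,3,[4]),
    (false,[([(0,6,[(7,10)]),(0,21,[(8,9),(4,4)]),(0,9,[(4,4)])],[2,2,2,2])],[4,2,1],false,3,1,[]),
    (true,[([(0,4,[(7,10),(5,5)])],[]),([(0,35,[(8,9)])],[5])],[7,2,2,2],false,2,4,[3,5]),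
    (true,[([(0,4,[(7,10),(5,5)]),(0,3,[(3,3)])],[]),([(0,35,[(8,9)])],[5])],[4,2,2,2],false,2,2,[3]),
    (true,[([(0,4,[(7,10),(5,5)]),(0,3,[(3,3)])],[]),([(0,35,[(8,9)])],[5]),([(0,3,[(3,3)])],[2,1])],[2,2],false,1,0,[]),
    (true,[([(0,6,[(7,10)])],[]),([(0,35,[(8,9)])],[5]),([(0,7,[(5,5)]),(0,7,[(4,5)])],[1])],[5,2],false,2,1,[]),
    (false,[([(0,6,[(7,10)]),(0,35,[(8,9)]),(0,28,[(6,7)])],[])],[14,2],true,2,3,[3,4]),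
    (true,[([(0,6,[(7,10)])],[2]),([(0,39,[(8,9),(3,3)])],[6]),([(0,28,[(6,7)])],[4,1])],[],false,1,0,[2]),
    (true,[([(0,6,[(7,10)]),(0,3,[(2,2)])],[]),([(0,39,[(8,9),(3,3)])],[6]),([(0,28,[(6,7)])],[4])],[],false,1,0,[]),
    (false,[([(0,6,[(7,10)]),(0,35,[(8,9)]),(0,28,[(6,7)])],[]),([(0,9,[(4,4)])],[1,1,1,1,1,1,1,1,1,1,1,1])],[],false,1,0,[]),
    (false,[([(0,6,[(7,10)]),(0,35,[(8,9)]),(0,35,[(8,9)])],[])],[13,1],false,2,1,[]),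
    (true,[([(0,6,[(7,10)])],[]),([(0,38,[(10,10)])],[6])],[6,5,2,2],false,3,4,[4,6,7]),
    (true,[([(0,6,[(7,10)]),(0,9,[(4,4)])],[]),([(0,38,[(10,10)])],[6])],[4,3,2,2],false,3,3,[4]),
    (false,[([(0,10,[(7,10),(10,10),(4,4),(4,4)])],[2,2,2,2,2,2,2])],[],false,1,0,[]),
    (true,[([(0,6,[(7,10)])],[]),([(0,38,[(10,10)])],[6]),([(0,1,[(5,6)])],[3,2,2])],[2],false,1,0,[3]),
    (false,[([(0,6,[(7,10)]),(0,21,[(10,10),(2,3)])],[2,2,2,2,2,2]),([(0,1,[(5,6)])],[1])],[],false,1,0,[2]),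
    (true,[([(0,6,[(7,10)]),(0,3,[(2,3)])],[]),([(0,38,[(10,10)])],[6]),([(0,5,[(5,6),(2,2)])],[4])],[],false,1,0,[]),
    (false,[([(0,10,[(7,10),(10,10),(7,7)])],[2,2,2,2,2,2,2])],[],false,1,0,[]),
    (true,[([(0,12,[(11,14)])],[])],[7,6,3,2,2,2,2,2,2],false,4,3,[6,8,10,12]),
    (true,[([(0,12,[(11,14)])],[]),([(0,1,[(5,6)])],[3,1,1])],[7,2,2,2,2,2],false,2,7,[3,6]),
    (true,[([(0,12,[(11,14)]),(0,3,[(3,3)])],[]),([(0,1,[(5,6)])],[3])],[6,2,2,2,2,2],false,2,5,[3]),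
    (true,[([(0,12,[(11,14)])],[1]),([(0,1,[(5,6)]),(0,1,[(3,3),(3,3)])],[2])],[3,2,2,2,2,2],false,2,3,[3]),
    (true,[([(0,12,[(11,14)]),(0,3,[(3,3)])],[]),([(0,1,[(5,6)]),(0,1,[(3,3),(3,3)])],[])],[3,2,2,2,2,2],false,2,1,[]),
    (true,[([(0,12,[(11,14)])],[1]),([(0,1,[(5,6)]),(0,1,[(4,6)])],[2])],[3,2,2,2,2,2],false,1,0,[2,3,4,5]),
    (true,[([(0,12,[(11,14)]),(0,3,[(2,2)])],[]),([(0,1,[(5,6)]),(0,1,[(4,6)])],[])],[3,2,2,2,2,2],false,2,3,[]),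
    (true,[([(0,12,[(11,14)]),(0,3,[(3,3)])],[]),([(0,1,[(5,6)]),(0,1,[(4,6)])],[])],[3,2,2,2,2,2],false,2,2,[3]),
    (true,[([(0,12,[(11,14)]),(0,3,[(3,3)])],[]),([(0,1,[(5,6)]),(0,1,[(4,6)])],[]),([(0,3,[(3,3)])],[2])],[2,2,2,2],false,1,0,[]),
    (true,[([(0,12,[(11,14)])],[1]),([(0,1,[(5,6)]),(0,1,[(4,6)])],[2]),([(0,9,[(4,4)])],[])],[3,2,2,2],false,2,1,[]),
    (true,[([(0,14,[(11,14),(5,5)])],[]),([(0,1,[(5,6)]),(0,1,[(4,6)])],[1])],[2,2,2,2,2],false,1,0,[]),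
    (true,[([(0,12,[(11,14)])],[]),([(0,5,[(7,8)])],[4,1])],[7,2,2,2,2],false,2,5,[3,5,6]),
    (true,[([(0,40,[(11,14)])],[6]),([(0,0,[(7,8)]),(0,3,[(3,3)])],[2])],[2,2,2,2,1],true,2,3,[3]),
    (true,[([(0,12,[(11,14)]),(0,3,[(3,3)])],[]),([(0,0,[(7,8)]),(0,3,[(3,3)])],[1])],[3,2,2,2,2,2],false,2,1,[]),
    (true,[([(0,12,[(11,14)])],[]),([(0,5,[(7,8)])],[4,1]),([(0,7,[(4,5)])],[3,1,1,1])],[2,2],false,1,0,[3]),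
    (true,[([(0,12,[(11,14)]),(0,3,[(2,3)])],[]),([(0,5,[(7,8)])],[4,1]),([(0,7,[(4,5)])],[3])],[2,2],false,1,0,[2]),
    (true,[([(0,12,[(11,14)]),(0,3,[(2,3)])],[]),([(0,20,[(7,8),(2,2)])],[5]),([(0,7,[(4,5)])],[3])],[2],false,1,0,[]),
    (false,[([(0,10,[(11,14),(7,8),(6,6)])],[2,2,2,2,2,2,2])],[],false,1,0,[]),
    (true,[([(0,12,[(11,14)])],[]),([(0,20,[(9,10)])],[5])],[7,2,2,2],false,2,3,[3,4]),
    (false,[([(0,12,[(11,14)]),(0,21,[(9,10),(3,3)])],[2,2,2,2,2])],[3,2],false,2,1,[]),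
    (false,[([(0,10,[(11,14),(9,10),(4,4)])],[2,2,2,2,2,2,2])],[],false,1,0,[]),
    (true,[([(0,40,[(11,14)])],[6]),([(0,13,[(11,12)])],[2,1])],[2,2,2,1],false,2,1,[]),
    (true,[([(0,14,[(15,19)])],[])],[7,4,2,2,2,2,2,2],false,3,4,[5,7,8]),
    (true,[([(0,14,[(15,19)])],[]),([(0,7,[(4,5)])],[3])],[7,2,2,2,2],false,2,4,[3,5]),
    (true,[([(0,14,[(15,19)])],[]),([(0,5,[(4,5),(3,3)])],[4,2,1])],[2,2,2,2],false,1,0,[3]),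
    (true,[([(0,14,[(15,19)])],[]),([(0,5,[(4,5),(3,3)]),(0,3,[(2,3)])],[4])],[2,2,2,2],false,1,0,[2]),
    (true,[([(0,14,[(15,19)])],[]),([(0,7,[(4,5)]),(0,7,[(3,3),(2,2)])],[1]),([(0,3,[(2,3)])],[2,1])],[2,2,2],false,1,0,[]),
    (true,[([(0,14,[(15,19)])],[]),([(0,7,[(4,5)]),(0,7,[(4,5)])],[1])],[4,2,2,2,2],false,2,1,[]),
    (true,[([(0,14,[(15,19)])],[]),([(0,28,[(6,7)])],[4,1,1])],[4,2,2,2],false,2,2,[3]),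
    (true,[([(0,14,[(15,19)])],[]),([(0,20,[(6,7),(3,3)])],[5,2])],[2,2,2],false,1,0,[]),
    (false,[([(0,10,[(15,19),(8,8)])],[2,2,2,2,2,2,2])],[],false,1,0,[]),
    (true,[([(0,32,[(20,22)])],[])],[5,4,3,2,2,2,2],false,3,2,[])]),
  ([15,6,5,4,3,2,1,1,1,1,1,1,1], [
    (false,[],[15,6,5,4,3,2,1,1,1,1,1,1,1],false,6,4,[10,15,20,22]),
    (false,[([(0,6,[(7,10)])],[])],[15,6,5,1,1,1,1,1,1],false,4,5,[6,8,10]),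
    (false,[([(0,6,[(7,10)]),(0,1,[(5,6)])],[1,1,1,1,1,1,1,1])],[6,4,2,1,1,1,1,1,1],false,1,0,[3,5,6]),
    (false,[([(0,6,[(7,10)]),(0,1,[(5,6)]),(0,3,[(2,3)])],[1,1,1,1,1,1])],[5,4,2,1,1,1,1,1,1],false,1,0,[2,3]),
    (true,[([(0,6,[(7,10)]),(0,5,[(5,6),(2,2)]),(0,3,[(2,3)])],[1,1,1])],[5,4,1,1,1,1,1,1,1,1,1],false,2,9,[]),
    (true,[([(0,6,[(7,10)]),(0,1,[(5,6)]),(0,3,[(2,3)])],[1,1,1,1]),([(0,3,[(3,3)])],[])],[5,4,1,1,1,1,1,1,1],false,3,4,[]),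
    (false,[([(0,6,[(7,10)]),(0,1,[(5,6)]),(0,7,[(4,5)])],[1,1,1,1,1])],[5,3,2,1,1,1,1,1,1],false,4,2,[5]),
    (false,[([(0,6,[(7,10)]),(0,1,[(5,6)]),(0,7,[(4,5)])],[1,1,1,1,1]),([(0,7,[(5,5)])],[])],[5,2,1,1,1,1],false,3,2,[5]),
    (false,[([(0,6,[(7,10)]),(0,1,[(5,6)]),(0,7,[(4,5)])],[1,1,1,1,1]),([(0,20,[(4,5),(5,5)])],[])],[3,1,1,1],false,2,1,[]),
    (false,[([(0,6,[(7,10)]),(0,39,[(5,6),(6,6)])],[1,1,1,1,1])],[6,4,1,1,1,1,1],false,3,4,[6]),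
    (false,[([(0,6,[(7,10)]),(0,1,[(4,6)])],[1,1,1,1,1,1,1,1]),([(0,39,[(5,6),(6,6)])],[])],[4,1,1],true,2,3,[4]),
    (false,[([(0,6,[(7,10)])],[2]),([(0,1,[(5,6)]),(0,20,[(6,6),(3,4)]),(0,1,[(4,6)])],[1,1,1,1])],[1,1,1,1],false,1,0,[2]),
    (false,[([(0,6,[(7,10)])],[2]),([(0,39,[(5,6),(6,6)]),(0,1,[(4,6)]),(0,1,[(3,4),(2,2)])],[1,1,1])],[1,1,1],false,1,0,[]),
    (true,[([(0,6,[(7,10)]),(0,5,[(7,8)])],[1,1,1,1,1])],[6,4,1,1,1,1,1,1,1,1,1],false,3,4,[5,7,8]),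
    (false,[([(0,6,[(7,10)]),(0,5,[(7,8)]),(0,7,[(4,5)])],[1,1,1,1])],[5,3,1,1,1,1,1,1,1],false,3,3,[5]),
    (false,[([(0,6,[(7,10)]),(0,5,[(7,8)]),(0,7,[(4,5)])],[1,1,1,1]),([(0,7,[(4,5)])],[])],[5,1,1,1,1,1],false,2,3,[4]),
    (false,[([(0,6,[(7,10)]),(0,22,[(7,8),(3,4)])],[1,1,1,1,1,1]),([(0,7,[(4,5)])],[]),([(0,7,[(4,5)])],[1,1])],[1,1],false,1,0,[2]),
    (false,[([(0,6,[(7,10)]),(0,7,[(4,5)]),(0,7,[(4,5)]),(0,3,[(2,2)])],[1,1,1]),([(0,22,[(7,8),(3,4)])],[])],[1,1,1,1],false,1,0,[]),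
    (false,[([(0,6,[(7,10)]),(0,5,[(7,8)]),(0,28,[(6,7)])],[1,1,1])],[5,2,1,1,1,1,1,1,1],false,3,2,[5]),
    (false,[([(0,6,[(7,10)]),(0,5,[(7,8)]),(0,28,[(6,7)])],[1,1,1]),([(0,7,[(4,5)])],[1,1])],[2,1,1,1,1,1],false,2,1,[]),
    (false,[([(0,6,[(7,10)]),(0,43,[(7,8),(8,8)])],[1,1,1])],[6,4,1,1,1],false,3,2,[]),
    (false,[([(0,6,[(7,10)]),(0,20,[(9,10)])],[1,1,1,1,1,1])],[6,4,1,1,1,1,1,1],false,3,4,[6,8]),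
    (true,[([(0,6,[(7,10)]),(0,1,[(4,6)])],[1,1,1,1,1,1]),([(0,20,[(9,10)])],[1])],[4,1,1,1,1,1],false,2,4,[4,5]),
    (false,[([(0,6,[(7,10)]),(0,40,[(9,10),(3,4)])],[1,1,1,1,1]),([(0,1,[(4,6)])],[2,1])],[1,1,1,1],false,1,0,[2,3]),
    (false,[([(0,6,[(7,10)]),(0,40,[(9,10),(3,4)])],[1,1,1,1,1]),([(0,1,[(4,6)]),(0,3,[(2,2)])],[])],[1,1,1,1],false,1,0,[2]),
    (false,[([(0,6,[(7,10)])],[2]),([(0,39,[(9,10),(2,2)]),(0,1,[(4,6)]),(0,1,[(3,4),(2,2)])],[1,1,1])],[1,1,1],false,1,0,[]),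
    (false,[([(0,6,[(7,10)]),(0,40,[(9,10),(3,4)])],[1,1,1,1,1]),([(0,1,[(4,6)]),(0,3,[(3,3)])],[])],[1,1,1,1],false,1,0,[]),
    (false,[([(0,6,[(7,10)]),(0,44,[(9,10),(5,5)])],[1,1,1,1,1]),([(0,1,[(4,6)])],[2])],[1,1,1,1],false,1,0,[]),
    (false,[([(0,6,[(7,10)]),(0,45,[(9,10),(7,8)])],[1,1,1])],[5,3,1,1,1],false,2,1,[]),
    (false,[([(0,4,[(11,15)])],[])],[15,6,1,1,1,1,1,1],false,3,6,[5,7,10,12]),
    (true,[([(0,4,[(11,15)]),(0,7,[(4,5)])],[1,1,1,1,1])],[6,3,1,1,1,1,1,1,1,1],false,2,8,[3,5]),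
    (false,[([(0,4,[(11,15)]),(0,7,[(4,5)]),(0,3,[(3,3)])],[1,1,1,1,1])],[5,3,1,1,1,1,1,1],false,3,3,[]),
    (false,[([(0,4,[(11,15)]),(0,7,[(4,5)]),(0,7,[(4,5)])],[1,1,1,1])],[4,3,1,1,1,1,1,1],false,3,3,[5]),
    (false,[([(0,4,[(11,15)]),(0,7,[(4,5)]),(0,7,[(4,5)])],[1,1,1,1]),([(0,7,[(4,5)])],[])],[4,1,1,1,1],false,2,2,[3]),
    (false,[([(0,4,[(11,15)]),(0,7,[(4,5)]),(0,7,[(4,5)])],[1,1,1,1]),([(0,7,[(4,5)])],[]),([(0,3,[(3,3)])],[1,1])],[1,1,1],false,1,0,[]),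
    (false,[([(0,4,[(11,15)]),(0,28,[(6,7)])],[1,1,1,1,1,1])],[6,2,1,1,1,1,1,1],false,2,6,[3,6,7]),
    (false,[([(0,4,[(11,15)]),(0,28,[(6,7)]),(0,3,[(3,3)])],[1,1,1,1])],[5,2,1,1,1,1,1,1],false,3,2,[]),
    (false,[([(0,4,[(11,15)]),(0,1,[(4,6)])],[1,1,1,1,1,1,1]),([(0,28,[(6,7)])],[1])],[3,1,1,1],false,2,3,[3,4]),
    (false,[([(0,4,[(11,15)]),(0,28,[(6,7)]),(0,3,[(3,3)])],[1,1,1,1]),([(0,1,[(4,6)])],[1,1])],[1,1,1,1,1],false,1,0,[2]),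
    (false,[([(0,4,[(11,15)]),(0,28,[(6,7)]),(0,7,[(3,3),(2,2)])],[1,1,1]),([(0,1,[(4,6)])],[1])],[1,1,1,1,1],false,1,0,[]),
    (false,[([(0,4,[(11,15)]),(0,28,[(6,7)]),(0,7,[(4,4)])],[1,1,1]),([(0,1,[(4,6)])],[1])],[1,1,1,1,1],false,1,0,[]),
    (false,[([(0,4,[(11,15)]),(0,46,[(6,7),(7,7)])],[1,1,1])],[5,1,1,1,1,1],false,1,0,[]),
    (false,[([(0,4,[(11,15)]),(0,20,[(8,10)])],[1,1,1,1,1])],[5,1,1,1,1,1,1,1],false,2,4,[3,4,5]),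
    (false,[([(0,4,[(11,15)]),(0,20,[(8,10)])],[1,1,1,1,1]),([(0,3,[(3,3)])],[1,1,1])],[1,1,1,1,1,1],false,1,0,[3]),
    (false,[([(0,4,[(11,15)])],[]),([(0,20,[(8,10)]),(0,3,[(3,3)]),(0,3,[(2,3)])],[2,2,1,1,1,1])],[1,1,1],false,1,0,[2]),
    (false,[([(0,4,[(11,15)])],[]),([(0,20,[(8,10)]),(0,3,[(3,3)]),(0,3,[(2,3)]),(0,3,[(2,2)])],[2,1,1,1])],[1,1,1],false,1,0,[]),
    (false,[([(0,4,[(11,15)]),(0,20,[(8,10)])],[1,1,1,1,1]),([(0,7,[(4,4)])],[1,1])],[1,1,1,1,1],false,1,0,[2]),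
    (false,[([(0,4,[(11,15)])],[]),([(0,20,[(8,10)]),(0,9,[(4,4)]),(0,3,[(2,2)])],[2,1,1,1,1,1])],[1,1,1],false,1,0,[]),
    (false,[([(0,4,[(11,15)]),(0,20,[(8,10)])],[1,1,1,1,1]),([(0,7,[(5,5)])],[1,1])],[1,1,1,1,1],false,1,0,[]),
    (false,[([(0,4,[(11,15)]),(0,39,[(11,12)])],[1,1,1,1])],[5,1,1,1,1,1,1],false,2,1,[]),
    (false,[([(0,2,[(16,20)])],[])],[15,1,1,1,1,1,1],false,2,6,[3,5,7]),
    (false,[([(0,47,[(16,20),(3,3)])],[1,1,1,1,1,1,1,1])],[6,1,1,1,1,1],false,2,4,[3]),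
    (false,[([(0,47,[(16,20),(3,3)]),(0,3,[(3,3)])],[1,1,1,1,1,1])],[5,1,1,1,1,1],false,2,2,[3]),
    (false,[([(0,47,[(16,20),(3,3)]),(0,3,[(3,3)])],[1,1,1,1,1,1]),([(0,3,[(3,3)])],[1,1,1])],[1,1,1,1],false,1,0,[]),
    (false,[([(0,2,[(16,20)]),(0,7,[(4,5)])],[1,1,1,1,1,1])],[4,1,1,1,1,1,1],false,2,3,[3,4]),
    (false,[([(0,47,[(16,20),(3,3)]),(0,7,[(4,5)])],[1,1,1,1,1])],[4,1,1,1,1,1],false,2,1,[]),
    (false,[([(0,2,[(16,20)]),(0,7,[(4,5)])],[1,1,1,1,1,1]),([(0,7,[(4,4)])],[1])],[1,1,1,1],false,1,0,[]),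
    (false,[([(0,2,[(16,20)]),(0,28,[(6,7)])],[1,1,1,1,1])],[3,1,1,1,1,1,1],false,2,1,[]),
    (false,[([(0,48,[(21,22)])],[4,3,1,1])],[6,5],false,2,1,[])]),
  ([15,8,7,6,3,2,1], [
    (false,[],[15,8,7,6,3,2,1],true,6,5,[10,15,21,22]),
    (true,[([(0,6,[(7,10)])],[])],[7,6,5,4,4,1,1,1,1,1,1],false,5,5,[8,10]),
    (true,[([(0,6,[(7,10)])],[]),([(0,5,[(6,8)])],[2,2])],[7,5,4,1,1,1,1],false,4,4,[6,8]),
    (true,[([(0,6,[(7,10)]),(0,1,[(5,6)])],[]),([(0,5,[(6,8)])],[])],[6,4,4,1,1,1,1],false,3,4,[6]),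
    (true,[([(0,6,[(7,10)]),(0,1,[(5,6)])],[]),([(0,5,[(6,8)])],[]),([(0,1,[(4,6)])],[2,2,1])],[4,1,1,1],false,2,3,[3,4]),
    (true,[([(0,6,[(7,10)]),(0,1,[(5,6)])],[]),([(0,5,[(6,8)])],[]),([(0,1,[(4,6)]),(0,3,[(3,3)])],[2])],[4,1,1,1],false,2,1,[]),
    (true,[([(0,6,[(7,10)]),(0,1,[(5,6)])],[]),([(0,5,[(6,8)]),(0,9,[(4,4)])],[]),([(0,1,[(4,6)])],[1])],[4,1,1,1],false,1,0,[]),
    (true,[([(0,6,[(7,10)]),(0,0,[(7,8)])],[]),([(0,5,[(6,8)])],[])],[5,4,3,1,1,1,1],false,4,3,[5]),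
    (true,[([(0,4,[(7,10),(5,5)])],[]),([(0,5,[(6,8)])],[2,2]),([(0,5,[(7,8)])],[2,2,1])],[1,1],false,1,0,[]),
    (true,[([(0,6,[(7,10)])],[]),([(0,20,[(9,10)])],[2,2])],[6,5,4,1,1,1],false,4,3,[7,8]),
    (true,[([(0,6,[(7,10)])],[2,1]),([(0,25,[(9,10),(5,7)])],[4])],[4,1,1,1,1],false,2,3,[3,4]),
    (true,[([(0,6,[(7,10)]),(0,3,[(3,3)])],[]),([(0,25,[(9,10),(5,7)])],[4])],[4,1,1,1,1],false,2,1,[]),
    (true,[([(0,6,[(7,10)])],[2,1]),([(0,25,[(9,10),(5,7)])],[4]),([(0,7,[(4,4)])],[1])],[1,1],false,1,0,[]),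
    (false,[([(0,10,[(7,10),(9,10),(8,8)])],[4,4,1,1,1,1,1,1])],[],false,1,0,[]),
    (true,[([(0,4,[(11,15)])],[])],[7,6,4,4,1,1,1,1,1,1],false,4,6,[6,10,12]),
    (true,[([(0,4,[(11,15)])],[]),([(0,1,[(5,6)])],[2,2,1])],[7,4,1,1,1,1,1],false,3,4,[6]),
    (true,[([(0,4,[(11,15)])],[4]),([(0,1,[(5,6)]),(0,1,[(4,6)])],[1])],[4,1,1,1,1,1,1],false,2,4,[3,5]),
    (true,[([(0,4,[(11,15)])],[4]),([(0,1,[(5,6)]),(0,1,[(4,6)])],[1]),([(0,3,[(3,3)])],[1,1])],[1,1,1,1,1],false,1,0,[3]),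
    (true,[([(0,4,[(11,15)])],[]),([(0,1,[(5,6)]),(0,3,[(3,3)]),(0,3,[(2,3)])],[]),([(0,1,[(4,6)])],[2,2,1])],[1,1,1,1],false,1,0,[2]),
    (true,[([(0,4,[(11,15)])],[]),([(0,5,[(5,6),(2,2)]),(0,3,[(3,3)])],[2]),([(0,1,[(4,6)]),(0,3,[(2,3)])],[2])],[1,1,1],false,1,0,[]),
    (true,[([(0,4,[(11,15)])],[4]),([(0,1,[(5,6)]),(0,1,[(4,6)])],[1]),([(0,7,[(4,5)])],[1])],[1,1,1,1],false,1,0,[2]),
    (true,[([(0,4,[(11,15)])],[4]),([(0,5,[(5,6),(2,2)]),(0,1,[(4,6)])],[]),([(0,7,[(4,5)])],[1])],[1,1,1],false,1,0,[]),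
    (false,[([(0,4,[(11,15)]),(0,6,[(7,10)])],[3,1,1,1,1,1])],[7,2],false,1,0,[2,3,5,6]),
    (true,[([(0,4,[(11,15)])],[4]),([(0,6,[(7,10)]),(0,3,[(2,2)])],[1])],[4,1,1,1,1,1],false,2,4,[]),
    (true,[([(0,4,[(11,15)])],[4]),([(0,6,[(7,10)]),(0,3,[(3,3)])],[1])],[4,1,1,1,1,1],false,2,3,[3]),
    (false,[([(0,4,[(11,15)]),(0,6,[(7,10)])],[3,1,1,1,1,1]),([(0,3,[(3,3)]),(0,3,[(3,3)])],[1,1,1])],[],false,1,0,[2]),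
    (false,[([(0,4,[(11,15)]),(0,6,[(7,10)]),(0,7,[(3,3),(2,2)])],[1,1,1]),([(0,3,[(3,3)])],[2,1,1,1,1])],[],false,1,0,[]),
    (false,[([(0,4,[(11,15)]),(0,6,[(7,10)]),(0,7,[(4,5)])],[1,1,1])],[7,2],false,2,2,[3]),
    (false,[([(0,4,[(11,15)]),(0,6,[(7,10)]),(0,7,[(4,5)])],[1,1,1]),([(0,3,[(3,3)])],[2,1,1,1,1])],[],false,1,0,[]),
    (true,[([(0,4,[(11,15)])],[]),([(0,6,[(7,10)])],[3,3,2]),([(0,28,[(6,6)])],[])],[1,1],false,1,0,[]),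
    (true,[([(0,4,[(11,15)])],[3]),([(0,39,[(11,12)])],[2])],[4,4,1,1],false,2,1,[]),
    (true,[([(0,2,[(16,21)])],[])],[7,4,4,1,1,1,1,1,1],false,3,6,[6,7]),
    (true,[([(0,2,[(16,21)])],[]),([(0,1,[(4,6)])],[2,2,1,1])],[4,1,1,1,1,1],false,2,3,[3,4]),
    (true,[([(0,2,[(16,21)])],[]),([(0,1,[(4,6)]),(0,3,[(3,3)])],[2,1])],[4,1,1,1,1,1],false,2,1,[]),
    (false,[([(0,2,[(16,21)]),(0,1,[(4,6)]),(0,7,[(4,4)])],[1,1,1])],[7],false,1,0,[]),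
    (false,[([(0,10,[(16,21),(7,7)])],[4,4,1,1,1,1,1,1])],[],false,1,0,[]),
    (false,[([(0,42,[(22,22)])],[6,5,3,2,1,1,1,1])],[],false,1,0,[])]),
  ([15,12,5,4,3,2,1], [
    (false,[],[15,12,5,4,3,2,1],true,7,3,[10,15,21,22]),
    (true,[([(0,20,[(8,10)])],[])],[7,6,4,3,2,2,2,2,2,2],false,5,3,[8,10]),
    (true,[([(0,20,[(8,10)])],[5]),([(0,5,[(6,8)])],[1])],[7,4,2,2,2,1],true,4,3,[6,8]),
    (true,[([(0,20,[(8,10)])],[4]),([(0,5,[(6,8)]),(0,1,[(5,6)])],[])],[5,2,2,2,2,1],true,3,3,[6]),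
    (true,[([(0,20,[(8,10)])],[5]),([(0,5,[(6,8)]),(0,1,[(5,6)])],[]),([(0,1,[(4,6)])],[1,1])],[2,2,1],true,2,2,[3]),
    (true,[([(0,20,[(8,10)])],[5]),([(0,5,[(6,8)]),(0,1,[(5,6)])],[]),([(0,1,[(4,6)])],[1,1]),([(0,3,[(3,3)])],[])],[2],false,1,0,[]),
    (false,[([(0,6,[(8,10)]),(0,5,[(6,8)]),(0,0,[(7,8)])],[2,2,2,2])],[4,3,1],false,3,1,[4]),
    (false,[([(0,12,[(8,10),(4,4)]),(0,5,[(6,8)]),(0,0,[(7,8)])],[2,2,2])],[4,2],false,1,0,[]),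
    (true,[([(0,2,[(8,10),(9,10)])],[])],[7,2,2,2,2,2,2,1,1],true,3,5,[6,7]),
    (false,[([(0,6,[(8,10)]),(0,6,[(9,10)]),(0,1,[(4,6)])],[2,2,2,2])],[4,3,1],false,3,1,[4]),
    (false,[([(0,2,[(8,10),(9,10)]),(0,1,[(4,6)]),(0,9,[(4,4)])],[2,2,2,1])],[4],false,1,0,[]),
    (false,[([(0,10,[(8,10),(9,10),(7,7)])],[2,2,2,2,2,2,1,1])],[],false,1,0,[]),
    (true,[([(0,4,[(11,15)])],[2])],[7,4,2,2,2,2,2,2,1,1],true,4,3,[6,8,10,12]),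
    (true,[([(0,4,[(11,15)])],[]),([(0,1,[(5,6)])],[1,1,1])],[7,2,2,2,2,2,1],true,3,5,[5,6]),
    (true,[([(0,4,[(11,15)])],[2]),([(0,1,[(5,6)]),(0,7,[(4,5)])],[2])],[2,2,2,2,2,1,1],true,2,4,[3,5]),
    (true,[([(0,4,[(11,15)])],[2]),([(0,1,[(5,6)]),(0,5,[(4,5),(3,3)])],[])],[2,2,2,2,2,1],true,2,2,[3]),
    (true,[([(0,4,[(11,15)])],[2]),([(0,1,[(5,6)]),(0,5,[(4,5),(3,3)])],[]),([(0,3,[(3,3)])],[])],[2,2,2,2],false,1,0,[]),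
    (true,[([(0,4,[(11,15)])],[]),([(0,1,[(5,6)])],[1,1,1]),([(0,7,[(4,5)]),(0,7,[(4,5)])],[1])],[2,2,2,1],false,2,1,[]),
    (true,[([(0,2,[(11,15),(6,6)])],[]),([(0,1,[(5,6)])],[1,1,1,1])],[2,2,2,2,2,1],true,2,2,[3]),
    (false,[([(0,2,[(11,15),(6,6)]),(0,1,[(5,6)]),(0,3,[(3,3)])],[2,2,2,2])],[4],false,1,0,[]),
    (true,[([(0,4,[(11,15)])],[]),([(0,5,[(7,8)])],[1,1])],[7,2,2,2,2,2],false,2,5,[4,6]),
    (false,[([(0,4,[(11,15)]),(0,22,[(7,8),(3,4)])],[2,2,2,2,2])],[4,1],false,1,0,[2,3,4]),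
    (true,[([(0,4,[(11,15)])],[2]),([(0,5,[(7,8)]),(0,1,[(3,4),(2,2)])],[])],[2,2,2,2,2,1],true,2,2,[]),
    (false,[([(0,4,[(11,15)]),(0,22,[(7,8),(3,4)])],[2,2,2,2,2]),([(0,3,[(3,3)])],[1,1])],[],false,1,0,[2]),
    (true,[([(0,4,[(11,15)])],[2]),([(0,5,[(7,8)]),(0,1,[(3,4),(2,2)])],[]),([(0,3,[(3,3)])],[])],[2,2,2,2],false,1,0,[]),
    (false,[([(0,4,[(11,15)]),(0,22,[(7,8),(3,4)]),(0,9,[(4,4)])],[2,2,2])],[4,1],false,1,0,[]),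
    (false,[([(0,4,[(11,15)]),(0,12,[(7,8),(5,6)])],[2,2,2,2,1])],[3,1],false,2,1,[]),
    (true,[([(0,4,[(11,15)])],[2]),([(0,20,[(9,10)])],[4,2])],[2,2,2,2,1],true,2,3,[4]),
    (false,[([(0,4,[(11,15)]),(0,12,[(9,10),(3,4)])],[2,2,2,2,1])],[3,1],false,2,1,[]),
    (true,[([(0,4,[(11,15)])],[3]),([(0,39,[(11,12)])],[5])],[2,2,2,1],false,2,1,[]),
    (true,[([(0,2,[(16,21)])],[])],[7,2,2,2,2,2,2,1,1],true,3,5,[5,7]),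
    (true,[([(0,2,[(16,21)])],[]),([(0,7,[(4,5)])],[2,1,1,1])],[2,2,2,2,2,1],true,2,3,[3,4]),
    (true,[([(0,2,[(16,21)])],[]),([(0,7,[(4,5)]),(0,3,[(3,3)])],[1,1])],[2,2,2,2,2,1],false,2,1,[]),
    (false,[([(0,2,[(16,21)]),(0,7,[(4,5)]),(0,9,[(4,4)])],[2,2,2,2])],[4],false,1,0,[]),
    (true,[([(0,2,[(16,21)])],[]),([(0,28,[(6,7)])],[3,1,1])],[2,2,2,2,1],false,2,1,[]),
    (false,[([(0,32,[(22,22)])],[5,4,3,2,2,2,1,1])],[],false,1,0,[])]),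
  ([16,9,6,5,3,2,1], [
    (false,[],[16,9,6,5,3,2,1],true,7,3,[10,15,21,22]),
    (true,[([(0,20,[(8,10)])],[])],[7,6,4,4,3,2,2,1,1,1,1],false,6,3,[10]),
    (true,[([(0,20,[(8,10)])],[]),([(0,6,[(7,10)])],[])],[7,6,4,2,1,1,1],false,5,2,[8,9]),
    (true,[([(0,20,[(8,10)])],[]),([(0,6,[(7,10)])],[]),([(0,5,[(6,8)])],[])],[7,6,1],false,3,1,[4]),
    (true,[([(0,40,[(8,10),(4,4)])],[]),([(0,6,[(7,10)])],[2]),([(0,5,[(6,8)])],[])],[7,1],false,1,0,[]),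
    (true,[([(0,41,[(8,10),(9,9)])],[]),([(0,6,[(7,10)])],[2])],[6,2,1,1,1],false,1,0,[]),
    (true,[([(0,4,[(11,15)])],[])],[7,6,4,2,2,1,1,1,1,1,1],false,5,4,[8,12]),
    (true,[([(0,4,[(11,15)])],[]),([(0,5,[(6,8)])],[])],[7,6,2,1,1,1,1],false,4,2,[6,7]),
    (true,[([(0,4,[(11,15)])],[]),([(0,5,[(6,8)]),(0,1,[(5,6)])],[])],[6,2,1,1,1,1,1],false,3,2,[]),
    (true,[([(0,4,[(11,15)])],[]),([(0,4,[(6,8),(7,7)])],[3,2])],[2,1,1,1,1,1],false,1,0,[]),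
    (true,[([(0,4,[(11,15)])],[]),([(0,22,[(9,12)])],[2])],[7,2,1,1,1,1],false,3,2,[4]),
    (false,[([(0,4,[(11,15)]),(0,22,[(9,12)]),(0,9,[(4,4)])],[1,1,1,1])],[6,1],false,1,0,[]),
    (true,[([(0,2,[(16,21)])],[])],[7,4,2,2,1,1,1,1,1,1],false,4,4,[6,7]),
    (true,[([(0,2,[(16,21)])],[]),([(0,1,[(5,6)])],[1])],[7,2,1,1,1,1,1],false,3,2,[]),
    (false,[([(0,10,[(16,21),(7,7)])],[4,2,2,1,1,1,1,1,1])],[],false,1,0,[]),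
    (false,[([(0,16,[(22,22)])],[4,3,2,2,1,1,1,1,1,1])],[3],false,1,0,[])])]

theorem cj7f_7_ok : runAllJ S42 R42 F42 21 cj7f_7 = true := by decide +kernel

noncomputable def cj7f_8 : List (List ℕ × List NdJ) := [
  ([17,6,5,4,4,3,2,1], [
    (false,[],[17,6,5,4,4,3,2,1],true,6,5,[10,14,19,22]),
    (true,[([(0,6,[(7,10)])],[1])],[8,7,6,1,1,1,1,1,1,1,1,1,1],false,4,6,[5,7,9,10]),
    (true,[([(0,4,[(7,10),(5,5)])],[2])],[8,7,1,1,1,1,1,1,1,1,1,1],false,3,7,[5]),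
    (true,[([(0,4,[(7,10),(5,5)])],[2]),([(0,7,[(4,5)])],[1,1,1,1])],[8,1,1,1,1,1,1,1,1],false,2,8,[3,5]),
    (false,[([(0,4,[(7,10),(5,5)]),(0,7,[(4,5)]),(0,3,[(3,3)])],[1,1,1,1,1,1,1])],[5,4,3],false,3,3,[]),
    (false,[([(0,6,[(7,10)]),(0,20,[(5,5),(4,5)]),(0,7,[(4,5)])],[1,1,1,1,1])],[5,4,3],false,3,3,[5]),
    (false,[([(0,4,[(7,10),(5,5)])],[]),([(0,7,[(4,5)]),(0,7,[(4,5)]),(0,7,[(4,5)])],[3,2,2,1,1,1,1,1])],[],false,1,0,[3]),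
    (false,[([(0,4,[(7,10),(5,5)])],[]),([(0,7,[(4,5)]),(0,7,[(4,5)]),(0,7,[(4,5)]),(0,3,[(2,3)])],[3,2,1,1,1,1])],[],false,1,0,[2]),
    (false,[([(0,4,[(7,10),(5,5)])],[]),([(0,7,[(4,5)]),(0,7,[(4,5)]),(0,7,[(4,5)]),(1,1,[(2,3),(2,2)])],[2,1,1,1,1])],[],false,1,0,[]),
    (true,[([(0,6,[(7,10)])],[1]),([(0,28,[(6,7)])],[1,1])],[8,7,1,1,1,1,1,1,1],false,3,7,[5,7]),
    (false,[([(0,6,[(7,10)]),(0,28,[(6,7)]),(0,7,[(4,5)])],[1,1,1,1,1,1])],[6,4,3,1],true,4,2,[5]),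
    (false,[([(0,6,[(7,10)]),(0,28,[(6,7)]),(0,20,[(4,5),(5,5)])],[1,1,1,1])],[5,4,2],false,3,2,[4]),
    (true,[([(0,6,[(7,10)]),(0,1,[(5,5)])],[]),([(0,22,[(6,7),(4,5)]),(0,9,[(4,4)])],[2])],[1,1,1,1,1,1,1,1],false,1,0,[]),
    (false,[([(0,6,[(7,10)]),(0,28,[(6,7)]),(0,28,[(6,7)])],[1,1,1,1,1])],[6,4,2,1],false,4,1,[6]),
    (true,[([(0,6,[(7,10)]),(0,1,[(5,6)])],[]),([(0,28,[(6,7)])],[1,1]),([(0,28,[(6,7)])],[1,1,1,1])],[2,1,1,1,1],false,2,1,[]),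
    (true,[([(0,6,[(7,10)])],[1]),([(0,35,[(8,9)])],[1])],[8,7,1,1,1,1,1,1],false,3,6,[6,8,9]),
    (false,[([(0,6,[(7,10)]),(0,35,[(8,9)]),(0,1,[(4,6)])],[1,1,1,1,1])],[5,4,3],false,3,3,[5,6]),
    (true,[([(0,6,[(7,10)]),(0,1,[(4,6)])],[]),([(0,35,[(8,9)])],[1]),([(0,7,[(4,5)])],[1,1,1,1,1])],[2,1,1,1,1],false,2,2,[3]),
    (true,[([(0,6,[(7,10)]),(0,1,[(4,6)])],[]),([(0,39,[(8,9),(3,3)])],[]),([(0,7,[(4,5)])],[1,1,1,1,1])],[1,1,1,1],false,1,0,[]),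
    (false,[([(0,6,[(7,10)]),(0,35,[(8,9)]),(0,1,[(4,6)])],[1,1,1,1,1]),([(0,1,[(6,6)])],[3,3])],[],false,1,0,[]),
    (false,[([(0,6,[(7,10)]),(0,35,[(8,9)]),(0,5,[(7,8)])],[1,1,1,1])],[5,4,2],false,3,2,[]),
    (false,[([(0,10,[(7,10),(8,9),(9,9)])],[1,1,1,1,1,1,1,1,1,1])],[4],false,1,0,[]),
    (false,[([(0,6,[(7,10)]),(0,20,[(10,10)])],[3,1,1,1,1,1,1,1])],[5,4,3],false,3,3,[6,7]),
    (true,[([(0,6,[(7,10)]),(0,1,[(4,6)])],[]),([(0,38,[(10,10)])],[])],[8,2,1,1,1,1,1],false,3,2,[4]),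
    (true,[([(0,6,[(7,10)]),(0,1,[(4,6)])],[]),([(0,46,[(10,10),(4,4)])],[1])],[6,1,1,1,1,1],false,1,0,[]),
    (false,[([(0,10,[(7,10),(10,10),(7,7)])],[1,1,1,1,1,1,1,1,1,1])],[4],false,1,0,[]),
    (true,[([(0,40,[(11,14)])],[])],[8,7,5,1,1,1,1,1,1,1,1],false,4,5,[6,8,11,12]),
    (true,[([(0,12,[(11,14)]),(0,1,[(5,6)])],[])],[7,5,1,1,1,1,1,1,1,1,1,1],false,3,5,[4,5,6]),
    (false,[([(0,40,[(11,14)]),(0,20,[(5,6),(4,4)])],[4,1,1,1,1,1])],[5,4],false,2,4,[3,4]),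
    (false,[([(0,25,[(11,14),(3,3)]),(0,20,[(5,6),(4,4)])],[1,1,1,1,1,1])],[5,4],false,2,2,[3]),
    (false,[([(0,25,[(11,14),(3,3)]),(0,20,[(5,6),(4,4)])],[1,1,1,1,1,1]),([(0,3,[(3,3)])],[2,2,2])],[],false,1,0,[]),
    (true,[([(0,40,[(11,14)]),(0,9,[(4,4)])],[]),([(0,20,[(5,6),(4,4)])],[2])],[7,1,1,1,1,1],false,2,1,[]),
    (true,[([(0,12,[(11,14)]),(0,1,[(5,6)])],[]),([(0,7,[(5,5)])],[1,1])],[7,1,1,1,1,1,1,1,1],false,2,3,[3,4]),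
    (true,[([(0,12,[(11,14)]),(0,1,[(5,6)])],[]),([(0,5,[(5,5),(3,3)])],[2,2,2])],[1,1,1,1,1,1,1,1],false,1,0,[2]),
    (false,[([(0,4,[(11,14)]),(0,20,[(5,5),(3,3),(2,2)])],[1,1,1,1,1,1,1]),([(0,1,[(5,6)])],[2,2])],[],false,1,0,[]),
    (true,[([(0,41,[(11,14),(5,5)])],[2]),([(0,1,[(5,6)]),(0,9,[(4,4)])],[2,2])],[1,1,1,1,1,1,1],false,1,0,[]),
    (true,[([(0,40,[(11,14)])],[2,2]),([(0,39,[(5,6),(6,6)])],[2])],[6,1,1,1,1],false,2,2,[3]),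
    (true,[([(0,25,[(11,14),(3,3)])],[3,3]),([(0,39,[(5,6),(6,6)])],[2])],[1,1,1,1,1],false,1,0,[]),
    (false,[([(0,4,[(11,14)]),(0,5,[(7,8)])],[1,1,1,1,1,1,1,1])],[5,4,2],false,3,2,[5,6]),
    (true,[([(0,4,[(11,14)]),(0,0,[(7,8)])],[]),([(0,7,[(4,5)])],[])],[6,1,1,1,1,1,1,1,1],false,2,2,[3]),
    (true,[([(0,40,[(11,14)])],[1]),([(0,8,[(7,8),(3,3)]),(0,1,[(4,5)])],[3])],[1,1,1,1,1,1,1],false,1,0,[]),
    (false,[([(0,10,[(11,14),(7,8),(6,6)])],[1,1,1,1,1,1,1,1,1,1])],[4],false,1,0,[]),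
    (true,[([(0,40,[(11,14)])],[]),([(0,8,[(9,11)])],[3,3,2,2])],[1,1,1,1,1,1,1],false,1,0,[2,3,4]),
    (true,[([(0,40,[(11,14)])],[1]),([(0,8,[(9,11)]),(0,3,[(2,2)])],[3,3])],[1,1,1,1,1,1,1],false,1,0,[2]),
    (true,[([(0,40,[(11,14)])],[1]),([(0,8,[(9,11)]),(1,1,[(2,2),(2,2)])],[3])],[1,1,1,1,1,1,1],false,1,0,[2]),
    (true,[([(0,40,[(11,14)])],[1]),([(0,8,[(9,11)]),(1,1,[(2,2),(2,2),(2,2)])],[3])],[1,1,1,1,1,1,1],false,1,0,[]),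
    (true,[([(0,40,[(11,14)])],[1]),([(0,8,[(9,11)]),(0,3,[(3,3)])],[3,3])],[1,1,1,1,1,1,1],false,1,0,[2]),
    (true,[([(0,40,[(11,14)])],[1]),([(0,8,[(9,11)]),(0,1,[(3,3),(2,2)])],[3])],[1,1,1,1,1,1,1],false,1,0,[]),
    (true,[([(0,40,[(11,14)]),(0,9,[(4,4)])],[]),([(0,8,[(9,11)])],[2,2,2])],[1,1,1,1,1,1,1],false,1,0,[]),
    (false,[([(0,26,[(11,14),(12,12)])],[1,1,1,1,1,1,1,1,1,1,1])],[4,1],false,1,0,[]),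
    (true,[([(0,41,[(15,19)])],[2])],[7,6,1,1,1,1,1,1,1,1],false,3,6,[4,5,7,8]),
    (true,[([(0,47,[(15,19),(4,4)])],[3])],[7,1,1,1,1,1,1,1,1,1],false,2,4,[3,4]),
    (true,[([(0,41,[(15,19)])],[2]),([(0,28,[(4,4),(3,3)])],[1,1])],[7,1,1,1,1,1],false,2,2,[3]),
    (true,[([(0,41,[(15,19)])],[2]),([(0,28,[(4,4),(3,3)])],[1,1]),([(0,3,[(3,3)])],[1,1,1,1,1])],[1,1,1,1],false,1,0,[]),
    (true,[([(0,47,[(15,19),(4,4)])],[3]),([(0,7,[(4,4)])],[1,1,1,1])],[1,1,1,1,1,1,1],false,1,0,[2]),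
    (false,[([(0,2,[(15,19),(2,2)])],[]),([(0,9,[(4,4)]),(0,9,[(4,4)])],[1,1,1,1,1,1,1,1,1,1,1,1,1])],[],false,1,0,[]),
    (true,[([(0,41,[(15,19)])],[2]),([(0,7,[(5,5)])],[1,1,1])],[7,1,1,1,1,1,1],false,2,3,[3,4]),
    (true,[([(0,41,[(15,19)])],[2]),([(0,7,[(5,5)])],[1,1,1]),([(0,3,[(3,3)])],[1,1,1,1,1])],[1,1,1,1,1],false,1,0,[2]),
    (true,[([(0,41,[(15,19)])],[2]),([(0,28,[(5,5),(2,2)])],[1,1]),([(0,3,[(3,3)])],[1,1,1,1,1])],[1,1,1,1],false,1,0,[]),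
    (false,[([(0,10,[(15,19),(5,5),(4,4)])],[1,1,1,1,1,1,1,1,1,1])],[4],false,1,0,[]),
    (true,[([(0,41,[(15,19)])],[2]),([(0,28,[(6,7)])],[1,1])],[7,1,1,1,1,1],false,2,2,[3]),
    (true,[([(0,41,[(15,19)])],[2]),([(0,28,[(6,7)])],[1,1]),([(0,3,[(3,3)])],[1,1,1,1,1])],[1,1,1,1],false,1,0,[]),
    (false,[([(0,10,[(15,19),(8,8)])],[1,1,1,1,1,1,1,1,1,1])],[4],false,1,0,[]),
    (false,[([(0,31,[(20,22)])],[2,1,1,1,1,1,1,1,1,1,1,1])],[4,2,1],false,3,1,[])]),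
  ([17,7,6,5,4,2,1], [
    (false,[],[17,7,6,5,4,2,1],true,6,4,[10,15,21,22]),
    (true,[([(0,6,[(7,10)])],[1])],[7,6,5,4,1,1,1,1,1,1,1,1,1],false,5,4,[8,10]),
    (true,[([(0,6,[(7,10)])],[2]),([(0,5,[(6,8)])],[2])],[7,6,1,1,1,1,1,1,1],false,3,6,[6,8]),
    (true,[([(0,6,[(7,10)]),(0,1,[(4,6)])],[]),([(0,5,[(6,8)])],[])],[6,5,1,1,1,1,1,1,1],false,3,5,[4,5,6]),
    (true,[([(0,6,[(7,10)]),(0,1,[(4,6)])],[]),([(0,5,[(6,8)]),(0,9,[(4,4)])],[])],[5,2,1,1,1,1,1,1,1],false,3,2,[4]),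
    (true,[([(0,6,[(7,10)]),(0,1,[(4,6)])],[]),([(0,5,[(6,8)]),(0,9,[(4,4)])],[]),([(0,7,[(4,4)])],[1,1])],[2,1,1,1,1,1],false,2,1,[]),
    (true,[([(0,6,[(7,10)]),(0,1,[(4,6)])],[]),([(0,5,[(6,8)])],[]),([(0,7,[(5,5)])],[1,1])],[6,1,1,1,1,1],false,2,3,[3,4]),
    (true,[([(0,6,[(7,10)]),(0,1,[(4,6)])],[]),([(0,5,[(6,8)])],[1]),([(0,5,[(5,5),(3,3)])],[2,2])],[1,1,1,1,1],false,1,0,[2]),
    (true,[([(0,6,[(7,10)]),(0,1,[(4,6)])],[]),([(0,5,[(6,8)])],[2,2]),([(0,20,[(5,5),(3,3),(2,2)])],[])],[1,1,1,1],false,1,0,[]),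
    (true,[([(0,6,[(7,10)]),(0,1,[(4,6)])],[]),([(0,22,[(6,8),(4,4)])],[2]),([(0,7,[(5,5)])],[1,1])],[1,1,1,1,1],false,1,0,[]),
    (true,[([(0,6,[(7,10)]),(0,1,[(4,6)])],[]),([(0,5,[(6,8)])],[]),([(0,28,[(6,6)])],[1])],[6,1,1,1,1],false,2,2,[3]),
    (true,[([(0,6,[(7,10)]),(0,1,[(4,6)])],[]),([(0,5,[(6,8)])],[]),([(0,35,[(6,6),(3,3)])],[])],[6,1,1,1],false,1,0,[]),
    (true,[([(0,6,[(7,10)]),(0,0,[(7,8)])],[]),([(0,5,[(6,8)])],[1])],[5,3,1,1,1,1,1,1,1],false,3,3,[5]),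
    (true,[([(0,6,[(7,10)]),(0,0,[(7,8)])],[]),([(0,5,[(6,8)])],[1]),([(0,7,[(4,5)])],[])],[5,1,1,1,1,1],false,2,1,[]),
    (true,[([(0,6,[(7,10)])],[1]),([(0,20,[(9,10)])],[2,2])],[6,5,1,1,1,1,1,1],false,3,5,[6,8]),
    (true,[([(0,6,[(7,10)]),(0,1,[(4,6)])],[]),([(0,20,[(9,10)])],[])],[6,4,1,1,1,1,1,1],false,3,4,[5]),
    (true,[([(0,6,[(7,10)]),(0,1,[(4,6)])],[]),([(0,20,[(9,10)])],[]),([(0,7,[(4,5)])],[1])],[6,1,1,1,1],false,2,1,[]),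
    (true,[([(0,6,[(7,10)]),(0,0,[(7,8)])],[]),([(0,20,[(9,10)])],[])],[5,3,1,1,1,1,1,1],false,2,1,[]),
    (true,[([(0,4,[(11,15)])],[])],[7,6,5,1,1,1,1,1,1,1,1,1],false,4,5,[5,7,10,12]),
    (true,[([(0,4,[(11,15)])],[]),([(0,7,[(5,5)])],[1,1])],[7,6,1,1,1,1,1,1,1],false,3,6,[5]),
    (true,[([(0,4,[(11,15)])],[2]),([(0,20,[(5,5),(4,5)])],[2,2])],[5,1,1,1,1,1,1],false,2,4,[3,5]),
    (true,[([(0,4,[(11,15)])],[3]),([(0,20,[(5,5),(4,5)]),(0,3,[(3,3)])],[])],[5,1,1,1,1,1,1],false,2,2,[3]),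
    (true,[([(0,4,[(11,15)])],[3]),([(0,6,[(5,5),(4,5)]),(0,1,[(3,3),(3,3)])],[])],[1,1,1,1,1,1,1,1],false,1,0,[]),
    (false,[([(0,4,[(11,15)]),(0,7,[(5,5)]),(0,7,[(4,5)]),(0,7,[(4,5)])],[1,1,1])],[5,4],false,2,1,[]),
    (true,[([(0,4,[(11,15)])],[]),([(0,28,[(6,7)])],[1])],[7,6,1,1,1,1,1,1],false,3,6,[5,7]),
    (false,[([(0,4,[(11,15)]),(0,28,[(6,7)]),(0,7,[(4,5)])],[4,1,1,1,1])],[5,2],true,2,3,[3,4]),
    (false,[([(0,4,[(11,15)]),(0,28,[(6,7)]),(0,5,[(4,5),(3,3)])],[1,1,1,1])],[6,2],false,2,1,[]),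
    (true,[([(0,4,[(11,15)])],[4]),([(0,22,[(6,7),(4,5)]),(0,9,[(4,4)])],[])],[1,1,1,1,1,1,1],false,1,0,[]),
    (false,[([(0,4,[(11,15)]),(0,28,[(6,7)]),(0,28,[(6,7)])],[1,1,1,1])],[7,2],false,2,1,[]),
    (true,[([(0,4,[(11,15)])],[2]),([(0,20,[(8,10)])],[2,2])],[5,1,1,1,1,1,1],false,2,4,[3,5]),
    (true,[([(0,4,[(11,15)])],[3]),([(0,20,[(8,10)]),(0,3,[(3,3)])],[])],[5,1,1,1,1,1,1],false,2,2,[3]),
    (true,[([(0,4,[(11,15)])],[3]),([(0,6,[(8,10)]),(0,1,[(3,3),(3,3)])],[])],[1,1,1,1,1,1,1,1],false,1,0,[]),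
    (true,[([(0,4,[(11,15)])],[2]),([(0,20,[(8,10)])],[2,2]),([(0,7,[(4,5)])],[1,1])],[1,1,1,1],false,1,0,[2]),
    (true,[([(0,4,[(11,15)])],[3]),([(0,20,[(8,10)]),(0,3,[(2,2)])],[]),([(0,7,[(4,5)])],[1,1])],[1,1,1,1],false,1,0,[]),
    (true,[([(0,4,[(11,15)])],[3]),([(0,39,[(11,12)])],[2])],[5,1,1,1,1,1],false,2,1,[]),
    (true,[([(0,2,[(16,21)])],[])],[7,5,1,1,1,1,1,1,1,1,1],false,3,5,[5,7]),
    (true,[([(0,2,[(16,21)])],[]),([(0,7,[(4,5)])],[1,1])],[7,1,1,1,1,1,1,1],false,2,3,[3,4]),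
    (false,[([(0,2,[(16,21)]),(0,5,[(4,5),(3,3)])],[1,1,1,1,1,1,1])],[6],false,1,0,[2]),
    (true,[([(0,2,[(16,21)])],[]),([(0,7,[(4,5)])],[1,1]),([(0,7,[(3,3),(2,2)])],[1,1,1,1])],[1,1,1,1,1],false,1,0,[]),
    (true,[([(0,2,[(16,21)])],[]),([(0,7,[(4,5)]),(0,9,[(4,4)])],[2,2])],[1,1,1,1,1,1,1,1],false,1,0,[]),
    (true,[([(0,2,[(16,21)])],[]),([(0,28,[(6,7)])],[1])],[7,1,1,1,1,1,1],false,2,1,[]),
    (false,[([(0,16,[(22,22)])],[3])],[17],false,1,0,[])]),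
  ([19,7,6,4,3,2,1], [
    (false,[],[19,7,6,4,3,2,1],true,6,5,[10,15,21,22]),
    (true,[([(0,6,[(7,10)])],[])],[7,6,5,3,1,1,1,1,1,1,1,1,1,1,1],false,5,3,[8,10]),
    (true,[([(0,6,[(7,10)])],[]),([(0,5,[(6,8)])],[2])],[7,6,1,1,1,1,1,1,1,1,1],false,3,6,[6,8]),
    (true,[([(0,6,[(7,10)]),(0,1,[(4,6)])],[]),([(0,5,[(6,8)])],[])],[6,3,1,1,1,1,1,1,1,1,1],false,3,3,[5,6]),
    (true,[([(0,6,[(7,10)]),(0,1,[(4,6)])],[]),([(0,5,[(6,8)])],[]),([(0,7,[(4,5)])],[])],[6,1,1,1,1,1,1,1],false,2,4,[3,4,5]),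
    (true,[([(0,6,[(7,10)]),(0,1,[(4,6)])],[]),([(0,5,[(6,8)]),(0,3,[(3,3)])],[]),([(0,7,[(4,5)])],[1])],[2,1,1,1,1,1,1,1],false,2,2,[3]),
    (true,[([(0,6,[(7,10)]),(0,1,[(4,6)])],[]),([(0,5,[(6,8)]),(0,3,[(3,3)])],[]),([(0,5,[(4,5),(3,3)])],[])],[1,1,1,1,1,1,1],false,1,0,[]),
    (true,[([(0,6,[(7,10)]),(0,1,[(4,6)])],[]),([(0,5,[(6,8)]),(0,9,[(4,4)])],[]),([(0,7,[(4,5)])],[])],[2,1,1,1,1,1,1,1],false,2,1,[]),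
    (true,[([(0,6,[(7,10)]),(0,1,[(4,6)])],[]),([(0,5,[(6,8)])],[]),([(0,20,[(4,5),(5,5)])],[2])],[1,1,1,1,1,1],false,1,0,[]),
    (true,[([(0,6,[(7,10)]),(0,1,[(4,6)])],[]),([(0,40,[(6,8),(6,6)])],[])],[4,1,1,1,1,1,1,1,1],false,2,2,[3]),
    (true,[([(0,6,[(7,10)]),(0,1,[(4,6)])],[]),([(0,25,[(6,8),(6,6),(3,3)])],[])],[1,1,1,1,1,1,1,1,1],false,1,0,[]),
    (false,[([(0,6,[(7,10)]),(0,5,[(6,8)]),(0,5,[(7,8)])],[1,1,1,1,1,1,1])],[6,2,1],true,3,2,[5]),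
    (true,[([(0,6,[(7,10)]),(0,0,[(7,8)])],[]),([(0,5,[(6,8)])],[1]),([(0,7,[(4,5)])],[])],[3,1,1,1,1,1,1,1],false,2,1,[]),
    (true,[([(0,6,[(7,10)])],[]),([(0,20,[(9,10)])],[2])],[7,5,1,1,1,1,1,1,1,1],false,3,5,[6,8]),
    (true,[([(0,6,[(7,10)]),(0,1,[(4,6)])],[]),([(0,20,[(9,10)])],[1])],[4,3,1,1,1,1,1,1,1,1],false,3,3,[5]),
    (true,[([(0,6,[(7,10)]),(0,1,[(4,6)])],[]),([(0,20,[(9,10)])],[1]),([(0,7,[(4,5)])],[])],[4,1,1,1,1,1,1],false,2,1,[]),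
    (false,[([(0,6,[(7,10)]),(0,20,[(9,10)]),(0,5,[(7,8)])],[1,1,1,1,1,1])],[6,2],false,2,1,[]),
    (true,[([(0,4,[(11,15)])],[])],[7,6,3,1,1,1,1,1,1,1,1,1,1,1],false,4,3,[5,8,10,12]),
    (true,[([(0,4,[(11,15)])],[]),([(0,7,[(5,5)])],[])],[7,6,1,1,1,1,1,1,1,1,1],false,3,6,[5]),
    (true,[([(0,4,[(11,15)])],[]),([(0,20,[(5,5),(4,5)])],[2])],[7,1,1,1,1,1,1,1,1],false,2,4,[3,5]),
    (false,[([(0,4,[(11,15)]),(0,20,[(5,5),(4,5)]),(0,3,[(3,3)])],[1,1,1,1,1,1,1])],[6,1],true,2,2,[3]),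
    (true,[([(0,4,[(11,15)])],[1]),([(0,6,[(5,5),(4,5)]),(0,1,[(3,3),(3,3)])],[])],[1,1,1,1,1,1,1,1,1,1],false,1,0,[]),
    (false,[([(0,4,[(11,15)]),(0,7,[(5,5)]),(0,7,[(4,5)]),(0,7,[(4,5)])],[1,1,1,1,1])],[4,3],false,2,1,[]),
    (true,[([(0,4,[(11,15)])],[]),([(0,5,[(6,8)])],[2,1])],[7,1,1,1,1,1,1,1,1,1],false,2,6,[3,4,5,7]),
    (false,[([(0,4,[(11,15)]),(0,5,[(6,8)]),(0,3,[(3,3)])],[1,1,1,1,1,1,1,1])],[6,2],true,2,4,[3]),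
    (true,[([(0,4,[(11,15)]),(0,3,[(3,3)])],[]),([(0,5,[(6,8)]),(0,3,[(3,3)])],[])],[4,1,1,1,1,1,1,1,1,1],false,2,2,[3]),
    (false,[([(0,4,[(11,15)]),(0,5,[(6,8)]),(0,3,[(3,3)])],[1,1,1,1,1,1,1,1]),([(0,3,[(3,3)]),(0,3,[(3,3)])],[1,1])],[],false,1,0,[]),
    (true,[([(0,4,[(11,15)]),(0,9,[(4,4)])],[]),([(0,5,[(6,8)])],[2])],[4,1,1,1,1,1,1,1,1,1],false,2,3,[3,4]),
    (true,[([(0,4,[(11,15)]),(0,3,[(3,3)])],[]),([(0,5,[(6,8)]),(0,9,[(4,4)])],[])],[3,1,1,1,1,1,1,1,1,1],false,2,1,[]),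
    (true,[([(0,4,[(11,15)]),(0,9,[(4,4)])],[]),([(0,5,[(6,8)])],[2]),([(0,7,[(4,4)])],[1])],[1,1,1,1,1,1,1],false,1,0,[]),
    (true,[([(0,4,[(11,15)])],[4]),([(0,5,[(6,8)]),(0,7,[(5,5)])],[])],[1,1,1,1,1,1,1,1,1,1],false,1,0,[3]),
    (true,[([(0,4,[(11,15)]),(0,3,[(2,3)])],[]),([(0,5,[(6,8)])],[2,1]),([(0,7,[(5,5)])],[1])],[1,1,1,1,1,1,1],false,1,0,[2]),
    (true,[([(0,4,[(11,15)]),(0,3,[(2,3)])],[]),([(0,5,[(6,8)])],[2,1]),([(0,28,[(5,5),(2,2)])],[])],[1,1,1,1,1,1],false,1,0,[]),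
    (true,[([(0,4,[(11,15)])],[]),([(0,5,[(6,8)])],[2,1]),([(0,28,[(6,7)])],[1,1,1])],[1,1,1,1,1,1],false,1,0,[2]),
    (true,[([(0,4,[(11,15)]),(0,3,[(2,2)])],[]),([(0,5,[(6,8)])],[2,1]),([(0,28,[(6,7)])],[])],[1,1,1,1,1,1],false,1,0,[]),
    (true,[([(0,4,[(11,15)])],[]),([(0,20,[(9,10)])],[2])],[7,1,1,1,1,1,1,1,1],false,2,3,[4]),
    (true,[([(0,4,[(11,15)])],[2]),([(0,40,[(9,10),(3,4)])],[3])],[1,1,1,1,1,1,1,1],false,1,0,[2]),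
    (true,[([(0,4,[(11,15)])],[1]),([(0,6,[(9,10)]),(0,1,[(3,4),(2,2)])],[])],[1,1,1,1,1,1,1,1,1,1],false,1,0,[]),
    (true,[([(0,4,[(11,15)])],[]),([(0,39,[(11,12)])],[2])],[6,1,1,1,1,1,1,1],false,2,1,[]),
    (true,[([(0,2,[(16,21)])],[])],[7,3,1,1,1,1,1,1,1,1,1,1,1],false,3,3,[5,7]),
    (true,[([(0,2,[(16,21)])],[]),([(0,7,[(4,5)])],[])],[7,1,1,1,1,1,1,1,1,1],false,2,3,[3,4]),
    (true,[([(0,2,[(16,21)])],[]),([(0,5,[(4,5),(3,3)])],[2,1,1])],[1,1,1,1,1,1,1,1,1],false,1,0,[2]),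
    (true,[([(0,2,[(16,21)])],[]),([(0,5,[(4,5),(3,3)]),(0,3,[(2,2)])],[1])],[1,1,1,1,1,1,1,1,1],false,1,0,[]),
    (false,[([(0,2,[(16,21)]),(0,7,[(4,5)]),(0,7,[(4,4)])],[1,1,1,1,1,1,1])],[4],false,1,0,[]),
    (true,[([(0,2,[(16,21)])],[]),([(0,28,[(6,7)])],[1,1,1])],[3,1,1,1,1,1,1,1,1],false,2,1,[]),
    (false,[([(0,16,[(22,22)])],[3,3,1,1,1,1,1,1,1,1,1,1,1])],[3],false,1,0,[])]),
  ([20,7,5,4,3,2,1], [
    (false,[],[20,7,5,4,3,2,1],true,7,3,[10,15,19,22]),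
    (true,[([(0,20,[(8,10)])],[])],[7,6,4,3,2,1,1,1,1,1,1,1,1,1,1],false,6,2,[10]),
    (true,[([(0,20,[(8,10)])],[]),([(0,6,[(7,10)])],[])],[7,6,1,1,1,1,1,1,1,1,1],false,3,6,[6,8,9]),
    (true,[([(0,20,[(8,10)])],[1]),([(0,6,[(7,10)]),(0,1,[(4,6)])],[])],[4,2,1,1,1,1,1,1,1,1,1],false,3,2,[5,6]),
    (true,[([(0,20,[(8,10)])],[1]),([(0,6,[(7,10)]),(0,1,[(4,6)])],[]),([(0,7,[(4,5)])],[1])],[2,1,1,1,1,1,1,1],false,2,2,[3]),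
    (true,[([(0,20,[(8,10)])],[1]),([(0,6,[(7,10)]),(0,1,[(4,6)])],[]),([(0,5,[(4,5),(3,3)])],[])],[1,1,1,1,1,1,1],false,1,0,[]),
    (true,[([(0,49,[(8,10),(6,6)])],[]),([(0,6,[(7,10)]),(0,1,[(4,6)])],[])],[1,1,1,1,1,1,1,1,1,1],false,1,0,[]),
    (true,[([(0,20,[(8,10)])],[]),([(0,6,[(7,10)]),(0,0,[(7,8)])],[])],[3,2,1,1,1,1,1,1,1,1,1],false,3,2,[]),
    (true,[([(0,41,[(8,10),(9,9)])],[]),([(0,6,[(7,10)])],[2,2])],[1,1,1,1,1,1,1,1,1],false,1,0,[]),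
    (true,[([(0,4,[(11,15)])],[])],[7,6,2,1,1,1,1,1,1,1,1,1,1,1,1],false,3,7,[4,5,8,10,12]),
    (true,[([(0,4,[(11,15)]),(0,9,[(4,4)])],[])],[5,4,2,1,1,1,1,1,1,1,1,1,1,1,1],false,4,2,[]),
    (true,[([(0,4,[(11,15)])],[]),([(0,7,[(5,5)])],[1,1,1])],[7,2,1,1,1,1,1,1,1,1,1,1],false,2,7,[3,5]),
    (true,[([(0,4,[(11,15)]),(0,3,[(3,3)])],[]),([(0,7,[(5,5)])],[1])],[6,2,1,1,1,1,1,1,1,1,1,1],false,3,2,[]),
    (true,[([(0,4,[(11,15)])],[]),([(0,20,[(5,5),(4,5)])],[1])],[7,1,1,1,1,1,1,1,1,1],false,2,4,[3,5]),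
    (false,[([(0,4,[(11,15)]),(0,20,[(5,5),(4,5)]),(0,3,[(3,3)])],[1,1,1,1,1,1,1,1])],[5,1],true,2,2,[3]),
    (false,[([(0,4,[(11,15)]),(0,20,[(5,5),(4,5)]),(0,3,[(3,3)])],[1,1,1,1,1,1,1,1]),([(0,3,[(3,3)])],[1,1,1])],[],false,1,0,[]),
    (false,[([(0,4,[(11,15)]),(0,20,[(5,5),(4,5)]),(0,7,[(4,5)])],[1,1,1,1,1,1,1])],[4,1],false,2,1,[]),
    (true,[([(0,4,[(11,15)])],[]),([(0,5,[(6,8)])],[1,1])],[7,1,1,1,1,1,1,1,1,1,1],false,2,6,[3,4,5,7]),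
    (true,[([(0,4,[(11,15)]),(0,3,[(3,3)])],[]),([(0,5,[(6,8)])],[])],[6,1,1,1,1,1,1,1,1,1,1],false,2,4,[3]),
    (true,[([(0,4,[(11,15)])],[2]),([(0,5,[(6,8)]),(0,1,[(3,3),(3,3)])],[])],[1,1,1,1,1,1,1,1,1,1,1],false,1,0,[2,3]),
    (false,[([(0,4,[(11,15)]),(0,6,[(6,8),(2,2)])],[1,1,1,1,1,1,1,1,1,1,1]),([(0,3,[(3,3)]),(0,3,[(3,3)])],[])],[],false,1,0,[2]),
    (false,[([(0,4,[(11,15)]),(0,5,[(6,8)]),(0,7,[(3,3),(2,2)])],[1,1,1,1,1,1,1,1]),([(0,3,[(3,3)]),(0,3,[(2,2)])],[])],[],false,1,0,[]),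
    (false,[([(0,4,[(11,15)]),(0,5,[(6,8)]),(0,3,[(3,3)])],[1,1,1,1,1,1,1,1,1]),([(0,3,[(3,3)]),(0,3,[(3,3)])],[1])],[],false,1,0,[]),
    (true,[([(0,4,[(11,15)]),(0,9,[(4,4)])],[]),([(0,5,[(6,8)])],[])],[5,1,1,1,1,1,1,1,1,1,1],false,2,3,[3,4]),
    (false,[([(0,4,[(11,15)]),(0,5,[(6,8)]),(0,28,[(4,4),(3,3)])],[1,1,1,1,1,1,1])],[3,2],false,2,1,[]),
    (true,[([(0,4,[(11,15)])],[1]),([(0,22,[(6,8),(4,4)]),(0,9,[(4,4)])],[])],[1,1,1,1,1,1,1,1,1,1],false,1,0,[]),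
    (false,[([(0,4,[(11,15)]),(0,5,[(6,8)]),(0,7,[(5,5)])],[1,1,1,1,1,1,1,1])],[4,2],false,2,2,[3]),
    (false,[([(0,4,[(11,15)]),(0,5,[(6,8)]),(0,7,[(5,5)])],[1,1,1,1,1,1,1,1]),([(0,3,[(3,3)])],[2,1])],[],false,1,0,[]),
    (false,[([(0,4,[(11,15)]),(0,5,[(6,8)]),(0,28,[(6,7)])],[1,1,1,1,1,1,1])],[3,2],false,2,1,[]),
    (true,[([(0,4,[(11,15)])],[]),([(0,20,[(9,10)])],[1])],[7,1,1,1,1,1,1,1,1,1],false,2,3,[3,4]),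
    (false,[([(0,4,[(11,15)]),(0,20,[(9,10)]),(0,3,[(3,3)])],[1,1,1,1,1,1,1,1])],[5,1],false,2,1,[]),
    (false,[([(0,4,[(11,15)]),(0,46,[(9,10),(4,4)])],[6,1,1,1,1,1,1,1])],[],false,1,0,[]),
    (true,[([(0,4,[(11,15)])],[]),([(0,39,[(11,12)])],[])],[7,1,1,1,1,1,1,1,1],false,2,1,[]),
    (true,[([(0,41,[(16,19)])],[])],[6,5,2,1,1,1,1,1,1,1,1,1,1],false,4,2,[6,7]),
    (true,[([(0,27,[(16,19),(5,6)])],[])],[5,1,1,1,1,1,1,1,1,1,1,1,1],false,2,2,[3]),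
    (false,[([(0,10,[(16,19),(5,6),(3,3)])],[2,1,1,1,1,1,1,1,1,1,1,1,1])],[],false,1,0,[]),
    (false,[([(0,26,[(16,19),(7,7)])],[2,1,1,1,1,1,1,1,1,1,1,1,1,1])],[1],false,1,0,[]),
    (true,[([(0,16,[(20,22)])],[3])],[3,2,1,1,1,1,1,1,1,1,1,1,1,1],false,3,2,[])]),
  ([21,6,5,4,3,2,1], [
    (false,[],[21,6,5,4,3,2,1],true,6,4,[9,12,16,20,22]),
    (true,[([(0,6,[(7,9)])],[])],[7,6,5,1,1,1,1,1,1,1,1,1,1,1,1,1,1],false,4,5,[5,7,9]),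
    (true,[([(0,40,[(7,9),(5,5)])],[])],[7,5,4,1,1,1,1,1,1,1,1,1,1,1,1],false,4,4,[5]),
    (true,[([(0,41,[(7,9),(5,5),(5,5)])],[])],[6,5,1,1,1,1,1,1,1,1,1,1,1,1],false,3,5,[5]),
    (false,[([(0,6,[(7,9)]),(0,7,[(5,5)]),(0,7,[(5,5)]),(0,7,[(4,5)])],[1,1,1,1,1,1,1,1])],[4,3,2],false,3,2,[5]),
    (true,[([(0,41,[(7,9),(5,5),(5,5)])],[]),([(0,7,[(4,5)])],[1,1]),([(0,7,[(4,5)])],[1,1,1])],[1,1,1,1,1,1,1,1],false,1,0,[2]),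
    (true,[([(0,40,[(7,9),(5,5)])],[]),([(0,28,[(5,5),(2,2)])],[]),([(0,7,[(4,5)])],[1,1]),([(0,7,[(4,5)])],[1,1,1,1])],[1,1,1,1,1],false,1,0,[]),
    (true,[([(0,6,[(7,9)])],[]),([(0,28,[(6,7)])],[1])],[7,6,1,1,1,1,1,1,1,1,1,1,1],false,3,6,[4,5,7]),
    (true,[([(0,6,[(7,9)]),(0,9,[(4,4)])],[]),([(0,28,[(6,7)])],[])],[7,3,1,1,1,1,1,1,1,1,1,1,1],false,3,3,[4]),
    (false,[([(0,6,[(7,9)]),(0,28,[(6,7)]),(0,5,[(4,4),(4,4)])],[1,1,1,1,1,1,1,1,1])],[5,2,1],true,3,2,[4]),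
    (false,[([(0,2,[(7,9),(4,4),(4,4),(4,4)]),(0,28,[(6,7)])],[1,1,1,1,1,1,1,1,1,1,1])],[3],false,1,0,[2]),
    (false,[([(0,4,[(7,9),(4,4),(2,2)]),(0,28,[(6,7)]),(0,7,[(4,4)])],[1,1,1,1,1,1,1,1,1]),([(0,9,[(4,4)])],[1,1])],[],false,1,0,[]),
    (true,[([(0,40,[(7,9),(5,5)])],[]),([(0,28,[(6,7)])],[])],[7,5,1,1,1,1,1,1,1,1,1],false,3,5,[5]),
    (false,[([(0,6,[(7,9)]),(0,28,[(6,7)]),(0,7,[(5,5)]),(0,7,[(4,5)])],[1,1,1,1,1,1,1])],[4,3,1],false,3,1,[4]),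
    (true,[([(0,40,[(7,9),(5,5)])],[]),([(0,8,[(6,7),(4,4)]),(0,1,[(4,5)])],[])],[1,1,1,1,1,1,1,1,1,1,1],false,1,0,[]),
    (true,[([(0,6,[(7,9)])],[]),([(0,28,[(6,7)])],[1]),([(0,28,[(6,7)])],[1,1])],[7,1,1,1,1,1,1,1,1],false,2,5,[3,6]),
    (false,[([(0,6,[(7,9)]),(0,28,[(6,7)]),(0,28,[(6,7)]),(0,3,[(3,3)])],[1,1,1,1,1,1,1])],[5,2,1],false,3,1,[]),
    (true,[([(0,6,[(7,9)]),(0,1,[(4,6)])],[]),([(0,28,[(6,7)])],[]),([(0,28,[(6,7)])],[1,1])],[2,1,1,1,1,1,1,1,1],false,2,2,[3]),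
    (true,[([(0,6,[(7,9)]),(0,1,[(4,6)])],[]),([(0,20,[(6,7),(3,3)])],[1]),([(0,28,[(6,7)])],[])],[1,1,1,1,1,1,1,1],false,1,0,[]),
    (true,[([(0,6,[(7,9)])],[]),([(0,35,[(8,9)])],[])],[7,6,1,1,1,1,1,1,1,1,1,1],false,3,6,[6,8,9]),
    (true,[([(0,6,[(7,9)]),(0,1,[(4,6)])],[]),([(0,35,[(8,9)])],[1])],[4,2,1,1,1,1,1,1,1,1,1,1],false,3,2,[5,6]),
    (true,[([(0,6,[(7,9)]),(0,1,[(4,6)])],[]),([(0,35,[(8,9)])],[1]),([(0,7,[(4,5)])],[1])],[2,1,1,1,1,1,1,1,1],false,2,2,[3]),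
    (true,[([(0,6,[(7,9)]),(0,1,[(4,6)])],[]),([(0,39,[(8,9),(3,3)])],[]),([(0,7,[(4,5)])],[1])],[1,1,1,1,1,1,1,1],false,1,0,[]),
    (true,[([(0,6,[(7,9)]),(0,1,[(4,6)])],[]),([(0,35,[(8,9)])],[1]),([(0,1,[(6,6)])],[1])],[1,1,1,1,1,1,1,1,1],false,1,0,[]),
    (true,[([(0,6,[(7,9)]),(0,0,[(7,8)])],[]),([(0,35,[(8,9)])],[])],[3,2,1,1,1,1,1,1,1,1,1,1],false,3,2,[]),
    (false,[([(0,10,[(7,9),(8,9),(9,9)])],[1,1,1,1,1,1,1,1,1,1,1,1,1,1])],[],false,1,0,[]),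
    (true,[([(0,39,[(10,12)])],[])],[7,5,4,3,1,1,1,1,1,1,1,1,1,1,1],false,5,3,[8,11,12]),
    (true,[([(0,39,[(10,12)])],[]),([(0,5,[(6,8)])],[2])],[7,4,1,1,1,1,1,1,1,1,1],false,3,4,[5,7,8]),
    (true,[([(0,39,[(10,12)])],[]),([(0,5,[(6,8)])],[2]),([(0,7,[(4,5)])],[1])],[7,1,1,1,1,1,1,1],false,2,4,[3,5]),
    (true,[([(0,39,[(10,12)])],[]),([(0,5,[(6,8)]),(0,3,[(3,3)])],[1]),([(0,7,[(4,5)])],[1])],[5,1,1,1,1,1,1,1],false,2,2,[3]),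
    (true,[([(0,39,[(10,12)])],[]),([(0,5,[(6,8)]),(0,3,[(3,3)])],[2]),([(0,5,[(4,5),(3,3)])],[2])],[1,1,1,1,1,1,1],false,1,0,[]),
    (true,[([(0,39,[(10,12)])],[]),([(0,5,[(6,8)])],[2]),([(0,7,[(4,5)])],[1]),([(0,7,[(4,5)])],[1,1,1,1])],[1,1,1,1,1],false,1,0,[2]),
    (true,[([(0,39,[(10,12)])],[]),([(0,6,[(6,8),(2,2)]),(0,7,[(4,5)])],[]),([(0,7,[(4,5)])],[1,1])],[1,1,1,1,1,1,1,1],false,1,0,[]),
    (true,[([(0,39,[(10,12)])],[]),([(0,5,[(6,8)])],[2]),([(0,28,[(6,7)])],[])],[7,1,1,1,1,1,1],false,2,2,[3]),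
    (true,[([(0,39,[(10,12)])],[]),([(0,5,[(6,8)])],[2]),([(0,20,[(6,7),(3,3)])],[2,2])],[1,1,1,1,1,1],false,1,0,[]),
    (false,[([(0,10,[(10,12),(6,8),(8,8)])],[1,1,1,1,1,1,1,1,1,1,1,1,1,1])],[],false,1,0,[]),
    (true,[([(0,47,[(10,12),(9,11)])],[])],[6,1,1,1,1,1,1,1,1,1,1,1,1,1],false,2,4,[3,5]),
    (true,[([(0,39,[(10,12)])],[]),([(0,40,[(9,11),(3,3)])],[3])],[5,1,1,1,1,1,1,1,1],false,2,2,[3]),
    (true,[([(0,39,[(10,12)])],[]),([(0,25,[(9,11),(3,3),(3,3)])],[4])],[1,1,1,1,1,1,1,1,1],false,1,0,[]),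
    (true,[([(0,39,[(10,12)])],[]),([(0,8,[(9,11)]),(0,1,[(4,5)])],[])],[3,1,1,1,1,1,1,1,1,1,1],false,2,1,[]),
    (true,[([(0,17,[(10,12),(12,12)])],[2])],[2,1,1,1,1,1,1,1,1,1,1,1,1,1,1],false,2,1,[]),
    (true,[([(0,37,[(13,16)])],[])],[6,5,4,1,1,1,1,1,1,1,1,1,1,1],false,4,4,[6,8,10]),
    (true,[([(0,37,[(13,16)])],[]),([(0,1,[(5,6)])],[2,2])],[6,1,1,1,1,1,1,1,1,1,1],false,2,5,[3,4,5,6]),
    (true,[([(0,37,[(13,16)])],[]),([(0,1,[(5,6)]),(0,3,[(3,3)])],[2])],[5,1,1,1,1,1,1,1,1,1,1],false,2,3,[3]),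
    (true,[([(0,37,[(13,16)])],[]),([(0,1,[(5,6)]),(0,3,[(3,3)])],[2]),([(0,3,[(3,3)])],[1,1,1])],[1,1,1,1,1,1,1,1,1],false,1,0,[2]),
    (true,[([(0,37,[(13,16)])],[]),([(0,1,[(5,6)]),(0,3,[(3,3)])],[2]),([(0,7,[(3,3),(2,2)])],[1,1])],[1,1,1,1,1,1,1,1],false,1,0,[]),
    (true,[([(0,37,[(13,16)])],[]),([(0,1,[(5,6)]),(0,9,[(4,4)])],[])],[6,1,1,1,1,1,1,1,1,1,1],false,2,2,[3]),
    (true,[([(0,41,[(13,16),(3,3)])],[]),([(0,1,[(5,6)]),(0,9,[(4,4)])],[2])],[1,1,1,1,1,1,1,1,1,1,1],false,1,0,[]),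
    (true,[([(0,37,[(13,16)])],[]),([(0,1,[(5,6)])],[2,2]),([(0,7,[(5,5)])],[1,1,1])],[1,1,1,1,1,1,1,1],false,1,0,[2]),
    (true,[([(0,37,[(13,16)])],[]),([(0,5,[(5,6),(2,2)])],[2,2]),([(0,7,[(5,5)])],[1,1])],[1,1,1,1,1,1,1],false,1,0,[]),
    (false,[([(0,10,[(13,16),(5,6),(6,6)])],[1,1,1,1,1,1,1,1,1,1,1,1,1,1])],[],false,1,0,[]),
    (true,[([(0,37,[(13,16)])],[]),([(0,5,[(7,8)])],[2,2])],[5,1,1,1,1,1,1,1,1,1],false,2,3,[3,4]),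
    (true,[([(0,37,[(13,16)])],[]),([(0,8,[(7,8),(3,3)])],[3,2])],[1,1,1,1,1,1,1,1,1,1],false,1,0,[2]),
    (true,[([(0,37,[(13,16)])],[]),([(0,5,[(7,8)])],[2,2]),([(0,7,[(3,3),(2,2)])],[1,1])],[1,1,1,1,1,1,1],false,1,0,[]),
    (false,[([(0,10,[(13,16),(7,8),(4,4)])],[1,1,1,1,1,1,1,1,1,1,1,1,1,1])],[],false,1,0,[]),
    (true,[([(0,37,[(13,16)])],[]),([(0,6,[(9,10)])],[3,3])],[1,1,1,1,1,1,1,1,1,1],false,1,0,[2]),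
    (false,[([(0,10,[(13,16),(9,10),(2,2)])],[1,1,1,1,1,1,1,1,1,1,1,1,1,1])],[],false,1,0,[]),
    (true,[([(0,2,[(17,20)])],[])],[7,1,1,1,1,1,1,1,1,1,1,1,1,1,1],false,2,5,[3,4,5,6]),
    (true,[([(0,47,[(17,20),(3,3)])],[])],[6,1,1,1,1,1,1,1,1,1,1,1,1,1],false,2,3,[3]),
    (true,[([(0,47,[(17,20),(3,3)])],[]),([(0,3,[(3,3)])],[1,1,1,1])],[1,1,1,1,1,1,1,1,1,1,1,1],false,1,0,[2]),
    (false,[([(0,10,[(17,20),(3,3),(3,3),(2,2)])],[1,1,1,1,1,1,1,1,1,1,1,1,1,1])],[],false,1,0,[]),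
    (true,[([(0,17,[(17,20),(4,4)])],[2])],[2,1,1,1,1,1,1,1,1,1,1,1,1,1,1],false,2,2,[3]),
    (false,[([(0,10,[(17,20),(4,4),(3,3)])],[1,1,1,1,1,1,1,1,1,1,1,1,1,1])],[],false,1,0,[]),
    (false,[([(0,2,[(17,20)]),(0,7,[(5,5)])],[1,1,1,1,1,1,1,1,1,1,1,1])],[4],false,1,0,[2]),
    (false,[([(0,10,[(17,20),(5,5),(2,2)])],[1,1,1,1,1,1,1,1,1,1,1,1,1,1])],[],false,1,0,[]),
    (false,[([(0,26,[(17,20),(6,6)])],[1,1,1,1,1,1,1,1,1,1,1,1,1,1,1])],[1],false,1,0,[]),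
    (true,[([(0,16,[(21,22)])],[3])],[3,1,1,1,1,1,1,1,1,1,1,1,1,1,1],false,2,1,[])])]

theorem cj7f_8_ok : runAllJ S42 R42 F42 21 cj7f_8 = true := by decide +kernel

/-- the minors -/
def G7f : List (List ℕ) := [
  [1,1,1,1,1,1,1,15,1,1,1,1,1,1], [1,1,1,1,1,1,15,1,1,1,1,1,1,1], [1,1,1,1,1,1,1,1,8,1,1,1,1,1],
  [1,1,1,1,1,8,1,1,1,1,1,1,1,1], [1,1,1,1,1,1,1,1,1,6,1,1,1,1], [1,1,1,1,6,1,1,1,1,1,1,1,1,1],
  [1,1,1,1,1,1,1,1,1,1,5,1,1,1], [1,1,1,5,1,1,1,1,1,1,1,1,1,1], [1,1,1,1,1,1,1,1,1,1,1,4,1,1],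
  [1,1,4,1,1,1,1,1,1,1,1,1,1,1], [1,1,1,1,1,1,1,1,1,1,1,1,4,1], [1,4,1,1,1,1,1,1,1,1,1,1,1,1],
  [1,1,1,1,1,1,1,1,1,1,1,1,1,3], [3,1,1,1,1,1,1,1,1,1,1,1,1,1], [2,1,1,1,1,1,1,1,1,1,1,1,2,1],
  [1,2,1,1,1,1,1,1,1,1,1,1,1,2], [1,1,2,1,3,1,1,1,1,1,2,1,1,1], [1,1,1,2,1,1,1,1,1,3,1,2,1,1],
  [1,1,1,3,1,4,1,1,1,1,1,1,1,1], [1,1,1,1,1,1,1,1,4,1,3,1,1,1], [1,2,1,1,1,1,1,1,4,1,1,1,1,1],
  [1,1,1,1,1,4,1,1,1,1,1,1,2,1], [1,1,1,1,2,1,6,1,1,1,1,2,1,1], [1,1,2,1,1,1,1,6,1,2,1,1,1,1],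
  [1,2,1,1,4,1,1,1,1,1,1,1,1,1], [1,1,1,1,1,1,1,1,1,4,1,1,2,1], [1,1,1,1,1,1,1,7,1,1,3,1,1,1],
  [1,1,1,3,1,1,7,1,1,1,1,1,1,1], [1,1,1,1,1,1,1,3,1,1,4,1,1,1], [1,1,1,4,1,1,3,1,1,1,1,1,1,1],
  [1,3,1,1,2,1,1,1,1,1,1,1,1,1], [1,1,1,1,1,1,1,1,1,2,1,1,3,1], [1,1,2,1,1,1,1,1,1,2,1,1,2,1],
  [1,2,1,1,2,1,1,1,1,1,1,2,1,1], [1,1,1,1,1,2,1,1,1,1,1,1,3,1], [1,3,1,1,1,1,1,1,2,1,1,1,1,1],
  [1,1,1,1,1,1,5,1,1,1,1,3,1,1], [1,1,3,1,1,1,1,5,1,1,1,1,1,1], [1,1,1,2,1,3,7,1,1,1,1,1,1,1],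
  [1,1,1,1,1,1,1,7,3,1,2,1,1,1], [1,1,1,1,1,1,1,1,1,3,3,1,1,1], [1,1,1,3,3,1,1,1,1,1,1,1,1,1],
  [2,1,1,1,1,1,1,1,1,3,1,1,1,1], [1,1,1,1,3,1,1,1,1,1,1,1,1,2], [1,2,1,1,1,5,1,1,1,1,1,1,1,1],
  [1,1,1,1,1,1,1,1,5,1,1,1,2,1], [1,1,3,1,1,3,1,1,1,1,1,1,1,1], [1,1,1,1,1,1,1,1,3,1,1,3,1,1],
  [1,1,1,1,1,2,1,1,1,5,1,1,1,1], [1,1,1,1,5,1,1,1,2,1,1,1,1,1], [2,1,1,1,1,1,5,1,2,1,1,1,1,1],
  [1,1,1,1,1,2,1,5,1,1,1,1,1,2], [1,2,3,1,1,1,1,1,1,1,1,1,1,1], [1,1,1,1,1,1,1,1,1,1,1,3,2,1],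
  [1,2,2,1,1,1,1,4,1,1,1,1,1,1], [1,1,1,1,1,1,4,1,1,1,1,2,2,1], [1,2,1,1,1,1,1,5,1,2,1,1,1,1],
  [1,1,1,1,2,1,5,1,1,1,1,1,2,1], [1,1,1,2,1,1,1,1,1,1,3,1,1,1], [1,1,1,3,1,1,1,1,1,1,2,1,1,1],
  [1,1,1,1,1,1,1,10,1,1,1,2,1,1], [1,1,2,1,1,1,10,1,1,1,1,1,1,1], [1,1,1,1,1,1,1,13,2,1,1,1,1,1],
  [1,1,1,1,1,2,13,1,1,1,1,1,1,1], [1,1,1,2,1,1,1,11,1,1,1,1,1,1], [1,1,1,1,1,1,11,1,1,1,2,1,1,1],
  [1,1,1,1,1,1,7,9,1,1,1,1,1,1], [1,1,1,1,1,1,9,7,1,1,1,1,1,1], [1,2,2,1,1,3,1,1,1,1,1,1,1,1],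
  [1,1,1,1,1,1,1,1,3,1,1,2,2,1], [1,1,1,1,1,1,1,4,3,1,1,1,1,2], [2,1,1,1,1,3,4,1,1,1,1,1,1,1],
  [2,1,2,1,1,1,3,1,1,1,1,1,1,1], [1,1,1,1,1,1,1,3,1,1,1,2,1,2], [1,1,2,4,1,1,1,1,1,1,1,1,1,1],
  [1,1,1,1,1,1,1,1,1,1,4,2,1,1], [1,1,3,2,1,1,1,1,1,1,1,1,1,1], [1,1,1,1,1,1,1,1,1,1,2,3,1,1],
  [2,1,1,3,1,1,1,1,1,1,1,1,1,1], [1,1,1,1,1,1,1,1,1,1,3,1,1,2], [1,1,1,1,2,1,12,1,1,1,1,1,1,1],
  [1,1,1,1,1,1,1,12,1,2,1,1,1,1], [1,1,1,1,1,1,1,1,6,1,1,2,1,1], [1,1,2,1,1,6,1,1,1,1,1,1,1,1],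
  [2,1,1,1,2,3,1,1,1,1,1,1,1,1], [1,1,1,1,1,1,1,1,3,2,1,1,1,2], [1,1,1,2,1,2,1,1,5,1,1,1,1,1],
  [1,1,1,1,1,5,1,1,2,1,2,1,1,1], [1,1,2,1,1,1,1,2,1,1,1,1,1,2], [2,1,1,1,1,1,2,1,1,1,1,2,1,1],
  [1,1,1,2,1,1,1,5,1,1,1,2,1,1], [1,1,2,1,1,1,5,1,1,1,2,1,1,1], [1,1,3,1,1,1,1,1,1,2,1,1,1,1],
  [1,1,1,1,2,1,1,1,1,1,1,3,1,1], [1,1,1,1,1,7,3,1,1,1,1,1,1,1], [1,1,1,1,1,1,1,3,7,1,1,1,1,1]]

noncomputable def T7f : BT :=
  .split 0 3 (.split 1 4 (.split 2 4 (.split 3 5 (.split 4 6 (.split 5 8 (.split 6 15 (.split 7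
  15 (.split 8 8 (.split 9 6 (.split 10 5 (.split 11 4 (.split 12 4 (.split 13 3 (.split 12 2
  (.split 1 2 (.split 13 2 (.split 0 2 (.split 11 2 (.split 10 3 (.split 9 3 (.split 3 3 (.split
  2 2 (.split 7 8 (.split 6 8 .small (.split 5 7 (.split 8 4 .small (.split 4 5 .small (.minor
  49))) (.minor 94))) (.split 6 9 (.split 8 7 (.split 5 4 .small (.split 4 3 .small (.split 8 4
  .small (.split 4 5 (.split 7 13 .small (.minor 62)) (.minor 49))))) (.minor 95)) (.minor 67)))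
  (.split 5 6 (.split 6 10 (.split 7 8 (.split 8 4 (.split 4 3 .small (.split 10 2 .small
  (.minor 16))) (.split 4 5 (.split 4 3 (.split 6 5 .small (.split 10 2 .small (.minor 91)))
  (.split 10 2 .small (.minor 16))) (.minor 49))) (.split 2 3 (.split 6 9 (.split 8 7 (.split 9
  2 (.split 4 3 .small (.split 10 2 .small (.minor 16))) (.minor 23)) (.minor 95)) (.minor 67))
  (.minor 37))) (.minor 61)) (.minor 83))) (.split 2 3 (.split 4 3 (.split 5 4 (.split 6 7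
  (.split 7 11 .small (.minor 64)) (.minor 27)) (.minor 18)) (.minor 41)) (.minor 76))) (.split
  2 3 (.split 7 12 (.split 3 3 (.split 6 8 (.split 8 4 (.split 5 4 (.split 4 3 .small (.split 7
  6 .small (.split 2 2 .small (.minor 23)))) (.split 9 5 (.split 4 3 .small (.split 7 6 (.split
  2 2 .small (.split 5 6 .small (.minor 83))) (.split 2 2 .small (.minor 23)))) (.minor 48)))
  (.split 4 5 (.split 5 4 (.split 7 6 (.split 2 2 .small (.split 4 3 .small (.split 10 2 .small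
  (.minor 16)))) (.split 2 2 .small (.minor 23))) (.split 9 5 (.split 7 6 (.split 4 3 (.split 2
  2 .small (.split 5 6 .small (.minor 83))) (.split 2 2 .small (.split 5 6 (.split 10 2 .small
  (.minor 16)) (.minor 83)))) (.split 2 2 (.split 8 7 (.split 4 3 .small (.split 6 4 .small
  (.split 5 7 (.split 10 2 .small (.split 5 5 .small (.minor 87))) (.minor 94)))) (.minor 95))
  (.minor 23))) (.minor 48))) (.minor 49))) (.split 5 7 (.split 7 9 (.split 8 4 (.split 4 3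
  (.split 5 4 .small (.split 3 2 (.split 6 13 .small (.minor 63)) (.minor 38))) (.split 6 12
  (.split 5 4 (.split 2 2 .small (.split 6 10 (.split 7 6 (.split 10 2 .small (.minor 16))
  (.minor 23)) (.minor 61))) (.split 3 2 (.split 9 5 (.split 2 2 .small (.split 5 6 (.split 6 10
  .small (.minor 61)) (.minor 83))) (.minor 48)) (.minor 38))) (.minor 80))) (.split 4 5 (.split
  5 4 (.split 2 2 (.split 4 3 .small (.split 6 12 (.split 7 5 .small (.split 8 7 .small (.minor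
  95))) (.minor 80))) (.split 6 10 (.split 7 6 (.split 10 2 .small (.minor 91)) (.minor 23))
  (.minor 61))) (.split 3 2 (.split 6 13 (.split 9 5 (.split 4 3 (.split 2 2 .small (.split 5 6
  (.split 6 10 .small (.minor 61)) (.minor 83))) (.split 6 12 (.split 2 2 .small (.split 5 6
  (.split 6 10 (.split 7 6 (.split 10 2 .small (.minor 16)) (.minor 23)) (.minor 61)) (.minor
  83))) (.minor 80))) (.minor 48)) (.minor 63)) (.minor 38))) (.minor 49))) (.minor 66)) (.minor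
  94))) (.split 4 3 (.split 5 4 (.split 6 7 (.split 7 11 (.split 10 2 (.split 8 4 .small (.split
  7 6 .small (.split 2 2 .small (.minor 23)))) (.minor 59)) (.minor 64)) (.minor 27)) (.minor
  18)) (.minor 41))) (.minor 81)) (.minor 92))) (.split 3 2 (.split 6 11 (.split 7 7 (.split 8 4
  (.split 9 3 (.split 2 2 .small (.split 4 3 (.split 5 6 .small (.minor 83)) (.minor 16)))
  (.minor 40)) (.minor 19)) (.minor 26)) (.minor 65)) (.minor 58))) (.split 7 10 (.split 8 6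
  (.split 10 4 (.split 2 2 (.split 3 3 (.split 4 3 (.split 6 8 (.split 9 3 (.split 5 4 .small
  (.split 10 2 .small (.split 11 3 .small (.minor 77)))) (.split 3 2 (.split 10 3 (.split 5 4
  .small (.split 9 5 .small (.minor 48))) (.minor 40)) (.minor 17))) (.split 4 2 (.split 5 7
  (.split 7 9 (.split 11 3 (.split 9 3 .small (.split 3 2 (.split 10 3 .small (.minor 40))
  (.minor 17))) (.minor 36)) (.minor 66)) (.minor 94)) (.minor 22))) (.split 6 6 (.split 11 3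
  (.split 9 3 (.split 5 4 (.split 10 2 .small (.split 8 3 .small (.split 4 5 .small (.minor
  49)))) (.split 10 2 .small (.split 8 3 (.split 7 5 .small (.split 3 2 .small (.minor 90)))
  (.split 4 5 (.split 5 5 .small (.minor 87)) (.minor 49))))) (.split 3 2 (.split 10 3 (.split 5
  4 .small (.split 9 5 (.split 8 3 .small (.split 4 5 .small (.minor 49))) (.minor 48))) (.minor
  40)) (.minor 17))) (.minor 93)) (.minor 22))) (.split 4 3 (.split 5 4 (.split 6 7 (.split 7 5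
  (.split 9 3 (.split 10 2 .small (.minor 59)) (.minor 17)) (.minor 90)) (.minor 27)) (.minor
  18)) (.minor 41))) (.split 3 4 (.split 5 6 (.split 6 10 (.split 9 3 (.split 4 3 (.split 10 2
  (.split 3 2 (.split 11 3 .small (.split 4 2 .small (.minor 93))) (.split 2 3 (.split 7 5
  (.split 11 3 .small (.split 4 2 .small (.minor 93))) (.minor 90)) (.minor 76))) (.split 3 3
  (.split 6 5 (.split 11 3 (.split 2 3 (.split 8 3 .small (.split 5 5 .small (.minor 87)))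
  (.split 3 2 (.split 5 3 .small (.minor 46)) (.minor 76))) (.minor 77)) (.minor 91)) (.minor
  59))) (.split 3 3 (.split 6 6 (.split 10 2 (.split 11 3 (.split 8 3 (.split 7 5 .small (.split
  2 3 .small (.minor 37))) (.split 4 5 (.split 7 5 .small (.split 2 3 .small (.minor 37)))
  (.minor 49))) (.minor 93)) (.minor 16)) (.minor 22)) (.minor 41))) (.split 2 3 (.split 3 2
  (.split 7 6 (.split 10 3 (.split 4 3 (.split 9 4 (.split 8 3 .small (.split 11 3 .small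
  (.minor 47))) (.split 8 3 (.split 6 5 .small (.split 10 2 .small (.minor 91))) (.split 11 3
  (.split 6 5 .small (.split 10 2 .small (.minor 91))) (.minor 47)))) (.split 6 6 (.split 10 2
  (.split 11 3 (.split 9 4 .small (.split 8 3 .small (.split 4 5 (.split 5 3 .small (.split 9 5
  .small (.minor 48))) (.minor 49)))) (.minor 93)) (.minor 16)) (.minor 22))) (.minor 40))
  (.minor 23)) (.minor 17)) (.minor 92))) (.minor 61)) (.minor 83)) (.minor 74))) (.minor 75))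
  (.minor 82)) (.minor 60))) (.split 3 3 (.split 9 3 (.split 11 2 (.split 7 8 (.split 10 3
  (.split 8 4 (.split 2 2 (.split 6 8 (.split 7 4 .small (.split 5 4 .small (.split 4 2 .small
  (.minor 84)))) (.split 5 3 (.split 8 2 .small (.minor 50)) (.minor 71))) (.split 5 6 (.split 6
  3 (.split 7 4 (.split 4 3 .small (.split 5 3 .small (.minor 84))) (.split 4 3 (.split 10 2
  .small (.split 5 3 .small (.split 2 3 .small (.minor 46)))) (.split 5 3 (.split 10 2 .small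
  (.minor 16)) (.minor 84)))) (.minor 72)) (.minor 83))) (.split 4 5 (.split 6 5 (.split 2 2
  (.split 7 4 (.split 5 4 .small (.split 4 2 .small (.minor 84))) (.split 8 7 (.split 5 4
  (.split 4 3 .small (.split 5 3 .small (.minor 84))) (.split 4 2 (.split 6 4 .small (.minor
  71)) (.minor 84))) (.minor 95))) (.split 5 6 (.split 6 3 (.split 7 4 (.split 8 6 (.split 4 3
  (.split 10 2 .small (.split 5 5 .small (.minor 87))) (.split 5 3 (.split 10 2 .small (.minor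
  16)) (.minor 84))) (.split 4 3 (.split 10 2 .small (.split 5 5 (.split 2 3 .small (.split 3 2
  .small (.minor 76))) (.minor 87))) (.split 5 3 (.split 10 2 .small (.minor 16)) (.minor 84))))
  (.split 8 7 (.split 4 3 (.split 10 2 (.split 5 3 .small (.split 2 3 .small (.minor 46)))
  (.split 5 5 (.split 7 7 (.split 2 3 (.split 8 5 .small (.split 5 3 .small (.split 3 2 .small
  (.minor 86)))) (.split 3 2 (.split 5 3 .small (.minor 46)) (.minor 76))) (.minor 39)) (.minor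
  87))) (.split 5 3 (.split 10 2 (.split 9 2 .small (.split 2 3 .small (.minor 92))) (.minor
  16)) (.minor 84))) (.minor 95))) (.minor 72)) (.minor 83))) (.minor 50)) (.minor 49))) (.split
  3 2 (.split 6 11 (.split 7 7 (.split 8 4 (.split 2 2 (.split 5 4 (.split 4 3 .small (.split 5
  3 (.split 7 4 .small (.split 10 4 .small (.minor 28))) (.minor 84))) (.split 4 2 (.split 6 4
  .small (.minor 71)) (.minor 84))) (.split 4 3 (.split 5 6 (.split 6 3 (.split 7 4 (.split 2 3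
  .small (.split 5 3 .small (.minor 46))) (.split 10 4 (.split 5 3 .small (.split 2 3 .small
  (.minor 46))) (.minor 28))) (.minor 72)) (.minor 83)) (.minor 16))) (.minor 19)) (.minor 26))
  (.minor 65)) (.minor 58))) (.split 2 3 (.split 6 9 (.split 8 7 (.split 10 3 (.split 8 4
  (.split 7 11 (.split 5 4 (.split 4 3 (.split 10 2 .small (.split 8 3 (.split 6 5 .small
  (.split 2 2 .small (.minor 72))) (.minor 39))) (.split 5 3 (.split 10 2 (.split 6 5 .small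
  (.split 2 2 .small (.minor 72))) (.split 2 2 (.split 8 3 (.split 6 5 .small (.split 8 2 .small
  (.minor 50))) (.minor 39)) (.minor 16))) (.minor 84))) (.split 4 2 (.split 6 4 (.split 10 2
  .small (.split 8 3 (.split 2 2 .small (.split 5 6 .small (.minor 83))) (.minor 39))) (.minor
  71)) (.minor 84))) (.split 3 2 (.split 6 7 (.split 5 4 (.split 4 3 (.split 2 2 .small (.split
  6 3 (.split 9 2 .small (.minor 23)) (.minor 72))) (.split 5 3 (.split 2 2 (.split 8 2 .small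
  (.split 4 5 (.split 6 5 .small (.minor 50)) (.minor 49))) (.split 6 3 (.split 9 2 (.split 10 2
  .small (.minor 16)) (.minor 23)) (.minor 72))) (.minor 84))) (.split 4 2 (.split 6 4 (.split 2
  2 .small (.split 5 6 (.split 6 3 (.split 9 2 .small (.minor 23)) (.minor 72)) (.minor 83)))
  (.minor 71)) (.minor 84))) (.minor 66)) (.minor 64))) (.split 4 5 (.split 6 5 (.split 7 13
  (.split 10 2 (.split 5 4 (.split 4 3 (.split 7 10 .small (.split 8 5 .small (.split 2 2 .small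
  (.split 6 3 (.split 9 2 .small (.minor 23)) (.minor 72))))) (.split 5 3 (.split 7 10 (.split 8
  5 .small (.split 2 2 .small (.split 6 3 (.split 9 2 .small (.minor 23)) (.minor 72)))) (.split
  8 5 (.split 2 2 .small (.split 6 3 (.split 9 2 .small (.minor 23)) (.minor 72))) (.split 2 2
  (.split 9 2 .small (.split 7 12 (.split 3 2 .small (.split 5 2 .small (.minor 86))) (.minor
  81))) (.split 6 3 (.split 9 2 (.split 7 11 .small (.split 3 2 .small (.minor 64))) (.minor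
  23)) (.minor 72))))) (.minor 84))) (.split 4 2 (.split 6 4 (.split 7 10 (.split 8 5 .small
  (.split 3 2 .small (.minor 86))) (.split 8 5 (.split 5 6 .small (.split 2 2 .small (.minor
  83))) (.split 3 2 (.split 5 6 (.split 2 2 .small (.split 6 3 (.split 9 2 .small (.minor 23))
  (.minor 72))) (.split 2 2 .small (.minor 83))) (.minor 86)))) (.minor 71)) (.minor 84)))
  (.minor 39)) (.minor 62)) (.minor 50)) (.minor 49))) (.minor 26)) (.minor 95)) (.minor 67))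
  (.minor 37))) (.split 6 2 (.split 7 10 (.split 8 6 (.split 10 4 (.split 4 3 (.split 2 2
  (.split 7 5 (.split 10 2 (.split 8 3 .small (.split 11 3 .small (.minor 47))) (.split 11 3
  (.split 8 3 .small (.split 5 5 .small (.minor 87))) (.minor 77))) (.split 3 2 (.split 8 3
  (.split 5 4 .small (.split 4 2 (.split 10 2 .small (.split 11 3 .small (.minor 77))) (.minor
  84))) (.split 11 3 (.split 5 4 (.split 10 2 .small (.split 7 7 .small (.minor 39))) (.split 4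
  2 (.split 10 2 .small (.split 5 5 .small (.minor 87))) (.minor 84))) (.minor 47))) (.minor
  90))) (.split 5 6 (.split 10 2 (.split 7 5 (.split 8 3 (.split 11 3 .small (.split 4 2 .small
  (.minor 93))) (.split 11 3 (.split 5 3 .small (.split 2 3 .small (.minor 46))) (.minor 47)))
  (.split 2 3 (.split 3 2 (.split 8 3 (.split 11 3 .small (.split 4 2 .small (.minor 93)))
  (.split 11 3 (.split 7 7 .small (.split 9 2 .small (.minor 23))) (.minor 47))) (.minor 90))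
  (.minor 37))) (.split 11 3 (.split 7 5 (.split 8 3 (.split 2 3 (.split 5 3 .small (.split 4 2
  .small (.minor 84))) (.split 3 2 (.split 5 3 .small (.minor 46)) (.minor 76))) (.split 5 5
  (.split 2 3 (.split 10 3 (.split 8 4 .small (.split 7 3 .small (.split 5 3 .small (.split 4 2
  .small (.minor 84))))) (.split 3 2 (.split 8 4 .small (.minor 19)) (.minor 58))) (.split 3 2
  (.split 5 3 (.split 9 2 (.split 10 3 .small (.split 8 4 .small (.minor 19))) (.minor 92))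
  (.minor 46)) (.minor 76))) (.minor 87))) (.split 2 3 (.split 3 2 (.split 8 3 (.split 7 7
  .small (.split 9 2 .small (.minor 23))) (.split 5 5 (.split 7 7 (.split 10 3 .small (.split 8
  4 .small (.minor 19))) (.minor 39)) (.minor 87))) (.minor 90)) (.minor 37))) (.minor 77)))
  (.minor 83))) (.split 5 3 (.split 11 3 (.split 2 2 (.split 7 5 (.split 10 2 .small (.split 8 3
  .small (.split 4 5 (.split 3 2 .small (.split 10 3 .small (.minor 58))) (.minor 49)))) (.split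
  3 2 (.split 8 3 (.split 10 2 .small (.split 7 7 .small (.split 10 3 .small (.minor 26))))
  (.split 4 5 (.split 10 2 .small (.split 7 7 (.split 8 4 .small (.split 10 3 .small (.minor
  19))) (.minor 39))) (.minor 49))) (.minor 90))) (.split 10 2 (.split 7 5 (.split 8 3 (.split 4
  4 .small (.split 2 3 .small (.split 3 2 .small (.minor 76)))) (.split 4 5 (.split 2 3 .small
  (.split 3 2 (.split 9 2 .small (.minor 92)) (.minor 76))) (.minor 49))) (.split 2 3 (.split 3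
  2 (.split 8 3 .small (.split 4 5 (.split 7 7 .small (.split 9 2 .small (.minor 23))) (.minor
  49))) (.minor 90)) (.minor 37))) (.minor 16))) (.minor 93)) (.minor 84))) (.minor 75)) (.minor
  82)) (.minor 60)) (.minor 89))) (.minor 42)) (.minor 78))) (.split 4 3 (.split 10 3 (.split 0
  2 (.split 6 8 (.split 2 2 (.split 3 3 (.split 5 4 (.split 11 2 (.split 7 8 (.split 9 3 .small
  (.split 8 3 .small (.minor 85))) (.split 5 2 (.split 8 3 .small (.minor 70)) (.minor 51)))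
  (.split 7 3 (.split 8 6 (.split 9 3 (.split 6 4 .small (.split 8 3 .small (.split 9 2 .small
  (.minor 85)))) (.split 3 2 (.split 8 3 .small (.minor 85)) (.minor 17))) (.minor 82)) (.minor
  73))) (.split 7 5 (.split 9 5 (.split 11 2 (.split 8 4 (.split 6 4 .small (.split 5 7 (.split
  9 3 .small (.split 8 3 .small (.minor 85))) (.minor 94))) (.split 7 4 (.split 9 2 (.split 6 4
  .small (.split 5 7 .small (.minor 94))) (.minor 85)) (.minor 70))) (.split 7 3 (.split 8 6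
  (.split 6 4 (.split 9 3 (.split 5 6 (.split 8 3 .small (.split 9 2 .small (.minor 85)))
  (.split 8 3 (.split 3 2 .small (.split 11 3 .small (.split 4 2 .small (.minor 93)))) (.split 9
  2 (.split 10 2 .small (.minor 87)) (.minor 85)))) (.split 3 2 (.split 8 3 .small (.minor 85))
  (.minor 17))) (.split 5 7 (.split 9 3 (.split 8 3 (.split 3 2 .small (.split 6 7 (.split 11 3
  .small (.split 4 2 .small (.minor 93))) (.minor 38))) (.split 9 2 (.split 11 3 (.split 3 2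
  .small (.split 6 7 .small (.minor 38))) (.minor 47)) (.minor 85))) (.split 3 2 (.split 8 3
  (.split 11 3 .small (.split 4 2 .small (.minor 93))) (.minor 85)) (.minor 17))) (.minor 94)))
  (.minor 82)) (.minor 73))) (.minor 48)) (.minor 51))) (.split 5 4 (.split 6 7 (.split 7 11
  (.split 10 2 (.split 11 2 (.split 9 3 (.split 8 4 .small (.split 7 4 .small (.minor 70)))
  (.split 8 3 (.split 6 4 .small (.split 3 4 .small (.minor 29))) (.minor 85))) (.split 7 3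
  (.split 8 6 (.split 9 3 (.split 6 4 (.split 11 3 .small (.split 4 2 .small (.minor 93)))
  (.split 3 4 (.split 11 3 .small (.split 4 2 .small (.minor 93))) (.minor 29))) (.minor 17))
  (.minor 82)) (.minor 73))) (.minor 59)) (.minor 64)) (.minor 27)) (.minor 18))) (.split 3 4
  (.split 5 6 (.split 7 2 (.split 11 2 (.split 9 3 (.split 8 4 (.split 6 4 (.split 5 3 .small
  (.split 2 3 .small (.minor 46))) (.split 5 3 (.split 3 2 .small (.split 2 3 .small (.minor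
  76))) (.split 2 3 (.split 3 2 .small (.split 6 7 (.split 10 2 .small (.split 3 3 .small
  (.minor 59))) (.minor 38))) (.minor 46)))) (.split 9 2 (.split 6 4 (.split 5 3 .small (.split
  2 3 .small (.minor 46))) (.split 5 3 (.split 3 2 .small (.split 2 3 .small (.minor 76)))
  (.split 2 3 (.split 3 2 .small (.split 6 7 (.split 8 5 .small (.minor 86)) (.minor 38)))
  (.minor 46)))) (.minor 85))) (.split 2 3 (.split 8 3 (.split 6 4 (.split 5 3 .small (.split 9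
  5 (.split 3 2 .small (.split 10 2 .small (.split 3 3 .small (.minor 59)))) (.minor 48)))
  (.split 5 3 (.split 3 2 .small (.split 9 4 .small (.split 10 2 .small (.split 3 3 .small
  (.minor 59))))) (.split 9 5 (.split 3 2 .small (.split 6 7 (.split 10 2 (.split 5 4 .small
  (.split 3 3 .small (.minor 18))) (.split 3 3 (.split 6 5 .small (.minor 91)) (.minor 59)))
  (.minor 38))) (.minor 48)))) (.minor 85)) (.minor 92))) (.split 8 6 (.split 9 3 (.split 3 2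
  (.split 6 4 (.split 5 3 (.split 2 3 .small (.split 9 2 .small (.minor 92))) (.split 2 3
  (.split 8 3 .small (.split 9 2 .small (.minor 85))) (.minor 46))) (.split 5 3 (.split 2 3
  (.split 8 3 .small (.split 9 2 .small (.minor 85))) (.split 9 2 (.split 11 3 .small (.split 4
  2 .small (.minor 93))) (.minor 92))) (.split 2 3 (.split 8 3 (.split 11 3 .small (.split 4 2
  .small (.minor 93))) (.split 9 2 (.split 11 3 .small (.minor 47)) (.minor 85))) (.minor 46))))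
  (.split 2 3 (.split 6 4 (.split 5 3 (.split 11 3 .small (.split 4 2 (.split 8 3 .small (.minor
  47)) (.minor 93))) (.split 8 5 (.split 11 3 (.split 10 2 .small (.split 3 3 .small (.minor
  59))) (.split 4 2 (.split 8 3 (.split 10 2 .small (.minor 77)) (.minor 47)) (.minor 93)))
  (.minor 86))) (.split 5 3 (.split 11 3 (.split 8 3 (.split 10 2 .small (.split 3 3 .small
  (.minor 59))) (.split 9 2 (.split 10 2 .small (.split 3 3 .small (.minor 59))) (.minor 85)))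
  (.split 4 2 (.split 6 5 (.split 8 3 .small (.minor 47)) (.minor 36)) (.minor 93))) (.split 6 7
  (.split 8 5 (.split 11 3 (.split 10 2 (.split 8 3 (.split 5 4 .small (.split 3 3 .small
  (.minor 18))) (.split 9 2 (.split 5 4 .small (.split 3 3 .small (.minor 18))) (.minor 85)))
  (.split 3 3 (.split 6 5 (.split 8 3 .small (.split 5 5 .small (.minor 87))) (.minor 91))
  (.minor 59))) (.split 4 2 (.split 6 5 (.split 8 3 (.split 10 2 (.split 3 3 .small (.split 5 4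
  .small (.minor 18))) (.minor 77)) (.minor 47)) (.minor 36)) (.minor 93))) (.minor 86)) (.minor
  38)))) (.minor 76))) (.split 2 3 (.split 3 2 (.split 8 3 (.split 6 4 (.split 5 3 .small
  (.split 9 5 (.split 11 3 .small (.split 4 2 .small (.minor 93))) (.minor 48))) (.split 5 3
  (.split 9 4 .small (.split 11 3 .small (.split 4 2 (.split 6 5 .small (.minor 36)) (.minor
  93)))) (.split 9 5 (.split 11 3 (.split 6 6 (.split 5 4 .small (.split 10 2 .small (.split 6 5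
  .small (.minor 91)))) (.split 4 2 .small (.minor 22))) (.split 4 2 (.split 6 5 .small (.minor
  36)) (.minor 93))) (.minor 48)))) (.minor 85)) (.minor 17)) (.minor 92))) (.minor 82)))
  (.minor 88)) (.minor 83)) (.minor 74))) (.split 3 3 (.split 5 7 (.split 7 9 (.split 11 3
  (.split 2 2 (.split 5 4 (.split 9 3 (.split 8 4 (.split 6 11 (.split 11 2 .small (.split 4 2
  .small (.minor 22))) (.split 7 7 (.split 10 2 (.split 11 2 .small (.split 4 2 .small (.minor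
  22))) (.minor 65)) (.minor 67))) (.split 7 4 (.split 9 2 (.split 6 11 (.split 11 2 .small
  (.split 4 2 .small (.minor 22))) (.split 10 2 (.split 11 2 .small (.split 4 2 (.split 7 3
  (.split 8 6 .small (.minor 82)) (.minor 73)) (.minor 22))) (.minor 65))) (.minor 85)) (.minor
  70))) (.split 8 3 (.split 6 11 (.split 11 2 (.split 7 5 .small (.split 5 2 .small (.minor
  51))) (.split 3 2 (.split 4 2 .small (.minor 22)) (.minor 17))) (.split 7 7 (.split 10 2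
  (.split 11 2 (.split 9 4 .small (.split 6 13 (.split 5 2 .small (.split 7 5 .small (.minor
  51))) (.split 4 2 (.split 5 2 .small (.minor 63)) (.minor 80)))) (.split 3 2 (.split 4 2
  (.split 7 3 .small (.minor 73)) (.minor 22)) (.minor 17))) (.minor 65)) (.minor 67))) (.minor
  85))) (.split 3 2 (.split 6 13 (.split 7 5 (.split 9 5 (.split 8 4 (.split 9 3 (.split 6 10
  .small (.split 11 2 .small (.split 4 2 (.split 7 3 .small (.minor 73)) (.minor 22)))) (.split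
  8 3 (.split 6 10 (.split 11 2 .small (.split 4 2 .small (.minor 22))) (.split 11 2 (.split 5 5
  .small (.split 10 2 .small (.split 6 11 .small (.minor 65)))) (.split 4 2 (.split 7 3 (.split
  5 5 .small (.split 10 2 .small (.split 6 11 .small (.minor 65)))) (.minor 73)) (.minor 22))))
  (.minor 85))) (.split 7 4 (.split 9 2 (.split 6 10 (.split 11 2 .small (.split 4 2 .small
  (.minor 22))) (.split 11 2 (.split 8 6 .small (.split 5 5 .small (.split 10 2 .small (.minor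
  87)))) (.split 4 2 (.split 7 3 (.split 8 6 .small (.minor 82)) (.minor 73)) (.minor 22))))
  (.minor 85)) (.minor 70))) (.minor 48)) (.minor 51)) (.minor 63)) (.minor 38))) (.split 5 6
  (.split 6 10 (.split 7 2 (.split 10 2 (.split 9 3 (.split 8 4 (.split 5 3 (.split 11 2 .small
  (.split 4 2 .small (.minor 22))) (.split 2 3 (.split 3 2 .small (.minor 38)) (.minor 46)))
  (.split 9 2 (.split 5 3 (.split 11 2 .small (.split 4 2 (.split 8 6 .small (.minor 82))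
  (.minor 22))) (.split 2 3 (.split 3 2 (.split 11 2 .small (.split 4 2 .small (.minor 22)))
  (.minor 38)) (.minor 46))) (.minor 85))) (.split 2 3 (.split 8 3 (.split 5 3 (.split 11 2
  .small (.split 3 2 .small (.minor 17))) (.split 3 2 (.split 9 5 (.split 11 2 .small (.split 4
  2 .small (.minor 22))) (.minor 48)) (.minor 38))) (.minor 85)) (.minor 92))) (.minor 91))
  (.minor 88)) (.minor 61)) (.minor 83))) (.minor 36)) (.minor 66)) (.minor 94)) (.minor 27)))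
  (.split 3 3 (.split 9 3 (.split 7 8 (.split 6 8 (.split 11 2 (.split 8 4 (.split 5 4 (.split 2
  2 (.split 7 4 .small (.split 8 3 (.split 6 4 .small (.split 5 3 (.split 10 2 .small (.split 7
  6 .small (.split 5 2 .small (.minor 51)))) (.minor 71))) (.minor 70))) (.split 6 3 (.split 7 2
  (.split 10 2 .small (.split 2 3 .small (.split 3 2 .small (.minor 76)))) (.minor 88)) (.minor
  72))) (.split 2 3 (.split 4 2 (.split 6 4 (.split 7 5 (.split 5 6 (.split 2 2 .small (.split 6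
  3 (.split 7 2 .small (.minor 88)) (.minor 72))) (.split 2 2 (.split 10 2 .small (.split 8 2
  .small (.minor 87))) (.minor 83))) (.minor 51)) (.minor 71)) (.minor 84)) (.minor 46)))
  (.split 6 5 (.split 7 4 (.split 9 2 (.split 5 4 (.split 2 2 (.split 8 6 .small (.split 10 2
  .small (.split 6 3 .small (.split 5 2 .small (.split 3 2 .small (.minor 86)))))) (.split 6 3
  (.split 7 2 (.split 8 6 (.split 10 2 .small (.split 2 3 .small (.split 3 2 .small (.minor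
  76)))) (.split 10 2 .small (.split 2 3 (.split 5 2 .small (.split 3 2 .small (.minor 86)))
  (.split 3 2 (.split 5 3 .small (.minor 46)) (.minor 76))))) (.minor 88)) (.minor 72))) (.split
  2 3 (.split 4 2 (.split 6 4 (.split 8 6 (.split 5 6 (.split 10 2 .small (.split 5 5 .small
  (.minor 87))) (.split 2 2 (.split 10 2 .small (.minor 87)) (.minor 83))) (.split 3 2 (.split 5
  6 (.split 2 2 .small (.split 6 3 (.split 7 2 .small (.minor 88)) (.minor 72))) (.split 2 2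
  (.split 10 2 .small (.minor 87)) (.minor 83))) (.minor 86))) (.minor 71)) (.minor 84)) (.minor
  46))) (.minor 85)) (.minor 70)) (.minor 50))) (.split 6 2 (.split 7 3 (.split 8 6 (.split 2 2
  (.split 5 4 (.split 8 3 .small (.split 9 2 (.split 11 3 .small (.minor 47)) (.minor 85)))
  (.split 4 2 (.split 8 3 (.split 5 6 .small (.split 3 2 .small (.split 11 3 .small (.split 10 2
  .small (.minor 77))))) (.split 9 2 (.split 11 3 (.split 5 6 .small (.split 10 2 .small (.minor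
  87))) (.minor 47)) (.minor 85))) (.minor 84))) (.split 5 6 (.split 7 2 (.split 8 3 (.split 5 3
  (.split 11 3 (.split 2 3 .small (.split 3 2 .small (.minor 76))) (.split 4 2 (.split 10 2
  .small (.minor 77)) (.minor 93))) (.split 2 3 (.split 4 2 (.split 11 3 .small (.split 10 2
  .small (.minor 77))) (.minor 84)) (.minor 46))) (.split 9 2 (.split 11 3 (.split 5 3 (.split
  10 2 .small (.split 2 3 .small (.split 3 2 .small (.minor 76)))) (.split 2 3 (.split 4 2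
  (.split 10 2 .small (.split 5 5 .small (.minor 87))) (.minor 84)) (.minor 46))) (.minor 47))
  (.minor 85))) (.minor 88)) (.minor 83))) (.minor 82)) (.minor 73)) (.minor 89))) (.split 2 2
  (.split 5 3 (.split 8 2 (.split 11 2 (.split 7 4 (.split 6 11 .small (.split 10 2 .small
  (.minor 65))) (.split 6 11 (.split 10 2 .small (.split 7 6 (.split 3 2 .small (.split 9 2
  .small (.split 6 9 .small (.split 4 2 .small (.split 5 2 .small (.split 7 5 .small (.minor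
  51))))))) (.split 5 2 (.split 3 2 .small (.split 9 2 .small (.split 6 9 .small (.split 7 7
  .small (.minor 67))))) (.minor 51)))) (.split 7 7 (.split 10 2 (.split 6 13 (.split 3 2 .small
  (.split 9 2 .small (.split 7 5 .small (.split 5 2 .small (.minor 51))))) (.split 4 2 (.split 5
  2 .small (.minor 63)) (.minor 80))) (.minor 65)) (.minor 67)))) (.minor 89)) (.minor 50))
  (.minor 71)) (.minor 72))) (.split 2 2 (.split 5 2 (.split 6 9 (.split 8 3 (.split 11 2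
  (.split 6 5 (.split 7 11 .small (.split 3 2 (.split 7 13 .small (.split 8 2 .small (.minor
  62))) (.minor 64))) (.split 8 2 (.split 7 11 (.split 10 2 .small (.split 6 7 .small (.split 7
  9 .small (.minor 66)))) (.split 3 2 (.split 6 7 (.split 7 13 .small (.split 9 2 .small (.minor
  81))) (.minor 66)) (.minor 64))) (.minor 50))) (.minor 73)) (.minor 70)) (.minor 67)) (.minor
  51)) (.minor 88))) (.minor 42)) (.minor 78))) (.minor 79)) (.minor 43))) (.split 2 3 (.split 4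
  4 (.split 5 5 (.split 8 4 (.split 13 2 (.split 10 3 (.split 0 2 (.split 11 2 (.split 9 3
  (.split 3 3 (.split 7 8 (.split 6 8 (.split 1 3 .small (.split 4 2 .small (.minor 30)))
  (.split 1 3 (.split 10 2 .small (.split 2 2 .small (.minor 91))) (.split 4 2 (.split 8 2
  .small (.minor 35)) (.minor 30)))) (.split 2 2 (.split 6 9 (.split 9 2 (.split 1 3 .small
  (.split 4 2 .small (.minor 30))) (.minor 56)) (.minor 67)) (.minor 54))) (.split 4 3 (.split 5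
  4 (.split 6 7 (.split 7 11 (.split 10 2 (.split 7 6 .small (.split 2 2 .small (.minor 54)))
  (.minor 59)) (.minor 64)) (.minor 27)) (.minor 18)) (.minor 41))) (.split 7 5 (.split 3 3
  (.split 6 8 (.split 1 3 (.split 9 4 .small (.split 2 2 .small (.split 5 3 (.split 7 4 (.split
  10 2 .small (.split 4 3 .small (.minor 16))) (.minor 54)) (.minor 68)))) (.split 4 2 (.split 8
  2 (.split 9 4 .small (.split 2 2 .small (.split 5 3 (.split 7 4 (.split 10 2 .small (.split 6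
  5 .small (.minor 91))) (.minor 54)) (.minor 68)))) (.minor 35)) (.minor 30))) (.split 1 3
  (.split 9 4 (.split 2 2 .small (.split 5 3 .small (.minor 68))) (.split 2 2 (.split 10 2
  .small (.split 6 11 .small (.minor 65))) (.split 5 3 (.split 6 10 (.split 7 4 (.split 10 2
  .small (.minor 91)) (.minor 54)) (.minor 61)) (.minor 68)))) (.split 4 2 (.split 8 2 (.split 9
  4 (.split 10 2 .small (.split 2 2 .small (.minor 91))) (.split 2 2 (.split 10 2 .small (.split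
  6 11 .small (.minor 65))) (.split 5 3 (.split 6 10 (.split 7 4 (.split 10 2 .small (.minor
  91)) (.minor 54)) (.minor 61)) (.minor 68)))) (.minor 35)) (.minor 30)))) (.split 4 3 (.split
  5 4 (.split 6 7 (.split 10 2 (.split 9 4 (.split 1 3 .small (.split 4 2 .small (.minor 30)))
  (.split 1 3 (.split 2 2 .small (.split 3 4 .small (.minor 74))) (.split 4 2 (.split 8 2
  (.split 2 2 .small (.split 3 4 .small (.minor 74))) (.minor 35)) (.minor 30)))) (.minor 59))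
  (.minor 27)) (.minor 18)) (.minor 41))) (.minor 56))) (.split 4 2 (.split 7 10 (.split 9 3
  (.split 3 3 (.split 6 8 (.split 1 3 (.split 2 2 .small (.split 5 3 (.split 7 4 .small (.minor
  54)) (.minor 68))) (.split 8 2 (.split 11 3 (.split 10 2 .small (.split 7 5 .small (.split 2 2
  .small (.minor 54)))) (.split 6 5 (.split 10 2 .small (.minor 77)) (.minor 36))) (.minor 35)))
  (.split 7 9 (.split 11 3 (.split 1 3 (.split 2 2 .small (.split 5 3 (.split 6 10 .small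
  (.minor 61)) (.minor 68))) (.split 8 2 (.split 10 2 .small (.split 2 2 .small (.minor 91)))
  (.minor 35))) (.minor 36)) (.minor 66))) (.split 5 4 (.split 6 7 (.split 7 5 (.split 10 2
  (.split 11 3 (.split 1 3 .small (.split 8 2 .small (.minor 35))) (.split 6 5 (.split 8 3
  (.split 1 3 .small (.split 8 2 (.split 2 2 .small (.split 3 4 .small (.minor 74))) (.minor
  35))) (.minor 47)) (.minor 36))) (.minor 59)) (.minor 90)) (.minor 27)) (.minor 18))) (.split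
  3 2 (.split 7 5 (.split 1 3 (.split 6 8 (.split 2 2 .small (.split 5 3 (.split 7 4 (.split 9 4
  .small (.split 11 3 .small (.split 6 5 (.split 8 3 .small (.minor 47)) (.minor 36)))) (.minor
  54)) (.minor 68))) (.split 11 3 (.split 2 2 .small (.split 5 3 (.split 6 10 (.split 7 4 .small
  (.minor 54)) (.minor 61)) (.minor 68))) (.minor 36))) (.split 8 2 (.split 6 8 (.split 9 4
  (.split 2 2 .small (.split 5 3 (.split 7 4 .small (.minor 54)) (.minor 68))) (.split 2 2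
  (.split 11 3 .small (.split 6 5 (.split 10 2 .small (.minor 77)) (.minor 36))) (.split 5 3
  (.split 7 4 (.split 11 3 (.split 10 2 .small (.split 6 5 (.split 9 5 .small (.split 5 2 .small
  (.minor 48))) (.minor 91))) (.split 6 5 (.split 10 2 (.split 9 5 .small (.split 5 2 .small
  (.minor 48))) (.minor 77)) (.minor 36))) (.minor 54)) (.minor 68)))) (.split 11 3 (.split 9 4
  (.split 2 2 .small (.split 5 3 .small (.minor 68))) (.split 2 2 (.split 10 2 .small (.split 6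
  11 (.split 5 3 .small (.split 9 5 .small (.minor 48))) (.minor 65))) (.split 5 3 (.split 6 10
  (.split 7 4 (.split 10 2 .small (.minor 91)) (.minor 54)) (.minor 61)) (.minor 68)))) (.minor
  36))) (.minor 35))) (.minor 56)) (.minor 17))) (.minor 60)) (.minor 33))) (.split 3 3 (.split
  9 3 (.split 7 8 (.split 11 2 (.split 6 8 (.split 7 4 (.split 8 2 (.split 10 2 .small (.split 1
  3 .small (.split 4 2 .small (.minor 30)))) (.split 1 3 (.split 6 5 (.split 10 2 .small (.split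
  2 2 .small (.split 4 3 .small (.minor 16)))) (.minor 50)) (.minor 35))) (.split 2 2 (.split 8
  2 (.split 10 2 .small (.split 1 3 .small (.split 4 2 .small (.minor 30)))) (.split 1 3 (.split
  6 5 (.split 10 2 .small (.split 7 6 .small (.split 9 2 .small (.minor 56)))) (.minor 50))
  (.minor 35))) (.minor 54))) (.split 2 2 (.split 5 3 (.split 8 2 (.split 7 4 .small (.split 10
  2 .small (.split 6 11 (.split 1 3 .small (.split 4 2 .small (.minor 30))) (.minor 65))))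
  (.minor 50)) (.minor 71)) (.minor 72))) (.split 4 2 (.split 6 2 (.split 7 4 (.split 1 3
  (.split 11 3 (.split 10 2 .small (.split 8 2 .small (.split 2 2 .small (.split 5 3 .small
  (.minor 68))))) (.split 8 3 (.split 10 2 .small (.minor 77)) (.minor 47))) (.split 8 2 (.split
  11 3 (.split 10 2 .small (.split 2 2 .small (.split 5 3 .small (.minor 68)))) (.split 10 2
  (.split 2 2 .small (.split 5 3 .small (.minor 68))) (.minor 77))) (.minor 35))) (.split 2 2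
  (.split 1 3 (.split 11 3 (.split 8 2 .small (.split 10 2 .small (.split 7 6 .small (.split 3 2
  .small (.minor 90))))) (.split 8 3 (.split 10 2 .small (.minor 77)) (.minor 47))) (.split 8 2
  (.split 11 3 (.split 10 2 .small (.split 9 2 .small (.split 7 5 .small (.minor 56)))) (.split
  10 2 (.split 9 2 .small (.split 7 5 .small (.minor 56))) (.minor 77))) (.minor 35))) (.minor
  54))) (.minor 89)) (.minor 33))) (.split 2 2 (.split 6 9 (.split 9 2 (.split 11 2 (.split 7 11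
  (.split 8 2 (.split 10 2 .small (.split 6 5 (.split 1 3 .small (.split 4 2 .small (.minor
  30))) (.split 5 3 (.split 1 3 .small (.split 4 2 .small (.minor 30))) (.minor 71)))) (.split 1
  3 (.split 6 5 (.split 10 2 .small (.split 8 3 .small (.minor 39))) (.minor 50)) (.minor 35)))
  (.split 3 2 (.split 6 7 (.split 8 2 (.split 10 2 .small (.split 1 3 .small (.split 4 2 (.split
  7 13 .small (.split 5 3 .small (.split 6 4 .small (.minor 71)))) (.minor 30)))) (.split 1 3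
  (.split 6 5 (.split 7 13 (.split 10 2 .small (.split 8 3 .small (.minor 39))) (.minor 62))
  (.minor 50)) (.minor 35))) (.minor 66)) (.minor 64))) (.split 3 2 (.split 4 2 (.split 6 2
  (.split 7 10 (.split 1 3 (.split 8 2 .small (.split 11 3 .small (.split 8 3 .small (.minor
  47)))) (.split 8 2 (.split 11 3 .small (.split 10 2 .small (.minor 77))) (.minor 35))) (.minor
  60)) (.minor 89)) (.minor 33)) (.minor 90))) (.minor 56)) (.minor 67)) (.minor 54))) (.minor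
  42)) (.minor 78))) (.split 3 2 (.split 6 11 (.split 7 7 (.split 9 3 (.split 11 3 (.split 0 2
  (.split 1 3 (.split 2 2 (.split 6 6 .small (.split 11 2 .small (.split 4 2 .small (.minor
  22)))) (.split 4 3 (.split 5 3 (.split 6 5 .small (.minor 91)) (.minor 68)) (.minor 16)))
  (.split 4 2 (.split 8 2 (.split 2 2 .small (.split 5 3 (.split 6 5 .small (.minor 91)) (.minor
  68))) (.minor 35)) (.minor 30))) (.split 1 3 (.split 11 2 (.split 7 4 (.split 6 6 (.split 2 2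
  (.split 8 2 .small (.split 6 5 (.split 10 4 .small (.split 7 3 .small (.minor 28))) (.minor
  50))) (.split 4 3 (.split 5 3 (.split 6 3 (.split 8 2 .small (.split 10 4 .small (.split 7 3
  .small (.minor 28)))) (.minor 72)) (.minor 68)) (.minor 16))) (.split 2 2 (.split 5 3 (.split
  8 2 .small (.minor 50)) (.minor 71)) (.minor 72))) (.split 2 2 (.split 10 4 (.split 6 6
  (.split 8 2 .small (.split 6 5 (.split 5 3 .small (.split 4 2 .small (.minor 84))) (.minor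
  50))) (.split 5 3 (.split 8 2 .small (.minor 50)) (.minor 71))) (.minor 28)) (.minor 54)))
  (.split 4 2 (.split 6 2 (.split 10 4 (.split 7 4 (.split 2 2 .small (.split 5 3 .small (.minor
  68))) (.split 2 2 .small (.minor 54))) (.minor 75)) (.minor 89)) (.minor 33))) (.split 4 2
  (.split 8 2 (.split 7 4 (.split 2 2 (.split 6 6 (.split 11 2 .small (.split 6 2 (.split 10 4
  .small (.minor 75)) (.minor 89))) (.split 5 3 (.split 11 2 .small (.minor 89)) (.minor 71)))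
  (.split 5 3 (.split 6 3 (.split 11 2 .small (.split 6 2 (.split 10 4 .small (.minor 75))
  (.minor 89))) (.minor 72)) (.minor 68))) (.split 2 2 (.split 10 4 (.split 6 6 (.split 11 2
  .small (.split 6 2 (.split 9 2 .small (.split 7 5 .small (.minor 56))) (.minor 89))) (.split 5
  3 (.split 11 2 .small (.minor 89)) (.minor 71))) (.minor 28)) (.minor 54))) (.minor 35))
  (.minor 30)))) (.minor 77)) (.minor 40)) (.minor 26)) (.minor 65)) (.minor 58))) (.minor 15))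
  (.minor 20)) (.minor 44)) (.minor 24)) (.minor 52))) (.split 0 2 (.split 5 4 (.split 8 5
  (.split 9 4 (.split 11 3 (.split 1 2 (.split 3 3 (.split 13 2 (.split 2 2 (.split 4 3 (.split
  10 3 (.split 7 8 (.split 6 8 (.split 12 3 .small (.split 5 2 .small (.minor 34))) (.split 4 2
  (.split 11 2 .small (.minor 55)) (.minor 57))) (.split 6 9 (.split 12 3 (.split 11 2 .small
  (.split 3 2 .small (.minor 90))) (.split 5 2 (.split 9 2 .small (.minor 31)) (.minor 34)))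
  (.minor 67))) (.split 3 2 (.split 6 11 (.split 7 7 (.split 8 4 (.split 9 3 (.split 12 3 .small
  (.split 5 2 .small (.minor 34))) (.minor 40)) (.minor 19)) (.minor 26)) (.minor 65)) (.minor
  58))) (.split 6 5 (.split 10 3 (.split 12 3 (.split 7 8 (.split 11 2 .small (.split 6 4
  (.split 8 3 (.split 4 4 .small (.split 3 2 .small (.split 7 5 .small (.minor 90)))) (.minor
  69)) (.minor 55))) (.split 11 2 (.split 4 4 .small (.split 9 2 .small (.split 7 12 (.split 8 3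
  .small (.split 4 5 .small (.minor 49))) (.minor 81)))) (.split 3 2 (.split 6 4 (.split 7 10
  (.split 8 3 .small (.minor 69)) (.minor 60)) (.minor 55)) (.minor 90)))) (.split 5 2 (.split 9
  2 (.split 7 8 (.split 4 4 .small (.split 11 2 .small (.split 6 4 (.split 8 3 (.split 3 2
  .small (.split 7 5 .small (.minor 90))) (.minor 69)) (.minor 55)))) (.split 4 4 (.split 11 2
  .small (.split 3 2 .small (.minor 90))) (.split 11 2 (.split 3 2 .small (.split 7 11 .small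
  (.minor 64))) (.split 3 2 (.split 6 4 (.split 7 10 .small (.minor 60)) (.minor 55)) (.minor
  90))))) (.minor 31)) (.minor 34))) (.split 3 2 (.split 7 7 (.split 8 4 (.split 9 3 (.split 12
  3 (.split 4 4 .small (.split 11 2 .small (.split 6 4 (.split 8 3 .small (.minor 69)) (.minor
  55)))) (.split 5 2 (.split 9 2 (.split 4 4 .small (.split 11 2 .small (.split 6 4 (.split 8 3
  .small (.minor 69)) (.minor 55)))) (.minor 31)) (.minor 34))) (.minor 40)) (.minor 19))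
  (.minor 26)) (.minor 58))) (.minor 57))) (.split 6 10 (.split 9 2 (.split 4 3 (.split 10 3
  (.split 7 8 (.split 12 3 (.split 11 2 .small (.split 6 4 (.split 8 3 .small (.minor 69))
  (.minor 55))) (.split 5 2 (.split 11 2 (.split 6 5 .small (.split 4 2 .small (.minor 57)))
  (.split 6 4 (.split 8 3 (.split 2 3 .small (.split 3 2 .small (.minor 76))) (.minor 69))
  (.minor 55))) (.minor 34))) (.split 2 3 (.split 6 9 (.split 12 3 (.split 11 2 .small (.split 3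
  2 .small (.minor 90))) (.split 5 2 (.split 11 2 .small (.split 3 2 .small (.minor 90)))
  (.minor 34))) (.minor 67)) (.minor 37))) (.split 3 2 (.split 6 5 (.split 7 7 (.split 8 4
  (.split 12 3 (.split 2 3 .small (.split 5 3 (.split 7 5 .small (.minor 37)) (.minor 46)))
  (.split 5 2 (.split 2 3 .small (.split 7 5 (.split 11 2 .small (.split 6 4 (.split 8 3 (.split
  10 4 .small (.minor 75)) (.minor 69)) (.minor 55))) (.minor 37))) (.minor 34))) (.minor 19))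
  (.minor 26)) (.minor 91)) (.minor 58))) (.split 6 5 (.split 10 2 (.split 12 3 (.split 7 8
  (.split 11 2 .small (.split 6 4 (.split 8 3 (.split 4 4 .small (.split 2 3 .small (.split 3 2
  .small (.minor 76)))) (.minor 69)) (.minor 55))) (.split 2 3 (.split 11 2 .small (.split 3 2
  (.split 6 4 (.split 7 10 .small (.minor 60)) (.minor 55)) (.minor 90))) (.minor 37))) (.split
  5 2 (.split 7 8 (.split 11 2 (.split 4 4 .small (.split 2 3 .small (.split 3 2 .small (.minor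
  76)))) (.split 6 4 (.split 8 3 (.split 4 4 .small (.split 2 3 (.split 3 2 .small (.split 7 5
  (.split 4 5 .small (.split 8 2 .small (.minor 49))) (.minor 90))) (.split 3 2 (.split 7 5
  (.split 4 5 .small (.split 8 2 .small (.minor 49))) (.minor 37)) (.minor 76)))) (.minor 69))
  (.minor 55))) (.split 2 3 (.split 4 4 (.split 11 2 .small (.split 3 2 .small (.minor 90)))
  (.split 11 2 (.split 8 3 (.split 7 11 .small (.split 3 2 .small (.minor 64))) (.split 4 5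
  .small (.minor 49))) (.split 3 2 (.split 6 4 (.split 7 10 (.split 8 3 .small (.minor 69))
  (.minor 60)) (.minor 55)) (.minor 90)))) (.minor 37))) (.minor 34))) (.minor 16)) (.minor
  57))) (.minor 32)) (.minor 61))) (.split 4 3 (.split 10 3 (.split 6 8 (.split 2 2 (.split 7 8
  (.split 6 4 (.split 12 3 (.split 5 2 .small (.split 7 5 (.split 3 2 .small (.split 11 2 .small
  (.split 7 3 .small (.minor 73)))) (.minor 51))) (.split 5 2 (.split 9 2 .small (.minor 31))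
  (.minor 34))) (.split 11 2 (.split 12 3 (.split 5 2 .small (.split 7 5 (.split 3 2 .small
  (.split 9 2 .small (.split 8 3 .small (.minor 85)))) (.minor 51))) (.split 5 2 (.split 9 2
  .small (.minor 31)) (.minor 34))) (.minor 55))) (.split 5 2 (.split 8 3 (.split 11 2 (.split 6
  4 .small (.split 12 3 .small (.split 9 2 (.split 3 2 .small (.split 7 11 .small (.minor 64)))
  (.minor 31)))) (.minor 73)) (.minor 70)) (.minor 51))) (.split 7 2 (.split 9 2 (.split 12 3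
  (.split 6 4 (.split 11 2 (.split 5 2 .small (.split 2 3 .small (.split 3 2 .small (.minor
  76)))) (.split 8 3 (.split 2 3 .small (.split 3 2 .small (.minor 76))) (.minor 69))) (.split
  11 2 (.split 5 2 (.split 2 3 .small (.split 3 2 .small (.minor 76))) (.split 2 3 (.split 3 2
  .small (.split 10 2 .small (.split 6 5 .small (.minor 91)))) (.split 3 2 (.split 5 3 .small
  (.minor 46)) (.minor 76)))) (.minor 55))) (.split 5 2 (.split 6 4 (.split 2 3 (.split 3 2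
  .small (.split 11 2 .small (.split 8 3 .small (.minor 69)))) (.split 3 2 (.split 11 2 .small
  (.split 8 3 .small (.minor 69))) (.minor 76))) (.split 11 2 (.split 2 3 (.split 3 2 .small
  (.split 10 2 .small (.split 6 5 .small (.minor 91)))) (.split 3 2 (.split 10 2 .small (.split
  6 5 .small (.minor 91))) (.minor 76))) (.minor 55))) (.minor 34))) (.minor 32)) (.minor 88)))
  (.split 4 2 (.split 7 9 (.split 11 2 (.split 2 2 (.split 6 11 (.split 5 2 (.split 3 2 .small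
  (.split 12 3 .small (.split 9 2 .small (.minor 31)))) (.split 7 5 (.split 12 3 (.split 3 2
  .small (.split 5 3 .small (.minor 38))) (.minor 34)) (.minor 51))) (.split 7 7 (.split 10 2
  (.split 5 2 (.split 12 3 .small (.split 9 2 (.split 3 2 .small (.split 8 3 .small (.split 7 4
  .small (.minor 70)))) (.minor 31))) (.split 6 13 (.split 7 5 (.split 12 3 (.split 9 2 .small
  (.split 8 3 .small (.minor 85))) (.minor 34)) (.minor 51)) (.minor 63))) (.minor 65)) (.minor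
  67))) (.split 6 10 (.split 7 2 (.split 9 2 (.split 10 2 (.split 12 3 (.split 5 2 .small
  (.split 2 3 .small (.split 3 2 .small (.minor 76)))) (.split 5 2 (.split 2 3 .small (.split 3
  2 .small (.minor 76))) (.minor 34))) (.minor 91)) (.minor 32)) (.minor 88)) (.minor 61)))
  (.minor 55)) (.minor 66)) (.minor 57))) (.minor 79)) (.minor 43))) (.split 2 3 (.split 4 3
  (.split 6 7 (.split 7 11 (.split 10 2 (.split 13 2 (.split 12 3 (.split 11 2 (.split 7 6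
  .small (.split 9 2 .small (.split 2 2 .small (.minor 23)))) (.split 6 4 (.split 7 5 (.split 8
  3 .small (.minor 69)) (.minor 90)) (.minor 55))) (.split 5 2 (.split 9 2 (.split 11 2 .small
  (.split 6 4 (.split 7 5 (.split 8 3 .small (.minor 69)) (.minor 90)) (.minor 55))) (.minor
  31)) (.minor 34))) (.split 12 3 (.split 11 2 (.split 6 4 (.split 7 6 (.split 2 2 (.split 5 2
  .small (.split 7 5 (.split 9 2 .small (.split 8 3 .small (.minor 85))) (.minor 51))) (.split 3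
  4 (.split 7 2 (.split 9 2 .small (.minor 32)) (.minor 88)) (.minor 74))) (.split 2 2 (.split 5
  2 .small (.minor 51)) (.minor 88))) (.split 3 4 (.split 7 6 (.split 2 2 (.split 5 2 .small
  (.split 7 5 (.split 9 2 .small (.split 8 3 .small (.minor 85))) (.minor 51))) (.split 7 2
  (.split 9 2 .small (.minor 32)) (.minor 88))) (.split 2 2 (.split 5 2 .small (.minor 51))
  (.minor 88))) (.minor 29))) (.split 6 4 (.split 7 3 (.split 8 3 (.split 9 3 (.split 2 2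
  (.split 5 2 .small (.split 3 4 .small (.split 6 3 .small (.minor 29)))) (.split 3 4 (.split 7
  2 (.split 9 2 .small (.minor 32)) (.minor 88)) (.minor 74))) (.minor 17)) (.minor 69)) (.minor
  73)) (.minor 55))) (.split 5 2 (.split 9 2 (.split 11 2 (.split 6 4 (.split 7 6 (.split 2 2
  .small (.split 3 4 .small (.minor 74))) (.split 2 2 (.split 8 3 .small (.minor 70)) (.minor
  88))) (.split 3 4 (.split 7 6 (.split 2 2 .small (.split 7 2 (.split 8 3 .small (.split 4 2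
  .small (.split 6 5 .small (.minor 57)))) (.minor 88))) (.split 2 2 (.split 8 3 .small (.minor
  70)) (.minor 88))) (.minor 29))) (.split 6 4 (.split 7 3 (.split 8 3 (.split 2 2 .small
  (.split 3 4 (.split 7 2 .small (.minor 88)) (.minor 74))) (.minor 69)) (.minor 73)) (.minor
  55))) (.minor 31)) (.minor 34)))) (.minor 59)) (.minor 64)) (.minor 27)) (.minor 41)) (.minor
  76))) (.split 2 3 (.split 4 4 (.split 8 4 (.split 13 2 (.split 10 3 (.split 3 3 (.split 12 3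
  (.split 7 8 (.split 6 8 (.split 1 3 (.split 11 2 (.split 9 2 (.split 4 2 .small (.split 6 5
  .small (.minor 57))) (.split 2 2 (.split 7 5 .small (.minor 56)) (.minor 32))) (.split 4 2
  (.split 6 4 (.split 8 3 (.split 9 2 .small (.split 2 2 .small (.minor 32))) (.minor 69))
  (.minor 55)) (.minor 33))) (.split 4 2 (.split 8 2 (.split 9 2 (.split 11 2 .small (.split 6 4
  .small (.minor 55))) (.split 2 2 (.split 7 5 (.split 11 2 .small (.split 6 4 .small (.minor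
  55))) (.minor 56)) (.minor 32))) (.minor 35)) (.minor 30))) (.split 4 2 (.split 11 2 (.split 9
  2 (.split 1 3 .small (.split 8 2 (.split 10 2 .small (.split 2 2 .small (.minor 91))) (.minor
  35))) (.split 2 2 (.split 7 5 (.split 1 3 .small (.split 8 2 (.split 10 2 .small (.split 6 11
  .small (.minor 65))) (.minor 35))) (.minor 56)) (.minor 32))) (.minor 55)) (.minor 57)))
  (.split 2 2 (.split 6 9 (.split 9 2 (.split 1 3 (.split 4 2 (.split 11 2 .small (.split 3 2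
  .small (.minor 90))) (.split 6 5 (.split 11 2 .small (.minor 33)) (.minor 57))) (.split 4 2
  (.split 8 2 (.split 11 2 .small (.split 3 2 .small (.minor 90))) (.minor 35)) (.minor 30)))
  (.minor 56)) (.minor 67)) (.minor 54))) (.split 5 2 (.split 9 2 (.split 7 8 (.split 6 8
  (.split 4 2 (.split 1 3 (.split 2 2 .small (.split 7 4 .small (.minor 54))) (.split 8 2
  (.split 11 2 .small (.split 6 4 (.split 2 2 .small (.split 7 4 .small (.minor 54))) (.minor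
  55))) (.minor 35))) (.split 1 3 (.split 6 5 (.split 11 2 (.split 2 2 .small (.split 7 4 .small
  (.minor 54))) (.minor 33)) (.minor 57)) (.minor 30))) (.split 4 2 (.split 11 2 (.split 1 3
  (.split 2 2 .small (.split 6 10 .small (.minor 61))) (.split 8 2 (.split 10 2 .small (.split 2
  2 .small (.minor 91))) (.minor 35))) (.minor 55)) (.minor 57))) (.split 2 2 (.split 6 9
  (.split 4 2 (.split 1 3 (.split 3 2 .small (.split 7 11 .small (.minor 64))) (.split 8 2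
  (.split 11 2 .small (.split 3 2 .small (.minor 90))) (.minor 35))) (.split 1 3 (.split 6 5
  (.split 11 2 (.split 3 2 .small (.split 7 11 .small (.minor 64))) (.minor 33)) (.minor 57))
  (.minor 30))) (.minor 67)) (.minor 54))) (.minor 31)) (.minor 34))) (.split 4 3 (.split 6 7
  (.split 7 11 (.split 10 2 (.split 12 3 (.split 11 2 (.split 9 2 (.split 7 6 (.split 1 3 .small
  (.split 4 2 (.split 8 2 .small (.minor 35)) (.minor 30))) (.split 2 2 (.split 1 3 .small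
  (.split 4 2 (.split 8 2 .small (.minor 35)) (.minor 30))) (.minor 54))) (.split 2 2 (.split 7
  5 (.split 1 3 .small (.split 4 2 (.split 8 2 .small (.minor 35)) (.minor 30))) (.minor 56))
  (.minor 32))) (.split 4 2 (.split 6 4 (.split 7 5 (.split 8 3 (.split 9 3 (.split 1 3 (.split
  2 2 .small (.split 3 4 .small (.minor 74))) (.split 8 2 (.split 2 2 .small (.split 3 4 (.split
  5 3 .small (.minor 68)) (.minor 74))) (.minor 35))) (.minor 17)) (.minor 69)) (.minor 90))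
  (.minor 55)) (.minor 33))) (.split 5 2 (.split 9 2 (.split 11 2 (.split 1 3 (.split 7 6
  (.split 2 2 .small (.split 3 4 .small (.minor 74))) (.split 2 2 (.split 8 2 .small (.split 3 4
  .small (.split 6 3 .small (.minor 29)))) (.minor 54))) (.split 4 2 (.split 8 2 (.split 7 6
  .small (.split 2 2 .small (.minor 54))) (.minor 35)) (.minor 30))) (.split 4 2 (.split 6 4
  (.split 7 5 (.split 8 3 (.split 1 3 (.split 2 2 .small (.split 3 4 .small (.minor 74)))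
  (.split 8 2 (.split 2 2 .small (.split 3 4 .small (.minor 74))) (.minor 35))) (.minor 69))
  (.minor 90)) (.minor 55)) (.minor 33))) (.minor 31)) (.minor 34))) (.minor 59)) (.minor 64))
  (.minor 27)) (.minor 41))) (.split 3 2 (.split 6 11 (.split 7 7 (.split 9 3 (.split 1 3
  (.split 12 3 (.split 2 2 (.split 4 2 (.split 6 6 .small (.split 11 2 .small (.minor 55)))
  (.split 6 5 (.split 11 2 .small (.minor 33)) (.minor 57))) (.split 4 3 (.split 5 3 (.split 6 5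
  (.split 7 4 (.split 9 2 (.split 11 2 .small (.split 4 2 .small (.minor 33))) (.minor 32))
  (.minor 54)) (.minor 91)) (.minor 68)) (.minor 16))) (.split 5 2 (.split 9 2 (.split 4 2
  (.split 2 2 .small (.split 6 5 (.split 7 4 (.split 11 2 .small (.split 6 4 .small (.minor
  55))) (.minor 54)) (.minor 91))) (.split 6 5 (.split 11 2 (.split 2 2 .small (.split 4 3
  (.split 7 4 .small (.minor 54)) (.minor 16))) (.minor 33)) (.minor 57))) (.minor 31)) (.minor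
  34))) (.split 4 2 (.split 8 2 (.split 2 2 (.split 12 3 (.split 6 6 (.split 11 2 .small (.split
  6 4 (.split 10 4 .small (.minor 75)) (.minor 55))) (.split 11 2 (.split 10 4 .small (.split 7
  3 .small (.minor 28))) (.minor 55))) (.split 5 2 (.split 9 2 (.split 6 6 .small (.split 11 2
  .small (.minor 55))) (.minor 31)) (.minor 34))) (.split 5 3 (.split 6 5 (.split 7 4 (.split 9
  2 (.split 12 3 (.split 11 2 .small (.split 6 4 .small (.minor 55))) (.split 5 2 (.split 11 2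
  .small (.split 6 4 (.split 10 4 .small (.minor 75)) (.minor 55))) (.minor 34))) (.minor 32))
  (.minor 54)) (.minor 91)) (.minor 68))) (.minor 35)) (.minor 30))) (.minor 40)) (.minor 26))
  (.minor 65)) (.minor 58))) (.minor 15)) (.minor 20)) (.minor 24)) (.minor 52))) (.minor 53))
  (.minor 25)) (.minor 45)) (.minor 21)) (.minor 14))) (.minor 12)) (.minor 10)) (.minor 8))
  (.minor 6)) (.minor 4)) (.minor 2)) (.minor 0)) (.minor 1)) (.minor 3)) (.minor 5)) (.minor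
  7)) (.minor 9)) (.minor 11)) (.minor 13)

noncomputable def Rt7f : List (List ℕ) :=
  cj7f_0.map Prod.fst ++ cj7f_1.map Prod.fst ++ cj7f_2.map Prod.fst ++ cj7f_3.map Prod.fst ++
  cj7f_4.map Prod.fst ++ cj7f_5.map Prod.fst ++ cj7f_6.map Prod.fst ++ cj7f_7.map Prod.fst ++
  cj7f_8.map Prod.fst

theorem Rt7f_ok : ∀ M ∈ Rt7f, KG (M : Multiset ℕ) 21 := by
  intro M h
  unfold Rt7f at h
  simp only [List.mem_append] at h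
  rcases h with (((((((h | h) | h) | h) | h) | h) | h) | h) | h
  · exact kg_of_allJ S42_ok R42_ok F42_ok cj7f_0_ok M h
  · exact kg_of_allJ S42_ok R42_ok F42_ok cj7f_1_ok M h
  · exact kg_of_allJ S42_ok R42_ok F42_ok cj7f_2_ok M h
  · exact kg_of_allJ S42_ok R42_ok F42_ok cj7f_3_ok M h
  · exact kg_of_allJ S42_ok R42_ok F42_ok cj7f_4_ok M h
  · exact kg_of_allJ S42_ok R42_ok F42_ok cj7f_5_ok M h
  · exact kg_of_allJ S42_ok R42_ok F42_ok cj7f_6_ok M h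
  · exact kg_of_allJ S42_ok R42_ok F42_ok cj7f_7_ok M h
  · exact kg_of_allJ S42_ok R42_ok F42_ok cj7f_8_ok M h

def ks7f : List ℕ := [
  94, 95, 76, 77, 68, 69, 52, 53, 26, 27, 30, 31, 4, 5, 0, 1, 19, 18, 67, 66, 32, 33, 71, 70, 49,
  48, 80, 81, 62, 63, 21, 20, 12, 13, 6, 7, 35, 34, 85, 84, 50, 51, 14, 15, 65, 64, 43, 42, 46,
  47, 57, 56, 29, 28, 16, 17, 60, 61, 10, 11, 88, 89, 92, 93, 86, 87, 78, 79, 45, 44, 72, 73, 37,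
  36, 55, 54, 25, 24, 23, 22, 91, 90, 74, 75, 41, 40, 38, 39, 2, 3, 58, 59, 9, 8, 83, 82]

theorem min7f_ok : minC 7 Rt7f G7f ks7f = true := by decide +kernel

theorem T7f_ok : btC 7 91 G7f T7f (List.replicate (2 * 7) 1)
    (List.replicate (2 * 7) 0) = true := by decide +kernel

theorem kg7f {M : Multiset ℕ} (hM : ∀ s ∈ M, 1 ≤ s)
    (hc : M.dedup.card = 7) (hn : 91 ≤ M.sum) : KG M 21 :=
  coverC ks7f T7f Rt7f_ok min7f_ok T7f_ok hM hc hn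

end Pool.MP322
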