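import Pool.Agent.Lib.MP_322c5f_al.SG36b

/-! (C), part 33: eight to ten distinct column heights. -/

set_option autoImplicit false

namespace Pool.MP322

/-- self-conjugate blocks -/
def S43 : List (List ℕ × List ℕ) := [
  ([4,3,2,1],[1,2,3,4]), ([3,2,1],[1,2,3]), ([5,3,2,1,1],[2,2,3,0,5]), ([5,4,3,2,1],[1,2,3,4,5]),
  ([6,5,4,3,2,1],[1,2,3,4,5,6]), ([3,3,2],[0,2,6]), ([4,1,1,1],[3,0,0,4]), ([4,2,1,1],[2,2,0,4]),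
  ([5,4,4,3,1],[1,0,3,8,5]), ([3,1,1],[2,0,3]), ([5,2,1,1,1],[3,2,0,0,5]), ([2,1],[1,2]),
  ([4,4,3,2],[0,2,3,8]), ([4,4,4,3],[0,0,3,12]), ([3,3,3],[0,0,9]),
  ([6,6,4,4,2,2],[0,4,0,8,0,12]), ([6,5,4,4,2,1],[1,2,0,8,5,6]), ([5,4,2,2,1],[1,4,0,4,5]),
  ([4,3,3,1],[1,0,6,4]), ([2,2],[0,4]), ([6,5,5,4,3,1],[1,0,3,4,10,6]), ([5,3,3,1,1],[2,0,6,0,5]),
  ([6,5,3,2,2,1],[1,4,3,0,5,6]), ([7,6,5,4,3,2,1],[1,2,3,4,5,6,7]), ([6,5,2,2,2,1],[1,6,0,0,5,6]),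
  ([7,5,4,3,2,1,1],[2,2,3,4,5,0,7]), ([7,5,4,4,2,1,1],[2,2,0,8,5,0,7]),
  ([6,4,4,3,1,1],[2,0,3,8,0,6]), ([7,5,5,4,3,1,1],[2,0,3,4,10,0,7]),
  ([7,6,4,3,2,2,1],[1,4,3,4,0,6,7]), ([6,3,2,1,1,1],[3,2,3,0,0,6]), ([6,4,3,2,1,1],[2,2,3,4,0,6]),
  ([8,7,4,3,2,2,2,1],[1,6,3,4,0,0,7,8]), ([5,1,1,1,1],[4,0,0,0,5]),
  ([8,6,5,4,3,2,1,1],[2,2,3,4,5,6,0,8]), ([7,2,1,1,1,1,1],[5,2,0,0,0,0,7]), ([4,4,2,2],[0,4,0,8]),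
  ([6,4,2,2,1,1],[2,4,0,4,0,6]), ([7,6,5,3,3,2,1],[1,2,6,0,5,6,7]),
  ([7,6,5,5,4,2,1],[1,2,0,4,10,6,7]), ([7,6,3,2,2,2,1],[1,6,3,0,0,6,7]),
  ([7,6,5,5,5,2,1],[1,2,0,0,15,6,7]), ([8,7,5,4,3,2,2,1],[1,4,3,4,5,0,7,8]),
  ([7,7,4,3,2,2,2],[0,6,3,4,0,0,14]), ([7,5,3,2,2,1,1],[2,4,3,0,5,0,7]),
  ([7,4,3,2,1,1,1],[3,2,3,4,0,0,7]), ([8,7,3,2,2,2,2,1],[1,8,3,0,0,0,7,8]),
  ([6,2,1,1,1,1],[4,2,0,0,0,6]), ([6,3,3,1,1,1],[3,0,6,0,0,6]),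
  ([9,5,4,3,2,1,1,1,1],[4,2,3,4,5,0,0,0,9]), ([9,7,5,4,3,2,2,1,1],[2,4,3,4,5,0,7,0,9]),
  ([8,6,5,3,3,2,1,1],[2,2,6,0,5,6,0,8]), ([8,7,6,5,4,3,2,1],[1,2,3,4,5,6,7,8]),
  ([8,7,6,4,3,3,2,1],[1,2,6,4,0,6,7,8]), ([8,5,4,3,2,1,1,1],[3,2,3,4,5,0,0,8])]

theorem S43_ok : okS S43 = true := by decide +kernel

/-- direct blocks -/
def R43 : List (List ℕ × List ℕ) := [
  ([3,2,1],[3,2,1]), ([4,3,2,1],[4,3,2,1]), ([5,4,3,2,1],[5,4,3,2,1]),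
  ([6,5,4,3,2,1],[6,5,4,3,2,1])]

theorem R43_ok : okR R43 = true := by decide +kernel

def F43 : List (List ℕ × List ℕ) := []

theorem F43_ok : ∀ p ∈ F43, CC (p.1 : Multiset ℕ) (p.2 : Multiset ℕ) := by
  intro p hp
  simp [F43] at hp

noncomputable def cj8e_0 : List (List ℕ × List NdJ) := [
  ([9,8,7,6,6,4,3,2,1], [
    (false,[],[9,8,7,6,6,4,3,2,1],false,6,5,[10,15,21,24]),
    (false,[([(0,0,[(7,10)])],[1,1])],[9,8,7,6,4],false,5,4,[6,8,10]),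
    (false,[([(0,0,[(7,10)]),(0,1,[(6,6)])],[2])],[9,7,6,4,2],false,4,6,[6]),
    (false,[([(0,0,[(7,10)]),(0,2,[(6,6),(5,6)])],[])],[8,7,6,3],false,4,3,[6]),
    (false,[([(0,0,[(7,10)]),(0,1,[(6,6)])],[2]),([(0,1,[(5,6)]),(0,1,[(5,6)])],[])],[9,7],false,2,4,[4,5]),
    (false,[([(0,0,[(7,10)]),(0,0,[(6,6),(3,4)])],[]),([(0,1,[(5,6)]),(0,1,[(5,6)])],[3,2,1])],[7,1],true,2,2,[3]),
    (true,[([(0,0,[(7,10)]),(0,3,[(6,6),(5,6),(3,3)])],[]),([(0,0,[(5,6),(3,4)])],[4,3,3,1])],[],false,1,0,[]),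
    (true,[([(0,4,[(7,10),(6,6),(5,5)]),(0,1,[(5,6)])],[]),([(0,1,[(5,6)])],[3,3,3,3,1])],[],false,1,0,[]),
    (false,[([(0,0,[(7,10)]),(0,5,[(7,8)])],[])],[9,8,6,3,2],false,5,2,[7,8]),
    (true,[([(0,0,[(7,10)]),(0,3,[(7,8),(6,7)])],[])],[8,6,5,2],false,4,2,[6,7]),
    (true,[([(0,0,[(7,10)]),(0,6,[(6,7)])],[2]),([(0,5,[(7,8)]),(0,1,[(5,6)])],[3,3])],[6,1],true,2,2,[3]),
    (true,[([(0,0,[(7,10)]),(0,3,[(7,8),(6,7)])],[]),([(0,0,[(5,6),(3,3)])],[4,3,3,1])],[],false,1,0,[]),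
    (true,[([(0,0,[(7,10)]),(0,3,[(7,8),(6,7)])],[]),([(0,7,[(7,7)])],[4,3,3,3])],[],false,1,0,[]),
    (false,[([(0,0,[(7,10)]),(0,8,[(7,8),(8,8)])],[])],[8,6,3,2],false,4,2,[5]),
    (false,[([(0,0,[(7,10)]),(0,8,[(7,8),(8,8)])],[]),([(0,9,[(5,5)])],[3,2,1])],[8],false,1,0,[]),
    (false,[([(0,0,[(7,10)]),(0,0,[(9,10)])],[])],[9,7,6,3,1],true,5,2,[7,10]),
    (false,[([(0,0,[(7,10)]),(0,8,[(9,10),(6,7)])],[])],[8,6,3,2],false,4,2,[5]),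
    (false,[([(0,0,[(7,10)]),(0,8,[(9,10),(6,7)])],[]),([(0,9,[(5,5)])],[3,2,1])],[8],false,1,0,[]),
    (true,[([(0,0,[(7,10)]),(0,10,[(9,10)])],[]),([(0,0,[(8,10)])],[4,4,4,4])],[],false,1,0,[3]),
    (false,[([(0,0,[(7,10)]),(0,0,[(9,10)])],[]),([(0,0,[(8,10)]),(0,11,[(2,3)])],[3,2,1])],[7],false,1,0,[2]),
    (true,[([(0,0,[(7,10)]),(0,3,[(9,10),(2,3),(2,2)])],[]),([(0,0,[(8,10)])],[4,3,3,1])],[],false,1,0,[]),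
    (false,[([(0,3,[(11,15)])],[1])],[9,8,7,6],false,4,6,[5,6,10,13,14]),
    (false,[([(0,3,[(11,15)]),(0,9,[(5,5)])],[2])],[8,7,6,3],false,4,3,[5]),
    (true,[([(0,3,[(11,15)]),(0,0,[(5,5),(5,5)])],[])],[8,6,5,2],false,4,2,[5]),
    (true,[([(0,3,[(11,15)]),(0,0,[(5,5),(5,5)])],[]),([(0,9,[(5,5)])],[3,2,2,2,1])],[6],false,1,0,[2]),
    (true,[([(0,3,[(11,15)]),(0,0,[(5,5),(5,5)])],[]),([(0,7,[(5,5),(2,2)])],[4,3,3,3])],[],false,1,0,[]),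
    (false,[([(0,3,[(11,15)]),(0,1,[(6,6)])],[])],[9,7,6,3],false,4,3,[6]),
    (true,[([(0,4,[(11,15),(6,6)]),(0,1,[(5,6)])],[])],[8,6,5],false,3,4,[5]),
    (true,[([(0,4,[(11,15),(6,6)]),(0,1,[(5,6)])],[]),([(0,9,[(4,5)])],[3,3,3,3,2])],[],false,1,0,[2]),
    (true,[([(0,4,[(11,15),(6,6)])],[4,4]),([(0,1,[(5,6)]),(0,9,[(4,5)]),(0,11,[(2,2)])],[3])],[],false,1,0,[]),
    (true,[([(0,3,[(11,15)]),(0,0,[(7,10)])],[])],[8,6,5,2],false,4,2,[6,8]),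
    (true,[([(0,3,[(11,15)]),(0,0,[(7,10)])],[]),([(0,1,[(5,6)])],[3,2,2])],[8],false,1,0,[3,4]),
    (true,[([(0,3,[(11,15)]),(0,0,[(7,10)])],[]),([(0,1,[(5,6)]),(0,11,[(2,3)])],[3,2,1])],[6],false,1,0,[3]),
    (true,[([(0,3,[(11,15)]),(0,0,[(7,10)])],[]),([(0,1,[(5,6)]),(0,11,[(2,3)]),(0,11,[(2,3)])],[3])],[6],false,1,0,[2]),
    (true,[([(0,3,[(11,15)]),(0,0,[(7,10)])],[]),([(0,1,[(5,6)]),(1,0,[(2,3),(2,2)]),(0,11,[(2,3)])],[])],[6],false,1,0,[]),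
    (true,[([(0,3,[(11,15)]),(0,0,[(7,10)])],[]),([(0,0,[(5,6),(4,4)])],[4,3,3,1])],[],false,1,0,[]),
    (true,[([(0,3,[(11,15)]),(0,0,[(7,10)])],[]),([(0,7,[(7,8)])],[4,3,3,3])],[],false,1,0,[2]),
    (true,[([(0,3,[(11,15)]),(0,0,[(7,10)])],[]),([(0,0,[(7,8),(2,2)])],[4,3,3,1])],[],false,1,0,[]),
    (false,[([(0,3,[(11,15)]),(0,12,[(11,13)])],[])],[7,6,3,2],false,4,2,[]),
    (true,[([(0,3,[(11,15)]),(0,13,[(14,14)])],[])],[6,5,3,2],false,1,0,[]),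
    (false,[([(0,4,[(16,21)])],[2])],[9,8,6],false,3,6,[6,8,9]),
    (true,[([(0,4,[(16,21)]),(0,1,[(4,6)])],[])],[8,6,5],false,3,5,[6]),
    (true,[([(0,4,[(16,21)]),(0,1,[(4,6)])],[]),([(0,1,[(4,6)])],[3,3,3,3,1])],[],false,1,0,[3]),
    (false,[([(0,4,[(16,21)])],[4,3]),([(0,1,[(4,6)]),(0,1,[(4,6)]),(0,11,[(2,3)])],[3])],[],false,1,0,[2]),
    (false,[([(0,4,[(16,21)])],[4,3]),([(0,1,[(4,6)]),(0,1,[(4,6)]),(1,0,[(2,3),(2,2)])],[])],[],false,1,0,[]),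
    (false,[([(0,4,[(16,21)]),(0,5,[(7,8)])],[])],[7,6,4],false,3,2,[]),
    (false,[([(0,4,[(16,21)]),(0,14,[(9,9)])],[])],[6,6,4],false,1,0,[]),
    (false,[([(0,15,[(22,24)])],[5,4,1])],[7,4,1],false,3,1,[])]),
  ([9,8,7,7,5,4,3,2,1], [
    (false,[],[9,8,7,7,5,4,3,2,1],true,7,3,[10,15,21,24]),
    (false,[([(0,0,[(8,10)])],[1,1,1])],[9,8,7,5,4],false,5,4,[6,10]),
    (false,[([(0,0,[(8,10)]),(0,1,[(6,6)])],[])],[9,8,7,4,2],false,5,2,[6]),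
    (true,[([(0,0,[(8,10)]),(0,2,[(6,6),(6,6)])],[])],[8,7,5,4],false,4,4,[6]),
    (false,[([(0,16,[(8,10),(6,6),(6,6)]),(0,1,[(5,6)])],[])],[8,7,3],false,3,2,[]),
    (true,[([(0,0,[(8,10)]),(0,0,[(7,10)])],[])],[9,7,5,4,1],true,5,2,[6,8,10]),
    (false,[([(0,0,[(8,10)]),(0,0,[(7,10)])],[2]),([(0,1,[(6,6)])],[2,1])],[8,7],false,2,5,[4,6]),
    (false,[([(0,0,[(8,10)]),(0,0,[(7,10)])],[2]),([(0,0,[(6,6),(3,4)])],[3,2,1])],[8],false,1,0,[2,3,4]),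
    (false,[([(0,0,[(8,10)]),(0,0,[(7,10)])],[2]),([(0,1,[(6,6)]),(0,1,[(3,4),(2,2)])],[3])],[8,1],true,2,2,[]),
    (false,[([(0,0,[(8,10)]),(0,0,[(7,10)])],[2]),([(0,0,[(6,6),(3,4)]),(0,11,[(3,3)])],[3])],[8],false,1,0,[2]),
    (false,[([(0,3,[(8,10),(3,3),(2,2)]),(0,0,[(7,10)])],[]),([(0,0,[(6,6),(3,4)])],[4,3,2,2])],[],false,1,0,[]),
    (false,[([(0,17,[(8,10),(4,4)]),(0,0,[(7,10)])],[]),([(0,0,[(6,6),(3,4)])],[4,3,3,2])],[],false,1,0,[]),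
    (false,[([(0,0,[(8,10)]),(0,0,[(7,10)])],[2]),([(0,1,[(6,6)]),(0,1,[(5,6)])],[3])],[8,1],false,2,1,[]),
    (false,[([(0,10,[(8,10)]),(0,0,[(7,10)])],[]),([(0,5,[(7,8)])],[3,3,2,2])],[8],false,1,0,[3,5]),
    (false,[([(0,10,[(8,10)]),(0,0,[(7,10)])],[]),([(0,5,[(7,8)]),(0,11,[(2,3)])],[3,3,2])],[7],false,1,0,[3]),
    (true,[([(0,0,[(8,10)]),(0,0,[(7,10)])],[]),([(0,5,[(7,8)]),(0,11,[(2,3)]),(0,11,[(2,3)])],[3,3])],[5,1],true,2,2,[3]),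
    (false,[([(0,0,[(8,10)]),(0,0,[(7,10)])],[2]),([(0,5,[(7,8)]),(1,1,[(2,3),(2,3),(3,3)])],[3])],[3],false,1,0,[]),
    (false,[([(0,0,[(8,10)]),(0,0,[(7,10)])],[2]),([(0,5,[(7,8)]),(0,9,[(4,5)])],[2])],[8,1],false,2,1,[]),
    (false,[([(0,10,[(8,10)]),(0,0,[(7,10)])],[]),([(0,18,[(9,10)])],[4,4,4,3])],[],false,1,0,[3]),
    (false,[([(0,0,[(8,10)]),(0,0,[(7,10)])],[2]),([(0,0,[(9,10)]),(0,11,[(2,3)])],[3])],[8],false,1,0,[2]),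
    (false,[([(0,0,[(8,10)]),(0,0,[(7,10)])],[2]),([(0,3,[(9,10),(2,3),(2,2)])],[4,3,2])],[],false,1,0,[]),
    (false,[([(0,3,[(11,15)])],[1,1])],[9,8,7,5],false,4,5,[5,6,10,13,14]),
    (true,[([(0,3,[(11,15)]),(0,9,[(5,5)])],[])],[9,7,6,4],false,4,4,[5]),
    (false,[([(0,3,[(11,15)]),(0,0,[(5,5),(5,5)])],[])],[8,7,4,2],false,4,2,[5]),
    (false,[([(0,3,[(11,15)]),(0,0,[(5,5),(5,5)])],[]),([(0,9,[(5,5)])],[3,2,2,1])],[8],false,1,0,[2]),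
    (true,[([(0,3,[(11,15)])],[4,4,3]),([(0,0,[(5,5),(5,5)]),(0,6,[(5,5),(2,2)])],[3])],[],false,1,0,[]),
    (false,[([(0,3,[(11,15)]),(0,1,[(6,6)])],[2])],[8,7,5,3],false,4,3,[6]),
    (false,[([(0,4,[(11,15),(6,6)]),(0,1,[(5,6)])],[])],[8,7,4],false,3,4,[5]),
    (false,[([(0,4,[(11,15),(6,6)]),(0,1,[(5,6)])],[]),([(0,1,[(4,5)])],[3,3,3,2,2])],[],false,1,0,[2]),
    (true,[([(0,4,[(11,15),(6,6)])],[5,5]),([(0,1,[(5,6)]),(0,9,[(4,5)]),(0,11,[(2,2)])],[1])],[],false,1,0,[]),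
    (false,[([(0,3,[(11,15)]),(0,0,[(7,10)])],[])],[8,7,4,2],false,4,2,[6,8]),
    (false,[([(0,3,[(11,15)]),(0,0,[(7,10)])],[]),([(0,1,[(5,6)])],[3,2,1,1])],[8],false,1,0,[3,4]),
    (false,[([(0,3,[(11,15)]),(0,0,[(7,10)])],[]),([(0,1,[(5,6)]),(0,11,[(2,3)])],[3,1])],[8],false,1,0,[2,3]),
    (false,[([(0,3,[(11,15)]),(0,0,[(7,10)])],[]),([(0,1,[(5,6)]),(1,0,[(2,3),(2,2)])],[1])],[8],false,1,0,[2]),
    (true,[([(0,3,[(11,15)]),(0,11,[(2,3)])],[4,4]),([(0,0,[(7,10)]),(0,0,[(5,6),(2,2),(2,2)])],[])],[],false,1,0,[]),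
    (true,[([(0,3,[(11,15)]),(0,11,[(2,3)])],[4,4]),([(0,0,[(7,10)]),(0,0,[(5,6),(3,3)])],[])],[],false,1,0,[]),
    (false,[([(0,3,[(11,15)]),(0,0,[(7,10)])],[]),([(0,0,[(5,6),(4,4)])],[4,3,2,2])],[],false,1,0,[]),
    (false,[([(0,3,[(11,15)]),(0,0,[(7,10)])],[]),([(0,5,[(7,8)])],[2,1,1,1])],[8],false,1,0,[2]),
    (false,[([(0,3,[(11,15)]),(0,0,[(7,10)])],[]),([(0,0,[(7,8),(2,2)])],[4,3,2,2])],[],false,1,0,[]),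
    (true,[([(0,3,[(11,15)]),(0,12,[(11,13)])],[])],[7,5,4,2],false,4,2,[]),
    (false,[([(0,3,[(11,15)]),(0,13,[(14,14)])],[])],[7,4,3,2],false,1,0,[]),
    (false,[([(0,4,[(16,21)])],[1])],[9,8,7],false,3,7,[6,8,9]),
    (false,[([(0,4,[(16,21)]),(0,1,[(4,6)])],[])],[8,7,4],false,3,4,[4,6]),
    (false,[([(0,4,[(16,21)]),(0,1,[(4,6)])],[]),([(0,19,[(4,4)])],[2,2,1,1,1])],[8],false,1,0,[3]),
    (false,[([(0,4,[(16,21)]),(0,1,[(4,6)])],[]),([(0,19,[(4,4)]),(0,11,[(2,3)])],[2,1,1])],[8],false,1,0,[2]),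
    (true,[([(0,4,[(16,21)]),(0,11,[(2,3)])],[4]),([(0,1,[(4,6)]),(0,1,[(4,4),(2,2)])],[3,3])],[],false,1,0,[]),
    (false,[([(0,4,[(16,21)]),(0,1,[(4,6)])],[]),([(0,1,[(5,6)])],[3,3,3,2,2])],[],false,1,0,[2]),
    (true,[([(0,4,[(16,21)]),(0,11,[(2,2)])],[4]),([(0,1,[(4,6)]),(0,1,[(5,6)])],[3,3])],[],false,1,0,[]),
    (false,[([(0,4,[(16,21)])],[1]),([(0,5,[(7,8)])],[3,3,3,3,3,1])],[],false,1,0,[3]),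
    (false,[([(0,4,[(16,21)]),(0,11,[(2,3)])],[2]),([(0,5,[(7,8)])],[3,3,3,2,1])],[],false,1,0,[2]),
    (false,[([(0,4,[(16,21)]),(1,0,[(2,3),(2,2)])],[]),([(0,5,[(7,8)])],[3,3,2,2,1])],[],false,1,0,[]),
    (false,[([(0,4,[(16,21)]),(0,14,[(9,9)])],[])],[7,5,4],false,1,0,[]),
    (false,[([(0,20,[(22,24)])],[2,2])],[9,7,2],false,3,2,[])]),
  ([9,8,7,7,6,4,3,2,1], [
    (false,[],[9,8,7,7,6,4,3,2,1],true,7,3,[10,14,18,22,24]),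
    (false,[([(0,0,[(8,10)])],[1,1,1])],[9,8,7,6,4],false,5,4,[6,10]),
    (false,[([(0,0,[(8,10)]),(0,1,[(6,6)])],[2,2])],[8,7,6,4,2],false,5,2,[6]),
    (true,[([(0,0,[(8,10)]),(0,21,[(6,6),(6,6)])],[])],[8,7,5,4],false,4,4,[6]),
    (true,[([(0,16,[(8,10),(6,6),(6,6)]),(0,1,[(5,6)])],[])],[8,6,5],false,3,2,[]),
    (true,[([(0,0,[(8,10)]),(0,0,[(7,10)])],[3])],[8,6,5,4,1],true,5,2,[6,8,10]),
    (false,[([(0,0,[(8,10)]),(0,0,[(7,10)])],[]),([(0,1,[(6,6)])],[2,1,1,1])],[9,7],false,2,5,[4,6]),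
    (false,[([(0,0,[(8,10)]),(0,0,[(7,10)])],[]),([(0,0,[(6,6),(3,4)])],[3,2,2,2,1])],[7],false,1,0,[2,3,4]),
    (false,[([(0,0,[(8,10)]),(0,0,[(7,10)])],[]),([(0,1,[(6,6)]),(0,1,[(3,4),(2,2)])],[3,2,2])],[7,1],true,2,2,[]),
    (false,[([(0,0,[(8,10)]),(0,0,[(7,10)])],[]),([(0,0,[(6,6),(3,4)]),(0,11,[(3,3)])],[3,2,2])],[7],false,1,0,[2]),
    (false,[([(0,3,[(8,10),(3,3),(2,2)])],[4,3,3]),([(0,0,[(7,10)]),(0,0,[(6,6),(3,4)])],[2])],[],false,1,0,[]),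
    (false,[([(0,17,[(8,10),(4,4)]),(0,0,[(7,10)])],[]),([(0,0,[(6,6),(3,4)])],[4,3,3,3])],[],false,1,0,[]),
    (false,[([(0,0,[(8,10)]),(0,0,[(7,10)])],[]),([(0,1,[(6,6)]),(0,1,[(5,6)])],[3,2,2])],[7,1],false,2,1,[]),
    (true,[([(0,10,[(8,10)])],[4,4,4,3]),([(0,0,[(7,10)]),(0,5,[(7,8)])],[4])],[],false,1,0,[3,5]),
    (false,[([(0,0,[(8,10)]),(0,0,[(7,10)])],[]),([(0,5,[(7,8)]),(0,11,[(2,3)])],[3,2,2,1])],[7,1],false,1,0,[3]),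
    (false,[([(0,0,[(8,10)]),(0,0,[(7,10)])],[]),([(0,5,[(7,8)]),(0,11,[(2,3)]),(0,11,[(2,3)])],[3,2])],[7,1],true,2,2,[3]),
    (true,[([(0,0,[(8,10)]),(0,0,[(7,10)])],[]),([(0,5,[(7,8)]),(1,1,[(2,3),(2,3),(3,3)])],[3,1])],[5],false,1,0,[]),
    (false,[([(0,0,[(8,10)]),(0,0,[(7,10)])],[]),([(0,5,[(7,8)]),(0,9,[(4,5)])],[2,2,2])],[7,1],false,2,1,[]),
    (true,[([(0,10,[(8,10)]),(0,18,[(9,10)])],[]),([(0,0,[(7,10)])],[4,4,4,4])],[],false,1,0,[3]),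
    (false,[([(0,0,[(8,10)]),(0,0,[(7,10)])],[]),([(0,0,[(9,10)]),(0,11,[(2,3)])],[3,2,2])],[7],false,1,0,[2]),
    (false,[([(0,0,[(8,10)]),(0,0,[(7,10)])],[2]),([(0,3,[(9,10),(2,3),(2,2)])],[4,3,3])],[],false,1,0,[]),
    (false,[([(0,17,[(11,14)])],[3,2])],[9,8,7,4],false,4,4,[6,10,13,14]),
    (false,[([(0,17,[(11,14)]),(0,1,[(5,6)])],[2])],[8,7,6,4],false,4,4,[5,6]),
    (false,[([(0,22,[(11,14),(5,5)])],[4]),([(0,1,[(5,6)])],[3,3,3,3,3,3])],[],false,1,0,[2,3,4,5]),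
    (false,[([(0,4,[(11,14),(5,5),(2,2)])],[2]),([(0,1,[(5,6)])],[3,3,3,3,3,3])],[],false,1,0,[2]),
    (false,[([(0,4,[(11,14),(5,5),(2,2)]),(0,11,[(2,2)])],[2]),([(0,1,[(5,6)])],[3,3,3,3,3])],[],false,1,0,[2]),
    (false,[([(0,4,[(11,14),(5,5),(2,2)])],[3,3]),([(0,1,[(5,6)]),(1,0,[(2,2),(2,2)])],[3,3,2])],[],false,1,0,[2]),
    (false,[([(0,4,[(11,14),(5,5),(2,2)])],[3,3]),([(0,1,[(5,6)]),(1,0,[(2,2),(2,2),(2,2)])],[3,3,2])],[],false,1,0,[2]),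
    (true,[([(0,4,[(11,14),(5,5),(2,2)])],[5,5]),([(0,1,[(5,6)]),(1,0,[(2,2),(2,2),(2,2)]),(0,11,[(2,2)])],[1])],[],false,1,0,[]),
    (false,[([(0,22,[(11,14),(5,5)]),(0,11,[(3,3)])],[4]),([(0,1,[(5,6)])],[3,3,3,3,3])],[],false,1,0,[2,3]),
    (false,[([(0,4,[(11,14),(5,5),(2,2)]),(0,11,[(3,3)])],[2]),([(0,1,[(5,6)])],[3,3,3,3,3])],[],false,1,0,[2]),
    (false,[([(0,4,[(11,14),(5,5),(2,2)])],[4,4,4]),([(0,1,[(5,6)]),(0,9,[(3,3),(2,2)])],[3])],[],false,1,0,[2]),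
    (true,[([(0,4,[(11,14),(5,5),(2,2)])],[5,5]),([(0,1,[(5,6)]),(0,9,[(3,3),(2,2)]),(0,11,[(2,2)])],[2])],[],false,1,0,[]),
    (true,[([(0,22,[(11,14),(5,5)])],[5,5,4]),([(0,1,[(5,6)]),(0,1,[(3,3),(3,3)])],[2])],[],false,1,0,[2]),
    (false,[([(0,4,[(11,14),(5,5),(2,2)])],[3,3]),([(0,1,[(5,6)]),(0,1,[(3,3),(3,3)])],[3,3,2])],[],false,1,0,[]),
    (true,[([(0,22,[(11,14),(5,5)])],[5,5,4]),([(0,1,[(5,6)]),(0,19,[(4,4)])],[3,1])],[],false,1,0,[3]),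
    (true,[([(0,22,[(11,14),(5,5)])],[6,5,4]),([(0,1,[(5,6)]),(0,19,[(4,4)]),(0,11,[(2,3)])],[])],[],false,1,0,[2]),
    (false,[([(0,4,[(11,14),(5,5),(2,2)])],[4,3]),([(0,1,[(5,6)]),(0,19,[(4,4)]),(0,11,[(2,3)])],[3,3])],[],false,1,0,[]),
    (true,[([(0,22,[(11,14),(5,5)])],[4,4]),([(0,1,[(5,6)]),(0,9,[(5,5)])],[3,3,3])],[],false,1,0,[2]),
    (false,[([(0,4,[(11,14),(5,5),(2,2)])],[4,4,4]),([(0,1,[(5,6)]),(0,9,[(5,5)])],[3])],[],false,1,0,[]),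
    (false,[([(0,4,[(11,14),(6,6)])],[2]),([(0,1,[(5,6)])],[3,3,3,3,3,3])],[],false,1,0,[3,5]),
    (false,[([(0,4,[(11,14),(6,6)]),(0,11,[(2,3)])],[2]),([(0,1,[(5,6)])],[3,3,3,3,3])],[],false,1,0,[2,3]),
    (false,[([(0,4,[(11,14),(6,6)])],[3,3]),([(0,1,[(5,6)]),(1,0,[(2,3),(2,2)])],[3,3,2])],[],false,1,0,[2]),
    (true,[([(0,4,[(11,14),(6,6)])],[5,5]),([(0,1,[(5,6)]),(1,0,[(2,3),(2,2)]),(0,11,[(2,2)])],[1])],[],false,1,0,[2]),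
    (true,[([(0,4,[(11,14),(6,6)])],[5,5]),([(0,1,[(5,6)]),(0,11,[(2,3)]),(1,0,[(2,2),(2,2),(2,2)])],[1])],[],false,1,0,[]),
    (false,[([(0,4,[(11,14),(6,6)])],[3,3]),([(0,1,[(5,6)]),(0,1,[(2,3),(3,3)])],[3,3,2])],[],false,1,0,[2]),
    (true,[([(0,4,[(11,14),(6,6)])],[5,5]),([(0,1,[(5,6)]),(0,1,[(2,3),(3,3)]),(0,11,[(2,2)])],[1])],[],false,1,0,[]),
    (false,[([(0,4,[(11,14),(6,6)])],[4,4,4]),([(0,1,[(5,6)]),(0,9,[(4,5)])],[3])],[],false,1,0,[2]),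
    (true,[([(0,4,[(11,14),(6,6)])],[5,5]),([(0,1,[(5,6)]),(0,9,[(4,5)]),(0,11,[(2,2)])],[2])],[],false,1,0,[]),
    (false,[([(0,17,[(11,14)]),(0,0,[(7,10)])],[])],[8,7,6,2],false,4,2,[6,8]),
    (false,[([(0,17,[(11,14)]),(0,0,[(7,10)])],[]),([(0,1,[(5,6)])],[3,2,2,2])],[8],false,1,0,[2,4]),
    (true,[([(0,17,[(11,14)])],[4,4,4]),([(0,0,[(7,10)]),(0,7,[(5,6),(2,2)])],[3])],[],false,1,0,[2]),
    (false,[([(0,17,[(11,14)]),(0,0,[(7,10)])],[]),([(0,0,[(5,6),(2,2),(2,2)])],[4,3,3,3])],[],false,1,0,[2]),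
    (false,[([(0,17,[(11,14)]),(0,0,[(7,10)])],[]),([(0,1,[(5,6)]),(1,0,[(2,2),(2,2),(2,2)])],[2,2])],[7],false,1,0,[]),
    (false,[([(0,17,[(11,14)]),(0,0,[(7,10)])],[]),([(0,0,[(5,6),(3,4)])],[4,3,3,3])],[],false,1,0,[2]),
    (false,[([(0,17,[(11,14)]),(0,0,[(7,10)])],[]),([(0,1,[(5,6)]),(0,1,[(3,4),(2,2)])],[2,2])],[7],false,1,0,[]),
    (false,[([(0,17,[(11,14)]),(0,0,[(7,10)])],[]),([(0,5,[(7,8)])],[2,2,2,1])],[8],false,1,0,[2]),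
    (false,[([(0,17,[(11,14)]),(0,0,[(7,10)])],[]),([(0,0,[(7,8),(2,2)])],[4,3,3,3])],[],false,1,0,[]),
    (true,[([(0,17,[(11,14)]),(0,12,[(11,13)])],[])],[7,6,5,2],false,4,2,[]),
    (false,[([(0,23,[(11,14),(14,14)])],[3])],[9,7],false,1,0,[]),
    (false,[([(0,24,[(15,18)])],[4,3])],[9,7,6],false,3,6,[5,6,8,10]),
    (false,[([(0,25,[(15,18),(4,5)])],[6,3])],[8,7],false,2,6,[3,4,5]),
    (false,[([(0,25,[(15,18),(4,5)])],[6,3]),([(0,11,[(3,3)])],[2,2,2,2,2,2])],[],false,1,0,[2,3]),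
    (true,[([(0,25,[(15,18),(4,5)])],[6,5]),([(0,11,[(3,3)]),(0,11,[(2,2)])],[2,2,2,1])],[],false,1,0,[2]),
    (true,[([(0,25,[(15,18),(4,5)])],[6,5]),([(0,11,[(3,3)]),(0,11,[(2,2)]),(0,11,[(2,2)])],[2,2])],[],false,1,0,[2]),
    (false,[([(0,4,[(15,18),(3,3)])],[4,4,4]),([(0,9,[(4,5)]),(1,0,[(2,2),(2,2),(2,2)])],[3])],[],false,1,0,[2]),
    (true,[([(0,4,[(15,18),(3,3)])],[5,5]),([(0,9,[(4,5)]),(1,0,[(2,2),(2,2),(2,2)]),(0,11,[(2,2)])],[2])],[],false,1,0,[]),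
    (true,[([(0,25,[(15,18),(4,5)])],[6,5]),([(0,11,[(3,3)]),(0,11,[(3,3)])],[2,2,2,1])],[],false,1,0,[3]),
    (true,[([(0,25,[(15,18),(4,5)])],[6,5]),([(0,11,[(3,3)]),(0,11,[(3,3)]),(0,11,[(2,3)])],[2,2])],[],false,1,0,[2]),
    (true,[([(0,4,[(15,18),(3,3)])],[5,5]),([(0,9,[(4,5)]),(0,1,[(3,3),(2,3)]),(0,11,[(2,2)])],[2])],[],false,1,0,[]),
    (true,[([(0,16,[(15,18),(4,4)]),(0,9,[(4,5)])],[])],[8,7,5],false,3,3,[4]),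
    (false,[([(0,25,[(15,18),(4,5)])],[6,3]),([(0,19,[(4,4)]),(0,19,[(4,4)])],[2,2,2,1])],[],false,1,0,[]),
    (false,[([(0,23,[(15,18),(4,5),(5,5)])],[3])],[9,7],false,2,2,[3]),
    (false,[([(0,23,[(15,18),(4,5),(5,5)])],[3]),([(0,11,[(3,3)])],[2,2,2,2,2,2,1])],[],false,1,0,[]),
    (false,[([(0,20,[(15,18),(6,6)])],[3,2])],[9,7,2],false,3,2,[5]),
    (false,[([(0,20,[(15,18),(6,6)]),(0,1,[(4,5)])],[])],[8,7,2],false,2,1,[]),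
    (false,[([(0,24,[(15,18)])],[4,3]),([(0,5,[(7,8)])],[3,3,3,3,1,1])],[],false,1,0,[3,4]),
    (false,[([(0,4,[(15,18),(2,3)]),(0,5,[(7,8)])],[])],[7,7,4],false,2,2,[3]),
    (false,[([(0,4,[(15,18),(2,3)]),(0,5,[(7,8)])],[]),([(0,11,[(3,3)])],[2,2,2,1,1])],[7],false,1,0,[]),
    (false,[([(0,16,[(15,18),(4,4)]),(0,5,[(7,8)])],[])],[7,7,3],false,1,0,[]),
    (false,[([(0,23,[(15,18),(9,10)])],[3])],[9,7],false,2,1,[]),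
    (false,[([(0,16,[(19,22)])],[3,3])],[9,7,3],false,3,3,[6]),
    (true,[([(0,16,[(19,22)]),(0,1,[(4,6)])],[])],[8,6,5],false,3,2,[]),
    (false,[([(0,20,[(23,24)])],[3,2])],[9,7,2],false,2,1,[])]),
  ([9,9,8,7,5,4,3,2,1], [
    (false,[],[9,9,8,7,5,4,3,2,1],true,7,5,[10,15,21,24]),
    (false,[([(0,0,[(8,10)])],[1,1,1,1,1])],[9,8,7,5,4],false,5,4,[8,10]),
    (true,[([(0,0,[(8,10)]),(0,7,[(6,8)])],[3])],[8,7,5,4,3],false,5,3,[7,8]),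
    (false,[([(0,0,[(8,10)]),(0,3,[(6,8),(6,7)])],[])],[9,8,4,2],false,4,2,[6,7]),
    (false,[([(0,0,[(8,10)]),(0,3,[(6,8),(6,7)])],[]),([(0,1,[(5,6)])],[3,2,1,1,1])],[9],false,1,0,[3]),
    (false,[([(0,0,[(8,10)]),(0,3,[(6,8),(6,7)])],[]),([(0,1,[(5,6)]),(0,11,[(2,3)])],[3,1,1])],[9],false,1,0,[2]),
    (false,[([(0,0,[(8,10)]),(0,3,[(6,8),(6,7)])],[]),([(0,1,[(5,6)]),(1,0,[(2,3),(2,2)])],[1,1])],[9],false,1,0,[]),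
    (false,[([(0,0,[(8,10)]),(0,3,[(6,8),(6,7)])],[]),([(0,5,[(7,7)])],[2,1,1,1,1])],[9],false,1,0,[]),
    (true,[([(0,0,[(8,10)]),(0,7,[(6,8)])],[]),([(0,5,[(8,8)])],[3,3,2,1])],[9,4],false,2,4,[3,5]),
    (false,[([(0,0,[(8,10)]),(0,7,[(6,8)])],[]),([(0,5,[(8,8)]),(0,11,[(3,3)])],[3,3,2,1])],[9,1],true,2,2,[3]),
    (true,[([(0,0,[(8,10)]),(0,7,[(6,8)])],[3]),([(0,17,[(8,8),(3,3),(3,3)])],[5,5,3])],[],false,1,0,[]),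
    (false,[([(0,0,[(8,10)]),(0,7,[(6,8)])],[]),([(0,5,[(8,8)]),(0,9,[(4,5)])],[3,2,2])],[9,1],false,2,1,[]),
    (true,[([(0,0,[(8,10)]),(0,0,[(9,10)])],[])],[9,7,5,4,3],false,5,3,[8,9]),
    (false,[([(0,0,[(8,10)]),(0,0,[(9,10)])],[2]),([(0,7,[(6,8)])],[3,3,2,1])],[9],false,1,0,[3,4]),
    (false,[([(0,0,[(8,10)]),(0,0,[(9,10)])],[2]),([(0,7,[(6,8)]),(0,11,[(2,3)])],[3,3])],[9],false,1,0,[2,3]),
    (false,[([(0,0,[(8,10)]),(0,7,[(6,8)])],[1]),([(0,3,[(9,10),(2,3),(2,2)])],[4,4,3,3])],[],false,1,0,[2]),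
    (false,[([(0,0,[(8,10)]),(0,3,[(9,10),(2,3),(2,2)])],[]),([(0,0,[(6,8),(2,2)])],[4,3,2,2,2])],[],false,1,0,[]),
    (false,[([(0,0,[(8,10)]),(0,12,[(9,10),(3,3)])],[]),([(0,7,[(6,8)]),(0,11,[(2,3)])],[3,1,1])],[9],false,1,0,[]),
    (true,[([(0,17,[(8,10),(4,4)])],[5,4,3]),([(0,0,[(9,10)]),(0,7,[(6,8)])],[4])],[],false,1,0,[]),
    (false,[([(0,4,[(8,10),(9,10)]),(0,14,[(9,9)])],[])],[9,5,4],false,1,0,[]),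
    (false,[([(0,3,[(11,15)])],[1,1,1,1])],[9,8,7,5],false,4,5,[5,6,10,13,14]),
    (false,[([(0,3,[(11,15)]),(0,9,[(5,5)])],[1])],[9,8,7,3],false,4,3,[5]),
    (false,[([(0,3,[(11,15)]),(0,0,[(5,5),(5,5)])],[])],[9,8,4,2],false,4,2,[5]),
    (false,[([(0,3,[(11,15)]),(0,0,[(5,5),(5,5)])],[]),([(0,9,[(5,5)])],[3,2,2,1,1])],[9],false,1,0,[2]),
    (false,[([(0,3,[(11,15)]),(0,6,[(5,5),(2,2)])],[]),([(0,0,[(5,5),(5,5)])],[4,3,3,3,3])],[],false,1,0,[]),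
    (false,[([(0,3,[(11,15)]),(0,1,[(6,6)])],[2])],[9,8,5,3],false,4,3,[6]),
    (false,[([(0,4,[(11,15),(6,6)]),(0,1,[(5,6)])],[])],[9,8,4],false,3,4,[5]),
    (false,[([(0,4,[(11,15),(6,6)]),(0,1,[(5,6)])],[]),([(0,1,[(4,5)])],[3,3,3,2,2,2])],[],false,1,0,[2]),
    (false,[([(0,4,[(11,15),(6,6)])],[4,3,3]),([(0,1,[(5,6)]),(0,9,[(4,5)]),(0,11,[(2,2)])],[3])],[],false,1,0,[]),
    (false,[([(0,3,[(11,15)]),(0,0,[(7,10)])],[])],[9,8,4,2],false,4,2,[6,8]),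
    (false,[([(0,3,[(11,15)]),(0,0,[(7,10)])],[]),([(0,1,[(5,6)])],[3,2,1,1,1])],[9],false,1,0,[3,4]),
    (false,[([(0,3,[(11,15)]),(0,0,[(7,10)])],[]),([(0,1,[(5,6)]),(0,11,[(2,3)])],[3,1,1])],[9],false,1,0,[2,3]),
    (false,[([(0,3,[(11,15)]),(0,0,[(7,10)])],[]),([(0,1,[(5,6)]),(1,0,[(2,3),(2,2)])],[1,1])],[9],false,1,0,[2]),
    (true,[([(0,3,[(11,15)]),(0,11,[(2,3)])],[5,5]),([(0,0,[(7,10)]),(0,0,[(5,6),(2,2),(2,2)])],[])],[],false,1,0,[]),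
    (true,[([(0,3,[(11,15)]),(0,11,[(2,3)])],[5,5]),([(0,0,[(7,10)]),(0,0,[(5,6),(3,3)])],[])],[],false,1,0,[]),
    (false,[([(0,3,[(11,15)]),(0,0,[(7,10)])],[]),([(0,0,[(5,6),(4,4)])],[4,3,2,2,2])],[],false,1,0,[]),
    (false,[([(0,3,[(11,15)]),(0,0,[(7,10)])],[]),([(0,5,[(7,8)])],[2,1,1,1,1])],[9],false,1,0,[2]),
    (false,[([(0,3,[(11,15)]),(0,0,[(7,10)])],[]),([(0,0,[(7,8),(2,2)])],[4,3,2,2,2])],[],false,1,0,[]),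
    (false,[([(0,3,[(11,15)])],[]),([(0,12,[(11,13)])],[4,4,4,4,4])],[],false,1,0,[4]),
    (false,[([(0,3,[(11,15)]),(1,1,[(2,4)])],[]),([(0,12,[(11,13)])],[3,2,2,2,1])],[],false,1,0,[3]),
    (false,[([(0,3,[(11,15)]),(1,1,[(2,4),(2,3)])],[]),([(0,12,[(11,13)])],[3,2,2,2,1])],[],false,1,0,[2]),
    (false,[([(0,3,[(11,15)]),(1,1,[(2,4),(2,3),(2,2)])],[]),([(0,12,[(11,13)])],[3,2,2,2,1])],[],false,1,0,[]),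
    (false,[([(0,3,[(11,15)]),(0,13,[(14,14)])],[])],[9,4,3,2],false,1,0,[]),
    (false,[([(0,4,[(16,21)])],[1,1,1])],[9,8,7],false,3,7,[6,8,9]),
    (false,[([(0,4,[(16,21)]),(0,1,[(4,6)])],[])],[9,8,4],false,3,4,[5,6]),
    (false,[([(0,4,[(16,21)]),(0,1,[(4,6)])],[]),([(0,1,[(4,5)])],[3,3,3,2,2,2])],[],false,1,0,[3]),
    (false,[([(0,4,[(16,21)])],[4,3,3]),([(0,1,[(4,6)]),(0,9,[(4,5)]),(0,11,[(2,3)])],[3])],[],false,1,0,[2]),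
    (false,[([(0,4,[(16,21)])],[4,3,3]),([(0,1,[(4,6)]),(0,9,[(4,5)]),(1,0,[(2,3),(2,2)])],[])],[],false,1,0,[]),
    (false,[([(0,4,[(16,21)]),(0,1,[(4,6)])],[]),([(0,1,[(6,6)])],[3,3,3,2,2,2])],[],false,1,0,[]),
    (false,[([(0,4,[(16,21)])],[1]),([(0,5,[(7,8)])],[3,3,3,3,3,3])],[],false,1,0,[3]),
    (false,[([(0,4,[(16,21)]),(0,11,[(2,3)])],[2]),([(0,5,[(7,8)])],[3,3,3,2,2,1])],[],false,1,0,[2]),
    (false,[([(0,4,[(16,21)]),(1,0,[(2,3),(2,2)])],[]),([(0,5,[(7,8)])],[3,3,2,2,2,1])],[],false,1,0,[]),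
    (false,[([(0,4,[(16,21)]),(0,14,[(9,9)])],[])],[9,5,4],false,1,0,[]),
    (false,[([(0,15,[(22,24)])],[5,3,3])],[8,4,1],false,3,1,[])]),
  ([10,9,8,7,6,3,2,1], [
    (false,[],[10,9,8,7,6,3,2,1],false,6,6,[10,15,21,24]),
    (true,[([(0,0,[(7,10)])],[1])],[8,7,6,5,5,4],false,5,4,[6,9,10]),
    (true,[([(0,0,[(7,10)]),(0,1,[(6,6)])],[])],[8,6,5,5,4,2],false,4,6,[6]),
    (true,[([(0,0,[(7,10)]),(0,1,[(6,6)])],[]),([(0,1,[(5,6)])],[3,2])],[8,6,5],false,3,5,[6]),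
    (true,[([(0,0,[(7,10)]),(0,1,[(6,6)])],[]),([(0,1,[(5,6)]),(0,1,[(4,6)])],[2,1])],[6,5,4],false,3,4,[5,6]),
    (true,[([(0,0,[(7,10)]),(0,18,[(6,6),(4,5)])],[]),([(0,1,[(5,6)]),(0,1,[(4,6)])],[3])],[5,4,1],false,3,1,[]),
    (false,[([(0,0,[(7,10)]),(0,3,[(6,6),(6,6)])],[3]),([(0,1,[(5,6)]),(0,1,[(4,6)])],[2,2,2])],[],false,1,0,[]),
    (true,[([(0,0,[(7,10)]),(0,0,[(7,9)])],[])],[7,5,5,5,3,1],true,3,8,[4,6,8,9]),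
    (true,[([(0,0,[(7,10)]),(0,0,[(7,9)])],[]),([(0,19,[(4,4)])],[2,2,2])],[7,5,3,1],true,4,2,[]),
    (false,[([(0,0,[(7,10)]),(0,3,[(7,9),(5,6)])],[3])],[9,7,2],false,2,7,[3,4,6]),
    (true,[([(0,0,[(7,10)]),(0,0,[(7,9)])],[]),([(0,1,[(5,6)]),(0,11,[(3,3)])],[])],[7,5,5],false,2,5,[3]),
    (false,[([(0,0,[(7,10)]),(0,3,[(7,9),(5,6)])],[3]),([(0,1,[(3,3),(3,3)])],[3,2,2,2,2,1])],[],false,1,0,[2,3]),
    (false,[([(0,0,[(7,10)]),(0,3,[(7,9),(5,6)])],[3]),([(0,1,[(3,3),(3,3)]),(0,11,[(2,2)])],[3,2,2,2])],[],false,1,0,[2]),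
    (false,[([(0,0,[(7,10)]),(0,3,[(7,9),(5,6)])],[3]),([(0,1,[(3,3),(3,3)]),(1,0,[(2,2),(2,2)])],[2,2,2])],[],false,1,0,[2]),
    (false,[([(0,0,[(7,10)]),(0,3,[(7,9),(5,6)])],[3]),([(0,1,[(3,3),(3,3)]),(1,0,[(2,2),(2,2),(2,2)])],[2,2,2])],[],false,1,0,[]),
    (false,[([(0,0,[(7,10)]),(0,3,[(7,9),(5,6)])],[3]),([(0,1,[(3,3),(3,3)]),(0,11,[(3,3)])],[3,2,2,2])],[],false,1,0,[2]),
    (false,[([(0,0,[(7,10)]),(0,3,[(7,9),(5,6)])],[3]),([(0,1,[(3,3),(3,3)]),(0,1,[(3,3),(2,2)])],[2,2,2])],[],false,1,0,[]),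
    (true,[([(0,0,[(7,10)]),(0,0,[(7,9)])],[]),([(0,1,[(5,6)]),(0,19,[(4,4)])],[2,1])],[5,5,3],true,2,4,[3,4]),
    (true,[([(0,0,[(7,10)]),(0,7,[(4,4),(3,3)])],[]),([(0,3,[(7,9),(5,6)])],[4,4])],[5],false,1,0,[2,3]),
    (false,[([(0,0,[(7,10)]),(0,3,[(7,9),(5,6)])],[3]),([(0,1,[(4,4),(2,2)]),(0,11,[(3,3)])],[3,2,2,2])],[],false,1,0,[2]),
    (false,[([(0,0,[(7,10)]),(0,3,[(7,9),(5,6)])],[3]),([(0,1,[(4,4),(2,2)]),(0,1,[(3,3),(2,2)])],[2,2,2])],[],false,1,0,[]),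
    (false,[([(0,0,[(7,10)]),(0,3,[(7,9),(5,6)])],[3]),([(0,19,[(4,4)]),(0,1,[(3,3),(3,3)])],[3,2,2,1])],[],false,1,0,[]),
    (true,[([(0,0,[(7,10)]),(0,7,[(4,4),(4,4)])],[]),([(0,3,[(7,9),(5,6)])],[4,4])],[5],false,1,0,[2]),
    (false,[([(0,0,[(7,10)]),(0,3,[(7,9),(5,6)])],[3]),([(0,1,[(4,4),(2,2)]),(0,19,[(4,4)])],[3,2,2,1])],[],false,1,0,[]),
    (true,[([(0,0,[(7,10)]),(0,0,[(7,9)])],[]),([(0,1,[(5,6)]),(0,1,[(5,6)])],[3])],[5,5,1],true,2,3,[4]),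
    (false,[([(0,0,[(7,10)]),(0,0,[(7,9)])],[3,3]),([(0,0,[(5,6),(3,4)]),(0,1,[(5,6)])],[2,2])],[],false,1,0,[2]),
    (false,[([(0,0,[(7,10)]),(0,3,[(7,9),(5,6)])],[3]),([(0,1,[(5,6)]),(0,1,[(3,4),(2,2)])],[2,2,2])],[],false,1,0,[]),
    (true,[([(0,0,[(7,10)]),(0,0,[(7,9)])],[]),([(0,5,[(7,8)])],[3,2])],[7,5,1],true,3,2,[6]),
    (true,[([(0,0,[(7,10)]),(0,0,[(7,9)])],[]),([(0,5,[(7,8)]),(0,1,[(4,6)])],[1])],[5,5,1],true,2,2,[3]),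
    (false,[([(0,0,[(7,10)]),(0,18,[(7,8),(3,3)])],[3]),([(0,0,[(7,9)]),(0,1,[(4,6)])],[2,2,2])],[],false,1,0,[]),
    (true,[([(0,0,[(7,10)]),(0,0,[(7,9)])],[]),([(0,14,[(9,9)])],[2,2])],[7,5,1],false,3,1,[4]),
    (true,[([(0,0,[(7,10)])],[3,3]),([(0,16,[(7,9),(9,9),(4,4)])],[6,2])],[],false,1,0,[]),
    (true,[([(0,0,[(7,10)]),(0,18,[(10,10)])],[])],[7,5,5,4,3,1],true,5,2,[8,9]),
    (true,[([(0,0,[(7,10)]),(0,7,[(6,8)])],[]),([(0,0,[(10,10)])],[3,3])],[7,5],false,2,3,[3,4]),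
    (true,[([(0,0,[(7,10)]),(0,7,[(6,8)])],[]),([(0,12,[(10,10),(3,3)])],[4,4,1])],[5,1],false,2,1,[]),
    (true,[([(0,0,[(7,10)])],[3,3]),([(0,16,[(10,10),(6,8),(4,4)])],[6,2])],[],false,1,0,[]),
    (false,[([(0,4,[(7,10),(10,10)]),(0,14,[(9,9)])],[])],[10,6],false,1,0,[]),
    (true,[([(0,3,[(11,15)])],[])],[8,7,6,5,5],false,4,6,[5,6,8,11,13,14]),
    (true,[([(0,3,[(11,15)]),(0,9,[(5,5)])],[])],[7,6,5,5,3],false,4,3,[5]),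
    (false,[([(0,3,[(11,15)]),(0,0,[(5,5),(5,5)])],[3])],[9,7,2],false,3,2,[5]),
    (true,[([(0,3,[(11,15)]),(0,9,[(5,5)])],[]),([(0,1,[(5,5)]),(0,1,[(4,5)])],[3])],[6,5],false,2,2,[3]),
    (true,[([(0,3,[(11,15)])],[4,4]),([(0,0,[(5,5),(5,5)]),(0,7,[(4,5),(3,3)])],[])],[5],false,1,0,[]),
    (true,[([(0,4,[(11,15),(6,6)])],[])],[8,7,5,5],false,3,7,[6]),
    (false,[([(0,4,[(11,15),(6,6)]),(0,1,[(4,6)])],[3])],[9,7],false,2,5,[3,6]),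
    (true,[([(0,3,[(11,15)])],[4]),([(0,1,[(6,6)]),(0,1,[(4,6)]),(0,11,[(3,3)])],[])],[7,5],false,2,3,[3]),
    (true,[([(0,4,[(11,15),(6,6)])],[4]),([(0,1,[(4,6)]),(0,1,[(3,3),(3,3)])],[3,1])],[5],false,1,0,[2]),
    (true,[([(0,4,[(11,15),(6,6)])],[5]),([(0,1,[(4,6)]),(0,1,[(3,3),(3,3)]),(0,11,[(2,2)])],[])],[5],false,1,0,[]),
    (true,[([(0,4,[(11,15),(6,6)])],[4]),([(0,1,[(4,6)]),(0,1,[(4,6)])],[3,1])],[5],false,1,0,[3]),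
    (true,[([(0,4,[(11,15),(6,6)])],[5]),([(0,1,[(4,6)]),(0,1,[(4,6)]),(0,11,[(2,3)])],[])],[5],false,1,0,[2]),
    (false,[([(0,3,[(11,15)]),(0,5,[(6,6),(2,2)])],[3]),([(0,1,[(4,6)]),(0,1,[(4,6)]),(0,11,[(2,3)])],[3,2])],[],false,1,0,[]),
    (true,[([(0,3,[(11,15)]),(0,5,[(7,8)])],[])],[6,5,5,4,3],false,4,3,[6,8]),
    (true,[([(0,3,[(11,15)]),(0,5,[(7,8)])],[]),([(0,1,[(5,6)])],[3,3])],[6,5],false,2,3,[4]),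
    (true,[([(0,3,[(11,15)])],[4,4]),([(0,7,[(7,8)]),(0,0,[(5,6),(3,4)])],[])],[5],false,1,0,[2]),
    (false,[([(0,3,[(11,15)]),(0,0,[(5,6),(3,4)])],[3]),([(0,5,[(7,8)]),(0,11,[(2,2)])],[2,2,2,1])],[],false,1,0,[]),
    (true,[([(0,3,[(11,15)]),(0,5,[(7,8)])],[]),([(0,5,[(7,8)])],[3,1])],[6,5],false,2,1,[]),
    (false,[([(0,3,[(11,15)]),(0,18,[(9,11)])],[])],[10,8,2],false,3,2,[6]),
    (false,[([(0,3,[(11,15)]),(0,18,[(9,11)])],[]),([(0,1,[(4,6)])],[3,2,2,2,2,2,1])],[],false,1,0,[3]),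
    (false,[([(0,3,[(11,15)]),(0,18,[(9,11)])],[]),([(0,1,[(4,6)]),(0,11,[(2,3)])],[3,2,2,2,2])],[],false,1,0,[2]),
    (false,[([(0,3,[(11,15)]),(0,18,[(9,11)])],[]),([(0,1,[(4,6)]),(1,0,[(2,3),(2,2)])],[2,2,2,2])],[],false,1,0,[]),
    (false,[([(0,3,[(11,15)]),(0,21,[(12,13)])],[])],[9,8,1],false,3,1,[]),
    (true,[([(0,3,[(11,15)])],[2]),([(0,17,[(14,14)])],[5,5,5])],[],false,1,0,[]),
    (true,[([(0,4,[(16,21)])],[])],[8,7,5,5],false,3,7,[6,8,9]),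
    (false,[([(0,4,[(16,21)]),(0,1,[(4,6)])],[3])],[9,7],false,2,5,[3,4,6]),
    (false,[([(0,4,[(16,21)]),(0,1,[(4,6)])],[3]),([(0,11,[(3,3)])],[2,2,2,2,2,2,1])],[],false,1,0,[2,3]),
    (true,[([(0,4,[(16,21)])],[3]),([(0,1,[(4,6)]),(0,9,[(3,3),(2,2)])],[3,3])],[5],false,1,0,[2]),
    (true,[([(0,4,[(16,21)])],[5]),([(0,1,[(4,6)]),(0,1,[(3,3),(2,2)]),(0,11,[(2,2)])],[])],[5],false,1,0,[2]),
    (true,[([(0,4,[(16,21)])],[5]),([(0,1,[(4,6)]),(0,11,[(3,3)]),(1,0,[(2,2),(2,2),(2,2)])],[])],[5],false,1,0,[]),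
    (true,[([(0,4,[(16,21)])],[4]),([(0,1,[(4,6)]),(0,1,[(3,3),(3,3)])],[3,1])],[5],false,1,0,[2]),
    (true,[([(0,4,[(16,21)])],[5]),([(0,1,[(4,6)]),(0,1,[(3,3),(3,3)]),(0,11,[(2,2)])],[])],[5],false,1,0,[]),
    (false,[([(0,4,[(16,21)]),(0,1,[(4,6)])],[3]),([(0,19,[(4,4)])],[2,2,2,2,2,1,1])],[],false,1,0,[3]),
    (false,[([(0,4,[(16,21)]),(0,1,[(4,6)])],[3]),([(0,19,[(4,4)]),(0,11,[(2,3)])],[2,2,2,2,1])],[],false,1,0,[2]),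
    (true,[([(0,4,[(16,21)])],[5]),([(0,1,[(4,6)]),(0,1,[(4,4),(2,2)]),(0,11,[(2,3)])],[])],[5],false,1,0,[]),
    (true,[([(0,4,[(16,21)])],[4]),([(0,1,[(4,6)]),(0,1,[(5,6)])],[3,1])],[5],false,1,0,[2]),
    (true,[([(0,4,[(16,21)])],[5]),([(0,1,[(4,6)]),(0,1,[(5,6)]),(0,11,[(2,2)])],[])],[5],false,1,0,[]),
    (false,[([(0,4,[(16,21)]),(0,5,[(7,8)])],[])],[10,7],false,2,2,[3]),
    (true,[([(0,4,[(16,21)])],[4]),([(0,18,[(7,8),(3,3)])],[4,4,1,1])],[],false,1,0,[]),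
    (false,[([(0,4,[(16,21)]),(0,14,[(9,9)])],[])],[10,6],false,1,0,[]),
    (true,[([(0,26,[(22,24)])],[6])],[7,5,4],false,3,2,[])])]

theorem cj8e_0_ok : runAllJ S43 R43 F43 23 cj8e_0 = true := by decide +kernel

noncomputable def cj8e_1 : List (List ℕ × List NdJ) := [
  ([10,9,8,7,6,4,3,2], [
    (false,[],[10,9,8,7,6,4,3,2],false,7,4,[10,15,21,24]),
    (true,[([(0,0,[(8,10)])],[2,2,1,1])],[8,7,6,5,4,3],false,6,3,[10]),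
    (false,[([(0,0,[(8,10)]),(0,0,[(7,10)])],[])],[10,9,7,3],false,4,3,[6,10]),
    (true,[([(0,0,[(8,10)]),(0,0,[(7,10)])],[]),([(0,1,[(5,6)])],[2,1])],[8,7,5],false,3,5,[6]),
    (true,[([(0,0,[(8,10)]),(0,0,[(7,10)])],[]),([(0,1,[(5,6)]),(0,1,[(4,6)])],[3])],[8,5,1],false,3,1,[4]),
    (false,[([(0,3,[(8,10),(4,4)]),(0,0,[(7,10)])],[5]),([(0,1,[(5,6)]),(0,1,[(4,6)])],[3,2,2])],[],false,1,0,[]),
    (true,[([(0,0,[(8,10)]),(0,0,[(7,10)])],[]),([(0,0,[(7,10)])],[3,2,1])],[8,5],false,2,4,[4,5]),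
    (false,[([(0,0,[(8,10)]),(0,0,[(7,10)])],[2]),([(0,0,[(7,10)]),(1,1,[(3,4)])],[4,3])],[],false,1,0,[3]),
    (false,[([(0,0,[(8,10)]),(0,0,[(7,10)])],[2]),([(0,0,[(7,10)]),(1,1,[(3,4),(2,3)])],[4,3])],[],false,1,0,[2]),
    (false,[([(0,0,[(8,10)]),(0,0,[(7,10)])],[2]),([(0,0,[(7,10)]),(1,1,[(3,4),(2,3),(2,2)])],[4,3])],[],false,1,0,[]),
    (true,[([(0,3,[(8,10),(5,5)])],[4,3,2]),([(0,0,[(7,10)]),(0,0,[(7,10)])],[])],[5],false,1,0,[]),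
    (true,[([(0,3,[(11,15)])],[2,1,1])],[8,7,6,5,4],false,5,4,[7,10,14]),
    (true,[([(0,3,[(11,15)])],[2,2]),([(0,6,[(6,7)])],[4,4,4,3])],[8],false,1,0,[3,4,5,7]),
    (false,[([(0,3,[(11,15)]),(0,0,[(6,7),(2,3)])],[5])],[9,7,3],false,3,3,[]),
    (false,[([(0,3,[(11,15)]),(0,18,[(6,7),(4,4)])],[5])],[9,6,3],false,3,3,[4]),
    (false,[([(0,3,[(11,15)]),(0,3,[(6,7),(4,4),(4,4)])],[])],[9,7,3],false,3,2,[]),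
    (true,[([(0,3,[(11,15)])],[3,3,2]),([(0,2,[(6,7),(5,5)])],[5,5,4])],[],false,1,0,[3,5]),
    (false,[([(0,3,[(11,15)]),(0,3,[(6,7),(5,5),(2,3)])],[])],[9,7,3],false,3,3,[]),
    (true,[([(0,3,[(11,15)])],[4,4,4]),([(0,6,[(6,7)]),(0,0,[(5,5),(4,5)])],[])],[5],false,1,0,[2]),
    (true,[([(0,3,[(11,15)])],[5,5,5]),([(0,17,[(6,7),(5,5),(2,2)]),(0,9,[(4,5)])],[])],[],false,1,0,[]),
    (false,[([(0,3,[(11,15)]),(0,3,[(6,7),(6,7)])],[])],[9,7,3],false,3,3,[4]),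
    (true,[([(0,3,[(11,15)]),(0,19,[(4,4)])],[1]),([(0,17,[(6,7),(6,7)])],[5,5,5])],[],false,1,0,[]),
    (false,[([(0,3,[(11,15)]),(0,10,[(8,10)])],[])],[9,8,7],false,3,6,[6,7]),
    (false,[([(0,3,[(11,15)]),(0,10,[(8,10)])],[]),([(0,1,[(4,6)])],[3,3,3,3,3,3])],[],false,1,0,[2,3,4]),
    (false,[([(0,3,[(11,15)]),(0,0,[(8,10)])],[5]),([(0,1,[(4,6)]),(0,11,[(2,2)])],[3,3,2,2])],[],false,1,0,[2]),
    (false,[([(0,3,[(11,15)]),(0,0,[(8,10)])],[5]),([(0,1,[(4,6)]),(1,0,[(2,2),(2,2)])],[3,2,2])],[],false,1,0,[2]),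
    (false,[([(0,3,[(11,15)]),(0,0,[(8,10)])],[5]),([(0,1,[(4,6)]),(1,0,[(2,2),(2,2),(2,2)])],[3,2,2])],[],false,1,0,[]),
    (false,[([(0,3,[(11,15)]),(0,0,[(8,10)])],[5]),([(0,1,[(4,6)]),(0,11,[(3,3)])],[3,3,2,2])],[],false,1,0,[2]),
    (false,[([(0,3,[(11,15)]),(0,3,[(8,10),(3,3),(2,2)])],[]),([(0,1,[(4,6)])],[3,3,2,2,2,1])],[],false,1,0,[]),
    (true,[([(0,3,[(11,15)]),(0,1,[(4,6)])],[]),([(0,17,[(8,10),(4,4)])],[5,5,4])],[],false,1,0,[]),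
    (true,[([(0,3,[(11,15)])],[3,1,1]),([(0,8,[(8,10),(7,7)])],[5,5,2])],[],false,1,0,[]),
    (false,[([(0,3,[(11,15)]),(0,3,[(11,14)])],[])],[9,7,3],false,3,3,[4]),
    (true,[([(0,3,[(11,15)]),(0,19,[(4,4)])],[1]),([(0,17,[(11,14)])],[5,5,5])],[],false,1,0,[]),
    (true,[([(0,4,[(16,21)])],[1,1])],[8,7,6,5],false,4,5,[6,9]),
    (false,[([(0,4,[(16,21)]),(0,1,[(5,6)])],[6])],[9,7],false,2,4,[4,5]),
    (true,[([(0,4,[(16,21)])],[1,1]),([(0,0,[(5,6),(3,4)])],[4,4,4,4])],[],false,1,0,[3]),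
    (true,[([(0,4,[(16,21)])],[5,5]),([(0,0,[(5,6),(3,4)]),(0,11,[(2,3)])],[4,1])],[],false,1,0,[2]),
    (true,[([(0,4,[(16,21)])],[6,5]),([(0,0,[(5,6),(3,4)]),(1,0,[(2,3),(2,2)])],[1])],[],false,1,0,[]),
    (true,[([(0,4,[(16,21)])],[3]),([(0,1,[(5,6)]),(0,9,[(5,5)])],[3,3])],[8],false,1,0,[]),
    (true,[([(0,4,[(16,21)])],[1,1]),([(0,0,[(7,9)])],[4,4,4,4])],[],false,1,0,[3]),
    (true,[([(0,4,[(16,21)])],[5,5]),([(0,0,[(7,9)]),(0,11,[(2,3)])],[4,1])],[],false,1,0,[2]),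
    (true,[([(0,4,[(16,21)])],[6,5]),([(0,0,[(7,9)]),(1,0,[(2,3),(2,2)])],[1])],[],false,1,0,[]),
    (true,[([(0,26,[(22,24)])],[6])],[8,7,4],false,3,2,[])]),
  ([10,9,8,7,6,5,2,1], [
    (false,[],[10,9,8,7,6,5,2,1],false,7,3,[10,13,17,22,24]),
    (true,[([(0,0,[(8,10)])],[1,1])],[8,7,6,6,5,4],false,5,4,[6,10]),
    (true,[([(0,0,[(8,10)]),(0,1,[(6,6)])],[2])],[7,6,6,5,4,2],false,5,2,[6]),
    (true,[([(0,16,[(8,10),(6,6),(6,6)])],[4,4])],[6,5,4,3],false,4,3,[6]),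
    (true,[([(0,0,[(8,10)]),(0,1,[(6,6)])],[2]),([(0,1,[(6,6)]),(0,1,[(5,6)])],[])],[7,6,5],false,3,2,[]),
    (true,[([(0,0,[(8,10)]),(0,0,[(7,10)])],[])],[7,6,6,5,3,1],false,4,4,[6,8,10]),
    (true,[([(0,0,[(8,10)]),(0,0,[(7,10)])],[]),([(0,1,[(5,6)])],[2,1,1])],[7,6,5],false,3,5,[4,6]),
    (true,[([(0,0,[(8,10)]),(0,0,[(7,10)])],[]),([(0,1,[(5,6)]),(0,19,[(4,4)])],[2])],[7,6,3],false,3,3,[4]),
    (true,[([(0,3,[(8,10),(4,4)])],[4,3]),([(0,0,[(7,10)]),(0,0,[(5,6),(4,4)])],[])],[6],false,1,0,[]),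
    (true,[([(0,0,[(8,10)]),(0,0,[(7,10)])],[]),([(0,1,[(5,6)]),(0,1,[(5,6)])],[3])],[6,6,1],true,2,2,[3]),
    (true,[([(0,0,[(8,10)]),(0,0,[(7,10)])],[]),([(0,3,[(5,6),(5,6),(3,3)])],[4,3])],[6],false,1,0,[]),
    (true,[([(0,0,[(8,10)]),(0,0,[(7,10)])],[]),([(0,5,[(7,8)])],[3,2,2])],[7,5,1],true,3,2,[5]),
    (true,[([(0,0,[(8,10)]),(0,0,[(7,10)])],[]),([(0,5,[(7,8)]),(0,9,[(4,5)])],[2])],[6,6,1],false,2,1,[]),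
    (true,[([(0,0,[(8,10)]),(0,0,[(7,10)])],[]),([(0,0,[(9,10)])],[3,2])],[7,6],false,2,2,[3]),
    (true,[([(0,0,[(8,10)]),(0,0,[(7,10)])],[]),([(0,12,[(9,10),(3,3)])],[4,3])],[7,1],false,1,0,[]),
    (true,[([(0,12,[(11,13)])],[2,2])],[8,7,6,5,4,1],false,5,5,[8,11,13]),
    (false,[([(0,12,[(11,13)]),(0,7,[(6,8)])],[4,4])],[9,7,2,1],true,4,2,[6,8]),
    (true,[([(0,12,[(11,13)]),(0,7,[(6,8)])],[]),([(0,1,[(5,6)])],[1,1,1])],[7,6,5],false,3,4,[5]),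
    (true,[([(0,12,[(11,13)]),(0,7,[(6,8)])],[]),([(0,1,[(5,6)]),(0,1,[(4,5)])],[2])],[6,6,1],false,2,1,[]),
    (true,[([(0,12,[(11,13)]),(0,7,[(6,8)])],[]),([(0,5,[(7,8)])],[2,2,1])],[7,6,1],false,3,1,[]),
    (true,[([(0,12,[(11,13)]),(0,18,[(9,11)])],[])],[6,6,5,4,2,1],false,5,1,[6]),
    (true,[([(0,27,[(11,13),(6,6)])],[5,2]),([(0,18,[(9,11)])],[4,4,3])],[],false,1,0,[]),
    (true,[([(0,28,[(11,13),(12,13)])],[6])],[7,6,3],false,3,2,[]),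
    (true,[([(0,8,[(14,17)])],[3,3])],[8,6,5,4,2],false,5,2,[8,11]),
    (false,[([(0,8,[(14,17)]),(0,7,[(6,8)])],[4])],[9,8,2],false,3,2,[4,6]),
    (true,[([(0,8,[(14,17)])],[3,3]),([(0,2,[(6,8),(4,4)])],[5,4,4])],[],false,1,0,[3]),
    (true,[([(0,8,[(14,17)])],[4,3]),([(0,7,[(6,8)]),(1,1,[(4,4),(2,3)])],[])],[6],false,1,0,[2]),
    (true,[([(0,8,[(14,17)])],[3,2]),([(0,0,[(6,8),(2,2)]),(1,1,[(4,4),(2,3)])],[])],[6],false,1,0,[]),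
    (false,[([(0,8,[(14,17)]),(0,7,[(6,8)])],[4]),([(0,1,[(5,6)])],[3,2,2,2,2,2])],[],false,1,0,[2]),
    (false,[([(0,8,[(14,17)]),(0,0,[(6,8),(2,2)])],[4]),([(0,1,[(5,6)])],[3,2,2,2,1,1])],[],false,1,0,[]),
    (true,[([(0,23,[(14,17),(9,11)])],[])],[8,6,6],false,2,2,[3]),
    (true,[([(0,23,[(14,17),(9,11)])],[]),([(0,11,[(3,3)])],[2,2,2,2,2,1])],[6],false,1,0,[]),
    (true,[([(0,16,[(18,22)])],[4,4])],[6,5,4,3],false,4,3,[6,7]),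
    (true,[([(0,23,[(18,22),(5,6)])],[])],[8,6,6],false,2,2,[3]),
    (true,[([(0,23,[(18,22),(5,6)])],[]),([(0,11,[(3,3)])],[2,2,2,2,2,1])],[6],false,1,0,[]),
    (false,[([(0,16,[(18,22)]),(0,5,[(7,7)])],[4])],[8,6],false,1,0,[]),
    (false,[([(0,20,[(23,24)])],[5,5,2])],[10,2],false,2,1,[])]),
  ([10,9,8,7,6,5,4,1], [
    (false,[],[10,9,8,7,6,5,4,1],false,7,5,[10,14,18,22,24]),
    (true,[([(0,0,[(8,10)])],[1,1,1])],[8,7,7,6,5,4],false,5,4,[6,10]),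
    (true,[([(0,0,[(8,10)]),(0,1,[(6,6)])],[])],[8,7,7,6,4,2],false,5,2,[6]),
    (false,[([(0,0,[(8,10)]),(0,1,[(6,6)]),(0,1,[(6,6)])],[])],[9,8,6,5],false,4,5,[6]),
    (true,[([(0,0,[(8,10)]),(0,1,[(6,6)])],[]),([(0,1,[(6,6)]),(0,1,[(5,6)])],[1])],[8,7,6],false,3,2,[]),
    (true,[([(0,0,[(8,10)]),(0,0,[(7,10)])],[])],[7,7,7,5,3,1],true,4,6,[6,8,10]),
    (true,[([(0,0,[(8,10)]),(0,0,[(7,10)])],[]),([(0,1,[(5,6)])],[2,2,2,1])],[7,7,3],true,2,6,[3,6]),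
    (true,[([(0,0,[(8,10)]),(0,0,[(7,10)])],[]),([(0,1,[(5,6)]),(0,11,[(3,3)])],[1,1])],[7,7,5],false,2,4,[3]),
    (true,[([(0,0,[(8,10)]),(0,0,[(7,10)])],[]),([(0,1,[(5,6)]),(0,1,[(3,3),(3,3)])],[3])],[7,7,1],true,2,2,[3]),
    (false,[([(0,0,[(8,10)]),(0,0,[(7,10)])],[4,4]),([(0,0,[(5,6),(3,3)]),(0,1,[(3,3),(3,3)])],[3,3])],[],false,1,0,[]),
    (true,[([(0,0,[(8,10)]),(0,0,[(7,10)])],[]),([(0,1,[(5,6)]),(0,1,[(4,6)])],[3])],[7,7,1],true,2,3,[3,4]),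
    (false,[([(0,0,[(8,10)]),(0,0,[(7,10)])],[4,4]),([(0,0,[(5,6),(3,3)]),(0,1,[(4,6)])],[3,3])],[],false,1,0,[2]),
    (false,[([(0,3,[(8,10),(3,3),(2,2)]),(0,0,[(7,10)])],[4]),([(0,1,[(5,6)]),(0,1,[(4,6)])],[3,3,3])],[],false,1,0,[]),
    (false,[([(0,3,[(8,10),(4,4)]),(0,0,[(7,10)])],[4]),([(0,1,[(5,6)]),(0,1,[(4,6)])],[3,3,3])],[],false,1,0,[]),
    (true,[([(0,0,[(8,10)]),(0,0,[(7,10)])],[]),([(0,5,[(7,8)])],[3,2,2,2])],[7,5,1],true,3,2,[5]),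
    (true,[([(0,0,[(8,10)]),(0,0,[(7,10)])],[]),([(0,5,[(7,8)]),(0,9,[(4,5)])],[2])],[7,7,1],false,2,1,[]),
    (false,[([(0,0,[(8,10)]),(0,0,[(7,10)])],[4,4]),([(0,0,[(9,10)])],[3,3,3,2,1])],[],false,1,0,[3]),
    (false,[([(0,0,[(8,10)]),(0,0,[(7,10)])],[4,4]),([(0,0,[(9,10)]),(0,11,[(2,3)])],[3,3,3])],[],false,1,0,[2]),
    (false,[([(0,0,[(8,10)]),(0,0,[(7,10)])],[4,4]),([(0,0,[(9,10)]),(1,0,[(2,3),(2,2)])],[3,3])],[],false,1,0,[]),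
    (true,[([(0,17,[(11,14)])],[3,1])],[8,7,7,6,4],false,4,4,[5,6,8,11,14]),
    (true,[([(0,22,[(11,14),(5,5)])],[4])],[8,7,7,5],false,3,5,[4,5]),
    (false,[([(0,17,[(11,14)]),(0,0,[(5,5),(4,4)])],[4])],[9,7,6],false,3,6,[4]),
    (true,[([(0,17,[(11,14)]),(0,9,[(5,5)])],[]),([(0,19,[(4,4)]),(0,19,[(4,4)])],[2,2,2])],[7,6,4],false,3,3,[4]),
    (true,[([(0,25,[(11,14),(5,5),(4,4)])],[6]),([(0,19,[(4,4)]),(0,19,[(4,4)])],[2,2,2])],[7],false,1,0,[]),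
    (false,[([(0,17,[(11,14)]),(0,0,[(5,5),(5,5)])],[4])],[9,7,6],false,3,5,[4,5]),
    (true,[([(0,23,[(11,14),(5,5),(5,5),(4,4)])],[])],[8,7,7],false,2,2,[3]),
    (true,[([(0,23,[(11,14),(5,5),(5,5),(4,4)])],[]),([(0,11,[(3,3)])],[2,2,2,2,2,2])],[7],false,1,0,[]),
    (false,[([(0,17,[(11,14)]),(0,0,[(5,5),(5,5)])],[4]),([(0,9,[(5,5)])],[3,3,3,3,3,2])],[],false,1,0,[2]),
    (true,[([(0,4,[(11,14),(5,5),(2,2)])],[5,5]),([(0,9,[(5,5)]),(0,9,[(5,5)])],[2])],[7],false,1,0,[]),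
    (true,[([(0,4,[(11,14),(6,6)])],[1])],[8,7,7,6],false,3,6,[4,5,6]),
    (true,[([(0,4,[(11,14),(6,6)]),(0,19,[(4,4)])],[])],[7,7,6,5],false,3,5,[4]),
    (true,[([(0,23,[(11,14),(6,6),(4,4),(4,4)])],[])],[8,7,7],false,2,2,[3]),
    (true,[([(0,23,[(11,14),(6,6),(4,4),(4,4)])],[]),([(0,11,[(3,3)])],[2,2,2,2,2,2])],[7],false,1,0,[]),
    (false,[([(0,17,[(11,14)]),(0,18,[(6,6),(5,5)])],[4])],[9,7,5],false,3,4,[5]),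
    (true,[([(0,4,[(11,14),(6,6)])],[5,5]),([(0,9,[(5,5)]),(0,9,[(4,5)])],[2])],[7],false,1,0,[2]),
    (true,[([(0,4,[(11,14),(5,5),(2,2)])],[2]),([(0,18,[(6,6),(4,5)])],[4,4,4,4])],[],false,1,0,[]),
    (true,[([(0,17,[(11,14)])],[3,3]),([(0,1,[(6,6)]),(0,1,[(6,6)])],[3])],[8,7],false,2,3,[4]),
    (false,[([(0,17,[(11,14)]),(0,0,[(6,6),(3,4)])],[4]),([(0,1,[(6,6)])],[3,3,3,3,3,1])],[],false,1,0,[2]),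
    (true,[([(0,4,[(11,14),(6,6)])],[4,3]),([(0,1,[(6,6)]),(0,1,[(3,4),(2,2)])],[3])],[7],false,1,0,[]),
    (true,[([(0,17,[(11,14)]),(0,5,[(7,8)])],[])],[7,7,6,5,3],false,4,3,[6,8]),
    (true,[([(0,17,[(11,14)]),(0,5,[(7,8)])],[]),([(0,1,[(5,6)])],[3,3,2,1])],[7,6],false,2,3,[4]),
    (true,[([(0,17,[(11,14)]),(0,5,[(7,8)])],[]),([(0,0,[(5,6),(3,4)])],[4,4,3])],[7],false,1,0,[2]),
    (false,[([(0,3,[(11,14)]),(0,0,[(5,6),(3,4)])],[4]),([(0,5,[(7,8)]),(0,11,[(2,2)])],[3,3,3,1])],[],false,1,0,[]),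
    (true,[([(0,17,[(11,14)]),(0,5,[(7,8)])],[]),([(0,5,[(7,8)])],[3,2,1,1])],[7,6],false,2,1,[]),
    (false,[([(0,17,[(11,14)]),(0,18,[(9,11)])],[4])],[9,7,5],false,3,5,[6]),
    (false,[([(0,17,[(11,14)]),(0,18,[(9,11)])],[4]),([(0,1,[(4,6)])],[3,3,3,3,2,1])],[],false,1,0,[3]),
    (false,[([(0,17,[(11,14)]),(0,18,[(9,11)])],[4]),([(0,1,[(4,6)]),(0,11,[(2,3)])],[3,3,3,3])],[],false,1,0,[2]),
    (false,[([(0,17,[(11,14)]),(0,18,[(9,11)])],[4]),([(0,1,[(4,6)]),(1,0,[(2,3),(2,2)])],[3,3,3])],[],false,1,0,[]),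
    (true,[([(0,23,[(11,14),(12,14)])],[])],[8,7,7],false,2,2,[3]),
    (true,[([(0,23,[(11,14),(12,14)])],[]),([(0,11,[(3,3)])],[2,2,2,2,2,2])],[7],false,1,0,[]),
    (true,[([(0,24,[(15,18)])],[4,3])],[7,7,6,5],false,3,5,[4,5,6,8,10]),
    (true,[([(0,16,[(15,18),(4,4)])],[3])],[8,7,7,3],false,3,3,[4]),
    (true,[([(0,16,[(15,18),(4,4)])],[3]),([(0,19,[(4,4)])],[2,1,1,1,1])],[8,7],false,2,3,[3,4]),
    (true,[([(0,16,[(15,18),(4,4)])],[3]),([(0,19,[(4,4)]),(0,11,[(3,3)])],[1,1,1])],[8,7],false,2,1,[]),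
    (false,[([(0,16,[(15,18),(4,4)])],[5,5,3]),([(0,19,[(4,4)]),(0,19,[(4,4)])],[2,1,1,1,1,1])],[],false,1,0,[]),
    (false,[([(0,25,[(15,18),(5,5)])],[6,6,6])],[9],false,1,0,[2,3,5]),
    (true,[([(0,29,[(15,18),(5,5),(2,2)])],[5])],[7,7,6],false,2,4,[]),
    (true,[([(0,4,[(15,18),(3,3)])],[3,3]),([(0,9,[(5,5)])],[3,3,3,2])],[7],false,1,0,[3]),
    (true,[([(0,4,[(15,18),(3,3)])],[4,4]),([(0,9,[(5,5)]),(0,11,[(2,3)])],[3,3])],[7],false,1,0,[3]),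
    (true,[([(0,4,[(15,18),(3,3)])],[6,5]),([(0,9,[(5,5)]),(0,11,[(2,3)]),(0,11,[(2,3)])],[])],[7],false,1,0,[2]),
    (true,[([(0,23,[(15,18),(5,5),(3,3),(2,2)])],[3]),([(0,11,[(2,3)]),(0,11,[(2,3)])],[2,2,2])],[7],false,1,0,[]),
    (true,[([(0,23,[(15,18),(5,5),(4,5)])],[])],[8,7,7],false,2,2,[3]),
    (true,[([(0,23,[(15,18),(5,5),(4,5)])],[]),([(0,11,[(3,3)])],[2,2,2,2,2,2])],[7],false,1,0,[]),
    (true,[([(0,20,[(15,18),(6,6)])],[3,3])],[7,6,5,2],false,4,2,[5]),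
    (true,[([(0,20,[(15,18),(6,6)])],[3,2]),([(0,9,[(5,5)])],[3,2,2,2])],[7],false,1,0,[]),
    (true,[([(0,24,[(15,18)])],[4,3]),([(0,5,[(7,8)])],[3,3,3,1])],[7],false,1,0,[3,4]),
    (true,[([(0,4,[(15,18),(2,3)])],[1]),([(0,5,[(7,8)])],[3,3,3,3])],[8],false,1,0,[3]),
    (true,[([(0,4,[(15,18),(2,3)]),(0,11,[(2,3)])],[]),([(0,5,[(7,8)])],[3,3,3,2])],[7],false,1,0,[2]),
    (true,[([(0,23,[(15,18),(7,8),(2,2)])],[3]),([(0,11,[(2,3)]),(0,11,[(2,3)])],[2,2,2])],[7],false,1,0,[]),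
    (true,[([(0,16,[(15,18),(4,4)])],[3]),([(0,5,[(7,8)])],[3,2,2,2])],[8],false,1,0,[]),
    (true,[([(0,23,[(15,18),(9,10)])],[])],[8,7,7],false,2,1,[]),
    (true,[([(0,16,[(19,22)])],[3])],[8,7,7,3],false,3,3,[6]),
    (true,[([(0,23,[(19,22),(4,6)])],[])],[8,7,7],false,2,2,[3]),
    (true,[([(0,23,[(19,22),(4,6)])],[]),([(0,11,[(3,3)])],[2,2,2,2,2,2])],[7],false,1,0,[]),
    (false,[([(0,20,[(23,24)])],[5,2])],[10,9],false,2,1,[])]),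
  ([10,9,8,7,6,5,4,3], [
    (false,[],[10,9,8,7,6,5,4,3],false,8,3,[11,15,21,24]),
    (true,[([(0,18,[(9,11)])],[2,2,2,2])],[8,8,6,5,4,2],true,5,3,[8,11]),
    (true,[([(0,18,[(9,11)]),(0,7,[(6,8)])],[])],[8,8,7,6,3,1],true,5,2,[7,8]),
    (true,[([(0,18,[(9,11)]),(0,7,[(6,8)])],[]),([(0,7,[(6,7)])],[3,3,2,2])],[8,7],false,2,5,[4,6]),
    (true,[([(0,18,[(9,11)]),(1,1,[(3,4)])],[]),([(0,3,[(6,8),(6,7)])],[4,2,2])],[8],false,1,0,[2,3,4]),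
    (true,[([(0,18,[(9,11)]),(0,1,[(3,4),(2,2)])],[1]),([(0,3,[(6,8),(6,7)])],[5,3,3])],[8],false,1,0,[2]),
    (true,[([(0,18,[(9,11)]),(1,1,[(3,4),(2,2),(2,2)])],[]),([(0,3,[(6,8),(6,7)])],[4,2,2])],[8],false,1,0,[2]),
    (true,[([(0,18,[(9,11)]),(1,1,[(3,4),(2,2),(2,2),(2,2)])],[]),([(0,3,[(6,8),(6,7)])],[4,2,2])],[8],false,1,0,[]),
    (true,[([(0,18,[(9,11)]),(1,1,[(3,4),(3,3)])],[]),([(0,3,[(6,8),(6,7)])],[4,2,2])],[8],false,1,0,[2]),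
    (true,[([(0,18,[(9,11)]),(1,1,[(3,4),(3,3),(2,2)])],[]),([(0,3,[(6,8),(6,7)])],[4,2,2])],[8],false,1,0,[]),
    (true,[([(0,18,[(9,11)]),(0,7,[(3,4),(4,4)])],[]),([(0,3,[(6,8),(6,7)])],[4,3,3])],[8],false,1,0,[]),
    (true,[([(0,18,[(9,11)]),(0,1,[(5,6)])],[1]),([(0,3,[(6,8),(6,7)])],[5,3,3])],[8],false,1,0,[2]),
    (true,[([(0,18,[(9,11)]),(0,7,[(5,6),(2,2)])],[]),([(0,3,[(6,8),(6,7)])],[4,3,3])],[8],false,1,0,[]),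
    (true,[([(0,18,[(9,11)]),(0,7,[(6,8)])],[]),([(0,5,[(8,8)])],[3,2,2,1,1])],[8,7,1],false,3,1,[4]),
    (true,[([(0,3,[(9,11),(4,4)]),(0,5,[(8,8)])],[]),([(0,7,[(6,8)])],[4,4,3,2])],[8],false,1,0,[]),
    (false,[([(0,18,[(9,11)]),(0,18,[(9,11)])],[4,2])],[9,6,5,4],false,4,4,[6,8]),
    (true,[([(0,18,[(9,11)]),(0,1,[(5,6)])],[1]),([(0,18,[(9,11)])],[4,3,3,2])],[8,3],false,2,3,[4]),
    (true,[([(0,18,[(9,11)]),(0,0,[(5,6),(3,4)])],[]),([(0,18,[(9,11)])],[2,1,1,1])],[8,7],false,2,1,[]),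
    (true,[([(0,18,[(9,11)]),(0,7,[(7,8)])],[]),([(0,18,[(9,11)])],[2,2,2,1])],[8,7],false,2,1,[]),
    (true,[([(0,3,[(12,15)])],[1,1,1])],[8,8,7,6,5],false,4,5,[6,8,11,13]),
    (true,[([(0,3,[(12,15)]),(0,1,[(5,6)])],[])],[8,8,7,5,3],false,4,3,[6]),
    (true,[([(0,3,[(12,15)]),(0,1,[(5,6)])],[]),([(0,1,[(5,6)])],[3,3,2,1,1])],[8,7],false,2,4,[4,5]),
    (true,[([(0,3,[(12,15)]),(0,1,[(5,6)])],[]),([(0,0,[(5,6),(3,4)])],[4,4,3,2])],[8],false,1,0,[2,3]),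
    (true,[([(0,3,[(12,15)]),(0,1,[(5,6)])],[]),([(0,1,[(5,6)]),(0,1,[(3,4),(2,2)])],[3,1])],[8,7],false,2,1,[]),
    (true,[([(0,3,[(12,15)])],[4,3,2]),([(0,0,[(5,6),(3,4)]),(0,0,[(5,6),(3,3)])],[])],[8],false,1,0,[]),
    (true,[([(0,4,[(12,15),(5,6)])],[3,3]),([(0,1,[(5,6)]),(0,9,[(5,5)])],[3,3])],[8],false,1,0,[]),
    (true,[([(0,3,[(12,15)]),(0,5,[(7,8)])],[])],[8,8,6,4,3],false,4,3,[6,7]),
    (true,[([(0,3,[(12,15)]),(0,5,[(7,8)])],[]),([(0,1,[(5,6)])],[3,3,1,1,1])],[8,6],false,2,2,[3]),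
    (true,[([(0,4,[(12,15),(5,6)]),(0,11,[(3,3)])],[]),([(0,5,[(7,8)])],[3,3,3,2,1])],[8],false,1,0,[]),
    (true,[([(0,25,[(12,15),(7,8)])],[6]),([(0,5,[(7,7)])],[3,3,3,3,3])],[],false,1,0,[]),
    (true,[([(0,3,[(12,15)])],[2,1,1]),([(0,18,[(9,11)])],[4,4,4,2])],[8],false,1,0,[4,5]),
    (true,[([(0,3,[(12,15)])],[4,2,2]),([(0,18,[(9,11)]),(1,1,[(2,4)])],[])],[8],false,1,0,[2,3,4]),
    (true,[([(0,3,[(12,15)])],[4,2,2]),([(0,18,[(9,11)]),(1,1,[(2,4),(2,2)])],[])],[8],false,1,0,[2]),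
    (true,[([(0,3,[(12,15)])],[4,2,2]),([(0,18,[(9,11)]),(1,1,[(2,4),(2,2),(2,2)])],[])],[8],false,1,0,[2]),
    (true,[([(0,3,[(12,15)])],[4,2,2]),([(0,18,[(9,11)]),(1,1,[(2,4),(2,2),(2,2),(2,2)])],[])],[8],false,1,0,[]),
    (true,[([(0,3,[(12,15)])],[4,2,2]),([(0,18,[(9,11)]),(1,1,[(2,4),(3,3)])],[])],[8],false,1,0,[2]),
    (true,[([(0,3,[(12,15)])],[4,2,2]),([(0,18,[(9,11)]),(1,1,[(2,4),(3,3),(2,2)])],[])],[8],false,1,0,[]),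
    (true,[([(0,3,[(12,15)]),(0,19,[(4,4)])],[4]),([(0,18,[(9,11)]),(1,1,[(2,4)])],[])],[8],false,1,0,[]),
    (true,[([(0,3,[(12,15)]),(0,9,[(5,5)])],[]),([(0,18,[(9,11)])],[4,4,3,2])],[8],false,1,0,[]),
    (true,[([(0,23,[(12,15),(12,13)])],[1])],[8,8,7],false,2,1,[]),
    (true,[([(0,4,[(16,21)])],[1,1])],[8,8,7,6],false,3,6,[4,6,8,9]),
    (true,[([(0,4,[(16,21)]),(0,19,[(4,4)])],[])],[8,8,6,5],false,3,5,[4]),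
    (true,[([(0,4,[(16,21)]),(0,19,[(4,4)])],[]),([(0,19,[(4,4)])],[2,2,2,1,1,1])],[8,6],false,2,2,[3]),
    (false,[([(0,4,[(16,21)]),(0,19,[(4,4)])],[6,6]),([(0,19,[(4,4)]),(0,11,[(3,3)])],[2,2,2,2])],[],false,1,0,[]),
    (true,[([(0,4,[(16,21)])],[1,1]),([(0,1,[(5,6)])],[3,3,3,3,3])],[8],false,1,0,[2,3,5]),
    (true,[([(0,4,[(16,21)]),(0,11,[(2,2)])],[]),([(0,1,[(5,6)])],[3,3,3,3,2])],[8],false,1,0,[2]),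
    (true,[([(0,4,[(16,21)])],[3,2]),([(0,1,[(5,6)]),(1,0,[(2,2),(2,2)])],[3,3])],[8],false,1,0,[2]),
    (true,[([(0,4,[(16,21)])],[3,2]),([(0,1,[(5,6)]),(1,0,[(2,2),(2,2),(2,2)])],[3,3])],[8],false,1,0,[2]),
    (true,[([(0,4,[(16,21)])],[5,3]),([(0,1,[(5,6)]),(1,0,[(2,2),(2,2),(2,2)]),(0,11,[(2,2)])],[])],[8],false,1,0,[]),
    (true,[([(0,4,[(16,21)]),(0,11,[(3,3)])],[]),([(0,1,[(5,6)])],[3,3,3,3,2])],[8],false,1,0,[3]),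
    (true,[([(0,4,[(16,21)])],[3,2]),([(0,1,[(5,6)]),(0,1,[(3,3),(2,3)])],[3,3])],[8],false,1,0,[2]),
    (true,[([(0,4,[(16,21)])],[5,3]),([(0,1,[(5,6)]),(0,1,[(3,3),(2,3)]),(0,11,[(2,2)])],[])],[8],false,1,0,[]),
    (true,[([(0,4,[(16,21)])],[3,3]),([(0,1,[(5,6)]),(0,9,[(4,5)])],[3,3])],[8],false,1,0,[2]),
    (true,[([(0,4,[(16,21)])],[5,4]),([(0,1,[(5,6)]),(0,9,[(4,5)]),(0,11,[(2,2)])],[])],[8],false,1,0,[]),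
    (true,[([(0,4,[(16,21)])],[]),([(0,5,[(7,8)])],[3,3,3,3,3])],[8],false,1,0,[3]),
    (true,[([(0,4,[(16,21)]),(0,11,[(2,3)])],[]),([(0,5,[(7,8)])],[3,3,3,2,1])],[8],false,1,0,[2]),
    (true,[([(0,4,[(16,21)])],[2,1]),([(0,5,[(7,8)]),(1,0,[(2,3),(2,2)])],[3,3])],[8],false,1,0,[]),
    (true,[([(0,4,[(16,21)])],[]),([(0,14,[(9,9)])],[3,3,3,3,2])],[8],false,1,0,[]),
    (true,[([(0,15,[(22,24)])],[5,3])],[8,7,4,1],false,3,2,[])]),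
  ([11,8,7,6,5,4,3,2], [
    (false,[],[11,8,7,6,5,4,3,2],false,7,4,[10,15,21,24]),
    (true,[([(0,10,[(8,10)])],[1,1,1])],[8,7,6,5,4,3],false,6,3,[10]),
    (true,[([(0,0,[(8,10)]),(0,0,[(7,10)])],[])],[8,7,5,3,1,1,1],false,5,3,[8,10]),
    (true,[([(0,0,[(8,10)]),(0,0,[(7,10)])],[]),([(0,7,[(6,8)])],[2,1,1])],[8,5,1],true,3,3,[6]),
    (true,[([(0,0,[(8,10)]),(0,0,[(7,10)])],[]),([(0,7,[(6,8)]),(0,1,[(4,6)])],[3])],[7,1,1],false,2,2,[3]),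
    (true,[([(0,0,[(8,10)]),(0,0,[(7,10)])],[]),([(0,7,[(6,8)]),(0,1,[(4,6)])],[3]),([(0,11,[(3,3)])],[1,1,1,1,1])],[1],false,1,0,[]),
    (true,[([(0,10,[(8,10)])],[2,1]),([(0,0,[(7,10)]),(0,0,[(9,10)])],[])],[8,5],false,2,2,[3]),
    (true,[([(0,25,[(8,10),(9,10),(3,3)])],[1]),([(0,0,[(7,10)])],[3,3,3,3])],[],false,1,0,[]),
    (true,[([(0,3,[(11,15)])],[1,1,1])],[8,7,6,5,1,1],false,4,6,[6,10,14]),
    (true,[([(0,3,[(11,15)]),(0,1,[(5,6)])],[])],[8,7,5,3,1,1],false,5,2,[6]),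
    (false,[([(0,3,[(11,15)]),(0,2,[(5,6),(6,6)])],[1])],[8,6,4],false,3,4,[5]),
    (true,[([(0,3,[(11,15)]),(0,1,[(5,6)])],[]),([(0,18,[(6,6),(4,5)])],[2,2,1])],[8,1],false,2,1,[]),
    (false,[([(0,3,[(11,15)]),(0,0,[(7,10)])],[5,1])],[7,5,3],false,3,3,[6,8]),
    (false,[([(0,3,[(11,15)]),(0,0,[(7,10)])],[5,1]),([(0,1,[(4,6)])],[3,3,2,1])],[],false,1,0,[3,5]),
    (false,[([(0,3,[(11,15)]),(0,0,[(7,10)])],[5,1]),([(0,1,[(4,6)]),(0,11,[(2,3)])],[3,3])],[],false,1,0,[2,3]),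
    (true,[([(0,3,[(11,15)]),(0,1,[(4,6)])],[]),([(0,0,[(7,10)]),(1,0,[(2,3),(2,2)])],[])],[8,1],true,2,2,[]),
    (true,[([(0,3,[(11,15)]),(0,1,[(4,6)])],[]),([(0,0,[(7,10)]),(0,1,[(2,3),(3,3)])],[])],[8,1],false,2,1,[]),
    (true,[([(0,3,[(11,15)]),(0,1,[(4,6)])],[]),([(0,0,[(7,10)]),(0,9,[(4,5)])],[2])],[7,1],false,2,1,[]),
    (true,[([(0,3,[(11,15)]),(0,5,[(7,8)])],[]),([(0,0,[(7,10)])],[3,1])],[8,1],false,2,1,[]),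
    (false,[([(0,3,[(11,15)]),(0,17,[(11,14)])],[1])],[7,6,3],false,3,3,[4]),
    (true,[([(0,3,[(11,15)])],[5,5,3]),([(0,30,[(11,14)]),(0,19,[(4,4)])],[])],[],false,1,0,[]),
    (true,[([(0,4,[(16,21)])],[1,1])],[8,7,6,1,1],false,4,2,[6,9]),
    (false,[([(0,4,[(16,21)]),(0,1,[(5,6)])],[6,1])],[7,5],false,2,4,[4,5]),
    (true,[([(0,4,[(16,21)])],[1,1]),([(0,0,[(5,6),(3,4)])],[3,3,3,3])],[1],false,1,0,[3]),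
    (true,[([(0,4,[(16,21)]),(0,11,[(2,3)])],[]),([(0,0,[(5,6),(3,4)])],[3,3,3,2])],[1],false,1,0,[2]),
    (true,[([(0,4,[(16,21)])],[3,2]),([(0,0,[(5,6),(3,4)]),(1,0,[(2,3),(2,2)])],[3])],[1],false,1,0,[]),
    (true,[([(0,4,[(16,21)])],[2,2]),([(0,2,[(5,6),(5,5)])],[3,3,3])],[],false,1,0,[]),
    (true,[([(0,4,[(16,21)])],[1,1]),([(0,0,[(7,9)])],[3,3,3,3])],[1],false,1,0,[3]),
    (true,[([(0,4,[(16,21)]),(0,11,[(2,3)])],[]),([(0,0,[(7,9)])],[3,3,3,2])],[1],false,1,0,[2]),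
    (true,[([(0,4,[(16,21)])],[3,2]),([(0,0,[(7,9)]),(1,0,[(2,3),(2,2)])],[3])],[1],false,1,0,[]),
    (true,[([(0,26,[(22,24)])],[3])],[8,7,3,1],false,3,2,[])]),
  ([11,10,6,5,4,4,3,2,1], [
    (false,[],[11,10,6,5,4,4,3,2,1],true,7,4,[10,15,21,24]),
    (true,[([(0,10,[(8,10)])],[4])],[9,8,7,4,2,2],false,5,4,[8,10]),
    (true,[([(0,10,[(8,10)]),(0,7,[(6,8)])],[])],[8,7,6,3,2,2],false,5,3,[8]),
    (true,[([(0,0,[(8,10)])],[1,1,1]),([(0,7,[(6,8)]),(0,7,[(6,8)])],[])],[9,6,2],true,3,3,[6,7]),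
    (true,[([(0,0,[(8,10)]),(0,7,[(6,8)])],[2]),([(0,7,[(6,8)]),(0,1,[(4,6)])],[])],[8,2,2],false,2,3,[3,4]),
    (true,[([(0,0,[(8,10)]),(0,1,[(4,6)]),(0,11,[(3,3)])],[]),([(0,7,[(6,8)]),(0,7,[(6,8)])],[])],[7,2,2],false,2,1,[]),
    (true,[([(0,17,[(8,10),(4,4)]),(0,1,[(4,6)])],[]),([(0,7,[(6,8)]),(0,7,[(6,8)])],[1])],[7,2],false,1,0,[]),
    (true,[([(0,31,[(8,10),(7,7)])],[5,3,3]),([(0,7,[(6,8)]),(0,7,[(6,8)])],[])],[2],false,1,0,[]),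
    (false,[([(0,0,[(8,10)]),(0,0,[(9,10)])],[1,1])],[11,5,4,3,1],true,5,2,[8,9]),
    (true,[([(0,0,[(8,10)]),(0,0,[(9,10)])],[]),([(0,7,[(6,8)])],[4,1,1])],[9,2,1],false,3,1,[4]),
    (true,[([(0,4,[(8,10),(9,10)]),(0,19,[(4,4)])],[]),([(0,7,[(6,8)])],[4,2,2,2,1])],[2],false,1,0,[]),
    (false,[([(0,32,[(8,10),(9,10),(9,9)])],[6,5,2])],[4],false,1,0,[]),
    (false,[([(0,3,[(11,15)])],[])],[11,10,6,4],false,4,4,[6,8,11,14]),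
    (false,[([(0,3,[(11,15)]),(0,1,[(5,6)])],[1,1])],[11,5,4,3],false,4,3,[6]),
    (true,[([(0,3,[(11,15)]),(0,1,[(5,6)])],[]),([(0,1,[(5,6)])],[3,1,1,1])],[9,2,2],true,2,5,[4,6]),
    (false,[([(0,3,[(11,15)]),(0,1,[(5,6)])],[1,1]),([(0,0,[(5,6),(3,4)])],[4,4,1,1,1,1,1])],[],false,1,0,[2,4]),
    (true,[([(0,3,[(11,15)]),(0,1,[(5,6)])],[]),([(0,1,[(5,6)]),(0,1,[(3,4),(2,2)])],[2,2,2])],[3,2,2],false,2,2,[]),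
    (false,[([(0,3,[(11,15)])],[4,1,1,1,1]),([(0,0,[(5,6),(3,4)]),(0,0,[(5,6),(3,4)])],[1,1,1])],[],false,1,0,[2]),
    (true,[([(0,3,[(11,15)]),(0,11,[(2,2)])],[2]),([(0,0,[(5,6),(3,4)]),(0,0,[(5,6),(3,4)])],[2])],[2,2],false,1,0,[]),
    (true,[([(0,3,[(11,15)]),(0,1,[(5,6)])],[]),([(0,1,[(5,6)]),(0,1,[(5,6)])],[2,2,2])],[3,2,2],false,2,1,[]),
    (false,[([(0,3,[(11,15)]),(0,7,[(7,8)])],[1])],[11,5,4,2],false,4,2,[6,8]),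
    (true,[([(0,3,[(11,15)]),(0,1,[(5,6)])],[]),([(0,7,[(7,8)])],[4,1,1])],[9,2],true,2,3,[4]),
    (true,[([(0,3,[(11,15)]),(0,1,[(5,6)])],[]),([(0,2,[(7,8),(3,4)])],[5,2,2,2])],[2],false,1,0,[2]),
    (false,[([(0,3,[(11,15)]),(0,10,[(7,8),(2,2)])],[]),([(0,0,[(5,6),(3,4)])],[3,3,1,1,1,1,1])],[],false,1,0,[]),
    (true,[([(0,3,[(11,15)])],[2,2]),([(0,7,[(7,8)]),(0,7,[(7,8)])],[])],[9,2],false,2,1,[]),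
    (true,[([(0,3,[(11,15)]),(0,18,[(9,11)])],[])],[8,4,2,2,2,2],false,3,4,[6]),
    (true,[([(0,3,[(11,15)]),(0,18,[(9,11)])],[]),([(0,1,[(4,6)])],[3,2,1,1,1])],[2,2,2],false,1,0,[3]),
    (true,[([(0,3,[(11,15)]),(0,18,[(9,11)])],[]),([(0,1,[(4,6)]),(0,11,[(2,3)])],[3,1,1])],[2,2,2],false,1,0,[2]),
    (true,[([(0,3,[(11,15)]),(0,18,[(9,11)])],[]),([(0,1,[(4,6)]),(1,0,[(2,3),(2,2)])],[1,1])],[2,2,2],false,1,0,[]),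
    (true,[([(0,3,[(11,15)])],[2,2,2]),([(0,30,[(12,14)])],[6,3,2])],[],false,1,0,[3]),
    (true,[([(0,3,[(11,15)]),(0,11,[(2,3)])],[5]),([(0,17,[(12,14)])],[2,2,2,1])],[2],false,1,0,[2]),
    (true,[([(0,3,[(11,15)]),(0,11,[(2,3)])],[5]),([(0,17,[(12,14)]),(0,11,[(2,2)])],[2,2])],[2],false,1,0,[]),
    (false,[([(0,4,[(16,21)])],[])],[11,10,4],false,3,4,[5,7,9]),
    (false,[([(0,4,[(16,21)]),(0,9,[(4,5)])],[1])],[11,4,4],false,2,5,[3,5]),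
    (true,[([(0,4,[(16,21)]),(0,11,[(3,3)])],[]),([(0,9,[(4,5)])],[3,1,1,1])],[9,2],true,2,3,[3]),
    (true,[([(0,4,[(16,21)]),(0,11,[(3,3)])],[]),([(0,7,[(4,5),(3,3)])],[4,2,2,2,2])],[2],false,1,0,[2]),
    (false,[([(0,4,[(16,21)]),(0,11,[(2,2)])],[1,1]),([(0,9,[(4,5)]),(0,1,[(3,3),(3,3)])],[3,3,1,1,1])],[],false,1,0,[]),
    (true,[([(0,4,[(16,21)])],[2]),([(0,9,[(4,5)]),(0,9,[(4,5)])],[1,1])],[9,2],false,2,2,[3]),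
    (false,[([(0,4,[(16,21)]),(0,11,[(3,3)])],[1,1]),([(0,9,[(4,5)]),(0,9,[(4,5)])],[3,3,2,1,1])],[],false,1,0,[]),
    (false,[([(0,4,[(16,21)]),(0,6,[(6,7)])],[])],[11,4,3],false,3,3,[4]),
    (false,[([(0,4,[(16,21)]),(0,6,[(6,7)])],[]),([(0,19,[(4,4)])],[2,1])],[11],false,1,0,[]),
    (false,[([(0,4,[(16,21)]),(0,33,[(8,9)])],[])],[10,4,2],false,2,1,[]),
    (true,[([(0,15,[(22,24)])],[3,3,1])],[7,3,2,2,1],false,3,2,[])]),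
  ([11,10,7,6,5,4,2,1], [
    (false,[],[11,10,7,6,5,4,2,1],false,7,3,[10,15,21,24]),
    (true,[([(0,0,[(8,10)])],[1,1])],[8,7,6,5,4,2,2],false,6,4,[10]),
    (true,[([(0,0,[(8,10)]),(0,0,[(7,10)])],[])],[7,6,5,3,2,2,1],false,5,4,[8,10]),
    (true,[([(0,0,[(8,10)]),(0,0,[(7,10)])],[]),([(0,7,[(6,8)])],[3])],[7,6,2],false,3,2,[6]),
    (false,[([(0,0,[(8,10)]),(0,0,[(7,10)])],[1,1]),([(0,7,[(6,8)]),(0,1,[(4,6)])],[3,3,3,1])],[],false,1,0,[3]),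
    (true,[([(0,0,[(8,10)]),(0,0,[(7,10)])],[]),([(0,7,[(6,8)])],[3,1]),([(0,1,[(4,6)]),(0,11,[(2,3)])],[3,2])],[],false,1,0,[2]),
    (true,[([(0,0,[(8,10)]),(0,0,[(7,10)])],[]),([(0,0,[(6,8),(2,2)]),(0,1,[(4,6)])],[]),([(0,11,[(2,3)])],[2,1,1,1])],[2],false,1,0,[]),
    (true,[([(0,0,[(8,10)]),(0,0,[(7,10)])],[]),([(0,0,[(9,10)])],[1])],[7,6,2],false,3,2,[]),
    (true,[([(0,3,[(11,15)])],[1])],[8,7,6,5,2,2],false,5,4,[8,11,14]),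
    (false,[([(0,3,[(11,15)]),(0,7,[(6,8)])],[4])],[11,6,2],true,3,5,[6,8]),
    (true,[([(0,3,[(11,15)]),(0,1,[(4,6)])],[]),([(0,7,[(6,8)])],[4])],[7,6],false,2,5,[3,6]),
    (false,[([(0,3,[(11,15)]),(0,7,[(6,8)])],[4]),([(0,1,[(4,6)]),(0,11,[(3,3)])],[3,2,2,1,1,1])],[],false,1,0,[2,3]),
    (true,[([(0,3,[(11,15)]),(0,1,[(4,6)])],[]),([(0,0,[(6,8),(2,2)]),(0,11,[(3,3)])],[4])],[6,2],false,2,2,[]),
    (false,[([(0,3,[(11,15)]),(0,7,[(6,8)])],[4]),([(0,1,[(4,6)]),(0,1,[(3,3),(3,3)])],[2,2,1,1,1])],[],false,1,0,[2]),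
    (false,[([(0,3,[(11,15)]),(0,7,[(6,8)])],[4]),([(0,1,[(4,6)]),(0,1,[(3,3),(3,3)]),(0,11,[(2,2)])],[2,1,1])],[],false,1,0,[]),
    (false,[([(0,3,[(11,15)]),(0,7,[(6,8)])],[4]),([(0,1,[(4,6)]),(0,1,[(4,6)])],[2,2,1,1,1])],[],false,1,0,[3]),
    (false,[([(0,3,[(11,15)]),(0,7,[(6,8)])],[4]),([(0,1,[(4,6)]),(0,1,[(4,6)]),(0,11,[(2,3)])],[2,1,1])],[],false,1,0,[2]),
    (false,[([(0,3,[(11,15)]),(0,7,[(6,8)])],[4]),([(0,1,[(4,6)]),(0,1,[(4,6)]),(0,11,[(2,3)]),(0,11,[(2,2)])],[1])],[],false,1,0,[]),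
    (true,[([(0,3,[(11,15)])],[2]),([(0,7,[(6,8)]),(0,7,[(7,8)])],[])],[7,6],false,2,2,[3]),
    (true,[([(0,3,[(11,15)])],[2,2]),([(0,7,[(6,8)]),(0,18,[(7,8),(3,3)])],[])],[6,2],false,1,0,[]),
    (true,[([(0,3,[(11,15)])],[]),([(0,18,[(9,11)])],[4,3,3])],[8,2],false,1,0,[4,6]),
    (true,[([(0,3,[(11,15)])],[1]),([(0,18,[(9,11)]),(1,1,[(2,4)])],[])],[7,2],true,2,4,[3,4]),
    (true,[([(0,3,[(11,15)])],[1]),([(0,18,[(9,11)]),(1,1,[(2,4),(3,3)])],[])],[7,2],false,2,2,[3]),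
    (true,[([(0,3,[(11,15)])],[1]),([(0,18,[(9,11)]),(1,1,[(2,4),(3,3)])],[]),([(0,11,[(3,3)])],[2,1,1,1,1])],[],false,1,0,[]),
    (true,[([(0,3,[(11,15)]),(0,19,[(4,4)])],[]),([(0,18,[(9,11)]),(1,1,[(2,4)])],[])],[4,2],false,2,1,[]),
    (true,[([(0,3,[(11,15)]),(0,1,[(5,6)])],[]),([(0,18,[(9,11)])],[4,3,2])],[3,2],false,2,1,[]),
    (true,[([(0,3,[(11,15)])],[3,3]),([(0,17,[(12,14)])],[5,3,1])],[2],false,1,0,[3]),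
    (true,[([(0,3,[(11,15)])],[2,2]),([(0,31,[(12,14),(2,3)])],[6,4])],[],false,1,0,[2]),
    (true,[([(0,3,[(11,15)])],[5,4]),([(0,17,[(12,14)]),(1,0,[(2,3),(2,2)])],[])],[2],false,1,0,[]),
    (true,[([(0,4,[(16,21)])],[])],[8,7,6,2,2],false,4,4,[6,9]),
    (true,[([(0,4,[(16,21)])],[]),([(0,1,[(5,6)])],[3,2,2,2])],[8,2],true,2,4,[4,5]),
    (true,[([(0,4,[(16,21)])],[]),([(0,0,[(5,6),(3,4)])],[4,3,3,3])],[2],false,1,0,[3]),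
    (true,[([(0,4,[(16,21)]),(0,11,[(2,3)])],[]),([(0,0,[(5,6),(3,4)])],[4,3,3])],[2],false,1,0,[2]),
    (true,[([(0,4,[(16,21)])],[3]),([(0,0,[(5,6),(3,4)]),(1,0,[(2,3),(2,2)])],[4])],[2],false,1,0,[]),
    (true,[([(0,4,[(16,21)])],[2]),([(0,2,[(5,6),(5,5)])],[5,3,3])],[],false,1,0,[]),
    (true,[([(0,4,[(16,21)])],[]),([(0,0,[(7,9)])],[4,3,3,3])],[2],false,1,0,[3]),
    (true,[([(0,4,[(16,21)]),(0,11,[(2,3)])],[]),([(0,0,[(7,9)])],[4,3,3])],[2],false,1,0,[2]),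
    (true,[([(0,4,[(16,21)])],[3]),([(0,0,[(7,9)]),(1,0,[(2,3),(2,2)])],[4])],[2],false,1,0,[]),
    (true,[([(0,15,[(22,24)])],[3,1])],[6,6,3,2,1],false,3,2,[])])]

theorem cj8e_1_ok : runAllJ S43 R43 F43 23 cj8e_1 = true := by decide +kernel

noncomputable def cj8e_2 : List (List ℕ × List NdJ) := [
  ([11,10,7,6,5,4,3,1], [
    (false,[],[11,10,7,6,5,4,3,1],false,7,4,[10,15,21,24]),
    (true,[([(0,0,[(8,10)])],[1,1,1])],[8,7,6,5,4,2,2],false,6,4,[10]),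
    (true,[([(0,0,[(8,10)]),(0,0,[(7,10)])],[])],[7,7,5,3,2,2,1],true,5,4,[8,10]),
    (true,[([(0,0,[(8,10)]),(0,0,[(7,10)])],[]),([(0,7,[(6,8)])],[3,1,1])],[7,5,2],false,3,2,[6]),
    (false,[([(0,0,[(8,10)]),(0,0,[(7,10)])],[4,1]),([(0,7,[(6,8)]),(0,1,[(4,6)])],[3,3,1,1])],[],false,1,0,[3]),
    (true,[([(0,0,[(8,10)]),(0,0,[(7,10)])],[]),([(0,7,[(6,8)])],[3,1,1]),([(0,1,[(4,6)]),(0,11,[(2,3)])],[3,2])],[],false,1,0,[2]),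
    (true,[([(0,0,[(8,10)]),(0,0,[(7,10)])],[]),([(0,0,[(6,8),(2,2)]),(0,1,[(4,6)])],[]),([(0,11,[(2,3)])],[2,1,1,1,1])],[2],false,1,0,[]),
    (true,[([(0,0,[(8,10)]),(0,0,[(7,10)])],[]),([(0,0,[(9,10)])],[1,1,1])],[7,5,2],false,3,2,[]),
    (true,[([(0,3,[(11,15)])],[1,1])],[8,7,6,5,2,2],false,5,4,[8,11,14]),
    (false,[([(0,3,[(11,15)]),(0,7,[(6,8)])],[1])],[11,7,5],false,3,5,[6,8]),
    (true,[([(0,3,[(11,15)]),(0,1,[(4,6)])],[]),([(0,7,[(6,8)])],[4,1,1])],[7,5],false,2,5,[3,6]),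
    (false,[([(0,3,[(11,15)]),(0,7,[(6,8)]),(0,11,[(3,3)])],[]),([(0,1,[(4,6)])],[3,3,3,3,1,1,1])],[],false,1,0,[2,3]),
    (true,[([(0,3,[(11,15)]),(0,1,[(4,6)])],[]),([(0,0,[(6,8),(2,2)]),(0,11,[(3,3)])],[4])],[7,2],false,2,2,[]),
    (false,[([(0,3,[(11,15)]),(0,7,[(6,8)])],[1]),([(0,1,[(4,6)]),(0,1,[(3,3),(3,3)])],[3,3,3,1,1])],[],false,1,0,[2]),
    (false,[([(0,3,[(11,15)]),(0,0,[(6,8),(2,2)])],[1]),([(0,1,[(4,6)]),(0,1,[(3,3),(3,3)])],[3,3,1,1,1])],[],false,1,0,[]),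
    (false,[([(0,3,[(11,15)]),(0,7,[(6,8)])],[1]),([(0,1,[(4,6)]),(0,1,[(4,6)])],[3,3,3,1,1])],[],false,1,0,[3]),
    (false,[([(0,3,[(11,15)]),(0,7,[(6,8)])],[4]),([(0,1,[(4,6)]),(0,1,[(4,6)]),(0,11,[(2,3)])],[3,1,1])],[],false,1,0,[2]),
    (false,[([(0,3,[(11,15)]),(0,7,[(6,8)])],[4]),([(0,1,[(4,6)]),(0,1,[(4,6)]),(1,0,[(2,3),(2,2)])],[1,1])],[],false,1,0,[]),
    (true,[([(0,3,[(11,15)])],[2,1]),([(0,7,[(6,8)]),(0,7,[(7,8)])],[])],[7,6],false,2,2,[3]),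
    (true,[([(0,3,[(11,15)])],[2,2]),([(0,7,[(6,8)]),(0,18,[(7,8),(3,3)])],[])],[7,2],false,1,0,[]),
    (false,[([(0,3,[(11,15)]),(0,18,[(9,11)])],[1])],[11,5,4],false,3,4,[6]),
    (true,[([(0,3,[(11,15)])],[1,1]),([(0,18,[(9,11)]),(0,1,[(4,6)])],[4])],[7,2],false,2,2,[3]),
    (true,[([(0,3,[(11,15)])],[1,1]),([(0,18,[(9,11)]),(0,1,[(4,6)])],[4]),([(0,11,[(3,3)])],[2,1,1,1,1])],[],false,1,0,[]),
    (true,[([(0,3,[(11,15)])],[4,4,4]),([(0,30,[(12,14)])],[6])],[],false,1,0,[3]),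
    (true,[([(0,3,[(11,15)])],[3,3,3]),([(0,31,[(12,14),(2,3)])],[6])],[],false,1,0,[2]),
    (true,[([(0,3,[(11,15)]),(0,11,[(2,3)])],[5]),([(0,17,[(12,14)]),(0,11,[(2,2)])],[])],[7],false,1,0,[]),
    (true,[([(0,4,[(16,21)])],[1])],[8,7,6,2,2],false,4,4,[6,8,9]),
    (true,[([(0,4,[(16,21)])],[]),([(0,1,[(5,6)])],[3,2,2,2,2])],[7,2],true,2,4,[4,5]),
    (true,[([(0,4,[(16,21)])],[1]),([(0,0,[(5,6),(3,4)])],[4,3,3,3])],[2],false,1,0,[3]),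
    (true,[([(0,4,[(16,21)])],[4,3]),([(0,0,[(5,6),(3,4)]),(0,11,[(2,3)])],[4])],[2],false,1,0,[2]),
    (true,[([(0,4,[(16,21)]),(0,11,[(2,3)])],[]),([(0,1,[(5,6)]),(0,1,[(3,4),(2,2)])],[2])],[7,2],false,1,0,[]),
    (true,[([(0,4,[(16,21)])],[3,3]),([(0,2,[(5,6),(5,5)])],[5,3])],[],false,1,0,[]),
    (false,[([(0,4,[(16,21)]),(0,5,[(7,8)])],[5,2])],[6,5],false,2,2,[3]),
    (true,[([(0,4,[(16,21)])],[]),([(0,18,[(7,8),(3,3)])],[4,3,3,3])],[2],false,1,0,[]),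
    (false,[([(0,4,[(16,21)]),(0,33,[(9,9)])],[])],[10,7],false,1,0,[]),
    (true,[([(0,15,[(22,24)])],[3])],[8,6,3,2,1],false,3,2,[])]),
  ([11,10,8,7,4,3,2,1], [
    (false,[],[11,10,8,7,4,3,2,1],true,7,4,[10,15,21,24]),
    (true,[([(0,0,[(8,10)])],[])],[8,7,6,5,4,4,2],false,5,6,[8,10]),
    (false,[([(0,0,[(8,10)]),(0,7,[(6,8)])],[2,2])],[11,8,4,1],true,4,3,[6,8]),
    (false,[([(0,0,[(8,10)]),(0,7,[(6,8)]),(0,1,[(5,6)])],[])],[10,8,3,1],true,4,2,[6]),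
    (true,[([(0,0,[(8,10)]),(0,7,[(6,8)])],[]),([(0,1,[(5,6)]),(0,1,[(5,6)])],[])],[7,4,4,1],false,3,1,[4]),
    (false,[([(0,17,[(8,10),(4,4)]),(0,7,[(6,8)])],[3]),([(0,1,[(5,6)]),(0,1,[(5,6)])],[2,2,2,2,1])],[],false,1,0,[]),
    (true,[([(0,0,[(8,10)]),(0,7,[(6,8)])],[]),([(0,5,[(7,8)])],[2])],[7,6,4,1],false,4,1,[6]),
    (true,[([(0,0,[(8,10)]),(0,7,[(6,8)])],[]),([(0,17,[(7,8),(5,6)])],[4,4])],[4,2],false,2,1,[]),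
    (true,[([(0,0,[(8,10)]),(0,0,[(9,10)])],[])],[7,5,4,4,3,2,1],false,6,1,[9]),
    (true,[([(0,0,[(8,10)]),(0,0,[(9,10)])],[]),([(0,0,[(7,9)])],[])],[7,5,4],false,3,2,[]),
    (true,[([(0,3,[(11,15)])],[])],[8,7,6,4,4,2],false,4,7,[6,10,14]),
    (true,[([(0,3,[(11,15)]),(0,1,[(5,6)])],[])],[7,5,4,4,3,2],false,5,2,[6]),
    (true,[([(0,3,[(11,15)]),(0,1,[(5,6)])],[]),([(0,1,[(6,6)])],[3])],[7,5,4],false,3,4,[5]),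
    (true,[([(0,4,[(11,15),(6,6)])],[]),([(0,1,[(5,6)]),(0,9,[(4,5)])],[2])],[8,4],false,2,1,[]),
    (true,[([(0,3,[(11,15)])],[]),([(0,0,[(7,10)])],[4,3,2])],[8,4],false,1,0,[4,6,8]),
    (true,[([(0,3,[(11,15)])],[]),([(0,0,[(7,10)]),(1,1,[(2,4)])],[])],[7,4],false,1,0,[2,3,4]),
    (true,[([(0,3,[(11,15)])],[]),([(0,0,[(7,10)]),(1,1,[(2,4),(2,2)])],[])],[7,4],false,1,0,[2]),
    (true,[([(0,3,[(11,15)])],[]),([(0,0,[(7,10)]),(1,1,[(2,4),(2,2),(2,2)])],[])],[7,4],false,2,4,[]),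
    (true,[([(0,3,[(11,15)])],[]),([(0,0,[(7,10)]),(1,1,[(2,4),(3,3)])],[])],[7,4],false,2,4,[3]),
    (true,[([(0,3,[(11,15)]),(0,11,[(3,3)])],[]),([(0,0,[(7,10)]),(1,1,[(2,4),(3,3)])],[])],[4,4],false,1,0,[3]),
    (true,[([(0,3,[(11,15)])],[]),([(0,0,[(7,10)]),(1,1,[(2,4),(3,3)])],[]),([(0,11,[(3,3)]),(0,11,[(2,3)])],[2,2,1])],[],false,1,0,[2]),
    (true,[([(0,3,[(11,15)])],[]),([(0,0,[(7,10)]),(1,1,[(2,4),(3,3),(2,2)])],[]),([(0,11,[(3,3)]),(0,11,[(2,3)])],[2,2,1])],[],false,1,0,[]),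
    (true,[([(0,3,[(11,15)])],[]),([(0,0,[(7,10)]),(1,1,[(2,4)])],[]),([(0,19,[(4,4)])],[2,2,1,1,1])],[],false,1,0,[2,3,4]),
    (true,[([(0,3,[(11,15)])],[]),([(0,0,[(7,10)]),(1,1,[(2,4),(2,2)])],[]),([(0,19,[(4,4)])],[2,2,1,1,1])],[],false,1,0,[2]),
    (true,[([(0,3,[(11,15)])],[]),([(0,0,[(7,10)]),(1,1,[(2,4),(2,2),(2,2)])],[]),([(0,19,[(4,4)])],[2,2,1,1,1])],[],false,1,0,[2]),
    (true,[([(0,3,[(11,15)])],[]),([(0,0,[(7,10)]),(1,1,[(2,4),(2,2),(2,2),(2,2)])],[]),([(0,19,[(4,4)])],[2,2,1,1,1])],[],false,1,0,[]),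
    (true,[([(0,3,[(11,15)])],[]),([(0,0,[(7,10)]),(1,1,[(2,4),(3,3)])],[]),([(0,19,[(4,4)])],[2,2,1,1,1])],[],false,1,0,[2]),
    (true,[([(0,3,[(11,15)])],[]),([(0,0,[(7,10)]),(1,1,[(2,4),(3,3),(2,2)])],[]),([(0,19,[(4,4)])],[2,2,1,1,1])],[],false,1,0,[]),
    (true,[([(0,3,[(11,15)])],[]),([(0,0,[(7,10)]),(1,1,[(2,4)])],[]),([(0,19,[(4,4)]),(0,19,[(4,4)])],[1,1,1])],[],false,1,0,[]),
    (true,[([(0,3,[(11,15)]),(0,1,[(5,6)])],[]),([(0,0,[(7,10)])],[4])],[7,4],false,2,3,[4]),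
    (true,[([(0,3,[(11,15)])],[]),([(0,0,[(7,10)]),(0,0,[(5,6),(3,4)])],[])],[7,4],false,2,1,[]),
    (true,[([(0,3,[(11,15)])],[5]),([(0,0,[(7,10)]),(0,5,[(7,8)])],[2])],[4,2],false,2,1,[]),
    (true,[([(0,3,[(11,15)])],[]),([(0,17,[(11,14)])],[5,4])],[8],false,1,0,[2,3,4]),
    (true,[([(0,3,[(11,15)]),(0,11,[(2,2)])],[]),([(0,17,[(11,14)])],[5,4,1])],[4],false,1,0,[2]),
    (true,[([(0,3,[(11,15)]),(1,0,[(2,2),(2,2)])],[]),([(0,3,[(11,14)])],[5,1])],[4],false,1,0,[2]),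
    (true,[([(0,3,[(11,15)]),(1,0,[(2,2),(2,2),(2,2)])],[]),([(0,3,[(11,14)])],[5,1])],[4],false,1,0,[]),
    (true,[([(0,3,[(11,15)]),(0,11,[(3,3)])],[]),([(0,17,[(11,14)])],[5,4,1])],[4],false,1,0,[2]),
    (true,[([(0,3,[(11,15)]),(0,9,[(3,3),(2,2)])],[]),([(0,17,[(11,14)])],[5,3])],[4],false,1,0,[]),
    (true,[([(0,3,[(11,15)]),(0,9,[(4,4)])],[]),([(0,17,[(11,14)])],[5,3])],[4],false,1,0,[]),
    (true,[([(0,4,[(16,21)])],[])],[8,7,4,4,2],false,4,2,[6,9]),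
    (true,[([(0,4,[(16,21)])],[]),([(0,1,[(5,6)])],[3,2,1,1])],[8,4],false,2,4,[4,5]),
    (true,[([(0,4,[(16,21)])],[]),([(0,0,[(5,6),(3,4)])],[4,3,2,2])],[4],false,1,0,[3]),
    (true,[([(0,4,[(16,21)]),(0,11,[(2,3)])],[]),([(0,0,[(5,6),(3,4)])],[4,3,1])],[4],false,1,0,[2]),
    (true,[([(0,4,[(16,21)])],[1]),([(0,0,[(5,6),(3,4)]),(1,0,[(2,3),(2,2)])],[4])],[4],false,1,0,[]),
    (true,[([(0,4,[(16,21)])],[]),([(0,1,[(5,6)]),(0,9,[(5,5)])],[2])],[8,4],false,1,0,[]),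
    (true,[([(0,4,[(16,21)])],[]),([(0,0,[(7,9)])],[4,3,2,2])],[4],false,1,0,[3]),
    (true,[([(0,4,[(16,21)]),(0,11,[(2,3)])],[]),([(0,0,[(7,9)])],[4,3,1])],[4],false,1,0,[2]),
    (true,[([(0,4,[(16,21)])],[1]),([(0,0,[(7,9)]),(1,0,[(2,3),(2,2)])],[4])],[4],false,1,0,[]),
    (true,[([(0,15,[(22,24)])],[1])],[8,5,4,3,1],false,3,2,[])]),
  ([11,10,9,8,4,3,2,1], [
    (false,[],[11,10,9,8,4,3,2,1],false,6,5,[10,15,21,24]),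
    (true,[([(0,0,[(7,10)])],[])],[8,7,6,5,4,4,4],false,5,5,[7,10]),
    (true,[([(0,0,[(7,10)]),(0,6,[(6,7)])],[])],[7,6,5,4,4,4,1],false,4,6,[6,7]),
    (true,[([(0,0,[(7,10)]),(0,6,[(6,7)])],[]),([(0,1,[(5,6)])],[2,2])],[7,6,4,4],false,3,6,[4,6]),
    (true,[([(0,0,[(7,10)]),(0,1,[(5,6)])],[3]),([(0,18,[(6,7),(4,4)])],[4])],[7,4,3],false,3,3,[4]),
    (true,[([(0,0,[(7,10)]),(0,0,[(5,6),(4,4)])],[]),([(0,18,[(6,7),(4,4)])],[3])],[7,4,3],false,3,2,[]),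
    (true,[([(0,0,[(7,10)]),(0,6,[(6,7)])],[]),([(0,1,[(5,6)])],[2,2]),([(0,1,[(5,6)])],[3,3,3,2])],[4],false,1,0,[2,3,4,5]),
    (true,[([(0,0,[(7,10)]),(0,0,[(6,7),(2,2)])],[]),([(0,1,[(5,6)]),(0,1,[(5,6)])],[3])],[4,4,4,1],true,2,3,[]),
    (true,[([(0,0,[(7,10)]),(0,0,[(6,7),(3,3)])],[]),([(0,1,[(5,6)]),(0,1,[(5,6)])],[3])],[4,4,4,1],true,2,2,[3]),
    (true,[([(0,0,[(7,10)]),(0,0,[(6,7),(3,3)])],[]),([(0,3,[(5,6),(5,6),(3,3)])],[4,1])],[4,4],false,1,0,[]),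
    (true,[([(0,0,[(7,10)]),(0,1,[(5,6)])],[4]),([(0,18,[(6,7),(4,4)]),(0,1,[(5,6)])],[])],[4,4,3],false,2,1,[]),
    (true,[([(0,0,[(7,10)]),(0,1,[(5,6)])],[]),([(0,6,[(6,7)])],[4,4,4,1]),([(0,1,[(5,6)]),(0,1,[(5,5)])],[])],[],false,1,0,[]),
    (true,[([(0,0,[(7,10)]),(0,6,[(6,7)])],[]),([(0,6,[(7,7)])],[3,3,3])],[6,5,4],false,3,4,[6,7]),
    (true,[([(0,0,[(7,10)]),(0,6,[(6,7)])],[]),([(0,5,[(7,7)]),(0,1,[(4,6)])],[3])],[5,4,4,1],false,3,1,[4]),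
    (true,[([(0,0,[(7,10)]),(0,0,[(4,6),(4,4)])],[]),([(0,3,[(6,7),(7,7)])],[4,1])],[4,4],false,1,0,[]),
    (false,[([(0,0,[(7,10)]),(0,17,[(6,7),(7,7)])],[2]),([(0,5,[(7,7)])],[2,2,2,2,2,2,1,1])],[],false,1,0,[]),
    (true,[([(0,0,[(7,10)]),(0,0,[(8,10)])],[])],[7,5,4,4,4,3,1],true,5,2,[8,10]),
    (true,[([(0,0,[(7,10)]),(0,0,[(8,10)])],[]),([(0,7,[(6,8)])],[3,3,1])],[5,4,4],false,2,5,[3,4,6]),
    (true,[([(0,0,[(7,10)]),(0,0,[(8,10)])],[]),([(0,7,[(6,8)])],[3,3,1]),([(0,11,[(3,3)])],[2,2,2])],[4],false,1,0,[2,3]),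
    (false,[([(0,0,[(7,10)]),(0,0,[(8,10)]),(0,11,[(3,3)])],[2]),([(0,0,[(6,8),(2,2)])],[3,2,2,2,2,2])],[],false,1,0,[2]),
    (true,[([(0,0,[(7,10)]),(0,0,[(8,10)])],[]),([(0,0,[(6,8),(2,2)]),(0,9,[(3,3),(2,2)])],[])],[5,4,4],false,2,1,[]),
    (true,[([(0,0,[(7,10)]),(0,0,[(8,10)])],[]),([(0,7,[(6,8)])],[4,4,4]),([(0,1,[(3,3),(3,3)])],[2])],[],false,1,0,[2]),
    (false,[([(0,0,[(7,10)]),(0,0,[(8,10)])],[2,2]),([(0,0,[(6,8),(2,2)]),(0,1,[(3,3),(3,3)])],[2,2,2,2])],[],false,1,0,[]),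
    (true,[([(0,0,[(7,10)]),(0,7,[(6,8)])],[]),([(0,17,[(8,10),(4,4)])],[4,4])],[4,4],false,1,0,[2,3]),
    (true,[([(0,0,[(7,10)]),(0,0,[(8,10)])],[]),([(0,0,[(6,8),(2,2)]),(0,9,[(4,4)])],[])],[5,4,4],false,2,1,[]),
    (true,[([(0,0,[(7,10)]),(0,0,[(8,10)])],[]),([(0,3,[(6,8),(4,4),(3,3)])],[4,1])],[4,4],false,1,0,[]),
    (true,[([(0,0,[(7,10)]),(0,0,[(8,10)])],[]),([(0,7,[(6,8)])],[4,4,4]),([(0,1,[(5,6)])],[2])],[],false,1,0,[2]),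
    (false,[([(0,0,[(7,10)]),(0,0,[(8,10)])],[2,2]),([(0,0,[(6,8),(2,2)]),(0,1,[(5,6)])],[2,2,2,2])],[],false,1,0,[]),
    (true,[([(0,0,[(7,10)]),(0,0,[(8,10)])],[]),([(0,18,[(9,10)])],[3])],[7,4,3],false,3,2,[]),
    (true,[([(0,3,[(11,15)])],[])],[8,7,6,4,4,4],false,4,6,[6,8,11,13,14]),
    (true,[([(0,3,[(11,15)]),(0,1,[(5,6)])],[])],[7,5,4,4,4,3],false,4,3,[5,6]),
    (true,[([(0,3,[(11,15)]),(0,1,[(5,6)])],[]),([(0,9,[(5,5)])],[3,3,3,1])],[5,4,3],false,3,3,[5]),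
    (true,[([(0,3,[(11,15)]),(0,1,[(5,6)])],[]),([(0,9,[(5,5)]),(0,1,[(4,5)])],[3])],[5,4,4],false,2,2,[3]),
    (true,[([(0,3,[(11,15)]),(0,9,[(4,5)])],[]),([(0,17,[(5,6),(5,5),(3,3)])],[5,5])],[4],false,1,0,[]),
    (true,[([(0,3,[(11,15)]),(0,1,[(5,6)])],[]),([(0,1,[(6,6)])],[3,3])],[7,4,4],false,2,4,[3,5]),
    (true,[([(0,3,[(11,15)]),(0,11,[(3,3)])],[4]),([(0,1,[(5,6)]),(0,1,[(6,6)])],[1])],[5,4,4],false,2,2,[3]),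
    (true,[([(0,4,[(11,15),(6,6)])],[1]),([(0,1,[(5,6)]),(0,1,[(3,3),(3,3)])],[3,3])],[4,4],false,1,0,[]),
    (true,[([(0,3,[(11,15)]),(0,1,[(5,6)])],[]),([(0,1,[(6,6)]),(0,9,[(4,5)])],[3])],[5,4,4],false,2,1,[]),
    (false,[([(0,3,[(11,15)]),(0,5,[(7,8)])],[3,3,3])],[9,4,3],false,3,3,[6,8]),
    (true,[([(0,3,[(11,15)]),(0,1,[(4,6)])],[]),([(0,5,[(7,8)])],[3])],[7,5,4],false,3,4,[5]),
    (true,[([(0,3,[(11,15)]),(0,1,[(4,6)])],[]),([(0,5,[(7,8)]),(0,9,[(4,5)])],[1])],[5,4,4],false,2,1,[]),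
    (true,[([(0,3,[(11,15)]),(0,5,[(7,8)])],[]),([(0,5,[(7,8)])],[3])],[6,4,4],false,2,1,[]),
    (false,[([(0,3,[(11,15)]),(0,18,[(9,11)])],[3,3])],[10,4,2],false,3,2,[6]),
    (false,[([(0,3,[(11,15)]),(0,18,[(9,11)])],[3,3]),([(0,1,[(4,6)])],[3,2,1,1,1,1,1])],[],false,1,0,[3]),
    (false,[([(0,3,[(11,15)]),(0,18,[(9,11)])],[3,3]),([(0,1,[(4,6)]),(0,11,[(2,3)])],[3,1,1,1,1])],[],false,1,0,[2]),
    (false,[([(0,3,[(11,15)]),(0,18,[(9,11)])],[3,3]),([(0,1,[(4,6)]),(1,0,[(2,3),(2,2)])],[1,1,1,1])],[],false,1,0,[]),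
    (false,[([(0,3,[(11,15)]),(0,12,[(12,13)])],[3,3])],[9,3,2],false,3,2,[]),
    (true,[([(0,3,[(11,15)])],[3]),([(0,17,[(14,14)])],[5,5,2])],[4],false,1,0,[]),
    (true,[([(0,4,[(16,21)])],[])],[8,7,4,4,4],false,3,7,[5,6,8,9]),
    (true,[([(0,4,[(16,21)])],[]),([(0,9,[(4,5)])],[3,3,3,1])],[8,4],false,1,0,[2,3,5]),
    (true,[([(0,4,[(16,21)]),(0,11,[(2,2)])],[]),([(0,9,[(4,5)])],[3,3,3,1])],[5,4],false,2,4,[]),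
    (true,[([(0,4,[(16,21)]),(0,11,[(3,3)])],[]),([(0,9,[(4,5)])],[3,3,3,1])],[5,4],false,2,3,[3]),
    (true,[([(0,4,[(16,21)]),(0,11,[(3,3)])],[]),([(0,7,[(4,5),(3,3)])],[4,4,4])],[4],false,1,0,[2]),
    (true,[([(0,4,[(16,21)])],[5]),([(0,9,[(4,5)]),(0,1,[(3,3),(3,3)]),(0,11,[(2,2)])],[])],[4,4],false,1,0,[]),
    (true,[([(0,4,[(16,21)])],[]),([(0,9,[(4,5)]),(0,9,[(4,5)])],[3,3])],[7,4],false,2,2,[3]),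
    (true,[([(0,4,[(16,21)])],[]),([(0,9,[(4,5)]),(0,9,[(4,5)])],[3,3]),([(0,11,[(3,3)])],[2,2,2,1,1])],[],false,1,0,[]),
    (true,[([(0,4,[(16,21)])],[]),([(0,1,[(6,6)])],[3,3,3,2,2])],[4,4],false,1,0,[3,4]),
    (true,[([(0,4,[(16,21)]),(0,11,[(2,3)])],[]),([(0,1,[(6,6)])],[3,3,3,1])],[4,4],false,1,0,[3]),
    (true,[([(0,4,[(16,21)])],[6]),([(0,1,[(6,6)]),(0,11,[(2,3)]),(0,11,[(2,3)])],[1])],[4,4],false,1,0,[2]),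
    (false,[([(0,4,[(16,21)]),(0,5,[(6,6),(2,2)])],[3,3]),([(0,11,[(2,3)]),(0,11,[(2,3)])],[2,2,1,1,1])],[],false,1,0,[]),
    (true,[([(0,4,[(16,21)])],[2]),([(0,10,[(6,6),(4,4)])],[5,5,5])],[],false,1,0,[]),
    (false,[([(0,4,[(16,21)]),(0,5,[(7,8)])],[3,3])],[9,4],false,2,2,[3]),
    (false,[([(0,4,[(16,21)]),(0,18,[(7,8),(3,3)])],[3])],[10,3],false,1,0,[]),
    (true,[([(0,4,[(16,21)])],[3]),([(0,33,[(9,9)])],[5,5,5])],[],false,1,0,[]),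
    (true,[([(0,20,[(22,24)])],[2])],[8,4,4,4,2],false,3,2,[])]),
  ([12,7,6,5,4,3,3,3,2,1], [
    (false,[],[12,7,6,5,4,3,3,3,2,1],false,7,3,[10,15,21,24]),
    (true,[([(0,10,[(8,10)])],[])],[10,9,8,4,3,1,1],false,5,4,[8,10]),
    (false,[([(0,10,[(8,10)]),(0,7,[(6,8)])],[4,1,1])],[7,6,4,3,2],false,5,2,[8]),
    (false,[([(0,0,[(8,10)]),(0,7,[(6,8)]),(0,7,[(6,8)])],[])],[6,5,3,3,2,1],false,5,1,[7]),
    (true,[([(0,0,[(8,10)]),(0,3,[(6,8),(6,7)])],[2]),([(0,7,[(6,8)])],[])],[9,1,1],false,2,1,[]),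
    (false,[([(0,10,[(8,10)]),(0,10,[(9,10)])],[4,2])],[7,5,4,3,1],true,5,2,[8,9]),
    (false,[([(0,4,[(8,10),(9,10)]),(0,7,[(6,8)])],[1,1])],[6,3,3,3],false,2,3,[4]),
    (true,[([(0,0,[(8,10)]),(0,17,[(9,10),(3,4)])],[2]),([(0,7,[(6,8)])],[1])],[9,1,1],false,2,1,[]),
    (false,[([(0,34,[(8,10),(9,10),(9,9)])],[7,1,1,1])],[3,3],false,1,0,[]),
    (false,[([(0,3,[(11,15)])],[])],[12,7,6,3,3],false,4,6,[6,10,14]),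
    (true,[([(0,3,[(11,15)]),(0,1,[(5,6)])],[2,2])],[9,5,3,1,1,1,1],false,4,3,[6]),
    (false,[([(0,3,[(11,15)]),(0,2,[(5,6),(5,6)])],[1,1])],[6,4,3,3,1],false,4,1,[6]),
    (false,[([(0,3,[(11,15)]),(0,2,[(5,6),(5,6)])],[1,1]),([(0,1,[(5,6)])],[2])],[6,3],false,2,1,[]),
    (false,[([(0,3,[(11,15)]),(0,0,[(7,10)])],[1,1,1])],[6,4,3,3,2],false,4,2,[6,8]),
    (false,[([(0,3,[(11,15)]),(0,0,[(7,10)])],[1,1,1]),([(0,1,[(5,6)])],[3])],[6,3],false,2,3,[4]),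
    (false,[([(0,3,[(11,15)]),(0,0,[(7,10)])],[1,1,1]),([(0,0,[(5,6),(3,4)])],[4,1])],[3],false,1,0,[2]),
    (true,[([(0,3,[(11,15)]),(0,0,[(7,10)])],[2]),([(0,0,[(5,6),(3,4)]),(0,11,[(2,2)])],[1,1,1])],[1,1,1],false,1,0,[]),
    (true,[([(0,3,[(11,15)]),(0,0,[(7,10)])],[2]),([(0,7,[(7,8)])],[])],[9,1,1],false,2,1,[]),
    (false,[([(0,3,[(11,15)]),(0,30,[(11,14)])],[1])],[6,4,3,3],false,3,3,[4]),
    (false,[([(0,3,[(11,15)]),(0,30,[(11,14)])],[1]),([(0,19,[(4,4)])],[2])],[6,4],false,1,0,[]),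
    (false,[([(0,4,[(16,21)])],[])],[12,7,3,3],false,3,6,[6,8,9]),
    (false,[([(0,4,[(16,21)]),(0,1,[(4,6)])],[1,1,1])],[6,4,3,3],false,3,4,[6]),
    (false,[([(0,4,[(16,21)]),(0,1,[(4,6)])],[1,1,1]),([(0,1,[(4,6)])],[3,3,1])],[3],false,1,0,[3]),
    (true,[([(0,4,[(16,21)]),(0,1,[(4,6)])],[2]),([(0,1,[(4,6)]),(0,11,[(2,3)])],[2,1,1,1])],[1,1,1],false,1,0,[2]),
    (false,[([(0,4,[(16,21)])],[]),([(0,1,[(4,6)]),(0,1,[(4,6)]),(1,0,[(2,3),(2,2)])],[2,1,1])],[3],false,1,0,[]),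
    (false,[([(0,4,[(16,21)]),(0,7,[(7,8)])],[1,1])],[6,3,3,3],false,2,2,[3]),
    (false,[([(0,4,[(16,21)])],[6]),([(0,18,[(7,8),(3,3)])],[1,1,1,1,1,1,1,1])],[],false,1,0,[]),
    (false,[([(0,34,[(16,21),(9,9)])],[7,1,1,1])],[3,3],false,1,0,[]),
    (true,[([(0,26,[(22,24)])],[3,2,2])],[9,3,1,1,1],false,3,2,[])]),
  ([12,8,7,6,5,4,3,1], [
    (false,[],[12,8,7,6,5,4,3,1],false,7,4,[10,15,21,24]),
    (true,[([(0,10,[(8,10)])],[1,1])],[8,7,6,5,4,3,1],false,6,4,[10]),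
    (true,[([(0,0,[(8,10)]),(0,0,[(7,10)])],[])],[7,7,5,3,1,1,1,1],false,4,3,[6,10]),
    (true,[([(0,10,[(8,10)])],[1]),([(0,0,[(7,10)]),(0,1,[(5,6)])],[])],[8,7,4],false,3,4,[6]),
    (true,[([(0,10,[(8,10)]),(0,1,[(5,6)])],[]),([(0,0,[(7,10)]),(0,1,[(4,6)])],[])],[7,6,1],false,3,1,[4]),
    (false,[([(0,3,[(8,10),(4,4)]),(0,0,[(7,10)])],[1,1,1]),([(0,1,[(5,6)]),(0,1,[(4,6)])],[3,3])],[],false,1,0,[]),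
    (true,[([(0,10,[(8,10)])],[2,1]),([(0,0,[(7,10)]),(0,0,[(7,10)])],[])],[7,5,1],true,3,2,[5]),
    (true,[([(0,0,[(8,10)]),(0,0,[(7,10)])],[]),([(0,0,[(7,10)]),(0,1,[(4,5)])],[])],[7,1,1,1],false,2,1,[]),
    (true,[([(0,3,[(11,15)])],[1,1])],[8,7,6,5,1,1,1],false,5,3,[8,12,14]),
    (false,[([(0,3,[(11,15)]),(0,7,[(6,8)])],[1,1,1])],[8,7,5],false,3,5,[6,8]),
    (false,[([(0,3,[(11,15)]),(0,7,[(6,8)]),(0,1,[(4,6)])],[])],[7,6,4],false,3,4,[6]),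
    (false,[([(0,3,[(11,15)]),(0,7,[(6,8)]),(0,1,[(4,6)])],[]),([(0,1,[(4,6)])],[3,3,3,2])],[],false,1,0,[3]),
    (true,[([(0,3,[(11,15)]),(0,1,[(4,6)])],[]),([(0,7,[(6,8)]),(0,11,[(2,3)])],[1]),([(0,1,[(4,6)])],[2,2,2,1])],[],false,1,0,[2]),
    (true,[([(0,3,[(11,15)]),(0,1,[(4,6)])],[]),([(0,0,[(6,8),(2,2)]),(0,1,[(4,6)])],[]),([(0,11,[(2,3)])],[1,1,1,1,1])],[1],false,1,0,[]),
    (true,[([(0,3,[(11,15)]),(0,5,[(7,8)])],[]),([(0,7,[(6,8)])],[2,1])],[7,4,1],false,3,1,[]),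
    (false,[([(0,3,[(11,15)]),(0,2,[(9,12)])],[5,1])],[7,5,1],true,3,2,[6]),
    (true,[([(0,3,[(11,15)]),(0,1,[(4,6)])],[]),([(0,2,[(9,12)])],[3,2])],[7,1],true,2,2,[3]),
    (false,[([(0,3,[(11,15)]),(0,2,[(9,12)])],[5,1]),([(0,1,[(4,6)]),(0,11,[(3,3)])],[2,2])],[],false,1,0,[]),
    (false,[([(0,3,[(11,15)]),(0,30,[(13,14)])],[5])],[7,5],false,2,1,[]),
    (true,[([(0,4,[(16,21)])],[1])],[8,7,6,1,1,1],false,4,3,[6,9]),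
    (false,[([(0,4,[(16,21)]),(0,1,[(5,6)])],[5,1,1])],[7,5],false,2,4,[4,5]),
    (true,[([(0,4,[(16,21)])],[1]),([(0,0,[(5,6),(3,4)])],[3,3,3,3])],[1,1],false,1,0,[3]),
    (true,[([(0,4,[(16,21)])],[4,3]),([(0,0,[(5,6),(3,4)]),(0,11,[(2,3)])],[3])],[1,1],false,1,0,[2]),
    (true,[([(0,4,[(16,21)])],[4,3]),([(0,0,[(5,6),(3,4)]),(1,0,[(2,3),(2,2)])],[])],[1,1],false,1,0,[]),
    (false,[([(0,4,[(16,21)]),(0,2,[(5,6),(5,5)])],[1])],[7,5],false,1,0,[]),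
    (true,[([(0,4,[(16,21)])],[1]),([(0,0,[(7,9)])],[3,3,3,3])],[1,1],false,1,0,[3]),
    (true,[([(0,4,[(16,21)])],[4,3]),([(0,0,[(7,9)]),(0,11,[(2,3)])],[3])],[1,1],false,1,0,[2]),
    (true,[([(0,4,[(16,21)])],[4,3]),([(0,0,[(7,9)]),(1,0,[(2,3),(2,2)])],[])],[1,1],false,1,0,[]),
    (true,[([(0,26,[(22,24)])],[3])],[7,7,3,1,1],false,3,2,[])]),
  ([12,11,10,5,4,3,2,1], [
    (false,[],[12,11,10,5,4,3,2,1],true,7,3,[10,15,21,24]),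
    (true,[([(0,0,[(8,10)])],[])],[8,7,6,5,3,3,3,3],false,5,5,[8,10]),
    (true,[([(0,0,[(8,10)]),(0,7,[(6,8)])],[])],[7,6,4,3,3,3,3,1],false,4,5,[6,8]),
    (true,[([(0,0,[(8,10)]),(0,7,[(6,8)])],[]),([(0,1,[(5,6)])],[2])],[7,6,3,3,3],false,3,6,[6]),
    (false,[([(0,10,[(8,10)]),(0,7,[(6,8)])],[3,1]),([(0,1,[(5,6)]),(0,1,[(4,6)])],[3,3,2,2,2,2])],[],false,1,0,[2,3,5]),
    (true,[([(0,0,[(8,10)]),(0,0,[(6,8),(2,2)])],[]),([(0,1,[(5,6)]),(0,1,[(4,6)])],[3])],[3,3,3,3,1],true,2,3,[]),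
    (true,[([(0,10,[(8,10)])],[5,5]),([(0,7,[(6,8)]),(0,0,[(5,6),(3,3)])],[]),([(0,1,[(4,6)])],[2,1,1])],[],false,1,0,[2,3]),
    (false,[([(0,0,[(8,10)]),(0,0,[(6,8),(2,2)])],[2,2,2,2]),([(0,0,[(5,6),(3,3)]),(0,1,[(4,6)])],[1,1,1,1])],[],false,1,0,[2]),
    (false,[([(0,3,[(8,10),(3,3),(2,2)]),(0,0,[(6,8),(2,2)])],[2,2,2]),([(0,1,[(5,6)]),(0,1,[(4,6)])],[1,1,1,1,1])],[],false,1,0,[]),
    (true,[([(0,10,[(8,10)])],[5,5]),([(0,7,[(6,8)]),(0,0,[(5,6),(3,3)])],[]),([(0,1,[(4,6)]),(0,11,[(3,3)])],[1])],[],false,1,0,[]),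
    (true,[([(0,10,[(8,10)])],[5,5]),([(0,7,[(6,8)]),(0,1,[(5,6)])],[3]),([(0,1,[(4,6)]),(0,9,[(4,5)])],[])],[],false,1,0,[2]),
    (false,[([(0,3,[(8,10),(4,5)]),(0,0,[(6,8),(2,2)])],[2,2,2]),([(0,1,[(5,6)]),(0,1,[(4,6)])],[1,1,1,1,1])],[],false,1,0,[]),
    (true,[([(0,10,[(8,10)])],[5,5]),([(0,7,[(6,8)]),(0,5,[(7,8)])],[1])],[6,3,2],false,3,2,[6]),
    (true,[([(0,0,[(8,10)]),(0,7,[(6,8)])],[]),([(0,5,[(7,8)]),(0,1,[(4,6)])],[2])],[4,3,3,3,1],false,3,1,[]),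
    (false,[([(0,0,[(8,10)]),(0,0,[(9,10)])],[2,2,2,2])],[11,5,3,1],true,4,4,[6,9]),
    (true,[([(0,10,[(8,10)])],[5,5]),([(0,0,[(9,10)]),(0,1,[(5,6)])],[1])],[6,3,2],false,3,2,[5]),
    (true,[([(0,4,[(8,10),(9,10)])],[2]),([(0,1,[(5,6)]),(0,9,[(4,5)])],[3,2])],[3,3,3],false,1,0,[2]),
    (true,[([(0,4,[(8,10),(9,10)]),(0,11,[(2,2)])],[]),([(0,1,[(5,6)]),(0,1,[(4,5)])],[3])],[3,3,3],false,1,0,[]),
    (false,[([(0,0,[(8,10)]),(0,22,[(9,10),(7,9)])],[2,2])],[11,4],false,2,2,[3]),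
    (false,[([(0,0,[(8,10)]),(0,22,[(9,10),(7,9)])],[2,2]),([(0,11,[(3,3)])],[2,2,2,1,1,1,1,1,1])],[],false,1,0,[]),
    (true,[([(0,3,[(11,15)])],[])],[8,7,6,3,3,3,3],false,4,6,[6,10,14]),
    (false,[([(0,3,[(11,15)]),(0,1,[(5,6)])],[2,2,2,2])],[11,5,3],true,3,4,[6]),
    (true,[([(0,3,[(11,15)])],[]),([(0,1,[(5,6)]),(0,1,[(4,6)])],[3,2])],[7,3,3,3],false,2,6,[3,4,5,6]),
    (true,[([(0,3,[(11,15)]),(0,11,[(3,3)])],[]),([(0,1,[(5,6)]),(0,1,[(4,6)])],[3,2])],[4,3,3,3],false,2,4,[3]),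
    (false,[([(0,3,[(11,15)]),(0,0,[(5,6),(3,3)])],[2,2,2]),([(0,1,[(4,6)]),(0,11,[(3,3)])],[3,1,1,1,1,1])],[],false,1,0,[2,3]),
    (false,[([(0,3,[(11,15)]),(0,0,[(5,6),(3,3)])],[2,2,2]),([(0,1,[(4,6)]),(0,9,[(3,3),(2,2)])],[2,1,1,1,1])],[],false,1,0,[2]),
    (false,[([(0,3,[(11,15)]),(0,0,[(5,6),(3,3)])],[2,2,2]),([(0,1,[(4,6)]),(0,9,[(3,3),(2,2)]),(0,11,[(2,2)])],[1,1,1])],[],false,1,0,[]),
    (false,[([(0,3,[(11,15)]),(0,0,[(5,6),(3,3)])],[2,2,2]),([(0,1,[(4,6)]),(0,1,[(3,3),(3,3)])],[1,1,1,1,1])],[],false,1,0,[]),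
    (true,[([(0,3,[(11,15)]),(0,19,[(4,4)])],[]),([(0,1,[(5,6)]),(0,1,[(4,6)])],[3,1])],[4,3,3,3],false,2,3,[4]),
    (false,[([(0,3,[(11,15)]),(0,0,[(5,6),(3,4)]),(0,19,[(4,4)])],[2]),([(0,1,[(4,6)])],[3,2,1,1,1,1,1,1])],[],false,1,0,[2]),
    (false,[([(0,3,[(11,15)]),(0,0,[(5,6),(4,4)])],[2,2,2]),([(0,1,[(4,6)]),(0,1,[(3,4),(2,2)])],[1,1,1,1,1])],[],false,1,0,[]),
    (false,[([(0,3,[(11,15)]),(0,1,[(5,6)])],[2,2,2,2]),([(0,1,[(4,6)]),(0,9,[(5,5)])],[3,2,1,1,1])],[],false,1,0,[2,3]),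
    (false,[([(0,3,[(11,15)]),(0,6,[(5,5),(2,2)])],[1,1]),([(0,1,[(5,6)]),(0,1,[(4,6)])],[2,2,2,2,2,2])],[],false,1,0,[2]),
    (false,[([(0,3,[(11,15)]),(0,0,[(5,6),(2,2),(2,2)])],[2,2,2]),([(0,1,[(4,6)]),(0,9,[(5,5)])],[2,1,1,1,1])],[],false,1,0,[]),
    (false,[([(0,3,[(11,15)]),(0,17,[(5,6),(5,5),(3,3)])],[2,2]),([(0,1,[(4,6)])],[2,1,1,1,1,1,1,1])],[],false,1,0,[]),
    (true,[([(0,4,[(11,15),(6,6)])],[1]),([(0,1,[(5,6)]),(0,1,[(4,6)])],[3,2])],[3,3,3],false,1,0,[2]),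
    (true,[([(0,4,[(11,15),(6,6)]),(0,11,[(2,2)])],[]),([(0,1,[(5,6)]),(0,1,[(4,6)])],[3])],[3,3,3],false,1,0,[]),
    (false,[([(0,3,[(11,15)]),(0,0,[(7,10)])],[2,2,2])],[11,4,2],true,3,4,[4,6,8]),
    (false,[([(0,3,[(11,15)]),(0,0,[(7,10)]),(0,19,[(4,4)])],[2])],[11,4,2],false,3,2,[4]),
    (true,[([(0,3,[(11,15)])],[4,2]),([(0,0,[(7,10)]),(0,7,[(4,4),(4,4)])],[])],[3,3,3],false,1,0,[2]),
    (false,[([(0,3,[(11,15)]),(0,0,[(7,10)]),(0,19,[(4,4)])],[2]),([(0,1,[(4,4),(2,2)])],[3,2,1,1,1,1,1,1])],[],false,1,0,[]),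
    (false,[([(0,3,[(11,15)]),(0,0,[(7,10)])],[2,2,2]),([(0,1,[(5,6)])],[3,2,1,1,1,1,1,1])],[],false,1,0,[2,3,4]),
    (true,[([(0,3,[(11,15)])],[4,2]),([(0,0,[(7,10)]),(0,7,[(5,6),(2,2)])],[])],[3,3,3],false,1,0,[2]),
    (false,[([(0,3,[(11,15)]),(0,0,[(7,10)])],[2,2,2]),([(0,1,[(5,6)]),(1,0,[(2,2),(2,2)])],[1,1,1,1,1])],[],false,1,0,[2]),
    (false,[([(0,3,[(11,15)]),(0,0,[(7,10)])],[2,2,2]),([(0,1,[(5,6)]),(1,0,[(2,2),(2,2),(2,2)])],[1,1,1,1,1])],[],false,1,0,[]),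
    (false,[([(0,3,[(11,15)]),(0,0,[(7,10)])],[2,2,2]),([(0,1,[(5,6)]),(0,11,[(3,3)])],[3,1,1,1,1,1])],[],false,1,0,[2]),
    (false,[([(0,3,[(11,15)]),(0,0,[(7,10)])],[2,2,2]),([(0,1,[(5,6)]),(0,9,[(3,3),(2,2)])],[2,1,1,1,1])],[],false,1,0,[]),
    (false,[([(0,3,[(11,15)]),(0,0,[(7,10)]),(0,19,[(4,4)])],[2]),([(0,1,[(5,6)])],[3,2,1,1,1,1,1,1])],[],false,1,0,[]),
    (false,[([(0,3,[(11,15)]),(0,0,[(7,10)])],[2,2,2]),([(0,5,[(7,8)])],[2,1,1,1,1,1,1,1])],[],false,1,0,[2]),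
    (false,[([(0,3,[(11,15)]),(0,0,[(7,10)])],[2,2,2]),([(0,5,[(7,8)]),(0,11,[(2,2)])],[1,1,1,1,1,1])],[],false,1,0,[]),
    (false,[([(0,3,[(11,15)]),(0,17,[(11,14)])],[2,2])],[11,3,1],false,3,1,[4]),
    (true,[([(0,3,[(11,15)]),(0,19,[(4,4)])],[]),([(0,30,[(11,14)])],[6,6])],[3],false,1,0,[]),
    (true,[([(0,4,[(16,21)])],[])],[8,7,3,3,3,3],false,3,7,[6,8,9]),
    (false,[([(0,4,[(16,21)]),(0,1,[(4,6)])],[2,2,2])],[11,4],true,2,5,[3,4,6]),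
    (false,[([(0,4,[(16,21)]),(0,1,[(4,6)])],[2,2,2]),([(0,11,[(3,3)])],[2,2,2,1,1,1,1,1,1])],[],false,1,0,[2,3]),
    (true,[([(0,4,[(16,21)])],[2]),([(0,1,[(4,6)]),(0,9,[(3,3),(2,2)])],[3,2])],[3,3,3],false,1,0,[2]),
    (true,[([(0,4,[(16,21)]),(0,11,[(2,2)])],[]),([(0,1,[(4,6)]),(0,1,[(3,3),(2,2)])],[3])],[3,3,3],false,1,0,[2]),
    (true,[([(0,4,[(16,21)]),(0,11,[(3,3)])],[]),([(0,1,[(4,6)]),(1,0,[(2,2),(2,2),(2,2)])],[3])],[3,3,3],false,1,0,[]),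
    (true,[([(0,4,[(16,21)])],[1]),([(0,1,[(4,6)]),(0,1,[(3,3),(3,3)])],[3,2])],[3,3,3],false,1,0,[2]),
    (true,[([(0,4,[(16,21)]),(0,11,[(2,2)])],[]),([(0,1,[(4,6)]),(0,1,[(3,3),(3,3)])],[3])],[3,3,3],false,1,0,[]),
    (false,[([(0,4,[(16,21)]),(0,1,[(4,6)]),(0,19,[(4,4)])],[2])],[11,4],false,2,2,[3]),
    (false,[([(0,4,[(16,21)]),(0,1,[(4,6)]),(0,19,[(4,4)])],[2]),([(0,11,[(3,3)])],[2,2,2,1,1,1,1,1,1])],[],false,1,0,[]),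
    (true,[([(0,4,[(16,21)])],[1]),([(0,1,[(4,6)]),(0,1,[(5,6)])],[3,2])],[3,3,3],false,1,0,[2]),
    (true,[([(0,4,[(16,21)]),(0,11,[(2,2)])],[]),([(0,1,[(4,6)]),(0,1,[(5,6)])],[3])],[3,3,3],false,1,0,[]),
    (true,[([(0,4,[(16,21)])],[5]),([(0,5,[(7,8)])],[])],[8,3,3],false,2,2,[3]),
    (true,[([(0,4,[(16,21)])],[6]),([(0,18,[(7,8),(3,3)])],[1,1,1,1])],[3,3],false,1,0,[]),
    (true,[([(0,4,[(16,21)])],[]),([(0,33,[(9,9)])],[5,5])],[8],false,1,0,[]),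
    (true,[([(0,20,[(22,24)])],[2])],[8,3,3,3,3,2],false,3,2,[])]),
  ([13,12,6,5,4,3,2,1], [
    (false,[],[13,12,6,5,4,3,2,1],true,7,4,[10,15,21,24]),
    (true,[([(0,10,[(8,10)])],[4])],[8,7,5,4,2,2,2,2],false,5,4,[8,10]),
    (false,[([(0,0,[(8,10)]),(0,7,[(6,8)])],[1,1,1,1])],[13,6,4,1],true,4,4,[6,8]),
    (false,[([(0,10,[(8,10)]),(0,7,[(6,8)]),(0,1,[(5,6)])],[])],[13,5,4],false,3,4,[6]),
    (true,[([(0,0,[(8,10)]),(0,7,[(6,8)])],[]),([(0,1,[(5,6)]),(0,1,[(4,6)])],[])],[7,2,2,2,2,1],true,3,4,[5]),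
    (true,[([(0,0,[(8,10)]),(0,7,[(6,8)])],[]),([(0,1,[(5,6)]),(0,1,[(4,6)])],[]),([(0,9,[(4,5)])],[3,1,1,1])],[2,2,1],false,2,1,[]),
    (true,[([(0,10,[(8,10)])],[5]),([(0,7,[(6,8)]),(0,7,[(7,8)])],[])],[7,5,2,1],false,4,1,[6]),
    (true,[([(0,0,[(8,10)]),(0,7,[(6,8)])],[]),([(0,17,[(7,8),(5,6)])],[1])],[7,2,2,2],false,2,1,[]),
    (true,[([(0,0,[(8,10)]),(0,0,[(9,10)])],[])],[7,5,3,2,2,2,2,2,1],true,5,2,[8,9]),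
    (true,[([(0,10,[(8,10)])],[5,2]),([(0,0,[(9,10)]),(0,7,[(6,8)])],[])],[6,2,2,1],false,3,1,[4]),
    (true,[([(0,4,[(8,10),(9,10)])],[1]),([(0,7,[(6,8)]),(0,19,[(4,4)])],[4,2])],[2,2,2],false,1,0,[]),
    (false,[([(0,32,[(8,10),(9,10),(9,9)])],[6,5,2,2,2])],[],false,1,0,[]),
    (true,[([(0,3,[(11,15)])],[])],[8,7,6,2,2,2,2,2],false,4,6,[6,8,10,13,14]),
    (true,[([(0,3,[(11,15)]),(0,1,[(5,6)])],[])],[7,5,3,2,2,2,2,2],false,4,3,[6]),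
    (true,[([(0,3,[(11,15)]),(0,1,[(5,6)])],[]),([(0,1,[(5,6)])],[3,1])],[7,2,2,2,2],false,2,5,[4,6]),
    (true,[([(0,3,[(11,15)]),(0,1,[(5,6)])],[]),([(0,0,[(5,6),(3,4)])],[4,2,1])],[2,2,2,2],false,1,0,[2,4]),
    (true,[([(0,3,[(11,15)]),(0,1,[(5,6)])],[]),([(0,1,[(5,6)]),(0,1,[(3,4),(2,2)])],[2])],[3,2,2,2,2],false,2,2,[]),
    (true,[([(0,3,[(11,15)])],[2,1]),([(0,0,[(5,6),(3,4)]),(0,0,[(5,6),(3,4)])],[])],[2,2,2,2],false,1,0,[2]),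
    (true,[([(0,3,[(11,15)]),(0,11,[(2,2)])],[]),([(0,0,[(5,6),(3,4)]),(0,0,[(5,6),(3,4)])],[])],[2,2,2,2],false,1,0,[]),
    (true,[([(0,3,[(11,15)]),(0,1,[(5,6)])],[]),([(0,1,[(5,6)]),(0,1,[(5,6)])],[2])],[3,2,2,2,2],false,2,1,[]),
    (true,[([(0,3,[(11,15)]),(0,5,[(7,8)])],[])],[6,4,3,2,2,2,2,2],false,4,3,[6,8]),
    (true,[([(0,3,[(11,15)]),(0,1,[(5,6)])],[]),([(0,7,[(7,8)])],[4])],[7,2,2,2],false,2,3,[4]),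
    (true,[([(0,3,[(11,15)]),(0,1,[(5,6)])],[]),([(0,2,[(7,8),(3,4)])],[5,2])],[2,2,2],false,1,0,[2]),
    (true,[([(0,3,[(11,15)])],[2,1]),([(0,0,[(7,8),(2,2)]),(0,0,[(5,6),(3,4)])],[])],[2,2,2,2],false,1,0,[]),
    (true,[([(0,3,[(11,15)])],[2]),([(0,7,[(7,8)]),(0,7,[(7,8)])],[])],[7,2,2,2],false,2,1,[]),
    (false,[([(0,3,[(11,15)]),(0,10,[(9,10)])],[1,1])],[13,5,1],true,3,3,[6]),
    (true,[([(0,3,[(11,15)]),(0,1,[(4,6)])],[]),([(0,10,[(9,10)])],[5,1])],[5,2,2],false,2,2,[3]),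
    (false,[([(0,3,[(11,15)]),(0,12,[(9,10),(3,3)])],[2,2,2,2]),([(0,1,[(4,6)])],[3,1])],[],false,1,0,[]),
    (false,[([(0,3,[(11,15)]),(0,12,[(11,13)])],[2,2,2,2])],[5,3,2],false,3,2,[4]),
    (true,[([(0,3,[(11,15)]),(0,19,[(4,4)])],[]),([(0,21,[(11,13)])],[5,2,1])],[2,2,2],false,1,0,[]),
    (false,[([(0,32,[(11,15),(14,14)])],[6,5,2,2,2])],[],false,1,0,[]),
    (true,[([(0,4,[(16,21)])],[])],[8,7,2,2,2,2,2],false,3,7,[5,7,9]),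
    (false,[([(0,4,[(16,21)]),(0,9,[(4,5)])],[1,1,1])],[13,4],true,2,5,[3,5]),
    (true,[([(0,4,[(16,21)]),(0,11,[(3,3)])],[]),([(0,9,[(4,5)])],[3,1])],[7,2,2,2],false,2,3,[3]),
    (true,[([(0,4,[(16,21)]),(0,11,[(3,3)])],[]),([(0,7,[(4,5),(3,3)])],[4,2,2])],[2,2,2],false,1,0,[2]),
    (true,[([(0,4,[(16,21)])],[3]),([(0,9,[(4,5)]),(0,1,[(3,3),(3,3)]),(0,11,[(2,2)])],[])],[2,2,2,2],false,1,0,[]),
    (true,[([(0,4,[(16,21)])],[]),([(0,9,[(4,5)]),(0,9,[(4,5)])],[1])],[8,2,2,2],false,2,2,[3]),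
    (true,[([(0,4,[(16,21)]),(0,11,[(3,3)])],[]),([(0,9,[(4,5)]),(0,9,[(4,5)])],[1])],[5,2,2,2],false,1,0,[]),
    (false,[([(0,4,[(16,21)]),(0,6,[(6,7)])],[1,1])],[13,3],false,2,3,[3,4]),
    (true,[([(0,4,[(16,21)]),(0,11,[(3,3)])],[]),([(0,6,[(6,7)])],[4])],[7,2,2],false,2,1,[]),
    (false,[([(0,4,[(16,21)]),(0,6,[(6,7)])],[1,1]),([(0,19,[(4,4)])],[2,1,1,1,1,1,1,1,1,1,1])],[],false,1,0,[]),
    (false,[([(0,4,[(16,21)]),(0,33,[(8,9)])],[1])],[13,2],false,2,1,[]),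
    (true,[([(0,15,[(22,24)])],[3,1])],[6,3,2,2,2,2,1],false,3,2,[])]),
  ([14,8,7,6,5,3,2,1], [
    (false,[],[14,8,7,6,5,3,2,1],true,7,4,[10,15,21,24]),
    (true,[([(0,10,[(8,10)])],[])],[8,7,6,5,4,3,1,1,1],false,7,3,[10]),
    (true,[([(0,10,[(8,10)])],[]),([(0,10,[(8,10)])],[2])],[8,7,5,4],false,4,4,[6,10]),
    (true,[([(0,10,[(8,10)])],[]),([(0,0,[(8,10)]),(0,1,[(5,6)])],[])],[8,6,4,1,1],false,4,2,[6]),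
    (false,[([(0,10,[(8,10)]),(0,0,[(8,10)]),(0,2,[(5,6),(5,6)])],[])],[7,6,1],false,2,1,[]),
    (false,[([(0,10,[(8,10)]),(0,0,[(8,10)]),(0,0,[(7,10)])],[1])],[7,6,2],false,3,2,[4]),
    (true,[([(0,10,[(8,10)]),(0,19,[(4,4)])],[]),([(0,10,[(8,10)])],[]),([(0,0,[(7,10)])],[4,4,3,1])],[],false,1,0,[]),
    (true,[([(0,3,[(11,15)])],[])],[8,7,6,5,1,1,1,1,1],false,5,5,[8,12,14]),
    (false,[([(0,3,[(11,15)]),(0,7,[(6,8)])],[3,1,1,1,1])],[8,6,2],false,2,8,[3,6,8]),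
    (true,[([(0,3,[(11,15)]),(0,11,[(3,3)])],[]),([(0,7,[(6,8)])],[2,2])],[8,5,1,1,1],false,3,3,[]),
    (false,[([(0,3,[(11,15)]),(0,7,[(6,8)]),(0,1,[(4,6)])],[1,1])],[7,6,2],false,3,2,[6]),
    (false,[([(0,3,[(11,15)]),(0,7,[(6,8)]),(0,1,[(4,6)])],[1,1]),([(0,1,[(4,6)])],[3,2,2,2])],[],false,1,0,[3]),
    (true,[([(0,3,[(11,15)]),(0,1,[(4,6)])],[]),([(0,7,[(6,8)])],[2]),([(0,1,[(4,6)]),(0,11,[(2,3)])],[2,2])],[1,1],false,1,0,[2]),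
    (true,[([(0,3,[(11,15)]),(0,1,[(4,6)])],[]),([(0,0,[(6,8),(2,2)]),(0,1,[(4,6)])],[]),([(0,11,[(2,3)])],[1,1,1])],[1,1,1],false,1,0,[]),
    (true,[([(0,3,[(11,15)]),(0,5,[(7,8)])],[]),([(0,7,[(6,8)])],[2])],[6,4,1,1,1],false,3,2,[]),
    (false,[([(0,3,[(11,15)]),(0,2,[(9,12)])],[1,1,1,1])],[8,6,1],true,3,2,[6]),
    (true,[([(0,3,[(11,15)]),(0,1,[(4,6)])],[]),([(0,2,[(9,12)])],[3,2])],[5,1,1,1],false,2,2,[3]),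
    (false,[([(0,3,[(11,15)]),(0,2,[(9,12)]),(0,11,[(3,3)])],[1,1]),([(0,1,[(4,6)])],[2,2,2,2])],[],false,1,0,[]),
    (true,[([(0,3,[(11,15)])],[3]),([(0,35,[(13,14)])],[2])],[7,5],false,2,1,[]),
    (true,[([(0,4,[(16,21)])],[])],[8,7,5,1,1,1,1,1],false,4,5,[6,9]),
    (false,[([(0,4,[(16,21)]),(0,1,[(5,6)])],[1,1,1,1,1])],[8,6],false,2,4,[4,5]),
    (true,[([(0,4,[(16,21)])],[]),([(0,0,[(5,6),(3,4)])],[3,3,3,2])],[1,1,1,1],false,1,0,[3]),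
    (true,[([(0,4,[(16,21)])],[4]),([(0,0,[(5,6),(3,4)]),(0,11,[(2,3)])],[3,1])],[1,1,1,1],false,1,0,[2]),
    (true,[([(0,4,[(16,21)])],[4]),([(0,0,[(5,6),(3,4)]),(1,0,[(2,3),(2,2)])],[1])],[1,1,1,1],false,1,0,[]),
    (true,[([(0,4,[(16,21)])],[1]),([(0,2,[(5,6),(5,5)])],[3,3,3])],[1,1,1],false,1,0,[]),
    (true,[([(0,4,[(16,21)])],[]),([(0,0,[(7,9)])],[3,3,3,2])],[1,1,1,1],false,1,0,[3]),
    (true,[([(0,4,[(16,21)])],[4]),([(0,0,[(7,9)]),(0,11,[(2,3)])],[3,1])],[1,1,1,1],false,1,0,[2]),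
    (true,[([(0,4,[(16,21)])],[4]),([(0,0,[(7,9)]),(1,0,[(2,3),(2,2)])],[1])],[1,1,1,1],false,1,0,[]),
    (true,[([(0,26,[(22,24)])],[3])],[7,5,3,1,1,1,1],false,3,2,[])])]

theorem cj8e_2_ok : runAllJ S43 R43 F43 23 cj8e_2 = true := by decide +kernel

noncomputable def cj8e_3 : List (List ℕ × List NdJ) := [
  ([18,7,6,5,4,3,2,1], [
    (false,[],[18,7,6,5,4,3,2,1],true,7,4,[10,15,21,24]),
    (true,[([(0,10,[(8,10)])],[])],[8,7,6,4,3,1,1,1,1,1,1,1,1],false,6,3,[10]),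
    (true,[([(0,0,[(8,10)]),(0,0,[(7,10)])],[])],[7,5,3,1,1,1,1,1,1,1,1,1,1,1],false,4,3,[6,10]),
    (false,[([(0,10,[(8,10)]),(0,0,[(7,10)]),(0,1,[(5,6)])],[1,1,1,1,1,1])],[6,5,3],false,3,3,[6]),
    (true,[([(0,10,[(8,10)]),(0,1,[(5,6)])],[]),([(0,0,[(7,10)]),(0,1,[(4,6)])],[])],[6,1,1,1,1,1,1,1,1],false,2,3,[3,4]),
    (false,[([(0,0,[(8,10)]),(0,0,[(7,10)])],[1,1,1,1,1,1,1,1,1,1]),([(0,0,[(5,6),(3,3)]),(0,1,[(4,6)])],[])],[],false,1,0,[2]),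
    (false,[([(0,3,[(8,10),(3,3),(2,2)]),(0,0,[(7,10)])],[1,1,1,1,1,1,1,1,1]),([(0,1,[(5,6)]),(0,1,[(4,6)])],[])],[],false,1,0,[]),
    (false,[([(0,3,[(8,10),(4,4)]),(0,0,[(7,10)])],[1,1,1,1,1,1,1,1,1]),([(0,1,[(5,6)]),(0,1,[(4,6)])],[])],[],false,1,0,[]),
    (true,[([(0,10,[(8,10)])],[2,1]),([(0,0,[(7,10)]),(0,0,[(7,10)])],[])],[5,1,1,1,1,1,1,1,1],false,2,4,[3,5]),
    (true,[([(0,10,[(8,10)]),(0,11,[(3,3)])],[]),([(0,0,[(7,10)]),(0,0,[(7,10)])],[])],[5,1,1,1,1,1,1,1,1],false,2,2,[3]),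
    (false,[([(0,0,[(8,10)]),(0,0,[(7,10)])],[1,1,1,1,1,1,1,1,1,1]),([(0,0,[(7,10)]),(0,1,[(3,3),(3,3)])],[])],[],false,1,0,[]),
    (true,[([(0,10,[(8,10)])],[2,1]),([(0,0,[(7,10)]),(0,0,[(7,10)])],[]),([(0,9,[(4,5)])],[1,1])],[1,1,1,1,1,1],false,1,0,[2]),
    (true,[([(0,10,[(8,10)]),(0,11,[(2,2)])],[]),([(0,0,[(7,10)]),(0,0,[(7,10)])],[]),([(0,9,[(4,5)])],[1,1])],[1,1,1,1,1,1],false,1,0,[]),
    (true,[([(0,3,[(11,15)])],[])],[8,7,6,1,1,1,1,1,1,1,1,1,1],false,4,6,[6,8,12,14]),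
    (true,[([(0,3,[(11,15)]),(0,1,[(5,6)])],[])],[7,5,3,1,1,1,1,1,1,1,1,1,1],false,4,3,[6]),
    (false,[([(0,3,[(11,15)]),(0,2,[(5,6),(5,6)])],[1,1,1,1,1,1,1,1])],[6,4,1],true,3,2,[6]),
    (false,[([(0,3,[(11,15)]),(0,2,[(5,6),(5,6)])],[1,1,1,1,1,1,1,1]),([(0,1,[(4,6)])],[2,2,1])],[],false,1,0,[2,3]),
    (false,[([(0,3,[(11,15)]),(0,2,[(5,6),(5,6)])],[1,1,1,1,1,1,1,1]),([(0,1,[(4,6)]),(0,11,[(2,2)])],[2])],[],false,1,0,[2]),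
    (false,[([(0,3,[(11,15)]),(0,0,[(5,6),(2,2),(2,2)])],[1,1,1,1,1,1,1,1,1]),([(0,1,[(5,6)]),(0,1,[(4,6)])],[])],[],false,1,0,[]),
    (false,[([(0,3,[(11,15)]),(0,2,[(5,6),(5,6)])],[1,1,1,1,1,1,1,1]),([(0,1,[(4,6)]),(0,11,[(3,3)])],[2])],[],false,1,0,[]),
    (true,[([(0,3,[(11,15)]),(0,5,[(7,8)])],[])],[6,4,3,1,1,1,1,1,1,1,1,1,1],false,4,3,[6,8]),
    (false,[([(0,3,[(11,15)]),(0,30,[(7,8),(5,6)])],[1,1,1,1,1,1,1])],[6,4],false,2,3,[4]),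
    (false,[([(0,3,[(11,15)]),(0,2,[(7,8),(3,4)])],[1,1,1,1,1,1,1,1]),([(0,1,[(5,6)])],[2,2,1])],[],false,1,0,[2]),
    (false,[([(0,3,[(11,15)]),(0,2,[(7,8),(3,4)])],[1,1,1,1,1,1,1,1]),([(0,1,[(5,6)]),(0,11,[(2,2)])],[2])],[],false,1,0,[]),
    (true,[([(0,3,[(11,15)]),(0,5,[(7,8)])],[]),([(0,7,[(7,8)])],[2,1])],[4,1,1,1,1,1,1,1,1],false,2,1,[]),
    (false,[([(0,3,[(11,15)]),(0,2,[(9,12)])],[1,1,1,1,1,1,1,1])],[6,4,1],true,3,2,[4,6]),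
    (false,[([(0,3,[(11,15)]),(0,2,[(9,12)])],[1,1,1,1,1,1,1,1]),([(0,19,[(4,4)])],[2,2,1,1])],[1],false,1,0,[3]),
    (false,[([(0,3,[(11,15)]),(0,2,[(9,12)])],[1,1,1,1,1,1,1,1]),([(0,19,[(4,4)]),(0,11,[(2,3)])],[2,1])],[1],false,1,0,[2]),
    (false,[([(0,3,[(11,15)]),(0,2,[(9,12)])],[1,1,1,1,1,1,1,1]),([(0,1,[(4,4),(2,2)]),(0,11,[(2,3)])],[2])],[],false,1,0,[]),
    (false,[([(0,3,[(11,15)]),(0,2,[(9,12)])],[1,1,1,1,1,1,1,1]),([(0,1,[(5,6)])],[2,2,1])],[],false,1,0,[2]),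
    (false,[([(0,3,[(11,15)]),(0,2,[(9,12)])],[1,1,1,1,1,1,1,1]),([(0,1,[(5,6)]),(0,11,[(2,2)])],[2])],[],false,1,0,[]),
    (true,[([(0,3,[(11,15)])],[3]),([(0,35,[(13,14)])],[2])],[7,1,1,1,1,1],false,2,1,[]),
    (true,[([(0,4,[(16,21)])],[])],[8,7,1,1,1,1,1,1,1,1,1,1],false,3,7,[5,8,9]),
    (true,[([(0,4,[(16,21)])],[]),([(0,9,[(4,5)])],[1,1,1,1])],[8,1,1,1,1,1,1,1,1],false,2,5,[3,5]),
    (false,[([(0,4,[(16,21)]),(0,7,[(4,5),(3,3)])],[1,1,1,1,1,1,1,1])],[6,3],false,2,3,[3]),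
    (false,[([(0,4,[(16,21)]),(0,7,[(4,5),(3,3)])],[1,1,1,1,1,1,1,1]),([(0,11,[(3,3)])],[2,2,1,1])],[],false,1,0,[2]),
    (false,[([(0,4,[(16,21)]),(0,7,[(4,5),(3,3)])],[1,1,1,1,1,1,1,1]),([(0,11,[(3,3)]),(0,11,[(2,2)])],[2,1])],[],false,1,0,[]),
    (false,[([(0,4,[(16,21)]),(0,9,[(4,5)]),(0,9,[(4,5)])],[1,1,1,1,1,1])],[5,4],false,2,2,[3]),
    (false,[([(0,4,[(16,21)]),(0,9,[(4,5)]),(0,9,[(4,5)])],[1,1,1,1,1,1]),([(0,11,[(3,3)])],[2,2,2])],[],false,1,0,[]),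
    (false,[([(0,4,[(16,21)]),(0,7,[(6,8)])],[1,1,1,1,1,1,1,1])],[6,3],false,2,3,[3,4]),
    (false,[([(0,4,[(16,21)]),(0,7,[(6,8)])],[1,1,1,1,1,1,1,1]),([(0,11,[(3,3)])],[2,2,1,1])],[],false,1,0,[2]),
    (false,[([(0,4,[(16,21)]),(0,7,[(6,8)])],[1,1,1,1,1,1,1,1]),([(0,11,[(3,3)]),(0,11,[(2,2)])],[2,1])],[],false,1,0,[]),
    (false,[([(0,4,[(16,21)]),(0,7,[(6,8)])],[1,1,1,1,1,1,1,1]),([(0,19,[(4,4)])],[2,1,1,1])],[],false,1,0,[]),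
    (false,[([(0,34,[(16,21),(9,9)])],[7,1,1,1,1,1,1,1,1,1])],[],false,1,0,[]),
    (true,[([(0,26,[(22,24)])],[3])],[7,3,1,1,1,1,1,1,1,1,1],false,3,2,[])])]

theorem cj8e_3_ok : runAllJ S43 R43 F43 23 cj8e_3 = true := by decide +kernel

/-- the minors -/
def G8e : List (List ℕ) := [
  [1,1,1,1,1,1,1,1,11,1,1,1,1,1,1,1], [1,1,1,1,1,1,1,11,1,1,1,1,1,1,1,1],
  [1,1,1,1,1,1,1,1,1,6,1,1,1,1,1,1], [1,1,1,1,1,1,6,1,1,1,1,1,1,1,1,1],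
  [1,1,1,1,1,1,1,1,1,1,5,1,1,1,1,1], [1,1,1,1,1,5,1,1,1,1,1,1,1,1,1,1],
  [1,1,1,1,1,1,1,1,1,1,1,4,1,1,1,1], [1,1,1,1,4,1,1,1,1,1,1,1,1,1,1,1],
  [1,1,1,1,1,1,1,1,1,1,1,1,3,1,1,1], [1,1,1,3,1,1,1,1,1,1,1,1,1,1,1,1],
  [1,1,1,1,1,1,1,1,1,1,1,1,1,3,1,1], [1,1,3,1,1,1,1,1,1,1,1,1,1,1,1,1],
  [1,1,1,1,1,1,1,1,1,1,1,1,1,1,3,1], [1,3,1,1,1,1,1,1,1,1,1,1,1,1,1,1],
  [1,1,1,1,1,1,1,1,1,1,1,1,1,1,1,3], [3,1,1,1,1,1,1,1,1,1,1,1,1,1,1,1],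
  [1,1,1,1,1,1,1,5,1,1,3,1,1,1,1,1], [1,1,1,1,1,3,1,1,5,1,1,1,1,1,1,1],
  [2,1,1,1,1,1,1,3,1,1,1,1,1,1,1,1], [1,1,1,1,1,1,1,1,3,1,1,1,1,1,1,2],
  [1,1,1,1,1,2,1,1,1,1,1,1,1,1,1,2], [2,1,1,1,1,1,1,1,1,1,2,1,1,1,1,1],
  [1,1,1,1,1,1,1,1,1,3,1,1,1,1,2,1], [1,2,1,1,1,1,3,1,1,1,1,1,1,1,1,1],
  [1,1,1,1,1,1,1,1,1,3,1,1,1,2,1,1], [1,1,2,1,1,1,3,1,1,1,1,1,1,1,1,1],
  [1,1,1,2,1,1,1,1,1,1,1,2,1,1,1,1], [1,1,1,1,2,1,1,1,1,1,1,1,2,1,1,1],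
  [1,1,1,1,2,1,1,1,1,4,1,1,1,1,1,1], [1,1,1,1,1,1,4,1,1,1,1,2,1,1,1,1],
  [1,1,1,1,2,1,1,1,1,1,1,1,1,2,1,1], [1,1,2,1,1,1,1,1,1,1,1,2,1,1,1,1],
  [1,1,1,1,1,1,1,1,1,2,1,3,1,1,1,1], [1,1,1,1,3,1,2,1,1,1,1,1,1,1,1,1],
  [2,1,1,2,1,1,1,1,1,1,1,1,1,1,1,1], [1,1,1,1,1,1,1,1,1,1,1,1,2,1,1,2],
  [1,1,1,1,1,1,1,1,4,1,1,1,1,1,2,1], [1,2,1,1,1,1,1,4,1,1,1,1,1,1,1,1],
  [1,1,1,1,1,2,1,1,1,1,1,1,1,2,1,1], [1,1,2,1,1,1,1,1,1,1,2,1,1,1,1,1],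
  [1,1,1,1,1,1,1,1,6,1,1,1,2,1,1,1], [1,1,1,2,1,1,1,6,1,1,1,1,1,1,1,1]]

noncomputable def T8e : BT :=
  .split 0 3 (.split 1 3 (.split 2 3 (.split 3 3 (.split 4 4 (.split 5 5 (.split 6 6 (.split 7
  11 (.split 8 11 (.split 9 6 (.split 10 5 (.split 11 4 (.split 12 3 (.split 13 3 (.split 14 3
  (.split 15 3 (.split 15 2 (.split 0 2 (.split 14 2 (.split 1 2 (.split 13 2 (.split 11 2
  (.split 10 3 (.split 4 2 (.split 8 6 .small (.split 5 3 .small (.minor 17))) (.split 9 4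
  (.split 12 2 .small (.minor 27)) (.minor 28))) (.split 2 2 (.split 7 5 (.split 4 2 .small
  (.split 9 4 .small (.minor 28))) (.minor 16)) (.minor 39))) (.split 2 2 (.split 3 2 (.split 6
  4 (.split 4 2 .small (.split 9 4 (.split 12 2 .small (.minor 27)) (.minor 28))) (.minor 29))
  (.minor 26)) (.minor 31))) (.split 4 2 (.split 5 2 (.split 9 3 (.split 2 2 (.split 11 2 .small
  (.split 3 2 .small (.minor 26))) (.split 6 3 (.split 10 2 .small (.minor 39)) (.minor 25)))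
  (.minor 24)) (.minor 38)) (.minor 30))) (.split 6 3 (.split 7 4 (.split 10 3 (.split 13 2
  (.split 11 2 (.split 9 3 (.split 12 2 .small (.split 4 2 .small (.minor 27))) (.split 12 2
  (.split 8 6 .small (.split 5 3 .small (.minor 17))) (.split 4 2 (.split 8 6 .small (.minor
  40)) (.minor 27)))) (.split 2 2 (.split 3 2 (.split 9 3 .small (.split 11 3 (.split 4 2 .small
  (.split 9 4 .small (.minor 28))) (.minor 32))) (.minor 26)) (.minor 31))) (.split 4 2 (.split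
  5 2 (.split 9 3 (.split 11 2 .small (.split 2 2 .small (.minor 31))) (.minor 24)) (.minor 38))
  (.minor 30))) (.split 2 2 (.split 13 2 (.split 11 2 (.split 9 3 (.split 4 2 .small (.split 12
  2 .small (.minor 27))) (.split 4 2 (.split 8 6 .small (.split 5 3 .small (.minor 17))) (.split
  9 4 (.split 12 2 .small (.minor 27)) (.minor 28)))) (.split 3 2 (.split 9 3 (.split 4 2 .small
  (.split 12 2 .small (.minor 27))) (.split 11 3 (.split 4 2 (.split 8 6 .small (.split 5 3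
  .small (.minor 17))) (.split 9 4 (.split 12 2 .small (.minor 27)) (.minor 28))) (.minor 32)))
  (.minor 26))) (.split 4 2 (.split 5 2 (.split 9 3 (.split 11 2 .small (.split 3 2 .small
  (.minor 26))) (.minor 24)) (.minor 38)) (.minor 30))) (.minor 39))) (.minor 37)) (.minor 23)))
  (.split 8 4 (.split 9 3 (.split 1 2 (.split 5 3 (.split 4 2 (.split 2 2 (.split 6 3 (.split 11
  2 .small (.split 3 2 .small (.minor 26))) (.split 11 2 (.split 10 3 .small (.split 7 5 .small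
  (.minor 16))) (.split 3 2 (.split 6 4 .small (.minor 29)) (.minor 26)))) (.split 6 3 (.split
  10 2 (.split 11 2 .small (.minor 31)) (.minor 39)) (.minor 25))) (.split 12 2 (.split 13 2
  (.split 11 2 (.split 10 3 .small (.split 2 2 .small (.minor 39))) (.split 2 2 (.split 3 2
  .small (.minor 26)) (.minor 31))) (.minor 30)) (.minor 27))) (.split 13 2 (.split 2 2 (.split
  6 3 (.split 4 2 (.split 11 2 .small (.split 3 2 .small (.minor 26))) (.split 12 2 (.split 11 2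
  .small (.split 3 2 .small (.minor 26))) (.minor 27))) (.split 4 3 (.split 11 2 (.split 10 3
  (.split 7 6 .small (.split 3 2 .small (.minor 41))) (.split 7 5 (.split 12 2 .small (.split 4
  2 .small (.minor 27))) (.minor 16))) (.split 3 2 (.split 6 4 (.split 10 3 .small (.split 7 5
  .small (.minor 16))) (.minor 29)) (.minor 26))) (.minor 33))) (.split 6 3 (.split 10 2 (.split
  11 2 (.split 4 2 .small (.split 12 2 .small (.minor 27))) (.minor 31)) (.minor 39)) (.minor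
  25))) (.minor 38))) (.split 6 3 (.split 7 4 (.split 10 3 (.split 5 3 (.split 11 2 (.split 4 2
  (.split 13 2 .small (.split 5 2 .small (.minor 38))) (.split 12 2 (.split 13 2 .small (.minor
  30)) (.minor 27))) (.split 2 2 (.split 3 2 (.split 4 2 .small (.split 12 2 .small (.minor
  27))) (.minor 26)) (.minor 31))) (.split 13 2 (.split 11 2 (.split 4 2 .small (.split 12 2
  (.split 2 2 .small (.split 10 2 .small (.minor 39))) (.minor 27))) (.split 2 2 (.split 3 2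
  (.split 4 2 .small (.split 12 2 .small (.minor 27))) (.minor 26)) (.minor 31))) (.minor 38)))
  (.split 2 2 (.split 5 3 (.split 4 2 (.split 11 2 .small (.split 3 2 (.split 13 2 .small
  (.split 5 2 .small (.minor 38))) (.minor 26))) (.split 12 2 (.split 13 2 (.split 11 2 .small
  (.split 3 2 .small (.minor 26))) (.minor 30)) (.minor 27))) (.split 13 2 (.split 11 2 (.split
  4 2 .small (.split 12 2 (.split 3 2 .small (.split 4 3 .small (.split 6 2 .small (.minor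
  33)))) (.minor 27))) (.split 3 2 (.split 4 2 (.split 12 2 .small (.split 11 3 .small (.split 9
  2 .small (.minor 32)))) (.split 12 2 (.split 11 3 (.split 4 3 .small (.split 6 2 .small
  (.minor 33))) (.split 9 2 (.split 4 3 .small (.split 6 2 .small (.minor 33))) (.minor 32)))
  (.minor 27))) (.minor 26))) (.minor 38))) (.minor 39))) (.minor 37)) (.minor 23))) (.minor
  22)) (.minor 36))) (.split 3 2 (.split 7 3 (.split 10 2 (.split 14 2 (.split 8 6 (.split 9 3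
  (.split 13 2 (.split 11 2 (.split 12 2 .small (.split 4 2 .small (.minor 27))) (.split 2 2
  (.split 6 4 (.split 1 2 .small (.split 6 3 (.split 4 2 .small (.split 12 2 .small (.minor
  27))) (.minor 23))) (.minor 29)) (.minor 31))) (.split 4 2 (.split 5 2 (.split 11 2 .small
  (.split 2 2 .small (.minor 31))) (.minor 38)) (.minor 30))) (.split 11 3 (.split 13 2 (.split
  1 2 (.split 4 2 (.split 5 3 .small (.split 8 5 .small (.minor 17))) (.split 9 4 (.split 12 2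
  .small (.minor 27)) (.minor 28))) (.split 6 3 (.split 12 2 (.split 5 3 (.split 9 4 .small
  (.split 4 2 .small (.minor 28))) (.split 8 5 (.split 9 4 .small (.split 4 2 .small (.minor
  28))) (.minor 17))) (.split 4 2 (.split 5 3 (.split 9 4 .small (.split 8 3 .small (.split 2 2
  .small (.split 11 2 .small (.minor 31))))) (.split 8 5 (.split 9 4 .small (.split 2 2 .small
  (.split 11 2 .small (.minor 31)))) (.minor 17))) (.minor 27))) (.minor 23))) (.minor 24))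
  (.minor 32))) (.split 5 3 (.split 12 2 (.split 9 3 (.split 11 2 (.split 13 2 .small (.split 4
  2 (.split 5 2 .small (.minor 38)) (.minor 30))) (.split 2 2 (.split 6 4 (.split 13 2 (.split 1
  2 .small (.split 6 3 .small (.minor 23))) (.split 4 2 (.split 5 2 .small (.minor 38)) (.minor
  30))) (.minor 29)) (.minor 31))) (.split 11 3 (.split 13 2 (.split 1 2 (.split 8 8 (.split 6 3
  .small (.split 2 2 .small (.minor 25))) (.split 6 3 (.split 4 2 .small (.split 9 4 .small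
  (.minor 28))) (.split 2 2 .small (.minor 25)))) (.split 6 3 (.split 9 4 (.split 8 8 .small
  (.split 4 2 .small (.split 11 2 .small (.split 2 2 .small (.minor 31))))) (.split 4 2 (.split
  8 8 .small (.split 11 2 .small (.split 2 2 .small (.minor 31)))) (.minor 28))) (.minor 23)))
  (.minor 24)) (.minor 32))) (.minor 40)) (.minor 17))) (.split 8 4 (.split 9 3 (.split 5 3
  (.split 11 2 (.split 4 2 (.split 6 3 (.split 1 2 .small (.split 13 2 .small (.split 5 2 .small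
  (.minor 38)))) (.split 1 2 .small (.minor 23))) (.split 12 2 (.split 13 2 (.split 6 3 .small
  (.split 1 2 .small (.minor 23))) (.minor 30)) (.minor 27))) (.split 2 2 (.split 6 4 (.split 4
  2 (.split 1 2 .small (.split 6 3 (.split 13 2 .small (.split 5 2 .small (.minor 38))) (.minor
  23))) (.split 12 2 (.split 13 2 (.split 1 2 .small (.split 6 3 .small (.minor 23))) (.minor
  30)) (.minor 27))) (.minor 29)) (.minor 31))) (.split 13 2 (.split 11 2 (.split 6 3 (.split 4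
  2 .small (.split 12 2 (.split 1 2 .small (.split 2 2 .small (.split 4 3 .small (.split 6 2
  .small (.minor 33))))) (.minor 27))) (.split 1 2 (.split 2 2 (.split 4 3 .small (.minor 33))
  (.minor 25)) (.minor 23))) (.split 2 2 (.split 6 4 (.split 4 2 (.split 1 2 .small (.split 6 3
  (.split 12 2 .small (.split 11 3 .small (.split 9 2 .small (.minor 32)))) (.minor 23)))
  (.split 12 2 (.split 1 2 .small (.split 6 3 (.split 11 3 (.split 4 3 .small (.split 6 2 .small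
  (.minor 33))) (.split 9 2 (.split 4 3 .small (.split 6 2 .small (.minor 33))) (.minor 32)))
  (.minor 23))) (.minor 27))) (.minor 29)) (.minor 31))) (.minor 38))) (.minor 22)) (.minor
  36))) (.minor 21)) (.minor 18)) (.minor 34))) (.split 5 2 (.split 8 3 (.split 12 2 (.split 0 2
  (.split 1 2 (.split 7 6 (.split 6 3 (.split 4 2 (.split 2 2 (.split 11 2 .small (.split 3 2
  .small (.minor 26))) (.split 10 2 (.split 11 2 .small (.minor 31)) (.minor 39))) (.split 9 4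
  (.split 13 2 (.split 2 2 (.split 14 2 .small (.split 9 3 (.split 11 2 .small (.split 3 2
  .small (.minor 26))) (.minor 22))) (.split 10 2 (.split 11 2 .small (.minor 31)) (.minor 39)))
  (.minor 30)) (.minor 28))) (.split 2 2 (.split 4 3 (.split 14 2 (.split 11 2 (.split 10 3
  .small (.split 7 5 .small (.minor 16))) (.split 3 2 (.split 6 4 .small (.minor 29)) (.minor
  26))) (.split 9 3 (.split 11 2 (.split 10 3 (.split 13 2 .small (.split 4 2 .small (.minor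
  30))) (.split 7 5 (.split 13 2 .small (.split 4 2 .small (.minor 30))) (.minor 16))) (.split 3
  2 (.split 6 4 (.split 10 3 .small (.split 7 5 .small (.minor 16))) (.minor 29)) (.minor 26)))
  (.minor 22))) (.minor 33)) (.minor 25))) (.split 3 2 (.split 10 3 (.split 6 3 (.split 4 2
  (.split 2 2 .small (.split 10 2 (.split 11 2 .small (.minor 31)) (.minor 39))) (.split 9 4
  (.split 13 2 (.split 14 2 (.split 11 2 .small (.split 2 2 .small (.minor 31))) (.split 9 3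
  (.split 2 2 .small (.split 10 2 (.split 11 2 .small (.minor 31)) (.minor 39))) (.minor 22)))
  (.minor 30)) (.minor 28))) (.split 2 2 (.split 4 3 (.split 14 2 (.split 11 2 .small (.split 6
  4 (.split 9 3 .small (.split 11 3 .small (.minor 32))) (.minor 29))) (.split 9 3 (.split 11 2
  (.split 7 8 .small (.split 6 4 .small (.split 13 2 .small (.split 4 2 .small (.minor 30)))))
  (.split 6 4 (.split 7 8 .small (.split 13 2 .small (.split 4 2 .small (.minor 30)))) (.minor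
  29))) (.minor 22))) (.minor 33)) (.minor 25))) (.minor 16)) (.minor 41))) (.split 6 3 (.split
  7 4 (.split 10 3 (.split 11 2 (.split 4 2 (.split 9 3 (.split 14 2 .small (.split 2 2 .small
  (.split 10 2 .small (.minor 39)))) (.split 13 2 (.split 14 2 .small (.minor 22)) (.minor 24)))
  (.split 9 4 (.split 13 2 (.split 14 2 .small (.split 9 3 (.split 2 2 .small (.split 10 2
  .small (.minor 39))) (.minor 22))) (.minor 30)) (.minor 28))) (.split 2 2 (.split 3 2 (.split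
  4 2 (.split 9 3 .small (.split 11 3 .small (.minor 32))) (.split 9 4 (.split 13 2 (.split 14 2
  .small (.split 9 3 .small (.minor 22))) (.minor 30)) (.minor 28))) (.minor 26)) (.minor 31)))
  (.split 2 2 (.split 4 2 (.split 11 2 (.split 9 3 .small (.split 13 2 (.split 14 2 .small
  (.minor 22)) (.minor 24))) (.split 3 2 (.split 9 3 (.split 14 2 .small (.split 13 2 .small
  (.split 11 3 .small (.split 9 2 .small (.minor 32))))) (.split 11 3 (.split 13 2 .small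
  (.minor 24)) (.minor 32))) (.minor 26))) (.split 9 4 (.split 13 2 (.split 14 2 (.split 11 2
  .small (.split 3 2 .small (.minor 26))) (.split 9 3 (.split 11 2 (.split 3 2 .small (.split 4
  3 .small (.split 6 2 .small (.minor 33)))) (.split 3 2 (.split 4 3 (.split 11 3 .small (.split
  9 2 .small (.minor 32))) (.split 6 2 (.split 11 3 .small (.split 9 2 .small (.minor 32)))
  (.minor 33))) (.minor 26))) (.minor 22))) (.minor 30)) (.minor 28))) (.minor 39))) (.minor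
  37)) (.minor 23))) (.split 3 2 (.split 7 3 (.split 10 2 (.split 14 2 (.split 9 3 (.split 11 2
  (.split 6 3 (.split 4 2 .small (.split 13 2 .small (.minor 30))) (.split 1 2 .small (.minor
  23))) (.split 2 2 (.split 6 4 (.split 4 2 .small (.split 13 2 .small (.minor 30))) (.minor
  29)) (.minor 31))) (.split 11 3 (.split 13 2 (.split 1 2 (.split 6 3 .small (.split 2 2 .small
  (.minor 25))) (.split 6 3 (.split 4 2 .small (.split 9 4 (.split 2 2 .small (.split 11 2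
  .small (.minor 31))) (.minor 28))) (.minor 23))) (.minor 24)) (.minor 32))) (.split 9 3
  (.split 6 3 (.split 11 2 (.split 4 2 .small (.split 13 2 (.split 1 2 .small (.split 2 2 .small
  (.split 4 3 .small (.split 6 2 .small (.minor 33))))) (.minor 30))) (.split 2 2 (.split 4 2
  (.split 1 2 .small (.split 13 2 .small (.split 11 3 .small (.split 9 2 .small (.minor 32)))))
  (.split 13 2 (.split 1 2 .small (.split 11 3 (.split 4 3 .small (.split 6 2 .small (.minor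
  33))) (.split 9 2 (.split 4 3 .small (.split 6 2 .small (.minor 33))) (.minor 32)))) (.minor
  30))) (.minor 31))) (.split 1 2 (.split 2 2 (.split 4 3 (.split 11 2 .small (.split 6 4
  (.split 13 2 .small (.split 4 2 .small (.minor 30))) (.minor 29))) (.minor 33)) (.minor 25))
  (.minor 23))) (.minor 22))) (.minor 21)) (.minor 18)) (.minor 34))) (.minor 35)) (.minor 19))
  (.minor 20))) (.minor 14)) (.minor 12)) (.minor 10)) (.minor 8)) (.minor 6)) (.minor 4))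
  (.minor 2)) (.minor 0)) (.minor 1)) (.minor 3)) (.minor 5)) (.minor 7)) (.minor 9)) (.minor
  11)) (.minor 13)) (.minor 15)

noncomputable def Rt8e : List (List ℕ) :=
  cj8e_0.map Prod.fst ++ cj8e_1.map Prod.fst ++ cj8e_2.map Prod.fst ++ cj8e_3.map Prod.fst

theorem Rt8e_ok : ∀ M ∈ Rt8e, KG (M : Multiset ℕ) 23 := by
  intro M h
  unfold Rt8e at h
  simp only [List.mem_append] at h
  rcases h with ((h | h) | h) | h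
  · exact kg_of_allJ S43_ok R43_ok F43_ok cj8e_0_ok M h
  · exact kg_of_allJ S43_ok R43_ok F43_ok cj8e_1_ok M h
  · exact kg_of_allJ S43_ok R43_ok F43_ok cj8e_2_ok M h
  · exact kg_of_allJ S43_ok R43_ok F43_ok cj8e_3_ok M h

def ks8e : List ℕ := [
  40, 41, 36, 37, 34, 35, 28, 29, 8, 9, 12, 13, 14, 15, 16, 17, 31, 30, 19, 18, 7, 6, 24, 25, 22,
  23, 0, 1, 20, 21, 5, 4, 26, 27, 11, 10, 32, 33, 3, 2, 38, 39]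

theorem min8e_ok : minC 8 Rt8e G8e ks8e = true := by decide +kernel

theorem T8e_ok : btC 8 100 G8e T8e (List.replicate (2 * 8) 1)
    (List.replicate (2 * 8) 0) = true := by decide +kernel

theorem kg8e {M : Multiset ℕ} (hM : ∀ s ∈ M, 1 ≤ s)
    (hc : M.dedup.card = 8) (hn : 100 ≤ M.sum) : KG M 23 :=
  coverC ks8e T8e Rt8e_ok min8e_ok T8e_ok hM hc hn

noncomputable def cj9c_0 : List (List ℕ × List NdJ) := [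
  ([10,8,7,6,5,4,3,2,1], [
    (false,[],[10,8,7,6,5,4,3,2,1],false,8,3,[12,17,23,24]),
    (true,[([(0,2,[(9,12)])],[])],[9,8,7,6,4],false,5,4,[8,11,12]),
    (false,[([(0,2,[(9,12)]),(0,7,[(6,8)])],[1])],[8,7,6,4],false,4,4,[6,8]),
    (true,[([(0,2,[(9,12)]),(0,7,[(6,8)])],[]),([(0,1,[(5,6)])],[2,2,1])],[8,7],false,2,6,[4,6]),
    (false,[([(0,2,[(9,12)]),(0,7,[(6,8)])],[1]),([(0,0,[(5,6),(3,4)])],[4,4,4,3])],[],false,1,0,[2,3,4]),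
    (false,[([(0,2,[(9,12)]),(0,0,[(6,8),(2,2)])],[1]),([(0,0,[(5,6),(3,4)])],[4,4,3,2])],[],false,1,0,[2]),
    (false,[([(0,2,[(9,12)]),(0,0,[(6,8),(2,2)])],[3]),([(0,0,[(5,6),(3,4)]),(0,11,[(2,2)])],[4,4])],[],false,1,0,[2]),
    (false,[([(0,2,[(9,12)]),(0,0,[(6,8),(2,2)])],[4]),([(0,0,[(5,6),(3,4)]),(1,0,[(2,2),(2,2)])],[4])],[],false,1,0,[2]),
    (false,[([(0,2,[(9,12)]),(0,0,[(6,8),(2,2)])],[4]),([(0,0,[(5,6),(3,4)]),(1,0,[(2,2),(2,2),(2,2)])],[4])],[],false,1,0,[]),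
    (false,[([(0,3,[(9,12),(3,3)]),(0,7,[(6,8)])],[1]),([(0,0,[(5,6),(3,4)])],[4,3,3,2])],[],false,1,0,[3]),
    (false,[([(0,3,[(9,12),(3,3)]),(0,7,[(6,8)])],[3]),([(0,0,[(5,6),(3,4)]),(0,11,[(2,3)])],[4,3])],[],false,1,0,[2]),
    (false,[([(0,3,[(9,12),(3,3)]),(0,0,[(6,8),(2,2)])],[1]),([(0,0,[(5,6),(3,4)]),(0,11,[(2,3)])],[4,3])],[],false,1,0,[]),
    (true,[([(0,2,[(9,12)]),(0,7,[(6,8)])],[]),([(0,0,[(5,6),(3,4)]),(0,19,[(4,4)])],[3,3])],[6],false,1,0,[2]),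
    (true,[([(0,2,[(9,12)]),(0,0,[(6,8),(2,2)])],[]),([(0,0,[(5,6),(3,4)]),(0,19,[(4,4)])],[3,2])],[5],false,1,0,[]),
    (true,[([(0,2,[(9,12)]),(0,7,[(6,8)])],[]),([(0,1,[(5,6)]),(0,1,[(5,6)])],[3,3])],[7,1],true,2,2,[3]),
    (false,[([(0,3,[(9,12),(3,3)]),(0,2,[(5,6),(5,6)])],[]),([(0,7,[(6,8)])],[3,3,3,2])],[],false,1,0,[]),
    (true,[([(0,2,[(9,12)]),(0,7,[(6,8)])],[]),([(0,7,[(7,8)])],[3,3,3,2])],[7],false,1,0,[5]),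
    (false,[([(0,2,[(9,12)]),(1,2,[(2,5)])],[]),([(0,7,[(6,8)]),(0,5,[(7,8)])],[3])],[],false,1,0,[4]),
    (false,[([(0,2,[(9,12)]),(1,2,[(2,5),(2,4)])],[]),([(0,7,[(6,8)]),(0,5,[(7,8)])],[3])],[],false,1,0,[3]),
    (false,[([(0,2,[(9,12)]),(1,2,[(2,5),(2,4),(2,3)])],[]),([(0,7,[(6,8)]),(0,5,[(7,8)])],[3])],[],false,1,0,[2]),
    (false,[([(0,2,[(9,12)]),(1,2,[(2,5),(2,4),(2,3)])],[]),([(0,0,[(6,8),(2,2)]),(0,5,[(7,8)])],[1])],[],false,1,0,[]),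
    (true,[([(0,2,[(9,12)]),(0,18,[(9,11)])],[])],[8,7,4,3,1],false,5,1,[8]),
    (false,[([(0,2,[(9,12)]),(0,18,[(9,11)])],[2]),([(0,7,[(6,8)])],[4,4,3,2])],[],false,1,0,[3]),
    (true,[([(0,2,[(9,12)]),(0,7,[(6,8)])],[]),([(0,18,[(9,11)]),(0,11,[(2,3)])],[3,2])],[7],false,1,0,[2]),
    (false,[([(0,2,[(9,12)]),(0,18,[(9,11)])],[2]),([(0,0,[(6,8),(2,2)]),(0,11,[(2,3)])],[4,4])],[],false,1,0,[]),
    (true,[([(0,2,[(9,12)]),(0,36,[(12,12)])],[])],[8,6,5,2,1],false,5,1,[]),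
    (true,[([(0,31,[(13,17)])],[])],[9,8,7,5],false,4,5,[6,10,12]),
    (true,[([(0,31,[(13,17)]),(0,1,[(5,6)])],[])],[8,7,5,3],false,4,3,[6]),
    (false,[([(0,31,[(13,17)]),(0,1,[(5,6)])],[5]),([(0,1,[(5,6)])],[3,3,3,2,1])],[],false,1,0,[2,4]),
    (true,[([(0,31,[(13,17)])],[4,4,3]),([(0,7,[(5,6),(2,2)]),(0,1,[(5,6)])],[4])],[],false,1,0,[2]),
    (true,[([(0,31,[(13,17)]),(0,1,[(5,6)])],[]),([(0,0,[(5,6),(2,2),(2,2)])],[4,4,3,2])],[],false,1,0,[2]),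
    (true,[([(0,31,[(13,17)])],[4,4,3]),([(0,0,[(5,6),(2,2),(2,2)]),(0,7,[(5,6),(2,2)])],[])],[],false,1,0,[]),
    (true,[([(0,31,[(13,17)]),(0,1,[(5,6)])],[]),([(0,0,[(5,6),(3,4)])],[4,4,3,2])],[],false,1,0,[2]),
    (true,[([(0,31,[(13,17)])],[4,4,3]),([(0,0,[(5,6),(3,4)]),(0,7,[(5,6),(2,2)])],[])],[],false,1,0,[]),
    (true,[([(0,31,[(13,17)])],[]),([(0,0,[(7,10)])],[4,4,4,4,3])],[],false,1,0,[2,4,6]),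
    (true,[([(0,31,[(13,17)]),(0,11,[(2,2)])],[]),([(0,0,[(7,10)])],[4,4,4,3,1])],[],false,1,0,[2]),
    (true,[([(0,31,[(13,17)]),(1,0,[(2,2),(2,2)])],[]),([(0,0,[(7,10)])],[4,4,3,2])],[],false,1,0,[2]),
    (true,[([(0,31,[(13,17)]),(1,0,[(2,2),(2,2),(2,2)])],[]),([(0,0,[(7,10)])],[4,4,3,2])],[],false,1,0,[2]),
    (true,[([(0,31,[(13,17)])],[3,2]),([(0,0,[(7,10)]),(1,1,[(2,2),(2,2),(2,2),(2,2)])],[4])],[],false,1,0,[2]),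
    (true,[([(0,31,[(13,17)])],[3,2]),([(0,0,[(7,10)]),(1,1,[(2,2),(2,2),(2,2),(2,2),(2,2)])],[4])],[],false,1,0,[]),
    (true,[([(0,31,[(13,17)])],[3,2]),([(0,0,[(7,10)]),(1,1,[(3,4)])],[4])],[],false,1,0,[2,3,4]),
    (true,[([(0,31,[(13,17)]),(0,1,[(3,4),(2,2)])],[]),([(0,0,[(7,10)])],[4,4,3,2])],[],false,1,0,[2]),
    (true,[([(0,31,[(13,17)])],[3,2]),([(0,0,[(7,10)]),(1,1,[(3,4),(2,2),(2,2)])],[4])],[],false,1,0,[2]),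
    (true,[([(0,31,[(13,17)])],[3,2]),([(0,0,[(7,10)]),(1,1,[(3,4),(2,2),(2,2),(2,2)])],[4])],[],false,1,0,[]),
    (true,[([(0,31,[(13,17)])],[3,2]),([(0,0,[(7,10)]),(1,1,[(3,4),(3,3)])],[4])],[],false,1,0,[2]),
    (true,[([(0,31,[(13,17)])],[3,2]),([(0,0,[(7,10)]),(1,1,[(3,4),(3,3),(2,2)])],[4])],[],false,1,0,[]),
    (true,[([(0,31,[(13,17)])],[4,4,3]),([(0,0,[(7,10)]),(0,7,[(3,4),(4,4)])],[])],[],false,1,0,[]),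
    (true,[([(0,31,[(13,17)]),(0,1,[(5,6)])],[]),([(0,0,[(7,10)])],[4,4,3,2])],[],false,1,0,[2]),
    (true,[([(0,31,[(13,17)])],[4,4,3]),([(0,0,[(7,10)]),(0,7,[(5,6),(2,2)])],[])],[],false,1,0,[]),
    (true,[([(0,31,[(13,17)])],[1]),([(0,36,[(11,12)])],[4,4,4,3,1])],[],false,1,0,[2]),
    (true,[([(0,31,[(13,17)]),(0,11,[(2,2)])],[2]),([(0,36,[(11,12)])],[4,4,3,1])],[],false,1,0,[]),
    (true,[([(0,25,[(18,23)])],[])],[9,8,6],false,3,6,[6,7]),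
    (true,[([(0,25,[(18,23)])],[]),([(0,1,[(4,6)])],[3,3,3,3,3,2])],[],false,1,0,[3,4]),
    (true,[([(0,25,[(18,23)]),(0,11,[(2,3)])],[]),([(0,1,[(4,6)])],[3,3,3,3,2])],[],false,1,0,[3]),
    (true,[([(0,25,[(18,23)])],[5,3]),([(0,1,[(4,6)]),(0,11,[(2,3)]),(0,11,[(2,3)])],[3])],[],false,1,0,[2]),
    (true,[([(0,25,[(18,23)])],[5,3]),([(0,1,[(4,6)]),(1,0,[(2,3),(2,2)]),(0,11,[(2,3)])],[])],[],false,1,0,[]),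
    (true,[([(0,25,[(18,23)]),(0,19,[(4,4)])],[]),([(0,1,[(4,6)])],[3,3,3,3,1])],[],false,1,0,[]),
    (false,[([(0,34,[(18,23),(7,7)])],[7,1])],[8],false,1,0,[]),
    (false,[([(0,26,[(24,24)])],[6,3,1])],[8,4],false,1,0,[])]),
  ([10,9,7,6,5,4,3,2,1], [
    (false,[],[10,9,7,6,5,4,3,2,1],false,8,3,[12,17,23,24]),
    (false,[([(0,2,[(9,12)])],[4])],[10,9,7,5],false,4,5,[6,10,12]),
    (true,[([(0,2,[(9,12)]),(0,1,[(5,6)])],[4])],[8,7,5,3,2],false,5,2,[6]),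
    (true,[([(0,2,[(9,12)]),(0,1,[(5,6)])],[4]),([(0,1,[(6,6)])],[3,1])],[8,7],false,2,6,[4,6]),
    (true,[([(0,2,[(9,12)]),(0,0,[(5,6),(3,4)])],[]),([(0,1,[(6,6)])],[3,1])],[8,7],false,2,4,[3,4]),
    (true,[([(0,3,[(9,12),(3,3)]),(0,0,[(5,6),(3,4)])],[]),([(0,1,[(6,6)])],[3,2,1])],[8,2],false,2,2,[3]),
    (true,[([(0,4,[(9,12),(6,6),(3,3)]),(0,11,[(3,3)])],[]),([(0,0,[(5,6),(3,4)])],[4,3,3,2,1])],[],false,1,0,[]),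
    (true,[([(0,2,[(9,12)]),(0,0,[(5,6),(3,4)])],[]),([(0,1,[(6,6)]),(0,19,[(4,4)])],[3,1])],[8,3],false,2,1,[]),
    (true,[([(0,2,[(9,12)]),(0,1,[(5,6)])],[4]),([(0,1,[(6,6)]),(0,1,[(5,6)])],[2])],[8,3],false,2,2,[3]),
    (false,[([(0,4,[(9,12),(6,6),(3,3)]),(0,1,[(5,6)])],[]),([(0,1,[(5,6)])],[3,3,3,2,1,1,1])],[],false,1,0,[]),
    (true,[([(0,2,[(9,12)]),(0,0,[(7,10)])],[])],[8,7,5,3,2],false,5,2,[8,10]),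
    (false,[([(0,2,[(9,12)]),(0,0,[(7,10)])],[]),([(0,7,[(6,8)])],[4,4,3,3,2,1])],[],false,1,0,[3,5]),
    (false,[([(0,2,[(9,12)]),(0,0,[(7,10)])],[]),([(0,7,[(6,8)]),(0,11,[(2,3)])],[4,4,3,3])],[],false,1,0,[3]),
    (false,[([(0,2,[(9,12)]),(0,0,[(7,10)])],[]),([(0,7,[(6,8)]),(1,1,[(2,3),(2,3)])],[4,3])],[],false,1,0,[3]),
    (false,[([(0,2,[(9,12)]),(0,0,[(7,10)])],[]),([(0,7,[(6,8)]),(1,1,[(2,3),(2,3),(2,3)])],[4,3])],[],false,1,0,[2]),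
    (false,[([(0,2,[(9,12)]),(0,0,[(7,10)])],[]),([(0,0,[(6,8),(2,2)]),(1,1,[(2,3),(2,3),(2,3)])],[4,1])],[],false,1,0,[]),
    (false,[([(0,2,[(9,12)]),(0,0,[(7,10)])],[]),([(0,7,[(6,8)]),(0,1,[(4,5)])],[4,4,3])],[],false,1,0,[2]),
    (false,[([(0,2,[(9,12)]),(0,0,[(7,10)])],[]),([(0,0,[(6,8),(2,2)]),(0,9,[(4,5)])],[4,4,2])],[],false,1,0,[]),
    (false,[([(0,2,[(9,12)]),(0,0,[(7,10)])],[]),([(0,0,[(9,10)])],[4,4,3,2,1,1])],[],false,1,0,[2]),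
    (false,[([(0,2,[(9,12)]),(0,0,[(7,10)])],[]),([(0,0,[(9,10)]),(0,11,[(2,2)])],[4,4,3,1])],[],false,1,0,[]),
    (false,[([(0,2,[(9,12)]),(0,36,[(11,12)])],[])],[10,6,5,2],false,4,2,[6]),
    (true,[([(0,2,[(9,12)]),(0,36,[(11,12)])],[]),([(0,1,[(5,6)])],[3,2,2])],[8,2],false,2,1,[]),
    (false,[([(0,31,[(13,17)])],[5])],[10,9,6],false,3,6,[5,8,11,12]),
    (false,[([(0,31,[(13,17)]),(0,9,[(4,5)])],[5])],[9,7,4],false,3,4,[4,5]),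
    (true,[([(0,4,[(13,17),(4,4)]),(0,9,[(4,5)])],[])],[8,7,4,2],false,4,2,[]),
    (true,[([(0,31,[(13,17)])],[5]),([(0,0,[(4,5),(5,5)])],[4,3,3,3,2])],[],false,1,0,[4,5]),
    (true,[([(0,31,[(13,17)])],[5,2]),([(0,0,[(4,5),(5,5)]),(1,1,[(2,4)])],[3])],[],false,1,0,[2,3,4]),
    (true,[([(0,31,[(13,17)])],[5,2]),([(0,0,[(4,5),(5,5)]),(1,1,[(2,4),(2,2)])],[3])],[],false,1,0,[2]),
    (true,[([(0,31,[(13,17)])],[5,2]),([(0,0,[(4,5),(5,5)]),(1,1,[(2,4),(2,2),(2,2)])],[3])],[],false,1,0,[2]),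
    (true,[([(0,31,[(13,17)])],[5,2]),([(0,0,[(4,5),(5,5)]),(1,1,[(2,4),(2,2),(2,2),(2,2)])],[3])],[],false,1,0,[]),
    (true,[([(0,31,[(13,17)])],[5,2]),([(0,0,[(4,5),(5,5)]),(1,1,[(2,4),(3,3)])],[3])],[],false,1,0,[2]),
    (true,[([(0,31,[(13,17)])],[5,2]),([(0,0,[(4,5),(5,5)]),(1,1,[(2,4),(3,3),(2,2)])],[3])],[],false,1,0,[]),
    (true,[([(0,4,[(13,17),(4,4)])],[2,1]),([(0,0,[(4,5),(5,5)]),(1,1,[(2,4)])],[3])],[],false,1,0,[]),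
    (true,[([(0,31,[(13,17)])],[5,3,3]),([(0,0,[(4,5),(5,5)]),(0,9,[(5,5)])],[4])],[],false,1,0,[]),
    (true,[([(0,31,[(13,17)])],[5,1]),([(0,7,[(6,8)])],[4,3,3,3,3])],[],false,1,0,[2,3,4,6,7]),
    (true,[([(0,31,[(13,17)])],[5]),([(0,0,[(6,8),(2,2)])],[4,3,3,3,2])],[],false,1,0,[2]),
    (true,[([(0,31,[(13,17)]),(0,11,[(2,2)])],[5]),([(0,0,[(6,8),(2,2)])],[4,3,3,2])],[],false,1,0,[2]),
    (true,[([(0,31,[(13,17)])],[5,2]),([(0,0,[(6,8),(2,2)]),(1,0,[(2,2),(2,2)])],[4,3])],[],false,1,0,[2]),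
    (true,[([(0,31,[(13,17)])],[5,2]),([(0,0,[(6,8),(2,2)]),(1,0,[(2,2),(2,2),(2,2)])],[4,3])],[],false,1,0,[2]),
    (true,[([(0,31,[(13,17)])],[5,2]),([(0,0,[(6,8),(2,2)]),(1,1,[(2,2),(2,2),(2,2),(2,2)])],[3])],[],false,1,0,[2]),
    (true,[([(0,31,[(13,17)])],[5,2]),([(0,0,[(6,8),(2,2)]),(1,1,[(2,2),(2,2),(2,2),(2,2),(2,2)])],[3])],[],false,1,0,[]),
    (true,[([(0,31,[(13,17)])],[5,4,3]),([(0,7,[(6,8)]),(0,11,[(3,3)])],[4,3])],[],false,1,0,[3]),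
    (true,[([(0,31,[(13,17)])],[5,4,3]),([(0,7,[(6,8)]),(0,1,[(3,3),(2,3)])],[4])],[],false,1,0,[2,3]),
    (true,[([(0,31,[(13,17)])],[5,2]),([(0,0,[(6,8),(2,2)]),(0,1,[(3,3),(2,3)])],[4,3])],[],false,1,0,[2]),
    (true,[([(0,31,[(13,17)])],[5,2]),([(0,0,[(6,8),(2,2)]),(1,1,[(3,3),(2,3),(2,2)])],[3])],[],false,1,0,[2]),
    (true,[([(0,31,[(13,17)])],[5,2]),([(0,0,[(6,8),(2,2)]),(1,1,[(3,3),(2,3),(2,2),(2,2)])],[3])],[],false,1,0,[]),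
    (true,[([(0,31,[(13,17)])],[5,4,3]),([(0,7,[(6,8)]),(1,1,[(3,3),(2,3),(3,3)])],[])],[],false,1,0,[2]),
    (true,[([(0,31,[(13,17)])],[5,2]),([(0,0,[(6,8),(2,2)]),(1,1,[(3,3),(2,3),(3,3)])],[3])],[],false,1,0,[]),
    (false,[([(0,4,[(13,17),(4,4)]),(0,7,[(6,8)])],[])],[9,6,3],false,3,3,[4]),
    (false,[([(0,4,[(13,17),(4,4)]),(0,7,[(6,8)])],[]),([(0,19,[(4,4)])],[2,1,1,1])],[9],false,1,0,[]),
    (true,[([(0,31,[(13,17)])],[5,4,3]),([(0,7,[(6,8)]),(0,1,[(5,6)])],[4])],[],false,1,0,[2,3]),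
    (true,[([(0,31,[(13,17)])],[5,2]),([(0,0,[(6,8),(2,2)]),(0,1,[(5,6)])],[4,3])],[],false,1,0,[2]),
    (true,[([(0,31,[(13,17)])],[5,4,3]),([(0,0,[(6,8),(2,2)]),(0,7,[(5,6),(2,2)])],[])],[],false,1,0,[]),
    (true,[([(0,31,[(13,17)])],[5,4,3]),([(0,7,[(6,8)]),(0,0,[(5,6),(3,3)])],[])],[],false,1,0,[]),
    (true,[([(0,31,[(13,17)])],[5,5,5]),([(0,7,[(6,8)]),(0,6,[(7,7)])],[])],[],false,1,0,[]),
    (true,[([(0,31,[(13,17)])],[5]),([(0,18,[(9,11)])],[4,3,3,2,2])],[],false,1,0,[4]),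
    (true,[([(0,31,[(13,17)])],[5,1]),([(0,18,[(9,11)]),(1,1,[(2,4)])],[3])],[],false,1,0,[3]),
    (true,[([(0,31,[(13,17)])],[5,1]),([(0,18,[(9,11)]),(1,1,[(2,4),(2,3)])],[3])],[],false,1,0,[2]),
    (true,[([(0,31,[(13,17)])],[5,1]),([(0,18,[(9,11)]),(1,1,[(2,4),(2,3),(2,2)])],[3])],[],false,1,0,[]),
    (false,[([(0,32,[(13,17),(12,12)])],[6,5])],[7],false,1,0,[]),
    (true,[([(0,25,[(18,23)])],[6,3])],[8,5,2],true,3,3,[6,7]),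
    (true,[([(0,25,[(18,23)])],[6]),([(0,1,[(4,6)])],[3,2,2,2,2,1])],[],false,1,0,[3,4]),
    (true,[([(0,25,[(18,23)])],[6]),([(0,1,[(4,6)]),(0,11,[(2,3)])],[3,2,2,2])],[],false,1,0,[3]),
    (true,[([(0,25,[(18,23)])],[6,3]),([(0,1,[(4,6)]),(0,11,[(2,3)]),(0,11,[(2,3)])],[3])],[],false,1,0,[2]),
    (true,[([(0,25,[(18,23)])],[6,3]),([(0,1,[(4,6)]),(1,0,[(2,3),(2,2)]),(0,11,[(2,3)])],[])],[],false,1,0,[]),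
    (true,[([(0,25,[(18,23)])],[6]),([(0,1,[(4,6)]),(0,19,[(4,4)])],[3,2,2,1])],[],false,1,0,[]),
    (false,[([(0,34,[(18,23),(7,7)])],[7])],[10],false,1,0,[]),
    (false,[([(0,26,[(24,24)])],[6,3])],[10,4],false,1,0,[])]),
  ([10,9,8,6,5,4,3,2,1], [
    (false,[],[10,9,8,6,5,4,3,2,1],false,8,3,[12,17,23,24]),
    (true,[([(0,2,[(9,12)])],[4])],[9,8,7,5,3],false,5,3,[8,11,12]),
    (true,[([(0,2,[(9,12)]),(0,7,[(6,8)])],[])],[8,7,6,4,3],false,5,3,[7,8]),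
    (true,[([(0,2,[(9,12)])],[4]),([(0,3,[(6,8),(6,7)])],[5,5,4,3])],[],false,1,0,[2,4,6]),
    (true,[([(0,2,[(9,12)]),(0,11,[(2,2)])],[4]),([(0,3,[(6,8),(6,7)])],[5,5,3,1])],[],false,1,0,[2]),
    (true,[([(0,2,[(9,12)])],[4,4,2]),([(0,3,[(6,8),(6,7)]),(1,0,[(2,2),(2,2)])],[5])],[],false,1,0,[2]),
    (true,[([(0,2,[(9,12)])],[4,4,2]),([(0,3,[(6,8),(6,7)]),(1,0,[(2,2),(2,2),(2,2)])],[5])],[],false,1,0,[2]),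
    (true,[([(0,2,[(9,12)])],[5,4,2]),([(0,3,[(6,8),(6,7)]),(1,1,[(2,2),(2,2),(2,2),(2,2)])],[])],[],false,1,0,[2]),
    (true,[([(0,2,[(9,12)])],[5,4,2]),([(0,3,[(6,8),(6,7)]),(1,1,[(2,2),(2,2),(2,2),(2,2),(2,2)])],[])],[],false,1,0,[]),
    (true,[([(0,2,[(9,12)])],[5,4,2]),([(0,3,[(6,8),(6,7)]),(1,1,[(3,4)])],[])],[],false,1,0,[2,3,4]),
    (true,[([(0,2,[(9,12)])],[4,4,2]),([(0,3,[(6,8),(6,7)]),(0,1,[(3,4),(2,2)])],[5])],[],false,1,0,[2]),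
    (true,[([(0,2,[(9,12)])],[5,4,2]),([(0,3,[(6,8),(6,7)]),(1,1,[(3,4),(2,2),(2,2)])],[])],[],false,1,0,[2]),
    (true,[([(0,2,[(9,12)])],[5,4,2]),([(0,3,[(6,8),(6,7)]),(1,1,[(3,4),(2,2),(2,2),(2,2)])],[])],[],false,1,0,[]),
    (false,[([(0,3,[(9,12),(3,3)]),(0,3,[(6,8),(6,7)])],[]),([(1,1,[(3,4)])],[3,2,1,1,1])],[],false,1,0,[2]),
    (false,[([(0,3,[(9,12),(3,3)]),(0,3,[(6,8),(6,7)])],[]),([(0,1,[(3,4),(2,2)])],[2,1])],[9],false,1,0,[]),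
    (true,[([(0,2,[(9,12)]),(0,7,[(3,4),(4,4)])],[]),([(0,3,[(6,8),(6,7)])],[5,5,3])],[],false,1,0,[]),
    (true,[([(0,2,[(9,12)])],[4,4,2]),([(0,3,[(6,8),(6,7)]),(0,1,[(5,6)])],[5])],[],false,1,0,[2]),
    (true,[([(0,2,[(9,12)]),(0,7,[(5,6),(2,2)])],[]),([(0,3,[(6,8),(6,7)])],[5,5,3])],[],false,1,0,[]),
    (true,[([(0,2,[(9,12)]),(0,7,[(6,8)])],[]),([(0,5,[(8,8)])],[3,1,1])],[8,7],false,2,3,[4]),
    (true,[([(0,4,[(9,12),(8,8)])],[3,2]),([(0,7,[(6,8)]),(1,1,[(3,4)])],[4])],[],false,1,0,[2]),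
    (true,[([(0,4,[(9,12),(8,8)])],[2,1]),([(0,0,[(6,8),(2,2)]),(1,1,[(3,4)])],[4])],[],false,1,0,[]),
    (false,[([(0,2,[(9,12)]),(0,18,[(9,11)])],[])],[10,8,4,3],false,4,3,[6,8]),
    (true,[([(0,2,[(9,12)]),(0,18,[(9,11)])],[]),([(0,1,[(5,6)])],[3,3,1,1])],[8,3],false,2,3,[4]),
    (true,[([(0,2,[(9,12)])],[4,4,2]),([(0,3,[(9,11),(3,4)]),(0,1,[(5,6)])],[5])],[],false,1,0,[2]),
    (true,[([(0,2,[(9,12)]),(0,7,[(5,6),(2,2)])],[]),([(0,3,[(9,11),(3,4)])],[5,5,3])],[],false,1,0,[]),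
    (true,[([(0,2,[(9,12)]),(0,18,[(9,11)])],[]),([(0,5,[(7,8)])],[3,1,1,1])],[8,3],false,2,1,[]),
    (true,[([(0,2,[(9,12)]),(0,36,[(12,12)])],[])],[8,6,5,3,2],false,5,2,[]),
    (true,[([(0,31,[(13,17)])],[5])],[9,8,6,3],false,4,3,[5,8,11,12]),
    (false,[([(0,31,[(13,17)]),(0,9,[(5,5)])],[5])],[9,8,4],false,3,4,[5]),
    (true,[([(0,31,[(13,17)])],[5]),([(0,0,[(5,5),(4,5)])],[4,4,3,3,2])],[],false,1,0,[4,5]),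
    (true,[([(0,31,[(13,17)])],[5,2]),([(0,0,[(5,5),(4,5)]),(1,1,[(2,4)])],[4])],[],false,1,0,[2,3,4]),
    (true,[([(0,31,[(13,17)])],[5,2]),([(0,0,[(5,5),(4,5)]),(1,1,[(2,4),(2,2)])],[4])],[],false,1,0,[2]),
    (true,[([(0,31,[(13,17)])],[5,2]),([(0,0,[(5,5),(4,5)]),(1,1,[(2,4),(2,2),(2,2)])],[4])],[],false,1,0,[2]),
    (true,[([(0,31,[(13,17)])],[5,2]),([(0,0,[(5,5),(4,5)]),(1,1,[(2,4),(2,2),(2,2),(2,2)])],[4])],[],false,1,0,[]),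
    (true,[([(0,31,[(13,17)])],[5,2]),([(0,0,[(5,5),(4,5)]),(1,1,[(2,4),(3,3)])],[4])],[],false,1,0,[2]),
    (true,[([(0,31,[(13,17)])],[5,2]),([(0,0,[(5,5),(4,5)]),(1,1,[(2,4),(3,3),(2,2)])],[4])],[],false,1,0,[]),
    (true,[([(0,4,[(13,17),(4,4)])],[2,1]),([(0,0,[(5,5),(4,5)]),(1,1,[(2,4)])],[4])],[],false,1,0,[]),
    (true,[([(0,31,[(13,17)])],[6,5,3]),([(0,0,[(5,5),(4,5)]),(0,9,[(5,5)])],[2])],[],false,1,0,[]),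
    (true,[([(0,31,[(13,17)])],[5,1]),([(0,7,[(6,8)])],[4,4,3,3,3])],[],false,1,0,[2,3,4,6,7]),
    (true,[([(0,31,[(13,17)])],[5]),([(0,0,[(6,8),(2,2)])],[4,4,3,3,2])],[],false,1,0,[2]),
    (true,[([(0,31,[(13,17)]),(0,11,[(2,2)])],[5]),([(0,0,[(6,8),(2,2)])],[4,4,3,2])],[],false,1,0,[2]),
    (true,[([(0,31,[(13,17)])],[5,2]),([(0,0,[(6,8),(2,2)]),(1,0,[(2,2),(2,2)])],[4,4])],[],false,1,0,[2]),
    (true,[([(0,31,[(13,17)])],[5,2]),([(0,0,[(6,8),(2,2)]),(1,0,[(2,2),(2,2),(2,2)])],[4,4])],[],false,1,0,[2]),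
    (true,[([(0,31,[(13,17)])],[5,2]),([(0,0,[(6,8),(2,2)]),(1,1,[(2,2),(2,2),(2,2),(2,2)])],[4])],[],false,1,0,[2]),
    (true,[([(0,31,[(13,17)])],[5,2]),([(0,0,[(6,8),(2,2)]),(1,1,[(2,2),(2,2),(2,2),(2,2),(2,2)])],[4])],[],false,1,0,[]),
    (true,[([(0,31,[(13,17)])],[5,4,3]),([(0,7,[(6,8)]),(0,11,[(3,3)])],[4,4])],[],false,1,0,[3]),
    (true,[([(0,31,[(13,17)])],[5,5,3]),([(0,7,[(6,8)]),(0,1,[(3,3),(2,3)])],[4])],[],false,1,0,[2,3]),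
    (true,[([(0,31,[(13,17)])],[5,2]),([(0,0,[(6,8),(2,2)]),(0,1,[(3,3),(2,3)])],[4,4])],[],false,1,0,[2]),
    (true,[([(0,31,[(13,17)])],[5,2]),([(0,0,[(6,8),(2,2)]),(1,1,[(3,3),(2,3),(2,2)])],[4])],[],false,1,0,[2]),
    (true,[([(0,31,[(13,17)])],[5,2]),([(0,0,[(6,8),(2,2)]),(1,1,[(3,3),(2,3),(2,2),(2,2)])],[4])],[],false,1,0,[]),
    (true,[([(0,31,[(13,17)])],[5,5,3]),([(0,7,[(6,8)]),(1,1,[(3,3),(2,3),(3,3)])],[])],[],false,1,0,[2]),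
    (true,[([(0,31,[(13,17)])],[5,2]),([(0,0,[(6,8),(2,2)]),(1,1,[(3,3),(2,3),(3,3)])],[4])],[],false,1,0,[]),
    (true,[([(0,4,[(13,17),(4,4)])],[1,1]),([(0,7,[(6,8)])],[4,4,3,3,3])],[],false,1,0,[4]),
    (true,[([(0,4,[(13,17),(4,4)])],[3,2]),([(0,7,[(6,8)]),(1,1,[(2,4)])],[4])],[],false,1,0,[3]),
    (true,[([(0,4,[(13,17),(4,4)])],[3,2]),([(0,7,[(6,8)]),(1,1,[(2,4),(2,3)])],[4])],[],false,1,0,[2]),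
    (true,[([(0,4,[(13,17),(4,4)])],[2,1]),([(0,0,[(6,8),(2,2)]),(1,1,[(2,4),(2,3)])],[4])],[],false,1,0,[]),
    (true,[([(0,31,[(13,17)])],[5,5,3]),([(0,7,[(6,8)]),(0,1,[(5,6)])],[4])],[],false,1,0,[2,3]),
    (true,[([(0,31,[(13,17)])],[5,2]),([(0,0,[(6,8),(2,2)]),(0,1,[(5,6)])],[4,4])],[],false,1,0,[2]),
    (true,[([(0,31,[(13,17)])],[5,5,3]),([(0,0,[(6,8),(2,2)]),(0,7,[(5,6),(2,2)])],[])],[],false,1,0,[]),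
    (true,[([(0,31,[(13,17)])],[5,5,3]),([(0,7,[(6,8)]),(0,0,[(5,6),(3,3)])],[])],[],false,1,0,[]),
    (true,[([(0,31,[(13,17)])],[5,2]),([(0,7,[(6,8)]),(0,5,[(7,7)])],[4,4])],[],false,1,0,[]),
    (true,[([(0,31,[(13,17)])],[5]),([(0,18,[(9,11)])],[4,4,3,2,2])],[],false,1,0,[4]),
    (true,[([(0,31,[(13,17)])],[5,1]),([(0,18,[(9,11)]),(1,1,[(2,4)])],[4])],[],false,1,0,[3]),
    (true,[([(0,31,[(13,17)])],[5,1]),([(0,18,[(9,11)]),(1,1,[(2,4),(2,3)])],[4])],[],false,1,0,[2]),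
    (true,[([(0,31,[(13,17)])],[5,1]),([(0,18,[(9,11)]),(1,1,[(2,4),(2,3),(2,2)])],[4])],[],false,1,0,[]),
    (false,[([(0,32,[(13,17),(12,12)])],[6,5])],[8],false,1,0,[]),
    (true,[([(0,25,[(18,23)])],[6])],[9,7,3],false,3,3,[6,7]),
    (true,[([(0,25,[(18,23)])],[6]),([(0,1,[(4,6)])],[3,3,2,2,2,1])],[],false,1,0,[2,3,4]),
    (true,[([(0,25,[(18,23)])],[6]),([(0,1,[(4,6)]),(0,11,[(2,2)])],[3,3,2,2])],[],false,1,0,[2]),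
    (true,[([(0,25,[(18,23)])],[6]),([(0,1,[(4,6)]),(1,0,[(2,2),(2,2)])],[3,2,2])],[],false,1,0,[2]),
    (true,[([(0,25,[(18,23)])],[6]),([(0,1,[(4,6)]),(1,0,[(2,2),(2,2),(2,2)])],[3,2,2])],[],false,1,0,[]),
    (true,[([(0,25,[(18,23)])],[6]),([(0,1,[(4,6)]),(0,11,[(3,3)])],[3,3,2,2])],[],false,1,0,[2]),
    (true,[([(0,25,[(18,23)])],[6,3]),([(0,1,[(4,6)]),(0,9,[(3,3),(2,2)])],[3,2])],[],false,1,0,[]),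
    (true,[([(0,25,[(18,23)])],[6]),([(0,1,[(4,6)]),(0,19,[(4,4)])],[3,3,2,1])],[],false,1,0,[]),
    (false,[([(0,34,[(18,23),(7,7)])],[7,2])],[9],false,1,0,[]),
    (false,[([(0,26,[(24,24)])],[6,3,2])],[9,4],false,1,0,[])]),
  ([10,9,8,7,5,4,3,2,1], [
    (false,[],[10,9,8,7,5,4,3,2,1],false,8,3,[12,17,23,24]),
    (true,[([(0,2,[(9,12)])],[4])],[9,8,7,5,4],false,5,4,[8,11,12]),
    (false,[([(0,2,[(9,12)]),(0,7,[(6,8)])],[])],[10,8,7,4],false,4,4,[6,8]),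
    (false,[([(0,2,[(9,12)]),(0,7,[(6,8)])],[]),([(0,1,[(5,6)])],[3,3,3,2,2])],[10],false,1,0,[2,3,6]),
    (true,[([(0,2,[(9,12)]),(0,0,[(6,8),(2,2)])],[]),([(0,1,[(5,6)])],[3,3])],[8,7],false,2,5,[]),
    (true,[([(0,3,[(9,12),(3,3)]),(0,7,[(6,8)])],[]),([(0,1,[(5,6)])],[3,2])],[8,7],false,2,4,[3]),
    (true,[([(0,3,[(9,12),(3,3)]),(0,7,[(6,8)])],[]),([(0,1,[(5,6)]),(0,11,[(3,3)])],[3,1])],[8,5],false,2,2,[3]),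
    (false,[([(0,3,[(9,12),(3,3)]),(0,7,[(6,8)])],[2]),([(0,1,[(5,6)]),(0,1,[(3,3),(3,3)])],[2,1])],[9],false,1,0,[]),
    (true,[([(0,2,[(9,12)]),(0,7,[(6,8)])],[]),([(0,1,[(5,6)]),(0,1,[(4,6)])],[3,3])],[7,4],false,2,3,[3,4]),
    (true,[([(0,3,[(9,12),(3,3)]),(0,7,[(6,8)])],[]),([(0,1,[(5,6)]),(0,1,[(4,6)])],[1])],[8,5],false,2,1,[]),
    (false,[([(0,2,[(9,12)]),(0,7,[(6,8)])],[]),([(0,1,[(5,6)]),(0,1,[(4,6)]),(0,19,[(4,4)])],[3,3])],[7],false,1,0,[]),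
    (true,[([(0,2,[(9,12)]),(0,7,[(6,8)])],[]),([(0,5,[(7,8)])],[3,3,2,1])],[8,4],false,2,4,[3,5]),
    (true,[([(0,3,[(9,12),(3,3)]),(0,7,[(6,8)])],[]),([(0,5,[(7,8)])],[2,1])],[8,7],false,2,2,[3]),
    (false,[([(0,3,[(9,12),(3,3)]),(0,7,[(6,8)])],[2]),([(0,18,[(7,8),(3,3)])],[4,3,2,2,2])],[],false,1,0,[]),
    (true,[([(0,2,[(9,12)]),(0,7,[(6,8)])],[]),([(0,5,[(7,8)]),(0,9,[(4,5)])],[3,2])],[7,4],false,2,1,[]),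
    (false,[([(0,2,[(9,12)]),(0,18,[(9,11)])],[2])],[9,8,4,3],false,4,3,[6,8]),
    (true,[([(0,2,[(9,12)]),(0,18,[(9,11)])],[]),([(0,1,[(5,6)])],[3,3,1,1])],[8,4],false,2,3,[4]),
    (false,[([(0,2,[(9,12)]),(0,3,[(9,11),(3,4)])],[]),([(0,1,[(5,6)])],[2,2,1,1,1])],[9],false,1,0,[2]),
    (false,[([(0,2,[(9,12)]),(0,3,[(9,11),(3,4)])],[]),([(0,1,[(5,6)]),(0,11,[(2,2)])],[2,1,1])],[9],false,1,0,[]),
    (true,[([(0,2,[(9,12)]),(0,18,[(9,11)])],[]),([(0,5,[(7,8)])],[3])],[8,7],false,2,1,[]),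
    (true,[([(0,2,[(9,12)]),(0,36,[(12,12)])],[])],[8,6,5,4,2],false,5,2,[]),
    (true,[([(0,31,[(13,17)])],[5])],[9,8,6,4],false,4,4,[6,10,12]),
    (false,[([(0,31,[(13,17)]),(0,1,[(5,6)])],[5])],[9,8,4],false,3,4,[4,5,6]),
    (false,[([(0,4,[(13,17),(4,4)]),(0,1,[(5,6)])],[])],[10,8,4],false,3,4,[4]),
    (true,[([(0,4,[(13,17),(4,4)]),(0,1,[(5,6)])],[]),([(0,19,[(4,4)])],[2,2])],[8,6],false,2,1,[]),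
    (false,[([(0,31,[(13,17)]),(0,1,[(5,6)])],[5]),([(0,1,[(5,5)])],[3,3,3,2,2,2])],[],false,1,0,[2,4]),
    (true,[([(0,31,[(13,17)])],[5,5,5]),([(0,7,[(5,6),(2,2)]),(0,9,[(5,5)])],[4])],[],false,1,0,[2]),
    (true,[([(0,31,[(13,17)])],[5,5,3]),([(0,0,[(5,6),(2,2),(2,2)]),(0,9,[(5,5)])],[4])],[],false,1,0,[2]),
    (true,[([(0,31,[(13,17)])],[5,5,5]),([(0,0,[(5,6),(2,2),(2,2)]),(0,6,[(5,5),(2,2)])],[])],[],false,1,0,[]),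
    (true,[([(0,31,[(13,17)])],[5,5,3]),([(0,0,[(5,6),(3,4)]),(0,9,[(5,5)])],[4])],[],false,1,0,[2]),
    (true,[([(0,31,[(13,17)])],[5,5,5]),([(0,0,[(5,6),(3,4)]),(0,6,[(5,5),(2,2)])],[])],[],false,1,0,[]),
    (true,[([(0,25,[(13,17),(6,6)])],[6]),([(0,1,[(5,6)])],[3,3,3,2,2,1])],[],false,1,0,[3]),
    (true,[([(0,25,[(13,17),(6,6)])],[6]),([(0,1,[(5,6)]),(0,11,[(2,3)])],[3,3,3,2])],[],false,1,0,[2]),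
    (true,[([(0,25,[(13,17),(6,6)])],[6]),([(0,1,[(5,6)]),(1,0,[(2,3),(2,2)])],[3,3,2])],[],false,1,0,[]),
    (true,[([(0,31,[(13,17)])],[5]),([(0,0,[(7,10)])],[4,4,4,3,2])],[],false,1,0,[2,4,5,6]),
    (true,[([(0,31,[(13,17)]),(0,11,[(2,2)])],[5]),([(0,0,[(7,10)])],[4,4,4,2])],[],false,1,0,[2]),
    (true,[([(0,31,[(13,17)])],[5,5]),([(0,0,[(7,10)]),(1,0,[(2,2),(2,2)])],[4,2])],[],false,1,0,[2]),
    (true,[([(0,31,[(13,17)])],[5,5]),([(0,0,[(7,10)]),(1,0,[(2,2),(2,2),(2,2)])],[4,2])],[],false,1,0,[2]),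
    (true,[([(0,31,[(13,17)])],[5,5]),([(0,0,[(7,10)]),(1,1,[(2,2),(2,2),(2,2),(2,2)])],[2])],[],false,1,0,[2]),
    (true,[([(0,31,[(13,17)])],[5,5]),([(0,0,[(7,10)]),(1,1,[(2,2),(2,2),(2,2),(2,2),(2,2)])],[2])],[],false,1,0,[]),
    (true,[([(0,31,[(13,17)])],[5,5]),([(0,0,[(7,10)]),(1,1,[(3,4)])],[2])],[],false,1,0,[2,3,4]),
    (true,[([(0,31,[(13,17)])],[5,5]),([(0,0,[(7,10)]),(0,1,[(3,4),(2,2)])],[4,2])],[],false,1,0,[2]),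
    (true,[([(0,31,[(13,17)])],[5,5]),([(0,0,[(7,10)]),(1,1,[(3,4),(2,2),(2,2)])],[2])],[],false,1,0,[2]),
    (true,[([(0,31,[(13,17)])],[5,5]),([(0,0,[(7,10)]),(1,1,[(3,4),(2,2),(2,2),(2,2)])],[2])],[],false,1,0,[]),
    (true,[([(0,31,[(13,17)])],[5,5]),([(0,0,[(7,10)]),(1,1,[(3,4),(3,3)])],[2])],[],false,1,0,[2]),
    (true,[([(0,31,[(13,17)])],[5,5]),([(0,0,[(7,10)]),(1,1,[(3,4),(3,3),(2,2)])],[2])],[],false,1,0,[]),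
    (true,[([(0,4,[(13,17),(4,4)])],[5,1]),([(0,0,[(7,10)]),(1,1,[(3,4)])],[2])],[],false,1,0,[]),
    (true,[([(0,31,[(13,17)])],[5,5,3]),([(0,0,[(7,10)]),(0,9,[(5,5)])],[4])],[],false,1,0,[2]),
    (true,[([(0,31,[(13,17)])],[5,5,5]),([(0,0,[(7,10)]),(0,6,[(5,5),(2,2)])],[])],[],false,1,0,[]),
    (true,[([(0,31,[(13,17)])],[5,5]),([(0,0,[(7,10)]),(0,1,[(6,6)])],[4,2])],[],false,1,0,[]),
    (true,[([(0,31,[(13,17)])],[5]),([(0,36,[(11,12)])],[4,4,3,3,1])],[],false,1,0,[2]),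
    (true,[([(0,31,[(13,17)]),(0,11,[(2,2)])],[5]),([(0,36,[(11,12)])],[4,4,3,1])],[],false,1,0,[]),
    (true,[([(0,25,[(18,23)])],[6])],[9,7,4],false,3,4,[6,7]),
    (true,[([(0,25,[(18,23)])],[6]),([(0,1,[(4,6)])],[3,3,3,2,2,1])],[],false,1,0,[2,3,4]),
    (true,[([(0,25,[(18,23)])],[6]),([(0,1,[(4,6)]),(0,11,[(2,2)])],[3,3,3,2])],[],false,1,0,[2]),
    (true,[([(0,25,[(18,23)])],[6]),([(0,1,[(4,6)]),(1,0,[(2,2),(2,2)])],[3,3,2])],[],false,1,0,[2]),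
    (true,[([(0,25,[(18,23)])],[6]),([(0,1,[(4,6)]),(1,0,[(2,2),(2,2),(2,2)])],[3,3,2])],[],false,1,0,[]),
    (true,[([(0,25,[(18,23)])],[6]),([(0,1,[(4,6)]),(0,11,[(3,3)])],[3,3,3,2])],[],false,1,0,[2]),
    (true,[([(0,25,[(18,23)])],[6,3]),([(0,1,[(4,6)]),(0,9,[(3,3),(2,2)])],[3,3])],[],false,1,0,[]),
    (true,[([(0,25,[(18,23)])],[6]),([(0,1,[(4,6)]),(0,19,[(4,4)])],[3,3,3,1])],[],false,1,0,[]),
    (false,[([(0,34,[(18,23),(7,7)])],[7,3])],[9],false,1,0,[]),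
    (false,[([(0,26,[(24,24)])],[6,3,3])],[9,4],false,1,0,[])]),
  ([10,9,8,7,6,4,3,2,1], [
    (false,[],[10,9,8,7,6,4,3,2,1],false,8,3,[12,16,21,24]),
    (true,[([(0,2,[(9,12)])],[4,2])],[9,8,6,5,4],false,5,4,[8,11,12]),
    (true,[([(0,2,[(9,12)]),(0,7,[(6,8)])],[])],[8,7,6,5,4],false,5,4,[7,8]),
    (true,[([(0,2,[(9,12)])],[4,2]),([(0,3,[(6,8),(6,7)])],[5,5,5,2])],[],false,1,0,[2,4,6]),
    (true,[([(0,2,[(9,12)]),(0,11,[(2,2)])],[4]),([(0,3,[(6,8),(6,7)])],[5,5,5,1])],[],false,1,0,[2]),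
    (true,[([(0,2,[(9,12)])],[4,4,4]),([(0,3,[(6,8),(6,7)]),(1,0,[(2,2),(2,2)])],[5])],[],false,1,0,[2]),
    (true,[([(0,2,[(9,12)])],[4,4,4]),([(0,3,[(6,8),(6,7)]),(1,0,[(2,2),(2,2),(2,2)])],[5])],[],false,1,0,[2]),
    (true,[([(0,2,[(9,12)])],[5,4,4]),([(0,3,[(6,8),(6,7)]),(1,1,[(2,2),(2,2),(2,2),(2,2)])],[])],[],false,1,0,[2]),
    (true,[([(0,2,[(9,12)])],[5,4,4]),([(0,3,[(6,8),(6,7)]),(1,1,[(2,2),(2,2),(2,2),(2,2),(2,2)])],[])],[],false,1,0,[]),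
    (true,[([(0,2,[(9,12)])],[5,4,4]),([(0,3,[(6,8),(6,7)]),(1,1,[(3,4)])],[])],[],false,1,0,[2,3,4]),
    (true,[([(0,2,[(9,12)])],[4,4,4]),([(0,3,[(6,8),(6,7)]),(0,1,[(3,4),(2,2)])],[5])],[],false,1,0,[2]),
    (true,[([(0,2,[(9,12)])],[5,4,4]),([(0,3,[(6,8),(6,7)]),(1,1,[(3,4),(2,2),(2,2)])],[])],[],false,1,0,[2]),
    (true,[([(0,2,[(9,12)])],[5,4,4]),([(0,3,[(6,8),(6,7)]),(1,1,[(3,4),(2,2),(2,2),(2,2)])],[])],[],false,1,0,[]),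
    (false,[([(0,3,[(9,12),(3,3)]),(0,3,[(6,8),(6,7)])],[]),([(1,1,[(3,4)])],[3,2,2,2,1])],[],false,1,0,[2]),
    (false,[([(0,3,[(9,12),(3,3)]),(0,3,[(6,8),(6,7)])],[]),([(0,1,[(3,4),(2,2)])],[2,1,1,1])],[9],false,1,0,[]),
    (true,[([(0,2,[(9,12)]),(0,7,[(3,4),(4,4)])],[]),([(0,3,[(6,8),(6,7)])],[5,5,5])],[],false,1,0,[]),
    (true,[([(0,2,[(9,12)])],[4,4,4]),([(0,3,[(6,8),(6,7)]),(0,1,[(5,6)])],[5])],[],false,1,0,[2]),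
    (true,[([(0,2,[(9,12)]),(0,7,[(5,6),(2,2)])],[]),([(0,3,[(6,8),(6,7)])],[5,5,5])],[],false,1,0,[]),
    (true,[([(0,2,[(9,12)]),(0,7,[(6,8)])],[]),([(0,5,[(8,8)])],[3,3,1])],[8,7],false,2,3,[4]),
    (true,[([(0,4,[(9,12),(8,8)])],[5,5]),([(0,7,[(6,8)]),(1,1,[(3,4)])],[1])],[],false,1,0,[2]),
    (true,[([(0,4,[(9,12),(8,8)])],[4,1]),([(0,0,[(6,8),(2,2)]),(1,1,[(3,4)])],[4])],[],false,1,0,[]),
    (true,[([(0,2,[(9,12)]),(0,18,[(9,11)])],[])],[8,7,5,4,3],false,5,3,[8]),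
    (true,[([(0,2,[(9,12)]),(0,18,[(9,11)])],[]),([(0,7,[(6,8)])],[4,4,3])],[8],false,1,0,[2,3]),
    (false,[([(0,2,[(9,12)]),(0,18,[(9,11)])],[3]),([(0,0,[(6,8),(2,2)])],[4,4,2,2,2])],[],false,1,0,[2]),
    (true,[([(0,2,[(9,12)]),(0,7,[(6,8)])],[]),([(0,3,[(9,11),(2,2),(2,2)])],[5,5,5])],[],false,1,0,[]),
    (false,[([(0,3,[(9,12),(3,3)]),(0,18,[(9,11)])],[]),([(0,7,[(6,8)])],[4,3,3,2,2,2])],[],false,1,0,[]),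
    (true,[([(0,2,[(9,12)]),(0,12,[(12,12)])],[])],[8,6,5,4,2],false,5,2,[]),
    (true,[([(0,37,[(13,16)])],[5,3,3])],[8,6,5,4],false,4,4,[6,10,12]),
    (false,[([(0,37,[(13,16)]),(0,1,[(5,6)])],[5])],[9,8,6],false,3,6,[5,6]),
    (true,[([(0,4,[(13,16),(4,5)]),(0,1,[(5,6)])],[])],[8,6,5,4],false,4,4,[5]),
    (false,[([(0,4,[(13,16),(4,5)]),(0,1,[(5,6)])],[3]),([(0,9,[(5,5)])],[3,3,3,2,2,2])],[],false,1,0,[]),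
    (true,[([(0,23,[(13,16),(5,6),(6,6)])],[])],[9,8,5],false,3,2,[]),
    (true,[([(0,37,[(13,16)])],[5,3,3]),([(0,0,[(7,10)])],[4,4,4,1])],[],false,1,0,[2,4,6]),
    (true,[([(0,37,[(13,16)])],[5,4,4]),([(0,0,[(7,10)]),(0,11,[(2,2)])],[4,4])],[],false,1,0,[2]),
    (true,[([(0,37,[(13,16)])],[5,5,4]),([(0,0,[(7,10)]),(1,0,[(2,2),(2,2)])],[4])],[],false,1,0,[2]),
    (true,[([(0,37,[(13,16)])],[5,5,4]),([(0,0,[(7,10)]),(1,0,[(2,2),(2,2),(2,2)])],[4])],[],false,1,0,[2]),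
    (true,[([(0,37,[(13,16)])],[5,5,4]),([(0,0,[(7,10)]),(1,1,[(2,2),(2,2),(2,2),(2,2)])],[])],[],false,1,0,[2]),
    (true,[([(0,37,[(13,16)])],[5,5,4]),([(0,0,[(7,10)]),(1,1,[(2,2),(2,2),(2,2),(2,2),(2,2)])],[])],[],false,1,0,[]),
    (true,[([(0,37,[(13,16)])],[5,5,4]),([(0,0,[(7,10)]),(1,1,[(3,4)])],[])],[],false,1,0,[2,3,4]),
    (true,[([(0,37,[(13,16)])],[5,5,4]),([(0,0,[(7,10)]),(0,1,[(3,4),(2,2)])],[4])],[],false,1,0,[2]),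
    (true,[([(0,37,[(13,16)])],[5,5,4]),([(0,0,[(7,10)]),(1,1,[(3,4),(2,2),(2,2)])],[])],[],false,1,0,[2]),
    (true,[([(0,37,[(13,16)])],[5,5,4]),([(0,0,[(7,10)]),(1,1,[(3,4),(2,2),(2,2),(2,2)])],[])],[],false,1,0,[]),
    (true,[([(0,37,[(13,16)])],[5,5,4]),([(0,0,[(7,10)]),(1,1,[(3,4),(3,3)])],[])],[],false,1,0,[2]),
    (true,[([(0,4,[(13,16),(3,3),(2,2)])],[4,1]),([(0,0,[(7,10)]),(1,1,[(3,4)])],[4])],[],false,1,0,[]),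
    (true,[([(0,4,[(13,16),(4,4)])],[4,1]),([(0,0,[(7,10)]),(1,1,[(3,4)])],[4])],[],false,1,0,[]),
    (true,[([(0,37,[(13,16)])],[5,5,4]),([(0,0,[(7,10)]),(0,1,[(5,6)])],[4])],[],false,1,0,[2]),
    (true,[([(0,31,[(13,16)])],[5,5,5]),([(0,0,[(7,10)]),(0,7,[(5,6),(2,2)])],[])],[],false,1,0,[]),
    (false,[([(0,23,[(13,16),(11,12)])],[3])],[10,9],false,2,1,[]),
    (true,[([(0,4,[(17,21)])],[])],[9,8,7,5],false,4,5,[6,8]),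
    (true,[([(0,4,[(17,21)]),(0,1,[(5,6)])],[])],[8,6,5,4],false,4,3,[]),
    (false,[([(0,4,[(17,21)]),(0,5,[(7,8)])],[])],[10,7,4],false,2,1,[]),
    (true,[([(0,26,[(22,24)])],[6])],[9,7,4],false,3,2,[])])]

theorem cj9c_0_ok : runAllJ S43 R43 F43 23 cj9c_0 = true := by decide +kernel

noncomputable def cj9c_1 : List (List ℕ × List NdJ) := [
  ([10,9,8,7,6,5,3,2,1], [
    (false,[],[10,9,8,7,6,5,3,2,1],false,8,3,[12,17,23,24]),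
    (true,[([(0,2,[(9,12)])],[4])],[9,8,7,6,5],false,5,5,[8,11,12]),
    (false,[([(0,2,[(9,12)]),(0,7,[(6,8)])],[])],[10,8,7,6],false,4,6,[6,8]),
    (true,[([(0,2,[(9,12)]),(0,7,[(6,8)])],[]),([(0,1,[(5,6)])],[3,3,3,2])],[8,6],false,2,6,[3,6]),
    (true,[([(0,3,[(9,12),(3,3)]),(0,7,[(6,8)])],[]),([(0,1,[(5,6)])],[3,2,2])],[8,7],false,2,4,[3]),
    (true,[([(0,3,[(9,12),(3,3)]),(0,7,[(6,8)])],[]),([(0,1,[(5,6)]),(0,11,[(3,3)])],[3,2])],[8,6],false,2,2,[3]),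
    (false,[([(0,3,[(9,12),(3,3)])],[4,4,4,3]),([(0,7,[(6,8)]),(0,0,[(5,6),(3,3)]),(0,11,[(3,3)])],[])],[],false,1,0,[]),
    (true,[([(0,2,[(9,12)]),(0,7,[(6,8)])],[]),([(0,1,[(5,6)]),(0,1,[(4,6)])],[3,3])],[7,6],false,2,3,[3,4]),
    (true,[([(0,3,[(9,12),(3,3)]),(0,7,[(6,8)])],[]),([(0,1,[(5,6)]),(0,1,[(4,6)])],[2])],[8,6],false,2,1,[]),
    (true,[([(0,2,[(9,12)]),(0,7,[(6,8)])],[]),([(0,1,[(5,6)]),(0,1,[(4,6)])],[3,3]),([(0,19,[(4,4)])],[2,2,2,2,1])],[],false,1,0,[]),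
    (true,[([(0,2,[(9,12)]),(0,7,[(6,8)])],[]),([(0,5,[(7,8)])],[3,3,2])],[8,7],false,2,4,[3,5]),
    (true,[([(0,3,[(9,12),(3,3)]),(0,7,[(6,8)])],[]),([(0,5,[(7,8)])],[2,2,1])],[8,7],false,2,2,[3]),
    (false,[([(0,3,[(9,12),(3,3)]),(0,7,[(6,8)])],[3]),([(0,18,[(7,8),(3,3)])],[4,3,3,2,2])],[],false,1,0,[]),
    (true,[([(0,2,[(9,12)]),(0,7,[(6,8)])],[]),([(0,5,[(7,8)]),(0,9,[(4,5)])],[3,2])],[7,6],false,2,1,[]),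
    (true,[([(0,2,[(9,12)]),(0,18,[(9,11)])],[])],[8,7,6,4,3],false,5,3,[8]),
    (false,[([(0,2,[(9,12)]),(0,18,[(9,11)])],[]),([(0,7,[(6,8)])],[4,4,3,3,3,3])],[],false,1,0,[2,3]),
    (false,[([(0,2,[(9,12)]),(0,18,[(9,11)])],[]),([(0,0,[(6,8),(2,2)])],[4,4,3,3,3,1])],[],false,1,0,[2]),
    (true,[([(0,2,[(9,12)]),(0,18,[(9,11)])],[]),([(0,0,[(6,8),(2,2)]),(0,11,[(2,2)])],[4,4])],[7],false,1,0,[]),
    (false,[([(0,3,[(9,12),(3,3)]),(0,18,[(9,11)])],[]),([(0,7,[(6,8)])],[4,3,3,3,2,2])],[],false,1,0,[]),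
    (true,[([(0,20,[(9,12),(12,12)])],[2])],[9,8,6,2],false,4,2,[5]),
    (false,[([(0,34,[(9,12),(12,12),(5,5)])],[7,5])],[9],false,1,0,[]),
    (true,[([(0,31,[(13,17)])],[5,2])],[9,7,6,5],false,4,5,[6,8,11,12]),
    (false,[([(0,31,[(13,17)]),(0,1,[(5,6)])],[5])],[9,8,6],false,3,6,[4,6]),
    (false,[([(0,4,[(13,17),(4,4)]),(0,1,[(5,6)])],[])],[10,8,6],false,3,4,[4]),
    (true,[([(0,4,[(13,17),(4,4)]),(0,1,[(5,6)])],[]),([(0,19,[(4,4)])],[2,2,1,1])],[8,6],false,2,1,[]),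
    (false,[([(0,31,[(13,17)]),(0,1,[(5,6)])],[5]),([(0,1,[(5,6)])],[3,3,3,3,3,2])],[],false,1,0,[2,4]),
    (false,[([(0,31,[(13,17)])],[5,4,4,3]),([(0,1,[(5,6)]),(0,1,[(5,6)]),(0,11,[(2,2)])],[3])],[],false,1,0,[2]),
    (true,[([(0,31,[(13,17)])],[5,5,4]),([(0,0,[(5,6),(2,2),(2,2)]),(0,1,[(5,6)])],[4])],[],false,1,0,[2]),
    (false,[([(0,31,[(13,17)])],[5,4,4,3]),([(0,1,[(5,6)]),(0,1,[(5,6)]),(1,0,[(2,2),(2,2),(2,2)])],[])],[],false,1,0,[]),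
    (true,[([(0,31,[(13,17)])],[5,5,4]),([(0,0,[(5,6),(3,4)]),(0,1,[(5,6)])],[4])],[],false,1,0,[2]),
    (false,[([(0,31,[(13,17)])],[5,4,4,3]),([(0,1,[(5,6)]),(0,1,[(5,6)]),(0,1,[(3,4),(2,2)])],[])],[],false,1,0,[]),
    (false,[([(0,31,[(13,17)]),(0,5,[(7,8)])],[5])],[9,7,5],false,3,5,[6]),
    (false,[([(0,31,[(13,17)]),(0,5,[(7,8)])],[5]),([(0,1,[(4,6)])],[3,3,3,3,2,1])],[],false,1,0,[3]),
    (false,[([(0,31,[(13,17)]),(0,5,[(7,8)])],[5]),([(0,1,[(4,6)]),(0,11,[(2,3)])],[3,3,3,3])],[],false,1,0,[2]),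
    (false,[([(0,31,[(13,17)]),(0,5,[(7,8)])],[5]),([(0,1,[(4,6)]),(1,0,[(2,3),(2,2)])],[3,3,3])],[],false,1,0,[]),
    (true,[([(0,31,[(13,17)])],[5,3]),([(0,18,[(9,11)])],[4,4,4,2,1])],[],false,1,0,[4]),
    (true,[([(0,31,[(13,17)])],[5,4]),([(0,18,[(9,11)]),(1,1,[(2,4)])],[4])],[],false,1,0,[3]),
    (true,[([(0,31,[(13,17)])],[5,4]),([(0,18,[(9,11)]),(1,1,[(2,4),(2,3)])],[4])],[],false,1,0,[2]),
    (true,[([(0,31,[(13,17)])],[5,4]),([(0,18,[(9,11)]),(1,1,[(2,4),(2,3),(2,2)])],[4])],[],false,1,0,[]),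
    (false,[([(0,34,[(13,17),(12,12)])],[7,5])],[9],false,1,0,[]),
    (true,[([(0,25,[(18,23)])],[6])],[9,7,6],false,3,6,[6,7]),
    (true,[([(0,25,[(18,23)])],[6]),([(0,1,[(4,6)])],[3,3,3,3,3,1])],[],false,1,0,[2,3,4]),
    (true,[([(0,25,[(18,23)])],[6,4]),([(0,1,[(4,6)]),(0,11,[(2,2)])],[3,3,3])],[],false,1,0,[2]),
    (true,[([(0,25,[(18,23)])],[6,4]),([(0,1,[(4,6)]),(1,0,[(2,2),(2,2)])],[3,3])],[],false,1,0,[2]),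
    (true,[([(0,25,[(18,23)])],[6,4]),([(0,1,[(4,6)]),(1,0,[(2,2),(2,2),(2,2)])],[3,3])],[],false,1,0,[]),
    (true,[([(0,25,[(18,23)])],[6,4]),([(0,1,[(4,6)]),(0,11,[(3,3)])],[3,3,3])],[],false,1,0,[2]),
    (true,[([(0,25,[(18,23)])],[6,4]),([(0,1,[(4,6)]),(0,1,[(3,3),(2,2)])],[3,3])],[],false,1,0,[]),
    (true,[([(0,25,[(18,23)])],[6,5]),([(0,1,[(4,6)]),(0,19,[(4,4)])],[3,3,1])],[],false,1,0,[]),
    (false,[([(0,34,[(18,23),(7,7)])],[7,5])],[9],false,1,0,[]),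
    (false,[([(0,26,[(24,24)])],[6,3])],[10,8],false,1,0,[])]),
  ([10,9,8,7,6,5,4,2,1], [
    (false,[],[10,9,8,7,6,5,4,2,1],false,8,3,[12,16,21,24]),
    (true,[([(0,2,[(9,12)])],[4,1])],[9,8,7,6,5],false,5,5,[8,11,12]),
    (false,[([(0,2,[(9,12)]),(0,7,[(6,8)])],[3])],[9,8,7,5],false,4,5,[6,8]),
    (true,[([(0,2,[(9,12)]),(0,7,[(6,8)])],[]),([(0,1,[(5,6)])],[3,3,3,2])],[8,7],false,2,6,[3,6]),
    (true,[([(0,3,[(9,12),(3,3)]),(0,7,[(6,8)])],[]),([(0,1,[(5,6)])],[3,2,2,1])],[8,7],false,2,4,[3]),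
    (true,[([(0,3,[(9,12),(3,3)]),(0,7,[(6,8)])],[]),([(0,1,[(5,6)]),(0,11,[(3,3)])],[3,2])],[8,7],false,2,2,[3]),
    (false,[([(0,3,[(9,12),(3,3)]),(0,7,[(6,8)])],[4]),([(0,1,[(5,6)]),(0,1,[(3,3),(3,3)])],[2,2])],[9],false,1,0,[]),
    (false,[([(0,2,[(9,12)]),(0,7,[(6,8)])],[3]),([(0,1,[(5,6)]),(0,1,[(4,6)])],[3,3,3])],[8],false,1,0,[2,3,4]),
    (true,[([(0,2,[(9,12)]),(0,0,[(6,8),(2,2)])],[]),([(0,1,[(5,6)]),(0,1,[(4,6)])],[3])],[8,7],false,2,2,[]),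
    (true,[([(0,3,[(9,12),(3,3)]),(0,7,[(6,8)])],[]),([(0,1,[(5,6)]),(0,1,[(4,6)])],[2])],[8,7],false,2,1,[]),
    (true,[([(0,2,[(9,12)]),(0,7,[(6,8)])],[]),([(0,1,[(5,6)]),(0,1,[(4,6)])],[3,3]),([(0,19,[(4,4)])],[2,2,2,2,2])],[],false,1,0,[]),
    (true,[([(0,2,[(9,12)]),(0,7,[(6,8)])],[]),([(0,5,[(7,8)])],[3,3,2,1])],[8,7],false,2,4,[3,5]),
    (true,[([(0,3,[(9,12),(3,3)]),(0,7,[(6,8)])],[]),([(0,5,[(7,8)])],[2,2,1,1])],[8,7],false,2,2,[3]),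
    (false,[([(0,3,[(9,12),(3,3)]),(0,7,[(6,8)])],[4]),([(0,18,[(7,8),(3,3)])],[4,3,3,2,2])],[],false,1,0,[]),
    (true,[([(0,2,[(9,12)]),(0,7,[(6,8)])],[]),([(0,5,[(7,8)]),(0,1,[(4,5)])],[3])],[8,7],false,2,1,[]),
    (false,[([(0,2,[(9,12)]),(0,18,[(9,11)])],[])],[10,8,7,4],false,4,4,[6,8]),
    (true,[([(0,2,[(9,12)]),(0,18,[(9,11)])],[]),([(0,1,[(5,6)])],[3,3,1,1])],[8,7],false,2,3,[4]),
    (false,[([(0,2,[(9,12)]),(0,18,[(9,11)])],[]),([(0,0,[(5,6),(3,4)])],[4,4,4,3,3,1])],[],false,1,0,[2]),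
    (false,[([(0,2,[(9,12)]),(0,0,[(5,6),(3,4)])],[]),([(0,18,[(9,11)]),(0,11,[(2,2)])],[4,4,4,4])],[],false,1,0,[]),
    (true,[([(0,2,[(9,12)]),(0,18,[(9,11)])],[]),([(0,5,[(7,8)])],[3,1,1,1])],[8,7],false,2,1,[]),
    (true,[([(0,2,[(9,12)]),(0,36,[(12,12)])],[])],[8,7,6,5,2],false,5,2,[]),
    (true,[([(0,37,[(13,16)])],[5,3,2])],[8,7,6,5],false,4,5,[5,7,9,12]),
    (true,[([(0,4,[(13,16),(5,5)])],[1])],[9,8,7,6],false,4,6,[5]),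
    (true,[([(0,4,[(13,16),(5,5)]),(0,1,[(5,5)])],[])],[8,7,6,4],false,4,3,[]),
    (true,[([(0,25,[(13,16),(6,7)])],[6,2])],[8,7,6],false,3,6,[5,6,7]),
    (false,[([(0,4,[(13,16),(4,5)]),(0,6,[(6,7)])],[])],[9,8,7],false,3,3,[4]),
    (true,[([(0,25,[(13,16),(6,7)])],[6,4]),([(0,1,[(4,5)]),(0,19,[(4,4)])],[3,3,3])],[],false,1,0,[]),
    (true,[([(0,25,[(13,16),(6,7)])],[6,2]),([(0,1,[(6,6)])],[3,3,3,3,3])],[],false,1,0,[2]),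
    (true,[([(0,25,[(13,16),(6,7)])],[6,2]),([(0,5,[(6,6),(2,2)])],[3,3,3,3,1])],[],false,1,0,[]),
    (false,[([(0,34,[(13,16),(6,7),(7,7)])],[7,6])],[9],false,1,0,[]),
    (true,[([(0,29,[(13,16),(8,9)])],[5])],[9,7,6],false,3,4,[5]),
    (false,[([(0,4,[(13,16),(4,5)]),(0,0,[(8,9)])],[])],[9,7,5],false,2,1,[]),
    (true,[([(0,23,[(13,16),(10,12)])],[])],[9,8,7],false,3,2,[]),
    (true,[([(0,4,[(17,21)])],[1])],[9,8,7,6],false,4,6,[6,8]),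
    (true,[([(0,4,[(17,21)]),(0,1,[(5,6)])],[])],[8,7,6,4],false,4,3,[]),
    (false,[([(0,4,[(17,21)]),(0,7,[(7,8)])],[])],[9,8,6],false,2,1,[]),
    (true,[([(0,26,[(22,24)])],[6,3])],[8,7,4],false,3,2,[])]),
  ([10,9,8,7,6,5,4,3,1], [
    (false,[],[10,9,8,7,6,5,4,3,1],false,8,4,[12,16,21,24]),
    (true,[([(0,2,[(9,12)])],[4,1,1])],[9,8,7,6,5],false,5,5,[8,11,12]),
    (false,[([(0,2,[(9,12)]),(0,7,[(6,8)])],[4])],[9,8,7,5],false,4,5,[6,8]),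
    (true,[([(0,2,[(9,12)]),(0,7,[(6,8)])],[]),([(0,1,[(5,6)])],[3,3,3,2,1])],[8,7],false,2,6,[3,6]),
    (true,[([(0,3,[(9,12),(3,3)]),(0,7,[(6,8)])],[]),([(0,1,[(5,6)])],[3,2,2,1,1])],[8,7],false,2,4,[3]),
    (true,[([(0,3,[(9,12),(3,3)]),(0,7,[(6,8)])],[]),([(0,1,[(5,6)]),(0,11,[(3,3)])],[3,2,1])],[8,7],false,2,2,[3]),
    (false,[([(0,3,[(9,12),(3,3)]),(0,7,[(6,8)])],[]),([(0,1,[(5,6)]),(0,1,[(3,3),(3,3)])],[3,3,3,1])],[8],false,1,0,[]),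
    (true,[([(0,2,[(9,12)]),(0,7,[(6,8)])],[]),([(0,1,[(5,6)]),(0,1,[(4,6)])],[3,3])],[8,7],false,2,3,[3,4]),
    (true,[([(0,3,[(9,12),(3,3)]),(0,7,[(6,8)])],[]),([(0,1,[(5,6)]),(0,1,[(4,6)])],[2,1])],[8,7],false,2,1,[]),
    (true,[([(0,2,[(9,12)]),(0,7,[(6,8)])],[]),([(0,1,[(5,6)]),(0,1,[(4,6)])],[3,3]),([(0,19,[(4,4)])],[2,2,2,2,2,1])],[],false,1,0,[]),
    (true,[([(0,2,[(9,12)]),(0,7,[(6,8)])],[]),([(0,5,[(7,8)])],[3,3,2,1,1])],[8,7],false,2,4,[3,5]),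
    (true,[([(0,3,[(9,12),(3,3)]),(0,7,[(6,8)])],[]),([(0,5,[(7,8)])],[2,2,1,1,1])],[8,7],false,2,2,[3]),
    (false,[([(0,3,[(9,12),(3,3)]),(0,7,[(6,8)])],[]),([(0,18,[(7,8),(3,3)])],[4,4,4,4,2,1])],[],false,1,0,[]),
    (true,[([(0,2,[(9,12)]),(0,7,[(6,8)])],[]),([(0,5,[(7,8)]),(0,9,[(4,5)])],[3,2])],[8,7],false,2,1,[]),
    (false,[([(0,2,[(9,12)]),(0,18,[(9,11)])],[4])],[9,8,5,4],false,4,4,[6,8]),
    (true,[([(0,2,[(9,12)]),(0,18,[(9,11)])],[]),([(0,1,[(5,6)])],[3,3,1,1,1])],[8,7],false,2,3,[3,4]),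
    (true,[([(0,3,[(9,12),(3,3)]),(0,18,[(9,11)])],[]),([(0,1,[(5,6)])],[3,2,1,1,1])],[8,5],false,2,1,[]),
    (false,[([(0,2,[(9,12)]),(0,18,[(9,11)])],[4]),([(0,0,[(5,6),(4,4)])],[4,4,4,2,2])],[],false,1,0,[]),
    (true,[([(0,2,[(9,12)]),(0,18,[(9,11)])],[]),([(0,5,[(7,8)])],[3,1,1,1,1])],[8,7],false,2,1,[]),
    (true,[([(0,20,[(9,12),(12,12)])],[2,1])],[9,8,7,2],false,4,2,[5]),
    (false,[([(0,34,[(9,12),(12,12),(5,5)])],[7,7])],[9],false,1,0,[]),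
    (true,[([(0,37,[(13,16)])],[5,3])],[9,8,7,5],false,4,5,[5,7,9,12]),
    (true,[([(0,4,[(13,16),(5,5)])],[1,1])],[9,8,7,6],false,4,6,[5]),
    (false,[([(0,4,[(13,16),(5,5)]),(0,9,[(5,5)])],[5])],[9,8,5],false,3,3,[4]),
    (false,[([(0,34,[(13,16),(5,5),(5,5),(4,4)])],[7,7])],[9],false,1,0,[]),
    (true,[([(0,25,[(13,16),(6,7)])],[6])],[9,8,7],false,3,6,[5,6,7]),
    (true,[([(0,25,[(13,16),(6,7)])],[6]),([(0,1,[(4,5)])],[3,3,3,3,3,3])],[],false,1,0,[4]),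
    (true,[([(0,4,[(13,16),(4,5)])],[5,5,5]),([(0,6,[(6,7)]),(1,1,[(2,4)])],[])],[],false,1,0,[3]),
    (true,[([(0,4,[(13,16),(4,5)])],[5,4,3]),([(0,0,[(6,7),(2,3)]),(1,1,[(2,4)])],[])],[],false,1,0,[2]),
    (true,[([(0,4,[(13,16),(4,5)])],[5,4,3]),([(0,0,[(6,7),(2,3)]),(1,1,[(2,4),(2,2)])],[])],[],false,1,0,[]),
    (true,[([(0,25,[(13,16),(6,7)])],[6]),([(0,1,[(6,6)])],[3,3,3,3,3,3])],[],false,1,0,[2]),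
    (true,[([(0,25,[(13,16),(6,7)])],[6]),([(0,5,[(6,6),(2,2)])],[3,3,3,3,3,1])],[],false,1,0,[]),
    (false,[([(0,34,[(13,16),(6,7),(7,7)])],[7,7])],[9],false,1,0,[]),
    (true,[([(0,29,[(13,16),(8,9)])],[5])],[9,8,6],false,3,4,[5]),
    (true,[([(0,29,[(13,16),(8,9)])],[5]),([(0,1,[(4,5)])],[3,3,3,3,3,2])],[],false,1,0,[2]),
    (true,[([(0,4,[(13,16),(4,5)])],[1]),([(0,18,[(8,9),(2,2)])],[4,4,4,4,4])],[],false,1,0,[]),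
    (true,[([(0,23,[(13,16),(10,12)])],[1])],[9,8,7],false,3,2,[]),
    (true,[([(0,4,[(17,21)])],[1,1])],[9,8,7,6],false,4,6,[6,8]),
    (false,[([(0,4,[(17,21)]),(0,1,[(5,6)])],[5])],[9,7,5],false,3,3,[4]),
    (true,[([(0,29,[(17,21),(4,4)])],[5]),([(0,1,[(5,6)])],[3,3,3,3,3,2])],[],false,1,0,[]),
    (false,[([(0,4,[(17,21)]),(0,5,[(7,8)])],[5])],[8,6,5],false,2,1,[]),
    (false,[([(0,15,[(22,24)])],[6,5,3,1])],[8,5,1],false,3,1,[])]),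
  ([10,9,8,7,6,5,4,3,2], [
    (false,[],[10,9,8,7,6,5,4,3,2],false,9,2,[12,16,21,24]),
    (true,[([(0,2,[(10,12)])],[4,1,1,1])],[9,8,7,6,5],false,5,5,[8,11,12]),
    (true,[([(0,2,[(10,12)]),(0,7,[(6,8)])],[])],[9,8,7,6,4],false,5,4,[7,8]),
    (false,[([(0,2,[(10,12)]),(0,3,[(6,8),(6,7)])],[])],[9,8,6,4],false,4,4,[5]),
    (false,[([(0,8,[(10,12),(5,5)]),(0,3,[(6,8),(6,7)])],[])],[9,6,4,3],false,1,0,[]),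
    (true,[([(0,23,[(10,12),(6,8),(8,8)])],[1,1])],[9,8,7],false,3,2,[]),
    (true,[([(0,2,[(10,12)]),(0,18,[(9,11)])],[])],[9,8,7,4,3],false,5,3,[7]),
    (true,[([(0,22,[(10,12),(6,7)])],[4,1,1]),([(0,18,[(9,11)])],[4,4,4,4,2])],[],false,1,0,[2]),
    (true,[([(0,4,[(10,12),(6,7),(2,2)])],[2,1,1]),([(0,18,[(9,11)])],[4,4,4,4,2])],[],false,1,0,[]),
    (true,[([(0,20,[(10,12),(12,12)])],[2,1,1])],[9,8,7,2],false,4,2,[]),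
    (true,[([(0,37,[(13,16)])],[5,3,1])],[9,8,7,5],false,4,5,[5,7,9,12]),
    (true,[([(0,4,[(13,16),(5,5)])],[1,1,1])],[9,8,7,6],false,4,6,[5]),
    (true,[([(0,4,[(13,16),(5,5)]),(0,9,[(5,5)])],[])],[9,8,7,4],false,4,3,[]),
    (true,[([(0,25,[(13,16),(6,7)])],[6,1])],[9,8,7],false,3,6,[5,6,7]),
    (true,[([(0,25,[(13,16),(6,7)])],[6,1]),([(0,1,[(4,5)])],[3,3,3,3,3,3])],[],false,1,0,[4]),
    (true,[([(0,4,[(13,16),(4,5)])],[4,4,4]),([(0,6,[(6,7)]),(1,1,[(2,4)])],[4])],[],false,1,0,[3]),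
    (true,[([(0,4,[(13,16),(4,5)])],[4,3,2]),([(0,0,[(6,7),(2,3)]),(1,1,[(2,4)])],[4])],[],false,1,0,[2]),
    (true,[([(0,4,[(13,16),(4,5)])],[4,3,2]),([(0,0,[(6,7),(2,3)]),(1,1,[(2,4),(2,2)])],[4])],[],false,1,0,[]),
    (true,[([(0,25,[(13,16),(6,7)])],[6,1]),([(0,1,[(6,6)])],[3,3,3,3,3,3])],[],false,1,0,[2]),
    (true,[([(0,25,[(13,16),(6,7)])],[6]),([(0,5,[(6,6),(2,2)])],[3,3,3,3,3,2])],[],false,1,0,[]),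
    (false,[([(0,34,[(13,16),(6,7),(7,7)])],[8,7])],[9],false,1,0,[]),
    (true,[([(0,29,[(13,16),(8,9)])],[5,1])],[9,8,6],false,3,4,[5]),
    (true,[([(0,29,[(13,16),(8,9)])],[5,2]),([(0,9,[(4,5)])],[3,3,3,3,3,2])],[],false,1,0,[2]),
    (true,[([(0,29,[(13,16),(8,9)])],[5,3]),([(0,1,[(4,5)]),(0,11,[(2,2)])],[3,3,3,3])],[],false,1,0,[]),
    (true,[([(0,23,[(13,16),(10,12)])],[1,1])],[9,8,7],false,3,2,[]),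
    (true,[([(0,4,[(17,21)])],[1,1,1])],[9,8,7,6],false,4,6,[6,8]),
    (true,[([(0,4,[(17,21)]),(0,1,[(5,6)])],[])],[9,8,6,4],false,4,3,[]),
    (false,[([(0,4,[(17,21)]),(0,5,[(7,8)])],[6])],[8,6,5],false,2,1,[]),
    (true,[([(0,26,[(22,24)])],[6,3])],[9,8,4],false,3,2,[])])]

theorem cj9c_1_ok : runAllJ S43 R43 F43 23 cj9c_1 = true := by decide +kernel

/-- the minors -/
def G9c : List (List ℕ) := [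
  [1,1,1,1,1,1,1,1,1,2,1,1,1,1,1,1,1,1], [1,1,1,1,1,1,1,1,2,1,1,1,1,1,1,1,1,1],
  [1,1,1,1,1,1,1,1,1,1,2,1,1,1,1,1,1,1], [1,1,1,1,1,1,1,2,1,1,1,1,1,1,1,1,1,1],
  [1,1,1,1,1,1,1,1,1,1,1,2,1,1,1,1,1,1], [1,1,1,1,1,1,2,1,1,1,1,1,1,1,1,1,1,1],
  [1,1,1,1,1,1,1,1,1,1,1,1,2,1,1,1,1,1], [1,1,1,1,1,2,1,1,1,1,1,1,1,1,1,1,1,1],
  [1,1,1,1,1,1,1,1,1,1,1,1,1,2,1,1,1,1], [1,1,1,1,2,1,1,1,1,1,1,1,1,1,1,1,1,1],
  [1,1,1,1,1,1,1,1,1,1,1,1,1,1,2,1,1,1], [1,1,1,2,1,1,1,1,1,1,1,1,1,1,1,1,1,1],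
  [1,1,1,1,1,1,1,1,1,1,1,1,1,1,1,2,1,1], [1,1,2,1,1,1,1,1,1,1,1,1,1,1,1,1,1,1],
  [1,1,1,1,1,1,1,1,1,1,1,1,1,1,1,1,2,1], [1,2,1,1,1,1,1,1,1,1,1,1,1,1,1,1,1,1],
  [1,1,1,1,1,1,1,1,1,1,1,1,1,1,1,1,1,2], [2,1,1,1,1,1,1,1,1,1,1,1,1,1,1,1,1,1]]

noncomputable def T9c : BT :=
  .split 0 2 (.split 1 2 (.split 2 2 (.split 3 2 (.split 4 2 (.split 5 2 (.split 6 2 (.split 7 2
  (.split 8 2 (.split 9 2 (.split 10 2 (.split 11 2 (.split 12 2 (.split 13 2 (.split 14 2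
  (.split 15 2 (.split 16 2 (.split 17 2 .small (.minor 16)) (.minor 14)) (.minor 12)) (.minor
  10)) (.minor 8)) (.minor 6)) (.minor 4)) (.minor 2)) (.minor 0)) (.minor 1)) (.minor 3))
  (.minor 5)) (.minor 7)) (.minor 9)) (.minor 11)) (.minor 13)) (.minor 15)) (.minor 17)

noncomputable def Rt9c : List (List ℕ) :=
  cj9c_0.map Prod.fst ++ cj9c_1.map Prod.fst

theorem Rt9c_ok : ∀ M ∈ Rt9c, KG (M : Multiset ℕ) 23 := by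
  intro M h
  unfold Rt9c at h
  simp only [List.mem_append] at h
  rcases h with h | h
  · exact kg_of_allJ S43_ok R43_ok F43_ok cj9c_0_ok M h
  · exact kg_of_allJ S43_ok R43_ok F43_ok cj9c_1_ok M h

def ks9c : List ℕ := [
  0, 1, 2, 3, 4, 5, 6, 7, 8, 9, 10, 11, 12, 13, 14, 15, 16, 17]

theorem min9c_ok : minC 9 Rt9c G9c ks9c = true := by decide +kernel

theorem T9c_ok : btC 9 100 G9c T9c (List.replicate (2 * 9) 1)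
    (List.replicate (2 * 9) 0) = true := by decide +kernel

theorem kg9c {M : Multiset ℕ} (hM : ∀ s ∈ M, 1 ≤ s)
    (hc : M.dedup.card = 9) (hn : 100 ≤ M.sum) : KG M 23 :=
  coverC ks9c T9c Rt9c_ok min9c_ok T9c_ok hM hc hn

noncomputable def cj9d_0 : List (List ℕ × List NdJ) := [
  ([10,9,8,7,6,5,4,2,1], [
    (false,[],[10,9,8,7,6,5,4,2,1],false,8,3,[11,15,21,27]),
    (true,[([(0,18,[(9,11)])],[2,1,1])],[9,8,7,6,5,2],false,5,6,[8,11]),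
    (false,[([(0,18,[(9,11)]),(0,7,[(6,8)])],[])],[10,9,7,6,1],false,4,7,[5,7,8]),
    (true,[([(0,18,[(9,11)]),(0,7,[(6,8)])],[]),([(0,9,[(5,5)])],[2,2,1,1])],[9,7,6],false,3,6,[4,5]),
    (false,[([(0,4,[(9,11),(5,5),(4,4)]),(0,7,[(6,8)])],[])],[9,8,6],false,3,6,[4]),
    (false,[([(0,18,[(9,11)]),(0,4,[(6,8),(5,5),(4,4),(4,4)])],[])],[9,6,5],false,3,3,[4]),
    (false,[([(0,4,[(9,11),(5,5),(4,4)]),(0,7,[(6,8)])],[]),([(0,19,[(4,4)]),(0,19,[(4,4)])],[2,2,1,1])],[9],false,1,0,[]),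
    (false,[([(0,4,[(9,11),(5,5),(5,5)]),(0,7,[(6,8)])],[])],[9,8,6],false,3,5,[4,5]),
    (false,[([(0,4,[(9,11),(5,5),(5,5)]),(0,7,[(6,8)])],[]),([(0,19,[(4,4)])],[2,2,2,2,1,1])],[9],false,1,0,[3]),
    (false,[([(0,4,[(9,11),(5,5),(5,5)]),(0,7,[(6,8)])],[]),([(0,19,[(4,4)]),(0,11,[(2,3)])],[2,2,2,1])],[9],false,1,0,[2]),
    (true,[([(0,4,[(9,11),(5,5),(5,5)])],[4,3]),([(0,0,[(6,8),(2,2)]),(1,1,[(4,4),(2,3)])],[4])],[],false,1,0,[]),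
    (true,[([(0,18,[(9,11)]),(0,7,[(6,8)])],[3]),([(0,0,[(5,5),(5,5)]),(0,9,[(5,5)])],[])],[8,7],false,2,1,[]),
    (true,[([(0,18,[(9,11)]),(0,3,[(6,8),(6,7)])],[])],[8,7,5,4,2],false,5,2,[7]),
    (false,[([(0,18,[(9,11)]),(0,3,[(6,8),(6,7)])],[4]),([(0,6,[(6,7)])],[4,3,3,3,2])],[],false,1,0,[3,4]),
    (false,[([(0,18,[(9,11)]),(0,3,[(6,8),(6,7)])],[4]),([(0,0,[(6,7),(2,3)])],[4,3,3,1,1])],[],false,1,0,[3]),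
    (false,[([(0,18,[(9,11)]),(0,0,[(6,7),(2,3)]),(0,11,[(2,3)])],[]),([(0,3,[(6,8),(6,7)])],[4,4,3,2])],[],false,1,0,[2]),
    (false,[([(0,18,[(9,11)]),(0,0,[(6,7),(2,3)])],[2]),([(0,3,[(6,8),(6,7)]),(1,0,[(2,3),(2,2)])],[4,4])],[],false,1,0,[]),
    (false,[([(0,3,[(9,11),(4,4)]),(0,3,[(6,8),(6,7)])],[]),([(0,7,[(6,7)])],[3,3,3,3,2])],[],false,1,0,[]),
    (false,[([(0,4,[(9,11),(8,8)]),(0,7,[(6,8)])],[])],[9,8,6],false,3,6,[7]),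
    (false,[([(0,18,[(9,11)]),(0,7,[(6,8)])],[]),([(0,3,[(8,8),(4,7)])],[4,4,4,4,2])],[],false,1,0,[2,4]),
    (false,[([(0,18,[(9,11)]),(0,0,[(6,8),(2,2)])],[]),([(0,3,[(8,8),(4,7)])],[4,4,3,3,2])],[],false,1,0,[2]),
    (false,[([(0,3,[(9,11),(2,2),(2,2)]),(0,3,[(8,8),(4,7)])],[]),([(0,7,[(6,8)])],[3,3,3,3,2])],[],false,1,0,[2]),
    (true,[([(0,3,[(9,11),(2,2),(2,2)]),(0,0,[(6,8),(2,2)])],[]),([(0,3,[(8,8),(4,7)])],[5,4,3])],[],false,1,0,[]),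
    (false,[([(0,3,[(9,11),(3,4)]),(0,3,[(8,8),(4,7)])],[]),([(0,7,[(6,8)])],[3,3,3,3,2])],[],false,1,0,[2]),
    (true,[([(0,3,[(9,11),(3,4)]),(0,0,[(6,8),(2,2)])],[]),([(0,3,[(8,8),(4,7)])],[5,4,3])],[],false,1,0,[]),
    (true,[([(0,18,[(9,11)]),(0,18,[(9,11)])],[3])],[8,6,5,4,3,1],true,6,2,[10,11]),
    (true,[([(0,18,[(9,11)]),(0,18,[(9,11)])],[2]),([(0,0,[(7,10)])],[3])],[8,7],false,2,4,[5]),
    (false,[([(0,18,[(9,11)]),(0,0,[(7,10)])],[1]),([(0,18,[(9,11)]),(1,2,[(3,5)])],[4])],[],false,1,0,[3]),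
    (false,[([(0,18,[(9,11)]),(0,0,[(7,10)])],[1]),([(0,18,[(9,11)]),(1,2,[(3,5),(2,3)])],[4])],[],false,1,0,[2]),
    (false,[([(0,18,[(9,11)]),(0,0,[(7,10)])],[1]),([(0,18,[(9,11)]),(1,2,[(3,5),(2,3),(2,2)])],[4])],[],false,1,0,[]),
    (false,[([(0,16,[(9,11),(11,11)]),(0,18,[(9,11)])],[])],[9,6,4],false,1,0,[]),
    (true,[([(0,3,[(12,15)])],[1,1])],[9,8,7,6,5],false,5,5,[7,10,15]),
    (false,[([(0,3,[(12,15)]),(0,6,[(6,7)])],[4])],[9,8,7,2],false,3,8,[4,6,7]),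
    (false,[([(0,3,[(12,15)]),(0,18,[(6,7),(4,4)])],[4])],[9,6,5,2],false,4,2,[]),
    (false,[([(0,4,[(12,15),(5,6)]),(0,6,[(6,7)])],[])],[9,8,7],false,3,6,[6]),
    (true,[([(0,3,[(12,15)]),(0,7,[(6,7)])],[]),([(0,1,[(5,6)]),(0,1,[(4,6)])],[2])],[8,7],false,2,3,[3,4]),
    (true,[([(0,3,[(12,15)]),(0,0,[(6,7),(3,3)])],[]),([(0,1,[(5,6)]),(0,1,[(4,6)])],[])],[8,7],false,2,1,[]),
    (false,[([(0,4,[(12,15),(5,6)]),(0,18,[(6,7),(4,4)])],[]),([(0,1,[(4,6)])],[3,3,3,3,1,1])],[],false,1,0,[]),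
    (false,[([(0,3,[(12,15)]),(0,17,[(6,7),(7,7)])],[])],[9,7,6,1],false,4,1,[5]),
    (false,[([(0,3,[(12,15)]),(0,17,[(6,7),(7,7)])],[]),([(0,9,[(5,5)])],[2,2,2,2,2,1])],[7],false,1,0,[]),
    (true,[([(0,3,[(12,15)]),(0,0,[(8,10)])],[])],[8,7,6,4,2],false,5,2,[6,9]),
    (false,[([(0,4,[(12,15),(6,6)]),(0,0,[(8,10)])],[])],[9,7,5],false,3,3,[4]),
    (false,[([(0,4,[(12,15),(6,6)]),(0,0,[(8,10)])],[]),([(0,19,[(4,4)])],[2,2,2,1,1])],[9],false,1,0,[]),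
    (false,[([(0,3,[(12,15)]),(0,0,[(8,10)])],[4]),([(0,0,[(7,9)])],[4,3,3,2,1])],[],false,1,0,[3]),
    (false,[([(0,3,[(12,15)]),(0,0,[(8,10)])],[4]),([(0,0,[(7,9)]),(0,11,[(2,3)])],[4,3,3])],[],false,1,0,[2]),
    (false,[([(0,3,[(12,15)]),(0,0,[(8,10)])],[4]),([(0,0,[(7,9)]),(1,0,[(2,3),(2,2)])],[4,3])],[],false,1,0,[]),
    (false,[([(0,3,[(12,15)]),(0,3,[(11,15)])],[])],[9,7,5,1],false,4,1,[6]),
    (false,[([(0,3,[(12,15)]),(0,3,[(11,15)])],[]),([(0,1,[(5,6)])],[2,2,2,1])],[9],false,1,0,[2]),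
    (false,[([(0,3,[(12,15)]),(0,3,[(11,15)])],[]),([(0,7,[(5,6),(2,2)])],[3,3,3,3,2])],[],false,1,0,[]),
    (true,[([(0,4,[(16,21)])],[1])],[9,8,7,6],false,4,6,[6,10,12]),
    (true,[([(0,4,[(16,21)]),(0,1,[(5,6)])],[])],[8,7,6,4],false,4,4,[6]),
    (false,[([(0,4,[(16,21)]),(0,1,[(5,6)])],[4]),([(0,1,[(5,6)])],[3,3,3,3,2,1])],[],false,1,0,[4]),
    (false,[([(0,4,[(16,21)]),(1,1,[(2,4)])],[]),([(0,1,[(5,6)]),(0,1,[(5,6)])],[3,3,3])],[],false,1,0,[3]),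
    (false,[([(0,4,[(16,21)]),(1,1,[(2,4),(2,3)])],[]),([(0,1,[(5,6)]),(0,1,[(5,6)])],[3,3,3])],[],false,1,0,[2]),
    (false,[([(0,4,[(16,21)]),(1,1,[(2,4),(2,3),(2,2)])],[]),([(0,1,[(5,6)]),(0,1,[(5,6)])],[3,3,3])],[],false,1,0,[]),
    (false,[([(0,4,[(16,21)]),(0,0,[(7,10)])],[])],[9,7,5],false,3,5,[6]),
    (false,[([(0,4,[(16,21)]),(0,0,[(7,10)])],[]),([(0,1,[(4,6)])],[3,3,3,3,2,1])],[],false,1,0,[3]),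
    (false,[([(0,4,[(16,21)]),(0,0,[(7,10)])],[]),([(0,1,[(4,6)]),(0,11,[(2,3)])],[3,3,3,3])],[],false,1,0,[2]),
    (false,[([(0,4,[(16,21)]),(0,0,[(7,10)])],[]),([(0,1,[(4,6)]),(1,0,[(2,3),(2,2)])],[3,3,3])],[],false,1,0,[]),
    (false,[([(0,4,[(16,21)]),(0,36,[(11,12)])],[])],[8,7,4],false,2,1,[]),
    (true,[([(0,38,[(22,27)])],[4])],[9,7,5],false,3,5,[6]),
    (true,[([(0,38,[(22,27)])],[4]),([(0,1,[(4,6)])],[3,3,3,3,2,1])],[],false,1,0,[3]),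
    (true,[([(0,38,[(22,27)])],[4]),([(0,1,[(4,6)]),(0,11,[(2,3)])],[3,3,3,3])],[],false,1,0,[2]),
    (true,[([(0,38,[(22,27)])],[4]),([(0,1,[(4,6)]),(1,0,[(2,3),(2,2)])],[3,3,3])],[],false,1,0,[])]),
  ([10,9,8,7,6,5,4,3,1], [
    (false,[],[10,9,8,7,6,5,4,3,1],false,8,4,[11,15,21,27]),
    (false,[([(0,18,[(9,11)])],[2])],[10,9,8,7,6],false,5,6,[8,11]),
    (true,[([(0,18,[(9,11)]),(0,7,[(6,8)])],[])],[9,8,7,6,3,1],false,5,4,[7,8]),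
    (false,[([(0,18,[(9,11)]),(0,3,[(6,8),(6,7)])],[])],[10,8,5,4],false,4,4,[6,7]),
    (true,[([(0,18,[(9,11)]),(0,3,[(6,8),(6,7)])],[]),([(0,1,[(5,6)])],[3,2,1,1,1])],[8,5],false,2,4,[4,5]),
    (true,[([(0,3,[(9,11),(3,4)]),(0,1,[(5,6)])],[]),([(0,3,[(6,8),(6,7)])],[5,5,4,3])],[],false,1,0,[2,3]),
    (true,[([(0,18,[(9,11)]),(0,3,[(6,8),(6,7)])],[]),([(0,1,[(5,6)]),(0,1,[(3,4),(2,2)])],[1,1])],[8,5],false,2,1,[]),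
    (true,[([(0,4,[(9,11),(6,7),(3,3)])],[5,5,4]),([(0,7,[(6,8)]),(0,0,[(5,6),(3,4)])],[])],[],false,1,0,[]),
    (false,[([(0,18,[(9,11)]),(0,3,[(6,8),(6,7)])],[]),([(0,1,[(5,6)]),(0,9,[(5,5)])],[3,3])],[10],false,1,0,[]),
    (true,[([(0,18,[(9,11)]),(0,3,[(6,8),(6,7)])],[]),([(0,5,[(7,7)])],[2,1,1,1,1])],[8,5],false,2,2,[3]),
    (true,[([(0,4,[(9,11),(6,7),(3,3)])],[5,4,3]),([(0,7,[(6,8)]),(0,5,[(7,7)])],[4])],[],false,1,0,[]),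
    (true,[([(0,18,[(9,11)]),(0,7,[(6,8)])],[]),([(0,5,[(8,8)])],[3,2,2,2,1])],[9,6,1],true,3,3,[6,7]),
    (true,[([(0,18,[(9,11)]),(0,7,[(6,8)])],[]),([(0,5,[(8,8)]),(0,1,[(4,6)])],[2])],[9,8,1],false,3,1,[4]),
    (true,[([(0,4,[(9,11),(8,8)])],[5,5,4]),([(0,7,[(6,8)]),(0,0,[(4,6),(4,4)])],[])],[],false,1,0,[]),
    (true,[([(0,4,[(9,11),(8,8)])],[5,4,3]),([(0,7,[(6,8)]),(0,5,[(7,7)])],[4])],[],false,1,0,[]),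
    (false,[([(0,18,[(9,11)]),(0,18,[(9,11)])],[4,2])],[9,6,5,4,1],true,5,2,[8,11]),
    (true,[([(0,18,[(9,11)]),(0,18,[(9,11)])],[2]),([(0,7,[(6,8)])],[3,3,1,1])],[8,5],false,2,5,[5,6]),
    (false,[([(0,18,[(9,11)]),(0,7,[(6,8)])],[4]),([(0,18,[(9,11)]),(1,2,[(3,5)])],[4])],[],false,1,0,[4]),
    (false,[([(0,18,[(9,11)]),(0,7,[(6,8)])],[4]),([(0,18,[(9,11)]),(1,2,[(3,5),(2,4)])],[4])],[],false,1,0,[3]),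
    (false,[([(0,18,[(9,11)]),(0,7,[(6,8)])],[4]),([(0,18,[(9,11)]),(1,2,[(3,5),(2,4),(2,3)])],[4])],[],false,1,0,[2]),
    (false,[([(0,18,[(9,11)]),(0,7,[(6,8)])],[4]),([(0,18,[(9,11)]),(1,2,[(3,5),(2,4),(2,3),(2,2)])],[4])],[],false,1,0,[]),
    (false,[([(0,8,[(9,11),(6,6)]),(0,18,[(9,11)])],[2]),([(0,7,[(6,8)])],[4,4,3,3,1])],[],false,1,0,[]),
    (true,[([(0,18,[(9,11)]),(0,18,[(9,11)])],[2]),([(0,18,[(9,11)])],[2,1,1,1])],[8,5],false,2,2,[3]),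
    (false,[([(0,17,[(9,11),(3,3)]),(0,18,[(9,11)])],[]),([(0,18,[(9,11)])],[4,4,4,2,2,1])],[],false,1,0,[]),
    (true,[([(0,3,[(12,15)])],[1,1,1])],[9,8,7,6,5],false,5,5,[8,11,13,15]),
    (false,[([(0,3,[(12,15)]),(0,7,[(6,8)])],[])],[10,8,7,5],false,4,5,[6,8]),
    (true,[([(0,3,[(12,15)]),(0,7,[(6,8)])],[]),([(0,1,[(5,6)])],[3,2,2,1,1])],[8,7],false,2,6,[3,6]),
    (true,[([(0,3,[(12,15)]),(0,7,[(6,8)])],[]),([(0,1,[(5,6)]),(0,11,[(3,3)])],[3,2,1])],[8,7],false,2,4,[3]),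
    (true,[([(0,4,[(12,15),(5,6)])],[5,5,4]),([(0,7,[(6,8)]),(0,1,[(3,3),(3,3)])],[4])],[],false,1,0,[3]),
    (true,[([(0,4,[(12,15),(5,6)])],[5,5,4]),([(0,7,[(6,8)]),(1,1,[(3,3),(3,3),(2,3)])],[])],[],false,1,0,[2]),
    (true,[([(0,4,[(12,15),(5,6)])],[5,4,3]),([(0,0,[(6,8),(2,2)]),(1,1,[(3,3),(3,3),(2,3)])],[])],[],false,1,0,[]),
    (true,[([(0,3,[(12,15)]),(0,7,[(6,8)])],[]),([(0,1,[(5,6)]),(0,1,[(4,6)])],[2,1])],[8,7],false,2,3,[3,4]),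
    (true,[([(0,3,[(12,15)]),(0,7,[(6,8)])],[]),([(0,1,[(5,6)]),(0,1,[(4,6)]),(0,11,[(3,3)])],[])],[8,7],false,2,1,[]),
    (true,[([(0,4,[(12,15),(5,6)])],[5,5,4]),([(0,7,[(6,8)]),(0,0,[(4,6),(4,4)])],[])],[],false,1,0,[]),
    (true,[([(0,3,[(12,15)]),(0,7,[(6,8)])],[]),([(0,5,[(7,8)])],[2,2,1,1,1])],[8,7],false,2,4,[4,5]),
    (false,[([(0,3,[(12,15)]),(0,7,[(6,8)])],[4]),([(0,5,[(7,8)]),(1,1,[(3,4)])],[4,4])],[],false,1,0,[2,3]),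
    (true,[([(0,3,[(12,15)]),(0,7,[(6,8)])],[]),([(0,5,[(7,8)]),(0,1,[(3,4),(2,2)])],[3,3])],[8,2],false,2,1,[]),
    (false,[([(0,3,[(12,15)]),(0,7,[(6,8)])],[4]),([(0,5,[(7,8)]),(1,1,[(3,4),(3,3)])],[4,4])],[],false,1,0,[]),
    (true,[([(0,4,[(12,15),(5,5)])],[5,4,3]),([(0,7,[(6,8)]),(0,5,[(7,8)])],[4])],[],false,1,0,[]),
    (false,[([(0,3,[(12,15)]),(0,18,[(9,11)])],[])],[10,8,5,4],false,4,4,[6,8]),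
    (true,[([(0,3,[(12,15)]),(0,18,[(9,11)])],[]),([(0,1,[(5,6)])],[3,2,1,1,1])],[8,5],false,2,3,[4]),
    (true,[([(0,4,[(12,15),(5,6)])],[5,3,3]),([(0,18,[(9,11)]),(1,1,[(3,4)])],[])],[],false,1,0,[2]),
    (true,[([(0,4,[(12,15),(5,6)])],[5,3,3]),([(0,18,[(9,11)]),(0,1,[(3,4),(2,2)])],[4])],[],false,1,0,[]),
    (true,[([(0,3,[(12,15)]),(0,18,[(9,11)])],[]),([(0,5,[(7,8)])],[2,1,1,1,1])],[8,5],false,2,1,[]),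
    (true,[([(0,3,[(12,15)]),(0,12,[(12,13)])],[])],[8,7,5,3,2],false,5,2,[]),
    (true,[([(0,39,[(12,15),(14,15)])],[3])],[9,8,3],false,3,2,[]),
    (true,[([(0,4,[(16,21)])],[1,1])],[9,8,7,6],false,4,6,[6,10,12]),
    (false,[([(0,4,[(16,21)]),(0,1,[(5,6)])],[5])],[9,7,5],false,3,5,[4,6]),
    (true,[([(0,4,[(16,21)]),(0,1,[(5,6)])],[]),([(0,19,[(4,4)])],[2,2,1,1,1,1])],[8,6],false,2,4,[4]),
    (true,[([(0,4,[(16,21)])],[5,4,3]),([(0,0,[(5,6),(4,4)]),(1,1,[(3,4)])],[])],[],false,1,0,[3]),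
    (true,[([(0,4,[(16,21)])],[5,4,3]),([(0,0,[(5,6),(4,4)]),(1,1,[(3,4),(2,3)])],[])],[],false,1,0,[2]),
    (true,[([(0,4,[(16,21)])],[5,4,3]),([(0,0,[(5,6),(4,4)]),(1,1,[(3,4),(2,3),(2,2)])],[])],[],false,1,0,[]),
    (false,[([(0,4,[(16,21)]),(0,1,[(5,6)])],[5]),([(0,1,[(5,6)])],[3,3,3,3,2,1])],[],false,1,0,[2,4]),
    (true,[([(0,4,[(16,21)])],[5,5,4]),([(0,7,[(5,6),(2,2)]),(0,1,[(5,6)])],[4])],[],false,1,0,[2]),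
    (true,[([(0,4,[(16,21)])],[5,4,3]),([(0,0,[(5,6),(2,2),(2,2)]),(0,1,[(5,6)])],[4])],[],false,1,0,[2]),
    (true,[([(0,4,[(16,21)])],[5,5,4]),([(0,0,[(5,6),(2,2),(2,2)]),(0,7,[(5,6),(2,2)])],[])],[],false,1,0,[]),
    (true,[([(0,4,[(16,21)])],[5,4,3]),([(0,0,[(5,6),(3,4)]),(0,1,[(5,6)])],[4])],[],false,1,0,[2]),
    (true,[([(0,4,[(16,21)])],[5,5,4]),([(0,0,[(5,6),(3,4)]),(0,7,[(5,6),(2,2)])],[])],[],false,1,0,[]),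
    (true,[([(0,4,[(16,21)])],[1,1]),([(0,0,[(7,10)])],[4,4,4,4,4])],[],false,1,0,[2,4,6]),
    (true,[([(0,4,[(16,21)]),(0,11,[(2,2)])],[]),([(0,0,[(7,10)])],[4,4,4,4,3])],[],false,1,0,[2]),
    (true,[([(0,4,[(16,21)])],[5,4,3]),([(0,0,[(7,10)]),(1,0,[(2,2),(2,2)])],[4])],[],false,1,0,[2]),
    (true,[([(0,4,[(16,21)])],[5,4,3]),([(0,0,[(7,10)]),(1,0,[(2,2),(2,2),(2,2)])],[4])],[],false,1,0,[2]),
    (true,[([(0,4,[(16,21)])],[5,4,3]),([(0,0,[(7,10)]),(1,1,[(2,2),(2,2),(2,2),(2,2)])],[])],[],false,1,0,[2]),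
    (true,[([(0,4,[(16,21)])],[5,4,3]),([(0,0,[(7,10)]),(1,1,[(2,2),(2,2),(2,2),(2,2),(2,2)])],[])],[],false,1,0,[]),
    (true,[([(0,4,[(16,21)])],[5,4,3]),([(0,0,[(7,10)]),(1,1,[(3,4)])],[])],[],false,1,0,[2,3,4]),
    (true,[([(0,4,[(16,21)])],[5,4,3]),([(0,0,[(7,10)]),(0,1,[(3,4),(2,2)])],[4])],[],false,1,0,[2]),
    (true,[([(0,4,[(16,21)])],[5,4,3]),([(0,0,[(7,10)]),(1,1,[(3,4),(2,2),(2,2)])],[])],[],false,1,0,[2]),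
    (true,[([(0,4,[(16,21)])],[5,4,3]),([(0,0,[(7,10)]),(1,1,[(3,4),(2,2),(2,2),(2,2)])],[])],[],false,1,0,[]),
    (true,[([(0,4,[(16,21)])],[5,4,3]),([(0,0,[(7,10)]),(1,1,[(3,4),(3,3)])],[])],[],false,1,0,[2]),
    (true,[([(0,4,[(16,21)])],[5,4,3]),([(0,0,[(7,10)]),(1,1,[(3,4),(3,3),(2,2)])],[])],[],false,1,0,[]),
    (true,[([(0,4,[(16,21)])],[5,5,4]),([(0,0,[(7,10)]),(0,7,[(3,4),(4,4)])],[])],[],false,1,0,[]),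
    (true,[([(0,4,[(16,21)])],[5,4,3]),([(0,0,[(7,10)]),(0,1,[(5,6)])],[4])],[],false,1,0,[2]),
    (true,[([(0,4,[(16,21)])],[5,5,4]),([(0,0,[(7,10)]),(0,7,[(5,6),(2,2)])],[])],[],false,1,0,[]),
    (true,[([(0,4,[(16,21)])],[2,2]),([(0,36,[(11,12)])],[4,4,4,3,1])],[],false,1,0,[2]),
    (true,[([(0,4,[(16,21)]),(0,11,[(2,2)])],[2]),([(0,36,[(11,12)])],[4,4,4,3])],[],false,1,0,[]),
    (true,[([(0,38,[(22,27)])],[4])],[9,8,5],false,3,5,[6]),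
    (true,[([(0,38,[(22,27)])],[4]),([(0,1,[(4,6)])],[3,3,3,3,2,2])],[],false,1,0,[3]),
    (true,[([(0,38,[(22,27)])],[4,4]),([(0,1,[(4,6)]),(0,11,[(2,3)])],[3,3,3])],[],false,1,0,[2]),
    (true,[([(0,38,[(22,27)])],[4,4]),([(0,1,[(4,6)]),(1,0,[(2,3),(2,2)])],[3,3])],[],false,1,0,[])]),
  ([10,9,8,7,6,5,4,3,2], [
    (false,[],[10,9,8,7,6,5,4,3,2],false,8,4,[12,16,21,27]),
    (true,[([(0,2,[(9,12)])],[4])],[9,9,8,7,5],false,3,10,[5,7,9,11,12]),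
    (true,[([(0,2,[(9,12)]),(0,9,[(4,5)])],[4])],[9,8,7,6,3],false,5,3,[]),
    (true,[([(0,2,[(9,12)]),(0,6,[(6,7)])],[])],[9,8,7,6,5],false,5,5,[6,7]),
    (false,[([(0,2,[(9,12)]),(0,17,[(6,7),(6,6)])],[])],[9,8,6,5],false,4,5,[6]),
    (true,[([(0,2,[(9,12)]),(0,6,[(6,7)])],[]),([(0,1,[(6,6)]),(0,1,[(5,6)])],[3,3,3])],[8,6],false,2,4,[3,5]),
    (true,[([(0,4,[(9,12),(6,6),(3,3)])],[4,4,4]),([(0,6,[(6,7)]),(0,1,[(5,6)])],[4,4])],[],false,1,0,[3]),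
    (true,[([(0,4,[(9,12),(6,6),(3,3)]),(0,1,[(5,6)])],[]),([(0,0,[(6,7),(2,3)])],[4,4,4,3,2])],[],false,1,0,[2]),
    (true,[([(0,4,[(9,12),(6,6),(3,3)])],[4,4,3]),([(0,0,[(6,7),(2,3)]),(0,7,[(5,6),(2,2)])],[4])],[],false,1,0,[]),
    (false,[([(0,2,[(9,12)]),(0,17,[(6,7),(6,6)])],[]),([(0,1,[(5,6)]),(0,9,[(4,5)])],[3,3,3])],[8],false,1,0,[2]),
    (false,[([(0,2,[(9,12)]),(0,3,[(6,7),(6,6),(2,2)])],[]),([(0,1,[(5,6)]),(0,9,[(4,5)])],[3,3,2])],[8],false,1,0,[]),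
    (false,[([(0,2,[(9,12)]),(0,17,[(6,7),(7,7)])],[])],[9,8,6,5],false,4,5,[6,7]),
    (true,[([(0,2,[(9,12)]),(0,6,[(6,7)])],[]),([(0,5,[(7,7)]),(0,1,[(5,6)])],[3,3])],[9,6],false,2,3,[4]),
    (false,[([(0,2,[(9,12)]),(0,17,[(6,7),(7,7)])],[]),([(0,0,[(5,6),(3,4)])],[4,4,4,4,2])],[],false,1,0,[2]),
    (true,[([(0,4,[(9,12),(7,7),(2,2)])],[4,4,4]),([(0,6,[(6,7)]),(0,0,[(5,6),(3,4)])],[4])],[],false,1,0,[]),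
    (true,[([(0,2,[(9,12)]),(0,6,[(6,7)])],[]),([(0,5,[(7,7)]),(0,5,[(7,7)])],[3,1])],[9,6],false,2,1,[]),
    (true,[([(0,2,[(9,12)]),(0,0,[(8,9)])],[])],[9,8,7,5,3],false,5,3,[8,9]),
    (true,[([(0,4,[(9,12),(8,9)])],[2,2,2]),([(0,7,[(6,8)])],[4,4,4,4,3])],[],false,1,0,[2,3,4,6,7]),
    (true,[([(0,4,[(9,12),(8,9)])],[1,1,1]),([(0,0,[(6,8),(2,2)])],[4,4,4,4,4])],[],false,1,0,[2]),
    (true,[([(0,4,[(9,12),(8,9)]),(0,11,[(2,2)])],[1]),([(0,0,[(6,8),(2,2)])],[4,4,4,4,3])],[],false,1,0,[2]),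
    (true,[([(0,4,[(9,12),(8,9)]),(1,0,[(2,2),(2,2)])],[]),([(0,0,[(6,8),(2,2)])],[4,4,4,3,2])],[],false,1,0,[2]),
    (true,[([(0,4,[(9,12),(8,9)]),(1,0,[(2,2),(2,2),(2,2)])],[]),([(0,0,[(6,8),(2,2)])],[4,4,4,3,2])],[],false,1,0,[2]),
    (true,[([(0,4,[(9,12),(8,9)])],[4,3,2]),([(0,0,[(6,8),(2,2)]),(1,1,[(2,2),(2,2),(2,2),(2,2)])],[4])],[],false,1,0,[2]),
    (true,[([(0,4,[(9,12),(8,9)])],[4,3,2]),([(0,0,[(6,8),(2,2)]),(1,1,[(2,2),(2,2),(2,2),(2,2),(2,2)])],[4])],[],false,1,0,[]),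
    (true,[([(0,4,[(9,12),(8,9)])],[4,4,3]),([(0,7,[(6,8)]),(0,11,[(3,3)])],[4,4,3])],[],false,1,0,[3]),
    (true,[([(0,4,[(9,12),(8,9)])],[4,4,3]),([(0,7,[(6,8)]),(0,1,[(3,3),(2,3)])],[4,4])],[],false,1,0,[2,3]),
    (true,[([(0,4,[(9,12),(8,9)]),(0,1,[(3,3),(2,3)])],[]),([(0,0,[(6,8),(2,2)])],[4,4,4,3,2])],[],false,1,0,[2]),
    (true,[([(0,4,[(9,12),(8,9)])],[4,3,2]),([(0,0,[(6,8),(2,2)]),(1,1,[(3,3),(2,3),(2,2)])],[4])],[],false,1,0,[2]),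
    (true,[([(0,4,[(9,12),(8,9)])],[4,3,2]),([(0,0,[(6,8),(2,2)]),(1,1,[(3,3),(2,3),(2,2),(2,2)])],[4])],[],false,1,0,[]),
    (true,[([(0,4,[(9,12),(8,9)])],[4,4,3]),([(0,7,[(6,8)]),(1,1,[(3,3),(2,3),(3,3)])],[4])],[],false,1,0,[2]),
    (true,[([(0,4,[(9,12),(8,9)])],[4,3,2]),([(0,0,[(6,8),(2,2)]),(1,1,[(3,3),(2,3),(3,3)])],[4])],[],false,1,0,[]),
    (true,[([(0,4,[(9,12),(8,9)]),(0,19,[(4,4)])],[2]),([(0,7,[(6,8)])],[4,4,4,4,3])],[],false,1,0,[3,4]),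
    (true,[([(0,4,[(9,12),(8,9)])],[4,4,3]),([(0,7,[(6,8)]),(1,1,[(4,4),(2,3)])],[4])],[],false,1,0,[2,3]),
    (true,[([(0,4,[(9,12),(8,9)])],[4,3,2]),([(0,0,[(6,8),(2,2)]),(1,1,[(4,4),(2,3)])],[4])],[],false,1,0,[2]),
    (true,[([(0,4,[(9,12),(8,9)])],[4,3,2]),([(0,0,[(6,8),(2,2)]),(1,1,[(4,4),(2,3),(2,2)])],[4])],[],false,1,0,[]),
    (true,[([(0,4,[(9,12),(8,9)])],[4,4,3]),([(0,7,[(6,8)]),(0,0,[(4,4),(2,3),(3,3)])],[4])],[],false,1,0,[]),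
    (true,[([(0,4,[(9,12),(8,9)])],[5,5,4]),([(0,7,[(6,8)]),(0,7,[(4,4),(4,4)])],[3])],[],false,1,0,[]),
    (true,[([(0,4,[(9,12),(8,9)])],[4,4,3]),([(0,7,[(6,8)]),(0,1,[(5,6)])],[4,4])],[],false,1,0,[3]),
    (true,[([(0,4,[(9,12),(8,9)])],[6,6,4]),([(0,7,[(6,8)]),(0,1,[(5,6)]),(0,11,[(2,3)])],[])],[],false,1,0,[2]),
    (true,[([(0,4,[(9,12),(8,9)])],[6,5,3]),([(0,0,[(6,8),(2,2)]),(0,1,[(5,6)]),(0,11,[(2,3)])],[])],[],false,1,0,[]),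
    (true,[([(0,4,[(9,12),(8,9)])],[5,5,5]),([(0,7,[(6,8)]),(0,6,[(7,7)])],[3])],[],false,1,0,[]),
    (true,[([(0,4,[(9,12),(8,9)]),(0,14,[(9,9)])],[])],[9,6,5,4],false,4,3,[]),
    (true,[([(0,2,[(9,12)]),(0,18,[(10,11)])],[])],[9,8,7,4,3],false,5,3,[6,10]),
    (false,[([(0,2,[(9,12)]),(0,8,[(10,11),(6,6)])],[])],[9,8,5,3],false,4,3,[5]),
    (true,[([(0,23,[(9,12),(10,11),(5,5)])],[1,1]),([(0,1,[(6,6)])],[3,3,3,3,3,3])],[],false,1,0,[]),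
    (false,[([(0,2,[(9,12)]),(0,18,[(10,11)])],[5]),([(0,0,[(7,10)])],[4,4,4,2,2])],[],false,1,0,[4]),
    (false,[([(0,2,[(9,12)]),(0,3,[(10,11),(2,4)])],[]),([(0,0,[(7,10)])],[4,4,4,3,2])],[],false,1,0,[2,3]),
    (false,[([(0,2,[(9,12)]),(0,12,[(10,11),(2,2)])],[5]),([(0,0,[(7,10)]),(1,1,[(2,4)])],[4])],[],false,1,0,[2]),
    (false,[([(0,2,[(9,12)]),(0,12,[(10,11),(2,2)])],[5]),([(0,0,[(7,10)]),(1,1,[(2,4),(2,2)])],[4])],[],false,1,0,[]),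
    (false,[([(0,3,[(9,12),(3,3)]),(0,3,[(10,11),(2,4)])],[]),([(0,0,[(7,10)])],[4,4,3,2,1])],[],false,1,0,[]),
    (true,[([(0,2,[(9,12)]),(0,36,[(12,12)])],[])],[9,8,6,5,2],false,5,2,[8]),
    (true,[([(0,20,[(9,12),(12,12)])],[2,2,2]),([(0,7,[(6,8)])],[4,3,3,3,3])],[],false,1,0,[3]),
    (true,[([(0,20,[(9,12),(12,12)])],[4,3,2]),([(0,7,[(6,8)]),(0,11,[(2,3)])],[4,3,3])],[],false,1,0,[2]),
    (true,[([(0,20,[(9,12),(12,12)]),(0,11,[(2,3)])],[1]),([(0,0,[(6,8),(2,2)])],[4,3,3,3,3])],[],false,1,0,[]),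
    (true,[([(0,37,[(13,16)])],[5,3,1])],[9,8,7,5],false,4,5,[5,6,7,9,12,14,15]),
    (true,[([(0,4,[(13,16),(5,5)])],[1,1,1])],[9,8,7,6],false,4,6,[5]),
    (true,[([(0,4,[(13,16),(5,5)]),(0,9,[(5,5)])],[])],[9,8,7,4],false,4,4,[5]),
    (true,[([(0,4,[(13,16),(5,5)])],[1,1,1]),([(0,0,[(5,5),(5,5)])],[4,4,4,4,4])],[],false,1,0,[3]),
    (true,[([(0,4,[(13,16),(5,5)]),(0,11,[(2,3)])],[1]),([(0,0,[(5,5),(5,5)])],[4,4,4,4,3])],[],false,1,0,[2]),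
    (true,[([(0,23,[(13,16),(5,5),(5,5),(2,2)])],[3,3]),([(0,9,[(5,5)]),(0,11,[(2,3)])],[3,3,3,3])],[],false,1,0,[]),
    (true,[([(0,16,[(13,16),(6,6)])],[3,1,1])],[9,8,7,3],false,4,3,[6]),
    (true,[([(0,16,[(13,16),(6,6)]),(0,1,[(5,6)])],[])],[9,8,6,3],false,4,3,[6]),
    (true,[([(0,23,[(13,16),(6,6),(5,6)])],[1,1]),([(0,1,[(5,6)])],[3,3,3,3,3,3])],[],false,1,0,[2]),
    (true,[([(0,23,[(13,16),(6,6),(5,6)]),(0,11,[(2,2)])],[]),([(0,1,[(5,6)])],[3,3,3,3,3,2])],[],false,1,0,[]),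
    (true,[([(0,40,[(13,16),(7,7)])],[5,4])],[9,7,6],false,3,6,[5,7]),
    (true,[([(0,4,[(13,16),(4,5)]),(0,5,[(7,7)])],[])],[9,7,5,4],false,4,4,[5]),
    (true,[([(0,23,[(13,16),(7,7),(4,5)])],[2,2]),([(0,9,[(5,5)])],[3,3,3,3,3,2])],[],false,1,0,[2]),
    (true,[([(0,23,[(13,16),(7,7),(4,5)])],[3,3]),([(0,9,[(5,5)]),(0,11,[(2,2)])],[3,3,3,3])],[],false,1,0,[]),
    (true,[([(0,34,[(13,16),(7,7),(6,7)])],[7])],[9,8],false,2,3,[3,4]),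
    (true,[([(0,34,[(13,16),(7,7),(6,7)])],[7]),([(0,11,[(3,3)])],[2,2,2,2,2,2,2])],[],false,1,0,[2]),
    (true,[([(0,25,[(13,16),(6,7)])],[6,2]),([(0,5,[(7,7)]),(0,1,[(3,3),(2,2)])],[3,3,3])],[],false,1,0,[]),
    (true,[([(0,34,[(13,16),(7,7),(6,7)])],[7]),([(0,19,[(4,4)])],[2,2,2,2,2,2,1])],[],false,1,0,[]),
    (true,[([(0,29,[(13,16),(8,9)])],[5,1])],[9,8,6],false,3,6,[5,6,8]),
    (true,[([(0,29,[(13,16),(8,9)])],[5,2]),([(0,9,[(4,5)])],[3,3,3,3,3,2])],[],false,1,0,[2,4,5]),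
    (true,[([(0,29,[(13,16),(8,9)])],[5,3]),([(0,1,[(4,5)]),(0,11,[(2,2)])],[3,3,3,3])],[],false,1,0,[2]),
    (true,[([(0,29,[(13,16),(8,9)])],[5,3]),([(0,1,[(4,5)]),(1,0,[(2,2),(2,2)])],[3,3,3])],[],false,1,0,[2]),
    (true,[([(0,29,[(13,16),(8,9)])],[5,3]),([(0,1,[(4,5)]),(1,0,[(2,2),(2,2),(2,2)])],[3,3,3])],[],false,1,0,[2]),
    (true,[([(0,4,[(13,16),(4,5)]),(1,0,[(2,2),(2,2),(2,2)])],[]),([(0,18,[(8,9),(2,2)])],[4,4,4,2,2])],[],false,1,0,[]),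
    (true,[([(0,4,[(13,16),(4,5)])],[4,3,2]),([(0,0,[(8,9)]),(1,1,[(3,4)])],[4])],[],false,1,0,[3]),
    (true,[([(0,4,[(13,16),(4,5)])],[4,3,2]),([(0,0,[(8,9)]),(1,1,[(3,4),(2,3)])],[4])],[],false,1,0,[2]),
    (true,[([(0,4,[(13,16),(4,5)])],[4,2,2]),([(0,18,[(8,9),(2,2)]),(1,1,[(3,4),(2,3)])],[4])],[],false,1,0,[]),
    (true,[([(0,29,[(13,16),(8,9)])],[5,3]),([(0,1,[(4,5)]),(0,1,[(5,5)])],[3,3,3])],[],false,1,0,[]),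
    (true,[([(0,29,[(13,16),(8,9)])],[5,1]),([(0,1,[(6,6)])],[3,3,3,3,3,2])],[],false,1,0,[3]),
    (true,[([(0,29,[(13,16),(8,9)])],[5,3]),([(0,1,[(6,6)]),(0,11,[(2,3)])],[3,3,3,3])],[],false,1,0,[2]),
    (true,[([(0,29,[(13,16),(8,9)])],[5,1]),([(0,5,[(6,6),(2,2)]),(0,11,[(2,3)])],[3,3,3,3])],[],false,1,0,[]),
    (true,[([(0,29,[(13,16),(8,9)])],[5]),([(0,5,[(7,8)])],[3,3,3,3,2,2])],[],false,1,0,[2]),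
    (true,[([(0,29,[(13,16),(8,9)])],[5,1]),([(0,5,[(7,8)]),(0,11,[(2,2)])],[3,3,3,3])],[],false,1,0,[]),
    (true,[([(0,23,[(13,16),(10,12)])],[1,1])],[9,8,7],false,3,5,[6]),
    (true,[([(0,23,[(13,16),(10,12)])],[1,1]),([(0,1,[(4,6)])],[3,3,3,3,3,3])],[],false,1,0,[3]),
    (true,[([(0,23,[(13,16),(10,12)]),(0,11,[(2,3)])],[]),([(0,1,[(4,6)])],[3,3,3,3,3,2])],[],false,1,0,[2]),
    (true,[([(0,23,[(13,16),(10,12)])],[3,2]),([(0,1,[(4,6)]),(1,0,[(2,3),(2,2)])],[3,3,3])],[],false,1,0,[]),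
    (true,[([(0,39,[(13,16),(13,14)])],[3,1])],[9,8,3],false,3,2,[]),
    (false,[([(0,41,[(13,16),(15,15)])],[7,4,3])],[5,4],false,1,0,[]),
    (true,[([(0,4,[(17,21)])],[1,1,1])],[9,8,7,6],false,4,6,[6,10,11]),
    (true,[([(0,4,[(17,21)]),(0,1,[(5,6)])],[])],[9,8,6,4],false,4,4,[6]),
    (false,[([(0,4,[(17,21)]),(0,1,[(5,6)])],[6]),([(0,1,[(5,6)])],[3,3,3,3,2,1])],[],false,1,0,[3]),
    (false,[([(0,4,[(17,21)]),(0,1,[(5,6)])],[6]),([(0,1,[(5,6)]),(0,11,[(2,3)])],[3,3,3,3])],[],false,1,0,[2]),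
    (true,[([(0,4,[(17,21)])],[6,6,4]),([(0,7,[(5,6),(2,2)]),(0,1,[(5,6)]),(0,11,[(2,3)])],[])],[],false,1,0,[]),
    (true,[([(0,4,[(17,21)])],[1,1,1]),([(0,0,[(7,10)])],[4,4,4,4,4])],[],false,1,0,[3,5]),
    (true,[([(0,4,[(17,21)]),(0,11,[(2,3)])],[1]),([(0,0,[(7,10)])],[4,4,4,4,3])],[],false,1,0,[3]),
    (true,[([(0,4,[(17,21)])],[4,3,2]),([(0,0,[(7,10)]),(1,1,[(2,3),(2,3)])],[4])],[],false,1,0,[2,3]),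
    (true,[([(0,4,[(17,21)])],[4,3,2]),([(0,0,[(7,10)]),(1,1,[(2,3),(2,3),(2,2)])],[4])],[],false,1,0,[2]),
    (true,[([(0,4,[(17,21)])],[4,3,2]),([(0,0,[(7,10)]),(1,1,[(2,3),(2,3),(2,2),(2,2)])],[4])],[],false,1,0,[]),
    (true,[([(0,4,[(17,21)])],[4,3,2]),([(0,0,[(7,10)]),(1,1,[(2,3),(2,3),(3,3)])],[4])],[],false,1,0,[]),
    (true,[([(0,4,[(17,21)]),(0,9,[(4,5)])],[]),([(0,0,[(7,10)])],[4,4,4,3,3])],[],false,1,0,[2]),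
    (true,[([(0,4,[(17,21)])],[6,5,4]),([(0,0,[(7,10)]),(0,9,[(4,5)]),(0,11,[(2,2)])],[])],[],false,1,0,[]),
    (false,[([(0,42,[(17,21),(11,11)])],[8,6])],[8],false,1,0,[]),
    (true,[([(0,38,[(22,27)])],[4,1])],[9,8,5],false,3,5,[6]),
    (true,[([(0,38,[(22,27)])],[4,1]),([(0,1,[(4,6)])],[3,3,3,3,2,2])],[],false,1,0,[3]),
    (true,[([(0,38,[(22,27)])],[4,2]),([(0,1,[(4,6)]),(0,11,[(2,3)])],[3,3,3,3])],[],false,1,0,[2]),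
    (true,[([(0,38,[(22,27)])],[4,2]),([(0,1,[(4,6)]),(1,0,[(2,3),(2,2)])],[3,3,3])],[],false,1,0,[])]),
  ([11,10,8,7,6,4,3,2,1], [
    (false,[],[11,10,8,7,6,4,3,2,1],false,8,3,[12,17,23,27]),
    (false,[([(0,2,[(9,12)])],[4])],[11,10,8,7],false,4,7,[6,10,12]),
    (true,[([(0,2,[(9,12)]),(0,1,[(5,6)])],[4])],[8,7,5,5,3,2],false,4,5,[5,6]),
    (true,[([(0,2,[(9,12)]),(0,1,[(5,6)])],[4]),([(0,9,[(5,5)])],[3,2])],[8,7,5],false,3,5,[5]),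
    (true,[([(0,2,[(9,12)]),(0,0,[(5,5),(4,5)])],[]),([(0,1,[(5,6)])],[3,1])],[8,7,5],false,3,5,[4,5]),
    (false,[([(0,31,[(9,12),(5,5)]),(0,3,[(5,6),(4,5),(4,4)])],[])],[10,7,3],false,3,3,[4]),
    (true,[([(0,4,[(9,12),(5,5),(4,4)]),(0,1,[(5,6)])],[]),([(0,9,[(4,5)]),(0,19,[(4,4)])],[3])],[8,5],false,2,1,[]),
    (true,[([(0,31,[(9,12),(5,5)])],[5,4]),([(0,1,[(5,6)]),(0,9,[(4,5)]),(0,1,[(5,5)])],[])],[7,2],true,2,3,[4]),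
    (false,[([(0,31,[(9,12),(5,5)]),(0,3,[(5,6),(5,5),(3,4)])],[]),([(0,9,[(4,5)])],[3,3,2,2,2,2,1])],[],false,1,0,[2]),
    (false,[([(0,31,[(9,12),(5,5)]),(0,3,[(5,6),(5,5),(3,4)])],[]),([(0,9,[(4,5)]),(0,11,[(2,2)])],[3,3,2,2,2])],[],false,1,0,[]),
    (true,[([(0,2,[(9,12)]),(0,1,[(5,6)])],[4]),([(0,1,[(6,6)])],[3,1])],[8,7,5],false,3,5,[5,6]),
    (true,[([(0,2,[(9,12)]),(0,18,[(6,6),(4,5)])],[]),([(0,1,[(5,6)])],[3])],[8,7,5],false,3,5,[4,5]),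
    (false,[([(0,2,[(9,12)]),(0,4,[(5,6),(6,6),(4,5),(4,4)])],[])],[10,7,2],false,3,2,[4]),
    (false,[([(0,2,[(9,12)]),(0,4,[(5,6),(6,6),(4,5),(4,4)])],[]),([(0,19,[(4,4)])],[1,1,1,1,1])],[10],false,1,0,[]),
    (true,[([(0,25,[(9,12),(6,6),(5,5)])],[6]),([(0,1,[(5,6)]),(0,9,[(4,5)])],[2,2,1])],[7],false,1,0,[2,3]),
    (true,[([(0,25,[(9,12),(6,6),(5,5)])],[6,5]),([(0,7,[(5,6),(2,2)]),(0,1,[(4,5)])],[4])],[],false,1,0,[2]),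
    (true,[([(0,25,[(9,12),(6,6),(5,5)])],[6,4]),([(0,0,[(5,6),(2,2),(2,2)]),(0,9,[(4,5)])],[4])],[],false,1,0,[]),
    (true,[([(0,25,[(9,12),(6,6),(5,5)])],[6,4]),([(0,0,[(5,6),(3,3)]),(0,9,[(4,5)])],[4])],[],false,1,0,[]),
    (true,[([(0,2,[(9,12)])],[4,1]),([(0,22,[(5,6),(6,6),(6,6)])],[6,5,5])],[],false,1,0,[3,5]),
    (false,[([(0,2,[(9,12)]),(0,4,[(5,6),(6,6),(6,6),(2,3)])],[])],[10,7,2],false,3,2,[]),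
    (true,[([(0,2,[(9,12)]),(0,18,[(6,6),(4,5)])],[]),([(0,2,[(5,6),(6,6)])],[5,4])],[8],false,1,0,[2]),
    (false,[([(0,2,[(9,12)]),(0,4,[(5,6),(6,6),(6,6),(2,2)])],[]),([(0,9,[(4,5)])],[3,2,2,2,2,2,1])],[],false,1,0,[]),
    (true,[([(0,2,[(9,12)]),(0,0,[(7,10)])],[])],[8,7,5,5,3,2],false,4,5,[6,10]),
    (true,[([(0,2,[(9,12)]),(0,0,[(7,10)])],[]),([(0,1,[(5,6)])],[3,1])],[8,7,5],false,3,5,[6]),
    (true,[([(0,2,[(9,12)]),(0,0,[(7,10)])],[]),([(0,1,[(5,6)]),(0,1,[(4,6)])],[2])],[8,5,3],false,3,3,[6]),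
    (false,[([(0,2,[(9,12)]),(0,0,[(7,10)])],[1]),([(0,1,[(5,6)]),(0,1,[(4,6)]),(0,1,[(4,6)])],[2,1])],[8],false,1,0,[2,3]),
    (false,[([(0,2,[(9,12)]),(0,0,[(7,10)]),(0,11,[(2,2)])],[]),([(0,1,[(5,6)]),(0,1,[(4,6)]),(0,1,[(4,6)])],[1])],[8],false,1,0,[2]),
    (false,[([(0,2,[(9,12)]),(0,0,[(7,10)])],[5,3]),([(0,0,[(5,6),(2,2),(2,2)]),(0,1,[(4,6)]),(0,1,[(4,6)])],[])],[],false,1,0,[]),
    (false,[([(0,3,[(9,12),(3,3)]),(0,0,[(7,10)])],[3]),([(0,1,[(5,6)]),(0,1,[(4,6)]),(0,1,[(4,6)])],[3,1])],[2],false,1,0,[]),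
    (false,[([(0,2,[(9,12)]),(0,0,[(7,10)])],[1]),([(0,0,[(7,10)])],[4,4,3,3,3,1,1])],[],false,1,0,[3,4,6,7]),
    (true,[([(0,2,[(9,12)]),(0,0,[(7,10)])],[]),([(0,0,[(7,10)]),(0,11,[(2,3)])],[4])],[8,5],false,2,5,[3]),
    (true,[([(0,3,[(9,12),(3,3)]),(0,0,[(7,10)])],[]),([(0,0,[(7,10)]),(0,11,[(2,3)])],[4,3])],[5,2],true,2,3,[3]),
    (true,[([(0,3,[(9,12),(3,3)]),(0,0,[(7,10)])],[]),([(0,0,[(7,10)]),(0,1,[(2,3),(3,3)])],[4])],[5,2],false,2,1,[]),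
    (true,[([(0,2,[(9,12)]),(0,19,[(4,4)])],[4]),([(0,0,[(7,10)]),(0,0,[(7,10)])],[3])],[5,4],false,2,3,[4]),
    (true,[([(0,2,[(9,12)]),(0,0,[(7,10)])],[]),([(0,0,[(7,10)]),(0,7,[(4,4),(3,4)])],[])],[7,5],false,2,1,[]),
    (false,[([(0,2,[(9,12)]),(0,0,[(7,10)])],[2]),([(0,0,[(7,10)]),(0,1,[(5,6)])],[4,4,3,1])],[],false,1,0,[3]),
    (false,[([(0,2,[(9,12)]),(0,0,[(7,10)]),(0,11,[(2,3)])],[]),([(0,0,[(7,10)]),(0,1,[(5,6)])],[4,4,3])],[],false,1,0,[2]),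
    (true,[([(0,2,[(9,12)]),(0,0,[(7,10)])],[]),([(0,0,[(7,10)]),(0,7,[(5,6),(2,2)])],[]),([(0,11,[(2,3)])],[2,2,2,2,1])],[],false,1,0,[]),
    (true,[([(0,22,[(9,12),(7,7)])],[3,1]),([(0,0,[(7,10)]),(0,0,[(7,10)])],[4])],[5],false,1,0,[]),
    (true,[([(0,2,[(9,12)]),(0,12,[(11,12)])],[])],[8,6,5,4,2,2],false,5,4,[9]),
    (false,[([(0,2,[(9,12)]),(0,4,[(11,12),(6,9)])],[])],[10,7,2],false,3,2,[4]),
    (false,[([(0,2,[(9,12)]),(0,4,[(11,12),(6,9)])],[]),([(0,19,[(4,4)])],[1,1,1,1,1])],[10],false,1,0,[]),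
    (true,[([(0,31,[(13,17)])],[5])],[9,8,6,5,2],false,4,6,[5,7,10,15]),
    (false,[([(0,31,[(13,17)]),(0,9,[(5,5)])],[5,3])],[10,8,4],false,2,10,[4,5]),
    (false,[([(0,31,[(13,17)]),(0,0,[(5,5),(3,4)])],[5])],[10,7,3],false,2,8,[3,4]),
    (false,[([(0,31,[(13,17)]),(1,2,[(5,5),(3,4),(3,3)])],[])],[10,7,3],false,3,3,[]),
    (false,[([(0,4,[(13,17),(4,4)]),(0,0,[(5,5),(3,4)])],[])],[11,7,3],false,3,3,[4]),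
    (false,[([(0,4,[(13,17),(4,4)]),(0,0,[(5,5),(3,4)])],[]),([(0,19,[(4,4)])],[2,1,1,1,1])],[11],false,1,0,[3]),
    (true,[([(0,4,[(13,17),(4,4)]),(0,19,[(4,4)])],[3]),([(1,2,[(5,5),(3,4),(2,3)])],[5,4])],[],false,1,0,[2]),
    (true,[([(0,4,[(13,17),(4,4)]),(0,11,[(2,3)])],[3]),([(0,3,[(5,5),(3,4),(4,4),(2,2)])],[5,4,1])],[],false,1,0,[]),
    (false,[([(0,31,[(13,17)]),(0,10,[(5,5),(5,5)])],[])],[10,8,7],false,3,6,[5]),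
    (false,[([(0,31,[(13,17)]),(0,3,[(5,5),(5,5),(4,5)])],[])],[10,7,3],false,3,3,[4]),
    (true,[([(0,4,[(13,17),(4,4)])],[]),([(0,3,[(5,5),(5,5),(4,5)])],[5,4,4,3])],[],false,1,0,[]),
    (true,[([(0,31,[(13,17)])],[5]),([(0,6,[(6,7)])],[4,3,3,3,2])],[8],false,1,0,[2,3,4,5,7]),
    (false,[([(0,31,[(13,17)]),(0,0,[(6,7),(2,2)])],[5])],[10,7,3],false,2,8,[]),
    (false,[([(0,31,[(13,17)]),(0,10,[(6,7),(3,3)])],[])],[10,8,7],false,3,7,[]),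
    (false,[([(0,4,[(13,17),(4,4)]),(0,6,[(6,7)])],[3])],[10,8,3],false,3,3,[4]),
    (false,[([(0,4,[(13,17),(4,4)]),(0,18,[(6,7),(4,4)])],[])],[11,6,3],false,3,3,[4]),
    (true,[([(0,4,[(13,17),(4,4)])],[]),([(0,3,[(6,7),(4,4),(4,4)])],[5,4,4,3])],[],false,1,0,[]),
    (true,[([(0,31,[(13,17)])],[5,1]),([(0,2,[(6,7),(5,5)])],[5,4,4,4])],[],false,1,0,[3,5]),
    (false,[([(0,31,[(13,17)]),(0,3,[(6,7),(5,5),(2,3)])],[])],[10,7,3],false,3,3,[]),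
    (true,[([(0,31,[(13,17)])],[5,3]),([(0,6,[(6,7)]),(0,0,[(5,5),(4,5)])],[3])],[7],false,1,0,[3]),
    (false,[([(0,31,[(13,17)]),(0,3,[(6,7),(5,5),(2,3)])],[]),([(0,9,[(4,5)])],[3,3,2,2,2,2,1])],[],false,1,0,[2]),
    (false,[([(0,31,[(13,17)]),(0,3,[(6,7),(5,5),(2,3)])],[]),([(0,9,[(4,5)]),(0,11,[(2,2)])],[3,3,2,2,2])],[],false,1,0,[]),
    (false,[([(0,31,[(13,17)]),(0,3,[(6,7),(6,7)])],[])],[10,7,3],false,3,3,[5]),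
    (true,[([(0,31,[(13,17)])],[6,5,5]),([(0,17,[(6,7),(6,7)]),(0,9,[(4,5)])],[])],[],false,1,0,[2]),
    (false,[([(0,31,[(13,17)]),(0,3,[(6,7),(6,7)])],[]),([(0,9,[(4,5)]),(0,11,[(2,2)])],[3,3,2,2,2])],[],false,1,0,[]),
    (false,[([(0,31,[(13,17)]),(0,10,[(8,10)])],[])],[10,8,7],false,3,7,[5,6,8]),
    (false,[([(0,31,[(13,17)]),(0,3,[(8,10),(4,5)])],[])],[10,7,3],false,3,3,[5]),
    (false,[([(0,31,[(13,17)]),(0,3,[(8,10),(4,5)])],[]),([(0,9,[(4,5)])],[3,3,2,2,2,2,1])],[],false,1,0,[2]),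
    (false,[([(0,31,[(13,17)]),(0,3,[(8,10),(4,5)])],[]),([(0,9,[(4,5)]),(0,11,[(2,2)])],[3,3,2,2,2])],[],false,1,0,[]),
    (true,[([(0,25,[(13,17),(6,6)])],[6]),([(0,0,[(8,10)])],[4,3,3,2,1])],[],false,1,0,[3]),
    (true,[([(0,25,[(13,17),(6,6)])],[6]),([(0,0,[(8,10)]),(0,11,[(2,3)])],[4,3,3])],[],false,1,0,[2]),
    (true,[([(0,25,[(13,17),(6,6)])],[6]),([(0,0,[(8,10)]),(1,0,[(2,3),(2,2)])],[4,3])],[],false,1,0,[]),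
    (false,[([(0,31,[(13,17)]),(0,10,[(8,10)])],[]),([(0,5,[(7,8)])],[3,3,3,3,3,1,1])],[],false,1,0,[2]),
    (true,[([(0,31,[(13,17)])],[5,5]),([(0,2,[(8,10),(2,2)]),(0,5,[(7,8)])],[5])],[],false,1,0,[]),
    (false,[([(0,31,[(13,17)]),(0,3,[(11,15)])],[])],[10,7,3],false,3,3,[5]),
    (false,[([(0,31,[(13,17)]),(0,3,[(11,15)])],[]),([(0,9,[(4,5)])],[3,3,2,2,2,2,1])],[],false,1,0,[2]),
    (false,[([(0,31,[(13,17)]),(0,3,[(11,15)])],[]),([(0,9,[(4,5)]),(0,11,[(2,2)])],[3,3,2,2,2])],[],false,1,0,[]),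
    (true,[([(0,25,[(18,23)])],[6,5])],[8,5,3,2],true,4,3,[6,10]),
    (false,[([(0,25,[(18,23)]),(0,1,[(5,6)])],[6])],[10,7],false,2,5,[4,6]),
    (true,[([(0,25,[(18,23)])],[6]),([(0,0,[(5,6),(3,4)])],[4,3,3,2,1])],[],false,1,0,[4]),
    (true,[([(0,25,[(18,23)])],[6]),([(0,0,[(5,6),(3,4)]),(1,1,[(2,4)])],[3])],[],false,1,0,[3]),
    (true,[([(0,25,[(18,23)])],[6]),([(0,0,[(5,6),(3,4)]),(1,1,[(2,4),(2,3)])],[3])],[],false,1,0,[2]),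
    (true,[([(0,25,[(18,23)])],[6]),([(0,0,[(5,6),(3,4)]),(1,1,[(2,4),(2,3),(2,2)])],[3])],[],false,1,0,[]),
    (true,[([(0,25,[(18,23)])],[6]),([(0,1,[(5,6)]),(0,1,[(5,6)])],[2])],[9],false,1,0,[2]),
    (true,[([(0,25,[(18,23)])],[6,5]),([(0,7,[(5,6),(2,2)]),(0,1,[(5,6)])],[4])],[],false,1,0,[]),
    (true,[([(0,25,[(18,23)])],[6]),([(0,0,[(7,10)])],[4,3,3,2,1])],[],false,1,0,[4]),
    (true,[([(0,25,[(18,23)])],[6]),([(0,0,[(7,10)]),(1,1,[(2,4)])],[3])],[],false,1,0,[3]),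
    (true,[([(0,25,[(18,23)])],[6]),([(0,0,[(7,10)]),(1,1,[(2,4),(2,3)])],[3])],[],false,1,0,[2]),
    (true,[([(0,25,[(18,23)])],[6]),([(0,0,[(7,10)]),(1,1,[(2,4),(2,3),(2,2)])],[3])],[],false,1,0,[]),
    (true,[([(0,43,[(24,27)])],[5,1])],[7,6,5,1],false,4,1,[])])]

theorem cj9d_0_ok : runAllJ S43 R43 F43 26 cj9d_0 = true := by decide +kernel

noncomputable def cj9d_1 : List (List ℕ × List NdJ) := [
  ([11,10,9,8,5,4,3,2,1], [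
    (false,[],[11,10,9,8,5,4,3,2,1],false,8,3,[12,16,21,27]),
    (true,[([(0,2,[(9,12)])],[4])],[9,8,7,5,4,4],false,5,5,[7,10,12]),
    (true,[([(0,2,[(9,12)]),(0,6,[(6,7)])],[])],[8,7,6,5,4,4],false,5,5,[6,7]),
    (false,[([(0,2,[(9,12)]),(0,17,[(6,7),(6,6)])],[2])],[10,9,5,1],false,3,6,[4,6]),
    (true,[([(0,2,[(9,12)]),(0,6,[(6,7)])],[]),([(0,1,[(6,6)]),(0,19,[(4,4)])],[3,3,3])],[6,5,4],false,3,4,[4]),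
    (true,[([(0,2,[(9,12)])],[5,5,5]),([(0,4,[(6,7),(6,6),(4,4),(4,4)])],[2,2,1])],[],false,1,0,[3]),
    (true,[([(0,2,[(9,12)])],[5,5,5]),([(0,4,[(6,7),(6,6),(4,4),(4,4)]),(0,11,[(2,3)])],[2])],[],false,1,0,[2]),
    (true,[([(0,2,[(9,12)]),(1,1,[(4,4),(2,3)])],[]),([(0,22,[(6,7),(6,6),(4,4),(2,2)])],[6,6])],[],false,1,0,[]),
    (true,[([(0,2,[(9,12)]),(0,6,[(6,7)])],[]),([(0,1,[(6,6)]),(0,1,[(5,6)])],[3,3])],[7,5,4],false,3,4,[4,5]),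
    (true,[([(0,2,[(9,12)]),(0,1,[(4,4)])],[4]),([(0,22,[(6,7),(6,6),(5,6)])],[6,6])],[],false,1,0,[2]),
    (true,[([(0,2,[(9,12)])],[5,5,5]),([(0,4,[(6,7),(6,6),(5,6),(2,2)]),(0,19,[(4,4)])],[1])],[],false,1,0,[]),
    (true,[([(0,2,[(9,12)]),(0,1,[(5,5)])],[4]),([(0,22,[(6,7),(6,6),(5,6)])],[6,6])],[],false,1,0,[]),
    (false,[([(0,22,[(9,12),(7,7)]),(0,7,[(6,7)])],[2])],[10,9,5],false,3,5,[6,7]),
    (true,[([(0,2,[(9,12)]),(0,6,[(6,7)])],[]),([(0,5,[(7,7)]),(0,1,[(4,6)])],[3])],[8,5,4],false,3,4,[5]),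
    (true,[([(0,22,[(9,12),(7,7)])],[6,6]),([(0,2,[(6,7),(4,5)]),(0,1,[(4,6)])],[4])],[],false,1,0,[2]),
    (false,[([(0,22,[(9,12),(7,7)]),(0,0,[(6,7),(2,2)])],[]),([(0,1,[(4,6)]),(0,1,[(4,5)])],[3,3,2,2,2])],[],false,1,0,[]),
    (false,[([(0,22,[(9,12),(7,7)]),(0,17,[(6,7),(7,7)])],[])],[10,8,2],false,2,1,[]),
    (true,[([(0,2,[(9,12)]),(0,0,[(8,10)])],[])],[8,7,5,4,4,3],false,5,3,[6,8,10]),
    (true,[([(0,2,[(9,12)]),(0,0,[(8,10)])],[]),([(0,1,[(6,6)])],[3,3])],[8,7,4],false,3,4,[5,6]),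
    (true,[([(0,2,[(9,12)]),(0,0,[(8,10)])],[]),([(0,1,[(6,6)]),(0,9,[(4,5)])],[3])],[8,5,4],false,3,3,[4]),
    (true,[([(0,2,[(9,12)])],[5,5,5]),([(0,4,[(8,10),(6,6),(4,5)]),(0,19,[(4,4)])],[1])],[],false,1,0,[]),
    (true,[([(0,2,[(9,12)])],[5,5,4]),([(0,16,[(8,10),(6,6),(6,6)])],[2,2,1])],[],false,1,0,[2]),
    (true,[([(0,2,[(9,12)])],[5,5,4]),([(0,16,[(8,10),(6,6),(6,6)]),(0,11,[(2,2)])],[2])],[],false,1,0,[]),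
    (true,[([(0,2,[(9,12)]),(0,0,[(8,10)])],[]),([(0,5,[(7,8)])],[3])],[8,7,5],false,3,5,[6]),
    (true,[([(0,2,[(9,12)]),(0,0,[(8,10)])],[]),([(0,5,[(7,8)]),(0,1,[(4,6)])],[3,2])],[5,4,3],false,3,2,[]),
    (true,[([(0,2,[(9,12)]),(0,0,[(8,10)])],[]),([(0,0,[(9,10)])],[4,4,1])],[8,4],false,2,3,[3,4]),
    (true,[([(0,3,[(9,12),(3,3)]),(0,0,[(8,10)])],[]),([(0,18,[(9,10)])],[4,1])],[8,4],false,2,1,[]),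
    (true,[([(0,2,[(9,12)])],[5,5,5]),([(0,4,[(8,10),(9,10)]),(0,19,[(4,4)])],[1])],[],false,1,0,[]),
    (true,[([(0,2,[(9,12)]),(0,36,[(11,12)])],[])],[8,6,5,4,4,2],false,5,2,[8,9]),
    (true,[([(0,2,[(9,12)]),(0,36,[(11,12)])],[]),([(0,7,[(6,8)])],[4,3,3,1])],[6,4],false,2,3,[4]),
    (false,[([(0,2,[(9,12)]),(0,7,[(6,8)])],[]),([(0,12,[(11,12)]),(1,1,[(3,4)])],[4,3,3])],[],false,1,0,[2]),
    (false,[([(0,2,[(9,12)]),(0,36,[(11,12)])],[2]),([(0,0,[(6,8),(2,2)]),(1,1,[(3,4)])],[3,2,2])],[],false,1,0,[]),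
    (true,[([(0,44,[(9,12),(9,9)])],[6,4]),([(0,36,[(11,12)])],[4,4,1,1])],[],false,1,0,[]),
    (true,[([(0,37,[(13,16)])],[5,4])],[9,7,5,4,3],false,5,3,[8,11,15]),
    (true,[([(0,37,[(13,16)])],[5,3]),([(0,7,[(6,8)])],[4,4,4])],[9],false,1,0,[2,3,5,7,8]),
    (false,[([(0,37,[(13,16)]),(0,0,[(6,8),(2,2)])],[5])],[10,9,3],false,2,8,[]),
    (false,[([(0,22,[(13,16),(3,3)]),(0,7,[(6,8)])],[2])],[10,9,5],false,3,5,[]),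
    (false,[([(0,4,[(13,16),(4,5)]),(0,7,[(6,8)])],[2])],[10,9,3],false,3,3,[4,5]),
    (true,[([(0,4,[(13,16),(4,5)])],[1,1]),([(0,2,[(6,8),(4,4)])],[5,5,5,3])],[],false,1,0,[3,4]),
    (true,[([(0,4,[(13,16),(4,5)]),(0,11,[(2,3)])],[]),([(0,2,[(6,8),(4,4)])],[5,5,5,2])],[],false,1,0,[2,3]),
    (true,[([(0,4,[(13,16),(4,5)])],[5,1]),([(0,0,[(6,8),(2,2)]),(1,1,[(4,4),(2,3)])],[2])],[4],false,1,0,[2]),
    (true,[([(0,4,[(13,16),(4,5)])],[5,1]),([(0,0,[(6,8),(2,2)]),(1,1,[(4,4),(2,3),(2,2)])],[2])],[4],false,1,0,[]),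
    (true,[([(0,4,[(13,16),(4,5)])],[4,2]),([(0,7,[(6,8)]),(0,0,[(4,4),(2,3),(3,3)])],[4])],[4],false,1,0,[]),
    (true,[([(0,4,[(13,16),(4,5)]),(0,19,[(4,4)])],[]),([(0,2,[(6,8),(4,4)])],[5,5,5,1])],[],false,1,0,[]),
    (false,[([(0,4,[(13,16),(4,5)]),(0,7,[(6,8)])],[2]),([(0,1,[(5,5)])],[3,3,2,2,2,2,2])],[],false,1,0,[3]),
    (true,[([(0,4,[(13,16),(4,5)])],[6,6]),([(0,7,[(6,8)]),(0,9,[(5,5)]),(0,11,[(2,3)])],[])],[4],false,1,0,[2]),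
    (true,[([(0,4,[(13,16),(4,5)])],[4,2]),([(0,0,[(6,8),(2,2)]),(0,7,[(5,5),(2,3)])],[4])],[4],false,1,0,[]),
    (false,[([(0,37,[(13,16)]),(0,3,[(6,8),(6,7)])],[])],[10,9,3],false,3,3,[5]),
    (false,[([(0,37,[(13,16)]),(0,3,[(6,8),(6,7)])],[]),([(0,1,[(4,5)])],[3,3,2,2,2,2,2])],[],false,1,0,[2]),
    (true,[([(0,4,[(13,16),(4,5)])],[4,3]),([(0,0,[(6,8),(2,2)]),(0,6,[(6,7)])],[4])],[4],false,1,0,[]),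
    (true,[([(0,20,[(13,16),(8,8)])],[2,1]),([(0,7,[(6,8)])],[4,3,3,2,2])],[4],false,1,0,[3]),
    (true,[([(0,20,[(13,16),(8,8)]),(0,11,[(2,3)])],[]),([(0,7,[(6,8)])],[4,3,3,2,2])],[4],false,1,0,[2]),
    (false,[([(0,20,[(13,16),(8,8)]),(0,0,[(6,8),(2,2)])],[3]),([(0,11,[(2,3)])],[2,1])],[10],false,1,0,[]),
    (true,[([(0,37,[(13,16)])],[5,4]),([(0,18,[(9,11)])],[4,4,2,2,1])],[4],false,1,0,[2,4,6,7]),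
    (true,[([(0,37,[(13,16)])],[5,4]),([(0,18,[(9,11)]),(0,11,[(2,2)])],[4,4,2])],[4],false,1,0,[2]),
    (false,[([(0,37,[(13,16)]),(0,3,[(9,11),(2,2),(2,2)])],[])],[10,9,3],false,2,4,[]),
    (false,[([(0,37,[(13,16)]),(0,3,[(9,11),(3,4)])],[])],[10,9,3],false,3,3,[4]),
    (false,[([(0,37,[(13,16)]),(0,3,[(9,11),(3,4)])],[]),([(0,19,[(4,4)])],[2,1,1,1,1,1,1])],[10],false,1,0,[2]),
    (false,[([(0,37,[(13,16)]),(0,3,[(9,11),(3,4)])],[]),([(0,1,[(4,4),(2,2)])],[3,3,2,2,2,2,2])],[],false,1,0,[]),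
    (true,[([(0,37,[(13,16)])],[5,5]),([(0,18,[(9,11)]),(0,1,[(5,6)])],[4,2])],[4],false,1,0,[2,3]),
    (true,[([(0,37,[(13,16)])],[5,5]),([(0,18,[(9,11)]),(0,7,[(5,6),(2,2)])],[1])],[7],false,1,0,[2]),
    (false,[([(0,37,[(13,16)]),(0,3,[(9,11),(2,2),(2,2)])],[]),([(0,1,[(5,6)])],[3,3,2,2,2,2,2])],[],false,1,0,[]),
    (true,[([(0,22,[(13,16),(3,3)])],[6,4]),([(0,18,[(9,11)]),(0,1,[(5,6)])],[2,1])],[4],false,1,0,[]),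
    (true,[([(0,40,[(13,16),(7,7)])],[6,5]),([(0,18,[(9,11)])],[4,2,2])],[],false,1,0,[]),
    (false,[([(0,37,[(13,16)]),(0,3,[(12,15)])],[])],[10,9,3],false,3,3,[4]),
    (false,[([(0,37,[(13,16)]),(0,3,[(12,15)])],[]),([(0,19,[(4,4)])],[2,1,1,1,1,1,1])],[10],false,1,0,[]),
    (true,[([(0,44,[(17,21)])],[6,5])],[8,6,4,3],false,4,3,[6,10,11]),
    (false,[([(0,4,[(17,21)]),(0,1,[(5,6)])],[2])],[11,9,4],false,3,4,[6]),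
    (true,[([(0,4,[(17,21)])],[]),([(0,1,[(5,6)]),(0,1,[(4,6)])],[3,3,2])],[8,4],false,2,3,[4]),
    (true,[([(0,44,[(17,21)])],[6,6]),([(0,0,[(5,6),(3,4)]),(0,1,[(4,6)])],[4])],[],false,1,0,[2]),
    (true,[([(0,4,[(17,21)]),(0,11,[(2,2)])],[5]),([(0,0,[(5,6),(3,4)]),(0,1,[(4,6)])],[4])],[4],false,1,0,[]),
    (true,[([(0,44,[(17,21)])],[6,5]),([(0,0,[(7,10)])],[4,4,2,1])],[],false,1,0,[3,5]),
    (true,[([(0,44,[(17,21)])],[6,5]),([(0,0,[(7,10)]),(0,11,[(2,3)])],[4,4])],[],false,1,0,[3]),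
    (true,[([(0,44,[(17,21)])],[6,6]),([(0,0,[(7,10)]),(1,1,[(2,3),(2,3)])],[])],[],false,1,0,[3]),
    (true,[([(0,44,[(17,21)])],[6,6]),([(0,0,[(7,10)]),(1,1,[(2,3),(2,3),(2,3)])],[])],[],false,1,0,[2]),
    (true,[([(0,4,[(17,21)]),(0,11,[(2,2)])],[5]),([(0,0,[(7,10)]),(1,1,[(2,3),(2,3),(2,3)])],[])],[4],false,1,0,[]),
    (true,[([(0,44,[(17,21)])],[6,6]),([(0,0,[(7,10)]),(0,1,[(4,5)])],[4])],[],false,1,0,[2]),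
    (true,[([(0,4,[(17,21)]),(0,11,[(2,2)])],[5]),([(0,0,[(7,10)]),(0,1,[(4,5)])],[4])],[4],false,1,0,[]),
    (false,[([(0,42,[(17,21),(11,11)])],[6,3,3])],[9],false,1,0,[]),
    (true,[([(0,38,[(22,27)])],[5])],[9,5,4,3],false,4,3,[6]),
    (true,[([(0,38,[(22,27)])],[4]),([(0,1,[(5,6)])],[3,3,3,1,1,1])],[4],false,1,0,[2]),
    (true,[([(0,38,[(22,27)])],[4]),([(0,7,[(5,6),(2,2)])],[4,4,4,1,1])],[],false,1,0,[])]),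
  ([11,10,9,8,7,4,3,2,1], [
    (false,[],[11,10,9,8,7,4,3,2,1],false,8,3,[12,16,21,27]),
    (true,[([(0,2,[(9,12)])],[4,2])],[9,8,6,5,5,4],false,5,4,[6,8,11,12]),
    (true,[([(0,2,[(9,12)]),(0,7,[(6,6)])],[])],[8,7,6,5,5,4],false,5,4,[6]),
    (false,[([(0,2,[(9,12)]),(0,17,[(6,6),(6,6)])],[])],[11,9,8,1],false,3,8,[5,6]),
    (true,[([(0,2,[(9,12)]),(0,18,[(6,6),(4,5)])],[]),([(0,1,[(6,6)])],[3,3])],[8,7,5],false,3,5,[4,5]),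
    (false,[([(0,23,[(9,12),(6,6),(6,6),(4,4)]),(0,9,[(4,5)])],[3])],[10,9],false,2,2,[3]),
    (true,[([(0,23,[(9,12),(6,6),(6,6),(4,4)])],[1]),([(0,7,[(4,5),(3,3)])],[4,4,4,4,2])],[],false,1,0,[]),
    (true,[([(0,25,[(9,12),(6,6),(5,5)])],[6,5]),([(0,18,[(6,6),(4,5)])],[4,4,1,1])],[],false,1,0,[2]),
    (true,[([(0,25,[(9,12),(6,6),(5,5)])],[6]),([(0,5,[(6,6),(2,2)]),(0,9,[(4,5)])],[3,3,2])],[5],false,1,0,[]),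
    (true,[([(0,34,[(9,12),(6,6),(6,6),(6,6)])],[7])],[8,5,5],false,2,3,[4]),
    (false,[([(0,2,[(9,12)]),(0,37,[(6,6),(6,6),(3,4)])],[]),([(0,1,[(6,6)])],[3,3,3,3,3,3,3])],[],false,1,0,[2]),
    (false,[([(0,2,[(9,12)]),(0,37,[(6,6),(6,6),(3,4)])],[]),([(0,5,[(6,6),(2,2)])],[3,3,3,3,3,3,1])],[],false,1,0,[]),
    (true,[([(0,2,[(9,12)]),(0,7,[(7,8)])],[])],[8,7,6,5,5,4],false,5,4,[6,8]),
    (false,[([(0,2,[(9,12)]),(0,17,[(7,8),(6,6)])],[])],[11,9,8,1],true,4,2,[6]),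
    (true,[([(0,2,[(9,12)]),(0,5,[(7,8)])],[4]),([(0,1,[(6,6)]),(0,1,[(5,6)])],[3,1])],[6,5,4],false,3,3,[4]),
    (false,[([(0,2,[(9,12)]),(0,17,[(7,8),(6,6)])],[]),([(0,0,[(5,6),(4,4)])],[3,3,3,3,3,3,1])],[],false,1,0,[]),
    (false,[([(0,2,[(9,12)]),(0,37,[(7,8),(7,8)])],[])],[10,9,8],false,3,6,[4,6,7]),
    (true,[([(0,2,[(9,12)]),(0,7,[(7,8)])],[]),([(0,5,[(7,8)]),(0,9,[(4,4)])],[3])],[8,6,5],false,3,3,[4]),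
    (false,[([(0,2,[(9,12)]),(0,37,[(7,8),(7,8)])],[]),([(0,19,[(4,4)]),(0,19,[(4,4)])],[2,2,2,2,1])],[10],false,1,0,[]),
    (true,[([(0,2,[(9,12)]),(0,7,[(7,8)])],[]),([(0,5,[(7,8)]),(0,1,[(5,6)])],[3,3])],[6,5,4],false,3,2,[]),
    (false,[([(0,2,[(9,12)]),(0,37,[(7,8),(7,8)])],[]),([(0,5,[(7,7)])],[3,3,3,3,3,3,1])],[],false,1,0,[]),
    (true,[([(0,2,[(9,12)]),(0,18,[(9,11)])],[])],[8,7,5,5,4,3],false,5,3,[8,11]),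
    (true,[([(0,2,[(9,12)]),(0,18,[(9,11)])],[]),([(0,7,[(6,8)])],[4,4,3])],[8,5],false,2,5,[3,4,5,6]),
    (true,[([(0,3,[(9,12),(3,3)]),(0,7,[(6,8)])],[]),([(0,18,[(9,11)])],[4,3,1])],[8,5],false,2,3,[3]),
    (true,[([(0,3,[(9,12),(3,3)]),(0,11,[(3,3)])],[4,3]),([(0,18,[(9,11)]),(0,7,[(6,8)])],[])],[6,5],false,2,1,[]),
    (true,[([(0,2,[(9,12)]),(0,7,[(6,8)])],[]),([(0,3,[(9,11),(4,4)])],[5,5,5])],[5],false,1,0,[2,3]),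
    (true,[([(0,2,[(9,12)])],[5,4,4]),([(0,3,[(9,11),(4,4)]),(0,0,[(6,8),(2,2)])],[])],[5],false,1,0,[2]),
    (false,[([(0,2,[(9,12)]),(0,0,[(6,8),(2,2)])],[2]),([(0,18,[(9,11)]),(0,1,[(4,4),(2,2)])],[4,4,3,3])],[],false,1,0,[]),
    (false,[([(0,3,[(9,12),(3,3)]),(0,3,[(9,11),(4,4)])],[3]),([(0,7,[(6,8)])],[3,3,2,2,2,2])],[],false,1,0,[]),
    (true,[([(0,31,[(9,12),(5,5)])],[5,5,4]),([(0,18,[(9,11)]),(0,7,[(6,8)])],[])],[5],false,1,0,[2]),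
    (true,[([(0,31,[(9,12),(5,5)])],[5,5]),([(0,18,[(9,11)]),(0,0,[(6,8),(2,2)])],[2])],[5],false,1,0,[]),
    (true,[([(0,2,[(9,12)]),(0,18,[(9,11)])],[]),([(0,17,[(6,8),(6,6)])],[5,5,3])],[5],false,1,0,[]),
    (true,[([(0,2,[(9,12)]),(0,18,[(9,11)])],[]),([(0,18,[(9,11)])],[4,4,1])],[8,4],false,2,2,[3]),
    (false,[([(0,3,[(9,12),(3,3)]),(0,18,[(9,11)])],[3]),([(0,18,[(9,11)])],[4,2,2,2,2,2,1])],[],false,1,0,[]),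
    (true,[([(0,20,[(9,12),(12,12)])],[])],[9,8,7,5,2],false,5,2,[8]),
    (true,[([(0,2,[(9,12)]),(0,36,[(12,12)])],[]),([(0,7,[(6,8)])],[4,4,4,4])],[5,2],false,2,2,[3]),
    (true,[([(0,23,[(9,12),(12,12),(3,3)])],[1]),([(0,7,[(6,8)])],[4,4,4,4,2])],[],false,1,0,[]),
    (true,[([(0,37,[(13,16)])],[5,3,3])],[8,6,5,5,4],false,4,4,[6,8,11,14,15]),
    (false,[([(0,37,[(13,16)]),(0,1,[(5,6)])],[5])],[11,9,8],false,3,8,[5,6]),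
    (true,[([(0,4,[(13,16),(4,5)]),(0,1,[(5,6)])],[])],[8,6,5,5,4],false,4,4,[5]),
    (true,[([(0,4,[(13,16),(4,5)]),(0,1,[(5,6)])],[]),([(0,9,[(5,5)])],[3,3,3,2,1])],[6,5],false,2,3,[4]),
    (false,[([(0,4,[(13,16),(4,5)]),(0,0,[(5,6),(3,4)])],[3]),([(0,9,[(5,5)])],[3,3,2,2,2,2,2])],[],false,1,0,[2]),
    (true,[([(0,4,[(13,16),(4,5)])],[4,4]),([(0,0,[(5,6),(3,4)]),(0,6,[(5,5),(2,2)])],[4])],[5],false,1,0,[]),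
    (true,[([(0,16,[(13,16),(6,6)]),(0,1,[(5,6)])],[])],[8,6,5,5,3],false,4,3,[6]),
    (false,[([(0,23,[(13,16),(5,6),(6,6)]),(0,1,[(5,6)])],[3])],[10,8],false,2,1,[]),
    (false,[([(0,31,[(13,16)]),(0,5,[(7,8)])],[5,3])],[10,8,4],false,3,4,[6,8]),
    (true,[([(0,37,[(13,16)])],[5,4,3]),([(0,5,[(7,8)]),(0,1,[(4,6)])],[])],[8,5],false,2,5,[3,5,6]),
    (true,[([(0,22,[(13,16),(3,3)])],[4,4]),([(0,5,[(7,8)]),(0,1,[(4,6)])],[])],[9,5],false,2,3,[3]),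
    (false,[([(0,22,[(13,16),(3,3)]),(0,18,[(7,8),(3,3)])],[3]),([(0,1,[(4,6)])],[3,3,3,2,2,2,1])],[],false,1,0,[2]),
    (false,[([(0,4,[(13,16),(3,3),(2,2)]),(0,18,[(7,8),(3,3)])],[]),([(0,1,[(4,6)])],[3,3,2,2,2,2,2,1])],[],false,1,0,[]),
    (true,[([(0,4,[(13,16),(4,5)]),(0,1,[(4,6)])],[]),([(0,5,[(7,8)])],[3,3])],[8,6],false,2,2,[3]),
    (false,[([(0,4,[(13,16),(4,5)]),(0,18,[(7,8),(3,3)])],[]),([(0,1,[(4,6)])],[3,3,2,2,2,2,2,1])],[],false,1,0,[]),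
    (true,[([(0,16,[(13,16),(6,6)]),(0,1,[(4,6)])],[]),([(0,7,[(7,8)])],[4,4,3,3])],[5],false,1,0,[]),
    (true,[([(0,37,[(13,16)])],[5,4,4]),([(0,5,[(7,8)]),(0,5,[(7,8)])],[1,1])],[5,3],false,2,2,[3]),
    (true,[([(0,45,[(13,16),(3,3)])],[6,5]),([(0,5,[(7,8)]),(0,5,[(7,8)])],[3,1])],[5],false,1,0,[]),
    (false,[([(0,37,[(13,16)]),(0,2,[(9,11)])],[])],[10,9,8],false,3,6,[5,7]),
    (false,[([(0,4,[(13,16),(4,5)]),(0,18,[(9,11)])],[])],[11,9,3],false,3,3,[4]),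
    (false,[([(0,4,[(13,16),(4,5)]),(0,18,[(9,11)])],[]),([(0,19,[(4,4)])],[2,1,1,1,1,1,1])],[11],false,1,0,[]),
    (true,[([(0,25,[(13,16),(6,7)])],[6,5]),([(0,18,[(9,11)])],[4,4,1,1])],[],false,1,0,[2]),
    (true,[([(0,37,[(13,16)])],[5,5,3]),([(0,18,[(9,11)]),(0,0,[(6,7),(2,2)])],[])],[5],false,1,0,[]),
    (true,[([(0,34,[(13,16),(12,14)])],[7])],[8,5,5],false,2,3,[3,4]),
    (true,[([(0,34,[(13,16),(12,14)])],[7]),([(0,11,[(3,3)])],[2,2,2,2,1,1])],[5],false,1,0,[2]),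
    (true,[([(0,34,[(13,16),(12,14)])],[7]),([(0,9,[(3,3),(2,2)])],[3,3,3,3,1])],[],false,1,0,[]),
    (true,[([(0,34,[(13,16),(12,14)])],[7]),([(0,19,[(4,4)])],[2,2,2])],[8],false,1,0,[]),
    (false,[([(0,41,[(13,16),(15,15)])],[5,5,4,3])],[4,3],false,1,0,[]),
    (true,[([(0,4,[(17,21)])],[])],[9,8,7,5,5],false,4,7,[6,10,11]),
    (true,[([(0,4,[(17,21)]),(0,1,[(5,6)])],[])],[8,6,5,5,4],false,4,4,[6]),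
    (true,[([(0,4,[(17,21)]),(0,1,[(5,6)])],[]),([(0,1,[(5,6)])],[3,3,3])],[8,5],false,2,2,[3]),
    (false,[([(0,4,[(17,21)]),(0,0,[(5,6),(3,3)])],[3]),([(0,1,[(5,6)])],[3,3,2,2,2,2,1])],[],false,1,0,[]),
    (false,[([(0,4,[(17,21)]),(0,0,[(7,10)])],[3])],[10,8,3],false,3,3,[5]),
    (false,[([(0,4,[(17,21)]),(0,0,[(7,10)])],[3]),([(0,9,[(4,5)])],[3,3,2,2,2,2,2])],[],false,1,0,[2]),
    (false,[([(0,4,[(17,21)]),(0,0,[(7,10)])],[3]),([(0,1,[(4,5)]),(0,11,[(2,2)])],[3,3,2,2,2])],[],false,1,0,[]),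
    (false,[([(0,42,[(17,21),(11,11)])],[6,4,4])],[9],false,1,0,[]),
    (true,[([(0,38,[(22,27)])],[5,5])],[6,5,4,3],false,4,3,[6]),
    (false,[([(0,38,[(22,27)]),(0,1,[(5,6)])],[4])],[10,8],false,2,1,[])]),
  ([11,10,9,8,7,6,3,2,1], [
    (false,[],[11,10,9,8,7,6,3,2,1],false,8,3,[12,16,21,27]),
    (true,[([(0,2,[(9,12)])],[4])],[9,8,7,6,6,5],false,5,5,[6,9,11,12]),
    (true,[([(0,2,[(9,12)]),(0,1,[(6,6)])],[4])],[8,7,6,6,5,3],false,5,3,[6]),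
    (false,[([(0,2,[(9,12)]),(0,21,[(6,6),(6,6)])],[4])],[10,9,8,1],false,3,8,[5,6]),
    (true,[([(0,2,[(9,12)]),(0,18,[(6,6),(4,5)])],[]),([(0,1,[(6,6)])],[3,3,1])],[8,7,6],false,3,5,[4,5]),
    (true,[([(0,23,[(9,12),(6,6),(6,6),(4,4)])],[]),([(0,9,[(4,5)])],[3,3,3,3,3])],[9],false,1,0,[3]),
    (true,[([(0,23,[(9,12),(6,6),(6,6),(4,4)]),(0,11,[(2,3)])],[]),([(0,9,[(4,5)])],[3,3,3,3,3])],[6],false,1,0,[2]),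
    (true,[([(0,23,[(9,12),(6,6),(6,6),(4,4)])],[3]),([(0,9,[(4,5)]),(1,0,[(2,3),(2,2)])],[3,3,3])],[6],false,1,0,[]),
    (true,[([(0,25,[(9,12),(6,6),(5,5)])],[6,4]),([(0,18,[(6,6),(4,5)])],[4,4,4,1])],[],false,1,0,[2]),
    (true,[([(0,25,[(9,12),(6,6),(5,5)])],[6]),([(0,5,[(6,6),(2,2)]),(0,9,[(4,5)])],[3,3,3])],[6],false,1,0,[]),
    (true,[([(0,2,[(9,12)]),(0,1,[(6,6)])],[4]),([(0,1,[(6,6)]),(0,1,[(6,6)])],[3,2])],[7,6,5],false,3,3,[4]),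
    (true,[([(0,34,[(9,12),(6,6),(6,6),(6,6)])],[7]),([(0,19,[(4,4)])],[2,2,2,2])],[8],false,1,0,[]),
    (true,[([(0,2,[(9,12)]),(0,0,[(7,9)])],[])],[8,7,6,6,5,3],false,5,3,[6,8,9]),
    (false,[([(0,2,[(9,12)]),(0,3,[(7,9),(6,6)])],[3])],[10,9,7,1],false,3,7,[4,6]),
    (true,[([(0,2,[(9,12)]),(0,0,[(7,9)])],[]),([(0,1,[(6,6)]),(0,19,[(4,4)])],[3,3])],[8,6,5],false,3,4,[4]),
    (false,[([(0,2,[(9,12)]),(0,3,[(7,9),(6,6)])],[3]),([(0,19,[(4,4)]),(0,19,[(4,4)])],[2,2,2,1,1])],[10,1],false,2,1,[]),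
    (true,[([(0,2,[(9,12)]),(0,0,[(7,9)])],[]),([(0,1,[(6,6)]),(0,1,[(5,6)])],[3,2])],[7,6,5],false,3,3,[4]),
    (false,[([(0,2,[(9,12)]),(0,3,[(7,9),(6,6)])],[3]),([(0,0,[(5,6),(4,4)])],[3,3,3,3,3,2])],[],false,1,0,[]),
    (true,[([(0,2,[(9,12)]),(0,0,[(7,9)])],[]),([(0,5,[(7,8)])],[3,2,1])],[8,7,6],false,3,6,[6,7]),
    (true,[([(0,2,[(9,12)]),(0,0,[(7,9)])],[]),([(0,5,[(7,8)]),(0,1,[(4,6)])],[])],[8,7,6],false,3,3,[4]),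
    (false,[([(0,2,[(9,12)]),(0,0,[(7,9)])],[3,3]),([(0,5,[(7,8)]),(0,0,[(4,6),(4,4)])],[4,4,3])],[],false,1,0,[]),
    (false,[([(0,22,[(9,12),(7,7)]),(0,0,[(7,9)])],[3]),([(0,5,[(7,8)])],[3,3,3,3,3,1,1])],[],false,1,0,[]),
    (true,[([(0,2,[(9,12)]),(0,0,[(7,9)])],[]),([(0,14,[(9,9)])],[2,2,1])],[8,7,6],false,3,4,[5]),
    (true,[([(0,2,[(9,12)]),(0,0,[(7,9)])],[]),([(0,14,[(9,9)]),(0,9,[(4,5)])],[3,2])],[7,6,3],false,2,1,[]),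
    (true,[([(0,2,[(9,12)]),(0,18,[(10,11)])],[])],[8,7,6,6,4,3],false,5,3,[6,10]),
    (true,[([(0,2,[(9,12)]),(0,18,[(10,11)])],[]),([(0,1,[(6,6)])],[3,3,1])],[8,7,6],false,3,4,[5]),
    (true,[([(0,2,[(9,12)]),(0,18,[(10,11)])],[]),([(0,18,[(6,6),(4,5)])],[4,4,3])],[8,4],false,2,1,[]),
    (true,[([(0,2,[(9,12)]),(0,18,[(10,11)])],[]),([(0,0,[(7,10)])],[4,4,2])],[8,6],false,2,3,[4]),
    (false,[([(0,2,[(9,12)]),(0,3,[(10,11),(3,4)])],[3]),([(0,0,[(7,10)])],[3,3,3,3,3,2])],[],false,1,0,[2]),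
    (false,[([(0,2,[(9,12)]),(0,12,[(10,11),(2,2)])],[3]),([(0,0,[(7,10)]),(1,1,[(3,4)])],[3,3,3])],[],false,1,0,[]),
    (true,[([(0,20,[(9,12),(12,12)])],[3])],[9,8,6,5,2],false,5,2,[8]),
    (false,[([(0,20,[(9,12),(12,12)]),(0,7,[(6,8)])],[4])],[10,9,2],false,3,2,[]),
    (true,[([(0,37,[(13,16)])],[5,3])],[9,7,6,6,5],false,4,5,[6,8,10,13,15]),
    (false,[([(0,31,[(13,16)]),(0,1,[(5,6)])],[5,3])],[10,9,7],false,3,7,[5,6]),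
    (false,[([(0,4,[(13,16),(4,5)]),(0,1,[(5,6)])],[3])],[11,9,7],false,3,7,[5]),
    (true,[([(0,4,[(13,16),(4,5)]),(0,1,[(5,6)])],[]),([(0,9,[(4,5)])],[3,3,3,3,3])],[6,4],false,2,4,[4,5]),
    (true,[([(0,4,[(13,16),(4,5)]),(0,9,[(4,5)])],[]),([(0,0,[(5,6),(3,4)])],[4,4,4,3])],[6],false,1,0,[2,3]),
    (true,[([(0,4,[(13,16),(4,5)]),(0,9,[(4,5)])],[]),([(0,1,[(5,6)]),(0,1,[(3,4),(2,2)])],[3,3])],[7,6],false,2,1,[]),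
    (true,[([(0,4,[(13,16),(4,5)])],[4,4]),([(0,0,[(5,6),(3,4)]),(0,7,[(4,5),(3,3)])],[4])],[6],false,1,0,[]),
    (true,[([(0,4,[(13,16),(4,5)])],[5,4]),([(0,1,[(5,6)]),(0,0,[(4,5),(5,5)])],[4,1])],[6],false,1,0,[]),
    (true,[([(0,23,[(13,16),(5,6),(6,6)])],[])],[9,8,6,6],false,3,5,[6]),
    (true,[([(0,16,[(13,16),(6,6)])],[3]),([(0,1,[(5,6)]),(0,1,[(4,6)])],[3,2])],[9,6],false,2,2,[3]),
    (true,[([(0,23,[(13,16),(5,6),(6,6)])],[4]),([(0,1,[(4,6)]),(0,11,[(3,3)])],[3,3,3,1])],[6],false,1,0,[]),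
    (false,[([(0,37,[(13,16)]),(0,5,[(7,8)])],[5,3])],[10,8,7],false,3,7,[6,8]),
    (true,[([(0,31,[(13,16)])],[5,3]),([(0,5,[(7,8)]),(0,1,[(4,6)])],[3])],[9,6],false,2,5,[3,5,6]),
    (true,[([(0,22,[(13,16),(3,3)])],[4]),([(0,5,[(7,8)]),(0,1,[(4,6)])],[3,3,3])],[6,5],false,2,3,[3]),
    (false,[([(0,22,[(13,16),(3,3)]),(0,18,[(7,8),(3,3)])],[]),([(0,1,[(4,6)])],[3,3,3,3,3,3,2,1])],[],false,1,0,[2]),
    (true,[([(0,4,[(13,16),(3,3),(2,2)]),(0,1,[(4,6)])],[]),([(0,18,[(7,8),(3,3)])],[4,4,4,1])],[6],false,1,0,[]),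
    (true,[([(0,4,[(13,16),(4,5)]),(0,5,[(7,8)])],[]),([(0,1,[(4,6)])],[3,3,3])],[7,6],false,2,2,[3]),
    (true,[([(0,4,[(13,16),(4,5)]),(0,1,[(4,6)])],[]),([(0,18,[(7,8),(3,3)])],[4,4,4,1])],[6],false,1,0,[]),
    (true,[([(0,16,[(13,16),(6,6)])],[4,3]),([(0,7,[(7,8)]),(0,1,[(4,6)])],[4,4])],[6],false,1,0,[]),
    (true,[([(0,37,[(13,16)])],[5,3,3]),([(0,5,[(7,8)]),(0,5,[(7,8)])],[])],[8,6],false,2,2,[3]),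
    (false,[([(0,22,[(13,16),(3,3)]),(0,5,[(7,8)])],[4]),([(0,5,[(7,8)])],[3,3,3,3,3,1,1,1])],[],false,1,0,[]),
    (true,[([(0,37,[(13,16)])],[5,3]),([(0,0,[(9,10)])],[4,4,4,4,1])],[6],false,1,0,[3,6,7]),
    (true,[([(0,31,[(13,16)]),(0,11,[(2,3)])],[5]),([(0,0,[(9,10)])],[4,4,4,4])],[6],false,1,0,[2,3]),
    (false,[([(0,23,[(13,16),(9,10),(2,2)]),(0,11,[(2,3)])],[4,4])],[10,8],false,2,4,[]),
    (false,[([(0,22,[(13,16),(3,3)]),(0,0,[(9,10)])],[3]),([(0,11,[(2,3)])],[2,2,2,2,2,2])],[10],false,1,0,[3]),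
    (false,[([(0,22,[(13,16),(3,3)]),(0,0,[(9,10)])],[3]),([(0,11,[(2,3)]),(0,11,[(2,3)])],[2,2,2,2,2,1])],[8],false,1,0,[3]),
    (false,[([(0,22,[(13,16),(3,3)]),(0,0,[(9,10)])],[3]),([(0,11,[(2,3)]),(0,11,[(2,3)]),(0,11,[(2,3)])],[2,2,2,2])],[8],false,1,0,[2]),
    (true,[([(0,23,[(13,16),(9,10),(2,2)])],[5]),([(0,1,[(2,3),(3,3)]),(0,11,[(2,3)]),(0,11,[(2,3)])],[3,3])],[6],false,1,0,[]),
    (true,[([(0,31,[(13,16)])],[5,5,4]),([(0,0,[(9,10)]),(0,1,[(4,6)])],[4])],[6],false,1,0,[2,3,4]),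
    (true,[([(0,23,[(13,16),(9,10),(2,2)])],[]),([(0,1,[(4,6)])],[3,3,3,3,3,2])],[6],false,1,0,[2]),
    (true,[([(0,23,[(13,16),(9,10),(2,2)])],[4]),([(0,1,[(4,6)]),(0,11,[(2,2)])],[3,3,3,1])],[6],false,1,0,[2]),
    (true,[([(0,23,[(13,16),(9,10),(2,2)])],[4]),([(0,1,[(4,6)]),(1,0,[(2,2),(2,2)])],[3,3,1])],[6],false,1,0,[]),
    (false,[([(0,22,[(13,16),(3,3)]),(0,0,[(9,10)])],[3]),([(0,1,[(4,6)])],[3,3,3,3,3,3,1])],[],false,1,0,[2]),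
    (true,[([(0,23,[(13,16),(9,10),(2,2)])],[4]),([(0,1,[(4,6)]),(0,11,[(3,3)])],[3,3,3,1])],[6],false,1,0,[]),
    (true,[([(0,4,[(13,16),(4,4)])],[5,4]),([(0,0,[(9,10)]),(0,1,[(4,6)])],[4,1])],[6],false,1,0,[]),
    (true,[([(0,25,[(13,16),(7,7)])],[6,4]),([(0,18,[(9,10)])],[4,4,4,1])],[],false,1,0,[]),
    (false,[([(0,31,[(13,16)]),(0,21,[(11,13)])],[])],[10,9,8],false,3,4,[5]),
    (false,[([(0,4,[(13,16),(4,5)]),(0,12,[(11,13)])],[4])],[9,7,3],false,2,1,[]),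
    (true,[([(0,42,[(13,16),(14,15)])],[6])],[7,6,6],false,2,1,[]),
    (true,[([(0,4,[(17,21)])],[])],[9,8,7,6,6],false,4,7,[6,10,11]),
    (false,[([(0,4,[(17,21)]),(0,1,[(5,6)])],[3])],[11,9,7],false,3,6,[6]),
    (true,[([(0,4,[(17,21)])],[3]),([(0,1,[(5,6)]),(0,1,[(4,6)])],[3,3])],[9,6],false,2,3,[4]),
    (true,[([(0,4,[(17,21)])],[5,4]),([(0,0,[(5,6),(3,4)]),(0,1,[(4,6)])],[4,1])],[6],false,1,0,[2]),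
    (true,[([(0,4,[(17,21)])],[6,5]),([(0,0,[(5,6),(3,4)]),(0,1,[(4,6)]),(0,11,[(2,2)])],[])],[6],false,1,0,[]),
    (true,[([(0,4,[(17,21)])],[]),([(0,0,[(7,10)])],[4,4,4,4,4])],[6],false,1,0,[3,5]),
    (true,[([(0,4,[(17,21)]),(0,11,[(2,3)])],[]),([(0,0,[(7,10)])],[4,4,4,4,1])],[6],false,1,0,[3]),
    (true,[([(0,4,[(17,21)])],[5,4]),([(0,0,[(7,10)]),(1,1,[(2,3),(2,3)])],[1])],[6],false,1,0,[2,3]),
    (true,[([(0,4,[(17,21)])],[5,4]),([(0,0,[(7,10)]),(1,1,[(2,3),(2,3),(2,2)])],[1])],[6],false,1,0,[2]),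
    (true,[([(0,4,[(17,21)])],[5,4]),([(0,0,[(7,10)]),(1,1,[(2,3),(2,3),(2,2),(2,2)])],[1])],[6],false,1,0,[]),
    (true,[([(0,4,[(17,21)])],[5,4]),([(0,0,[(7,10)]),(1,1,[(2,3),(2,3),(3,3)])],[1])],[6],false,1,0,[]),
    (true,[([(0,4,[(17,21)]),(0,9,[(4,5)])],[]),([(0,0,[(7,10)])],[4,4,4,3])],[6],false,1,0,[2]),
    (true,[([(0,4,[(17,21)])],[6,5]),([(0,0,[(7,10)]),(0,1,[(4,5)]),(0,11,[(2,2)])],[])],[6],false,1,0,[]),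
    (false,[([(0,42,[(17,21),(11,11)])],[6,5,5])],[9],false,1,0,[]),
    (true,[([(0,38,[(22,27)])],[4])],[9,6,6,5],false,3,5,[6]),
    (true,[([(0,38,[(22,27)])],[4]),([(0,1,[(4,6)])],[3,3,3,3,1,1])],[6],false,1,0,[3]),
    (true,[([(0,23,[(22,27)])],[4]),([(0,1,[(4,6)]),(0,11,[(2,3)])],[3,3,3,1])],[6],false,1,0,[2]),
    (true,[([(0,23,[(22,27)])],[4]),([(0,1,[(4,6)]),(1,0,[(2,3),(2,2)])],[3,3,1])],[6],false,1,0,[])]),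
  ([12,11,10,6,5,4,3,2,1], [
    (false,[],[12,11,10,6,5,4,3,2,1],false,8,3,[12,17,23,27]),
    (true,[([(0,2,[(9,12)])],[4])],[9,8,7,5,3,3,3],false,5,5,[8,11,12]),
    (true,[([(0,2,[(9,12)]),(0,7,[(6,8)])],[])],[8,7,6,4,3,3,3],false,5,4,[7,8]),
    (true,[([(0,2,[(9,12)]),(0,7,[(6,8)])],[]),([(0,6,[(6,7)])],[4,4])],[8,7,4],false,3,4,[4,5,7]),
    (true,[([(0,2,[(9,12)]),(0,7,[(6,8)])],[]),([(0,7,[(6,7)]),(0,19,[(4,4)])],[4,4])],[7,4,3],false,3,3,[4]),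
    (true,[([(0,2,[(9,12)])],[5,5,2]),([(0,3,[(6,8),(6,7)]),(0,0,[(4,4),(4,4)])],[])],[3,2],false,2,2,[3]),
    (false,[([(0,3,[(9,12),(3,3)]),(0,3,[(6,8),(6,7)])],[2,2]),([(0,7,[(4,4),(4,4)])],[3,3,2,1,1,1,1])],[],false,1,0,[]),
    (true,[([(0,31,[(9,12),(5,5)])],[5,3]),([(0,7,[(6,8)]),(0,6,[(6,7)])],[4])],[7,3],true,2,4,[5]),
    (true,[([(0,2,[(9,12)])],[5,5,2]),([(0,3,[(6,8),(6,7)]),(0,0,[(5,5),(3,5)])],[])],[3,2],false,2,2,[3]),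
    (false,[([(0,3,[(9,12),(3,3)]),(0,3,[(6,8),(6,7)])],[2,2]),([(0,0,[(5,5),(3,5)])],[3,2,1,1,1,1,1])],[],false,1,0,[]),
    (true,[([(0,2,[(9,12)])],[5,4]),([(0,7,[(6,8)]),(0,17,[(6,7),(6,7)])],[])],[8,3],false,2,3,[3,4]),
    (true,[([(0,2,[(9,12)])],[5,5,2]),([(0,3,[(6,8),(6,7)]),(0,0,[(6,7),(3,3)])],[])],[3,2],false,2,1,[]),
    (true,[([(0,2,[(9,12)])],[5,4,1]),([(0,3,[(6,8),(6,7)]),(0,18,[(6,7),(4,4)])],[])],[3,3],false,1,0,[]),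
    (true,[([(0,2,[(9,12)]),(0,7,[(6,8)])],[]),([(0,7,[(8,8)])],[4,4])],[8,7,3],false,3,3,[7]),
    (true,[([(0,2,[(9,12)]),(0,7,[(6,8)])],[]),([(0,3,[(8,8),(4,7)])],[5,5,3])],[3,3],false,1,0,[2,3,4]),
    (true,[([(0,2,[(9,12)])],[5,5,2]),([(0,0,[(6,8),(2,2)]),(0,3,[(8,8),(4,7)])],[])],[3,2],false,2,2,[]),
    (true,[([(0,3,[(9,12),(3,3)]),(0,7,[(6,8)])],[]),([(0,3,[(8,8),(4,7)])],[5,3,2])],[3,3],false,1,0,[2]),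
    (true,[([(0,3,[(9,12),(3,3)]),(0,0,[(6,8),(2,2)])],[]),([(0,3,[(8,8),(4,7)])],[5,2,1])],[3,3],false,1,0,[]),
    (true,[([(0,2,[(9,12)]),(0,7,[(6,8)])],[]),([(0,3,[(8,8),(4,7)])],[5,5,3]),([(0,19,[(4,4)])],[2])],[],false,1,0,[]),
    (false,[([(0,2,[(9,12)]),(0,18,[(9,11)])],[1])],[12,11,4,3],false,4,3,[6,10,11]),
    (true,[([(0,2,[(9,12)]),(0,18,[(9,11)])],[]),([(0,1,[(5,6)])],[3,3,1,1])],[8,3,3,3],false,2,6,[4,5,6]),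
    (true,[([(0,2,[(9,12)])],[4,1,1]),([(0,18,[(9,11)]),(0,0,[(5,6),(3,4)])],[4])],[5,3,3],false,2,4,[4]),
    (true,[([(0,2,[(9,12)])],[5,5,2]),([(0,3,[(9,11),(3,4)]),(0,0,[(5,6),(3,4)])],[])],[3,2],false,2,2,[3]),
    (false,[([(0,3,[(9,12),(3,3)]),(0,3,[(9,11),(3,4)])],[2,2]),([(0,0,[(5,6),(3,4)])],[3,2,1,1,1,1,1])],[],false,1,0,[]),
    (true,[([(0,2,[(9,12)]),(0,18,[(9,11)])],[]),([(0,1,[(5,6)]),(0,9,[(5,5)])],[3])],[8,3,3,3],false,2,2,[3]),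
    (true,[([(0,31,[(9,12),(5,5)])],[6,6]),([(0,17,[(9,11),(3,3)]),(0,1,[(5,6)])],[2])],[3],false,1,0,[]),
    (true,[([(0,2,[(9,12)])],[5,5,1]),([(0,8,[(9,11),(6,6)]),(0,1,[(5,6)])],[3])],[3,2],false,2,1,[]),
    (true,[([(0,2,[(9,12)])],[4,1,1]),([(0,18,[(9,11)]),(0,0,[(7,10)])],[4])],[5,3,3],false,2,4,[4,5]),
    (true,[([(0,2,[(9,12)])],[5,5,2]),([(0,3,[(9,11),(3,4)]),(0,0,[(7,10)])],[])],[3,2],false,2,2,[3]),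
    (false,[([(0,3,[(9,12),(3,3)]),(0,3,[(9,11),(3,4)])],[2,2]),([(0,0,[(7,10)])],[3,2,1,1,1,1,1])],[],false,1,0,[]),
    (true,[([(0,31,[(9,12),(5,5)])],[5,1]),([(0,18,[(9,11)]),(0,0,[(7,10)])],[4])],[3,3],false,1,0,[]),
    (true,[([(0,40,[(9,12),(11,11)])],[5]),([(0,18,[(9,11)])],[4,4,2,1,1])],[3],false,1,0,[]),
    (true,[([(0,2,[(9,12)]),(0,36,[(12,12)])],[])],[8,6,5,3,3,3,2],false,5,2,[8]),
    (true,[([(0,2,[(9,12)]),(0,36,[(12,12)])],[]),([(0,7,[(6,8)])],[4,4,2,1])],[6,3,2],false,3,2,[]),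
    (true,[([(0,31,[(13,17)])],[5])],[9,8,6,3,3,3],false,4,6,[5,7,10,13,15]),
    (false,[([(0,31,[(13,17)]),(0,9,[(5,5)])],[5])],[12,11,4],false,2,10,[3,5]),
    (true,[([(0,31,[(13,17)]),(0,11,[(3,3)])],[5]),([(0,9,[(5,5)])],[3,3])],[8,7,3],false,2,8,[3]),
    (true,[([(0,31,[(13,17)])],[6,6]),([(0,9,[(5,5)]),(0,1,[(3,3),(3,3)])],[1])],[9,3,1],true,3,3,[]),
    (false,[([(0,31,[(13,17)]),(0,10,[(5,5),(4,5)])],[])],[12,10,5],false,3,5,[5]),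
    (true,[([(0,31,[(13,17)])],[5]),([(0,9,[(5,5)]),(0,9,[(4,5)]),(0,9,[(4,5)])],[])],[8,6,3],false,3,3,[4,5]),
    (true,[([(0,31,[(13,17)])],[6,6]),([(0,0,[(5,5),(4,5)]),(0,1,[(4,5)]),(0,19,[(4,4)])],[])],[3,2],false,2,1,[]),
    (true,[([(0,31,[(13,17)])],[5,2]),([(0,0,[(5,5),(4,5)]),(0,0,[(4,5),(5,5)])],[4])],[3,3],false,1,0,[]),
    (false,[([(0,31,[(13,17)]),(0,6,[(6,7)])],[5])],[12,10,3],false,2,9,[3,4,6,7]),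
    (false,[([(0,31,[(13,17)]),(0,10,[(6,7),(3,3)])],[])],[12,10,5],false,3,5,[]),
    (false,[([(0,4,[(13,17),(4,4)]),(0,6,[(6,7)])],[])],[12,11,3],false,3,3,[4]),
    (true,[([(0,4,[(13,17),(4,4)])],[6]),([(0,18,[(6,7),(4,4)])],[1,1,1,1])],[9,3],false,2,3,[4]),
    (true,[([(0,4,[(13,17),(4,4)])],[3]),([(0,6,[(6,7)]),(0,7,[(4,4),(3,4)])],[4])],[8,3],false,2,1,[]),
    (true,[([(0,31,[(13,17)])],[6,6]),([(0,6,[(6,7)]),(0,1,[(5,6)])],[])],[9,3],true,2,5,[3,4,5,6]),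
    (false,[([(0,31,[(13,17)]),(0,10,[(6,7),(3,3)])],[]),([(0,1,[(5,6)])],[3,3,3,3,2,2,2,2,1])],[],false,1,0,[2,3]),
    (true,[([(0,31,[(13,17)])],[6,6,3]),([(0,0,[(6,7),(3,3)]),(0,7,[(5,6),(2,2)])],[])],[3,1],true,2,2,[]),
    (true,[([(0,31,[(13,17)])],[5,2]),([(0,0,[(6,7),(3,3)]),(0,0,[(5,6),(3,3)])],[4])],[3,3],false,1,0,[2]),
    (true,[([(0,31,[(13,17)])],[6,6,3]),([(0,0,[(6,7),(3,3)]),(0,7,[(5,6),(2,2)])],[]),([(0,11,[(3,3)])],[1])],[],false,1,0,[]),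
    (true,[([(0,4,[(13,17),(4,4)]),(0,1,[(5,6)])],[]),([(0,6,[(6,7)])],[4,4])],[8,4],false,2,2,[3]),
    (true,[([(0,4,[(13,17),(4,4)]),(0,1,[(5,6)])],[]),([(0,10,[(6,7),(3,3)])],[5,5,1])],[6],false,1,0,[]),
    (false,[([(0,31,[(13,17)]),(0,6,[(6,7)])],[5]),([(0,1,[(5,6)]),(0,1,[(5,5)])],[3,2,2,2,2,2])],[],false,1,0,[2]),
    (true,[([(0,31,[(13,17)])],[6,6]),([(0,17,[(6,7),(5,5),(2,2)]),(0,1,[(5,6)])],[2])],[3],false,1,0,[]),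
    (true,[([(0,25,[(13,17),(6,6)])],[7,7]),([(0,6,[(6,7)]),(0,1,[(5,6)])],[1])],[3],false,1,0,[]),
    (true,[([(0,31,[(13,17)])],[5]),([(0,6,[(6,7)]),(0,6,[(7,7)])],[4])],[8,6],false,2,3,[3,4]),
    (true,[([(0,31,[(13,17)])],[6,6,4]),([(0,0,[(6,7),(3,3)]),(0,6,[(7,7)])],[])],[3,1],false,2,1,[]),
    (true,[([(0,23,[(13,17),(7,7),(4,4)])],[]),([(0,6,[(6,7)])],[4,4,1,1])],[9],false,1,0,[]),
    (false,[([(0,31,[(13,17)]),(0,10,[(8,10)])],[])],[12,10,5],false,3,5,[4,6,8]),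
    (false,[([(0,4,[(13,17),(4,4)]),(0,0,[(8,10)])],[2,2])],[11,5,3],false,3,3,[4]),
    (false,[([(0,4,[(13,17),(4,4)]),(0,17,[(8,10),(4,4)])],[2])],[11,4,2],false,2,1,[]),
    (false,[([(0,31,[(13,17)]),(0,10,[(8,10)])],[]),([(0,1,[(5,6)])],[3,3,3,3,2,2,2,2,1])],[],false,1,0,[2,4]),
    (true,[([(0,31,[(13,17)])],[6,6,3]),([(0,0,[(8,10)]),(0,7,[(5,6),(2,2)])],[])],[3,1],true,2,2,[]),
    (true,[([(0,31,[(13,17)])],[5,2]),([(0,0,[(8,10)]),(0,0,[(5,6),(3,4)])],[4])],[3,3],false,1,0,[2]),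
    (false,[([(0,31,[(13,17)]),(0,10,[(8,10)])],[]),([(0,1,[(5,6)]),(0,1,[(3,4),(2,2)])],[3,3,3,2,2,2])],[],false,1,0,[]),
    (true,[([(0,31,[(13,17)])],[6,6,3]),([(0,0,[(8,10)]),(0,7,[(7,8)])],[])],[3,1],false,2,1,[]),
    (true,[([(0,31,[(13,17)])],[5,1]),([(0,21,[(11,13)])],[5,5,3,2])],[3],false,1,0,[4,5]),
    (true,[([(0,31,[(13,17)])],[5]),([(0,12,[(11,13)]),(1,1,[(2,4)])],[3])],[3,3],false,1,0,[3,4]),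
    (true,[([(0,31,[(13,17)])],[5]),([(0,12,[(11,13)]),(1,1,[(2,4),(2,3)])],[3])],[3,3],false,1,0,[3]),
    (true,[([(0,31,[(13,17)]),(0,11,[(2,3)])],[5]),([(0,12,[(11,13)]),(1,1,[(2,4),(2,3)])],[])],[3,3],false,1,0,[2]),
    (true,[([(0,31,[(13,17)]),(0,11,[(2,3)])],[5]),([(0,12,[(11,13)]),(1,1,[(2,4),(2,3),(2,2)])],[])],[3,3],false,1,0,[]),
    (true,[([(0,4,[(13,17),(4,4)])],[1]),([(0,12,[(11,13)]),(1,1,[(2,4)])],[3])],[3,3],false,1,0,[]),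
    (true,[([(0,31,[(13,17)])],[5,5]),([(0,24,[(11,13),(5,5)])],[6,2,1])],[],false,1,0,[]),
    (true,[([(0,42,[(13,17),(14,15)])],[6])],[7,3,3,3],false,2,1,[]),
    (true,[([(0,25,[(18,23)])],[6])],[9,7,3,3,3],false,3,7,[5,6,8,9,10]),
    (true,[([(0,25,[(18,23)])],[6]),([(0,9,[(4,5)])],[3,3,1,1])],[9,3],true,2,6,[3,5]),
    (true,[([(0,25,[(18,23)])],[6]),([(0,7,[(4,5),(3,3)])],[4,4,2,2,2])],[3],false,1,0,[2,3]),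
    (true,[([(0,25,[(18,23)])],[6]),([(0,9,[(4,5)]),(0,9,[(3,3),(2,2)])],[3])],[9,3],false,2,3,[]),
    (true,[([(0,25,[(18,23)])],[7,7]),([(0,9,[(4,5)]),(0,1,[(3,3),(3,3)])],[1,1])],[3,1],true,2,2,[3]),
    (true,[([(0,25,[(18,23)])],[7,7]),([(0,9,[(4,5)]),(0,1,[(3,3),(3,3)])],[1,1]),([(0,11,[(3,3)])],[1])],[],false,1,0,[]),
    (true,[([(0,25,[(18,23)])],[6]),([(0,9,[(4,5)]),(0,9,[(4,5)])],[3])],[9,3],false,2,3,[3,4]),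
    (true,[([(0,25,[(18,23)])],[7,7]),([(0,9,[(4,5)]),(0,9,[(4,5)]),(0,11,[(3,3)])],[])],[3,1],false,2,1,[]),
    (true,[([(0,25,[(18,23)])],[6]),([(0,9,[(4,5)]),(0,9,[(4,5)])],[3]),([(0,19,[(4,4)])],[2,1,1,1,1,1,1])],[],false,1,0,[]),
    (true,[([(0,25,[(18,23)])],[7,7]),([(0,1,[(6,6)])],[])],[8,3],true,2,4,[3,5]),
    (true,[([(0,25,[(18,23)])],[7,7]),([(0,1,[(6,6)]),(0,11,[(3,3)])],[1,1,1])],[3,2],false,2,2,[3]),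
    (true,[([(0,25,[(18,23)])],[6]),([(0,1,[(6,6)]),(0,1,[(3,3),(3,3)])],[3,2,2])],[3,3],false,1,0,[]),
    (true,[([(0,25,[(18,23)])],[7,7]),([(0,1,[(6,6)]),(0,9,[(4,5)])],[1,1])],[3,1],false,2,1,[]),
    (true,[([(0,25,[(18,23)])],[6,6]),([(0,5,[(7,8)])],[])],[8,3],false,2,3,[3,4]),
    (true,[([(0,25,[(18,23)])],[7,6]),([(0,18,[(7,8),(3,3)])],[1,1,1,1])],[3],false,1,0,[2]),
    (true,[([(0,25,[(18,23)])],[7,7]),([(0,7,[(7,8)]),(0,9,[(3,3),(2,2)])],[1])],[3],false,1,0,[]),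
    (true,[([(0,25,[(18,23)])],[6]),([(0,7,[(7,8)]),(0,19,[(4,4)])],[4,4,2])],[3],false,1,0,[]),
    (true,[([(0,42,[(18,23),(9,9)])],[6])],[7,3,3,3],false,2,1,[]),
    (true,[([(0,25,[(18,23)])],[6,3]),([(0,10,[(10,10)])],[5,5,2])],[],false,1,0,[]),
    (true,[([(0,46,[(24,27)])],[6])],[7,6,5,3],false,4,3,[])])]

theorem cj9d_1_ok : runAllJ S43 R43 F43 26 cj9d_1 = true := by decide +kernel

noncomputable def cj9d_2 : List (List ℕ × List NdJ) := [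
  ([13,12,7,6,5,4,3,2,1], [
    (false,[],[13,12,7,6,5,4,3,2,1],false,8,3,[12,17,23,27]),
    (true,[([(0,2,[(9,12)])],[4])],[9,8,7,5,2,2,2,2],false,5,5,[8,12]),
    (true,[([(0,2,[(9,12)]),(0,7,[(6,8)])],[])],[8,7,6,4,2,2,2,2],false,5,4,[8]),
    (false,[([(0,2,[(9,12)]),(0,7,[(6,8)]),(0,7,[(6,8)])],[])],[12,6,5,2],false,4,2,[6,8]),
    (false,[([(0,2,[(9,12)]),(0,7,[(6,8)]),(0,7,[(6,8)])],[]),([(0,1,[(5,6)])],[3,2,2])],[12],false,1,0,[3,5]),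
    (false,[([(0,2,[(9,12)]),(0,7,[(6,8)]),(0,7,[(6,8)])],[]),([(0,1,[(5,6)]),(0,11,[(2,3)])],[3,2,1,1,1,1,1])],[6],false,1,0,[2,3]),
    (true,[([(0,2,[(9,12)]),(0,1,[(5,6)])],[5]),([(0,0,[(6,8),(2,2)]),(0,7,[(6,8)])],[]),([(0,11,[(2,3)])],[])],[7,2],false,2,2,[]),
    (true,[([(0,3,[(9,12),(3,3)]),(0,1,[(5,6)])],[]),([(0,7,[(6,8)]),(0,7,[(6,8)])],[2]),([(0,11,[(2,3)])],[2])],[7,2],false,2,1,[]),
    (false,[([(0,2,[(9,12)]),(0,7,[(6,8)]),(0,7,[(6,8)])],[]),([(0,1,[(5,6)]),(0,9,[(4,5)])],[2,2,1,1,1,1])],[6],false,1,0,[2]),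
    (false,[([(0,2,[(9,12)]),(0,0,[(6,8),(2,2)]),(0,9,[(4,5)])],[]),([(0,7,[(6,8)]),(0,1,[(5,6)])],[4,4,1,1,1,1])],[],false,1,0,[]),
    (true,[([(0,2,[(9,12)]),(0,7,[(6,8)])],[]),([(0,7,[(6,8)]),(0,7,[(7,8)])],[])],[7,6,2,2],false,3,2,[]),
    (false,[([(0,2,[(9,12)]),(0,2,[(9,12)])],[4,1])],[13,6,4,1],true,4,4,[6,10,11]),
    (true,[([(0,2,[(9,12)]),(0,1,[(5,6)])],[4]),([(0,2,[(9,12)])],[5,2])],[8,2,2],true,2,6,[4,6]),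
    (true,[([(0,2,[(9,12)]),(0,0,[(5,6),(3,4)])],[]),([(0,2,[(9,12)])],[5,2])],[8,2,2],false,2,4,[3,4]),
    (true,[([(0,2,[(9,12)]),(0,0,[(5,6),(3,4)])],[]),([(0,2,[(9,12)]),(0,11,[(3,3)])],[5])],[7,2,2],false,2,2,[3]),
    (false,[([(0,3,[(9,12),(3,3)]),(0,2,[(9,12)])],[1,1]),([(0,0,[(5,6),(3,4)]),(0,11,[(3,3)])],[3,3,1,1,1,1,1])],[],false,1,0,[]),
    (false,[([(0,2,[(9,12)]),(0,2,[(9,12)])],[4,1]),([(0,0,[(5,6),(3,4)]),(0,9,[(4,4)])],[3,2,1,1,1,1])],[],false,1,0,[2]),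
    (false,[([(0,2,[(9,12)]),(0,2,[(9,12)])],[4,1]),([(0,0,[(5,6),(3,4)]),(0,1,[(4,4),(2,2)])],[3,1,1,1,1,1])],[],false,1,0,[]),
    (false,[([(0,2,[(9,12)]),(0,2,[(9,12)])],[4,1]),([(0,1,[(5,6)]),(0,1,[(5,6)])],[3,3,1,1,1,1,1])],[1],false,1,0,[2,3]),
    (false,[([(0,2,[(9,12)]),(0,2,[(9,12)])],[4,1]),([(0,7,[(5,6),(2,2)]),(0,1,[(5,6)])],[3,3,1,1,1,1])],[],false,1,0,[2]),
    (false,[([(0,2,[(9,12)]),(0,2,[(9,12)])],[4,1]),([(0,0,[(5,6),(2,2),(2,2)]),(0,1,[(5,6)])],[3,1,1,1,1,1])],[],false,1,0,[]),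
    (false,[([(0,3,[(9,12),(3,3)]),(0,2,[(9,12)])],[1,1]),([(0,1,[(5,6)]),(0,1,[(5,6)])],[3,3,1,1,1,1,1])],[1],false,1,0,[]),
    (true,[([(0,2,[(9,12)]),(0,0,[(7,10)])],[]),([(0,2,[(9,12)])],[5,2])],[8,2,2],false,2,4,[3,5]),
    (true,[([(0,2,[(9,12)]),(0,0,[(7,10)])],[]),([(0,2,[(9,12)]),(0,11,[(3,3)])],[5])],[7,2,2],false,2,2,[3]),
    (false,[([(0,3,[(9,12),(3,3)]),(0,2,[(9,12)])],[1,1]),([(0,0,[(7,10)]),(0,11,[(3,3)])],[3,3,1,1,1,1,1])],[],false,1,0,[]),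
    (false,[([(0,2,[(9,12)]),(0,2,[(9,12)])],[4,1]),([(0,0,[(7,10)]),(0,9,[(4,5)])],[3,2,1,1,1,1])],[],false,1,0,[2]),
    (false,[([(0,2,[(9,12)]),(0,2,[(9,12)])],[4,1]),([(0,0,[(7,10)]),(0,9,[(4,5)]),(0,11,[(2,2)])],[3,1,1,1])],[],false,1,0,[]),
    (true,[([(0,40,[(9,12),(11,11)])],[]),([(0,2,[(9,12)])],[5,3,1])],[9],false,1,0,[]),
    (true,[([(0,31,[(13,17)])],[5])],[9,8,6,2,2,2,2],false,4,6,[6,10,14,15]),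
    (false,[([(0,31,[(13,17)]),(0,1,[(5,6)])],[5,1,1])],[13,6,4],false,2,10,[3,6]),
    (true,[([(0,31,[(13,17)]),(0,11,[(3,3)])],[6]),([(0,1,[(5,6)])],[1,1])],[8,7,2,2],false,3,4,[]),
    (true,[([(0,31,[(13,17)])],[6]),([(0,1,[(5,6)]),(0,1,[(4,6)])],[2,2])],[9,2,2,1],true,3,3,[4,6]),
    (true,[([(0,31,[(13,17)]),(0,19,[(4,4)])],[6]),([(0,1,[(5,6)]),(0,1,[(4,6)])],[2,1])],[6,2,2,1],true,3,3,[4]),
    (true,[([(0,4,[(13,17),(4,4)]),(0,1,[(4,6)])],[]),([(0,10,[(5,6),(4,4)])],[5,2,1])],[6,2],false,2,1,[]),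
    (false,[([(0,31,[(13,17)]),(0,2,[(5,6),(5,6)])],[1]),([(0,1,[(4,6)])],[3,3,3,2,1,1,1,1,1,1])],[],false,1,0,[2,3,4]),
    (false,[([(0,31,[(13,17)]),(0,2,[(5,6),(5,6)])],[1]),([(0,1,[(4,6)]),(0,11,[(2,2)])],[3,3,3,1,1,1,1,1])],[],false,1,0,[2]),
    (false,[([(0,31,[(13,17)]),(0,2,[(5,6),(5,6)])],[1]),([(0,1,[(4,6)]),(1,0,[(2,2),(2,2)])],[3,3,1,1,1,1,1])],[],false,1,0,[2]),
    (false,[([(0,31,[(13,17)]),(0,2,[(5,6),(5,6)])],[1]),([(0,1,[(4,6)]),(1,0,[(2,2),(2,2),(2,2)])],[3,3,1,1,1,1,1])],[],false,1,0,[]),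
    (true,[([(0,31,[(13,17)])],[6,2]),([(0,3,[(5,6),(5,6),(3,3)]),(0,1,[(4,6)])],[3])],[2,2],false,1,0,[2]),
    (false,[([(0,31,[(13,17)]),(0,2,[(5,6),(5,6)])],[1]),([(0,1,[(4,6)]),(0,9,[(3,3),(2,2)])],[3,3,2,1,1,1,1])],[],false,1,0,[]),
    (true,[([(0,4,[(13,17),(4,4)]),(0,1,[(4,6)])],[]),([(0,2,[(5,6),(5,6)])],[5,3,2])],[2,2],false,1,0,[]),
    (true,[([(0,31,[(13,17)])],[5]),([(0,0,[(7,10)])],[4,3,3,3,2])],[2,2,2],false,1,0,[2,3,4,6,9]),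
    (true,[([(0,31,[(13,17)]),(0,11,[(2,2)])],[5]),([(0,0,[(7,10)])],[4,3,3,2])],[2,2,2],false,1,0,[2]),
    (true,[([(0,31,[(13,17)]),(0,11,[(2,2)])],[6]),([(0,0,[(7,10)]),(0,11,[(2,2)])],[2])],[8,2,2],true,2,6,[]),
    (true,[([(0,31,[(13,17)]),(0,11,[(3,3)])],[6]),([(0,0,[(7,10)])],[2,2,1])],[8,2,2],true,2,6,[3]),
    (true,[([(0,31,[(13,17)]),(0,11,[(3,3)])],[6]),([(0,0,[(7,10)]),(0,11,[(3,3)])],[2])],[8,2,2],false,2,4,[3]),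
    (true,[([(0,31,[(13,17)])],[6,2]),([(0,0,[(7,10)]),(1,1,[(3,3),(3,3),(3,3)])],[3])],[2,2,1],true,2,2,[3]),
    (true,[([(0,31,[(13,17)])],[6,2]),([(0,0,[(7,10)]),(1,1,[(3,3),(3,3),(3,3)])],[3]),([(0,11,[(3,3)])],[])],[2],false,1,0,[]),
    (true,[([(0,31,[(13,17)]),(0,19,[(4,4)])],[6]),([(0,0,[(7,10)])],[2,2])],[8,2,2],true,2,5,[4]),
    (true,[([(0,4,[(13,17),(4,4)])],[2,1]),([(0,0,[(7,10)]),(1,1,[(3,4)])],[3])],[2,2,2],false,1,0,[3,4]),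
    (true,[([(0,4,[(13,17),(4,4)])],[2,1]),([(0,0,[(7,10)]),(1,1,[(3,4),(2,3)])],[3])],[2,2,2],false,1,0,[3]),
    (true,[([(0,4,[(13,17),(4,4)]),(0,11,[(2,3)])],[]),([(0,0,[(7,10)]),(1,1,[(3,4),(2,3)])],[3])],[2,2,2],false,1,0,[2]),
    (true,[([(0,4,[(13,17),(4,4)]),(0,11,[(2,3)])],[]),([(0,0,[(7,10)]),(1,1,[(3,4),(2,3),(2,2)])],[3])],[2,2,2],false,1,0,[]),
    (true,[([(0,4,[(13,17),(4,4)])],[3,2]),([(0,0,[(7,10)]),(0,7,[(3,4),(4,4)])],[3])],[2,2,2],false,1,0,[]),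
    (true,[([(0,31,[(13,17)])],[5,2]),([(0,0,[(7,10)]),(0,1,[(5,6)])],[4,3])],[2,2,2],false,1,0,[2,4,5]),
    (true,[([(0,31,[(13,17)])],[5,4,3]),([(0,0,[(7,10)]),(0,7,[(5,6),(2,2)])],[])],[2,2,2],false,1,0,[2]),
    (true,[([(0,31,[(13,17)])],[6,2]),([(0,0,[(7,10)]),(0,0,[(5,6),(2,2),(2,2)])],[3])],[2,2,1],true,2,2,[]),
    (true,[([(0,31,[(13,17)])],[6,2]),([(0,0,[(7,10)]),(0,0,[(5,6),(3,4)])],[3])],[2,2,1],true,2,2,[3]),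
    (true,[([(0,31,[(13,17)])],[6,2]),([(0,0,[(7,10)]),(0,0,[(5,6),(3,4)])],[3]),([(0,11,[(3,3)])],[])],[2],false,1,0,[]),
    (true,[([(0,31,[(13,17)])],[6,2]),([(0,3,[(7,10),(5,5)]),(0,1,[(5,6)])],[3])],[2,2],false,1,0,[]),
    (true,[([(0,31,[(13,17)])],[6,2]),([(0,0,[(7,10)]),(0,0,[(7,9)])],[3])],[2,2,1],true,2,2,[3]),
    (true,[([(0,31,[(13,17)])],[6,2]),([(0,0,[(7,10)]),(0,0,[(7,9)])],[3]),([(0,11,[(3,3)])],[])],[2],false,1,0,[]),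
    (true,[([(0,31,[(13,17)])],[6]),([(0,17,[(11,14)])],[2,2,1])],[9,2],true,2,4,[3,4,5]),
    (true,[([(0,31,[(13,17)]),(0,11,[(3,3)])],[6]),([(0,17,[(11,14)])],[2,1])],[8,2],false,2,2,[3]),
    (true,[([(0,31,[(13,17)])],[6,3]),([(0,17,[(11,14)]),(0,1,[(3,3),(3,3)])],[3])],[2,2],false,1,0,[]),
    (true,[([(0,31,[(13,17)]),(0,19,[(4,4)])],[6]),([(0,17,[(11,14)])],[2])],[8,2],false,2,1,[]),
    (true,[([(0,31,[(13,17)])],[6]),([(0,22,[(11,14),(5,5)])],[3,3,3])],[2],false,1,0,[]),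
    (false,[([(0,42,[(13,17),(15,15)])],[6,2,2,2,2])],[7],false,1,0,[]),
    (true,[([(0,25,[(18,23)])],[7,3])],[8,5,2,2,2,1],true,4,3,[6,8,10]),
    (true,[([(0,25,[(18,23)])],[7]),([(0,1,[(5,6)])],[1,1,1,1])],[9,2,2],true,2,5,[4,6]),
    (true,[([(0,25,[(18,23)])],[7]),([(0,0,[(5,6),(3,4)])],[2,2,2,2,1])],[2,2],false,1,0,[3,4]),
    (true,[([(0,25,[(18,23)])],[7]),([(0,0,[(5,6),(3,4)]),(0,11,[(2,3)])],[2,2,2])],[2,2],false,1,0,[3]),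
    (true,[([(0,25,[(18,23)])],[7,3]),([(0,0,[(5,6),(3,4)]),(0,11,[(2,3)]),(0,11,[(2,3)])],[])],[2,2],false,1,0,[2]),
    (true,[([(0,25,[(18,23)])],[7,3]),([(0,1,[(5,6)]),(0,1,[(3,4),(2,2)]),(0,11,[(2,3)])],[]),([(0,11,[(2,3)])],[])],[2],false,1,0,[]),
    (true,[([(0,25,[(18,23)])],[7]),([(0,0,[(5,6),(3,4)]),(0,19,[(4,4)])],[2,2,1])],[2,2],false,1,0,[]),
    (true,[([(0,25,[(18,23)])],[7]),([(0,1,[(5,6)]),(0,1,[(5,6)])],[2,2,2])],[2,2,1],false,2,1,[]),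
    (true,[([(0,25,[(18,23)])],[6]),([(0,7,[(7,8)])],[4,2,2,2,2])],[2,2],false,1,0,[3,4]),
    (true,[([(0,25,[(18,23)])],[7]),([(0,5,[(7,8)]),(0,11,[(2,3)])],[2,2,2,1])],[2,2,1],true,2,2,[3]),
    (true,[([(0,25,[(18,23)])],[7,3]),([(0,7,[(7,8)]),(0,1,[(2,3),(3,3)])],[2])],[2,2],false,1,0,[]),
    (false,[([(0,25,[(18,23)]),(0,47,[(7,8),(4,4)])],[])],[12,6],false,1,0,[]),
    (true,[([(0,25,[(18,23)])],[6,3]),([(0,10,[(9,10)])],[5,2,2])],[2],false,1,0,[2]),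
    (false,[([(0,25,[(18,23)]),(0,47,[(9,10),(2,2)])],[])],[12,6],false,1,0,[]),
    (true,[([(0,46,[(24,27)])],[])],[9,6,5,4,2],false,4,3,[])]),
  ([16,8,7,6,5,4,3,2,1], [
    (false,[],[16,8,7,6,5,4,3,2,1],false,8,3,[12,17,23,27]),
    (true,[([(0,2,[(9,12)])],[])],[9,8,7,6,4,1,1,1,1,1,1],false,6,4,[10,12]),
    (true,[([(0,2,[(9,12)]),(0,0,[(7,10)])],[])],[8,7,5,3,1,1,1,1,1,1,1],false,5,3,[8,10]),
    (false,[([(0,2,[(9,12)]),(0,0,[(7,10)]),(0,7,[(6,8)])],[1,1,1])],[7,6,4,2],false,4,2,[6,8]),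
    (true,[([(0,2,[(9,12)]),(0,0,[(7,10)])],[]),([(0,7,[(6,8)]),(0,1,[(5,6)])],[3])],[7,1,1,1,1,1,1],false,2,3,[4]),
    (false,[([(0,2,[(9,12)]),(0,0,[(7,10)]),(0,7,[(6,8)])],[1,1,1]),([(0,0,[(5,6),(3,4)])],[4,3,2])],[],false,1,0,[2]),
    (false,[([(0,2,[(9,12)]),(0,0,[(7,10)])],[4,1,1,1,1,1,1]),([(0,0,[(6,8),(2,2)]),(0,0,[(5,6),(3,4)])],[])],[],false,1,0,[]),
    (true,[([(0,2,[(9,12)]),(0,0,[(7,10)])],[]),([(0,7,[(6,8)]),(0,5,[(7,8)])],[])],[8,1,1,1,1,1,1],false,2,1,[]),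
    (false,[([(0,2,[(9,12)]),(0,0,[(7,10)]),(0,10,[(9,10)])],[1,1])],[7,6,4,1],false,4,1,[5]),
    (true,[([(0,31,[(9,12),(5,5)])],[3,2]),([(0,0,[(7,10)]),(0,0,[(9,10)])],[4])],[1,1,1,1,1,1],false,1,0,[]),
    (true,[([(0,2,[(9,12)]),(0,36,[(11,12)])],[])],[8,6,5,2,1,1,1,1,1,1,1],false,5,2,[9]),
    (false,[([(0,2,[(9,12)]),(0,4,[(11,12),(6,9)])],[1,1,1,1,1])],[7,5,2],false,3,2,[4]),
    (false,[([(0,2,[(9,12)]),(0,4,[(11,12),(6,9)])],[1,1,1,1,1]),([(0,19,[(4,4)])],[1,1,1])],[7],false,1,0,[]),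
    (true,[([(0,31,[(13,17)])],[])],[9,8,7,5,1,1,1,1,1,1],false,5,5,[8,12,15]),
    (true,[([(0,31,[(13,17)])],[]),([(0,7,[(6,8)])],[2,2,2])],[9,8,1,1,1,1],false,3,4,[6,8]),
    (true,[([(0,31,[(13,17)]),(0,1,[(4,6)])],[]),([(0,7,[(6,8)])],[2])],[8,7,1,1,1,1],false,3,4,[6]),
    (true,[([(0,31,[(13,17)]),(0,1,[(4,6)])],[]),([(0,7,[(6,8)]),(0,1,[(4,6)])],[3])],[7,1,1,1,1,1],false,2,3,[3,4]),
    (true,[([(0,31,[(13,17)]),(0,1,[(4,6)])],[]),([(0,7,[(6,8)]),(0,1,[(4,6)])],[3]),([(0,11,[(3,3)])],[1,1,1,1,1])],[1,1,1,1],false,1,0,[2]),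
    (true,[([(0,31,[(13,17)]),(0,1,[(4,6)])],[]),([(0,0,[(6,8),(2,2)]),(0,1,[(4,6)])],[]),([(0,11,[(3,3)])],[1,1,1,1,1,1])],[1,1,1,1],false,1,0,[]),
    (false,[([(0,4,[(13,17),(4,4)]),(0,7,[(6,8)])],[1,1,1,1,1,1]),([(0,1,[(4,6)]),(0,1,[(4,6)])],[3,2])],[],false,1,0,[]),
    (true,[([(0,31,[(13,17)]),(0,5,[(7,8)])],[]),([(0,7,[(6,8)])],[2,1])],[8,4,1,1,1,1],false,3,3,[4]),
    (false,[([(0,4,[(13,17),(4,4)]),(0,7,[(6,8)])],[1,1,1,1,1,1]),([(0,5,[(7,8)])],[3,2,2,1,1])],[],false,1,0,[]),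
    (false,[([(0,31,[(13,17)]),(0,2,[(9,12)])],[1,1,1,1,1])],[8,6,4],false,3,4,[6,7]),
    (true,[([(0,31,[(13,17)]),(0,1,[(4,6)])],[]),([(0,2,[(9,12)])],[3,2])],[8,1,1,1,1],false,2,3,[3,4]),
    (true,[([(0,31,[(13,17)]),(0,1,[(4,6)])],[]),([(0,2,[(9,12)]),(0,11,[(3,3)])],[3])],[7,1,1,1,1],false,2,1,[]),
    (false,[([(0,4,[(13,17),(4,4)]),(0,2,[(9,12)])],[1,1,1,1,1]),([(0,1,[(4,6)])],[3,2,2,1])],[],false,1,0,[]),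
    (true,[([(0,31,[(13,17)])],[3,3,3]),([(0,45,[(9,12),(7,7)])],[4])],[1,1,1],false,1,0,[]),
    (false,[([(0,31,[(13,17)]),(0,48,[(13,15)])],[5,1,1,1])],[6,5,1],false,3,1,[]),
    (true,[([(0,25,[(18,23)])],[])],[9,8,6,1,1,1,1,1,1],false,4,6,[6,10]),
    (false,[([(0,25,[(18,23)]),(0,1,[(5,6)])],[6,1,1,1,1,1])],[7,5],false,2,5,[4,6]),
    (true,[([(0,25,[(18,23)])],[]),([(0,0,[(5,6),(3,4)])],[3,3,3,3,2])],[1,1,1,1,1],false,1,0,[2,3,4]),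
    (true,[([(0,25,[(18,23)]),(0,11,[(2,2)])],[]),([(0,0,[(5,6),(3,4)])],[3,3,3,2])],[1,1,1,1,1],false,1,0,[2]),
    (true,[([(0,25,[(18,23)])],[2]),([(0,0,[(5,6),(3,4)]),(1,0,[(2,2),(2,2)])],[3,3])],[1,1,1,1,1],false,1,0,[2]),
    (true,[([(0,25,[(18,23)])],[2]),([(0,0,[(5,6),(3,4)]),(1,0,[(2,2),(2,2),(2,2)])],[3,3])],[1,1,1,1,1],false,1,0,[]),
    (true,[([(0,25,[(18,23)]),(0,11,[(3,3)])],[]),([(0,0,[(5,6),(3,4)])],[3,3,3,2])],[1,1,1,1,1],false,1,0,[2]),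
    (true,[([(0,25,[(18,23)])],[3,3]),([(0,0,[(5,6),(3,4)]),(0,9,[(3,3),(2,2)])],[3])],[1,1,1,1,1],false,1,0,[]),
    (true,[([(0,25,[(18,23)]),(0,19,[(4,4)])],[]),([(0,0,[(5,6),(3,4)])],[3,3,3,1])],[1,1,1,1,1],false,1,0,[]),
    (true,[([(0,25,[(18,23)])],[1]),([(0,2,[(5,6),(5,6)])],[3,3,3,3])],[1,1,1,1],false,1,0,[2]),
    (true,[([(0,25,[(18,23)])],[4,3]),([(0,2,[(5,6),(5,6)]),(0,11,[(2,2)])],[3])],[1,1,1,1],false,1,0,[]),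
    (true,[([(0,25,[(18,23)])],[]),([(0,0,[(7,10)])],[3,3,3,3,2])],[1,1,1,1,1],false,1,0,[2,3,4]),
    (true,[([(0,25,[(18,23)]),(0,11,[(2,2)])],[]),([(0,0,[(7,10)])],[3,3,3,2])],[1,1,1,1,1],false,1,0,[2]),
    (true,[([(0,25,[(18,23)])],[2]),([(0,0,[(7,10)]),(1,0,[(2,2),(2,2)])],[3,3])],[1,1,1,1,1],false,1,0,[2]),
    (true,[([(0,25,[(18,23)])],[2]),([(0,0,[(7,10)]),(1,0,[(2,2),(2,2),(2,2)])],[3,3])],[1,1,1,1,1],false,1,0,[]),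
    (true,[([(0,25,[(18,23)]),(0,11,[(3,3)])],[]),([(0,0,[(7,10)])],[3,3,3,2])],[1,1,1,1,1],false,1,0,[2]),
    (true,[([(0,25,[(18,23)])],[3,3]),([(0,0,[(7,10)]),(0,9,[(3,3),(2,2)])],[3])],[1,1,1,1,1],false,1,0,[]),
    (true,[([(0,25,[(18,23)]),(0,19,[(4,4)])],[]),([(0,0,[(7,10)])],[3,3,3,1])],[1,1,1,1,1],false,1,0,[]),
    (true,[([(0,49,[(24,27)])],[])],[8,7,6,1,1,1,1],false,4,3,[])])]

theorem cj9d_2_ok : runAllJ S43 R43 F43 26 cj9d_2 = true := by decide +kernel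

/-- the minors -/
def G9d : List (List ℕ) := [
  [1,1,1,1,1,1,1,1,1,8,1,1,1,1,1,1,1,1], [1,1,1,1,1,1,1,1,8,1,1,1,1,1,1,1,1,1],
  [1,1,1,1,1,1,1,1,1,1,5,1,1,1,1,1,1,1], [1,1,1,1,1,1,1,5,1,1,1,1,1,1,1,1,1,1],
  [1,1,1,1,1,1,1,1,1,1,1,4,1,1,1,1,1,1], [1,1,1,1,1,1,4,1,1,1,1,1,1,1,1,1,1,1],
  [1,1,1,1,1,1,1,1,1,1,1,1,3,1,1,1,1,1], [1,1,1,1,1,3,1,1,1,1,1,1,1,1,1,1,1,1],
  [1,1,1,1,1,1,1,1,1,1,1,1,1,3,1,1,1,1], [1,1,1,1,3,1,1,1,1,1,1,1,1,1,1,1,1,1],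
  [1,1,1,1,1,1,1,1,1,1,1,1,1,1,3,1,1,1], [1,1,1,3,1,1,1,1,1,1,1,1,1,1,1,1,1,1],
  [1,1,1,1,1,1,1,1,1,1,1,1,1,1,1,2,1,1], [1,1,2,1,1,1,1,1,1,1,1,1,1,1,1,1,1,1],
  [1,1,1,1,1,1,1,1,1,1,1,1,1,1,1,1,2,1], [1,2,1,1,1,1,1,1,1,1,1,1,1,1,1,1,1,1],
  [1,1,1,1,1,1,1,1,1,1,1,1,1,1,1,1,1,2], [2,1,1,1,1,1,1,1,1,1,1,1,1,1,1,1,1,1],
  [1,1,1,1,2,1,1,2,1,1,1,1,1,1,1,1,1,1], [1,1,1,1,1,1,1,1,1,1,2,1,1,2,1,1,1,1]]

noncomputable def T9d : BT :=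
  .split 0 2 (.split 1 2 (.split 2 2 (.split 3 3 (.split 4 3 (.split 5 3 (.split 6 4 (.split 7 5
  (.split 8 8 (.split 9 8 (.split 10 5 (.split 11 4 (.split 12 3 (.split 13 3 (.split 14 3
  (.split 15 2 (.split 16 2 (.split 17 2 (.split 14 2 .small (.split 3 2 .small (.split 13 2
  .small (.split 10 2 .small (.minor 19))))) (.minor 16)) (.minor 14)) (.minor 12)) (.minor 10))
  (.minor 8)) (.minor 6)) (.minor 4)) (.minor 2)) (.minor 0)) (.minor 1)) (.minor 3)) (.minor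
  5)) (.minor 7)) (.minor 9)) (.minor 11)) (.minor 13)) (.minor 15)) (.minor 17)

noncomputable def Rt9d : List (List ℕ) :=
  cj9d_0.map Prod.fst ++ cj9d_1.map Prod.fst ++ cj9d_2.map Prod.fst

theorem Rt9d_ok : ∀ M ∈ Rt9d, KG (M : Multiset ℕ) 26 := by
  intro M h
  unfold Rt9d at h
  simp only [List.mem_append] at h
  rcases h with (h | h) | h
  · exact kg_of_allJ S43_ok R43_ok F43_ok cj9d_0_ok M h
  · exact kg_of_allJ S43_ok R43_ok F43_ok cj9d_1_ok M h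
  · exact kg_of_allJ S43_ok R43_ok F43_ok cj9d_2_ok M h

def ks9d : List ℕ := [
  18, 19, 16, 17, 14, 15, 8, 9, 10, 11, 12, 13, 0, 1, 2, 3, 4, 5, 7, 6]

theorem min9d_ok : minC 9 Rt9d G9d ks9d = true := by decide +kernel

theorem T9d_ok : btC 9 117 G9d T9d (List.replicate (2 * 9) 1)
    (List.replicate (2 * 9) 0) = true := by decide +kernel

theorem kg9d {M : Multiset ℕ} (hM : ∀ s ∈ M, 1 ≤ s)
    (hc : M.dedup.card = 9) (hn : 117 ≤ M.sum) : KG M 26 :=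
  coverC ks9d T9d Rt9d_ok min9d_ok T9d_ok hM hc hn

noncomputable def cj10c_0 : List (List ℕ × List NdJ) := [
  ([11,9,8,7,6,5,4,3,2,1], [
    (false,[],[11,9,8,7,6,5,4,3,2,1],false,9,3,[12,17,23,29]),
    (true,[([(0,2,[(10,12)])],[])],[10,9,8,7,6,4],false,6,4,[10,12]),
    (true,[([(0,2,[(10,12)]),(0,0,[(7,10)])],[])],[10,8,7,5,3,1],true,6,2,[10]),
    (true,[([(0,2,[(10,12)]),(0,0,[(7,10)])],[]),([(0,0,[(7,10)])],[3,2,1])],[10,8],false,2,7,[5,8]),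
    (false,[([(0,2,[(10,12)]),(0,0,[(7,10)])],[5,4]),([(0,0,[(7,10)]),(1,2,[(3,5)])],[])],[],false,1,0,[5]),
    (false,[([(0,2,[(10,12)]),(1,3,[(3,5),(2,5)])],[]),([(0,0,[(7,10)]),(0,0,[(7,10)])],[3])],[],false,1,0,[4,5]),
    (false,[([(0,2,[(10,12)]),(1,3,[(3,5),(2,5),(2,4)])],[]),([(0,0,[(7,10)]),(0,0,[(7,10)])],[3])],[],false,1,0,[4]),
    (false,[([(0,2,[(10,12)]),(1,3,[(3,5),(2,5),(2,4),(2,4)])],[]),([(0,0,[(7,10)]),(0,0,[(7,10)])],[3])],[],false,1,0,[3]),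
    (true,[([(0,3,[(10,12),(2,3)]),(0,0,[(7,10)])],[]),([(0,0,[(7,10)]),(1,3,[(3,5),(2,5),(2,4),(2,4)])],[])],[],false,1,0,[2]),
    (true,[([(0,3,[(10,12),(2,3)]),(0,0,[(7,10)])],[]),([(0,0,[(7,10)]),(1,3,[(3,5),(2,5),(2,4),(2,4),(2,2)])],[])],[],false,1,0,[]),
    (false,[([(0,2,[(10,12)]),(1,3,[(3,5),(2,5),(5,5)])],[]),([(0,0,[(7,10)]),(0,0,[(7,10)])],[3])],[],false,1,0,[]),
    (true,[([(0,2,[(10,12)]),(0,0,[(7,10)])],[]),([(0,0,[(7,10)]),(0,7,[(6,8)])],[4,3])],[8,1],true,2,2,[3]),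
    (false,[([(0,3,[(10,12),(3,3)]),(0,0,[(7,10)])],[]),([(0,0,[(7,10)]),(0,7,[(6,8)])],[3,1,1])],[8],false,1,0,[]),
    (true,[([(0,2,[(10,12)]),(0,36,[(11,12)])],[])],[10,8,6,5,2,1],false,6,1,[10]),
    (false,[([(0,20,[(10,12),(11,12)]),(0,0,[(7,10)])],[1])],[9,6,4,2],false,4,2,[]),
    (true,[([(0,31,[(13,17)])],[])],[10,9,8,7,5],false,5,5,[8,11,15,17]),
    (true,[([(0,31,[(13,17)]),(0,7,[(6,8)])],[])],[9,8,7,5,2],false,5,2,[7,8]),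
    (false,[([(0,31,[(13,17)]),(0,3,[(6,8),(6,7)])],[])],[9,7,5,3],false,4,3,[6,7]),
    (false,[([(0,31,[(13,17)]),(0,3,[(6,8),(6,7)])],[]),([(0,1,[(5,6)])],[3,3,2,1])],[9],false,1,0,[3]),
    (false,[([(0,31,[(13,17)]),(0,3,[(6,8),(6,7)])],[]),([(0,1,[(5,6)]),(0,11,[(2,3)])],[3,3])],[9],false,1,0,[2]),
    (false,[([(0,31,[(13,17)]),(0,3,[(6,8),(6,7)])],[]),([(0,1,[(5,6)]),(1,0,[(2,3),(2,2)])],[3])],[9],false,1,0,[]),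
    (false,[([(0,31,[(13,17)]),(0,3,[(6,8),(6,7)])],[]),([(0,7,[(7,7)])],[4,4,3,3,2])],[],false,1,0,[]),
    (true,[([(0,31,[(13,17)]),(0,7,[(6,8)])],[]),([(0,5,[(8,8)])],[2,2,1,1])],[9,8],false,2,4,[4,5]),
    (true,[([(0,31,[(13,17)])],[5,5,5,4]),([(0,7,[(6,8)]),(0,2,[(8,8),(3,4)])],[])],[],false,1,0,[2,3]),
    (true,[([(0,29,[(13,17),(8,8)])],[5,3]),([(0,7,[(6,8)]),(0,1,[(3,4),(2,2)])],[3,3,3])],[],false,1,0,[2]),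
    (true,[([(0,29,[(13,17),(8,8)])],[5,1]),([(0,0,[(6,8),(2,2)]),(0,1,[(3,4),(2,2)])],[3,3,3])],[],false,1,0,[]),
    (true,[([(0,31,[(13,17)]),(0,7,[(6,8)])],[]),([(0,3,[(8,8),(3,4),(3,3)])],[5,4,4,3])],[],false,1,0,[]),
    (true,[([(0,29,[(13,17),(8,8)])],[5,5,5]),([(0,7,[(6,8)]),(0,9,[(5,5)])],[3])],[],false,1,0,[]),
    (true,[([(0,31,[(13,17)]),(0,18,[(9,11)])],[])],[9,8,5,4,2],false,5,2,[8,9]),
    (false,[([(0,31,[(13,17)]),(0,18,[(9,11)])],[5]),([(0,7,[(6,8)])],[4,4,3,3,1])],[],false,1,0,[4]),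
    (true,[([(0,31,[(13,17)]),(0,7,[(6,8)])],[]),([(0,18,[(9,11)]),(1,1,[(2,4)])],[2])],[8],false,1,0,[3]),
    (true,[([(0,31,[(13,17)]),(0,7,[(6,8)])],[]),([(0,18,[(9,11)]),(1,1,[(2,4),(2,3)])],[2])],[8],false,1,0,[2]),
    (true,[([(0,31,[(13,17)]),(0,7,[(6,8)])],[]),([(0,18,[(9,11)]),(1,1,[(2,4),(2,3),(2,2)])],[2])],[8],false,1,0,[]),
    (false,[([(0,31,[(13,17)]),(0,18,[(9,11)])],[5]),([(0,14,[(9,9)])],[2,2,1])],[9],false,1,0,[]),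
    (false,[([(0,31,[(13,17)]),(0,3,[(12,15)])],[])],[9,7,5,3],false,4,3,[6]),
    (false,[([(0,31,[(13,17)]),(0,3,[(12,15)])],[]),([(0,1,[(5,6)])],[3,3,2,1])],[9],false,1,0,[2]),
    (false,[([(0,31,[(13,17)]),(0,3,[(12,15)])],[]),([(0,7,[(5,6),(2,2)])],[4,4,3,3,2])],[],false,1,0,[]),
    (true,[([(0,50,[(13,17),(16,17)])],[6])],[9,7],false,2,1,[]),
    (true,[([(0,25,[(18,23)])],[])],[10,9,8,6],false,4,6,[6,10,12]),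
    (true,[([(0,25,[(18,23)]),(0,1,[(5,6)])],[])],[9,8,6,4],false,4,4,[6]),
    (false,[([(0,25,[(18,23)]),(0,1,[(5,6)])],[6]),([(0,1,[(5,6)])],[3,3,3,3,2,1])],[],false,1,0,[2,4]),
    (true,[([(0,25,[(18,23)])],[4,4,3]),([(0,7,[(5,6),(2,2)]),(0,1,[(5,6)])],[4,4])],[],false,1,0,[2]),
    (true,[([(0,25,[(18,23)]),(0,1,[(5,6)])],[]),([(0,0,[(5,6),(2,2),(2,2)])],[4,4,4,3,2])],[],false,1,0,[2]),
    (true,[([(0,25,[(18,23)])],[4,4,3]),([(0,0,[(5,6),(2,2),(2,2)]),(0,7,[(5,6),(2,2)])],[4])],[],false,1,0,[]),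
    (true,[([(0,25,[(18,23)]),(0,1,[(5,6)])],[]),([(0,0,[(5,6),(3,4)])],[4,4,4,3,2])],[],false,1,0,[2]),
    (true,[([(0,25,[(18,23)])],[4,4,3]),([(0,0,[(5,6),(3,4)]),(0,7,[(5,6),(2,2)])],[4])],[],false,1,0,[]),
    (true,[([(0,25,[(18,23)])],[]),([(0,0,[(7,10)])],[4,4,4,4,4,3])],[],false,1,0,[2,4,6]),
    (true,[([(0,25,[(18,23)]),(0,11,[(2,2)])],[]),([(0,0,[(7,10)])],[4,4,4,4,3,1])],[],false,1,0,[2]),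
    (true,[([(0,25,[(18,23)]),(1,0,[(2,2),(2,2)])],[]),([(0,0,[(7,10)])],[4,4,4,3,2])],[],false,1,0,[2]),
    (true,[([(0,25,[(18,23)]),(1,0,[(2,2),(2,2),(2,2)])],[]),([(0,0,[(7,10)])],[4,4,4,3,2])],[],false,1,0,[2]),
    (true,[([(0,25,[(18,23)])],[3,2]),([(0,0,[(7,10)]),(1,1,[(2,2),(2,2),(2,2),(2,2)])],[4,4])],[],false,1,0,[2]),
    (true,[([(0,25,[(18,23)])],[3,2]),([(0,0,[(7,10)]),(1,1,[(2,2),(2,2),(2,2),(2,2),(2,2)])],[4,4])],[],false,1,0,[]),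
    (true,[([(0,25,[(18,23)])],[3,2]),([(0,0,[(7,10)]),(1,1,[(3,4)])],[4,4])],[],false,1,0,[2,3,4]),
    (true,[([(0,25,[(18,23)]),(0,1,[(3,4),(2,2)])],[]),([(0,0,[(7,10)])],[4,4,4,3,2])],[],false,1,0,[2]),
    (true,[([(0,25,[(18,23)])],[3,2]),([(0,0,[(7,10)]),(1,1,[(3,4),(2,2),(2,2)])],[4,4])],[],false,1,0,[2]),
    (true,[([(0,25,[(18,23)])],[3,2]),([(0,0,[(7,10)]),(1,1,[(3,4),(2,2),(2,2),(2,2)])],[4,4])],[],false,1,0,[]),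
    (true,[([(0,25,[(18,23)])],[3,2]),([(0,0,[(7,10)]),(1,1,[(3,4),(3,3)])],[4,4])],[],false,1,0,[2]),
    (true,[([(0,25,[(18,23)])],[3,2]),([(0,0,[(7,10)]),(1,1,[(3,4),(3,3),(2,2)])],[4,4])],[],false,1,0,[]),
    (true,[([(0,25,[(18,23)])],[4,4,3]),([(0,0,[(7,10)]),(0,7,[(3,4),(4,4)])],[4])],[],false,1,0,[]),
    (true,[([(0,25,[(18,23)]),(0,1,[(5,6)])],[]),([(0,0,[(7,10)])],[4,4,4,3,2])],[],false,1,0,[2]),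
    (true,[([(0,25,[(18,23)])],[4,4,3]),([(0,0,[(7,10)]),(0,7,[(5,6),(2,2)])],[4])],[],false,1,0,[]),
    (true,[([(0,25,[(18,23)])],[1]),([(0,36,[(11,12)])],[4,4,4,4,3,1])],[],false,1,0,[2]),
    (true,[([(0,25,[(18,23)]),(0,11,[(2,2)])],[2]),([(0,36,[(11,12)])],[4,4,4,3,1])],[],false,1,0,[]),
    (true,[([(0,51,[(24,29)])],[4])],[10,8,5],false,3,5,[6]),
    (true,[([(0,32,[(24,29)])],[6,5]),([(0,1,[(4,6)])],[2,2,2,2,2])],[],false,1,0,[3]),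
    (true,[([(0,51,[(24,29)])],[4]),([(0,1,[(4,6)]),(0,11,[(2,3)])],[3,3,3,3,2])],[],false,1,0,[2]),
    (true,[([(0,51,[(24,29)])],[4]),([(0,1,[(4,6)]),(1,0,[(2,3),(2,2)])],[3,3,3,2])],[],false,1,0,[])]),
  ([11,10,8,7,6,5,4,3,2,1], [
    (false,[],[11,10,8,7,6,5,4,3,2,1],false,9,3,[12,17,23,29]),
    (false,[([(0,2,[(10,12)])],[4])],[11,10,8,7,5],false,5,5,[8,12]),
    (true,[([(0,2,[(10,12)]),(0,7,[(6,8)])],[])],[10,8,7,6,4,2],false,6,2,[8]),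
    (true,[([(0,4,[(10,12),(7,8)]),(0,7,[(6,8)])],[])],[9,8,6,3,2],false,5,2,[8]),
    (true,[([(0,2,[(10,12)]),(0,7,[(6,8)])],[]),([(0,7,[(7,8)]),(0,7,[(6,8)])],[3,3])],[8,7],false,2,3,[4]),
    (false,[([(0,4,[(10,12),(7,8)]),(0,7,[(6,8)])],[]),([(0,7,[(6,8)]),(1,1,[(3,4)])],[4,3,3])],[],false,1,0,[2]),
    (false,[([(0,4,[(10,12),(7,8)]),(0,0,[(6,8),(2,2)])],[]),([(0,7,[(6,8)]),(1,1,[(3,4)])],[4,3,1])],[],false,1,0,[]),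
    (false,[([(0,2,[(10,12)]),(0,2,[(9,12)])],[4])],[10,8,6,4,1],true,5,2,[8,11,12]),
    (true,[([(0,2,[(10,12)]),(0,2,[(9,12)])],[]),([(0,7,[(6,8)])],[3,3,2])],[9,8],false,2,6,[3,5,7]),
    (true,[([(0,3,[(10,12),(3,3)]),(0,2,[(9,12)])],[]),([(0,7,[(6,8)])],[3,2])],[9,8],false,2,4,[3]),
    (true,[([(0,3,[(10,12),(3,3)]),(0,3,[(9,12),(3,3)])],[]),([(0,7,[(6,8)])],[3])],[9,7],false,2,2,[3]),
    (false,[([(0,4,[(10,12),(3,3),(3,3),(3,3)]),(0,2,[(9,12)])],[]),([(0,7,[(6,8)])],[4,3,3,3,2,1])],[],false,1,0,[]),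
    (true,[([(0,2,[(10,12)]),(0,2,[(9,12)])],[]),([(0,7,[(6,8)]),(0,9,[(4,5)])],[3,2])],[8,7],false,2,3,[3,4]),
    (true,[([(0,3,[(10,12),(3,3)]),(0,2,[(9,12)])],[]),([(0,7,[(6,8)]),(0,9,[(4,5)])],[2])],[9,6],false,2,1,[]),
    (false,[([(0,4,[(10,12),(4,5),(4,4)]),(0,2,[(9,12)])],[]),([(0,7,[(6,8)])],[4,3,3,3,2,1])],[],false,1,0,[]),
    (false,[([(0,2,[(10,12)]),(0,2,[(9,12)])],[4]),([(0,3,[(6,8),(6,7)])],[4,4,3,2,1])],[],false,1,0,[2]),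
    (false,[([(0,4,[(10,12),(6,7),(2,2)]),(0,2,[(9,12)])],[]),([(0,7,[(6,8)])],[4,3,3,3,2,1])],[],false,1,0,[]),
    (true,[([(0,2,[(10,12)]),(0,2,[(9,12)])],[]),([(0,18,[(9,11)])],[2,2,1])],[9,8],false,2,3,[4]),
    (false,[([(0,2,[(10,12)]),(0,2,[(9,12)])],[4]),([(0,3,[(9,11),(3,4)])],[4,4,3,2,1])],[],false,1,0,[2]),
    (false,[([(0,17,[(10,12),(2,2)]),(0,2,[(9,12)])],[]),([(0,3,[(9,11),(3,4)])],[4,4,4,2,1,1])],[],false,1,0,[]),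
    (false,[([(0,52,[(10,12),(9,12),(12,12)])],[])],[11,10],false,1,0,[]),
    (false,[([(0,31,[(13,17)])],[5])],[11,10,8,6],false,4,6,[5,8,12,15,17]),
    (false,[([(0,31,[(13,17)]),(0,9,[(5,5)])],[5])],[11,8,7,4],false,4,4,[5]),
    (false,[([(0,31,[(13,17)]),(0,10,[(5,5),(5,5)])],[])],[10,8,7,5],false,4,5,[5]),
    (false,[([(0,31,[(13,17)]),(0,3,[(5,5),(5,5),(5,5)])],[])],[10,7,5,3],false,4,3,[5]),
    (false,[([(0,31,[(13,17)]),(0,3,[(5,5),(5,5),(5,5)])],[]),([(0,9,[(5,5)])],[3,3,2,2])],[10],false,1,0,[]),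
    (false,[([(0,31,[(13,17)]),(0,7,[(6,8)])],[5])],[10,8,6,3],false,4,3,[5,7,8]),
    (false,[([(0,31,[(13,17)]),(0,7,[(6,8)])],[5]),([(0,9,[(5,5)])],[3,3,2,2,2])],[10],false,1,0,[4,5]),
    (false,[([(0,31,[(13,17)]),(1,2,[(5,5),(2,4)])],[]),([(0,7,[(6,8)])],[4,4,3,3,2,1])],[],false,1,0,[3,4]),
    (false,[([(0,31,[(13,17)]),(1,2,[(5,5),(2,4),(2,3)])],[]),([(0,7,[(6,8)])],[4,4,3,3,2,1])],[],false,1,0,[2,3]),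
    (false,[([(0,31,[(13,17)]),(0,3,[(6,8),(5,5),(2,2)])],[]),([(1,1,[(2,4),(2,3)])],[4,4,3,2,1,1])],[],false,1,0,[2]),
    (false,[([(0,31,[(13,17)]),(0,3,[(6,8),(5,5),(2,2)])],[]),([(1,1,[(2,4),(2,3),(2,2)])],[4,4,3,2,1,1])],[],false,1,0,[2]),
    (true,[([(0,31,[(13,17)])],[5,3,2]),([(0,3,[(6,8),(5,5),(2,2)]),(1,2,[(2,4),(2,3),(2,2),(2,2)])],[])],[],false,1,0,[2]),
    (true,[([(0,31,[(13,17)])],[5,3,2]),([(0,3,[(6,8),(5,5),(2,2)]),(1,2,[(2,4),(2,3),(2,2),(2,2),(2,2)])],[])],[],false,1,0,[2]),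
    (true,[([(0,31,[(13,17)])],[5,3,2]),([(0,3,[(6,8),(5,5),(2,2)]),(1,2,[(2,4),(2,3),(2,2),(2,2),(2,2),(2,2)])],[])],[],false,1,0,[]),
    (false,[([(0,31,[(13,17)]),(1,2,[(5,5),(2,4),(2,3)])],[]),([(0,7,[(6,8)]),(0,11,[(3,3)])],[4,4,3,3])],[],false,1,0,[2,3]),
    (true,[([(0,31,[(13,17)])],[5,3,2]),([(0,3,[(6,8),(5,5),(2,2)]),(1,2,[(2,4),(2,3),(3,3)])],[])],[],false,1,0,[2]),
    (true,[([(0,31,[(13,17)])],[5,3,2]),([(0,3,[(6,8),(5,5),(2,2)]),(1,2,[(2,4),(2,3),(3,3),(2,2)])],[])],[],false,1,0,[2]),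
    (true,[([(0,31,[(13,17)])],[5,3,2]),([(0,3,[(6,8),(5,5),(2,2)]),(1,2,[(2,4),(2,3),(3,3),(2,2),(2,2)])],[])],[],false,1,0,[]),
    (false,[([(0,31,[(13,17)]),(1,2,[(5,5),(2,4),(2,3)])],[]),([(0,7,[(6,8)]),(0,1,[(3,3),(3,3)])],[4,4,3])],[],false,1,0,[2]),
    (true,[([(0,31,[(13,17)])],[5,3,2]),([(0,3,[(6,8),(5,5),(2,2)]),(1,2,[(2,4),(2,3),(3,3),(3,3)])],[])],[],false,1,0,[]),
    (true,[([(0,4,[(13,17),(4,4)]),(0,7,[(6,8)])],[]),([(1,2,[(5,5),(2,4)])],[5,3,3,2])],[],false,1,0,[2,3,4]),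
    (true,[([(0,4,[(13,17),(4,4)]),(1,1,[(2,4)])],[]),([(0,3,[(6,8),(5,5),(2,2)])],[5,3,2,1])],[],false,1,0,[2]),
    (true,[([(0,4,[(13,17),(4,4)]),(1,1,[(2,4),(2,2)])],[]),([(0,3,[(6,8),(5,5),(2,2)])],[5,3,2,1])],[],false,1,0,[2]),
    (true,[([(0,4,[(13,17),(4,4)]),(1,1,[(2,4),(2,2),(2,2)])],[]),([(0,3,[(6,8),(5,5),(2,2)])],[5,3,2,1])],[],false,1,0,[]),
    (true,[([(0,4,[(13,17),(4,4)]),(0,7,[(6,8)])],[]),([(1,2,[(5,5),(2,4),(3,3)])],[5,3,3,2])],[],false,1,0,[2]),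
    (true,[([(0,4,[(13,17),(4,4)]),(1,1,[(2,4),(3,3)])],[]),([(0,3,[(6,8),(5,5),(2,2)])],[5,3,2,1])],[],false,1,0,[]),
    (true,[([(0,4,[(13,17),(4,4)])],[4,3,2]),([(0,2,[(6,8),(4,4)]),(1,2,[(5,5),(2,4)])],[])],[],false,1,0,[]),
    (false,[([(0,31,[(13,17)]),(0,7,[(6,8)])],[5]),([(0,0,[(5,5),(5,5)])],[4,4,3,3,2,1])],[],false,1,0,[4]),
    (false,[([(0,31,[(13,17)]),(0,7,[(6,8)])],[5]),([(0,0,[(5,5),(5,5)]),(1,1,[(2,4)])],[4,3])],[],false,1,0,[3]),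
    (false,[([(0,31,[(13,17)]),(0,7,[(6,8)])],[5]),([(0,0,[(5,5),(5,5)]),(1,1,[(2,4),(2,3)])],[4,3])],[],false,1,0,[2]),
    (true,[([(0,31,[(13,17)])],[5,3,2]),([(0,3,[(6,8),(5,5),(2,2)]),(1,2,[(5,5),(2,4),(2,3)])],[])],[],false,1,0,[]),
    (false,[([(0,31,[(13,17)]),(0,3,[(6,8),(6,7)])],[])],[10,7,5,3],false,4,3,[6,7]),
    (false,[([(0,31,[(13,17)]),(0,3,[(6,8),(6,7)])],[]),([(0,1,[(5,6)])],[3,3,2,1])],[10],false,1,0,[3]),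
    (false,[([(0,31,[(13,17)]),(0,3,[(6,8),(6,7)])],[]),([(0,1,[(5,6)]),(0,11,[(2,3)])],[3,3])],[10],false,1,0,[2]),
    (false,[([(0,31,[(13,17)]),(0,3,[(6,8),(6,7)])],[]),([(0,7,[(5,6),(2,2)]),(0,11,[(2,3)])],[4,4,3,3])],[],false,1,0,[]),
    (false,[([(0,31,[(13,17)]),(0,3,[(6,8),(6,7)])],[]),([(0,6,[(7,7)])],[4,4,3,3,2,2])],[],false,1,0,[]),
    (true,[([(0,29,[(13,17),(8,8)])],[1,1]),([(0,7,[(6,8)])],[4,4,4,4,3,3])],[],false,1,0,[4,5]),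
    (true,[([(0,29,[(13,17),(8,8)])],[3,3]),([(0,7,[(6,8)]),(1,1,[(2,4)])],[4,4])],[],false,1,0,[3,4]),
    (true,[([(0,29,[(13,17),(8,8)])],[3,3]),([(0,7,[(6,8)]),(1,1,[(2,4),(2,3)])],[4,4])],[],false,1,0,[2,3]),
    (true,[([(0,29,[(13,17),(8,8)])],[3,1]),([(0,0,[(6,8),(2,2)]),(1,1,[(2,4),(2,3)])],[4,4])],[],false,1,0,[2]),
    (true,[([(0,29,[(13,17),(8,8)])],[3,1]),([(0,0,[(6,8),(2,2)]),(1,1,[(2,4),(2,3),(2,2)])],[4,4])],[],false,1,0,[]),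
    (true,[([(0,23,[(13,17),(8,8),(3,3)])],[3,2]),([(0,7,[(6,8)]),(1,1,[(2,4),(2,3)])],[3,3])],[],false,1,0,[]),
    (true,[([(0,29,[(13,17),(8,8)])],[5,5]),([(0,7,[(6,8)]),(1,1,[(2,4)]),(0,19,[(4,4)])],[])],[],false,1,0,[]),
    (true,[([(0,29,[(13,17),(8,8)])],[5,5,5]),([(0,7,[(6,8)]),(0,9,[(5,5)])],[4])],[],false,1,0,[]),
    (false,[([(0,31,[(13,17)]),(0,2,[(9,12)])],[])],[10,8,6,4],false,4,4,[6,9]),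
    (false,[([(0,31,[(13,17)]),(0,2,[(9,12)])],[]),([(0,1,[(5,6)])],[3,3,3,2,1])],[10],false,1,0,[2,4,5]),
    (false,[([(0,31,[(13,17)]),(0,2,[(9,12)])],[]),([(0,7,[(5,6),(2,2)])],[4,4,4,3,3,2])],[],false,1,0,[2]),
    (false,[([(0,31,[(13,17)]),(0,2,[(9,12)])],[]),([(0,0,[(5,6),(2,2),(2,2)])],[4,4,4,3,2,1])],[],false,1,0,[2]),
    (false,[([(0,31,[(13,17)]),(0,2,[(9,12)])],[]),([(0,0,[(5,6),(2,2),(2,2)]),(0,11,[(2,2)])],[4,4,4,3])],[],false,1,0,[2]),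
    (false,[([(0,31,[(13,17)]),(0,2,[(9,12)])],[]),([(0,0,[(5,6),(2,2),(2,2)]),(1,0,[(2,2),(2,2)])],[4,4,4])],[],false,1,0,[]),
    (false,[([(0,31,[(13,17)]),(0,2,[(9,12)])],[]),([(0,0,[(5,6),(3,4)])],[4,4,4,3,2,1])],[],false,1,0,[3]),
    (false,[([(0,31,[(13,17)]),(0,2,[(9,12)])],[]),([(0,0,[(5,6),(3,4)]),(0,11,[(2,3)])],[4,4,4,3])],[],false,1,0,[2]),
    (false,[([(0,31,[(13,17)]),(0,2,[(9,12)])],[]),([(0,0,[(5,6),(3,4)]),(1,0,[(2,3),(2,2)])],[4,4,4])],[],false,1,0,[]),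
    (false,[([(0,31,[(13,17)]),(0,2,[(9,12)])],[]),([(0,1,[(5,6)]),(0,9,[(5,5)])],[3,3,2,1])],[8],false,1,0,[]),
    (false,[([(0,31,[(13,17)]),(0,2,[(9,12)])],[]),([(0,0,[(7,9)])],[4,4,4,3,2,1])],[],false,1,0,[3]),
    (false,[([(0,31,[(13,17)]),(0,2,[(9,12)])],[]),([(0,0,[(7,9)]),(0,11,[(2,3)])],[4,4,4,3])],[],false,1,0,[2]),
    (false,[([(0,31,[(13,17)]),(0,2,[(9,12)])],[]),([(0,0,[(7,9)]),(1,0,[(2,3),(2,2)])],[4,4,4])],[],false,1,0,[]),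
    (false,[([(0,31,[(13,17)]),(0,3,[(13,15)])],[])],[10,7,5,3],false,4,3,[5]),
    (false,[([(0,31,[(13,17)]),(0,3,[(13,15)])],[]),([(0,9,[(5,5)])],[3,3,2,2])],[10],false,1,0,[]),
    (false,[([(0,53,[(13,17),(16,17)])],[5,1])],[11,6],false,2,1,[]),
    (false,[([(0,25,[(18,23)])],[6])],[11,10,7],false,3,7,[4,6,10,12]),
    (true,[([(0,25,[(18,23)]),(0,19,[(4,4)])],[6])],[9,7,6,2],false,4,2,[]),
    (false,[([(0,25,[(18,23)]),(0,1,[(5,6)])],[6])],[10,7,5],false,3,5,[4,6]),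
    (true,[([(0,25,[(18,23)])],[6]),([(0,0,[(5,6),(4,4)])],[4,3,3,3,3,2])],[],false,1,0,[4]),
    (true,[([(0,25,[(18,23)])],[6,2]),([(0,0,[(5,6),(4,4)]),(1,1,[(2,4)])],[3,3])],[],false,1,0,[2,3,4]),
    (true,[([(0,25,[(18,23)])],[6,2]),([(0,0,[(5,6),(4,4)]),(1,1,[(2,4),(2,2)])],[3,3])],[],false,1,0,[2]),
    (true,[([(0,25,[(18,23)])],[6,2]),([(0,0,[(5,6),(4,4)]),(1,1,[(2,4),(2,2),(2,2)])],[3,3])],[],false,1,0,[2]),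
    (true,[([(0,25,[(18,23)])],[6,2]),([(0,0,[(5,6),(4,4)]),(1,1,[(2,4),(2,2),(2,2),(2,2)])],[3,3])],[],false,1,0,[]),
    (true,[([(0,25,[(18,23)])],[6,2]),([(0,0,[(5,6),(4,4)]),(1,1,[(2,4),(3,3)])],[3,3])],[],false,1,0,[2]),
    (true,[([(0,25,[(18,23)])],[6,2]),([(0,0,[(5,6),(4,4)]),(1,1,[(2,4),(3,3),(2,2)])],[3,3])],[],false,1,0,[]),
    (true,[([(0,25,[(18,23)])],[6,4]),([(0,0,[(5,6),(4,4)]),(1,1,[(2,4)]),(0,19,[(4,4)])],[])],[],false,1,0,[]),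
    (false,[([(0,25,[(18,23)]),(0,1,[(5,6)])],[6]),([(0,1,[(5,6)])],[3,3,3,3,2,1,1])],[],false,1,0,[3,4]),
    (false,[([(0,25,[(18,23)]),(0,1,[(5,6)])],[6]),([(0,1,[(5,6)]),(0,11,[(2,3)])],[3,3,3,3,1])],[],false,1,0,[2,3]),
    (true,[([(0,25,[(18,23)])],[7,6,4]),([(0,7,[(5,6),(2,2)]),(0,1,[(5,6)]),(0,11,[(2,3)])],[])],[],false,1,0,[2]),
    (true,[([(0,25,[(18,23)])],[7,5,3]),([(0,0,[(5,6),(2,2),(2,2)]),(0,1,[(5,6)]),(0,11,[(2,3)])],[])],[],false,1,0,[]),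
    (true,[([(0,25,[(18,23)])],[7,5,3]),([(0,0,[(5,6),(3,3)]),(0,1,[(5,6)]),(0,11,[(2,3)])],[])],[],false,1,0,[]),
    (true,[([(0,25,[(18,23)])],[6,2]),([(0,0,[(5,6),(4,4)]),(0,1,[(5,6)])],[4,3,3])],[],false,1,0,[]),
    (true,[([(0,25,[(18,23)])],[6]),([(0,0,[(7,10)])],[4,3,3,3,3,2])],[],false,1,0,[2,4,6]),
    (true,[([(0,25,[(18,23)]),(0,11,[(2,2)])],[6]),([(0,0,[(7,10)])],[4,3,3,3,2])],[],false,1,0,[2]),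
    (true,[([(0,25,[(18,23)])],[6,2]),([(0,0,[(7,10)]),(1,0,[(2,2),(2,2)])],[4,3,3])],[],false,1,0,[2]),
    (true,[([(0,25,[(18,23)])],[6,2]),([(0,0,[(7,10)]),(1,0,[(2,2),(2,2),(2,2)])],[4,3,3])],[],false,1,0,[2]),
    (true,[([(0,25,[(18,23)])],[6,2]),([(0,0,[(7,10)]),(1,1,[(2,2),(2,2),(2,2),(2,2)])],[3,3])],[],false,1,0,[2]),
    (true,[([(0,25,[(18,23)])],[6,2]),([(0,0,[(7,10)]),(1,1,[(2,2),(2,2),(2,2),(2,2),(2,2)])],[3,3])],[],false,1,0,[]),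
    (true,[([(0,25,[(18,23)])],[6,2]),([(0,0,[(7,10)]),(1,1,[(3,4)])],[3,3])],[],false,1,0,[2,3,4]),
    (true,[([(0,25,[(18,23)])],[6,2]),([(0,0,[(7,10)]),(0,1,[(3,4),(2,2)])],[4,3,3])],[],false,1,0,[2]),
    (true,[([(0,25,[(18,23)])],[6,2]),([(0,0,[(7,10)]),(1,1,[(3,4),(2,2),(2,2)])],[3,3])],[],false,1,0,[2]),
    (true,[([(0,25,[(18,23)])],[6,2]),([(0,0,[(7,10)]),(1,1,[(3,4),(2,2),(2,2),(2,2)])],[3,3])],[],false,1,0,[]),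
    (true,[([(0,25,[(18,23)])],[6,2]),([(0,0,[(7,10)]),(1,1,[(3,4),(3,3)])],[3,3])],[],false,1,0,[2]),
    (true,[([(0,25,[(18,23)])],[6,2]),([(0,0,[(7,10)]),(1,1,[(3,4),(3,3),(2,2)])],[3,3])],[],false,1,0,[]),
    (true,[([(0,25,[(18,23)])],[6,4,3]),([(0,0,[(7,10)]),(0,7,[(3,4),(4,4)])],[3])],[],false,1,0,[]),
    (true,[([(0,25,[(18,23)])],[6,2]),([(0,0,[(7,10)]),(0,1,[(5,6)])],[4,3,3])],[],false,1,0,[2]),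
    (true,[([(0,25,[(18,23)])],[6,4,3]),([(0,0,[(7,10)]),(0,7,[(5,6),(2,2)])],[3])],[],false,1,0,[]),
    (true,[([(0,25,[(18,23)])],[6]),([(0,36,[(11,12)])],[3,3,3,3,3,1])],[],false,1,0,[2]),
    (true,[([(0,25,[(18,23)]),(0,11,[(2,2)])],[6]),([(0,36,[(11,12)])],[3,3,3,3,1])],[],false,1,0,[]),
    (true,[([(0,32,[(24,29)])],[5])],[10,7,6],false,3,5,[6]),
    (true,[([(0,32,[(24,29)])],[5]),([(0,1,[(4,6)])],[3,3,3,3,3,1,1])],[],false,1,0,[3]),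
    (true,[([(0,51,[(24,29)])],[7,4]),([(0,1,[(4,6)]),(0,11,[(2,3)])],[3,2,2,1])],[],false,1,0,[2]),
    (true,[([(0,51,[(24,29)])],[7,4]),([(0,1,[(4,6)]),(1,0,[(2,3),(2,2)])],[2,2,1])],[],false,1,0,[])]),
  ([11,10,9,7,6,5,4,3,2,1], [
    (false,[],[11,10,9,7,6,5,4,3,2,1],false,9,3,[12,17,23,29]),
    (true,[([(0,2,[(10,12)])],[4])],[10,9,8,7,5,3],false,6,3,[10,12]),
    (true,[([(0,2,[(10,12)]),(0,0,[(7,10)])],[4])],[9,8,6,4,3,2],false,6,2,[10]),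
    (true,[([(0,2,[(10,12)]),(0,0,[(7,10)])],[4]),([(0,0,[(7,10)])],[4,1])],[9,8],false,2,7,[4,6,8]),
    (true,[([(0,2,[(10,12)]),(0,0,[(7,10)])],[]),([(0,0,[(7,10)]),(1,1,[(3,4)])],[4,1])],[8,3],true,2,5,[4]),
    (false,[([(0,2,[(10,12)]),(0,0,[(7,10)])],[1]),([(0,0,[(7,10)]),(1,2,[(3,4),(3,4)])],[5,5])],[],false,1,0,[4]),
    (false,[([(0,2,[(10,12)]),(0,0,[(7,10)])],[1]),([(0,0,[(7,10)]),(1,2,[(3,4),(3,4),(2,4)])],[5,5])],[],false,1,0,[3]),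
    (true,[([(0,3,[(10,12),(2,3)]),(1,2,[(3,4),(3,4),(2,4)])],[]),([(0,0,[(7,10)]),(0,0,[(7,10)])],[4])],[3,1],false,2,1,[]),
    (true,[([(0,2,[(10,12)]),(0,0,[(7,10)])],[]),([(0,0,[(7,10)]),(0,1,[(5,6)])],[4,4,1])],[8,3],false,2,3,[4]),
    (true,[([(0,2,[(10,12)]),(0,0,[(7,10)])],[]),([(0,0,[(7,10)]),(0,0,[(5,6),(3,4)])],[4,1])],[8,3],false,2,1,[]),
    (true,[([(0,2,[(10,12)]),(0,0,[(7,10)])],[]),([(0,0,[(7,10)]),(0,7,[(7,8)])],[4,3])],[8,3],false,2,1,[]),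
    (true,[([(0,2,[(10,12)]),(0,36,[(11,12)])],[])],[10,8,6,5,3,2],false,6,2,[10]),
    (false,[([(0,20,[(10,12),(11,12)]),(0,0,[(7,10)])],[2])],[10,6,4,2],false,4,2,[]),
    (false,[([(0,31,[(13,17)])],[5])],[11,10,9,6],false,4,6,[6,8,10,13,17]),
    (true,[([(0,31,[(13,17)]),(0,1,[(5,6)])],[5])],[9,8,6,4,3],false,5,3,[6]),
    (false,[([(0,31,[(13,17)]),(0,2,[(5,6),(6,6)])],[])],[10,9,6,4],false,4,4,[6]),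
    (true,[([(0,31,[(13,17)]),(0,1,[(5,6)])],[5]),([(0,1,[(6,6)]),(0,1,[(5,6)])],[3,2])],[9,4],false,2,3,[4]),
    (true,[([(0,25,[(13,17),(6,6)])],[6,2]),([(0,0,[(5,6),(3,4)]),(0,1,[(5,6)])],[4,4,3])],[],false,1,0,[2]),
    (true,[([(0,25,[(13,17),(6,6)])],[6,4,3]),([(0,0,[(5,6),(3,4)]),(0,7,[(5,6),(2,2)])],[4])],[],false,1,0,[]),
    (true,[([(0,31,[(13,17)]),(0,5,[(7,8)])],[5])],[9,7,5,4,3],false,5,3,[6,7,8]),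
    (false,[([(0,25,[(13,17),(6,6)]),(0,5,[(7,8)])],[6])],[10,6,5],false,3,5,[6]),
    (true,[([(0,25,[(13,17),(6,6)])],[6,4,3]),([(0,7,[(7,8)]),(0,1,[(4,6)])],[4,4])],[],false,1,0,[3]),
    (true,[([(0,25,[(13,17),(6,6)])],[7,7,4]),([(0,7,[(7,8)]),(0,1,[(4,6)]),(0,11,[(2,3)])],[])],[],false,1,0,[2]),
    (true,[([(0,25,[(13,17),(6,6)])],[7,6,3]),([(0,0,[(7,8),(2,2)]),(0,1,[(4,6)]),(0,11,[(2,3)])],[])],[],false,1,0,[]),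
    (true,[([(0,31,[(13,17)]),(0,5,[(7,8)])],[5]),([(0,5,[(7,7)])],[3,1])],[9,7],false,2,4,[4,5]),
    (true,[([(0,31,[(13,17)])],[6,5,2]),([(0,3,[(7,8),(7,7)]),(1,1,[(3,4)])],[3])],[],false,1,0,[3]),
    (true,[([(0,31,[(13,17)])],[6,5,2]),([(0,3,[(7,8),(7,7)]),(1,1,[(3,4),(2,3)])],[3])],[],false,1,0,[2]),
    (true,[([(0,31,[(13,17)])],[6,5,2]),([(0,3,[(7,8),(7,7)]),(1,1,[(3,4),(2,3),(2,2)])],[3])],[],false,1,0,[]),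
    (true,[([(0,31,[(13,17)]),(0,9,[(5,5)])],[5]),([(0,3,[(7,8),(7,7)])],[5,5,3,3])],[],false,1,0,[]),
    (false,[([(0,29,[(13,17),(8,8)]),(0,5,[(7,8)])],[5])],[9,6,5],false,3,3,[4]),
    (true,[([(0,54,[(13,17),(8,8)])],[7,6]),([(0,5,[(7,8)]),(0,19,[(4,4)])],[3,2,2,1])],[],false,1,0,[]),
    (false,[([(0,31,[(13,17)]),(0,10,[(9,10)])],[])],[10,9,7,5],false,4,5,[5,8,9]),
    (true,[([(0,31,[(13,17)])],[5]),([(0,3,[(9,10),(5,5)])],[5,5,4,4,3])],[],false,1,0,[3,5]),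
    (true,[([(0,31,[(13,17)]),(0,11,[(2,3)])],[5]),([(0,3,[(9,10),(5,5)])],[5,5,4,3,1])],[],false,1,0,[3]),
    (true,[([(0,31,[(13,17)])],[6,5,2]),([(0,3,[(9,10),(5,5)]),(1,1,[(2,3),(2,3)])],[3])],[],false,1,0,[2,3]),
    (true,[([(0,31,[(13,17)])],[6,5,2]),([(0,3,[(9,10),(5,5)]),(1,1,[(2,3),(2,3),(2,2)])],[3])],[],false,1,0,[2]),
    (true,[([(0,31,[(13,17)])],[6,5,2]),([(0,3,[(9,10),(5,5)]),(1,1,[(2,3),(2,3),(2,2),(2,2)])],[3])],[],false,1,0,[]),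
    (true,[([(0,31,[(13,17)])],[6,5,2]),([(0,3,[(9,10),(5,5)]),(1,1,[(2,3),(2,3),(3,3)])],[3])],[],false,1,0,[]),
    (true,[([(0,31,[(13,17)]),(0,9,[(4,5)])],[5]),([(0,3,[(9,10),(5,5)])],[5,5,3,3])],[],false,1,0,[2]),
    (true,[([(0,31,[(13,17)])],[6,5,3,3]),([(0,8,[(9,10),(5,5),(2,2)]),(0,9,[(4,5)])],[2])],[],false,1,0,[]),
    (false,[([(0,31,[(13,17)]),(0,7,[(6,8)])],[5]),([(0,0,[(9,10)])],[4,4,3,3,2,2])],[],false,1,0,[3,4]),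
    (true,[([(0,31,[(13,17)]),(0,11,[(2,3)])],[5]),([(0,0,[(9,10)]),(0,7,[(6,8)])],[4,3])],[8],false,1,0,[2,3]),
    (true,[([(0,31,[(13,17)])],[6,5,4,3]),([(0,3,[(9,10),(2,3),(2,2)]),(0,7,[(6,8)])],[])],[],false,1,0,[2]),
    (true,[([(0,31,[(13,17)])],[6,5,2]),([(0,3,[(9,10),(2,3),(2,2)]),(0,0,[(6,8),(2,2)])],[3])],[],false,1,0,[]),
    (false,[([(0,31,[(13,17)]),(0,12,[(9,10),(3,3)])],[5]),([(0,7,[(6,8)]),(0,11,[(2,3)])],[4,4,3,1])],[],false,1,0,[]),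
    (true,[([(0,4,[(13,17),(4,4)])],[5,5,4]),([(0,10,[(9,10)]),(0,7,[(6,8)])],[5])],[],false,1,0,[]),
    (false,[([(0,52,[(13,17),(9,10),(9,9)])],[1])],[11,10],false,1,0,[]),
    (false,[([(0,31,[(13,17)]),(0,21,[(11,13)])],[])],[10,9,5,4],false,4,4,[6,7]),
    (false,[([(0,31,[(13,17)]),(0,21,[(11,13)])],[]),([(0,1,[(5,6)])],[3,3,3,1,1,1])],[10],false,1,0,[2,3]),
    (true,[([(0,31,[(13,17)]),(0,1,[(5,6)])],[5]),([(0,3,[(11,13),(2,2)])],[5,5,3,2])],[],false,1,0,[2]),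
    (true,[([(0,31,[(13,17)])],[6,5,4,3]),([(0,3,[(11,13),(2,2)]),(0,7,[(5,6),(2,2)])],[])],[],false,1,0,[]),
    (false,[([(0,31,[(13,17)]),(0,21,[(11,13)])],[]),([(0,0,[(5,6),(3,3)])],[4,4,4,2,2,2])],[],false,1,0,[]),
    (false,[([(0,31,[(13,17)]),(0,21,[(11,13)])],[]),([(0,5,[(7,7)])],[3,3,1,1,1,1])],[10],false,1,0,[]),
    (true,[([(0,31,[(13,17)])],[5]),([(0,8,[(14,17)])],[5,5,4,3,2])],[],false,1,0,[3,4]),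
    (true,[([(0,31,[(13,17)]),(0,11,[(2,3)])],[5]),([(0,8,[(14,17)])],[5,5,3,2,1])],[],false,1,0,[3]),
    (true,[([(0,31,[(13,17)]),(0,11,[(2,3)])],[5]),([(0,8,[(14,17)]),(0,11,[(2,3)])],[5,5,3])],[],false,1,0,[2]),
    (true,[([(0,31,[(13,17)]),(0,11,[(2,3)])],[5]),([(0,8,[(14,17)]),(1,0,[(2,3),(2,2)])],[5,5])],[],false,1,0,[]),
    (true,[([(0,4,[(13,17),(4,4)])],[]),([(0,8,[(14,17)])],[5,5,4,4,2])],[],false,1,0,[]),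
    (true,[([(0,25,[(18,23)])],[6])],[10,9,7,3],false,4,3,[5,8,11,12]),
    (true,[([(0,23,[(18,23),(5,5)])],[])],[10,9,8,3],false,4,3,[5]),
    (true,[([(0,23,[(18,23),(5,5)]),(0,9,[(5,5)])],[])],[9,8,5,3],false,4,3,[]),
    (true,[([(0,25,[(18,23)])],[6,1]),([(0,7,[(6,8)])],[4,4,3,3,3,3])],[],false,1,0,[2,3,4,6,7]),
    (true,[([(0,25,[(18,23)])],[6]),([(0,0,[(6,8),(2,2)])],[4,4,3,3,3,2])],[],false,1,0,[2]),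
    (true,[([(0,25,[(18,23)]),(0,11,[(2,2)])],[6]),([(0,0,[(6,8),(2,2)])],[4,4,3,3,2])],[],false,1,0,[2]),
    (true,[([(0,25,[(18,23)])],[6,2]),([(0,0,[(6,8),(2,2)]),(1,0,[(2,2),(2,2)])],[4,4,3])],[],false,1,0,[2]),
    (true,[([(0,25,[(18,23)])],[6,2]),([(0,0,[(6,8),(2,2)]),(1,0,[(2,2),(2,2),(2,2)])],[4,4,3])],[],false,1,0,[2]),
    (true,[([(0,25,[(18,23)])],[6,2]),([(0,0,[(6,8),(2,2)]),(1,1,[(2,2),(2,2),(2,2),(2,2)])],[4,3])],[],false,1,0,[2]),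
    (true,[([(0,25,[(18,23)])],[6,2]),([(0,0,[(6,8),(2,2)]),(1,1,[(2,2),(2,2),(2,2),(2,2),(2,2)])],[4,3])],[],false,1,0,[]),
    (true,[([(0,25,[(18,23)])],[6,4,3]),([(0,7,[(6,8)]),(0,11,[(3,3)])],[4,4,3])],[],false,1,0,[3]),
    (true,[([(0,25,[(18,23)])],[6,4,3]),([(0,7,[(6,8)]),(0,1,[(3,3),(2,3)])],[4,4])],[],false,1,0,[2,3]),
    (true,[([(0,25,[(18,23)])],[6,2]),([(0,0,[(6,8),(2,2)]),(0,1,[(3,3),(2,3)])],[4,4,3])],[],false,1,0,[2]),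
    (true,[([(0,25,[(18,23)])],[6,2]),([(0,0,[(6,8),(2,2)]),(1,1,[(3,3),(2,3),(2,2)])],[4,3])],[],false,1,0,[2]),
    (true,[([(0,25,[(18,23)])],[6,2]),([(0,0,[(6,8),(2,2)]),(1,1,[(3,3),(2,3),(2,2),(2,2)])],[4,3])],[],false,1,0,[]),
    (true,[([(0,25,[(18,23)])],[6,4,3]),([(0,7,[(6,8)]),(1,1,[(3,3),(2,3),(3,3)])],[4])],[],false,1,0,[2]),
    (true,[([(0,25,[(18,23)])],[6,2]),([(0,0,[(6,8),(2,2)]),(1,1,[(3,3),(2,3),(3,3)])],[4,3])],[],false,1,0,[]),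
    (true,[([(0,25,[(18,23)]),(0,19,[(4,4)])],[6]),([(0,7,[(6,8)])],[4,4,3,3,3])],[],false,1,0,[3,4]),
    (true,[([(0,25,[(18,23)])],[6,4,3]),([(0,7,[(6,8)]),(1,1,[(4,4),(2,3)])],[4])],[],false,1,0,[2,3]),
    (true,[([(0,25,[(18,23)])],[6,2]),([(0,0,[(6,8),(2,2)]),(1,1,[(4,4),(2,3)])],[4,3])],[],false,1,0,[2]),
    (true,[([(0,25,[(18,23)])],[6,2]),([(0,0,[(6,8),(2,2)]),(1,1,[(4,4),(2,3),(2,2)])],[4,3])],[],false,1,0,[]),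
    (true,[([(0,25,[(18,23)])],[6,4,3]),([(0,7,[(6,8)]),(0,0,[(4,4),(2,3),(3,3)])],[4])],[],false,1,0,[]),
    (true,[([(0,25,[(18,23)])],[6,5,4]),([(0,7,[(6,8)]),(0,7,[(4,4),(4,4)])],[4])],[],false,1,0,[]),
    (true,[([(0,25,[(18,23)])],[6,4,3]),([(0,7,[(6,8)]),(0,1,[(5,6)])],[4,4])],[],false,1,0,[3]),
    (true,[([(0,25,[(18,23)])],[7,7,4]),([(0,7,[(6,8)]),(0,1,[(5,6)]),(0,11,[(2,3)])],[])],[],false,1,0,[2]),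
    (true,[([(0,25,[(18,23)])],[7,6,3]),([(0,0,[(6,8),(2,2)]),(0,1,[(5,6)]),(0,11,[(2,3)])],[])],[],false,1,0,[]),
    (true,[([(0,25,[(18,23)])],[6,5,5]),([(0,7,[(6,8)]),(0,6,[(7,7)])],[4])],[],false,1,0,[]),
    (true,[([(0,25,[(18,23)])],[6]),([(0,18,[(9,11)])],[4,4,3,3,2,2])],[],false,1,0,[4]),
    (true,[([(0,25,[(18,23)])],[6,1]),([(0,18,[(9,11)]),(1,1,[(2,4)])],[4,3])],[],false,1,0,[3]),
    (true,[([(0,25,[(18,23)])],[6,1]),([(0,18,[(9,11)]),(1,1,[(2,4),(2,3)])],[4,3])],[],false,1,0,[2]),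
    (true,[([(0,25,[(18,23)])],[6,1]),([(0,18,[(9,11)]),(1,1,[(2,4),(2,3),(2,2)])],[4,3])],[],false,1,0,[]),
    (false,[([(0,52,[(18,23),(12,12)])],[1])],[11,10],false,1,0,[]),
    (true,[([(0,32,[(24,29)])],[6])],[10,7,6],false,3,5,[6]),
    (true,[([(0,32,[(24,29)])],[6]),([(0,1,[(4,6)])],[3,3,3,3,3,1,1])],[],false,1,0,[3]),
    (true,[([(0,51,[(24,29)])],[7,4]),([(0,1,[(4,6)]),(0,11,[(2,3)])],[3,3,2,1])],[],false,1,0,[2]),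
    (true,[([(0,51,[(24,29)])],[7,4]),([(0,1,[(4,6)]),(1,0,[(2,3),(2,2)])],[3,2,1])],[],false,1,0,[])])]

theorem cj10c_0_ok : runAllJ S43 R43 F43 28 cj10c_0 = true := by decide +kernel

noncomputable def cj10c_1 : List (List ℕ × List NdJ) := [
  ([11,10,9,8,6,5,4,3,2,1], [
    (false,[],[11,10,9,8,6,5,4,3,2,1],false,9,3,[12,17,23,29]),
    (true,[([(0,2,[(10,12)])],[4])],[10,9,8,7,5,4],false,6,4,[10,12]),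
    (true,[([(0,2,[(10,12)]),(0,0,[(7,10)])],[])],[10,8,7,5,4,3],false,6,3,[10]),
    (true,[([(0,2,[(10,12)]),(0,0,[(7,10)])],[]),([(0,0,[(7,10)])],[4,4,1])],[10,8],false,2,7,[4,6,8]),
    (true,[([(0,2,[(10,12)]),(0,0,[(7,10)])],[4]),([(0,0,[(7,10)]),(1,1,[(3,4)])],[])],[9,4],true,2,5,[3,4]),
    (true,[([(0,3,[(10,12),(3,3)]),(0,0,[(7,10)])],[]),([(0,0,[(7,10)]),(1,1,[(3,4)])],[])],[10,4],false,2,3,[3]),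
    (true,[([(0,3,[(10,12),(3,3)]),(0,0,[(7,10)])],[]),([(0,0,[(7,10)]),(1,1,[(3,4),(3,3)])],[])],[10,4],false,2,1,[]),
    (true,[([(0,2,[(10,12)]),(0,0,[(7,10)])],[]),([(0,0,[(7,10)]),(0,7,[(3,4),(4,4)])],[4,2])],[8,5],false,2,2,[3]),
    (false,[([(0,22,[(10,12),(4,4),(3,3)]),(0,0,[(7,10)])],[]),([(0,0,[(7,10)]),(1,1,[(3,4)])],[4,4,2])],[],false,1,0,[]),
    (true,[([(0,2,[(10,12)]),(0,0,[(7,10)])],[]),([(0,0,[(7,10)]),(0,1,[(5,6)])],[4,4,1])],[8,4],false,2,3,[4]),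
    (true,[([(0,2,[(10,12)]),(0,0,[(7,10)])],[]),([(0,0,[(7,10)]),(0,0,[(5,6),(3,4)])],[4,1])],[8,4],false,2,1,[]),
    (true,[([(0,2,[(10,12)]),(0,0,[(7,10)])],[]),([(0,0,[(7,10)]),(0,7,[(7,8)])],[4,2])],[8,5],false,2,1,[]),
    (true,[([(0,2,[(10,12)]),(0,36,[(11,12)])],[])],[10,8,6,5,4,2],false,6,2,[10]),
    (false,[([(0,20,[(10,12),(11,12)]),(0,0,[(7,10)])],[3])],[10,6,4,2],false,4,2,[]),
    (true,[([(0,31,[(13,17)])],[5])],[10,9,8,6,4],false,5,4,[6,8,10,15,17]),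
    (true,[([(0,25,[(13,17),(6,6)])],[6])],[10,9,7,4],false,4,4,[6]),
    (false,[([(0,25,[(13,17),(6,6)]),(0,1,[(5,6)])],[6])],[10,9,5],false,3,5,[4,6]),
    (false,[([(0,4,[(13,17),(4,4)]),(0,2,[(6,6),(5,6)])],[])],[10,9,5,2],false,4,2,[]),
    (true,[([(0,31,[(13,17)]),(0,1,[(6,6)])],[5]),([(0,1,[(5,6)]),(0,1,[(5,6)])],[3,3])],[9,4],false,2,3,[4]),
    (true,[([(0,25,[(13,17),(6,6)])],[6,2]),([(0,0,[(5,6),(3,4)]),(0,1,[(5,6)])],[4,4,4])],[],false,1,0,[2]),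
    (true,[([(0,25,[(13,17),(6,6)])],[6,5,3]),([(0,0,[(5,6),(3,4)]),(0,7,[(5,6),(2,2)])],[4])],[],false,1,0,[]),
    (false,[([(0,31,[(13,17)]),(0,5,[(7,8)])],[5])],[11,9,5,4],false,4,4,[7,8]),
    (false,[([(0,31,[(13,17)]),(0,3,[(7,8),(5,7)])],[])],[10,9,5,3],false,4,3,[6,7]),
    (false,[([(0,31,[(13,17)]),(0,3,[(7,8),(5,7)])],[]),([(0,1,[(5,6)])],[3,3,2,1,1,1])],[10],false,1,0,[3]),
    (false,[([(0,31,[(13,17)]),(0,3,[(7,8),(5,7)])],[]),([(0,1,[(5,6)]),(0,11,[(2,3)])],[3,3,1,1])],[10],false,1,0,[2]),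
    (false,[([(0,31,[(13,17)]),(0,3,[(7,8),(5,7)])],[]),([(0,1,[(5,6)]),(1,0,[(2,3),(2,2)])],[3,1,1])],[10],false,1,0,[]),
    (false,[([(0,31,[(13,17)]),(0,3,[(7,8),(5,7)])],[]),([(0,5,[(7,7)])],[3,2,1,1,1,1])],[10],false,1,0,[]),
    (true,[([(0,31,[(13,17)]),(0,5,[(7,8)])],[5]),([(0,5,[(8,8)])],[3,3,1,1])],[9,4],false,2,3,[4]),
    (true,[([(0,29,[(13,17),(8,8)])],[5,3]),([(0,7,[(7,8)]),(1,1,[(3,4)])],[4,4])],[],false,1,0,[2]),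
    (true,[([(0,29,[(13,17),(8,8)])],[5,1]),([(0,0,[(7,8),(2,2)]),(1,1,[(3,4)])],[4,4])],[],false,1,0,[]),
    (false,[([(0,31,[(13,17)]),(0,10,[(9,10)])],[])],[10,9,8,5],false,4,5,[5,8,9]),
    (false,[([(0,31,[(13,17)]),(0,3,[(9,10),(5,5)])],[])],[10,9,5,3],false,4,3,[5]),
    (false,[([(0,31,[(13,17)]),(0,3,[(9,10),(5,5)])],[]),([(0,9,[(5,5)])],[3,3,2,2,1,1])],[10],false,1,0,[]),
    (false,[([(0,31,[(13,17)])],[5,4,4,3,3]),([(0,0,[(9,10)]),(0,7,[(6,8)])],[4,1])],[],false,1,0,[3,4]),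
    (true,[([(0,31,[(13,17)]),(0,11,[(2,3)])],[5]),([(0,0,[(9,10)]),(0,7,[(6,8)])],[4,4])],[8],false,1,0,[2,3]),
    (true,[([(0,31,[(13,17)])],[6,5,5,3]),([(0,3,[(9,10),(2,3),(2,2)]),(0,7,[(6,8)])],[])],[],false,1,0,[2]),
    (false,[([(0,31,[(13,17)]),(0,3,[(9,10),(2,3),(2,2)])],[]),([(0,0,[(6,8),(2,2)])],[4,4,3,2,2,2])],[],false,1,0,[]),
    (true,[([(0,31,[(13,17)]),(0,11,[(2,3)])],[5]),([(0,12,[(9,10),(3,3)]),(0,7,[(6,8)])],[4,1])],[8],false,1,0,[]),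
    (false,[([(0,4,[(13,17),(4,4)]),(0,0,[(9,10)])],[]),([(0,7,[(6,8)])],[4,4,3,3,2,2,2])],[],false,1,0,[]),
    (false,[([(0,52,[(13,17),(9,10),(9,9)])],[2])],[11,10],false,1,0,[]),
    (false,[([(0,31,[(13,17)]),(0,3,[(11,15)])],[])],[10,9,5,3],false,4,3,[6,7]),
    (false,[([(0,31,[(13,17)]),(0,3,[(11,15)])],[]),([(0,1,[(5,6)])],[3,3,2,1,1,1])],[10],false,1,0,[3]),
    (false,[([(0,31,[(13,17)]),(0,3,[(11,15)])],[]),([(0,1,[(5,6)]),(0,11,[(2,3)])],[3,3,1,1])],[10],false,1,0,[2]),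
    (false,[([(0,31,[(13,17)]),(0,3,[(11,15)])],[]),([(0,1,[(5,6)]),(1,0,[(2,3),(2,2)])],[3,1,1])],[10],false,1,0,[]),
    (false,[([(0,31,[(13,17)]),(0,3,[(11,15)])],[]),([(0,5,[(7,7)])],[3,2,1,1,1,1])],[10],false,1,0,[]),
    (false,[([(0,53,[(13,17),(16,17)])],[5,3])],[11,6],false,2,1,[]),
    (true,[([(0,25,[(18,23)])],[6])],[10,9,7,4],false,4,4,[6,10,12]),
    (false,[([(0,25,[(18,23)]),(0,1,[(5,6)])],[6])],[10,9,5],false,3,5,[4,6]),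
    (true,[([(0,25,[(18,23)])],[6]),([(0,0,[(5,6),(4,4)])],[4,4,4,3,3,2])],[],false,1,0,[4]),
    (true,[([(0,25,[(18,23)])],[6,2]),([(0,0,[(5,6),(4,4)]),(1,1,[(2,4)])],[4,4])],[],false,1,0,[2,3,4]),
    (true,[([(0,25,[(18,23)])],[6,2]),([(0,0,[(5,6),(4,4)]),(1,1,[(2,4),(2,2)])],[4,4])],[],false,1,0,[2]),
    (true,[([(0,25,[(18,23)])],[6,2]),([(0,0,[(5,6),(4,4)]),(1,1,[(2,4),(2,2),(2,2)])],[4,4])],[],false,1,0,[2]),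
    (true,[([(0,25,[(18,23)])],[6,2]),([(0,0,[(5,6),(4,4)]),(1,1,[(2,4),(2,2),(2,2),(2,2)])],[4,4])],[],false,1,0,[]),
    (true,[([(0,25,[(18,23)])],[6,2]),([(0,0,[(5,6),(4,4)]),(1,1,[(2,4),(3,3)])],[4,4])],[],false,1,0,[2]),
    (true,[([(0,25,[(18,23)])],[6,2]),([(0,0,[(5,6),(4,4)]),(1,1,[(2,4),(3,3),(2,2)])],[4,4])],[],false,1,0,[]),
    (true,[([(0,25,[(18,23)])],[6,6]),([(0,0,[(5,6),(4,4)]),(1,1,[(2,4)]),(0,19,[(4,4)])],[])],[],false,1,0,[]),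
    (false,[([(0,25,[(18,23)]),(0,1,[(5,6)])],[6]),([(0,1,[(5,6)])],[3,3,3,3,2,2,2])],[],false,1,0,[2,4]),
    (true,[([(0,25,[(18,23)])],[6,5,3]),([(0,7,[(5,6),(2,2)]),(0,1,[(5,6)])],[4,4])],[],false,1,0,[2]),
    (true,[([(0,25,[(18,23)])],[6,2]),([(0,0,[(5,6),(2,2),(2,2)]),(0,1,[(5,6)])],[4,4,4])],[],false,1,0,[2]),
    (true,[([(0,25,[(18,23)])],[6,5,3]),([(0,0,[(5,6),(2,2),(2,2)]),(0,7,[(5,6),(2,2)])],[4])],[],false,1,0,[]),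
    (true,[([(0,25,[(18,23)])],[6,2]),([(0,0,[(5,6),(3,4)]),(0,1,[(5,6)])],[4,4,4])],[],false,1,0,[2]),
    (true,[([(0,25,[(18,23)])],[6,5,3]),([(0,0,[(5,6),(3,4)]),(0,7,[(5,6),(2,2)])],[4])],[],false,1,0,[]),
    (true,[([(0,25,[(18,23)])],[6]),([(0,0,[(7,10)])],[4,4,4,3,3,2])],[],false,1,0,[2,4,6]),
    (true,[([(0,25,[(18,23)]),(0,11,[(2,2)])],[6]),([(0,0,[(7,10)])],[4,4,4,3,2])],[],false,1,0,[2]),
    (true,[([(0,25,[(18,23)])],[6,2]),([(0,0,[(7,10)]),(1,0,[(2,2),(2,2)])],[4,4,4])],[],false,1,0,[2]),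
    (true,[([(0,25,[(18,23)])],[6,2]),([(0,0,[(7,10)]),(1,0,[(2,2),(2,2),(2,2)])],[4,4,4])],[],false,1,0,[2]),
    (true,[([(0,25,[(18,23)])],[6,2]),([(0,0,[(7,10)]),(1,1,[(2,2),(2,2),(2,2),(2,2)])],[4,4])],[],false,1,0,[2]),
    (true,[([(0,25,[(18,23)])],[6,2]),([(0,0,[(7,10)]),(1,1,[(2,2),(2,2),(2,2),(2,2),(2,2)])],[4,4])],[],false,1,0,[]),
    (true,[([(0,25,[(18,23)])],[6,2]),([(0,0,[(7,10)]),(1,1,[(3,4)])],[4,4])],[],false,1,0,[2,3,4]),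
    (true,[([(0,25,[(18,23)])],[6,2]),([(0,0,[(7,10)]),(0,1,[(3,4),(2,2)])],[4,4,4])],[],false,1,0,[2]),
    (true,[([(0,25,[(18,23)])],[6,2]),([(0,0,[(7,10)]),(1,1,[(3,4),(2,2),(2,2)])],[4,4])],[],false,1,0,[2]),
    (true,[([(0,25,[(18,23)])],[6,2]),([(0,0,[(7,10)]),(1,1,[(3,4),(2,2),(2,2),(2,2)])],[4,4])],[],false,1,0,[]),
    (true,[([(0,25,[(18,23)])],[6,2]),([(0,0,[(7,10)]),(1,1,[(3,4),(3,3)])],[4,4])],[],false,1,0,[2]),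
    (true,[([(0,25,[(18,23)])],[6,2]),([(0,0,[(7,10)]),(1,1,[(3,4),(3,3),(2,2)])],[4,4])],[],false,1,0,[]),
    (true,[([(0,25,[(18,23)])],[6,5,3]),([(0,0,[(7,10)]),(0,7,[(3,4),(4,4)])],[4])],[],false,1,0,[]),
    (true,[([(0,25,[(18,23)])],[6,2]),([(0,0,[(7,10)]),(0,1,[(5,6)])],[4,4,4])],[],false,1,0,[2]),
    (true,[([(0,25,[(18,23)])],[6,5,3]),([(0,0,[(7,10)]),(0,7,[(5,6),(2,2)])],[4])],[],false,1,0,[]),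
    (true,[([(0,25,[(18,23)])],[6]),([(0,36,[(11,12)])],[4,4,3,3,3,1])],[],false,1,0,[2]),
    (true,[([(0,25,[(18,23)]),(0,11,[(2,2)])],[6]),([(0,36,[(11,12)])],[4,4,3,3,1])],[],false,1,0,[]),
    (true,[([(0,32,[(24,29)])],[6,5])],[8,7,4],false,3,4,[6]),
    (true,[([(0,32,[(24,29)])],[6,5]),([(0,1,[(4,6)])],[3,3,3,2,2])],[],false,1,0,[3]),
    (true,[([(0,51,[(24,29)])],[7]),([(0,1,[(4,6)]),(0,11,[(2,3)])],[3,3,3,3,2])],[],false,1,0,[2]),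
    (true,[([(0,51,[(24,29)])],[7]),([(0,1,[(4,6)]),(1,0,[(2,3),(2,2)])],[3,3,3,2])],[],false,1,0,[])]),
  ([11,10,9,8,7,5,4,3,2,1], [
    (false,[],[11,10,9,8,7,5,4,3,2,1],false,9,3,[12,17,23,29]),
    (true,[([(0,2,[(10,12)])],[4,2])],[10,9,8,6,5,4],false,6,4,[10,12]),
    (true,[([(0,2,[(10,12)]),(0,0,[(7,10)])],[3])],[9,8,6,5,4,3],false,6,3,[10]),
    (true,[([(0,2,[(10,12)]),(0,0,[(7,10)])],[3]),([(0,0,[(7,10)])],[4,4])],[9,8],false,2,7,[4,6,8]),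
    (true,[([(0,2,[(10,12)]),(0,0,[(7,10)])],[]),([(0,0,[(7,10)]),(1,1,[(3,4)])],[4,1])],[8,5],false,2,5,[3,4]),
    (true,[([(0,3,[(10,12),(3,3)]),(0,0,[(7,10)])],[]),([(0,0,[(7,10)]),(1,1,[(3,4)])],[])],[10,5],false,2,3,[3]),
    (true,[([(0,3,[(10,12),(3,3)]),(0,0,[(7,10)])],[]),([(0,0,[(7,10)]),(1,1,[(3,4),(3,3)])],[])],[10,5],false,2,1,[]),
    (true,[([(0,2,[(10,12)]),(0,0,[(7,10)])],[]),([(0,0,[(7,10)]),(0,7,[(3,4),(4,4)])],[4,3])],[8,5],false,2,2,[3]),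
    (false,[([(0,22,[(10,12),(4,4),(3,3)]),(0,0,[(7,10)])],[]),([(0,0,[(7,10)]),(1,1,[(3,4)])],[4,4,3])],[],false,1,0,[]),
    (true,[([(0,2,[(10,12)]),(0,0,[(7,10)])],[]),([(0,0,[(7,10)]),(0,1,[(5,6)])],[4,4,1])],[8,5],false,2,3,[4]),
    (true,[([(0,2,[(10,12)]),(0,0,[(7,10)])],[]),([(0,0,[(7,10)]),(0,0,[(5,6),(3,4)])],[4,1])],[8,5],false,2,1,[]),
    (true,[([(0,2,[(10,12)]),(0,0,[(7,10)])],[]),([(0,0,[(7,10)]),(0,7,[(7,8)])],[4,3])],[8,5],false,2,1,[]),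
    (true,[([(0,2,[(10,12)]),(0,36,[(11,12)])],[3])],[9,7,6,5,4,2],false,6,2,[10]),
    (false,[([(0,20,[(10,12),(11,12)]),(0,0,[(7,10)])],[])],[11,9,4,2],false,4,2,[]),
    (true,[([(0,31,[(13,17)])],[5])],[10,9,8,6,5],false,5,5,[6,8,10,14,17]),
    (true,[([(0,31,[(13,17)]),(0,1,[(6,6)])],[5])],[9,8,6,5,4],false,5,4,[6]),
    (false,[([(0,31,[(13,17)]),(0,2,[(6,6),(6,6)])],[])],[10,9,8,4],false,4,4,[6]),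
    (true,[([(0,31,[(13,17)]),(0,1,[(6,6)])],[5]),([(0,1,[(6,6)]),(0,1,[(5,6)])],[3,3])],[9,5],false,2,2,[3]),
    (true,[([(0,25,[(13,17),(6,6)])],[6,5]),([(0,0,[(6,6),(3,3)]),(0,1,[(5,6)])],[4,4,2])],[],false,1,0,[]),
    (false,[([(0,31,[(13,17)]),(0,7,[(7,8)])],[5])],[10,9,8,3],false,4,3,[6,8]),
    (false,[([(0,31,[(13,17)]),(0,17,[(7,8),(5,6)])],[])],[10,9,7,3],false,4,3,[6]),
    (true,[([(0,31,[(13,17)]),(0,5,[(7,8)])],[5]),([(0,1,[(5,6)]),(0,1,[(5,6)])],[3,3,3])],[5,4],false,2,2,[3]),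
    (false,[([(0,31,[(13,17)]),(0,17,[(7,8),(5,6)])],[]),([(0,0,[(5,6),(3,3)])],[4,4,3,3,3,2])],[],false,1,0,[]),
    (true,[([(0,31,[(13,17)]),(0,5,[(7,8)])],[5]),([(0,5,[(7,8)])],[3,3])],[9,7],false,2,4,[3,5]),
    (true,[([(0,31,[(13,17)]),(0,5,[(7,8)])],[5]),([(0,5,[(7,8)]),(0,11,[(3,3)])],[3,3,3,1])],[5,4],false,2,2,[3]),
    (false,[([(0,31,[(13,17)]),(0,17,[(7,8),(3,3),(3,3)])],[]),([(0,5,[(7,8)])],[3,2,2,2,1,1])],[10],false,1,0,[]),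
    (true,[([(0,31,[(13,17)]),(0,5,[(7,8)])],[5]),([(0,5,[(7,8)]),(0,9,[(4,5)])],[3])],[9,5],false,2,1,[]),
    (false,[([(0,31,[(13,17)]),(0,18,[(9,10)])],[5])],[10,9,5,3],false,4,3,[5,8,9]),
    (true,[([(0,31,[(13,17)])],[5]),([(0,3,[(9,10),(5,5)])],[5,5,5,5,3])],[],false,1,0,[4,5]),
    (true,[([(0,31,[(13,17)])],[6,5,5]),([(0,3,[(9,10),(5,5)]),(1,1,[(2,4)])],[2])],[],false,1,0,[2,4]),
    (false,[([(0,31,[(13,17)]),(0,8,[(9,10),(5,5),(2,2)])],[]),([(1,1,[(2,4)])],[4,4,2,2,2,2])],[],false,1,0,[2]),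
    (false,[([(0,31,[(13,17)]),(0,8,[(9,10),(5,5),(2,2)])],[]),([(1,1,[(2,4),(2,2)])],[4,4,2,2,2,2])],[],false,1,0,[2]),
    (false,[([(0,31,[(13,17)]),(0,8,[(9,10),(5,5),(2,2)])],[]),([(1,1,[(2,4),(2,2),(2,2)])],[4,4,2,2,2,2])],[],false,1,0,[]),
    (true,[([(0,31,[(13,17)])],[5,5,4]),([(0,17,[(9,10),(3,4)]),(1,2,[(5,5),(2,4)])],[])],[],false,1,0,[2]),
    (true,[([(0,31,[(13,17)])],[5,5,1]),([(0,8,[(9,10),(5,5),(2,2)]),(1,2,[(2,4),(3,4)])],[])],[],false,1,0,[]),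
    (true,[([(0,31,[(13,17)]),(0,9,[(5,5)])],[5]),([(0,3,[(9,10),(5,5)])],[5,5,5,3])],[],false,1,0,[]),
    (false,[([(0,31,[(13,17)]),(0,7,[(6,8)])],[5]),([(0,0,[(9,10)])],[4,4,3,3,3,3])],[],false,1,0,[3,4]),
    (true,[([(0,31,[(13,17)]),(0,11,[(2,3)])],[5,4]),([(0,18,[(9,10)]),(0,7,[(6,8)])],[4])],[8],false,1,0,[2,3]),
    (false,[([(0,31,[(13,17)])],[5,5,4,3,3]),([(0,0,[(9,10)]),(0,0,[(6,8),(2,2)]),(0,11,[(2,3)])],[])],[],false,1,0,[2]),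
    (true,[([(0,31,[(13,17)])],[6,5,5]),([(0,3,[(9,10),(2,3),(2,2)]),(0,0,[(6,8),(2,2)])],[2])],[],false,1,0,[]),
    (false,[([(0,31,[(13,17)])],[5,4,4,3,3]),([(0,12,[(9,10),(3,3)]),(0,7,[(6,8)]),(0,11,[(2,3)])],[])],[],false,1,0,[]),
    (true,[([(0,4,[(13,17),(4,4)])],[6,6,6]),([(0,10,[(9,10)]),(0,7,[(6,8)])],[3])],[],false,1,0,[]),
    (false,[([(0,52,[(13,17),(9,10),(9,9)])],[3])],[11,10],false,1,0,[]),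
    (false,[([(0,31,[(13,17)]),(0,17,[(11,14)])],[])],[10,9,7,3],false,4,3,[6,7]),
    (false,[([(0,31,[(13,17)]),(0,17,[(11,14)])],[]),([(0,1,[(5,6)])],[3,3,2,2,2,1])],[10],false,1,0,[3]),
    (false,[([(0,31,[(13,17)]),(0,17,[(11,14)])],[]),([(0,1,[(5,6)]),(0,11,[(2,3)])],[3,3,2,2])],[10],false,1,0,[2]),
    (false,[([(0,31,[(13,17)]),(0,17,[(11,14)])],[]),([(0,1,[(5,6)]),(1,0,[(2,3),(2,2)])],[3,2,2])],[10],false,1,0,[]),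
    (false,[([(0,31,[(13,17)]),(0,17,[(11,14)])],[]),([(0,5,[(7,7)])],[3,2,2,2,1,1])],[10],false,1,0,[]),
    (false,[([(0,31,[(13,17)]),(0,8,[(15,17)])],[])],[10,9,4,3],false,3,2,[]),
    (true,[([(0,25,[(18,23)])],[6])],[10,9,7,5],false,4,5,[5,8,11,12]),
    (true,[([(0,23,[(18,23),(5,5)])],[])],[10,9,8,5],false,4,5,[5]),
    (false,[([(0,23,[(18,23),(5,5)]),(0,9,[(5,5)])],[3])],[10,9,5],false,3,3,[4]),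
    (false,[([(0,23,[(18,23),(5,5)]),(0,0,[(5,5),(4,4)])],[])],[10,8,4],false,1,0,[]),
    (true,[([(0,25,[(18,23)])],[6,1]),([(0,7,[(6,8)])],[4,4,4,4,3,3])],[],false,1,0,[2,3,4,6,7]),
    (true,[([(0,25,[(18,23)])],[6]),([(0,0,[(6,8),(2,2)])],[4,4,4,4,3,2])],[],false,1,0,[2]),
    (true,[([(0,25,[(18,23)]),(0,11,[(2,2)])],[6]),([(0,0,[(6,8),(2,2)])],[4,4,4,4,2])],[],false,1,0,[2]),
    (true,[([(0,25,[(18,23)])],[6,5]),([(0,0,[(6,8),(2,2)]),(1,0,[(2,2),(2,2)])],[4,4,2])],[],false,1,0,[2]),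
    (true,[([(0,25,[(18,23)])],[6,5]),([(0,0,[(6,8),(2,2)]),(1,0,[(2,2),(2,2),(2,2)])],[4,4,2])],[],false,1,0,[2]),
    (true,[([(0,25,[(18,23)])],[6,5]),([(0,0,[(6,8),(2,2)]),(1,1,[(2,2),(2,2),(2,2),(2,2)])],[4,2])],[],false,1,0,[2]),
    (true,[([(0,25,[(18,23)])],[6,5]),([(0,0,[(6,8),(2,2)]),(1,1,[(2,2),(2,2),(2,2),(2,2),(2,2)])],[4,2])],[],false,1,0,[]),
    (true,[([(0,25,[(18,23)])],[6,6,6]),([(0,7,[(6,8)]),(0,11,[(3,3)])],[4,3,1])],[],false,1,0,[3]),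
    (true,[([(0,25,[(18,23)])],[6,6,6]),([(0,7,[(6,8)]),(0,1,[(3,3),(2,3)])],[4,1])],[],false,1,0,[2,3]),
    (true,[([(0,25,[(18,23)])],[6,5]),([(0,0,[(6,8),(2,2)]),(0,1,[(3,3),(2,3)])],[4,4,2])],[],false,1,0,[2]),
    (true,[([(0,25,[(18,23)])],[6,5]),([(0,0,[(6,8),(2,2)]),(1,1,[(3,3),(2,3),(2,2)])],[4,2])],[],false,1,0,[2]),
    (true,[([(0,25,[(18,23)])],[6,5]),([(0,0,[(6,8),(2,2)]),(1,1,[(3,3),(2,3),(2,2),(2,2)])],[4,2])],[],false,1,0,[]),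
    (true,[([(0,25,[(18,23)])],[6,6,6]),([(0,7,[(6,8)]),(1,1,[(3,3),(2,3),(3,3)])],[1])],[],false,1,0,[2]),
    (true,[([(0,25,[(18,23)])],[6,5]),([(0,0,[(6,8),(2,2)]),(1,1,[(3,3),(2,3),(3,3)])],[4,2])],[],false,1,0,[]),
    (true,[([(0,25,[(18,23)]),(0,19,[(4,4)])],[6]),([(0,7,[(6,8)])],[4,4,4,4,3])],[],false,1,0,[3,4]),
    (true,[([(0,25,[(18,23)])],[6,6,6]),([(0,7,[(6,8)]),(1,1,[(4,4),(2,3)])],[1])],[],false,1,0,[2,3]),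
    (true,[([(0,25,[(18,23)])],[6,5]),([(0,0,[(6,8),(2,2)]),(1,1,[(4,4),(2,3)])],[4,2])],[],false,1,0,[2]),
    (true,[([(0,25,[(18,23)])],[6,5]),([(0,0,[(6,8),(2,2)]),(1,1,[(4,4),(2,3),(2,2)])],[4,2])],[],false,1,0,[]),
    (true,[([(0,25,[(18,23)])],[6,6,6]),([(0,7,[(6,8)]),(0,0,[(4,4),(2,3),(3,3)])],[1])],[],false,1,0,[]),
    (true,[([(0,25,[(18,23)])],[6,6,6]),([(0,7,[(6,8)]),(0,7,[(4,4),(4,4)])],[3])],[],false,1,0,[]),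
    (true,[([(0,25,[(18,23)])],[6,6,6]),([(0,7,[(6,8)]),(0,1,[(5,6)])],[4,1])],[],false,1,0,[2,3]),
    (true,[([(0,25,[(18,23)])],[6,5]),([(0,0,[(6,8),(2,2)]),(0,1,[(5,6)])],[4,4,2])],[],false,1,0,[2]),
    (true,[([(0,25,[(18,23)])],[6,6,6]),([(0,0,[(6,8),(2,2)]),(0,7,[(5,6),(2,2)])],[1])],[],false,1,0,[]),
    (true,[([(0,25,[(18,23)])],[6,6,6]),([(0,7,[(6,8)]),(0,0,[(5,6),(3,3)])],[1])],[],false,1,0,[]),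
    (true,[([(0,25,[(18,23)])],[6,6,6]),([(0,7,[(6,8)]),(0,7,[(7,7)])],[3])],[],false,1,0,[]),
    (true,[([(0,25,[(18,23)])],[6]),([(0,18,[(9,11)])],[4,4,4,4,2,2])],[],false,1,0,[4]),
    (true,[([(0,25,[(18,23)])],[6,6]),([(0,18,[(9,11)]),(1,1,[(2,4)])],[2,2])],[],false,1,0,[3]),
    (true,[([(0,25,[(18,23)])],[6,6]),([(0,18,[(9,11)]),(1,1,[(2,4),(2,3)])],[2,2])],[],false,1,0,[2]),
    (true,[([(0,25,[(18,23)])],[6,6]),([(0,18,[(9,11)]),(1,1,[(2,4),(2,3),(2,2)])],[2,2])],[],false,1,0,[]),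
    (false,[([(0,52,[(18,23),(12,12)])],[3])],[11,10],false,1,0,[]),
    (true,[([(0,32,[(24,29)])],[6,5])],[8,7,5],false,3,5,[6]),
    (true,[([(0,32,[(24,29)])],[6,5]),([(0,1,[(4,6)])],[3,3,3,3,2])],[],false,1,0,[3]),
    (true,[([(0,51,[(24,29)])],[7,5]),([(0,1,[(4,6)]),(0,11,[(2,3)])],[3,3,3,1])],[],false,1,0,[2]),
    (true,[([(0,51,[(24,29)])],[7,5]),([(0,1,[(4,6)]),(1,0,[(2,3),(2,2)])],[3,3,1])],[],false,1,0,[])]),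
  ([11,10,9,8,7,6,4,3,2,1], [
    (false,[],[11,10,9,8,7,6,4,3,2,1],false,9,3,[12,17,23,29]),
    (true,[([(0,2,[(10,12)])],[4])],[10,9,8,7,6,5],false,6,5,[10,12]),
    (true,[([(0,2,[(10,12)]),(0,0,[(7,10)])],[])],[10,8,7,6,5,3],false,6,3,[10]),
    (true,[([(0,2,[(10,12)]),(0,0,[(7,10)])],[]),([(0,0,[(7,10)])],[4,4,3])],[10,8],false,2,7,[4,6,8]),
    (true,[([(0,2,[(10,12)]),(0,0,[(7,10)])],[]),([(0,0,[(7,10)]),(1,1,[(3,4)])],[4,1])],[8,6],false,2,5,[3,4]),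
    (true,[([(0,3,[(10,12),(3,3)]),(0,0,[(7,10)])],[]),([(0,0,[(7,10)]),(1,1,[(3,4)])],[])],[10,6],false,2,3,[3]),
    (true,[([(0,3,[(10,12),(3,3)]),(0,0,[(7,10)])],[]),([(0,0,[(7,10)]),(1,1,[(3,4),(3,3)])],[])],[10,6],false,2,1,[]),
    (true,[([(0,2,[(10,12)]),(0,0,[(7,10)])],[]),([(0,0,[(7,10)]),(0,7,[(3,4),(4,4)])],[4,3])],[8,6],false,2,2,[3]),
    (false,[([(0,3,[(10,12),(3,3)]),(0,0,[(7,10)])],[3]),([(0,0,[(7,10)]),(0,7,[(3,4),(4,4)])],[3,2,1])],[9],false,1,0,[]),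
    (true,[([(0,2,[(10,12)]),(0,0,[(7,10)])],[]),([(0,0,[(7,10)]),(0,1,[(5,6)])],[4,4,1])],[8,6],false,2,3,[4]),
    (true,[([(0,2,[(10,12)]),(0,0,[(7,10)])],[]),([(0,0,[(7,10)]),(0,0,[(5,6),(3,4)])],[4,1])],[8,6],false,2,1,[]),
    (true,[([(0,2,[(10,12)]),(0,0,[(7,10)])],[]),([(0,0,[(7,10)]),(0,7,[(7,8)])],[4,3])],[8,6],false,2,1,[]),
    (true,[([(0,2,[(10,12)]),(0,12,[(11,12)])],[3])],[9,7,6,5,4,2],false,6,2,[10]),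
    (false,[([(0,20,[(10,12),(11,12)]),(0,0,[(7,10)])],[4])],[10,7,4,2],false,4,2,[]),
    (true,[([(0,31,[(13,17)])],[5,2])],[10,9,7,6,5],false,5,5,[6,8,10,15,17]),
    (true,[([(0,25,[(13,17),(6,6)])],[6])],[10,9,7,6],false,4,6,[6]),
    (false,[([(0,25,[(13,17),(6,6)]),(0,1,[(5,6)])],[6])],[10,9,7],false,3,7,[4,6]),
    (false,[([(0,4,[(13,17),(4,4)]),(0,2,[(6,6),(5,6)])],[])],[10,9,7,2],false,4,2,[]),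
    (true,[([(0,31,[(13,17)]),(0,1,[(6,6)])],[5]),([(0,1,[(5,6)]),(0,1,[(5,6)])],[3,3])],[9,6],false,2,3,[4]),
    (true,[([(0,25,[(13,17),(6,6)])],[6,4]),([(0,0,[(5,6),(3,4)]),(0,1,[(5,6)])],[4,4,4])],[],false,1,0,[2]),
    (true,[([(0,25,[(13,17),(6,6)])],[6,5,5]),([(0,0,[(5,6),(3,4)]),(0,7,[(5,6),(2,2)])],[4])],[],false,1,0,[]),
    (true,[([(0,31,[(13,17)]),(0,5,[(7,8)])],[5])],[9,7,6,5,4],false,5,4,[7,8]),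
    (false,[([(0,31,[(13,17)]),(0,3,[(7,8),(6,7)])],[])],[10,9,7,3],false,4,3,[6]),
    (false,[([(0,31,[(13,17)]),(0,3,[(7,8),(6,7)])],[]),([(0,1,[(5,6)])],[3,3,2,2,2,1])],[10],false,1,0,[2]),
    (true,[([(0,31,[(13,17)])],[6,5,5,5]),([(0,3,[(7,8),(6,7)]),(0,7,[(5,6),(2,2)])],[])],[],false,1,0,[]),
    (false,[([(0,29,[(13,17),(8,8)]),(0,5,[(7,8)])],[5])],[9,8,6],false,3,3,[4]),
    (true,[([(0,54,[(13,17),(8,8)])],[7,6]),([(0,5,[(7,8)]),(0,1,[(4,4)])],[3,3,3])],[],false,1,0,[]),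
    (false,[([(0,31,[(13,17)]),(0,10,[(9,10)])],[])],[10,9,8,7],false,4,7,[5,8,9]),
    (false,[([(0,31,[(13,17)]),(0,3,[(9,10),(5,5)])],[])],[10,9,7,3],false,4,3,[5]),
    (false,[([(0,31,[(13,17)]),(0,3,[(9,10),(5,5)])],[]),([(0,9,[(5,5)])],[3,3,2,2,2,2])],[10],false,1,0,[]),
    (false,[([(0,31,[(13,17)])],[5,4,4,4,3]),([(0,0,[(9,10)]),(0,7,[(6,8)])],[4,2])],[],false,1,0,[3,4]),
    (false,[([(0,31,[(13,17)])],[5,5,5,4,4]),([(0,0,[(9,10)]),(0,7,[(6,8)]),(0,11,[(2,3)])],[])],[],false,1,0,[2,3]),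
    (true,[([(0,31,[(13,17)])],[6,5,5,5]),([(0,3,[(9,10),(2,3),(2,2)]),(0,7,[(6,8)])],[])],[],false,1,0,[2]),
    (false,[([(0,31,[(13,17)]),(0,3,[(9,10),(2,3),(2,2)])],[]),([(0,0,[(6,8),(2,2)])],[4,4,3,3,3,2])],[],false,1,0,[]),
    (true,[([(0,31,[(13,17)]),(0,11,[(2,3)])],[5]),([(0,12,[(9,10),(3,3)]),(0,7,[(6,8)])],[4,4])],[7],false,1,0,[]),
    (false,[([(0,4,[(13,17),(4,4)]),(0,0,[(9,10)])],[]),([(0,7,[(6,8)])],[4,4,3,3,3,3,2])],[],false,1,0,[]),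
    (false,[([(0,52,[(13,17),(9,10),(9,9)])],[4])],[11,10],false,1,0,[]),
    (false,[([(0,31,[(13,17)]),(0,3,[(11,15)])],[])],[10,9,7,3],false,4,3,[6,7]),
    (false,[([(0,31,[(13,17)]),(0,3,[(11,15)])],[]),([(0,1,[(5,6)])],[3,3,2,2,2,1])],[10],false,1,0,[3]),
    (false,[([(0,31,[(13,17)]),(0,3,[(11,15)])],[]),([(0,1,[(5,6)]),(0,11,[(2,3)])],[3,3,2,2])],[10],false,1,0,[2]),
    (false,[([(0,31,[(13,17)]),(0,3,[(11,15)])],[]),([(0,1,[(5,6)]),(1,0,[(2,3),(2,2)])],[3,2,2])],[10],false,1,0,[]),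
    (false,[([(0,31,[(13,17)]),(0,3,[(11,15)])],[]),([(0,5,[(7,7)])],[3,2,2,2,1,1])],[10],false,1,0,[]),
    (false,[([(0,53,[(13,17),(16,17)])],[5,4])],[11,7],false,2,1,[]),
    (true,[([(0,25,[(18,23)])],[6])],[10,9,7,6],false,4,6,[6,10,12]),
    (false,[([(0,25,[(18,23)]),(0,1,[(5,6)])],[6])],[10,9,7],false,3,7,[4,6]),
    (true,[([(0,25,[(18,23)])],[6]),([(0,0,[(5,6),(4,4)])],[4,4,4,4,4,2])],[],false,1,0,[3,4]),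
    (true,[([(0,25,[(18,23)])],[6,3]),([(0,0,[(5,6),(4,4)]),(0,11,[(2,3)])],[4,4,4,4])],[],false,1,0,[3]),
    (true,[([(0,25,[(18,23)])],[6,4]),([(0,0,[(5,6),(4,4)]),(1,1,[(2,3),(2,3)])],[4,4])],[],false,1,0,[2,3]),
    (true,[([(0,25,[(18,23)])],[6,4]),([(0,0,[(5,6),(4,4)]),(1,1,[(2,3),(2,3),(2,2)])],[4,4])],[],false,1,0,[2]),
    (true,[([(0,25,[(18,23)])],[6,4]),([(0,0,[(5,6),(4,4)]),(1,1,[(2,3),(2,3),(2,2),(2,2)])],[4,4])],[],false,1,0,[]),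
    (true,[([(0,25,[(18,23)])],[6,4]),([(0,0,[(5,6),(4,4)]),(1,1,[(2,3),(2,3),(3,3)])],[4,4])],[],false,1,0,[]),
    (true,[([(0,25,[(18,23)])],[6,6,6]),([(0,0,[(5,6),(4,4)]),(0,19,[(4,4)])],[4,1,1])],[],false,1,0,[2]),
    (true,[([(0,25,[(18,23)])],[6,4]),([(0,0,[(5,6),(4,4)]),(0,1,[(4,4),(2,2)])],[4,4,4])],[],false,1,0,[]),
    (false,[([(0,25,[(18,23)]),(0,1,[(5,6)])],[6]),([(0,1,[(5,6)])],[3,3,3,3,3,3,2])],[],false,1,0,[3,4]),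
    (false,[([(0,25,[(18,23)])],[6,4,4,3]),([(0,1,[(5,6)]),(0,1,[(5,6)]),(0,11,[(2,3)])],[3,3])],[],false,1,0,[2,3]),
    (false,[([(0,25,[(18,23)])],[6,4,4,3]),([(0,1,[(5,6)]),(0,1,[(5,6)]),(1,0,[(2,3),(2,2)])],[3])],[],false,1,0,[2]),
    (true,[([(0,25,[(18,23)])],[7,6,6]),([(0,0,[(5,6),(2,2),(2,2)]),(0,1,[(5,6)]),(0,11,[(2,3)])],[])],[],false,1,0,[]),
    (true,[([(0,25,[(18,23)])],[7,6,6]),([(0,0,[(5,6),(3,3)]),(0,1,[(5,6)]),(0,11,[(2,3)])],[])],[],false,1,0,[]),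
    (true,[([(0,25,[(18,23)])],[6,4]),([(0,0,[(5,6),(4,4)]),(0,1,[(5,6)])],[4,4,4])],[],false,1,0,[]),
    (true,[([(0,25,[(18,23)])],[6]),([(0,0,[(7,10)])],[4,4,4,4,4,2])],[],false,1,0,[2,4,6]),
    (true,[([(0,25,[(18,23)])],[6,3]),([(0,0,[(7,10)]),(0,11,[(2,2)])],[4,4,4,4])],[],false,1,0,[2]),
    (true,[([(0,25,[(18,23)])],[6,4]),([(0,0,[(7,10)]),(1,0,[(2,2),(2,2)])],[4,4,4])],[],false,1,0,[2]),
    (true,[([(0,25,[(18,23)])],[6,4]),([(0,0,[(7,10)]),(1,0,[(2,2),(2,2),(2,2)])],[4,4,4])],[],false,1,0,[2]),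
    (true,[([(0,25,[(18,23)])],[6,4]),([(0,0,[(7,10)]),(1,1,[(2,2),(2,2),(2,2),(2,2)])],[4,4])],[],false,1,0,[2]),
    (true,[([(0,25,[(18,23)])],[6,4]),([(0,0,[(7,10)]),(1,1,[(2,2),(2,2),(2,2),(2,2),(2,2)])],[4,4])],[],false,1,0,[]),
    (true,[([(0,25,[(18,23)])],[6,4]),([(0,0,[(7,10)]),(1,1,[(3,4)])],[4,4])],[],false,1,0,[2,3,4]),
    (true,[([(0,25,[(18,23)])],[6,4]),([(0,0,[(7,10)]),(0,1,[(3,4),(2,2)])],[4,4,4])],[],false,1,0,[2]),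
    (true,[([(0,25,[(18,23)])],[6,4]),([(0,0,[(7,10)]),(1,1,[(3,4),(2,2),(2,2)])],[4,4])],[],false,1,0,[2]),
    (true,[([(0,25,[(18,23)])],[6,4]),([(0,0,[(7,10)]),(1,1,[(3,4),(2,2),(2,2),(2,2)])],[4,4])],[],false,1,0,[]),
    (true,[([(0,25,[(18,23)])],[6,4]),([(0,0,[(7,10)]),(1,1,[(3,4),(3,3)])],[4,4])],[],false,1,0,[2]),
    (true,[([(0,25,[(18,23)])],[6,4]),([(0,0,[(7,10)]),(1,1,[(3,4),(3,3),(2,2)])],[4,4])],[],false,1,0,[]),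
    (true,[([(0,25,[(18,23)])],[6,5,5]),([(0,0,[(7,10)]),(0,7,[(3,4),(4,4)])],[4])],[],false,1,0,[]),
    (true,[([(0,25,[(18,23)])],[6,4]),([(0,0,[(7,10)]),(0,1,[(5,6)])],[4,4,4])],[],false,1,0,[2]),
    (true,[([(0,25,[(18,23)])],[6,5,5]),([(0,0,[(7,10)]),(0,7,[(5,6),(2,2)])],[4])],[],false,1,0,[]),
    (true,[([(0,25,[(18,23)])],[6]),([(0,36,[(11,12)])],[4,4,4,4,3,1])],[],false,1,0,[2]),
    (true,[([(0,25,[(18,23)]),(0,11,[(2,2)])],[6]),([(0,36,[(11,12)])],[4,4,4,4,1])],[],false,1,0,[]),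
    (true,[([(0,32,[(24,29)])],[6,5])],[8,7,6],false,3,5,[6]),
    (true,[([(0,32,[(24,29)])],[6,5]),([(0,1,[(4,6)])],[3,3,3,3,3])],[],false,1,0,[3]),
    (true,[([(0,34,[(24,29)])],[7]),([(0,1,[(4,6)]),(0,11,[(2,3)])],[3,3,3,3,3])],[],false,1,0,[2]),
    (true,[([(0,34,[(24,29)])],[7]),([(0,1,[(4,6)]),(1,0,[(2,3),(2,2)])],[3,3,3,3])],[],false,1,0,[])])]

theorem cj10c_1_ok : runAllJ S43 R43 F43 28 cj10c_1 = true := by decide +kernel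

noncomputable def cj10c_2 : List (List ℕ × List NdJ) := [
  ([11,10,9,8,7,6,5,3,2,1], [
    (false,[],[11,10,9,8,7,6,5,3,2,1],false,9,3,[12,17,23,29]),
    (true,[([(0,2,[(10,12)])],[4,1])],[10,9,8,7,6,5],false,6,5,[10,12]),
    (true,[([(0,2,[(10,12)]),(0,0,[(7,10)])],[2])],[9,8,7,6,5,3],false,6,3,[10]),
    (true,[([(0,2,[(10,12)]),(0,0,[(7,10)])],[]),([(0,0,[(7,10)])],[4,4,3,2])],[10,7],false,2,7,[4,6,8]),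
    (true,[([(0,2,[(10,12)]),(0,0,[(7,10)])],[]),([(0,0,[(7,10)]),(1,1,[(3,4)])],[4,1])],[8,7],false,2,5,[3,4]),
    (true,[([(0,3,[(10,12),(3,3)]),(0,0,[(7,10)])],[]),([(0,0,[(7,10)]),(1,1,[(3,4)])],[])],[10,7],false,2,3,[3]),
    (true,[([(0,3,[(10,12),(3,3)]),(0,0,[(7,10)])],[]),([(0,0,[(7,10)]),(1,1,[(3,4),(3,3)])],[])],[10,7],false,2,1,[]),
    (true,[([(0,2,[(10,12)]),(0,0,[(7,10)])],[]),([(0,0,[(7,10)]),(0,7,[(3,4),(4,4)])],[4,3])],[8,7],false,2,2,[3]),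
    (false,[([(0,3,[(10,12),(3,3)]),(0,0,[(7,10)])],[]),([(0,0,[(7,10)]),(0,7,[(3,4),(4,4)])],[3,3,3])],[10],false,1,0,[]),
    (true,[([(0,2,[(10,12)]),(0,0,[(7,10)])],[]),([(0,0,[(7,10)]),(0,1,[(5,6)])],[4,4,1])],[8,7],false,2,3,[4]),
    (true,[([(0,2,[(10,12)]),(0,0,[(7,10)])],[]),([(0,0,[(7,10)]),(0,0,[(5,6),(3,4)])],[4,1])],[8,7],false,2,1,[]),
    (true,[([(0,2,[(10,12)]),(0,0,[(7,10)])],[]),([(0,0,[(7,10)]),(0,7,[(7,8)])],[4,3])],[8,7],false,2,1,[]),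
    (true,[([(0,2,[(10,12)]),(0,36,[(11,12)])],[])],[10,8,7,6,5,2],false,6,2,[10]),
    (false,[([(0,20,[(10,12),(11,12)]),(0,0,[(7,10)])],[])],[11,9,6,2],false,4,2,[]),
    (true,[([(0,31,[(13,17)])],[5])],[10,9,8,7,6],false,5,6,[6,8,10,13,17]),
    (true,[([(0,31,[(13,17)]),(0,1,[(6,6)])],[5])],[9,8,7,6,4],false,5,4,[6]),
    (false,[([(0,31,[(13,17)]),(0,2,[(6,6),(6,6)])],[])],[10,9,8,6],false,4,6,[6]),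
    (true,[([(0,31,[(13,17)]),(0,1,[(6,6)])],[5]),([(0,1,[(6,6)]),(0,1,[(5,6)])],[3,3])],[9,7],false,2,2,[3]),
    (true,[([(0,25,[(13,17),(6,6)])],[6,5,4]),([(0,0,[(6,6),(3,3)]),(0,1,[(5,6)])],[4,4])],[],false,1,0,[]),
    (false,[([(0,31,[(13,17)]),(0,5,[(7,8)])],[5])],[11,9,7,5],false,4,5,[5,6,8]),
    (false,[([(0,31,[(13,17)]),(0,21,[(7,8),(5,5)])],[])],[10,9,8,5],false,4,5,[5]),
    (false,[([(0,31,[(13,17)]),(0,21,[(7,8),(5,5)])],[]),([(0,9,[(5,5)])],[3,3,3,3,2,2,2])],[9],false,1,0,[3]),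
    (false,[([(0,31,[(13,17)]),(0,21,[(7,8),(5,5)])],[]),([(0,1,[(5,5)]),(0,11,[(2,3)])],[3,3,3,3,2])],[9],false,1,0,[2]),
    (false,[([(0,31,[(13,17)]),(0,21,[(7,8),(5,5)])],[]),([(0,0,[(5,5),(2,3),(2,2)])],[4,4,4,4,3,3])],[],false,1,0,[]),
    (true,[([(0,31,[(13,17)]),(0,5,[(7,8)])],[5]),([(0,1,[(6,6)])],[3,3,3,1])],[9,7],false,2,5,[4,6]),
    (true,[([(0,25,[(13,17),(6,6)])],[6,6,4]),([(0,5,[(7,8)]),(1,1,[(3,4)])],[4,1])],[],false,1,0,[3,4]),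
    (true,[([(0,25,[(13,17),(6,6)])],[6,6,4]),([(0,5,[(7,8)]),(1,1,[(3,4),(2,3)])],[4,1])],[],false,1,0,[3]),
    (true,[([(0,25,[(13,17),(6,6)])],[7,6,5]),([(0,5,[(7,8)]),(1,1,[(3,4),(2,3)]),(0,11,[(2,3)])],[])],[],false,1,0,[2]),
    (true,[([(0,25,[(13,17),(6,6)])],[7,6,5]),([(0,5,[(7,8)]),(1,1,[(3,4),(2,3),(2,2)]),(0,11,[(2,3)])],[])],[],false,1,0,[]),
    (true,[([(0,25,[(13,17),(6,6)])],[6,5,4]),([(0,5,[(7,8)]),(0,7,[(3,4),(4,4)])],[4,4])],[],false,1,0,[]),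
    (false,[([(0,25,[(13,17),(6,6)])],[6,4]),([(0,5,[(7,8)]),(0,1,[(5,6)])],[3,3,3,3,3])],[],false,1,0,[2]),
    (true,[([(0,25,[(13,17),(6,6)])],[6,5,4]),([(0,0,[(7,8),(2,2)]),(0,1,[(5,6)])],[4,4])],[],false,1,0,[]),
    (true,[([(0,31,[(13,17)]),(0,5,[(7,8)])],[5]),([(0,5,[(7,8)])],[3,3,1,1])],[9,7],false,2,4,[3,5]),
    (true,[([(0,31,[(13,17)]),(0,5,[(7,8)])],[5]),([(0,5,[(7,8)]),(0,11,[(3,3)])],[3,3,2,1])],[7,5],false,2,2,[3]),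
    (true,[([(0,31,[(13,17)])],[6,6,5,5]),([(0,17,[(7,8),(3,3),(3,3)]),(0,5,[(7,8)])],[1])],[],false,1,0,[]),
    (true,[([(0,31,[(13,17)]),(0,5,[(7,8)])],[5]),([(0,5,[(7,8)]),(0,9,[(4,5)])],[3])],[9,7],false,2,1,[]),
    (false,[([(0,31,[(13,17)]),(0,2,[(9,10)])],[])],[10,9,8,6],false,4,6,[5,8,9]),
    (true,[([(0,31,[(13,17)])],[5]),([(0,3,[(9,10),(5,5)])],[5,5,5,5,5])],[],false,1,0,[4,5]),
    (true,[([(0,31,[(13,17)])],[6,5,5,4]),([(0,3,[(9,10),(5,5)]),(1,1,[(2,4)])],[])],[],false,1,0,[2,3,4]),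
    (false,[([(0,31,[(13,17)]),(0,8,[(9,10),(5,5),(2,2)])],[]),([(1,1,[(2,4)])],[4,4,3,3,2,2])],[],false,1,0,[2]),
    (false,[([(0,31,[(13,17)]),(0,8,[(9,10),(5,5),(2,2)])],[]),([(1,1,[(2,4),(2,2)])],[4,4,3,3,2,2])],[],false,1,0,[2]),
    (false,[([(0,31,[(13,17)]),(0,8,[(9,10),(5,5),(2,2)])],[]),([(1,1,[(2,4),(2,2),(2,2)])],[4,4,3,3,2,2])],[],false,1,0,[]),
    (true,[([(0,31,[(13,17)])],[6,5,5,4]),([(0,3,[(9,10),(5,5)]),(1,1,[(2,4),(3,3)])],[])],[],false,1,0,[2]),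
    (false,[([(0,31,[(13,17)]),(0,8,[(9,10),(5,5),(2,2)])],[]),([(1,1,[(2,4),(3,3)])],[4,4,3,3,2,2])],[],false,1,0,[]),
    (false,[([(0,4,[(13,17),(4,4)]),(0,3,[(9,10),(5,5)])],[]),([(1,1,[(2,4)])],[4,3,3,3,2,1])],[],false,1,0,[]),
    (true,[([(0,31,[(13,17)]),(0,1,[(5,5)])],[5]),([(0,3,[(9,10),(5,5)])],[5,5,5,4])],[],false,1,0,[]),
    (false,[([(0,31,[(13,17)])],[5,4,4,4,3]),([(0,0,[(9,10)]),(0,7,[(6,8)])],[4,3])],[],false,1,0,[3,4]),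
    (false,[([(0,31,[(13,17)])],[5,5,5,5,4]),([(0,0,[(9,10)]),(0,7,[(6,8)]),(0,11,[(2,3)])],[])],[],false,1,0,[2,3]),
    (true,[([(0,31,[(13,17)])],[5,5,4]),([(0,0,[(9,10)]),(0,0,[(6,8),(2,2)]),(0,11,[(2,3)])],[])],[8],false,1,0,[2]),
    (true,[([(0,31,[(13,17)])],[6,5,5,4]),([(0,3,[(9,10),(2,3),(2,2)]),(0,0,[(6,8),(2,2)])],[])],[],false,1,0,[]),
    (true,[([(0,31,[(13,17)])],[5,4,4]),([(0,12,[(9,10),(3,3)]),(0,7,[(6,8)]),(0,11,[(2,3)])],[])],[8],false,1,0,[]),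
    (false,[([(0,4,[(13,17),(4,4)]),(0,0,[(9,10)])],[4]),([(0,7,[(6,8)])],[4,4,3,3,3,2])],[],false,1,0,[]),
    (false,[([(0,52,[(13,17),(9,10),(9,9)])],[5])],[11,10],false,1,0,[]),
    (false,[([(0,31,[(13,17)]),(0,21,[(11,13)])],[])],[10,9,8,5],false,4,5,[6,7]),
    (false,[([(0,31,[(13,17)]),(0,21,[(11,13)])],[]),([(0,1,[(5,6)])],[3,3,3,3,2,2])],[10],false,1,0,[2,3]),
    (true,[([(0,31,[(13,17)]),(0,1,[(5,6)])],[5]),([(0,3,[(11,13),(2,2)])],[5,5,5,4])],[],false,1,0,[2]),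
    (false,[([(0,31,[(13,17)]),(0,21,[(11,13)])],[]),([(0,0,[(5,6),(2,2),(2,2)])],[4,4,4,4,3,3])],[],false,1,0,[]),
    (false,[([(0,31,[(13,17)]),(0,21,[(11,13)])],[]),([(0,0,[(5,6),(3,3)])],[4,4,4,4,3,3])],[],false,1,0,[]),
    (false,[([(0,31,[(13,17)]),(0,21,[(11,13)])],[]),([(0,5,[(7,7)])],[3,3,3,2,2,1])],[10],false,1,0,[]),
    (false,[([(0,31,[(13,17)]),(0,8,[(14,17)])],[])],[10,9,6,3],false,4,3,[]),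
    (true,[([(0,25,[(18,23)])],[6,2])],[10,8,7,6],false,4,6,[5,6,10,12]),
    (true,[([(0,23,[(18,23),(5,5)])],[])],[10,9,8,7],false,4,7,[5]),
    (true,[([(0,23,[(18,23),(5,5)]),(0,9,[(5,5)])],[])],[9,8,7,5],false,4,3,[]),
    (false,[([(0,25,[(18,23)])],[6,4]),([(0,1,[(6,6)])],[3,3,3,3,3,3,3,2])],[],false,1,0,[2,4,6]),
    (true,[([(0,25,[(18,23)])],[6,1]),([(0,7,[(6,6),(2,2)])],[4,4,4,4,4,4])],[],false,1,0,[2]),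
    (true,[([(0,25,[(18,23)])],[6,2]),([(0,0,[(6,6),(2,2),(2,2)])],[4,4,4,4,4,1])],[],false,1,0,[2]),
    (true,[([(0,25,[(18,23)]),(0,11,[(2,2)])],[6]),([(0,0,[(6,6),(2,2),(2,2)])],[4,4,4,4,4])],[],false,1,0,[2]),
    (true,[([(0,25,[(18,23)])],[6,5,4]),([(0,0,[(6,6),(2,2),(2,2)]),(1,0,[(2,2),(2,2)])],[4,4])],[],false,1,0,[2]),
    (true,[([(0,25,[(18,23)])],[6,5,4]),([(0,0,[(6,6),(2,2),(2,2)]),(1,0,[(2,2),(2,2),(2,2)])],[4,4])],[],false,1,0,[2]),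
    (true,[([(0,25,[(18,23)])],[6,5,4]),([(0,0,[(6,6),(2,2),(2,2)]),(1,1,[(2,2),(2,2),(2,2),(2,2)])],[4])],[],false,1,0,[]),
    (true,[([(0,25,[(18,23)])],[6,2]),([(0,0,[(6,6),(3,4)])],[4,4,4,4,4,1])],[],false,1,0,[3,4]),
    (true,[([(0,25,[(18,23)]),(0,11,[(2,3)])],[6]),([(0,0,[(6,6),(3,4)])],[4,4,4,4,4])],[],false,1,0,[3]),
    (true,[([(0,25,[(18,23)])],[6,5,4]),([(0,0,[(6,6),(3,4)]),(1,1,[(2,3),(2,3)])],[4])],[],false,1,0,[2,3]),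
    (true,[([(0,25,[(18,23)])],[6,5,4]),([(0,0,[(6,6),(3,4)]),(1,1,[(2,3),(2,3),(2,2)])],[4])],[],false,1,0,[2]),
    (true,[([(0,25,[(18,23)])],[6,5,4]),([(0,0,[(6,6),(3,4)]),(1,1,[(2,3),(2,3),(2,2),(2,2)])],[4])],[],false,1,0,[]),
    (true,[([(0,25,[(18,23)])],[6,5,4]),([(0,0,[(6,6),(3,4)]),(1,1,[(2,3),(2,3),(3,3)])],[4])],[],false,1,0,[]),
    (true,[([(0,25,[(18,23)])],[6,5,5]),([(0,0,[(6,6),(3,4)]),(0,19,[(4,4)])],[4,4,1])],[],false,1,0,[2]),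
    (true,[([(0,25,[(18,23)])],[6,5,4]),([(0,0,[(6,6),(3,4)]),(0,1,[(4,4),(2,2)])],[4,4])],[],false,1,0,[]),
    (false,[([(0,25,[(18,23)])],[6,4,2]),([(0,1,[(6,6)]),(0,1,[(5,6)])],[3,3,3,3,3])],[],false,1,0,[3]),
    (true,[([(0,25,[(18,23)])],[6,5,4]),([(0,0,[(6,6),(2,3)]),(0,1,[(5,6)])],[4,4])],[],false,1,0,[2]),
    (false,[([(0,25,[(18,23)]),(0,11,[(2,3)])],[6,4]),([(0,5,[(6,6),(2,2)]),(0,1,[(5,6)])],[3,3,3,3])],[],false,1,0,[]),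
    (true,[([(0,25,[(18,23)])],[6,2]),([(0,0,[(7,10)])],[4,4,4,4,4,1])],[],false,1,0,[2,3,4,5,6]),
    (true,[([(0,25,[(18,23)]),(0,11,[(2,2)])],[6]),([(0,0,[(7,10)])],[4,4,4,4,4])],[],false,1,0,[2]),
    (true,[([(0,25,[(18,23)])],[6,5,4]),([(0,0,[(7,10)]),(1,0,[(2,2),(2,2)])],[4,4])],[],false,1,0,[2]),
    (true,[([(0,25,[(18,23)])],[6,5,4]),([(0,0,[(7,10)]),(1,0,[(2,2),(2,2),(2,2)])],[4,4])],[],false,1,0,[2]),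
    (true,[([(0,25,[(18,23)])],[6,5,4]),([(0,0,[(7,10)]),(1,1,[(2,2),(2,2),(2,2),(2,2)])],[4])],[],false,1,0,[2]),
    (true,[([(0,25,[(18,23)])],[6,5,4]),([(0,0,[(7,10)]),(1,1,[(2,2),(2,2),(2,2),(2,2),(2,2)])],[4])],[],false,1,0,[]),
    (true,[([(0,25,[(18,23)]),(0,11,[(3,3)])],[6]),([(0,0,[(7,10)])],[4,4,4,4,4])],[],false,1,0,[3]),
    (true,[([(0,25,[(18,23)])],[6,5,4]),([(0,0,[(7,10)]),(0,1,[(3,3),(2,3)])],[4,4])],[],false,1,0,[2,3]),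
    (true,[([(0,25,[(18,23)])],[6,5,4]),([(0,0,[(7,10)]),(1,1,[(3,3),(2,3),(2,2)])],[4])],[],false,1,0,[2]),
    (true,[([(0,25,[(18,23)])],[6,5,4]),([(0,0,[(7,10)]),(1,1,[(3,3),(2,3),(2,2),(2,2)])],[4])],[],false,1,0,[]),
    (true,[([(0,25,[(18,23)])],[6,5,4]),([(0,0,[(7,10)]),(1,1,[(3,3),(2,3),(3,3)])],[4])],[],false,1,0,[]),
    (true,[([(0,25,[(18,23)])],[6,5,5]),([(0,0,[(7,10)]),(0,19,[(4,4)])],[4,4,1])],[],false,1,0,[3]),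
    (true,[([(0,25,[(18,23)])],[6,5,4]),([(0,0,[(7,10)]),(1,1,[(4,4),(2,3)])],[4])],[],false,1,0,[2]),
    (true,[([(0,25,[(18,23)])],[6,5,4]),([(0,0,[(7,10)]),(1,1,[(4,4),(2,3),(2,2)])],[4])],[],false,1,0,[]),
    (false,[([(0,23,[(18,23),(5,5)]),(0,0,[(7,10)])],[])],[10,8,6],false,2,1,[]),
    (true,[([(0,25,[(18,23)])],[6,5,4]),([(0,0,[(7,10)]),(0,1,[(6,6)])],[4,4])],[],false,1,0,[]),
    (true,[([(0,25,[(18,23)])],[6]),([(0,36,[(11,12)])],[4,4,4,4,4,1])],[],false,1,0,[2]),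
    (true,[([(0,25,[(18,23)])],[6,5,5]),([(0,36,[(11,12)]),(0,11,[(2,2)])],[4,3,1])],[],false,1,0,[]),
    (true,[([(0,51,[(24,29)])],[7,4])],[9,7,6],false,3,5,[6]),
    (true,[([(0,51,[(24,29)])],[7,4]),([(0,1,[(4,6)])],[3,3,3,3,3,1])],[],false,1,0,[3]),
    (true,[([(0,34,[(24,29)])],[7,4]),([(0,1,[(4,6)]),(0,11,[(2,3)])],[3,3,3,3])],[],false,1,0,[2]),
    (true,[([(0,34,[(24,29)])],[7,4]),([(0,1,[(4,6)]),(1,0,[(2,3),(2,2)])],[3,3,3])],[],false,1,0,[])]),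
  ([11,10,9,8,7,6,5,4,2,1], [
    (false,[],[11,10,9,8,7,6,5,4,2,1],false,9,3,[12,17,22,28,29]),
    (true,[([(0,2,[(10,12)])],[4,1,1])],[10,9,8,7,6,5],false,6,5,[10,12]),
    (false,[([(0,2,[(10,12)]),(0,0,[(7,10)])],[])],[11,10,8,7,5],false,5,5,[7,10]),
    (true,[([(0,22,[(10,12),(6,7)]),(0,0,[(7,10)])],[])],[9,8,7,6,4],false,5,4,[7]),
    (true,[([(0,2,[(10,12)]),(0,17,[(6,7),(6,7)])],[]),([(0,0,[(7,10)])],[3,3,3,1])],[9,8],false,2,3,[3,4]),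
    (false,[([(0,22,[(10,12),(6,7)]),(0,0,[(7,10)])],[4]),([(0,0,[(6,7),(3,3)])],[4,4,4,4,3,1])],[],false,1,0,[2]),
    (false,[([(0,4,[(10,12),(6,7),(2,2)]),(0,0,[(7,10)])],[]),([(0,0,[(6,7),(3,3)])],[4,4,4,4,3,2,1])],[],false,1,0,[]),
    (false,[([(0,22,[(10,12),(6,7)]),(0,0,[(7,10)])],[4]),([(0,18,[(6,7),(4,4)])],[4,4,4,4,2,1])],[],false,1,0,[]),
    (true,[([(0,2,[(10,12)]),(0,0,[(7,10)])],[]),([(0,0,[(8,10)])],[4,4,3,2])],[10,8],false,2,6,[3,5,7]),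
    (true,[([(0,3,[(10,12),(3,3)]),(0,0,[(7,10)])],[]),([(0,0,[(8,10)])],[4,3,2,1])],[10,8],false,2,4,[3]),
    (true,[([(0,3,[(10,12),(3,3)]),(0,0,[(7,10)])],[]),([(0,0,[(8,10)]),(0,11,[(3,3)])],[4,3])],[10,8],false,2,2,[3]),
    (false,[([(0,4,[(10,12),(3,3),(3,3),(3,3)]),(0,0,[(7,10)])],[]),([(0,0,[(8,10)])],[4,4,4,4,3,2,1])],[],false,1,0,[]),
    (true,[([(0,2,[(10,12)]),(0,3,[(8,10),(4,5)])],[]),([(0,0,[(7,10)])],[3,3,2,1])],[9,8],false,2,3,[3,4]),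
    (true,[([(0,3,[(10,12),(3,3)]),(0,3,[(8,10),(4,5)])],[]),([(0,0,[(7,10)])],[3,2,1])],[9,8],false,2,1,[]),
    (false,[([(0,4,[(10,12),(4,5),(4,4)]),(0,0,[(7,10)])],[]),([(0,0,[(8,10)])],[4,4,4,4,3,2,1])],[],false,1,0,[]),
    (false,[([(0,22,[(10,12),(6,7)]),(0,0,[(7,10)])],[4]),([(0,0,[(8,10)])],[4,4,4,4,3,1])],[],false,1,0,[2]),
    (false,[([(0,4,[(10,12),(6,7),(2,2)]),(0,0,[(7,10)])],[]),([(0,0,[(8,10)])],[4,4,4,4,3,2,1])],[],false,1,0,[]),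
    (true,[([(0,2,[(10,12)]),(0,36,[(11,12)])],[2])],[9,8,7,6,5,2],false,6,2,[10]),
    (false,[([(0,20,[(10,12),(11,12)]),(0,0,[(7,10)])],[5])],[10,7,5,2],false,4,2,[]),
    (true,[([(0,31,[(13,17)])],[5,1])],[10,9,8,7,6],false,5,6,[6,8,10,15,17]),
    (true,[([(0,25,[(13,17),(6,6)])],[6])],[10,9,8,7],false,4,7,[5,6]),
    (true,[([(0,23,[(13,17),(6,6),(5,5)])],[1])],[10,9,8,7],false,4,7,[5]),
    (true,[([(0,23,[(13,17),(6,6),(5,5)]),(0,1,[(5,5)])],[])],[9,8,7,5],false,4,3,[]),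
    (false,[([(0,31,[(13,17)]),(0,17,[(6,6),(6,6)])],[])],[10,9,7,6],false,4,6,[6]),
    (true,[([(0,31,[(13,17)]),(0,1,[(6,6)])],[5]),([(0,1,[(6,6)]),(0,1,[(5,6)])],[3,3])],[9,8],false,2,2,[3]),
    (false,[([(0,25,[(13,17),(6,6)])],[6,5,5,3]),([(0,1,[(6,6)]),(0,1,[(5,6)]),(0,11,[(3,3)])],[3,3])],[],false,1,0,[]),
    (true,[([(0,31,[(13,17)]),(0,5,[(7,8)])],[5])],[9,8,7,5,4],false,5,4,[7,8]),
    (false,[([(0,31,[(13,17)]),(0,3,[(7,8),(6,7)])],[])],[10,9,7,5],false,4,5,[6]),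
    (false,[([(0,31,[(13,17)]),(0,3,[(7,8),(6,7)])],[]),([(0,1,[(5,6)])],[3,3,3,3,2,1])],[10],false,1,0,[2]),
    (false,[([(0,31,[(13,17)]),(0,3,[(7,8),(6,7)])],[]),([(0,1,[(5,6)]),(0,11,[(2,2)])],[3,3,3,3])],[10],false,1,0,[]),
    (false,[([(0,31,[(13,17)]),(0,8,[(7,8),(8,8)])],[])],[10,9,6,4],false,4,3,[]),
    (false,[([(0,31,[(13,17)]),(0,0,[(9,10)])],[5])],[10,9,7,5],false,4,5,[5,8,9]),
    (false,[([(0,31,[(13,17)]),(0,3,[(9,10),(5,5)])],[])],[10,9,7,5],false,4,4,[5]),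
    (false,[([(0,31,[(13,17)]),(0,3,[(9,10),(5,5)])],[]),([(0,9,[(5,5)])],[3,3,3,3,2,2])],[10],false,1,0,[]),
    (false,[([(0,31,[(13,17)]),(0,7,[(6,8)])],[5]),([(0,0,[(9,10)])],[4,4,4,4,4,3])],[],false,1,0,[2,3,4]),
    (false,[([(0,31,[(13,17)]),(0,0,[(9,10)])],[5]),([(0,0,[(6,8),(2,2)])],[4,4,4,4,3,2])],[],false,1,0,[2]),
    (false,[([(0,31,[(13,17)])],[5,5,5,5,3]),([(0,0,[(9,10)]),(0,0,[(6,8),(2,2)]),(0,11,[(2,2)])],[])],[],false,1,0,[2]),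
    (false,[([(0,31,[(13,17)]),(0,17,[(9,10),(2,2),(2,2)])],[]),([(0,0,[(6,8),(2,2)])],[4,4,4,4,4,2])],[],false,1,0,[]),
    (false,[([(0,31,[(13,17)]),(0,12,[(9,10),(3,3)])],[5]),([(0,7,[(6,8)])],[4,4,4,3,3,2])],[],false,1,0,[2]),
    (false,[([(0,31,[(13,17)]),(0,12,[(9,10),(3,3)])],[5]),([(0,0,[(6,8),(2,2)])],[4,4,4,3,2,1])],[],false,1,0,[]),
    (false,[([(0,4,[(13,17),(4,4)]),(0,0,[(9,10)])],[]),([(0,7,[(6,8)])],[4,4,4,4,3,3,2])],[],false,1,0,[]),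
    (false,[([(0,52,[(13,17),(9,10),(9,9)])],[6])],[11,10],false,1,0,[]),
    (false,[([(0,31,[(13,17)]),(0,3,[(11,15)])],[])],[10,9,7,5],false,4,5,[6,7]),
    (false,[([(0,31,[(13,17)]),(0,3,[(11,15)])],[]),([(0,1,[(5,6)])],[3,3,3,3,2,1])],[10],false,1,0,[3]),
    (false,[([(0,31,[(13,17)]),(0,3,[(11,15)])],[]),([(0,1,[(5,6)]),(0,11,[(2,3)])],[3,3,3,3])],[10],false,1,0,[2]),
    (false,[([(0,31,[(13,17)]),(0,3,[(11,15)])],[]),([(0,1,[(5,6)]),(1,0,[(2,3),(2,2)])],[3,3,3])],[10],false,1,0,[]),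
    (false,[([(0,31,[(13,17)]),(0,3,[(11,15)])],[]),([(0,5,[(7,7)])],[3,3,3,2,1,1])],[10],false,1,0,[]),
    (false,[([(0,53,[(13,17),(16,17)])],[6,5])],[11,7],false,2,1,[]),
    (true,[([(0,16,[(18,22)])],[3,1])],[10,9,8,7,3],false,5,3,[8,11,12]),
    (false,[([(0,16,[(18,22)]),(0,7,[(6,8)])],[3])],[10,9,7,4],false,4,4,[6,7]),
    (true,[([(0,23,[(18,22),(5,6)])],[2,2]),([(0,7,[(6,8)])],[4,4,4,4,4,3])],[],false,1,0,[3]),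
    (true,[([(0,23,[(18,22),(5,6)])],[6,6,5]),([(0,7,[(6,8)]),(0,11,[(2,3)])],[4,3])],[],false,1,0,[2]),
    (true,[([(0,23,[(18,22),(5,6)]),(0,11,[(2,3)])],[2]),([(0,0,[(6,8),(2,2)])],[4,4,4,4,4])],[],false,1,0,[]),
    (true,[([(0,16,[(18,22)])],[3,1]),([(0,3,[(6,8),(7,7)])],[5,5,4,4,4])],[],false,1,0,[]),
    (false,[([(0,16,[(18,22)]),(0,18,[(9,11)])],[])],[11,9,6,4],false,4,3,[]),
    (false,[([(0,53,[(18,22),(12,12)])],[6,5])],[11,7],false,1,0,[]),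
    (true,[([(0,23,[(23,28)])],[1])],[10,9,8,7],false,4,6,[6,7]),
    (false,[([(0,23,[(23,28)]),(0,1,[(5,6)])],[5])],[10,8,6],false,3,2,[]),
    (false,[([(0,52,[(23,28),(7,7)])],[6])],[11,10],false,1,0,[]),
    (false,[([(0,32,[(29,29)])],[6,6,5])],[9,8],false,1,0,[])]),
  ([11,10,9,8,7,6,5,4,3,1], [
    (false,[],[11,10,9,8,7,6,5,4,3,1],false,9,4,[12,16,21,28,29]),
    (true,[([(0,2,[(10,12)])],[4,1,1,1])],[10,9,8,7,6,5],false,6,5,[10,12]),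
    (true,[([(0,2,[(10,12)]),(0,0,[(7,10)])],[])],[10,9,8,7,5,3],false,6,3,[10]),
    (true,[([(0,2,[(10,12)]),(0,0,[(7,10)])],[]),([(0,0,[(7,10)])],[4,4,3,2])],[10,9],false,2,7,[4,6,8]),
    (true,[([(0,2,[(10,12)]),(0,0,[(7,10)])],[]),([(0,0,[(7,10)]),(1,1,[(3,4)])],[4])],[10,8],false,2,5,[3,4]),
    (true,[([(0,3,[(10,12),(3,3)]),(0,0,[(7,10)])],[]),([(0,0,[(7,10)]),(1,1,[(3,4)])],[])],[10,9],false,2,3,[3]),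
    (true,[([(0,3,[(10,12),(3,3)]),(0,0,[(7,10)])],[]),([(0,0,[(7,10)]),(1,1,[(3,4),(3,3)])],[])],[10,9],false,2,1,[]),
    (true,[([(0,2,[(10,12)]),(0,0,[(7,10)])],[]),([(0,0,[(7,10)]),(0,7,[(3,4),(4,4)])],[4,3])],[9,8],false,2,2,[3]),
    (false,[([(0,3,[(10,12),(3,3)]),(0,0,[(7,10)])],[]),([(0,0,[(7,10)]),(0,7,[(3,4),(4,4)])],[4,4,3])],[10],false,1,0,[]),
    (true,[([(0,2,[(10,12)]),(0,0,[(7,10)])],[]),([(0,0,[(7,10)]),(0,1,[(5,6)])],[4,4])],[10,8],false,2,3,[4]),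
    (true,[([(0,2,[(10,12)]),(0,0,[(7,10)])],[]),([(0,0,[(7,10)]),(0,0,[(5,6),(3,4)])],[4])],[10,8],false,2,1,[]),
    (true,[([(0,2,[(10,12)]),(0,0,[(7,10)])],[]),([(0,0,[(7,10)]),(0,7,[(7,8)])],[4,3])],[9,8],false,2,1,[]),
    (true,[([(0,2,[(10,12)]),(0,36,[(11,12)])],[])],[10,9,8,6,5,2],false,6,2,[10]),
    (false,[([(0,20,[(10,12),(11,12)]),(0,0,[(7,10)])],[])],[11,9,6,4],false,4,3,[]),
    (true,[([(0,37,[(13,16)])],[5,3,1])],[10,9,8,7,5],false,5,5,[7,9,12,14,16]),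
    (true,[([(0,25,[(13,16),(6,7)])],[6,1])],[10,9,8,7],false,4,7,[5,6,7]),
    (true,[([(0,23,[(13,16),(6,7),(5,5)])],[1,1])],[10,9,8,7],false,4,7,[5]),
    (false,[([(0,4,[(13,16),(5,5)]),(0,2,[(6,7),(5,5)])],[])],[10,9,7,5],false,4,3,[]),
    (false,[([(0,25,[(13,16),(6,7)])],[6,6]),([(0,1,[(6,6)])],[3,3,3,3,3,3,3,2])],[],false,1,0,[3,6]),
    (false,[([(0,16,[(13,16),(6,6)]),(0,0,[(6,7),(2,3)])],[5])],[10,8,5,4],false,3,5,[]),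
    (false,[([(0,25,[(13,16),(6,7)])],[6,6,2]),([(0,1,[(6,6)]),(0,1,[(4,6)])],[3,3,3,3,3])],[],false,1,0,[2,3,4]),
    (true,[([(0,16,[(13,16),(6,6)]),(0,0,[(6,7),(2,2)])],[]),([(0,1,[(4,6)])],[3,3,1,1,1,1])],[9,7],false,2,2,[]),
    (true,[([(0,16,[(13,16),(6,6)]),(0,0,[(6,7),(3,3)])],[]),([(0,1,[(4,6)])],[3,3,1,1,1,1])],[9,7],false,2,1,[]),
    (false,[([(0,25,[(13,16),(6,7)])],[6,6,4]),([(0,1,[(6,6)]),(0,1,[(4,6)]),(0,19,[(4,4)])],[3,3,3])],[],false,1,0,[]),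
    (true,[([(0,34,[(13,16),(6,7),(7,7)])],[7])],[10,9,8],false,3,5,[6]),
    (true,[([(0,34,[(13,16),(6,7),(7,7)])],[7]),([(0,1,[(4,6)])],[3,3,3,3,3,3,3])],[],false,1,0,[3]),
    (false,[([(0,25,[(13,16),(6,7)]),(0,11,[(2,3)])],[6,6]),([(0,5,[(7,7)]),(0,1,[(4,6)])],[3,3,3,3])],[],false,1,0,[2]),
    (false,[([(0,25,[(13,16),(6,7)])],[6,6,3]),([(0,5,[(7,7)]),(0,1,[(4,6)]),(1,0,[(2,3),(2,2)])],[3,3])],[],false,1,0,[]),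
    (true,[([(0,29,[(13,16),(8,9)])],[5,1])],[10,9,8,6],false,4,6,[5,6,8,9]),
    (false,[([(0,4,[(13,16),(5,5)]),(0,33,[(8,9)])],[])],[10,9,8,7],false,4,5,[5]),
    (false,[([(0,4,[(13,16),(5,5)]),(0,17,[(8,9),(5,5)])],[])],[10,8,7,4],false,2,1,[]),
    (false,[([(0,16,[(13,16),(6,6)]),(0,0,[(8,9)])],[5])],[10,8,5,4],false,4,4,[5]),
    (false,[([(0,52,[(13,16),(8,9),(6,6),(5,5)])],[7])],[11,10],false,1,0,[]),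
    (true,[([(0,54,[(13,16),(8,9)])],[7,6]),([(0,5,[(7,8)])],[3,3,3,3,3,3])],[],false,1,0,[4]),
    (true,[([(0,29,[(13,16),(8,9)])],[5,4]),([(0,5,[(7,8)]),(1,1,[(2,4)])],[4,4,4])],[],false,1,0,[3]),
    (true,[([(0,29,[(13,16),(8,9)])],[5,4]),([(0,5,[(7,8)]),(1,1,[(2,4),(2,3)])],[4,4,4])],[],false,1,0,[2]),
    (true,[([(0,29,[(13,16),(8,9)])],[5,4]),([(0,5,[(7,8)]),(1,1,[(2,4),(2,3),(2,2)])],[4,4,4])],[],false,1,0,[]),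
    (false,[([(0,53,[(13,16),(8,9),(9,9)])],[7,5])],[11,7],false,2,1,[]),
    (true,[([(0,23,[(13,16),(10,12)])],[1,1])],[10,9,8,7],false,4,7,[6,8]),
    (false,[([(0,23,[(13,16),(10,12)]),(0,1,[(5,6)])],[6])],[10,8,6],false,3,3,[4]),
    (true,[([(0,23,[(13,16),(10,12)])],[1,1]),([(0,0,[(5,6),(4,4)])],[4,4,4,4,4,4])],[],false,1,0,[]),
    (false,[([(0,23,[(13,16),(10,12)]),(0,5,[(7,8)])],[6])],[9,7,6],false,2,1,[]),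
    (true,[([(0,39,[(13,16),(13,14)])],[3,1])],[10,9,8,3],false,4,3,[5]),
    (false,[([(0,52,[(13,16),(13,14),(5,5)])],[7])],[11,10],false,1,0,[]),
    (true,[([(0,42,[(13,16),(15,16)])],[6])],[10,9,7],false,3,2,[]),
    (true,[([(0,4,[(17,21)])],[1,1,1])],[10,9,8,7,6],false,5,6,[8,12,13]),
    (false,[([(0,4,[(17,21)]),(0,7,[(6,8)])],[5])],[10,9,7,4],false,4,4,[6,8]),
    (true,[([(0,4,[(17,21)]),(0,7,[(6,8)])],[]),([(0,1,[(5,6)])],[3,3,2,2,1,1])],[9,8],false,2,3,[4]),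
    (false,[([(0,4,[(17,21)]),(0,7,[(6,8)])],[5]),([(0,0,[(5,6),(3,4)])],[4,4,4,3,3,2])],[],false,1,0,[2]),
    (false,[([(0,4,[(17,21)]),(0,0,[(6,8),(2,2)])],[5]),([(0,0,[(5,6),(3,4)])],[4,4,4,3,2,1])],[],false,1,0,[]),
    (true,[([(0,4,[(17,21)]),(0,7,[(6,8)])],[]),([(0,5,[(7,8)])],[3,2,2,1,1,1])],[9,8],false,2,1,[]),
    (false,[([(0,4,[(17,21)]),(0,2,[(9,12)])],[])],[10,9,7,5],false,4,4,[5]),
    (false,[([(0,4,[(17,21)]),(0,2,[(9,12)])],[]),([(0,9,[(5,5)])],[3,3,3,3,2,2])],[10],false,1,0,[]),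
    (false,[([(0,53,[(17,21),(13,13)])],[7,5])],[11,7],false,1,0,[]),
    (true,[([(0,23,[(22,28)])],[1,1])],[10,9,8,7],false,4,7,[6,8]),
    (false,[([(0,23,[(22,28)]),(0,1,[(5,6)])],[6])],[10,8,6],false,3,3,[4]),
    (true,[([(0,23,[(22,28)])],[1,1]),([(0,0,[(5,6),(4,4)])],[4,4,4,4,4,4])],[],false,1,0,[]),
    (false,[([(0,23,[(22,28)]),(0,5,[(7,8)])],[6])],[9,7,6],false,2,1,[]),
    (false,[([(0,32,[(29,29)])],[7,6,5])],[9,8],false,1,0,[])]),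
  ([11,10,9,8,7,6,5,4,3,2], [
    (false,[],[11,10,9,8,7,6,5,4,3,2],false,9,4,[12,16,21,28,29]),
    (true,[([(0,2,[(10,12)])],[4,1,1,1,1])],[10,9,8,7,6,5],false,6,5,[10,12]),
    (true,[([(0,2,[(10,12)]),(0,0,[(7,10)])],[1])],[10,9,8,7,5,3],false,6,3,[10]),
    (true,[([(0,2,[(10,12)]),(0,0,[(7,10)])],[]),([(0,0,[(7,10)])],[4,4,3,2,1,1])],[10,8],false,2,7,[5,8]),
    (true,[([(0,2,[(10,12)]),(0,0,[(7,10)])],[4]),([(0,0,[(7,10)]),(1,2,[(3,5)])],[5])],[9],false,1,0,[3,4,5]),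
    (false,[([(0,3,[(10,12),(2,3)]),(0,0,[(7,10)])],[5]),([(0,0,[(7,10)]),(1,2,[(3,5)])],[5,5])],[],false,1,0,[3]),
    (false,[([(0,3,[(10,12),(2,3)]),(0,0,[(7,10)])],[5]),([(0,0,[(7,10)]),(1,2,[(3,5),(2,3)])],[5,5])],[],false,1,0,[3]),
    (true,[([(0,3,[(10,12),(2,3)]),(1,2,[(3,5),(2,3),(2,3)])],[]),([(0,0,[(7,10)]),(0,0,[(7,10)])],[4])],[10,1],true,2,2,[3]),
    (false,[([(0,3,[(10,12),(2,3)]),(0,0,[(7,10)])],[5]),([(0,0,[(7,10)]),(1,2,[(3,5),(2,3),(2,3),(3,3)])],[5,5])],[],false,1,0,[]),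
    (true,[([(0,2,[(10,12)]),(1,2,[(3,5),(4,4)])],[]),([(0,0,[(7,10)]),(0,0,[(7,10)])],[4,4])],[9,1],true,2,2,[3]),
    (false,[([(0,3,[(10,12),(3,3)]),(0,0,[(7,10)])],[5]),([(0,0,[(7,10)]),(1,2,[(3,5),(4,4)])],[5,5])],[],false,1,0,[]),
    (true,[([(0,2,[(10,12)]),(0,0,[(7,10)])],[]),([(0,0,[(7,10)]),(0,0,[(3,5),(5,5)])],[4,1])],[10,8],false,2,1,[]),
    (true,[([(0,2,[(10,12)]),(0,0,[(7,10)])],[]),([(0,0,[(7,10)]),(0,7,[(6,8)])],[4,3])],[10,8],false,2,2,[3]),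
    (false,[([(0,3,[(10,12),(3,3)]),(0,0,[(7,10)])],[5]),([(0,0,[(7,10)]),(0,7,[(6,8)])],[4,3,1])],[9],false,1,0,[]),
    (true,[([(0,2,[(10,12)]),(0,36,[(11,12)])],[1])],[10,9,8,6,5,2],false,6,2,[10]),
    (false,[([(0,20,[(10,12),(11,12)]),(0,0,[(7,10)])],[6])],[10,7,5,3],false,4,3,[]),
    (true,[([(0,37,[(13,16)])],[5,3,1,1])],[10,9,8,7,5],false,5,5,[7,9,12,15,16]),
    (true,[([(0,25,[(13,16),(6,7)])],[6,1,1])],[10,9,8,7],false,4,7,[5,6,7]),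
    (true,[([(0,4,[(13,16),(5,5)]),(0,6,[(6,7)])],[])],[10,9,8,7,3],false,5,3,[]),
    (false,[([(0,25,[(13,16),(6,7)])],[7,6]),([(0,1,[(6,6)])],[3,3,3,3,3,3,3,2])],[],false,1,0,[3,6]),
    (false,[([(0,16,[(13,16),(6,6)]),(0,0,[(6,7),(2,3)])],[6])],[10,8,5,4],false,3,5,[]),
    (false,[([(0,25,[(13,16),(6,7)])],[7,6,2]),([(0,1,[(6,6)]),(0,1,[(4,6)])],[3,3,3,3,3])],[],false,1,0,[2,4]),
    (true,[([(0,16,[(13,16),(6,6)]),(0,0,[(6,7),(2,2)])],[]),([(0,1,[(4,6)])],[3,3,1,1])],[10,9],false,2,2,[]),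
    (false,[([(0,16,[(13,16),(6,6)])],[6,6,5,3]),([(0,6,[(6,7)]),(0,1,[(4,6)]),(1,1,[(3,4)])],[])],[],false,1,0,[2]),
    (false,[([(0,25,[(13,16),(6,7)])],[7,6,5,3]),([(0,1,[(6,6)]),(0,1,[(4,6)]),(0,1,[(3,4),(2,2)])],[3])],[],false,1,0,[]),
    (true,[([(0,34,[(13,16),(6,7),(7,7)])],[7,1])],[10,9,8],false,3,5,[6]),
    (true,[([(0,34,[(13,16),(6,7),(7,7)])],[7,1]),([(0,1,[(4,6)])],[3,3,3,3,3,3,3])],[],false,1,0,[2,3]),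
    (false,[([(0,25,[(13,16),(6,7)]),(0,11,[(2,2)])],[7,6]),([(0,5,[(7,7)]),(0,1,[(4,6)])],[3,3,3,3])],[],false,1,0,[2]),
    (false,[([(0,25,[(13,16),(6,7)])],[7,6,3]),([(0,5,[(7,7)]),(0,1,[(4,6)]),(1,0,[(2,2),(2,2)])],[3,3])],[],false,1,0,[]),
    (false,[([(0,25,[(13,16),(6,7)]),(0,11,[(3,3)])],[7,6]),([(0,5,[(7,7)]),(0,1,[(4,6)])],[3,3,3,3])],[],false,1,0,[]),
    (true,[([(0,29,[(13,16),(8,9)])],[5,1,1])],[10,9,8,6],false,4,6,[6,9]),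
    (true,[([(0,54,[(13,16),(8,9)])],[7,6]),([(0,1,[(5,6)])],[3,3,3,3,3,3,3])],[],false,1,0,[2,4,6]),
    (true,[([(0,29,[(13,16),(8,9)])],[5,2,2]),([(0,7,[(5,6),(2,2)])],[4,4,4,4,4,3])],[],false,1,0,[2]),
    (true,[([(0,29,[(13,16),(8,9)])],[5,1,1]),([(0,0,[(5,6),(2,2),(2,2)])],[4,4,4,4,4,3])],[],false,1,0,[2]),
    (true,[([(0,29,[(13,16),(8,9)]),(0,11,[(2,2)])],[5]),([(0,0,[(5,6),(2,2),(2,2)])],[4,4,4,4,4,2])],[],false,1,0,[2]),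
    (true,[([(0,29,[(13,16),(8,9)])],[5,4,3]),([(0,0,[(5,6),(2,2),(2,2)]),(1,0,[(2,2),(2,2)])],[4,4,4])],[],false,1,0,[2]),
    (true,[([(0,29,[(13,16),(8,9)])],[5,4,3]),([(0,0,[(5,6),(2,2),(2,2)]),(1,0,[(2,2),(2,2),(2,2)])],[4,4,4])],[],false,1,0,[]),
    (true,[([(0,29,[(13,16),(8,9)])],[5,1,1]),([(0,0,[(5,6),(3,4)])],[4,4,4,4,4,3])],[],false,1,0,[4]),
    (true,[([(0,29,[(13,16),(8,9)])],[5,4,3]),([(0,0,[(5,6),(3,4)]),(1,1,[(2,4)])],[4,4])],[],false,1,0,[3]),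
    (true,[([(0,29,[(13,16),(8,9)])],[5,4,3]),([(0,0,[(5,6),(3,4)]),(1,1,[(2,4),(2,3)])],[4,4])],[],false,1,0,[2]),
    (true,[([(0,29,[(13,16),(8,9)])],[5,4,3]),([(0,0,[(5,6),(3,4)]),(1,1,[(2,4),(2,3),(2,2)])],[4,4])],[],false,1,0,[]),
    (false,[([(0,29,[(13,16),(8,9)])],[7,5,1]),([(0,1,[(5,6)]),(0,1,[(5,6)])],[3,3,3,3,3])],[],false,1,0,[2]),
    (false,[([(0,29,[(13,16),(8,9)])],[7,5,4]),([(0,1,[(5,6)]),(0,1,[(5,6)]),(0,11,[(2,2)])],[3,3,3])],[],false,1,0,[]),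
    (true,[([(0,29,[(13,16),(8,9)])],[5,1,1]),([(0,0,[(7,9)])],[4,4,4,4,4,3])],[],false,1,0,[4]),
    (true,[([(0,29,[(13,16),(8,9)])],[5,4,3]),([(0,0,[(7,9)]),(1,1,[(2,4)])],[4,4])],[],false,1,0,[3]),
    (true,[([(0,29,[(13,16),(8,9)])],[5,4,3]),([(0,0,[(7,9)]),(1,1,[(2,4),(2,3)])],[4,4])],[],false,1,0,[2]),
    (true,[([(0,29,[(13,16),(8,9)])],[5,4,3]),([(0,0,[(7,9)]),(1,1,[(2,4),(2,3),(2,2)])],[4,4])],[],false,1,0,[]),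
    (true,[([(0,23,[(13,16),(10,12)])],[1,1,1])],[10,9,8,7],false,4,7,[6,8]),
    (true,[([(0,23,[(13,16),(10,12)]),(0,1,[(5,6)])],[])],[10,9,7,5],false,4,3,[]),
    (false,[([(0,23,[(13,16),(10,12)]),(0,5,[(7,8)])],[7])],[9,7,6],false,2,1,[]),
    (true,[([(0,37,[(13,16)])],[5,3,1,1]),([(0,3,[(13,15)])],[5,5,5,5,4])],[],false,1,0,[2,3,5]),
    (true,[([(0,37,[(13,16)])],[5,3,1,1]),([(0,8,[(13,15),(2,2)])],[5,5,5,5,2])],[],false,1,0,[2]),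
    (true,[([(0,31,[(13,16)]),(0,11,[(2,2)])],[5,1]),([(0,8,[(13,15),(2,2)])],[5,5,5,5,2])],[],false,1,0,[2]),
    (true,[([(0,31,[(13,16)]),(1,0,[(2,2),(2,2)])],[5]),([(0,8,[(13,15),(2,2)])],[5,5,5,3,2])],[],false,1,0,[2]),
    (true,[([(0,31,[(13,16)]),(1,0,[(2,2),(2,2),(2,2)])],[5]),([(0,8,[(13,15),(2,2)])],[5,5,5,3,2])],[],false,1,0,[]),
    (true,[([(0,22,[(13,16),(3,3)])],[4,1,1,1]),([(0,3,[(13,15)])],[5,5,5,5,4])],[],false,1,0,[3]),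
    (true,[([(0,22,[(13,16),(3,3)]),(0,11,[(2,3)])],[4,1]),([(0,3,[(13,15)])],[5,5,5,5,3])],[],false,1,0,[2]),
    (true,[([(0,4,[(13,16),(3,3),(2,2)]),(0,11,[(2,3)])],[1,1]),([(0,3,[(13,15)])],[5,5,5,5,4])],[],false,1,0,[]),
    (true,[([(0,4,[(13,16),(4,5)])],[1,1,1,1]),([(0,3,[(13,15)])],[5,5,5,5,5])],[],false,1,0,[2]),
    (true,[([(0,4,[(13,16),(4,5)])],[2,1,1,1]),([(0,8,[(13,15),(2,2)])],[5,5,5,5,2])],[],false,1,0,[]),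
    (false,[([(0,42,[(13,16),(16,16)])],[8,6])],[11,8],false,2,1,[]),
    (true,[([(0,4,[(17,21)])],[1,1,1,1])],[10,9,8,7,6],false,5,6,[8,12,13]),
    (true,[([(0,4,[(17,21)]),(0,7,[(6,8)])],[])],[10,9,8,6,3],false,5,3,[8]),
    (true,[([(0,4,[(17,21)]),(0,7,[(6,8)])],[]),([(0,7,[(6,8)])],[4,4,3,3,3,2])],[9],false,1,0,[3]),
    (false,[([(0,4,[(17,21)])],[6,6,6,4]),([(0,7,[(6,8)]),(0,7,[(6,8)]),(0,11,[(2,3)])],[3])],[],false,1,0,[2]),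
    (true,[([(0,4,[(17,21)]),(0,0,[(6,8),(2,2)])],[]),([(0,7,[(6,8)]),(0,11,[(2,3)])],[4,4,3,3])],[9],false,1,0,[]),
    (true,[([(0,4,[(17,21)])],[2,2,2,2]),([(0,2,[(9,12)])],[5,5,5,5,4])],[],false,1,0,[5]),
    (true,[([(0,4,[(17,21)])],[5,5,4,3]),([(0,2,[(9,12)]),(1,2,[(2,5)])],[])],[],false,1,0,[4]),
    (true,[([(0,4,[(17,21)])],[5,5,4,3]),([(0,2,[(9,12)]),(1,2,[(2,5),(2,4)])],[])],[],false,1,0,[3]),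
    (true,[([(0,4,[(17,21)])],[5,5,4,3]),([(0,2,[(9,12)]),(1,2,[(2,5),(2,4),(2,3)])],[])],[],false,1,0,[2]),
    (true,[([(0,4,[(17,21)])],[5,5,4,3]),([(0,2,[(9,12)]),(1,2,[(2,5),(2,4),(2,3),(2,2)])],[])],[],false,1,0,[]),
    (false,[([(0,53,[(17,21),(13,13)])],[8,5])],[11,7],false,1,0,[]),
    (true,[([(0,23,[(22,28)])],[1,1,1])],[10,9,8,7],false,4,7,[6,8]),
    (true,[([(0,23,[(22,28)]),(0,1,[(5,6)])],[])],[10,9,7,5],false,4,3,[]),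
    (false,[([(0,23,[(22,28)]),(0,5,[(7,8)])],[7])],[9,7,6],false,2,1,[]),
    (false,[([(0,32,[(29,29)])],[8,6,5])],[9,8],false,1,0,[])])]

theorem cj10c_2_ok : runAllJ S43 R43 F43 28 cj10c_2 = true := by decide +kernel

/-- the minors -/
def G10c : List (List ℕ) := [
  [1,1,1,1,1,1,1,1,1,1,2,1,1,1,1,1,1,1,1,1], [1,1,1,1,1,1,1,1,1,2,1,1,1,1,1,1,1,1,1,1],
  [1,1,1,1,1,1,1,1,1,1,1,2,1,1,1,1,1,1,1,1], [1,1,1,1,1,1,1,1,2,1,1,1,1,1,1,1,1,1,1,1],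
  [1,1,1,1,1,1,1,1,1,1,1,1,2,1,1,1,1,1,1,1], [1,1,1,1,1,1,1,2,1,1,1,1,1,1,1,1,1,1,1,1],
  [1,1,1,1,1,1,1,1,1,1,1,1,1,2,1,1,1,1,1,1], [1,1,1,1,1,1,2,1,1,1,1,1,1,1,1,1,1,1,1,1],
  [1,1,1,1,1,1,1,1,1,1,1,1,1,1,2,1,1,1,1,1], [1,1,1,1,1,2,1,1,1,1,1,1,1,1,1,1,1,1,1,1],
  [1,1,1,1,1,1,1,1,1,1,1,1,1,1,1,2,1,1,1,1], [1,1,1,1,2,1,1,1,1,1,1,1,1,1,1,1,1,1,1,1],
  [1,1,1,1,1,1,1,1,1,1,1,1,1,1,1,1,2,1,1,1], [1,1,1,2,1,1,1,1,1,1,1,1,1,1,1,1,1,1,1,1],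
  [1,1,1,1,1,1,1,1,1,1,1,1,1,1,1,1,1,2,1,1], [1,1,2,1,1,1,1,1,1,1,1,1,1,1,1,1,1,1,1,1],
  [1,1,1,1,1,1,1,1,1,1,1,1,1,1,1,1,1,1,2,1], [1,2,1,1,1,1,1,1,1,1,1,1,1,1,1,1,1,1,1,1],
  [1,1,1,1,1,1,1,1,1,1,1,1,1,1,1,1,1,1,1,2], [2,1,1,1,1,1,1,1,1,1,1,1,1,1,1,1,1,1,1,1]]

noncomputable def T10c : BT :=
  .split 0 2 (.split 1 2 (.split 2 2 (.split 3 2 (.split 4 2 (.split 5 2 (.split 6 2 (.split 7 2
  (.split 8 2 (.split 9 2 (.split 10 2 (.split 11 2 (.split 12 2 (.split 13 2 (.split 14 2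
  (.split 15 2 (.split 16 2 (.split 17 2 (.split 18 2 (.split 19 2 .small (.minor 18)) (.minor
  16)) (.minor 14)) (.minor 12)) (.minor 10)) (.minor 8)) (.minor 6)) (.minor 4)) (.minor 2))
  (.minor 0)) (.minor 1)) (.minor 3)) (.minor 5)) (.minor 7)) (.minor 9)) (.minor 11)) (.minor
  13)) (.minor 15)) (.minor 17)) (.minor 19)

noncomputable def Rt10c : List (List ℕ) :=
  cj10c_0.map Prod.fst ++ cj10c_1.map Prod.fst ++ cj10c_2.map Prod.fst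

theorem Rt10c_ok : ∀ M ∈ Rt10c, KG (M : Multiset ℕ) 28 := by
  intro M h
  unfold Rt10c at h
  simp only [List.mem_append] at h
  rcases h with (h | h) | h
  · exact kg_of_allJ S43_ok R43_ok F43_ok cj10c_0_ok M h
  · exact kg_of_allJ S43_ok R43_ok F43_ok cj10c_1_ok M h
  · exact kg_of_allJ S43_ok R43_ok F43_ok cj10c_2_ok M h

def ks10c : List ℕ := [
  0, 1, 2, 3, 4, 5, 6, 7, 8, 9, 10, 11, 12, 13, 14, 15, 16, 17, 18, 19]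

theorem min10c_ok : minC 10 Rt10c G10c ks10c = true := by decide +kernel

theorem T10c_ok : btC 10 145 G10c T10c (List.replicate (2 * 10) 1)
    (List.replicate (2 * 10) 0) = true := by decide +kernel

theorem kg10c {M : Multiset ℕ} (hM : ∀ s ∈ M, 1 ≤ s)
    (hc : M.dedup.card = 10) (hn : 145 ≤ M.sum) : KG M 28 :=
  coverC ks10c T10c Rt10c_ok min10c_ok T10c_ok hM hc hn

end Pool.MP322
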