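import Pool.Agent.Lib.MP_322c5f_al.SG18
import Pool.Agent.Lib.MP_322c5f_al.SG20
import Pool.Agent.Lib.MP_322c5f_al.SG21
import Pool.Agent.Lib.MP_322c5f_al.SG22
import Pool.Agent.Lib.MP_322c5f_al.SG32
import Pool.Agent.Lib.MP_322c5f_al.SG33
import Pool.Agent.Lib.MP_322c5f_al.SG34
import Pool.Agent.Lib.MP_322c5f_al.SG37
import Pool.Agent.Lib.MP_322c5f_al.SG38
import Pool.Agent.Lib.MP_322c5f_al.SG39
import Pool.Agent.Lib.MP_322c5f_al.SG40
import Pool.Agent.Lib.MP_322c5f_al.SG41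
import Pool.Agent.Lib.MP_322c5f_al.SG42
import Pool.Agent.Lib.MP_322c5f_al.SG43

/-! (C), final part: depths reached by diagrams with at least `c` corners, in uniform form. -/

set_option autoImplicit false

open Equiv Finset Nat

namespace Pool.MP322

/-- diagrams with at least `c` corners and at least `n0` cells reach every depth below `K` -/
def SqK (c K n0 : ℕ) : Prop :=
  ∀ n, n0 ≤ n → ∀ lam mu : Y n, c ≤ mcor lam.1 → n - mu.1.rowLen 0 < K → Sq lam mu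

theorem SqK.mono {c K n0 c' K' n0' : ℕ} (h : SqK c K n0) (hc : c ≤ c') (hK : K' ≤ K)
    (hn : n0 ≤ n0') : SqK c' K' n0' := fun n h1 lam mu h2 h3 =>
  h n (hn.trans h1) lam mu (hc.trans h2) (lt_of_lt_of_le h3 hK)

namespace SK

theorem of_KG {n : ℕ} (lam mu : Y n) {K : ℕ} (h : KG (cols lam.1) K)
    (hmu : n - mu.1.rowLen 0 < K + 1) : Sq lam mu := by
  refine Sq_of_CC lam mu (h _ ?_ ((core_sum mu).trans (Nat.le_of_lt_succ hmu)))
  intro s hs
  exact (Multiset.mem_filter.1 hs).2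

theorem ddp {M : Multiset ℕ} (hM : ∀ s ∈ M, 1 ≤ s) {c K : ℕ} (h : KC c K)
    (hc : c ≤ M.dedup.card) : KG M K := by
  intro S h1 h2
  refine CC_le (Multiset.dedup_le M) ?_
  refine CC_nodup (Multiset.nodup_dedup _) (fun v hv => hM v (Multiset.mem_dedup.1 hv)) ?_
  exact CC_le (st_le hc) (h S h1 h2)

theorem le {M : Multiset ℕ} {K K' : ℕ} (h : KG M K) (hK : K' ≤ K) : KG M K' :=
  h.mono le_rfl hK

theorem sum {n : ℕ} (lam : Y n) : (cols lam.1).sum = n := by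
  rw [sum_cols, lam.2]

/-- what has to be proved for the diagrams with `c` distinct column heights -/
def D (c K n0 : ℕ) : Prop :=
  ∀ M : Multiset ℕ, (∀ s ∈ M, 1 ≤ s) → M.dedup.card = c → n0 ≤ M.sum → KG M K

/-- what has to be proved for the diagrams with at least `c` distinct column heights -/
def E (c K n0 : ℕ) : Prop :=
  ∀ M : Multiset ℕ, (∀ s ∈ M, 1 ≤ s) → c ≤ M.dedup.card → n0 ≤ M.sum → KG M K

theorem E_of_KC {c K : ℕ} (h : KC c K) : E c K 0 := fun _ hM hc _ => ddp hM h hc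

theorem E.mono {c K n0 c' K' n0' : ℕ} (h : E c K n0) (hc : c ≤ c') (hK : K' ≤ K)
    (hn : n0 ≤ n0') : E c' K' n0' := fun M hM h2 h3 => le (h M hM (hc.trans h2) (hn.trans h3)) hK

theorem E.step {c K n0 : ℕ} (h : E (c + 1) K n0) (hD : D c K n0) : E c K n0 := by
  intro M hM hc hn
  rcases Nat.lt_or_ge c M.dedup.card with h1 | h1
  · exact h M hM h1 hn
  · exact hD M hM (le_antisymm h1 hc) hn

theorem toSqK {c K n0 : ℕ} (h : E c K n0) : SqK c (K + 1) n0 := fun n hn lam mu hc hmu =>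
  of_KG lam mu (h (cols lam.1) (fun _ hs => cols_pos hs) (hc.trans (mcor_le lam.1))
    (by rw [sum]; exact hn)) hmu

end SK

open SK

theorem SqK_of_KC {c K : ℕ} (h : KC c K) : SqK c (K + 1) 0 := toSqK (E_of_KC h)

/-! ### four to ten corners, large diagrams -/

theorem sq4 : SqK 4 10 24 := toSqK (K := 9)
  (E.step (E.step ((E_of_KC kc_6).mono le_rfl le_rfl (by norm_num)) fun _ h1 h2 h3 => kg5c h1 h2 h3)
    fun _ h1 h2 h3 => kg4c h1 h2 h3)

theorem sq5 : SqK 5 15 36 := toSqK (K := 14)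
  (E.step (E.step (E.step ((E_of_KC kc_8).mono le_rfl (by norm_num) (by norm_num))
    fun _ h1 h2 h3 => kg7c h1 h2 h3) fun _ h1 h2 h3 => kg6c h1 h2 h3)
    fun _ h1 h2 h3 => kg5d h1 h2 h3)

theorem sq6 : SqK 6 17 43 := toSqK (K := 16)
  (E.step (E.step ((E_of_KC kc_8).mono le_rfl (by norm_num) (by norm_num))
    fun _ h1 h2 h3 => le (kg7d h1 h2 h3) (by norm_num)) fun _ h1 h2 h3 => kg6d h1 h2 h3)

theorem sq6' : SqK 6 19 66 := toSqK (K := 18)
  (E.step (E.step ((E_of_KC kc_8).mono le_rfl le_rfl (by norm_num))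
    fun _ h1 h2 h3 => le (kg7e h1 h2 h3) (by norm_num)) fun _ h1 h2 h3 => kg6e h1 h2 h3)

theorem sq7 : SqK 7 18 43 := toSqK (K := 17)
  (E.step ((E_of_KC kc_8).mono le_rfl (by norm_num) (by norm_num)) fun _ h1 h2 h3 => kg7d h1 h2 h3)

theorem sq7' : SqK 7 20 66 := toSqK (K := 19)
  (E.step (E.step ((E_of_KC kc_9).mono le_rfl (by norm_num) (by norm_num))
    fun _ h1 h2 h3 => kg8c h1 h2 h3) fun _ h1 h2 h3 => kg7e h1 h2 h3)

theorem sq7'' : SqK 7 22 91 := toSqK (K := 21)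
  (E.step (E.step ((E_of_KC kc_9).mono le_rfl (by norm_num) (by norm_num))
    fun _ h1 h2 h3 => kg8d h1 h2 h3) fun _ h1 h2 h3 => kg7f h1 h2 h3)

theorem sq8' : SqK 8 20 66 := toSqK (K := 19)
  (E.step ((E_of_KC kc_9).mono le_rfl (by norm_num) (by norm_num)) fun _ h1 h2 h3 => kg8c h1 h2 h3)

theorem sq8'' : SqK 8 22 91 := toSqK (K := 21)
  (E.step ((E_of_KC kc_9).mono le_rfl (by norm_num) (by norm_num)) fun _ h1 h2 h3 => kg8d h1 h2 h3)

theorem sq8''' : SqK 8 24 100 := toSqK (K := 23)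
  (E.step (E.step ((E_of_KC kc_10).mono le_rfl (by norm_num) (by norm_num))
    fun _ h1 h2 h3 => kg9c h1 h2 h3) fun _ h1 h2 h3 => kg8e h1 h2 h3)

theorem sq9' : SqK 9 24 100 := toSqK (K := 23)
  (E.step ((E_of_KC kc_10).mono le_rfl (by norm_num) (by norm_num)) fun _ h1 h2 h3 => kg9c h1 h2 h3)

theorem sq9'' : SqK 9 27 117 := toSqK (K := 26)
  (E.step ((E_of_KC kc_10).mono le_rfl (by norm_num) (by norm_num)) fun _ h1 h2 h3 => kg9d h1 h2 h3)

theorem sq10' : SqK 10 29 145 := toSqK (K := 28)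
  (E.step ((E_of_KC kc_11).mono le_rfl (by norm_num) (by norm_num)) fun _ h1 h2 h3 => kg10c h1 h2 h3)

/-! ### all diagrams with enough corners -/

theorem sq8 : SqK 8 19 0 := SqK_of_KC kc_8
theorem sq9 : SqK 9 23 0 := SqK_of_KC kc_9
theorem sq10 : SqK 10 28 0 := SqK_of_KC kc_10
theorem sq11 : SqK 11 34 0 := SqK_of_KC kc_11
theorem sq12 : SqK 12 40 0 := SqK_of_KC kc_12
theorem sq13 : SqK 13 46 0 := SqK_of_KC kc_13
theorem sq14 : SqK 14 53 0 := SqK_of_KC ki_14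
theorem sq15 : SqK 15 61 0 := SqK_of_KC ki_15
theorem sq16 : SqK 16 65 0 := SqK_of_KC ki_16
theorem sq17 : SqK 17 69 0 := SqK_of_KC ki_17
theorem sq18 : SqK 18 76 0 := SqK_of_KC ki_18
theorem sq19 : SqK 19 81 0 := SqK_of_KC ki_19
theorem sq20 : SqK 20 91 0 := SqK_of_KC ki_20
theorem sq21 : SqK 21 93 0 := SqK_of_KC kc_21
theorem sq22 : SqK 22 106 0 := SqK_of_KC ki_22
theorem sq23 : SqK 23 107 0 := SqK_of_KC kc_23
theorem sq24 : SqK 24 122 0 := SqK_of_KC kc_24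
theorem sq26 : SqK 26 138 0 := SqK_of_KC kc_26

theorem sq_fifth (c : ℕ) (hc : 26 ≤ c) : SqK c (c ^ 2 / 5 + 1) 0 :=
  SqK_of_KC (kc_fifth hc (Nat.mul_div_le _ _))

end Pool.MP322
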