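import Pool.Agent.Lib.MP_322c5f_al.SG4

/-! Semigroup property, part 5: products. -/

set_option autoImplicit false

open Equiv Finset Nat

namespace Pool.MP322

theorem occ_sum {n m N : ℕ} (e : Fin n ⊕ Fin m ≃ Fin N) (w : Fin N → ℕ) (r : ℕ) :
    occ w r = occ (fun i => w (e (Sum.inl i))) r + occ (fun j => w (e (Sum.inr j))) r := by
  classical
  unfold occ
  rw [Finset.card_filter, Finset.card_filter, Finset.card_filter,
    ← Fintype.sum_equiv e (fun s => if w (e s) = r then 1 else 0) _ (fun s => rfl),
    Fintype.sum_sum_type]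

theorem Ph_lin {n : ℕ} (lam : Y n) {ι : Type*} (s : Finset ι) (c : ι → ℝ)
    (v : ι → Tab ⊥ lam.1 n → ℝ) (w : Fin n → ℕ) :
    ∑ i ∈ s, c i * Ph lam (v i) w = Ph lam (fun x => ∑ i ∈ s, c i * v i x) w := by
  unfold Ph
  rw [Finset.sum_congr rfl fun i _ => by rw [Finset.mul_sum], Finset.sum_comm]
  refine Finset.sum_congr rfl fun x _ => ?_
  rw [Finset.sum_mul]
  exact Finset.sum_congr rfl fun i _ => by ring

section
variable {n m : ℕ} (lam : Y n) (al : Y m) (ka : Y (n + m))

theorem sp_prod0 (hka : ∀ r, ka.1.rowLen r = lam.1.rowLen r + al.1.rowLen r)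
    (e : Fin n ⊕ Fin m ≃ Fin (n + m)) :
    ∃ v, ∀ w : Fin (n + m) → ℕ, ph lam (cT lam) (fun i => w (e (Sum.inl i))) *
      ph al (cT al) (fun j => w (e (Sum.inr j))) = Ph ka v w := by
  classical
  set u : Fin (n + m) → ℕ := fun k =>
    Sum.elim (fun i => 2 * cc lam i) (fun j => 2 * cc al j + 1) (e.symm k) with hu
  have hul : ∀ i, u (e (Sum.inl i)) = 2 * cc lam i := by
    intro i
    rw [hu]
    simp only [Equiv.symm_apply_apply, Sum.elim_inl]
  have hur : ∀ j, u (e (Sum.inr j)) = 2 * cc al j + 1 := by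
    intro j
    rw [hu]
    simp only [Equiv.symm_apply_apply, Sum.elim_inr]
  have hoccl : ∀ d, occ u (2 * d) = occ (cc lam) d := by
    intro d
    rw [occ_sum e]
    have h1 : occ (fun i => u (e (Sum.inl i))) (2 * d) = occ (cc lam) d := by
      unfold occ
      congr 1
      ext i
      simp only [Finset.mem_filter, Finset.mem_univ, true_and, hul]
      omega
    have h2 : occ (fun j => u (e (Sum.inr j))) (2 * d) = 0 := by
      unfold occ
      rw [Finset.card_eq_zero, Finset.filter_eq_empty_iff]
      intro j _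
      show ¬ u (e (Sum.inr j)) = 2 * d
      rw [hur]
      omega
    rw [h1, h2, Nat.add_zero]
  have hoccr : ∀ d, occ u (2 * d + 1) = occ (cc al) d := by
    intro d
    rw [occ_sum e]
    have h1 : occ (fun i => u (e (Sum.inl i))) (2 * d + 1) = 0 := by
      unfold occ
      rw [Finset.card_eq_zero, Finset.filter_eq_empty_iff]
      intro j _
      show ¬ u (e (Sum.inl j)) = 2 * d + 1
      rw [hul]
      omega
    have h2 : occ (fun j => u (e (Sum.inr j))) (2 * d + 1) = occ (cc al) d := by
      unfold occ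
      congr 1
      ext i
      simp only [Finset.mem_filter, Finset.mem_univ, true_and, hur]
      omega
    rw [h1, h2, Nat.zero_add]
  have hct : Ctype ka.1 u := by
    intro r
    rw [hka, ← cc_ctype lam r, ← cc_ctype al r]
    have hinj1 : Function.Injective (fun c : ℕ => 2 * c) := fun a b h => by
      have h' : 2 * a = 2 * b := h
      omega
    have hinj2 : Function.Injective (fun c : ℕ => 2 * c + 1) := fun a b h => by
      have h' : 2 * a + 1 = 2 * b + 1 := h
      omega
    rw [← Finset.card_image_of_injective ((univ.image (cc lam)).filter _) hinj1,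
      ← Finset.card_image_of_injective ((univ.image (cc al)).filter _) hinj2,
      ← Finset.card_union_of_disjoint]
    · congr 1
      ext c
      rw [Finset.mem_filter, ← occ_pos, Finset.mem_union, Finset.mem_image, Finset.mem_image]
      constructor
      · rintro ⟨-, h2⟩
        rcases Nat.even_or_odd' c with ⟨d, hd | hd⟩
        · left
          rw [hd, hoccl] at h2
          exact ⟨d, Finset.mem_filter.2 ⟨occ_pos.1 (by omega), h2⟩, hd.symm⟩
        · right
          rw [hd, hoccr] at h2
          exact ⟨d, Finset.mem_filter.2 ⟨occ_pos.1 (by omega), h2⟩, hd.symm⟩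
      · rintro (⟨d, hd, rfl⟩ | ⟨d, hd, rfl⟩)
        · have h2 := (Finset.mem_filter.1 hd).2
          rw [hoccl]
          exact ⟨by omega, h2⟩
        · have h2 := (Finset.mem_filter.1 hd).2
          rw [hoccr]
          exact ⟨by omega, h2⟩
    · rw [Finset.disjoint_left]
      intro c hc hc'
      obtain ⟨a, -, ha⟩ := Finset.mem_image.1 hc
      obtain ⟨b, -, hb⟩ := Finset.mem_image.1 hc'
      omega
  set f : (Fin (n + m) → ℕ) → ℝ := fun w => ph lam (cT lam) (fun i => w (e (Sum.inl i))) *
      ph al (cT al) (fun j => w (e (Sum.inr j))) with hf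
  have hsup : Sup ka.1 f := by
    intro w hw r
    rw [hf] at hw
    have h1 : ph lam (cT lam) (fun i => w (e (Sum.inl i))) ≠ 0 := fun h => hw (by
      simp only [h, zero_mul])
    have h2 : ph al (cT al) (fun j => w (e (Sum.inr j))) ≠ 0 := fun h => hw (by
      simp only [h, mul_zero])
    rw [occ_sum e, hka, ph_sup lam _ _ h1 r, ph_sup al _ _ h2 r]
  have hanti : Anti u f := by
    intro a b hab huab w
    obtain ⟨a', rfl⟩ := e.surjective a
    obtain ⟨b', rfl⟩ := e.surjective b
    have hne : a' ≠ b' := fun h => hab (by rw [h])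
    have hsw : ∀ s, swap (e a') (e b') (e s) = e (swap a' b' s) := by
      intro s
      rw [swap_apply_def, swap_apply_def]
      by_cases h1 : s = a'
      · rw [if_pos h1, if_pos (by rw [h1])]
      · rw [if_neg h1, if_neg (fun h => h1 (e.injective h))]
        by_cases h2 : s = b'
        · rw [if_pos h2, if_pos (by rw [h2])]
        · rw [if_neg h2, if_neg (fun h => h2 (e.injective h))]
    rw [hf]
    simp only
    simp only [hsw]
    rcases a' with i | i <;> rcases b' with j | j
    · rw [hul, hul] at huab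
      have h1 : ∀ k, swap (Sum.inl i : Fin n ⊕ Fin m) (Sum.inl j) (Sum.inl k) =
          Sum.inl (swap i j k) := by
        intro k
        rw [swap_apply_def, swap_apply_def]
        split_ifs with h2 h3 h4 h5 h6 h7 <;> simp_all
      have h2 : ∀ k, swap (Sum.inl i : Fin n ⊕ Fin m) (Sum.inl j) (Sum.inr k) = Sum.inr k := by
        intro k
        rw [swap_apply_def, if_neg Sum.inr_ne_inl, if_neg Sum.inr_ne_inl]
      simp only [h1, h2]
      have h3 := g0_anti lam i j (fun h => hne (by rw [h])) (by omega)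
        (fun k => w (e (Sum.inl k)))
      rw [h3]
      ring
    · rw [hul, hur] at huab
      omega
    · rw [hul, hur] at huab
      omega
    · rw [hur, hur] at huab
      have h1 : ∀ k, swap (Sum.inr i : Fin n ⊕ Fin m) (Sum.inr j) (Sum.inr k) =
          Sum.inr (swap i j k) := by
        intro k
        rw [swap_apply_def, swap_apply_def]
        split_ifs with h2 h3 h4 h5 h6 h7 <;> simp_all
      have h2 : ∀ k, swap (Sum.inr i : Fin n ⊕ Fin m) (Sum.inr j) (Sum.inl k) = Sum.inl k := by
        intro k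
        rw [swap_apply_def, if_neg Sum.inl_ne_inr, if_neg Sum.inl_ne_inr]
      simp only [h1, h2]
      have h3 := g0_anti al i j (fun h => hne (by rw [h])) (by omega)
        (fun k => w (e (Sum.inr k)))
      rw [h3]
      ring
  obtain ⟨v, hv⟩ := sp_mem ka hct hanti hsup
  exact ⟨v, fun w => by rw [← hv w, hf]⟩

theorem sp_prod (hka : ∀ r, ka.1.rowLen r = lam.1.rowLen r + al.1.rowLen r)
    (e : Fin n ⊕ Fin m ≃ Fin (n + m)) (x : Tab ⊥ lam.1 n) (y : Tab ⊥ al.1 m) :
    ∃ v, ∀ w : Fin (n + m) → ℕ, ph lam x (fun i => w (e (Sum.inl i))) *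
      ph al y (fun j => w (e (Sum.inr j))) = Ph ka v w := by
  classical
  have h1 : ∀ p : Perm (Fin n) × Perm (Fin m), ∃ v, ∀ w : Fin (n + m) → ℕ,
      ph lam (cT lam) (fun i => w (e (Sum.inl (p.1 i)))) *
      ph al (cT al) (fun j => w (e (Sum.inr (p.2 j)))) = Ph ka v w := by
    intro p
    obtain ⟨v, hv⟩ := sp_prod0 lam al ka hka ((Equiv.sumCongr p.1 p.2).trans e)
    refine ⟨v, fun w => ?_⟩
    rw [← hv w]
    rfl
  choose v hv using h1
  refine ⟨fun z => ∑ p : Perm (Fin n) × Perm (Fin m),
    (fd lam / (n ! : ℝ) * rep ⊥ lam.1 n p.1 x (cT lam) *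
      (fd al / (m ! : ℝ) * rep ⊥ al.1 m p.2 y (cT al))) * v p z, fun w => ?_⟩
  rw [← Ph_lin, sp_gen lam x, sp_gen al y, Finset.sum_mul_sum, ← Finset.sum_product',
    Finset.univ_product_univ]
  refine Finset.sum_congr rfl fun p _ => ?_
  rw [← hv p w]
  ring

end

end Pool.MP322
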