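import Pool.Agent.Lib.MP_322c5f_al.SG5
import Pool.Agent.Lib.MP_322c5f_al.InvDim
import Pool.Agent.Lib.MP_322c5f_al.Kr

/-! Semigroup property of Kronecker coefficients, part 6: the polynomial argument and the theorem. -/

set_option autoImplicit false

open Equiv Finset Nat

namespace Pool.MP322

section words
variable {A : Type*} [Fintype A] [DecidableEq A]

/-- content of a word -/
noncomputable def cont {n : ℕ} (W : Fin n → A) : A →₀ ℕ := ∑ i, Finsupp.single (W i) 1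

theorem cont_apply {n : ℕ} (W : Fin n → A) (a : A) :
    cont W a = (univ.filter (fun i => W i = a)).card := by
  unfold cont
  rw [Finsupp.finsetSum_apply, Finset.card_filter]
  exact Finset.sum_congr rfl fun i _ => Finsupp.single_apply

theorem cont_eq {n : ℕ} {W V : Fin n → A} (h : cont W = cont V) :
    ∃ σ : Perm (Fin n), ∀ i, V (σ i) = W i :=
  sg_equiv W V fun r => by rw [← cont_apply, ← cont_apply, h]

/-- the word polynomial -/
noncomputable def wP {n : ℕ} (F : (Fin n → A) → ℝ) : MvPolynomial A ℝ :=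
  ∑ W : Fin n → A, MvPolynomial.C (F W) * ∏ i, MvPolynomial.X (W i)

theorem prod_X {n : ℕ} (W : Fin n → A) :
    ∏ i, (MvPolynomial.X (W i) : MvPolynomial A ℝ) = MvPolynomial.monomial (cont W) 1 := by
  unfold cont
  rw [MvPolynomial.monomial_sum_one]
  rfl

theorem wP_ne {n : ℕ} {F : (Fin n → A) → ℝ} (hF : ∀ (σ : Perm (Fin n)) W, F (fun i => W (σ i)) = F W)
    {V : Fin n → A} (hV : F V ≠ 0) : wP F ≠ 0 := by
  intro h0
  have h1 : MvPolynomial.coeff (cont V) (wP F) = 0 := by rw [h0, MvPolynomial.coeff_zero]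
  unfold wP at h1
  rw [MvPolynomial.coeff_sum] at h1
  have h2 : ∀ W : Fin n → A, MvPolynomial.coeff (cont V)
      (MvPolynomial.C (F W) * ∏ i, (MvPolynomial.X (W i) : MvPolynomial A ℝ)) =
      if cont W = cont V then F V else 0 := by
    intro W
    rw [MvPolynomial.coeff_C_mul, prod_X, MvPolynomial.coeff_monomial]
    by_cases h3 : cont W = cont V
    · rw [if_pos h3, if_pos h3, mul_one]
      obtain ⟨σ, hσ⟩ := cont_eq h3
      rw [← hF σ V]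
      congr 1
      funext i
      exact (hσ i).symm
    · rw [if_neg h3, if_neg h3, mul_zero]
  rw [Finset.sum_congr rfl fun W _ => h2 W, ← Finset.sum_filter, Finset.sum_const, nsmul_eq_mul] at h1
  rcases mul_eq_zero.1 h1 with h3 | h3
  · have h4 : (univ.filter (fun W : Fin n → A => cont W = cont V)).card = 0 := by exact_mod_cast h3
    rw [Finset.card_eq_zero, Finset.filter_eq_empty_iff] at h4
    exact h4 (Finset.mem_univ V) rfl
  · exact hV h3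

theorem wP_mul {n m N : ℕ} (F : (Fin n → A) → ℝ) (G : (Fin m → A) → ℝ)
    (e : Fin n ⊕ Fin m ≃ Fin N) :
    wP (fun W : Fin N → A => F (fun i => W (e (Sum.inl i))) * G (fun j => W (e (Sum.inr j)))) =
      wP F * wP G := by
  unfold wP
  rw [Finset.sum_mul_sum, ← Finset.sum_product', Finset.univ_product_univ]
  refine Fintype.sum_equiv ((e.arrowCongr (Equiv.refl A)).symm.trans
    (Equiv.sumArrowEquivProdArrow (Fin n) (Fin m) A)) _ _ fun W => ?_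
  have h1 : ∏ k, (MvPolynomial.X (W k) : MvPolynomial A ℝ) =
      (∏ i, MvPolynomial.X (W (e (Sum.inl i)))) * ∏ j, MvPolynomial.X (W (e (Sum.inr j))) := by
    rw [← Fintype.prod_equiv e (fun s => MvPolynomial.X (W (e s))) _ (fun s => rfl),
      Fintype.prod_sum_type]
  rw [h1, map_mul]
  show _ = MvPolynomial.C (F (fun i => W (e (Sum.inl i)))) * (∏ i, MvPolynomial.X (W (e (Sum.inl i)))) *
    (MvPolynomial.C (G (fun j => W (e (Sum.inr j)))) * ∏ j, MvPolynomial.X (W (e (Sum.inr j))))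
  ring

theorem wP_sum {n : ℕ} {ι : Type*} (s : Finset ι) (F : ι → (Fin n → A) → ℝ) :
    wP (fun W => ∑ i ∈ s, F i W) = ∑ i ∈ s, wP (F i) := by
  unfold wP
  rw [Finset.sum_comm]
  refine Finset.sum_congr rfl fun W _ => ?_
  rw [map_sum, Finset.sum_mul]

theorem word_ne {n m N : ℕ} {F : (Fin n → A) → ℝ} {G : (Fin m → A) → ℝ}
    (hF : ∀ (σ : Perm (Fin n)) W, F (fun i => W (σ i)) = F W)
    (hG : ∀ (σ : Perm (Fin m)) W, G (fun i => W (σ i)) = G W)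
    (hF0 : ∃ W, F W ≠ 0) (hG0 : ∃ W, G W ≠ 0) (e : Fin n ⊕ Fin m ≃ Fin N) :
    ∃ W : Fin N → A, ∑ π : Perm (Fin N), F (fun i => W (π (e (Sum.inl i)))) *
      G (fun j => W (π (e (Sum.inr j)))) ≠ 0 := by
  by_contra hcon
  push Not at hcon
  obtain ⟨V, hV⟩ := hF0
  obtain ⟨V', hV'⟩ := hG0
  have h1 : wP (fun W : Fin N → A => ∑ π : Perm (Fin N), F (fun i => W (π (e (Sum.inl i)))) *
      G (fun j => W (π (e (Sum.inr j))))) = 0 := by
    unfold wP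
    refine Finset.sum_eq_zero fun W _ => ?_
    simp only [hcon W, map_zero, zero_mul]
  rw [wP_sum] at h1
  have h2 : ∀ π : Perm (Fin N), wP (fun W : Fin N → A => F (fun i => W (π (e (Sum.inl i)))) *
      G (fun j => W (π (e (Sum.inr j))))) = wP F * wP G := fun π => wP_mul F G (e.trans π)
  rw [Finset.sum_congr rfl fun π _ => h2 π, Finset.sum_const, Finset.card_univ, nsmul_eq_mul] at h1
  rcases mul_eq_zero.1 h1 with h3 | h3
  · have h4 : (Fintype.card (Perm (Fin N)) : MvPolynomial A ℝ) ≠ 0 := by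
      rw [Nat.cast_ne_zero]
      exact Fintype.card_ne_zero
    exact h4 h3
  · rcases mul_eq_zero.1 h3 with h4 | h4
    · exact wP_ne hF hV h4
    · exact wP_ne hG hV' h4

end words

section triple
variable {n : ℕ} (lam mu nu : Y n)

/-- the triple tensor product -/
noncomputable def R3 : Perm (Fin n) →*
    Matrix ((Tab ⊥ lam.1 n × Tab ⊥ mu.1 n) × Tab ⊥ nu.1 n)
      ((Tab ⊥ lam.1 n × Tab ⊥ mu.1 n) × Tab ⊥ nu.1 n) ℝ :=
  kr (kr (rep ⊥ lam.1 n) (rep ⊥ mu.1 n)) (rep ⊥ nu.1 n)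

theorem R3_trace (σ : Perm (Fin n)) :
    (R3 lam mu nu σ).trace = chi lam σ * chi mu σ * chi nu σ := by
  unfold R3
  rw [kr_trace, kr_trace]
  rfl

theorem R3_pos_iff : (0 < ∑ σ : Perm (Fin n), chi lam σ * chi mu σ * chi nu σ) ↔
    ∃ t : (Tab ⊥ lam.1 n × Tab ⊥ mu.1 n) × Tab ⊥ nu.1 n → ℝ, t ≠ 0 ∧
      ∀ σ, (R3 lam mu nu σ).mulVec t = t := by
  have h1 := inv_dim (R3 lam mu nu)
  have hG : (0 : ℝ) < 1 / (Fintype.card (Perm (Fin n)) : ℝ) := by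
    have : 0 < Fintype.card (Perm (Fin n)) := Fintype.card_pos
    positivity
  rw [Finset.sum_congr rfl fun σ _ => R3_trace lam mu nu σ] at h1
  constructor
  · intro h2
    have h3 : (0 : ℝ) < (Module.finrank ℝ (invSub (R3 lam mu nu)) : ℝ) := by
      rw [h1]
      exact mul_pos hG h2
    have h4 : 0 < Module.finrank ℝ (invSub (R3 lam mu nu)) := by exact_mod_cast h3
    have h5 : (invSub (R3 lam mu nu)) ≠ ⊥ := by
      intro h6
      rw [h6, finrank_bot] at h4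
      exact lt_irrefl _ h4
    obtain ⟨t, ht, ht0⟩ := Submodule.exists_mem_ne_zero_of_ne_bot h5
    exact ⟨t, ht0, ht⟩
  · rintro ⟨t, ht0, ht⟩
    have h5 : (invSub (R3 lam mu nu)) ≠ ⊥ := by
      intro h6
      have h7 : t ∈ invSub (R3 lam mu nu) := ht
      rw [h6] at h7
      exact ht0 h7
    have h4 : 0 < Module.finrank ℝ (invSub (R3 lam mu nu)) := by
      rw [Nat.pos_iff_ne_zero]
      intro h6
      exact h5 (Submodule.finrank_eq_zero.1 h6)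
    have h3 : (0 : ℝ) < (Module.finrank ℝ (invSub (R3 lam mu nu)) : ℝ) := by exact_mod_cast h4
    rw [h1] at h3
    exact pos_of_mul_pos_right h3 hG.le

/-- the triple products of word functions -/
noncomputable def ph3 (x : (Tab ⊥ lam.1 n × Tab ⊥ mu.1 n) × Tab ⊥ nu.1 n)
    (w1 w2 w3 : Fin n → ℕ) : ℝ := ph lam x.1.1 w1 * ph mu x.1.2 w2 * ph nu x.2 w3

noncomputable def Ph3 (t : (Tab ⊥ lam.1 n × Tab ⊥ mu.1 n) × Tab ⊥ nu.1 n → ℝ)
    (w1 w2 w3 : Fin n → ℕ) : ℝ := ∑ x, t x * ph3 lam mu nu x w1 w2 w3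

theorem ph3_equiv (σ : Perm (Fin n)) (x : (Tab ⊥ lam.1 n × Tab ⊥ mu.1 n) × Tab ⊥ nu.1 n)
    (w1 w2 w3 : Fin n → ℕ) :
    ph3 lam mu nu x (fun i => w1 (σ i)) (fun i => w2 (σ i)) (fun i => w3 (σ i)) =
      ∑ y, R3 lam mu nu σ y x * ph3 lam mu nu y w1 w2 w3 := by
  unfold ph3 R3
  rw [ph_equiv, ph_equiv, ph_equiv, Fintype.sum_prod_type, Finset.sum_mul_sum,
    ← Finset.sum_product', Finset.univ_product_univ, Finset.sum_mul_sum]
  refine Finset.sum_congr rfl fun y _ => ?_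
  refine Finset.sum_congr rfl fun z _ => ?_
  rw [kr_apply, kr_apply]
  ring

theorem Ph3_equiv (σ : Perm (Fin n)) (t : (Tab ⊥ lam.1 n × Tab ⊥ mu.1 n) × Tab ⊥ nu.1 n → ℝ)
    (w1 w2 w3 : Fin n → ℕ) :
    Ph3 lam mu nu t (fun i => w1 (σ i)) (fun i => w2 (σ i)) (fun i => w3 (σ i)) =
      Ph3 lam mu nu ((R3 lam mu nu σ).mulVec t) w1 w2 w3 := by
  unfold Ph3
  rw [Finset.sum_congr rfl fun x _ => by rw [ph3_equiv, Finset.mul_sum], Finset.sum_comm]
  refine Finset.sum_congr rfl fun y _ => ?_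
  unfold Matrix.mulVec dotProduct
  rw [Finset.sum_mul]
  exact Finset.sum_congr rfl fun x _ => by ring

theorem Ph3_inj {t : (Tab ⊥ lam.1 n × Tab ⊥ mu.1 n) × Tab ⊥ nu.1 n → ℝ}
    (h : ∀ w1 w2 w3, Ph3 lam mu nu t w1 w2 w3 = 0) : t = 0 := by
  have h1 : ∀ w2 w3, (fun x => ∑ y, (∑ z, t ((x, y), z) * ph nu z w3) * ph mu y w2) = 0 := by
    intro w2 w3
    refine Ph_inj lam fun w1 => ?_
    rw [← h w1 w2 w3]
    unfold Ph Ph3 ph3
    rw [Fintype.sum_prod_type, Fintype.sum_prod_type]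
    refine Finset.sum_congr rfl fun x _ => ?_
    rw [Finset.sum_mul]
    refine Finset.sum_congr rfl fun y _ => ?_
    rw [Finset.sum_mul, Finset.sum_mul]
    exact Finset.sum_congr rfl fun z _ => by ring
  have h2 : ∀ x w3, (fun y => ∑ z, t ((x, y), z) * ph nu z w3) = 0 := by
    intro x w3
    refine Ph_inj mu fun w2 => ?_
    exact congrFun (h1 w2 w3) x
  have h3 : ∀ x y, (fun z => t ((x, y), z)) = 0 := by
    intro x y
    refine Ph_inj nu fun w3 => ?_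
    exact congrFun (h2 x w3) y
  funext p
  exact congrFun (h3 p.1.1 p.1.2) p.2

end triple

theorem Ph3_prod {n m : ℕ} (lam mu nu : Y n) (al be ga : Y m) (ka rh ta : Y (n + m))
    (h1 : ∀ r, ka.1.rowLen r = lam.1.rowLen r + al.1.rowLen r)
    (h2 : ∀ r, rh.1.rowLen r = mu.1.rowLen r + be.1.rowLen r)
    (h3 : ∀ r, ta.1.rowLen r = nu.1.rowLen r + ga.1.rowLen r)
    (t : (Tab ⊥ lam.1 n × Tab ⊥ mu.1 n) × Tab ⊥ nu.1 n → ℝ)
    (s : (Tab ⊥ al.1 m × Tab ⊥ be.1 m) × Tab ⊥ ga.1 m → ℝ)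
    (e : Fin n ⊕ Fin m ≃ Fin (n + m)) :
    ∃ T : (Tab ⊥ ka.1 (n + m) × Tab ⊥ rh.1 (n + m)) × Tab ⊥ ta.1 (n + m) → ℝ,
      ∀ w1 w2 w3 : Fin (n + m) → ℕ,
        Ph3 lam mu nu t (fun i => w1 (e (Sum.inl i))) (fun i => w2 (e (Sum.inl i)))
          (fun i => w3 (e (Sum.inl i))) *
        Ph3 al be ga s (fun i => w1 (e (Sum.inr i))) (fun i => w2 (e (Sum.inr i)))
          (fun i => w3 (e (Sum.inr i))) = Ph3 ka rh ta T w1 w2 w3 := by
  choose v1 hv1 using sp_prod lam al ka h1 e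
  choose v2 hv2 using sp_prod mu be rh h2 e
  choose v3 hv3 using sp_prod nu ga ta h3 e
  refine ⟨fun z => ∑ x, ∑ y, t x * s y * (v1 x.1.1 y.1.1 z.1.1 * v2 x.1.2 y.1.2 z.1.2 *
    v3 x.2 y.2 z.2), fun w1 w2 w3 => ?_⟩
  have h4 : Ph3 ka rh ta (fun z => ∑ x, ∑ y, t x * s y * (v1 x.1.1 y.1.1 z.1.1 *
      v2 x.1.2 y.1.2 z.1.2 * v3 x.2 y.2 z.2)) w1 w2 w3 = ∑ x, ∑ y, ∑ z,
      (t x * s y * (v1 x.1.1 y.1.1 z.1.1 * v2 x.1.2 y.1.2 z.1.2 * v3 x.2 y.2 z.2)) *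
        ph3 ka rh ta z w1 w2 w3 := by
    unfold Ph3
    simp only [Finset.sum_mul]
    rw [Finset.sum_comm]
    refine Finset.sum_congr rfl fun x _ => ?_
    rw [Finset.sum_comm]
  rw [h4]
  unfold Ph3
  rw [Finset.sum_mul_sum]
  refine Finset.sum_congr rfl fun x _ => ?_
  refine Finset.sum_congr rfl fun y _ => ?_
  have h5 : ph3 lam mu nu x (fun i => w1 (e (Sum.inl i))) (fun i => w2 (e (Sum.inl i)))
      (fun i => w3 (e (Sum.inl i))) * ph3 al be ga y (fun i => w1 (e (Sum.inr i)))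
      (fun i => w2 (e (Sum.inr i))) (fun i => w3 (e (Sum.inr i))) =
      Ph ka (v1 x.1.1 y.1.1) w1 * Ph rh (v2 x.1.2 y.1.2) w2 * Ph ta (v3 x.2 y.2) w3 := by
    rw [← hv1, ← hv2, ← hv3]
    unfold ph3
    ring
  have h6 : Ph ka (v1 x.1.1 y.1.1) w1 * Ph rh (v2 x.1.2 y.1.2) w2 * Ph ta (v3 x.2 y.2) w3 =
      ∑ z : (Tab ⊥ ka.1 (n + m) × Tab ⊥ rh.1 (n + m)) × Tab ⊥ ta.1 (n + m),
        (v1 x.1.1 y.1.1 z.1.1 * v2 x.1.2 y.1.2 z.1.2 * v3 x.2 y.2 z.2) *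
          ph3 ka rh ta z w1 w2 w3 := by
    unfold Ph ph3
    rw [Fintype.sum_prod_type, Finset.sum_mul_sum, ← Finset.sum_product',
      Finset.univ_product_univ, Finset.sum_mul_sum]
    refine Finset.sum_congr rfl fun a _ => ?_
    refine Finset.sum_congr rfl fun b _ => ?_
    ring
  have h7 : t x * ph3 lam mu nu x (fun i => w1 (e (Sum.inl i))) (fun i => w2 (e (Sum.inl i)))
      (fun i => w3 (e (Sum.inl i))) * (s y * ph3 al be ga y (fun i => w1 (e (Sum.inr i)))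
      (fun i => w2 (e (Sum.inr i))) (fun i => w3 (e (Sum.inr i)))) = t x * s y *
      (ph3 lam mu nu x (fun i => w1 (e (Sum.inl i))) (fun i => w2 (e (Sum.inl i)))
      (fun i => w3 (e (Sum.inl i))) * ph3 al be ga y (fun i => w1 (e (Sum.inr i)))
      (fun i => w2 (e (Sum.inr i))) (fun i => w3 (e (Sum.inr i)))) := by ring
  rw [h7, h5, h6, Finset.mul_sum]
  exact Finset.sum_congr rfl fun z _ => by ring

/-- symmetrised product -/
noncomputable def HH {n m N : ℕ} (e : Fin n ⊕ Fin m ≃ Fin N)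
    (P : (Fin n → ℕ) → (Fin n → ℕ) → (Fin n → ℕ) → ℝ)
    (Q : (Fin m → ℕ) → (Fin m → ℕ) → (Fin m → ℕ) → ℝ) (w1 w2 w3 : Fin N → ℕ) : ℝ :=
  ∑ π : Perm (Fin N), P (fun i => w1 (π (e (Sum.inl i)))) (fun i => w2 (π (e (Sum.inl i))))
      (fun i => w3 (π (e (Sum.inl i)))) *
    Q (fun i => w1 (π (e (Sum.inr i)))) (fun i => w2 (π (e (Sum.inr i))))
      (fun i => w3 (π (e (Sum.inr i))))

theorem HH_equiv {n m N : ℕ} (e : Fin n ⊕ Fin m ≃ Fin N)
    (P : (Fin n → ℕ) → (Fin n → ℕ) → (Fin n → ℕ) → ℝ)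
    (Q : (Fin m → ℕ) → (Fin m → ℕ) → (Fin m → ℕ) → ℝ) (w1 w2 w3 : Fin N → ℕ)
    (σ : Perm (Fin N)) :
    HH e P Q (fun k => w1 (σ k)) (fun k => w2 (σ k)) (fun k => w3 (σ k)) = HH e P Q w1 w2 w3 := by
  unfold HH
  refine Fintype.sum_equiv (Equiv.mulLeft σ) _ _ fun π => ?_
  simp only [Equiv.coe_mulLeft, Perm.mul_apply]

/-- the symmetrised product of two nonzero symmetric functions is not zero -/
theorem HH_ne {n m N : ℕ} (e : Fin n ⊕ Fin m ≃ Fin N)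
    (P : (Fin n → ℕ) → (Fin n → ℕ) → (Fin n → ℕ) → ℝ)
    (Q : (Fin m → ℕ) → (Fin m → ℕ) → (Fin m → ℕ) → ℝ)
    (hP : ∀ (σ : Perm (Fin n)) w1 w2 w3, P (fun i => w1 (σ i)) (fun i => w2 (σ i))
      (fun i => w3 (σ i)) = P w1 w2 w3)
    (hQ : ∀ (σ : Perm (Fin m)) w1 w2 w3, Q (fun i => w1 (σ i)) (fun i => w2 (σ i))
      (fun i => w3 (σ i)) = Q w1 w2 w3)
    {w1 w2 w3 : Fin n → ℕ} (hw : P w1 w2 w3 ≠ 0) {v1 v2 v3 : Fin m → ℕ} (hv : Q v1 v2 v3 ≠ 0) :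
    ∃ u1 u2 u3, HH e P Q u1 u2 u3 ≠ 0 := by
  classical
  set K : ℕ := ∑ i, (w1 i + w2 i + w3 i) + ∑ j, (v1 j + v2 j + v3 j) + 1 with hK
  have hKw : ∀ i, w1 i < K ∧ w2 i < K ∧ w3 i < K := by
    intro i
    have h4 : w1 i + w2 i + w3 i ≤ ∑ i, (w1 i + w2 i + w3 i) :=
      Finset.single_le_sum (f := fun i => w1 i + w2 i + w3 i) (fun i _ => Nat.zero_le _)
      (Finset.mem_univ i)
    refine ⟨?_, ?_, ?_⟩ <;> omega
  have hKv : ∀ i, v1 i < K ∧ v2 i < K ∧ v3 i < K := by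
    intro i
    have h4 : v1 i + v2 i + v3 i ≤ ∑ i, (v1 i + v2 i + v3 i) :=
      Finset.single_le_sum (f := fun i => v1 i + v2 i + v3 i) (fun i _ => Nat.zero_le _)
      (Finset.mem_univ i)
    refine ⟨?_, ?_, ?_⟩ <;> omega
  obtain ⟨W, hW⟩ := word_ne (A := Fin K × Fin K × Fin K)
    (F := fun W => P (fun i => (W i).1.val) (fun i => (W i).2.1.val) (fun i => (W i).2.2.val))
    (G := fun W => Q (fun i => (W i).1.val) (fun i => (W i).2.1.val) (fun i => (W i).2.2.val))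
    (fun σ W => hP σ (fun i => (W i).1.val) (fun i => (W i).2.1.val) (fun i => (W i).2.2.val))
    (fun σ W => hQ σ (fun i => (W i).1.val) (fun i => (W i).2.1.val) (fun i => (W i).2.2.val))
    ⟨fun i => (⟨w1 i, (hKw i).1⟩, ⟨w2 i, (hKw i).2.1⟩, ⟨w3 i, (hKw i).2.2⟩), hw⟩
    ⟨fun i => (⟨v1 i, (hKv i).1⟩, ⟨v2 i, (hKv i).2.1⟩, ⟨v3 i, (hKv i).2.2⟩), hv⟩ e
  exact ⟨fun i => (W i).1.val, fun i => (W i).2.1.val, fun i => (W i).2.2.val, hW⟩

/-- SEMIGROUP PROPERTY of the Kronecker coefficients (rows are added). -/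
theorem kron_semigroup {n m : ℕ} (lam mu nu : Y n) (al be ga : Y m) (ka rh ta : Y (n + m))
    (h1 : ∀ r, ka.1.rowLen r = lam.1.rowLen r + al.1.rowLen r)
    (h2 : ∀ r, rh.1.rowLen r = mu.1.rowLen r + be.1.rowLen r)
    (h3 : ∀ r, ta.1.rowLen r = nu.1.rowLen r + ga.1.rowLen r)
    (hp : 0 < ∑ σ : Perm (Fin n), chi lam σ * chi mu σ * chi nu σ)
    (hq : 0 < ∑ σ : Perm (Fin m), chi al σ * chi be σ * chi ga σ) :
    0 < ∑ σ : Perm (Fin (n + m)), chi ka σ * chi rh σ * chi ta σ := by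
  classical
  obtain ⟨t, ht0, ht⟩ := (R3_pos_iff lam mu nu).1 hp
  obtain ⟨s, hs0, hs⟩ := (R3_pos_iff al be ga).1 hq
  have hw : ∃ w1 w2 w3, Ph3 lam mu nu t w1 w2 w3 ≠ 0 := by
    by_contra hcon
    push Not at hcon
    exact ht0 (Ph3_inj lam mu nu hcon)
  have hv : ∃ w1 w2 w3, Ph3 al be ga s w1 w2 w3 ≠ 0 := by
    by_contra hcon
    push Not at hcon
    exact hs0 (Ph3_inj al be ga hcon)
  obtain ⟨w1, w2, w3, hw⟩ := hw
  obtain ⟨v1, v2, v3, hv⟩ := hv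
  have hP : ∀ (σ : Perm (Fin n)) w1 w2 w3, Ph3 lam mu nu t (fun i => w1 (σ i))
      (fun i => w2 (σ i)) (fun i => w3 (σ i)) = Ph3 lam mu nu t w1 w2 w3 := by
    intro σ w1 w2 w3
    rw [Ph3_equiv, ht]
  have hQ : ∀ (σ : Perm (Fin m)) w1 w2 w3, Ph3 al be ga s (fun i => w1 (σ i))
      (fun i => w2 (σ i)) (fun i => w3 (σ i)) = Ph3 al be ga s w1 w2 w3 := by
    intro σ w1 w2 w3
    rw [Ph3_equiv, hs]
  obtain ⟨e, -⟩ : ∃ e : Fin n ⊕ Fin m ≃ Fin (n + m), True := ⟨finSumFinEquiv, trivial⟩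
  obtain ⟨u1, u2, u3, hu⟩ := HH_ne e (Ph3 lam mu nu t) (Ph3 al be ga s) hP hQ hw hv
  have h4 : ∀ π : Perm (Fin (n + m)), ∃ T : (Tab ⊥ ka.1 (n + m) × Tab ⊥ rh.1 (n + m)) ×
      Tab ⊥ ta.1 (n + m) → ℝ, ∀ w1 w2 w3 : Fin (n + m) → ℕ,
        Ph3 lam mu nu t (fun i => w1 (π (e (Sum.inl i))))
          (fun i => w2 (π (e (Sum.inl i)))) (fun i => w3 (π (e (Sum.inl i)))) *
        Ph3 al be ga s (fun i => w1 (π (e (Sum.inr i))))
          (fun i => w2 (π (e (Sum.inr i))))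
          (fun i => w3 (π (e (Sum.inr i)))) = Ph3 ka rh ta T w1 w2 w3 := fun π =>
    Ph3_prod lam mu nu al be ga ka rh ta h1 h2 h3 t s (e.trans π)
  choose T hT using h4
  have h5 : ∀ w1 w2 w3, Ph3 ka rh ta (fun z => ∑ π, T π z) w1 w2 w3 =
      HH e (Ph3 lam mu nu t) (Ph3 al be ga s) w1 w2 w3 := by
    intro w1 w2 w3
    unfold HH
    rw [Finset.sum_congr rfl fun π _ => hT π w1 w2 w3]
    unfold Ph3
    rw [Finset.sum_comm]
    exact Finset.sum_congr rfl fun z _ => Finset.sum_mul _ _ _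
  refine (R3_pos_iff ka rh ta).2 ⟨fun z => ∑ π, T π z, ?_, ?_⟩
  · intro h6
    apply hu
    rw [← h5, h6]
    unfold Ph3
    exact Finset.sum_eq_zero fun z _ => by rw [Pi.zero_apply, zero_mul]
  · intro σ
    rw [← sub_eq_zero]
    refine Ph3_inj ka rh ta fun w1 w2 w3 => ?_
    have h6 : Ph3 ka rh ta ((R3 ka rh ta σ).mulVec (fun z => ∑ π, T π z) - fun z => ∑ π, T π z)
        w1 w2 w3 = Ph3 ka rh ta ((R3 ka rh ta σ).mulVec (fun z => ∑ π, T π z)) w1 w2 w3 -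
        Ph3 ka rh ta (fun z => ∑ π, T π z) w1 w2 w3 := by
      unfold Ph3
      rw [← Finset.sum_sub_distrib]
      exact Finset.sum_congr rfl fun z _ => by rw [Pi.sub_apply, sub_mul]
    rw [h6, ← Ph3_equiv, h5, h5, HH_equiv, sub_self]

end Pool.MP322
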