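import Pool.Agent.Lib.MP_322c5f_al.SG6
import Pool.Agent.Lib.MP_322c5f_al.Row

/-! Semigroup property, part 7: sum and union of diagrams, squares. -/

set_option autoImplicit false

open Equiv Finset Nat

namespace Pool.MP322

/-- the diagram whose row lengths are the sums of the row lengths -/
def addD (lam al : YoungDiagram) : YoungDiagram where
  cells := ((range (lam.colLen 0 + al.colLen 0)) ×ˢ (range (lam.rowLen 0 + al.rowLen 0))).filter
    (fun c => c.2 < lam.rowLen c.1 + al.rowLen c.1)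
  isLowerSet := by
    intro a b hab ha
    obtain ⟨hab1, hab2⟩ := Prod.mk_le_mk.1 hab
    simp only [Finset.coe_filter, Finset.mem_product, Finset.mem_range, Set.mem_ofPred_eq] at ha ⊢
    have h1 := lam.rowLen_anti b.1 a.1 hab1
    have h2 := al.rowLen_anti b.1 a.1 hab1
    refine ⟨⟨?_, ?_⟩, ?_⟩ <;> omega

theorem mem_addD {lam al : YoungDiagram} {c : ℕ × ℕ} :
    c ∈ addD lam al ↔ c.2 < lam.rowLen c.1 + al.rowLen c.1 := by
  rw [← YoungDiagram.mem_cells]
  simp only [addD, Finset.mem_filter, Finset.mem_product, Finset.mem_range]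
  constructor
  · exact fun h => h.2
  · intro h
    refine ⟨⟨?_, ?_⟩, h⟩
    · rcases Nat.eq_zero_or_pos (lam.rowLen c.1) with h0 | h0
      · have h1 : 0 < al.rowLen c.1 := by omega
        rw [← YoungDiagram.mem_iff_lt_rowLen, YoungDiagram.mem_iff_lt_colLen] at h1
        omega
      · have h1 : 0 < lam.rowLen c.1 := h0
        rw [← YoungDiagram.mem_iff_lt_rowLen, YoungDiagram.mem_iff_lt_colLen] at h1
        omega
    · have h1 := lam.rowLen_anti 0 c.1 (Nat.zero_le _)
      have h2 := al.rowLen_anti 0 c.1 (Nat.zero_le _)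
      omega

theorem rowLen_addD (lam al : YoungDiagram) (r : ℕ) :
    (addD lam al).rowLen r = lam.rowLen r + al.rowLen r := by
  have h : ∀ c, c < (addD lam al).rowLen r ↔ c < lam.rowLen r + al.rowLen r := by
    intro c
    rw [← YoungDiagram.mem_iff_lt_rowLen, mem_addD]
  have h1 := h (lam.rowLen r + al.rowLen r)
  have h2 := h ((addD lam al).rowLen r)
  omega

theorem card_eq_sum_rowLen (lam : YoungDiagram) (R : ℕ) (hR : lam.colLen 0 ≤ R) :
    lam.card = ∑ r ∈ range R, lam.rowLen r := by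
  unfold YoungDiagram.card
  rw [Finset.card_eq_sum_card_fiberwise (f := Prod.fst) (t := range R)]
  · refine Finset.sum_congr rfl fun r _ => ?_
    rw [YoungDiagram.rowLen_eq_card]
    rfl
  · intro c hc
    have h1 : c ∈ lam := (YoungDiagram.mem_cells _).1 (Finset.mem_coe.1 hc)
    have h2 : (c.1, 0) ∈ lam := lam.up_left_mem le_rfl (Nat.zero_le _) h1
    rw [YoungDiagram.mem_iff_lt_colLen] at h2
    exact Finset.mem_coe.2 (Finset.mem_range.2 (lt_of_lt_of_le h2 hR))

theorem card_addD (lam al : YoungDiagram) : (addD lam al).card = lam.card + al.card := by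
  set R := lam.colLen 0 + al.colLen 0 + (addD lam al).colLen 0 with hR
  rw [card_eq_sum_rowLen lam R (by omega), card_eq_sum_rowLen al R (by omega),
    card_eq_sum_rowLen (addD lam al) R (by omega), ← Finset.sum_add_distrib]
  exact Finset.sum_congr rfl fun r _ => rowLen_addD _ _ _

/-- row lengths added -/
def Y.add {n m : ℕ} (lam : Y n) (al : Y m) : Y (n + m) :=
  ⟨addD lam.1 al.1, by rw [card_addD, lam.2, al.2]⟩

theorem Y.rowLen_add {n m : ℕ} (lam : Y n) (al : Y m) (r : ℕ) :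
    (lam.add al).1.rowLen r = lam.1.rowLen r + al.1.rowLen r := rowLen_addD _ _ _

/-- rows united (column lengths added) -/
def Y.uni {n m : ℕ} (lam : Y n) (al : Y m) : Y (n + m) := (lam.tr.add al.tr).tr

theorem Y.colLen_uni {n m : ℕ} (lam : Y n) (al : Y m) (c : ℕ) :
    (lam.uni al).1.colLen c = lam.1.colLen c + al.1.colLen c := by
  have h : (lam.uni al).1 = (lam.tr.add al.tr).1.transpose := rfl
  rw [h, YoungDiagram.colLen_transpose, Y.rowLen_add]
  have h1 : lam.tr.1 = lam.1.transpose := rfl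
  have h2 : al.tr.1 = al.1.transpose := rfl
  rw [h1, h2, YoungDiagram.rowLen_transpose, YoungDiagram.rowLen_transpose]

/-- `mu` occurs in the square of `lam` -/
def Sq {n : ℕ} (lam mu : Y n) : Prop := 0 < ∑ σ : Perm (Fin n), chi lam σ ^ 2 * chi mu σ

theorem Sq_iff {n : ℕ} (lam mu : Y n) :
    Sq lam mu ↔ 0 < ∑ σ : Perm (Fin n), chi lam σ * chi lam σ * chi mu σ := by
  unfold Sq
  simp only [sq]

/-- SEMIGROUP for squares. -/
theorem Sq_add {n m : ℕ} {lam mu : Y n} {al be : Y m} (h1 : Sq lam mu) (h2 : Sq al be) :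
    Sq (lam.add al) (mu.add be) := by
  rw [Sq_iff] at h1 h2 ⊢
  exact kron_semigroup lam lam mu al al be _ _ _ (Y.rowLen_add _ _) (Y.rowLen_add _ _)
    (Y.rowLen_add _ _) h1 h2

theorem Sq_tr {n : ℕ} (lam mu : Y n) : Sq lam.tr mu ↔ Sq lam mu := by
  unfold Sq
  have h : ∀ σ : Perm (Fin n), chi lam.tr σ ^ 2 = chi lam σ ^ 2 := by
    intro σ
    rw [chi_tr, mul_pow]
    have hs : ((Perm.sign σ : ℤ) : ℝ) ^ 2 = 1 := by
      rcases Int.units_eq_one_or (Perm.sign σ) with h | h <;> rw [h] <;> norm_num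
    rw [hs, one_mul]
  simp only [h]

/-- rows united for the square, added for the constituent -/
theorem Sq_uni {n m : ℕ} {lam mu : Y n} {al be : Y m} (h1 : Sq lam mu) (h2 : Sq al be) :
    Sq (lam.uni al) (mu.add be) := by
  unfold Y.uni
  rw [Sq_tr]
  exact Sq_add ((Sq_tr lam mu).2 h1) ((Sq_tr al be).2 h2)

/-- one-row diagrams occur in every square -/
theorem Sq_row {n : ℕ} (lam mu : Y n) (hmu : mu.1.rowLen 0 = n) : Sq lam mu := by
  classical
  rw [Sq_iff, R3_pos_iff]
  obtain ⟨v, hv0, hv⟩ := exists_fixed mu (le_of_eq hmu.symm)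
  have hv' : ∀ σ : Perm (Fin n), (rep ⊥ mu.1 n σ).mulVec v = v := by
    intro σ
    exact hv σ (fun i hi => absurd i.2 (by omega))
  obtain ⟨t0⟩ := tab_nonempty lam
  obtain ⟨z, hz⟩ := Function.ne_iff.1 hv0
  refine ⟨fun p => (if p.1.1 = p.1.2 then 1 else 0) * v p.2, ?_, ?_⟩
  · intro h0
    have h1 := congrFun h0 ((t0, t0), z)
    simp only [if_true, one_mul, Pi.zero_apply] at h1
    exact hz h1
  · intro σ
    funext p
    have h1 : ∀ q : (Tab ⊥ lam.1 n × Tab ⊥ lam.1 n) × Tab ⊥ mu.1 n, R3 lam lam mu σ p q *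
        ((if q.1.1 = q.1.2 then 1 else 0) * v q.2) =
        (rep ⊥ lam.1 n σ p.1.1 q.1.1 * rep ⊥ lam.1 n σ p.1.2 q.1.2 *
          (if q.1.1 = q.1.2 then 1 else 0)) * (rep ⊥ mu.1 n σ p.2 q.2 * v q.2) := by
      intro q
      unfold R3
      rw [kr_apply, kr_apply]
      ring
    unfold Matrix.mulVec dotProduct
    rw [Finset.sum_congr rfl fun q _ => h1 q, Fintype.sum_prod_type]
    have h2 : ∀ ab : Tab ⊥ lam.1 n × Tab ⊥ lam.1 n, ∑ c : Tab ⊥ mu.1 n,
        (rep ⊥ lam.1 n σ p.1.1 ab.1 * rep ⊥ lam.1 n σ p.1.2 ab.2 *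
          (if ab.1 = ab.2 then 1 else 0)) * (rep ⊥ mu.1 n σ p.2 c * v c) =
        (rep ⊥ lam.1 n σ p.1.1 ab.1 * rep ⊥ lam.1 n σ p.1.2 ab.2 *
          (if ab.1 = ab.2 then 1 else 0)) * v p.2 := by
      intro ab
      rw [← Finset.mul_sum]
      congr 1
      exact congrFun (hv' σ) p.2
    rw [Finset.sum_congr rfl fun ab _ => h2 ab, ← Finset.sum_mul, Fintype.sum_prod_type]
    congr 1
    have h3 : ∀ a : Tab ⊥ lam.1 n, ∑ b : Tab ⊥ lam.1 n, rep ⊥ lam.1 n σ p.1.1 a *
        rep ⊥ lam.1 n σ p.1.2 b * (if a = b then (1 : ℝ) else 0) =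
        rep ⊥ lam.1 n σ p.1.1 a * (rep ⊥ lam.1 n σ).transpose a p.1.2 := by
      intro a
      simp only [mul_ite, mul_one, mul_zero, Finset.sum_ite_eq, Finset.mem_univ, if_true]
      rfl
    rw [Finset.sum_congr rfl fun a _ => h3 a, ← Matrix.mul_apply, rep_transpose, ← map_mul,
      mul_inv_cancel, map_one, Matrix.one_apply]

end Pool.MP322
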