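import Pool.Agent.Lib.MP_322c5f_al.SG7

/-! Ikenmeyer's theorem, part 1: if `lam` has distinct parts and the representation `mu` occurs in
the permutation module of `lam` then `mu` occurs in the square of `lam`. -/

set_option autoImplicit false

open Equiv Finset Nat

namespace Pool.MP322

/-- there is a nonzero equivariant map from words of content `κ` to the representation `mu` -/
def Fx {n : ℕ} (κ : ℕ → ℕ) (mu : Y n) : Prop :=
  ∃ A : (Fin n → ℕ) → (Tab ⊥ mu.1 n → ℝ), (∃ w, A w ≠ 0) ∧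
    (∀ w, A w ≠ 0 → ∀ r, occ w r = κ r) ∧
    ∀ (σ : Perm (Fin n)) w, A (fun i => w (σ i)) = (rep ⊥ mu.1 n σ⁻¹).mulVec (A w)

section
variable {n : ℕ} {lam : YoungDiagram} {T : Fin n → ℕ × ℕ}

theorem ik_row_sum (hinj : Function.Injective T) (him : ∀ c, c ∈ lam ↔ ∃ i, T i = c)
    (w : Fin n → ℕ) (hw : ∀ r, occ w r = lam.rowLen r)
    (hcol : ∀ i j, (T i).2 = (T j).2 → w i = w j → i = j) (r : ℕ) :
    ∑ i ∈ univ.filter (fun i => w i = r), (T i).2 = ∑ c ∈ range (lam.rowLen r), c := by
  classical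
  have hinjOn : ∀ i ∈ univ.filter (fun i => w i = r), ∀ j ∈ univ.filter (fun i => w i = r),
      (T i).2 = (T j).2 → i = j := by
    intro i hi j hj hij
    exact hcol i j hij (((Finset.mem_filter.1 hi).2).trans ((Finset.mem_filter.1 hj).2).symm)
  have himg : (univ.filter (fun i => w i = r)).image (fun i => (T i).2) =
      range (lam.rowLen r) := by
    refine Finset.eq_of_subset_of_card_le ?_ ?_
    · intro c hc
      obtain ⟨i, hi, rfl⟩ := Finset.mem_image.1 hc
      rw [Finset.mem_range, ← YoungDiagram.mem_iff_lt_rowLen, ← (Finset.mem_filter.1 hi).2]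
      exact sg_cells hinj him w (fun r => by rw [hw, sg_occ_T hinj him]) hcol i
    · rw [Finset.card_image_of_injOn hinjOn, Finset.card_range, ← hw r]
      exact le_rfl
  rw [← himg, Finset.sum_image hinjOn]

end

section
variable {n : ℕ} (lam : Y n)

theorem ik_col {T : Fin n → ℕ × ℕ} {π : Perm (Fin n)} (hπ : ∀ i, T i = (cT lam).1 (π i))
    {w : Fin n → ℕ} (hw : ph lam (cT lam) (fun i => w (π⁻¹ i)) ≠ 0) (i j : Fin n)
    (hij : (T i).2 = (T j).2) (hwij : w i = w j) : i = j := by
  by_contra hne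
  apply hw
  have hab : π i ≠ π j := fun h => hne (π.injective h)
  have hc : cc lam (π i) = cc lam (π j) := by
    have h1 : ((cT lam).1 (π i)).2 = ((cT lam).1 (π j)).2 := by rw [← hπ, ← hπ, hij]
    exact h1
  have h1 := g0_anti lam (π i) (π j) hab hc (fun i => w (π⁻¹ i))
  have h2 : (fun k => (fun i => w (π⁻¹ i)) (swap (π i) (π j) k)) = fun i => w (π⁻¹ i) := by
    funext k
    show w (π⁻¹ (swap (π i) (π j) k)) = w (π⁻¹ k)
    rw [swap_apply_def]
    split_ifs with h3 h4
    · rw [h3, sg_ia, sg_ia, hwij]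
    · rw [h4, sg_ia, sg_ia, hwij]
    · rfl
  rw [h2] at h1
  linarith

theorem ik_ne {T : Fin n → ℕ × ℕ} {π : Perm (Fin n)} (hπ : ∀ i, T i = (cT lam).1 (π i)) :
    ph lam (cT lam) (fun i => (T (π⁻¹ i)).1) ≠ 0 := by
  have h1 : (fun i => (T (π⁻¹ i)).1) = cw lam := by
    funext i
    rw [hπ, sg_ai]
    rfl
  rw [h1]
  exact g0_ne lam

/-- the two polytabloids separate the word `w0` from all the others -/
theorem ik_sep (hst : ∀ r s, lam.1.rowLen r = lam.1.rowLen s → lam.1.rowLen r ≠ 0 → r = s)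
    (w0 : Fin n → ℕ) (hw0 : ∀ r, occ w0 r = lam.1.rowLen r) :
    ∃ τ τ' : Perm (Fin n), ph lam (cT lam) (fun i => w0 (τ i)) ≠ 0 ∧
      ph lam (cT lam) (fun i => w0 (τ' i)) ≠ 0 ∧
      ∀ w, ph lam (cT lam) (fun i => w (τ i)) ≠ 0 → ph lam (cT lam) (fun i => w (τ' i)) ≠ 0 →
        w = w0 := by
  classical
  -- a filling with row numbers `w0`
  obtain ⟨π0, hπ0⟩ : ∃ π0 : Perm (Fin n), ∀ i, rw' lam (π0 i) = w0 i := by
    refine sg_equiv w0 (rw' lam) fun r => ?_
    have h1 := hw0 r
    have h2 := occ_rw lam r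
    unfold occ at h1 h2
    rw [h1, h2]
  set T : Fin n → ℕ × ℕ := fun i => (rT lam).1 (π0 i) with hT
  have hT1 : ∀ i, (T i).1 = w0 i := fun i => hπ0 i
  have hTinj : Function.Injective T := fun i j hij => π0.injective ((rT lam).2.1 hij)
  have hTim : ∀ c, c ∈ lam.1 ↔ ∃ i, T i = c := by
    intro c
    rw [sg_im lam (rT lam) c]
    constructor
    · rintro ⟨i, hi⟩
      exact ⟨π0⁻¹ i, by rw [hT]; simp only [sg_ai, hi]⟩
    · rintro ⟨i, hi⟩
      exact ⟨π0 i, hi⟩
  have hTlt : ∀ i, (T i).2 < lam.1.rowLen (w0 i) := by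
    intro i
    rw [← YoungDiagram.mem_iff_lt_rowLen, ← hT1]
    exact (hTim _).2 ⟨i, rfl⟩
  -- the reversed filling
  set T' : Fin n → ℕ × ℕ := fun i => (w0 i, lam.1.rowLen (w0 i) - 1 - (T i).2) with hT'
  have hT'inj : Function.Injective T' := by
    intro i j hij
    have h1 : w0 i = w0 j := congrArg Prod.fst hij
    have h2 : lam.1.rowLen (w0 i) - 1 - (T i).2 = lam.1.rowLen (w0 j) - 1 - (T j).2 :=
      congrArg Prod.snd hij
    have h3 := hTlt i
    have h4 := hTlt j
    rw [h1] at h2 h3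
    apply hTinj
    refine Prod.ext ?_ ?_
    · rw [hT1, hT1, h1]
    · omega
  have hT'im : ∀ c, c ∈ lam.1 ↔ ∃ i, T' i = c := by
    have hmem : ∀ i, T' i ∈ lam.1 := by
      intro i
      rw [hT']
      simp only
      rw [YoungDiagram.mem_iff_lt_rowLen]
      have h3 := hTlt i
      omega
    intro c
    constructor
    · intro hc
      have h3 : (univ.image T') = lam.1.cells := by
        refine Finset.eq_of_subset_of_card_le ?_ ?_
        · intro d hd
          obtain ⟨i, -, rfl⟩ := Finset.mem_image.1 hd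
          exact (YoungDiagram.mem_cells _).2 (hmem i)
        · rw [Finset.card_image_of_injective _ hT'inj, Finset.card_univ, Fintype.card_fin]
          exact lam.2.le
      have h4 : c ∈ univ.image T' := by
        rw [h3]
        exact (YoungDiagram.mem_cells _).2 hc
      obtain ⟨i, -, hi⟩ := Finset.mem_image.1 h4
      exact ⟨i, hi⟩
    · rintro ⟨i, rfl⟩
      exact hmem i
  obtain ⟨π1, hπ1⟩ := sg_fill lam hTinj hTim
  obtain ⟨π2, hπ2⟩ := sg_fill lam hT'inj hT'im
  refine ⟨π1⁻¹, π2⁻¹, ?_, ?_, ?_⟩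
  · have h1 := ik_ne lam hπ1
    simp only [hT1] at h1
    exact h1
  · have h1 := ik_ne lam hπ2
    exact h1
  · intro w h1 h2
    have hcont : ∀ r, occ w r = lam.1.rowLen r := by
      intro r
      have h3 := ph_sup lam _ _ h1 r
      rwa [occ_perm] at h3
    have hc1 := ik_col lam hπ1 h1
    have hc2 := ik_col lam hπ2 h2
    have hs1 := ik_row_sum hTinj hTim w hcont hc1
    have hs2 := ik_row_sum hT'inj hT'im w hcont hc2
    have hgauss : ∀ L : ℕ, (∑ c ∈ range L, c) * 2 = L * (L - 1) := Finset.sum_range_id_mul_two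
    -- the row sums
    have hrow : ∀ r, ∑ i ∈ univ.filter (fun i => w i = r),
        ((lam.1.rowLen (w0 i) : ℤ) - (lam.1.rowLen r : ℤ)) = 0 := by
      intro r
      have h3 : ∑ i ∈ univ.filter (fun i => w i = r), (lam.1.rowLen (w0 i) - 1) =
          lam.1.rowLen r * (lam.1.rowLen r - 1) := by
        rw [← hgauss, mul_two, ← hs1 r]
        nth_rewrite 2 [hs1 r]
        rw [← hs2 r, ← Finset.sum_add_distrib]
        refine Finset.sum_congr rfl fun i _ => ?_
        have h4 := hTlt i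
        rw [hT']
        simp only
        omega
      have h5 : ∑ i ∈ univ.filter (fun i => w i = r), ((lam.1.rowLen (w0 i) : ℤ) - 1) =
          (lam.1.rowLen r : ℤ) * ((lam.1.rowLen r : ℤ) - 1) := by
        have h6 : ∀ i, ((lam.1.rowLen (w0 i) : ℤ) - 1) = ((lam.1.rowLen (w0 i) - 1 : ℕ) : ℤ) := by
          intro i
          have h4 := hTlt i
          omega
        rw [Finset.sum_congr rfl fun i _ => h6 i, ← Nat.cast_sum, h3]
        rcases Nat.eq_zero_or_pos (lam.1.rowLen r) with h7 | h7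
        · rw [h7]
          simp
        · rw [Nat.cast_mul, Nat.cast_sub h7, Nat.cast_one]
      have h8 : (univ.filter (fun i => w i = r)).card = lam.1.rowLen r := hcont r
      rw [Finset.sum_sub_distrib, Finset.sum_const, h8, nsmul_eq_mul] at h5 ⊢
      rw [mul_one] at h5
      linarith
    have hcross : ∑ i, (lam.1.rowLen (w i) : ℤ) *
        ((lam.1.rowLen (w0 i) : ℤ) - (lam.1.rowLen (w i) : ℤ)) = 0 := by
      rw [← Finset.sum_fiberwise_of_maps_to (s := univ) (t := univ.image w) (g := w)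
        (fun i _ => Finset.mem_image_of_mem _ (Finset.mem_univ _))]
      refine Finset.sum_eq_zero fun r _ => ?_
      have h3 : ∀ i ∈ univ.filter (fun i => w i = r), (lam.1.rowLen (w i) : ℤ) *
          ((lam.1.rowLen (w0 i) : ℤ) - (lam.1.rowLen (w i) : ℤ)) = (lam.1.rowLen r : ℤ) *
          ((lam.1.rowLen (w0 i) : ℤ) - (lam.1.rowLen r : ℤ)) := by
        intro i hi
        rw [(Finset.mem_filter.1 hi).2]
      rw [Finset.sum_congr rfl h3, ← Finset.mul_sum, hrow, mul_zero]
    obtain ⟨σ, hσ⟩ : ∃ σ : Perm (Fin n), ∀ i, w0 (σ i) = w i := by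
      refine sg_equiv w w0 fun r => ?_
      have h3 := hw0 r
      have h4 := hcont r
      unfold occ at h3 h4
      rw [h3, h4]
    have hsq : ∑ i, (lam.1.rowLen (w i) : ℤ) ^ 2 = ∑ i, (lam.1.rowLen (w0 i) : ℤ) ^ 2 :=
      Fintype.sum_equiv σ _ _ fun i => by rw [hσ i]
    have hzero : ∑ i, ((lam.1.rowLen (w i) : ℤ) - (lam.1.rowLen (w0 i) : ℤ)) ^ 2 = 0 := by
      have h3 : ∀ i, ((lam.1.rowLen (w i) : ℤ) - (lam.1.rowLen (w0 i) : ℤ)) ^ 2 =
          (lam.1.rowLen (w0 i) : ℤ) ^ 2 - (lam.1.rowLen (w i) : ℤ) ^ 2 -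
          2 * ((lam.1.rowLen (w i) : ℤ) *
            ((lam.1.rowLen (w0 i) : ℤ) - (lam.1.rowLen (w i) : ℤ))) := fun i => by ring
      rw [Finset.sum_congr rfl fun i _ => h3 i, Finset.sum_sub_distrib, Finset.sum_sub_distrib,
        ← Finset.mul_sum, hcross, hsq]
      ring
    funext i
    have h3 := (Finset.sum_eq_zero_iff_of_nonneg (fun i _ => sq_nonneg _)).1 hzero i
      (Finset.mem_univ i)
    have h4 : (lam.1.rowLen (w i) : ℤ) = (lam.1.rowLen (w0 i) : ℤ) := by
      have := pow_eq_zero_iff (two_ne_zero) |>.1 h3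
      linarith
    have h5 : lam.1.rowLen (w i) = lam.1.rowLen (w0 i) := by exact_mod_cast h4
    refine hst _ _ h5 ?_
    rw [h5]
    have := hTlt i
    omega

/-- IKENMEYER: multiplicity of `mu` in the permutation module gives `Sq`. -/
theorem Sq_of_Fx (mu : Y n)
    (hst : ∀ r s, lam.1.rowLen r = lam.1.rowLen s → lam.1.rowLen r ≠ 0 → r = s)
    (h : Fx lam.1.rowLen mu) : Sq lam mu := by
  classical
  obtain ⟨A, ⟨w0, hw0⟩, hcont, hequiv⟩ := h
  have hc0 := hcont w0 hw0
  obtain ⟨τ, τ', hτ, hτ', hsep⟩ := ik_sep lam hst w0 hc0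
  obtain ⟨π0, hπ0⟩ : ∃ π0 : Perm (Fin n), ∀ i, rw' lam (π0 i) = w0 i := by
    refine sg_equiv w0 (rw' lam) fun r => ?_
    have h1 := hc0 r
    have h2 := occ_rw lam r
    unfold occ at h1 h2
    rw [h1, h2]
  obtain ⟨z0, hz0⟩ := Function.ne_iff.1 hw0
  rw [Sq_iff, R3_pos_iff]
  refine ⟨fun p => ∑ π : Perm (Fin n), ph lam p.1.1 (fun i => rw' lam (π i)) *
    ph lam p.1.2 (fun i => rw' lam (π i)) * A (fun i => rw' lam (π i)) p.2, ?_, ?_⟩
  · intro h0
    have h1 : ∑ x, ∑ y, rep ⊥ lam.1 n τ x (cT lam) * rep ⊥ lam.1 n τ' y (cT lam) *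
        (∑ π : Perm (Fin n), ph lam x (fun i => rw' lam (π i)) *
          ph lam y (fun i => rw' lam (π i)) * A (fun i => rw' lam (π i)) z0) = 0 := by
      refine Finset.sum_eq_zero fun x _ => Finset.sum_eq_zero fun y _ => ?_
      have h2 := congrFun h0 ((x, y), z0)
      simp only [Pi.zero_apply] at h2
      rw [h2, mul_zero]
    have h2 : ∑ x, ∑ y, rep ⊥ lam.1 n τ x (cT lam) * rep ⊥ lam.1 n τ' y (cT lam) *
        (∑ π : Perm (Fin n), ph lam x (fun i => rw' lam (π i)) *
          ph lam y (fun i => rw' lam (π i)) * A (fun i => rw' lam (π i)) z0) =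
        ∑ π : Perm (Fin n), ph lam (cT lam) (fun i => rw' lam (π (τ i))) *
          ph lam (cT lam) (fun i => rw' lam (π (τ' i))) * A (fun i => rw' lam (π i)) z0 := by
      have h3 : ∀ π : Perm (Fin n), ph lam (cT lam) (fun i => rw' lam (π (τ i))) *
          ph lam (cT lam) (fun i => rw' lam (π (τ' i))) * A (fun i => rw' lam (π i)) z0 =
          ∑ x, ∑ y, rep ⊥ lam.1 n τ x (cT lam) * rep ⊥ lam.1 n τ' y (cT lam) *
            (ph lam x (fun i => rw' lam (π i)) *
            ph lam y (fun i => rw' lam (π i)) * A (fun i => rw' lam (π i)) z0) := by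
        intro π
        have h4 := ph_equiv lam τ (cT lam) (fun i => rw' lam (π i))
        have h5 := ph_equiv lam τ' (cT lam) (fun i => rw' lam (π i))
        rw [h4, h5, Finset.sum_mul_sum, Finset.sum_mul]
        refine Finset.sum_congr rfl fun x _ => ?_
        rw [Finset.sum_mul]
        exact Finset.sum_congr rfl fun y _ => by ring
      rw [Finset.sum_congr rfl fun π _ => h3 π,
        Finset.sum_comm (s := (univ : Finset (Perm (Fin n))))]
      refine Finset.sum_congr rfl fun x _ => ?_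
      rw [Finset.sum_comm (s := (univ : Finset (Perm (Fin n))))]
      refine Finset.sum_congr rfl fun y _ => ?_
      rw [Finset.mul_sum]
    rw [h2] at h1
    have h4 : ∀ π : Perm (Fin n), ph lam (cT lam) (fun i => rw' lam (π (τ i))) *
          ph lam (cT lam) (fun i => rw' lam (π (τ' i))) * A (fun i => rw' lam (π i)) z0 =
          if (fun i => rw' lam (π i)) = w0 then ph lam (cT lam) (fun i => w0 (τ i)) *
          ph lam (cT lam) (fun i => w0 (τ' i)) * A w0 z0 else 0 := by
      intro π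
      by_cases h5 : (fun i => rw' lam (π i)) = w0
      · rw [if_pos h5, ← h5]
      · rw [if_neg h5]
        by_cases h6 : ph lam (cT lam) (fun i => rw' lam (π (τ i))) = 0
        · rw [h6, zero_mul, zero_mul]
        · by_cases h7 : ph lam (cT lam) (fun i => rw' lam (π (τ' i))) = 0
          · rw [h7, mul_zero, zero_mul]
          · exact absurd (hsep (fun i => rw' lam (π i)) h6 h7) h5
    rw [Finset.sum_congr rfl fun π _ => h4 π, ← Finset.sum_filter, Finset.sum_const,
      nsmul_eq_mul] at h1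
    rcases mul_eq_zero.1 h1 with h5 | h5
    · have h6 : (univ.filter (fun π : Perm (Fin n) => (fun i => rw' lam (π i)) = w0)).card = 0 := by
        exact_mod_cast h5
      rw [Finset.card_eq_zero, Finset.filter_eq_empty_iff] at h6
      exact h6 (Finset.mem_univ π0) (funext hπ0)
    · rcases mul_eq_zero.1 h5 with h6 | h6
      · rcases mul_eq_zero.1 h6 with h7 | h7
        · exact hτ h7
        · exact hτ' h7
      · exact hz0 h6
  · intro σ
    funext p
    have h1 : ∀ π : Perm (Fin n), ∑ q : (Tab ⊥ lam.1 n × Tab ⊥ lam.1 n) × Tab ⊥ mu.1 n,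
        R3 lam lam mu σ p q * (ph lam q.1.1 (fun i => rw' lam (π i)) *
        ph lam q.1.2 (fun i => rw' lam (π i)) * A (fun i => rw' lam (π i)) q.2) =
        ph lam p.1.1 (fun i => rw' lam (π (σ⁻¹ i))) *
        ph lam p.1.2 (fun i => rw' lam (π (σ⁻¹ i))) * A (fun i => rw' lam (π (σ⁻¹ i))) p.2 := by
      intro π
      have h2 : ∀ x, ph lam x (fun i => rw' lam (π (σ⁻¹ i))) =
          ∑ y, rep ⊥ lam.1 n σ x y * ph lam y (fun i => rw' lam (π i)) := by
        intro x
        have h3 := ph_equiv lam σ⁻¹ x (fun i => rw' lam (π i))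
        rw [h3]
        refine Finset.sum_congr rfl fun y _ => ?_
        rw [← rep_transpose, Matrix.transpose_apply]
      have h3 : A (fun i => rw' lam (π (σ⁻¹ i))) p.2 =
          ∑ z, rep ⊥ mu.1 n σ p.2 z * A (fun i => rw' lam (π i)) z := by
        have h4 := hequiv σ⁻¹ (fun i => rw' lam (π i))
        rw [inv_inv] at h4
        rw [h4]
        rfl
      rw [h2, h2, h3, Finset.sum_mul_sum, ← Finset.sum_product', Finset.univ_product_univ,
        Finset.sum_mul_sum, Fintype.sum_prod_type]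
      refine Finset.sum_congr rfl fun a _ => Finset.sum_congr rfl fun b _ => ?_
      unfold R3
      rw [kr_apply, kr_apply]
      ring
    have h5 : ∀ q : (Tab ⊥ lam.1 n × Tab ⊥ lam.1 n) × Tab ⊥ mu.1 n,
        R3 lam lam mu σ p q * (∑ π : Perm (Fin n), ph lam q.1.1 (fun i => rw' lam (π i)) *
        ph lam q.1.2 (fun i => rw' lam (π i)) * A (fun i => rw' lam (π i)) q.2) =
        ∑ π : Perm (Fin n), R3 lam lam mu σ p q * (ph lam q.1.1 (fun i => rw' lam (π i)) *
        ph lam q.1.2 (fun i => rw' lam (π i)) * A (fun i => rw' lam (π i)) q.2) := fun q =>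
      Finset.mul_sum _ _ _
    unfold Matrix.mulVec dotProduct
    rw [Finset.sum_congr rfl fun q _ => h5 q, Finset.sum_comm,
      Finset.sum_congr rfl fun π _ => h1 π]
    refine Fintype.sum_equiv (Equiv.mulRight σ⁻¹) _ _ fun π => ?_
    rfl

end

end Pool.MP322
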