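import Pool.Agent.Lib.MP_322c5f_al.SG8

/-! Ikenmeyer's theorem, part 2: `Fx` is a semigroup; columns. -/

set_option autoImplicit false

open Equiv Finset Nat

namespace Pool.MP322

/-- `mu` occurs in words of content `mu` -/
theorem Fx_self {n : ℕ} (mu : Y n) : Fx mu.1.rowLen mu := by
  refine ⟨fun w x => ph mu x w, ?_, ?_, ?_⟩
  · refine ⟨cw mu, fun h0 => g0_ne mu (congrFun h0 (cT mu))⟩
  · intro w hw
    obtain ⟨x, hx⟩ := Function.ne_iff.1 hw
    exact ph_sup mu x w hx
  · intro σ w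
    funext x
    show ph mu x (fun i => w (σ i)) = (rep ⊥ mu.1 n σ⁻¹).mulVec (fun x => ph mu x w) x
    rw [ph_equiv]
    unfold Matrix.mulVec dotProduct
    refine Finset.sum_congr rfl fun y _ => ?_
    rw [← rep_transpose]
    rfl

/-- relabelling of the letters -/
theorem Fx_relabel {n : ℕ} (mu : Y n) (κ κ' : ℕ → ℕ) (fl : ℕ → ℕ) (R : Finset ℕ)
    (hfl : ∀ a ∈ R, ∀ b ∈ R, fl a = fl b → a = b) (hR : ∀ a ∈ R, κ' a = κ (fl a))
    (hR' : ∀ a, a ∉ R → κ' a = 0) (hsurj : ∀ b, κ b ≠ 0 → ∃ a ∈ R, fl a = b)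
    (h : Fx κ mu) : Fx κ' mu := by
  classical
  obtain ⟨A, ⟨w0, hw0⟩, hcont, hequiv⟩ := h
  refine ⟨fun w x => if ∀ i, w i ∈ R then A (fun i => fl (w i)) x else 0, ?_, ?_, ?_⟩
  · have h1 : ∀ i, ∃ a ∈ R, fl a = w0 i := by
      intro i
      refine hsurj _ ?_
      rw [← hcont w0 hw0]
      have : 0 < occ w0 (w0 i) := occ_pos.2 (Finset.mem_image_of_mem _ (Finset.mem_univ _))
      omega
    choose v hv using h1
    refine ⟨v, fun h0 => hw0 ?_⟩
    funext x
    have h2 := congrFun h0 x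
    simp only at h2
    rw [if_pos (fun i => (hv i).1)] at h2
    have h3 : (fun i => fl (v i)) = w0 := funext fun i => (hv i).2
    rw [h3] at h2
    exact h2
  · intro w hw r
    have hall : ∀ i, w i ∈ R := by
      by_contra hcon
      apply hw
      funext x
      simp only [if_neg hcon, Pi.zero_apply]
    have h1 : A (fun i => fl (w i)) ≠ 0 := by
      intro h0
      apply hw
      funext x
      simp only [if_pos hall, h0]
    have h2 := hcont _ h1
    by_cases hr : r ∈ R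
    · rw [hR r hr, ← h2]
      unfold occ
      congr 1
      ext i
      simp only [Finset.mem_filter, Finset.mem_univ, true_and]
      exact ⟨fun h => by rw [h], fun h => hfl _ (hall i) _ hr h⟩
    · rw [hR' r hr]
      unfold occ
      rw [Finset.card_eq_zero, Finset.filter_eq_empty_iff]
      intro i _ h
      exact hr (h ▸ hall i)
  · intro σ w
    by_cases hall : ∀ i, w i ∈ R
    · have hall' : ∀ i, w (σ i) ∈ R := fun i => hall _
      have h1 : (fun x => if ∀ i, w i ∈ R then A (fun i => fl (w i)) x else 0) =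
          A (fun i => fl (w i)) := by
        funext x
        rw [if_pos hall]
      have h2 : (fun x => if ∀ i, w (σ i) ∈ R then A (fun i => fl (w (σ i))) x else 0) =
          A (fun i => fl (w (σ i))) := by
        funext x
        rw [if_pos hall']
      show (fun x => if ∀ i, w (σ i) ∈ R then A (fun i => fl (w (σ i))) x else 0) =
        (rep ⊥ mu.1 n σ⁻¹).mulVec (fun x => if ∀ i, w i ∈ R then A (fun i => fl (w i)) x else 0)
      rw [h1, h2]
      exact hequiv σ (fun i => fl (w i))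
    · have hall' : ¬ ∀ i, w (σ i) ∈ R := by
        intro h
        apply hall
        intro i
        have := h (σ⁻¹ i)
        rwa [sg_ai] at this
      have h1 : (fun x => if ∀ i, w i ∈ R then A (fun i => fl (w i)) x else 0) = 0 := by
        funext x
        rw [if_neg hall, Pi.zero_apply]
      have h2 : (fun x => if ∀ i, w (σ i) ∈ R then A (fun i => fl (w (σ i))) x else 0) = 0 := by
        funext x
        rw [if_neg hall', Pi.zero_apply]
      show (fun x => if ∀ i, w (σ i) ∈ R then A (fun i => fl (w (σ i))) x else 0) =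
        (rep ⊥ mu.1 n σ⁻¹).mulVec (fun x => if ∀ i, w i ∈ R then A (fun i => fl (w i)) x else 0)
      rw [h1, h2, Matrix.mulVec_zero]

/-- SEMIGROUP for `Fx`. -/
theorem Fx_add {n m : ℕ} {κ κ' : ℕ → ℕ} {mu : Y n} {be : Y m} {ka : Y (n + m)}
    (hka : ∀ r, ka.1.rowLen r = mu.1.rowLen r + be.1.rowLen r) (h1 : Fx κ mu) (h2 : Fx κ' be) :
    Fx (fun r => κ r + κ' r) ka := by
  classical
  obtain ⟨A, ⟨w0, hw0⟩, hcont, hequiv⟩ := h1
  obtain ⟨B, ⟨v0, hv0⟩, hcont', hequiv'⟩ := h2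
  obtain ⟨e, -⟩ : ∃ e : Fin n ⊕ Fin m ≃ Fin (n + m), True := ⟨finSumFinEquiv, trivial⟩
  set P : (Fin n → ℕ) → (Fin n → ℕ) → (Fin n → ℕ) → ℝ := fun w1 w2 _ => Ph mu (A w1) w2 with hP
  set Q : (Fin m → ℕ) → (Fin m → ℕ) → (Fin m → ℕ) → ℝ := fun w1 w2 _ => Ph be (B w1) w2 with hQ
  have hPs : ∀ (σ : Perm (Fin n)) w1 w2 w3, P (fun i => w1 (σ i)) (fun i => w2 (σ i))
      (fun i => w3 (σ i)) = P w1 w2 w3 := by
    intro σ w1 w2 w3
    rw [hP]
    simp only
    rw [hequiv, Ph_equiv, Matrix.mulVec_mulVec, ← map_mul, mul_inv_cancel, map_one,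
      Matrix.one_mulVec]
  have hQs : ∀ (σ : Perm (Fin m)) w1 w2 w3, Q (fun i => w1 (σ i)) (fun i => w2 (σ i))
      (fun i => w3 (σ i)) = Q w1 w2 w3 := by
    intro σ w1 w2 w3
    rw [hQ]
    simp only
    rw [hequiv', Ph_equiv, Matrix.mulVec_mulVec, ← map_mul, mul_inv_cancel, map_one,
      Matrix.one_mulVec]
  obtain ⟨w0', hw0'⟩ : ∃ w', P w0 w' w' ≠ 0 := by
    by_contra hcon
    push Not at hcon
    exact hw0 (Ph_inj mu hcon)
  obtain ⟨v0', hv0'⟩ : ∃ w', Q v0 w' w' ≠ 0 := by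
    by_contra hcon
    push Not at hcon
    exact hv0 (Ph_inj be hcon)
  obtain ⟨u1, u2, u3, hu⟩ := HH_ne e P Q hPs hQs (w3 := w0') (v3 := v0') hw0' hv0'
  -- representation of the symmetrised product
  have h3 : ∀ (π : Perm (Fin (n + m))) (w1 : Fin (n + m) → ℕ), ∃ v : Tab ⊥ ka.1 (n + m) → ℝ,
      ∀ w2 : Fin (n + m) → ℕ, Ph mu (A (fun i => w1 (π (e (Sum.inl i)))))
        (fun i => w2 (π (e (Sum.inl i)))) * Ph be (B (fun i => w1 (π (e (Sum.inr i)))))
        (fun i => w2 (π (e (Sum.inr i)))) = Ph ka v w2 := by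
    intro π w1
    choose v hv using sp_prod mu be ka hka (e.trans π)
    refine ⟨fun z => ∑ p : Tab ⊥ mu.1 n × Tab ⊥ be.1 m,
      (A (fun i => w1 (π (e (Sum.inl i)))) p.1 * B (fun i => w1 (π (e (Sum.inr i)))) p.2) *
        v p.1 p.2 z, fun w2 => ?_⟩
    rw [← Ph_lin]
    unfold Ph
    rw [Finset.sum_mul_sum, ← Finset.sum_product', Finset.univ_product_univ]
    refine Finset.sum_congr rfl fun p _ => ?_
    have h4 := hv p.1 p.2 w2
    unfold Ph at h4
    rw [← h4]
    simp only [Equiv.trans_apply]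
    ring
  choose V hV using h3
  have h5 : ∀ w1 w2 w3, Ph ka (fun z => ∑ π, V π w1 z) w2 = HH e P Q w1 w2 w3 := by
    intro w1 w2 w3
    unfold HH
    rw [hP, hQ]
    simp only
    rw [Finset.sum_congr rfl fun π _ => hV π w1 w2]
    unfold Ph
    rw [Finset.sum_comm]
    exact Finset.sum_congr rfl fun z _ => Finset.sum_mul _ _ _
  refine ⟨fun w z => ∑ π, V π w z, ⟨u1, fun h0 => hu ?_⟩, ?_, ?_⟩
  · rw [← h5]
    have h0' : (fun z => ∑ π, V π u1 z) = 0 := h0
    rw [h0']
    unfold Ph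
    exact Finset.sum_eq_zero fun z _ => by rw [Pi.zero_apply, zero_mul]
  · intro w hw r
    have h6 : ∃ w2, Ph ka (fun z => ∑ π, V π w z) w2 ≠ 0 := by
      by_contra hcon
      push Not at hcon
      exact hw (Ph_inj ka hcon)
    obtain ⟨w2, hw2⟩ := h6
    rw [h5 w w2 w2] at hw2
    unfold HH at hw2
    obtain ⟨π, -, hπ⟩ := Finset.exists_ne_zero_of_sum_ne_zero hw2
    have h7 : A (fun i => w (π (e (Sum.inl i)))) ≠ 0 := by
      intro h0
      apply hπ
      rw [hP]
      simp only [h0]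
      unfold Ph
      simp only [Pi.zero_apply, zero_mul, Finset.sum_const_zero]
    have h8 : B (fun i => w (π (e (Sum.inr i)))) ≠ 0 := by
      intro h0
      apply hπ
      rw [hQ]
      simp only [h0]
      unfold Ph
      simp only [Pi.zero_apply, zero_mul, Finset.sum_const_zero, mul_zero]
    show occ w r = κ r + κ' r
    rw [← hcont _ h7 r, ← hcont' _ h8 r, ← occ_perm w π r, occ_sum e]
  · intro σ w
    rw [← sub_eq_zero]
    refine Ph_inj ka fun w2 => ?_
    have h6 : Ph ka ((fun z => ∑ π, V π (fun i => w (σ i)) z) -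
        (rep ⊥ ka.1 (n + m) σ⁻¹).mulVec (fun z => ∑ π, V π w z)) w2 =
        Ph ka (fun z => ∑ π, V π (fun i => w (σ i)) z) w2 -
        Ph ka ((rep ⊥ ka.1 (n + m) σ⁻¹).mulVec (fun z => ∑ π, V π w z)) w2 := by
      unfold Ph
      rw [← Finset.sum_sub_distrib]
      exact Finset.sum_congr rfl fun z _ => by rw [Pi.sub_apply, sub_mul]
    rw [h6, ← Ph_equiv, h5 _ w2 w2, h5 _ _ (fun i => w2 (σ⁻¹ i))]
    have h7 := HH_equiv e P Q w (fun i => w2 (σ⁻¹ i)) (fun i => w2 (σ⁻¹ i)) σ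
    simp only [sg_ia] at h7
    rw [h7, sub_self]

end Pool.MP322
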