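import Pool.Agent.Lib.MP_322c5f_al.PowC
import Pool.Agent.Lib.MP_322c5f_al.OE

/-! job SQ-46: lower bound for the characters at permutations of small support. -/

set_option autoImplicit false

open Equiv Finset Nat

namespace Pool.MP322

/-- the cycle types for which the normalized character can be noticeably negative. -/
def Bad (τ : Multiset ℕ) : Prop :=
  Even (τ.sum - τ.card) ∧ ∃ c ∈ τ, Even c ∧ Odd (τ.count c)

open Classical in
/-- the bound for these cycle types. -/
noncomputable def bS (τ : Multiset ℕ) : ℝ :=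
  if Bad τ then (1 / 2 : ℝ) ^ (τ.sum - τ.card) else 0

theorem sm_prod_abs {α : Type*} [DecidableEq α] (s : Finset α) (f : α → ℝ)
    (h1 : ∀ a ∈ s, |f a| ≤ 1) : |∏ a ∈ s, f a| ≤ 1 := by
  rw [Finset.abs_prod]
  exact Finset.prod_le_one (fun a _ => abs_nonneg _) h1

theorem sm_prod_ge {α : Type*} [DecidableEq α] (s : Finset α) (f : α → ℝ) (e : ℝ) (he : 0 ≤ e)
    (h1 : ∀ a ∈ s, |f a| ≤ 1) (h2 : ∀ a ∈ s, -e ≤ f a) : -e ≤ ∏ a ∈ s, f a := by
  induction s using Finset.induction_on with
  | empty => simp; linarith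
  | insert a s ha ih =>
    rw [Finset.prod_insert ha]
    have i1 := ih (fun b hb => h1 b (Finset.mem_insert_of_mem hb))
      (fun b hb => h2 b (Finset.mem_insert_of_mem hb))
    have i2 := sm_prod_abs s f (fun b hb => h1 b (Finset.mem_insert_of_mem hb))
    have i3 := h1 a (Finset.mem_insert_self a s)
    have i4 := h2 a (Finset.mem_insert_self a s)
    set P := ∏ b ∈ s, f b with hP
    rw [abs_le] at i2 i3
    rcases le_or_gt 0 (f a) with h0 | h0
    · rcases le_or_gt 0 P with h3 | h3
      · have := mul_nonneg h0 h3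
        linarith
      · nlinarith
    · nlinarith

theorem sm_prod_le {α : Type*} [DecidableEq α] (s : Finset α) (f a : α → ℝ) (e : ℝ) (he : 0 ≤ e)
    (h0 : ∀ x ∈ s, 0 ≤ f x) (h1 : ∀ x ∈ s, f x ≤ 1) (h2 : ∀ x ∈ s, f x ≤ a x + e)
    (h3 : ∀ x ∈ s, 0 ≤ a x) (h4 : ∀ x ∈ s, a x ≤ 1) :
    ∏ x ∈ s, f x ≤ ∏ x ∈ s, a x + s.card * e := by
  induction s using Finset.induction_on with
  | empty => simp
  | insert b s hb ih =>
    rw [Finset.prod_insert hb, Finset.prod_insert hb, Finset.card_insert_of_notMem hb]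
    have i1 := ih (fun x hx => h0 x (Finset.mem_insert_of_mem hx))
      (fun x hx => h1 x (Finset.mem_insert_of_mem hx))
      (fun x hx => h2 x (Finset.mem_insert_of_mem hx))
      (fun x hx => h3 x (Finset.mem_insert_of_mem hx))
      (fun x hx => h4 x (Finset.mem_insert_of_mem hx))
    have j0 := h0 b (Finset.mem_insert_self b s)
    have j1 := h1 b (Finset.mem_insert_self b s)
    have j2 := h2 b (Finset.mem_insert_self b s)
    have j3 := h3 b (Finset.mem_insert_self b s)
    have k1 : 0 ≤ ∏ x ∈ s, a x := Finset.prod_nonneg fun x hx => h3 x (Finset.mem_insert_of_mem hx)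
    have k2 : ∏ x ∈ s, a x ≤ 1 := Finset.prod_le_one
      (fun x hx => h3 x (Finset.mem_insert_of_mem hx))
      (fun x hx => h4 x (Finset.mem_insert_of_mem hx))
    have k3 : (0 : ℝ) ≤ s.card * e := by positivity
    set P := ∏ x ∈ s, f x
    set Q := ∏ x ∈ s, a x
    calc f b * P ≤ f b * (Q + s.card * e) := mul_le_mul_of_nonneg_left i1 j0
      _ = f b * Q + f b * (s.card * e) := by ring
      _ ≤ (a b + e) * Q + 1 * (s.card * e) :=
          add_le_add (mul_le_mul_of_nonneg_right j2 k1) (mul_le_mul_of_nonneg_right j1 k3)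
      _ ≤ a b * Q + ((s.card + 1 : ℕ) : ℝ) * e := by
          push_cast
          nlinarith

theorem sm_content {n : ℕ} (mu : Y n) (h1 : mu.1.colLen 0 ≤ mu.1.rowLen 0)
    (h2 : 2 * mu.1.rowLen 0 < n) : ∀ c ∈ mu.1, |((ct c : ℤ) : ℝ)| ≤ (n : ℝ) / 2 := by
  intro c hc
  have a1 : c.2 < mu.1.rowLen c.1 := YoungDiagram.mem_iff_lt_rowLen.1 hc
  have a2 : c.1 < mu.1.colLen c.2 := YoungDiagram.mem_iff_lt_colLen.1 hc
  have a3 : mu.1.rowLen c.1 ≤ mu.1.rowLen 0 := mu.1.rowLen_anti 0 c.1 (Nat.zero_le _)
  have a4 : mu.1.colLen c.2 ≤ mu.1.colLen 0 := mu.1.colLen_anti 0 c.2 (Nat.zero_le _)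
  have b1 : 2 * c.2 < n := by omega
  have b2 : 2 * c.1 < n := by omega
  have b1' : 2 * (c.2 : ℝ) < n := by exact_mod_cast b1
  have b2' : 2 * (c.1 : ℝ) < n := by exact_mod_cast b2
  have c1 : (0 : ℝ) ≤ c.2 := Nat.cast_nonneg _
  have c2 : (0 : ℝ) ≤ c.1 := Nat.cast_nonneg _
  unfold ct
  push_cast
  rw [abs_le]
  constructor <;> linarith

/-- facts about the cycle factors of a permutation of small support. -/
theorem sm_cyc {n : ℕ} (σ : Perm (Fin n)) (c : Perm (Fin n)) (hc : c ∈ σ.cycleFactorsFinset) :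
    2 ≤ c.support.card ∧ c.support.card ≤ σ.support.card ∧ c.cycleType = {c.support.card} := by
  have hcyc : c.IsCycle := (Perm.mem_cycleFactorsFinset_iff.1 hc).1
  refine ⟨hcyc.two_le_card_support, ?_, hcyc.cycleType⟩
  exact Finset.card_le_card (Perm.mem_cycleFactorsFinset_support_le hc)

theorem sm_card {n : ℕ} (σ : Perm (Fin n)) : σ.cycleFactorsFinset.card ≤ σ.support.card := by
  have h1 : Multiset.card σ.cycleType = σ.cycleFactorsFinset.card := by
    rw [Perm.cycleType_def, Multiset.card_map]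
    rfl
  rw [← h1, ← Perm.sum_cycleType]
  have h2 : ∀ x ∈ σ.cycleType, 1 ≤ x := fun x hx => (Perm.two_le_of_mem_cycleType hx).trans' (by norm_num)
  have h3 := Multiset.card_nsmul_le_sum h2
  simpa using h3

theorem sm_sum {n : ℕ} (σ : Perm (Fin n)) :
    ∏ c ∈ σ.cycleFactorsFinset, (1 / 2 : ℝ) ^ (c.support.card - 1) =
      (1 / 2 : ℝ) ^ (σ.cycleType.sum - Multiset.card σ.cycleType) := by
  rw [Finset.prod_pow_eq_pow_sum]
  congr 1
  have h1 : ∑ c ∈ σ.cycleFactorsFinset, (c.support.card - 1) + σ.cycleFactorsFinset.card =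
      ∑ c ∈ σ.cycleFactorsFinset, c.support.card := by
    rw [Finset.card_eq_sum_ones, ← Finset.sum_add_distrib]
    refine Finset.sum_congr rfl fun c hc => ?_
    have := (sm_cyc σ c hc).1
    omega
  have h2 : σ.cycleType.sum = ∑ c ∈ σ.cycleFactorsFinset, c.support.card := by
    rw [Perm.cycleType_def]
    rfl
  have h3 : Multiset.card σ.cycleType = σ.cycleFactorsFinset.card := by
    rw [Perm.cycleType_def, Multiset.card_map]
    rfl
  rw [h2, h3, ← h1]
  omega

theorem sm_even_prod {n : ℕ} (mu : Y n) (σ : Perm (Fin n))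
    (h : ∀ c ∈ σ.cycleType, Even c → Even (σ.cycleType.count c)) :
    0 ≤ ∏ c ∈ σ.cycleFactorsFinset.filter (fun c => Even c.support.card), (chi mu c / fd mu) := by
  classical
  set F := σ.cycleFactorsFinset.filter (fun c => Even c.support.card) with hF
  rw [← Finset.prod_fiberwise_of_maps_to (t := F.image (fun c => c.support.card))
    (g := fun c => c.support.card) (fun c hc => Finset.mem_image_of_mem _ hc)]
  refine Finset.prod_nonneg fun l hl => ?_
  rw [Finset.mem_image] at hl
  obtain ⟨c0, hc0, hl0⟩ := hl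
  rw [hF, Finset.mem_filter] at hc0
  have hcy0 := sm_cyc σ c0 hc0.1
  have hprod : ∏ c ∈ F.filter (fun c => c.support.card = l), (chi mu c / fd mu) =
      (chi mu c0 / fd mu) ^ (F.filter (fun c => c.support.card = l)).card := by
    rw [Finset.prod_congr rfl (g := fun _ => chi mu c0 / fd mu), Finset.prod_const]
    intro c hc
    rw [Finset.mem_filter, hF, Finset.mem_filter] at hc
    have hcy := sm_cyc σ c hc.1.1
    rw [chi_type mu c c0]
    rw [hcy.2.2, hcy0.2.2, hc.2, hl0]
  rw [hprod]
  apply Even.pow_nonneg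
  have hcount : (F.filter (fun c => c.support.card = l)).card = σ.cycleType.count l := by
    rw [Perm.cycleType_def, Multiset.count_map]
    have : F.filter (fun c => c.support.card = l) =
        σ.cycleFactorsFinset.filter (fun c => l = (Finset.card ∘ Perm.support) c) := by
      ext c
      rw [Finset.mem_filter, hF, Finset.mem_filter, Finset.mem_filter]
      constructor
      · rintro ⟨⟨h1, _⟩, h3⟩
        exact ⟨h1, h3.symm⟩
      · rintro ⟨h1, h2⟩
        refine ⟨⟨h1, ?_⟩, h2.symm⟩
        have h2' : l = c.support.card := h2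
        rw [← h2', ← hl0]
        exact hc0.2
    rw [this]
    rfl
  rw [hcount]
  apply h
  · rw [Perm.cycleType_def, Multiset.mem_map]
    exact ⟨c0, hc0.1, hl0⟩
  · rw [← hl0]
    exact hc0.2

theorem small_bound (S0 : ℕ) : ∃ K : ℝ, 0 ≤ K ∧ ∀ n : ℕ, 1 ≤ n → ∀ mu : Y n,
    mu.1.colLen 0 ≤ mu.1.rowLen 0 → ∀ σ : Perm (Fin n), Perm.sign σ = 1 →
      σ.support.card ≤ S0 → -(chi mu σ / fd mu) ≤ bS σ.cycleType + K / n := by
  classical
  refine ⟨(S0 : ℝ) ^ 2 + (S0 + 1) * (S0 : ℝ) ^ 2, by positivity, ?_⟩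
  intro n hn mu hrc σ hsign hS0
  have hn0 : (0 : ℝ) < n := by exact_mod_cast hn
  have hS0' : (σ.support.card : ℝ) ≤ S0 := by exact_mod_cast hS0
  set e : ℝ := (S0 : ℝ) ^ 2 / n with he
  have he0 : 0 ≤ e := by positivity
  have hbS : 0 ≤ bS σ.cycleType := by
    unfold bS
    split_ifs
    · positivity
    · exact le_rfl
  have happ := (irr mu).r_prod_approx σ
  simp only [irr_r] at happ
  have happ2 : |chi mu σ / fd mu - ∏ c ∈ σ.cycleFactorsFinset, chi mu c / fd mu| ≤ e := by
    refine happ.trans ?_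
    rw [he]
    apply div_le_div_of_nonneg_right _ hn0.le
    exact pow_le_pow_left₀ (Nat.cast_nonneg _) hS0' 2
  have habs : ∀ c : Perm (Fin n), |chi mu c / fd mu| ≤ 1 := by
    intro c
    have := (irr mu).abs_r_le c
    rwa [irr_r] at this
  -- the basic error bound
  have herr : ∀ c ∈ σ.cycleFactorsFinset, ∀ j : ℕ, c.support.card = j + 1 →
      (j : ℝ) * ((j : ℝ) + 1) / n ≤ e ∧ ((j : ℝ) + 1) ^ 2 / n ≤ e := by
    intro c hc j hj
    have h1 := (sm_cyc σ c hc).2.1
    have h2 : j + 1 ≤ S0 := by omega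
    have h2' : (j : ℝ) + 1 ≤ S0 := by exact_mod_cast h2
    have h3 : (0 : ℝ) ≤ j := Nat.cast_nonneg _
    constructor
    · rw [he]
      apply div_le_div_of_nonneg_right _ hn0.le
      nlinarith
    · rw [he]
      apply div_le_div_of_nonneg_right _ hn0.le
      nlinarith
  suffices hP : -(bS σ.cycleType) - (S0 + 1) * e ≤ ∏ c ∈ σ.cycleFactorsFinset, chi mu c / fd mu by
    have h1 := (abs_le.1 happ2).1
    have h2 : ((S0 : ℝ) ^ 2 + (S0 + 1) * (S0 : ℝ) ^ 2) / n = e + (S0 + 1) * e := by
      rw [he]; ring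
    rw [h2]
    linarith
  have hS0nn : (0 : ℝ) ≤ S0 := Nat.cast_nonneg _
  have hweak : ∀ P : ℝ, -e ≤ P → -(bS σ.cycleType) - (S0 + 1) * e ≤ P := by
    intro P hP
    nlinarith [mul_nonneg hS0nn he0]
  by_cases hcase : n ≤ 2 * mu.1.rowLen 0
  · -- case 1
    apply hweak
    apply sm_prod_ge _ _ e he0 (fun c _ => habs c)
    intro c hc
    obtain ⟨j, hj⟩ : ∃ j, c.support.card = j + 1 := ⟨c.support.card - 1, by
      have := (sm_cyc σ c hc).1
      omega⟩
    have hj1 : 1 ≤ j := by
      have := (sm_cyc σ c hc).1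
      omega
    have hty := (sm_cyc σ c hc).2.2
    rw [hj] at hty
    have h1 := (abs_le.1 (powB mu j hj1 c hty)).1
    have h2 := pw_ge mu j hj1 hcase
    have h3 := (herr c hc j hj).2
    have h4 : ((j : ℝ) + 1) / (n : ℝ) ^ (j + 1) * (-((n : ℝ) / 2) ^ j) ≤
        ((j : ℝ) + 1) / (n : ℝ) ^ (j + 1) * pw mu j :=
      mul_le_mul_of_nonneg_left h2 (by positivity)
    have h5 : -(((j : ℝ) + 1) / n) ≤ ((j : ℝ) + 1) / (n : ℝ) ^ (j + 1) * (-((n : ℝ) / 2) ^ j) := by
      have h6 : ((j : ℝ) + 1) / (n : ℝ) ^ (j + 1) * (-((n : ℝ) / 2) ^ j) =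
          -(((j : ℝ) + 1) / n * (1 / 2) ^ j) := by
        rw [div_pow, pow_succ]
        field_simp
        rw [← mul_pow]
        norm_num
      rw [h6, neg_le_neg_iff]
      have h7 : (1 / 2 : ℝ) ^ j ≤ 1 := pow_le_one₀ (by norm_num) (by norm_num)
      have h8 : 0 ≤ ((j : ℝ) + 1) / n := by positivity
      nlinarith
    have h9 : ((j : ℝ) + 1) ^ 2 / n = (j : ℝ) * ((j : ℝ) + 1) / n + ((j : ℝ) + 1) / n := by ring
    rw [h9] at h3
    linarith
  · push Not at hcase
    have hcont := sm_content mu hrc hcase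
    by_cases hbad : Bad σ.cycleType
    · have hbSe : bS σ.cycleType =
          (1 / 2 : ℝ) ^ (σ.cycleType.sum - Multiset.card σ.cycleType) := by
        unfold bS
        rw [if_pos hbad]
      have h1 : |∏ c ∈ σ.cycleFactorsFinset, chi mu c / fd mu| ≤
          ∏ c ∈ σ.cycleFactorsFinset, (1 / 2 : ℝ) ^ (c.support.card - 1) +
            σ.cycleFactorsFinset.card * e := by
        rw [Finset.abs_prod]
        apply sm_prod_le _ _ _ e he0 (fun c _ => abs_nonneg _) (fun c _ => habs c)
        · intro c hc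
          obtain ⟨j, hj⟩ : ∃ j, c.support.card = j + 1 := ⟨c.support.card - 1, by
            have := (sm_cyc σ c hc).1
            omega⟩
          have hj1 : 1 ≤ j := by
            have := (sm_cyc σ c hc).1
            omega
          have hty := (sm_cyc σ c hc).2.2
          rw [hj] at hty
          have h1 := powC mu hcont j hj1 c hty
          have h3 := (herr c hc j hj).1
          rw [hj, Nat.add_sub_cancel]
          linarith
        · intro c _
          positivity
        · intro c _
          exact pow_le_one₀ (by norm_num) (by norm_num)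
      rw [sm_sum, ← hbSe] at h1
      have h2 : (σ.cycleFactorsFinset.card : ℝ) ≤ S0 := by
        exact_mod_cast (sm_card σ).trans hS0
      have h3 := (abs_le.1 h1).1
      have h4 : (σ.cycleFactorsFinset.card : ℝ) * e ≤ S0 * e :=
        mul_le_mul_of_nonneg_right h2 he0
      linarith
    · apply hweak
      have heven : Even (σ.cycleType.sum - Multiset.card σ.cycleType) := by
        have h1 := Perm.sign_of_cycleType σ
        rw [hsign] at h1
        have h2 : Even (σ.cycleType.sum + Multiset.card σ.cycleType) := by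
          by_contra hcon
          rw [Nat.not_even_iff_odd] at hcon
          rw [hcon.neg_one_pow] at h1
          exact absurd h1 (by decide)
        have h3 : Multiset.card σ.cycleType ≤ σ.cycleType.sum := by
          have h4 : ∀ x ∈ σ.cycleType, 1 ≤ x := fun x hx =>
            (Perm.two_le_of_mem_cycleType hx).trans' (by norm_num)
          have h5 := Multiset.card_nsmul_le_sum h4
          simpa using h5
        rw [Nat.even_sub h3]
        rw [Nat.even_add] at h2
        exact h2
      have hev : ∀ c ∈ σ.cycleType, Even c → Even (σ.cycleType.count c) := by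
        intro c hc hc2
        by_contra hcon
        rw [Nat.not_even_iff_odd] at hcon
        exact hbad ⟨heven, c, hc, hc2, hcon⟩
      rw [← Finset.prod_filter_mul_prod_filter_not σ.cycleFactorsFinset
        (fun c => Even c.support.card)]
      have hQ0 := sm_even_prod mu σ hev
      have hQ1 : |∏ c ∈ σ.cycleFactorsFinset.filter (fun c => Even c.support.card),
          (chi mu c / fd mu)| ≤ 1 := sm_prod_abs _ _ (fun c _ => habs c)
      have hR : -e ≤ ∏ c ∈ σ.cycleFactorsFinset.filter (fun c => ¬ Even c.support.card),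
          (chi mu c / fd mu) := by
        apply sm_prod_ge _ _ e he0 (fun c _ => habs c)
        intro c hc
        rw [Finset.mem_filter] at hc
        obtain ⟨j, hj⟩ : ∃ j, c.support.card = j + 1 := ⟨c.support.card - 1, by
          have := (sm_cyc σ c hc.1).1
          omega⟩
        have hj1 : 1 ≤ j := by
          have := (sm_cyc σ c hc.1).1
          omega
        have hty := (sm_cyc σ c hc.1).2.2
        rw [hj] at hty
        have hjev : Even j := by
          have h1 := hc.2
          rw [hj, Nat.even_add_one, not_not] at h1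
          exact h1
        have h1 := (abs_le.1 (powB mu j hj1 c hty)).1
        have h2 := pw_even mu j hjev
        have h3 := (herr c hc.1 j hj).1
        have h4 : 0 ≤ ((j : ℝ) + 1) / (n : ℝ) ^ (j + 1) * pw mu j :=
          mul_nonneg (by positivity) h2
        linarith
      have hQ1' := (abs_le.1 hQ1).2
      set Q := ∏ c ∈ σ.cycleFactorsFinset.filter (fun c => Even c.support.card),
          (chi mu c / fd mu)
      set R := ∏ c ∈ σ.cycleFactorsFinset.filter (fun c => ¬ Even c.support.card),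
          (chi mu c / fd mu)
      rcases le_or_gt 0 R with h3 | h3
      · have := mul_nonneg hQ0 h3
        linarith
      · nlinarith

end Pool.MP322
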