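import Pool.Agent.Lib.MP_322c5f_al.Defs

/-! job HS-2: contents of standard fillings. -/

set_option autoImplicit false

open Equiv Finset

namespace Pool.MP322

private theorem tabA_between {α β : YoungDiagram} {k : ℕ} {x : Fin k → ℕ × ℕ}
    (hx : IsTab α β k x) {i j : Fin k} {c : ℕ × ℕ} (h1 : x i ≤ c) (h2 : c ≤ x j)
    (h3 : c ≠ x i) (h4 : c ≠ x j) : ∃ l, i < l ∧ l < j ∧ x l = c := by
  have hc : c ∉ α := by
    intro hc
    exact hx.2.1 i (α.up_left_mem h1.1 h1.2 hc)
  rcases hx.2.2.2 j c h2 with h | ⟨l, hl, hlc⟩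
  · exact absurd h hc
  · refine ⟨l, ?_, ?_, hlc⟩
    · rcases hx.2.2.2 l (x i) (hlc ▸ h1) with h | ⟨l', hl', hl'c⟩
      · exact absurd h (hx.2.1 i)
      · have := hx.1 hl'c
        subst this
        refine lt_of_le_of_ne hl' ?_
        rintro rfl
        exact h3 hlc.symm
    · refine lt_of_le_of_ne hl ?_
      rintro rfl
      exact h4 hlc.symm

private theorem tabA_not_le {α β : YoungDiagram} {k : ℕ} {x : Fin k → ℕ × ℕ}
    (hx : IsTab α β k x) {i j : Fin k} (hij : i < j) : ¬ x j ≤ x i := by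
  intro h
  rcases hx.2.2.2 i (x j) h with h | ⟨l, hl, hlc⟩
  · exact hx.2.1 j h
  · have := hx.1 hlc
    subst this
    exact absurd hij (not_lt.2 hl)

theorem ct_ne_succ {α β : YoungDiagram} {k : ℕ} (x : Tab α β k) (i : ℕ) (h : i + 1 < k) :
    ct (x.1 ⟨i, by omega⟩) ≠ ct (x.1 ⟨i + 1, h⟩) := by
  intro he
  have hlt : (⟨i, by omega⟩ : Fin k) < ⟨i + 1, h⟩ := by
    rw [Fin.lt_def]; simp
  have hn := tabA_not_le x.2 hlt
  unfold ct at he
  rw [Prod.le_def] at hn
  have h1 : (x.1 ⟨i, by omega⟩).1 < (x.1 ⟨i + 1, h⟩).1 := by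
    by_contra hcon
    apply hn
    constructor <;> omega
  obtain ⟨l, hl1, hl2, -⟩ := tabA_between x.2 (i := ⟨i, by omega⟩) (j := ⟨i + 1, h⟩)
    (c := ((x.1 ⟨i, by omega⟩).1, (x.1 ⟨i, by omega⟩).2 + 1))
    (by rw [Prod.le_def]; simp) (by rw [Prod.le_def]; simp only; omega)
    (by intro hc; have := congrArg Prod.snd hc; simp at this)
    (by intro hc; have := congrArg Prod.fst hc; simp only at this; omega)
  rw [Fin.lt_def] at hl1 hl2
  simp only at hl1 hl2
  omega

theorem ct_ne_succ2 {α β : YoungDiagram} {k : ℕ} (x : Tab α β k) (i : ℕ) (h : i + 1 + 1 < k) :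
    ct (x.1 ⟨i, by omega⟩) ≠ ct (x.1 ⟨i + 1 + 1, h⟩) := by
  intro he
  have hlt : (⟨i, by omega⟩ : Fin k) < ⟨i + 1 + 1, h⟩ := by
    rw [Fin.lt_def]; simp only; omega
  have hn := tabA_not_le x.2 hlt
  unfold ct at he
  rw [Prod.le_def] at hn
  have h1 : (x.1 ⟨i, by omega⟩).1 < (x.1 ⟨i + 1 + 1, h⟩).1 := by
    by_contra hcon
    apply hn
    constructor <;> omega
  obtain ⟨l, hl1, hl2, hl3⟩ := tabA_between x.2 (i := ⟨i, by omega⟩) (j := ⟨i + 1 + 1, h⟩)
    (c := ((x.1 ⟨i, by omega⟩).1, (x.1 ⟨i, by omega⟩).2 + 1))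
    (by rw [Prod.le_def]; simp) (by rw [Prod.le_def]; simp only; omega)
    (by intro hc; have := congrArg Prod.snd hc; simp at this)
    (by intro hc; have := congrArg Prod.fst hc; simp only at this; omega)
  obtain ⟨m, hm1, hm2, hm3⟩ := tabA_between x.2 (i := ⟨i, by omega⟩) (j := ⟨i + 1 + 1, h⟩)
    (c := ((x.1 ⟨i, by omega⟩).1 + 1, (x.1 ⟨i, by omega⟩).2))
    (by rw [Prod.le_def]; simp) (by rw [Prod.le_def]; simp only; omega)
    (by intro hc; have := congrArg Prod.fst hc; simp at this)
    (by intro hc; have := congrArg Prod.snd hc; simp only at this; omega)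
  have hlm : l = m := by
    apply Fin.ext
    rw [Fin.lt_def] at hl1 hl2 hm1 hm2
    simp only at hl1 hl2 hm1 hm2
    omega
  rw [hlm, hm3] at hl3
  have := congrArg Prod.fst hl3
  simp at this

private theorem tabA_sw_left {k : ℕ} (i : ℕ) (h : i + 1 < k) :
    sw i h ⟨i, by omega⟩ = ⟨i + 1, h⟩ := by
  unfold sw
  exact Equiv.swap_apply_left _ _

private theorem tabA_sw_right {k : ℕ} (i : ℕ) (h : i + 1 < k) :
    sw i h ⟨i + 1, h⟩ = ⟨i, by omega⟩ := by
  unfold sw
  exact Equiv.swap_apply_right _ _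

private theorem tabA_sw_ne {k : ℕ} (i : ℕ) (h : i + 1 < k) (j : Fin k)
    (h1 : j.val ≠ i) (h2 : j.val ≠ i + 1) : sw i h j = j := by
  unfold sw
  apply Equiv.swap_apply_of_ne_of_ne
  · intro hj; exact h1 (congrArg Fin.val hj)
  · intro hj; exact h2 (congrArg Fin.val hj)

private theorem tabA_sw_sw {k : ℕ} (i : ℕ) (h : i + 1 < k) (j : Fin k) :
    sw i h (sw i h j) = j := by
  unfold sw
  rw [← Equiv.Perm.mul_apply, Equiv.swap_mul_self, Equiv.Perm.one_apply]

/-- neighbouring cells: comparable iff contents differ by one -/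
private theorem tabA_le_of_ct {α β : YoungDiagram} {k : ℕ} {x : Fin k → ℕ × ℕ}
    (hx : IsTab α β k x) {i j : Fin k} (hij : i < j)
    (h : ct (x j) - ct (x i) = 1 ∨ ct (x j) - ct (x i) = -1) : x i ≤ x j := by
  have hn := tabA_not_le hx hij
  unfold ct at h
  rw [Prod.le_def] at hn ⊢
  by_contra hcon
  apply hn
  rw [not_and_or] at hcon
  constructor <;> omega

private theorem tabA_ct_of_le {α β : YoungDiagram} {k : ℕ} {x : Fin k → ℕ × ℕ}
    (hx : IsTab α β k x) {i j : Fin k} (hij : i.val + 1 = j.val) (h : x i ≤ x j) :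
    ct (x j) - ct (x i) = 1 ∨ ct (x j) - ct (x i) = -1 := by
  have hne : x i ≠ x j := by
    intro he
    have := congrArg Fin.val (hx.1 he)
    omega
  rw [Prod.le_def] at h
  have key : ∀ c, x i ≤ c → c ≤ x j → c ≠ x i → c = x j := by
    intro c h1 h2 h3
    by_contra h4
    obtain ⟨l, hl1, hl2, -⟩ := tabA_between hx h1 h2 h3 h4
    rw [Fin.lt_def] at hl1 hl2
    omega
  unfold ct
  by_cases hs : (x i).2 < (x j).2
  · have h1 := key ((x i).1, (x i).2 + 1) (by rw [Prod.le_def]; simp)
      (by rw [Prod.le_def]; simp only; omega)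
      (by intro hc; have := congrArg Prod.snd hc; simp at this)
    have h2 := congrArg Prod.fst h1
    have h3 := congrArg Prod.snd h1
    simp only at h2 h3
    left
    omega
  · have hr : (x i).1 < (x j).1 := by
      by_contra hr
      apply hne
      apply Prod.ext <;> omega
    have h1 := key ((x i).1 + 1, (x i).2) (by rw [Prod.le_def]; simp)
      (by rw [Prod.le_def]; simp only; omega)
      (by intro hc; have := congrArg Prod.fst hc; simp at this)
    have h2 := congrArg Prod.fst h1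
    have h3 := congrArg Prod.snd h1
    simp only at h2 h3
    right
    omega

/-- swapping the cells number `i`, `i+1` is allowed iff their contents do not differ by `±1`. -/
theorem isTab_sw_iff {α β : YoungDiagram} {k : ℕ} (x : Tab α β k) (i : ℕ) (h : i + 1 < k) :
    IsTab α β k (x.1 ∘ sw i h) ↔
      (ct (x.1 ⟨i + 1, h⟩) - ct (x.1 ⟨i, by omega⟩) ≠ 1 ∧
        ct (x.1 ⟨i + 1, h⟩) - ct (x.1 ⟨i, by omega⟩) ≠ -1) := by
  have hlt : (⟨i, by omega⟩ : Fin k) < ⟨i + 1, h⟩ := by
    rw [Fin.lt_def]; simp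
  constructor
  · intro hy
    have hn := tabA_not_le hy hlt
    rw [Function.comp_apply, Function.comp_apply, tabA_sw_right, tabA_sw_left] at hn
    constructor
    · intro hc
      exact hn (tabA_le_of_ct x.2 hlt (Or.inl hc))
    · intro hc
      exact hn (tabA_le_of_ct x.2 hlt (Or.inr hc))
  · intro hct
    have hn : ¬ x.1 ⟨i, by omega⟩ ≤ x.1 ⟨i + 1, h⟩ := by
      intro hle
      rcases tabA_ct_of_le x.2 (i := ⟨i, by omega⟩) (j := ⟨i + 1, h⟩) rfl hle with hc | hc
      · exact hct.1 hc
      · exact hct.2 hc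
    refine ⟨x.2.1.comp (sw i h).injective, fun j => x.2.2.1 _, ?_, ?_⟩
    · intro c
      rw [x.2.2.2.1 c]
      constructor
      · rintro (hc | ⟨j, hj⟩)
        · exact Or.inl hc
        · right
          refine ⟨sw i h j, ?_⟩
          rw [Function.comp_apply, tabA_sw_sw, hj]
      · rintro (hc | ⟨j, hj⟩)
        · exact Or.inl hc
        · exact Or.inr ⟨sw i h j, hj⟩
    · intro j c hc
      rw [Function.comp_apply] at hc
      rcases x.2.2.2.2 (sw i h j) c hc with h1 | ⟨l, hl, hlc⟩
      · exact Or.inl h1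
      · right
        refine ⟨sw i h l, ?_, ?_⟩
        · by_cases hj1 : j.val = i
          · have hj1' : j = ⟨i, by omega⟩ := Fin.ext hj1
            rw [hj1', tabA_sw_left] at hl hc
            rw [Fin.le_def] at hl
            simp only at hl
            by_cases hl1 : l.val = i + 1
            · have hl1' : l = ⟨i + 1, h⟩ := Fin.ext hl1
              rw [hl1', tabA_sw_right, hj1']
            · by_cases hl2 : l.val = i
              · exfalso
                have hl2' : l = ⟨i, by omega⟩ := Fin.ext hl2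
                rw [hl2'] at hlc
                rw [← hlc] at hc
                exact hn hc
              · rw [tabA_sw_ne i h l hl2 hl1, Fin.le_def]
                omega
          · by_cases hj2 : j.val = i + 1
            · have hj2' : j = ⟨i + 1, h⟩ := Fin.ext hj2
              rw [hj2', tabA_sw_right] at hl
              rw [Fin.le_def] at hl
              simp only at hl
              by_cases hl1 : l.val = i
              · have hl1' : l = ⟨i, by omega⟩ := Fin.ext hl1
                rw [hl1', tabA_sw_left, hj2']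
              · rw [tabA_sw_ne i h l hl1 (by omega), Fin.le_def]
                omega
            · rw [tabA_sw_ne i h j hj1 hj2] at hl
              rw [Fin.le_def] at hl
              by_cases hl1 : l.val = i
              · have hl1' : l = ⟨i, by omega⟩ := Fin.ext hl1
                rw [hl1', tabA_sw_left, Fin.le_def]
                simp only
                omega
              · by_cases hl2 : l.val = i + 1
                · have hl2' : l = ⟨i + 1, h⟩ := Fin.ext hl2
                  rw [hl2', tabA_sw_right, Fin.le_def]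
                  simp only
                  omega
                · rw [tabA_sw_ne i h l hl1 hl2, Fin.le_def]
                  omega
        · rw [Function.comp_apply, tabA_sw_sw, hlc]

private theorem tabA_yd_bound {D : ℤ} (hD : D ≠ 0) : |(1 : ℝ) / ((D : ℤ) : ℝ)| ≤ 1 := by
  have h1 : (1 : ℝ) ≤ |((D : ℤ) : ℝ)| := by
    rw [← Int.cast_abs]
    have : (1 : ℤ) ≤ |D| := Int.one_le_abs hD
    exact_mod_cast this
  rw [abs_div, abs_one]
  exact div_le_one_of_le₀ h1 (abs_nonneg _)

theorem abs_yd_le_one {α β : YoungDiagram} {k : ℕ} (x : Tab α β k) (i : ℕ) (h : i + 1 < k) :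
    |yd x.1 i h| ≤ 1 := by
  unfold yd
  apply tabA_yd_bound
  have := ct_ne_succ x i h
  omega

/-- if the swap is not allowed, the off-diagonal coefficient vanishes. -/
theorem yd_sq_eq_one {α β : YoungDiagram} {k : ℕ} (x : Tab α β k) (i : ℕ) (h : i + 1 < k)
    (hx : ¬ IsTab α β k (x.1 ∘ sw i h)) : yd x.1 i h ^ 2 = 1 := by
  rw [isTab_sw_iff] at hx
  have h1 : ct (x.1 ⟨i + 1, h⟩) - ct (x.1 ⟨i, by omega⟩) = 1 ∨
      ct (x.1 ⟨i + 1, h⟩) - ct (x.1 ⟨i, by omega⟩) = -1 := by
    by_contra hcon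
    rw [not_or] at hcon
    exact hx hcon
  unfold yd
  rcases h1 with h1 | h1
  · rw [h1]; norm_num
  · rw [h1]; norm_num

/-- if the swap is allowed, the off-diagonal coefficient is positive. -/
theorem yd_sq_lt_one {α β : YoungDiagram} {k : ℕ} (x : Tab α β k) (i : ℕ) (h : i + 1 < k)
    (hx : IsTab α β k (x.1 ∘ sw i h)) : yd x.1 i h ^ 2 < 1 := by
  rw [isTab_sw_iff] at hx
  have h0 := ct_ne_succ x i h
  unfold yd
  have h2 : (2 : ℤ) ≤ |ct (x.1 ⟨i + 1, h⟩) - ct (x.1 ⟨i, by omega⟩)| := by
    rcases abs_cases (ct (x.1 ⟨i + 1, h⟩) - ct (x.1 ⟨i, by omega⟩)) with h3 | h3 <;> omega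
  have h3 : (2 : ℝ) ≤ |((ct (x.1 ⟨i + 1, h⟩) - ct (x.1 ⟨i, by omega⟩) : ℤ) : ℝ)| := by
    rw [← Int.cast_abs]
    exact_mod_cast h2
  rw [div_pow, one_pow, ← sq_abs]
  rw [div_lt_one (by positivity)]
  nlinarith

theorem yd_sw {k : ℕ} (x : Fin k → ℕ × ℕ) (i : ℕ) (h : i + 1 < k) :
    yd (x ∘ sw i h) i h = - yd x i h := by
  unfold yd
  rw [Function.comp_apply, Function.comp_apply, tabA_sw_right, tabA_sw_left]
  rw [← neg_sub, Int.cast_neg, div_neg]

private theorem tabA_ct_step {lam mu : YoungDiagram} {n : ℕ} {x y : Fin n → ℕ × ℕ}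
    (hx : IsTab ⊥ lam n x) (hy : IsTab ⊥ mu n y) (i : Fin n) (ih : ∀ j < i, x j = y j)
    (h : ct (x i) = ct (y i)) (hne : (x i).1 < (y i).1) : False := by
  unfold ct at h
  have hle : x i ≤ y i := by
    rw [Prod.le_def]
    constructor <;> omega
  rcases hy.2.2.2 i (x i) hle with h1 | ⟨j, hj, hjc⟩
  · exact absurd h1 (YoungDiagram.notMem_bot _)
  · have hji : j ≠ i := by
      rintro rfl
      rw [hjc] at hne
      exact lt_irrefl _ hne
    have hlt := lt_of_le_of_ne hj hji
    rw [← ih j hlt] at hjc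
    exact hji (hx.1 hjc)

/-- a standard filling of a straight shape is determined by its contents. -/
theorem tab_ct_inj {lam mu : YoungDiagram} {n : ℕ} (x : Tab ⊥ lam n) (y : Tab ⊥ mu n)
    (h : ∀ i, ct (x.1 i) = ct (y.1 i)) : x.1 = y.1 := by
  have key : ∀ m : ℕ, ∀ i : Fin n, i.val = m → x.1 i = y.1 i := by
    intro m
    induction m using Nat.strong_induction_on with
    | _ m ih =>
      intro i hi
      have ih' : ∀ j < i, x.1 j = y.1 j := by
        intro j hj
        rw [Fin.lt_def] at hj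
        exact ih j.val (by omega) j rfl
      have hc := h i
      rcases lt_trichotomy (x.1 i).1 (y.1 i).1 with h1 | h1 | h1
      · exact absurd (tabA_ct_step x.2 y.2 i ih' hc h1) not_false
      · unfold ct at hc
        apply Prod.ext
        · exact h1
        · omega
      · exact absurd (tabA_ct_step y.2 x.2 i (fun j hj => (ih' j hj).symm) hc.symm h1) not_false
  funext i
  exact key i.val i rfl

theorem tab_shape_eq {lam mu : YoungDiagram} {n : ℕ} (x : Tab ⊥ lam n) (y : Tab ⊥ mu n)
    (h : x.1 = y.1) : lam = mu := by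
  apply SetLike.ext
  intro c
  rw [x.2.2.2.1 c, y.2.2.2.1 c, h]

end Pool.MP322
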